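import Mathlib

set_option linter.all false

section

/-! Polar decomposition and the Ore condition in the commutant of a self-adjoint set of
operators in which every isometry is unitary. -/

open scoped InnerProductSpace

namespace Pool.Agent.MP_4f4d9f_gt.VNAbs

variable {H : Type} [NormedAddCommGroup H] [InnerProductSpace ℂ H] [CompleteSpace H]
  {R : Set (H →L[ℂ] H)}

theorem star_mem (hR : ∀ r ∈ R, star r ∈ R) {x : H →L[ℂ] H} (hx : x ∈ R.centralizer) :
    star x ∈ R.centralizer := by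
  intro r hr
  have := congrArg star (hx _ (hR r hr))
  simpa using this.symm

theorem denseRange_of_star_injective {x : H →L[ℂ] H} (h : Function.Injective (star x : H →L[ℂ] H)) :
    DenseRange x := by
  have h1 : (x.range)ᗮ = ⊥ := by
    rw [ContinuousLinearMap.orthogonal_range]
    exact LinearMap.ker_eq_bot.2 h
  have h2 := Submodule.topologicalClosure_eq_top_iff.2 h1
  exact Submodule.dense_iff_topologicalClosure_eq_top.2 h2

theorem star_injective_of_denseRange {x : H →L[ℂ] H} (h : DenseRange x) :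
    Function.Injective (star x : H →L[ℂ] H) := by
  have h2 : x.range.topologicalClosure = ⊤ := Submodule.dense_iff_topologicalClosure_eq_top.1 h
  have h1 := Submodule.topologicalClosure_eq_top_iff.1 h2
  rw [ContinuousLinearMap.orthogonal_range] at h1
  exact LinearMap.ker_eq_bot.1 h1

omit [CompleteSpace H] in
theorem cancel_right {r u v : H →L[ℂ] H} (hr : DenseRange r) (h : u * r = v * r) : u = v := by
  have : (u : H → H) = v := hr.equalizer u.continuous v.continuous (by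
    funext ξ
    exact congrArg (fun T : H →L[ℂ] H => T ξ) h)
  exact DFunLike.coe_injective this

omit [CompleteSpace H] in
theorem cancel_left {r u v : H →L[ℂ] H} (hr : Function.Injective r) (h : r * u = r * v) :
    u = v := by
  ext ξ
  exact hr (congrArg (fun T : H →L[ℂ] H => T ξ) h)

theorem douglas {r y : H →L[ℂ] H} (hr : r ∈ R.centralizer) (hy : y ∈ R.centralizer)
    (hd : DenseRange r) (hn : ∀ ξ, ‖y ξ‖ ≤ ‖r ξ‖) : ∃ u ∈ R.centralizer, u * r = y := by
  have key : (y.toLinearMap.extendOfNorm r.toLinearMap) * r = y := by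
    ext ξ
    exact LinearMap.extendOfNorm_eq (f := y.toLinearMap) (e := r.toLinearMap) hd
      ⟨1, fun ξ => by simpa using hn ξ⟩ ξ
  refine ⟨_, fun t ht => ?_, key⟩
  refine cancel_right hd ?_
  rw [mul_assoc, key, mul_assoc, hr t ht, ← mul_assoc, key, hy t ht]

theorem exists_root {h : H →L[ℂ] H} (hh : h ∈ R.centralizer) (h0 : 0 ≤ h) :
    ∃ r ∈ R.centralizer, star r = r ∧ r * r = h := by
  refine ⟨CFC.sqrt h, fun t ht => ?_, (IsSelfAdjoint.of_nonneg (CFC.sqrt_nonneg h)).star_eq,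
    CFC.sqrt_mul_sqrt_self h h0⟩
  have : Commute h t := (hh t ht).symm
  exact (this.cfcₙ_nnreal _).symm

theorem norm_sq_eq (x : H →L[ℂ] H) (ξ : H) : ((‖x ξ‖ ^ 2 : ℝ) : ℂ) = ⟪ξ, (star x * x) ξ⟫_ℂ := by
  rw [mul_apply_eq_comp, ContinuousLinearMap.star_eq_adjoint,
    ContinuousLinearMap.adjoint_inner_right, inner_self_eq_norm_sq_to_K]
  norm_cast

omit [InnerProductSpace ℂ H] [CompleteSpace H] in
theorem le_of_sq_eq_add {a b c : H} (h : ‖a‖ ^ 2 = ‖b‖ ^ 2 + ‖c‖ ^ 2) : ‖b‖ ≤ ‖a‖ :=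
  (sq_le_sq₀ (norm_nonneg _) (norm_nonneg _)).1 (by rw [h]; nlinarith [sq_nonneg ‖c‖])

omit [CompleteSpace H] in
theorem one_sub_mem {x : H →L[ℂ] H} (hx : x ∈ R.centralizer) : 1 - x ∈ R.centralizer := by
  intro t ht
  rw [mul_sub, sub_mul, hx t ht, mul_one, one_mul]

/-- Joint polar decomposition of a column `(y, a)` with `a` injective. -/
theorem polar_two (hR : ∀ r ∈ R, star r ∈ R) {y a : H →L[ℂ] H} (hy : y ∈ R.centralizer)
    (ha : a ∈ R.centralizer) (hi : Function.Injective a) :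
    ∃ r u v : H →L[ℂ] H, u ∈ R.centralizer ∧ v ∈ R.centralizer ∧ star r = r ∧
      Function.Injective r ∧ u * r = y ∧ v * r = a ∧ star u * u + star v * v = 1 := by
  obtain ⟨r, hr, hsr, hrr⟩ := exists_root (R := R) (h := star y * y + star a * a)
    (Set.add_mem_centralizer (Set.mul_mem_centralizer (star_mem hR hy) hy)
      (Set.mul_mem_centralizer (star_mem hR ha) ha))
    (add_nonneg (star_mul_self_nonneg y) (star_mul_self_nonneg a))
  have hn : ∀ ξ, ‖r ξ‖ ^ 2 = ‖y ξ‖ ^ 2 + ‖a ξ‖ ^ 2 := by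
    intro ξ
    have h1 := norm_sq_eq r ξ
    rw [hsr, hrr, add_apply, inner_add_right, ← norm_sq_eq, ← norm_sq_eq] at h1
    exact_mod_cast h1
  have hri : Function.Injective r := by
    refine (injective_iff_map_eq_zero r).2 fun ξ hξ => hi ?_
    have := hn ξ
    rw [hξ, norm_zero] at this
    have h2 : ‖a ξ‖ = 0 := by nlinarith [sq_nonneg ‖y ξ‖, sq_nonneg ‖a ξ‖, norm_nonneg (a ξ)]
    rw [map_zero]
    exact norm_eq_zero.1 h2
  have hrd : DenseRange r := denseRange_of_star_injective (by rwa [hsr])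
  obtain ⟨u, hu, hur⟩ := douglas hr hy hrd fun ξ =>
    le_of_sq_eq_add (hn ξ)
  obtain ⟨v, hv, hvr⟩ := douglas hr ha hrd fun ξ =>
    le_of_sq_eq_add ((hn ξ).trans (add_comm _ _))
  refine ⟨r, u, v, hu, hv, hsr, hri, hur, hvr, ?_⟩
  refine cancel_left hri (cancel_right hrd ?_)
  have e1 : star y = r * star u := by rw [← hur, star_mul, hsr]
  have e2 : star a = r * star v := by rw [← hvr, star_mul, hsr]
  rw [mul_one, hrr, e1, e2]
  nth_rewrite 1 [← hur]
  nth_rewrite 1 [← hvr]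
  noncomm_ring

/-- Every isometry in the commutant is unitary. -/
def FinCom (R : Set (H →L[ℂ] H)) : Prop :=
  ∀ u ∈ R.centralizer, star u * u = 1 → u * star u = 1

theorem injective_star (hR : ∀ r ∈ R, star r ∈ R) (hF : FinCom R) {a : H →L[ℂ] H}
    (ha : a ∈ R.centralizer) (hi : Function.Injective a) :
    Function.Injective (star a : H →L[ℂ] H) := by
  obtain ⟨r, u, v, -, hv, hsr, hri, hur, hvr, h1⟩ :=
    polar_two hR (Set.zero_mem_centralizer) ha hi
  have hrd : DenseRange r := denseRange_of_star_injective (by rwa [hsr])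
  have hu0 : u = 0 := cancel_right hrd (by rw [hur, zero_mul])
  rw [hu0, mul_zero, zero_add] at h1
  have h2 := hF v hv h1
  rw [← hvr, star_mul, hsr]
  refine hri.comp (f := (star v : H →L[ℂ] H)) ?_
  intro ξ η h
  have := congrArg v h
  have e : ∀ ζ, v ((star v : H →L[ℂ] H) ζ) = ζ := fun ζ =>
    congrArg (fun T : H →L[ℂ] H => T ζ) h2
  rwa [e, e] at this

/-- The Ore condition for injective operators. -/
theorem ore (hR : ∀ r ∈ R, star r ∈ R) (hF : FinCom R) {y a : H →L[ℂ] H} (hy : y ∈ R.centralizer)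
    (ha : a ∈ R.centralizer) (hi : Function.Injective a) :
    ∃ s b : H →L[ℂ] H, s ∈ R.centralizer ∧ b ∈ R.centralizer ∧ Function.Injective s ∧
      s * y = b * a := by
  obtain ⟨r, u, v, hu, hv, hsr, -, hur, hvr, h1⟩ := polar_two hR hy ha hi
  have hsv : Function.Injective (star v : H →L[ℂ] H) := by
    have := injective_star hR hF ha hi
    rw [← hvr, star_mul, hsr] at this
    exact Function.Injective.of_comp (f := r) this
  have hvi : Function.Injective v := by
    simpa using injective_star hR hF (star_mem hR hv) hsv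
  have h2 : star v * v = 1 - star u * u := by rw [← h1]; abel
  refine ⟨1 - u * star u, u * star v,
    one_sub_mem (Set.mul_mem_centralizer hu (star_mem hR hu)),
    Set.mul_mem_centralizer hu (star_mem hR hv), ?_, ?_⟩
  · refine (injective_iff_map_eq_zero _).2 fun ξ hξ => ?_
    have h3 : ξ = u ((star u : H →L[ℂ] H) ξ) := sub_eq_zero.1 hξ
    have h4 : (star v : H →L[ℂ] H) (v ((star u : H →L[ℂ] H) ξ)) = 0 := by
      have := congrArg (fun T : H →L[ℂ] H => T ((star u : H →L[ℂ] H) ξ)) h2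
      change (star v : H →L[ℂ] H) (v ((star u : H →L[ℂ] H) ξ)) =
        (star u : H →L[ℂ] H) ξ - (star u : H →L[ℂ] H) (u ((star u : H →L[ℂ] H) ξ)) at this
      rw [this, ← h3, sub_self]
    have h5 : (star u : H →L[ℂ] H) ξ = 0 :=
      hvi ((hsv (h4.trans (map_zero _).symm)).trans (map_zero _).symm)
    rw [h3, h5, map_zero]
  · rw [← hur, ← hvr, mul_assoc u, ← mul_assoc (star v), h2]
    noncomm_ring

/-- An element of the commutant that is not a left zero divisor there is injective. -/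
theorem injective_of_regular (hR : ∀ r ∈ R, star r ∈ R) {a : H →L[ℂ] H}
    (ha : a ∈ R.centralizer) (h : ∀ e ∈ R.centralizer, a * e = 0 → e = 0) :
    Function.Injective a := by
  let e : H →L[ℂ] H := a.ker.starProjection
  have he : IsStarProjection e := isStarProjection_starProjection
  have hinv : ∀ t ∈ R, e * t * e = t * e := by
    intro t ht
    ext ξ
    refine Submodule.starProjection_eq_self_iff.2 ?_
    have h1 : a (e ξ) = 0 := Submodule.starProjection_apply_mem a.ker ξ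
    have h2 : a (t (e ξ)) = t (a (e ξ)) :=
      (congrArg (fun T : H →L[ℂ] H => T (e ξ)) (ha t ht)).symm
    change a (t (e ξ)) = 0
    rw [h2, h1, map_zero]
  have hec : e ∈ R.centralizer := by
    intro t ht
    have h1 := congrArg star (hinv _ (hR t ht))
    simp only [star_mul, star_star, he.isSelfAdjoint.star_eq] at h1
    rw [← h1, ← mul_assoc, hinv t ht]
  have h0 : e = 0 := h e hec (by
    ext ξ
    exact Submodule.starProjection_apply_mem a.ker ξ)
  refine (injective_iff_map_eq_zero _).2 fun ξ hξ => ?_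
  have : e ξ = ξ := Submodule.starProjection_eq_self_iff.2 hξ
  rw [← this, h0]
  rfl

end Pool.Agent.MP_4f4d9f_gt.VNAbs

end

section

/-! Von Neumann dimension of invariant subspaces with respect to a finite wandering frame. -/

open scoped InnerProductSpace

namespace Pool.Agent.MP_4f4d9f_gt

variable {G H₁ H₂ I J : Type} [Group G] [Fintype I] [Fintype J]
  [NormedAddCommGroup H₁] [InnerProductSpace ℂ H₁] [CompleteSpace H₁]
  [NormedAddCommGroup H₂] [InnerProductSpace ℂ H₂] [CompleteSpace H₂]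

/-- A unitary representation together with finitely many vectors whose translates satisfy the
Parseval identity. -/
structure GFrame (π : G →* (H₁ →L[ℂ] H₁)) (e : I → H₁) : Prop where
  star_eq : ∀ g, star (π g) = π g⁻¹
  parseval : ∀ ξ, HasSum (fun x : I × G => ‖⟪π x.2 (e x.1), ξ⟫_ℂ‖ ^ 2) (‖ξ‖ ^ 2)

/-- The dimension of the closure of a subspace. -/
noncomputable def gdim (e : I → H₁) (U : Submodule ℂ H₁) : ℝ :=
  ∑ i, ‖U.topologicalClosure.starProjection (e i)‖ ^ 2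

variable {π₁ : G →* (H₁ →L[ℂ] H₁)} {π₂ : G →* (H₂ →L[ℂ] H₂)} {e₁ : I → H₁} {e₂ : J → H₂}

namespace HilbAux

/-- The adjoint of a contraction with values in a closed subspace is dominated by the
projection. -/
theorem norm_adjoint_le (u : H₁ →L[ℂ] H₂) (U : Submodule ℂ H₂) (hu : ∀ ξ, ‖u ξ‖ ≤ ‖ξ‖)
    (hU : ∀ ξ, u ξ ∈ U.topologicalClosure) (e : H₂) :
    ‖ContinuousLinearMap.adjoint u e‖ ≤ ‖U.topologicalClosure.starProjection e‖ := by
  set w := ContinuousLinearMap.adjoint u e with hw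
  have h1 : ⟪w, w⟫_ℂ = ⟪U.topologicalClosure.starProjection e, u w⟫_ℂ := by
    rw [Submodule.inner_starProjection_left_eq_right,
      Submodule.starProjection_eq_self_iff.2 (hU w)]
    nth_rewrite 1 [hw]
    rw [ContinuousLinearMap.adjoint_inner_left]
  have h2 : ‖w‖ * ‖w‖ ≤ ‖U.topologicalClosure.starProjection e‖ * ‖w‖ := by
    have h3 : ‖⟪w, w⟫_ℂ‖ = ‖w‖ * ‖w‖ := by
      rw [inner_self_eq_norm_sq_to_K]; simp [sq]
    rw [← h3, h1]
    exact (norm_inner_le_norm _ _).trans (mul_le_mul_of_nonneg_left (hu w) (norm_nonneg _))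
  rcases (norm_nonneg w).eq_or_lt with h0 | h0
  · rw [← h0]; exact norm_nonneg _
  · exact le_of_mul_le_mul_right h2 h0

omit [CompleteSpace H₁] in
theorem map_closure {U : Submodule ℂ H₁} {S : H₁ →L[ℂ] H₁} (h1 : ∀ ξ ∈ U, S ξ ∈ U) {ξ : H₁}
    (hξ : ξ ∈ U.topologicalClosure) : S ξ ∈ U.topologicalClosure :=
  map_mem_closure S.continuous hξ h1

omit [Fintype I] in
theorem inner_left (F : GFrame π₁ e₁) (g : G) (ξ η : H₁) :
    ⟪π₁ g ξ, η⟫_ℂ = ⟪ξ, π₁ g⁻¹ η⟫_ℂ := by
  rw [← F.star_eq, ContinuousLinearMap.star_eq_adjoint, ContinuousLinearMap.adjoint_inner_right]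

theorem norm_sq_eq_sum (F : GFrame π₁ e₁) (ξ : H₁) :
    ‖ξ‖ ^ 2 = ∑ i, ∑' g, ‖⟪π₁ g (e₁ i), ξ⟫_ℂ‖ ^ 2 := by
  have h := F.parseval ξ
  have h2 := h.prod_fiberwise (g := fun i => ∑' g, ‖⟪π₁ g (e₁ i), ξ⟫_ℂ‖ ^ 2)
    fun i => (h.summable.prod_factor i).hasSum
  exact h2.unique (hasSum_fintype _)

omit [Fintype I] [Fintype J] in
theorem adjoint_equiv (F₁ : GFrame π₁ e₁) (F₂ : GFrame π₂ e₂) (T : H₁ →L[ℂ] H₂)
    (hT : ∀ g ξ, T (π₁ g ξ) = π₂ g (T ξ)) (g : G) (η : H₂) :
    ContinuousLinearMap.adjoint T (π₂ g η) = π₁ g (ContinuousLinearMap.adjoint T η) := by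
  refine ext_inner_right ℂ fun ξ => ?_
  rw [ContinuousLinearMap.adjoint_inner_left, inner_left F₁, inner_left F₂,
    ContinuousLinearMap.adjoint_inner_left, hT]

end HilbAux

theorem gdim_mono (e : I → H₁) {U U' : Submodule ℂ H₁} (h : U ≤ U'.topologicalClosure) :
    gdim e U ≤ gdim e U' := by
  have hle : U.topologicalClosure ≤ U'.topologicalClosure :=
    Submodule.topologicalClosure_minimal _ h (Submodule.isClosed_topologicalClosure _)
  refine Finset.sum_le_sum fun i _ => pow_le_pow_left₀ (norm_nonneg _) ?_ 2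
  have := HilbAux.norm_adjoint_le U.topologicalClosure.starProjection U'
    (fun ξ => Submodule.norm_starProjection_apply_le _ ξ)
    (fun ξ => hle (Submodule.starProjection_apply_mem _ ξ)) (e i)
  rwa [← ContinuousLinearMap.star_eq_adjoint,
    (isStarProjection_starProjection (U := U.topologicalClosure)).isSelfAdjoint.star_eq] at this

theorem gdim_orthogonal (e : I → H₁) (U : Submodule ℂ H₁) :
    gdim e U + gdim e Uᗮ = ∑ i, ‖e i‖ ^ 2 := by
  unfold gdim
  rw [← Finset.sum_add_distrib]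
  refine Finset.sum_congr rfl fun i _ => ?_
  have h : Uᗮ.topologicalClosure = U.topologicalClosureᗮ := by
    rw [Submodule.orthogonal_closure]
    exact (Submodule.isClosed_orthogonal U).submodule_topologicalClosure_eq
  rw [Submodule.norm_sq_eq_add_norm_sq_starProjection (e i) U.topologicalClosure]
  simp only [h]

/-- The projection onto a subspace invariant under `S` and its adjoint commutes with `S`. -/
theorem starProjection_comm {U : Submodule ℂ H₁} {S : H₁ →L[ℂ] H₁} (h1 : ∀ ξ ∈ U, S ξ ∈ U)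
    (h2 : ∀ ξ ∈ U, (star S : H₁ →L[ℂ] H₁) ξ ∈ U) (ξ : H₁) :
    U.topologicalClosure.starProjection (S ξ) = S (U.topologicalClosure.starProjection ξ) := by
  refine Submodule.eq_starProjection_of_mem_orthogonal
    (HilbAux.map_closure h1 (Submodule.starProjection_apply_mem _ ξ)) ?_
  rw [← map_sub, Submodule.mem_orthogonal]
  intro u hu
  rw [← ContinuousLinearMap.adjoint_inner_left, ← ContinuousLinearMap.star_eq_adjoint]
  exact Submodule.inner_right_of_mem_orthogonal (HilbAux.map_closure h2 hu)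
    (Submodule.sub_starProjection_mem_orthogonal ξ)

theorem hs_adjoint (F₁ : GFrame π₁ e₁) (F₂ : GFrame π₂ e₂) (T : H₁ →L[ℂ] H₂)
    (hT : ∀ g ξ, T (π₁ g ξ) = π₂ g (T ξ)) :
    ∑ j, ‖ContinuousLinearMap.adjoint T (e₂ j)‖ ^ 2 = ∑ i, ‖T (e₁ i)‖ ^ 2 := by
  simp only [HilbAux.norm_sq_eq_sum F₁ (ContinuousLinearMap.adjoint T _),
    HilbAux.norm_sq_eq_sum F₂ (T _)]
  rw [Finset.sum_comm]
  refine Finset.sum_congr rfl fun i _ => Finset.sum_congr rfl fun j _ => ?_
  rw [← (Equiv.inv G).tsum_eq]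
  refine tsum_congr fun g => ?_
  rw [Equiv.inv_apply, ContinuousLinearMap.adjoint_inner_right, hT, HilbAux.inner_left F₂,
    inv_inv, norm_inner_symm]

namespace HilbAux

omit [Fintype I] in
theorem proj_equiv (F : GFrame π₁ e₁) {U : Submodule ℂ H₁} (hU : ∀ g, ∀ ξ ∈ U, π₁ g ξ ∈ U)
    (g : G) (ξ : H₁) : U.topologicalClosure.starProjection (π₁ g ξ) =
      π₁ g (U.topologicalClosure.starProjection ξ) :=
  starProjection_comm (hU g) (by rw [F.star_eq]; exact hU _) ξ

theorem rank_nullity_le (F₁ : GFrame π₁ e₁) (F₂ : GFrame π₂ e₂) (T : H₁ →L[ℂ] H₂)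
    (hT : ∀ g ξ, T (π₁ g ξ) = π₂ g (T ξ)) :
    ∑ i, ‖e₁ i‖ ^ 2 ≤ gdim e₁ T.ker + gdim e₂ T.range := by
  let k : H₁ →L[ℂ] H₁ := T.ker.topologicalClosure.starProjection
  have hcl : T.ker.topologicalClosure = T.ker :=
    (ContinuousLinearMap.isClosed_ker T).submodule_topologicalClosure_eq
  have hk : ∀ g ξ, k (π₁ g ξ) = π₁ g (k ξ) := proj_equiv F₁ fun g ξ hξ => by
    change T (π₁ g ξ) = 0
    rw [hT, show T ξ = 0 from hξ, map_zero]
  have hkc : k ∈ (Set.range π₁).centralizer := by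
    rintro _ ⟨g, rfl⟩
    ext ξ
    exact (hk g ξ).symm
  have hR : ∀ r ∈ Set.range π₁, star r ∈ Set.range π₁ := by
    rintro _ ⟨g, rfl⟩
    exact ⟨g⁻¹, (F₁.star_eq g).symm⟩
  have hTc : ContinuousLinearMap.adjoint T ∘L T ∈ (Set.range π₁).centralizer := by
    rintro _ ⟨g, rfl⟩
    ext ξ
    change π₁ g (ContinuousLinearMap.adjoint T (T ξ)) =
      ContinuousLinearMap.adjoint T (T (π₁ g ξ))
    rw [hT, adjoint_equiv F₁ F₂ T hT]
  obtain ⟨r, hr, hsr, hrr⟩ := VNAbs.exists_root (R := Set.range π₁)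
    (h := ContinuousLinearMap.adjoint T ∘L T + star k * k)
    (Set.add_mem_centralizer hTc (Set.mul_mem_centralizer (VNAbs.star_mem hR hkc) hkc))
    (add_nonneg ((ContinuousLinearMap.nonneg_iff_isPositive _).2
      (ContinuousLinearMap.isPositive_adjoint_comp_self T)) (star_mul_self_nonneg k))
  have hn : ∀ ξ, ‖r ξ‖ ^ 2 = ‖T ξ‖ ^ 2 + ‖k ξ‖ ^ 2 := by
    intro ξ
    have h1 := VNAbs.norm_sq_eq r ξ
    rw [hsr, hrr, add_apply, inner_add_right, ← VNAbs.norm_sq_eq,
      ContinuousLinearMap.comp_apply, ContinuousLinearMap.adjoint_inner_right,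
      inner_self_eq_norm_sq_to_K] at h1
    have h2 := congrArg Complex.re h1
    simp only [Complex.add_re, Complex.ofReal_re] at h2
    rw [h2]
    norm_cast
  have hri : Function.Injective r := by
    refine (injective_iff_map_eq_zero r).2 fun ξ hξ => ?_
    have := hn ξ
    rw [hξ, norm_zero] at this
    have h2 : ‖k ξ‖ = 0 := by nlinarith [sq_nonneg ‖T ξ‖, sq_nonneg ‖k ξ‖, norm_nonneg (k ξ)]
    have h3 : ‖T ξ‖ = 0 := by nlinarith [sq_nonneg ‖T ξ‖, sq_nonneg ‖k ξ‖, norm_nonneg (T ξ)]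
    have h4 : k ξ = ξ := Submodule.starProjection_eq_self_iff.2 (by
      rw [hcl]; exact norm_eq_zero.1 h3)
    rw [← h4]
    exact norm_eq_zero.1 h2
  have hrd : DenseRange r := VNAbs.denseRange_of_star_injective (by rwa [hsr])
  obtain ⟨v, hv, hvr⟩ := VNAbs.douglas hr hkc hrd fun ξ =>
    (sq_le_sq₀ (norm_nonneg _) (norm_nonneg _)).1 (by rw [hn]; nlinarith [sq_nonneg ‖T ξ‖])
  have hvr' : ∀ ξ, v (r ξ) = k ξ := fun ξ => congrArg (fun S : H₁ →L[ℂ] H₁ => S ξ) hvr
  let u : H₁ →L[ℂ] H₂ := T.toLinearMap.extendOfNorm r.toLinearMap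
  have hur : ∀ ξ, u (r ξ) = T ξ := fun ξ =>
    LinearMap.extendOfNorm_eq (f := T.toLinearMap) (e := r.toLinearMap) hrd
      ⟨1, fun ξ => by
        have : ‖T ξ‖ ≤ ‖r ξ‖ :=
          (sq_le_sq₀ (norm_nonneg _) (norm_nonneg _)).1 (by rw [hn]; nlinarith [sq_nonneg ‖k ξ‖])
        simpa using this⟩ ξ
  have hrg : ∀ g ξ, r (π₁ g ξ) = π₁ g (r ξ) := fun g ξ =>
    (congrArg (fun S : H₁ →L[ℂ] H₁ => S ξ) (hr _ ⟨g, rfl⟩)).symm
  have hu : ∀ g ξ, u (π₁ g ξ) = π₂ g (u ξ) := fun g ξ =>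
    hrd.induction_on ξ (isClosed_eq (by fun_prop) (by fun_prop)) fun η => by
      rw [← hrg, hur, hur, hT]
  have hvg : ∀ g ξ, v (π₁ g ξ) = π₁ g (v ξ) := fun g ξ =>
    (congrArg (fun S : H₁ →L[ℂ] H₁ => S ξ) (hv _ ⟨g, rfl⟩)).symm
  have hsum : ∀ ξ, ‖ξ‖ ^ 2 = ‖u ξ‖ ^ 2 + ‖v ξ‖ ^ 2 := fun ξ =>
    hrd.induction_on ξ (isClosed_eq (by fun_prop) (by fun_prop)) fun η => by
      rw [hur, hvr', hn]
  have hu1 : ∀ ξ, ‖u ξ‖ ≤ ‖ξ‖ := fun ξ =>
    (sq_le_sq₀ (norm_nonneg _) (norm_nonneg _)).1 (by rw [hsum ξ]; nlinarith [sq_nonneg ‖v ξ‖])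
  have hv1 : ∀ ξ, ‖v ξ‖ ≤ ‖ξ‖ := fun ξ =>
    (sq_le_sq₀ (norm_nonneg _) (norm_nonneg _)).1 (by rw [hsum ξ]; nlinarith [sq_nonneg ‖u ξ‖])
  have hum : ∀ ξ, u ξ ∈ T.range.topologicalClosure := fun ξ =>
    hrd.induction_on ξ ((Submodule.isClosed_topologicalClosure _).preimage u.continuous)
      fun η => by
        rw [hur]
        exact Submodule.le_topologicalClosure _ ⟨η, rfl⟩
  have hvm : ∀ ξ, v ξ ∈ T.ker.topologicalClosure := fun ξ =>
    hrd.induction_on ξ ((Submodule.isClosed_topologicalClosure _).preimage v.continuous)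
      fun η => by
        rw [hvr']
        exact Submodule.starProjection_apply_mem _ η
  simp only [hsum (e₁ _)]
  rw [Finset.sum_add_distrib, ← hs_adjoint F₁ F₂ u hu, ← hs_adjoint F₁ F₁ v hvg, add_comm]
  exact add_le_add
    (Finset.sum_le_sum fun i _ => pow_le_pow_left₀ (norm_nonneg _)
      (norm_adjoint_le v _ hv1 hvm _) 2)
    (Finset.sum_le_sum fun i _ => pow_le_pow_left₀ (norm_nonneg _)
      (norm_adjoint_le u _ hu1 hum _) 2)

/-- The trace property in polarised form. -/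
theorem re_inner_adjoint (F₁ : GFrame π₁ e₁) (F₂ : GFrame π₂ e₂) (S T : H₁ →L[ℂ] H₂)
    (hS : ∀ g ξ, S (π₁ g ξ) = π₂ g (S ξ)) (hT : ∀ g ξ, T (π₁ g ξ) = π₂ g (T ξ)) :
    ∑ j, (⟪ContinuousLinearMap.adjoint S (e₂ j), ContinuousLinearMap.adjoint T (e₂ j)⟫_ℂ).re =
      ∑ i, (⟪S (e₁ i), T (e₁ i)⟫_ℂ).re := by
  have h1 := hs_adjoint F₁ F₂ S hS
  have h2 := hs_adjoint F₁ F₂ T hT
  have h3 := hs_adjoint F₁ F₂ (S + T) fun g ξ => by
    simp only [add_apply, hS, hT, map_add]
  simp only [map_add, add_apply, norm_add_sq (𝕜 := ℂ),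
    Finset.sum_add_distrib, ← Finset.mul_sum, RCLike.re_to_complex] at h3
  linarith

end HilbAux

theorem rank_nullity (F₁ : GFrame π₁ e₁) (F₂ : GFrame π₂ e₂) (T : H₁ →L[ℂ] H₂)
    (hT : ∀ g ξ, T (π₁ g ξ) = π₂ g (T ξ)) :
    gdim e₁ T.ker + gdim e₂ T.range = ∑ i, ‖e₁ i‖ ^ 2 := by
  refine le_antisymm ?_ (HilbAux.rank_nullity_le F₁ F₂ T hT)
  have h1 := HilbAux.rank_nullity_le F₂ F₁ (ContinuousLinearMap.adjoint T)
    (HilbAux.adjoint_equiv F₁ F₂ T hT)
  have h2 := gdim_orthogonal e₂ T.range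
  have h3 := gdim_orthogonal e₁ T.ker
  rw [ContinuousLinearMap.orthogonal_range] at h2
  have h4 : gdim e₁ (ContinuousLinearMap.adjoint T).range ≤ gdim e₁ T.kerᗮ := by
    refine gdim_mono _ (le_trans ?_ (Submodule.le_topologicalClosure _))
    rintro _ ⟨η, rfl⟩
    rw [Submodule.mem_orthogonal]
    intro ξ hξ
    change ⟪ξ, ContinuousLinearMap.adjoint T η⟫_ℂ = 0
    rw [ContinuousLinearMap.adjoint_inner_right, show T ξ = 0 from hξ, inner_zero_left]
  linarith

theorem re_trace_idem (F₁ : GFrame π₁ e₁) (A : H₁ →L[ℂ] H₁)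
    (hA : ∀ g ξ, A (π₁ g ξ) = π₁ g (A ξ)) (hAA : ∀ ξ, A (A ξ) = A ξ) :
    (∑ i, ⟪e₁ i, A (e₁ i)⟫_ℂ).re = gdim e₁ A.range := by
  let p : H₁ →L[ℂ] H₁ := A.range.topologicalClosure.starProjection
  have hp : ∀ g ξ, p (π₁ g ξ) = π₁ g (p ξ) := HilbAux.proj_equiv F₁ fun g ξ hξ => by
    obtain ⟨η, rfl⟩ := hξ
    exact ⟨π₁ g η, hA g η⟩
  have hps : ContinuousLinearMap.adjoint p = p := by
    rw [← ContinuousLinearMap.star_eq_adjoint]
    exact (isStarProjection_starProjection (U := A.range.topologicalClosure)).isSelfAdjoint.star_eq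
  have hAp : ∀ ξ, A (p ξ) = p ξ := fun ξ => by
    have hm : p ξ ∈ closure (A.range : Set H₁) :=
      Submodule.starProjection_apply_mem A.range.topologicalClosure ξ
    refine closure_minimal (t := {η | A η = η}) ?_ (isClosed_eq (by fun_prop) (by fun_prop)) hm
    rintro _ ⟨η, rfl⟩
    exact hAA η
  have hpA : ∀ ξ, p (A ξ) = A ξ := fun ξ =>
    Submodule.starProjection_eq_self_iff.2 (Submodule.le_topologicalClosure _ ⟨ξ, rfl⟩)
  have h := HilbAux.re_inner_adjoint F₁ F₁ p A hp hA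
  rw [Complex.re_sum]
  have e1 : ∀ ξ, ⟪p ξ, A ξ⟫_ℂ = ⟪ξ, A ξ⟫_ℂ := fun ξ => by
    nth_rewrite 1 [← hps]
    rw [ContinuousLinearMap.adjoint_inner_left, hpA]
  have e2 : ∀ ξ, (⟪ContinuousLinearMap.adjoint p ξ, ContinuousLinearMap.adjoint A ξ⟫_ℂ).re =
      ‖p ξ‖ ^ 2 := fun ξ => by
    have e3 : ⟪p ξ, ξ⟫_ℂ = ⟪p ξ, p ξ⟫_ℂ := by
      have hpp : p (p ξ) = p ξ :=
        Submodule.starProjection_eq_self_iff.2 (Submodule.starProjection_apply_mem _ ξ)
      rw [← ContinuousLinearMap.adjoint_inner_left p, hps, hpp]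
    rw [hps, ContinuousLinearMap.adjoint_inner_right, hAp, e3, inner_self_eq_norm_sq_to_K]
    norm_cast
  simp only [e1, e2] at h
  exact h.symm

end Pool.Agent.MP_4f4d9f_gt

end
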