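import Pool.Agent.Mg.F4f4d9fr.Gd00753
import Pool.Agent.MP_4f4d9f_gt.TensLem
import Pool.Agent.Mg.F4f4d9fr.G7a3b7e

set_option linter.all false

section

/-! From the torsion statement to the vanishing of the Betti numbers of `Base.lean`. -/

open scoped InnerProductSpace

namespace Pool.Agent.MP_4f4d9f_gt

theorem trDim_eq_zero {N : Type} [Ring N] {tr : N → ℂ} (h0 : tr 0 = 0) {M : Type}
    [AddCommGroup M] [Module N M] (h : ∀ x : M, ∃ s : N, IsLeftRegular s ∧ s • x = 0) :
    trDim tr M = 0 := by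
  simp only [trDim, ENNReal.iSup_eq_zero]
  intro r A hA v hv
  have hA0 : ∀ i, A i i = 0 := by
    intro i
    obtain ⟨s, hs, hx⟩ := h (∑ l, A i l • v l)
    have h1 := (hv (s • A i)).1 (by
      rw [← hx, Finset.smul_sum]
      exact Finset.sum_congr rfl fun l _ => mul_smul _ _ _)
    have h2 : Matrix.vecMul (A i) A = A i := funext fun l => congrFun (congrFun hA i) l
    rw [Matrix.smul_vecMul, h2] at h1
    refine hs (a₂ := 0) ?_
    simpa using congrFun h1 i
  simp [hA0, h0]

theorem singDim_eq_zero {G N : Type} [Group G] [Ring N] {ι : G →* N} {tr : N → ℂ}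
    (h0 : tr 0 = 0) {X : Type} [TopologicalSpace X] [MulAction G X] [ContinuousConstSMul G X]
    {k : ℕ} (h : TorsAt ι (fun k => permRep G (Sing X k)) (bd ℤ X) (bd_smul G X) k) :
    singDim ι tr X k = 0 := by
  refine trDim_eq_zero h0 fun x => ?_
  obtain ⟨z, rfl⟩ := Submodule.Quotient.mk_surjective _ x
  obtain ⟨s, hs, w, hw⟩ := h z.1 z.2
  refine ⟨s, hs, ?_⟩
  rw [← Submodule.Quotient.mk_smul, Submodule.Quotient.mk_eq_zero]
  exact ⟨w, hw⟩

variable {G E : Type} [Group G] [NormedAddCommGroup E] [InnerProductSpace ℂ E]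
  (b : HilbertBasis G ℂ E)

omit [Group G] in
lemma repr_basis (g : G) : b.repr (b g) = dlt g := by
  classical
  rw [HilbertBasis.repr_self, dlt]

omit [Group G] in
lemma op_ext_basis {S T : E →L[ℂ] E} (h : ∀ g, S (b g) = T (b g)) : S = T :=
  ContinuousLinearMap.ext_on (Submodule.dense_iff_topologicalClosure_eq_top.2 b.dense_span)
    (by rintro _ ⟨g, rfl⟩; exact h g)

omit [Group G] in
lemma perm_dlt' (e : G ≃ G) (g : G) : perm e (dlt g) = dlt (e.symm g) := by
  classical
  ext h
  simp [perm_apply, dlt, lp.single_apply, Pi.single_apply, Equiv.eq_symm_apply]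

/-- Conjugation by the coordinate isomorphism. -/
noncomputable def conjB : (E →L[ℂ] E) ≃+* (L2 G →L[ℂ] L2 G) :=
  b.repr.toContinuousLinearEquiv.conjContinuousAlgEquiv.toAlgEquiv.toRingEquiv

omit [Group G] in
lemma conjB_symm_basis (e : G ≃ G) (g : G) : (conjB b).symm (perm e) (b g) = b (e.symm g) := by
  change b.repr.symm (perm e (b.repr (b g))) = _
  rw [repr_basis, perm_dlt', ← repr_basis b, LinearIsometryEquiv.symm_apply_apply]

lemma mem_vnAlg {T : E →L[ℂ] E} : T ∈ vnAlg b ↔ conjB b T ∈ VN G := by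
  rw [vnAlg, VN, Subring.mem_centralizer_iff, Subalgebra.mem_centralizer_iff]
  constructor
  · rintro h _ ⟨g, rfl⟩
    have := h ((conjB b).symm (perm (Equiv.mulRight g))) ⟨g⁻¹, fun x => by
      rw [conjB_symm_basis]; rfl⟩
    simpa using congrArg (conjB b) this
  · rintro h S ⟨g, hS⟩
    have e : S = (conjB b).symm (perm (Equiv.mulRight g⁻¹)) :=
      op_ext_basis b fun x => by rw [conjB_symm_basis, hS]; simp
    apply (conjB b).injective
    rw [map_mul, map_mul, e, RingEquiv.apply_symm_apply]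
    exact h _ ⟨g⁻¹, rfl⟩

/-- The two models of the group von Neumann algebra are isomorphic. -/
noncomputable def vnEquiv : vnAlg b ≃+* VN G where
  toFun a := ⟨conjB b a.1, (mem_vnAlg b).1 a.2⟩
  invFun a := ⟨(conjB b).symm a.1, (mem_vnAlg b).2 (by simpa using a.2)⟩
  left_inv a := Subtype.ext (by simp)
  right_inv a := Subtype.ext (by simp)
  map_mul' a a' := Subtype.ext (by simp)
  map_add' a a' := Subtype.ext (by simp)

variable {b} {ι : G →* vnAlg b} (hι : ∀ g h, (ι g).1 (b h) = b (g * h))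

include hι in
lemma vnEquiv_iota (g : G) : vnEquiv b (ι g) = lam G g := by
  have e : (ι g).1 = (conjB b).symm (perm (Equiv.mulLeft g⁻¹)) :=
    op_ext_basis b fun x => by rw [conjB_symm_basis, hι]; simp
  refine Subtype.ext ?_
  change conjB b (ι g).1 = _
  rw [e, RingEquiv.apply_symm_apply]
  rfl

lemma isLeftRegular_of_map {A B : Type} [Ring A] [Ring B] (e : A ≃+* B) {a : A}
    (h : IsLeftRegular (e a)) : IsLeftRegular a := fun x y hxy =>
  e.injective (h (by simpa only [map_mul] using congrArg e hxy))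

lemma isRightRegular_of_map {A B : Type} [Ring A] [Ring B] (e : A ≃+* B) {a : A}
    (h : IsRightRegular (e a)) : IsRightRegular a := fun x y hxy =>
  e.injective (h (by simpa only [map_mul] using congrArg e hxy))

include hι in
theorem vnAlg_rightRegular {g : G} (hg : ¬ IsOfFinOrder g) : IsRightRegular (ι g - 1) :=
  isRightRegular_of_map (vnEquiv b) (by
    rw [map_sub, map_one, vnEquiv_iota hι]
    exact rightRegular_lam_sub_one hg)

theorem vnAlg_ore {a : vnAlg b} (ha : IsRightRegular a) (y : vnAlg b) :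
    ∃ s c : vnAlg b, IsLeftRegular s ∧ s * y = c * a := by
  obtain ⟨s, c, hs, e⟩ := ore (a := vnEquiv b a)
    (isRightRegular_of_map (vnEquiv b).symm (by simpa using ha)) (vnEquiv b y)
  refine ⟨(vnEquiv b).symm s, (vnEquiv b).symm c,
    isLeftRegular_of_map (vnEquiv b) (by simpa using hs), (vnEquiv b).injective ?_⟩
  simpa only [map_mul, RingEquiv.apply_symm_apply] using e

theorem vnAlg_intCast (m : ℤ) (hm : m ≠ 0) : IsLeftRegular (m : vnAlg b) := by
  refine isLeftRegular_of_map (vnEquiv b) ?_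
  have h : IsUnit (algebraMap ℂ (VN G) m) :=
    (IsUnit.mk0 (m : ℂ) (by exact_mod_cast hm)).map _
  rw [map_intCast] at h ⊢
  exact h.isRegular.left

theorem bettiSucc_eq_zero {X : Type} [TopologicalSpace X] [MulAction G X]
    [ContinuousConstSMul G X] {k : ℕ}
    (h : TorsAt ι (fun k => permRep G (Sing X k)) (bd ℤ X) (bd_smul G X) k) :
    bettiSucc b ι X k = 0 :=
  singDim_eq_zero (by simp) h

end Pool.Agent.MP_4f4d9f_gt

end

section

/-! Matrices over the group von Neumann algebra as operators on finite sums of copies of the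
Hilbert space. -/

open scoped InnerProductSpace

namespace Pool.Agent.MP_4f4d9f_gt.FA

open ContinuousLinearMap (adjoint)

/-- The Hilbert sum of copies of `E`. -/
abbrev HV (E I : Type) : Type := PiLp 2 (fun _ : I => E)

section Op

variable {E I J K : Type} [NormedAddCommGroup E] [InnerProductSpace ℂ E] [Fintype I] [Fintype J]
  [Fintype K]

/-- The operator of a matrix of operators. -/
noncomputable def opC (M : I → J → (E →L[ℂ] E)) : HV E J →L[ℂ] HV E I :=
  (PiLp.continuousLinearEquiv 2 ℂ (fun _ : I => E)).symm.toContinuousLinearMap ∘L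
    ContinuousLinearMap.pi fun i => ∑ j, M i j ∘L PiLp.proj 2 (fun _ : J => E) j

omit [Fintype I] in
lemma opC_apply (M : I → J → (E →L[ℂ] E)) (ξ : HV E J) (i : I) :
    opC M ξ i = ∑ j, M i j (ξ j) := by
  simp [opC]

/-- The diagonal operator. -/
noncomputable def diag (I : Type) (S : E →L[ℂ] E) : HV E I →L[ℂ] HV E I :=
  (PiLp.continuousLinearEquiv 2 ℂ (fun _ : I => E)).symm.toContinuousLinearMap ∘L
    ContinuousLinearMap.pi fun i => S ∘L PiLp.proj 2 (fun _ : I => E) i

omit [Fintype I] in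
lemma diag_apply (S : E →L[ℂ] E) (ξ : HV E I) (i : I) : diag I S ξ i = S (ξ i) := by
  simp [diag]

open Classical in
/-- The inclusion of a summand. -/
noncomputable def sgl (i : I) : E →L[ℂ] HV E I :=
  (PiLp.continuousLinearEquiv 2 ℂ (fun _ : I => E)).symm.toContinuousLinearMap ∘L
    ContinuousLinearMap.single ℂ (fun _ : I => E) i

omit [Fintype I] in
open Classical in
lemma sgl_apply (i : I) (v : E) (j : I) : sgl i v j = if j = i then v else 0 := by
  simp [sgl]

lemma inner_sgl (i : I) (v : E) (ξ : HV E I) : ⟪sgl i v, ξ⟫_ℂ = ⟪v, ξ i⟫_ℂ := by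
  classical
  rw [PiLp.inner_apply, Finset.sum_eq_single i]
  · rw [sgl_apply, if_pos rfl]
  · intro j _ hj
    rw [sgl_apply, if_neg hj, inner_zero_left]
  · simp

lemma inner_sgl' (i : I) (v : E) (ξ : HV E I) : ⟪ξ, sgl i v⟫_ℂ = ⟪ξ i, v⟫_ℂ := by
  rw [← inner_conj_symm, inner_sgl, inner_conj_symm]

lemma norm_sgl (i : I) (v : E) : ‖sgl i v‖ ^ 2 = ‖v‖ ^ 2 := by
  have h := inner_sgl i v (sgl i v)
  rw [sgl_apply, if_pos rfl, inner_self_eq_norm_sq_to_K, inner_self_eq_norm_sq_to_K] at h
  exact_mod_cast h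

lemma sum_sgl (ξ : HV E I) : ∑ i, sgl i (ξ i) = ξ := by
  classical
  ext j
  simp [sgl_apply]

omit [Fintype I] in
lemma diag_sgl (S : E →L[ℂ] E) (i : I) (v : E) : diag I S (sgl i v) = sgl i (S v) := by
  ext j
  rw [diag_apply, sgl_apply, sgl_apply]
  split_ifs <;> simp

omit [Fintype I] in
lemma diag_opC {S : E →L[ℂ] E} {M : I → J → (E →L[ℂ] E)} (h : ∀ i j, S * M i j = M i j * S)
    (ξ : HV E J) : opC M (diag J S ξ) = diag I S (opC M ξ) := by
  ext i
  rw [diag_apply, opC_apply, opC_apply, map_sum]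
  refine Finset.sum_congr rfl fun j _ => ?_
  rw [diag_apply]
  exact (congrArg (fun T : E →L[ℂ] E => T (ξ j)) (h i j)).symm

variable [CompleteSpace E]

lemma adjoint_diag (S : E →L[ℂ] E) : adjoint (diag I S) = diag I (adjoint S) := by
  symm
  rw [ContinuousLinearMap.eq_adjoint_iff]
  intro ξ η
  simp only [PiLp.inner_apply, diag_apply, ContinuousLinearMap.adjoint_inner_left]

lemma adjoint_opC (M : I → J → (E →L[ℂ] E)) :
    adjoint (opC M) = opC fun j i => adjoint (M i j) := by
  symm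
  rw [ContinuousLinearMap.eq_adjoint_iff]
  intro ξ η
  simp only [PiLp.inner_apply, opC_apply, sum_inner, inner_sum,
    ContinuousLinearMap.adjoint_inner_left]
  exact Finset.sum_comm

end Op

section Basic

variable {H : Type} [NormedAddCommGroup H] [InnerProductSpace ℂ H] [CompleteSpace H]

lemma norm_proj_le {U : Submodule ℂ H} {a : H} {c : ℝ} (hc : 0 ≤ c)
    (h1 : ‖⟪U.topologicalClosure.starProjection a, a⟫_ℂ‖ ≤
      c * ‖U.topologicalClosure.starProjection a‖) :
    ‖U.topologicalClosure.starProjection a‖ ≤ c := by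
  have h2 : ⟪U.topologicalClosure.starProjection a, a⟫_ℂ =
      ⟪U.topologicalClosure.starProjection a, U.topologicalClosure.starProjection a⟫_ℂ := by
    rw [← Submodule.inner_starProjection_left_eq_right,
      Submodule.starProjection_eq_self_iff.2 (U.topologicalClosure.starProjection_apply_mem a)]
  rw [h2, inner_self_eq_norm_sq_to_K, norm_pow] at h1
  simp only [Complex.coe_algebraMap, Complex.norm_real, norm_norm] at h1
  rcases (norm_nonneg (U.topologicalClosure.starProjection a)).eq_or_lt with h0 | h0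
  · rw [← h0]; exact hc
  · nlinarith

lemma inner_le_proj {U : Submodule ℂ H} {ζ : H} (hζ : ζ ∈ U.topologicalClosure) (a : H) :
    ‖⟪ζ, a⟫_ℂ‖ ≤ ‖U.topologicalClosure.starProjection a‖ * ‖ζ‖ := by
  have : ⟪ζ, a⟫_ℂ = ⟪ζ, U.topologicalClosure.starProjection a⟫_ℂ := by
    rw [← Submodule.inner_starProjection_left_eq_right, Submodule.starProjection_eq_self_iff.2 hζ]
  rw [this, mul_comm]
  exact norm_inner_le_norm _ _

omit [CompleteSpace H] in
lemma ker_closure {H' : Type} [NormedAddCommGroup H'] [InnerProductSpace ℂ H'] (T : H →L[ℂ] H') :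
    T.ker.topologicalClosure = T.ker :=
  T.isClosed_ker.submodule_topologicalClosure_eq

end Basic

section Grp

variable {G E : Type} [Group G] [NormedAddCommGroup E] [InnerProductSpace ℂ E]
  (b : HilbertBasis G ℂ E)

/-- Right translation. -/
noncomputable def rt (g : G) : E →L[ℂ] E := (conjB b).symm (perm (Equiv.mulRight g))

lemma rt_basis (g h : G) : rt b g (b h) = b (h * g⁻¹) := by
  rw [rt, conjB_symm_basis]
  rfl

lemma rt_comm (a : vnAlg b) (g : G) : rt b g * a.1 = a.1 * rt b g :=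
  a.2 _ ⟨g⁻¹, rt_basis b g⟩

lemma mem_of_rt {T : E →L[ℂ] E} (h : ∀ g, rt b g * T = T * rt b g) : T ∈ vnAlg b := by
  rintro S ⟨g, hS⟩
  have : S = rt b g⁻¹ := op_ext_basis b fun x => by rw [hS, rt_basis, inv_inv]
  rw [this]
  exact h _

omit [Group G] in
lemma ext_basis {ξ η : E} (h : ∀ g, ⟪b g, ξ⟫_ℂ = ⟪b g, η⟫_ℂ) : ξ = η := by
  apply b.repr.injective
  ext g
  rw [b.repr_apply_apply, b.repr_apply_apply, h]

omit [Group G] in
open Classical in
lemma inner_basis (g h : G) : ⟪b g, b h⟫_ℂ = if g = h then 1 else 0 :=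
  orthonormal_iff_ite.1 b.orthonormal g h

omit [Group G] in
lemma hasSum_basis (ξ : E) : HasSum (fun g => ‖⟪b g, ξ⟫_ℂ‖ ^ 2) (‖ξ‖ ^ 2) := by
  have h := b.hasSum_inner_mul_inner ξ ξ
  have h2 := Complex.hasSum_re h
  rw [inner_self_eq_norm_sq_to_K] at h2
  convert h2 using 1
  · funext g
    rw [← inner_conj_symm ξ (b g), Complex.conj_mul']
    norm_cast
  · norm_cast

variable [CompleteSpace E]

omit [Group G] in
lemma adjoint_perm {S T : E →L[ℂ] E} (σ : G ≃ G) (hS : ∀ g, S (b g) = b (σ g))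
    (hT : ∀ g, T (b g) = b (σ.symm g)) : adjoint S = T := by
  refine op_ext_basis b fun k => ext_basis b fun h => ?_
  rw [ContinuousLinearMap.adjoint_inner_right, hS, hT, inner_basis, inner_basis]
  by_cases e : σ h = k
  · rw [if_pos e, if_pos ((Equiv.eq_symm_apply σ).2 e)]
  · rw [if_neg e, if_neg fun e' => e ((Equiv.eq_symm_apply σ).1 e')]

lemma adjoint_rt (g : G) : adjoint (rt b g) = rt b g⁻¹ :=
  adjoint_perm b (Equiv.mulRight g⁻¹) (rt_basis b g) fun h => by
    rw [rt_basis]; simp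

/-- The diagonal right regular representation. -/
noncomputable def rep (I : Type) [Fintype I] : G →* (HV E I →L[ℂ] HV E I) where
  toFun g := diag I (rt b g)
  map_one' := by
    have : rt b 1 = 1 := op_ext_basis b fun x => by rw [rt_basis]; simp
    ext ξ i
    rw [diag_apply, this]
    rfl
  map_mul' g h := by
    have : rt b (g * h) = rt b g * rt b h := op_ext_basis b fun x => by
      rw [mul_apply_eq_comp, rt_basis, rt_basis, rt_basis, mul_inv_rev, mul_assoc]
    ext ξ i
    rw [mul_apply_eq_comp, diag_apply, diag_apply, diag_apply, this]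
    rfl

/-- The standard frame. -/
noncomputable def fr (I : Type) (i : I) : HV E I := sgl i (b 1)

variable {I J K : Type} [Fintype I] [Fintype J] [Fintype K]

omit [CompleteSpace E] in
lemma sum_fr : ∑ i, ‖fr b I i‖ ^ 2 = Fintype.card I := by
  simp [fr, norm_sgl, b.orthonormal.1]

omit [CompleteSpace E] in
lemma rep_fr (g : G) (i : I) : rep b I g (fr b I i) = sgl i (b g⁻¹) := by
  change diag I (rt b g) (sgl i (b 1)) = _
  rw [diag_sgl, rt_basis, one_mul]

lemma star_rep (g : G) : star (rep b I g) = rep b I g⁻¹ := by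
  change adjoint (diag I (rt b g)) = diag I (rt b g⁻¹)
  rw [adjoint_diag, adjoint_rt]

lemma gframe (I : Type) [Fintype I] : GFrame (rep b I) (fr b I) where
  star_eq := star_rep b
  parseval ξ := by
    simp only [rep_fr, inner_sgl]
    have h1 : ∀ i, HasSum (fun g : G => ‖⟪b g⁻¹, ξ i⟫_ℂ‖ ^ 2) (‖ξ i‖ ^ 2) := fun i =>
      ((Equiv.inv G).hasSum_iff (f := fun g => ‖⟪b g, ξ i⟫_ℂ‖ ^ 2)).2 (hasSum_basis b (ξ i))
    have h2 : Summable fun x : I × G => ‖⟪b x.2⁻¹, ξ x.1⟫_ℂ‖ ^ 2 :=
      (summable_prod_of_nonneg fun _ => sq_nonneg _).2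
        ⟨fun i => (h1 i).summable, Summable.of_finite⟩
    have h3 := h2.hasSum.prod_fiberwise h1
    rw [PiLp.norm_sq_eq_of_L2, (hasSum_fintype _).unique h3]
    exact h2.hasSum

lemma norm_rep (g : G) (ξ : HV E I) : ‖rep b I g ξ‖ = ‖ξ‖ := by
  have h := VNAbs.norm_sq_eq (rep b I g) ξ
  rw [star_rep, ← map_mul, inv_mul_cancel, map_one, one_apply_eq_self,
    inner_self_eq_norm_sq_to_K] at h
  have h2 : ‖rep b I g ξ‖ ^ 2 = ‖ξ‖ ^ 2 := by
    apply Complex.ofReal_injective
    rw [h]
    norm_cast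
  exact (sq_eq_sq₀ (norm_nonneg _) (norm_nonneg _)).1 h2

/-- Equivariant operators. -/
def EqO (T : HV E I →L[ℂ] HV E J) : Prop := ∀ g ξ, T (rep b I g ξ) = rep b J g (T ξ)

variable {b}

/-- The operator of a matrix over the von Neumann algebra. -/
noncomputable def op (M : Matrix I J (vnAlg b)) : HV E J →L[ℂ] HV E I := opC fun i j => (M i j).1

omit [CompleteSpace E] [Fintype I] in
lemma op_apply (M : Matrix I J (vnAlg b)) (ξ : HV E J) (i : I) :
    op M ξ i = ∑ j, (M i j).1 (ξ j) := opC_apply _ _ _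

omit [CompleteSpace E] [Fintype I] in
lemma op_mul (M : Matrix I J (vnAlg b)) (M' : Matrix J K (vnAlg b)) :
    op (M * M') = op M ∘L op M' := by
  ext ξ i
  simp only [ContinuousLinearMap.comp_apply, op_apply, Matrix.mul_apply, map_sum,
    AddSubmonoidClass.coe_finsetSum, sum_apply, Subring.coe_mul,
    mul_apply_eq_comp]
  exact Finset.sum_comm

omit [CompleteSpace E] [Fintype I] in
lemma op_zero : op (0 : Matrix I J (vnAlg b)) = 0 := by
  ext ξ i
  simp [op_apply]

omit [CompleteSpace E] [Fintype I] in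
lemma op_sgl (M : Matrix I J (vnAlg b)) (j : J) (v : E) (i : I) :
    op M (sgl j v) i = (M i j).1 v := by
  classical
  rw [op_apply, Finset.sum_eq_single j]
  · rw [sgl_apply, if_pos rfl]
  · intro k _ hk
    rw [sgl_apply, if_neg hk, map_zero]
  · simp

omit [CompleteSpace E] [Fintype I] in
lemma eq_zero_of_op {M : Matrix I J (vnAlg b)} (h : op M = 0) : M = 0 := by
  ext i j v
  rw [← op_sgl, h]
  rfl

omit [CompleteSpace E] in
lemma eq_op (M : Matrix I J (vnAlg b)) : EqO b (op M) := fun g ξ =>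
  diag_opC (fun i j => rt_comm b (M i j) g) ξ

lemma EqO.adj {T : HV E I →L[ℂ] HV E J} (h : EqO b T) : EqO b (adjoint T) := by
  intro g ξ
  refine ext_inner_left ℂ fun η => ?_
  have e : ∀ (K : Type) [Fintype K] (x y : HV E K), ⟪x, rep b K g y⟫_ℂ = ⟪rep b K g⁻¹ x, y⟫_ℂ := by
    intro K _ x y
    rw [← star_rep, ContinuousLinearMap.star_eq_adjoint, ContinuousLinearMap.adjoint_inner_left]
  rw [ContinuousLinearMap.adjoint_inner_right, e, e, ContinuousLinearMap.adjoint_inner_right, h]

omit [CompleteSpace E] in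
lemma exists_op {T : HV E J →L[ℂ] HV E I} (h : EqO b T) : ∃ M : Matrix I J (vnAlg b), op M = T := by
  refine ⟨Matrix.of fun i j =>
    ⟨PiLp.proj 2 (fun _ : I => E) i ∘L T ∘L sgl j, mem_of_rt b fun g => ?_⟩, ?_⟩
  · ext v
    have := congrArg (fun η : HV E I => η i) (h g (sgl j v))
    change T (diag J (rt b g) (sgl j v)) i = diag I (rt b g) (T (sgl j v)) i at this
    rw [diag_sgl, diag_apply] at this
    exact this.symm
  · ext ξ i
    rw [op_apply]
    conv_rhs => rw [← sum_sgl ξ, map_sum]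
    simp

/-- Invariant subspaces. -/
def Inv (b : HilbertBasis G ℂ E) (U : Submodule ℂ (HV E I)) : Prop :=
  ∀ g, ∀ ξ ∈ U, rep b I g ξ ∈ U

lemma Inv.proj {U : Submodule ℂ (HV E I)} (h : Inv b U) :
    EqO b U.topologicalClosure.starProjection := fun g ξ =>
  starProjection_comm (h g) (by rw [star_rep]; exact h g⁻¹) ξ

omit [CompleteSpace E] in
lemma EqO.inv_ker {T : HV E I →L[ℂ] HV E J} (h : EqO b T) : Inv b T.ker := by
  intro g ξ hξ
  change T _ = 0
  rw [h, show T ξ = 0 from hξ, map_zero]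

omit [CompleteSpace E] in
lemma EqO.inv_range {T : HV E I →L[ℂ] HV E J} (h : EqO b T) : Inv b T.range := by
  rintro g _ ⟨ξ, rfl⟩
  exact ⟨_, h g ξ⟩

/-- The matrix of the projection onto the kernel of the adjoint. -/
lemma exists_ker (M : Matrix I J (vnAlg b)) : ∃ U : Matrix I I (vnAlg b), U * M = 0 ∧
    ∀ ζ ∈ (adjoint (op M)).ker, adjoint (op U) ζ = ζ := by
  obtain ⟨U, hU⟩ := exists_op (eq_op M).adj.inv_ker.proj
  have hsa : adjoint (op U) = op U := by
    rw [hU]
    exact isSelfAdjoint_starProjection _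
  refine ⟨U, eq_zero_of_op ?_, fun ζ hζ => ?_⟩
  · have h1 : adjoint (op M) ∘L op U = 0 := by
      ext1 ξ
      have := Submodule.starProjection_apply_mem (adjoint (op M)).ker.topologicalClosure ξ
      rw [← hU, ker_closure] at this
      exact this
    have h2 := congrArg adjoint h1
    rwa [ContinuousLinearMap.adjoint_comp, ContinuousLinearMap.adjoint_adjoint, hsa, map_zero,
      ← op_mul] at h2
  · rw [hsa, hU]
    exact Submodule.starProjection_eq_self_iff.2 (Submodule.le_topologicalClosure _ hζ)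

lemma adj_mul (M : Matrix I J (vnAlg b)) (M' : Matrix J K (vnAlg b)) (ξ : HV E I) :
    adjoint (op (M * M')) ξ = adjoint (op M') (adjoint (op M) ξ) := by
  rw [op_mul, ContinuousLinearMap.adjoint_comp]
  rfl

lemma adj_zero (ξ : HV E I) : adjoint (op (0 : Matrix I J (vnAlg b))) ξ = 0 := by
  rw [op_zero, map_zero]
  rfl

lemma adj_apply (M : Matrix I J (vnAlg b)) (ξ : HV E I) (j : J) :
    adjoint (op M) ξ j = ∑ i, adjoint (M i j).1 (ξ i) := by
  rw [op, adjoint_opC, opC_apply]

lemma rn (M : Matrix I J (vnAlg b)) : gdim (fr b I) (adjoint (op M)).ker +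
    gdim (fr b J) (adjoint (op M)).range = Fintype.card I := by
  rw [rank_nullity (gframe b I) (gframe b J) _ (eq_op M).adj, sum_fr]

end Grp

end Pool.Agent.MP_4f4d9f_gt.FA

end
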