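import Pool.Agent.Mg.F4f4d9fr.G715938
import Pool.Agent.Mg.F4f4d9fr.G0e173c

set_option linter.all false

section

/-! Interface for the homological algebra of the cubical doubling inequality. -/

open scoped Matrix Pointwise

namespace Pool.Agent.MP_4f4d9f_gt.Cb

open Finsupp Db

/-! ### Supports and complexes of permutation modules -/

section Supp

variable {B B' : Type}

/-- All cells of the chain `c` satisfy `p`. -/
def On (p : B → Prop) (c : B →₀ ℤ) : Prop := ∀ β ∈ c.support, p β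

theorem On.zero (p : B → Prop) : On p 0 := fun _ h => by simp at h

theorem On.add {p : B → Prop} {c c' : B →₀ ℤ} (h : On p c) (h' : On p c') : On p (c + c') := by
  classical
  exact fun β hβ => (Finset.mem_union.1 (support_add hβ)).elim (h β) (h' β)

theorem On.neg {p : B → Prop} {c : B →₀ ℤ} (h : On p c) : On p (-c) := fun β hβ =>
  h β (by rwa [support_neg] at hβ)

theorem On.sub {p : B → Prop} {c c' : B →₀ ℤ} (h : On p c) (h' : On p c') : On p (c - c') := by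
  rw [sub_eq_add_neg]; exact h.add h'.neg

theorem On.smul {p : B → Prop} {c : B →₀ ℤ} (h : On p c) (n : ℤ) : On p (n • c) := fun β hβ =>
  h β (support_smul hβ)

theorem On.single {p : B → Prop} {β : B} (h : p β) (n : ℤ) : On p (single β n) := fun β' hβ => by
  rwa [Finset.mem_singleton.1 (support_single_subset hβ)]

theorem On.sum {p : B → Prop} {α : Type} {s : Finset α} {c : α → B →₀ ℤ}
    (h : ∀ a ∈ s, On p (c a)) : On p (∑ a ∈ s, c a) :=
  Finset.sum_induction c (On p) (fun _ _ => On.add) (On.zero p) h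

theorem On.mono {p p' : B → Prop} {c : B →₀ ℤ} (h : On p c) (h' : ∀ β, p β → p' β) : On p' c :=
  fun β hβ => h' β (h β hβ)

theorem On.map {p : B → Prop} {p' : B' → Prop} {c : B →₀ ℤ} (hc : On p c)
    {f : (B →₀ ℤ) →ₗ[ℤ] (B' →₀ ℤ)} (hf : ∀ β, p β → On p' (f (Finsupp.single β 1))) :
    On p' (f c) := by
  rw [← sum_single c, Finsupp.sum, map_sum]
  refine On.sum fun β hβ => ?_
  rw [← smul_single_one, map_zsmul]
  exact (hf β (hc β hβ)).smul _

theorem On.mapDomain {p : B → Prop} {p' : B' → Prop} {c : B →₀ ℤ} (hc : On p c) {u : B → B'}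
    (h : ∀ β, p β → p' (u β)) : On p' (mapDomain u c) := by
  classical
  intro β' hβ'
  obtain ⟨β, h1, rfl⟩ := Finset.mem_image.1 (mapDomain_support hβ')
  exact h β (hc β h1)

theorem on_flt (p : B → Prop) (c : B →₀ ℤ) : On p (flt p c) := fun β hβ => by
  by_contra h
  exact mem_support_iff.1 hβ (by rw [flt_apply, if_neg h])

theorem On.flt {p : B → Prop} {c : B →₀ ℤ} (hc : On p c) (p' : B → Prop) : On p (flt p' c) :=
  fun β hβ => hc β (mem_support_iff.2 fun e => mem_support_iff.1 hβ (by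
    rw [flt_apply, e, ite_self]))

theorem flt_add_flt (p : B → Prop) (c : B →₀ ℤ) : flt p c + flt (fun β => ¬ p β) c = c := by
  ext β
  rw [Finsupp.add_apply, flt_apply, flt_apply]
  split_ifs <;> simp

/-- The sum of the coefficients. -/
noncomputable def sm (B : Type) : (B →₀ ℤ) →ₗ[ℤ] ℤ := linearCombination ℤ fun _ => 1

@[simp] theorem sm_single (β : B) (n : ℤ) : sm B (single β n) = n := by simp [sm]

theorem sm_mapDomain (u : B → B') (c : B →₀ ℤ) : sm B' (mapDomain u c) = sm B c :=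
  LinearMap.congr_fun (f := sm B' ∘ₗ lmapDomain ℤ ℤ u) (g := sm B) (ch_ext fun β => by simp) c

/-- The cells that satisfy `p` span an acyclic complex. -/
structure Acy {B : ℕ → Type} (d : ∀ j, (B (j + 1) →₀ ℤ) →ₗ[ℤ] (B j →₀ ℤ))
    (p : ∀ j, B j → Prop) : Prop where
  ne : ∃ β, p 0 β
  zero : ∀ z, On (p 0) z → sm _ z = 0 → ∃ w, On (p 1) w ∧ d 0 w = z
  succ : ∀ j z, On (p (j + 1)) z → d j z = 0 → ∃ w, On (p (j + 2)) w ∧ d (j + 1) w = z

variable (G : Type) [Group G]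

/-- A free action. -/
def Fre (B : Type) [MulAction G B] : Prop := ∀ (g : G) (β : B), g • β = β → g = 1

/-- An augmented complex of free modules with invariant bases. -/
structure Cx {B : ℕ → Type} [∀ j, MulAction G (B j)]
    (d : ∀ j, (B (j + 1) →₀ ℤ) →ₗ[ℤ] (B j →₀ ℤ)) : Prop where
  eqv : ∀ j, Eqv (permRep G (B (j + 1))) (permRep G (B j)) (d j)
  d_d : ∀ j c, d j (d (j + 1) c) = 0
  ε_d : ∀ c, sm _ (d 0 c) = 0
  free : ∀ j, Fre G (B j)

variable {G}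

/-- Equivariant maps on free modules with prescribed invariant conditions. -/
theorem exists_eqv [MulAction G B] (hB : Fre G B) {M : Type} [AddCommGroup M]
    (ρ : Representation ℤ G M) (Q : B → M → Prop)
    (hQ : ∀ (g : G) β x, Q β x → Q (g • β) (ρ g x)) (ex : ∀ β, ∃ x, Q β x) :
    ∃ f : (B →₀ ℤ) →ₗ[ℤ] M, Eqv (permRep G B) ρ f ∧ ∀ β, Q β (f (single β 1)) := by
  choose x hx using ex
  let r : B → B := fun β => (Quotient.mk (MulAction.orbitRel G B) β).out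
  have h1 : ∀ β, ∃ g : G, g • r β = β := fun β =>
    (MulAction.orbitRel G B).symm (Quotient.mk_out (s := MulAction.orbitRel G B) β)
  choose u hu using h1
  have h2 : ∀ (g : G) β, r (g • β) = r β := fun g β =>
    congrArg Quotient.out (Quotient.sound (s := MulAction.orbitRel G B) ⟨g, rfl⟩)
  have h3 : ∀ (g : G) β, u (g • β) = g * u β := fun g β => by
    have := hB ((g * u β)⁻¹ * u (g • β)) (r β) (by
      rw [mul_smul, inv_smul_eq_iff, mul_smul, hu, ← h2 g β, hu])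
    rw [← mul_inv_cancel_left (g * u β) (u (g • β)), this, mul_one]
  refine ⟨linearCombination ℤ fun β => ρ (u β) (x (r β)), eqv_of_single fun g β => ?_, fun β => ?_⟩
  · rw [linearCombination_single, linearCombination_single, one_smul, one_smul, h2, h3, map_mul,
      Module.End.mul_apply]
  · rw [linearCombination_single, one_smul]
    have := hQ (u β) _ _ (hx (r β))
    rwa [hu] at this

theorem FreeOn.fre [MulAction G B] {I : Type} {r : I → B} (h : FreeOn G r) : Fre G B := by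
  intro g β e
  obtain ⟨⟨g', i⟩, rfl⟩ := h.2 β
  have := h.1 (a₁ := (g * g', i)) (a₂ := (g', i)) (by simpa only [mul_smul] using e)
  exact mul_eq_right.1 (congrArg Prod.fst this)

theorem exists_freeOn [MulAction G B] (h : Fre G B) (h' : Cofin G B) :
    ∃ (I : Type) (_ : Fintype I) (r : I → B), FreeOn G r := by
  obtain ⟨S, hS⟩ := h'
  have : Finite (MulAction.orbitRel.Quotient G B) :=
    Finite.of_surjective (fun s : S => (Quotient.mk _ s.1 : MulAction.orbitRel.Quotient G B))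
      fun y => by
        obtain ⟨β, rfl⟩ := Quotient.exists_rep y
        obtain ⟨g, hg⟩ := hS β
        exact ⟨⟨_, hg⟩, Quotient.sound (s := MulAction.orbitRel G B) ⟨g, rfl⟩⟩
  refine ⟨MulAction.orbitRel.Quotient G B, Fintype.ofFinite _, Quotient.out, ?_, fun β => ?_⟩
  · rintro ⟨g, y⟩ ⟨g', y'⟩ e
    have e1 : g • y.out = g' • y'.out := e
    have e2 : y = y' := by
      rw [← y.out_eq, ← y'.out_eq]
      exact Quotient.sound (s := MulAction.orbitRel G B)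
        ⟨g⁻¹ * g', by simp only [mul_smul, ← e1, inv_smul_smul]⟩
    subst e2
    have := h (g'⁻¹ * g) y.out (by rw [mul_smul, e1, inv_smul_smul])
    rw [← mul_inv_cancel_left g' g, this, mul_one]
  · obtain ⟨g, hg⟩ :=
      (MulAction.orbitRel G B).symm (Quotient.mk_out (s := MulAction.orbitRel G B) β)
    exact ⟨(g, _), hg⟩

end Supp

/-! ### Resolutions up to a factor -/

section Res

variable {H : Type} [Group H]

/-- The lifting property up to the factor `n`. -/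
def ProjN (n : ℕ) {C : Type} [AddCommGroup C] (ρ : Representation ℤ H C) : Prop :=
  ∀ (D E : Type) [AddCommGroup D] [AddCommGroup E] (ρD : Representation ℤ H D)
    (ρE : Representation ℤ H E) (π : D →ₗ[ℤ] E) (φ : C →ₗ[ℤ] E),
    Eqv ρD ρE π → Eqv ρ ρE φ → (∀ c, ∃ x, π x = φ c) →
    ∃ ψ : C →ₗ[ℤ] D, Eqv ρ ρD ψ ∧ ∀ c, π (ψ c) = n • φ c

variable {C : ℕ → Type} [∀ k, AddCommGroup (C k)]

/-- A resolution of the module `M` by modules that are projective up to the factor `n`. -/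
structure IsResN (n : ℕ) (ρ : ∀ k, Representation ℤ H (C k)) (d : ∀ k, C (k + 1) →ₗ[ℤ] C k)
    {M : Type} [AddCommGroup M] (ρM : Representation ℤ H M) (ε : C 0 →ₗ[ℤ] M) : Prop where
  eqv_d : ∀ k, Eqv (ρ (k + 1)) (ρ k) (d k)
  eqv_ε : Eqv (ρ 0) ρM ε
  ε_d : ∀ c, ε (d 0 c) = 0
  d_d : ∀ k c, d k (d (k + 1) c) = 0
  surj : ∀ t, ∃ c, ε c = t
  exact_zero : ∀ c, ε c = 0 → ∃ b, d 0 b = c
  exact_succ : ∀ k c, d k c = 0 → ∃ b, d (k + 1) b = c
  proj : ∀ k, ProjN n (ρ k)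

theorem isResN_of_isResM {ρ : ∀ k, Representation ℤ H (C k)} {d : ∀ k, C (k + 1) →ₗ[ℤ] C k}
    {M : Type} [AddCommGroup M] {ρM : Representation ℤ H M} {ε : C 0 →ₗ[ℤ] M}
    (R : IsResM ρ d ρM ε) (e : ℕ) : IsResN (2 ^ (e + 1)) ρ d ρM ε :=
  ⟨R.eqv_d, R.eqv_ε, R.ε_d, R.d_d, R.surj, R.exact_zero, R.exact_succ, fun k => by
    intro D E _ _ ρD ρE π φ hπ hφ hs
    obtain ⟨ψ, h1, h2⟩ := R.proj k D E ρD ρE π φ hπ hφ hs
    refine ⟨2 ^ e • ψ, Res2.eqv_nsmul _ h1, fun c => ?_⟩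
    rw [LinearMap.smul_apply, map_nsmul, h2, pow_succ, mul_nsmul', two_nsmul]⟩

/-- The module `C` is, up to the factor `n`, a direct summand of the module `D`. -/
structure Spl (n : ℕ) {C D : Type} [AddCommGroup C] [AddCommGroup D] (ρD : Representation ℤ H D)
    (ρ : Representation ℤ H C) (q : D →ₗ[ℤ] C) (t : C →ₗ[ℤ] D) : Prop where
  eqv_q : Eqv ρD ρ q
  eqv_t : Eqv ρ ρD t
  qt : ∀ c, q (t c) = n • c

end Res

/-! ### Rooted complexes -/

section Root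

variable {V Hy Y : Type} {R : ℕ → Type}

/-- A complex of rooted cells with flips. -/
structure Rt (o : ∀ j, R j → V) (σ : ∀ j, R j → Finset Hy) (F : ∀ j, Hy → R j → R j)
    (d : ∀ j, (R (j + 1) →₀ ℤ) →ₗ[ℤ] (R j →₀ ℤ)) : Prop where
  flip : ∀ j, FlipSys (σ j) (F j)
  loc : ∀ j, Loc (o (j + 1)) (o j) id (d j)
  mono : ∀ j β, On (fun γ => σ (j + 1) β ⊆ σ j γ) (d j (single β 1))
  comm : ∀ j β, ∀ h ∈ σ (j + 1) β,
    d j (single (F (j + 1) h β) 1) = mapDomain (F j h) (d j (single β 1))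
  d_d : ∀ j c, d j (d (j + 1) c) = 0
  ε_d : ∀ c, sm _ (d 0 c) = 0

/-- A height function `ht`, descending directions `Dn` and components `cp`. -/
structure Ht (o : ∀ j, R j → V) (σ : ∀ j, R j → Finset Hy) (F : ∀ j, Hy → R j → R j)
    (ht : V → ℕ) (Dn : V → Finset Hy) (cp : V → Y) : Prop where
  down : ∀ j β, ∀ h ∈ σ j β, h ∈ Dn (o j β) → ht (o j (F j h β)) < ht (o j β)
  swap : ∀ j β, ∀ h ∈ σ j β, (h ∈ Dn (o j (F j h β)) ↔ h ∉ Dn (o j β))
  keep : ∀ j β, ∀ h ∈ σ j β, ∀ h' ∈ σ j β, h' ≠ h →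
    (h' ∈ Dn (o j (F j h β)) ↔ h' ∈ Dn (o j β))
  cp_F : ∀ j h β, cp (o j (F j h β)) = cp (o j β)
  base : ∀ v v', Dn v = ∅ → Dn v' = ∅ → cp v = cp v' → v = v'
  surj : Function.Surjective cp

/-- The unrooted cells. -/
def Un {B : Type} (F : Hy → B → B) : Type := Quot fun β β' => ∃ h, β' = F h β

/-- The unrooted cell of a rooted cell. -/
def uq {B : Type} (F : Hy → B → B) (β : B) : Un F := Quot.mk _ β

theorem uq_flip {B : Type} (F : Hy → B → B) (h : Hy) (β : B) : uq F (F h β) = uq F β :=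
  (Quot.sound ⟨h, rfl⟩).symm

theorem uq_surj {B : Type} (F : Hy → B → B) (u : Un F) : ∃ β, uq F β = u := Quot.exists_rep u

/-- Flips that are compatible with a group action. -/
structure FlipAct (H : Type) [Group H] {B : Type} [MulAction H Hy] [MulAction H B]
    (σ : B → Finset Hy) (F : Hy → B → B) (D : ℕ) : Prop where
  flip : FlipSys σ F
  σ_eqv : ∀ (g : H) h β, g • h ∈ σ (g • β) ↔ h ∈ σ β
  F_eqv : ∀ (g : H) h β, F (g • h) (g • β) = g • F h β
  card : ∀ β, (σ β).card ≤ D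

/-- The hyperplane `h` is adjacent to the vertex `v`. -/
def Adj (sep : V → V → Finset Hy) (v : V) (h : Hy) : Prop := ∃ a, sep v a = {h}

/-- Hyperplanes that are adjacent to `v` and cross each other. -/
def Corner (sep : V → V → Finset Hy) (v : V) (τ : Finset Hy) : Prop :=
  (∀ h ∈ τ, Adj sep v h) ∧ ∀ h ∈ τ, ∀ h' ∈ τ, h ≠ h' → Cross sep h h'

/-- The parabolic subgroup at a vertex. -/
def Wv (sep : V → V → Finset Hy) (v : V) : Subgroup (RA (Cross sep)) :=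
  Subgroup.closure (gen (Cross sep) '' {h | Adj sep v h})

/-- The map `fT` is the transpose of the map `f`. -/
def Tp {B B₂ : Type} (f : (B₂ →₀ ℤ) →ₗ[ℤ] (B →₀ ℤ)) (fT : (B →₀ ℤ) →ₗ[ℤ] (B₂ →₀ ℤ)) : Prop :=
  ∀ β γ, fT (single β 1) γ = f (single γ 1) β

/-- The homology of the row vectors in the eigenspace of `A` is torsion. -/
def MN {N K₂ K₁ K₀ : Type} [Ring N] [Fintype K₂] [Fintype K₁] (n : ℕ) (M' : Matrix K₂ K₁ N)
    (M : Matrix K₁ K₀ N) (A : Matrix K₁ K₁ N) : Prop :=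
  ∀ z : K₁ → N, z ᵥ* M = 0 → z ᵥ* A = n • z →
    ∃ s : N, IsLeftRegular s ∧ ∃ w : K₂ → N, w ᵥ* M' = s • z

end Root

/-! ### Statements -/

/-- Job `AlCyl`: the mapping cylinder over a set `Y` of new labels. -/
def CylStmt : Prop :=
  ∀ (G Y : Type) [Group G] [MulAction G Y] (m : ℕ), Cofin G Y →
    (∀ y : Y, FP (MulAction.stabilizer G y) m) →
    ∀ (B : ℕ → Type) [∀ j, MulAction G (B j)] (d : ∀ j, (B (j + 1) →₀ ℤ) →ₗ[ℤ] (B j →₀ ℤ)),
      Cx G d → (∀ j ≤ m, Cofin G (B j)) →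
    ∀ r : ∀ j, Y → B j → Prop, (∀ j (g : G) y β, r j y β → r j (g • y) (g • β)) →
      (∀ j y β, r (j + 1) y β → On (r j y) (d j (single β 1))) →
      (∀ j β, {y | r j y β}.Finite) →
    ∃ (N : ℕ → Type) (_ : ∀ j, MulAction G (N j)) (l : ∀ j, N j → Y)
      (d' : ∀ j, (B (j + 1) ⊕ N (j + 1) →₀ ℤ) →ₗ[ℤ] (B j ⊕ N j →₀ ℤ)),
      Cx G (B := fun j => B j ⊕ N j) d' ∧ (∀ j ≤ m, Cofin G (N j)) ∧
      (∀ j (g : G) ν, l j (g • ν) = g • l j ν) ∧
      (∀ j c, d' j (mapDomain .inl c) = mapDomain .inl (d j c)) ∧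
      (∀ j ν, On (Sum.elim (r j (l (j + 1) ν)) fun ν' => l j ν' = l (j + 1) ν)
        (d' j (single (.inr ν) 1))) ∧
      ∀ y, Acy (B := fun j => B j ⊕ N j) d' fun j => Sum.elim (r j y) fun ν => l j ν = y

/-- Job `AlPos`: a free complex with labels in a poset. -/
def PosStmt : Prop :=
  ∀ (G P : Type) [Group G] [MulAction G P] [PartialOrder P] (ρ : P → ℕ) (D m : ℕ),
    (∀ (g : G) (c c' : P), c ≤ c' → g • c ≤ g • c') → (∀ (g : G) c, ρ (g • c) = ρ c) →
    StrictMono ρ → (∀ c, ρ c ≤ D) → (∀ c : P, (Set.Iic c).Finite) → Cofin G P →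
    (∀ c : P, FP (MulAction.stabilizer G c) m) →
    ∃ (B : ℕ → Type) (_ : ∀ j, MulAction G (B j)) (lab : ∀ j, B j → P)
      (d : ∀ j, (B (j + 1) →₀ ℤ) →ₗ[ℤ] (B j →₀ ℤ)),
      Cx G d ∧ (∀ j ≤ m, Cofin G (B j)) ∧ (∀ j (g : G) β, lab j (g • β) = g • lab j β) ∧
      (∀ j β, On (fun γ => lab (j + 1) β ≤ lab j γ) (d j (single β 1))) ∧
      ∀ c, Acy d fun j β => c ≤ lab j β

/-- Job `AlCube`: cubes of median graphs. -/
def CubeStmt : Prop :=
  ∀ (G V Hy : Type) [Group G] [MulAction G V] [MulAction G Hy] (T : SimpleGraph V)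
    (sep : V → V → Finset Hy), Wl G sep → (∀ a b, (sep a b).card = T.dist a b) →
    ∃ dir : Set V → Finset Hy,
      (∀ S, IsCube T S → S.Finite ∧ (dir S).card ≤ S.ncard ∧
        (∀ h, h ∈ dir S ↔ ∃ a ∈ S, ∃ b ∈ S, h ∈ sep a b) ∧
        (∀ v ∈ S, ∀ h ∈ dir S, ∃ v' ∈ S, sep v v' = {h}) ∧ ∀ g : G, IsCube T (g • S)) ∧
      ∀ v τ, Corner sep v τ →
        ∃ S₀, IsCube T S₀ ∧ ∀ S, IsCube T S → (S₀ ⊆ S ↔ v ∈ S ∧ τ ⊆ dir S)

/-- Job `AlRoot`: the rooted complex of an action on a median graph. -/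
def RootStmt : Prop :=
  ∀ (G V Hy : Type) [Group G] [MulAction G V] [MulAction G Hy] (T : SimpleGraph V)
    (sep : V → V → Finset Hy), Wl G sep → (∀ a b, (sep a b).card = T.dist a b) →
    ∀ SS : Finset (Set V), (∀ S, IsCube T S → ∃ g : G, g • S ∈ SS) →
    ∀ m : ℕ, (∀ S, IsCube T S → FP (MulAction.stabilizer G S) m) →
    ∃ (R : ℕ → Type) (_ : ∀ j, MulAction G (R j)) (o : ∀ j, R j → V) (σ : ∀ j, R j → Finset Hy)
      (F : ∀ j, Hy → R j → R j) (d : ∀ j, (R (j + 1) →₀ ℤ) →ₗ[ℤ] (R j →₀ ℤ)) (D : ℕ),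
      (∀ j, Cells G sep (o j) (σ j) (F j) D) ∧ Rt o σ F d ∧ Cx G d ∧ (∀ j ≤ m, Cofin G (R j)) ∧
      ∀ v τ, Corner sep v τ → Acy d fun j β => o j β = v ∧ τ ⊆ σ j β

/-- Job `AlRel`: relative acyclicity. -/
def RelStmt : Prop :=
  ∀ (Hy : Type) (R : ℕ → Type) (p : ∀ j, R j → Prop) (σ : ∀ j, R j → Finset Hy)
    (d : ∀ j, (R (j + 1) →₀ ℤ) →ₗ[ℤ] (R j →₀ ℤ)),
    (∀ j β, p (j + 1) β → On (p j) (d j (single β 1))) →
    (∀ j β, On (fun γ => σ (j + 1) β ⊆ σ j γ) (d j (single β 1))) →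
    (∀ j c, d j (d (j + 1) c) = 0) → (∀ c, sm _ (d 0 c) = 0) →
    ∀ T : Finset Hy, T.Nonempty → (∀ τ ⊆ T, Acy d fun j β => p j β ∧ τ ⊆ σ j β) →
      (∀ z, On (p 0) z →
        ∃ w, On (p 1) w ∧ On (fun β => p 0 β ∧ ∃ h ∈ T, h ∈ σ 0 β) (d 0 w - z)) ∧
      ∀ j z, On (p (j + 1)) z → On (fun β => ∃ h ∈ T, h ∈ σ j β) (d j z) →
        ∃ w, On (p (j + 2)) w ∧
          On (fun β => p (j + 1) β ∧ ∃ h ∈ T, h ∈ σ (j + 1) β) (d (j + 1) w - z)

/-- Job `AlEx`: exactness of the complex of unrooted cells. -/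
def ExStmt : Prop :=
  ∀ (V Hy Y : Type) (R : ℕ → Type) (o : ∀ j, R j → V) (σ : ∀ j, R j → Finset Hy)
    (F : ∀ j, Hy → R j → R j) (d : ∀ j, (R (j + 1) →₀ ℤ) →ₗ[ℤ] (R j →₀ ℤ)) (ht : V → ℕ)
    (Dn : V → Finset Hy) (cp : V → Y), Rt o σ F d → Ht o σ F ht Dn cp →
    (∀ v, ∀ τ ⊆ Dn v, Acy d fun j β => o j β = v ∧ τ ⊆ σ j β) →
    ∀ (dU : ∀ j, (Un (F (j + 1)) →₀ ℤ) →ₗ[ℤ] (Un (F j) →₀ ℤ)) (ε : (Un (F 0) →₀ ℤ) →ₗ[ℤ] (Y →₀ ℤ)),
      (∀ j c, dU j (mapDomain (uq (F (j + 1))) c) = mapDomain (uq (F j)) (d j c)) →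
      (∀ β, ε (single (uq (F 0) β) 1) = single (cp (o 0 β)) 1) →
      (∀ t, ∃ c, ε c = t) ∧ (∀ c, ε c = 0 → ∃ b, dU 0 b = c) ∧
        ∀ k c, dU k c = 0 → ∃ b, dU (k + 1) b = c

/-- Job `AlAvg`: properties of the averaging map. -/
def AvgStmt : Prop :=
  ∀ (Hy B : Type) (σ : B → Finset Hy) (F : Hy → B → B) (D : ℕ), FlipSys σ F →
    (∀ β, (σ β).card ≤ D) →
    (∀ h β, avg D σ F (single (F h β) 1) = avg D σ F (single β 1)) ∧
    (∀ β, mapDomain (uq F) (avg D σ F (single β 1)) = 2 ^ D • single (uq F β) 1) ∧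
    Tp (avg D σ F) (avg D σ F) ∧
    (∀ β, 2 ^ (D - (σ β).card) ≤ avg D σ F (single β 1) β) ∧
    (∀ (G V : Type) [Group G] [MulAction G V] [MulAction G Hy] [MulAction G B]
      (sep : V → V → Finset Hy) (o : B → V), Wl G sep → Cells G sep o σ F D →
      ∀ β, avg D σ F (single β 1) β = 2 ^ (D - (σ β).card)) ∧
    ∀ (H : Type) [Group H] [MulAction H Hy] [MulAction H B], FlipAct H σ F D →
      Eqv (permRep H B) (permRep H B) (avg D σ F)

/-- Job `AlUn`: the unrooted cells give a resolution. -/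
def UnStmt : Prop :=
  ∀ (H V Hy Y : Type) [Group H] [MulAction H Hy] [MulAction H Y] (R : ℕ → Type)
    [∀ j, MulAction H (R j)] (o : ∀ j, R j → V) (σ : ∀ j, R j → Finset Hy)
    (F : ∀ j, Hy → R j → R j) (d : ∀ j, (R (j + 1) →₀ ℤ) →ₗ[ℤ] (R j →₀ ℤ)) (D : ℕ) (ht : V → ℕ)
    (Dn : V → Finset Hy) (cp : V → Y), Rt o σ F d → Ht o σ F ht Dn cp →
    (∀ v, ∀ τ ⊆ Dn v, Acy d fun j β => o j β = v ∧ τ ⊆ σ j β) →
    Cx H d → (∀ j, FlipAct H (σ j) (F j) D) →
    (∀ (g : H) β, cp (o 0 (g • β)) = g • cp (o 0 β)) →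
    ∃ (C : ℕ → Type) (_ : ∀ k, AddCommGroup (C k)) (ρ : ∀ k, Representation ℤ H (C k))
      (dU : ∀ k, C (k + 1) →ₗ[ℤ] C k) (ε : C 0 →ₗ[ℤ] (Y →₀ ℤ))
      (q : ∀ k, (R k →₀ ℤ) →ₗ[ℤ] C k) (t : ∀ k, C k →ₗ[ℤ] (R k →₀ ℤ)),
      IsResN (2 ^ D) ρ dU (permRep H Y) ε ∧
      (∀ k, Spl (2 ^ D) (permRep H (R k)) (ρ k) (q k) (t k)) ∧
      (∀ k c, dU k (q (k + 1) c) = q k (d k c)) ∧ ∀ k, t k ∘ₗ q k = avg D (σ k) (F k)

/-- Job `AlRes`: comparison of resolutions. -/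
def ResNStmt : Prop :=
  ∀ (H N M : Type) [Group H] [Ring N] [AddCommGroup M] (ι : H →* N) (n : ℕ),
    IsLeftRegular (n : N) →
    ∀ (ρM : Representation ℤ H M) (C C' : ℕ → Type) [∀ k, AddCommGroup (C k)]
      [∀ k, AddCommGroup (C' k)] (ρ : ∀ k, Representation ℤ H (C k))
      (d : ∀ k, C (k + 1) →ₗ[ℤ] C k) (ε : C 0 →ₗ[ℤ] M) (ρ' : ∀ k, Representation ℤ H (C' k))
      (d' : ∀ k, C' (k + 1) →ₗ[ℤ] C' k) (ε' : C' 0 →ₗ[ℤ] M) (R : IsResN n ρ d ρM ε)
      (R' : IsResN n ρ' d' ρM ε') (k : ℕ), TorsAt ι ρ' d' R'.eqv_d k → TorsAt ι ρ d R.eqv_d k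

/-- Job `AlDict`: tensor products and row vectors. -/
def DictNStmt : Prop :=
  ∀ (H N : Type) [Group H] [Ring N] (ι : H →* N) (n : ℕ), IsLeftRegular (n : N) →
    ∀ (C : ℕ → Type) [∀ k, AddCommGroup (C k)] (ρ : ∀ k, Representation ℤ H (C k))
      (dU : ∀ k, C (k + 1) →ₗ[ℤ] C k) (hd : ∀ k, Eqv (ρ (k + 1)) (ρ k) (dU k)) (k : ℕ)
      (I₂ I₁ I₀ : Type) [Fintype I₂] [Fintype I₁] [Fintype I₀]
      (d₁ : Ch H I₂ →ₗ[ℤ] Ch H I₁) (d₀ : Ch H I₁ →ₗ[ℤ] Ch H I₀),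
      Eqv (rp H I₂) (rp H I₁) d₁ → Eqv (rp H I₁) (rp H I₀) d₀ →
    ∀ (q₂ : Ch H I₂ →ₗ[ℤ] C (k + 2)) (t₂ : C (k + 2) →ₗ[ℤ] Ch H I₂)
      (q₁ : Ch H I₁ →ₗ[ℤ] C (k + 1)) (t₁ : C (k + 1) →ₗ[ℤ] Ch H I₁)
      (q₀ : Ch H I₀ →ₗ[ℤ] C k) (t₀ : C k →ₗ[ℤ] Ch H I₀),
      Spl n (rp H I₂) (ρ (k + 2)) q₂ t₂ → Spl n (rp H I₁) (ρ (k + 1)) q₁ t₁ →
      Spl n (rp H I₀) (ρ k) q₀ t₀ →
      (∀ c, dU (k + 1) (q₂ c) = q₁ (d₁ c)) → (∀ c, dU k (q₁ c) = q₀ (d₀ c)) →
      (TorsAt ι ρ dU hd k ↔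
        MN n (mat ι (t₁ ∘ₗ q₁ ∘ₗ d₁)) (mat ι (t₀ ∘ₗ q₀ ∘ₗ d₀)) (mat ι (t₁ ∘ₗ q₁)))

open FA in
/-- Job `AlMat`: torsion and ranks. -/
def MatNStmt : Prop :=
  ∀ (G E : Type) [Group G] [NormedAddCommGroup E] [InnerProductSpace ℂ E] [CompleteSpace E]
    (b : HilbertBasis G ℂ E) (K₂ K₁ K₀ : Type) [Fintype K₂] [Fintype K₁] [Fintype K₀] (n : ℕ),
    n ≠ 0 → ∀ (M' : Matrix K₂ K₁ (vnAlg b)) (M : Matrix K₁ K₀ (vnAlg b))
      (A : Matrix K₁ K₁ (vnAlg b)), M' * M = 0 → M' * A = n • M' → A * M = n • M →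
      A * A = n • A →
      (MN n M' M A ↔ tr (fr b K₁) (ContinuousLinearMap.adjoint (op A)) ≤
        n * (gdim (fr b K₀) (ContinuousLinearMap.adjoint (op M)).range +
          gdim (fr b K₁) (ContinuousLinearMap.adjoint (op M')).range))

open FA in
/-- Job `AlOp`: operators of equivariant maps. -/
def OpStmt : Prop :=
  ∀ (G E : Type) [Group G] [NormedAddCommGroup E] [InnerProductSpace ℂ E] [CompleteSpace E]
    (b : HilbertBasis G ℂ E) (ι : G →* vnAlg b), (∀ g h, (ι g).1 (b h) = b (g * h)) →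
    ∀ (H : Type) [Group H] (j : H →* G), Function.Injective j →
    ∀ (I I' : Type) [Fintype I] [Fintype I'],
      (∀ k : Module.End ℤ (Ch H I), Eqv (rp H I) (rp H I) k → ∀ m : ℕ,
        tr (fr b I) (ContinuousLinearMap.adjoint (op (mat (ι.comp j) k)) ^ m) =
          mom k (fun i => ⟨1, i⟩) m) ∧
      ∀ (f : Ch H I' →ₗ[ℤ] Ch H I) (fT : Ch H I →ₗ[ℤ] Ch H I'), Eqv (rp H I') (rp H I) f →
        Eqv (rp H I) (rp H I') fT → Tp f fT →
        0 ≤ ContinuousLinearMap.adjoint (op (mat (ι.comp j) (f ∘ₗ fT))) ∧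
        gdim (fr b I) (ContinuousLinearMap.adjoint (op (mat (ι.comp j) (f ∘ₗ fT)))).range =
          gdim (fr b I) (ContinuousLinearMap.adjoint (op (mat (ι.comp j) f))).range

open FA in
/-- Job `AlBr`: torsion in terms of positive operators with known moments. -/
def BrStmt : Prop :=
  ∀ (G E : Type) [Group G] [NormedAddCommGroup E] [InnerProductSpace ℂ E] [CompleteSpace E]
    (b : HilbertBasis G ℂ E) (ι : G →* vnAlg b), (∀ g h, (ι g).1 (b h) = b (g * h)) →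
    ∀ (H : Type) [Group H] (j : H →* G), Function.Injective j → ∀ n : ℕ, n ≠ 0 →
    ∀ (C : ℕ → Type) [∀ k, AddCommGroup (C k)] (ρ : ∀ k, Representation ℤ H (C k))
      (dU : ∀ k, C (k + 1) →ₗ[ℤ] C k) (hd : ∀ k, Eqv (ρ (k + 1)) (ρ k) (dU k)),
      (∀ k c, dU k (dU (k + 1) c) = 0) →
    ∀ (R : ℕ → Type) [∀ k, MulAction H (R k)] (d : ∀ k, (R (k + 1) →₀ ℤ) →ₗ[ℤ] (R k →₀ ℤ)),
      (∀ k, Eqv (permRep H (R (k + 1))) (permRep H (R k)) (d k)) →
    ∀ (q : ∀ k, (R k →₀ ℤ) →ₗ[ℤ] C k) (t : ∀ k, C k →ₗ[ℤ] (R k →₀ ℤ))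
      (a : ∀ k, Module.End ℤ (R k →₀ ℤ)),
      (∀ k, Spl n (permRep H (R k)) (ρ k) (q k) (t k)) → (∀ k c, dU k (q (k + 1) c) = q k (d k c)) →
      (∀ k, t k ∘ₗ q k = a k) → (∀ k, Tp (a k) (a k)) →
    ∀ (k : ℕ) (I₂ I₁ I₀ : Type) [Fintype I₂] [Fintype I₁] [Fintype I₀] (r₂ : I₂ → R (k + 2))
      (r₁ : I₁ → R (k + 1)) (r₀ : I₀ → R k), FreeOn H r₂ → FreeOn H r₁ → FreeOn H r₀ →
    ∀ (e₁ : (R (k + 1) →₀ ℤ) →ₗ[ℤ] (R (k + 2) →₀ ℤ)) (e₀ : (R k →₀ ℤ) →ₗ[ℤ] (R (k + 1) →₀ ℤ)),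
      Eqv (permRep H _) (permRep H _) e₁ → Eqv (permRep H _) (permRep H _) e₀ →
      Tp (d (k + 1)) e₁ → Tp (d k) e₀ →
    ∃ (K₁ : HV E I₁ →L[ℂ] HV E I₁) (K₀ : HV E I₀ →L[ℂ] HV E I₀), 0 ≤ K₁ ∧ 0 ≤ K₀ ∧
      (∀ m, tr (fr b I₁) (K₁ ^ m) = mom (a (k + 1) ∘ₗ (d (k + 1) ∘ₗ e₁) ∘ₗ a (k + 1)) r₁ m) ∧
      (∀ m, tr (fr b I₀) (K₀ ^ m) = mom (a k ∘ₗ (d k ∘ₗ e₀) ∘ₗ a k) r₀ m) ∧
      (TorsAt (ι.comp j) ρ dU hd k ↔ (mom (a (k + 1)) r₁ 1 : ℝ) ≤
        n * (gdim (fr b I₀) K₀.range + gdim (fr b I₁) K₁.range))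

/-- Job `AlTp`: existence of transposes. -/
def TpStmt : Prop :=
  ∀ (G B B₂ : Type) [Group G] [MulAction G B] [MulAction G B₂], Fre G B → Cofin G B₂ →
    ∀ f : (B₂ →₀ ℤ) →ₗ[ℤ] (B →₀ ℤ), Eqv (permRep G B₂) (permRep G B) f →
    ∃ fT : (B →₀ ℤ) →ₗ[ℤ] (B₂ →₀ ℤ), Eqv (permRep G B) (permRep G B₂) fT ∧ Tp f fT

/-- Job `AlHt`, first part: heights for the original gluing. -/
def HtOStmt : Prop :=
  ∀ (G V Hy : Type) [Group G] [MulAction G V] [MulAction G Hy] [Nonempty V]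
    (sep : V → V → Finset Hy), Wl G sep →
    ∀ (R : ℕ → Type) [∀ j, MulAction G (R j)] (o : ∀ j, R j → V) (σ : ∀ j, R j → Finset Hy)
      (F : ∀ j, Hy → R j → R j) (D : ℕ), (∀ j, Cells G sep (o j) (σ j) (F j) D) →
    ∃ (ht : V → ℕ) (Dn : V → Finset Hy), Ht o σ F ht Dn (fun _ => ()) ∧ ∀ v, Corner sep v (Dn v)

/-- Job `AlHt`, second part: heights for the mirror gluing. -/
def HtMStmt : Prop :=
  ∀ (G V Hy : Type) [Group G] [MulAction G V] [MulAction G Hy]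
    (sep : V → V → Finset Hy), Wl G sep →
    ∀ (R : ℕ → Type) [∀ j, MulAction G (R j)] (o : ∀ j, R j → V) (σ : ∀ j, R j → Finset Hy)
      (F : ∀ j, Hy → R j → R j) (D : ℕ), (∀ j, Cells G sep (o j) (σ j) (F j) D) →
    ∀ (Y : Type) (cp : RA (Cross sep) × V → Y), Function.Surjective cp →
      (∀ x x', cp x = cp x' ↔ x.2 = x'.2 ∧ x.1⁻¹ * x'.1 ∈ Wv sep x.2) →
    ∃ (ht : RA (Cross sep) × V → ℕ) (Dn : RA (Cross sep) × V → Finset Hy),
      Ht (R := fun j => RA (Cross sep) × R j) (fun j x => (x.1, o j x.2)) (fun j x => σ j x.2)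
        (fun j => Fw (Cross sep) (σ j) (F j) true) ht Dn cp ∧ ∀ x, Corner sep x.2 (Dn x)

/-- Job `AlMir`: the group of the mirror gluing. -/
def MirStmt : Prop :=
  ∀ (G V Hy : Type) [Group G] [MulAction G V] [MulAction G Hy] (T : SimpleGraph V)
    (sep : V → V → Finset Hy), Wl G sep → (∀ a b, (sep a b).card = T.dist a b) →
    ∃ (H Y : Type) (_ : Group H) (π : H →* G) (_ : MulAction H (RA (Cross sep)))
      (_ : MulAction H Y) (cp : RA (Cross sep) × V → Y),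
      (∀ (x : H) (w : RA (Cross sep)) h,
        x • (w * gen (Cross sep) h) = x • w * gen (Cross sep) (π x • h)) ∧
      Function.Bijective (fun x : H => (x • (1 : RA (Cross sep)), π x)) ∧
      (∀ (x : H) (w : RA (Cross sep)), x • w = w → π x = 1 → x = 1) ∧
      Function.Surjective cp ∧
      (∀ x x', cp x = cp x' ↔ x.2 = x'.2 ∧ x.1⁻¹ * x'.1 ∈ Wv sep x.2) ∧
      (∀ (x : H) w v, cp (x • w, π x • v) = x • cp (w, v)) ∧
      ∀ y : Y, ∃ (v : V) (Φ : ReflC G T v →* H), Function.Injective Φ ∧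
        Φ.range = MulAction.stabilizer H y

/-- Job `AlExt`: the product of a rooted complex with the Coxeter group. -/
def ExtStmt : Prop :=
  ∀ (V Hy : Type) (c : Hy → Hy → Prop) (R : ℕ → Type) (o : ∀ j, R j → V)
    (σ : ∀ j, R j → Finset Hy) (F : ∀ j, Hy → R j → R j)
    (d : ∀ j, (R (j + 1) →₀ ℤ) →ₗ[ℤ] (R j →₀ ℤ)), Rt o σ F d →
    (∀ j β, ∀ h ∈ σ j β, ∀ h' ∈ σ j β, h ≠ h' → c h h') →
    Rt (R := fun j => RA c × R j) (fun j x => (x.1, o j x.2)) (fun j x => σ j x.2)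
      (fun j => Fw c (σ j) (F j) true) (fun j => Shap.ext (RA c) (d j)) ∧
    (∀ (p : ∀ j, R j → Prop) (w : RA c), Acy d p →
      Acy (B := fun j => RA c × R j) (fun j => Shap.ext (RA c) (d j))
        fun j x => x.1 = w ∧ p j x.2) ∧
    ∀ (Z B B₂ : Type) (f : (B₂ →₀ ℤ) →ₗ[ℤ] (B →₀ ℤ)) (fT : (B →₀ ℤ) →ₗ[ℤ] (B₂ →₀ ℤ)),
      (Tp f fT → Tp (Shap.ext Z f) (Shap.ext Z fT)) ∧
        Shap.ext Z (f ∘ₗ fT) = Shap.ext Z f ∘ₗ Shap.ext Z fT

end Pool.Agent.MP_4f4d9f_gt.Cb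

end

section

open scoped Matrix Pointwise

namespace Pool.Agent.MP_4f4d9f_gt.Cb

open Finsupp Db

namespace AlAvg

variable {Hy B : Type} {σ : B → Finset Hy} {F : Hy → B → B}

theorem FS_F (S : FlipSys σ F) (h : Hy) (τ : Finset Hy) (β : B) :
    FS F τ (F h β) = F h (FS F τ β) := by
  classical
  induction τ using Finset.induction_on with
  | empty => rw [FS_empty, FS_empty]
  | insert k τ hk ih => rw [FS_insert S.comm hk, FS_insert S.comm hk, ih, S.comm]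

theorem sig_FS (S : FlipSys σ F) (τ : Finset Hy) (β : B) : σ (FS F τ β) = σ β := by
  classical
  induction τ using Finset.induction_on with
  | empty => rw [FS_empty]
  | insert k τ hk ih => rw [FS_insert S.comm hk, S.sig, ih]

theorem FS_FS (S : FlipSys σ F) (τ : Finset Hy) (β : B) : FS F τ (FS F τ β) = β := by
  classical
  induction τ using Finset.induction_on with
  | empty => rw [FS_empty, FS_empty]
  | insert k τ hk ih => rw [FS_insert S.comm hk, FS_insert S.comm hk, FS_F S, S.inv, ih]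

theorem uq_FS (S : FlipSys σ F) (τ : Finset Hy) (β : B) : uq F (FS F τ β) = uq F β := by
  classical
  induction τ using Finset.induction_on with
  | empty => rw [FS_empty]
  | insert k τ hk ih => rw [FS_insert S.comm hk, uq_flip, ih]

theorem FS_symmDiff [DecidableEq Hy] (S : FlipSys σ F) (h : Hy) (τ : Finset Hy) (β : B) :
    FS F τ (F h β) = FS F (symmDiff τ {h}) β := by
  rw [FS_F S]
  by_cases hh : h ∈ τ
  · have e : symmDiff τ {h} = τ.erase h := by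
      ext k
      simp only [Finset.mem_symmDiff, Finset.mem_singleton, Finset.mem_erase]
      grind
    conv_lhs => rw [← Finset.insert_erase hh]
    rw [FS_insert S.comm (Finset.notMem_erase h τ), S.inv, e]
  · have e : symmDiff τ {h} = insert h τ := by
      ext k
      simp only [Finset.mem_symmDiff, Finset.mem_singleton, Finset.mem_insert]
      grind
    rw [e, FS_insert S.comm hh]

theorem avg_F (S : FlipSys σ F) (D : ℕ) (h : Hy) (β : B) :
    avg D σ F (single (F h β) 1) = avg D σ F (single β 1) := by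
  classical
  by_cases hh : h ∈ σ β
  swap
  · rw [S.out h β hh]
  rw [avg_single, avg_single, S.sig]
  congr 1
  have hm : ∀ τ ∈ (σ β).powerset, symmDiff τ {h} ∈ (σ β).powerset := fun τ hτ => by
    rw [Finset.mem_powerset] at hτ ⊢
    intro k hk
    rcases Finset.mem_symmDiff.1 hk with ⟨h1, -⟩ | ⟨h1, -⟩
    · exact hτ h1
    · rwa [Finset.mem_singleton.1 h1]
  exact Finset.sum_nbij' (fun τ => symmDiff τ {h}) (fun τ => symmDiff τ {h}) hm hm
    (fun τ _ => symmDiff_symmDiff_cancel_right _ _) (fun τ _ => symmDiff_symmDiff_cancel_right _ _)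
    fun τ _ => by rw [FS_symmDiff S]

open Classical in
theorem avg_apply (D : ℕ) (β γ : B) : avg D σ F (single β 1) γ =
    2 ^ (D - (σ β).card) * ∑ τ ∈ (σ β).powerset, if FS F τ β = γ then 1 else 0 := by
  rw [avg_single, Finsupp.smul_apply, smul_eq_mul, Finsupp.finsetSum_apply]
  simp only [single_apply]

theorem avg_tp (S : FlipSys σ F) (D : ℕ) : Tp (avg D σ F) (avg D σ F) := by
  classical
  intro β γ
  rw [avg_apply, avg_apply]
  by_cases e : σ β = σ γ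
  · rw [e]
    congr 1
    refine Finset.sum_congr rfl fun τ _ => if_congr ⟨?_, ?_⟩ rfl rfl
    · rintro rfl
      exact FS_FS S τ β
    · rintro rfl
      exact FS_FS S τ γ
  · rw [Finset.sum_eq_zero, Finset.sum_eq_zero, mul_zero, mul_zero]
    · exact fun τ _ => if_neg fun h => e (by rw [← h, sig_FS S])
    · exact fun τ _ => if_neg fun h => e (by rw [← h, sig_FS S])

theorem sep_FS {G V : Type} [Group G] [MulAction G V] [MulAction G Hy] [MulAction G B]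
    {sep : V → V → Finset Hy} {o : B → V} {D : ℕ} (W : Wl G sep) (C : Cells G sep o σ F D)
    (β : B) (τ : Finset Hy) (hτ : τ ⊆ σ β) : sep (o β) (o (FS F τ β)) = τ := by
  classical
  induction τ using Finset.induction_on with
  | empty => rw [FS_empty, W.self]
  | insert k τ hk ih =>
    rw [Finset.insert_subset_iff] at hτ
    ext h
    rw [FS_insert C.flip.comm hk, W.tri _ (o (FS F τ β)), ih hτ.2,
      C.geo _ k (by rw [sig_FS C.flip]; exact hτ.1), Finset.mem_singleton, Finset.mem_insert]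
    grind

theorem FS_smul {H : Type} [Group H] [MulAction H Hy] [MulAction H B] [DecidableEq Hy] {D : ℕ}
    (A : FlipAct H σ F D) (g : H) (τ : Finset Hy) (β : B) :
    FS F (g • τ) (g • β) = g • FS F τ β := by
  induction τ using Finset.induction_on with
  | empty => rw [Finset.smul_finset_empty, FS_empty, FS_empty]
  | insert k τ hk ih =>
    rw [Finset.smul_finset_insert, FS_insert A.flip.comm hk,
      FS_insert A.flip.comm (by rwa [Finset.smul_mem_smul_finset_iff]), ih, A.F_eqv]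

theorem avg_eqv {H : Type} [Group H] [MulAction H Hy] [MulAction H B] {D : ℕ}
    (A : FlipAct H σ F D) : Eqv (permRep H B) (permRep H B) (avg D σ F) := by
  classical
  refine eqv_of_single fun g β => ?_
  have e : σ (g • β) = g • σ β := by
    ext k
    rw [← smul_inv_smul g k, A.σ_eqv, Finset.smul_mem_smul_finset_iff]
  rw [avg_single, avg_single, map_zsmul, map_sum, e, Finset.card_smul_finset]
  congr 1
  refine Finset.sum_nbij' (fun τ => g⁻¹ • τ) (fun τ => g • τ) (fun τ hτ => ?_) (fun τ hτ => ?_)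
    (fun τ _ => smul_inv_smul g τ) (fun τ _ => inv_smul_smul g τ) fun τ _ => ?_
  · rw [Finset.mem_powerset] at hτ ⊢
    rwa [← Finset.smul_finset_subset_smul_finset_iff (a := g), smul_inv_smul]
  · rw [Finset.mem_powerset] at hτ ⊢
    rwa [Finset.smul_finset_subset_smul_finset_iff]
  · rw [permRep_single, ← FS_smul A, smul_inv_smul]

end AlAvg

open AlAvg in
theorem avg_stmt : AvgStmt := by
  classical
  intro Hy B σ F D S hD
  refine ⟨avg_F S D, fun β => ?_, avg_tp S D, fun β => ?_, ?_, fun H _ _ _ A => avg_eqv A⟩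
  · rw [avg_single, ← lmapDomain_apply ℤ ℤ, map_zsmul, map_sum]
    simp only [lmapDomain_apply, mapDomain_single, uq_FS S]
    rw [Finset.sum_const, Finset.card_powerset, ← natCast_zsmul, ← natCast_zsmul, smul_smul]
    congr 1
    push_cast
    rw [← pow_add, Nat.sub_add_cancel (hD β)]
  · rw [avg_apply]
    refine le_mul_of_one_le_right (by positivity) ?_
    refine le_trans ?_ (Finset.single_le_sum (a := ∅) (fun τ _ => ?_)
      (Finset.empty_mem_powerset _))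
    · rw [FS_empty, if_pos rfl]
    · split_ifs <;> norm_num
  · intro G V _ _ _ _ sep o W C β
    rw [avg_apply, Finset.sum_eq_single ∅, FS_empty, if_pos rfl, mul_one]
    · intro τ hτ hne
      refine if_neg fun h => hne ?_
      rw [← sep_FS W C β τ (Finset.mem_powerset.1 hτ), h, W.self]
    · exact fun h => (h (Finset.empty_mem_powerset _)).elim

end Pool.Agent.MP_4f4d9f_gt.Cb

end

section

open scoped Matrix Pointwise

namespace Pool.Agent.MP_4f4d9f_gt.Cb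

open Finsupp Db

namespace AlBr

section Pair

variable {B B₁ B₂ Z Z₁ Z₂ : Type}

/-- The standard pairing of chains. -/
noncomputable def pr (B : Type) : (B →₀ ℤ) →ₗ[ℤ] (B →₀ ℤ) →ₗ[ℤ] ℤ :=
  linearCombination ℤ fun β => lapply β

theorem pr_left (β : B) (c : B →₀ ℤ) : pr B (single β 1) c = c β := by
  rw [pr, linearCombination_single, one_smul, lapply_apply]

theorem pr_right (β : B) (c : B →₀ ℤ) : pr B c (single β 1) = c β := by
  classical
  exact LinearMap.congr_fun (f := (pr B).flip (single β 1)) (g := lapply β) (ch_ext fun γ => by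
    rw [LinearMap.flip_apply, pr_left, lapply_apply, single_apply, single_apply]
    exact if_congr eq_comm rfl rfl) c

theorem tp_pr {f : (B₂ →₀ ℤ) →ₗ[ℤ] (B →₀ ℤ)} {fT : (B →₀ ℤ) →ₗ[ℤ] (B₂ →₀ ℤ)} (h : Tp f fT)
    (c : B →₀ ℤ) (c' : B₂ →₀ ℤ) : pr B₂ (fT c) c' = pr B c (f c') :=
  LinearMap.congr_fun (f := (pr B₂).flip c' ∘ₗ fT) (g := (pr B).flip (f c')) (ch_ext fun β =>
    LinearMap.congr_fun (f := pr B₂ (fT (single β 1))) (g := pr B (single β 1) ∘ₗ f)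
      (ch_ext fun γ => by rw [pr_right, LinearMap.comp_apply, pr_left, h]) c') c

theorem tp_comp {f : (B₁ →₀ ℤ) →ₗ[ℤ] (B →₀ ℤ)} {fT : (B →₀ ℤ) →ₗ[ℤ] (B₁ →₀ ℤ)}
    {g : (B₂ →₀ ℤ) →ₗ[ℤ] (B₁ →₀ ℤ)} {gT : (B₁ →₀ ℤ) →ₗ[ℤ] (B₂ →₀ ℤ)} (h : Tp f fT)
    (h' : Tp g gT) : Tp (f ∘ₗ g) (gT ∘ₗ fT) := fun β γ => by
  rw [LinearMap.comp_apply, LinearMap.comp_apply, ← pr_right γ, tp_pr h', tp_pr h, pr_left]

/-- The map of chains induced by a bijection. -/
noncomputable def U (e : B ≃ Z) : (B →₀ ℤ) →ₗ[ℤ] (Z →₀ ℤ) := lmapDomain ℤ ℤ e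

theorem U_single (e : B ≃ Z) (β : B) : U e (single β 1) = single (e β) 1 := mapDomain_single

theorem U_apply (e : B ≃ Z) (c : B →₀ ℤ) (z : Z) : U e c z = c (e.symm z) :=
  mapDomain_equiv_apply c z

theorem U_symm (e : B ≃ Z) (c : Z →₀ ℤ) : U e (U e.symm c) = c := by
  ext z
  rw [U_apply, U_apply, Equiv.symm_symm, Equiv.apply_symm_apply]

theorem symm_U (e : B ≃ Z) (c : B →₀ ℤ) : U e.symm (U e c) = c := U_symm e.symm c

/-- The transport of a map along bijections. -/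
noncomputable def cj (e₂ : B₂ ≃ Z₂) (e : B ≃ Z) (f : (Z₂ →₀ ℤ) →ₗ[ℤ] (Z →₀ ℤ)) :
    (B₂ →₀ ℤ) →ₗ[ℤ] (B →₀ ℤ) := U e.symm ∘ₗ f ∘ₗ U e₂

theorem cj_apply (e₂ : B₂ ≃ Z₂) (e : B ≃ Z) (f : (Z₂ →₀ ℤ) →ₗ[ℤ] (Z →₀ ℤ)) (c : B₂ →₀ ℤ) :
    cj e₂ e f c = U e.symm (f (U e₂ c)) := rfl

theorem cj_single (e₂ : B₂ ≃ Z₂) (e : B ≃ Z) (f : (Z₂ →₀ ℤ) →ₗ[ℤ] (Z →₀ ℤ)) (γ : B₂) (β : B) :
    cj e₂ e f (single γ 1) β = f (single (e₂ γ) 1) (e β) := by
  rw [cj_apply, U_apply, U_single, Equiv.symm_symm]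

theorem cj_comp (e₂ : B₂ ≃ Z₂) (e₁ : B₁ ≃ Z₁) (e : B ≃ Z) (f : (Z₁ →₀ ℤ) →ₗ[ℤ] (Z →₀ ℤ))
    (g : (Z₂ →₀ ℤ) →ₗ[ℤ] (Z₁ →₀ ℤ)) : cj e₂ e (f ∘ₗ g) = cj e₁ e f ∘ₗ cj e₂ e₁ g :=
  LinearMap.ext fun c => by
    rw [LinearMap.comp_apply, cj_apply, cj_apply, cj_apply, U_symm, LinearMap.comp_apply]

theorem cj_pow (e : B ≃ Z) (k : Module.End ℤ (Z →₀ ℤ)) (m : ℕ) :
    (cj e e k : Module.End ℤ (B →₀ ℤ)) ^ m = cj e e (k ^ m) := by
  induction m with
  | zero => exact LinearMap.ext fun c => (symm_U e c).symm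
  | succ m ih =>
    rw [pow_succ, pow_succ, ih]
    exact (cj_comp e e e _ _).symm

theorem mom_cj {I : Type} [Fintype I] (e : B ≃ Z) (k : Module.End ℤ (Z →₀ ℤ)) (z : I → B)
    (r : I → Z) (h : ∀ i, e (z i) = r i) (m : ℕ) : mom (cj e e k) z m = mom k r m :=
  Finset.sum_congr rfl fun i _ => by rw [cj_pow, cj_single, h]

theorem tp_cj (e₂ : B₂ ≃ Z₂) (e : B ≃ Z) {f : (Z₂ →₀ ℤ) →ₗ[ℤ] (Z →₀ ℤ)}
    {fT : (Z →₀ ℤ) →ₗ[ℤ] (Z₂ →₀ ℤ)} (h : Tp f fT) : Tp (cj e₂ e f) (cj e e₂ fT) := fun β γ => by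
  rw [cj_single, cj_single, h]

end Pair

section Free

variable {H : Type} [Group H] {Z Z₂ I I₂ : Type} [MulAction H Z] [MulAction H Z₂]

theorem exists_equiv {r : I → Z} (h : FreeOn H r) :
    ∃ e : Fr H I ≃ Z, (∀ i, e ⟨1, i⟩ = r i) ∧ Eqv (rp H I) (permRep H Z) (U e) ∧
      Eqv (permRep H Z) (rp H I) (U e.symm) := by
  let e : Fr H I ≃ Z := Equiv.ofBijective (fun β => β.g • r β.i)
    ⟨fun β β' e => by
      have := h.1 (a₁ := (β.g, β.i)) (a₂ := (β'.g, β'.i)) e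
      exact Fr.ext (congrArg Prod.fst this) (congrArg Prod.snd this), fun z => by
      obtain ⟨x, hx⟩ := h.2 z
      exact ⟨⟨x.1, x.2⟩, hx⟩⟩
  have he : ∀ (g : H) β, e (g • β) = g • e β := fun g β => mul_smul g β.g _
  refine ⟨e, fun i => one_smul H _, eqv_lmapDomain he, eqv_lmapDomain fun g z => ?_⟩
  rw [Equiv.symm_apply_eq, he, Equiv.apply_symm_apply]

theorem spl_U {n : ℕ} {C : Type} [AddCommGroup C] {ρ : Representation ℤ H C}
    {q : (Z →₀ ℤ) →ₗ[ℤ] C} {t : C →ₗ[ℤ] (Z →₀ ℤ)} (S : Spl n (permRep H Z) ρ q t)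
    {e : Fr H I ≃ Z} (h : Eqv (rp H I) (permRep H Z) (U e))
    (h' : Eqv (permRep H Z) (rp H I) (U e.symm)) :
    Spl n (rp H I) ρ (q ∘ₗ U e) (U e.symm ∘ₗ t) :=
  ⟨S.eqv_q.comp h, h'.comp S.eqv_t, fun c => by
    rw [LinearMap.comp_apply, LinearMap.comp_apply, U_symm, S.qt]⟩

theorem mat_nsmul {N : Type} [Ring N] (ι : H →* N) (n : ℕ) (f : Ch H I →ₗ[ℤ] Ch H I₂) :
    mat ι (n • f) = n • mat ι f := by
  induction n with
  | zero => rw [zero_nsmul, zero_nsmul, mat_zero]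
  | succ n ih => rw [succ_nsmul, succ_nsmul, mat_add, ih]

end Free

open FA in
/-- The statement for standard free modules. -/
theorem core (hD : DictNStmt) (hM : MatNStmt) (hO : OpStmt)
    (G E : Type) [Group G] [NormedAddCommGroup E] [InnerProductSpace ℂ E] [CompleteSpace E]
    (b : HilbertBasis G ℂ E) (ι : G →* vnAlg b) (hι : ∀ g h, (ι g).1 (b h) = b (g * h))
    (H : Type) [Group H] (j : H →* G) (hj : Function.Injective j) (n : ℕ) (hn : n ≠ 0)
    (C : ℕ → Type) [∀ k, AddCommGroup (C k)] (ρ : ∀ k, Representation ℤ H (C k))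
    (dU : ∀ k, C (k + 1) →ₗ[ℤ] C k) (hd : ∀ k, Eqv (ρ (k + 1)) (ρ k) (dU k))
    (hdd : ∀ k c, dU k (dU (k + 1) c) = 0) (k : ℕ)
    (I₂ I₁ I₀ : Type) [Fintype I₂] [Fintype I₁] [Fintype I₀]
    (d₁ : Ch H I₂ →ₗ[ℤ] Ch H I₁) (d₀ : Ch H I₁ →ₗ[ℤ] Ch H I₀)
    (hd₁ : Eqv (rp H I₂) (rp H I₁) d₁) (hd₀ : Eqv (rp H I₁) (rp H I₀) d₀)
    (q₂ : Ch H I₂ →ₗ[ℤ] C (k + 2)) (t₂ : C (k + 2) →ₗ[ℤ] Ch H I₂)
    (q₁ : Ch H I₁ →ₗ[ℤ] C (k + 1)) (t₁ : C (k + 1) →ₗ[ℤ] Ch H I₁)
    (q₀ : Ch H I₀ →ₗ[ℤ] C k) (t₀ : C k →ₗ[ℤ] Ch H I₀)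
    (S₂ : Spl n (rp H I₂) (ρ (k + 2)) q₂ t₂) (S₁ : Spl n (rp H I₁) (ρ (k + 1)) q₁ t₁)
    (S₀ : Spl n (rp H I₀) (ρ k) q₀ t₀)
    (c₁ : ∀ c, dU (k + 1) (q₂ c) = q₁ (d₁ c)) (c₀ : ∀ c, dU k (q₁ c) = q₀ (d₀ c))
    (a₁ : Module.End ℤ (Ch H I₁)) (a₀ : Module.End ℤ (Ch H I₀))
    (ha₁ : t₁ ∘ₗ q₁ = a₁) (ha₀ : t₀ ∘ₗ q₀ = a₀) (T₁ : Tp a₁ a₁) (T₀ : Tp a₀ a₀)
    (e₁ : Ch H I₁ →ₗ[ℤ] Ch H I₂) (e₀ : Ch H I₀ →ₗ[ℤ] Ch H I₁)
    (he₁ : Eqv (rp H I₁) (rp H I₂) e₁) (he₀ : Eqv (rp H I₀) (rp H I₁) e₀)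
    (U₁ : Tp d₁ e₁) (U₀ : Tp d₀ e₀) :
    ∃ (K₁ : HV E I₁ →L[ℂ] HV E I₁) (K₀ : HV E I₀ →L[ℂ] HV E I₀), 0 ≤ K₁ ∧ 0 ≤ K₀ ∧
      (∀ m, tr (fr b I₁) (K₁ ^ m) = mom (a₁ ∘ₗ (d₁ ∘ₗ e₁) ∘ₗ a₁) (fun i => ⟨1, i⟩) m) ∧
      (∀ m, tr (fr b I₀) (K₀ ^ m) = mom (a₀ ∘ₗ (d₀ ∘ₗ e₀) ∘ₗ a₀) (fun i => ⟨1, i⟩) m) ∧
      (TorsAt (ι.comp j) ρ dU hd k ↔ (mom a₁ (fun i => ⟨1, i⟩) 1 : ℝ) ≤
        n * (gdim (fr b I₀) K₀.range + gdim (fr b I₁) K₁.range)) := by
  subst ha₁ ha₀
  have A₁ : Eqv (rp H I₁) (rp H I₁) (t₁ ∘ₗ q₁) := S₁.eqv_t.comp S₁.eqv_q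
  have A₀ : Eqv (rp H I₀) (rp H I₀) (t₀ ∘ₗ q₀) := S₀.eqv_t.comp S₀.eqv_q
  have F₁ : Eqv (rp H I₂) (rp H I₁) (t₁ ∘ₗ q₁ ∘ₗ d₁) := A₁.comp hd₁
  have F₀ : Eqv (rp H I₁) (rp H I₀) (t₀ ∘ₗ q₀ ∘ₗ d₀) := A₀.comp hd₀
  have reg : IsLeftRegular (n : vnAlg b) := by
    have := vnAlg_intCast (b := b) n (Int.natCast_ne_zero.2 hn)
    rwa [Int.cast_natCast] at this
  obtain ⟨p₁, g₁⟩ := (hO G E b ι hι H j hj I₁ I₂).2 (t₁ ∘ₗ q₁ ∘ₗ d₁) (e₁ ∘ₗ t₁ ∘ₗ q₁) F₁
    (he₁.comp A₁) (tp_comp T₁ U₁)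
  obtain ⟨p₀, g₀⟩ := (hO G E b ι hι H j hj I₀ I₁).2 (t₀ ∘ₗ q₀ ∘ₗ d₀) (e₀ ∘ₗ t₀ ∘ₗ q₀) F₀
    (he₀.comp A₀) (tp_comp T₀ U₀)
  refine ⟨_, _, p₁, p₀, fun m => (hO G E b ι hι H j hj I₁ I₂).1 _ (F₁.comp (he₁.comp A₁)) m,
    fun m => (hO G E b ι hι H j hj I₀ I₁).1 _ (F₀.comp (he₀.comp A₀)) m, ?_⟩
  rw [g₁, g₀, ← (hO G E b ι hι H j hj I₁ I₂).1 _ A₁ 1, pow_one,
    hD H (vnAlg b) (ι.comp j) n reg C ρ dU hd k I₂ I₁ I₀ d₁ d₀ hd₁ hd₀ q₂ t₂ q₁ t₁ q₀ t₀ S₂ S₁ S₀
      c₁ c₀]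
  refine hM G E b I₂ I₁ I₀ n hn _ _ _ ?_ ?_ ?_ ?_
  · rw [← mat_comp _ _ F₀, ← mat_zero (ι.comp j)]
    refine congrArg _ (LinearMap.ext fun c => ?_)
    simp only [LinearMap.comp_apply, LinearMap.zero_apply]
    rw [← c₀, S₁.qt, ← c₁, map_nsmul, hdd, nsmul_zero, map_zero]
  · rw [← mat_comp _ _ A₁, ← mat_nsmul]
    refine congrArg _ (LinearMap.ext fun c => ?_)
    simp only [LinearMap.comp_apply, LinearMap.smul_apply]
    rw [S₁.qt, map_nsmul]
  · rw [← mat_comp _ _ F₀, ← mat_nsmul]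
    refine congrArg _ (LinearMap.ext fun c => ?_)
    simp only [LinearMap.comp_apply, LinearMap.smul_apply]
    rw [← c₀, S₁.qt, map_nsmul, map_nsmul, c₀]
  · rw [← mat_comp _ _ A₁, ← mat_nsmul]
    refine congrArg _ (LinearMap.ext fun c => ?_)
    simp only [LinearMap.comp_apply, LinearMap.smul_apply]
    rw [S₁.qt, map_nsmul]

end AlBr

open AlBr in
theorem br_stmt (hD : DictNStmt) (hM : MatNStmt) (hO : OpStmt) : BrStmt := by
  intro G E _ _ _ _ b ι hι H _ j hj n hn C _ ρ dU hd hdd R _ d hdR q t a S c ha T k I₂ I₁ I₀ _ _ _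
    r₂ r₁ r₀ h₂ h₁ h₀ e₁ e₀ he₁ he₀ U₁ U₀
  obtain ⟨u₂, -, v₂, w₂⟩ := exists_equiv h₂
  obtain ⟨u₁, o₁, v₁, w₁⟩ := exists_equiv h₁
  obtain ⟨u₀, o₀, v₀, w₀⟩ := exists_equiv h₀
  have key := core hD hM hO G E b ι hι H j hj n hn C ρ dU hd hdd k I₂ I₁ I₀
    (cj u₂ u₁ (d (k + 1))) (cj u₁ u₀ (d k)) (w₁.comp ((hdR _).comp v₂))
    (w₀.comp ((hdR _).comp v₁)) _ _ _ _ _ _ (spl_U (S _) v₂ w₂) (spl_U (S _) v₁ w₁)
    (spl_U (S _) v₀ w₀)
    (fun x => by rw [LinearMap.comp_apply, LinearMap.comp_apply, cj_apply, U_symm, c])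
    (fun x => by rw [LinearMap.comp_apply, LinearMap.comp_apply, cj_apply, U_symm, c])
    (cj u₁ u₁ (a (k + 1))) (cj u₀ u₀ (a k)) (by rw [← ha]; rfl) (by rw [← ha]; rfl)
    (tp_cj _ _ (T _)) (tp_cj _ _ (T _)) (cj u₁ u₂ e₁) (cj u₀ u₁ e₀) (w₂.comp (he₁.comp v₁))
    (w₁.comp (he₀.comp v₀)) (tp_cj _ _ U₁) (tp_cj _ _ U₀)
  simp only [← cj_comp, mom_cj u₁ _ _ r₁ o₁, mom_cj u₀ _ _ r₀ o₀] at key
  exact key

end Pool.Agent.MP_4f4d9f_gt.Cb

end

section

open scoped Matrix Pointwise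

namespace Pool.Agent.MP_4f4d9f_gt.Cb

open Finsupp Db

namespace AlCube

variable {G V Hy : Type} [Group G] [MulAction G V] [MulAction G Hy] {T : SimpleGraph V}
  {sep : V → V → Finset Hy}

theorem mem_itv (W : Wl G sep) (hd : ∀ a b, (sep a b).card = T.dist a b) (a b x : V) :
    x ∈ Itv T a b ↔ sep a x ⊆ sep a b := by
  classical
  have e : sep a b = (sep a x \ sep x b) ∪ (sep x b \ sep a x) := by
    ext h
    rw [W.tri a x b h, Finset.mem_union, Finset.mem_sdiff, Finset.mem_sdiff]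
    tauto
  have h1 := Finset.card_sdiff_add_card_inter (sep a x) (sep x b)
  have h2 := Finset.card_sdiff_add_card_inter (sep x b) (sep a x)
  have h3 := congrArg Finset.card e
  rw [Finset.card_union_of_disjoint disjoint_sdiff_sdiff] at h3
  rw [Finset.inter_comm] at h2
  change T.dist a x + T.dist x b = T.dist a b ↔ _
  rw [← hd, ← hd, ← hd]
  constructor
  · intro h k hk
    have h4 : sep a x ∩ sep x b = ∅ := Finset.card_eq_zero.1 (by omega)
    have h5 : k ∉ sep x b := fun h5 => by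
      have := Finset.mem_inter.2 ⟨hk, h5⟩
      rw [h4] at this
      exact Finset.notMem_empty _ this
    rw [W.tri a x b k]
    tauto
  · intro h
    have h4 : sep a x ∩ sep x b = ∅ := Finset.eq_empty_of_forall_notMem fun k hk => by
      have h5 := Finset.mem_inter.1 hk
      have h6 := h h5.1
      rw [W.tri a x b k] at h6
      tauto
    rw [h4, Finset.card_empty] at h1 h2
    omega

theorem full_iff (W : Wl G sep) (hd : ∀ a b, (sep a b).card = T.dist a b) (a b : V) :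
    (Itv T a b).ncard = 2 ^ T.dist a b ↔ ∀ τ ⊆ sep a b, ∃ x, sep a x = τ := by
  have hi : Function.Injective (sep a) := fun _ _ h => W.ext h
  have hs : sep a '' Itv T a b ⊆ ↑(sep a b).powerset := by
    rintro _ ⟨x, hx, rfl⟩
    exact Finset.mem_coe.2 (Finset.mem_powerset.2 ((mem_itv W hd a b x).1 hx))
  rw [← Set.ncard_image_of_injective _ hi, ← hd, ← Finset.card_powerset, ← Set.ncard_coe_finset]
  constructor
  · intro h τ hτ
    have h1 := Set.eq_of_subset_of_ncard_le hs h.ge (Finset.finite_toSet _)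
    obtain ⟨x, -, hx⟩ : τ ∈ sep a '' Itv T a b := by
      rw [h1]
      exact Finset.mem_coe.2 (Finset.mem_powerset.2 hτ)
    exact ⟨x, hx⟩
  · intro h
    refine congrArg _ (hs.antisymm fun τ hτ => ?_)
    have h1 := Finset.mem_powerset.1 (Finset.mem_coe.1 hτ)
    obtain ⟨x, rfl⟩ := h τ h1
    exact ⟨x, (mem_itv W hd a b x).2 h1, rfl⟩

theorem sep_sub (W : Wl G sep) {a x y : V} {s : Finset Hy} (hx : sep a x ⊆ s) (hy : sep a y ⊆ s) :
    sep x y ⊆ s := fun k hk => by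
  rw [W.tri x a y k, W.symm x a] at hk
  by_cases h : k ∈ sep a x
  · exact hx h
  · exact hy (by tauto)

theorem corner_ex (W : Wl G sep) (τ : Finset Hy) : ∀ v, Corner sep v τ → ∃ u, sep v u = τ := by
  classical
  induction τ using Finset.induction_on with
  | empty => exact fun v _ => ⟨v, W.self v⟩
  | insert h τ hτ ih =>
    intro v C
    obtain ⟨a, ha⟩ := C.1 h (Finset.mem_insert_self _ _)
    obtain ⟨u, hu⟩ := ih a ⟨fun h' hh' => by
      obtain ⟨b, hb⟩ := C.1 h' (Finset.mem_insert_of_mem hh')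
      obtain ⟨x, hx, -⟩ := W.square (C.2 h (Finset.mem_insert_self _ _) h'
        (Finset.mem_insert_of_mem hh') fun e => hτ (e ▸ hh')) ha hb
      exact ⟨x, hx⟩, fun k hk k' hk' =>
        C.2 k (Finset.mem_insert_of_mem hk) k' (Finset.mem_insert_of_mem hk')⟩
    refine ⟨u, ?_⟩
    ext k
    rw [W.tri v a u k, ha, hu, Finset.mem_singleton, Finset.mem_insert]
    by_cases e : k = h
    · subst e
      tauto
    · tauto

theorem dist_smul (W : Wl G sep) (hd : ∀ a b, (sep a b).card = T.dist a b) (g : G) (a b : V) :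
    T.dist (g • a) (g • b) = T.dist a b := by
  rw [← hd, ← hd]
  refine (Finset.card_bij (fun h _ => g • h) (fun h hh => (W.eqv g a b h).2 hh)
    (fun _ _ _ _ e => MulAction.injective g e) fun k hk => ⟨g⁻¹ • k, ?_, smul_inv_smul g k⟩).symm
  rwa [← W.eqv g, smul_inv_smul]

open Classical in
/-- The directions of a set of vertices. -/
noncomputable def dir (sep : V → V → Finset Hy) (S : Set V) : Finset Hy :=
  if h : {h | ∃ a ∈ S, ∃ b ∈ S, h ∈ sep a b}.Finite then h.toFinset else ∅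

theorem dir_set (W : Wl G sep) (hd : ∀ a b, (sep a b).card = T.dist a b) (a b : V) :
    {h | ∃ x ∈ Itv T a b, ∃ y ∈ Itv T a b, h ∈ sep x y} = ↑(sep a b) := by
  ext h
  constructor
  · rintro ⟨x, hx, y, hy, hh⟩
    exact sep_sub W ((mem_itv W hd a b x).1 hx) ((mem_itv W hd a b y).1 hy) hh
  · intro hh
    exact ⟨a, (mem_itv W hd a b a).2 (by rw [W.self]; exact Finset.empty_subset _), b,
      (mem_itv W hd a b b).2 subset_rfl, hh⟩

theorem dir_itv (W : Wl G sep) (hd : ∀ a b, (sep a b).card = T.dist a b) (a b : V) :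
    dir sep (Itv T a b) = sep a b := by
  have h := dir_set W hd a b
  rw [dir, dif_pos (h ▸ Finset.finite_toSet _)]
  exact Finset.coe_injective (by rw [Set.Finite.coe_toFinset, h])

end AlCube

open AlCube in
theorem cube_stmt : CubeStmt := by
  classical
  intro G V Hy _ _ _ T sep W hd
  refine ⟨dir sep, ?_, fun v τ C => ?_⟩
  · rintro _ ⟨a, b, rfl, hc⟩
    refine ⟨Set.finite_of_ncard_ne_zero (by rw [hc]; positivity), ?_, fun h => ?_,
      fun v hv h hh => ?_, fun g => ⟨g • a, g • b, ?_, ?_⟩⟩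
    · rw [dir_itv W hd, hc, hd]
      exact Nat.lt_two_pow_self.le
    · rw [dir_itv W hd, ← Finset.mem_coe, ← dir_set W hd]
      rfl
    · rw [dir_itv W hd] at hh
      have h1 := (mem_itv W hd a b v).1 hv
      have h2 : symmDiff (sep a v) {h} ⊆ sep a b := fun k hk => by
        rw [Finset.mem_symmDiff, Finset.mem_singleton] at hk
        rcases hk with hk | hk
        · exact h1 hk.1
        · exact hk.1 ▸ hh
      obtain ⟨x, hx⟩ := (full_iff W hd a b).1 hc _ h2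
      refine ⟨x, (mem_itv W hd a b x).2 (hx ▸ h2), ?_⟩
      ext k
      rw [W.tri v a x k, W.symm v a, hx, Finset.mem_symmDiff]
      tauto
    · ext x
      rw [Set.mem_smul_set_iff_inv_smul_mem]
      change T.dist a (g⁻¹ • x) + T.dist (g⁻¹ • x) b = T.dist a b ↔
        T.dist (g • a) x + T.dist x (g • b) = T.dist (g • a) (g • b)
      rw [← dist_smul W hd g a (g⁻¹ • x), ← dist_smul W hd g (g⁻¹ • x) b, smul_inv_smul,
        dist_smul W hd g a b]
    · rw [Set.ncard_smul_set, hc, dist_smul W hd]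
  · obtain ⟨u, rfl⟩ := corner_ex W τ v C
    refine ⟨Itv T v u, ⟨v, u, rfl, (full_iff W hd v u).2 fun τ hτ => corner_ex W τ v
      ⟨fun h hh => C.1 h (hτ hh), fun h hh h' hh' => C.2 h (hτ hh) h' (hτ hh')⟩⟩, ?_⟩
    rintro _ ⟨a, b, rfl, -⟩
    rw [dir_itv W hd]
    constructor
    · intro h
      have h1 := h ((mem_itv W hd v u v).2 (by rw [W.self]; exact Finset.empty_subset _))
      exact ⟨h1, sep_sub W ((mem_itv W hd a b v).1 h1)
        ((mem_itv W hd a b u).1 (h ((mem_itv W hd v u u).2 subset_rfl)))⟩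
    · rintro ⟨h1, h2⟩ x hx
      refine (mem_itv W hd a b x).2 (sep_sub W (a := v) ?_ (((mem_itv W hd v u x).1 hx).trans h2))
      rw [W.symm]
      exact (mem_itv W hd a b v).1 h1

end Pool.Agent.MP_4f4d9f_gt.Cb

end

section

open scoped Matrix Pointwise

namespace Pool.Agent.MP_4f4d9f_gt.Cb

open Finsupp Db

namespace AlDict

variable {H N : Type} [Group H] [Ring N] (ι : H →* N) {C C' I I' : Type} [AddCommGroup C]
  [AddCommGroup C'] {ρ : Representation ℤ H C} {ρ' : Representation ℤ H C'}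

/-- Linear maps on row vectors agree if they agree on coordinates of chains. -/
theorem row_ext {M : Type} [Fintype I] [AddCommGroup M] [Module N M]
    {f g : (I → N) →ₗ[N] M} (e : ∀ c : Ch H I, f (co ι c) = g (co ι c)) : f = g := by
  classical
  refine LinearMap.pi_ext' fun i => LinearMap.ext_ring ?_
  have h1 := e (single ⟨1, i⟩ 1)
  rw [co_single, map_one] at h1
  convert h1 <;> simp

/-- The coordinates of an element of the tensor product. -/
noncomputable def toRow {t : C →ₗ[ℤ] Ch H I} (ht : Eqv ρ (rp H I) t) : Tens ι ρ →ₗ[N] (I → N) :=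
  Tens.lift ι (co ι ∘ₗ t) fun g c => by
    rw [LinearMap.comp_apply, LinearMap.comp_apply, ht, co_rp]

theorem toRow_of {t : C →ₗ[ℤ] Ch H I} (ht : Eqv ρ (rp H I) t) (c : C) :
    toRow ι ht (Tens.of ι ρ c) = co ι (t c) := Tens.lift_of ι _ _ c

/-- The element of the tensor product defined by a row vector. -/
noncomputable def ofRow [Fintype I] (ρ : Representation ℤ H C) (q : Ch H I →ₗ[ℤ] C) :
    (I → N) →ₗ[N] Tens ι ρ :=
  Fintype.linearCombination N fun i => Tens.of ι ρ (q (single ⟨1, i⟩ 1))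

theorem ofRow_co [Fintype I] {q : Ch H I →ₗ[ℤ] C} (hq : Eqv (rp H I) ρ q) (c : Ch H I) :
    ofRow ι ρ q (co ι c) = Tens.of ι ρ (q c) := by
  classical
  induction c using ch_induction with
  | h0 => simp
  | hadd x y hx hy => simp only [map_add, hx, hy]
  | hneg x hx => simp only [map_neg, hx]
  | h1 β =>
    conv_rhs => rw [← β.smul_one, ← permRep_single, hq, Tens.of_rep]
    rw [co_single, ofRow]
    convert Fintype.linearCombination_apply_single N _ β.i (ι β.g)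

theorem ofRow_toRow [Fintype I] {n : ℕ} {q : Ch H I →ₗ[ℤ] C} {t : C →ₗ[ℤ] Ch H I}
    (S : Spl n (rp H I) ρ q t) (x : Tens ι ρ) : ofRow ι ρ q (toRow ι S.eqv_t x) = n • x :=
  LinearMap.congr_fun (f := ofRow ι ρ q ∘ₗ toRow ι S.eqv_t) (g := n • LinearMap.id)
    (Tens.hom_ext ι fun c => by
      rw [LinearMap.comp_apply, toRow_of, ofRow_co ι S.eqv_q, S.qt, map_nsmul]
      rfl) x

theorem toRow_ofRow [Fintype I] {n : ℕ} {q : Ch H I →ₗ[ℤ] C} {t : C →ₗ[ℤ] Ch H I}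
    (S : Spl n (rp H I) ρ q t) (z : I → N) :
    toRow ι S.eqv_t (ofRow ι ρ q z) = z ᵥ* mat ι (t ∘ₗ q) :=
  LinearMap.congr_fun (f := toRow ι S.eqv_t ∘ₗ ofRow ι ρ q) (g := (mat ι (t ∘ₗ q)).vecMulLinear)
    (row_ext ι fun c => by
      rw [LinearMap.comp_apply, ofRow_co ι S.eqv_q, toRow_of, Matrix.vecMulLinear_apply,
        ← co_map ι (S.eqv_t.comp S.eqv_q), LinearMap.comp_apply]) z

theorem toRow_map [Fintype I'] {n : ℕ} {q : Ch H I →ₗ[ℤ] C} {t : C →ₗ[ℤ] Ch H I}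
    (S : Spl n (rp H I) ρ q t) {q' : Ch H I' →ₗ[ℤ] C'} (hq : Eqv (rp H I') ρ' q')
    {u : C' →ₗ[ℤ] C} (hu : Eqv ρ' ρ u) {f : Ch H I' →ₗ[ℤ] Ch H I} (hf : Eqv (rp H I') (rp H I) f)
    (e : ∀ c, u (q' c) = q (f c)) (z : I' → N) :
    toRow ι S.eqv_t (Tens.map ι u hu (ofRow ι ρ' q' z)) = z ᵥ* mat ι (t ∘ₗ q ∘ₗ f) :=
  LinearMap.congr_fun (f := toRow ι S.eqv_t ∘ₗ Tens.map ι u hu ∘ₗ ofRow ι ρ' q')
    (g := (mat ι (t ∘ₗ q ∘ₗ f)).vecMulLinear) (row_ext ι fun c => by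
      rw [LinearMap.comp_apply, LinearMap.comp_apply, ofRow_co ι hq, Tens.map_of ι u hu, toRow_of,
        Matrix.vecMulLinear_apply, ← co_map ι (S.eqv_t.comp (S.eqv_q.comp hf)), e,
        LinearMap.comp_apply, LinearMap.comp_apply]) z

end AlDict

open AlDict in
theorem dictN_stmt : DictNStmt := by
  intro H N _ _ ι n hn C _ ρ dU hd k I₂ I₁ I₀ _ _ _ d₁ d₀ h₁ h₀ q₂ t₂ q₁ t₁ q₀ t₀ S₂ S₁ S₀ e₁ e₀
  refine ⟨fun ht z hz hz' => ?_, fun hm x hx => ?_⟩
  · obtain ⟨s, hs, w, hw⟩ := ht (n • ofRow ι _ q₁ z) (by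
      rw [map_nsmul, ← ofRow_toRow ι S₀, toRow_map ι S₀ S₁.eqv_q (hd k) h₀ e₀, hz, map_zero])
    refine ⟨n * (s * (n * n)), hn.mul (hs.mul (hn.mul hn)), toRow ι S₂.eqv_t w, ?_⟩
    rw [← toRow_map ι S₁ S₂.eqv_q (hd (k + 1)) h₁ e₁, ofRow_toRow ι S₂, map_nsmul, hw, map_nsmul,
      map_smul, map_nsmul, toRow_ofRow ι S₁, hz', mul_smul, mul_smul, mul_smul,
      Nat.cast_smul_eq_nsmul, Nat.cast_smul_eq_nsmul, Nat.cast_smul_eq_nsmul]
  · obtain ⟨s, hs, w, hw⟩ := hm (toRow ι S₁.eqv_t x)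
      (by rw [← toRow_map ι S₀ S₁.eqv_q (hd k) h₀ e₀, ofRow_toRow ι S₁, map_nsmul, hx, smul_zero,
        map_zero])
      (by rw [← toRow_ofRow ι S₁, ofRow_toRow ι S₁, map_nsmul])
    refine ⟨s * n, hs.mul hn, n • ofRow ι _ q₂ w, ?_⟩
    rw [map_nsmul, ← ofRow_toRow ι S₁, toRow_map ι S₁ S₂.eqv_q (hd (k + 1)) h₁ e₁, hw, map_smul,
      ofRow_toRow ι S₁, mul_smul, Nat.cast_smul_eq_nsmul]

end Pool.Agent.MP_4f4d9f_gt.Cb

end

section

open scoped Matrix Pointwise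

namespace Pool.Agent.MP_4f4d9f_gt.Cb

open Finsupp Db

namespace AlEx

section One

variable {V Hy B : Type} {o : B → V} {σ : B → Finset Hy} {F : Hy → B → B} {ht : V → ℕ}
  {Dn : V → Finset Hy}

theorem FS_comm (S : FlipSys σ F) (h : Hy) (τ : Finset Hy) (β : B) :
    FS F τ (F h β) = F h (FS F τ β) := by
  classical
  induction τ using Finset.induction_on with
  | empty => rw [FS_empty, FS_empty]
  | insert a τ ha ih => rw [FS_insert S.comm ha, FS_insert S.comm ha, ih, S.comm]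

/-- Cells without a descending direction are determined by their unrooted cells. -/
theorem uniq (S : FlipSys σ F)
    (swap : ∀ β, ∀ h ∈ σ β, (h ∈ Dn (o (F h β)) ↔ h ∉ Dn (o β)))
    (keep : ∀ β, ∀ h ∈ σ β, ∀ h' ∈ σ β, h' ≠ h → (h' ∈ Dn (o (F h β)) ↔ h' ∈ Dn (o β)))
    {β β' : B} (h1 : ¬ ∃ h ∈ Dn (o β), h ∈ σ β) (h2 : ¬ ∃ h ∈ Dn (o β'), h ∈ σ β')
    (e : uq F β = uq F β') : β = β' := by
  classical
  let bot : B → B := fun β => FS F (Dn (o β) ∩ σ β) β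
  have hb1 : ∀ h β, h ∈ σ β → h ∈ Dn (o β) → bot (F h β) = bot β := by
    intro h β hσ hD
    have e1 : h ∉ Dn (o (F h β)) ∩ σ (F h β) := fun e =>
      (swap β h hσ).1 (Finset.mem_inter.1 e).1 hD
    have e2 : Dn (o β) ∩ σ β = insert h (Dn (o (F h β)) ∩ σ (F h β)) := by
      ext k
      rw [Finset.mem_insert, Finset.mem_inter, Finset.mem_inter, S.sig]
      by_cases hk : k = h
      · subst hk
        exact ⟨fun _ => Or.inl rfl, fun _ => ⟨hD, hσ⟩⟩
      · constructor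
        · rintro ⟨a, b⟩
          exact Or.inr ⟨(keep β h hσ k b hk).2 a, b⟩
        · rintro (a | ⟨a, b⟩)
          · exact absurd a hk
          · exact ⟨(keep β h hσ k b hk).1 a, b⟩
    show FS F _ _ = FS F _ _
    rw [e2, FS_insert S.comm e1, FS_comm S]
  have hb : ∀ h β, bot (F h β) = bot β := by
    intro h β
    by_cases hσ : h ∈ σ β
    · by_cases hD : h ∈ Dn (o β)
      · exact hb1 h β hσ hD
      · have := hb1 h (F h β) (by rwa [S.sig]) ((swap β h hσ).2 hD)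
        rw [S.inv] at this
        exact this.symm
    · rw [S.out h β hσ]
  have hn : ∀ β, (¬ ∃ h ∈ Dn (o β), h ∈ σ β) → bot β = β := by
    intro β hβ
    have : Dn (o β) ∩ σ β = ∅ :=
      Finset.eq_empty_of_forall_notMem fun k hk => hβ ⟨k, Finset.mem_inter.1 hk⟩
    show FS F _ _ = β
    rw [this, FS_empty]
  have := congrArg (Quot.lift bot (by
    rintro a b ⟨h, rfl⟩
    exact (hb h a).symm)) e
  rw [← hn β h1, ← hn β' h2]
  exact this

theorem exists_nl (down : ∀ β, ∀ h ∈ σ β, h ∈ Dn (o β) → ht (o (F h β)) < ht (o β)) (β : B) :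
    ∃ β', uq F β' = uq F β ∧ (¬ ∃ h ∈ Dn (o β'), h ∈ σ β') ∧
      ((∃ h ∈ Dn (o β), h ∈ σ β) → ht (o β') < ht (o β)) ∧ ht (o β') ≤ ht (o β) := by
  induction hn : ht (o β) using Nat.strong_induction_on generalizing β with
  | _ n ih =>
    by_cases hl : ∃ h ∈ Dn (o β), h ∈ σ β
    · obtain ⟨h, h1, h2⟩ := hl
      have h3 := down β h h2 h1
      obtain ⟨β', e1, e2, -, e3⟩ := ih _ (hn ▸ h3) (F h β) rfl
      exact ⟨β', e1.trans (uq_flip F h β), e2, fun _ => by omega, by omega⟩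
    · exact ⟨β, rfl, hl, fun h => absurd h hl, hn.le⟩

theorem coef {U : Type} (u : B → U) (c : B →₀ ℤ) (γ : B)
    (h : ∀ γ' ∈ c.support, u γ' = u γ → γ' = γ) : mapDomain u c (u γ) = c γ := by
  rw [mapDomain, Finsupp.sum, finsetSum_apply, Finset.sum_eq_single γ, single_eq_same]
  · intro γ' h1 h2
    exact single_eq_of_ne' fun e => h2 (h γ' h1 e)
  · intro h1
    rw [single_eq_same, notMem_support_iff.1 h1]

theorem sum_flt [DecidableEq V] (o : B → V) (z : B →₀ ℤ) :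
    ∑ v ∈ z.support.image o, flt (fun β => o β = v) z = z := by
  ext β
  rw [finsetSum_apply, Finset.sum_eq_single (o β), flt_apply, if_pos rfl]
  · intro v _ h
    rw [flt_apply, if_neg (Ne.symm h)]
  · intro h
    rw [flt_apply, if_pos rfl]
    by_contra h1
    exact h (Finset.mem_image_of_mem o (mem_support_iff.2 h1))

theorem eq_zero {p : B → Prop} {c : B →₀ ℤ} (hc : On p c) (h : ∀ β, ¬ p β) : c = 0 := by
  ext β
  by_contra h1
  exact h β (hc β (mem_support_iff.2 h1))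

end One

variable {V Hy Y : Type} {R : ℕ → Type} {o : ∀ j, R j → V} {σ : ∀ j, R j → Finset Hy}
  {F : ∀ j, Hy → R j → R j} {d : ∀ j, (R (j + 1) →₀ ℤ) →ₗ[ℤ] (R j →₀ ℤ)} {ht : V → ℕ}
  {Dn : V → Finset Hy} {cp : V → Y}

theorem rel (h : RelStmt) (hR : Rt o σ F d)
    (hA : ∀ v, ∀ τ ⊆ Dn v, Acy d fun j β => o j β = v ∧ τ ⊆ σ j β) (v : V) (j : ℕ)
    (z : R (j + 1) →₀ ℤ) (hz : On (fun β => o (j + 1) β = v) z)
    (hd : On (fun β => ∃ h ∈ Dn v, h ∈ σ j β) (d j z)) :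
    ∃ w, On (fun β => o (j + 1) β = v ∧ ∃ h ∈ Dn v, h ∈ σ (j + 1) β) (d (j + 1) w - z) := by
  rcases (Dn v).eq_empty_or_nonempty with e | e
  · have h0 : d j z = 0 := eq_zero hd fun β => by simp [e]
    obtain ⟨w, -, hw⟩ := (hA v ∅ (Finset.empty_subset _)).succ j z
      (hz.mono fun β hβ => ⟨hβ, Finset.empty_subset _⟩) h0
    exact ⟨w, by rw [hw, sub_self]; exact On.zero _⟩
  · obtain ⟨w, -, hw⟩ := (h Hy R (fun j β => o j β = v) σ d
      (fun j β hβ γ hγ => (hR.loc j β γ hγ).trans hβ) hR.mono hR.d_d hR.ε_d (Dn v) e (hA v)).2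
      j z hz hd
    exact ⟨w, hw⟩

theorem step (h : RelStmt) (hR : Rt o σ F d) (hH : Ht o σ F ht Dn cp)
    (hA : ∀ v, ∀ τ ⊆ Dn v, Acy d fun j β => o j β = v ∧ τ ⊆ σ j β) (j n : ℕ)
    (z : R (j + 1) →₀ ℤ) (hz : On (fun β => ht (o (j + 1) β) < n + 1) z)
    (hd : mapDomain (uq (F j)) (d j z) = 0) :
    ∃ w y, On (fun β => ht (o (j + 1) β) < n) y ∧ mapDomain (uq (F (j + 1))) z =
      mapDomain (uq (F (j + 1))) (d (j + 1) w) + mapDomain (uq (F (j + 1))) y := by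
  classical
  have hdz : On (fun β => ht (o j β) < n + 1) (d j z) :=
    hz.map fun β hβ γ hγ => by
      have e : o j γ = o (j + 1) β := hR.loc j β γ hγ
      rwa [e]
  choose nl nl1 nl2 nl3 nl4 using exists_nl (hH.down (j + 1))
  rw [← sum_flt (o (j + 1)) z]
  refine Finset.sum_induction _ (fun x => ∃ w y, On (fun β => ht (o (j + 1) β) < n) y ∧
    mapDomain (uq (F (j + 1))) x =
      mapDomain (uq (F (j + 1))) (d (j + 1) w) + mapDomain (uq (F (j + 1))) y) ?_ ?_ ?_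
  · rintro a b ⟨w, y, h1, h2⟩ ⟨w', y', h1', h2'⟩
    refine ⟨w + w', y + y', h1.add h1', ?_⟩
    rw [mapDomain_add, h2, h2', map_add, mapDomain_add, mapDomain_add]
    abel
  · exact ⟨0, 0, On.zero _, by simp⟩
  intro v hv
  obtain ⟨β₀, hβ₀, e₀⟩ := Finset.mem_image.1 hv
  have hvn : ht v < n + 1 := e₀ ▸ hz β₀ hβ₀
  by_cases hlt : ht v < n
  · exact ⟨0, _, (on_flt (fun β => o (j + 1) β = v) z).mono fun β hβ => by rwa [hβ], by simp⟩
  have hlow : On (fun β => ∃ h ∈ Dn v, h ∈ σ j β) (d j (flt (fun β => o (j + 1) β = v) z)) := by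
    have e := (hR.loc j).flt (fun x => x = v) z
    simp only [id] at e
    rw [e]
    intro γ hγ
    have e1 : o j γ = v := on_flt _ _ γ hγ
    rw [mem_support_iff, flt_apply, if_pos e1] at hγ
    by_contra hn
    rw [← e1] at hn
    apply hγ
    rw [← coef (uq (F j)) (d j z) γ, hd, Finsupp.zero_apply]
    intro γ' h1 h2
    by_cases hl : ∃ h ∈ Dn (o j γ'), h ∈ σ j γ'
    · obtain ⟨δ, d1, d2, d3, -⟩ := exists_nl (hH.down j) γ'
      have d4 : δ = γ := uniq (hR.flip j) (hH.swap j) (hH.keep j) d2 hn (d1.trans h2)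
      have d5 := d3 hl
      have d6 : ht (o j γ') < n + 1 := hdz γ' h1
      rw [d4, e1] at d5
      omega
    · exact uniq (hR.flip j) (hH.swap j) (hH.keep j) hl hn h2
  obtain ⟨w, hw⟩ := rel h hR hA v j _ (on_flt _ z) hlow
  refine ⟨w, mapDomain nl (-(d (j + 1) w - flt (fun β => o (j + 1) β = v) z)),
    hw.neg.mapDomain fun β hβ => ?_, ?_⟩
  · have := nl3 β (hβ.1 ▸ hβ.2)
    rw [hβ.1] at this
    omega
  · rw [← mapDomain_comp, show uq (F (j + 1)) ∘ nl = uq (F (j + 1)) from funext nl1,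
      ← mapDomain_add]
    congr 1
    abel

theorem desc (hH : Ht o σ F ht Dn cp)
    (hA : ∀ v, ∀ τ ⊆ Dn v, Acy d fun j β => o j β = v ∧ τ ⊆ σ j β) {v : V}
    (e : (Dn v).Nonempty) : ∃ γ γ' : R 0, o 0 γ = v ∧ uq (F 0) γ' = uq (F 0) γ ∧
      ht (o 0 γ') < ht v ∧ cp (o 0 γ') = cp v := by
  obtain ⟨h, hh⟩ := e
  obtain ⟨γ, h1, h2⟩ := (hA v {h} (Finset.singleton_subset_iff.2 hh)).ne
  subst h1
  exact ⟨γ, F 0 h γ, rfl, uq_flip _ _ _,
    hH.down 0 γ h (Finset.singleton_subset_iff.1 h2) hh, hH.cp_F 0 h γ⟩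

theorem exists_base (hH : Ht o σ F ht Dn cp)
    (hA : ∀ v, ∀ τ ⊆ Dn v, Acy d fun j β => o j β = v ∧ τ ⊆ σ j β) (v : V) :
    ∃ β : R 0, cp (o 0 β) = cp v ∧ Dn (o 0 β) = ∅ := by
  induction hn : ht v using Nat.strong_induction_on generalizing v with
  | _ n ih =>
    rcases (Dn v).eq_empty_or_nonempty with e | e
    · obtain ⟨β, h1, -⟩ := (hA v ∅ (Finset.empty_subset _)).ne
      exact ⟨β, by rw [h1], by rw [h1, e]⟩
    · obtain ⟨γ, γ', -, -, h1, h2⟩ := desc hH hA e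
      obtain ⟨β, h3, h4⟩ := ih _ (hn ▸ h1) _ rfl
      exact ⟨β, h3.trans h2, h4⟩

theorem join (hA : ∀ v, ∀ τ ⊆ Dn v, Acy d fun j β => o j β = v ∧ τ ⊆ σ j β) {β γ : R 0}
    (e : o 0 γ = o 0 β) : ∃ w, mapDomain (uq (F 0)) (d 0 w) =
      single (uq (F 0) β) 1 - single (uq (F 0) γ) 1 := by
  obtain ⟨w, -, hw⟩ := (hA (o 0 β) ∅ (Finset.empty_subset _)).zero (single β 1 - single γ 1)
    ((On.single ⟨rfl, Finset.empty_subset _⟩ 1).sub (On.single ⟨e, Finset.empty_subset _⟩ 1))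
    (by simp)
  exact ⟨w, by rw [hw, mapDomain_sub, mapDomain_single, mapDomain_single]⟩

theorem join_base (hH : Ht o σ F ht Dn cp)
    (hA : ∀ v, ∀ τ ⊆ Dn v, Acy d fun j β => o j β = v ∧ τ ⊆ σ j β) {γ : R 0}
    (hγ : Dn (o 0 γ) = ∅) (β : R 0) (e : cp (o 0 γ) = cp (o 0 β)) :
    ∃ w, mapDomain (uq (F 0)) (d 0 w) = single (uq (F 0) β) 1 - single (uq (F 0) γ) 1 := by
  induction hn : ht (o 0 β) using Nat.strong_induction_on generalizing β with
  | _ n ih =>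
    rcases (Dn (o 0 β)).eq_empty_or_nonempty with e1 | e1
    · exact join hA (hH.base _ _ hγ e1 e)
    · obtain ⟨δ, δ', h1, h2, h3, h4⟩ := desc hH hA e1
      obtain ⟨w, hw⟩ := join (F := F) hA h1
      obtain ⟨w', hw'⟩ := ih _ (hn ▸ h3) δ' (e.trans h4.symm) rfl
      refine ⟨w + w', ?_⟩
      rw [map_add, mapDomain_add, hw, hw', h2, sub_add_sub_cancel]

end AlEx

theorem ex_stmt (h : RelStmt) : ExStmt := by
  intro V Hy Y R o σ F d ht Dn cp hR hH hA dU ε hdU hε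
  have hb : ∀ y : Y, ∃ β : R 0, cp (o 0 β) = y ∧ Dn (o 0 β) = ∅ := fun y => by
    obtain ⟨v, rfl⟩ := hH.surj y
    exact AlEx.exists_base hH hA v
  choose b b1 b2 using hb
  refine ⟨fun t => ⟨mapDomain (fun y => uq (F 0) (b y)) t, ?_⟩, fun c hc => ?_, fun k c hc => ?_⟩
  · exact LinearMap.congr_fun (f := ε ∘ₗ lmapDomain ℤ ℤ fun y => uq (F 0) (b y))
      (g := LinearMap.id) (ch_ext fun y => by
        rw [LinearMap.comp_apply, lmapDomain_apply, mapDomain_single, hε, b1]; rfl) t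
  · have key : ∀ c, ∃ x, dU 0 x = c - lmapDomain ℤ ℤ (fun y => uq (F 0) (b y)) (ε c) := by
      intro c
      induction c using ch_induction with
      | h0 => exact ⟨0, by simp⟩
      | hadd x y hx hy =>
        obtain ⟨x', hx⟩ := hx
        obtain ⟨y', hy⟩ := hy
        refine ⟨x' + y', ?_⟩
        rw [map_add, hx, hy, map_add, map_add]
        abel
      | hneg x hx =>
        obtain ⟨x', hx⟩ := hx
        refine ⟨-x', ?_⟩
        rw [map_neg, hx, map_neg, map_neg]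
        abel
      | h1 u =>
        obtain ⟨β, rfl⟩ := uq_surj _ u
        obtain ⟨w, hw⟩ := AlEx.join_base hH hA (b2 (cp (o 0 β))) β (b1 _)
        exact ⟨_, by rw [hdU, hw, hε, lmapDomain_apply, mapDomain_single]⟩
    obtain ⟨x, hx⟩ := key c
    exact ⟨x, by rw [hx, hc, map_zero, sub_zero]⟩
  · have key : ∀ (n : ℕ) (z : R (k + 1) →₀ ℤ), On (fun β => ht (o (k + 1) β) < n) z →
        mapDomain (uq (F k)) (d k z) = 0 → ∃ x, dU (k + 1) x = mapDomain (uq (F (k + 1))) z := by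
      intro n
      induction n with
      | zero =>
        intro z hz _
        exact ⟨0, by rw [AlEx.eq_zero hz fun β => Nat.not_lt_zero _, map_zero, mapDomain_zero]⟩
      | succ n ih =>
        intro z hz hd
        obtain ⟨w, y, h1, h2⟩ := AlEx.step h hR hH hA k n z hz hd
        have h3 := congrArg (dU k) h2
        rw [map_add, hdU, hdU, hdU, hd, hR.d_d, mapDomain_zero, zero_add] at h3
        obtain ⟨x, hx⟩ := ih y h1 h3.symm
        exact ⟨mapDomain (uq (F (k + 2))) w + x, by rw [map_add, hdU, hx, h2]⟩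
    obtain ⟨z, rfl⟩ := mapDomain_surjective (M := ℤ) (uq_surj (F (k + 1))) c
    refine key (z.support.sup (fun β => ht (o (k + 1) β)) + 1) z (fun β hβ => ?_) (by rw [← hdU, hc])
    exact Nat.lt_succ_of_le (Finset.le_sup (f := fun β => ht (o (k + 1) β)) hβ)

end Pool.Agent.MP_4f4d9f_gt.Cb

end

section

open scoped Matrix Pointwise

namespace Pool.Agent.MP_4f4d9f_gt.Cb

open Finsupp Db

namespace AlMir

open SemidirectProduct

variable {G V Hy : Type} [Group G] [MulAction G V] [MulAction G Hy] {T : SimpleGraph V}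
  {sep : V → V → Finset Hy} (W : Wl G sep)

/-- The semidirect product. -/
abbrev H : Type := RA (Cross sep) ⋊[raAut W.cross_smul] G

/-- The action on the Coxeter group. -/
@[reducible] def actW : MulAction (H W) (RA (Cross sep)) where
  smul x w := x.left * raAut W.cross_smul x.right w
  one_smul w := show 1 * raAut W.cross_smul 1 w = w by simp
  mul_smul x y w := show (x * y).left * raAut W.cross_smul (x * y).right w =
    x.left * raAut W.cross_smul x.right (y.left * raAut W.cross_smul y.right w) by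
      simp [mul_assoc]

include W in
theorem adj_smul (g : G) {v : V} {h : Hy} (e : Adj sep v h) : Adj sep (g • v) (g • h) := by
  obtain ⟨a, ha⟩ := e
  exact ⟨g • a, W.single_smul g ha⟩

theorem gen_mem {v : V} {h : Hy} (e : Adj sep v h) : gen (Cross sep) h ∈ Wv sep v :=
  Subgroup.subset_closure ⟨h, e, rfl⟩

theorem aut_mem (g : G) {v : V} {w : RA (Cross sep)} (hw : w ∈ Wv sep v) :
    raAut W.cross_smul g w ∈ Wv sep (g • v) :=
  par_induction (P := fun w => raAut W.cross_smul g w ∈ Wv sep (g • v)) (by simp)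
    (fun w _ s hs ih => by
      rw [map_mul, raAut_gen]
      exact mul_mem ih (gen_mem (adj_smul W g hs))) hw

/-- Vertices in the same component. -/
def rl (sep : V → V → Finset Hy) : Setoid (RA (Cross sep) × V) where
  r p q := p.2 = q.2 ∧ p.1⁻¹ * q.1 ∈ Wv sep p.2
  iseqv := ⟨fun p => ⟨rfl, by simp⟩, fun h => ⟨h.1.symm, by simpa [h.1] using inv_mem h.2⟩,
    fun h h' => ⟨h.1.trans h'.1, by
      have := mul_mem h.2 (h.1 ▸ h'.2)
      rwa [mul_assoc, mul_inv_cancel_left] at this⟩⟩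

/-- The components. -/
def Y (_ : Wl G sep) : Type := Quotient (rl sep)

/-- The component of a vertex. -/
def cl (p : RA (Cross sep) × V) : Y W := Quotient.mk (rl sep) p

theorem cl_eq {p q : RA (Cross sep) × V} :
    cl W p = cl W q ↔ p.2 = q.2 ∧ p.1⁻¹ * q.1 ∈ Wv sep p.2 :=
  Quotient.eq

instance : MulAction (H W) (Y W) where
  smul x := Quotient.map (fun p => (x.left * raAut W.cross_smul x.right p.1, x.right • p.2))
    fun p q e => ⟨congrArg (x.right • ·) e.1, by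
      simpa [mul_assoc] using aut_mem W x.right e.2⟩
  one_smul y := Quotient.inductionOn y fun p => congrArg (cl W)
    (Prod.ext ((actW W).one_smul p.1) (one_smul G p.2))
  mul_smul x x' y := Quotient.inductionOn y fun p => congrArg (cl W)
    (Prod.ext ((actW W).mul_smul x x' p.1) (mul_smul x.right x'.right p.2))

theorem smul_cl (x : H W) (p : RA (Cross sep) × V) :
    x • cl W p = cl W (x.left * raAut W.cross_smul x.right p.1, x.right • p.2) := rfl

theorem mem_stab {v : V} {x : H W} : x ∈ MulAction.stabilizer (H W) (cl W (1, v)) ↔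
    x.right • v = v ∧ x.left ∈ Wv sep v := by
  rw [MulAction.mem_stabilizer_iff, smul_cl, eq_comm, cl_eq]
  simp [eq_comm]

theorem adj_iff (hd : ∀ a b, (sep a b).card = T.dist a b) {a b : V} :
    T.Adj a b ↔ ∃ h, sep a b = {h} := by
  rw [← SimpleGraph.dist_eq_one_iff_adj, ← hd, Finset.card_eq_one]

include W in
theorem cross_of_square {v a b x : V} {h h' k k' : Hy} (hx : x ≠ v) (hne : h ≠ h')
    (ha : sep v a = {h}) (hb : sep v b = {h'}) (h1 : sep a x = {k}) (h2 : sep b x = {k'}) :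
    Cross sep h h' := by
  have e1 : ∀ m, m ∈ sep v x ↔ ¬ (m = h ↔ m = k) := fun m => by
    rw [W.tri v a x, ha, h1, Finset.mem_singleton, Finset.mem_singleton]
  have e2 : ∀ m, m ∈ sep v x ↔ ¬ (m = h' ↔ m = k') := fun m => by
    rw [W.tri v b x, hb, h2, Finset.mem_singleton, Finset.mem_singleton]
  obtain ⟨m, hm⟩ : (sep v x).Nonempty :=
    Finset.nonempty_iff_ne_empty.2 fun e => hx (W.inj v x e).symm
  have f1 := (e1 m).1 hm
  have f2 := (e2 m).1 hm
  have f3 := (e1 h).symm.trans (e2 h)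
  have f4 := (e1 h').symm.trans (e2 h')
  have g1 : k = h' := by grind
  have g2 : k' = h := by grind
  exact ⟨hne, v, a, b, x, ha, hb, g1 ▸ h1, g2 ▸ h2⟩

theorem refl (hd : ∀ a b, (sep a b).card = T.dist a b) (v : V) :
    ∃ Φ : ReflC G T v →* H W, Function.Injective Φ ∧
      Φ.range = MulAction.stabilizer (H W) (cl W (1, v)) := by
  classical
  choose hy hhy using fun a : T.neighborSet v => (adj_iff hd).1 a.2
  have hex : ∀ h, Adj sep v h → ∃ a : T.neighborSet v, sep v a.1 = {h} := fun h ⟨a, ha⟩ =>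
    ⟨⟨a, (adj_iff hd).2 ⟨h, ha⟩⟩, ha⟩
  choose nb hnb using hex
  have uniq : ∀ a a' : T.neighborSet v, sep v a.1 = sep v a'.1 → a = a' := fun a a' e =>
    Subtype.ext (W.ext e)
  have d1 : ∀ a, Adj sep v (hy a) := fun a => ⟨a.1, hhy a⟩
  have d2 : ∀ a, nb (hy a) (d1 a) = a := fun a => uniq _ _ ((hnb _ _).trans (hhy a).symm)
  have d3 : ∀ h hh, hy (nb h hh) = h := fun h hh =>
    Finset.singleton_injective ((hhy _).symm.trans (hnb h hh))
  let Φ : ReflC G T v →* H W := PresentedGroup.toGroup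
    (f := Sum.elim (fun a => inr a.1) fun w => inl (gen (Cross sep) (hy w))) (by
      rintro _ (⟨a, b, rfl⟩ | ⟨w, rfl⟩ | ⟨a, w, w', e, rfl⟩ | ⟨w, w', ⟨x, hx, h1, h2⟩, rfl⟩)
      · simp
      · simpa using congrArg (inl : RA (Cross sep) →* H W) (gen_sq (hy w))
      · have : a.1 • hy w = hy w' := by
          have := W.single_smul a.1 (hhy w)
          rw [show a.1 • v = v from a.2, e, hhy w'] at this
          exact (Finset.singleton_injective this).symm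
        refine SemidirectProduct.ext ?_ (by simp)
        simp [this]
      · have : Commute (gen (Cross sep) (hy w)) (gen (Cross sep) (hy w')) := by
          by_cases e : hy w = hy w'
          · rw [e]
          · obtain ⟨k, hk⟩ := (adj_iff hd).1 h1
            obtain ⟨k', hk'⟩ := (adj_iff hd).1 h2
            exact gen_comm (cross_of_square W hx e (hhy w) (hhy w') hk hk')
        have := (this.map (inl : RA (Cross sep) →* H W)).eq
        simp only [map_mul, map_inv, FreeGroup.lift_apply_of, Sum.elim_inr]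
        rw [this, mul_inv_cancel_right, mul_inv_cancel])
  have p1 : ∀ a, Φ (.of (.inl a)) = inr a.1 := fun a => PresentedGroup.toGroup.of _
  have p2 : ∀ w, Φ (.of (.inr w)) = inl (gen (Cross sep) (hy w)) := fun w =>
    PresentedGroup.toGroup.of _
  have hm : ∀ r, Φ r ∈ MulAction.stabilizer (H W) (cl W (1, v)) :=
    PresentedGroup.generated_by _ ((MulAction.stabilizer _ _).comap Φ) (by
      rintro (a | w) <;> rw [Subgroup.mem_comap, mem_stab]
      · rw [p1]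
        exact ⟨a.2, one_mem _⟩
      · rw [p2]
        exact ⟨one_smul _ _, gen_mem (d1 w)⟩)
  let al : MulAction.stabilizer G v →* ReflC G T v := MonoidHom.mk' (fun a => .of (.inl a))
    fun a b => (mul_inv_eq_one.1 (PresentedGroup.one_of_mem (Or.inl ⟨a, b, rfl⟩))).symm
  let Ψ : RA (Cross sep) →* ReflC G T v :=
    RA.lift (fun h => if hh : Adj sep v h then .of (.inr (nb h hh)) else 1)
      (fun h => by
        split_ifs with hh
        · exact PresentedGroup.one_of_mem (Or.inr (Or.inl ⟨_, rfl⟩))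
        · exact mul_one _)
      fun s t hst => by
        split_ifs with hs ht
        · obtain ⟨x, h1, h2⟩ := W.square hst (hnb s hs) (hnb t ht)
          have hx : x ≠ v := fun e => hst.1 (Finset.singleton_injective (by
            rw [← hnb s hs, ← h1, e, W.symm]))
          exact commutatorElement_eq_one_iff_commute.1 (PresentedGroup.one_of_mem
            (Or.inr (Or.inr (Or.inr ⟨nb s hs, nb t ht,
              ⟨x, hx, (adj_iff hd).2 ⟨_, h1⟩, (adj_iff hd).2 ⟨_, h2⟩⟩, rfl⟩))))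
        · exact Commute.one_right _
        · exact Commute.one_left _
        · exact Commute.one_left _
  have q1 : ∀ (a : MulAction.stabilizer G v) w,
      Ψ (raAut W.cross_smul a.1 w) = al a * Ψ w * (al a)⁻¹ := fun a =>
    DFunLike.congr_fun (RA.hom_ext (f := Ψ.comp (raAut W.cross_smul a.1).toMonoidHom)
      (g := (MulAut.conj (al a)).toMonoidHom.comp Ψ) fun h => by
      show Ψ (raAut W.cross_smul a.1 (gen _ h)) = al a * Ψ (gen _ h) * (al a)⁻¹
      have ha : a.1 • v = v := a.2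
      rw [raAut_gen, RA.lift_gen, RA.lift_gen]
      have e : Adj sep v (a.1 • h) ↔ Adj sep v h :=
        ⟨fun e => by
          have := adj_smul W a.1⁻¹ e
          rwa [inv_smul_smul, inv_smul_eq_iff.2 ha.symm] at this,
        fun e => by
          have := adj_smul W a.1 e
          rwa [ha] at this⟩
      by_cases hh : Adj sep v h
      · rw [dif_pos hh, dif_pos (e.2 hh)]
        refine (mul_inv_eq_one.1 (PresentedGroup.one_of_mem (Or.inr (Or.inr (Or.inl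
          ⟨a, nb h hh, nb _ (e.2 hh), W.ext (v := v) ?_, rfl⟩))))).symm
        have := W.single_smul a.1 (hnb h hh)
        rw [ha] at this
        rw [this, hnb]
      · rw [dif_neg hh, dif_neg fun h' => hh (e.1 h'), mul_one, mul_inv_cancel])
  let Λ : MulAction.stabilizer (H W) (cl W (1, v)) →* ReflC G T v := MonoidHom.mk'
    (fun h => Ψ h.1.left * al ⟨h.1.right, ((mem_stab W).1 h.2).1⟩) fun h k => by
      have := q1 ⟨h.1.right, ((mem_stab W).1 h.2).1⟩ k.1.left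
      rw [eq_mul_inv_iff_mul_eq] at this
      rw [mul_assoc, ← mul_assoc (al _), ← this, mul_assoc, ← map_mul, ← mul_assoc, ← map_mul]
      rfl
  have q2 : Λ.comp (Φ.codRestrict _ hm) = MonoidHom.id _ := PresentedGroup.ext (by
    rintro (a | w)
    · show Ψ (Φ (.of (.inl a))).left * al ⟨(Φ (.of (.inl a))).right, _⟩ = _
      simp only [p1, left_inr, right_inr, map_one, one_mul]
      rfl
    · show Ψ (Φ (.of (.inr w))).left * al ⟨(Φ (.of (.inr w))).right, _⟩ = _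
      simp only [p2, left_inl, right_inl]
      rw [show (⟨1, _⟩ : MulAction.stabilizer G v) = 1 from rfl, map_one, mul_one, RA.lift_gen,
        dif_pos (d1 w), d2]
      rfl)
  refine ⟨Φ, (injective_iff_map_eq_one Φ).2 fun r hr => ?_, le_antisymm ?_ fun h hh => ?_⟩
  · have := DFunLike.congr_fun q2 r
    rw [MonoidHom.comp_apply, show Φ.codRestrict _ hm r = 1 from Subtype.ext hr, map_one] at this
    exact this.symm
  · rintro _ ⟨r, rfl⟩
    exact hm r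
  · obtain ⟨h1, h2⟩ := (mem_stab W).1 hh
    rw [← inl_left_mul_inr_right h]
    refine mul_mem (par_induction (P := fun w => (inl w : H W) ∈ Φ.range) (by simp)
      (fun w _ x hx ih => ?_) h2) ⟨_, p1 ⟨_, h1⟩⟩
    rw [map_mul]
    exact mul_mem ih ⟨_, (p2 (nb x hx)).trans (by rw [d3 x hx])⟩

end AlMir

open AlMir SemidirectProduct in
theorem mir_stmt : MirStmt := by
  intro G V Hy _ _ _ T sep W hd
  refine ⟨H W, Y W, inferInstance, rightHom, actW W, inferInstance, cl W, fun x w h => ?_,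
    ⟨fun x y e => ?_, fun p => ⟨⟨p.1, p.2⟩, Prod.ext ?_ rfl⟩⟩, fun x w e1 e2 => ?_,
    Quotient.mk_surjective, fun _ _ => cl_eq W, fun _ _ _ => rfl, fun y => ?_⟩
  · show x.left * raAut W.cross_smul x.right (w * gen _ h) =
      x.left * raAut W.cross_smul x.right w * gen _ (x.right • h)
    rw [map_mul, raAut_gen, mul_assoc]
  · have e1 : x.left * raAut W.cross_smul x.right 1 = y.left * raAut W.cross_smul y.right 1 :=
      congrArg Prod.fst e
    rw [map_one, map_one, mul_one, mul_one] at e1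
    exact SemidirectProduct.ext e1 (congrArg Prod.snd e)
  · show p.1 * raAut W.cross_smul p.2 1 = p.1
    rw [map_one, mul_one]
  · have e3 : x.right = 1 := e2
    have e4 : x.left * raAut W.cross_smul x.right w = w := e1
    rw [e3, map_one, MulAut.one_apply, mul_eq_right] at e4
    exact SemidirectProduct.ext e4 e3
  · obtain ⟨⟨w, v⟩, rfl⟩ : ∃ p, cl W p = y := Quotient.mk_surjective y
    obtain ⟨Φ, h1, h2⟩ := AlMir.refl W hd v
    refine ⟨v, (MulAut.conj (inl w : H W)).toMonoidHom.comp Φ,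
      (MulAut.conj _).injective.comp h1, ?_⟩
    rw [MonoidHom.range_comp, h2, ← MulAction.stabilizer_smul_eq_stabilizer_map_conj, smul_cl]
    simp

end Pool.Agent.MP_4f4d9f_gt.Cb

end

section

open scoped Matrix Pointwise

namespace Pool.Agent.MP_4f4d9f_gt.Cb

open Finsupp Db

namespace AlPos

theorem acy_congr {B : ℕ → Type} {d : ∀ j, (B (j + 1) →₀ ℤ) →ₗ[ℤ] (B j →₀ ℤ)}
    {p p' : ∀ j, B j → Prop} (h : Acy d p) (e : ∀ j β, p j β ↔ p' j β) : Acy d p' := by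
  have : p = p' := funext fun j => funext fun β => propext (e j β)
  exact this ▸ h

theorem ex_inl {B N : Type} {p : B → Prop} {p' : B ⊕ N → Prop} (h1 : ∀ β, p' (.inl β) → p β)
    (h2 : ∀ ν, ¬ p' (.inr ν)) {z : B ⊕ N →₀ ℤ} (hz : On p' z) :
    ∃ z₀ : B →₀ ℤ, On p z₀ ∧ mapDomain Sum.inl z₀ = z := by
  refine ⟨comapDomain Sum.inl z Sum.inl_injective.injOn, fun β hβ => h1 β (hz _ ?_),
    mapDomain_comapDomain Sum.inl Sum.inl_injective z ?_⟩
  · rw [mem_support_iff] at hβ ⊢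
    exact hβ
  · rintro (β | ν) hx
    · exact ⟨β, rfl⟩
    · exact absurd (hz _ hx) (h2 ν)

theorem acy_inl {B N : ℕ → Type} {d : ∀ j, (B (j + 1) →₀ ℤ) →ₗ[ℤ] (B j →₀ ℤ)}
    {d' : ∀ j, (B (j + 1) ⊕ N (j + 1) →₀ ℤ) →ₗ[ℤ] (B j ⊕ N j →₀ ℤ)}
    (hd : ∀ j c, d' j (mapDomain .inl c) = mapDomain .inl (d j c))
    {p : ∀ j, B j → Prop} {p' : ∀ j, B j ⊕ N j → Prop} (h : Acy d p)
    (h1 : ∀ j β, p' j (.inl β) ↔ p j β) (h2 : ∀ j ν, ¬ p' j (.inr ν)) :
    Acy (B := fun j => B j ⊕ N j) d' p' := by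
  refine ⟨?_, fun z hz e => ?_, fun j z hz e => ?_⟩
  · obtain ⟨β, hβ⟩ := h.ne
    exact ⟨.inl β, (h1 0 β).2 hβ⟩
  · obtain ⟨z₀, a, rfl⟩ := ex_inl (fun β => (h1 0 β).1) (h2 0) hz
    rw [sm_mapDomain] at e
    obtain ⟨w, b, rfl⟩ := h.zero z₀ a e
    exact ⟨mapDomain .inl w, b.mapDomain fun β => (h1 1 β).2, hd 0 w⟩
  · obtain ⟨z₀, a, rfl⟩ := ex_inl (fun β => (h1 (j + 1) β).1) (h2 (j + 1)) hz
    rw [hd] at e
    have e' : d j z₀ = 0 :=
      mapDomain_injective Sum.inl_injective (e.trans mapDomain_zero.symm)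
    obtain ⟨w, b, rfl⟩ := h.succ j z₀ a e'
    exact ⟨mapDomain .inl w, b.mapDomain fun β => (h1 (j + 2) β).2, hd (j + 1) w⟩

theorem cofin_sum {G B N : Type} [Group G] [MulAction G B] [MulAction G N] (h : Cofin G B)
    (h' : Cofin G N) : Cofin G (B ⊕ N) := by
  obtain ⟨S, hS⟩ := h
  obtain ⟨S', hS'⟩ := h'
  refine ⟨S.disjSum S', ?_⟩
  rintro (β | ν)
  · obtain ⟨g, hg⟩ := hS β
    exact ⟨g, by rw [Sum.smul_inl]; exact Finset.inl_mem_disjSum.2 hg⟩
  · obtain ⟨g, hg⟩ := hS' ν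
    exact ⟨g, by rw [Sum.smul_inr]; exact Finset.inr_mem_disjSum.2 hg⟩

/-- The complex has been built for all labels of rank at least `t`. -/
def St (G : Type) {P : Type} [Group G] [MulAction G P] [PartialOrder P] (ρ : P → ℕ)
    (m t : ℕ) : Prop :=
  ∃ (B : ℕ → Type) (_ : ∀ j, MulAction G (B j)) (lab : ∀ j, B j → P)
    (d : ∀ j, (B (j + 1) →₀ ℤ) →ₗ[ℤ] (B j →₀ ℤ)),
    Cx G d ∧ (∀ j ≤ m, Cofin G (B j)) ∧ (∀ j (g : G) β, lab j (g • β) = g • lab j β) ∧
    (∀ j β, On (fun γ => lab (j + 1) β ≤ lab j γ) (d j (single β 1))) ∧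
    (∀ j β, t ≤ ρ (lab j β)) ∧ ∀ c, t ≤ ρ c → Acy d fun j β => c ≤ lab j β

variable {G P : Type} [Group G] [MulAction G P] [PartialOrder P] {ρ : P → ℕ} {m : ℕ}

theorem st_top {D : ℕ} (hD : ∀ c, ρ c ≤ D) : St G ρ m (D + 1) := by
  let act : MulAction G Empty :=
    { smul := fun _ x => x, one_smul := fun _ => rfl, mul_smul := fun _ _ _ => rfl }
  refine ⟨fun _ => Empty, fun _ => act, fun _ x => x.elim, fun _ => 0,
    ⟨fun j g c => ?_, fun j c => rfl, fun c => ?_, fun j g β => β.elim⟩,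
    fun j _ => ⟨∅, fun y => y.elim⟩, fun j g β => β.elim, fun j β => β.elim,
    fun j β => β.elim, fun c hc => ?_⟩
  · rw [LinearMap.zero_apply, LinearMap.zero_apply, map_zero]
  · rw [LinearMap.zero_apply, map_zero]
  · have := hD c
    omega

theorem st_step (h : CylStmt) (hle : ∀ (g : G) (c c' : P), c ≤ c' → g • c ≤ g • c')
    (hρ : ∀ (g : G) c, ρ (g • c) = ρ c) (hs : StrictMono ρ) (hf : ∀ c : P, (Set.Iic c).Finite)
    (hP : Cofin G P) (hFP : ∀ c : P, FP (MulAction.stabilizer G c) m) {t : ℕ}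
    (H : St G ρ m (t + 1)) : St G ρ m t := by
  classical
  obtain ⟨B, act, lab, d, hC, hco, he, hm, ht, hA⟩ := H
  let Y : SubMulAction G P :=
    { carrier := {c | ρ c = t}, smul_mem' := fun g c (hc : ρ c = t) => (hρ g c).trans hc }
  have hY : ∀ y : Y, ρ y.1 = t := fun y => y.2
  have hYc : Cofin G Y := by
    obtain ⟨S, hS⟩ := hP
    refine ⟨S.preimage Subtype.val Subtype.val_injective.injOn, fun y => ?_⟩
    obtain ⟨g, hg⟩ := hS y.1
    exact ⟨g, Finset.mem_preimage.2 hg⟩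
  obtain ⟨N, actN, l, d', hC', hco', hl, hd, hon, hA'⟩ := h G Y m hYc
    (fun y => by rw [SubMulAction.stabilizer_of_subMul]; exact hFP _) B d hC hco
    (fun j y β => y.1 ≤ lab j β)
    (fun j g y β e => by rw [he]; exact hle g _ _ e)
    (fun j y β e => (hm j β).mono fun γ e' => e.trans e')
    (fun j β => (hf (lab j β)).preimage Subtype.val_injective.injOn)
  refine ⟨fun j => B j ⊕ N j, fun j => inferInstance,
    fun j => Sum.elim (lab j) fun ν => (l j ν).1, d', hC',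
    fun j hj => cofin_sum (hco j hj) (hco' j hj), ?_, ?_, ?_, fun c hc => ?_⟩
  · rintro j g (β | ν)
    · exact he j g β
    · exact congrArg Subtype.val (hl j g ν)
  · rintro j (β | ν)
    · have e := hd j (single β 1)
      rw [mapDomain_single] at e
      rw [e]
      exact (hm j β).mapDomain fun γ e' => e'
    · refine (hon j ν).mono ?_
      rintro (γ | ν') e
      · exact e
      · exact (congrArg Subtype.val e).ge
  · rintro j (β | ν)
    · exact (Nat.le_succ t).trans (ht j β)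
    · exact (hY _).ge
  · rcases hc.eq_or_lt with e | e
    · refine acy_congr (hA' ⟨c, e.symm⟩) ?_
      rintro j (β | ν)
      · exact Iff.rfl
      · refine ⟨fun e' => (congrArg Subtype.val e').ge, fun e' => Subtype.ext ?_⟩
        refine (eq_of_le_of_not_lt e' fun e'' => ?_).symm
        have h1 : ρ c < ρ (l j ν).1 := hs e''
        have := hY (l j ν)
        omega
    · refine acy_inl hd (hA c e) (fun j β => Iff.rfl) fun j ν e' => ?_
      have h1 : ρ c ≤ ρ (l j ν).1 := hs.monotone e'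
      have := hY (l j ν)
      omega

end AlPos

theorem pos_stmt (h : CylStmt) : PosStmt := by
  intro G P _ _ _ ρ D m hle hρ hs hD hf hP hFP
  have key : ∀ n t, t + n = D + 1 → AlPos.St G ρ m t := by
    intro n
    induction n with
    | zero =>
      intro t e
      obtain rfl : t = D + 1 := e
      exact AlPos.st_top hD
    | succ n ih =>
      intro t e
      exact AlPos.st_step h hle hρ hs hf hP hFP (ih (t + 1) (by omega))
  obtain ⟨B, act, lab, d, h1, h2, h3, h4, -, h5⟩ := key (D + 1) 0 (Nat.zero_add _)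
  exact ⟨B, act, lab, d, h1, h2, h3, h4, fun c => h5 c (Nat.zero_le _)⟩

end Pool.Agent.MP_4f4d9f_gt.Cb

end

section

open scoped Matrix Pointwise

namespace Pool.Agent.MP_4f4d9f_gt.Cb

open Finsupp Db

namespace AlRel

variable {B : ℕ → Type} {d : ∀ j, (B (j + 1) →₀ ℤ) →ₗ[ℤ] (B j →₀ ℤ)} {p p' : ∀ j, B j → Prop}

theorem bd (hd : ∀ j c, d j (d (j + 1) c) = 0) (hε : ∀ c, sm _ (d 0 c) = 0) (h : Acy d p)
    (j : ℕ) (z : B (j + 1) →₀ ℤ) (hz : On (p j) (d j z)) :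
    ∃ y, On (p (j + 1)) y ∧ d j y = d j z := by
  cases j with
  | zero => exact h.zero _ hz (hε z)
  | succ j => exact h.succ j _ hz (hd j z)

theorem pt (h : Acy d p) {β : B 0} (hβ : p 0 β) {z : B 0 →₀ ℤ} (hz : On (p 0) z) :
    ∃ w, On (p 1) w ∧ d 0 w = z - single β (sm _ z) :=
  h.zero _ (hz.sub (On.single hβ _)) (by rw [map_sub, sm_single, sub_self])

theorem split {X : Type} {q q' : X → Prop} {z : X →₀ ℤ} (hz : On (fun β => q β ∨ q' β) z) :
    ∃ x x', On q x ∧ On q' x' ∧ x + x' = z :=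
  ⟨_, _, on_flt q z, fun β hβ =>
    (hz.flt _ β hβ).resolve_left (on_flt (fun β => ¬ q β) z β hβ), flt_add_flt q z⟩

theorem congr (h : Acy d p) (e : ∀ j β, p' j β ↔ p j β) : Acy d p' := by
  rwa [show p' = p from funext fun j => funext fun β => propext (e j β)]

theorem mv (hd : ∀ j c, d j (d (j + 1) c) = 0) (hε : ∀ c, sm _ (d 0 c) = 0)
    (c : ∀ j β, p (j + 1) β → On (p j) (d j (single β 1)))
    (c' : ∀ j β, p' (j + 1) β → On (p' j) (d j (single β 1)))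
    (h : Acy d p) (h' : Acy d p') (h'' : Acy d fun j β => p j β ∧ p' j β) :
    Acy d fun j β => p j β ∨ p' j β := by
  obtain ⟨β, hβ, hβ'⟩ := h''.ne
  refine ⟨⟨β, .inl hβ⟩, fun z hz h0 => ?_, fun j z hz h0 => ?_⟩
  · obtain ⟨x, x', hx, hx', rfl⟩ := split hz
    obtain ⟨w, hw, e⟩ := pt h hβ hx
    obtain ⟨w', hw', e'⟩ := pt h' hβ' hx'
    refine ⟨w + w', (hw.mono fun _ => .inl).add (hw'.mono fun _ => .inr), ?_⟩
    rw [map_add, e, e', sub_add_sub_comm, ← single_add, ← map_add, h0, single_zero, sub_zero]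
  · obtain ⟨x, x', hx, hx', rfl⟩ := split hz
    have e0 : d j x = -d j x' := by rwa [map_add, add_eq_zero_iff_eq_neg] at h0
    obtain ⟨y, hy, e⟩ := bd hd hε h'' j x fun γ hγ =>
      ⟨hx.map (c j) γ hγ, (hx'.map (c' j)).neg γ (e0 ▸ hγ)⟩
    obtain ⟨w, hw, e1⟩ := h.succ j (x - y) (hx.sub (hy.mono fun _ => And.left))
      (by rw [map_sub, e, sub_self])
    obtain ⟨w', hw', e2⟩ := h'.succ j (x' + y) (hx'.add (hy.mono fun _ => And.right))
      (by rw [map_add, e, e0, add_neg_cancel])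
    refine ⟨w + w', (hw.mono fun _ => .inl).add (hw'.mono fun _ => .inr), ?_⟩
    rw [map_add, e1, e2]
    abel

theorem meets {Hy : Type} {σ : ∀ j, B j → Finset Hy}
    (hd : ∀ j c, d j (d (j + 1) c) = 0) (hε : ∀ c, sm _ (d 0 c) = 0)
    (c : ∀ j β, p (j + 1) β → On (p j) (d j (single β 1)))
    (m : ∀ j β, On (fun γ => σ (j + 1) β ⊆ σ j γ) (d j (single β 1))) {T₀ : Finset Hy}
    (h : ∀ τ ⊆ T₀, Acy d fun j β => p j β ∧ τ ⊆ σ j β) {T : Finset Hy} (hT : T.Nonempty) :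
    T ⊆ T₀ → ∀ S ⊆ T₀, Acy d fun j β => (p j β ∧ S ⊆ σ j β) ∧ ∃ a ∈ T, a ∈ σ j β := by
  classical
  induction hT using Finset.Nonempty.cons_induction with
  | singleton a =>
    intro hT S hS
    refine congr (h (insert a S) (Finset.insert_subset (hT (by simp)) hS)) fun j β => ?_
    simp only [Finset.mem_singleton, exists_eq_left, Finset.insert_subset_iff]
    tauto
  | cons a T ha hT ih =>
    intro hT S hS
    obtain ⟨h1, h2⟩ := Finset.cons_subset.1 hT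
    have h3 := Finset.insert_subset h1 hS
    refine congr (mv hd hε (fun j β hβ γ hγ => ⟨c j β hβ.1 γ hγ, hβ.2.trans (m j β γ hγ)⟩)
      (fun j β hβ γ hγ => ⟨⟨c j β hβ.1.1 γ hγ, hβ.1.2.trans (m j β γ hγ)⟩,
        hβ.2.imp fun _ hb => ⟨hb.1, m j β γ hγ hb.2⟩⟩)
      (h _ h3) (ih h2 S hS) (congr (ih h2 _ h3) fun j β => ?_)) fun j β => ?_
    · simp only [Finset.insert_subset_iff]
      tauto
    · simp only [Finset.insert_subset_iff, Finset.mem_cons, exists_eq_or_imp]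
      tauto

end AlRel

theorem rel_stmt : RelStmt := by
  intro Hy R p σ d c m hd hε T hT h
  have h0 : Acy d p := AlRel.congr (h ∅ (Finset.empty_subset T)) fun j β => by simp
  have h1 : Acy d fun j β => p j β ∧ ∃ a ∈ T, a ∈ σ j β :=
    AlRel.congr (AlRel.meets hd hε c m h hT subset_rfl ∅ (Finset.empty_subset T)) fun j β => by
      simp
  refine ⟨fun z hz => ?_, fun j z hz hz' => ?_⟩
  · obtain ⟨β, hβ⟩ := h1.ne
    obtain ⟨w, hw, e⟩ := AlRel.pt h0 hβ.1 hz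
    refine ⟨w, hw, ?_⟩
    rw [e, sub_sub_cancel_left]
    exact On.neg (On.single (β := β) hβ _)
  · obtain ⟨y, hy, e⟩ := AlRel.bd hd hε h1 j z fun γ hγ => ⟨hz.map (c j) γ hγ, hz' γ hγ⟩
    obtain ⟨w, hw, e1⟩ := h0.succ j (z - y) (hz.sub (hy.mono fun _ => And.left))
      (by rw [map_sub, e, sub_self])
    refine ⟨w, hw, ?_⟩
    rw [e1, sub_sub_cancel_left]
    exact hy.neg

end Pool.Agent.MP_4f4d9f_gt.Cb

end

section

open scoped Matrix Pointwise

namespace Pool.Agent.MP_4f4d9f_gt.Cb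

open Finsupp Db

namespace AlRes

variable {H M : Type} [Group H] [AddCommGroup M] {ρM : Representation ℤ H M} {n : ℕ}
  {C D : ℕ → Type} [∀ k, AddCommGroup (C k)] [∀ k, AddCommGroup (D k)]
  {ρ : ∀ k, Representation ℤ H (C k)} {d : ∀ k, C (k + 1) →ₗ[ℤ] C k} {ε : C 0 →ₗ[ℤ] M}
  {ρ' : ∀ k, Representation ℤ H (D k)} {d' : ∀ k, D (k + 1) →ₗ[ℤ] D k} {ε' : D 0 →ₗ[ℤ] M}

/-- Existence of a chain map up to the factor `n`. -/
theorem exists_map (R : IsResN n ρ d ρM ε) (R' : IsResN n ρ' d' ρM ε') :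
    ∃ f : ∀ k, C k →ₗ[ℤ] D k, (∀ k, Eqv (ρ k) (ρ' k) (f k)) ∧ (∀ c, ε' (f 0 c) = n • ε c) ∧
      ∀ k c, d' k (f (k + 1) c) = n • f k (d k c) := by
  obtain ⟨f0, hf0, hf0'⟩ := R.proj 0 (D 0) M (ρ' 0) ρM ε' ε R'.eqv_ε R.eqv_ε fun c => R'.surj _
  let T (k : ℕ) : Type := {f : C k →ₗ[ℤ] D k // Eqv (ρ k) (ρ' k) f ∧
    ∀ c, ∃ x, d' k x = f (d k c)}
  have step : ∀ k (f : T k), ∃ f' : T (k + 1), ∀ c, d' k (f'.1 c) = n • f.1 (d k c) := by
    intro k f
    obtain ⟨ψ, h1, h2⟩ := R.proj (k + 1) (D (k + 1)) (D k) (ρ' (k + 1)) (ρ' k) (d' k)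
      (f.1 ∘ₗ d k) (R'.eqv_d k) (f.2.1.comp (R.eqv_d k)) f.2.2
    refine ⟨⟨ψ, h1, fun c => R'.exact_succ k _ ?_⟩, h2⟩
    rw [h2, LinearMap.comp_apply, R.d_d, map_zero, smul_zero]
  choose next hnext using step
  let t0 : T 0 := ⟨f0, hf0, fun c => R'.exact_zero _ (by rw [hf0', R.ε_d, smul_zero])⟩
  let t : ∀ k, T k := fun k => Nat.rec t0 next k
  exact ⟨fun k => (t k).1, fun k => (t k).2.1, hf0', fun k => hnext k (t k)⟩

/-- Existence of a homotopy up to powers of `n`. -/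
theorem exists_homotopy (R : IsResN n ρ d ρM ε) (u : ∀ k, C k →ₗ[ℤ] C k)
    (hu : ∀ k, Eqv (ρ k) (ρ k) (u k)) (hu0 : ∀ c, ε (u 0 c) = 0)
    (hud : ∀ k c, d k (u (k + 1) c) = n ^ 2 • u k (d k c)) :
    ∃ h : ∀ k, C k →ₗ[ℤ] C (k + 1), (∀ k, Eqv (ρ k) (ρ (k + 1)) (h k)) ∧
      ∀ k c, d (k + 1) (h (k + 1) c) + n ^ 3 • h k (d k c) = n ^ (k + 2) • u (k + 1) c := by
  obtain ⟨h0, hh0, hh0'⟩ := R.proj 0 (C 1) (C 0) (ρ 1) (ρ 0) (d 0) (u 0) (R.eqv_d 0) (hu 0)
    fun c => R.exact_zero _ (hu0 c)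
  let T (k : ℕ) : Type := {h : C k →ₗ[ℤ] C (k + 1) // Eqv (ρ k) (ρ (k + 1)) h ∧
    ∀ c, d k (h (d k c)) = n ^ (k + 1) • u k (d k c)}
  have step : ∀ k (h : T k), ∃ h' : T (k + 1),
      ∀ c, d (k + 1) (h'.1 c) + n ^ 3 • h.1 (d k c) = n ^ (k + 2) • u (k + 1) c := by
    intro k h
    obtain ⟨ψ, h1, h2⟩ := R.proj (k + 1) (C (k + 2)) (C (k + 1)) (ρ (k + 2)) (ρ (k + 1))
      (d (k + 1)) (n ^ (k + 1) • u (k + 1) - n ^ 2 • h.1 ∘ₗ d k) (R.eqv_d _)
      ((Res2.eqv_nsmul _ (hu _)).sub (Res2.eqv_nsmul _ (h.2.1.comp (R.eqv_d k))))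
      fun c => R.exact_succ k _ (by
        simp only [LinearMap.sub_apply, LinearMap.smul_apply, LinearMap.comp_apply, map_sub,
          map_nsmul, hud, h.2.2]
        module)
    have h3 : ∀ c, d (k + 1) (ψ c) + n ^ 3 • h.1 (d k c) = n ^ (k + 2) • u (k + 1) c :=
      fun c => by
        simp only [h2, LinearMap.sub_apply, LinearMap.smul_apply, LinearMap.comp_apply]
        module
    refine ⟨⟨ψ, h1, fun c => ?_⟩, h3⟩
    rw [← h3, R.d_d, map_zero, smul_zero, add_zero]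
  choose next hnext using step
  let t0 : T 0 := ⟨h0, hh0, fun c => by rw [hh0', pow_succ, pow_zero, one_mul]⟩
  let t : ∀ k, T k := fun k => Nat.rec t0 next k
  exact ⟨fun k => (t k).1, fun k => (t k).2.1, fun k => hnext k (t k)⟩

end AlRes

theorem resN_stmt : ResNStmt := by
  intro H N M _ _ _ ι n h2 ρM C C' _ _ ρ d ε ρ' d' ε' R R' k h
  obtain ⟨f, hf, hf0, hfd⟩ := AlRes.exists_map R R'
  obtain ⟨g, hg, hg0, hgd⟩ := AlRes.exists_map R' R
  obtain ⟨t, ht, htd⟩ := AlRes.exists_homotopy R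
    (fun k => (n ^ 2) ^ (k + 1) • LinearMap.id - g k ∘ₗ f k)
    (fun k => (Res2.eqv_nsmul _ Eqv.id).sub ((hg k).comp (hf k)))
    (fun c => by
      simp only [LinearMap.sub_apply, LinearMap.smul_apply, LinearMap.comp_apply, map_sub,
        map_nsmul, hg0, hf0, LinearMap.id_apply]
      module)
    (fun k c => by
      simp only [LinearMap.sub_apply, LinearMap.smul_apply, LinearMap.comp_apply, map_sub,
        map_nsmul, hgd, hfd, LinearMap.id_apply]
      module)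
  intro z hz
  have e1 : Tens.map ι (d' k) (R'.eqv_d k) ∘ₗ Tens.map ι (f (k + 1)) (hf _) =
      n • Tens.map ι (f k) (hf k) ∘ₗ Tens.map ι (d k) (R.eqv_d k) :=
    Tens.hom_ext ι fun c => by
      simp only [LinearMap.comp_apply, LinearMap.smul_apply, Tens.map_of, hfd, map_nsmul]
  have e2 : Tens.map ι (d (k + 1)) (R.eqv_d _) ∘ₗ Tens.map ι (g (k + 2)) (hg _) =
      n • Tens.map ι (g (k + 1)) (hg _) ∘ₗ Tens.map ι (d' (k + 1)) (R'.eqv_d _) :=
    Tens.hom_ext ι fun c => by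
      simp only [LinearMap.comp_apply, LinearMap.smul_apply, Tens.map_of, hgd, map_nsmul]
  have e3 : Tens.map ι (d (k + 1)) (R.eqv_d _) ∘ₗ Tens.map ι (t (k + 1)) (ht _) +
      n ^ 3 • Tens.map ι (t k) (ht _) ∘ₗ Tens.map ι (d k) (R.eqv_d _) =
      n ^ (k + 2) • ((n ^ 2) ^ (k + 2) • LinearMap.id -
        Tens.map ι (g (k + 1)) (hg _) ∘ₗ Tens.map ι (f (k + 1)) (hf _)) :=
    Tens.hom_ext ι fun c => by
      have := congrArg (Tens.of ι (ρ (k + 1))) (htd k c)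
      simpa only [LinearMap.comp_apply, LinearMap.add_apply, LinearMap.sub_apply,
        LinearMap.smul_apply, Tens.map_of, map_add, map_sub, map_nsmul, LinearMap.id_apply]
        using this
  obtain ⟨s, hs, w, hw⟩ := h (Tens.map ι (f (k + 1)) (hf _) z) (by
    rw [← LinearMap.comp_apply, e1, LinearMap.smul_apply, LinearMap.comp_apply, hz, map_zero,
      smul_zero])
  have e4 := LinearMap.congr_fun e3 z
  have e5 := LinearMap.congr_fun e2 w
  simp only [LinearMap.comp_apply, LinearMap.add_apply, LinearMap.sub_apply,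
    LinearMap.smul_apply, hz, map_zero, smul_zero, add_zero, LinearMap.id_apply, hw,
    map_smul] at e4 e5
  refine ⟨((n ^ (3 * k + 7) : ℕ) : N) * s, IsLeftRegular.mul (by simpa using h2.pow _) hs,
    n ^ (k + 2) • Tens.map ι (g (k + 2)) (hg _) w + n • s • Tens.map ι (t (k + 1)) (ht _) z, ?_⟩
  rw [map_add, map_nsmul, map_nsmul, map_smul, e4, e5, mul_smul, Nat.cast_smul_eq_nsmul,
    smul_comm s, smul_sub s, smul_comm s, ← pow_mul]
  generalize s • z = x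
  generalize s • Tens.map ι (g (k + 1)) (hg _) _ = y
  module

end Pool.Agent.MP_4f4d9f_gt.Cb

end

section

open scoped Matrix Pointwise

namespace Pool.Agent.MP_4f4d9f_gt.Cb

open Finsupp Db

namespace AlTp

open Shap

theorem key {G B B₂ : Type} [Group G] [MulAction G B] [MulAction G B₂]
    {f : (B₂ →₀ ℤ) →ₗ[ℤ] (B →₀ ℤ)} (hf : Eqv (permRep G B₂) (permRep G B) f) (g : G) (γ : B₂)
    (β : B) : f (single (g • γ) 1) (g • β) = f (single γ 1) β := by
  rw [← permRep_single, hf, permRep_apply, mapDomain_apply (MulAction.injective g)]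

variable {Y B B' : Type}

theorem in_same (y : Y) (c : B →₀ ℤ) (b : B) : inY y c (y, b) = c b :=
  mapDomain_apply (Prod.mk_right_injective y) c b

theorem in_ne {y y' : Y} (h : y ≠ y') (c : B →₀ ℤ) (b : B) : inY y c (y', b) = 0 :=
  mapDomain_notin_range c _ fun ⟨_, e⟩ => h (congrArg Prod.fst e)

theorem ext_single (f : (B →₀ ℤ) →ₗ[ℤ] (B' →₀ ℤ)) (x : Y × B) :
    ext Y f (single x 1) = inY x.1 (f (single x.2 1)) := by
  rw [← ext_in, inY_single]

theorem out_apply (y : Y) (c : Y × B →₀ ℤ) (b : B) : outY y c b = c (y, b) :=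
  LinearMap.congr_fun (f := lapply b ∘ₗ outY y) (g := lapply (y, b)) (in_ext fun y' c => by
    rw [LinearMap.comp_apply, lapply_apply, lapply_apply]
    by_cases h : y' = y
    · rw [h, out_in, in_same]
    · rw [out_in_ne h, in_ne h, Finsupp.zero_apply]) c

theorem on_in {p : B → Prop} {c : B →₀ ℤ} (hc : On p c) (y : Y) :
    On (fun x : Y × B => x.1 = y ∧ p x.2) (inY y c) :=
  hc.mapDomain fun _ h => ⟨rfl, h⟩

theorem on_out {p : B → Prop} {y : Y} {c : Y × B →₀ ℤ}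
    (hc : On (fun x : Y × B => x.1 = y ∧ p x.2) c) : On p (outY y c) ∧ inY y (outY y c) = c := by
  refine ⟨fun b hb => (hc (y, b) ?_).2, ?_⟩
  · rwa [mem_support_iff, ← out_apply, ← mem_support_iff]
  · ext ⟨y', b⟩
    by_cases h : y = y'
    · rw [← h, in_same, out_apply]
    · rw [in_ne h]
      by_contra h'
      exact h (hc (y', b) (mem_support_iff.2 (Ne.symm h'))).1.symm

theorem sm_in (y : Y) (c : B →₀ ℤ) : sm _ (inY y c) = sm _ c := sm_mapDomain _ c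

end AlTp

open AlTp Shap

theorem tp_stmt : TpStmt := by
  intro G B B₂ _ _ _ hB ⟨S, hS⟩ f hf
  have fin : ∀ β : B, (Function.support fun γ => f (single γ 1) β).Finite := by
    intro β
    have inj : Function.Injective fun g : G => g • β := fun g g' e => by
      have := hB (g'⁻¹ * g) β (by rw [mul_smul, show g • β = g' • β from e, inv_smul_smul])
      rw [← mul_inv_cancel_left g' g, this, mul_one]
    refine (S.finite_toSet.biUnion fun s _ =>
      (((f (single s 1)).support.finite_toSet.preimage inj.injOn).image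
        fun g : G => g⁻¹ • s)).subset fun γ hγ => ?_
    obtain ⟨g, hg⟩ := hS γ
    refine Set.mem_biUnion hg ⟨g, ?_, inv_smul_smul g γ⟩
    rw [Set.mem_preimage, Finset.mem_coe, mem_support_iff, key hf]
    exact hγ
  have tp : Tp f (linearCombination ℤ fun β => ofSupportFinite _ (fin β)) := fun β γ => by
    rw [linearCombination_single, one_smul, ofSupportFinite_coe]
  refine ⟨_, Db.eqv_of_single fun g β => ?_, tp⟩
  ext γ
  obtain ⟨γ, rfl⟩ := MulAction.surjective g γ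
  rw [permRep_apply, mapDomain_apply (MulAction.injective g), tp, tp, key hf]

theorem ext_stmt : ExtStmt := by
  intro V Hy c R o σ F d hR hc
  refine ⟨⟨fun j => flipSys_Fw (hR.flip j) (hc j) true, fun j x => ?_, fun j x => ?_,
    fun j x h hh => ?_, fun j z => ?_, fun z => ?_⟩, fun p w hA => ⟨?_, fun z hz h => ?_,
    fun j z hz h => ?_⟩, fun Z B B₂ f fT => ⟨fun h x y => ?_, in_ext fun y c => ?_⟩⟩
  · rw [ext_single]
    exact (hR.loc j x.2).mapDomain fun β h => Prod.ext rfl h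
  · rw [ext_single]
    exact (hR.mono j x.2).mapDomain fun β h => h
  · rw [Fw_pos hh, ext_single, ext_single, inY, inY, lmapDomain_apply, lmapDomain_apply,
      ← mapDomain_comp]
    refine mapDomain_congr fun γ hγ => ?_
    exact (Fw_pos (F := F j) (s := true) (x := (x.1, γ)) (hR.mono j x.2 γ hγ hh)).symm
  · exact LinearMap.congr_fun (f := ext (RA c) (d j) ∘ₗ ext (RA c) (d (j + 1))) (g := 0)
      (in_ext fun y c => by
        rw [LinearMap.comp_apply, ext_in, ext_in, hR.d_d, map_zero, LinearMap.zero_apply]) z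
  · exact LinearMap.congr_fun (f := sm _ ∘ₗ ext (RA c) (d 0)) (g := 0)
      (in_ext fun y c => by
        rw [LinearMap.comp_apply, ext_in, sm_in, hR.ε_d, LinearMap.zero_apply]) z
  · obtain ⟨β, hβ⟩ := hA.ne
    exact ⟨(w, β), rfl, hβ⟩
  · obtain ⟨h1, h2⟩ := on_out hz
    obtain ⟨u, hu, e⟩ := hA.zero _ h1 (by rw [← sm_in w, h2, h])
    exact ⟨inY w u, on_in hu w, by rw [ext_in, e, h2]⟩
  · obtain ⟨h1, h2⟩ := on_out hz
    obtain ⟨u, hu, e⟩ := hA.succ j _ h1 (by rw [← out_ext, h, map_zero])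
    exact ⟨inY w u, on_in hu w, by rw [ext_in, e, h2]⟩
  · obtain ⟨z, β⟩ := x
    obtain ⟨z', γ⟩ := y
    rw [ext_single, ext_single]
    by_cases e : z = z'
    · subst e
      rw [in_same, in_same, h]
    · rw [in_ne e, in_ne (Ne.symm e)]
  · rw [LinearMap.comp_apply, ext_in, ext_in, ext_in, LinearMap.comp_apply]

end Pool.Agent.MP_4f4d9f_gt.Cb

end

section

open scoped Matrix Pointwise

namespace Pool.Agent.MP_4f4d9f_gt.Cb

open Finsupp Db

namespace AlUn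

variable {Hy B M : Type} [AddCommGroup M]

/-- A map that is invariant under flips descends to the unrooted cells. -/
theorem exists_lift (F : Hy → B → B) (f : (B →₀ ℤ) →ₗ[ℤ] M)
    (hf : ∀ h β, f (single (F h β) 1) = f (single β 1)) :
    ∃ f' : (Un F →₀ ℤ) →ₗ[ℤ] M, ∀ c, f' (mapDomain (uq F) c) = f c := by
  let v : Un F → M := Quot.lift (fun β => f (single β 1)) (by
    rintro β β' ⟨h, rfl⟩
    exact (hf h β).symm)
  refine ⟨linearCombination ℤ v, fun c => ?_⟩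
  refine LinearMap.congr_fun (f := linearCombination ℤ v ∘ₗ lmapDomain ℤ ℤ (uq F)) (g := f)
    (ch_ext fun β => ?_) c
  rw [LinearMap.comp_apply, lmapDomain_apply, mapDomain_single, linearCombination_single,
    one_smul]
  rfl

theorem q_surj (F : Hy → B → B) (c : Un F →₀ ℤ) : ∃ c', mapDomain (uq F) c' = c :=
  mapDomain_surjective (uq_surj F) c

/-- The action on the unrooted cells. -/
@[reducible] def act (H : Type) [Group H] [MulAction H Hy] [MulAction H B] {F : Hy → B → B}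
    (hF : ∀ (g : H) h β, F (g • h) (g • β) = g • F h β) : MulAction H (Un F) where
  smul g := Quot.map (g • ·) (by
    rintro β β' ⟨h, rfl⟩
    exact ⟨g • h, (hF g h β).symm⟩)
  one_smul u := by
    obtain ⟨β, rfl⟩ := uq_surj F u
    exact congrArg (uq F) (one_smul H β)
  mul_smul g g' u := by
    obtain ⟨β, rfl⟩ := uq_surj F u
    exact congrArg (uq F) (mul_smul g g' β)

theorem eqv_desc {H C C' : Type} [Group H] [AddCommGroup C] [AddCommGroup C']
    {ρ : Representation ℤ H C} {ρ' : Representation ℤ H C'} {ρM : Representation ℤ H M}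
    {q : C →ₗ[ℤ] C'} (hq : Eqv ρ ρ' q) (hs : ∀ c', ∃ c, q c = c') {f : C →ₗ[ℤ] M}
    (hf : Eqv ρ ρM f) {f' : C' →ₗ[ℤ] M} (e : ∀ c, f' (q c) = f c) : Eqv ρ' ρM f' := by
  intro g c'
  obtain ⟨c, rfl⟩ := hs c'
  rw [← hq, e, e, hf]

theorem map_at {V Y : Type} {o : B → V} (cp : V → Y) {v : V} {z : B →₀ ℤ} (hz : At o v z) :
    mapDomain (fun β => cp (o β)) z = single (cp v) (sm B z) := by
  rw [mapDomain_congr (g := fun _ => cp v) fun β hβ => by rw [hz β hβ]]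
  exact LinearMap.congr_fun (f := lmapDomain ℤ ℤ fun _ : B => cp v)
    (g := lsingle (cp v) ∘ₗ sm B) (ch_ext fun β => by simp) z

theorem projN {H C D : Type} [Group H] [AddCommGroup C] [AddCommGroup D] {n : ℕ}
    {ρD : Representation ℤ H D} {ρ : Representation ℤ H C} {q : D →ₗ[ℤ] C} {t : C →ₗ[ℤ] D}
    (S : Spl n ρD ρ q t) (hP : Proj ρD) : ProjN n ρ := by
  intro D' E _ _ ρD' ρE π φ hπ hφ hs
  obtain ⟨ψ, h1, h2⟩ := hP D' E ρD' ρE π (φ ∘ₗ q) hπ (hφ.comp S.eqv_q) fun c => hs _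
  refine ⟨ψ ∘ₗ t, h1.comp S.eqv_t, fun c => ?_⟩
  rw [LinearMap.comp_apply, h2, LinearMap.comp_apply, S.qt, map_nsmul]

end AlUn

open AlUn in
theorem un_stmt (hE : ExStmt) (hA : AvgStmt) : UnStmt := by
  intro H V Hy Y _ _ _ R _ o σ F d D ht Dn cp hR hH hacy hC hF hcp
  let _ : ∀ k, MulAction H (Un (F k)) := fun k => act H (hF k).F_eqv
  have hav := fun k => hA Hy (R k) (σ k) (F k) D (hF k).flip (hF k).card
  have hq : ∀ k, Eqv (permRep H (R k)) (permRep H (Un (F k))) (lmapDomain ℤ ℤ (uq (F k))) :=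
    fun k => eqv_lmapDomain fun _ _ => rfl
  choose t et using fun k => exists_lift (F k) (avg D (σ k) (F k)) (hav k).1
  choose dU edU using fun k => exists_lift (F (k + 1)) (lmapDomain ℤ ℤ (uq (F k)) ∘ₗ d k)
    fun h β => by
      by_cases hh : h ∈ σ (k + 1) β
      · rw [LinearMap.comp_apply, LinearMap.comp_apply, hR.comm k β h hh, lmapDomain_apply,
          lmapDomain_apply, ← mapDomain_comp]
        exact congrArg (mapDomain · _) (funext fun γ => uq_flip (F k) h γ)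
      · rw [(hR.flip _).out h β hh]
  obtain ⟨ε, eε⟩ := exists_lift (F 0) (lmapDomain ℤ ℤ fun β => cp (o 0 β)) fun h β => by
    rw [lmapDomain_apply, lmapDomain_apply, mapDomain_single, mapDomain_single, hH.cp_F]
  have edU' : ∀ k c, dU k (mapDomain (uq (F (k + 1))) c) = mapDomain (uq (F k)) (d k c) := edU
  obtain ⟨x1, x2, x3⟩ := hE V Hy Y R o σ F d ht Dn cp hR hH hacy dU ε edU' fun β => by
    rw [← mapDomain_single, eε, lmapDomain_apply, mapDomain_single]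
  have hS : ∀ k, Spl (2 ^ D) (permRep H (R k)) (permRep H (Un (F k))) (lmapDomain ℤ ℤ (uq (F k)))
      (t k) := fun k => ⟨hq k, eqv_desc (hq k) (q_surj _) ((hav k).2.2.2.2.2 H (hF k)) (et k),
    fun c => by
      obtain ⟨c, rfl⟩ := q_surj _ c
      rw [et]
      exact LinearMap.congr_fun (f := lmapDomain ℤ ℤ (uq (F k)) ∘ₗ avg D (σ k) (F k))
        (g := 2 ^ D • lmapDomain ℤ ℤ (uq (F k))) (ch_ext fun β => by
          rw [LinearMap.comp_apply, lmapDomain_apply, (hav k).2.1, LinearMap.smul_apply,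
            lmapDomain_apply, mapDomain_single]) c⟩
  refine ⟨fun k => Un (F k) →₀ ℤ, inferInstance, fun k => permRep H (Un (F k)), dU, ε,
    fun k => lmapDomain ℤ ℤ (uq (F k)), t, ⟨fun k => ?_, ?_, fun c => ?_, fun k c => ?_, x1, x2, x3,
      fun k => ?_⟩, hS, edU', fun k => LinearMap.ext (et k)⟩
  · exact eqv_desc (hq _) (q_surj _) ((hq k).comp (hC.eqv k)) (edU k)
  · exact eqv_desc (hq _) (q_surj _) (eqv_lmapDomain hcp) eε
  · obtain ⟨c, rfl⟩ := q_surj _ c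
    rw [edU', eε]
    refine LinearMap.congr_fun (f := lmapDomain ℤ ℤ (fun β => cp (o 0 β)) ∘ₗ d 0) (g := 0)
      (ch_ext fun β => ?_) c
    rw [LinearMap.comp_apply, lmapDomain_apply, map_at cp (hR.loc 0 β), hR.ε_d, single_zero,
      LinearMap.zero_apply]
  · obtain ⟨c, rfl⟩ := q_surj _ c
    rw [edU', edU', hR.d_d, mapDomain_zero]
  · exact projN (hS k) (proj_free (MonoidHom.id H) Function.injective_id (hC.free k))

end Pool.Agent.MP_4f4d9f_gt.Cb

end
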