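import Pool.Agent.Mg.F4f4d9fr.G967390
import Pool.Agent.MP_4f4d9f_gt.P3Iface
import Pool.Agent.Mg.F4f4d9fr.G0e173c

set_option linter.all false

section

/-! Interface, parts C and R: existence of the division ring and comparison of ranks. -/

open scoped Matrix

namespace Pool.Agent.MP_4f4d9f_gt.Sg

/-- The ring homomorphism of the integral group ring induced by `ι`. -/
noncomputable def ev {G N : Type} [Group G] [Ring N] (ι : G →* N) : MonoidAlgebra ℤ G →+* N :=
  (MonoidAlgebra.lift ℤ N G ι).toRingHom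

theorem ev_single {G N : Type} [Group G] [Ring N] (ι : G →* N) (g : G) (a : ℤ) :
    ev ι (MonoidAlgebra.single g a) = a • ι g :=
  MonoidAlgebra.lift_single ι g a

/-- The matrix is injective over the group rings of amenable groups that approximate `G`. -/
def InjApx {G : Type} [Group G] {m : ℕ} (A : Matrix (Fin m) (Fin m) (MonoidAlgebra ℤ G)) : Prop :=
  ∀ T : Finset G, ∃ (Q : Type) (_ : Group Q) (φ : G →* Q), Folner Q Q ∧
    (∀ g ∈ T, φ g = 1 → g = 1) ∧ ∀ x : Fin m → MonoidAlgebra ℤ Q,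
      A.map (MonoidAlgebra.mapDomainRingHom ℤ φ) *ᵥ x = 0 → x = 0

/-- Matrices that are invertible over `D` are approximately injective. -/
def Apx {G D : Type} [Group G] [DivisionRing D] (ι : G →* D) : Prop :=
  ∀ (m : ℕ) (A : Matrix (Fin m) (Fin m) (MonoidAlgebra ℤ G)), IsUnit (A.map (ev ι)) → InjApx A

/-- The left Ore condition for a ring. -/
def LOre (R : Type) [Ring R] : Prop := ∀ a b : R, b ≠ 0 → ∃ s x : R, s ≠ 0 ∧ s * a = x * b

/-- The adjoint of a matrix over the group ring. -/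
noncomputable def adjM {G : Type} [Group G] {m : ℕ}
    (A : Matrix (Fin m) (Fin m) (MonoidAlgebra ℤ G)) : Matrix (Fin m) (Fin m) (MonoidAlgebra ℤ G) :=
  Matrix.of fun i j => MonoidAlgebra.mapDomain (·⁻¹) (A j i)

/-- The square of the `ℓ²`-norm. -/
noncomputable def l2sq {G : Type} (a : MonoidAlgebra ℤ G) : ℝ := a.coeff.sum fun _ n => (n : ℝ) ^ 2

/-- The moments of `c - A* A` are small. -/
def Mom {G : Type} [Group G] {m : ℕ} (A : Matrix (Fin m) (Fin m) (MonoidAlgebra ℤ G)) : Prop :=
  ∃ c : ℕ, 0 < c ∧ ∀ δ : ℝ, 0 < δ → ∃ j : ℕ,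
    ∑ i, ∑ i', l2sq ((((c : ℤ) • (1 : Matrix (Fin m) (Fin m) (MonoidAlgebra ℤ G)) -
      adjM A * A) ^ j) i' i) ≤ δ * (c : ℝ) ^ (2 * j)

/-- A square matrix that becomes invertible after inverting regular elements. -/
structure MReg {N : Type} [Ring N] {m : ℕ} (B : Matrix (Fin m) (Fin m) N) : Prop where
  surj : ∀ z : Fin m → N, ∃ (s : N) (y : Fin m → N), IsLeftRegular s ∧ s • z = y ᵥ* B
  inj : ∀ y : Fin m → N, y ᵥ* B = 0 → y = 0

/-- Finitely generated `ℤG`-module. -/
def RepFG {G C : Type} [Group G] [AddCommGroup C] (ρ : Representation ℤ G C) : Prop :=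
  ∃ S : Finset C, AddSubgroup.closure {c | ∃ g : G, ∃ s ∈ S, c = ρ g s} = ⊤

/-! ### Statements -/

/-- Job `Dom`. -/
def DomStmt : Prop := ∀ (Q : Type) [Group Q], LocInd Q → UniqueProds Q

/-- Job `Tamari`. -/
def TamariStmt : Prop :=
  ∀ (Q : Type) [Group Q], Folner Q Q → NoZeroDivisors (MonoidAlgebra (ZMod 2) Q) →
    LOre (MonoidAlgebra (ZMod 2) Q)

/-- Job `PiQ`. -/
def PiStmt : Prop :=
  ∀ (I : Type) [Fintype I] (Q : I → Type) [∀ i, Group (Q i)],
    ((∀ i, LocInd (Q i)) → LocInd (∀ i, Q i)) ∧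
    ((∀ i, Folner (Q i) (Q i)) → Folner (∀ i, Q i) (∀ i, Q i))

/-- Job `Loc`. -/
def LocStmt : Prop :=
  ∀ (Q : Type) [Group Q], NoZeroDivisors (MonoidAlgebra (ZMod 2) Q) →
    LOre (MonoidAlgebra (ZMod 2) Q) →
    ∃ (K : Type) (_ : DivisionRing K) (j : Q →* K), CharP K 2 ∧ SHF j ∧
      ∀ (m : ℕ) (A : Matrix (Fin m) (Fin m) (MonoidAlgebra ℤ Q)), IsUnit (A.map (ev j)) →
        ∀ x : Fin m → MonoidAlgebra ℤ Q, A *ᵥ x = 0 → x = 0

/-- Job `Ultra`. -/
def UltraStmt : Prop :=
  ∀ (G : Type) [Group G], ResLIA G →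
    ∃ (D : Type) (_ : DivisionRing D) (ι : G →* D), CharP D 2 ∧ WHF ι ∧ Apx ι

/-- Job `Gen`. -/
def GenStmt : Prop :=
  ∀ (G D : Type) [Group G] [DivisionRing D] (ι : G →* D), CharP D 2 → WHF ι → Apx ι →
    ∃ (D' : Type) (_ : DivisionRing D') (ι' : G →* D'),
      CharP D' 2 ∧ WHF ι' ∧ Apx ι' ∧ dcl ι' ⊤ = ⊤

/-- Job `Det`. -/
def DetStmt : Prop :=
  ∀ c : ℕ, 0 < c → ∀ δ : ℝ, 0 < δ → ∃ j : ℕ, ∀ (I : Type) [Fintype I] [DecidableEq I]
    (M : Matrix I I ℤ), (M.map (Int.cast : ℤ → ℝ)).PosDef → (∀ x, ∑ y, |M x y| ≤ c) →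
      ∑ x, ∑ y, (((((c : ℤ) • (1 : Matrix I I ℤ) - M) ^ j) y x : ℤ) : ℝ) ^ 2 ≤
        δ * (c : ℝ) ^ (2 * j) * Fintype.card I

/-- Job `Mom`. -/
def MomStmt : Prop :=
  ∀ (G : Type) [Group G] (m : ℕ) (A : Matrix (Fin m) (Fin m) (MonoidAlgebra ℤ G)),
    InjApx A → Mom A

/-- Job `OpInj`. -/
def OpInjStmt : Prop :=
  ∀ (G E : Type) [Group G] [NormedAddCommGroup E] [InnerProductSpace ℂ E]
    (b : HilbertBasis G ℂ E) (ι : G →* vnAlg b), (∀ g h, (ι g).1 (b h) = b (g * h)) →
    ∀ (K : Type) [Group K] (j : K →* G), Function.Injective j →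
    ∀ (m : ℕ) (A : Matrix (Fin m) (Fin m) (MonoidAlgebra ℤ K)), Mom A →
      Function.Injective (FA.op (A.map (ev (ι.comp j))))

/-- Job `Reg`. -/
def RegStmt : Prop :=
  ∀ (G E : Type) [Group G] [NormedAddCommGroup E] [InnerProductSpace ℂ E]
    (b : HilbertBasis G ℂ E) (m : ℕ) (B : Matrix (Fin m) (Fin m) (vnAlg b)),
    Function.Injective (FA.op B) → MReg B

/-- Job `Rank`. -/
def RankStmt : Prop :=
  ∀ (R D N : Type) [Ring R] [DivisionRing D] [Ring N] (α : R →+* D) (β : R →+* N),
    (∀ (m : ℕ) (B : Matrix (Fin m) (Fin m) R), IsUnit (B.map α) → MReg (B.map β)) →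
    ∀ (I J : Type) [Fintype I] [Fintype J] (F : Matrix I J R),
      (∀ z : I → D, z ᵥ* F.map α = 0 →
        z ∈ Submodule.span D {w | ∃ x : I → R, x ᵥ* F = 0 ∧ w = α ∘ x}) →
      ∀ z : I → N, z ᵥ* F.map β = 0 → ∃ s : N, IsLeftRegular s ∧
        s • z ∈ Submodule.span N {w | ∃ x : I → R, x ᵥ* F = 0 ∧ w = β ∘ x}

/-- Job `Res`. -/
def ResStmt : Prop :=
  ∀ (K : Type) [Group K] (m : ℕ), FinRes K m →
    ∃ (C : ℕ → Type) (_ : ∀ k, AddCommGroup (C k)) (ρ : ∀ k, Representation ℤ K (C k))
      (d : ∀ k, C (k + 1) →ₗ[ℤ] C k) (ε : C 0 →ₗ[ℤ] ℤ), IsRes ρ d ε ∧ RepFG (ρ m)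

/-- Job `Tors`. -/
def TorsStmt : Prop :=
  ∀ (K D N : Type) [Group K] [DivisionRing D] [Ring N] (ι : K →* D) (ι' : K →* N),
    (∀ (m : ℕ) (B : Matrix (Fin m) (Fin m) (MonoidAlgebra ℤ K)),
      IsUnit (B.map (ev ι)) → MReg (B.map (ev ι'))) →
    ∀ (C : ℕ → Type) [∀ k, AddCommGroup (C k)] (ρ : ∀ k, Representation ℤ K (C k))
      (d : ∀ k, C (k + 1) →ₗ[ℤ] C k) (ε : C 0 →ₗ[ℤ] ℤ) (R : IsRes ρ d ε) (k : ℕ),
      RepFG (ρ (k + 1)) → ExactAt ι ρ d R.eqv_d k → TorsAt ι' ρ d R.eqv_d k

end Pool.Agent.MP_4f4d9f_gt.Sg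

end

section

/-! The homogeneous bar complex on nonempty lists, its tensor square and the Alexander-Whitney
diagonal. -/

namespace Pool.Agent.MP_4f4d9f_gt.Sg

set_option linter.unusedSectionVars false

open Finsupp

/-- Nonempty tuples. -/
@[ext] structure Tup (G : Type) where
  /-- the first vertex -/
  hd : G
  /-- the other vertices -/
  tl : List G

namespace Tup

variable {G : Type}

/-- The degree. -/
def deg (x : Tup G) : ℕ := x.tl.length

/-- Adding a first vertex. -/
def cons (a : G) (x : Tup G) : Tup G := ⟨a, x.hd :: x.tl⟩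

/-- A vertex. -/
def pt (a : G) : Tup G := ⟨a, []⟩

@[simp] theorem deg_cons (a : G) (x : Tup G) : (cons a x).deg = x.deg + 1 := rfl

@[simp] theorem deg_pt (a : G) : (pt a).deg = 0 := rfl

theorem induction {P : Tup G → Prop} (h0 : ∀ a, P (pt a)) (h1 : ∀ a x, P x → P (cons a x))
    (x : Tup G) : P x := by
  obtain ⟨a, l⟩ := x
  induction l generalizing a with
  | nil => exact h0 a
  | cons b l ih => exact h1 a ⟨b, l⟩ (ih b)

theorem eq_pt {x : Tup G} (h : x.deg = 0) : x = pt x.hd :=
  Tup.ext rfl (List.length_eq_zero_iff.1 h)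

variable [Group G]

instance : MulAction G (Tup G) where
  smul g x := ⟨g * x.hd, x.tl.map (g * ·)⟩
  one_smul x := Tup.ext (one_mul _) (by
    change x.tl.map (1 * ·) = x.tl
    simp)
  mul_smul g h x := Tup.ext (mul_assoc _ _ _) (by
    change x.tl.map (g * h * ·) = (x.tl.map (h * ·)).map (g * ·)
    simp [mul_assoc])

@[simp] theorem smul_hd (g : G) (x : Tup G) : (g • x).hd = g * x.hd := rfl

theorem smul_tl (g : G) (x : Tup G) : (g • x).tl = x.tl.map (g * ·) := rfl

@[simp] theorem deg_smul (g : G) (x : Tup G) : (g • x).deg = x.deg := List.length_map _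

@[simp] theorem smul_cons (g a : G) (x : Tup G) : g • cons a x = cons (g * a) (g • x) := rfl

@[simp] theorem smul_pt (g a : G) : g • pt a = pt (g * a) := rfl

theorem free (g : G) (x : Tup G) (h : g • x = x) : g = 1 :=
  mul_eq_right.1 (congrArg hd h)

end Tup

open Tup

section Bar

variable (R : Type) [CommRing R] {G : Type}

/-- The cone operator. -/
noncomputable def cn (a : G) : (Tup G →₀ R) →ₗ[R] (Tup G →₀ R) := lmapDomain R R (cons a)

/-- The augmentation. -/
noncomputable def eps : (Tup G →₀ R) →ₗ[R] R :=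
  linearCombination R fun x => if x.deg = 0 then 1 else 0

/-- The boundary of a tuple. -/
noncomputable def bd1 : G → List G → (Tup G →₀ R)
  | _, [] => 0
  | a, b :: l => single ⟨b, l⟩ 1 - cn R a (bd1 b l) - eps R (single ⟨b, l⟩ 1) • single (pt a) 1

/-- The boundary of the bar complex. -/
noncomputable def bdT : (Tup G →₀ R) →ₗ[R] (Tup G →₀ R) :=
  linearCombination R fun x => bd1 R x.hd x.tl

/-- The projection onto the part of degree `m`. -/
noncomputable def prD {B : Type} (deg : B → ℕ) (m : ℕ) : (B →₀ R) →ₗ[R] (B →₀ R) :=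
  linearCombination R fun x => if deg x = m then single x 1 else 0

variable {R}

theorem cn_single (a : G) (x : Tup G) (r : R) : cn R a (single x r) = single (cons a x) r := by
  simp [cn]

theorem eps_single (x : Tup G) (r : R) : eps R (single x r) = if x.deg = 0 then r else 0 := by
  simp [eps]

theorem eps_cn (a : G) (c : Tup G →₀ R) : eps R (cn R a c) = 0 := by
  induction c using Finsupp.induction_linear with
  | zero => simp
  | add x y hx hy => simp [hx, hy]
  | single x r => simp [cn_single, eps_single]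

theorem bdT_pt (a : G) (r : R) : bdT R (single (pt a) r) = 0 := by
  simp [bdT, pt, bd1]

/-- The contracting homotopy. -/
theorem bdT_cn (a : G) (c : Tup G →₀ R) :
    bdT R (cn R a c) = c - cn R a (bdT R c) - eps R c • single (pt a) 1 := by
  induction c using Finsupp.induction_linear with
  | zero => simp
  | add x y hx hy => simp only [map_add, hx, hy, add_smul]; abel
  | single x r =>
    rw [cn_single, ← smul_single_one, ← smul_single_one x r]
    simp only [map_smul, smul_eq_mul, mul_smul, ← smul_sub]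
    congr 1
    simp [bdT, Tup.cons, bd1]

theorem bdT_cons (a : G) (x : Tup G) (r : R) : bdT R (single (cons a x) r) =
    single x r - cn R a (bdT R (single x r)) - eps R (single x r) • single (pt a) 1 := by
  rw [← cn_single, bdT_cn]

theorem eps_bdT (c : Tup G →₀ R) : eps R (bdT R c) = 0 := by
  induction c using Finsupp.induction_linear with
  | zero => simp
  | add x y hx hy => simp [hx, hy]
  | single x r =>
    induction x using Tup.induction with
    | h0 a => rw [bdT_pt, map_zero]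
    | h1 a x _ =>
      rw [bdT_cons, map_sub, map_sub, eps_cn, map_smul, eps_single (pt a)]
      simp

theorem bdT_bdT (c : Tup G →₀ R) : bdT R (bdT R c) = 0 := by
  induction c using Finsupp.induction_linear with
  | zero => simp
  | add x y hx hy => simp [hx, hy]
  | single x r =>
    induction x using Tup.induction with
    | h0 a => rw [bdT_pt, map_zero]
    | h1 a x ih => simp [bdT_cons, bdT_cn, ih, eps_bdT, bdT_pt]

theorem prD_single {B : Type} (deg : B → ℕ) (m : ℕ) (x : B) (r : R) :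
    prD R deg m (single x r) = if deg x = m then single x r else 0 := by
  simp only [prD, linearCombination_single]
  split_ifs <;> simp

theorem prD_apply {B : Type} (deg : B → ℕ) (m : ℕ) (c : B →₀ R) (x : B) :
    prD R deg m c x = if deg x = m then c x else 0 := by
  classical
  induction c using Finsupp.induction_linear with
  | zero => simp
  | add x y hx hy => simp only [map_add, Finsupp.add_apply, hx, hy]; split_ifs <;> simp
  | single y r =>
    rw [prD_single]
    by_cases h : y = x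
    · subst h
      split_ifs <;> simp
    · split_ifs <;> simp [h]

theorem prD_prD {B : Type} (deg : B → ℕ) (m m' : ℕ) (c : B →₀ R) :
    prD R deg m (prD R deg m' c) = if m = m' then prD R deg m c else 0 := by
  ext x
  split_ifs with h
  · subst h
    simp only [prD_apply]
    split_ifs <;> rfl
  · simp only [prD_apply, Finsupp.zero_apply]
    split_ifs <;> first | rfl | omega

theorem prD_cn (a : G) (m : ℕ) (c : Tup G →₀ R) :
    prD R deg (m + 1) (cn R a c) = cn R a (prD R deg m c) := by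
  induction c using Finsupp.induction_linear with
  | zero => simp
  | add x y hx hy => simp [hx, hy]
  | single x r =>
    simp only [cn_single, prD_single, deg_cons, add_left_inj]
    split_ifs <;> simp [cn_single]

theorem prD_zero_cn (a : G) (c : Tup G →₀ R) : prD R deg 0 (cn R a c) = 0 := by
  induction c using Finsupp.induction_linear with
  | zero => simp
  | add x y hx hy => simp [hx, hy]
  | single x r => simp [cn_single, prD_single]

/-- The boundary lowers the degree by one. -/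
theorem prD_bdT (m : ℕ) (c : Tup G →₀ R) :
    prD R deg m (bdT R c) = bdT R (prD R deg (m + 1) c) := by
  induction c using Finsupp.induction_linear with
  | zero => simp
  | add x y hx hy => simp [hx, hy]
  | single x r =>
    induction x using Tup.induction generalizing m with
    | h0 a => simp [bdT_pt, prD_single]
    | h1 a x ih =>
      rw [← cn_single, prD_cn, bdT_cn, bdT_cn]
      cases m with
      | zero =>
        simp only [map_sub, map_smul, prD_zero_cn, prD_single, eps_single, deg_pt]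
        split_ifs with h
        · rw [eq_pt h, bdT_pt]
          simp [eps_single]
        · simp
      | succ m =>
        simp only [map_sub, map_smul, prD_cn, ih, prD_single, eps_single, deg_pt]
        split_ifs with h h' <;> simp_all [eps_single]

theorem deg_of_mem_bdT {x y : Tup G} {r : R} (h : y ∈ (bdT R (single x r)).support) :
    y.deg + 1 = x.deg := by
  by_contra hne
  have := congrArg (fun c => c y) (prD_bdT y.deg (single x r))
  simp only [prD_apply, prD_single, if_true, if_neg (Ne.symm hne), map_zero] at this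
  exact mem_support_iff.1 h this

variable [Group G]

theorem cn_smul (g a : G) (c : Tup G →₀ R) :
    cn R (g * a) (c.mapDomain (g • ·)) = (cn R a c).mapDomain (g • ·) := by
  induction c using Finsupp.induction_linear with
  | zero => simp
  | add x y hx hy => simp [hx, hy, mapDomain_add]
  | single x r => simp [cn_single]

theorem eps_smul (g : G) (c : Tup G →₀ R) : eps R (c.mapDomain (g • ·)) = eps R c := by
  induction c using Finsupp.induction_linear with
  | zero => simp
  | add x y hx hy => simp [hx, hy, mapDomain_add]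
  | single x r => simp [eps_single]

theorem bdT_smul (g : G) (c : Tup G →₀ R) :
    bdT R (c.mapDomain (g • ·)) = (bdT R c).mapDomain (g • ·) := by
  induction c using Finsupp.induction_linear with
  | zero => simp
  | add x y hx hy => simp [hx, hy, mapDomain_add]
  | single x r =>
    induction x using Tup.induction with
    | h0 a => simp [bdT_pt]
    | h1 a x ih =>
      rw [mapDomain_single] at ih
      rw [mapDomain_single, smul_cons, bdT_cons, bdT_cons, ih, cn_smul]
      rw [mapDomain_sub, mapDomain_sub, mapDomain_smul]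
      simp [eps_single]

theorem prD_smul {B : Type} {deg : B → ℕ} {f : B → B} (h : ∀ b, deg (f b) = deg b) (m : ℕ)
    (c : B →₀ R) : prD R deg m (c.mapDomain f) = (prD R deg m c).mapDomain f := by
  induction c using Finsupp.induction_linear with
  | zero => simp
  | add x y hx hy => simp [hx, hy, mapDomain_add]
  | single x r =>
    simp only [mapDomain_single, prD_single, h]
    split_ifs <;> simp

end Bar

end Pool.Agent.MP_4f4d9f_gt.Sg

end

section

/-! The tensor square of the bar complex, mod 2. -/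

namespace Pool.Agent.MP_4f4d9f_gt.Sg

set_option linter.unusedSectionVars false

open Finsupp Tup

/-- The field with two elements. -/
abbrev F2 : Type := ZMod 2

/-- Cells of the tensor square. -/
abbrev Cell (G : Type) : Type := Tup G × Tup G

variable {G : Type}

theorem add_self2 {B : Type} (c : B →₀ F2) : c + c = 0 := by
  ext b
  exact CharTwo.add_self_eq_zero _

theorem sub_eq_add2 {B : Type} (c c' : B →₀ F2) : c - c' = c + c' := by
  ext b
  exact CharTwo.sub_eq_add _ _

/-- The degree of a cell. -/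
def cdeg (c : Cell G) : ℕ := c.1.deg + c.2.deg

/-- The product of two chains. -/
noncomputable def pr2 : (Tup G →₀ F2) →ₗ[F2] (Tup G →₀ F2) →ₗ[F2] (Cell G →₀ F2) :=
  linearCombination F2 fun a => lmapDomain F2 F2 fun b => (a, b)

/-- The boundary of the tensor square. -/
noncomputable def cb : (Cell G →₀ F2) →ₗ[F2] (Cell G →₀ F2) :=
  linearCombination F2 fun c =>
    pr2 (bdT F2 (single c.1 1)) (single c.2 1) + pr2 (single c.1 1) (bdT F2 (single c.2 1))

/-- The swap. -/
noncomputable def cs : (Cell G →₀ F2) →ₗ[F2] (Cell G →₀ F2) := lmapDomain F2 F2 Prod.swap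

theorem pr2_single (a b : Tup G) (r s : F2) :
    pr2 (single a r) (single b s) = single (a, b) (r * s) := by
  simp [pr2]

theorem cell_induction {P : (Cell G →₀ F2) → Prop} (h0 : P 0)
    (hadd : ∀ x y, P x → P y → P (x + y))
    (h1 : ∀ x y : Tup G, P (pr2 (single x 1) (single y 1))) (c : Cell G →₀ F2) : P c := by
  induction c using Finsupp.induction_linear with
  | zero => exact h0
  | add x y hx hy => exact hadd x y hx hy
  | single x r =>
    have : r = 0 ∨ r = 1 := by revert r; decide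
    rcases this with rfl | rfl
    · rwa [single_zero]
    · simpa [pr2_single] using h1 x.1 x.2

theorem cb_pr2 (x y : Tup G →₀ F2) :
    cb (pr2 x y) = pr2 (bdT F2 x) y + pr2 x (bdT F2 y) := by
  induction x using Finsupp.induction_linear with
  | zero => simp
  | add a b ha hb => simp only [map_add, LinearMap.add_apply, ha, hb]; abel
  | single a r =>
    induction y using Finsupp.induction_linear with
    | zero => simp
    | add a b ha hb => simp only [map_add, ha, hb]; abel
    | single b s =>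
      rw [pr2_single, cb, linearCombination_single, ← smul_single_one a r, ← smul_single_one b s]
      simp only [map_smul, LinearMap.smul_apply, smul_add, mul_smul]
      rw [smul_comm s r, smul_comm s r]

theorem cs_single (c : Cell G) (r : F2) : cs (single c r) = single c.swap r := by simp [cs]

theorem cs_pr2 (x y : Tup G →₀ F2) : cs (pr2 x y) = pr2 y x := by
  induction x using Finsupp.induction_linear with
  | zero => simp
  | add a b ha hb => simp only [map_add, LinearMap.add_apply, ha, hb]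
  | single a r =>
    induction y using Finsupp.induction_linear with
    | zero => simp
    | add a b ha hb => simp only [map_add, LinearMap.add_apply, ha, hb]
    | single b s => rw [pr2_single, pr2_single, cs_single, mul_comm]; rfl

theorem cs_cs (c : Cell G →₀ F2) : cs (cs c) = c := by
  induction c using cell_induction with
  | h0 => simp
  | hadd x y hx hy => simp [hx, hy]
  | h1 x y => rw [cs_pr2, cs_pr2]

theorem cb_cb (c : Cell G →₀ F2) : cb (cb c) = 0 := by
  induction c using cell_induction with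
  | h0 => simp
  | hadd x y hx hy => simp [hx, hy]
  | h1 x y => simp [cb_pr2, bdT_bdT, add_self2]

theorem cb_cs (c : Cell G →₀ F2) : cb (cs c) = cs (cb c) := by
  induction c using cell_induction with
  | h0 => simp
  | hadd x y hx hy => simp [hx, hy]
  | h1 x y => simp only [cb_pr2, cs_pr2, map_add, add_comm]

theorem mapDomain_pr2 (f f' : Tup G → Tup G) (x y : Tup G →₀ F2) :
    (pr2 x y).mapDomain (Prod.map f f') = pr2 (x.mapDomain f) (y.mapDomain f') := by
  induction x using Finsupp.induction_linear with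
  | zero => simp
  | add a b ha hb => simp only [map_add, LinearMap.add_apply, mapDomain_add, ha, hb]
  | single a r =>
    induction y using Finsupp.induction_linear with
    | zero => simp
    | add a b ha hb => simp only [map_add, mapDomain_add, ha, hb]
    | single b s => simp only [pr2_single, mapDomain_single, Prod.map]

theorem mem_support_pr2 {x y : Tup G →₀ F2} {c : Cell G} (h : c ∈ (pr2 x y).support) :
    c.1 ∈ x.support ∧ c.2 ∈ y.support := by
  classical
  have : ∀ x y : Tup G →₀ F2, pr2 x y c = x c.1 * y c.2 := by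
    intro x y
    induction x using Finsupp.induction_linear with
    | zero => simp
    | add a b ha hb => simp only [map_add, LinearMap.add_apply, Finsupp.add_apply, ha, hb, add_mul]
    | single a r =>
      induction y using Finsupp.induction_linear with
      | zero => simp
      | add a b ha hb => simp only [map_add, Finsupp.add_apply, ha, hb, mul_add]
      | single b s =>
        simp only [pr2_single, single_apply, Prod.ext_iff]
        split_ifs <;> simp_all
  rw [mem_support_iff, this] at h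
  exact ⟨mem_support_iff.2 (left_ne_zero_of_mul h), mem_support_iff.2 (right_ne_zero_of_mul h)⟩

theorem cdeg_of_mem_cb {c e : Cell G} (h : e ∈ (cb (single c 1)).support) :
    cdeg e + 1 = cdeg c := by
  classical
  rw [cb, linearCombination_single, one_smul] at h
  rcases Finset.mem_union.1 (support_add h) with h | h
  · obtain ⟨h1, h2⟩ := mem_support_pr2 h
    have := deg_of_mem_bdT h1
    rw [cdeg, cdeg, Finset.mem_singleton.1 (support_single_subset h2)]
    omega
  · obtain ⟨h1, h2⟩ := mem_support_pr2 h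
    have := deg_of_mem_bdT h2
    rw [cdeg, cdeg, Finset.mem_singleton.1 (support_single_subset h1)]
    omega

theorem prD_cb (m : ℕ) (c : Cell G →₀ F2) :
    prD F2 cdeg m (cb c) = cb (prD F2 cdeg (m + 1) c) := by
  induction c using cell_induction with
  | h0 => simp
  | hadd x y hx hy => simp [hx, hy]
  | h1 x y =>
    rw [pr2_single, mul_one, prD_single]
    ext e
    rw [prD_apply]
    by_cases he : e ∈ (cb (single (x, y) 1)).support
    · have := cdeg_of_mem_cb he
      split_ifs <;> first | rfl | omega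
    · have := notMem_support_iff.1 he
      split_ifs <;> simp [this]

theorem prD_cs (m : ℕ) (c : Cell G →₀ F2) : prD F2 cdeg m (cs c) = cs (prD F2 cdeg m c) :=
  prD_smul (f := Prod.swap) (fun _ => add_comm _ _) m c

/-- The tensor square is exact in positive degrees. -/
theorem cell_exact (a : G) {i : ℕ} {c : Cell G →₀ F2} (hc : prD F2 cdeg (i + 1) c = c)
    (h : cb c = 0) : ∃ b, cb b = c := by
  let K : (Cell G →₀ F2) →ₗ[F2] (Cell G →₀ F2) := linearCombination F2 fun c =>
    pr2 (cn F2 a (single c.1 1)) (single c.2 1) +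
      eps F2 (single c.1 1) • pr2 (single (pt a) 1) (cn F2 a (single c.2 1))
  let e : (Cell G →₀ F2) →ₗ[F2] F2 := linearCombination F2 fun c =>
    eps F2 (single c.1 1) * eps F2 (single c.2 1)
  have hK : ∀ x y, K (pr2 x y) =
      pr2 (cn F2 a x) y + eps F2 x • pr2 (single (pt a) 1) (cn F2 a y) := by
    intro x y
    induction x using Finsupp.induction_linear with
    | zero => simp
    | add a b ha hb => simp only [map_add, LinearMap.add_apply, ha, hb, add_smul]; abel
    | single u r =>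
      induction y using Finsupp.induction_linear with
      | zero => simp
      | add a b ha hb => simp only [map_add, ha, hb, smul_add]; abel
      | single v s =>
        rw [pr2_single, linearCombination_single, ← smul_single_one u r, ← smul_single_one v s]
        simp only [map_smul, LinearMap.smul_apply, smul_add, smul_smul, smul_eq_mul]
        congr 2 <;> ring
  have key : ∀ c, cb (K c) + K (cb c) = c + e c • pr2 (single (pt a) 1) (single (pt a) 1) := by
    intro c
    induction c using cell_induction with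
    | h0 => simp
    | hadd x y hx hy =>
      simp only [map_add, add_smul]
      rw [add_add_add_comm, hx, hy]
      abel
    | h1 x y =>
      have he : e (pr2 (single x 1) (single y 1)) =
          eps F2 (single x 1) * eps F2 (single y 1) := by simp [e, pr2_single]
      rw [he]
      generalize (single x 1 : Tup G →₀ F2) = u
      generalize (single y 1 : Tup G →₀ F2) = v
      simp only [cb_pr2, map_add, hK, map_smul, bdT_cn, sub_eq_add2, eps_bdT, bdT_pt, map_zero,
        LinearMap.add_apply, LinearMap.smul_apply, LinearMap.zero_apply, zero_smul, smul_add,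
        mul_smul]
      ext z
      simp only [Finsupp.add_apply, Finsupp.smul_apply, smul_eq_mul, Finsupp.zero_apply]
      grind
  have he : ∀ c, e (prD F2 cdeg (i + 1) c) = 0 := by
    intro c
    induction c using Finsupp.induction_linear with
    | zero => simp
    | add x y hx hy => simp [hx, hy]
    | single x r =>
      rw [prD_single]
      split_ifs with hx
      · simp only [e, linearCombination_single, eps_single]
        rw [cdeg] at hx
        split_ifs <;> first | omega | simp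
      · simp
  refine ⟨K c, ?_⟩
  have := key c
  rwa [h, map_zero, add_zero, ← hc, he, zero_smul, add_zero, hc] at this

variable [Group G]

theorem cb_smul2 (g h : G) (c : Cell G →₀ F2) :
    cb (c.mapDomain (Prod.map (g • ·) (h • ·))) = (cb c).mapDomain (Prod.map (g • ·) (h • ·)) := by
  induction c using cell_induction with
  | h0 => simp
  | hadd x y hx hy => simp [hx, hy, mapDomain_add]
  | h1 x y => simp only [mapDomain_pr2, cb_pr2, bdT_smul, mapDomain_add]

theorem cb_smul (g : G) (c : Cell G →₀ F2) :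
    cb (c.mapDomain (g • ·)) = (cb c).mapDomain (g • ·) := cb_smul2 g g c

theorem cs_smul (g : G) (c : Cell G →₀ F2) :
    cs (c.mapDomain (g • ·)) = (cs c).mapDomain (g • ·) := by
  simp only [cs, lmapDomain_apply, ← mapDomain_comp]
  rfl

theorem cdeg_smul (g : G) (c : Cell G) : cdeg (g • c) = cdeg c := by simp [cdeg]

theorem cell_free (g : G) (c : Cell G) (h : g • c = c) : g = 1 :=
  Tup.free g c.1 (congrArg Prod.fst h)

end Pool.Agent.MP_4f4d9f_gt.Sg

end

section

/-! Weakly Hughes-free implies independence of cosets. -/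

namespace Pool.Agent.MP_4f4d9f_gt.Sg

namespace Coset

open scoped Classical

variable {G D : Type} [Group G] [DivisionRing D] {ι : G →* D}

theorem val_bind (L : Multiset (Mon G D)) (M : Mon G D → Multiset (Mon G D)) :
    val ι (L.bind M) = (L.map fun x => val ι (M x)).sum := by
  induction L using Multiset.induction_on with
  | empty => simp [val]
  | cons x L ih => rw [Multiset.cons_bind, val_add, ih, Multiset.map_cons, Multiset.sum_cons]

omit [Group G] [DivisionRing D] in
theorem wt_bind (L : Multiset (Mon G D)) (M : Mon G D → Multiset (Mon G D)) :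
    wt (L.bind M) = (L.map fun x => wt (M x)).sum := by
  induction L using Multiset.induction_on with
  | empty => simp [wt]
  | cons x L ih =>
    rw [Multiset.cons_bind, Multiset.map_cons, Multiset.sum_cons, ← ih]
    simp [wt]

theorem p_val (p : D →+ D) (L : Multiset (Mon G D)) :
    p (val ι L) = (L.map fun x => p (x.2.1 * ι x.2.2)).sum := by
  rw [val, map_multiset_sum, Multiset.map_map]
  rfl

variable {H N : Subgroup G} {deg : G → ℤ} {t : G} {p : ℤ → D →+ D}

theorem p_hom (hp : Expn ι H N deg p) {u : D} (hu : u ∈ dcl ι N) {g : G} (hg : g ∈ H) (k : ℤ) :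
    p k (u * ι g) = if deg g = k then u * ι g else 0 := by
  rw [hp.shift g hg, hp.hom u hu]
  by_cases h : deg g = k
  · simp [h]
  · rw [if_neg (by omega), if_neg h, zero_mul]

theorem p_filter (hp : Expn ι H N deg p) (k : ℤ) (M : Multiset (Mon G D))
    (hM : ∀ z ∈ M, z.2.1 ∈ dcl ι N ∧ z.2.2 ∈ H) :
    p k (val ι M) = val ι (M.filter fun z => deg z.2.2 = k) := by
  induction M using Multiset.induction_on with
  | empty => simp [val]
  | cons x M ih =>
    have hx := hM x (Multiset.mem_cons_self _ _)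
    rw [val_cons, map_add, ih fun z hz => hM z (Multiset.mem_cons_of_mem hz),
      p_hom hp hx.1 hx.2]
    by_cases h : deg x.2.2 = k
    · rw [if_pos h, Multiset.filter_cons_of_pos (p := fun z : Mon G D => deg z.2.2 = k) _ h,
        val_cons]
    · rw [if_neg h, Multiset.filter_cons_of_neg (p := fun z : Mon G D => deg z.2.2 = k) _ h,
        zero_add]

/-- The component of degree `k` of a monomial. -/
theorem comp [CharP D 2] (h3 : ExpandStmt) (hG : Grad ι H N deg t) (hp : Expn ι H N deg p)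
    {K : Subgroup G} {S₀ : Set G} (hH : S₀ ⊆ H) (hK : S₀ ⊆ K) (k : ℤ) (x : Mon G D)
    (hx : Pure ι S₀ x.1 x.2.1) (hg : x.2.2 ∈ H) :
    ∃ M : Multiset (Mon G D), (∀ z ∈ M, Pure ι K z.1 z.2.1 ∧ z.2.2 * x.2.2⁻¹ ∈ K) ∧
      val ι M = p k (x.2.1 * ι x.2.2) ∧ wt M ≤ eW x.1 ∧
      (¬(Pure ι (S₀ ∩ N) x.1 x.2.1 ∧ deg x.2.2 = k) → wt M < eW x.1) := by
  by_cases hP : Pure ι (S₀ ∩ N) x.1 x.2.1
  · have hu : x.2.1 ∈ dcl ι N := hP.mem Set.inter_subset_right
    by_cases hd : deg x.2.2 = k
    · refine ⟨{x}, fun z hz => ?_, ?_, (wt_singleton x).le, fun h => absurd ⟨hP, hd⟩ h⟩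
      · rw [Multiset.mem_singleton.1 hz]
        exact ⟨hx.mono hK, by simp⟩
      · rw [val_singleton, p_hom hp hu hg, if_pos hd]
    · refine ⟨0, by simp, ?_, W.nonneg _, fun _ => eW_pos _⟩
      rw [val_zero, p_hom hp hu hg, if_neg hd]
  · obtain ⟨Lx, hL, hA⟩ :=
      (h3 G D ι H N deg t p hG hp S₀ hH x.1 x.2.1 hx).resolve_left hP (k - deg x.2.2 + 1)
    have hlt : wt ((shiftM x.2.2 Lx).filter fun z => deg z.2.2 = k) < eW x.1 :=
      (wt_mono (Multiset.filter_le _ _)).trans_lt (by
        rw [wt_shiftM]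
        exact wt_lt fun z hz => (hL z hz).1)
    refine ⟨(shiftM x.2.2 Lx).filter fun z => deg z.2.2 = k, fun z hz => ?_, ?_, hlt.le,
      fun _ => hlt⟩
    · obtain ⟨y, hy, rfl⟩ := Multiset.mem_map.1 (Multiset.mem_of_mem_filter hz)
      refine ⟨(hL y hy).2.1.mono fun s hs => (Subgroup.closure_le K).2 hK hs.1, ?_⟩
      simpa using (Subgroup.closure_le K).2 hK (hL y hy).2.2
    · rw [← p_filter hp, val_shiftM, hp.shift _ hg, hp.shift _ hg, hA _ (by omega)]
      intro z hz
      obtain ⟨y, hy, rfl⟩ := Multiset.mem_map.1 hz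
      exact ⟨(hL y hy).2.1.mem fun s hs => hs.2,
        mul_mem ((Subgroup.closure_le H).2 hH (hL y hy).2.2) hg⟩

/-- The statement proved by induction on the weight. -/
def Main (ι : G →* D) (L : Multiset (Mon G D)) : Prop :=
  ∀ K : Subgroup G, (∀ x ∈ L, Pure ι K x.1 x.2.1) → val ι L = 0 →
    ∀ τ : G, val ι (L.filter fun x => x.2.2 * τ⁻¹ ∈ K) = 0

omit [DivisionRing D] in
theorem filter_bind_eq {K : Subgroup G} (τ : G) (L : Multiset (Mon G D))
    (M : Mon G D → Multiset (Mon G D)) (hM : ∀ x ∈ L, ∀ z ∈ M x, z.2.2 * x.2.2⁻¹ ∈ K) :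
    ((L.bind M).filter fun x => x.2.2 * τ⁻¹ ∈ K) =
      (L.filter fun x => x.2.2 * τ⁻¹ ∈ K).bind M := by
  induction L using Multiset.induction_on with
  | empty => simp
  | cons x L ih =>
    have hx := hM x (Multiset.mem_cons_self _ _)
    rw [Multiset.cons_bind, Multiset.filter_add,
      ih fun z hz => hM z (Multiset.mem_cons_of_mem hz)]
    by_cases h : x.2.2 * τ⁻¹ ∈ K
    · rw [Multiset.filter_cons_of_pos (p := fun z : Mon G D => z.2.2 * τ⁻¹ ∈ K) _ h,
        Multiset.cons_bind, Multiset.filter_eq_self.2]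
      intro z hz
      simpa [mul_assoc] using mul_mem (hx z hz) h
    · rw [Multiset.filter_cons_of_neg (p := fun z : Mon G D => z.2.2 * τ⁻¹ ∈ K) _ h,
        Multiset.filter_eq_nil.2, zero_add]
      intro z hz hz'
      exact h (by simpa [mul_assoc] using mul_mem (inv_mem (hx z hz)) hz')

theorem inner [CharP D 2] (h1 : OreStmt) (h2 : ExpnStmt) (h3 : ExpandStmt) (hW : WHF ι)
    (L : Multiset (Mon G D)) (ih : ∀ L' : Multiset (Mon G D), wt L' < wt L → Main ι L')
    (h0 : ∃ x ∈ L, x.2.2 = 1) (K : Subgroup G) (hv : val ι L = 0) (τ : G) (S : Finset G) :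
    ∀ S₀ : Set G, S₀ ⊆ S → S₀ ⊆ K → (∀ x ∈ L, Pure ι S₀ x.1 x.2.1 ∧ x.2.2 ∈ S) →
      val ι (L.filter fun x => x.2.2 * τ⁻¹ ∈ K) = 0 := by
  induction S using Finset.strongInduction with
  | H S ihS =>
  intro S₀ hS hK hL
  have hU : ∀ x ∈ L, x.2.2 ∈ Subgroup.closure (S : Set G) := fun x hx =>
    Subgroup.subset_closure (Finset.mem_coe.2 (hL x hx).2)
  have hH : S₀ ⊆ Subgroup.closure (S : Set G) := hS.trans Subgroup.subset_closure
  by_cases hb : Subgroup.closure (S : Set G) = ⊥
  · have hu : ∀ x ∈ L, x.2.2 = 1 := fun x hx => by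
      have := hU x hx
      rwa [hb, Subgroup.mem_bot] at this
    by_cases h : τ⁻¹ ∈ K
    · rw [Multiset.filter_eq_self.2, hv]
      intro x hx
      rwa [hu x hx, one_mul]
    · rw [Multiset.filter_eq_nil.2, val_zero]
      intro x hx
      rwa [hu x hx, one_mul]
  obtain ⟨N, deg, t, hG⟩ := hW S hb
  obtain ⟨p, hp⟩ := h2 G D ι _ N deg t hG (h1 G D ι _ N deg t hG)
  by_cases hall : ∀ x ∈ L, Pure ι (S₀ ∩ N) x.1 x.2.1 ∧ x.2.2 ∈ N
  · refine ihS (S.filter (· ∈ N)) ?_ (S₀ ∩ N) ?_ (Set.inter_subset_left.trans hK) ?_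
    · obtain ⟨s, hs, hs'⟩ := hG.exists_not_mem
      exact Finset.filter_ssubset.2 ⟨s, Finset.mem_coe.1 hs, hs'⟩
    · intro s hs
      exact Finset.mem_coe.2 (Finset.mem_filter.2 ⟨Finset.mem_coe.1 (hS hs.1), hs.2⟩)
    · intro x hx
      exact ⟨(hall x hx).1, Finset.mem_filter.2 ⟨(hL x hx).2, (hall x hx).2⟩⟩
  refine hp.sep _ (val_mem fun x hx => ?_) fun k => ?_
  · have hx' := Multiset.mem_of_mem_filter hx
    exact ⟨(hL x hx').1.mem hH, hU x hx'⟩
  choose! M hM using fun x (hx : x ∈ L) => comp h3 hG hp hH hK k x (hL x hx).1 (hU x hx)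
  have hval : ∀ L' : Multiset (Mon G D), (∀ x ∈ L', x ∈ L) →
      val ι (L'.bind M) = p k (val ι L') := fun L' hL' => by
    rw [val_bind, p_val]
    exact congrArg _ (Multiset.map_congr rfl fun x hx => (hM x (hL' x hx)).2.1)
  have hlt : wt (L.bind M) < wt L := by
    rw [wt_bind, wt]
    refine Multiset.sum_lt_sum (fun x hx => (hM x hx).2.2.1) ?_
    by_contra hc
    have hc' : ∀ x ∈ L, Pure ι (S₀ ∩ N) x.1 x.2.1 ∧ deg x.2.2 = k := fun x hx => by
      by_contra h
      exact hc ⟨x, hx, (hM x hx).2.2.2 h⟩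
    obtain ⟨x₀, hx₀, e⟩ := h0
    have hk : k = 0 := by rw [← (hc' x₀ hx₀).2, e, hG.one]
    exact hall fun x hx => ⟨(hc' x hx).1, (hG.mem _).2 ⟨hU x hx, (hc' x hx).2.trans hk⟩⟩
  have := ih _ hlt K (fun z hz => by
    obtain ⟨x, hx, hz⟩ := Multiset.mem_bind.1 hz
    exact ((hM x hx).1 z hz).1) (by rw [hval L fun _ h => h, hv, map_zero]) τ
  rwa [filter_bind_eq τ L M fun x hx z hz => ((hM x hx).1 z hz).2,
    hval _ fun x hx => Multiset.mem_of_mem_filter hx] at this

theorem main [CharP D 2] (h1 : OreStmt) (h2 : ExpnStmt) (h3 : ExpandStmt) (hW : WHF ι) (β : W) :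
    ∀ L : Multiset (Mon G D), wt L = β → Main ι L := by
  induction β using WellFoundedLT.induction with
  | ind β ihβ =>
  rintro L rfl K hL hv τ
  rcases L.empty_or_exists_mem with rfl | ⟨x₀, hx₀⟩
  · rfl
  have hP : ∀ x ∈ shiftM x₀.2.2⁻¹ L, Pure ι K x.1 x.2.1 := fun x hx => by
    obtain ⟨y, hy, rfl⟩ := Multiset.mem_map.1 hx
    exact hL y hy
  choose! T hT hT' using fun x hx => (hP x hx).fin
  have key := inner h1 h2 h3 hW (shiftM x₀.2.2⁻¹ L)
    (fun L' h => ihβ _ (by rwa [wt_shiftM] at h) L' rfl)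
    ⟨_, Multiset.mem_map_of_mem _ hx₀, mul_inv_cancel _⟩ K
    (by rw [val_shiftM, hv, zero_mul]) (τ * x₀.2.2⁻¹)
    ((shiftM x₀.2.2⁻¹ L).toFinset.biUnion fun x => insert x.2.2 (T x))
    {s | ∃ x ∈ shiftM x₀.2.2⁻¹ L, s ∈ T x}
    (by
      rintro s ⟨x, hx, hs⟩
      exact Finset.mem_coe.2 (Finset.mem_biUnion.2
        ⟨x, Multiset.mem_toFinset.2 hx, Finset.mem_insert_of_mem hs⟩))
    (by
      rintro s ⟨x, hx, hs⟩
      exact hT x hx hs)
    fun x hx => ⟨(hT' x hx).mono fun s hs => ⟨x, hx, hs⟩, Finset.mem_biUnion.2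
      ⟨x, Multiset.mem_toFinset.2 hx, Finset.mem_insert_self _ _⟩⟩
  have e : ((shiftM x₀.2.2⁻¹ L).filter fun x => x.2.2 * (τ * x₀.2.2⁻¹)⁻¹ ∈ K) =
      shiftM x₀.2.2⁻¹ (L.filter fun x => x.2.2 * τ⁻¹ ∈ K) := by
    rw [shiftM, shiftM, Multiset.filter_map]
    refine congrArg _ (Multiset.filter_congr fun x _ => ?_)
    simp [mul_assoc]
  rw [e, val_shiftM] at key
  exact (mul_eq_zero.1 key).resolve_right (iota_ne_zero ι _)

theorem val_sum {A : Type} (T : Finset A) (M : A → Multiset (Mon G D)) :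
    val ι (∑ a ∈ T, M a) = ∑ a ∈ T, val ι (M a) := by
  induction T using Finset.induction_on with
  | empty => simp [val]
  | insert a T ha ih => rw [Finset.sum_insert ha, Finset.sum_insert ha, val_add, ih]

omit [Group G] [DivisionRing D] in
theorem filter_sum {A : Type} (q : Mon G D → Prop) (T : Finset A) (M : A → Multiset (Mon G D)) :
    (∑ a ∈ T, M a).filter q = ∑ a ∈ T, (M a).filter q := by
  induction T using Finset.induction_on with
  | empty => simp
  | insert a T ha ih =>
    rw [Finset.sum_insert ha, Finset.sum_insert ha, Multiset.filter_add, ih]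

end Coset

theorem coset_stmt (h1 : OreStmt) (h2 : ExpnStmt) (h3 : ExpandStmt) : CosetStmt := by
  classical
  intro G D _ _ _ ι hW H T d hd hT h0 τ hτ
  choose! L hL hL' using fun σ hσ => exists_val (hd σ hσ)
  have key := Coset.main h1 h2 h3 hW _ (∑ σ ∈ T, shiftM σ (L σ)) rfl H
    (fun x hx => by
      obtain ⟨σ, hσ, hx⟩ := Multiset.mem_sum.1 hx
      obtain ⟨y, hy, rfl⟩ := Multiset.mem_map.1 hx
      exact (hL σ hσ y hy).1)
    (by
      rw [Coset.val_sum, ← h0]
      exact Finset.sum_congr rfl fun σ hσ => by rw [val_shiftM, hL' σ hσ]) τ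
  rw [Coset.filter_sum, Finset.sum_eq_single_of_mem τ hτ, Multiset.filter_eq_self.2,
    val_shiftM, hL' τ hτ] at key
  · exact (mul_eq_zero.1 key).resolve_right (iota_ne_zero ι _)
  · intro x hx
    obtain ⟨y, hy, rfl⟩ := Multiset.mem_map.1 hx
    simpa using (hL τ hτ y hy).2
  · intro σ hσ hne
    refine Multiset.filter_eq_nil.2 fun x hx hx' => hne (hT σ hσ τ hτ ?_)
    obtain ⟨y, hy, rfl⟩ := Multiset.mem_map.1 hx
    simpa [mul_assoc] using mul_mem (inv_mem (hL σ hσ y hy).2) hx'

end Pool.Agent.MP_4f4d9f_gt.Sg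

end

section

/-! Moments of integral positive definite matrices. -/

open scoped Matrix
open Finset

namespace Pool.Agent.MP_4f4d9f_gt.Sg

namespace Det

theorem scalar {c δ : ℝ} (hc : 1 ≤ c) (hδ : 0 < δ) : ∃ (j : ℕ) (K : ℝ), 0 < K ∧
    Real.log c / K ≤ δ / 2 ∧ ∀ l : ℝ, 0 < l → l ≤ c →
      (c - l) ^ (2 * j) ≤ c ^ (2 * j) * ((Real.log c - Real.log l) / K + δ / 2) := by
  have h0 : 0 ≤ Real.log c := Real.log_nonneg hc
  have hc0 : 0 < c := by linarith
  set K := 2 * (Real.log c + 1) / δ with hK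
  have hK0 : 0 < K := by positivity
  have h1 : 0 < Real.exp (-K) := Real.exp_pos _
  have h2 : Real.exp (-K) < 1 := Real.exp_lt_one_iff.2 (by linarith)
  obtain ⟨j, hj⟩ := exists_pow_lt_of_lt_one (half_pos hδ) (y := (1 - Real.exp (-K)) ^ 2)
    (pow_lt_one₀ (by linarith) (by linarith) two_ne_zero)
  refine ⟨j, K, hK0, ?_, fun l hl hlc => ?_⟩
  · rw [div_le_iff₀ hK0, hK]
    field_simp
    linarith
  have e : c - l = c * (1 - l / c) := by field_simp
  have h3 : l / c ≤ 1 := (div_le_one hc0).2 hlc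
  have h4 : 0 < l / c := by positivity
  have h5 : Real.log c - Real.log l = - Real.log (l / c) := by
    rw [Real.log_div hl.ne' hc0.ne']
    ring
  rw [e, mul_pow, h5]
  refine mul_le_mul_of_nonneg_left ?_ (by positivity)
  rcases le_total (l / c) (Real.exp (-K)) with h | h
  · have h6 : Real.log (l / c) ≤ -K := (Real.log_le_iff_le_exp h4).2 h
    have h7 : 1 ≤ - Real.log (l / c) / K := by
      rw [le_div_iff₀ hK0]
      linarith
    have h8 : (1 - l / c) ^ (2 * j) ≤ 1 := pow_le_one₀ (by linarith) (by linarith)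
    linarith
  · have h6 : 0 ≤ - Real.log (l / c) / K :=
      div_nonneg (neg_nonneg.2 (Real.log_nonpos h4.le h3)) hK0.le
    have h7 : (1 - l / c) ^ (2 * j) ≤ (1 - Real.exp (-K)) ^ (2 * j) :=
      pow_le_pow_left₀ (by linarith) (by linarith) _
    rw [← pow_mul] at hj
    linarith

variable {I : Type} [Fintype I] [DecidableEq I] {A : Matrix I I ℝ}

theorem eig_le (hA : A.IsHermitian) {c : ℝ} (h : ∀ x, ∑ y, |A x y| ≤ c) (i : I) :
    hA.eigenvalues i ≤ c := by
  have h1 : Module.End.HasEigenvalue (Matrix.toLin' A) (hA.eigenvalues i) :=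
    Module.End.hasEigenvalue_of_hasEigenvector (x := ⇑(hA.eigenvectorBasis i))
      ⟨Module.End.mem_eigenspace_iff.2 (hA.mulVec_eigenvectorBasis i),
        (WithLp.ofLp_eq_zero 2).ne.2 (hA.eigenvectorBasis.orthonormal.ne_zero i)⟩
  obtain ⟨k, hk⟩ := eigenvalue_mem_ball h1
  rw [mem_closedBall_iff_norm] at hk
  have h2 := h k
  rw [← add_sum_erase _ _ (mem_univ k)] at h2
  simp only [Real.norm_eq_abs] at hk
  linarith [le_abs_self (hA.eigenvalues i - A k k), le_abs_self (A k k)]

theorem trace_pow (hA : A.IsHermitian) (c : ℝ) (n : ℕ) :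
    ((c • (1 : Matrix I I ℝ) - A) ^ n).trace = ∑ i, (c - hA.eigenvalues i) ^ n := by
  have e : c • (1 : Matrix I I ℝ) - A = Unitary.conjStarAlgAut ℝ _ hA.eigenvectorUnitary
      (Matrix.diagonal fun i => c - hA.eigenvalues i) := by
    have e1 : (Matrix.diagonal fun i => c - hA.eigenvalues i) =
        c • (1 : Matrix I I ℝ) - Matrix.diagonal (RCLike.ofReal ∘ hA.eigenvalues) := by
      rw [Matrix.smul_one_eq_diagonal, Matrix.diagonal_sub]
      rfl
    rw [e1, map_sub, map_smul, map_one, ← hA.spectral_theorem]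
  rw [e, ← map_pow, Unitary.conjStarAlgAut_apply, Matrix.trace_mul_cycle,
    Unitary.star_mul_self_of_mem hA.eigenvectorUnitary.2, Matrix.one_mul, Matrix.diagonal_pow,
    Matrix.trace_diagonal]
  rfl

theorem sum_sq (hA : A.IsHermitian) (c : ℝ) (j : ℕ) :
    ∑ x, ∑ y, ((c • (1 : Matrix I I ℝ) - A) ^ j) y x ^ 2 =
      ∑ i, (c - hA.eigenvalues i) ^ (2 * j) := by
  have h1 : (c • (1 : Matrix I I ℝ) - A).IsHermitian := by
    refine Matrix.IsHermitian.sub ?_ hA
    rw [Matrix.smul_one_eq_diagonal]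
    exact Matrix.isHermitian_diagonal _
  rw [← trace_pow, two_mul, pow_add, Matrix.trace]
  refine sum_congr rfl fun x _ => ?_
  rw [Matrix.diag_apply, Matrix.mul_apply]
  refine sum_congr rfl fun y _ => ?_
  rw [← (h1.pow j).apply x y, star_trivial, sq]

end Det

theorem det_stmt : DetStmt := by
  intro c hc δ hδ
  have hc1 : (1 : ℝ) ≤ c := by exact_mod_cast hc
  obtain ⟨j, K, hK, h1, h2⟩ := Det.scalar hc1 hδ
  refine ⟨j, fun I _ _ M hM hr => ?_⟩
  have e : ∀ x y, (((((c : ℤ) • (1 : Matrix I I ℤ) - M) ^ j) y x : ℤ) : ℝ) =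
      (((c : ℝ) • (1 : Matrix I I ℝ) - M.map (Int.cast : ℤ → ℝ)) ^ j) y x := by
    intro x y
    have e1 : (c : ℝ) • (1 : Matrix I I ℝ) - M.map (Int.cast : ℤ → ℝ) =
        (Int.castRingHom ℝ).mapMatrix ((c : ℤ) • (1 : Matrix I I ℤ) - M) := by
      rw [map_sub, map_zsmul, map_one, ← Int.cast_smul_eq_zsmul ℝ, Int.cast_natCast]
      rfl
    rw [e1, ← map_pow]
    rfl
  simp only [e]
  rw [Det.sum_sq hM.1]
  have hp := hM.eigenvalues_pos
  have hl := Det.eig_le hM.1 (c := c) fun x => by
    simp only [Matrix.map_apply]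
    exact_mod_cast hr x
  have hd : 0 ≤ ∑ i, Real.log (hM.1.eigenvalues i) := by
    rw [← Real.log_prod fun i _ => (hp i).ne']
    refine Real.log_nonneg ?_
    have h3 := hM.1.det_eq_prod_eigenvalues
    have h4 := hM.det_pos
    have h5 : (M.map (Int.cast : ℤ → ℝ)).det = (M.det : ℤ) := (Int.cast_det M).symm
    rw [h5] at h3 h4
    have h6 : (1 : ℝ) ≤ (M.det : ℤ) := by exact_mod_cast (show 0 < M.det by exact_mod_cast h4)
    exact h6.trans_eq h3
  calc _ ≤ ∑ i, (c : ℝ) ^ (2 * j) * ((Real.log c - Real.log (hM.1.eigenvalues i)) / K + δ / 2) :=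
        sum_le_sum fun i _ => h2 _ (hp i) (hl i)
    _ = (c : ℝ) ^ (2 * j) * (Fintype.card I * (Real.log c / K + δ / 2) -
          (∑ i, Real.log (hM.1.eigenvalues i)) / K) := by
        rw [← mul_sum, sum_add_distrib, ← sum_div, sum_sub_distrib, sum_const, sum_const,
          card_univ, nsmul_eq_mul, nsmul_eq_mul]
        ring
    _ ≤ (c : ℝ) ^ (2 * j) * (Fintype.card I * δ) := by
        refine mul_le_mul_of_nonneg_left ?_ (by positivity)
        have h3 := div_nonneg hd hK.le
        have h4 : (Fintype.card I : ℝ) * (Real.log c / K + δ / 2) ≤ Fintype.card I * δ :=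
          mul_le_mul_of_nonneg_left (by linarith) (by positivity)
        linarith
    _ = _ := by ring

end Pool.Agent.MP_4f4d9f_gt.Sg

end

section

/-! Laurent expansions of pure products have coefficients of smaller complexity. -/

namespace Pool.Agent.MP_4f4d9f_gt.Sg

namespace Expand

variable {G D : Type} [Group G] [DivisionRing D] {ι : G →* D} {H N K : Subgroup G} {deg : G → ℤ}
  {t : G} {p : ℤ → D →+ D} {P Q R : W → Prop}

/-- Sums of homogeneous monomials with bounded complexities. -/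
def Good (ι : G →* D) (N K : Subgroup G) (P : W → Prop) (L : Multiset (Mon G D)) : Prop :=
  ∀ x ∈ L, P x.1 ∧ Pure ι (K ⊓ N : Subgroup G) x.1 x.2.1 ∧ x.2.2 ∈ K

/-- Limits of such sums. -/
def Ap (ι : G →* D) (H N K : Subgroup G) (p : ℤ → D →+ D) (P : W → Prop) (d : D) : Prop :=
  d ∈ dcl ι H ∧ ∀ A : ℤ, ∃ L, Good ι N K P L ∧ ∀ i < A, p i d = p i (val ι L)

theorem pure_mem {α : W} {u : D} (h : Pure ι (K ⊓ N : Subgroup G) α u) : u ∈ dcl ι N :=
  h.mem fun _ hx => hx.2

theorem Good.mem (hg : Grad ι H N deg t) (hK : K ≤ H) {L : Multiset (Mon G D)}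
    (h : Good ι N K P L) : val ι L ∈ dcl ι H :=
  val_mem fun x hx => ⟨dcl_mono hg.le (pure_mem (h x hx).2.1), hK (h x hx).2.2⟩

theorem p_mon (hp : Expn ι H N deg p) {u : D} (hu : u ∈ dcl ι N) {g : G} (h : g ∈ H) (i : ℤ) :
    p i (u * ι g) = if deg g = i then u * ι g else 0 := by
  rw [hp.shift g h, hp.hom u hu]
  by_cases e : deg g = i
  · rw [if_pos e, if_pos (by omega)]
  · rw [if_neg e, if_neg (by omega), zero_mul]

theorem Good.p_val (hp : Expn ι H N deg p) (hK : K ≤ H) {L : Multiset (Mon G D)}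
    (h : Good ι N K P L) (i : ℤ) : p i (val ι L) = val ι (L.filter fun x => deg x.2.2 = i) := by
  induction L using Multiset.induction_on with
  | empty => simp [val]
  | cons x L ih =>
    have hx := h x (Multiset.mem_cons_self x L)
    rw [val_cons, map_add, ih fun y hy => h y (Multiset.mem_cons_of_mem hy),
      p_mon hp (pure_mem hx.2.1) (hK hx.2.2)]
    by_cases e : deg x.2.2 = i
    · rw [if_pos e, Multiset.filter_cons_of_pos (p := fun x : Mon G D => deg x.2.2 = i) _ e,
        val_cons]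
    · rw [if_neg e, Multiset.filter_cons_of_neg (p := fun x : Mon G D => deg x.2.2 = i) _ e,
        zero_add]

theorem conj_mem (hg : Grad ι H N deg t) (hK : K ≤ H) {g : G} (h : g ∈ K) {k : G}
    (hk : k ∈ K ⊓ N) : g * k * g⁻¹ ∈ K ⊓ N :=
  ⟨K.mul_mem (K.mul_mem h hk.1) (K.inv_mem h), hg.conj (hK h) hk.2⟩

theorem Good.prod (hg : Grad ι H N deg t) (hK : K ≤ H) (hR : ∀ a b, P a → Q b → R (a + b))
    {L L' : Multiset (Mon G D)} (h : Good ι N K P L) (h' : Good ι N K Q L') :
    Good ι N K R (prodM ι L L') := fun z hz => by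
  obtain ⟨x, hx, y, hy, rfl⟩ := mem_prodM.1 hz
  exact ⟨hR _ _ (h x hx).1 (h' y hy).1, (h x hx).2.1.mul' ((h' y hy).2.1.conj _ fun s hs =>
    conj_mem hg hK (h x hx).2.2 hs), mul_mem (h x hx).2.2 (h' y hy).2.2⟩

theorem Good.ap (hg : Grad ι H N deg t) (hK : K ≤ H) {L : Multiset (Mon G D)}
    (h : Good ι N K P L) : Ap ι H N K p P (val ι L) :=
  ⟨h.mem hg hK, fun _ => ⟨L, h, fun _ _ => rfl⟩⟩

theorem ap_mon (hg : Grad ι H N deg t) (hK : K ≤ H) {α : W} {u : D} {g : G} (h1 : P α)
    (h2 : Pure ι (K ⊓ N : Subgroup G) α u) (h3 : g ∈ K) : Ap ι H N K p P (u * ι g) := by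
  have h : Good ι N K P {(α, u, g)} := fun x hx => by
    rw [Multiset.mem_singleton.1 hx]
    exact ⟨h1, h2, h3⟩
  have := h.ap (p := p) hg hK
  rwa [val_singleton] at this

theorem ap_pure (hg : Grad ι H N deg t) (hK : K ≤ H) {α : W} {u : D} (h1 : P α)
    (h2 : Pure ι (K ⊓ N : Subgroup G) α u) : Ap ι H N K p P u := by
  have := ap_mon (p := p) hg hK h1 h2 K.one_mem
  rwa [map_one, mul_one] at this

theorem ap_zero : Ap ι H N K p P 0 :=
  ⟨zero_mem _, fun _ => ⟨0, fun _ hx => absurd hx (Multiset.notMem_zero _), fun _ _ => rfl⟩⟩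

theorem Ap.mono {d : D} (h : Ap ι H N K p P d) (hP : ∀ a, P a → Q a) : Ap ι H N K p Q d :=
  ⟨h.1, fun A => (h.2 A).imp fun _ hL => ⟨fun x hx => ⟨hP _ (hL.1 x hx).1, (hL.1 x hx).2⟩, hL.2⟩⟩

theorem Ap.add {d e : D} (h : Ap ι H N K p P d) (h' : Ap ι H N K p P e) :
    Ap ι H N K p P (d + e) := by
  refine ⟨add_mem h.1 h'.1, fun A => ?_⟩
  obtain ⟨L, h1, h2⟩ := h.2 A
  obtain ⟨L', h3, h4⟩ := h'.2 A
  exact ⟨L + L', fun x hx => (Multiset.mem_add.1 hx).elim (h1 x) (h3 x), fun i hi => by
    rw [val_add, map_add, map_add, h2 i hi, h4 i hi]⟩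

theorem Ap.mul (hg : Grad ι H N deg t) (hp : Expn ι H N deg p) (hK : K ≤ H)
    (hR : ∀ a b, P a → Q b → R (a + b)) {d e : D} (h : Ap ι H N K p P d)
    (h' : Ap ι H N K p Q e) : Ap ι H N K p R (d * e) := by
  refine ⟨mul_mem h.1 h'.1, fun A => ?_⟩
  obtain ⟨a, ha⟩ := hp.low d
  obtain ⟨b, hb⟩ := hp.low e
  obtain ⟨L, h1, h2⟩ := h.2 (A - b)
  obtain ⟨L', h3, h4⟩ := h'.2 (A - min a (A - b))
  refine ⟨prodM ι L L', h1.prod hg hK hR h3, fun i hi => ?_⟩
  have k1 := hp.filt (d - val ι L) (sub_mem h.1 (h1.mem hg hK)) e h'.1 (A - b) b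
    (fun j hj => by rw [map_sub, h2 j hj, sub_self]) hb i (by omega)
  have k2 := hp.filt (val ι L) (h1.mem hg hK) (e - val ι L') (sub_mem h'.1 (h3.mem hg hK))
    (min a (A - b)) (A - min a (A - b))
    (fun j hj => by rw [← h2 j (by omega), ha j (by omega)])
    (fun j hj => by rw [map_sub, h4 j hj, sub_self]) i (by omega)
  have e1 : d * e = val ι L * val ι L' + (d - val ι L) * e + val ι L * (e - val ι L') := by
    rw [sub_mul, mul_sub]
    abel
  rw [val_prodM, e1, map_add, map_add, k1, k2, add_zero, add_zero]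

theorem ap_limit {d : D} (hd : d ∈ dcl ι H)
    (h : ∀ A : ℤ, ∃ e, Ap ι H N K p P e ∧ ∀ i < A, p i d = p i e) : Ap ι H N K p P d := by
  refine ⟨hd, fun A => ?_⟩
  obtain ⟨e, h1, h2⟩ := h A
  obtain ⟨L, h3, h4⟩ := h1.2 A
  exact ⟨L, h3, fun i hi => (h2 i hi).trans (h4 i hi)⟩

theorem ap_one (hg : Grad ι H N deg t) (hK : K ≤ H) (c : W) :
    Ap ι H N K p (· < eW c) (1 : D) := ap_pure hg hK (eW_pos c) .one

theorem Ap.geom (hg : Grad ι H N deg t) (hp : Expn ι H N deg p) (hK : K ≤ H) {c : W} {r : D}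
    (h : Ap ι H N K p (· < eW c) r) (M : ℕ) :
    Ap ι H N K p (· < eW c) (∑ j ∈ Finset.range M, r ^ j) := by
  have h1 : ∀ j : ℕ, Ap ι H N K p (· < eW c) (r ^ j) := fun j => by
    induction j with
    | zero => rw [pow_zero]; exact ap_one hg hK c
    | succ j ih => rw [pow_succ]; exact ih.mul hg hp hK (fun _ _ => add_lt_eW) h
  induction M with
  | zero => exact ap_zero
  | succ M ih => rw [Finset.sum_range_succ]; exact ih.add (h1 M)

theorem pow_low (hp : Expn ι H N deg p) {r : D} (hr : r ∈ dcl ι H) (h : ∀ i < 1, p i r = 0)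
    (M : ℕ) : ∀ i < (M : ℤ), p i (r ^ M) = 0 := by
  induction M with
  | zero =>
    intro i hi
    rw [pow_zero, hp.hom 1 (one_mem _), if_neg (by omega)]
  | succ M ih =>
    intro i hi
    rw [pow_succ]
    exact hp.filt _ (pow_mem hr M) r hr M 1 ih h i (by omega)

theorem ap_inv_one [CharP D 2] (hg : Grad ι H N deg t) (hp : Expn ι H N deg p) (hK : K ≤ H)
    {c : W} {s : D} (h : Ap ι H N K p (· < eW c) s) (hs : s ≠ 0)
    (h1 : ∀ i < 1, p i (s + 1) = 0) : Ap ι H N K p (· < eW c) s⁻¹ := by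
  have h2 := h.add (ap_one hg hK c)
  refine ap_limit (inv_mem h.1) fun A => ?_
  obtain ⟨b, hb⟩ := hp.low s⁻¹
  refine ⟨_, h2.geom hg hp hK (A - b).toNat, fun i hi => ?_⟩
  have k1 := hp.filt _ (pow_mem h2.1 (A - b).toNat) s⁻¹ (inv_mem h.1) _ b
    (pow_low hp h2.1 h1 (A - b).toNat) hb i (by omega)
  have k2 := geom_sum_mul (s + 1) (A - b).toNat
  rw [add_sub_cancel_right, CharTwo.sub_eq_add (R := D)] at k2
  have k3 : ∑ j ∈ Finset.range (A - b).toNat, (s + 1) ^ j =
      (s + 1) ^ (A - b).toNat * s⁻¹ + s⁻¹ := by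
    rw [← add_one_mul, ← k2, mul_inv_cancel_right₀ hs]
  rw [k3, map_add, k1, zero_add]

theorem ap_inv [CharP D 2] (hg : Grad ι H N deg t) (hp : Expn ι H N deg p) (hK : K ≤ H)
    {c : W} {q : D} (hq : q ∈ dcl ι H)
    (h : ∀ A : ℤ, ∃ L, Good ι N K (· < eW c) L ∧ (∀ i < A, p i q = p i (val ι L)) ∧
      ∀ k, wt (L.filter fun x => deg x.2.2 = k) < c) : Ap ι H N K p (· < eW c) q⁻¹ := by
  by_cases h0 : q = 0
  · rw [h0, inv_zero]
    exact ap_zero
  obtain ⟨a, ha, ha'⟩ := Int.exists_least_of_bdd (P := fun i => p i q ≠ 0)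
    ((hp.low q).imp fun b hb z hz => not_lt.1 fun e => hz (hb z e))
    (not_forall.1 fun e => h0 (hp.sep q hq e))
  obtain ⟨L, h1, h2, h3⟩ := h (a + 1)
  have e1 : p a q = val ι (L.filter fun x => deg x.2.2 = a) := by
    rw [h2 a (by omega), h1.p_val hp hK]
  obtain ⟨x₀, hx₀⟩ := (L.filter fun x => deg x.2.2 = a).empty_or_exists_mem.resolve_left
    fun e => ha (by rw [e1, e, val_zero])
  obtain ⟨k1, k2⟩ := Multiset.mem_filter.1 hx₀
  have k3 := (h1 x₀ k1).2.2
  obtain ⟨π, k4, k5⟩ := inv_val (ι := ι) (K' := K ⊓ N) hx₀ (fun x hx => by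
      obtain ⟨k6, k7⟩ := Multiset.mem_filter.1 hx
      exact ⟨(h1 x k6).2.1, K.mul_mem (h1 x k6).2.2 (K.inv_mem k3),
        hg.mul_inv_mem (hK (h1 x k6).2.2) (hK k3) (k7.trans k2.symm)⟩)
    fun k hk => conj_mem hg hK (inv_mem k3) hk
  rw [← e1] at k5
  have k6 : Ap ι H N K p (· < eW c) (p a q)⁻¹ := by
    rw [k5]
    exact ap_mon hg hK (eW_strictMono (h3 a)) k4 (inv_mem k3)
  have k7 : Ap ι H N K p (· < eW c) q := ⟨hq, fun A => (h A).imp fun _ hL => ⟨hL.1, hL.2.1⟩⟩
  have k8 := ap_inv_one hg hp hK (k6.mul hg hp hK (fun _ _ => add_lt_eW) k7)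
    (mul_ne_zero (inv_ne_zero ha) h0) fun i hi => by
      rw [map_add, k5, hp.left π (pure_mem k4) _ (hK (inv_mem k3)) q hq, ← k5, hg.inv (hK k3), k2,
        hp.hom 1 (one_mem _)]
      by_cases e : i = 0
      · rw [if_pos e, e, sub_neg_eq_add, zero_add, inv_mul_cancel₀ ha, CharTwo.add_self_eq_zero]
      · rw [if_neg e, not_not.1 fun e' => absurd (ha' (i - -a) e') (by omega), mul_zero, add_zero]
  have k9 := k8.mul (R := (· < eW c)) hg hp hK (fun _ _ => add_lt_eW) k6
  rwa [mul_inv_rev, inv_inv, mul_inv_cancel_right₀ ha] at k9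

theorem val_bind (F : Mon G D → Multiset (Mon G D)) (L : Multiset (Mon G D)) :
    val ι (L.bind F) = (L.map fun x => val ι (F x)).sum := by
  induction L using Multiset.induction_on with
  | empty => simp [val]
  | cons x L ih => rw [Multiset.cons_bind, val_add, ih, Multiset.map_cons, Multiset.sum_cons]

theorem wt_bind (F : Mon G D → Multiset (Mon G D)) (f : Mon G D → Prop) [DecidablePred f]
    (L : Multiset (Mon G D)) :
    wt ((L.bind F).filter f) = (L.map fun x => wt ((F x).filter f)).sum := by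
  induction L using Multiset.induction_on with
  | empty => simp [wt]
  | cons x L ih =>
    rw [Multiset.cons_bind, Multiset.filter_add, wt_add, ih, Multiset.map_cons, Multiset.sum_cons]

theorem weak (hp : Expn ι H N deg p) (hK : K ≤ H) {S : Set G}
    (hS : S ⊆ K) {x : Mon G D} (hx : x.2.2 ∈ K)
    (h : Pure ι (S ∩ N) x.1 x.2.1 ∨ Ap ι H N K p (· < x.1) x.2.1) (A : ℤ) :
    ∃ M, Good ι N K (· ≤ x.1) M ∧ (∀ i < A, p i (x.2.1 * ι x.2.2) = p i (val ι M)) ∧
      ∀ k, wt (M.filter fun y => deg y.2.2 = k) ≤ eW x.1 ∧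
        (¬ (Pure ι (S ∩ N) x.1 x.2.1 ∧ deg x.2.2 = k) →
          wt (M.filter fun y => deg y.2.2 = k) < eW x.1) := by
  by_cases h0 : Pure ι (S ∩ N) x.1 x.2.1
  · refine ⟨{x}, fun y hy => ?_, fun i _ => by rw [val_singleton], fun k => ⟨?_, fun e => ?_⟩⟩
    · rw [Multiset.mem_singleton.1 hy]
      exact ⟨le_rfl, h0.mono fun s hs => ⟨hS hs.1, hs.2⟩, hx⟩
    · rw [← wt_singleton]
      exact wt_mono (Multiset.filter_le _ _)
    · rw [Multiset.filter_eq_nil.2 fun y hy e' =>
        e ⟨h0, by rwa [Multiset.mem_singleton.1 hy] at e'⟩]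
      exact eW_pos _
  · obtain ⟨M, h1, h2⟩ := (h.resolve_left h0).2 (A - deg x.2.2)
    have h3 : ∀ k, wt ((shiftM x.2.2 M).filter fun y => deg y.2.2 = k) < eW x.1 := fun k =>
      (wt_mono (Multiset.filter_le _ _)).trans_lt (by
        rw [wt_shiftM]
        exact wt_lt fun y hy => (h1 y hy).1)
    refine ⟨shiftM x.2.2 M, fun y hy => ?_, fun i hi => ?_, fun k => ⟨(h3 k).le, fun _ => h3 k⟩⟩
    · obtain ⟨z, hz, rfl⟩ := Multiset.mem_map.1 hy
      exact ⟨(h1 z hz).1.le, (h1 z hz).2.1, mul_mem (h1 z hz).2.2 hx⟩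
    · rw [val_shiftM, hp.shift _ (hK hx), hp.shift _ (hK hx), h2 _ (by omega)]

theorem main [CharP D 2] (hg : Grad ι H N deg t) (hp : Expn ι H N deg p) (hK : K ≤ H) {S : Set G}
    (hS : S ⊆ K) {α : W} {π : D} (h : Pure ι S α π) :
    Pure ι (S ∩ N) α π ∨ Ap ι H N K p (· < α) π := by
  have hSN : S ∩ N ⊆ (K ⊓ N : Subgroup G) := fun s hs => ⟨hS hs.1, hs.2⟩
  induction h with
  | one => exact Or.inl .one
  | @mul L h0 h1 h2 γ π _ ih1 ih2 =>
    by_cases hA : ∀ x ∈ L, Pure ι (S ∩ N) x.1 x.2.1 ∧ x.2.2 ∈ N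
    · have k1 : ∀ x ∈ L, x.2.2 ∈ S ∩ N := fun x hx => ⟨h1 x hx, (hA x hx).2⟩
      refine ih2.imp (Pure.mul L (fun x hx => (hA x hx).1) k1 h2) fun k2 => ?_
      have k3 := Pure.mul L (fun x hx => (hA x hx).1) k1 h2 .one
      rw [add_zero, mul_one] at k3
      exact (ap_pure (P := (· ≤ eW (wt L))) hg hK le_rfl (k3.mono hSN)).mul hg hp hK
        (fun _ _ => add_lt_add_of_le_of_lt) k2
    · have k1 : Ap ι H N K p (· ≤ γ) π :=
        ih2.elim (fun k => ap_pure hg hK le_rfl (k.mono hSN)) fun k => k.mono fun _ => le_of_lt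
      refine Or.inr (Ap.mul hg hp hK (fun _ _ => add_lt_add_of_lt_of_le) (ap_inv hg hp hK
        (val_mem fun x hx => ⟨(h0 x hx).mem (hS.trans hK), hK (hS (h1 x hx))⟩) fun A => ?_) k1)
      choose! M hM1 hM2 hM3 using fun x hx => weak hp hK hS (hS (h1 x hx)) (ih1 x hx) A
      refine ⟨L.bind M, fun y hy => ?_, fun i hi => ?_, fun k => ?_⟩
      · obtain ⟨x, hx, hy'⟩ := Multiset.mem_bind.1 hy
        exact ⟨((hM1 x hx y hy').1.trans_lt (lt_wt hx)).trans (lt_eW _), (hM1 x hx y hy').2⟩
      · rw [val_bind, val, map_multiset_sum, map_multiset_sum, Multiset.map_map, Multiset.map_map]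
        exact congrArg _ (Multiset.map_congr rfl fun x hx => hM2 x hx i hi)
      · rw [wt_bind]
        refine Multiset.sum_lt_sum (fun x hx => (hM3 x hx k).1) ?_
        by_contra hc
        have k2 : ∀ x ∈ L, Pure ι (S ∩ N) x.1 x.2.1 ∧ deg x.2.2 = k := fun x hx => by
          by_contra e
          exact hc ⟨x, hx, (hM3 x hx k).2 e⟩
        obtain ⟨x₀, hx₀, e⟩ := h2
        have k3 : k = 0 := by rw [← (k2 x₀ hx₀).2, e, hg.one]
        exact hA fun x hx => ⟨(k2 x hx).1,
          (hg.mem _).2 ⟨hK (hS (h1 x hx)), (k2 x hx).2.trans k3⟩⟩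

end Expand

theorem expand_stmt : ExpandStmt := by
  intro G D _ _ _ ι H N deg t p hg hp S hS α π h
  exact (Expand.main hg hp ((Subgroup.closure_le H).2 hS) Subgroup.subset_closure h).imp id
    fun k => k.2

end Pool.Agent.MP_4f4d9f_gt.Sg

end

section

/-! Passing to the division closure, flatness from injectivity, and unbundled resolutions. -/

namespace Pool.Agent.MP_4f4d9f_gt.Sg

namespace Gen

section Closure

variable {G D : Type} [Group G] [DivisionRing D] (ι : G →* D)

/-- The corestriction to the division closure. -/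
def res : G →* dcl ι ⊤ := ι.codRestrict (dcl ι ⊤) fun g => iota_mem (Subgroup.mem_top g)

theorem coe_res (g : G) : (res ι g : D) = ι g := rfl

theorem mem_dcl (K : Subgroup G) (x : dcl ι ⊤) : x ∈ dcl (res ι) K ↔ (x : D) ∈ dcl ι K := by
  have e : (dcl (res ι) K).map (dcl ι ⊤).subtype = dcl ι K := by
    refine (RingHom.map_field_closure _ _).trans ?_
    rw [Set.image_image]
    rfl
  rw [← e, Subfield.mem_map]
  exact ⟨fun h => ⟨x, h, rfl⟩, fun ⟨y, hy, e⟩ => Subtype.ext e ▸ hy⟩

theorem grad {H N : Subgroup G} {deg : G → ℤ} {t : G} (h : Grad ι H N deg t) :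
    Grad (res ι) H N deg t where
  mul := h.mul
  mem := h.mem
  tmem := h.tmem
  tdeg := h.tdeg
  ind c hc e := by
    have h1 := h.ind (c.mapRange (dcl ι ⊤).subtype (map_zero _))
      (fun i => (mem_dcl ι N _).1 (hc i)) (by
        rw [Finsupp.sum_mapRange_index (by simp)]
        have := congrArg (dcl ι ⊤).subtype e
        rw [map_finsuppSum, map_zero] at this
        exact this)
    ext i
    simpa using DFunLike.congr_fun h1 i

theorem subtype_ev (a : MonoidAlgebra ℤ G) : (dcl ι ⊤).subtype (ev (res ι) a) = ev ι a := by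
  induction a using MonoidAlgebra.induction_linear with
  | zero => simp
  | add x y hx hy => rw [map_add, map_add, map_add, hx, hy]
  | single g n => rw [ev_single, ev_single, map_zsmul]; rfl

end Closure

section Rep

variable {G C E : Type} [Group G] [AddCommGroup C] [AddCommGroup E]

/-- An equivariant map factors through its image. -/
theorem factor {ρ : Representation ℤ G C} {ρE : Representation ℤ G E} (f : C →ₗ[ℤ] E)
    (hf : Eqv ρ ρE f) : ∃ (C' : Type) (_ : AddCommGroup C') (ρ' : Representation ℤ G C')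
      (p : C →ₗ[ℤ] C') (i : C' →ₗ[ℤ] E), Eqv ρ ρ' p ∧ Eqv ρ' ρE i ∧ Function.Surjective p ∧
        Function.Injective i ∧ ∀ c, i (p c) = f c := by
  let R : AddSubgroup E := f.toAddMonoidHom.range
  have hR : ∀ g, ∀ x : R, ρE g x ∈ R := by
    rintro g ⟨_, c, rfl⟩
    exact ⟨ρ g c, hf g c⟩
  let act : G → R →+ R := fun g =>
    AddMonoidHom.mk' (fun x => ⟨ρE g x, hR g x⟩) fun x y => Subtype.ext (map_add (ρE g) _ _)
  let ρ' : @Representation ℤ G R _ _ _ (AddCommGroup.toIntModule R) :=
    { toFun := fun g => (act g).toIntLinearMap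
      map_one' := LinearMap.ext fun x => Subtype.ext (by
        change ρE 1 x = x
        rw [map_one]; rfl)
      map_mul' := fun g h => LinearMap.ext fun x => Subtype.ext (by
        change ρE (g * h) x = ρE g (ρE h x)
        rw [map_mul]; rfl) }
  exact ⟨R, inferInstance, ρ', f.toAddMonoidHom.rangeRestrict.toIntLinearMap,
    R.subtype.toIntLinearMap, fun g c => Subtype.ext (hf g c), fun _ _ => rfl,
    f.toAddMonoidHom.rangeRestrict_surjective, Subtype.val_injective, fun _ => rfl⟩

/-- Right exactness of the tensor product. -/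
theorem ker_surj {N : Type} [Ring N] (ι : G →* N) {ρ : Representation ℤ G C}
    {ρE : Representation ℤ G E} (p : C →ₗ[ℤ] E) (hp : Eqv ρ ρE p) (hs : Function.Surjective p)
    (z : Tens ι ρ) (hz : Tens.map ι p hp z = 0) :
    z ∈ Submodule.span N {w | ∃ c, p c = 0 ∧ w = Tens.of ι ρ c} := by
  set U := Submodule.span N {w | ∃ c, p c = 0 ∧ w = Tens.of ι ρ c}
  choose s hs using hs
  have key : ∀ c c', p c = p c' → U.mkQ (Tens.of ι ρ c) = U.mkQ (Tens.of ι ρ c') := by
    intro c c' h
    rw [Submodule.mkQ_apply, Submodule.mkQ_apply, Submodule.Quotient.eq, ← map_sub]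
    exact Submodule.subset_span ⟨c - c', by rw [map_sub, h, sub_self], rfl⟩
  let φ : E →+ (Tens ι ρ ⧸ U) := AddMonoidHom.mk' (fun x => U.mkQ (Tens.of ι ρ (s x)))
    fun x y => by
      rw [← map_add, ← map_add]
      exact key _ _ (by rw [map_add, hs, hs, hs])
  have hφ : ∀ g x, φ.toIntLinearMap (ρE g x) = ι g • φ.toIntLinearMap x := by
    intro g x
    change U.mkQ (Tens.of ι ρ (s (ρE g x))) = ι g • U.mkQ (Tens.of ι ρ (s x))
    rw [← map_smul, ← Tens.of_rep]
    exact key _ _ (by rw [hs, hp, hs])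
  have e : Tens.lift ι φ.toIntLinearMap hφ ∘ₗ Tens.map ι p hp = U.mkQ :=
    Tens.hom_ext ι fun c => by
      rw [LinearMap.comp_apply, Tens.map_of, Tens.lift_of]
      exact key _ _ (hs _)
  have := LinearMap.congr_fun e z
  rw [LinearMap.comp_apply, hz, map_zero] at this
  exact (Submodule.Quotient.mk_eq_zero U).1 this.symm

/-- The representation attached to a module over the group ring. -/
noncomputable def modRep (G M : Type) [Group G] [AddCommGroup M] [Module (MonoidAlgebra ℤ G) M] :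
    Representation ℤ G M where
  toFun g := (DistribSMul.toAddMonoidHom M
    (MonoidAlgebra.single g 1 : MonoidAlgebra ℤ G)).toIntLinearMap
  map_one' := LinearMap.ext fun x => one_smul (MonoidAlgebra ℤ G) x
  map_mul' g h := LinearMap.ext fun x => by
    change (MonoidAlgebra.single (g * h) 1 : MonoidAlgebra ℤ G) • x =
      (MonoidAlgebra.single g 1 : MonoidAlgebra ℤ G) •
        (MonoidAlgebra.single h 1 : MonoidAlgebra ℤ G) • x
    rw [← mul_smul, MonoidAlgebra.single_mul_single, one_mul]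

theorem modRep_apply {M : Type} [AddCommGroup M] [Module (MonoidAlgebra ℤ G) M] (g : G) (x : M) :
    modRep G M g x = (MonoidAlgebra.single g 1 : MonoidAlgebra ℤ G) • x := rfl

theorem single_smul {M : Type} [AddCommGroup M] [Module (MonoidAlgebra ℤ G) M] (g : G) (n : ℤ)
    (x : M) : (MonoidAlgebra.single g n : MonoidAlgebra ℤ G) • x = n • modRep G M g x := by
  rw [modRep_apply, ← Int.cast_smul_eq_zsmul (MonoidAlgebra ℤ G), ← mul_smul, ← zsmul_eq_mul,
    MonoidAlgebra.smul_single, smul_eq_mul, mul_one]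

/-- Equivariant additive maps are linear over the group ring. -/
def toLin {M M' : Type} [AddCommGroup M] [Module (MonoidAlgebra ℤ G) M] [AddCommGroup M']
    [Module (MonoidAlgebra ℤ G) M'] (f : M →ₗ[ℤ] M') (hf : Eqv (modRep G M) (modRep G M') f) :
    M →ₗ[MonoidAlgebra ℤ G] M' where
  toFun := f
  map_add' := f.map_add
  map_smul' r x := by
    induction r using MonoidAlgebra.induction_linear with
    | zero => simp
    | add a b ha hb => rw [add_smul, map_add, ha, hb, map_add, add_smul]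
    | single g n => rw [RingHom.id_apply, single_smul, single_smul, map_zsmul, hf]

theorem eqv_lin {M M' : Type} [AddCommGroup M] [Module (MonoidAlgebra ℤ G) M] [AddCommGroup M']
    [Module (MonoidAlgebra ℤ G) M'] (f : M →ₗ[MonoidAlgebra ℤ G] M') :
    Eqv (modRep G M) (modRep G M') f.toAddMonoidHom.toIntLinearMap :=
  fun _ c => f.map_smul _ c

theorem exists_module (ρ : Representation ℤ G C) :
    ∃ _ : Module (MonoidAlgebra ℤ G) C, modRep G C = ρ :=
  ⟨Module.compHom C ρ.asAlgebraHom.toRingHom, MonoidHom.ext fun g => LinearMap.ext fun x =>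
    LinearMap.congr_fun (ρ.asAlgebraHom_single_one g) x⟩

theorem proj_modRep (M : Type) [AddCommGroup M] [Module (MonoidAlgebra ℤ G) M]
    [Module.Projective (MonoidAlgebra ℤ G) M] : Proj (modRep G M) := by
  intro D E _ _ ρD ρE π φ hπ hφ hs
  obtain ⟨C', _, ρ', p, i, hp, hi, hps, hii, e⟩ := factor π hπ
  obtain ⟨_, rfl⟩ := exists_module ρD
  obtain ⟨_, rfl⟩ := exists_module ρ'
  choose x hx using hs
  let φ' : M →+ C' := AddMonoidHom.mk' (fun c => p (x c)) fun a b => hii (by
    rw [map_add, e, e, e, hx, hx, hx, map_add])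
  have hφ' : Eqv (modRep G M) (modRep G C') φ'.toIntLinearMap := fun g c => hii (by
    change i (p (x _)) = i (modRep G C' g (p (x c)))
    rw [hi, e, e, hx, hx, hφ])
  obtain ⟨ψ, hψ⟩ := Module.projective_lifting_property (toLin p hp) (toLin _ hφ') hps
  refine ⟨_, eqv_lin ψ, fun c => ?_⟩
  have h1 : p (ψ c) = p (x c) := LinearMap.congr_fun hψ c
  rw [← e, ← hx, ← e, ← h1]
  rfl

theorem fg_modRep (M : Type) [AddCommGroup M] [Module (MonoidAlgebra ℤ G) M]
    [h : Module.Finite (MonoidAlgebra ℤ G) M] : RepFG (modRep G M) := by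
  obtain ⟨S, hS⟩ := h.fg_top
  refine ⟨S, eq_top_iff.2 fun c _ => ?_⟩
  have hc : c ∈ Submodule.span (MonoidAlgebra ℤ G) (S : Set M) := hS ▸ Submodule.mem_top
  have key : ∀ r : MonoidAlgebra ℤ G,
      r • c ∈ AddSubgroup.closure {c | ∃ g : G, ∃ s ∈ S, c = modRep G M g s} := by
    induction hc using Submodule.span_induction with
    | mem y hy =>
      intro r
      induction r using MonoidAlgebra.induction_linear with
      | zero => rw [zero_smul]; exact zero_mem _
      | add a b ha hb => rw [add_smul]; exact add_mem ha hb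
      | single g n =>
        rw [single_smul]
        refine zsmul_mem (AddSubgroup.subset_closure ?_) n
        exact ⟨g, y, hy, rfl⟩
    | zero => intro r; rw [smul_zero]; exact zero_mem _
    | add y z _ _ hy hz => intro r; rw [smul_add]; exact add_mem (hy trivial r) (hz trivial r)
    | smul a y _ hy => intro r; rw [← mul_smul]; exact hy trivial _
  simpa using key 1

end Rep

end Gen

theorem gen_stmt : GenStmt := by
  intro G D _ _ ι hc hw ha
  refine ⟨dcl ι ⊤, inferInstance, Gen.res ι, ⟨fun n => ?_⟩, fun S hS => ?_, fun m A hA => ?_,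
    eq_top_iff.2 fun x _ => (Gen.mem_dcl ι ⊤ x).2 x.2⟩
  · rw [← CharP.cast_eq_zero_iff D 2 n, ← map_natCast (dcl ι ⊤).subtype,
      map_eq_zero_iff _ Subtype.val_injective]
  · obtain ⟨N, deg, t, h⟩ := hw S hS
    exact ⟨N, deg, t, Gen.grad ι h⟩
  · refine ha m A ?_
    have := hA.map (dcl ι ⊤).subtype.mapMatrix
    rw [RingHom.mapMatrix_apply, Matrix.map_map] at this
    convert this using 2
    exact funext fun a => (Gen.subtype_ev ι a).symm

theorem flat_stmt : FlatStmt := by
  intro G D _ _ ι h C B _ _ ρ hB f hf z hz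
  obtain ⟨C', _, ρ', p, i, hp, hi, hps, hii, e⟩ := Gen.factor f hf
  have e1 : Tens.map (dg ι) i hi ∘ₗ Tens.map (dg ι) p hp = Tens.map (dg ι) f hf :=
    Tens.hom_ext _ fun c => by simp only [LinearMap.comp_apply, Tens.map_of, e]
  have h1 : Tens.map (dg ι) p hp z = 0 := h C' B ρ' hB i hi hii (by
    rw [← LinearMap.comp_apply, e1, hz, map_zero])
  refine Submodule.span_mono ?_ (Gen.ker_surj (dg ι) p hp hps z h1)
  rintro _ ⟨c, hc, rfl⟩
  exact ⟨c, by rw [← e, hc, map_zero], rfl⟩

open CategoryTheory in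
theorem res_stmt : ResStmt := by
  rintro K _ m ⟨P, hP⟩
  let e : (P.complex.X 0) →ₗ[MonoidAlgebra ℤ K] (Representation.trivial ℤ K ℤ).asModule :=
    (P.π.f 0).hom
  let ε : (P.complex.X 0) →+ ℤ :=
    (Representation.trivial ℤ K ℤ).asModuleEquiv.toAddEquiv.toAddMonoidHom.comp e.toAddMonoidHom
  refine ⟨fun k => P.complex.X k, fun _ => inferInstance, fun k => Gen.modRep K _,
    fun k => (P.complex.d (k + 1) k).hom.toAddMonoidHom.toIntLinearMap, ε.toIntLinearMap,
    ⟨fun k => Gen.eqv_lin _, fun g c => ?_, fun c => ?_, fun k c => ?_, ?_, fun c hc => ?_,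
      fun k c hc => ?_, fun k => Gen.proj_modRep _⟩, Gen.fg_modRep _⟩
  · change (Representation.trivial ℤ K ℤ).asModuleEquiv
      (e ((MonoidAlgebra.single g 1 : MonoidAlgebra ℤ K) • c)) =
        (Representation.trivial ℤ K ℤ).asModuleEquiv (e c)
    rw [map_smul, Representation.asModuleEquiv_map_smul, Representation.asAlgebraHom_single_one]
    rfl
  · exact LinearMap.congr_fun (congrArg ModuleCat.Hom.hom P.complex_d_comp_π_f_zero) c
  · exact LinearMap.congr_fun
      (congrArg ModuleCat.Hom.hom (P.complex.d_comp_d (k + 2) (k + 1) k)) c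
  · exact (ModuleCat.epi_iff_surjective (P.π.f 0)).1 inferInstance (1 : ℤ)
  · exact (ShortComplex.moduleCat_exact_iff _).1 P.exact₀ c hc
  · exact (ShortComplex.moduleCat_exact_iff _).1 (P.exact_succ k) c hc

end Pool.Agent.MP_4f4d9f_gt.Sg

end

section

/-! The Ore localisation of the group ring over the field with two elements. -/

open scoped Matrix

namespace Pool.Agent.MP_4f4d9f_gt.Sg

namespace Loc

section Gen

variable {S K : Type} [Ring S] [DivisionRing K]

theorem ne_of_inj {J : S →+* K} (hJ : Function.Injective J) {s : S} (hs : s ≠ 0) : J s ≠ 0 :=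
  fun h => hs (hJ (by rw [h, map_zero]))

theorem mul_ne {J : S →+* K} (hJ : Function.Injective J) {s t : S} (hs : s ≠ 0) (ht : t ≠ 0) :
    s * t ≠ 0 := fun h =>
  mul_ne_zero (ne_of_inj hJ hs) (ne_of_inj hJ ht) (by rw [← map_mul, h, map_zero])

theorem one_ne (J : S →+* K) : (1 : S) ≠ 0 := fun h =>
  (one_ne_zero : (1 : K) ≠ 0) (by rw [← map_one J, h, map_zero])

/-- The left fractions form a division subring. -/
def frac (J : S →+* K) (hJ : Function.Injective J) (hO : LOre S) : Subfield K where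
  carrier := {d | ∃ s x : S, s ≠ 0 ∧ J s * d = J x}
  mul_mem' := by
    rintro d d' ⟨s, x, hs, h⟩ ⟨s', x', hs', h'⟩
    obtain ⟨u, v, hu, huv⟩ := hO x s' hs'
    refine ⟨u * s, v * x', mul_ne hJ hu hs, ?_⟩
    calc J (u * s) * (d * d') = J u * (J s * d) * d' := by rw [map_mul]; simp only [mul_assoc]
      _ = J (u * x) * d' := by rw [h, map_mul]
      _ = J v * (J s' * d') := by rw [huv, map_mul, mul_assoc]
      _ = J (v * x') := by rw [h', map_mul]
  one_mem' := ⟨1, 1, one_ne J, by rw [mul_one]⟩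
  add_mem' := by
    rintro d d' ⟨s, x, hs, h⟩ ⟨s', x', hs', h'⟩
    obtain ⟨u, v, hu, huv⟩ := hO s s' hs'
    refine ⟨u * s, u * x + v * x', mul_ne hJ hu hs, ?_⟩
    have h1 : J (u * s) * d = J (u * x) := by rw [map_mul, map_mul, mul_assoc, h]
    have h2 : J (u * s) * d' = J (v * x') := by rw [huv, map_mul, map_mul, mul_assoc, h']
    rw [mul_add, h1, h2, map_add]
  zero_mem' := ⟨1, 0, one_ne J, by rw [mul_zero, map_zero]⟩
  neg_mem' := by
    rintro d ⟨s, x, hs, h⟩
    exact ⟨s, -x, hs, by rw [mul_neg, h, map_neg]⟩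
  inv_mem' := by
    rintro d ⟨s, x, hs, h⟩
    by_cases hd : d = 0
    · exact ⟨1, 0, one_ne J, by rw [hd, inv_zero, mul_zero, map_zero]⟩
    · refine ⟨x, s, fun hx => ?_, ?_⟩
      · rw [hx, map_zero] at h
        exact mul_ne_zero (ne_of_inj hJ hs) hd h
      · rw [← h, mul_assoc, mul_inv_cancel₀ hd, mul_one]

theorem mem_frac {J : S →+* K} {hJ : Function.Injective J} {hO : LOre S} {d : K} :
    d ∈ frac J hJ hO ↔ ∃ s x : S, s ≠ 0 ∧ J s * d = J x := Iff.rfl

/-- Common denominators. -/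
theorem common {J : S →+* K} (hJ : Function.Injective J) (hO : LOre S) {I : Type}
    (T : Finset I) (d : I → K) (hd : ∀ τ ∈ T, d τ ∈ frac J hJ hO) :
    ∃ s : S, s ≠ 0 ∧ ∀ τ ∈ T, ∃ x : S, J s * d τ = J x := by
  classical
  induction T using Finset.induction_on with
  | empty => exact ⟨1, one_ne J, fun τ hτ => absurd hτ (Finset.notMem_empty τ)⟩
  | insert a T _ ih =>
    obtain ⟨s, hs, h⟩ := ih fun τ hτ => hd τ (Finset.mem_insert_of_mem hτ)
    obtain ⟨s', x', hs', h'⟩ := mem_frac.1 (hd a (Finset.mem_insert_self a T))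
    obtain ⟨u, v, hu, huv⟩ := hO s s' hs'
    refine ⟨u * s, mul_ne hJ hu hs, fun τ hτ => ?_⟩
    rcases Finset.mem_insert.1 hτ with rfl | hτ
    · exact ⟨v * x', by rw [huv, map_mul, map_mul, mul_assoc, h']⟩
    · obtain ⟨x, hx⟩ := h τ hτ
      exact ⟨u * x, by rw [map_mul, map_mul, mul_assoc, hx]⟩

end Gen

section Grp

variable {k Q : Type} [Ring k] [Group Q] (H : Subgroup Q)

/-- The inclusion of the group ring of a subgroup. -/
noncomputable def inc : MonoidAlgebra k H →+* MonoidAlgebra k Q :=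
  MonoidAlgebra.mapDomainRingHom k H.subtype

/-- The restriction of coefficients to a subgroup. -/
noncomputable def res (u : MonoidAlgebra k Q) : MonoidAlgebra k H :=
  MonoidAlgebra.comapDomain H.subtype H.subtype_injective u

theorem res_coeff (u : MonoidAlgebra k Q) (h : H) : (res H u).coeff h = u.coeff h := rfl

theorem inc_single (h : H) (r : k) :
    inc H (MonoidAlgebra.single h r) = MonoidAlgebra.single (h : Q) r :=
  MonoidAlgebra.mapDomain_single

theorem inc_coeff (a : MonoidAlgebra k H) (h : H) : (inc H a).coeff h = a.coeff h :=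
  Finsupp.mapDomain_apply H.subtype_injective a.coeff h

theorem inc_coeff_out (a : MonoidAlgebra k H) {g : Q} (hg : g ∉ H) : (inc H a).coeff g = 0 :=
  Finsupp.mapDomain_of_notMem_range (f := H.subtype) a.coeff g (by
    rintro ⟨h, rfl⟩
    exact hg h.2)

theorem inc_inj : Function.Injective (inc (k := k) H) :=
  MonoidAlgebra.mapDomain_injective H.subtype_injective

theorem res_mul (u : MonoidAlgebra k Q) (a : MonoidAlgebra k H) :
    res H (u * inc H a) = res H u * a := by
  induction a using MonoidAlgebra.induction_linear with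
  | zero =>
    rw [map_zero, mul_zero, mul_zero]
    exact MonoidAlgebra.comapDomain_zero _ _
  | add a b ha hb =>
    rw [map_add, mul_add, mul_add, ← ha, ← hb]
    exact MonoidAlgebra.comapDomain_add _ _ _ _
  | single h r =>
    apply MonoidAlgebra.coeff_injective
    ext g
    rw [res_coeff, inc_single, MonoidAlgebra.coeff_mul_single_apply,
      MonoidAlgebra.coeff_mul_single_apply, res_coeff]
    rfl

theorem lore_sub (hO : LOre (MonoidAlgebra k Q)) : LOre (MonoidAlgebra k H) := by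
  intro a b hb
  obtain ⟨s, x, hs, h⟩ := hO (inc H a) (inc H b) fun h0 => hb (inc_inj H (by rw [h0, map_zero]))
  obtain ⟨τ, hτ⟩ : ∃ τ, s.coeff τ ≠ 0 := by
    by_contra hcon
    push Not at hcon
    exact hs (MonoidAlgebra.coeff_eq_zero.1 (Finsupp.ext hcon))
  refine ⟨res H (MonoidAlgebra.single τ⁻¹ 1 * s), res H (MonoidAlgebra.single τ⁻¹ 1 * x),
    fun h0 => hτ ?_, ?_⟩
  · have h1 := res_coeff H (MonoidAlgebra.single τ⁻¹ 1 * s) 1
    rw [h0, MonoidAlgebra.coeff_single_mul_apply] at h1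
    simpa using h1.symm
  · rw [← res_mul, ← res_mul, mul_assoc, mul_assoc, h]

variable {K : Type} [DivisionRing K]

theorem shf (hO : LOre (MonoidAlgebra k Q)) (J : MonoidAlgebra k Q →+* K)
    (hJ : Function.Injective J) (j : Q →* K) (hj : ∀ g, j g = J (MonoidAlgebra.single g 1)) :
    SHF j := by
  intro H T d hd hT hsum τ₀ hτ₀
  have hJ' : Function.Injective (J.comp (inc H)) := hJ.comp (inc_inj H)
  have hle : dcl j H ≤ frac (J.comp (inc H)) hJ' (lore_sub H hO) := by
    refine Subfield.closure_le.2 ?_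
    rintro _ ⟨g, hg, rfl⟩
    refine ⟨1, MonoidAlgebra.single ⟨g, hg⟩ 1, one_ne (J.comp (inc H)), ?_⟩
    rw [map_one, one_mul, RingHom.comp_apply, inc_single, hj]
  obtain ⟨s, hs, hx⟩ := common hJ' (lore_sub H hO) T d fun τ hτ => hle (hd τ hτ)
  choose! x hx using hx
  have h0 : ∑ τ ∈ T, inc H (x τ) * MonoidAlgebra.single τ (1 : k) = 0 := by
    apply hJ
    rw [map_zero, map_sum, ← mul_zero ((J.comp (inc H)) s), ← hsum, Finset.mul_sum]
    refine Finset.sum_congr rfl fun τ hτ => ?_
    rw [map_mul, ← hj, ← mul_assoc, hx τ hτ, RingHom.comp_apply]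
  have h1 : x τ₀ = 0 := by
    apply MonoidAlgebra.coeff_injective
    ext h
    have h2 := congrArg (fun u : MonoidAlgebra k Q => u.coeff (h * τ₀)) h0
    simp only [MonoidAlgebra.coeff_sum, Finsupp.finsetSum_apply,
      MonoidAlgebra.coeff_mul_single_apply, mul_one, MonoidAlgebra.coeff_zero,
      Finsupp.zero_apply] at h2
    rw [Finset.sum_eq_single_of_mem τ₀ hτ₀] at h2
    · rw [mul_inv_cancel_right, inc_coeff] at h2
      exact h2
    · intro τ hτ hne
      refine inc_coeff_out H _ fun hm => hne (hT τ₀ hτ₀ τ hτ ?_).symm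
      have h3 := H.mul_mem (H.inv_mem h.2) hm
      rwa [mul_assoc, inv_mul_cancel_left] at h3
  have h4 := hx τ₀ hτ₀
  rw [h1, map_zero] at h4
  exact (mul_eq_zero.1 h4).resolve_left (ne_of_inj hJ' hs)

theorem ev_eq (J : MonoidAlgebra (ZMod 2) Q →+* K) (j : Q →* K)
    (hj : ∀ g, j g = J (MonoidAlgebra.single g 1)) (u : MonoidAlgebra ℤ Q) :
    ev j u = J (MonoidAlgebra.mapRingHom Q (Int.castRingHom (ZMod 2)) u) := by
  induction u using MonoidAlgebra.induction_linear with
  | zero => rw [map_zero, map_zero, map_zero]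
  | add a b ha hb => rw [map_add, map_add, map_add, ha, hb]
  | single g a =>
    rw [ev_single, MonoidAlgebra.mapRingHom_single, hj, ← map_zsmul, MonoidAlgebra.smul_single,
      zsmul_eq_mul, mul_one, eq_intCast]

/-- Half of an element of the integral group ring. -/
noncomputable def half (u : MonoidAlgebra ℤ Q) : MonoidAlgebra ℤ Q :=
  MonoidAlgebra.ofCoeff (u.coeff.mapRange (fun n => n / 2) (by simp))

theorem half_spec (u : MonoidAlgebra ℤ Q) (hu : ∀ g, (2 : ℤ) ∣ u.coeff g) :
    (2 : ℤ) • half u = u := by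
  apply MonoidAlgebra.coeff_injective
  ext g
  rw [MonoidAlgebra.coeff_smul_apply, smul_eq_mul]
  exact Int.mul_ediv_cancel' (hu g)

theorem two_smul_inj (u : MonoidAlgebra ℤ Q) (hu : (2 : ℤ) • u = 0) : u = 0 := by
  apply MonoidAlgebra.coeff_injective
  ext g
  have h := congrArg (fun v : MonoidAlgebra ℤ Q => v.coeff g) hu
  simp only [MonoidAlgebra.coeff_smul_apply, smul_eq_mul, MonoidAlgebra.coeff_zero,
    Finsupp.zero_apply] at h
  simpa using h

theorem mat (J : MonoidAlgebra (ZMod 2) Q →+* K) (hJ : Function.Injective J) (j : Q →* K)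
    (hj : ∀ g, j g = J (MonoidAlgebra.single g 1)) (m : ℕ)
    (A : Matrix (Fin m) (Fin m) (MonoidAlgebra ℤ Q)) (hA : IsUnit (A.map (ev j)))
    (x : Fin m → MonoidAlgebra ℤ Q) (hx : A *ᵥ x = 0) : x = 0 := by
  have even : ∀ y : Fin m → MonoidAlgebra ℤ Q, A *ᵥ y = 0 → ∀ i g, (2 : ℤ) ∣ (y i).coeff g := by
    intro y hy i g
    have h1 : A.map (ev j) *ᵥ (ev j ∘ y) = A.map (ev j) *ᵥ 0 := by
      funext i'
      rw [← RingHom.map_mulVec, hy, Matrix.mulVec_zero, Pi.zero_apply, Pi.zero_apply, map_zero]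
    have h2 : ev j (y i) = 0 := congrFun (Matrix.mulVec_injective_of_isUnit hA h1) i
    rw [ev_eq J j hj, ← map_zero J] at h2
    have h3 := congrArg (fun v : MonoidAlgebra (ZMod 2) Q => v.coeff g) (hJ h2)
    simp only [MonoidAlgebra.coeff_mapRingHom, eq_intCast, MonoidAlgebra.coeff_zero,
      Finsupp.zero_apply] at h3
    exact_mod_cast (ZMod.intCast_zmod_eq_zero_iff_dvd _ 2).1 h3
  have pw : ∀ n : ℕ, ∀ y : Fin m → MonoidAlgebra ℤ Q, A *ᵥ y = 0 →
      ∀ i g, (2 : ℤ) ^ n ∣ (y i).coeff g := by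
    intro n
    induction n with
    | zero => intro y _ i g; rw [pow_zero]; exact one_dvd _
    | succ n ih =>
      intro y hy i g
      have h1 : y = (2 : ℤ) • fun i => half (y i) :=
        funext fun i => (half_spec (y i) (even y hy i)).symm
      have h2 : A *ᵥ (fun i => half (y i)) = 0 := by
        funext i'
        apply two_smul_inj
        have h3 := congrFun hy i'
        rw [h1, Matrix.mulVec_smul] at h3
        exact h3
      have h4 := ih _ h2 i g
      rw [← half_spec (y i) (even y hy i), MonoidAlgebra.coeff_smul_apply, smul_eq_mul, pow_succ']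
      exact mul_dvd_mul_left _ h4
  funext i
  apply MonoidAlgebra.coeff_injective
  ext g
  have h5 := pw ((x i).coeff g).natAbs x hx i g
  refine Int.eq_zero_of_abs_lt_dvd h5 ?_
  rw [Int.abs_eq_natAbs]
  exact_mod_cast Nat.lt_two_pow_self

end Grp

end Loc

open nonZeroDivisors in
theorem loc_stmt : LocStmt := by
  intro Q _ hN hO
  have hne : Nonempty (OreLocalization.OreSet (MonoidAlgebra (ZMod 2) Q)⁰) := by
    refine OreLocalization.nonempty_oreSet_iff_of_noZeroDivisors.2 fun r s => ?_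
    obtain ⟨t, x, ht, h⟩ := hO r s (nonZeroDivisors.coe_ne_zero s)
    exact ⟨x, ⟨t, mem_nonZeroDivisors_of_ne_zero ht⟩, h⟩
  obtain ⟨inst⟩ := hne
  let K : Type := OreLocalization (MonoidAlgebra (ZMod 2) Q)⁰ (MonoidAlgebra (ZMod 2) Q)
  let J : MonoidAlgebra (ZMod 2) Q →+* K := OreLocalization.numeratorRingHom
  have hJ : Function.Injective J :=
    OreLocalization.numeratorHom_inj (S := (MonoidAlgebra (ZMod 2) Q)⁰) fun x hx => hx.1
  let j : Q →* K := J.toMonoidHom.comp (MonoidAlgebra.of (ZMod 2) Q)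
  have hj : ∀ g, j g = J (MonoidAlgebra.single g 1) := fun _ => rfl
  refine ⟨K, inferInstance, j, ?_, Loc.shf hO J hJ j hj, Loc.mat J hJ j hj⟩
  exact charP_of_injective_ringHom (f := J.comp MonoidAlgebra.singleOneRingHom)
    (RingHom.injective _) 2

end Pool.Agent.MP_4f4d9f_gt.Sg

end

section

/-! The division ring as an ultraproduct of Ore localisations. -/

open scoped Matrix

namespace Pool.Agent.MP_4f4d9f_gt.Sg

namespace Ultra

/-- The ultraproduct of a family of division rings. -/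
theorem exists_ultra {I : Type} (U : Ultrafilter I) (K : I → Type) [∀ i, DivisionRing (K i)] :
    ∃ (D : Type) (_ : DivisionRing D) (π : (∀ i, K i) →+* D), Function.Surjective π ∧
      ∀ x, π x = 0 ↔ ∀ᶠ i in U, x i = 0 := by
  let c : RingCon (∀ i, K i) :=
    { r := fun x y => ∀ᶠ i in U, x i = y i
      iseqv := ⟨fun _ => Filter.Eventually.of_forall fun _ => rfl,
        fun h => h.mono fun _ h => h.symm, fun h h' => (h.and h').mono fun _ h => h.1.trans h.2⟩
      mul' := fun h h' => (h.and h').mono fun i h => by rw [Pi.mul_apply, Pi.mul_apply, h.1, h.2]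
      add' := fun h h' => (h.and h').mono fun i h => by rw [Pi.add_apply, Pi.add_apply, h.1, h.2] }
  have h0 : ∀ x y, c.mk' x = c.mk' y ↔ ∀ᶠ i in U, x i = y i := fun x y => c.eq
  have hs : Function.Surjective c.mk' := fun y => Quotient.exists_rep y
  have h1 : ∀ x, c.mk' x = 0 ↔ ∀ᶠ i in U, x i = 0 := fun x => by
    rw [← map_zero c.mk', h0]; rfl
  have : Nontrivial c.Quotient := ⟨1, 0, fun h => by
    rw [← map_one c.mk', h1] at h
    obtain ⟨i, hi⟩ := h.exists
    exact one_ne_zero (α := K i) hi⟩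
  refine ⟨c.Quotient, DivisionRing.ofIsUnitOrEqZero fun a => ?_, c.mk', hs, h1⟩
  obtain ⟨x, rfl⟩ := hs a
  refine (or_iff_not_imp_right.2 fun h => ?_)
  rw [h1, ← Ultrafilter.eventually_not] at h
  refine ⟨⟨c.mk' x, c.mk' fun i => (x i)⁻¹, ?_, ?_⟩, rfl⟩
  · rw [← map_mul, ← map_one c.mk', h0]
    exact h.mono fun i hi => mul_inv_cancel₀ hi
  · rw [← map_mul, ← map_one c.mk', h0]
    exact h.mono fun i hi => inv_mul_cancel₀ hi

theorem shf_idx {Q K J : Type} [Group Q] [DivisionRing K] [Nonempty J] {j : Q →* K} (h : SHF j)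
    (H : Subgroup Q) (s : Finset J) (τ : J → Q) (d : J → K) (hd : ∀ n ∈ s, d n ∈ dcl j H)
    (hτ : ∀ n ∈ s, ∀ n' ∈ s, τ n * (τ n')⁻¹ ∈ H → n = n') (h0 : ∑ n ∈ s, d n * j (τ n) = 0) :
    ∀ n ∈ s, d n = 0 := by
  classical
  have hinj : Set.InjOn τ s := fun n hn n' hn' e =>
    hτ n hn n' hn' (by rw [e, mul_inv_cancel]; exact H.one_mem)
  have hl : ∀ n ∈ s, Function.invFunOn τ s (τ n) = n := fun n hn => hinj.leftInvOn_invFunOn hn
  have := h H (s.image τ) (fun q => d (Function.invFunOn τ s q)) (fun q hq => ?_)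
    (fun q hq q' hq' e => ?_) ?_
  · intro n hn
    have h1 := this (τ n) (Finset.mem_image_of_mem _ hn)
    rwa [hl n hn] at h1
  · obtain ⟨n, hn, rfl⟩ := Finset.mem_image.1 hq
    rw [hl n hn]
    exact hd n hn
  · obtain ⟨n, hn, rfl⟩ := Finset.mem_image.1 hq
    obtain ⟨n', hn', rfl⟩ := Finset.mem_image.1 hq'
    rw [hτ n hn n' hn' e]
  · rw [Finset.sum_image hinj, ← h0]
    exact Finset.sum_congr rfl fun n hn => by rw [hl n hn]

theorem comp_ev {G N N' : Type} [Group G] [Ring N] [Ring N'] (f : N →+* N') (ι : G →* N) :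
    f.comp (ev ι) = ev ((f : N →* N').comp ι) :=
  MonoidAlgebra.ringHom_ext (fun r => by simp [ev_single]) fun g => by simp [ev_single]

theorem ev_map {G Q N : Type} [Group G] [Group Q] [Ring N] (φ : G →* Q) (j : Q →* N) :
    (ev j).comp (MonoidAlgebra.mapDomainRingHom ℤ φ) = ev (j.comp φ) :=
  MonoidAlgebra.ringHom_ext (fun r => by simp [ev_single]) fun g => by simp [ev_single]

section Core

variable {G I D : Type} [Group G] {U : Ultrafilter I} {P : I → Type} [∀ i, Group (P i)]
  (φ : ∀ i, G →* P i) {K : I → Type} [∀ i, DivisionRing (K i)] (j : ∀ i, P i →* K i)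
  [DivisionRing D] (π : (∀ i, K i) →+* D)

/-- The diagonal map to the product. -/
def dia : G →* ∀ i, K i := MonoidHom.pi fun i => (j i).comp (φ i)

/-- The map to the ultraproduct. -/
def io : G →* D := (π : (∀ i, K i) →* D).comp (dia φ j)

variable {π}

theorem map_inv_pi (h : ∀ x, π x = 0 ↔ ∀ᶠ i in U, x i = 0) (x : ∀ i, K i) :
    π (fun i => (x i)⁻¹) = (π x)⁻¹ := by
  by_cases h0 : π x = 0
  · rw [h0, inv_zero, h]
    exact ((h x).1 h0).mono fun i hi => by rw [hi, inv_zero]
  · rw [h, ← Ultrafilter.eventually_not] at h0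
    refine eq_inv_of_mul_eq_one_left ?_
    rw [← map_mul, ← map_one π, ← sub_eq_zero, ← map_sub, h]
    exact h0.mono fun i hi => sub_eq_zero.2 (inv_mul_cancel₀ hi)

theorem lift_dcl (h : ∀ x, π x = 0 ↔ ∀ᶠ i in U, x i = 0) (N : Subgroup G) {d : D}
    (hd : d ∈ dcl (io φ j π) N) : ∃ x, (∀ i, x i ∈ dcl (j i) (N.map (φ i))) ∧ π x = d := by
  induction hd using Subfield.closure_induction with
  | mem x hx =>
    obtain ⟨g, hg, rfl⟩ := hx
    exact ⟨dia φ j g, fun i => iota_mem (Subgroup.mem_map_of_mem _ hg), rfl⟩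
  | one => exact ⟨1, fun i => one_mem _, map_one π⟩
  | add _ _ _ _ hx hy =>
    obtain ⟨x, hx, rfl⟩ := hx
    obtain ⟨y, hy, rfl⟩ := hy
    exact ⟨x + y, fun i => add_mem (hx i) (hy i), map_add π x y⟩
  | neg _ _ hx =>
    obtain ⟨x, hx, rfl⟩ := hx
    exact ⟨-x, fun i => neg_mem (hx i), map_neg π x⟩
  | inv _ _ hx =>
    obtain ⟨x, hx, rfl⟩ := hx
    exact ⟨fun i => (x i)⁻¹, fun i => inv_mem (hx i), map_inv_pi h x⟩
  | mul _ _ _ _ hx hy =>
    obtain ⟨x, hx, rfl⟩ := hx
    obtain ⟨y, hy, rfl⟩ := hy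
    exact ⟨x * y, fun i => mul_mem (hx i) (hy i), map_mul π x y⟩

theorem grad (h : ∀ x, π x = 0 ↔ ∀ᶠ i in U, x i = 0) (hs : ∀ i, SHF (j i)) (H : Subgroup G)
    (ψ : H →* Multiplicative ℤ) (hψ : Function.Surjective ψ)
    (hk : ∀ᶠ i in U, ∀ a : H, φ i a = 1 → ψ a = 1) :
    ∃ (N : Subgroup G) (deg : G → ℤ) (t : G), Grad (io φ j π) H N deg t := by
  classical
  obtain ⟨t, ht⟩ := hψ (Multiplicative.ofAdd 1)
  refine ⟨ψ.ker.map H.subtype, fun g => if hg : g ∈ H then (ψ ⟨g, hg⟩).toAdd else 0, t,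
    fun a ha b hb => ?_, fun g => ?_, t.2, ?_, fun c hc h0 => ?_⟩
  · rw [dif_pos ha, dif_pos hb, dif_pos (mul_mem ha hb), ← toAdd_mul, ← map_mul]
    rfl
  · constructor
    · rintro ⟨a, ha, rfl⟩
      refine ⟨a.2, ?_⟩
      have : ψ a = 1 := ha
      simp [this]
    · rintro ⟨hg, h0⟩
      rw [dif_pos hg] at h0
      exact ⟨⟨g, hg⟩, h0, rfl⟩
  · simp [ht]
  · choose x hx hx' using fun n => lift_dcl φ j h _ (hc n)
    have h1 : π (∑ n ∈ c.support, x n * dia φ j ((t : G) ^ n)) = 0 := by
      rw [← h0, map_sum, Finsupp.sum]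
      exact Finset.sum_congr rfl fun n _ => by rw [map_mul, hx']; rfl
    have h2 : ∀ᶠ i in U, ∀ n ∈ c.support, x n i = 0 := by
      refine (((h _).1 h1).and hk).mono fun i hi => ?_
      refine shf_idx (hs i) ((ψ.ker.map H.subtype).map (φ i)) c.support
        (fun n => φ i ((t : G) ^ n)) (fun n => x n i) (fun n _ => hx n i) ?_ ?_
      · rintro n - n' - ⟨_, ⟨a, ha, rfl⟩, e⟩
        have h3 : ψ a = 1 := ha
        have h4 := hi.2 (a⁻¹ * (t ^ n * (t ^ n')⁻¹)) (by
          have e' : φ i a = φ i ((t : G) ^ n) * (φ i ((t : G) ^ n'))⁻¹ := e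
          simp only [Subgroup.coe_mul, Subgroup.coe_inv, Subgroup.coe_zpow, map_mul, map_inv]
          rw [e', inv_mul_cancel])
        rw [map_mul, map_inv, h3, inv_one, one_mul, map_mul, map_inv, mul_inv_eq_one, map_zpow,
          map_zpow, ht] at h4
        simpa using congrArg Multiplicative.toAdd h4
      · have := hi.1
        rw [Finset.sum_apply] at this
        exact this
    ext n
    by_contra h3
    refine h3 ?_
    rw [← hx' n, Finsupp.zero_apply, h]
    exact h2.mono fun i hi => hi n (Finsupp.mem_support_iff.2 h3)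

theorem unit_ev (hπ : Function.Surjective π) (h : ∀ x, π x = 0 ↔ ∀ᶠ i in U, x i = 0) {m : ℕ}
    {A : Matrix (Fin m) (Fin m) (MonoidAlgebra ℤ G)} (hA : IsUnit (A.map (ev (io φ j π)))) :
    ∀ᶠ i in U, IsUnit ((A.map (MonoidAlgebra.mapDomainRingHom ℤ (φ i))).map (ev (j i))) := by
  obtain ⟨B, h1, h2⟩ := isUnit_iff_exists.1 hA
  choose σ hσ using hπ
  have e1 : B = π.mapMatrix (B.map σ) := by
    ext a b
    exact (hσ _).symm
  have e2 : A.map (ev (io φ j π)) = π.mapMatrix (A.map (ev (dia φ j))) := by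
    rw [io, ← comp_ev]
    rfl
  have key : ∀ M : Matrix (Fin m) (Fin m) (∀ i, K i), π.mapMatrix M = 1 →
      ∀ᶠ i in U, (Pi.evalRingHom K i).mapMatrix M = 1 := by
    intro M hM
    have h3 : ∀ a b, ∀ᶠ i in U, (M - 1) a b i = 0 := fun a b => (h _).1 (by
      have : π.mapMatrix (M - 1) = 0 := by rw [map_sub, hM, map_one, sub_self]
      exact congrFun (congrFun this a) b)
    refine (Filter.eventually_all.2 fun a => Filter.eventually_all.2 (h3 a)).mono fun i hi => ?_
    rw [← map_one (Pi.evalRingHom K i).mapMatrix, ← sub_eq_zero, ← map_sub]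
    ext a b
    exact hi a b
  rw [e1, e2, ← map_mul] at h1 h2
  refine ((key _ h1).and (key _ h2)).mono fun i hi => ?_
  have e3 : (A.map (MonoidAlgebra.mapDomainRingHom ℤ (φ i))).map (ev (j i)) =
      (Pi.evalRingHom K i).mapMatrix (A.map (ev (dia φ j))) := by
    ext a b
    exact (RingHom.congr_fun (ev_map (φ i) (j i)) (A a b)).trans
      (RingHom.congr_fun (comp_ev (Pi.evalRingHom K i) (dia φ j)) (A a b)).symm
  rw [map_mul, map_mul] at hi
  rw [e3]
  exact isUnit_iff_exists.2 ⟨_, hi⟩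

end Core

end Ultra

open Ultra in
theorem ultra_stmt (h1 : DomStmt) (h2 : TamariStmt) (h3 : PiStmt) (h4 : LocStmt) : UltraStmt := by
  intro G _ hG
  classical
  choose Q grp φ hφ hli hfo using fun g : {g : G // g ≠ 1} => hG g.1 g.2
  let P : Finset {g : G // g ≠ 1} → Type := fun T => ∀ g : T, Q g.1
  let Φ : ∀ T, G →* P T := fun T => MonoidHom.pi fun g : T => φ g.1
  have hF : ∀ T, Folner (P T) (P T) := fun T => (h3 T fun g => Q g.1).2 fun g => hfo g.1
  have hN : ∀ T, NoZeroDivisors (MonoidAlgebra (ZMod 2) (P T)) := fun T => by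
    have := h1 (P T) ((h3 T fun g => Q g.1).1 fun g => hli g.1)
    infer_instance
  choose K inst j hc hs hA using fun T => h4 (P T) (hN T) (h2 (P T) (hF T) (hN T))
  let U : Ultrafilter (Finset {g : G // g ≠ 1}) := Ultrafilter.of Filter.atTop
  have hU : ∀ g : {g : G // g ≠ 1}, ∀ᶠ T : Finset {g : G // g ≠ 1} in U, g ∈ T := fun g =>
    ((Filter.eventually_ge_atTop {g}).mono fun T hT =>
      Finset.singleton_subset_iff.1 hT).filter_mono (Ultrafilter.of_le _)
  obtain ⟨D, _, π, hπ, h⟩ := exists_ultra U K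
  refine ⟨D, inferInstance, io Φ j π, CharTwo.of_one_ne_zero_of_two_eq_zero one_ne_zero ?_,
    fun S hS => ?_, fun m A hu T₀ => ?_⟩
  · rw [← map_ofNat π 2, h]
    exact Filter.Eventually.of_forall fun T => CharTwo.two_eq_zero (R := K T)
  · obtain ⟨⟨g, hg⟩, hg1⟩ := Subgroup.ne_bot_iff_exists_ne_one.1 hS
    have hg1' : g ≠ 1 := fun e => hg1 (Subtype.ext e)
    obtain ⟨ψ, hψ⟩ := hli ⟨g, hg1'⟩ ((Subgroup.closure (S : Set G)).map (φ ⟨g, hg1'⟩))
      ⟨S.image (φ ⟨g, hg1'⟩), by rw [Finset.coe_image, MonoidHom.map_closure]⟩ fun e =>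
        hφ ⟨g, hg1'⟩ (Subgroup.mem_bot.1 (e ▸ Subgroup.mem_map_of_mem _ hg))
    refine grad Φ j h hs _ (ψ.comp ((φ ⟨g, hg1'⟩).subgroupMap _))
      (hψ.comp (MonoidHom.subgroupMap_surjective _ _)) ((hU ⟨g, hg1'⟩).mono fun T hT a ha => ?_)
    have e : (φ ⟨g, hg1'⟩).subgroupMap _ a = 1 := Subtype.ext (congrFun ha ⟨_, hT⟩)
    rw [MonoidHom.comp_apply, e, map_one]
  · have h5 : ∀ᶠ T in U, ∀ g ∈ T₀, Φ T g = 1 → g = 1 := by
      refine (Finset.eventually_all T₀).2 fun g _ => ?_
      by_cases hg : g = 1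
      · exact Filter.Eventually.of_forall fun _ _ => hg
      · exact (hU ⟨g, hg⟩).mono fun T hT e => absurd (congrFun e ⟨_, hT⟩) (hφ ⟨g, hg⟩)
    obtain ⟨T, h6, h7⟩ := (h5.and (unit_ev Φ j hπ h hu)).exists
    exact ⟨P T, inferInstance, Φ T, hF T, h6, hA T m _ h7⟩

end Pool.Agent.MP_4f4d9f_gt.Sg

end
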