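import Pool.Agent.Mg.F4f4d9fr.G715938
import Pool.Agent.Mg.F4f4d9fr.Gf4fb5f
import Pool.Agent.MP_4f4d9f_gt.TensLem
import Pool.Agent.Mg.F4f4d9fr.G787eb1

set_option linter.all false

section

/-! Resolutions of permutation modules. -/

namespace Pool.Agent.MP_4f4d9f_gt.Db

namespace Lab

open Finsupp

variable {G Y A : Type} [Group G] [MulAction G Y]

/-- A family of orbit representatives with their stabilisers. -/
structure Fam (S : A → Subgroup G) (y : A → Y) : Prop where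
  mem : ∀ a g, g ∈ S a ↔ g • y a = y a
  surj : ∀ z, ∃ (g : G) (a : A), z = g • y a
  idx : ∀ (g : G) a a', g • y a = y a' → a = a'

theorem Fam.finite {S : A → Subgroup G} {y : A → Y} (F : Fam S y) (h : Cofin G Y) : Finite A := by
  obtain ⟨T, hT⟩ := h
  choose g hg using hT
  refine Finite.of_injective (fun a => (⟨g (y a) • y a, hg _⟩ : T)) fun a a' e => ?_
  have e' : g (y a) • y a = g (y a') • y a' := congrArg Subtype.val e
  exact F.idx ((g (y a'))⁻¹ * g (y a)) a a' (by rw [mul_smul, e', inv_smul_smul])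

variable (S : A → Subgroup G) (I : A → ℕ → Type)

/-- The cells of the induced complex. -/
def mu (a : A) (j : ℕ) (β : Fr (S a) (I a j)) : Fr G (Σ a, I a j) := ⟨β.g.1, ⟨a, β.i⟩⟩

theorem mu_fam (j : ℕ) : IndFam (fun a => (S a).subtype) (fun a => mu S I a j) where
  eqv _ _ _ := rfl
  surj β' := ⟨β'.g, β'.i.1, ⟨1, β'.i.2⟩, Fr.ext (mul_one _).symm rfl⟩
  idx _ _ _ _ _ e := congrArg (fun β => β.i.1) e
  inj h a β β' e := by
    have e1 : h * β.g.1 = β'.g.1 := congrArg Fr.g e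
    have e2 : (⟨a, β.i⟩ : Σ a, I a j) = ⟨a, β'.i⟩ := congrArg Fr.i e
    refine ⟨β'.g * β.g⁻¹, ?_, Fr.ext ?_ (eq_of_heq (Sigma.mk.inj e2).2)⟩
    · show h = β'.g.1 * β.g.1⁻¹
      rw [← e1, mul_inv_cancel_right]
    · show β'.g * β.g⁻¹ * β.g = β'.g
      rw [inv_mul_cancel_right]

theorem pt_fam {S : A → Subgroup G} {y : A → Y} (F : Fam S y) :
    IndFam (fun a => (S a).subtype) (fun a (_ : Unit) => y a) where
  eqv a g _ := ((F.mem a g.1).1 g.2).symm
  surj z := by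
    obtain ⟨g, a, e⟩ := F.surj z
    exact ⟨g, a, (), e⟩
  idx h a _ a' _ e := F.idx h a a' e
  inj h a _ _ e := ⟨⟨h, (F.mem a h).2 e⟩, rfl, rfl⟩

variable (d : ∀ a j, Ch (S a) (I a (j + 1)) →ₗ[ℤ] Ch (S a) (I a j))

/-- The boundary of the induced complex. -/
noncomputable def DD (j : ℕ) : Ch G (Σ a, I a (j + 1)) →ₗ[ℤ] Ch G (Σ a, I a j) :=
  mkE (rp G _) fun x => mapDomain (mu S I x.1 j) (d x.1 j (single ⟨1, x.2⟩ 1))

theorem DD_single (j : ℕ) (β : Fr G (Σ a, I a (j + 1))) :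
    DD S I d j (single β 1) =
      rp G _ β.g (mapDomain (mu S I β.i.1 j) (d β.i.1 j (single ⟨1, β.i.2⟩ 1))) :=
  mkE_single _ _ _

theorem DD_eqv (j : ℕ) : Eqv (rp G _) (rp G _) (DD S I d j) := mkE_eqv _ _

variable {S I d}

theorem DD_mu (hd : ∀ a j, Eqv (rp (S a) _) (rp (S a) _) (d a j)) (a : A) (j : ℕ)
    (c : Ch (S a) (I a (j + 1))) :
    DD S I d j (mapDomain (mu S I a (j + 1)) c) = mapDomain (mu S I a j) (d a j c) :=
  LinearMap.congr_fun (f := DD S I d j ∘ₗ lmapDomain ℤ ℤ (mu S I a (j + 1)))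
    (g := lmapDomain ℤ ℤ (mu S I a j) ∘ₗ d a j) (ch_ext fun β => by
      rw [LinearMap.comp_apply, LinearMap.comp_apply, lmapDomain_apply, lmapDomain_apply,
        mapDomain_single, DD_single]
      conv_rhs => rw [← β.smul_one, ← permRep_single, hd a j]
      rw [permRep_apply, permRep_apply, ← mapDomain_comp, ← mapDomain_comp]
      rfl) c

theorem lb_mu {y : A → Y} (F : Fam S y) (a : A) (j : ℕ) (β : Fr (S a) (I a j)) :
    lb (G := G) (fun x : Σ a, I a j => y x.1) (mu S I a j β) = y a :=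
  (F.mem a _).1 β.g.2

theorem eps_mu {y : A → Y} (F : Fam S y) (a : A) (c : Ch (S a) (I a 0)) :
    mapDomain (lb (G := G) fun x : Σ a, I a 0 => y x.1) (mapDomain (mu S I a 0) c) =
      mapDomain (fun _ : Unit => y a)
        (mapDomain (lb (G := S a) (Y := Unit) fun _ : I a 0 => ()) c) := by
  rw [← mapDomain_comp, ← mapDomain_comp]
  exact congrArg (fun u => mapDomain u c) (funext fun β => lb_mu F a 0 β)

theorem famRes (h' : IndStmt) {y : A → Y} (F : Fam S y)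
    (R : ∀ a, LabRes (S a) (Y := Unit) (fun _ _ => ()) (d a)) :
    LabRes G (I := fun j => Σ a, I a j) (fun _ x => y x.1) (DD S I d) where
  eqv := DD_eqv S I d
  loc j := loc_of_gen (fun _ _ => rfl) (DD_eqv S I d j) fun x => by
    rw [DD_single, map_one, Module.End.one_apply]
    intro β' hβ'
    classical
    obtain ⟨β, -, rfl⟩ := Finset.mem_image.1 (mapDomain_support hβ')
    exact lb_mu F _ j β
  ε_d c := LinearMap.congr_fun
    (f := lmapDomain ℤ ℤ (lb (G := G) fun x : Σ a, I a 0 => y x.1) ∘ₗ DD S I d 0) (g := 0)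
    (ch_ext fun β => by
      rw [LinearMap.comp_apply, DD_single, eqv_lmapDomain (lb_smul _), lmapDomain_apply,
        eps_mu F, (R _).ε_d, mapDomain_zero, map_zero, LinearMap.zero_apply]) c
  d_d j c := LinearMap.congr_fun (f := DD S I d j ∘ₗ DD S I d (j + 1)) (g := 0)
    (ch_ext fun β => by
      rw [LinearMap.comp_apply, DD_single, DD_eqv, DD_mu fun a => (R a).eqv, (R _).d_d,
        mapDomain_zero, map_zero, LinearMap.zero_apply]) c
  surj z := by
    obtain ⟨g, a, e⟩ := F.surj z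
    obtain ⟨β, -⟩ := (R a).surj ()
    exact ⟨⟨g, ⟨a, β.i⟩⟩, e.symm⟩
  exact_zero :=
    h' G A (fun a => S a) (fun a => (S a).subtype) (fun a => Fr (S a) (I a 1))
      (fun a => Fr (S a) (I a 0)) (fun _ => Unit) (Fr G (Σ a, I a 1)) (Fr G (Σ a, I a 0)) Y
      (fun a => mu S I a 1) (fun a => mu S I a 0) (fun a _ => y a)
      (fun a => (S a).subtype_injective) (mu_fam S I 0) (pt_fam F) (fun a => d a 0)
      (fun a => lmapDomain ℤ ℤ (lb (G := S a) (Y := Unit) fun _ : I a 0 => ())) (DD S I d 0)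
      (lmapDomain ℤ ℤ (lb (G := G) fun x : Σ a, I a 0 => y x.1)) (DD_eqv S I d 0)
      (eqv_lmapDomain (lb_smul _)) (fun a => DD_mu (fun a => (R a).eqv) a 0) (eps_mu F)
      fun a => (R a).exact_zero
  exact_succ j :=
    h' G A (fun a => S a) (fun a => (S a).subtype) (fun a => Fr (S a) (I a (j + 2)))
      (fun a => Fr (S a) (I a (j + 1))) (fun a => Fr (S a) (I a j)) (Fr G (Σ a, I a (j + 2)))
      (Fr G (Σ a, I a (j + 1))) (Fr G (Σ a, I a j))
      (fun a => mu S I a (j + 2)) (fun a => mu S I a (j + 1)) (fun a => mu S I a j)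
      (fun a => (S a).subtype_injective) (mu_fam S I (j + 1)) (mu_fam S I j)
      (fun a => d a (j + 1)) (fun a => d a j) (DD S I d (j + 1)) (DD S I d j)
      (DD_eqv S I d (j + 1)) (DD_eqv S I d j) (fun a => DD_mu (fun a => (R a).eqv) a (j + 1))
      (fun a => DD_mu (fun a => (R a).eqv) a j) fun a => (R a).exact_succ j

/-- The orbits of the group together with the reversal. -/
def rel {D : Type} [MulAction G D] (bar : D → D) (h1 : ∀ (g : G) x, bar (g • x) = g • bar x)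
    (h2 : ∀ x, bar (bar x) = x) : Setoid D where
  r x x' := ∃ g : G, g • x = x' ∨ g • x = bar x'
  iseqv :=
    { refl := fun x => ⟨1, Or.inl (one_smul _ _)⟩
      symm := by
        rintro x x' ⟨g, e | e⟩
        · exact ⟨g⁻¹, Or.inl (by rw [← e, inv_smul_smul])⟩
        · exact ⟨g⁻¹, Or.inr (by rw [← h2 x', ← e, h1, inv_smul_smul])⟩
      trans := by
        rintro x x' x'' ⟨g, e | e⟩ ⟨g', e' | e'⟩
        · exact ⟨g' * g, Or.inl (by rw [mul_smul, e, e'])⟩
        · exact ⟨g' * g, Or.inr (by rw [mul_smul, e, e'])⟩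
        · exact ⟨g' * g, Or.inr (by rw [mul_smul, e, ← h1, e'])⟩
        · exact ⟨g' * g, Or.inl (by rw [mul_smul, e, ← h1, e', h2])⟩ }

/-- The representatives of darts. -/
noncomputable def rep {D : Type} (bar : D → D) (r : Setoid D) (a : Quotient r × Bool) : D :=
  bif a.2 then a.1.out else bar a.1.out

theorem rep_fam {D : Type} [MulAction G D] (bar : D → D)
    (h1 : ∀ (g : G) x, bar (g • x) = g • bar x) (h2 : ∀ x, bar (bar x) = x)
    (h3 : ∀ (g : G) x, g • x ≠ bar x) :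
    Fam (fun a : Quotient (rel bar h1 h2) × Bool => MulAction.stabilizer G a.1.out)
      (rep bar (rel bar h1 h2)) where
  mem := by
    rintro ⟨q, s⟩ g
    rw [MulAction.mem_stabilizer_iff]
    cases s
    · show g • q.out = q.out ↔ g • bar q.out = bar q.out
      rw [← h1]
      exact ⟨fun e => by rw [e], fun e => by rw [← h2 (g • q.out), e, h2]⟩
    · exact Iff.rfl
  surj z := by
    obtain ⟨g, e | e⟩ : (rel bar h1 h2).r (Quotient.mk (rel bar h1 h2) z).out z :=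
      Quotient.exact (Quotient.out_eq _)
    · exact ⟨g, (_, true), e.symm⟩
    · refine ⟨g, (Quotient.mk (rel bar h1 h2) z, false), ?_⟩
      show z = g • bar _
      rw [← h1, e, h2]
  idx := by
    rintro g ⟨q, s⟩ ⟨q', s'⟩ e
    have key : ∀ {q q' : Quotient (rel bar h1 h2)}, (rel bar h1 h2).r q.out q'.out → q = q' :=
      fun {q q'} h => by rw [← q.out_eq, ← q'.out_eq]; exact Quotient.sound h
    cases s <;> cases s'
    · have e' : g • bar q.out = bar q'.out := e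
      have e'' : g • q.out = q'.out := by rw [← h2 q'.out, ← e', ← h1, h2]
      rw [key ⟨g, Or.inl e''⟩]
    · have e' : g • bar q.out = q'.out := e
      have e'' : g • q.out = bar q'.out := by rw [← e', ← h1, h2]
      have := key ⟨g, Or.inr e''⟩
      subst this
      exact absurd e'' (h3 _ _)
    · have e' : g • q.out = bar q'.out := e
      have := key ⟨g, Or.inr e'⟩
      subst this
      exact absurd e' (h3 _ _)
    · have e' : g • q.out = q'.out := e
      rw [key ⟨g, Or.inl e'⟩]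

end Lab

open Finsupp

theorem labV_stmt (h : FreeStmt) (h' : IndStmt) : LabVStmt := by
  intro G Y _ _ m hc hF
  have F : Lab.Fam (fun a : MulAction.orbitRel.Quotient G Y => MulAction.stabilizer G a.out)
      (fun a => a.out) :=
    { mem := fun a g => MulAction.mem_stabilizer_iff
      surj := fun z => by
        obtain ⟨g, e⟩ : (MulAction.orbitRel G Y).r z
            (Quotient.mk (MulAction.orbitRel G Y) z).out :=
          Quotient.exact (Quotient.out_eq _).symm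
        exact ⟨g, _, e.symm⟩
      idx := fun g a a' e => by
        rw [← a.out_eq, ← a'.out_eq]
        exact (Quotient.sound (⟨g, e⟩ : (MulAction.orbitRel G Y).r a'.out a.out)).symm }
  choose I d R hI using fun a : MulAction.orbitRel.Quotient G Y => h _ m (hF a.out)
  refine ⟨_, _, _, Lab.famRes h' F R, fun j hj => ?_⟩
  have := F.finite hc
  have := fun a => hI a j hj
  infer_instance

theorem labD_stmt (h : FreeStmt) (h' : IndStmt) : LabDStmt := by
  intro G D _ _ m hc hF bar h1 h2 h3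
  have F := Lab.rep_fam bar h1 h2 h3
  choose I d R hI using fun a : Quotient (Lab.rel bar h1 h2) => h _ m (hF a.out)
  refine ⟨fun j => Σ a : Quotient (Lab.rel bar h1 h2) × Bool, I a.1 j, _, _,
    fun j β => ⟨β.g, ⟨(β.i.1.1, !β.i.1.2), β.i.2⟩⟩,
    Lab.famRes (I := fun a => I a.1) (d := fun a => d a.1) h' F fun a => R a.1,
    ⟨fun _ _ _ => rfl, ?_, ?_, fun j c => ?_⟩, fun j hj => ?_⟩
  · rintro j ⟨g, ⟨q, s⟩, i⟩
    cases s <;> rfl
  · rintro j ⟨g, ⟨q, s⟩, i⟩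
    cases s
    · show g • q.out = bar (g • bar q.out)
      rw [← h1, h2]
    · show g • bar q.out = bar (g • q.out)
      rw [h1]
  · induction c using ch_induction with
    | h0 => simp only [mapDomain_zero, map_zero]
    | hadd x y hx hy => simp only [mapDomain_add, map_add, hx, hy]
    | hneg x hx =>
      rw [← lmapDomain_apply ℤ ℤ, ← lmapDomain_apply ℤ ℤ] at hx ⊢
      simp only [map_neg, hx]
    | h1 β =>
      rw [mapDomain_single, Lab.DD_single, Lab.DD_single, permRep_apply, permRep_apply,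
        ← mapDomain_comp, ← mapDomain_comp, ← mapDomain_comp]
      rfl
  · have := F.finite hc
    have := fun a : Quotient (Lab.rel bar h1 h2) × Bool => hI a.1 j hj
    infer_instance

end Pool.Agent.MP_4f4d9f_gt.Db

end

section

/-! Free resolutions of finite type. -/

namespace Pool.Agent.MP_4f4d9f_gt.Db

namespace Free

open Finsupp Sg

open CategoryTheory in
theorem res_fp (K : Type) [Group K] (m : ℕ) (h : FP K m) :
    ∃ (C : ℕ → Type) (_ : ∀ k, AddCommGroup (C k)) (ρ : ∀ k, Representation ℤ K (C k))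
      (d : ∀ k, C (k + 1) →ₗ[ℤ] C k) (ε : C 0 →ₗ[ℤ] ℤ), IsRes ρ d ε ∧ ∀ j ≤ m, RepFG (ρ j) := by
  obtain ⟨P, hP⟩ := h
  let e : (P.complex.X 0) →ₗ[MonoidAlgebra ℤ K] (Representation.trivial ℤ K ℤ).asModule :=
    (P.π.f 0).hom
  let ε : (P.complex.X 0) →+ ℤ :=
    (Representation.trivial ℤ K ℤ).asModuleEquiv.toAddEquiv.toAddMonoidHom.comp e.toAddMonoidHom
  refine ⟨fun k => P.complex.X k, fun _ => inferInstance, fun k => Gen.modRep K _,
    fun k => (P.complex.d (k + 1) k).hom.toAddMonoidHom.toIntLinearMap, ε.toIntLinearMap,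
    ⟨fun k => Gen.eqv_lin _, fun g c => ?_, fun c => ?_, fun k c => ?_, ?_, fun c hc => ?_,
      fun k c hc => ?_, fun k => Gen.proj_modRep _⟩, fun j hj => ?_⟩
  · change (Representation.trivial ℤ K ℤ).asModuleEquiv
      (e ((MonoidAlgebra.single g 1 : MonoidAlgebra ℤ K) • c)) =
        (Representation.trivial ℤ K ℤ).asModuleEquiv (e c)
    rw [map_smul, Representation.asModuleEquiv_map_smul, Representation.asAlgebraHom_single_one]
    rfl
  · exact LinearMap.congr_fun (congrArg ModuleCat.Hom.hom P.complex_d_comp_π_f_zero) c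
  · exact LinearMap.congr_fun
      (congrArg ModuleCat.Hom.hom (P.complex.d_comp_d (k + 2) (k + 1) k)) c
  · exact (ModuleCat.epi_iff_surjective (P.π.f 0)).1 inferInstance (1 : ℤ)
  · exact (ShortComplex.moduleCat_exact_iff _).1 P.exact₀ c hc
  · exact (ShortComplex.moduleCat_exact_iff _).1 (P.exact_succ k) c hc
  · have := hP j hj
    exact Gen.fg_modRep _

/-- An invariant submodule of a free module. -/
structure St (K : Type) [Group K] : Type 1 where
  /-- the index set -/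
  I : Type
  /-- the submodule -/
  Z : Submodule ℤ (Ch K I)
  inv : ∀ g, ∀ z ∈ Z, rp K I g z ∈ Z

variable {K : Type} [Group K]

/-- The family `v` generates the submodule. -/
def Gn (s : St K) (J : Type) (v : J → Ch K s.I) : Prop :=
  (∀ j, v j ∈ s.Z) ∧ ∀ z ∈ s.Z, ∃ b, mkE (rp K s.I) v b = z

theorem exists_gn (s : St K) : ∃ (J : Type) (v : J → Ch K s.I), Gn s J v ∧
    ((∃ (J' : Type) (v' : J' → Ch K s.I), Finite J' ∧ Gn s J' v') → Finite J) := by
  by_cases h : ∃ (J' : Type) (v' : J' → Ch K s.I), Finite J' ∧ Gn s J' v'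
  · obtain ⟨J, v, h1, h2⟩ := h
    exact ⟨J, v, h2, fun _ => h1⟩
  · refine ⟨s.Z, fun z => z.1, ⟨fun z => z.2, fun z hz => ⟨single ⟨1, ⟨z, hz⟩⟩ 1, ?_⟩⟩,
      fun h' => absurd h' h⟩
    rw [mkE_single, map_one]
    rfl

theorem Gn.mem {s : St K} {J : Type} {v : J → Ch K s.I} (h : Gn s J v) (c : Ch K J) :
    mkE (rp K s.I) v c ∈ s.Z := by
  induction c using ch_induction with
  | h0 => rw [map_zero]; exact zero_mem _
  | hadd x y hx hy => rw [map_add]; exact add_mem hx hy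
  | hneg x hx => rw [map_neg]; exact neg_mem hx
  | h1 β => rw [mkE_single]; exact s.inv _ _ (h.1 _)

/-- The chosen index set of generators. -/
def nI (s : St K) : Type := (exists_gn s).choose

/-- The chosen generators. -/
noncomputable def nv (s : St K) : nI s → Ch K s.I := (exists_gn s).choose_spec.choose

theorem nv_gn (s : St K) : Gn s (nI s) (nv s) := (exists_gn s).choose_spec.choose_spec.1

theorem nI_fin (s : St K) (h : ∃ (J' : Type) (v' : J' → Ch K s.I), Finite J' ∧ Gn s J' v') :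
    Finite (nI s) := (exists_gn s).choose_spec.choose_spec.2 h

/-- The module of relations. -/
noncomputable def nxt (s : St K) : St K where
  I := nI s
  Z := LinearMap.ker (mkE (rp K s.I) (nv s))
  inv g z hz := by
    rw [LinearMap.mem_ker] at hz ⊢
    rw [mkE_eqv, hz, map_zero]

variable (K) in
/-- The augmentation. -/
noncomputable def aug : Ch K Unit →ₗ[ℤ] ℤ := linearCombination ℤ fun _ => 1

omit [Group K] in
theorem aug_single (β : Fr K Unit) : aug K (single β 1) = 1 := by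
  rw [aug, linearCombination_single, one_smul]

theorem aug_rp (g : K) (c : Ch K Unit) : aug K (rp K Unit g c) = aug K c :=
  LinearMap.congr_fun (f := aug K ∘ₗ rp K Unit g) (g := aug K) (ch_ext fun β => by
    rw [LinearMap.comp_apply, permRep_single, aug_single, aug_single]) c

omit [Group K] in
theorem map_aug (l : Fr K Unit → Unit) (c : Ch K Unit) : mapDomain l c = single () (aug K c) :=
  LinearMap.congr_fun (f := lmapDomain ℤ ℤ l) (g := lsingle () ∘ₗ aug K) (ch_ext fun β => by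
    rw [LinearMap.comp_apply, aug_single, lmapDomain_apply, mapDomain_single, lsingle_apply]) c

variable (K) in
/-- The stages of the resolution. -/
noncomputable def sq : ℕ → St K
  | 0 => ⟨Unit, LinearMap.ker (aug K), fun g z hz => by
      rw [LinearMap.mem_ker] at hz ⊢
      rw [aug_rp, hz]⟩
  | n + 1 => nxt (sq n)

variable (K) in
/-- The boundary maps. -/
noncomputable def bd (j : ℕ) : Ch K (sq K (j + 1)).I →ₗ[ℤ] Ch K (sq K j).I :=
  mkE (rp K (sq K j).I) (nv (sq K j))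

theorem bd_mem (j : ℕ) (c : Ch K (sq K (j + 1)).I) : bd K j c ∈ (sq K j).Z := (nv_gn _).mem c

theorem bd_surj (j : ℕ) (z : Ch K (sq K j).I) (hz : z ∈ (sq K j).Z) : ∃ b, bd K j b = z :=
  (nv_gn _).2 z hz

theorem isRes : IsRes (fun j => rp K (sq K j).I) (bd K) (aug K) where
  eqv_d _ := mkE_eqv _ _
  eqv_ε := aug_rp
  ε_d c := bd_mem 0 c
  d_d k c := bd_mem (k + 1) c
  surj := ⟨single ⟨1, ()⟩ 1, aug_single _⟩
  exact_zero c hc := bd_surj 0 c hc
  exact_succ k c hc := bd_surj (k + 1) c hc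
  proj _ := proj_rp

theorem fin_gn (s : St K) [Finite s.I] {A : Type} [AddCommGroup A] {ρ : Representation ℤ K A}
    (hρ : RepFG ρ) (a : A →ₗ[ℤ] Ch K s.I) (ha : Eqv ρ (rp K s.I) a) (ha' : ∀ p, a p ∈ s.Z)
    (h : Ch K s.I →ₗ[ℤ] Ch K s.I) (hh : Eqv (rp K s.I) (rp K s.I) h) (hh' : ∀ c, h c ∈ s.Z)
    (hz : ∀ z ∈ s.Z, ∃ p, z = a p + h z) :
    ∃ (J' : Type) (v' : J' → Ch K s.I), Finite J' ∧ Gn s J' v' := by
  obtain ⟨S, hS⟩ := hρ
  let v : (S ⊕ s.I) → Ch K s.I := Sum.elim (fun p => a p.1) fun i => h (single ⟨1, i⟩ 1)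
  have h1 : ∀ p, a p ∈ LinearMap.range (mkE (rp K s.I) v) := by
    intro p
    have hp : p ∈ AddSubgroup.closure {c | ∃ g : K, ∃ s ∈ S, c = ρ g s} :=
      hS ▸ AddSubgroup.mem_top p
    induction hp using AddSubgroup.closure_induction with
    | mem x hx =>
      obtain ⟨g, t, ht, rfl⟩ := hx
      exact ⟨single ⟨g, .inl ⟨t, ht⟩⟩ 1, by rw [mkE_single, ha]; rfl⟩
    | zero => rw [map_zero]; exact zero_mem _
    | add x y _ _ hx hy => rw [map_add]; exact add_mem hx hy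
    | neg x _ hx => rw [map_neg]; exact neg_mem hx
  have h2 : ∀ c, h c ∈ LinearMap.range (mkE (rp K s.I) v) := by
    intro c
    induction c using ch_induction with
    | h0 => rw [map_zero]; exact zero_mem _
    | hadd x y hx hy => rw [map_add]; exact add_mem hx hy
    | hneg x hx => rw [map_neg]; exact neg_mem hx
    | h1 β =>
      refine ⟨single ⟨β.g, .inr β.i⟩ 1, ?_⟩
      conv_rhs => rw [← β.smul_one, ← permRep_single, hh]
      rw [mkE_single]
      rfl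
  refine ⟨S ⊕ s.I, v, inferInstance, ?_, fun z hz' => ?_⟩
  · rintro (p | i)
    · exact ha' _
    · exact hh' _
  · obtain ⟨p, hp⟩ := hz z hz'
    have := add_mem (h1 p) (h2 z)
    rw [← hp] at this
    exact this

theorem fin_sq (m : ℕ) (hK : FP K m) : ∀ j ≤ m, Finite (sq K j).I := by
  obtain ⟨C, _, ρ, d, ε, R, hR⟩ := res_fp K m hK
  obtain ⟨f, hf, hf0, hfd⟩ := (isRes (K := K)).exists_map R
  obtain ⟨g, hg, hg0, hgd⟩ := R.exists_map (isRes (K := K))
  let u : ∀ k, Ch K (sq K k).I →ₗ[ℤ] Ch K (sq K k).I := fun k => LinearMap.id - g k ∘ₗ f k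
  have hu : ∀ k, Eqv (rp K (sq K k).I) (rp K (sq K k).I) (u k) := fun k =>
    Eqv.id.sub ((hg k).comp (hf k))
  have hu' : ∀ k c, u k c = c - g k (f k c) := fun _ _ => rfl
  have hu0 : ∀ c, aug K (u 0 c) = 0 := fun c => by
    have e : aug K (u 0 c) = aug K c - aug K (g 0 (f 0 c)) := map_sub (aug K) _ _
    exact e.trans (sub_eq_zero.2 ((hg0 _).trans (hf0 c)).symm)
  obtain ⟨h, hh, hhd⟩ := (isRes (K := K)).exists_homotopy u hu hu0 fun k c => by
    rw [hu', hu', map_sub, hgd, hfd]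
  obtain ⟨h0, hh0, hh0'⟩ := (isRes (K := K)).proj 0 _ _ _ _ (bd K 0) (u 0)
    ((isRes (K := K)).eqv_d 0) (hu 0) fun c => (isRes (K := K)).exact_zero _ (hu0 c)
  have key : ∀ j, ∃ h' : Ch K (sq K j).I →ₗ[ℤ] Ch K (sq K (j + 1)).I,
      Eqv (rp K (sq K j).I) (rp K (sq K (j + 1)).I) h' ∧
      ∀ z ∈ (sq K j).Z, bd K j (h' z) = u j z ∧ ∃ p, d j p = f j z := by
    intro j
    cases j with
    | zero => exact ⟨h0, hh0, fun z hz => ⟨hh0' z, R.exact_zero _ ((hf0 z).trans hz)⟩⟩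
    | succ j =>
      refine ⟨h (j + 1), hh (j + 1), fun z hz => ?_⟩
      have hz' : bd K j z = 0 := hz
      refine ⟨?_, R.exact_succ j _ (by rw [hfd, hz', map_zero])⟩
      have := hhd j z
      rwa [hz', map_zero, add_zero] at this
  intro j
  induction j with
  | zero => exact fun _ => (inferInstance : Finite Unit)
  | succ j ih =>
    intro hj
    have := ih (by omega)
    obtain ⟨h', e1, e2⟩ := key j
    refine nI_fin _ (fin_gn (sq K j) (hR (j + 1) hj) (bd K j ∘ₗ g (j + 1))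
      (((isRes (K := K)).eqv_d j).comp (hg (j + 1))) (fun p => bd_mem j _) (bd K j ∘ₗ h')
      (((isRes (K := K)).eqv_d j).comp e1) (fun c => bd_mem j _) fun z hz => ?_)
    obtain ⟨e3, p, hp⟩ := e2 z hz
    refine ⟨p, ?_⟩
    rw [LinearMap.comp_apply, LinearMap.comp_apply, e3, hgd, hp, hu', add_sub_cancel]

end Free

theorem free_stmt : FreeStmt := by
  intro K _ m hK
  refine ⟨fun j => (Free.sq K j).I, Free.bd K, ⟨Free.isRes.eqv_d, fun _ _ _ _ => rfl, fun c => ?_,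
    Free.isRes.d_d, fun _ => ⟨⟨1, ()⟩, rfl⟩, fun c hc => ?_, Free.isRes.exact_succ⟩,
    Free.fin_sq m hK⟩
  · exact (Free.map_aug _ _).trans ((congrArg _ (Free.isRes.ε_d c)).trans (Finsupp.single_zero _))
  · exact Free.isRes.exact_zero c (Finsupp.single_eq_zero.1 ((Free.map_aug _ c).symm.trans hc))

end Pool.Agent.MP_4f4d9f_gt.Db

end

section

/-! Exactness of induced complexes; chain maps. -/

namespace Pool.Agent.MP_4f4d9f_gt.Db

open Finsupp

namespace Ind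

theorem sum_flt {B P : Type} [DecidableEq P] (l : B → P) (c : B →₀ ℤ) :
    ∑ p ∈ c.support.image l, flt (fun β => l β = p) c = c := by
  ext β
  rw [Finset.sum_apply', Finset.sum_eq_single (l β)]
  · rw [flt_apply, if_pos rfl]
  · intro p _ hp
    rw [flt_apply, if_neg (Ne.symm hp)]
  · intro h
    rw [flt_apply, if_pos rfl]
    by_contra h1
    exact h (Finset.mem_image_of_mem l (mem_support_iff.2 h1))

theorem pieces {P B₀ B₁ B₂ : Type} {X₀ X₁ X₂ : P → Type} (e₀ : ∀ p, X₀ p → B₀)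
    (e₁ : ∀ p, X₁ p → B₁) (e₂ : ∀ p, X₂ p → B₂) (l₁ : B₁ → P) (l₂ : B₂ → P)
    (h₁ : ∀ β', ∃ β, e₁ (l₁ β') β = β') (i₁ : ∀ p, Function.Injective (e₁ p))
    (h₂ : ∀ p β, l₂ (e₂ p β) = p) (i₂ : ∀ p, Function.Injective (e₂ p))
    (f : ∀ p, (X₀ p →₀ ℤ) →ₗ[ℤ] (X₁ p →₀ ℤ)) (g : ∀ p, (X₁ p →₀ ℤ) →ₗ[ℤ] (X₂ p →₀ ℤ))
    (f' : (B₀ →₀ ℤ) →ₗ[ℤ] (B₁ →₀ ℤ)) (g' : (B₁ →₀ ℤ) →ₗ[ℤ] (B₂ →₀ ℤ))
    (hf : ∀ p c, f' (mapDomain (e₀ p) c) = mapDomain (e₁ p) (f p c))
    (hg : ∀ p c, g' (mapDomain (e₁ p) c) = mapDomain (e₂ p) (g p c))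
    (hex : ∀ p c, g p c = 0 → ∃ b, f p b = c) (c : B₁ →₀ ℤ) (hc : g' c = 0) :
    ∃ b, f' b = c := by
  classical
  have hl : Loc l₁ l₂ id g' := fun β' => by
    obtain ⟨β, hβ⟩ := h₁ β'
    have e : single β' (1 : ℤ) = mapDomain (e₁ (l₁ β')) (single β 1) := by
      rw [mapDomain_single, hβ]
    rw [e, hg]
    exact At.mapDomain (l := fun _ => ()) (y := ()) (fun _ _ => rfl) fun β _ => h₂ _ β
  have key : ∀ p, ∃ b, f' b = flt (fun β => l₁ β = p) c := by
    intro p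
    obtain ⟨x, hx⟩ := (mem_range_mapDomain_iff (e₁ p) (i₁ p) (flt (fun β => l₁ β = p) c)).2
      fun β' hβ' => by
        rw [flt_apply, if_neg]
        rintro rfl
        exact hβ' (h₁ β')
    have h1 : g' (flt (fun β => l₁ β = p) c) = 0 :=
      (hl.flt (fun y => y = p) c).trans (by rw [hc, map_zero])
    rw [← hx, hg] at h1
    obtain ⟨b, hb⟩ := hex p x (mapDomain_injective (i₂ p) (h1.trans mapDomain_zero.symm))
    exact ⟨mapDomain (e₀ p) b, by rw [hf, hb, hx]⟩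
  choose b hb using key
  exact ⟨∑ p ∈ c.support.image l₁, b p, by simp only [map_sum, hb, sum_flt]⟩

variable {H A : Type} [Group H] {G : A → Type} [∀ a, Group (G a)]

/-- The embedding of a piece. -/
noncomputable def emb (j : ∀ a, G a →* H) {B : A → Type} {B' : Type} [MulAction H B']
    (μ : ∀ a, B a → B') (p : Σ a, H ⧸ (j a).range) (β : B p.1) : B' := p.2.out • μ p.1 β

theorem map_emb (j : ∀ a, G a →* H) {B : A → Type} {B' : Type} [MulAction H B']
    (μ : ∀ a, B a → B') (p : Σ a, H ⧸ (j a).range) (c : B p.1 →₀ ℤ) :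
    mapDomain (emb j μ p) c = permRep H B' p.2.out (mapDomain (μ p.1) c) := by
  rw [permRep_apply, ← mapDomain_comp]
  rfl

theorem exists_lab {j : ∀ a, G a →* H} {B : A → Type} [∀ a, MulAction (G a) (B a)] {B' : Type}
    [MulAction H B'] {μ : ∀ a, B a → B'} (hj : ∀ a, Function.Injective (j a)) (h : IndFam j μ) :
    ∃ l : B' → Σ a, H ⧸ (j a).range, (∀ β', ∃ β, emb j μ (l β') β = β') ∧
      (∀ p β, l (emb j μ p β) = p) ∧ ∀ p, Function.Injective (emb j μ p) := by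
  have cov : ∀ β', ∃ p β, emb j μ p β = β' := by
    intro β'
    obtain ⟨k, a, β, rfl⟩ := h.surj β'
    obtain ⟨⟨_, g, rfl⟩, hg⟩ := QuotientGroup.mk_out_eq_mul (j a).range k
    refine ⟨⟨a, QuotientGroup.mk k⟩, g⁻¹ • β, ?_⟩
    rw [emb, hg, h.eqv, map_inv, smul_smul, mul_inv_cancel_right]
  have uniq : ∀ p β p' β', emb j μ p β = emb j μ p' β' → p = p' := by
    rintro ⟨a, q⟩ β ⟨a', q'⟩ β' e
    have e1 : (q'.out⁻¹ * q.out) • μ a β = μ a' β' := by
      rw [mul_smul, inv_smul_eq_iff]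
      exact e
    obtain rfl := h.idx _ _ _ _ _ e1
    obtain ⟨g, hg, -⟩ := h.inj _ _ _ _ e1
    have e2 : q' = q := by
      rw [← q.out_eq', ← q'.out_eq']
      exact QuotientGroup.eq.2 ⟨g, hg.symm⟩
    rw [e2]
  choose l hl using cov
  refine ⟨l, hl, fun p β => ?_, fun p β β' e => ?_⟩
  · obtain ⟨β', e⟩ := hl (emb j μ p β)
    exact uniq _ _ _ _ e
  · obtain ⟨g, hg, e1⟩ := h.inj 1 _ β β' ((one_smul H _).trans (MulAction.injective _ e))
    rw [← e1, hj _ (hg.symm.trans (map_one _).symm), one_smul]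

theorem step {G V D I I' K : Type} [Group G] [MulAction G V] [MulAction G D] {o : D → V}
    (ho : ∀ (g : G) x, o (g • x) = g • o x) {lI : I → V} {lI' : I' → V} {lK : K → D}
    {d : Ch G I' →ₗ[ℤ] Ch G I} {ψ : Ch G K →ₗ[ℤ] Ch G I} (d1 : Eqv (rp G I') (rp G I) d)
    (d2 : Loc (lb (G := G) lI') (lb (G := G) lI) id d) (p1 : Eqv (rp G K) (rp G I) ψ)
    (p2 : Loc (lb (G := G) lK) (lb (G := G) lI) o ψ) (h : ∀ c, ∃ x, d x = ψ c) :
    ∃ φ : Ch G K →ₗ[ℤ] Ch G I', Eqv (rp G K) (rp G I') φ ∧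
      Loc (lb (G := G) lK) (lb (G := G) lI') o φ ∧ ∀ c, d (φ c) = ψ c := by
  choose w hw using fun i : K => h (single ⟨1, i⟩ 1)
  obtain ⟨φ, h1, h2⟩ : ∃ φ : Ch G K →ₗ[ℤ] Ch G I', Eqv (rp G K) (rp G I') φ ∧
      ∀ i, φ (single ⟨1, i⟩ 1) = flt (fun β => lb lI' β = o (lK i)) (w i) :=
    ⟨mkE (rp G I') fun i => flt (fun β => lb lI' β = o (lK i)) (w i), mkE_eqv _ _,
      fun i => by rw [mkE_single, map_one]; rfl⟩
  refine ⟨φ, h1, loc_of_gen ho h1 fun i => ?_,
    LinearMap.congr_fun (eqv_ext (f := d ∘ₗ φ) (d1.comp h1) p1 fun i => ?_)⟩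
  · rw [h2]
    exact at_flt _ _
  · rw [LinearMap.comp_apply, h2]
    refine (d2.flt (fun y => y = o (lK i)) (w i)).trans ?_
    rw [hw]
    exact (p2 ⟨1, i⟩).flt_pos (p := fun y => y = o (lK i)) (by rw [lb_one])

theorem base {G V D I K : Type} [Group G] [MulAction G V] [MulAction G D] {o : D → V}
    (ho : ∀ (g : G) x, o (g • x) = g • o x) {lI : I → V} (lK : K → D)
    (h : Function.Surjective (lb (G := G) lI)) :
    ∃ φ : Ch G K →ₗ[ℤ] Ch G I, Eqv (rp G K) (rp G I) φ ∧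
      Loc (lb (G := G) lK) (lb (G := G) lI) o φ ∧
      ∀ c, mapDomain (lb (G := G) lI) (φ c) = mapDomain o (mapDomain (lb (G := G) lK) c) := by
  choose w hw using fun i : K => h (o (lK i))
  have h1 : ∀ β : Fr G K, lb lI (β.g • w β.i) = o (lb lK β) := fun β => by
    rw [lb_smul, hw, ← ho]
    rfl
  refine ⟨lmapDomain ℤ ℤ fun β => β.g • w β.i, eqv_lmapDomain fun g β => mul_smul _ _ _,
    loc_lmapDomain h1, fun c => ?_⟩
  rw [lmapDomain_apply, ← mapDomain_comp, ← mapDomain_comp]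
  exact congrArg (mapDomain · c) (funext h1)

end Ind

theorem ind_stmt : IndStmt := by
  intro H A _ G _ j B₀ B₁ B₂ _ _ B₀' B₁' B₂' _ _ _ μ₀ μ₁ μ₂ hj h₁ h₂ f g f' g' ef eg hf hg hex
  obtain ⟨l₁, a1, -, a3⟩ := Ind.exists_lab hj h₁
  obtain ⟨l₂, -, b2, b3⟩ := Ind.exists_lab hj h₂
  refine Ind.pieces (Ind.emb j μ₀) (Ind.emb j μ₁) (Ind.emb j μ₂) l₁ l₂ a1 a3 b2 b3
    (fun p => f p.1) (fun p => g p.1) f' g' (fun p c => ?_) (fun p c => ?_) fun p => hex p.1
  · rw [Ind.map_emb, Ind.map_emb, ef, hf]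
  · rw [Ind.map_emb, Ind.map_emb, eg, hg]

theorem lift_stmt : LiftStmt := by
  intro G V D _ _ _ I J o lI lJ dI dJ ho RI RJ
  obtain ⟨f0, a1, a2, a3⟩ := Ind.base ho (lJ 0) RI.surj
  let T (k : ℕ) : Type := {f : Ch G (J k) →ₗ[ℤ] Ch G (I k) // Eqv (rp G (J k)) (rp G (I k)) f ∧
    Loc (lb (G := G) (lJ k)) (lb (G := G) (lI k)) o f ∧ ∀ c, ∃ x, dI k x = f (dJ k c)}
  have step : ∀ k (f : T k), ∃ f' : T (k + 1), ∀ c, dI k (f'.1 c) = f.1 (dJ k c) := by
    intro k f
    obtain ⟨ψ, h1, h2, h3⟩ := Ind.step ho (ψ := f.1 ∘ₗ dJ k) (RI.eqv k) (RI.loc k)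
      (f.2.1.comp (RJ.eqv k)) (f.2.2.1.comp (RJ.loc k)) f.2.2.2
    refine ⟨⟨ψ, h1, h2, fun c => RI.exact_succ k _ ?_⟩, h3⟩
    rw [h3, LinearMap.comp_apply, RJ.d_d, map_zero]
  choose next hnext using step
  let t0 : T 0 := ⟨f0, a1, a2, fun c => RI.exact_zero _ (by rw [a3, RJ.ε_d, mapDomain_zero])⟩
  let t : ∀ k, T k := fun k => Nat.rec t0 next k
  exact ⟨fun k => (t k).1, RI, RJ, fun k => (t k).2.1, fun k => (t k).2.2.1,
    fun k => hnext k (t k), a3⟩

end Pool.Agent.MP_4f4d9f_gt.Db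

end

section

open scoped Matrix Pointwise

namespace Pool.Agent.MP_4f4d9f_gt.Cb

open Finsupp Db

namespace AlCyl

section Sum

variable {X Z W X' Z' W' : Type}

theorem se_surj (c : X ⊕ Z →₀ ℤ) : ∃ a b, sumElim a b = c :=
  ⟨_, _, comapDomain_sumElim_comapDomain c⟩

theorem se_zero {a : X →₀ ℤ} {b : Z →₀ ℤ} (h : sumElim a b = 0) : a = 0 ∧ b = 0 :=
  ⟨Finsupp.ext fun x => DFunLike.congr_fun h (.inl x),
    Finsupp.ext fun x => DFunLike.congr_fun h (.inr x)⟩

theorem on_se {p : X → Prop} {q : Z → Prop} {a : X →₀ ℤ} {b : Z →₀ ℤ} :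
    On (Sum.elim p q) (sumElim a b) ↔ On p a ∧ On q b := by
  refine ⟨fun h => ⟨fun x hx => h (.inl x) ?_, fun x hx => h (.inr x) ?_⟩, ?_⟩
  · rwa [mem_support_iff] at hx ⊢
  · rwa [mem_support_iff] at hx ⊢
  · rintro ⟨h1, h2⟩ (x | x) hx
    · exact h1 x (by rwa [mem_support_iff] at hx ⊢)
    · exact h2 x (by rwa [mem_support_iff] at hx ⊢)

theorem sm_se (a : X →₀ ℤ) (b : Z →₀ ℤ) : sm _ (sumElim a b) = sm _ a + sm _ b := by
  rw [sumElim_eq_add, map_add, sm_mapDomain, sm_mapDomain]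

theorem exists_tri (f₁ : (X →₀ ℤ) →ₗ[ℤ] (X' →₀ ℤ)) (f₂ : (Z →₀ ℤ) →ₗ[ℤ] (Z' →₀ ℤ))
    (f₃ : (W →₀ ℤ) →ₗ[ℤ] (W' →₀ ℤ)) (u : W → X') (φ : (W →₀ ℤ) →ₗ[ℤ] (Z' →₀ ℤ)) :
    ∃ f : (X ⊕ (Z ⊕ W) →₀ ℤ) →ₗ[ℤ] (X' ⊕ (Z' ⊕ W') →₀ ℤ), ∀ b p a,
      f (sumElim b (sumElim p a)) =
        sumElim (f₁ b + mapDomain u a) (sumElim (f₂ p - φ a) (-f₃ a)) := by
  let pB : (X ⊕ (Z ⊕ W) →₀ ℤ) →ₗ[ℤ] (X →₀ ℤ) := lcomapDomain _ Sum.inl_injective
  let pN : (X ⊕ (Z ⊕ W) →₀ ℤ) →ₗ[ℤ] (Z ⊕ W →₀ ℤ) := lcomapDomain _ Sum.inr_injective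
  let pP : (Z ⊕ W →₀ ℤ) →ₗ[ℤ] (Z →₀ ℤ) := lcomapDomain _ Sum.inl_injective
  let pA : (Z ⊕ W →₀ ℤ) →ₗ[ℤ] (W →₀ ℤ) := lcomapDomain _ Sum.inr_injective
  refine ⟨lmapDomain ℤ ℤ .inl ∘ₗ (f₁ ∘ₗ pB + lmapDomain ℤ ℤ u ∘ₗ pA ∘ₗ pN) +
    lmapDomain ℤ ℤ .inr ∘ₗ (lmapDomain ℤ ℤ .inl ∘ₗ (f₂ ∘ₗ pP ∘ₗ pN - φ ∘ₗ pA ∘ₗ pN) +
      lmapDomain ℤ ℤ .inr ∘ₗ (-f₃ ∘ₗ pA ∘ₗ pN)), fun b p a => ?_⟩
  have h1 : pB (sumElim b (sumElim p a)) = b := comapDomain_inl_sumElim _ _
  have h2 : pN (sumElim b (sumElim p a)) = sumElim p a := comapDomain_inr_sumElim _ _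
  have h3 : pP (sumElim p a) = p := comapDomain_inl_sumElim _ _
  have h4 : pA (sumElim p a) = a := comapDomain_inr_sumElim _ _
  simp only [LinearMap.add_apply, LinearMap.comp_apply, LinearMap.sub_apply, LinearMap.neg_apply,
    h1, h2, h3, h4, lmapDomain_apply]
  rw [sumElim_eq_add, sumElim_eq_add]

theorem on1 {l : X → Z} {y : Z} {x : X} (h : l x = y) (n : ℤ) : On (l · = y) (single x n) :=
  On.single (p := (l · = y)) h n

theorem on_induction {p : X → Prop} {Q : (X →₀ ℤ) → Prop} (h0 : Q 0)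
    (hadd : ∀ a b, Q a → Q b → Q (a + b)) (h1 : ∀ x n, p x → Q (single x n)) {c : X →₀ ℤ}
    (hc : On p c) : Q c := by
  rw [← sum_single c, Finsupp.sum]
  exact Finset.sum_induction _ Q hadd h0 fun x hx => h1 x _ (hc x hx)

variable {G : Type} [Group G] [MulAction G X] [MulAction G Z]

theorem rep_se (g : G) (a : X →₀ ℤ) (b : Z →₀ ℤ) :
    permRep G (X ⊕ Z) g (sumElim a b) = sumElim (permRep G X g a) (permRep G Z g b) := by
  simp only [sumElim_eq_add, map_add, permRep_apply, ← mapDomain_comp]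
  rfl

theorem fre_sum (h : Fre G X) (h' : Fre G Z) : Fre G (X ⊕ Z) := by
  rintro g (x | x) e
  · exact h g x (Sum.inl.inj e)
  · exact h' g x (Sum.inr.inj e)

theorem cofin_sum (h : Cofin G X) (h' : Cofin G Z) : Cofin G (X ⊕ Z) := by
  obtain ⟨S, hS⟩ := h
  obtain ⟨T, hT⟩ := h'
  refine ⟨S.disjSum T, ?_⟩
  rintro (x | x)
  · exact (hS x).imp fun g hg => Finset.inl_mem_disjSum.2 hg
  · exact (hT x).imp fun g hg => Finset.inr_mem_disjSum.2 hg

end Sum

variable {G Y : Type} [Group G] [MulAction G Y]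

variable (G) in
/-- A free complex graded by `Y`. -/
structure Gr {X : ℕ → Type} [∀ j, MulAction G (X j)] (l : ∀ j, X j → Y)
    (d : ∀ j, (X (j + 1) →₀ ℤ) →ₗ[ℤ] (X j →₀ ℤ)) : Prop extends Cx G d where
  l_eqv : ∀ j (g : G) x, l j (g • x) = g • l j x
  loc : ∀ j y c, On (l (j + 1) · = y) c → On (l j · = y) (d j c)

theorem on_rep {X : Type} [MulAction G X] {l : X → Y} (h : ∀ (g : G) x, l (g • x) = g • l x)
    (g : G) {y : Y} {c : X →₀ ℤ} (hc : On (l · = y) c) : On (l · = g • y) (permRep G X g c) :=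
  hc.mapDomain fun x e => by rw [h, e]

theorem exists_P (m : ℕ) (h : Cofin G Y) (h' : ∀ y : Y, FP (MulAction.stabilizer G y) m) :
    ∃ (P : ℕ → Type) (_ : ∀ j, MulAction G (P j)) (l : ∀ j, P j → Y)
      (d : ∀ j, (P (j + 1) →₀ ℤ) →ₗ[ℤ] (P j →₀ ℤ)), Gr G l d ∧ (∀ j ≤ m, Cofin G (P j)) ∧
      ∀ y, Acy d fun j x => l j x = y := by
  classical
  obtain ⟨I, lab, d, R, hI⟩ := labV_stmt free_stmt ind_stmt G Y m h h'
  refine ⟨fun j => Fr G (I j), inferInstance, fun j => lb (lab j), d,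
    ⟨⟨R.eqv, R.d_d, fun c => ?_, fun j => Fr.free⟩, fun j => lb_smul _,
      fun j y c hc => (R.loc j).at hc⟩, fun j hj => ?_, fun y => ⟨R.surj y, fun z hz e => ?_,
      fun j z hz e => ?_⟩⟩
  · rw [← sm_mapDomain (lb (lab 0)), R.ε_d, map_zero]
  · have := hI j hj
    have := Fintype.ofFinite (I j)
    exact ⟨Finset.univ.image fun i => ⟨1, i⟩, fun β => ⟨β.g⁻¹, Finset.mem_image.2
      ⟨β.i, Finset.mem_univ _, Fr.ext (inv_mul_cancel _).symm rfl⟩⟩⟩
  · have h1 : mapDomain (lb (G := G) (lab 0)) z = single y (sm _ z) :=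
      on_induction (Q := fun z => mapDomain (lb (G := G) (lab 0)) z = single y (sm _ z))
        (by simp) (fun a b ha hb => by rw [mapDomain_add, ha, hb, map_add, single_add])
        (fun x n hx => by rw [mapDomain_single, sm_single, ← hx]) hz
    obtain ⟨b, hb⟩ := R.exact_zero z (by rw [h1, e, single_zero])
    exact ⟨_, on_flt _ b, ((R.loc 0).flt (· = y) b).trans
      (by rw [hb]; exact At.flt_pos hz (p := (· = y)) rfl)⟩
  · obtain ⟨b, hb⟩ := R.exact_succ j z e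
    exact ⟨_, on_flt _ b, ((R.loc (j + 1)).flt (· = y) b).trans
      (by rw [hb]; exact At.flt_pos hz (p := (· = y)) rfl)⟩

variable {B : ℕ → Type} [∀ j, MulAction G (B j)]

variable (G) in
/-- The map `u` identifies the chains with label `y` and the chains that are related to `y`. -/
structure Cov {X B : Type} [MulAction G X] [MulAction G B] (r : Y → B → Prop) (l : X → Y)
    (u : X → B) : Prop where
  eqv : ∀ (g : G) x, u (g • x) = g • u x
  rel : ∀ x, r (l x) (u x)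
  surj : ∀ y c, On (r y) c → ∃ a, On (l · = y) a ∧ mapDomain u a = c
  inj : ∀ y a, On (l · = y) a → mapDomain u a = 0 → a = 0

theorem exists_cov {B : Type} [MulAction G B] (hB : Fre G B) (r : Y → B → Prop)
    (hr : ∀ (g : G) y β, r y β → r (g • y) (g • β)) (hf : ∀ β, {y | r y β}.Finite) :
    ∃ (X : Type) (_ : MulAction G X) (l : X → Y) (u : X → B), Cov G r l u ∧ Fre G X ∧
      (∀ (g : G) x, l (g • x) = g • l x) ∧ (Cofin G B → Cofin G X) := by
  let _ : MulAction G {x : Y × B // r x.1 x.2} :=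
    { smul := fun g x => ⟨g • x.1, hr g _ _ x.2⟩
      one_smul := fun x => Subtype.ext (one_smul G x.1)
      mul_smul := fun g h x => Subtype.ext (mul_smul g h x.1) }
  refine ⟨{x : Y × B // r x.1 x.2}, inferInstance, fun x => x.1.1, fun x => x.1.2,
    ⟨fun _ _ => rfl, fun x => x.2, fun y c hc => ?_, fun y a ha e => ?_⟩,
    fun g x e => hB g x.1.2 (congrArg (fun x => x.1.2) e), fun _ _ => rfl, ?_⟩
  · refine on_induction (Q := fun c => ∃ a : {x : Y × B // r x.1 x.2} →₀ ℤ,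
      On (·.1.1 = y) a ∧ mapDomain (·.1.2) a = c) ⟨0, On.zero _, mapDomain_zero⟩ ?_
      (fun β n h => ⟨single ⟨(y, β), h⟩ n, on1 rfl n, mapDomain_single⟩) hc
    rintro _ _ ⟨a, ha, rfl⟩ ⟨b, hb, rfl⟩
    exact ⟨a + b, ha.add hb, mapDomain_add⟩
  · ext x
    by_contra h
    have h1 := mapDomain_apply' {x : {x : Y × B // r x.1 x.2} | x.1.1 = y} a ha (f := fun x => x.1.2)
      (fun x hx x' hx' e => Subtype.ext (Prod.ext (hx.trans hx'.symm) e))
      (ha x (mem_support_iff.2 h))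
    rw [e] at h1
    exact h h1.symm
  · rintro ⟨S, hS⟩
    have h1 : {x : {x : Y × B // r x.1 x.2} | x.1.2 ∈ S}.Finite := by
      refine Set.Finite.of_finite_image ((S.finite_toSet.biUnion fun β _ =>
        (hf β).image fun y => (y, β)).subset ?_) Subtype.val_injective.injOn
      rintro _ ⟨x, hx, rfl⟩
      exact Set.mem_biUnion hx ⟨x.1.1, x.2, rfl⟩
    exact ⟨h1.toFinset, fun x => (hS x.1.2).imp fun g hg => h1.mem_toFinset.2 hg⟩

theorem exists_dA {d : ∀ j, (B (j + 1) →₀ ℤ) →ₗ[ℤ] (B j →₀ ℤ)} (C : Cx G d)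
    {r : ∀ j, Y → B j → Prop} (hr : ∀ j y β, r (j + 1) y β → On (r j y) (d j (single β 1)))
    {A : ℕ → Type} [∀ j, MulAction G (A j)] {l : ∀ j, A j → Y} {u : ∀ j, A j → B j}
    (h : ∀ j, Cov G (r j) (l j) (u j)) (hf : ∀ j, Fre G (A j))
    (hl : ∀ j (g : G) x, l j (g • x) = g • l j x) :
    ∃ dA : ∀ j, (A (j + 1) →₀ ℤ) →ₗ[ℤ] (A j →₀ ℤ), Gr G l dA ∧
      ∀ j c, mapDomain (u j) (dA j c) = d j (mapDomain (u (j + 1)) c) := by
  choose a h1 h2 using fun j (x : A (j + 1)) => (h j).surj _ _ (hr j _ _ ((h (j + 1)).rel x))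
  let dA : ∀ j, (A (j + 1) →₀ ℤ) →ₗ[ℤ] (A j →₀ ℤ) := fun j => linearCombination ℤ (a j)
  have h0 : ∀ j x, dA j (single x 1) = a j x := fun j x => by
    rw [linearCombination_single, one_smul]
  have h3 : ∀ j c, mapDomain (u j) (dA j c) = d j (mapDomain (u (j + 1)) c) := fun j c =>
    LinearMap.congr_fun (f := lmapDomain ℤ ℤ (u j) ∘ₗ dA j) (g := d j ∘ₗ lmapDomain ℤ ℤ (u (j + 1)))
      (ch_ext fun x => by
        rw [LinearMap.comp_apply, LinearMap.comp_apply, h0, lmapDomain_apply, lmapDomain_apply,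
          h2, mapDomain_single]) c
  have h4 : ∀ j y c, On (l (j + 1) · = y) c → On (l j · = y) (dA j c) := fun j y c hc =>
    hc.map fun x e => by rw [h0, ← e]; exact h1 j x
  refine ⟨dA, ⟨⟨fun j => eqv_of_single fun g x => ?_, fun j c => ?_, fun c => ?_, hf⟩, hl, h4⟩, h3⟩
  · refine sub_eq_zero.1 ((h j).inj (g • l _ x) _ ((h4 j _ _ (on1 (hl _ g x) 1)).sub
      (on_rep (hl j) g (h4 j _ _ (on1 rfl 1)))) ?_)
    have := eqv_lmapDomain (h j).eqv g (dA j (single x 1))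
    rw [lmapDomain_apply, lmapDomain_apply] at this
    rw [mapDomain_sub, this, h3, h3, ← C.eqv, mapDomain_single, mapDomain_single, permRep_single,
      (h _).eqv, sub_self]
  · refine LinearMap.congr_fun (f := dA j ∘ₗ dA (j + 1)) (g := 0) (ch_ext fun x => ?_) c
    exact (h j).inj (l _ x) _ (h4 _ _ _ (h4 _ _ _ (on1 rfl 1))) (by
      rw [LinearMap.comp_apply, h3, h3, C.d_d])
  · rw [← sm_mapDomain (u 0), h3, C.ε_d]

theorem exists_phi {A P : ℕ → Type} [∀ j, MulAction G (A j)] [∀ j, MulAction G (P j)]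
    {l : ∀ j, A j → Y} {dA : ∀ j, (A (j + 1) →₀ ℤ) →ₗ[ℤ] (A j →₀ ℤ)} (hA : Gr G l dA)
    {l' : ∀ j, P j → Y} {dP : ∀ j, (P (j + 1) →₀ ℤ) →ₗ[ℤ] (P j →₀ ℤ)} (hP : Gr G l' dP)
    (hy : ∀ y, Acy dP fun j x => l' j x = y) :
    ∃ φ : ∀ j, (A j →₀ ℤ) →ₗ[ℤ] (P j →₀ ℤ), (∀ j, Eqv (permRep G _) (permRep G _) (φ j)) ∧
      (∀ j y c, On (l j · = y) c → On (l' j · = y) (φ j c)) ∧ (∀ c, sm _ (φ 0 c) = sm _ c) ∧
      ∀ j c, dP j (φ (j + 1) c) = φ j (dA j c) := by
  let Q : ∀ j, ((A j →₀ ℤ) →ₗ[ℤ] (P j →₀ ℤ)) → Prop := fun j φ =>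
    Eqv (permRep G _) (permRep G _) φ ∧ (∀ y c, On (l j · = y) c → On (l' j · = y) (φ c)) ∧
      ∀ x, ∃ w, On (l' (j + 1) · = l (j + 1) x) w ∧ dP j w = φ (dA j (single x 1))
  have base : ∃ φ, Q 0 φ ∧ ∀ c, sm _ (φ c) = sm _ c := by
    obtain ⟨φ, h1, h2⟩ := exists_eqv (hA.free 0) (permRep G (P 0))
      (fun x w => On (l' 0 · = l 0 x) w ∧ sm _ w = 1)
      (fun g x w h => ⟨by rw [hA.l_eqv]; exact on_rep (hP.l_eqv 0) g h.1,
        by rw [permRep_apply, sm_mapDomain, h.2]⟩)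
      fun x => by
        obtain ⟨β, hβ⟩ := (hy (l 0 x)).ne
        exact ⟨single β 1, on1 hβ 1, sm_single _ _⟩
    have h3 : ∀ c, sm _ (φ c) = sm _ c := fun c =>
      LinearMap.congr_fun (f := sm _ ∘ₗ φ) (g := sm _) (ch_ext fun x => by
        rw [LinearMap.comp_apply, (h2 x).2, sm_single]) c
    have h4 : ∀ y c, On (l 0 · = y) c → On (l' 0 · = y) (φ c) := fun y c hc =>
      hc.map fun x e => e ▸ (h2 x).1
    exact ⟨φ, ⟨h1, h4, fun x => (hy _).zero _ (h4 _ _ (hA.loc 0 _ _ (on1 rfl 1)))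
      (by rw [h3, hA.ε_d])⟩, h3⟩
  have step : ∀ j φ, Q j φ → ∃ ψ, Q (j + 1) ψ ∧ ∀ c, dP j (ψ c) = φ (dA j c) := by
    rintro j φ ⟨e1, e2, e3⟩
    obtain ⟨ψ, h1, h2⟩ := exists_eqv (hA.free (j + 1)) (permRep G (P (j + 1)))
      (fun x w => On (l' (j + 1) · = l (j + 1) x) w ∧ dP j w = φ (dA j (single x 1)))
      (fun g x w h => ⟨by rw [hA.l_eqv]; exact on_rep (hP.l_eqv _) g h.1,
        by rw [hP.eqv, h.2, ← e1, ← hA.eqv, permRep_single]⟩) e3
    have h3 : ∀ c, dP j (ψ c) = φ (dA j c) := fun c =>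
      LinearMap.congr_fun (f := dP j ∘ₗ ψ) (g := φ ∘ₗ dA j) (ch_ext fun x => (h2 x).2) c
    have h4 : ∀ y c, On (l (j + 1) · = y) c → On (l' (j + 1) · = y) (ψ c) := fun y c hc =>
      hc.map fun x e => e ▸ (h2 x).1
    exact ⟨ψ, ⟨h1, h4, fun x => (hy _).succ j _ (h4 _ _ (hA.loc _ _ _ (on1 rfl 1)))
      (by rw [h3, hA.d_d, map_zero])⟩, h3⟩
  obtain ⟨φ₀, h0, h0'⟩ := base
  choose s h1 h2 using step
  let Φ : ∀ j, {φ // Q j φ} := fun j =>
    Nat.rec (motive := fun j => {φ // Q j φ}) ⟨φ₀, h0⟩ (fun j φ => ⟨s j φ.1 φ.2, h1 j φ.1 φ.2⟩) j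
  exact ⟨fun j => (Φ j).1, fun j => (Φ j).2.1, fun j => (Φ j).2.2.1, h0',
    fun j => h2 j (Φ j).1 (Φ j).2⟩

/-- The action on the shifted cells. -/
@[reducible] def actM (A : ℕ → Type) [∀ j, MulAction G (A j)] : ∀ j, MulAction G (Jm A j)
  | 0 => { smul := fun _ x => x, one_smul := fun _ => rfl, mul_smul := fun _ _ _ => rfl }
  | j + 1 => inferInstanceAs (MulAction G (A j))

/-- The shifted boundary. -/
noncomputable def dM {A : ℕ → Type} (dA : ∀ j, (A (j + 1) →₀ ℤ) →ₗ[ℤ] (A j →₀ ℤ)) :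
    ∀ j, (Jm A (j + 1) →₀ ℤ) →ₗ[ℤ] (Jm A j →₀ ℤ)
  | 0 => 0
  | j + 1 => dA j

theorem cyl {d : ∀ j, (B (j + 1) →₀ ℤ) →ₗ[ℤ] (B j →₀ ℤ)} (C : Cx G d)
    {r : ∀ j, Y → B j → Prop} {M P : ℕ → Type} [∀ j, MulAction G (M j)] [∀ j, MulAction G (P j)]
    [IsEmpty (M 0)] {l : ∀ j, M j → Y} {e : ∀ j, (M (j + 1) →₀ ℤ) →ₗ[ℤ] (M j →₀ ℤ)} (hM : Gr G l e)
    {l' : ∀ j, P j → Y} {dP : ∀ j, (P (j + 1) →₀ ℤ) →ₗ[ℤ] (P j →₀ ℤ)} (hP : Gr G l' dP)
    (hy : ∀ y, Acy dP fun j x => l' j x = y) {u : ∀ j, M (j + 1) → B j}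
    (hu : ∀ j, Cov G (r j) (l (j + 1)) (u j))
    (ue : ∀ j c, mapDomain (u j) (e (j + 1) c) = d j (mapDomain (u (j + 1)) c))
    {φ : ∀ j, (M (j + 1) →₀ ℤ) →ₗ[ℤ] (P j →₀ ℤ)} (f1 : ∀ j, Eqv (permRep G _) (permRep G _) (φ j))
    (f2 : ∀ j y c, On (l (j + 1) · = y) c → On (l' j · = y) (φ j c))
    (f3 : ∀ c, sm _ (φ 0 c) = sm _ c) (f4 : ∀ j c, dP j (φ (j + 1) c) = φ j (e (j + 1) c)) :
    ∃ d' : ∀ j, (B (j + 1) ⊕ (P (j + 1) ⊕ M (j + 1)) →₀ ℤ) →ₗ[ℤ] (B j ⊕ (P j ⊕ M j) →₀ ℤ),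
      Cx G (B := fun j => B j ⊕ (P j ⊕ M j)) d' ∧
      (∀ j c, d' j (mapDomain .inl c) = mapDomain .inl (d j c)) ∧
      (∀ j y c, On (Sum.elim (l' (j + 1) · = y) (l (j + 1) · = y)) c →
        On (Sum.elim (r j y) (Sum.elim (l' j · = y) (l j · = y))) (d' j (sumElim 0 c))) ∧
      ∀ y, Acy (B := fun j => B j ⊕ (P j ⊕ M j)) d'
        fun j => Sum.elim (r j y) (Sum.elim (l' j · = y) (l j · = y)) := by
  choose d' hd using fun j => exists_tri (d j) (dP j) (e j) (u j) (φ j)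
  refine ⟨d', ⟨fun j g c => ?_, fun j c => ?_, fun c => ?_,
    fun j => fre_sum (C.free j) (fre_sum (hP.free j) (hM.free j))⟩, fun j c => ?_,
    fun j y c hc => ?_, fun y => ⟨?_, fun z hz h => ?_, fun j z hz h => ?_⟩⟩
  · obtain ⟨b, c, rfl⟩ := se_surj c
    obtain ⟨p, a, rfl⟩ := se_surj c
    have := eqv_lmapDomain (hu j).eqv g a
    rw [lmapDomain_apply, lmapDomain_apply] at this
    rw [rep_se, rep_se, hd, hd, rep_se, rep_se, C.eqv, hP.eqv, hM.eqv, f1, this, map_add, map_sub,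
      map_neg]
  · obtain ⟨b, c, rfl⟩ := se_surj c
    obtain ⟨p, a, rfl⟩ := se_surj c
    have := mapDomain_sub (f := u j) (v₁ := 0) (v₂ := e (j + 1) a)
    rw [zero_sub, mapDomain_zero, zero_sub] at this
    rw [hd, hd, map_add, map_sub, map_neg, map_neg, C.d_d, hP.d_d, hM.d_d, this, ue, f4]
    simp
  · obtain ⟨b, c, rfl⟩ := se_surj c
    obtain ⟨p, a, rfl⟩ := se_surj c
    rw [hd, sm_se, sm_se, map_add, map_sub, map_neg, C.ε_d, hP.ε_d, hM.ε_d, f3, sm_mapDomain]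
    simp
  · have := hd j c 0 0
    simpa [sumElim_eq_add] using this
  · obtain ⟨p, a, rfl⟩ := se_surj c
    obtain ⟨h1, h2⟩ := on_se.1 hc
    rw [hd, map_zero, zero_add]
    exact on_se.2 ⟨h2.mapDomain fun x hx => hx ▸ (hu j).rel x,
      on_se.2 ⟨(hP.loc j y p h1).sub (f2 j y a h2), (hM.loc j y a h2).neg⟩⟩
  · obtain ⟨x, hx⟩ := (hy y).ne
    exact ⟨.inr (.inl x), hx⟩
  · obtain ⟨b, c, rfl⟩ := se_surj z
    obtain ⟨p, a, rfl⟩ := se_surj c
    obtain ⟨h1, h2⟩ := on_se.1 hz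
    obtain ⟨a', h3, rfl⟩ := (hu 0).surj y b h1
    rw [sm_se, sm_se, sm_mapDomain, Subsingleton.elim a 0, map_zero, add_zero] at h
    obtain ⟨w, h4, h5⟩ := (hy y).zero _ ((on_se.1 h2).1.add (f2 0 y a' h3))
      (by rw [map_add, f3, add_comm, h])
    refine ⟨sumElim 0 (sumElim w a'), on_se.2 ⟨On.zero _, on_se.2 ⟨h4, h3⟩⟩, ?_⟩
    rw [hd, map_zero, zero_add, h5, add_sub_cancel_right, Subsingleton.elim a (-e 0 a')]
  · obtain ⟨b, c, rfl⟩ := se_surj z
    obtain ⟨p, a, rfl⟩ := se_surj c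
    obtain ⟨h1, h2⟩ := on_se.1 hz
    obtain ⟨a', h3, rfl⟩ := (hu (j + 1)).surj y b h1
    rw [hd] at h
    have h6 : e (j + 1) a' + a = 0 := (hu j).inj y _ ((hM.loc _ y a' h3).add (on_se.1 h2).2)
      (by rw [mapDomain_add, ue, (se_zero h).1])
    obtain ⟨w, h4, h5⟩ := (hy y).succ j _ ((on_se.1 h2).1.add (f2 _ y a' h3)) (by
      rw [map_add, f4, sub_eq_zero.1 (se_zero (se_zero h).2).1, ← map_add, add_comm a, h6,
        map_zero])
    refine ⟨sumElim 0 (sumElim w a'), on_se.2 ⟨On.zero _, on_se.2 ⟨h4, h3⟩⟩, ?_⟩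
    rw [hd, map_zero, zero_add, h5, add_sub_cancel_right, neg_eq_of_add_eq_zero_right h6]

end AlCyl

open AlCyl in
theorem cyl_stmt : CylStmt := by
  intro G Y _ _ m hY hFP B _ d C hB r hr hd hf
  obtain ⟨P, _, l', dP, hP, cP, hy⟩ := exists_P m hY hFP
  choose A iA l u hu fA hl cA using fun j => exists_cov (C.free j) (r j) (hr j) (hf j)
  obtain ⟨dA, hA, ue⟩ := exists_dA C hd hu fA hl
  obtain ⟨φ, f1, f2, f3, f4⟩ := exists_phi hA hP hy
  let _ := actM (G := G) A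
  have : IsEmpty (Jm A 0) := inferInstanceAs (IsEmpty Empty)
  have hM : Gr G (lm l) (dM dA) := by
    refine ⟨⟨?_, ?_, fun c => map_zero (sm _), ?_⟩, ?_, ?_⟩
    · rintro (_ | j)
      exacts [fun _ _ => Subsingleton.elim _ _, hA.eqv j]
    · rintro (_ | j)
      exacts [fun _ => rfl, hA.d_d j]
    · rintro (_ | j)
      exacts [fun _ x => x.elim, hA.free j]
    · rintro (_ | j)
      exacts [fun _ x => x.elim, hA.l_eqv j]
    · rintro (_ | j)
      exacts [fun _ _ _ => On.zero _, hA.loc j]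
  obtain ⟨d', h1, h2, h3, h4⟩ := cyl C hM hP hy (u := u) hu ue (φ := φ) f1 f2 f3 f4
  have e : ∀ j y, (fun ν : P j ⊕ Jm A j => Sum.elim (l' j) (lm l j) ν = y) =
      Sum.elim (l' j · = y) (lm l j · = y) := fun j y => funext fun ν => by cases ν <;> rfl
  refine ⟨fun j => P j ⊕ Jm A j, inferInstance, fun j => Sum.elim (l' j) (lm l j), d', h1,
    fun j hj => cofin_sum (cP j hj) ?_, ?_, h2, fun j ν => ?_, fun y => ?_⟩
  · cases j with
    | zero => exact ⟨∅, fun x => x.elim⟩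
    | succ j => exact cA j (hB j (by omega))
  · rintro j g (x | x)
    exacts [hP.l_eqv j g x, hM.l_eqv j g x]
  · rw [e, ← sumElim_zero_single]
    refine h3 j _ _ ?_
    rw [← e]
    exact on1 rfl 1
  · simp only [e]
    exact h4 y

end Pool.Agent.MP_4f4d9f_gt.Cb

end

section

/-! Traces and logarithmic determinants. -/

open scoped InnerProductSpace Topology
open Set Filter

namespace Pool.Agent.MP_4f4d9f_gt.Cb

namespace LdBas

section Alg

variable {A : Type} [NormedRing A] [NormedAlgebra ℝ A] [CompleteSpace A]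

/-- The resolvent along the segment from `1` to `y`. -/
noncomputable def res (y : A) (t : ℝ) : A := Ring.inverse (1 + t • (y - 1))

theorem inv_der {u : A} (h : IsUnit u) : HasFDerivAt Ring.inverse
    (-ContinuousLinearMap.mulLeftRight ℝ A (Ring.inverse u) (Ring.inverse u)) u := by
  obtain ⟨u, rfl⟩ := h
  rw [Ring.inverse_unit]
  exact hasFDerivAt_ringInverse u

theorem res_cont {y : A} {t : ℝ} (h : IsUnit (1 + t • (y - 1))) :
    ContinuousAt (fun z : A × ℝ => res z.1 z.2) (y, t) :=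
  ContinuousAt.comp_of_eq (f := fun z : A × ℝ => 1 + z.2 • (z.1 - 1)) (inv_der h).continuousAt
    (by fun_prop) rfl

theorem res_contOn {y : A} (h : ∀ t ∈ Icc (0 : ℝ) 1, IsUnit (1 + t • (y - 1))) :
    ContinuousOn (res y) (Icc 0 1) := fun t ht =>
  (ContinuousAt.comp_of_eq (f := fun t : ℝ => (y, t)) (res_cont (h t ht)) (by fun_prop)
    rfl).continuousWithinAt

theorem der1 {y : A} {t : ℝ} (h : IsUnit (1 + t • (y - 1))) :
    HasFDerivAt (fun y : A => (y - 1) * res y t)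
      (ContinuousLinearMap.mulLeftRight ℝ A (res y t) (res y t)) y := by
  have h1 : HasFDerivAt (fun y : A => y - 1) (ContinuousLinearMap.id ℝ A) y :=
    (hasFDerivAt_id y).sub_const 1
  have h2 := (inv_der h).comp y ((h1.const_smul t).const_add 1)
  have h3 : (1 + t • (y - 1)) * res y t = 1 := Ring.mul_inverse_cancel _ h
  refine (h1.mul' h2).congr_fderiv (ContinuousLinearMap.ext fun δ => Eq.symm ?_)
  have h4 : res y t * δ * res y t = (1 - t • (y - 1) * res y t) * δ * res y t := by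
    congr 2
    rw [add_mul, one_mul] at h3
    exact eq_sub_of_add_eq h3
  rw [ContinuousLinearMap.mulLeftRight_apply, h4]
  change _ = (y - 1) * -(res y t * (t • δ) * res y t) + δ * res y t
  generalize y - 1 = d
  simp only [sub_mul, one_mul, mul_neg, smul_mul_assoc, mul_smul_comm, mul_assoc]
  abel

theorem der2 {y : A} {t : ℝ} (h : IsUnit (1 + t • (y - 1))) :
    HasDerivAt (fun t : ℝ => t • res y t) (res y t * res y t) t := by
  have h1 : HasDerivAt (fun t : ℝ => 1 + t • (y - 1)) (y - 1) t := by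
    simpa using ((hasDerivAt_id t).smul_const (y - 1)).const_add 1
  have h2 := (hasDerivAt_id t).smul ((inv_der h).comp_hasDerivAt t h1)
  have h3 : (1 + t • (y - 1)) * res y t = 1 := Ring.mul_inverse_cancel _ h
  refine h2.congr_deriv (Eq.symm ?_)
  have h4 : res y t * res y t = res y t * (1 - t • (y - 1) * res y t) := by
    congr 1
    rw [add_mul, one_mul] at h3
    exact eq_sub_of_add_eq h3
  rw [h4]
  change _ = t • -(res y t * (y - 1) * res y t) + (1 : ℝ) • res y t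
  generalize y - 1 = d
  simp only [mul_sub, mul_one, one_smul, smul_neg, smul_mul_assoc, mul_smul_comm, mul_assoc]
  abel

theorem main (τ : A →L[ℝ] ℝ) {x : A} (hx : ∀ t ∈ Icc (0 : ℝ) 1, IsUnit (1 + t • (x - 1))) :
    ∃ L : A →L[ℝ] ℝ, HasFDerivAt (fun y => ∫ t in (0 : ℝ)..1, τ ((y - 1) * res y t)) L x ∧
      ∀ δ, (∀ t, τ (res x t * δ * res x t) = τ (res x t * res x t * δ)) →
        L δ = τ (Ring.inverse x * δ) := by
  obtain ⟨B, hB⟩ := isCompact_Icc.exists_bound_of_continuousOn (res_contOn hx)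
  have hs : ∀ᶠ y in 𝓝 x, ∀ t ∈ Icc (0 : ℝ) 1, IsUnit (1 + t • (y - 1)) ∧ ‖res y t‖ ≤ B + 1 := by
    refine isCompact_Icc.eventually_forall_of_forall_eventually fun t ht => Eventually.and ?_ ?_
    · have h1 : ContinuousAt (fun z : A × ℝ => 1 + z.2 • (z.1 - 1)) (x, t) := by fun_prop
      exact h1.eventually (Units.isOpen.mem_nhds (hx t ht))
    · exact ((res_cont (hx t ht)).norm.eventually
        (gt_mem_nhds ((hB t ht).trans_lt (lt_add_one B)))).mono fun z hz => hz.le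
  have hI : Set.uIoc (0 : ℝ) 1 ⊆ Icc 0 1 := by
    rw [uIoc_of_le zero_le_one]
    exact Ioc_subset_Icc_self
  have c1 : ∀ y : A, (∀ t ∈ Icc (0 : ℝ) 1, IsUnit (1 + t • (y - 1))) →
      ContinuousOn (fun t => τ ((y - 1) * res y t)) (Icc 0 1) := fun y hy =>
    τ.continuous.comp_continuousOn (continuousOn_const.mul (res_contOn hy))
  have c2 : ContinuousOn
      (fun t => τ.comp (ContinuousLinearMap.mulLeftRight ℝ A (res x t) (res x t))) (Icc 0 1) :=
    continuousOn_const.clm_comp (((ContinuousLinearMap.mulLeftRight ℝ A).continuous.comp_continuousOn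
      (res_contOn hx)).clm_apply (res_contOn hx))
  refine ⟨_, intervalIntegral.hasFDerivAt_integral_of_dominated_of_fderiv_le
    (F' := fun y t => τ.comp (ContinuousLinearMap.mulLeftRight ℝ A (res y t) (res y t)))
    (bound := fun _ => ‖τ‖ * ((B + 1) * (B + 1))) hs
    (hs.mono fun y hy => ((c1 y fun t ht => (hy t ht).1).mono hI).aestronglyMeasurable
      measurableSet_uIoc)
    ((c1 x hx).intervalIntegrable_of_Icc zero_le_one)
    ((c2.mono hI).aestronglyMeasurable measurableSet_uIoc)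
    (Eventually.of_forall fun t ht y hy => ?_) intervalIntegrable_const
    (Eventually.of_forall fun t ht y hy => τ.hasFDerivAt.comp y (der1 (hy t (hI ht)).1)),
    fun δ hδ => ?_⟩
  · have h1 := (hy t (hI ht)).2
    have h2 : 0 ≤ B + 1 := (norm_nonneg _).trans h1
    refine (ContinuousLinearMap.opNorm_comp_le _ _).trans ?_
    gcongr
    refine (ContinuousLinearMap.opNorm_mulLeftRight_apply_apply_le _ _ _ _).trans ?_
    gcongr
  · rw [ContinuousLinearMap.intervalIntegral_apply (c2.intervalIntegrable_of_Icc zero_le_one)]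
    simp only [ContinuousLinearMap.comp_apply, ContinuousLinearMap.mulLeftRight_apply, hδ]
    rw [intervalIntegral.integral_eq_sub_of_hasDerivAt (f := fun t => τ (t • res x t * δ))]
    · simp [res]
    · intro t ht
      rw [uIcc_of_le zero_le_one] at ht
      exact τ.hasFDerivAt.comp_hasDerivAt t ((der2 (hx t ht)).mul_const δ)
    · exact (τ.continuous.comp_continuousOn (((res_contOn hx).mul (res_contOn hx)).mul
        continuousOn_const)).intervalIntegrable_of_Icc zero_le_one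

end Alg

variable {G H I : Type} [Group G] [Fintype I] [NormedAddCommGroup H] [InnerProductSpace ℂ H]
  [CompleteSpace H] {π : G →* (H →L[ℂ] H)} {e : I → H}

theorem tr_mul (e : I → H) (S T : H →L[ℂ] H) :
    tr e (S * T) = ∑ i, (⟪ContinuousLinearMap.adjoint S (e i), T (e i)⟫_ℂ).re := by
  simp only [tr, ContinuousLinearMap.adjoint_inner_left, mul_apply_eq_comp]

theorem tr_comm (F : GFrame π e) {S T : H →L[ℂ] H} (hS : Cm π S) (hT : Cm π T) :
    tr e (S * T) = tr e (T * S) := by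
  have k : ∀ {U : H →L[ℂ] H}, Cm π U → ∀ g ξ, U (π g ξ) = π g (U ξ) := fun h g ξ =>
    (congrArg (fun U : H →L[ℂ] H => U ξ) (h g)).symm
  rw [tr_mul, tr_mul, ← HilbAux.re_inner_adjoint F F _ T (HilbAux.adjoint_equiv F F S (k hS)) (k hT),
    ContinuousLinearMap.adjoint_adjoint]
  exact Finset.sum_congr rfl fun i _ => inner_re_symm (𝕜 := ℂ) _ _

omit [CompleteSpace H] in
theorem tr_nonneg (e : I → H) {T : H →L[ℂ] H} (h : 0 ≤ T) : 0 ≤ tr e T :=
  Finset.sum_nonneg fun _ _ =>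
    ((ContinuousLinearMap.nonneg_iff_isPositive _).1 h).re_inner_nonneg_right _

theorem tr_pos (F : GFrame π e) {A B : H →L[ℂ] H} (hA : Cm π A) (hB : Cm π B) (h1 : 0 ≤ A)
    (h2 : 0 ≤ B) : 0 ≤ tr e (A * B) := by
  have h3 : Cm π (CFC.sqrt A) := fun g => by
    rw [CFC.sqrt_eq_cfc]
    exact ((hA g).symm.cfc_nnreal _).symm
  rw [← CFC.sqrt_mul_sqrt_self A h1, mul_assoc, tr_comm F h3 fun g => (h3 g).mul_right (hB g)]
  exact tr_nonneg e (conjugate_nonneg_of_nonneg h2 (CFC.sqrt_nonneg A))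

theorem exists_trL (e : I → H) : ∃ τ : (H →L[ℂ] H) →L[ℝ] ℝ, ∀ T, τ T = tr e T :=
  ⟨{ toFun := tr e
     map_add' := tr_add e
     map_smul' := fun t T => by rw [← Complex.coe_smul, tr_smul]; rfl
     cont := by unfold tr; fun_prop }, fun _ => rfl⟩

theorem seg {x y : H →L[ℂ] H} (hx : IsStrictlyPositive x) (hy : IsStrictlyPositive y) {s : ℝ}
    (hs : s ∈ Icc (0 : ℝ) 1) : IsStrictlyPositive (x + s • (y - x)) := by
  rcases hs.2.eq_or_lt with rfl | h
  · simpa using hy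
  · rw [show x + s • (y - x) = (1 - s) • x + s • y by module]
    exact (hx.smul (sub_pos.2 h)).add_nonneg (smul_nonneg hs.1 hy.nonneg)

omit [CompleteSpace H] in
theorem seg_cm {x y : H →L[ℂ] H} (hx : Cm π x) (hy : Cm π y) (s : ℝ) : Cm π (x + s • (y - x)) :=
  fun g => (hx g).add_right (((hy g).sub_right (hx g)).smul_right s)

theorem ld_der (F : GFrame π e) {x : H →L[ℂ] H} (hc : Cm π x) (hx : IsStrictlyPositive x) :
    ∃ L : (H →L[ℂ] H) →L[ℝ] ℝ, HasFDerivAt (ld e) L x ∧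
      ∀ δ, Cm π δ → L δ = tr e (Ring.inverse x * δ) := by
  obtain ⟨τ, hτ⟩ := exists_trL e
  obtain ⟨L, h1, h2⟩ := main τ fun t ht => (seg isStrictlyPositive_one hx ht).isUnit
  refine ⟨L, ?_, fun δ hδ => ?_⟩
  · have e1 : ld e = fun y => ∫ t in (0 : ℝ)..1, τ ((y - 1) * res y t) := by
      funext y
      simp only [ld, hτ, res, Complex.coe_smul]
    rw [e1]
    exact h1
  · rw [← hτ]
    refine h2 δ fun t => ?_
    have h3 : Cm π (res x t) := (seg_cm (fun g => Commute.one_right _) hc t).inverse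
    rw [hτ, hτ, tr_comm F (fun g => (h3 g).mul_right (hδ g)) h3, mul_assoc]

theorem ld_le (F : GFrame π e) {x y : H →L[ℂ] H} (cx : Cm π x) (cy : Cm π y)
    (hx : IsStrictlyPositive x) (hy : IsStrictlyPositive y) :
    ld e y ≤ ld e x + tr e (Ring.inverse x * (y - x)) := by
  have cd : Cm π (y - x) := fun g => (cy g).sub_right (cx g)
  have hd : ∀ s ∈ Icc (0 : ℝ) 1, HasDerivAt (fun s : ℝ => ld e (x + s • (y - x)))
      (tr e (Ring.inverse (x + s • (y - x)) * (y - x))) s := fun s hs => by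
    obtain ⟨L, h1, h2⟩ := ld_der F (seg_cm cx cy s) (seg hx hy hs)
    have h3 : HasDerivAt (fun s : ℝ => x + s • (y - x)) (y - x) s := by
      simpa using ((hasDerivAt_id s).smul_const (y - x)).const_add x
    rw [← h2 _ cd]
    exact h1.comp_hasDerivAt s h3
  obtain ⟨c, hc, h1⟩ := exists_hasDerivAt_eq_slope _ _ zero_lt_one
    (fun s hs => (hd s hs).continuousAt.continuousWithinAt)
    fun s hs => hd s (Ioo_subset_Icc_self hs)
  have hz := seg hx hy (Ioo_subset_Icc_self hc)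
  have cz := seg_cm cx cy c
  have h2 : Ring.inverse x * (y - x) = Ring.inverse (x + c • (y - x)) * (y - x) + (c : ℂ) •
      (Ring.inverse x * ((y - x) * Ring.inverse (x + c • (y - x)) * (y - x))) := by
    have h3 : Ring.inverse x * ((x + c • (y - x)) * Ring.inverse (x + c • (y - x))) =
        Ring.inverse x := by rw [Ring.mul_inverse_cancel _ hz.isUnit, mul_one]
    rw [add_mul, mul_add, ← mul_assoc, Ring.inverse_mul_cancel _ hx.isUnit, one_mul] at h3
    nth_rw 1 [← h3]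
    simp only [add_mul, Complex.coe_smul, smul_mul_assoc, mul_smul_comm, mul_assoc]
  have h4 := tr_pos F cx.inverse (fun g => ((cd g).mul_right (cz.inverse g)).mul_right (cd g))
    hx.ringInverse.nonneg
    ((hy.isSelfAdjoint.sub hx.isSelfAdjoint).conjugate_nonneg hz.ringInverse.nonneg)
  rw [h2, tr_add, tr_smul, h1]
  have h5 := mul_nonneg hc.1.le h4
  simp only [one_smul, zero_smul, add_zero, sub_zero, div_one, add_sub_cancel]
  linarith

end LdBas

theorem ldBas_stmt : LdBasStmt := by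
  intro G H I _ _ _ _ _ π e F
  exact ⟨fun _ _ => LdBas.tr_comm F, fun _ _ => LdBas.tr_pos F, fun _ => LdBas.ld_der F,
    fun _ _ => LdBas.ld_le F⟩

end Pool.Agent.MP_4f4d9f_gt.Cb

end
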