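import Pool.Agent.Mg.F4f4d9fr.G69af78

set_option linter.all false

/-! Vanishing of the twisted cohomology with coefficients in the von Neumann algebra in degrees
zero and one. -/

open scoped InnerProductSpace

namespace Pool.Agent.MP_4f4d9f_gt.Hy

open Finsupp Sg Sg.Tup

namespace CohVL

section Alg

variable {G N : Type} [Group G] [Ring N] (ι : G →* N) (w : G →* ℤˣ)

/-- The twisted anti-homomorphism. -/
def tw (h : G) : N := (w h : ℤ) • ι h⁻¹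

theorem tw_one : tw ι w 1 = 1 := by simp [tw]

theorem tw_mul (g h : G) : tw ι w (g * h) = tw ι w h * tw ι w g := by
  simp only [tw, map_mul, mul_inv_rev, Units.val_mul, smul_mul_smul_comm, mul_comm (w g : ℤ)]

theorem eqvC_iff {φ : Tup G → N} : EqvC ι w φ ↔ ∀ (h : G) b, φ (h • b) = φ b * tw ι w h := by
  simp only [EqvC, tw, mul_smul_comm]

omit [Group G] in
theorem bd_edge (a k : G) :
    bdT ℤ (single (cons a (pt k)) 1) = single (pt k) 1 - single (pt a) 1 := by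
  rw [bdT_cons, bdT_pt, map_zero, sub_zero, eps_single, deg_pt, if_pos rfl, one_smul]

omit [Group G] in
theorem bd_tri (a g k : G) : bdT ℤ (single (cons a (cons g (pt k))) 1) =
    single (cons g (pt k)) 1 - (single (cons a (pt k)) 1 - single (cons a (pt g)) 1) := by
  rw [bdT_cons, bd_edge, map_sub, cn_single, cn_single, eps_single, deg_cons,
    if_neg (Nat.succ_ne_zero _), zero_smul, sub_zero]

omit [Group G] in
theorem eq_edge {x : Tup G} (h : x.deg = 1) : ∃ a k, x = cons a (pt k) := by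
  obtain ⟨a, l⟩ := x
  obtain ⟨k, rfl⟩ := List.length_eq_one_iff.1 h
  exact ⟨a, k, rfl⟩

variable {ι w}

theorem van_zero {S : Finset G} {D : N} (hD : (∑ s ∈ S, (1 - tw ι w s)) * D = 1) :
    CohVan ι w 0 := by
  intro φ hφ hc
  rw [eqvC_iff] at hφ
  have h1 : ∀ h, φ (pt h) = φ (pt 1) * tw ι w h := fun h => by rw [← hφ, smul_pt, mul_one]
  have h2 : ∀ h, φ (pt 1) * tw ι w h = φ (pt 1) := fun h => by
    have := hc (cons 1 (pt h)) rfl
    rw [bd_edge, map_sub, linearCombination_single, linearCombination_single, one_smul, one_smul,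
      sub_eq_zero] at this
    rw [← h1, this]
  have h3 : φ (pt 1) = 0 := by
    rw [← mul_one (φ (pt 1)), ← hD, ← mul_assoc, Finset.mul_sum]
    simp [mul_sub, h2]
  refine ⟨0, fun h b => by simp, fun b hb => ?_⟩
  rw [eq_pt hb, h1, h3, zero_mul, bdT_pt, map_zero]

theorem van_one {S : Finset G} {D : N} (hD : D * (∑ s ∈ S, (1 - tw ι w s)) = 1)
    (H : ∀ β : G → N, (∀ g h, β (g * h) = β g + β h * tw ι w g) → ∑ s ∈ S, β s = 0 →
      ∀ g, β g = 0) : CohVan ι w 1 := by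
  intro φ hφ hc
  rw [eqvC_iff] at hφ
  have h1 : ∀ g h, φ (cons g (pt (g * h))) = φ (cons 1 (pt h)) * tw ι w g := fun g h => by
    rw [← hφ, smul_cons, smul_pt, mul_one]
  have h2 : ∀ g h, φ (cons 1 (pt (g * h))) =
      φ (cons 1 (pt g)) + φ (cons 1 (pt h)) * tw ι w g := fun g h => by
    have := hc (cons 1 (cons g (pt (g * h)))) rfl
    simp only [bd_tri, map_sub, linearCombination_single, one_smul, h1, sub_eq_zero] at this
    rw [this, add_sub_cancel]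
  obtain ⟨ν, hν⟩ : ∃ ν : N, ν * ∑ s ∈ S, (1 - tw ι w s) = -∑ s ∈ S, φ (cons 1 (pt s)) :=
    ⟨-(∑ s ∈ S, φ (cons 1 (pt s))) * D, by rw [mul_assoc, hD, mul_one]⟩
  have h3 := H (fun h => φ (cons 1 (pt h)) + ν * (1 - tw ι w h))
    (fun g h => by rw [h2, tw_mul]; noncomm_ring)
    (by rw [Finset.sum_add_distrib, ← Finset.mul_sum, hν, add_neg_cancel])
  refine ⟨fun x => ν * tw ι w x.hd, (eqvC_iff ι w).2 fun h x => ?_, fun x hx => ?_⟩
  · rw [smul_hd, tw_mul, mul_assoc]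
  · obtain ⟨a, k, rfl⟩ := eq_edge hx
    obtain ⟨h, rfl⟩ : ∃ h, k = a * h := ⟨a⁻¹ * k, by simp⟩
    rw [bd_edge, map_sub, linearCombination_single, linearCombination_single, one_smul, one_smul,
      h1, eq_neg_of_add_eq_zero_left (h3 h)]
    change _ = ν * tw ι w (a * h) - ν * tw ι w a
    rw [tw_mul]
    noncomm_ring

end Alg

section An

open FA
open ContinuousLinearMap (adjoint)

variable {G E : Type} [Group G] [NormedAddCommGroup E] [InnerProductSpace ℂ E] [CompleteSpace E]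
  {b : HilbertBasis G ℂ E} {ι : G →* vnAlg b} (w : G →* ℤˣ)

omit [CompleteSpace E] in
theorem tw_apply (s : G) (ξ : E) : (tw ι w s).1 ξ = ((w s : ℤ) : ℂ) • (ι s⁻¹).1 ξ := by
  rw [Int.cast_smul_eq_zsmul]
  rfl

theorem norm_w (s : G) : ‖((w s : ℤ) : ℂ)‖ = 1 := by
  rcases Int.units_eq_one_or (w s) with h | h <;> simp [h]

theorem eq_zero_of_inner {a : vnAlg b} (h : ∀ y, ⟪b 1, a.1 (b y)⟫_ℂ = 0) : a = 0 := by
  refine Subtype.ext (op_ext_basis b fun y => ext_basis b fun z => ?_)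
  have h1 : b z = adjoint (rt b z) (b 1) := by rw [adjoint_rt, rt_basis, inv_inv, one_mul]
  have h2 : rt b z (a.1 (b y)) = a.1 (rt b z (b y)) :=
    congrArg (fun T : E →L[ℂ] E => T (b y)) (rt_comm b a z)
  rw [h1, ContinuousLinearMap.adjoint_inner_left, h2, rt_basis, h]
  simp

variable (hι : ∀ g h, (ι g).1 (b h) = b (g * h))

include hι

theorem inner_tw (s y : G) (ξ : E) :
    ⟪b y, (tw ι w s).1 ξ⟫_ℂ = ((w s : ℤ) : ℂ) * ⟪b (s * y), ξ⟫_ℂ := by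
  have h : adjoint (ι s⁻¹).1 = (ι s).1 :=
    adjoint_perm b (Equiv.mulLeft s⁻¹) (hι s⁻¹) fun h => by rw [hι]; simp
  rw [tw_apply, inner_smul_right, ← ContinuousLinearMap.adjoint_inner_left, h, hι]

theorem norm_tw (s : G) (ξ : E) : ‖(tw ι w s).1 ξ‖ ^ 2 = ‖ξ‖ ^ 2 := by
  have h1 := hasSum_basis b ((tw ι w s).1 ξ)
  simp only [inner_tw w hι, norm_mul, norm_w, one_mul] at h1
  exact h1.unique (((Equiv.mulLeft s).hasSum_iff (f := fun g => ‖⟪b g, ξ⟫_ℂ‖ ^ 2)).2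
    (hasSum_basis b ξ))

theorem en_le (s : G) (ξ : E) :
    ∑' x, (‖⟪b (x * s)⁻¹, ξ⟫_ℂ‖ - ‖⟪b x⁻¹, ξ⟫_ℂ‖) ^ 2 ≤
      2 * (⟪ξ - (tw ι w s).1 ξ, ξ⟫_ℂ).re := by
  have h1 : HasSum (fun x => ‖⟪b (x * s)⁻¹, ξ - (tw ι w s).1 ξ⟫_ℂ‖ ^ 2)
      (‖ξ - (tw ι w s).1 ξ‖ ^ 2) :=
    (((Equiv.mulRight s).trans (Equiv.inv G)).hasSum_iff
      (f := fun g => ‖⟪b g, ξ - (tw ι w s).1 ξ⟫_ℂ‖ ^ 2)).2 (hasSum_basis b _)
  have h2 : ∀ x, (‖⟪b (x * s)⁻¹, ξ⟫_ℂ‖ - ‖⟪b x⁻¹, ξ⟫_ℂ‖) ^ 2 ≤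
      ‖⟪b (x * s)⁻¹, ξ - (tw ι w s).1 ξ⟫_ℂ‖ ^ 2 := fun x => by
    have e : ‖⟪b x⁻¹, ξ⟫_ℂ‖ = ‖⟪b (x * s)⁻¹, (tw ι w s).1 ξ⟫_ℂ‖ := by
      rw [inner_tw w hι, norm_mul, norm_w, one_mul, mul_inv_rev, mul_inv_cancel_left]
    rw [e, inner_sub_right, sq_le_sq, abs_norm]
    exact abs_norm_sub_norm_le _ _
  refine ((Summable.of_nonneg_of_le (fun _ => sq_nonneg _) h2 h1.summable).tsum_le_tsum h2
    h1.summable).trans (le_of_eq ?_)
  have h3 : (⟪ξ, ξ⟫_ℂ).re = ‖ξ‖ ^ 2 := inner_self_eq_norm_sq (𝕜 := ℂ) ξ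
  have h4 : (⟪(tw ι w s).1 ξ, ξ⟫_ℂ).re = RCLike.re ⟪ξ, (tw ι w s).1 ξ⟫_ℂ :=
    inner_re_symm (𝕜 := ℂ) _ _
  rw [h1.tsum_eq, norm_sub_sq (𝕜 := ℂ), norm_tw w hι, inner_sub_left, Complex.sub_re, h3, h4]
  ring

theorem exists_inv {S : Finset G} {C : ℝ} (hS : SG S C) : ∃ D : vnAlg b,
    (∑ s ∈ S, (1 - tw ι w s)) * D = 1 ∧ D * (∑ s ∈ S, (1 - tw ι w s)) = 1 := by
  set Δ : vnAlg b := ∑ s ∈ S, (1 - tw ι w s) with hΔ
  have hc : 0 < (2 * (|C| + 1))⁻¹ := by positivity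
  have hu : IsUnit Δ.1 := by
    refine ContinuousLinearMap.isUnit_of_forall_le_norm_inner_map _ (c := ⟨_, hc.le⟩) hc fun ξ => ?_
    have h1 : HasSum (fun x => ‖⟪b x⁻¹, ξ⟫_ℂ‖ ^ 2) (‖ξ‖ ^ 2) :=
      ((Equiv.inv G).hasSum_iff (f := fun g => ‖⟪b g, ξ⟫_ℂ‖ ^ 2)).2 (hasSum_basis b ξ)
    have h2 := hS (fun x => ‖⟪b x⁻¹, ξ⟫_ℂ‖) h1.summable
    rw [h1.tsum_eq] at h2
    have h3 : 0 ≤ En S fun x => ‖⟪b x⁻¹, ξ⟫_ℂ‖ :=
      Finset.sum_nonneg fun s _ => tsum_nonneg fun _ => sq_nonneg _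
    have h4 : Δ.1 ξ = ∑ s ∈ S, (ξ - (tw ι w s).1 ξ) := by
      rw [hΔ, AddSubmonoidClass.coe_finsetSum, _root_.sum_apply]
      rfl
    have h5 : (En S fun x => ‖⟪b x⁻¹, ξ⟫_ℂ‖) ≤ 2 * ‖⟪Δ.1 ξ, ξ⟫_ℂ‖ := by
      refine (Finset.sum_le_sum fun s _ => en_le w hι s ξ).trans ?_
      rw [← Finset.mul_sum, ← Complex.re_sum, ← sum_inner, ← h4]
      exact mul_le_mul_of_nonneg_left (Complex.re_le_norm _) zero_le_two
    change ‖ξ‖ ^ 2 * (2 * (|C| + 1))⁻¹ ≤ _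
    rw [← div_eq_mul_inv, div_le_iff₀ (by positivity)]
    have h6 := mul_le_mul_of_nonneg_right (le_abs_self C) h3
    have h7 := mul_le_mul_of_nonneg_left h5 (abs_nonneg C)
    nlinarith [norm_nonneg ⟪Δ.1 ξ, ξ⟫_ℂ]
  obtain ⟨u, hu⟩ := hu
  refine ⟨⟨↑u⁻¹, fun T hT => ?_⟩, Subtype.ext ?_, Subtype.ext ?_⟩
  · have : Commute T (u : E →L[ℂ] E) := by rw [hu]; exact Δ.2 T hT
    exact this.units_inv_right
  · exact Units.mul_inv_of_eq hu
  · exact Units.inv_mul_of_eq hu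

theorem harm_zero {S : Finset G} (hL : Liou S) (β : G → vnAlg b)
    (h1 : ∀ g h, β (g * h) = β g + β h * tw ι w g) (h2 : ∑ s ∈ S, β s = 0) (g : G) : β g = 0 := by
  have h0 : β 1 = 0 := by simpa [tw_one] using h1 1 1
  refine eq_zero_of_inner fun y => ?_
  set F : G → ℂ := fun x => ⟪b 1, (β x).1 (b y)⟫_ℂ with hF
  have e1 : ∀ x s, F (x * s) - F x = ⟪b 1, (β s).1 ((tw ι w x).1 (b y))⟫_ℂ := fun x s => by
    simp only [hF, h1]
    rw [← inner_sub_right]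
    exact congrArg _ (add_sub_cancel_left _ _)
  have e2 : ∀ s, Sq fun x => ‖F (x * s) - F x‖ := fun s => by
    have := (((Equiv.inv G).trans (Equiv.mulRight y)).summable_iff
      (f := fun g => ‖⟪b g, adjoint (β s).1 (b 1)⟫_ℂ‖ ^ 2)).2 (hasSum_basis b _).summable
    refine this.congr fun x => ?_
    change _ = ‖F (x * s) - F x‖ ^ 2
    rw [e1, tw_apply, hι, map_smul, inner_smul_right, norm_mul, norm_w, one_mul,
      ← ContinuousLinearMap.adjoint_inner_left, norm_inner_symm]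
    rfl
  have e3 : ∀ x, ∑ s ∈ S, F (x * s) = S.card * F x := fun x => by
    have : ∑ s ∈ S, (F (x * s) - F x) = 0 := by
      simp only [e1]
      rw [← inner_sum, ← _root_.sum_apply, ← AddSubmonoidClass.coe_finsetSum, h2]
      simp
    rwa [Finset.sum_sub_distrib, Finset.sum_const, nsmul_eq_mul, sub_eq_zero] at this
  have e4 : F 1 = 0 := by simp [hF, h0]
  have key : ∀ L : ℂ →ₗ[ℝ] ℝ, (∀ z, |L z| ≤ ‖z‖) → L (F g) = 0 := fun L hL' => by
    have := hL (fun x => L (F x))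
      (fun s _ => (e2 s).of_le fun x => by rw [← map_sub, abs_norm]; exact hL' _)
      (fun x => by rw [← map_sum, e3, ← nsmul_eq_mul, map_nsmul, nsmul_eq_mul]) g 1
    rwa [e4, map_zero] at this
  exact Complex.ext (key Complex.reLm Complex.abs_re_le_norm)
    (key Complex.imLm Complex.abs_im_le_norm)

end An

end CohVL

theorem cohV_stmt : CohVStmt := by
  intro G E _ _ _ b ι hι S C _ hS hL w
  have : CompleteSpace E := b.repr.toIsometryEquiv.completeSpace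
  obtain ⟨D, h1, h2⟩ := CohVL.exists_inv w hι hS
  exact ⟨CohVL.van_zero h1, CohVL.van_one h2 (CohVL.harm_zero w hι hL)⟩

end Pool.Agent.MP_4f4d9f_gt.Hy
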