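import Pool.Agent.Mg.F4f4d9fr.G6b1a08

set_option linter.all false

/-! A cut that is nested with its translates. -/

namespace Pool.Agent.MP_4f4d9f_gt.Nc

open Hy

namespace AcMinL

theorem count {α : Type} {s t a b : Set α} (ha : a.Finite) (hb : b.Finite) (h1 : s ∪ t ⊆ a ∪ b)
    (h2 : s ∩ t ⊆ a ∩ b) : s.ncard + t.ncard ≤ a.ncard + b.ncard ∧
      (¬ a ∩ b ⊆ s ∩ t → s.ncard + t.ncard < a.ncard + b.ncard) := by
  have h3 := (ha.union hb).subset h1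
  rw [← Set.ncard_union_add_ncard_inter s t (h3.subset Set.subset_union_left)
    (h3.subset Set.subset_union_right), ← Set.ncard_union_add_ncard_inter a b ha hb]
  have h4 := Set.ncard_le_ncard h1 (ha.union hb)
  have h5 := ha.subset (Set.inter_subset_left (t := b))
  exact ⟨add_le_add h4 (Set.ncard_le_ncard h2 h5),
    fun e => add_lt_add_of_le_of_lt h4 (Set.ncard_lt_ncard ⟨h2, e⟩ h5)⟩

variable {G I : Type} [Group G] [MulAction G I] {nb : I → Finset I} {r : I → I → Prop}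
  {U : Finset I} {k : ℕ} {x y : I} {A B : Set I}

theorem sp_or {u v : I} (h : Sp (A ∩ B) u v ∨ Sp (A ∪ B) u v) : Sp A u v ∨ Sp B u v := by
  simp only [Sp, Set.mem_inter_iff, Set.mem_union] at h ⊢
  tauto

theorem sp_and {u v : I} (h : Sp (A ∩ B) u v) (h' : Sp (A ∪ B) u v) : Sp A u v ∧ Sp B u v := by
  simp only [Sp, Set.mem_inter_iff, Set.mem_union] at h h' ⊢
  tauto

/-- The translate. -/
def tr (g : G) (A : Set I) : Set I := {y | g • y ∈ A}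

variable (G) in
/-- The number of translates of a pair that are separated. -/
noncomputable def nu (p : I × I) (A : Set I) : ℕ := {g : G | Sp A (g • p.1) (g • p.2)}.ncard

variable (G nb r) in
/-- Small cuts of classes that are not cocompact. -/
def Mn (k : ℕ) (x : I) (A : Set I) : Prop :=
  ¬ Coc G (cls r x) ∧ Cut nb r x A ∧ (Dl nb r A).ncard ≤ k

variable (G nb r) in
/-- Cuts of least norm. -/
def Good (k : ℕ) (A : Set I) : Prop :=
  ∀ p : I × I, r p.1 p.2 → ∃ Φ : Finset (I × I), p ∈ Φ ∧ (∀ q ∈ Φ, r q.1 q.2) ∧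
    ∀ y C, Mn G nb r k y C → ∑ q ∈ Φ, nu G q A ≤ ∑ q ∈ Φ, nu G q C

theorem cls_tr (h : St nb G r U) (g : G) (x : I) : cls r (g⁻¹ • x) = tr g (cls r x) := by
  ext y
  change r (g⁻¹ • x) y ↔ r x (g • y)
  rw [← h.inv_iff g, smul_inv_smul]

theorem dl_tr (h : St nb G r U) (g : G) (A : Set I) :
    Dl nb r (tr g A) = (fun e : I × I => g • e) ⁻¹' Dl nb r A :=
  Set.ext fun e => and_congr (h.gr.eqv_iff g e.1 e.2).symm
    (and_congr (h.inv_iff g e.1 e.2).symm Iff.rfl)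

theorem tr_inf (g : G) (h : A.Infinite) : (tr g A).Infinite :=
  h.preimage (f := fun y => g • y) fun y _ => MulAction.surjective g y

theorem Mn.tr (h : St nb G r U) (m : Mn G nb r k x A) (g : G) :
    Mn G nb r k (g⁻¹ • x) (tr g A) := by
  obtain ⟨m1, ⟨m2, m3, m4, m5⟩, m6⟩ := m
  refine ⟨fun e => m1 (by simpa using h.coc_smul g e), ⟨?_, ?_, tr_inf g m4, ?_⟩, ?_⟩
  · rw [cls_tr h]
    exact fun y hy => m2 hy
  · rw [dl_tr h]
    exact m3.preimage (MulAction.injective g).injOn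
  · rw [cls_tr h]
    exact tr_inf g m5
  · rwa [dl_tr h, Set.ncard_preimage_of_injective_subset_range (MulAction.injective g)
      fun e _ => MulAction.surjective g e]

theorem Mn.compl (h : St nb G r U) (m : Mn G nb r k x A) : Mn G nb r k x (cls r x \ A) := by
  obtain ⟨m1, ⟨m2, m3, m4, m5⟩, m6⟩ := m
  refine ⟨m1, ⟨Set.sdiff_subset, ?_, m5, ?_⟩, ?_⟩
  · rwa [h.dl_compl m2]
  · exact m4.mono fun y hy => ⟨m2 hy, fun e => e.2 hy⟩
  · rwa [h.dl_compl m2]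

theorem Mn.congr (h : St nb G r U) (m : Mn G nb r k x A) (e : r y x) : Mn G nb r k y A := by
  unfold Mn Cut at m ⊢
  rwa [h.cls_eq e]

theorem nu_tr (g : G) (p : I × I) (A : Set I) : nu G p (tr g A) = nu G p A := by
  unfold nu
  rw [← Set.ncard_preimage_of_injective_subset_range (s := {g : G | Sp A (g • p.1) (g • p.2)})
    (mul_right_injective g) fun e _ => mul_left_surjective g e]
  congr 1
  ext u
  simp only [Set.mem_preimage, Set.mem_ofPred_eq, mul_smul]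
  rfl

theorem nu_compl (h : St nb G r U) (hA : A ⊆ cls r x) {p : I × I} (hp : r p.1 p.2) :
    nu G p (cls r x \ A) = nu G p A := by
  unfold nu
  congr 1
  ext g
  have h2 := h.inv g _ _ hp
  have h3 : g • p.1 ∈ cls r x ↔ g • p.2 ∈ cls r x :=
    ⟨fun h4 => h.eq.trans h4 h2, fun h4 => h.eq.trans h4 (h.eq.symm h2)⟩
  have h4 := @hA (g • p.1)
  have h5 := @hA (g • p.2)
  simp only [Sp, Set.mem_ofPred_eq, Set.mem_sdiff]
  tauto

theorem Good.congr (hg : Good G nb r k A) (e : ∀ q : I × I, r q.1 q.2 → nu G q B = nu G q A) :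
    Good G nb r k B := fun p hp => by
  obtain ⟨Φ, h1, h2, h3⟩ := hg p hp
  exact ⟨Φ, h1, h2, fun y C m =>
    (Finset.sum_congr rfl fun q hq => e q (h2 q hq)).le.trans (h3 y C m)⟩

theorem key (h : St nb G r U)
    (hk : ∀ x A, ¬ Coc G (cls r x) → Cut nb r x A → k ≤ (Dl nb r A).ncard)
    (hg : Good G nb r k A) (mA : Mn G nb r k x A) (mB : Mn G nb r k x B)
    (e : ∀ q : I × I, r q.1 q.2 → nu G q B = nu G q A) (i1 : (A ∩ B).Infinite)
    (i2 : (cls r x \ (A ∪ B)).Infinite) : A ⊆ B ∨ B ⊆ A := by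
  by_contra hc
  rw [not_or, Set.not_subset, Set.not_subset] at hc
  obtain ⟨⟨b, b1, b2⟩, c, c1, c2⟩ := hc
  obtain ⟨m1, ⟨a2, a3, a4, a5⟩, a6⟩ := mA
  obtain ⟨-, ⟨d2, d3, -, -⟩, d6⟩ := mB
  have s1 : Dl nb r (A ∩ B) ∪ Dl nb r (A ∪ B) ⊆ Dl nb r A ∪ Dl nb r B := by
    rintro e (u | u)
    · exact (sp_or (Or.inl u.2.2)).imp (fun v => ⟨u.1, u.2.1, v⟩) fun v => ⟨u.1, u.2.1, v⟩
    · exact (sp_or (Or.inr u.2.2)).imp (fun v => ⟨u.1, u.2.1, v⟩) fun v => ⟨u.1, u.2.1, v⟩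
  have s2 := (count a3 d3 s1 fun e u => ⟨⟨u.1.1, u.1.2.1, (sp_and u.1.2.2 u.2.2.2).1⟩,
    u.1.1, u.1.2.1, (sp_and u.1.2.2 u.2.2.2).2⟩).1
  have s3 := (a3.union d3).subset s1
  have k1 : Cut nb r x (A ∩ B) := ⟨fun y hy => a2 hy.1, s3.subset Set.subset_union_left, i1,
    a5.mono fun y hy => ⟨hy.1, fun u => hy.2 u.1⟩⟩
  have k2 : Cut nb r x (A ∪ B) := ⟨Set.union_subset a2 d2, s3.subset Set.subset_union_right,
    a4.mono Set.subset_union_left, i2⟩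
  have k3 := hk _ _ m1 k1
  have k4 := hk _ _ m1 k2
  obtain ⟨Φ, h1, h2, h3⟩ := hg (b, c) (h.eq.trans (h.eq.symm (a2 b1)) (d2 c1))
  have l1 := h3 _ _ ⟨m1, k1, by omega⟩
  have l2 := h3 _ _ ⟨m1, k2, by omega⟩
  have l3 : ∑ q ∈ Φ, nu G q B = ∑ q ∈ Φ, nu G q A :=
    Finset.sum_congr rfl fun q hq => e q (h2 q hq)
  have cnt := fun q (hq : q ∈ Φ) => count (s := {g : G | Sp (A ∩ B) (g • q.1) (g • q.2)})
    (t := {g : G | Sp (A ∪ B) (g • q.1) (g • q.2)}) (h.sep_fin a3 (h2 q hq))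
    (h.sep_fin d3 (h2 q hq)) (fun g u => sp_or u) fun g u => sp_and u.1 u.2
  have l4 : ∑ q ∈ Φ, (nu G q (A ∩ B) + nu G q (A ∪ B)) < ∑ q ∈ Φ, (nu G q A + nu G q B) := by
    refine Finset.sum_lt_sum (fun q hq => (cnt q hq).1) ⟨_, h1, (cnt _ h1).2 fun u => ?_⟩
    have := (@u 1 (by
      simp only [Set.mem_inter_iff, Set.mem_ofPred_eq, one_smul]
      exact ⟨fun v => c2 (v.1 b1), fun v => b2 (v.2 c1)⟩)).1
    simp only [Set.mem_ofPred_eq, one_smul] at this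
    exact this (iff_of_false (fun v => b2 v.2) fun v => c2 v.1)
  rw [Finset.sum_add_distrib, Finset.sum_add_distrib] at l4
  omega

theorem nested (h : St nb G r U)
    (hk : ∀ x A, ¬ Coc G (cls r x) → Cut nb r x A → k ≤ (Dl nb r A).ncard)
    (hg : Good G nb r k A) (mA : Mn G nb r k x A) (mB : Mn G nb r k x B)
    (e : ∀ q : I × I, r q.1 q.2 → nu G q B = nu G q A) :
    (A ⊆ B ∨ B ⊆ A) ∨ A ⊆ cls r x \ B ∨ cls r x \ B ⊆ A := by
  by_cases i : (A ∩ B).Infinite ∧ (cls r x \ (A ∪ B)).Infinite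
  · exact Or.inl (key h hk hg mA mB e i.1 i.2)
  refine Or.inr (key h hk hg mA (mB.compl h)
    (fun q hq => (nu_compl h mB.2.1.1 hq).trans (e q hq)) ?_ ?_)
  all_goals
    rw [not_and_or, Set.not_infinite, Set.not_infinite] at i
    rcases i with i | i
  · exact (mA.2.1.2.2.1.sdiff i).mono fun y hy =>
      ⟨hy.1, mA.2.1.1 hy.1, fun u => hy.2 ⟨hy.1, u⟩⟩
  · exact (mB.2.1.2.2.2.sdiff i).mono fun y hy =>
      ⟨by_contra fun u => hy.2 ⟨hy.1.1, fun v => v.elim u hy.1.2⟩, hy.1⟩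
  · exact (mB.2.1.2.2.1.sdiff i).mono fun y hy =>
      ⟨mB.2.1.1 hy.1, fun v => v.elim (fun u => hy.2 ⟨u, hy.1⟩) fun u => u.2 hy.1⟩
  · exact (mA.2.1.2.2.2.sdiff i).mono fun y hy =>
      ⟨hy.1.1, fun v => v.elim hy.1.2 fun u => hy.2 ⟨hy.1.1, fun w => w.elim hy.1.2 u.2⟩⟩

theorem exists_good (h : St nb G r U) {𝒪 : Set (Set I)} (hO : 𝒪.Finite)
    (hc : ∀ x A, Mn G nb r k x A → ∃ g : G, tr g A ∈ 𝒪) (m : Mn G nb r k x A) :
    ∃ x A, Mn G nb r k x A ∧ Good G nb r k A := by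
  classical
  have : Nonempty (I × I) := ⟨(x, x)⟩
  have f1 : {A | A ∈ 𝒪 ∧ ∃ x, Mn G nb r k x A}.Finite := hO.subset fun _ u => u.1
  have f2 : ∀ x A, Mn G nb r k x A → ∃ g : G, tr g A ∈ {A | A ∈ 𝒪 ∧ ∃ x, Mn G nb r k x A} :=
    fun x A m => (hc x A m).imp fun g u => ⟨u, _, m.tr h g⟩
  by_contra hn
  have h1 : ∀ A ∈ {A | A ∈ 𝒪 ∧ ∃ x, Mn G nb r k x A}, ∃ p : I × I, r p.1 p.2 ∧
      ∀ Φ : Finset (I × I), p ∈ Φ → (∀ q ∈ Φ, r q.1 q.2) →
        ∃ y C, Mn G nb r k y C ∧ ∑ q ∈ Φ, nu G q C < ∑ q ∈ Φ, nu G q A := by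
    rintro A ⟨-, x, m⟩
    have h2 : ¬ Good G nb r k A := fun u => hn ⟨x, A, m, u⟩
    unfold Good at h2
    push Not at h2
    exact h2
  choose! p p1 p2 using h1
  obtain ⟨g, hg⟩ := f2 x A m
  obtain ⟨B, b1, b2⟩ := Set.exists_min_image _
    (fun C => ∑ q ∈ f1.toFinset.image p, nu G q C) f1 ⟨_, hg⟩
  obtain ⟨y, C, c1, c2⟩ := p2 B b1 (f1.toFinset.image p)
    (Finset.mem_image_of_mem p (f1.mem_toFinset.2 b1)) fun q hq => by
      obtain ⟨E, e1, rfl⟩ := Finset.mem_image.1 hq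
      exact p1 E (f1.mem_toFinset.1 e1)
  obtain ⟨g', hg'⟩ := f2 y C c1
  have := b2 _ hg'
  simp only [nu_tr] at this
  omega

end AcMinL

open AcMinL in
theorem min_stmt : MinStmt := by
  classical
  intro tw ma G I _ _ nb r U h x₀ A₀ h0 h1
  have ex : ∃ k, ∃ x A, Mn G nb r k x A := ⟨_, x₀, A₀, h0, h1, le_rfl⟩
  have hk : ∀ x A, ¬ Coc G (cls r x) → Cut nb r x A → Nat.find ex ≤ (Dl nb r A).ncard :=
    fun x A a b => Nat.find_min' ex ⟨x, A, a, b, le_rfl⟩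
  obtain ⟨x₁, A₁, m₁⟩ := Nat.find_spec ex
  generalize Nat.find ex = k at hk m₁
  obtain ⟨𝒪, hO, hc⟩ := ma tw G I nb r U h k
  obtain ⟨x, A, m, hg⟩ := exists_good h hO
    (fun x A m => hc x A m.2.1 m.2.2 fun A' u => hk x A' m.1 u) m₁
  let D : G × Bool → Set I := fun i => tr i.1⁻¹ (cond i.2 A (cls r x \ A))
  have d1 : ∀ i, Mn G nb r k (i.1 • x) (D i) := fun ⟨g, b⟩ => by
    cases b
    · have := (m.compl h).tr h g⁻¹
      rwa [inv_inv] at this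
    · have := m.tr h g⁻¹
      rwa [inv_inv] at this
  have d2 : ∀ i (q : I × I), r q.1 q.2 → nu G q (D i) = nu G q A := fun ⟨g, b⟩ q hq => by
    cases b
    · exact (nu_tr _ _ _).trans (nu_compl h m.2.1.1 hq)
    · exact nu_tr _ _ _
  have d3 : ∀ i, D (st i) = cls r (i.1 • x) \ D i := fun ⟨g, b⟩ => by
    have e := cls_tr h g⁻¹ x
    rw [inv_inv] at e
    rw [e]
    cases b
    · exact Set.ext fun y => ⟨fun u => ⟨m.2.1.1 u, fun v => v.2 u⟩,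
        fun u => by_contra fun v => u.2 ⟨u.1, v⟩⟩
    · rfl
  refine ⟨x, D, m.1, fun i y hy => (d1 i).2.1.1 hy, fun i y hy => ?_, fun i => (d1 i).2.1.2.2.1,
    fun i => (d1 i).2.1.2.1, fun g i y => ?_, fun i j e => ?_⟩
  · rw [d3]
    exact ⟨fun u => u.2, fun u => ⟨hy, u⟩⟩
  · change (g * i.1)⁻¹ • g • y ∈ cond i.2 A (cls r x \ A) ↔ i.1⁻¹ • y ∈ cond i.2 A (cls r x \ A)
    rw [mul_inv_rev, mul_smul, inv_smul_smul]
  · rw [d3, d3, ← h.cls_eq e]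
    rcases nested h hk (hg.congr (d2 i)) (d1 i) ((d1 j).congr h e)
      (fun q hq => (d2 j q hq).trans (d2 i q hq).symm) with (u | u) | u | u
    · exact Or.inl u
    · exact Or.inr (Or.inr (Or.inr fun y hy => ⟨hy.1, fun v => hy.2 (u v)⟩))
    · exact Or.inr (Or.inl u)
    · exact Or.inr (Or.inr (Or.inl fun y hy => by_contra fun v => hy.2 (u ⟨hy.1, v⟩)))

end Pool.Agent.MP_4f4d9f_gt.Nc
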