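import Pool.Agent.Mg.F4f4d9fr.G6b1a08
import Pool.Agent.Mg.F4f4d9fr.G0e173c
import Pool.Agent.Mg.F4f4d9fr.Gd503cb

set_option linter.all false

section

/-! The state after a retraction, and the extension of cuts. -/

namespace Pool.Agent.MP_4f4d9f_gt.Nc

open Hy

namespace AcStRL

variable {I G : Type} [Group G] [MulAction G I] {nb nb' : I → Finset I} {r r' : I → I → Prop}
  {U : Finset I} {ρ : I → I → I} {W : Set I}

theorem grow (h : St nb G r U) (T : Finset I) :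
    ∃ U₂ : Finset I, (∀ t ∈ T, t ∈ U₂) ∧ St nb G r U₂ := by
  classical
  have hex : ∀ t, ∃ (u : I) (K : Finset I), u ∈ Orb G U ∧ t ∈ K ∧
      ∀ c ∈ K, Pa nb (fun a b => r a b ∧ a ∈ K ∧ b ∈ K) u c := by
    intro t
    obtain ⟨u, hu, htu⟩ := h.une t
    obtain ⟨K, -, h2, h3⟩ := (h.cl u t (h.eq.symm htu)).finite
    exact ⟨u, K, hu, h2, h3⟩
  choose u K hu ht hK using hex
  let U₂ := U ∪ T.biUnion K
  have hU : Orb G U ⊆ Orb G U₂ := orb_mono fun t ht => mem_orb (Finset.mem_union_left _ ht)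
  have hT : ∀ t ∈ T, ∀ c ∈ K t, c ∈ U₂ := fun t ht c hc =>
    Finset.mem_union_right _ (Finset.mem_biUnion.2 ⟨t, ht, hc⟩)
  have hr : ∀ {a b}, Pa nb (fun a b => r a b ∧ a ∈ Orb G U₂ ∧ b ∈ Orb G U₂) a b → r a b :=
    fun {a _} hp => Pa.ind (P := fun b => r a b) (h.eq.refl a)
      (fun _ _ _ _ h2 ih => h.eq.trans ih h2.1) hp
  have key : ∀ x ∈ Orb G U₂, ∃ v ∈ Orb G U,
      Pa nb (fun a b => r a b ∧ a ∈ Orb G U₂ ∧ b ∈ Orb G U₂) v x := by
    rintro _ ⟨g, c, hc, rfl⟩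
    rcases Finset.mem_union.1 hc with hc | hc
    · exact ⟨_, ⟨g, c, hc, rfl⟩, Pa.refl _ _⟩
    · obtain ⟨t, ht, hc⟩ := Finset.mem_biUnion.1 hc
      exact ⟨g • u t, orb_smul g (hu t), (hK t c hc).map (g • ·) fun a b h1 h2 =>
        ⟨h.gr.eqv g a b h1, h.inv g a b h2.1, ⟨g, a, hT t ht a h2.2.1, rfl⟩,
          ⟨g, b, hT t ht b h2.2.2, rfl⟩⟩⟩
  refine ⟨U₂, fun t h1 => hT t h1 t (ht t), h.gr, h.eq, h.inv, h.cl,
    fun x y h1 h2 => hU (h.wall x y h1 h2), fun x => (h.une x).imp fun v hv => ⟨hU hv.1, hv.2⟩,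
    fun x y hx hy hxy => ?_⟩
  obtain ⟨v, hv, p1⟩ := key x hx
  obtain ⟨w, hw, p2⟩ := key y hy
  have p3 := h.ucn v w hv hw (h.eq.trans (hr p1) (h.eq.trans hxy (h.eq.symm (hr p2))))
  exact ((p1.symm h.gr.symm fun a b e => ⟨h.eq.symm e.1, e.2.2, e.2.1⟩).trans
    (p3.mono fun a b h1 h2 => ⟨h1, h2.1, hU h2.2.1, hU h2.2.2⟩)).trans p2

theorem rel (he : Equivalence r') (hρ : Rt nb nb' r r' ρ W) {x a b : I} (ha : r x a) (hb : r x b) :
    r' (ρ x a) (ρ x b) := he.trans (he.symm (hρ.r1 x a ha)) (hρ.r1 x b hb)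

theorem path (h : Equivalence r) (he : Equivalence r') (hρ : Rt nb nb' r r' ρ W) {Z : Set I}
    {x y : I} (hZ : ∀ b ∈ Z, r x b → ρ x b ∈ Z) (hxy : r' x y)
    (hp : Pa nb (fun a b => r a b ∧ a ∈ Z ∧ b ∈ Z) x y) :
    Pa nb' (fun a b => r' a b ∧ a ∈ Z ∧ b ∈ Z) x y := by
  have key := Pa.ind (P := fun b => r x b ∧
    Pa nb' (fun a b => r' a b ∧ a ∈ Z ∧ b ∈ Z) (ρ x x) (ρ x b)) ⟨h.refl x, Pa.refl _ _⟩
    (fun b c _ h1 h2 ih => ⟨h.trans ih.1 h2.1, ih.2.tail (hρ.r5 x b c ih.1 h2.1 h1)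
      ⟨rel he hρ ih.1 (h.trans ih.1 h2.1), hZ b h2.2.1 ih.1, hZ c h2.2.2 (h.trans ih.1 h2.1)⟩⟩) hp
  have h2 := key.2
  rwa [hρ.r2 x x (he.refl x), hρ.r2 x y hxy] at h2

theorem ext (h : Equivalence r) (he : Equivalence r') (hr : ∀ x y, r' x y → r x y)
    (hρ : Rt nb nb' r r' ρ W) : Ext nb r nb' r' := by
  intro y S _ hf
  refine ⟨{z | r y z ∧ ρ y z ∈ S}, fun z hz => hz.1, ?_, fun z hz => ?_, fun z w h1 h2 => ?_⟩
  · refine (hf.biUnion fun p hp => hρ.r6 y p.1 p.2 fun e => hp.2.2 (by rw [e])).subset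
      fun e he' => ?_
    obtain ⟨h1, h2, h3⟩ := he'
    have h4 : r y e.1 := by
      by_contra h4
      exact h3 ⟨fun h5 => (h4 h5.1).elim, fun h5 => (h4 (h.trans h5.1 (h.symm h2))).elim⟩
    have h5 : r y e.2 := h.trans h4 h2
    refine Set.mem_biUnion (x := (ρ y e.1, ρ y e.2)) ⟨hρ.r5 y _ _ h4 h2 h1, rel he hρ h4 h5,
      fun h6 => h3 ⟨fun h7 => ⟨h5, h6.1 h7.2⟩, fun h7 => ⟨h4, h6.2 h7.2⟩⟩⟩ ⟨h1, h4, h2, rfl, rfl⟩
  · change r y z ∧ ρ y z ∈ S ↔ z ∈ S
    rw [hρ.r2 y z hz, and_iff_right (hr y z hz)]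
  · change r y z ∧ ρ y z ∈ S ↔ r y w ∧ ρ y w ∈ S
    by_cases h3 : r y z
    · rw [hρ.r4 y z w h3 h1 h2, and_iff_right h3, and_iff_right (h.trans h3 (hr z w h1))]
    · exact ⟨fun h4 => (h3 h4.1).elim, fun h4 => (h3 (h.trans h4.1 (h.symm (hr z w h1)))).elim⟩

end AcStRL

open AcStRL in
theorem stR_stmt : StRStmt := by
  classical
  intro G I _ _ nb nb' r r' U K K' ρ h hq he hi hr hρ
  refine ⟨?_, ext h.eq he hr hρ⟩
  obtain ⟨U₂, hT, h2⟩ := grow h (K ∪ K')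
  have hK : Orb G K ⊆ Orb G U₂ :=
    orb_mono fun t ht => mem_orb (hT t (Finset.mem_union_left _ ht))
  have hK' : Orb G K' ⊆ Orb G U₂ :=
    orb_mono fun t ht => mem_orb (hT t (Finset.mem_union_right _ ht))
  have hZ : ∀ x, ∀ b ∈ Orb G U₂, r x b → ρ x b ∈ Orb G U₂ := fun x b hb hxb => by
    by_cases e : r' x b
    · rwa [hρ.r2 x b e]
    · exact hK (hρ.r7 x b hxb e)
  refine ⟨U₂, hq.gr, he, hi, fun x y hxy => ?_, fun x y h3 h4 => ?_, fun x => ?_,
    fun x y hx hy hxy => path h.eq he hρ (hZ x) hxy (h2.ucn x y hx hy (hr x y hxy))⟩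
  · exact (path (Z := Set.univ) h.eq he hρ (fun _ _ _ => trivial) hxy
      ((h.cl x y (hr x y hxy)).mono fun a b h1 h2 => ⟨h1, h2, trivial, trivial⟩)).mono
      fun a b h1 h2 => ⟨h1, h2.1⟩
  · rcases hq.new x y h3 with h5 | h5
    · by_cases e : r x y
      · exact hK (hρ.r8 x y h5 e h4)
      · exact h2.wall x y h5 e
    · exact hK' h5
  · obtain ⟨u, hu, hxu⟩ := h2.une x
    exact ⟨ρ x u, hZ x u hu hxu, hρ.r1 x u hxu⟩

end Pool.Agent.MP_4f4d9f_gt.Nc

end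

section

/-! An injective matrix over the real group ring has at most as many columns as rows. -/

open scoped InnerProductSpace

namespace Pool.Agent.MP_4f4d9f_gt.Nc

open Hy

namespace AcVNL

open FA

variable {G H : Type} [Group G] [NormedAddCommGroup H] [InnerProductSpace ℂ H]
  (b : HilbertBasis G ℂ H)

/-- Left translation. -/
noncomputable def lt (u : G) : H →L[ℂ] H := (conjB b).symm (perm (Equiv.mulLeft u))

lemma lt_basis (u h : G) : lt b u (b h) = b (u⁻¹ * h) := by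
  rw [lt, conjB_symm_basis]
  rfl

lemma rt_lt (g u : G) : rt b g * lt b u = lt b u * rt b g :=
  op_ext_basis b fun x => by
    rw [mul_apply_eq_comp, mul_apply_eq_comp, lt_basis, rt_basis, rt_basis, lt_basis, mul_assoc]

variable [CompleteSpace H]

lemma inner_lt (u k : G) (ξ : H) : ⟪b k, lt b u ξ⟫_ℂ = ⟪b (u * k), ξ⟫_ℂ := by
  have h : ContinuousLinearMap.adjoint (lt b u) = lt b u⁻¹ :=
    adjoint_perm b (Equiv.mulLeft u⁻¹) (lt_basis b u) fun h => by rw [lt_basis]; simp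
  rw [← ContinuousLinearMap.adjoint_inner_left, h, lt_basis, inv_inv]

lemma card_le {J E : Type} [Fintype J] [Fintype E] (T : HV H J →L[ℂ] HV H E) (h1 : EqO b T)
    (h2 : ∀ ξ, T ξ = 0 → ξ = 0) : Fintype.card J ≤ Fintype.card E := by
  have h := rank_nullity (gframe b J) (gframe b E) T h1
  have h3 : gdim (fr b J) T.ker = 0 := by
    refine Finset.sum_eq_zero fun j _ => ?_
    have := Submodule.starProjection_apply_mem T.ker.topologicalClosure (fr b J j)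
    have h4 := (ker_closure T).le this
    rw [h2 _ h4]
    simp
  have h4 : gdim (fr b E) T.range ≤ ∑ e, ‖fr b E e‖ ^ 2 :=
    Finset.sum_le_sum fun e _ => pow_le_pow_left₀ (norm_nonneg _)
      (Submodule.norm_starProjection_apply_le _ _) 2
  rw [sum_fr] at h h4
  have : (Fintype.card J : ℝ) ≤ Fintype.card E := by linarith
  exact_mod_cast this

lemma fin_eq {a c : G → ℝ} (ha : (Function.support a).Finite) (g : G) :
    ∑ᶠ h, c h * a (h⁻¹ * g) = ∑ u ∈ ha.toFinset, a u * c (g * u⁻¹) := by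
  rw [← finsum_comp_equiv ((Equiv.inv G).trans (Equiv.mulLeft g))]
  rw [finsum_eq_sum_of_support_subset (s := ha.toFinset)]
  · refine Finset.sum_congr rfl fun u _ => ?_
    simp [mul_comm]
  · intro u hu
    have : a u ≠ 0 := fun h0 => hu (by simp [h0])
    simpa using this

include b in
theorem main {J E : Type} [Fintype J] [Fintype E] (a : J → E → G → ℝ)
    (ha : ∀ j e, (Function.support (a j e)).Finite)
    (hc : ∀ c : J → G → ℝ, (∀ j, Summable fun g => c j g ^ 2) →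
      (∀ e g, ∑ j, ∑ᶠ h, c j h * a j e (h⁻¹ * g) = 0) → ∀ j g, c j g = 0) :
    Fintype.card J ≤ Fintype.card E := by
  let M : E → J → (H →L[ℂ] H) := fun e j => ∑ u ∈ (ha j e).toFinset, (a j e u : ℂ) • lt b u
  refine card_le b (opC M) (fun g ξ => diag_opC (fun e j => ?_) ξ) fun ξ hξ => ?_
  · simp only [M, Finset.mul_sum, Finset.sum_mul, mul_smul_comm, smul_mul_assoc, rt_lt]
  have key : ∀ e g, ∑ j, ∑ u ∈ (ha j e).toFinset,
      (a j e u : ℂ) * ⟪b (g * u⁻¹)⁻¹, ξ j⟫_ℂ = 0 := by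
    intro e g
    have h1 : ⟪b g⁻¹, opC M ξ e⟫_ℂ = 0 := by rw [hξ]; simp
    rw [opC_apply, inner_sum] at h1
    rw [← h1]
    refine Finset.sum_congr rfl fun j _ => ?_
    simp only [M, ContinuousLinearMap.sum_apply, inner_sum, ContinuousLinearMap.smul_apply,
      inner_smul_right, inner_lt, mul_inv_rev, inv_inv]
  have hs : ∀ j, Summable fun g : G => ‖⟪b g⁻¹, ξ j⟫_ℂ‖ ^ 2 := fun j =>
    ((Equiv.inv G).summable_iff (f := fun g => ‖⟪b g, ξ j⟫_ℂ‖ ^ 2)).2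
      (hasSum_basis b (ξ j)).summable
  have part : ∀ φ : ℂ →L[ℝ] ℝ, (∀ z, |φ z| ≤ ‖z‖) → ∀ j g, φ ⟪b g⁻¹, ξ j⟫_ℂ = 0 := by
    intro φ hφ
    refine hc (fun j g => φ ⟪b g⁻¹, ξ j⟫_ℂ) (fun j => ?_) fun e g => ?_
    · exact (hs j).of_nonneg_of_le (fun _ => sq_nonneg _) fun g =>
        sq_le_sq' (neg_le_of_abs_le (hφ _)) (le_of_abs_le (hφ _))
    · have h1 := congrArg φ (key e g)
      rw [map_zero, map_sum] at h1
      rw [← h1]
      refine Finset.sum_congr rfl fun j _ => ?_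
      rw [fin_eq (ha j e), map_sum]
      refine Finset.sum_congr rfl fun u _ => ?_
      rw [← Complex.real_smul, map_smul, smul_eq_mul]
  ext j
  refine ext_basis b fun g => ?_
  have h1 := part Complex.reCLM (fun z => Complex.abs_re_le_norm z) j g⁻¹
  have h2 := part Complex.imCLM (fun z => Complex.abs_im_le_norm z) j g⁻¹
  rw [inv_inv] at h1 h2
  rw [show ⟪b g, ξ j⟫_ℂ = 0 from Complex.ext h1 h2]
  simp

end AcVNL

theorem vn_stmt : VNStmt := fun G _ _ _ _ _ a ha hc =>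
  AcVNL.main (HilbertBasis.ofRepr (LinearIsometryEquiv.refl ℂ (lp (fun _ : G => ℂ) 2))) a ha hc

end Pool.Agent.MP_4f4d9f_gt.Nc

end

section

/-! The number of orbits of independent cuts is bounded. -/

namespace Pool.Agent.MP_4f4d9f_gt.Nc

open Hy Filter Topology

namespace AcBndL

variable {I G J : Type} [Group G] [MulAction G I] [Fintype J] {nb : I → Finset I}
  {r : I → I → Prop} {U : Finset I} {B : J → Set I} {c : J → G → ℝ}

/-- The combination of the translates of the cuts. -/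
noncomputable def ph (B : J → Set I) (c : J → G → ℝ) (y z : I) : ℝ :=
  ∑ j, ∑ᶠ g, c j g * sg (B j) (g⁻¹ • y) (g⁻¹ • z)

theorem ph_add (h : St nb G r U) (hB : ∀ j, (Dl nb r (B j)).Finite) {y z w : I} (hyz : r y z)
    (hzw : r z w) : ph B c y z + ph B c z w = ph B c y w := by
  unfold ph
  rw [← Finset.sum_add_distrib]
  refine Finset.sum_congr rfl fun j _ => ?_
  rw [← finsum_add_distrib (h.sg_fin (hB j) hyz (c j)) (h.sg_fin (hB j) hzw (c j))]
  exact finsum_congr fun g => by rw [← mul_add, sg_add]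

theorem ph_zero {y z : I} (h : ∀ j (g : G), g • y ∈ B j ↔ g • z ∈ B j) : ph B c y z = 0 :=
  Finset.sum_eq_zero fun j _ => finsum_eq_zero_of_forall_eq_zero fun g => by
    rw [sg_eq_zero.2 (h j _), mul_zero]

theorem ph_shift (k : G) (y w : I) :
    ph B c (k • y) (k • w) = ∑ j, ∑ᶠ u, c j (k * u) * sg (B j) (u⁻¹ • y) (u⁻¹ • w) := by
  unfold ph
  refine Finset.sum_congr rfl fun j _ => ?_
  rw [← finsum_comp_equiv (Equiv.mulLeft k)]
  refine finsum_congr fun u => ?_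
  simp only [Equiv.coe_mulLeft, mul_inv_rev, mul_smul, inv_smul_smul]

theorem ph_tendsto (h : St nb G r U) (hB : ∀ j, (Dl nb r (B j)).Finite)
    (hc : ∀ j, Tendsto (c j) cofinite (𝓝 0)) {y w : I} (hyw : r y w) :
    Tendsto (fun k : G => ph B c (k • y) (k • w)) cofinite (𝓝 0) := by
  have hF : ∀ j, (Function.support fun u : G => (fun _ => (1 : ℝ)) u *
      sg (B j) (u⁻¹ • y) (u⁻¹ • w)).Finite := fun j => h.sg_fin (hB j) hyw _
  have e : ∀ k : G, ph B c (k • y) (k • w) =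
      ∑ j, ∑ u ∈ (hF j).toFinset, c j (k * u) * sg (B j) (u⁻¹ • y) (u⁻¹ • w) := fun k => by
    rw [ph_shift]
    refine Finset.sum_congr rfl fun j _ => finsum_eq_sum_of_support_subset _ fun u hu => ?_
    rw [Set.Finite.coe_toFinset]
    intro h1
    refine hu ?_
    simp only [one_mul] at h1
    simp only [h1, mul_zero]
  simp only [e]
  have e0 : (0 : ℝ) = ∑ j, ∑ u ∈ (hF j).toFinset, 0 * sg (B j) (u⁻¹ • y) (u⁻¹ • w) := by simp
  rw [e0]
  refine tendsto_finsetSum _ fun j _ => tendsto_finsetSum _ fun u _ => ?_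
  exact ((hc j).comp (mul_left_injective u).tendsto_cofinite).mul_const _

end AcBndL

open AcBndL in
theorem bnd_stmt : BndStmt := by
  classical
  intro hV G I _ _ nb r U h
  let P : Finset (I × I) :=
    (U.biUnion fun t => (nb t).image fun b => (t, b)).filter fun e => r e.1 e.2
  refine ⟨Fintype.card P, fun J _ nb' r' U' B h' hR => ?_⟩
  refine hV G J P (fun j e u => sg (B j) (u • e.1.1) (u • e.1.2)) (fun j e => ?_) ?_
  · exact (h.sep_fin (hR.fin j) (Finset.mem_filter.1 e.2).2).subset fun g hg h1 =>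
      hg (sg_eq_zero.2 h1)
  intro c hc h0
  have hc0 : ∀ j, Tendsto (c j) cofinite (𝓝 0) := fun j => by
    have h1 := (hc j).tendsto_cofinite_zero.sqrt
    rw [Real.sqrt_zero] at h1
    rw [tendsto_zero_iff_abs_tendsto_zero]
    simp only [Real.sqrt_sq_eq_abs] at h1
    exact h1
  have h1 : ∀ a ∈ Orb G U, ∀ b ∈ nb a, r a b → ph B c a b = 0 := by
    rintro _ ⟨g, t, ht, rfl⟩ b hb hr
    have hb' : g⁻¹ • b ∈ nb t := by simpa using h.gr.eqv g⁻¹ _ _ hb
    have hr' : r t (g⁻¹ • b) := by simpa using h.inv g⁻¹ _ _ hr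
    have h2 := h0 ⟨(t, g⁻¹ • b), Finset.mem_filter.2 ⟨Finset.mem_biUnion.2
      ⟨t, ht, Finset.mem_image.2 ⟨_, hb', rfl⟩⟩, hr'⟩⟩ g
    simp only [mul_smul, smul_inv_smul] at h2
    exact h2
  have h2 : ∀ a ∈ Orb G U, ∀ b ∈ Orb G U, r a b → ph B c a b = 0 := by
    intro a ha b hb hab
    refine (Pa.ind (P := fun b => r a b ∧ ph B c a b = 0)
      ⟨h.eq.refl a, ph_zero fun _ _ => Iff.rfl⟩ ?_ (h.ucn a b ha hb hab)).2
    intro u v _ huv hp ih
    refine ⟨h.eq.trans ih.1 hp.1, ?_⟩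
    rw [← ph_add h hR.fin ih.1 hp.1, ih.2, h1 u hp.2.1 v huv hp.1, add_zero]
  have h3 : ∀ y z, r' y z → ph B c y z = 0 := fun y z hyz =>
    ph_zero fun j g => hR.sat j _ _ (h'.inv g _ _ hyz)
  have h4 : ∀ y, ∀ w ∈ Orb G U, r y w → ph B c y w = 0 := by
    intro y w hw hyw
    rcases hR.stb y with hs | hs
    · exact h3 y w (hs w hyw)
    · refine tendsto_nhds_unique_of_frequently_eq tendsto_const_nhds
        (ph_tendsto h hR.fin hc0 hyw) (hs.frequently_cofinite.mono fun k hk => ?_)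
      have hk' : r' (k • y) y := hk
      have e1 : r y (k • y) := h.eq.symm (hR.ref _ _ hk')
      have e2 : r (k • y) (k • w) := h.inv k _ _ hyw
      have e3 : r (k • w) w := h.eq.trans (h.eq.symm (h.eq.trans e1 e2)) hyw
      rw [← ph_add h hR.fin (h.eq.trans e1 e2) e3, ← ph_add h hR.fin e1 e2,
        h3 _ _ (h'.eq.symm hk'), h2 _ (orb_smul k hw) _ hw e3, zero_add, add_zero]
  refine hR.inj c hc0 fun y z hyz => ?_
  obtain ⟨w, hw, hyw⟩ := h.une y
  have hzw : r z w := h.eq.trans (h.eq.symm hyz) hyw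
  have h5 := ph_add (c := c) h hR.fin hyz hzw
  rw [h4 y w hw hyw, h4 z w hw hzw, add_zero] at h5
  exact h5

end Pool.Agent.MP_4f4d9f_gt.Nc

end

section

/-! Cocompact classes are broken into points. -/

namespace Pool.Agent.MP_4f4d9f_gt.Nc

open Hy

namespace AcBrkL

variable {I : Type} {nb : I → Finset I} {G : Type} [Group G] [MulAction G I]
  {r : I → I → Prop} {U : Finset I}

variable (G) in
/-- The relation with all cocompact classes broken into points. -/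
def br (r : I → I → Prop) (y z : I) : Prop := y = z ∨ (r y z ∧ ¬ Coc G (cls r y))

theorem coc_iff (h : St nb G r U) (g : G) (x : I) :
    Coc G (cls r (g • x)) ↔ Coc G (cls r x) :=
  ⟨fun h1 => by simpa using h.coc_smul g⁻¹ h1, h.coc_smul g⟩

/-- The points with cocompact class form finitely many orbits. -/
theorem exists_T (h : St nb G r U) : ∃ T : Finset I, ∀ y, Coc G (cls r y) ↔ y ∈ Orb G T := by
  classical
  have h1 : ∀ u : I, ∃ T : Finset I, (∀ t ∈ T, Coc G (cls r t)) ∧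
      (Coc G (cls r u) → cls r u ⊆ Orb G T) := by
    intro u
    by_cases hu : Coc G (cls r u)
    · obtain ⟨T, hT⟩ := id hu
      refine ⟨T.filter fun t => Coc G (cls r t), fun t ht => (Finset.mem_filter.1 ht).2,
        fun _ y hy => ?_⟩
      obtain ⟨g, t, ht, rfl⟩ := hT hy
      refine ⟨g, t, Finset.mem_filter.2 ⟨ht, (coc_iff h g t).1 ?_⟩, rfl⟩
      rwa [← h.cls_eq hy]
    · exact ⟨∅, fun t ht => by simp at ht, fun h2 => (hu h2).elim⟩
  choose T hT hT' using h1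
  refine ⟨U.biUnion T, fun y => ⟨fun hy => ?_, ?_⟩⟩
  · obtain ⟨_, ⟨g, t, ht, rfl⟩, hr⟩ := h.une y
    have h2 : Coc G (cls r t) := (coc_iff h g t).1 (by rwa [← h.cls_eq hr])
    have h3 : g⁻¹ • y ∈ cls r t := by
      have h4 := h.inv g⁻¹ _ _ (h.eq.symm hr)
      rwa [inv_smul_smul] at h4
    refine (orb_smul_iff g⁻¹).1 (orb_mono (fun s hs => mem_orb ?_) (hT' t h2 h3))
    exact Finset.mem_biUnion.2 ⟨t, ht, hs⟩
  · rintro ⟨g, t, ht, rfl⟩
    obtain ⟨u, _, hu⟩ := Finset.mem_biUnion.1 ht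
    exact h.coc_smul g (hT u t hu)

theorem cls_br (h : St nb G r U) {x : I} (hx : ¬ Coc G (cls r x)) :
    cls (br G r) x = cls r x :=
  Set.ext fun _ => ⟨fun h1 => h1.elim (fun e => e ▸ h.eq.refl x) fun e => e.1,
    fun h1 => Or.inr ⟨h1, hx⟩⟩

theorem pa_br (h : St nb G r U) {x y : I} (hx : ¬ Coc G (cls r x)) {p q : I → I → Prop}
    (hp : ∀ a b, p a b → r a b) (hq : ∀ a b, p a b → br G r a b → q a b) (hxy : Pa nb p x y) :
    Pa nb q x y :=
  (Pa.ind (P := fun b => r x b ∧ Pa nb q x b) ⟨h.eq.refl x, Pa.refl _ _⟩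
    (fun b c _ h1 h2 ih => ⟨h.eq.trans ih.1 (hp b c h2), ih.2.tail h1 (hq b c h2
      (Or.inr ⟨hp b c h2, by rwa [← h.cls_eq ih.1]⟩))⟩) hxy).2

theorem st_br [DecidableEq I] (h : St nb G r U) {T : Finset I}
    (hT : ∀ y, Coc G (cls r y) ↔ y ∈ Orb G T) : St nb G (br G r) (U ∪ T) := by
  have hU : Orb G U ⊆ Orb G (U ∪ T) :=
    orb_mono fun t ht => mem_orb (Finset.mem_union_left _ ht)
  have hT' : Orb G T ⊆ Orb G (U ∪ T) :=
    orb_mono fun t ht => mem_orb (Finset.mem_union_right _ ht)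
  have hb : ∀ x ∈ Orb G (U ∪ T), ¬ Coc G (cls r x) → x ∈ Orb G U := by
    rintro _ ⟨g, t, ht, rfl⟩ hx
    rcases Finset.mem_union.1 ht with ht | ht
    · exact ⟨g, t, ht, rfl⟩
    · exact (hx ((hT _).2 ⟨g, t, ht, rfl⟩)).elim
  refine ⟨h.gr, ⟨fun _ => Or.inl rfl, ?_, ?_⟩, ?_, ?_, ?_, ?_, ?_⟩
  · rintro x y (rfl | ⟨h1, h2⟩)
    · exact Or.inl rfl
    · exact Or.inr ⟨h.eq.symm h1, by rwa [← h.cls_eq h1]⟩
  · rintro x y z (rfl | ⟨h1, h2⟩) h3
    · exact h3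
    · rcases h3 with rfl | ⟨h3, -⟩
      · exact Or.inr ⟨h1, h2⟩
      · exact Or.inr ⟨h.eq.trans h1 h3, h2⟩
  · rintro g x y (rfl | ⟨h1, h2⟩)
    · exact Or.inl rfl
    · exact Or.inr ⟨h.inv g _ _ h1, fun h3 => h2 ((coc_iff h g x).1 h3)⟩
  · rintro x y (rfl | ⟨h1, h2⟩)
    · exact Pa.refl _ _
    · exact pa_br h h2 (fun _ _ e => e) (fun _ _ _ e => e) (h.cl x y h1)
  · intro x y h1 h2
    by_cases hx : Coc G (cls r x)
    · exact hT' ((hT x).1 hx)
    · exact hU (h.wall x y h1 fun h3 => h2 (Or.inr ⟨h3, hx⟩))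
  · intro x
    by_cases hx : Coc G (cls r x)
    · exact ⟨x, hT' ((hT x).1 hx), Or.inl rfl⟩
    · obtain ⟨u, hu, h1⟩ := h.une x
      exact ⟨u, hU hu, Or.inr ⟨h1, hx⟩⟩
  · rintro x y hx hy (rfl | ⟨h1, h2⟩)
    · exact Pa.refl _ _
    · exact pa_br h h2 (fun _ _ e => e.1) (fun _ _ e e' => ⟨e', hU e.2.1, hU e.2.2⟩)
        (h.ucn x y (hb x hx h2) (hb y hy (by rwa [← h.cls_eq h1])) h1)

theorem one_br (h : St nb G r U) (hE : ∀ x, ¬ Coc G (cls r x) → OneE nb r x) :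
    One nb G (br G r) := by
  intro x
  by_cases hx : Coc G (cls r x)
  · exact Or.inl fun y hy => hy.elim Eq.symm fun e => (e.2 hx).elim
  · refine Or.inr ⟨by rwa [cls_br h hx], fun S hS hf => ?_⟩
    rw [cls_br h hx] at hS ⊢
    refine hE x hx S hS (hf.subset fun e he => ⟨he.1, Or.inr ⟨he.2.1, ?_⟩, he.2.2⟩)
    have h1 : r x e.1 := by
      by_cases h2 : e.1 ∈ S
      · exact hS h2
      · have h3 : e.2 ∈ S := by
          by_contra h3
          exact he.2.2 ⟨fun h4 => (h2 h4).elim, fun h4 => (h3 h4).elim⟩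
        exact h.eq.trans (hS h3) (h.eq.symm he.2.1)
    rwa [← h.cls_eq h1]

end AcBrkL

open AcBrkL in
theorem brk_stmt : BrkStmt := by
  classical
  intro hR G I _ _ nb nb' r r' U U' _ h' href hdir hE f hf hsat x y hx hy
  obtain ⟨T, hT⟩ := exists_T h'
  have key : ∀ x, ¬ Coc G (cls r x) → ∃ x', f x = f x' ∧ ¬ Coc G (cls (br G r') x') := by
    intro x hx
    obtain ⟨x', h1, h2⟩ := Set.not_subset.1 fun e => hx ⟨T, e⟩
    have h3 : ¬ Coc G (cls r' x') := fun e => h2 ((hT x').1 e)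
    exact ⟨x', hsat x x' h1, by rwa [cls_br h' h3]⟩
  obtain ⟨x', e1, hx'⟩ := key x hx
  obtain ⟨y', e2, hy'⟩ := key y hy
  rw [e1, e2]
  refine hR G I nb' (br G r') (U' ∪ T) (st_br h' hT) (one_br h' hE) f (hdir f hf) ?_ x' y' hx' hy'
  rintro a b (rfl | ⟨h1, -⟩)
  · rfl
  · exact hsat a b (href a b h1)

end Pool.Agent.MP_4f4d9f_gt.Nc

end

section

/-! The combinatorial theorem follows from its relative form. -/

namespace Pool.Agent.MP_4f4d9f_gt.Nc

theorem goal_of_rk (h : RKStmt) : GoalStmt :=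
  gl_stmt wall_stmt prep_stmt (ac_of tw_stmt minA_stmt min_stmt nfA_stmt nfB_stmt nfC_stmt
    rho_stmt clq_stmt stR_stmt cmp_stmt vn_stmt bnd_stmt brk_stmt h)

theorem rk_of_m (h : Rk.MStmt) : RKStmt := mcF_stmt mcD_stmt mcP_stmt mcQ_stmt h

theorem goal_of_m (h : Rk.MStmt) : GoalStmt := goal_of_rk (rk_of_m h)

end Pool.Agent.MP_4f4d9f_gt.Nc

end
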