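import Pool.Agent.MP_4f4d9f_gt.Iface
import Pool.Agent.MP_4f4d9f_gt.P3Iface

set_option linter.all false

section

/-! Exactness mod 2 of a finite free complex gives exactness up to an odd integer. -/

namespace Pool.Agent.MP_4f4d9f_gt

open Matrix Polynomial

lemma exists_ginv {F U W : Type} [Field F] [AddCommGroup U] [Module F U] [AddCommGroup W]
    [Module F W] (f : U →ₗ[F] W) : ∃ g : W →ₗ[F] U, ∀ x, f (g (f x)) = f x := by
  obtain ⟨r, hr⟩ := f.rangeRestrict.exists_rightInverse_of_surjective f.range_rangeRestrict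
  obtain ⟨g, hg⟩ := LinearMap.exists_extend r
  refine ⟨g, fun x => ?_⟩
  have h1 : g (f x) = r ⟨f x, x, rfl⟩ := LinearMap.congr_fun hg ⟨f x, x, rfl⟩
  rw [h1]
  exact congrArg Subtype.val (LinearMap.congr_fun hr ⟨f x, x, rfl⟩)

theorem exists_contraction {a b c : Type} [Fintype a] [Fintype b] [Fintype c] [DecidableEq b]
    (D1 : Matrix b a ℤ) (D0 : Matrix c b ℤ) (hDD : D0 * D1 = 0)
    (hex : ∀ z : b → ZMod 2, (D0.map (Int.castRingHom (ZMod 2))) *ᵥ z = 0 →
      ∃ w, (D1.map (Int.castRingHom (ZMod 2))) *ᵥ w = z) :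
    ∃ m : ℤ, m ≠ 0 ∧ ∃ (h : Matrix a b ℤ) (h' : Matrix b c ℤ), D1 * h + h' * D0 = m • 1 := by
  classical
  haveI : Fact (Nat.Prime 2) := Nat.fact_prime_two
  set φ := Int.castRingHom (ZMod 2)
  obtain ⟨g0, hg0⟩ := exists_ginv (Matrix.toLin' (D0.map φ))
  obtain ⟨g1, hg1⟩ := exists_ginv (Matrix.toLin' (D1.map φ))
  have key : D1.map φ * LinearMap.toMatrix' (g1 ∘ₗ (LinearMap.id - g0 ∘ₗ Matrix.toLin' (D0.map φ)))
      + LinearMap.toMatrix' g0 * D0.map φ = 1 := by
    apply Matrix.toLin'.injective
    rw [map_add, Matrix.toLin'_mul, Matrix.toLin'_mul, Matrix.toLin'_toMatrix',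
      Matrix.toLin'_toMatrix', Matrix.toLin'_one]
    refine LinearMap.ext fun x => ?_
    obtain ⟨w, hw⟩ := hex (x - g0 (Matrix.toLin' (D0.map φ) x)) (by
      rw [← Matrix.toLin'_apply, map_sub, hg0, sub_self])
    rw [← Matrix.toLin'_apply] at hw
    simp only [LinearMap.add_apply, LinearMap.comp_apply, LinearMap.sub_apply, LinearMap.id_apply]
    rw [← hw, hg1, hw, sub_add_cancel]
  have lift : ∀ {i j : Type} (A : Matrix i j (ZMod 2)), ∃ B : Matrix i j ℤ, B.map φ = A :=
    fun A => ⟨A.map fun x => (x.val : ℤ), by ext i j; simp [φ]⟩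
  obtain ⟨h, hh⟩ := lift (LinearMap.toMatrix'
    (g1 ∘ₗ (LinearMap.id - g0 ∘ₗ Matrix.toLin' (D0.map φ))))
  obtain ⟨h', hh'⟩ := lift (LinearMap.toMatrix' g0)
  set Q := D1 * h + h' * D0 with hQ
  have hQ1 : Q.map φ = 1 := by
    rw [← key, ← hh, ← hh', hQ, Matrix.map_add _ (map_add φ), Matrix.map_mul, Matrix.map_mul]
  have hdet : Q.det ≠ 0 := by
    intro h0
    have := φ.map_det Q
    rw [h0, map_zero, RingHom.mapMatrix_apply, hQ1, det_one] at this
    exact zero_ne_one this
  have hpow : ∀ i : ℕ, ∃ (k : Matrix a b ℤ) (k' : Matrix b c ℤ), D1 * k + k' * D0 = Q * Q ^ i := by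
    intro i
    induction i with
    | zero => exact ⟨h, h', by simp [hQ]⟩
    | succ i ih =>
      obtain ⟨k, k', hk⟩ := ih
      refine ⟨h * D1 * k, Q * k', ?_⟩
      rw [pow_succ', ← hk, Matrix.mul_add, Matrix.mul_assoc Q]
      congr 1
      rw [hQ, Matrix.add_mul, Matrix.mul_assoc h', ← Matrix.mul_assoc D0, hDD]
      simp [Matrix.mul_assoc]
  have hpoly : ∀ q : ℤ[X], ∃ (k : Matrix a b ℤ) (k' : Matrix b c ℤ),
      D1 * k + k' * D0 = Q * aeval Q q := by
    intro q
    induction q using Polynomial.induction_on' with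
    | add p q hp hq =>
      obtain ⟨k, k', hk⟩ := hp
      obtain ⟨l, l', hl⟩ := hq
      refine ⟨k + l, k' + l', ?_⟩
      rw [map_add, Matrix.mul_add Q, ← hk, ← hl, Matrix.mul_add, Matrix.add_mul]
      abel
    | monomial i x =>
      obtain ⟨k, k', hk⟩ := hpow i
      refine ⟨x • k, x • k', ?_⟩
      rw [aeval_monomial, ← Algebra.smul_def, Matrix.mul_smul, Matrix.smul_mul, Matrix.mul_smul,
        ← smul_add, hk]
  obtain ⟨k, k', hk⟩ := hpoly Q.charpoly.divX
  have hCH := Q.aeval_self_charpoly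
  rw [← X_mul_divX_add Q.charpoly, map_add, map_mul, aeval_X, aeval_C,
    Algebra.algebraMap_eq_smul_one] at hCH
  refine ⟨-Q.charpoly.coeff 0, fun h0 => hdet ?_, k, k', ?_⟩
  · rw [det_eq_sign_charpoly_coeff, neg_eq_zero.1 h0, mul_zero]
  · rw [hk, neg_smul, eq_neg_iff_add_eq_zero, hCH]

theorem exists_mul_eq_bd {a b c : Type} [Fintype a] [Fintype b] [Fintype c]
    (D1 : Matrix b a ℤ) (D0 : Matrix c b ℤ) (hDD : D0 * D1 = 0)
    (hex : ∀ z : b → ZMod 2, (D0.map (Int.castRingHom (ZMod 2))) *ᵥ z = 0 →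
      ∃ w, (D1.map (Int.castRingHom (ZMod 2))) *ᵥ w = z) :
    ∃ m : ℤ, m ≠ 0 ∧ ∀ (P : Type) [AddCommGroup P] (x : b → P),
      (∀ i, ∑ j, D0 i j • x j = 0) → ∃ w : a → P, ∀ i, ∑ l, D1 i l • w l = m • x i := by
  classical
  obtain ⟨m, hm, h, h', e⟩ := exists_contraction D1 D0 hDD hex
  refine ⟨m, hm, fun P _ x hx => ⟨fun l => ∑ j, h l j • x j, fun i => ?_⟩⟩
  have e1 : ∑ j, (D1 * h + h' * D0) i j • x j = m • x i := by
    rw [e]
    simp [Matrix.one_apply]
  have e2 : ∑ j, (h' * D0) i j • x j = 0 := by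
    simp only [Matrix.mul_apply, Finset.sum_smul, mul_smul]
    rw [Finset.sum_comm]
    simp only [← Finset.smul_sum, hx, smul_zero, Finset.sum_const_zero]
  simp only [Matrix.add_apply, add_smul, Finset.sum_add_distrib, e2, add_zero] at e1
  rw [← e1]
  simp only [Matrix.mul_apply, Finset.sum_smul, mul_smul, Finset.smul_sum]
  exact Finset.sum_comm

end Pool.Agent.MP_4f4d9f_gt

end

section

/-! The twisted clique complex is torsion when the clique complex is exact mod 2. -/

namespace Pool.Agent.MP_4f4d9f_gt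

open Finsupp

section Sat

variable {N Q : Type} [Ring N] [AddCommGroup Q] [Module N Q]

/-- All multiples of `y` can be moved into `W` by a left regular element. -/
def Sat (W : Submodule N Q) (y : Q) : Prop :=
  ∀ n : N, ∃ s : N, IsLeftRegular s ∧ s • n • y ∈ W

lemma Sat.zero (W : Submodule N Q) : Sat W 0 :=
  fun _ => ⟨1, isRegular_one.left, by simp⟩

lemma Sat.add {W : Submodule N Q} {x y : Q} (hx : Sat W x) (hy : Sat W y) : Sat W (x + y) := by
  intro n
  obtain ⟨s, hs, h⟩ := hx n
  obtain ⟨t, ht, h'⟩ := hy (s * n)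
  refine ⟨t * s, ht.mul hs, ?_⟩
  rw [smul_add, smul_add, mul_smul t s, mul_smul t s, ← mul_smul s n y]
  exact add_mem (W.smul_mem t h) h'

lemma Sat.out {W : Submodule N Q} {x : Q} (hx : Sat W x) :
    ∃ s : N, IsLeftRegular s ∧ s • x ∈ W := by
  simpa using hx 1

end Sat

variable {V : Type} [LinearOrder V] {N P : Type} [Ring N] [AddCommGroup P] [Module N P]

/-- The twisted boundary `y [K] ↦ ∑ v ∈ K, ± (T v y) [K - v]`. -/
noncomputable def twd (T : V → Module.End N P) : (Finset V →₀ P) →ₗ[N] (Finset V →₀ P) :=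
  Finsupp.lsum ℕ fun K => ∑ v ∈ K, sgn K v • (lsingle (K.erase v) ∘ₗ T v)

lemma twd_single (T : V → Module.End N P) (K : Finset V) (y : P) :
    twd T (single K y) = ∑ v ∈ K, sgn K v • single (K.erase v) (T v y) := by
  simp only [twd, lsum_single, LinearMap.sum_apply, LinearMap.smul_apply, LinearMap.comp_apply,
    lsingle_apply]

lemma sgn_anti {K : Finset V} {u v : V} (hu : u ∈ K) (huv : u < v) :
    sgn K u * sgn (K.erase u) v + sgn K v * sgn (K.erase v) u = 0 := by
  have h1 : (K.erase v).filter (· < u) = K.filter (· < u) := by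
    ext w
    simp only [Finset.mem_filter, Finset.mem_erase]
    exact ⟨fun h => ⟨h.1.2, h.2⟩, fun h => ⟨⟨(h.2.trans huv).ne, h.1⟩, h.2⟩⟩
  have h2 : (K.filter (· < v)).card = ((K.erase u).filter (· < v)).card + 1 := by
    rw [Finset.filter_erase, Finset.card_erase_add_one (Finset.mem_filter.2 ⟨hu, huv⟩)]
  simp only [sgn, h1, h2, pow_succ]
  ring

lemma twd_one_twd_one (x : Finset V →₀ P) :
    twd (N := N) (fun _ => 1) (twd (N := N) (fun _ => 1) x) = 0 := by
  induction x using Finsupp.induction_linear with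
  | zero => simp
  | add a b ha hb => simp [ha, hb]
  | single K y =>
    simp only [twd_single, map_sum, map_zsmul, Finset.smul_sum, smul_smul, Module.End.one_apply]
    rw [Finset.sum_sigma']
    refine Finset.sum_involution (fun z _ => ⟨z.2, z.1⟩) ?_ ?_ ?_ ?_
    · rintro ⟨u, v⟩ h
      simp only [Finset.mem_sigma, Finset.mem_erase] at h
      dsimp only
      rw [Finset.erase_right_comm (a := v), ← add_smul]
      convert zero_smul ℤ _
      rcases lt_or_gt_of_ne h.2.1 with h' | h'
      · rw [add_comm]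
        exact sgn_anti h.2.2 h'
      · exact sgn_anti h.1 h'
    · rintro ⟨u, v⟩ h - e
      simp only [Finset.mem_sigma, Finset.mem_erase] at h
      exact h.2.1 (congrArg Sigma.fst e)
    · rintro ⟨u, v⟩ h
      simp only [Finset.mem_sigma, Finset.mem_erase] at h ⊢
      exact ⟨h.2.2, Ne.symm h.2.1, h.1⟩
    · rintro ⟨u, v⟩ h
      rfl

/-- Incidence numbers. -/
noncomputable def inc (L K : Finset V) : ℤ := twd (N := ℤ) (fun _ => 1) (single K (1 : ℤ)) L

lemma twd_one_single (K L : Finset V) (y : P) :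
    twd (N := N) (fun _ => 1) (single K y) L = inc L K • y := by
  simp only [inc, twd_single, Module.End.one_apply, coe_finset_sum, Finset.sum_apply,
    Finsupp.smul_apply, Finset.sum_smul, single_apply]
  refine Finset.sum_congr rfl fun v _ => ?_
  split_ifs <;> simp

lemma twd_one_apply {J : Finset (Finset V)} {x : Finset V →₀ P} (hx : x.support ⊆ J)
    (L : Finset V) : twd (N := N) (fun _ => 1) x L = ∑ K : J, inc L K • x K := by
  conv_lhs => rw [← x.sum_single, Finsupp.sum_of_support_subset _ hx _ (by simp)]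
  rw [map_sum, coe_finset_sum, Finset.sum_apply, ← Finset.sum_coe_sort]
  simp only [twd_one_single]

variable (Γ : SimpleGraph V)

open Classical in
/-- The `p`-cliques inside `S`. -/
noncomputable def clq (S : Finset V) (p : ℕ) : Finset (Finset V) :=
  S.powerset.filter (Γ.IsNClique p)

lemma mem_clq {S K : Finset V} {p : ℕ} : K ∈ clq Γ S p ↔ K ⊆ S ∧ Γ.IsNClique p K := by
  simp [clq]

lemma nclique_erase {p : ℕ} {K : Finset V} (hK : Γ.IsNClique (p + 1) K) {v : V} (hv : v ∈ K) :
    Γ.IsNClique p (K.erase v) :=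
  ⟨hK.1.subset (by simp), by rw [Finset.card_erase_of_mem hv, hK.2]; rfl⟩

lemma inc_eq_zero {S K L : Finset V} {p : ℕ} (hK : K ∈ clq Γ S (p + 1)) (hL : L ∉ clq Γ S p) :
    inc L K = 0 := by
  simp only [inc, twd_single, coe_finset_sum, Finset.sum_apply, Finsupp.smul_apply]
  refine Finset.sum_eq_zero fun v hv => ?_
  rw [single_eq_of_ne, smul_zero]
  rintro rfl
  rw [mem_clq] at hK hL
  exact hL ⟨(Finset.erase_subset _ _).trans hK.1, nclique_erase Γ hK.2 hv⟩

/-- The chain with given coefficients on `J`. -/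
noncomputable def ofFun {J : Finset (Finset V)} (w : J → P) : Finset V →₀ P :=
  ∑ K : J, single K.1 (w K)

omit [LinearOrder V] in
lemma ofFun_apply {J : Finset (Finset V)} (w : J → P) (K : J) : ofFun w K = w K := by
  rw [ofFun, coe_finset_sum, Finset.sum_apply, Finset.sum_eq_single K]
  · simp
  · exact fun L _ h => single_eq_of_ne fun e => h (Subtype.ext e.symm)
  · simp

omit [LinearOrder V] in
lemma support_ofFun {J : Finset (Finset V)} (w : J → P) : (ofFun w).support ⊆ J := by
  intro K hK
  by_contra h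
  refine mem_support_iff.1 hK ?_
  rw [ofFun, coe_finset_sum, Finset.sum_apply]
  exact Finset.sum_eq_zero fun L _ => single_eq_of_ne fun e => h (e ▸ L.2)

lemma twd_one_eq {S : Finset V} {p : ℕ} {w x : Finset V →₀ P}
    (hw : w.support ⊆ clq Γ S (p + 1)) (hx : x.support ⊆ clq Γ S p)
    (h : ∀ L : clq Γ S p, ∑ K : clq Γ S (p + 1), inc L.1 K • w K = x L) :
    twd (N := N) (fun _ => 1) w = x := by
  ext L
  rw [twd_one_apply hw]
  by_cases hL : L ∈ clq Γ S p
  · exact h ⟨L, hL⟩
  · rw [notMem_support_iff.1 fun h' => hL (hx h')]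
    exact Finset.sum_eq_zero fun K _ => by rw [inc_eq_zero Γ K.2 hL, zero_smul]

lemma exact_on {S : Finset V} {q : ℕ} (h : ExactTwo (Γ.comap (Subtype.val : S → V)) q)
    (z : Finset V →₀ ZMod 2) (hz : z.support ⊆ clq Γ S q)
    (hz0 : twd (N := ZMod 2) (fun _ => 1) z = 0) :
    ∃ w : Finset V →₀ ZMod 2, w.support ⊆ clq Γ S (q + 1) ∧
      twd (N := ZMod 2) (fun _ => 1) w = z := by
  let e : Finset S → Finset V := fun K => K.map (Function.Embedding.subtype _)
  have he : Function.Injective e := Finset.map_injective _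
  have hcl : ∀ p K, e K ∈ clq Γ S p ↔ (Γ.comap (Subtype.val : S → V)).IsNClique p K := by
    intro p K
    rw [mem_clq, SimpleGraph.isNClique_iff, SimpleGraph.isNClique_iff, Finset.card_map]
    refine ⟨fun h => ⟨fun u hu v hv huv => ?_, h.2.2⟩, fun h => ⟨?_, ?_, h.2⟩⟩
    · exact h.2.1 (Finset.mem_map_of_mem _ hu) (Finset.mem_map_of_mem _ hv)
        (Subtype.val_injective.ne huv)
    · intro v hv
      obtain ⟨u, -, rfl⟩ := Finset.mem_map.1 hv
      exact u.2
    · intro u hu v hv huv
      obtain ⟨u, hu', rfl⟩ := Finset.mem_map.1 hu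
      obtain ⟨v, hv', rfl⟩ := Finset.mem_map.1 hv
      exact h.1 hu' hv' fun e => huv (congrArg _ e)
  have hcomm : ∀ y : Finset S →₀ ZMod 2,
      twd (N := ZMod 2) (fun _ => 1) (mapDomain e y) = mapDomain e (sbd y) := by
    intro y
    induction y using Finsupp.induction_linear with
    | zero => simp
    | add a b ha hb => simp only [mapDomain_add, map_add, ha, hb]
    | single K a =>
      rw [mapDomain_single, twd_single, sbd, linearCombination_single, ← lmapDomain_apply _ (ZMod 2),
        map_smul, map_sum, Finset.smul_sum, Finset.sum_map]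
      refine Finset.sum_congr rfl fun v _ => ?_
      rw [lmapDomain_apply, mapDomain_single, smul_single, smul_single, ← Finset.map_erase]
      congr 1
      simp [sgn, show (-1 : ZMod 2) = 1 from rfl]
  have hrange : (z.support : Set (Finset V)) ⊆ Set.range e := by
    intro K hK
    have hK' := ((mem_clq Γ).1 (hz hK)).1
    exact ⟨K.subtype _, Finset.subtype_map_of_mem hK'⟩
  obtain ⟨z', rfl⟩ : ∃ z', mapDomain e z' = z :=
    ⟨comapDomain e z he.injOn, mapDomain_comapDomain e he z hrange⟩
  classical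
  obtain ⟨w, hw, hw'⟩ := h z' (fun A hA => (hcl q A).1 (hz (by
      rw [mapDomain_support_of_injective he]
      exact Finset.mem_image_of_mem _ hA)))
    (mapDomain_injective he (by rw [← hcomm, hz0, mapDomain_zero]))
  refine ⟨mapDomain e w, fun K hK => ?_, by rw [hcomm, hw']⟩
  obtain ⟨A, hA, rfl⟩ := Finset.mem_image.1 (mapDomain_support hK)
  exact (hcl _ A).2 (hw A hA)

/-- Chains supported on `p`-cliques. -/
def cs (N P : Type) [Ring N] [AddCommGroup P] [Module N P] (p : ℕ) :
    Submodule N (Finset V →₀ P) :=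
  supported P N {K | Γ.IsNClique p K}

theorem simplicial_torsion {k : ℕ}
    (hex : ∀ S : Finset V, ExactTwo (Γ.comap (Subtype.val : S → V)) (k + 1))
    {x : Finset V →₀ P} (hx : x ∈ cs Γ N P (k + 1)) (hx0 : twd (N := N) (fun _ => 1) x = 0) :
    ∃ m : ℤ, m ≠ 0 ∧ ∃ w ∈ cs Γ N P (k + 2), twd (N := N) (fun _ => 1) w = m • x := by
  let S : Finset V := x.support.biUnion id
  have hxS : x.support ⊆ clq Γ S (k + 1) := fun K hK =>
    (mem_clq Γ).2 ⟨Finset.subset_biUnion_of_mem id hK, hx hK⟩
  let D (p : ℕ) : Matrix (clq Γ S p) (clq Γ S (p + 1)) ℤ := fun L K => inc L.1 K.1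
  have hDD : D k * D (k + 1) = 0 := by
    ext L K
    have h1 : (twd (N := ℤ) (fun _ => 1) (single K.1 (1 : ℤ))).support ⊆ clq Γ S (k + 1) := by
      intro L' hL'
      by_contra h
      exact mem_support_iff.1 hL' (inc_eq_zero Γ K.2 h)
    have := twd_one_apply (N := ℤ) h1 L
    rw [twd_one_twd_one] at this
    exact this.symm
  obtain ⟨m, hm, h⟩ := exists_mul_eq_bd (D (k + 1)) (D k) hDD fun z hz => by
    obtain ⟨w, hw, hw'⟩ := exact_on Γ (hex S) (ofFun z) (support_ofFun z)
      (twd_one_eq Γ (support_ofFun z) (by simp) fun L => by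
        simpa [ofFun_apply, Matrix.mulVec, dotProduct, D] using congrFun hz L)
    refine ⟨fun K => w K, funext fun L => ?_⟩
    have := twd_one_apply (N := ZMod 2) hw L
    rw [hw', ofFun_apply] at this
    simpa [Matrix.mulVec, dotProduct, D] using this.symm
  obtain ⟨w, hw⟩ := h P (fun K => x K) fun L => by
    have := twd_one_apply (N := N) hxS L
    rw [hx0] at this
    exact this.symm
  refine ⟨m, hm, ofFun w, fun K hK => ((mem_clq Γ).1 (support_ofFun w hK)).2,
    twd_one_eq Γ (support_ofFun w) (support_smul.trans hxS) fun L => ?_⟩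
  simp only [ofFun_apply]
  exact hw L

section Phi

variable (T : V → Module.End N P) (hT : ∀ u v, Γ.Adj u v → Commute (T u) (T v))

open Classical in
/-- The product of the `T v` over a clique. -/
noncomputable def phi (K : Finset V) : Module.End N P :=
  if h : Γ.IsClique K then K.noncommProd T fun u hu v hv huv => hT u v (h hu hv huv) else 1

lemma phi_erase {K : Finset V} (hK : Γ.IsClique K) {v : V} (hv : v ∈ K) :
    phi Γ T hT (K.erase v) * T v = phi Γ T hT K := by
  have hK' : Γ.IsClique (K.erase v : Finset V) := hK.subset (by simp)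
  rw [phi, phi, dif_pos hK, dif_pos hK']
  exact Finset.noncommProd_erase_mul K hv T _

lemma phi_induction {Pr : Module.End N P → Prop} (h1 : Pr 1)
    (hmul : ∀ a v, Pr a → Pr (a * T v)) {p : ℕ} {K : Finset V} (hK : Γ.IsNClique p K) :
    Pr (phi Γ T hT K) := by
  induction p generalizing K with
  | zero =>
    rw [Finset.card_eq_zero.1 hK.2, phi, dif_pos (by simp)]
    exact h1
  | succ p ih =>
    obtain ⟨v, hv⟩ := Finset.card_pos.1 (by rw [hK.2]; exact p.succ_pos : 0 < K.card)
    rw [← phi_erase Γ T hT hK.1 hv]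
    exact hmul _ _ (ih (nclique_erase Γ hK hv))

/-- The chain map from the twisted to the untwisted complex. -/
noncomputable def phiC : (Finset V →₀ P) →ₗ[N] (Finset V →₀ P) :=
  Finsupp.lsum ℕ fun K => lsingle K ∘ₗ phi Γ T hT K

lemma phiC_single (K : Finset V) (y : P) :
    phiC Γ T hT (single K y) = single K (phi Γ T hT K y) := by
  simp only [phiC, lsum_single, LinearMap.comp_apply, lsingle_apply]

lemma phiC_apply (x : Finset V →₀ P) (K : Finset V) :
    phiC Γ T hT x K = phi Γ T hT K (x K) := by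
  induction x using Finsupp.induction_linear with
  | zero => simp
  | add a b ha hb => simp only [map_add, Finsupp.add_apply, ha, hb]
  | single L y =>
    rw [phiC_single]
    by_cases h : K = L
    · simp [h]
    · simp [single_eq_of_ne h]

omit [LinearOrder V] in
lemma cs_induction {p : ℕ} {Pr : (Finset V →₀ P) → Prop} (h0 : Pr 0)
    (hadd : ∀ a b, Pr a → Pr b → Pr (a + b))
    (h1 : ∀ K y, Γ.IsNClique p K → Pr (single K y)) {x : Finset V →₀ P}
    (hx : x ∈ cs Γ N P p) : Pr x := by
  rw [← x.sum_single, Finsupp.sum]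
  exact Finset.sum_induction _ Pr hadd h0 fun K hK => h1 K _ (hx hK)

lemma twd_mem_cs {p : ℕ} {x : Finset V →₀ P} (hx : x ∈ cs Γ N P (p + 1)) :
    twd T x ∈ cs Γ N P p := by
  refine cs_induction Γ (Pr := fun x => twd T x ∈ cs Γ N P p) (by simp)
    (fun a b ha hb => by simpa using add_mem ha hb) (fun K y hK => ?_) hx
  rw [twd_single]
  exact sum_mem fun v hv => zsmul_mem (single_mem_supported N _ (nclique_erase Γ hK hv)) _

lemma phiC_twd {p : ℕ} {x : Finset V →₀ P} (hx : x ∈ cs Γ N P p) :
    phiC Γ T hT (twd T x) = twd (N := N) (fun _ => 1) (phiC Γ T hT x) := by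
  refine cs_induction Γ
    (Pr := fun x => phiC Γ T hT (twd T x) = twd (N := N) (fun _ => 1) (phiC Γ T hT x)) (by simp)
    (fun a b ha hb => by simp only [map_add, ha, hb]) (fun K y hK => ?_) hx
  simp only [twd_single, phiC_single, map_sum, map_zsmul, Module.End.one_apply]
  refine Finset.sum_congr rfl fun v hv => ?_
  rw [← Module.End.mul_apply, phi_erase Γ T hT hK.1 hv]

include hT in
theorem twisted_torsion (hinj : ∀ v, Function.Injective (T v))
    (hore : ∀ v y, ∃ s : N, IsLeftRegular s ∧ s • y ∈ LinearMap.range (T v))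
    (hN : ∀ m : ℤ, m ≠ 0 → IsLeftRegular (m : N)) {k : ℕ}
    (hex : ∀ S : Finset V, ExactTwo (Γ.comap (Subtype.val : S → V)) (k + 1))
    {z : Finset V →₀ P} (hz : z ∈ cs Γ N P (k + 1)) (hz0 : twd T z = 0) :
    ∃ s : N, IsLeftRegular s ∧ ∃ w ∈ cs Γ N P (k + 2), twd T w = s • z := by
  have hzP : phiC Γ T hT z ∈ cs Γ N P (k + 1) := fun K hK => hz (by
    rw [Finset.mem_coe, mem_support_iff] at hK ⊢
    intro h
    exact hK (by rw [phiC_apply, h, map_zero]))
  obtain ⟨m, hm, w, hw, hw'⟩ := simplicial_torsion Γ hex hzP (by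
    rw [← phiC_twd Γ T hT hz, hz0, map_zero])
  have hsat : Sat ((cs Γ N P (k + 2)).map (phiC Γ T hT)) w := by
    refine cs_induction Γ (Sat.zero _) (fun a b => Sat.add) (fun K y hK n => ?_) hw
    obtain ⟨s, hs, b, hb⟩ := phi_induction Γ T hT
      (Pr := fun a => ∀ y, ∃ s : N, IsLeftRegular s ∧ s • y ∈ LinearMap.range a)
      (fun y => ⟨1, isRegular_one.left, y, by simp⟩) (fun a v ha y => by
        obtain ⟨s, hs, b, hb⟩ := ha y
        obtain ⟨t, ht, c, hc⟩ := hore v b
        exact ⟨t * s, ht.mul hs, c, by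
          rw [Module.End.mul_apply, hc, map_smul, hb, mul_smul]⟩) hK (n • y)
    exact ⟨s, hs, single K b, single_mem_supported N _ hK, by
      rw [phiC_single, hb, smul_single, smul_single]⟩
  obtain ⟨s, hs, w', hw1, hw2⟩ := hsat.out
  refine ⟨s * m, hs.mul (hN m hm), w', hw1, ?_⟩
  have e : phiC Γ T hT (twd T w' - (s * m) • z) = 0 := by
    rw [map_sub, phiC_twd Γ T hT hw1, hw2, map_smul, hw', map_smul, mul_smul,
      Int.cast_smul_eq_zsmul, sub_self]
  have hmem : twd T w' - (s * m) • z ∈ cs Γ N P (k + 1) :=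
    sub_mem (twd_mem_cs Γ T hw1) (Submodule.smul_mem _ _ hz)
  rw [← sub_eq_zero]
  ext K
  by_contra hK
  have hi := phi_induction Γ T hT (Pr := fun a => Function.Injective a) Function.injective_id
    (fun a v ha => ha.comp (hinj v)) (hmem (mem_support_iff.2 hK))
  exact hK (hi (by rw [← phiC_apply, e]; simp))

end Phi

end Pool.Agent.MP_4f4d9f_gt

end

section

/-! The projection onto functions with vanishing panel sums, and formal properties of `cbd`. -/

namespace Pool.Agent.MP_4f4d9f_gt

namespace Prj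

section Ip

variable {B : Type}

lemma ip_eq (x y : B →₀ ℚ) : ip x y = Finsupp.linearCombination ℚ (⇑y) x := by
  rw [Finsupp.linearCombination_apply]
  rfl

lemma ip_single_left (b : B) (a : ℚ) (y : B →₀ ℚ) : ip (Finsupp.single b a) y = a * y b := by
  rw [ip_eq, Finsupp.linearCombination_single, smul_eq_mul]

lemma ip_add_left (x x' y : B →₀ ℚ) : ip (x + x') y = ip x y + ip x' y := by
  simp only [ip_eq, map_add]

lemma ip_zero_left (y : B →₀ ℚ) : ip 0 y = 0 := by
  simp only [ip_eq, map_zero]

lemma ip_smul_left (t : ℚ) (x y : B →₀ ℚ) : ip (t • x) y = t * ip x y := by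
  simp only [ip_eq, map_smul, smul_eq_mul]

lemma ip_sum_left {ι : Type} (s : Finset ι) (x : ι → B →₀ ℚ) (y : B →₀ ℚ) :
    ip (∑ i ∈ s, x i) y = ∑ i ∈ s, ip (x i) y := by
  simp only [ip_eq, map_sum]

lemma ip_single_right (x : B →₀ ℚ) (b : B) (a : ℚ) : ip x (Finsupp.single b a) = a * x b := by
  classical
  induction x using Finsupp.induction_linear with
  | zero => simp [ip_zero_left]
  | add x x' h h' => rw [ip_add_left, h, h', Finsupp.add_apply, mul_add]
  | single c t =>
    rw [ip_single_left, Finsupp.single_apply, Finsupp.single_apply]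
    by_cases h : b = c
    · simp [h, mul_comm]
    · simp [h, Ne.symm h]

lemma ip_add_right (x y y' : B →₀ ℚ) : ip x (y + y') = ip x y + ip x y' := by
  simp only [ip, Finsupp.add_apply, mul_add, Finsupp.sum, Finset.sum_add_distrib]

lemma ip_zero_right (x : B →₀ ℚ) : ip x 0 = 0 := by
  simp [ip]

lemma ip_comm (x y : B →₀ ℚ) : ip x y = ip y x := by
  induction x using Finsupp.induction_linear with
  | zero => rw [ip_zero_left, ip_zero_right]
  | add x x' h h' => rw [ip_add_left, ip_add_right, h, h']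
  | single c t => rw [ip_single_left, ip_single_right]

lemma ip_smul_right (t : ℚ) (x y : B →₀ ℚ) : ip x (t • y) = t * ip x y := by
  rw [ip_comm, ip_smul_left, ip_comm]

lemma ip_sub_left (x x' y : B →₀ ℚ) : ip (x - x') y = ip x y - ip x' y := by
  simp only [ip_eq, map_sub]

lemma ip_sub_right (x y y' : B →₀ ℚ) : ip x (y - y') = ip x y - ip x y' := by
  rw [ip_comm, ip_sub_left, ip_comm, ip_comm y']

lemma ip_sum_right {ι : Type} (s : Finset ι) (x : B →₀ ℚ) (y : ι → B →₀ ℚ) :
    ip x (∑ i ∈ s, y i) = ∑ i ∈ s, ip x (y i) := by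
  rw [ip_comm, ip_sum_left]
  exact Finset.sum_congr rfl fun i _ => ip_comm _ _

lemma ext_ip {x x' : B →₀ ℚ} (h : ∀ y, ip x y = ip x' y) : x = x' := by
  ext b
  simpa only [ip_single_right, one_mul] using h (Finsupp.single b 1)

/-- Adjointness can be tested on basis vectors. -/
lemma adj_of_single {f g : (B →₀ ℚ) →ₗ[ℚ] (B →₀ ℚ)}
    (h : ∀ b y, ip (f (Finsupp.single b 1)) y = g y b) (x y : B →₀ ℚ) :
    ip (f x) y = ip x (g y) := by
  induction x using Finsupp.induction_linear with
  | zero => rw [map_zero, ip_zero_left, ip_zero_left]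
  | add x x' h h' => rw [map_add, ip_add_left, ip_add_left, h, h']
  | single c t =>
    rw [ip_single_left, ← h, ← ip_smul_left, ← map_smul, Finsupp.smul_single, smul_eq_mul, mul_one]

end Ip

variable {V W : Type} [Fintype V] [LinearOrder V] [Group W] {Γ : SimpleGraph V}
  (P : V → Subgroup W) [∀ v, Fintype (P v)]

/-- The average over `v`-panels. -/
noncomputable def avg (v : V) : Module.End ℚ (W × Finset V →₀ ℚ) :=
  Finsupp.linearCombination ℚ fun c =>
    (Fintype.card (P v) : ℚ)⁻¹ • ∑ a : P v, Finsupp.single (c.1 * a, c.2) 1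

omit [Fintype V] [LinearOrder V] in
lemma avg_single (v : V) (c : W × Finset V) :
    avg P v (Finsupp.single c 1) =
      (Fintype.card (P v) : ℚ)⁻¹ • ∑ a : P v, Finsupp.single (c.1 * a, c.2) 1 := by
  rw [avg, Finsupp.linearCombination_single, one_smul]

omit [Fintype V] [LinearOrder V] in
lemma avg_apply (v : V) (x : W × Finset V →₀ ℚ) (c : W × Finset V) :
    avg P v x c = (Fintype.card (P v) : ℚ)⁻¹ * ∑ a : P v, x (c.1 * a, c.2) := by
  classical
  induction x using Finsupp.induction_linear with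
  | zero => simp
  | add x x' h h' =>
    simp only [map_add, Finsupp.add_apply, h, h', Finset.sum_add_distrib, mul_add]
  | single d t =>
    rw [avg, Finsupp.linearCombination_single, Finsupp.smul_apply, Finsupp.smul_apply,
      Finsupp.finsetSum_apply, smul_eq_mul, smul_eq_mul, mul_left_comm, Finset.mul_sum]
    congr 1
    refine Fintype.sum_equiv (Equiv.inv (P v)) _ _ fun a => ?_
    obtain ⟨g, A⟩ := c
    obtain ⟨h, B⟩ := d
    simp only [Finsupp.single_apply, Prod.mk.injEq, Equiv.inv_apply, Subgroup.coe_inv,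
      eq_mul_inv_iff_mul_eq, mul_ite, mul_one, mul_zero]

omit [Fintype V] [LinearOrder V] in
lemma avg_adj (v : V) (x y : W × Finset V →₀ ℚ) : ip (avg P v x) y = ip x (avg P v y) := by
  refine adj_of_single (fun b y => ?_) x y
  rw [avg_single, ip_smul_left, ip_sum_left, avg_apply]
  simp only [ip_single_left, one_mul]

omit [Fintype V] [LinearOrder V] in
lemma avg_avg (v : V) (x : W × Finset V →₀ ℚ) : avg P v (avg P v x) = avg P v x := by
  ext c
  have h : ∀ a : P v, ∑ b : P v, x (c.1 * a * b, c.2) = ∑ b : P v, x (c.1 * b, c.2) := fun a =>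
    Fintype.sum_equiv (Equiv.mulLeft a) _ _ fun b => by simp [mul_assoc]
  have hc : (Fintype.card (P v) : ℚ) ≠ 0 := Nat.cast_ne_zero.2 Fintype.card_ne_zero
  simp only [avg_apply, h, Finset.sum_const, Finset.card_univ, nsmul_eq_mul]
  rw [← mul_assoc, inv_mul_cancel₀ hc, one_mul]

omit [Fintype V] [LinearOrder V] in
lemma avg_comm {u v : V} (h : ∀ a ∈ P u, ∀ b ∈ P v, a * b = b * a) :
    Commute (avg P u) (avg P v) := by
  refine LinearMap.ext fun x => Finsupp.ext fun c => ?_
  simp only [Module.End.mul_apply, avg_apply, Finset.mul_sum]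
  rw [Finset.sum_comm]
  refine Finset.sum_congr rfl fun b _ => Finset.sum_congr rfl fun a _ => ?_
  rw [mul_left_comm, mul_assoc c.1, h a a.2 b b.2, mul_assoc c.1]

omit [Fintype V] [LinearOrder V] in
lemma sum_adjPres {θ : Equiv.Perm W} (hθ : AdjPres P θ) {M : Type} [AddCommMonoid M] (v : V)
    (g : W) (F : W → M) : ∑ a : P v, F (θ (g * a)) = ∑ a : P v, F (θ g * a) := by
  let e : P v → P v := fun a => ⟨(θ g)⁻¹ * θ (g * a), (hθ g (g * a) v).1 (by simp)⟩
  have he : Function.Injective e := fun a b h => by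
    have h1 : (θ g)⁻¹ * θ (g * a) = (θ g)⁻¹ * θ (g * b) := congrArg Subtype.val h
    exact Subtype.ext (mul_left_cancel (θ.injective (mul_left_cancel h1)))
  refine Fintype.sum_bijective e (Finite.injective_iff_bijective.1 he) _ _ fun a => ?_
  simp [e]

omit [Fintype V] [LinearOrder V] in
lemma avg_mapDomain {θ : Equiv.Perm W} (hθ : AdjPres P θ) (v : V) (x : W × Finset V →₀ ℚ) :
    avg P v (x.mapDomain (Prod.map θ id)) = (avg P v x).mapDomain (Prod.map θ id) := by
  induction x using Finsupp.induction_linear with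
  | zero => simp
  | add x x' h h' => simp only [Finsupp.mapDomain_add, map_add, h, h']
  | single c t =>
    rw [← Finsupp.smul_single_one, Finsupp.mapDomain_smul, map_smul, map_smul,
      Finsupp.mapDomain_smul, Finsupp.mapDomain_single, avg_single, avg_single,
      Finsupp.mapDomain_smul, Finsupp.mapDomain_finsetSum]
    simp only [Finsupp.mapDomain_single, Prod.map, id]
    rw [sum_adjPres P hθ v c.1 fun w => Finsupp.single (w, c.2) (1 : ℚ)]

/-- The `A`-component. -/
noncomputable def cmp (W : Type) (A : Finset V) : Module.End ℚ (W × Finset V →₀ ℚ) :=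
  Finsupp.linearCombination ℚ fun c => if c.2 = A then Finsupp.single c 1 else 0

omit [Fintype V] [Group W] in
lemma cmp_apply (A : Finset V) (x : W × Finset V →₀ ℚ) (c : W × Finset V) :
    cmp W A x c = if c.2 = A then x c else 0 := by
  classical
  induction x using Finsupp.induction_linear with
  | zero => simp
  | add x x' h h' =>
    simp only [map_add, Finsupp.add_apply, h, h']
    split_ifs <;> simp
  | single d t =>
    rw [cmp, Finsupp.linearCombination_single]
    by_cases h : d = c
    · subst h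
      split_ifs <;> simp
    · split_ifs <;> simp [h]

omit [Fintype V] [Group W] in
lemma cmp_adj (A : Finset V) (x y : W × Finset V →₀ ℚ) :
    ip (cmp W A x) y = ip x (cmp W A y) := by
  refine adj_of_single (fun b y => ?_) x y
  rw [cmp_apply, cmp, Finsupp.linearCombination_single, one_smul]
  split_ifs
  · rw [ip_single_left, one_mul]
  · exact ip_zero_left _

omit [Fintype V] in
lemma cmp_avg (A : Finset V) (v : V) : Commute (cmp W A) (avg P v) := by
  refine LinearMap.ext fun x => Finsupp.ext fun c => ?_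
  simp only [Module.End.mul_apply, avg_apply, cmp_apply]
  split_ifs <;> simp

omit [Fintype V] [Group W] in
lemma cmp_mapDomain (θ : W → W) (A : Finset V) (x : W × Finset V →₀ ℚ) :
    cmp W A (x.mapDomain (Prod.map θ id)) = (cmp W A x).mapDomain (Prod.map θ id) := by
  induction x using Finsupp.induction_linear with
  | zero => simp
  | add x x' h h' => simp only [Finsupp.mapDomain_add, map_add, h, h']
  | single c t =>
    rw [Finsupp.mapDomain_single, cmp, Finsupp.linearCombination_single,
      Finsupp.linearCombination_single]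
    by_cases h : c.2 = A
    · simp [h, Finsupp.mapDomain_single]
    · simp [h]

variable {P}

omit [Fintype V] [LinearOrder V] in
lemma comm_T (hcomm : ∀ u v, Γ.Adj u v → ∀ a ∈ P u, ∀ b ∈ P v, a * b = b * a) (u v : V)
    (h : Γ.Adj u v) : Commute (1 - avg P u) (1 - avg P v) :=
  (Commute.one_left _).sub_left
    ((Commute.one_right _).sub_right (avg_comm P (hcomm u v h)))

section Proj

variable (hcomm : ∀ u v, Γ.Adj u v → ∀ a ∈ P u, ∀ b ∈ P v, a * b = b * a)

/-- The product of the `1 - avg v` over a clique. -/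
noncomputable def ph (K : Finset V) : Module.End ℚ (W × Finset V →₀ ℚ) :=
  phi Γ (fun v => 1 - avg P v) (comm_T hcomm) K

omit [Fintype V] in
lemma ph_ind {K : Finset V} (hK : Γ.IsClique K) (p : Module.End ℚ (W × Finset V →₀ ℚ) → Prop)
    (hmul : ∀ a b, p a → p b → p (a * b)) (h1 : p 1) (hb : ∀ v ∈ K, p (1 - avg P v)) :
    p (ph hcomm K) := by
  rw [ph, phi, dif_pos hK]
  exact Finset.noncommProd_induction _ _ _ p hmul h1 hb

omit [Fintype V] in
lemma ph_erase {K : Finset V} (hK : Γ.IsClique K) {v : V} (hv : v ∈ K) :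
    (1 - avg P v) * ph hcomm (K.erase v) = ph hcomm K := by
  have hK' : Γ.IsClique (K.erase v : Finset V) := hK.subset (by simp)
  rw [ph, ph, phi, phi, dif_pos hK, dif_pos hK']
  exact Finset.mul_noncommProd_erase K hv (fun v => 1 - avg P v) _

omit [Fintype V] in
lemma ph_adj {p : ℕ} {K : Finset V} (hK : Γ.IsNClique p K) (x y : W × Finset V →₀ ℚ) :
    ip (ph hcomm K x) y = ip x (ph hcomm K y) := by
  induction p generalizing K x y with
  | zero =>
    rw [Finset.card_eq_zero.1 hK.2, ph, phi, dif_pos (by simp)]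
    rfl
  | succ p ih =>
    obtain ⟨v, hv⟩ := Finset.card_pos.1 (by rw [hK.2]; exact p.succ_pos : 0 < K.card)
    have h1 : ph hcomm (K.erase v) * (1 - avg P v) = ph hcomm K :=
      phi_erase Γ (fun v => 1 - avg P v) (comm_T hcomm) hK.1 hv
    conv_lhs => rw [← h1]
    rw [← ph_erase hcomm hK.1 hv, Module.End.mul_apply, Module.End.mul_apply,
      ih (nclique_erase Γ hK hv)]
    simp only [LinearMap.sub_apply, Module.End.one_apply, ip_sub_left, ip_sub_right, avg_adj]

omit [Fintype V] in
lemma cmp_ph {K : Finset V} (hK : Γ.IsClique K) (A : Finset V) :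
    Commute (cmp W A) (ph hcomm K) :=
  ph_ind hcomm hK (fun a => Commute (cmp W A) a) (fun _ _ => Commute.mul_right)
    (Commute.one_right _) fun v _ => (Commute.one_right _).sub_right (cmp_avg P A v)

open Classical in
/-- The projection. -/
noncomputable def prj : Module.End ℚ (W × Finset V →₀ ℚ) :=
  ∑ A ∈ Finset.univ.filter (fun A : Finset V => Γ.IsClique A), cmp W A * ph hcomm A

open Classical in
lemma prj_apply (x : W × Finset V →₀ ℚ) (c : W × Finset V) :
    prj hcomm x c = if Γ.IsClique c.2 then ph hcomm c.2 x c else 0 := by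
  rw [prj, LinearMap.sum_apply, Finsupp.finsetSum_apply]
  simp only [Module.End.mul_apply, cmp_apply]
  rw [Finset.sum_ite_eq]
  simp

lemma prj_cmp (A : Finset V) : Commute (cmp W A) (prj hcomm) := by
  refine Commute.sum_right _ _ _ fun K hK => Commute.mul_right ?_ (cmp_ph hcomm (by simpa using hK) A)
  refine LinearMap.ext fun x => Finsupp.ext fun c => ?_
  simp only [Module.End.mul_apply, cmp_apply]
  split_ifs <;> rfl

lemma prj_isPrj : IsPrj Γ P (prj hcomm) where
  mem j x hx := by
    refine ⟨fun c hc => ?_, fun A v hv g => ?_⟩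
    · by_contra h
      refine Finsupp.mem_support_iff.1 hc ?_
      have h1 : cmp W c.2 x = 0 := by
        ext d
        rw [cmp_apply]
        split_ifs with hd
        · by_contra h2
          have h3 : Γ.IsNClique j d.2 := hx (Finsupp.mem_support_iff.2 h2)
          exact h (show Γ.IsNClique j c.2 from hd ▸ h3)
        · rfl
      have h2 := congrArg (fun a => a x c) (prj_cmp hcomm c.2).eq
      simpa only [Module.End.mul_apply, cmp_apply, h1, map_zero, if_true, Finsupp.zero_apply]
        using h2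
    · simp only [prj_apply]
      split_ifs with hA
      · have h1 := avg_apply P v (ph hcomm A x) (g, A)
        rw [← ph_erase hcomm hA hv, Module.End.mul_apply, LinearMap.sub_apply, map_sub, avg_avg,
          Module.End.one_apply, sub_self, Finsupp.zero_apply, eq_comm, mul_eq_zero] at h1
        rw [← ph_erase hcomm hA hv]
        exact h1.resolve_left (inv_ne_zero (Nat.cast_ne_zero.2 Fintype.card_ne_zero))
      · simp
  zero c hc := by
    have h1 : cmp W c.2 (Finsupp.single c 1) = Finsupp.single c 1 := by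
      rw [cmp, Finsupp.linearCombination_single, if_pos rfl, one_smul]
    rw [← h1, ← Module.End.mul_apply, ← (prj_cmp hcomm c.2).eq, Module.End.mul_apply]
    ext d
    rw [cmp_apply, prj_apply]
    split_ifs with h2 h3
    · exact absurd (h2 ▸ h3) hc
    · rfl
    · rfl
  fix j x hx := by
    ext c
    rw [prj_apply]
    split_ifs with hc
    · have h1 : ph hcomm c.2 (cmp W c.2 x) = cmp W c.2 x := by
        refine ph_ind hcomm hc (fun a => a (cmp W c.2 x) = cmp W c.2 x)
          (fun a b ha hb => by rw [Module.End.mul_apply, hb, ha]) rfl fun v hv => ?_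
        rw [LinearMap.sub_apply, Module.End.one_apply, sub_eq_self, ← Module.End.mul_apply,
          ← (cmp_avg P c.2 v).eq, Module.End.mul_apply]
        ext d
        rw [cmp_apply]
        split_ifs with hd
        · rw [avg_apply, hx.2 d.2 v (hd ▸ hv), mul_zero, Finsupp.zero_apply]
        · rfl
      rw [← Module.End.mul_apply, ← (cmp_ph hcomm hc c.2).eq, Module.End.mul_apply] at h1
      simpa only [cmp_apply, if_true] using congrArg (fun a => a c) h1
    · by_contra h
      exact hc (hx.1 (Finsupp.mem_support_iff.2 (Ne.symm h))).1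
  adj x y := by
    rw [prj, LinearMap.sum_apply, LinearMap.sum_apply, ip_sum_left, ip_sum_right]
    refine Finset.sum_congr rfl fun K hK => ?_
    have hK' : Γ.IsClique K := by simpa using hK
    conv_rhs => rw [(cmp_ph hcomm hK' K).eq]
    rw [Module.End.mul_apply, Module.End.mul_apply, cmp_adj, ph_adj hcomm ⟨hK', rfl⟩]
  eqv θ hθ x := by
    rw [prj, LinearMap.sum_apply, LinearMap.sum_apply, Finsupp.mapDomain_finsetSum]
    refine Finset.sum_congr rfl fun K hK => ?_
    have hK' : Γ.IsClique K := by simpa using hK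
    rw [Module.End.mul_apply, Module.End.mul_apply, ← cmp_mapDomain]
    congr 1
    refine ph_ind hcomm hK' (fun a => ∀ x : W × Finset V →₀ ℚ,
      a (x.mapDomain (Prod.map θ id)) = (a x).mapDomain (Prod.map θ id))
      (fun a b ha hb x => by rw [Module.End.mul_apply, Module.End.mul_apply, hb, ha])
      (fun _ => rfl) (fun v _ x => ?_) x
    simp only [LinearMap.sub_apply, Module.End.one_apply, avg_mapDomain P hθ]
    exact (map_sub (Finsupp.lmapDomain ℚ ℚ (Prod.map θ id)) _ _).symm

end Proj

omit [Fintype V] [Group W] in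
lemma cbd_single (c : W × Finset V) (t : ℚ) : cbd W V (Finsupp.single c t) =
    t • ∑ v ∈ c.2, (sgn c.2 v : ℚ) • Finsupp.single (c.1, c.2.erase v) 1 := by
  rw [cbd, Finsupp.linearCombination_single]

omit [Group W] in
lemma cco_single (c : W × Finset V) (t : ℚ) : cco W V (Finsupp.single c t) =
    t • ∑ v ∈ c.2ᶜ, (sgn (insert v c.2) v : ℚ) • Finsupp.single (c.1, insert v c.2) 1 := by
  rw [cco, Finsupp.linearCombination_single]

omit [Group W] in
lemma cbd_apply (x : W × Finset V →₀ ℚ) (c : W × Finset V) :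
    cbd W V x c = ∑ v ∈ c.2ᶜ, (sgn (insert v c.2) v : ℚ) * x (c.1, insert v c.2) := by
  classical
  induction x using Finsupp.induction_linear with
  | zero => simp
  | add x x' h h' =>
    simp only [map_add, Finsupp.add_apply, h, h', Finset.sum_add_distrib, mul_add]
  | single d t =>
    obtain ⟨g, A⟩ := c
    obtain ⟨h, B⟩ := d
    rw [cbd_single, Finsupp.smul_apply, Finsupp.finsetSum_apply, smul_eq_mul, Finset.mul_sum,
      ← Finset.sum_ite_mem_eq B, ← Finset.sum_ite_mem_eq Aᶜ]
    refine Finset.sum_congr rfl fun v _ => ?_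
    simp only [Finsupp.smul_apply, Finsupp.single_apply, Prod.mk.injEq, smul_eq_mul,
      Finset.mem_compl]
    by_cases h1 : v ∈ B ∧ h = g ∧ B.erase v = A
    · obtain ⟨h1, rfl, rfl⟩ := h1
      simp [h1, Finset.insert_erase h1, mul_comm]
    · have h2 : ¬ (v ∉ A ∧ h = g ∧ B = insert v A) := by
        rintro ⟨h2, rfl, rfl⟩
        exact h1 ⟨Finset.mem_insert_self _ _, rfl, Finset.erase_insert h2⟩
      split_ifs <;> simp_all

end Prj

open Prj

variable {V W : Type} [Fintype V] [LinearOrder V] [Group W] {Γ : SimpleGraph V}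
  {P : V → Subgroup W} [∀ v, Fintype (P v)]

theorem exists_prj (hcomm : ∀ u v, Γ.Adj u v → ∀ a ∈ P u, ∀ b ∈ P v, a * b = b * a) :
    ∃ f, IsPrj Γ P f :=
  ⟨_, prj_isPrj hcomm⟩

theorem ip_cbd (x y : W × Finset V →₀ ℚ) : ip (cbd W V x) y = ip x (cco W V y) := by
  rw [ip_comm, ip_comm x, eq_comm]
  refine adj_of_single (fun b y => ?_) y x
  rw [cco_single, one_smul, ip_sum_left, cbd_apply]
  simp only [ip_smul_left, ip_single_left, one_mul]

theorem cbd_cbd (x : W × Finset V →₀ ℚ) : cbd W V (cbd W V x) = 0 := by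
  induction x using Finsupp.induction_linear with
  | zero => simp
  | add a b ha hb => simp [ha, hb]
  | single c y =>
    rw [cbd_single, map_smul, map_sum]
    convert smul_zero y
    simp only [map_smul, cbd_single, one_mul, Finset.smul_sum, smul_smul]
    rw [Finset.sum_sigma']
    refine Finset.sum_involution (fun z _ => ⟨z.2, z.1⟩) ?_ ?_ ?_ ?_
    · rintro ⟨u, v⟩ h
      simp only [Finset.mem_sigma, Finset.mem_erase] at h
      dsimp only
      rw [Finset.erase_right_comm (a := v), ← add_smul]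
      convert zero_smul ℚ _
      rcases lt_or_gt_of_ne h.2.1 with h' | h'
      · rw [add_comm]
        exact_mod_cast sgn_anti h.2.2 h'
      · exact_mod_cast sgn_anti h.1 h'
    · rintro ⟨u, v⟩ h - e
      simp only [Finset.mem_sigma, Finset.mem_erase] at h
      exact h.2.1 (congrArg Sigma.fst e)
    · rintro ⟨u, v⟩ h
      simp only [Finset.mem_sigma, Finset.mem_erase] at h ⊢
      exact ⟨h.2.2, Ne.symm h.2.1, h.1⟩
    · rintro ⟨u, v⟩ h
      rfl

theorem cbd_mem {j : ℕ} {x : W × Finset V →₀ ℚ} (hx : x ∈ PC Γ P (j + 1)) :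
    cbd W V x ∈ PC Γ P j := by
  refine ⟨fun c hc => ?_, fun A v hv g => ?_⟩
  · rw [Finset.mem_coe, Finsupp.mem_support_iff, cbd_apply] at hc
    obtain ⟨u, hu, h⟩ := Finset.exists_ne_zero_of_sum_ne_zero hc
    have h1 : Γ.IsNClique (j + 1) (insert u c.2) :=
      hx.1 (Finsupp.mem_support_iff.2 (right_ne_zero_of_mul h))
    have h2 := nclique_erase Γ h1 (Finset.mem_insert_self u c.2)
    rwa [Finset.erase_insert (Finset.mem_compl.1 hu)] at h2
  · simp only [cbd_apply]
    rw [Finset.sum_comm]
    refine Finset.sum_eq_zero fun u _ => ?_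
    rw [← Finset.mul_sum, hx.2 _ v (Finset.mem_insert_of_mem hv), mul_zero]

theorem cbd_mapDomain (θ : W → W) (x : W × Finset V →₀ ℚ) :
    cbd W V (x.mapDomain (Prod.map θ id)) = (cbd W V x).mapDomain (Prod.map θ id) := by
  induction x using Finsupp.induction_linear with
  | zero => simp
  | add x x' h h' => simp only [Finsupp.mapDomain_add, map_add, h, h']
  | single c t =>
    rw [Finsupp.mapDomain_single, cbd_single, cbd_single, Finsupp.mapDomain_smul,
      Finsupp.mapDomain_finsetSum]
    simp only [Finsupp.mapDomain_smul, Finsupp.mapDomain_single, Prod.map, id]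

theorem cco_mapDomain (θ : W → W) (x : W × Finset V →₀ ℚ) :
    cco W V (x.mapDomain (Prod.map θ id)) = (cco W V x).mapDomain (Prod.map θ id) := by
  induction x using Finsupp.induction_linear with
  | zero => simp
  | add x x' h h' => simp only [Finsupp.mapDomain_add, map_add, h, h']
  | single c t =>
    rw [Finsupp.mapDomain_single, cco_single, cco_single, Finsupp.mapDomain_smul,
      Finsupp.mapDomain_finsetSum]
    simp only [Finsupp.mapDomain_smul, Finsupp.mapDomain_single, Prod.map, id]

theorem mapDomain_mem_PC {θ : Equiv.Perm W} (hθ : AdjPres P θ) {j : ℕ}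
    {x : W × Finset V →₀ ℚ} (hx : x ∈ PC Γ P j) : x.mapDomain (Prod.map θ id) ∈ PC Γ P j := by
  have hi : Function.Injective (Prod.map θ (id : Finset V → Finset V)) :=
    θ.injective.prodMap Function.injective_id
  have h1 : ∀ g A, x.mapDomain (Prod.map θ id) (θ g, A) = x (g, A) := fun g A =>
    Finsupp.mapDomain_apply hi x (g, A)
  refine ⟨fun c hc => ?_, fun A v hv g => ?_⟩
  · obtain ⟨g, A⟩ := c
    obtain ⟨g, rfl⟩ := θ.surjective g
    rw [Finset.mem_coe, Finsupp.mem_support_iff, h1] at hc
    have h2 : Γ.IsNClique j (g, A).2 := hx.1 (Finsupp.mem_support_iff.2 hc)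
    exact h2
  · obtain ⟨g, rfl⟩ := θ.surjective g
    rw [← sum_adjPres P hθ v g fun w => x.mapDomain (Prod.map θ id) (w, A)]
    simp only [h1]
    exact hx.2 A v hv g

theorem IsPrj.mem_PC {f : (W × Finset V →₀ ℚ) →ₗ[ℚ] (W × Finset V →₀ ℚ)} (hf : IsPrj Γ P f)
    {j : ℕ} {x : W × Finset V →₀ ℚ}
    (hx : x ∈ Finsupp.supported ℚ ℚ {c : W × Finset V | c.2.card = j}) : f x ∈ PC Γ P j := by
  rw [← x.sum_single, Finsupp.sum, map_sum]
  refine sum_mem fun c hc => ?_
  by_cases h : Γ.IsClique c.2
  · exact hf.mem j _ (Finsupp.single_mem_supported ℚ _ ⟨h, hx hc⟩)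
  · rw [← Finsupp.smul_single_one, map_smul, hf.zero c h, smul_zero]
    exact zero_mem _

theorem cco_mem {j : ℕ} {x : W × Finset V →₀ ℚ}
    (hx : x ∈ Finsupp.supported ℚ ℚ {c : W × Finset V | c.2.card = j}) :
    cco W V x ∈ Finsupp.supported ℚ ℚ {c : W × Finset V | c.2.card = j + 1} := by
  rw [← x.sum_single, Finsupp.sum, map_sum]
  refine sum_mem fun c hc => ?_
  rw [cco_single]
  refine Submodule.smul_mem _ _ (sum_mem fun v hv => Submodule.smul_mem _ _
    (Finsupp.single_mem_supported ℚ _ ?_))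
  have h : c.2.card = j := hx hc
  change (insert v c.2).card = j + 1
  rw [Finset.card_insert_of_notMem (Finset.mem_compl.1 hv), h]

theorem IsPrj.idem {f : (W × Finset V →₀ ℚ) →ₗ[ℚ] (W × Finset V →₀ ℚ)} (hf : IsPrj Γ P f)
    (x : W × Finset V →₀ ℚ) : f (f x) = f x := by
  induction x using Finsupp.induction_linear with
  | zero => simp
  | add x x' h h' => simp only [map_add, h, h']
  | single c t => exact hf.fix _ _ (hf.mem_PC (Finsupp.single_mem_supported ℚ _ rfl))

theorem IsPrj.prj_cbd_prj {f : (W × Finset V →₀ ℚ) →ₗ[ℚ] (W × Finset V →₀ ℚ)}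
    (hf : IsPrj Γ P f) (x : W × Finset V →₀ ℚ) : f (cbd W V (f x)) = cbd W V (f x) := by
  induction x using Finsupp.induction_linear with
  | zero => simp
  | add x x' h h' => simp only [map_add, h, h']
  | single c t =>
    have h : f (Finsupp.single c t) ∈ PC Γ P c.2.card :=
      hf.mem_PC (Finsupp.single_mem_supported ℚ _ rfl)
    generalize c.2.card = j at h
    cases j with
    | zero =>
      have h0 : cbd W V (f (Finsupp.single c t)) = 0 := by
        ext d
        rw [cbd_apply]
        refine Finset.sum_eq_zero fun v _ => mul_eq_zero_of_right _ ?_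
        by_contra h1
        have h2 : Γ.IsNClique 0 (insert v d.2) := h.1 (Finsupp.mem_support_iff.2 h1)
        exact Finset.insert_ne_empty _ _ (Finset.card_eq_zero.1 h2.2)
      rw [h0, map_zero]
    | succ j => exact hf.fix _ _ (cbd_mem h)

theorem IsPrj.cco_prj {f : (W × Finset V →₀ ℚ) →ₗ[ℚ] (W × Finset V →₀ ℚ)} (hf : IsPrj Γ P f)
    (x : W × Finset V →₀ ℚ) : f (cco W V (f x)) = f (cco W V x) := by
  refine ext_ip fun y => ?_
  rw [hf.adj, hf.adj, ip_comm, ← ip_cbd, ← hf.adj, hf.prj_cbd_prj, ip_cbd, ip_comm]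

theorem IsPrj.cco_cco {f : (W × Finset V →₀ ℚ) →ₗ[ℚ] (W × Finset V →₀ ℚ)} (hf : IsPrj Γ P f)
    (x : W × Finset V →₀ ℚ) : f (cco W V (f (cco W V x))) = 0 := by
  have h : cco W V (cco W V x) = 0 := ext_ip fun y => by
    rw [ip_comm, ← ip_cbd, ← ip_cbd, cbd_cbd, ip_zero_left, ip_zero_left]
  rw [hf.cco_prj, h, map_zero]

end Pool.Agent.MP_4f4d9f_gt

end
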