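import Pool.Agent.Mg.F4f4d9fr.G715938

set_option linter.all false

section

/-! Mirror gluings minimise the determinant. -/

open scoped InnerProductSpace

namespace Pool.Agent.MP_4f4d9f_gt.Cb

namespace Ld

variable {G H I X : Type} [Group G] [Fintype I] [NormedAddCommGroup H] [InnerProductSpace ℂ H]
  [CompleteSpace H] {π : G →* (H →L[ℂ] H)} {q P : X → H →L[ℂ] H} {bar : X → X}
  {τ Q N : H →L[ℂ] H} {e : I → H}

omit [CompleteSpace H] in
theorem comm_inv {a x : H →L[ℂ] H} (h : Commute a x) : Commute a (Ring.inverse x) := by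
  by_cases hx : IsUnit x
  · obtain ⟨u, rfl⟩ := hx
    rw [Ring.inverse_unit]
    exact h.units_inv_right
  · rw [Ring.inverse_non_unit _ hx]
    exact Commute.zero_right _

omit [CompleteSpace H] in
theorem comm_pj {a : H →L[ℂ] H} (h : Commute a τ) : Commute a (pj τ) :=
  ((Commute.one_right a).add_right h).smul_right _

omit [CompleteSpace H] in
theorem one_sub_pj : 1 - pj τ = (1 / 2 : ℂ) • (1 - τ) := by
  rw [pj]
  module

omit [CompleteSpace H] in
theorem pj_mul (h : τ * τ = 1) : pj τ * (1 - pj τ) = 0 := by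
  rw [one_sub_pj, pj, smul_mul_smul_comm, add_mul, one_mul, mul_sub, mul_one, h]
  simp

omit [CompleteSpace H] in
theorem pj_mul' (h : τ * τ = 1) : (1 - pj τ) * (1 - pj τ) = 1 - pj τ := by
  rw [sub_mul, one_mul, pj_mul h, sub_zero]

theorem pj_sa (h : star τ = τ) : IsSelfAdjoint (pj τ) := by
  rw [IsSelfAdjoint, pj, star_smul, star_add, star_one, h]
  simp

theorem tau_out (hW : Walls π q P bar) (hτ : Glue π q P bar τ) :
    τ * (1 - Wp q) = 1 - Wp q := by
  ext ξ
  refine hτ.int _ fun x => ?_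
  have : q x * (1 - Wp q) = 0 := by rw [mul_sub, mul_one, q_mul_Wp hW.q_proj, sub_self]
  exact congrArg (fun U : H →L[ℂ] H => U ξ) this

theorem tau_W (hW : Walls π q P bar) (hτ : Glue π q P bar τ) : Commute τ (Wp q) := by
  have h1 := tau_out hW hτ
  have h2 := congrArg star h1
  rw [star_mul, star_sub, star_one, (Wp_proj q).isSelfAdjoint.star_eq, hτ.sa] at h2
  have h3 : Commute τ (1 - Wp q) := h1.trans h2.symm
  simpa using (Commute.one_right τ).sub_right h3

theorem pj_W (hW : Walls π q P bar) (hτ : Glue π q P bar τ) :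
    (1 - pj τ) * Wp q = 1 - pj τ := by
  rw [eq_comm, ← sub_eq_zero, ← mul_one_sub, one_sub_pj, smul_mul_assoc, sub_mul, one_mul,
    tau_out hW hτ, sub_self, smul_zero]

theorem N_W (hN : WD π q N) : N * Wp q = N := by
  have h := congrArg star hN.out
  rwa [star_mul, (Wp_proj q).isSelfAdjoint.star_eq,
    (IsSelfAdjoint.of_ge hN.le (Wp_proj q).isSelfAdjoint).star_eq] at h

theorem mirror_comm (hW : Walls π q P bar) (hτ : Glue π q P bar τ)
    (hm : ∀ x, ∃ g, τ * q x = π g * q x) (hN : WD π q N) : Commute τ N := by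
  have h0 : N * (1 - Wp q) = 0 := by rw [mul_sub, mul_one, N_W hN, sub_self]
  refine wall_ext hW.q_proj (fun x => ?_) ?_
  · obtain ⟨g, hg⟩ := hm x
    rw [mul_assoc, ← (hN.blk x).eq, ← mul_assoc, hg, mul_assoc, (hN.blk x).eq, ← mul_assoc,
      (hN.cm g).eq, mul_assoc, mul_assoc, hg]
  · rw [mul_assoc, h0, mul_assoc, tau_out hW hτ, h0, mul_zero]

theorem tr_tau {E : I → H →L[ℂ] H} (hW : Walls π q P bar) (hτ : Glue π q P bar τ)
    (hE : Fits q P bar e E) {D : H →L[ℂ] H} (h1 : D * Wp q = D) (h2 : ∀ x, Commute (q x) D) :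
    tr e (τ * D) = 0 := by
  refine Finset.sum_eq_zero fun i _ => ?_
  rcases hE.wall i with h | ⟨x, h⟩
  · rw [← h1, ← mul_assoc, mul_apply_eq_comp, Wp_eq_zero.2 h, map_zero,
      inner_zero_right, Complex.zero_re]
  · have h3 : q x * (τ * D * q x) = 0 := by
      rw [mul_assoc τ, ← (h2 x).eq, ← mul_assoc τ, hτ.tq, mul_assoc, ← mul_assoc,
        hW.q_orth x _ (hW.bar_ne x).symm, zero_mul]
    have h4 : q x ((τ * D) (q x (e i))) = 0 := congrArg (fun U : H →L[ℂ] H => U (e i)) h3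
    rw [h] at h4
    nth_rewrite 1 [← h]
    rw [← (hW.q_proj x).isSelfAdjoint.star_eq, ContinuousLinearMap.star_eq_adjoint,
      ContinuousLinearMap.adjoint_inner_left, h4, inner_zero_right, Complex.zero_re]

omit [CompleteSpace H] in
theorem cmp_path (r : ℝ) (D : H →L[ℂ] H) :
    cmp τ Q (1 + r • D) = cmp τ Q 1 + r • ((1 - pj τ) * D * (1 - pj τ)) := by
  simp only [cmp, mul_add, add_mul, mul_smul_comm, smul_mul_assoc, add_assoc]

theorem cmp_end (hW : Walls π q P bar) (hτ : Glue π q P bar τ) :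
    cmp τ Q (1 + (1 : ℝ) • (N - Wp q)) = cmp τ Q N := by
  rw [cmp, cmp, one_smul, mul_add (1 - pj τ), mul_sub (1 - pj τ) N, pj_W hW hτ, mul_one,
    add_sub_cancel]

theorem hasDeriv {E : I → H →L[ℂ] H} (h1 : LdBasStmt) (F : GFrame π e) (hW : Walls π q P bar)
    (hτ : Glue π q P bar τ) (hE : Fits q P bar e E) (hQ : Adm π P Q) (hN : WD π q N)
    (hc : Commute τ N) {r : ℝ} (hr : 0 ≤ r) :
    HasDerivAt (fun r : ℝ => ld e (cmp τ Q (1 + r • (N - Wp q))))
      (1 / 2 * tr e (Ring.inverse (1 + r • (N - Wp q)) * (N - Wp q))) r := by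
  have hM : 1 ≤ 1 + r • (N - Wp q) :=
    le_add_of_nonneg_right (smul_nonneg hr (sub_nonneg.2 hN.le))
  have hMu : IsUnit (1 + r • (N - Wp q)) := CStarAlgebra.isUnit_of_le 1 hM
  have hp := pj_sa hτ.sa
  have hx : 1 ≤ cmp τ Q (1 + r • (N - Wp q)) := by
    have h2 := add_le_add (hp.conjugate_le_conjugate hQ.one_le)
      (((IsSelfAdjoint.one _).sub hp).conjugate_le_conjugate hM)
    have h3 := pj_mul hτ.inv
    rw [mul_sub, mul_one, sub_eq_zero] at h3
    rwa [mul_one, mul_one, pj_mul' hτ.inv, ← h3, add_sub_cancel] at h2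
  have hxp : IsStrictlyPositive (cmp τ Q (1 + r • (N - Wp q))) :=
    IsStrictlyPositive.of_le isStrictlyPositive_one hx
  have cp : ∀ g, Commute (π g) (pj τ) := fun g => comm_pj (hτ.cm g)
  have cp' : ∀ g, Commute (π g) (1 - pj τ) := fun g => (Commute.one_right _).sub_right (cp g)
  have hδ : Cm π ((1 - pj τ) * (N - Wp q) * (1 - pj τ)) := fun g => by
    rw [mul_sub (1 - pj τ) N, pj_W hW hτ]
    exact (((cp' g).mul_right (hN.cm g)).sub_right (cp' g)).mul_right (cp' g)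
  have hxc : Cm π (cmp τ Q (1 + r • (N - Wp q))) := fun g => by
    rw [cmp_path]
    exact ((((cp g).mul_right (hQ.cm g)).mul_right (cp g)).add_right
      (((cp' g).mul_right (Commute.one_right _)).mul_right (cp' g))).add_right
        ((hδ g).smul_right r)
  obtain ⟨L, hL, hL'⟩ := (h1 G H I π e F).2.2.1 _ hxc hxp
  have hd : HasDerivAt (fun r : ℝ => cmp τ Q (1 + r • (N - Wp q)))
      ((1 - pj τ) * (N - Wp q) * (1 - pj τ)) r := by
    simp only [cmp_path]
    simpa using ((hasDerivAt_id r).smul_const ((1 - pj τ) * (N - Wp q) * (1 - pj τ))).const_add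
      (cmp τ Q 1)
  refine (hL.comp_hasDerivAt r hd).congr_deriv ?_
  rw [hL' _ hδ]
  have cD : Commute (N - Wp q) τ := (hc.sub_right (tau_W hW hτ)).symm
  have cq : ∀ x, Commute (q x) (N - Wp q) := fun x => (hN.blk x).sub_right
    ((q_mul_Wp hW.q_proj x).trans (Wp_mul_q hW.q_proj x).symm)
  have hDW : (N - Wp q) * Wp q = N - Wp q := by
    rw [sub_mul, N_W hN, (Wp_proj q).isIdempotentElem.eq]
  generalize N - Wp q = D at *
  have ci : ∀ {a : H →L[ℂ] H}, Commute a D → Commute a (Ring.inverse (1 + r • D)) :=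
    fun h => comm_inv ((Commute.one_right _).add_right (h.smul_right r))
  have c1 := ci (comm_pj cD).symm
  have c2 : Commute D (1 - pj τ) := (Commute.one_right _).sub_right (comm_pj cD)
  have c3 := ci c2.symm
  have e1 : cmp τ Q (1 + r • D) * (Ring.inverse (1 + r • D) * (1 - pj τ)) = 1 - pj τ := by
    rw [cmp, add_mul, mul_assoc (pj τ * Q), ← mul_assoc (pj τ) _ (1 - pj τ), c1.eq,
      mul_assoc _ (pj τ), pj_mul hτ.inv, mul_zero, mul_zero, zero_add,
      mul_assoc _ (1 - pj τ), ← mul_assoc (1 - pj τ) _ (1 - pj τ), c3.eq,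
      mul_assoc _ (1 - pj τ), pj_mul' hτ.inv, mul_assoc, ← mul_assoc (1 + r • D),
      Ring.mul_inverse_cancel _ hMu, one_mul, pj_mul' hτ.inv]
  have e2 : Ring.inverse (cmp τ Q (1 + r • D)) * (1 - pj τ) =
      Ring.inverse (1 + r • D) * (1 - pj τ) := by
    nth_rewrite 1 [← e1]
    rw [← mul_assoc, Ring.inverse_mul_cancel _ hxp.isUnit, one_mul]
  have e3 : Ring.inverse (cmp τ Q (1 + r • D)) * ((1 - pj τ) * D * (1 - pj τ)) =
      ((1 / 2 : ℝ) : ℂ) • (Ring.inverse (1 + r • D) * D - τ * (Ring.inverse (1 + r • D) * D)) := by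
    rw [mul_assoc, c2.eq, ← mul_assoc (1 - pj τ), pj_mul' hτ.inv, ← mul_assoc, e2, ← c3.eq,
      mul_assoc, one_sub_pj, smul_mul_assoc, sub_mul, one_mul]
    norm_num
  rw [e3, tr_smul, tr_sub, tr_tau hW hτ hE (by rw [mul_assoc, hDW])
    (fun x => (ci (cq x)).mul_right (cq x)), sub_zero]

end Ld

theorem ld_stmt (h1 : LdBasStmt) (h2 : BetheStmt) (h3 : MirrorStmt) : LdStmt := by
  intro G H I X _ _ _ _ _ π e F q P bar τ₀ τ₁ hW h0 hτ hm E hE Q hQ hEQ
  obtain ⟨N, hN, hc, hle⟩ := h2 G H I X π e F q P bar τ₀ hW h0 E hE Q hQ hEQ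
  have hge := h3 G H I X π e F q P bar τ₁ hW hτ hm E hE Q hQ hEQ N hN
  have hd : ∀ r : ℝ, 0 ≤ r → HasDerivAt (fun r : ℝ => ld e (cmp τ₁ Q (1 + r • (N - Wp q))) -
      ld e (cmp τ₀ Q (1 + r • (N - Wp q)))) 0 r := fun r hr =>
    ((Ld.hasDeriv h1 F hW hτ hE hQ hN (Ld.mirror_comm hW hτ hm hN) hr).fun_sub
      (Ld.hasDeriv h1 F hW h0 hE hQ hN hc hr)).congr_deriv (sub_self _)
  have h := constant_of_has_deriv_right_zero (a := 0) (b := 1)
    (fun r hr => (hd r hr.1).continuousAt.continuousWithinAt)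
    (fun r hr => (hd r hr.1).hasDerivWithinAt) 1 ⟨zero_le_one, le_rfl⟩
  simp only [Ld.cmp_end hW h0, Ld.cmp_end hW hτ, zero_smul, add_zero] at h
  linarith

end Pool.Agent.MP_4f4d9f_gt.Cb

end

section

/-! Schur complements in a C⋆-algebra and block sums of operators. -/

open scoped InnerProductSpace ComplexOrder

namespace Pool.Agent.MP_4f4d9f_gt.Cb.Sub

section Alg

variable {A : Type} [CStarAlgebra A]

/-- The compression of `Q` to `r`, extended by the identity. -/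
def Rr (r Q : A) : A := r * Q * r + (1 - r)

/-- The inverse of the compression. -/
noncomputable def Kk (r Q : A) : A := r * Ring.inverse (Rr r Q) * r

/-- The harmonic extension. -/
noncomputable def Zz (q r Q : A) : A := q - Kk r Q * Q * q

/-- The Schur complement. -/
noncomputable def Lx (q r Q : A) : A := q * Q * Zz q r Q

theorem r_mul_K {r : A} (hr : IsStarProjection r) (Q : A) : r * Kk r Q = Kk r Q := by
  rw [Kk, ← mul_assoc, ← mul_assoc, hr.isIdempotentElem.eq]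

theorem K_mul_r {r : A} (hr : IsStarProjection r) (Q : A) : Kk r Q * r = Kk r Q := by
  rw [Kk, mul_assoc, hr.isIdempotentElem.eq]

theorem r_mul_R {r : A} (hr : IsStarProjection r) (Q : A) : r * Rr r Q = r * Q * r := by
  rw [Rr, mul_add, hr.mul_one_sub_self, add_zero, ← mul_assoc, ← mul_assoc,
    hr.isIdempotentElem.eq]

theorem R_mul_r {r : A} (hr : IsStarProjection r) (Q : A) : Rr r Q * r = r * Q * r := by
  rw [Rr, add_mul, hr.one_sub_mul_self, add_zero, mul_assoc, hr.isIdempotentElem.eq]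

theorem K_star {r Q : A} (hr : IsStarProjection r) (hQ : star Q = Q) :
    star (Kk r Q) = Kk r Q := by
  have h : star (Rr r Q) = Rr r Q := by
    simp only [Rr, star_add, star_mul, star_sub, star_one, hr.isSelfAdjoint.star_eq, hQ, mul_assoc]
  rw [Kk, star_mul, star_mul, ← Ring.inverse_star, h, hr.isSelfAdjoint.star_eq, mul_assoc]

theorem Z_mul_q {q : A} (hq : IsStarProjection q) (r Q : A) : Zz q r Q * q = Zz q r Q := by
  rw [Zz, sub_mul, mul_assoc _ q q, hq.isIdempotentElem.eq]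

theorem L_mul_q {q : A} (hq : IsStarProjection q) (r Q : A) : Lx q r Q * q = Lx q r Q := by
  rw [Lx, mul_assoc, Z_mul_q hq]

theorem q_mul_L {q : A} (hq : IsStarProjection q) (r Q : A) : q * Lx q r Q = Lx q r Q := by
  rw [Lx, ← mul_assoc, ← mul_assoc, hq.isIdempotentElem.eq]

theorem q_mul_K {q r : A} (hqr : q * r = 0) (Q : A) : q * Kk r Q = 0 := by
  rw [Kk, ← mul_assoc, ← mul_assoc, hqr, zero_mul, zero_mul]

theorem L_one {q r : A} (hq : IsStarProjection q) (hqr : q * r = 0) : Lx q r 1 = q := by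
  rw [Lx, Zz, mul_one, mul_sub, hq.isIdempotentElem.eq, ← mul_assoc, ← mul_assoc, q_mul_K hqr,
    zero_mul, zero_mul, sub_zero]

theorem L_star {q r Q : A} (hq : IsStarProjection q) (hr : IsStarProjection r) (hQ : star Q = Q) :
    star (Lx q r Q) = Lx q r Q := by
  simp only [Lx, Zz, mul_sub, star_sub, star_mul, K_star hr hQ, hq.isSelfAdjoint.star_eq, hQ,
    mul_assoc]

theorem inv_semi {u a b : A} (ha : IsUnit a) (hb : IsUnit b) (h : u * a = b * u) :
    u * Ring.inverse a = Ring.inverse b * u := by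
  calc u * Ring.inverse a = Ring.inverse b * (b * u) * Ring.inverse a := by
        rw [Ring.inverse_mul_cancel_left _ _ hb]
    _ = Ring.inverse b * u := by
        rw [← h, mul_assoc, mul_assoc, Ring.mul_inverse_cancel _ ha, mul_one]

variable [PartialOrder A] [StarOrderedRing A]

theorem sa_of_one_le {Q : A} (hQ : 1 ≤ Q) : star Q = Q :=
  (IsSelfAdjoint.of_nonneg (zero_le_one.trans hQ)).star_eq

theorem R_unit {r Q : A} (hr : IsStarProjection r) (hQ : 1 ≤ Q) : IsUnit (Rr r Q) := by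
  have h := hr.isSelfAdjoint.conjugate_le_conjugate hQ
  rw [mul_one, hr.isIdempotentElem.eq] at h
  have h1 : 1 ≤ Rr r Q := by
    rw [Rr, ← sub_nonneg]
    convert sub_nonneg.2 h using 1
    abel
  exact CStarAlgebra.isUnit_of_le 1 h1

theorem rQK {r Q : A} (hr : IsStarProjection r) (hQ : 1 ≤ Q) : r * Q * Kk r Q = r := by
  rw [Kk, ← mul_assoc, ← mul_assoc, ← r_mul_R hr,
    Ring.mul_inverse_cancel_right _ _ (R_unit hr hQ), hr.isIdempotentElem.eq]

theorem KQr {r Q : A} (hr : IsStarProjection r) (hQ : 1 ≤ Q) : Kk r Q * Q * r = r := by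
  have h := congrArg star (rQK hr hQ)
  rwa [star_mul, star_mul, K_star hr (sa_of_one_le hQ), sa_of_one_le hQ,
    hr.isSelfAdjoint.star_eq, ← mul_assoc] at h

theorem invR_mul_r {r Q : A} (hr : IsStarProjection r) (hQ : 1 ≤ Q) :
    Ring.inverse (Rr r Q) * r = Kk r Q := by
  have h : r * Ring.inverse (Rr r Q) = Ring.inverse (Rr r Q) * r :=
    inv_semi (R_unit hr hQ) (R_unit hr hQ) (by rw [r_mul_R hr, R_mul_r hr])
  rw [Kk, h, mul_assoc, hr.isIdempotentElem.eq]

theorem rQZ {q r Q : A} (hr : IsStarProjection r) (hQ : 1 ≤ Q) : r * Q * Zz q r Q = 0 := by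
  rw [Zz, mul_sub, ← mul_assoc, ← mul_assoc, rQK hr hQ, sub_self]

theorem L_semi {u q r Q q' r' : A} (hr : IsStarProjection r) (hr' : IsStarProjection r')
    (hQ : 1 ≤ Q) (h1 : u * q = q' * u) (h2 : u * r = r' * u) (h3 : u * Q = Q * u) :
    u * Lx q r Q = Lx q' r' Q * u := by
  have e1 : SemiconjBy u q q' := h1
  have e2 : SemiconjBy u r r' := h2
  have e3 : SemiconjBy u Q Q := h3
  have e4 : SemiconjBy u (Rr r Q) (Rr r' Q) :=
    ((e2.mul_right e3).mul_right e2).add_right ((SemiconjBy.one_right u).sub_right e2)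
  have e5 : SemiconjBy u (Ring.inverse (Rr r Q)) (Ring.inverse (Rr r' Q)) :=
    inv_semi (R_unit hr hQ) (R_unit hr' hQ) e4
  have e6 : SemiconjBy u (Kk r Q) (Kk r' Q) := (e2.mul_right e5).mul_right e2
  exact (e1.mul_right e3).mul_right (e1.sub_right ((e6.mul_right e3).mul_right e1))

/-- The quadratic form at another extension. -/
theorem form_eq {q r Q : A} (hq : IsStarProjection q) (hr : IsStarProjection r) (hQ : 1 ≤ Q)
    (D : A) (hD : r * D = D) :
    star (Zz q r Q + D) * Q * (Zz q r Q + D) = Lx q r Q + star D * Q * D := by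
  have hs := sa_of_one_le hQ
  have hD' : star D * r = star D := by
    have := congrArg star hD
    rwa [star_mul, hr.isSelfAdjoint.star_eq] at this
  have h1 : star D * Q * Zz q r Q = 0 := by
    rw [← hD', mul_assoc _ r, mul_assoc, rQZ hr hQ, mul_zero]
  have h2 : star (Zz q r Q) * Q * D = 0 := by
    have := congrArg star h1
    rwa [star_mul, star_mul, star_star, hs, star_zero, ← mul_assoc] at this
  have h3 : star (Zz q r Q) * Q * Zz q r Q = Lx q r Q := by
    have h4 : star (Zz q r Q) = q - q * Q * Kk r Q * r := by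
      rw [Zz, star_sub, star_mul, star_mul, K_star hr hs, hs, hq.isSelfAdjoint.star_eq,
        mul_assoc _ _ r, K_mul_r hr, mul_assoc]
    rw [h4, sub_mul, sub_mul, mul_assoc _ r, mul_assoc _ (r * Q), rQZ hr hQ, mul_zero, sub_zero, Lx]
  rw [star_add, add_mul, add_mul, mul_add, mul_add, h1, h2, h3, add_zero, zero_add]

theorem form_self {q r Q : A} (hq : IsStarProjection q) (hr : IsStarProjection r) (hQ : 1 ≤ Q) :
    star (Zz q r Q) * Q * Zz q r Q = Lx q r Q := by
  have := form_eq hq hr hQ 0 (mul_zero r)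
  simpa using this

theorem L_le {q r Q : A} (hq : IsStarProjection q) (hr : IsStarProjection r) (hQ : 1 ≤ Q)
    (Y : A) (hY : r * (Y - q) = Y - q) : Lx q r Q ≤ star Y * Q * Y := by
  have hD : r * (Y - Zz q r Q) = Y - Zz q r Q := by
    have : Y - Zz q r Q = (Y - q) + Kk r Q * Q * q := by rw [Zz]; abel
    rw [this, mul_add, hY, ← mul_assoc, ← mul_assoc, r_mul_K hr]
  have h := form_eq hq hr hQ _ hD
  rw [add_sub_cancel] at h
  rw [h]
  exact le_add_of_nonneg_right (star_left_conjugate_nonneg (zero_le_one.trans hQ) _)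

omit [PartialOrder A] [StarOrderedRing A] in
theorem rZ {q r : A} (hr : IsStarProjection r) (Q : A) : r * (Zz q r Q - q) = Zz q r Q - q := by
  have : Zz q r Q - q = -(Kk r Q * Q * q) := by rw [Zz]; abel
  rw [this, mul_neg, ← mul_assoc, ← mul_assoc, r_mul_K hr]

theorem ZZ_le {q r Q : A} (hq : IsStarProjection q) (hr : IsStarProjection r) (hQ : 1 ≤ Q) :
    star (Zz q r Q) * Zz q r Q ≤ Lx q r Q := by
  have h := star_left_conjugate_le_conjugate hQ (Zz q r Q)
  rwa [mul_one, form_self hq hr hQ] at h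

theorem q_le_L {q r Q : A} (hq : IsStarProjection q) (hr : IsStarProjection r) (hqr : q * r = 0)
    (hQ : 1 ≤ Q) : q ≤ Lx q r Q := by
  have h := L_le hq hr (le_refl (1 : A)) (Zz q r Q) (rZ hr Q)
  rw [L_one hq hqr, mul_one] at h
  exact h.trans (ZZ_le hq hr hQ)

theorem L_le_norm {q r Q : A} (hq : IsStarProjection q) (hr : IsStarProjection r) (hQ : 1 ≤ Q) :
    Lx q r Q ≤ algebraMap ℝ A ‖Q‖ := by
  have h := L_le hq hr hQ q (by simp)
  have h1 : IsSelfAdjoint (star q * Q * q) :=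
    IsSelfAdjoint.of_nonneg (star_left_conjugate_nonneg (zero_le_one.trans hQ) _)
  refine h.trans ((CStarAlgebra.norm_le_iff_le_algebraMap _ (norm_nonneg Q)
    (star_left_conjugate_nonneg (zero_le_one.trans hQ) _)).1 ?_)
  have h2 := IsStarProjection.norm_le q hq
  calc ‖star q * Q * q‖ ≤ ‖star q‖ * ‖Q‖ * ‖q‖ := norm_mul₃_le
    _ ≤ 1 * ‖Q‖ * 1 := by
      rw [norm_star]
      gcongr
    _ = ‖Q‖ := by ring

theorem L_norm {q r Q : A} (hq : IsStarProjection q) (hr : IsStarProjection r) (hqr : q * r = 0)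
    (hQ : 1 ≤ Q) : ‖Lx q r Q‖ ≤ ‖Q‖ :=
  (CStarAlgebra.norm_le_iff_le_algebraMap _ (norm_nonneg Q)
    (hq.nonneg.trans (q_le_L hq hr hqr hQ))).2 (L_le_norm hq hr hQ)

theorem L_sub_le {q r Q Q' : A} (hq : IsStarProjection q) (hr : IsStarProjection r) (hQ : 1 ≤ Q)
    (hQ' : 1 ≤ Q') : Lx q r Q' - Lx q r Q ≤ algebraMap ℝ A (‖Q‖ * ‖Q' - Q‖) := by
  have h1 := L_le hq hr hQ' (Zz q r Q) (rZ hr Q)
  have h2 : star (Zz q r Q) * Q' * Zz q r Q =
      Lx q r Q + star (Zz q r Q) * (Q' - Q) * Zz q r Q := by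
    rw [← form_self hq hr hQ, mul_sub, sub_mul]
    abel
  have hsa : IsSelfAdjoint (Q' - Q) := by
    rw [IsSelfAdjoint, star_sub, sa_of_one_le hQ, sa_of_one_le hQ']
  have h3 : star (Zz q r Q) * (Q' - Q) * Zz q r Q ≤ ‖Q' - Q‖ • (star (Zz q r Q) * Zz q r Q) :=
    CStarAlgebra.star_left_conjugate_le_norm_smul hsa
  have h4 : ‖Q' - Q‖ • (star (Zz q r Q) * Zz q r Q) ≤ ‖Q' - Q‖ • algebraMap ℝ A ‖Q‖ :=
    smul_le_smul_of_nonneg_left ((ZZ_le hq hr hQ).trans (L_le_norm hq hr hQ)) (norm_nonneg _)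
  rw [h2] at h1
  rw [sub_le_iff_le_add', mul_comm, map_mul, ← Algebra.smul_def]
  exact h1.trans (add_le_add_right (h3.trans h4) _)

theorem norm_le_of_le {a : A} (ha : IsSelfAdjoint a) {c : ℝ} (hc : 0 ≤ c)
    (h1 : a ≤ algebraMap ℝ A c) (h2 : -a ≤ algebraMap ℝ A c) : ‖a‖ ≤ c := by
  obtain (h | _) := subsingleton_or_nontrivial A
  · simp [Subsingleton.elim a 0, hc]
  · rcases CStarAlgebra.norm_or_neg_norm_mem_spectrum ha with h | h
    · exact (le_algebraMap_iff_spectrum_le ha).1 h1 _ h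
    · have h3 : algebraMap ℝ A (-c) ≤ a := by
        rw [map_neg]
        exact neg_le.1 h2
      have := (algebraMap_le_iff_le_spectrum ha).1 h3 _ h
      linarith

theorem L_lip {q r Q Q' : A} (hq : IsStarProjection q) (hr : IsStarProjection r) (hQ : 1 ≤ Q)
    (hQ' : 1 ≤ Q') : ‖Lx q r Q - Lx q r Q'‖ ≤ max ‖Q‖ ‖Q'‖ * ‖Q - Q'‖ := by
  have hm : ∀ s t : ℝ, s ≤ t → algebraMap ℝ A s ≤ algebraMap ℝ A t := fun s t h => by
    rw [← sub_nonneg, ← map_sub, Algebra.algebraMap_eq_smul_one]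
    exact smul_nonneg (sub_nonneg.2 h) zero_le_one
  refine norm_le_of_le ?_ (by positivity) ?_ ?_
  · rw [IsSelfAdjoint, star_sub, L_star hq hr (sa_of_one_le hQ), L_star hq hr (sa_of_one_le hQ')]
  · refine (L_sub_le hq hr hQ' hQ).trans (hm _ _ ?_)
    gcongr
    exact le_max_right _ _
  · rw [neg_sub]
    refine (L_sub_le hq hr hQ hQ').trans (hm _ _ ?_)
    rw [norm_sub_rev]
    gcongr
    exact le_max_left _ _

/-- Harmonic elements are fixed by the harmonic extension. -/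
theorem L_mul_of {q r Q Y : A} (hr : IsStarProjection r) (hQ : 1 ≤ Q) (h1 : q * Y + r * Y = Y)
    (h2 : r * Q * Y = 0) : Lx q r Q * Y = q * Q * Y := by
  have h3 : Kk r Q * Q * Y = 0 := by
    rw [← K_mul_r hr, mul_assoc _ r, mul_assoc, h2, mul_zero]
  have h4 : Kk r Q * Q * (q * Y) = -(r * Y) := by
    have : q * Y = Y - r * Y := eq_sub_of_add_eq h1
    rw [this, mul_sub, h3, ← mul_assoc, KQr hr hQ, zero_sub]
  rw [Lx, mul_assoc, Zz, sub_mul, mul_assoc _ q Y, h4, sub_neg_eq_add, h1]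

end Alg

section Block

variable {H X : Type} [NormedAddCommGroup H] [InnerProductSpace ℂ H] [CompleteSpace H]
  {q : X → H →L[ℂ] H}

theorem inner_proj {p : H →L[ℂ] H} (hp : IsStarProjection p) (ξ η : H) :
    ⟪p ξ, η⟫_ℂ = ⟪ξ, p η⟫_ℂ := by
  rw [← ContinuousLinearMap.adjoint_inner_right, ← ContinuousLinearMap.star_eq_adjoint,
    hp.isSelfAdjoint.star_eq]

theorem orth_fam (h : ∀ x, IsStarProjection (q x)) (ho : ∀ x x', x ≠ x' → q x * q x' = 0) :
    OrthogonalFamily ℂ (fun x => (q x).range) fun x => (q x).range.subtypeₗᵢ := by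
  rintro x x' hne ⟨_, ξ, rfl⟩ ⟨_, η, rfl⟩
  change ⟪q x ξ, q x' η⟫_ℂ = 0
  rw [inner_proj (h x), show q x (q x' η) = (q x * q x') η from rfl, ho x x' hne]
  simp

theorem norm_sum_sq (h : ∀ x, IsStarProjection (q x)) (ho : ∀ x x', x ≠ x' → q x * q x' = 0)
    (v : X → H) (s : Finset X) : ‖∑ x ∈ s, q x (v x)‖ ^ 2 = ∑ x ∈ s, ‖q x (v x)‖ ^ 2 :=
  (orth_fam h ho).norm_sum (fun x => ⟨q x (v x), v x, rfl⟩) s

theorem bessel (h : ∀ x, IsStarProjection (q x)) (ho : ∀ x x', x ≠ x' → q x * q x' = 0)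
    (ξ : H) (s : Finset X) : ∑ x ∈ s, ‖q x ξ‖ ^ 2 ≤ ‖ξ‖ ^ 2 := by
  have h1 := norm_sum_sq h ho (fun _ => ξ) s
  have h2 : (⟪ξ, ∑ x ∈ s, q x ξ⟫_ℂ).re = ∑ x ∈ s, ‖q x ξ‖ ^ 2 := by
    rw [inner_sum, Complex.re_sum]
    refine Finset.sum_congr rfl fun x _ => ?_
    have h3 : q x ξ = q x (q x ξ) := by
      rw [show q x (q x ξ) = (q x * q x) ξ from rfl, (h x).isIdempotentElem.eq]
    have h4 : ⟪ξ, q x ξ⟫_ℂ = ⟪q x ξ, q x ξ⟫_ℂ := by rw [inner_proj (h x), ← h3]
    rw [h4, inner_self_eq_norm_sq_to_K]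
    norm_cast
  have h3 : (⟪ξ, ∑ x ∈ s, q x ξ⟫_ℂ).re ≤ ‖ξ‖ * ‖∑ x ∈ s, q x ξ‖ :=
    (Complex.re_le_norm _).trans (norm_inner_le_norm _ _)
  rw [h2, ← h1] at h3
  rw [← h1]
  nlinarith [norm_nonneg ξ, norm_nonneg (∑ x ∈ s, q x ξ), sq_nonneg (‖ξ‖ - ‖∑ x ∈ s, q x ξ‖)]

/-- Block sums of uniformly bounded families. -/
theorem block_sum (h : ∀ x, IsStarProjection (q x)) (ho : ∀ x x', x ≠ x' → q x * q x' = 0)
    (B : X → H →L[ℂ] H) {C : ℝ} (hC : 0 ≤ C) (hB : ∀ x, ‖B x‖ ≤ C) :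
    ∃ M : H →L[ℂ] H, ‖M‖ ≤ C ∧ ∀ ξ, HasSum (fun x => q x (B x (q x ξ))) (M ξ) := by
  have hb : ∀ ξ (s : Finset X), ∑ x ∈ s, ‖q x (B x (q x ξ))‖ ^ 2 ≤ (C * ‖ξ‖) ^ 2 := by
    intro ξ s
    have h1 : ∀ x, ‖q x (B x (q x ξ))‖ ^ 2 ≤ C ^ 2 * ‖q x ξ‖ ^ 2 := fun x => by
      rw [← mul_pow]
      refine pow_le_pow_left₀ (norm_nonneg _) ?_ 2
      calc ‖q x (B x (q x ξ))‖ ≤ 1 * ‖B x (q x ξ)‖ :=
            (q x).le_of_opNorm_le (IsStarProjection.norm_le _ (h x)) _
        _ ≤ C * ‖q x ξ‖ := by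
          rw [one_mul]
          exact (B x).le_of_opNorm_le (hB x) _
    refine (Finset.sum_le_sum fun x _ => h1 x).trans ?_
    rw [← Finset.mul_sum, mul_pow]
    exact mul_le_mul_of_nonneg_left (bessel h ho ξ s) (sq_nonneg C)
  have hs : ∀ ξ, Summable fun x => q x (B x (q x ξ)) := fun ξ =>
    ((orth_fam h ho).summable_iff_norm_sq_summable
      (fun x => ⟨q x (B x (q x ξ)), B x (q x ξ), rfl⟩)).2
      (summable_of_sum_le (fun x => sq_nonneg _) (hb ξ))
  let L : H →ₗ[ℂ] H :=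
    { toFun := fun ξ => ∑' x, q x (B x (q x ξ))
      map_add' := fun ξ η => by
        simp only [map_add]
        exact (hs ξ).tsum_add (hs η)
      map_smul' := fun c ξ => by
        simp only [map_smul, RingHom.id_apply]
        exact (hs ξ).tsum_const_smul c }
  have hL : ∀ ξ, ‖L ξ‖ ≤ C * ‖ξ‖ := fun ξ => by
    refine le_of_tendsto' (hs ξ).hasSum.norm fun s => ?_
    refine (sq_le_sq₀ (norm_nonneg _) (by positivity)).1 ?_
    rw [norm_sum_sq h ho]
    exact hb ξ s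
  exact ⟨L.mkContinuous C hL, L.mkContinuous_norm_le hC hL, fun ξ => (hs ξ).hasSum⟩

theorem q_mul_out (h : ∀ x, IsStarProjection (q x)) (x : X) : q x * (1 - Wp q) = 0 := by
  rw [mul_sub, mul_one, q_mul_Wp h, sub_self]

theorem out_mul_q (h : ∀ x, IsStarProjection (q x)) (x : X) : (1 - Wp q) * q x = 0 := by
  rw [sub_mul, one_mul, Wp_mul_q h, sub_self]

/-- Block sums, characterised by their restrictions. -/
theorem block (h : ∀ x, IsStarProjection (q x)) (ho : ∀ x x', x ≠ x' → q x * q x' = 0)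
    (B : X → H →L[ℂ] H) {C : ℝ} (hC : 0 ≤ C) (hB : ∀ x, ‖B x‖ ≤ C) :
    ∃ M : H →L[ℂ] H, ‖M‖ ≤ C ∧ (∀ x, M * q x = q x * B x * q x) ∧ M * (1 - Wp q) = 0 ∧
      ((∀ x, 0 ≤ B x) → 0 ≤ M) := by
  obtain ⟨M, hM, hs⟩ := block_sum h ho B hC hB
  refine ⟨M, hM, fun x => ?_, ?_, fun hp => ?_⟩
  · ext ξ
    have h1 := hs (q x ξ)
    have h2 : HasSum (fun y => q y (B y (q y (q x ξ)))) (q x (B x (q x (q x ξ)))) := by
      refine hasSum_single x fun y hy => ?_
      rw [show q y (q x ξ) = (q y * q x) ξ from rfl, ho y x hy]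
      simp
    have h3 := h1.unique h2
    rw [show q x (q x ξ) = (q x * q x) ξ from rfl, (h x).isIdempotentElem.eq] at h3
    exact h3
  · ext ξ
    have h1 := hs ((1 - Wp q) ξ)
    have h2 : (fun y => q y (B y (q y ((1 - Wp q) ξ)))) = fun _ => 0 := by
      funext y
      rw [show q y ((1 - Wp q) ξ) = (q y * (1 - Wp q)) ξ from rfl, q_mul_out h]
      simp
    rw [h2] at h1
    exact h1.unique hasSum_zero
  · rw [ContinuousLinearMap.nonneg_iff_isPositive, ContinuousLinearMap.isPositive_iff_complex]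
    intro ξ
    have h1 : HasSum (fun x => ⟪q x (B x (q x ξ)), ξ⟫_ℂ) ⟪M ξ, ξ⟫_ℂ := by
      have := ((innerSL ℂ ξ).hasSum (hs ξ)).star
      simpa only [innerSL_apply_apply, ← starRingEnd_apply, inner_conj_symm] using this
    have h2 : 0 ≤ ⟪M ξ, ξ⟫_ℂ := by
      refine h1.nonneg fun x => ?_
      rw [inner_proj (h x)]
      exact ((ContinuousLinearMap.nonneg_iff_isPositive _).1 (hp x)).inner_nonneg_left _
    obtain ⟨h3, h4⟩ := Complex.nonneg_iff.1 h2
    refine ⟨?_, h3⟩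
    apply Complex.ext
    · simp
    · simpa using h4

/-- The left version of `wall_ext`. -/
theorem wall_ext_left {S T : H →L[ℂ] H} (h1 : ∀ x, q x * S = q x * T)
    (h2 : (1 - Wp q) * S = (1 - Wp q) * T) : S = T := by
  have h3 : Wp q * (S - T) = 0 := by
    ext ξ
    refine Wp_eq_zero.2 fun x => ?_
    have : q x * (S - T) = 0 := by rw [mul_sub, h1, sub_self]
    exact congrArg (fun U : H →L[ℂ] H => U ξ) this
  rw [← sub_eq_zero, ← one_mul (S - T), ← sub_add_cancel 1 (Wp q), add_mul, h3, add_zero, mul_sub,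
    h2, sub_self]

theorem Wp_mul_eq_zero {S : H →L[ℂ] H} (h1 : ∀ x, q x * S = 0) : Wp q * S = 0 := by
  ext ξ
  exact Wp_eq_zero.2 fun x => congrArg (fun U : H →L[ℂ] H => U ξ) (h1 x)

end Block

end Pool.Agent.MP_4f4d9f_gt.Cb.Sub

end

section

/-! Dirichlet-to-Neumann operators. -/

namespace Pool.Agent.MP_4f4d9f_gt.Cb

namespace Sub

variable {G H X : Type} [Group G] [NormedAddCommGroup H] [InnerProductSpace ℂ H] [CompleteSpace H]
  {π : G →* (H →L[ℂ] H)} {q P : X → H →L[ℂ] H} {bar : X → X} {τ Q M : H →L[ℂ] H}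

omit [CompleteSpace H] in
theorem pj_add (τ : H →L[ℂ] H) : pj τ + pj τ = 1 + τ := by
  rw [pj, ← add_smul]
  norm_num

omit [CompleteSpace H] in
theorem tau_pj (h : τ * τ = 1) : τ * pj τ = pj τ := by
  rw [pj, mul_smul_comm, mul_add, mul_one, h, add_comm]

theorem pj_proj (hs : star τ = τ) (h : τ * τ = 1) : IsStarProjection (pj τ) where
  isIdempotentElem := by
    have h1 : pj τ * pj τ = (1 / 2 : ℂ) • ((1 + τ) * pj τ) := by
      rw [← smul_mul_assoc]
      rfl
    rw [IsIdempotentElem, h1, add_mul, one_mul, tau_pj h, pj_add]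
    rfl
  isSelfAdjoint := by
    rw [IsSelfAdjoint, pj, star_smul, star_add, star_one, hs]
    simp

omit [CompleteSpace H] in
theorem comm_pj {S : H →L[ℂ] H} (h : Commute τ S) : Commute (pj τ) S :=
  ((Commute.one_left S).add_left h).smul_left _

/-- The projection onto the symmetric vectors on the side, away from the half wall. -/
noncomputable def rx (τ : H →L[ℂ] H) (q P : X → H →L[ℂ] H) (x : X) : H →L[ℂ] H :=
  pj τ * (P x - q x)

theorem q_P (W : Walls π q P bar) (x : X) : q x * P x = q x := by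
  have := congrArg star (W.P_q x)
  rwa [star_mul, (W.q_proj x).isSelfAdjoint.star_eq, (W.P_proj x).isSelfAdjoint.star_eq] at this

theorem rx_proj (W : Walls π q P bar) (T : Glue π q P bar τ) (x : X) :
    IsStarProjection (rx τ q P x) :=
  (pj_proj T.sa T.inv).mul ((W.q_proj x).sub_of_mul_eq_right (W.P_proj x) (W.P_q x))
    (comm_pj (T.side x))

theorem rx_eq (T : Glue π q P bar τ) (x : X) : rx τ q P x = (P x - q x) * pj τ :=
  (comm_pj (T.side x)).eq

theorem q_rx (W : Walls π q P bar) (T : Glue π q P bar τ) (x : X) : q x * rx τ q P x = 0 := by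
  rw [rx_eq T, ← mul_assoc, mul_sub, q_P W, (W.q_proj x).isIdempotentElem.eq, sub_self, zero_mul]

theorem grn_eq (T : Glue π q P bar τ) (hQ : 1 ≤ Q) : grn τ Q = Kk (pj τ) Q := by
  have hp := pj_proj T.sa T.inv
  rw [← invR_mul_r hp hQ, grn, cmp, Rr, mul_one, hp.one_sub.isIdempotentElem.eq]

theorem tau_grn (T : Glue π q P bar τ) (hQ : 1 ≤ Q) : τ * grn τ Q = grn τ Q := by
  rw [grn_eq T hQ, ← r_mul_K (pj_proj T.sa T.inv), ← mul_assoc, tau_pj T.inv]

theorem Q_grn (T : Glue π q P bar τ) (hQ : 1 ≤ Q) : (1 + τ) * Q * grn τ Q = 1 + τ := by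
  rw [grn_eq T hQ, ← pj_add, add_mul, add_mul, rQK (pj_proj T.sa T.inv) hQ]

theorem q_tau (W : Walls π q P bar) (T : Glue π q P bar τ) (x : X) :
    q x * τ = τ * q (bar x) := by
  rw [T.tq, W.bar_bar]

/-- The Green operator on a side without sources. -/
theorem key (W : Walls π q P bar) (T : Glue π q P bar τ) (hQ : Adm π P Q) (y : X)
    (S : H →L[ℂ] H) (hS : (P y - q y) * S = 0) :
    Lx (q y) (rx τ q P y) Q * grn τ Q * S = q y * Q * grn τ Q * S := by
  have hp := pj_proj T.sa T.inv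
  have hP : (P y - q y) * P y = P y - q y := by
    rw [sub_mul, (W.P_proj y).isIdempotentElem.eq, q_P W]
  have hrP : rx τ q P y * P y = rx τ q P y := by rw [rx, mul_assoc, hP]
  have hg := grn_eq T hQ.one_le
  have h1 : q y * (P y * (grn τ Q * S)) + rx τ q P y * (P y * (grn τ Q * S)) =
      P y * (grn τ Q * S) := by
    rw [← mul_assoc, ← mul_assoc (rx τ q P y), q_P W, hrP, rx_eq T, mul_assoc _ (pj τ),
      ← mul_assoc (pj τ), hg, r_mul_K hp, ← add_mul, add_sub_cancel]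
  have h2 : rx τ q P y * Q * (P y * (grn τ Q * S)) = 0 := by
    calc rx τ q P y * Q * (P y * (grn τ Q * S))
        = rx τ q P y * (Q * P y) * (grn τ Q * S) := by simp only [mul_assoc]
      _ = (P y - q y) * (pj τ * Q * Kk (pj τ) Q) * S := by
        rw [← (hQ.side y).eq, ← mul_assoc (rx τ q P y), hrP, rx_eq T, hg]
        simp only [mul_assoc]
      _ = 0 := by rw [rQK hp hQ.one_le, ← rx_eq T, rx, mul_assoc, hS, mul_zero]
  have h3 := L_mul_of (rx_proj W T y) hQ.one_le h1 h2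
  rw [← L_mul_q (W.q_proj y), mul_assoc _ (q y), ← mul_assoc (q y), q_P W, ← mul_assoc,
    L_mul_q (W.q_proj y), ← mul_assoc (q y * Q), mul_assoc (q y) Q, ← (hQ.side y).eq,
    ← mul_assoc (q y), q_P W] at h3
  rw [mul_assoc, h3, mul_assoc (q y * Q)]

/-- The defining property of the Dirichlet-to-Neumann operator. -/
def IsDN (τ : H →L[ℂ] H) (q P : X → H →L[ℂ] H) (Q M : H →L[ℂ] H) : Prop :=
  (∀ x, M * q x = Lx (q x) (rx τ q P x) Q) ∧ M * (1 - Wp q) = 0

theorem exists_DN (W : Walls π q P bar) (T : Glue π q P bar τ) (hQ : 1 ≤ Q) :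
    ∃ M, IsDN τ q P Q M := by
  obtain ⟨M, -, h1, h2, -⟩ := block W.q_proj W.q_orth (fun x => Lx (q x) (rx τ q P x) Q)
    (norm_nonneg Q) fun x => L_norm (W.q_proj x) (rx_proj W T x) (q_rx W T x) hQ
  exact ⟨M, fun x => by rw [h1, q_mul_L (W.q_proj x), L_mul_q (W.q_proj x)], h2⟩

theorem IsDN.q_mul (W : Walls π q P bar) (h : IsDN τ q P Q M) (x : X) :
    q x * M = Lx (q x) (rx τ q P x) Q := by
  refine wall_ext W.q_proj (fun y => ?_) ?_
  · rw [mul_assoc, h.1]
    by_cases hxy : x = y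
    · subst hxy
      rw [q_mul_L (W.q_proj x), L_mul_q (W.q_proj x)]
    · rw [← q_mul_L (W.q_proj y), ← mul_assoc, W.q_orth x y hxy, zero_mul,
        ← L_mul_q (W.q_proj x), mul_assoc, W.q_orth x y hxy, mul_zero]
  · rw [mul_assoc, h.2, mul_zero, ← L_mul_q (W.q_proj x), mul_assoc, q_mul_out W.q_proj, mul_zero]

theorem IsDN.out (W : Walls π q P bar) (h : IsDN τ q P Q M) : Wp q * M = M := by
  refine wall_ext W.q_proj (fun y => ?_) ?_
  · rw [mul_assoc, h.1, ← q_mul_L (W.q_proj y), ← mul_assoc, Wp_mul_q W.q_proj]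
  · rw [mul_assoc, h.2, mul_zero]

theorem IsDN.le (W : Walls π q P bar) (T : Glue π q P bar τ) (hQ : 1 ≤ Q) (h : IsDN τ q P Q M) :
    Wp q ≤ M := by
  obtain ⟨N, -, h1, h2, h3⟩ := block W.q_proj W.q_orth (fun x => Lx (q x) (rx τ q P x) Q - q x)
    (C := ‖Q‖ + 1) (by positivity) fun x => (norm_sub_le _ _).trans
      (add_le_add (L_norm (W.q_proj x) (rx_proj W T x) (q_rx W T x) hQ)
        (IsStarProjection.norm_le _ (W.q_proj x)))
  have h4 : N = M - Wp q := by
    refine wall_ext W.q_proj (fun y => ?_) ?_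
    · rw [h1, mul_sub, sub_mul, sub_mul, q_mul_L (W.q_proj y), L_mul_q (W.q_proj y), h.1,
        Wp_mul_q W.q_proj, (W.q_proj y).isIdempotentElem.eq, (W.q_proj y).isIdempotentElem.eq]
    · rw [h2, sub_mul, h.2, (Wp_proj q).mul_one_sub_self, sub_self]
  rw [← sub_nonneg, ← h4]
  exact h3 fun x => sub_nonneg.2 (q_le_L (W.q_proj x) (rx_proj W T x) (q_rx W T x) hQ)

theorem IsDN.lip (W : Walls π q P bar) (T : Glue π q P bar τ) {Q' M' : H →L[ℂ] H} (hQ : 1 ≤ Q)
    (hQ' : 1 ≤ Q') (h : IsDN τ q P Q M) (h' : IsDN τ q P Q' M') :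
    ‖M - M'‖ ≤ max ‖Q‖ ‖Q'‖ * ‖Q - Q'‖ := by
  obtain ⟨N, h0, h1, h2, -⟩ := block W.q_proj W.q_orth
    (fun x => Lx (q x) (rx τ q P x) Q - Lx (q x) (rx τ q P x) Q')
    (C := max ‖Q‖ ‖Q'‖ * ‖Q - Q'‖) (by positivity)
    fun x => L_lip (W.q_proj x) (rx_proj W T x) hQ hQ'
  have h4 : N = M - M' := by
    refine wall_ext W.q_proj (fun y => ?_) ?_
    · rw [h1, mul_sub, sub_mul, sub_mul, q_mul_L (W.q_proj y), L_mul_q (W.q_proj y), h.1,
        q_mul_L (W.q_proj y), L_mul_q (W.q_proj y), h'.1]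
    · rw [h2, sub_mul, h.2, h'.2, sub_self]
  rwa [← h4]

theorem IsDN.one (W : Walls π q P bar) (T : Glue π q P bar τ) (h : IsDN τ q P 1 M) :
    M = Wp q := by
  refine wall_ext W.q_proj (fun y => ?_) ?_
  · rw [h.1, L_one (W.q_proj y) (q_rx W T y), Wp_mul_q W.q_proj]
  · rw [h.2, (Wp_proj q).mul_one_sub_self]

theorem IsDN.cm (hπ : ∀ g, star (π g) = π g⁻¹) (W : Walls π q P bar) (T : Glue π q P bar τ)
    (hQ : Adm π P Q) (h : IsDN τ q P Q M) : Cm π M := by
  intro g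
  refine wall_ext W.q_proj (fun x => ?_) ?_
  · obtain ⟨x', h1, h2⟩ := W.eqv g x
    have h3 : π g * rx τ q P x = rx τ q P x' * π g := by
      rw [rx, rx, ← mul_assoc, ← (comm_pj (T.cm g).symm).eq, mul_assoc, mul_sub, h1, h2, ← sub_mul,
        mul_assoc]
    rw [mul_assoc, h.1, mul_assoc, h1, ← mul_assoc, h.1]
    exact L_semi (rx_proj W T x) (rx_proj W T x') hQ.one_le h1 h3 (hQ.cm g).eq
  · have h1 : Wp q * (π g * (1 - Wp q)) = 0 := by
      refine Wp_mul_eq_zero fun x => ?_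
      obtain ⟨x', h2, -⟩ := W.eqv g⁻¹ x
      have h3 := congrArg star h2
      rw [star_mul, star_mul, hπ, inv_inv, (W.q_proj x).isSelfAdjoint.star_eq,
        (W.q_proj x').isSelfAdjoint.star_eq] at h3
      rw [← mul_assoc, h3, mul_assoc, q_mul_out W.q_proj, mul_zero]
    have h2 : π g * (1 - Wp q) = (1 - Wp q) * (π g * (1 - Wp q)) := by
      rw [sub_mul, one_mul, h1, sub_zero]
    rw [mul_assoc, h.2, mul_zero, mul_assoc, h2, ← mul_assoc, h.2, zero_mul]

theorem IsDN.wd (hπ : ∀ g, star (π g) = π g⁻¹) (W : Walls π q P bar) (T : Glue π q P bar τ)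
    (hQ : Adm π P Q) (h : IsDN τ q P Q M) : WD π q M where
  le := h.le W T hQ.one_le
  cm := h.cm hπ W T hQ
  blk := fun x => by rw [commute_iff_eq, h.q_mul W, h.1]
  out := h.out W

theorem IsDN.key (W : Walls π q P bar) (T : Glue π q P bar τ) (hQ : Adm π P Q)
    (h : IsDN τ q P Q M) (x : X) (S : H →L[ℂ] H) (hS : (P (bar x) - q (bar x)) * S = 0) :
    τ * M * τ * (q x * (grn τ Q * S)) = q x * τ * (Q * (grn τ Q * S)) := by
  have h1 := Sub.key W T hQ (bar x) S hS
  calc τ * M * τ * (q x * (grn τ Q * S))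
      = τ * (M * (τ * q x) * grn τ Q * S) := by simp only [mul_assoc]
    _ = τ * (M * q (bar x) * (τ * grn τ Q) * S) := by rw [T.tq]; simp only [mul_assoc]
    _ = τ * (q (bar x) * Q * grn τ Q * S) := by rw [tau_grn T hQ.one_le, h.1, h1]
    _ = q x * τ * (Q * (grn τ Q * S)) := by rw [q_tau W T]; simp only [mul_assoc]

theorem sum_eq (T : Glue π q P bar τ) (hQ : 1 ≤ Q) (a S : H →L[ℂ] H) :
    a * (Q * (grn τ Q * S)) + a * τ * (Q * (grn τ Q * S)) = a * S + a * τ * S := by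
  calc a * (Q * (grn τ Q * S)) + a * τ * (Q * (grn τ Q * S))
      = a * ((1 + τ) * Q * grn τ Q) * S := by simp only [add_mul, mul_add, one_mul, mul_assoc]
    _ = a * S + a * τ * S := by rw [Q_grn T hQ, mul_add, mul_one, add_mul]

theorem IsDN.wall (W : Walls π q P bar) (T : Glue π q P bar τ) (hQ : Adm π P Q)
    (h : IsDN τ q P Q M) (x : X) : (M + τ * M * τ) * (q x * (grn τ Q * q x)) = q x := by
  have h1 : (P x - q x) * q x = 0 := by
    rw [sub_mul, W.P_q, (W.q_proj x).isIdempotentElem.eq, sub_self]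
  have h2 : (P (bar x) - q (bar x)) * q x = 0 := by
    have := W.P_bar (bar x)
    rw [W.bar_bar] at this
    rw [sub_mul, this, W.q_orth _ _ (W.bar_ne x), sub_self]
  have h3 : M * (q x * (grn τ Q * q x)) = q x * (Q * (grn τ Q * q x)) := by
    have := Sub.key W T hQ x (q x) h1
    rw [← h.1] at this
    simpa only [mul_assoc] using this
  rw [add_mul, h3, h.key W T hQ x _ h2, sum_eq T hQ.one_le, (W.q_proj x).isIdempotentElem.eq,
    q_tau W T, mul_assoc, W.q_orth _ _ (W.bar_ne x), mul_zero, add_zero]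

theorem IsDN.piece (W : Walls π q P bar) (T : Glue π q P bar τ) (hQ : Adm π P Q)
    (h : IsDN τ q P Q M) {E : H →L[ℂ] H} (hE : Piece q P bar E) (hEQ : Commute E Q) :
    (Q + τ * M * τ) * (E * (grn τ Q * E)) = E := by
  have hst : ∀ x, q x * E = star (E * q x) := fun x => by
    rw [star_mul, (W.q_proj x).isSelfAdjoint.star_eq, hE.proj.isSelfAdjoint.star_eq]
  have hc : ∀ x, q x * E = E * q x := fun x => by
    rcases hE.or x with h1 | h1
    · rw [hst, h1.1, (W.q_proj x).isSelfAdjoint.star_eq]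
    · rw [hst, h1, star_zero]
  have hqM : ∀ x, q x * (τ * M * τ) = τ * M * τ * q x := fun x => by
    calc q x * (τ * M * τ) = q x * τ * M * τ := by simp only [mul_assoc]
      _ = τ * (q (bar x) * M) * τ := by rw [q_tau W T, mul_assoc τ]
      _ = τ * M * (q (bar x) * τ) := by rw [h.q_mul W, ← h.1]; simp only [mul_assoc]
      _ = τ * M * τ * q x := by rw [← T.tq, ← mul_assoc]
  have hsplit : ∀ a : H →L[ℂ] H, a * ((Q + τ * M * τ) * (E * (grn τ Q * E))) =
      a * E * (Q * (grn τ Q * E)) + a * (τ * M * τ) * (E * (grn τ Q * E)) := fun a => by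
    rw [add_mul, mul_add, ← mul_assoc Q, ← hEQ.eq]
    simp only [mul_assoc]
  refine wall_ext_left (q := q) (fun x => ?_) ?_
  · rw [hsplit, hqM, mul_assoc _ (q x), ← mul_assoc (q x) E]
    rcases hE.or x with h1 | h1
    · have h2 : q (bar x) * E = 0 := by rw [← q_P W, mul_assoc, h1.2, mul_zero]
      have h3 : (P (bar x) - q (bar x)) * E = 0 := by rw [sub_mul, h1.2, h2, sub_self]
      have h4 : q x * E = q x := by rw [hc, h1.1]
      rw [h4, h.key W T hQ x _ h3, sum_eq T hQ.one_le, q_tau W T, mul_assoc τ, h2, mul_zero,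
        add_zero, h4]
    · rw [hc, h1]
      simp
  · have h1 : τ * (1 - Wp q) = 1 - Wp q := by
      ext ξ
      exact T.int _ fun x => congrArg (fun U : H →L[ℂ] H => U ξ) (q_mul_out W.q_proj x)
    have h2 : (1 - Wp q) * τ = 1 - Wp q := by
      have := congrArg star h1
      rwa [star_mul, T.sa, (Wp_proj q).one_sub.isSelfAdjoint.star_eq] at this
    have h3 : (1 - Wp q) * M = 0 := by rw [sub_mul, one_mul, h.out W, sub_self]
    have h4 : Wp q * E = E * Wp q := by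
      refine wall_ext W.q_proj (fun x => ?_) ?_
      · rw [mul_assoc, ← hc, ← mul_assoc, Wp_mul_q W.q_proj, mul_assoc, Wp_mul_q W.q_proj, hc]
      · rw [mul_assoc E, (Wp_proj q).mul_one_sub_self, mul_zero, mul_assoc]
        refine Wp_mul_eq_zero fun x => ?_
        rw [← mul_assoc, hc, mul_assoc, q_mul_out W.q_proj, mul_zero]
    have h5 : (1 - Wp q) * E = E * (1 - Wp q) := by
      rw [sub_mul, mul_sub, h4, one_mul, mul_one]
    have h6 := sum_eq T hQ.one_le (1 - Wp q) E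
    rw [h2, ← two_smul ℂ, ← two_smul ℂ] at h6
    have h7 := smul_right_injective (H →L[ℂ] H) (two_ne_zero (α := ℂ)) h6
    rw [hsplit, ← mul_assoc (1 - Wp q), ← mul_assoc (1 - Wp q), h2, h3, zero_mul, zero_mul,
      add_zero, h5, mul_assoc, h7, h5, ← mul_assoc, hE.proj.isIdempotentElem.eq]

end Sub

theorem sub_stmt : SubStmt := by
  intro G H X _ _ _ _ π hπ q P bar τ W T
  have hex : ∀ Q : H →L[ℂ] H, ∃ M, 1 ≤ Q → Sub.IsDN τ q P Q M := fun Q => by
    by_cases hQ : 1 ≤ Q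
    · obtain ⟨M, hM⟩ := Sub.exists_DN W T hQ
      exact ⟨M, fun _ => hM⟩
    · exact ⟨0, fun h => absurd h hQ⟩
  choose Λ hΛ using hex
  refine ⟨Λ, (hΛ 1 le_rfl).one W T, fun Q hQ => ⟨(hΛ Q hQ.one_le).wd hπ W T hQ, ?_, ?_⟩,
    fun Q Q' hQ hQ' => (hΛ Q hQ.one_le).lip W T hQ.one_le hQ'.one_le (hΛ Q' hQ'.one_le)⟩
  · intro x ξ hξ
    have h := congrArg (fun U : H →L[ℂ] H => U ξ) ((hΛ Q hQ.one_le).wall W T hQ x)
    simp only [mul_apply_eq_comp, hξ] at h
    exact h
  · intro E hE hEQ ξ hξ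
    have h := congrArg (fun U : H →L[ℂ] H => U ξ) ((hΛ Q hQ.one_le).piece W T hQ hE hEQ)
    simp only [mul_apply_eq_comp, hξ] at h
    exact h

end Pool.Agent.MP_4f4d9f_gt.Cb

end
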