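import Mathlib

set_option linter.all false

section

/-! Interface, part A: Dirichlet functions on a group, harmonic projection, points at infinity. -/

namespace Pool.Agent.MP_4f4d9f_gt.Hy

open Filter Topology

variable {G : Type} [Group G]

/-- A finite symmetric generating set containing `1`. -/
structure Gen (S : Finset G) : Prop where
  one : (1 : G) ∈ S
  inv : ∀ s ∈ S, s⁻¹ ∈ S
  gen : Subgroup.closure (S : Set G) = ⊤

/-- Square summable. -/
def Sq (f : G → ℝ) : Prop := Summable fun x => f x ^ 2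

/-- Finite energy. -/
def Dir (S : Finset G) (f : G → ℝ) : Prop := ∀ s ∈ S, Sq fun x => f (x * s) - f x

/-- Harmonic. -/
def Harm (S : Finset G) (f : G → ℝ) : Prop := ∀ x, ∑ s ∈ S, f (x * s) = S.card * f x

/-- The energy. -/
noncomputable def En (S : Finset G) (f : G → ℝ) : ℝ := ∑ s ∈ S, ∑' x, (f (x * s) - f x) ^ 2

/-- Spectral gap. -/
def SG (S : Finset G) (C : ℝ) : Prop := ∀ φ : G → ℝ, Sq φ → ∑' x, φ x ^ 2 ≤ C * En S φ

/-- The Laplace equation is solvable in `ℓ²`. -/
def Sol (S : Finset G) : Prop :=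
  ∀ a : G → ℝ, Sq a → ∃ V : G → ℝ, Sq V ∧ ∀ x, S.card * V x - ∑ s ∈ S, V (x * s) = a x

/-- The size of the gradient. -/
noncomputable def DD (S : Finset G) (f : G → ℝ) (x : G) : ℝ := ∑ s ∈ S, |f (x * s) - f x|

/-- Values in the unit interval. -/
def I01 (f : G → ℝ) : Prop := ∀ x, 0 ≤ f x ∧ f x ≤ 1

/-- The retraction onto the unit interval. -/
def clamp (r : ℝ) : ℝ := max 0 (min 1 r)

open Classical in
/-- The harmonic part. -/
noncomputable def Hm (S : Finset G) (f : G → ℝ) : G → ℝ :=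
  if h : ∃ v, Harm S v ∧ Sq (f - v) then h.choose else 0

/-- `x` and `y` are joined by a path inside `A`. -/
def Conn (S : Finset G) (A : Set G) (x y : G) : Prop :=
  x ∈ A ∧ Relation.ReflTransGen (fun a b => b ∈ A ∧ a⁻¹ * b ∈ S) x y

/-- Edges. -/
def Edge (S : Finset G) (e : G × G) : Prop := e.1⁻¹ * e.2 ∈ S

/-- Triangles. -/
def Tri (S : Finset G) (t : G × G × G) : Prop :=
  t.1⁻¹ * t.2.1 ∈ S ∧ t.1⁻¹ * t.2.2 ∈ S ∧ t.2.1⁻¹ * t.2.2 ∈ S

/-- The coboundary of a `0`-cochain. -/
def d0 (F : G → ZMod 2) (e : G × G) : ZMod 2 := F e.1 + F e.2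

/-- The coboundary of a `1`-cochain. -/
def d1 (w : G × G → ZMod 2) (t : G × G × G) : ZMod 2 :=
  w (t.2.1, t.2.2) + w (t.1, t.2.2) + w (t.1, t.2.1)

/-- The edges in the support. -/
def sp1 (S : Finset G) (w : G × G → ZMod 2) : Set (G × G) := {e | Edge S e ∧ w e ≠ 0}

/-- The triangles in the support. -/
def sp2 (S : Finset G) (ζ : G × G × G → ZMod 2) : Set (G × G × G) := {t | Tri S t ∧ ζ t ≠ 0}

/-- The cohomological hypotheses. -/
structure Coh (S : Finset G) (C : ℕ) : Prop where
  c0 : ∀ w : G × G → ZMod 2, (∀ t, Tri S t → d1 w t = 0) → ∃ F, ∀ e, Edge S e → w e = d0 F e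
  c1 : ∀ F : G → ZMod 2, (sp1 S (d0 F)).Finite → {x | F x ≠ 0}.Finite ∨ {x | F x ≠ 1}.Finite
  c2 : ∀ w : G × G → ZMod 2, (sp2 S (d1 w)).Finite → ∃ c : G × G → ZMod 2, (sp1 S c).Finite ∧
    (∀ t, Tri S t → d1 c t = d1 w t) ∧ (sp1 S c).ncard ^ 2 ≤ C * (sp2 S (d1 w)).ncard ^ 3

/-- A point at infinity: a ray along which all translates of `u` converge. -/
structure Pt (S : Finset G) (u : G → ℝ) where
  /-- the ray -/
  z : ℕ → G
  step : ∀ n, (z n)⁻¹ * z (n + 1) ∈ S
  esc : Tendsto z atTop cofinite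
  /-- the limits -/
  val : G → ℝ
  conv : ∀ g, Tendsto (fun n => u (g * z n)) atTop (𝓝 (val g))

/-- Rays along which a Dirichlet function stays near the supremum of its harmonic part. -/
def Ray (S : Finset G) (u : G → ℝ) : Prop :=
  ∀ ψ : G → ℝ, Dir S ψ → ∀ (x : G) (ε : ℝ), 0 < ε → ∃ m : Pt S u, ∀ n, Hm S ψ x - ε ≤ ψ (m.z n)

/-- The conclusion of the normalisation lemma. -/
def LemN (S : Finset G) : Prop :=
  ∀ v : G → ℝ, Dir S v → I01 v → ∃ W : Finset G, ∀ F : G → ZMod 2,
    {e | Edge S e ∧ F e.1 ≠ F e.2 ∧ v e.1 ≠ 0 ∧ v e.2 ≠ 0}.Finite →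
    ∃ F' : G → ZMod 2, {x | F x ≠ F' x}.Finite ∧
      ∀ x, (∀ w ∈ W, v (x * w) = 1) → ∀ s ∈ S, F' (x * s) = F' x

/-- Harmonic Dirichlet functions are constant. -/
def Liou (S : Finset G) : Prop := ∀ u : G → ℝ, Dir S u → Harm S u → ∀ x y, u x = u y

/-! ### Square summable functions -/

section Sq

variable {f g : G → ℝ}

omit [Group G] in
theorem Sq.of_le (hg : Sq g) (h : ∀ x, |f x| ≤ |g x|) : Sq f :=
  Summable.of_nonneg_of_le (fun _ => sq_nonneg _) (fun x => sq_le_sq.2 (h x)) hg

omit [Group G] in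
theorem Sq.of_eventually_le (hg : Sq g) (h : ∀ᶠ x in cofinite, |f x| ≤ |g x|) : Sq f :=
  Summable.of_norm_bounded_eventually hg (h.mono fun x hx => by
    rw [Real.norm_of_nonneg (sq_nonneg _)]
    exact sq_le_sq.2 hx)

omit [Group G] in
theorem sq_zero : Sq (fun _ : G => (0 : ℝ)) := by simpa [Sq] using summable_zero

omit [Group G] in
theorem sq_of_finite (h : {x | f x ≠ 0}.Finite) : Sq f :=
  sq_zero.of_eventually_le (by
    rw [eventually_cofinite]
    exact h.subset fun x hx e => hx (by simp [e]))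

omit [Group G] in
theorem Sq.add (hf : Sq f) (hg : Sq g) : Sq fun x => f x + g x :=
  Summable.of_nonneg_of_le (fun _ => sq_nonneg _)
    (fun x => by nlinarith [sq_nonneg (f x - g x)]) ((hf.mul_left 2).add (hg.mul_left 2))

omit [Group G] in
theorem Sq.const_mul (hf : Sq f) (c : ℝ) : Sq fun x => c * f x := by
  simpa [Sq, mul_pow] using hf.mul_left (c ^ 2)

omit [Group G] in
theorem Sq.neg (hf : Sq f) : Sq fun x => -f x := by simpa [Sq] using hf

omit [Group G] in
theorem Sq.sub (hf : Sq f) (hg : Sq g) : Sq fun x => f x - g x := by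
  simpa [sub_eq_add_neg] using hf.add hg.neg

omit [Group G] in
theorem Sq.abs (hf : Sq f) : Sq fun x => |f x| := by simpa [Sq] using hf

omit [Group G] in
theorem Sq.sum {ι : Type} (T : Finset ι) {F : ι → G → ℝ} (h : ∀ i ∈ T, Sq (F i)) :
    Sq fun x => ∑ i ∈ T, F i x := by
  classical
  induction T using Finset.induction_on with
  | empty => simpa using sq_zero
  | insert a T ha ih =>
    simp only [Finset.sum_insert ha]
    exact (h a (Finset.mem_insert_self _ _)).add
      (ih fun i hi => h i (Finset.mem_insert_of_mem hi))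

omit [Group G] in
theorem Sq.comp_equiv (hf : Sq f) (e : G ≃ G) : Sq fun x => f (e x) :=
  (e.summable_iff (f := fun x => f x ^ 2)).2 hf

theorem Sq.mul_right (hf : Sq f) (w : G) : Sq fun x => f (x * w) :=
  hf.comp_equiv (Equiv.mulRight w)

theorem Sq.mul_left (hf : Sq f) (g : G) : Sq fun x => f (g * x) :=
  hf.comp_equiv (Equiv.mulLeft g)

omit [Group G] in
theorem Sq.tendsto (hf : Sq f) : Tendsto f cofinite (𝓝 0) := by
  have h := Summable.tendsto_cofinite_zero hf
  have h2 := (Real.continuous_sqrt.tendsto 0).comp h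
  rw [Real.sqrt_zero] at h2
  rw [tendsto_zero_iff_abs_tendsto_zero]
  exact h2.congr fun x => Real.sqrt_sq_eq_abs _

omit [Group G] in
theorem Sq.finite (hf : Sq f) {ε : ℝ} (hε : 0 < ε) : {x | ε ≤ |f x|}.Finite := by
  have h := Metric.tendsto_nhds.1 hf.tendsto ε hε
  rw [eventually_cofinite] at h
  simpa [Real.dist_eq] using h

omit [Group G] in
theorem Sq.summable_mul (hf : Sq f) (hg : Sq g) : Summable fun x => f x * g x :=
  Summable.of_norm_bounded (Summable.add hf hg) fun x => by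
    rw [Real.norm_eq_abs, abs_mul]
    nlinarith [sq_nonneg (|f x| - |g x|), sq_abs (f x), sq_abs (g x), abs_nonneg (f x),
      abs_nonneg (g x)]

end Sq

/-! ### Dirichlet functions -/

section Dir

variable {S : Finset G} {f g : G → ℝ}

theorem Sq.dir (hf : Sq f) : Dir S f := fun s _ => (hf.mul_right s).sub hf

theorem dir_const (c : ℝ) : Dir S fun _ => c := fun _ _ => by simpa using sq_zero

theorem Dir.add (hf : Dir S f) (hg : Dir S g) : Dir S fun x => f x + g x := fun s hs => by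
  convert (hf s hs).add (hg s hs) using 2
  ring

theorem Dir.const_mul (hf : Dir S f) (c : ℝ) : Dir S fun x => c * f x := fun s hs => by
  convert (hf s hs).const_mul c using 2
  ring

theorem Dir.neg (hf : Dir S f) : Dir S fun x => -f x := by simpa using hf.const_mul (-1)

theorem Dir.sub (hf : Dir S f) (hg : Dir S g) : Dir S fun x => f x - g x := by
  simpa [sub_eq_add_neg] using hf.add hg.neg

/-- Comparison of gradients off a finite set. -/
theorem Dir.of_eventually_le (hg : Dir S g)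
    (h : ∀ s ∈ S, ∀ᶠ x in cofinite, |f (x * s) - f x| ≤ |g (x * s) - g x|) : Dir S f :=
  fun s hs => (hg s hs).of_eventually_le (h s hs)

theorem Dir.lip (hf : Dir S f) {φ : ℝ → ℝ} (h : ∀ a b, |φ a - φ b| ≤ |a - b|) :
    Dir S fun x => φ (f x) := fun s hs => (hf s hs).of_le fun _ => h _ _

theorem Dir.abs (hf : Dir S f) : Dir S fun x => |f x| := hf.lip abs_abs_sub_abs_le_abs_sub

theorem Dir.max (hf : Dir S f) (hg : Dir S g) : Dir S fun x => max (f x) (g x) := by
  convert ((hf.add hg).add (hf.sub hg).abs).const_mul (1 / 2) using 2 with x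
  rcases le_total (f x) (g x) with h | h
  · rw [max_eq_right h, abs_of_nonpos (by linarith)]; ring
  · rw [max_eq_left h, abs_of_nonneg (by linarith)]; ring

theorem Dir.min (hf : Dir S f) (hg : Dir S g) : Dir S fun x => min (f x) (g x) := by
  convert (hf.neg.max hg.neg).neg using 2 with x
  rw [max_neg_neg, neg_neg]

theorem Dir.clamp (hf : Dir S f) : Dir S fun x => clamp (f x) :=
  (dir_const 0).max ((dir_const 1).min hf)

theorem Dir.mul_left (hf : Dir S f) (g : G) : Dir S fun x => f (g * x) := fun s hs => by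
  simpa [mul_assoc] using (hf s hs).mul_left g

theorem Dir.dd (hf : Dir S f) : Sq (DD S f) := Sq.sum S fun s hs => (hf s hs).abs

theorem dd_nonneg (S : Finset G) (f : G → ℝ) (x : G) : 0 ≤ DD S f x :=
  Finset.sum_nonneg fun _ _ => abs_nonneg _

theorem le_dd (f : G → ℝ) (x : G) {s : G} (hs : s ∈ S) : |f (x * s) - f x| ≤ DD S f x :=
  Finset.single_le_sum (f := fun s => |f (x * s) - f x|) (fun _ _ => abs_nonneg _) hs

/-- Induction along right multiplication by generators. -/
theorem Gen.ind (hS : Gen S) {P : G → Prop} (h1 : P 1) (h : ∀ x, ∀ s ∈ S, P x → P (x * s))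
    (x : G) : P x := by
  have hx : x ∈ Subgroup.closure (S : Set G) := by rw [hS.gen]; trivial
  induction hx using Subgroup.closure_induction_right with
  | one => exact h1
  | mul_right x _ s hs ih => exact h x s hs ih
  | mul_inv_cancel x _ s hs ih => exact h x _ (hS.inv s hs) ih

theorem Gen.countable (hS : Gen S) : Countable G := by
  refine Function.Surjective.countable (f := fun l : List S => (l.map Subtype.val).prod) fun x => ?_
  induction x using hS.ind with
  | h1 => exact ⟨[], rfl⟩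
  | h x s hs ih =>
    obtain ⟨l, rfl⟩ := ih
    exact ⟨l ++ [⟨s, hs⟩], by simp⟩

theorem Dir.sq_right (hS : Gen S) (hf : Dir S f) (w : G) : Sq fun x => f (x * w) - f x := by
  induction w using hS.ind with
  | h1 => simpa using sq_zero
  | h w s hs ih =>
    convert ((hf s hs).mul_right w).add ih using 2
    simp [mul_assoc]

theorem Dir.finite (hS : Gen S) (hf : Dir S f) (w : G) {ε : ℝ} (hε : 0 < ε) :
    {x | ε ≤ |f (x * w) - f x|}.Finite := (hf.sq_right hS w).finite hε

theorem clamp_mem (r : ℝ) : 0 ≤ clamp r ∧ clamp r ≤ 1 :=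
  ⟨le_max_left _ _, max_le zero_le_one (min_le_left _ _)⟩

theorem clamp_of_le {r : ℝ} (h : r ≤ 0) : clamp r = 0 :=
  max_eq_left ((min_le_right _ _).trans h)

theorem clamp_of_ge {r : ℝ} (h : 1 ≤ r) : clamp r = 1 := by
  rw [clamp, min_eq_left h, max_eq_right zero_le_one]

theorem clamp_mono {a b : ℝ} (h : a ≤ b) : clamp a ≤ clamp b :=
  max_le_max le_rfl (min_le_min le_rfl h)

end Dir

/-! ### Harmonic functions -/

section Harm

variable {S : Finset G} {f g : G → ℝ}

theorem harm_const (c : ℝ) : Harm S fun _ => c := fun _ => by simp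

theorem Harm.add (hf : Harm S f) (hg : Harm S g) : Harm S fun x => f x + g x := fun x => by
  rw [Finset.sum_add_distrib, hf x, hg x, mul_add]

theorem Harm.const_mul (hf : Harm S f) (c : ℝ) : Harm S fun x => c * f x := fun x => by
  rw [← Finset.mul_sum, hf x]; ring

theorem Harm.sub (hf : Harm S f) (hg : Harm S g) : Harm S fun x => f x - g x := fun x => by
  rw [Finset.sum_sub_distrib, hf x, hg x, mul_sub]

theorem Harm.mul_left (hf : Harm S f) (g : G) : Harm S fun x => f (g * x) := fun x => by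
  simpa [mul_assoc] using hf (g * x)

/-- Strong minimum principle for superharmonic functions. -/
theorem Gen.eq_of_min (hS : Gen S) (hf : ∀ x, ∑ s ∈ S, f (x * s) ≤ S.card * f x) {x₀ : G}
    (h : ∀ x, f x₀ ≤ f x) (x : G) : f x = f x₀ := by
  have key : ∀ w, f (x₀ * w) = f x₀ := by
    intro w
    induction w using hS.ind with
    | h1 => rw [mul_one]
    | h w s hs ih =>
      have h1 : ∑ t ∈ S, (f (x₀ * w * t) - f x₀) = 0 := by
        refine le_antisymm ?_ (Finset.sum_nonneg fun t _ => sub_nonneg.2 (h _))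
        have := hf (x₀ * w)
        rw [Finset.sum_sub_distrib, Finset.sum_const, nsmul_eq_mul]
        rw [ih] at this
        linarith
      have := (Finset.sum_eq_zero_iff_of_nonneg fun t _ => sub_nonneg.2 (h _)).1 h1 s hs
      rw [← mul_assoc]
      linarith
  simpa using key (x₀⁻¹ * x)

/-- Minimum principle at infinity for superharmonic functions. -/
theorem Gen.nonneg [Infinite G] (hS : Gen S) (hf : ∀ x, ∑ s ∈ S, f (x * s) ≤ S.card * f x)
    (h : ∀ ε : ℝ, 0 < ε → ∀ᶠ x in cofinite, -ε ≤ f x) (x : G) : 0 ≤ f x := by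
  by_contra hx
  push Not at hx
  have h1 := h (-f x / 2) (by linarith)
  have h2 : {y | f y ≤ f x}.Finite :=
    (eventually_cofinite.1 h1).subset fun y hy => by
      simp only [Set.mem_ofPred_eq, not_le] at hy ⊢
      linarith
  obtain ⟨x₀, hx₀, hmin⟩ := Set.exists_min_image _ f h2 ⟨x, le_refl (f x)⟩
  have h3 : ∀ y, f x₀ ≤ f y := fun y => by
    rcases le_total (f y) (f x) with e | e
    · exact hmin y e
    · exact le_trans hx₀ e
  obtain ⟨y, hy⟩ := h1.exists
  rw [hS.eq_of_min hf h3 y, ← hS.eq_of_min hf h3 x] at hy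
  linarith

theorem Harm.eq_zero_of_sq [Infinite G] (hS : Gen S) (hf : Harm S f) (h : Sq f) (x : G) :
    f x = 0 := by
  have key : ∀ {f : G → ℝ}, Harm S f → Sq f → 0 ≤ f x := fun {f} hf h =>
    hS.nonneg (fun x => (hf x).le) (fun ε hε => by
      rw [eventually_cofinite]
      refine (h.finite hε).subset fun y hy => ?_
      simp only [Set.mem_ofPred_eq, not_le] at hy ⊢
      exact le_abs.2 (Or.inr (by linarith))) x
  have h1 := key hf h
  have h2 := key (hf.const_mul (-1)) (h.const_mul (-1))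
  linarith

/-- Harnack inequality. -/
theorem Gen.harnack (hS : Gen S) (w : G) : ∃ K : ℝ, 0 ≤ K ∧ ∀ f : G → ℝ, Harm S f →
    (∀ x, 0 ≤ f x) → ∀ x, f (x * w) ≤ K * f x := by
  induction w using hS.ind with
  | h1 => exact ⟨1, zero_le_one, fun f _ _ x => by simp⟩
  | h w s hs ih =>
    obtain ⟨K, hK, h⟩ := ih
    refine ⟨S.card * K, by positivity, fun f hf h0 x => ?_⟩
    have h1 := Finset.single_le_sum (f := fun s => f (x * w * s)) (fun t _ => h0 _) hs
    rw [hf] at h1
    rw [← mul_assoc, mul_assoc (S.card : ℝ)]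
    exact h1.trans (mul_le_mul_of_nonneg_left (h f hf h0 x) (Nat.cast_nonneg _))

theorem SG.infinite {C : ℝ} (h : SG S C) : Infinite G := by
  by_contra hG
  have : Finite G := not_infinite_iff_finite.1 hG
  have := Fintype.ofFinite G
  have h1 := h (fun _ => 1) (Summable.of_finite)
  simp only [En, sub_self, one_pow, tsum_fintype] at h1
  simp only [ne_eq, OfNat.ofNat_ne_zero, not_false_eq_true, zero_pow, Finset.sum_const_zero,
    mul_zero, Finset.sum_const, Finset.card_univ, nsmul_eq_mul, mul_one] at h1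
  have : (0 : ℝ) < Fintype.card G := Nat.cast_pos.2 Fintype.card_pos
  linarith

end Harm

end Pool.Agent.MP_4f4d9f_gt.Hy

end

section

/-! Interface, part M: the model of a group with cone vertices and the relative Liouville theorem. -/

namespace Pool.Agent.MP_4f4d9f_gt.Rk

open Hy

/-- A finite set `S` of group elements, a base vertex `o` and the finite set `T` of its
neighbours. The edges join `x • o` to `x • τ` for `τ ∈ T`. -/
structure Net (G Ω : Type) where
  /-- the generators -/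
  S : Finset G
  /-- the base vertex -/
  o : Ω
  /-- the neighbours of the base vertex -/
  T : Finset Ω

variable {G Ω : Type} [Group G] [MulAction G Ω] (N : Net G Ω)

/-- The vertices outside the orbit of the base vertex. -/
def Cone (ω : Ω) : Prop := ∀ x : G, x • N.o ≠ ω

/-- The orbit of the base vertex is free and carries the Cayley graph; the other vertices have
infinite stabilisers. -/
structure Mod : Prop where
  gen : Gen N.S
  free : ∀ g : G, g • N.o = N.o → g = 1
  sub : ∀ s ∈ N.S, s • N.o ∈ N.T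
  cov : ∀ ω : Ω, ∃ g : G, ∃ τ ∈ N.T, g • τ = ω
  dich : ∀ τ ∈ N.T, (∃ s ∈ N.S, s • N.o = τ) ∨ {g : G | g • τ = τ}.Infinite

/-- Edges. -/
def Edge (e : G × Ω) : Prop := e.1⁻¹ • e.2 ∈ N.T

/-- Triangles. -/
def Tri (t : G × G × Ω) : Prop :=
  t.1⁻¹ * t.2.1 ∈ N.S ∧ t.1⁻¹ • t.2.2 ∈ N.T ∧ t.2.1⁻¹ • t.2.2 ∈ N.T

/-- The coboundary of a `0`-cochain. -/
def d0 (F : Ω → ZMod 2) (e : G × Ω) : ZMod 2 := F (e.1 • N.o) + F e.2

/-- The coboundary of a `1`-cochain. -/
def d1 (w : G × Ω → ZMod 2) (t : G × G × Ω) : ZMod 2 :=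
  w (t.2.1, t.2.2) + w (t.1, t.2.2) + w (t.1, t.2.1 • N.o)

/-- The edges in the support. -/
def sp1 (w : G × Ω → ZMod 2) : Set (G × Ω) := {e | Edge N e ∧ w e ≠ 0}

/-- The triangles in the support. -/
def sp2 (ζ : G × G × Ω → ZMod 2) : Set (G × G × Ω) := {t | Tri N t ∧ ζ t ≠ 0}

/-- The cohomological hypotheses. -/
structure RelQ : Prop where
  c0 : ∀ w : G × Ω → ZMod 2, (∀ t, Tri N t → d1 N w t = 0) →
    ∃ F, ∀ e, Edge N e → w e = d0 N F e
  c1 : ∀ F : Ω → ZMod 2, (sp1 N (d0 N F)).Finite →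
    {x : G | F (x • N.o) ≠ 0}.Finite ∨ {x : G | F (x • N.o) ≠ 1}.Finite
  c2 : ∀ w : G × Ω → ZMod 2, (sp2 N (d1 N w)).Finite →
    ∃ c : G × Ω → ZMod 2, (sp1 N c).Finite ∧ ∀ t, Tri N t → d1 N c t = d1 N w t

/-- Finite energy. -/
def Dir (f : Ω → ℝ) : Prop := ∀ τ ∈ N.T, Sq fun x : G => f (x • τ) - f (x • N.o)

/-- The relative Liouville theorem: functions of finite energy agree on all cone vertices. -/
def MStmt : Prop :=
  ∀ (G Ω : Type) [Group G] [MulAction G Ω] (N : Net G Ω), (∀ g : G, IsOfFinOrder g → g = 1) →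
    Mod N → RelQ N → ∀ u : Ω → ℝ, Dir N u → ∀ ω ω', Cone N ω → Cone N ω' → u ω = u ω'

end Pool.Agent.MP_4f4d9f_gt.Rk

end

section

/-! Interface between the topology and the combinatorics: a locally finite graph with a free
action. -/

namespace Pool.Agent.MP_4f4d9f_gt.Nc

open Hy

variable {I : Type} (nb : I → Finset I)

/-- Edges. -/
def Ed (e : I × I) : Prop := e.2 ∈ nb e.1

/-- Flag triangles. -/
def Tr (t : I × I × I) : Prop := t.2.1 ∈ nb t.1 ∧ t.2.2 ∈ nb t.1 ∧ t.2.2 ∈ nb t.2.1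

/-- Finite energy. -/
def DirI (f : I → ℝ) : Prop := Summable fun x => ∑ y ∈ nb x, (f x - f y) ^ 2

variable (G : Type) [Group G] [MulAction G I]

/-- The union of the translates of a finite set. -/
def Orb (E : Finset I) : Set I := {x | ∃ g : G, ∃ a ∈ E, g • a = x}

/-- A connected locally finite graph with a free action of a torsion free group, whose flag complex
has `H¹ = H¹_c = H²_c = 0` mod 2. -/
structure Gr : Prop where
  tf : ∀ g : G, IsOfFinOrder g → g = 1
  free : ∀ (g : G) (a : I), g • a = a → g = 1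
  refl : ∀ a, a ∈ nb a
  symm : ∀ a b, b ∈ nb a → a ∈ nb b
  eqv : ∀ (g : G) a b, b ∈ nb a → g • b ∈ nb (g • a)
  conn : ∀ a b, Relation.ReflTransGen (fun x y => y ∈ nb x) a b
  c0 : ∀ w : I × I → ZMod 2, (∀ t, Tr nb t → d1 w t = 0) → ∃ F, ∀ e, Ed nb e → w e = d0 F e
  c1 : ∀ F : I → ZMod 2, {e | Ed nb e ∧ d0 F e ≠ 0}.Finite →
    {x | F x ≠ 0}.Finite ∨ {x | F x ≠ 1}.Finite
  c2 : ∀ w : I × I → ZMod 2, {t | Tr nb t ∧ d1 w t ≠ 0}.Finite →
    ∃ F, {e | Ed nb e ∧ w e ≠ d0 F e}.Finite

/-- Dirichlet functions that are locally constant off a cocompact set are constant off a larger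
cocompact set. -/
def Goal : Prop :=
  ∀ E₀ : Finset I, ∃ I₀ : Finset I, ∀ f : I → ℝ, DirI nb f →
    (∀ x y, y ∈ nb x → x ∉ Orb G E₀ → y ∉ Orb G E₀ → f x = f y) →
    ∀ x y, x ∉ Orb G I₀ → y ∉ Orb G I₀ → f x = f y

/-- The combinatorial theorem (blocks RK, AC, GL). -/
def GoalStmt : Prop :=
  ∀ (G I : Type) [Group G] [MulAction G I] (nb : I → Finset I), Gr nb G → Goal nb G

end Pool.Agent.MP_4f4d9f_gt.Nc

end
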