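import Pool.Agent.Mg.F4f4d9fr.G1afe66

set_option linter.all false

section

/-! Interface, part B: neighbourhoods of points at infinity, sides of a point, cut points. -/

namespace Pool.Agent.MP_4f4d9f_gt.Hy

open Filter Topology
open scoped Pointwise

variable {G : Type} [Group G] {S : Finset G} {u : G → ℝ}

/-! ### Connectedness -/

section Conn

variable {A B : Set G} {x y z : G}

theorem Conn.refl (h : x ∈ A) : Conn S A x x := ⟨h, Relation.ReflTransGen.refl⟩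

theorem Conn.left (h : Conn S A x y) : x ∈ A := h.1

theorem Conn.right (h : Conn S A x y) : y ∈ A := by
  obtain ⟨h1, h2⟩ := h
  induction h2 with
  | refl => exact h1
  | tail _ h _ => exact h.1

theorem Conn.trans (h : Conn S A x y) (h' : Conn S A y z) : Conn S A x z := ⟨h.1, h.2.trans h'.2⟩

theorem Conn.tail (h : Conn S A x y) (hz : z ∈ A) (e : y⁻¹ * z ∈ S) : Conn S A x z :=
  ⟨h.1, h.2.tail ⟨hz, e⟩⟩

theorem Conn.single (hx : x ∈ A) (hy : y ∈ A) (e : x⁻¹ * y ∈ S) : Conn S A x y :=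
  (Conn.refl hx).tail hy e

theorem Conn.ind {P : G → Prop} (h : Conn S A x y) (h0 : P x)
    (h1 : ∀ a b, Conn S A x a → b ∈ A → a⁻¹ * b ∈ S → P a → P b) : P y := by
  obtain ⟨hx, h⟩ := h
  induction h with
  | refl => exact h0
  | tail h2 h3 ih => exact h1 _ _ ⟨hx, h2⟩ h3.1 h3.2 ih

theorem Gen.symm (hS : Gen S) (e : x⁻¹ * y ∈ S) : y⁻¹ * x ∈ S := by
  simpa using hS.inv _ e

theorem Conn.symm (hS : Gen S) (h : Conn S A x y) : Conn S A y x :=
  h.ind (P := fun y => Conn S A y x) (Conn.refl h.1) fun _ _ ha hb e ih =>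
    (Conn.single hb ha.right (hS.symm e)).trans ih

theorem Conn.mono (h : Conn S A x y) (hAB : A ⊆ B) : Conn S B x y :=
  h.ind (P := fun y => Conn S B x y) (Conn.refl (hAB h.1)) fun _ _ _ hb e ih => ih.tail (hAB hb) e

/-- A path stays inside the component of its first point. -/
theorem Conn.comp (h : Conn S A x y) : Conn S {a | Conn S A x a} x y :=
  h.ind (P := fun y => Conn S {a | Conn S A x a} x y) (Conn.refl (Conn.refl h.1))
    fun _ _ ha hb e ih => ih.tail (ha.tail hb e) e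

theorem Conn.const {α : Type} {F : G → α} (h : Conn S A x y)
    (hF : ∀ a ∈ A, ∀ b ∈ A, a⁻¹ * b ∈ S → F b = F a) : F y = F x :=
  h.ind (P := fun y => F y = F x) rfl fun a b ha hb e ih => (hF a ha.right b hb e).trans ih

theorem Conn.smul (g : G) (h : Conn S A x y) : Conn S (g • A) (g * x) (g * y) :=
  h.ind (P := fun y => Conn S (g • A) (g * x) (g * y)) (Conn.refl (Set.smul_mem_smul_set h.1))
    fun a b _ hb e ih => ih.tail (Set.smul_mem_smul_set hb) (by simpa [mul_assoc] using e)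

theorem Gen.conn_univ (hS : Gen S) (x y : G) : Conn S Set.univ x y := by
  have : ∀ w, Conn S Set.univ x (x * w) := fun w => by
    induction w using hS.ind with
    | h1 => rw [mul_one]; exact Conn.refl trivial
    | h w s hs ih => exact ih.tail trivial (by simpa [mul_assoc] using hs)
  simpa using this (x⁻¹ * y)

/-- A path only needs finitely many points. -/
theorem Conn.finite (h : Conn S A x y) : ∃ B ⊆ A, B.Finite ∧ Conn S B x y :=
  h.ind (P := fun y => ∃ B ⊆ A, B.Finite ∧ Conn S B x y)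
    ⟨{x}, Set.singleton_subset_iff.2 h.1, Set.finite_singleton _, Conn.refl rfl⟩
    fun _ b _ hb e ⟨B, h1, h2, h3⟩ => ⟨insert b B, Set.insert_subset hb h1, h2.insert b,
      (h3.mono (Set.subset_insert _ _)).tail (Set.mem_insert _ _) e⟩

end Conn

/-! ### Rays -/

theorem Pt.notMem (m : Pt S u) {Φ : Set G} (h : Φ.Finite) : ∀ᶠ n in atTop, m.z n ∉ Φ :=
  m.esc h.compl_mem_cofinite

theorem Pt.infinite (m : Pt S u) {A : Set G} (h : ∃ᶠ n in atTop, m.z n ∈ A) : A.Infinite :=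
  fun hA => (h.and_eventually (m.notMem hA)).exists.elim fun _ e => e.2 e.1

/-- The tail of a ray that eventually lies in `A` lies in one component of `A`. -/
theorem Pt.conn (m : Pt S u) {A : Set G} (h : ∀ᶠ n in atTop, m.z n ∈ A) :
    ∃ k, ∀ n, k ≤ n → Conn S A (m.z k) (m.z n) := by
  obtain ⟨k, hk⟩ := eventually_atTop.1 h
  refine ⟨k, fun n hn => ?_⟩
  induction n, hn using Nat.le_induction with
  | base => exact Conn.refl (hk k le_rfl)
  | succ n hn ih => exact ih.tail (hk _ (by omega)) (m.step n)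

theorem Pt.tendsto_sq (m : Pt S u) {f : G → ℝ} (h : Sq f) :
    Tendsto (fun n => f (m.z n)) atTop (𝓝 0) := h.tendsto.comp m.esc

/-- The translate of a point. -/
def Pt.tr (g : G) (m : Pt S u) : Pt S u where
  z n := g * m.z n
  step n := by simpa [mul_assoc] using m.step n
  esc := (Function.Injective.tendsto_cofinite (mul_right_injective g)).comp m.esc
  val h := m.val (h * g)
  conv h := by simpa [mul_assoc] using m.conv (h * g)

/-! ### Neighbourhoods and sides -/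

/-- The places where finitely many translates of `u` are close to their limits along `m`. -/
def UU (m : Pt S u) (T : Finset G) (δ : ℝ) : Set G := {x | ∀ g ∈ T, |u (g * x) - m.val g| < δ}

/-- The component of `UU m T δ \ Φ` that contains the tail of `m`. -/
def NN (m : Pt S u) (T : Finset G) (δ : ℝ) (Φ : Set G) : Set G :=
  {x | ∀ᶠ n in atTop, Conn S (UU m T δ \ Φ) (m.z n) x}

/-- The neighbourhoods of a point. -/
def nb (m : Pt S u) : Set (Set G) := {N | ∃ T δ Φ, 0 < δ ∧ Φ.Finite ∧ N = NN m T δ Φ}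

/-- The tail of `m'` lies in all neighbourhoods of `m`. -/
def Near (m m' : Pt S u) : Prop := ∀ N ∈ nb m, ∀ᶠ n in atTop, m'.z n ∈ N

/-- The tails of `z` and `z'` lie in one component of `A`. -/
def Same (A : Set G) (z z' : Pt S u) : Prop :=
  ∃ x, (∀ᶠ n in atTop, Conn S A x (z.z n)) ∧ ∀ᶠ n in atTop, Conn S A x (z'.z n)

/-- `z` and `z'` lie on the same side of `m`. -/
def Side (m z z' : Pt S u) : Prop := ∃ N ∈ nb m, ∀ Φ : Set G, Φ.Finite → Same (Nᶜ \ Φ) z z'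

/-- `m` separates `p` from `q`. -/
def Cut (m p q : Pt S u) : Prop := ¬ Near m p ∧ ¬ Near m q ∧ ¬ Side m p q

/-- Test functions for the side of `p`. -/
def Adm (m p : Pt S u) (φ : G → ℝ) : Prop :=
  Dir S φ ∧ I01 φ ∧ ∀ z, ¬ Side m p z → Tendsto (fun n => φ (z.z n)) atTop (𝓝 0)

/-- The harmonic measure of the side of `p`. -/
noncomputable def hh (m p : Pt S u) (x : G) : ℝ := sSup {r | ∃ φ, Adm m p φ ∧ r = Hm S φ x}

/-- The half space of the side of `p`. -/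
def EE (m p : Pt S u) : Set G := {x | 1 / 2 < hh m p x}

variable (S u) in
/-- The family of half spaces. -/
def Fam : Set (Set G) := {E | ∃ m p q : Pt S u, Cut m p q ∧ E = EE m p}

/-- A separating function for two points. -/
def IsSep (m m' : Pt S u) (f : G → ℝ) : Prop :=
  Dir S f ∧ I01 f ∧ (∀ z, ¬ Side m m' z → ∀ᶠ n in atTop, f (z.z n) = 1) ∧
    ∀ z, ¬ Side m' m z → ∀ᶠ n in atTop, f (z.z n) = 0

variable (S) in
/-- `h ≤ h'` with a Dirichlet function in between. -/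
def Nest (h h' f : G → ℝ) : Prop :=
  Dir S f ∧ I01 f ∧ (∀ x, h x ≤ Hm S (fun y => clamp (3 * f y - 2)) x) ∧
    ∀ x, Hm S (fun y => clamp (3 * f y)) x ≤ h' x

variable (S u) in
/-- The properties of the neighbourhood systems. -/
structure Nb : Prop where
  ne : ∀ m : Pt S u, (nb m).Nonempty
  tail : ∀ m : Pt S u, Near m m
  conn : ∀ m : Pt S u, ∀ N ∈ nb m, ∀ x ∈ N, ∀ y ∈ N, Conn S N x y
  inter : ∀ m : Pt S u, ∀ N ∈ nb m, ∀ N' ∈ nb m, ∃ N'' ∈ nb m, N'' ⊆ N ∩ N'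
  diff : ∀ m : Pt S u, ∀ N ∈ nb m, ∀ Φ : Set G, Φ.Finite → ∃ N' ∈ nb m, N' ⊆ N \ Φ
  unif : ∀ m : Pt S u, ∀ N ∈ nb m, ∃ N₀ ∈ nb m, ∀ Φ : Set G, Φ.Finite →
    ∃ N' ∈ nb m, N' ⊆ N \ Φ ∧ (N₀ \ N').Finite
  bump : ∀ m : Pt S u, ∀ N ∈ nb m, ∃ N₀ ∈ nb m, ∃ φ : G → ℝ, Dir S φ ∧ I01 φ ∧
    (∀ x ∈ N₀, φ x = 1) ∧ ∀ x ∉ N, φ x = 0
  freq : ∀ m : Pt S u, ∀ N ∈ nb m, ∃ N₀ ∈ nb m, ∀ z : Pt S u,
    (∃ᶠ n in atTop, z.z n ∈ N₀) → ∀ᶠ n in atTop, z.z n ∈ N
  same : ∀ m m' : Pt S u, Near m m' → nb m = nb m'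
  sep : ∀ m m' : Pt S u, ¬ Near m m' → ∃ N ∈ nb m, ∃ N' ∈ nb m', Disjoint N N'
  val : ∀ m m' : Pt S u, Near m m' → m'.val = m.val

variable (S u) in
/-- Uniform trichotomy. -/
def TriP : Prop :=
  ∀ m m' : Pt S u, ¬ Near m m' → ∃ N ∈ nb m, ∀ z, ¬ Side m' m z →
    ∀ Φ : Set G, Φ.Finite → Same (Nᶜ \ Φ) m' z

variable (S u) in
/-- Separating functions exist. -/
def SepP : Prop := ∀ m m' : Pt S u, ¬ Near m m' → ∃ f, IsSep m m' f

section Side

variable {A B : Set G} {m m' p q z : Pt S u}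

theorem Same.symm (h : Same A p q) : Same A q p := h.imp fun _ h => ⟨h.2, h.1⟩

theorem Same.mono (h : Same A p q) (hAB : A ⊆ B) : Same B p q :=
  h.imp fun _ h => ⟨h.1.mono fun _ e => e.mono hAB, h.2.mono fun _ e => e.mono hAB⟩

theorem Same.trans (hS : Gen S) (h : Same A p q) (h' : Same A q z) : Same A p z := by
  obtain ⟨x, h1, h2⟩ := h
  obtain ⟨y, h3, h4⟩ := h'
  obtain ⟨n, e1, e2⟩ := (h2.and h3).exists
  exact ⟨x, h1, h4.mono fun _ e => (e1.trans (e2.symm hS)).trans e⟩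

theorem Same.left (h : Same A p q) : ∀ᶠ n in atTop, p.z n ∈ A :=
  h.elim fun _ h => h.1.mono fun _ e => e.right

theorem Same.right (h : Same A p q) : ∀ᶠ n in atTop, q.z n ∈ A := h.symm.left

theorem same_refl (h : ∀ᶠ n in atTop, p.z n ∈ A) : Same A p p := by
  obtain ⟨k, hk⟩ := p.conn h
  exact ⟨p.z k, eventually_atTop.2 ⟨k, hk⟩, eventually_atTop.2 ⟨k, hk⟩⟩

/-- Two rays in a connected set. -/
theorem same_of_conn (hB : ∀ x ∈ B, ∀ y ∈ B, Conn S B x y) (hBA : B ⊆ A)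
    (hp : ∀ᶠ n in atTop, p.z n ∈ B) (hq : ∀ᶠ n in atTop, q.z n ∈ B) : Same A p q := by
  obtain ⟨k, hk⟩ := hp.exists
  exact ⟨p.z k, hp.mono fun _ e => (hB _ hk _ e).mono hBA, hq.mono fun _ e => (hB _ hk _ e).mono hBA⟩

theorem Side.symm (h : Side m p q) : Side m q p :=
  h.imp fun _ h => ⟨h.1, fun Φ hΦ => (h.2 Φ hΦ).symm⟩

theorem Side.trans (hS : Gen S) (hN : Nb S u) (h : Side m p q) (h' : Side m q z) :
    Side m p z := by
  obtain ⟨N, h1, h2⟩ := h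
  obtain ⟨N', h3, h4⟩ := h'
  obtain ⟨N'', h5, h6⟩ := hN.inter m N h1 N' h3
  exact ⟨N'', h5, fun Φ hΦ =>
    ((h2 Φ hΦ).mono (Set.diff_subset_diff_left (Set.compl_subset_compl.2 fun _ e => (h6 e).1))).trans
      hS ((h4 Φ hΦ).mono (Set.diff_subset_diff_left (Set.compl_subset_compl.2 fun _ e => (h6 e).2)))⟩

theorem Side.not_near (h : Side m p q) : ¬ Near m q := fun h' => by
  obtain ⟨N, h1, h2⟩ := h
  obtain ⟨n, e1, e2⟩ := ((h2 ∅ Set.finite_empty).right.and (h' N h1)).exists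
  exact e1.1 e2

theorem Nb.avoid (hN : Nb S u) (h : ¬ Near m p) : ∃ N ∈ nb m, ∀ᶠ n in atTop, p.z n ∉ N := by
  simp only [Near, not_forall] at h
  obtain ⟨N, h1, h2⟩ := h
  obtain ⟨N₀, h3, h4⟩ := hN.freq m N h1
  exact ⟨N₀, h3, not_frequently.1 fun e => h2 (h4 p e)⟩

theorem Nb.side_refl (hN : Nb S u) (h : ¬ Near m p) : Side m p p := by
  obtain ⟨N, h1, h2⟩ := hN.avoid h
  exact ⟨N, h1, fun Φ hΦ => same_refl (h2.and (p.notMem hΦ))⟩

theorem Nb.near_symm (hN : Nb S u) (h : Near m m') : Near m' m := by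
  rw [Near, ← hN.same m m' h]
  exact hN.tail m

theorem Nb.side_congr (hN : Nb S u) (h : Near m m') : Side m p q ↔ Side m' p q := by
  rw [Side, Side, hN.same m m' h]

theorem Nb.not_side_self (hN : Nb S u) : ¬ Side m p m := fun h => h.not_near (hN.tail m)

theorem Cut.symm (h : Cut m p q) : Cut m q p := ⟨h.2.1, h.1, fun e => h.2.2 e.symm⟩

end Side

/-! ### The harmonic part -/

section Hm

variable {f g : G → ℝ}

theorem Sol.spec (h : Sol S) (hf : Dir S f) : Harm S (Hm S f) ∧ Sq (f - Hm S f) := by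
  have : ∃ v, Harm S v ∧ Sq (f - v) := by
    obtain ⟨V, h1, h2⟩ := h (fun x => -∑ s ∈ S, (f (x * s) - f x)) (Sq.sum S hf).neg
    refine ⟨fun x => f x - V x, fun x => ?_, ?_⟩
    · have := h2 x
      rw [Finset.sum_sub_distrib, Finset.sum_const, nsmul_eq_mul] at this
      rw [Finset.sum_sub_distrib]
      linarith
    · convert h1 using 1
      ext x
      simp
  rw [Hm, dif_pos this]
  exact this.choose_spec

variable (S u) in
/-- The standing hypotheses. -/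
structure Ctx (C : ℕ) : Prop where
  gen : Gen S
  sg : SG S C
  coh : Coh S C
  dir : Dir S u
  sol : Sol S
  ray : Ray S u

variable {C : ℕ}

theorem Ctx.inf (h : Ctx S u C) : Infinite G := h.sg.infinite

theorem Ctx.harm (h : Ctx S u C) (hf : Dir S f) : Harm S (Hm S f) := (h.sol.spec hf).1

theorem Ctx.sq (h : Ctx S u C) (hf : Dir S f) : Sq fun x => f x - Hm S f x := (h.sol.spec hf).2

theorem Ctx.hm_dir (h : Ctx S u C) (hf : Dir S f) : Dir S (Hm S f) := by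
  simpa using hf.sub (h.sq hf).dir

theorem Ctx.hm_eq (h : Ctx S u C) (hf : Dir S f) {v : G → ℝ} (hv : Harm S v)
    (e : Sq fun x => f x - v x) (x : G) : Hm S f x = v x := by
  have := h.inf
  have h1 := ((h.harm hf).sub hv).eq_zero_of_sq h.gen (by simpa using e.sub (h.sq hf)) x
  linarith

theorem Ctx.hm_const (h : Ctx S u C) (c : ℝ) (x : G) : Hm S (fun _ => c) x = c :=
  h.hm_eq (dir_const c) (harm_const c) (by simpa using sq_zero) x

theorem Ctx.hm_add (h : Ctx S u C) (hf : Dir S f) (hg : Dir S g) (x : G) :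
    Hm S (fun y => f y + g y) x = Hm S f x + Hm S g x :=
  h.hm_eq (hf.add hg) ((h.harm hf).add (h.harm hg))
    (by convert (h.sq hf).add (h.sq hg) using 2; ring) x

theorem Ctx.hm_sub (h : Ctx S u C) (hf : Dir S f) (hg : Dir S g) (x : G) :
    Hm S (fun y => f y - g y) x = Hm S f x - Hm S g x :=
  h.hm_eq (hf.sub hg) ((h.harm hf).sub (h.harm hg))
    (by convert (h.sq hf).sub (h.sq hg) using 2; ring) x

theorem Ctx.hm_left (h : Ctx S u C) (hf : Dir S f) (g x : G) :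
    Hm S (fun y => f (g * y)) x = Hm S f (g * x) :=
  h.hm_eq (hf.mul_left g) ((h.harm hf).mul_left g) ((h.sq hf).mul_left g) x

/-- The maximum principle on points at infinity. -/
theorem Ctx.maxp (h : Ctx S u C) (hf : Dir S f) (hg : Dir S g)
    (e : ∀ (z : Pt S u) (ε : ℝ), 0 < ε → ∀ᶠ n in atTop, f (z.z n) ≤ g (z.z n) + ε) (x : G) :
    Hm S f x ≤ Hm S g x := by
  refine le_of_forall_pos_le_add fun ε hε => ?_
  obtain ⟨m, hm⟩ := h.ray _ (hf.sub hg) x (ε / 2) (half_pos hε)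
  obtain ⟨n, hn⟩ := (e m (ε / 2) (half_pos hε)).exists
  have := hm n
  rw [h.hm_sub hf hg] at this
  linarith

theorem Ctx.hm_mono (h : Ctx S u C) (hf : Dir S f) (hg : Dir S g) (e : ∀ x, f x ≤ g x) (x : G) :
    Hm S f x ≤ Hm S g x :=
  h.maxp hf hg (fun _ _ hε => Eventually.of_forall fun _ => (e _).trans (by linarith)) x

theorem Ctx.hm_i01 (h : Ctx S u C) (hf : Dir S f) (e : I01 f) : I01 (Hm S f) := fun x =>
  ⟨h.hm_const 0 x ▸ h.hm_mono (dir_const 0) hf (fun y => (e y).1) x,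
    h.hm_const 1 x ▸ h.hm_mono hf (dir_const 1) (fun y => (e y).2) x⟩

end Hm

/-! ### Facts on harmonic measures and half spaces -/

variable (S u) in
/-- The properties of the harmonic measures. -/
structure HH : Prop where
  harm : ∀ m p : Pt S u, Harm S (hh m p)
  i01 : ∀ m p : Pt S u, I01 (hh m p)
  cases : ∀ m p m' p' : Pt S u, hh m p = hh m' p' ∨ (∀ x, hh m p x + hh m' p' x ≤ 1) ∨
    (∀ x, 1 ≤ hh m p x + hh m' p' x) ∨ (∃ f, Nest S (hh m p) (hh m' p') f) ∨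
    ∃ f, Nest S (hh m' p') (hh m p) f
  cases2 : ∀ m m' p q : Pt S u, Cut m p q → Cut m' p q → ¬ Near m m' →
    ∃ f, (Nest S (hh m p) (hh m' p) f ∨ Nest S (hh m' p) (hh m p) f) ∧
      (∀ᶠ n in atTop, f (p.z n) = 1) ∧ ∀ᶠ n in atTop, f (q.z n) = 0
  test1 : ∀ m p : Pt S u, ¬ Near m p → ∃ ψ, Dir S ψ ∧ I01 ψ ∧ (∀ x ∉ EE m p, ψ x = 0) ∧
    Tendsto (fun n => ψ (p.z n)) atTop (𝓝 1)
  test2 : ∀ m p q : Pt S u, Cut m p q → ∃ ψ, Dir S ψ ∧ I01 ψ ∧ (∀ x ∈ EE m p, ψ x = 0) ∧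
    Tendsto (fun n => ψ (q.z n)) atTop (𝓝 1)

/-- Almost invariance of nested half spaces. -/
theorem Ctx.nest_finite {C : ℕ} (hc : Ctx S u C) {h h' f : G → ℝ} (e : Nest S h h' f) (w : G) :
    {x | 1 / 2 < h x ∧ ¬ 1 / 2 < h' (x * w)}.Finite := by
  obtain ⟨hf, -, h1, h2⟩ := e
  have d1 : Dir S fun y => clamp (3 * f y - 2) := ((hf.const_mul 3).sub (dir_const 2)).clamp
  have d2 : Dir S fun y => clamp (3 * f y) := (hf.const_mul 3).clamp
  refine ((((hc.sq d1).finite (ε := 1 / 4) (by norm_num)).union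
    (((hc.sq d2).mul_right w).finite (ε := 1 / 4) (by norm_num))).union
    (hf.finite hc.gen w (ε := 1 / 3) (by norm_num))).subset fun x hx => ?_
  by_contra hne
  simp only [Set.mem_union, Set.mem_ofPred_eq, not_or, not_le, abs_lt] at hne hx
  obtain ⟨⟨e1, e2⟩, e3⟩ := hne
  have a1 := h1 x
  have a2 := h2 (x * w)
  have b1 : 2 / 3 < f x := by
    by_contra hb
    rw [clamp_of_le (by linarith)] at e1
    linarith
  have b2 : f (x * w) < 1 / 3 := by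
    by_contra hb
    rw [clamp_of_ge (by linarith)] at e2
    linarith
  linarith

theorem Ctx.nest_le {C : ℕ} (hc : Ctx S u C) {h h' f : G → ℝ} (e : Nest S h h' f) (x : G) :
    h x ≤ h' x :=
  (e.2.2.1 x).trans ((hc.hm_mono ((e.1.const_mul 3).sub (dir_const 2)).clamp
    (e.1.const_mul 3).clamp (fun _ => clamp_mono (by linarith)) x).trans (e.2.2.2 x))

theorem HH.mem (h : HH S u) {m p : Pt S u} (e : ¬ Near m p) :
    ∀ᶠ n in atTop, p.z n ∈ EE m p := by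
  obtain ⟨ψ, -, -, h1, h2⟩ := h.test1 m p e
  refine (h2.eventually (lt_mem_nhds one_pos)).mono fun n hn => ?_
  by_contra e
  exact hn.ne' (h1 _ e)

theorem HH.notMem (h : HH S u) {m p q : Pt S u} (e : Cut m p q) :
    ∀ᶠ n in atTop, q.z n ∉ EE m p := by
  obtain ⟨ψ, -, -, h1, h2⟩ := h.test2 m p q e
  exact (h2.eventually (lt_mem_nhds one_pos)).mono fun n hn e => hn.ne' (h1 _ e)

/-- A set with finitely many boundary edges is finite or cofinite. -/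
theorem Coh.set {C : ℕ} (hS : Gen S) (h : Coh S C) {A : Set G}
    (e : ∀ s ∈ S, {x | x ∈ A ∧ x * s ∉ A}.Finite) : A.Finite ∨ Aᶜ.Finite := by
  classical
  have h1 : (⋃ s ∈ S, (fun x => (x, x * s)) '' {x | x ∈ A ∧ x * s ∉ A}).Finite :=
    S.finite_toSet.biUnion fun s hs => (e s hs).image _
  have h2 := h.c1 (fun x => if x ∈ A then 1 else 0) ((h1.union (h1.image Prod.swap)).subset ?_)
  · refine h2.imp (fun h => h.subset fun x hx => ?_) fun h => h.subset fun x hx => ?_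
    · simp [hx]
    · simp [Set.notMem_of_mem_compl hx]
  · rintro ⟨x, y⟩ ⟨e1, e2⟩
    by_cases hx : x ∈ A <;> by_cases hy : y ∈ A
    · exact absurd (by simp only [d0, if_pos hx, if_pos hy]; rfl) e2
    · exact Or.inl (Set.mem_biUnion e1 ⟨x, ⟨hx, by simpa using hy⟩, by simp⟩)
    · exact Or.inr ⟨(y, x), Set.mem_biUnion (hS.symm e1) ⟨y, ⟨hy, by simpa using hx⟩, by simp⟩,
        rfl⟩
    · exact absurd (by simp [d0, hx, hy]) e2

/-- An invariant nested family of subsets of the group. -/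
structure OrdFam (𝓕 : Set (Set G)) : Prop where
  smul : ∀ (g : G), ∀ E ∈ 𝓕, g • E ∈ 𝓕
  ne : ∀ E ∈ 𝓕, E.Nonempty
  proper : ∀ E ∈ 𝓕, E ≠ Set.univ
  chain : ∀ E ∈ 𝓕, ∀ E' ∈ 𝓕, (E ∩ E').Nonempty → E ∪ E' ≠ Set.univ → E ⊆ E' ∨ E' ⊆ E
  af : ∀ E ∈ 𝓕, ∀ E' ∈ 𝓕, E ⊂ E' → ∀ w : G, {x | x ∈ E ∧ x * w ∉ E'}.Finite

/-- Few triangles of each type meet the three parts. -/
def Few (E E' : Set G) : Prop :=
  ∀ s s' : G, {a | a ∈ E ∧ a * s ∈ E' ∧ a * s ∉ E ∧ a * s' ∉ E'}.encard ≤ 4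

/-- The vertices of the edges that leave or enter `L`. -/
def Bdy (S : Finset G) (L : Set G) : Set G := {a | ∃ s ∈ S, ¬ (a ∈ L ↔ a * s ∈ L)}

/-! ### Statements -/

/-- Job `Solve`. -/
def SolveStmt : Prop := ∀ (G : Type) [Group G] (S : Finset G) (C : ℝ), Gen S → SG S C → Sol S

/-- Job `Ray`. -/
def RayStmt : Prop :=
  ∀ (G : Type) [Group G] [Infinite G] (S : Finset G) (u : G → ℝ), Gen S → Sol S → Dir S u → Ray S u

/-- Job `Trunc`. -/
def TruncStmt : Prop :=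
  ∀ (G : Type) [Group G] (S : Finset G) (C : ℝ), Gen S → SG S C → Sol S →
    (∀ u : G → ℝ, Dir S u → Harm S u → I01 u → ∀ x y, u x = u y) → Liou S

/-- Job `LemN`. -/
def LemNStmt : Prop :=
  ∀ (G : Type) [Group G] (S : Finset G) (C : ℕ), Gen S → Coh S C → LemN S

/-- Job `Nb`. -/
def NbStmt : Prop :=
  ∀ (G : Type) [Group G] (S : Finset G) (u : G → ℝ), Gen S → Dir S u → LemN S → Nb S u

/-- Job `Tri`. -/
def TriStmt : Prop :=
  ∀ (G : Type) [Group G] (S : Finset G) (u : G → ℝ) (C : ℕ), Gen S → Coh S C → Nb S u → TriP S u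

/-- Job `Sep`. -/
def SepStmt : Prop :=
  ∀ (G : Type) [Group G] (S : Finset G) (u : G → ℝ), Gen S → LemN S → Nb S u → TriP S u → SepP S u

/-- Job `Cases`. -/
def CasesStmt : Prop :=
  ∀ (G : Type) [Group G] (S : Finset G) (u : G → ℝ) (C : ℕ), Ctx S u C → Nb S u → SepP S u → HH S u

/-- Job `Transl`. -/
def TranslStmt : Prop :=
  ∀ (G : Type) [Group G] (S : Finset G) (u : G → ℝ) (C : ℕ), Ctx S u C →
    ∀ (g : G), ∀ E ∈ Fam S u, g • E ∈ Fam S u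

/-- Job `Fam`. -/
def FamStmt : Prop :=
  ∀ (G : Type) [Group G] (S : Finset G) (u : G → ℝ) (C : ℕ), Ctx S u C → HH S u →
    (∀ (g : G), ∀ E ∈ Fam S u, g • E ∈ Fam S u) → OrdFam (Fam S u)

/-- Job `Generic`. -/
def GenericStmt : Prop :=
  ∀ (G : Type) [Group G] (S : Finset G) (u : G → ℝ), Gen S → Dir S u → ∀ α β : ℝ, α < β →
    ∃ 𝒯 ⊆ Set.Ioo α β, ¬ 𝒯.Countable ∧ ∀ t ∈ 𝒯, ∀ g : G,
      Summable (Set.indicator {a | |u a - t| ≤ DD S u a} (DD S fun x => u (g * x)))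

/-- Job `Nested`. -/
def NestedStmt : Prop :=
  ∀ (G : Type) [Group G] (S : Finset G) (u : G → ℝ) (C : ℕ), Gen S → Coh S C →
    ∀ (L : Set G) (p q : Pt S u), (∀ᶠ n in atTop, p.z n ∈ L \ Bdy S L) →
      (∀ᶠ n in atTop, q.z n ∈ Lᶜ \ Bdy S L) → ∀ Φ : ℕ → Set G, (∀ k, (Φ k).Finite) → Monotone Φ →
      ∃ Q : ℕ → Set G, Antitone Q ∧ ∀ k, Q k ⊆ Bdy S L \ Φ k ∧ (Q k).Nonempty ∧
        (∀ x ∈ Q k, ∀ y ∈ Q k, Conn S (Q k) x y) ∧
        ∃ Ψ : Set G, Ψ.Finite ∧ ¬ Same ((Q k)ᶜ \ Ψ) p q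

/-- Job `CutPt`. -/
def CutPtStmt : Prop :=
  ∀ (G : Type) [Group G] (S : Finset G) (u : G → ℝ) (C : ℕ), Gen S → Coh S C → Dir S u → Nb S u →
    ∀ (p q : Pt S u) (t : ℝ), q.val 1 < t → t < p.val 1 →
      (∀ g : G, Summable (Set.indicator {a | |u a - t| ≤ DD S u a} (DD S fun x => u (g * x)))) →
      ∃ m : Pt S u, m.val 1 = t ∧ Cut m p q

/-- Job `Seq`. -/
def SeqStmt : Prop :=
  ∀ (G : Type) [Group G] (S : Finset G) (u : G → ℝ) (C : ℕ), Ctx S u C → Nb S u → HH S u →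
    ∀ (p q : Pt S u) (𝒯 : Set ℝ), ¬ 𝒯.Countable → (∀ t ∈ 𝒯, ∃ m, m.val 1 = t ∧ Cut m p q) →
      ∃ (m : ℕ → Pt S u) (m' : Pt S u), Cut m' p q ∧ (∀ k, Cut (m k) p q) ∧
        (∀ k, EE (m 0) p ⊆ EE (m k) p) ∧ (∀ k, EE (m k) p ⊂ EE m' p) ∧
        ∀ x ∈ EE m' p, ∀ᶠ k in atTop, x ∈ EE (m k) p

/-- Job `Lim`. -/
def LimStmt : Prop :=
  ∀ (G : Type) [Group G] (S : Finset G) (C : ℕ), Gen S → SG S C → Coh S C →
    ∀ (E' : Set G) (E : ℕ → Set G) (ψ₁ ψ₂ : G → ℝ), (∀ k, E k ⊆ E') →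
      (∀ x ∈ E', ∀ᶠ k in atTop, x ∈ E k) → (∀ k, ∀ s ∈ S, {x | x ∈ E k ∧ x * s ∉ E'}.Finite) →
      (∀ k, Few (E k) E') → Dir S ψ₁ → I01 ψ₁ → (∀ k, ∀ x ∉ E k, ψ₁ x = 0) → ¬ Sq ψ₁ →
      Dir S ψ₂ → I01 ψ₂ → (∀ x ∈ E', ψ₂ x = 0) → ¬ Sq ψ₂ → False

/-- Job `Ord`. -/
def OrdStmt : Prop :=
  ∀ (G : Type) [Group G], (∀ g : G, IsOfFinOrder g → g = 1) → ∀ 𝓕 : Set (Set G), OrdFam 𝓕 →
    ∀ y ∈ 𝓕, ∀ E' ∈ 𝓕, y ⊂ E' → ∃ E ∈ 𝓕, y ⊆ E ∧ E ⊂ E' ∧ Few E E'

/-- The Liouville theorem. -/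
theorem liou (h1 : SolveStmt) (h2 : RayStmt) (h3 : TruncStmt) (h4 : LemNStmt) (h5 : NbStmt)
    (h6 : TriStmt) (h7 : SepStmt) (h8 : CasesStmt) (h9 : TranslStmt) (h10 : FamStmt)
    (h11 : GenericStmt) (h12 : CutPtStmt) (h13 : SeqStmt) (h14 : LimStmt) (h15 : OrdStmt)
    (hG : ∀ g : G, IsOfFinOrder g → g = 1) {C : ℕ} (hS : Gen S) (sg : SG S C) (coh : Coh S C) :
    Liou S := by
  have := sg.infinite
  have sol := h1 G S C hS sg
  refine h3 G S C hS sg sol fun u hu hh' _ => ?_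
  have hc : Ctx S u C := ⟨hS, sg, coh, hu, sol, h2 G S u hS sol hu⟩
  have key : ∀ x y, ¬ u y < u x := by
    intro x y hxy
    have hL := h4 G S C hS coh
    have hN := h5 G S u hS hu hL
    have hH := h8 G S u C hc hN (h7 G S u hS hL hN (h6 G S u C hS coh hN))
    have hF := h10 G S u C hc hH (h9 G S u C hc)
    obtain ⟨p, hp⟩ := hc.ray u hu x ((u x - u y) / 3) (by linarith)
    obtain ⟨q, hq⟩ := hc.ray _ hu.neg y ((u x - u y) / 3) (by linarith)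
    rw [hc.hm_eq hu hh' (by simpa using sq_zero)] at hp
    rw [hc.hm_eq hu.neg (v := fun x => -u x) (by simpa using hh'.const_mul (-1))
      (by simpa using sq_zero)] at hq
    have e1 := ge_of_tendsto' (p.conv 1) (b := u x - (u x - u y) / 3) fun n => by
      simpa using hp n
    have e2 := le_of_tendsto' (q.conv 1) (b := u y + (u x - u y) / 3) fun n => by
      have := hq n
      rw [one_mul]
      linarith
    obtain ⟨𝒯, a1, a2, a3⟩ := h11 G S u hS hu (q.val 1) (p.val 1) (by linarith)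
    obtain ⟨m, m', b1, b2, b3, b4, b5⟩ := h13 G S u C hc hN hH p q 𝒯 a2 fun t ht =>
      h12 G S u C hS coh hu hN p q t (a1 ht).1 (a1 ht).2 (a3 t ht)
    have f' : EE m' p ∈ Fam S u := ⟨m', p, q, b1, rfl⟩
    choose E c1 c2 c3 c4 using fun k =>
      h15 G hG _ hF _ (⟨m k, p, q, b2 k, rfl⟩ : EE (m k) p ∈ Fam S u) _ f' (b4 k)
    obtain ⟨ψ₁, d1, d2, d3, d4⟩ := hH.test1 (m 0) p (b2 0).1
    obtain ⟨ψ₂, d5, d6, d7, d8⟩ := hH.test2 m' p q b1
    exact h14 G S C hS sg coh _ E ψ₁ ψ₂ (fun k => (c3 k).1)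
      (fun x hx => (b5 x hx).mono fun k hk => c2 k hk)
      (fun k s _ => hF.af _ (c1 k) _ f' (c3 k) s) c4 d1 d2
      (fun k x hx => d3 x fun e => hx (c2 k (b3 k e)))
      (fun e => one_ne_zero (tendsto_nhds_unique d4 (p.tendsto_sq e))) d5 d6 d7
      fun e => one_ne_zero (tendsto_nhds_unique d8 (q.tendsto_sq e))
  exact fun x y => le_antisymm (not_lt.1 (key x y)) (not_lt.1 (key y x))

end Pool.Agent.MP_4f4d9f_gt.Hy

end

section

/-! Interface, part P: cuts in a group, rays, potentials. -/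

namespace Pool.Agent.MP_4f4d9f_gt.Ku

open Filter Topology Hy
open scoped Pointwise

variable {G : Type} [Group G]

/-- The qualitative cohomological hypotheses. -/
structure CohQ (S : Finset G) : Prop where
  c0 : ∀ w : G × G → ZMod 2, (∀ t, Tri S t → d1 w t = 0) → ∃ F, ∀ e, Edge S e → w e = d0 F e
  c1 : ∀ F : G → ZMod 2, (sp1 S (d0 F)).Finite → {x | F x ≠ 0}.Finite ∨ {x | F x ≠ 1}.Finite
  c2 : ∀ N : ℕ, ∃ M : ℕ, ∀ w : G × G → ZMod 2, (sp2 S (d1 w)).Finite →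
    (sp2 S (d1 w)).ncard ≤ N → ∃ c : G × G → ZMod 2, (sp1 S c).Finite ∧
      (∀ t, Tri S t → d1 c t = d1 w t) ∧ (sp1 S c).ncard ≤ M

/-- Exactly one of the two points lies in `L`. -/
def Cr (L : Set G) (x y : G) : Prop := ¬ (x ∈ L ↔ y ∈ L)

/-- A connected set. -/
def Cnn (S : Finset G) (A : Set G) : Prop := ∀ x ∈ A, ∀ y ∈ A, Conn S A x y

/-- Consequences of the cohomological hypotheses for subsets of the group. -/
structure Cs (S : Finset G) : Prop where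
  gen : Gen S
  one : ∀ L : Set G, (Bdy S L).Finite → L.Finite ∨ Lᶜ.Finite
  cut0 : ∀ L Q : Set G, (∀ x ∈ Bdy S L, ∀ s ∈ S, x * s ∈ Bdy S L → ¬ Cr Q x (x * s)) →
    ∃ F : Set G, ∀ x, ∀ s ∈ S, Cr F x (x * s) ↔ Cr L x (x * s) ∧ x ∈ Q
  cut1 : ∀ L Q : Set G, {x | x ∈ Bdy S L ∧ ∃ s ∈ S, x * s ∈ Bdy S L ∧ Cr Q x (x * s)}.Finite →
    ∃ F : Set G, {x | ∃ s ∈ S, ¬ (Cr F x (x * s) ↔ Cr L x (x * s) ∧ x ∈ Q)}.Finite
  uc : ∀ A : Set G, Cnn S A → Cnn S Aᶜ → Cnn S (Bdy S A)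
  par : ∀ L A : Set G, Bdy S L ⊆ A → ∀ x y, Cr L x y → ∃ (x₀ : G) (F : Set G),
    (∀ u, ∀ s ∈ S, Cr F u (u * s) ↔ Cr L u (u * s) ∧ Conn S A x₀ u) ∧ Cr F x y

/-- A path that leaves every finite set. -/
structure IsRay (S : Finset G) (z : ℕ → G) : Prop where
  step : ∀ n, (z n)⁻¹ * z (n + 1) ∈ S
  esc : Tendsto z atTop cofinite

/-- The lemma of Koenig. -/
def Kon (S : Finset G) : Prop :=
  ∀ A Z : Set G, Cnn S A → Z ⊆ A → Z.Infinite →
    {x | x ∈ Z ∧ ∃ s ∈ S, x * s ∈ A ∧ x * s ∉ Z}.Finite → ∃ z, IsRay S z ∧ ∀ n, z n ∈ Z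

/-- Nested components of the boundary of a set which separate two rays. -/
def Nst (S : Finset G) : Prop :=
  ∀ (L : Set G) (p q : ℕ → G), IsRay S p → IsRay S q → (∀ᶠ n in atTop, p n ∈ L \ Bdy S L) →
    (∀ᶠ n in atTop, q n ∈ Lᶜ \ Bdy S L) → ∀ Φ : ℕ → Set G, (∀ k, (Φ k).Finite) → Monotone Φ →
    ∃ Q : ℕ → Set G, Antitone Q ∧ ∀ k, Q k ⊆ Bdy S L \ Φ k ∧ (Q k).Nonempty ∧ Cnn S (Q k) ∧
      ∃ F : Set G, (Bdy S F \ Q k).Finite ∧ (∀ᶠ n in atTop, p n ∈ F) ∧ ∀ᶠ n in atTop, q n ∉ F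

/-- The energy form. -/
noncomputable def BB (S : Finset G) (f g : G → ℝ) : ℝ :=
  ∑ s ∈ S, ∑' x, (f (x * s) - f x) * (g (x * s) - g x)

/-- The potential of the free unit current from `a` to `b`. -/
structure Dip (S : Finset G) (ψ : G → ℝ) (a b : G) : Prop where
  dir : Dir S ψ
  rep : ∀ f, Dir S f → BB S ψ f = f b - f a

/-- The potentials with one pole at `1`. -/
structure Pot (S : Finset G) (φ : G → G → ℝ) : Prop where
  dip : ∀ y, Dip S (φ y) 1 y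
  one : ∀ y, φ y 1 = 0

/-- Facts on potentials. -/
structure DF (S : Finset G) : Prop where
  maxp : ∀ η a b, Dip S η a b → ∀ A : Set G, a ∉ A → b ∉ A → ∀ M : ℝ,
    (∀ x ∈ Bdy S A, η x ≤ M) → ∀ x ∈ A, η x ≤ M
  range : ∀ ψ a b, Dip S ψ a b → ∀ x, ψ a ≤ ψ x ∧ ψ x ≤ ψ b
  conn : ∀ ψ a b, Dip S ψ a b → ∀ t x, t < ψ x → Conn S {y | t < ψ y} b x
  slab : ∀ ψ a b, Dip S ψ a b → ∀ r₁ r₂ : ℝ, r₁ ≤ r₂ →
    En S (fun x => max r₁ (min r₂ (ψ x))) ≤ r₂ - r₁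
  lip : ∀ ψ a b, Dip S ψ a b → ∀ x, ∀ s ∈ S, |ψ (x * s) - ψ x| ≤ 1
  band : ∀ ψ a b, Dip S ψ a b → ∀ t₁ t₂ : ℝ, t₁ ≤ t₂ → ∀ T : Finset G,
    (∀ x ∈ T, t₁ ≤ ψ x ∧ ψ x ≤ t₂) → ∑ x ∈ T, DD S ψ x ^ 2 ≤ S.card * (t₂ - t₁ + 2)

/-- The oscillation of a potential on a half space of another one. -/
def Osc (S : Finset G) : Prop :=
  ∀ ψ a b η a' b', Dip S ψ a b → Dip S η a' b' → ∀ t₁ t₂ M : ℝ, t₁ < t₂ → ψ a' ≤ t₁ → ψ b' ≤ t₁ →
    (∀ T : Finset G, (∀ x ∈ T, t₁ - 1 ≤ ψ x ∧ ψ x ≤ t₂ + 1) →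
      ∑ x ∈ T, DD S η x * DD S ψ x ≤ M) →
    ∃ t, t₁ < t ∧ t < t₂ ∧ ∀ x ∈ {x | t < ψ x} ∪ Bdy S {x | t < ψ x},
      ∀ y ∈ {x | t < ψ x} ∪ Bdy S {x | t < ψ x}, |η x - η y| ≤ 4 * M / (t₂ - t₁)

/-- The energy of `η` on a half space of `ψ`. -/
noncomputable def ee (S : Finset G) (η ψ : G → ℝ) (t : ℝ) : ℝ :=
  ∑' x, Set.indicator {x | t < ψ x} (fun x => DD S η x ^ 2) x

/-- Exponential decay. -/
def Dec (S : Finset G) : Prop :=
  ∃ θ : ℝ, 0 ≤ θ ∧ θ < 1 ∧ ∀ ψ a b η a' b', Dip S ψ a b → Dip S η a' b' → ∀ t : ℝ,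
    ψ a' ≤ t → ψ b' ≤ t → ee S η ψ (t + 4) ≤ θ * ee S η ψ t

/-- Tightness. -/
def Tight (S : Finset G) (φ : G → G → ℝ) : Prop :=
  ∀ (u : G) (ε : ℝ), 0 < ε → ∃ Φ : Finset G, ∀ (x : G) (T : Finset G), Disjoint T Φ →
    ∑ a ∈ T, DD S (φ x) a * DD S (φ u) a ≤ ε

/-- Functions whose gradient is controlled by finitely many potentials are continuous. -/
def Cont (S : Finset G) (φ : G → G → ℝ) : Prop :=
  ∀ (f : G → ℝ) (C : ℝ) (U : Finset G), 0 ≤ C →
    (∀ x, ∀ s ∈ S, |f (x * s) - f x| ≤ C * ∑ u ∈ U, |φ u (x * s) - φ u x|) → ∀ ε : ℝ, 0 < ε →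
    ∃ (W : Finset G) (d : ℝ), 0 < d ∧ ∀ x y, (∀ w ∈ W, |φ w x - φ w y| < d) → |f x - f y| < ε

variable {S : Finset G}

/-! ### Boundaries and rays -/

section Bdy

variable {L L' : Set G} {x y : G}

omit [Group G] in
theorem Cr.symm (h : Cr L x y) : Cr L y x := fun e => h e.symm

omit [Group G] in
theorem cr_compl : Cr Lᶜ x y ↔ Cr L x y := not_congr not_iff_not

theorem cr_smul (g : G) : Cr (g • L) (g * x) (g * y) ↔ Cr L x y := by
  simp only [Cr, ← smul_eq_mul, Set.smul_mem_smul_set_iff]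

theorem mem_bdy : x ∈ Bdy S L ↔ ∃ s ∈ S, Cr L x (x * s) := Iff.rfl

theorem Cr.left (h : Cr L x y) (e : x⁻¹ * y ∈ S) : x ∈ Bdy S L :=
  ⟨_, e, by rwa [mul_inv_cancel_left]⟩

theorem Cr.right (hS : Gen S) (h : Cr L x y) (e : x⁻¹ * y ∈ S) : y ∈ Bdy S L :=
  h.symm.left (hS.symm e)

theorem bdy_compl : Bdy S Lᶜ = Bdy S L :=
  Set.ext fun _ => exists_congr fun _ => and_congr_right fun _ => cr_compl

theorem bdy_smul (g : G) : Bdy S (g • L) = g • Bdy S L := by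
  ext x
  obtain ⟨x, rfl⟩ := (Group.mulLeft_bijective g).2 x
  change _ ↔ g • x ∈ _
  simp only [Set.smul_mem_smul_set_iff, mem_bdy, mul_assoc, cr_smul]

theorem bdy_inter : Bdy S (L ∩ L') ⊆ Bdy S L ∪ Bdy S L' := by
  rintro x ⟨s, hs, h⟩
  by_contra e
  simp only [Set.mem_union, not_or, mem_bdy, not_exists, not_and, Cr, not_not] at e
  exact h (and_congr (e.1 s hs) (e.2 s hs))

theorem bdy_finite (hS : Gen S) (h : L.Finite) : (Bdy S L).Finite := by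
  refine (h.mul S.finite_toSet).subset ?_
  rintro x ⟨s, hs, e⟩
  by_cases hx : x ∈ L
  · exact ⟨x, hx, 1, hS.one, mul_one x⟩
  · exact ⟨x * s, by_contra fun k => e (iff_of_false hx k), s⁻¹, hS.inv s hs, by simp⟩

theorem Cnn.smul (g : G) (h : Cnn S L) : Cnn S (g • L) := by
  rintro _ ⟨x, hx, rfl⟩ _ ⟨y, hy, rfl⟩
  exact (h x hx y hy).smul g

theorem cnn_comp (hS : Gen S) (A : Set G) (x : G) : Cnn S {y | Conn S A x y} :=
  fun _ ha _ hb => ((Conn.comp ha).symm hS).trans (Conn.comp hb)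

theorem cnn_univ (hS : Gen S) : Cnn S (Set.univ : Set G) := fun x _ y _ => hS.conn_univ x y

/-- A set without crossing edges inside `A` does not separate points joined in `A`. -/
theorem conn_not_cr {A : Set G} (h : Conn S A x y)
    (e : ∀ a ∈ A, ∀ s ∈ S, a * s ∈ A → ¬ Cr L a (a * s)) : ¬ Cr L x y :=
  h.ind (P := fun y => ¬ Cr L x y) (fun k => k Iff.rfl) fun a b ha hb k ih => by
    have := e a ha.right _ k (by rwa [mul_inv_cancel_left])
    rw [mul_inv_cancel_left] at this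
    exact fun k' => k' ((not_not.1 ih).trans (not_not.1 this))

variable {z : ℕ → G}

theorem IsRay.notMem (h : IsRay S z) {Φ : Set G} (hΦ : Φ.Finite) : ∀ᶠ n in atTop, z n ∉ Φ :=
  h.esc hΦ.compl_mem_cofinite

theorem IsRay.conn (h : IsRay S z) {A : Set G} {k : ℕ} (hk : ∀ n, k ≤ n → z n ∈ A) :
    ∀ n, k ≤ n → Conn S A (z k) (z n) := fun n hn => by
  induction n, hn using Nat.le_induction with
  | base => exact Conn.refl (hk k le_rfl)
  | succ n hn ih => exact ih.tail (hk _ (by omega)) (h.step n)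

theorem IsRay.smul (h : IsRay S z) (g : G) : IsRay S fun n => g * z n :=
  ⟨fun n => by simpa [mul_assoc] using h.step n,
    (Function.Injective.tendsto_cofinite (mul_right_injective g)).comp h.esc⟩

/-- A ray that eventually avoids the boundary is eventually on one side. -/
theorem IsRay.side (h : IsRay S z) (e : ∀ᶠ n in atTop, z n ∉ Bdy S L) :
    (∀ᶠ n in atTop, z n ∈ L) ∨ ∀ᶠ n in atTop, z n ∉ L := by
  obtain ⟨k, hk⟩ := eventually_atTop.1 e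
  have key : ∀ n, k ≤ n → (z k ∈ L ↔ z n ∈ L) := fun n hn => not_not.1
    (conn_not_cr (L := L) (h.conn (A := (Bdy S L)ᶜ) hk n hn) fun a ha s hs _ c => ha ⟨s, hs, c⟩)
  by_cases c : z k ∈ L
  · exact Or.inl (eventually_atTop.2 ⟨k, fun n hn => (key n hn).1 c⟩)
  · exact Or.inr (eventually_atTop.2 ⟨k, fun n hn e => c ((key n hn).2 e)⟩)

end Bdy

/-! ### The energy form -/

section BB

variable {f g h ψ η : G → ℝ} {a b c : G}

theorem bb_comm (f g : G → ℝ) : BB S f g = BB S g f := by simp only [BB, mul_comm]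

theorem en_eq (f : G → ℝ) : En S f = BB S f f := by simp only [En, BB, sq]

theorem en_nonneg (S : Finset G) (f : G → ℝ) : 0 ≤ En S f :=
  Finset.sum_nonneg fun _ _ => tsum_nonneg fun _ => sq_nonneg _

theorem bb_summable (hf : Dir S f) (hg : Dir S g) {s : G} (hs : s ∈ S) :
    Summable fun x => (f (x * s) - f x) * (g (x * s) - g x) := (hf s hs).summable_mul (hg s hs)

theorem bb_add (hf : Dir S f) (hg : Dir S g) (hh : Dir S h) :
    BB S f (fun x => g x + h x) = BB S f g + BB S f h := by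
  rw [BB, BB, BB, ← Finset.sum_add_distrib]
  refine Finset.sum_congr rfl fun s hs => ?_
  rw [← (bb_summable hf hg hs).tsum_add (bb_summable hf hh hs)]
  exact tsum_congr fun x => by ring

theorem bb_const_mul (r : ℝ) : BB S f (fun x => r * g x) = r * BB S f g := by
  rw [BB, BB, Finset.mul_sum]
  refine Finset.sum_congr rfl fun s _ => ?_
  rw [← tsum_mul_left]
  exact tsum_congr fun x => by ring

theorem bb_neg : BB S f (fun x => -g x) = -BB S f g := by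
  simpa using bb_const_mul (S := S) (f := f) (g := g) (-1)

theorem bb_sub (hf : Dir S f) (hg : Dir S g) (hh : Dir S h) :
    BB S f (fun x => g x - h x) = BB S f g - BB S f h := by
  simpa [sub_eq_add_neg, bb_neg] using bb_add hf hg hh.neg

theorem bb_left (u : G) : BB S (fun x => f (u * x)) (fun x => g (u * x)) = BB S f g :=
  Finset.sum_congr rfl fun s _ => by
    simpa [mul_assoc] using
      (Equiv.mulLeft u).tsum_eq fun x => (f (x * s) - f x) * (g (x * s) - g x)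

/-- A termwise comparison of the energy. -/
theorem en_le_bb (hf : Dir S f) (hg : Dir S g) (e : ∀ x, ∀ s ∈ S,
    (g (x * s) - g x) ^ 2 ≤ (f (x * s) - f x) * (g (x * s) - g x)) : En S g ≤ BB S f g :=
  Finset.sum_le_sum fun s hs =>
    Summable.tsum_le_tsum (fun x => e x s hs) (hg s hs) (bb_summable hf hg hs)

theorem sq_le_en (hf : Dir S f) (x : G) {s : G} (hs : s ∈ S) :
    (f (x * s) - f x) ^ 2 ≤ En S f :=
  (Summable.le_tsum (hf s hs) x fun _ _ => sq_nonneg _).trans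
    (Finset.single_le_sum (f := fun s => ∑' x, (f (x * s) - f x) ^ 2)
      (fun _ _ => tsum_nonneg fun _ => sq_nonneg _) hs)

theorem const_of_en (hS : Gen S) (hf : Dir S f) (e : En S f ≤ 0) (x y : G) : f x = f y := by
  have key : ∀ x, f x = f 1 := fun x => by
    induction x using hS.ind with
    | h1 => rfl
    | h x s hs ih =>
      have := (sq_le_en hf x hs).trans e
      nlinarith [sq_nonneg (f (x * s) - f x)]
  rw [key x, key y]

theorem Dip.neg (h : Dip S ψ a b) : Dip S (fun x => -ψ x) b a :=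
  ⟨h.dir.neg, fun f hf => by rw [bb_comm, bb_neg, bb_comm, h.rep f hf, neg_sub]⟩

theorem Dip.sub (h : Dip S ψ a b) (h' : Dip S η a c) : Dip S (fun x => ψ x - η x) c b :=
  ⟨h.dir.sub h'.dir, fun f hf => by
    rw [bb_comm, bb_sub hf h.dir h'.dir, bb_comm, h.rep f hf, bb_comm, h'.rep f hf]; ring⟩

theorem Dip.left (h : Dip S ψ a b) (u : G) :
    Dip S (fun x => ψ (u * x)) (u⁻¹ * a) (u⁻¹ * b) :=
  ⟨h.dir.mul_left u, fun f hf => by
    rw [← h.rep _ (hf.mul_left u⁻¹), ← bb_left (f := ψ) u]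
    simp only [inv_mul_cancel_left]⟩

theorem Dip.add_const (h : Dip S ψ a b) (r : ℝ) : Dip S (fun x => ψ x + r) a b :=
  ⟨h.dir.add (dir_const r), fun f hf => by
    rw [← h.rep f hf]
    simp only [BB, add_sub_add_right_eq_sub]⟩

/-- Potentials with the same poles differ by a constant. -/
theorem Dip.unique (hS : Gen S) (h : Dip S ψ a b) (h' : Dip S η a b) (x y : G) :
    ψ x - η x = ψ y - η y :=
  const_of_en hS (h.sub h').dir (by rw [en_eq, (h.sub h').rep _ (h.sub h').dir, sub_self]) x y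

variable {φ : G → G → ℝ}

theorem Pot.dir (h : Pot S φ) (y : G) : Dir S (φ y) := (h.dip y).dir

theorem Pot.symm (h : Pot S φ) (x y : G) : φ x y = φ y x := by
  have h1 := (h.dip x).rep _ (h.dir y)
  have h2 := (h.dip y).rep _ (h.dir x)
  rw [bb_comm, h2, h.one, h.one] at h1
  linarith

theorem Pot.transl (hS : Gen S) (h : Pot S φ) (y g x : G) :
    φ y (g * x) = φ (g⁻¹ * y) x - φ g⁻¹ x + φ y g := by
  have h1 := (h.dip y).left g
  rw [mul_one] at h1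
  have := h1.unique hS ((h.dip (g⁻¹ * y)).sub (h.dip g⁻¹)) x 1
  simp only [h.one, mul_one] at this
  linarith

theorem Pot.range (hD : DF S) (h : Pot S φ) (u x : G) : 0 ≤ φ u x ∧ φ u x ≤ φ u u :=
  h.one u ▸ hD.range _ _ _ (h.dip u) x

end BB

/-! ### Statements -/

/-- Job `Cs`. -/
def CsStmt : Prop := ∀ (G : Type) [Group G] (S : Finset G), Gen S → CohQ S → Cs S

/-- Job `Kon`. -/
def KonStmt : Prop := ∀ (G : Type) [Group G] (S : Finset G), Gen S → Kon S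

/-- Job `Nst`. -/
def NstStmt : Prop := ∀ (G : Type) [Group G] (S : Finset G), Gen S → CohQ S → Nst S

/-- Job `Pot`. -/
def PotStmt : Prop := ∀ (G : Type) [Group G] (S : Finset G), Gen S → ∃ φ, Pot S φ

/-- Job `DF`. -/
def DFStmt : Prop := ∀ (G : Type) [Group G] (S : Finset G), Gen S → DF S

/-- Job `Osc`. -/
def OscStmt : Prop := ∀ (G : Type) [Group G] (S : Finset G), Cs S → DF S → Osc S

/-- Job `Dec`. -/
def DecStmt : Prop := ∀ (G : Type) [Group G] (S : Finset G), Gen S → DF S → Osc S → Dec S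

/-- Job `Tight`. -/
def TightStmt : Prop :=
  ∀ (G : Type) [Group G] (S : Finset G) (φ : G → G → ℝ), Gen S → DF S → Dec S → Pot S φ →
    Tight S φ

/-- Job `Cont`. -/
def ContStmt : Prop :=
  ∀ (G : Type) [Group G] (S : Finset G) (φ : G → G → ℝ), Gen S → Pot S φ → Tight S φ → Cont S φ

end Pool.Agent.MP_4f4d9f_gt.Ku

end

section

/-! Facts on potentials. -/

namespace Pool.Agent.MP_4f4d9f_gt.Ku

open Filter Topology Hy

namespace DFL

variable {G : Type} [Group G] {S : Finset G} {ψ f : G → ℝ} {a b : G}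

theorem key (h : Dip S ψ a b) (e : ∀ x, ∀ s ∈ S,
    (f (x * s) - f x) ^ 2 ≤ (ψ (x * s) - ψ x) * (f (x * s) - f x)) :
    Dir S f ∧ En S f ≤ f b - f a := by
  have hf : Dir S f := fun s hs => (h.dir s hs).of_le fun x => sq_le_sq.1 (by
    nlinarith [e x s hs, sq_nonneg (f (x * s) - f x - (ψ (x * s) - ψ x))])
  exact ⟨hf, h.rep f hf ▸ en_le_bb h.dir hf e⟩

theorem pos_step (u v M : ℝ) :
    (max (u - M) 0 - max (v - M) 0) ^ 2 ≤ (u - v) * (max (u - M) 0 - max (v - M) 0) := by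
  rcases le_total (u - M) 0 with h1 | h1 <;> rcases le_total (v - M) 0 with h2 | h2
  · simp [max_eq_right h1, max_eq_right h2]
  · rw [max_eq_right h1, max_eq_left h2]
    nlinarith
  · rw [max_eq_left h1, max_eq_right h2]
    nlinarith
  · rw [max_eq_left h1, max_eq_left h2]
    nlinarith

theorem cross_step {u v M : ℝ} (h : u ≤ M ∨ v ≤ M) :
    (max (u - M) 0 - 0) ^ 2 ≤ (u - v) * (max (u - M) 0 - 0) := by
  rcases le_total (u - M) 0 with h1 | h1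
  · simp [max_eq_right h1]
  · rw [max_eq_left h1]
    rcases h with h | h
    · rw [show u - M = 0 by linarith]
      simp
    · nlinarith

theorem trunc (hS : Gen S) (h : Dip S ψ a b) {A : Set G} {M : ℝ} (hb : b ∈ A → ψ b ≤ M)
    (H : ∀ x ∈ A, ∀ y ∉ A, x⁻¹ * y ∈ S → ψ x ≤ M ∨ ψ y ≤ M) : ∀ x ∈ A, ψ x ≤ M := by
  intro x hx
  obtain ⟨h1, h2⟩ := key (f := A.indicator fun x => max (ψ x - M) 0) h fun y s hs => by
    have e : y⁻¹ * (y * s) ∈ S := by rwa [inv_mul_cancel_left]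
    by_cases c1 : y ∈ A <;> by_cases c2 : y * s ∈ A
    · rw [Set.indicator_of_mem c1, Set.indicator_of_mem c2]
      exact pos_step _ _ _
    · rw [Set.indicator_of_mem c1, Set.indicator_of_notMem c2]
      have := cross_step (H y c1 _ c2 e)
      nlinarith
    · rw [Set.indicator_of_notMem c1, Set.indicator_of_mem c2]
      exact cross_step (H _ c2 y c1 (hS.symm e))
    · rw [Set.indicator_of_notMem c1, Set.indicator_of_notMem c2]
      simp
  have h3 : A.indicator (fun x => max (ψ x - M) 0) b = 0 := by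
    by_cases c : b ∈ A
    · rw [Set.indicator_of_mem c, max_eq_right (by linarith [hb c])]
    · exact Set.indicator_of_notMem c _
  have h4 : 0 ≤ A.indicator (fun x => max (ψ x - M) 0) a :=
    Set.indicator_nonneg (fun y _ => le_max_right _ _) a
  have h5 := const_of_en hS h1 (by linarith) x b
  rw [h3, Set.indicator_of_mem hx] at h5
  linarith [le_max_left (ψ x - M) 0]

theorem upper (hS : Gen S) (h : Dip S ψ a b) (x : G) : ψ x ≤ ψ b :=
  trunc hS h (A := Set.univ) (fun _ => le_rfl) (fun _ _ _ hy => absurd trivial hy) x trivial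

theorem clamp_step {r₁ r₂ : ℝ} (u v : ℝ) :
    (max r₁ (min r₂ u) - max r₁ (min r₂ v)) ^ 2 ≤
      (u - v) * (max r₁ (min r₂ u) - max r₁ (min r₂ v)) := by
  have k : ∀ u v : ℝ, v ≤ u → 0 ≤ max r₁ (min r₂ u) - max r₁ (min r₂ v) ∧
      max r₁ (min r₂ u) - max r₁ (min r₂ v) ≤ u - v := fun u v h => by
    refine ⟨sub_nonneg.2 (max_le_max le_rfl (min_le_min le_rfl h)), ?_⟩
    simp only [max_def, min_def]
    split_ifs <;> linarith
  rcases le_total v u with h | h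
  · obtain ⟨k1, k2⟩ := k u v h
    nlinarith
  · obtain ⟨k1, k2⟩ := k v u h
    nlinarith

theorem slab (h : Dip S ψ a b) {r₁ r₂ : ℝ} (hr : r₁ ≤ r₂) :
    Dir S (fun x => max r₁ (min r₂ (ψ x))) ∧ En S (fun x => max r₁ (min r₂ (ψ x))) ≤ r₂ - r₁ := by
  obtain ⟨h1, h2⟩ := key (f := fun x => max r₁ (min r₂ (ψ x))) h fun x s _ => clamp_step _ _
  refine ⟨h1, h2.trans ?_⟩
  have e1 : max r₁ (min r₂ (ψ b)) ≤ r₂ := max_le hr (min_le_left _ _)
  have e2 : r₁ ≤ max r₁ (min r₂ (ψ a)) := le_max_left _ _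
  linarith

theorem clamp_eq {r₁ r₂ u : ℝ} (h1 : r₁ ≤ u) (h2 : u ≤ r₂) : max r₁ (min r₂ u) = u := by
  rw [min_eq_right h2, max_eq_right h1]

theorem lip (h : Dip S ψ a b) (x : G) {s : G} (hs : s ∈ S) : |ψ (x * s) - ψ x| ≤ 1 := by
  obtain ⟨h1, h2⟩ := slab h (r₁ := min (ψ x) (ψ (x * s))) (r₂ := max (ψ x) (ψ (x * s))) min_le_max
  have h3 := (sq_le_en h1 x hs).trans h2
  rw [clamp_eq (min_le_right _ _) (le_max_right _ _), clamp_eq (min_le_left _ _) (le_max_left _ _),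
    max_sub_min_eq_abs, ← sq_abs] at h3
  nlinarith [abs_nonneg (ψ (x * s) - ψ x)]

theorem band (h : Dip S ψ a b) {t₁ t₂ : ℝ} (ht : t₁ ≤ t₂) (T : Finset G)
    (hT : ∀ x ∈ T, t₁ ≤ ψ x ∧ ψ x ≤ t₂) : ∑ x ∈ T, DD S ψ x ^ 2 ≤ S.card * (t₂ - t₁ + 2) := by
  obtain ⟨h1, h2⟩ := slab h (r₁ := t₁ - 1) (r₂ := t₂ + 1) (by linarith)
  set g : G → ℝ := fun x => max (t₁ - 1) (min (t₂ + 1) (ψ x)) with hg
  calc ∑ x ∈ T, DD S ψ x ^ 2 ≤ ∑ x ∈ T, S.card * ∑ s ∈ S, (g (x * s) - g x) ^ 2 := by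
        refine Finset.sum_le_sum fun x hx => sq_sum_le_card_mul_sum_sq.trans (le_of_eq ?_)
        congr 1
        refine Finset.sum_congr rfl fun s hs => ?_
        obtain ⟨k1, k2⟩ := abs_le.1 (lip h x hs)
        obtain ⟨k3, k4⟩ := hT x hx
        simp only [hg]
        rw [sq_abs, clamp_eq (u := ψ (x * s)) (by linarith) (by linarith),
          clamp_eq (u := ψ x) (by linarith) (by linarith)]
    _ = S.card * ∑ s ∈ S, ∑ x ∈ T, (g (x * s) - g x) ^ 2 := by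
        rw [← Finset.mul_sum, Finset.sum_comm]
    _ ≤ S.card * En S g := by
        refine mul_le_mul_of_nonneg_left (Finset.sum_le_sum fun s hs => ?_) (Nat.cast_nonneg _)
        exact Summable.sum_le_tsum T (fun _ _ => sq_nonneg _) (h1 s hs)
    _ ≤ S.card * (t₂ - t₁ + 2) :=
        mul_le_mul_of_nonneg_left (h2.trans (le_of_eq (by ring))) (Nat.cast_nonneg _)

end DFL

theorem df_stmt : DFStmt := by
  intro G _ S hS
  refine ⟨fun η a b h A _ hb M hM => DFL.trunc hS h (fun c => absurd c hb) fun x hx y hy e => ?_,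
    fun ψ a b h x => ⟨?_, DFL.upper hS h x⟩, fun ψ a b h t x hx => ?_,
    fun ψ a b h r₁ r₂ hr => (DFL.slab h hr).2, fun ψ a b h x s hs => DFL.lip h x hs,
    fun ψ a b h t₁ t₂ ht T hT => DFL.band h ht T hT⟩
  · exact Or.inl (hM x (Cr.left (fun k => hy (k.1 hx)) e))
  · exact neg_le_neg_iff.1 (DFL.upper hS h.neg x)
  · by_contra hb
    refine absurd (DFL.trunc hS h (A := {y | Conn S {y | t < ψ y} x y}) (M := t)
      (fun c => absurd (Conn.symm hS c) hb) (fun u hu v hv e => Or.inr ?_) x (Conn.refl hx))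
      (not_le.2 hx)
    exact not_lt.1 fun k => hv (Conn.tail hu k e)

end Pool.Agent.MP_4f4d9f_gt.Ku

end

section

/-! Interface, part K: a compactification of the group, its dynamics and its cut points. -/

namespace Pool.Agent.MP_4f4d9f_gt.Ku

open Filter Topology Hy
open scoped Pointwise

section Defs

variable (G : Type) [Group G] {X : Type} [MetricSpace X] [MulAction G X]

/-- Group elements that leave every finite set and move the base point towards `ξ`. -/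
def nf (b ξ : X) : Filter G := comap (fun x : G => x • b) (𝓝 ξ) ⊓ cofinite

/-- The limit set. -/
def KK (b : X) : Set X := {ξ | (nf G b ξ).NeBot}

/-- The convergence property. -/
structure Cv (b : X) : Prop where
  notMem : b ∉ KK G b
  conv : ∀ ε : ℝ, 0 < ε →
    {g : G | ∃ z, ε ≤ dist (g • z) (g • b) ∧ ε ≤ dist z (g⁻¹ • b)}.Finite

variable {G} in
/-- A cut with root `c`. -/
def Sp (b c : X) (F : Set G) : Prop := ∀ ξ, ξ ≠ c → F ∈ nf G b ξ ∨ Fᶜ ∈ nf G b ξ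

/-- `c` separates `ξ` from `η`. -/
def Sepa (b c ξ η : X) : Prop :=
  ξ ∈ KK G b ∧ η ∈ KK G b ∧ ξ ≠ c ∧ η ≠ c ∧
    ∃ F : Set G, Sp b c F ∧ F ∈ nf G b ξ ∧ Fᶜ ∈ nf G b η

/-- Cut points. -/
def CutP (b c : X) : Prop := ∃ ξ η, Sepa G b c ξ η

/-- The points that `c` does not separate from `z`. -/
def Cls (b c z : X) : Set X := {ξ | ξ ∈ KK G b ∧ ξ ≠ c ∧ ¬ Sepa G b c z ξ}

/-- Intervals of cut points are finite. -/
def Disc (b : X) : Prop := ∀ m m', CutP G b m → CutP G b m' → {c | Sepa G b c m m'}.Finite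

/-- Point picking. -/
def Zal (b : X) : Prop :=
  ∀ ρ : ℝ, 0 < ρ → ∃ D : ℕ → Set G, (∀ i, (D i).Finite) ∧ ∀ I : ℕ, ∃ ε : ℝ, 0 < ε ∧
    ∀ o ∈ KK G b, ∀ 𝓛 : Set G, {x | x ∈ 𝓛 ∧ ε ≤ dist (x • b) o}.Finite →
      ∀ g₀ ∈ 𝓛, ρ ≤ dist (g₀ • b) o → ∃ g ∈ 𝓛,
        (∀ i ≤ I, ∀ x ∈ 𝓛, 1 / ((i : ℝ) + 1) ≤ dist ((g⁻¹ * x) • b) (g⁻¹ • o) → g⁻¹ * x ∈ D i) ∧
        ∀ z, 1 / ((I : ℝ) + 1) ≤ dist z (g⁻¹ • o) → ε ≤ dist (g • z) o

/-- Stabilisers of points accumulate at no more than one other point. -/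
def VC (b : X) : Prop :=
  ∀ (Γ : Subgroup G) (c α : X), (∀ g ∈ Γ, g • c = c) → α ≠ c → (∃ᶠ g in nf G b α, g ∈ Γ) →
    (∀ α', (∃ᶠ g in nf G b α', g ∈ Γ) → α' = α ∨ α' = c) ∧ ∃ g ∈ Γ, g • α = α ∧
      (∀ ξ, ξ ≠ α → Tendsto (fun j : ℕ => g⁻¹ ^ j • ξ) atTop (𝓝 c)) ∧
      ∀ ξ, ξ ≠ c → Tendsto (fun j : ℕ => g ^ j • ξ) atTop (𝓝 α)

/-- Parabolic points are not conical. -/
def Prb (b : X) : Prop :=
  ∀ (η : G) (c : X), ¬ IsOfFinOrder η →
    (∀ ξ, ξ ≠ c → (Subgroup.zpowers η : Set G)ᶜ ∈ nf G b ξ) →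
    ∀ ε : ℝ, 0 < ε → {v : G | ε ≤ dist (v • b) (v • c)}.Finite

/-- A block: a maximal set of points no two of which are separated. -/
structure Blk (b : X) (B : Set X) : Prop where
  sub : B ⊆ KK G b
  nosep : ∀ c, ∀ ξ ∈ B, ∀ η ∈ B, ¬ Sepa G b c ξ η
  cover : ∀ ξ ∈ KK G b, ξ ∉ B → ∃ c, ∃ u ∈ B, Sepa G b c u ξ
  two : ∃ m ∈ B, ∃ m' ∈ B, m ≠ m' ∧ CutP G b m ∧ CutP G b m'

variable {G}

/-- Limits of rays in `V`. -/
def Ac (S : Finset G) (b : X) (V : Set G) (ξ : X) : Prop :=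
  ∃ z, IsRay S z ∧ (∀ n, z n ∈ V) ∧ Tendsto (fun n => z n • b) atTop (𝓝 ξ)

/-- The majority of three points lies in `L`. -/
def Mj (a : Fin 3 → X) (L : Set X) (x : G) : Prop := ∃ i, ∀ j, j ≠ i → x • a j ∈ L

/-- The compactification by potentials. -/
structure Kur (φ : G → G → ℝ) (b : X) (co : G → X → ℝ) : Prop where
  cont : ∀ u, Continuous (co u)
  inj : ∀ z z', (∀ u, co u z = co u z') → z = z'
  orb : ∀ u x : G, co u (x • b) = φ u x
  dense : DenseRange fun x : G => x • b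

/-- Local connectivity. -/
def Lc (S : Finset G) (b : X) : Prop :=
  ∀ ξ, ∀ F : Set G, (Bdy S F)ᶜ ∈ nf G b ξ → F ∈ nf G b ξ ∨ Fᶜ ∈ nf G b ξ

/-- Bump functions. -/
def Bump (S : Finset G) (b : X) : Prop :=
  ∀ ξ ∈ KK G b, ∀ N ∈ nf G b ξ, ∃ ψ, Dir S ψ ∧ I01 ψ ∧ (∀ x ∉ N, ψ x = 0) ∧ ¬ Sq ψ

/-- Weak cuts. -/
def Wc (S : Finset G) (b : X) : Prop :=
  ∀ ξ η, Ac S b Set.univ ξ → Ac S b Set.univ η → ξ ≠ η → ∀ T : Set X, T.Finite →
    ∃ o, o ∉ T ∧ Ac S b Set.univ o ∧ ∀ ε : ℝ, 0 < ε → ∃ F : Set G,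
      {x | x ∈ Bdy S F ∧ ε ≤ dist (x • b) o}.Finite ∧ (∃ᶠ x in nf G b ξ, x ∈ F) ∧
        ∃ᶠ x in nf G b η, x ∉ F

/-- Two rays with different limits. -/
def Two (S : Finset G) (b : X) : Prop := ∃ ξ η, Ac S b Set.univ ξ ∧ Ac S b Set.univ η ∧ ξ ≠ η

/-- All that is used of the compactification. -/
structure Bd (S : Finset G) (b : X) : Prop where
  cv : Cv G b
  cs : Cs S
  kon : Kon S
  tf : ∀ g : G, IsOfFinOrder g → g = 1
  lc : Lc S b
  bump : Bump S b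
  wc : Wc S b
  two : Two S b

/-- Dynamics on the limit set. -/
structure Dyn (S : Finset G) (b : X) : Prop where
  perf : ∀ ξ ∈ KK G b, ∀ O ∈ 𝓝 ξ, (O ∩ KK G b).Infinite
  three : ∃ a : Fin 3 → X, Function.Injective a ∧ ∀ i, Ac S b Set.univ (a i)
  nofix : ∀ c : X, ∃ g : G, g • c ≠ c
  dens : ∀ m : X, ∀ α ∈ KK G b, ∀ O ∈ 𝓝 α, ∃ᶠ x in nf G b α, x • m ∈ O

/-- The rescaling lemma. -/
def LemR (S : Finset G) (b : X) : Prop :=
  ∀ (H : Subgroup G) (V : Set G), (∀ h ∈ H, ∀ x ∈ V, h * x ∈ V) →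
    (∃ T : Set G, T.Finite ∧ ∀ x ∈ V, ∃ h ∈ H, h⁻¹ * x ∈ T) → Cnn S V →
    ∀ a : Fin 3 → X, Function.Injective a → (∀ i, Ac S b V (a i)) →
    ∃ (k : X) (P : Set G) (π : Set X),
      (∀ ξ, ξ ≠ k → {x | x ∈ V ∧ ∃ s ∈ S, x * s ∈ V ∧ Cr P x (x * s)}ᶜ ∈ nf G b ξ) ∧
      (∀ z, IsRay S z → (∀ n, z n ∈ V) → ∀ ξ, ξ ≠ k → Tendsto (fun n => z n • b) atTop (𝓝 ξ) →
        ∀ᶠ n in atTop, (z n ∈ P ↔ ξ ∈ π)) ∧
      ∃ ξ η, ξ ≠ k ∧ η ≠ k ∧ Ac S b V ξ ∧ Ac S b V η ∧ ξ ∈ π ∧ η ∉ π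

/-- The labelling of the group by the points at which it is attached to a block. -/
structure Lab (S : Finset G) (b : X) (B : Set X) (lam : G → X) (H : Subgroup G) : Prop where
  eqv : ∀ h ∈ H, ∀ x, lam (h * x) = h • lam x
  orb : ∃ T : Set G, T.Finite ∧ ∀ x, ∀ s ∈ S, lam (x * s) ≠ lam x → ∃ h ∈ H, h⁻¹ * x ∈ T
  opn : ∀ x, ∃ O : Set X, IsOpen O ∧ (O ∩ KK G b).Nonempty ∧
    ∀ ξ ∈ O ∩ KK G b, ∃ᶠ y in nf G b ξ, lam y = lam x
  out : ∀ ξ ∈ KK G b, ξ ∉ B → ∃ c, c ≠ ξ ∧ ∃ᶠ y in nf G b ξ, lam y = c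
  non : ∃ x y, lam x ≠ lam y

/-- The places where the label changes. -/
def VA (S : Finset G) (lam : G → X) : Set G := {x | ∃ s ∈ S, lam (x * s) ≠ lam x}

/-- The component of `x₀`. -/
def VV (S : Finset G) (lam : G → X) (x₀ : G) : Set G := {y | Conn S (VA S lam) x₀ y}

/-- The cell of `x`: paths may not change the label inside `V`. -/
def cel (S : Finset G) (lam : G → X) (V : Set G) (x : G) : Set G :=
  {y | Relation.ReflTransGen (fun u v => u⁻¹ * v ∈ S ∧ (u ∈ V → lam v = lam u)) x y}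

/-- The properties of the cells. -/
structure Cel (S : Finset G) (b : X) (B : Set X) (lam : G → X) (H : Subgroup G) (V : Set G)
    (D : G → Set G) : Prop where
  inv : ∀ h ∈ H, ∀ x ∈ V, h * x ∈ V
  orb : ∃ T : Set G, T.Finite ∧ ∀ x ∈ V, ∃ h ∈ H, h⁻¹ * x ∈ T
  conn : Cnn S V
  lim : ∀ ξ, (∃ᶠ x in nf G b ξ, x ∈ V) → ξ ∈ B
  self : ∀ x, x ∈ D x
  eqv : ∀ x, ∀ y ∈ D x, D y = D x
  smul : ∀ h ∈ H, ∀ x, D (h * x) = h • D x
  lsm : ∀ h ∈ H, ∀ x, lam (h * x) = h • lam x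
  out : ∀ x, Bdy S (D x) ⊆ V
  bin : ∀ x ∈ V, x ∈ Bdy S (D x)
  bcon : ∀ x, Cnn S (Bdy S (D x))
  lconst : ∀ x ∈ V, ∀ y ∈ V, y ∈ D x → lam y = lam x
  only : ∀ x ∈ V, ∀ ξ, ξ ≠ lam x → (Bdy S (D x))ᶜ ∈ nf G b ξ

/-- Two cells with infinite boundary and different labels. -/
def TwoC (S : Finset G) (lam : G → X) (V : Set G) (D : G → Set G) : Prop :=
  ∃ x ∈ V, ∃ y ∈ V, lam x ≠ lam y ∧ (Bdy S (D x)).Infinite ∧ (Bdy S (D y)).Infinite

/-- All but finitely many cells are small. -/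
def Null (S : Finset G) (b : X) (V : Set G) (D : G → Set G) : Prop :=
  ∀ ε : ℝ, 0 < ε → ∃ Z : Set G, Z.Finite ∧ ∀ x ∈ V, Disjoint (D x) Z →
    ∀ y ∈ Bdy S (D x), dist (y • b) (x • b) < ε

/-- An invariant nested family with a distinguished member. -/
structure Fam3 (𝓕 : Set (Set G)) (Es : Set G) : Prop where
  mem : Es ∈ 𝓕
  smul : ∀ (g : G), ∀ E ∈ 𝓕, g • E ∈ 𝓕
  ne : ∀ E ∈ 𝓕, E.Nonempty
  proper : ∀ E ∈ 𝓕, E ≠ Set.univ
  chain : ∀ E ∈ 𝓕, ∀ E' ∈ 𝓕, (E ∩ E').Nonempty → E ∪ E' ≠ Set.univ → E ⊆ E' ∨ E' ⊆ E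
  af3 : ∀ A ∈ 𝓕, ∀ B ∈ 𝓕, ∀ C ∈ 𝓕, ∀ D ∈ 𝓕, A ⊂ B → B ⊂ C → C ⊂ D →
    ∀ w : G, {x | x ∈ A ∧ x * w ∉ D}.Finite
  afs : ∀ A ∈ 𝓕, A ⊂ Es → ∀ w : G, {x | x ∈ A ∧ x * w ∉ Es}.Finite

/-- There is no strictly increasing sequence with nested translates. -/
def OrdLim (S : Finset G) : Prop :=
  ∀ E : ℕ → Set G, StrictMono E →
    (∀ (g h : G) j k, (g • E j ∩ h • E k).Nonempty → g • E j ∪ h • E k ≠ Set.univ →
      g • E j ⊆ h • E k ∨ h • E k ⊆ g • E j) →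
    (∀ (g h f : G) i j k, g • E i ⊂ h • E j → h • E j ⊂ f • E k →
      ∀ w : G, {x | x ∈ g • E i ∧ x * w ∉ f • E k}.Finite) →
    ∀ ψ₁ ψ₂ : G → ℝ, Dir S ψ₁ → I01 ψ₁ → (∀ x ∉ E 0, ψ₁ x = 0) → ¬ Sq ψ₁ →
      Dir S ψ₂ → I01 ψ₂ → (∀ k, ∀ x ∈ E k, ψ₂ x = 0) → ¬ Sq ψ₂ → False

end Defs

variable {G : Type} [Group G] {X : Type} [MetricSpace X] [MulAction G X] {S : Finset G}
  {b c c' ξ η ζ : X} {A F F' V : Set G}

/-! ### The filters -/

theorem nf_le : nf G b ξ ≤ cofinite := inf_le_right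

theorem nf_tendsto : Tendsto (fun x : G => x • b) (nf G b ξ) (𝓝 ξ) :=
  tendsto_comap.mono_left inf_le_left

theorem tendsto_nf {ι : Type} {l : Filter ι} {g : ι → G} : Tendsto g l (nf G b ξ) ↔
    Tendsto (fun i => g i • b) l (𝓝 ξ) ∧ Tendsto g l cofinite := by
  rw [nf, tendsto_inf, tendsto_comap_iff]
  rfl

theorem compl_mem_nf (h : A.Finite) : Aᶜ ∈ nf G b ξ := nf_le h.compl_mem_cofinite

theorem mem_nf : F ∈ nf G b ξ ↔ ∃ O ∈ 𝓝 ξ, {x | x • b ∈ O ∧ x ∉ F}.Finite := by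
  constructor
  · intro h
    obtain ⟨_, ⟨O, h1, h2⟩, B, h3, rfl⟩ := mem_inf_iff.1 h
    exact ⟨O, h1, (mem_cofinite.1 h3).subset fun x hx e => hx.2 ⟨h2 hx.1, e⟩⟩
  · rintro ⟨O, h1, h2⟩
    filter_upwards [nf_tendsto h1, compl_mem_nf h2] with x e1 e2
    by_contra e
    exact e2 ⟨e1, e⟩

theorem nf_open (h : F ∈ nf G b ξ) : ∀ᶠ ξ' in 𝓝 ξ, F ∈ nf G b ξ' := by
  obtain ⟨O, h1, h2⟩ := mem_nf.1 h
  exact (eventually_mem_nhds_iff.2 h1).mono fun _ e => mem_nf.2 ⟨O, e, h2⟩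

theorem isOpen_nf (F : Set G) : IsOpen {ξ | F ∈ nf G b ξ} :=
  isOpen_iff_mem_nhds.2 fun _ h => nf_open h

theorem isClosed_KK : IsClosed (KK G b) := by
  rw [← isOpen_compl_iff]
  convert isOpen_nf (b := b) (∅ : Set G) using 1
  ext ξ
  simp [KK, empty_mem_iff_bot]

theorem mem_KK_of_freq {p : G → Prop} (h : ∃ᶠ x in nf G b ξ, p x) : ξ ∈ KK G b :=
  ⟨fun e => by simp [e] at h⟩

theorem not_both (h : ξ ∈ KK G b) (h1 : F ∈ nf G b ξ) (h2 : Fᶜ ∈ nf G b ξ) : False := by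
  have : (nf G b ξ).NeBot := h
  obtain ⟨x, e1, e2⟩ := nonempty_of_mem (inter_mem h1 h2)
  exact e2 e1

theorem infinite_of_mem (h : ξ ∈ KK G b) (h1 : F ∈ nf G b ξ) : F.Infinite :=
  fun e => not_both h h1 (compl_mem_nf e)

theorem IsRay.nf {z : ℕ → G} (h : IsRay S z) (e : Tendsto (fun n => z n • b) atTop (𝓝 ξ)) :
    Tendsto z atTop (nf G b ξ) := tendsto_nf.2 ⟨e, h.esc⟩

theorem Ac.freq (h : Ac S b V ξ) : ∃ᶠ x in nf G b ξ, x ∈ V := by
  obtain ⟨z, h1, h2, h3⟩ := h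
  exact (h1.nf h3).frequently (Frequently.of_forall h2)

theorem Ac.mem (h : Ac S b V ξ) : ξ ∈ KK G b := mem_KK_of_freq h.freq

theorem Ac.mono {V' : Set G} (h : Ac S b V ξ) (e : V ⊆ V') : Ac S b V' ξ :=
  h.imp fun _ k => ⟨k.1, fun n => e (k.2.1 n), k.2.2⟩

section Compact

variable [CompactSpace X]

theorem ultra_lim {ι : Type} (U : Ultrafilter ι) (f : ι → X) : ∃ a, Tendsto f U (𝓝 a) :=
  ⟨_, (U.map f).le_nhds_lim⟩

theorem exists_freq (b : X) (h : A.Infinite) : ∃ ξ, ∃ᶠ x in nf G b ξ, x ∈ A := by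
  have : (cofinite ⊓ 𝓟 A).NeBot := frequently_mem_iff_neBot.1 (frequently_cofinite_iff_infinite.2 h)
  obtain ⟨U, hU⟩ := (cofinite ⊓ 𝓟 A).exists_ultrafilter_le
  obtain ⟨ξ, hξ⟩ := ultra_lim U fun x : G => x • b
  have h1 : Tendsto (fun x : G => x) U (nf G b ξ) :=
    tendsto_nf.2 ⟨hξ, tendsto_id'.2 (hU.trans inf_le_left)⟩
  exact ⟨ξ, h1.frequently (Eventually.frequently (le_principal_iff.1 (hU.trans inf_le_right)))⟩

theorem finite_iff (b : X) : A.Finite ↔ ∀ ξ, Aᶜ ∈ nf G b ξ :=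
  ⟨fun h _ => compl_mem_nf h, fun h => by
    by_contra e
    obtain ⟨ξ, k⟩ := exists_freq b e
    exact k (h ξ)⟩

/-- Sets that accumulate at most at `c`. -/
theorem only_iff : (∀ ξ, ξ ≠ c → Aᶜ ∈ nf G b ξ) ↔
    ∀ ε : ℝ, 0 < ε → {x | x ∈ A ∧ ε ≤ dist (x • b) c}.Finite := by
  refine ⟨fun h ε hε => (finite_iff b).2 fun ξ => ?_, fun h ξ e => ?_⟩
  · by_cases e : ξ = c
    · filter_upwards [nf_tendsto (Metric.ball_mem_nhds ξ hε)] with x hx k
      exact k.2.not_gt (e ▸ hx)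
    · exact mem_of_superset (h ξ e) fun x hx k => hx k.1
  · have h1 := half_pos (dist_pos.2 e)
    filter_upwards [nf_tendsto (Metric.ball_mem_nhds ξ h1), compl_mem_nf (h _ h1)] with x e1 e2 k
    refine e2 ⟨k, ?_⟩
    have := dist_triangle_left ξ c (x • b)
    have e3 : dist (x • b) ξ < dist ξ c / 2 := e1
    linarith

theorem Kur.unif {φ : G → G → ℝ} {co : G → X → ℝ} (h : Kur φ b co) {ε : ℝ} (hε : 0 < ε) :
    ∃ (U : Finset G) (d : ℝ), 0 < d ∧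
      ∀ z z', (∀ u ∈ U, |co u z - co u z'| < d) → dist z z' < ε := by
  classical
  have hc : IsCompact {p : X × X | ε ≤ dist p.1 p.2} :=
    (isClosed_le continuous_const continuous_dist).isCompact
  have h1 : ∀ p : X × X, ∃ (u : G) (d : ℝ), 0 < d ∧
      (ε ≤ dist p.1 p.2 → d < |co u p.1 - co u p.2|) := fun p => by
    by_cases e : p.1 = p.2
    · exact ⟨1, 1, one_pos, fun k => absurd (dist_pos.1 (hε.trans_le k)) (not_not.2 e)⟩
    · obtain ⟨u, hu⟩ := not_forall.1 fun k => e (h.inj _ _ k)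
      have := abs_pos.2 (sub_ne_zero.2 hu)
      exact ⟨u, _, half_pos this, fun _ => half_lt_self this⟩
  choose u d h2 h3 using h1
  obtain ⟨t, -, ht⟩ := hc.elim_nhds_subcover
    (fun p => {q | d p < |co (u p) q.1 - co (u p) q.2|}) fun p hp =>
      (isOpen_lt continuous_const ((((h.cont _).comp continuous_fst).sub
        ((h.cont _).comp continuous_snd)).abs)).mem_nhds (h3 p hp)
  obtain ⟨δ, e1, e2⟩ := (((eventually_all_finset t).2 fun p _ =>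
    (eventually_lt_nhds (h2 p)).filter_mono (nhdsWithin_le_nhds (s := Set.Ioi 0))).and
      self_mem_nhdsWithin).exists
  refine ⟨t.image u, δ, e2, fun z z' k => not_le.1 fun k' => ?_⟩
  obtain ⟨p, hp, k2⟩ := Set.mem_iUnion₂.1 (ht (show (z, z') ∈ _ from k'))
  exact ((e1 p hp).trans k2).not_gt (k _ (Finset.mem_image_of_mem _ hp))

theorem Kur.cauchy {φ : G → G → ℝ} {co : G → X → ℝ} (h : Kur φ b co) {z : ℕ → G}
    (e : ∀ u, CauchySeq fun n => φ u (z n)) : ∃ ξ, Tendsto (fun n => z n • b) atTop (𝓝 ξ) := by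
  refine cauchySeq_tendsto_of_complete (Metric.cauchySeq_iff.2 fun ε hε => ?_)
  obtain ⟨U, d, h1, h2⟩ := h.unif hε
  choose N hN using fun u => Metric.cauchySeq_iff.1 (e u) d h1
  refine ⟨U.sup N, fun m hm n hn => h2 _ _ fun u hu => ?_⟩
  rw [h.orb, h.orb]
  exact hN u m ((Finset.le_sup hu).trans hm) n ((Finset.le_sup hu).trans hn)

end Compact

/-! ### Majorities -/

section Mj

variable {a : Fin 3 → X} {L L' : Set X} {x : G}

theorem Mj.mono (h : Mj a L x) (e : ∀ j, x • a j ∈ L → x • a j ∈ L') : Mj a L' x :=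
  h.imp fun _ k j hj => e j (k j hj)

theorem Mj.inter (h : Mj a L x) (h' : Mj a L' x) : ∃ j, x • a j ∈ L ∧ x • a j ∈ L' := by
  obtain ⟨i, h⟩ := h
  obtain ⟨i', h'⟩ := h'
  obtain ⟨j, e⟩ := (by decide : ∀ i i' : Fin 3, ∃ j, j ≠ i ∧ j ≠ i') i i'
  exact ⟨j, h j e.1, h' j e.2⟩

theorem mj_compl : Mj a Lᶜ x ↔ ¬ Mj a L x := by
  refine ⟨fun h h' => (h.inter h').elim fun _ e => e.1 e.2, fun h => ?_⟩
  simp only [Mj, not_exists, not_forall] at h
  obtain ⟨j, -, h1⟩ := h 0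
  obtain ⟨j', h2, h3⟩ := h j
  obtain ⟨i, e⟩ := (by decide : ∀ j j' : Fin 3, j' ≠ j → ∃ i, ∀ k, k ≠ i → k = j ∨ k = j') j j' h2
  exact ⟨i, fun k hk => (e k hk).elim (fun e => e ▸ h1) fun e => e ▸ h3⟩

theorem mj_mul (g : G) : Mj a L (g * x) ↔ Mj a (g⁻¹ • L) x := by
  simp only [Mj, mul_smul, Set.mem_inv_smul_set_iff]

theorem mj_right (w : G) : Mj a L (x * w) ↔ Mj (fun j => w • a j) L x := by
  simp only [Mj, mul_smul]

/-- One of the two points differs from `k`. -/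
theorem Mj.exists_ne (ha : Function.Injective a) (h : Mj a L x) (k : X) :
    ∃ j, x • a j ∈ L ∧ x • a j ≠ k := by
  obtain ⟨i, h⟩ := h
  obtain ⟨j, j', e⟩ := (by decide : ∀ i : Fin 3, ∃ j j', j ≠ i ∧ j' ≠ i ∧ j ≠ j') i
  by_cases e1 : x • a j = k
  · exact ⟨j', h j' e.2.1, fun e2 => e.2.2 (ha (MulAction.injective x (e1.trans e2.symm)))⟩
  · exact ⟨j, h j e.1, e1⟩

theorem Cv.mj (h : Cv G b) (ha : Function.Injective a) (hL : L ∈ 𝓝 ξ) :
    {x | Mj a L x} ∈ nf G b ξ := by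
  obtain ⟨r, h1, h2⟩ := Metric.mem_nhds_iff.1 hL
  have h3 : ∀ᶠ δ in 𝓝[>] (0 : ℝ), ∀ i j, i ≠ j → δ < dist (a i) (a j) / 2 :=
    eventually_all.2 fun i => eventually_all.2 fun j => eventually_imp_distrib_left.2 fun e =>
      (eventually_lt_nhds (half_pos (dist_pos.2 fun k => e (ha k)))).filter_mono nhdsWithin_le_nhds
  obtain ⟨δ, ⟨e1, e2⟩, e3⟩ := ((h3.and ((eventually_lt_nhds (half_pos h1)).filter_mono
    nhdsWithin_le_nhds)).and self_mem_nhdsWithin).exists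
  filter_upwards [nf_tendsto (Metric.ball_mem_nhds ξ e3), compl_mem_nf (h.conv δ e3)] with x k1 k2
  have key : ∀ j, δ ≤ dist (a j) (x⁻¹ • b) → x • a j ∈ L := fun j hj => h2 (by
    have k3 : dist (x • a j) (x • b) < δ := not_le.1 fun k => k2 ⟨_, k, hj⟩
    have k4 : dist (x • b) ξ < δ := k1
    have := dist_triangle (x • a j) (x • b) ξ
    exact Metric.mem_ball.2 (by linarith))
  by_cases k : ∃ i, dist (a i) (x⁻¹ • b) < δ
  · obtain ⟨i, hi⟩ := k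
    refine ⟨i, fun j hj => key j ?_⟩
    have := dist_triangle_right (a j) (a i) (x⁻¹ • b)
    linarith [e1 j i hj]
  · exact ⟨0, fun j _ => key j (not_lt.1 fun e => k ⟨j, e⟩)⟩

end Mj

/-! ### Convergence -/

/-- The convergence property along a filter. -/
theorem Cv.tendsto (h : Cv G b) {ι : Type} {l : Filter ι} {g : ι → G} {z : ι → X} {a r z₀ : X}
    (h1 : Tendsto g l cofinite) (h2 : Tendsto (fun i => g i • b) l (𝓝 a))
    (h3 : Tendsto (fun i => (g i)⁻¹ • b) l (𝓝 r)) (h4 : Tendsto z l (𝓝 z₀)) (h5 : z₀ ≠ r) :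
    Tendsto (fun i => g i • z i) l (𝓝 a) := by
  refine Metric.tendsto_nhds.2 fun δ hδ => ?_
  have e0 := half_pos (dist_pos.2 h5)
  have e1 := lt_min (half_pos hδ) e0
  filter_upwards [h1 (h.conv _ e1).compl_mem_cofinite, Metric.tendsto_nhds.1 h2 _ (half_pos hδ),
    (h4.dist h3).eventually (lt_mem_nhds (half_lt_self (dist_pos.2 h5)))] with i k1 k2 k3
  have k4 : dist (g i • z i) (g i • b) < min (δ / 2) (dist z₀ r / 2) :=
    not_le.1 fun k => k1 ⟨_, k, (min_le_right _ _).trans k3.le⟩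
  have := dist_triangle (g i • z i) (g i • b) a
  linarith [min_le_left (δ / 2) (dist z₀ r / 2)]

variable [ContinuousConstSMul G X]

theorem nf_left (g : G) : Tendsto (fun x => g * x) (nf G b ξ) (nf G b (g • ξ)) :=
  tendsto_nf.2 ⟨by simpa [mul_smul] using nf_tendsto.const_smul g,
    (Function.Injective.tendsto_cofinite (mul_right_injective g)).mono_left nf_le⟩

theorem smul_mem_nf (g : G) : g • F ∈ nf G b (g • ξ) ↔ F ∈ nf G b ξ := by
  have key : ∀ (g : G) (F : Set G) (ξ : X), g • F ∈ nf G b (g • ξ) → F ∈ nf G b ξ :=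
    fun g F ξ h => mem_of_superset (nf_left g h) fun x hx => Set.smul_mem_smul_set_iff.1 hx
  exact ⟨key g F ξ, fun h => key g⁻¹ _ _ (by rwa [inv_smul_smul, inv_smul_smul])⟩

theorem smul_mem_KK (g : G) : g • ξ ∈ KK G b ↔ ξ ∈ KK G b := by
  have key : ∀ (g : G) (ξ : X), ξ ∈ KK G b → g • ξ ∈ KK G b := fun g ξ h =>
    have : (nf G b ξ).NeBot := h
    (nf_left g).neBot
  exact ⟨fun h => by simpa using key g⁻¹ _ h, key g ξ⟩

theorem Ac.smul (h : Ac S b V ξ) {g : G} (e : ∀ x ∈ V, g * x ∈ V) : Ac S b V (g • ξ) := by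
  obtain ⟨z, h1, h2, h3⟩ := h
  exact ⟨_, h1.smul g, fun n => e _ (h2 n), by simpa [mul_smul] using h3.const_smul g⟩

theorem Cv.orb_notMem (h : Cv G b) (w : G) : w • b ∉ KK G b :=
  fun e => h.notMem ((smul_mem_KK w).1 e)

theorem Cv.persp (h : Cv G b) (w : G) {ε : ℝ} (hε : 0 < ε) :
    {g : G | ε ≤ dist ((g * w) • b) (g • b)}.Finite := by
  have h1 : (∅ : Set G) ∈ nf G b (w • b) :=
    empty_mem_iff_bot.2 (not_neBot.1 (h.orb_notMem w))
  obtain ⟨O, h2, h3⟩ := mem_nf.1 h1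
  obtain ⟨δ, h4, h5⟩ := Metric.mem_nhds_iff.1 h2
  refine ((h.conv _ (lt_min hε h4)).union h3.inv).subset fun g hg => ?_
  by_cases e : δ ≤ dist (w • b) (g⁻¹ • b)
  · exact Or.inl ⟨w • b, by rw [← mul_smul]; exact (min_le_left _ _).trans hg,
      (min_le_right _ _).trans e⟩
  · exact Or.inr ⟨h5 (Metric.mem_ball'.2 (not_le.1 e)), id⟩

theorem Cv.nf_right (h : Cv G b) (w : G) : Tendsto (fun x => x * w) (nf G b ξ) (nf G b ξ) := by
  refine tendsto_nf.2 ⟨nf_tendsto.congr_dist (Metric.tendsto_nhds.2 fun ε hε => ?_),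
    (Function.Injective.tendsto_cofinite (mul_left_injective w)).mono_left nf_le⟩
  filter_upwards [compl_mem_nf (h.persp w hε)] with x hx
  rw [Real.dist_0_eq_abs, abs_of_nonneg dist_nonneg, dist_comm]
  exact not_le.1 hx

theorem Cv.bdy (h : Cv G b) (e : F ∈ nf G b ξ ∨ Fᶜ ∈ nf G b ξ) : (Bdy S F)ᶜ ∈ nf G b ξ := by
  wlog k : F ∈ nf G b ξ generalizing F
  · rw [← bdy_compl]
    exact this (Or.inl (e.resolve_left k)) (e.resolve_left k)
  filter_upwards [k, (eventually_all_finset S).2 fun s _ => h.nf_right s k] with x k1 k2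
  rintro ⟨s, hs, k3⟩
  exact k3 (iff_of_true k1 (k2 s hs))

theorem Cv.mj' (h : Cv G b) {a : Fin 3 → X} (ha : Function.Injective a) (hK : ∀ i, a i ∈ KK G b)
    {O L : Set X} (hO : O ∈ 𝓝 ξ) (e : O ∩ KK G b ⊆ L) : {x | Mj a L x} ∈ nf G b ξ :=
  mem_of_superset (h.mj ha hO) fun x hx =>
    Mj.mono hx fun j k => e ⟨k, (smul_mem_KK x).2 (hK j)⟩

/-! ### Cuts -/

omit [ContinuousConstSMul G X] in
theorem Sp.compl (h : Sp b c F) : Sp b c Fᶜ := fun ξ e => by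
  rw [compl_compl]
  exact (h ξ e).symm

omit [ContinuousConstSMul G X] in
theorem Sp.inter (h : Sp b c F) (h' : Sp b c F') : Sp b c (F ∩ F') := fun ξ e =>
  (h ξ e).elim (fun k => (h' ξ e).imp (inter_mem k) fun k' =>
      mem_of_superset k' (Set.compl_subset_compl.2 Set.inter_subset_right))
    fun k => Or.inr (mem_of_superset k (Set.compl_subset_compl.2 Set.inter_subset_left))

theorem Sp.smul (h : Sp b c F) (g : G) : Sp b (g • c) (g • F) := fun ξ e => by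
  obtain ⟨ξ, rfl⟩ := MulAction.surjective g ξ
  rw [← Set.smul_set_compl, smul_mem_nf, smul_mem_nf]
  exact h ξ fun k => e (k ▸ rfl)

theorem Bd.sp_iff (h : Bd S b) : Sp b c F ↔ ∀ ξ, ξ ≠ c → (Bdy S F)ᶜ ∈ nf G b ξ :=
  ⟨fun k ξ e => h.cv.bdy (k ξ e), fun k ξ e => h.lc ξ F (k ξ e)⟩

omit [ContinuousConstSMul G X] in
theorem Sepa.symm (h : Sepa G b c ξ η) : Sepa G b c η ξ := by
  obtain ⟨h1, h2, h3, h4, F, h5, h6, h7⟩ := h
  exact ⟨h2, h1, h4, h3, Fᶜ, h5.compl, h7, by rwa [compl_compl]⟩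

omit [ContinuousConstSMul G X] in
theorem not_sepa_self : ¬ Sepa G b c ξ ξ := fun ⟨h1, _, _, _, _, _, h6, h7⟩ => not_both h1 h6 h7

omit [ContinuousConstSMul G X] in
theorem Sepa.cases (h : Sepa G b c ξ η) (h1 : ζ ∈ KK G b) (h2 : ζ ≠ c) :
    Sepa G b c ξ ζ ∨ Sepa G b c ζ η := by
  obtain ⟨a1, a2, a3, a4, F, a5, a6, a7⟩ := h
  exact (a5 ζ h2).symm.imp (fun k => ⟨a1, h1, a3, h2, F, a5, a6, k⟩)
    fun k => ⟨h1, a2, h2, a4, F, a5, k, a7⟩

omit [ContinuousConstSMul G X] in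
theorem cls_eq (h : ξ ∈ Cls G b c ζ) (h1 : ζ ∈ KK G b) (h2 : ζ ≠ c) :
    Cls G b c ξ = Cls G b c ζ :=
  Set.ext fun _ => and_congr_right fun _ => and_congr_right fun _ => not_congr
    ⟨fun k => (k.cases h1 h2).resolve_left fun e => h.2.2 e.symm,
      fun k => (k.cases h.1 h.2.1).resolve_left h.2.2⟩

theorem Sepa.smul (h : Sepa G b c ξ η) (g : G) : Sepa G b (g • c) (g • ξ) (g • η) := by
  obtain ⟨h1, h2, h3, h4, F, h5, h6, h7⟩ := h
  exact ⟨(smul_mem_KK g).2 h1, (smul_mem_KK g).2 h2, (MulAction.injective g).ne h3,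
    (MulAction.injective g).ne h4, g • F, h5.smul g, (smul_mem_nf g).2 h6,
    by rw [← Set.smul_set_compl]; exact (smul_mem_nf g).2 h7⟩

theorem sepa_smul (g : G) : Sepa G b (g • c) (g • ξ) (g • η) ↔ Sepa G b c ξ η :=
  ⟨fun h => by simpa using h.smul g⁻¹, fun h => h.smul g⟩

theorem CutP.smul (h : CutP G b c) (g : G) : CutP G b (g • c) :=
  let ⟨_, _, k⟩ := h
  ⟨_, _, k.smul g⟩

theorem cls_smul (g : G) : g • Cls G b c ζ = Cls G b (g • c) (g • ζ) := by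
  ext ξ
  obtain ⟨ξ, rfl⟩ := MulAction.surjective g ξ
  simp only [Set.smul_mem_smul_set_iff, Cls, Set.mem_ofPred_eq, smul_mem_KK, sepa_smul, ne_eq,
    smul_left_cancel_iff]

variable [CompactSpace X]

theorem Bd.fin_or (h : Bd S b) (e : ∀ ξ, A ∈ nf G b ξ ∨ Aᶜ ∈ nf G b ξ) : A.Finite ∨ Aᶜ.Finite :=
  h.cs.one A ((finite_iff b).2 fun ξ => h.cv.bdy (e ξ))

theorem Bd.sepa_mem (h : Bd S b) (e : Sepa G b c ξ η) : c ∈ KK G b := by
  obtain ⟨h1, h2, -, -, F, h5, h6, h7⟩ := e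
  by_contra k
  refine (h.fin_or fun ζ => ?_).elim (infinite_of_mem h1 h6) (infinite_of_mem h2 h7)
  by_cases e : ζ = c
  · rw [e, not_neBot.1 k]
    exact Or.inl mem_bot
  · exact h5 ζ e

theorem Bd.nest (h : Bd S b) (h1 : Sp b c F) (h2 : Sp b c' F') (h3 : c' ∈ KK G b)
    (h4 : Fᶜ ∈ nf G b c') (h5 : F' ∈ nf G b c) : (F \ F').Finite := by
  refine (h.fin_or fun ξ => ?_).resolve_right
    (infinite_of_mem h3 (mem_of_superset h4 fun _ a b => a b.1))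
  have k1 : F ∈ nf G b ξ ∨ (F \ F')ᶜ ∈ nf G b ξ := by
    by_cases e : ξ = c
    · exact Or.inr (mem_of_superset (e ▸ h5) fun _ a b => b.2 a)
    · exact (h1 ξ e).imp_right fun k =>
        mem_of_superset k (Set.compl_subset_compl.2 Set.diff_subset)
  have k2 : F'ᶜ ∈ nf G b ξ ∨ (F \ F')ᶜ ∈ nf G b ξ := by
    by_cases e : ξ = c'
    · exact Or.inr (e ▸ mem_of_superset h4 (Set.compl_subset_compl.2 Set.diff_subset))
    · exact (h2 ξ e).symm.imp_right fun k => mem_of_superset k fun _ a b => b.2 a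
  exact k1.elim (fun a => k2.imp_left (inter_mem a)) Or.inr

/-- The side of a cut at `c` away from `c'` is not separated from `c` by `c'`. -/
theorem Bd.k1 (h : Bd S b) (h1 : Sp b c F) (h3 : c' ∈ KK G b) (h4 : Fᶜ ∈ nf G b c')
    (h5 : ξ ∈ KK G b) (h6 : F ∈ nf G b ξ) : ξ ∈ Cls G b c' c := by
  refine ⟨h5, fun e => not_both h3 (e ▸ h6) h4, ?_⟩
  rintro ⟨-, -, -, -, F', a1, a2, a3⟩
  exact infinite_of_mem h5 (inter_mem h6 a3) (h.nest h1 a1 h3 h4 a2)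

theorem Bd.asymm (h : Bd S b) (h1 : Sepa G b c c' ξ) : ¬ Sepa G b c' c ξ := by
  obtain ⟨a1, a2, -, -, F, a5, a6, a7⟩ := h1
  exact (h.k1 a5.compl a1 (by rwa [compl_compl]) a2 a7).2.2

theorem Bd.sepa_trans (h : Bd S b) (h1 : Sepa G b c ξ η) (h2 : Sepa G b c' ξ c) :
    Sepa G b c' ξ η := by
  have e : η ≠ c' := fun e => h.asymm h1.symm (e ▸ h2.symm)
  refine (h2.cases h1.2.1 e).resolve_right fun k => ?_
  obtain ⟨a1, a2, -, -, F, a5, a6, a7⟩ := h1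
  rcases a5 c' h2.2.2.2.1.symm with k' | k'
  · exact (h.k1 a5.compl (h.sepa_mem h2) (by rwa [compl_compl]) a2 a7).2.2 k.symm
  · exact (h.k1 a5 (h.sepa_mem h2) k' a1 a6).2.2 h2.symm

theorem Bd.cutP (h : Bd S b) (hD : Dyn S b) (hR : LemR S b) : ∃ k, CutP G b k := by
  obtain ⟨a, h1, h2⟩ := hD.three
  obtain ⟨k, P, π, a1, a2, ξ, η, a3, a4, a5, a6, a7, a8⟩ := hR ⊤ Set.univ (fun _ _ _ _ => trivial)
    ⟨{1}, Set.finite_singleton _, fun x _ => ⟨x, trivial, inv_mul_cancel x⟩⟩ (cnn_univ h.cs.gen)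
    a h1 h2
  have hP : Sp b k P := h.sp_iff.2 fun ξ e =>
    mem_of_superset (a1 ξ e) fun x hx ⟨s, hs, c⟩ => hx ⟨trivial, s, hs, trivial, c⟩
  refine ⟨k, ξ, η, a5.mem, a6.mem, a3, a4, P, hP, (hP ξ a3).resolve_right fun e => ?_,
    (hP η a4).resolve_left fun e => ?_⟩
  · obtain ⟨z, b1, b2, b3⟩ := a5
    obtain ⟨n, c1, c2⟩ := ((a2 z b1 b2 ξ a3 b3).and (b1.nf b3 e)).exists
    exact c2 (c1.2 a7)
  · obtain ⟨z, b1, b2, b3⟩ := a6
    obtain ⟨n, c1, c2⟩ := ((a2 z b1 b2 η a4 b3).and (b1.nf b3 e)).exists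
    exact a8 (c1.1 c2)

end Pool.Agent.MP_4f4d9f_gt.Ku

end

section

/-! Interface, part S: the statements of part K and the assembly. -/

namespace Pool.Agent.MP_4f4d9f_gt.Ku

open Filter Topology Hy

/-! ### Statements -/

/-- Job `Kur`. -/
def KurStmt : Prop :=
  ∀ (G : Type) [Group G] (S : Finset G) (φ : G → G → ℝ), Gen S → DF S → Pot S φ →
    ∃ (X : Type) (_ : MetricSpace X) (_ : CompactSpace X) (_ : MulAction G X)
      (_ : ContinuousConstSMul G X) (b : X) (co : G → X → ℝ), Kur φ b co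

/-- Job `Cv`. -/
def CvStmt : Prop :=
  ∀ (G : Type) [Group G] (X : Type) [MetricSpace X] [CompactSpace X] [MulAction G X]
    [ContinuousConstSMul G X] (S : Finset G) (b : X) (φ : G → G → ℝ) (co : G → X → ℝ),
    Gen S → DF S → Osc S → Pot S φ → Kur φ b co → Cv G b

/-- Job `Lc`. -/
def LcStmt : Prop :=
  ∀ (G : Type) [Group G] (X : Type) [MetricSpace X] [CompactSpace X] [MulAction G X]
    [ContinuousConstSMul G X] (S : Finset G) (b : X) (φ : G → G → ℝ) (co : G → X → ℝ),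
    Gen S → Pot S φ → Cont S φ → Kur φ b co → Cv G b → Lc S b ∧ Bump S b

/-- Job `Two`. -/
def TwoStmt : Prop :=
  ∀ (G : Type) [Group G] (X : Type) [MetricSpace X] [CompactSpace X] [MulAction G X]
    [ContinuousConstSMul G X] (S : Finset G) (b : X) (φ : G → G → ℝ) (co : G → X → ℝ) (C : ℝ),
    Gen S → SG S C → Pot S φ → Kur φ b co → ¬ Liou S → Two S b

/-- Job `Wc`. -/
def WcStmt : Prop :=
  ∀ (G : Type) [Group G] (X : Type) [MetricSpace X] [CompactSpace X] [MulAction G X]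
    [ContinuousConstSMul G X] (S : Finset G) (b : X) (φ : G → G → ℝ) (co : G → X → ℝ),
    Gen S → Nst S → Pot S φ → Kur φ b co → Wc S b

/-- Job `Zal`. -/
def ZalStmt : Prop :=
  ∀ (G : Type) [Group G] (X : Type) [MetricSpace X] [CompactSpace X] [MulAction G X]
    [ContinuousConstSMul G X] (b : X),
    Cv G b → Zal G b

/-- Job `VC`. -/
def VCStmt : Prop :=
  ∀ (G : Type) [Group G] (X : Type) [MetricSpace X] [CompactSpace X] [MulAction G X]
    [ContinuousConstSMul G X] (b : X),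
    Cv G b → VC G b

/-- Job `Prb`. -/
def PrbStmt : Prop :=
  ∀ (G : Type) [Group G] (X : Type) [MetricSpace X] [CompactSpace X] [MulAction G X]
    [ContinuousConstSMul G X] (b : X),
    Cv G b → Prb G b

/-- Job `Dyn`. -/
def DynStmt : Prop :=
  ∀ (G : Type) [Group G] (X : Type) [MetricSpace X] [CompactSpace X] [MulAction G X]
    [ContinuousConstSMul G X] (S : Finset G) (b : X),
    Bd S b → VC G b → Dyn S b

/-- Job `LemR`. -/
def LemRStmt : Prop :=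
  ∀ (G : Type) [Group G] (X : Type) [MetricSpace X] [CompactSpace X] [MulAction G X]
    [ContinuousConstSMul G X] (S : Finset G) (b : X),
    Bd S b → Zal G b → LemR S b

/-- Job `Ord3`. -/
def Ord3Stmt : Prop :=
  ∀ (G : Type) [Group G], (∀ g : G, IsOfFinOrder g → g = 1) → ∀ (𝓕 : Set (Set G)) (Es : Set G),
    Fam3 𝓕 Es → ∀ y ∈ 𝓕, y ⊂ Es → ∃ E ∈ 𝓕, y ⊆ E ∧ E ⊂ Es ∧ Few E Es

/-- Job `LimQ`. -/
def LimQStmt : Prop :=
  ∀ (G : Type) [Group G] (S : Finset G) (C : ℕ), Gen S → SG S C → CohQ S →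
    ∀ (E' : Set G) (E : ℕ → Set G) (ψ₁ ψ₂ : G → ℝ), (∀ k, E k ⊆ E') →
      (∀ x ∈ E', ∀ᶠ k in atTop, x ∈ E k) → (∀ k, ∀ s ∈ S, {x | x ∈ E k ∧ x * s ∉ E'}.Finite) →
      (∀ k, Few (E k) E') → Dir S ψ₁ → I01 ψ₁ → (∀ k, ∀ x ∉ E k, ψ₁ x = 0) → ¬ Sq ψ₁ →
      Dir S ψ₂ → I01 ψ₂ → (∀ x ∈ E', ψ₂ x = 0) → ¬ Sq ψ₂ → False

/-- Job `OrdLim`. -/
def OrdLimStmt : Prop :=
  ∀ (G : Type) [Group G] (S : Finset G) (C : ℕ), (∀ g : G, IsOfFinOrder g → g = 1) → Gen S →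
    SG S C → CohQ S → OrdLim S

/-- Job `Disc`. -/
def DiscStmt : Prop :=
  ∀ (G : Type) [Group G] (X : Type) [MetricSpace X] [CompactSpace X] [MulAction G X]
    [ContinuousConstSMul G X] (S : Finset G) (b : X),
    Bd S b → Dyn S b → OrdLim S → Disc G b

/-- Job `Blk`. -/
def BlkStmt : Prop :=
  ∀ (G : Type) [Group G] (X : Type) [MetricSpace X] [CompactSpace X] [MulAction G X]
    [ContinuousConstSMul G X] (S : Finset G) (b : X),
    Bd S b → Dyn S b → Disc G b → (∃ c, CutP G b c) → ∃ B, Blk G b B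

/-- Job `Lab`. -/
def LabStmt : Prop :=
  ∀ (G : Type) [Group G] (X : Type) [MetricSpace X] [CompactSpace X] [MulAction G X]
    [ContinuousConstSMul G X] (S : Finset G) (b : X) (B : Set X),
    Bd S b → Dyn S b → Disc G b → Blk G b B →
      ∃ (lam : G → X) (H : Subgroup G), Lab S b B lam H

/-- Job `T10`. -/
def T10Stmt : Prop :=
  ∀ (G : Type) [Group G] (X : Type) [MetricSpace X] [CompactSpace X] [MulAction G X]
    [ContinuousConstSMul G X] (S : Finset G) (b : X) (B : Set X) (lam : G → X)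
    (H : Subgroup G),
    Bd S b → Dyn S b → VC G b → Lab S b B lam H → ∀ c, Sp b c {x | lam x = c}

/-- Job `CelA`. -/
def CelAStmt : Prop :=
  ∀ (G : Type) [Group G] (X : Type) [MetricSpace X] [CompactSpace X] [MulAction G X]
    [ContinuousConstSMul G X] (S : Finset G) (b : X) (B : Set X) (lam : G → X)
    (H : Subgroup G),
    Bd S b → Lab S b B lam H → (∀ c, Sp b c {x | lam x = c}) →
      ∀ x₀, ∃ H', Cel S b B lam H' (VV S lam x₀) (cel S lam (VV S lam x₀))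

/-- Job `CelB`. -/
def CelBStmt : Prop :=
  ∀ (G : Type) [Group G] (X : Type) [MetricSpace X] [CompactSpace X] [MulAction G X]
    [ContinuousConstSMul G X] (S : Finset G) (b : X) (B : Set X) (lam : G → X)
    (H : Subgroup G),
    Bd S b → Dyn S b → Lab S b B lam H → (∀ c, Sp b c {x | lam x = c}) →
      (∀ x₀, ∃ H', Cel S b B lam H' (VV S lam x₀) (cel S lam (VV S lam x₀))) →
      ∃ x₀, TwoC S lam (VV S lam x₀) (cel S lam (VV S lam x₀))

/-- Job `Null`. -/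
def NullStmt : Prop :=
  ∀ (G : Type) [Group G] (X : Type) [MetricSpace X] [CompactSpace X] [MulAction G X]
    [ContinuousConstSMul G X] (S : Finset G) (b : X) (B : Set X) (lam : G → X)
    (H : Subgroup G) (V : Set G) (D : G → Set G),
    Bd S b → Prb G b → Cel S b B lam H V D → Null S b V D

/-- Job `Three`. -/
def ThreeStmt : Prop :=
  ∀ (G : Type) [Group G] (X : Type) [MetricSpace X] [CompactSpace X] [MulAction G X]
    [ContinuousConstSMul G X] (S : Finset G) (b : X) (B : Set X) (lam : G → X)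
    (H : Subgroup G) (V : Set G) (D : G → Set G),
    Bd S b → Cel S b B lam H V D → TwoC S lam V D →
      ∃ a : Fin 3 → X, Function.Injective a ∧ ∀ i, Ac S b V (a i)

/-- Job `Last`. -/
def LastStmt : Prop :=
  ∀ (G : Type) [Group G] (X : Type) [MetricSpace X] [CompactSpace X] [MulAction G X]
    [ContinuousConstSMul G X] (S : Finset G) (b : X) (B : Set X) (lam : G → X)
    (H : Subgroup G) (V : Set G) (D : G → Set G),
    Bd S b → LemR S b → Cel S b B lam H V D → TwoC S lam V D → Null S b V D →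
      (∃ a : Fin 3 → X, Function.Injective a ∧ ∀ i, Ac S b V (a i)) →
      ∃ k, ∃ ξ ∈ B, ∃ η ∈ B, Sepa G b k ξ η

/-- The Liouville theorem. -/
theorem liou_of {G : Type} [Group G] {S : Finset G} (h1 : CsStmt) (h2 : KonStmt) (h3 : NstStmt)
    (h4 : PotStmt) (h5 : DFStmt) (h6 : OscStmt) (h7 : DecStmt) (h8 : TightStmt) (h9 : ContStmt)
    (k1 : KurStmt) (k2 : CvStmt) (k3 : LcStmt) (k4 : TwoStmt) (k5 : WcStmt) (k6 : ZalStmt)
    (k7 : VCStmt) (k8 : PrbStmt) (k9 : DynStmt) (l1 : LemRStmt) (l2 : OrdLimStmt) (l3 : DiscStmt)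
    (l4 : BlkStmt) (l5 : LabStmt) (l6 : T10Stmt) (l7 : CelAStmt) (l8 : CelBStmt) (l9 : NullStmt)
    (m1 : ThreeStmt) (m2 : LastStmt) (hG : ∀ g : G, IsOfFinOrder g → g = 1) {C : ℕ} (hS : Gen S)
    (sg : SG S C) (coh : CohQ S) : Liou S := by
  by_contra hL
  have cs := h1 G S hS coh
  have df := h5 G S hS
  have osc := h6 G S cs df
  obtain ⟨φ, pot⟩ := h4 G S hS
  obtain ⟨X, _, _, _, _, b, co, kur⟩ := k1 G S φ hS df pot
  have cv := k2 G X S b φ co hS df osc pot kur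
  obtain ⟨lc, bump⟩ := k3 G X S b φ co hS pot
    (h9 G S φ hS pot (h8 G S φ hS df (h7 G S hS df osc) pot)) kur cv
  have bd : Bd S b := ⟨cv, cs, h2 G S hS, hG, lc, bump,
    k5 G X S b φ co hS (h3 G S hS coh) pot kur, k4 G X S b φ co C hS sg pot kur hL⟩
  have vc := k7 G X b cv
  have dyn := k9 G X S b bd vc
  have lr := l1 G X S b bd (k6 G X b cv)
  have disc := l3 G X S b bd dyn (l2 G S C hG hS sg coh)
  obtain ⟨B, blk⟩ := l4 G X S b bd dyn disc (bd.cutP dyn lr)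
  obtain ⟨lam, H, lab⟩ := l5 G X S b B bd dyn disc blk
  have t10 := l6 G X S b B lam H bd dyn vc lab
  have ca := l7 G X S b B lam H bd lab t10
  obtain ⟨x₀, two⟩ := l8 G X S b B lam H bd dyn lab t10 ca
  obtain ⟨H', ce⟩ := ca x₀
  obtain ⟨k, ξ, e1, η, e2, e3⟩ := m2 G X S b B lam H' _ _ bd lr ce two
    (l9 G X S b B lam H' _ _ bd (k8 G X b cv) ce) (m1 G X S b B lam H' _ _ bd ce two)
  exact blk.nosep k ξ e1 η e2 e3

end Pool.Agent.MP_4f4d9f_gt.Ku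

end

section

/-! The compactification by potentials has the convergence property. -/

namespace Pool.Agent.MP_4f4d9f_gt.Ku

open Filter Topology Hy

namespace CvL

variable {G : Type} [Group G] {S : Finset G}

/-- The matrix coefficients of the regular representation vanish at infinity. -/
theorem small {f h : G → ℝ} (hf : Sq f) (hh : Sq h) {ε : ℝ} (hε : 0 < ε) :
    ∀ᶠ g in cofinite, ∀ T : Finset G, ∑ a ∈ T, f (g * a) * h a ≤ ε := by
  obtain ⟨N, hN⟩ : ∃ N, N = ∑' a, f a ^ 2 := ⟨_, rfl⟩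
  have h0 : 0 ≤ N := hN ▸ tsum_nonneg fun _ => sq_nonneg _
  obtain ⟨δ, hδ, h1⟩ : ∃ δ : ℝ, 0 < δ ∧ δ * N ≤ ε / 2 := by
    refine ⟨ε / 2 / (N + 1), by positivity, ?_⟩
    rw [div_mul_eq_mul_div, div_le_iff₀ (by positivity)]
    nlinarith
  obtain ⟨r, hr⟩ : ∃ r : G → G → ℝ,
      ∀ g a, r g a = max 0 (f (g * a) * h a - δ * f (g * a) ^ 2) := ⟨_, fun _ _ => rfl⟩
  have h2 : ∀ g a, 0 ≤ r g a := fun g a => hr g a ▸ le_max_left _ _
  have h3 : ∀ g a, r g a ≤ h a ^ 2 / (4 * δ) := fun g a => by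
    rw [hr]
    refine max_le (by positivity) ?_
    rw [le_div_iff₀ (by positivity)]
    nlinarith [sq_nonneg (h a - 2 * δ * f (g * a))]
  have h4 : Summable fun a => h a ^ 2 / (4 * δ) := Summable.div_const hh _
  have h5 : Tendsto (fun g => ∑' a, r g a) cofinite (𝓝 (∑' _ : G, (0 : ℝ))) := by
    refine tendsto_tsum_of_dominated_convergence h4 (fun a => ?_)
      (Eventually.of_forall fun g a => by rw [Real.norm_of_nonneg (h2 g a)]; exact h3 g a)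
    have e := (hf.mul_right a).tendsto
    have := (tendsto_const_nhds (x := (0 : ℝ))).max
      ((e.mul_const (h a)).sub ((e.pow 2).const_mul δ))
    simpa [hr] using this
  rw [tsum_zero] at h5
  filter_upwards [h5.eventually (gt_mem_nhds (half_pos hε))] with g hg T
  have e1 : ∑ a ∈ T, r g a ≤ ∑' a, r g a :=
    (Summable.of_nonneg_of_le (h2 g) (h3 g) h4).sum_le_tsum T fun a _ => h2 g a
  have e2 : ∑ a ∈ T, f (g * a) ^ 2 ≤ N := by
    rw [hN, ← (Equiv.mulLeft g).tsum_eq]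
    exact Summable.sum_le_tsum T (fun a _ => sq_nonneg _) (hf.mul_left g)
  have e3 : ∑ a ∈ T, f (g * a) * h a ≤ δ * ∑ a ∈ T, f (g * a) ^ 2 + ∑ a ∈ T, r g a := by
    rw [Finset.mul_sum, ← Finset.sum_add_distrib]
    refine Finset.sum_le_sum fun a _ => ?_
    rw [hr]
    linarith [le_max_right 0 (f (g * a) * h a - δ * f (g * a) ^ 2)]
  linarith [mul_le_mul_of_nonneg_left e2 hδ.le]

/-- A far translate of a potential is almost constant on a half space of another one. -/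
theorem key (hS : Gen S) (hD : DF S) (hO : Osc S) {ψ χ : G → ℝ} {a p u : G}
    (h1 : Dip S ψ a p) (h2 : Dip S χ 1 u) {d : ℝ} (hd : 0 < d) :
    ∀ᶠ g in cofinite, ∀ x, ψ g⁻¹ + d ≤ ψ x → |χ (g * x) - χ g| < d := by
  have e1 : ∀ᶠ g : G in cofinite, |ψ (g⁻¹ * u) - ψ g⁻¹| < d / 3 :=
    inv_injective.tendsto_cofinite.eventually (p := fun g => |ψ (g * u) - ψ g| < d / 3)
      (eventually_cofinite.2 ((h1.dir.finite hS u (by positivity)).subset fun _ k => not_lt.1 k))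
  have e2 : ∀ᶠ g : G in cofinite, |χ (g * p) - χ g| < d / 2 :=
    eventually_cofinite.2 ((h2.dir.finite hS p (half_pos hd)).subset fun _ k => not_lt.1 k)
  filter_upwards [e1, e2, small h2.dir.dd h1.dir.dd (ε := d ^ 2 / 24) (by positivity)]
    with g k1 k2 k3 x hx
  obtain ⟨t, -, k4, k5⟩ := hO ψ a p _ _ _ h1 (h2.left g) (ψ g⁻¹ + d / 3) (ψ g⁻¹ + d / 3 + d / 3)
    (d ^ 2 / 24) (by linarith) (by rw [mul_one]; linarith) (by linarith [(abs_lt.1 k1).2])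
    fun T _ => by simpa only [DD, mul_assoc] using k3 T
  have k6 : t < ψ x := by linarith
  have k7 := k5 x (Or.inl k6) p (Or.inl (k6.trans_le (hD.range _ _ _ h1 x).2))
  have k8 : 4 * (d ^ 2 / 24) / (ψ g⁻¹ + d / 3 + d / 3 - (ψ g⁻¹ + d / 3)) = d / 2 := by
    rw [add_sub_cancel_left]
    field_simp
    norm_num
  rw [k8] at k7
  linarith [abs_sub_le (χ (g * x)) (χ (g * p)) (χ g)]

variable {φ : G → G → ℝ}

theorem key' (hS : Gen S) (hD : DF S) (hO : Osc S) (hP : Pot S φ) (u u' : G) {d : ℝ}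
    (hd : 0 < d) :
    ∀ᶠ g in cofinite, ∀ x, d ≤ |φ u x - φ u g⁻¹| → |φ u' (g * x) - φ u' g| < d := by
  filter_upwards [key hS hD hO (hP.dip u) (hP.dip u') hd,
    key hS hD hO (hP.dip u).neg (hP.dip u') hd] with g k1 k2 x hx
  rcases le_abs.1 hx with e | e
  · exact k1 x (by linarith)
  · exact k2 x (by linarith)

/-- The total current leaving the pole `1`. -/
theorem flux (hP : Pot S φ) {x : G} (hx : x ≠ 1) : ∑ s ∈ S, (φ s x + φ s⁻¹ x) = 1 := by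
  classical
  have h1 := (hP.dip x).rep (fun y => if y = 1 then 1 else 0)
    (sq_of_finite ((Set.finite_singleton 1).subset fun y hy => by simpa using hy)).dir
  have h2 : ∀ s, ∑' y, (φ x (y * s) - φ x y) *
      ((if y * s = 1 then (1 : ℝ) else 0) - if y = 1 then 1 else 0) = -(φ s x + φ s⁻¹ x) := by
    intro s
    have a1 : HasSum (fun y => (φ x (y * s) - φ x y) * if y * s = 1 then (1 : ℝ) else 0)
        (-φ x s⁻¹) := by
      convert hasSum_single s⁻¹ fun y hy => ?_ using 1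
      · simp [hP.one]
      · rw [if_neg fun e => hy (eq_inv_of_mul_eq_one_left e), mul_zero]
    have a2 : HasSum (fun y => (φ x (y * s) - φ x y) * if y = 1 then (1 : ℝ) else 0) (φ x s) := by
      convert hasSum_single (1 : G) fun y hy => ?_ using 1
      · simp [hP.one]
      · rw [if_neg hy, mul_zero]
    simp only [mul_sub]
    rw [(a1.sub a2).tsum_eq, hP.symm s, hP.symm s⁻¹]
    ring
  simp only [BB, h2, if_neg hx, if_true, Finset.sum_neg_distrib] at h1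
  linarith

end CvL

theorem cv_stmt : CvStmt := by
  intro G _ X _ _ _ _ S b φ co hS hD hO hP hK
  refine ⟨fun h => ?_, fun ε hε => ?_⟩
  · have : (nf G b b).NeBot := h
    have h1 : ∀ s, Tendsto (fun x => φ s x) (nf G b b) (𝓝 0) := fun s => by
      have e := ((hK.cont s).tendsto b).comp (nf_tendsto (G := G) (b := b) (ξ := b))
      have e2 : co s b = 0 := by simpa [hP.one] using hK.orb s 1
      rw [e2] at e
      exact e.congr fun x => hK.orb s x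
    have h2 := tendsto_finsetSum S fun s _ => (h1 s).add (h1 s⁻¹)
    have h3 : Tendsto (fun x => ∑ s ∈ S, (φ s x + φ s⁻¹ x)) (nf G b b) (𝓝 1) := by
      refine tendsto_const_nhds.congr' ?_
      filter_upwards [compl_mem_nf (Set.finite_singleton (1 : G))] with x hx
      exact (CvL.flux hP hx).symm
    simpa using tendsto_nhds_unique h2 h3
  · obtain ⟨U, d, hd, hU⟩ := hK.unif (half_pos hε)
    have h1 := (eventually_all_finset U).2 fun u _ => (eventually_all_finset U).2 fun u' _ =>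
      CvL.key' hS hD hO hP u u' hd
    refine (eventually_cofinite.1 h1).subset ?_
    rintro g ⟨z, k1, k2⟩ k3
    have ho : IsOpen {z : X | ε / 2 < dist (g • z) (g • b) ∧ ε / 2 < dist z (g⁻¹ • b)} :=
      (isOpen_lt continuous_const ((continuous_const_smul g).dist continuous_const)).inter
        (isOpen_lt continuous_const (continuous_id.dist continuous_const))
    obtain ⟨x, e1, e2⟩ := hK.dense.exists_mem_open ho
      ⟨z, (half_lt_self hε).trans_le k1, (half_lt_self hε).trans_le k2⟩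
    obtain ⟨u, e3⟩ := not_forall.1 fun e => (hU _ _ e).not_gt e2
    obtain ⟨hu, e4⟩ := Classical.not_imp.1 e3
    rw [hK.orb, hK.orb] at e4
    refine (hU _ _ fun u' hu' => ?_).not_gt e1
    rw [← mul_smul, hK.orb, hK.orb]
    exact k3 u hu u' hu' x (not_lt.1 e4)

end Pool.Agent.MP_4f4d9f_gt.Ku

end

section

/-! Local connectivity and bump functions. -/

namespace Pool.Agent.MP_4f4d9f_gt.Ku

open Filter Topology Hy

namespace LcL

theorem clamp_lip (a b : ℝ) : |clamp a - clamp b| ≤ |a - b| :=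
  (abs_max_sub_max_le_max _ _ _ _).trans (max_le (by simp)
    ((abs_min_sub_min_le_max _ _ _ _).trans (max_le (by simp) le_rfl)))

variable {G : Type} [Group G] {X : Type} [MetricSpace X] [CompactSpace X] [MulAction G X]
  [ContinuousConstSMul G X] {b ξ : X} {φ : G → G → ℝ} {co : G → X → ℝ}

omit [CompactSpace X] in
theorem shrink (hC : Cv G b) (hξ : ξ ∈ KK G b) {N : Set G} (hN : N ∈ nf G b ξ) :
    ∃ ε : ℝ, 0 < ε ∧ ∀ x : G, dist (x • b) ξ < ε → x ∈ N := by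
  obtain ⟨O, h1, h2⟩ := mem_nf.1 hN
  have h3 := (h2.image fun x : G => x • b).isClosed.compl_mem_nhds (x := ξ) (by
    rintro ⟨x, -, rfl⟩
    exact hC.orb_notMem x hξ)
  obtain ⟨ε, h4, h5⟩ := Metric.mem_nhds_iff.1 (inter_mem h1 h3)
  refine ⟨ε, h4, fun x hx => by_contra fun e => ?_⟩
  obtain ⟨h6, h7⟩ := h5 (Metric.mem_ball.2 hx)
  exact h7 ⟨x, ⟨h6, e⟩, rfl⟩

omit [CompactSpace X] [ContinuousConstSMul G X] in
theorem lim (hK : Kur φ b co) (u : G) :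
    Tendsto (fun x => |φ u x - co u ξ|) (nf G b ξ) (𝓝 0) := by
  have h1 : Tendsto (fun x => φ u x) (nf G b ξ) (𝓝 (co u ξ)) :=
    (((hK.cont u).tendsto ξ).comp nf_tendsto).congr fun x => hK.orb u x
  simpa using (h1.sub_const (co u ξ)).abs

theorem chi (hK : Kur φ b co) (hC : Cv G b) (hξ : ξ ∈ KK G b) {N : Set G} (hN : N ∈ nf G b ξ) :
    ∃ (χ : G → ℝ) (C : ℝ) (U : Finset G), 0 ≤ C ∧ I01 χ ∧ (∀ x ∉ N, χ x = 0) ∧
      (∀ᶠ x in nf G b ξ, χ x = 1) ∧ ∀ x y, |χ y - χ x| ≤ C * ∑ u ∈ U, |φ u y - φ u x| := by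
  obtain ⟨ε, hε, h1⟩ := shrink hC hξ hN
  obtain ⟨U, d, hd, h2⟩ := hK.unif hε
  refine ⟨fun x => clamp (2 - 2 / d * ∑ u ∈ U, |φ u x - co u ξ|), 2 / d, U, by positivity,
    fun x => clamp_mem _, fun x hx => clamp_of_le ?_, ?_, fun x y => (clamp_lip _ _).trans ?_⟩
  · have h3 : ¬ ∀ u ∈ U, |co u (x • b) - co u ξ| < d := fun e => hx (h1 x (h2 _ _ e))
    simp only [not_forall, not_lt, hK.orb] at h3
    obtain ⟨u, hu, h4⟩ := h3
    have h5 := h4.trans (Finset.single_le_sum (f := fun u => |φ u x - co u ξ|)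
      (fun _ _ => abs_nonneg _) hu)
    have h6 := mul_le_mul_of_nonneg_left h5 (show 0 ≤ 2 / d by positivity)
    rw [div_mul_cancel₀ _ hd.ne'] at h6
    linarith
  · have h3 : Tendsto (fun x => 2 / d * ∑ u ∈ U, |φ u x - co u ξ|) (nf G b ξ) (𝓝 0) := by
      simpa using (tendsto_finsetSum U fun u _ => lim (ξ := ξ) hK u).const_mul (2 / d)
    exact (h3.eventually_lt_const one_pos).mono fun x hx => clamp_of_ge (by linarith)
  · rw [sub_sub_sub_cancel_left, ← mul_sub, abs_mul, abs_of_nonneg (by positivity),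
      ← Finset.sum_sub_distrib]
    refine mul_le_mul_of_nonneg_left ((Finset.abs_sum_le_sum_abs _ _).trans
      (Finset.sum_le_sum fun u _ => (abs_abs_sub_abs_le_abs_sub _ _).trans_eq ?_)) (by positivity)
    rw [sub_sub_sub_cancel_right, abs_sub_comm]

end LcL

open LcL in
theorem lc_stmt : LcStmt := by
  intro G _ X _ _ _ _ S b φ co hS hP hT hK hC
  refine ⟨fun ξ F hF => ?_, fun ξ hξ N hN => ?_⟩
  · by_cases hξ : ξ ∈ KK G b
    swap
    · rw [not_neBot.1 hξ]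
      exact Or.inl mem_bot
    obtain ⟨χ, C, U, h1, -, h3, h4, h5⟩ := chi hK hC hξ hF
    obtain ⟨W, d, hd, h6⟩ := hT (F.indicator χ) C U h1 (fun x s hs => by
      by_cases e : Cr F x (x * s)
      · have e1 : x⁻¹ * (x * s) ∈ S := by rwa [inv_mul_cancel_left]
        have k1 := h3 x fun k => k (e.left e1)
        have k2 := h3 (x * s) fun k => k (e.right hS e1)
        rw [Set.indicator_apply_eq_zero.2 fun _ => k1, Set.indicator_apply_eq_zero.2 fun _ => k2,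
          sub_self, abs_zero]
        exact (abs_nonneg _).trans (h5 x (x * s))
      · have e1 := not_not.1 e
        by_cases k : x ∈ F
        · rw [Set.indicator_of_mem k, Set.indicator_of_mem (e1.1 k)]
          exact h5 x (x * s)
        · rw [Set.indicator_of_notMem k, Set.indicator_of_notMem fun k' => k (e1.2 k'), sub_self,
            abs_zero]
          exact (abs_nonneg _).trans (h5 x (x * s))) 1 one_pos
    have h7 : ∀ᶠ x in nf G b ξ, χ x = 1 ∧ ∀ w ∈ W, |φ w x - co w ξ| < d / 2 :=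
      h4.and ((eventually_all_finset W).2 fun w _ =>
        (lim hK w).eventually_lt_const (half_pos hd))
    by_contra e
    rw [not_or] at e
    obtain ⟨x, ⟨a1, a2⟩, a3⟩ := by_contra fun k : ¬ ∃ x, (χ x = 1 ∧
        ∀ w ∈ W, |φ w x - co w ξ| < d / 2) ∧ x ∉ F =>
      e.1 (mem_of_superset h7 fun x hx => by_contra fun k' => k ⟨x, hx, k'⟩)
    obtain ⟨y, ⟨b1, b2⟩, b3⟩ := by_contra fun k : ¬ ∃ x, (χ x = 1 ∧
        ∀ w ∈ W, |φ w x - co w ξ| < d / 2) ∧ x ∈ F =>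
      e.2 (mem_of_superset h7 fun x hx k' => k ⟨x, hx, k'⟩)
    have h8 := h6 y x fun w hw => by
      have c1 := abs_lt.1 (a2 w hw)
      have c2 := abs_lt.1 (b2 w hw)
      rw [abs_lt]
      constructor <;> linarith [c1.1, c1.2, c2.1, c2.2]
    rw [Set.indicator_of_mem b3, Set.indicator_of_notMem a3, b1, sub_zero, abs_one] at h8
    exact lt_irrefl _ h8
  · obtain ⟨χ, C, U, h1, h2, h3, h4, h5⟩ := chi hK hC hξ hN
    refine ⟨χ, fun s hs => ?_, h2, h3, fun e => ?_⟩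
    · exact ((Sq.sum U fun u _ => (hP.dir u s hs).abs).const_mul C).of_le fun x =>
        (h5 x (x * s)).trans (le_abs_self _)
    · refine infinite_of_mem hξ (mem_of_superset h4 fun x hx => ?_) (e.finite one_pos)
      have : χ x = 1 := hx
      change 1 ≤ |χ x|
      rw [this, abs_one]

end Pool.Agent.MP_4f4d9f_gt.Ku

end

section

/-! Generic levels: for uncountably many levels the gradients near the level set are summable. -/

namespace Pool.Agent.MP_4f4d9f_gt.Hy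

open Filter Topology MeasureTheory

namespace GenericL

theorem ae_summable {ι : Type} [Countable ι] (c r w : ι → ℝ) (hr : ∀ a, 0 ≤ r a)
    (hw : ∀ a, 0 ≤ w a) (hs : Summable fun a => r a * w a) :
    ∀ᵐ t : ℝ, Summable (Set.indicator {a | |c a - t| ≤ r a} w) := by
  let F : ι → ℝ → ENNReal := fun a =>
    Set.indicator (Set.Icc (c a - r a) (c a + r a)) fun _ => ENNReal.ofReal (w a)
  have hF : ∀ a, Measurable (F a) := fun a => measurable_const.indicator measurableSet_Icc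
  have hI : ∀ a, ∫⁻ t, F a t = ENNReal.ofReal (2 * (r a * w a)) := by
    intro a
    rw [lintegral_indicator_const measurableSet_Icc, Real.volume_Icc,
      ← ENNReal.ofReal_mul (hw a)]
    congr 1
    ring
  have hT : ∫⁻ t, ∑' a, F a t ≠ ⊤ := by
    rw [lintegral_tsum fun a => (hF a).aemeasurable]
    simp_rw [hI]
    rw [← ENNReal.ofReal_tsum_of_nonneg
      (fun a => mul_nonneg zero_le_two (mul_nonneg (hr a) (hw a))) (hs.mul_left 2)]
    exact ENNReal.ofReal_ne_top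
  have hA := ae_lt_top' (AEMeasurable.tsum fun a => (hF a).aemeasurable) hT
  filter_upwards [hA] with t ht
  refine (ENNReal.summable_toReal ht.ne).congr fun a => ?_
  by_cases h : |c a - t| ≤ r a
  · have h1 : t ∈ Set.Icc (c a - r a) (c a + r a) := by
      obtain ⟨h2, h3⟩ := abs_le.1 h
      constructor <;> linarith
    have h2 : a ∈ {a | |c a - t| ≤ r a} := h
    simp only [F]
    rw [Set.indicator_of_mem h1, Set.indicator_of_mem h2, ENNReal.toReal_ofReal (hw a)]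
  · have h1 : t ∉ Set.Icc (c a - r a) (c a + r a) := fun h1 =>
      h (abs_le.2 ⟨by linarith [h1.2], by linarith [h1.1]⟩)
    have h2 : a ∉ {a | |c a - t| ≤ r a} := h
    simp only [F]
    rw [Set.indicator_of_notMem h1, Set.indicator_of_notMem h2, ENNReal.toReal_zero]

end GenericL

theorem generic_stmt : GenericStmt := by
  intro G _ S u hS hu α β hαβ
  have := hS.countable
  have h : ∀ᵐ t : ℝ, ∀ g : G,
      Summable (Set.indicator {a | |u a - t| ≤ DD S u a} (DD S fun x => u (g * x))) :=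
    ae_all_iff.2 fun g => GenericL.ae_summable u (DD S u) (DD S fun x => u (g * x))
      (dd_nonneg S u) (dd_nonneg S _) (hu.dd.summable_mul (hu.mul_left g).dd)
  refine ⟨Set.Ioo α β ∩ {t | ∀ g : G,
      Summable (Set.indicator {a | |u a - t| ≤ DD S u a} (DD S fun x => u (g * x)))},
    Set.inter_subset_left, fun hc => ?_, fun t ht => ht.2⟩
  have h0 := hc.measure_zero (volume : Measure ℝ)
  rw [Set.inter_comm, Measure.measure_inter_eq_of_ae (t := {t | ∀ g : G,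
      Summable (Set.indicator {a | |u a - t| ≤ DD S u a} (DD S fun x => u (g * x)))}) h] at h0
  rw [Real.volume_Ioo, ENNReal.ofReal_eq_zero] at h0
  linarith

end Pool.Agent.MP_4f4d9f_gt.Hy

end

section

/-! The order argument for invariant nested families of subsets of a torsion free group. -/

namespace Pool.Agent.MP_4f4d9f_gt.Hy

open scoped Pointwise

namespace OrdL

variable {G : Type} [Group G] {𝓕 : Set (Set G)}

/-- Two members above a nonempty set and below a member are comparable. -/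
theorem cmp (hF : OrdFam 𝓕) {A B D y : Set G} (hA : A ∈ 𝓕) (hB : B ∈ 𝓕) (hD : D ∈ 𝓕)
    (hy : y.Nonempty) (h1 : y ⊆ A) (h2 : y ⊆ B) (h3 : A ⊆ D) (h4 : B ⊆ D) : A ⊆ B ∨ B ⊆ A :=
  hF.chain A hA B hB (hy.mono (Set.subset_inter h1 h2)) fun e =>
    hF.proper D hD (Set.eq_univ_of_univ_subset (e ▸ Set.union_subset h3 h4))

/-- Finitely many translates of an interval lie in a given interval. -/
theorem fin (hF : OrdFam 𝓕) {F1 F2 E1 E2 : Set G} (h1 : F1 ∈ 𝓕) (h2 : F2 ∈ 𝓕) (h3 : E1 ∈ 𝓕)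
    (h4 : E2 ∈ 𝓕) (h : F1 ⊂ F2) : {g : G | E1 ⊆ g • F1 ∧ g • F2 ⊆ E2}.Finite := by
  obtain ⟨a, ha⟩ := hF.ne E1 h3
  obtain ⟨b, hb⟩ := (Set.ne_univ_iff_exists_notMem _).1 (hF.proper E2 h4)
  refine Set.Finite.of_finite_image (f := fun g => g⁻¹ * a)
    ((hF.af F1 h1 F2 h2 h (a⁻¹ * b)).subset ?_) ?_
  · rintro _ ⟨g, ⟨e1, e2⟩, rfl⟩
    refine ⟨Set.mem_smul_set_iff_inv_smul_mem.1 (e1 ha), fun e => hb (e2 ?_)⟩
    rw [Set.mem_smul_set_iff_inv_smul_mem]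
    simpa [mul_assoc] using e
  · intro g _ g' _ e
    simpa using e

theorem fin' (hF : OrdFam 𝓕) {z0 z1 Es : Set G} (h0 : z0 ∈ 𝓕) (h1 : z1 ∈ 𝓕) (hE : Es ∈ 𝓕)
    (h : z1 ⊂ Es) : {g : G | g • z0 ⊆ z1 ∧ Es ⊆ g • Es}.Finite := by
  refine Set.Finite.of_finite_image (f := fun g => g⁻¹) ((fin hF h1 hE h0 hE h).subset ?_)
    inv_injective.injOn
  rintro _ ⟨g, ⟨e1, e2⟩, rfl⟩
  exact ⟨Set.smul_set_subset_iff_subset_inv_smul_set.1 e1, Set.subset_smul_set_iff.1 e2⟩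

theorem inf_pow (hG : ∀ g : G, IsOfFinOrder g → g = 1) {g : G} (hg : g ≠ 1) {T : Set G}
    (h : ∀ n : ℕ, g ^ n ∈ T) : T.Infinite :=
  Set.infinite_of_injective_forall_mem
    (injective_pow_iff_not_isOfFinOrder.2 fun e => hg (hG g e)) h

theorem sub_pow {g : G} {A : Set G} (h : A ⊆ g • A) (n : ℕ) : A ⊆ g ^ n • A := by
  induction n with
  | zero => simp
  | succ n ih =>
    rw [pow_succ, mul_smul]
    exact ih.trans (Set.smul_set_mono h)

theorem pow_sub {g : G} {A : Set G} (h : g • A ⊆ A) (n : ℕ) : g ^ n • A ⊆ A := by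
  induction n with
  | zero => simp
  | succ n ih =>
    rw [pow_succ, mul_smul]
    exact (Set.smul_set_mono h).trans ih

theorem pow_mono {g : G} {A : Set G} (h : A ⊆ g • A) {m n : ℕ} (e : m ≤ n) :
    g ^ m • A ⊆ g ^ n • A := by
  obtain ⟨k, rfl⟩ := Nat.exists_eq_add_of_le e
  rw [pow_add, mul_smul]
  exact Set.smul_set_mono (sub_pow h k)

/-- No nesting. -/
theorem nn (hG : ∀ g : G, IsOfFinOrder g → g = 1) (hF : OrdFam 𝓕) {F1 F2 : Set G} (h1 : F1 ∈ 𝓕)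
    (h2 : F2 ∈ 𝓕) (h : F1 ⊂ F2) {g : G} (e1 : F1 ⊆ g • F1) (e2 : g • F2 ⊆ F2) : g = 1 := by
  by_contra hg
  exact inf_pow hG hg (T := {g : G | F1 ⊆ g • F1 ∧ g • F2 ⊆ F2})
    (fun n => ⟨sub_pow e1 n, pow_sub e2 n⟩) (fin hF h1 h2 h1 h2 h)

/-- Monotonicity. -/
theorem mono (hG : ∀ g : G, IsOfFinOrder g → g = 1) (hF : OrdFam 𝓕) {y z D : Set G} (hy : y ∈ 𝓕)
    (hz : z ∈ 𝓕) (hD : D ∈ 𝓕) (hyz : y ⊆ z) {a t : G} (h : a • y ⊆ t • y) (h1 : a • z ⊆ D)
    (h2 : t • z ⊆ D) : a • z ⊆ t • z := by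
  rcases hyz.eq_or_ssubset with rfl | hlt
  · exact h
  rcases cmp hF (hF.smul a z hz) (hF.smul t z hz) hD (hF.ne _ (hF.smul a y hy))
    (Set.smul_set_mono hyz) (h.trans (Set.smul_set_mono hyz)) h1 h2 with e | e
  · exact e
  have := nn hG hF hy hz hlt (g := a⁻¹ * t)
    (by rw [mul_smul]; exact Set.smul_set_subset_iff_subset_inv_smul_set.1 h)
    (by rw [mul_smul]; exact Set.subset_smul_set_iff.1 e)
  rw [inv_mul_eq_one.1 this]

/-- Positive elements. -/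
def P (Es y : Set G) (a : G) : Prop := a ≠ 1 ∧ y ⊆ a • y ∧ Es ⊆ a • Es

theorem P.up (hG : ∀ g : G, IsOfFinOrder g → g = 1) (hF : OrdFam 𝓕) {Es y z : Set G}
    (hE : Es ∈ 𝓕) (hy : y ∈ 𝓕) (hz : z ∈ 𝓕) {a : G} (h : P Es y a) (h1 : y ⊆ z) (h2 : z ⊆ Es) :
    P Es z a := by
  refine ⟨h.1, ?_, h.2.2⟩
  have := mono hG hF hy hz (hF.smul a Es hE) h1 (a := 1) (t := a) (by simpa using h.2.1)
    (by simpa using h2.trans h.2.2) (Set.smul_set_mono h2)
  simpa using this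

theorem P.strict (hG : ∀ g : G, IsOfFinOrder g → g = 1) (hF : OrdFam 𝓕) {Es y : Set G}
    (hE : Es ∈ 𝓕) (hy : y ∈ 𝓕) {a : G} (h : P Es y a) (h1 : y ⊂ Es) : y ⊂ a • y :=
  ⟨h.2.1, fun e => h.1 (inv_eq_one.1 (nn hG hF hy hE h1
    (Set.smul_set_subset_iff_subset_inv_smul_set.1 e) (Set.subset_smul_set_iff.1 h.2.2)))⟩

theorem P.mono (hG : ∀ g : G, IsOfFinOrder g → g = 1) (hF : OrdFam 𝓕) {Es y z : Set G}
    (hE : Es ∈ 𝓕) (hy : y ∈ 𝓕) (hz : z ∈ 𝓕) {a t : G} (h : P Es y a) (h0 : a • y ⊆ t • y)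
    (h1 : y ⊆ z) (h2 : z ⊆ Es) (h3 : t • z ⊆ Es) : a • z ⊆ t • z :=
  OrdL.mono hG hF hy hz (hF.smul a Es hE) h1 h0 (Set.smul_set_mono h2) (h3.trans h.2.2)

theorem P.pow_le (hG : ∀ g : G, IsOfFinOrder g → g = 1) (hF : OrdFam 𝓕) {Es y : Set G}
    (hE : Es ∈ 𝓕) (hy : y ∈ 𝓕) {a t : G} (h : P Es y a) (h0 : a • y ⊆ t • y) (ht : y ⊆ t • y)
    (n : ℕ) (hn : t ^ n • y ⊆ Es) : a ^ n • y ⊆ t ^ n • y := by
  induction n with
  | zero => simp
  | succ n ih =>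
    have e := (pow_mono ht n.le_succ).trans hn
    rw [pow_succ', mul_smul] at hn
    rw [pow_succ', pow_succ', mul_smul, mul_smul]
    exact (Set.smul_set_mono (ih e)).trans
      (h.mono hG hF hE hy (hF.smul _ y hy) h0 (sub_pow ht n) e hn)

omit [Group G] in
/-- A least member of a finite chain. -/
theorem exists_min {ι : Type} {T : Set ι} (hT : T.Finite) (hne : T.Nonempty) (f : ι → Set G)
    (h : ∀ i ∈ T, ∀ j ∈ T, f i ⊆ f j ∨ f j ⊆ f i) : ∃ i ∈ T, ∀ j ∈ T, f i ⊆ f j := by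
  obtain ⟨i, hi⟩ := hT.exists_minimalFor f T hne
  exact ⟨i, hi.1, fun j hj => (h i hi.1 j hj).elim id fun e => hi.2 hj e⟩

/-- Five points of one type give a short positive element. -/
theorem sh (hG : ∀ g : G, IsOfFinOrder g → g = 1) (hF : OrdFam 𝓕) {Es E : Set G}
    (hEs : Es ∈ 𝓕) (hE : E ∈ 𝓕) (hlt : E ⊂ Es) (h : ¬ Few E Es) :
    ∃ a, P Es E a ∧ a ^ 4 • E ⊂ Es := by
  classical
  simp only [Few, not_forall, not_le] at h
  obtain ⟨s, s', h⟩ := h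
  obtain ⟨A, hA, hc⟩ := Set.exists_subset_encard_eq
    (show ((5 : ℕ) : ℕ∞) ≤ _ from Order.add_one_le_of_lt h)
  have hAf : A.Finite := Set.finite_of_encard_eq_coe hc
  have mem : ∀ (a x : G) (B : Set G), x ∈ a⁻¹ • B ↔ a * x ∈ B := fun a x B => by
    rw [Set.mem_inv_smul_set_iff, smul_eq_mul]
  have ch : ∀ a ∈ A, ∀ b ∈ A, ∀ B ∈ 𝓕, ∀ D ∈ 𝓕, E ⊆ B → B ⊆ Es → E ⊆ D → D ⊆ Es →
      a⁻¹ • B ⊆ b⁻¹ • D ∨ b⁻¹ • D ⊆ a⁻¹ • B := by
    intro a ha b hb B hB D hD e1 e2 e3 e4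
    refine hF.chain _ (hF.smul _ _ hB) _ (hF.smul _ _ hD) ⟨1, ?_, ?_⟩ fun e => ?_
    · rw [mem, mul_one]; exact e1 (hA ha).1
    · rw [mem, mul_one]; exact e3 (hA hb).1
    · have : s' ∈ a⁻¹ • B ∪ b⁻¹ • D := e ▸ Set.mem_univ _
      rw [Set.mem_union, mem, mem] at this
      exact this.elim (fun e => (hA ha).2.2.2 (e2 e)) fun e => (hA hb).2.2.2 (e4 e)
  have lt : ∀ a ∈ A, ∀ b ∈ A, (a * b⁻¹) • E ⊂ Es := by
    intro a ha b hb
    have e0 : ¬ a⁻¹ • Es ⊆ b⁻¹ • E := fun e =>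
      (hA hb).2.2.1 ((mem _ _ _).1 (e ((mem _ _ _).2 (hA ha).2.1)))
    have e1 := (ch a ha b hb Es hEs E hE hlt.1 subset_rfl subset_rfl hlt.1).resolve_left e0
    rw [mul_smul]
    exact ⟨Set.smul_set_subset_iff_subset_inv_smul_set.2 e1,
      fun e => e0 (Set.subset_smul_set_iff.1 e)⟩
  have sub : ∀ a b : G, ∀ B : Set G, a⁻¹ • B ⊆ b⁻¹ • B → B ⊆ (a * b⁻¹) • B := fun a b B e => by
    rw [mul_smul]
    exact Set.subset_smul_set_iff.2 e
  have pos : ∀ a ∈ A, ∀ b ∈ A, a ≠ b → a⁻¹ • E ⊆ b⁻¹ • E → P Es E (a * b⁻¹) := by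
    intro a ha b hb hab e
    have hne : a * b⁻¹ ≠ 1 := fun e => hab (mul_inv_eq_one.1 e)
    refine ⟨hne, sub _ _ _ e, sub _ _ _ ?_⟩
    refine (ch a ha b hb Es hEs Es hEs hlt.1 subset_rfl hlt.1 subset_rfl).resolve_right
      fun e' => hne (nn hG hF hE hEs hlt (sub _ _ _ e) ?_)
    rw [mul_smul]
    exact Set.smul_set_subset_iff_subset_inv_smul_set.2 e'
  have tot : ∀ a ∈ A, ∀ b ∈ A, a⁻¹ • E ⊆ b⁻¹ • E ∨ b⁻¹ • E ⊆ a⁻¹ • E := fun a ha b hb =>
    ch a ha b hb E hE E hE subset_rfl hlt.1 subset_rfl hlt.1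
  obtain ⟨p, hp, hmin⟩ := exists_min
    (T := {p : G × G | p ∈ A ×ˢ A ∧ p.1 ≠ p.2 ∧ p.1⁻¹ • E ⊆ p.2⁻¹ • E})
    ((hAf.prod hAf).subset fun _ e => e.1) (by
      obtain ⟨a, b, ha, hb, hab⟩ := Set.one_lt_encard_iff.1 (show 1 < A.encard by
        rw [hc]; norm_num)
      rcases tot a ha b hb with e | e
      · exact ⟨(a, b), ⟨ha, hb⟩, hab, e⟩
      · exact ⟨(b, a), ⟨hb, ha⟩, hab.symm, e⟩)
    (fun p => (p.1 * p.2⁻¹) • E) fun p hp q hq =>
      cmp hF (hF.smul _ _ hE) (hF.smul _ _ hE) hEs (hF.ne _ hE) (sub _ _ _ hp.2.2)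
        (sub _ _ _ hq.2.2) (lt _ hp.1.1 _ hp.1.2).1 (lt _ hq.1.1 _ hq.1.2).1
  have hη := pos _ hp.1.1 _ hp.1.2 hp.2.1 hp.2.2
  have key : ∀ n : ℕ, ∀ B : Finset G, (B : Set G) ⊆ A → B.card = n + 1 →
      ∃ a ∈ B, ∃ b ∈ B, a⁻¹ • E ⊆ b⁻¹ • E ∧ (p.1 * p.2⁻¹) ^ n • E ⊆ (a * b⁻¹) • E := by
    intro n
    induction n with
    | zero =>
      intro B _ hB
      obtain ⟨a, ha⟩ := Finset.card_pos.1 (show 0 < B.card by omega)
      exact ⟨a, ha, a, ha, subset_rfl, by simp⟩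
    | succ n ih =>
      intro B hBA hB
      obtain ⟨m, hm, hm'⟩ := exists_min B.finite_toSet
        (Finset.card_pos.1 (show 0 < B.card by omega)) (fun a => a⁻¹ • E)
        fun a ha b hb => tot a (hBA ha) b (hBA hb)
      obtain ⟨a, ha, b, hb, e1, e2⟩ := ih (B.erase m)
        ((Finset.coe_subset.2 (Finset.erase_subset m B)).trans hBA)
        (by rw [Finset.card_erase_of_mem hm]; omega)
      have ha' := Finset.mem_of_mem_erase ha
      have hb' := Finset.mem_of_mem_erase hb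
      refine ⟨m, hm, b, hb', hm' b hb', ?_⟩
      have e3 : (m * a⁻¹) • (a * b⁻¹) • E = (m * b⁻¹) • E := by
        rw [smul_smul]; congr 1; group
      have e4 := hη.mono hG hF hEs hE (hF.smul (a * b⁻¹) E hE)
        (hmin (m, a) ⟨⟨hBA hm, hBA ha'⟩, (Finset.ne_of_mem_erase ha).symm, hm' a ha'⟩)
        (sub _ _ _ e1) (lt a (hBA ha') b (hBA hb')).1
        (by rw [e3]; exact (lt m (hBA hm) b (hBA hb')).1)
      rw [pow_succ', mul_smul, ← e3]
      exact (Set.smul_set_mono e2).trans e4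
  obtain ⟨a, ha, b, hb, -, e⟩ := key 4 hAf.toFinset (by simp) (by
    have := hAf.encard_eq_coe_toFinset_card
    rw [hc] at this
    exact_mod_cast this.symm)
  exact ⟨_, hη, e.trans_ssubset (lt a (by simpa using ha) b (by simpa using hb))⟩

/-- The Euclidean algorithm. -/
theorem euclid (hG : ∀ g : G, IsOfFinOrder g → g = 1) (hF : OrdFam 𝓕) {Es z0 z1 : Set G}
    (hE : Es ∈ 𝓕) (h0 : z0 ∈ 𝓕) (h1 : z1 ∈ 𝓕) (h01 : z0 ⊆ z1) (hlt : z1 ⊂ Es) (n : ℕ) :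
    ∀ (a b : G), ∀ y ∈ 𝓕, P Es y a → P Es y b → (a * b) • y ⊆ z0 → (b * a) • y ⊆ z0 →
      a • z0 ⊆ z1 → b • z0 ⊆ z1 →
      {g : G | g • z0 ⊆ a • z0 ∧ Es ⊆ g • Es}.ncard +
        {g : G | g • z0 ⊆ b • z0 ∧ Es ⊆ g • Es}.ncard = n → a * b = b * a := by
  induction n using Nat.strong_induction_on with
  | _ n ih =>
  intro a b y hy ha hb e1 e2 e3 e4 hn
  have ay : a • y ⊆ z0 := (Set.smul_set_mono hb.2.1).trans (by rwa [smul_smul])
  have by' : b • y ⊆ z0 := (Set.smul_set_mono ha.2.1).trans (by rwa [smul_smul])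
  wlog hba : b • y ⊆ a • y generalizing a b
  · refine (this b a hb ha e2 e1 e4 e3 (by omega) by' ay ?_).symm
    exact (cmp hF (hF.smul a y hy) (hF.smul b y hy) h0 (hF.ne y hy) ha.2.1 hb.2.1 ay
      by').resolve_right hba
  by_cases hc : a * b⁻¹ = 1
  · rw [mul_inv_eq_one.1 hc]
  have h0E : z0 ⊂ Es := h01.trans_ssubset hlt
  have hby := hF.smul b y hy
  have c1 : (a * b⁻¹) • b • y = a • y := by rw [mul_smul, inv_smul_smul]
  have c2 : Es ⊆ (a * b⁻¹) • Es := by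
    have := mono hG hF hby hE (hF.smul a Es hE) (by'.trans h0E.1) (a := 1) (t := a * b⁻¹)
      (by rwa [one_smul, c1]) (by simpa using ha.2.2)
      (by rw [mul_smul]; exact Set.smul_set_mono (Set.subset_smul_set_iff.1 hb.2.2))
    simpa using this
  have c3 := (hb.up hG hF hE hy h0 (hb.2.1.trans by') h0E.1).strict hG hF hE h0 h0E
  have c4 : (a * b⁻¹) • z0 ⊆ a • z0 := by
    rw [mul_smul]
    exact Set.smul_set_mono (Set.subset_smul_set_iff.1 c3.1)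
  have c5 : ¬ a • z0 ⊆ (a * b⁻¹) • z0 := fun e => by
    rw [mul_smul, Set.smul_set_subset_smul_set_iff] at e
    exact c3.2 (Set.smul_set_subset_iff_subset_inv_smul_set.2 e)
  have c6 : {g : G | g • z0 ⊆ (a * b⁻¹) • z0 ∧ Es ⊆ g • Es}.ncard <
      {g : G | g • z0 ⊆ a • z0 ∧ Es ⊆ g • Es}.ncard :=
    Set.ncard_lt_ncard ⟨fun g hg => ⟨hg.1.trans c4, hg.2⟩,
      fun e => c5 (e (show a ∈ {g : G | g • z0 ⊆ a • z0 ∧ Es ⊆ g • Es} from
        ⟨subset_rfl, ha.2.2⟩)).1⟩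
      ((fin' hF h0 h1 hE hlt).subset fun g hg => ⟨hg.1.trans e3, hg.2⟩)
  have := ih _ (by omega) (a * b⁻¹) b (b • y) hby ⟨hc, by rwa [c1], c2⟩
    ⟨hb.1, Set.smul_set_mono hb.2.1, hb.2.2⟩
    (by rwa [inv_mul_cancel_right, smul_smul])
    (by rwa [mul_smul, c1, smul_smul]) (c4.trans e3) e4 rfl
  rw [inv_mul_cancel_right, ← mul_assoc] at this
  exact (eq_mul_inv_iff_mul_eq.1 this)

end OrdL

open OrdL in
/-- The order proposition. -/
theorem ord_stmt : OrdStmt := by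
  intro G _ hG 𝓕 hF y0 hy0 Es hE hlt
  by_contra hcon
  have SH : ∀ E ∈ 𝓕, y0 ⊆ E → E ⊂ Es → ∃ a, P Es E a ∧ a ^ 4 • E ⊂ Es := fun E h1 h2 h3 =>
    sh hG hF hE h1 h3 fun e => hcon ⟨E, h1, h2, h3, e⟩
  obtain ⟨a0, ha0, ha4⟩ := SH y0 hy0 subset_rfl hlt
  have ha1 : a0 • y0 ⊂ Es := by
    have := pow_mono ha0.2.1 (show 1 ≤ 4 by norm_num)
    rw [pow_one] at this
    exact this.trans_ssubset ha4
  obtain ⟨η, ⟨hη, hηa⟩, hmin⟩ := exists_min (T := {g : G | P Es y0 g ∧ g • y0 ⊆ a0 • y0})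
    ((fin' hF hy0 (hF.smul a0 y0 hy0) hE ha1).subset fun g hg => ⟨hg.2, hg.1.2.2⟩)
    ⟨a0, ha0, subset_rfl⟩ (fun g => g • y0) fun g hg g' hg' =>
      cmp hF (hF.smul _ _ hy0) (hF.smul _ _ hy0) (hF.smul a0 _ hy0) (hF.ne _ hy0) hg.1.2.1
        hg'.1.2.1 hg.2 hg'.2
  have hη4 : η ^ 4 • y0 ⊂ Es :=
    (hη.pow_le hG hF hE hy0 hηa ha0.2.1 4 ha4.1).trans_ssubset ha4
  obtain ⟨k, hk3, hk4⟩ : ∃ k : ℕ, η ^ (k + 3) • y0 ⊂ Es ∧ ¬ η ^ (k + 4) • y0 ⊂ Es := by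
    by_contra hno
    have all : ∀ k : ℕ, η ^ (k + 3) • y0 ⊂ Es := by
      intro k
      induction k with
      | zero => exact (pow_mono hη.2.1 (by norm_num)).trans_ssubset hη4
      | succ k ih =>
        by_contra e
        exact hno ⟨k, ih, e⟩
    refine inf_pow hG hη.1 (T := {g : G | y0 ⊆ g • y0 ∧ g • η • y0 ⊆ Es}) (fun n => ?_)
      (fin hF hy0 (hF.smul η y0 hy0) hy0 hE (hη.strict hG hF hE hy0 hlt))
    refine ⟨sub_pow hη.2.1 n, ?_⟩
    rw [smul_smul, ← pow_succ]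
    exact (pow_mono hη.2.1 (by omega)).trans (all n).1
  have hy := hF.smul (η ^ k) y0 hy0
  have sp : ∀ j : ℕ, η ^ j • η ^ k • y0 = η ^ (k + j) • y0 := fun j => by
    rw [smul_smul, ← pow_add, add_comm]
  rw [← sp] at hk3 hk4
  have hy0y : y0 ⊆ η ^ k • y0 := sub_pow hη.2.1 k
  generalize hyd : η ^ k • y0 = y at hy hk3 hk4 hy0y
  have hηy : y ⊆ η • y := by
    rw [← hyd, smul_smul, ← pow_succ']
    exact pow_mono hη.2.1 k.le_succ
  have hj : ∀ j ≤ 3, η ^ j • y ⊂ Es := fun j hj => (pow_mono hηy hj).trans_ssubset hk3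
  have hyE : y ⊂ Es := by simpa using hj 0 (by norm_num)
  have h1E : η • y ⊂ Es := by simpa using hj 1 (by norm_num)
  have hη' : P Es y η := ⟨hη.1, hηy, hη.2.2⟩
  obtain ⟨a, ha, hb4⟩ := SH y hy hy0y hyE
  have haE : a • y ⊆ Es := by
    have := pow_mono ha.2.1 (show 1 ≤ 4 by norm_num)
    rw [pow_one] at this
    exact this.trans hb4.1
  have n1 : ¬ η • y ⊆ a • y := fun e =>
    hk4 ((hη'.pow_le hG hF hE hy e ha.2.1 4 hb4.1).trans_ssubset hb4)
  have n2 : a • y ⊆ η • y := (cmp hF (hF.smul a y hy) (hF.smul η y hy) hE (hF.ne y hy) ha.2.1 hηy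
    haE h1E.1).resolve_right n1
  have s2 : η ^ 2 • y = η • η • y := by rw [smul_smul, sq]
  have s3 : η ^ 3 • y = η • η ^ 2 • y := by rw [smul_smul, ← pow_succ']
  have com : a * η = η * a := by
    refine euclid hG hF hE (hF.smul (η ^ 2) y hy) (hF.smul (η ^ 3) y hy)
      (pow_mono hηy (by norm_num)) hk3 _ a η y hy ha hη' ?_ ?_ ?_ s3.symm.subset rfl
    · rw [mul_smul, s2]
      exact ha.mono hG hF hE hy (hF.smul η y hy) n2 hηy h1E.1 (s2 ▸ (hj 2 (by norm_num)).1)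
    · rw [mul_smul, s2]
      exact Set.smul_set_mono n2
    · rw [s3]
      exact ha.mono hG hF hE hy (hF.smul _ y hy) n2 (sub_pow hηy 2) (hj 2 (by norm_num)).1
        (s3 ▸ hk3.1)
  have ck : ∀ b : G, b * η = η * b → b • y = η ^ k • b • y0 := fun b hb => by
    rw [← hyd, smul_smul, smul_smul, ((show Commute b η from hb).pow_right k).eq]
  have f1 : y0 ⊆ a • y0 := by
    have := ha.2.1
    rw [ck a com, ← hyd] at this
    exact Set.smul_set_subset_smul_set_iff.1 this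
  rw [ck a com, ck η rfl, Set.smul_set_subset_smul_set_iff] at n1 n2
  exact n1 (hmin a ⟨⟨ha.1, f1, ha.2.2⟩, n2.trans hηa⟩)

end Pool.Agent.MP_4f4d9f_gt.Hy

end

section

/-! There is no strictly increasing sequence with nested translates. -/

namespace Pool.Agent.MP_4f4d9f_gt.Ku

open Filter Topology Hy
open scoped Pointwise

namespace OrdLimL

variable {G : Type}

/-- Increasing unions of nested sets are nested. -/
theorem chain_union {A B : ℕ → Set G} (hA : Monotone A) (hB : Monotone B)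
    (h : ∀ n, (A n ∩ B n).Nonempty → A n ∪ B n ≠ Set.univ → A n ⊆ B n ∨ B n ⊆ A n)
    (h1 : ((⋃ n, A n) ∩ ⋃ n, B n).Nonempty) (h2 : (⋃ n, A n) ∪ ⋃ n, B n ≠ Set.univ) :
    (⋃ n, A n) ⊆ ⋃ n, B n ∨ (⋃ n, B n) ⊆ ⋃ n, A n := by
  by_contra e
  obtain ⟨e1, e2⟩ := not_or.1 e
  obtain ⟨x, hx1, hx2⟩ := h1
  obtain ⟨a, ha1, ha2⟩ := Set.not_subset.1 e1
  obtain ⟨b, hb1, hb2⟩ := Set.not_subset.1 e2
  obtain ⟨i, hi⟩ := Set.mem_iUnion.1 hx1
  obtain ⟨j, hj⟩ := Set.mem_iUnion.1 hx2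
  obtain ⟨k, hk⟩ := Set.mem_iUnion.1 ha1
  obtain ⟨l, hl⟩ := Set.mem_iUnion.1 hb1
  rcases h (i + j + k + l) ⟨x, hA (by omega) hi, hB (by omega) hj⟩ (fun k => h2
    (Set.univ_subset_iff.1 (k ▸ Set.union_subset_union (Set.subset_iUnion _ _)
      (Set.subset_iUnion _ _)))) with c | c
  · exact ha2 (Set.mem_iUnion.2 ⟨_, c (hA (by omega) hk)⟩)
  · exact hb2 (Set.mem_iUnion.2 ⟨_, c (hB (by omega) hl)⟩)

variable [Group G]

/-- The translates of the sets and of their union. -/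
def Fm (E : ℕ → Set G) : Set (Set G) := {A | ∃ g : G, (∃ k, A = g • E k) ∨ A = g • ⋃ k, E k}

variable {E : ℕ → Set G} {A : Set G}

theorem rep (hA : A ∈ Fm E) : ∃ (g : G) (σ : ℕ → ℕ), Monotone σ ∧ A = ⋃ n, g • E (σ n) := by
  obtain ⟨g, ⟨k, rfl⟩ | rfl⟩ := hA
  · exact ⟨g, fun _ => k, monotone_const, (Set.iUnion_const _).symm⟩
  · exact ⟨g, id, monotone_id, Set.smul_set_iUnion _ _⟩

theorem smul_ssub (g : G) {B : Set G} (h : A ⊂ B) : g • A ⊂ g • B :=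
  ⟨Set.smul_set_mono h.1, fun e => h.2 (Set.smul_set_subset_smul_set_iff.1 e)⟩

theorem fam3 (hE : StrictMono E)
    (ch : ∀ (g h : G) j k, (g • E j ∩ h • E k).Nonempty → g • E j ∪ h • E k ≠ Set.univ →
      g • E j ⊆ h • E k ∨ h • E k ⊆ g • E j)
    (af : ∀ (g h f : G) i j k, g • E i ⊂ h • E j → h • E j ⊂ f • E k →
      ∀ w : G, {x | x ∈ g • E i ∧ x * w ∉ f • E k}.Finite)
    (h0 : (E 0).Nonempty) (h1 : (⋃ k, E k) ≠ Set.univ) : Fam3 (Fm E) (⋃ k, E k) := by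
  have hne : ∀ A ∈ Fm E, A.Nonempty := fun A hA => by
    obtain ⟨g, σ, -, rfl⟩ := rep hA
    exact ((h0.mono (hE.monotone (Nat.zero_le (σ 0)))).smul_set (a := g)).mono
      (Set.subset_iUnion (fun n => g • E (σ n)) 0)
  have hu : ∀ g : G, g • (⋃ k, E k) ≠ Set.univ := fun g e => h1 (by
    rw [← inv_smul_smul g (⋃ k, E k), e, Set.smul_set_univ])
  have hch : ∀ A ∈ Fm E, ∀ B ∈ Fm E, (A ∩ B).Nonempty → A ∪ B ≠ Set.univ → A ⊆ B ∨ B ⊆ A := by
    intro A hA B hB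
    obtain ⟨g, σ, a, rfl⟩ := rep hA
    obtain ⟨h, τ, b, rfl⟩ := rep hB
    exact chain_union (fun _ _ e => Set.smul_set_mono (hE.monotone (a e)))
      (fun _ _ e => Set.smul_set_mono (hE.monotone (b e))) fun n => ch g h _ _
  have hs : ∀ A ∈ Fm E, ∀ h : G, A ⊂ h • (⋃ k, E k) → ∀ w : G,
      {x | x ∈ A ∧ x * w ∉ h • ⋃ k, E k}.Finite := by
    intro A hA h e w
    have hsub : ∀ k, h • E k ⊆ h • ⋃ k, E k := fun k => Set.smul_set_mono (Set.subset_iUnion _ _)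
    obtain ⟨x, hx⟩ := hne A hA
    obtain ⟨y, hy1, hy2⟩ := Set.exists_of_ssubset e
    have hx1 := e.1 hx
    rw [Set.smul_set_iUnion] at hx1 hy1
    obtain ⟨i, hi⟩ := Set.mem_iUnion.1 hx1
    obtain ⟨j, hj⟩ := Set.mem_iUnion.1 hy1
    have key : A ⊆ h • E (i + j) :=
      (hch A hA _ ⟨h, Or.inl ⟨i + j, rfl⟩⟩
        ⟨x, hx, Set.smul_set_mono (hE.monotone (by omega)) hi⟩
        fun k => hu h (Set.univ_subset_iff.1 (k ▸ Set.union_subset e.1 (hsub _)))).resolve_right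
        fun k => hy2 (k (Set.smul_set_mono (hE.monotone (by omega)) hj))
    exact (af h h h (i + j) (i + j + 1) (i + j + 2) (smul_ssub h (hE (by omega)))
      (smul_ssub h (hE (by omega))) w).subset fun z hz => ⟨key hz.1, fun k => hz.2 (hsub _ k)⟩
  refine ⟨⟨1, Or.inr (one_smul _ _).symm⟩, ?_, hne, ?_, hch, ?_, fun A hA e w => ?_⟩
  · rintro g _ ⟨h, ⟨k, rfl⟩ | rfl⟩
    · exact ⟨g * h, Or.inl ⟨k, (mul_smul _ _ _).symm⟩⟩
    · exact ⟨g * h, Or.inr (mul_smul _ _ _).symm⟩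
  · rintro _ ⟨g, ⟨k, rfl⟩ | rfl⟩
    · exact fun e => hu g (Set.univ_subset_iff.1
        (e ▸ Set.smul_set_mono (Set.subset_iUnion _ _)))
    · exact hu g
  · rintro A hA _ ⟨g, ⟨i, rfl⟩ | rfl⟩ C hC D hD e1 e2 e3 w
    · obtain ⟨h, ⟨j, rfl⟩ | rfl⟩ := hC
      · obtain ⟨f, ⟨k, rfl⟩ | rfl⟩ := hD
        · exact (af g h f i j k e2 e3 w).subset fun z hz => ⟨e1.1 hz.1, hz.2⟩
        · exact hs A hA f ((e1.trans e2).trans e3) w
      · exact (hs A hA h (e1.trans e2) w).subset fun z hz => ⟨hz.1, fun k => hz.2 (e3.1 k)⟩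
    · exact (hs A hA g e1 w).subset fun z hz => ⟨hz.1, fun k => hz.2 (e3.1 (e2.1 k))⟩
  · simpa only [one_smul] using hs A hA 1 (by rwa [one_smul]) w

end OrdLimL

theorem ordLim_stmt (h1 : Ord3Stmt) (h2 : LimQStmt) : OrdLimStmt := by
  intro G _ S C hG hS sg coh E hE ch af ψ₁ ψ₂ a1 a2 a3 a4 b1 b2 b3 b4
  have h0 : (E 0).Nonempty := by
    by_contra e
    exact a4 (sq_zero.of_le fun x => by rw [a3 x fun k => e ⟨x, k⟩])
  have hz : ∀ x ∈ ⋃ k, E k, ψ₂ x = 0 := fun x hx => (Set.mem_iUnion.1 hx).elim fun k => b3 k x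
  have hu : (⋃ k, E k) ≠ Set.univ := fun e =>
    b4 (sq_zero.of_le fun x => by rw [hz x (e ▸ Set.mem_univ x)])
  have hF := OrdLimL.fam3 hE ch af h0 hu
  choose E' c1 c2 c3 c4 using fun k => h1 G hG _ _ hF (E k)
    ⟨1, Or.inl ⟨k, (one_smul _ _).symm⟩⟩
    (lt_of_lt_of_le (hE (Nat.lt_succ_self k)) (Set.subset_iUnion E (k + 1)))
  refine h2 G S C hS sg coh _ E' ψ₁ ψ₂ (fun k => (c3 k).1) (fun x hx => ?_)
    (fun k s _ => hF.afs _ (c1 k) (c3 k) s) c4 a1 a2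
    (fun k x hx => a3 x fun e => hx (c2 k (hE.monotone (Nat.zero_le k) e))) a4 b1 b2 hz b4
  obtain ⟨j, hj⟩ := Set.mem_iUnion.1 hx
  exact (eventually_ge_atTop j).mono fun k hk => c2 k (hE.monotone hk hj)

end Pool.Agent.MP_4f4d9f_gt.Ku

end

section

/-! Intervals of cut points are finite. -/

namespace Pool.Agent.MP_4f4d9f_gt.Ku

open Filter Topology Hy
open scoped Pointwise

namespace DiscL

variable {G : Type} [Group G] {S : Finset G}

theorem ord (hO : OrdLim S) {𝓕 : Set (Set G)} (h1 : ∀ (g : G), ∀ E ∈ 𝓕, g • E ∈ 𝓕)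
    (h2 : ∀ E ∈ 𝓕, ∀ E' ∈ 𝓕, (E ∩ E').Nonempty → E ∪ E' ≠ Set.univ → E ⊆ E' ∨ E' ⊆ E)
    (h3 : ∀ A ∈ 𝓕, ∀ B ∈ 𝓕, ∀ C ∈ 𝓕, A ⊂ B → B ⊂ C → ∀ w : G, {x | x ∈ A ∧ x * w ∉ C}.Finite)
    {E : ℕ → Set G} (hE : ∀ k, E k ∈ 𝓕) (hm : StrictMono E ∨ StrictAnti E) {ψ₁ ψ₂ : G → ℝ}
    (a1 : Dir S ψ₁) (a2 : I01 ψ₁) (a3 : ∀ k, ∀ x ∉ E k, ψ₁ x = 0) (a4 : ¬ Sq ψ₁)
    (b1 : Dir S ψ₂) (b2 : I01 ψ₂) (b3 : ∀ k, ∀ x ∈ E k, ψ₂ x = 0) (b4 : ¬ Sq ψ₂) : False := by
  rcases hm with hm | hm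
  · exact hO E hm (fun g h j k => h2 _ (h1 g _ (hE j)) _ (h1 h _ (hE k)))
      (fun g h f i j k => h3 _ (h1 g _ (hE i)) _ (h1 h _ (hE j)) _ (h1 f _ (hE k)))
      ψ₁ ψ₂ a1 a2 (a3 0) a4 b1 b2 b3 b4
  · refine hO (fun k => (E k)ᶜ) (fun i j h => compl_lt_compl_iff_lt.2 (hm h))
      (fun g h j k e1 e2 => ?_) (fun g h f i j k e1 e2 w => ?_) ψ₂ ψ₁ b1 b2
      (fun x hx => b3 0 x (not_not.1 hx)) b4 a1 a2 a3 a4
    · simp only [Set.smul_set_compl, Set.compl_subset_compl] at e1 e2 ⊢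
      rw [← Set.compl_union, Set.nonempty_compl] at e1
      rw [← Set.compl_inter, Ne, Set.compl_univ_iff, ← Ne, ← Set.nonempty_iff_ne_empty] at e2
      exact (h2 _ (h1 g _ (hE j)) _ (h1 h _ (hE k)) e2 e1).symm
    · simp only [Set.smul_set_compl] at e1 e2 ⊢
      have := h3 _ (h1 f _ (hE k)) _ (h1 h _ (hE j)) _ (h1 g _ (hE i))
        (compl_lt_compl_iff_lt.1 e2) (compl_lt_compl_iff_lt.1 e1) w⁻¹
      refine (this.preimage (mul_left_injective w).injOn).subset fun x hx => ⟨not_not.1 hx.2, ?_⟩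
      rw [mul_inv_cancel_right]
      exact hx.1

variable {X : Type} [MetricSpace X] [MulAction G X] {b c c' z z' m m' ξ : X} {L L' L'' : Set X}
  {F : Set G} {a : Fin 3 → X}

variable (G) in
/-- `L` is well inside `L'`. -/
def LL (b c : X) (L L' : Set X) : Prop :=
  c ∈ L' ∧ ∃ F : Set G, Sp b c F ∧ (∀ ξ ∈ L, F ∈ nf G b ξ) ∧
    ∀ ξ ∈ KK G b, F ∈ nf G b ξ → ξ ∈ L'

variable (G) in
/-- The elements that move the majority into `L`. -/
def EE (a : Fin 3 → X) (L : Set X) : Set G := {x | Mj a L x}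

theorem self_mem (h1 : z ∈ KK G b) (h2 : z ≠ c) : z ∈ Cls G b c z := ⟨h1, h2, not_sepa_self⟩

theorem side (hF : Sp b c F) (h1 : z ∈ KK G b) (h2 : z ≠ c) (hz : F ∈ nf G b z)
    (h : ξ ∈ Cls G b c z) : F ∈ nf G b ξ :=
  (hF ξ h.2.1).resolve_right fun k => h.2.2 ⟨h1, h.1, h2, h.2.1, F, hF, hz, k⟩

theorem LL.sub (h : LL G b c (Cls G b c z) L') : EE G a (Cls G b c z) ⊆ EE G a L' := by
  obtain ⟨-, F, -, h1, h2⟩ := h
  exact fun x hx => Mj.mono hx fun j k => h2 _ k.1 (h1 _ k)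

theorem smul_EE (g : G) : g • EE G a L = EE G a (g • L) := by
  ext x
  rw [Set.mem_smul_set_iff_inv_smul_mem, smul_eq_mul]
  change Mj a L (g⁻¹ * x) ↔ Mj a (g • L) x
  rw [mj_mul, inv_inv]

variable [ContinuousConstSMul G X]

theorem mem_in (h : Cv G b) (ha : Function.Injective a) (hK : ∀ i, a i ∈ KK G b)
    (h1 : F ∈ nf G b ξ) (h2 : ∀ ξ ∈ KK G b, F ∈ nf G b ξ → ξ ∈ L) : EE G a L ∈ nf G b ξ :=
  h.mj' ha hK (nf_open h1) fun ξ k => h2 ξ k.2 k.1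

theorem mem_out (h : Cv G b) (ha : Function.Injective a) (hK : ∀ i, a i ∈ KK G b)
    (h1 : Fᶜ ∈ nf G b ξ) (h2 : ∀ ξ ∈ L, F ∈ nf G b ξ) : (EE G a L)ᶜ ∈ nf G b ξ :=
  mem_of_superset (mem_in (L := Lᶜ) h ha hK h1 fun ξ k1 k2 k3 => not_both k1 (h2 ξ k3) k2)
    fun _ hx => mj_compl.1 hx

variable [CompactSpace X]

theorem af2 (h : Cv G b) (ha : Function.Injective a) (hK : ∀ i, a i ∈ KK G b)
    (h1 : LL G b c L L') (h2 : LL G b c' L' L'') (w : G) :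
    {x | x ∈ EE G a L ∧ x * w ∉ EE G a L''}.Finite := by
  obtain ⟨a1, F, a2, a3, a4⟩ := h1
  obtain ⟨-, F', -, b3, b4⟩ := h2
  refine (finite_iff b).2 fun ξ => ?_
  by_cases k : ξ ∈ KK G b
  · by_cases e : F' ∈ nf G b ξ
    · exact mem_of_superset (h.nf_right w (mem_in h ha hK e b4)) fun x hx k => k.2 hx
    · have e1 : ξ ∉ L' := fun k => e (b3 ξ k)
      have e2 := (a2 ξ fun k => e1 (k ▸ a1)).resolve_left fun k' => e1 (a4 ξ k k')
      exact mem_of_superset (mem_out h ha hK e2 a3) fun x hx k => hx k.1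
  · rw [not_neBot.1 k]
    exact mem_bot

theorem ll_of (h : Bd S b) (h1 : Sepa G b c z c') (h2 : z' ∈ KK G b) (h3 : z' ≠ c')
    (h4 : c ∈ Cls G b c' z') : LL G b c (Cls G b c z) (Cls G b c' z') := by
  obtain ⟨a1, a2, a3, -, F, a5, a6, a7⟩ := h1
  exact ⟨h4, F, a5, fun ξ k => side a5 a1 a3 a6 k,
    fun ξ k1 k2 => cls_eq h4 h2 h3 ▸ h.k1 a5 a2 a7 k1 k2⟩

theorem five (h : Bd S b) (hc : c ∈ KK G b) (hc' : c' ∈ KK G b) (h1 : z ∈ KK G b) (h2 : z ≠ c)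
    (h1' : z' ∈ KK G b) (h2' : z' ≠ c') :
    Cls G b c z = Cls G b c' z' ∨ Disjoint (Cls G b c z) (Cls G b c' z') ∨
      KK G b ⊆ Cls G b c z ∪ Cls G b c' z' ∨ LL G b c (Cls G b c z) (Cls G b c' z') ∨
      LL G b c' (Cls G b c' z') (Cls G b c z) := by
  rcases eq_or_ne c c' with rfl | e
  · by_cases k : Disjoint (Cls G b c z) (Cls G b c z')
    · exact Or.inr (Or.inl k)
    · obtain ⟨ξ, k1, k2⟩ := Set.not_disjoint_iff.1 k
      exact Or.inl ((cls_eq k1 h1 h2).symm.trans (cls_eq k2 h1' h2'))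
  by_cases k : Sepa G b c z c' <;> by_cases k' : Sepa G b c' z' c
  · refine Or.inr (Or.inl (Set.disjoint_left.2 fun ξ k1 k2 => ?_))
    obtain ⟨-, F, -, a3, a4⟩ := ll_of h k hc e (self_mem hc e)
    have := (cls_eq (a4 ξ k1.1 (a3 ξ k1)) hc e).symm.trans (cls_eq k2 h1' h2')
    exact (this ▸ self_mem hc e : c ∈ Cls G b c' z').2.2 k'
  · exact Or.inr (Or.inr (Or.inr (Or.inl (ll_of h k h1' h2' ⟨hc, e, k'⟩))))
  · exact Or.inr (Or.inr (Or.inr (Or.inr (ll_of h k' h1 h2 ⟨hc', e.symm, k⟩))))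
  · refine Or.inr (Or.inr (Or.inl fun ξ hξ => or_iff_not_imp_left.2 fun k1 => ?_))
    rcases eq_or_ne ξ c with rfl | e1
    · exact ⟨hc, e, k'⟩
    · have k2 : Sepa G b c z ξ := not_not.1 fun k => k1 ⟨hξ, e1, k⟩
      rw [← cls_eq ⟨hc, e, k'⟩ h1' h2']
      exact ⟨hξ, fun e => k (e ▸ k2), h.asymm ((k2.cases hc' e.symm).resolve_left k)⟩

variable (G) in
/-- The family of half spaces. -/
def FF (a : Fin 3 → X) (b : X) : Set (Set G) :=
  {E | E.Nonempty ∧ E ≠ Set.univ ∧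
    ∃ c ∈ KK G b, ∃ z ∈ KK G b, z ≠ c ∧ E = EE G a (Cls G b c z)}

omit [CompactSpace X] in
theorem ff_smul (g : G) (E : Set G) (h : E ∈ FF G a b) : g • E ∈ FF G a b := by
  obtain ⟨h1, h2, c, h3, z, h4, h5, rfl⟩ := h
  refine ⟨h1.smul_set, fun e => h2 ?_, g • c, (smul_mem_KK g).2 h3, g • z, (smul_mem_KK g).2 h4,
    (MulAction.injective g).ne h5, by rw [smul_EE, cls_smul]⟩
  exact MulAction.injective g (e.trans Set.smul_set_univ.symm)

theorem three (h : Bd S b) (hK : ∀ i, a i ∈ KK G b) (hc : c ∈ KK G b) (hc' : c' ∈ KK G b)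
    (h1 : z ∈ KK G b) (h2 : z ≠ c) (h1' : z' ∈ KK G b) (h2' : z' ≠ c')
    (e1 : (EE G a (Cls G b c z) ∩ EE G a (Cls G b c' z')).Nonempty)
    (e2 : EE G a (Cls G b c z) ∪ EE G a (Cls G b c' z') ≠ Set.univ) :
    Cls G b c z = Cls G b c' z' ∨ LL G b c (Cls G b c z) (Cls G b c' z') ∨
      LL G b c' (Cls G b c' z') (Cls G b c z) := by
  rcases five h hc hc' h1 h2 h1' h2' with k | k | k | k
  · exact Or.inl k
  · obtain ⟨x, k1, k2⟩ := e1
    obtain ⟨j, k3, k4⟩ := Mj.inter k1 k2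
    exact (Set.disjoint_left.1 k k3 k4).elim
  · refine (e2 (Set.eq_univ_of_forall fun x => or_iff_not_imp_left.2 fun k1 => ?_)).elim
    exact Mj.mono (mj_compl.2 k1) fun j k2 => (k ((smul_mem_KK x).2 (hK j))).resolve_left k2
  · exact Or.inr k

theorem ff_chain (h : Bd S b) (hK : ∀ i, a i ∈ KK G b) : ∀ E ∈ FF G a b, ∀ E' ∈ FF G a b,
    (E ∩ E').Nonempty → E ∪ E' ≠ Set.univ → E ⊆ E' ∨ E' ⊆ E := by
  rintro _ ⟨-, -, c, a3, z, a4, a5, rfl⟩ _ ⟨-, -, c', b3, z', b4, b5, rfl⟩ e1 e2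
  rcases three h hK a3 b3 a4 a5 b4 b5 e1 e2 with k | k | k
  · exact Or.inl (k ▸ Set.Subset.rfl)
  · exact Or.inl k.sub
  · exact Or.inr k.sub

theorem ll_of_lt (h : Bd S b) (hK : ∀ i, a i ∈ KK G b) (hc : c ∈ KK G b) (hc' : c' ∈ KK G b)
    (h1 : z ∈ KK G b) (h2 : z ≠ c) (h1' : z' ∈ KK G b) (h2' : z' ≠ c')
    (e1 : (EE G a (Cls G b c z)).Nonempty) (e2 : EE G a (Cls G b c' z') ≠ Set.univ)
    (e : EE G a (Cls G b c z) ⊂ EE G a (Cls G b c' z')) :
    LL G b c (Cls G b c z) (Cls G b c' z') := by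
  rcases three h hK hc hc' h1 h2 h1' h2' (by rwa [Set.inter_eq_left.2 e.1])
    (by rwa [Set.union_eq_right.2 e.1]) with k | k | k
  · exact (e.ne (by rw [k])).elim
  · exact k
  · exact (e.2 k.sub).elim

theorem ff_af (h : Bd S b) (ha : Function.Injective a) (hK : ∀ i, a i ∈ KK G b) :
    ∀ A ∈ FF G a b, ∀ B ∈ FF G a b, ∀ C ∈ FF G a b, A ⊂ B → B ⊂ C →
      ∀ w : G, {x | x ∈ A ∧ x * w ∉ C}.Finite := by
  rintro _ ⟨a1, -, c, a3, z, a4, a5, rfl⟩ _ ⟨b1, b2, c', b3, z', b4, b5, rfl⟩ _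
    ⟨-, c2, c'', c3, z'', c4, c5, rfl⟩ e1 e2
  exact af2 h.cv ha hK (ll_of_lt h hK a3 b3 a4 a5 b4 b5 a1 b2 e1)
    (ll_of_lt h hK b3 c3 b4 b5 c4 c5 b1 c2 e2)

theorem ll_sep (h : Bd S b) (h1 : Sepa G b c m c') (h2 : m ≠ c') :
    LL G b c (Cls G b c m) (Cls G b c' m) :=
  ll_of h h1 h1.1 h2 ⟨h.sepa_mem h1, h1.2.2.2.1.symm, fun k => h.asymm h1.symm k.symm⟩

theorem strict (h : Bd S b) (ha : Function.Injective a) (hK : ∀ i, a i ∈ KK G b)
    {c₀ c₁ c₂ c₃ : X} (h1 : Sepa G b c₀ m c₁) (h2 : Sepa G b c₁ m c₂) (h3 : Sepa G b c₂ m c₃)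
    (h4 : m ≠ c₃) : EE G a (Cls G b c₀ m) ⊂ EE G a (Cls G b c₃ m) := by
  refine ⟨(ll_sep h (h.sepa_trans h3 (h.sepa_trans h2 h1)) h4).sub, fun e => ?_⟩
  obtain ⟨-, F', -, b3, b4⟩ := ll_sep h h3 h4
  have k1 := mem_in h.cv ha hK (b3 _ (ll_sep h h2 h3.2.2.1).1) b4
  obtain ⟨a1, a2, a3, -, F, a5, a6, a7⟩ := h1
  exact not_both a2 (mem_of_superset k1 e)
    (mem_out h.cv ha hK a7 fun ξ k => side a5 a1 a3 a6 k)

omit [ContinuousConstSMul G X] [CompactSpace X] in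
theorem pick (h : CutP G b m) {I : Set X} (hI : I.Infinite) (hm : ∀ c ∈ I, c ≠ m) :
    ∃ J ⊆ I, J.Infinite ∧ ∃ F : Set G, Sp b m F ∧ (∃ ξ ∈ KK G b, F ∈ nf G b ξ) ∧
      ∀ c ∈ J, Fᶜ ∈ nf G b c := by
  obtain ⟨ξ, η, a1, a2, -, -, F, a5, a6, a7⟩ := h
  have e : I ⊆ {c | c ∈ I ∧ F ∈ nf G b c} ∪ {c | c ∈ I ∧ Fᶜ ∈ nf G b c} := fun c hc =>
    (a5 c (hm c hc)).imp (fun k => ⟨hc, k⟩) fun k => ⟨hc, k⟩
  rcases Set.infinite_union.1 (hI.mono e) with k | k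
  · exact ⟨_, fun _ e => e.1, k, Fᶜ, a5.compl, ⟨η, a2, a7⟩, fun c e => by
      rw [compl_compl]
      exact e.2⟩
  · exact ⟨_, fun _ e => e.1, k, F, a5, ⟨ξ, a1, a6⟩, fun c e => e.2⟩

end DiscL

open DiscL in
theorem disc_stmt : DiscStmt := by
  intro G _ X _ _ _ _ S b h hD hO m m' hm hm'
  by_contra hI
  obtain ⟨a, ha, hA⟩ := hD.three
  have hK : ∀ i, a i ∈ KK G b := fun i => (hA i).mem
  obtain ⟨J₁, s1, i1, F, f1, ⟨ξ, f2, f3⟩, f4⟩ := pick hm hI fun c k => k.2.2.1.symm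
  obtain ⟨J, s2, i2, F', g1, ⟨η, g2, g3⟩, g4⟩ := pick hm' i1 fun c k => (s1 k).2.2.2.1.symm
  have hJ : ∀ c ∈ J, Sepa G b c m m' := fun c k => s1 (s2 k)
  have n1 := h.cv.mj ha (nf_open f3)
  have n2 := h.cv.mj ha (nf_open g3)
  have p1 : ∀ c ∈ J, ∀ x : G, Mj a {ξ | F ∈ nf G b ξ} x → x ∈ EE G a (Cls G b c m) :=
    fun c k x hx => Mj.mono hx fun j e =>
      h.k1 f1 (h.sepa_mem (hJ c k)) (f4 c (s2 k)) ((smul_mem_KK x).2 (hK j)) e
  have p2 : ∀ c ∈ J, ∀ x : G, Mj a {ξ | F' ∈ nf G b ξ} x → x ∉ EE G a (Cls G b c m) := by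
    intro c k x hx hx'
    obtain ⟨j, e1, e2⟩ := Mj.inter hx hx'
    obtain ⟨a1, a2, a3, a4, -⟩ := hJ c k
    have e3 := h.k1 g1 (h.sepa_mem (hJ c k)) (g4 c k) e2.1 e1
    have e4 := (cls_eq e3 a2 a4).symm.trans (cls_eq e2 a1 a3)
    exact (e4 ▸ self_mem a2 a4 : m' ∈ Cls G b c m).2.2 (hJ c k)
  have hF : ∀ c ∈ J, EE G a (Cls G b c m) ∈ FF G a b := by
    intro c k
    obtain ⟨x, hx⟩ := (infinite_of_mem f2 n1).nonempty
    obtain ⟨y, hy⟩ := (infinite_of_mem g2 n2).nonempty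
    exact ⟨⟨x, p1 c k x hx⟩, fun e => p2 c k y hy (e ▸ Set.mem_univ y), c, h.sepa_mem (hJ c k),
      m, (hJ c k).1, (hJ c k).2.2.1, rfl⟩
  have tot : ∀ c ∈ J, ∀ c' ∈ J, c ≠ c' → ¬ Sepa G b c m c' → Sepa G b c' m c := by
    intro c k c' k' e e1
    have e2 := ((hJ c k).cases (h.sepa_mem (hJ c' k')) e.symm).resolve_left e1
    exact ((hJ c' k').cases (h.sepa_mem (hJ c k)) e).resolve_right (h.asymm e2)
  obtain ⟨ψ₁, a1, a2, a3, a4⟩ := h.bump ξ f2 _ n1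
  obtain ⟨ψ₂, b1, b2, b3, b4⟩ := h.bump η g2 _ n2
  have : IsTrans X fun c c' => Sepa G b c m c' := ⟨fun _ _ _ e1 e2 => h.sepa_trans e2 e1⟩
  let u := i2.natEmbedding J
  obtain ⟨g, hg⟩ := exists_increasing_or_nonincreasing_subseq (fun c c' => Sepa G b c m c')
    fun n => (u n).1
  refine ord hO ff_smul (ff_chain h hK) (ff_af h ha hK)
    (E := fun k => EE G a (Cls G b (u (g (3 * k))).1 m)) (fun k => hF _ (u _).2) ?_
    a1 a2 (fun k x hx => a3 x fun e => hx (p1 _ (u _).2 x e)) a4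
    b1 b2 (fun k x hx => b3 x fun e => p2 _ (u _).2 x e hx) b4
  refine hg.imp (fun e => strictMono_nat_of_lt_succ fun k => ?_)
    fun e => strictAnti_nat_of_succ_lt fun k => ?_
  · exact strict h ha hK (e _ (3 * k + 1) (by omega)) (e _ (3 * k + 2) (by omega))
      (e _ _ (by omega)) (hJ _ (u _).2).2.2.1
  · have e' : ∀ i j, i < j → Sepa G b (u (g j)).1 m (u (g i)).1 := fun i j k =>
      tot _ (u _).2 _ (u _).2 (fun e => k.ne (g.injective (u.injective (Subtype.ext e)))) (e i j k)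
    exact strict h ha hK (e' (3 * k + 2) _ (by omega)) (e' (3 * k + 1) _ (by omega))
      (e' _ _ (by omega)) (hJ _ (u _).2).2.2.1

end Pool.Agent.MP_4f4d9f_gt.Ku

end

section

/-! Point picking. -/

namespace Pool.Agent.MP_4f4d9f_gt.Ku

open Filter Topology Hy
open scoped Pointwise

namespace ZalL

variable {G : Type} [Group G] {X : Type} [MetricSpace X] [MulAction G X] {b : X}

/-- The distance seen from `g`. -/
def dd (g : G) (z o : X) : ℝ := dist (g⁻¹ • z) (g⁻¹ • o)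

variable (G b) in
/-- The exceptional set of the convergence property. -/
def Bad (e : ℝ) : Set G := {g : G | ∃ z, e ≤ dist (g • z) (g • b) ∧ e ≤ dist z (g⁻¹ • b)}

theorem dd_eq (g g' : G) (z o : X) :
    dd g z o = dist ((g⁻¹ * g') • g'⁻¹ • z) ((g⁻¹ * g') • g'⁻¹ • o) := by
  simp only [dd, mul_smul, smul_inv_smul]

theorem key {e s : ℝ} {g g' : G} {o : X} (hu : g⁻¹ * g' ∉ Bad G b e) (hs : s ≤ dd g (g' • b) o)
    (he : e ≤ s) : dd g' (g • b) o < e ∧ ∀ z, 2 * e ≤ dd g' z o → s - e ≤ dd g z o := by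
  rw [dd_eq g g', inv_smul_smul] at hs
  have h1 : dist (g'⁻¹ • o) ((g⁻¹ * g')⁻¹ • b) < e :=
    not_le.1 fun k => hu ⟨_, by rw [dist_comm]; exact he.trans hs, k⟩
  refine ⟨?_, fun z hz => ?_⟩
  · rwa [mul_inv_rev, inv_inv, mul_smul, dist_comm] at h1
  · have h2 := dist_triangle_right (g'⁻¹ • z) (g'⁻¹ • o) ((g⁻¹ * g')⁻¹ • b)
    have h3 : dist ((g⁻¹ * g') • g'⁻¹ • z) ((g⁻¹ * g') • b) < e :=
      not_le.1 fun k => hu ⟨_, k, by unfold dd at hz; linarith⟩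
    have h4 := dist_triangle_left ((g⁻¹ * g') • b) ((g⁻¹ * g') • g'⁻¹ • o)
      ((g⁻¹ * g') • g'⁻¹ • z)
    rw [dd_eq g g']
    linarith

theorem z1 {s : ℝ} (hs : 0 < s) {o : X} (h0 : ∀ g : G, s / 2 ≤ dd g (g • b) o) (L : Set G)
    (n : ℕ) : ∀ g ∈ L, {x | x ∈ L ∧ s / 2 ≤ dd g (x • b) o}.Finite →
      {x | x ∈ L ∧ s / 2 ≤ dd g (x • b) o}.ncard = n →
      ∃ g' ∈ L, (∀ z, s / 2 ≤ dd g' z o → s / 2 ≤ dd g z o) ∧
        ∀ x ∈ L, s ≤ dd g' (x • b) o → g'⁻¹ * x ∈ Bad G b (s / 4) := by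
  induction n using Nat.strong_induction_on with
  | _ n ih =>
    intro g hg hf hn
    by_cases h : ∀ x ∈ L, s ≤ dd g (x • b) o → g⁻¹ * x ∈ Bad G b (s / 4)
    · exact ⟨g, hg, fun _ => id, h⟩
    · push Not at h
      obtain ⟨x, hx, h1, h2⟩ := h
      obtain ⟨k1, k2⟩ := key h2 h1 (by linarith)
      have k3 : ∀ z, s / 2 ≤ dd x z o → s / 2 ≤ dd g z o := fun z hz => by
        have := k2 z (by linarith)
        linarith
      have ss : {y | y ∈ L ∧ s / 2 ≤ dd x (y • b) o} ⊂ {y | y ∈ L ∧ s / 2 ≤ dd g (y • b) o} :=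
        ⟨fun y hy => ⟨hy.1, k3 _ hy.2⟩, fun k => by
          have := (k ⟨hg, h0 g⟩).2
          linarith⟩
      obtain ⟨g', a1, a2, a3⟩ := ih _ (hn ▸ Set.ncard_lt_ncard ss hf) x hx (hf.subset ss.1) rfl
      exact ⟨g', a1, fun z hz => k3 z (a2 z hz), a3⟩

variable [CompactSpace X] [ContinuousConstSMul G X]

theorem p6 (h : Cv G b) {s t : ℝ} (hs : 0 < s) (ht : 0 < t) : ∃ κ : ℝ, 0 < κ ∧
    ∀ (g g' : G) (o z : X), s ≤ dd g (g' • b) o → t ≤ dd g' z o → κ ≤ dd g z o := by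
  have e0 : 0 < min (s / 2) (t / 2) := lt_min (half_pos hs) (half_pos ht)
  have h1 : ∀ u : G, ∀ᶠ κ in 𝓝[>] (0 : ℝ), ∀ a a' : X, t ≤ dist a a' →
      κ ≤ dist (u • a) (u • a') := fun u => by
    obtain ⟨δ, h1, h2⟩ := Metric.uniformContinuous_iff.1
      (CompactSpace.uniformContinuous_of_continuous (continuous_const_smul (T := X) u⁻¹)) t ht
    filter_upwards [(eventually_lt_nhds h1).filter_mono nhdsWithin_le_nhds] with κ hκ a a' k
    refine hκ.le.trans (not_lt.1 fun k' => ?_)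
    have := h2 k'
    rw [inv_smul_smul, inv_smul_smul] at this
    linarith
  obtain ⟨κ, ⟨a1, a2⟩, a3⟩ := ((((eventually_all_finite (h.conv _ e0)).2 fun u _ => h1 u).and
    ((eventually_lt_nhds (half_pos hs)).filter_mono nhdsWithin_le_nhds)).and
      self_mem_nhdsWithin).exists
  refine ⟨κ, a3, fun g g' o z k1 k2 => ?_⟩
  have m1 := min_le_left (s / 2) (t / 2)
  have m2 := min_le_right (s / 2) (t / 2)
  by_cases e : g⁻¹ * g' ∈ Bad G b (min (s / 2) (t / 2))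
  · rw [dd_eq g g']
    exact a1 _ e _ _ k2
  · have := (key e k1 (by linarith)).2 z (by linarith)
    linarith

variable (b) in
/-- A point with property `Q` can be picked in the shadow. -/
def Pick (σ : ℝ) (o : X) (L : Set G) (Q : G → Prop) : Prop :=
  ∀ g ∈ L, {x | x ∈ L ∧ σ ≤ dd g (x • b) o}.Finite → ∃ g' ∈ L, σ ≤ dd g (g' • b) o ∧ Q g'

theorem step (h : Cv G b) {s0 : ℝ} (h0 : 0 < s0) (σ t : ℝ) : ∃ (σ' : ℝ) (E : Set G),
    0 < σ → 0 < t → 0 < σ' ∧ E.Finite ∧ ∀ (o : X) (L : Set G) (Q : G → Prop),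
      (∀ g : G, s0 ≤ dd g (g • b) o) → Pick b σ o L Q →
      Pick b σ' o L fun g => Q g ∧ ∀ x ∈ L, t ≤ dd g (x • b) o → g⁻¹ * x ∈ E := by
  by_cases hp : 0 < σ ∧ 0 < t
  swap
  · exact ⟨0, ∅, fun a a' => absurd ⟨a, a'⟩ hp⟩
  obtain ⟨κ, κ0, hκ⟩ := p6 h hp.1 hp.2
  obtain ⟨s, s1, s2, s3, s4⟩ : ∃ s, 0 < s ∧ s ≤ σ ∧ s ≤ κ ∧ s ≤ s0 :=
    ⟨min σ (min κ s0), lt_min hp.1 (lt_min κ0 h0), min_le_left _ _,
      (min_le_right _ _).trans (min_le_left _ _), (min_le_right _ _).trans (min_le_right _ _)⟩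
  have fB : (Bad G b (s / 4)).Finite := h.conv _ (by positivity)
  refine ⟨s / 2, (Bad G b (s / 4))⁻¹ * Bad G b (s / 4), fun _ _ => ⟨half_pos s1, fB.inv.mul fB,
    fun o L Q ho hQ g hg hf => ?_⟩⟩
  obtain ⟨g1, a1, a2, a3⟩ := z1 s1 (fun g => le_trans (by linarith) (ho g)) L _ g hg hf rfl
  obtain ⟨g', b1, b2, b3⟩ := hQ g1 a1 (hf.subset fun x hx =>
    ⟨hx.1, a2 _ (le_trans (by linarith) hx.2)⟩)
  refine ⟨g', b1, a2 _ (le_trans (by linarith) b2), b3, fun x hx k => ?_⟩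
  refine ⟨(g1⁻¹ * g')⁻¹, Set.inv_mem_inv.2 (a3 g' b1 (s2.trans b2)), g1⁻¹ * x,
    a3 x hx (s3.trans (hκ g1 g' o _ b2 k)), ?_⟩
  group

end ZalL

open ZalL

theorem zal_stmt : ZalStmt := by
  intro G _ X _ _ _ _ b h ρ hρ
  obtain ⟨s0, h0, h1⟩ := Metric.isOpen_iff.1 (isClosed_KK (G := G) (b := b)).isOpen_compl b h.notMem
  have h2 : ∀ o ∈ KK G b, ∀ g : G, s0 ≤ dd g (g • b) o := fun o ho g => by
    rw [dd, inv_smul_smul]
    exact not_lt.1 fun k => h1 (Metric.mem_ball'.2 k) ((smul_mem_KK g⁻¹).2 ho)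
  choose nx E hE using step h h0
  let σ : ℕ → ℝ := fun n => Nat.rec s0 (fun i s => nx s (1 / ((i : ℝ) + 1))) n
  have σ0 : ∀ n, 0 < σ n := fun n => by
    induction n with
    | zero => exact h0
    | succ n ih => exact (hE _ _ ih (by positivity)).1
  refine ⟨fun i => E (σ i) (1 / ((i : ℝ) + 1)), fun i => (hE _ _ (σ0 i) (by positivity)).2.1,
    fun I => ?_⟩
  have claim : ∀ o ∈ KK G b, ∀ (L : Set G) (n : ℕ), Pick b (σ n) o L fun g => ∀ i < n, ∀ x ∈ L,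
      1 / ((i : ℝ) + 1) ≤ dd g (x • b) o → g⁻¹ * x ∈ E (σ i) (1 / ((i : ℝ) + 1)) := by
    intro o ho L n
    induction n with
    | zero => exact fun g hg _ => ⟨g, hg, h2 o ho g, fun i hi => absurd hi (Nat.not_lt_zero i)⟩
    | succ n ih =>
      intro g hg hf
      obtain ⟨g', a1, a2, a3, a4⟩ :=
        (hE (σ n) (1 / ((n : ℝ) + 1)) (σ0 n) (by positivity)).2.2 o L _ (h2 o ho) ih g hg hf
      refine ⟨g', a1, a2, fun i hi => ?_⟩
      rcases Nat.lt_succ_iff_lt_or_eq.1 hi with k | rfl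
      · exact a3 i k
      · exact a4
  obtain ⟨κ, κ0, hκ⟩ := p6 h hρ (σ0 (I + 1))
  obtain ⟨κ', κ1, hκ'⟩ := p6 h κ0 (show 0 < 1 / ((I : ℝ) + 1) by positivity)
  have one : ∀ z o : X, dd (1 : G) z o = dist z o := fun z o => by simp [dd]
  refine ⟨min κ κ', lt_min κ0 κ1, fun o ho L hf g₀ hg hd => ?_⟩
  rw [← one] at hd
  obtain ⟨g, a1, a2, a3⟩ := claim o ho L (I + 1) g₀ hg (hf.subset fun x hx =>
    ⟨hx.1, (min_le_left _ _).trans (one _ o ▸ hκ 1 g₀ o _ hd hx.2)⟩)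
  refine ⟨g, a1, fun i hi x hx k => a3 i (Nat.lt_succ_of_le hi) x hx (by rwa [mul_smul] at k),
    fun z hz => (min_le_right _ _).trans ?_⟩
  rw [← one]
  refine hκ' 1 g o _ (hκ 1 g₀ o _ hd a2) ?_
  rwa [dd, inv_smul_smul]

end Pool.Agent.MP_4f4d9f_gt.Ku

end

section

/-! Stabilisers of points accumulate at no more than one other point. -/

namespace Pool.Agent.MP_4f4d9f_gt.Ku

open Filter Topology Hy

namespace VCL

variable {G : Type} [Group G] {X : Type} [MetricSpace X] [CompactSpace X] [MulAction G X]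
  {b c : X}

theorem back (h : Cv G b) {ι : Type} {l : Filter ι} {g : ι → G} (hc : ∀ᶠ i in l, g i • c = c)
    (h1 : Tendsto g l cofinite) {e : ℝ} (he : 0 < e) (h2 : ∀ᶠ i in l, e ≤ dist (g i • b) c) :
    Tendsto (fun i => (g i)⁻¹ • b) l (𝓝 c) := by
  refine (tendsto_iff_ultrafilter _ _ _).2 fun U hU => ?_
  obtain ⟨a, ha⟩ := ultra_lim U fun i => g i • b
  obtain ⟨r, hr⟩ := ultra_lim U fun i => (g i)⁻¹ • b
  by_cases e1 : c = r
  · exact e1 ▸ hr
  have k1 := h.tendsto (h1.mono_left hU) ha hr tendsto_const_nhds e1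
  have k2 : a = c := tendsto_nhds_unique k1
    (tendsto_const_nhds.congr' ((hc.filter_mono hU).mono fun _ k => k.symm))
  have k3 := ge_of_tendsto (ha.dist (tendsto_const_nhds (x := c))) (h2.filter_mono hU)
  rw [k2, dist_self] at k3
  exact absurd he k3.not_gt

variable (b c) in
/-- a loxodromic element with repelling point `c` and attracting point `p` -/
structure Lox (g : G) (p : X) : Prop where
  fc : g • c = c
  fp : g • p = p
  ne : p ≠ c
  esc : Tendsto (fun j : ℕ => g ^ j) atTop cofinite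
  att : Tendsto (fun j : ℕ => g ^ j • b) atTop (𝓝 p)
  rep : Tendsto (fun j : ℕ => (g ^ j)⁻¹ • b) atTop (𝓝 c)

omit [MetricSpace X] [CompactSpace X] in
theorem pow_fix {g : G} {x : X} (h : g • x = x) (j : ℕ) : g ^ j • x = x :=
  MulAction.mem_stabilizer_iff.1 (pow_mem (MulAction.mem_stabilizer_iff.2 h) j)

omit [CompactSpace X] in
theorem Lox.fwd (h : Cv G b) {g : G} {p : X} (k : Lox b c g p) {ξ : X} (e : ξ ≠ c) :
    Tendsto (fun j : ℕ => g ^ j • ξ) atTop (𝓝 p) :=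
  h.tendsto k.esc k.att k.rep tendsto_const_nhds e

omit [CompactSpace X] in
theorem Lox.esc' {g : G} {p : X} (k : Lox b c g p) :
    Tendsto (fun j : ℕ => (g ^ j)⁻¹) atTop cofinite :=
  inv_injective.tendsto_cofinite.comp k.esc

omit [CompactSpace X] in
theorem Lox.bwd (h : Cv G b) {g : G} {p : X} (k : Lox b c g p) {ξ : X} (e : ξ ≠ p) :
    Tendsto (fun j : ℕ => (g ^ j)⁻¹ • ξ) atTop (𝓝 c) :=
  h.tendsto k.esc' k.rep (by simpa only [inv_inv] using k.att) tendsto_const_nhds e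

variable [ContinuousConstSMul G X]

theorem lox_of (h : Cv G b) {g : G} {α : X} {e : ℝ} (he : 0 < e) (hc : g • c = c)
    (e1 : 4 * e ≤ dist α c) (e2 : 2 * e ≤ dist b α)
    (k1 : ¬ ∃ z, e ≤ dist (g • z) (g • b) ∧ e ≤ dist z (g⁻¹ • b)) (k2 : dist (g • b) α < e)
    (k3 : dist (g⁻¹ • b) c < e) : ∃ p, Lox b c g p ∧ dist p α ≤ 2 * e := by
  have far : ∀ z, dist z α ≤ 2 * e → 2 * e ≤ dist z c := fun z hz => by
    have := dist_triangle_left α c z
    linarith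
  have step : ∀ j : ℕ, dist (g ^ (j + 1) • b) α < 2 * e := by
    intro j
    induction j with
    | zero =>
      rw [zero_add, pow_one]
      linarith
    | succ j ih =>
      have a1 := far _ ih.le
      have a2 := dist_triangle (g ^ (j + 1) • b) (g⁻¹ • b) c
      have a3 : dist (g • g ^ (j + 1) • b) (g • b) < e :=
        not_le.1 fun a => k1 ⟨_, a, by linarith⟩
      have a4 := dist_triangle (g • g ^ (j + 1) • b) (g • b) α
      rw [pow_succ', mul_smul]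
      linarith
  have ev : ∀ᶠ j : ℕ in atTop, dist (g ^ j • b) α ≤ 2 * e := by
    filter_upwards [eventually_ge_atTop 1] with j hj
    obtain ⟨i, rfl⟩ := Nat.exists_eq_add_of_le' hj
    exact (step i).le
  have inf : ¬ IsOfFinOrder g := by
    intro hf
    obtain ⟨n, hn, e3⟩ := isOfFinOrder_iff_pow_eq_one.1 hf
    obtain ⟨i, rfl⟩ := Nat.exists_eq_add_of_le' hn
    have := step i
    rw [e3, one_smul] at this
    linarith
  have esc : Tendsto (fun j : ℕ => g ^ j) atTop cofinite := by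
    rw [← Nat.cofinite_eq_atTop]
    exact (injective_pow_iff_not_isOfFinOrder.2 inf).tendsto_cofinite
  have rep := back h (Eventually.of_forall (pow_fix hc)) esc (by linarith : 0 < 2 * e)
    (ev.mono fun _ k => far _ k)
  have hU : (hyperfilter ℕ : Filter ℕ) ≤ atTop := Nat.hyperfilter_le_atTop
  obtain ⟨a, ha⟩ := ultra_lim (hyperfilter ℕ) fun j => g ^ j • b
  have a1 : dist a α ≤ 2 * e :=
    le_of_tendsto (ha.dist tendsto_const_nhds) (ev.filter_mono hU)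
  have ne : ∀ z, dist z α ≤ 2 * e → z ≠ c := fun z hz k => by
    have := far z hz
    rw [k, dist_self] at this
    linarith
  have a2 : g • a = a := by
    have b1 := h.tendsto (esc.mono_left hU) ha (rep.mono_left hU) tendsto_const_nhds
      (ne (g • b) (by linarith))
    refine tendsto_nhds_unique (ha.const_smul g) (b1.congr fun j => ?_)
    rw [← mul_smul, ← mul_smul, ← pow_succ, pow_succ']
  refine ⟨a, ⟨hc, a2, ne a a1, esc, (tendsto_iff_ultrafilter _ _ _).2 fun V hV => ?_, rep⟩, a1⟩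
  obtain ⟨a', ha'⟩ := ultra_lim V fun j => g ^ j • b
  have b1 := h.tendsto (esc.mono_left hV) ha' (rep.mono_left hV) tendsto_const_nhds (ne a a1)
  simp only [pow_fix a2] at b1
  exact tendsto_nhds_unique tendsto_const_nhds b1 ▸ ha'

theorem lox (h : Cv G b) {Γ : Subgroup G} (hΓ : ∀ g ∈ Γ, g • c = c) {α : X} (hα : α ≠ c)
    (hf : ∃ᶠ g in nf G b α, g ∈ Γ) {ε : ℝ} (hε : 0 < ε) :
    ∃ g ∈ Γ, ∃ p, Lox b c g p ∧ dist p α ≤ ε := by
  have d1 : 0 < dist α c := dist_pos.2 hα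
  have hK : α ∈ KK G b := mem_KK_of_freq hf
  have d2 : 0 < dist b α := dist_pos.2 fun e => h.notMem (Set.mem_of_eq_of_mem e hK)
  obtain ⟨e, he, e1, e2, e3⟩ : ∃ e : ℝ, 0 < e ∧ 4 * e ≤ dist α c ∧ 2 * e ≤ dist b α ∧
      2 * e ≤ ε := by
    refine ⟨min (dist α c / 4) (min (dist b α / 2) (ε / 2)), by positivity, ?_, ?_, ?_⟩
    · linarith [min_le_left (dist α c / 4) (min (dist b α / 2) (ε / 2))]
    · linarith [min_le_right (dist α c / 4) (min (dist b α / 2) (ε / 2)),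
        min_le_left (dist b α / 2) (ε / 2)]
    · linarith [min_le_right (dist α c / 4) (min (dist b α / 2) (ε / 2)),
        min_le_right (dist b α / 2) (ε / 2)]
  have : (nf G b α ⊓ 𝓟 (Γ : Set G)).NeBot := frequently_mem_iff_neBot.1 hf
  have m1 : ∀ᶠ g in nf G b α ⊓ 𝓟 (Γ : Set G), g ∈ Γ :=
    mem_inf_of_right (mem_principal_self _)
  have m2 : ∀ᶠ g in nf G b α ⊓ 𝓟 (Γ : Set G), dist (g • b) α < e :=
    (Metric.tendsto_nhds.1 nf_tendsto e he).filter_mono inf_le_left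
  have m3 : Tendsto (fun g : G => g) (nf G b α ⊓ 𝓟 (Γ : Set G)) cofinite :=
    tendsto_id'.2 (inf_le_left.trans nf_le)
  have m4 := back h (m1.mono hΓ) m3 he (m2.mono fun g k => by
    have := dist_triangle_left α c (g • b)
    linarith)
  obtain ⟨g, ⟨⟨k1, k2⟩, k3⟩, k4⟩ := (((m1.and m2).and (Metric.tendsto_nhds.1 m4 e he)).and
    (m3 (h.conv e he).compl_mem_cofinite)).exists
  obtain ⟨p, k5, k6⟩ := lox_of h he (hΓ g k1) e1 e2 k4 k2 k3
  exact ⟨g, k1, p, k5, k6.trans e3⟩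

theorem unique (h : Cv G b) {g k : G} {p q : X} (hg : Lox b c g p) (hk : Lox b c k q) :
    q = p := by
  classical
  by_contra hne
  have d1 : 0 < dist p c := dist_pos.2 hg.ne
  have d2 := half_pos d1
  have d3 := half_lt_self d1
  have hcK : c ∈ KK G b := (tendsto_nf.2 ⟨hg.rep, hg.esc'⟩).neBot
  have ex : ∀ n : ℕ, ∃ j : ℕ, dist p c / 2 ≤ dist (g ^ j • (k ^ n)⁻¹ • b) c := fun n =>
    ((((hg.fwd h fun e => h.orb_notMem (k ^ n)⁻¹ (Set.mem_of_eq_of_mem e hcK)).dist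
      tendsto_const_nhds).eventually (lt_mem_nhds d3)).exists).imp fun _ e => e.le
  have jt : Tendsto (fun n => Nat.find (ex n)) atTop atTop := by
    refine tendsto_atTop.2 fun J => ?_
    have a1 : ∀ j : ℕ, ∀ᶠ n : ℕ in atTop, dist (g ^ j • (k ^ n)⁻¹ • b) c < dist p c / 2 := by
      intro j
      have := hk.rep.const_smul (g ^ j)
      rw [pow_fix hg.fc] at this
      exact Metric.tendsto_nhds.1 this _ d2
    filter_upwards [(eventually_all_finset (Finset.range J)).2 fun j _ => a1 j] with n hn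
    exact (Nat.le_find_iff _ _).2 fun j hj => (hn j (Finset.mem_range.2 hj)).not_ge
  let w : ℕ → G := fun n => g ^ Nat.find (ex n) * (k ^ n)⁻¹
  have wq : ∀ n, w n • q = g ^ Nat.find (ex n) • q := fun n => by
    rw [mul_smul, inv_smul_eq_iff.2 (pow_fix hk.fp n).symm]
  have wc : ∀ n, w n • c = c := fun n => by
    rw [mul_smul, inv_smul_eq_iff.2 (pow_fix hk.fc n).symm, pow_fix hg.fc]
  have wb : ∀ n, dist p c / 2 ≤ dist (w n • b) c := fun n => by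
    rw [mul_smul]
    exact Nat.find_spec (ex n)
  have hU : (hyperfilter ℕ : Filter ℕ) ≤ atTop := Nat.hyperfilter_le_atTop
  have t1 : Tendsto (fun n => w n • q) (hyperfilter ℕ) (𝓝 p) :=
    (((hg.fwd h hk.ne).comp jt).congr fun n => (wq n).symm).mono_left hU
  rcases ((hyperfilter ℕ).map w).le_cofinite_or_eq_pure with k1 | ⟨w₀, k1⟩
  · obtain ⟨a, ha⟩ := ultra_lim (hyperfilter ℕ) fun n => w n • b
    have t2 := h.tendsto k1 ha (back h (Eventually.of_forall wc) k1 d2 (Eventually.of_forall wb))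
      tendsto_const_nhds hk.ne
    obtain rfl : a = p := tendsto_nhds_unique t2 t1
    have t3 := ha.const_smul g⁻¹
    rw [inv_smul_eq_iff.2 hg.fp.symm] at t3
    refine d3.not_ge (le_of_tendsto (t3.dist tendsto_const_nhds) ?_)
    filter_upwards [hU (jt.eventually (eventually_ge_atTop 1))] with n hn
    obtain ⟨i, hi⟩ := Nat.exists_eq_add_of_le' hn
    have a1 := Nat.find_min (ex n) (m := i) (by omega)
    have a2 : g⁻¹ • w n • b = g ^ i • (k ^ n)⁻¹ • b := by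
      simp only [w]
      rw [hi, pow_succ', mul_smul, mul_smul, inv_smul_smul]
    rw [a2]
    exact (not_le.1 a1).le
  · have k2 : ∀ᶠ n in (hyperfilter ℕ : Filter ℕ), w n = w₀ := by
      have : {w₀} ∈ (hyperfilter ℕ).map w := by
        rw [k1]
        exact Ultrafilter.mem_pure.2 rfl
      exact this
    have k3 : p = w₀ • q := tendsto_nhds_unique t1
      (tendsto_const_nhds.congr' (k2.mono fun n e => by rw [← e]))
    obtain ⟨n, hn⟩ := k2.exists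
    rw [← hn, wq] at k3
    exact hne (MulAction.injective (g ^ Nat.find (ex n)) (k3.symm.trans (pow_fix hg.fp _).symm))

end VCL

theorem vc_stmt : VCStmt := by
  intro G _ X _ _ _ _ b h Γ c α hΓ hα hf
  obtain ⟨g, hg, p, hp, -⟩ := VCL.lox h hΓ hα hf one_pos
  have key : ∀ α', α' ≠ c → (∃ᶠ g in nf G b α', g ∈ Γ) → p = α' := fun α' e1 e2 =>
    eq_of_forall_dist_le fun ε hε => by
      obtain ⟨k, -, q, hq, e3⟩ := VCL.lox h hΓ e1 e2 hε
      rwa [VCL.unique h hp hq] at e3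
  obtain rfl := key α hα hf
  refine ⟨fun α' e => ?_, g, hg, hp.fp, fun ξ e => ?_, fun ξ e => hp.fwd h e⟩
  · by_cases e1 : α' = c
    · exact Or.inr e1
    · exact Or.inl (key α' e1 e).symm
  · simpa only [inv_pow] using hp.bwd h e

end Pool.Agent.MP_4f4d9f_gt.Ku

end
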