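import Pool.Agent.Mg.F4f4d9fr.G1afe66
import Pool.Agent.Mg.F4f4d9fr.G30dcc0

set_option linter.all false

section

/-! Interface, part P: cuts and potentials in the model with cone vertices. -/

namespace Pool.Agent.MP_4f4d9f_gt.Rk

open Filter Topology Hy Ku
open scoped Pointwise

section Defs

variable {G Ω : Type} [Group G] [MulAction G Ω] (N : Net G Ω)

/-- The trace of a set of vertices on the group. -/
def tr (L : Set Ω) : Set G := {x | x • N.o ∈ L}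

/-- The group elements at which an edge crosses `L`. -/
def Bdy (L : Set Ω) : Set G := {x | ∃ τ ∈ N.T, Cr L (x • N.o) (x • τ)}

/-- Adjacent vertices. -/
def Adj (u v : Ω) : Prop :=
  ∃ x : G, ∃ τ ∈ N.T, (u = x • N.o ∧ v = x • τ) ∨ (u = x • τ ∧ v = x • N.o)

/-- `u` and `v` are joined by a path inside `A`. -/
def Con (A : Set Ω) (u v : Ω) : Prop :=
  u ∈ A ∧ Relation.ReflTransGen (fun a b => b ∈ A ∧ Adj N a b) u v

/-- A connected set of vertices. -/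
def Cn (A : Set Ω) : Prop := ∀ u ∈ A, ∀ v ∈ A, Con N A u v

/-- The set together with the ends of the edges at its boundary. -/
def Cl (A : Set Ω) : Set Ω := {ω | ω ∈ A ∨ ∃ x ∈ Bdy N A, ∃ τ ∈ N.T, x • τ = ω}

/-- The uniform form of `c2`. -/
def Unif : Prop :=
  ∀ n : ℕ, ∃ M : ℕ, ∀ w : G × Ω → ZMod 2, (sp2 N (d1 N w)).Finite →
    (sp2 N (d1 N w)).ncard ≤ n → ∃ c : G × Ω → ZMod 2, (sp1 N c).Finite ∧
      (∀ t, Tri N t → d1 N c t = d1 N w t) ∧ (sp1 N c).ncard ≤ M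

/-- Consequences of the cohomological hypotheses for sets of vertices. -/
structure Cs : Prop where
  md : Mod N
  one : ∀ L : Set Ω, (Bdy N L).Finite → (tr N L).Finite ∨ (tr N L)ᶜ.Finite
  cut0 : ∀ (L : Set Ω) (Q : Set G),
    (∀ x ∈ Bdy N L, ∀ s ∈ N.S, x * s ∈ Bdy N L → ¬ Cr Q x (x * s)) →
    ∃ F : Set Ω, ∀ x : G, ∀ τ ∈ N.T, Cr F (x • N.o) (x • τ) ↔ Cr L (x • N.o) (x • τ) ∧ x ∈ Q
  cut1 : ∀ (L : Set Ω) (Q : Set G),
    {x | x ∈ Bdy N L ∧ ∃ s ∈ N.S, x * s ∈ Bdy N L ∧ Cr Q x (x * s)}.Finite →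
    ∃ F : Set Ω, {x : G | ∃ τ ∈ N.T,
      ¬ (Cr F (x • N.o) (x • τ) ↔ Cr L (x • N.o) (x • τ) ∧ x ∈ Q)}.Finite
  uc : ∀ A : Set Ω, Cn N A → Cn N Aᶜ → Cnn N.S (Bdy N A)
  par : ∀ (L : Set Ω) (A : Set G), Bdy N L ⊆ A → ∀ x y : G, Cr L (x • N.o) (y • N.o) →
    ∃ (x₀ : G) (F : Set Ω), (∀ u : G, ∀ τ ∈ N.T, Cr F (u • N.o) (u • τ) ↔
      Cr L (u • N.o) (u • τ) ∧ Conn N.S A x₀ u) ∧ Cr F (x • N.o) (y • N.o)

/-- Nested components of the boundary of a set which separate two rays. -/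
def Nst : Prop :=
  ∀ (L : Set Ω) (p q : ℕ → G), IsRay N.S p → IsRay N.S q →
    (∀ᶠ n in atTop, p n ∈ tr N L \ Bdy N L) → (∀ᶠ n in atTop, q n ∈ (tr N L)ᶜ \ Bdy N L) →
    ∀ Φ : ℕ → Set G, (∀ k, (Φ k).Finite) → Monotone Φ →
    ∃ Q : ℕ → Set G, Antitone Q ∧ ∀ k, Q k ⊆ Bdy N L \ Φ k ∧ (Q k).Nonempty ∧ Cnn N.S (Q k) ∧
      ∃ F : Set Ω, (Bdy N F \ Q k).Finite ∧ (∀ᶠ n in atTop, p n ∈ tr N F) ∧
        ∀ᶠ n in atTop, q n ∉ tr N F

/-- The energy form. -/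
noncomputable def BB (f g : Ω → ℝ) : ℝ :=
  ∑ τ ∈ N.T, ∑' x : G, (f (x • τ) - f (x • N.o)) * (g (x • τ) - g (x • N.o))

/-- The energy. -/
noncomputable def En (f : Ω → ℝ) : ℝ := ∑ τ ∈ N.T, ∑' x : G, (f (x • τ) - f (x • N.o)) ^ 2

/-- The size of the gradient. -/
noncomputable def DD (f : Ω → ℝ) (x : G) : ℝ := ∑ τ ∈ N.T, |f (x • τ) - f (x • N.o)|

/-- The potential of the free unit current from `a` to `b`. -/
structure Dip (ψ : Ω → ℝ) (a b : Ω) : Prop where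
  dir : Dir N ψ
  rep : ∀ f, Dir N f → BB N ψ f = f b - f a

/-- The potentials with one pole at the base vertex. -/
structure Pot (φ : Ω → Ω → ℝ) : Prop where
  dip : ∀ y, Dip N (φ y) N.o y
  one : ∀ y, φ y N.o = 0

/-- Facts on potentials. -/
structure DF : Prop where
  maxp : ∀ η a b, Dip N η a b → ∀ A : Set Ω, a ∉ A → b ∉ A → ∀ M : ℝ,
    (∀ x ∈ Bdy N A, η (x • N.o) ≤ M) → ∀ ω ∈ A, η ω ≤ M
  range : ∀ ψ a b, Dip N ψ a b → ∀ ω, ψ a ≤ ψ ω ∧ ψ ω ≤ ψ b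
  conn : ∀ ψ a b, Dip N ψ a b → ∀ t ω, t < ψ ω → Con N {y | t < ψ y} b ω
  slab : ∀ ψ a b, Dip N ψ a b → ∀ r₁ r₂ : ℝ, r₁ ≤ r₂ →
    En N (fun ω => max r₁ (min r₂ (ψ ω))) ≤ r₂ - r₁
  lip : ∀ ψ a b, Dip N ψ a b → ∀ x : G, ∀ τ ∈ N.T, |ψ (x • τ) - ψ (x • N.o)| ≤ 1
  band : ∀ ψ a b, Dip N ψ a b → ∀ t₁ t₂ : ℝ, t₁ ≤ t₂ → ∀ Z : Finset G,
    (∀ x ∈ Z, t₁ ≤ ψ (x • N.o) ∧ ψ (x • N.o) ≤ t₂) →
      ∑ x ∈ Z, DD N ψ x ^ 2 ≤ N.T.card * (t₂ - t₁ + 2)

/-- The oscillation of a potential on a half space of another one. -/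
def Osc : Prop :=
  ∀ ψ a b η a' b', Dip N ψ a b → Dip N η a' b' → ∀ t₁ t₂ M : ℝ, t₁ < t₂ → ψ a' ≤ t₁ →
    ψ b' ≤ t₁ → (∀ Z : Finset G, (∀ x ∈ Z, t₁ - 1 ≤ ψ (x • N.o) ∧ ψ (x • N.o) ≤ t₂ + 1) →
      ∑ x ∈ Z, DD N η x * DD N ψ x ≤ M) →
    ∃ t, t₁ < t ∧ t < t₂ ∧ ∀ ω ∈ Cl N {y | t < ψ y}, ∀ ω' ∈ Cl N {y | t < ψ y},
      |η ω - η ω'| ≤ 6 * M / (t₂ - t₁)

/-- The energy of `η` on a half space of `ψ`. -/
noncomputable def ee (η ψ : Ω → ℝ) (t : ℝ) : ℝ :=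
  ∑' x : G, Set.indicator {x : G | t < ψ (x • N.o)} (fun x => DD N η x ^ 2) x

/-- Exponential decay. -/
def Dec : Prop :=
  ∃ θ : ℝ, 0 ≤ θ ∧ θ < 1 ∧ ∀ ψ a b η a' b', Dip N ψ a b → Dip N η a' b' → ∀ t : ℝ,
    ψ a' ≤ t → ψ b' ≤ t → ee N η ψ (t + 4) ≤ θ * ee N η ψ t

/-- Tightness. -/
def Tight (φ : Ω → Ω → ℝ) : Prop :=
  ∀ (u : Ω) (ε : ℝ), 0 < ε → ∃ Φ : Finset G, ∀ (y : Ω) (Z : Finset G), Disjoint Z Φ →
    ∑ a ∈ Z, DD N (φ y) a * DD N (φ u) a ≤ ε

/-- Functions whose gradient is controlled by finitely many potentials are continuous. -/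
def Cont (φ : Ω → Ω → ℝ) : Prop :=
  ∀ (f : Ω → ℝ) (C : ℝ) (U : Finset Ω), 0 ≤ C →
    (∀ᶠ x : G in cofinite, ∀ τ ∈ N.T,
      |f (x • τ) - f (x • N.o)| ≤ C * ∑ u ∈ U, |φ u (x • τ) - φ u (x • N.o)|) →
    ∀ ε : ℝ, 0 < ε → ∃ (W : Finset Ω) (d : ℝ), 0 < d ∧
      ∀ y y', (∀ w ∈ W, |φ w y - φ w y'| < d) → |f y - f y'| < ε

end Defs

variable {G Ω : Type} [Group G] [MulAction G Ω] {N : Net G Ω}

/-! ### The model -/

section Mod

variable {x y : G} {ω τ : Ω}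

theorem Mod.o_mem (h : Mod N) : N.o ∈ N.T := by simpa using h.sub 1 h.gen.one

theorem Mod.inj (h : Mod N) (e : x • N.o = y • N.o) : x = y :=
  (inv_mul_eq_one.1 (h.free (y⁻¹ * x) (by rw [mul_smul, e, inv_smul_smul]))).symm

theorem Mod.injective (h : Mod N) : Function.Injective fun x : G => x • N.o := fun _ _ e => h.inj e

theorem Cone.smul (h : Cone N ω) (g : G) : Cone N (g • ω) := fun x e =>
  h (g⁻¹ * x) (by rw [mul_smul, e, inv_smul_smul])

theorem cone_smul (g : G) : Cone N (g • ω) ↔ Cone N ω :=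
  ⟨fun h => by simpa using h.smul g⁻¹, fun h => h.smul g⟩

theorem orb_or_cone (N : Net G Ω) (ω : Ω) : (∃ x : G, x • N.o = ω) ∨ Cone N ω :=
  (em _).imp_right not_exists.1

/-- A neighbour is a generator or a cone. -/
theorem Mod.gen_or_cone (h : Mod N) (hτ : τ ∈ N.T) : (∃ s ∈ N.S, s • N.o = τ) ∨ Cone N τ :=
  (h.dich τ hτ).imp_right fun k x e => k ((Set.finite_singleton 1).subset fun g hg => by
    have e1 : g • τ = τ := hg
    rw [← e, ← mul_smul] at e1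
    simpa using h.inj e1)

theorem Mod.stab (h : Mod N) (hω : Cone N ω) : {g : G | g • ω = ω}.Infinite := by
  obtain ⟨g, τ, hτ, rfl⟩ := h.cov ω
  have h1 := (h.dich τ hτ).resolve_left fun ⟨s, _, e⟩ => (cone_smul g).1 hω s e
  refine (h1.image (f := fun k => g * k * g⁻¹) fun a _ b _ e => by simpa using e).mono ?_
  rintro _ ⟨k, hk, rfl⟩
  have e : k • τ = τ := hk
  change (g * k * g⁻¹) • g • τ = g • τ
  rw [mul_smul, inv_smul_smul, mul_smul, e]

/-- Adjacent group elements differ by a generator. -/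
theorem Mod.step (h : Mod N) (hτ : τ ∈ N.T) (e : x • τ = y • N.o) : x⁻¹ * y ∈ N.S := by
  obtain ⟨s, hs, rfl⟩ := (h.gen_or_cone hτ).resolve_right fun k => k.smul x y e.symm
  rw [← mul_smul] at e
  rwa [← h.inj e, inv_mul_cancel_left]

theorem Mod.edge (h : Mod N) (e : x⁻¹ * y ∈ N.S) : ∃ τ ∈ N.T, x • τ = y • N.o :=
  ⟨_, h.sub _ e, by rw [← mul_smul, mul_inv_cancel_left]⟩

theorem Mod.countable (h : Mod N) : Countable Ω := by
  have := h.gen.countable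
  refine Function.Surjective.countable (f := fun p : G × N.T => p.1 • (p.2 : Ω)) fun ω => ?_
  obtain ⟨g, τ, hτ, e⟩ := h.cov ω
  exact ⟨(g, ⟨τ, hτ⟩), e⟩

/-- Induction along edges. -/
theorem Mod.ind (h : Mod N) {P : Ω → Prop} (h1 : P N.o)
    (h2 : ∀ x : G, ∀ τ ∈ N.T, P (x • N.o) → P (x • τ)) (ω : Ω) : P ω := by
  have key : ∀ x : G, P (x • N.o) := fun x => by
    induction x using h.gen.ind with
    | h1 => rwa [one_smul]
    | h x s hs ih => rw [mul_smul]; exact h2 x _ (h.sub s hs) ih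
  obtain ⟨g, τ, hτ, rfl⟩ := h.cov ω
  exact h2 g τ hτ (key g)

theorem edge_iff : Edge N (x, ω) ↔ ∃ τ ∈ N.T, x • τ = ω :=
  ⟨fun h => ⟨_, h, smul_inv_smul _ _⟩, fun ⟨τ, h, e⟩ => by
    change x⁻¹ • ω ∈ N.T
    rwa [← e, inv_smul_smul]⟩

theorem edge_smul (hτ : τ ∈ N.T) (x : G) : Edge N (x, x • τ) := edge_iff.2 ⟨τ, hτ, rfl⟩

/-- Finitely many edges start in a finite set. -/
theorem edge_finite {Φ : Set G} (h : Φ.Finite) : {e : G × Ω | Edge N e ∧ e.1 ∈ Φ}.Finite := by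
  refine ((h.prod N.T.finite_toSet).image fun p => (p.1, p.1 • p.2)).subset ?_
  rintro ⟨x, ω⟩ ⟨h1, h2⟩
  exact ⟨(x, x⁻¹ • ω), ⟨h2, h1⟩, by simp⟩

/-- Finitely many triangles start in a finite set. -/
theorem tri_finite {Φ : Set G} (h : Φ.Finite) : {t : G × G × Ω | Tri N t ∧ t.1 ∈ Φ}.Finite := by
  refine ((h.prod (N.S.finite_toSet.prod N.T.finite_toSet)).image
    fun p => (p.1, p.1 * p.2.1, p.1 • p.2.2)).subset ?_
  rintro ⟨x, y, ω⟩ ⟨h1, h2⟩
  exact ⟨(x, x⁻¹ * y, x⁻¹ • ω), ⟨h2, h1.1, h1.2.1⟩, by simp⟩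

end Mod

/-! ### Boundaries and paths -/

section Bdy

variable {L L' A B : Set Ω} {x y : G} {u v w τ : Ω}

theorem mem_tr : x ∈ tr N L ↔ x • N.o ∈ L := Iff.rfl

theorem tr_compl : tr N Lᶜ = (tr N L)ᶜ := rfl

theorem tr_inter : tr N (L ∩ L') = tr N L ∩ tr N L' := rfl

theorem tr_smul (g : G) : tr N (g • L) = g • tr N L := by
  ext x
  simp only [mem_tr, Set.mem_smul_set_iff_inv_smul_mem, smul_eq_mul, mul_smul]

theorem cr_smul (g : G) : Cr (g • L) (g • u) (g • v) ↔ Cr L u v := by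
  simp only [Cr, Set.smul_mem_smul_set_iff]

theorem mem_bdy : x ∈ Bdy N L ↔ ∃ τ ∈ N.T, Cr L (x • N.o) (x • τ) := Iff.rfl

theorem Mod.bdy_left (h : Mod N) (k : Cr L (x • N.o) (y • N.o)) (e : x⁻¹ * y ∈ N.S) :
    x ∈ Bdy N L :=
  let ⟨τ, h1, h2⟩ := h.edge e
  ⟨τ, h1, h2 ▸ k⟩

theorem Mod.bdy_right (h : Mod N) (k : Cr L (x • N.o) (y • N.o)) (e : x⁻¹ * y ∈ N.S) :
    y ∈ Bdy N L := h.bdy_left k.symm (h.gen.symm e)

theorem Mod.bdy_tr (h : Mod N) : Hy.Bdy N.S (tr N L) ⊆ Bdy N L := fun x ⟨s, hs, k⟩ =>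
  h.bdy_left (y := x * s) k (by rwa [inv_mul_cancel_left])

/-- Off the boundary all neighbours are on the same side. -/
theorem side_of_notMem (h : x ∉ Bdy N L) (hτ : τ ∈ N.T) : x • N.o ∈ L ↔ x • τ ∈ L :=
  not_not.1 fun k => h ⟨τ, hτ, k⟩

theorem bdy_compl : Bdy N Lᶜ = Bdy N L :=
  Set.ext fun _ => exists_congr fun _ => and_congr_right fun _ => cr_compl

theorem bdy_smul (g : G) : Bdy N (g • L) = g • Bdy N L := by
  ext x
  obtain ⟨x, rfl⟩ := (Group.mulLeft_bijective g).2 x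
  change _ ↔ g • x ∈ _
  simp only [Set.smul_mem_smul_set_iff, mem_bdy, mul_smul, cr_smul]

theorem bdy_inter : Bdy N (L ∩ L') ⊆ Bdy N L ∪ Bdy N L' := by
  rintro x ⟨s, hs, h⟩
  by_contra e
  simp only [Set.mem_union, not_or, mem_bdy, not_exists, not_and, Cr, not_not] at e
  exact h (and_congr (e.1 s hs) (e.2 s hs))

/-- A boundary point sees the set. -/
theorem Mod.bdy_in (h : Mod N) (k : x ∈ Bdy N L) : ∃ τ ∈ N.T, x • τ ∈ L := by
  obtain ⟨τ, hτ, c⟩ := k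
  by_cases e : x • N.o ∈ L
  · exact ⟨_, h.o_mem, e⟩
  · exact ⟨τ, hτ, by_contra fun e' => c (iff_of_false e e')⟩

theorem Adj.symm (h : Adj N u v) : Adj N v u :=
  let ⟨x, τ, h1, h2⟩ := h
  ⟨x, τ, h1, h2.symm.imp And.symm And.symm⟩

theorem adj_smul (hτ : τ ∈ N.T) (x : G) : Adj N (x • N.o) (x • τ) := ⟨x, τ, hτ, Or.inl ⟨rfl, rfl⟩⟩

theorem Con.refl (h : u ∈ A) : Con N A u u := ⟨h, Relation.ReflTransGen.refl⟩

theorem Con.right (h : Con N A u v) : v ∈ A := by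
  obtain ⟨h1, h2⟩ := h
  induction h2 with
  | refl => exact h1
  | tail _ h _ => exact h.1

theorem Con.trans (h : Con N A u v) (h' : Con N A v w) : Con N A u w := ⟨h.1, h.2.trans h'.2⟩

theorem Con.tail (h : Con N A u v) (hw : w ∈ A) (e : Adj N v w) : Con N A u w :=
  ⟨h.1, h.2.tail ⟨hw, e⟩⟩

theorem Con.ind {P : Ω → Prop} (h : Con N A u v) (h0 : P u)
    (h1 : ∀ a b, Con N A u a → b ∈ A → Adj N a b → P a → P b) : P v := by
  obtain ⟨hx, h⟩ := h
  induction h with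
  | refl => exact h0
  | tail h2 h3 ih => exact h1 _ _ ⟨hx, h2⟩ h3.1 h3.2 ih

theorem Con.symm (h : Con N A u v) : Con N A v u :=
  h.ind (P := fun v => Con N A v u) (Con.refl h.1) fun _ _ ha hb e ih =>
    ((Con.refl hb).tail ha.right e.symm).trans ih

theorem Con.mono (h : Con N A u v) (hAB : A ⊆ B) : Con N B u v :=
  h.ind (P := fun v => Con N B u v) (Con.refl (hAB h.1)) fun _ _ _ hb e ih => ih.tail (hAB hb) e

/-- A set without crossing edges inside `A` does not separate points joined in `A`. -/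
theorem Con.not_cr (h : Con N A u v)
    (e : ∀ x : G, ∀ τ ∈ N.T, x • N.o ∈ A → x • τ ∈ A → ¬ Cr L (x • N.o) (x • τ)) : ¬ Cr L u v :=
  h.ind (P := fun v => ¬ Cr L u v) (fun k => k Iff.rfl) fun a b ha hb k ih => by
    obtain ⟨x, τ, hτ, ⟨rfl, rfl⟩ | ⟨rfl, rfl⟩⟩ := k
    · exact fun k' => k' ((not_not.1 ih).trans (not_not.1 (e x τ hτ ha.right hb)))
    · exact fun k' => k' ((not_not.1 ih).trans (not_not.1 (e x τ hτ hb ha.right)).symm)

/-- Paths in the group are paths in the model. -/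
theorem Mod.con (h : Mod N) (k : Conn N.S (tr N A) x y) : Con N A (x • N.o) (y • N.o) :=
  k.ind (P := fun y => Con N A (x • N.o) (y • N.o)) (Con.refl k.1) fun a _ _ hb e ih =>
    let ⟨_, h1, h2⟩ := h.edge e
    ih.tail hb (h2 ▸ adj_smul h1 a)

/-- A set that contains the whole group is connected. -/
theorem Mod.cn (h : Mod N) (e : ∀ x : G, x • N.o ∈ A) : Cn N A := by
  have key : ∀ u ∈ A, Con N A N.o u := fun u hu => by
    obtain ⟨g, τ, hτ, rfl⟩ := h.cov u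
    have := h.con (A := A) ((h.gen.conn_univ 1 g).mono fun x _ => e x)
    rw [one_smul] at this
    exact this.tail hu (adj_smul hτ g)
  exact fun u hu v hv => (key u hu).symm.trans (key v hv)

theorem mem_nb (h : Cone N u) : x ∈ Bdy N {u} ↔ ∃ τ ∈ N.T, x • τ = u :=
  exists_congr fun τ => and_congr_right fun _ => by
    simp only [Cr, Set.mem_singleton_iff, h x, false_iff, not_not]

theorem Mod.nb_infinite (h : Mod N) (k : Cone N u) : (Bdy N {u}).Infinite := by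
  obtain ⟨g, τ, hτ, e⟩ := h.cov u
  refine ((h.stab k).image (f := fun a => a * g) (mul_left_injective g).injOn).mono ?_
  rintro _ ⟨a, ha, rfl⟩
  exact (mem_nb k).2 ⟨τ, hτ, by rw [mul_smul, e]; exact ha⟩

theorem Cs.nb_cnn (h : Cs N) (k : Cone N u) : Cnn N.S (Bdy N {u}) :=
  h.uc _ (by rintro _ rfl _ rfl; exact Con.refl rfl) (h.md.cn k)

/-- A set with finite boundary and finite trace contains no cone. -/
theorem Mod.no_cone (h : Mod N) (h1 : (Bdy N L).Finite) (h2 : (tr N L).Finite) (k : Cone N u) :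
    u ∉ L := fun e => h.nb_infinite k ((h1.union h2).subset fun x hx => by
  obtain ⟨τ, hτ, rfl⟩ := (mem_nb k).1 hx
  exact or_iff_not_imp_left.2 fun c => (side_of_notMem c hτ).2 e)

theorem mem_cl_left (h : Mod N) (hτ : τ ∈ N.T) (e : x • N.o ∈ A ∨ x • τ ∈ A) :
    x • N.o ∈ Cl N A ∧ x • τ ∈ Cl N A := by
  by_cases k : x ∈ Bdy N A
  · exact ⟨Or.inr ⟨x, k, _, h.o_mem, rfl⟩, Or.inr ⟨x, k, τ, hτ, rfl⟩⟩
  · have := side_of_notMem k hτ
    exact ⟨Or.inl (e.elim id this.2), Or.inl (e.elim this.1 id)⟩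

end Bdy

/-! ### Dirichlet functions -/

section Dir

variable {f g h ψ η : Ω → ℝ} {a b c τ : Ω}

theorem dir_const (c : ℝ) : Dir N fun _ => c := fun _ _ => by simpa using sq_zero

theorem Dir.add (hf : Dir N f) (hg : Dir N g) : Dir N fun x => f x + g x := fun s hs => by
  convert (hf s hs).add (hg s hs) using 2
  ring

theorem Dir.const_mul (hf : Dir N f) (c : ℝ) : Dir N fun x => c * f x := fun s hs => by
  convert (hf s hs).const_mul c using 2
  ring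

theorem Dir.neg (hf : Dir N f) : Dir N fun x => -f x := by simpa using hf.const_mul (-1)

theorem Dir.sub (hf : Dir N f) (hg : Dir N g) : Dir N fun x => f x - g x := by
  simpa [sub_eq_add_neg] using hf.add hg.neg

theorem Dir.lip (hf : Dir N f) {φ : ℝ → ℝ} (h : ∀ a b, |φ a - φ b| ≤ |a - b|) :
    Dir N fun x => φ (f x) := fun s hs => (hf s hs).of_le fun _ => h _ _

theorem Dir.left (hf : Dir N f) (g : G) : Dir N fun ω => f (g • ω) := fun s hs => by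
  simpa [mul_smul] using (hf s hs).mul_left g

theorem Dir.dd (hf : Dir N f) : Sq (DD N f) := Sq.sum N.T fun s hs => (hf s hs).abs

theorem dd_nonneg (N : Net G Ω) (f : Ω → ℝ) (x : G) : 0 ≤ DD N f x :=
  Finset.sum_nonneg fun _ _ => abs_nonneg _

theorem le_dd (f : Ω → ℝ) (x : G) (hτ : τ ∈ N.T) : |f (x • τ) - f (x • N.o)| ≤ DD N f x :=
  Finset.single_le_sum (f := fun τ => |f (x • τ) - f (x • N.o)|) (fun _ _ => abs_nonneg _) hτ

theorem dd_left (f : Ω → ℝ) (g x : G) : DD N (fun ω => f (g • ω)) x = DD N f (g * x) := by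
  simp only [DD, mul_smul]

/-- The restriction to the group has finite energy. -/
theorem Dir.tr (hN : Mod N) (hf : Dir N f) : Hy.Dir N.S fun x => f (x • N.o) := fun s hs => by
  simpa only [mul_smul] using hf _ (hN.sub s hs)

theorem dd_tr (hN : Mod N) (f : Ω → ℝ) (x : G) :
    Hy.DD N.S (fun x => f (x • N.o)) x ≤ DD N f x := by
  classical
  have := Finset.sum_image (s := N.S) (g := fun s : G => s • N.o)
    (f := fun τ => |f (x • τ) - f (x • N.o)|) hN.injective.injOn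
  simp only [← mul_smul] at this
  rw [Hy.DD, ← this]
  exact Finset.sum_le_sum_of_subset_of_nonneg (Finset.image_subset_iff.2 hN.sub)
    fun _ _ _ => abs_nonneg _

theorem Dir.sq (hN : Mod N) (hf : Dir N f) (ω : Ω) : Sq fun x : G => f (x • ω) - f (x • N.o) := by
  obtain ⟨g, τ, hτ, rfl⟩ := hN.cov ω
  convert ((hf τ hτ).mul_right g).add ((hf.tr hN).sq_right hN.gen g) using 2
  simp [mul_smul]

theorem Dir.finite (hN : Mod N) (hf : Dir N f) (ω : Ω) {ε : ℝ} (hε : 0 < ε) :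
    {x : G | ε ≤ |f (x • ω) - f (x • N.o)|}.Finite := (hf.sq hN ω).finite hε

theorem bdy_level (f : Ω → ℝ) (t : ℝ) {x : G} (h : x ∈ Bdy N {y | t < f y}) :
    ∃ τ ∈ N.T, |f (x • N.o) - t| ≤ |f (x • τ) - f (x • N.o)| := by
  obtain ⟨τ, hτ, h⟩ := h
  refine ⟨τ, hτ, ?_⟩
  by_cases h2 : t < f (x • N.o)
  · have h3 : ¬ t < f (x • τ) := fun e => h ⟨fun _ => e, fun _ => h2⟩
    rw [abs_of_pos (by linarith), abs_of_neg (by linarith)]
    linarith
  · have h3 : t < f (x • τ) := by_contra fun e => h (iff_of_false h2 e)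
    rw [abs_of_nonpos (by linarith), abs_of_pos (by linarith)]
    linarith

theorem bb_comm (f g : Ω → ℝ) : BB N f g = BB N g f := by simp only [BB, mul_comm]

theorem en_eq (f : Ω → ℝ) : En N f = BB N f f := by simp only [En, BB, sq]

theorem en_nonneg (N : Net G Ω) (f : Ω → ℝ) : 0 ≤ En N f :=
  Finset.sum_nonneg fun _ _ => tsum_nonneg fun _ => sq_nonneg _

theorem bb_summable (hf : Dir N f) (hg : Dir N g) (hτ : τ ∈ N.T) :
    Summable fun x : G => (f (x • τ) - f (x • N.o)) * (g (x • τ) - g (x • N.o)) :=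
  (hf τ hτ).summable_mul (hg τ hτ)

theorem bb_add (hf : Dir N f) (hg : Dir N g) (hh : Dir N h) :
    BB N f (fun x => g x + h x) = BB N f g + BB N f h := by
  rw [BB, BB, BB, ← Finset.sum_add_distrib]
  refine Finset.sum_congr rfl fun s hs => ?_
  rw [← (bb_summable hf hg hs).tsum_add (bb_summable hf hh hs)]
  exact tsum_congr fun x => by ring

theorem bb_const_mul (r : ℝ) : BB N f (fun x => r * g x) = r * BB N f g := by
  rw [BB, BB, Finset.mul_sum]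
  refine Finset.sum_congr rfl fun s _ => ?_
  rw [← tsum_mul_left]
  exact tsum_congr fun x => by ring

theorem bb_neg : BB N f (fun x => -g x) = -BB N f g := by
  simpa using bb_const_mul (N := N) (f := f) (g := g) (-1)

theorem bb_sub (hf : Dir N f) (hg : Dir N g) (hh : Dir N h) :
    BB N f (fun x => g x - h x) = BB N f g - BB N f h := by
  simpa [sub_eq_add_neg, bb_neg] using bb_add hf hg hh.neg

theorem bb_left (u : G) : BB N (fun x => f (u • x)) (fun x => g (u • x)) = BB N f g :=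
  Finset.sum_congr rfl fun τ _ => by
    simpa [mul_smul] using (Equiv.mulLeft u).tsum_eq
      fun x : G => (f (x • τ) - f (x • N.o)) * (g (x • τ) - g (x • N.o))

/-- A termwise comparison of the energy. -/
theorem en_le_bb (hf : Dir N f) (hg : Dir N g) (e : ∀ x : G, ∀ τ ∈ N.T,
    (g (x • τ) - g (x • N.o)) ^ 2 ≤ (f (x • τ) - f (x • N.o)) * (g (x • τ) - g (x • N.o))) :
    En N g ≤ BB N f g :=
  Finset.sum_le_sum fun s hs =>
    Summable.tsum_le_tsum (fun x => e x s hs) (hg s hs) (bb_summable hf hg hs)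

theorem tsum_le_en (f : Ω → ℝ) (hτ : τ ∈ N.T) :
    ∑' x : G, (f (x • τ) - f (x • N.o)) ^ 2 ≤ En N f :=
  Finset.single_le_sum (f := fun τ => ∑' x : G, (f (x • τ) - f (x • N.o)) ^ 2)
    (fun _ _ => tsum_nonneg fun _ => sq_nonneg _) hτ

theorem sq_le_en (hf : Dir N f) (x : G) (hτ : τ ∈ N.T) :
    (f (x • τ) - f (x • N.o)) ^ 2 ≤ En N f :=
  (Summable.le_tsum (hf τ hτ) x fun _ _ => sq_nonneg _).trans (tsum_le_en f hτ)

theorem const_of_en (hN : Mod N) (hf : Dir N f) (e : En N f ≤ 0) (x y : Ω) : f x = f y := by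
  have key : ∀ x, f x = f N.o := fun x => by
    induction x using hN.ind with
    | h1 => rfl
    | h2 x s hs ih =>
      have := (sq_le_en hf x hs).trans e
      nlinarith [sq_nonneg (f (x • s) - f (x • N.o))]
  rw [key x, key y]

theorem Dip.neg (h : Dip N ψ a b) : Dip N (fun x => -ψ x) b a :=
  ⟨h.dir.neg, fun f hf => by rw [bb_comm, bb_neg, bb_comm, h.rep f hf, neg_sub]⟩

theorem Dip.sub (h : Dip N ψ a b) (h' : Dip N η a c) : Dip N (fun x => ψ x - η x) c b :=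
  ⟨h.dir.sub h'.dir, fun f hf => by
    rw [bb_comm, bb_sub hf h.dir h'.dir, bb_comm, h.rep f hf, bb_comm, h'.rep f hf]; ring⟩

theorem Dip.left (h : Dip N ψ a b) (u : G) :
    Dip N (fun x => ψ (u • x)) (u⁻¹ • a) (u⁻¹ • b) :=
  ⟨h.dir.left u, fun f hf => by
    rw [← h.rep _ (hf.left u⁻¹), ← bb_left (f := ψ) u]
    simp only [inv_smul_smul]⟩

/-- Potentials with the same poles differ by a constant. -/
theorem Dip.unique (hN : Mod N) (h : Dip N ψ a b) (h' : Dip N η a b) (x y : Ω) :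
    ψ x - η x = ψ y - η y :=
  const_of_en hN (h.sub h').dir (by rw [en_eq, (h.sub h').rep _ (h.sub h').dir, sub_self]) x y

variable {φ : Ω → Ω → ℝ}

theorem Pot.dir (h : Pot N φ) (y : Ω) : Dir N (φ y) := (h.dip y).dir

theorem Pot.symm (h : Pot N φ) (x y : Ω) : φ x y = φ y x := by
  have h1 := (h.dip x).rep _ (h.dir y)
  have h2 := (h.dip y).rep _ (h.dir x)
  rw [bb_comm, h2, h.one, h.one] at h1
  linarith

theorem Pot.transl (hN : Mod N) (h : Pot N φ) (y : Ω) (g : G) (x : Ω) :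
    φ y (g • x) = φ (g⁻¹ • y) x - φ (g⁻¹ • N.o) x + φ y (g • N.o) := by
  have := ((h.dip y).left g).unique hN ((h.dip (g⁻¹ • y)).sub (h.dip (g⁻¹ • N.o))) x N.o
  simp only [h.one] at this
  linarith

theorem Pot.range (hD : DF N) (h : Pot N φ) (u x : Ω) : 0 ≤ φ u x ∧ φ u x ≤ φ u u :=
  h.one u ▸ hD.range _ _ _ (h.dip u) x

/-- The potentials separate what functions of finite energy separate. -/
theorem Pot.sep (h : Pot N φ) (hf : Dir N f) (e : ∀ u, φ u a = φ u b) : f a = f b := by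
  have h1 := (h.dip a).rep f hf
  rw [show φ a = φ b from funext fun u => by rw [h.symm a, h.symm b, e], (h.dip b).rep f hf] at h1
  linarith

end Dir

/-! ### Statements -/

/-- Job `Cs`. -/
def CsStmt : Prop :=
  ∀ (G Ω : Type) [Group G] [MulAction G Ω] (N : Net G Ω), Mod N → RelQ N → Cs N

/-- Job `Unif`. -/
def UnifStmt : Prop :=
  ∀ (G Ω : Type) [Group G] [MulAction G Ω] (N : Net G Ω), Mod N → RelQ N → Unif N

/-- Job `Nst`. -/
def NstStmt : Prop :=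
  ∀ (G Ω : Type) [Group G] [MulAction G Ω] (N : Net G Ω), Mod N → RelQ N → Nst N

/-- Job `Pot`. -/
def PotStmt : Prop :=
  ∀ (G Ω : Type) [Group G] [MulAction G Ω] (N : Net G Ω), Mod N → ∃ φ, Pot N φ

/-- Job `DF`. -/
def DFStmt : Prop := ∀ (G Ω : Type) [Group G] [MulAction G Ω] (N : Net G Ω), Mod N → DF N

/-- Job `Osc`. -/
def OscStmt : Prop :=
  ∀ (G Ω : Type) [Group G] [MulAction G Ω] (N : Net G Ω), Cs N → DF N → Osc N

/-- Job `Dec`. -/
def DecStmt : Prop :=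
  ∀ (G Ω : Type) [Group G] [MulAction G Ω] (N : Net G Ω), Mod N → DF N → Osc N → Dec N

/-- Job `Tight`. -/
def TightStmt : Prop :=
  ∀ (G Ω : Type) [Group G] [MulAction G Ω] (N : Net G Ω) (φ : Ω → Ω → ℝ), DF N → Dec N →
    Pot N φ → Tight N φ

/-- Job `Cont`. -/
def ContStmt : Prop :=
  ∀ (G Ω : Type) [Group G] [MulAction G Ω] (N : Net G Ω) (φ : Ω → Ω → ℝ), Mod N → Pot N φ →
    Tight N φ → Cont N φ

end Pool.Agent.MP_4f4d9f_gt.Rk

end

section

/-! Uniform fillings of finitely supported coboundaries, by compactness. -/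

namespace Pool.Agent.MP_4f4d9f_gt.Rk

open Filter Topology Hy Ku

namespace UnifL

variable {G Ω : Type} [Group G] [MulAction G Ω] {N : Net G Ω}

variable (N) in
/-- A filling of size at most `M`. -/
def Fill (w : G × Ω → ZMod 2) (M : ℕ) : Prop :=
  ∃ c : G × Ω → ZMod 2, (sp1 N c).Finite ∧ (∀ t, Tri N t → d1 N c t = d1 N w t) ∧
    (sp1 N c).ncard ≤ M

theorem Fill.mono {w : G × Ω → ZMod 2} {M M' : ℕ} (h : Fill N w M) (e : M ≤ M') : Fill N w M' :=
  h.imp fun _ k => ⟨k.1, k.2.1, k.2.2.trans e⟩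

/-- Translation of edges. -/
def t2 (g : G) (e : G × Ω) : G × Ω := (g * e.1, g • e.2)

/-- Translation of triangles. -/
def t3 (g : G) (t : G × G × Ω) : G × G × Ω := (g * t.1, g * t.2.1, g • t.2.2)

theorem t2_inj (g : G) : Function.Injective (t2 (Ω := Ω) g) := fun a b e => by
  simpa [t2, Prod.ext_iff] using e

theorem t3_inj (g : G) : Function.Injective (t3 (Ω := Ω) g) := fun a b e => by
  simpa [t3, Prod.ext_iff] using e

theorem t3_inv (g : G) (t : G × G × Ω) : t3 g (t3 g⁻¹ t) = t := by simp [t3]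

theorem edge_t2 (g : G) (e : G × Ω) : Edge N (t2 g e) ↔ Edge N e := by
  simp [Edge, t2, mul_smul]

theorem tri_t3 (g : G) (t : G × G × Ω) : Tri N (t3 g t) ↔ Tri N t := by
  simp [Tri, t3, mul_smul, mul_assoc]

theorem d1_t2 (g : G) (w : G × Ω → ZMod 2) (t : G × G × Ω) :
    d1 N (fun e => w (t2 g e)) t = d1 N w (t3 g t) := by
  simp [d1, t2, t3, mul_smul]

theorem d1_add (w c : G × Ω → ZMod 2) (t : G × G × Ω) :
    d1 N (fun e => w e + c e) t = d1 N w t + d1 N c t := by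
  simp only [d1]
  ring

theorem Fill.tr {w : G × Ω → ZMod 2} {M : ℕ} {g : G} (h : Fill N (fun e => w (t2 g e)) M) :
    Fill N w M := by
  obtain ⟨c, h1, h2, h3⟩ := h
  have k : ∀ e ∈ sp1 N fun e => c (t2 g⁻¹ e), t2 g⁻¹ e ∈ sp1 N c := fun e he =>
    ⟨(edge_t2 _ e).2 he.1, he.2⟩
  refine ⟨fun e => c (t2 g⁻¹ e), Set.Finite.of_injOn k (t2_inj _).injOn h1, fun t ht => ?_,
    (Set.ncard_le_ncard_of_injOn _ k (t2_inj _).injOn h1).trans h3⟩
  rw [d1_t2, h2 _ ((tri_t3 _ t).2 ht), d1_t2, t3_inv]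

theorem at_tri (hQ : RelQ N) {n M : ℕ}
    (ih : ∀ w : G × Ω → ZMod 2, (sp2 N (d1 N w)).Finite → (sp2 N (d1 N w)).ncard ≤ n → Fill N w M)
    (t₀ : G × G × Ω) : ∃ M' : ℕ, ∀ w : G × Ω → ZMod 2, (sp2 N (d1 N w)).Finite →
      (sp2 N (d1 N w)).ncard ≤ n + 1 → t₀ ∈ sp2 N (d1 N w) → Fill N w M' := by
  by_contra hn
  push Not at hn
  choose w w1 w2 w3 w4 using hn
  have hl : ∀ e, ∃ a, ∀ᶠ k in (hyperfilter ℕ : Filter ℕ), w k e = a := fun e =>
    Ultrafilter.eventually_exists_iff.1 (Eventually.of_forall fun k => ⟨w k e, rfl⟩)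
  choose v hv using hl
  have hd : ∀ t, ∀ᶠ k in (hyperfilter ℕ : Filter ℕ), d1 N (w k) t = d1 N v t := fun t => by
    filter_upwards [hv (t.2.1, t.2.2), hv (t.1, t.2.2), hv (t.1, t.2.1 • N.o)] with k a1 a2 a3
    rw [d1, d1, a1, a2, a3]
  have hf : (sp2 N (d1 N v)).Finite := by
    by_contra hi
    obtain ⟨Z, z1, z2⟩ := Set.Infinite.exists_subset_card_eq hi (n + 2)
    obtain ⟨k, hk⟩ := ((eventually_all_finset Z).2 fun t _ => hd t).exists
    have := Set.ncard_le_ncard (s := (Z : Set (G × G × Ω))) (t := sp2 N (d1 N (w k)))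
      (fun t ht => ⟨(z1 ht).1, (hk t ht).symm ▸ (z1 ht).2⟩) (w1 k)
    rw [Set.ncard_coe_finset, z2] at this
    have := w2 k
    omega
  have h0 : t₀ ∈ sp2 N (d1 N v) := by
    obtain ⟨k, hk⟩ := (hd t₀).exists
    exact ⟨(w3 k).1, hk ▸ (w3 k).2⟩
  obtain ⟨c, c1, c2⟩ := hQ.c2 v hf
  obtain ⟨k, k1, k2⟩ := (((eventually_all_finite hf).2 fun t _ => hd t).and
    (Nat.hyperfilter_le_atTop (eventually_ge_atTop (M + (sp1 N c).ncard)))).exists
  have hs : sp2 N (d1 N fun e => w k e + c e) ⊆ sp2 N (d1 N (w k)) \ {t₀} := fun t ht => by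
    have e := ht.2
    rw [d1_add, c2 t ht.1] at e
    have e1 : t ∉ sp2 N (d1 N v) := fun e' => e (by rw [k1 t e', CharTwo.add_self_eq_zero])
    have e2 : d1 N v t = 0 := by_contra fun e' => e1 ⟨ht.1, e'⟩
    rw [e2, add_zero] at e
    exact ⟨⟨ht.1, e⟩, fun e' => e1 (e' ▸ h0)⟩
  obtain ⟨b, b1, b2, b3⟩ := ih _ ((w1 k).subset (hs.trans Set.sdiff_subset)) (by
    have a1 := Set.ncard_le_ncard hs (w1 k).sdiff
    have a2 := Set.ncard_sdiff_singleton_lt_of_mem (w3 k) (w1 k)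
    have a3 := w2 k
    omega)
  have hu : (sp1 N fun e => b e + c e) ⊆ sp1 N b ∪ sp1 N c := fun e he => by
    by_cases e1 : b e = 0
    · exact Or.inr ⟨he.1, fun e2 => he.2 (by simp [e1, e2])⟩
    · exact Or.inl ⟨he.1, e1⟩
  refine w4 k ⟨fun e => b e + c e, (b1.union c1).subset hu, fun t ht => ?_, ?_⟩
  · rw [d1_add, b2 t ht, d1_add, add_assoc, CharTwo.add_self_eq_zero, add_zero]
  · have a1 := Set.ncard_le_ncard hu (b1.union c1)
    have a2 := Set.ncard_union_le (sp1 N b) (sp1 N c)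
    omega

theorem fill_empty {w : G × Ω → ZMod 2} (h : sp2 N (d1 N w) = ∅) : Fill N w 0 := by
  have e : (sp1 N fun _ => 0) = ∅ := Set.eq_empty_of_forall_notMem fun e he => he.2 rfl
  refine ⟨fun _ => 0, e ▸ Set.finite_empty, fun t ht => ?_, by rw [e, Set.ncard_empty]⟩
  have e1 : d1 N w t = 0 := by_contra fun e' => Set.eq_empty_iff_forall_notMem.1 h t ⟨ht, e'⟩
  rw [e1]
  simp [d1]

theorem fill (hQ : RelQ N) (n : ℕ) : ∃ M : ℕ, ∀ w : G × Ω → ZMod 2, (sp2 N (d1 N w)).Finite →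
    (sp2 N (d1 N w)).ncard ≤ n → Fill N w M := by
  induction n with
  | zero => exact ⟨0, fun w h1 h2 => fill_empty ((Set.ncard_eq_zero h1).1 (Nat.le_zero.1 h2))⟩
  | succ n ih =>
    obtain ⟨M, ih⟩ := ih
    choose m hm using at_tri hQ ih
    have hf := tri_finite (N := N) (Set.finite_singleton (1 : G))
    refine ⟨hf.toFinset.sup m, fun w h1 h2 => ?_⟩
    rcases (sp2 N (d1 N w)).eq_empty_or_nonempty with e | ⟨t, ht⟩
    · exact (fill_empty e).mono (Nat.zero_le _)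
    have k : ∀ s ∈ sp2 N (d1 N fun e => w (t2 t.1 e)), t3 t.1 s ∈ sp2 N (d1 N w) := fun s hs =>
      ⟨(tri_t3 _ s).2 hs.1, d1_t2 t.1 w s ▸ hs.2⟩
    have k0 : Tri N (t3 t.1⁻¹ t) := (tri_t3 _ t).2 ht.1
    refine Fill.tr (g := t.1) ((hm (t3 t.1⁻¹ t) _ (Set.Finite.of_injOn k (t3_inj _).injOn h1)
      ((Set.ncard_le_ncard_of_injOn _ k (t3_inj _).injOn h1).trans h2) ⟨k0, ?_⟩).mono
        (Finset.le_sup (hf.mem_toFinset.2 ⟨k0, inv_mul_cancel t.1⟩)))
    rw [d1_t2, t3_inv]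
    exact ht.2

end UnifL

theorem unif_stmt : UnifStmt := fun _ _ _ _ _ _ hQ n => UnifL.fill hQ n

end Pool.Agent.MP_4f4d9f_gt.Rk

end

section

/-! Continuity of functions whose gradient is controlled by finitely many potentials. -/

namespace Pool.Agent.MP_4f4d9f_gt.Rk

open Filter Topology Hy Ku

namespace ContL

variable {G Ω : Type} [Group G] [MulAction G Ω] {N : Net G Ω}

theorem abs_bb_le {η f : Ω → ℝ} (hη : Dir N η) (hf : Dir N f) {c : ℝ}
    (h : ∀ T : Finset G, ∑ a ∈ T, DD N η a * DD N f a ≤ c) : |BB N η f| ≤ c := by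
  have hs : HasSum (fun a : G => ∑ τ ∈ N.T, (η (a • τ) - η (a • N.o)) * (f (a • τ) - f (a • N.o)))
      (BB N η f) :=
    hasSum_sum fun s hs => (bb_summable hη hf hs).hasSum
  have ht : Tendsto (fun T : Finset G => ∑ a ∈ T, ∑ τ ∈ N.T,
      (η (a • τ) - η (a • N.o)) * (f (a • τ) - f (a • N.o))) atTop (𝓝 (BB N η f)) := hs
  refine le_of_tendsto' ht.abs fun T => (Finset.abs_sum_le_sum_abs _ _).trans
    ((Finset.sum_le_sum fun a _ => (Finset.abs_sum_le_sum_abs _ _).trans ?_).trans (h T))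
  rw [DD, Finset.sum_mul]
  refine Finset.sum_le_sum fun s hs => ?_
  rw [abs_mul]
  exact mul_le_mul_of_nonneg_left (le_dd f a hs) (abs_nonneg _)

theorem dd_sub_le (f g : Ω → ℝ) (a : G) :
    DD N (fun x => f x - g x) a ≤ DD N f a + DD N g a := by
  rw [DD, DD, DD, ← Finset.sum_add_distrib]
  refine Finset.sum_le_sum fun s _ => le_trans (le_of_eq ?_) (abs_sub _ _)
  congr 1
  ring

end ContL

open ContL in
theorem cont_stmt : ContStmt := by
  classical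
  intro G Ω _ _ N φ hN hP hT f C U C0 hf ε hε
  have hd : Dir N f := fun s hs =>
    ((Sq.sum U fun u _ => (hP.dir u s hs).abs).const_mul C).of_eventually_le
      (hf.mono fun x hx => (hx s hs).trans (le_abs_self _))
  obtain ⟨Φ₀, hΦ₀⟩ : ∃ Φ₀ : Finset G, ∀ x ∉ Φ₀, ∀ τ ∈ N.T,
      |f (x • τ) - f (x • N.o)| ≤ C * ∑ u ∈ U, |φ u (x • τ) - φ u (x • N.o)| :=
    ⟨(eventually_cofinite.1 hf).toFinset, fun x hx => by
      by_contra h1
      exact hx ((eventually_cofinite.1 hf).mem_toFinset.2 h1)⟩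
  have hdd : ∀ a ∉ Φ₀, DD N f a ≤ C * ∑ u ∈ U, DD N (φ u) a := fun a ha => by
    simp only [DD]
    rw [Finset.sum_comm, Finset.mul_sum]
    exact Finset.sum_le_sum fun s hs => hΦ₀ a ha s hs
  have k0 : 0 < C * U.card + 1 := by positivity
  choose Φ hΦ using fun u => hT u (ε / 8 / (C * U.card + 1)) (by positivity)
  obtain ⟨Ψ, hΨ₀, hΨ⟩ : ∃ Ψ : Finset G, Φ₀ ⊆ Ψ ∧ ∀ u ∈ U, Φ u ⊆ Ψ :=
    ⟨Φ₀ ∪ U.biUnion Φ, Finset.subset_union_left, fun u hu =>
      (Finset.subset_biUnion_of_mem Φ hu).trans Finset.subset_union_right⟩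
  have far : ∀ (x : Ω) (T : Finset G), Disjoint T Ψ →
      ∑ a ∈ T, DD N (φ x) a * DD N f a ≤ ε / 8 := fun x T h =>
    calc ∑ a ∈ T, DD N (φ x) a * DD N f a
        ≤ ∑ a ∈ T, DD N (φ x) a * (C * ∑ u ∈ U, DD N (φ u) a) :=
          Finset.sum_le_sum fun a ha => mul_le_mul_of_nonneg_left
            (hdd a fun h1 => Finset.disjoint_left.1 h ha (hΨ₀ h1)) (dd_nonneg _ _ _)
      _ = C * ∑ u ∈ U, ∑ a ∈ T, DD N (φ x) a * DD N (φ u) a := by
          rw [Finset.sum_comm, Finset.mul_sum]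
          exact Finset.sum_congr rfl fun a _ => by rw [← Finset.mul_sum, mul_left_comm]
      _ ≤ C * (U.card * (ε / 8 / (C * U.card + 1))) := by
          refine mul_le_mul_of_nonneg_left ?_ C0
          rw [← nsmul_eq_mul]
          exact Finset.sum_le_card_nsmul _ _ _ fun u hu => hΦ u x T (h.mono_right (hΨ u hu))
      _ ≤ (C * U.card + 1) * (ε / 8 / (C * U.card + 1)) := by
          rw [← mul_assoc]
          gcongr
          linarith
      _ = ε / 8 := mul_div_cancel₀ _ k0.ne'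
  obtain ⟨B, hB⟩ : ∃ B, B = 2 * (N.T.card : ℝ) * ∑ a ∈ Ψ, DD N f a := ⟨_, rfl⟩
  have B0 : 0 ≤ B := hB ▸ mul_nonneg (by positivity) (Finset.sum_nonneg fun a _ => dd_nonneg _ _ _)
  refine ⟨Finset.image₂ (· • ·) Ψ N.T, ε / 2 / (B + 1), by positivity, fun x y hxy => ?_⟩
  have hη := (hP.dip x).sub (hP.dip y)
  have near : ∀ a ∈ Ψ, DD N (fun w => φ x w - φ y w) a ≤ 2 * N.T.card * (ε / 2 / (B + 1)) := by
    intro a ha
    rw [mul_comm 2, mul_assoc, ← nsmul_eq_mul]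
    refine Finset.sum_le_card_nsmul _ _ _ fun s hs => (abs_sub _ _).trans ?_
    have h1 := hxy (a • N.o) (Finset.mem_image₂_of_mem ha hN.o_mem)
    have h2 := hxy (a • s) (Finset.mem_image₂_of_mem ha hs)
    rw [hP.symm _ x, hP.symm _ y] at h1 h2
    linarith
  rw [← hη.rep f hd]
  refine (abs_bb_le (c := ε / 2 + ε / 4) hη.dir hd fun T => ?_).trans_lt (by linarith)
  rw [← Finset.sum_inter_add_sum_sdiff T Ψ]
  refine add_le_add ?_ ?_
  · calc ∑ a ∈ T ∩ Ψ, DD N (fun w => φ x w - φ y w) a * DD N f a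
        ≤ ∑ a ∈ Ψ, DD N (fun w => φ x w - φ y w) a * DD N f a :=
          Finset.sum_le_sum_of_subset_of_nonneg Finset.inter_subset_right fun _ _ _ =>
            mul_nonneg (dd_nonneg _ _ _) (dd_nonneg _ _ _)
      _ ≤ ∑ a ∈ Ψ, 2 * N.T.card * (ε / 2 / (B + 1)) * DD N f a :=
          Finset.sum_le_sum fun a ha => mul_le_mul_of_nonneg_right (near a ha) (dd_nonneg _ _ _)
      _ = B * (ε / 2 / (B + 1)) := by rw [← Finset.mul_sum, mul_right_comm, ← hB]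
      _ ≤ (B + 1) * (ε / 2 / (B + 1)) := by
          gcongr
          linarith
      _ = ε / 2 := mul_div_cancel₀ _ (by positivity)
  · have h1 := far x (T \ Ψ) Finset.sdiff_disjoint
    have h2 := far y (T \ Ψ) Finset.sdiff_disjoint
    refine le_trans (Finset.sum_le_sum fun a _ => (mul_le_mul_of_nonneg_right
      (dd_sub_le (φ x) (φ y) a) (dd_nonneg _ _ _)).trans_eq (add_mul _ _ _)) ?_
    rw [Finset.sum_add_distrib]
    linarith

end Pool.Agent.MP_4f4d9f_gt.Rk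

end

section

/-! Interface, part K: the compactification of the model, its cuts and its cells. -/

namespace Pool.Agent.MP_4f4d9f_gt.Rk

open Filter Topology Hy Ku
open scoped Pointwise

section Defs

variable {G Ω : Type} [Group G] [MulAction G Ω] {X : Type} [MetricSpace X] [MulAction G X]

/-- The compactification by potentials. -/
structure Kur (φ : Ω → Ω → ℝ) (pos : Ω → X) (co : Ω → X → ℝ) : Prop where
  cont : ∀ u, Continuous (co u)
  inj : ∀ z z', (∀ u, co u z = co u z') → z = z'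
  orb : ∀ u ω : Ω, co u (pos ω) = φ u ω
  dense : DenseRange pos

/-- The positions of the vertices. -/
structure Ps (N : Net G Ω) (b : X) (pos : Ω → X) : Prop where
  base : pos N.o = b
  eqv : ∀ (g : G) (ω : Ω), pos (g • ω) = g • pos ω
  null : ∀ (ω : Ω) (ε : ℝ), 0 < ε → {g : G | ε ≤ dist (g • pos ω) (g • b)}.Finite

/-- Local connectivity. -/
def Lc (N : Net G Ω) (b : X) : Prop :=
  ∀ ξ, ∀ F : Set Ω, (Bdy N F)ᶜ ∈ nf G b ξ → tr N F ∈ nf G b ξ ∨ (tr N F)ᶜ ∈ nf G b ξ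

/-- Bump functions. -/
def Bump (N : Net G Ω) (b : X) (pos : Ω → X) : Prop :=
  ∀ ξ ∈ KK G b, ∀ O ∈ 𝓝 ξ, ∃ ψ, Dir N ψ ∧ I01 ψ ∧ (∀ ω, pos ω ∉ O → ψ ω = 0) ∧
    ¬ Sq fun x : G => ψ (x • N.o)

/-- Weak cuts. -/
def Wc (S : Finset G) (b : X) : Prop :=
  ∀ ξ η, Ac S b Set.univ ξ → Ac S b Set.univ η → ξ ≠ η → ∀ Z : Set X, Z.Finite →
    ∃ c, c ∉ Z ∧ Ac S b Set.univ c ∧ ∀ ε : ℝ, 0 < ε → ∃ F : Set G,
      (∀ ζ, ε < dist ζ c → F ∈ nf G b ζ ∨ Fᶜ ∈ nf G b ζ) ∧ (∃ᶠ x in nf G b ξ, x ∈ F) ∧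
        ∃ᶠ x in nf G b η, x ∉ F

/-- What is used of the compactification at the level of the group. -/
structure Bk (S : Finset G) (b : X) : Prop where
  cv : Cv G b
  gen : Gen S
  kon : Kon S
  tf : ∀ g : G, IsOfFinOrder g → g = 1
  fin_or : ∀ A : Set G, (∀ ξ, A ∈ nf G b ξ ∨ Aᶜ ∈ nf G b ξ) → A.Finite ∨ Aᶜ.Finite
  wc : Wc S b
  two : Two S b

/-- All that is used of the compactification. -/
structure Bd (N : Net G Ω) (b : X) (pos : Ω → X) : Prop where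
  bk : Bk N.S b
  cs : Cs N
  ps : Ps N b pos
  lc : Lc N b
  bump : Bump N b pos
  ex : ∃ τ ∈ N.T, Cone N τ

open Classical in
/-- The marker of a vertex: the translate of `m`, or the position of a cone. -/
noncomputable def lf (N : Net G Ω) (pos : Ω → X) (m : X) (ω : Ω) : X :=
  if h : ∃ x : G, x • N.o = ω then h.choose • m else pos ω

/-- Intervals between cut points and cone points are finite. -/
def Disc2 (N : Net G Ω) (b : X) (pos : Ω → X) : Prop :=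
  ∀ m ω, CutP G b m → Cone N ω → {c | Sepa G b c m (pos ω)}.Finite

/-- The labelling of the vertices by the points at which they are attached to a block. -/
structure Lab (N : Net G Ω) (b : X) (pos : Ω → X) (B : Set X) (lam : Ω → X) (H : Subgroup G) :
    Prop where
  eqv : ∀ h ∈ H, ∀ ω, lam (h • ω) = h • lam ω
  orb : ∃ Z : Set G, Z.Finite ∧ ∀ x : G, ∀ τ ∈ N.T, lam (x • τ) ≠ lam (x • N.o) →
    ∃ h ∈ H, h⁻¹ * x ∈ Z
  opn : ∀ x : G, ∃ O : Set X, IsOpen O ∧ (O ∩ KK G b).Nonempty ∧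
    ∀ ξ ∈ O ∩ KK G b, ∃ᶠ y in nf G b ξ, lam (y • N.o) = lam (x • N.o)
  out : ∀ ξ ∈ KK G b, ξ ∉ B → ∃ c, c ≠ ξ ∧ ∃ᶠ y in nf G b ξ, lam (y • N.o) = c
  non : ∃ x y : G, lam (x • N.o) ≠ lam (y • N.o)
  alt : ∀ ω, (∃ x : G, lam (x • N.o) = lam ω) ∨ lam ω = pos ω

/-- The boundaries of the fibres of the labelling accumulate only at the label. -/
def T10 (N : Net G Ω) (b : X) (lam : Ω → X) : Prop :=
  ∀ c ξ, ξ ≠ c → (Bdy N {ω | lam ω = c})ᶜ ∈ nf G b ξ

/-- The places where the label changes. -/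
def VA (N : Net G Ω) (lam : Ω → X) : Set G := {x | ∃ τ ∈ N.T, lam (x • τ) ≠ lam (x • N.o)}

/-- The component of `x₀`. -/
def VV (N : Net G Ω) (lam : Ω → X) (x₀ : G) : Set G := {y | Conn N.S (VA N lam) x₀ y}

/-- The cell of a vertex: paths may not change the label at `V`. -/
def cel (N : Net G Ω) (lam : Ω → X) (V : Set G) (ω : Ω) : Set Ω :=
  {ω' | Relation.ReflTransGen (fun u v => ∃ x : G, ∃ τ ∈ N.T,
    ((u = x • N.o ∧ v = x • τ) ∨ (u = x • τ ∧ v = x • N.o)) ∧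
      (x ∈ V → lam (x • τ) = lam (x • N.o))) ω ω'}

/-- The properties of the cells. -/
structure Cel (N : Net G Ω) (b : X) (lam : Ω → X) (H : Subgroup G) (V : Set G)
    (D : Ω → Set Ω) : Prop where
  inv : ∀ h ∈ H, ∀ x ∈ V, h * x ∈ V
  orb : ∃ Z : Set G, Z.Finite ∧ ∀ x ∈ V, ∃ h ∈ H, h⁻¹ * x ∈ Z
  conn : Cnn N.S V
  self : ∀ ω, ω ∈ D ω
  eqv : ∀ ω, ∀ ω' ∈ D ω, D ω' = D ω
  smul : ∀ h ∈ H, ∀ ω, D (h • ω) = h • D ω
  lsm : ∀ h ∈ H, ∀ ω, lam (h • ω) = h • lam ω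
  out : ∀ ω, Bdy N (D ω) ⊆ V
  bin : ∀ x ∈ V, x ∈ Bdy N (D (x • N.o))
  bcon : ∀ ω, Cnn N.S (Bdy N (D ω))
  lconst : ∀ x ∈ V, ∀ τ ∈ N.T, ∀ y ∈ V, ∀ τ' ∈ N.T, y • τ' ∈ D (x • τ) →
    lam (y • τ') = lam (x • τ)
  only : ∀ x ∈ V, ∀ τ ∈ N.T, ∀ ξ, ξ ≠ lam (x • τ) → (Bdy N (D (x • τ)))ᶜ ∈ nf G b ξ

/-- Two cells with infinite boundary and different labels. -/
def TwoC (N : Net G Ω) (lam : Ω → X) (V : Set G) (D : Ω → Set Ω) : Prop :=
  ∃ x ∈ V, ∃ τ ∈ N.T, ∃ y ∈ V, ∃ τ' ∈ N.T, lam (x • τ) ≠ lam (y • τ') ∧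
    (Bdy N (D (x • τ))).Infinite ∧ (Bdy N (D (y • τ'))).Infinite

/-- All but finitely many cells are small. -/
def Null (N : Net G Ω) (b : X) (D : Ω → Set Ω) : Prop :=
  ∀ ε : ℝ, 0 < ε → ∃ Z : Set G, Z.Finite ∧ ∀ ω, Disjoint (Bdy N (D ω)) Z →
    ∀ x ∈ Bdy N (D ω), ∀ y ∈ Bdy N (D ω), dist (y • b) (x • b) < ε

variable (G) in
/-- Finitely many translates of a pair of vertices lead from `A` out of `C`. -/
def AF (A C : Set Ω) : Prop := ∀ α β : Ω, {g : G | g • α ∈ A ∧ g • β ∉ C}.Finite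

variable (G) in
/-- Few triples of each type meet the three parts. -/
def Few (E E' : Set Ω) : Prop :=
  ∀ α β γ : Ω, {a : G | a • α ∈ E ∧ a • β ∈ E' ∧ a • β ∉ E ∧ a • γ ∉ E'}.encard ≤ 4

variable (G) in
/-- An invariant nested family with a distinguished member. -/
structure Fam3 (𝓕 : Set (Set Ω)) (Es : Set Ω) : Prop where
  mem : Es ∈ 𝓕
  smul : ∀ (g : G), ∀ E ∈ 𝓕, g • E ∈ 𝓕
  ne : ∀ E ∈ 𝓕, E.Nonempty
  proper : ∀ E ∈ 𝓕, E ≠ Set.univ
  chain : ∀ E ∈ 𝓕, ∀ E' ∈ 𝓕, (E ∩ E').Nonempty → E ∪ E' ≠ Set.univ → E ⊆ E' ∨ E' ⊆ E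
  af3 : ∀ A ∈ 𝓕, ∀ B ∈ 𝓕, ∀ C ∈ 𝓕, ∀ D ∈ 𝓕, A ⊂ B → B ⊂ C → C ⊂ D → AF G A D
  afs : ∀ A ∈ 𝓕, A ⊂ Es → AF G A Es

/-- There is no strictly increasing sequence with nested translates. -/
def OrdLim (N : Net G Ω) : Prop :=
  ∀ E : ℕ → Set Ω, StrictMono E →
    (∀ (g h : G) j k, (g • E j ∩ h • E k).Nonempty → g • E j ∪ h • E k ≠ Set.univ →
      g • E j ⊆ h • E k ∨ h • E k ⊆ g • E j) →
    (∀ (g h f : G) i j k, g • E i ⊂ h • E j → h • E j ⊂ f • E k → AF G (g • E i) (f • E k)) →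
    ∀ ψ₁ ψ₂ : Ω → ℝ, Dir N ψ₁ → I01 ψ₁ → (∀ ω ∉ E 0, ψ₁ ω = 0) →
      (¬ Sq fun x : G => ψ₁ (x • N.o)) → Dir N ψ₂ → I01 ψ₂ → (∀ k, ∀ ω ∈ E k, ψ₂ ω = 0) →
      (¬ Sq fun x : G => ψ₂ (x • N.o)) → False

end Defs

variable {G Ω : Type} [Group G] [MulAction G Ω] {X : Type} [MetricSpace X] [MulAction G X]
  {N : Net G Ω} {S : Finset G} {b c c' ξ η ζ m : X} {pos : Ω → X} {A F F' : Set G} {L : Set Ω}
  {ω : Ω}

/-! ### Positions and markers -/

theorem Ps.orb (h : Ps N b pos) (x : G) : pos (x • N.o) = x • b := by rw [h.eqv, h.base]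

theorem Ps.tendsto (h : Ps N b pos) (ω : Ω) :
    Tendsto (fun x : G => x • pos ω) (nf G b ξ) (𝓝 ξ) := by
  refine nf_tendsto.congr_dist (Metric.tendsto_nhds.2 fun ε hε => ?_)
  filter_upwards [compl_mem_nf (h.null ω ε hε)] with x hx
  rw [Real.dist_0_eq_abs, abs_of_nonneg dist_nonneg, dist_comm]
  exact not_le.1 hx

omit [MetricSpace X] in
theorem lf_orb (h : Mod N) (x : G) : lf N pos m (x • N.o) = x • m := by
  have e : ∃ y : G, y • N.o = x • N.o := ⟨x, rfl⟩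
  rw [lf, dif_pos e, h.inj e.choose_spec]

omit [MetricSpace X] in
theorem lf_cone (h : Cone N ω) : lf N pos m ω = pos ω := dif_neg (not_exists.2 h)

theorem lf_smul (h : Mod N) (hp : Ps N b pos) (g : G) (ω : Ω) :
    lf N pos m (g • ω) = g • lf N pos m ω := by
  rcases orb_or_cone N ω with ⟨x, rfl⟩ | k
  · rw [← mul_smul, lf_orb h, lf_orb h, mul_smul]
  · rw [lf_cone k, lf_cone (k.smul g), hp.eqv]

/-- The neighbours of a cone accumulate only at its position. -/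
theorem Ps.nb_only (h : Ps N b pos) (k : Cone N ω) (e : ξ ≠ pos ω) :
    (Bdy N {ω})ᶜ ∈ nf G b ξ := by
  filter_upwards [(eventually_all_finset N.T).2 fun τ _ => (h.tendsto τ).eventually_ne e] with x hx
  intro c
  obtain ⟨τ, hτ, rfl⟩ := (mem_nb k).1 c
  exact hx τ hτ (h.eqv x τ).symm

section Compact

variable [CompactSpace X]

theorem Kur.unif {φ : Ω → Ω → ℝ} {co : Ω → X → ℝ} (h : Kur φ pos co) {ε : ℝ} (hε : 0 < ε) :
    ∃ (U : Finset Ω) (d : ℝ), 0 < d ∧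
      ∀ z z', (∀ u ∈ U, |co u z - co u z'| < d) → dist z z' < ε := by
  classical
  have hc : IsCompact {p : X × X | ε ≤ dist p.1 p.2} :=
    (isClosed_le continuous_const continuous_dist).isCompact
  have h1 : ∀ p : X × X, ∃ (u : Ω) (d : ℝ), 0 < d ∧
      (ε ≤ dist p.1 p.2 → d < |co u p.1 - co u p.2|) := fun p => by
    by_cases e : p.1 = p.2
    · obtain ⟨u⟩ := h.dense.nonempty_iff.2 ⟨p.1⟩
      exact ⟨u, 1, one_pos, fun k => absurd (dist_pos.1 (hε.trans_le k)) (not_not.2 e)⟩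
    · obtain ⟨u, hu⟩ := not_forall.1 fun k => e (h.inj _ _ k)
      have := abs_pos.2 (sub_ne_zero.2 hu)
      exact ⟨u, _, half_pos this, fun _ => half_lt_self this⟩
  choose u d h2 h3 using h1
  obtain ⟨t, -, ht⟩ := hc.elim_nhds_subcover
    (fun p => {q | d p < |co (u p) q.1 - co (u p) q.2|}) fun p hp =>
      (isOpen_lt continuous_const ((((h.cont _).comp continuous_fst).sub
        ((h.cont _).comp continuous_snd)).abs)).mem_nhds (h3 p hp)
  obtain ⟨δ, e1, e2⟩ := (((eventually_all_finset t).2 fun p _ =>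
    (eventually_lt_nhds (h2 p)).filter_mono (nhdsWithin_le_nhds (s := Set.Ioi 0))).and
      self_mem_nhdsWithin).exists
  refine ⟨t.image u, δ, e2, fun z z' k => not_le.1 fun k' => ?_⟩
  obtain ⟨p, hp, k2⟩ := Set.mem_iUnion₂.1 (ht (show (z, z') ∈ _ from k'))
  exact ((e1 p hp).trans k2).not_gt (k _ (Finset.mem_image_of_mem _ hp))

theorem Kur.cauchy {φ : Ω → Ω → ℝ} {co : Ω → X → ℝ} (h : Kur φ pos co) {z : ℕ → Ω}
    (e : ∀ u, CauchySeq fun n => φ u (z n)) : ∃ ξ, Tendsto (fun n => pos (z n)) atTop (𝓝 ξ) := by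
  refine cauchySeq_tendsto_of_complete (Metric.cauchySeq_iff.2 fun ε hε => ?_)
  obtain ⟨U, d, h1, h2⟩ := h.unif hε
  choose M hM using fun u => Metric.cauchySeq_iff.1 (e u) d h1
  refine ⟨U.sup M, fun m hm n hn => h2 _ _ fun u hu => ?_⟩
  rw [h.orb, h.orb]
  exact hM u m ((Finset.le_sup hu).trans hm) n ((Finset.le_sup hu).trans hn)

/-- A ray in a set that accumulates only at `ξ` converges to `ξ`. -/
theorem ray_lim {z : ℕ → G} (h : ∀ η, η ≠ ξ → Aᶜ ∈ nf G b η) (hz : IsRay S z)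
    (e : ∀ n, z n ∈ A) : Tendsto (fun n => z n • b) atTop (𝓝 ξ) :=
  Metric.tendsto_nhds.2 fun ε hε =>
    (hz.notMem (only_iff.1 h ε hε)).mono fun n c => not_le.1 fun c' => c ⟨e n, c'⟩

/-- An infinite connected set that accumulates only at `ξ` contains a ray to `ξ`. -/
theorem ac_of_only (hk : Kon S) (h1 : Cnn S A) (h2 : A.Infinite)
    (h : ∀ η, η ≠ ξ → Aᶜ ∈ nf G b η) : Ac S b A ξ := by
  obtain ⟨z, e1, e2⟩ := hk _ _ h1 subset_rfl h2
    (Set.finite_empty.subset fun _ ⟨_, _, _, k1, k2⟩ => k2 k1)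
  exact ⟨z, e1, e2, ray_lim h e1 e2⟩

theorem Ps.cone_ac (h : Ps N b pos) (cs : Cs N) (hk : Kon N.S) (k : Cone N ω) :
    Ac N.S b (Bdy N {ω}) (pos ω) :=
  ac_of_only hk (cs.nb_cnn k) (cs.md.nb_infinite k) fun _ e => h.nb_only k e

theorem Ps.cone_freq (h : Ps N b pos) (md : Mod N) (k : Cone N ω) :
    ∃ᶠ x in nf G b (pos ω), x ∈ Bdy N {ω} := by
  obtain ⟨ξ, e⟩ := exists_freq b (md.nb_infinite k)
  rwa [show ξ = pos ω from by_contra fun c => e (h.nb_only k c)] at e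

theorem Ps.cone_KK (h : Ps N b pos) (md : Mod N) (k : Cone N ω) : pos ω ∈ KK G b :=
  mem_KK_of_freq (h.cone_freq md k)

/-- Away from the boundary a cone lies on the side of its position. -/
theorem Ps.cone_mem (h : Ps N b pos) (md : Mod N) (k : Cone N ω)
    (e : (Bdy N L)ᶜ ∈ nf G b (pos ω)) (e' : tr N L ∈ nf G b (pos ω)) : ω ∈ L := by
  obtain ⟨x, a1, a2, a3⟩ := ((h.cone_freq md k).and_eventually (inter_mem e e')).exists
  obtain ⟨τ, hτ, rfl⟩ := (mem_nb k).1 a1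
  exact (side_of_notMem a2 hτ).1 a3

end Compact

variable [ContinuousConstSMul G X]

theorem lf_KK [CompactSpace X] (h : Mod N) (hp : Ps N b pos) (hm : m ∈ KK G b) (ω : Ω) :
    lf N pos m ω ∈ KK G b := by
  rcases orb_or_cone N ω with ⟨x, rfl⟩ | k
  · rw [lf_orb h]
    exact (smul_mem_KK x).2 hm
  · rw [lf_cone k]
    exact hp.cone_KK h k

/-- The extension of a subset of the group by cones. -/
def ext (N : Net G Ω) (b : X) (pos : Ω → X) (A : Set G) : Set Ω :=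
  {ω | (∃ x ∈ A, x • N.o = ω) ∨ (Cone N ω ∧ A ∈ nf G b (pos ω))}

omit [ContinuousConstSMul G X] in
theorem tr_ext (h : Mod N) : tr N (ext N b pos A) = A :=
  Set.ext fun x => ⟨fun k => k.elim (fun ⟨_, e1, e2⟩ => h.inj e2 ▸ e1) fun e => absurd rfl (e.1 x),
    fun k => Or.inl ⟨x, k, rfl⟩⟩

theorem bdy_ext [CompactSpace X] (h : Mod N) (hp : Ps N b pos) (cv : Cv G b)
    (e : A ∈ nf G b ξ ∨ Aᶜ ∈ nf G b ξ) : (Bdy N (ext N b pos A))ᶜ ∈ nf G b ξ := by
  have m1 : ∀ x : G, x • N.o ∈ ext N b pos A ↔ x ∈ A := fun x => by rw [← mem_tr, tr_ext h]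
  have m2 : ∀ ω, Cone N ω → (ω ∈ ext N b pos A ↔ A ∈ nf G b (pos ω)) := fun ω k =>
    ⟨fun a => a.elim (fun ⟨x, _, e⟩ => absurd e (k x)) And.right, fun a => Or.inr ⟨k, a⟩⟩
  have key : ∀ τ, ∀ᶠ x in nf G b ξ, (x • N.o ∈ ext N b pos A ↔ x • τ ∈ ext N b pos A) := by
    intro τ
    rcases orb_or_cone N τ with ⟨w, rfl⟩ | k
    · rcases e with e | e <;> filter_upwards [e, cv.nf_right w e] with x a1 a2 <;>
        rw [← mul_smul, m1, m1]
      exacts [iff_of_true a1 a2, iff_of_false a1 a2]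
    · rcases e with e | e <;>
        filter_upwards [e, (hp.tendsto τ).eventually (nf_open e)] with x a1 a2 <;>
        rw [m1, m2 _ (k.smul x), hp.eqv]
      exacts [iff_of_true a1 a2, iff_of_false a1 fun a =>
        not_both ((smul_mem_KK x).2 (hp.cone_KK h k)) a a2]
  filter_upwards [(eventually_all_finset N.T).2 fun τ _ => key τ] with x hx
  rintro ⟨τ, hτ, k⟩
  exact k (hx τ hτ)

variable [CompactSpace X]

theorem fin_or_of (cs : Cs N) (hp : Ps N b pos) (cv : Cv G b)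
    (e : ∀ ξ, A ∈ nf G b ξ ∨ Aᶜ ∈ nf G b ξ) : A.Finite ∨ Aᶜ.Finite := by
  have := cs.one _ ((finite_iff b).2 fun ξ => bdy_ext cs.md hp cv (e ξ))
  rwa [tr_ext cs.md] at this

/-! ### Cuts -/

omit [ContinuousConstSMul G X] [CompactSpace X] in
theorem Bd.sp (h : Bd N b pos) (e : ∀ ξ, ξ ≠ c → (Bdy N L)ᶜ ∈ nf G b ξ) : Sp b c (tr N L) :=
  fun ξ k => h.lc ξ L (e ξ k)

omit [ContinuousConstSMul G X] [CompactSpace X] in
theorem Bk.sepa_mem (h : Bk S b) (e : Sepa G b c ξ η) : c ∈ KK G b := by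
  obtain ⟨h1, h2, -, -, F, h5, h6, h7⟩ := e
  by_contra k
  refine (h.fin_or F fun ζ => ?_).elim (infinite_of_mem h1 h6) (infinite_of_mem h2 h7)
  by_cases e : ζ = c
  · rw [e, not_neBot.1 k]
    exact Or.inl mem_bot
  · exact h5 ζ e

omit [ContinuousConstSMul G X] [CompactSpace X] in
theorem Bk.nest (h : Bk S b) (h1 : Sp b c F) (h2 : Sp b c' F') (h3 : c' ∈ KK G b)
    (h4 : Fᶜ ∈ nf G b c') (h5 : F' ∈ nf G b c) : (F \ F').Finite := by
  refine (h.fin_or _ fun ξ => ?_).resolve_right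
    (infinite_of_mem h3 (mem_of_superset h4 fun _ a b => a b.1))
  have k1 : F ∈ nf G b ξ ∨ (F \ F')ᶜ ∈ nf G b ξ := by
    by_cases e : ξ = c
    · exact Or.inr (mem_of_superset (e ▸ h5) fun _ a b => b.2 a)
    · exact (h1 ξ e).imp_right fun k =>
        mem_of_superset k (Set.compl_subset_compl.2 Set.sdiff_subset)
  have k2 : F'ᶜ ∈ nf G b ξ ∨ (F \ F')ᶜ ∈ nf G b ξ := by
    by_cases e : ξ = c'
    · exact Or.inr (e ▸ mem_of_superset h4 (Set.compl_subset_compl.2 Set.sdiff_subset))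
    · exact (h2 ξ e).symm.imp_right fun k => mem_of_superset k fun _ a b => b.2 a
  exact k1.elim (fun a => k2.imp_left (inter_mem a)) Or.inr

omit [ContinuousConstSMul G X] [CompactSpace X] in
/-- The side of a cut at `c` away from `c'` is not separated from `c` by `c'`. -/
theorem Bk.k1 (h : Bk S b) (h1 : Sp b c F) (h3 : c' ∈ KK G b) (h4 : Fᶜ ∈ nf G b c')
    (h5 : ξ ∈ KK G b) (h6 : F ∈ nf G b ξ) : ξ ∈ Cls G b c' c := by
  refine ⟨h5, fun e => not_both h3 (e ▸ h6) h4, ?_⟩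
  rintro ⟨-, -, -, -, F', a1, a2, a3⟩
  exact infinite_of_mem h5 (inter_mem h6 a3) (h.nest h1 a1 h3 h4 a2)

omit [ContinuousConstSMul G X] [CompactSpace X] in
theorem Bk.asymm (h : Bk S b) (h1 : Sepa G b c c' ξ) : ¬ Sepa G b c' c ξ := by
  obtain ⟨a1, a2, -, -, F, a5, a6, a7⟩ := h1
  exact (h.k1 a5.compl a1 (by rwa [compl_compl]) a2 a7).2.2

omit [ContinuousConstSMul G X] [CompactSpace X] in
theorem Bk.sepa_trans (h : Bk S b) (h1 : Sepa G b c ξ η) (h2 : Sepa G b c' ξ c) :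
    Sepa G b c' ξ η := by
  have e : η ≠ c' := fun e => h.asymm h1.symm (e ▸ h2.symm)
  refine (h2.cases h1.2.1 e).resolve_right fun k => ?_
  obtain ⟨a1, a2, -, -, F, a5, a6, a7⟩ := h1
  rcases a5 c' h2.2.2.2.1.symm with k' | k'
  · exact (h.k1 a5.compl (h.sepa_mem h2) (by rwa [compl_compl]) a2 a7).2.2 k.symm
  · exact (h.k1 a5 (h.sepa_mem h2) k' a1 a6).2.2 h2.symm

omit [ContinuousConstSMul G X] [CompactSpace X] in
/-- Two points that separate the same pair are comparable. -/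
theorem Bk.total (h : Bk S b) (h1 : Sepa G b c ξ η) (h2 : Sepa G b c' ξ η) (e : c ≠ c') :
    Sepa G b c ξ c' ∨ Sepa G b c' ξ c := by
  refine or_iff_not_imp_left.2 fun e1 => ?_
  have e2 := (h1.cases (h.sepa_mem h2) e.symm).resolve_left e1
  exact (h2.cases (h.sepa_mem h1) e).resolve_right (h.asymm e2)

end Pool.Agent.MP_4f4d9f_gt.Rk

end

section

/-! Interface, part S: the statements of part K and the assembly. -/

namespace Pool.Agent.MP_4f4d9f_gt.Rk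

open Filter Topology Hy Ku

/-! ### Statements -/

/-- Job `Kur`. -/
def KurStmt : Prop :=
  ∀ (G Ω : Type) [Group G] [MulAction G Ω] (N : Net G Ω) (φ : Ω → Ω → ℝ), Mod N → DF N →
    Pot N φ → ∃ (X : Type) (_ : MetricSpace X) (_ : CompactSpace X) (_ : MulAction G X)
      (_ : ContinuousConstSMul G X) (b : X) (pos : Ω → X) (co : Ω → X → ℝ),
      Kur φ pos co ∧ Ps N b pos

/-- Job `Cv`. -/
def CvStmt : Prop :=
  ∀ (G Ω : Type) [Group G] [MulAction G Ω] (X : Type) [MetricSpace X] [CompactSpace X]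
    [MulAction G X] [ContinuousConstSMul G X] (N : Net G Ω) (b : X) (pos : Ω → X)
    (φ : Ω → Ω → ℝ) (co : Ω → X → ℝ),
    Mod N → DF N → Osc N → Pot N φ → Kur φ pos co → Ps N b pos → Cv G b

/-- Job `Lc`. -/
def LcStmt : Prop :=
  ∀ (G Ω : Type) [Group G] [MulAction G Ω] (X : Type) [MetricSpace X] [CompactSpace X]
    [MulAction G X] [ContinuousConstSMul G X] (N : Net G Ω) (b : X) (pos : Ω → X)
    (φ : Ω → Ω → ℝ) (co : Ω → X → ℝ),
    Mod N → Pot N φ → Cont N φ → Kur φ pos co → Ps N b pos → Lc N b ∧ Bump N b pos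

/-- Job `Wc`. -/
def WcStmt : Prop :=
  ∀ (G Ω : Type) [Group G] [MulAction G Ω] (X : Type) [MetricSpace X] [CompactSpace X]
    [MulAction G X] [ContinuousConstSMul G X] (N : Net G Ω) (b : X) (pos : Ω → X)
    (φ : Ω → Ω → ℝ) (co : Ω → X → ℝ),
    Mod N → Nst N → Pot N φ → Kur φ pos co → Ps N b pos → Lc N b → Wc N.S b

/-- Job `Dyn`. -/
def DynStmt : Prop :=
  ∀ (G : Type) [Group G] (X : Type) [MetricSpace X] [CompactSpace X] [MulAction G X]
    [ContinuousConstSMul G X] (S : Finset G) (b : X),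
    Bk S b → VC G b → Dyn S b

/-- Job `LemR`. -/
def LemRStmt : Prop :=
  ∀ (G : Type) [Group G] (X : Type) [MetricSpace X] [CompactSpace X] [MulAction G X]
    [ContinuousConstSMul G X] (S : Finset G) (b : X),
    Bk S b → Zal G b → LemR S b

/-- Job `Ord3`. -/
def Ord3Stmt : Prop :=
  ∀ (G Ω : Type) [Group G] [MulAction G Ω], (∀ g : G, IsOfFinOrder g → g = 1) →
    ∀ (𝓕 : Set (Set Ω)) (Es : Set Ω), Fam3 G 𝓕 Es → ∀ y ∈ 𝓕, y ⊂ Es →
      ∃ E ∈ 𝓕, y ⊆ E ∧ E ⊂ Es ∧ Few G E Es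

/-- Job `LimQ`. -/
def LimQStmt : Prop :=
  ∀ (G Ω : Type) [Group G] [MulAction G Ω] (N : Net G Ω), Mod N → RelQ N → Unif N →
    (∃ τ ∈ N.T, Cone N τ) → ∀ (E' : Set Ω) (E : ℕ → Set Ω) (ψ₁ ψ₂ : Ω → ℝ), (∀ k, E k ⊆ E') →
      (∀ ω ∈ E', ∀ᶠ k in atTop, ω ∈ E k) → (∀ k, AF G (E k) E') → (∀ k, Few G (E k) E') →
      Dir N ψ₁ → I01 ψ₁ → (∀ k, ∀ ω ∉ E k, ψ₁ ω = 0) → (¬ Sq fun x : G => ψ₁ (x • N.o)) →
      Dir N ψ₂ → I01 ψ₂ → (∀ ω ∈ E', ψ₂ ω = 0) → (¬ Sq fun x : G => ψ₂ (x • N.o)) → False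

/-- Job `OrdLim`. -/
def OrdLimStmt : Prop :=
  ∀ (G Ω : Type) [Group G] [MulAction G Ω] (N : Net G Ω), (∀ g : G, IsOfFinOrder g → g = 1) →
    Mod N → RelQ N → Unif N → (∃ τ ∈ N.T, Cone N τ) → OrdLim N

/-- Job `Disc`. -/
def DiscStmt : Prop :=
  ∀ (G Ω : Type) [Group G] [MulAction G Ω] (X : Type) [MetricSpace X] [CompactSpace X]
    [MulAction G X] [ContinuousConstSMul G X] (N : Net G Ω) (b : X) (pos : Ω → X),
    Bd N b pos → Dyn N.S b → OrdLim N → Disc G b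

/-- Job `Disc2`. -/
def Disc2Stmt : Prop :=
  ∀ (G Ω : Type) [Group G] [MulAction G Ω] (X : Type) [MetricSpace X] [CompactSpace X]
    [MulAction G X] [ContinuousConstSMul G X] (N : Net G Ω) (b : X) (pos : Ω → X),
    Bd N b pos → Disc G b → Disc2 N b pos

/-- Job `Blk`. -/
def BlkStmt : Prop :=
  ∀ (G : Type) [Group G] (X : Type) [MetricSpace X] [CompactSpace X] [MulAction G X]
    [ContinuousConstSMul G X] (S : Finset G) (b : X),
    Bk S b → Dyn S b → Disc G b → (∃ c, CutP G b c) → ∃ B, Blk G b B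

/-- Job `Lab`. -/
def LabStmt : Prop :=
  ∀ (G Ω : Type) [Group G] [MulAction G Ω] (X : Type) [MetricSpace X] [CompactSpace X]
    [MulAction G X] [ContinuousConstSMul G X] (N : Net G Ω) (b : X) (pos : Ω → X) (B : Set X),
    Bd N b pos → Dyn N.S b → Disc G b → Disc2 N b pos → Blk G b B →
      ∃ (lam : Ω → X) (H : Subgroup G), Lab N b pos B lam H

/-- Job `T10`. -/
def T10Stmt : Prop :=
  ∀ (G Ω : Type) [Group G] [MulAction G Ω] (X : Type) [MetricSpace X] [CompactSpace X]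
    [MulAction G X] [ContinuousConstSMul G X] (N : Net G Ω) (b : X) (pos : Ω → X) (B : Set X)
    (lam : Ω → X) (H : Subgroup G),
    Bd N b pos → Dyn N.S b → VC G b → Lab N b pos B lam H → T10 N b lam

/-- Job `CelA`. -/
def CelAStmt : Prop :=
  ∀ (G Ω : Type) [Group G] [MulAction G Ω] (X : Type) [MetricSpace X] [CompactSpace X]
    [MulAction G X] [ContinuousConstSMul G X] (N : Net G Ω) (b : X) (pos : Ω → X) (B : Set X)
    (lam : Ω → X) (H : Subgroup G),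
    Bd N b pos → Lab N b pos B lam H → T10 N b lam →
      (∀ x₀, ∃ H', Cel N b lam H' (VV N lam x₀) (cel N lam (VV N lam x₀))) ∧
        ∀ ξ, (∃ᶠ x in nf G b ξ, x ∈ VA N lam) → ξ ∈ B

/-- Job `CelB`. -/
def CelBStmt : Prop :=
  ∀ (G Ω : Type) [Group G] [MulAction G Ω] (X : Type) [MetricSpace X] [CompactSpace X]
    [MulAction G X] [ContinuousConstSMul G X] (N : Net G Ω) (b : X) (pos : Ω → X) (B : Set X)
    (lam : Ω → X) (H : Subgroup G),
    Bd N b pos → Dyn N.S b → Lab N b pos B lam H → T10 N b lam →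
      (∀ x₀, ∃ H', Cel N b lam H' (VV N lam x₀) (cel N lam (VV N lam x₀))) →
      ∃ x₀, TwoC N lam (VV N lam x₀) (cel N lam (VV N lam x₀))

/-- Job `Cel0`. -/
def Cel0Stmt : Prop :=
  ∀ (G Ω : Type) [Group G] [MulAction G Ω] (X : Type) [MetricSpace X] [CompactSpace X]
    [MulAction G X] [ContinuousConstSMul G X] (N : Net G Ω) (b : X) (pos : Ω → X),
    Bd N b pos → Cel N b pos ⊤ Set.univ fun ω => {ω}

/-- Job `Null`. -/
def NullStmt : Prop :=
  ∀ (G Ω : Type) [Group G] [MulAction G Ω] (X : Type) [MetricSpace X] [CompactSpace X]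
    [MulAction G X] [ContinuousConstSMul G X] (N : Net G Ω) (b : X) (pos : Ω → X)
    (lam : Ω → X) (H : Subgroup G) (V : Set G) (D : Ω → Set Ω),
    Bd N b pos → Prb G b → Cel N b lam H V D → Null N b D

/-- Job `Three`. -/
def ThreeStmt : Prop :=
  ∀ (G Ω : Type) [Group G] [MulAction G Ω] (X : Type) [MetricSpace X] [CompactSpace X]
    [MulAction G X] [ContinuousConstSMul G X] (N : Net G Ω) (b : X) (pos : Ω → X)
    (lam : Ω → X) (H : Subgroup G) (V : Set G) (D : Ω → Set Ω),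
    Bd N b pos → Cel N b lam H V D → TwoC N lam V D →
      ∃ a : Fin 3 → X, Function.Injective a ∧ ∀ i, Ac N.S b V (a i)

/-- Job `Last`. -/
def LastStmt : Prop :=
  ∀ (G Ω : Type) [Group G] [MulAction G Ω] (X : Type) [MetricSpace X] [CompactSpace X]
    [MulAction G X] [ContinuousConstSMul G X] (N : Net G Ω) (b : X) (pos : Ω → X)
    (lam : Ω → X) (H : Subgroup G) (V : Set G) (D : Ω → Set Ω),
    Bd N b pos → LemR N.S b → Cel N b lam H V D → Null N b D →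
      (∃ a : Fin 3 → X, Function.Injective a ∧ ∀ i, Ac N.S b V (a i)) →
      ∃ k ξ η, Ac N.S b V ξ ∧ Ac N.S b V η ∧ Sepa G b k ξ η

/-- The relative Liouville theorem. -/
theorem m_of (h1 : CsStmt) (h2 : KonStmt) (h3 : NstStmt) (h4 : PotStmt) (h5 : DFStmt)
    (h6 : OscStmt) (h7 : DecStmt) (h8 : TightStmt) (h9 : ContStmt) (h10 : UnifStmt)
    (k1 : KurStmt) (k2 : CvStmt) (k3 : LcStmt) (k5 : WcStmt) (k6 : ZalStmt) (k7 : VCStmt)
    (k8 : PrbStmt) (k9 : DynStmt) (l1 : LemRStmt) (l2 : OrdLimStmt) (l3 : DiscStmt)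
    (l3' : Disc2Stmt) (l4 : BlkStmt) (l5 : LabStmt) (l6 : T10Stmt) (l7 : CelAStmt)
    (l8 : CelBStmt) (l9 : NullStmt) (m0 : Cel0Stmt) (m1 : ThreeStmt) (m2 : LastStmt) :
    MStmt := by
  intro G Ω _ _ N hG md coh u hu ω ω' hω hω'
  by_contra hne
  have cs := h1 G Ω N md coh
  have df := h5 G Ω N md
  have osc := h6 G Ω N cs df
  have kon := h2 G N.S md.gen
  obtain ⟨φ, pot⟩ := h4 G Ω N md
  obtain ⟨X, _, _, _, _, b, pos, co, kur, ps⟩ := k1 G Ω N φ md df pot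
  have cv := k2 G Ω X N b pos φ co md df osc pot kur ps
  obtain ⟨lc, bump⟩ := k3 G Ω X N b pos φ co md pot
    (h9 G Ω N φ md pot (h8 G Ω N φ df (h7 G Ω N md df osc) pot)) kur ps
  have ex : ∃ τ ∈ N.T, Cone N τ := by
    obtain ⟨g, τ, hτ, rfl⟩ := md.cov ω
    exact ⟨τ, hτ, (cone_smul g).1 hω⟩
  have bk : Bk N.S b := ⟨cv, md.gen, kon, hG, fun _ => fin_or_of cs ps cv,
    k5 G Ω X N b pos φ co md (h3 G Ω N md coh) pot kur ps lc, pos ω, pos ω',
    (ps.cone_ac cs kon hω).mono (Set.subset_univ _), (ps.cone_ac cs kon hω').mono (Set.subset_univ _),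
    fun e => hne (pot.sep hu fun v => by rw [← kur.orb, ← kur.orb, e])⟩
  have bd : Bd N b pos := ⟨bk, cs, ps, lc, bump, ex⟩
  have vc := k7 G X b cv
  have prb := k8 G X b cv
  have dyn := k9 G X N.S b bk vc
  have lr := l1 G X N.S b bk (k6 G X b cv)
  have disc := l3 G Ω X N b pos bd dyn (l2 G Ω N hG md coh (h10 G Ω N md coh) ex)
  have ce0 := m0 G Ω X N b pos bd
  obtain ⟨k₀, ξ₀, η₀, -, -, e0⟩ := m2 G Ω X N b pos pos ⊤ _ _ bd lr ce0
    (l9 G Ω X N b pos pos ⊤ _ _ bd prb ce0) dyn.three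
  obtain ⟨B, blk⟩ := l4 G X N.S b bk dyn disc ⟨k₀, ξ₀, η₀, e0⟩
  obtain ⟨lam, H, lab⟩ := l5 G Ω X N b pos B bd dyn disc (l3' G Ω X N b pos bd disc) blk
  have t10 := l6 G Ω X N b pos B lam H bd dyn vc lab
  obtain ⟨ca, lim⟩ := l7 G Ω X N b pos B lam H bd lab t10
  obtain ⟨x₀, two⟩ := l8 G Ω X N b pos B lam H bd dyn lab t10 ca
  obtain ⟨H', ce⟩ := ca x₀
  obtain ⟨k, ξ, η, e1, e2, e3⟩ := m2 G Ω X N b pos lam H' _ _ bd lr ce
    (l9 G Ω X N b pos lam H' _ _ bd prb ce) (m1 G Ω X N b pos lam H' _ _ bd ce two)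
  exact blk.nosep k ξ (lim ξ (e1.freq.mono fun _ => Conn.right)) η
    (lim η (e2.freq.mono fun _ => Conn.right)) e3

end Pool.Agent.MP_4f4d9f_gt.Rk

end

section

/-! The compactification of the model by potentials. -/

namespace Pool.Agent.MP_4f4d9f_gt.Rk

open Filter Topology Hy Ku

namespace KurL

variable {G Ω : Type} [Group G] [MulAction G Ω] {N : Net G Ω} {φ : Ω → Ω → ℝ}

/-- The embedding of the vertices. -/
def io (φ : Ω → Ω → ℝ) (x : Ω) : Ω → ℝ := fun u => φ u x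

/-- The affine action. -/
def act (N : Net G Ω) (φ : Ω → Ω → ℝ) (g : G) (ξ : Ω → ℝ) : Ω → ℝ :=
  fun u => ξ (g⁻¹ • u) - ξ (g⁻¹ • N.o) + φ u (g • N.o)

theorem act_cont (g : G) : Continuous (act N φ g) :=
  continuous_pi fun u =>
    ((continuous_apply (g⁻¹ • u)).sub (continuous_apply (g⁻¹ • N.o))).add continuous_const

theorem act_io (hS : Mod N) (h : Pot N φ) (g : G) (x : Ω) : act N φ g (io φ x) = io φ (g • x) :=
  funext fun u => (h.transl hS u g x).symm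

theorem maps (hS : Mod N) (h : Pot N φ) (g : G) :
    Set.MapsTo (act N φ g) (closure (Set.range (io φ))) (closure (Set.range (io φ))) := by
  refine Set.MapsTo.closure ?_ (act_cont g)
  rintro _ ⟨x, rfl⟩
  exact ⟨_, (act_io hS h g x).symm⟩

theorem act_one (hS : Mod N) (h : Pot N φ) :
    Set.EqOn (act N φ 1) id (closure (Set.range (io φ))) := by
  refine Set.EqOn.closure ?_ (act_cont 1) continuous_id
  rintro _ ⟨x, rfl⟩
  rw [act_io hS h, one_smul, id]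

theorem act_mul (hS : Mod N) (h : Pot N φ) (g g' : G) :
    Set.EqOn (act N φ (g * g')) (act N φ g ∘ act N φ g') (closure (Set.range (io φ))) := by
  refine Set.EqOn.closure ?_ (act_cont _) ((act_cont g).comp (act_cont g'))
  rintro _ ⟨x, rfl⟩
  rw [Function.comp_apply, act_io hS h, act_io hS h, act_io hS h, mul_smul]

theorem cpt (hD : DF N) (h : Pot N φ) : IsCompact (closure (Set.range (io φ))) := by
  have k := isCompact_univ_pi fun u : Ω => isCompact_Icc (a := (0 : ℝ)) (b := φ u u)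
  refine k.of_isClosed_subset isClosed_closure (closure_minimal ?_ k.isClosed)
  rintro _ ⟨x, rfl⟩ u -
  exact h.range hD u x

theorem ps {X : Type} [MetricSpace X] [CompactSpace X] [MulAction G X] {pos : Ω → X}
    {co : Ω → X → ℝ} (hS : Mod N) (h : Pot N φ) (hK : Kur φ pos co)
    (e : ∀ (g : G) (ω : Ω), pos (g • ω) = g • pos ω) : Ps N (pos N.o) pos := by
  refine ⟨rfl, e, fun ω ε hε => ?_⟩
  obtain ⟨U, d, h1, h2⟩ := hK.unif hε
  refine (U.finite_toSet.biUnion fun u _ => (h.dir u).finite hS ω h1).subset fun g hg => ?_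
  by_contra k
  refine (h2 _ _ fun u hu => ?_).not_ge hg
  rw [← e, ← e, hK.orb, hK.orb]
  exact not_le.1 fun k' => k (Set.mem_biUnion hu k')

end KurL

open KurL in
theorem kur_stmt : KurStmt := by
  intro G Ω _ _ N φ hS hD h
  have := hS.countable
  have hc : CompactSpace (closure (Set.range (io φ))) := isCompact_iff_compactSpace.1 (cpt hD h)
  let A : MulAction G (closure (Set.range (io φ))) :=
    { smul := fun g ξ => ⟨act N φ g ξ.1, maps hS h g ξ.2⟩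
      one_smul := fun ξ => Subtype.ext (act_one hS h ξ.2)
      mul_smul := fun g g' ξ => Subtype.ext (act_mul hS h g g' ξ.2) }
  let M : MetricSpace (closure (Set.range (io φ))) := TopologicalSpace.metrizableSpaceMetric _
  let pos : Ω → closure (Set.range (io φ)) := fun ω => ⟨io φ ω, subset_closure ⟨ω, rfl⟩⟩
  have hK : Kur φ pos fun u z => z.1 u := by
    refine ⟨fun u => (continuous_apply u).comp continuous_subtype_val,
      fun z z' k => Subtype.ext (funext k), fun u x => rfl, fun z => ?_⟩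
    refine closure_subtype.2 (closure_mono ?_ z.2)
    rintro _ ⟨x, rfl⟩
    exact ⟨_, ⟨x, rfl⟩, rfl⟩
  exact ⟨closure (Set.range (io φ)), M, hc, A,
    ⟨fun g => ((act_cont g).comp continuous_subtype_val).subtype_mk _⟩, pos N.o, pos, _, hK,
    ps hS h hK fun g ω => Subtype.ext (act_io hS h g ω).symm⟩

end Pool.Agent.MP_4f4d9f_gt.Rk

end

section

/-! Local connectivity and bump functions in the model with cone vertices. -/

namespace Pool.Agent.MP_4f4d9f_gt.Rk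

open Filter Topology Hy Ku

namespace LcL

variable {G Ω : Type} [Group G] [MulAction G Ω] {X : Type} [MetricSpace X] [CompactSpace X]
  [MulAction G X] {N : Net G Ω} {b ξ : X} {pos : Ω → X} {φ : Ω → Ω → ℝ} {co : Ω → X → ℝ}

omit [CompactSpace X] in
theorem lim (hK : Kur φ pos co) (hp : Ps N b pos) (u : Ω) :
    Tendsto (fun x : G => |φ u (x • N.o) - co u ξ|) (nf G b ξ) (𝓝 0) := by
  have h1 : Tendsto (fun x : G => φ u (x • N.o)) (nf G b ξ) (𝓝 (co u ξ)) :=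
    (((hK.cont u).tendsto ξ).comp nf_tendsto).congr fun x => by
      rw [← hK.orb, hp.orb]
      rfl
  simpa using (h1.sub_const (co u ξ)).abs

theorem chi (hK : Kur φ pos co) (hp : Ps N b pos) (ξ : X) {ε : ℝ} (hε : 0 < ε) :
    ∃ (χ : Ω → ℝ) (C : ℝ) (U : Finset Ω), 0 ≤ C ∧ I01 χ ∧ (∀ ω, ε ≤ dist (pos ω) ξ → χ ω = 0) ∧
      (∀ᶠ x in nf G b ξ, χ (x • N.o) = 1) ∧
        ∀ x y, |χ y - χ x| ≤ C * ∑ u ∈ U, |φ u y - φ u x| := by
  obtain ⟨U, d, hd, h2⟩ := hK.unif hε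
  refine ⟨fun x => clamp (2 - 2 / d * ∑ u ∈ U, |φ u x - co u ξ|), 2 / d, U, by positivity,
    fun x => clamp_mem _, fun x hx => clamp_of_le ?_, ?_,
    fun x y => (Ku.LcL.clamp_lip _ _).trans ?_⟩
  · have h3 : ¬ ∀ u ∈ U, |co u (pos x) - co u ξ| < d := fun e => hx.not_gt (h2 _ _ e)
    simp only [not_forall, not_lt, hK.orb] at h3
    obtain ⟨u, hu, h4⟩ := h3
    have h5 := h4.trans (Finset.single_le_sum (f := fun u => |φ u x - co u ξ|)
      (fun _ _ => abs_nonneg _) hu)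
    have h6 := mul_le_mul_of_nonneg_left h5 (show 0 ≤ 2 / d by positivity)
    rw [div_mul_cancel₀ _ hd.ne'] at h6
    linarith
  · have h3 : Tendsto (fun x : G => 2 / d * ∑ u ∈ U, |φ u (x • N.o) - co u ξ|) (nf G b ξ)
        (𝓝 0) := by
      simpa using (tendsto_finsetSum U fun u _ => lim (ξ := ξ) hK hp u).const_mul (2 / d)
    exact (h3.eventually_lt_const one_pos).mono fun x hx => clamp_of_ge (by linarith)
  · rw [sub_sub_sub_cancel_left, ← mul_sub, abs_mul, abs_of_nonneg (by positivity),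
      ← Finset.sum_sub_distrib]
    refine mul_le_mul_of_nonneg_left ((Finset.abs_sum_le_sum_abs _ _).trans
      (Finset.sum_le_sum fun u _ => (abs_abs_sub_abs_le_abs_sub _ _).trans_eq ?_)) (by positivity)
    rw [sub_sub_sub_cancel_right, abs_sub_comm]

end LcL

open LcL in
theorem lc_stmt : LcStmt := by
  intro G Ω _ _ X _ _ _ _ N b pos φ co _ hP hT hK hp
  refine ⟨fun ξ F hF => ?_, fun ξ hξ O hO => ?_⟩
  · obtain ⟨O, hO, hf⟩ := mem_nf.1 hF
    obtain ⟨ε, hε, h0⟩ := Metric.mem_nhds_iff.1 hO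
    obtain ⟨χ, C, U, h1, -, h3, h4, h5⟩ := chi hK hp ξ (half_pos hε)
    obtain ⟨W, d, hd, h6⟩ := hT (F.indicator χ) C U h1 (by
      filter_upwards [hf.compl_mem_cofinite, (eventually_all_finset N.T).2 fun τ _ =>
        (hp.null τ _ (half_pos hε)).compl_mem_cofinite] with x c1 c2 τ hτ
      by_cases e : Cr F (x • N.o) (x • τ)
      · have c3 : ε ≤ dist (x • b) ξ := not_lt.1 fun k => c1 ⟨h0 k, fun k' => k' ⟨τ, hτ, e⟩⟩
        have c4 : dist (x • pos τ) (x • b) < ε / 2 := not_le.1 (c2 τ hτ)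
        have k1 := h3 (x • N.o) (by
          rw [hp.orb]
          linarith)
        have k2 := h3 (x • τ) (by
          rw [hp.eqv]
          linarith [dist_triangle_left (x • b) ξ (x • pos τ)])
        rw [Set.indicator_apply_eq_zero.2 fun _ => k1, Set.indicator_apply_eq_zero.2 fun _ => k2,
          sub_self, abs_zero]
        exact (abs_nonneg _).trans (h5 _ _)
      · have e1 := not_not.1 e
        by_cases k : x • N.o ∈ F
        · rw [Set.indicator_of_mem k, Set.indicator_of_mem (e1.1 k)]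
          exact h5 _ _
        · rw [Set.indicator_of_notMem k, Set.indicator_of_notMem fun k' => k (e1.2 k'), sub_self,
            abs_zero]
          exact (abs_nonneg _).trans (h5 _ _)) 1 one_pos
    have h7 : ∀ᶠ x in nf G b ξ, χ (x • N.o) = 1 ∧ ∀ w ∈ W, |φ w (x • N.o) - co w ξ| < d / 2 :=
      h4.and ((eventually_all_finset W).2 fun w _ =>
        (lim hK hp w).eventually_lt_const (half_pos hd))
    by_contra e
    rw [not_or] at e
    obtain ⟨x, ⟨-, a2⟩, a3⟩ := by_contra fun k : ¬ ∃ x : G, (χ (x • N.o) = 1 ∧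
        ∀ w ∈ W, |φ w (x • N.o) - co w ξ| < d / 2) ∧ x • N.o ∉ F =>
      e.1 (mem_of_superset h7 fun x hx => by_contra fun k' => k ⟨x, hx, k'⟩)
    obtain ⟨y, ⟨b1, b2⟩, b3⟩ := by_contra fun k : ¬ ∃ x : G, (χ (x • N.o) = 1 ∧
        ∀ w ∈ W, |φ w (x • N.o) - co w ξ| < d / 2) ∧ x • N.o ∈ F =>
      e.2 (mem_of_superset h7 fun x hx k' => k ⟨x, hx, k'⟩)
    have h8 := h6 (y • N.o) (x • N.o) fun w hw => by
      have c1 := abs_lt.1 (a2 w hw)
      have c2 := abs_lt.1 (b2 w hw)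
      rw [abs_lt]
      constructor <;> linarith [c1.1, c1.2, c2.1, c2.2]
    rw [Set.indicator_of_mem b3, Set.indicator_of_notMem a3, b1, sub_zero, abs_one] at h8
    exact lt_irrefl _ h8
  · obtain ⟨ε, hε, h0⟩ := Metric.mem_nhds_iff.1 hO
    obtain ⟨χ, C, U, h1, h2, h3, h4, h5⟩ := chi hK hp ξ hε
    refine ⟨χ, fun τ hτ => ?_, h2, fun ω k => h3 ω (not_lt.1 fun k' => k (h0 k')), fun e => ?_⟩
    · exact ((Sq.sum U fun u _ => (hP.dir u τ hτ).abs).const_mul C).of_le fun x =>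
        (h5 _ _).trans (le_abs_self _)
    · refine infinite_of_mem hξ (mem_of_superset h4 fun x hx => ?_) (e.finite one_pos)
      have : χ (x • N.o) = 1 := hx
      change 1 ≤ |χ (x • N.o)|
      rw [this, abs_one]

end Pool.Agent.MP_4f4d9f_gt.Rk

end

section

/-! Dynamics on the limit set. -/

namespace Pool.Agent.MP_4f4d9f_gt.Rk

open Filter Topology Hy Ku

namespace DynL

variable {G : Type} [Group G] {X : Type} [MetricSpace X] [MulAction G X] {S : Finset G} {b : X}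

theorem three (h : Bk S b) :
    ∃ a : Fin 3 → X, Function.Injective a ∧ ∀ i, Ac S b Set.univ (a i) := by
  obtain ⟨ξ, η, h1, h2, h3⟩ := h.two
  obtain ⟨o, e1, e2, -⟩ := h.wc ξ η h1 h2 h3 {ξ, η} (Set.toFinite _)
  have e3 : o ≠ ξ := fun k => e1 (Or.inl k)
  have e4 : o ≠ η := fun k => e1 (Or.inr k)
  refine ⟨![ξ, η, o], fun i j k => ?_, fun i => ?_⟩
  · fin_cases i <;> fin_cases j <;>
      first
        | rfl
        | exact absurd k h3
        | exact absurd k h3.symm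
        | exact absurd k e3
        | exact absurd k e3.symm
        | exact absurd k e4
        | exact absurd k e4.symm
  · fin_cases i
    · exact h1
    · exact h2
    · exact e2

theorem freq_top {ξ : X} (h : ξ ∈ KK G b) : ∃ᶠ g in nf G b ξ, g ∈ (⊤ : Subgroup G) :=
  have : (nf G b ξ).NeBot := h
  Frequently.of_forall fun g => Subgroup.mem_top g

theorem nofix (h : Bk S b) (vc : VC G b) (c : X) : ∃ g : G, g • c ≠ c := by
  by_contra k
  have k1 : ∀ g ∈ (⊤ : Subgroup G), g • c = c := fun g _ => not_not.1 fun e => k ⟨g, e⟩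
  obtain ⟨a, h1, h2⟩ := three h
  obtain ⟨i, hi⟩ : ∃ i, a i ≠ c := by
    by_cases e : a 0 = c
    · exact ⟨1, fun e' => absurd (h1 (e.trans e'.symm)) (by decide)⟩
    · exact ⟨0, e⟩
  have k2 := (vc ⊤ c (a i) k1 hi (freq_top (h2 i).mem)).1
  obtain ⟨j, j', e1, e2, e3⟩ := (by decide : ∀ i : Fin 3, ∃ j j', j ≠ i ∧ j' ≠ i ∧ j ≠ j') i
  have k3 : ∀ j, j ≠ i → a j = c := fun j hj =>
    (k2 (a j) (freq_top (h2 j).mem)).resolve_left fun e => hj (h1 e)
  exact e3 (h1 ((k3 j e1).trans (k3 j' e2).symm))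

variable [CompactSpace X] [ContinuousConstSMul G X]

theorem perf (h : Bk S b) {ξ : X} (h1 : ξ ∈ KK G b) {O : Set X} (h2 : O ∈ 𝓝 ξ) :
    (O ∩ KK G b).Infinite := by
  intro hf
  have h3 : ((O ∩ KK G b) \ {ξ})ᶜ ∈ 𝓝 ξ :=
    (hf.subset Set.sdiff_subset).isClosed.isOpen_compl.mem_nhds fun e => e.2 rfl
  obtain ⟨r, hr, h4⟩ := Metric.mem_nhds_iff.1 (inter_mem h2 h3)
  have h5 : ∀ ζ ∈ KK G b, ζ ≠ ξ → {x : G | dist (x • b) ξ < r / 2}ᶜ ∈ nf G b ζ := by
    intro ζ e1 e2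
    have e3 : r ≤ dist ζ ξ := not_lt.1 fun e => (h4 e).2 ⟨⟨(h4 e).1, e1⟩, e2⟩
    filter_upwards [nf_tendsto (Metric.ball_mem_nhds ζ (half_pos hr))] with x hx k
    have k1 : dist (x • b) ζ < r / 2 := hx
    have k2 : dist (x • b) ξ < r / 2 := k
    have := dist_triangle_left ζ ξ (x • b)
    linarith
  have h6 : {x : G | dist (x • b) ξ < r / 2} ∈ nf G b ξ :=
    nf_tendsto (Metric.ball_mem_nhds ξ (half_pos hr))
  obtain ⟨η, e1, e2⟩ : ∃ η ∈ KK G b, η ≠ ξ := by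
    obtain ⟨u, v, a1, a2, a3⟩ := h.two
    by_cases e : u = ξ
    · exact ⟨v, a2.mem, fun k => a3 (e.trans k.symm)⟩
    · exact ⟨u, a1.mem, e⟩
  refine (h.fin_or _ fun ζ => ?_).elim (infinite_of_mem h1 h6) (infinite_of_mem e1 (h5 η e1 e2))
  by_cases k : ζ ∈ KK G b
  · by_cases k' : ζ = ξ
    · exact Or.inl (k' ▸ h6)
    · exact Or.inr (h5 ζ k k')
  · rw [not_neBot.1 k]
    exact Or.inl mem_bot

theorem dens (h : Bk S b) (vc : VC G b) (m : X) {α : X} (h1 : α ∈ KK G b) {O : Set X}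
    (h2 : O ∈ 𝓝 α) : ∃ᶠ x in nf G b α, x • m ∈ O := by
  have : (nf G b α).NeBot := h1
  obtain ⟨U, hU⟩ := (nf G b α).exists_ultrafilter_le
  obtain ⟨r, hr⟩ := ultra_lim U fun x : G => x⁻¹ • b
  obtain ⟨w, hw⟩ : ∃ w : G, w • m ≠ r := by
    by_cases e : m = r
    · exact e ▸ nofix h vc m
    · exact ⟨1, by rwa [one_smul]⟩
  have k1 : Tendsto (fun x : G => x • (w • m)) U (𝓝 α) :=
    h.cv.tendsto (g := fun x : G => x) (z := fun _ => w • m) (tendsto_id'.2 (hU.trans nf_le))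
      (nf_tendsto.mono_left hU) hr tendsto_const_nhds hw
  have k2 : Tendsto (fun x : G => x * w) U (nf G b α) := (h.cv.nf_right w).mono_left hU
  refine k2.frequently (Eventually.frequently ?_)
  filter_upwards [k1 h2] with x hx
  rw [mul_smul]
  exact hx

end DynL

theorem dyn_stmt : DynStmt := fun _ _ _ _ _ _ _ _ _ h vc =>
  ⟨fun _ h1 _ h2 => DynL.perf h h1 h2, DynL.three h, DynL.nofix h vc,
    fun m _ h1 _ h2 => DynL.dens h vc m h1 h2⟩

end Pool.Agent.MP_4f4d9f_gt.Rk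

end

section

/-! Intervals between cut points and cone points are finite. -/

namespace Pool.Agent.MP_4f4d9f_gt.Rk

open Filter Topology Hy Ku
open scoped Pointwise

namespace Disc2L

variable {G Ω : Type} [Group G] [MulAction G Ω] {X : Type} [MetricSpace X] [MulAction G X]
  {N : Net G Ω} {S : Finset G} {b c c' z m y ξ : X} {pos : Ω → X} {F : Set G} {ω : Ω} {h : G}

theorem cof (e : ¬ IsOfFinOrder h) : Tendsto (fun j : ℕ => h ^ j) atTop cofinite :=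
  Nat.cofinite_eq_atTop ▸ (injective_pow_iff_not_isOfFinOrder.2 e).tendsto_cofinite

theorem base (hp : Ps N b pos) (e : ¬ IsOfFinOrder h) (hω : h • ω = ω) :
    Tendsto (fun j : ℕ => h ^ j • b) atTop (𝓝 (pos ω)) := by
  have k : ∀ j : ℕ, h ^ j • ω = ω := fun j =>
    (MulAction.stabilizer G ω).pow_mem (MulAction.mem_stabilizer_iff.2 hω) j
  refine Metric.tendsto_nhds.2 fun ε hε => ?_
  filter_upwards [cof e (hp.null ω ε hε).compl_mem_cofinite] with j hj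
  have : dist (h ^ j • pos ω) (h ^ j • b) < ε := not_le.1 fun k => hj k
  rwa [← hp.eqv, k, dist_comm] at this

theorem side (hF : Sp b c F) (h1 : z ∈ KK G b) (h2 : z ≠ c) (hz : F ∈ nf G b z)
    (h : ξ ∈ Cls G b c z) : F ∈ nf G b ξ :=
  (hF ξ h.2.1).resolve_right fun k => h.2.2 ⟨h1, h.1, h2, h.2.1, F, hF, hz, k⟩

theorem noinv (h1 : Sepa G b c m y) (h2 : Tendsto (fun j : ℕ => h ^ j • m) atTop (𝓝 y))
    (h3 : ∀ ξ ∈ Cls G b c m, h • ξ ∈ Cls G b c m) : False := by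
  obtain ⟨a1, -, a3, -, F, a5, a6, a7⟩ := h1
  have k : ∀ j : ℕ, h ^ j • m ∈ Cls G b c m := fun j => by
    induction j with
    | zero =>
      rw [pow_zero, one_smul]
      exact ⟨a1, a3, not_sepa_self⟩
    | succ j ih =>
      rw [pow_succ', mul_smul]
      exact h3 _ ih
  obtain ⟨j, hj⟩ := (h2.eventually (nf_open a7)).exists
  exact not_both (k j).1 (side a5 a1 a3 a6 (k j)) hj

theorem sub (hb : Bk S b) (h1 : Sepa G b c m c') (h2 : m ≠ c') :
    Cls G b c m ⊆ Cls G b c' m := by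
  have h4 : c ∈ Cls G b c' m :=
    ⟨hb.sepa_mem h1, h1.2.2.2.1.symm, fun k => hb.asymm h1.symm k.symm⟩
  obtain ⟨a1, a2, a3, -, F, a5, a6, a7⟩ := h1
  exact fun ξ k => cls_eq h4 a1 h2 ▸ hb.k1 a5 a2 a7 k.1 (side a5 a1 a3 a6 k)

theorem lim (hp : Ps N b pos) (cv : Cv G b) (e : ¬ IsOfFinOrder h) (hω : h • ω = ω)
    (hm : m ≠ pos ω) : Tendsto (fun j : ℕ => h ^ j • m) atTop (𝓝 (pos ω)) := by
  refine cv.tendsto (cof e) (base hp e hω) ?_ tendsto_const_nhds hm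
  simpa only [inv_pow] using
    base hp (mt isOfFinOrder_inv_iff.1 e) (inv_smul_eq_iff.2 hω.symm)

end Disc2L

open Disc2L in
theorem disc2_stmt : Disc2Stmt := by
  intro G Ω _ _ X _ _ _ _ N b pos bd disc m ω hm hω
  obtain ⟨h, hω', h1⟩ := (bd.cs.md.stab hω).exists_notMem_finite (Set.finite_singleton 1)
  have e : ¬ IsOfFinOrder h := fun k => h1 (bd.bk.tf h k)
  have hω1 : h • ω = ω := hω'
  refine ((disc m _ hm (hm.smul h⁻¹)).union (Set.finite_singleton (h⁻¹ • m))).subset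
    fun c hc => ?_
  by_contra hn
  rw [Set.mem_union, not_or] at hn
  have hc' : Sepa G b c m (pos ω) := hc
  have hne : m ≠ pos ω := fun k => not_sepa_self (k ▸ hc')
  have k1 : h⁻¹ • m ∈ KK G b := (smul_mem_KK _).2 hc'.1
  have k2 : h⁻¹ • m ≠ c := fun k => hn.2 k.symm
  have k3 : Sepa G b (h • c) m (pos ω) := by
    have := ((hc'.cases k1 k2).resolve_left hn.1).smul h
    rwa [smul_inv_smul, ← bd.ps.eqv, hω1] at this
  have k4 : h • Cls G b c m = Cls G b (h • c) m := by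
    rw [← cls_eq ⟨k1, k2, hn.1⟩ hc'.1 hc'.2.2.1, cls_smul, smul_inv_smul]
  have l1 : Cls G b (h • c) m ⊆ Cls G b c m → False := fun k =>
    noinv hc' (lim bd.ps bd.bk.cv e hω1 hne) fun ξ hξ => k (k4 ▸ Set.smul_mem_smul_set hξ)
  have l2 : Cls G b c m ⊆ Cls G b (h • c) m → False := fun k =>
    noinv hc' (lim bd.ps bd.bk.cv (mt isOfFinOrder_inv_iff.1 e) (inv_smul_eq_iff.2 hω1.symm) hne)
      fun ξ hξ => Set.mem_smul_set_iff_inv_smul_mem.1 (k4 ▸ k hξ)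
  rcases eq_or_ne c (h • c) with k | k
  · exact l1 (k ▸ Set.Subset.rfl)
  · exact (bd.bk.total hc' k3 k).elim (fun a => l2 (sub bd.bk a k3.2.2.1))
      fun a => l1 (sub bd.bk a hc'.2.2.1)

end Pool.Agent.MP_4f4d9f_gt.Rk

end

section

/-! Job `Blk`: existence of a block. -/

namespace Pool.Agent.MP_4f4d9f_gt.Rk

open Filter Topology Hy Ku

namespace BlkL

variable {G : Type} [Group G] {X : Type} [MetricSpace X] [CompactSpace X] [MulAction G X]
  [ContinuousConstSMul G X] {S : Finset G} {b : X}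

/-- Two different cut points that no point separates. -/
theorem adj (bd : Bk S b) (disc : Disc G b) (n : ℕ) : ∀ m m', m ≠ m' → CutP G b m →
    CutP G b m' → {c | Sepa G b c m m'}.ncard = n →
    ∃ m m', m ≠ m' ∧ CutP G b m ∧ CutP G b m' ∧ ∀ c, ¬ Sepa G b c m m' := by
  induction n using Nat.strong_induction_on with
  | _ n ih =>
    intro m m' h1 h2 h3 h4
    by_cases e : ∃ c, Sepa G b c m m'
    · obtain ⟨c, hc⟩ := e
      refine ih _ (h4 ▸ Set.ncard_lt_ncard ⟨fun c' k => bd.sepa_trans hc k, fun k => ?_⟩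
        (disc m m' h2 h3)) m c hc.2.2.1 h2 ⟨_, _, hc⟩ rfl
      exact (k hc).2.2.2.1 rfl
    · exact ⟨m, m', h1, h2, h3, not_exists.1 e⟩

end BlkL

theorem blk_stmt : BlkStmt := by
  rintro G _ X _ _ _ _ S b bd dyn disc ⟨c₀, h₀⟩
  obtain ⟨g, hg⟩ := dyn.nofix c₀
  obtain ⟨m, m', h1, h2, h3, h4⟩ := BlkL.adj bd disc _ _ _ hg (h₀.smul g) h₀ rfl
  have k1 : m ∈ KK G b := let ⟨_, _, k⟩ := h2; bd.sepa_mem k
  have k2 : m' ∈ KK G b := let ⟨_, _, k⟩ := h3; bd.sepa_mem k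
  have b1 : m ∈ KK G b ∧ ∀ c, ¬ Sepa G b c m m ∧ ¬ Sepa G b c m' m :=
    ⟨k1, fun c => ⟨not_sepa_self, fun k => h4 c k.symm⟩⟩
  have b2 : m' ∈ KK G b ∧ ∀ c, ¬ Sepa G b c m m' ∧ ¬ Sepa G b c m' m' :=
    ⟨k2, fun c => ⟨h4 c, not_sepa_self⟩⟩
  refine ⟨{ξ | ξ ∈ KK G b ∧ ∀ c, ¬ Sepa G b c m ξ ∧ ¬ Sepa G b c m' ξ}, fun _ k => k.1,
    fun c ξ e1 η e2 k => ?_, fun ξ e1 e2 => ?_, m, b1, m', b2, h1, h2, h3⟩
  · by_cases e : m = c
    · exact (k.cases k2 fun e' => h1 (e.trans e'.symm)).elim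
        (fun a => (e1.2 c).2 a.symm) (e2.2 c).2
    · exact (k.cases k1 e).elim (fun a => (e1.2 c).1 a.symm) (e2.2 c).1
  · by_contra k
    exact e2 ⟨e1, fun c => ⟨fun a => k ⟨c, m, b1, a⟩, fun a => k ⟨c, m', b2, a⟩⟩⟩

end Pool.Agent.MP_4f4d9f_gt.Rk

end

section

/-! The partition into single vertices is a system of cells. -/

namespace Pool.Agent.MP_4f4d9f_gt.Rk

open Filter Topology Hy Ku

namespace Cel0L

variable {G Ω : Type} [Group G] [MulAction G Ω] {N : Net G Ω}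

theorem self_mem (ex : ∃ τ ∈ N.T, Cone N τ) (y : G) : y ∈ Bdy N {y • N.o} := by
  obtain ⟨τ, hτ, k⟩ := ex
  exact ⟨τ, hτ, fun e => k.smul y y (Set.mem_singleton_iff.1 (e.1 rfl)).symm⟩

theorem near (h : Mod N) {x y : G} (e : x ∈ Bdy N {y • N.o}) : x⁻¹ * y ∈ N.S := by
  obtain ⟨τ, hτ, k⟩ := h.bdy_in e
  exact h.step hτ k

theorem fin (h : Mod N) (y : G) : (Bdy N {y • N.o}).Finite :=
  (N.S.finite_toSet.image fun s => y * s⁻¹).subset fun x hx => ⟨_, near h hx, by simp⟩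

theorem cnn (h : Mod N) (ex : ∃ τ ∈ N.T, Cone N τ) (y : G) : Cnn N.S (Bdy N {y • N.o}) :=
  fun _ ha _ hb => (Conn.single ha (self_mem ex y) (near h ha)).trans
    ((Conn.single hb (self_mem ex y) (near h hb)).symm h.gen)

end Cel0L

theorem cel0_stmt : Cel0Stmt := by
  intro G Ω _ _ X _ _ _ _ N b pos bd
  have md := bd.cs.md
  refine
    { inv := fun _ _ _ _ => trivial
      orb := ⟨{1}, Set.finite_singleton _, fun x _ => ⟨x, trivial, inv_mul_cancel x⟩⟩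
      conn := cnn_univ md.gen
      self := fun _ => rfl
      eqv := fun ω ω' e => by rw [Set.mem_singleton_iff.1 e]
      smul := fun h _ ω => Set.smul_set_singleton.symm
      lsm := fun h _ ω => bd.ps.eqv h ω
      out := fun _ => Set.subset_univ _
      bin := fun x _ => Cel0L.self_mem bd.ex x
      bcon := fun ω => ?_
      lconst := fun x _ τ _ y _ τ' _ e => by rw [Set.mem_singleton_iff.1 e]
      only := fun x _ τ _ ξ e => ?_ }
  · rcases orb_or_cone N ω with ⟨y, rfl⟩ | k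
    · exact Cel0L.cnn md bd.ex y
    · exact bd.cs.nb_cnn k
  · rcases orb_or_cone N (x • τ) with ⟨y, k⟩ | k
    · rw [← k]
      exact compl_mem_nf (Cel0L.fin md y)
    · exact bd.ps.nb_only k e

end Pool.Agent.MP_4f4d9f_gt.Rk

end

section

/-! All but finitely many cells are small. -/

namespace Pool.Agent.MP_4f4d9f_gt.Rk

open Filter Topology Hy Ku
open scoped Pointwise

namespace NullL

variable {G Ω : Type} [Group G] [MulAction G Ω] {X : Type} [MetricSpace X] [MulAction G X]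
  [ContinuousConstSMul G X] {N : Net G Ω} {b : X} {pos : Ω → X} {lam : Ω → X}
  {H : Subgroup G} {V : Set G} {D : Ω → Set Ω}

theorem para (bd : Bd N b pos) (prb : Prb G b) (ce : Cel N b lam H V D) {t : G} (ht : t ∈ V)
    {τ : Ω} (hτ : τ ∈ N.T) (hi : (Bdy N (D (t • τ))).Infinite) {e : ℝ} (he : 0 < e) :
    {v : G | e ≤ dist (v • b) (v • lam (t • τ))}.Finite := by
  obtain ⟨Z, hZ, h1⟩ := ce.orb
  have h2 : ∀ x ∈ Bdy N (D (t • τ)), ∃ p : G × Ω, p.1 ∈ H ∧ p.1⁻¹ * x ∈ Z ∧ p.2 ∈ N.T ∧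
      x • p.2 ∈ D (t • τ) := fun x hx => by
    obtain ⟨h, k1, k2⟩ := h1 x (ce.out _ hx)
    obtain ⟨σ, k3, k4⟩ := bd.cs.md.bdy_in hx
    exact ⟨(h, σ), k1, k2, k3, k4⟩
  have : Nonempty (G × Ω) := ⟨(1, τ)⟩
  choose! p h3 h4 h5 h6 using h2
  obtain ⟨x, hx, x', hx', h7, h8⟩ := hi.exists_ne_map_eq_of_mapsTo
    (f := fun x => ((p x).1⁻¹ * x, (p x).2)) (t := Z ×ˢ (N.T : Set Ω))
    (fun x hx => ⟨h4 x hx, h5 x hx⟩) (hZ.prod N.T.finite_toSet)
  obtain ⟨e1, e2⟩ := Prod.mk.inj h8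
  have h9 : (p x').1 * (p x).1⁻¹ * x = x' := by rw [mul_assoc, e1, mul_inv_cancel_left]
  have h10 : (p x').1 * (p x).1⁻¹ ∈ MulAction.stabilizer G (D (t • τ)) := by
    rw [MulAction.mem_stabilizer_iff]
    have := ce.smul _ (H.mul_mem (h3 x' hx') (H.inv_mem (h3 x hx))) (x • (p x).2)
    rw [← mul_smul, h9, ce.eqv _ _ (h6 x hx), e2, ce.eqv _ _ (h6 x' hx')] at this
    exact this.symm
  refine prb ((p x').1 * (p x).1⁻¹) (lam (t • τ)) (fun k => h7 ?_) (fun ξ k => ?_) e he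
  · rw [← h9, bd.bk.tf _ k, one_mul]
  · refine mem_of_superset (bd.bk.cv.nf_right x (ce.only t ht τ hτ ξ k)) fun g hg k' => hg ?_
    have k1 : g • D (t • τ) = D (t • τ) := (Subgroup.zpowers_le_of_mem h10) k'
    rw [← k1, bdy_smul]
    exact Set.smul_mem_smul_set hx

theorem fin1 (bd : Bd N b pos) (prb : Prb G b) (ce : Cel N b lam H V D) {e : ℝ} (he : 0 < e) :
    {x | x ∈ V ∧ ∃ τ ∈ N.T, (Bdy N (D (x • τ))).Infinite ∧
      e ≤ dist (x • b) (lam (x • τ))}.Finite := by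
  obtain ⟨Z, hZ, h1⟩ := ce.orb
  have h2 := half_pos he
  refine (((hZ.prod N.T.finite_toSet).subset
    (t := {p : G × Ω | p.1 ∈ Z ∧ p.2 ∈ N.T ∧ p.1 ∈ V ∧ (Bdy N (D (p.1 • p.2))).Infinite})
    fun _ k => ⟨k.1, k.2.1⟩).biUnion
    fun p hp => ((bd.bk.cv.persp p.1 h2).union (para bd prb ce hp.2.2.1 hp.2.1 hp.2.2.2 h2)).image
      fun g => g * p.1).subset ?_
  rintro x ⟨k1, τ, hτ, k2, k3⟩
  obtain ⟨h, k4, k5⟩ := h1 x k1
  obtain ⟨t, rfl⟩ := (Group.mulLeft_bijective h).2 x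
  simp only [inv_mul_cancel_left] at k5
  have k6 : t ∈ V := by simpa using ce.inv _ (H.inv_mem k4) _ k1
  have k7 : (h * t) • τ = h • t • τ := mul_smul h t τ
  simp only [k7, ce.smul h k4, bdy_smul, ce.lsm h k4] at k2 k3
  refine Set.mem_biUnion (x := (t, τ)) ⟨k5, hτ, k6, fun k => k2 k.smul_set⟩ ⟨h, ?_, rfl⟩
  by_contra k
  simp only [Set.mem_union, Set.mem_ofPred_eq, not_or, not_le] at k
  have := dist_triangle ((h * t) • b) (h • b) (h • lam (t • τ))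
  linarith [k.1, k.2]

theorem fin2 (bd : Bd N b pos) (ce : Cel N b lam H V D) {e : ℝ} (he : 0 < e) :
    {x | x ∈ V ∧ ∃ τ ∈ N.T, (Bdy N (D (x • τ))).Finite ∧
      ∃ y ∈ Bdy N (D (x • τ)), e ≤ dist (y • b) (x • b)}.Finite := by
  obtain ⟨Z, hZ, h1⟩ := ce.orb
  have h2 := half_pos he
  refine (((hZ.prod N.T.finite_toSet).subset
    (t := {p : G × Ω | p.1 ∈ Z ∧ p.2 ∈ N.T ∧ (Bdy N (D (p.1 • p.2))).Finite})
    fun _ k => ⟨k.1, k.2.1⟩).biUnion
    fun p hp => ((bd.bk.cv.persp p.1 h2).union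
      (hp.2.2.biUnion fun w _ => bd.bk.cv.persp w h2)).image fun g => g * p.1).subset ?_
  rintro x ⟨k1, τ, hτ, k2, y, k3, k8⟩
  obtain ⟨h, k4, k5⟩ := h1 x k1
  obtain ⟨t, rfl⟩ := (Group.mulLeft_bijective h).2 x
  simp only [inv_mul_cancel_left] at k5
  have k7 : (h * t) • τ = h • t • τ := mul_smul h t τ
  simp only [k7, ce.smul h k4, bdy_smul] at k2 k3
  obtain ⟨w, k9, rfl⟩ := k3
  refine Set.mem_biUnion (x := (t, τ)) ⟨k5, hτ, Set.finite_smul_set.1 k2⟩ ⟨h, ?_, rfl⟩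
  by_contra k
  simp only [Set.mem_union, Set.mem_ofPred_eq, not_or, not_le, Set.mem_iUnion, not_exists] at k
  have := dist_triangle_right ((h * w) • b) ((h * t) • b) (h • b)
  have k10 : e ≤ dist ((h * w) • b) ((h * t) • b) := k8
  linarith [k.1, k.2 w k9]

end NullL

theorem null_stmt : NullStmt := by
  intro G Ω _ _ X _ _ _ _ N b pos lam H V D bd prb ce ε hε
  have he := half_pos hε
  refine ⟨_, (NullL.fin1 bd prb ce he).union (NullL.fin2 bd ce he), fun ω hd x hx y hy => ?_⟩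
  have h1 := fun z (hz : z ∈ Bdy N (D ω)) => Set.disjoint_left.1 hd hz
  simp only [Set.mem_union, Set.mem_ofPred_eq, not_or, not_and, not_le, not_exists] at h1
  obtain ⟨τ, a1, a2⟩ := bd.cs.md.bdy_in hx
  obtain ⟨τ', a3, a4⟩ := bd.cs.md.bdy_in hy
  have e1 := ce.eqv _ _ a2
  have e2 := ce.eqv _ _ a4
  by_cases k : (Bdy N (D ω)).Finite
  · have := (h1 x hx).2 (ce.out _ hx) τ a1 (e1 ▸ k) y (e1 ▸ hy)
    linarith
  · have k3 := (h1 x hx).1 (ce.out _ hx) τ a1 (e1 ▸ k)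
    have k4 := (h1 y hy).1 (ce.out _ hy) τ' a3 (e2 ▸ k)
    rw [ce.lconst x (ce.out _ hx) τ a1 y (ce.out _ hy) τ' a3 (e1 ▸ a4)] at k4
    have k7 := dist_triangle_right (y • b) (x • b) (lam (x • τ))
    linarith

end Pool.Agent.MP_4f4d9f_gt.Rk

end

section

/-! Three accessible points. -/

namespace Pool.Agent.MP_4f4d9f_gt.Rk

open Filter Topology Hy Ku
open scoped Pointwise

namespace ThreeL

variable {G Ω : Type} [Group G] [MulAction G Ω] {X : Type} [MetricSpace X] [CompactSpace X]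
  [MulAction G X] {N : Net G Ω} {b : X} {pos lam : Ω → X} {H : Subgroup G} {V : Set G}
  {D : Ω → Set Ω}

theorem tend (ce : Cel N b lam H V D) {x : G} (hx : x ∈ V) {τ : Ω} (hτ : τ ∈ N.T) {ι : Type}
    {l : Filter ι} {g : ι → G} (h1 : Tendsto g l cofinite)
    (h2 : ∀ᶠ i in l, g i ∈ Bdy N (D (x • τ))) :
    Tendsto (fun i => g i • b) l (𝓝 (lam (x • τ))) := by
  refine Metric.tendsto_nhds.2 fun ε hε => ?_
  filter_upwards [h1 (only_iff.1 (ce.only x hx τ hτ) ε hε).compl_mem_cofinite, h2] with i k1 k2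
  exact not_le.1 fun k => k1 ⟨k2, k⟩

theorem ac (bd : Bd N b pos) (ce : Cel N b lam H V D) {x : G} (hx : x ∈ V) {τ : Ω}
    (hτ : τ ∈ N.T) (h : (Bdy N (D (x • τ))).Infinite) : Ac N.S b V (lam (x • τ)) :=
  (ac_of_only bd.bk.kon (ce.bcon _) h (ce.only x hx τ hτ)).mono (ce.out _)

omit [CompactSpace X] in
theorem stab (bd : Bd N b pos) (ce : Cel N b lam H V D) {ω : Ω}
    (h : (Bdy N (D ω)).Infinite) : {g : G | g ∈ H ∧ g • D ω = D ω}.Infinite := by
  obtain ⟨Z, hZ, h1⟩ := ce.orb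
  obtain ⟨p, -, h2⟩ : ∃ p ∈ Z ×ˢ (N.T : Set Ω),
      {u : G | u • p.2 ∈ D ω ∧ u * p.1⁻¹ ∈ H}.Infinite := by
    by_contra e
    push Not at e
    refine h (((hZ.prod N.T.finite_toSet).biUnion e).subset fun u hu => ?_)
    obtain ⟨g, k1, k2⟩ := h1 u (ce.out ω hu)
    obtain ⟨σ, k3, k4⟩ := bd.cs.md.bdy_in hu
    exact Set.mem_biUnion (x := (g⁻¹ * u, σ)) ⟨k2, k3⟩ ⟨k4, by simpa using k1⟩
  obtain ⟨u, k1, k2⟩ := h2.nonempty
  refine (h2.image (f := fun v => v * u⁻¹) (mul_left_injective _).injOn).mono ?_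
  rintro _ ⟨v, ⟨k3, k4⟩, rfl⟩
  have k5 : v * u⁻¹ ∈ H := by simpa using H.mul_mem k4 (H.inv_mem k2)
  refine ⟨k5, ?_⟩
  have k6 := ce.smul _ k5 (u • p.2)
  rw [← mul_smul, inv_mul_cancel_right, ce.eqv ω _ k3, ce.eqv ω _ k1] at k6
  exact k6.symm

end ThreeL

open ThreeL in
theorem three_stmt : ThreeStmt := by
  intro G Ω _ _ X _ _ _ _ N b pos lam H V D bd ce ⟨x, hx, τ, hτ, y, hy, σ, hσ, hne, ix, iy⟩
  have hS := stab bd ce ix
  obtain ⟨u, hu⟩ := ix.nonempty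
  have hl : (cofinite ⊓ 𝓟 {g : G | g ∈ H ∧ g • D (x • τ) = D (x • τ)}).NeBot :=
    frequently_mem_iff_neBot.1 (frequently_cofinite_iff_infinite.2 hS)
  have hm : ∀ᶠ g in cofinite ⊓ 𝓟 {g : G | g ∈ H ∧ g • D (x • τ) = D (x • τ)},
      g ∈ H ∧ g • D (x • τ) = D (x • τ) :=
    mem_inf_of_right (mem_principal_self _)
  have key : ∀ f : G → G, Function.Injective f →
      (∀ g : G, g • D (x • τ) = D (x • τ) → f g • D (x • τ) = D (x • τ)) →
      Tendsto (fun g => f g • b) (cofinite ⊓ 𝓟 {g : G | g ∈ H ∧ g • D (x • τ) = D (x • τ)})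
        (𝓝 (lam (x • τ))) := by
    intro f h1 h2
    have h3 : Tendsto (fun g => f g * u)
        (cofinite ⊓ 𝓟 {g : G | g ∈ H ∧ g • D (x • τ) = D (x • τ)}) cofinite :=
      ((mul_left_injective u).comp h1).tendsto_cofinite.mono_left inf_le_left
    have h4 := (bd.bk.cv.nf_right u⁻¹).comp
      (tendsto_nf.2 ⟨tend ce hx hτ h3 (hm.mono fun g hg => by
        rw [← h2 g hg.2, bdy_smul]
        exact Set.smul_mem_smul_set (a := f g) hu), h3⟩)
    simpa [Function.comp_def] using (tendsto_nf.1 h4).1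
  have h5 := bd.bk.cv.tendsto (tendsto_id'.2 inf_le_left) (key id Function.injective_id
    fun g k => k) (key (fun g => g⁻¹) inv_injective fun g k => by
      rw [inv_smul_eq_iff]
      exact k.symm) tendsto_const_nhds hne.symm
  obtain ⟨g, ⟨k1, k2⟩, k3⟩ := (hm.and (h5.eventually_ne hne)).exists
  have k4 : g • lam (x • τ) = lam (x • τ) := by
    rw [← ce.lsm g k1, ← mul_smul]
    refine ce.lconst x hx τ hτ _ (ce.inv g k1 x hx) τ hτ ?_
    rw [← k2, mul_smul]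
    exact Set.smul_mem_smul_set (ce.self _)
  have k5 : g • lam (y • σ) ≠ lam (x • τ) :=
    fun e => hne (MulAction.injective g (k4.trans e.symm))
  have k6 : g • lam (y • σ) ≠ lam (y • σ) := k3
  refine ⟨![lam (x • τ), lam (y • σ), g • lam (y • σ)], fun i j e => ?_, fun i => ?_⟩
  · fin_cases i <;> fin_cases j <;> first
      | rfl | exact absurd e hne | exact absurd e hne.symm | exact absurd e k5
      | exact absurd e k5.symm | exact absurd e k6 | exact absurd e k6.symm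
  · fin_cases i
    · exact ac bd ce hx hτ ix
    · exact ac bd ce hy hσ iy
    · exact (ac bd ce hy hσ iy).smul (ce.inv g k1)

end Pool.Agent.MP_4f4d9f_gt.Rk

end

section

/-! Job `Last`: the rescaling lemma applied inside a block gives a cut of the block. -/

namespace Pool.Agent.MP_4f4d9f_gt.Rk

open Filter Topology Hy Ku
open scoped Pointwise

namespace LastL

variable {G Ω : Type} [Group G] [MulAction G Ω] {X : Type} [MetricSpace X] [MulAction G X]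
  {S : Finset G} {N : Net G Ω} {b c k ξ : X} {π : Set X} {lam pos : Ω → X} {H : Subgroup G}
  {A V P : Set G} {D : Ω → Set Ω} {x : G}

/-- The places of `V` where `P` is crossed. -/
def Loc (S : Finset G) (V P : Set G) : Set G := {x | x ∈ V ∧ ∃ s ∈ S, x * s ∈ V ∧ Cr P x (x * s)}

/-- The side to which a boundary is attached. -/
def val (P A : Set G) : Prop := (∀ y ∈ A, y ∈ P) ∨ (A.Infinite ∧ (A \ P).Finite)

theorem small (hA : A ⊆ V) (hc : Cnn S A) (hx : x ∈ A) (h : ∀ y ∈ A, y ∉ Loc S V P) :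
    val P A ↔ x ∈ P := by
  have key : ∀ y ∈ A, (x ∈ P ↔ y ∈ P) := fun y hy => not_not.1
    (conn_not_cr (L := P) (hc x hx y hy) fun a ha s hs e c => h a ha ⟨hA ha, s, hs, hA e, c⟩)
  refine ⟨fun e => ?_, fun e => Or.inl fun y hy => (key y hy).1 e⟩
  rcases e with e | e
  · exact e x hx
  · by_contra c
    exact e.1 (e.2.subset fun y hy => ⟨hy, fun c' => c ((key y hy).2 c')⟩)

variable [CompactSpace X]

theorem big (kon : Kon S) (hA : A ⊆ V) (hc : Cnn S A) (ho : ∀ η, η ≠ c → Aᶜ ∈ nf G b η)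
    (a1 : ∀ ξ, ξ ≠ k → (Loc S V P)ᶜ ∈ nf G b ξ)
    (a2 : ∀ z, IsRay S z → (∀ n, z n ∈ V) → ∀ ξ, ξ ≠ k →
      Tendsto (fun n => z n • b) atTop (𝓝 ξ) → ∀ᶠ n in atTop, (z n ∈ P ↔ ξ ∈ π))
    (hk : c ≠ k) : {y | y ∈ A ∧ ¬ (val P A ↔ y ∈ P)}.Finite := by
  by_cases hf : A.Finite
  · exact hf.subset fun y hy => hy.1
  have h1 : (Loc S V P ∩ A).Finite := (finite_iff b).2 fun ξ => by
    by_cases e : ξ = k
    · exact mem_of_superset (ho ξ (e ▸ hk.symm)) fun y c c' => c c'.2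
    · exact mem_of_superset (a1 ξ e) fun y c c' => c c'.1
  have h2 : (A ∩ P).Finite ∨ (A \ P).Finite := by
    by_contra c
    obtain ⟨c1, c2⟩ := not_or.1 c
    obtain ⟨z, b1, b2⟩ := kon _ _ hc Set.inter_subset_left c1
      (h1.subset fun y ⟨hy, s, hs, e1, e2⟩ => ⟨⟨hA hy.1, s, hs, hA e1,
        fun e => e2 ⟨e1, e.1 hy.2⟩⟩, hy.1⟩)
    obtain ⟨z', d1, d2⟩ := kon _ _ hc Set.sdiff_subset c2
      (h1.subset fun y ⟨hy, s, hs, e1, e2⟩ => ⟨⟨hA hy.1, s, hs, hA e1,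
        fun e => e2 ⟨e1, fun e' => hy.2 (e.2 e')⟩⟩, hy.1⟩)
    obtain ⟨n, hn⟩ := (a2 z b1 (fun n => hA (b2 n).1) _ hk
      (ray_lim ho b1 fun n => (b2 n).1)).exists
    obtain ⟨m, hm⟩ := (a2 z' d1 (fun n => hA (d2 n).1) _ hk
      (ray_lim ho d1 fun n => (d2 n).1)).exists
    exact (d2 m).2 (hm.2 (hn.1 (b2 n).2))
  rcases h2 with h2 | h2
  · have h3 : ¬ val P A := by
      rintro (e | e)
      · exact hf (h2.subset fun y hy => ⟨hy, e y hy⟩)
      · exact hf ((h2.union e.2).subset fun y hy => (em (y ∈ P)).imp (⟨hy, ·⟩) (⟨hy, ·⟩))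
    exact h2.subset fun y hy => ⟨hy.1, by_contra fun c => hy.2 (iff_of_false h3 c)⟩
  · exact h2.subset fun y hy => ⟨hy.1, fun c => hy.2 (iff_of_true (Or.inr ⟨hf, h2⟩) c)⟩

theorem good (bd : Bd N b pos) (ce : Cel N b lam H V D) (nu : Null N b D)
    (a1 : ∀ ξ, ξ ≠ k → (Loc N.S V P)ᶜ ∈ nf G b ξ)
    (a2 : ∀ z, IsRay N.S z → (∀ n, z n ∈ V) → ∀ ξ, ξ ≠ k →
      Tendsto (fun n => z n • b) atTop (𝓝 ξ) → ∀ᶠ n in atTop, (z n ∈ P ↔ ξ ∈ π))
    (hξ : ξ ≠ k) :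
    ∀ᶠ x in nf G b ξ, ∀ ω, x ∈ Bdy N (D ω) → (val P (Bdy N (D ω)) ↔ x ∈ P) := by
  have he : 0 < dist ξ k / 3 := div_pos (dist_pos.2 hξ) three_pos
  obtain ⟨Z, hZ, h1⟩ := nu _ he
  have h2 := only_iff.1 a1 _ he
  have h3 : ∀ z : G, ∀ τ ∈ N.T, ∀ᶠ x in nf G b ξ, z ∈ V → x ∈ Bdy N (D (z • τ)) →
      (val P (Bdy N (D (z • τ))) ↔ x ∈ P) := fun z τ hτ => by
    by_cases c1 : z ∈ V
    · have c3 : {y | y ∈ Bdy N (D (z • τ)) ∧ ¬ (val P (Bdy N (D (z • τ))) ↔ y ∈ P)}ᶜ ∈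
          nf G b ξ := by
        by_cases e : ξ = lam (z • τ)
        · exact compl_mem_nf (big bd.bk.kon (ce.out _) (ce.bcon _) (ce.only z c1 τ hτ) a1 a2
            (e ▸ hξ))
        · exact mem_of_superset (ce.only z c1 τ hτ ξ e) fun y c c' => c c'.1
      filter_upwards [c3] with x d1 _ d3
      exact by_contra fun c => d1 ⟨d3, c⟩
    · exact Eventually.of_forall fun x d1 => absurd d1 c1
  filter_upwards [nf_tendsto (Metric.ball_mem_nhds ξ he),
    (eventually_all_finite (hZ.union h2)).2 fun z _ => (eventually_all_finset N.T).2 (h3 z)]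
    with x d1 d2 ω hx
  by_contra c
  have d0 : ∀ z ∈ Bdy N (D ω), z ∉ Z ∪ {x | x ∈ Loc N.S V P ∧ dist ξ k / 3 ≤ dist (x • b) k} :=
    fun z hz e => by
      obtain ⟨τ, hτ, e'⟩ := bd.cs.md.bdy_in hz
      have := d2 z e τ hτ (ce.out ω hz)
      rw [ce.eqv _ _ e'] at this
      exact c (this hx)
  refine c (small (ce.out ω) (ce.bcon ω) hx fun y hy e => ?_)
  have d3 := h1 ω (Set.disjoint_left.2 fun z e1 e2 => d0 z e1 (Or.inl e2)) x hx y hy
  have d4 : dist (x • b) ξ < dist ξ k / 3 := d1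
  refine d0 y hy (Or.inr ⟨e, ?_⟩)
  have := dist_triangle_left ξ k (y • b)
  have := dist_triangle (y • b) (x • b) ξ
  linarith

end LastL

open LastL in
theorem last_stmt : LastStmt := by
  intro G Ω _ _ X _ _ _ _ N b pos lam H V D bd hR ce nu ⟨a, h1, h2⟩
  obtain ⟨k, P, π, a1, a2, ξ, η, a3, a4, a5, a6, a7, a8⟩ := hR H V ce.inv ce.orb ce.conn a h1 h2
  have hg := fun ξ (e : ξ ≠ k) => good bd ce nu a1 a2 e
  have hP : Sp b k (tr N {ω | val P (Bdy N (D ω))}) := bd.sp fun ξ e => by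
    filter_upwards [hg ξ e] with x c2
    rintro ⟨τ, hτ, c⟩
    have c3 : D (x • N.o) ≠ D (x • τ) := fun e => c (by
      change val P (Bdy N (D (x • N.o))) ↔ val P (Bdy N (D (x • τ)))
      rw [e])
    have c4 : x ∈ Bdy N (D (x • N.o)) :=
      ⟨τ, hτ, fun e => c3 (ce.eqv _ _ (e.1 (ce.self _))).symm⟩
    have c5 : x ∈ Bdy N (D (x • τ)) := ⟨τ, hτ, fun e => c3 (ce.eqv _ _ (e.2 (ce.self _)))⟩
    exact c ((c2 _ c4).trans (c2 _ c5).symm)
  refine ⟨k, ξ, η, a5, a6, a5.mem, a6.mem, a3, a4, _, hP,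
    (hP ξ a3).resolve_right fun e => ?_, (hP η a4).resolve_left fun e => ?_⟩
  · obtain ⟨z, b1, b2, b3⟩ := a5
    obtain ⟨n, ⟨c1, c2⟩, c3⟩ := (((a2 z b1 b2 ξ a3 b3).and (b1.nf b3 e)).and
      ((b1.nf b3).eventually (hg ξ a3))).exists
    exact c2 ((c3 _ (ce.bin _ (b2 n))).2 (c1.2 a7))
  · obtain ⟨z, b1, b2, b3⟩ := a6
    obtain ⟨n, ⟨c1, c2⟩, c3⟩ := (((a2 z b1 b2 η a4 b3).and (b1.nf b3 e)).and
      ((b1.nf b3).eventually (hg η a4))).exists
    exact a8 (c1.1 ((c3 _ (ce.bin _ (b2 n))).1 c2))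

end Pool.Agent.MP_4f4d9f_gt.Rk

end
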