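import Pool.Agent.Mg.F4f4d9fr.G30dcc0
import Pool.Agent.Mg.F4f4d9fr.G8e7da9

set_option linter.all false

section

/-! Nested components of the boundary of a set which separate two points at infinity. -/

namespace Pool.Agent.MP_4f4d9f_gt.Hy

open Filter Topology
open scoped Pointwise

namespace NestedL

variable {G : Type} [Group G] {S : Finset G} {u : G → ℝ} {C : ℕ} {p q : Pt S u}
  {L P Q Φ Φ' : Set G} {w w' : G × G → ZMod 2} {r r' : ZMod 2}

open Classical in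
/-- The indicator function. -/
noncomputable def ind (Q : Set G) (x : G) : ZMod 2 := if x ∈ Q then 1 else 0

omit [Group G] in
theorem ind_mem {x : G} (h : x ∈ Q) : ind Q x = 1 := if_pos h

omit [Group G] in
theorem ind_not {x : G} (h : x ∉ Q) : ind Q x = 0 := if_neg h

/-- The edges that cross `L` and start in `Q`. -/
noncomputable def ww (L Q : Set G) (e : G × G) : ZMod 2 := ind Q e.1 * d0 (ind L) e

/-- The parity of a cochain which is almost a coboundary. -/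
def Par (p q : Pt S u) (w : G × G → ZMod 2) (r : ZMod 2) : Prop :=
  ∃ F : G → ZMod 2, {e | Edge S e ∧ w e ≠ d0 F e}.Finite ∧
    ∀ᶠ n in atTop, F (p.z n) + F (q.z n) = r

/-- A union of components of `A`. -/
def Cl (S : Finset G) (A Q : Set G) : Prop :=
  Q ⊆ A ∧ ∀ a ∈ Q, ∀ b ∈ A, a⁻¹ * b ∈ S → b ∈ Q

theorem z_eq : ∀ a b : ZMod 2, a + b = 0 → b = a := by decide

theorem z_self : ∀ a : ZMod 2, a + a = 0 := by decide

theorem z_dich : ∀ a : ZMod 2, a = 0 ∨ a = 1 := by decide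

omit [Group G] in
theorem ww_not {e : G × G} (h : e.1 ∉ Q) : ww L Q e = 0 := by rw [ww, ind_not h, zero_mul]

omit [Group G] in
theorem ww_union (h : Disjoint P Q) (e : G × G) : ww L (P ∪ Q) e = ww L P e + ww L Q e := by
  unfold ww
  rw [← add_mul]
  congr 1
  by_cases h2 : e.1 ∈ P
  · rw [ind_mem h2, ind_not (Set.disjoint_left.1 h h2), ind_mem (Set.mem_union_left _ h2),
      add_zero]
  · by_cases h3 : e.1 ∈ Q
    · rw [ind_not h2, ind_mem h3, ind_mem (Set.mem_union_right _ h3), zero_add]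
    · rw [ind_not h2, ind_not h3, ind_not (fun k => k.elim h2 h3), add_zero]

theorem ind_eq {a b : G} (e : a⁻¹ * b ∈ S) (h : a ∉ Bdy S L) : ind L b = ind L a := by
  have h1 : a ∈ L ↔ b ∈ L := by_contra fun k => h ⟨_, e, by simpa using k⟩
  by_cases k : a ∈ L
  · rw [ind_mem k, ind_mem (h1.1 k)]
  · rw [ind_not k, ind_not fun k' => k (h1.2 k')]

theorem mem_mul {a b : G} (ha : a ∈ Φ) (e : a⁻¹ * b ∈ S) : b ∈ Φ * (S : Set G) :=
  ⟨a, ha, _, e, by simp⟩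

theorem Par.add (h : Par p q w r) (h' : Par p q w' r') :
    Par p q (fun e => w e + w' e) (r + r') := by
  obtain ⟨F, h1, h2⟩ := h
  obtain ⟨F', h1', h2'⟩ := h'
  refine ⟨fun x => F x + F' x, (h1.union h1').subset fun e he => ?_,
    (h2.and h2').mono fun n hn => by rw [← hn.1, ← hn.2]; ring⟩
  by_contra k
  simp only [Set.mem_union, Set.mem_ofPred_eq, not_or, not_and, not_not] at k
  refine he.2 ?_
  beta_reduce
  rw [k.1 he.1, k.2 he.1]
  unfold d0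
  ring

theorem Par.union (hd : Disjoint P Q) (h : Par p q (ww L P) 0) (h' : Par p q (ww L Q) 0) :
    Par p q (ww L (P ∪ Q)) 0 := by
  have := h.add h'
  rw [add_zero] at this
  rwa [show ww L (P ∪ Q) = fun e => ww L P e + ww L Q e from funext (ww_union hd)]

theorem Par.unique (hc : Coh S C) (h : Par p q w r) (h' : Par p q w r') : r' = r := by
  obtain ⟨F, h1, h2⟩ := h.add h'
  have h3 := hc.c1 F (h1.subset fun e he => ⟨he.1, fun k => he.2 (k.symm.trans (z_self _))⟩)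
  have key : ∀ a : ZMod 2, {x | F x ≠ a}.Finite → r' = r := fun a ha => by
    obtain ⟨n, ⟨k1, k2⟩, k3⟩ := (((p.notMem ha).and (q.notMem ha)).and h2).exists
    rw [not_not.1 k1, not_not.1 k2, z_self] at k3
    exact z_eq _ _ k3.symm
  exact h3.elim (key 0) (key 1)

theorem par_finite (h : Q.Finite) : Par p q (ww L Q) 0 := by
  refine ⟨fun _ => 0, (h.prod (h.mul S.finite_toSet)).subset fun e he => ?_,
    Eventually.of_forall fun _ => add_zero _⟩
  have h1 : e.1 ∈ Q := by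
    by_contra k
    exact he.2 ((ww_not k).trans (add_zero _).symm)
  exact ⟨h1, mem_mul h1 he.1⟩

theorem par_bdy (hp : ∀ᶠ n in atTop, p.z n ∈ L \ Bdy S L)
    (hq : ∀ᶠ n in atTop, q.z n ∈ Lᶜ \ Bdy S L) : Par p q (ww L (Bdy S L)) 1 := by
  refine ⟨ind L, Set.finite_empty.subset fun e he => he.2 ?_,
    (hp.and hq).mono fun n hn => by
      rw [ind_mem hn.1.1, ind_not (Set.notMem_of_mem_compl hn.2.1), add_zero]⟩
  by_cases h : e.1 ∈ Bdy S L
  · rw [ww, ind_mem h, one_mul]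
  · rw [ww_not h, d0, ind_eq he.1 h, z_self]

theorem z_tri : ∀ x a b c : ZMod 2, x * (b + c) + x * (a + c) + x * (a + b) = 0 := by decide

theorem z_tri1 : ∀ x y a : ZMod 2, y * (a + a) + x * (a + a) + x * (a + a) = 0 := by decide

theorem z_tri2 : ∀ x y a b : ZMod 2, y * (b + b) + x * (a + b) + x * (a + b) = 0 := by decide

theorem d1_zero {t : G × G × G} (ht : Tri S t)
    (h : t.1 ∈ Bdy S L → t.2.1 ∈ Bdy S L → (t.1 ∈ Q ↔ t.2.1 ∈ Q)) : d1 (ww L Q) t = 0 := by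
  obtain ⟨a, b, c⟩ := t
  unfold d1 ww d0
  by_cases k1 : a ∈ Bdy S L
  · by_cases k2 : b ∈ Bdy S L
    · have : ind Q b = ind Q a := by
        by_cases k : a ∈ Q
        · rw [ind_mem k, ind_mem ((h k1 k2).1 k)]
        · rw [ind_not k, ind_not fun k' => k ((h k1 k2).2 k')]
      rw [this]
      exact z_tri _ _ _ _
    · rw [ind_eq (b := c) ht.2.2 k2]
      exact z_tri2 _ _ _ _
  · rw [ind_eq (b := c) ht.2.1 k1, ind_eq (b := b) ht.1 k1]
    exact z_tri1 _ _ _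

theorem Cl.iff {A : Set G} (hS : Gen S) (h : Cl S A Q) {a b : G} (ha : a ∈ A) (hb : b ∈ A)
    (e : a⁻¹ * b ∈ S) : a ∈ Q ↔ b ∈ Q :=
  ⟨fun k => h.2 a k b hb e, fun k => h.2 b k a ha (hS.symm e)⟩

theorem tri_mem (hS : Gen S) {t : G × G × G} (ht : Tri S t) (h : ¬ (t.1 ∉ Φ ∧ t.2.1 ∉ Φ)) :
    t.1 ∈ Φ * (S : Set G) ∧ t.2.1 ∈ Φ * (S : Set G) := by
  by_cases k : t.1 ∈ Φ
  · exact ⟨mem_mul k (by simpa using hS.one), mem_mul k ht.1⟩
  · have k' : t.2.1 ∈ Φ := by_contra fun k' => h ⟨k, k'⟩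
    exact ⟨mem_mul k' (hS.symm ht.1), mem_mul k' (by simpa using hS.one)⟩

theorem Cl.d1 (hS : Gen S) (h : Cl S (Bdy S L \ Φ) Q) {t : G × G × G} (ht : Tri S t)
    (k : t.1 ∉ Φ ∧ t.2.1 ∉ Φ) : d1 (ww L Q) t = 0 :=
  d1_zero ht fun h1 h2 => h.iff hS ⟨h1, k.1⟩ ⟨h2, k.2⟩ ht.1

theorem const_of {F : G → ZMod 2} {A : Set G} {x y : G} (h : Conn S A x y)
    (hF : ∀ e, Edge S e → e.1 ∈ A → d0 F e = 0) : F y = F x :=
  h.const fun a ha b _ e => z_eq _ _ (hF (a, b) e ha)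

theorem ev_const {F : G → ZMod 2} {A : Set G} (m : Pt S u) (h : ∀ᶠ n in atTop, m.z n ∈ A)
    (hF : ∀ e, Edge S e → e.1 ∈ A → d0 F e = 0) : ∃ a, ∀ᶠ n in atTop, F (m.z n) = a := by
  obtain ⟨k, hk⟩ := m.conn h
  exact ⟨_, (eventually_ge_atTop k).mono fun n hn => const_of (hk n hn) hF⟩

theorem off {F : G → ZMod 2} (e : G × G) (he : Edge S e)
    (h : e.1 ∈ Qᶜ \ Prod.fst '' {e | Edge S e ∧ ww L Q e ≠ d0 F e}) : d0 F e = 0 := by
  by_contra k
  exact h.2 ⟨e, ⟨he, fun k' => k (k'.symm.trans (ww_not h.1))⟩, rfl⟩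

theorem Cl.par (hS : Gen S) (hc : Coh S C) (hΦ : Φ.Finite) (h : Cl S (Bdy S L \ Φ) Q)
    (hp : ∀ᶠ n in atTop, p.z n ∉ Bdy S L) (hq : ∀ᶠ n in atTop, q.z n ∉ Bdy S L) :
    ∃ r, Par p q (ww L Q) r := by
  have h1 := hΦ.mul S.finite_toSet
  have h2 := h1.mul S.finite_toSet
  obtain ⟨c, c1, c2, -⟩ := hc.c2 (ww L Q) ((h1.prod (h1.prod h2)).subset fun t ht => by
    have := tri_mem (Φ := Φ) hS ht.1 fun k => ht.2 (h.d1 hS ht.1 k)
    exact ⟨this.1, this.2, mem_mul this.1 ht.1.2.1⟩)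
  obtain ⟨F, hF⟩ := hc.c0 (fun e => ww L Q e + c e) fun t ht => by
    rw [← z_self (Hy.d1 c t)]
    nth_rewrite 1 [c2 t ht]
    unfold Hy.d1
    ring
  have h3 : {e | Edge S e ∧ ww L Q e ≠ d0 F e}.Finite := c1.subset fun e he =>
    ⟨he.1, fun k => he.2 (by rw [← hF e he.1, k, add_zero])⟩
  have key : ∀ m : Pt S u, (∀ᶠ n in atTop, m.z n ∉ Bdy S L) →
      ∃ a, ∀ᶠ n in atTop, F (m.z n) = a := fun m hm =>
    ev_const m (A := Qᶜ \ Prod.fst '' {e | Edge S e ∧ ww L Q e ≠ d0 F e})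
      ((hm.and (m.notMem (h3.image Prod.fst))).mono fun n hn =>
        ⟨fun k => hn.1 (h.1 k).1, hn.2⟩) off
  obtain ⟨a, ha⟩ := key p hp
  obtain ⟨b, hb⟩ := key q hq
  exact ⟨a + b, F, h3, (ha.and hb).mono fun n hn => by rw [hn.1, hn.2]⟩

theorem cl_comp (A : Set G) (x : G) : Cl S A {y | Conn S A x y} :=
  ⟨fun _ h => Conn.right h, fun _ ha _ hb e => Conn.tail ha hb e⟩

theorem par_biUnion (hS : Gen S) {A Z : Set G} (hZ : Z.Finite)
    (h : ∀ x ∈ Z, Par p q (ww L {y | Conn S A x y}) 0) :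
    Par p q (ww L (⋃ x ∈ Z, {y | Conn S A x y})) 0 := by
  induction Z, hZ using Set.Finite.induction_on with
  | empty => exact par_finite (by simp)
  | @insert x Z _ _ ih =>
    have ih := ih fun y hy => h y (Set.mem_insert_of_mem _ hy)
    rw [Set.biUnion_insert]
    by_cases hx : x ∈ ⋃ x ∈ Z, {y | Conn S A x y}
    · rw [Set.union_eq_self_of_subset_left]
      · exact ih
      · obtain ⟨x', h1, h2⟩ := Set.mem_iUnion₂.1 hx
        exact fun y hy => Set.mem_iUnion₂.2 ⟨x', h1, Conn.trans h2 hy⟩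
    · refine Par.union (Set.disjoint_left.2 fun y hy hy' => hx ?_) (h x (Set.mem_insert _ _)) ih
      obtain ⟨x', h1, h2⟩ := Set.mem_iUnion₂.1 hy'
      exact Set.mem_iUnion₂.2 ⟨x', h1, Conn.trans h2 (Conn.symm hS hy)⟩

theorem exists_path (hS : Gen S) {A : Set G} (hp : ∀ᶠ n in atTop, p.z n ∉ A)
    (hq : ∀ᶠ n in atTop, q.z n ∉ A) :
    ∃ B : Set G, B.Finite ∧ ∀ᶠ n in atTop, Conn S (Aᶜ ∪ B) (p.z n) (q.z n) := by
  obtain ⟨k, hk⟩ := p.conn (A := Aᶜ) hp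
  obtain ⟨k', hk'⟩ := q.conn (A := Aᶜ) hq
  obtain ⟨B, -, h1, h2⟩ := (hS.conn_univ (p.z k) (q.z k')).finite
  refine ⟨B, h1, ((eventually_ge_atTop k).and (eventually_ge_atTop k')).mono fun n hn => ?_⟩
  exact ((((hk n hn.1).symm hS).mono Set.subset_union_left).trans
    (h2.mono Set.subset_union_right)).trans ((hk' n hn.2).mono Set.subset_union_left)

theorem par_far (hS : Gen S) (hc : Coh S C) (h : Cl S (Bdy S L \ Φ) Q) {B : Set G}
    (hB : ∀ᶠ n in atTop, Conn S ((Bdy S L)ᶜ ∪ B) (p.z n) (q.z n))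
    (h1 : ∀ x ∈ B ∪ Φ * (S : Set G), x ∉ Q) : Par p q (ww L Q) 0 := by
  obtain ⟨F, hF⟩ := hc.c0 (ww L Q) fun t ht => by
    by_cases k : t.1 ∉ Φ ∧ t.2.1 ∉ Φ
    · exact h.d1 hS ht k
    · have := tri_mem hS ht k
      exact d1_zero ht fun _ _ => iff_of_false (h1 _ (Or.inr this.1)) (h1 _ (Or.inr this.2))
  refine ⟨F, Set.finite_empty.subset fun e he => he.2 (hF e he.1), hB.mono fun n hn => ?_⟩
  rw [const_of hn fun e he k => (hF e he).symm.trans (ww_not fun k' =>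
    k.elim (fun k => k (h.1 k').1) fun k => h1 _ (Or.inl k) k'), z_self]

theorem step (hS : Gen S) (hc : Coh S C) (hp : ∀ᶠ n in atTop, p.z n ∉ Bdy S L)
    (hq : ∀ᶠ n in atTop, q.z n ∉ Bdy S L) (hΦ : Φ'.Finite) (hs : Φ ⊆ Φ')
    (h : Cl S (Bdy S L \ Φ) Q) (h1 : Par p q (ww L Q) 1) :
    ∃ x ∈ Bdy S L \ Φ', {y | Conn S (Bdy S L \ Φ') x y} ⊆ Q ∧
      Par p q (ww L {y | Conn S (Bdy S L \ Φ') x y}) 1 := by
  have hsub : ∀ x ∈ Q, {y | Conn S (Bdy S L \ Φ') x y} ⊆ Q := fun x hx y hy =>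
    Conn.ind (P := fun y => y ∈ Q) hy hx fun a b _ hb e ha =>
      h.2 a ha b ⟨hb.1, fun k => hb.2 (hs k)⟩ e
  by_contra hne
  have h2 : ∀ x ∈ Q \ Φ', Par p q (ww L {y | Conn S (Bdy S L \ Φ') x y}) 0 := fun x hx => by
    obtain ⟨r, hr⟩ := (cl_comp (Bdy S L \ Φ') x).par hS hc hΦ hp hq
    rcases z_dich r with rfl | rfl
    · exact hr
    · exact absurd ⟨x, ⟨(h.1 hx.1).1, hx.2⟩, hsub x hx.1, hr⟩ hne
  obtain ⟨B, hB, hB'⟩ := exists_path hS hp hq
  have hZ : ((B ∪ Φ' * (S : Set G)) ∩ (Q \ Φ')).Finite :=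
    (hB.union (hΦ.mul S.finite_toSet)).inter_of_left _
  have h3 := par_biUnion hS hZ fun x hx => h2 x hx.2
  set U := ⋃ x ∈ (B ∪ Φ' * (S : Set G)) ∩ (Q \ Φ'), {y | Conn S (Bdy S L \ Φ') x y} with hU
  have hUQ : U ⊆ Q \ Φ' := fun y hy => by
    obtain ⟨x, k1, k2⟩ := Set.mem_iUnion₂.1 hy
    exact ⟨hsub x k1.2.1 k2, (Conn.right k2).2⟩
  have h4 : Par p q (ww L ((Q \ Φ') \ U)) 0 := by
    refine par_far (Φ := Φ') hS hc ⟨fun y hy => ⟨(h.1 hy.1.1).1, hy.1.2⟩, fun a ha b hb e =>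
      ⟨⟨h.2 a ha.1.1 b ⟨hb.1, fun k => hb.2 (hs k)⟩ e, hb.2⟩, fun k => ha.2 ?_⟩⟩ hB'
      fun x hx k => k.2 (Set.mem_iUnion₂.2 ⟨x, ⟨hx, k.1⟩, Conn.refl ⟨(h.1 k.1.1).1, k.1.2⟩⟩)
    obtain ⟨x, k1, k2⟩ := Set.mem_iUnion₂.1 k
    exact Set.mem_iUnion₂.2 ⟨x, k1, Conn.tail k2 ⟨(h.1 ha.1.1).1, ha.1.2⟩ (hS.symm e)⟩
  have h5 := Par.union Set.disjoint_sdiff_right h3 h4
  rw [Set.union_sdiff_cancel hUQ] at h5
  have h6 := Par.union Set.disjoint_sdiff_inter h5 (par_finite (hΦ.inter_of_right Q))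
  rw [Set.sdiff_union_inter] at h6
  exact zero_ne_one (h1.unique hc h6)

omit [Group G] in
theorem exists_seq {R : ℕ → Set G → Prop} (h0 : ∃ Q, R 0 Q)
    (hs : ∀ k Q, R k Q → ∃ Q', R (k + 1) Q' ∧ Q' ⊆ Q) :
    ∃ Q : ℕ → Set G, Antitone Q ∧ ∀ k, R k (Q k) := by
  obtain ⟨Q0, h0⟩ := h0
  choose f hf using hs
  let g : ∀ k, {Q // R k Q} := fun k =>
    Nat.rec ⟨Q0, h0⟩ (fun k x => ⟨f k x.1 x.2, (hf k x.1 x.2).1⟩) k
  exact ⟨fun k => (g k).1, antitone_nat_of_succ_le fun k => (hf k (g k).1 (g k).2).2,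
    fun k => (g k).2⟩

end NestedL

open NestedL in
theorem nested_stmt : NestedStmt := by
  intro G _ S u C hS hc L p q hp hq Φ hΦ hm
  have hp' : ∀ᶠ n in atTop, p.z n ∉ Bdy S L := hp.mono fun _ h => h.2
  have hq' : ∀ᶠ n in atTop, q.z n ∉ Bdy S L := hq.mono fun _ h => h.2
  obtain ⟨Q, h1, h2⟩ := exists_seq (R := fun k Q => ∃ x ∈ Bdy S L \ Φ k,
      Q = {y | Conn S (Bdy S L \ Φ k) x y} ∧ Par p q (ww L Q) 1)
    (by
      obtain ⟨x, k1, -, k2⟩ := step (Φ := ∅) hS hc hp' hq' (hΦ 0) (Set.empty_subset _)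
        ⟨fun _ k => ⟨k, id⟩, fun _ _ _ k _ => k.1⟩ (par_bdy hp hq)
      exact ⟨_, x, k1, rfl, k2⟩)
    (by
      rintro k _ ⟨x, -, rfl, k2⟩
      obtain ⟨y, k3, k4, k5⟩ := step hS hc hp' hq' (hΦ (k + 1)) (hm (Nat.le_succ k))
        (cl_comp _ x) k2
      exact ⟨_, ⟨y, k3, rfl, k5⟩, k4⟩)
  refine ⟨Q, h1, fun k => ?_⟩
  obtain ⟨x, k1, k2, F, k3, k4⟩ := h2 k
  refine ⟨k2 ▸ (cl_comp _ x).1, ⟨x, k2 ▸ Conn.refl k1⟩, fun a ha b hb => ?_, _,
    k3.image Prod.fst, ?_⟩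
  · rw [k2] at ha hb ⊢
    exact ((Conn.comp ha).symm hS).trans (Conn.comp hb)
  · rintro ⟨y, e1, e2⟩
    obtain ⟨n, ⟨e3, e4⟩, e5⟩ := ((e1.and e2).and k4).exists
    rw [const_of e3 off, const_of e4 off, z_self] at e5
    exact zero_ne_one e5

end Pool.Agent.MP_4f4d9f_gt.Hy

end

section

/-! Consequences of the cohomological hypotheses for subsets of the group. -/

namespace Pool.Agent.MP_4f4d9f_gt.Ku

open Filter Topology Hy Hy.NestedL
open scoped Pointwise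

namespace CsL

variable {G : Type} [Group G] {S : Finset G} {L Q : Set G} {x y : G}

theorem z_cr : ∀ a b : ZMod 2, ¬ (a = 1 ↔ b = 1) ↔ a + b = 1 := by decide

theorem z_mul : ∀ a b : ZMod 2, a * b = 1 ↔ b = 1 ∧ a = 1 := by decide

theorem z_ne : ∀ a b : ZMod 2, a + b ≠ 1 → b = a := by decide

omit [Group G] in
theorem ind_one : ind L x = 1 ↔ x ∈ L :=
  ⟨fun h => by_contra fun k => zero_ne_one ((ind_not k).symm.trans h), ind_mem⟩

omit [Group G] in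
theorem cr_set (F : G → ZMod 2) : Cr {x | F x = 1} x y ↔ d0 F (x, y) = 1 := z_cr _ _

omit [Group G] in
theorem cr_ind : Cr L x y ↔ d0 (ind L) (x, y) = 1 := by
  rw [← cr_set]
  simp only [ind_one, Set.ofPred_mem_eq]

omit [Group G] in
theorem ww_one : ww L Q (x, y) = 1 ↔ Cr L x y ∧ x ∈ Q := by
  rw [ww, z_mul, ← cr_ind, ind_one]

theorem edge_mul {s : G} (hs : s ∈ S) (x : G) : Edge S (x, x * s) := by
  simpa [Edge] using hs

omit [Group G] in
theorem cr_of {F : G → ZMod 2} (h : ww L Q (x, y) = d0 F (x, y)) :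
    Cr {x | F x = 1} x y ↔ Cr L x y ∧ x ∈ Q := by
  rw [cr_set, ← h, ww_one]

theorem d1_ww {t : G × G × G} (ht : Tri S t)
    (h : t.1 ∈ Bdy S L → ∀ s ∈ S, t.1 * s ∈ Bdy S L → ¬ Cr Q t.1 (t.1 * s)) :
    d1 (ww L Q) t = 0 :=
  d1_zero ht fun h1 h2 => by
    have := h h1 _ ht.1 (by rwa [mul_inv_cancel_left])
    rw [mul_inv_cancel_left] at this
    exact not_not.1 this

theorem one (hc : CohQ S) (h : (Bdy S L).Finite) : L.Finite ∨ Lᶜ.Finite := by
  have h2 := hc.c1 (ind L) ((h.prod (h.mul S.finite_toSet)).subset fun e he => by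
    have h1 : e.1 ∈ Bdy S L := by
      by_contra k
      exact he.2 (by rw [d0, ind_eq he.1 k, z_self])
    exact ⟨h1, mem_mul h1 he.1⟩)
  refine h2.imp (fun h => h.subset fun x hx => ?_) fun h => h.subset fun x hx => ?_
  · rw [Set.mem_ofPred_eq, ind_mem hx]
    exact one_ne_zero
  · exact fun k => hx (ind_one.1 k)

theorem cut0 (hc : CohQ S)
    (h : ∀ x ∈ Bdy S L, ∀ s ∈ S, x * s ∈ Bdy S L → ¬ Cr Q x (x * s)) :
    ∃ F : G → ZMod 2, ∀ e, Edge S e → ww L Q e = d0 F e :=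
  hc.c0 _ fun t ht => d1_ww ht (h t.1)

theorem cut1 (hc : CohQ S)
    (h : {x | x ∈ Bdy S L ∧ ∃ s ∈ S, x * s ∈ Bdy S L ∧ Cr Q x (x * s)}.Finite) :
    ∃ F : Set G, {x | ∃ s ∈ S, ¬ (Cr F x (x * s) ↔ Cr L x (x * s) ∧ x ∈ Q)}.Finite := by
  have h1 := h.mul S.finite_toSet
  obtain ⟨M, hM⟩ := hc.c2 (sp2 S (d1 (ww L Q))).ncard
  obtain ⟨c, c1, c2, -⟩ := hM (ww L Q) ((h.prod (h1.prod h1)).subset fun t ht => by
    have : t.1 ∈ {x | x ∈ Bdy S L ∧ ∃ s ∈ S, x * s ∈ Bdy S L ∧ Cr Q x (x * s)} := by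
      by_contra k
      exact ht.2 (d1_ww ht.1 fun k1 s hs k2 k3 => k ⟨k1, s, hs, k2, k3⟩)
    exact ⟨this, mem_mul this ht.1.1, mem_mul this ht.1.2.1⟩) le_rfl
  obtain ⟨F, hF⟩ := hc.c0 (fun e => ww L Q e + c e) fun t ht => by
    rw [← z_self (d1 c t)]
    nth_rewrite 1 [c2 t ht]
    unfold d1
    ring
  refine ⟨{x | F x = 1}, (c1.image Prod.fst).subset ?_⟩
  rintro x ⟨s, hs, k⟩
  refine ⟨(x, x * s), ⟨edge_mul hs x, fun k' => k (cr_of ?_)⟩, rfl⟩
  rw [← hF _ (edge_mul hs x), k', add_zero]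

theorem comp_not_cr (hS : Gen S) {A : Set G} (h : Bdy S L ⊆ A) (u : G) :
    ∀ x ∈ Bdy S L, ∀ s ∈ S, x * s ∈ Bdy S L → ¬ Cr {v | Conn S A u v} x (x * s) :=
  fun _ h1 _ hs h2 => not_not.2 ((cl_comp A u).iff hS (h h1) (h h2) (by simpa using hs))

theorem prop_uc {a b c d p q r s : Prop} (e1 : ¬ (a ↔ b)) (e2 : ¬ (c ↔ d)) (e3 : ¬ (p ↔ q))
    (k1 : (a ↔ c) → (p ↔ r)) (k2 : (a ↔ d) → (p ↔ s)) (k3 : (b ↔ c) → (q ↔ r))
    (k4 : (b ↔ d) → (q ↔ s)) : ¬ (r ↔ s) := by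
  by_cases ha : a <;> by_cases hc : c <;> by_cases hr : r <;> simp_all

theorem uc (hS : Gen S) (hc : CohQ S) {A : Set G} (h1 : Cnn S A) (h2 : Cnn S Aᶜ) :
    Cnn S (Bdy S A) := by
  intro x hx y hy
  obtain ⟨F, hF⟩ := cut0 hc (comp_not_cr hS (subset_refl (Bdy S A)) x)
  have key : ∀ a, ∀ s ∈ S, Cr {x | F x = 1} a (a * s) ↔
      Cr A a (a * s) ∧ a ∈ {v | Conn S (Bdy S A) x v} := fun a s hs => cr_of (hF _ (edge_mul hs a))
  have k1 : ∀ a b, a ∈ A → b ∈ A → ¬ Cr {x | F x = 1} a b := fun a b ha hb =>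
    conn_not_cr (h1 a ha b hb) fun a ha s hs hb k => ((key a s hs).1 k).1 (iff_of_true ha hb)
  have k2 : ∀ a b, a ∉ A → b ∉ A → ¬ Cr {x | F x = 1} a b := fun a b ha hb =>
    conn_not_cr (h2 a ha b hb) fun a ha s hs hb k => ((key a s hs).1 k).1 (iff_of_false ha hb)
  have hx' := hx
  obtain ⟨s, hs, e1⟩ := hx'
  obtain ⟨s', hs', e2⟩ := hy
  have e3 := (key x s hs).2 ⟨e1, Conn.refl hx⟩
  refine ((key y s' hs').1 ?_).2
  have k : ∀ a b, (a ∈ A ↔ b ∈ A) → (F a = 1 ↔ F b = 1) := fun a b e => by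
    by_cases ha : a ∈ A
    · exact not_not.1 (k1 a b ha (e.1 ha))
    · exact not_not.1 (k2 a b ha fun hb => ha (e.2 hb))
  exact prop_uc e1 e2 e3 (k x y) (k x (y * s')) (k (x * s) y) (k (x * s) (y * s'))

theorem par (hS : Gen S) (hc : CohQ S) {A : Set G} (h : Bdy S L ⊆ A) (hxy : Cr L x y) :
    ∃ (x₀ : G) (F : Set G),
      (∀ u, ∀ s ∈ S, Cr F u (u * s) ↔ Cr L u (u * s) ∧ Conn S A x₀ u) ∧ Cr F x y := by
  classical
  obtain ⟨B, -, hB, hxy'⟩ := (hS.conn_univ x y).finite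
  have hF : ∀ Q : Set G, ∃ F : G → ZMod 2, (∃ u, Q = {v | Conn S A u v}) →
      ∀ e, Edge S e → ww L Q e = d0 F e := fun Q => by
    by_cases k : ∃ u, Q = {v | Conn S A u v}
    · obtain ⟨u, rfl⟩ := k
      obtain ⟨F, hF⟩ := cut0 hc (comp_not_cr hS h u)
      exact ⟨F, fun _ => hF⟩
    · exact ⟨0, fun k' => absurd k' k⟩
  choose F hF using hF
  set C : Finset (Set G) := hB.toFinset.image fun u => {v | Conn S A u v} with hC
  have hC1 : ∀ Q ∈ C, ∃ u, Q = {v | Conn S A u v} := fun Q hQ => by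
    obtain ⟨u, -, e⟩ := Finset.mem_image.1 hQ
    exact ⟨u, e.symm⟩
  have key := hxy'.const (F := fun z => ind L z + ∑ Q ∈ C, F Q z) fun a ha b _ e => by
    refine z_eq _ _ ?_
    have e1 : ∑ Q ∈ C, F Q a + ∑ Q ∈ C, F Q b = (∑ Q ∈ C, ind Q a) * (ind L a + ind L b) := by
      rw [← Finset.sum_add_distrib, Finset.sum_mul]
      exact Finset.sum_congr rfl fun Q hQ => (hF Q (hC1 Q hQ) (a, b) e).symm
    rw [add_add_add_comm, e1]
    by_cases k : a ∈ A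
    · have hm : {v | Conn S A a v} ∈ C := Finset.mem_image.2 ⟨a, hB.mem_toFinset.2 ha, rfl⟩
      have hm' : a ∈ {v | Conn S A a v} := Conn.refl k
      rw [Finset.sum_eq_single_of_mem _ hm, ind_mem hm', one_mul, z_self]
      intro Q hQ hne
      obtain ⟨u, rfl⟩ := hC1 Q hQ
      exact ind_not fun k' => hne (Set.ext fun v =>
        ⟨fun k2 => Conn.trans (Conn.symm hS k') k2, fun k2 => Conn.trans k' k2⟩)
    · rw [ind_eq e fun k' => k (h k'), z_self, mul_zero, add_zero]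
  by_contra hne
  have e2 : ∑ Q ∈ C, F Q y = ∑ Q ∈ C, F Q x := Finset.sum_congr rfl fun Q hQ => by
    obtain ⟨u, hu⟩ := hC1 Q hQ
    refine z_ne _ _ fun k => hne ⟨u, {z | F Q z = 1}, fun a s hs => ?_, (cr_set _).2 k⟩
    rw [cr_of (hF Q ⟨u, hu⟩ _ (edge_mul hs a)), hu]
    rfl
  rw [e2, add_left_inj] at key
  rw [cr_ind, d0, key, z_self] at hxy
  exact zero_ne_one hxy

end CsL

theorem cs_stmt : CsStmt := fun _ _ _ hS hc =>
  { gen := hS
    one := fun _ h => CsL.one hc h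
    cut0 := fun _ _ h => (CsL.cut0 hc h).elim fun F hF =>
      ⟨{x | F x = 1}, fun x _ hs => CsL.cr_of (hF _ (CsL.edge_mul hs x))⟩
    cut1 := fun _ _ h => CsL.cut1 hc h
    uc := fun _ h1 h2 => CsL.uc hS hc h1 h2
    par := fun _ _ h _ _ hxy => CsL.par hS hc h hxy }

end Pool.Agent.MP_4f4d9f_gt.Ku

end

section

/-! Consequences of the cohomological hypotheses for sets of vertices. -/

namespace Pool.Agent.MP_4f4d9f_gt.Rk

open Filter Topology Hy Ku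
open Hy.NestedL (ind ind_mem ind_not z_eq z_self z_tri z_tri1 z_tri2 cl_comp)
open Ku.CsL (z_cr z_mul z_ne ind_one prop_uc)

namespace CsL

variable {G Ω : Type} [Group G] [MulAction G Ω] {N : Net G Ω} {L : Set Ω} {Q : Set G} {x y : G}
  {ω : Ω}

variable (N) in
/-- The edges that cross `L` and start in `Q`. -/
noncomputable def ww (L : Set Ω) (Q : Set G) (e : G × Ω) : ZMod 2 := ind Q e.1 * d0 N (ind L) e

theorem cr_set (F : Ω → ZMod 2) : Cr {u | F u = 1} (x • N.o) ω ↔ d0 N F (x, ω) = 1 := z_cr _ _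

theorem cr_ind : Cr L (x • N.o) ω ↔ d0 N (ind L) (x, ω) = 1 := by
  rw [← cr_set]
  simp only [ind_one, Set.ofPred_mem_eq]

theorem ww_one : ww N L Q (x, ω) = 1 ↔ Cr L (x • N.o) ω ∧ x ∈ Q := by
  rw [ww, z_mul, ← cr_ind, ind_one]

theorem cr_of {F : Ω → ZMod 2} (h : ww N L Q (x, ω) = d0 N F (x, ω)) :
    Cr {u | F u = 1} (x • N.o) ω ↔ Cr L (x • N.o) ω ∧ x ∈ Q := by
  rw [cr_set, ← h, ww_one]

theorem ind_eq (e : Edge N (x, ω)) (h : x ∉ Bdy N L) : ind L ω = ind L (x • N.o) := by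
  obtain ⟨τ, hτ, rfl⟩ := edge_iff.1 e
  by_cases k : x • N.o ∈ L
  · rw [ind_mem k, ind_mem ((side_of_notMem h hτ).1 k)]
  · rw [ind_not k, ind_not fun k' => k ((side_of_notMem h hτ).2 k')]

theorem edge_gen (hM : Mod N) (e : x⁻¹ * y ∈ N.S) : Edge N (x, y • N.o) := edge_iff.2 (hM.edge e)

theorem d1_ww (hM : Mod N) {t : G × G × Ω} (ht : Tri N t)
    (h : t.1 ∈ Bdy N L → ∀ s ∈ N.S, t.1 * s ∈ Bdy N L → ¬ Cr Q t.1 (t.1 * s)) :
    d1 N (ww N L Q) t = 0 := by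
  obtain ⟨a, b, c⟩ := t
  unfold d1 ww d0
  by_cases k1 : a ∈ Bdy N L
  · by_cases k2 : b ∈ Bdy N L
    · have h1 := h k1 _ ht.1 (by rwa [mul_inv_cancel_left])
      rw [mul_inv_cancel_left] at h1
      have : ind Q b = ind Q a := by
        by_cases k : a ∈ Q
        · rw [ind_mem k, ind_mem ((not_not.1 h1).1 k)]
        · rw [ind_not k, ind_not fun k' => k ((not_not.1 h1).2 k')]
      rw [this]
      exact z_tri _ _ _ _
    · rw [ind_eq (x := b) (ω := c) ht.2.2 k2]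
      exact z_tri2 _ _ _ _
  · rw [ind_eq (x := a) (ω := c) ht.2.1 k1, ind_eq (x := a) (ω := b • N.o) (edge_gen hM ht.1) k1]
    exact z_tri1 _ _ _

theorem one (hc : RelQ N) (h : (Bdy N L).Finite) : (tr N L).Finite ∨ (tr N L)ᶜ.Finite := by
  have h2 := hc.c1 (ind L) ((edge_finite h).subset fun e he => ⟨he.1, by
    by_contra k
    exact he.2 (by rw [d0, ind_eq (x := e.1) (ω := e.2) he.1 k, z_self])⟩)
  refine h2.imp (fun h => h.subset fun x hx => ?_) fun h => h.subset fun x hx => ?_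
  · rw [Set.mem_ofPred_eq, ind_mem (mem_tr.1 hx)]
    exact one_ne_zero
  · exact fun k => hx (ind_one.1 k)

theorem cut0 (hM : Mod N) (hc : RelQ N)
    (h : ∀ x ∈ Bdy N L, ∀ s ∈ N.S, x * s ∈ Bdy N L → ¬ Cr Q x (x * s)) :
    ∃ F : Ω → ZMod 2, ∀ e, Edge N e → ww N L Q e = d0 N F e :=
  hc.c0 _ fun t ht => d1_ww hM ht (h t.1)

theorem cut1 (hM : Mod N) (hc : RelQ N)
    (h : {x | x ∈ Bdy N L ∧ ∃ s ∈ N.S, x * s ∈ Bdy N L ∧ Cr Q x (x * s)}.Finite) :
    ∃ F : Set Ω, {x : G | ∃ τ ∈ N.T,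
      ¬ (Cr F (x • N.o) (x • τ) ↔ Cr L (x • N.o) (x • τ) ∧ x ∈ Q)}.Finite := by
  obtain ⟨c, c1, c2⟩ := hc.c2 (ww N L Q) ((tri_finite h).subset fun t ht => ⟨ht.1, by
    by_contra k
    exact ht.2 (d1_ww hM ht.1 fun k1 s hs k2 k3 => k ⟨k1, s, hs, k2, k3⟩)⟩)
  obtain ⟨F, hF⟩ := hc.c0 (fun e => ww N L Q e + c e) fun t ht => by
    rw [← z_self (d1 N c t)]
    nth_rewrite 1 [c2 t ht]
    unfold d1
    ring
  refine ⟨{u | F u = 1}, (c1.image Prod.fst).subset ?_⟩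
  rintro x ⟨τ, hτ, k⟩
  refine ⟨(x, x • τ), ⟨edge_smul hτ x, fun k' => k (cr_of ?_)⟩, rfl⟩
  rw [← hF _ (edge_smul hτ x), k', add_zero]

theorem comp_not_cr (hM : Mod N) {A : Set G} (h : Bdy N L ⊆ A) (u : G) :
    ∀ x ∈ Bdy N L, ∀ s ∈ N.S, x * s ∈ Bdy N L → ¬ Cr {v | Conn N.S A u v} x (x * s) :=
  fun _ h1 _ hs h2 => not_not.2 ((cl_comp A u).iff hM.gen (h h1) (h h2) (by simpa using hs))

theorem uc (hM : Mod N) (hc : RelQ N) {A : Set Ω} (h1 : Cn N A) (h2 : Cn N Aᶜ) :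
    Cnn N.S (Bdy N A) := by
  intro x hx y hy
  obtain ⟨F, hF⟩ := cut0 hM hc (comp_not_cr hM (subset_refl (Bdy N A)) x)
  have key : ∀ a : G, ∀ τ ∈ N.T, Cr {u | F u = 1} (a • N.o) (a • τ) ↔
      Cr A (a • N.o) (a • τ) ∧ a ∈ {v | Conn N.S (Bdy N A) x v} :=
    fun a τ hτ => cr_of (hF _ (edge_smul hτ a))
  have k1 : ∀ a b, a ∈ A → b ∈ A → ¬ Cr {u | F u = 1} a b := fun a b ha hb =>
    (h1 a ha b hb).not_cr fun a τ hτ ha hb k => ((key a τ hτ).1 k).1 (iff_of_true ha hb)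
  have k2 : ∀ a b, a ∉ A → b ∉ A → ¬ Cr {u | F u = 1} a b := fun a b ha hb =>
    (h2 a ha b hb).not_cr fun a τ hτ ha hb k => ((key a τ hτ).1 k).1 (iff_of_false ha hb)
  have hx' := hx
  obtain ⟨s, hs, e1⟩ := hx'
  obtain ⟨s', hs', e2⟩ := hy
  have e3 := (key x s hs).2 ⟨e1, Conn.refl hx⟩
  refine ((key y s' hs').1 ?_).2
  have k : ∀ a b, (a ∈ A ↔ b ∈ A) → (F a = 1 ↔ F b = 1) := fun a b e => by
    by_cases ha : a ∈ A
    · exact not_not.1 (k1 a b ha (e.1 ha))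
    · exact not_not.1 (k2 a b ha fun hb => ha (e.2 hb))
  exact prop_uc e1 e2 e3 (k _ _) (k _ _) (k _ _) (k _ _)

theorem par (hM : Mod N) (hc : RelQ N) {A : Set G} (h : Bdy N L ⊆ A)
    (hxy : Cr L (x • N.o) (y • N.o)) :
    ∃ (x₀ : G) (F : Set Ω), (∀ u : G, ∀ τ ∈ N.T, Cr F (u • N.o) (u • τ) ↔
      Cr L (u • N.o) (u • τ) ∧ Conn N.S A x₀ u) ∧ Cr F (x • N.o) (y • N.o) := by
  classical
  have hS := hM.gen
  obtain ⟨B, -, hB, hxy'⟩ := (hS.conn_univ x y).finite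
  have hF : ∀ Q : Set G, ∃ F : Ω → ZMod 2, (∃ u, Q = {v | Conn N.S A u v}) →
      ∀ e, Edge N e → ww N L Q e = d0 N F e := fun Q => by
    by_cases k : ∃ u, Q = {v | Conn N.S A u v}
    · obtain ⟨u, rfl⟩ := k
      obtain ⟨F, hF⟩ := cut0 hM hc (comp_not_cr hM h u)
      exact ⟨F, fun _ => hF⟩
    · exact ⟨0, fun k' => absurd k' k⟩
  choose F hF using hF
  set C : Finset (Set G) := hB.toFinset.image fun u => {v | Conn N.S A u v} with hC
  have hC1 : ∀ Q ∈ C, ∃ u, Q = {v | Conn N.S A u v} := fun Q hQ => by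
    obtain ⟨u, -, e⟩ := Finset.mem_image.1 hQ
    exact ⟨u, e.symm⟩
  have key := hxy'.const (F := fun z => ind L (z • N.o) + ∑ Q ∈ C, F Q (z • N.o))
    fun a ha b _ e => by
    refine z_eq _ _ ?_
    have e1 : ∑ Q ∈ C, F Q (a • N.o) + ∑ Q ∈ C, F Q (b • N.o) =
        (∑ Q ∈ C, ind Q a) * (ind L (a • N.o) + ind L (b • N.o)) := by
      rw [← Finset.sum_add_distrib, Finset.sum_mul]
      exact Finset.sum_congr rfl fun Q hQ =>
        (hF Q (hC1 Q hQ) (a, b • N.o) (edge_gen hM e)).symm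
    rw [add_add_add_comm, e1]
    by_cases k : a ∈ A
    · have hm : {v | Conn N.S A a v} ∈ C := Finset.mem_image.2 ⟨a, hB.mem_toFinset.2 ha, rfl⟩
      have hm' : a ∈ {v | Conn N.S A a v} := Conn.refl k
      rw [Finset.sum_eq_single_of_mem _ hm, ind_mem hm', one_mul, z_self]
      intro Q hQ hne
      obtain ⟨u, rfl⟩ := hC1 Q hQ
      exact ind_not fun k' => hne (Set.ext fun v =>
        ⟨fun k2 => Conn.trans (Conn.symm hS k') k2, fun k2 => Conn.trans k' k2⟩)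
    · rw [ind_eq (edge_gen hM e) fun k' => k (h k'), z_self, mul_zero, add_zero]
  by_contra hne
  have e2 : ∑ Q ∈ C, F Q (y • N.o) = ∑ Q ∈ C, F Q (x • N.o) := Finset.sum_congr rfl fun Q hQ => by
    obtain ⟨u, hu⟩ := hC1 Q hQ
    refine z_ne _ _ fun k => hne ⟨u, {z | F Q z = 1}, fun a τ hτ => ?_, (cr_set _).2 k⟩
    rw [cr_of (hF Q ⟨u, hu⟩ _ (edge_smul hτ a)), hu]
    rfl
  rw [e2, add_left_inj] at key
  rw [cr_ind, d0, key, z_self] at hxy
  exact zero_ne_one hxy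

end CsL

theorem cs_stmt : CsStmt := fun _ _ _ _ _ hM hc =>
  { md := hM
    one := fun _ h => CsL.one hc h
    cut0 := fun _ _ h => (CsL.cut0 hM hc h).elim fun F hF =>
      ⟨{u | F u = 1}, fun x _ hτ => CsL.cr_of (hF _ (edge_smul hτ x))⟩
    cut1 := fun _ _ h => CsL.cut1 hM hc h
    uc := fun _ h1 h2 => CsL.uc hM hc h1 h2
    par := fun _ _ h _ _ hxy => CsL.par hM hc h hxy }

end Pool.Agent.MP_4f4d9f_gt.Rk

end

section

/-! Nested components of the boundary of a set of vertices which separate two rays. -/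

namespace Pool.Agent.MP_4f4d9f_gt.Rk

open Filter Topology Hy Ku
open scoped Pointwise

namespace NstL

open NestedL (ind ind_mem ind_not z_eq z_self z_dich z_tri z_tri1 z_tri2 mem_mul cl_comp
  exists_path exists_seq)

variable {G Ω : Type} [Group G] [MulAction G Ω] {N : Net G Ω} {u : G → ℝ} {p q : Pt N.S u}
  {L : Set Ω} {P Q Φ Φ' : Set G} {w w' : G × Ω → ZMod 2} {r r' : ZMod 2}

/-- The edges that cross `L` and start in `Q`. -/
noncomputable def ww (N : Net G Ω) (L : Set Ω) (Q : Set G) (e : G × Ω) : ZMod 2 :=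
  ind Q e.1 * d0 N (ind L) e

/-- The parity of a cochain which is almost a coboundary. -/
def Par (N : Net G Ω) (p q : Pt N.S u) (w : G × Ω → ZMod 2) (r : ZMod 2) : Prop :=
  ∃ F : Ω → ZMod 2, {e | Edge N e ∧ w e ≠ d0 N F e}.Finite ∧
    ∀ᶠ n in atTop, F (p.z n • N.o) + F (q.z n • N.o) = r

theorem ww_not {e : G × Ω} (h : e.1 ∉ Q) : ww N L Q e = 0 := by rw [ww, ind_not h, zero_mul]

theorem ww_union (h : Disjoint P Q) (e : G × Ω) :
    ww N L (P ∪ Q) e = ww N L P e + ww N L Q e := by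
  unfold ww
  rw [← add_mul]
  congr 1
  by_cases h2 : e.1 ∈ P
  · rw [ind_mem h2, ind_not (Set.disjoint_left.1 h h2), ind_mem (Set.mem_union_left _ h2),
      add_zero]
  · by_cases h3 : e.1 ∈ Q
    · rw [ind_not h2, ind_mem h3, ind_mem (Set.mem_union_right _ h3), zero_add]
    · rw [ind_not h2, ind_not h3, ind_not (fun k => k.elim h2 h3), add_zero]

theorem ind_eq {a : G} {b : Ω} (e : a⁻¹ • b ∈ N.T) (h : a ∉ Bdy N L) :
    ind L b = ind L (a • N.o) := by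
  have h1 : a • N.o ∈ L ↔ b ∈ L := by simpa using side_of_notMem h e
  by_cases k : a • N.o ∈ L
  · rw [ind_mem k, ind_mem (h1.1 k)]
  · rw [ind_not k, ind_not fun k' => k (h1.2 k')]

theorem edge_of (hN : Mod N) {a b : G} (e : a⁻¹ * b ∈ N.S) : a⁻¹ • b • N.o ∈ N.T := by
  rw [← mul_smul]
  exact hN.sub _ e

theorem Par.add (h : Par N p q w r) (h' : Par N p q w' r') :
    Par N p q (fun e => w e + w' e) (r + r') := by
  obtain ⟨F, h1, h2⟩ := h
  obtain ⟨F', h1', h2'⟩ := h'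
  refine ⟨fun x => F x + F' x, (h1.union h1').subset fun e he => ?_,
    (h2.and h2').mono fun n hn => by rw [← hn.1, ← hn.2]; ring⟩
  by_contra k
  simp only [Set.mem_union, Set.mem_ofPred_eq, not_or, not_and, not_not] at k
  refine he.2 ?_
  beta_reduce
  rw [k.1 he.1, k.2 he.1]
  unfold d0
  ring

theorem Par.union (hd : Disjoint P Q) (h : Par N p q (ww N L P) 0) (h' : Par N p q (ww N L Q) 0) :
    Par N p q (ww N L (P ∪ Q)) 0 := by
  have := h.add h'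
  rw [add_zero] at this
  rwa [show ww N L (P ∪ Q) = fun e => ww N L P e + ww N L Q e from funext (ww_union hd)]

theorem uniq (hc : RelQ N) (h : Par N p q w r) (h' : Par N p q w r') : r' = r := by
  obtain ⟨F, h1, h2⟩ := h.add h'
  have h3 := hc.c1 F (h1.subset fun e he => ⟨he.1, fun k => he.2 (k.symm.trans (z_self _))⟩)
  have key : ∀ a : ZMod 2, {x : G | F (x • N.o) ≠ a}.Finite → r' = r := fun a ha => by
    obtain ⟨n, ⟨k1, k2⟩, k3⟩ := (((p.notMem ha).and (q.notMem ha)).and h2).exists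
    rw [not_not.1 k1, not_not.1 k2, z_self] at k3
    exact z_eq _ _ k3.symm
  exact h3.elim (key 0) (key 1)

theorem par_finite (h : Q.Finite) : Par N p q (ww N L Q) 0 := by
  refine ⟨fun _ => 0, (edge_finite (N := N) h).subset fun e he => ?_,
    Eventually.of_forall fun _ => add_zero _⟩
  have h1 : e.1 ∈ Q := by
    by_contra k
    exact he.2 ((ww_not k).trans (add_zero _).symm)
  exact ⟨he.1, h1⟩

theorem par_bdy (hp : ∀ᶠ n in atTop, p.z n ∈ tr N L \ Bdy N L)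
    (hq : ∀ᶠ n in atTop, q.z n ∈ (tr N L)ᶜ \ Bdy N L) : Par N p q (ww N L (Bdy N L)) 1 := by
  refine ⟨ind L, Set.finite_empty.subset fun e he => he.2 ?_,
    (hp.and hq).mono fun n hn => by
      rw [ind_mem (Q := L) hn.1.1, ind_not (Q := L) (Set.notMem_of_mem_compl hn.2.1), add_zero]⟩
  by_cases h : e.1 ∈ Bdy N L
  · rw [ww, ind_mem h, one_mul]
  · rw [ww_not h, d0, ind_eq he.1 h, z_self]

theorem d1_zero (hN : Mod N) {t : G × G × Ω} (ht : Tri N t)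
    (h : t.1 ∈ Bdy N L → t.2.1 ∈ Bdy N L → (t.1 ∈ Q ↔ t.2.1 ∈ Q)) : d1 N (ww N L Q) t = 0 := by
  obtain ⟨a, b, c⟩ := t
  unfold d1 ww d0
  by_cases k1 : a ∈ Bdy N L
  · by_cases k2 : b ∈ Bdy N L
    · have : ind Q b = ind Q a := by
        by_cases k : a ∈ Q
        · rw [ind_mem k, ind_mem ((h k1 k2).1 k)]
        · rw [ind_not k, ind_not fun k' => k ((h k1 k2).2 k')]
      rw [this]
      exact z_tri _ _ _ _
    · rw [ind_eq (b := c) ht.2.2 k2]
      exact z_tri2 _ _ _ _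
  · rw [ind_eq (b := c) ht.2.1 k1, ind_eq (b := b • N.o) (edge_of hN ht.1) k1]
    exact z_tri1 _ _ _

theorem tri_mem (hS : Gen N.S) {t : G × G × Ω} (ht : Tri N t) (h : ¬ (t.1 ∉ Φ ∧ t.2.1 ∉ Φ)) :
    t.1 ∈ Φ * (N.S : Set G) ∧ t.2.1 ∈ Φ * (N.S : Set G) := by
  by_cases k : t.1 ∈ Φ
  · exact ⟨mem_mul k (by simpa using hS.one), mem_mul k ht.1⟩
  · have k' : t.2.1 ∈ Φ := by_contra fun k' => h ⟨k, k'⟩
    exact ⟨mem_mul k' (hS.symm ht.1), mem_mul k' (by simpa using hS.one)⟩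

theorem cl_d1 (hN : Mod N) (h : NestedL.Cl N.S (Bdy N L \ Φ) Q) {t : G × G × Ω} (ht : Tri N t)
    (k : t.1 ∉ Φ ∧ t.2.1 ∉ Φ) : d1 N (ww N L Q) t = 0 :=
  d1_zero hN ht fun h1 h2 => h.iff hN.gen ⟨h1, k.1⟩ ⟨h2, k.2⟩ ht.1

theorem const_of (hN : Mod N) {F : Ω → ZMod 2} {A : Set G} {x y : G} (h : Conn N.S A x y)
    (hF : ∀ e, Edge N e → e.1 ∈ A → d0 N F e = 0) : F (y • N.o) = F (x • N.o) :=
  h.const (F := fun x => F (x • N.o)) fun a ha b _ e =>
    z_eq _ _ (hF (a, b • N.o) (edge_of hN e) ha)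

theorem ev_const (hN : Mod N) {F : Ω → ZMod 2} {A : Set G} (m : Pt N.S u)
    (h : ∀ᶠ n in atTop, m.z n ∈ A) (hF : ∀ e, Edge N e → e.1 ∈ A → d0 N F e = 0) :
    ∃ a, ∀ᶠ n in atTop, F (m.z n • N.o) = a := by
  obtain ⟨k, hk⟩ := m.conn h
  exact ⟨_, (eventually_ge_atTop k).mono fun n hn => const_of hN (hk n hn) hF⟩

theorem off {F : Ω → ZMod 2} (e : G × Ω) (he : Edge N e)
    (h : e.1 ∈ Qᶜ \ Prod.fst '' {e | Edge N e ∧ ww N L Q e ≠ d0 N F e}) : d0 N F e = 0 := by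
  by_contra k
  exact h.2 ⟨e, ⟨he, fun k' => k (k'.symm.trans (ww_not h.1))⟩, rfl⟩

theorem cl_par (hN : Mod N) (hc : RelQ N) (hΦ : Φ.Finite) (h : NestedL.Cl N.S (Bdy N L \ Φ) Q)
    (hp : ∀ᶠ n in atTop, p.z n ∉ Bdy N L) (hq : ∀ᶠ n in atTop, q.z n ∉ Bdy N L) :
    ∃ r, Par N p q (ww N L Q) r := by
  have h1 := hΦ.mul N.S.finite_toSet
  obtain ⟨c, c1, c2⟩ := hc.c2 (ww N L Q) ((tri_finite h1).subset fun t ht =>
    ⟨ht.1, (tri_mem (Φ := Φ) hN.gen ht.1 fun k => ht.2 (cl_d1 hN h ht.1 k)).1⟩)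
  obtain ⟨F, hF⟩ := hc.c0 (fun e => ww N L Q e + c e) fun t ht => by
    rw [← z_self (d1 N c t)]
    nth_rewrite 1 [c2 t ht]
    unfold d1
    ring
  have h3 : {e | Edge N e ∧ ww N L Q e ≠ d0 N F e}.Finite := c1.subset fun e he =>
    ⟨he.1, fun k => he.2 (by rw [← hF e he.1, k, add_zero])⟩
  have key : ∀ m : Pt N.S u, (∀ᶠ n in atTop, m.z n ∉ Bdy N L) →
      ∃ a, ∀ᶠ n in atTop, F (m.z n • N.o) = a := fun m hm =>
    ev_const hN m (A := Qᶜ \ Prod.fst '' {e | Edge N e ∧ ww N L Q e ≠ d0 N F e})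
      ((hm.and (m.notMem (h3.image Prod.fst))).mono fun n hn =>
        ⟨fun k => hn.1 (h.1 k).1, hn.2⟩) off
  obtain ⟨a, ha⟩ := key p hp
  obtain ⟨b, hb⟩ := key q hq
  exact ⟨a + b, F, h3, (ha.and hb).mono fun n hn => by rw [hn.1, hn.2]⟩

theorem par_biUnion (hS : Gen N.S) {A Z : Set G} (hZ : Z.Finite)
    (h : ∀ x ∈ Z, Par N p q (ww N L {y | Conn N.S A x y}) 0) :
    Par N p q (ww N L (⋃ x ∈ Z, {y | Conn N.S A x y})) 0 := by
  induction Z, hZ using Set.Finite.induction_on with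
  | empty => exact par_finite (by simp)
  | @insert x Z _ _ ih =>
    have ih := ih fun y hy => h y (Set.mem_insert_of_mem _ hy)
    rw [Set.biUnion_insert]
    by_cases hx : x ∈ ⋃ x ∈ Z, {y | Conn N.S A x y}
    · rw [Set.union_eq_self_of_subset_left]
      · exact ih
      · obtain ⟨x', h1, h2⟩ := Set.mem_iUnion₂.1 hx
        exact fun y hy => Set.mem_iUnion₂.2 ⟨x', h1, Conn.trans h2 hy⟩
    · refine Par.union (Set.disjoint_left.2 fun y hy hy' => hx ?_) (h x (Set.mem_insert _ _)) ih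
      obtain ⟨x', h1, h2⟩ := Set.mem_iUnion₂.1 hy'
      exact Set.mem_iUnion₂.2 ⟨x', h1, Conn.trans h2 (Conn.symm hS hy)⟩

theorem far (hN : Mod N) (hc : RelQ N) (h : NestedL.Cl N.S (Bdy N L \ Φ) Q) {B : Set G}
    (hB : ∀ᶠ n in atTop, Conn N.S ((Bdy N L)ᶜ ∪ B) (p.z n) (q.z n))
    (h1 : ∀ x ∈ B ∪ Φ * (N.S : Set G), x ∉ Q) : Par N p q (ww N L Q) 0 := by
  obtain ⟨F, hF⟩ := hc.c0 (ww N L Q) fun t ht => by
    by_cases k : t.1 ∉ Φ ∧ t.2.1 ∉ Φ
    · exact cl_d1 hN h ht k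
    · have := tri_mem hN.gen ht k
      exact d1_zero hN ht fun _ _ =>
        iff_of_false (h1 _ (Or.inr this.1)) (h1 _ (Or.inr this.2))
  refine ⟨F, Set.finite_empty.subset fun e he => he.2 (hF e he.1), hB.mono fun n hn => ?_⟩
  rw [const_of hN hn fun e he k => (hF e he).symm.trans (ww_not fun k' =>
    k.elim (fun k => k (h.1 k').1) fun k => h1 _ (Or.inl k) k'), z_self]

theorem nxt (hN : Mod N) (hc : RelQ N) (hp : ∀ᶠ n in atTop, p.z n ∉ Bdy N L)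
    (hq : ∀ᶠ n in atTop, q.z n ∉ Bdy N L) (hΦ : Φ'.Finite) (hs : Φ ⊆ Φ')
    (h : NestedL.Cl N.S (Bdy N L \ Φ) Q) (h1 : Par N p q (ww N L Q) 1) :
    ∃ x ∈ Bdy N L \ Φ', {y | Conn N.S (Bdy N L \ Φ') x y} ⊆ Q ∧
      Par N p q (ww N L {y | Conn N.S (Bdy N L \ Φ') x y}) 1 := by
  have hS := hN.gen
  have hsub : ∀ x ∈ Q, {y | Conn N.S (Bdy N L \ Φ') x y} ⊆ Q := fun x hx y hy =>
    Conn.ind (P := fun y => y ∈ Q) hy hx fun a b _ hb e ha =>
      h.2 a ha b ⟨hb.1, fun k => hb.2 (hs k)⟩ e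
  by_contra hne
  have h2 : ∀ x ∈ Q \ Φ', Par N p q (ww N L {y | Conn N.S (Bdy N L \ Φ') x y}) 0 :=
    fun x hx => by
    obtain ⟨r, hr⟩ := cl_par hN hc hΦ (cl_comp (Bdy N L \ Φ') x) hp hq
    rcases z_dich r with rfl | rfl
    · exact hr
    · exact absurd ⟨x, ⟨(h.1 hx.1).1, hx.2⟩, hsub x hx.1, hr⟩ hne
  obtain ⟨B, hB, hB'⟩ := exists_path hS hp hq
  have hZ : ((B ∪ Φ' * (N.S : Set G)) ∩ (Q \ Φ')).Finite :=
    (hB.union (hΦ.mul N.S.finite_toSet)).inter_of_left _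
  have h3 := par_biUnion hS hZ fun x hx => h2 x hx.2
  set U := ⋃ x ∈ (B ∪ Φ' * (N.S : Set G)) ∩ (Q \ Φ'), {y | Conn N.S (Bdy N L \ Φ') x y} with hU
  have hUQ : U ⊆ Q \ Φ' := fun y hy => by
    obtain ⟨x, k1, k2⟩ := Set.mem_iUnion₂.1 hy
    exact ⟨hsub x k1.2.1 k2, (Conn.right k2).2⟩
  have h4 : Par N p q (ww N L ((Q \ Φ') \ U)) 0 := by
    refine far (Φ := Φ') hN hc ⟨fun y hy => ⟨(h.1 hy.1.1).1, hy.1.2⟩, fun a ha b hb e =>
      ⟨⟨h.2 a ha.1.1 b ⟨hb.1, fun k => hb.2 (hs k)⟩ e, hb.2⟩, fun k => ha.2 ?_⟩⟩ hB'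
      fun x hx k => k.2 (Set.mem_iUnion₂.2 ⟨x, ⟨hx, k.1⟩, Conn.refl ⟨(h.1 k.1.1).1, k.1.2⟩⟩)
    obtain ⟨x, k1, k2⟩ := Set.mem_iUnion₂.1 k
    exact Set.mem_iUnion₂.2 ⟨x, k1, Conn.tail k2 ⟨(h.1 ha.1.1).1, ha.1.2⟩ (hS.symm e)⟩
  have h5 := Par.union Set.disjoint_sdiff_right h3 h4
  rw [Set.union_sdiff_cancel hUQ] at h5
  have h6 := Par.union Set.disjoint_sdiff_inter h5 (par_finite (hΦ.inter_of_right Q))
  rw [Set.sdiff_union_inter] at h6
  exact zero_ne_one (uniq hc h1 h6)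

theorem z_ne : ∀ a b c : ZMod 2, b + c = 0 → (b = a ↔ c = a) := by decide

theorem z_one : ∀ a b c : ZMod 2, b + c = 1 → b = a → ¬c = a := by decide

theorem sep (hN : Mod N) (hp : ∀ᶠ n in atTop, p.z n ∉ Q) (h : Par N p q (ww N L Q) 1) :
    ∃ F : Set Ω, (Bdy N F \ Q).Finite ∧ (∀ᶠ n in atTop, p.z n ∈ tr N F) ∧
      ∀ᶠ n in atTop, q.z n ∉ tr N F := by
  obtain ⟨F, h1, h2⟩ := h
  obtain ⟨a, ha⟩ := ev_const hN p
    (A := Qᶜ \ Prod.fst '' {e | Edge N e ∧ ww N L Q e ≠ d0 N F e})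
    (hp.and (p.notMem (h1.image Prod.fst))) off
  refine ⟨{x | F x = a}, (h1.image Prod.fst).subset ?_, ha,
    (h2.and ha).mono fun n hn => z_one a _ _ hn.1 hn.2⟩
  rintro x ⟨⟨s, hs, k⟩, hx⟩
  by_contra e
  exact k (z_ne a _ _ (off (L := L) (x, x • s) (edge_smul hs x) ⟨hx, e⟩))

end NstL

open NestedL (cl_comp exists_seq) in
open NstL in
theorem nst_stmt : NstStmt := by
  intro G Ω _ _ N hN hc L p₀ q₀ rp rq hp hq Φ hΦ hm
  let p : Pt N.S fun _ => 0 := ⟨p₀, rp.step, rp.esc, fun _ => 0, fun _ => tendsto_const_nhds⟩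
  let q : Pt N.S fun _ => 0 := ⟨q₀, rq.step, rq.esc, fun _ => 0, fun _ => tendsto_const_nhds⟩
  have hp' : ∀ᶠ n in atTop, p.z n ∉ Bdy N L := hp.mono fun _ h => h.2
  have hq' : ∀ᶠ n in atTop, q.z n ∉ Bdy N L := hq.mono fun _ h => h.2
  obtain ⟨Q, h1, h2⟩ := exists_seq (R := fun k Q => ∃ x ∈ Bdy N L \ Φ k,
      Q = {y | Conn N.S (Bdy N L \ Φ k) x y} ∧ Par N p q (ww N L Q) 1)
    (by
      obtain ⟨x, k1, -, k2⟩ := nxt (Φ := ∅) hN hc hp' hq' (hΦ 0) (Set.empty_subset _)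
        ⟨fun _ k => ⟨k, id⟩, fun _ _ _ k _ => k.1⟩ (par_bdy hp hq)
      exact ⟨_, x, k1, rfl, k2⟩)
    (by
      rintro k _ ⟨x, -, rfl, k2⟩
      obtain ⟨y, k3, k4, k5⟩ := nxt hN hc hp' hq' (hΦ (k + 1)) (hm (Nat.le_succ k))
        (cl_comp _ x) k2
      exact ⟨_, ⟨y, k3, rfl, k5⟩, k4⟩)
  refine ⟨Q, h1, fun k => ?_⟩
  obtain ⟨x, k1, k2, k3⟩ := h2 k
  have k4 : Q k ⊆ Bdy N L \ Φ k := k2 ▸ (cl_comp _ x).1
  exact ⟨k4, ⟨x, k2 ▸ Conn.refl k1⟩, k2 ▸ cnn_comp hN.gen _ x,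
    sep hN (hp'.mono fun n hn e => hn (k4 e).1) k3⟩

end Pool.Agent.MP_4f4d9f_gt.Rk

end

section

/-! Generic levels give cut points at infinity. -/

namespace Pool.Agent.MP_4f4d9f_gt.Hy

open Filter Topology

namespace CutPtL

variable {G : Type} [Group G] {S : Finset G}

/-- A walk of length `r` inside `A` that ends in `B`. -/
def Wk (S : Finset G) (A B : Set G) : ℕ → G → Prop
  | 0, x => x ∈ B
  | r + 1, x => x ∈ A ∧ ∃ y, x⁻¹ * y ∈ S ∧ Wk S A B r y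

theorem wk_of_conn {A B : Set G} {x y : G} (h : Conn S A x y) (hy : y ∈ B) :
    ∃ r, Wk S A B r x := by
  obtain ⟨hx, h⟩ := h
  induction h using Relation.ReflTransGen.head_induction_on with
  | refl => exact ⟨0, hy⟩
  | head h1 _ ih =>
    obtain ⟨r, hr⟩ := ih h1.1
    exact ⟨r + 1, hx, _, h1.2, hr⟩

theorem wk_mem {A B : Set G} (hBA : B ⊆ A) {r : ℕ} {x : G} (h : Wk S A B r x) : x ∈ A := by
  cases r with
  | zero => exact hBA h
  | succ r => exact h.1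

/-- A ray through a nested sequence of connected sets. -/
theorem ray (hS : Gen S) (Q : ℕ → Set G) (hQ : Antitone Q) (hne : ∀ k, (Q k).Nonempty)
    (hc : ∀ k, ∀ x ∈ Q k, ∀ y ∈ Q k, Conn S (Q k) x y) :
    ∃ z : ℕ → G, (∀ n, (z n)⁻¹ * z (n + 1) ∈ S) ∧ ∀ k, ∀ᶠ n in atTop, z n ∈ Q k := by
  have hw : ∀ k, ∀ x ∈ Q k, ∃ r, Wk S (Q k) (Q (k + 1)) r x := fun k x hx => by
    obtain ⟨y, hy⟩ := hne (k + 1)
    exact wk_of_conn (hc k x hx y (hQ (Nat.le_succ k) hy)) hy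
  have step : ∀ s : {s : ℕ × ℕ × G // Wk S (Q s.1) (Q (s.1 + 1)) s.2.1 s.2.2},
      ∃ s' : {s : ℕ × ℕ × G // Wk S (Q s.1) (Q (s.1 + 1)) s.2.1 s.2.2},
        s.1.2.2⁻¹ * s'.1.2.2 ∈ S ∧
          ((s'.1.1 = s.1.1 ∧ s'.1.2.1 < s.1.2.1) ∨ s'.1.1 = s.1.1 + 1) := by
    rintro ⟨⟨k, r, x⟩, h⟩
    cases r with
    | zero =>
      obtain ⟨r', hr'⟩ := hw (k + 1) x h
      exact ⟨⟨(k + 1, r', x), hr'⟩, by simpa using hS.one, Or.inr rfl⟩
    | succ r =>
      obtain ⟨-, y, h1, h2⟩ := h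
      exact ⟨⟨(k, r, y), h2⟩, h1, Or.inl ⟨rfl, Nat.lt_succ_self r⟩⟩
  choose nx h1 h2 using step
  obtain ⟨x0, hx0⟩ := hne 0
  obtain ⟨r0, hr0⟩ := hw 0 x0 hx0
  let s : ℕ → {s : ℕ × ℕ × G // Wk S (Q s.1) (Q (s.1 + 1)) s.2.1 s.2.2} :=
    fun n => nx^[n] ⟨(0, r0, x0), hr0⟩
  have hs : ∀ n, s (n + 1) = nx (s n) := fun n => Function.iterate_succ_apply' _ _ _
  have hmono : Monotone fun n => (s n).1.1 := monotone_nat_of_le_succ fun n => by
    rw [hs]
    rcases h2 (s n) with h | h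
    · exact h.1.ge
    · omega
  have hup : ∀ r n, (s n).1.2.1 ≤ r → ∃ n', (s n).1.1 < (s n').1.1 := by
    intro r
    induction r with
    | zero =>
      intro n hn
      refine ⟨n + 1, ?_⟩
      rw [hs]
      rcases h2 (s n) with h | h <;> omega
    | succ r ih =>
      intro n hn
      rcases h2 (s n) with h | h
      · rw [← hs] at h
        obtain ⟨n', hn'⟩ := ih (n + 1) (by omega)
        exact ⟨n', by omega⟩
      · exact ⟨n + 1, by rw [hs]; omega⟩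
  have hunb : ∀ k, ∃ n, k ≤ (s n).1.1 := by
    intro k
    induction k with
    | zero => exact ⟨0, Nat.zero_le _⟩
    | succ k ih =>
      obtain ⟨n, hn⟩ := ih
      obtain ⟨n', hn'⟩ := hup _ n le_rfl
      exact ⟨n', by omega⟩
  refine ⟨fun n => (s n).1.2.2, fun n => by simp only [hs]; exact h1 (s n), fun k => ?_⟩
  obtain ⟨n, hn⟩ := hunb k
  filter_upwards [eventually_ge_atTop n] with n' hn'
  exact hQ (hn.trans (hmono hn')) (wk_mem (hQ (Nat.le_succ _)) (s n').2)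

/-- The oscillation along a path. -/
theorem osc (hS : Gen S) (f : G → ℝ) {B : Set G} {x y : G} (h : Conn S B x y) :
    ∃ B0 : Finset G, (B0 : Set G) ⊆ B ∧ y ∈ B0 ∧
      ∀ c ∈ B0, |f c - f x| ≤ ∑ a ∈ B0, DD S f a := by
  classical
  refine h.ind (P := fun y => ∃ B0 : Finset G, (B0 : Set G) ⊆ B ∧ y ∈ B0 ∧
      ∀ c ∈ B0, |f c - f x| ≤ ∑ a ∈ B0, DD S f a) ⟨{x}, by simpa using h.1, by simp, ?_⟩ ?_
  · intro c hc
    rw [Finset.mem_singleton.1 hc, sub_self, abs_zero]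
    exact Finset.sum_nonneg fun a _ => dd_nonneg S f a
  · rintro a b - hb e ⟨B0, h1, h2, h3⟩
    by_cases hb0 : b ∈ B0
    · exact ⟨B0, h1, hb0, h3⟩
    refine ⟨insert b B0, by rw [Finset.coe_insert]; exact Set.insert_subset hb h1,
      Finset.mem_insert_self _ _, fun c hc => ?_⟩
    rw [Finset.sum_insert hb0]
    rcases Finset.mem_insert.1 hc with rfl | hc
    · have e1 := le_dd f c (hS.symm e)
      rw [mul_inv_cancel_left, abs_sub_comm] at e1
      exact (abs_sub_le (f c) (f a) (f x)).trans (add_le_add e1 (h3 a h2))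
    · exact (h3 c hc).trans (le_add_of_nonneg_left (dd_nonneg S f b))

theorem bdy_sub (u : G → ℝ) (t : ℝ) :
    Bdy S {x | t < u x} ⊆ {a | |u a - t| ≤ DD S u a} := by
  rintro a ⟨s, hs, h⟩
  have h1 := abs_le.1 (le_dd u a hs)
  simp only [Set.mem_ofPred_eq] at h ⊢
  rw [abs_le]
  by_cases h2 : t < u a
  · have h3 : ¬ t < u (a * s) := fun e => h ⟨fun _ => e, fun _ => h2⟩
    constructor <;> linarith [not_lt.1 h3]
  · have h3 : t < u (a * s) := by
      by_contra e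
      exact h ⟨fun e' => absurd e' h2, fun e' => absurd e' e⟩
    constructor <;> linarith [not_lt.1 h2]

theorem avoid {u : G → ℝ} (hu : Dir S u) (p : Pt S u) {t : ℝ} (h : p.val 1 ≠ t) :
    ∀ᶠ n in atTop, p.z n ∉ Bdy S {x | t < u x} := by
  have h1 : Tendsto (fun n => |u (p.z n) - t| - DD S u (p.z n)) atTop
      (𝓝 (|p.val 1 - t| - 0)) :=
    (((p.conv 1).congr fun n => by rw [one_mul]).sub_const t).abs.sub (p.tendsto_sq hu.dd)
  rw [sub_zero] at h1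
  filter_upwards [h1.eventually (lt_mem_nhds (abs_pos.2 (sub_ne_zero.2 h)))] with n hn hb
  have := bdy_sub u t hb
  simp only [Set.mem_ofPred_eq] at this
  linarith

end CutPtL

open CutPtL in
theorem cutPt_stmt (h : NestedStmt) : CutPtStmt := by
  intro G _ S u C hS hC hu hN p q t hq hp hsum
  haveI := hS.countable
  obtain ⟨e, he⟩ := exists_surjective_nat G
  let Φ : ℕ → Set G := fun k => e '' Set.Iio k
  have hΦ : ∀ F : Set G, F.Finite → ∀ᶠ k in atTop, F ⊆ Φ k := fun F hF =>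
    (eventually_all_finite hF).2 fun x _ => by
      obtain ⟨i, rfl⟩ := he x
      exact (eventually_gt_atTop i).mono fun k hk => ⟨i, hk, rfl⟩
  have hp1 : Tendsto (fun n => u (p.z n)) atTop (𝓝 (p.val 1)) :=
    (p.conv 1).congr fun n => by rw [one_mul]
  have hq1 : Tendsto (fun n => u (q.z n)) atTop (𝓝 (q.val 1)) :=
    (q.conv 1).congr fun n => by rw [one_mul]
  obtain ⟨Q, hQ, hk⟩ := h G S u C hS hC {x | t < u x} p q
    ((hp1.eventually (lt_mem_nhds hp)).and (avoid hu p hp.ne'))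
    (((hq1.eventually (gt_mem_nhds hq)).mono fun n hn => not_lt.2 hn.le).and (avoid hu q hq.ne))
    Φ (fun k => (Set.finite_Iio k).image e)
    fun k k' hkk => Set.image_mono (Set.Iio_subset_Iio hkk)
  obtain ⟨z, z1, z2⟩ := ray hS Q hQ (fun k => (hk k).2.1) fun k => (hk k).2.2.1
  have hosc : ∀ (g : G) (ε : ℝ), 0 < ε → ∀ᶠ k in atTop, ∀ x ∈ Q k, ∀ y ∈ Q k,
      |u (g * y) - u (g * x)| < ε := by
    intro g ε hε
    obtain ⟨s, hs⟩ := (hsum g).vanishing (Iio_mem_nhds hε)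
    filter_upwards [hΦ s s.finite_toSet] with k hk' x hx y hy
    obtain ⟨B0, b1, b2, b3⟩ := osc hS (fun x => u (g * x)) ((hk k).2.2.1 x hx y hy)
    have b4 := hs B0 (Finset.disjoint_left.2 fun a ha ha' => ((hk k).1 (b1 ha)).2 (hk' ha'))
    rw [Finset.sum_congr rfl fun a ha =>
      Set.indicator_of_mem (bdy_sub u t ((hk k).1 (b1 ha)).1) _] at b4
    exact (b3 y b2).trans_lt b4
  have hconv : ∀ g : G, ∃ v : ℝ, Tendsto (fun n => u (g * z n)) atTop (𝓝 v) := fun g => by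
    refine cauchySeq_tendsto_of_complete (Metric.cauchySeq_iff.2 fun ε hε => ?_)
    obtain ⟨k, hk'⟩ := (hosc g ε hε).exists
    obtain ⟨N, hN'⟩ := eventually_atTop.1 (z2 k)
    exact ⟨N, fun a ha b hb => hk' _ (hN' b hb) _ (hN' a ha)⟩
  choose val hval using hconv
  have hesc : Tendsto z atTop cofinite := fun F hF => by
    obtain ⟨k, hk'⟩ := (hΦ _ (mem_cofinite.1 hF)).exists
    refine mem_map.2 ((z2 k).mono fun n hn => ?_)
    by_contra hc
    exact ((hk k).1 hn).2 (hk' hc)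
  let m : Pt S u := ⟨z, z1, hesc, val, hval⟩
  have hm : m.val 1 = t := by
    have h1 : Tendsto (fun n => u (1 * z n)) atTop (𝓝 t) := by
      rw [tendsto_iff_norm_sub_tendsto_zero]
      refine squeeze_zero' (Eventually.of_forall fun _ => norm_nonneg _)
        ((z2 0).mono fun n hn => ?_) (m.tendsto_sq hu.dd)
      rw [one_mul]
      exact bdy_sub u t ((hk 0).1 hn).1
    exact tendsto_nhds_unique (hval 1) h1
  refine ⟨m, hm, fun e => ?_, fun e => ?_, ?_⟩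
  · rw [hN.val m p e, hm] at hp
    exact lt_irrefl _ hp
  · rw [hN.val m q e, hm] at hq
    exact lt_irrefl _ hq
  · rintro ⟨N, ⟨T, δ, Φ0, hδ, hΦ0, rfl⟩, hs⟩
    obtain ⟨k, k1, k2⟩ := (((eventually_all_finset T).2 fun g _ =>
      hosc g (δ / 2) (half_pos hδ)).and (hΦ Φ0 hΦ0)).exists
    have h1 : Q k ⊆ UU m T δ \ Φ0 := by
      intro x hx
      refine ⟨fun g hg => ?_, fun e => ((hk k).1 hx).2 (k2 e)⟩
      have h2 : |u (g * x) - val g| ≤ δ / 2 :=
        le_of_tendsto ((hval g).const_sub (u (g * x))).abs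
          ((z2 k).mono fun n hn => (k1 g hg _ hn x hx).le)
      exact h2.trans_lt (half_lt_self hδ)
    have h2 : Q k ⊆ NN m T δ Φ0 := fun x hx =>
      (z2 k).mono fun n hn => ((hk k).2.2.1 _ hn x hx).mono h1
    obtain ⟨Ψ, hΨ, h3⟩ := (hk k).2.2.2
    exact h3 ((hs Ψ hΨ).mono (Set.diff_subset_diff_left (Set.compl_subset_compl.2 h2)))

end Pool.Agent.MP_4f4d9f_gt.Hy

end

section

/-! The oscillation of a potential on a half space of another one. -/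

namespace Pool.Agent.MP_4f4d9f_gt.Ku

open Hy MeasureTheory

namespace OscL

theorem avg {ι : Type} [Countable ι] (c r w : ι → ℝ) (hr : ∀ a, 0 ≤ r a) (hw : ∀ a, 0 ≤ w a)
    {M t₁ t₂ : ℝ} (ht : t₁ < t₂) (hs : ∀ T : Finset ι, ∑ a ∈ T, w a * r a ≤ M) :
    ∃ t, t₁ < t ∧ t < t₂ ∧ (∀ a, c a ≠ t) ∧ ∀ T : Finset ι, (∀ a ∈ T, |c a - t| ≤ r a) →
      ∑ a ∈ T, w a ≤ 2 * M / (t₂ - t₁) := by
  have hM : 0 ≤ M := by simpa using hs ∅
  have ht' := sub_pos.2 ht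
  let F : ι → ℝ → ENNReal := fun a =>
    Set.indicator (Set.Icc (c a - r a) (c a + r a)) fun _ => ENNReal.ofReal (w a)
  have hF : ∀ a, Measurable (F a) := fun a => measurable_const.indicator measurableSet_Icc
  have hI : ∀ a, ∫⁻ t, F a t = ENNReal.ofReal (2 * (w a * r a)) := by
    intro a
    rw [lintegral_indicator_const measurableSet_Icc, Real.volume_Icc,
      ← ENNReal.ofReal_mul (hw a)]
    congr 1
    ring
  have hT : ∫⁻ t, ∑' a, F a t ≤ ENNReal.ofReal (2 * M) := by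
    rw [lintegral_tsum fun a => (hF a).aemeasurable, ENNReal.tsum_eq_iSup_sum]
    refine iSup_le fun T => ?_
    simp_rw [hI]
    rw [← ENNReal.ofReal_sum_of_nonneg fun a _ =>
      mul_nonneg zero_le_two (mul_nonneg (hw a) (hr a)), ← Finset.mul_sum]
    exact ENNReal.ofReal_le_ofReal (by linarith [hs T])
  have hu : (volume.restrict (Set.Ioo t₁ t₂)) Set.univ = ENNReal.ofReal (t₂ - t₁) := by
    rw [Measure.restrict_apply_univ, Real.volume_Ioo]
  obtain ⟨t, h1, h2⟩ := exists_notMem_null_le_laverage (μ := volume.restrict (Set.Ioo t₁ t₂))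
    (N := Set.range c ∪ (Set.Ioo t₁ t₂)ᶜ) (f := fun t => ∑' a, F a t)
    (fun e => by
      rw [e, Measure.coe_zero, Pi.zero_apply, eq_comm, ENNReal.ofReal_eq_zero] at hu
      linarith)
    (AEMeasurable.tsum fun a => (hF a).aemeasurable)
    (measure_union_null ((Set.countable_range c).measure_zero _) (by
      rw [Measure.restrict_apply measurableSet_Ioo.compl, Set.compl_inter_self, measure_empty]))
  rw [Set.mem_union, not_or, Set.notMem_compl_iff] at h1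
  refine ⟨t, h1.2.1, h1.2.2, fun a e => h1.1 ⟨a, e⟩, fun T hT' => ?_⟩
  rw [laverage_eq, hu] at h2
  have h3 := h2.trans (ENNReal.div_le_div_right ((setLIntegral_le_lintegral _ _).trans hT) _)
  rw [← ENNReal.ofReal_div_of_pos ht'] at h3
  rw [← ENNReal.ofReal_le_ofReal_iff (by positivity), ENNReal.ofReal_sum_of_nonneg fun a _ => hw a]
  refine le_trans (le_of_eq (Finset.sum_congr rfl fun a ha => ?_))
    ((ENNReal.sum_le_tsum T).trans h3)
  obtain ⟨h4, h5⟩ := abs_le.1 (hT' a ha)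
  simp only [F]
  rw [Set.indicator_of_mem (show t ∈ Set.Icc (c a - r a) (c a + r a) from
    ⟨by linarith, by linarith⟩)]

variable {G : Type} [Group G] {S : Finset G}

theorem bdy_one {u : G → ℝ} (hu : ∀ x, ∀ s ∈ S, |u (x * s) - u x| ≤ 1) {t : ℝ} {a : G}
    (h : a ∈ Bdy S {x | t < u x}) : t - 1 ≤ u a ∧ u a ≤ t + 1 := by
  obtain ⟨s, hs, h⟩ := h
  have h1 := abs_le.1 (hu a s hs)
  by_cases h2 : t < u a
  · have h3 : ¬ t < u (a * s) := fun e => h ⟨fun _ => e, fun _ => h2⟩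
    constructor <;> linarith [not_lt.1 h3]
  · have h3 : t < u (a * s) := by
      by_contra e
      exact h ⟨fun e' => absurd e' h2, fun e' => absurd e' e⟩
    constructor <;> linarith [not_lt.1 h2]

theorem cnn (hS : Gen S) (hD : DF S) {ψ : G → ℝ} {a b : G} (h : Dip S ψ a b) (t : ℝ) :
    Cnn S {x | t < ψ x} := fun x hx y hy =>
  ((hD.conn ψ a b h t x hx).symm hS).trans (hD.conn ψ a b h t y hy)

end OscL

open OscL in
theorem osc_stmt : OscStmt := by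
  classical
  intro G _ S hC hD ψ a b η a' b' hψ hη t₁ t₂ M ht ha hb hM
  have := hC.gen.countable
  have M0 : 0 ≤ M := by simpa using hM ∅
  have ht' := sub_pos.2 ht
  obtain ⟨t, h1, h2, h3, h4⟩ := avg ψ
    (fun x => if t₁ - 1 ≤ ψ x ∧ ψ x ≤ t₂ + 1 then DD S ψ x else 0) (DD S η)
    (fun x => by
      split_ifs
      exacts [dd_nonneg S ψ x, le_rfl]) (dd_nonneg S η) ht (M := M) fun T => by
      simp only [mul_ite, mul_zero]
      rw [← Finset.sum_filter]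
      exact hM _ fun x hx => (Finset.mem_filter.1 hx).2
  refine ⟨t, h1, h2, ?_⟩
  have c2 : Cnn S {x | t < ψ x}ᶜ := by
    have e : {x | t < ψ x}ᶜ = {x | -t < -ψ x} := Set.ext fun x => by
      change ¬ t < ψ x ↔ -t < -ψ x
      exact ⟨fun h => neg_lt_neg (lt_of_le_of_ne (not_lt.1 h) (h3 x)),
        fun h => not_lt.2 (neg_lt_neg_iff.1 h).le⟩
    rw [e]
    exact cnn hC.gen hD hψ.neg (-t)
  have hl : 2 * M / (t₂ - t₁) ≤ 4 * M / (t₂ - t₁) := by
    gcongr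
    norm_num
  generalize 4 * M / (t₂ - t₁) = l at hl ⊢
  have na : a' ∉ {x | t < ψ x} := (ha.trans h1.le).not_gt
  have nb : b' ∉ {x | t < ψ x} := (hb.trans h1.le).not_gt
  have s0 : ∀ y ∈ Bdy S {x | t < ψ x}, ∀ x ∈ Bdy S {x | t < ψ x}, η x ≤ η y + l := by
    intro y hy x hx
    obtain ⟨B, b1, b2, b3⟩ := CutPtL.osc hC.gen η (hC.uc _ (cnn hC.gen hD hψ t) c2 y hy x hx)
    have b4 := h4 B fun z hz => by
      have b5 := bdy_one (hD.lip ψ a b hψ) (b1 hz)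
      rw [if_pos ⟨by linarith [b5.1], by linarith [b5.2]⟩]
      exact CutPtL.bdy_sub ψ t (b1 hz)
    linarith [(abs_le.1 (b3 x b2)).2]
  have s1 : ∀ y ∈ Bdy S {x | t < ψ x}, ∀ x ∈ {x | t < ψ x} ∪ Bdy S {x | t < ψ x},
      η x ≤ η y + l := fun y hy x hx =>
    hx.elim (hD.maxp η a' b' hη _ na nb _ (s0 y hy) x) (s0 y hy x)
  have s2 : ∀ x ∈ {x | t < ψ x} ∪ Bdy S {x | t < ψ x},
      ∀ y ∈ {x | t < ψ x} ∪ Bdy S {x | t < ψ x}, η x ≤ η y + l := fun x hx y hy =>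
    hy.elim (fun hy => by
      have := hD.maxp _ b' a' hη.neg _ nb na (l - η x)
        (fun z hz => by linarith [s1 z hz x hx]) y hy
      linarith) fun hy => s1 y hy x hx
  intro x hx y hy
  exact abs_le.2 ⟨by linarith [s2 y hy x hx], by linarith [s2 x hx y hy]⟩

end Pool.Agent.MP_4f4d9f_gt.Ku

end

section

/-! Generic levels of a potential give weak cuts. -/

namespace Pool.Agent.MP_4f4d9f_gt.Rk

open Filter Topology Hy Ku MeasureTheory

namespace WcL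

variable {G Ω : Type} [Group G] [MulAction G Ω] {X : Type} [MetricSpace X] [CompactSpace X]
  [MulAction G X] {N : Net G Ω} {b : X} {pos : Ω → X} {φ : Ω → Ω → ℝ} {co : Ω → X → ℝ}

theorem bdy_sub {ψ : Ω → ℝ} {t : ℝ} {x : G} (h : x ∈ Bdy N {y | t < ψ y}) :
    |ψ (x • N.o) - t| ≤ DD N ψ x :=
  let ⟨_, h1, h2⟩ := bdy_level ψ t h
  h2.trans (le_dd ψ x h1)

theorem generic (hS : Mod N) (hφ : Pot N φ) {ψ : Ω → ℝ} (hψ : Dir N ψ) {α β : ℝ} (h : α < β)
    {Z : Set ℝ} (hZ : Z.Finite) : ∃ t, α < t ∧ t < β ∧ t ∉ Z ∧ ∀ g : Ω,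
      Summable (Set.indicator {a : G | |ψ (a • N.o) - t| ≤ DD N ψ a} (DD N (φ g))) := by
  have := hS.gen.countable
  have := hS.countable
  have h1 : ∀ᵐ t : ℝ, ∀ g : Ω,
      Summable (Set.indicator {a : G | |ψ (a • N.o) - t| ≤ DD N ψ a} (DD N (φ g))) :=
    ae_all_iff.2 fun g => GenericL.ae_summable (fun a : G => ψ (a • N.o)) (DD N ψ) (DD N (φ g))
      (dd_nonneg N ψ) (dd_nonneg N _) (hψ.dd.summable_mul (hφ.dip g).dir.dd)
  have h2 : ∀ᵐ t : ℝ, t ∉ Z := hZ.countable.ae_notMem _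
  have h3 : (volume : Measure ℝ) (Set.Ioo α β) ≠ 0 := by
    rw [Real.volume_Ioo, ne_eq, ENNReal.ofReal_eq_zero]
    linarith
  obtain ⟨t, ht, e⟩ := Measure.exists_mem_of_measure_ne_zero_of_ae h3
    (ae_restrict_of_ae (h2.and h1))
  exact ⟨t, ht.1, ht.2, e.1, e.2⟩

theorem avoid {ψ : Ω → ℝ} (hψ : Dir N ψ) {p : ℕ → G} (hp : IsRay N.S p) {a t : ℝ}
    (e : Tendsto (fun n => ψ (p n • N.o)) atTop (𝓝 a)) (h : a ≠ t) :
    ∀ᶠ n in atTop, p n ∉ Bdy N {x | t < ψ x} := by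
  have h1 : Tendsto (fun n => |ψ (p n • N.o) - t| - DD N ψ (p n)) atTop (𝓝 (|a - t| - 0)) :=
    (e.sub_const t).abs.sub (hψ.dd.tendsto.comp hp.esc)
  rw [sub_zero] at h1
  filter_upwards [h1.eventually (lt_mem_nhds (abs_pos.2 (sub_ne_zero.2 h)))] with n hn hb
  have := bdy_sub hb
  linarith

omit [CompactSpace X] in
theorem visible (h : Lc N b) {F : Set Ω} {e : ℝ} {o ξ : X}
    (hF : {x | x ∈ Bdy N F ∧ e ≤ dist (x • b) o}.Finite) (he : e < dist ξ o) :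
    tr N F ∈ nf G b ξ ∨ (tr N F)ᶜ ∈ nf G b ξ := by
  refine h ξ F (mem_nf.2 ⟨{z | e < dist z o}, ?_, hF.subset fun x hx => ⟨not_not.1 hx.2, ?_⟩⟩)
  · exact (isOpen_lt continuous_const (continuous_id.dist continuous_const)).mem_nhds he
  · exact le_of_lt hx.1

theorem core (hS : Mod N) (hN : Nst N) (hφ : Pot N φ) (hK : Kur φ pos co) (hP : Ps N b pos)
    (hL : Lc N b) {ψ : Ω → ℝ} (hψ : Dir N ψ) {c : X → ℝ} (hc : Continuous c)
    (hcψ : ∀ x : G, c (x • b) = ψ (x • N.o)) {ξ η : X}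
    (hξ : Ac N.S b Set.univ ξ) (hη : Ac N.S b Set.univ η) (hlt : c η < c ξ) {T : Set X}
    (hT : T.Finite) :
    ∃ o, o ∉ T ∧ Ac N.S b Set.univ o ∧ ∀ ε : ℝ, 0 < ε → ∃ F : Set G,
      (∀ ζ, ε < dist ζ o → F ∈ nf G b ζ ∨ Fᶜ ∈ nf G b ζ) ∧ (∃ᶠ x in nf G b ξ, x ∈ F) ∧
        ∃ᶠ x in nf G b η, x ∉ F := by
  have := hS.gen.countable
  have orb : ∀ (u : Ω) (x : G), co u (x • b) = φ u (x • N.o) := fun u x => by
    rw [← hP.orb, hK.orb]
  obtain ⟨p, hp, -, hp'⟩ := hξ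
  obtain ⟨q, hq, -, hq'⟩ := hη
  obtain ⟨t, t1, t2, t3, hsum⟩ := generic hS hφ hψ hlt (hT.image c)
  have lim : ∀ {z : ℕ → G} {o : X}, Tendsto (fun n => z n • b) atTop (𝓝 o) →
      Tendsto (fun n => ψ (z n • N.o)) atTop (𝓝 (c o)) := fun h =>
    ((hc.tendsto _).comp h).congr fun n => hcψ _
  obtain ⟨e, he⟩ := exists_surjective_nat G
  let Φ : ℕ → Set G := fun k => e '' Set.Iio k
  have hΦ : ∀ F : Set G, F.Finite → ∀ᶠ k in atTop, F ⊆ Φ k := fun F hF =>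
    (eventually_all_finite hF).2 fun x _ => by
      obtain ⟨i, rfl⟩ := he x
      exact (eventually_gt_atTop i).mono fun k hk => ⟨i, hk, rfl⟩
  obtain ⟨Q, hQ, hk⟩ := hN {x | t < ψ x} p q hp hq
    (((lim hp').eventually (lt_mem_nhds t2)).and (avoid hψ hp (lim hp') t2.ne'))
    ((((lim hq').eventually (gt_mem_nhds t1)).mono fun n hn => not_lt.2 hn.le).and
      (avoid hψ hq (lim hq') t1.ne))
    Φ (fun k => (Set.finite_Iio k).image e)
    fun k k' hkk => Set.image_mono (Set.Iio_subset_Iio hkk)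
  obtain ⟨z, z1, z2⟩ := CutPtL.ray hS.gen Q hQ (fun k => (hk k).2.1) fun k => (hk k).2.2.1
  have hosc : ∀ (g : Ω) (ε : ℝ), 0 < ε → ∀ᶠ k in atTop, ∀ x ∈ Q k, ∀ y ∈ Q k,
      |φ g (y • N.o) - φ g (x • N.o)| < ε := by
    intro g ε hε
    obtain ⟨s, hs⟩ := (hsum g).vanishing (Iio_mem_nhds hε)
    filter_upwards [hΦ s s.finite_toSet] with k hk' x hx y hy
    obtain ⟨B0, b1, b2, b3⟩ := CutPtL.osc hS.gen (fun x : G => φ g (x • N.o))
      ((hk k).2.2.1 x hx y hy)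
    have b4 := hs B0 (Finset.disjoint_left.2 fun a ha ha' => ((hk k).1 (b1 ha)).2 (hk' ha'))
    rw [Finset.sum_congr rfl fun a ha => Set.indicator_of_mem
      (s := {a : G | |ψ (a • N.o) - t| ≤ DD N ψ a}) (bdy_sub ((hk k).1 (b1 ha)).1) _] at b4
    exact ((b3 y b2).trans (Finset.sum_le_sum fun a _ => dd_tr hS _ a)).trans_lt b4
  obtain ⟨o, ho⟩ := hK.cauchy (z := fun n => z n • N.o) fun g =>
    Metric.cauchySeq_iff.2 fun ε hε => by
      obtain ⟨k, hk'⟩ := (hosc g ε hε).exists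
      obtain ⟨M, hM⟩ := eventually_atTop.1 (z2 k)
      exact ⟨M, fun a ha b hb => hk' _ (hM b hb) _ (hM a ha)⟩
  simp only [hP.orb] at ho
  have hesc : Tendsto z atTop cofinite := fun F hF => by
    obtain ⟨k, hk'⟩ := (hΦ _ (mem_cofinite.1 hF)).exists
    refine mem_map.2 ((z2 k).mono fun n hn => ?_)
    by_contra hc
    exact ((hk k).1 hn).2 (hk' hc)
  have hm : c o = t := by
    refine tendsto_nhds_unique (lim ho) ?_
    rw [tendsto_iff_norm_sub_tendsto_zero]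
    exact squeeze_zero' (Eventually.of_forall fun _ => norm_nonneg _)
      ((z2 0).mono fun n hn => bdy_sub ((hk 0).1 hn).1) (hψ.dd.tendsto.comp hesc)
  refine ⟨o, fun k => t3 ⟨o, k, hm⟩, ⟨z, ⟨z1, hesc⟩, fun _ => trivial, ho⟩, fun ε hε => ?_⟩
  obtain ⟨U, d, hd, hU⟩ := hK.unif hε
  obtain ⟨k, k1⟩ := ((eventually_all_finset U).2 fun g _ => hosc g (d / 2) (half_pos hd)).exists
  obtain ⟨F, f1, f2, f3⟩ := (hk k).2.2.2
  refine ⟨tr N F, fun ζ hζ => visible hL (f1.subset fun x hx =>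
      ⟨hx.1, fun hxQ => hx.2.not_gt (hU _ _ fun g hg => ?_)⟩) hζ,
    (hp.nf hp').frequently f2.frequently, (hq.nf hq').frequently f3.frequently⟩
  have h1 : Tendsto (fun n => φ g (z n • N.o)) atTop (𝓝 (co g o)) :=
    (((hK.cont g).tendsto _).comp ho).congr fun n => orb _ _
  rw [orb]
  exact (le_of_tendsto (h1.const_sub (φ g (x • N.o))).abs
    ((z2 k).mono fun n hn => (k1 g hg _ hn x hxQ).le)).trans_lt (half_lt_self hd)

end WcL

theorem wc_stmt : WcStmt := by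
  intro G Ω _ _ X _ _ _ _ N b pos φ co hS hN hφ hK hP hL ξ η hξ hη hne T hT
  have orb : ∀ (u : Ω) (x : G), co u (x • b) = φ u (x • N.o) := fun u x => by
    rw [← hP.orb, hK.orb]
  obtain ⟨u, hu⟩ := not_forall.1 fun k => hne (hK.inj _ _ k)
  rcases lt_or_gt_of_ne hu with h | h
  · exact WcL.core hS hN hφ hK hP hL (hφ.dip u).dir.neg (hK.cont u).neg
      (fun x => congrArg Neg.neg (orb u x)) hξ hη (neg_lt_neg h) hT
  · exact WcL.core hS hN hφ hK hP hL (hφ.dip u).dir (hK.cont u) (orb u) hξ hη h hT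

end Pool.Agent.MP_4f4d9f_gt.Rk

end

section

/-! The limit argument. -/

namespace Pool.Agent.MP_4f4d9f_gt.Hy

open Filter Topology

namespace LimL

variable {G : Type} [Group G] {S : Finset G}

/-- Pairs joining `E` to the complement of `E'`. -/
def Out (E E' : Set G) (x y : G) : Prop := (x ∈ E ∧ y ∉ E') ∨ (y ∈ E ∧ x ∉ E')

open Classical in
/-- The indicator cochain of these pairs. -/
noncomputable def O (E E' : Set G) (e : G × G) : ZMod 2 := if Out E E' e.1 e.2 then 1 else 0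

theorem tri_card (hS : Gen S) {E E' : Set G} (hE : E ⊆ E') (hF : Few E E') :
    ∃ T : Finset (G × G × G), T.card ≤ S.card * S.card * 24 ∧ sp2 S (d1 (O E E')) ⊆ T := by
  classical
  have fin : ∀ s s' : G, {a | a ∈ E ∧ a * s ∈ E' ∧ a * s ∉ E ∧ a * s' ∉ E'}.Finite := fun s s' =>
    Set.finite_of_encard_le_coe (k := 4) (hF s s')
  have card : ∀ s s' : G, (fin s s').toFinset.card ≤ 4 := fun s s' => by
    have h := hF s s'
    rw [(fin s s').encard_eq_coe_toFinset_card] at h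
    exact_mod_cast h
  refine ⟨(S ×ˢ S).biUnion fun p => (fin p.1 p.2).toFinset.biUnion fun a =>
    {(a, a * p.1, a * p.2), (a, a * p.2, a * p.1), (a * p.1, a, a * p.2), (a * p.1, a * p.2, a),
      (a * p.2, a, a * p.1), (a * p.2, a * p.1, a)}, ?_, ?_⟩
  · rw [← Finset.card_product]
    refine Finset.card_biUnion_le_card_mul _ _ _ fun p _ => ?_
    refine (Finset.card_biUnion_le_card_mul _ _ 6 fun a _ => Finset.card_le_six).trans ?_
    have := card p.1 p.2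
    omega
  · have key : ∀ a b c : G, a ∈ E → b ∈ E' → b ∉ E → c ∉ E' → a⁻¹ * b ∈ S → a⁻¹ * c ∈ S →
        ∀ t : G × G × G, t ∈ ({(a, b, c), (a, c, b), (b, a, c), (b, c, a), (c, a, b), (c, b, a)} :
          Finset (G × G × G)) → t ∈ (S ×ˢ S).biUnion fun p => (fin p.1 p.2).toFinset.biUnion
            fun a => ({(a, a * p.1, a * p.2), (a, a * p.2, a * p.1), (a * p.1, a, a * p.2),
              (a * p.1, a * p.2, a), (a * p.2, a, a * p.1), (a * p.2, a * p.1, a)} :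
                Finset (G × G × G)) := by
      intro a b c ha hb hb' hc e1 e2 t ht
      refine Finset.mem_biUnion.2 ⟨(a⁻¹ * b, a⁻¹ * c), Finset.mem_product.2 ⟨e1, e2⟩,
        Finset.mem_biUnion.2 ⟨a, ?_, ?_⟩⟩
      · simp only [Set.Finite.mem_toFinset, Set.mem_ofPred_eq, mul_inv_cancel_left]
        exact ⟨ha, hb, hb', hc⟩
      · simpa only [mul_inv_cancel_left] using ht
    rintro ⟨x, y, z⟩ ⟨⟨e1, e2, e3⟩, h⟩
    have e1' := hS.symm e1
    have e2' := hS.symm e2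
    have e3' := hS.symm e3
    simp only at e1 e2 e3 e1' e2' e3'
    have two : (1 : ZMod 2) + 1 = 0 := rfl
    have hx' : x ∈ E → x ∈ E' := fun h => hE h
    have hy' : y ∈ E → y ∈ E' := fun h => hE h
    have hz' : z ∈ E → z ∈ E' := fun h => hE h
    simp only [d1, O, Out] at h
    by_cases hx : x ∈ E <;> by_cases hy : y ∈ E <;> by_cases hz : z ∈ E <;>
      by_cases gx : x ∈ E' <;> by_cases gy : y ∈ E' <;> by_cases gz : z ∈ E' <;>
      first
        | exact absurd (hx' hx) gx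
        | exact absurd (hy' hy) gy
        | exact absurd (hz' hz) gz
        | exact key x y z hx gy hy gz e1 e2 _ (by simp)
        | exact key x z y hx gz hz gy e2 e1 _ (by simp)
        | exact key y x z hy gx hx gz e1' e3 _ (by simp)
        | exact key y z x hy gz hz gx e3 e1' _ (by simp)
        | exact key z x y hz gx hx gy e2' e3' _ (by simp)
        | exact key z y x hz gy hy gx e3' e2' _ (by simp)
        | exact absurd (by simp [hx, hy, hz, gx, gy, gz, two]) h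

theorem out_finite (hS : Gen S) {E E' : Set G}
    (h : ∀ s ∈ S, {x | x ∈ E ∧ x * s ∉ E'}.Finite) : (sp1 S (O E E')).Finite := by
  classical
  have h1 : (⋃ s ∈ S, (fun x => (x, x * s)) '' {x | x ∈ E ∧ x * s ∉ E'}).Finite :=
    S.finite_toSet.biUnion fun s hs => (h s hs).image _
  refine (h1.union (h1.image Prod.swap)).subset ?_
  rintro ⟨x, y⟩ ⟨e1, e2⟩
  have e3 : Out E E' x y := by
    by_contra e
    exact e2 (if_neg e)
  rcases e3 with ⟨hx, hy⟩ | ⟨hy, hx⟩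
  · exact Or.inl (Set.mem_biUnion e1 ⟨x, ⟨hx, by simpa using hy⟩, by simp⟩)
  · exact Or.inr ⟨(y, x), Set.mem_biUnion (hS.symm e1) ⟨y, ⟨hy, by simpa using hx⟩, by simp⟩,
      rfl⟩

theorem step {C : ℕ} (hS : Gen S) (hC : Coh S C) {E E' : Set G} (hE : E ⊆ E') (hF : Few E E')
    (h : ∀ s ∈ S, {x | x ∈ E ∧ x * s ∉ E'}.Finite) :
    ∃ (Y : Set G) (V : Finset G), Y.Finite ∧ V.card ≤ 2 * (C * (S.card * S.card * 24) ^ 3) ∧
      ∀ x y, x⁻¹ * y ∈ S → ¬ (x ∈ V ∧ y ∈ V) → (Out E E' x y ↔ ¬ (x ∈ Y ↔ y ∈ Y)) := by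
  classical
  obtain ⟨T, hT, hsub⟩ := tri_card hS hE hF
  obtain ⟨c, c1, c2, c3⟩ := hC.c2 (O E E') (T.finite_toSet.subset hsub)
  have hn : (sp2 S (d1 (O E E'))).ncard ≤ S.card * S.card * 24 := by
    refine le_trans ?_ hT
    simpa using Set.ncard_le_ncard hsub T.finite_toSet
  have hB : c1.toFinset.card ≤ C * (S.card * S.card * 24) ^ 3 := by
    rw [← Set.ncard_eq_toFinset_card _ c1]
    refine (Nat.le_self_pow two_ne_zero _).trans (c3.trans ?_)
    exact Nat.mul_le_mul_left _ (Nat.pow_le_pow_left hn 3)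
  obtain ⟨F, hF1⟩ := hC.c0 (fun e => O E E' e + c e) fun t ht => by
    have h1 := c2 t ht
    have h2 : d1 (fun e => O E E' e + c e) t = d1 (O E E') t + d1 c t := by
      simp only [d1]
      ring
    rw [h2, h1]
    exact CharTwo.add_self_eq_zero _
  have hfin : (sp1 S (d0 F)).Finite := by
    refine ((out_finite hS h).union c1).subset fun e he => ?_
    by_contra hne
    simp only [Set.mem_union, sp1, Set.mem_ofPred_eq, not_or, not_and, not_not] at hne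
    have := hF1 e he.1
    simp only [hne.1 he.1, hne.2 he.1, add_zero] at this
    exact he.2 this.symm
  have main : ∀ x y, x⁻¹ * y ∈ S →
      ¬ (x ∈ c1.toFinset.image Prod.fst ∪ c1.toFinset.image Prod.snd ∧
        y ∈ c1.toFinset.image Prod.fst ∪ c1.toFinset.image Prod.snd) →
      (Out E E' x y ↔ F x ≠ F y) := by
    intro x y e hV
    have hc : c (x, y) = 0 := by
      by_contra hc
      have hm : (x, y) ∈ c1.toFinset := c1.mem_toFinset.2 ⟨e, hc⟩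
      exact hV ⟨Finset.mem_union_left _ (Finset.mem_image_of_mem Prod.fst hm),
        Finset.mem_union_right _ (Finset.mem_image_of_mem Prod.snd hm)⟩
    have h1 := hF1 (x, y) e
    simp only [hc, add_zero, d0, O] at h1
    have z2 : ∀ a b : ZMod 2, (1 = a + b → a ≠ b) ∧ (0 = a + b → a = b) := by decide
    by_cases ho : Out E E' x y
    · rw [if_pos ho] at h1
      exact ⟨fun _ => (z2 _ _).1 h1, fun _ => ho⟩
    · rw [if_neg ho] at h1
      exact ⟨fun e => absurd e ho, fun e => absurd ((z2 _ _).2 h1) e⟩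
  have hcard : (c1.toFinset.image Prod.fst ∪ c1.toFinset.image Prod.snd).card
      ≤ 2 * (C * (S.card * S.card * 24) ^ 3) := by
    have a1 := Finset.card_union_le (c1.toFinset.image Prod.fst) (c1.toFinset.image Prod.snd)
    have a2 : (c1.toFinset.image Prod.fst).card ≤ _ := Finset.card_image_le
    have a3 : (c1.toFinset.image Prod.snd).card ≤ _ := Finset.card_image_le
    omega
  have z0 : ∀ a b : ZMod 2, (a ≠ b ↔ ¬ (a ≠ 0 ↔ b ≠ 0)) ∧ (a ≠ b ↔ ¬ (a ≠ 1 ↔ b ≠ 1)) := by decide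
  rcases hC.c1 F hfin with h0 | h0
  · exact ⟨_, _, h0, hcard, fun x y e hV => (main x y e hV).trans (z0 _ _).1⟩
  · exact ⟨_, _, h0, hcard, fun x y e hV => (main x y e hV).trans (z0 _ _).2⟩

theorem energy {C : ℕ} (hS : Gen S) (hG : SG S C) {ψ : G → ℝ} (hd : Dir S ψ) (hi : I01 ψ)
    {Y : Set G} (hY : Y.Finite) {V : Finset G} {B : ℕ} (hV : V.card ≤ B)
    (h : ∀ x y, x⁻¹ * y ∈ S → x ∈ Y → y ∉ Y → ψ y = 0 ∨ (x ∈ V ∧ y ∈ V))
    (T : Finset G) (hT : ∀ x ∈ T, x ∈ Y) :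
    ∑ x ∈ T, ψ x ^ 2 ≤ C * (En S ψ + S.card * B) := by
  classical
  have hq : Sq (Y.indicator ψ) :=
    sq_of_finite (hY.subset fun x hx => Set.mem_of_indicator_ne_zero hx)
  have hind : Summable fun x => if x ∈ V then (1 : ℝ) else 0 :=
    summable_of_ne_finset_zero (s := V) fun x hx => if_neg hx
  have hsum : ∑' x, (if x ∈ V then (1 : ℝ) else 0) ≤ B := by
    rw [tsum_eq_sum (s := V) fun x hx => if_neg hx]
    rw [Finset.sum_congr rfl fun x hx => if_pos hx]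
    simpa using hV
  have pt : ∀ s ∈ S, ∀ x, (Y.indicator ψ (x * s) - Y.indicator ψ x) ^ 2
      ≤ (ψ (x * s) - ψ x) ^ 2 + if x ∈ V then (1 : ℝ) else 0 := by
    intro s hs x
    have e : x⁻¹ * (x * s) ∈ S := by simpa using hs
    have n0 : (0 : ℝ) ≤ if x ∈ V then (1 : ℝ) else 0 := by split_ifs <;> norm_num
    have n1 := sq_nonneg (ψ (x * s) - ψ x)
    by_cases hx : x ∈ Y <;> by_cases hy : x * s ∈ Y
    · rw [Set.indicator_of_mem hx, Set.indicator_of_mem hy]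
      linarith
    · rw [Set.indicator_of_mem hx, Set.indicator_of_notMem hy]
      rcases h x _ e hx hy with h0 | h0
      · rw [h0]
        linarith
      · rw [if_pos h0.1]
        nlinarith [(hi x).1, (hi x).2]
    · rw [Set.indicator_of_notMem hx, Set.indicator_of_mem hy]
      rcases h _ x (hS.symm e) hy hx with h0 | h0
      · rw [h0]
        linarith
      · rw [if_pos h0.2]
        nlinarith [(hi (x * s)).1, (hi (x * s)).2]
    · rw [Set.indicator_of_notMem hx, Set.indicator_of_notMem hy]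
      nlinarith
  have hE : En S (Y.indicator ψ) ≤ En S ψ + S.card * B := by
    have e : En S ψ + S.card * B = ∑ s ∈ S, (∑' x, (ψ (x * s) - ψ x) ^ 2 + B) := by
      rw [Finset.sum_add_distrib, Finset.sum_const, nsmul_eq_mul, En]
    rw [e, En]
    refine Finset.sum_le_sum fun s hs => ?_
    have a1 : Summable fun x => (ψ (x * s) - ψ x) ^ 2 := hd s hs
    have a2 : Summable fun x => (Y.indicator ψ (x * s) - Y.indicator ψ x) ^ 2 := hq.dir s hs
    refine (a2.tsum_le_tsum (pt s hs) (a1.add hind)).trans ?_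
    rw [a1.tsum_add hind]
    linarith
  calc ∑ x ∈ T, ψ x ^ 2 = ∑ x ∈ T, Y.indicator ψ x ^ 2 :=
        Finset.sum_congr rfl fun x hx => by rw [Set.indicator_of_mem (hT x hx)]
    _ ≤ ∑' x, Y.indicator ψ x ^ 2 := Summable.sum_le_tsum T (fun x _ => sq_nonneg _) hq
    _ ≤ C * En S (Y.indicator ψ) := hG _ hq
    _ ≤ _ := mul_le_mul_of_nonneg_left hE (Nat.cast_nonneg _)

omit [Group G] in
theorem sq_of_lim {l : Filter ℕ} [l.NeBot] {ψ : G → ℝ} {Z : Set G} {Y : ℕ → Set G} {M : ℝ}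
    (h1 : ∀ x ∈ Z, ∀ᶠ k in l, x ∈ Y k)
    (h2 : ∀ k, ∀ T : Finset G, (∀ x ∈ T, x ∈ Y k) → ∑ x ∈ T, ψ x ^ 2 ≤ M)
    (h3 : ∀ᶠ x in cofinite, x ∈ Z ∨ ψ x = 0) : Sq ψ := by
  classical
  have hq : Sq (Z.indicator ψ) := by
    refine summable_of_sum_le (c := M) (fun x => sq_nonneg _) fun T => ?_
    have e : ∑ x ∈ T, Z.indicator ψ x ^ 2 = ∑ x ∈ T.filter (· ∈ Z), ψ x ^ 2 := by
      rw [Finset.sum_filter]
      refine Finset.sum_congr rfl fun x _ => ?_
      by_cases hx : x ∈ Z <;> simp [hx]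
    obtain ⟨k, hk⟩ := ((eventually_all_finset (T.filter (· ∈ Z))).2
      fun x hx => h1 x (Finset.mem_filter.1 hx).2).exists
    rw [e]
    exact h2 k _ hk
  refine hq.of_eventually_le (h3.mono fun x hx => ?_)
  rcases hx with hx | hx
  · rw [Set.indicator_of_mem hx]
  · rw [hx, abs_zero]
    exact abs_nonneg _

end LimL

open LimL in
theorem lim_stmt : LimStmt := by
  intro G _ S C hS hG hC E' E ψ₁ ψ₂ hE hlim hfin hfew d1 i1 z1 n1 d2 i2 z2 n2
  choose Y V y1 y2 y3 using fun k => step hS hC (hE k) (hfew k) (hfin k)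
  let U := hyperfilter ℕ
  have hU : ∀ x, ∀ᶠ k in (U : Filter ℕ), (x ∈ E k ↔ x ∈ E') := fun x => by
    by_cases hx : x ∈ E'
    · exact ((hlim x hx).filter_mono Nat.hyperfilter_le_atTop).mono fun k hk =>
        ⟨fun _ => hx, fun _ => hk⟩
    · exact Eventually.of_forall fun k => ⟨fun h => hE k h, fun h => absurd h hx⟩
  let A : Set G := {x | ∀ᶠ k in (U : Filter ℕ), x ∈ Y k}
  have hA : ∀ x, ∀ᶠ k in (U : Filter ℕ), (x ∈ Y k ↔ x ∈ A) := fun x => by
    by_cases hx : x ∈ A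
    · exact (show ∀ᶠ k in (U : Filter ℕ), x ∈ Y k from hx).mono fun k hk =>
        ⟨fun _ => hx, fun _ => hk⟩
    · exact (Ultrafilter.eventually_not.2 hx).mono fun k hk =>
        ⟨fun h => absurd h hk, fun h => absurd h hx⟩
  let D : Set G := {x | ¬ (x ∈ A ↔ x ∈ E')}
  have hD : ∀ s ∈ S, {x | x ∈ D ∧ x * s ∉ D}.Finite := by
    intro s hs
    by_contra hinf
    obtain ⟨T, t1, t2⟩ := Set.Infinite.exists_subset_card_eq hinf
      (2 * (C * (S.card * S.card * 24) ^ 3) + 1)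
    have ev : ∀ x ∈ T, ∀ᶠ k in (U : Filter ℕ), x ∈ V k := by
      intro x hx
      obtain ⟨a1, a2⟩ := t1 hx
      filter_upwards [hU x, hU (x * s), hA x, hA (x * s)] with k b1 b2 b3 b4
      by_contra hV
      have b5 := y3 k x (x * s) (by simpa using hs) fun e => hV e.1
      simp only [D, Set.mem_ofPred_eq, not_not] at a1 a2
      rw [Out, b1, b2, b3, b4] at b5
      tauto
    obtain ⟨k, hk⟩ := ((eventually_all_finset T).2 ev).exists
    have c1 := Finset.card_le_card (show T ⊆ V k from hk)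
    have c2 := y2 k
    omega
  rcases hC.set hS hD with h | h
  · refine n1 (sq_of_lim (l := (U : Filter ℕ)) (Z := A ∩ E') (Y := fun k => Y k ∩ E k)
      (fun x hx => ?_) (fun k T hT => energy hS hG d1 i1 ((y1 k).inter_of_left (E k)) (y2 k)
        (fun x y e hx hy => ?_) T hT) ?_)
    · filter_upwards [hU x, hA x] with k b1 b2
      exact ⟨b2.2 hx.1, b1.2 hx.2⟩
    · by_cases hy' : y ∈ E k
      · right
        by_contra hV
        have b := (y3 k x y e hV).2 fun b => hy ⟨b.1 hx.1, hy'⟩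
        exact b.elim (fun b => b.2 (hE k hy')) fun b => b.2 (hE k hx.2)
      · exact Or.inl (z1 k y hy')
    · refine h.eventually_cofinite_notMem.mono fun x hx => ?_
      have hx' : x ∈ A ↔ x ∈ E' := not_not.1 hx
      by_cases hx2 : x ∈ E'
      · exact Or.inl ⟨hx'.2 hx2, hx2⟩
      · exact Or.inr (z1 0 x fun e => hx2 (hE 0 e))
  · refine n2 (sq_of_lim (l := (U : Filter ℕ)) (Z := A \ E') (Y := fun k => Y k \ E')
      (fun x hx => ?_) (fun k T hT => energy hS hG d2 i2 ((y1 k).sdiff (t := E')) (y2 k)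
        (fun x y e hx hy => ?_) T hT) ?_)
    · filter_upwards [hA x] with k b2
      exact ⟨b2.2 hx.1, hx.2⟩
    · by_cases hy' : y ∈ E'
      · exact Or.inl (z2 y hy')
      · right
        by_contra hV
        have b := (y3 k x y e hV).2 fun b => hy ⟨b.1 hx.1, hy'⟩
        exact b.elim (fun b => hx.2 (hE k b.1)) fun b => hy' (hE k b.1)
    · refine h.eventually_cofinite_notMem.mono fun x hx => ?_
      have hx' : ¬ (x ∈ A ↔ x ∈ E') := not_not.1 hx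
      by_cases hx2 : x ∈ E'
      · exact Or.inr (z2 x hx2)
      · refine Or.inl ⟨?_, hx2⟩
        by_contra hx3
        exact hx' ⟨fun e => absurd e hx3, fun e => absurd e hx2⟩

end Pool.Agent.MP_4f4d9f_gt.Hy

end

section

/-! The limit argument in the model with cone vertices. -/

namespace Pool.Agent.MP_4f4d9f_gt.Rk

open Filter Topology Hy Ku
open Hy.LimL (Out sq_of_lim)

namespace LimQL

variable {G Ω : Type} [Group G] [MulAction G Ω] {N : Net G Ω} {E E' : Set Ω}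

open Classical in
/-- The indicator of the pairs that join `E` to the complement of `E'`. -/
noncomputable def oi (E E' : Set Ω) (a b : Ω) : ZMod 2 := if Out E E' a b then 1 else 0

/-- The indicator cochain. -/
noncomputable def O (N : Net G Ω) (E E' : Set Ω) (e : G × Ω) : ZMod 2 := oi E E' (e.1 • N.o) e.2

/-- Three points in the three parts. -/
def P3 (E E' : Set Ω) (a b c : Ω) : Prop := a ∈ E ∧ b ∈ E' ∧ b ∉ E ∧ c ∉ E'

theorem six (hE : E ⊆ E') {x y z : Ω} (h : oi E E' y z + oi E E' x z + oi E E' x y ≠ 0) :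
    P3 E E' x y z ∨ P3 E E' x z y ∨ P3 E E' y x z ∨ P3 E E' y z x ∨ P3 E E' z x y ∨
      P3 E E' z y x := by
  have two : (1 : ZMod 2) + 1 = 0 := rfl
  have hx' : x ∈ E → x ∈ E' := fun h => hE h
  have hy' : y ∈ E → y ∈ E' := fun h => hE h
  have hz' : z ∈ E → z ∈ E' := fun h => hE h
  simp only [oi, Out] at h
  simp only [P3]
  by_cases hx : x ∈ E <;> by_cases hy : y ∈ E <;> by_cases hz : z ∈ E <;>
    by_cases gx : x ∈ E' <;> by_cases gy : y ∈ E' <;> by_cases gz : z ∈ E' <;>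
    simp_all

theorem tri_card (hE : E ⊆ E') (hF : Few G E E') : ∃ T : Finset (G × G × Ω),
    T.card ≤ N.S.card * N.T.card * 24 ∧ sp2 N (d1 N (O N E E')) ⊆ T := by
  classical
  have fin : ∀ q : Ω × Ω × Ω, {a : G | P3 E E' (a • q.1) (a • q.2.1) (a • q.2.2)}.Finite :=
    fun q => Set.finite_of_encard_le_coe (k := 4) (hF _ _ _)
  have card : ∀ q, (fin q).toFinset.card ≤ 4 := fun q => by
    have h : {a : G | P3 E E' (a • q.1) (a • q.2.1) (a • q.2.2)}.encard ≤ 4 := hF _ _ _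
    rw [(fin q).encard_eq_coe_toFinset_card] at h
    exact_mod_cast h
  refine ⟨(N.S ×ˢ N.T).biUnion fun p => (({(N.o, p.1 • N.o, p.2), (N.o, p.2, p.1 • N.o),
    (p.1 • N.o, N.o, p.2), (p.1 • N.o, p.2, N.o), (p.2, N.o, p.1 • N.o), (p.2, p.1 • N.o, N.o)} :
      Finset (Ω × Ω × Ω)).biUnion fun q => (fin q).toFinset).image
        fun x => (x, x * p.1, x • p.2), ?_, ?_⟩
  · rw [← Finset.card_product]
    refine Finset.card_biUnion_le_card_mul _ _ _ fun p _ => Finset.card_image_le.trans ?_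
    exact (Finset.card_biUnion_le_card_mul _ _ 4 fun q _ => card q).trans
      (Nat.mul_le_mul_right 4 Finset.card_le_six)
  · rintro ⟨x, y, z⟩ ⟨⟨e1, e2, -⟩, h⟩
    refine Finset.mem_biUnion.2 ⟨(x⁻¹ * y, x⁻¹ • z), Finset.mem_product.2 ⟨e1, e2⟩,
      Finset.mem_image.2 ⟨x, ?_, by simp⟩⟩
    simpa only [Finset.mem_biUnion, Finset.mem_insert, Finset.mem_singleton,
      exists_eq_or_imp, exists_eq_left, Set.Finite.mem_toFinset, Set.mem_ofPred_eq, mul_smul,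
      smul_inv_smul] using six hE h

theorem one (hC : RelQ N) {L : Set Ω} (h : (Bdy N L).Finite) :
    (tr N L).Finite ∨ (tr N L)ᶜ.Finite := by
  classical
  refine (hC.c1 (fun ω => if ω ∈ L then 1 else 0) ((edge_finite (N := N) h).subset ?_)).imp
    (fun k => k.subset fun x hx => ?_) fun k => k.subset fun x hx => ?_
  · rintro ⟨x, ω⟩ ⟨e1, e2⟩
    refine ⟨e1, _, e1, fun k => e2 ?_⟩
    rw [smul_inv_smul] at k
    simp only [d0, k]
    exact CharTwo.add_self_eq_zero _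
  · simp [mem_tr.1 hx]
  · simp [show x • N.o ∉ L from hx]

theorem step {M : ℕ} (hC : RelQ N) (hM : ∀ w : G × Ω → ZMod 2, (sp2 N (d1 N w)).Finite →
    (sp2 N (d1 N w)).ncard ≤ N.S.card * N.T.card * 24 → ∃ c : G × Ω → ZMod 2,
      (sp1 N c).Finite ∧ (∀ t, Tri N t → d1 N c t = d1 N w t) ∧ (sp1 N c).ncard ≤ M)
    (hE : E ⊆ E') (hF : Few G E E') (h : AF G E E') :
    ∃ (Y : Set Ω) (V : Finset G), (tr N Y).Finite ∧ (Bdy N Y).Finite ∧ V.card ≤ M ∧
      ∀ x ∉ V, ∀ τ ∈ N.T, (Out E E' (x • N.o) (x • τ) ↔ Cr Y (x • N.o) (x • τ)) := by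
  classical
  obtain ⟨T, hT, hsub⟩ := tri_card (N := N) hE hF
  have hn : (sp2 N (d1 N (O N E E'))).ncard ≤ N.S.card * N.T.card * 24 := by
    refine le_trans ?_ hT
    simpa using Set.ncard_le_ncard hsub T.finite_toSet
  obtain ⟨c, c1, c2, c3⟩ := hM (O N E E') (T.finite_toSet.subset hsub) hn
  have hB : (c1.toFinset.image Prod.fst).card ≤ M :=
    Finset.card_image_le.trans (by rwa [← Set.ncard_eq_toFinset_card _ c1])
  obtain ⟨F, hF1⟩ := hC.c0 (fun e => O N E E' e + c e) fun t ht => by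
    have h1 := c2 t ht
    have h2 : d1 N (fun e => O N E E' e + c e) t = d1 N (O N E E') t + d1 N c t := by
      simp only [d1]
      ring
    rw [h2, h1]
    exact CharTwo.add_self_eq_zero _
  have main : ∀ x ∉ c1.toFinset.image Prod.fst, ∀ τ ∈ N.T,
      (Out E E' (x • N.o) (x • τ) ↔ Cr {ω | F ω ≠ 0} (x • N.o) (x • τ)) := by
    intro x hV τ hτ
    have hc : c (x, x • τ) = 0 := by_contra fun hc =>
      hV (Finset.mem_image_of_mem Prod.fst (c1.mem_toFinset.2 ⟨edge_smul hτ x, hc⟩))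
    have h1 := hF1 _ (edge_smul hτ x)
    simp only [hc, add_zero, d0, O, oi] at h1
    have z2 : ∀ a b : ZMod 2, (1 = a + b → ¬ (a ≠ 0 ↔ b ≠ 0)) ∧ (0 = a + b → (a ≠ 0 ↔ b ≠ 0)) := by
      decide
    by_cases ho : Out E E' (x • N.o) (x • τ)
    · rw [if_pos ho] at h1
      exact iff_of_true ho ((z2 _ _).1 h1)
    · rw [if_neg ho] at h1
      exact iff_of_false ho fun e => e ((z2 _ _).2 h1)
  have hb : (Bdy N {ω | F ω ≠ 0}).Finite := by
    refine ((c1.toFinset.image Prod.fst).finite_toSet.union (N.T.finite_toSet.biUnion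
      fun τ _ => (h N.o τ).union (h τ N.o))).subset ?_
    rintro x ⟨τ, hτ, k⟩
    exact or_iff_not_imp_left.2 fun e => Set.mem_biUnion hτ ((main x e τ hτ).2 k)
  rcases one hC hb with h0 | h0
  · exact ⟨_, _, h0, hb, hB, main⟩
  · exact ⟨{ω | F ω ≠ 0}ᶜ, _, h0, by rwa [bdy_compl], hB,
      fun x e τ hτ => (main x e τ hτ).trans cr_compl.symm⟩

theorem energy {τ : Ω} (hτ : τ ∈ N.T) {ψ : Ω → ℝ} (hd : Dir N ψ) (hi : I01 ψ) {V : Finset G}
    {B : ℕ} (hV : V.card ≤ B) (T : Finset G) (h : ∀ x ∈ T, x ∉ V → ψ (x • τ) = 0) :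
    ∑ x ∈ T, ψ (x • N.o) ^ 2 ≤ En N ψ + B := by
  classical
  have h1 : ∑ x ∈ T, (ψ (x • τ) - ψ (x • N.o)) ^ 2 ≤ En N ψ :=
    (Summable.sum_le_tsum T (fun _ _ => sq_nonneg _) (hd τ hτ)).trans (tsum_le_en ψ hτ)
  have h2 : ∑ x ∈ T, (if x ∈ V then (1 : ℝ) else 0) ≤ B := by
    rw [Finset.sum_ite_mem, Finset.sum_const, nsmul_eq_mul, mul_one]
    exact_mod_cast (Finset.card_le_card Finset.inter_subset_right).trans hV
  refine le_trans ?_ (add_le_add h1 h2)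
  rw [← Finset.sum_add_distrib]
  refine Finset.sum_le_sum fun x hx => ?_
  split_ifs with e
  · nlinarith [(hi (x • N.o)).1, (hi (x • N.o)).2, sq_nonneg (ψ (x • τ) - ψ (x • N.o))]
  · rw [h x hx e, zero_sub, neg_sq, add_zero]

theorem logic {a b c d : Prop} (h1 : ¬ (¬ (a ↔ c) ↔ ¬ (b ↔ d)))
    (h2 : c ∧ ¬ d ∨ d ∧ ¬ c ↔ ¬ (a ↔ b)) : False := by
  by_cases a <;> by_cases b <;> by_cases c <;> by_cases d <;> simp_all

end LimQL

open Rk.LimQL in
theorem limQ_stmt : LimQStmt := by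
  rintro G Ω _ _ N hN hC hQ ⟨τ₀, hτ, hc⟩ E' E ψ₁ ψ₂ hE hlim hfin hfew d1 i1 z1 n1 d2 i2 z2 n2
  obtain ⟨M, hM⟩ := hQ (N.S.card * N.T.card * 24)
  choose Y V y0 y1 y2 y3 using fun k => step hC hM (hE k) (hfew k) (hfin k)
  have y4 : ∀ k x, x ∉ V k → x • N.o ∈ Y k → Out (E k) E' (x • N.o) (x • τ₀) :=
    fun k x e hx => (y3 k x e τ₀ hτ).2 fun b => hN.no_cone (y1 k) (y0 k) (hc.smul x) (b.1 hx)
  let U := hyperfilter ℕ
  have hU : ∀ x, ∀ᶠ k in (U : Filter ℕ), (x ∈ E k ↔ x ∈ E') := fun x => by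
    by_cases hx : x ∈ E'
    · exact ((hlim x hx).filter_mono Nat.hyperfilter_le_atTop).mono fun k hk =>
        ⟨fun _ => hx, fun _ => hk⟩
    · exact Eventually.of_forall fun k => ⟨fun h => hE k h, fun h => absurd h hx⟩
  let A : Set Ω := {x | ∀ᶠ k in (U : Filter ℕ), x ∈ Y k}
  have hA : ∀ x, ∀ᶠ k in (U : Filter ℕ), (x ∈ Y k ↔ x ∈ A) := fun x => by
    by_cases hx : x ∈ A
    · exact (show ∀ᶠ k in (U : Filter ℕ), x ∈ Y k from hx).mono fun k hk =>
        ⟨fun _ => hx, fun _ => hk⟩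
    · exact (Ultrafilter.eventually_not.2 hx).mono fun k hk =>
        ⟨fun h => absurd h hk, fun h => absurd h hx⟩
  let D : Set Ω := {x | ¬ (x ∈ A ↔ x ∈ E')}
  have hD : (Bdy N D).Finite := by
    by_contra hinf
    obtain ⟨T, t1, t2⟩ := Set.Infinite.exists_subset_card_eq hinf (M + 1)
    have ev : ∀ x ∈ T, ∀ᶠ k in (U : Filter ℕ), x ∈ V k := by
      intro x hx
      obtain ⟨τ, a1, a2⟩ := t1 hx
      filter_upwards [hU (x • N.o), hU (x • τ), hA (x • N.o), hA (x • τ)] with k b1 b2 b3 b4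
      by_contra hV
      have b5 := y3 k x hV τ a1
      rw [Out, Cr, b1, b2, b3, b4] at b5
      exact logic a2 b5
    obtain ⟨k, hk⟩ := ((eventually_all_finset T).2 ev).exists
    have c1 := Finset.card_le_card (show T ⊆ V k from hk)
    have c2 := y2 k
    omega
  rcases one hC hD with h | h
  · refine n1 (sq_of_lim (l := (U : Filter ℕ)) (Z := tr N (A ∩ E'))
      (Y := fun k => tr N (Y k ∩ E k)) (fun x hx => ?_)
      (fun k T hT => energy hτ d1 i1 (y2 k) T fun x hx e => z1 k _ fun b => ?_) ?_)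
    · filter_upwards [hU (x • N.o), hA (x • N.o)] with k b1 b2
      exact ⟨b2.2 hx.1, b1.2 hx.2⟩
    · exact (y4 k x e (hT x hx).1).elim (fun a => a.2 (hE k b)) fun a => a.2 (hE k (hT x hx).2)
    · refine h.eventually_cofinite_notMem.mono fun x hx => ?_
      have hx' : x • N.o ∈ A ↔ x • N.o ∈ E' := not_not.1 hx
      by_cases hx2 : x • N.o ∈ E'
      · exact Or.inl ⟨hx'.2 hx2, hx2⟩
      · exact Or.inr (z1 0 _ fun e => hx2 (hE 0 e))
  · refine n2 (sq_of_lim (l := (U : Filter ℕ)) (Z := tr N (A \ E'))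
      (Y := fun k => tr N (Y k \ E')) (fun x hx => ?_)
      (fun k T hT => energy hτ d2 i2 (y2 k) T fun x hx e => z2 _ ?_) ?_)
    · filter_upwards [hA (x • N.o)] with k b2
      exact ⟨b2.2 hx.1, hx.2⟩
    · exact (y4 k x e (hT x hx).1).elim (fun a => absurd (hE k a.1) (hT x hx).2) fun a => hE k a.1
    · refine h.eventually_cofinite_notMem.mono fun x hx => ?_
      have hx' : ¬ (x • N.o ∈ A ↔ x • N.o ∈ E') := not_not.1 hx
      by_cases hx2 : x • N.o ∈ E'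
      · exact Or.inr (z2 _ hx2)
      · exact Or.inl ⟨by_contra fun hx3 => hx' (iff_of_false hx3 hx2), hx2⟩

end Pool.Agent.MP_4f4d9f_gt.Rk

end
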