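import Pool.Agent.Mg.F4f4d9fr.G715938

set_option linter.all false

/-! The dimension inequality for matrices of chain maps. -/

open scoped InnerProductSpace

namespace Pool.Agent.MP_4f4d9f_gt.Db

open Finsupp FA
open ContinuousLinearMap (adjoint)

namespace Conc

section Prj

variable {H : Type} [NormedAddCommGroup H] [InnerProductSpace ℂ H] [CompleteSpace H]

/-- The projection onto the orthogonal complement of a set. -/
noncomputable def prj (A : Set H) : H →L[ℂ] H := (Submodule.span ℂ A)ᗮ.starProjection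

theorem prj_eq {A : Set H} {ξ : H} (h : ∀ a ∈ A, ⟪a, ξ⟫_ℂ = 0) : prj A ξ = ξ := by
  refine Submodule.starProjection_eq_self_iff.2 ?_
  rw [Submodule.mem_orthogonal]
  intro u hu
  induction hu using Submodule.span_induction with
  | mem x hx => exact h x hx
  | zero => simp
  | add x y _ _ hx hy => rw [inner_add_left, hx, hy, add_zero]
  | smul c x _ hx => rw [inner_smul_left, hx, mul_zero]

theorem prj_mem {A : Set H} {ξ : H} (h : ξ ∈ A) : prj A ξ = 0 :=
  Submodule.starProjection_apply_eq_zero_iff _ |>.2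
    (Submodule.le_orthogonal_orthogonal _ (Submodule.subset_span h))

theorem star_prj (A : Set H) : star (prj A) = prj A := isSelfAdjoint_starProjection _

theorem inner_prj (A : Set H) (ξ η : H) : ⟪ξ, prj A η⟫_ℂ = ⟪prj A ξ, η⟫_ℂ :=
  (Submodule.inner_starProjection_left_eq_right _ _ _).symm

end Prj

section Cells

variable {G E K K' : Type} [Group G] [NormedAddCommGroup E] [InnerProductSpace ℂ E]
  [Fintype K] [Fintype K'] (b : HilbertBasis G ℂ E)

/-- The basis vector of a cell. -/
noncomputable def cell (β : Fr G K) : HV E K := sgl β.i (b β.g⁻¹)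

theorem inner_cell (β : Fr G K) (ξ : HV E K) : ⟪cell b β, ξ⟫_ℂ = ⟪b β.g⁻¹, ξ β.i⟫_ℂ :=
  inner_sgl _ _ _

open Classical in
theorem inner_cell_cell (β β' : Fr G K) :
    ⟪cell b β, cell b β'⟫_ℂ = if β = β' then 1 else 0 := by
  obtain ⟨g, i⟩ := β
  obtain ⟨g', i'⟩ := β'
  rw [inner_cell, cell, sgl_apply]
  by_cases h : i = i'
  · subst h
    rw [if_pos rfl, inner_basis]
    by_cases h2 : g = g'
    · subst h2
      rw [if_pos rfl, if_pos rfl]
    · rw [if_neg fun e => h2 (inv_injective e), if_neg fun e => h2 (congrArg Fr.g e)]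
  · rw [if_neg h, inner_zero_right, if_neg fun e => h (congrArg Fr.i e)]

theorem ext_cell {ξ η : HV E K} (h : ∀ β, ⟪cell b β, ξ⟫_ℂ = ⟪cell b β, η⟫_ℂ) : ξ = η := by
  ext i
  refine ext_basis b fun g => ?_
  have := h ⟨g⁻¹, i⟩
  rwa [inner_cell, inner_cell, inv_inv] at this

theorem op_ext {F : Type} [NormedAddCommGroup F] [NormedSpace ℂ F] {S T : HV E K →L[ℂ] F}
    (h : ∀ β, S (cell b β) = T (cell b β)) (ξ : HV E K) : S ξ = T ξ := by
  have h1 : ∀ i : K, S ∘L sgl i = T ∘L sgl i := fun i =>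
    ContinuousLinearMap.ext_on (Submodule.dense_iff_topologicalClosure_eq_top.2 b.dense_span)
      (by
        rintro _ ⟨g, rfl⟩
        have := h ⟨g⁻¹, i⟩
        rwa [cell, inv_inv] at this)
  rw [← sum_sgl ξ, map_sum, map_sum]
  exact Finset.sum_congr rfl fun i _ => congrArg (fun U : E →L[ℂ] F => U (ξ i)) (h1 i)

theorem rep_cell (g : G) (β : Fr G K) : rep b K g (cell b β) = cell b (g • β) := by
  change diag K (rt b g) (sgl β.i (b β.g⁻¹)) = _
  rw [diag_sgl, rt_basis, cell, Fr.smul_g, Fr.smul_i, mul_inv_rev]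

omit [Fintype K] in
theorem fr_eq (i : K) : fr b K i = cell b ⟨1, i⟩ := by
  rw [fr, cell, inv_one]

/-- The vector of a chain. -/
noncomputable def emb : Ch G K →ₗ[ℤ] HV E K := linearCombination ℤ (cell b)

omit [Fintype K] in
theorem emb_single (β : Fr G K) : emb b (single β 1) = cell b β := by
  rw [emb, linearCombination_single, one_smul]

variable [CompleteSpace E]

/-- The projection onto the closed span of the cells that satisfy `p`. -/
noncomputable def PS (p : Fr G K → Prop) : HV E K →L[ℂ] HV E K := prj (cell b '' {β | ¬ p β})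

theorem PS_pos {p : Fr G K → Prop} {β : Fr G K} (h : p β) : PS b p (cell b β) = cell b β := by
  refine prj_eq ?_
  rintro _ ⟨k, hk, rfl⟩
  rw [inner_cell_cell, if_neg]
  rintro rfl
  exact hk h

theorem PS_neg {p : Fr G K → Prop} {β : Fr G K} (h : ¬ p β) : PS b p (cell b β) = 0 :=
  prj_mem ⟨β, h, rfl⟩

theorem star_PS (p : Fr G K → Prop) : star (PS b p) = PS b p := star_prj _

theorem inner_PS (p : Fr G K → Prop) (ξ η : HV E K) : ⟪ξ, PS b p η⟫_ℂ = ⟪PS b p ξ, η⟫_ℂ :=
  inner_prj _ _ _

theorem PS_emb (p : Fr G K → Prop) (c : Ch G K) : PS b p (emb b c) = emb b (flt p c) := by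
  classical
  induction c using ch_induction with
  | h0 => simp
  | hadd x y hx hy => simp only [map_add, hx, hy]
  | hneg x hx => simp only [map_neg, hx]
  | h1 β =>
    rw [flt_single, emb_single]
    split_ifs with h
    · rw [PS_pos b h, emb_single]
    · rw [PS_neg b h, map_zero]

variable {b} {ι : G →* vnAlg b} (hι : ∀ g h, (ι g).1 (b h) = b (g * h))

include hι

theorem adj_iota (g : G) : adjoint (ι g).1 = (ι g⁻¹).1 :=
  adjoint_perm b (Equiv.mulLeft g) (hι g) fun h => by rw [hι]; simp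

omit [Fintype K] in
theorem adj_co (g : G) (c : Ch G K) (k : K) :
    adjoint (co ι c k).1 (b g⁻¹) = emb b (rp G K g c) k := by
  classical
  induction c using ch_induction with
  | h0 => simp
  | hadd x y hx hy =>
    rw [map_add, map_add, map_add, Pi.add_apply, Subring.coe_add, map_add,
      _root_.add_apply, hx, hy, PiLp.add_apply]
  | hneg x hx =>
    rw [map_neg, map_neg, map_neg, Pi.neg_apply, Subring.coe_neg, map_neg,
      _root_.neg_apply, hx, PiLp.neg_apply]
  | h1 β =>
    rw [co_single, permRep_single, emb_single, cell, sgl_apply, Fr.smul_i, Fr.smul_g]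
    split_ifs with h
    · subst h
      rw [Pi.single_eq_same, adj_iota hι, hι, mul_inv_rev]
    · rw [Pi.single_eq_of_ne h]
      simp

theorem adj_cell {f : Ch G K →ₗ[ℤ] Ch G K'} (hf : Eqv (rp G K) (rp G K') f) (β : Fr G K) :
    adjoint (op (mat ι f)) (cell b β) = emb b (f (single β 1)) := by
  classical
  ext k
  rw [adj_apply, Finset.sum_eq_single β.i]
  · conv_rhs => rw [← β.smul_one, ← permRep_single, hf]
    rw [cell, sgl_apply, if_pos rfl, mat_apply, adj_co hι]
  · intro j _ hj
    rw [cell, sgl_apply, if_neg hj, map_zero]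
  · simp

theorem adj_PS {f : Ch G K →ₗ[ℤ] Ch G K'} (hf : Eqv (rp G K) (rp G K') f) {Z : Type}
    {l : Fr G K → Z} {l' : Fr G K' → Z} (hl : Loc l l' id f) (p : Z → Prop) (ξ : HV E K) :
    adjoint (op (mat ι f)) (PS b (fun β => p (l β)) ξ) =
      PS b (fun β => p (l' β)) (adjoint (op (mat ι f)) ξ) := by
  refine op_ext b (S := adjoint (op (mat ι f)) ∘L PS b fun β => p (l β))
    (T := PS b (fun β => p (l' β)) ∘L adjoint (op (mat ι f))) (fun β => ?_) ξ
  rw [ContinuousLinearMap.comp_apply, ContinuousLinearMap.comp_apply, adj_cell hι hf, PS_emb]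
  by_cases h : p (l β)
  · rw [PS_pos b (p := fun β => p (l β)) h, adj_cell hι hf, (hl β).flt_pos h]
  · rw [PS_neg b (p := fun β => p (l β)) h, map_zero, (hl β).flt_neg h, map_zero]

end Cells

section Darts

variable {G E I J D : Type} [Group G] [NormedAddCommGroup E] [InnerProductSpace ℂ E]
  [CompleteSpace E] [Fintype I] [Fintype J] [MulAction G D] {b : HilbertBasis G ℂ E}

/-- The dart of a cell. -/
def dl (lJ : J → D) (β : Fr G (I ⊕ J)) : Option D :=
  β.i.elim (fun _ => none) fun j => some (lb lJ ⟨β.g, j⟩)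

/-- The cell of the second summand. -/
def rr (I : Type) (β : Fr G J) : Fr G (I ⊕ J) := ⟨β.g, .inr β.i⟩

omit [Group G] [Fintype I] [Fintype J] in
theorem rr_inj {β β' : Fr G J} (h : rr I β = rr I β') : β = β' :=
  Fr.ext (congrArg Fr.g h :) (Sum.inr_injective (congrArg Fr.i h :))

omit [Group G] [Fintype I] [Fintype J] in
theorem cases_cell {P : Fr G (I ⊕ J) → Prop} (h1 : ∀ g i, P ⟨g, .inl i⟩) (h2 : ∀ β, P (rr I β))
    (β : Fr G (I ⊕ J)) : P β := by
  obtain ⟨g, i | j⟩ := β
  · exact h1 g i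
  · exact h2 ⟨g, j⟩

variable (b) in
/-- The projection onto the cells over a dart. -/
noncomputable def q (I : Type) [Fintype I] (lJ : J → D) (x : D) :
    HV E (I ⊕ J) →L[ℂ] HV E (I ⊕ J) := PS b fun β => dl lJ β = some x

variable {lJ : J → D}

theorem q_inl (x : D) (g : G) (i : I) : q b I lJ x (cell b ⟨g, .inl i⟩) = 0 :=
  PS_neg b (by simp [dl])

theorem q_pos {x : D} {β : Fr G J} (h : lb lJ β = x) :
    q b I lJ x (cell b (rr I β)) = cell b (rr I β) := PS_pos b (congrArg some h)

theorem q_neg {x : D} {β : Fr G J} (h : lb lJ β ≠ x) : q b I lJ x (cell b (rr I β)) = 0 :=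
  PS_neg b fun e => h (Option.some.inj e)

theorem q_q (x : D) (ξ : HV E (I ⊕ J)) : q b I lJ x (q b I lJ x ξ) = q b I lJ x ξ := by
  refine op_ext b (S := q b I lJ x ∘L q b I lJ x) (cases_cell (fun g i => ?_) fun β => ?_) ξ
  · simp only [ContinuousLinearMap.comp_apply, q_inl, map_zero]
  · by_cases h : lb lJ β = x
    · simp only [ContinuousLinearMap.comp_apply, q_pos h]
    · simp only [ContinuousLinearMap.comp_apply, q_neg h, map_zero]

theorem q_orth (x x' : D) (ξ : HV E (I ⊕ J)) (hx : x ≠ x') :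
    q b I lJ x (q b I lJ x' ξ) = 0 := by
  refine op_ext b (S := q b I lJ x ∘L q b I lJ x') (T := 0)
    (cases_cell (fun g i => ?_) fun β => ?_) ξ
  · simp only [ContinuousLinearMap.comp_apply, q_inl, map_zero, _root_.zero_apply]
  · by_cases h : lb lJ β = x'
    · simp only [ContinuousLinearMap.comp_apply, q_pos h, _root_.zero_apply]
      exact q_neg fun e => hx (e.symm.trans h)
    · simp only [ContinuousLinearMap.comp_apply, q_neg h, map_zero, _root_.zero_apply]

theorem rep_q (g : G) (x : D) (ξ : HV E (I ⊕ J)) :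
    rep b (I ⊕ J) g (q b I lJ x ξ) = q b I lJ (g • x) (rep b (I ⊕ J) g ξ) := by
  refine op_ext b (S := rep b (I ⊕ J) g ∘L q b I lJ x) (T := q b I lJ (g • x) ∘L rep b (I ⊕ J) g)
    (cases_cell (fun g i => ?_) fun β => ?_) ξ
  · simp only [ContinuousLinearMap.comp_apply, q_inl, map_zero, rep_cell, Fr.smul_mk]
  · have e : g • rr I β = rr I (g • β) := rfl
    by_cases h : lb lJ β = x
    · simp only [ContinuousLinearMap.comp_apply, q_pos h, rep_cell, e]
      rw [q_pos (by rw [lb_smul, h])]
    · simp only [ContinuousLinearMap.comp_apply, q_neg h, rep_cell, e, map_zero]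
      rw [q_neg fun e' => h (MulAction.injective g (by rwa [lb_smul] at e'))]

theorem q_fr (i : I ⊕ J) : (∀ x, q b I lJ x (fr b (I ⊕ J) i) = 0) ∨
    ∃ x, q b I lJ x (fr b (I ⊕ J) i) = fr b (I ⊕ J) i := by
  rw [fr_eq]
  rcases i with i | j
  · exact .inl fun x => q_inl x 1 i
  · exact .inr ⟨_, q_pos (β := ⟨1, j⟩) rfl⟩

omit [Fintype I] [Fintype J] in
theorem eqv_thI {t : Fr G J → Fr G J} (ht : ∀ (g : G) β, t (g • β) = g • t β) :
    Eqv (rp G (I ⊕ J)) (rp G (I ⊕ J)) (thI I t) := fun g c => by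
  have := eqv_lmapDomain ht g (prr c)
  rw [lmapDomain_apply, lmapDomain_apply] at this
  rw [thI_apply, thI_apply, eqv_prr, eqv_prl, this, eqv_chr, eqv_chl, map_sub]

variable {ι : G →* vnAlg b} (hι : ∀ g h, (ι g).1 (b h) = b (g * h))
  {t : Fr G J → Fr G J} (ht : ∀ (g : G) β, t (g • β) = g • t β)

include hι ht

theorem tau_inl (g : G) (i : I) :
    adjoint (op (mat ι (thI I t))) (cell b ⟨g, .inl i⟩) = -cell b ⟨g, .inl i⟩ := by
  rw [adj_cell hι (eqv_thI ht), thI_apply, prr_inl, prl_inl, mapDomain_zero, map_zero, zero_sub,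
    chl_single, map_neg, emb_single]

theorem tau_inr (β : Fr G J) :
    adjoint (op (mat ι (thI I t))) (cell b (rr I β)) = cell b (rr I (t β)) := by
  rw [adj_cell hι (eqv_thI ht), thI_apply, rr, prr_inr, prl_inr, mapDomain_single, map_zero,
    sub_zero, chr_single, emb_single, rr]

variable (hi : ∀ β, t (t β) = β)

include hi

theorem star_tau : star (adjoint (op (mat ι (thI I t)))) = adjoint (op (mat ι (thI I t))) := by
  classical
  ext1 ξ
  refine op_ext b (fun β => ext_cell b fun β' => ?_) ξ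
  rw [ContinuousLinearMap.star_eq_adjoint, ContinuousLinearMap.adjoint_inner_right]
  have hne : ∀ g i β, (⟨g, .inl i⟩ : Fr G (I ⊕ J)) ≠ rr I β := fun g i β e =>
    Sum.inl_ne_inr (congrArg Fr.i e)
  induction β using cases_cell with
  | h1 g i =>
    induction β' using cases_cell with
    | h1 g' i' => rw [tau_inl hι ht, tau_inl hι ht, inner_neg_left, inner_neg_right]
    | h2 β' =>
      rw [tau_inl hι ht, tau_inr hι ht, inner_neg_right, inner_cell_cell, inner_cell_cell,
        if_neg (hne _ _ _).symm, if_neg (hne _ _ _).symm, neg_zero]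
  | h2 β =>
    induction β' using cases_cell with
    | h1 g' i' =>
      rw [tau_inl hι ht, tau_inr hι ht, inner_neg_left, inner_cell_cell, inner_cell_cell,
        if_neg (hne _ _ _), if_neg (hne _ _ _), neg_zero]
    | h2 β' =>
      rw [tau_inr hι ht, tau_inr hι ht, inner_cell_cell, inner_cell_cell]
      by_cases h : β' = t β
      · rw [if_pos (by rw [h, hi]), if_pos (by rw [h])]
      · rw [if_neg fun e => h (by rw [← rr_inj e, hi]), if_neg fun e => h (rr_inj e)]

theorem tau_tau (ξ : HV E (I ⊕ J)) :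
    adjoint (op (mat ι (thI I t))) (adjoint (op (mat ι (thI I t))) ξ) = ξ := by
  refine op_ext b (S := adjoint (op (mat ι (thI I t))) ∘L adjoint (op (mat ι (thI I t))))
    (T := ContinuousLinearMap.id ℂ _) (cases_cell (fun g i => ?_) fun β => ?_) ξ
  · rw [ContinuousLinearMap.comp_apply, tau_inl hι ht, map_neg, tau_inl hι ht, neg_neg,
      ContinuousLinearMap.id_apply]
  · rw [ContinuousLinearMap.comp_apply, tau_inr hι ht, tau_inr hι ht, hi,
      ContinuousLinearMap.id_apply]

theorem tau_neg {ξ : HV E (I ⊕ J)} (h : ∀ x, q b I lJ x ξ = 0) :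
    adjoint (op (mat ι (thI I t))) ξ = -ξ := by
  have h1 : ∀ β : Fr G J, ⟪cell b (rr I β), ξ⟫_ℂ = 0 := fun β => by
    rw [← q_pos (lJ := lJ) (β := β) rfl, q, ← inner_PS, ← q, h, inner_zero_right]
  refine ext_cell b fun β => ?_
  rw [← star_tau hι ht hi, ContinuousLinearMap.star_eq_adjoint,
    ContinuousLinearMap.adjoint_inner_right, inner_neg_right]
  induction β using cases_cell with
  | h1 g i => rw [tau_inl hι ht, inner_neg_left]
  | h2 β => rw [tau_inr hι ht, h1, h1, neg_zero]

omit hi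

theorem tau_q {bar : D → D} (hb : ∀ x, bar (bar x) = x) (hl : ∀ β, lb lJ (t β) = bar (lb lJ β))
    (x : D) (ξ : HV E (I ⊕ J)) : adjoint (op (mat ι (thI I t))) (q b I lJ x ξ) =
      q b I lJ (bar x) (adjoint (op (mat ι (thI I t))) ξ) := by
  refine op_ext b (S := adjoint (op (mat ι (thI I t))) ∘L q b I lJ x)
    (T := q b I lJ (bar x) ∘L adjoint (op (mat ι (thI I t))))
    (cases_cell (fun g i => ?_) fun β => ?_) ξ
  · simp only [ContinuousLinearMap.comp_apply, q_inl, map_zero, tau_inl hι ht, map_neg, neg_zero]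
  · by_cases h : lb lJ β = x
    · simp only [ContinuousLinearMap.comp_apply, q_pos h, tau_inr hι ht]
      rw [q_pos (by rw [hl, h])]
    · simp only [ContinuousLinearMap.comp_apply, q_neg h, tau_inr hι ht, map_zero]
      rw [q_neg fun e => h (by rw [← hb (lb lJ β), ← hl, e, hb])]

end Darts

end Conc

open Conc in
theorem conc_stmt (h : AtomsStmt) : ConcStmt := by
  intro G E _ _ _ _ b ι hι V D I J K _ _ _ _ _ o ho lI lJ lK f hf hloc bar t hb hne hcut ht hi hl
    σ hσ hσ2 hσ3
  have ht' : ∀ (g : G) (β : Fr G J), σ (lb lJ (g • β)) • g • β = g • σ (lb lJ β) • β := by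
    intro g β
    rw [lb_smul, hσ, mul_smul, inv_smul_smul, mul_smul]
  have hσ4 : ∀ x, σ (σ x • x) = σ x := fun x => by rw [hσ, mul_inv_cancel_right]
  have hb' : ∀ x, σ (σ x • x) • σ x • x = x := fun x => by rw [hσ4, ← mul_smul, hσ2, one_smul]
  have hi' : ∀ β : Fr G J, σ (lb lJ (σ (lb lJ β) • β)) • σ (lb lJ β) • β = β := fun β => by
    rw [lb_smul, hσ4, ← mul_smul, hσ2, one_smul]
  refine h G (HV E (I ⊕ J)) (I ⊕ J) D (rep b (I ⊕ J)) (fr b (I ⊕ J)) (gframe b _) (q b I lJ)
    (fun x => star_PS b _) q_q q_orth rep_q q_fr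
    (fun s => adjoint (op (mat ι (thI I (cond s (fun β => σ (lb lJ β) • β) t)))))
    (fun s => cond s (fun x => σ x • x) bar) ?_ ?_ ?_ ?_ ?_ ?_ ?_ ?_
    (adjoint (op (mat ι f))).ker (adjoint (op (mat ι f))).isClosed_ker
    (eq_op _).adj.inv_ker fun x => ?_
  · rintro (_ | _)
    · exact star_tau hι ht hi
    · exact star_tau hι ht' hi'
  · rintro (_ | _)
    · exact tau_tau hι ht hi
    · exact tau_tau hι ht' hi'
  · exact fun s => (eq_op _).adj
  · rintro (_ | _)
    · exact hb
    · exact hb'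
  · rintro (_ | _)
    · exact hne
    · exact hσ3
  · rintro (_ | _)
    · exact tau_q hι ht hb hl
    · exact tau_q hι ht' (bar := fun x => σ x • x) hb' fun β => lb_smul _ _ _
  · rintro (_ | _) ξ
    · exact tau_neg hι ht hi
    · exact tau_neg hι ht' hi'
  · refine fun x => ⟨σ x, rfl, fun ξ => ?_⟩
    refine op_ext b (S := adjoint (op (mat ι (thI I fun β => σ (lb lJ β) • β))) ∘L q b I lJ x)
      (T := rep b (I ⊕ J) (σ x) ∘L q b I lJ x) (cases_cell (fun g i => ?_) fun β => ?_) ξ
    · simp only [ContinuousLinearMap.comp_apply, q_inl, map_zero]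
    · by_cases e : lb lJ β = x
      · rw [ContinuousLinearMap.comp_apply, ContinuousLinearMap.comp_apply, q_pos e,
          tau_inr hι (t := fun β => σ (lb lJ β) • β) ht', rep_cell, e]
        rfl
      · simp only [ContinuousLinearMap.comp_apply, q_neg e, map_zero]
  · obtain ⟨S, hS1, hS2, hS3⟩ := hcut x
    have hlb : ∀ β : Fr G J, lb (Sum.elim lI (o ∘ lJ)) (rr I β) = o (lb lJ β) := fun β =>
      (ho _ _).symm
    obtain ⟨P, hP⟩ : ∃ P, P = PS b fun β : Fr G (I ⊕ J) => lb (Sum.elim lI (o ∘ lJ)) β ∈ S :=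
      ⟨_, rfl⟩
    have p1 : ∀ β : Fr G J, o (lb lJ β) ∈ S → P (cell b (rr I β)) = cell b (rr I β) :=
      fun β e => by rw [hP]; exact PS_pos b (by rwa [hlb])
    have p2 : ∀ β : Fr G J, o (lb lJ β) ∉ S → P (cell b (rr I β)) = 0 :=
      fun β e => by rw [hP]; exact PS_neg b (by rwa [hlb])
    have p3 : ∀ (g : G) (i : I), P (cell b ⟨g, .inl i⟩) = cell b ⟨g, .inl i⟩ ∨
        P (cell b ⟨g, .inl i⟩) = 0 := fun g i => by
      rw [hP]
      exact (Classical.em _).imp (PS_pos b) (PS_neg b)
    have p4 : ∀ x', o x' ∈ S → ∀ ξ, q b I lJ x' (P ξ) = q b I lJ x' ξ := by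
      intro x' hx ξ
      refine op_ext b (S := q b I lJ x' ∘L P) (cases_cell (fun g i => ?_) fun β => ?_) ξ
      · rcases p3 g i with e | e <;>
          simp only [ContinuousLinearMap.comp_apply, e, q_inl, map_zero]
      · by_cases e : o (lb lJ β) ∈ S
        · rw [ContinuousLinearMap.comp_apply, p1 β e]
        · rw [ContinuousLinearMap.comp_apply, p2 β e, map_zero, q_neg fun e' => e (e' ▸ hx)]
    refine ⟨P, fun ξ hξ => ?_, fun ξ => ?_, p4 x hS1, fun x' => ?_⟩
    · change adjoint (op (mat ι f)) (P ξ) = 0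
      rw [hP, adj_PS hι hf hloc (· ∈ S), show adjoint (op (mat ι f)) ξ = 0 from hξ, map_zero]
    · refine op_ext b (S := adjoint (op (mat ι (thI I t))) ∘L (P - q b I lJ x))
        (T := (P - q b I lJ x) ∘L adjoint (op (mat ι (thI I t))))
        (cases_cell (fun g i => ?_) fun β => ?_) ξ
      · rcases p3 g i with e | e <;>
          simp only [ContinuousLinearMap.comp_apply, _root_.sub_apply, e, q_inl,
            map_zero, tau_inl hι ht, map_neg, sub_zero, neg_zero]
      · simp only [ContinuousLinearMap.comp_apply, _root_.sub_apply, tau_inr hι ht]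
        by_cases e1 : lb lJ β = x
        · rw [p1 β (e1 ▸ hS1), q_pos e1, sub_self, map_zero, p2 _ (by rwa [hl, e1]),
            q_neg (by rw [hl, e1]; exact hne x), sub_self]
        by_cases e2 : lb lJ β = bar x
        · rw [p2 β (e2 ▸ hS2), q_neg e1, sub_self, map_zero, p1 _ (by rwa [hl, e2, hb]),
            q_pos (by rw [hl, e2, hb]), sub_self]
        have e3 : lb lJ (t β) ≠ x := fun e => e2 (by rw [← e, hl, hb])
        rw [q_neg e1, q_neg e3, sub_zero, sub_zero]
        by_cases e4 : o (lb lJ β) ∈ S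
        · rw [p1 β e4, tau_inr hι ht, p1 _ (by rw [hl]; exact (hS3 _ e1 e2).1 e4)]
        · rw [p2 β e4, map_zero, p2 _ (by rw [hl]; exact fun e => e4 ((hS3 _ e1 e2).2 e))]
    · by_cases hx : o x' ∈ S
      · exact .inl (p4 x' hx)
      · refine .inr fun ξ => op_ext b (S := q b I lJ x' ∘L P) (T := 0)
          (cases_cell (fun g i => ?_) fun β => ?_) ξ
        · rcases p3 g i with e | e <;>
            simp only [ContinuousLinearMap.comp_apply, e, q_inl, map_zero,
              _root_.zero_apply]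
        · by_cases e : o (lb lJ β) ∈ S
          · rw [ContinuousLinearMap.comp_apply, p1 β e, q_neg fun e' => hx (by rwa [← e']),
              _root_.zero_apply]
          · rw [ContinuousLinearMap.comp_apply, p2 β e, map_zero, _root_.zero_apply]

end Pool.Agent.MP_4f4d9f_gt.Db
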