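import Pool.Agent.Mg.F4f4d9fr.G715938
import Pool.Agent.Mg.F4f4d9fr.G27cbb1

set_option linter.all false

section

/-! Operators on a Hilbert space with a basis. -/

open scoped InnerProductSpace

namespace Pool.Agent.MP_4f4d9f_gt.Cb

open Finsupp Db
open ContinuousLinearMap (adjoint)

variable {Z Z' H H' : Type} [NormedAddCommGroup H] [InnerProductSpace ℂ H]
  [NormedAddCommGroup H'] [InnerProductSpace ℂ H'] (b : HilbertBasis Z ℂ H)
  (b' : HilbertBasis Z' ℂ H')

theorem hb_ext {S T : H →L[ℂ] H'} (h : ∀ z, S (b z) = T (b z)) : S = T :=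
  ContinuousLinearMap.ext_on (Submodule.dense_iff_topologicalClosure_eq_top.2 b.dense_span)
    (by rintro _ ⟨z, rfl⟩; exact h z)

theorem vec_ext {ξ η : H} (h : ∀ z, ⟪b z, ξ⟫_ℂ = ⟪b z, η⟫_ℂ) : ξ = η := FA.ext_basis b h

open Classical in
theorem inner_hb (z z' : Z) : ⟪b z, b z'⟫_ℂ = if z = z' then 1 else 0 := FA.inner_basis b z z'

/-- The vector of an integral chain. -/
noncomputable def embZ : (Z →₀ ℤ) →ₗ[ℤ] H := linearCombination ℤ b

theorem embZ_single (z : Z) : embZ b (single z 1) = b z := by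
  rw [embZ, linearCombination_single, one_smul]

theorem inner_embZ (z : Z) (c : Z →₀ ℤ) : ⟪b z, embZ b c⟫_ℂ = c z := by
  classical
  induction c using ch_induction with
  | h0 => simp
  | hadd x y hx hy => simp [hx, hy]
  | hneg x hx => simp [hx]
  | h1 β =>
    rw [embZ_single, inner_hb, single_apply]
    by_cases h : z = β
    · simp [h]
    · simp [h, Ne.symm h]

/-- An operator that extends a map of chains. -/
theorem map_embZ {T : H →L[ℂ] H'} {f : (Z →₀ ℤ) →ₗ[ℤ] (Z' →₀ ℤ)}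
    (h : ∀ z, T (b z) = embZ b' (f (single z 1))) (c : Z →₀ ℤ) : T (embZ b c) = embZ b' (f c) := by
  induction c using ch_induction with
  | h0 => simp
  | hadd x y hx hy => simp only [map_add, hx, hy]
  | hneg x hx => simp only [map_neg, hx]
  | h1 β => rw [embZ_single, h]

/-- The unitary of a permutation of the basis. -/
noncomputable def pm (σ : Equiv.Perm Z) : H →L[ℂ] H := (conjB b).symm (perm σ.symm)

theorem pm_apply (σ : Equiv.Perm Z) (z : Z) : pm b σ (b z) = b (σ z) := conjB_symm_basis b _ z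

theorem pm_one : pm b 1 = 1 := hb_ext b fun z => by rw [pm_apply]; rfl

theorem pm_mul (σ σ' : Equiv.Perm Z) : pm b (σ * σ') = pm b σ * pm b σ' :=
  hb_ext b fun z => by
    rw [mul_apply_eq_comp, pm_apply, pm_apply, pm_apply]; rfl

theorem pm_comm {σ σ' : Equiv.Perm Z} (h : Commute σ σ') : Commute (pm b σ) (pm b σ') := by
  rw [Commute, SemiconjBy, ← pm_mul, h.eq, pm_mul]

/-- The representation of a group that permutes the basis. -/
noncomputable def rep (Λ : Type) [Group Λ] [MulAction Λ Z] : Λ →* (H →L[ℂ] H) where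
  toFun g := pm b (MulAction.toPerm g)
  map_one' := hb_ext b fun z => by rw [pm_apply]; simp
  map_mul' g g' := hb_ext b fun z => by
    rw [mul_apply_eq_comp, pm_apply, pm_apply, pm_apply]; simp [mul_smul]

theorem rep_apply {Λ : Type} [Group Λ] [MulAction Λ Z] (g : Λ) (z : Z) :
    rep b Λ g (b z) = b (g • z) := pm_apply b _ z

variable [CompleteSpace H] [CompleteSpace H']

theorem star_pm (σ : Equiv.Perm Z) : star (pm b σ) = pm b σ⁻¹ :=
  FA.adjoint_perm b σ (pm_apply b σ) (pm_apply b σ⁻¹)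

theorem star_rep {Λ : Type} [Group Λ] [MulAction Λ Z] (g : Λ) : star (rep b Λ g) = rep b Λ g⁻¹ :=
  (star_pm b _).trans (congrArg (pm b) (Equiv.ext fun _ => rfl))

theorem gframe_of_free {Λ I : Type} [Group Λ] [MulAction Λ Z] {r : I → Z} (h : FreeOn Λ r) :
    GFrame (rep b Λ) fun i => b (r i) where
  star_eq := star_rep b
  parseval ξ := by
    simp only [rep_apply]
    exact ((Equiv.prodComm I Λ).trans (Equiv.ofBijective _ h)).hasSum_iff
      (f := fun z => ‖⟪b z, ξ⟫_ℂ‖ ^ 2) |>.2 (FA.hasSum_basis b ξ)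

/-- The projection onto the closed span of the basis vectors that satisfy `p`. -/
noncomputable def PS (p : Z → Prop) : H →L[ℂ] H := Conc.prj (b '' {z | ¬ p z})

theorem PS_pos {p : Z → Prop} {z : Z} (h : p z) : PS b p (b z) = b z := by
  refine Conc.prj_eq ?_
  rintro _ ⟨k, hk, rfl⟩
  rw [inner_hb, if_neg]
  rintro rfl
  exact hk h

theorem PS_neg {p : Z → Prop} {z : Z} (h : ¬ p z) : PS b p (b z) = 0 := Conc.prj_mem ⟨z, h, rfl⟩

theorem PS_proj (p : Z → Prop) : IsStarProjection (PS b p) := isStarProjection_starProjection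

open Classical in
theorem inner_PS (p : Z → Prop) (z : Z) (ξ : H) :
    ⟪b z, PS b p ξ⟫_ℂ = if p z then ⟪b z, ξ⟫_ℂ else 0 := by
  rw [PS, Conc.inner_prj, ← PS]
  split_ifs with h
  · rw [PS_pos b h]
  · rw [PS_neg b h, inner_zero_left]

/-- An operator whose matrix respects labels commutes with the projections defined by labels. -/
theorem PS_comm {L : Type} (l : Z → L) (l' : Z' → L) {T : H →L[ℂ] H'}
    (h : ∀ z z', l z ≠ l' z' → ⟪b' z', T (b z)⟫_ℂ = 0) (p : L → Prop) :
    T ∘L PS b (fun z => p (l z)) = PS b' (fun z => p (l' z)) ∘L T := by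
  classical
  refine hb_ext b fun z => vec_ext b' fun z' => ?_
  rw [ContinuousLinearMap.comp_apply, ContinuousLinearMap.comp_apply, inner_PS]
  by_cases e : l z = l' z'
  · rw [← e]
    split_ifs with h1
    · rw [PS_pos b (p := fun z => p (l z)) h1]
    · rw [PS_neg b (p := fun z => p (l z)) h1, map_zero, inner_zero_right]
  · rw [h z z' e, ite_self]
    by_cases h1 : p (l z)
    · rw [PS_pos b (p := fun z => p (l z)) h1, h z z' e]
    · rw [PS_neg b (p := fun z => p (l z)) h1, map_zero, inner_zero_right]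

/-- The contraction that sends one orthonormal family to another. -/
theorem exists_contr {Λ : Type} (u : Λ → Z) (v : Λ → Z') (hu : Function.Injective u)
    (hv : Function.Injective v) : ∃ S : H →L[ℂ] H', ‖S‖ ≤ 1 ∧ (∀ g, S (b (u g)) = b' (v g)) ∧
      ∀ z, (∀ g, u g ≠ z) → S (b z) = 0 := by
  classical
  let L₀ := (b.orthonormal.comp u hu).orthogonalFamily.linearIsometry
  let L := (b'.orthonormal.comp v hv).orthogonalFamily.linearIsometry
  have h0 : ∀ g, L₀ (lp.single 2 g 1) = b (u g) := fun g => by simp [L₀]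
  have h1 : ∀ g, L (lp.single 2 g 1) = b' (v g) := fun g => by simp [L]
  have h2 : ∀ z g, (adjoint L₀.toContinuousLinearMap (b z)) g = ⟪b (u g), b z⟫_ℂ := fun z g => by
    rw [← h0, ← LinearIsometry.coe_toContinuousLinearMap, ← ContinuousLinearMap.adjoint_inner_right,
      lp.inner_single_left]
    simp
  refine ⟨L.toContinuousLinearMap ∘L adjoint L₀.toContinuousLinearMap, ?_, fun g => ?_,
    fun z hz => ?_⟩
  · refine (ContinuousLinearMap.opNorm_comp_le _ _).trans ?_
    rw [LinearIsometryEquiv.norm_map]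
    exact mul_le_one₀ L.norm_toContinuousLinearMap_le (norm_nonneg _)
      L₀.norm_toContinuousLinearMap_le
  · have : adjoint L₀.toContinuousLinearMap (b (u g)) = lp.single 2 g 1 := by
      ext g'
      rw [h2, inner_hb, lp.single_apply, Pi.single_apply]
      simp only [hu.eq_iff]
    rw [ContinuousLinearMap.comp_apply, this]
    exact h1 g
  · have : adjoint L₀.toContinuousLinearMap (b z) = 0 := by
      ext g'
      rw [h2, inner_hb, if_neg (hz g')]
      rfl
    rw [ContinuousLinearMap.comp_apply, this, map_zero]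

/-- Equivariant kernels of finite propagation define bounded operators. -/
theorem exists_ker {Λ I : Type} [Group Λ] [Fintype I] [MulAction Λ Z] [MulAction Λ Z'] {r : I → Z}
    (hr : FreeOn Λ r) (hf : ∀ z' : Z', Function.Injective fun g : Λ => g • z') (c : I → Z' →₀ ℂ) :
    ∃ T : H →L[ℂ] H', ‖T‖ ≤ ∑ i, ∑ z ∈ (c i).support, ‖c i z‖ ∧
      ∀ (g : Λ) i, T (b (g • r i)) = rep b' Λ g (linearCombination ℂ b' (c i)) := by
  classical
  choose S h1 h2 h3 using fun (i : I) (z : Z') => exists_contr b b' (fun g : Λ => g • r i)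
    (fun g : Λ => g • z) (fun g g' e => congrArg Prod.fst (hr.1 (a₁ := (g, i)) (a₂ := (g', i)) e))
    (hf z)
  refine ⟨∑ i, ∑ z ∈ (c i).support, c i z • S i z, ?_, fun g i => ?_⟩
  · refine (norm_sum_le _ _).trans (Finset.sum_le_sum fun i _ => (norm_sum_le _ _).trans
      (Finset.sum_le_sum fun z _ => ?_))
    rw [norm_smul]
    exact mul_le_of_le_one_right (norm_nonneg _) (h1 i z)
  · rw [_root_.sum_apply, Finset.sum_eq_single i]
    · rw [linearCombination_apply, Finsupp.sum, map_sum, _root_.sum_apply]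
      refine Finset.sum_congr rfl fun z _ => ?_
      rw [_root_.smul_apply, h2, ContinuousLinearMap.map_smul, rep_apply]
    · intro j _ hj
      rw [_root_.sum_apply]
      refine Finset.sum_eq_zero fun z _ => ?_
      rw [_root_.smul_apply, h3 j z _ fun g' e =>
        hj (congrArg Prod.snd (hr.1 (a₁ := (g', j)) (a₂ := (g, i)) e)), smul_zero]
    · simp

end Pool.Agent.MP_4f4d9f_gt.Cb

end

section

/-! The coloured model: hyperplanes are coloured by characters of `ZMod N`. -/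

open scoped InnerProductSpace

namespace Pool.Agent.MP_4f4d9f_gt.Cb

open Finsupp Db
open ContinuousLinearMap (adjoint)

/-- The colours. -/
abbrev Cl (N : ℕ) : Type := AddChar (ZMod N) ℂ

/-- A coloured hyperplane. -/
@[ext] structure Lt (Hy : Type) (N : ℕ) : Type where
  /-- the hyperplane -/
  h : Hy
  /-- the colour -/
  c : Cl N

instance {G Hy : Type} [Group G] [MulAction G Hy] {N : ℕ} : MulAction G (Lt Hy N) where
  smul g x := ⟨g • x.h, x.c⟩
  one_smul x := Lt.ext (one_smul G x.h) rfl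
  mul_smul g g' x := Lt.ext (mul_smul g g' x.h) rfl

theorem Lt.smul_mk {G Hy : Type} [Group G] [MulAction G Hy] {N : ℕ} (g : G) (h : Hy) (c : Cl N) :
    g • (⟨h, c⟩ : Lt Hy N) = ⟨g • h, c⟩ := rfl

/-- Crossing hyperplanes of different colours. -/
def cU {V Hy : Type} (sep : V → V → Finset Hy) (N : ℕ) (x y : Lt Hy N) : Prop :=
  Cross sep x.h y.h ∧ x.c ≠ y.c

/-- The group dual to the colourings. -/
abbrev Mu (Hy : Type) (N : ℕ) : Type := Multiplicative (Hy →₀ ZMod N)

/-- The group that unfolds the coloured cells, times the group dual to the colourings. -/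
abbrev UA {V Hy : Type} (sep : V → V → Finset Hy) (N : ℕ) : Type := RA (cU sep N) × Mu Hy N

/-- The index sets of the model. -/
@[ext] structure ZZ {V Hy : Type} (sep : V → V → Finset Hy) (N : ℕ) (Y : Type) : Type where
  /-- the group element -/
  x : UA sep N
  /-- the cell -/
  y : Y

/-- `ρ` lists the directions of the cell `β` by their pairwise different colours. -/
structure Valid {B Hy : Type} (σ : B → Finset Hy) {N : ℕ} (β : B) (ρ : Cl N → Option Hy) :
    Prop where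
  mem : ∀ h, h ∈ σ β ↔ ∃ c, ρ c = some h
  inj : ∀ c c' h, ρ c = some h → ρ c' = some h → c = c'

instance {B Hy : Type} (σ : B → Finset Hy) {N : ℕ} [NeZero N] (β : B) :
    Finite {ρ : Cl N → Option Hy // Valid σ β ρ} := by
  classical
  refine Set.Finite.subset (Set.Finite.pi' fun _ : Cl N =>
    (insert none ((σ β).image some) : Finset (Option Hy)).finite_toSet) fun ρ hρ c => ?_
  rcases h : ρ c with _ | h'
  · simp
  · simpa using (hρ.mem h').2 ⟨c, h⟩

noncomputable instance {B Hy : Type} (σ : B → Finset Hy) {N : ℕ} [NeZero N] (β : B) :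
    Fintype {ρ : Cl N → Option Hy // Valid σ β ρ} := Fintype.ofFinite _

variable {G V Hy B B₂ Y : Type} [Group G] [MulAction G V] [MulAction G Hy] [MulAction G B]
  {sep : V → V → Finset Hy} {o : B → V} {σ : B → Finset Hy} {F : Hy → B → B} {d : ℕ}

/-- Coloured cells. -/
@[ext] structure Col (_C : Cells G sep o σ F d) (N : ℕ) : Type where
  /-- the cell -/
  β : B
  /-- the direction of each colour -/
  ρ : Cl N → Option Hy
  valid : Valid σ β ρ

variable {C : Cells G sep o σ F d} {N : ℕ}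

instance : MulAction G (Col C N) where
  smul g y := ⟨g • y.β, fun c => (y.ρ c).map (g • ·), by
    refine ⟨fun h => ?_, fun c c' h h1 h2 => ?_⟩
    · rw [← smul_inv_smul g h, C.σ_eqv, y.valid.mem]
      simp only [Option.map_eq_some_iff, smul_left_cancel_iff, exists_eq_right]
    · obtain ⟨k, hk, rfl⟩ := Option.map_eq_some_iff.1 h1
      obtain ⟨k', hk', e⟩ := Option.map_eq_some_iff.1 h2
      exact y.valid.inj c c' k hk (by rwa [← MulAction.injective g e])⟩
  one_smul y := Col.ext (one_smul G y.β) (funext fun c => by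
    change (y.ρ c).map ((1 : G) • ·) = _
    simp)
  mul_smul g g' y := Col.ext (mul_smul g g' y.β) (funext fun c => by
    change (y.ρ c).map ((g * g') • ·) = ((y.ρ c).map (g' • ·)).map (g • ·)
    simp [mul_smul, Function.comp_def])

theorem Col.smul_β (g : G) (y : Col C N) : (g • y).β = g • y.β := rfl

theorem Col.smul_ρ (g : G) (y : Col C N) (c : Cl N) : (g • y).ρ c = (y.ρ c).map (g • ·) := rfl

/-- The flip of a coloured cell. -/
def Col.flip (h : Hy) (y : Col C N) : Col C N :=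
  ⟨F h y.β, y.ρ, fun k => by rw [C.flip.sig, y.valid.mem], y.valid.inj⟩

/-! ### The group of the model -/

theorem Wl.cU_smul (W : Wl G sep) (N : ℕ) (g : G) (x y : Lt Hy N) (h : cU sep N x y) :
    cU sep N (g • x) (g • y) := ⟨W.cross_smul g _ _ h.1, h.2⟩

/-- The action of `G` on the group dual to the colourings. -/
noncomputable def autMu (Hy : Type) [MulAction G Hy] (N : ℕ) (g : G) : Mu Hy N ≃* Mu Hy N :=
  AddEquiv.toMultiplicative (Finsupp.domCongr (MulAction.toPerm g))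

theorem autMu_single (g : G) (h : Hy) (j : ZMod N) :
    autMu Hy N g (Multiplicative.ofAdd (single h j)) = Multiplicative.ofAdd (single (g • h) j) :=
  congrArg Multiplicative.ofAdd (equivMapDomain_single _ _ _)

/-- The action of `G` on the unfolding group. -/
noncomputable def autUA (W : Wl G sep) (N : ℕ) : G →* MulAut (UA sep N) where
  toFun g := MulEquiv.prodCongr (raAut (W.cU_smul N) g) (autMu Hy N g)
  map_one' := MulEquiv.ext fun x => Prod.ext
    (DFunLike.congr_fun (map_one (raAut (W.cU_smul N))) x.1)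
    (Multiplicative.ext (Finsupp.ext fun h => congrArg x.2.toAdd (by simp)))
  map_mul' g g' := MulEquiv.ext fun x => Prod.ext
    (DFunLike.congr_fun (map_mul (raAut (W.cU_smul N)) g g') x.1)
    (Multiplicative.ext (Finsupp.ext fun h => congrArg x.2.toAdd (by simp [mul_smul])))

theorem autUA_fst (W : Wl G sep) (g : G) (x : UA sep N) :
    (autUA W N g x).1 = raAut (W.cU_smul N) g x.1 := rfl

theorem autUA_gen (W : Wl G sep) (g : G) (h : Hy) (c : Cl N) :
    autUA W N g (gen _ ⟨h, c⟩, 1) = (gen _ ⟨g • h, c⟩, 1) :=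
  Prod.ext (raAut_gen (W.cU_smul N) g _) (map_one (autMu Hy N g))

theorem autUA_mu (W : Wl G sep) (g : G) (a : Mu Hy N) :
    autUA W N g (1, a) = (1, autMu Hy N g a) := Prod.ext (map_one (raAut (W.cU_smul N) g)) rfl

/-- The group of the model. -/
def Lam (W : Wl G sep) (N : ℕ) : Type := UA sep N ⋊[autUA W N] G

noncomputable instance (W : Wl G sep) : Group (Lam W N) :=
  inferInstanceAs (Group (UA sep N ⋊[autUA W N] G))

noncomputable instance (W : Wl G sep) [MulAction G Y] : MulAction (Lam W N) (ZZ sep N Y) where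
  smul l z := ⟨l.left * autUA W N l.right z.x, l.right • z.y⟩
  one_smul z := ZZ.ext (by
    change 1 * autUA W N 1 z.x = z.x
    simp) (one_smul G z.y)
  mul_smul l l' z := ZZ.ext (by
    change l.left * autUA W N l.right l'.left * autUA W N (l.right * l'.right) z.x =
      l.left * autUA W N l.right (l'.left * autUA W N l'.right z.x)
    simp [mul_assoc]) (mul_smul l.right l'.right z.y)

theorem Lam.smul_def (W : Wl G sep) [MulAction G Y] (l : Lam W N) (z : ZZ sep N Y) :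
    l • z = ⟨l.left * autUA W N l.right z.x, l.right • z.y⟩ := rfl

theorem freeOn_ZZ (W : Wl G sep) [MulAction G Y] {I : Type} {r : I → Y} (h : FreeOn G r) :
    FreeOn (Lam W N) fun i => (⟨1, r i⟩ : ZZ sep N Y) := by
  refine ⟨fun ⟨l, i⟩ ⟨l', i'⟩ e => ?_, fun z => ?_⟩
  · have e1 := congrArg ZZ.x e
    have e2 := h.1 (a₁ := (l.right, i)) (a₂ := (l'.right, i')) (congrArg ZZ.y e)
    simp only [Lam.smul_def, map_one, mul_one] at e1
    exact Prod.ext (SemidirectProduct.ext e1 (Prod.mk.inj e2).1) (Prod.mk.inj e2).2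
  · obtain ⟨⟨g, i⟩, e⟩ := h.2 z.y
    exact ⟨(⟨z.x, g⟩, i), ZZ.ext (by simp [Lam.smul_def]) e⟩

theorem FreeOn.inj {Λ Z I : Type} [Group Λ] [MulAction Λ Z] {r : I → Z} (h : FreeOn Λ r) (z : Z) :
    Function.Injective fun g : Λ => g • z := fun g g' e => by
  obtain ⟨⟨g₀, i⟩, rfl⟩ := h.2 z
  exact mul_right_cancel (congrArg Prod.fst (h.1 (a₁ := (g * g₀, i)) (a₂ := (g' * g₀, i))
    (by simpa only [mul_smul] using e)))

/-- The orbits of coloured cells. -/
abbrev FI (σ : B → Finset Hy) {I : Type} (r : I → B) (N : ℕ) : Type :=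
  Σ i : I, {ρ : Cl N → Option Hy // Valid σ (r i) ρ}

variable (C) in
/-- The representatives of the orbits of coloured cells. -/
def rC {I : Type} (r : I → B) (j : FI σ r N) : Col C N := ⟨r j.1, j.2.1, j.2.2⟩

theorem freeOn_col {I : Type} {r : I → B} (h : FreeOn G r) : FreeOn G (rC C (N := N) r) := by
  refine ⟨fun ⟨g, i, ρ⟩ ⟨g', i', ρ'⟩ e => ?_, fun y => ?_⟩
  · have e1 := h.1 (a₁ := (g, i)) (a₂ := (g', i')) (congrArg Col.β e)
    obtain ⟨rfl, rfl⟩ := Prod.mk.inj e1
    have e2 : ρ = ρ' := Subtype.ext (congrArg Col.ρ (MulAction.injective g e))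
    rw [e2]
  · obtain ⟨⟨g, i⟩, e⟩ := h.2 y.β
    have e1 : (g⁻¹ • y).β = r i := by rw [Col.smul_β, ← e, inv_smul_smul]
    refine ⟨(g, ⟨i, (g⁻¹ • y).ρ, e1 ▸ (g⁻¹ • y).valid⟩), ?_⟩
    exact (congrArg (g • ·) (Col.ext e1.symm rfl : rC C r ⟨i, (g⁻¹ • y).ρ, e1 ▸ (g⁻¹ • y).valid⟩ =
      g⁻¹ • y)).trans (smul_inv_smul g y)

/-! ### Right translations, colour projections and gluings -/

/-- Right translation. -/
noncomputable def rm (n : UA sep N) : Equiv.Perm (ZZ sep N Y) where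
  toFun z := ⟨z.x * n, z.y⟩
  invFun z := ⟨z.x * n⁻¹, z.y⟩
  left_inv _ := ZZ.ext (mul_inv_cancel_right _ _) rfl
  right_inv _ := ZZ.ext (inv_mul_cancel_right _ _) rfl

theorem rm_apply (n : UA sep N) (z : ZZ sep N Y) : rm n z = ⟨z.x * n, z.y⟩ := rfl

/-- The translation in the group dual to the colourings. -/
noncomputable def sh : Mu Hy N →* Equiv.Perm (ZZ sep N Y) where
  toFun a := rm (1, a)
  map_one' := Equiv.ext fun _ => ZZ.ext (mul_one _) rfl
  map_mul' a a' := Equiv.ext fun z => ZZ.ext (by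
    change z.x * (1, a * a') = z.x * (1, a') * (1, a)
    rw [mul_assoc]
    exact congrArg _ (Prod.ext (one_mul _).symm (mul_comm _ _))) rfl

theorem sh_apply (a : Mu Hy N) (z : ZZ sep N Y) :
    (sh a : Equiv.Perm (ZZ sep N Y)) z = ⟨z.x * (1, a), z.y⟩ := rfl

theorem sh_smul (W : Wl G sep) [MulAction G Y] (l : Lam W N) (a : Mu Hy N) (z : ZZ sep N Y) :
    l • (sh a : Equiv.Perm (ZZ sep N Y)) z =
      (sh (autMu Hy N l.right a) : Equiv.Perm (ZZ sep N Y)) (l • z) :=
  ZZ.ext (by simp only [Lam.smul_def, sh_apply, map_mul, autUA_mu, mul_assoc]) rfl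

/-- The gluing along the walls of colour `c`; `s = true` is the mirror gluing. -/
noncomputable def tz (s : Bool) (c : Cl N) (z : ZZ sep N (Col C N)) : ZZ sep N (Col C N) :=
  (z.y.ρ c).elim z fun h => ⟨z.x * (gen _ ⟨h, c⟩, 1), if s then z.y else z.y.flip h⟩

theorem tz_none {s : Bool} {c : Cl N} {z : ZZ sep N (Col C N)} (h : z.y.ρ c = none) :
    tz s c z = z := by rw [tz, h]; rfl

theorem tz_some {s : Bool} {c : Cl N} {z : ZZ sep N (Col C N)} {h : Hy} (e : z.y.ρ c = some h) :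
    tz s c z = ⟨z.x * (gen _ ⟨h, c⟩, 1), if s then z.y else z.y.flip h⟩ := by rw [tz, e]; rfl

theorem tz_ρ (s : Bool) (c : Cl N) (z : ZZ sep N (Col C N)) : (tz s c z).y.ρ = z.y.ρ := by
  rcases e : z.y.ρ c with _ | h
  · rw [tz_none e]
  · rw [tz_some e]
    cases s <;> rfl

theorem tz_tz (s : Bool) (c : Cl N) (z : ZZ sep N (Col C N)) : tz s c (tz s c z) = z := by
  rcases e : z.y.ρ c with _ | h
  · rw [tz_none e, tz_none e]
  · rw [tz_some (h := h) (by rw [tz_ρ, e]), tz_some e]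
    refine ZZ.ext (by simp [mul_assoc, gen_sq]) ?_
    cases s
    · exact Col.ext (C.flip.inv h _) rfl
    · rfl

theorem tz_comm (s s' : Bool) {c c' : Cl N} (hc : c ≠ c') (z : ZZ sep N (Col C N)) :
    tz s c (tz s' c' z) = tz s' c' (tz s c z) := by
  rcases e : z.y.ρ c with _ | h
  · rw [tz_none e, tz_none (by rw [tz_ρ, e])]
  rcases e' : z.y.ρ c' with _ | h'
  · rw [tz_none e', tz_none (c := c') (by rw [tz_ρ, e'])]
  have hx : cU sep N ⟨h, c⟩ ⟨h', c'⟩ := ⟨C.cross z.y.β h ((z.y.valid.mem h).2 ⟨c, e⟩) h'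
    ((z.y.valid.mem h').2 ⟨c', e'⟩) fun e2 => hc (z.y.valid.inj c c' h e (e2 ▸ e')), hc⟩
  rw [tz_some (c := c) (h := h) (by rw [tz_ρ, e]), tz_some (c := c') (h := h') (z := tz s c z)
    (by rw [tz_ρ, e']), tz_some e, tz_some e']
  refine ZZ.ext (by simp [mul_assoc, (gen_comm hx).eq]) ?_
  cases s <;> cases s'
  · exact Col.ext (C.flip.comm h h' _) rfl
  all_goals rfl

theorem tz_smul (W : Wl G sep) (s : Bool) (c : Cl N) (l : Lam W N) (z : ZZ sep N (Col C N)) :
    tz s c (l • z) = l • tz s c z := by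
  rcases e : z.y.ρ c with _ | h
  · rw [tz_none e, tz_none (by rw [Lam.smul_def, Col.smul_ρ, e]; rfl)]
  · rw [tz_some e, tz_some (h := l.right • h) (by rw [Lam.smul_def, Col.smul_ρ, e]; rfl)]
    refine ZZ.ext (by simp only [Lam.smul_def, map_mul, autUA_gen, mul_assoc]) ?_
    cases s
    · exact Col.ext (C.F_eqv _ _ _) rfl
    · rfl

theorem tz_sh (s : Bool) (c : Cl N) (a : Mu Hy N) (z : ZZ sep N (Col C N)) :
    tz s c ((sh a : Equiv.Perm _) z) = (sh a : Equiv.Perm _) (tz s c z) := by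
  rcases e : z.y.ρ c with _ | h
  · rw [tz_none e, tz_none (z := (sh a : Equiv.Perm _) z) e]
  · rw [tz_some e, tz_some (z := (sh a : Equiv.Perm _) z) e]
    refine ZZ.ext ?_ rfl
    change z.x * _ * _ = z.x * _ * _
    simp [mul_assoc]

/-- The gluing as a permutation. -/
noncomputable def tzP (s : Bool) (c : Cl N) : Equiv.Perm (ZZ sep N (Col C N)) :=
  Function.Involutive.toPerm (tz s c) (tz_tz s c)

/-- The algebra of functions of the colouring. -/
abbrev Am (Hy : Type) (N : ℕ) : Type := MonoidAlgebra ℂ (Mu Hy N)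

section Alg

variable [NeZero N]

/-- The indicator of the colourings in which `h` has the colour `c`. -/
noncomputable def e1 (h : Hy) (c : Cl N) : Am Hy N :=
  (N : ℂ)⁻¹ • ∑ j : ZMod N, MonoidAlgebra.single (Multiplicative.ofAdd (single h j)) (c j)

/-- The indicator of the colourings that extend `ρ`. -/
noncomputable def eR (ρ : Cl N → Option Hy) : Am Hy N := ∏ c, (ρ c).elim 1 fun h => e1 h c

/-- The indicator of the colourings that agree with `κ` on `T`. -/
noncomputable def eK (T : Finset Hy) (κ : T → Cl N) : Am Hy N := ∏ h : T, e1 h.1 (κ h)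

end Alg

section Op

variable {H H₀ : Type} [NormedAddCommGroup H] [InnerProductSpace ℂ H] [NormedAddCommGroup H₀]
  [InnerProductSpace ℂ H₀]

/-- The action of the functions of the colouring. -/
noncomputable def ev (b : HilbertBasis (ZZ sep N Y) ℂ H) : Am Hy N →ₐ[ℂ] (H →L[ℂ] H) :=
  MonoidAlgebra.lift ℂ _ _
    { toFun := fun a => pm b (sh a)
      map_one' := by rw [map_one, pm_one]
      map_mul' := fun a a' => by rw [map_mul, pm_mul] }

theorem ev_single (b : HilbertBasis (ZZ sep N Y) ℂ H) (a : Mu Hy N) (t : ℂ) :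
    ev b (MonoidAlgebra.single a t) = t • pm b (sh a) := MonoidAlgebra.lift_single _ _ _

variable [NeZero N]

/-- The gluing operators. -/
noncomputable def tau (b : HilbertBasis (ZZ sep N (Col C N)) ℂ H) (s : Bool) (c : Cl N) :
    H →L[ℂ] H := pm b (tzP s c)

omit [NeZero N] in
theorem tau_apply (b : HilbertBasis (ZZ sep N (Col C N)) ℂ H) (s : Bool) (c : Cl N)
    (z : ZZ sep N (Col C N)) : tau b s c (b z) = b (tz s c z) := pm_apply b _ z

omit [NeZero N] in
theorem pj_comm {S τ : H →L[ℂ] H} (h : Commute S τ) : Commute S (pj τ) :=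
  ((Commute.one_right S).add_right h).smul_right _

omit [NeZero N] in
theorem tau_comm (b : HilbertBasis (ZZ sep N (Col C N)) ℂ H) (s s' : Bool) {c c' : Cl N}
    (hc : c ≠ c') : Commute (tau b s c) (tau b s' c') :=
  pm_comm b (Equiv.ext (tz_comm s s' hc))

/-- The projection onto the vectors that are symmetric for the gluings of the colours in `D`. -/
noncomputable def PP (b : HilbertBasis (ZZ sep N (Col C N)) ℂ H) (s : Cl N → Bool)
    (D : Finset (Cl N)) : H →L[ℂ] H :=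
  D.noncommProd (fun c => pj (tau b (s c) c)) fun _ _ _ _ h =>
    pj_comm (pj_comm (tau_comm b _ _ h.symm)).symm

/-- The frame of the model. -/
noncomputable def frC (b : HilbertBasis (ZZ sep N (Col C N)) ℂ H) {I : Type} (r : I → B)
    (j : FI σ r N) : H := b ⟨1, rC C r j⟩

end Op

/-- The operators of the model: `Φ` forgets the colours, `D` is induced by `f`. -/
structure Ops [NeZero N] {H H₀ H₂ : Type} [NormedAddCommGroup H] [InnerProductSpace ℂ H]
    [NormedAddCommGroup H₀] [InnerProductSpace ℂ H₀] [NormedAddCommGroup H₂]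
    [InnerProductSpace ℂ H₂] (b : HilbertBasis (ZZ sep N (Col C N)) ℂ H)
    (b₀ : HilbertBasis (ZZ sep N B) ℂ H₀) (b₂ : HilbertBasis (ZZ sep N B₂) ℂ H₂)
    (f : (B₂ →₀ ℤ) →ₗ[ℤ] (B →₀ ℤ)) (Φ : H →L[ℂ] H₀) (D : H₂ →L[ℂ] H₀) : Prop where
  phi : ∀ z, Φ (b z) = ev b₀ (eR z.y.ρ) (b₀ ⟨z.x, z.y.β⟩)
  dd : ∀ z, D (b₂ z) = embZ b₀ (mapDomain (fun β => ⟨z.x, β⟩) (f (single z.y 1)))

/-- The glued form of the model. -/
noncomputable def KK [NeZero N] {H H₀ H₂ : Type} [NormedAddCommGroup H] [InnerProductSpace ℂ H]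
    [CompleteSpace H] [NormedAddCommGroup H₀] [InnerProductSpace ℂ H₀] [CompleteSpace H₀]
    [NormedAddCommGroup H₂] [InnerProductSpace ℂ H₂] [CompleteSpace H₂]
    (b : HilbertBasis (ZZ sep N (Col C N)) ℂ H) (Φ : H →L[ℂ] H₀) (D : H₂ →L[ℂ] H₀) (s : Bool) :
    H →L[ℂ] H :=
  (4 ^ d : ℂ) • (PP b (fun _ => s) Finset.univ * (adjoint Φ ∘L D ∘L adjoint D ∘L Φ) *
    PP b (fun _ => s) Finset.univ)

end Pool.Agent.MP_4f4d9f_gt.Cb

end

section

/-! Functions of the colouring and their action. -/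

open scoped InnerProductSpace

namespace Pool.Agent.MP_4f4d9f_gt.Cb

open Finsupp Db
open ContinuousLinearMap (adjoint)

variable {G V Hy B Y Y' : Type} {sep : V → V → Finset Hy} {N : ℕ}

section Alg

variable [NeZero N]

theorem card_Cl : Fintype.card (Cl N) = N := by rw [AddChar.card_eq, ZMod.card]

open Classical in
theorem e1_mul (h : Hy) (c c' : Cl N) : e1 h c * e1 h c' = if c = c' then e1 h c else 0 := by
  have hN : (N : ℂ) ≠ 0 := Nat.cast_ne_zero.2 (NeZero.ne N)
  have key : ∀ j : ZMod N, ∑ k : ZMod N, MonoidAlgebra.single (Multiplicative.ofAdd (single h j))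
      (c j) * MonoidAlgebra.single (Multiplicative.ofAdd (single h k)) (c' k) =
      ∑ k : ZMod N, (c - c') j • (MonoidAlgebra.single (Multiplicative.ofAdd (single h k)) (c' k) :
        Am Hy N) := fun j => by
    rw [← Equiv.sum_comp (Equiv.subRight j)]
    refine Finset.sum_congr rfl fun k _ => ?_
    rw [MonoidAlgebra.single_mul_single, ← ofAdd_add, ← single_add, Equiv.subRight_apply,
      add_sub_cancel, MonoidAlgebra.smul_single, smul_eq_mul, AddChar.sub_apply',
      AddChar.map_sub_eq_div]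
    congr 1
    ring
  rw [e1, e1, smul_mul_smul_comm, Finset.sum_mul_sum, Finset.sum_congr rfl fun j _ => key j,
    Finset.sum_comm]
  simp only [← Finset.sum_smul, AddChar.sum_eq_ite, sub_eq_zero, ZMod.card]
  split_ifs with e
  · rw [← Finset.smul_sum, smul_smul, mul_assoc, inv_mul_cancel₀ hN, mul_one, e]
  · simp

theorem sum_e1 (h : Hy) : ∑ c : Cl N, e1 h c = 1 := by
  classical
  have hN : (N : ℂ) ≠ 0 := Nat.cast_ne_zero.2 (NeZero.ne N)
  have key : ∀ j : ZMod N, ∑ c : Cl N, (MonoidAlgebra.single (Multiplicative.ofAdd (single h j))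
      (c j) : Am Hy N) = if j = 0 then (N : ℂ) • 1 else 0 := fun j => by
    have : ∀ c : Cl N, (MonoidAlgebra.single (Multiplicative.ofAdd (single h j)) (c j) : Am Hy N) =
        c j • MonoidAlgebra.single (Multiplicative.ofAdd (single h j)) 1 := fun c => by
      rw [MonoidAlgebra.smul_single, smul_eq_mul, mul_one]
    simp only [this, ← Finset.sum_smul, AddChar.sum_apply_eq_ite, ZMod.card]
    split_ifs with e
    · rw [e, single_zero, ofAdd_zero, MonoidAlgebra.one_def]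
    · exact zero_smul _ _
  simp only [e1, ← Finset.smul_sum]
  rw [Finset.sum_comm, Finset.sum_congr rfl fun j _ => key j, Finset.sum_ite_eq', if_pos (by simp),
    smul_smul, inv_mul_cancel₀ hN, one_smul]

theorem sum_eK [DecidableEq Hy] (T : Finset Hy) : ∑ κ : T → Cl N, eK T κ = 1 := by
  classical
  simp only [eK]
  rw [← Fintype.piFinset_univ, ← Finset.prod_univ_sum]
  simp only [sum_e1, Finset.prod_const_one]

/-- A product of elements that fix `x` fixes `x`. -/
theorem mul_prod_eq {A ι : Type} [CommMonoid A] {x : A} {s : Finset ι} {f : ι → A}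
    (h : ∀ i ∈ s, x * f i = x) : x * ∏ i ∈ s, f i = x :=
  Finset.prod_induction f (fun y => x * y = x) (fun a b ha hb => by rw [← mul_assoc, ha, hb])
    (mul_one x) h

theorem prod_mul_eq {A ι : Type} [CommMonoid A] {s : Finset ι} {f : ι → A} {i : ι} (hi : i ∈ s)
    (h : f i * f i = f i) : (∏ j ∈ s, f j) * f i = ∏ j ∈ s, f j := by
  classical
  rw [← Finset.prod_erase_mul s f hi, mul_assoc, h]

theorem e1_idem (h : Hy) (c : Cl N) : e1 h c * e1 h c = e1 h c := by rw [e1_mul, if_pos rfl]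

theorem eK_e1 {T : Finset Hy} (κ : T → Cl N) (h : T) : eK T κ * e1 h.1 (κ h) = eK T κ :=
  prod_mul_eq (f := fun h : T => e1 h.1 (κ h)) (Finset.mem_univ h) (e1_idem _ _)

theorem eK_e1_ne {T : Finset Hy} (κ : T → Cl N) (h : T) {c : Cl N} (hc : κ h ≠ c) :
    eK T κ * e1 h.1 c = 0 := by
  rw [← eK_e1 κ h, mul_assoc, e1_mul, if_neg hc, mul_zero]

theorem eK_idem {T : Finset Hy} (κ : T → Cl N) : eK T κ * eK T κ = eK T κ :=
  mul_prod_eq fun h _ => eK_e1 κ h

theorem eR_e1 {ρ : Cl N → Option Hy} {c : Cl N} {h : Hy} (e : ρ c = some h) :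
    eR ρ * e1 h c = eR ρ := by
  have := prod_mul_eq (f := fun c => (ρ c).elim 1 fun h => e1 h c) (Finset.mem_univ c)
    (by rw [e]; exact e1_idem _ _)
  rwa [e] at this

theorem eR_idem (ρ : Cl N → Option Hy) : eR ρ * eR ρ = eR ρ :=
  mul_prod_eq fun c _ => by
    rcases e : ρ c with _ | h
    · exact mul_one _
    · exact eR_e1 e

theorem eK_eR {T : Finset Hy} {κ : T → Cl N} {ρ : Cl N → Option Hy}
    (hρ : ∀ c h, ρ c = some h → ∃ hh : h ∈ T, κ ⟨h, hh⟩ = c) : eK T κ * eR ρ = eK T κ :=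
  mul_prod_eq fun c _ => by
    rcases e : ρ c with _ | h
    · exact mul_one _
    · obtain ⟨hh, rfl⟩ := hρ c h e
      exact eK_e1 κ ⟨h, hh⟩

theorem eK_eR_ne {T : Finset Hy} {κ : T → Cl N} {ρ : Cl N → Option Hy} {c : Cl N} {h : T}
    (e : ρ c = some h.1) (hc : κ h ≠ c) : eK T κ * eR ρ = 0 := by
  rw [← eR_e1 e, mul_left_comm, eK_e1_ne κ h hc, mul_zero]

theorem eR_orth {σ : B → Finset Hy} {β : B} {ρ ρ' : Cl N → Option Hy} (h : Valid σ β ρ)
    (h' : Valid σ β ρ') (hne : ρ ≠ ρ') : eR ρ * eR ρ' = 0 := by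
  by_contra h0
  have key : ∀ {ρ ρ' : Cl N → Option Hy}, Valid σ β ρ → Valid σ β ρ' → eR ρ * eR ρ' ≠ 0 →
      ∀ c k, ρ c = some k → ρ' c = some k := fun {ρ ρ'} h h' h0 c k e => by
    obtain ⟨c', e'⟩ := (h'.mem k).1 ((h.mem k).2 ⟨c, e⟩)
    by_contra hc
    refine h0 ?_
    rw [← eR_e1 e, ← eR_e1 e', mul_mul_mul_comm, e1_mul, if_neg, mul_zero]
    rintro rfl
    exact hc e'
  refine hne (funext fun c => ?_)
  rcases e : ρ c with _ | k
  · rcases e' : ρ' c with _ | k
    · rfl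
    · rw [← e, key h' h (by rwa [mul_comm]) c k e']
  · rw [key h h' h0 c k e]

theorem coeff_eK (T : Finset Hy) (κ : T → Cl N) : (eK T κ).coeff 1 = ((N : ℂ) ^ T.card)⁻¹ := by
  classical
  have key : ∀ a : T → ZMod N, (∏ h : T, (MonoidAlgebra.single (Multiplicative.ofAdd
      (single h.1 (a h))) (κ h (a h)) : Am Hy N)).coeff 1 = if a = 0 then 1 else 0 := fun a => by
    rw [MonoidAlgebra.prod_single, ← ofAdd_sum, MonoidAlgebra.coeff_single, single_apply]
    by_cases e : a = 0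
    · simp [e]
    · rw [if_neg e, if_neg]
      intro h0
      refine e (funext fun h => ?_)
      have := DFunLike.congr_fun (ofAdd_eq_one.1 h0) h.1
      rw [Finsupp.finsetSum_apply, Finset.sum_eq_single h] at this
      · simpa using this
      · exact fun k _ hk => single_eq_of_ne fun e => hk (Subtype.ext e.symm)
      · simp
  simp only [eK, e1, Finset.prod_smul, Finset.prod_const, Finset.card_univ, Fintype.card_coe]
  rw [Finset.prod_univ_sum, Fintype.piFinset_univ, MonoidAlgebra.coeff_smul,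
    MonoidAlgebra.coeff_sum, Finsupp.smul_apply, Finsupp.finsetSum_apply,
    Finset.sum_congr rfl fun a _ => key a]
  simp

variable [Group G] [MulAction G Hy]

/-- The action of `G` on functions of the colouring. -/
noncomputable def actA (N : ℕ) (g : G) : Am Hy N →ₐ[ℂ] Am Hy N :=
  MonoidAlgebra.mapDomainAlgHom ℂ ℂ (autMu Hy N g).toMonoidHom

omit [NeZero N] in
theorem actA_single (g : G) (a : Mu Hy N) (t : ℂ) :
    actA N g (MonoidAlgebra.single a t) = MonoidAlgebra.single (autMu Hy N g a) t := by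
  simp [actA]

theorem actA_e1 (g : G) (h : Hy) (c : Cl N) : actA N g (e1 h c) = e1 (g • h) c := by
  simp only [e1, map_smul, map_sum, actA_single, autMu_single]

theorem actA_eR (g : G) (ρ : Cl N → Option Hy) :
    actA N g (eR ρ) = eR fun c => (ρ c).map (g • ·) := by
  rw [eR, map_prod]
  refine Finset.prod_congr rfl fun c _ => ?_
  dsimp only
  rcases ρ c with _ | h
  · exact map_one (actA N g)
  · exact actA_e1 g h c

end Alg

section Op

variable {H H' : Type} [NormedAddCommGroup H] [InnerProductSpace ℂ H] [NormedAddCommGroup H']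
  [InnerProductSpace ℂ H'] (b : HilbertBasis (ZZ sep N Y) ℂ H) (b' : HilbertBasis (ZZ sep N Y') ℂ H')

theorem ev_comm (x y : Am Hy N) : Commute (ev b x) (ev b y) := (Commute.all x y).map (ev b)

/-- An operator that intertwines the translations intertwines the functions of the colouring. -/
theorem ev_int {T : H →L[ℂ] H'} (hT : ∀ a ξ, T (pm b (sh a) ξ) = pm b' (sh a) (T ξ)) (x : Am Hy N)
    (ξ : H) : T (ev b x ξ) = ev b' x (T ξ) := by
  induction x using MonoidAlgebra.induction_linear with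
  | zero => simp
  | add x y hx hy => simp only [map_add, _root_.add_apply, hx, hy]
  | single a t => simp only [ev_single, _root_.smul_apply, map_smul, hT]

theorem ev_comm_of {T : H →L[ℂ] H} (hT : ∀ a, Commute T (pm b (sh a))) (x : Am Hy N) :
    Commute T (ev b x) :=
  ContinuousLinearMap.ext fun ξ => ev_int b b (fun a ξ => congrArg (fun U : H →L[ℂ] H => U ξ) (hT a)) x ξ

theorem rep_ev [Group G] [MulAction G V] [MulAction G Hy] [MulAction G Y] (W : Wl G sep)
    (l : Lam W N) (x : Am Hy N) (ξ : H) :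
    rep b (Lam W N) l (ev b x ξ) = ev b (actA N l.right x) (rep b (Lam W N) l ξ) := by
  induction x using MonoidAlgebra.induction_linear with
  | zero => simp
  | add x y hx hy => simp only [map_add, _root_.add_apply, hx, hy]
  | single a t =>
    simp only [ev_single, actA_single, _root_.smul_apply, map_smul]
    refine congrArg _ (congrArg (fun U : H →L[ℂ] H => U ξ) (?_ : rep b (Lam W N) l * pm b (sh a) =
      pm b (sh (autMu Hy N l.right a)) * rep b (Lam W N) l))
    refine hb_ext b fun z => ?_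
    rw [mul_apply_eq_comp, mul_apply_eq_comp, pm_apply, rep_apply, rep_apply, pm_apply, sh_smul]

open Classical in
theorem inner_ev (z z' : ZZ sep N Y) (x : Am Hy N) : ⟪b z, ev b x (b z')⟫_ℂ =
    if z.x.1 = z'.x.1 ∧ z.y = z'.y then x.coeff (z'.x.2⁻¹ * z.x.2) else 0 := by
  induction x using MonoidAlgebra.induction_linear with
  | zero => simp
  | add x y hx hy =>
    rw [map_add, _root_.add_apply, inner_add_right, hx, hy]
    split_ifs <;> simp
  | single a t =>
    rw [ev_single, _root_.smul_apply, inner_smul_right, pm_apply, inner_hb,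
      MonoidAlgebra.coeff_single, single_apply, sh_apply]
    have : z = ⟨z'.x * (1, a), z'.y⟩ ↔ (z.x.1 = z'.x.1 ∧ z.y = z'.y) ∧ a = z'.x.2⁻¹ * z.x.2 := by
      rw [ZZ.ext_iff, Prod.ext_iff, eq_inv_mul_iff_mul_eq, Prod.fst_mul, Prod.snd_mul, mul_one,
        eq_comm (a := z.x.2)]
      tauto
    simp only [this]
    by_cases h1 : z.x.1 = z'.x.1 ∧ z.y = z'.y <;> by_cases h2 : a = z'.x.2⁻¹ * z.x.2 <;>
      simp [h1, h2]

variable [CompleteSpace H] [NeZero N]

theorem ev_e1_sa (h : Hy) (c : Cl N) : IsSelfAdjoint (ev b (e1 h c)) := by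
  simp only [IsSelfAdjoint, e1, map_smul, map_sum, ev_single, star_smul, star_sum, star_pm]
  rw [← Equiv.sum_comp (Equiv.neg (ZMod N))]
  congr 1
  · simp
  · refine Finset.sum_congr rfl fun j _ => ?_
    rw [Equiv.neg_apply, AddChar.map_neg_eq_conj, ← map_inv, ← ofAdd_neg, ← single_neg, neg_neg]
    simp

omit [NeZero N] in
theorem ev_prod_sa {ι : Type} {s : Finset ι} {f : ι → Am Hy N}
    (h : ∀ i ∈ s, IsSelfAdjoint (ev b (f i))) : IsSelfAdjoint (ev b (∏ i ∈ s, f i)) :=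
  Finset.prod_induction f (fun y => IsSelfAdjoint (ev b y)) (fun x y hx hy => by
    rw [map_mul]
    exact (hx.commute_iff hy).1 (ev_comm b x y)) (by rw [map_one]; exact .one _) h

theorem ev_eR_proj (ρ : Cl N → Option Hy) : IsStarProjection (ev b (eR ρ)) :=
  ⟨by rw [IsIdempotentElem, ← map_mul, eR_idem], ev_prod_sa b fun c _ => by
    rcases ρ c with _ | h
    · rw [Option.elim_none, map_one]
      exact .one _
    · exact ev_e1_sa b h c⟩

theorem ev_eK_proj {T : Finset Hy} (κ : T → Cl N) : IsStarProjection (ev b (eK T κ)) :=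
  ⟨by rw [IsIdempotentElem, ← map_mul, eK_idem], ev_prod_sa b fun h _ => ev_e1_sa b _ _⟩

end Op

end Pool.Agent.MP_4f4d9f_gt.Cb

end

section

/-! Statements about the coloured model. -/

open scoped InnerProductSpace

namespace Pool.Agent.MP_4f4d9f_gt.Cb

open Finsupp Db
open ContinuousLinearMap (adjoint)

/-- The properties of the operators of the model. -/
structure OpsP {G V Hy B : Type} [Group G] [MulAction G V] [MulAction G Hy] [MulAction G B]
    {sep : V → V → Finset Hy} (W : Wl G sep) {o : B → V} {σ : B → Finset Hy} {F : Hy → B → B}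
    {d : ℕ} {C : Cells G sep o σ F d} {N : ℕ} [NeZero N] {H H₀ H₂ : Type} [NormedAddCommGroup H]
    [InnerProductSpace ℂ H] [CompleteSpace H] [NormedAddCommGroup H₀] [InnerProductSpace ℂ H₀]
    [CompleteSpace H₀] [NormedAddCommGroup H₂] [InnerProductSpace ℂ H₂] [CompleteSpace H₂]
    (b : HilbertBasis (ZZ sep N (Col C N)) ℂ H) (b₀ : HilbertBasis (ZZ sep N B) ℂ H₀)
    (k : Module.End ℤ (B →₀ ℤ)) (Φ : H →L[ℂ] H₀) (D : H₂ →L[ℂ] H₀) : Prop where
  phi : ∀ z, Φ (b z) = ev b₀ (eR z.y.ρ) (b₀ ⟨z.x, z.y.β⟩)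
  phi_ev : ∀ x ξ, Φ (ev b x ξ) = ev b₀ x (Φ ξ)
  adj : ∀ z, adjoint Φ (b₀ z) =
    ∑ ρ : {ρ : Cl N → Option Hy // Valid σ z.y ρ}, ev b (eR ρ.1) (b ⟨z.x, ⟨z.y, ρ.1, ρ.2⟩⟩)
  adj_ev : ∀ x ξ, adjoint Φ (ev b₀ x ξ) = ev b x (adjoint Φ ξ)
  r_apply : ∀ z, adjoint Φ (Φ (b z)) = ev b (eR z.y.ρ) (b z)
  r_proj : IsStarProjection (adjoint Φ ∘L Φ)
  r_tau : ∀ s c, Commute (adjoint Φ ∘L Φ) (tau b s c)
  r_adj : ∀ ξ, adjoint Φ (Φ (adjoint Φ ξ)) = adjoint Φ ξ
  norm_le : ‖Φ‖ ≤ 1
  dd : ∀ z, D (adjoint D (b₀ z)) = embZ b₀ (mapDomain (fun β => ⟨z.x, β⟩) (k (single z.y 1)))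
  dd_ev : ∀ x ξ, D (adjoint D (ev b₀ x ξ)) = ev b₀ x (D (adjoint D ξ))
  cm : Cm (rep b (Lam W N)) (adjoint Φ ∘L D ∘L adjoint D ∘L Φ)
  ps : ∀ p : RA (cU sep N) → Prop,
    Commute (PS b fun z => p z.x.1) (adjoint Φ ∘L D ∘L adjoint D ∘L Φ)

/-- Job `Phi`: the operators of the model exist. -/
def PhiStmt : Prop :=
  ∀ (G V Hy B B₂ I I₂ : Type) [Group G] [MulAction G V] [MulAction G Hy] [MulAction G B]
    [MulAction G B₂] [Fintype I] [Fintype I₂] (sep : V → V → Finset Hy) (W : Wl G sep)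
    (o : B → V) (σ : B → Finset Hy) (F : Hy → B → B) (d : ℕ) (C : Cells G sep o σ F d)
    (o₂ : B₂ → V) (f : (B₂ →₀ ℤ) →ₗ[ℤ] (B →₀ ℤ)) (fT : (B →₀ ℤ) →ₗ[ℤ] (B₂ →₀ ℤ)),
    Kern G o₂ o f fT → ∀ (r : I → B) (r₂ : I₂ → B₂), FreeOn G r → FreeOn G r₂ →
    ∃ c : ℝ, ∀ (N : ℕ) [NeZero N] (H H₀ H₂ : Type) [NormedAddCommGroup H] [InnerProductSpace ℂ H]
      [CompleteSpace H] [NormedAddCommGroup H₀] [InnerProductSpace ℂ H₀] [CompleteSpace H₀]
      [NormedAddCommGroup H₂] [InnerProductSpace ℂ H₂] [CompleteSpace H₂]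
      (b : HilbertBasis (ZZ sep N (Col C N)) ℂ H) (b₀ : HilbertBasis (ZZ sep N B) ℂ H₀),
      HilbertBasis (ZZ sep N B₂) ℂ H₂ →
      ∃ (Φ : H →L[ℂ] H₀) (D : H₂ →L[ℂ] H₀), ‖D‖ ≤ c ∧ OpsP W b b₀ (f ∘ₗ fT) Φ D

/-- Job `Step`: the mirror gluing has the smaller determinant. -/
def StepStmt : Prop :=
  ∀ (G V Hy B I H : Type) [Group G] [MulAction G V] [MulAction G Hy] [MulAction G B] [Fintype I]
    [NormedAddCommGroup H] [InnerProductSpace ℂ H] [CompleteSpace H] (sep : V → V → Finset Hy)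
    (W : Wl G sep) (o : B → V) (σ : B → Finset Hy) (F : Hy → B → B) (d : ℕ)
    (C : Cells G sep o σ F d) (N : ℕ) [NeZero N] (b : HilbertBasis (ZZ sep N (Col C N)) ℂ H)
    (r : I → B), FreeOn G r → ∀ Q : H →L[ℂ] H, 0 ≤ Q → Cm (rep b (Lam W N)) Q →
    (∀ p : RA (cU sep N) → Prop, Commute (PS b fun z => p z.x.1) Q) →
    ld (frC b r) (1 + PP b (fun _ => true) Finset.univ * Q * PP b (fun _ => true) Finset.univ) ≤
      ld (frC b r) (1 + PP b (fun _ => false) Finset.univ * Q * PP b (fun _ => false) Finset.univ)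

/-- Job `Mom`: the moments of the coloured model converge to those of the unfolded model. -/
def MomStmt : Prop :=
  ∀ (G V Hy B I : Type) [Group G] [MulAction G V] [MulAction G Hy] [MulAction G B] [Fintype I]
    (sep : V → V → Finset Hy) (W : Wl G sep) (o : B → V) (σ : B → Finset Hy) (F : Hy → B → B)
    (d : ℕ) (C : Cells G sep o σ F d) (k : Module.End ℤ (B →₀ ℤ)) (r : I → B) (s : Bool) (m : ℕ),
    1 ≤ m → ∀ c ε : ℝ, 0 < ε → ∃ N₀ : ℕ, ∀ (N : ℕ) [NeZero N], N₀ ≤ N →
    ∀ (H H₀ H₂ : Type) [NormedAddCommGroup H] [InnerProductSpace ℂ H]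
      [CompleteSpace H] [NormedAddCommGroup H₀] [InnerProductSpace ℂ H₀] [CompleteSpace H₀]
      [NormedAddCommGroup H₂] [InnerProductSpace ℂ H₂] [CompleteSpace H₂]
      (b : HilbertBasis (ZZ sep N (Col C N)) ℂ H) (b₀ : HilbertBasis (ZZ sep N B) ℂ H₀)
      (Φ : H →L[ℂ] H₀) (D : H₂ →L[ℂ] H₀), OpsP W b b₀ k Φ D → ‖KK b Φ D s‖ ≤ c →
      |tr (frC b r) (KK b Φ D s ^ m) -
        mom (sandW (Cross sep) d σ F s k) (fun i => (1, r i)) m| ≤ ε

section Basic

variable {G V Hy B : Type} [Group G] [MulAction G V] [MulAction G Hy] [MulAction G B]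
  {sep : V → V → Finset Hy} {o : B → V} {σ : B → Finset Hy} {F : Hy → B → B} {d : ℕ}
  {C : Cells G sep o σ F d} {N : ℕ} {H : Type} [NormedAddCommGroup H] [InnerProductSpace ℂ H]
  (b : HilbertBasis (ZZ sep N (Col C N)) ℂ H)

theorem tau_sq (s : Bool) (c : Cl N) : tau b s c * tau b s c = 1 := hb_ext b fun z => by
  rw [mul_apply_eq_comp, tau_apply, tau_apply, tz_tz]
  rfl

theorem tau_ev (s : Bool) (c : Cl N) (x : Am Hy N) : Commute (tau b s c) (ev b x) :=
  ev_comm_of b (fun a => pm_comm b (Equiv.ext (tz_sh s c a))) x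

theorem PP_comm {T : H →L[ℂ] H} {s : Cl N → Bool} {D : Finset (Cl N)}
    (h : ∀ c ∈ D, Commute T (tau b (s c) c)) : Commute T (PP b s D) :=
  Finset.noncommProd_commute _ _ _ _ fun c hc => pj_comm (h c hc)

variable [CompleteSpace H]

theorem tau_sa (s : Bool) (c : Cl N) : star (tau b s c) = tau b s c := star_pm b _

theorem pj_proj {τ : H →L[ℂ] H} (h1 : star τ = τ) (h2 : τ * τ = 1) : IsStarProjection (pj τ) := by
  refine ⟨?_, ?_⟩
  · rw [IsIdempotentElem, pj, smul_mul_smul_comm, add_mul, mul_add, mul_add, h2, one_mul, one_mul,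
      mul_one, add_comm τ 1, ← two_smul ℂ, smul_smul]
    norm_num
  · rw [IsSelfAdjoint, pj, star_smul, star_add, star_one, h1]
    simp

theorem PP_proj (s : Cl N → Bool) (D : Finset (Cl N)) : IsStarProjection (PP b s D) := by
  classical
  induction D using Finset.induction_on with
  | empty => exact IsStarProjection.one _
  | insert c D hc ih =>
    rw [PP, Finset.noncommProd_insert_of_notMem _ _ _ _ hc]
    exact (pj_proj (tau_sa b _ c) (tau_sq b _ c)).mul ih (PP_comm b fun c' hc' =>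
      (pj_comm (tau_comm b _ _ fun e : c' = c => hc (e ▸ hc'))).symm)

end Basic

end Pool.Agent.MP_4f4d9f_gt.Cb

end

section

/-! The analytic core from the statements about the coloured model. -/

open scoped InnerProductSpace ComplexOrder

namespace Pool.Agent.MP_4f4d9f_gt.Cb

open Finsupp Db
open ContinuousLinearMap (adjoint)

section

variable {G V Hy B : Type} [Group G] [MulAction G V] [MulAction G Hy] [MulAction G B]
  {sep : V → V → Finset Hy} {W : Wl G sep} {o : B → V} {σ : B → Finset Hy} {F : Hy → B → B}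
  {d : ℕ} {C : Cells G sep o σ F d} {N : ℕ} [NeZero N] {H H₀ H₂ : Type} [NormedAddCommGroup H]
  [InnerProductSpace ℂ H] [CompleteSpace H] [NormedAddCommGroup H₀] [InnerProductSpace ℂ H₀]
  [CompleteSpace H₀] [NormedAddCommGroup H₂] [InnerProductSpace ℂ H₂] [CompleteSpace H₂]
  {b : HilbertBasis (ZZ sep N (Col C N)) ℂ H} {b₀ : HilbertBasis (ZZ sep N B) ℂ H₀}
  {k : Module.End ℤ (B →₀ ℤ)} {Φ : H →L[ℂ] H₀} {D : H₂ →L[ℂ] H₀}

theorem form_nonneg (Φ : H →L[ℂ] H₀) (D : H₂ →L[ℂ] H₀) :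
    0 ≤ adjoint Φ ∘L D ∘L adjoint D ∘L Φ := by
  have := ContinuousLinearMap.isPositive_adjoint_comp_self (adjoint D ∘L Φ)
  rw [ContinuousLinearMap.adjoint_comp, ContinuousLinearMap.adjoint_adjoint] at this
  exact (ContinuousLinearMap.nonneg_iff_isPositive _).2 this

theorem KK_nonneg (s : Bool) : 0 ≤ KK b Φ D s :=
  smul_nonneg (by positivity) ((PP_proj b _ _).isSelfAdjoint.conjugate_nonneg (form_nonneg Φ D))

theorem KK_norm (O : OpsP W b b₀ k Φ D) {c : ℝ} (hc : ‖D‖ ≤ c) (s : Bool) :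
    ‖KK b Φ D s‖ ≤ 4 ^ d * c ^ 2 := by
  have h1 := (PP_proj b (fun _ => s) Finset.univ).norm_le
  have h2 : ‖adjoint D ∘L Φ‖ ≤ c := (ContinuousLinearMap.opNorm_comp_le _ _).trans (by
    rw [LinearIsometryEquiv.norm_map]
    exact (mul_le_of_le_one_right (norm_nonneg _) O.norm_le).trans hc)
  have h3 : ‖adjoint Φ ∘L D ∘L adjoint D ∘L Φ‖ ≤ c ^ 2 := by
    have := ContinuousLinearMap.norm_adjoint_comp_self (adjoint D ∘L Φ)
    rw [ContinuousLinearMap.adjoint_comp, ContinuousLinearMap.adjoint_adjoint] at this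
    exact this.le.trans (by rw [sq]; exact mul_self_le_mul_self (norm_nonneg _) h2)
  rw [KK, norm_smul, norm_pow, Complex.norm_ofNat]
  refine mul_le_mul_of_nonneg_left ((norm_mul_le _ _).trans ((mul_le_of_le_one_right
    (norm_nonneg _) h1).trans ((norm_mul_le _ _).trans ?_))) (by positivity)
  exact (mul_le_of_le_one_left (norm_nonneg _) h1).trans h3

theorem R_KK (O : OpsP W b b₀ k Φ D) (s : Bool) : (adjoint Φ ∘L Φ) * KK b Φ D s = KK b Φ D s := by
  have h : (adjoint Φ ∘L Φ) * (adjoint Φ ∘L D ∘L adjoint D ∘L Φ) =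
      adjoint Φ ∘L D ∘L adjoint D ∘L Φ := ContinuousLinearMap.ext fun ξ => O.r_adj _
  rw [KK, mul_smul_comm, ← mul_assoc, ← mul_assoc, (PP_comm b fun c _ => O.r_tau s c).eq,
    mul_assoc (PP _ _ _), h]

theorem sum_R (O : OpsP W b b₀ k Φ D) {I : Type} [Fintype I] (r : I → B) :
    ∑ j, ‖(adjoint Φ ∘L Φ) (frC b r j)‖ ^ 2 ≤ Fintype.card I := by
  rw [Fintype.sum_sigma, ← Finset.card_univ, Finset.card_eq_sum_ones, Nat.cast_sum]
  refine Finset.sum_le_sum fun i _ => ?_
  let v : {ρ : Cl N → Option Hy // Valid σ (r i) ρ} → H :=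
    fun ρ => ev b (eR ρ.1) (b ⟨1, ⟨r i, ρ.1, ρ.2⟩⟩)
  have h1 : ∀ ρ, (adjoint Φ ∘L Φ) (frC b r ⟨i, ρ⟩) = v ρ := fun ρ => O.r_apply _
  have h2 : ∀ ρ, ⟪v ρ, ∑ ρ', v ρ'⟫_ℂ = ⟪v ρ, v ρ⟫_ℂ := fun ρ => by
    rw [inner_sum, Finset.sum_eq_single ρ _ (by simp)]
    intro ρ' _ hne
    rw [← ContinuousLinearMap.adjoint_inner_right, ← ContinuousLinearMap.star_eq_adjoint,
      (ev_eR_proj b _).isSelfAdjoint.star_eq, ← mul_apply_eq_comp, ← map_mul,
      eR_orth ρ.2 ρ'.2 fun e => hne (Subtype.ext e.symm), map_zero, _root_.zero_apply,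
      inner_zero_right]
  have h3 : ∑ ρ, ‖v ρ‖ ^ 2 = ‖∑ ρ, v ρ‖ ^ 2 := by
    rw [← inner_self_eq_norm_sq (𝕜 := ℂ), sum_inner, map_sum]
    exact Finset.sum_congr rfl fun ρ _ => by rw [h2, inner_self_eq_norm_sq]
  have h4 : ‖∑ ρ, v ρ‖ ≤ 1 := by
    rw [← O.adj ⟨1, r i⟩]
    refine ((adjoint Φ).le_opNorm _).trans ?_
    rw [LinearIsometryEquiv.norm_map, b₀.orthonormal.norm_eq_one, mul_one]
    exact O.norm_le
  simp only [h1, h3, Nat.cast_one]
  exact pow_le_one₀ (norm_nonneg _) h4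

end

theorem core_of (hP : PhiStmt) (hS : StepStmt) (hM : MomStmt) (hL : LimStmt) (hO : OpenStmt) :
    CoreStmt := by
  intro G V Hy B B₂ I I₂ _ _ _ _ _ _ _ sep W o σ F d C o₂ f fT K r r₂ hr hr₂ H₁ J₁ H₂ J₂ _ _ _ _
    _ _ _ _ e₁ K₁ e₂ K₂ p₁ p₂ m₁ m₂
  obtain ⟨c, hc⟩ := hP G V Hy B B₂ I I₂ sep W o σ F d C o₂ f fT K r r₂ hr hr₂
  refine hL H₁ J₁ H₂ J₂ e₁ K₁ e₂ K₂ p₁ p₂ (4 ^ d * c ^ 2) (Fintype.card I) fun ε hε m₀ => ?_
  choose N₀ hN using fun (s : Bool) (m : ℕ) => hM G V Hy B I sep W o σ F d C (f ∘ₗ fT) r s (m + 1)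
    (Nat.le_add_left 1 m) (4 ^ d * c ^ 2) ε hε
  obtain ⟨N, hN0, hN1⟩ : ∃ N : ℕ, N ≠ 0 ∧ ∀ s, ∀ m < m₀, N₀ s m ≤ N := by
    refine ⟨(∑ s, ∑ m ∈ Finset.range m₀, N₀ s m) + 1, Nat.succ_ne_zero _, fun s m hm => ?_⟩
    refine Nat.le_succ_of_le (le_trans ?_ (Finset.single_le_sum
      (f := fun s => ∑ m ∈ Finset.range m₀, N₀ s m) (fun _ _ => Nat.zero_le _) (Finset.mem_univ s)))
    exact Finset.single_le_sum (f := N₀ s) (fun _ _ => Nat.zero_le _) (Finset.mem_range.2 hm)
  have : NeZero N := ⟨hN0⟩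
  let b : HilbertBasis (ZZ sep N (Col C N)) ℂ (lp (fun _ : ZZ sep N (Col C N) => ℂ) 2) := default
  let b₀ : HilbertBasis (ZZ sep N B) ℂ (lp (fun _ : ZZ sep N B => ℂ) 2) := default
  obtain ⟨Φ, D, hD, O⟩ := hc N _ _ (lp (fun _ : ZZ sep N B₂ => ℂ) 2) b b₀ default
  have key : ∀ s m, 1 ≤ m → m ≤ m₀ → |tr (frC b r) (KK b Φ D s ^ m) -
      mom (sandW (Cross sep) d σ F s (f ∘ₗ fT)) (fun i => (1, r i)) m| ≤ ε := fun s m h1 h2 => by
    obtain ⟨m, rfl⟩ := Nat.exists_eq_add_of_le' h1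
    exact hN s m N (hN1 s m h2) _ _ _ b b₀ Φ D O (KK_norm O hD s)
  refine ⟨_, _, inferInstance, inferInstance, inferInstance, inferInstance, frC b r,
    KK b Φ D false, KK b Φ D true, adjoint Φ ∘L Φ, KK_nonneg _, KK_nonneg _, KK_norm O hD _,
    KK_norm O hD _, O.r_proj, R_KK O _, R_KK O _, sum_R O r, fun t ht => ?_, fun m h1 h2 => ?_⟩
  · have := hS G V Hy B I _ sep W o σ F d C N b r hr
      (((t : ℂ) * 4 ^ d) • (adjoint Φ ∘L D ∘L adjoint D ∘L Φ))
      (smul_nonneg (by positivity) (form_nonneg Φ D)) (fun g => (O.cm g).smul_right _)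
      fun p => (O.ps p).smul_right _
    simpa only [KK, smul_smul, mul_smul_comm, smul_mul_assoc] using this
  · rw [m₁ m h1, m₂ m h1, ← hO G V Hy B I sep W o σ F d C _ (K.loc.comp K.locT) r m]
    exact ⟨key false m h1 h2, key true m h1 h2⟩

end Pool.Agent.MP_4f4d9f_gt.Cb

end

section

/-! The mirror gluing has the smaller determinant in the coloured model. -/

open scoped InnerProductSpace

namespace Pool.Agent.MP_4f4d9f_gt.Cb

namespace Step

section Proj

variable {Z H : Type} [NormedAddCommGroup H] [InnerProductSpace ℂ H] [CompleteSpace H]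
  (b : HilbertBasis Z ℂ H) {p p' : Z → Prop}

theorem PS_mul_right (h : ∀ z, p' z → p z) : PS b p * PS b p' = PS b p' := hb_ext b fun z => by
  rw [mul_apply_eq_comp]
  by_cases e : p' z
  · rw [PS_pos b e, PS_pos b (h z e)]
  · rw [PS_neg b e, map_zero]

theorem PS_mul_zero (h : ∀ z, p z → p' z → False) : PS b p * PS b p' = 0 := hb_ext b fun z => by
  rw [mul_apply_eq_comp]
  by_cases e : p' z
  · rw [PS_pos b e, PS_neg b fun e' => h z e' e]
    rfl
  · rw [PS_neg b e, map_zero]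
    rfl

theorem pm_PS (σ : Equiv.Perm Z) (h : ∀ z, p' (σ z) ↔ p z) :
    pm b σ * PS b p = PS b p' * pm b σ := hb_ext b fun z => by
  rw [mul_apply_eq_comp, mul_apply_eq_comp, pm_apply]
  by_cases e : p z
  · rw [PS_pos b e, PS_pos b ((h z).2 e), pm_apply]
  · rw [PS_neg b e, PS_neg b fun e' => e ((h z).1 e'), map_zero]

theorem PS_sub (h : ∀ z, p' z → p z) : PS b p - PS b p' = PS b fun z => p z ∧ ¬ p' z :=
  hb_ext b fun z => by
    rw [_root_.sub_apply]
    by_cases e' : p' z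
    · rw [PS_pos b e', PS_pos b (h z e'), sub_self, PS_neg b fun e => e.2 e']
    · rw [PS_neg b e', sub_zero]
      by_cases e : p z
      · rw [PS_pos b e, PS_pos b (p := fun z => p z ∧ ¬ p' z) ⟨e, e'⟩]
      · rw [PS_neg b e, PS_neg b fun e2 => e e2.1]

theorem inner_zero {ξ : H} (h : PS b p ξ = 0) {z : Z} (hz : p z) : ⟪b z, ξ⟫_ℂ = 0 := by
  have := inner_PS b p z ξ
  rwa [h, if_pos hz, inner_zero_right, eq_comm] at this

theorem cmp_eq {τ A : H →L[ℂ] H} (h : IsStarProjection (pj τ)) :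
    cmp τ (1 + A) 1 = 1 + pj τ * A * pj τ := by
  have e : pj τ * pj τ = pj τ := h.isIdempotentElem
  simp only [cmp, mul_add, add_mul, mul_one, mul_sub, sub_mul, one_mul, e]
  abel

end Proj

variable {G V Hy B : Type} [Group G] [MulAction G V] [MulAction G Hy] [MulAction G B]
  {sep : V → V → Finset Hy} {o : B → V} {σ : B → Finset Hy} {F : Hy → B → B} {d : ℕ}
  {C : Cells G sep o σ F d} {N : ℕ}

/-- The reflections of colour `c`. -/
def Rf (sep : V → V → Finset Hy) {N : ℕ} (c : Cl N) : Type :=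
  {x : RA (cU sep N) // ∃ u h, x = u * gen _ ⟨h, c⟩ * u⁻¹}

variable {c : Cl N}

/-- The cell lies on the given side of the wall. -/
def sd (x : Rf sep c × Prop) (z : ZZ sep N (Col C N)) : Prop := Nn z.x.1 x.1.1 ↔ x.2

/-- The cell touches the wall. -/
def wl (x : Rf sep c) (z : ZZ sep N (Col C N)) : Prop :=
  ∃ h, z.y.ρ c = some h ∧ z.x.1 * gen _ ⟨h, c⟩ * z.x.1⁻¹ = x.1

/-- The cell touches the wall from the given side. -/
def hq (x : Rf sep c × Prop) (z : ZZ sep N (Col C N)) : Prop := wl x.1 z ∧ sd x z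

/-- The other side. -/
def bar (x : Rf sep c × Prop) : Rf sep c × Prop := (x.1, ¬ x.2)

variable (c) in
/-- The piece of the base point. -/
def pc (z : ZZ sep N (Col C N)) : Prop := ∀ x : Rf sep c, ¬ Nn z.x.1 x.1

theorem wl_none {x : Rf sep c} {z : ZZ sep N (Col C N)} (e : z.y.ρ c = none) : ¬ wl x z := by
  rintro ⟨h, e', -⟩
  rw [e] at e'
  cases e'

theorem wl_some {x : Rf sep c} {z : ZZ sep N (Col C N)} {h : Hy} (e : z.y.ρ c = some h) :
    wl x z ↔ x.1 = z.x.1 * gen _ ⟨h, c⟩ * z.x.1⁻¹ := by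
  refine ⟨?_, fun e' => ⟨h, e, e'.symm⟩⟩
  rintro ⟨h', e1, e2⟩
  rw [e] at e1
  cases e1
  exact e2.symm

theorem wl_uniq {x x' : Rf sep c} {z : ZZ sep N (Col C N)} (h : wl x z) (h' : wl x' z) :
    x = x' := by
  obtain ⟨k, e, e'⟩ := h
  exact Subtype.ext (e'.symm.trans ((wl_some e).1 h').symm)

theorem key (h2 : RaStmt) {x x' : Rf sep c} (hx : x ≠ x') {z z' : ZZ sep N (Col C N)}
    (hz : wl x' z) (hz' : wl x' z') : Nn z'.x.1 x.1 ↔ Nn z.x.1 x.1 := by
  obtain ⟨h, -, e⟩ := hz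
  obtain ⟨h', -, e'⟩ := hz'
  obtain ⟨v, k, ev⟩ := x.2
  have h3 : ¬ Nn (z.x.1⁻¹ * z'.x.1) (z.x.1⁻¹ * x.1 * z.x.1) := fun hn => by
    have e1 : z.x.1⁻¹ * x.1 * z.x.1 = z.x.1⁻¹ * v * gen _ ⟨k, c⟩ * (z.x.1⁻¹ * v)⁻¹ := by
      rw [ev]
      group
    have e2 : z.x.1⁻¹ * z'.x.1 * gen _ ⟨h', c⟩ * (z.x.1⁻¹ * z'.x.1)⁻¹ = gen _ ⟨h, c⟩ := by
      calc _ = z.x.1⁻¹ * (z'.x.1 * gen _ ⟨h', c⟩ * z'.x.1⁻¹) * z.x.1 := by group
        _ = _ := by
          rw [e', ← e]
          group
    have h4 := (h2 _ (cU sep N)).1 {t | t.c = c} (fun s hs t ht hc => (hc.2 (hs.trans ht.symm)).elim)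
      ⟨h', c⟩ rfl ⟨h, c⟩ rfl _ e2 _ ⟨k, c⟩ rfl (e1 ▸ hn)
    refine hx (Subtype.ext ?_)
    rw [← e, ← h4, ← e1]
    group
  have h5 := nn_mul z.x.1 (z.x.1⁻¹ * z'.x.1) x.1
  rw [mul_inv_cancel_left] at h5
  tauto

theorem tz_x {s : Bool} {c' : Cl N} {z : ZZ sep N (Col C N)} {h : Hy} (e : z.y.ρ c' = some h) :
    (tz s c' z).x.1 = z.x.1 * gen _ ⟨h, c'⟩ := by
  rw [tz_some e]
  rfl

theorem wl_tz (s : Bool) (x : Rf sep c) (z : ZZ sep N (Col C N)) : wl x (tz s c z) ↔ wl x z := by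
  rcases e : z.y.ρ c with _ | h
  · rw [tz_none e]
  · rw [wl_some e, wl_some (h := h) (by rw [tz_ρ, e]), tz_x e, mul_inv_rev, gen_inv,
      mul_assoc z.x.1, gen_sq, mul_one, mul_assoc]

theorem nn_tz (s : Bool) (x : Rf sep c) (z : ZZ sep N (Col C N)) :
    Nn (tz s c z).x.1 x.1 ↔ ¬ (Nn z.x.1 x.1 ↔ wl x z) := by
  rcases e : z.y.ρ c with _ | h
  · rw [tz_none e]
    have := wl_none (x := x) e
    tauto
  · rw [tz_x e, nn_mul_gen, wl_some e]

theorem nn_tz_ne (s : Bool) {c' : Cl N} (hc : c' ≠ c) (x : Rf sep c) (z : ZZ sep N (Col C N)) :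
    Nn (tz s c' z).x.1 x.1 ↔ Nn z.x.1 x.1 := by
  rcases e : z.y.ρ c' with _ | h
  · rw [tz_none e]
  · obtain ⟨v, k, ev⟩ := x.2
    have : x.1 ≠ z.x.1 * gen _ ⟨h, c'⟩ * z.x.1⁻¹ := fun e' =>
      hc (congrArg Lt.c (conj_gen (ev.symm.trans e'))).symm
    rw [tz_x e, nn_mul_gen]
    tauto

/-- The action on reflections. -/
noncomputable def actRf (W : Wl G sep) (l : Lam W N) (x : Rf sep c) : Rf sep c :=
  ⟨l.left.1 * raAut (W.cU_smul N) l.right x.1 * l.left.1⁻¹, by
    obtain ⟨v, k, ev⟩ := x.2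
    refine ⟨l.left.1 * raAut (W.cU_smul N) l.right v, l.right • k, ?_⟩
    rw [ev, map_mul, map_mul, map_inv, raAut_gen, Lt.smul_mk]
    group⟩

theorem smul_x (W : Wl G sep) (l : Lam W N) (z : ZZ sep N (Col C N)) :
    (l • z).x.1 = l.left.1 * raAut (W.cU_smul N) l.right z.x.1 := rfl

theorem nn_smul (W : Wl G sep) (l : Lam W N) (x : Rf sep c) (z : ZZ sep N (Col C N)) :
    Nn (l • z).x.1 (actRf W l x).1 ↔ ¬ (Nn l.left.1 (actRf W l x).1 ↔ Nn z.x.1 x.1) := by
  have e : l.left.1⁻¹ * (actRf W l x).1 * l.left.1 = raAut (W.cU_smul N) l.right x.1 := by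
    simp only [actRf]
    group
  rw [smul_x, nn_mul, e, nn_aut]

theorem wl_smul (W : Wl G sep) (l : Lam W N) (x : Rf sep c) (z : ZZ sep N (Col C N)) :
    wl (actRf W l x) (l • z) ↔ wl x z := by
  rcases e : z.y.ρ c with _ | h
  · exact iff_of_false (wl_none (by rw [Lam.smul_def, Col.smul_ρ, e]; rfl)) (wl_none e)
  · rw [wl_some e, wl_some (h := l.right • h) (by rw [Lam.smul_def, Col.smul_ρ, e]; rfl), smul_x,
      ← Lt.smul_mk, ← raAut_gen (W.cU_smul N), ← (raAut (W.cU_smul N) l.right).injective.eq_iff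
        (a := x.1), map_mul, map_mul, map_inv]
    simp only [actRf, mul_inv_rev, mul_assoc, mul_right_inj]
    simp only [← mul_assoc, mul_left_inj]

variable {H : Type} [NormedAddCommGroup H] [InnerProductSpace ℂ H] [CompleteSpace H]
  (b : HilbertBasis (ZZ sep N (Col C N)) ℂ H)

theorem walls (h2 : RaStmt) (W : Wl G sep) (c : Cl N) :
    Walls (rep b (Lam W N)) (fun x : Rf sep c × Prop => PS b (hq x)) (fun x => PS b (sd x)) bar where
  q_proj x := PS_proj b _
  q_orth x x' hx := PS_mul_zero b fun z h h' => by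
    have e := wl_uniq h.1 h'.1
    have h1 := h.2
    have h3 := h'.2
    rw [sd] at h1 h3
    rw [e] at h1
    exact hx (Prod.ext e (propext (h1.symm.trans h3)))
  P_proj x := PS_proj b _
  P_q x := PS_mul_right b fun z h => h.2
  P_bar x := PS_mul_zero b fun z h h' => by
    have h3 := h'.2
    simp only [sd, bar] at h h3
    tauto
  P_or x x' := by
    by_cases e : ∃ z : ZZ sep N (Col C N), sd x z ∧ hq x' z
    · obtain ⟨z, h, h'⟩ := e
      refine .inl (PS_mul_right b fun z' hz' => ?_)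
      by_cases e : x.1 = x'.1
      · have h1 := h'.2
        have h3 := hz'.2
        simp only [sd, e] at h h1 h3 ⊢
        tauto
      · exact (key h2 e h'.1 hz'.1).trans h
    · exact .inr (PS_mul_zero b fun z h h' => e ⟨z, h, h'⟩)
  bar_bar x := Prod.ext rfl (propext not_not)
  bar_ne x e := by
    have h1 : (¬ x.2) = x.2 := congrArg Prod.snd e
    have h3 := iff_of_eq h1
    tauto
  eqv l x := by
    have h1 : ∀ z : ZZ sep N (Col C N),
        sd (actRf W l x.1, ¬ (Nn l.left.1 (actRf W l x.1).1 ↔ x.2)) (l • z) ↔ sd x z := fun z => by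
      simp only [sd, nn_smul]
      tauto
    exact ⟨(actRf W l x.1, ¬ (Nn l.left.1 (actRf W l x.1).1 ↔ x.2)),
      pm_PS b _ fun z => and_congr (wl_smul W l x.1 z) (h1 z), pm_PS b _ h1⟩

omit [CompleteSpace H] in
theorem tau_cm (W : Wl G sep) (s : Bool) (c : Cl N) : Cm (rep b (Lam W N)) (tau b s c) := fun l =>
  pm_comm b (Equiv.ext fun z => (tz_smul W s c l z).symm)

theorem exists_hq {z : ZZ sep N (Col C N)} {h : Hy} (e : z.y.ρ c = some h) :
    ∃ x : Rf sep c × Prop, hq x z :=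
  ⟨(⟨_, z.x.1, h, rfl⟩, Nn z.x.1 (z.x.1 * gen (cU sep N) ⟨h, c⟩ * z.x.1⁻¹)), ⟨h, e, rfl⟩,
    by rw [sd]⟩

theorem glue (W : Wl G sep) (s : Bool) (c : Cl N) :
    Glue (rep b (Lam W N)) (fun x : Rf sep c × Prop => PS b (hq x)) (fun x => PS b (sd x)) bar
      (tau b s c) where
  sa := tau_sa b s c
  inv := tau_sq b s c
  cm := tau_cm b W s c
  tq x := pm_PS b _ fun z => by
    change wl x.1 (tz s c z) ∧ (Nn (tz s c z).x.1 x.1.1 ↔ ¬ x.2) ↔ wl x.1 z ∧ (Nn z.x.1 x.1.1 ↔ x.2)
    rw [wl_tz, nn_tz]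
    tauto
  int ξ hξ := vec_ext b fun z => by
    rw [← ContinuousLinearMap.adjoint_inner_left, ← ContinuousLinearMap.star_eq_adjoint, tau_sa,
      tau_apply]
    rcases e : z.y.ρ c with _ | h
    · rw [tz_none e]
    · obtain ⟨x, hx⟩ := exists_hq e
      obtain ⟨x', hx'⟩ := exists_hq (z := tz s c z) (h := h) (by rw [tz_ρ, e])
      rw [inner_zero b (hξ x) hx, inner_zero b (hξ x') hx']
  side x := by
    rw [PS_sub b fun z h => h.2]
    refine pm_PS b _ fun z => ?_
    change (Nn (tz s c z).x.1 x.1.1 ↔ x.2) ∧ ¬ (wl x.1 (tz s c z) ∧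
      (Nn (tz s c z).x.1 x.1.1 ↔ x.2)) ↔ (Nn z.x.1 x.1.1 ↔ x.2) ∧ ¬ (wl x.1 z ∧ (Nn z.x.1 x.1.1 ↔ x.2))
    rw [wl_tz, nn_tz]
    tauto

theorem mirror (W : Wl G sep) (x : Rf sep c × Prop) :
    ∃ l, tau b true c * PS b (hq x) = rep b (Lam W N) l * PS b (hq x) := by
  refine ⟨⟨(x.1.1, 1), 1⟩, hb_ext b fun z => ?_⟩
  rw [mul_apply_eq_comp, mul_apply_eq_comp]
  by_cases e : hq x z
  · obtain ⟨h, e1, e2⟩ := e.1
    rw [PS_pos b e, tau_apply, rep_apply, tz_some e1, Lam.smul_def]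
    refine congrArg b (ZZ.ext ?_ (one_smul G z.y).symm)
    rw [← e2]
    refine Prod.ext ?_ ?_ <;> simp
  · rw [PS_neg b e, map_zero, map_zero]

theorem piece (h2 : RaStmt) (c : Cl N) :
    Piece (fun x : Rf sep c × Prop => PS b (hq x)) (fun x => PS b (sd x)) bar (PS b (pc c)) where
  proj := PS_proj b _
  or x := by
    by_cases e : ∃ z : ZZ sep N (Col C N), pc c z ∧ hq x z
    · obtain ⟨z, h, h'⟩ := e
      have h1 : ¬ x.2 := fun e => h x.1 (h'.2.2 e)
      refine .inl ⟨PS_mul_right b fun z' hz' y => ?_, PS_mul_zero b fun z' h3 h4 => h4 x.1 (h3.2 h1)⟩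
      by_cases e : y = x.1
      · rw [e]
        exact fun h3 => h1 (hz'.2.1 h3)
      · rw [key h2 e h'.1 hz'.1]
        exact h y
    · exact .inr (PS_mul_zero b fun z h h' => e ⟨z, h, h'⟩)

theorem fits (h2 : RaStmt) (c : Cl N) {I : Type} (r : I → B) :
    Fits (fun x : Rf sep c × Prop => PS b (hq x)) (fun x => PS b (sd x)) bar (frC b r)
      fun _ => PS b (pc c) where
  wall j := by
    rcases e : (rC C r j).ρ c with _ | h
    · exact .inl fun x => PS_neg b fun h => wl_none e h.1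
    · obtain ⟨x, hx⟩ := exists_hq (z := ⟨1, rC C r j⟩) e
      exact .inr ⟨x, PS_pos b hx⟩
  piece _ := piece b h2 c
  mem j := PS_pos b fun x => nn_one _

variable [NeZero N]

omit [CompleteSpace H] in
theorem PP_univ (s : Cl N → Bool) (c : Cl N) [DecidableEq (Cl N)] :
    PP b s Finset.univ = pj (tau b (s c) c) * PP b s (Finset.univ.erase c) :=
  (Finset.mul_noncommProd_erase _ (Finset.mem_univ c) _ _).symm

omit [CompleteSpace H] in
theorem PP_univ' (s : Cl N → Bool) (c : Cl N) [DecidableEq (Cl N)] :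
    PP b s Finset.univ = PP b s (Finset.univ.erase c) * pj (tau b (s c) c) :=
  (Finset.noncommProd_erase_mul _ (Finset.mem_univ c) _ _).symm

omit [CompleteSpace H] [NeZero N] in
theorem PP_congr {s s' : Cl N → Bool} {D : Finset (Cl N)} (h : ∀ c ∈ D, s c = s' c) :
    PP b s D = PP b s' D := Finset.noncommProd_congr rfl (fun c hc => by rw [h c hc]) _

theorem one_step (h1 : LdStmt) (h2 : RaStmt) (W : Wl G sep) {I : Type} [Fintype I] {r : I → B}
    (hr : FreeOn G r) {Q : H →L[ℂ] H} (hQ : 0 ≤ Q) (hc : Cm (rep b (Lam W N)) Q)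
    (hp : ∀ p : RA (cU sep N) → Prop, Commute (PS b fun z => p z.x.1) Q) {s s' : Cl N → Bool}
    {c : Cl N} (e : s c = true) (e' : s' c = false) (hs : ∀ c', c' ≠ c → s c' = s' c') :
    ld (frC b r) (1 + PP b s Finset.univ * Q * PP b s Finset.univ) ≤
      ld (frC b r) (1 + PP b s' Finset.univ * Q * PP b s' Finset.univ) := by
  classical
  have h3 : ∀ t : Cl N → Bool, 1 + PP b t Finset.univ * Q * PP b t Finset.univ =
      cmp (tau b (t c) c) (1 + PP b t (Finset.univ.erase c) * Q * PP b t (Finset.univ.erase c)) 1 :=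
    fun t => by
      rw [cmp_eq (pj_proj (tau_sa b _ c) (tau_sq b _ c))]
      nth_rw 1 [PP_univ b t c]
      rw [PP_univ' b t c]
      simp only [mul_assoc]
  have h4 : ∀ p : RA (cU sep N) → Prop,
      (∀ u u', (∀ x : Rf sep c, Nn u x.1 ↔ Nn u' x.1) → (p u ↔ p u')) →
      Commute (PS b fun z => p z.x.1)
        (1 + PP b s' (Finset.univ.erase c) * Q * PP b s' (Finset.univ.erase c)) := fun p h => by
    have h5 : Commute (PS b fun z => p z.x.1) (PP b s' (Finset.univ.erase c)) :=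
      PP_comm b fun c' hc' => Commute.symm (pm_PS b _ fun z =>
        h _ _ fun x => nn_tz_ne _ (Finset.ne_of_mem_erase hc') x z)
    exact (Commute.one_right _).add_right ((h5.mul_right (hp p)).mul_right h5)
  rw [h3, h3, e, e', PP_congr b (s := s) (s' := s') fun c' hc' => hs c' (Finset.ne_of_mem_erase hc')]
  refine h1 _ _ _ _ _ _ (gframe_of_free b (freeOn_ZZ W (freeOn_col hr))) _ _ _ _ _ (walls b h2 W c)
    (glue b W false c) (glue b W true c) (mirror b W) _ (fits b h2 c r) _ ⟨?_, fun l => ?_, fun x => ?_⟩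
    fun _ => ?_
  · exact le_add_of_nonneg_right ((PP_proj b s' _).isSelfAdjoint.conjugate_nonneg hQ)
  · have h5 : Commute (rep b (Lam W N) l) (PP b s' (Finset.univ.erase c)) :=
      PP_comm b fun c' _ => tau_cm b W _ c' l
    exact (Commute.one_right _).add_right ((h5.mul_right (hc l)).mul_right h5)
  · exact h4 (fun u => Nn u x.1.1 ↔ x.2) fun u u' h => by rw [h]
  · exact h4 (fun u => ∀ x : Rf sep c, ¬ Nn u x.1) fun u u' h => by simp only [h]

end Step

theorem step_stmt (h1 : LdStmt) (h2 : RaStmt) : StepStmt := by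
  intro G V Hy B I H _ _ _ _ _ _ _ _ sep W o σ F d C N _ b r hr Q hQ hc hp
  classical
  have key : ∀ A : Finset (Cl N),
      ld (frC b r) (1 + PP b (fun c => decide (c ∈ A)) Finset.univ * Q *
        PP b (fun c => decide (c ∈ A)) Finset.univ) ≤
      ld (frC b r) (1 + PP b (fun _ => false) Finset.univ * Q *
        PP b (fun _ => false) Finset.univ) := fun A => by
    induction A using Finset.induction_on with
    | empty => simp
    | insert c A hA ih =>
      exact (Step.one_step b h1 h2 W hr hQ hc hp (c := c) (by simp) (by simpa using hA)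
        fun c' hc' => by simp [hc']).trans ih
  simpa using key Finset.univ

end Pool.Agent.MP_4f4d9f_gt.Cb

end
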