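import Pool.Agent.Mg.F4f4d9fr.Gba0513

set_option linter.all false

section

/-! The cap product with the Thom cochain, on chains with coefficients in a division ring. -/

namespace Pool.Agent.MP_4f4d9f_gt.Sg

set_option linter.unusedSectionVars false

open Finsupp Tup

namespace Om

variable {G : Type}

theorem ind2 {B B' : Type} {Q : Type} [AddCommGroup Q] (F F' : (B →₀ F2) → (B' →₀ F2) → Q)
    (h1 : ∀ x y z, F (x + y) z = F x z + F y z) (h2 : ∀ x y z, F z (x + y) = F z x + F z y)
    (h3 : ∀ x y z, F' (x + y) z = F' x z + F' y z) (h4 : ∀ x y z, F' z (x + y) = F' z x + F' z y)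
    (h : ∀ x y, F (single x 1) (single y 1) = F' (single x 1) (single y 1)) (p : B →₀ F2)
    (q : B' →₀ F2) : F p q = F' p q := by
  have z : ∀ {a : Q}, a = a + a → a = 0 := fun h => left_eq_add.1 h
  induction p using induction2 with
  | h0 => rw [z (a := F 0 q) (by rw [← h1, add_zero]), z (a := F' 0 q) (by rw [← h3, add_zero])]
  | hadd x y hx hy => rw [h1, h3, hx, hy]
  | h1 x =>
    induction q using induction2 with
    | h0 => rw [z (a := F _ 0) (by rw [← h2, add_zero]), z (a := F' _ 0) (by rw [← h4, add_zero])]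
    | hadd x y hx hy => rw [h2, h4, hx, hy]
    | h1 y => exact h x y

/-- Evaluation of the cochain on the first factors. -/
noncomputable def K (θ : Cell G → F2) :
    (Cell G →₀ F2) →ₗ[F2] (Cell G →₀ F2) →ₗ[F2] (Cell G →₀ F2) :=
  linearCombination F2 fun p => linearCombination F2 fun q => single (p.2, q.2) (θ (p.1, q.1))

variable {θ : Cell G → F2}

theorem K_single (p q : Cell G) :
    K θ (single p 1) (single q 1) = single (p.2, q.2) (θ (p.1, q.1)) := by simp [K]

theorem K_pr2 (a1 a2 b1 b2 : Tup G →₀ F2) :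
    K θ (pr2 a1 a2) (pr2 b1 b2) = linearCombination F2 θ (pr2 a1 b1) • pr2 a2 b2 := by
  refine ind2 (fun a1 a2 => K θ (pr2 a1 a2) (pr2 b1 b2))
    (fun a1 a2 => linearCombination F2 θ (pr2 a1 b1) • pr2 a2 b2) (by simp) (by simp)
    (by simp [add_smul]) (by simp) (fun x1 x2 => ?_) a1 a2
  refine ind2 (fun b1 b2 => K θ (pr2 (single x1 1) (single x2 1)) (pr2 b1 b2))
    (fun b1 b2 => linearCombination F2 θ (pr2 (single x1 1) b1) • pr2 (single x2 1) b2) (by simp)
    (by simp) (by simp [add_smul]) (by simp) (fun y1 y2 => ?_) b1 b2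
  simp [pr2_single, K_single]

theorem single_eq (p : Cell G) : single p (1 : F2) = pr2 (single p.1 1) (single p.2 1) := by
  rw [pr2_single, mul_one]

theorem cb_K (hθ : ∀ c, linearCombination F2 θ (cb (single c 1)) = θ c + θ c.swap)
    (p q : Cell G →₀ F2) :
    cb (K θ p q) = K θ (cb p) q + K θ p (cb q) + K θ p q + cs (K θ q p) := by
  refine ind2 (fun p q => cb (K θ p q))
    (fun p q => K θ (cb p) q + K θ p (cb q) + K θ p q + cs (K θ q p)) (by simp) (by simp)
    (fun x y z => ?_) (fun x y z => ?_) (fun p q => ?_) p q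
  · simp only [map_add, LinearMap.add_apply]
    abel
  · simp only [map_add, LinearMap.add_apply]
    abel
  · have h := hθ (p.1, q.1)
    rw [single_eq, cb_pr2, map_add] at h
    have e1 : linearCombination F2 θ (pr2 (single p.1 1) (single q.1 1)) = θ (p.1, q.1) := by
      simp [pr2_single]
    have e2 : linearCombination F2 θ (pr2 (single q.1 1) (single p.1 1)) = θ (p.1, q.1).swap := by
      simp [pr2_single]
    rw [single_eq p, single_eq q]
    simp only [cb_pr2, map_add, LinearMap.add_apply, K_pr2, map_smul, cs_pr2, e1, e2]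
    ext z
    simp only [Finsupp.add_apply, Finsupp.smul_apply, smul_eq_mul]
    have h2 : (2 : F2) = 0 := rfl
    generalize pr2 (single p.2 (1 : F2)) (single q.2 1) z = w
    linear_combination (-w) * h - ((θ (p.1, q.1) + θ (p.1, q.1).swap) * w) * h2

theorem prD_K {n : ℕ} (hθ : ∀ c, n < cdeg c → θ c = 0) {m i : ℕ} (h : i + n < 2 * m)
    (p q : Cell G →₀ F2) : prD F2 cdeg i (K θ (prD F2 cdeg m p) (prD F2 cdeg m q)) = 0 := by
  refine ind2 (fun p q => prD F2 cdeg i (K θ (prD F2 cdeg m p) (prD F2 cdeg m q)))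
    (fun _ _ => 0) (by simp) (by simp) (by simp) (by simp) (fun p q => ?_) p q
  simp only [prD_single]
  split_ifs with h1 h2
  · rw [K_single, prD_single]
    split_ifs with h3
    · rw [hθ _ (by simp only [cdeg] at h1 h2 h3 ⊢; omega), single_zero]
    · rfl
  all_goals simp

theorem top_K {Q : Type} [AddCommGroup Q] (l : (Cell G →₀ F2) →+ Q) {m : ℕ}
    (hl : ∀ x y r, x.deg ≠ m ∨ y.deg ≠ m → l (single (x, y) r) = 0) (p q : Cell G →₀ F2) :
    l (K θ (prD F2 cdeg m p) (prD F2 cdeg m q)) =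
      l (K θ (prD F2 (fun e : Cell G => e.1.deg) 0 (prD F2 cdeg m p))
        (prD F2 (fun e : Cell G => e.1.deg) 0 (prD F2 cdeg m q))) := by
  refine ind2 (fun p q => l (K θ (prD F2 cdeg m p) (prD F2 cdeg m q)))
    (fun p q => l (K θ (prD F2 (fun e : Cell G => e.1.deg) 0 (prD F2 cdeg m p))
      (prD F2 (fun e : Cell G => e.1.deg) 0 (prD F2 cdeg m q)))) (by simp) (by simp) (by simp)
    (by simp) (fun p q => ?_) p q
  simp only [prD_single]
  split_ifs with h1 h2
  · rw [prD_single, prD_single]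
    split_ifs with h3 h4
    · rfl
    · rw [K_single, hl _ _ _ (Or.inr (by simp only [cdeg] at h2; omega))]
      simp
    · rw [K_single, hl _ _ _ (Or.inl (by simp only [cdeg] at h1; omega))]
      simp
    · rw [K_single, hl _ _ _ (Or.inl (by simp only [cdeg] at h1; omega))]
      simp
  all_goals simp

variable [Group G] {n : ℕ}

theorem K_perm (hθ : Thom n θ) (g : G) (p q : Cell G →₀ F2) :
    K θ (perm2 G _ g p) (perm2 G _ g q) = perm2 G _ g (K θ p q) := by
  refine ind2 (fun p q => K θ (perm2 G _ g p) (perm2 G _ g q))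
    (fun p q => perm2 G _ g (K θ p q)) (by simp) (by simp) (by simp) (by simp)
    (fun p q => ?_) p q
  simp only [perm2_single, K_single, Prod.smul_fst, Prod.smul_snd, hθ.inv, Prod.smul_mk]

theorem K_fin (hθ : Thom n θ) (p q : Cell G →₀ F2) :
    {g : G | K θ p (perm2 G _ g q) ≠ 0}.Finite := by
  induction p using induction2 with
  | h0 => simp
  | hadd x y hx hy =>
    refine (hx.union hy).subset fun g hg => by_contra fun h => hg ?_
    simp only [Set.mem_union, Set.mem_ofPred_eq, not_or, not_not] at h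
    rw [map_add, LinearMap.add_apply, h.1, h.2, add_zero]
  | h1 x =>
    induction q using induction2 with
    | h0 => simp
    | hadd x y hx hy =>
      refine (hx.union hy).subset fun g hg => by_contra fun h => hg ?_
      simp only [Set.mem_union, Set.mem_ofPred_eq, not_or, not_not] at h
      rw [map_add, map_add, h.1, h.2, add_zero]
    | h1 y =>
      refine (hθ.fin x.1 y.1).subset fun g hg h => hg ?_
      rw [perm2_single, K_single, Prod.smul_fst, h, single_zero]

theorem supp (hθ : Thom n θ) {Q : Type} [Zero Q] (φ : G → (Cell G →₀ F2) → Q)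
    (h : ∀ g, φ g 0 = 0) (p q : Cell G →₀ F2) :
    Function.HasFiniteSupport fun g => φ g (K θ p (perm2 G _ g q)) :=
  (K_fin hθ p q).subset fun g hg e => hg (by simp only [e, h])

theorem sum_pt (hθ : Thom n θ) (h2 : ∀ g : G, g * g = 1 → g = 1) (a b : G) :
    ∑ᶠ g : G, θ (pt a, pt (g * b)) = 1 := by
  classical
  have e1 : ∀ g : G, θ (pt 1, pt g⁻¹) = θ (pt 1, pt g) := fun g => by
    have h := hθ.coc (pt 1, pt g)
    rw [single_eq, cb_pr2, bdT_pt, bdT_pt] at h
    have h' := hθ.inv g (pt 1) (pt g⁻¹)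
    simp only [smul_pt, mul_one, mul_inv_cancel] at h'
    rw [← h']
    simp only [map_zero, LinearMap.zero_apply, add_zero, Prod.swap_prod_mk] at h
    exact (CharTwo.add_eq_zero.1 h.symm).symm
  have e2 : ∑ᶠ g : G, θ (pt a, pt (g * b)) = ∑ᶠ g : G, θ (pt 1, pt g) := by
    rw [← finsum_comp_equiv ((Equiv.mulRight b).trans (Equiv.mulLeft a⁻¹))
      (f := fun g => θ (pt 1, pt g))]
    refine finsum_congr fun g => ?_
    rw [← hθ.inv a⁻¹]
    simp
  have hf : (Function.support fun g : G => θ (pt 1, pt g)).Finite :=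
    (hθ.fin (pt 1) (pt 1)).subset fun g hg => by simpa using hg
  have h1 : (1 : G) ∈ hf.toFinset := by simp [hθ.one]
  rw [e2, finsum_eq_sum _ hf, ← Finset.add_sum_erase _ _ h1, hθ.one,
    Finset.sum_involution (fun g _ => g⁻¹), add_zero]
  · intro g _
    rw [e1, CharTwo.add_self_eq_zero]
  · intro g hg _ e
    exact (Finset.mem_erase.1 hg).1 (h2 g (by nth_rewrite 1 [← e]; exact inv_mul_cancel g))
  · intro g hg
    simpa [e1] using hg
  · intro g _
    exact inv_inv g

variable {D : Type} [DivisionRing D] (ι : G →* D)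

/-- The generators of the chains of the tensor square. -/
noncomputable abbrev o2 : (Cell G →₀ F2) →ₗ[ℤ] TC ι := Tens.of (dg ι) (perm2 G (Cell G))

/-- The pairing of two chains of the tensor square. -/
noncomputable def B (θ : Cell G → F2) (p q : Cell G →₀ F2) : TC ι :=
  ∑ᶠ g : G, tm 1 (ι g⁻¹) • o2 ι (K θ p (perm2 G _ g q))

theorem dC_of (c : Cell G →₀ F2) : dC ι (o2 ι c) = o2 ι (cb c) := rfl

theorem pC_of (m : ℕ) (c : Cell G →₀ F2) : pC ι m (o2 ι c) = o2 ι (prD F2 cdeg m c) := rfl

theorem dT_of (c : Tup G →₀ F2) : dT ι (Tens.of _ _ c) = Tens.of _ _ (bdT F2 c) := rfl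

theorem pT_of (m : ℕ) (c : Tup G →₀ F2) :
    pT ι m (Tens.of _ _ c) = Tens.of _ _ (prD F2 deg m c) := rfl

theorem finsum4 {α Q : Type} [AddCommGroup Q] {f1 f2 f3 f4 : α → Q}
    (h1 : Function.HasFiniteSupport f1) (h2 : Function.HasFiniteSupport f2)
    (h3 : Function.HasFiniteSupport f3) (h4 : Function.HasFiniteSupport f4) :
    ∑ᶠ i, f1 i + ∑ᶠ i, f2 i + ∑ᶠ i, f3 i + ∑ᶠ i, f4 i = ∑ᶠ i, (f1 i + f2 i + f3 i + f4 i) := by
  rw [← finsum_add_distrib h1 h2]
  exact (congrArg (· + ∑ᶠ i, f4 i) (finsum_add_distrib (h1.add h2) h3).symm).trans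
    (finsum_add_distrib ((h1.add h2).add h3) h4).symm

variable (hθ : Thom n θ)

include hθ

theorem suppB (p q : Cell G →₀ F2) :
    Function.HasFiniteSupport fun g : G => tm 1 (ι g⁻¹) • o2 ι (K θ p (perm2 G _ g q)) :=
  supp hθ (fun g c => tm 1 (ι g⁻¹) • o2 ι c) (by simp) p q

theorem B_add_left (p p' q : Cell G →₀ F2) : B ι θ (p + p') q = B ι θ p q + B ι θ p' q := by
  rw [B, B, B, ← finsum_add_distrib (suppB ι hθ p q) (suppB ι hθ p' q)]
  simp only [map_add, LinearMap.add_apply, smul_add]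

theorem B_add_right (p q q' : Cell G →₀ F2) : B ι θ p (q + q') = B ι θ p q + B ι θ p q' := by
  rw [B, B, B, ← finsum_add_distrib (suppB ι hθ p q) (suppB ι hθ p q')]
  simp only [map_add, smul_add]

theorem B_perm_left (h : G) (p q : Cell G →₀ F2) :
    B ι θ (perm2 G _ h p) q = tm (ι h) 1 • B ι θ p q := by
  rw [B, B, smul_finsum' _ (suppB ι hθ p q), ← finsum_comp_equiv (Equiv.mulLeft h)]
  refine finsum_congr fun g => ?_
  rw [Equiv.coe_mulLeft, map_mul (perm2 G _), Module.End.mul_apply, K_perm hθ, Tens.of_rep,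
    dg_apply, smul_smul, smul_smul, tm_mul, tm_mul, ← map_mul]
  simp

theorem B_perm_right (h : G) (p q : Cell G →₀ F2) :
    B ι θ p (perm2 G _ h q) = tm 1 (ι h) • B ι θ p q := by
  rw [B, B, smul_finsum' _ (suppB ι hθ p q), ← finsum_comp_equiv (Equiv.mulRight h⁻¹)]
  refine finsum_congr fun g => ?_
  rw [Equiv.coe_mulRight, ← Module.End.mul_apply, ← map_mul (perm2 G _), smul_smul, tm_mul,
    ← map_mul]
  simp

theorem dC_B (p q : Cell G →₀ F2) :
    dC ι (B ι θ p q) = B ι θ (cb p) q + B ι θ p (cb q) + B ι θ p q + tC ι (B ι θ q p) := by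
  have e : tC ι (B ι θ q p) =
      ∑ᶠ g : G, tm 1 (ι g⁻¹) • o2 ι (cs (K θ (perm2 G _ g q) p)) := by
    rw [B, map_finsum _ (suppB ι hθ q p), ← finsum_comp_equiv (Equiv.inv G)]
    refine finsum_congr fun g => ?_
    have e1 : p = perm2 G _ g (perm2 G _ g⁻¹ p) := by
      rw [← Module.End.mul_apply, ← map_mul, mul_inv_cancel, map_one, Module.End.one_apply]
    have e2 : ∀ c, cs (perm2 G (Cell G) g c) = perm2 G _ g (cs c) := cs_smul g
    conv_rhs => rw [e1, K_perm hθ, e2, Tens.of_rep, dg_apply, smul_smul, tm_mul, ← map_mul]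
    rw [tC_smul_of, sw_tm]
    simp
  have hs : Function.HasFiniteSupport fun g : G =>
      tm 1 (ι g⁻¹) • o2 ι (cs (K θ (perm2 G _ g q) p)) := by
    refine (K_fin hθ q p).inv.subset fun g hg e0 => hg ?_
    have e1 : p = perm2 G _ g (perm2 G _ g⁻¹ p) := by
      rw [← Module.End.mul_apply, ← map_mul, mul_inv_cancel, map_one, Module.End.one_apply]
    beta_reduce
    rw [e1, K_perm hθ, e0]
    simp
  rw [e, B, B, B, map_finsum _ (suppB ι hθ p q),
    finsum4 (suppB ι hθ _ _) (suppB ι hθ _ _) (suppB ι hθ _ _) hs]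
  refine finsum_congr fun g => ?_
  have e3 : cb (perm2 G (Cell G) g q) = perm2 G _ g (cb q) := cb_smul g q
  rw [map_smul, dC_of, cb_K hθ.coc, e3]
  simp only [map_add, smul_add]

theorem pC_B {m i : ℕ} (h : i + n < 2 * m) (p q : Cell G →₀ F2) :
    pC ι i (B ι θ (prD F2 cdeg m p) (prD F2 cdeg m q)) = 0 := by
  rw [B, map_finsum _ (suppB ι hθ _ _)]
  refine finsum_eq_zero_of_forall_eq_zero fun g => ?_
  have e : perm2 G (Cell G) g (prD F2 cdeg m q) = prD F2 cdeg m (perm2 G _ g q) :=
    (prD_smul (cdeg_smul g) m q).symm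
  rw [map_smul, pC_of, e, prD_K hθ.top h, map_zero, smul_zero]

omit hθ in
theorem exists_lift {C : Type} [AddCommGroup C] {ρ : Representation ℤ G C} {Q : Type}
    [AddCommGroup Q] [Module (DD D) Q] (ω : C → C → Q)
    (h1 : ∀ a a' b, ω (a + a') b = ω a b + ω a' b) (h2 : ∀ a b b', ω a (b + b') = ω a b + ω a b')
    (h3 : ∀ g a b, ω (ρ g a) b = tm (ι g) 1 • ω a b)
    (h4 : ∀ g a b, ω a (ρ g b) = tm 1 (ι g) • ω a b) :
    ∃ Ω : Tens ι ρ →+ Tens ι ρ →+ Q, ∀ (d d' : D) a b,
      Ω (d • Tens.of ι ρ a) (d' • Tens.of ι ρ b) = tm d d' • ω a b := by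
  let M : D →+ C →+ D →+ C →+ Q := AddMonoidHom.mk' (fun d' => AddMonoidHom.mk' (fun b =>
    AddMonoidHom.mk' (fun d => AddMonoidHom.mk' (fun a => tm d d' • ω a b)
      fun a a' => by rw [h1, smul_add])
      fun d e => by ext a; simp [tm_add_left, add_smul])
      fun b b' => by ext d a; simp [h2])
      fun d e => by ext b d' a; simp [tm_add_right, add_smul]
  have hM : ∀ d' b d a, M d' b d a = tm d d' • ω a b := fun _ _ _ _ => rfl
  let Λ : Tens ι ρ →+ D →+ C →+ Q := liftAdd ι M fun d' g b => by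
    ext d a
    rw [hM, hM, h4, smul_smul, tm_mul, mul_one]
  have hΛ : ∀ d' b d a, Λ (d' • Tens.of ι ρ b) d a = tm d d' • ω a b := fun d' b d a => by
    rw [liftAdd_smul_of, hM]
  refine ⟨liftAdd ι (AddMonoidHom.flipHom.comp Λ.flip) fun d g a => ?_, fun d d' a b => ?_⟩
  · refine AddMonoidHom.ext fun z => ?_
    change Λ z (d * ι g) a = Λ z d (ρ g a)
    induction z using Tens.induction with
    | h0 => simp
    | hadd x y hx hy => simp only [map_add, AddMonoidHom.add_apply, hx, hy]
    | h1 d' b => rw [hΛ, hΛ, h3, smul_smul, tm_mul, mul_one]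
  · rw [liftAdd_smul_of]
    exact hΛ d' b d a

omit hθ in
theorem ext2 {Q : Type} [AddCommGroup Q] (F F' : TD ι → TD ι → Q)
    (h1 : ∀ x y z, F (x + y) z = F x z + F y z) (h2 : ∀ x y z, F z (x + y) = F z x + F z y)
    (h3 : ∀ x y z, F' (x + y) z = F' x z + F' y z) (h4 : ∀ x y z, F' z (x + y) = F' z x + F' z y)
    (h : ∀ (d d' : D) x y, F (d • Tens.of _ _ (single x 1)) (d' • Tens.of _ _ (single y 1)) =
      F' (d • Tens.of _ _ (single x 1)) (d' • Tens.of _ _ (single y 1))) (p q : TD ι) :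
    F p q = F' p q := by
  have z : ∀ {a : Q}, a = a + a → a = 0 := fun h => left_eq_add.1 h
  induction p using Tens.induction with
  | h0 => rw [z (a := F 0 q) (by rw [← h1, add_zero]), z (a := F' 0 q) (by rw [← h3, add_zero])]
  | hadd x y hx hy => rw [h1, h3, hx, hy]
  | h1 d a =>
    induction q using Tens.induction with
    | h0 => rw [z (a := F _ 0) (by rw [← h2, add_zero]), z (a := F' _ 0) (by rw [← h4, add_zero])]
    | hadd x y hx hy => rw [h2, h4, hx, hy]
    | h1 d' b =>
      exact ind2 (fun a b => F (d • Tens.of _ _ a) (d' • Tens.of _ _ b))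
        (fun a b => F' (d • Tens.of _ _ a) (d' • Tens.of _ _ b)) (by simp [h1]) (by simp [h2])
        (by simp [h3]) (by simp [h4]) (h d d') a b

omit hθ in
theorem tC_smul (d d' : D) (w : TC ι) : tC ι (tm d d' • w) = tm d' d • tC ι w := by
  induction w using Tens.induction with
  | h0 => simp
  | hadd x y hx hy => simp only [smul_add, map_add, hx, hy]
  | h1 a c => rw [smul_smul, tC_smul_of, tC_smul_of, map_mul, sw_tm, smul_smul]

omit hθ in
theorem prD_aw {aw : (Tup G →₀ F2) →ₗ[F2] (Cell G →₀ F2)} (h : AW aw) (x : Tup G) :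
    prD F2 cdeg x.deg (aw (single x 1)) = aw (single x 1) := by
  ext e
  rw [prD_apply]
  split_ifs with h1
  · rfl
  · exact (notMem_support_iff.1 fun h2 => h1 (h.deg x e h2)).symm

theorem L_B (h2 : ∀ g : G, g * g = 1 → g = 1) {aw : (Tup G →₀ F2) →ₗ[F2] (Cell G →₀ F2)}
    (h : AW aw) {m : ℕ} (f : TD ι →ₗ[D] D) (L : TC ι →ₗ[DD D] DD D)
    (hf : ∀ x : Tup G, x.deg ≠ m → f (Tens.of _ _ (single x 1)) = 0)
    (hL : ∀ x y : Tup G, L (Tens.of _ _ (single (x, y) 1)) =
      tm (f (Tens.of _ _ (single x 1))) (f (Tens.of _ _ (single y 1)))) {x y : Tup G}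
    (hx : x.deg = m) (hy : y.deg = m) : L (B ι θ (aw (single x 1)) (aw (single y 1))) =
      tm (f (Tens.of _ _ (single x 1))) (f (Tens.of _ _ (single y 1))) := by
  have two : ∀ r : F2, r = 0 ∨ r = 1 := by decide
  let l : (Cell G →₀ F2) →+ DD D := L.toAddMonoidHom.comp (o2 ι).toAddMonoidHom
  have hl : ∀ c, l c = L (o2 ι c) := fun _ => rfl
  have h3 : ∀ x y r, x.deg ≠ m ∨ y.deg ≠ m → l (single (x, y) r) = 0 := by
    intro x y r hxy
    rcases two r with rfl | rfl
    · rw [single_zero, map_zero]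
    · rw [hl, hL]
      rcases hxy with e | e <;> rw [hf _ e]
      exacts [tm_zero_left _, tm_zero_right _]
  have hs : Function.HasFiniteSupport fun g : G => θ (pt x.hd, pt (g * y.hd)) :=
    hθ.fin (pt x.hd) (pt y.hd)
  have h4 := map_finsum (l.comp (singleAddHom (x, y))) hs
  rw [sum_pt hθ h2] at h4
  rw [← hL, B, map_finsum _ (suppB ι hθ _ _)]
  refine (finsum_congr fun g => ?_).trans h4.symm
  have e1 : perm2 G (Cell G) g (aw (single y 1)) = aw (single (g • y) 1) := by
    rw [← perm2_single]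
    exact (h.eqv g _).symm
  have e2 := prD_aw h x
  have e3 := prD_aw h (g • y)
  rw [hx] at e2
  rw [deg_smul, hy] at e3
  rw [map_smul, e1, ← hl, ← e2, ← e3, top_K l h3, e2, e3, h.top, h.top, K_single]
  change tm 1 (ι g⁻¹) • l (single (x, g • y) (θ (pt x.hd, pt (g * y.hd)))) =
    l (single (x, y) (θ (pt x.hd, pt (g * y.hd))))
  rcases two (θ (pt x.hd, pt (g * y.hd))) with e | e <;> rw [e]
  · simp
  · rw [hl, hl, hL, hL, ← perm2_single, Tens.of_rep, map_smul, smul_eq_mul, smul_eq_mul, tm_mul,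
      one_mul, ← mul_assoc, ← map_mul, inv_mul_cancel, map_one, one_mul]

end Om

open Om in
theorem om_stmt (h : AWStmt) : OmStmt := by
  intro G D _ _ ι n θ hθ h2
  obtain ⟨aw, haw⟩ := h G
  have e : ∀ g a, aw (perm2 G _ g a) = perm2 G _ g (aw a) := haw.eqv
  obtain ⟨Ω, hΩ⟩ := exists_lift ι (ρ := perm2 G (Tup G)) (fun a b => B ι θ (aw a) (aw b))
    (fun a a' b => by rw [map_add, B_add_left ι hθ])
    (fun a b b' => by rw [map_add, B_add_right ι hθ])
    (fun g a b => by rw [e, B_perm_left ι hθ]) (fun g a b => by rw [e, B_perm_right ι hθ])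
  have hp : ∀ m (x : Tup G), pT ι m (Tens.of _ _ (single x 1)) =
      if x.deg = m then Tens.of _ _ (single x 1) else 0 := fun m x => by
    rw [pT_of, prD_single]
    split_ifs <;> simp
  refine ⟨Ω, fun z z' => ?_, fun m i z z' hi => ?_, fun m f L hf hL z z' => ?_⟩
  · refine ext2 ι (fun z z' => dC ι (Ω z z'))
      (fun z z' => Ω (dT ι z) z' + Ω z (dT ι z') + Ω z z' + tC ι (Ω z' z)) (by simp) (by simp)
      (fun x y z => ?_) (fun x y z => ?_) (fun d d' x y => ?_) z z'
    · simp only [map_add, AddMonoidHom.add_apply]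
      abel
    · simp only [map_add, AddMonoidHom.add_apply]
      abel
    · simp only [map_smul, dT_of, hΩ, tC_smul, dC_B ι hθ, haw.bd, smul_add]
  · refine ext2 ι (fun z z' => pC ι i (Ω (pT ι m z) (pT ι m z'))) (fun _ _ => 0) (by simp)
      (by simp) (by simp) (by simp) (fun d d' x y => ?_) z z'
    simp only [map_smul, hp]
    split_ifs with hx hy
    · have e2 := prD_aw haw x
      have e3 := prD_aw haw y
      rw [hx] at e2
      rw [hy] at e3
      rw [hΩ, map_smul, ← e2, ← e3, pC_B ι hθ hi, smul_zero]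
    all_goals simp
  · have hf' : ∀ x : Tup G, x.deg ≠ m → f (Tens.of _ _ (single x 1)) = 0 := fun x hx => by
      rw [← hf, hp, if_neg hx, map_zero]
    refine ext2 ι (fun z z' => L (Ω (pT ι m z) (pT ι m z'))) (fun z z' => tm (f z) (f z'))
      (by simp) (by simp) (by simp [tm_add_left]) (by simp [tm_add_right])
      (fun d d' x y => ?_) z z'
    simp only [map_smul, hp]
    by_cases hx : x.deg = m
    · by_cases hy : y.deg = m
      · rw [if_pos hx, if_pos hy, hΩ, map_smul, L_B ι hθ h2 haw f L hf' hL hx hy, smul_eq_mul,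
          tm_mul, smul_eq_mul, smul_eq_mul]
      · rw [if_neg hy, hf' y hy]
        simp [tm_zero_right]
    · rw [if_neg hx, hf' x hx]
      simp [tm_zero_left]

end Pool.Agent.MP_4f4d9f_gt.Sg

end

section

/-! The cap product functional and the Smith argument. -/

namespace Pool.Agent.MP_4f4d9f_gt.Sg

open Finsupp Tup

namespace Smith

variable {G D : Type} [Group G] [DivisionRing D] (ι : G →* D)

theorem dT_of (c : Tup G →₀ F2) :
    dT ι (Tens.of ι (perm2 G (Tup G)) c) = Tens.of ι (perm2 G (Tup G)) (bdT F2 c) := rfl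

theorem pT_of (m : ℕ) (c : Tup G →₀ F2) :
    pT ι m (Tens.of ι (perm2 G (Tup G)) c) = Tens.of ι (perm2 G (Tup G)) (prD F2 deg m c) := rfl

theorem dC_of (c : Cell G →₀ F2) :
    dC ι (Tens.of (dg ι) (perm2 G (Cell G)) c) = Tens.of (dg ι) (perm2 G (Cell G)) (cb c) := rfl

theorem pC_of (m : ℕ) (c : Cell G →₀ F2) : pC ι m (Tens.of (dg ι) (perm2 G (Cell G)) c) =
    Tens.of (dg ι) (perm2 G (Cell G)) (prD F2 cdeg m c) := rfl

theorem pT_dT (m : ℕ) (w : TD ι) : pT ι m (dT ι w) = dT ι (pT ι (m + 1) w) := by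
  induction w using Tens.induction with
  | h0 => simp
  | hadd x y hx hy => simp only [map_add, hx, hy]
  | h1 a c => simp only [map_smul, dT_of, pT_of, prD_bdT]

theorem pT_pT (m : ℕ) (w : TD ι) : pT ι m (pT ι m w) = pT ι m w := by
  induction w using Tens.induction with
  | h0 => simp
  | hadd x y hx hy => simp only [map_add, hx, hy]
  | h1 a c => simp only [map_smul, pT_of, prD_prD, if_true]

theorem pC_dC (m : ℕ) (w : TC ι) : pC ι m (dC ι w) = dC ι (pC ι (m + 1) w) := by
  induction w using Tens.induction with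
  | h0 => simp
  | hadd x y hx hy => simp only [map_add, hx, hy]
  | h1 a c => simp only [map_smul, dC_of, pC_of, prD_cb]

theorem pC_pC (m : ℕ) (w : TC ι) : pC ι m (pC ι m w) = pC ι m w := by
  induction w using Tens.induction with
  | h0 => simp
  | hadd x y hx hy => simp only [map_add, hx, hy]
  | h1 a c => simp only [map_smul, pC_of, prD_prD, if_true]

theorem sw_sw (a : DD D) : sw (sw a) = a := by
  induction a using DD_induction with
  | h0 => simp
  | hadd x y hx hy => simp only [map_add, hx, hy]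
  | h1 d d' => rw [sw_tm, sw_tm]

theorem tC_tC (w : TC ι) : tC ι (tC ι w) = w := by
  induction w using Tens.induction with
  | h0 => simp
  | hadd x y hx hy => simp only [map_add, hx, hy]
  | h1 a c => rw [tC_smul_of, tC_smul_of, sw_sw, cs_cs]

theorem dC_tC (w : TC ι) : dC ι (tC ι w) = tC ι (dC ι w) := by
  induction w using Tens.induction with
  | h0 => simp
  | hadd x y hx hy => simp only [map_add, hx, hy]
  | h1 a c => simp only [map_smul, dC_of, tC_smul_of, cb_cs]

theorem pC_tC (m : ℕ) (w : TC ι) : pC ι m (tC ι w) = tC ι (pC ι m w) := by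
  induction w using Tens.induction with
  | h0 => simp
  | hadd x y hx hy => simp only [map_add, hx, hy]
  | h1 a c => simp only [map_smul, pC_of, tC_smul_of, prD_cs]

theorem exists_L [CharP D 2] (f : TD ι →ₗ[D] D) : ∃ L : TC ι →ₗ[DD D] DD D,
    ∀ u w : Tup G →₀ F2, L (Tens.of (dg ι) (perm2 G (Cell G)) (pr2 u w)) =
      tm (f (Tens.of ι (perm2 G (Tup G)) u)) (f (Tens.of ι (perm2 G (Tup G)) w)) := by
  have h1 : ∀ a b : D, tm a b + tm a b = 0 := fun a b => by
    rw [← tm_add_left, CharTwo.add_self_eq_zero, tm_zero_left]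
  have h2 : ∀ (g : G) (x : Tup G), f (Tens.of ι (perm2 G (Tup G)) (single (g • x) 1)) =
      ι g * f (Tens.of ι (perm2 G (Tup G)) (single x 1)) := fun g x => by
    rw [← perm2_single, Tens.of_rep, map_smul, smul_eq_mul]
  refine ⟨Tens.lift (dg ι) (lift2 (fun c : Cell G =>
    tm (f (Tens.of ι (perm2 G (Tup G)) (single c.1 1)))
      (f (Tens.of ι (perm2 G (Tup G)) (single c.2 1)))) fun _ => h1 _ _) fun g c => ?_,
    fun u w => ?_⟩
  · induction c using induction2 with
    | h0 => simp
    | hadd x y hx hy => simp only [map_add, hx, hy, smul_add]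
    | h1 b =>
      rw [perm2_single, lift2_single, lift2_single, Prod.smul_fst, Prod.smul_snd, h2, h2,
        smul_eq_mul, dg_apply, tm_mul]
  · rw [Tens.lift_of]
    induction u using induction2 with
    | h0 => simp [tm_zero_left]
    | hadd x y hx hy => simp only [map_add, LinearMap.add_apply, hx, hy, tm_add_left]
    | h1 a =>
      induction w using induction2 with
      | h0 => simp [tm_zero_right]
      | hadd x y hx hy => simp only [map_add, hx, hy, tm_add_right]
      | h1 b => rw [pr2_single, mul_one, lift2_single]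

theorem TC_induction {P : TC ι → Prop} (h0 : P 0) (hadd : ∀ x y, P x → P y → P (x + y))
    (h1 : ∀ (a : DD D) (x y : Tup G),
      P (a • Tens.of (dg ι) (perm2 G (Cell G)) (pr2 (single x 1) (single y 1)))) (w : TC ι) :
    P w := by
  induction w using Tens.induction with
  | h0 => exact h0
  | hadd x y hx hy => exact hadd x y hx hy
  | h1 a c =>
    induction c using cell_induction with
    | h0 => rwa [map_zero, smul_zero]
    | hadd x y hx hy => rw [map_add, smul_add]; exact hadd _ _ hx hy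
    | h1 x y => exact h1 a x y

theorem exists_mu (D : Type) [DivisionRing D] [CharP D 2] :
    ∃ μ : DD D →+ F2, (∀ a, μ (sw a) = μ a) ∧ μ (tm 1 1) = 1 := by
  let _ : Algebra (ZMod 2) D := ZMod.algebra D 2
  obtain ⟨φ, hφ⟩ := not_forall.1
    (mt (Module.forall_dual_apply_eq_zero_iff (ZMod 2) (1 : D)).1 one_ne_zero)
  have h1 : φ 1 = 1 := by
    revert hφ
    generalize φ 1 = r
    revert r
    decide
  refine ⟨liftDD ((AddMonoidHom.mul.compl₂ φ.toAddMonoidHom).comp φ.toAddMonoidHom),
    fun a => ?_, ?_⟩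
  · induction a using DD_induction with
    | h0 => simp
    | hadd x y hx hy => simp only [map_add, hx, hy]
    | h1 d d' =>
      rw [sw_tm, liftDD_tm, liftDD_tm]
      exact mul_comm (φ d') (φ d)
  · rw [liftDD_tm]
    change φ 1 * φ 1 = 1
    rw [h1, mul_one]

theorem no_inv (h : WHF ι) (g : G) (hg : g * g = 1) : g = 1 := by
  by_contra h1
  have h2 : g ∈ Subgroup.closure (({g} : Finset G) : Set G) := Subgroup.subset_closure (by simp)
  obtain ⟨N, dg, t, h3⟩ := h {g} fun e => h1 (Subgroup.mem_bot.1 (e ▸ h2))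
  obtain ⟨s, h4, h5⟩ := h3.exists_not_mem
  have h6 : s = g := by simpa using h4
  have h7 := h3.mul g h2 g h2
  rw [hg, h3.one] at h7
  exact h5 (h6 ▸ (h3.mem g).2 ⟨h2, by omega⟩)

theorem exact_TC (h : Flat ι) {i : ℕ} {y : TC ι} (h1 : pC ι (i + 1) y = y) (h2 : dC ι y = 0) :
    ∃ w, pC ι (i + 2) w = w ∧ dC ι w = y := by
  have hf : Eqv (perm2 G (Cell G)) (perm2 G (Cell G)) (zl (cb ∘ₗ prD F2 cdeg (i + 1))) :=
    fun g c => by
      simp only [zl_apply, LinearMap.comp_apply, perm2_apply, prD_smul (cdeg_smul g), cb_smul]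
  have e : ∀ w : TC ι, Tens.map (dg ι) _ hf w = dC ι (pC ι (i + 1) w) := fun w => by
    induction w using Tens.induction with
    | h0 => simp
    | hadd x y hx hy => simp only [map_add, hx, hy]
    | h1 a c => simp only [map_smul, Tens.map_of, dC_of, pC_of, zl_apply, LinearMap.comp_apply]
  have h3 := h _ _ _ cell_free _ hf y (by rw [e, h1, h2])
  have h4 : ∃ u, dC ι u = pC ι (i + 1) y := by
    clear h1 h2
    induction h3 using Submodule.span_induction with
    | mem w hw =>
      obtain ⟨c, hc, rfl⟩ := hw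
      obtain ⟨b, hb⟩ := cell_exact (1 : G) (i := i) (c := prD F2 cdeg (i + 1) c)
        (by rw [prD_prD, if_pos rfl]) hc
      exact ⟨Tens.of _ _ b, by rw [dC_of, pC_of, hb]⟩
    | zero => exact ⟨0, by simp⟩
    | add x y _ _ hx hy =>
      obtain ⟨u, hu⟩ := hx
      obtain ⟨u', hu'⟩ := hy
      exact ⟨u + u', by rw [map_add, map_add, hu, hu']⟩
    | smul a x _ hx =>
      obtain ⟨u, hu⟩ := hx
      exact ⟨a • u, by rw [map_smul, map_smul, hu]⟩
  obtain ⟨u, hu⟩ := h4
  exact ⟨pC ι (i + 2) u, pC_pC ι _ u, by rw [← pC_dC, hu, pC_pC, h1]⟩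

theorem climb (h : Flat ι) {v : TC ι} (h1 : dC ι v = v + tC ι v) (h2 : pC ι 0 v = 0) (i : ℕ) :
    ∃ y y', pC ι (i + 1) y' = y' ∧ pC ι i v = y + tC ι y + dC ι y' := by
  induction i with
  | zero => exact ⟨0, 0, map_zero _, by simp [h2]⟩
  | succ i ih =>
    obtain ⟨y, y', h3, h4⟩ := ih
    obtain ⟨w, h5, h6⟩ := exact_TC ι h (i := i) (y := pC ι (i + 1) v + y' + tC ι y')
      (by rw [map_add, map_add, pC_pC, pC_tC, h3]) (by
        rw [map_add, map_add, ← pC_dC, h1, map_add, pC_tC, h4, dC_tC, map_add, map_add, tC_tC]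
        calc _ = (y + y) + (tC ι y + tC ι y) + (dC ι y' + dC ι y') +
            (tC ι (dC ι y') + tC ι (dC ι y')) := by abel
          _ = 0 := by simp only [tens2_add_self, add_zero])
    refine ⟨y', w, h5, ?_⟩
    rw [h6]
    calc _ = pC ι (i + 1) v + (y' + y') + (tC ι y' + tC ι y') := by
          simp only [tens2_add_self, add_zero]
      _ = _ := by abel

end Smith

open Smith

theorem cap_stmt (h : OmStmt) : CapStmt := by
  intro G D _ _ _ ι n θ hθ hG m z f hz hdz hfd hfp hfz
  obtain ⟨Ω, h1, h2, h3⟩ := h G D ι n θ hθ hG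
  obtain ⟨L, hL⟩ := exists_L ι f
  obtain ⟨μ, hμ, hμ1⟩ := exists_mu D
  have k1 : ∀ y, L (dC ι y) = 0 := fun y => by
    induction y using TC_induction with
    | h0 => simp
    | hadd x y hx hy => rw [map_add, map_add, hx, hy, add_zero]
    | h1 a x y =>
      rw [map_smul, map_smul, dC_of, cb_pr2, map_add, map_add, hL, hL, ← dT_of, ← dT_of, hfd, hfd,
        tm_zero_left, tm_zero_right, add_zero, smul_zero]
  have k2 : ∀ y, L (tC ι y) = sw (L y) := fun y => by
    induction y using TC_induction with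
    | h0 => simp
    | hadd x y hx hy => simp only [map_add, hx, hy]
    | h1 a x y =>
      rw [tC_smul_of, cs_pr2, map_smul, map_smul, hL, hL, smul_eq_mul, smul_eq_mul, map_mul, sw_tm]
  have k3 : ∀ x : Tup G, x.deg ≠ m → f (Tens.of ι (perm2 G (Tup G)) (single x 1)) = 0 :=
    fun x hx => by rw [← hfp, pT_of, prD_single, if_neg hx, map_zero, map_zero]
  have k4 : ∀ y, L (pC ι (2 * m) y) = L y := fun y => by
    induction y using TC_induction with
    | h0 => simp
    | hadd x y hx hy => simp only [map_add, hx, hy]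
    | h1 a x y =>
      rw [map_smul, map_smul, map_smul, pC_of, pr2_single, prD_single]
      split_ifs with e
      · rfl
      · rw [← pr2_single, hL, map_zero, map_zero]
        by_cases e' : x.deg = m
        · rw [k3 y fun e'' => e (by rw [cdeg, e', e'', two_mul]), tm_zero_right]
        · rw [k3 x e', tm_zero_left]
  refine ⟨Ω z z, μ.comp L.toAddMonoidHom, ?_, fun i hi => ?_, fun y => ?_, fun y => ?_,
    fun y => ?_, ?_⟩
  · rw [h1, hdz, map_zero, map_zero, AddMonoidHom.zero_apply, zero_add, zero_add]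
  · have := h2 m i z z hi
    rwa [hz] at this
  · exact (congrArg μ (k1 y)).trans (map_zero μ)
  · exact (congrArg μ (k2 y)).trans (hμ _)
  · exact congrArg μ (k4 y)
  · have := h3 m f L hfp (fun x y => by rw [← hL, pr2_single, mul_one]) z z
    rw [hz, hfz] at this
    exact (congrArg μ this).trans hμ1

theorem smith_stmt (h : CapStmt) : SmithStmt := by
  intro G D _ _ _ ι n θ hθ hW hF m hm z hz hdz
  by_contra hc
  obtain ⟨f₀, h1, h2⟩ := Submodule.exists_le_ker_of_notMem (p := LinearMap.range (dT ι)) hc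
  obtain ⟨v, Φ, k1, k2, k3, k4, k5, k6⟩ := h G D ι n θ hθ (no_inv ι hW) m z
    (LinearMap.toSpanSingleton D D (f₀ z)⁻¹ ∘ₗ f₀ ∘ₗ pT ι m) hz hdz
    (fun w => by
      rw [LinearMap.comp_apply, LinearMap.comp_apply, pT_dT, LinearMap.mem_ker.1 (h2 ⟨_, rfl⟩),
        map_zero])
    (fun w => by simp only [LinearMap.comp_apply, pT_pT])
    (by rw [LinearMap.comp_apply, LinearMap.comp_apply, hz, LinearMap.toSpanSingleton_apply,
      smul_eq_mul, mul_inv_cancel₀ h1])
  obtain ⟨y, y', -, k7⟩ := climb ι hF k1 (k2 0 (by omega)) (2 * m)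
  rw [← k5, k7, map_add, map_add, k3, k4, add_zero, CharTwo.add_self_eq_zero] at k6
  exact zero_ne_one k6

end Pool.Agent.MP_4f4d9f_gt.Sg

end
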