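import Pool.Agent.Mg.F4f4d9fr.G595975
import Pool.Agent.MP_4f4d9f_gt.CoreA

set_option linter.all false

section

namespace Pool.Agent.MP_4f4d9f_gt

open CoxeterSystem

variable {S W : Type} {M : CoxeterMatrix S} [Group W] (cs : CoxeterSystem M W)

theorem simple_injective : Function.Injective cs.simple := fun s t h => by
  by_contra hne
  exact M.off_diagonal s t hne (Nat.dvd_one.1 (dvd_of_pow_eq_one cs hne (k := 1) (by simp [h])))

theorem leftInvSeq_append (ω ω' : List S) : cs.leftInvSeq (ω ++ ω') =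
    cs.leftInvSeq ω ++ (cs.leftInvSeq ω').map (MulAut.conj (cs.wordProd ω)) := by
  induction ω with
  | nil => simp
  | cons i ω ih =>
    simp only [List.cons_append, leftInvSeq, ih, List.map_append, List.map_map, wordProd_cons,
      map_mul, MulAut.coe_mul]

namespace CoxExAux

/-- The alternating word with a given first letter. -/
def alt {S : Type} : S → S → ℕ → List S
  | _, _, 0 => []
  | a, b, n + 1 => a :: alt b a n

theorem lis_alt (a b : S) (n : ℕ) : cs.leftInvSeq (alt a b n) =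
    (List.range n).map fun k => (cs.simple a * cs.simple b) ^ k * cs.simple a := by
  induction n generalizing a b with
  | zero => rfl
  | succ n ih =>
    simp only [alt, leftInvSeq, ih, List.range_succ_eq_map, List.map_cons, List.map_map, pow_zero,
      one_mul, List.cons.injEq, true_and]
    refine List.map_congr_left fun k _ => ?_
    simp only [Function.comp, MulAut.conj_apply, inv_simple, Nat.succ_eq_add_one]
    rw [← mul_assoc, ← mul_pow_mul, pow_succ]
    simp only [mul_assoc]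

theorem alternatingWord_eq (i j : S) (n : ℕ) :
    alternatingWord i j n = if Even n then alt i j n else alt j i n := by
  induction n with
  | zero => rfl
  | succ n ih =>
    rw [alternatingWord_succ', ih]
    by_cases h : Even n <;> simp [h, Nat.even_add_one, alt]

theorem prod_alt {G : Type} [Monoid G] (f : S → G) (a b : S) (m : ℕ) :
    ((alt a b (2 * m)).map f).prod = (f a * f b) ^ m := by
  induction m with
  | zero => simp [alt]
  | succ m ih =>
    rw [pow_succ', ← ih, mul_assoc]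
    rfl

theorem lis_alt_rev {a b : S} {m : ℕ} (h : (cs.simple a * cs.simple b) ^ m = 1) :
    cs.leftInvSeq (alt b a m) = (cs.leftInvSeq (alt a b m)).reverse := by
  rw [lis_alt, lis_alt]
  refine List.ext_getElem (by simp) fun k h1 h2 => ?_
  have h3 : k < m := by simpa using h1
  simp only [List.getElem_map, List.getElem_range, List.getElem_reverse, List.length_map,
    List.length_range]
  have h4 : (cs.simple a * cs.simple b) ^ (m - 1 - k) = (cs.simple b * cs.simple a) ^ (k + 1) := by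
    have h5 : cs.simple b * cs.simple a = (cs.simple a * cs.simple b)⁻¹ := by simp
    rw [h5, inv_pow, eq_inv_iff_mul_eq_one, ← pow_add, ← h]
    congr 1; omega
  rw [h4, pow_succ, mul_assoc, simple_mul_simple_cancel_right]

variable [DecidableEq W]

/-- The action of a simple reflection on signed elements. -/
def flip (i : S) : Equiv.Perm (W × ZMod 2) :=
  Function.Involutive.toPerm (fun p => (cs.simple i * p.1 * cs.simple i,
    p.2 + if cs.simple i = p.1 then 1 else 0)) fun p => by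
      have h : cs.simple i = cs.simple i * p.1 * cs.simple i ↔ cs.simple i = p.1 := by
        rw [← mul_left_inj (cs.simple i), simple_mul_simple_cancel_right, mul_right_inj]
      refine Prod.ext (by simp [← mul_assoc]) ?_
      simp only [h, add_assoc, CharTwo.add_self_eq_zero, add_zero]

theorem prod_flip (ω : List S) (r : W) (e : ZMod 2) : ((ω.map (flip cs)).prod)⁻¹ (r, e) =
    ((cs.wordProd ω)⁻¹ * r * cs.wordProd ω, e + ((cs.leftInvSeq ω).count r : ℕ)) := by
  induction ω generalizing r e with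
  | nil => simp
  | cons i ω ih =>
    have h1 : (flip cs i)⁻¹ (r, e) =
        (cs.simple i * r * cs.simple i, e + if cs.simple i = r then 1 else 0) := rfl
    have h2 : ((cs.leftInvSeq ω).map (MulAut.conj (cs.simple i))).count r =
        (cs.leftInvSeq ω).count (cs.simple i * r * cs.simple i) := by
      rw [← List.count_map_of_injective _ (MulAut.conj (cs.simple i)) (MulAut.conj _).injective
        (_ * r * _)]
      simp [← mul_assoc]
    rw [List.map_cons, List.prod_cons, mul_inv_rev, Equiv.Perm.mul_apply, h1, ih, wordProd_cons,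
      leftInvSeq, List.count_cons, h2]
    refine Prod.ext (by simp [mul_assoc]) ?_
    simp only [beq_iff_eq, Nat.cast_add, Nat.cast_ite, Nat.cast_one, Nat.cast_zero]
    ring

theorem liftable : M.IsLiftable (flip cs) := fun i j => by
  rw [← prod_alt, ← inv_eq_one]
  refine Equiv.ext fun ⟨r, e⟩ => ?_
  rw [prod_flip, lis_alt, wordProd, prod_alt, simple_mul_simple_pow, two_mul, List.range_add,
    List.map_append, List.map_map, List.count_append]
  simp [Function.comp_def, pow_add, CharTwo.add_self_eq_zero]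

/-- The parity cocycle. -/
noncomputable def eta (w r : W) : ZMod 2 := ((cs.lift ⟨_, liftable cs⟩ w)⁻¹ (r, 0)).2

theorem eta_word (ω : List S) (r : W) :
    eta cs (cs.wordProd ω) r = ((cs.leftInvSeq ω).count r : ℕ) := by
  have h : cs.lift ⟨_, liftable cs⟩ ∘ cs.simple = flip cs :=
    funext (cs.lift_apply_simple (liftable cs))
  rw [eta, wordProd, map_list_prod, List.map_map, h, prod_flip, zero_add]

theorem eta_mul (x y r : W) : eta cs (x * y) r = eta cs x r + eta cs y (x⁻¹ * r * x) := by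
  obtain ⟨ω, rfl⟩ := cs.wordProd_surjective x
  obtain ⟨ω', rfl⟩ := cs.wordProd_surjective y
  rw [← wordProd_append, eta_word, eta_word, eta_word, leftInvSeq_append, List.count_append,
    ← List.count_map_of_injective _ (MulAut.conj (cs.wordProd ω)) (MulAut.conj _).injective
      (_ * r * _)]
  simp [mul_assoc]

theorem eta_self {r : W} (hr : cs.IsReflection r) : eta cs r r = 1 := by
  obtain ⟨w, i, h⟩ := hr
  have h1 : w⁻¹ * r * w = cs.simple i := by rw [h]; group
  have h2 := eta_mul cs w w⁻¹ r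
  have h3 := eta_word cs [] r
  have h4 := eta_word cs [i] (cs.simple i)
  have h5 := eta_mul cs (w * cs.simple i) w⁻¹ r
  have h6 : (w * cs.simple i)⁻¹ * r * (w * cs.simple i) = cs.simple i := by
    rw [mul_inv_rev, mul_assoc, mul_assoc, ← mul_assoc r, ← mul_assoc w⁻¹, ← mul_assoc w⁻¹, h1]
    simp
  rw [← h, eta_mul, h1, h6] at h5
  rw [mul_inv_cancel, h1] at h2
  simp only [wordProd_nil, leftInvSeq_nil, List.count_nil, Nat.cast_zero, wordProd_singleton,
    leftInvSeq_singleton, List.count_singleton_self, Nat.cast_one] at h3 h4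
  linear_combination h5 - h2 + h3 + h4

theorem inv_of_eta {w r : W} (h : eta cs w r = 1) : cs.IsLeftInversion w r := by
  obtain ⟨ω, hω, rfl⟩ := cs.exists_isReduced w
  refine cs.isLeftInversion_of_mem_leftInvSeq hω ?_
  by_contra h1
  rw [eta_word, List.count_eq_zero.2 h1] at h
  exact absurd h (by decide)

end CoxExAux

open CoxExAux

theorem leftInvSeq_braidWord (s t : S) :
    cs.leftInvSeq (braidWord M t s) = (cs.leftInvSeq (braidWord M s t)).reverse := by
  rw [braidWord, braidWord, alternatingWord_eq, alternatingWord_eq, M.symmetric t s]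
  split_ifs
  · exact lis_alt_rev cs (cs.simple_mul_simple_pow s t)
  · exact lis_alt_rev cs (cs.simple_mul_simple_pow' s t)

/-- Parity form of the strong exchange condition, for an arbitrary word. -/
theorem isLeftInversion_iff_odd [DecidableEq W] (ω : List S) {r : W} (hr : cs.IsReflection r) :
    cs.IsLeftInversion (cs.wordProd ω) r ↔ Odd ((cs.leftInvSeq ω).count r) := by
  rw [← ZMod.natCast_eq_one_iff_odd, ← eta_word]
  refine ⟨fun h => ?_, inv_of_eta cs⟩
  by_contra h1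
  have h2 : ∀ x : ZMod 2, x ≠ 1 → x = 0 := by decide
  refine hr.isLeftInversion_mul_right_iff.1 (inv_of_eta cs ?_) h
  rw [eta_mul, eta_self cs hr, inv_mul_cancel, one_mul, h2 _ h1, add_zero]

theorem mem_leftInvSeq_of_isLeftInversion (ω : List S) {r : W}
    (h : cs.IsLeftInversion (cs.wordProd ω) r) : r ∈ cs.leftInvSeq ω := by
  classical
  exact List.count_pos_iff.1 ((isLeftInversion_iff_odd cs ω h.1).1 h).pos

theorem isReduced_of_nodup {ω : List S} (h : (cs.leftInvSeq ω).Nodup) : cs.IsReduced ω := by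
  classical
  obtain ⟨ω', h1, h2⟩ := cs.exists_isReduced (cs.wordProd ω)
  have h3 : cs.leftInvSeq ω ⊆ cs.leftInvSeq ω' := fun r hr =>
    mem_leftInvSeq_of_isLeftInversion cs ω' (h2 ▸ (isLeftInversion_iff_odd cs ω
      (cs.isReflection_of_mem_leftInvSeq ω hr)).2 (by rw [List.count_eq_one_of_mem h hr]; simp))
  have h4 := (List.subperm_of_subset h h3).length_le
  rw [length_leftInvSeq, length_leftInvSeq, ← h1.eq, ← h2] at h4
  exact le_antisymm (cs.length_wordProd_le ω) h4

theorem isReduced_braidWord (s t : S) : cs.IsReduced (braidWord M s t) := by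
  have key : ∀ a b : S, cs.IsReduced (alt a b (M a b)) := fun a b => by
    refine isReduced_of_nodup cs ?_
    rw [lis_alt]
    have h1 : ∀ k l, k < l → l < M a b →
        (cs.simple a * cs.simple b) ^ k ≠ (cs.simple a * cs.simple b) ^ l := by
      intro k l h1 h2 h3
      obtain ⟨d, rfl⟩ := Nat.exists_eq_add_of_lt h1
      rw [add_assoc, pow_add, left_eq_mul] at h3
      by_cases hab : a = b
      · rw [hab, M.diagonal] at h2; omega
      · have := Nat.le_of_dvd (Nat.succ_pos d) (dvd_of_pow_eq_one cs hab h3)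
        omega
    refine List.nodup_range.map_on fun k hk l hl h => ?_
    rw [mul_left_inj] at h
    rcases lt_trichotomy k l with h2 | h2 | h2
    · exact absurd h (h1 k l h2 (List.mem_range.1 hl))
    · exact h2
    · exact absurd h.symm (h1 l k h2 (List.mem_range.1 hk))
  rw [braidWord, alternatingWord_eq]
  split_ifs
  · exact key s t
  · exact M.symmetric t s ▸ key t s

theorem simple_mem_Wp {T : Set S} {s : S} (h : s ∈ T) : cs.simple s ∈ Wp cs T :=
  Subgroup.subset_closure ⟨s, h, rfl⟩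

theorem wordProd_mem_Wp {T : Set S} {ω : List S} (h : ∀ s ∈ ω, s ∈ T) :
    cs.wordProd ω ∈ Wp cs T := by
  refine Subgroup.list_prod_mem _ fun x hx => ?_
  obtain ⟨s, hs, rfl⟩ := List.mem_map.1 hx
  exact simple_mem_Wp cs (h s hs)

theorem leftInvSeq_mem_Wp {T : Set S} {ω : List S} (h : ∀ s ∈ ω, s ∈ T) :
    ∀ r ∈ cs.leftInvSeq ω, r ∈ Wp cs T := by
  induction ω with
  | nil => simp
  | cons i ω ih =>
    intro r hr
    have h1 := simple_mem_Wp cs (h i (by simp))
    rcases List.mem_cons.1 hr with rfl | hr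
    · exact h1
    · obtain ⟨x, hx, rfl⟩ := List.mem_map.1 hr
      exact mul_mem (mul_mem h1 (ih (fun s hs => h s (by simp [hs])) x hx)) (inv_mem h1)

theorem exists_reduced_of_mem_Wp {T : Set S} {w : W} (h : w ∈ Wp cs T) :
    ∃ ω : List S, (∀ s ∈ ω, s ∈ T) ∧ cs.IsReduced ω ∧ cs.wordProd ω = w := by
  have h1 : ∃ ω : List S, (∀ s ∈ ω, s ∈ T) ∧ cs.wordProd ω = w := by
    induction h using Subgroup.closure_induction with
    | mem x hx => obtain ⟨s, hs, rfl⟩ := hx; exact ⟨[s], by simpa using hs, by simp⟩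
    | one => exact ⟨[], by simp, rfl⟩
    | mul x y _ _ hx hy =>
      obtain ⟨a, ha, rfl⟩ := hx
      obtain ⟨b, hb, rfl⟩ := hy
      exact ⟨a ++ b, fun s hs => (List.mem_append.1 hs).elim (ha s) (hb s), cs.wordProd_append a b⟩
    | inv x _ hx =>
      obtain ⟨a, ha, rfl⟩ := hx
      exact ⟨a.reverse, fun s hs => ha s (List.mem_reverse.1 hs), cs.wordProd_reverse a⟩
  obtain ⟨ω, h1, rfl⟩ := h1
  clear h
  induction ω with
  | nil => exact ⟨[], h1, by simp [CoxeterSystem.IsReduced], rfl⟩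
  | cons i ω ih =>
    obtain ⟨a, ha, h2, h3⟩ := ih fun s hs => h1 s (by simp [hs])
    rw [wordProd_cons, ← h3]
    rcases cs.length_simple_mul (cs.wordProd a) i with h4 | h4
    · exact ⟨i :: a, fun s hs => (List.mem_cons.1 hs).elim (fun e => h1 s (by simp [e])) (ha s),
        by rw [CoxeterSystem.IsReduced, wordProd_cons, h4, h2.eq, List.length_cons],
        cs.wordProd_cons i a⟩
    · obtain ⟨j, hj, h5⟩ := List.getElem_of_mem (mem_leftInvSeq_of_isLeftInversion cs a
        (r := cs.simple i) ⟨cs.isReflection_simple i, by omega⟩)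
      have h6 := cs.getD_leftInvSeq_mul_wordProd a j
      rw [List.getD_eq_getElem _ _ hj, h5] at h6
      rw [length_leftInvSeq] at hj
      refine ⟨a.eraseIdx j, fun s hs => ha s (List.mem_of_mem_eraseIdx hs), ?_, h6.symm⟩
      rw [CoxeterSystem.IsReduced, ← h6, List.length_eraseIdx_of_lt hj, ← h2.eq]
      omega

theorem simple_mem_Wp_iff {T : Set S} {s : S} : cs.simple s ∈ Wp cs T ↔ s ∈ T := by
  refine ⟨fun h => ?_, simple_mem_Wp cs⟩
  obtain ⟨ω, h1, h2, h3⟩ := exists_reduced_of_mem_Wp cs h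
  have h4 := h2.eq
  rw [h3, length_simple] at h4
  obtain ⟨t, rfl⟩ := List.length_eq_one_iff.1 h4.symm
  rw [wordProd_singleton] at h3
  exact simple_injective cs h3 ▸ h1 t (by simp)

theorem exists_minRep (T : Set S) (w : W) : ∃ v ∈ Wp cs T, ∃ u, MinRep cs T u ∧ w = v * u := by
  obtain ⟨v, hv, h⟩ := (measure fun v => cs.length (v * w)).wf.has_min (Wp cs T) ⟨1, one_mem _⟩
  exact ⟨v⁻¹, inv_mem hv, v * w, fun x hx =>
    not_lt.1 (mul_assoc x v w ▸ h (x * v) (mul_mem hx hv)), by simp⟩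

variable {cs}

theorem MinRep.length_mul {T : Set S} {u v : W} (hu : MinRep cs T u) (hv : v ∈ Wp cs T) :
    cs.length (v * u) = cs.length v + cs.length u := by
  obtain ⟨a, ha, h1, rfl⟩ := exists_reduced_of_mem_Wp cs hv
  obtain ⟨b, h2, rfl⟩ := cs.exists_isReduced u
  have h3 : cs.IsReduced (a ++ b) := by
    refine isReduced_of_nodup cs ?_
    rw [leftInvSeq_append]
    refine h1.nodup_leftInvSeq.append (h2.nodup_leftInvSeq.map (MulAut.conj _).injective) ?_
    intro r h4 h5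
    obtain ⟨x, hx, rfl⟩ := List.mem_map.1 h5
    have h6 : x ∈ Wp cs T := by
      have := mul_mem (mul_mem (inv_mem hv) (leftInvSeq_mem_Wp cs ha _ h4)) hv
      simpa [mul_assoc] using this
    exact absurd (cs.isLeftInversion_of_mem_leftInvSeq h2 hx).2 (not_lt.2 (hu x h6))
  rw [← wordProd_append, h3.eq, h1.eq, h2.eq, List.length_append]

theorem MinRep.eq_one {T : Set S} {u v : W} (hu : MinRep cs T u) (hv : v ∈ Wp cs T)
    (h : MinRep cs T (v * u)) : v = 1 := by
  have h1 := h v⁻¹ (inv_mem hv)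
  rw [hu.length_mul hv, inv_mul_cancel_left] at h1
  exact cs.length_eq_zero_iff.1 (by omega)

/-- Deodhar's lemma. -/
theorem MinRep.deodhar {T : Set S} {u : W} (hu : MinRep cs T u) (s : S) :
    MinRep cs T (u * cs.simple s) ∨ ∃ t ∈ T, u * cs.simple s = cs.simple t * u := by
  refine or_iff_not_imp_left.2 fun h => ?_
  simp only [MinRep, not_forall, not_le] at h
  obtain ⟨v, hv, h⟩ := h
  have h1 := cs.length_mul_simple u s
  have h2 := cs.length_mul_simple (v * u) s
  rw [hu.length_mul hv, mul_assoc] at h2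
  have h3 : cs.length v ≠ 0 := fun e => by simp [cs.length_eq_zero_iff.1 e] at h
  obtain ⟨t, rfl⟩ := cs.length_eq_one_iff.1 (show cs.length v = 1 by omega)
  refine ⟨t, (simple_mem_Wp_iff cs).1 hv, ?_⟩
  obtain ⟨b, h4, rfl⟩ := cs.exists_isReduced u
  have h5 := mem_leftInvSeq_of_isLeftInversion cs (b.concat s) (r := cs.simple t)
    ⟨cs.isReflection_simple t, by rwa [wordProd_concat]⟩
  rw [leftInvSeq_concat, List.concat_eq_append, List.mem_append, List.mem_singleton] at h5
  rcases h5 with h5 | h5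
  · exact absurd (cs.isLeftInversion_of_mem_leftInvSeq h4 h5).2 (not_lt.2 (hu _ hv))
  · rw [h5, inv_mul_cancel_right]

end Pool.Agent.MP_4f4d9f_gt

end

section

open scoped Pointwise

namespace Pool.Agent.MP_4f4d9f_gt

variable {S : Type} {M : CoxeterMatrix S}

theorem parab_mono {T U : Set S} (h : T ⊆ U) : parab M T ≤ parab M U :=
  Subgroup.closure_mono (Set.image_mono h)

theorem parab_univ : parab M Set.univ = ⊤ := by
  rw [parab, Set.image_univ, PresentedGroup.closure_range_of]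

theorem parab_empty : parab M ∅ = ⊥ := by
  rw [parab, Set.image_empty, Subgroup.closure_empty]

theorem toW_mem_Wp {T : Set S} {g : Artin M} (h : g ∈ parab M T) :
    toW M g ∈ Wp M.toCoxeterSystem T := by
  have : parab M T ≤ (Wp M.toCoxeterSystem T).comap (toW M) := by
    refine (Subgroup.closure_le _).2 ?_
    rintro _ ⟨t, ht, rfl⟩
    have h1 : toW M (gen M t) ∈ Wp M.toCoxeterSystem T := by
      rw [toW_gen]
      exact simple_mem_Wp _ ht
    exact Subgroup.mem_comap.2 h1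
  exact Subgroup.mem_comap.1 (this h)

theorem gen_mem_iff {T : Set S} {s : S} : gen M s ∈ parab M T ↔ s ∈ T := by
  refine ⟨fun h => ?_, gen_mem M⟩
  have := toW_mem_Wp h
  rwa [toW_gen, simple_mem_Wp_iff] at this

theorem exists_finite_mem_parab (g : Artin M) : ∃ T : Set S, T.Finite ∧ g ∈ parab M T := by
  have hg : g ∈ parab M Set.univ := by rw [parab_univ]; trivial
  induction hg using Subgroup.closure_induction with
  | mem x hx =>
    obtain ⟨t, -, rfl⟩ := hx
    exact ⟨{t}, Set.finite_singleton t, gen_mem M rfl⟩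
  | one => exact ⟨∅, Set.finite_empty, one_mem _⟩
  | mul x y _ _ hx hy =>
    obtain ⟨T, hT, hx⟩ := hx
    obtain ⟨U, hU, hy⟩ := hy
    exact ⟨T ∪ U, hT.union hU,
      mul_mem (parab_mono Set.subset_union_left hx) (parab_mono Set.subset_union_right hy)⟩
  | inv x _ hx =>
    obtain ⟨T, hT, hx⟩ := hx
    exact ⟨T, hT, inv_mem hx⟩

theorem commute_gen {s t : S} (h : M s t = 2) : Commute (gen M s) (gen M t) := by
  have h1 := braidOn_gen M Set.univ s trivial t trivial
  have h2 : M t s = 2 := (M.symmetric t s).trans h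
  simp only [CoxeterSystem.braidWord, h, h2] at h1
  simpa [CoxeterSystem.alternatingWord, commute_iff_eq] using h1

theorem commute_of_closure {G : Type} [Group G] {A B : Set G}
    (h : ∀ a ∈ A, ∀ b ∈ B, Commute a b) {g g' : G}
    (hg : g ∈ Subgroup.closure A) (hg' : g' ∈ Subgroup.closure B) : Commute g g' := by
  induction hg using Subgroup.closure_induction with
  | mem x hx =>
    induction hg' using Subgroup.closure_induction with
    | mem y hy => exact h x hx y hy
    | one => exact Commute.one_right _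
    | mul y z _ _ hy hz => exact hy.mul_right hz
    | inv y _ hy => exact hy.inv_right
  | one => exact Commute.one_left _
  | mul x y _ _ hx hy => exact hx.mul_left hy
  | inv x _ hx => exact hx.inv_left

theorem commute_of_mem_parab {T U : Set S} (h : ∀ a ∈ T, ∀ b ∈ U, M a b = 2) {g g' : Artin M}
    (hg : g ∈ parab M T) (hg' : g' ∈ parab M U) : Commute g g' := by
  refine commute_of_closure ?_ hg hg'
  rintro _ ⟨a, ha, rfl⟩ _ ⟨b, hb, rfl⟩
  exact commute_gen (h a ha b hb)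

theorem mem_coset_iff {U : Set S} {g x : Artin M} :
    x ∈ g • (parab M U : Set (Artin M)) ↔ g⁻¹ * x ∈ parab M U :=
  mem_leftCoset_iff g

theorem coset_subset_iff {U V : Set S} {g h : Artin M} :
    g • (parab M U : Set (Artin M)) ⊆ h • (parab M V : Set (Artin M)) ↔
      U ⊆ V ∧ h⁻¹ * g ∈ parab M V := by
  constructor
  · intro H
    have h1 : h⁻¹ * g ∈ parab M V :=
      mem_coset_iff.1 (H (mem_coset_iff.2 (by rw [inv_mul_cancel]; exact one_mem _)))
    refine ⟨fun u hu => ?_, h1⟩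
    have h2 : h⁻¹ * (g * gen M u) ∈ parab M V :=
      mem_coset_iff.1 (H (mem_coset_iff.2 (by rw [inv_mul_cancel_left]; exact gen_mem M hu)))
    rw [← mul_assoc] at h2
    exact gen_mem_iff.1 ((mul_mem_cancel_left h1).1 h2)
  · rintro ⟨h1, h2⟩ x hx
    have := mul_mem h2 (parab_mono h1 (mem_coset_iff.1 hx))
    rw [mem_coset_iff]
    simpa [mul_assoc] using this

theorem coset_eq_iff {U V : Set S} {g h : Artin M} :
    g • (parab M U : Set (Artin M)) = h • (parab M V : Set (Artin M)) ↔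
      U = V ∧ h⁻¹ * g ∈ parab M V := by
  constructor
  · intro H
    exact ⟨(coset_subset_iff.1 H.subset).1.antisymm (coset_subset_iff.1 H.superset).1,
      (coset_subset_iff.1 H.subset).2⟩
  · rintro ⟨rfl, h2⟩
    refine (coset_subset_iff.2 ⟨subset_rfl, h2⟩).antisymm (coset_subset_iff.2 ⟨subset_rfl, ?_⟩)
    simpa using inv_mem h2

theorem Spherical.mono {T U : Set S} (h : Spherical M U) (hTU : T ⊆ U) : Spherical M T := by
  have h1 : Subgroup.closure (M.simple '' T) ≤ Subgroup.closure (M.simple '' U) :=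
    Subgroup.closure_mono (Set.image_mono hTU)
  have : Finite (Subgroup.closure (M.simple '' U)) := h
  exact Finite.of_injective _ (Subgroup.inclusion_injective h1)

theorem Spherical.finite {T : Set S} (h : Spherical M T) : T.Finite := by
  have h1 : ((Wp M.toCoxeterSystem T : Set M.Group)).Finite := h
  exact Set.Finite.of_finite_image (h1.subset Subgroup.subset_closure)
    (simple_injective M.toCoxeterSystem).injOn

theorem spherical_empty : Spherical M ∅ := by
  rw [Spherical, Set.image_empty, Subgroup.closure_empty]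
  infer_instance

theorem spherical_singleton (s : S) : Spherical M {s} := by
  rw [Spherical, Set.image_singleton, ← Subgroup.zpowers_eq_closure]
  have : IsOfFinOrder (M.simple s) :=
    isOfFinOrder_iff_pow_eq_one.2 ⟨2, two_pos, M.toCoxeterSystem.simple_sq s⟩
  exact this.finite_zpowers

theorem Spherical.ne_zero {T : Set S} (h : Spherical M T) {s t : S} (hs : s ∈ T) (ht : t ∈ T) :
    M s t ≠ 0 := by
  by_cases hst : s = t
  · rw [hst, M.diagonal]; exact one_ne_zero
  have : Finite (Wp M.toCoxeterSystem T) := h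
  let x : Wp M.toCoxeterSystem T := ⟨_, mul_mem (simple_mem_Wp _ hs) (simple_mem_Wp _ ht)⟩
  obtain ⟨k, hk, h1⟩ := isOfFinOrder_iff_pow_eq_one.1 (isOfFinOrder_of_finite x)
  have h2 := dvd_of_pow_eq_one M.toCoxeterSystem hst (k := k) (congrArg Subtype.val h1)
  intro h0
  rw [h0, zero_dvd_iff] at h2
  omega

theorem Spherical.union {T U : Set S} (hT : Spherical M T) (hU : Spherical M U)
    (h : ∀ a ∈ T, ∀ b ∈ U, M a b = 2) : Spherical M (T ∪ U) := by
  let cs := M.toCoxeterSystem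
  have h1 : ((Wp cs T : Set M.Group)).Finite := hT
  have h2 : ((Wp cs U : Set M.Group)).Finite := hU
  have hc : ∀ g ∈ Wp cs T, ∀ g' ∈ Wp cs U, Commute g g' := fun g hg g' hg' => by
    refine commute_of_closure ?_ hg hg'
    rintro _ ⟨a, ha, rfl⟩ _ ⟨b, hb, rfl⟩
    have := (commute_gen (h a ha b hb)).map (toW M)
    rwa [toW_gen, toW_gen] at this
  refine (h1.mul h2).subset fun g (hg : g ∈ Wp cs (T ∪ U)) => ?_
  induction hg using Subgroup.closure_induction with
  | mem x hx =>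
    obtain ⟨s, hs | hs, rfl⟩ := hx
    · exact ⟨_, simple_mem_Wp cs hs, 1, one_mem _, mul_one _⟩
    · exact ⟨1, one_mem _, _, simple_mem_Wp cs hs, one_mul _⟩
  | one => exact ⟨1, one_mem _, 1, one_mem _, mul_one _⟩
  | mul x y _ _ hx hy =>
    obtain ⟨a, ha, b, hb, rfl⟩ := hx
    obtain ⟨c, hc', d, hd, rfl⟩ := hy
    refine ⟨a * c, mul_mem ha hc', b * d, mul_mem hb hd, ?_⟩
    simp only [mul_assoc]
    rw [← mul_assoc c, (hc c hc' b hb).eq, mul_assoc]
  | inv x _ hx =>
    obtain ⟨a, ha, b, hb, rfl⟩ := hx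
    refine ⟨a⁻¹, inv_mem ha, b⁻¹, inv_mem hb, ?_⟩
    simp only
    rw [(hc a ha b hb).eq, mul_inv_rev]

end Pool.Agent.MP_4f4d9f_gt

end

section

/-! Acyclic carriers mod 2 between the clique complex of `Lam M T` and the order complex of the
nonempty spherical subsets of `T`, followed by Nakayama's lemma. -/

namespace Pool.Agent.MP_4f4d9f_gt

namespace CarrierAux

open Finset CoreAux

section General

variable {V V' : Type} [DecidableEq V] [DecidableEq V']

/-- Chains mod 2 supported on the members of `A` with `n` vertices. -/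
def Ch (A : Set (Finset V)) (n : ℕ) : Submodule (ZMod 2) (Finset V →₀ ZMod 2) :=
  Finsupp.supported (ZMod 2) (ZMod 2) {τ | τ ∈ A ∧ τ.card = n}

omit [DecidableEq V] in
lemma Ch_mono {A B : Set (Finset V)} (h : A ⊆ B) (n : ℕ) : Ch A n ≤ Ch B n :=
  Finsupp.supported_mono fun _ hτ => ⟨h hτ.1, hτ.2⟩

omit [DecidableEq V] in
lemma single_mem_Ch {A : Set (Finset V)} {τ : Finset V} (h : τ ∈ A) :
    Finsupp.single τ (1 : ZMod 2) ∈ Ch A τ.card :=
  Finsupp.single_mem_supported _ _ ⟨h, rfl⟩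

omit [DecidableEq V] in
lemma map_mem {M : Type} [AddCommGroup M] [Module (ZMod 2) M] {A : Set (Finset V)} {n : ℕ}
    (f : (Finset V →₀ ZMod 2) →ₗ[ZMod 2] M) (N : Submodule (ZMod 2) M)
    (h : ∀ τ ∈ A, τ.card = n → f (Finsupp.single τ 1) ∈ N) {x : Finset V →₀ ZMod 2}
    (hx : x ∈ Ch A n) : f x ∈ N := by
  have : Ch A n ≤ N.comap f := by
    rw [Ch, Finsupp.supported_eq_span_single, Submodule.span_le]
    rintro _ ⟨τ, hτ, rfl⟩
    exact h τ hτ.1 hτ.2
  exact this hx

omit [DecidableEq V] in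
lemma map_eq {M : Type} [AddCommGroup M] [Module (ZMod 2) M] {A : Set (Finset V)} {n : ℕ}
    (f g : (Finset V →₀ ZMod 2) →ₗ[ZMod 2] M)
    (h : ∀ τ ∈ A, f (Finsupp.single τ 1) = g (Finsupp.single τ 1)) {x : Finset V →₀ ZMod 2}
    (hx : x ∈ Ch A n) : f x = g x := by
  have := map_mem (f - g) ⊥ (fun τ hτ _ => by
    rw [Submodule.mem_bot, LinearMap.sub_apply, h τ hτ, sub_self]) hx
  rwa [Submodule.mem_bot, LinearMap.sub_apply, sub_eq_zero] at this

lemma cone_mem {A : Set (Finset V)} {a : V} (h : ∀ τ ∈ A, insert a τ ∈ A) {n : ℕ}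
    {x : Finset V →₀ ZMod 2} (hx : x ∈ Ch A n) : cone a x ∈ Ch A (n + 1) := by
  refine map_mem (cone a) _ (fun τ hτ hn => ?_) hx
  rw [cone_single]
  split_ifs with ha
  · exact zero_mem _
  · rw [← hn, ← card_insert_of_notMem ha]
    exact single_mem_Ch (h τ hτ)

lemma sbd_sbd_single (σ : Finset V) : sbd (sbd (Finsupp.single σ (1 : ZMod 2))) = 0 := by
  rw [sbd_single, map_sum]
  simp only [sbd_single]
  exact sum_erase_symm σ (fun a b => Finsupp.single ((σ.erase a).erase b) 1)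
    fun a b => by rw [erase_right_comm]

/-- A carrier on the complex `K` all of whose values on nonempty simplices are cones. -/
structure Carrier (K : Set (Finset V)) (Φ : Finset V → Set (Finset V')) : Prop where
  down : ∀ σ ∈ K, ∀ v ∈ σ, σ.erase v ∈ K
  mono : ∀ σ ∈ K, ∀ v ∈ σ, Φ (σ.erase v) ⊆ Φ σ
  apex : ∀ σ ∈ K, σ.Nonempty → ∃ a, ∀ τ ∈ Φ σ, insert a τ ∈ Φ σ

/-- The recursion behind the carrier theorem. -/
noncomputable def recH (a : Finset V → V') (θ : Finset V → (Finset V' →₀ ZMod 2))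
    (h₀ : Finset V' →₀ ZMod 2) : ℕ → Finset V → (Finset V' →₀ ZMod 2)
  | 0, _ => h₀
  | n + 1, σ => cone (a σ) (θ σ + ∑ v ∈ σ, recH a θ h₀ n (σ.erase v))

theorem Carrier.exists_htpy {K : Set (Finset V)} {Φ : Finset V → Set (Finset V')}
    (hΦ : Carrier K Φ) (θ : (Finset V →₀ ZMod 2) →ₗ[ZMod 2] (Finset V' →₀ ZMod 2)) (e : ℕ)
    (h₀ : Finset V' →₀ ZMod 2) (h₀m : h₀ ∈ Ch (Φ ∅) e)
    (h₀b : sbd h₀ = θ (Finsupp.single ∅ 1))
    (θb : ∀ σ ∈ K, sbd (θ (Finsupp.single σ 1)) = θ (sbd (Finsupp.single σ 1)))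
    (θm : ∀ σ ∈ K, ∀ n, σ.card = n + 1 → θ (Finsupp.single σ 1) ∈ Ch (Φ σ) (n + e)) :
    ∃ h : (Finset V →₀ ZMod 2) →ₗ[ZMod 2] (Finset V' →₀ ZMod 2),
      h (Finsupp.single ∅ 1) = h₀ ∧ ∀ σ ∈ K, h (Finsupp.single σ 1) ∈ Ch (Φ σ) (σ.card + e) ∧
        sbd (h (Finsupp.single σ 1)) =
          θ (Finsupp.single σ 1) + h (sbd (Finsupp.single σ 1)) := by
  have hap : ∃ a : Finset V → Option V', ∀ σ ∈ K, σ.Nonempty →
      ∃ b, a σ = some b ∧ ∀ τ ∈ Φ σ, insert b τ ∈ Φ σ := by
    refine Classical.skolem (p := fun σ (o : Option V') => σ ∈ K → σ.Nonempty →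
      ∃ b, o = some b ∧ ∀ τ ∈ Φ σ, insert b τ ∈ Φ σ) |>.1 fun σ => ?_
    by_cases h : σ ∈ K ∧ σ.Nonempty
    · obtain ⟨b, hb⟩ := hΦ.apex σ h.1 h.2
      exact ⟨some b, fun _ _ => ⟨b, rfl, hb⟩⟩
    · exact ⟨none, fun h1 h2 => absurd ⟨h1, h2⟩ h⟩
  rcases isEmpty_or_nonempty V' with hV | ⟨⟨b₀⟩⟩
  · refine ⟨Finsupp.linearCombination (ZMod 2) fun σ => if σ = ∅ then h₀ else 0, by simp,
      fun σ hσ => ?_⟩
    rcases σ.eq_empty_or_nonempty with rfl | hne
    · simpa [sbd_single, h₀b] using h₀m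
    · obtain ⟨b, -⟩ := hΦ.apex σ hσ hne
      exact hV.elim b
  obtain ⟨a', ha'⟩ := hap
  let a : Finset V → V' := fun σ => (a' σ).getD b₀
  have ha : ∀ σ ∈ K, σ.Nonempty → ∀ τ ∈ Φ σ, insert (a σ) τ ∈ Φ σ := by
    intro σ hσ hne
    obtain ⟨b, hb, hb'⟩ := ha' σ hσ hne
    simpa [a, hb] using hb'
  let h : (Finset V →₀ ZMod 2) →ₗ[ZMod 2] (Finset V' →₀ ZMod 2) :=
    Finsupp.linearCombination (ZMod 2) fun σ =>
      recH a (fun σ => θ (Finsupp.single σ 1)) h₀ σ.card σ
  have hs : ∀ σ, h (Finsupp.single σ 1) =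
      recH a (fun σ => θ (Finsupp.single σ 1)) h₀ σ.card σ := fun σ => by simp [h]
  have h0 : h (Finsupp.single ∅ 1) = h₀ := by rw [hs]; rfl
  have h1 : ∀ (n : ℕ) (σ : Finset V), σ.card = n + 1 → h (Finsupp.single σ 1) =
      cone (a σ) (θ (Finsupp.single σ 1) + ∑ v ∈ σ, h (Finsupp.single (σ.erase v) 1)) := by
    intro n σ hn
    rw [hs, hn, recH]
    congr 2
    refine sum_congr rfl fun v hv => ?_
    rw [hs, card_erase_of_mem hv, hn, Nat.add_sub_cancel]
  refine ⟨h, h0, fun σ hσ => ?_⟩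
  induction hn : σ.card generalizing σ with
  | zero =>
    obtain rfl := card_eq_zero.1 hn
    rw [h0, zero_add, sbd_single, sum_empty, map_zero, add_zero]
    exact ⟨h₀m, h₀b⟩
  | succ n ih =>
    have hne : σ.Nonempty := card_pos.1 (by omega)
    have ih' := fun v (hv : v ∈ σ) => ih (σ.erase v) (hΦ.down σ hσ v hv)
      (by rw [card_erase_of_mem hv, hn, Nat.add_sub_cancel])
    rw [h1 n σ hn]
    constructor
    · rw [Nat.add_right_comm]
      exact cone_mem (ha σ hσ hne) (add_mem (θm σ hσ n hn) (Submodule.sum_mem _ fun v hv =>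
        Ch_mono (hΦ.mono σ hσ v hv) _ (ih' v hv).1))
    · have e1 : ∑ v ∈ σ, h (Finsupp.single (σ.erase v) 1) = h (sbd (Finsupp.single σ 1)) := by
        rw [sbd_single, map_sum]
      have e2 : sbd (θ (Finsupp.single σ 1) +
          ∑ v ∈ σ, h (Finsupp.single (σ.erase v) 1)) = 0 := by
        rw [map_add, map_sum, sum_congr rfl fun v hv => (ih' v hv).2, sum_add_distrib,
          ← map_sum θ, ← map_sum h, ← map_sum sbd, ← sbd_single, sbd_sbd_single, map_zero,
          add_zero, θb σ hσ, two]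
      rw [sbd_cone, e2, map_zero, add_zero, e1]

theorem Carrier.exists_map {K : Set (Finset V)} {Φ : Finset V → Set (Finset V')}
    (hΦ : Carrier K Φ) (h0 : ∅ ∈ Φ ∅) :
    ∃ φ : (Finset V →₀ ZMod 2) →ₗ[ZMod 2] (Finset V' →₀ ZMod 2),
      φ (Finsupp.single ∅ 1) = Finsupp.single ∅ 1 ∧
      (∀ σ ∈ K, φ (Finsupp.single σ 1) ∈ Ch (Φ σ) σ.card) ∧
      ∀ σ ∈ K, sbd (φ (Finsupp.single σ 1)) = φ (sbd (Finsupp.single σ 1)) := by
  obtain ⟨φ, h1, h2⟩ := hΦ.exists_htpy 0 0 (Finsupp.single ∅ 1) (single_mem_Ch h0)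
    (by simp [sbd_single]) (by simp) (fun _ _ _ _ => zero_mem _)
  exact ⟨φ, h1, fun σ hσ => (h2 σ hσ).1, fun σ hσ => by simpa using (h2 σ hσ).2⟩

/-- Exactness mod 2 of the complex `K` at the simplices with `p` vertices. -/
def Exact (K : Set (Finset V)) (p : ℕ) : Prop :=
  ∀ z ∈ Ch K p, sbd z = 0 → ∃ w ∈ Ch K (p + 1), sbd w = z

theorem transfer {K : Set (Finset V)} {L : Set (Finset V')} {Φ : Finset V → Set (Finset V')}
    {Ψ : Finset V' → Set (Finset V)} {Θ : Finset V → Set (Finset V)}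
    (hΦ : Carrier K Φ) (hΨ : Carrier L Ψ) (hΘ : Carrier K Θ) (Φ0 : ∅ ∈ Φ ∅) (Ψ0 : ∅ ∈ Ψ ∅)
    (ΦL : ∀ σ ∈ K, Φ σ ⊆ L) (ΨK : ∀ τ ∈ L, Ψ τ ⊆ K) (ΘK : ∀ σ ∈ K, Θ σ ⊆ K)
    (self : ∀ σ ∈ K, σ ∈ Θ σ) (comp : ∀ σ ∈ K, ∀ τ ∈ Φ σ, Ψ τ ⊆ Θ σ) {p : ℕ}
    (hL : Exact L p) : Exact K p := by
  obtain ⟨φ, φ0, φm, φb⟩ := hΦ.exists_map Φ0
  obtain ⟨ψ, ψ0, ψm, ψb⟩ := hΨ.exists_map Ψ0
  have φb' : ∀ {n x}, x ∈ Ch K n → sbd (φ x) = φ (sbd x) := fun hx =>
    map_eq (sbd ∘ₗ φ) (φ ∘ₗ sbd) φb hx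
  have ψb' : ∀ {n x}, x ∈ Ch L n → sbd (ψ x) = ψ (sbd x) := fun hx =>
    map_eq (sbd ∘ₗ ψ) (ψ ∘ₗ sbd) ψb hx
  have φm' : ∀ {n x}, x ∈ Ch K n → φ x ∈ Ch L n := fun hx =>
    map_mem φ _ (fun σ hσ hn => hn ▸ Ch_mono (ΦL σ hσ) _ (φm σ hσ)) hx
  have ψm' : ∀ {n x}, x ∈ Ch L n → ψ x ∈ Ch K n := fun hx =>
    map_mem ψ _ (fun σ hσ hn => hn ▸ Ch_mono (ΨK σ hσ) _ (ψm σ hσ)) hx
  obtain ⟨h, -, hh⟩ := hΘ.exists_htpy (LinearMap.id + ψ ∘ₗ φ) 1 0 (zero_mem _)
    (by simp only [map_zero, LinearMap.add_apply, LinearMap.id_apply, LinearMap.comp_apply, φ0,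
      ψ0, two])
    (fun σ hσ => by
      simp only [LinearMap.add_apply, LinearMap.id_apply, LinearMap.comp_apply, map_add]
      rw [ψb' (φm' (single_mem_Ch hσ)), φb σ hσ])
    (fun σ hσ n hn => by
      rw [← hn]
      exact add_mem (single_mem_Ch (self σ hσ)) (map_mem ψ _ (fun τ hτ hc =>
        hc ▸ Ch_mono (comp σ hσ τ hτ) _ (ψm τ (ΦL σ hσ hτ))) (φm σ hσ)))
  intro z hz hz0
  obtain ⟨w, hw, hwz⟩ := hL (φ z) (φm' hz) (by rw [φb' hz, hz0, map_zero])
  have e : sbd (h z) = z + ψ (φ z) + h (sbd z) :=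
    map_eq (sbd ∘ₗ h) (LinearMap.id + ψ ∘ₗ φ + h ∘ₗ sbd) (fun σ hσ => (hh σ hσ).2) hz
  refine ⟨h z + ψ w, add_mem (map_mem h _ (fun σ hσ hn =>
    hn ▸ Ch_mono (ΘK σ hσ) _ (hh σ hσ).1) hz) (ψm' hw), ?_⟩
  rw [map_add, e, ψb' hw, hwz, hz0, map_zero, add_zero, add_assoc, two, add_zero]

end General

section Nakayama

variable {α : Type} [PartialOrder α] [DecidableEq α]

/-- The simplices of the order complex of `P`. -/
def Fl (P : Set α) : Set (Finset α) := {σ | (σ : Set α) ⊆ P ∧ IsChain (· ≤ ·) (σ : Set α)}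

/-- Reduction mod 2. -/
noncomputable def red : (Finset α →₀ ℤ) →+ (Finset α →₀ ZMod 2) :=
  Finsupp.mapRange.addMonoidHom (Int.castAddHom (ZMod 2))

omit [PartialOrder α] [DecidableEq α] in
lemma red_apply (x : Finset α →₀ ℤ) (σ : Finset α) : red x σ = (x σ : ZMod 2) := rfl

omit [PartialOrder α] [DecidableEq α] in
lemma red_single (σ : Finset α) (a : ℤ) :
    red (Finsupp.single σ a) = Finsupp.single σ (a : ZMod 2) := by
  simp [red]

lemma red_obd (x : Finset α →₀ ℤ) : red (obd x) = sbd (red x) := by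
  induction x using Finsupp.induction_linear with
  | zero => simp
  | add x y hx hy => simp only [map_add, hx, hy]
  | single σ a =>
    rw [obd_single, map_sum, red_single, ← Finsupp.smul_single_one σ (a : ZMod 2), map_smul,
      sbd_single, smul_sum]
    refine sum_congr rfl fun v _ => ?_
    have : (-1 : ZMod 2) = 1 := rfl
    rw [red_single, Finsupp.smul_single_one]
    congr 1
    · congr 1
      exact Subsingleton.elim _ _
    · simp [this]

theorem torsExact_of_exact {P : Set α} (hP : P.Finite) {p : ℕ} (h : Exact (Fl P) p) :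
    TorsExact P p := by
  have hfg : (FC P p ⊓ LinearMap.ker obd).FG := by
    refine Submodule.FG.of_le ?_ inf_le_left
    rw [FC, Finsupp.supported_eq_span_single]
    refine Submodule.fg_span (Set.Finite.image _ ?_)
    exact (hP.finite_subsets.preimage Finset.coe_injective.injOn).subset fun σ hσ => hσ.1
  have key : FC P p ⊓ LinearMap.ker obd ≤ (FC P (p + 1)).map obd ⊔
      Ideal.span {(2 : ℤ)} • (FC P p ⊓ LinearMap.ker obd) := by
    rintro z ⟨hz, hz0⟩
    obtain ⟨w', hw', e⟩ := h (red z) (fun σ hσ => by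
      have : σ ∈ z.support := by
        rw [Finsupp.mem_support_iff]
        intro h0
        rw [Finset.mem_coe, Finsupp.mem_support_iff, red_apply, h0] at hσ
        exact hσ rfl
      have := mem_FC.1 hz σ this
      exact ⟨⟨this.1, this.2.1⟩, this.2.2⟩) (by rw [← red_obd, show obd z = 0 from hz0, map_zero])
    let w : Finset α →₀ ℤ := w'.mapRange (fun a => (a.val : ℤ)) (by simp)
    have hw : w ∈ FC P (p + 1) := mem_FC.2 fun σ hσ => by
      have := hw' (Finsupp.support_mapRange hσ)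
      exact ⟨this.1.1, this.1.2, this.2⟩
    have ew : red w = w' := by
      ext σ
      simp [red_apply, w]
    have hd : z - obd w ∈ FC P p := sub_mem hz (obd_mem_FC hw)
    have hr : red (z - obd w) = 0 := by rw [map_sub, red_obd, ew, e, sub_self]
    let y : Finset α →₀ ℤ := (z - obd w).mapRange (fun a => a / 2) (by simp)
    have hy : y ∈ FC P p := mem_FC.2 fun σ hσ => mem_FC.1 hd σ (Finsupp.support_mapRange hσ)
    have ey : (2 : ℤ) • y = z - obd w := by
      ext σ
      have h2 : (((z - obd w) σ : ℤ) : ZMod 2) = 0 := by rw [← red_apply, hr]; rfl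
      have h3 := (ZMod.intCast_zmod_eq_zero_iff_dvd _ 2).1 h2
      rw [Finsupp.smul_apply, Finsupp.mapRange_apply, smul_eq_mul]
      exact Int.mul_ediv_cancel' h3
    have hy0 : obd y = 0 := by
      have : (2 : ℤ) • obd y = 0 := by
        rw [← map_smul, ey, map_sub, obd_obd hw, show obd z = 0 from hz0, sub_self]
      exact (smul_eq_zero.1 this).resolve_left two_ne_zero
    rw [show z = obd w + (2 : ℤ) • y by rw [ey, add_sub_cancel]]
    exact Submodule.add_mem_sup (Submodule.mem_map_of_mem hw)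
      (Submodule.smul_mem_smul (Ideal.mem_span_singleton_self 2) ⟨hy, hy0⟩)
  obtain ⟨m, hm, hle⟩ := Submodule.exists_sub_one_mem_and_smul_le_of_fg_of_le_sup hfg le_rfl key
  intro z hz hz0
  refine ⟨m, ?_, ?_⟩
  · rintro rfl
    rw [Ideal.mem_span_singleton] at hm
    omega
  · obtain ⟨w, hw, e⟩ := hle (Submodule.smul_mem_pointwise_smul z m _ ⟨mem_FC.2 hz, hz0⟩)
    exact ⟨w, mem_FC.1 hw, e⟩

omit [DecidableEq α] in
lemma exists_top {P : Set α} {σ : Finset α} (h : σ ∈ Fl P) (hne : σ.Nonempty) :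
    ∃ v ∈ σ, ∀ u ∈ σ, u ≤ v := by
  obtain ⟨n, hn⟩ : ∃ n, σ.card = n + 1 := ⟨σ.card - 1, by have := hne.card_pos; omega⟩
  exact IsFlag.exists_top (P := P) ⟨h.1, h.2, hn⟩

lemma erase_mem_Fl {P : Set α} {σ : Finset α} (h : σ ∈ Fl P) (v : α) : σ.erase v ∈ Fl P :=
  ⟨(coe_subset.2 (erase_subset v σ)).trans h.1, h.2.mono (coe_subset.2 (erase_subset v σ))⟩

lemma insert_mem_Fl {P : Set α} {σ : Finset α} (h : σ ∈ Fl P) {a : α} (ha : a ∈ P)
    (hle : ∀ u ∈ σ, u ≤ a) : insert a σ ∈ Fl P := by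
  refine ⟨?_, ?_⟩
  · rw [coe_insert]
    exact Set.insert_subset ha h.1
  · rw [coe_insert]
    exact h.2.insert fun b hb _ => Or.inr (hle b hb)

end Nakayama

section Coxeter

variable {S : Type} {M : CoxeterMatrix S}

lemma conn_union {U U' : Set S} (hU : Conn M U) (hU' : Conn M U') {a b : S} (ha : a ∈ U)
    (hb : b ∈ U') (hab : M a b ≠ 2) : Conn M (U ∪ U') := by
  intro A hA hne hcl
  have k : ∀ W ⊆ U ∪ U', Conn M W → ∀ x ∈ W, x ∈ A → W ⊆ A := by
    intro W hW hc x hx hxA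
    have := hc (A ∩ W) Set.inter_subset_right ⟨x, hxA, hx⟩
      fun c hc' d hd hd' => hcl c hc'.1 d (hW hd) fun h => hd' ⟨h, hd⟩
    rw [← this]
    exact Set.inter_subset_left
  have k1 : a ∈ A → b ∈ A := fun h => by
    by_contra h'
    exact hab (hcl a h b (Or.inr hb) h')
  have k2 : b ∈ A → a ∈ A := fun h => by
    by_contra h'
    exact hab ((M.symmetric a b).trans (hcl b h a (Or.inl ha) h'))
  have k3 : a ∈ A := by
    obtain ⟨x, hx⟩ := hne
    rcases hA hx with h | h
    · exact k U Set.subset_union_left hU x h hx ha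
    · exact k2 (k U' Set.subset_union_right hU' x h hx hb)
  exact hA.antisymm (Set.union_subset (k U Set.subset_union_left hU a ha k3)
    (k U' Set.subset_union_right hU' b hb (k1 k3)))

lemma exists_component {W : Set S} (hW : W.Finite) (hne : W.Nonempty) :
    ∃ U₀ ⊆ W, U₀.Nonempty ∧ Conn M U₀ ∧ ∀ U ⊆ W, Conn M U →
      U ⊆ U₀ ∨ ∀ a ∈ U, ∀ b ∈ U₀, M a b = 2 := by
  obtain ⟨s, hs⟩ := hne
  obtain ⟨U₀, h0, hmax⟩ := Set.Finite.exists_maximal
    (s := {U | U ⊆ W ∧ U.Nonempty ∧ Conn M U}) (hW.finite_subsets.subset fun U hU => hU.1)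
    ⟨{s}, Set.singleton_subset_iff.2 hs, Set.singleton_nonempty s,
      fun A hA hne _ => (Set.Nonempty.subset_singleton_iff hne).1 hA⟩
  refine ⟨U₀, h0.1, h0.2.1, h0.2.2, fun U hU hc => ?_⟩
  by_contra hcon
  push Not at hcon
  obtain ⟨h1, a, ha, b, hb, hab⟩ := hcon
  exact h1 (Set.subset_union_left.trans (hmax (y := U ∪ U₀) ⟨Set.union_subset hU h0.1,
    h0.2.1.mono Set.subset_union_right, conn_union hc h0.2.2 ha hb hab⟩ Set.subset_union_right))

lemma spherical_clique {T : Set S} (τ : Finset (LV M T)) (h : (Lam M T).IsClique τ) :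
    Spherical M (⋃ U ∈ τ, U.1) := by
  classical
  induction τ using Finset.strongInduction with
  | H τ ih =>
    rcases τ.eq_empty_or_nonempty with rfl | hne
    · simpa using spherical_empty
    obtain ⟨U₀, h0, hmax⟩ := τ.exists_maximal hne
    have hss : τ.filter (fun U => ¬ U.1 ⊆ U₀.1) ⊂ τ :=
      filter_ssubset.2 ⟨U₀, h0, fun h' => h' subset_rfl⟩
    refine (Spherical.union U₀.2.1.2.2 (ih _ hss (h.subset (coe_subset.2 hss.subset))) ?_).mono ?_
    · intro a ha b hb
      simp only [Set.mem_iUnion, mem_filter] at hb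
      obtain ⟨U, ⟨hU, hU'⟩, hb⟩ := hb
      rcases (h h0 hU fun e => hU' (e ▸ subset_rfl)).2 with h1 | h1 | h1
      · exact absurd (hmax hU h1) hU'
      · exact absurd h1 hU'
      · exact h1 a ha b hb
    · intro a ha
      simp only [Set.mem_iUnion, mem_filter, Set.mem_union] at ha ⊢
      obtain ⟨U, hU, ha⟩ := ha
      by_cases h1 : U.1 ⊆ U₀.1
      · exact Or.inl (h1 ha)
      · exact Or.inr ⟨U, ⟨hU, h1⟩, ha⟩

end Coxeter

end CarrierAux

open CarrierAux

variable {S : Type} {M : CoxeterMatrix S}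

/-- From the clique complex of `Lam M T` mod 2 to the order complex of spherical subsets. -/
theorem torsExact_sph {T : Set S} (hT : T.Finite) [DecidableEq (LV M T)] {p : ℕ}
    (h : ExactTwo (Lam M T) p) : TorsExact (Sph M T) p := by
  classical
  refine torsExact_of_exact (hT.finite_subsets.subset fun U hU => hU.1) (transfer
    (L := {τ : Finset (LV M T) | (Lam M T).IsClique τ})
    (Φ := fun σ => {τ | (Lam M T).IsClique τ ∧ ∀ U ∈ τ, ∃ W ∈ σ, U.1 ⊆ W})
    (Ψ := fun τ => {ρ | ρ ∈ Fl (Sph M T) ∧ ∀ W ∈ ρ, W ⊆ ⋃ U ∈ τ, U.1})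
    (Θ := fun σ => {ρ | ρ ∈ Fl (Sph M T) ∧ ∀ W ∈ ρ, ∃ W' ∈ σ, W ⊆ W'})
    ⟨fun σ hσ v _ => erase_mem_Fl hσ v, ?_, ?_⟩ ⟨?_, ?_, ?_⟩
    ⟨fun σ hσ v _ => erase_mem_Fl hσ v, ?_, ?_⟩ ⟨by simp, by simp⟩ ⟨by simp [Fl], by simp⟩
    (fun σ _ τ hτ => hτ.1) (fun τ _ ρ hρ => hρ.1) (fun σ _ ρ hρ => hρ.1)
    (fun σ hσ => ⟨hσ, fun W hW => ⟨W, hW, subset_rfl⟩⟩) ?_ ?_)
  · rintro σ - v - τ ⟨h1, h2⟩
    exact ⟨h1, fun U hU => (h2 U hU).imp fun W hW => ⟨Finset.mem_of_mem_erase hW.1, hW.2⟩⟩
  · intro σ hσ hne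
    obtain ⟨W, hW, htop⟩ := exists_top hσ hne
    have hW' := hσ.1 hW
    obtain ⟨U₀, h1, h2, h3, h4⟩ := exists_component (M := M) (hT.subset hW'.1) hW'.2.1
    refine ⟨⟨U₀, ⟨h1.trans hW'.1, h2, hW'.2.2.mono h1⟩, h3⟩, fun τ hτ => ⟨?_, ?_⟩⟩
    · rw [Finset.coe_insert]
      refine hτ.1.insert fun U hU hne => ⟨hne, ?_⟩
      obtain ⟨W', hW'', hU'⟩ := hτ.2 U hU
      rcases h4 U.1 (hU'.trans (htop W' hW'')) U.2.2 with h5 | h5
      · exact Or.inr (Or.inl h5)
      · exact Or.inr (Or.inr fun a ha b hb => (M.symmetric a b).trans (h5 b hb a ha))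
    · intro U hU
      rcases Finset.mem_insert.1 hU with rfl | hU
      · exact ⟨W, hW, h1⟩
      · exact hτ.2 U hU
  · intro τ hτ v _
    exact SimpleGraph.IsClique.subset (Finset.coe_subset.2 (Finset.erase_subset v τ)) hτ
  · rintro τ - v - ρ ⟨h1, h2⟩
    exact ⟨h1, fun W hW => (h2 W hW).trans
      (Set.biUnion_subset_biUnion_left (Finset.coe_subset.2 (Finset.erase_subset v τ)))⟩
  · rintro τ hτ ⟨U, hU⟩
    refine ⟨⋃ U ∈ τ, U.1, fun ρ hρ => ⟨insert_mem_Fl hρ.1 ⟨?_, ?_, spherical_clique τ hτ⟩ hρ.2,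
      fun W hW => ?_⟩⟩
    · exact Set.iUnion₂_subset fun U _ => U.2.1.1
    · exact U.2.1.2.1.mono (Set.subset_biUnion_of_mem (u := fun U : LV M T => U.1) hU)
    · rcases Finset.mem_insert.1 hW with rfl | hW
      · exact subset_rfl
      · exact hρ.2 W hW
  · rintro σ - v - ρ ⟨h1, h2⟩
    exact ⟨h1, fun U hU => (h2 U hU).imp fun W hW => ⟨Finset.mem_of_mem_erase hW.1, hW.2⟩⟩
  · intro σ hσ hne
    obtain ⟨W, hW, htop⟩ := exists_top hσ hne
    refine ⟨W, fun ρ hρ => ⟨insert_mem_Fl hρ.1 (hσ.1 hW) fun U hU => ?_, fun U hU => ?_⟩⟩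
    · obtain ⟨W', hW', hU'⟩ := hρ.2 U hU
      exact hU'.trans (htop W' hW')
    · rcases Finset.mem_insert.1 hU with rfl | hU
      · exact ⟨U, hW, subset_rfl⟩
      · exact hρ.2 U hU
  · rintro σ hσ τ hτ ρ ⟨h1, h2⟩
    refine ⟨h1, fun W hW => ?_⟩
    obtain ⟨x, hx⟩ := (h1.1 hW).2.1
    obtain ⟨U, hU, -⟩ := Set.mem_iUnion₂.1 (h2 W hW hx)
    obtain ⟨W₁, hW₁, -⟩ := hτ.2 U hU
    obtain ⟨W₀, hW₀, htop⟩ := exists_top hσ ⟨W₁, hW₁⟩
    refine ⟨W₀, hW₀, (h2 W hW).trans (Set.iUnion₂_subset fun U' hU' => ?_)⟩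
    obtain ⟨W', hW', hU''⟩ := hτ.2 U' hU'
    exact hU''.trans (htop W' hW')
  · intro z hz hz0
    obtain ⟨w, hw, e⟩ := h z (fun A hA => ⟨(hz hA).1, (hz hA).2⟩) hz0
    exact ⟨w, fun A hA => ⟨(hw A hA).1, (hw A hA).2⟩, e⟩

end Pool.Agent.MP_4f4d9f_gt

end
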