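import Pool.Agent.MP_4f4d9f_gt.SubdivGen
import Pool.Agent.MP_4f4d9f_gt.Cone

set_option linter.all false

section

/-! Barycentric subdivision mod 2 and small chains. -/

namespace Pool.Agent.MP_4f4d9f_gt

variable {X Y : Type} [TopologicalSpace X] [TopologicalSpace Y]

variable (X) in
/-- Barycentric subdivision mod 2. -/
noncomputable def sd (k : ℕ) : (Sing X k →₀ ZMod 2) →ₗ[ZMod 2] (Sing X k →₀ ZMod 2) :=
  sdR (ZMod 2) X k

variable (X) in
/-- The chain homotopy between `sd` and the identity. -/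
noncomputable def sdH (k : ℕ) : (Sing X k →₀ ZMod 2) →ₗ[ZMod 2] (Sing X (k + 1) →₀ ZMod 2) :=
  sdHR (ZMod 2) X k

theorem sub_eq_add_two {α : Type} (a b : α →₀ ZMod 2) : a - b = a + b := by
  ext x
  rw [Finsupp.sub_apply, Finsupp.add_apply, sub_eq_add_neg, ZMod.neg_eq_self_mod_two]

theorem sd_zero (c : Sing X 0 →₀ ZMod 2) : sd X 0 c = c := sdR_zero _ c

theorem sdH_zero (c : Sing X 0 →₀ ZMod 2) : sdH X 0 c = 0 := sdHR_zero _ c

theorem bd_sd (k : ℕ) (c : Sing X (k + 1) →₀ ZMod 2) :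
    bd (ZMod 2) X k (sd X (k + 1) c) = sd X k (bd (ZMod 2) X k c) := bd_sdR _ k c

theorem bd_sdH (k : ℕ) (c : Sing X (k + 1) →₀ ZMod 2) :
    bd (ZMod 2) X (k + 1) (sdH X (k + 1) c) + sdH X k (bd (ZMod 2) X k c) =
      c + sd X (k + 1) c := by
  rw [sdH, sdH, bd_sdHR, sub_add_cancel, sub_eq_add_two, sd]

theorem push_sd (f : C(X, Y)) (k : ℕ) (c : Sing X k →₀ ZMod 2) :
    push (ZMod 2) f k (sd X k c) = sd Y k (push (ZMod 2) f k c) := push_sdR _ f k c

theorem push_sdH (f : C(X, Y)) (k : ℕ) (c : Sing X k →₀ ZMod 2) :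
    push (ZMod 2) f (k + 1) (sdH X k c) = sdH Y k (push (ZMod 2) f k c) := push_sdHR _ f k c

theorem sd_mem_supp {A : Set X} {k : ℕ} {c : Sing X k →₀ ZMod 2} (h : c ∈ supp (ZMod 2) A k) :
    sd X k c ∈ supp (ZMod 2) A k := sdR_mem_supp h

theorem sdH_mem_supp {A : Set X} {k : ℕ} {c : Sing X k →₀ ZMod 2} (h : c ∈ supp (ZMod 2) A k) :
    sdH X k c ∈ supp (ZMod 2) A (k + 1) := sdHR_mem_supp h

/-- Small chains. -/
theorem sd_small {U V : Set X} (hU : IsOpen U) (hV : IsOpen V) {k : ℕ} {c : Sing X k →₀ ZMod 2}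
    (h : c ∈ supp (ZMod 2) (U ∪ V) k) :
    ∃ m : ℕ, ∀ m' ≥ m, (sd X k ^ m') c ∈ supp (ZMod 2) U k ⊔ supp (ZMod 2) V k :=
  sdR_small_two hU hV h

/-- A chain in `A ∪ B` with small boundary is homologous to a small chain. -/
theorem small_chain {Z : Type} [TopologicalSpace Z] {A B : Set Z} (hA : IsOpen A) (hB : IsOpen B)
    (k : ℕ) (c : Sing Z (k + 1) →₀ ZMod 2) (hc : c ∈ supp (ZMod 2) (A ∪ B) (k + 1))
    (hd : bd (ZMod 2) Z k c ∈ supp (ZMod 2) A k ⊔ supp (ZMod 2) B k) :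
    ∃ h ∈ supp (ZMod 2) (A ∪ B) (k + 2),
      c + bd (ZMod 2) Z (k + 1) h ∈ supp (ZMod 2) A (k + 1) ⊔ supp (ZMod 2) B (k + 1) := by
  simpa only [sub_eq_add_two] using small_chainR hA hB k c hc hd

end Pool.Agent.MP_4f4d9f_gt

end

section

/-! The Borel computation for a convex chart. -/

namespace Pool.Agent.MP_4f4d9f_gt

open Finsupp

namespace Loc

/-- Dependent recursive choice along a finite range. -/
theorem exists_seq {α : ℕ → Type} [∀ i, Inhabited (α i)] (P : ∀ i, α i → Prop)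
    (Rl : ∀ i, α i → α (i + 1) → Prop) (m : ℕ) (x0 : α 0) (h0 : P 0 x0)
    (step : ∀ i < m, ∀ x, P i x → ∃ y, P (i + 1) y ∧ Rl i x y) :
    ∃ s : ∀ i, α i, s 0 = x0 ∧ (∀ i ≤ m, P i (s i)) ∧ ∀ i < m, Rl i (s i) (s (i + 1)) := by
  classical
  let nxt : ∀ i, α i → α (i + 1) := fun i x =>
    if h : i < m ∧ P i x then (step i h.1 x h.2).choose else default
  let s : ∀ i, α i := fun i => Nat.rec x0 nxt i
  have hs : ∀ i, s (i + 1) = nxt i (s i) := fun _ => rfl
  have key : ∀ i < m, P i (s i) → P (i + 1) (s (i + 1)) ∧ Rl i (s i) (s (i + 1)) := by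
    intro i hi hP
    rw [hs]
    simp only [nxt, dif_pos (And.intro hi hP)]
    exact (step i hi _ hP).choose_spec
  have hP : ∀ i ≤ m, P i (s i) := by
    intro i
    induction i with
    | zero => exact fun _ => h0
    | succ i ih => exact fun hi => (key i hi (ih (by omega))).1
  exact ⟨s, rfl, hP, fun i hi => (key i hi (hP i hi.le)).2⟩

section General

variable {Y : Type} [TopologicalSpace Y]

theorem two {k : ℕ} (c : Sing Y k →₀ ZMod 2) : c + c = 0 := by
  rw [← two_smul (ZMod 2) c, show (2 : ZMod 2) = 0 from rfl, zero_smul]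

/-- Reduced cycles. -/
def Cyc : (k : ℕ) → (Sing Y k →₀ ZMod 2) → Prop
  | 0, c => aug (ZMod 2) Y c = 0
  | k + 1, c => bd (ZMod 2) Y k c = 0

/-- Boundaries in `A`. -/
def Bnd (A : Set Y) (k : ℕ) (c : Sing Y k →₀ ZMod 2) : Prop :=
  ∃ w ∈ supp (ZMod 2) A (k + 1), bd (ZMod 2) Y k w = c

theorem Cyc.add {k : ℕ} {c d : Sing Y k →₀ ZMod 2} (hc : Cyc k c) (hd : Cyc k d) :
    Cyc k (c + d) := by
  cases k with
  | zero => simp only [Cyc] at *; rw [map_add, hc, hd, add_zero]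
  | succ k => simp only [Cyc] at *; rw [map_add, hc, hd, add_zero]

theorem cyc_bd (k : ℕ) (w : Sing Y (k + 1) →₀ ZMod 2) : Cyc k (bd (ZMod 2) Y k w) := by
  cases k with
  | zero => exact aug_bd _ w
  | succ k => exact bd_bd _ k w

theorem Bnd.cyc {A : Set Y} {k : ℕ} {c : Sing Y k →₀ ZMod 2} (h : Bnd A k c) : Cyc k c := by
  obtain ⟨w, -, rfl⟩ := h
  exact cyc_bd k w

theorem Bnd.add {A : Set Y} {k : ℕ} {c d : Sing Y k →₀ ZMod 2} (hc : Bnd A k c) (hd : Bnd A k d) :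
    Bnd A k (c + d) := by
  obtain ⟨w, hw, rfl⟩ := hc
  obtain ⟨w', hw', rfl⟩ := hd
  exact ⟨w + w', add_mem hw hw', map_add _ _ _⟩

theorem Bnd.mono {A B : Set Y} (h : A ⊆ B) {k : ℕ} {c : Sing Y k →₀ ZMod 2} (hc : Bnd A k c) :
    Bnd B k c := by
  obtain ⟨w, hw, rfl⟩ := hc
  exact ⟨w, supp_mono h _ hw, rfl⟩

theorem bnd_of_sacyc {A : Set Y} (h : SAcyc (ZMod 2) A) {k : ℕ} {c : Sing Y k →₀ ZMod 2}
    (hc : c ∈ supp (ZMod 2) A k) (hz : Cyc k c) : Bnd A k c := by
  cases k with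
  | zero => exact h.zero c hc hz
  | succ k => exact h.succ k c hc hz

theorem sdpow_mem {A : Set Y} {k : ℕ} (m : ℕ) {c : Sing Y k →₀ ZMod 2}
    (h : c ∈ supp (ZMod 2) A k) : (sd Y k ^ m) c ∈ supp (ZMod 2) A k := by
  induction m with
  | zero => exact h
  | succ m ih => rw [pow_succ', Module.End.mul_apply]; exact sd_mem_supp ih

theorem bd_sdpow (k m : ℕ) (c : Sing Y (k + 1) →₀ ZMod 2) :
    bd (ZMod 2) Y k ((sd Y (k + 1) ^ m) c) = (sd Y k ^ m) (bd (ZMod 2) Y k c) := by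
  induction m with
  | zero => rfl
  | succ m ih => rw [pow_succ', pow_succ', Module.End.mul_apply, Module.End.mul_apply, bd_sd, ih]

theorem sdpow_zero (m : ℕ) (c : Sing Y 0 →₀ ZMod 2) : (sd Y 0 ^ m) c = c := by
  induction m with
  | zero => rfl
  | succ m ih => rw [pow_succ', Module.End.mul_apply, sd_zero, ih]

theorem bnd_zero (A : Set Y) (k : ℕ) : Bnd A k 0 := ⟨0, zero_mem _, map_zero _⟩

theorem bnd_sdpow {A : Set Y} {k : ℕ} (m : ℕ) {c : Sing Y k →₀ ZMod 2}
    (h : c ∈ supp (ZMod 2) A k) (hz : Cyc k c) : Bnd A k (c + (sd Y k ^ m) c) := by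
  cases k with
  | zero => rw [sdpow_zero, two]; exact bnd_zero _ _
  | succ k =>
    induction m with
    | zero => rw [pow_zero, Module.End.one_apply, two]; exact bnd_zero _ _
    | succ m ih =>
      have h1 : bd (ZMod 2) Y k ((sd Y (k + 1) ^ m) c) = 0 := by
        rw [bd_sdpow, show bd (ZMod 2) Y k c = 0 from hz, map_zero]
      have h2 := bd_sdH k ((sd Y (k + 1) ^ m) c)
      rw [h1, map_zero, add_zero] at h2
      have h3 := ih.add ⟨_, sdH_mem_supp (sdpow_mem m h), h2⟩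
      rw [pow_succ', Module.End.mul_apply]
      convert h3 using 1
      linear_combination (norm := abel1) -two ((sd Y (k + 1) ^ m) c)

/-- A cycle in a union of two open sets is homologous to a sum of small chains. -/
theorem split {A A' : Set Y} (hA : IsOpen A) (hA' : IsOpen A') {k : ℕ} {z : Sing Y k →₀ ZMod 2}
    (h : z ∈ supp (ZMod 2) (A ∪ A') k) (hz : Cyc k z) :
    ∃ u ∈ supp (ZMod 2) A k, ∃ v ∈ supp (ZMod 2) A' k, Bnd (A ∪ A') k (z + (u + v)) := by
  obtain ⟨m, hm⟩ := sd_small hA hA' h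
  obtain ⟨u, hu, v, hv, huv⟩ := Submodule.mem_sup.1 (hm m le_rfl)
  exact ⟨u, hu, v, hv, huv ▸ bnd_sdpow m h hz⟩

/-- Gluing in a union of two acyclic sets. -/
theorem glue {A A' : Set Y} (hA : SAcyc (ZMod 2) A) (hA' : SAcyc (ZMod 2) A') {k : ℕ}
    {z u v t : Sing Y k →₀ ZMod 2} (hz : Cyc k z) (hu : u ∈ supp (ZMod 2) A k)
    (hv : v ∈ supp (ZMod 2) A' k) (huv : Bnd (A ∪ A') k (z + (u + v)))
    (ht : t ∈ supp (ZMod 2) (A ∩ A') k) (hc : Cyc k (u + t)) : Bnd (A ∪ A') k z := by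
  have h1 := bnd_of_sacyc hA (add_mem hu (supp_mono Set.inter_subset_left k ht)) hc
  have hc' : Cyc k (v + t) := by
    convert (huv.cyc.add hz).add hc using 1
    linear_combination (norm := abel1) -two z - two u
  have h2 := bnd_of_sacyc hA' (add_mem hv (supp_mono Set.inter_subset_right k ht)) hc'
  convert huv.add ((h1.mono Set.subset_union_left).add (h2.mono Set.subset_union_right)) using 1
  linear_combination (norm := abel1) -two u - two v - two t

/-- A point as a singular simplex. -/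
def pt (y : Y) : Sing Y 0 := ContinuousMap.const _ y

/-- Relative cycles of a single chain. -/
def RZ (B : Set Y) : (k : ℕ) → (Sing Y k →₀ ZMod 2) → Prop
  | 0, _ => True
  | k + 1, c => bd (ZMod 2) Y k c ∈ supp (ZMod 2) B k

/-- Relative boundaries of a single chain. -/
def RB (A B : Set Y) (k : ℕ) (c : Sing Y k →₀ ZMod 2) : Prop :=
  ∃ w ∈ supp (ZMod 2) A (k + 1), c + bd (ZMod 2) Y k w ∈ supp (ZMod 2) B k

theorem rb_of_cyc {A B : Set Y} (hA : SAcyc (ZMod 2) A) (hBA : B ⊆ A) {k : ℕ}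
    {c t : Sing Y k →₀ ZMod 2} (hc : c ∈ supp (ZMod 2) A k) (ht : t ∈ supp (ZMod 2) B k)
    (h : Cyc k (c + t)) : RB A B k c := by
  obtain ⟨w, hw, h1⟩ := bnd_of_sacyc hA (add_mem hc (supp_mono hBA k ht)) h
  refine ⟨w, hw, ?_⟩
  rw [h1, ← add_assoc, two, zero_add]
  exact ht

end General

section Abstract

variable {X : Type} [TopologicalSpace X]

/-- The operator `1 + τ`. -/
noncomputable def ot (k : ℕ) :
    (Sing (X × X) k →₀ ZMod 2) →ₗ[ZMod 2] (Sing (X × X) k →₀ ZMod 2) :=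
  LinearMap.id + swp (ZMod 2) X k

theorem ot_apply {k : ℕ} (c : Sing (X × X) k →₀ ZMod 2) : ot k c = c + swp (ZMod 2) X k c := rfl

theorem ot_ot {k : ℕ} (c : Sing (X × X) k →₀ ZMod 2) : ot k (ot k c) = 0 := by
  rw [ot_apply, ot_apply, map_add, swp_swp]
  linear_combination (norm := abel1) two c + two (swp (ZMod 2) X k c)

theorem bd_ot {k : ℕ} (c : Sing (X × X) (k + 1) →₀ ZMod 2) :
    bd (ZMod 2) (X × X) k (ot (k + 1) c) = ot k (bd (ZMod 2) (X × X) k c) := by
  rw [ot_apply, ot_apply, map_add, bd_swp]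

theorem aug_ot (c : Sing (X × X) 0 →₀ ZMod 2) : aug (ZMod 2) (X × X) (ot 0 c) = 0 := by
  rw [ot_apply, map_add, aug_swp]
  exact CharTwo.add_self_eq_zero _

theorem ot_mem {A : Set (X × X)} (hA : ∀ y ∈ A, Prod.swap y ∈ A) {k : ℕ}
    {c : Sing (X × X) k →₀ ZMod 2} (h : c ∈ supp (ZMod 2) A k) : ot k c ∈ supp (ZMod 2) A k :=
  add_mem h (swp_mem_supp hA h)

theorem BD_eq (c : BSeq X) (i : ℕ) :
    BD c i = bd (ZMod 2) (X × X) i (c (i + 1)) + ot i (c i) := by
  rw [BD, ot_apply, add_assoc]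

theorem BD_add (c d : BSeq X) (i : ℕ) : BD (c + d) i = BD c i + BD d i := by
  simp only [BD_eq, Pi.add_apply, map_add]
  abel

theorem BD_BD (c : BSeq X) (i : ℕ) : BD (BD c) i = 0 := by
  rw [BD_eq, BD_eq, BD_eq, map_add, map_add, bd_bd, bd_ot, ot_ot, zero_add, add_zero, two]

theorem BD_theta (a : Sing X 0 →₀ ZMod 2) (i : ℕ) : BD (theta a) i = 0 := by
  cases i with
  | zero =>
    rw [BD_eq, ot_apply]
    simp only [theta, map_zero, zero_add, swp, push_push]
    exact two _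
  | succ i => rw [BD_eq]; simp only [theta, map_zero, add_zero]

/-- A filtration by unions of swapped pairs of acyclic open sets. -/
structure Filt (n : ℕ) (A F : ℕ → Set (X × X)) : Prop where
  isOpen : ∀ j < n, IsOpen (A j)
  acyc : ∀ j < n, SAcyc (ZMod 2) (A j)
  zero : F 0 = ∅
  union : ∀ j < n, F (j + 1) = A j ∪ Prod.swap ⁻¹' A j
  inter : ∀ j < n, F j = A j ∩ Prod.swap ⁻¹' A j

variable {n : ℕ} {A F : ℕ → Set (X × X)}

theorem Filt.isOpen' (h : Filt n A F) {j : ℕ} (hj : j < n) : IsOpen (Prod.swap ⁻¹' A j) :=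
  (h.isOpen j hj).preimage continuous_swap

theorem Filt.acyc' (h : Filt n A F) {j : ℕ} (hj : j < n) :
    SAcyc (ZMod 2) (Prod.swap ⁻¹' A j) := by
  rw [← Set.image_swap_eq_preimage_swap]
  exact (h.acyc j hj).image ⟨Prod.swap, continuous_swap⟩ (Homeomorph.prodComm X X).isEmbedding

theorem Filt.symm (h : Filt n A F) {j : ℕ} (hj : j ≤ n) : ∀ y ∈ F j, Prod.swap y ∈ F j := by
  cases j with
  | zero => rw [h.zero]; exact fun _ hy => hy.elim
  | succ j =>
    rw [h.union j hj]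
    rintro y (hy | hy)
    · exact Or.inr hy
    · exact Or.inl hy

theorem Filt.sub (h : Filt n A F) {j : ℕ} (hj : j < n) : A j ⊆ F (j + 1) := by
  rw [h.union j hj]; exact Set.subset_union_left

theorem Filt.sub' (h : Filt n A F) {j : ℕ} (hj : j < n) : F j ⊆ A j := by
  rw [h.inter j hj]; exact Set.inter_subset_left

theorem Filt.mono (h : Filt n A F) {i j : ℕ} (hij : i ≤ j) (hj : j ≤ n) : F i ⊆ F j := by
  induction hij with
  | refl => exact subset_rfl
  | step _ ih => exact (ih (by omega)).trans ((h.sub' hj).trans (h.sub hj))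

theorem Filt.nonempty (h : Filt n A F) {j : ℕ} (h0 : 0 < j) (hj : j ≤ n) : (F j).Nonempty :=
  (h.acyc 0 (by omega)).nonempty.mono ((h.sub (by omega)).trans (h.mono h0 hj))

/-- The hemispheres. -/
structure Hemi (n : ℕ) (A : ℕ → Set (X × X)) (s : BSeq X) : Prop where
  mem : ∀ i < n, s i ∈ supp (ZMod 2) (A i) i
  aug : aug (ZMod 2) (X × X) (s 0) = 1
  bd : ∀ i, i + 1 < n → bd (ZMod 2) (X × X) i (s (i + 1)) = ot i (s i)

theorem Hemi.cyc {s : BSeq X} (hs : Hemi n A s) {i : ℕ} (hi : i < n) : Cyc i (ot i (s i)) := by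
  cases i with
  | zero => exact aug_ot _
  | succ i =>
    change Pool.Agent.MP_4f4d9f_gt.bd (ZMod 2) (X × X) i _ = 0
    rw [bd_ot, hs.bd i hi, ot_ot]

theorem Filt.ot_mem (h : Filt n A F) {j k : ℕ} (hj : j < n) {c : Sing (X × X) k →₀ ZMod 2}
    (hc : c ∈ supp (ZMod 2) (A j) k) : ot k c ∈ supp (ZMod 2) (F (j + 1)) k :=
  Loc.ot_mem (h.symm hj) (supp_mono (h.sub hj) k hc)

theorem Filt.hemi (h : Filt (n + 1) A F) : ∃ s : BSeq X, Hemi (n + 1) A s := by
  obtain ⟨y, hy⟩ := (h.acyc 0 (by omega)).nonempty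
  obtain ⟨s, h0, h1, h2⟩ := exists_seq (α := fun i => Sing (X × X) i →₀ ZMod 2)
    (fun i x => x ∈ supp (ZMod 2) (A i) i ∧ Cyc i (ot i x))
    (fun i x y => bd (ZMod 2) (X × X) i y = ot i x) n (single (pt y) 1)
    ⟨single_mem_supp 1 fun _ => hy, aug_ot _⟩ (by
      rintro i hi x ⟨hx, hc⟩
      obtain ⟨w, hw, hw'⟩ := bnd_of_sacyc (h.acyc (i + 1) (by omega))
        (supp_mono (h.sub' (by omega)) i (h.ot_mem (by omega) hx)) hc
      refine ⟨w, ⟨hw, ?_⟩, hw'⟩
      change bd (ZMod 2) (X × X) i _ = 0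
      rw [bd_ot, hw', ot_ot])
  exact ⟨s, fun i hi => (h1 i (by omega)).1, by rw [h0, aug_single], fun i hi => h2 i (by omega)⟩

theorem zmod2 (a : ZMod 2) : a = 0 ∨ a = 1 := by revert a; decide

/-- The homology of the pieces of the filtration, upper bound. -/
theorem Filt.hom (h : Filt n A F) {s : BSeq X} (hs : Hemi n A s) (j : ℕ) (hj : j < n) :
    ∀ i ≤ j, ∀ z ∈ supp (ZMod 2) (F (j + 1)) i, Cyc i z →
      Bnd (F (j + 1)) i z ∨ (i = j ∧ Bnd (F (j + 1)) i (z + ot i (s i))) := by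
  induction j with
  | zero =>
    intro i hi z hz hc
    obtain rfl : i = 0 := by omega
    rw [h.union 0 hj] at hz ⊢
    obtain ⟨u, hu, v, hv, huv⟩ := split (h.isOpen 0 hj) (h.isOpen' hj) hz hc
    rcases zmod2 (aug (ZMod 2) (X × X) u) with h0 | h0
    · exact Or.inl (glue (h.acyc 0 hj) (h.acyc' hj) hc hu hv huv (zero_mem _)
        (by rw [add_zero]; exact h0))
    · refine Or.inr ⟨rfl, glue (u := u + s 0) (v := v + swp (ZMod 2) X 0 (s 0)) (h.acyc 0 hj)
        (h.acyc' hj) (hc.add (hs.cyc hj)) (add_mem hu (hs.mem 0 hj))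
        (add_mem hv (swp_mem_supp (fun y hy => hy) (hs.mem 0 hj))) ?_ (zero_mem _) ?_⟩
      · convert huv using 1
        rw [ot_apply]
        linear_combination (norm := abel1) two (s 0) + two (swp (ZMod 2) X 0 (s 0))
      · change aug (ZMod 2) (X × X) _ = 0
        rw [add_zero, map_add, h0, hs.aug]
        rfl
  | succ j ih =>
    intro i hi z hz hc
    rw [h.union _ hj] at hz ⊢
    obtain ⟨u, hu, v, hv, huv⟩ := split (h.isOpen _ hj) (h.isOpen' hj) hz hc
    cases i with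
    | zero =>
      obtain ⟨y, hy⟩ := h.nonempty (j := j + 1) (by omega) hj.le
      rw [h.inter _ hj] at hy
      refine Or.inl (glue (h.acyc _ hj) (h.acyc' hj) hc hu hv huv
        (single_mem_supp (σ := pt y) (aug (ZMod 2) (X × X) u) fun _ => hy) ?_)
      change aug (ZMod 2) (X × X) _ = 0
      rw [map_add, aug_single]
      exact CharTwo.add_self_eq_zero _
    | succ i =>
      have h1 : bd (ZMod 2) (X × X) i u = bd (ZMod 2) (X × X) i v := by
        have h2 : bd (ZMod 2) (X × X) i (z + (u + v)) = 0 := huv.cyc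
        rw [map_add, map_add, show bd (ZMod 2) (X × X) i z = 0 from hc, zero_add] at h2
        linear_combination (norm := abel1) h2 - two (bd (ZMod 2) (X × X) i v)
      have h2 : bd (ZMod 2) (X × X) i u ∈ supp (ZMod 2) (F (j + 1)) i := by
        rw [h.inter _ hj, supp_inter]
        exact ⟨bd_mem_supp hu, h1 ▸ bd_mem_supp hv⟩
      rcases ih (by omega) i (by omega) _ h2 (cyc_bd i u) with ⟨t, ht, ht'⟩ | ⟨rfl, t, ht, ht'⟩
      · rw [h.inter _ hj] at ht
        refine Or.inl (glue (h.acyc _ hj) (h.acyc' hj) hc hu hv huv ht ?_)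
        change bd (ZMod 2) (X × X) i _ = 0
        rw [map_add, ht', two]
      · rw [h.inter _ hj] at ht
        refine Or.inr ⟨rfl, glue (u := u + s (i + 1)) (v := v + swp (ZMod 2) X _ (s (i + 1)))
          (h.acyc _ hj) (h.acyc' hj) (hc.add (hs.cyc hj)) (add_mem hu (hs.mem _ hj))
          (add_mem hv (swp_mem_supp (fun y hy => hy) (hs.mem _ hj))) ?_ ht ?_⟩
        · convert huv using 1
          rw [ot_apply]
          linear_combination (norm := abel1) two (s (i + 1)) + two (swp (ZMod 2) X _ (s (i + 1)))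
        · change bd (ZMod 2) (X × X) i _ = 0
          rw [map_add, map_add, ht', hs.bd i hj, two]

/-- The fundamental cycle does not bound. -/
theorem Filt.not_bnd (h : Filt n A F) {s : BSeq X} (hs : Hemi n A s) (j : ℕ) (hj : j < n) :
    ¬ Bnd (F (j + 1)) j (ot j (s j)) := by
  have key : ∀ j < n, Bnd (F (j + 1)) j (ot j (s j)) → ∃ (m : ℕ) (w : Sing (X × X) (j + 1) →₀ ZMod 2),
      (sd (X × X) j ^ m) (s j) + bd (ZMod 2) (X × X) j w ∈ supp (ZMod 2) (F j) j := by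
    rintro j hj ⟨w, hw, hw'⟩
    rw [h.union j hj] at hw
    obtain ⟨m, hm⟩ := sd_small (h.isOpen j hj) (h.isOpen' hj) hw
    obtain ⟨u, hu, v, hv, huv⟩ := Submodule.mem_sup.1 (hm m le_rfl)
    refine ⟨m, u, ?_⟩
    have h1 := bd_sdpow j m w
    rw [← huv, hw', ot_apply, map_add, map_add] at h1
    have h2 : (sd (X × X) j ^ m) (s j) + bd (ZMod 2) (X × X) j u =
        (sd (X × X) j ^ m) (swp (ZMod 2) X j (s j)) + bd (ZMod 2) (X × X) j v := by
      linear_combination (norm := abel1) h1 + two ((sd (X × X) j ^ m) (s j)) -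
        two (bd (ZMod 2) (X × X) j v)
    rw [h.inter j hj, supp_inter]
    refine ⟨add_mem (sdpow_mem m (hs.mem j hj)) (bd_mem_supp hu), ?_⟩
    rw [h2]
    exact add_mem (sdpow_mem m (swp_mem_supp (fun y hy => hy) (hs.mem j hj))) (bd_mem_supp hv)
  induction j with
  | zero =>
    intro hb
    obtain ⟨m, w, hw⟩ := key 0 hj hb
    rw [h.zero] at hw
    have h1 := congrArg (aug (ZMod 2) (X × X)) (eq_zero_of_mem_supp_empty hw)
    rw [map_add, aug_bd, sdpow_zero, hs.aug, map_zero] at h1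
    exact absurd h1 (by decide)
  | succ j ih =>
    intro hb
    obtain ⟨m, w, hw⟩ := key _ hj hb
    refine ih (by omega) ?_
    have h1 := bnd_sdpow m (h.ot_mem (j := j) (by omega) (hs.mem j (by omega))) (hs.cyc (by omega))
    have h2 : Bnd (F (j + 1)) j ((sd (X × X) j ^ m) (ot j (s j))) :=
      ⟨_, hw, by rw [map_add, bd_bd, add_zero, bd_sdpow, hs.bd j hj]⟩
    convert h1.add h2 using 1
    rw [add_assoc, two, add_zero]

/-- There is no odd Borel cycle of degree `n` in `F n`. -/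
theorem Filt.no_odd (h : Filt n A F) (g : BSeq X) (hg : ∀ i ≤ n, g i ∈ supp (ZMod 2) (F n) i)
    (hg' : ∀ i < n, BD g i = 0) : aug (ZMod 2) (X × X) (g 0) = 0 := by
  cases n with
  | zero =>
    have h1 := hg 0 le_rfl
    rw [h.zero] at h1
    rw [eq_zero_of_mem_supp_empty h1, map_zero]
  | succ n =>
    refine (zmod2 _).resolve_right fun h1 => ?_
    obtain ⟨s, hs⟩ := h.hemi
    have hsF : ∀ i ≤ n, s i ∈ supp (ZMod 2) (F (n + 1)) i := fun i hi =>
      supp_mono ((h.sub (by omega)).trans (h.mono (by omega) le_rfl)) i (hs.mem i (by omega))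
    have hb : ∀ i ≤ n, bd (ZMod 2) (X × X) i (g (i + 1)) = ot i (g i) := fun i hi => by
      have h2 := hg' i (by omega)
      rw [BD_eq] at h2
      linear_combination (norm := abel1) h2 - two (ot i (g i))
    have key : ∀ i ≤ n, ∃ k ∈ supp (ZMod 2) (F (n + 1)) i, Cyc i (g i + s i + ot i k) := by
      intro i
      induction i with
      | zero =>
        refine fun _ => ⟨0, zero_mem _, ?_⟩
        change aug (ZMod 2) (X × X) _ = 0
        rw [map_zero, add_zero, map_add, h1, hs.aug]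
        rfl
      | succ i ih =>
        intro hi
        obtain ⟨k, hk, hc⟩ := ih (by omega)
        obtain ⟨w, hw, hw'⟩ := (h.hom hs n (by omega) i (by omega) _
          (add_mem (add_mem (hg i (by omega)) (hsF i (by omega))) (Loc.ot_mem (h.symm le_rfl) hk))
          hc).resolve_right (fun h' => by omega)
        refine ⟨w, hw, ?_⟩
        change bd (ZMod 2) (X × X) i _ = 0
        rw [map_add, map_add, bd_ot, hw', hb i (by omega), hs.bd i (by omega), map_add, map_add,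
          ot_ot, add_zero, two]
    obtain ⟨k, hk, hc⟩ := key n le_rfl
    have h2 : ∃ w ∈ supp (ZMod 2) (F (n + 1)) (n + 1),
        ot n (bd (ZMod 2) (X × X) n w) = ot n (g n) + ot n (s n) := by
      rcases h.hom hs n (by omega) n le_rfl _
        (add_mem (add_mem (hg n (by omega)) (hsF n le_rfl)) (Loc.ot_mem (h.symm le_rfl) hk))
        hc with ⟨w, hw, hw'⟩ | ⟨-, w, hw, hw'⟩
      · exact ⟨w, hw, by rw [hw', map_add, map_add, ot_ot, add_zero]⟩
      · exact ⟨w, hw, by rw [hw', map_add, map_add, map_add, ot_ot, ot_ot, add_zero, add_zero]⟩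
    obtain ⟨w, hw, hw'⟩ := h2
    refine h.not_bnd hs n (by omega) ⟨ot (n + 1) w + g (n + 1),
      add_mem (Loc.ot_mem (h.symm le_rfl) hw) (hg _ le_rfl), ?_⟩
    rw [map_add, bd_ot, hw', hb n le_rfl]
    linear_combination (norm := abel1) two (ot n (g n))

variable {Q : Set (X × X)}

theorem Filt.rb_low (h : Filt n A F) (hQ : SAcyc (ZMod 2) Q) (hFQ : F n ⊆ Q) {i : ℕ} (hi : i < n)
    {c : Sing (X × X) i →₀ ZMod 2} (hc : c ∈ supp (ZMod 2) Q i) (hz : RZ (F n) i c) :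
    RB Q (F n) i c := by
  cases i with
  | zero =>
    obtain ⟨y, hy⟩ := h.nonempty hi le_rfl
    refine rb_of_cyc hQ hFQ hc
      (single_mem_supp (σ := pt y) (aug (ZMod 2) (X × X) c) fun _ => hy) ?_
    change aug (ZMod 2) (X × X) _ = 0
    rw [map_add, aug_single]
    exact CharTwo.add_self_eq_zero _
  | succ i =>
    obtain ⟨n, rfl⟩ : ∃ m, n = m + 1 := ⟨n - 1, by omega⟩
    obtain ⟨s, hs⟩ := h.hemi
    obtain ⟨t, ht, ht'⟩ := (h.hom hs n (by omega) i (by omega) _ hz (cyc_bd i c)).resolve_right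
      (fun h' => by omega)
    refine rb_of_cyc hQ hFQ hc ht ?_
    change bd (ZMod 2) (X × X) i _ = 0
    rw [map_add, ht', two]

theorem Filt.rb_top (h : Filt n A F) (hQ : SAcyc (ZMod 2) Q) (hFQ : F n ⊆ Q)
    {c d : Sing (X × X) n →₀ ZMod 2} (hc : c ∈ supp (ZMod 2) Q n) (hz : RZ (F n) n c)
    (hd : d ∈ supp (ZMod 2) Q n) (hz' : RZ (F n) n d) :
    RB Q (F n) n c ∨ RB Q (F n) n d ∨ RB Q (F n) n (c + d) := by
  cases n with
  | zero =>
    rcases zmod2 (aug (ZMod 2) (X × X) c) with h1 | h1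
    · exact Or.inl (rb_of_cyc hQ hFQ hc (zero_mem _) (by rw [add_zero]; exact h1))
    rcases zmod2 (aug (ZMod 2) (X × X) d) with h2 | h2
    · exact Or.inr (Or.inl (rb_of_cyc hQ hFQ hd (zero_mem _) (by rw [add_zero]; exact h2)))
    refine Or.inr (Or.inr (rb_of_cyc hQ hFQ (add_mem hc hd) (zero_mem _) ?_))
    change aug (ZMod 2) (X × X) _ = 0
    rw [add_zero, map_add, h1, h2]
    rfl
  | succ n =>
    obtain ⟨s, hs⟩ := h.hemi
    rcases h.hom hs n (by omega) n le_rfl _ hz (cyc_bd n c) with ⟨t, ht, ht'⟩ | ⟨-, t, ht, ht'⟩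
    · refine Or.inl (rb_of_cyc hQ hFQ hc ht ?_)
      change bd (ZMod 2) (X × X) n _ = 0
      rw [map_add, ht', two]
    rcases h.hom hs n (by omega) n le_rfl _ hz' (cyc_bd n d) with ⟨r, hr, hr'⟩ | ⟨-, r, hr, hr'⟩
    · refine Or.inr (Or.inl (rb_of_cyc hQ hFQ hd hr ?_))
      change bd (ZMod 2) (X × X) n _ = 0
      rw [map_add, hr', two]
    refine Or.inr (Or.inr (rb_of_cyc hQ hFQ (add_mem hc hd) (add_mem ht hr) ?_))
    change bd (ZMod 2) (X × X) n _ = 0
    rw [map_add, map_add, map_add, ht', hr']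
    linear_combination (norm := abel1) two (bd (ZMod 2) (X × X) n c) +
      two (bd (ZMod 2) (X × X) n d) + two (ot n (s n))

/-- Killing the leading terms of a relative Borel cycle. -/
theorem Filt.kill (h : Filt n A F) (hQ : SAcyc (ZMod 2) Q) (hFQ : F n ⊆ Q)
    (hQs : ∀ y ∈ Q, Prod.swap y ∈ Q) {j : ℕ} (hj : j ≤ n) {c : BSeq X} (hc : RelCyc Q (F n) j c) :
    ∃ b : BSeq X, (∀ i ≤ j, b i ∈ supp (ZMod 2) Q i) ∧
      (∀ i < j, c i + BD b i ∈ supp (ZMod 2) (F n) i) ∧ RZ (F n) j (c j + ot j (b j)) := by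
  obtain ⟨b, -, h1, h2⟩ := exists_seq (α := fun i => Sing (X × X) i →₀ ZMod 2)
    (fun i x => x ∈ supp (ZMod 2) Q i ∧ RZ (F n) i (c i + ot i x))
    (fun i x y => c i + ot i x + bd (ZMod 2) (X × X) i y ∈ supp (ZMod 2) (F n) i) j 0
    ⟨zero_mem _, trivial⟩ (by
      rintro i hi x ⟨hx, hz⟩
      obtain ⟨w, hw, hw'⟩ := h.rb_low hQ hFQ (by omega)
        (add_mem (hc.1 i hi.le) (Loc.ot_mem hQs hx)) hz
      refine ⟨w, ⟨hw, ?_⟩, hw'⟩
      change bd (ZMod 2) (X × X) i _ ∈ _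
      have h3 := add_mem (hc.2 i hi) (Loc.ot_mem (h.symm le_rfl) hw')
      rw [BD_eq, map_add, map_add, ot_ot, add_zero] at h3
      rw [map_add, bd_ot]
      convert h3 using 1
      linear_combination (norm := abel1) -two (ot i (c i)))
  refine ⟨b, fun i hi => (h1 i hi).1, fun i hi => ?_, (h1 j le_rfl).2⟩
  rw [BD_eq]
  convert h2 i hi using 1
  abel

theorem relBd_of_rb {B : Set (X × X)} {j : ℕ} {c b : BSeq X}
    (h1 : ∀ i ≤ j, b i ∈ supp (ZMod 2) Q i) (h2 : ∀ i < j, c i + BD b i ∈ supp (ZMod 2) B i)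
    (h3 : RB Q B j (c j + ot j (b j))) : RelBd Q B j c := by
  obtain ⟨w, hw, hw'⟩ := h3
  refine ⟨Function.update b (j + 1) w, fun i hi => ?_, fun i hi => ?_⟩
  · rcases eq_or_lt_of_le hi with rfl | hi
    · rw [Function.update_self]; exact hw
    · rw [Function.update_of_ne hi.ne]; exact h1 i (by omega)
  · rcases eq_or_lt_of_le hi with rfl | hi
    · rw [BD_eq, Function.update_self, Function.update_of_ne (by omega)]
      convert hw' using 1
      abel
    · rw [BD_eq, Function.update_of_ne (by omega), Function.update_of_ne (by omega), ← BD_eq]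
      exact h2 i hi

theorem Filt.propP (h : Filt n A F) {U : Set X} (hQ : SAcyc (ZMod 2) (U ×ˢ U))
    (hFQ : F n ⊆ U ×ˢ U) : PropP n (U ×ˢ U) (F n) U := by
  have hQs : ∀ y ∈ U ×ˢ U, Prod.swap y ∈ U ×ˢ U := fun y hy => ⟨hy.2, hy.1⟩
  have hodd : ∀ a : Sing X 0 →₀ ZMod 2, RelBd (U ×ˢ U) (F n) n (theta a) →
      aug (ZMod 2) X a = 0 := by
    rintro a ⟨b, -, hb⟩
    have h1 := h.no_odd (theta a + BD b) hb fun i _ => by rw [BD_add, BD_theta, BD_BD, add_zero]
    rw [Pi.add_apply, BD_eq, map_add, map_add, aug_bd, aug_ot, add_zero, add_zero] at h1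
    simpa only [theta, aug_push] using h1
  refine ⟨fun j hj c hc => ?_, fun c hc => ?_, fun a _ => hodd a⟩
  · obtain ⟨b, h1, h2, h3⟩ := h.kill hQ hFQ hQs hj.le hc
    exact relBd_of_rb h1 h2
      (h.rb_low hQ hFQ hj (add_mem (hc.1 j le_rfl) (Loc.ot_mem hQs (h1 j le_rfl))) h3)
  · obtain ⟨y, hy⟩ := hQ.nonempty
    have ha : single (pt y.1) (1 : ZMod 2) ∈ supp (ZMod 2) U 0 := single_mem_supp 1 fun _ => hy.1
    have hc' : RelCyc (U ×ˢ U) (F n) n (theta (single (pt y.1) 1)) := by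
      refine ⟨fun i _ => ?_, fun i _ => by rw [BD_theta]; exact zero_mem _⟩
      cases i with
      | zero => exact push_mem_supp _ (fun x hx => Set.mk_mem_prod hx hx) ha
      | succ i => exact zero_mem _
    obtain ⟨b, h1, h2, h3⟩ := h.kill hQ hFQ hQs le_rfl hc
    obtain ⟨b', h1', h2', h3'⟩ := h.kill hQ hFQ hQs le_rfl hc'
    rcases h.rb_top hQ hFQ (add_mem (hc.1 n le_rfl) (Loc.ot_mem hQs (h1 n le_rfl))) h3
      (add_mem (hc'.1 n le_rfl) (Loc.ot_mem hQs (h1' n le_rfl))) h3' with h4 | h4 | h4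
    · refine ⟨0, zero_mem _, ?_⟩
      have h5 : theta (0 : Sing X 0 →₀ ZMod 2) = 0 := by
        funext i
        cases i with
        | zero => exact map_zero _
        | succ i => rfl
      rw [h5, add_zero]
      exact relBd_of_rb h1 h2 h4
    · have h5 := hodd _ (relBd_of_rb h1' h2' h4)
      rw [aug_single] at h5
      exact absurd h5 (by decide)
    · refine ⟨_, ha, relBd_of_rb (b := b + b') (fun i hi => add_mem (h1 i hi) (h1' i hi))
        (fun i hi => ?_) ?_⟩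
      · rw [BD_add, Pi.add_apply]
        convert add_mem (h2 i hi) (h2' i hi) using 1
        abel
      · rw [Pi.add_apply, Pi.add_apply, map_add]
        convert h4 using 1
        abel

end Abstract

section Geometry

variable {n : ℕ} {W : Set (EuclideanSpace ℝ (Fin n))} {X : Type} [TopologicalSpace X]

theorem sacyc_star (f : C(W, X)) (hf : Topology.IsEmbedding f)
    {S : Set (EuclideanSpace ℝ (Fin n) × EuclideanSpace ℝ (Fin n))}
    {p : EuclideanSpace ℝ (Fin n) × EuclideanSpace ℝ (Fin n)} (hp : p ∈ W ×ˢ W ∩ S)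
    (hS : StarConvex ℝ p (W ×ˢ W ∩ S)) :
    SAcyc (ZMod 2) (Prod.map f f '' {q : W × W | (q.1.1, q.2.1) ∈ S}) := by
  have := hS.contractibleSpace ⟨p, hp⟩
  let ι : C(↥(W ×ˢ W ∩ S), W × W) :=
    ⟨fun q => (⟨q.1.1, q.2.1.1⟩, ⟨q.1.2, q.2.1.2⟩), by fun_prop⟩
  have hι : Topology.IsEmbedding ι := by
    refine Topology.IsEmbedding.of_comp ι.continuous
      (continuous_subtype_val.prodMap continuous_subtype_val) ?_
    exact Topology.IsEmbedding.subtypeVal
  have h1 := ((acyclic_of_contractible (ZMod 2) ↥(W ×ˢ W ∩ S)).sacyc_univ.image ι hι).image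
    (f.prodMap f) (hf.prodMap hf)
  have h2 : {q : W × W | (q.1.1, q.2.1) ∈ S} = ι '' Set.univ := by
    ext q
    constructor
    · exact fun hq => ⟨⟨(q.1.1, q.2.1), ⟨q.1.2, q.2.2⟩, hq⟩, trivial, rfl⟩
    · rintro ⟨r, -, rfl⟩
      exact r.2.2
  rw [h2]
  exact h1

/-- Pairs that differ in one of the first `j` coordinates. -/
def FF (n j : ℕ) : Set (EuclideanSpace ℝ (Fin n) × EuclideanSpace ℝ (Fin n)) :=
  {p | ∃ i : Fin n, (i : ℕ) < j ∧ p.1 i ≠ p.2 i}

/-- The upper piece. -/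
def AA (n j : ℕ) : Set (EuclideanSpace ℝ (Fin n) × EuclideanSpace ℝ (Fin n)) :=
  FF n j ∪ {p | ∃ i : Fin n, (i : ℕ) = j ∧ p.2 i < p.1 i}

theorem isOpen_AA (j : ℕ) : IsOpen (AA n j) := by
  refine IsOpen.union ?_ ?_
  · simp only [FF, Set.ofPred_exists]
    refine isOpen_iUnion fun i => IsOpen.inter isOpen_const ?_
    exact isOpen_ne_fun (by fun_prop) (by fun_prop)
  · simp only [Set.ofPred_exists]
    refine isOpen_iUnion fun i => IsOpen.inter isOpen_const ?_
    exact isOpen_lt (f := fun p : EuclideanSpace ℝ (Fin n) × EuclideanSpace ℝ (Fin n) => p.2 i)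
      (g := fun p => p.1 i) (by fun_prop) (by fun_prop)

theorem star_AA (hW : Convex ℝ W) (hW' : (interior W).Nonempty) {j : ℕ} (hj : j < n) :
    ∃ p ∈ W ×ˢ W ∩ AA n j, StarConvex ℝ p (W ×ˢ W ∩ AA n j) := by
  obtain ⟨x, hx⟩ := hW'
  obtain ⟨ε, hε, hb⟩ := Metric.isOpen_iff.1 isOpen_interior x hx
  have hx' : x + EuclideanSpace.single ⟨j, hj⟩ (ε / 2) ∈ W := by
    refine interior_subset (hb ?_)
    rw [Metric.mem_ball, dist_eq_norm, add_sub_cancel_left, PiLp.norm_single,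
      Real.norm_eq_abs, abs_of_pos (by linarith)]
    linarith
  have hp : (x + EuclideanSpace.single ⟨j, hj⟩ (ε / 2), x) ∈ W ×ˢ W := ⟨hx', interior_subset hx⟩
  have hp' : (x + EuclideanSpace.single ⟨j, hj⟩ (ε / 2), x) ∈ AA n j :=
    Or.inr ⟨⟨j, hj⟩, rfl, by simp [hε]⟩
  refine ⟨_, ⟨hp, hp'⟩, ((hW.prod hW).starConvex hp).inter ?_⟩
  intro q hq a b ha hb' hab
  rcases eq_or_lt_of_le hb' with rfl | hb'
  · rw [add_zero] at hab
    rw [hab, one_smul, zero_smul, add_zero]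
    exact hp'
  rcases hq with ⟨i, hi, hq⟩ | ⟨i, hi, hq⟩
  · refine Or.inl ⟨i, hi, ?_⟩
    have hne : i ≠ ⟨j, hj⟩ := fun h => by rw [h] at hi; exact lt_irrefl _ hi
    simp only [Prod.fst_add, Prod.smul_fst, Prod.snd_add, Prod.smul_snd, PiLp.add_apply,
      PiLp.smul_apply, smul_eq_mul, PiLp.single_apply, if_neg hne, add_zero]
    intro h
    exact hq (mul_left_cancel₀ hb'.ne' (add_left_cancel h))
  · refine Or.inr ⟨i, hi, ?_⟩
    have he : i = ⟨j, hj⟩ := Fin.ext hi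
    simp only [Prod.fst_add, Prod.smul_fst, Prod.snd_add, Prod.smul_snd, PiLp.add_apply,
      PiLp.smul_apply, smul_eq_mul, PiLp.single_apply, if_pos he]
    nlinarith [mul_pos hb' (sub_pos.2 hq), mul_nonneg ha hε.le]

theorem FF_union {j : ℕ} (p : EuclideanSpace ℝ (Fin n) × EuclideanSpace ℝ (Fin n)) :
    p ∈ FF n (j + 1) ↔ p ∈ AA n j ∨ p.swap ∈ AA n j := by
  constructor
  · rintro ⟨i, hi, h⟩
    rcases Nat.lt_succ_iff_lt_or_eq.1 hi with hi | hi
    · exact Or.inl (Or.inl ⟨i, hi, h⟩)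
    · rcases lt_or_gt_of_ne h with h | h
      · exact Or.inr (Or.inr ⟨i, hi, h⟩)
      · exact Or.inl (Or.inr ⟨i, hi, h⟩)
  · rintro ((⟨i, hi, h⟩ | ⟨i, hi, h⟩) | (⟨i, hi, h⟩ | ⟨i, hi, h⟩))
    · exact ⟨i, by omega, h⟩
    · exact ⟨i, by omega, h.ne'⟩
    · exact ⟨i, by omega, Ne.symm h⟩
    · exact ⟨i, by omega, h.ne⟩

theorem FF_inter {j : ℕ} (p : EuclideanSpace ℝ (Fin n) × EuclideanSpace ℝ (Fin n)) :
    p ∈ FF n j ↔ p ∈ AA n j ∧ p.swap ∈ AA n j := by
  constructor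
  · rintro ⟨i, hi, h⟩
    exact ⟨Or.inl ⟨i, hi, h⟩, Or.inl ⟨i, hi, Ne.symm h⟩⟩
  · rintro ⟨h | ⟨i, hi, h⟩, ⟨i', hi', h'⟩ | ⟨i', hi', h'⟩⟩
    · exact h
    · exact h
    · exact ⟨i', hi', Ne.symm h'⟩
    · obtain rfl : i = i' := Fin.ext (hi.trans hi'.symm)
      exact absurd h' (not_lt.2 h.le)

end Geometry

end Loc

open Loc in
/-- Part (D), local computation: `U` is the image of a convex set with nonempty interior. -/
theorem propP_local {n : ℕ} {W : Set (EuclideanSpace ℝ (Fin n))} (hW : Convex ℝ W)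
    (hW' : (interior W).Nonempty) {X : Type} [TopologicalSpace X]
    (f : C(W, X)) (hf : Topology.IsOpenEmbedding f) :
    PropP n (Set.range f ×ˢ Set.range f) (offDiag X ∩ Set.range f ×ˢ Set.range f)
      (Set.range f) := by
  have hg := hf.prodMap hf
  have hsw : ∀ (S : Set (EuclideanSpace ℝ (Fin n) × EuclideanSpace ℝ (Fin n))),
      Prod.swap ⁻¹' (Prod.map f f '' {q : W × W | (q.1.1, q.2.1) ∈ S}) =
        Prod.map f f '' {q : W × W | (q.2.1, q.1.1) ∈ S} := by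
    intro S
    ext y
    constructor
    · rintro ⟨q, hq, h⟩
      exact ⟨q.swap, hq, congrArg Prod.swap h⟩
    · rintro ⟨q, hq, rfl⟩
      exact ⟨q.swap, hq, rfl⟩
  have hF : Filt n (fun j => Prod.map f f '' {q : W × W | (q.1.1, q.2.1) ∈ AA n j})
      (fun j => Prod.map f f '' {q : W × W | (q.1.1, q.2.1) ∈ FF n j}) := by
    refine ⟨fun j _ => hg.isOpenMap _ ((isOpen_AA j).preimage (by fun_prop)), fun j hj => ?_, ?_,
      fun j _ => ?_, fun j _ => ?_⟩
    · obtain ⟨p, hp, hS⟩ := star_AA hW hW' hj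
      exact sacyc_star f hf.isEmbedding hp hS
    · rw [Set.image_eq_empty, Set.eq_empty_iff_forall_notMem]
      rintro q ⟨i, hi, -⟩
      exact Nat.not_lt_zero _ hi
    · rw [hsw, ← Set.image_union]
      congr 1
      ext q
      exact FF_union _
    · rw [hsw, ← Set.image_inter hg.injective]
      congr 1
      ext q
      exact FF_inter _
  have hn : Prod.map f f '' {q : W × W | (q.1.1, q.2.1) ∈ FF n n} =
      offDiag X ∩ Set.range f ×ˢ Set.range f := by
    ext y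
    constructor
    · rintro ⟨q, ⟨i, -, h⟩, rfl⟩
      refine ⟨fun h' => h ?_, ⟨_, rfl⟩, ⟨_, rfl⟩⟩
      have h1 : q.1 = q.2 := hf.injective h'
      rw [h1]
    · rintro ⟨h, ⟨a, ha⟩, ⟨b, hb⟩⟩
      refine ⟨(a, b), ?_, Prod.ext ha hb⟩
      by_contra hc
      refine h ?_
      rw [← ha, ← hb]
      congr 1
      ext i
      by_contra hne
      exact hc ⟨i, i.2, hne⟩
  obtain ⟨x, hx⟩ := hW'
  have hx' : (x, x) ∈ W ×ˢ W := ⟨interior_subset hx, interior_subset hx⟩
  have hQ := sacyc_star f hf.isEmbedding (S := Set.univ) (p := (x, x)) ⟨hx', trivial⟩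
    (by rw [Set.inter_univ]; exact (hW.prod hW).starConvex hx')
  have hQ' : SAcyc (ZMod 2) (Set.range f ×ˢ Set.range f) := by
    convert hQ using 1
    rw [← Set.range_prodMap, ← Set.image_univ]
    rfl
  have h := hF.propP hQ' (by rw [hn]; exact Set.inter_subset_right)
  rwa [hn] at h

end Pool.Agent.MP_4f4d9f_gt

end
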