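import Pool.Agent.MP_4f4d9f_gt.CoreA
import Pool.Agent.MP_4f4d9f_gt.SingBasic
import Pool.Agent.Mg.F4f4d9fr.G37f4e9
import Pool.Agent.MP_4f4d9f_gt.Cone
import Pool.Agent.MP_4f4d9f_gt.TensLem

set_option linter.all false

section

/-! Part (A), second file: the alternation cochain and the descent. -/

open Finset

namespace Pool.Agent.MP_4f4d9f_gt

namespace CoreAux

section KyFan

variable {W : Type} [DecidableEq W] (r : W → ℕ)

/-- The elements of `σ` and `ρ` alternate, beginning with `σ`. -/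
def Alt (σ ρ : Finset W) : Prop :=
  (∀ a ∈ σ, (σ.filter fun x => r x < r a).card = (ρ.filter fun x => r x < r a).card) ∧
  ∀ b ∈ ρ, (σ.filter fun x => r x < r b).card = (ρ.filter fun x => r x < r b).card + 1

open Classical in
/-- The alternation cochain. -/
noncomputable def al (σ ρ : Finset W) : ZMod 2 := if Alt r σ ρ then 1 else 0

variable {r}

omit [DecidableEq W] in
lemma al_congr {σ ρ σ' ρ' : Finset W} (h : Alt r σ ρ ↔ Alt r σ' ρ') : al r σ ρ = al r σ' ρ' := by
  unfold al
  rw [propext h]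

lemma card_filter_insert {m : W} {σ : Finset W} (hm : m ∉ σ) {n : ℕ} (h : r m < n) :
    ((insert m σ).filter fun x => r x < n).card = (σ.filter fun x => r x < n).card + 1 := by
  rw [filter_insert, if_pos h, card_insert_of_notMem (fun h' => hm (mem_filter.1 h').1)]

omit [DecidableEq W] in
lemma card_filter_min {σ : Finset W} {n : ℕ} (h : ∀ x ∈ σ, n ≤ r x) :
    (σ.filter fun x => r x < n).card = 0 := by
  rw [card_eq_zero, filter_eq_empty_iff]
  exact fun x hx => not_lt.2 (h x hx)

lemma al_insert_left {m : W} {σ ρ : Finset W} (h1 : ∀ x ∈ σ, r m < r x)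
    (h2 : ∀ x ∈ ρ, r m < r x) : al r (insert m σ) ρ = al r ρ σ := by
  have hm : m ∉ σ := fun h => lt_irrefl _ (h1 m h)
  refine al_congr ?_
  simp only [Alt, forall_mem_insert]
  have e1 : ((insert m σ).filter fun x => r x < r m).card = 0 :=
    card_filter_min (by
      simp only [forall_mem_insert]
      exact ⟨le_rfl, fun x hx => (h1 x hx).le⟩)
  have e2 : (ρ.filter fun x => r x < r m).card = 0 := card_filter_min fun x hx => (h2 x hx).le
  constructor
  · rintro ⟨⟨-, ha⟩, hb⟩
    refine ⟨fun b hb' => ?_, fun a ha' => ?_⟩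
    · have := hb b hb'
      rw [card_filter_insert hm (h2 b hb')] at this
      omega
    · have := ha a ha'
      rw [card_filter_insert hm (h1 a ha')] at this
      omega
  · rintro ⟨hb, ha⟩
    refine ⟨⟨by rw [e1, e2], fun a ha' => ?_⟩, fun b hb' => ?_⟩
    · rw [card_filter_insert hm (h1 a ha'), ha a ha']
    · rw [card_filter_insert hm (h2 b hb'), hb b hb']

omit [DecidableEq W] in
lemma al_min_right {m : W} {σ ρ : Finset W} (hm : m ∈ ρ) (h1 : ∀ x ∈ σ, r m ≤ r x) :
    al r σ ρ = 0 := by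
  refine if_neg fun h => ?_
  have := h.2 m hm
  rw [card_filter_min h1] at this
  omega

lemma kyfan (hr : Function.Injective r) (n : ℕ) : ∀ σ ρ : Finset W, Disjoint σ ρ →
    σ.card + ρ.card = n →
    ∑ a ∈ σ, al r (σ.erase a) ρ + ∑ b ∈ ρ, al r σ (ρ.erase b) = al r σ ρ + al r ρ σ := by
  induction n with
  | zero =>
    intro σ ρ _ hn
    obtain rfl : σ = ∅ := card_eq_zero.1 (by omega)
    obtain rfl : ρ = ∅ := card_eq_zero.1 (by omega)
    rw [two, sum_empty, sum_empty, add_zero]
  | succ n ih =>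
    intro σ ρ hd hn
    have hne : (σ ∪ ρ).Nonempty := by
      rw [← card_pos, card_union_of_disjoint hd]; omega
    obtain ⟨m, hm, hmin⟩ := exists_min_image _ r hne
    have hlt : ∀ x ∈ σ ∪ ρ, x ≠ m → r m < r x := fun x hx hxm =>
      lt_of_le_of_ne (hmin x hx) fun h => hxm (hr h).symm
    rcases mem_union.1 hm with hm | hm
    · obtain ⟨σ', hm', rfl⟩ : ∃ σ', m ∉ σ' ∧ insert m σ' = σ :=
        ⟨σ.erase m, notMem_erase _ _, insert_erase hm⟩
      have h1 : ∀ x ∈ σ', r m < r x := fun x hx =>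
        hlt x (mem_union_left _ (mem_insert_of_mem hx)) fun h => hm' (h ▸ hx)
      have h2 : ∀ x ∈ ρ, r m < r x := fun x hx =>
        hlt x (mem_union_right _ hx) fun h => disjoint_left.1 hd hm (h ▸ hx)
      have e1 : ∀ a ∈ σ', al r ((insert m σ').erase a) ρ = al r ρ (σ'.erase a) := fun a ha => by
        rw [erase_insert_of_ne (fun h : m = a => hm' (h ▸ ha)),
          al_insert_left (fun x hx => h1 x (mem_of_mem_erase hx)) h2]
      have e2 : ∀ b ∈ ρ, al r (insert m σ') (ρ.erase b) = al r (ρ.erase b) σ' := fun b _ =>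
        al_insert_left h1 fun x hx => h2 x (mem_of_mem_erase hx)
      have ih' := ih ρ σ' (hd.symm.mono_right (subset_insert _ _)) (by
        rw [card_insert_of_notMem hm'] at hn; omega)
      rw [sum_insert hm', erase_insert hm', sum_congr rfl e1, sum_congr rfl e2, add_assoc,
        add_comm (∑ a ∈ σ', _), ih', al_insert_left h1 h2,
        al_min_right hm fun x hx => (h2 x hx).le, add_zero, add_comm (al r ρ σ'), ← add_assoc, two,
        zero_add]
    · obtain ⟨ρ', hm', rfl⟩ : ∃ ρ', m ∉ ρ' ∧ insert m ρ' = ρ :=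
        ⟨ρ.erase m, notMem_erase _ _, insert_erase hm⟩
      have h1 : ∀ x ∈ ρ', r m < r x := fun x hx =>
        hlt x (mem_union_right _ (mem_insert_of_mem hx)) fun h => hm' (h ▸ hx)
      have h2 : ∀ x ∈ σ, r m < r x := fun x hx =>
        hlt x (mem_union_left _ hx) fun h => disjoint_left.1 hd (h ▸ hx) hm
      rw [sum_insert hm', erase_insert hm', al_insert_left h1 h2,
        al_min_right hm fun x hx => (h2 x hx).le, sum_eq_zero, sum_eq_zero, add_zero]
      · intro b hb
        exact al_min_right (mem_erase.2 ⟨fun h : m = b => hm' (h ▸ hb), hm⟩) fun x hx => (h2 x hx).le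
      · intro a _
        exact al_min_right hm fun x hx => (h2 x (mem_of_mem_erase hx)).le

end KyFan

section Descent

variable {V : Type} [DecidableEq V]

lemma dbd_single (c : DCell V) : dbd (Finsupp.single c 1) =
    ∑ a ∈ c.1, Finsupp.single (c.1.erase a, c.2) (1 : ZMod 2) +
      ∑ a ∈ c.2, Finsupp.single (c.1, c.2.erase a) 1 := by
  simp [dbd]

omit [DecidableEq V] in
lemma dswp_single (c : DCell V) (t : ZMod 2) :
    dswp (Finsupp.single c t) = Finsupp.single c.swap t := by
  simp [dswp]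

lemma dbd_dbd (x : DCell V →₀ ZMod 2) : dbd (dbd x) = 0 := by
  have : (dbd ∘ₗ dbd : (DCell V →₀ ZMod 2) →ₗ[ZMod 2] _) = 0 := by
    refine Finsupp.lhom_ext' fun c => LinearMap.ext_ring ?_
    simp only [LinearMap.comp_apply, Finsupp.lsingle_apply, dbd_single, map_add, map_sum,
      sum_add_distrib, LinearMap.zero_apply]
    rw [sum_erase_symm c.1 (fun a b => Finsupp.single ((c.1.erase a).erase b, c.2) (1 : ZMod 2))
        fun a b => by rw [erase_right_comm],
      sum_erase_symm c.2 (fun a b => Finsupp.single (c.1, (c.2.erase a).erase b) (1 : ZMod 2))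
        fun a b => by rw [erase_right_comm], zero_add, add_zero, sum_comm, two]
  exact LinearMap.congr_fun this x

lemma dswp_dbd (x : DCell V →₀ ZMod 2) : dswp (dbd x) = dbd (dswp x) := by
  have : (dswp ∘ₗ dbd : (DCell V →₀ ZMod 2) →ₗ[ZMod 2] _) = dbd ∘ₗ dswp := by
    refine Finsupp.lhom_ext' fun c => LinearMap.ext_ring ?_
    simp only [LinearMap.comp_apply, Finsupp.lsingle_apply, dbd_single, map_add, map_sum,
      dswp_single, Prod.swap_prod_mk, Prod.fst_swap, Prod.snd_swap]
    rw [add_comm]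
  exact LinearMap.congr_fun this x

omit [DecidableEq V] in
lemma dswp_apply (x : DCell V →₀ ZMod 2) (c : DCell V) : dswp x c = x c.swap := by
  have := Finsupp.mapDomain_apply Prod.swap_injective x c.swap
  rw [Prod.swap_swap] at this
  exact this

/-- Chains supported on good cells. -/
def GoodChain (Γ : SimpleGraph V) (i : ℕ) : Submodule (ZMod 2) (DCell V →₀ ZMod 2) :=
  Finsupp.supported (ZMod 2) (ZMod 2) {c | GoodCell Γ i c}

omit [DecidableEq V] in
lemma mem_goodChain {Γ : SimpleGraph V} {i : ℕ} {x : DCell V →₀ ZMod 2} :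
    x ∈ GoodChain Γ i ↔ ∀ c ∈ x.support, GoodCell Γ i c := Iff.rfl

omit [DecidableEq V] in
lemma single_mem_goodChain {Γ : SimpleGraph V} {i : ℕ} {c : DCell V} (hc : GoodCell Γ i c) :
    Finsupp.single c 1 ∈ GoodChain Γ i := Finsupp.single_mem_supported _ _ hc

omit [DecidableEq V] in
lemma OSimp.subset {Γ : SimpleGraph V} {σ τ : Finset (V × Bool)} (h : OSimp Γ σ) (hτ : τ ⊆ σ) :
    OSimp Γ τ := fun a ha b hb => h a (hτ ha) b (hτ hb)

omit [DecidableEq V] in
lemma map_eq_sum {M : Type} [AddCommGroup M] [Module (ZMod 2) M] {α : Type}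
    (f : (α →₀ ZMod 2) →ₗ[ZMod 2] M) (x : α →₀ ZMod 2) :
    f x = ∑ c ∈ x.support, x c • f (Finsupp.single c 1) := by
  conv_lhs => rw [← Finsupp.sum_single x, Finsupp.sum, map_sum]
  refine sum_congr rfl fun c _ => ?_
  rw [← map_smul, Finsupp.smul_single_one]

lemma dbd_good {Γ : SimpleGraph V} {i : ℕ} {x : DCell V →₀ ZMod 2}
    (hx : x ∈ GoodChain Γ (i + 1)) : dbd x ∈ GoodChain Γ i := by
  rw [map_eq_sum]
  refine Submodule.sum_mem _ fun c hc => Submodule.smul_mem _ _ ?_
  obtain ⟨h1, h2, h3, h4⟩ := mem_goodChain.1 hx c hc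
  rw [dbd_single]
  refine Submodule.add_mem _ (Submodule.sum_mem _ fun a ha => single_mem_goodChain ?_)
    (Submodule.sum_mem _ fun a ha => single_mem_goodChain ?_)
  · have := card_erase_add_one ha
    exact ⟨OSimp.subset h1 (erase_subset _ _), h2, h3.mono_left (erase_subset _ _),
      by simp only; omega⟩
  · have := card_erase_add_one ha
    exact ⟨h1, OSimp.subset h2 (erase_subset _ _), h3.mono_right (erase_subset _ _),
      by simp only; omega⟩

/-- The alternation cochain as a linear functional. -/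
noncomputable def AL (r : V × Bool → ℕ) : (DCell V →₀ ZMod 2) →ₗ[ZMod 2] ZMod 2 :=
  Finsupp.linearCombination (ZMod 2) fun c => al r c.1 c.2

omit [DecidableEq V] in
lemma AL_single (r : V × Bool → ℕ) (c : DCell V) : AL r (Finsupp.single c 1) = al r c.1 c.2 := by
  simp [AL]

lemma AL_dbd {r : V × Bool → ℕ} (hr : Function.Injective r) {Γ : SimpleGraph V} {i : ℕ}
    {x : DCell V →₀ ZMod 2} (hx : x ∈ GoodChain Γ i) : AL r (dbd x) = AL r (x + dswp x) := by
  have e1 := map_eq_sum (AL r ∘ₗ dbd) x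
  have e2 := map_eq_sum (AL r ∘ₗ (LinearMap.id + dswp)) x
  simp only [LinearMap.comp_apply, LinearMap.add_apply, LinearMap.id_apply] at e1 e2
  rw [e1, e2]
  refine sum_congr rfl fun c hc => ?_
  simp only [dbd_single, map_add, map_sum, AL_single, dswp_single, Prod.fst_swap, Prod.snd_swap]
  rw [kyfan hr _ _ _ (mem_goodChain.1 hx c hc).2.2.1 rfl]

lemma AL_zero (r : V × Bool → ℕ) {Γ : SimpleGraph V} {x : DCell V →₀ ZMod 2}
    (hx : x ∈ GoodChain Γ 0) : AL r (dbd x) = x.sum fun _ a => a := by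
  have e1 := map_eq_sum (AL r ∘ₗ dbd) x
  simp only [LinearMap.comp_apply] at e1
  rw [e1, Finsupp.sum]
  refine sum_congr rfl fun c hc => ?_
  have h0 : al r ∅ ∅ = 1 := if_pos ⟨by simp, by simp⟩
  obtain ⟨-, -, -, h4⟩ := mem_goodChain.1 hx c hc
  obtain ⟨σ, ρ⟩ := c
  simp only [dbd_single, map_add, map_sum, AL_single] at h4 ⊢
  rcases Nat.eq_zero_or_pos σ.card with h | h
  · obtain rfl := card_eq_zero.1 h
    obtain ⟨b, rfl⟩ := card_eq_one.1 (show ρ.card = 1 by simpa using h4)
    simp [h0]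
  · obtain rfl : ρ = ∅ := card_eq_zero.1 (by omega)
    obtain ⟨b, rfl⟩ := card_eq_one.1 (show σ.card = 1 by simpa using h4)
    simp [h0]

omit [DecidableEq V] in
lemma exists_half [Fintype V] {Γ : SimpleGraph V} {i : ℕ} {x : DCell V →₀ ZMod 2}
    (hx : x ∈ GoodChain Γ i) (hs : dswp x = x) : ∃ y ∈ GoodChain Γ i, y + dswp y = x := by
  classical
  let R : DCell V → ℕ := fun c => Fintype.equivFin (DCell V) c
  have hR : Function.Injective R := fun c c' h =>
    (Fintype.equivFin (DCell V)).injective (Fin.ext h)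
  refine ⟨x.filter fun c => R c < R c.swap, fun c hc => hx (mem_filter.1 hc).1, ?_⟩
  ext c
  have hc : x c.swap = x c := by rw [← dswp_apply, hs]
  rw [Finsupp.add_apply, dswp_apply, Finsupp.filter_apply, Finsupp.filter_apply, Prod.swap_swap, hc]
  by_cases h0 : x c = 0
  · simp [h0]
  · obtain ⟨-, -, h3, h4⟩ := mem_goodChain.1 hx c (Finsupp.mem_support_iff.2 h0)
    have hne : R c ≠ R c.swap := fun h => by
      have h5 : c.1 = c.2 := congrArg Prod.fst (hR h)
      rw [← h5, disjoint_self_iff_empty] at h3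
      rw [← h5, h3] at h4
      simp at h4
    rcases lt_or_gt_of_ne hne with h | h
    · rw [if_pos h, if_neg h.not_gt, add_zero]
    · rw [if_neg h.not_gt, if_pos h, zero_add]

lemma descent [Fintype V] {r : V × Bool → ℕ} (hr : Function.Injective r) (Γ : SimpleGraph V)
    (m : ℕ) : ∀ x ∈ GoodChain Γ m, dswp x = x → dbd x = 0 → AL r x = 1 →
    ∃ d : ℕ → (DCell V →₀ ZMod 2), (∀ i ≤ m, d i ∈ GoodChain Γ i) ∧
      (∀ i < m, dbd (d (i + 1)) = d i + dswp (d i)) ∧ (d 0).sum (fun _ a => a) = 1 ∧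
      d m + dswp (d m) = x := by
  induction m with
  | zero =>
    intro x hx hs _ ha
    obtain ⟨y, hy, hy'⟩ := exists_half hx hs
    refine ⟨fun _ => y, fun i hi => ?_, fun i hi => absurd hi (Nat.not_lt_zero i), ?_, hy'⟩
    · rwa [Nat.le_zero.1 hi]
    · rw [← AL_zero r hy, AL_dbd hr hy, hy', ha]
  | succ m ih =>
    intro x hx hs hb ha
    obtain ⟨y, hy, hy'⟩ := exists_half hx hs
    obtain ⟨d, h1, h2, h3, h4⟩ := ih (dbd y) (dbd_good hy) (by
      rw [← hy', map_add, ← dswp_dbd] at hb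
      exact (eq_of_add_eq_zero hb).symm) (dbd_dbd y) (by rw [AL_dbd hr hy, hy', ha])
    refine ⟨Function.update d (m + 1) y, fun i hi => ?_, fun i hi => ?_, ?_, ?_⟩
    · rcases hi.eq_or_lt with rfl | hi
      · rwa [Function.update_self]
      · rw [Function.update_of_ne hi.ne]
        exact h1 i (by omega)
    · rw [Function.update_of_ne hi.ne]
      rcases (Nat.lt_succ_iff.1 hi).eq_or_lt with rfl | hi
      · rw [Function.update_self, h4]
      · rw [Function.update_of_ne (by omega), h2 i hi]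
    · rwa [Function.update_of_ne (by omega)]
    · rwa [Function.update_self]

end Descent

end CoreAux

end Pool.Agent.MP_4f4d9f_gt

end

section

/-! Part (A): the invariant cycle `omega` and the conclusion. -/

open Finset

namespace Pool.Agent.MP_4f4d9f_gt

namespace CoreAux

section Cells

variable {V : Type} [DecidableEq V]

omit [DecidableEq V] in
lemma graph_inj (g : V → Bool) : Function.Injective fun u : V => (u, g u) :=
  fun _ _ h => congrArg Prod.fst h

/-- The cell with vertex sets `A`, `B` and set of negative signs `S`. -/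
def cell (A B S : Finset V) : DCell V :=
  (A.image fun u => (u, decide (u ∉ S)), B.image fun u => (u, decide (u ∈ S)))

lemma cell_congr {A B S S' : Finset V} (h : ∀ u ∈ A ∪ B, (u ∈ S ↔ u ∈ S')) :
    cell A B S = cell A B S' := by
  refine Prod.ext (image_congr fun u hu => ?_) (image_congr fun u hu => ?_)
  · simp [h u (mem_union_left _ hu)]
  · simp [h u (mem_union_right _ hu)]

lemma cell_swap [Fintype V] (A B S : Finset V) : (cell A B S).swap = cell B A Sᶜ := by
  simp [cell]

lemma osimp_image {Γ : SimpleGraph V} {A : Finset V} (hA : Γ.IsClique A) (g : V → Bool) :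
    OSimp Γ (A.image fun u => (u, g u)) := by
  intro a ha b hb hne
  obtain ⟨u, hu, rfl⟩ := mem_image.1 ha
  obtain ⟨w, hw, rfl⟩ := mem_image.1 hb
  exact hA hu hw fun h => hne (by rw [h])

lemma cell_good {Γ : SimpleGraph V} {p : ℕ} (hp : 1 ≤ p) {A B : Finset V} (hA : Γ.IsNClique p A)
    (hB : Γ.IsNClique p B) (S : Finset V) : GoodCell Γ (2 * p - 1) (cell A B S) := by
  refine ⟨osimp_image hA.1 _, osimp_image hB.1 _, ?_, ?_⟩
  · rw [disjoint_left]
    intro a ha hb
    obtain ⟨u, -, rfl⟩ := mem_image.1 ha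
    obtain ⟨w, -, h⟩ := mem_image.1 hb
    obtain ⟨rfl, h2⟩ := Prod.mk.inj h
    simp at h2
  · simp only [cell]
    rw [card_image_of_injective _ (graph_inj _), card_image_of_injective _ (graph_inj _), hA.2, hB.2]
    omega

lemma dbd_cell (A B S : Finset V) : dbd (Finsupp.single (cell A B S) 1) =
    ∑ v ∈ A, Finsupp.single (cell (A.erase v) B S) (1 : ZMod 2) +
      ∑ v ∈ B, Finsupp.single (cell A (B.erase v) S) 1 := by
  rw [dbd_single]
  simp only [cell]
  rw [sum_image (graph_inj _).injOn, sum_image (graph_inj _).injOn]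
  simp only [image_erase (graph_inj _)]

lemma sum_powerset_zero {M : Type} [AddCommGroup M] [Module (ZMod 2) M] {J : Finset V} {v : V}
    (hv : v ∈ J) (X : Finset V → M) (hX : ∀ S, X (insert v S) = X S) :
    ∑ S ∈ J.powerset, X S = 0 := by
  rw [← insert_erase hv, sum_powerset_insert (notMem_erase v J)]
  simp only [hX, two]

/-- The sum of the cells with negative set inside `J`. -/
noncomputable def E (A B J : Finset V) : DCell V →₀ ZMod 2 :=
  ∑ S ∈ J.powerset, Finsupp.single (cell A B S) 1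

lemma E_zero {A B J : Finset V} (h : ¬ J ⊆ A ∪ B) : E A B J = 0 := by
  obtain ⟨v, hv, hv'⟩ := not_subset.1 h
  refine sum_powerset_zero hv _ fun S => ?_
  rw [cell_congr]
  intro u hu
  rw [mem_insert, or_iff_right]
  rintro rfl
  exact hv' hu

lemma dbd_E (A B J : Finset V) :
    dbd (E A B J) = ∑ v ∈ A, E (A.erase v) B J + ∑ v ∈ B, E A (B.erase v) J := by
  simp only [E, map_sum, dbd_cell, sum_add_distrib]
  rw [sum_comm, sum_comm (s := J.powerset)]

lemma sum_cycle {M : Type} [AddCommGroup M] [Module (ZMod 2) M] {z : Finset V →₀ ZMod 2}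
    (hz : sbd z = 0) (G : Finset V → M) :
    ∑ A ∈ z.support, z A • ∑ v ∈ A, G (A.erase v) = 0 := by
  have e := map_eq_sum (Finsupp.linearCombination (ZMod 2) G ∘ₗ sbd) z
  simp only [LinearMap.comp_apply, hz, map_zero, sbd_single, map_sum,
    Finsupp.linearCombination_single, one_smul] at e
  exact e.symm

/-- The rank function in which the two signed copies of a vertex are adjacent. -/
def rk (idx : V → ℕ) (x : V × Bool) : ℕ := 2 * idx x.1 + if x.2 then 1 else 0

omit [DecidableEq V] in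
lemma rk_inj {idx : V → ℕ} (h : Function.Injective idx) : Function.Injective (rk idx) := by
  rintro ⟨u, b⟩ ⟨w, c⟩ e
  simp only [rk] at e
  have h1 : idx u = idx w := by split_ifs at e <;> omega
  obtain rfl := h h1
  cases b <;> cases c <;> simp at e ⊢

lemma card_filter_graph (A : Finset V) (g : V → Bool) (q : V × Bool → Prop) [DecidablePred q] :
    ((A.image fun u => (u, g u)).filter q).card = (A.filter fun u => q (u, g u)).card := by
  rw [filter_image, card_image_of_injective _ (graph_inj _)]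

lemma alt_cell {idx : V → ℕ} (h : Function.Injective idx) (A B S : Finset V) :
    Alt (rk idx) (cell A B S).1 (cell A B S).2 ↔
      (∀ u ∈ A, (A.filter fun w => idx w < idx u).card =
        (B.filter fun w => idx w < idx u ∨ (w = u ∧ u ∉ S)).card) ∧
      ∀ u ∈ B, (A.filter fun w => idx w < idx u ∨ (w = u ∧ u ∈ S)).card =
        (B.filter fun w => idx w < idx u).card + 1 := by
  simp only [Alt, cell, forall_mem_image, card_filter_graph]
  have key : ∀ (u w : V) (b c : Bool), rk idx (w, b) < rk idx (u, c) ↔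
      idx w < idx u ∨ (w = u ∧ b = false ∧ c = true) := by
    intro u w b c
    rw [← h.eq_iff]
    cases b <;> cases c <;> simp [rk] <;> omega
  simp only [key]
  have k1 : ∀ (C : Finset V) (g : V → Bool) (u : V),
      (C.filter fun w => idx w < idx u ∨ (w = u ∧ g w = false ∧ g u = true)) =
        C.filter fun w => idx w < idx u := fun C g u =>
    filter_congr fun w _ => or_iff_left (by
      rintro ⟨rfl, h1, h2⟩
      simp [h1] at h2)
  refine and_congr (forall₂_congr fun u _ => ?_) (forall₂_congr fun u _ => ?_)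
  · rw [k1 A (fun w => decide (w ∉ S)) u, filter_congr (s := B)
      (q := fun w => idx w < idx u ∨ (w = u ∧ u ∉ S))
      fun w _ => or_congr_right (and_congr_right (by rintro rfl; simp))]
  · rw [k1 B (fun w => decide (w ∈ S)) u, filter_congr (s := A)
      (q := fun w => idx w < idx u ∨ (w = u ∧ u ∈ S))
      fun w _ => or_congr_right (and_congr_right (by rintro rfl; simp))]

lemma AL_E_zero {idx : V → ℕ} (h : Function.Injective idx) {A B J : Finset V}
    (hJ : ¬ J ⊆ A ∩ B) : AL (rk idx) (E A B J) = 0 := by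
  obtain ⟨v, hv, hv'⟩ := not_subset.1 hJ
  simp only [E, map_sum, AL_single]
  refine sum_powerset_zero hv _ fun S => al_congr ?_
  rw [alt_cell h, alt_cell h]
  refine and_congr (forall₂_congr fun u hu => ?_) (forall₂_congr fun u hu => ?_)
  · rw [filter_congr (s := B) (q := fun w => idx w < idx u ∨ (w = u ∧ u ∉ S))]
    refine fun w hw => or_congr_right (and_congr_right ?_)
    rintro rfl
    rw [mem_insert, or_iff_right]
    rintro rfl
    exact hv' (mem_inter.2 ⟨hu, hw⟩)
  · rw [filter_congr (s := A) (q := fun w => idx w < idx u ∨ (w = u ∧ u ∈ S))]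
    refine fun w hw => or_congr_right (and_congr_right ?_)
    rintro rfl
    rw [mem_insert, or_iff_right]
    rintro rfl
    exact hv' (mem_inter.2 ⟨hw, hu⟩)

lemma AL_E_self {idx : V → ℕ} (h : Function.Injective idx) (A : Finset V) :
    AL (rk idx) (E A A A) = 1 := by
  have k1 : ∀ u ∈ A, (A.filter fun w => idx w < idx u ∨ w = u).card =
      (A.filter fun w => idx w < idx u).card + 1 := fun u hu => by
    rw [filter_or, filter_eq' A u, if_pos hu, card_union_of_disjoint, card_singleton]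
    simp
  simp only [E, map_sum, AL_single]
  rw [sum_eq_single_of_mem A (mem_powerset_self A)]
  · refine if_pos ((alt_cell h A A A).2 ⟨fun u hu => ?_, fun u hu => ?_⟩)
    · simp [hu]
    · simp only [hu, and_true, k1 u hu]
  · intro S hS hne
    obtain ⟨u, hu, hu'⟩ := exists_of_ssubset (ssubset_of_subset_of_ne (mem_powerset.1 hS) hne)
    refine if_neg fun hh => ?_
    have := ((alt_cell h A A S).1 hh).2 u hu
    simp [hu'] at this

end Cells

section Omega

variable {V : Type} [DecidableEq V] [Fintype V] {Γ : SimpleGraph V}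

omit [Fintype V] in
lemma not_bad_inter {A B J : Finset V} (hA : Γ.IsClique A) (hB : Γ.IsClique B) (hJ : J ⊆ A ∪ B)
    {v : V} (hv : Bad Γ J v) (h1 : v ∈ A) (h2 : v ∈ B) : False := by
  obtain ⟨-, w, hw, hne, h⟩ := hv
  rcases mem_union.1 (hJ hw) with h' | h'
  · exact h (hA h1 h' hne)
  · exact h (hB h2 h' hne)

variable (Γ) in
/-- The contribution of the pair `(A, B)`. -/
noncomputable def G (F : Finset V → ZMod 2) (A B : Finset V) : DCell V →₀ ZMod 2 :=
  ∑ J, acoef Γ F J A • E A B J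

lemma G_eq (F : Finset V → ZMod 2) (A B : Finset V) :
    G Γ F A B = ∑ J ∈ (A ∪ B).powerset, acoef Γ F J A • E A B J := by
  refine (sum_subset (subset_univ _) fun J _ hJ => ?_).symm
  rw [E_zero fun h => hJ (mem_powerset.2 h), smul_zero]

lemma dswp_G (F : Finset V → ZMod 2)
    (hF : ∀ J : Finset V, Γ.IsClique J → ∑ I ∈ J.ssubsets, F I = 0) {A B : Finset V}
    (hA : Γ.IsClique A) (hB : Γ.IsClique B) : dswp (G Γ F A B) = G Γ F B A := by
  rw [G_eq, G_eq, union_comm B A]
  have e1 : ∀ I ∈ (A ∪ B).powerset, acoef Γ F I B • E B A I =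
      (∑ J ∈ I.powerset, acoef Γ F J A) • ∑ S ∈ I.powerset,
        Finsupp.single (cell B A S) (1 : ZMod 2) := by
    intro I hI
    rw [acoef_star F hF I B, E]
    congr 1
    refine sum_congr rfl fun J hJ => acoef_congr F _ _ _ fun v hv => ?_
    have hJ' := (mem_powerset.1 hJ).trans (mem_powerset.1 hI)
    rw [mem_compl]
    exact ⟨fun h => (mem_union.1 (hJ' hv.1)).resolve_right h,
      fun h1 h2 => not_bad_inter hA hB hJ' hv h1 h2⟩
  rw [sum_congr rfl e1, zeta_pair, map_sum]
  refine sum_congr rfl fun J _ => ?_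
  rw [map_smul, E, map_sum]
  congr 1
  refine sum_congr rfl fun S _ => ?_
  rw [dswp_single, cell_swap, cell_congr]
  intro u hu
  rw [mem_compl, mem_sdiff, union_comm A B, and_iff_right hu]

lemma dbd_G (F : Finset V → ZMod 2) {A B : Finset V} (hA : Γ.IsClique A) (hB : Γ.IsClique B) :
    dbd (G Γ F A B) = ∑ v ∈ A, G Γ F (A.erase v) B +
      ∑ v ∈ B, ∑ J, acoef Γ F J A • E A (B.erase v) J := by
  simp only [G, map_sum, map_smul, dbd_E, smul_add, smul_sum, sum_add_distrib]
  rw [sum_comm, sum_comm (t := B)]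
  congr 1
  refine sum_congr rfl fun v hv => sum_congr rfl fun J _ => ?_
  by_cases hJ : J ⊆ A.erase v ∪ B
  · rw [acoef_congr F J A (A.erase v)]
    intro u hu
    rw [mem_erase, and_iff_right]
    rintro rfl
    exact not_bad_inter hA hB (hJ.trans (union_subset_union_left (erase_subset _ _))) hu hv
      ((mem_union.1 (hJ hu.1)).resolve_left (notMem_erase _ _))
  · rw [E_zero hJ, smul_zero, smul_zero]

lemma G_good (F : Finset V → ZMod 2) {p : ℕ} (hp : 1 ≤ p) {A B : Finset V}
    (hA : Γ.IsNClique p A) (hB : Γ.IsNClique p B) : G Γ F A B ∈ GoodChain Γ (2 * p - 1) :=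
  Submodule.sum_mem _ fun _ _ => Submodule.smul_mem _ _ <|
    Submodule.sum_mem _ fun S _ => single_mem_goodChain (cell_good hp hA hB S)

lemma AL_G {idx : V → ℕ} (h : Function.Injective idx) (F : Finset V → ZMod 2) {p : ℕ}
    (hF : ∀ J, J.card < p → F J = 0) {A B : Finset V} (hA : Γ.IsNClique p A)
    (hB : Γ.IsNClique p B) : AL (rk idx) (G Γ F A B) = if A = B then F A else 0 := by
  have key : ∀ J, ¬ (J = A ∧ A = B) → acoef Γ F J A • AL (rk idx) (E A B J) = 0 := by
    intro J hJ
    by_cases h1 : J ⊆ A ∩ B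
    · rw [acoef_small F p hF, zero_smul]
      by_contra h2
      have e1 : J = A := eq_of_subset_of_card_le (h1.trans inter_subset_left) (by rw [hA.2]; omega)
      have e2 : J = B := eq_of_subset_of_card_le (h1.trans inter_subset_right) (by rw [hB.2]; omega)
      exact hJ ⟨e1, e1.symm.trans e2⟩
    · rw [AL_E_zero h h1, smul_zero]
  simp only [G, map_sum, map_smul]
  split_ifs with hAB
  · subst hAB
    rw [sum_eq_single_of_mem A (mem_univ A) fun J _ hJ => key J fun h' => hJ h'.1, AL_E_self h,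
      acoef_clique F hA.1, smul_eq_mul, mul_one]
  · exact sum_eq_zero fun J _ => key J fun h' => hAB h'.2

omit [Fintype V] in
lemma exists_phi {p : ℕ} (h : ¬ ExactTwo Γ p) :
    ∃ (z : Finset V →₀ ZMod 2) (φ : Finset V → ZMod 2), (∀ A ∈ z.support, Γ.IsNClique p A) ∧
      sbd z = 0 ∧ (∀ A, A.card ≠ p → φ A = 0) ∧
      (∀ A : Finset V, Γ.IsClique A → ∑ v ∈ A, φ (A.erase v) = 0) ∧
      ∑ A ∈ z.support, z A • φ A = 1 := by
  unfold ExactTwo at h
  push Not at h
  obtain ⟨z, hz, hz0, hw⟩ := h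
  have hn : z ∉ (Finsupp.supported (ZMod 2) (ZMod 2) {A | Γ.IsNClique (p + 1) A}).map sbd := by
    rintro ⟨w, h1, h2⟩
    exact hw w (fun A hA => h1 hA) h2
  obtain ⟨f, hf, hf'⟩ := Submodule.exists_dual_map_eq_bot_of_notMem hn inferInstance
  refine ⟨z, fun A => if A.card = p then f (Finsupp.single A 1) else 0, hz, hz0,
    fun A hA => if_neg hA, fun A hA => ?_, ?_⟩
  · by_cases hc : A.card = p + 1
    · have : f (sbd (Finsupp.single A 1)) = 0 := by
        rw [← Submodule.mem_bot (ZMod 2), ← hf']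
        exact Submodule.mem_map_of_mem (Submodule.mem_map_of_mem
          (Finsupp.single_mem_supported _ _ ⟨hA, hc⟩))
      rw [sbd_single, map_sum] at this
      rw [← this]
      refine sum_congr rfl fun v hv => if_pos ?_
      have := card_erase_add_one hv
      omega
    · refine sum_eq_zero fun v hv => if_neg ?_
      have := card_erase_add_one hv
      omega
  · have h1 : ∀ t : ZMod 2, t ≠ 0 → t = 1 := by decide
    refine Eq.trans ?_ ((map_eq_sum f z).symm.trans (h1 _ hf))
    exact sum_congr rfl fun A hA => congrArg _ (if_pos (hz A hA).2)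

end Omega

end CoreAux

open CoreAux in
/-- Part (A). -/
theorem core {V : Type} [Fintype V] [DecidableEq V] (Γ : SimpleGraph V) (p : ℕ) (hp : 1 ≤ p)
    (h : ¬ ExactTwo Γ p) : HasDChain Γ (2 * p - 1) := by
  obtain ⟨z, φ, hz, hz0, h0, hc, h1⟩ := exists_phi h
  obtain ⟨F, hF, hF'⟩ := exists_F Γ p φ h0 hc
  let idx : V → ℕ := fun v => Fintype.equivFin V v
  have hidx : Function.Injective idx := fun v w e => (Fintype.equivFin V).injective (Fin.ext e)
  obtain ⟨d, d1, d2, d3, -⟩ := descent (rk_inj hidx) Γ (2 * p - 1)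
    (∑ A ∈ z.support, ∑ B ∈ z.support, (z A * z B) • G Γ F A B)
    (Submodule.sum_mem _ fun A hA => Submodule.sum_mem _ fun B hB => Submodule.smul_mem _ _
      (G_good F hp (hz A hA) (hz B hB)))
    (by
      simp only [map_sum, map_smul]
      rw [sum_comm]
      refine sum_congr rfl fun A hA => sum_congr rfl fun B hB => ?_
      rw [dswp_G F hF (hz B hB).1 (hz A hA).1, mul_comm])
    (by
      simp only [map_sum, map_smul]
      rw [sum_congr rfl fun A hA => sum_congr rfl fun B hB => by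
        rw [dbd_G F (hz A hA).1 (hz B hB).1]]
      simp only [smul_add, sum_add_distrib]
      rw [sum_comm, sum_eq_zero, sum_eq_zero, add_zero]
      · intro A _
        simp only [mul_smul]
        rw [← smul_sum, sum_cycle hz0 fun B => ∑ J, acoef Γ F J A • E A B J, smul_zero]
      · intro B _
        simp only [mul_comm _ (z B), mul_smul]
        rw [← smul_sum, sum_cycle hz0 fun A => G Γ F A B, smul_zero])
    (by
      simp only [map_sum, map_smul]
      rw [← h1]
      refine sum_congr rfl fun A hA => ?_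
      rw [sum_congr rfl fun B hB => by
        rw [AL_G hidx F (fun J hJ => by rw [hF' J hJ.le, h0 J hJ.ne]) (hz A hA) (hz B hB)],
        sum_eq_single_of_mem A hA fun B _ hne => by rw [if_neg hne.symm, smul_zero], if_pos rfl,
        hF' A (hz A hA).2.le]
      have : ∀ t : ZMod 2, t * t = t := by decide
      rw [this])
  exact ⟨d, fun i hi => mem_goodChain.1 (d1 i hi), d2, d3⟩

end Pool.Agent.MP_4f4d9f_gt

end

section

/-! Algebra for the far boxes: the differential of `W ⊗ S ⊗ S` and the boxes in the group ring. -/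

set_option linter.unusedSectionVars false

namespace Pool.Agent.MP_4f4d9f_gt

namespace Far

open Finset

section Alg

variable {V : Type} [DecidableEq V] {M M' : Type} [AddCommGroup M] [Module (ZMod 2) M]
  [AddCommGroup M'] [Module (ZMod 2) M']

theorem sum_erase_symm (A : Finset V) (g : V → V → M)
    (hg : ∀ u ∈ A, ∀ v ∈ A, u ≠ v → g u v = g v u) :
    ∑ v ∈ A, ∑ u ∈ A.erase v, g v u = 0 := by
  rw [← Finset.sum_finset_product' A.offDiag A (fun v => A.erase v) (by
    rintro ⟨u, v⟩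
    simp only [mem_offDiag, mem_erase]
    tauto)]
  refine Finset.sum_involution (fun p _ => p.swap) ?_ ?_ ?_ ?_
  · rintro ⟨u, v⟩ h
    simp only [mem_offDiag] at h
    simp only [Prod.fst_swap, Prod.snd_swap]
    rw [hg u h.1 v h.2.1 h.2.2]
    exact ZModModule.add_self _
  · rintro ⟨u, v⟩ h - h'
    simp only [mem_offDiag] at h
    exact h.2.2 (congrArg Prod.snd h')
  · rintro ⟨u, v⟩ h
    simp only [mem_offDiag] at h ⊢
    exact ⟨h.2.1, h.1, h.2.2.symm⟩
  · rintro ⟨u, v⟩ -
    rfl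

/-- Families of elements indexed by the basis cells `e_i ⊗ e_A ⊗ e_B`. -/
abbrev Fam (V M : Type) : Type := ℕ → Finset V → Finset V → M

/-- The part of the differential that comes from the resolution `W`. -/
def WW (τ : Module.End (ZMod 2) M) (φ : Fam V M) : Fam V M
  | 0, _, _ => 0
  | i + 1, A, B => φ i A B + τ (φ i B A)

/-- The part of the differential that comes from `S ⊗ S`. -/
def D0 (a b : V → Module.End (ZMod 2) M) (φ : Fam V M) : Fam V M := fun i A B =>
  ∑ v ∈ A, a v (φ i (A.erase v) B) + ∑ v ∈ B, b v (φ i A (B.erase v))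

/-- The differential. -/
def DD (a b : V → Module.End (ZMod 2) M) (τ : Module.End (ZMod 2) M) (φ : Fam V M) : Fam V M :=
  fun i A B => D0 a b φ i A B + WW τ φ i A B

variable {a b : V → Module.End (ZMod 2) M} {τ : Module.End (ZMod 2) M}

theorem DD_congr {P : Finset V → Prop} (hP : ∀ A v, P A → P (A.erase v)) {φ φ' : Fam V M}
    (h : ∀ i A B, P A → P B → φ i A B = φ' i A B) (i : ℕ) {A B : Finset V} (hA : P A)
    (hB : P B) : DD a b τ φ i A B = DD a b τ φ' i A B := by
  unfold DD D0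
  congr 1
  · congr 1
    · exact sum_congr rfl fun v _ => by rw [h _ _ _ (hP _ _ hA) hB]
    · exact sum_congr rfl fun v _ => by rw [h _ _ _ hA (hP _ _ hB)]
  · cases i with
    | zero => rfl
    | succ i => simp only [WW, h _ _ _ hA hB, h _ _ _ hB hA]

theorem map_DD {a' b' : V → Module.End (ZMod 2) M'} {τ' : Module.End (ZMod 2) M'}
    (f : M →ₗ[ZMod 2] M') (ha : ∀ v c, f (a v c) = a' v (f c))
    (hb : ∀ v c, f (b v c) = b' v (f c)) (hτ : ∀ c, f (τ c) = τ' (f c)) (φ : Fam V M) (i : ℕ)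
    (A B : Finset V) :
    f (DD a b τ φ i A B) = DD a' b' τ' (fun i A B => f (φ i A B)) i A B := by
  unfold DD D0
  cases i with
  | zero => simp only [WW, map_add, map_sum, ha, hb, map_zero]
  | succ i => simp only [WW, map_add, map_sum, ha, hb, hτ]

theorem D0_D0 (hab : ∀ u v c, a u (b v c) = b v (a u c)) (φ : Fam V M) (i : ℕ) {A B : Finset V}
    (hA : ∀ u ∈ A, ∀ v ∈ A, u ≠ v → ∀ c, a u (a v c) = a v (a u c))
    (hB : ∀ u ∈ B, ∀ v ∈ B, u ≠ v → ∀ c, b u (b v c) = b v (b u c)) :
    D0 a b (D0 a b φ) i A B = 0 := by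
  simp only [D0, map_add, map_sum, sum_add_distrib]
  rw [sum_erase_symm A (fun v u => a v (a u (φ i ((A.erase v).erase u) B)))
      (fun u hu v hv huv => by rw [hA u hu v hv huv, erase_right_comm]),
    sum_erase_symm B (fun v u => b v (b u (φ i A ((B.erase v).erase u))))
      (fun u hu v hv huv => by rw [hB u hu v hv huv, erase_right_comm]),
    zero_add, add_zero, sum_comm]
  simp only [hab]
  exact ZModModule.add_self _

theorem DD_DD (hab : ∀ u v c, a u (b v c) = b v (a u c)) (hτa : ∀ v c, τ (a v c) = b v (τ c))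
    (hτb : ∀ v c, τ (b v c) = a v (τ c)) (hτ : ∀ c, τ (τ c) = c) (φ : Fam V M) (i : ℕ)
    {A B : Finset V} (hA : ∀ u ∈ A, ∀ v ∈ A, u ≠ v → ∀ c, a u (a v c) = a v (a u c))
    (hB : ∀ u ∈ B, ∀ v ∈ B, u ≠ v → ∀ c, b u (b v c) = b v (b u c)) :
    DD a b τ (DD a b τ φ) i A B = 0 := by
  have h1 : D0 a b (DD a b τ φ) i A B = D0 a b (D0 a b φ) i A B + D0 a b (WW τ φ) i A B := by
    simp only [D0, DD, map_add, sum_add_distrib]
    abel
  have h2 : WW τ (DD a b τ φ) i A B = WW τ (D0 a b φ) i A B + WW τ (WW τ φ) i A B := by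
    cases i with
    | zero => simp only [WW, add_zero]
    | succ i =>
      simp only [WW, DD, map_add]
      abel
  have h3 : WW τ (WW τ φ) i A B = 0 := by
    rcases i with _ | _ | i
    · rfl
    · simp only [WW, map_zero, add_zero]
    · simp only [WW, map_add, hτ]
      rw [add_comm (τ _)]
      exact ZModModule.add_self _
  have h4 : D0 a b (WW τ φ) i A B = WW τ (D0 a b φ) i A B := by
    cases i with
    | zero => simp only [D0, WW, map_zero, sum_const_zero, add_zero]
    | succ i =>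
      simp only [D0, WW, map_add, map_sum, sum_add_distrib, hτa, hτb]
      abel
  rw [DD, h1, h2, h3, h4, D0_D0 hab φ i hA hB, zero_add, add_zero]
  exact ZModModule.add_self _

end Alg

section Box

variable {V G : Type} [DecidableEq V] [Group G]

/-- The group ring mod 2. -/
abbrev GR (G : Type) [Group G] : Type := MonoidAlgebra (ZMod 2) G

/-- A group element in the group ring. -/
noncomputable abbrev og : G →* GR G := MonoidAlgebra.of (ZMod 2) G

/-- The generator `x v` or its inverse. -/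
def sg (x : V → G) (a : V × Bool) : G := if a.2 then x a.1 else (x a.1)⁻¹

/-- The first point of a side of a box. -/
def st (x : V → G) (a : V × Bool) : G := if a.2 then 1 else (x a.1)⁻¹

/-- A side of a box. -/
noncomputable def side (x : V → G) (R : ℕ) (a : V × Bool) : GR G :=
  (∑ j ∈ range R, og (sg x a) ^ j) * og (st x a)

theorem side_mul (x : V → G) (R : ℕ) (a : V × Bool) :
    side x R a * (og (x a.1) + 1) = og (sg x a ^ R) + 1 := by
  have h : og (st x a) * (og (x a.1) + 1) = og (sg x a) - 1 := by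
    rw [ZModModule.sub_eq_add, mul_add, ← map_mul, mul_one]
    rcases a with ⟨v, _ | _⟩
    · simp only [st, sg, Bool.false_eq_true, if_false, inv_mul_cancel, map_one, add_comm]
    · simp only [st, sg, if_true, one_mul, map_one]
  rw [side, mul_assoc, h, geom_sum_mul, ZModModule.sub_eq_add, map_pow]

theorem side_commute {x : V → G} (R : ℕ) {a b : V × Bool} (h : Commute (x a.1) (x b.1)) :
    Commute (side x R a) (side x R b) := by
  have key : ∀ g g' : G, g ∈ Subgroup.zpowers (x a.1) → g' ∈ Subgroup.zpowers (x b.1) →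
      Commute (og g) (og g') := by
    rintro _ _ ⟨k, rfl⟩ ⟨l, rfl⟩
    exact (h.zpow_zpow k l).map og
  have h1 : ∀ c : V × Bool, sg x c ∈ Subgroup.zpowers (x c.1) := fun c => by
    unfold sg
    split_ifs
    · exact Subgroup.mem_zpowers _
    · exact inv_mem (Subgroup.mem_zpowers _)
  have h2 : ∀ c : V × Bool, st x c ∈ Subgroup.zpowers (x c.1) := fun c => by
    unfold st
    split_ifs
    · exact one_mem _
    · exact inv_mem (Subgroup.mem_zpowers _)
  unfold side
  refine Commute.mul_left (Commute.mul_right ?_ ?_) (Commute.mul_right ?_ ?_)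
  · exact Commute.sum_left _ _ _ fun j _ => Commute.sum_right _ _ _ fun l _ =>
      (key _ _ (h1 a) (h1 b)).pow_pow j l
  · exact Commute.sum_left _ _ _ fun j _ => (key _ _ (h1 a) (h2 b)).pow_left j
  · exact Commute.sum_right _ _ _ fun j _ => (key _ _ (h2 a) (h1 b)).pow_right j
  · exact key _ _ (h2 a) (h2 b)

open Classical in
/-- The box spanned by a set of signed vertices. -/
noncomputable def box (x : V → G) (R : ℕ) (σ : Finset (V × Bool)) : GR G :=
  if h : (σ : Set (V × Bool)).Pairwise (Function.onFun Commute (side x R)) then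
    σ.noncommProd (side x R) h else 0

theorem box_empty (x : V → G) (R : ℕ) : box x R ∅ = 1 := by
  rw [box, dif_pos (by simp), noncommProd_empty]

variable {Γ : SimpleGraph V} {x : V → G}

theorem pairwise_side (hx : ∀ u v, Γ.Adj u v → Commute (x u) (x v)) (R : ℕ)
    {σ : Finset (V × Bool)} (hσ : OSimp Γ σ) :
    (σ : Set (V × Bool)).Pairwise (Function.onFun Commute (side x R)) :=
  fun a ha b hb hab => side_commute R (hx _ _ (hσ a ha b hb hab))

theorem osimp_erase {σ : Finset (V × Bool)} (hσ : OSimp Γ σ) (a : V × Bool) :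
    OSimp Γ (σ.erase a) :=
  fun b hb c hc => hσ b (mem_of_mem_erase hb) c (mem_of_mem_erase hc)

theorem box_mul (hx : ∀ u v, Γ.Adj u v → Commute (x u) (x v)) (R : ℕ)
    {σ : Finset (V × Bool)} (hσ : OSimp Γ σ) {a : V × Bool} (ha : a ∈ σ) :
    box x R σ * (og (x a.1) + 1) =
      box x R (σ.erase a) * og (sg x a ^ R) + box x R (σ.erase a) := by
  rw [box, dif_pos (pairwise_side hx R hσ), box, dif_pos (pairwise_side hx R (osimp_erase hσ a)),
    ← noncommProd_erase_mul σ ha, mul_assoc, side_mul, mul_add, mul_one]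

/-- The signed exponent sum. -/
def sab (ab : V → G →* Multiplicative ℤ) (a : V × Bool) (g : G) : ℤ :=
  if a.2 then (ab a.1 g).toAdd else -(ab a.1 g).toAdd

variable {ab : V → G →* Multiplicative ℤ}

theorem sab_one (a : V × Bool) : sab ab a 1 = 0 := by simp [sab]

theorem sab_mul (a : V × Bool) (g h : G) : sab ab a (g * h) = sab ab a g + sab ab a h := by
  unfold sab
  split_ifs <;> simp [add_comm]

theorem sab_inv (a : V × Bool) (g : G) : sab ab a g⁻¹ = sab ab (a.1, !a.2) g := by
  rcases a with ⟨v, _ | _⟩ <;> simp [sab]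

theorem sab_pow (a : V × Bool) (g : G) (k : ℕ) : sab ab a (g ^ k) = k * sab ab a g := by
  induction k with
  | zero => simp [sab_one]
  | succ k ih => rw [pow_succ, sab_mul, ih]; push_cast; ring

theorem sab_sg (hab' : ∀ v, 1 ≤ (ab v (x v)).toAdd) (a : V × Bool) :
    1 ≤ sab ab a (sg x a) := by
  rcases a with ⟨v, _ | _⟩ <;> simpa [sab, sg] using hab' v

/-- The elements whose exponent sums have the signs allowed by `σ`. -/
def Sgn (ab : V → G →* Multiplicative ℤ) (σ : Finset (V × Bool)) : Submonoid G where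
  carrier := {g | ∀ a : V × Bool, (a.1, !a.2) ∉ σ → 0 ≤ sab ab a g}
  one_mem' := fun a _ => (sab_one a).ge
  mul_mem' := fun {g h} hg hh a ha => by
    rw [sab_mul]
    exact add_nonneg (hg a ha) (hh a ha)

theorem sg_mem (hab : ∀ u v, u ≠ v → ab v (x u) = 1) (hab' : ∀ v, 1 ≤ (ab v (x v)).toAdd)
    {σ : Finset (V × Bool)} {a : V × Bool} (ha : a ∈ σ) : sg x a ∈ Sgn ab σ := by
  intro b hb
  by_cases h : a.1 = b.1
  · have : b = a := by
      rcases a with ⟨v, s⟩
      rcases b with ⟨w, t⟩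
      obtain rfl : v = w := h
      have : s ≠ !t := fun e => hb (by rw [← e]; exact ha)
      revert this
      cases s <;> cases t <;> simp
    rw [this]
    exact zero_le_one.trans (sab_sg hab' a)
  · unfold sab sg
    split_ifs <;> simp [hab _ _ h]

theorem box_mem (hab : ∀ u v, u ≠ v → ab v (x u) = 1) (hab' : ∀ v, 1 ≤ (ab v (x v)).toAdd)
    (R : ℕ) (σ : Finset (V × Bool)) :
    box x R σ ∈ Submodule.span (ZMod 2) (og '' (Sgn ab σ : Set G)) := by
  have h : Submodule.span (ZMod 2) (og '' (Sgn ab σ : Set G)) =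
      Subalgebra.toSubmodule (Algebra.adjoin (ZMod 2) (og '' (Sgn ab σ : Set G))) := by
    rw [Algebra.adjoin_eq_span, ← Submonoid.coe_map, Submonoid.closure_eq]
  rw [h, Subalgebra.mem_toSubmodule, box]
  split_ifs with hc
  · refine Submonoid.noncommProd_mem (Algebra.adjoin (ZMod 2) _).toSubmonoid _ _ _ fun a ha => ?_
    have h1 : og (sg x a) ∈ Algebra.adjoin (ZMod 2) (og '' (Sgn ab σ : Set G)) :=
      Algebra.subset_adjoin ⟨_, sg_mem hab hab' ha, rfl⟩
    change side x R a ∈ Algebra.adjoin (ZMod 2) (og '' (Sgn ab σ : Set G))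
    refine mul_mem (sum_mem fun j _ => pow_mem h1 j) ?_
    rcases a with ⟨v, _ | _⟩
    · exact h1
    · simp only [st, if_true, map_one]
      exact one_mem _
  · exact zero_mem _

/-- The far faces are far. -/
theorem far_sab (hab' : ∀ v, 1 ≤ (ab v (x v)).toAdd) (R : ℕ) {σ ρ : Finset (V × Bool)}
    (hσ : OSimp Γ σ) (hd : Disjoint σ ρ) {a : V × Bool} (ha : a ∈ σ) {g h : G}
    (hg : g ∈ Sgn ab (σ.erase a)) (hh : h ∈ Sgn ab ρ) :
    (R : ℤ) ≤ sab ab a (h⁻¹ * (g * sg x a ^ R)) := by
  rw [sab_mul, sab_mul, sab_inv, sab_pow]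
  have h1 : 0 ≤ sab ab (a.1, !a.2) h := hh _ (by simpa using disjoint_left.1 hd ha)
  have h2 : 0 ≤ sab ab a g := hg _ fun e => by
    have := hσ _ (mem_of_mem_erase e) _ ha (ne_of_mem_erase e)
    exact Γ.irrefl this
  have h3 := sab_sg hab' a
  have h4 : (0 : ℤ) ≤ R := Int.natCast_nonneg R
  nlinarith

end Box

end Far

end Pool.Agent.MP_4f4d9f_gt

end

section

/-! The equivariant chain map `W ⊗ S ⊗ S → C(X × X)`. -/

set_option linter.unusedSectionVars false

namespace Pool.Agent.MP_4f4d9f_gt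

namespace Far

open Finset

variable {G X : Type} [Group G] [TopologicalSpace X] [MulAction G X] [ContinuousConstSMul G X]

/-- Chains of `X × X` mod 2. -/
abbrev Ch (X : Type) [TopologicalSpace X] (n : ℕ) : Type := Sing (X × X) n →₀ ZMod 2

variable (X) in
/-- The action of `G × G` on `X × X`. -/
def mv (g h : G) : C(X × X, X × X) :=
  ⟨fun y => (g • y.1, h • y.2),
    (continuous_fst.const_smul g).prodMk (continuous_snd.const_smul h)⟩

variable (G X) in
/-- The action of `G × G` on chains. -/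
noncomputable def TT (n : ℕ) : G × G →* Module.End (ZMod 2) (Ch X n) where
  toFun p := push (ZMod 2) (mv X p.1 p.2) n
  map_one' := LinearMap.ext fun c => by
    have : mv X (1 : G × G).1 (1 : G × G).2 = ContinuousMap.id _ := by
      ext y <;> simp [mv]
    rw [this, push_id]
    rfl
  map_mul' p q := LinearMap.ext fun c => by
    have : mv X (p * q).1 (p * q).2 = (mv X p.1 p.2).comp (mv X q.1 q.2) := by
      ext y <;> simp [mv, mul_smul]
    rw [this, Module.End.mul_apply, push_push]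

variable (X) in
/-- The action of the group ring through the first factor. -/
noncomputable def LL (n : ℕ) : GR G →ₐ[ZMod 2] Module.End (ZMod 2) (Ch X n) :=
  MonoidAlgebra.lift _ _ _ ((TT G X n).comp (MonoidHom.inl G G))

variable (X) in
/-- The action of the group ring through the second factor. -/
noncomputable def RR (n : ℕ) : GR G →ₐ[ZMod 2] Module.End (ZMod 2) (Ch X n) :=
  MonoidAlgebra.lift _ _ _ ((TT G X n).comp (MonoidHom.inr G G))

theorem LL_og (n : ℕ) (g : G) : LL X n (og g) = TT G X n (g, 1) := MonoidAlgebra.lift_of _ _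

theorem RR_og (n : ℕ) (g : G) : RR X n (og g) = TT G X n (1, g) := MonoidAlgebra.lift_of _ _

theorem bd_TT (n : ℕ) (p : G × G) (c : Ch X (n + 1)) :
    bd (ZMod 2) (X × X) n (TT G X (n + 1) p c) = TT G X n p (bd (ZMod 2) (X × X) n c) :=
  bd_push _ _ _ _

theorem swp_TT (n : ℕ) (p : G × G) (c : Ch X n) :
    swp (ZMod 2) X n (TT G X n p c) = TT G X n p.swap (swp (ZMod 2) X n c) := by
  change push _ _ _ (push _ _ _ c) = push _ _ _ (push _ _ _ c)
  rw [push_push, push_push]
  rfl

theorem bd_LL (n : ℕ) (l : GR G) (c : Ch X (n + 1)) :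
    bd (ZMod 2) (X × X) n (LL X (n + 1) l c) = LL X n l (bd (ZMod 2) (X × X) n c) := by
  induction l using MonoidAlgebra.induction_on with
  | of g => rw [LL_og, LL_og, bd_TT]
  | add a b ha hb => simp only [map_add, LinearMap.add_apply, ha, hb]
  | smul r a ha => simp only [map_smul, LinearMap.smul_apply, ha]

theorem bd_RR (n : ℕ) (l : GR G) (c : Ch X (n + 1)) :
    bd (ZMod 2) (X × X) n (RR X (n + 1) l c) = RR X n l (bd (ZMod 2) (X × X) n c) := by
  induction l using MonoidAlgebra.induction_on with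
  | of g => rw [RR_og, RR_og, bd_TT]
  | add a b ha hb => simp only [map_add, LinearMap.add_apply, ha, hb]
  | smul r a ha => simp only [map_smul, LinearMap.smul_apply, ha]

theorem swp_LL (n : ℕ) (l : GR G) (c : Ch X n) :
    swp (ZMod 2) X n (LL X n l c) = RR X n l (swp (ZMod 2) X n c) := by
  induction l using MonoidAlgebra.induction_on with
  | of g => rw [LL_og, RR_og, swp_TT, Prod.swap_prod_mk]
  | add a b ha hb => simp only [map_add, LinearMap.add_apply, ha, hb]
  | smul r a ha => simp only [map_smul, LinearMap.smul_apply, ha]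

theorem swp_RR (n : ℕ) (l : GR G) (c : Ch X n) :
    swp (ZMod 2) X n (RR X n l c) = LL X n l (swp (ZMod 2) X n c) := by
  induction l using MonoidAlgebra.induction_on with
  | of g => rw [LL_og, RR_og, swp_TT, Prod.swap_prod_mk]
  | add a b ha hb => simp only [map_add, LinearMap.add_apply, ha, hb]
  | smul r a ha => simp only [map_smul, LinearMap.smul_apply, ha]

theorem LL_RR (n : ℕ) (l r : GR G) (c : Ch X n) :
    LL X n l (RR X n r c) = RR X n r (LL X n l c) := by
  induction l using MonoidAlgebra.induction_on with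
  | of g =>
    induction r using MonoidAlgebra.induction_on with
    | of h =>
      change (LL X n (og g) * RR X n (og h)) c = (RR X n (og h) * LL X n (og g)) c
      rw [LL_og, RR_og, ← map_mul, ← map_mul]
      simp
    | add a b ha hb => simp only [map_add, LinearMap.add_apply, ha, hb]
    | smul r a ha => simp only [map_smul, LinearMap.smul_apply, ha]
  | add a b ha hb => simp only [map_add, LinearMap.add_apply, ha, hb]
  | smul r a ha => simp only [map_smul, LinearMap.smul_apply, ha]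

theorem aug_LL (g : G) (c : Ch X 0) : aug (ZMod 2) (X × X) (LL X 0 (og g + 1) c) = 0 := by
  rw [map_add, LL_og, map_one, LinearMap.add_apply, map_add]
  exact (congrArg (· + _) (aug_push _ _ c)).trans (ZModModule.add_self _)

theorem aug_RR (g : G) (c : Ch X 0) : aug (ZMod 2) (X × X) (RR X 0 (og g + 1) c) = 0 := by
  rw [map_add, RR_og, map_one, LinearMap.add_apply, map_add]
  exact (congrArg (· + _) (aug_push _ _ c)).trans (ZModModule.add_self _)

variable {V : Type} [DecidableEq V]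

variable (X) in
/-- The differential of `W ⊗ S ⊗ S`, acting on families of chains. -/
noncomputable def DX (x : V → G) (n : ℕ) : Fam V (Ch X n) → Fam V (Ch X n) :=
  DD (fun v => LL X n (og (x v) + 1)) (fun v => RR X n (og (x v) + 1)) (swp (ZMod 2) X n)

/-- The values of the chain map on the basis cells. -/
noncomputable def psi (x : V → G) (pt : Sing (X × X) 0) : (n : ℕ) → Fam V (Ch X n)
  | 0 => fun _ _ _ => Finsupp.single pt 1
  | n + 1 => fun i A B => Function.invFun (bd (ZMod 2) (X × X) n) (DX X x n (psi x pt n) i A B)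

variable {Γ : SimpleGraph V} {x : V → G}

theorem comm_aux (hx : ∀ u v, Γ.Adj u v → Commute (x u) (x v)) {A : Finset V}
    (hA : Γ.IsClique A) {M : Type} [AddCommGroup M] [Module (ZMod 2) M]
    (F : GR G →ₐ[ZMod 2] Module.End (ZMod 2) M) :
    ∀ u ∈ A, ∀ v ∈ A, u ≠ v → ∀ c,
      F (og (x u) + 1) (F (og (x v) + 1) c) = F (og (x v) + 1) (F (og (x u) + 1) c) := by
  intro u hu v hv huv c
  have h : Commute (og (x u) + 1) (og (x v) + 1) :=
    (((hx u v (hA hu hv huv)).map og).add_right (Commute.one_right _)).add_left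
      (Commute.one_left _)
  exact congrArg (· c) (h.map F).eq

theorem bd_psi (hac : Acyclic (ZMod 2) (X × X)) (hx : ∀ u v, Γ.Adj u v → Commute (x u) (x v))
    (pt : Sing (X × X) 0) (n : ℕ) : ∀ (i : ℕ) (A B : Finset V), Γ.IsClique A → Γ.IsClique B →
      bd (ZMod 2) (X × X) n (psi x pt (n + 1) i A B) = DX X x n (psi x pt n) i A B := by
  induction n with
  | zero =>
    intro i A B _ _
    refine Function.invFun_eq (hac.zero _ ?_)
    simp only [DX, DD, D0, map_add (aug _ _), map_sum, aug_LL, aug_RR, sum_const_zero, zero_add]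
    cases i with
    | zero => exact map_zero _
    | succ i =>
      simp only [WW, map_add, aug_swp, psi]
      exact ZModModule.add_self _
  | succ n ih =>
    intro i A B hA hB
    refine Function.invFun_eq (hac.succ _ _ ?_)
    rw [DX, map_DD (a' := fun v => LL X n (og (x v) + 1)) (b' := fun v => RR X n (og (x v) + 1))
      (τ' := swp (ZMod 2) X n) _ (fun v c => bd_LL _ _ _) (fun v c => bd_RR _ _ _) (bd_swp _ n),
      DD_congr (P := fun A => Γ.IsClique (A : Set V))
        (fun A v h => h.subset (coe_subset.2 (erase_subset _ _))) ih i hA hB]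
    exact DD_DD (fun u v c => LL_RR _ _ _ _) (fun v c => swp_LL _ _ _) (fun v c => swp_RR _ _ _)
      (swp_swp _ n) _ i (comm_aux hx hA _) (comm_aux hx hB _)

/-- The value of the chain map on a product of two boxes. -/
noncomputable def phi (x : V → G) (pt : Sing (X × X) 0) (R n i : ℕ) (c : DCell V) : Ch X n :=
  LL X n (box x R c.1) (RR X n (box x R c.2)
    (psi x pt n i (c.1.image Prod.fst) (c.2.image Prod.fst)))

/-- Its linear extension. -/
noncomputable def Phi (x : V → G) (pt : Sing (X × X) 0) (R n i : ℕ) :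
    (DCell V →₀ ZMod 2) →ₗ[ZMod 2] Ch X n :=
  Finsupp.linearCombination (ZMod 2) (phi x pt R n i)

/-- The terms that come from the resolution `W`. -/
noncomputable def Wphi (x : V → G) (pt : Sing (X × X) 0) (R n : ℕ) :
    ℕ → (DCell V →₀ ZMod 2) →ₗ[ZMod 2] Ch X n
  | 0 => 0
  | i + 1 => Phi x pt R n i + swp (ZMod 2) X n ∘ₗ Phi x pt R n i ∘ₗ dswp

theorem osimp_inj {σ : Finset (V × Bool)} (hσ : OSimp Γ σ) :
    ∀ a ∈ σ, ∀ b ∈ σ, a.1 = b.1 → a = b := fun a ha b hb h => by
  by_contra hne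
  exact (hσ a ha b hb hne).ne h

theorem osimp_clique {σ : Finset (V × Bool)} (hσ : OSimp Γ σ) :
    Γ.IsClique (σ.image Prod.fst : Finset V) := by
  intro u hu v hv huv
  simp only [coe_image, Set.mem_image, mem_coe] at hu hv
  obtain ⟨a, ha, rfl⟩ := hu
  obtain ⟨b, hb, rfl⟩ := hv
  exact hσ a ha b hb fun h => huv (congrArg _ h)

theorem image_erase_eq {σ : Finset (V × Bool)} (hσ : OSimp Γ σ) {a : V × Bool} (ha : a ∈ σ) :
    (σ.image Prod.fst).erase a.1 = (σ.erase a).image Prod.fst := by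
  ext v
  simp only [mem_erase, mem_image]
  constructor
  · rintro ⟨hv, b, hb, rfl⟩
    exact ⟨b, ⟨fun h => hv (congrArg _ h), hb⟩, rfl⟩
  · rintro ⟨b, ⟨hb, hb'⟩, rfl⟩
    exact ⟨fun h => hb (osimp_inj hσ b hb' a ha h), b, hb', rfl⟩

/-- The boundary of a product of boxes consists of near faces, far faces and the `W` terms. -/
theorem bd_phi (hac : Acyclic (ZMod 2) (X × X)) (hx : ∀ u v, Γ.Adj u v → Commute (x u) (x v))
    (pt : Sing (X × X) 0) (R n i : ℕ) {σ ρ : Finset (V × Bool)} (hσ : OSimp Γ σ)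
    (hρ : OSimp Γ ρ) :
    bd (ZMod 2) (X × X) n (Phi x pt R (n + 1) i (Finsupp.single (σ, ρ) 1)) +
      Phi x pt R n i (dbd (Finsupp.single (σ, ρ) 1)) + Wphi x pt R n i (Finsupp.single (σ, ρ) 1) =
    ∑ a ∈ σ, LL X n (box x R (σ.erase a) * og (sg x a ^ R)) (RR X n (box x R ρ)
        (psi x pt n i ((σ.erase a).image Prod.fst) (ρ.image Prod.fst))) +
      ∑ a ∈ ρ, LL X n (box x R σ) (RR X n (box x R (ρ.erase a) * og (sg x a ^ R))
        (psi x pt n i (σ.image Prod.fst) ((ρ.erase a).image Prod.fst))) := by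
  have hW : Wphi x pt R n i (Finsupp.single (σ, ρ) 1) = LL X n (box x R σ) (RR X n (box x R ρ)
      (WW (swp (ZMod 2) X n) (psi x pt n) i (σ.image Prod.fst) (ρ.image Prod.fst))) := by
    cases i with
    | zero => simp only [Wphi, WW, LinearMap.zero_apply, map_zero]
    | succ i =>
      simp only [Wphi, WW, LinearMap.add_apply, LinearMap.comp_apply, dswp,
        Finsupp.lmapDomain_apply, Finsupp.mapDomain_single, Phi, Finsupp.linearCombination_single,
        one_smul, phi, map_add, Prod.swap_prod_mk, swp_LL, swp_RR, LL_RR]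
  have h1 : ∀ a ∈ σ, ∀ c, LL X n (box x R σ) (RR X n (box x R ρ) (LL X n (og (x a.1) + 1) c)) =
      LL X n (box x R (σ.erase a) * og (sg x a ^ R)) (RR X n (box x R ρ) c) +
        LL X n (box x R (σ.erase a)) (RR X n (box x R ρ) c) := fun a ha c => by
    rw [← LL_RR, ← Module.End.mul_apply, ← map_mul, box_mul hx R hσ ha, map_add,
      LinearMap.add_apply]
  have h2 : ∀ a ∈ ρ, ∀ c, LL X n (box x R σ) (RR X n (box x R ρ) (RR X n (og (x a.1) + 1) c)) =
      LL X n (box x R σ) (RR X n (box x R (ρ.erase a) * og (sg x a ^ R)) c) +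
        LL X n (box x R σ) (RR X n (box x R (ρ.erase a)) c) := fun a ha c => by
    rw [← Module.End.mul_apply (RR X n _), ← map_mul, box_mul hx R hρ ha, map_add,
      LinearMap.add_apply, map_add]
  rw [hW]
  simp only [Phi, dbd, Finsupp.linearCombination_single, one_smul, phi, map_add, map_sum]
  rw [bd_LL, bd_RR, bd_psi hac hx pt n i _ _ (osimp_clique hσ) (osimp_clique hρ), DX, DD, D0,
    sum_image (osimp_inj hσ), sum_image (osimp_inj hρ), map_add, map_add, map_add, map_add,
    map_sum, map_sum, map_sum, map_sum,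
    sum_congr rfl fun a ha => (h1 a ha _).trans (by rw [image_erase_eq hσ ha]),
    sum_congr rfl fun a ha => (h2 a ha _).trans (by rw [image_erase_eq hρ ha]),
    sum_add_distrib, sum_add_distrib]
  have key : ∀ p q r s t : Ch X n, p + q + (r + s) + t + (q + s) + t = p + r := fun p q r s t => by
    have : p + q + (r + s) + t + (q + s) + t = p + r + ((q + s + t) + (q + s + t)) := by abel
    rw [this, ZModModule.add_self, add_zero]
  exact key _ _ _ _ _

end Far

end Pool.Agent.MP_4f4d9f_gt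

end

section

/-! Far boxes give chains off the diagonal. -/

set_option linter.unusedSectionVars false

namespace Pool.Agent.MP_4f4d9f_gt

namespace Far

open Finset

variable {G X : Type} [Group G] [TopologicalSpace X] [MulAction G X] [ContinuousConstSMul G X]
  {V : Type} [DecidableEq V] {Γ : SimpleGraph V} {x : V → G} {ab : V → G →* Multiplicative ℤ}

theorem swp_off {n : ℕ} {c : Ch X n} (hc : c ∈ supp (ZMod 2) (offDiag X) n) :
    swp (ZMod 2) X n c ∈ supp (ZMod 2) (offDiag X) n :=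
  swp_mem_supp (fun _ hy => Ne.symm hy) hc

theorem far_mem (hab : ∀ u v, u ≠ v → ab v (x u) = 1) (hab' : ∀ v, 1 ≤ (ab v (x v)).toAdd)
    {K : Set X} {R : ℕ} (hR : ∀ a g, ((g • ·) '' K ∩ K).Nonempty → sab ab a g < R)
    {σ ρ : Finset (V × Bool)} (hσ : OSimp Γ σ) (hd : Disjoint σ ρ) {a : V × Bool} (ha : a ∈ σ)
    {n : ℕ} {c : Ch X n} (hc : c ∈ supp (ZMod 2) (K ×ˢ K) n) :
    LL X n (box x R (σ.erase a) * og (sg x a ^ R)) (RR X n (box x R ρ) c) ∈
      supp (ZMod 2) (offDiag X) n := by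
  have h1 := box_mem hab hab' R (σ.erase a)
  have h2 := box_mem hab hab' R ρ
  generalize box x R (σ.erase a) = l at h1
  generalize box x R ρ = r at h2
  induction h1 using Submodule.span_induction with
  | zero => simp
  | add l l' _ _ hl hl' => simpa only [add_mul, map_add, LinearMap.add_apply] using add_mem hl hl'
  | smul s l _ hl =>
    simpa only [smul_mul_assoc, map_smul, LinearMap.smul_apply] using Submodule.smul_mem _ s hl
  | mem l hl =>
    obtain ⟨g, hg, rfl⟩ := hl
    induction h2 using Submodule.span_induction with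
    | zero => simp
    | add r r' _ _ hr hr' => simpa only [map_add, LinearMap.add_apply] using add_mem hr hr'
    | smul s r _ hr =>
      simpa only [map_smul, LinearMap.smul_apply] using Submodule.smul_mem _ s hr
    | mem r hr =>
      obtain ⟨h, hh, rfl⟩ := hr
      rw [← map_mul, LL_og, RR_og, ← Module.End.mul_apply, ← map_mul]
      refine push_mem_supp _ (fun y hy e => ?_) hc
      refine (hR a _ ⟨y.2, ⟨y.1, hy.1, ?_⟩, hy.2⟩).not_ge (far_sab hab' R hσ hd ha hg hh)
      have e' : (g * sg x a ^ R) • y.1 = h • y.2 := by simpa [mv] using e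
      simp only [mul_smul h⁻¹, e', inv_smul_smul]

theorem key (hac : Acyclic (ZMod 2) (X × X)) (hx : ∀ u v, Γ.Adj u v → Commute (x u) (x v))
    (hab : ∀ u v, u ≠ v → ab v (x u) = 1) (hab' : ∀ v, 1 ≤ (ab v (x v)).toAdd)
    {K : Set X} {R : ℕ} (hR : ∀ a g, ((g • ·) '' K ∩ K).Nonempty → sab ab a g < R)
    (pt : Sing (X × X) 0) {n i : ℕ} (hK : ∀ A B, psi x pt n i A B ∈ supp (ZMod 2) (K ×ˢ K) n)
    {e : DCell V →₀ ZMod 2} (he : ∀ c ∈ e.support, ∃ l, GoodCell Γ l c) :
    bd (ZMod 2) (X × X) n (Phi x pt R (n + 1) i e) + Phi x pt R n i (dbd e) +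
      Wphi x pt R n i e ∈ supp (ZMod 2) (offDiag X) n := by
  have h : ∀ e, bd (ZMod 2) (X × X) n (Phi x pt R (n + 1) i e) + Phi x pt R n i (dbd e) +
      Wphi x pt R n i e = (bd (ZMod 2) (X × X) n ∘ₗ Phi x pt R (n + 1) i +
        Phi x pt R n i ∘ₗ dbd + Wphi x pt R n i) e := fun _ => rfl
  rw [h, ← e.sum_single, Finsupp.sum, map_sum]
  refine sum_mem fun c hc => ?_
  obtain ⟨l, hσ, hρ, hd, -⟩ := he c hc
  rw [← Finsupp.smul_single_one, map_smul, ← h]
  refine Submodule.smul_mem _ _ ?_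
  rw [show c = (c.1, c.2) from rfl, bd_phi hac hx pt R n i hσ hρ]
  refine add_mem (sum_mem fun a ha => far_mem hab hab' hR hσ hd ha (hK _ _))
    (sum_mem fun a ha => ?_)
  have := swp_off (far_mem hab hab' hR hρ hd.symm ha
    (swp_mem_supp (B := K ×ˢ K) (fun y hy => ⟨hy.2, hy.1⟩)
      (hK (c.1.image Prod.fst) ((c.2.erase a).image Prod.fst))))
  rwa [swp_LL, swp_RR, swp_swp, ← LL_RR] at this

theorem dbd_zero {e : DCell V →₀ ZMod 2} (he : ∀ c ∈ e.support, GoodCell Γ 0 c)
    (h1 : e.sum (fun _ a => a) = 1) : dbd e = Finsupp.single (∅, ∅) 1 := by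
  rw [dbd, Finsupp.linearCombination_apply, Finsupp.sum,
    sum_congr rfl (g := fun c => e c • Finsupp.single ((∅, ∅) : DCell V) (1 : ZMod 2)) ?_,
    ← sum_smul]
  · rw [Finsupp.sum] at h1
    rw [h1, one_smul]
  · rintro ⟨σ, ρ⟩ hc
    have h := (he _ hc).2.2.2
    dsimp only at h ⊢
    congr 1
    rcases (show σ.card = 1 ∧ ρ.card = 0 ∨ σ.card = 0 ∧ ρ.card = 1 by omega) with h | h
    · obtain ⟨a, rfl⟩ := card_eq_one.1 h.1
      obtain rfl := card_eq_zero.1 h.2
      simp
    · obtain ⟨a, rfl⟩ := card_eq_one.1 h.2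
      obtain rfl := card_eq_zero.1 h.1
      simp

theorem exists_K [Fintype V] (x : V → G) (pt : Sing (X × X) 0) (m : ℕ) :
    ∃ K : Set X, IsCompact K ∧ ∀ n ≤ m, ∀ i ≤ m, ∀ A B,
      psi x pt n i A B ∈ supp (ZMod 2) (K ×ˢ K) n := by
  choose K hK _ hK' using fun t : Fin (m + 1) × Fin (m + 1) × Finset V × Finset V =>
    exists_compact_supp (mem_supp_univ (psi x pt t.1 t.2.1 t.2.2.1 t.2.2.2))
  have h := isCompact_iUnion hK
  refine ⟨Prod.fst '' (⋃ t, K t) ∪ Prod.snd '' (⋃ t, K t),
    (h.image continuous_fst).union (h.image continuous_snd), fun n hn i hi A B => ?_⟩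
  refine supp_mono (fun y hy => ?_) n
    (hK' (⟨n, Nat.lt_succ_of_le hn⟩, ⟨i, Nat.lt_succ_of_le hi⟩, A, B))
  exact ⟨Or.inl ⟨y, Set.mem_iUnion_of_mem _ hy, rfl⟩, Or.inr ⟨y, Set.mem_iUnion_of_mem _ hy, rfl⟩⟩

theorem exists_R [Fintype V] (ab : V → G →* Multiplicative ℤ) {S : Set G} (hS : S.Finite) :
    ∃ R : ℕ, ∀ a, ∀ g ∈ S, sab ab a g < R := by
  obtain ⟨b, hb⟩ := ((Set.finite_univ.prod hS).image
    fun t : (V × Bool) × G => sab ab t.1 t.2).bddAbove
  refine ⟨b.toNat + 1, fun a g hg => ?_⟩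
  have := hb ⟨(a, g), ⟨trivial, hg⟩, rfl⟩
  dsimp only at this
  omega

theorem bd_swp_pow (n i : ℕ) (c : Ch X (n + 1)) :
    bd (ZMod 2) (X × X) n ((swp (ZMod 2) X (n + 1) ^ i) c) =
      (swp (ZMod 2) X n ^ i) (bd (ZMod 2) (X × X) n c) := by
  induction i with
  | zero => rfl
  | succ i ih => rw [pow_succ', pow_succ', Module.End.mul_apply, Module.End.mul_apply, bd_swp, ih]

theorem swp_pow_off {n : ℕ} (i : ℕ) {c : Ch X n} (hc : c ∈ supp (ZMod 2) (offDiag X) n) :
    (swp (ZMod 2) X n ^ i) c ∈ supp (ZMod 2) (offDiag X) n := by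
  induction i with
  | zero => exact hc
  | succ i ih =>
    rw [pow_succ', Module.End.mul_apply]
    exact swp_off ih

theorem swp_pow_succ (n i : ℕ) (c : Ch X n) :
    (swp (ZMod 2) X n ^ (i + 1)) c = swp (ZMod 2) X n ((swp (ZMod 2) X n ^ i) c) := by
  rw [pow_succ', Module.End.mul_apply]

theorem swp_pow_swp (n i : ℕ) (c : Ch X n) :
    (swp (ZMod 2) X n ^ i) (swp (ZMod 2) X n c) = swp (ZMod 2) X n ((swp (ZMod 2) X n ^ i) c) := by
  rw [← swp_pow_succ, pow_succ, Module.End.mul_apply]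

end Far

open Far Finset in
/-- Parts (B) and (C). -/
theorem far {V : Type} [Fintype V] [DecidableEq V] (Γ : SimpleGraph V)
    {G X : Type} [Group G] [TopologicalSpace X] [MulAction G X] [ContinuousConstSMul G X]
    (hprop : ∀ K : Set X, IsCompact K → {g : G | ((g • ·) '' K ∩ K).Nonempty}.Finite)
    (hac : Acyclic (ZMod 2) (X × X))
    (x : V → G) (hx : ∀ u v, Γ.Adj u v → Commute (x u) (x v))
    (ab : V → G →* Multiplicative ℤ) (hab : ∀ u v, u ≠ v → ab v (x u) = 1)
    (hab' : ∀ v, 1 ≤ (ab v (x v)).toAdd)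
    (m : ℕ) (h : HasDChain Γ m) : HasBU X m := by
  obtain ⟨d, hd, hdd, hd0⟩ := h
  obtain ⟨y⟩ := hac.nonempty
  let pt : Sing (X × X) 0 := ContinuousMap.const _ y
  obtain ⟨K, hK, hψ⟩ := exists_K x pt (m + 1)
  obtain ⟨R, hR⟩ := exists_R ab (hprop K hK)
  let o : DCell V →₀ ZMod 2 := Finsupp.single (∅, ∅) 1
  let d' : ℕ → (DCell V →₀ ZMod 2) := fun l => Nat.casesOn l 0 d
  let C : (n : ℕ) → Ch X n := fun n =>
    ∑ p ∈ antidiagonal n, (swp (ZMod 2) X n ^ p.1) (Phi x pt R n p.1 (d' p.2))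
  let q : (n : ℕ) → Ch X n := fun n => (swp (ZMod 2) X n ^ n) (Phi x pt R n n o)
  have ho : ∀ n i, Phi x pt R n i o = psi x pt n i ∅ ∅ := fun n i => by
    simp only [Phi, o, Finsupp.linearCombination_single, one_smul, phi, box_empty, map_one,
      Module.End.one_apply, image_empty]
  have hq : ∀ n, bd (ZMod 2) (X × X) n (q (n + 1)) = q n + swp (ZMod 2) X n (q n) := fun n => by
    simp only [q, ho]
    rw [bd_swp_pow, bd_psi hac hx pt n _ _ _ (by simp) (by simp)]
    simp only [DX, DD, D0, WW, sum_empty, zero_add, map_add, swp_pow_succ, swp_pow_swp, swp_swp]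
    exact add_comm _ _
  refine ⟨fun n => bd (ZMod 2) (X × X) n (C (n + 1)) + C n + swp (ZMod 2) X n (C n) + q n,
    fun n hn => ?_, fun n _ => ?_, ?_⟩
  · have hmem : ∑ p ∈ antidiagonal (n + 1), (swp (ZMod 2) X n ^ p.1)
        (bd (ZMod 2) (X × X) n (Phi x pt R (n + 1) p.1 (d' p.2)) +
          Phi x pt R n p.1 (dbd (d' p.2)) + Wphi x pt R n p.1 (d' p.2)) ∈
        supp (ZMod 2) (offDiag X) n := by
      refine sum_mem fun p hp => swp_pow_off _ ?_
      have hp' := mem_antidiagonal.1 hp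
      refine key hac hx hab hab' (fun a g hg => hR a g hg) pt
        (hψ n (by omega) p.1 (by omega)) fun c hc => ?_
      rcases p with ⟨i, _ | l⟩
      · simp [d'] at hc
      · exact ⟨l, hd l (by dsimp only at hp'; omega) c hc⟩
    have h1 : ∑ p ∈ antidiagonal (n + 1), (swp (ZMod 2) X n ^ p.1)
        (Phi x pt R n p.1 (dbd (d' p.2))) = C n + ∑ p ∈ antidiagonal n, (swp (ZMod 2) X n ^ p.1)
          (Phi x pt R n p.1 (dswp (d' p.2))) + q n := by
      have h2 : q n = ∑ p ∈ antidiagonal n, (swp (ZMod 2) X n ^ p.1)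
          (Phi x pt R n p.1 (if p.2 = 0 then o else 0)) := by
        rw [sum_eq_single (n, 0)]
        · simp [q]
        · rintro ⟨i, l⟩ hp hne
          have hp' := mem_antidiagonal.1 hp
          have : l ≠ 0 := by
            rintro rfl
            exact hne (Prod.ext (by simpa using hp') rfl)
          simp [this]
        · intro hp
          exact absurd (by simp) hp
      rw [Nat.sum_antidiagonal_succ', h2, ← sum_add_distrib, ← sum_add_distrib]
      simp only [d', Nat.rec_zero, map_zero, zero_add, ← map_add]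
      refine sum_congr rfl ?_
      rintro ⟨i, _ | l⟩ hp
      · simp [dbd_zero (hd 0 (Nat.zero_le _)) hd0, o]
      · have hp' := mem_antidiagonal.1 hp
        dsimp only at hp' ⊢
        rw [hdd l (by omega)]
        simp
    have h3 : ∑ p ∈ antidiagonal (n + 1), (swp (ZMod 2) X n ^ p.1)
        (Wphi x pt R n p.1 (d' p.2)) = swp (ZMod 2) X n (C n) +
          ∑ p ∈ antidiagonal n, (swp (ZMod 2) X n ^ p.1) (Phi x pt R n p.1 (dswp (d' p.2))) := by
      rw [Nat.sum_antidiagonal_succ]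
      simp only [Wphi, LinearMap.zero_apply, map_zero, zero_add, LinearMap.add_apply,
        LinearMap.comp_apply, map_add, swp_pow_succ, swp_pow_swp, swp_swp, sum_add_distrib, C,
        map_sum]
    simp only [map_add, sum_add_distrib] at hmem
    rw [h1, h3] at hmem
    convert hmem using 1
    have h4 : bd (ZMod 2) (X × X) n (C (n + 1)) = ∑ p ∈ antidiagonal (n + 1),
        (swp (ZMod 2) X n ^ p.1) (bd (ZMod 2) (X × X) n (Phi x pt R (n + 1) p.1 (d' p.2))) := by
      simp only [C, map_sum, bd_swp_pow]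
    rw [← h4]
    have key : ∀ a b c e s : Ch X n, a + b + c + e = a + (b + s + e) + (c + s) := by
      intro a b c e s
      have : a + (b + s + e) + (c + s) = a + b + c + e + (s + s) := by abel
      rw [this, ZModModule.add_self, add_zero]
    exact key _ _ _ _ _
  · simp only [map_add, bd_bd, bd_swp, hq, swp_swp, zero_add]
    have key : ∀ a a' b b' e e' : Ch X n,
        a + a' + (e + e') = a + b + b' + e + (a' + b' + b + e') := by
      intro a a' b b' e e'
      have : a + b + b' + e + (a' + b' + b + e') = a + a' + (e + e') + ((b + b') + (b + b')) := by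
        abel
      rw [this, ZModModule.add_self, add_zero]
    exact key _ _ _ _ _ _
  · simp only [map_add, aug_bd, aug_swp, zero_add, ZModModule.add_self, q, ho, pow_zero,
      Module.End.one_apply, psi, aug_single]

end Pool.Agent.MP_4f4d9f_gt

end

section

/-! Algebra of the Borel complex: acyclic quotients, Mayer-Vietoris, and the suspension step. -/

namespace Pool.Agent.MP_4f4d9f_gt

variable {X : Type} [TopologicalSpace X]

/-- The small chain property for covers by two open sets. -/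
def SmallChain (Z : Type) [TopologicalSpace Z] : Prop :=
  ∀ A B : Set Z, IsOpen A → IsOpen B → ∀ k, ∀ c ∈ supp (ZMod 2) (A ∪ B) (k + 1),
    bd (ZMod 2) Z k c ∈ supp (ZMod 2) A k ⊔ supp (ZMod 2) B k →
    ∃ h ∈ supp (ZMod 2) (A ∪ B) (k + 2),
      c + bd (ZMod 2) Z (k + 1) h ∈ supp (ZMod 2) A (k + 1) ⊔ supp (ZMod 2) B (k + 1)

/-- A family of submodules closed under the boundary and the swap. -/
structure SubC (T : ∀ i, Submodule (ZMod 2) (Sing (X × X) i →₀ ZMod 2)) : Prop where
  bd : ∀ i, ∀ c ∈ T (i + 1), bd (ZMod 2) (X × X) i c ∈ T i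
  swp : ∀ i, ∀ c ∈ T i, swp (ZMod 2) X i c ∈ T i

/-- A set invariant under the swap. -/
def Symm (A : Set (X × X)) : Prop := ∀ y ∈ A, Prod.swap y ∈ A

theorem Symm.subC {A : Set (X × X)} (h : Symm A) : SubC (supp (ZMod 2) A) :=
  ⟨fun _ _ hc => bd_mem_supp hc, fun _ _ hc => swp_mem_supp h hc⟩

omit [TopologicalSpace X] in
theorem Symm.union {A B : Set (X × X)} (hA : Symm A) (hB : Symm B) : Symm (A ∪ B) :=
  fun y hy => hy.imp (hA y) (hB y)

omit [TopologicalSpace X] in
theorem Symm.inter {A B : Set (X × X)} (hA : Symm A) (hB : Symm B) : Symm (A ∩ B) :=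
  fun y hy => ⟨hA y hy.1, hB y hy.2⟩

theorem subC_sup {A B : Set (X × X)}
    (h : (Symm A ∧ Symm B) ∨ ((∀ y ∈ A, Prod.swap y ∈ B) ∧ ∀ y ∈ B, Prod.swap y ∈ A)) :
    SubC fun i => supp (ZMod 2) A i ⊔ supp (ZMod 2) B i where
  bd i c hc := by
    obtain ⟨a, ha, b, hb, rfl⟩ := Submodule.mem_sup.1 hc
    rw [map_add]
    exact Submodule.add_mem_sup (bd_mem_supp ha) (bd_mem_supp hb)
  swp i c hc := by
    obtain ⟨a, ha, b, hb, rfl⟩ := Submodule.mem_sup.1 hc
    rw [map_add]
    rcases h with h | h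
    · exact Submodule.add_mem_sup (swp_mem_supp h.1 ha) (swp_mem_supp h.2 hb)
    · rw [add_comm]
      exact Submodule.add_mem_sup (swp_mem_supp h.2 hb) (swp_mem_supp h.1 ha)

theorem subC_top : SubC (X := X) fun _ => ⊤ := ⟨fun _ _ _ => trivial, fun _ _ _ => trivial⟩

theorem subC_bot : SubC (X := X) fun _ => ⊥ :=
  ⟨fun _ c hc => by simp_all, fun _ c hc => by simp_all⟩

theorem BD_add (b c : BSeq X) (i : ℕ) : BD (b + c) i = BD b i + BD c i := by
  simp only [BD, Pi.add_apply, map_add]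
  abel

theorem BD_zero (i : ℕ) : BD (0 : BSeq X) i = 0 := by simp [BD]

theorem BD_BD (c : BSeq X) (i : ℕ) : BD (BD c) i = 0 := by
  simp only [BD, map_add, bd_bd, bd_swp, swp_swp]
  ext σ
  simp only [Finsupp.add_apply, Finsupp.zero_apply]
  grind

theorem BD_congr {b c : BSeq X} {i : ℕ} (h0 : b i = c i) (h1 : b (i + 1) = c (i + 1)) :
    BD b i = BD c i := by simp only [BD, h0, h1]

theorem BD_theta (a : Sing X 0 →₀ ZMod 2) (i : ℕ) : BD (theta a) i = 0 := by
  cases i with
  | zero =>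
    simp only [BD, theta, map_zero, swp, push_push]
    ext σ
    simp only [Finsupp.add_apply, Finsupp.zero_apply, zero_add]
    exact CharTwo.add_self_eq_zero _
  | succ i => simp [BD, theta]

theorem theta_add (a b : Sing X 0 →₀ ZMod 2) (i : ℕ) : theta (a + b) i = theta a i + theta b i := by
  cases i <;> simp [theta]

theorem theta_zero (i : ℕ) : theta (0 : Sing X 0 →₀ ZMod 2) i = 0 := by
  cases i <;> simp [theta]

theorem theta_mem {A : Set (X × X)} {U : Set X} (h : ∀ x ∈ U, (x, x) ∈ A)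
    {a : Sing X 0 →₀ ZMod 2} (ha : a ∈ supp (ZMod 2) U 0) (i : ℕ) :
    theta a i ∈ supp (ZMod 2) A i := by
  cases i with
  | zero => exact push_mem_supp _ (fun x hx => h x hx) ha
  | succ i => exact zero_mem _

theorem aug_theta (a : Sing X 0 →₀ ZMod 2) :
    aug (ZMod 2) (X × X) (theta a 0) = aug (ZMod 2) X a := aug_push _ _ a

theorem aug_BD (b : BSeq X) : aug (ZMod 2) (X × X) (BD b 0) = 0 := by
  simp only [BD, map_add, aug_bd, aug_swp, zero_add]
  exact CharTwo.add_self_eq_zero _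

variable {T S S' : ∀ i, Submodule (ZMod 2) (Sing (X × X) i →₀ ZMod 2)}

theorem SubC.BD_mem (hT : SubC T) {c : BSeq X} {i : ℕ} (h0 : c i ∈ T i)
    (h1 : c (i + 1) ∈ T (i + 1)) : BD c i ∈ T i :=
  add_mem (add_mem (hT.bd i _ h1) h0) (hT.swp i _ h0)

/-- One more step in the construction of a Borel filling. -/
theorem borel_extend (hT : SubC T) (hS : SubC S) {j : ℕ} (hSS : S j ≤ S' j)
    (hex : ∀ x ∈ T (j + 1), bd (ZMod 2) (X × X) j x ∈ S' j →
      ∃ h ∈ T (j + 2), x + bd (ZMod 2) (X × X) (j + 1) h ∈ S' (j + 1))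
    {c b : BSeq X} (hc : c (j + 1) ∈ T (j + 1)) (hd : BD c j ∈ S' j)
    (hb : ∀ i ≤ j + 1, b i ∈ T i) (hcb : ∀ i ≤ j, c i + BD b i ∈ S i) :
    ∃ b' : BSeq X, (∀ i ≤ j + 2, b' i ∈ T i) ∧ (∀ i ≤ j, c i + BD b' i ∈ S i) ∧
      c (j + 1) + BD b' (j + 1) ∈ S' (j + 1) := by
  have hy := hcb j le_rfl
  obtain ⟨h, hh, hx⟩ := hex (c (j + 1) + b (j + 1) + swp (ZMod 2) X _ (b (j + 1)))
    (add_mem (add_mem hc (hb _ le_rfl)) (hT.swp _ _ (hb _ le_rfl))) (by
      have e : bd (ZMod 2) (X × X) j (c (j + 1) + b (j + 1) + swp (ZMod 2) X _ (b (j + 1))) =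
          BD c j + ((c j + BD b j) + swp (ZMod 2) X _ (c j + BD b j)) := by
        simp only [BD, map_add, bd_swp, swp_swp]
        ext σ
        simp only [Finsupp.add_apply]
        grind
      rw [e]
      exact add_mem hd (hSS (add_mem hy (hS.swp _ _ hy))))
  refine ⟨Function.update b (j + 2) h, fun i hi => ?_, fun i hi => ?_, ?_⟩
  · rcases eq_or_ne i (j + 2) with rfl | hne
    · simpa using hh
    · rw [Function.update_of_ne hne]
      exact hb i (by omega)
  · rw [BD_congr (Function.update_of_ne (by omega) _ _) (Function.update_of_ne (by omega) _ _)]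
    exact hcb i hi
  · convert hx using 1
    simp only [BD, Function.update_self, Function.update_of_ne (show j + 1 ≠ j + 2 by omega)]
    abel

/-- If `T / S` is acyclic, so is the quotient of the Borel complexes. -/
theorem borel_acyc (hT : SubC T) (hS : SubC S) {c : BSeq X}
    (h0 : ∃ h ∈ T 1, c 0 + bd (ZMod 2) (X × X) 0 h ∈ S 0) (j : ℕ)
    (h1 : ∀ i < j, ∀ x ∈ T (i + 1), bd (ZMod 2) (X × X) i x ∈ S i →
      ∃ h ∈ T (i + 2), x + bd (ZMod 2) (X × X) (i + 1) h ∈ S (i + 1))
    (hc : ∀ i ≤ j, c i ∈ T i) (hd : ∀ i < j, BD c i ∈ S i) :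
    ∃ b : BSeq X, (∀ i ≤ j + 1, b i ∈ T i) ∧ ∀ i ≤ j, c i + BD b i ∈ S i := by
  induction j with
  | zero =>
    obtain ⟨h, hh, hx⟩ := h0
    refine ⟨Function.update (0 : BSeq X) 1 h, fun i hi => ?_, fun i hi => ?_⟩
    · rcases eq_or_ne i 1 with rfl | hne
      · simpa using hh
      · rw [Function.update_of_ne hne]
        exact zero_mem _
    · obtain rfl : i = 0 := by omega
      simpa [BD] using hx
  | succ j ih =>
    obtain ⟨b, hb, hcb⟩ := ih (fun i hi => h1 i (by omega)) (fun i hi => hc i (by omega))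
      (fun i hi => hd i (by omega))
    obtain ⟨b', hb', h2, h3⟩ := borel_extend (S' := S) hT hS le_rfl (h1 j (by omega))
      (hc _ le_rfl) (hd j (by omega)) hb hcb
    refine ⟨b', hb', fun i hi => ?_⟩
    rcases eq_or_ne i (j + 1) with rfl | hne
    · exact h3
    · exact h2 i (by omega)

/-- Small chains in the Borel complex. -/
theorem borel_small (hs : SmallChain (X × X)) {A B : Set (X × X)} (hA : IsOpen A) (hB : IsOpen B)
    (h : (Symm A ∧ Symm B) ∨ ((∀ y ∈ A, Prod.swap y ∈ B) ∧ ∀ y ∈ B, Prod.swap y ∈ A))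
    {c : BSeq X} {j : ℕ} (hc : ∀ i ≤ j, c i ∈ supp (ZMod 2) (A ∪ B) i)
    (hd : ∀ i < j, BD c i ∈ supp (ZMod 2) A i ⊔ supp (ZMod 2) B i) :
    ∃ h x y : BSeq X, (∀ i ≤ j + 1, h i ∈ supp (ZMod 2) (A ∪ B) i) ∧
      (∀ i, x i ∈ supp (ZMod 2) A i) ∧ (∀ i, y i ∈ supp (ZMod 2) B i) ∧
      (∀ i ≤ j, c i + BD h i = x i + y i) ∧ ∀ i < j, BD c i = BD x i + BD y i := by
  have hAB : Symm (A ∪ B) := by
    rcases h with h | h
    · exact h.1.union h.2
    · exact fun y hy => hy.elim (fun h' => Or.inr (h.1 y h')) fun h' => Or.inl (h.2 y h')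
  obtain ⟨b, hb, hcb⟩ := borel_acyc hAB.subC (subC_sup h) (c := c)
    ⟨0, zero_mem _, by simpa [← supp_union_zero] using hc 0 (Nat.zero_le _)⟩ j
    (fun i _ => hs A B hA hB i) hc hd
  have : ∀ i, ∃ x ∈ supp (ZMod 2) A i, ∃ y ∈ supp (ZMod 2) B i,
      i ≤ j → c i + BD b i = x + y := by
    intro i
    by_cases hi : i ≤ j
    · obtain ⟨x, hx, y, hy, e⟩ := Submodule.mem_sup.1 (hcb i hi)
      exact ⟨x, hx, y, hy, fun _ => e.symm⟩
    · exact ⟨0, zero_mem _, 0, zero_mem _, fun h => absurd h hi⟩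
  choose x hx y hy e using this
  refine ⟨b, x, y, hb, hx, hy, e, fun i hi => ?_⟩
  rw [← BD_add, ← BD_congr (b := c + BD b) (c := x + y) (e i hi.le) (e _ hi), BD_add, BD_BD,
    add_zero]

theorem mem_of_add_mem {k : ℕ} {P : Submodule (ZMod 2) (Sing (X × X) k →₀ ZMod 2)}
    {a b : Sing (X × X) k →₀ ZMod 2} (h : a + b ∈ P) (hb : b ∈ P) : a ∈ P :=
  (P.add_mem_iff_left hb).1 h

section MV

variable {n : ℕ} {A₁ A₂ B : Set (X × X)} {U₁ U₂ U₃ : Set X}

theorem mv_split (hs : SmallChain (X × X)) (ho₁ : IsOpen A₁) (ho₂ : IsOpen A₂) (hs₁ : Symm A₁)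
    (hs₂ : Symm A₂) (hB : B ⊆ A₂) (h₃ : PropP n (A₁ ∩ A₂) B U₃) {j : ℕ} (hj : j ≤ n)
    {c : BSeq X} (hc : RelCyc (A₁ ∪ A₂) B j c) :
    ∃ h c₁ c₂ : BSeq X, (∀ i ≤ j + 1, h i ∈ supp (ZMod 2) (A₁ ∪ A₂) i) ∧ RelCyc A₁ B j c₁ ∧
      RelCyc A₂ B j c₂ ∧ ∀ i ≤ j, c i + BD h i = c₁ i + c₂ i := by
  obtain ⟨h, x, y, hh, hx, hy, e, e'⟩ := borel_small hs ho₁ ho₂ (Or.inl ⟨hs₁, hs₂⟩) hc.1
    fun i hi => Submodule.mem_sup_right (supp_mono hB i (hc.2 i hi))
  cases j with
  | zero => exact ⟨h, x, y, hh, ⟨fun i _ => hx i, by simp⟩, ⟨fun i _ => hy i, by simp⟩, e⟩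
  | succ j =>
    obtain ⟨b, hb, hxb⟩ := h₃.low j hj (BD x) ⟨fun i hi => by
      rw [supp_inter]
      refine ⟨hs₁.subC.BD_mem (hx _) (hx _), mem_of_add_mem ?_ (hs₂.subC.BD_mem (hy _) (hy _))⟩
      rw [← e' i (by omega)]
      exact supp_mono hB i (hc.2 i (by omega)), fun i _ => by rw [BD_BD]; exact zero_mem _⟩
    refine ⟨h, x + b, y + b, hh,
      ⟨fun i hi => add_mem (hx i) (supp_mono Set.inter_subset_left i (hb i hi)), fun i hi => ?_⟩,
      ⟨fun i hi => add_mem (hy i) (supp_mono Set.inter_subset_right i (hb i hi)), fun i hi => ?_⟩,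
      fun i hi => ?_⟩
    · rw [BD_add]
      exact hxb i (by omega)
    · have := add_mem (hc.2 i hi) (hxb i (by omega))
      convert this using 1
      rw [BD_add, e' i hi]
      ext σ
      simp only [Finsupp.add_apply]
      grind
    · rw [e i hi]
      ext σ
      simp only [Finsupp.add_apply, Pi.add_apply]
      grind

theorem relBd_glue {j : ℕ} {c h c₁ c₂ d₁ d₂ d : BSeq X}
    (hh : ∀ i ≤ j + 1, h i ∈ supp (ZMod 2) (A₁ ∪ A₂) i) (e : ∀ i ≤ j, c i + BD h i = c₁ i + c₂ i)
    (hd : ∀ i, d i = d₁ i + d₂ i)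
    (h₁ : RelBd A₁ B j (c₁ + d₁)) (h₂ : RelBd A₂ B j (c₂ + d₂)) : RelBd (A₁ ∪ A₂) B j (c + d) := by
  obtain ⟨b₁, hb₁, hc₁⟩ := h₁
  obtain ⟨b₂, hb₂, hc₂⟩ := h₂
  refine ⟨h + b₁ + b₂, fun i hi => add_mem (add_mem (hh i hi)
    (supp_mono Set.subset_union_left i (hb₁ i hi)))
    (supp_mono Set.subset_union_right i (hb₂ i hi)), fun i hi => ?_⟩
  convert add_mem (hc₁ i hi) (hc₂ i hi) using 1
  rw [BD_add, BD_add]
  have e1 := e i hi
  simp only [Pi.add_apply, hd]
  linear_combination (norm := abel) e1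

/-- The Mayer-Vietoris step. -/
theorem PropP.union (hs : SmallChain (X × X)) (ho₁ : IsOpen A₁) (ho₂ : IsOpen A₂) (hs₁ : Symm A₁)
    (hs₂ : Symm A₂) (hB : B ⊆ A₂) (hU₁ : ∀ x ∈ U₁, (x, x) ∈ A₁) (hU₂ : ∀ x ∈ U₂, (x, x) ∈ A₂)
    (h31 : U₃ ⊆ U₁) (h32 : U₃ ⊆ U₂) (h₁ : PropP n A₁ B U₁) (h₂ : PropP n A₂ B U₂)
    (h₃ : PropP n (A₁ ∩ A₂) B U₃) : PropP n (A₁ ∪ A₂) B (U₁ ∪ U₂) where
  low j hj c hc := by
    obtain ⟨h, c₁, c₂, hh, hc₁, hc₂, e⟩ := mv_split hs ho₁ ho₂ hs₁ hs₂ hB h₃ hj.le hc
    simpa using relBd_glue (d₁ := 0) (d₂ := 0) (d := 0) hh e (by simp)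
      (by simpa using h₁.low j hj c₁ hc₁) (by simpa using h₂.low j hj c₂ hc₂)
  top c hc := by
    obtain ⟨h, c₁, c₂, hh, hc₁, hc₂, e⟩ := mv_split hs ho₁ ho₂ hs₁ hs₂ hB h₃ le_rfl hc
    obtain ⟨a₁, ha₁, hb₁⟩ := h₁.top c₁ hc₁
    obtain ⟨a₂, ha₂, hb₂⟩ := h₂.top c₂ hc₂
    exact ⟨a₁ + a₂, add_mem (supp_mono Set.subset_union_left 0 ha₁)
      (supp_mono Set.subset_union_right 0 ha₂), relBd_glue hh e (theta_add a₁ a₂) hb₁ hb₂⟩
  odd a ha := by
    rintro ⟨b, hb, hab⟩
    rw [supp_union_zero] at ha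
    obtain ⟨a₁, ha₁, a₂, ha₂, rfl⟩ := Submodule.mem_sup.1 ha
    obtain ⟨h, x, y, -, hx, hy, -, e'⟩ := borel_small hs ho₁ ho₂ (Or.inl ⟨hs₁, hs₂⟩) hb
      fun i hi => by
        refine mem_of_add_mem (b := theta (a₁ + a₂) i) ?_ ?_
        · rw [add_comm]
          exact Submodule.mem_sup_right (supp_mono hB i (hab i (by omega)))
        · rw [theta_add]
          exact Submodule.add_mem_sup (theta_mem hU₁ ha₁ i) (theta_mem hU₂ ha₂ i)
    have key : ∀ i ≤ n, theta a₁ i + BD x i + (theta a₂ i + BD y i) ∈ supp (ZMod 2) B i := by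
      intro i hi
      convert hab i hi using 1
      rw [theta_add, e' i (by omega)]
      abel
    obtain ⟨a₃, ha₃, b', hb', hz⟩ := h₃.top (theta a₁ + BD x) ⟨fun i hi => by
      rw [supp_inter]
      exact ⟨add_mem (theta_mem hU₁ ha₁ i) (hs₁.subC.BD_mem (hx _) (hx _)),
        mem_of_add_mem (supp_mono hB i (key i hi))
          (add_mem (theta_mem hU₂ ha₂ i) (hs₂.subC.BD_mem (hy _) (hy _)))⟩, fun i _ => by
      rw [BD_add, BD_BD, BD_theta, add_zero]
      exact zero_mem _⟩
    have e₁ := h₁.odd (a₁ + a₃) (add_mem ha₁ (supp_mono h31 0 ha₃)) ⟨x + b', fun i hi =>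
      add_mem (hx i) (supp_mono Set.inter_subset_left i (hb' i hi)), fun i hi => by
        convert hz i hi using 1
        simp only [theta_add, BD_add, Pi.add_apply]
        abel⟩
    have e₂ := h₂.odd (a₂ + a₃) (add_mem ha₂ (supp_mono h32 0 ha₃)) ⟨y + b', fun i hi =>
      add_mem (hy i) (supp_mono Set.inter_subset_right i (hb' i hi)), fun i hi => by
        convert add_mem (hz i hi) (key i hi) using 1
        simp only [theta_add, BD_add, Pi.add_apply]
        ext σ
        simp only [Finsupp.add_apply]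
        grind⟩
    rw [map_add] at e₁ e₂ ⊢
    grind

/-- The trivial case. -/
theorem propP_of_subset {A : Set (X × X)} (h : A ⊆ B) : PropP n A B ∅ where
  low j _ c hc := ⟨0, fun i _ => zero_mem _, fun i hi => by
    rw [BD_zero, add_zero]; exact supp_mono h i (hc.1 i hi)⟩
  top c hc := ⟨0, zero_mem _, 0, fun i _ => zero_mem _, fun i hi => by
    rw [BD_zero, add_zero, Pi.add_apply, theta_zero, add_zero]; exact supp_mono h i (hc.1 i hi)⟩
  odd a ha _ := by rw [eq_zero_of_mem_supp_empty ha, map_zero]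

end MV

end Pool.Agent.MP_4f4d9f_gt

end

section

/-! Bootstrapping the property `PropP` over open sets. -/

namespace Pool.Agent.MP_4f4d9f_gt

theorem smallChain (Z : Type) [TopologicalSpace Z] : SmallChain Z :=
  fun _ _ hA hB k c hc hd => small_chain hA hB k c hc hd

variable {X : Type}

/-- The union of the complement of the diagonal with the diagonal of `U`. -/
def NB (U : Set X) : Set (X × X) := {y | y.1 = y.2 → y.1 ∈ U}

theorem symm_NB (U : Set X) : Symm (NB U) := fun _ hy h => h ▸ hy h.symm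

theorem NB_union (U V : Set X) : NB (U ∪ V) = NB U ∪ NB V := by
  ext y
  simp only [NB, Set.mem_union, Set.mem_ofPred_eq]
  tauto

theorem NB_inter (U V : Set X) : NB (U ∩ V) = NB U ∩ NB V := by
  ext y
  simp only [NB, Set.mem_inter_iff, Set.mem_ofPred_eq]
  tauto

theorem NB_iUnion {ι : Type} [Nonempty ι] (f : ι → Set X) : NB (⋃ i, f i) = ⋃ i, NB (f i) := by
  ext y
  simp only [NB, Set.mem_iUnion, Set.mem_ofPred_eq]
  by_cases h : y.1 = y.2 <;> simp [h]

theorem NB_mono {U V : Set X} (h : U ⊆ V) : NB U ⊆ NB V := fun _ hy e => h (hy e)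

theorem NB_eq (U : Set X) : NB U = U ×ˢ U ∪ offDiag X := by
  ext y
  simp only [NB, offDiag, Set.mem_union, Set.mem_prod, Set.mem_ofPred_eq]
  by_cases h : y.1 = y.2 <;> simp [h]

theorem offDiag_subset_NB (U : Set X) : offDiag X ⊆ NB U := fun _ hy e => absurd e hy

variable [TopologicalSpace X]

theorem isOpen_offDiag [T2Space X] : IsOpen (offDiag X) :=
  isOpen_ne_fun continuous_fst continuous_snd

theorem isOpen_NB [T2Space X] {U : Set X} (hU : IsOpen U) : IsOpen (NB U) := by
  rw [NB_eq]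
  exact (hU.prod hU).union isOpen_offDiag

/-- The property for an open subset of `X`. -/
def PP (n : ℕ) (U : Set X) : Prop := PropP n (NB U) (offDiag X) U

theorem PropP.of_inter {n : ℕ} {A B : Set (X × X)} {U : Set X} (hA : Symm A)
    (hU : ∀ x ∈ U, (x, x) ∈ A) (h : PropP n A (B ∩ A) U) : PropP n A B U := by
  have h1 : ∀ j c, RelCyc A B j c → RelCyc A (B ∩ A) j c := fun j c hc =>
    ⟨hc.1, fun i hi => by
      rw [supp_inter]
      exact ⟨hc.2 i hi, hA.subC.BD_mem (hc.1 i hi.le) (hc.1 _ hi)⟩⟩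
  have h2 : ∀ j c, RelBd A (B ∩ A) j c → RelBd A B j c := fun j c ⟨b, hb, hc⟩ =>
    ⟨b, hb, fun i hi => supp_mono Set.inter_subset_left i (hc i hi)⟩
  refine ⟨fun j hj c hc => h2 j c (h.low j hj c (h1 j c hc)), fun c hc => ?_, fun a ha => ?_⟩
  · obtain ⟨a, ha, hb⟩ := h.top c (h1 n c hc)
    exact ⟨a, ha, h2 n _ hb⟩
  · rintro ⟨b, hb, hc⟩
    refine h.odd a ha ⟨b, hb, fun i hi => ?_⟩
    rw [supp_inter]
    exact ⟨hc i hi, add_mem (theta_mem hU ha i)
      (hA.subC.BD_mem (hb i (by omega)) (hb _ (by omega)))⟩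

variable {n : ℕ}

theorem pp_empty : PP n (∅ : Set X) := propP_of_subset fun _ hy e => hy e

theorem pp_of_local [T2Space X] {U : Set X} (hU : IsOpen U)
    (h : PropP n (U ×ˢ U) (offDiag X ∩ U ×ˢ U) U) : PP n U := by
  have hs : Symm (U ×ˢ U) := fun y hy => ⟨hy.2, hy.1⟩
  have hd : ∀ x ∈ U, (x, x) ∈ U ×ˢ U := fun x hx => ⟨hx, hx⟩
  have := PropP.union (smallChain _) (hU.prod hU) isOpen_offDiag hs (fun y hy e => hy e.symm)
    subset_rfl hd (by simp) (Set.empty_subset _) subset_rfl (h.of_inter hs hd)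
    (propP_of_subset subset_rfl) (propP_of_subset Set.inter_subset_right)
  rwa [← NB_eq, Set.union_empty] at this

theorem PP.union [T2Space X] {U V : Set X} (hU : IsOpen U) (hV : IsOpen V) (h₁ : PP n U)
    (h₂ : PP n V) (h₃ : PP n (U ∩ V)) : PP n (U ∪ V) := by
  rw [PP, NB_union]
  rw [PP, NB_inter] at h₃
  exact PropP.union (smallChain _) (isOpen_NB hU) (isOpen_NB hV) (symm_NB U) (symm_NB V)
    (offDiag_subset_NB V) (fun x hx _ => hx) (fun x hx _ => hx) Set.inter_subset_left
    Set.inter_subset_right h₁ h₂ h₃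

theorem exists_supp_directed {Z ι : Type} [TopologicalSpace Z] [Nonempty ι] {g : ι → Set Z}
    (ho : ∀ t, IsOpen (g t)) (hd : Directed (· ⊆ ·) g) {k : ℕ} {c : Sing Z k →₀ ZMod 2}
    (hc : c ∈ supp (ZMod 2) (⋃ t, g t) k) : ∃ t, c ∈ supp (ZMod 2) (g t) k := by
  obtain ⟨K, hK, hKg, hcK⟩ := exists_compact_supp hc
  obtain ⟨t, ht⟩ := hK.elim_directed_cover g ho hKg hd
  exact ⟨t, supp_mono ht k hcK⟩

theorem exists_supp_directed' {ι : Type} [Nonempty ι] {g : ι → Set (X × X)}
    (ho : ∀ t, IsOpen (g t)) (hd : Directed (· ⊆ ·) g) {c : BSeq X} (j : ℕ)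
    (hc : ∀ i ≤ j, c i ∈ supp (ZMod 2) (⋃ t, g t) i) :
    ∃ t, ∀ i ≤ j, c i ∈ supp (ZMod 2) (g t) i := by
  induction j with
  | zero =>
    obtain ⟨t, ht⟩ := exists_supp_directed ho hd (hc 0 le_rfl)
    exact ⟨t, fun i hi => by obtain rfl : i = 0 := by omega
                             exact ht⟩
  | succ j ih =>
    obtain ⟨t, ht⟩ := ih fun i hi => hc i (by omega)
    obtain ⟨s, hs⟩ := exists_supp_directed ho hd (hc _ le_rfl)
    obtain ⟨u, htu, hsu⟩ := hd t s
    refine ⟨u, fun i hi => ?_⟩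
    rcases eq_or_ne i (j + 1) with rfl | hne
    · exact supp_mono hsu _ hs
    · exact supp_mono htu _ (ht i (by omega))

theorem pp_directed [T2Space X] {ι : Type} [Nonempty ι] {f : ι → Set X} (ho : ∀ t, IsOpen (f t))
    (hd : Directed (· ⊆ ·) f) (h : ∀ t, PP n (f t)) : PP n (⋃ t, f t) := by
  have ho' : ∀ t, IsOpen (NB (f t)) := fun t => isOpen_NB (ho t)
  have hd' : Directed (· ⊆ ·) fun t => NB (f t) := fun s t =>
    let ⟨u, h1, h2⟩ := hd s t
    ⟨u, NB_mono h1, NB_mono h2⟩
  have h2 : ∀ t j c, RelBd (NB (f t)) (offDiag X) j c → RelBd (NB (⋃ t, f t)) (offDiag X) j c :=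
    fun t j c ⟨b, hb, hc⟩ =>
      ⟨b, fun i hi => supp_mono (NB_mono (Set.subset_iUnion f t)) i (hb i hi), hc⟩
  refine ⟨fun j hj c hc => ?_, fun c hc => ?_, fun a ha => ?_⟩
  · obtain ⟨t, ht⟩ := exists_supp_directed' ho' hd' j (NB_iUnion f ▸ hc.1)
    exact h2 t j c ((h t).low j hj c ⟨ht, hc.2⟩)
  · obtain ⟨t, ht⟩ := exists_supp_directed' ho' hd' n (NB_iUnion f ▸ hc.1)
    obtain ⟨a, ha, hb⟩ := (h t).top c ⟨ht, hc.2⟩
    exact ⟨a, supp_mono (Set.subset_iUnion f t) 0 ha, h2 t n _ hb⟩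
  · rintro ⟨b, hb, hc⟩
    obtain ⟨t, ht⟩ := exists_supp_directed' ho' hd' (n + 1) (NB_iUnion f ▸ hb)
    obtain ⟨s, hs⟩ := exists_supp_directed ho hd ha
    obtain ⟨u, htu, hsu⟩ := hd t s
    exact (h u).odd a (supp_mono hsu 0 hs)
      ⟨b, fun i hi => supp_mono (NB_mono htu) i (ht i hi), hc⟩

section Basis

variable [T2Space X] {ℬ : Set (Set X)} (ho : ∀ U ∈ ℬ, IsOpen U)
  (hi : ∀ U ∈ ℬ, ∀ V ∈ ℬ, U ∩ V ∈ ℬ) (hP : ∀ U ∈ ℬ, PP n U)

include ho hi hP

theorem pp_biUnion {ι : Type} (s : Finset ι) :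
    ∀ f : ι → Set X, (∀ i, f i ∈ ℬ) → PP n (⋃ i ∈ s, f i) := by
  classical
  induction s using Finset.induction_on with
  | empty => intro f _; simpa using pp_empty
  | insert a s _ ih =>
    intro f hf
    rw [Finset.set_biUnion_insert]
    refine PP.union (ho _ (hf a)) (isOpen_biUnion fun i _ => ho _ (hf i)) (hP _ (hf a))
      (ih f hf) ?_
    rw [Set.inter_iUnion₂]
    exact ih (fun i => f a ∩ f i) fun i => hi _ (hf a) _ (hf i)

theorem pp_of_basis {W : Set X} (hW : ∀ x ∈ W, ∃ U ∈ ℬ, x ∈ U ∧ U ⊆ W) : PP n W := by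
  classical
  have e : W = ⋃ s : Finset {U // U ∈ ℬ ∧ U ⊆ W}, ⋃ i ∈ s, i.1 := by
    refine Set.Subset.antisymm (fun x hx => ?_) ?_
    · obtain ⟨U, hU, hxU, hUW⟩ := hW x hx
      exact Set.mem_iUnion.2 ⟨{⟨U, hU, hUW⟩}, by simpa using hxU⟩
    · exact Set.iUnion_subset fun s => Set.iUnion₂_subset fun i _ => i.2.2
  rw [e]
  refine pp_directed (fun s => isOpen_biUnion fun i _ => ho _ i.2.1) (fun s t => ⟨s ∪ t, ?_, ?_⟩)
    fun s => pp_biUnion ho hi hP s _ fun i => i.2.1
  · exact Set.biUnion_subset_biUnion_left (by simp)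
  · exact Set.biUnion_subset_biUnion_left (by simp)

end Basis

/-- The final contradiction. -/
theorem not_hasBU_of_pp (h : PP n (Set.univ : Set X)) (hac : Acyclic (ZMod 2) (X × X)) :
    ¬ HasBU X n := by
  rintro ⟨c, hc, hd, h0⟩
  obtain ⟨⟨x, -⟩⟩ := hac.nonempty
  let a : Sing X 0 →₀ ZMod 2 := Finsupp.single (ContinuousMap.const _ x) 1
  have ha : aug (ZMod 2) X a = 1 := aug_single _ _ _
  obtain ⟨b, -, hb⟩ := borel_acyc (c := c + theta a) subC_top subC_bot (by
      obtain ⟨b, hb⟩ := hac.zero (c 0 + theta a 0) (by rw [map_add, h0, aug_theta, ha]; rfl)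
      refine ⟨b, trivial, ?_⟩
      rw [hb, Submodule.mem_bot]
      ext σ
      exact CharTwo.add_self_eq_zero _) n
    (fun i _ y _ hy => by
      obtain ⟨b, hb⟩ := hac.succ i y hy
      refine ⟨b, trivial, ?_⟩
      rw [hb, Submodule.mem_bot]
      ext σ
      exact CharTwo.add_self_eq_zero _) (fun _ _ => trivial) (fun i hi => by
      rw [BD_add, BD_theta, add_zero, BD, hd i hi, Submodule.mem_bot, add_assoc]
      ext σ
      exact CharTwo.add_self_eq_zero _)
  have := h.odd a (mem_supp_univ a) ⟨b, fun i _ => mem_supp.2 fun _ _ _ _ => trivial,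
    fun i hi => by
      refine mem_of_add_mem ?_ (hc i hi)
      have e : theta a i + BD b i + c i = (c + theta a) i + BD b i := by
        rw [Pi.add_apply]; abel
      rw [e, (Submodule.mem_bot _).1 (hb i hi)]
      exact zero_mem _⟩
  rw [ha] at this
  exact one_ne_zero this

end Pool.Agent.MP_4f4d9f_gt

end

section

/-! Part (D): no Borsuk-Ulam chains of length `n` off the diagonal of an acyclic `n`-manifold. -/

namespace Pool.Agent.MP_4f4d9f_gt

open Topology

variable {n : ℕ} {C : Set (EuclideanSpace ℝ (Fin n))} {X : Type} [TopologicalSpace X] [T2Space X]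

theorem pp_convex (hC : Convex ℝ C) (hC' : (interior C).Nonempty)
    (e : OpenPartialHomeomorph X C) {U : Set X} (hU : IsOpen U) (hUe : U ⊆ e.source)
    (hc : Convex ℝ (Subtype.val '' (e '' U))) : PP n U := by
  rcases U.eq_empty_or_nonempty with rfl | ⟨x, hx⟩
  · exact pp_empty
  have hO : IsOpen (e '' U) := e.isOpen_image_of_subset_source hU hUe
  have ht : e '' U ⊆ e.target := by
    rintro _ ⟨y, hy, rfl⟩
    exact e.map_source (hUe hy)
  have hint : (interior (Subtype.val '' (e '' U))).Nonempty := by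
    obtain ⟨O, hO', hOe⟩ := isOpen_induced_iff.1 hO
    have hx' : (e x : EuclideanSpace ℝ (Fin n)) ∈ closure (interior C) := by
      rw [hC.closure_interior_eq_closure_of_nonempty_interior hC']
      exact subset_closure (e x).2
    have hxO : (e x : EuclideanSpace ℝ (Fin n)) ∈ O := by
      have : e x ∈ e '' U := ⟨x, hx, rfl⟩
      rwa [← hOe] at this
    obtain ⟨z, hzO, hzC⟩ := mem_closure_iff.1 hx' O hO' hxO
    refine ⟨z, mem_interior.2 ⟨O ∩ interior C, fun w hw => ?_, hO'.inter isOpen_interior,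
      hzO, hzC⟩⟩
    exact ⟨⟨w, interior_subset hw.2⟩, by rw [← hOe]; exact hw.1, rfl⟩
  have h1 : IsOpenEmbedding ((e '' U).domRestrict e.symm) := by
    have := (e.symm.restrOpen _ hO).isOpenEmbedding_restrict
    have e2 : (e.symm.restrOpen _ hO).source = e '' U := Set.inter_eq_right.2 ht
    exact this.comp (Homeomorph.setCongr e2.symm).isOpenEmbedding
  let φ := (IsEmbedding.subtypeVal (p := (· ∈ C))).homeomorphImage (e '' U)
  have h2 := h1.comp φ.symm.isOpenEmbedding
  have hr : Set.range ((e '' U).domRestrict e.symm ∘ φ.symm) = U := by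
    rw [φ.symm.surjective.range_comp, Set.range_domRestrict]
    exact e.toPartialEquiv.symm_image_image_of_subset_source hUe
  have := propP_local hc hint ⟨_, h2.continuous⟩ h2
  rw [ContinuousMap.coe_mk, hr] at this
  exact pp_of_local hU this

theorem pp_chart (hC : Convex ℝ C) (hC' : (interior C).Nonempty)
    (e : OpenPartialHomeomorph X C) {W : Set X} (hW : IsOpen W) (hWe : W ⊆ e.source) :
    PP n W := by
  refine pp_of_basis (ℬ := {U | IsOpen U ∧ U ⊆ e.source ∧ Convex ℝ (Subtype.val '' (e '' U))})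
    (fun U hU => hU.1) (fun U hU V hV => ⟨hU.1.inter hV.1, Set.inter_subset_left.trans hU.2.1, ?_⟩)
    (fun U hU => pp_convex hC hC' e hU.1 hU.2.1 hU.2.2) fun x hx => ?_
  · rw [e.injOn.image_inter hU.2.1 hV.2.1, Set.image_inter Subtype.val_injective]
    exact hU.2.2.inter hV.2.2
  · have hO : IsOpen (e '' W) := e.isOpen_image_of_subset_source hW hWe
    obtain ⟨ε, hε, hb⟩ := Metric.isOpen_iff.1 hO (e x) ⟨x, hx, rfl⟩
    have hsub : e.source ∩ e ⁻¹' Metric.ball (e x) ε ⊆ W := fun y hy => by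
      obtain ⟨z, hz, hzy⟩ := hb hy.2
      rwa [← e.injOn (hWe hz) hy.1 hzy]
    refine ⟨e.source ∩ e ⁻¹' Metric.ball (e x) ε,
      ⟨e.isOpen_inter_preimage Metric.isOpen_ball, Set.inter_subset_left, ?_⟩,
      ⟨hWe hx, Metric.mem_ball_self hε⟩, hsub⟩
    convert hC.inter (convex_ball (e x : EuclideanSpace ℝ (Fin n)) ε) using 1
    ext w
    constructor
    · rintro ⟨_, ⟨y, hy, rfl⟩, rfl⟩
      exact ⟨(e y).2, hy.2⟩
    · rintro ⟨hwC, hw⟩
      obtain ⟨z, hz, hzw⟩ := hb (show (⟨w, hwC⟩ : C) ∈ Metric.ball (e x) ε from hw)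
      exact ⟨_, ⟨z, ⟨hWe hz, by rw [Set.mem_preimage, hzw]; exact hw⟩, hzw⟩, rfl⟩

/-- Part (D). -/
theorem not_hasBU {n : ℕ} {C : Set (EuclideanSpace ℝ (Fin n))} (hC : Convex ℝ C)
    (hC' : (interior C).Nonempty) {X : Type} [TopologicalSpace X] [T2Space X]
    (hch : ∀ x : X, ∃ e : OpenPartialHomeomorph X C, x ∈ e.source)
    (hac : Acyclic (ZMod 2) (X × X)) : ¬ HasBU X n := by
  refine not_hasBU_of_pp ?_ hac
  refine pp_of_basis (ℬ := {U | IsOpen U ∧ ∃ e : OpenPartialHomeomorph X C, U ⊆ e.source})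
    (fun U hU => hU.1) (fun U hU V hV => ⟨hU.1.inter hV.1, hU.2.imp fun e he =>
      Set.inter_subset_left.trans he⟩)
    (fun U hU => hU.2.elim fun e he => pp_chart hC hC' e hU.1 he) fun x _ => ?_
  obtain ⟨e, he⟩ := hch x
  exact ⟨e.source, ⟨e.open_source, e, subset_rfl⟩, he, Set.subset_univ _⟩

end Pool.Agent.MP_4f4d9f_gt

end

section

/-! The obstruction theorem, and singular chains as a free resolution. -/

open Topology Filter

namespace Pool.Agent.MP_4f4d9f_gt

variable {M X G : Type} [TopologicalSpace M] [TopologicalSpace X] [Group G] [MulAction G X]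
  {p : X → M}

theorem t2_of_cover [T2Space M] (hp : IsQuotientCoveringMap p G) : T2Space X := by
  refine ⟨fun x y hxy => ?_⟩
  by_cases h : p x = p y
  · exact hp.isCoveringMap.isSeparatedMap x y h hxy
  · obtain ⟨U, V, hU, hV, hx, hy, hUV⟩ := t2_separation h
    exact ⟨p ⁻¹' U, p ⁻¹' V, hU.preimage hp.continuous, hV.preimage hp.continuous, hx, hy,
      hUV.preimage p⟩

theorem local_finite [T2Space M] (hp : IsQuotientCoveringMap p G) (x y : X) :
    ∃ U ∈ 𝓝 x, ∃ V ∈ 𝓝 y, {g : G | ((g • ·) '' U ∩ V).Nonempty}.Finite := by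
  have := hp.toContinuousConstSMul
  by_cases h : p y = p x
  · obtain ⟨g0, rfl⟩ := hp.apply_eq_iff_mem_orbit.1 h
    obtain ⟨U, hU, hU'⟩ := hp.disjoint x
    refine ⟨U, hU, (g0 • ·) '' U, (Homeomorph.smul g0).isOpenMap.image_mem_nhds hU,
      (Set.finite_singleton g0).subset ?_⟩
    rintro g ⟨_, ⟨a, ha, rfl⟩, b, hb, hab⟩
    have := hU' (g0⁻¹ * g) ⟨b, ⟨a, ha, by
      simp only at hab ⊢
      rw [mul_smul, ← hab, inv_smul_smul]⟩, hb⟩
    rw [inv_mul_eq_one] at this
    exact this.symm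
  · obtain ⟨V, U, hV, hU, hy, hx, hUV⟩ := t2_separation h
    refine ⟨p ⁻¹' U, (hU.preimage hp.continuous).mem_nhds hx, p ⁻¹' V,
      (hV.preimage hp.continuous).mem_nhds hy, Set.finite_empty.subset ?_⟩
    rintro g ⟨_, ⟨a, ha, rfl⟩, hb⟩
    rw [Set.mem_preimage, hp.map_smul] at hb
    exact Set.disjoint_left.1 hUV hb ha

theorem proper_of_cover [T2Space M] (hp : IsQuotientCoveringMap p G) (K : Set X)
    (hK : IsCompact K) : {g : G | ((g • ·) '' K ∩ K).Nonempty}.Finite := by
  choose U hU V hV hfin using local_finite hp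
  obtain ⟨t, -, ht⟩ := (hK.prod hK).elim_nhds_subcover (fun z => U z.1 z.2 ×ˢ V z.1 z.2)
    fun z _ => prod_mem_nhds (hU z.1 z.2) (hV z.1 z.2)
  refine (t.finite_toSet.biUnion fun z _ => hfin z.1 z.2).subset ?_
  rintro g ⟨_, ⟨a, ha, rfl⟩, hb⟩
  obtain ⟨z, hz, hz'⟩ := Set.mem_iUnion₂.1 (ht (Set.mk_mem_prod ha hb))
  exact Set.mem_biUnion hz ⟨g • a, ⟨a, hz'.1, rfl⟩, hz'.2⟩

theorem chart_of_cover {C : Type} [TopologicalSpace C] [ChartedSpace C M]
    (hp : IsQuotientCoveringMap p G) (x : X) :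
    ∃ e : OpenPartialHomeomorph X C, x ∈ e.source := by
  obtain ⟨e, he, rfl⟩ := hp.isCoveringMap.isLocalHomeomorph x
  exact ⟨e.trans (chartAt C (e x)), by simp [he]⟩

/-- The obstruction theorem. -/
theorem exactTwo_of_lt {n : ℕ} {C : Set (EuclideanSpace ℝ (Fin n))} (hC : Convex ℝ C)
    (hC' : (interior C).Nonempty) [T2Space M] [ChartedSpace C M] [ContractibleSpace X]
    (hp : IsQuotientCoveringMap p G) (H : Subgroup G)
    {V : Type} [Fintype V] [DecidableEq V] (Γ : SimpleGraph V)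
    (x : V → H) (hx : ∀ u v, Γ.Adj u v → Commute (x u) (x v))
    (ab : V → H →* Multiplicative ℤ) (hab : ∀ u v, u ≠ v → ab v (x u) = 1)
    (hab' : ∀ v, 1 ≤ (ab v (x v)).toAdd) {q : ℕ} (hq : n < 2 * q) : ExactTwo Γ q := by
  by_contra h
  have := hp.toContinuousConstSMul
  have := t2_of_cover hp
  have : ContinuousConstSMul H X := ⟨fun g => continuous_const_smul (g : G)⟩
  have hac := acyclic_of_contractible (ZMod 2) (X × X)
  have hprop : ∀ K : Set X, IsCompact K → {g : H | ((g • ·) '' K ∩ K).Nonempty}.Finite :=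
    fun K hK => Set.Finite.preimage (f := (Subtype.val : H → G)) Subtype.val_injective.injOn
      (proper_of_cover hp K hK)
  obtain ⟨c, h1, h2, h3⟩ := far Γ hprop hac x hx ab hab hab' _ (core Γ q (by omega) h)
  exact not_hasBU hC hC' (chart_of_cover hp) hac
    ⟨c, fun j hj => h1 j (by omega), fun j hj => h2 j (by omega), h3⟩

/-- Singular chains of the universal cover are a free resolution over every subgroup. -/
theorem isRes_sing [ContractibleSpace X] [ContinuousConstSMul G X]
    (hp : IsQuotientCoveringMap p G) {H : Type} [Group H] (i : H →* G)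
    (hi : Function.Injective i) :
    IsRes (H := H) (fun k => (permRep G (Sing X k)).comp i) (bd ℤ X) (aug ℤ X) where
  eqv_d k g c := bd_smul G X k (i g) c
  eqv_ε g c := aug_push ℤ ⟨(i g • ·), continuous_const_smul _⟩ c
  ε_d := aug_bd ℤ
  d_d := bd_bd ℤ
  surj := ⟨Finsupp.single (ContinuousMap.const _ (Classical.arbitrary X)) 1, aug_single ℤ _ _⟩
  exact_zero := (acyclic_of_contractible ℤ X).zero
  exact_succ := (acyclic_of_contractible ℤ X).succ
  proj k := proj_free i hi fun g σ h => by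
    have := hp.isCancelSMul
    have h' : g • σ (Classical.arbitrary _) = σ (Classical.arbitrary _) :=
      congrArg (fun τ : Sing X k => τ (Classical.arbitrary _)) h
    exact IsCancelSMul.right_cancel g 1 _ (h'.trans (one_smul _ _).symm)

end Pool.Agent.MP_4f4d9f_gt

end
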