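import Pool.Agent.MP_4f4d9f_gt.ArtinDefs
import Pool.Agent.MP_4f4d9f_gt.TensLem

set_option linter.all false

section

/-! Shared auxiliary definitions for the Artin group case. -/

open scoped Pointwise

namespace Pool.Agent.MP_4f4d9f_gt

section Coxeter

variable {S : Type} (M : CoxeterMatrix S)

/-- `f` satisfies the braid relations between elements of `T`. -/
def BraidOn {H : Type} [Monoid H] (f : S → H) (T : Set S) : Prop :=
  ∀ s ∈ T, ∀ t ∈ T, ((CoxeterSystem.braidWord M s t).map f).prod =
    ((CoxeterSystem.braidWord M t s).map f).prod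

/-- `T` is connected in the Coxeter graph (edges where `M a b ≠ 2`). -/
def Conn (T : Set S) : Prop :=
  ∀ A ⊆ T, A.Nonempty → (∀ a ∈ A, ∀ b ∈ T, b ∉ A → M a b = 2) → A = T

variable {M} {W : Type} [Group W] (cs : CoxeterSystem M W)

/-- The standard parabolic subgroup `W_T`. -/
def Wp (T : Set S) : Subgroup W := Subgroup.closure (cs.simple '' T)

/-- `u` has minimal length in the coset `W_T u`. -/
def MinRep (T : Set S) (u : W) : Prop := ∀ v ∈ Wp cs T, cs.length u ≤ cs.length (v * u)

end Coxeter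

section Artin

variable {S : Type} (M : CoxeterMatrix S)

/-- The standard generators of the Artin group. -/
def gen (s : S) : Artin M := PresentedGroup.of s

theorem gen_mem {T : Set S} {t : S} (ht : t ∈ T) : gen M t ∈ parab M T :=
  Subgroup.subset_closure ⟨t, ht, rfl⟩

theorem braidOn_gen (T : Set S) : BraidOn M (gen M) T := by
  intro s _ t _
  have h := PresentedGroup.mk_eq_mk_of_mul_inv_mem (rels := {r : FreeGroup S | ∃ s t,
    r = ((CoxeterSystem.braidWord M s t).map FreeGroup.of).prod *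
      (((CoxeterSystem.braidWord M t s).map FreeGroup.of).prod)⁻¹}) ⟨s, t, rfl⟩
  rw [map_list_prod, map_list_prod, List.map_map, List.map_map] at h
  exact h

/-- The universal property of the Artin group. -/
def Artin.lift {H : Type} [Group H] (f : S → H) (hf : BraidOn M f Set.univ) : Artin M →* H :=
  PresentedGroup.toGroup (f := f) (by
    rintro _ ⟨s, t, rfl⟩
    have e : ⇑(FreeGroup.lift f) ∘ FreeGroup.of = f := funext fun _ => FreeGroup.lift_apply_of
    rw [map_mul, map_inv, map_list_prod, map_list_prod, List.map_map, List.map_map, e,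
      hf s trivial t trivial, mul_inv_cancel])

@[simp] theorem Artin.lift_gen {H : Type} [Group H] (f : S → H) (hf : BraidOn M f Set.univ)
    (s : S) : Artin.lift M f hf (gen M s) = f s :=
  PresentedGroup.toGroup.of _

/-- The projection of the Artin group onto the Coxeter group. -/
def toW : Artin M →* M.Group :=
  Artin.lift M M.toCoxeterSystem.simple fun s _ t _ => M.toCoxeterSystem.wordProd_braidWord_eq s t

@[simp] theorem toW_gen (s : S) : toW M (gen M s) = M.toCoxeterSystem.simple s :=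
  Artin.lift_gen M _ _ s

theorem spherical_iff (T : Set S) : Spherical M T ↔ Finite (Wp M.toCoxeterSystem T) := Iff.rfl

/-- `K` contains a power of every conjugate of every central element of a spherical parabolic
subgroup. -/
def CentPow (K : Subgroup (Artin M)) : Prop :=
  ∀ T : Set S, Spherical M T → ∀ z ∈ parab M T, (∀ a ∈ parab M T, a * z = z * a) →
    ∀ g : Artin M, ∃ m : ℕ, 0 < m ∧ g * z ^ m * g⁻¹ ∈ K

/-- The nonempty spherical subsets of `T`. -/
def Sph (T : Set S) : Set (Set S) := {U | U ⊆ T ∧ U.Nonempty ∧ Spherical M U}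

/-- The nonempty connected spherical subsets of `T`. -/
abbrev LV (T : Set S) : Type := {U : Set S // U ∈ Sph M T ∧ Conn M U}

/-- Two connected spherical sets are adjacent when they are nested or orthogonal. -/
def Lam (T : Set S) : SimpleGraph (LV M T) where
  Adj U V := U ≠ V ∧ (U.1 ⊆ V.1 ∨ V.1 ⊆ U.1 ∨ ∀ a ∈ U.1, ∀ b ∈ V.1, M a b = 2)
  symm := ⟨by
    rintro U V ⟨h, h1 | h1 | h1⟩
    · exact ⟨h.symm, Or.inr (Or.inl h1)⟩
    · exact ⟨h.symm, Or.inl h1⟩
    · exact ⟨h.symm, Or.inr (Or.inr fun a ha b hb => (M.symmetric a b).trans (h1 b hb a ha))⟩⟩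
  loopless := ⟨fun _ h => h.1 rfl⟩

end Artin

section Flags

variable {α : Type} [PartialOrder α]

/-- The simplices with `p` vertices of the order complex of `P`. -/
abbrev Flag (P : Set α) (p : ℕ) : Type := {σ : Finset α // IsFlag P p σ}

/-- The inclusion of chains on `Flag P p` into chains on all finite sets. -/
noncomputable def fval (P : Set α) (p : ℕ) : (Flag P p →₀ ℤ) →ₗ[ℤ] (Finset α →₀ ℤ) :=
  Finsupp.lmapDomain ℤ ℤ Subtype.val

/-- The boundary map between chains on flags. -/
noncomputable def fbd (P : Set α) (p : ℕ) : (Flag P (p + 1) →₀ ℤ) →ₗ[ℤ] (Flag P p →₀ ℤ) :=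
  Finsupp.lcomapDomain Subtype.val Subtype.val_injective ∘ₗ obd ∘ₗ fval P (p + 1)

/-- The reduced homology of the order complex of `P` at the flags with `p` vertices is a
torsion group. -/
def TorsExact (P : Set α) (p : ℕ) : Prop :=
  ∀ z : Finset α →₀ ℤ, (∀ σ ∈ z.support, IsFlag P p σ) → obd z = 0 →
    ∃ m : ℤ, m ≠ 0 ∧ ∃ w : Finset α →₀ ℤ, (∀ σ ∈ w.support, IsFlag P (p + 1) σ) ∧ obd w = m • z

variable {S : Type} (M : CoxeterMatrix S)

theorem IsFlag.smul {p : ℕ} {σ : Finset (Set (Artin M))} (h : IsFlag (Deligne M Set.univ) p σ)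
    (g : Artin M) :
    IsFlag (Deligne M Set.univ) p (σ.map (MulAction.toPerm g).toEmbedding) := by
  refine ⟨?_, ?_, by rw [Finset.card_map, h.2.2]⟩
  · intro c hc
    obtain ⟨c', hc', rfl⟩ := Finset.mem_map.1 hc
    obtain ⟨U, hU, hU', g', -, rfl⟩ := h.1 hc'
    refine ⟨U, hU, hU', g * g', ?_, (mul_smul g g' _).symm⟩
    rw [parab, Set.image_univ, PresentedGroup.closure_range_of]
    trivial
  · rw [Finset.coe_map]
    rintro _ ⟨a, ha, rfl⟩ _ ⟨b, hb, rfl⟩ hab
    exact (h.2.1 ha hb fun e => hab (congrArg _ e)).imp Set.smul_set_mono Set.smul_set_mono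

/-- The Artin group acts on the simplices of its Deligne complex. -/
instance (p : ℕ) : MulAction (Artin M) (Flag (Deligne M Set.univ) p) where
  smul g σ := ⟨σ.1.map (MulAction.toPerm g).toEmbedding, σ.2.smul M g⟩
  one_smul σ := Subtype.ext (by
    change σ.1.map _ = σ.1
    ext c
    simp)
  mul_smul g h σ := Subtype.ext (by
    change σ.1.map _ = (σ.1.map _).map _
    rw [Finset.map_map]
    congr 1
    ext c : 1
    exact mul_smul g h c)

theorem Flag.smul_val {p : ℕ} (g : Artin M) (σ : Flag (Deligne M Set.univ) p) :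
    (g • σ).1 = σ.1.map (MulAction.toPerm g).toEmbedding := rfl

end Flags

/-- The properties of `G → N(G)` that the torsion arguments use. -/
structure OreData {G N : Type} [Group G] [Ring N] (ι : G →* N) : Prop where
  reg : ∀ a : N, IsLeftRegular a → IsRightRegular a
  ore : ∀ a y : N, IsRightRegular a → ∃ s b : N, IsLeftRegular s ∧ s * y = b * a
  sub_one : ∀ g : G, ¬ IsOfFinOrder g → IsRightRegular (ι g - 1)
  int : ∀ m : ℤ, m ≠ 0 → IsLeftRegular (m : N)

end Pool.Agent.MP_4f4d9f_gt

end

section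

/-! The geometric representation of a Coxeter system on finitely supported functions. -/

namespace Pool.Agent.MP_4f4d9f_gt

namespace CoxGeo

section Form

variable {S : Type} (M : CoxeterMatrix S)

noncomputable def kap (i j : S) : ℝ := Real.cos (Real.pi / (M i j : ℝ))

noncomputable def bil : (S →₀ ℝ) →ₗ[ℝ] (S →₀ ℝ) →ₗ[ℝ] ℝ :=
  Finsupp.linearCombination ℝ fun i => Finsupp.linearCombination ℝ fun j => -kap M i j

noncomputable def al (i : S) : S →₀ ℝ := Finsupp.single i 1

lemma kap_symm (i j : S) : kap M i j = kap M j i := by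
  unfold kap; rw [M.symmetric i j]

lemma kap_self (i : S) : kap M i i = -1 := by
  unfold kap; simp

lemma bil_al_al (i j : S) : bil M (al i) (al j) = -kap M i j := by
  simp [bil, al]

lemma bil_symm (x y : S →₀ ℝ) : bil M x y = bil M y x := by
  have h : bil M = (bil M).flip := by
    ext i j
    simp [bil, kap_symm M j i]
  conv_lhs => rw [h]
  rfl

lemma bil_al_right (x : S →₀ ℝ) (b : S) :
    bil M x (al b) = ∑ i ∈ x.support, x i * -kap M i b := by
  rw [bil_symm]
  simp only [bil, al, Finsupp.linearCombination_single, one_smul]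
  rw [Finsupp.linearCombination_apply, Finsupp.sum]
  refine Finset.sum_congr rfl fun i _ => ?_
  rw [kap_symm M b i, smul_eq_mul]

lemma bil_al_self (i : S) : bil M (al i) (al i) = 1 := by
  rw [bil_al_al, kap_self]; simp

noncomputable def rf (β : S →₀ ℝ) : Module.End ℝ (S →₀ ℝ) :=
  LinearMap.id - ((2 : ℝ) • (bil M).flip β).smulRight β

lemma rf_apply (β x : S →₀ ℝ) : rf M β x = x - (2 * bil M x β) • β := by
  simp [rf]

lemma rf_self {β : S →₀ ℝ} (h : bil M β β = 1) : rf M β β = -β := by
  rw [rf_apply, h]; module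

lemma rf_neg (β : S →₀ ℝ) : rf M (-β) = rf M β := by
  apply LinearMap.ext
  intro x
  simp [rf_apply]

lemma bil_rf {β : S →₀ ℝ} (h : bil M β β = 1) (x y : S →₀ ℝ) :
    bil M (rf M β x) (rf M β y) = bil M x y := by
  simp only [rf_apply, map_sub, map_smul, LinearMap.sub_apply, LinearMap.smul_apply, h,
    smul_eq_mul]
  rw [bil_symm M β y]; ring

lemma rf_rf {β : S →₀ ℝ} (h : bil M β β = 1) (x : S →₀ ℝ) : rf M β (rf M β x) = x := by
  rw [rf_apply M β x, map_sub, map_smul, rf_self M h, rf_apply]; module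

/-- Chebyshev-like sequence. -/
noncomputable def U (k : ℝ) : ℕ → ℝ
  | 0 => 0
  | 1 => 1
  | (n + 2) => 2 * k * U k (n + 1) - U k n

lemma U_sin (θ : ℝ) : ∀ n : ℕ, U (Real.cos θ) n * Real.sin θ = Real.sin (n * θ)
  | 0 => by simp [U]
  | 1 => by simp [U]
  | (n + 2) => by
    have h1 := U_sin θ (n + 1)
    have h0 := U_sin θ n
    have e2 : ((n + 2 : ℕ) : ℝ) * θ = (n + 1 : ℕ) * θ + θ := by push_cast; ring
    have e0 : (n : ℝ) * θ = (n + 1 : ℕ) * θ - θ := by push_cast; ring
    rw [U, sub_mul, mul_assoc, h1, h0, e2, e0, Real.sin_add, Real.sin_sub]; ring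

lemma U_one : ∀ n : ℕ, U 1 n = n
  | 0 => by simp [U]
  | 1 => by simp [U]
  | (n + 2) => by rw [U, U_one (n + 1), U_one n]; push_cast; ring

lemma sin_pos_of {i j : S} (hij : i ≠ j) (h0 : M i j ≠ 0) :
    0 < Real.sin (Real.pi / (M i j : ℝ)) := by
  have h1 := M.off_diagonal i j hij
  have h2 : (2 : ℝ) ≤ (M i j : ℝ) := by
    have : 2 ≤ M i j := by omega
    exact_mod_cast this
  apply Real.sin_pos_of_pos_of_lt_pi
  · exact div_pos Real.pi_pos (by linarith)
  · rw [div_lt_iff₀ (by linarith)]; nlinarith [Real.pi_pos]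

lemma rf_al_al (i j : S) : rf M (al i) (al j) = al j + (2 * kap M i j) • al i := by
  rw [rf_apply, bil_al_al, kap_symm M j i]; module

lemma rf_al_self (i : S) : rf M (al i) (al i) = -al i := rf_self M (bil_al_self M i)

lemma pow_al_left (i j : S) (k : ℕ) :
    ((rf M (al i) * rf M (al j)) ^ k) (al i) =
      U (kap M i j) (2 * k + 1) • al i + U (kap M i j) (2 * k) • al j := by
  induction k with
  | zero => simp [U]
  | succ k ih =>
    rw [pow_succ', Module.End.mul_apply, ih]
    have e1 : 2 * (k + 1) + 1 = (2 * k + 1) + 2 := by ring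
    have e2 : 2 * (k + 1) = 2 * k + 2 := by ring
    have hA : U (kap M i j) (2 * k + 2) =
        2 * kap M i j * U (kap M i j) (2 * k + 1) - U (kap M i j) (2 * k) := rfl
    have hB : U (kap M i j) (2 * k + 1 + 2) =
        2 * kap M i j * U (kap M i j) (2 * k + 2) - U (kap M i j) (2 * k + 1) := rfl
    rw [e1, e2, hB, hA]
    simp only [Module.End.mul_apply, map_add, map_smul, rf_al_self, map_neg, rf_al_al M j i,
      rf_al_al M i j, kap_symm M j i]
    module

lemma pow_al_right (i j : S) (k : ℕ) :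
    ((rf M (al i) * rf M (al j)) ^ k) (al j) =
      (-U (kap M i j) (2 * k)) • al i +
        (U (kap M i j) (2 * k + 1) - 2 * kap M i j * U (kap M i j) (2 * k)) • al j := by
  induction k with
  | zero => simp [U]
  | succ k ih =>
    rw [pow_succ', Module.End.mul_apply, ih]
    have e1 : 2 * (k + 1) + 1 = (2 * k + 1) + 2 := by ring
    have e2 : 2 * (k + 1) = 2 * k + 2 := by ring
    have hA : U (kap M i j) (2 * k + 2) =
        2 * kap M i j * U (kap M i j) (2 * k + 1) - U (kap M i j) (2 * k) := rfl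
    have hB : U (kap M i j) (2 * k + 1 + 2) =
        2 * kap M i j * U (kap M i j) (2 * k + 2) - U (kap M i j) (2 * k + 1) := rfl
    rw [e1, e2, hB, hA]
    simp only [Module.End.mul_apply, map_add, map_smul, rf_al_self, map_neg, rf_al_al M j i,
      rf_al_al M i j, kap_symm M j i]
    module

lemma liftable : M.IsLiftable (fun i => rf M (al i)) := by
  intro i j
  by_cases hij : i = j
  · subst hij
    rw [M.diagonal, pow_one]
    apply LinearMap.ext
    intro x
    simp [rf_rf M (bil_al_self M i)]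
  by_cases h0 : M i j = 0
  · simp [h0]
  have hs := sin_pos_of M hij h0
  set θ := Real.pi / (M i j : ℝ) with hθ
  have hm : (M i j : ℝ) ≠ 0 := by positivity
  have hk : kap M i j = Real.cos θ := rfl
  have hU0 : U (kap M i j) (2 * M i j) = 0 := by
    have h := U_sin θ (2 * M i j)
    have : ((2 * M i j : ℕ) : ℝ) * θ = 2 * Real.pi := by
      push_cast; rw [hθ]; field_simp
    rw [this, Real.sin_two_pi] at h
    rw [hk]; exact (mul_eq_zero.mp h).resolve_right hs.ne'
  have hU1 : U (kap M i j) (2 * M i j + 1) = 1 := by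
    have h := U_sin θ (2 * M i j + 1)
    have : ((2 * M i j + 1 : ℕ) : ℝ) * θ = θ + 2 * Real.pi := by
      push_cast; rw [hθ]; field_simp; ring
    rw [this, Real.sin_add_two_pi] at h
    rw [hk]
    have := mul_right_cancel₀ hs.ne' (h.trans (one_mul _).symm)
    exact this
  have hi := pow_al_left M i j (M i j)
  have hj := pow_al_right M i j (M i j)
  rw [hU0, hU1] at hi hj
  simp only [one_smul, zero_smul, add_zero, neg_zero, mul_zero, sub_zero, zero_add] at hi hj
  have hd : 1 - kap M i j ^ 2 ≠ 0 := by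
    rw [hk]; have := Real.sin_sq_add_cos_sq θ; nlinarith
  apply LinearMap.ext
  intro z
  set a := bil M z (al i)
  set b := bil M z (al j)
  set κ := kap M i j
  set z0 := z - ((a + κ * b) / (1 - κ ^ 2)) • al i - ((b + κ * a) / (1 - κ ^ 2)) • al j with hz0
  have h1 : bil M z0 (al i) = 0 := by
    simp only [hz0, map_sub, map_smul, LinearMap.sub_apply, LinearMap.smul_apply, bil_al_self,
      bil_al_al, kap_symm M j i, smul_eq_mul]
    change a - _ - _ * -κ = 0
    field_simp; ring
  have h2 : bil M z0 (al j) = 0 := by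
    simp only [hz0, map_sub, map_smul, LinearMap.sub_apply, LinearMap.smul_apply, bil_al_self,
      bil_al_al, smul_eq_mul]
    change b - _ * -κ - _ = 0
    field_simp; ring
  have h3 : ∀ k : ℕ, ((rf M (al i) * rf M (al j)) ^ k) z0 = z0 := by
    intro k
    induction k with
    | zero => simp
    | succ k ih =>
      rw [pow_succ', Module.End.mul_apply, ih, Module.End.mul_apply, rf_apply M (al j), h2]
      simp [rf_apply, h1]
  have hz : z = z0 + ((a + κ * b) / (1 - κ ^ 2)) • al i + ((b + κ * a) / (1 - κ ^ 2)) • al j := by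
    rw [hz0]; module
  change ((rf M (al i) * rf M (al j)) ^ M i j) z = z
  conv_lhs => rw [hz]
  rw [map_add, map_add, map_smul, map_smul, hi, hj, h3, ← hz]

lemma kap_nonneg {i j : S} (hij : i ≠ j) : 0 ≤ kap M i j := by
  unfold kap
  by_cases h0 : M i j = 0
  · simp [h0]
  have h1 := M.off_diagonal i j hij
  have h2 : (2 : ℝ) ≤ (M i j : ℝ) := by
    have : 2 ≤ M i j := by omega
    exact_mod_cast this
  have hp : 0 ≤ Real.pi / (M i j : ℝ) := div_nonneg Real.pi_pos.le (by linarith)
  apply Real.cos_nonneg_of_neg_pi_div_two_le_of_le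
  · linarith [Real.pi_pos]
  · exact div_le_div_of_nonneg_left Real.pi_pos.le (by norm_num) h2

lemma kap_pos {i j : S} (hij : i ≠ j) (h2 : M i j ≠ 2) : 0 < kap M i j := by
  unfold kap
  by_cases h0 : M i j = 0
  · simp [h0]
  have h1 := M.off_diagonal i j hij
  have h3 : (2 : ℝ) < (M i j : ℝ) := by
    have : 2 < M i j := by omega
    exact_mod_cast this
  have hp : 0 ≤ Real.pi / (M i j : ℝ) := div_nonneg Real.pi_pos.le (by linarith)
  apply Real.cos_pos_of_mem_Ioo
  constructor
  · linarith [Real.pi_pos]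
  · exact div_lt_div_of_pos_left Real.pi_pos (by norm_num) h3

lemma al_apply_self (i : S) : al i i = 1 := by simp [al]

lemma al_apply_ne {i j : S} (h : j ≠ i) : al i j = 0 := by
  simp [al, Finsupp.single_apply, h.symm]

end Form

section Rep

variable {S W : Type} {M : CoxeterMatrix S} [Group W] (cs : CoxeterSystem M W)

/-- The geometric representation. -/
noncomputable def rho : W →* Module.End ℝ (S →₀ ℝ) :=
  cs.lift ⟨fun i => rf M (al i), liftable M⟩

lemma rho_simple (i : S) : rho cs (cs.simple i) = rf M (al i) :=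
  cs.lift_apply_simple (liftable M) i

lemma rho_mul_apply (u v : W) (x : S →₀ ℝ) : rho cs (u * v) x = rho cs u (rho cs v x) := by
  rw [map_mul, Module.End.mul_apply]

lemma rho_inv_apply (u : W) (x : S →₀ ℝ) : rho cs u⁻¹ (rho cs u x) = x := by
  rw [← rho_mul_apply, inv_mul_cancel, map_one, Module.End.one_apply]

lemma rho_apply_inv (u : W) (x : S →₀ ℝ) : rho cs u (rho cs u⁻¹ x) = x := by
  rw [← rho_mul_apply, mul_inv_cancel, map_one, Module.End.one_apply]

/-- Elements of `W_U` do not change the coordinates outside `U`. -/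
lemma rho_apply_of_notMem {U : Set S} {w : W} (hw : w ∈ Wp cs U) {s : S} (hs : s ∉ U) :
    ∀ x : S →₀ ℝ, rho cs w x s = x s := by
  refine Subgroup.closure_induction (p := fun w _ => ∀ x : S →₀ ℝ, rho cs w x s = x s)
    ?_ ?_ ?_ ?_ hw
  · rintro _ ⟨i, hi, rfl⟩ x
    have hne : s ≠ i := fun e => hs (e ▸ hi)
    rw [rho_simple, rf_apply]
    simp [al_apply_ne hne]
  · intro x
    simp
  · intro u v _ _ hu hv x
    rw [rho_mul_apply, hu, hv]
  · intro u _ hu x
    rw [← hu (rho cs u⁻¹ x), rho_apply_inv]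

/-- `A` is the support of a positive root of `W_A`. -/
def Good (A : Set S) : Prop :=
  ∃ w ∈ Wp cs A, ∃ s ∈ A, (∀ a ∈ A, 0 < rho cs w (al s) a) ∧ ∀ a ∉ A, rho cs w (al s) a = 0

lemma good_singleton (s : S) : Good cs {s} := by
  refine ⟨1, one_mem _, s, rfl, ?_, ?_⟩
  · rintro a rfl
    simp [al_apply_self]
  · intro a ha
    simp [al_apply_ne ha]

lemma Good.insert {A : Set S} (h : Good cs A) {a b : S} (ha : a ∈ A) (hb : b ∉ A)
    (hab : M a b ≠ 2) : Good cs (insert b A) := by
  obtain ⟨w, hw, s, hs, hpos, hzero⟩ := h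
  set β := rho cs w (al s) with hβ
  have hneg : bil M β (al b) < 0 := by
    rw [bil_al_right]
    have hmem : ∀ i ∈ β.support, i ∈ A := fun i hi => by
      by_contra hc
      exact Finsupp.mem_support_iff.1 hi (hzero i hc)
    have hlt : ∑ i ∈ β.support, β i * -kap M i b < ∑ _i ∈ β.support, (0 : ℝ) := by
      refine Finset.sum_lt_sum (fun i hi => ?_) ⟨a, Finsupp.mem_support_iff.2 (hpos a ha).ne', ?_⟩
      · have hiA := hmem i hi
        have hne : i ≠ b := fun e => hb (e ▸ hiA)
        have := mul_nonneg (hpos i hiA).le (kap_nonneg M hne)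
        linarith
      · have hne : a ≠ b := fun e => hb (e ▸ ha)
        have := mul_pos (hpos a ha) (kap_pos M hne hab)
        linarith
    simpa using hlt
  have hsub : Wp cs A ≤ Wp cs (Insert.insert b A) :=
    Subgroup.closure_mono (Set.image_mono (Set.subset_insert b A))
  have hval : rho cs (cs.simple b * w) (al s) = β - (2 * bil M β (al b)) • al b := by
    rw [rho_mul_apply, rho_simple, rf_apply]
  refine ⟨cs.simple b * w, mul_mem (Subgroup.subset_closure ⟨b, Set.mem_insert b A, rfl⟩) (hsub hw),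
    s, Set.mem_insert_of_mem b hs, ?_, ?_⟩
  · intro c hc
    rw [hval]
    rcases hc with rfl | hc
    · simp only [Finsupp.sub_apply, Finsupp.smul_apply, al_apply_self, hzero c hb, smul_eq_mul]
      linarith
    · have hne : c ≠ b := fun e => hb (e ▸ hc)
      simpa [al_apply_ne hne] using hpos c hc
  · intro c hc
    have hne : c ≠ b := fun e => hc (e ▸ Set.mem_insert _ A)
    have hcA : c ∉ A := fun h' => hc (Set.mem_insert_of_mem b h')
    rw [hval]
    simp [al_apply_ne hne, hzero c hcA]

lemma good_of_conn {T : Set S} (hfin : T.Finite) (hc : Conn M T) :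
    ∀ (k : ℕ) (A : Set S), A ⊆ T → Good cs A → (T \ A).ncard = k → Good cs T := by
  intro k
  induction k using Nat.strong_induction_on with
  | _ k ih =>
    intro A hA hg hk
    by_cases hAT : A = T
    · exact hAT ▸ hg
    have hne : A.Nonempty := by
      obtain ⟨_, _, s, hs, _⟩ := hg
      exact ⟨s, hs⟩
    have h1 : ¬ ∀ a ∈ A, ∀ b ∈ T, b ∉ A → M a b = 2 := fun h => hAT (hc A hA hne h)
    push Not at h1
    obtain ⟨a, ha, b, hbT, hbA, hab⟩ := h1
    refine ih (T \ insert b A).ncard ?_ (insert b A) (Set.insert_subset hbT hA)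
      (hg.insert cs ha hbA hab) rfl
    rw [← hk]
    refine Set.ncard_lt_ncard ⟨Set.diff_subset_diff_right (Set.subset_insert b A), fun h => ?_⟩
      (hfin.subset Set.diff_subset)
    exact (h ⟨hbT, hbA⟩).2 (Set.mem_insert b A)

end Rep

end CoxGeo

open CoxGeo

variable {S W : Type} {M : CoxeterMatrix S} [Group W] (cs : CoxeterSystem M W)

/-- The order of `s t` is `M s t`. -/
theorem dvd_of_pow_eq_one {s t : S} (hst : s ≠ t) {k : ℕ}
    (h : (cs.simple s * cs.simple t) ^ k = 1) : M s t ∣ k := by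
  have h1 := pow_al_left M s t k
  rw [← rho_simple cs s, ← rho_simple cs t, ← map_mul, ← map_pow, h, map_one,
    Module.End.one_apply] at h1
  have hs := DFunLike.congr_fun h1 s
  have ht := DFunLike.congr_fun h1 t
  simp only [Finsupp.add_apply, Finsupp.smul_apply, al_apply_self, al_apply_ne hst,
    al_apply_ne hst.symm, smul_eq_mul, mul_one, mul_zero, add_zero, zero_add] at hs ht
  by_cases h0 : M s t = 0
  · have hk : kap M s t = 1 := by simp [kap, h0]
    rw [hk, U_one] at ht
    have : k = 0 := by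
      have h2 : ((2 * k : ℕ) : ℝ) = 0 := ht.symm
      have h3 : 2 * k = 0 := by exact_mod_cast h2
      omega
    simp [this]
  have hsin := sin_pos_of M hst h0
  set θ := Real.pi / (M s t : ℝ) with hθ
  have hk : kap M s t = Real.cos θ := rfl
  have e0 := U_sin θ (2 * k)
  have e1 := U_sin θ (2 * k + 1)
  rw [← hk, ← ht, zero_mul] at e0
  rw [← hk, ← hs, one_mul] at e1
  have e2 : ((2 * k + 1 : ℕ) : ℝ) * θ = ((2 * k : ℕ) : ℝ) * θ + θ := by push_cast; ring
  rw [e2, Real.sin_add, ← e0, zero_mul, zero_add] at e1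
  have hcos : Real.cos (((2 * k : ℕ) : ℝ) * θ) = 1 :=
    mul_right_cancel₀ hsin.ne' (e1.symm.trans (one_mul _).symm)
  obtain ⟨n, hn⟩ := (Real.cos_eq_one_iff _).1 hcos
  have hm : (M s t : ℝ) ≠ 0 := by exact_mod_cast h0
  have hn' : (n : ℝ) * (M s t : ℝ) = k := by
    rw [hθ] at hn
    push_cast at hn
    field_simp at hn
    linarith
  have hz : (n * (M s t : ℤ) : ℤ) = k := by exact_mod_cast hn'
  exact Int.natCast_dvd_natCast.1 ⟨n, by rw [← hz, mul_comm]⟩

/-- A finite connected set carries a reflection of full support. -/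
theorem exists_full_reflection {T : Set S} (hfin : T.Finite) (hne : T.Nonempty) (hc : Conn M T) :
    ∃ r, cs.IsReflection r ∧ r ∈ Wp cs T ∧ ∀ U : Set S, r ∈ Wp cs U → T ⊆ U := by
  obtain ⟨s₀, hs₀⟩ := hne
  obtain ⟨w, hw, s, hs, hpos, -⟩ := good_of_conn cs hfin hc _ {s₀}
    (Set.singleton_subset_iff.2 hs₀) (good_singleton cs s₀) rfl
  refine ⟨w * cs.simple s * w⁻¹, ⟨w, s, rfl⟩,
    mul_mem (mul_mem hw (Subgroup.subset_closure ⟨s, hs, rfl⟩)) (inv_mem hw), ?_⟩
  intro U hU t ht
  by_contra htU
  have h1 := rho_apply_of_notMem cs hU htU (rho cs w (al s))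
  rw [rho_mul_apply, rho_mul_apply, rho_inv_apply, rho_simple, rf_al_self, map_neg,
    Finsupp.neg_apply] at h1
  have := hpos t ht
  linarith

end Pool.Agent.MP_4f4d9f_gt

end

section

open scoped Pointwise

namespace Pool.Agent.MP_4f4d9f_gt

variable {α : Type} [PartialOrder α] {P : Set α} {p : ℕ}

/-- Chains supported on the flags with `p` vertices. -/
def FC (P : Set α) (p : ℕ) : Submodule ℤ (Finset α →₀ ℤ) :=
  Finsupp.supported ℤ ℤ {σ | IsFlag P p σ}

theorem mem_FC {z : Finset α →₀ ℤ} : z ∈ FC P p ↔ ∀ σ ∈ z.support, IsFlag P p σ := Iff.rfl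

theorem single_mem_FC {σ : Finset α} (h : IsFlag P p σ) (a : ℤ) :
    Finsupp.single σ a ∈ FC P p :=
  Finsupp.single_mem_supported ℤ a h

theorem FC_induction {Q : (Finset α →₀ ℤ) → Prop} (h0 : Q 0)
    (hadd : ∀ x y, Q x → Q y → Q (x + y))
    (h1 : ∀ σ a, IsFlag P p σ → Q (Finsupp.single σ a)) {z : Finset α →₀ ℤ} (hz : z ∈ FC P p) :
    Q z := by
  rw [← Finsupp.sum_single z, Finsupp.sum]
  exact Finset.sum_induction _ Q hadd h0 fun σ hσ => h1 σ _ (hz hσ)

theorem FC_mono {Q : Set α} (h : P ⊆ Q) : FC P p ≤ FC Q p :=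
  Finsupp.supported_mono fun _ hσ => ⟨hσ.1.trans h, hσ.2⟩

theorem FC_inter (P Q : Set α) : FC (P ∩ Q) p = FC P p ⊓ FC Q p := by
  refine le_antisymm (le_inf (FC_mono Set.inter_subset_left) (FC_mono Set.inter_subset_right)) ?_
  rintro z ⟨h1, h2⟩ σ hσ
  exact ⟨Set.subset_inter (h1 hσ).1 (h2 hσ).1, (h1 hσ).2⟩

open Classical in
theorem obd_single (σ : Finset α) (a : ℤ) : obd (Finsupp.single σ a) =
    ∑ v ∈ σ, Finsupp.single (σ.erase v) ((-1) ^ (σ.filter (· < v)).card * a) := by
  rw [obd, Finsupp.linearCombination_single, Finset.smul_sum]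
  refine Finset.sum_congr rfl fun v _ => ?_
  rw [Finsupp.smul_single, smul_eq_mul, mul_comm]

theorem IsFlag.erase [DecidableEq α] {σ : Finset α} (h : IsFlag P (p + 1) σ) {v : α}
    (hv : v ∈ σ) : IsFlag P p (σ.erase v) :=
  ⟨(Finset.coe_subset.2 (Finset.erase_subset v σ)).trans h.1,
    h.2.1.mono (Finset.coe_subset.2 (Finset.erase_subset v σ)),
    by rw [Finset.card_erase_of_mem hv, h.2.2]; rfl⟩

theorem isFlag_zero_iff {σ : Finset α} : IsFlag P 0 σ ↔ σ = ∅ := by
  refine ⟨fun h => Finset.card_eq_zero.1 h.2.2, ?_⟩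
  rintro rfl
  exact ⟨by simp, by simp, rfl⟩

theorem isFlag_one_iff {σ : Finset α} : IsFlag P 1 σ ↔ ∃ v ∈ P, σ = {v} := by
  constructor
  · intro h
    obtain ⟨v, rfl⟩ := Finset.card_eq_one.1 h.2.2
    exact ⟨v, h.1 (by simp), rfl⟩
  · rintro ⟨v, hv, rfl⟩
    exact ⟨by simpa using hv, by simp, rfl⟩

theorem IsFlag.exists_top {σ : Finset α} (h : IsFlag P (p + 1) σ) :
    ∃ v ∈ σ, ∀ u ∈ σ, u ≤ v := by
  have hne : σ.Nonempty := Finset.card_pos.1 (by rw [h.2.2]; omega)
  obtain ⟨v, hv⟩ := σ.exists_maximal hne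
  refine ⟨v, hv.1, fun u hu => ?_⟩
  rcases h.2.1.total hu hv.1 with h1 | h1
  · exact h1
  · exact hv.2 hu h1

theorem IsFlag.exists_bot {σ : Finset α} (h : IsFlag P (p + 1) σ) :
    ∃ v ∈ σ, ∀ u ∈ σ, v ≤ u := by
  have hne : σ.Nonempty := Finset.card_pos.1 (by rw [h.2.2]; omega)
  obtain ⟨v, hv⟩ := σ.exists_minimal hne
  refine ⟨v, hv.1, fun u hu => ?_⟩
  rcases h.2.1.total hu hv.1 with h1 | h1
  · exact hv.2 hu h1
  · exact h1

theorem obd_mem_FC {z : Finset α →₀ ℤ} (hz : z ∈ FC P (p + 1)) : obd z ∈ FC P p := by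
  classical
  refine FC_induction (Q := fun z => obd z ∈ FC P p) (by simp) (fun x y hx hy => ?_)
    (fun σ a hσ => ?_) hz
  · rw [map_add]; exact add_mem hx hy
  · rw [obd_single]
    exact sum_mem fun v hv => single_mem_FC (by convert hσ.erase hv) _

open Classical in
theorem card_filter_erase (σ : Finset α) {u : α} (hu : u ∈ σ) (v : α) :
    (σ.filter (· < v)).card = ((σ.erase u).filter (· < v)).card + if u < v then 1 else 0 := by
  rw [Finset.filter_erase]
  split_ifs with h
  · rw [Finset.card_erase_add_one (Finset.mem_filter.2 ⟨hu, h⟩)]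
  · have h1 : u ∉ σ.filter (· < v) := fun h' => h (Finset.mem_filter.1 h').2
    rw [Finset.erase_eq_of_notMem h1, add_zero]

theorem obd_obd {z : Finset α →₀ ℤ} (hz : z ∈ FC P p) : obd (obd z) = 0 := by
  classical
  refine FC_induction (Q := fun z => obd (obd z) = 0) (by simp) (fun x y hx hy => ?_)
    (fun σ a hσ => ?_) hz
  · rw [map_add, map_add, hx, hy, add_zero]
  · rw [obd_single, map_sum]
    simp only [obd_single]
    rw [Finset.sum_sigma']
    refine Finset.sum_involution (fun x _ => ⟨x.2, x.1⟩) ?_ ?_ ?_ ?_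
    · rintro ⟨v, u⟩ hx
      obtain ⟨hv, hu⟩ := Finset.mem_sigma.1 hx
      obtain ⟨huv, hu⟩ := Finset.mem_erase.1 hu
      dsimp only at *
      rw [Finset.erase_right_comm, ← Finsupp.single_add, card_filter_erase σ hu v,
        card_filter_erase σ hv u]
      rcases hσ.2.1 hu hv huv with h | h
      · have h1 : u < v := lt_of_le_of_ne h huv
        rw [if_pos h1, if_neg h1.not_gt]
        exact Finsupp.single_eq_zero.2 (by ring)
      · have h1 : v < u := lt_of_le_of_ne h huv.symm
        rw [if_pos h1, if_neg h1.not_gt]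
        exact Finsupp.single_eq_zero.2 (by ring)
    · rintro ⟨v, u⟩ hx _ h
      obtain ⟨-, hu⟩ := Finset.mem_sigma.1 hx
      exact (Finset.mem_erase.1 hu).1 (congrArg Sigma.fst h)
    · rintro ⟨v, u⟩ hx
      obtain ⟨hv, hu⟩ := Finset.mem_sigma.1 hx
      obtain ⟨huv, hu⟩ := Finset.mem_erase.1 hu
      exact Finset.mem_sigma.2 ⟨hu, Finset.mem_erase.2 ⟨huv.symm, hv⟩⟩
    · rintro ⟨v, u⟩ _
      rfl

/-- An order embedding induces a chain map. -/
theorem obd_mapDomain {β : Type} [PartialOrder β] (f : α ↪o β) (z : Finset α →₀ ℤ) :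
    obd (z.mapDomain (Finset.map f.toEmbedding)) =
      (obd z).mapDomain (Finset.map f.toEmbedding) := by
  classical
  induction z using Finsupp.induction_linear with
  | zero => simp
  | add x y hx hy => rw [Finsupp.mapDomain_add, map_add, hx, hy, map_add, Finsupp.mapDomain_add]
  | single σ a =>
    rw [Finsupp.mapDomain_single, obd_single, obd_single, Finsupp.mapDomain_finsetSum,
      Finset.sum_map]
    refine Finset.sum_congr rfl fun v _ => ?_
    rw [Finsupp.mapDomain_single, Finset.map_erase, Finset.filter_map, Finset.card_map]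
    congr 4
    refine Finset.filter_congr fun u _ => ?_
    exact f.lt_iff_lt

open Classical in
/-- The cone with apex `a` placed on top. -/
noncomputable def ocone (a : α) : (Finset α →₀ ℤ) →ₗ[ℤ] (Finset α →₀ ℤ) :=
  Finsupp.linearCombination ℤ fun σ =>
    if a ∈ σ then 0 else Finsupp.single (insert a σ) ((-1) ^ σ.card)

omit [PartialOrder α] in
open Classical in
theorem ocone_single (a : α) (σ : Finset α) (c : ℤ) : ocone a (Finsupp.single σ c) =
    if a ∈ σ then 0 else Finsupp.single (insert a σ) ((-1) ^ σ.card * c) := by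
  rw [ocone, Finsupp.linearCombination_single]
  split_ifs
  · simp
  · rw [Finsupp.smul_single, smul_eq_mul, mul_comm]

theorem ocone_mem_FC {a : α} (ha : a ∈ P) (h : ∀ x ∈ P, x ≤ a) {z : Finset α →₀ ℤ}
    (hz : z ∈ FC P p) : ocone a z ∈ FC P (p + 1) := by
  classical
  refine FC_induction (Q := fun z => ocone a z ∈ FC P (p + 1)) (by simp) (fun x y hx hy => ?_)
    (fun σ c hσ => ?_) hz
  · rw [map_add]; exact add_mem hx hy
  · rw [ocone_single]
    split_ifs with h1
    · exact zero_mem _
    · refine single_mem_FC ⟨?_, ?_, ?_⟩ _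
      · rw [Finset.coe_insert]; exact Set.insert_subset ha hσ.1
      · rw [Finset.coe_insert]
        exact hσ.2.1.insert fun b hb _ => Or.inr (h b (hσ.1 hb))
      · rw [Finset.card_insert_of_notMem h1, hσ.2.2]

theorem obd_ocone {a : α} (h : ∀ x ∈ P, x ≤ a) {z : Finset α →₀ ℤ} (hz : z ∈ FC P p) :
    obd (ocone a z) + ocone a (obd z) = z := by
  classical
  refine FC_induction (Q := fun z => obd (ocone a z) + ocone a (obd z) = z) (by simp)
    (fun x y hx hy => ?_) (fun σ c hσ => ?_) hz
  · rw [map_add, map_add, map_add, map_add, add_add_add_comm, hx, hy]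
  · have hle : ∀ x ∈ σ, x ≤ a := fun x hx => h x (hσ.1 hx)
    rw [ocone_single, obd_single, map_sum]
    simp only [ocone_single]
    split_ifs with h1
    · rw [map_zero, zero_add, Finset.sum_eq_single_of_mem a h1]
      · have e : σ.filter (· < a) = σ.erase a := by
          ext x
          simp only [Finset.mem_filter, Finset.mem_erase]
          exact ⟨fun hx => ⟨hx.2.ne, hx.1⟩, fun hx => ⟨hx.2, lt_of_le_of_ne (hle x hx.2) hx.1⟩⟩
        rw [if_neg (Finset.notMem_erase a σ), Finset.insert_erase h1, e, ← mul_assoc, ← mul_pow]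
        simp
      · intro v _ hva
        rw [if_pos (Finset.mem_erase.2 ⟨hva.symm, h1⟩)]
    · have e : (insert a σ).filter (· < a) = σ := by
        ext x
        simp only [Finset.mem_filter, Finset.mem_insert]
        refine ⟨fun hx => hx.1.resolve_left hx.2.ne, fun hx => ⟨Or.inr hx, ?_⟩⟩
        exact lt_of_le_of_ne (hle x hx) fun e => h1 (e ▸ hx)
      rw [obd_single, Finset.sum_insert h1, Finset.erase_insert h1, e, ← mul_assoc, ← mul_pow,
        add_assoc, ← Finset.sum_add_distrib, Finset.sum_eq_zero]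
      · simp
      · intro v hv
        have hva : v ≠ a := fun e => h1 (e ▸ hv)
        have e2 : (insert a σ).filter (· < v) = σ.filter (· < v) := by
          rw [Finset.filter_insert, if_neg (hle v hv).not_gt]
        rw [if_neg fun h' => h1 (Finset.mem_of_mem_erase h'), Finset.erase_insert_of_ne hva.symm,
          ← Finsupp.single_add, e2, ← Finset.card_erase_add_one hv]
        exact Finsupp.single_eq_zero.2 (by ring)

/-- A poset with a greatest element is acyclic. -/
theorem orderAcyclic_of_top {a : α} (ha : a ∈ P) (h : ∀ x ∈ P, x ≤ a) : OrderAcyclic P := by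
  intro p z hz h0
  refine ⟨ocone a z, ocone_mem_FC ha h hz, ?_⟩
  have := obd_ocone h (p := p) hz
  rwa [h0, map_zero, add_zero] at this

theorem fval_injective : Function.Injective (fval P p) :=
  Finsupp.mapDomain_injective Subtype.val_injective

theorem fval_single (σ : Flag P p) (a : ℤ) : fval P p (Finsupp.single σ a) =
    Finsupp.single σ.1 a := Finsupp.mapDomain_single

theorem fval_mem (x : Flag P p →₀ ℤ) : fval P p x ∈ FC P p := by
  induction x using Finsupp.induction_linear with
  | zero => simp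
  | add x y hx hy => rw [map_add]; exact add_mem hx hy
  | single σ a => rw [fval_single]; exact single_mem_FC σ.2 a

theorem exists_fval {z : Finset α →₀ ℤ} (hz : z ∈ FC P p) : ∃ x, fval P p x = z := by
  refine FC_induction (Q := fun z => ∃ x, fval P p x = z) ⟨0, map_zero _⟩ ?_
    (fun σ a hσ => ⟨Finsupp.single ⟨σ, hσ⟩ a, fval_single _ _⟩) hz
  rintro _ _ ⟨x, rfl⟩ ⟨y, rfl⟩
  exact ⟨x + y, map_add _ _ _⟩

theorem fval_fbd (x : Flag P (p + 1) →₀ ℤ) :
    fval P p (fbd P p x) = obd (fval P (p + 1) x) := by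
  refine Finsupp.mapDomain_comapDomain _ Subtype.val_injective _ fun σ hσ => ?_
  exact ⟨⟨σ, obd_mem_FC (fval_mem x) hσ⟩, rfl⟩

theorem fbd_fbd (x : Flag P (p + 2) →₀ ℤ) : fbd P p (fbd P (p + 1) x) = 0 :=
  fval_injective (by rw [fval_fbd, fval_fbd, obd_obd (fval_mem x), map_zero])

theorem obd_eq_zero_of_mem_zero {z : Finset α →₀ ℤ} (hz : z ∈ FC P 0) : obd z = 0 := by
  refine FC_induction (Q := fun z => obd z = 0) (map_zero _) (fun x y hx hy => ?_)
    (fun σ a hσ => ?_) hz
  · rw [map_add, hx, hy, add_zero]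
  · rw [isFlag_zero_iff.1 hσ, obd_single, Finset.sum_empty]

theorem OrderAcyclic.fbd_surjective (h : OrderAcyclic P) : Function.Surjective (fbd P 0) := by
  intro x
  obtain ⟨w, hw, hw'⟩ := h 0 _ (fval_mem x) (obd_eq_zero_of_mem_zero (fval_mem x))
  obtain ⟨y, rfl⟩ := exists_fval (mem_FC.2 hw)
  exact ⟨y, fval_injective (by rw [fval_fbd, hw'])⟩

theorem OrderAcyclic.fbd_exact (h : OrderAcyclic P) (p : ℕ) (x : Flag P (p + 1) →₀ ℤ)
    (hx : fbd P p x = 0) : ∃ y, fbd P (p + 1) y = x := by
  obtain ⟨w, hw, hw'⟩ := h (p + 1) _ (fval_mem x) (by rw [← fval_fbd, hx, map_zero])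
  obtain ⟨y, rfl⟩ := exists_fval (mem_FC.2 hw)
  exact ⟨y, fval_injective (by rw [fval_fbd, hw'])⟩

theorem TorsExact.fbd_exact (h : TorsExact P (p + 1)) (x : Flag P (p + 1) →₀ ℤ)
    (hx : fbd P p x = 0) : ∃ m : ℤ, m ≠ 0 ∧ ∃ y, fbd P (p + 1) y = m • x := by
  obtain ⟨m, hm, w, hw, hw'⟩ := h _ (fval_mem x) (by rw [← fval_fbd, hx, map_zero])
  obtain ⟨y, rfl⟩ := exists_fval (mem_FC.2 hw)
  exact ⟨m, hm, y, fval_injective (by rw [fval_fbd, hw', map_zsmul])⟩

/-- Left translation of subsets of a group as an order embedding. -/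
def transl {G : Type} [Group G] (g : G) : Set G ↪o Set G where
  toEmbedding := (MulAction.toPerm g).toEmbedding
  map_rel_iff' := Set.smul_set_subset_smul_set_iff

theorem fval_permRep {S : Type} (M : CoxeterMatrix S) (p : ℕ) (g : Artin M)
    (x : Flag (Deligne M Set.univ) p →₀ ℤ) :
    fval _ p (permRep (Artin M) _ g x) =
      (fval _ p x).mapDomain (Finset.map (transl g).toEmbedding) := by
  induction x using Finsupp.induction_linear with
  | zero => simp
  | add x y hx hy => rw [map_add, map_add, hx, hy, map_add, Finsupp.mapDomain_add]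
  | single σ a => rw [permRep_single, fval_single, fval_single, Finsupp.mapDomain_single]; rfl

theorem fbd_eqv {S : Type} (M : CoxeterMatrix S) (p : ℕ) :
    Eqv (permRep (Artin M) (Flag (Deligne M Set.univ) (p + 1)))
      (permRep (Artin M) (Flag (Deligne M Set.univ) p)) (fbd (Deligne M Set.univ) p) :=
  fun g c => fval_injective (by rw [fval_fbd, fval_permRep, fval_permRep, obd_mapDomain, fval_fbd])

end Pool.Agent.MP_4f4d9f_gt

end
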