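import Pool.Agent.Mg.F4f4d9fr.G595975

set_option linter.all false

/-! Algebraic preliminaries for the bottom row. -/

open scoped TensorProduct

namespace Pool.Agent.MP_4f4d9f_gt.L2Bot

section Tors

variable {A P Q R : Type} [AddCommGroup A] [AddCommGroup P] [AddCommGroup Q] [AddCommGroup R]

lemma tors_flat [Module.Flat ℤ A] (f : P →ₗ[ℤ] Q) (g : Q →ₗ[ℤ] R)
    (h : ∀ x, g x = 0 → ∃ m : ℤ, m ≠ 0 ∧ ∃ y, f y = m • x) (x : A ⊗[ℤ] Q)
    (hx : g.lTensor A x = 0) : ∃ m : ℤ, m ≠ 0 ∧ ∃ y, f.lTensor A y = m • x := by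
  obtain ⟨u, rfl⟩ := (Module.Flat.lTensor_exact A (LinearMap.exact_subtype_ker_map g) x).1 hx
  clear hx
  induction u using TensorProduct.induction_on with
  | zero => exact ⟨1, one_ne_zero, 0, by simp⟩
  | tmul a z =>
    obtain ⟨m, hm, y, hy⟩ := h z.1 z.2
    exact ⟨m, hm, a ⊗ₜ y, by simp [hy, TensorProduct.tmul_smul]⟩
  | add u v hu hv =>
    obtain ⟨m, hm, y, hy⟩ := hu
    obtain ⟨m', hm', y', hy'⟩ := hv
    refine ⟨m * m', mul_ne_zero hm hm', m' • y + m • y', ?_⟩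
    rw [map_add, map_zsmul, map_zsmul, hy, hy', map_add, smul_add, smul_smul, smul_smul,
      mul_comm m' m]

lemma tors_tensor (f : P →ₗ[ℤ] Q) (g : Q →ₗ[ℤ] R)
    (h : ∀ x, g x = 0 → ∃ m : ℤ, m ≠ 0 ∧ ∃ y, f y = m • x) (x : A ⊗[ℤ] Q)
    (hx : g.lTensor A x = 0) : ∃ m : ℤ, m ≠ 0 ∧ ∃ y, f.lTensor A y = m • x := by
  let T := Submodule.torsion ℤ A
  have : Module.Flat ℤ (A ⧸ T) :=
    Module.Flat.flat_iff_torsion_eq_bot_of_isBezout.2 Submodule.QuotientTorsion.torsion_eq_bot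
  have hc : ∀ {U V : Type} [AddCommGroup U] [AddCommGroup V] (φ : U →ₗ[ℤ] V) (u : A ⊗[ℤ] U),
      φ.lTensor (A ⧸ T) (T.mkQ.rTensor U u) = T.mkQ.rTensor V (φ.lTensor A u) := by
    intro U V _ _ φ u
    rw [← LinearMap.comp_apply, ← LinearMap.comp_apply, LinearMap.lTensor_comp_rTensor,
      LinearMap.rTensor_comp_lTensor]
  obtain ⟨m, hm, y', hy'⟩ := tors_flat f g h (T.mkQ.rTensor Q x) (by rw [hc, hx, map_zero])
  obtain ⟨y, rfl⟩ := LinearMap.rTensor_surjective P T.mkQ_surjective y'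
  have h1 : T.mkQ.rTensor Q (f.lTensor A y - m • x) = 0 := by
    rw [map_sub, map_zsmul, ← hc, hy', sub_self]
  obtain ⟨u, hu⟩ := (rTensor_exact Q (LinearMap.exact_subtype_mkQ T) T.mkQ_surjective _).1 h1
  have h2 : ∀ u : T ⊗[ℤ] Q, ∃ n : ℤ, n ≠ 0 ∧ n • T.subtype.rTensor Q u = 0 := by
    intro u
    induction u using TensorProduct.induction_on with
    | zero => exact ⟨1, one_ne_zero, by simp⟩
    | tmul a z =>
      obtain ⟨n, hn⟩ := a.2
      refine ⟨n, nonZeroDivisors.ne_zero n.2, ?_⟩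
      rw [LinearMap.rTensor_tmul, TensorProduct.smul_tmul']
      change ((n : ℤ) • (a : A)) ⊗ₜ z = 0
      rw [show (n : ℤ) • (a : A) = 0 from hn, TensorProduct.zero_tmul]
    | add u v hu hv =>
      obtain ⟨n, hn, h3⟩ := hu
      obtain ⟨n', hn', h4⟩ := hv
      refine ⟨n * n', mul_ne_zero hn hn', ?_⟩
      rw [map_add, smul_add, mul_smul, mul_smul, h4, smul_comm, h3]
      simp
  obtain ⟨n, hn, h3⟩ := h2 u
  refine ⟨n * m, mul_ne_zero hn hm, n • y, ?_⟩
  rw [hu, smul_sub, sub_eq_zero] at h3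
  rw [map_zsmul, h3, mul_smul]

end Tors

section Ore

variable {H N : Type} [Group H] [Ring N] {ι : H →* N}

/-- The elements killed by a left regular element. -/
def tors (hι : OreData ι) (T : Type) [AddCommGroup T] [Module N T] : Submodule N T where
  carrier := {x | ∃ s : N, IsLeftRegular s ∧ s • x = 0}
  zero_mem' := ⟨1, isRegular_one.left, by simp⟩
  add_mem' := by
    rintro x y ⟨s, hs, hx⟩ ⟨s', hs', hy⟩
    obtain ⟨t, b, ht, htb⟩ := hι.ore s' s (hι.reg _ hs')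
    refine ⟨t * s, ht.mul hs, ?_⟩
    rw [smul_add, mul_smul, hx, htb, mul_smul, hy]
    simp
  smul_mem' := by
    rintro a x ⟨s, hs, hx⟩
    obtain ⟨t, b, ht, htb⟩ := hι.ore s a (hι.reg _ hs)
    exact ⟨t, ht, by rw [smul_smul, htb, mul_smul, hx, smul_zero]⟩

lemma mem_tors_of_fixed (hι : OreData ι) {T : Type} [AddCommGroup T] [Module N T] {x : T} {z : H}
    (hz : ¬ IsOfFinOrder z) (hx : ι z • x = x) : x ∈ tors hι T := by
  obtain ⟨s, b, hs, hsb⟩ := hι.ore _ 1 (hι.sub_one z hz)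
  refine ⟨s, hs, ?_⟩
  rw [← mul_one s, hsb, mul_smul, sub_smul, hx, one_smul, sub_self, smul_zero]

end Ore

section Cone

variable {α : Type} [PartialOrder α]

open Classical in
lemma obd_insert (b : α) (σ : Finset α) (hb : ∀ v ∈ σ, b < v) :
    obd (Finsupp.single (insert b σ) 1) =
      Finsupp.single σ 1 - (obd (Finsupp.single σ 1)).mapDomain (insert b) := by
  have hbσ : b ∉ σ := fun h => lt_irrefl _ (hb b h)
  rw [obd_single, obd_single, Finset.sum_insert hbσ, Finset.erase_insert hbσ,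
    Finsupp.mapDomain_finsetSum, sub_eq_add_neg, ← Finset.sum_neg_distrib]
  congr 1
  · rw [Finset.filter_false_of_mem]
    · simp
    · intro v hv
      rcases Finset.mem_insert.1 hv with rfl | hv
      · exact lt_irrefl _
      · exact (hb v hv).not_gt
  · refine Finset.sum_congr rfl fun v hv => ?_
    rw [Finsupp.mapDomain_single, Finset.erase_insert_of_ne (hb v hv).ne, Finset.filter_insert,
      if_pos (hb v hv), Finset.card_insert_of_notMem fun h => hbσ (Finset.mem_filter.1 h).1,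
      ← Finsupp.single_neg]
    congr 1
    ring

lemma sub_of_mem_fbd {P : Set α} {p : ℕ} (e : Flag P (p + 1)) (σ : Flag P p)
    (h : σ ∈ (fbd P p (Finsupp.single e 1)).support) : σ.1 ⊆ e.1 := by
  classical
  rw [Finsupp.mem_support_iff] at h
  have h1 : fbd P p (Finsupp.single e 1) σ = obd (Finsupp.single e.1 1) σ.1 := by
    simp [fbd, fval]
  rw [h1, obd_single, Finsupp.finsetSum_apply] at h
  obtain ⟨v, -, hv⟩ := Finset.exists_ne_zero_of_sum_ne_zero h
  rw [Finsupp.single_apply_ne_zero] at hv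
  rw [hv.1]
  convert Finset.erase_subset v e.1

end Cone

end Pool.Agent.MP_4f4d9f_gt.L2Bot
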