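import Pool.Agent.Mg.F4f4d9fr.G40ab84
import Pool.Agent.Mg.F4f4d9fr.G595975
import Pool.Agent.Mg.F4f4d9fr.G7b47bf

set_option linter.all false

section

namespace Pool.Agent.MP_4f4d9f_gt

variable {S W : Type} {M : CoxeterMatrix S} [Group W] (cs : CoxeterSystem M W)

namespace MatsAux

open CoxeterSystem

theorem isReduced_tail {s : S} {ω : List S} (h : cs.IsReduced (s :: ω)) : cs.IsReduced ω := by
  simpa using h.drop 1

theorem ne_of_isReduced {s t : S} {ω : List S} (h : cs.IsReduced (s :: t :: ω)) : s ≠ t := by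
  rintro rfl
  have h1 := h.eq
  rw [cs.wordProd_cons, cs.wordProd_cons, cs.simple_mul_simple_cancel_left] at h1
  have h2 := cs.length_wordProd_le ω
  simp only [List.length_cons] at h1
  omega

theorem cons_alt {a b c : S} {k : ℕ} (hc : c = a ∨ c = b)
    (h : cs.IsReduced (c :: alternatingWord a b k)) :
    c :: alternatingWord a b k = alternatingWord a b (k + 1) ∨
      c :: alternatingWord a b k = alternatingWord b a (k + 1) := by
  obtain _ | k := k
  · rcases hc with rfl | rfl
    · right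
      rfl
    · left
      rfl
  · left
    rw [alternatingWord_succ' a b (k + 1)]
    congr 1
    rw [alternatingWord_succ'] at h
    have h1 := ne_of_isReduced cs h
    by_cases hk : Even k
    · rw [if_pos hk] at h1
      rw [if_neg (by simpa [Nat.even_add_one] using hk)]
      exact hc.resolve_right h1
    · rw [if_neg hk] at h1
      rw [if_pos (Nat.even_add_one.2 hk)]
      exact hc.resolve_left h1

/-- A reduced word in two letters alternates. -/
theorem eq_alt {a b : S} : ∀ ω : List S, (∀ s ∈ ω, s = a ∨ s = b) → cs.IsReduced ω →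
    ω = alternatingWord a b ω.length ∨ ω = alternatingWord b a ω.length := by
  intro ω
  induction ω with
  | nil => exact fun _ _ => Or.inl rfl
  | cons c ω ih =>
    intro h1 h2
    have hc := h1 c (by simp)
    rcases ih (fun s hs => h1 s (by simp [hs])) (isReduced_tail cs h2) with h3 | h3
    · generalize hk : ω.length = k at h3
      rw [List.length_cons, hk]
      rw [h3] at h2 ⊢
      exact cons_alt cs hc h2
    · generalize hk : ω.length = k at h3
      rw [List.length_cons, hk]
      rw [h3] at h2 ⊢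
      exact (cons_alt cs hc.symm h2).symm

theorem pow_eq_one_of_alt {a b : S} {k : ℕ}
    (h : cs.wordProd (alternatingWord a b k) = cs.wordProd (alternatingWord b a k)) :
    (cs.simple a * cs.simple b) ^ k = 1 := by
  have hinv : cs.simple b * cs.simple a = (cs.simple a * cs.simple b)⁻¹ := by simp
  rw [cs.prod_alternatingWord_eq_mul_pow, cs.prod_alternatingWord_eq_mul_pow, hinv, inv_pow] at h
  rcases Nat.even_or_odd' k with ⟨j, rfl | rfl⟩
  · have he : Even (2 * j) := even_two_mul j
    rw [if_pos he, if_pos he, one_mul, one_mul, Nat.mul_div_cancel_left _ two_pos] at h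
    rw [two_mul, pow_add]
    exact mul_eq_one_iff_eq_inv.2 h
  · have he : ¬ Even (2 * j + 1) := by simp
    have hj : (2 * j + 1) / 2 = j := by omega
    rw [if_neg he, if_neg he, hj] at h
    have h1 : cs.simple a * cs.simple b * (cs.simple a * cs.simple b) ^ j =
        ((cs.simple a * cs.simple b) ^ j)⁻¹ := by
      rw [mul_assoc, h, cs.simple_mul_simple_cancel_left]
    have h2 : 2 * j + 1 = 1 + j + j := by omega
    rw [h2, pow_add, pow_add, pow_one]
    exact mul_eq_one_iff_eq_inv.2 h1

theorem eq_M_of_alt {a b : S} (hab : a ≠ b) {k : ℕ} (hk : k ≠ 0)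
    (hr : cs.IsReduced (alternatingWord a b k))
    (h : cs.wordProd (alternatingWord a b k) = cs.wordProd (alternatingWord b a k)) :
    k = M a b := by
  have h1 := dvd_of_pow_eq_one cs hab (pow_eq_one_of_alt cs h)
  have h2 : M a b ≠ 0 := by
    intro h0
    rw [h0] at h1
    exact hk (Nat.eq_zero_of_zero_dvd h1)
  have h3 : M a b ≤ k := Nat.le_of_dvd (Nat.pos_of_ne_zero hk) h1
  by_contra h4
  exact cs.not_isReduced_alternatingWord a b h2 (lt_of_le_of_ne h3 (Ne.symm h4)) hr

/-- The rank two case. -/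
theorem rank_two {H : Type} [Monoid H] {f : S → H} {T : Set S} (hf : BraidOn M f T) {a b : S}
    (ha : a ∈ T) (hb : b ∈ T) (hab : a ≠ b) {ω ω' : List S} (hω : ∀ s ∈ ω, s = a ∨ s = b)
    (hω' : ∀ s ∈ ω', s = a ∨ s = b) (hr : cs.IsReduced ω) (hr' : cs.IsReduced ω')
    (h : cs.wordProd ω = cs.wordProd ω') : (ω.map f).prod = (ω'.map f).prod := by
  have hlen : ω'.length = ω.length := by rw [← hr.eq, ← hr'.eq, h]
  have h1 := eq_alt cs ω hω hr
  have h2 := eq_alt cs ω' hω' hr'
  rw [hlen] at h2
  generalize ω.length = k at h1 h2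
  by_cases hk : k = 0
  · subst hk
    rcases h1 with rfl | rfl <;> rcases h2 with rfl | rfl <;> rfl
  rcases h1 with rfl | rfl <;> rcases h2 with rfl | rfl
  · rfl
  · have h3 := eq_M_of_alt cs hab hk hr h
    have h4 := hf a ha b hb
    unfold braidWord at h4
    rw [M.symmetric b a, ← h3] at h4
    exact h4
  · have h3 := eq_M_of_alt cs hab hk hr' h.symm
    have h4 := hf a ha b hb
    unfold braidWord at h4
    rw [M.symmetric b a, ← h3] at h4
    exact h4.symm
  · rfl

theorem Wp_mono {T U : Set S} (h : T ⊆ U) : Wp cs T ≤ Wp cs U :=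
  Subgroup.closure_mono (Set.image_mono h)

/-- A left descent of `v u` lying in `U` starts a reduced word of `v`. -/
theorem exists_start {U : Set S} {u v : W} (hu : MinRep cs U u) (hv : v ∈ Wp cs U) {s : S}
    (hs : s ∈ U) {o : List S} (hr : cs.IsReduced (s :: o)) (h : cs.wordProd (s :: o) = v * u) :
    ∃ α : List S, (∀ t ∈ s :: α, t ∈ U) ∧ cs.IsReduced (s :: α) ∧ cs.wordProd (s :: α) = v ∧
      α.length + cs.length u = o.length := by
  have hsv : cs.simple s * v ∈ Wp cs U := (Wp cs U).mul_mem (simple_mem_Wp cs hs) hv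
  obtain ⟨α, h1, h2, h3⟩ := exists_reduced_of_mem_Wp cs hsv
  have h4 := hu.length_mul hv
  have h5 := hu.length_mul hsv
  have h6 : cs.simple s * v * u = cs.wordProd o := by
    rw [mul_assoc, ← h, cs.wordProd_cons, cs.simple_mul_simple_cancel_left]
  rw [h6, (isReduced_tail cs hr).eq, ← h3, h2.eq] at h5
  rw [← h, hr.eq, List.length_cons] at h4
  have h7 : cs.wordProd (s :: α) = v := by
    rw [cs.wordProd_cons, h3, cs.simple_mul_simple_cancel_left]
  refine ⟨α, ?_, ?_, h7, h5.symm⟩
  · intro t ht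
    rcases List.mem_cons.1 ht with rfl | ht
    · exact hs
    · exact h1 t ht
  · unfold CoxeterSystem.IsReduced
    rw [h7, List.length_cons]
    omega

theorem mats_aux {H : Type} [Monoid H] {f : S → H} {T : Set S} (hf : BraidOn M f T) (n : ℕ) :
    ∀ ω ω' : List S, ω.length = n → (∀ s ∈ ω, s ∈ T) → (∀ s ∈ ω', s ∈ T) → cs.IsReduced ω →
      cs.IsReduced ω' → cs.wordProd ω = cs.wordProd ω' → (ω.map f).prod = (ω'.map f).prod := by
  induction n with
  | zero =>
    intro ω ω' hn _ _ hr hr' h
    have hlen : ω'.length = ω.length := by rw [← hr.eq, ← hr'.eq, h]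
    rw [List.length_eq_zero_iff.1 hn, List.length_eq_zero_iff.1 (hlen.trans hn)]
  | succ n ih =>
    intro ω ω' hn hω hω' hr hr' h
    have hlen : ω'.length = ω.length := by rw [← hr.eq, ← hr'.eq, h]
    obtain ⟨s, o, rfl⟩ := List.exists_cons_of_length_eq_add_one hn
    obtain ⟨s', o', rfl⟩ := List.exists_cons_of_length_eq_add_one (hlen.trans hn)
    have ho : o.length = n := by simpa using hn
    have ho' : o'.length = n := by simpa using hlen.trans hn
    have hoT : ∀ t ∈ o, t ∈ T := fun t ht => hω t (by simp [ht])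
    have hoT' : ∀ t ∈ o', t ∈ T := fun t ht => hω' t (by simp [ht])
    have hs : s ∈ T := hω s (by simp)
    have hs' : s' ∈ T := hω' s' (by simp)
    by_cases hss : s = s'
    · subst hss
      rw [cs.wordProd_cons, cs.wordProd_cons] at h
      rw [List.map_cons, List.map_cons, List.prod_cons, List.prod_cons,
        ih o o' ho hoT hoT' (isReduced_tail cs hr) (isReduced_tail cs hr') (mul_left_cancel h)]
    obtain ⟨v, hv, u, hu, hw⟩ := exists_minRep cs {s, s'} (cs.wordProd (s :: o))
    have hU : ({s, s'} : Set S) ⊆ T := by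
      rintro t (rfl | rfl)
      · exact hs
      · exact hs'
    have huT : u ∈ Wp cs T := by
      have : u = v⁻¹ * cs.wordProd (s :: o) := by rw [hw, inv_mul_cancel_left]
      rw [this]
      exact (Wp cs T).mul_mem ((Wp cs T).inv_mem (Wp_mono cs hU hv)) (wordProd_mem_Wp cs hω)
    obtain ⟨γ, hγ, hγr, rfl⟩ := exists_reduced_of_mem_Wp cs huT
    have key : ∀ (t : S) (p : List S), t ∈ ({s, s'} : Set S) → p.length = n → (∀ x ∈ p, x ∈ T) →
        cs.IsReduced (t :: p) → cs.wordProd (t :: p) = v * cs.wordProd γ →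
        ∃ α : List S, (∀ x ∈ α, x = s ∨ x = s') ∧ cs.IsReduced α ∧ cs.wordProd α = v ∧
          ((t :: p).map f).prod = (α.map f).prod * (γ.map f).prod := by
      intro t p ht hp hpT hpr hpw
      obtain ⟨α, h1, h2, h3, h4⟩ := exists_start cs hu hv ht hpr hpw
      refine ⟨t :: α, h1, h2, h3, ?_⟩
      have h5 : cs.wordProd p = cs.wordProd (α ++ γ) := by
        rw [← h3, cs.wordProd_cons, cs.wordProd_cons, mul_assoc] at hpw
        rw [cs.wordProd_append]
        exact mul_left_cancel hpw
      have h6 : cs.IsReduced (α ++ γ) := by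
        unfold CoxeterSystem.IsReduced
        rw [← h5, (isReduced_tail cs hpr).eq, List.length_append, ← h4, hγr.eq]
      have h7 := ih p (α ++ γ) hp hpT (by
        intro x hx
        rcases List.mem_append.1 hx with hx | hx
        · exact hU (h1 x (by simp [hx]))
        · exact hγ x hx) (isReduced_tail cs hpr) h6 h5
      rw [List.map_cons, List.map_cons, List.prod_cons, List.prod_cons, h7, List.map_append,
        List.prod_append, mul_assoc]
    obtain ⟨α, a1, a2, a3, a4⟩ := key s o (Or.inl rfl) ho hoT hr hw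
    obtain ⟨β, b1, b2, b3, b4⟩ := key s' o' (Or.inr rfl) ho' hoT' hr' (h.symm.trans hw)
    rw [a4, b4, rank_two cs hf hs hs' hss a1 b1 a2 b2 (a3.trans b3.symm)]

/-- Lengths add along `w = v (v⁻¹ w)` when all reflections are inversions of `w`. -/
theorem length_add {T : Set S} {w : W} (hw : w ∈ Wp cs T)
    (hmax : ∀ r ∈ Wp cs T, cs.IsReflection r → cs.IsLeftInversion w r) {v : W}
    (hv : v ∈ Wp cs T) : cs.length w = cs.length v + cs.length (v⁻¹ * w) := by
  classical
  obtain ⟨α, hα, hαr, rfl⟩ := exists_reduced_of_mem_Wp cs hv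
  obtain ⟨β, hβ, hβr, hβw⟩ := exists_reduced_of_mem_Wp cs
    ((Wp cs T).mul_mem ((Wp cs T).inv_mem hv) hw)
  have h1 : cs.wordProd (α ++ β) = w := by rw [cs.wordProd_append, hβw, mul_inv_cancel_left]
  have hT : ∀ s ∈ α ++ β, s ∈ T := by
    intro x hx
    rcases List.mem_append.1 hx with hx | hx
    · exact hα x hx
    · exact hβ x hx
  have h2 : (cs.leftInvSeq (α ++ β)).Nodup := by
    rw [List.nodup_iff_count_eq_one]
    intro r hr
    have h3 := cs.isReflection_of_mem_leftInvSeq _ hr
    have h4 := hmax r (leftInvSeq_mem_Wp cs hT r hr) h3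
    rw [← h1, isLeftInversion_iff_odd cs _ h3] at h4
    have h5 : (cs.leftInvSeq (α ++ β)).count r ≤ 2 := by
      rw [leftInvSeq_append, List.count_append]
      have h6 := List.nodup_iff_count_le_one.1 hαr.nodup_leftInvSeq r
      have h7 := List.nodup_iff_count_le_one.1
        (hβr.nodup_leftInvSeq.map (MulAut.conj (cs.wordProd α)).injective) r
      omega
    obtain ⟨j, hj⟩ := h4
    omega
  have h3 := (isReduced_of_nodup cs h2).eq
  rw [h1, List.length_append] at h3
  rw [h3, hαr.eq, ← hβw, hβr.eq]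

end MatsAux

/-- Matsumoto's theorem inside a parabolic subgroup. -/
theorem matsumoto {H : Type} [Monoid H] {f : S → H} {T : Set S} (hf : BraidOn M f T)
    {ω ω' : List S} (hω : ∀ s ∈ ω, s ∈ T) (hω' : ∀ s ∈ ω', s ∈ T) (hr : cs.IsReduced ω)
    (hr' : cs.IsReduced ω') (h : cs.wordProd ω = cs.wordProd ω') :
    (ω.map f).prod = (ω'.map f).prod :=
  MatsAux.mats_aux cs hf _ ω ω' rfl hω hω' hr hr' h

/-- The longest element of a finite parabolic subgroup. -/
theorem exists_longest {T : Set S} (hT : Finite (Wp cs T)) :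
    ∃ w ∈ Wp cs T, (∀ r ∈ Wp cs T, cs.IsReflection r → cs.IsLeftInversion w r) ∧ w * w = 1 ∧
      ∀ s ∈ T, ∃ t ∈ T, cs.simple t * w = w * cs.simple s := by
  obtain ⟨⟨w, hw⟩, hm⟩ := Finite.exists_max fun x : Wp cs T => cs.length (x : W)
  have hmax : ∀ r ∈ Wp cs T, cs.IsReflection r → cs.IsLeftInversion w r := fun r hr h =>
    ⟨h, lt_of_le_of_ne (hm ⟨r * w, (Wp cs T).mul_mem hr hw⟩) (h.length_mul_right_ne w)⟩
  have hww : w * w = 1 := by
    have h1 := MatsAux.length_add cs hw hmax ((Wp cs T).inv_mem hw)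
    rw [cs.length_inv, inv_inv] at h1
    exact cs.length_eq_zero_iff.1 (by omega)
  refine ⟨w, hw, hmax, hww, fun s hs => ?_⟩
  have hs' := simple_mem_Wp cs hs
  have hinv : w⁻¹ = w := inv_eq_of_mul_eq_one_right hww
  have h1 := MatsAux.length_add cs hw hmax ((Wp cs T).mul_mem hs' hw)
  rw [mul_inv_rev, hinv, cs.inv_simple] at h1
  have h2 := (hmax _ hs' (cs.isReflection_simple s)).2
  have h3 := cs.length_simple_mul w s
  obtain ⟨t, ht⟩ := (cs.length_eq_one_iff (w := w * cs.simple s * w)).1 (by omega)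
  refine ⟨t, (simple_mem_Wp_iff cs).1 ?_, ?_⟩
  · rw [← ht]
    exact (Wp cs T).mul_mem ((Wp cs T).mul_mem hw hs') hw
  · rw [← ht, mul_assoc, hww, mul_one]

end Pool.Agent.MP_4f4d9f_gt

end

section

namespace Pool.Agent.MP_4f4d9f_gt

namespace Vdl

variable {S W : Type} {M : CoxeterMatrix S} [Group W] (cs : CoxeterSystem M W) (T : Set S)

open Classical in
/-- The letter that is written when `s` is read in state `u`. -/
noncomputable def out1 (u : W) (s : S) : List S :=
  if h : ∃ t ∈ T, u * cs.simple s = cs.simple t * u then [h.choose] else []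

open Classical in
/-- The next state when `s` is read in state `u`. -/
noncomputable def nxt (u : W) (s : S) : W :=
  if ∃ t ∈ T, u * cs.simple s = cs.simple t * u then u else u * cs.simple s

theorem out1_mem (u : W) (s : S) : ∀ t ∈ out1 cs T u s, t ∈ T := by
  unfold out1
  split_ifs with h
  · simpa using h.choose_spec.1
  · simp

theorem mul_simple (u : W) (s : S) :
    u * cs.simple s = cs.wordProd (out1 cs T u s) * nxt cs T u s := by
  unfold out1 nxt
  split_ifs with h
  · simpa using h.choose_spec.2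
  · simp

theorem out1_sublist (u : W) (s : S) :
    (cs.leftInvSeq (out1 cs T u s)).Sublist [MulAut.conj u (cs.simple s)] := by
  unfold out1
  split_ifs with h
  · rw [CoxeterSystem.leftInvSeq_singleton, MulAut.conj_apply,
      ← mul_inv_eq_of_eq_mul h.choose_spec.2]
  · simp

theorem nxt_nxt (u : W) (s : S) : nxt cs T (nxt cs T u s) s = u := by
  by_cases h : ∃ t ∈ T, u * cs.simple s = cs.simple t * u
  · rw [show nxt cs T u s = u from if_pos h]
    exact if_pos h
  · rw [show nxt cs T u s = u * cs.simple s from if_neg h, nxt, if_neg,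
      cs.simple_mul_simple_cancel_right]
    rintro ⟨t, ht, e⟩
    exact h ⟨t, ht, mul_right_cancel (e.trans (mul_assoc _ _ _).symm)⟩

variable {cs T} in
theorem minRep_nxt {u : W} (hu : MinRep cs T u) (s : S) : MinRep cs T (nxt cs T u s) := by
  unfold nxt
  split_ifs with h
  · exact hu
  · exact (hu.deodhar s).resolve_right h

/-- The output word. -/
noncomputable def out : W → List S → List S
  | _, [] => []
  | u, s :: ω => out1 cs T u s ++ out (nxt cs T u s) ω

/-- The final state. -/
noncomputable def fin : W → List S → W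
  | u, [] => u
  | u, s :: ω => fin (nxt cs T u s) ω

theorem out_mem (ω : List S) : ∀ u, ∀ t ∈ out cs T u ω, t ∈ T := by
  induction ω with
  | nil => simp [out]
  | cons s ω ih =>
    intro u t ht
    exact (List.mem_append.1 ht).elim (out1_mem cs T u s t) (ih _ t)

theorem mul_wordProd (ω : List S) :
    ∀ u, u * cs.wordProd ω = cs.wordProd (out cs T u ω) * fin cs T u ω := by
  induction ω with
  | nil => simp [out, fin]
  | cons s ω ih =>
    intro u
    rw [out, fin, cs.wordProd_cons, cs.wordProd_append, mul_assoc, ← ih, ← mul_assoc, ← mul_assoc,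
      mul_simple cs T]

theorem out_sublist (ω : List S) : ∀ u,
    (cs.leftInvSeq (out cs T u ω)).Sublist ((cs.leftInvSeq ω).map (MulAut.conj u)) := by
  induction ω with
  | nil => simp [out]
  | cons s ω ih =>
    intro u
    rw [out, leftInvSeq_append, CoxeterSystem.leftInvSeq, List.map_cons, List.map_map]
    refine (out1_sublist cs T u s).append ?_
    convert (ih (nxt cs T u s)).map (MulAut.conj (cs.wordProd (out1 cs T u s))) using 1
    rw [List.map_map, ← MulAut.coe_mul, ← MulAut.coe_mul, ← map_mul, ← map_mul, mul_simple cs T]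

variable {cs T} in
theorem minRep_fin (ω : List S) : ∀ {u}, MinRep cs T u → MinRep cs T (fin cs T u ω) := by
  induction ω with
  | nil => exact id
  | cons s ω ih => exact fun hu => ih (minRep_nxt hu s)

theorem isReduced_out {ω : List S} (h : cs.IsReduced ω) (u : W) : cs.IsReduced (out cs T u ω) :=
  isReduced_of_nodup cs
    ((h.nodup_leftInvSeq.map (MulAut.conj u).injective).sublist (out_sublist cs T ω u))

variable {H : Type} [Group H] (f : S → H)

/-- One step of the right action. -/
noncomputable def step (s : S) : Equiv.Perm (H × {u // MinRep cs T u}) where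
  toFun x := (x.1 * ((out1 cs T x.2 s).map f).prod, ⟨nxt cs T x.2 s, minRep_nxt x.2.2 s⟩)
  invFun x := (x.1 * ((out1 cs T (nxt cs T x.2 s) s).map f).prod⁻¹,
    ⟨nxt cs T x.2 s, minRep_nxt x.2.2 s⟩)
  left_inv x := by simp [nxt_nxt]
  right_inv x := by simp [nxt_nxt]

theorem prod_step (ω : List S) : ∀ x : H × {u // MinRep cs T u},
    (ω.map fun s => (step cs T f s)⁻¹).prod⁻¹ x =
      (x.1 * ((out cs T x.2 ω).map f).prod, ⟨fin cs T x.2 ω, minRep_fin ω x.2.2⟩) := by
  induction ω with
  | nil => simp [out, fin]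
  | cons s ω ih =>
    intro x
    rw [List.map_cons, List.prod_cons, mul_inv_rev, inv_inv, Equiv.Perm.mul_apply, ih]
    simp [step, out, fin, mul_assoc]

variable {f T} in
theorem braidOn_step (hf : BraidOn M f T) :
    BraidOn M (fun s => (step cs T f s)⁻¹) Set.univ := by
  intro s _ t _
  refine inv_injective (Equiv.ext fun x => ?_)
  rw [prod_step, prod_step]
  have e := mul_wordProd cs T (CoxeterSystem.braidWord M s t) x.2
  rw [cs.wordProd_braidWord_eq s t, mul_wordProd cs T] at e
  have m1 := wordProd_mem_Wp cs (out_mem cs T (CoxeterSystem.braidWord M s t) x.2)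
  have m2 := wordProd_mem_Wp cs (out_mem cs T (CoxeterSystem.braidWord M t s) x.2)
  have e1 := (minRep_fin (CoxeterSystem.braidWord M t s) x.2.2).eq_one (mul_mem (inv_mem m1) m2) (by
    rw [mul_assoc, e, inv_mul_cancel_left]
    exact minRep_fin _ x.2.2)
  have e2 := inv_mul_eq_one.1 e1
  rw [← e2] at e
  refine Prod.ext (congrArg (x.1 * ·) ?_) (Subtype.ext (mul_left_cancel e).symm)
  exact matsumoto cs hf (out_mem cs T _ _) (out_mem cs T _ _)
    (isReduced_out cs T (isReduced_braidWord cs s t) _)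
    (isReduced_out cs T (isReduced_braidWord cs t s) _) e2

theorem minRep_one : MinRep cs T 1 := fun _ _ => by simp

theorem step_one {t : S} (ht : t ∈ T) (h : H) :
    step cs T f t (h, ⟨1, minRep_one cs T⟩) = (h * f t, ⟨1, minRep_one cs T⟩) := by
  have c : ∃ t' ∈ T, 1 * cs.simple t = cs.simple t' * 1 := ⟨t, ht, by simp⟩
  have e : c.choose = t := (simple_injective cs (by simpa using c.choose_spec.2)).symm
  refine Prod.ext ?_ (Subtype.ext (if_pos c))
  change h * ((out1 cs T 1 t).map f).prod = h * f t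
  rw [out1, dif_pos c, e]
  simp

end Vdl

variable {S : Type} (M : CoxeterMatrix S)

open Vdl in
/-- Van der Lek's theorem: `A_T` has the Artin presentation on `T`. -/
theorem vdl (T : Set S) {H : Type} [Group H] {f : S → H} (hf : BraidOn M f T) :
    ∃ φ : parab M T →* H, ∀ (t : S) (ht : t ∈ T), φ ⟨gen M t, gen_mem M ht⟩ = f t := by
  let cs := M.toCoxeterSystem
  let Φ := Artin.lift M _ (braidOn_step cs hf)
  let o : {u // MinRep cs T u} := ⟨1, minRep_one cs T⟩
  have hgen : ∀ t ∈ T, ∀ h, (Φ (gen M t))⁻¹ (h, o) = (h * f t, o) := fun t ht h => by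
    rw [Artin.lift_gen, inv_inv]
    exact step_one cs T f ht h
  have key : ∀ g ∈ parab M T, ∃ a : H, ∀ h, (Φ g)⁻¹ (h, o) = (h * a, o) := by
    intro g hg
    induction hg using Subgroup.closure_induction with
    | mem x hx =>
      obtain ⟨t, ht, rfl⟩ := hx
      exact ⟨f t, hgen t ht⟩
    | one => exact ⟨1, by simp⟩
    | mul x y _ _ hx hy =>
      obtain ⟨a, ha⟩ := hx
      obtain ⟨b, hb⟩ := hy
      exact ⟨a * b, fun h => by
        rw [map_mul, mul_inv_rev, Equiv.Perm.mul_apply, ha, hb, mul_assoc]⟩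
    | inv x _ hx =>
      obtain ⟨a, ha⟩ := hx
      refine ⟨a⁻¹, fun h => ?_⟩
      rw [map_inv, Equiv.Perm.inv_eq_iff_eq, ha, inv_mul_cancel_right]
  have key' : ∀ g : parab M T, ∀ h, (Φ g)⁻¹ (h, o) = (h * ((Φ g)⁻¹ (1, o)).1, o) := fun g h => by
    obtain ⟨a, ha⟩ := key g g.2
    rw [ha, ha, one_mul]
  refine ⟨MonoidHom.mk' (fun g => ((Φ g)⁻¹ (1, o)).1) fun g g' => ?_, fun t ht => ?_⟩
  · rw [Subgroup.coe_mul, map_mul, mul_inv_rev, Equiv.Perm.mul_apply, key' g, key' g', one_mul]
  · exact (congrArg Prod.fst (hgen t ht 1)).trans (one_mul _)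

end Pool.Agent.MP_4f4d9f_gt

end

section

namespace Pool.Agent.MP_4f4d9f_gt

namespace TreeAux

section Affine

variable {G Q : Type} [Group G] [AddCommGroup Q] (ρ : Representation ℤ G Q)

/-- The affine action with linear part `ρ` and fixed point `-e`. -/
def aff (e : Q) : G →* Equiv.Perm Q where
  toFun g :=
    { toFun := fun x => ρ g (x + e) - e
      invFun := fun x => ρ g⁻¹ (x + e) - e
      left_inv := fun x => by simp
      right_inv := fun x => by simp }
  map_one' := by
    ext x
    simp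
  map_mul' g h := by
    ext x
    simp

theorem aff_apply (e : Q) (g : G) (x : Q) : aff ρ e g x = ρ g (x + e) - e := rfl

theorem aff_congr {e : Q} {g : G} (h : ρ g e = e) : aff ρ e g = aff ρ 0 g := by
  ext x
  simp [aff_apply, h]

end Affine

/-- The permutation representation on finitely supported functions. -/
noncomputable def prep (G X : Type) [Group G] [MulAction G X] : Representation ℤ G (X →₀ ℤ) where
  toFun g := Finsupp.lmapDomain ℤ ℤ fun x => g • x
  map_one' := by
    ext x : 2
    simp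
  map_mul' g h := by
    ext x : 2
    simp [mul_smul]

theorem prep_single {G X : Type} [Group G] [MulAction G X] (g : G) (x : X) (r : ℤ) :
    prep G X g (Finsupp.single x r) = Finsupp.single (g • x) r :=
  Finsupp.mapDomain_single

/-- The abstract form of the argument: an affine action of `P` that restricts to the linear action
on `A` and to the action centred at the base coset on `B` yields the injectivity. -/
theorem abstract {G : Type} [Group G] {A B C P : Subgroup G} (hCA : C ≤ A) (hCB : C ≤ B)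
    (hAP : A ≤ P) (hBP : B ≤ P) (φ : P →* Equiv.Perm ((G ⧸ C) →₀ ℤ))
    (hlin : ∀ (p : P) (x : (G ⧸ C) →₀ ℤ),
      φ p x = φ p 0 + prep G (G ⧸ C) p x)
    (hA0 : ∀ (a : G) (ha : a ∈ A), φ ⟨a, hAP ha⟩ 0 = 0)
    (hB0 : ∀ (b : G) (hb : b ∈ B), φ ⟨b, hBP hb⟩ 0 =
      Finsupp.single (b : G ⧸ C) 1 - Finsupp.single ((1 : G) : G ⧸ C) 1)
    (c : (G ⧸ C) →₀ ℤ) (hA : c.mapDomain (Subgroup.quotientMapOfLE hCA) = 0)
    (hB : c.mapDomain (Subgroup.quotientMapOfLE hCB) = 0) : c = 0 := by
  set ρ := prep G (G ⧸ C) with hρ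
  have hmem : ∀ g : G, ((g : G ⧸ P).out)⁻¹ * g ∈ P := fun g =>
    QuotientGroup.eq.1 (QuotientGroup.out_eq' (g : G ⧸ P))
  let D : G → ((G ⧸ C) →₀ ℤ) := fun g => ρ (g : G ⧸ P).out (φ ⟨_, hmem g⟩ 0)
  have hD : ∀ (g p : G) (hp : p ∈ P), D (g * p) = D g + ρ g (φ ⟨p, hp⟩ 0) := by
    intro g p hp
    have e : ((g * p : G) : G ⧸ P) = (g : G ⧸ P) := QuotientGroup.mk_mul_of_mem g hp
    have e2 : (⟨_, hmem (g * p)⟩ : P) = ⟨_, hmem g⟩ * ⟨p, hp⟩ := by
      apply Subtype.ext
      simp only [Subgroup.coe_mul, e, mul_assoc]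
    simp only [D]
    rw [e2, e, map_mul, Equiv.Perm.mul_apply, hlin, map_add, ← Module.End.mul_apply, ← map_mul]
    simp
  let α : G ⧸ A → ((G ⧸ C) →₀ ℤ) := fun x => D x.out
  let β : G ⧸ B → ((G ⧸ C) →₀ ℤ) := fun x => D x.out - Finsupp.single (x.out : G ⧸ C) 1
  have hα : ∀ g : G, α (g : G ⧸ A) = D g := by
    intro g
    obtain ⟨a, ha⟩ := QuotientGroup.mk_out_eq_mul A g
    simp only [α]
    rw [ha, hD g a (hAP a.2), hA0 a a.2]
    simp
  have hβ : ∀ g : G, β (g : G ⧸ B) = D g - Finsupp.single (g : G ⧸ C) 1 := by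
    intro g
    obtain ⟨b, hb⟩ := QuotientGroup.mk_out_eq_mul B g
    simp only [β]
    rw [hb, hD g b (hBP b.2), hB0 b b.2, map_sub, hρ, prep_single, prep_single]
    simp only [MulAction.Quotient.smul_mk, smul_eq_mul, mul_one]
    abel
  have h1 := congrArg (Finsupp.linearCombination ℤ α) hA
  have h2 := congrArg (Finsupp.linearCombination ℤ β) hB
  rw [Finsupp.linearCombination_mapDomain, map_zero] at h1 h2
  have h3 : Finsupp.linearCombination ℤ (α ∘ Subgroup.quotientMapOfLE hCA) -
      Finsupp.linearCombination ℤ (β ∘ Subgroup.quotientMapOfLE hCB) = LinearMap.id := by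
    refine Finsupp.lhom_ext' fun x => LinearMap.ext_ring ?_
    obtain ⟨g, rfl⟩ := QuotientGroup.mk_surjective x
    simp [Subgroup.quotientMapOfLE_apply_mk, hα, hβ]
  have h4 := LinearMap.congr_fun h3 c
  rw [LinearMap.sub_apply, h1, h2, sub_zero] at h4
  exact h4.symm

theorem mem_alternatingWord {S : Type} (n : ℕ) : ∀ (u v x : S),
    x ∈ CoxeterSystem.alternatingWord u v n → x = u ∨ x = v := by
  induction n with
  | zero => intro u v x hx; simp [CoxeterSystem.alternatingWord] at hx
  | succ n ih =>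
    intro u v x hx
    rw [CoxeterSystem.alternatingWord_succ, List.concat_eq_append, List.mem_append,
      List.mem_singleton] at hx
    rcases hx with hx | hx
    · exact (ih v u x hx).symm
    · exact Or.inr hx

variable {S : Type} {M : CoxeterMatrix S}

theorem braid_of_hom {H : Type} [Group H] (ψ : Artin M →* H) {f : S → H} {u v : S}
    (hu : f u = ψ (gen M u)) (hv : f v = ψ (gen M v)) :
    ((CoxeterSystem.braidWord M u v).map f).prod = ((CoxeterSystem.braidWord M v u).map f).prod := by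
  have key : ∀ a b : S, f a = ψ (gen M a) → f b = ψ (gen M b) →
      ((CoxeterSystem.braidWord M a b).map f).prod =
        ψ ((CoxeterSystem.braidWord M a b).map (gen M)).prod := by
    intro a b ha hb
    rw [map_list_prod, List.map_map]
    congr 1
    refine List.map_congr_left fun x hx => ?_
    rcases mem_alternatingWord _ a b x hx with rfl | rfl
    · exact ha
    · exact hb
  rw [key u v hu hv, key v u hv hu, braidOn_gen M Set.univ u trivial v trivial]

theorem eq_on_parab {H : Type} [Group H] {T U : Set S} (hUT : U ⊆ T) (φ : parab M T →* H)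
    (ψ : Artin M →* H) (h : ∀ (u : S) (hu : u ∈ U), φ ⟨gen M u, gen_mem M (hUT hu)⟩ = ψ (gen M u))
    (g : Artin M) (hg : g ∈ parab M U) : φ ⟨g, parab_mono hUT hg⟩ = ψ g := by
  induction hg using Subgroup.closure_induction with
  | mem x hx =>
    obtain ⟨u, hu, rfl⟩ := hx
    exact h u hu
  | one => exact (map_one φ).trans (map_one ψ).symm
  | mul x y hx hy ihx ihy =>
    rw [map_mul, ← ihx, ← ihy, ← map_mul]
    rfl
  | inv x hx ih =>
    rw [map_inv, ← ih, ← map_inv]
    rfl

end TreeAux

variable {S : Type} {M : CoxeterMatrix S}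

/-- Left exactness of the Bass-Serre tree sequence of the splitting of `A_T` along `M s t = ∞`,
induced up to the whole group. -/
theorem tree_injective {T : Set S} {s t : S} (hs : s ∈ T) (ht : t ∈ T) (hst : M s t = 0)
    (c : (Artin M ⧸ parab M ((T \ {s}) ∩ (T \ {t}))) →₀ ℤ)
    (hA : c.mapDomain (Subgroup.quotientMapOfLE
      (parab_mono (M := M) (Set.inter_subset_left (s := T \ {s}) (t := T \ {t})))) = 0)
    (hB : c.mapDomain (Subgroup.quotientMapOfLE
      (parab_mono (M := M) (Set.inter_subset_right (s := T \ {s}) (t := T \ {t})))) = 0) :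
    c = 0 := by
  classical
  have hne : s ≠ t := by
    rintro rfl
    rw [M.diagonal] at hst
    exact one_ne_zero hst
  let C := parab M ((T \ {s}) ∩ (T \ {t}))
  let ρ := TreeAux.prep (Artin M) (Artin M ⧸ C)
  let e : (Artin M ⧸ C) →₀ ℤ := Finsupp.single ((1 : Artin M) : Artin M ⧸ C) 1
  have hρe : ∀ g : Artin M, ρ g e = Finsupp.single (g : Artin M ⧸ C) 1 := by
    intro g
    simp only [ρ, e]
    rw [TreeAux.prep_single]
    simp
  let f : S → Equiv.Perm ((Artin M ⧸ C) →₀ ℤ) := fun u =>
    if u = s then TreeAux.aff ρ e (gen M u) else TreeAux.aff ρ 0 (gen M u)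
  have hf0 : ∀ u, u ≠ s → f u = TreeAux.aff ρ 0 (gen M u) := fun u hu => if_neg hu
  have hf1 : ∀ u ∈ T, u ≠ t → f u = TreeAux.aff ρ e (gen M u) := by
    intro u hu hut
    by_cases hus : u = s
    · exact if_pos hus
    · rw [hf0 u hus]
      refine (TreeAux.aff_congr ρ ?_).symm
      rw [hρe]
      have : ((gen M u : Artin M) : Artin M ⧸ C) = ((1 : Artin M) : Artin M ⧸ C) := by
        rw [eq_comm, QuotientGroup.eq, inv_one, one_mul]
        exact gen_mem M ⟨⟨hu, hus⟩, ⟨hu, hut⟩⟩
      rw [this]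
  have hts : M t s = 0 := (M.symmetric t s).trans hst
  have hf : BraidOn M f T := by
    intro u hu v hv
    by_cases h1 : u ≠ s ∧ v ≠ s
    · exact TreeAux.braid_of_hom _ (hf0 u h1.1) (hf0 v h1.2)
    by_cases h2 : u ≠ t ∧ v ≠ t
    · exact TreeAux.braid_of_hom _ (hf1 u hu h2.1) (hf1 v hv h2.2)
    have h3 : (u = s ∧ v = t) ∨ (u = t ∧ v = s) := by
      by_cases hus : u = s
      · refine Or.inl ⟨hus, ?_⟩
        by_contra hvt
        exact h2 ⟨fun h => hne (hus.symm.trans h), hvt⟩
      · have hvs : v = s := by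
          by_contra hvs
          exact h1 ⟨hus, hvs⟩
        refine Or.inr ⟨?_, hvs⟩
        by_contra hut
        exact h2 ⟨hut, fun h => hne (hvs.symm.trans h)⟩
    rcases h3 with ⟨rfl, rfl⟩ | ⟨rfl, rfl⟩ <;>
      simp [CoxeterSystem.braidWord, hst, hts, CoxeterSystem.alternatingWord]
  obtain ⟨φ, hφ⟩ := vdl M T hf
  refine TreeAux.abstract _ _ (parab_mono Set.sdiff_subset) (parab_mono Set.sdiff_subset) φ
    ?_ ?_ ?_ c hA hB
  · rintro ⟨p, hp⟩
    induction hp using Subgroup.closure_induction with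
    | mem y hy =>
      obtain ⟨u, hu, rfl⟩ := hy
      intro x
      have h := hφ u hu
      change φ ⟨gen M u, _⟩ x = φ ⟨gen M u, _⟩ 0 + ρ (gen M u) x
      rw [h]
      by_cases hus : u = s
      · rw [hf1 u hu (hus ▸ hne), TreeAux.aff_apply, TreeAux.aff_apply, map_add, zero_add]
        abel
      · rw [hf0 u hus, TreeAux.aff_apply, TreeAux.aff_apply]
        simp
    | one =>
      intro x
      change φ 1 x = φ 1 0 + ρ 1 x
      simp
    | mul y z hy hz ihy ihz =>
      intro x
      change φ (⟨y, hy⟩ * ⟨z, hz⟩) x = φ (⟨y, hy⟩ * ⟨z, hz⟩) 0 + ρ (y * z) x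
      rw [map_mul, Equiv.Perm.mul_apply, Equiv.Perm.mul_apply, ihy, ihz, ihy (φ ⟨z, hz⟩ 0),
        map_add, map_mul, Module.End.mul_apply, add_assoc]
    | inv y hy ih =>
      intro x
      change φ (⟨y, hy⟩ : parab M T)⁻¹ x = φ (⟨y, hy⟩ : parab M T)⁻¹ 0 + ρ y⁻¹ x
      rw [map_inv, Equiv.Perm.inv_eq_iff_eq, ih, map_add, ← add_assoc, ← ih]
      simp [ρ]
  · intro a ha
    rw [TreeAux.eq_on_parab Set.sdiff_subset φ (TreeAux.aff ρ 0)
      (fun u hu => (hφ u hu.1).trans (hf0 u hu.2)) a ha, TreeAux.aff_apply]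
    simp
  · intro b hb
    rw [TreeAux.eq_on_parab Set.sdiff_subset φ (TreeAux.aff ρ e)
      (fun u hu => (hφ u hu.1).trans (hf1 u hu.1 hu.2)) b hb, TreeAux.aff_apply, zero_add, hρe]

end Pool.Agent.MP_4f4d9f_gt

end

section

/-! Acyclicity of the Deligne complex by a Mayer-Vietoris induction. -/

open scoped Pointwise

namespace Pool.Agent.MP_4f4d9f_gt

namespace DelAc

section Order

variable {α : Type} [PartialOrder α] {P : Set α}

/-- Boundaries of chains on flags with `p` vertices. -/
noncomputable def Bd (P : Set α) (p : ℕ) : Submodule ℤ (Finset α →₀ ℤ) := (FC P p).map obd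

theorem Bd_mono {Q : Set α} (h : P ⊆ Q) {p : ℕ} : Bd P p ≤ Bd Q p := Submodule.map_mono (FC_mono h)

theorem obd_single' [d1 : DecidableEq α] [d2 : DecidableLT α] (σ : Finset α) (a : ℤ) :
    obd (Finsupp.single σ a) =
      ∑ v ∈ σ, Finsupp.single (σ.erase v) ((-1) ^ (σ.filter (· < v)).card * a) := by
  obtain rfl : d1 = fun a b => Classical.propDecidable (a = b) := Subsingleton.elim _ _
  obtain rfl : d2 = fun a b => Classical.propDecidable (a < b) := Subsingleton.elim _ _
  exact obd_single σ a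

theorem obd_one (a : α) (n : ℤ) : obd (Finsupp.single {a} n) = Finsupp.single ∅ n := by
  classical
  rw [obd_single', Finset.sum_singleton, Finset.filter_singleton, if_neg (lt_irrefl a)]
  simp

theorem obd_pair [DecidableEq α] {a b : α} (h : a < b) (n : ℤ) :
    obd (Finsupp.single {a, b} n) = Finsupp.single {b} n - Finsupp.single {a} n := by
  classical
  have e1 : ({a, b} : Finset α).erase a = {b} := Finset.erase_insert (by simpa using h.ne)
  have e2 : ({a, b} : Finset α).erase b = {a} := by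
    rw [Finset.pair_comm]; exact Finset.erase_insert (by simpa using h.ne')
  rw [obd_single', Finset.sum_pair h.ne, e1, e2, Finset.filter_insert, Finset.filter_insert,
    Finset.filter_singleton, Finset.filter_singleton, if_neg (lt_irrefl a), if_neg h.not_gt,
    if_pos h, if_neg (lt_irrefl b)]
  simp [sub_eq_add_neg]

theorem exists_pair [DecidableEq α] {σ : Finset α} (h : IsFlag P 2 σ) :
    ∃ a b, a < b ∧ σ = {a, b} := by
  obtain ⟨a, b, hab, rfl⟩ := Finset.card_eq_two.1 h.2.2
  rcases h.2.1 (show a ∈ _ by simp) (show b ∈ _ by simp) hab with h | h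
  · exact ⟨a, b, lt_of_le_of_ne h hab, rfl⟩
  · exact ⟨b, a, lt_of_le_of_ne h hab.symm, Finset.pair_comm _ _⟩

theorem sub_mem_Bd {a b : α} (ha : a ∈ P) (hb : b ∈ P) (h : a ≤ b) :
    Finsupp.single {b} (1 : ℤ) - Finsupp.single {a} 1 ∈ Bd P 2 := by
  classical
  rcases h.eq_or_lt with rfl | h
  · rw [sub_self]; exact zero_mem _
  refine ⟨_, single_mem_FC ⟨?_, ?_, Finset.card_pair h.ne⟩ 1, obd_pair h 1⟩
  · rw [Finset.coe_pair]; exact Set.pair_subset ha hb
  · rw [Finset.coe_pair]; exact IsChain.pair h.le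

theorem map_mem_FC {Q : Set α} (f : α ↪o α) (hf : ∀ x ∈ P, f x ∈ Q) {p : ℕ} {z : Finset α →₀ ℤ}
    (hz : z ∈ FC P p) : z.mapDomain (Finset.map f.toEmbedding) ∈ FC Q p := by
  refine FC_induction (Q := fun z => z.mapDomain (Finset.map f.toEmbedding) ∈ FC Q p) ?_ ?_ ?_ hz
  · simp
  · intro x y hx hy
    rw [Finsupp.mapDomain_add]; exact add_mem hx hy
  · intro σ a h
    rw [Finsupp.mapDomain_single]
    refine single_mem_FC ⟨?_, ?_, by rw [Finset.card_map, h.2.2]⟩ a
    · intro c hc
      obtain ⟨c', hc', rfl⟩ := Finset.mem_map.1 hc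
      exact hf _ (h.1 hc')
    · rw [Finset.coe_map]
      rintro _ ⟨a, ha, rfl⟩ _ ⟨b, hb, rfl⟩ hab
      exact (h.2.1 ha hb fun e => hab (congrArg _ e)).imp (fun h => f.monotone h)
        fun h => f.monotone h

theorem filter_mem_FC {Q : Set α} {p : ℕ} {z : Finset α →₀ ℤ} (hz : z ∈ FC P p)
    (r : Finset α → Prop) [DecidablePred r] (h : ∀ σ, IsFlag P p σ → r σ → IsFlag Q p σ) :
    z.filter r ∈ FC Q p := by
  rw [mem_FC] at hz ⊢
  intro σ hσ
  rw [Finsupp.support_filter, Finset.mem_filter] at hσ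
  exact h σ (hz σ hσ.1) hσ.2

theorem obd_filter [DecidableEq α] {p : ℕ} {z : Finset α →₀ ℤ} (hz : z ∈ FC P p)
    (r : Finset α → Prop) [DecidablePred r]
    (h : ∀ σ, IsFlag P p σ → ∀ v ∈ σ, (r (σ.erase v) ↔ r σ)) :
    obd (z.filter r) = (obd z).filter r := by
  classical
  refine FC_induction (Q := fun z => obd (z.filter r) = (obd z).filter r)
    (by rw [Finsupp.filter_zero, map_zero, Finsupp.filter_zero])
    (fun x y hx hy => by rw [Finsupp.filter_add, map_add, map_add, Finsupp.filter_add, hx, hy])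
    (fun σ n hσ => ?_) hz
  by_cases hq : r σ
  · rw [Finsupp.filter_single_of_pos _ hq, obd_single', Finsupp.filter_sum]
    exact Finset.sum_congr rfl fun v hv =>
      (Finsupp.filter_single_of_pos _ ((h σ hσ v hv).2 hq)).symm
  · rw [Finsupp.filter_single_of_neg _ hq, map_zero, obd_single', Finsupp.filter_sum]
    exact (Finset.sum_eq_zero fun v hv =>
      Finsupp.filter_single_of_neg _ fun e => hq ((h σ hσ v hv).1 e)).symm

theorem eq_sum_filter {β γ : Type} [DecidableEq γ] (z : β →₀ ℤ) (f : β → γ) :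
    z = ∑ q ∈ z.support.image f, z.filter fun σ => f σ = q := by
  ext σ
  rw [Finsupp.finsetSum_apply]
  simp only [Finsupp.filter_apply, Finset.sum_ite_eq]
  split_ifs with hσ
  · rfl
  · by_contra hne
    exact hσ (Finset.mem_image_of_mem _ (Finsupp.mem_support_iff.2 hne))

end Order

variable {S : Type} {M : CoxeterMatrix S}

variable (M) in
/-- All cosets of spherical parabolic subgroups of type inside `T`. -/
def Ind (T : Set S) : Set (Set (Artin M)) :=
  {c | ∃ U ⊆ T, Spherical M U ∧ ∃ g : Artin M, c = g • (parab M U : Set (Artin M))}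

theorem Ind_mono {T T' : Set S} (h : T ⊆ T') : Ind M T ⊆ Ind M T' :=
  fun _ ⟨U, hU, h'⟩ => ⟨U, hU.trans h, h'⟩

theorem Ind_inter (T T' : Set S) : Ind M (T ∩ T') = Ind M T ∩ Ind M T' := by
  refine Set.Subset.antisymm (Set.subset_inter (Ind_mono Set.inter_subset_left)
    (Ind_mono Set.inter_subset_right)) ?_
  rintro c ⟨⟨U, hU, hs, g, rfl⟩, U', hU', -, g', e⟩
  exact ⟨U, Set.subset_inter hU ((coset_eq_iff.1 e).1 ▸ hU'), hs, g, rfl⟩

theorem Ind_univ : Ind M Set.univ = Deligne M Set.univ := by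
  ext c
  simp only [Ind, Deligne, parab_univ, Subgroup.mem_top, true_and]

theorem self_mem (g : Artin M) (U : Set S) : g ∈ g • (parab M U : Set (Artin M)) :=
  mem_coset_iff.2 (by rw [inv_mul_cancel]; exact one_mem _)

theorem exists_type {T : Set S} {p : ℕ} {σ : Finset (Set (Artin M))}
    (h : IsFlag (Ind M T) (p + 1) σ) :
    ∃ U ⊆ T, Spherical M U ∧ IsFlag (Ind M U) (p + 1) σ := by
  obtain ⟨v, hv, hm⟩ := h.exists_top
  obtain ⟨U, hU, hs, g, rfl⟩ := h.1 hv
  refine ⟨U, hU, hs, fun c hc => ?_, h.2⟩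
  obtain ⟨U', -, hs', g', rfl⟩ := h.1 hc
  exact ⟨U', (coset_subset_iff.1 (hm _ hc)).1, hs', g', rfl⟩

/-- A point of some member of `σ`. -/
noncomputable def frep (σ : Finset (Set (Artin M))) : Artin M :=
  Classical.epsilon fun x => ∃ c ∈ σ, x ∈ c

theorem mk_frep {T : Set S} {p : ℕ} {σ : Finset (Set (Artin M))} (h : IsFlag (Ind M T) p σ)
    {c : Set (Artin M)} (hc : c ∈ σ) {x : Artin M} (hx : x ∈ c) :
    (frep σ : Artin M ⧸ parab M T) = x := by
  obtain ⟨c', hc', hx'⟩ : ∃ c ∈ σ, frep σ ∈ c :=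
    Classical.epsilon_spec (p := fun x => ∃ c ∈ σ, x ∈ c) ⟨x, c, hc, hx⟩
  obtain ⟨d, hd, h1, h2⟩ : ∃ d ∈ σ, frep σ ∈ d ∧ x ∈ d := by
    rcases h.2.1.total hc hc' with e | e
    · exact ⟨c', hc', hx', e hx⟩
    · exact ⟨c, hc, e hx', hx⟩
  obtain ⟨U, hU, -, g, rfl⟩ := h.1 hd
  rw [← QuotientGroup.eq.2 (parab_mono hU (mem_coset_iff.1 h1)),
    QuotientGroup.eq.2 (parab_mono hU (mem_coset_iff.1 h2))]

variable (M) in
/-- The component of a flag. -/
noncomputable def caug (T : Set S) :
    (Finset (Set (Artin M)) →₀ ℤ) →ₗ[ℤ] (Artin M ⧸ parab M T →₀ ℤ) :=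
  Finsupp.lmapDomain ℤ ℤ fun σ => (frep σ : Artin M ⧸ parab M T)

theorem aug_single (T : Set S) (σ : Finset (Set (Artin M))) (n : ℤ) :
    caug M T (Finsupp.single σ n) = Finsupp.single (frep σ : Artin M ⧸ parab M T) n :=
  Finsupp.mapDomain_single

theorem aug_map {T T' : Set S} (h : parab M T ≤ parab M T') (z : Finset (Set (Artin M)) →₀ ℤ) :
    (caug M T z).mapDomain (Subgroup.quotientMapOfLE h) = caug M T' z :=
  Finsupp.mapDomain_comp.symm

theorem frep_erase [DecidableEq (Set (Artin M))] {T : Set S} {k : ℕ} {σ : Finset (Set (Artin M))}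
    (h : IsFlag (Ind M T) (k + 2) σ) {v : Set (Artin M)} (hv : v ∈ σ) :
    (frep (σ.erase v) : Artin M ⧸ parab M T) = frep σ := by
  obtain ⟨c, hc, -⟩ := (h.erase hv).exists_top
  obtain ⟨U, -, -, g, rfl⟩ := h.1 (Finset.mem_of_mem_erase hc)
  rw [mk_frep (h.erase hv) hc (self_mem g U),
    mk_frep h (Finset.mem_of_mem_erase hc) (self_mem g U)]

theorem aug_obd {T : Set S} {w : Finset (Set (Artin M)) →₀ ℤ} (hw : w ∈ FC (Ind M T) 2) :
    caug M T (obd w) = 0 := by
  classical
  refine FC_induction (Q := fun w => caug M T (obd w) = 0) (by simp)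
    (fun x y hx hy => by rw [map_add, map_add, hx, hy, add_zero]) (fun σ n h => ?_) hw
  obtain ⟨a, b, hab, rfl⟩ := exists_pair h
  have ha := frep_erase h (v := a) (by simp)
  have hb := frep_erase h (v := b) (by simp)
  rw [Finset.erase_insert (by simpa using hab.ne)] at ha
  rw [Finset.pair_comm, Finset.erase_insert (by simpa using hab.ne'), Finset.pair_comm] at hb
  rw [obd_pair hab, map_sub, aug_single, aug_single, ha, hb, sub_self]

/-- The vertex given by a group element. -/
noncomputable def pt (g : Artin M) : Finset (Set (Artin M)) →₀ ℤ :=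
  Finsupp.single {g • (parab M ∅ : Set (Artin M))} 1

theorem sub_pt_mem {T U : Set S} (hU : U ⊆ T) (hs : Spherical M U) {g x : Artin M}
    (hx : g⁻¹ * x ∈ parab M U) :
    Finsupp.single {g • (parab M U : Set (Artin M))} 1 - pt x ∈ Bd (Ind M T) 2 :=
  sub_mem_Bd ⟨∅, Set.empty_subset _, spherical_empty, x, rfl⟩ ⟨U, hU, hs, g, rfl⟩
    (coset_subset_iff.2 ⟨Set.empty_subset _, hx⟩)

theorem pt_sub_pt {T : Set S} {h : Artin M} (hh : h ∈ parab M T) (g : Artin M) :
    pt (g * h) - pt g ∈ Bd (Ind M T) 2 := by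
  induction hh using Subgroup.closure_induction generalizing g with
  | mem x hx =>
    obtain ⟨s, hs, rfl⟩ := hx
    have h1 := sub_pt_mem (Set.singleton_subset_iff.2 hs) (spherical_singleton s) (g := g) (x := g)
      (by rw [inv_mul_cancel]; exact one_mem _)
    have h2 := sub_pt_mem (Set.singleton_subset_iff.2 hs) (spherical_singleton s) (g := g)
      (x := g * gen M s) (by rw [inv_mul_cancel_left]; exact gen_mem M rfl)
    have := sub_mem h1 h2
    rwa [sub_sub_sub_cancel_left] at this
  | one => rw [mul_one, sub_self]; exact zero_mem _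
  | mul x y _ _ hx hy =>
    have := add_mem (hy (g * x)) (hx g)
    rwa [sub_add_sub_cancel, mul_assoc] at this
  | inv x _ hx =>
    have := neg_mem (hx (g * x⁻¹))
    rwa [inv_mul_cancel_right, neg_sub] at this

theorem mem_Bd_of_aug {T : Set S} {z : Finset (Set (Artin M)) →₀ ℤ} (hz : z ∈ FC (Ind M T) 1)
    (h0 : caug M T z = 0) : z ∈ Bd (Ind M T) 2 := by
  have key : z - Finsupp.linearCombination ℤ (fun q : Artin M ⧸ parab M T => pt q.out)
      (caug M T z) ∈ Bd (Ind M T) 2 := by
    refine FC_induction (Q := fun z => z - Finsupp.linearCombination ℤ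
      (fun q : Artin M ⧸ parab M T => pt q.out) (caug M T z) ∈ Bd (Ind M T) 2) (by simp)
      (fun x y hx hy => ?_) (fun σ n h => ?_) hz
    · have := add_mem hx hy
      rwa [sub_add_sub_comm, ← map_add, ← map_add] at this
    · obtain ⟨_, ⟨U, hU, hs, g, rfl⟩, rfl⟩ := isFlag_one_iff.1 h
      rw [aug_single, mk_frep h (Finset.mem_singleton_self _) (self_mem g U),
        Finsupp.linearCombination_single, ← Finsupp.smul_single_one, ← smul_sub]
      refine Submodule.smul_mem _ _ ?_
      obtain ⟨k, hk⟩ := QuotientGroup.mk_out_eq_mul (parab M T) g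
      have := sub_mem (sub_pt_mem hU hs (g := g) (x := g)
        (by rw [inv_mul_cancel]; exact one_mem _)) (pt_sub_pt k.2 g)
      rwa [sub_sub_sub_cancel_right, ← hk] at this
  rwa [h0, map_zero, sub_zero] at key

/-- Translation by a group element. -/
def tr (g : Artin M) : Set (Artin M) ↪o Set (Artin M) :=
  OrderEmbedding.ofMapLEIff (fun c => g • c) fun _ _ => Set.smul_set_subset_smul_set_iff

variable (M) in
/-- Exactness above the vertices. -/
def Ac (T : Set S) : Prop :=
  ∀ (k : ℕ) (z : Finset (Set (Artin M)) →₀ ℤ), z ∈ FC (Ind M T) (k + 2) → obd z = 0 →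
    z ∈ Bd (Ind M T) (k + 3)

theorem ac_of_acyclic {T : Set S} (h : OrderAcyclic (Deligne M T)) : Ac M T := by
  classical
  intro k z hz h0
  rw [eq_sum_filter z fun σ => (frep σ : Artin M ⧸ parab M T)]
  refine sum_mem fun q _ => ?_
  obtain ⟨g, rfl⟩ := QuotientGroup.mk_surjective q
  have h1 := obd_filter hz (fun σ => (frep σ : Artin M ⧸ parab M T) = g) fun σ hσ v hv => by
    rw [frep_erase hσ hv]
  rw [h0, Finsupp.filter_zero] at h1
  have h2 : (z.filter fun σ => (frep σ : Artin M ⧸ parab M T) = g) ∈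
      FC {c | tr g⁻¹ c ∈ Deligne M T} (k + 2) := filter_mem_FC hz _ fun σ hσ hq =>
    ⟨fun c hc => by
      obtain ⟨U, hU, hs, x, rfl⟩ := hσ.1 hc
      exact ⟨U, hU, hs, g⁻¹ * x, QuotientGroup.eq.1 (hq.symm.trans (mk_frep hσ hc (self_mem x U))),
        (mul_smul _ _ _).symm⟩, hσ.2⟩
  obtain ⟨w, hw, hw'⟩ := h _ _ (mem_FC.1 (map_mem_FC (tr g⁻¹) (fun _ hc => hc) h2))
    (by rw [obd_mapDomain, h1, Finsupp.mapDomain_zero])
  refine ⟨_, map_mem_FC (tr g) ?_ (mem_FC.2 hw), ?_⟩
  · rintro _ ⟨U, hU, hs, x, -, rfl⟩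
    exact ⟨U, hU, hs, g * x, (mul_smul _ _ _).symm⟩
  · rw [obd_mapDomain, hw', ← Finsupp.mapDomain_comp]
    have : (Finset.map (tr g).toEmbedding ∘ Finset.map (tr g⁻¹).toEmbedding :
        Finset (Set (Artin M)) → _) = id := by
      funext σ
      rw [Function.comp_apply, Finset.map_map]
      exact (congrArg σ.map (Function.Embedding.ext fun c => smul_inv_smul g c)).trans
        Finset.map_refl
    rw [this, Finsupp.mapDomain_id]

theorem acyclic_of_spherical {T : Set S} (h : Spherical M T) : OrderAcyclic (Deligne M T) := by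
  refine orderAcyclic_of_top (a := (1 : Artin M) • (parab M T : Set (Artin M)))
    ⟨T, subset_rfl, h, 1, one_mem _, rfl⟩ ?_
  rintro _ ⟨U, hU, -, g, hg, rfl⟩
  exact coset_subset_iff.2 ⟨hU, by rwa [inv_one, one_mul]⟩

theorem ac_split {T : Set S} {s t : S} (hs : s ∈ T) (ht : t ∈ T) (hst : M s t = 0)
    (hA : Ac M (T \ {s})) (hB : Ac M (T \ {t})) (hC : Ac M ((T \ {s}) ∩ (T \ {t}))) : Ac M T := by
  classical
  intro k z hz h0
  obtain ⟨x, hx, y, hy, rfl⟩ : ∃ x ∈ FC (Ind M (T \ {s})) (k + 2),
      ∃ y ∈ FC (Ind M (T \ {t})) (k + 2), z = x + y := by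
    refine ⟨_, filter_mem_FC hz (IsFlag (Ind M (T \ {s})) (k + 2)) fun _ _ h => h, _,
      filter_mem_FC hz (fun σ => ¬ IsFlag (Ind M (T \ {s})) (k + 2) σ) fun σ hσ h => ?_,
      (Finsupp.filter_add_filter_not _ _).symm⟩
    obtain ⟨U, hU, hsp, hf⟩ := exists_type hσ
    by_cases hsU : s ∈ U
    · refine ⟨hf.1.trans (Ind_mono fun u hu => ⟨hU hu, ?_⟩), hf.2⟩
      rintro rfl
      exact hsp.ne_zero hsU hu hst
    · refine (h ⟨hf.1.trans (Ind_mono fun u hu => ⟨hU hu, ?_⟩), hf.2⟩).elim
      rintro rfl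
      exact hsU hu
  have e : obd x = obd (-y) := by rw [map_neg, eq_neg_iff_add_eq_zero, ← map_add, h0]
  have hc : obd x ∈ FC (Ind M ((T \ {s}) ∩ (T \ {t}))) (k + 1) := by
    rw [Ind_inter, FC_inter]
    exact ⟨obd_mem_FC hx, e ▸ obd_mem_FC (neg_mem hy)⟩
  obtain ⟨u, hu, hu'⟩ : obd x ∈ Bd (Ind M ((T \ {s}) ∩ (T \ {t}))) (k + 2) := by
    rcases k with _ | k
    · refine mem_Bd_of_aug hc (tree_injective hs ht hst _ ?_ ?_)
      · rw [aug_map, aug_obd hx]
      · rw [aug_map, e, aug_obd (neg_mem hy)]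
    · exact hC k _ hc (obd_obd hx)
  have h1 := hA k (x - u) (sub_mem hx (FC_mono (Ind_mono Set.inter_subset_left) hu))
    (by rw [map_sub, hu', sub_self])
  have h2 := hB k (y + u) (add_mem hy (FC_mono (Ind_mono Set.inter_subset_right) hu))
    (by rw [map_add, hu', add_comm, ← map_add, h0])
  have := add_mem (Bd_mono (Ind_mono Set.sdiff_subset) h1) (Bd_mono (Ind_mono Set.sdiff_subset) h2)
  rwa [sub_add_add_cancel] at this

theorem ac_finite
    (hM : ∀ T : Set S, T.Finite → (∀ s ∈ T, ∀ t ∈ T, M s t ≠ 0) →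
      Spherical M T ∨ OrderAcyclic (Deligne M T)) (n : ℕ) :
    ∀ T : Set S, T.Finite → T.ncard < n → Ac M T := by
  induction n with
  | zero => exact fun _ _ h => absurd h (Nat.not_lt_zero _)
  | succ n ih =>
    intro T hT hn
    by_cases h : ∀ s ∈ T, ∀ t ∈ T, M s t ≠ 0
    · exact ac_of_acyclic ((hM T hT h).elim acyclic_of_spherical id)
    push Not at h
    obtain ⟨s, hs, t, ht, hst⟩ := h
    have key : ∀ U ⊂ T, Ac M U := fun U hU =>
      ih U (hT.subset hU.subset) (by have := Set.ncard_lt_ncard hU hT; omega)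
    exact ac_split hs ht hst (key _ (Set.sdiff_singleton_ssubset.2 hs))
      (key _ (Set.sdiff_singleton_ssubset.2 ht))
      (key _ (Set.inter_subset_left.trans_ssubset (Set.sdiff_singleton_ssubset.2 hs)))

end DelAc

open DelAc

variable {S : Type} {M : CoxeterMatrix S}

/-- Acyclicity of the Deligne complex reduces to the finite subsets that are free of infinity. -/
theorem deligne_acyclic
    (hM : ∀ T : Set S, T.Finite → (∀ s ∈ T, ∀ t ∈ T, M s t ≠ 0) →
      Spherical M T ∨ OrderAcyclic (Deligne M T)) :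
    OrderAcyclic (Deligne M Set.univ) := by
  rw [← Ind_univ]
  intro p z hz h0
  rw [← mem_FC] at hz
  suffices h : z ∈ Bd (Ind M Set.univ) (p + 1) from
    let ⟨w, hw, hw'⟩ := h
    ⟨w, mem_FC.1 hw, hw'⟩
  match p, hz with
  | 0, hz =>
    refine FC_induction (Q := fun z => z ∈ Bd (Ind M Set.univ) 1) (zero_mem _)
      (fun _ _ => add_mem) (fun σ n h => ?_) hz
    rw [isFlag_zero_iff.1 h]
    have h1 : (1 : Artin M) • (parab M ∅ : Set (Artin M)) ∈ Ind M Set.univ :=
      ⟨∅, Set.empty_subset _, spherical_empty, 1, rfl⟩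
    exact ⟨_, single_mem_FC (isFlag_one_iff.2 ⟨_, h1, rfl⟩) n, obd_one _ n⟩
  | 1, hz =>
    refine mem_Bd_of_aug hz ?_
    have : caug M Set.univ z = Finsupp.single ((1 : Artin M) : Artin M ⧸ parab M Set.univ)
        (obd z ∅) := by
      refine FC_induction (Q := fun z => caug M Set.univ z = Finsupp.single
        ((1 : Artin M) : Artin M ⧸ parab M Set.univ) (obd z ∅)) (by simp)
        (fun x y hx hy => by rw [map_add, map_add, Finsupp.add_apply, Finsupp.single_add, hx, hy])
        (fun σ n h => ?_) hz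
      obtain ⟨v, -, rfl⟩ := isFlag_one_iff.1 h
      rw [aug_single, obd_one, Finsupp.single_eq_same,
        QuotientGroup.eq.2 (by rw [parab_univ]; exact Subgroup.mem_top _)]
    rw [this, h0, Finsupp.zero_apply, Finsupp.single_zero]
  | k + 2, hz =>
    obtain ⟨T, hT, hz'⟩ : ∃ T : Set S, T.Finite ∧ z ∈ FC (Ind M T) (k + 2) := by
      refine FC_induction (Q := fun z => ∃ T : Set S, T.Finite ∧ z ∈ FC (Ind M T) (k + 2))
        ⟨∅, Set.finite_empty, zero_mem _⟩ ?_ (fun σ n h => ?_) hz
      · rintro x y ⟨T, hT, hx⟩ ⟨T', hT', hy⟩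
        exact ⟨T ∪ T', hT.union hT', add_mem (FC_mono (Ind_mono Set.subset_union_left) hx)
          (FC_mono (Ind_mono Set.subset_union_right) hy)⟩
      · obtain ⟨U, -, hs, hf⟩ := exists_type h
        exact ⟨U, hs.finite, single_mem_FC hf n⟩
    exact Bd_mono (Ind_mono (Set.subset_univ T))
      (ac_finite hM _ T hT (Nat.lt_succ_self _) k z hz' h0)

end Pool.Agent.MP_4f4d9f_gt

end

section

/-! Garside elements of spherical parabolic subgroups, the reflection-counting cocycle and the
dual homomorphisms on the pure Artin group. -/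

namespace Pool.Agent.MP_4f4d9f_gt

namespace Delta

open CoxeterSystem

section Dual

/-- A triangular family of homomorphisms to `ℤ` can be diagonalised. -/
theorem exists_dual {ι H : Type} [Finite ι] [PartialOrder ι] [Group H] (x : ι → H)
    (c : ι → H →* Multiplicative ℤ) (htri : ∀ u v, c v (x u) ≠ 1 → v ≤ u)
    (hdiag : ∀ v, c v (x v) ≠ 1) :
    ∃ ab : ι → H →* Multiplicative ℤ,
      (∀ u v, u ≠ v → ab v (x u) = 1) ∧ ∀ v, 1 ≤ (ab v (x v)).toAdd := by
  classical
  have := Fintype.ofFinite ι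
  let A : Matrix ι ι ℤ := Matrix.of fun u w => (c w (x u)).toAdd
  have hdet : A.det ≠ 0 := by
    intro h
    obtain ⟨y, hy, hA⟩ := Matrix.exists_mulVec_eq_zero_iff.2 h
    have hne : (Finset.univ.filter fun u => y u ≠ 0).Nonempty := by
      by_contra hc
      apply hy
      funext u
      by_contra hu
      exact hc ⟨u, Finset.mem_filter.2 ⟨Finset.mem_univ _, hu⟩⟩
    obtain ⟨u, hu⟩ := Finset.exists_minimal hne
    have hu0 : y u ≠ 0 := (Finset.mem_filter.1 hu.1).2
    have h1 : ∑ w, A u w * y w = 0 := congrFun hA u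
    rw [Finset.sum_eq_single u] at h1
    · rcases mul_eq_zero.1 h1 with h2 | h2
      · exact hdiag u (by simpa [A] using h2)
      · exact hu0 h2
    · intro w _ hw
      by_contra h2
      have h3 : A u w ≠ 0 := left_ne_zero_of_mul h2
      have h4 : y w ≠ 0 := right_ne_zero_of_mul h2
      have h5 : w ≤ u := htri u w (fun e => h3 (by simp [A, e]))
      exact hw (le_antisymm h5 (hu.2 (Finset.mem_filter.2 ⟨Finset.mem_univ _, h4⟩) h5))
    · intro h2
      exact absurd (Finset.mem_univ _) h2
  have key : ∀ u v, ((∏ w, c w ^ (A.adjugate w v * A.det)) (x u)).toAdd =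
      (if u = v then A.det else 0) * A.det := by
    intro u v
    have h1 : (A * A.adjugate) u v = if u = v then A.det else 0 := by
      rw [Matrix.mul_adjugate, Matrix.smul_apply, Matrix.one_apply]
      split_ifs <;> simp
    rw [← h1, Matrix.mul_apply, Finset.sum_mul, MonoidHom.finsetProd_apply, toAdd_prod]
    refine Finset.sum_congr rfl fun w _ => ?_
    rw [MonoidHom.zpow_apply, toAdd_zpow, smul_eq_mul]
    change _ * A u w = _
    ring
  refine ⟨fun v => ∏ w, c w ^ (A.adjugate w v * A.det), fun u v huv => ?_, fun v => ?_⟩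
  · have h := key u v
    rw [if_neg huv, zero_mul] at h
    exact toAdd_eq_zero.1 h
  · rw [key, if_pos rfl]
    exact mul_self_pos.2 hdet

end Dual

section Cocycle

variable {W : Type} [Group W]

/-- `W` acts on the functions on `W` by conjugation of the argument. -/
def act (W : Type) [Group W] : W →* MulAut (W → Multiplicative ℤ) where
  toFun w :=
    { toFun := fun f r => f (w⁻¹ * r * w)
      invFun := fun f r => f (w * r * w⁻¹)
      left_inv := fun f => funext fun r => congrArg f (by group)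
      right_inv := fun f => funext fun r => congrArg f (by group)
      map_mul' := fun _ _ => rfl }
  map_one' := MulEquiv.ext fun f => funext fun r => congrArg f (by group)
  map_mul' a b := MulEquiv.ext fun f => funext fun r => congrArg f (by group)

theorem act_apply (w : W) (f : W → Multiplicative ℤ) (r : W) :
    act W w f r = f (w⁻¹ * r * w) := rfl

variable {S : Type} {M : CoxeterMatrix S} (cs : CoxeterSystem M W)

open Classical in
/-- The image of a generator in the semidirect product. -/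
noncomputable def gam (s : S) : (W → Multiplicative ℤ) ⋊[act W] W :=
  ⟨fun r => Multiplicative.ofAdd (if cs.simple s = r then 1 else 0), cs.simple s⟩

open Classical in
theorem prod_gam (ω : List S) : (ω.map (gam cs)).prod =
    ⟨fun r => Multiplicative.ofAdd (((cs.leftInvSeq ω).count r : ℕ) : ℤ), cs.wordProd ω⟩ := by
  induction ω with
  | nil => ext <;> simp
  | cons s ω ih =>
    rw [List.map_cons, List.prod_cons, ih]
    ext r
    · rw [SemidirectProduct.mul_left, Pi.mul_apply, act_apply]
      change (if cs.simple s = r then (1 : ℤ) else 0) +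
        (((cs.leftInvSeq ω).count ((cs.simple s)⁻¹ * r * cs.simple s) : ℕ) : ℤ) =
        (((cs.simple s :: (cs.leftInvSeq ω).map (MulAut.conj (cs.simple s))).count r : ℕ) : ℤ)
      have h : r = MulAut.conj (cs.simple s) ((cs.simple s)⁻¹ * r * cs.simple s) := by
        rw [MulAut.conj_apply]
        group
      have h2 : ((cs.leftInvSeq ω).map (MulAut.conj (cs.simple s))).count r =
          (cs.leftInvSeq ω).count ((cs.simple s)⁻¹ * r * cs.simple s) := by
        conv_lhs => rw [h]
        exact List.count_map_of_injective _ _ (MulAut.conj (cs.simple s)).injective _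
      rw [List.count_cons, h2]
      by_cases e : cs.simple s = r <;> simp [e, add_comm]
    · rw [SemidirectProduct.mul_right, wordProd_cons]
      rfl

theorem braidOn_gam : BraidOn M (gam cs) Set.univ := by
  classical
  intro s _ t _
  rw [prod_gam, prod_gam, leftInvSeq_braidWord cs s t, cs.wordProd_braidWord_eq s t]
  simp only [List.count_reverse]

end Cocycle

variable {S : Type} {M : CoxeterMatrix S}

/-- The lift of a word to the Artin group. -/
noncomputable def lw (M : CoxeterMatrix S) (ω : List S) : Artin M := (ω.map (gen M)).prod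

theorem lw_append (ω ω' : List S) : lw M (ω ++ ω') = lw M ω * lw M ω' := by
  simp [lw]

theorem lw_mem {U : Set S} {ω : List S} (h : ∀ s ∈ ω, s ∈ U) : lw M ω ∈ parab M U := by
  refine list_prod_mem fun g hg => ?_
  obtain ⟨s, hs, rfl⟩ := List.mem_map.1 hg
  exact gen_mem M (h s hs)

theorem lift_lw {H : Type} [Group H] (f : S → H) (hf : BraidOn M f Set.univ) (ω : List S) :
    Artin.lift M f hf (lw M ω) = (ω.map f).prod := by
  rw [lw, map_list_prod, List.map_map]
  congr 2
  funext s
  exact Artin.lift_gen M f hf s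

theorem toW_lw (ω : List S) : toW M (lw M ω) = M.toCoxeterSystem.wordProd ω :=
  lift_lw _ _ ω

/-- The cocycle homomorphism. -/
noncomputable def Phi (M : CoxeterMatrix S) :
    Artin M →* (M.Group → Multiplicative ℤ) ⋊[act M.Group] M.Group :=
  Artin.lift M (gam M.toCoxeterSystem) (braidOn_gam _)

theorem Phi_right (a : Artin M) : (Phi M a).right = toW M a := by
  have h : SemidirectProduct.rightHom.comp (Phi M) = toW M := by
    refine PresentedGroup.ext fun s => ?_
    change (Phi M (gen M s)).right = toW M (gen M s)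
    rw [toW_gen, Phi, Artin.lift_gen]
    rfl
  exact DFunLike.congr_fun h a

/-- The reflection-counting homomorphism on the pure Artin group. -/
noncomputable def cnt (M : CoxeterMatrix S) (r : M.Group) : (toW M).ker →* Multiplicative ℤ where
  toFun a := (Phi M a).left r
  map_one' := by simp
  map_mul' a b := by
    have ha : toW M a = 1 := a.2
    rw [Subgroup.coe_mul, map_mul, SemidirectProduct.mul_left, Pi.mul_apply, act_apply, Phi_right,
      ha, inv_one, one_mul, mul_one]

open Classical in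
theorem cnt_lw (r : M.Group) (ω : List S) (h : lw M ω ∈ (toW M).ker) :
    cnt M r ⟨lw M ω, h⟩ =
      Multiplicative.ofAdd (((M.toCoxeterSystem.leftInvSeq ω).count r : ℕ) : ℤ) := by
  change (Phi M (lw M ω)).left r = _
  rw [Phi, lift_lw, prod_gam]

theorem cnt_lw_ne_one {r : M.Group} {ω : List S} (h : lw M ω ∈ (toW M).ker) :
    cnt M r ⟨lw M ω, h⟩ ≠ 1 ↔ r ∈ M.toCoxeterSystem.leftInvSeq ω := by
  classical
  rw [cnt_lw, Ne, ofAdd_eq_one, Nat.cast_eq_zero, List.count_eq_zero, not_not]

/-- Conjugation of a generator by the Garside element. -/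
theorem gen_mul_lw {U : Set S} {ω : List S} (hω : ∀ s ∈ ω, s ∈ U)
    (hr : M.toCoxeterSystem.IsReduced ω) {s t : S} (hs : s ∈ U) (ht : t ∈ U)
    (hinv : M.toCoxeterSystem.IsLeftInversion (M.toCoxeterSystem.wordProd ω)
      (M.toCoxeterSystem.simple t))
    (h : M.toCoxeterSystem.simple t * M.toCoxeterSystem.wordProd ω =
      M.toCoxeterSystem.wordProd ω * M.toCoxeterSystem.simple s) :
    gen M t * lw M ω = lw M ω * gen M s := by
  set cs := M.toCoxeterSystem
  have hu : cs.simple t * cs.wordProd ω ∈ Wp cs U :=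
    mul_mem (simple_mem_Wp cs ht) (wordProd_mem_Wp cs hω)
  obtain ⟨o, ho, hor, hoe⟩ := exists_reduced_of_mem_Wp cs hu
  have hlen : o.length + 1 = cs.length (cs.wordProd ω) := by
    rw [← hor.eq, hoe]
    have h1 := hinv.2
    rcases cs.length_simple_mul (cs.wordProd ω) t with h2 | h2 <;> omega
  have e1 : cs.wordProd (t :: o) = cs.wordProd ω := by
    rw [wordProd_cons, hoe, simple_mul_simple_cancel_left]
  have e2 : cs.wordProd (o ++ [s]) = cs.wordProd ω := by
    rw [wordProd_append, wordProd_singleton, hoe, h, simple_mul_simple_cancel_right]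
  have r1 : cs.IsReduced (t :: o) := by
    rw [CoxeterSystem.IsReduced, e1, List.length_cons, hlen]
  have r2 : cs.IsReduced (o ++ [s]) := by
    rw [CoxeterSystem.IsReduced, e2, List.length_append, List.length_singleton, hlen]
  have m1 : lw M (t :: o) = lw M ω :=
    matsumoto cs (braidOn_gen M U) (by
      intro a ha
      rcases List.mem_cons.1 ha with rfl | ha
      · exact ht
      · exact ho a ha) hω r1 hr e1
  have m2 : lw M (o ++ [s]) = lw M ω :=
    matsumoto cs (braidOn_gen M U) (by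
      intro a ha
      rcases List.mem_append.1 ha with ha | ha
      · exact ho a ha
      · rw [List.mem_singleton.1 ha]
        exact hs) hω r2 hr e2
  have m3 : lw M (t :: o) = gen M t * lw M o := by simp [lw]
  have m4 : lw M (o ++ [s]) = lw M o * gen M s := by simp [lw]
  calc gen M t * lw M ω = gen M t * (lw M o * gen M s) := by rw [← m4, m2]
    _ = lw M ω * gen M s := by rw [← mul_assoc, ← m3, m1]

/-- The square of the Garside element of a spherical set, as the lift of a word. -/
theorem exists_word {U : Set S} (hU : Spherical M U) :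
    ∃ ω : List S, (∀ s ∈ ω, s ∈ U) ∧ lw M ω ∈ (toW M).ker ∧
      (∀ g ∈ parab M U, Commute g (lw M ω)) ∧
      ∀ r ∈ Wp M.toCoxeterSystem U, M.toCoxeterSystem.IsReflection r →
        r ∈ M.toCoxeterSystem.leftInvSeq ω := by
  set cs := M.toCoxeterSystem
  obtain ⟨w, hw, hinv, hww, hconj⟩ := exists_longest cs ((spherical_iff M U).1 hU)
  obtain ⟨ω, hω, hr, rfl⟩ := exists_reduced_of_mem_Wp cs hw
  refine ⟨ω ++ ω, fun s hs => ?_, ?_, fun g hg => ?_, fun r hr1 hr2 => ?_⟩
  · rcases List.mem_append.1 hs with hs | hs <;> exact hω s hs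
  · rw [MonoidHom.mem_ker, toW_lw, wordProd_append]
    exact hww
  · rw [lw_append]
    refine Subgroup.closure_induction (p := fun g _ => Commute g (lw M ω * lw M ω)) ?_
      (Commute.one_left _) (fun _ _ _ _ h1 h2 => h1.mul_left h2) (fun _ _ h1 => h1.inv_left) hg
    rintro _ ⟨s, hs, rfl⟩
    obtain ⟨t, ht, h⟩ := hconj s hs
    have hi : ∀ a ∈ U, cs.IsLeftInversion (cs.wordProd ω) (cs.simple a) := fun a ha =>
      hinv _ (simple_mem_Wp cs ha) (cs.isReflection_simple a)
    have h' : cs.simple s * cs.wordProd ω = cs.wordProd ω * cs.simple t := by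
      calc cs.simple s * cs.wordProd ω
          = cs.wordProd ω * (cs.wordProd ω * cs.simple s) * cs.wordProd ω := by
            rw [← mul_assoc, hww, one_mul]
        _ = cs.wordProd ω * cs.simple t := by
            rw [← h, ← mul_assoc, mul_assoc _ (cs.wordProd ω), hww, mul_one]
    have k1 := gen_mul_lw hω hr hs ht (hi t ht) h
    have k2 := gen_mul_lw hω hr ht hs (hi s hs) h'
    change gen M s * (lw M ω * lw M ω) = lw M ω * lw M ω * gen M s
    rw [← mul_assoc, k2, mul_assoc, k1, mul_assoc]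
  · rw [leftInvSeq_append]
    exact List.mem_append_left _ (mem_leftInvSeq_of_isLeftInversion cs ω (hinv r hr1 hr2))

end Delta

variable {S : Type} {M : CoxeterMatrix S}

/-- A spherical parabolic subgroup has a central element of infinite order. -/
theorem exists_central {U : Set S} (hU : Spherical M U) (hne : U.Nonempty) :
    ∃ z ∈ parab M U, ¬ IsOfFinOrder z ∧ ∀ g ∈ parab M U, Commute g z := by
  obtain ⟨ω, hω, hker, hc, hr⟩ := Delta.exists_word hU
  refine ⟨Delta.lw M ω, Delta.lw_mem hω, fun hf => ?_, hc⟩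
  obtain ⟨s, hs⟩ := hne
  have h1 := (Delta.cnt_lw_ne_one hker).2
    (hr _ (simple_mem_Wp _ hs) (M.toCoxeterSystem.isReflection_simple s))
  have h2 : IsOfFinOrder (⟨Delta.lw M ω, hker⟩ : (toW M).ker) :=
    (Subgroup.subtype_injective _).isOfFinOrder_iff.1 hf
  exact h1 ((Delta.cnt M _).isOfFinOrder h2).eq_one'

/-- The elements `Δ_U ^ 2` and dual homomorphisms on the pure Artin group. -/
theorem exists_ab {T : Set S} (hT : T.Finite) :
    ∃ (H : Subgroup (Artin M)) (x : LV M T → H) (ab : LV M T → H →* Multiplicative ℤ),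
      (∀ u v, (Lam M T).Adj u v → Commute (x u) (x v)) ∧
      (∀ u v, u ≠ v → ab v (x u) = 1) ∧ (∀ v, 1 ≤ (ab v (x v)).toAdd) ∧
      ∀ v, (x v : Artin M) ∈ parab M v.1 ∧ ∀ a ∈ parab M v.1, Commute a (x v : Artin M) := by
  have hfin : Finite (LV M T) :=
    (hT.finite_subsets.subset (t := {U | U ∈ Sph M T ∧ Conn M U}) fun U hU => hU.1.1).to_subtype
  choose ω hω hker hc hr using fun u : LV M T => Delta.exists_word u.2.1.2.2
  choose r hr1 hr2 hr3 using fun u : LV M T =>
    exists_full_reflection M.toCoxeterSystem (hT.subset u.2.1.1) u.2.1.2.1 u.2.2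
  obtain ⟨ab, h1, h2⟩ := Delta.exists_dual (fun u => (⟨Delta.lw M (ω u), hker u⟩ : (toW M).ker))
    (fun v => Delta.cnt M (r v))
    (fun u v h => hr3 v u.1 (leftInvSeq_mem_Wp _ (hω u) _ ((Delta.cnt_lw_ne_one (hker u)).1 h)))
    (fun v => (Delta.cnt_lw_ne_one (hker v)).2 (hr v _ (hr2 v) (hr1 v)))
  refine ⟨_, _, ab, fun u v huv => Subtype.ext ?_, h1, h2,
    fun v => ⟨Delta.lw_mem (hω v), hc v⟩⟩
  change Commute (Delta.lw M (ω u)) (Delta.lw M (ω v))
  rcases huv.2 with h | h | h
  · exact hc v _ (parab_mono h (Delta.lw_mem (hω u)))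
  · exact (hc u _ (parab_mono h (Delta.lw_mem (hω v)))).symm
  · exact commute_of_mem_parab h (Delta.lw_mem (hω u)) (Delta.lw_mem (hω v))

end Pool.Agent.MP_4f4d9f_gt

end

section

/-! Cell stabilisers of the Deligne complex and its chains with coefficients in `N`. -/

open scoped Pointwise TensorProduct

namespace Pool.Agent.MP_4f4d9f_gt

namespace L2Bot

section Cells

variable {S : Type} {M : CoxeterMatrix S}

/-- The order embedding `U ↦ g A_U`. -/
def cos (g : Artin M) : Set S ↪o Set (Artin M) :=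
  OrderEmbedding.ofMapLEIff (fun U => g • (parab M U : Set (Artin M))) fun U V => by
    change g • (parab M U : Set (Artin M)) ⊆ g • (parab M V : Set (Artin M)) ↔ U ⊆ V
    rw [coset_subset_iff, inv_mul_cancel]
    exact and_iff_left (one_mem _)

lemma cos_apply (g : Artin M) (U : Set S) : cos g U = g • (parab M U : Set (Artin M)) := rfl

lemma smul_cos (h g : Artin M) (U : Set S) : h • cos g U = cos (h * g) U :=
  (mul_smul h g _).symm

lemma cos_eq_iff {g h : Artin M} {U V : Set S} :
    cos g U = cos h V ↔ U = V ∧ h⁻¹ * g ∈ parab M V := coset_eq_iff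

lemma cos_le_iff {g h : Artin M} {U V : Set S} :
    cos g U ≤ cos h V ↔ U ⊆ V ∧ h⁻¹ * g ∈ parab M V := coset_subset_iff

lemma isFlag_map (g : Artin M) {p : ℕ} {σ : Finset (Set S)} (h1 : ∀ U ∈ σ, Spherical M U)
    (h2 : IsChain (· ≤ ·) (σ : Set (Set S))) (h3 : σ.card = p) :
    IsFlag (Deligne M Set.univ) p (σ.map (cos g).toEmbedding) := by
  refine ⟨?_, ?_, by rw [Finset.card_map, h3]⟩
  · intro c hc
    obtain ⟨U, hU, rfl⟩ := Finset.mem_map.1 hc
    exact ⟨U, Set.subset_univ _, h1 U hU, g, by rw [parab_univ]; trivial, rfl⟩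
  · rw [Finset.coe_map]
    rintro _ ⟨a, ha, rfl⟩ _ ⟨b, hb, rfl⟩ hab
    exact (h2 ha hb fun e => hab (congrArg _ e)).imp (cos g).monotone.imp (cos g).monotone.imp

lemma empty_notMem {p : ℕ} (y : Flag (Sph M Set.univ) p) : ∅ ∉ y.1 := fun h =>
  Set.not_nonempty_empty (y.2.1 h).2.1

open Classical in
/-- The free cell determined by `g` and a flag `y` of nonempty spherical sets. -/
noncomputable def cell (g : Artin M) {p : ℕ} (y : Flag (Sph M Set.univ) p) :
    Flag (Deligne M Set.univ) (p + 1) :=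
  ⟨(insert ∅ y.1).map (cos g).toEmbedding, isFlag_map g
    (fun U hU => by
      rcases Finset.mem_insert.1 hU with rfl | hU
      · exact spherical_empty
      · exact (y.2.1 hU).2.2)
    (by
      rw [Finset.coe_insert]
      exact y.2.2.1.insert fun b _ _ => Or.inl (Set.empty_subset b))
    (by rw [Finset.card_insert_of_notMem (empty_notMem y), y.2.2.2])⟩

/-- The face of a free cell opposite to its bottom vertex. -/
noncomputable def lid (g : Artin M) {p : ℕ} (y : Flag (Sph M Set.univ) p) :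
    Flag (Deligne M Set.univ) p :=
  ⟨y.1.map (cos g).toEmbedding, isFlag_map g (fun _ hU => (y.2.1 hU).2.2) y.2.2.1 y.2.2.2⟩

open Classical in
lemma cell_val (g : Artin M) {p : ℕ} (y : Flag (Sph M Set.univ) p) :
    (cell g y).1 = (insert ∅ y.1).map (cos g).toEmbedding := rfl

lemma cos_mem_cell (g : Artin M) {p : ℕ} (y : Flag (Sph M Set.univ) p) :
    cos g ∅ ∈ (cell g y).1 := by
  classical
  rw [cell_val]
  exact Finset.mem_map.2 ⟨∅, by simp, rfl⟩

lemma cos_notMem_lid (g g' : Artin M) {p : ℕ} (y : Flag (Sph M Set.univ) p) :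
    cos g' ∅ ∉ (lid g y).1 := by
  intro h
  obtain ⟨U, hU, h1⟩ := Finset.mem_map.1 h
  have h2 : U = ∅ := (cos_eq_iff.1 h1).1
  exact empty_notMem y (h2 ▸ hU)

lemma cell_inj {g g' : Artin M} {p : ℕ} {y y' : Flag (Sph M Set.univ) p}
    (h : cell g y = cell g' y') : g = g' ∧ y = y' := by
  classical
  have h1 := cos_mem_cell g y
  rw [h, cell_val] at h1
  obtain ⟨U, -, h2⟩ := Finset.mem_map.1 h1
  obtain ⟨-, h3⟩ := cos_eq_iff.1 h2
  rw [parab_empty, Subgroup.mem_bot, inv_mul_eq_one] at h3
  subst h3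
  refine ⟨rfl, Subtype.ext ?_⟩
  have h4 := congrArg Subtype.val h
  rw [cell_val, cell_val] at h4
  have h5 := Finset.map_injective _ h4
  rw [← Finset.erase_insert (empty_notMem y), ← Finset.erase_insert (empty_notMem y')]
  convert congrArg (fun s => Finset.erase s ∅) h5

lemma smul_cell (h g : Artin M) {p : ℕ} (y : Flag (Sph M Set.univ) p) :
    h • cell g y = cell (h * g) y := by
  apply Subtype.ext
  rw [Flag.smul_val, cell_val, cell_val, Finset.map_map]
  congr 1
  ext U : 1
  exact smul_cos h g U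

lemma above {p : ℕ} (e : Flag (Deligne M Set.univ) p) {g : Artin M} {U : Set S}
    {c : Set (Artin M)} (hc : c ∈ e.1) (h : cos g U ≤ c) :
    ∃ V, U ⊆ V ∧ Spherical M V ∧ cos g V = c := by
  obtain ⟨V, -, hV, g', -, rfl⟩ := e.2.1 hc
  obtain ⟨h1, h2⟩ := (cos_le_iff (h := g') (V := V)).1 h
  exact ⟨V, h1, hV, (cos_eq_iff (h := g')).2 ⟨rfl, h2⟩⟩

lemma exists_cell {p : ℕ} (e : Flag (Deligne M Set.univ) (p + 1)) {g : Artin M}
    (h : cos g ∅ ∈ e.1) : ∃ y, e = cell g y := by
  classical
  have hbot : ∀ c ∈ e.1, cos g ∅ ≤ c := by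
    intro c hc
    rcases e.2.2.1.total h hc with h1 | h1
    · exact h1
    · obtain ⟨V, -, -, g', -, rfl⟩ := e.2.1 hc
      obtain ⟨h2, h3⟩ := (cos_le_iff (g := g') (U := V)).1 h1
      exact ((cos_eq_iff (g := g') (U := V)).2 ⟨Set.subset_empty_iff.1 h2, h3⟩).ge
  let σ : Finset (Set S) := e.1.preimage (cos g) (cos g).injective.injOn
  have hσ : ∀ U, U ∈ σ ↔ cos g U ∈ e.1 := fun U => Finset.mem_preimage
  have hmap : σ.map (cos g).toEmbedding = e.1 := by
    ext c
    rw [Finset.mem_map]
    constructor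
    · rintro ⟨U, hU, rfl⟩
      exact (hσ U).1 hU
    · intro hc
      obtain ⟨V, -, -, rfl⟩ := above e hc (hbot c hc)
      exact ⟨V, (hσ V).2 hc, rfl⟩
  have h0 : ∅ ∈ σ := (hσ _).2 h
  refine ⟨⟨σ.erase ∅, ?_, ?_, ?_⟩, Subtype.ext ?_⟩
  · intro U hU
    obtain ⟨h1, h2⟩ := Finset.mem_erase.1 hU
    obtain ⟨V, -, hV, h3⟩ := above e ((hσ U).1 h2) le_rfl
    exact ⟨Set.subset_univ _, Set.nonempty_iff_ne_empty.2 h1, (cos g).injective h3 ▸ hV⟩
  · intro U hU V hV hUV
    exact (e.2.2.1 ((hσ U).1 (Finset.mem_erase.1 hU).2) ((hσ V).1 (Finset.mem_erase.1 hV).2)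
      ((cos g).injective.ne hUV)).imp (cos g).le_iff_le.1 (cos g).le_iff_le.1
  · rw [Finset.card_erase_of_mem h0, ← Finset.card_map (cos g).toEmbedding, hmap, e.2.2.2]
    rfl
  · rw [cell_val]
    refine hmap.symm.trans ?_
    congr 1
    convert (Finset.insert_erase h0).symm

lemma fix_bot {p : ℕ} (e : Flag (Deligne M Set.univ) p) {c : Set (Artin M)} (hc : c ∈ e.1)
    (hbot : ∀ u ∈ e.1, c ≤ u) {γ : Artin M} (h : γ • e = e) : γ • c = c := by
  have h1 : e.1.map (MulAction.toPerm γ).toEmbedding = e.1 := congrArg Subtype.val h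
  refine le_antisymm ?_ (hbot _ (h1.subset (Finset.mem_map.2 ⟨c, hc, rfl⟩)))
  obtain ⟨u, hu, h2⟩ := Finset.mem_map.1 (h1.superset hc)
  have h3 : γ • u = c := h2
  conv_rhs => rw [← h3]
  exact Set.smul_set_mono (hbot u hu)

variable {H : Type} [Group H]

lemma dichotomy {j : H →* Artin M} (hj : Function.Injective j) (hcp : CentPow M j.range)
    {p : ℕ} (e : Flag (Deligne M Set.univ) (p + 1)) :
    ((∀ g : H, j g • e = e → g = 1) ∧ ∃ g y, e = cell g y) ∨
      ∃ z : H, j z • e = e ∧ ¬ IsOfFinOrder z ∧ ∀ g : H, j g • e = e → Commute g z := by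
  obtain ⟨c, hc, hbot⟩ := e.2.exists_bot
  obtain ⟨U, -, hU, g, -, hcU⟩ := e.2.1 hc
  rw [← cos_apply] at hcU
  subst hcU
  have hfix : ∀ γ : Artin M, γ • e = e → g⁻¹ * (γ * g) ∈ parab M U := fun γ hγ => by
    have h1 := fix_bot e hc hbot hγ
    rw [smul_cos] at h1
    exact (cos_eq_iff.1 h1).2
  rcases U.eq_empty_or_nonempty with rfl | hne
  · refine Or.inl ⟨fun γ hγ => ?_, g, exists_cell e hc⟩
    have h1 := hfix _ hγ
    rw [parab_empty, Subgroup.mem_bot, inv_mul_eq_one, eq_comm, mul_eq_right] at h1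
    exact (map_eq_one_iff j hj).1 h1
  · obtain ⟨z₀, hz₀, hord, hcen⟩ := exists_central hU hne
    obtain ⟨n, hn, z, hz⟩ := hcp U hU z₀ hz₀ hcen g
    refine Or.inr ⟨z, Subtype.ext ?_, fun h => hord ?_, fun γ hγ => ?_⟩
    · have h1 : ∀ u ∈ e.1, j z • u = u := by
        intro u hu
        obtain ⟨V, hUV, -, rfl⟩ := above e hu (hbot u hu)
        rw [smul_cos, cos_eq_iff, hz]
        refine ⟨rfl, ?_⟩
        rw [show g⁻¹ * (g * z₀ ^ n * g⁻¹ * g) = z₀ ^ n by group]
        exact pow_mem (parab_mono hUV hz₀) n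
      rw [Flag.smul_val]
      ext u
      rw [Finset.mem_map]
      constructor
      · rintro ⟨v, hv, rfl⟩
        change j z • v ∈ e.1
        rwa [h1 v hv]
      · intro hu
        exact ⟨u, hu, h1 u hu⟩
    · have h1 := j.isOfFinOrder h
      rw [hz] at h1
      have h2 := (MulAut.conj g⁻¹).toMonoidHom.isOfFinOrder h1
      rw [show (MulAut.conj g⁻¹).toMonoidHom (g * z₀ ^ n * g⁻¹) = z₀ ^ n by simp [mul_assoc]] at h2
      exact h2.of_pow hn.ne'
    · have h1 := ((hcen _ (hfix _ hγ)).pow_right n).eq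
      apply hj
      rw [map_mul, map_mul, hz]
      calc j γ * (g * z₀ ^ n * g⁻¹) = g * (g⁻¹ * (j γ * g) * z₀ ^ n) * g⁻¹ := by group
        _ = g * z₀ ^ n * g⁻¹ * j γ := by rw [h1]; group

/-- The chain map attached to `cell g`. -/
noncomputable def Phi (g : Artin M) (p : ℕ) :
    (Flag (Sph M Set.univ) p →₀ ℤ) →ₗ[ℤ] (Flag (Deligne M Set.univ) (p + 1) →₀ ℤ) :=
  Finsupp.lmapDomain ℤ ℤ (cell g)

lemma Phi_single (g : Artin M) {p : ℕ} (y : Flag (Sph M Set.univ) p) (a : ℤ) :
    Phi g p (Finsupp.single y a) = Finsupp.single (cell g y) a := by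
  simp [Phi]

lemma fbd_cell (g : Artin M) {p : ℕ} (y : Flag (Sph M Set.univ) (p + 1)) :
    fbd (Deligne M Set.univ) (p + 1) (Finsupp.single (cell g y) 1) =
      Finsupp.single (lid g y) 1 - Phi g p (fbd (Sph M Set.univ) p (Finsupp.single y 1)) := by
  classical
  have h1 : ∀ c, fval (Deligne M Set.univ) (p + 1) (Phi g p c) =
      ((fval (Sph M Set.univ) p c).mapDomain (insert ∅)).mapDomain
        (Finset.map (cos g).toEmbedding) := by
    intro c
    simp only [fval, Phi, Finsupp.lmapDomain_apply, ← Finsupp.mapDomain_comp]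
    congr 1
  have h2 : ∀ {P : Set (Set (Artin M))} {q : ℕ} (σ : Flag P q),
      fval P q (Finsupp.single σ 1) = Finsupp.single σ.1 1 := fun σ => by simp [fval]
  have h3 : fval (Sph M Set.univ) (p + 1) (Finsupp.single y 1) = Finsupp.single y.1 1 := by
    simp [fval]
  apply fval_injective
  rw [fval_fbd, map_sub, h1, fval_fbd, h2, h2, h3, cell_val, ← Finsupp.mapDomain_single,
    obd_mapDomain]
  have h4 := obd_insert ∅ y.1 fun v hv =>
    Set.empty_ssubset.2 (y.2.1 hv).2.1
  have h5 := congrArg (Finsupp.mapDomain (Finset.map (cos g).toEmbedding)) h4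
  rw [Finsupp.mapDomain_sub, Finsupp.mapDomain_single] at h5
  exact h5

end Cells

section Chains

variable {S : Type} {M : CoxeterMatrix S} {H : Type} [Group H] (j : H →* Artin M)
  {N : Type} [Ring N] (ι : H →* N)

/-- The representation on the chains of the Deligne complex. -/
noncomputable abbrev rD (p : ℕ) : Representation ℤ H (Flag (Deligne M Set.univ) p →₀ ℤ) :=
  (permRep (Artin M) (Flag (Deligne M Set.univ) p)).comp j

/-- The representation on the group ring. -/
noncomputable abbrev rG : Representation ℤ H (Artin M →₀ ℤ) :=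
  (permRep (Artin M) (Artin M)).comp j

/-- The class of `1 ⊗ g`. -/
noncomputable def kap (g : Artin M) : Tens ι (rG j) := Tens.of ι (rG j) (Finsupp.single g 1)

lemma kap_mul (h : H) (g : Artin M) : kap j ι (j h * g) = ι h • kap j ι g := by
  rw [kap, kap, ← Tens.of_rep, MonoidHom.comp_apply, permRep_single, smul_eq_mul]

/-- The chains of the quotient of the free part. -/
abbrev FF (p : ℕ) : Type := Tens ι (rG j) ⊗[ℤ] (Flag (Sph M Set.univ) p →₀ ℤ)

open Classical in
/-- The projection on cells. -/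
noncomputable def pr0 {p : ℕ} (e : Flag (Deligne M Set.univ) (p + 1)) : FF j ι p :=
  if h : ∃ q : Artin M × Flag (Sph M Set.univ) p, e = cell q.1 q.2 then
    kap j ι h.choose.1 ⊗ₜ Finsupp.single h.choose.2 1 else 0

lemma pr0_cell {p : ℕ} (g : Artin M) (y : Flag (Sph M Set.univ) p) :
    pr0 j ι (cell g y) = kap j ι g ⊗ₜ Finsupp.single y 1 := by
  have h : ∃ q : Artin M × Flag (Sph M Set.univ) p, cell g y = cell q.1 q.2 := ⟨(g, y), rfl⟩
  obtain ⟨h1, h2⟩ := cell_inj h.choose_spec
  rw [pr0, dif_pos h, ← h1, ← h2]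

lemma pr0_not {p : ℕ} {e : Flag (Deligne M Set.univ) (p + 1)} (h : ¬ ∃ g y, e = cell g y) :
    pr0 j ι e = 0 :=
  dif_neg fun ⟨q, hq⟩ => h ⟨q.1, q.2, hq⟩

lemma pr0_smul {p : ℕ} (h : H) (e : Flag (Deligne M Set.univ) (p + 1)) :
    pr0 j ι (j h • e) = ι h • pr0 j ι e := by
  by_cases he : ∃ g y, e = cell g y
  · obtain ⟨g, y, rfl⟩ := he
    rw [smul_cell, pr0_cell, pr0_cell, kap_mul, TensorProduct.smul_tmul']
  · rw [pr0_not j ι he, pr0_not, smul_zero]
    rintro ⟨g, y, h1⟩
    exact he ⟨(j h)⁻¹ * g, y, by rw [← smul_cell, ← h1, inv_smul_smul]⟩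

/-- The projection on chains. -/
noncomputable def pr1 (p : ℕ) : (Flag (Deligne M Set.univ) (p + 1) →₀ ℤ) →ₗ[ℤ] FF j ι p :=
  Finsupp.linearCombination ℤ (pr0 j ι)

lemma pr1_single {p : ℕ} (e : Flag (Deligne M Set.univ) (p + 1)) (a : ℤ) :
    pr1 j ι p (Finsupp.single e a) = a • pr0 j ι e := Finsupp.linearCombination_single _ _ _

lemma pr1_Phi {p : ℕ} (g : Artin M) (c : Flag (Sph M Set.univ) p →₀ ℤ) :
    pr1 j ι p (Phi g p c) = kap j ι g ⊗ₜ c := by
  induction c using Finsupp.induction_linear with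
  | zero => simp
  | add a b ha hb => rw [map_add, map_add, ha, hb, TensorProduct.tmul_add]
  | single y a =>
    rw [Phi_single, pr1_single, pr0_cell, ← TensorProduct.tmul_smul, Finsupp.smul_single,
      smul_eq_mul, mul_one]

/-- The projection onto the free part. -/
noncomputable def pr (p : ℕ) : Tens ι (rD j (p + 1)) →ₗ[N] FF j ι p :=
  Tens.lift ι (pr1 j ι p) fun h c => by
    induction c using Finsupp.induction_linear with
    | zero => simp
    | add a b ha hb => rw [map_add, map_add, ha, hb, map_add, smul_add]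
    | single e a =>
      rw [MonoidHom.comp_apply, permRep_single, pr1_single, pr1_single, pr0_smul, smul_comm]

lemma pr_of {p : ℕ} (c : Flag (Deligne M Set.univ) (p + 1) →₀ ℤ) :
    pr j ι p (Tens.of ι _ c) = pr1 j ι p c := Tens.lift_of _ _ _ _

lemma rD_Phi {p : ℕ} (h : H) (g : Artin M) (c : Flag (Sph M Set.univ) p →₀ ℤ) :
    rD j (p + 1) h (Phi g p c) = Phi (j h * g) p c := by
  induction c using Finsupp.induction_linear with
  | zero => simp
  | add a b ha hb => rw [map_add, map_add, ha, hb, map_add]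
  | single y a => rw [Phi_single, Phi_single, MonoidHom.comp_apply, permRep_single, smul_cell]

/-- The section of the projection, curried. -/
noncomputable def sec0 (p : ℕ) :
    Tens ι (rG j) →ₗ[N] (Flag (Sph M Set.univ) p →₀ ℤ) →ₗ[ℤ] Tens ι (rD j (p + 1)) :=
  Tens.lift ι (Finsupp.linearCombination ℤ fun g => Tens.of ι (rD j (p + 1)) ∘ₗ Phi g p)
    fun h c => by
    induction c using Finsupp.induction_linear with
    | zero => simp
    | add a b ha hb => rw [map_add, map_add, ha, hb, map_add, smul_add]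
    | single g a =>
      rw [MonoidHom.comp_apply, permRep_single, Finsupp.linearCombination_single,
        Finsupp.linearCombination_single, smul_comm]
      congr 1
      refine LinearMap.ext fun c => ?_
      rw [LinearMap.smul_apply, LinearMap.comp_apply, LinearMap.comp_apply, ← Tens.of_rep,
        rD_Phi, smul_eq_mul]

lemma sec0_kap {p : ℕ} (g : Artin M) (c : Flag (Sph M Set.univ) p →₀ ℤ) :
    sec0 j ι p (kap j ι g) c = Tens.of ι _ (Phi g p c) := by
  rw [sec0, kap, Tens.lift_of, Finsupp.linearCombination_single, one_smul]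
  rfl

/-- The section of the projection. -/
noncomputable def sec (p : ℕ) : FF j ι p →ₗ[N] Tens ι (rD j (p + 1)) :=
  TensorProduct.AlgebraTensorModule.lift (sec0 j ι p)

lemma sec_tmul {p : ℕ} (a : Tens ι (rG j)) (c : Flag (Sph M Set.univ) p →₀ ℤ) :
    sec j ι p (a ⊗ₜ c) = sec0 j ι p a c := rfl

lemma pr_sec {p : ℕ} (x : FF j ι p) : pr j ι p (sec j ι p x) = x := by
  induction x using TensorProduct.induction_on with
  | zero => simp
  | add a b ha hb => rw [map_add, map_add, ha, hb]
  | tmul a c =>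
    induction a using Tens.induction with
    | h0 => simp
    | hadd a b ha hb => rw [TensorProduct.add_tmul, map_add, map_add, ha, hb]
    | h1 n b =>
      rw [← TensorProduct.smul_tmul', map_smul, map_smul]
      congr 1
      induction b using Finsupp.induction_linear with
      | zero => simp
      | add a b ha hb => rw [map_add, TensorProduct.add_tmul, map_add, map_add, ha, hb]
      | single g a =>
        have h1 : Tens.of ι (rG j) (Finsupp.single g a) = a • kap j ι g := by
          rw [kap, ← map_zsmul, Finsupp.smul_single, smul_eq_mul, mul_one]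
        rw [h1, TensorProduct.smul_tmul, sec_tmul, sec0_kap, pr_of, pr1_Phi]

variable {j ι} in
lemma sub_sec_pr (hj : Function.Injective j) (hcp : CentPow M j.range) (hι : OreData ι) {p : ℕ}
    (x : Tens ι (rD j (p + 1))) : x - sec j ι p (pr j ι p x) ∈ tors hι _ := by
  induction x using Tens.induction with
  | h0 => simp
  | hadd a b ha hb =>
    rw [map_add, map_add, add_sub_add_comm]
    exact add_mem ha hb
  | h1 n c =>
    rw [map_smul, map_smul, ← smul_sub]
    refine Submodule.smul_mem _ _ ?_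
    induction c using Finsupp.induction_linear with
    | zero => simp
    | add a b ha hb =>
      rw [map_add, map_add, map_add, add_sub_add_comm]
      exact add_mem ha hb
    | single e a =>
      rw [pr_of, pr1_single]
      by_cases he : ∃ g y, e = cell g y
      · obtain ⟨g, y, rfl⟩ := he
        rw [pr0_cell, ← TensorProduct.tmul_smul, sec_tmul, sec0_kap, Finsupp.smul_single,
          smul_eq_mul, mul_one, Phi_single, sub_self]
        exact zero_mem _
      · obtain ⟨z, hz, hord, -⟩ := (dichotomy hj hcp e).resolve_left fun h => he h.2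
        rw [pr0_not j ι he, smul_zero, map_zero, sub_zero]
        refine mem_tors_of_fixed hι hord ?_
        rw [← Tens.of_rep, MonoidHom.comp_apply, permRep_single, hz]

lemma pr1_fbd {p : ℕ} (c : Flag (Deligne M Set.univ) (p + 2) →₀ ℤ) :
    pr1 j ι p (fbd (Deligne M Set.univ) (p + 1) c) =
      -(fbd (Sph M Set.univ) p).lTensor _ (pr1 j ι (p + 1) c) := by
  induction c using Finsupp.induction_linear with
  | zero => simp
  | add a b ha hb => rw [map_add, map_add, ha, hb, map_add, map_add, neg_add]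
  | single e a =>
    rw [← mul_one a, ← smul_eq_mul, ← Finsupp.smul_single, map_zsmul, map_zsmul, map_zsmul,
      map_zsmul, ← smul_neg]
    congr 1
    by_cases he : ∃ g y, e = cell g y
    · obtain ⟨g, y, rfl⟩ := he
      rw [fbd_cell, map_sub, pr1_Phi, pr1_single, pr1_single, pr0_cell, one_smul, one_smul,
        LinearMap.lTensor_tmul, pr0_not, zero_sub]
      rintro ⟨g', y', h⟩
      exact cos_notMem_lid g g' y (h ▸ cos_mem_cell g' y')
    · rw [pr1_single, pr0_not j ι he, smul_zero, map_zero, neg_zero, pr1,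
        Finsupp.linearCombination_apply, Finsupp.sum]
      refine Finset.sum_eq_zero fun σ hσ => ?_
      rw [pr0_not, smul_zero]
      rintro ⟨g, y, rfl⟩
      exact he ⟨g, exists_cell e (sub_of_mem_fbd e _ hσ (cos_mem_cell g y))⟩

lemma lTensor_smul {P Q : Type} [AddCommGroup P] [AddCommGroup Q] (f : P →ₗ[ℤ] Q) (n : N)
    (x : Tens ι (rG j) ⊗[ℤ] P) : f.lTensor _ (n • x) = n • f.lTensor _ x := by
  induction x using TensorProduct.induction_on with
  | zero => simp
  | add a b ha hb => rw [smul_add, map_add, ha, hb, map_add, smul_add]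
  | tmul a c =>
    rw [TensorProduct.smul_tmul', LinearMap.lTensor_tmul, LinearMap.lTensor_tmul,
      TensorProduct.smul_tmul']

/-- The boundary with coefficients in `N`. -/
noncomputable def dT (p : ℕ) : Tens ι (rD j (p + 1)) →ₗ[N] Tens ι (rD j p) :=
  Tens.map ι (ρ := rD j (p + 1)) (ρ' := rD j p) (fbd (Deligne M Set.univ) p)
    (fun g => fbd_eqv M p (j g))

lemma dT_of {p : ℕ} (c : Flag (Deligne M Set.univ) (p + 1) →₀ ℤ) :
    dT j ι p (Tens.of ι _ c) = Tens.of ι _ (fbd (Deligne M Set.univ) p c) := rfl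

lemma pr_bd {p : ℕ} (x : Tens ι (rD j (p + 1 + 1))) :
    pr j ι p (dT j ι (p + 1) x) = -(fbd (Sph M Set.univ) p).lTensor _ (pr j ι (p + 1) x) := by
  induction x using Tens.induction with
  | h0 => simp
  | hadd a b ha hb => rw [map_add, map_add, ha, hb, map_add, map_add, neg_add]
  | h1 n c =>
    rw [map_smul, map_smul, map_smul, lTensor_smul, ← smul_neg, dT_of, pr_of, pr_of, pr1_fbd]

variable {j ι} in
lemma main (hj : Function.Injective j) (hcp : CentPow M j.range) (hι : OreData ι) {k : ℕ}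
    (h : TorsExact (Sph M Set.univ) (k + 1)) (x : Tens ι (rD j (k + 1 + 1)))
    (hx : dT j ι (k + 1) x = 0) :
    ∃ s : N, IsLeftRegular s ∧ ∃ w, dT j ι (k + 1 + 1) w = s • x := by
  have h1 := pr_bd j ι x
  rw [hx, map_zero, eq_comm, neg_eq_zero] at h1
  obtain ⟨m, hm, y, hy⟩ := tors_tensor _ _ h.fbd_exact _ h1
  have h2 := pr_bd j ι (sec j ι (k + 1 + 1) y)
  rw [pr_sec, hy] at h2
  obtain ⟨s, hs, h3⟩ := sub_sec_pr hj hcp hι (dT j ι (k + 1 + 1) (sec j ι (k + 1 + 1) y) + m • x)
  rw [map_add, map_zsmul, h2, neg_add_cancel, map_zero, sub_zero, smul_add,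
    add_eq_zero_iff_neg_eq] at h3
  refine ⟨s * m, hs.mul (hι.int m hm), -(s • sec j ι (k + 1 + 1) y), ?_⟩
  rw [map_neg, map_smul, h3, mul_smul, Int.cast_smul_eq_zsmul]

end Chains

end L2Bot

variable {S : Type} {M : CoxeterMatrix S} {H : Type} [Group H]

/-- Stabilisers of simplices of the Deligne complex in a subgroup of finite index. -/
theorem cell_dichotomy {j : H →* Artin M} (hj : Function.Injective j) (hcp : CentPow M j.range)
    {p : ℕ} (e : Flag (Deligne M Set.univ) (p + 1)) :
    (∀ g : H, j g • e = e → g = 1) ∨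
      ∃ z : H, j z • e = e ∧ ¬ IsOfFinOrder z ∧ ∀ g : H, j g • e = e → Commute g z :=
  (L2Bot.dichotomy hj hcp e).imp_left And.left

/-- The chains of the Deligne complex with coefficients in `N` are exact modulo torsion. -/
theorem torsAt_deligne {j : H →* Artin M} (hj : Function.Injective j) (hcp : CentPow M j.range)
    {N : Type} [Ring N] {ι : H →* N} (hι : OreData ι) {k : ℕ}
    (h : TorsExact (Sph M Set.univ) (k + 1)) :
    TorsAt ι (fun p => (permRep (Artin M) (Flag (Deligne M Set.univ) p)).comp j)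
      (fbd (Deligne M Set.univ)) (fun p g => fbd_eqv M p (j g)) (k + 1) :=
  L2Bot.main hj hcp hι h

end Pool.Agent.MP_4f4d9f_gt

end
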