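import Pool.Agent.Mg.F4f4d9fr.G595975
import Pool.Agent.Mg.F4f4d9fr.G4ef018
import Pool.Agent.MP_4f4d9f_gt.Transfer
import Pool.Agent.Mg.F4f4d9fr.G0e173c
import Pool.Agent.Mg.F4f4d9fr.G40ab84
import Pool.Agent.Mg.F4f4d9fr.G969e50
import Pool.Agent.Mg.F4f4d9fr.G6b01a6

set_option linter.all false

section

/-! General lemmas for the double complex argument. -/

namespace Pool.Agent.MP_4f4d9f_gt.Dbl

open Finsupp

section Htpy

variable {H : Type} [Group H] {C : ℕ → Type} [∀ k, AddCommGroup (C k)]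
  {ρ : ∀ k, Representation ℤ H (C k)} {d : ∀ k, C (k + 1) →ₗ[ℤ] C k}

/-- A chain map of an exact complex of projectives whose degree zero part lands in the
boundaries is null-homotopic. -/
theorem exists_htpy (hd : ∀ k, Eqv (ρ (k + 1)) (ρ k) (d k))
    (dd : ∀ k c, d k (d (k + 1) c) = 0) (ex : ∀ k c, d k c = 0 → ∃ b, d (k + 1) b = c)
    (proj : ∀ k, Proj (ρ k)) (u : ∀ k, C k →ₗ[ℤ] C k)
    (hu : ∀ k, Eqv (ρ k) (ρ k) (u k)) (hu0 : ∀ c, ∃ b, d 0 b = u 0 c)
    (hud : ∀ k c, d k (u (k + 1) c) = u k (d k c)) :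
    ∃ h : ∀ k, C k →ₗ[ℤ] C (k + 1), (∀ k, Eqv (ρ k) (ρ (k + 1)) (h k)) ∧
      (∀ c, d 0 (h 0 c) = u 0 c) ∧
      ∀ k c, d (k + 1) (h (k + 1) c) + h k (d k c) = u (k + 1) c := by
  obtain ⟨h0, hh0, hh0'⟩ := proj 0 (C 1) (C 0) (ρ 1) (ρ 0) (d 0) (u 0) (hd 0) (hu 0) hu0
  let T (k : ℕ) : Type := {h : C k →ₗ[ℤ] C (k + 1) // Eqv (ρ k) (ρ (k + 1)) h ∧
    ∀ c, d k (h (d k c)) = u k (d k c)}
  have step : ∀ k (h : T k), ∃ h' : T (k + 1),
      ∀ c, d (k + 1) (h'.1 c) + h.1 (d k c) = u (k + 1) c := by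
    intro k h
    obtain ⟨ψ, h1, h2⟩ := proj (k + 1) (C (k + 2)) (C (k + 1)) (ρ (k + 2)) (ρ (k + 1))
      (d (k + 1)) (u (k + 1) - h.1 ∘ₗ d k) (hd _) ((hu _).sub (h.2.1.comp (hd k)))
      fun c => ex k _ (by simp [hud, h.2.2])
    refine ⟨⟨ψ, h1, fun c => ?_⟩, fun c => ?_⟩
    · simp [h2, dd]
    · simp [h2]
  choose next hnext using step
  let t0 : T 0 := ⟨h0, hh0, fun c => hh0' _⟩
  let t : ∀ k, T k := fun k => Nat.rec t0 next k
  exact ⟨fun k => (t k).1, fun k => (t k).2.1, hh0', fun k => hnext k (t k)⟩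

end Htpy

section Stair

variable {N : Type} [Ring N] {A : ℕ → ℕ → Type} [∀ p q, AddCommGroup (A p q)]
  [∀ p q, Module N (A p q)]

/-- The staircase argument in a double complex with exact rows and torsion columns. -/
theorem stair (δ : ∀ p q, A (p + 1) q →ₗ[N] A p q) (d : ∀ p q, A p (q + 1) →ₗ[N] A p q)
    (comm : ∀ p q x, δ p q (d (p + 1) q x) = d p q (δ p (q + 1) x))
    (δδ : ∀ p q x, δ p q (δ (p + 1) q x) = 0) (dd : ∀ p q x, d p q (d p (q + 1) x) = 0)
    (surj : ∀ q x, ∃ y, δ 0 q y = x) (row : ∀ p q x, δ p q x = 0 → ∃ y, δ (p + 1) q y = x)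
    (col : ∀ p q x, d (p + 1) q x = 0 →
      ∃ s : N, IsLeftRegular s ∧ ∃ w, d (p + 1) (q + 1) w = s • x)
    {k : ℕ} (bot : ∀ y t, d (k + 1) 0 t = δ (k + 1) 0 y →
      ∃ s : N, IsLeftRegular s ∧ ∃ v w, s • y = δ (k + 2) 0 v + d (k + 2) 0 w)
    (x : A 0 (k + 1)) (hx : d 0 k x = 0) :
    ∃ s : N, IsLeftRegular s ∧ ∃ w, d 0 (k + 1) w = s • x := by
  let Q (p q : ℕ) : Prop := ∀ y t, d p q t = δ p q y →
    ∃ s : N, IsLeftRegular s ∧ ∃ v w, s • y = δ (p + 1) q v + d (p + 1) q w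
  have step : ∀ p q, Q (p + 1) q → ∀ y, d p q (δ p (q + 1) y) = 0 →
      ∃ s : N, IsLeftRegular s ∧ ∃ v w, s • y = δ (p + 1) (q + 1) v + d (p + 1) (q + 1) w := by
    intro p q hQ y hy
    obtain ⟨y', hy'⟩ := row p q (d (p + 1) q y) (by rw [comm, hy])
    obtain ⟨s, hs, v, w, e⟩ := hQ y' y hy'.symm
    obtain ⟨s', hs', w', e'⟩ := col p q (s • y - δ (p + 1) (q + 1) w) (by
      rw [map_sub, map_smul, ← hy', ← map_smul, e, map_add, δδ, zero_add, comm, sub_self])
    refine ⟨s' * s, hs'.mul hs, s' • w, w', ?_⟩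
    rw [e', map_smul, ← smul_add, add_sub_cancel, mul_smul]
  have all : ∀ i j, i + j = k → Q (j + 1) i := by
    intro i
    induction i with
    | zero =>
      intro j hj
      rw [zero_add] at hj
      subst hj
      exact bot
    | succ i ih =>
      intro j hj y t ht
      exact step (j + 1) i (ih (j + 1) (by omega)) y (by rw [← ht, dd])
  obtain ⟨y, rfl⟩ := surj _ x
  obtain ⟨s, hs, v, w, e⟩ := step 0 k (all k 0 rfl) y hx
  exact ⟨s, hs, δ 0 _ w, by rw [← map_smul, e, map_add, δδ, comm]; exact (zero_add _).symm⟩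

end Stair

section Tens

variable {G N : Type} [Group G] [Ring N] {ι : G →* N}

/-- Right exactness. -/
theorem tens_exact {C D E : Type} [AddCommGroup C] [AddCommGroup D] [AddCommGroup E]
    {ρC : Representation ℤ G C} {ρD : Representation ℤ G D} {ρE : Representation ℤ G E}
    {f : C →ₗ[ℤ] D} {g : D →ₗ[ℤ] E} (hf : Eqv ρC ρD f) (hg : Eqv ρD ρE g)
    (σ : E →ₗ[ℤ] D) (hσ : ∀ c, g (σ c) = c) (ex : ∀ c, g c = 0 → ∃ b, f b = c)
    (z : Tens ι ρD) (hz : Tens.map ι g hg z = 0) : ∃ w, Tens.map ι f hf w = z := by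
  let W := LinearMap.range (Tens.map ι f hf)
  have key : ∀ c c' : D, g c = g c' → W.mkQ (Tens.of ι ρD c) = W.mkQ (Tens.of ι ρD c') := by
    intro c c' h
    obtain ⟨b, hb⟩ := ex (c - c') (by rw [map_sub, h, sub_self])
    rw [← sub_eq_zero, ← map_sub, ← map_sub, ← hb, Submodule.mkQ_apply,
      Submodule.Quotient.mk_eq_zero]
    exact ⟨Tens.of ι ρC b, rfl⟩
  let φ : E →ₗ[ℤ] (Tens ι ρD ⧸ W) := (W.mkQ.restrictScalars ℤ) ∘ₗ Tens.of ι ρD ∘ₗ σ
  have hφ : ∀ h c, φ (ρE h c) = ι h • φ c := by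
    intro h c
    change W.mkQ (Tens.of ι ρD (σ (ρE h c))) = ι h • W.mkQ (Tens.of ι ρD (σ c))
    rw [← map_smul, ← Tens.of_rep]
    exact key _ _ (by rw [hσ, hg, hσ])
  have e : Tens.lift ι φ hφ ∘ₗ Tens.map ι g hg = W.mkQ := Tens.hom_ext ι fun c => by
    rw [LinearMap.comp_apply, Tens.map_of, Tens.lift_of]
    exact key _ _ (hσ _)
  have := LinearMap.congr_fun e z
  rw [LinearMap.comp_apply, hz, map_zero, eq_comm, Submodule.mkQ_apply,
    Submodule.Quotient.mk_eq_zero] at this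
  exact this

theorem tens_surj {D E : Type} [AddCommGroup D] [AddCommGroup E]
    {ρD : Representation ℤ G D} {ρE : Representation ℤ G E} {g : D →ₗ[ℤ] E}
    (hg : Eqv ρD ρE g) (hs : ∀ c, ∃ b, g b = c) (z : Tens ι ρE) :
    ∃ w, Tens.map ι g hg w = z := by
  induction z using Tens.induction with
  | h0 => exact ⟨0, map_zero _⟩
  | hadd x y hx hy =>
    obtain ⟨a, rfl⟩ := hx
    obtain ⟨b, rfl⟩ := hy
    exact ⟨a + b, map_add _ _ _⟩
  | h1 a c =>
    obtain ⟨b, rfl⟩ := hs c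
    exact ⟨a • Tens.of ι ρD b, by rw [map_smul, Tens.map_of]⟩

variable {F : Type} [MulAction G F]

/-- Orbit representatives: `γ f` moves the chosen representative of the orbit of `f` to `f`. -/
theorem exists_rep (G F : Type) [Group G] [MulAction G F] :
    ∃ (r : F → F) (γ : F → G), (∀ f, γ f • r f = f) ∧ (∀ (g : G) f, r (g • f) = r f) ∧
      ∀ f, r (r f) = r f := by
  let r : F → F := fun f => (Quotient.mk (MulAction.orbitRel G F) f).out
  have h : ∀ f, ∃ g : G, g • r f = f := fun f =>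
    (MulAction.orbitRel G F).symm (Quotient.mk_out (s := MulAction.orbitRel G F) f)
  choose γ hγ using h
  refine ⟨r, γ, hγ, fun g f => ?_, fun f => ?_⟩
  · exact congrArg Quotient.out (Quotient.sound ⟨g, rfl⟩)
  · exact congrArg Quotient.out (Quotient.out_eq _)

theorem tens_induction {P : Tens ι (permRep G F) → Prop} (h0 : P 0)
    (hadd : ∀ x y, P x → P y → P (x + y))
    (h1 : ∀ (a : N) (f : F), P (a • Tens.of ι (permRep G F) (single f 1))) (x) : P x := by
  induction x using Tens.induction with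
  | h0 => exact h0
  | hadd x y hx hy => exact hadd x y hx hy
  | h1 a c =>
    induction c using Finsupp.induction_linear with
    | zero => simpa using h0
    | add c c' hc hc' => rw [map_add, smul_add]; exact hadd _ _ hc hc'
    | single f m =>
      have : single f m = m • single f (1 : ℤ) := by simp
      rw [this, map_zsmul, smul_comm, ← smul_assoc]
      exact h1 _ f

/-- A diagonal operator with right regular entries on a free permutation module is injective. -/
theorem diag_injective (hfree : ∀ (g : G) (f : F), g • f = f → g = 1)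
    {R : Tens ι (permRep G F) →ₗ[N] Tens ι (permRep G F)} (a : F → N)
    (ha : ∀ f, IsRightRegular (a f))
    (hR : ∀ f, R (Tens.of ι _ (single f 1)) = a f • Tens.of ι _ (single f 1))
    (x : Tens ι (permRep G F)) (hx : R x = 0) : x = 0 := by
  obtain ⟨r, γ, h1, h2, h3⟩ := exists_rep G F
  have hγ : ∀ (g : G) f, γ (g • f) = g * γ f := by
    intro g f
    have e := h1 (g • f)
    rw [h2] at e
    have := hfree ((g * γ f)⁻¹ * γ (g • f)) (r f) (by
      rw [mul_smul, e, inv_smul_eq_iff, mul_smul, h1])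
    exact (inv_mul_eq_one.1 this).symm
  let c : Tens ι (permRep G F) →ₗ[N] (F →₀ N) :=
    Tens.lift ι (linearCombination ℤ fun f => single (r f) (ι (γ f))) (fun g y => by
      induction y using Finsupp.induction_linear with
      | zero => simp
      | add y y' hy hy' => simp only [map_add, hy, hy', smul_add]
      | single f m =>
        rw [permRep_single, linearCombination_single, linearCombination_single, h2, hγ, map_mul,
          smul_comm, smul_single (ι g), smul_eq_mul])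
  have hc : ∀ f, c (Tens.of ι _ (single f 1)) = single (r f) (ι (γ f)) := fun f => by
    simp [c, Tens.lift_of]
  have hof : ∀ f, Tens.of ι (permRep G F) (single f 1) =
      ι (γ f) • Tens.of ι _ (single (r f) 1) := fun f => by
    rw [← Tens.of_rep, permRep_single, h1]
  let sec : (F →₀ N) →ₗ[N] Tens ι (permRep G F) :=
    linearCombination N fun f => Tens.of ι _ (single f 1)
  have hsec : ∀ x, sec (c x) = x := by
    intro x
    induction x using tens_induction with
    | h0 => simp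
    | hadd x y hx hy => simp only [map_add, hx, hy]
    | h1 n f => rw [map_smul, map_smul, hc, linearCombination_single, ← hof]
  have hcR : ∀ x f, c (R x) f = c x f * a f := by
    intro x f
    induction x using tens_induction with
    | h0 => simp
    | hadd x y hx hy => simp only [map_add, Finsupp.add_apply, hx, hy, add_mul]
    | h1 n f' =>
      have e : γ (r f') = 1 := hfree _ (r f') (by simpa only [h3] using h1 (r f'))
      rw [hof]
      simp only [map_smul, hR, hc, h3, e, map_one, Finsupp.smul_apply, smul_eq_mul]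
      by_cases h : r f' = f
      · simp [h, mul_assoc]
      · simp [single_eq_of_ne' h]
  rw [← hsec x]
  have : c x = 0 := by
    ext f
    refine ha f ?_
    change c x f * a f = 0 * a f
    rw [← hcR, hx, map_zero, zero_mul]
    rfl
  rw [this, map_zero]

/-- Such an operator is onto modulo torsion. -/
theorem diag_onto (hι : OreData ι)
    {R : Tens ι (permRep G F) →ₗ[N] Tens ι (permRep G F)} (a : F → N)
    (ha : ∀ f, IsRightRegular (a f))
    (hR : ∀ f, R (Tens.of ι _ (single f 1)) = a f • Tens.of ι _ (single f 1))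
    (x : Tens ι (permRep G F)) : ∃ s : N, IsLeftRegular s ∧ ∃ w, R w = s • x := by
  suffices h : ∀ n : N, ∃ s : N, IsLeftRegular s ∧ ∃ w, R w = s • n • x by simpa using h 1
  induction x using tens_induction with
  | h0 => exact fun _ => ⟨1, isRegular_one.left, 0, by simp⟩
  | hadd x y hx hy =>
    intro n
    obtain ⟨s, hs, w, hw⟩ := hx n
    obtain ⟨t, ht, w', hw'⟩ := hy (s * n)
    refine ⟨t * s, ht.mul hs, t • w + w', ?_⟩
    rw [map_add, map_smul, hw, hw']
    simp only [smul_add, mul_smul]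
  | h1 m f =>
    intro n
    obtain ⟨s, b, hs, e⟩ := hι.ore (a f) (n * m) (ha f)
    refine ⟨s, hs, b • Tens.of ι _ (single f 1), ?_⟩
    rw [map_smul, hR, smul_smul, ← e, smul_smul, smul_smul, mul_assoc]

end Tens

end Pool.Agent.MP_4f4d9f_gt.Dbl

end

section

/-! The double complex `N ⊗_G (P ⊗ D)` modulo torsion. -/

open scoped TensorProduct

namespace Pool.Agent.MP_4f4d9f_gt

namespace Dbl

open Finsupp

section Prod

variable {B B' B'' E E' E'' : Type}

/-- The external product of two chains. -/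
noncomputable def tm (x : B →₀ ℤ) : (E →₀ ℤ) →ₗ[ℤ] (B × E →₀ ℤ) :=
  (finsuppTensorFinsupp' ℤ B E).toLinearMap ∘ₗ TensorProduct.mk ℤ _ _ x

theorem tm_apply (x : B →₀ ℤ) (y : E →₀ ℤ) :
    tm x y = finsuppTensorFinsupp' ℤ B E (x ⊗ₜ y) := rfl

theorem tm_single (b : B) (e : E) (m n : ℤ) :
    tm (single b m) (single e n) = single (b, e) (m * n) :=
  finsuppTensorFinsupp'_single_tmul_single _ _ _ _ _ _ _

theorem tm_add (x x' : B →₀ ℤ) (y : E →₀ ℤ) : tm (x + x') y = tm x y + tm x' y := by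
  simp only [tm_apply, TensorProduct.add_tmul, map_add]

theorem tm_sub (x x' : B →₀ ℤ) (y : E →₀ ℤ) : tm (x - x') y = tm x y - tm x' y := by
  simp only [tm_apply, TensorProduct.sub_tmul, map_sub]

theorem tm_smul (m : ℤ) (x : B →₀ ℤ) (y : E →₀ ℤ) : tm (m • x) y = m • tm x y := by
  simp only [tm_apply, ← TensorProduct.smul_tmul', map_smul]

theorem tm_zero (y : E →₀ ℤ) : tm (0 : B →₀ ℤ) y = 0 := by
  simp only [tm_apply, TensorProduct.zero_tmul, map_zero]

theorem tm_ext {Q : Type} [AddCommGroup Q] {f g : (B × E →₀ ℤ) →ₗ[ℤ] Q}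
    (h : ∀ x e, f (tm x (single e 1)) = g (tm x (single e 1))) (c : B × E →₀ ℤ) : f c = g c := by
  induction c using Finsupp.induction_linear with
  | zero => simp
  | add a b ha hb => simp only [map_add, ha, hb]
  | single x m => simpa only [tm_single, mul_one] using h (single x.1 m) x.2

/-- The tensor product of two maps. -/
noncomputable def pm (f : (B →₀ ℤ) →ₗ[ℤ] (B' →₀ ℤ)) (g : (E →₀ ℤ) →ₗ[ℤ] (E' →₀ ℤ)) :
    (B × E →₀ ℤ) →ₗ[ℤ] (B' × E' →₀ ℤ) :=
  (finsuppTensorFinsupp' ℤ B' E').toLinearMap ∘ₗ TensorProduct.map f g ∘ₗ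
    (finsuppTensorFinsupp' ℤ B E).symm.toLinearMap

theorem pm_tm (f : (B →₀ ℤ) →ₗ[ℤ] (B' →₀ ℤ)) (g : (E →₀ ℤ) →ₗ[ℤ] (E' →₀ ℤ)) (x y) :
    pm f g (tm x y) = tm (f x) (g y) := by
  simp [pm, tm_apply]

/-- Contraction of the first factor. -/
noncomputable def cl (ε : (B →₀ ℤ) →ₗ[ℤ] ℤ) : (B × E →₀ ℤ) →ₗ[ℤ] (E →₀ ℤ) :=
  (TensorProduct.lid ℤ _).toLinearMap ∘ₗ ε.rTensor _ ∘ₗ
    (finsuppTensorFinsupp' ℤ B E).symm.toLinearMap

theorem cl_tm (ε : (B →₀ ℤ) →ₗ[ℤ] ℤ) (x) (y : E →₀ ℤ) : cl ε (tm x y) = ε x • y := by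
  simp [cl, tm_apply]

/-- A family of maps of the first factor indexed by the second factor. -/
noncomputable def fm (u : E → (B →₀ ℤ) →ₗ[ℤ] (B' →₀ ℤ)) : (B × E →₀ ℤ) →ₗ[ℤ] (B' × E →₀ ℤ) :=
  linearCombination ℤ fun x => tm (u x.2 (single x.1 1)) (single x.2 1)

theorem fm_tm (u : E → (B →₀ ℤ) →ₗ[ℤ] (B' →₀ ℤ)) (x) (e : E) :
    fm u (tm x (single e 1)) = tm (u e x) (single e 1) := by
  induction x using Finsupp.induction_linear with
  | zero => simp [tm_zero]
  | add a b ha hb => simp only [tm_add, map_add, ha, hb]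
  | single b m =>
    rw [tm_single, fm, linearCombination_single, mul_one, ← tm_smul, ← map_smul]
    simp

theorem pm_exact_right {f : (E →₀ ℤ) →ₗ[ℤ] (E' →₀ ℤ)} {g : (E' →₀ ℤ) →ₗ[ℤ] (E'' →₀ ℤ)}
    (h : Function.Exact f g) (c : B × E' →₀ ℤ) (hc : pm .id g c = 0) :
    ∃ b, pm .id f b = c := by
  obtain ⟨y, hy⟩ := (Module.Flat.lTensor_exact (B →₀ ℤ) h
    ((finsuppTensorFinsupp' ℤ B E').symm c)).1
    ((finsuppTensorFinsupp' ℤ B E'').injective (hc.trans (map_zero _).symm))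
  refine ⟨finsuppTensorFinsupp' ℤ B E y, ?_⟩
  rw [LinearEquiv.eq_symm_apply] at hy
  simp only [pm, LinearMap.comp_apply, LinearEquiv.coe_coe, LinearEquiv.symm_apply_apply]
  exact hy

theorem pm_exact_left {f : (B →₀ ℤ) →ₗ[ℤ] (B' →₀ ℤ)} {g : (B' →₀ ℤ) →ₗ[ℤ] (B'' →₀ ℤ)}
    (h : Function.Exact f g) (c : B' × E →₀ ℤ) (hc : pm g .id c = 0) :
    ∃ b, pm f .id b = c := by
  obtain ⟨y, hy⟩ := (Module.Flat.rTensor_exact (E →₀ ℤ) h
    ((finsuppTensorFinsupp' ℤ B' E).symm c)).1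
    ((finsuppTensorFinsupp' ℤ B'' E).injective (hc.trans (map_zero _).symm))
  refine ⟨finsuppTensorFinsupp' ℤ B E y, ?_⟩
  rw [LinearEquiv.eq_symm_apply] at hy
  simp only [pm, LinearMap.comp_apply, LinearEquiv.coe_coe, LinearEquiv.symm_apply_apply]
  exact hy

theorem cl_exact {f : (B →₀ ℤ) →ₗ[ℤ] (B' →₀ ℤ)} {ε : (B' →₀ ℤ) →ₗ[ℤ] ℤ}
    (h : Function.Exact f ε) (c : B' × E →₀ ℤ) (hc : cl ε c = 0) :
    ∃ b, pm f .id b = c := by
  obtain ⟨y, hy⟩ := (Module.Flat.rTensor_exact (E →₀ ℤ) h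
    ((finsuppTensorFinsupp' ℤ B' E).symm c)).1
    ((TensorProduct.lid ℤ _).injective (hc.trans (map_zero _).symm))
  refine ⟨finsuppTensorFinsupp' ℤ B E y, ?_⟩
  rw [LinearEquiv.eq_symm_apply] at hy
  simp only [pm, LinearMap.comp_apply, LinearEquiv.coe_coe, LinearEquiv.symm_apply_apply]
  exact hy

theorem pm_surj {g : (E →₀ ℤ) →ₗ[ℤ] (E' →₀ ℤ)} (h : Function.Surjective g) (c : B × E' →₀ ℤ) :
    ∃ b, pm .id g b = c := by
  induction c using Finsupp.induction_linear with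
  | zero => exact ⟨0, map_zero _⟩
  | add a b ha hb =>
    obtain ⟨a, rfl⟩ := ha
    obtain ⟨b, rfl⟩ := hb
    exact ⟨a + b, map_add _ _ _⟩
  | single x m =>
    obtain ⟨y, hy⟩ := h (single x.2 1)
    exact ⟨tm (single x.1 m) y, by rw [pm_tm, hy, LinearMap.id_apply, tm_single, mul_one]⟩

variable {G : Type} [Group G] [MulAction G B] [MulAction G B'] [MulAction G E] [MulAction G E']

theorem rep_tm (g : G) (x : B →₀ ℤ) (y : E →₀ ℤ) :
    permRep G (B × E) g (tm x y) = tm (permRep G B g x) (permRep G E g y) := by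
  induction x using Finsupp.induction_linear with
  | zero => simp [tm_zero]
  | add a b ha hb => simp only [tm_add, map_add, ha, hb]
  | single b m =>
    induction y using Finsupp.induction_linear with
    | zero => simp
    | add a b ha hb => simp only [map_add, ha, hb]
    | single e n => simp only [tm_single, permRep_single, Prod.smul_mk]

theorem pm_eqv {f : (B →₀ ℤ) →ₗ[ℤ] (B' →₀ ℤ)} {g : (E →₀ ℤ) →ₗ[ℤ] (E' →₀ ℤ)}
    (hf : Eqv (permRep G B) (permRep G B') f) (hg : Eqv (permRep G E) (permRep G E') g) :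
    Eqv (permRep G (B × E)) (permRep G (B' × E')) (pm f g) := fun h c =>
  tm_ext (f := pm f g ∘ₗ permRep G _ h) (g := permRep G _ h ∘ₗ pm f g)
    (fun x e => by simp only [LinearMap.comp_apply, rep_tm, pm_tm, hf h, hg h]) c

theorem cl_eqv {ε : (B →₀ ℤ) →ₗ[ℤ] ℤ} (hε : ∀ g c, ε (permRep G B g c) = ε c) :
    Eqv (permRep G (B × E)) (permRep G E) (cl ε) := fun h c =>
  tm_ext (f := cl ε ∘ₗ permRep G (B × E) h) (g := permRep G E h ∘ₗ cl ε)
    (fun x e => by
      rw [LinearMap.comp_apply, LinearMap.comp_apply, rep_tm, cl_tm, cl_tm, hε, map_smul]) c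

theorem fm_eqv {u : E → (B →₀ ℤ) →ₗ[ℤ] (B' →₀ ℤ)}
    (hu : ∀ (g : G) e x, u (g • e) (permRep G B g x) = permRep G B' g (u e x)) :
    Eqv (permRep G (B × E)) (permRep G (B' × E)) (fm u) := fun h c =>
  tm_ext (f := fm u ∘ₗ permRep G _ h) (g := permRep G _ h ∘ₗ fm u)
    (fun x e => by simp only [LinearMap.comp_apply, rep_tm, permRep_single, fm_tm, hu]) c

theorem proj_prod (hfree : ∀ (g : G) (b : B), g • b = b → g = 1) : Proj (permRep G (B × E)) :=
  proj_free (MonoidHom.id G) Function.injective_id fun g x h => hfree g x.1 (congrArg Prod.fst h)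

end Prod

section Cells

variable {G E : Type} [Group G] [MulAction G E]

/-- Equivariant choices on the cells. -/
theorem exists_cell_data (hcell : ∀ e : E, (∀ g : G, g • e = e → g = 1) ∨
      ∃ z : G, z • e = e ∧ ¬ IsOfFinOrder z ∧ ∀ g : G, g • e = e → Commute g z) :
    ∃ (fr : E → Prop) (z : E → G), (∀ (g : G) e, fr (g • e) ↔ fr e) ∧
      (∀ (g : G) e, fr e → z (g • e) = g * z e) ∧
      (∀ (g : G) e, ¬ fr e → z (g • e) = g * z e * g⁻¹) ∧
      ∀ e, ¬ fr e → z e • e = e ∧ ¬ IsOfFinOrder (z e) := by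
  classical
  obtain ⟨r, γ, h1, h2, -⟩ := exists_rep G E
  let fr : E → Prop := fun e => ∀ g : G, g • r e = r e → g = 1
  have hz : ∀ e, ∃ z : G, ¬ fr e → z • r e = r e ∧ ¬ IsOfFinOrder z ∧
      (∀ g : G, g • r e = r e → Commute g z) := fun e => by
    rcases hcell (r e) with h | ⟨z, h⟩
    · exact ⟨1, fun h' => absurd h h'⟩
    · exact ⟨z, fun _ => h⟩
  have hz' : ∀ e, ∃ z : G, ∀ e', r e' = e → ¬ fr e' → z • r e' = r e' ∧ ¬ IsOfFinOrder z ∧
      (∀ g : G, g • r e' = r e' → Commute g z) := fun e => by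
    by_cases h : ∃ e', r e' = e
    · obtain ⟨e', rfl⟩ := h
      obtain ⟨z, hz⟩ := hz e'
      refine ⟨z, fun e'' he h => ?_⟩
      simp only [fr, he] at h ⊢
      exact hz h
    · exact ⟨1, fun e' he => absurd ⟨e', he⟩ h⟩
  choose z hz' using hz'
  have hst : ∀ (g : G) e, ((g * γ e)⁻¹ * γ (g • e)) • r e = r e := by
    intro g e
    have e1 := h1 (g • e)
    rw [h2] at e1
    rw [mul_smul, e1, inv_smul_eq_iff, mul_smul, h1]
  have hfr : ∀ (g : G) e, fr (g • e) ↔ fr e := fun g e => by simp only [fr, h2]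
  refine ⟨fr, fun e => if fr e then γ e else γ e * z (r e) * (γ e)⁻¹, hfr, fun g e h => ?_,
    fun g e h => ?_, fun e h => ?_⟩
  · simp only [if_pos h, if_pos ((hfr g e).2 h)]
    exact (inv_mul_eq_one.1 (h _ (hst g e))).symm
  · simp only [if_neg h, if_neg (mt (hfr g e).1 h), h2]
    have hc := ((hz' _ e rfl h).2.2 _ (hst g e)).eq
    calc γ (g • e) * z (r e) * (γ (g • e))⁻¹
        = g * γ e * ((g * γ e)⁻¹ * γ (g • e) * z (r e)) * (γ (g • e))⁻¹ := by group
      _ = _ := by rw [hc]; group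
  · simp only [if_neg h]
    obtain ⟨a, b, -⟩ := hz' _ e rfl h
    refine ⟨?_, fun hf => b ?_⟩
    · rw [mul_smul, mul_smul, inv_smul_eq_iff.2 (h1 e).symm, a, h1]
    · simpa [mul_assoc] using (MulAut.conj (γ e)⁻¹).toMonoidHom.isOfFinOrder hf

end Cells

section Col

variable {G N : Type} [Group G] [Ring N] {ι : G →* N}
  {B : ℕ → Type} [∀ q, MulAction G (B q)]
  {d : ∀ q, (B (q + 1) →₀ ℤ) →ₗ[ℤ] (B q →₀ ℤ)} {ε : (B 0 →₀ ℤ) →ₗ[ℤ] ℤ}

/-- The columns are exact modulo torsion. -/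
theorem col_tors (hι : OreData ι) (hP : IsRes (fun q => permRep G (B q)) d ε)
    (hfree : ∀ q (g : G) (b : B q), g • b = b → g = 1) {E : Type} [MulAction G E]
    (hcell : ∀ e : E, (∀ g : G, g • e = e → g = 1) ∨
      ∃ z : G, z • e = e ∧ ¬ IsOfFinOrder z ∧ ∀ g : G, g • e = e → Commute g z) (q : ℕ) :
    TorsAt ι (fun q => permRep G (B q × E)) (fun q => pm (d q) .id)
      (fun q => pm_eqv (hP.eqv_d q) Eqv.id) q := by
  classical
  obtain ⟨fr, z, hfr, hz1, hz2, hz3⟩ := exists_cell_data hcell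
  obtain ⟨b₀, hb₀⟩ := hP.surj
  let u : ∀ q, E → (B q →₀ ℤ) →ₗ[ℤ] (B q →₀ ℤ) := fun q e =>
    if fr e then .id else permRep G (B q) (z e) - .id
  let σ : E → (B 0 →₀ ℤ) →ₗ[ℤ] (B 0 →₀ ℤ) := fun e =>
    if fr e then ε.smulRight (permRep G (B 0) (z e) b₀) else 0
  have hu : ∀ q, Eqv (permRep G (B q × E)) (permRep G (B q × E)) (fm (u q)) := fun q =>
    fm_eqv fun g e x => by
      by_cases h : fr e
      · simp only [u, if_pos h, if_pos ((hfr g e).2 h), LinearMap.id_apply]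
      · simp only [u, if_neg h, if_neg (mt (hfr g e).1 h), hz2 g e h, LinearMap.sub_apply,
          LinearMap.id_apply, map_sub]
        rw [← Module.End.mul_apply, ← map_mul, inv_mul_cancel_right, map_mul, Module.End.mul_apply]
  have hσ : Eqv (permRep G (B 0 × E)) (permRep G (B 0 × E)) (fm σ) :=
    fm_eqv fun g e x => by
      by_cases h : fr e
      · simp only [σ, if_pos h, if_pos ((hfr g e).2 h), LinearMap.smulRight_apply, hz1 g e h,
          hP.eqv_ε, map_smul, map_mul, Module.End.mul_apply]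
      · simp only [σ, if_neg h, if_neg (mt (hfr g e).1 h), LinearMap.zero_apply, map_zero]
  have hud : ∀ q c, pm (d q) .id (fm (u (q + 1)) c) = fm (u q) (pm (d q) .id c) := fun q =>
    tm_ext (f := pm (d q) .id ∘ₗ fm (u (q + 1))) (g := fm (u q) ∘ₗ pm (d q) .id) fun x e => by
      simp only [LinearMap.comp_apply, fm_tm, pm_tm, LinearMap.id_apply]
      by_cases h : fr e
      · simp only [u, if_pos h, LinearMap.id_apply]
      · simp only [u, if_neg h, LinearMap.sub_apply, LinearMap.id_apply, map_sub, hP.eqv_d q _ _]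
  let v : ∀ q, (B q × E →₀ ℤ) →ₗ[ℤ] (B q × E →₀ ℤ) := fun q =>
    match q with
    | 0 => fm (u 0) - fm σ
    | q + 1 => fm (u (q + 1))
  obtain ⟨h, hh, -, hdh⟩ := exists_htpy (ρ := fun q => permRep G (B q × E))
    (d := fun q => pm (d q) .id) (fun q => pm_eqv (hP.eqv_d q) Eqv.id)
    (fun q => tm_ext (f := pm (d q) .id ∘ₗ pm (d (q + 1)) .id) (g := 0) fun x e => by
      simp only [LinearMap.comp_apply, pm_tm, hP.d_d, tm_zero, LinearMap.zero_apply])
    (fun q => pm_exact_left fun c => ⟨hP.exact_succ q c, by rintro ⟨b, rfl⟩; exact hP.d_d q b⟩)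
    (fun q => proj_prod (hfree q)) v
    (fun q => match q with
      | 0 => (hu 0).sub hσ
      | q + 1 => hu (q + 1))
    (fun c => cl_exact (ε := ε)
      (fun c => ⟨hP.exact_zero c, by rintro ⟨b, rfl⟩; exact hP.ε_d b⟩) _
      (tm_ext (f := cl ε ∘ₗ (fm (u 0) - fm σ)) (g := 0) (fun x e => by
        simp only [LinearMap.comp_apply, LinearMap.sub_apply, fm_tm, map_sub, cl_tm,
          LinearMap.zero_apply]
        by_cases h : fr e
        · simp [u, σ, if_pos h, hP.eqv_ε, hb₀]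
        · simp [u, σ, if_neg h, hP.eqv_ε]) c))
    (fun q => match q with
      | 0 => fun c => by
        change pm (d 0) .id (fm (u 1) c) = fm (u 0) (pm (d 0) .id c) - fm σ (pm (d 0) .id c)
        have e0 : fm σ (pm (d 0) .id c) = 0 :=
          tm_ext (f := fm σ ∘ₗ pm (d 0) .id) (g := 0) (fun x e => by
            simp only [LinearMap.comp_apply, pm_tm, LinearMap.id_apply, fm_tm,
              LinearMap.zero_apply]
            by_cases h : fr e
            · simp [σ, if_pos h, hP.ε_d, tm_zero]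
            · simp [σ, if_neg h, tm_zero]) c
        rw [hud, e0, sub_zero]
      | q + 1 => hud (q + 1))
  let a : ∀ q, B q × E → N := fun _ x => if fr x.2 then 1 else ι (z x.2) - 1
  have ha : ∀ q x, IsRightRegular (a q x) := fun q x => by
    by_cases h : fr x.2
    · simpa only [a, if_pos h] using isRegular_one.right
    · simpa only [a, if_neg h] using hι.sub_one _ (hz3 _ h).2
  have hR : ∀ q x, Tens.map ι (fm (u q)) (hu q) (Tens.of ι _ (single x 1)) =
      a q x • Tens.of ι _ (single x 1) := fun q x => by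
    have e1 : single x (1 : ℤ) = tm (single x.1 1) (single x.2 1) := by rw [tm_single, mul_one]
    rw [Tens.map_of, e1, fm_tm]
    by_cases h : fr x.2
    · simp only [u, a, if_pos h, LinearMap.id_apply, one_smul]
    · simp only [u, a, if_neg h, LinearMap.sub_apply, LinearMap.id_apply, tm_sub, map_sub,
        sub_smul, one_smul, ← Tens.of_rep, rep_tm, permRep_single, (hz3 _ h).1]
  intro x hx
  obtain ⟨s, hs, x', hx'⟩ := diag_onto hι (a (q + 1)) (ha _) (hR _) x
  have e1 : Tens.map ι (pm (d q) .id) (pm_eqv (hP.eqv_d q) Eqv.id) ∘ₗ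
      Tens.map ι (fm (u (q + 1))) (hu _) =
      Tens.map ι (fm (u q)) (hu _) ∘ₗ Tens.map ι (pm (d q) .id) (pm_eqv (hP.eqv_d q) Eqv.id) :=
    Tens.hom_ext ι fun c => by simp only [LinearMap.comp_apply, Tens.map_of, hud]
  have e2 : Tens.map ι (pm (d (q + 1)) .id) (pm_eqv (hP.eqv_d _) Eqv.id) ∘ₗ
      Tens.map ι (h (q + 1)) (hh _) + Tens.map ι (h q) (hh _) ∘ₗ
      Tens.map ι (pm (d q) .id) (pm_eqv (hP.eqv_d _) Eqv.id) =
      Tens.map ι (fm (u (q + 1))) (hu _) :=
    Tens.hom_ext ι fun c => by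
      simp only [LinearMap.comp_apply, LinearMap.add_apply, Tens.map_of, ← map_add, hdh]
      rfl
  have e3 : Tens.map ι (pm (d q) .id) (pm_eqv (hP.eqv_d q) Eqv.id) x' = 0 :=
    diag_injective (fun g x h => hfree q g x.1 (congrArg Prod.fst h)) (a q) (ha q) (hR q) _ (by
      rw [← LinearMap.comp_apply, ← e1, LinearMap.comp_apply, hx', map_smul, hx, smul_zero])
  refine ⟨s, hs, Tens.map ι (h (q + 1)) (hh _) x', ?_⟩
  have e4 := LinearMap.congr_fun e2 x'
  rwa [LinearMap.add_apply, LinearMap.comp_apply, LinearMap.comp_apply, e3, map_zero, add_zero,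
    hx'] at e4

end Col

end Dbl

open Dbl Finsupp in
/-- Comparison of a free resolution with an acyclic complex of permutation modules, modulo
torsion. -/
theorem torsAt_of_double {G N : Type} [Group G] [Ring N] {ι : G →* N} (hι : OreData ι)
    {B E : ℕ → Type} [∀ q, MulAction G (B q)] [∀ p, MulAction G (E p)]
    {d : ∀ q, (B (q + 1) →₀ ℤ) →ₗ[ℤ] (B q →₀ ℤ)} {ε : (B 0 →₀ ℤ) →ₗ[ℤ] ℤ}
    (hP : IsRes (fun q => permRep G (B q)) d ε)
    (hfree : ∀ q (g : G) (b : B q), g • b = b → g = 1)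
    {δ : ∀ p, (E (p + 1) →₀ ℤ) →ₗ[ℤ] (E p →₀ ℤ)}
    (hδ : ∀ p, Eqv (permRep G (E (p + 1))) (permRep G (E p)) (δ p))
    (hδδ : ∀ p c, δ p (δ (p + 1) c) = 0) (e₀ : E 0) (he₀ : ∀ e : E 0, e = e₀)
    (hsurj : Function.Surjective (δ 0)) (hex : ∀ p c, δ p c = 0 → ∃ b, δ (p + 1) b = c)
    (hcell : ∀ p (e : E (p + 1)), (∀ g : G, g • e = e → g = 1) ∨
      ∃ z : G, z • e = e ∧ ¬ IsOfFinOrder z ∧ ∀ g : G, g • e = e → Commute g z)
    {k : ℕ} (hbot : TorsAt ι (fun p => permRep G (E p)) δ hδ (k + 1)) :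
    TorsAt ι (fun q => permRep G (B q)) d hP.eqv_d k := by
  obtain ⟨b₀, hb₀⟩ := hP.surj
  let δ' (p q : ℕ) : Tens ι (permRep G (B q × E (p + 1))) →ₗ[N] Tens ι (permRep G (B q × E p)) :=
    Tens.map ι (pm .id (δ p)) (pm_eqv Eqv.id (hδ p))
  let d' (p q : ℕ) : Tens ι (permRep G (B (q + 1) × E p)) →ₗ[N] Tens ι (permRep G (B q × E p)) :=
    Tens.map ι (pm (d q) .id) (pm_eqv (hP.eqv_d q) Eqv.id)
  let η (p : ℕ) : Tens ι (permRep G (B 0 × E p)) →ₗ[N] Tens ι (permRep G (E p)) :=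
    Tens.map ι (cl ε) (cl_eqv hP.eqv_ε)
  have comm : ∀ p q, δ' p q ∘ₗ d' (p + 1) q = d' p q ∘ₗ δ' p (q + 1) := fun p q =>
    Tens.hom_ext ι fun c => congrArg (Tens.of ι _)
      (tm_ext (f := pm .id (δ p) ∘ₗ pm (d q) .id) (g := pm (d q) .id ∘ₗ pm .id (δ p))
        (fun x e => by simp only [LinearMap.comp_apply, pm_tm, LinearMap.id_apply]) c)
  have δδ0 : ∀ p q (c : B q × E (p + 2) →₀ ℤ), pm .id (δ p) (pm .id (δ (p + 1)) c) = 0 :=
    fun p q => tm_ext (f := pm .id (δ p) ∘ₗ pm .id (δ (p + 1))) (g := 0) fun x e => by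
      simp only [LinearMap.comp_apply, pm_tm, hδδ, map_zero, LinearMap.zero_apply]
  have δδ : ∀ p q, δ' p q ∘ₗ δ' (p + 1) q = 0 := fun p q =>
    Tens.hom_ext ι fun c => (congrArg (Tens.of ι _) (δδ0 p q c)).trans (map_zero _)
  have dd : ∀ p q, d' p q ∘ₗ d' p (q + 1) = 0 := fun p q =>
    Tens.hom_ext ι fun c => (congrArg (Tens.of ι _)
      (tm_ext (f := pm (d q) .id ∘ₗ pm (d (q + 1)) .id) (g := 0) (fun x e => by
        simp only [LinearMap.comp_apply, pm_tm, hP.d_d, tm_zero, LinearMap.zero_apply]) c)).trans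
      (map_zero _)
  have ηd : ∀ p, η p ∘ₗ d' p 0 = 0 := fun p =>
    Tens.hom_ext ι fun c => (congrArg (Tens.of ι _)
      (tm_ext (f := cl ε ∘ₗ pm (d 0) (.id : (E p →₀ ℤ) →ₗ[ℤ] _)) (g := 0) (fun x e => by
        rw [LinearMap.comp_apply, pm_tm, cl_tm, hP.ε_d, zero_smul, LinearMap.zero_apply])
        c)).trans (map_zero _)
  have ηδ : ∀ p, η p ∘ₗ δ' p 0 = Tens.map ι (δ p) (hδ p) ∘ₗ η (p + 1) := fun p =>
    Tens.hom_ext ι fun c => congrArg (Tens.of ι _)
      (tm_ext (f := cl ε ∘ₗ pm .id (δ p)) (g := δ p ∘ₗ cl ε) (fun x e => by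
        rw [LinearMap.comp_apply, LinearMap.comp_apply, pm_tm, cl_tm, cl_tm, map_smul,
          LinearMap.id_apply]) c)
  have row : ∀ p q x, δ' p q x = 0 → ∃ y, δ' (p + 1) q y = x := by
    intro p q x hx
    obtain ⟨h, hh, -, hdh⟩ := exists_htpy (ρ := fun p => permRep G (B q × E p))
      (d := fun p => pm .id (δ p)) (fun p => pm_eqv Eqv.id (hδ p)) (fun p => δδ0 p q)
      (fun p => pm_exact_right fun c => ⟨hex p c, by rintro ⟨b, rfl⟩; exact hδδ p b⟩)
      (fun p => proj_prod (hfree q)) (fun _ => .id) (fun _ => Eqv.id) (pm_surj hsurj)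
      (fun _ _ => rfl)
    have e : δ' (p + 1) q ∘ₗ Tens.map ι (h (p + 1)) (hh _) + Tens.map ι (h p) (hh _) ∘ₗ δ' p q =
        LinearMap.id := Tens.hom_ext ι fun c =>
      (map_add (Tens.of ι _) _ _).symm.trans (congrArg (Tens.of ι _) (hdh p c))
    refine ⟨Tens.map ι (h (p + 1)) (hh _) x, ?_⟩
    have e' := LinearMap.congr_fun e x
    rwa [LinearMap.add_apply, LinearMap.comp_apply, LinearMap.comp_apply, hx, map_zero,
      add_zero] at e'
  have hi : ∀ q, Eqv (permRep G (B q)) (permRep G (B q × E 0)) (lmapDomain ℤ ℤ (·, e₀)) :=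
    fun q g c => by
      simp only [permRep, MonoidHom.coe_mk, OneHom.coe_mk, lmapDomain_apply, ← mapDomain_comp]
      congr 1
      funext b
      exact Prod.ext rfl (he₀ _).symm
  have hj : ∀ q, Eqv (permRep G (B q × E 0)) (permRep G (B q)) (lmapDomain ℤ ℤ Prod.fst) :=
    fun q g c => by
      simp only [permRep, MonoidHom.coe_mk, OneHom.coe_mk, lmapDomain_apply, ← mapDomain_comp]
      rfl
  have hi' : ∀ q (c : B q →₀ ℤ), lmapDomain ℤ ℤ (·, e₀) c = tm c (single e₀ 1) := fun q c => by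
    induction c using Finsupp.induction_linear with
    | zero => simp [tm_zero]
    | add a b ha hb => rw [map_add, ha, hb, tm_add]
    | single b m => rw [tm_single, lmapDomain_apply, mapDomain_single, mul_one]
  have hji : ∀ q (c : B q →₀ ℤ), lmapDomain ℤ ℤ Prod.fst (tm c (single e₀ 1)) = c := fun q c => by
    rw [← hi', lmapDomain_apply, lmapDomain_apply, ← mapDomain_comp]
    exact mapDomain_id
  have di : ∀ q, d' 0 q ∘ₗ Tens.map ι _ (hi (q + 1)) =
      Tens.map ι _ (hi q) ∘ₗ Tens.map ι (d q) (hP.eqv_d q) := fun q =>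
    Tens.hom_ext ι fun c => congrArg (Tens.of ι _) (by rw [hi', hi', pm_tm, LinearMap.id_apply])
  have dj : ∀ q, Tens.map ι (d q) (hP.eqv_d q) ∘ₗ Tens.map ι _ (hj (q + 1)) =
      Tens.map ι _ (hj q) ∘ₗ d' 0 q := fun q =>
    Tens.hom_ext ι fun c => congrArg (Tens.of ι _)
      (tm_ext (f := d q ∘ₗ lmapDomain ℤ ℤ Prod.fst) (g := lmapDomain ℤ ℤ Prod.fst ∘ₗ pm (d q) .id)
        (fun x e => by
          rw [LinearMap.comp_apply, LinearMap.comp_apply, pm_tm, LinearMap.id_apply, he₀ e, hji,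
            hji]) c)
  have ji : ∀ q, Tens.map ι _ (hj q) ∘ₗ Tens.map ι _ (hi q) = LinearMap.id := fun q =>
    Tens.hom_ext ι fun c => congrArg (Tens.of ι _) (by rw [hi', hji])
  have col : ∀ p q x, d' (p + 1) q x = 0 →
      ∃ s : N, IsLeftRegular s ∧ ∃ w, d' (p + 1) (q + 1) w = s • x :=
    fun p q => col_tors hι hP hfree (hcell p) q
  intro z hz
  obtain ⟨s, hs, w, hw⟩ := stair (N := N) (A := fun p q => Tens ι (permRep G (B q × E p))) δ' d'
    (fun p q => LinearMap.congr_fun (comm p q)) (fun p q => LinearMap.congr_fun (δδ p q))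
    (fun p q => LinearMap.congr_fun (dd p q))
    (fun q => tens_surj (pm_eqv Eqv.id (hδ 0)) (pm_surj hsurj)) row col (k := k) (fun y t ht => by
      obtain ⟨s, hs, w, hw⟩ := hbot (η (k + 2) y) (by
        rw [← LinearMap.comp_apply, ← ηδ, LinearMap.comp_apply, ← ht, ← LinearMap.comp_apply, ηd,
          LinearMap.zero_apply])
      have hσ : ∀ p (c : E p →₀ ℤ), cl ε (tm b₀ c) = c := fun p c => by
        rw [cl_tm, hb₀, one_smul]
      obtain ⟨v, rfl⟩ := tens_surj (ι := ι) (cl_eqv hP.eqv_ε) (fun c => ⟨_, hσ _ c⟩) w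
      obtain ⟨w', hw'⟩ := tens_exact (ι := ι) (pm_eqv (hP.eqv_d 0) Eqv.id) (cl_eqv hP.eqv_ε)
        (tm b₀) (hσ (k + 2))
        (cl_exact fun c => ⟨hP.exact_zero c, by rintro ⟨b, rfl⟩; exact hP.ε_d b⟩)
        (s • y - δ' (k + 2) 0 v) (by
          rw [map_sub, map_smul, sub_eq_zero]
          exact hw.symm.trans (LinearMap.congr_fun (ηδ (k + 2)) v).symm)
      exact ⟨s, hs, v, w', (eq_sub_iff_add_eq'.1 hw').symm⟩)
    (Tens.map ι _ (hi (k + 1)) z) (by
      rw [← LinearMap.comp_apply, di, LinearMap.comp_apply, hz, map_zero])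
  refine ⟨s, hs, Tens.map ι _ (hj (k + 2)) w, ?_⟩
  rw [← LinearMap.comp_apply, dj, LinearMap.comp_apply, hw, map_smul, ← LinearMap.comp_apply, ji,
    LinearMap.id_apply]

end Pool.Agent.MP_4f4d9f_gt

end

section

/-! Assembly of the Artin group case. -/

namespace Pool.Agent.MP_4f4d9f_gt

namespace ArtinMain

theorem oreData {G E : Type} [Group G] [NormedAddCommGroup E] [InnerProductSpace ℂ E]
    {b : HilbertBasis G ℂ E} {ι : G →* vnAlg b} (hι : ∀ g h, (ι g).1 (b h) = b (g * h))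
    {H : Type} [Group H] (i : H →* G) (hi : Function.Injective i) : OreData (ι.comp i) where
  reg a ha := isRightRegular_of_map (vnEquiv b) (isLeftRegular_iff_isRightRegular.1
    (isLeftRegular_of_map (vnEquiv b).symm (by simpa using ha)))
  ore _ y ha := vnAlg_ore ha y
  sub_one _ hg := vnAlg_rightRegular hι fun h => hg ((hi.isOfFinOrder_iff).1 h)
  int := vnAlg_intCast

variable {S : Type} {M : CoxeterMatrix S}

theorem torsExact_univ {p : ℕ} (h : ∀ T : Set S, T.Finite → TorsExact (Sph M T) p) :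
    TorsExact (Sph M Set.univ) p := by
  intro z hz h0
  let T : Set S := ⋃ σ ∈ z.support, ⋃ U ∈ σ, U
  have hT : T.Finite := Set.Finite.biUnion z.support.finite_toSet fun σ hσ =>
    Set.Finite.biUnion σ.finite_toSet fun U hU => ((hz σ hσ).1 hU).2.2.finite
  obtain ⟨m, hm, w, hw, hw'⟩ := h T hT z (fun σ hσ => ⟨fun U hU => ⟨fun s hs =>
    Set.mem_biUnion hσ (Set.mem_biUnion hU hs), ((hz σ hσ).1 hU).2⟩, (hz σ hσ).2⟩) h0
  exact ⟨m, hm, w, fun σ hσ => ⟨fun U hU => ⟨Set.subset_univ _, ((hw σ hσ).1 hU).2⟩,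
    (hw σ hσ).2⟩, hw'⟩

variable {n : ℕ} {C : Set (EuclideanSpace ℝ (Fin n))} {Y X G : Type} [TopologicalSpace Y]
  [T2Space Y] [ChartedSpace C Y] [TopologicalSpace X] [ContractibleSpace X] [Group G]
  [MulAction G X] {p : X → Y}

theorem exactTwo_of_hom (hC : Convex ℝ C) (hC' : (interior C).Nonempty)
    (hp : IsQuotientCoveringMap p G) {K : Type} [Group K] (i : K →* G)
    (hi : Function.Injective i) {V : Type} [Fintype V] [DecidableEq V] (Γ : SimpleGraph V)
    (x : V → K) (hx : ∀ u v, Γ.Adj u v → Commute (x u) (x v))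
    (ab : V → K →* Multiplicative ℤ) (hab : ∀ u v, u ≠ v → ab v (x u) = 1)
    (hab' : ∀ v, 1 ≤ (ab v (x v)).toAdd) {q : ℕ} (hq : n < 2 * q) : ExactTwo Γ q :=
  exactTwo_of_lt hC hC' hp i.range Γ (fun v => MonoidHom.ofInjective hi (x v))
    (fun u v h => (hx u v h).map _)
    (fun v => (ab v).comp (MonoidHom.ofInjective hi).symm.toMonoidHom)
    (fun u v h => by simpa using hab u v h) (fun v => by simpa using hab' v) hq

theorem torsExact_of_lt (hC : Convex ℝ C) (hC' : (interior C).Nonempty)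
    (hp : IsQuotientCoveringMap p G) {H : Type} [Group H] (i : H →* G)
    (hi : Function.Injective i) {j : H →* Artin M} (hj : Function.Injective j)
    (hcp : CentPow M j.range) {q : ℕ} (hq : n < 2 * q) : TorsExact (Sph M Set.univ) q := by
  classical
  refine torsExact_univ fun T hT => torsExact_sph hT ?_
  have : Finite (LV M T) := (hT.finite_subsets.subset fun U (hU : U ∈ Sph M T ∧ Conn M U) =>
    hU.1.1).to_subtype
  have := Fintype.ofFinite (LV M T)
  obtain ⟨P, x, ab, hx, hab, hab', hxc⟩ := exists_ab (M := M) hT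
  have hpow : ∀ v, ∃ (m : ℕ) (y : H), 0 < m ∧ j y = (x v : Artin M) ^ m := fun v => by
    obtain ⟨m, hm, y, hy⟩ := hcp v.1 v.2.1.2.2 _ (hxc v).1 (hxc v).2 1
    exact ⟨m, y, hm, by simpa using hy⟩
  choose m y hm hy using hpow
  let φ : P.comap j →* P := (j.comp (P.comap j).subtype).codRestrict P fun g => g.2
  have hφ : Function.Injective φ := fun a b h => Subtype.ext (hj (congrArg Subtype.val h))
  let y' : LV M T → P.comap j := fun v => ⟨y v, by
    rw [Subgroup.mem_comap, hy]; exact pow_mem (x v).2 _⟩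
  have hy' : ∀ v, φ (y' v) = x v ^ m v := fun v => Subtype.ext (hy v)
  refine exactTwo_of_hom hC hC' hp (i.comp (P.comap j).subtype) (hi.comp Subtype.val_injective)
    (Lam M T) y' (fun u v h => ?_) (fun v => (ab v).comp φ) (fun u v h => ?_) (fun v => ?_) hq
  · refine Commute.of_map hφ ?_
    rw [hy', hy']
    exact (hx u v h).pow_pow _ _
  · rw [MonoidHom.comp_apply, hy', map_pow, hab u v h, one_pow]
  · rw [MonoidHom.comp_apply, hy', map_pow, toAdd_pow, nsmul_eq_mul]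
    have h1 := hab' v
    have h2 : (1 : ℤ) ≤ m v := by exact_mod_cast hm v
    nlinarith

theorem main (hM : OrderAcyclic (Deligne M Set.univ)) (hC : Convex ℝ C)
    (hC' : (interior C).Nonempty) [ContinuousConstSMul G X] (hp : IsQuotientCoveringMap p G)
    (H : Subgroup G) (hH : Folner G (G ⧸ H)) {j : H →* Artin M} (hj : Function.Injective j)
    (hcp : CentPow M j.range) {E : Type} [NormedAddCommGroup E] [InnerProductSpace ℂ E]
    (b : HilbertBasis G ℂ E) (ι : G →* vnAlg b) (hι : ∀ g h, (ι g).1 (b h) = b (g * h))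
    {k : ℕ} (hk : n < 2 * (k + 1)) : bettiSucc b ι X k = 0 := by
  have hfr : ∀ (q : ℕ) (g : G) (σ : Sing X q), g • σ = σ → g = 1 := fun q g σ h => by
    have := hp.isCancelSMul
    have h' : g • σ (Classical.arbitrary _) = σ (Classical.arbitrary _) :=
      congrArg (fun τ : Sing X q => τ (Classical.arbitrary _)) h
    exact IsCancelSMul.right_cancel g 1 _ (h'.trans (one_smul _ _).symm)
  refine homDim_eq_zero_of_folner_tors hι hH (B := Sing X k) (hfr k)
    (bd ℤ X (k + 1)) (bd_smul G X (k + 1)) (bd ℤ X k) (bd_smul G X k) ?_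
  change TorsAt (ι.comp H.subtype) (fun q => (permRep G (Sing X q)).comp H.subtype) (bd ℤ X)
    (fun q g => bd_smul G X q g) k
  have hι := oreData hι H.subtype Subtype.val_injective
  have hbot := torsAt_deligne hj hcp hι
    (torsExact_of_lt hC hC' hp H.subtype Subtype.val_injective hj hcp hk)
  let _ : ∀ q, MulAction H (Flag (Deligne M Set.univ) q) := fun q => MulAction.compHom _ j
  have hP : IsRes (fun q => permRep H (Sing X q)) (bd ℤ X) (aug ℤ X) :=
    isRes_sing hp H.subtype Subtype.val_injective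
  refine torsAt_of_double hι (B := Sing X) (E := Flag (Deligne M Set.univ)) hP (fun q g σ h => ?_)
    (δ := fbd (Deligne M Set.univ)) (fun q g => fbd_eqv M q (j g)) (fun _ => fbd_fbd)
    ⟨∅, isFlag_zero_iff.2 rfl⟩ (fun e => Subtype.ext (isFlag_zero_iff.1 e.2))
    hM.fbd_surjective hM.fbd_exact (fun _ => cell_dichotomy hj hcp) hbot
  have := hp.isCancelSMul
  have h' : (g : G) • σ (Classical.arbitrary _) = σ (Classical.arbitrary _) :=
    congrArg (fun τ : Sing X q => τ (Classical.arbitrary _)) h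
  exact Subtype.ext (IsCancelSMul.right_cancel (g : G) 1 _ (h'.trans (one_smul _ _).symm))

end ArtinMain

end Pool.Agent.MP_4f4d9f_gt

end
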