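import Pool.Agent.MP_4f4d9f_gt.P3Iface

set_option linter.all false

section

/-! Basic consequences of the normal form data of a graph product. -/

namespace Pool.Agent.MP_4f4d9f_gt

variable {V W : Type} [Group W] {Γ : SimpleGraph V} {P : V → Subgroup W}

theorem mem_par {T : Set V} {v : V} (hv : v ∈ T) {a : W} (ha : a ∈ P v) : a ∈ par P T :=
  (le_iSup₂_of_le v hv le_rfl : P v ≤ par P T) ha

theorem par_mono {T U : Set V} (h : T ⊆ U) : par P T ≤ par P U :=
  iSup₂_le fun _ hv _ ha => mem_par (h hv) ha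

theorem par_eq_closure (T : Set V) :
    par P T = Subgroup.closure {a | ∃ v ∈ T, a ∈ P v} := by
  refine le_antisymm (iSup₂_le fun v hv a ha => Subgroup.subset_closure ⟨v, hv, ha⟩) ?_
  rw [Subgroup.closure_le]
  rintro a ⟨v, hv, ha⟩
  exact mem_par hv ha

theorem par_induction_right {T : Set V} {p : W → Prop} (h1 : p 1)
    (hs : ∀ g ∈ par P T, ∀ v ∈ T, ∀ a ∈ P v, p g → p (g * a)) {g : W} (hg : g ∈ par P T) :
    p g := by
  rw [par_eq_closure] at hg hs
  induction hg using Subgroup.closure_induction_right with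
  | one => exact h1
  | mul_right x hx y hy ih =>
    obtain ⟨v, hv, ha⟩ := hy
    exact hs x hx v hv y ha ih
  | mul_inv_cancel x hx y hy ih =>
    obtain ⟨v, hv, ha⟩ := hy
    exact hs x hx v hv _ (inv_mem ha) ih

theorem par_induction_left {T : Set V} {p : W → Prop} (h1 : p 1)
    (hs : ∀ g ∈ par P T, ∀ v ∈ T, ∀ a ∈ P v, p g → p (a * g)) {g : W} (hg : g ∈ par P T) :
    p g := by
  have := par_induction_right (P := P) (T := T) (p := fun g => p g⁻¹) (by simpa using h1)
    (fun g hg v hv a ha h => by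
      rw [mul_inv_rev]
      exact hs _ (inv_mem hg) v hv _ (inv_mem ha) h) (inv_mem hg)
  simpa using this

theorem IsGraphProd.mem_par_univ (hP : IsGraphProd Γ P) (g : W) : g ∈ par P Set.univ := by
  have : par P Set.univ = ⊤ := by simp [par, hP.gen]
  rw [this]
  trivial

theorem IsGraphProd.induction_right (hP : IsGraphProd Γ P) {p : W → Prop} (h1 : p 1)
    (hs : ∀ g v, ∀ a ∈ P v, p g → p (g * a)) (g : W) : p g :=
  par_induction_right h1 (fun g _ v _ a ha => hs g v a ha) (hP.mem_par_univ g)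

theorem IsGraphProd.induction_left (hP : IsGraphProd Γ P) {p : W → Prop} (h1 : p 1)
    (hs : ∀ g v, ∀ a ∈ P v, p g → p (a * g)) (g : W) : p g :=
  par_induction_left h1 (fun g _ v _ a ha => hs g v a ha) (hP.mem_par_univ g)

theorem IsGraphProd.hom_ext (hP : IsGraphProd Γ P) {T : Type} [Group T] {f f' : W →* T}
    (h : ∀ v, ∀ a ∈ P v, f a = f' a) : f = f' :=
  MonoidHom.ext fun g => hP.induction_right (p := fun g => f g = f' g) (by simp)
    (fun g v a ha ih => by rw [map_mul, map_mul, ih, h v a ha]) g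

theorem IsGraphProd.comm_par (hP : IsGraphProd Γ P) {v : V} {a c : W} (ha : a ∈ P v)
    (hc : c ∈ par P (Γ.neighborSet v)) : a * c = c * a :=
  par_induction_right (p := fun c => a * c = c * a) (by simp)
    (fun g _ u hu b hb ih => by
      rw [← mul_assoc, ih, mul_assoc, hP.comm v u hu a ha b hb, mul_assoc]) hc

namespace NF

variable (N : NF Γ P)

theorem pi_par {T : Set V} {v : V} (hv : v ∉ T) {g : W} (hg : g ∈ par P T) : N.pi v g = 1 :=
  par_induction_right (p := fun g => N.pi v g = 1) (map_one _)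
    (fun g _ u hu a ha ih => by
      rw [map_mul, ih, N.pi_ne u v (fun e => hv (e ▸ hu)) a ha, one_mul]) hg

theorem mem_cart {g : W} : g ∈ cart P ↔ ∀ v, N.pi v g = 1 := by
  simp only [cart, Subgroup.mem_iInf, MonoidHom.mem_ker]
  refine forall_congr' fun v => ⟨fun h => h _ (N.pi_self v) fun u hu => N.pi_ne u v hu, ?_⟩
  intro h r h1 h2
  have : r = N.pi v := N.gp.hom_ext fun u a ha => by
    by_cases e : u = v
    · subst e
      rw [h1 a ha, N.pi_self u a ha]
    · rw [h2 u e a ha, N.pi_ne u v e a ha]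
  rw [this, h]

theorem hd_mul_par {T : Set V} {v : V} (hv : v ∉ T) (g : W) {c : W} (hc : c ∈ par P T) :
    N.hd v (g * c) = N.hd v g :=
  par_induction_right (p := fun c => N.hd v (g * c) = N.hd v g) (by simp)
    (fun c _ u hu a ha ih => by
      rw [← mul_assoc, N.spec.right u v (fun e => hv (e ▸ hu)) a ha, ih]) hc

theorem hd_par {T : Set V} {v : V} (hv : v ∉ T) {c : W} (hc : c ∈ par P T) : N.hd v c = 1 := by
  have := N.hd_mul_par hv 1 hc
  rwa [one_mul, N.spec.one] at this

theorem hd_par_mul {v : V} {c : W} (hc : c ∈ par P (Γ.neighborSet v)) (g : W) :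
    N.hd v (c * g) = N.hd v g :=
  par_induction_left (p := fun c => N.hd v (c * g) = N.hd v g) (by simp)
    (fun c _ u hu a ha ih => by
      rw [mul_assoc, N.spec.adj u v (Γ.adj_symm hu) a ha, ih]) hc

theorem hd_self {v : V} {a : W} (ha : a ∈ P v) : N.hd v a = a := by
  have := N.spec.self v a ha 1
  rwa [mul_one, N.spec.one, mul_one] at this

theorem hd_strip (v : V) (g : W) : N.hd v ((N.hd v g)⁻¹ * g) = 1 := by
  rw [N.spec.self v _ (inv_mem (N.spec.mem v g)), inv_mul_cancel]

theorem hd_of_change {v : V} {a g : W} (ha : a ∈ P v) (h : N.hd v (g * a) ≠ N.hd v g) :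
    N.hd v g = N.pi v g ∧ N.hd v (g * a) = N.pi v g * a := by
  have hc := N.spec.change v a ha g h
  have h1 : N.pi v ((N.hd v g)⁻¹ * g) = 1 := N.pi_par (by simp) hc
  rw [map_mul, map_inv, N.pi_self v _ (N.spec.mem v g), inv_mul_eq_one] at h1
  refine ⟨h1, ?_⟩
  have h2 : g * a = N.hd v g * a * ((N.hd v g)⁻¹ * g) := by
    rw [mul_assoc, N.gp.comm_par ha hc, ← mul_assoc, mul_inv_cancel_left]
  rw [← h1]
  conv_lhs => rw [h2]
  rw [N.hd_mul_par (by simp) _ hc, N.hd_self (mul_mem (N.spec.mem v g) ha)]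

theorem eq_one_of_hd {g : W} (h : ∀ v, N.hd v g = 1) : g = 1 := by
  revert h
  refine N.ind (fun g => (∀ v, N.hd v g = 1) → g = 1) (fun _ => rfl) ?_ g
  intro v a ha ha1 g hg _ h
  have := h v
  rw [N.spec.self v a ha, hg, mul_one] at this
  exact absurd this ha1

theorem len_eq_zero {g : W} : N.len g = 0 ↔ g = 1 := by
  refine ⟨?_, by rintro rfl; exact N.len_one⟩
  refine N.ind (fun g => N.len g = 0 → g = 1) (fun _ => rfl) ?_ g
  intro v a ha ha1 g hg _ h
  rw [N.len_mul v a ha ha1 g hg] at h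
  omega

theorem len_strip {v : V} {g : W} (h : N.hd v g ≠ 1) :
    N.len ((N.hd v g)⁻¹ * g) + 1 = N.len g := by
  rw [← N.len_mul v _ (N.spec.mem v g) h _ (N.hd_strip v g), mul_inv_cancel_left]

theorem len_strip_le (v : V) (g : W) : N.len ((N.hd v g)⁻¹ * g) ≤ N.len g := by
  by_cases h : N.hd v g = 1
  · rw [h, inv_one, one_mul]
  · have := N.len_strip h
    omega

theorem len_le_strip (v : V) (g : W) : N.len g ≤ N.len ((N.hd v g)⁻¹ * g) + 1 := by
  by_cases h : N.hd v g = 1
  · rw [h, inv_one, one_mul]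
    omega
  · exact (N.len_strip h).ge

theorem len_mul_of_hd_ne {v : V} {a g : W} (ha : a ∈ P v) (h : a * N.hd v g ≠ 1) :
    N.len (a * g) = N.len ((N.hd v g)⁻¹ * g) + 1 := by
  rw [← N.len_mul v _ (mul_mem ha (N.spec.mem v g)) h _ (N.hd_strip v g), mul_assoc,
    mul_inv_cancel_left]

theorem len_left_le {v : V} {a : W} (ha : a ∈ P v) (g : W) : N.len (a * g) ≤ N.len g + 1 := by
  have h2 := N.len_strip_le v g
  by_cases h : a * N.hd v g = 1
  · rw [eq_inv_of_mul_eq_one_left h]
    omega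
  · rw [N.len_mul_of_hd_ne ha h]
    omega

theorem len_mul_le (g h : W) : N.len (g * h) ≤ N.len g + N.len h := by
  refine N.ind (fun g => N.len (g * h) ≤ N.len g + N.len h) (by simp) ?_ g
  intro v a ha ha1 g hg ih
  have := N.len_left_le ha (g * h)
  rw [mul_assoc, N.len_mul v a ha ha1 g hg]
  omega

theorem len_le_one {v : V} {a : W} (ha : a ∈ P v) : N.len a ≤ 1 := by
  have := N.len_left_le ha 1
  rwa [mul_one, N.len_one] at this

theorem len_right_le {v : V} {a : W} (ha : a ∈ P v) (g : W) : N.len (g * a) ≤ N.len g + 1 :=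
  (N.len_mul_le g a).trans (Nat.add_le_add_left (N.len_le_one ha) _)

theorem len_le_right {v : V} {a : W} (ha : a ∈ P v) (g : W) : N.len g ≤ N.len (g * a) + 1 := by
  have := N.len_right_le (inv_mem ha) (g * a)
  rwa [mul_inv_cancel_right] at this

/-- Elements without a common initial syllable are far apart. -/
theorem len_le_of_hd {y y' : W} (h : ∀ v, N.hd v y = N.hd v y' → N.hd v y = 1) :
    N.len y' ≤ N.len (y⁻¹ * y') := by
  revert y'
  refine N.ind (fun y => ∀ {y' : W}, (∀ v, N.hd v y = N.hd v y' → N.hd v y = 1) →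
    N.len y' ≤ N.len (y⁻¹ * y')) (by simp) ?_ y
  intro v a ha ha1 g hg ih y' h
  have e1 : N.hd v (a * g) = a := by rw [N.spec.self v a ha, hg, mul_one]
  have e2 : a⁻¹ * N.hd v y' ≠ 1 := fun e => ha1 (by
    rw [inv_mul_eq_one] at e
    rw [← e1]
    exact h v (e1.trans e))
  rw [mul_inv_rev, mul_assoc]
  refine le_trans ?_ (ih (y' := a⁻¹ * y') fun u hu => ?_)
  · rw [N.len_mul_of_hd_ne (inv_mem ha) e2]
    exact N.len_le_strip v y'
  · by_cases huv : u = v
    · rw [huv, hg]
    by_cases hadj : Γ.Adj v u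
    · rw [N.spec.adj v u hadj _ (inv_mem ha)] at hu
      have := h u
      rw [N.spec.adj v u hadj a ha] at this
      exact this hu
    · rw [hu]
      by_contra h1
      refine hadj (N.spec.clique v u (a⁻¹ * y') (Ne.symm huv) ?_ h1)
      rwa [N.spec.self v _ (inv_mem ha)]

theorem len_le_of_hd' {y y' : W} (h : ∀ v, N.hd v y = N.hd v y' → N.hd v y = 1) :
    N.len y ≤ N.len (y⁻¹ * y') := by
  have := N.len_le_of_hd (y := y') (y' := y) fun v e => by rw [e]; exact h v e.symm
  rwa [← N.len_inv (y'⁻¹ * y), mul_inv_rev, inv_inv] at this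

theorem finite_ball [Finite V] (hfin : ∀ v, Finite (P v)) (R : ℕ) :
    {g : W | N.len g ≤ R}.Finite := by
  have hS : (⋃ v, (P v : Set W)).Finite := Set.finite_iUnion fun v => Set.toFinite _
  induction R with
  | zero =>
    refine (Set.finite_singleton 1).subset fun g hg => ?_
    exact N.len_eq_zero.1 (Nat.le_zero.1 hg)
  | succ R ih =>
    refine ((Set.finite_singleton 1).union (hS.image2 (· * ·) ih)).subset fun g hg => ?_
    by_cases h : ∀ v, N.hd v g = 1
    · exact Or.inl (N.eq_one_of_hd h)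
    · obtain ⟨v, hv⟩ := not_forall.1 h
      have := N.len_strip hv
      refine Or.inr ⟨N.hd v g, Set.mem_iUnion_of_mem v (N.spec.mem v g), (N.hd v g)⁻¹ * g, ?_,
        mul_inv_cancel_left _ _⟩
      simp only [Set.mem_setOf_eq] at hg ⊢
      omega

/-! ### Final syllables -/

theorem tl_mem (v : V) (g : W) : N.tl v g ∈ P v := inv_mem (N.spec.mem v _)

theorem tl_one (v : V) : N.tl v 1 = 1 := by simp [tl, N.spec.one]

theorem tl_eq_one {v : V} {g : W} : N.tl v g = 1 ↔ N.hd v g⁻¹ = 1 := inv_eq_one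

theorem tl_self {v : V} {a : W} (ha : a ∈ P v) (g : W) : N.tl v (g * a) = N.tl v g * a := by
  rw [tl, tl, mul_inv_rev, N.spec.self v _ (inv_mem ha), mul_inv_rev, inv_inv]

theorem tl_adj {u v : V} (h : Γ.Adj u v) {b : W} (hb : b ∈ P u) (g : W) :
    N.tl v (g * b) = N.tl v g := by
  rw [tl, tl, mul_inv_rev, N.spec.adj u v h _ (inv_mem hb)]

theorem tl_left {u v : V} (h : u ≠ v) {b : W} (hb : b ∈ P u) (g : W) :
    N.tl v (b * g) = N.tl v g := by
  rw [tl, tl, mul_inv_rev, N.spec.right u v h _ (inv_mem hb)]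

theorem tl_clique {u v : V} {g : W} (h : u ≠ v) (hu : N.tl u g ≠ 1) (hv : N.tl v g ≠ 1) :
    Γ.Adj u v :=
  N.spec.clique u v g⁻¹ h (mt N.tl_eq_one.2 hu) (mt N.tl_eq_one.2 hv)

theorem tl_mul_par {v : V} (g : W) {c : W} (hc : c ∈ par P (Γ.neighborSet v)) :
    N.tl v (g * c) = N.tl v g := by
  rw [tl, tl, mul_inv_rev, N.hd_par_mul (inv_mem hc)]

theorem tl_strip (v : V) (g : W) : N.tl v (g * (N.tl v g)⁻¹) = 1 := by
  rw [N.tl_self (inv_mem (N.tl_mem v g)), mul_inv_cancel]

theorem eq_one_of_tl {g : W} (h : ∀ v, N.tl v g = 1) : g = 1 :=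
  inv_eq_one.1 (N.eq_one_of_hd fun v => N.tl_eq_one.1 (h v))

theorem len_mul_right {v : V} {a : W} (ha : a ∈ P v) (ha1 : a ≠ 1) {g : W} (hg : N.tl v g = 1) :
    N.len (g * a) = N.len g + 1 := by
  rw [← N.len_inv, mul_inv_rev, N.len_mul v _ (inv_mem ha) (inv_ne_one.2 ha1) _
    (N.tl_eq_one.1 hg), N.len_inv]

theorem len_strip_right {v : V} {g : W} (h : N.tl v g ≠ 1) :
    N.len (g * (N.tl v g)⁻¹) + 1 = N.len g := by
  rw [← N.len_mul_right (N.tl_mem v g) h (N.tl_strip v g), inv_mul_cancel_right]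

theorem ind_right (p : W → Prop) (h1 : p 1)
    (hs : ∀ v, ∀ a ∈ P v, a ≠ 1 → ∀ g, N.tl v g = 1 → p g → p (g * a)) (g : W) : p g := by
  have := N.ind (fun g => p g⁻¹) (by simpa using h1) (fun v a ha ha1 g hg ih => by
    rw [mul_inv_rev]
    exact hs v _ (inv_mem ha) (inv_ne_one.2 ha1) _ (N.tl_eq_one.2 (by rwa [inv_inv])) ih) g⁻¹
  rwa [inv_inv] at this

theorem wt_right (c : V → W → ℕ) : ∃ w : W → ℕ, w 1 = 0 ∧
    ∀ v, ∀ a ∈ P v, a ≠ 1 → ∀ g, N.tl v g = 1 → w (g * a) = w g + c v a := by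
  obtain ⟨w, h1, h2⟩ := N.wt fun v a => c v a⁻¹
  refine ⟨fun g => w g⁻¹, by simpa using h1, fun v a ha ha1 g hg => ?_⟩
  simp only [mul_inv_rev]
  rw [h2 v _ (inv_mem ha) (inv_ne_one.2 ha1) _ (N.tl_eq_one.1 hg), inv_inv]

/-- The final syllables of a reduced product. -/
theorem tl_mul_ne_one {v : V} {a : W} (ha : a ∈ P v) (ha1 : a ≠ 1) {g : W} (hg : N.tl v g = 1)
    (u : V) : N.tl u (g * a) ≠ 1 ↔ u = v ∨ (Γ.Adj v u ∧ N.tl u g ≠ 1) := by
  have e : N.tl v (g * a) ≠ 1 := by rwa [N.tl_self ha, hg, one_mul]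
  constructor
  · intro h
    by_cases huv : u = v
    · exact Or.inl huv
    · have hadj := N.tl_clique (Ne.symm huv) e h
      exact Or.inr ⟨hadj, by rwa [N.tl_adj hadj ha] at h⟩
  · rintro (rfl | ⟨h1, h2⟩)
    · exact e
    · rwa [N.tl_adj h1 ha]

/-- A reduced product lies in a standard subgroup only if both factors do. -/
theorem mem_par_of_mul {T : Set V} {v : V} {a : W} (ha : a ∈ P v) (ha1 : a ≠ 1) {g : W}
    (hg : N.tl v g = 1) (h : g * a ∈ par P T) : v ∈ T ∧ g ∈ par P T := by
  classical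
  obtain ⟨w, h1, h2⟩ := N.wt_right fun v _ => if v ∈ T then 0 else 1
  have key : ∀ u ∈ T, ∀ b ∈ P u, ∀ x, N.tl u x = 1 → w (x * b) = w x := by
    intro u hu b hb x hx
    by_cases hb1 : b = 1
    · rw [hb1, mul_one]
    · rw [h2 u b hb hb1 x hx, if_pos hu, add_zero]
  have h0 : w (g * a) = 0 := by
    refine par_induction_right (p := fun x => w x = 0) h1 (fun x _ u hu b hb ih => ?_) h
    have e1 := key u hu _ (N.tl_mem u x) _ (N.tl_strip u x)
    have e2 := key u hu _ (mul_mem (N.tl_mem u x) hb) _ (N.tl_strip u x)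
    rw [inv_mul_cancel_right] at e1
    rw [← mul_assoc, inv_mul_cancel_right] at e2
    rw [e2, ← e1, ih]
  rw [h2 v a ha ha1 g hg] at h0
  have hv : v ∈ T := by
    by_contra hv
    rw [if_neg hv] at h0
    omega
  refine ⟨hv, ?_⟩
  have := mul_mem h (inv_mem (mem_par hv ha))
  rwa [mul_inv_cancel_right] at this

/-- Maps that preserve adjacency do not increase the gallery distance. -/
theorem len_le_of_adj {θ : W → W} (hθ : ∀ c c' v, c⁻¹ * c' ∈ P v → (θ c)⁻¹ * θ c' ∈ P v)
    (c d : W) : N.len ((θ c)⁻¹ * θ (c * d)) ≤ N.len d := by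
  refine N.ind_right (fun d => N.len ((θ c)⁻¹ * θ (c * d)) ≤ N.len d) (by simp [N.len_one]) ?_ d
  intro v a ha ha1 g hg ih
  have h1 := hθ (c * g) (c * (g * a)) v (by simpa [mul_assoc] using ha)
  have h2 := N.len_right_le h1 ((θ c)⁻¹ * θ (c * g))
  rw [mul_assoc, mul_inv_cancel_left] at h2
  rw [N.len_mul_right ha ha1 hg]
  omega

end NF

end Pool.Agent.MP_4f4d9f_gt

end

section

/-! Initial syllables in a graph product. -/

namespace Pool.Agent.MP_4f4d9f_gt

namespace GPHead

open Monoid Monoid.CoprodI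

section Free

variable {I A : Type} [Group A]

/-- The free product of copies of `A` indexed by `I`. -/
abbrev Fr (I A : Type) [Group A] := CoprodI (fun _ : I => A)

/-- The inclusion of the copy with index `i`. -/
def inc (i : I) : A →* Fr I A := CoprodI.of (M := fun _ : I => A) (i := i)

open Classical in
/-- The first letter of the reduced word if it has index `i`, and `1` otherwise. -/
noncomputable def head (i : I) (x : Fr I A) : A :=
  (Word.equivPair (M := fun _ : I => A) i (x • Word.empty)).head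

theorem head_inc_mul (i : I) (a : A) (x : Fr I A) : head i (inc i a * x) = a * head i x := by
  classical
  unfold head inc
  rw [mul_smul, Word.equivPair_smul_same]

theorem head_one (i : I) : head i (1 : Fr I A) = 1 := by
  classical
  unfold head
  rw [one_smul, Word.equivPair_eq_of_fstIdx_ne (by simp [Word.fstIdx, Word.empty])]

theorem head_ne {i k : I} (h : i ≠ k) {a : A} (ha : a ≠ 1) {x : Fr I A} (hx : head k x = 1) :
    head i (inc k a * x) = 1 := by
  classical
  unfold head inc at *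
  have e := Word.equivPair_head_smul_equivPair_tail (M := fun _ : I => A) (i := k)
    (x • Word.empty)
  rw [hx, map_one, one_smul] at e
  have hf : (x • (Word.empty : Word fun _ : I => A)).fstIdx ≠ some k :=
    e ▸ (Word.equivPair (M := fun _ : I => A) k (x • Word.empty)).fstIdx_ne
  rw [mul_smul, ← Word.cons_eq_smul (h1 := hf) (h2 := ha), Word.equivPair_eq_of_fstIdx_ne]
  rw [Word.fstIdx_cons]
  exact fun e => h (Option.some.inj e).symm

theorem ind {p : Fr I A → Prop} (one : p 1)
    (step : ∀ k a x, a ≠ 1 → head k x = 1 → p x → p (inc k a * x)) (x : Fr I A) : p x := by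
  classical
  obtain ⟨w, rfl⟩ : ∃ w : Word fun _ : I => A, w.prod = x :=
    ⟨Word.equiv x, Word.equiv.left_inv x⟩
  induction w using Word.consRecOn with
  | empty => exact one
  | cons k a w h1 h2 ih =>
    rw [Word.prod_cons]
    refine step k a _ h2 ?_ ih
    have e : w.prod • (Word.empty : Word fun _ : I => A) = w := Word.equiv.right_inv w
    unfold head
    rw [e, Word.equivPair_eq_of_fstIdx_ne h1]

theorem head_inc_ne {i k : I} (h : i ≠ k) (a : A) : head i (inc k a) = 1 := by
  by_cases ha : a = 1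
  · rw [ha, map_one, head_one]
  · simpa using head_ne h ha (head_one k)

theorem head_change (j : I) (a : A) (x : Fr I A) :
    ∀ i, head i (x * inc j a) ≠ head i x → j = i ∧ x = inc i (head i x) := by
  refine ind (p := fun x => ∀ i, head i (x * inc j a) ≠ head i x → j = i ∧ x = inc i (head i x))
    (fun i h => ?_) (fun k c x hc hx ih i h => ?_) x
  · rw [one_mul, head_one] at h
    refine ⟨?_, by rw [head_one, map_one]⟩
    by_contra hj
    exact h (head_inc_ne (Ne.symm hj) a)
  · by_cases hik : i = k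
    · subst hik
      rw [mul_assoc, head_inc_mul, head_inc_mul] at h
      obtain ⟨h₁, h₂⟩ := ih i fun e => h (by rw [e])
      rw [hx, map_one] at h₂
      refine ⟨h₁, ?_⟩
      rw [head_inc_mul, hx, h₂, mul_one, mul_one]
    · exfalso
      rw [head_ne hik hc hx, mul_assoc] at h
      by_cases e : head k (x * inc j a) = head k x
      · exact h (head_ne hik hc (e.trans hx))
      · obtain ⟨rfl, h₂⟩ := ih k e
        rw [hx, map_one] at h₂
        rw [h₂, one_mul, ← map_mul] at h
        exact h (head_inc_ne hik _)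

theorem hom_ext {N : Type} [Monoid N] {f g : Fr I A →* N} (h : ∀ i a, f (inc i a) = g (inc i a)) :
    f = g := CoprodI.ext_hom f g fun i => MonoidHom.ext (h i)

variable {W : Type} [Group W] [MulAction W I]

/-- Reindexing along the action. -/
def re (w : W) : Fr I A →* Fr I A := CoprodI.lift fun i => inc (w • i)

theorem re_inc (w : W) (i : I) (a : A) : re w (inc i a) = inc (w • i) a :=
  CoprodI.lift_of (M := fun _ : I => A) _ a

theorem re_one (x : Fr I A) : re (1 : W) x = x :=
  DFunLike.congr_fun (hom_ext (f := re (1 : W)) (g := MonoidHom.id _) fun i a => by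
    simp [re_inc]) x

theorem re_mul (w w' : W) (x : Fr I A) : re (w * w') x = re w (re w' x) :=
  DFunLike.congr_fun (hom_ext (f := re (w * w')) (g := (re w).comp (re w')) fun i a => by
    simp [re_inc, mul_smul]) x

/-- The action by reindexing automorphisms. -/
def act : W →* MulAut (Fr I A) where
  toFun w :=
    { toFun := re w
      invFun := re w⁻¹
      left_inv := fun x => by rw [← re_mul, inv_mul_cancel, re_one]
      right_inv := fun x => by rw [← re_mul, mul_inv_cancel, re_one]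
      map_mul' := map_mul _ }
  map_one' := MulEquiv.ext re_one
  map_mul' w w' := MulEquiv.ext (re_mul w w')

theorem act_apply (w : W) (x : Fr I A) : (act w : MulAut (Fr I A)) x = re w x := rfl

theorem head_re (w : W) (x : Fr I A) : ∀ i, head (w • i) (re w x) = head i x := by
  refine ind (p := fun x => ∀ i, head (w • i) (re w x) = head i x) (fun i => ?_)
    (fun k c x hc hx ih i => ?_) x
  · rw [map_one, head_one, head_one]
  · rw [map_mul, re_inc]
    by_cases hik : i = k
    · subst hik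
      rw [head_inc_mul, head_inc_mul, ih]
    · rw [head_ne hik hc hx, head_ne (fun e => hik (MulAction.injective w e)) hc ((ih k).trans hx)]

end Free

variable {V W : Type} [Group W] {Γ : SimpleGraph V} {P : V → Subgroup W}

theorem le_par {T : Set V} {u : V} (hu : u ∈ T) : P u ≤ par P T :=
  le_iSup₂_of_le (f := fun v (_ : v ∈ T) => P v) u hu le_rfl

theorem par_comm (hP : IsGraphProd Γ P) (v : V) {l a : W} (hl : l ∈ par P (Γ.neighborSet v))
    (ha : a ∈ P v) : l * a = a * l := by
  have : par P (Γ.neighborSet v) ≤ Subgroup.centralizer (P v : Set W) :=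
    iSup₂_le fun u hu b hb => Subgroup.mem_centralizer_iff.2 fun c hc => hP.comm v u hu c hc b hb
  exact (Subgroup.mem_centralizer_iff.1 (this hl) a ha).symm

theorem exists_one (hP : IsGraphProd Γ P) (v : V) : ∃ h : W → W, (∀ g, h g ∈ P v) ∧ h 1 = 1 ∧
    (∀ a ∈ P v, ∀ g, h (a * g) = a * h g) ∧
    (∀ u, Γ.Adj u v → ∀ b ∈ P u, ∀ g, h (b * g) = h g) ∧
    (∀ u, u ≠ v → ∀ b ∈ P u, ∀ g, h (g * b) = h g) ∧
    ∀ a ∈ P v, ∀ g, h (g * a) ≠ h g → (h g)⁻¹ * g ∈ par P (Γ.neighborSet v) := by
  classical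
  set L := par P (Γ.neighborSet v) with hL
  let o : W ⧸ L := ((1 : W) : W ⧸ L)
  have ho : ∀ w : W, w • o = o ↔ w ∈ L := fun w => by
    change ((w * 1 : W) : W ⧸ L) = ((1 : W) : W ⧸ L) ↔ _
    rw [QuotientGroup.eq]
    simp
  let T := SemidirectProduct (Fr (W ⧸ L) (P v)) W act
  let f : ∀ u, P u →* T := fun u =>
    if h : u = v then (SemidirectProduct.inl.comp (inc o)).comp (Subgroup.inclusion (h ▸ le_rfl))
    else SemidirectProduct.inr.comp (P u).subtype
  have f₁ : ∀ a : P v, f v a = SemidirectProduct.inl (inc o a) := fun a => by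
    simp only [f, dif_pos rfl]; rfl
  have f₂ : ∀ u, u ≠ v → ∀ b : P u, f u b = SemidirectProduct.inr b.1 := fun u hu b => by
    simp only [f, dif_neg hu]; rfl
  have key : ∀ u, Γ.Adj v u → ∀ (a : P v) (b : P u), f v a * f u b = f u b * f v a := by
    intro u h a b
    rw [f₁, f₂ u h.ne']
    have e := SemidirectProduct.inl_aut (φ := act) b.1 (inc o a)
    rw [act_apply, re_inc, (ho _).2 (le_par (T := Γ.neighborSet v) h b.2)] at e
    conv_lhs => rw [e]
    rw [map_inv, inv_mul_cancel_right]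
  obtain ⟨F, hF⟩ := hP.lift T f fun u u' h a b => by
    by_cases hu : u = v
    · subst hu
      exact key u' h a b
    · by_cases hu' : u' = v
      · subst hu'
        exact (key u h.symm b a).symm
      · rw [f₂ u hu, f₂ u' hu', ← map_mul, ← map_mul, hP.comm u u' h a a.2 b b.2]
  have F₁ : ∀ a (ha : a ∈ P v), F a = SemidirectProduct.inl (inc o ⟨a, ha⟩) := fun a ha =>
    (hF v ⟨a, ha⟩).trans (f₁ _)
  have F₂ : ∀ u, u ≠ v → ∀ b ∈ P u, F b = SemidirectProduct.inr b := fun u hu b hb =>
    (hF u ⟨b, hb⟩).trans (f₂ u hu _)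
  let ψ : Fr (W ⧸ L) (P v) →* W :=
    CoprodI.lift fun i => (MulAut.conj i.out).toMonoidHom.comp (P v).subtype
  have ψ₁ : ∀ (c : W) (a : P v), ψ (inc (c : W ⧸ L) a) = c * a * c⁻¹ := fun c a => by
    have e : ψ (inc (c : W ⧸ L) a) = (c : W ⧸ L).out * a * (c : W ⧸ L).out⁻¹ :=
      CoprodI.lift_of (M := fun _ : W ⧸ L => P v) _ a
    obtain ⟨l, hl⟩ := QuotientGroup.mk_out_eq_mul L c
    rw [e, hl, mul_assoc c, par_comm hP v l.2 a.2]
    group
  have ψ₂ : ∀ (w : W) (x : Fr (W ⧸ L) (P v)), ψ (re w x) = w * ψ x * w⁻¹ := fun w x =>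
    DFunLike.congr_fun (hom_ext (f := ψ.comp (re w)) (g := (MulAut.conj w).toMonoidHom.comp ψ)
      fun i a => by
        obtain ⟨c, rfl⟩ := QuotientGroup.mk_surjective i
        have e : w • (c : W ⧸ L) = ((w * c : W) : W ⧸ L) := rfl
        simp only [MonoidHom.comp_apply, re_inc, e, ψ₁, MulEquiv.coe_toMonoidHom, MulAut.conj_apply]
        group) x
  have dec : ∀ g, ψ (F g).left * (F g).right = g := fun g => by
    refine Subgroup.iSup_induction P (C := fun g => ψ (F g).left * (F g).right = g)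
      (hP.gen ▸ Subgroup.mem_top g) (fun u x hx => ?_) (by simp) fun x y hx hy => ?_
    · by_cases hu : u = v
      · subst hu
        rw [F₁ x hx]
        simpa using ψ₁ 1 ⟨x, hx⟩
      · rw [F₂ u hu x hx]
        simp
    · rw [map_mul, SemidirectProduct.mul_left, SemidirectProduct.mul_right, map_mul, act_apply, ψ₂]
      conv_rhs => rw [← hx, ← hy]
      group
  refine ⟨fun g => ((head o (F g).left : P v) : W), fun g => Subtype.prop _, ?_, fun a ha g => ?_,
    fun u hu b hb g => ?_, fun u hu b hb g => ?_, fun a ha g h => ?_⟩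
  · simp [head_one]
  · have e : (F (a * g)).left = inc o ⟨a, ha⟩ * (F g).left := by
      rw [map_mul, SemidirectProduct.mul_left, F₁ a ha]
      simp
    dsimp only
    rw [e, head_inc_mul]
    rfl
  · have e := head_re b (F g).left o
    rw [(ho _).2 (le_par (T := Γ.neighborSet v) hu.symm hb)] at e
    have e' : (F (b * g)).left = re b (F g).left := by
      rw [map_mul, SemidirectProduct.mul_left, F₂ u hu.ne b hb]
      simp [act_apply]
    dsimp only
    rw [e', e]
  · have e : (F (g * b)).left = (F g).left := by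
      rw [map_mul, SemidirectProduct.mul_left, F₂ u hu b hb]
      simp
    dsimp only
    rw [e]
  · have e : (F (g * a)).left = (F g).left * inc ((F g).right • o) ⟨a, ha⟩ := by
      rw [map_mul, SemidirectProduct.mul_left, F₁ a ha, act_apply, SemidirectProduct.left_inl,
        re_inc]
    dsimp only at h ⊢
    rw [e] at h
    obtain ⟨h₁, h₂⟩ := head_change _ _ _ o fun e => h (congrArg _ e)
    have e' := dec g
    rw [h₂] at e'
    have e'' := ψ₁ 1 (head o (F g).left)
    rw [one_mul, inv_one, mul_one] at e''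
    rw [show inc o (head o (F g).left) = inc ((1 : W) : W ⧸ L) (head o (F g).left) from rfl,
      e''] at e'
    rw [← eq_inv_mul_iff_mul_eq.2 e']
    exact (ho _).1 h₁

end GPHead

theorem exists_hd {V W : Type} [Group W] {Γ : SimpleGraph V} {P : V → Subgroup W}
    (hP : IsGraphProd Γ P) : ∃ hd : V → W → W, HdSpec Γ P hd := by
  choose hd h₁ h₂ h₃ h₄ h₅ h₆ using GPHead.exists_one hP
  have far : ∀ u v, u ≠ v → ¬ Γ.Adj u v → ∀ b ∈ P u, ∀ g, hd u (g * b) ≠ hd u g →
      hd v g = 1 := by
    intro u v huv hn b hb g h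
    let K : Subgroup W :=
      { carrier := {x | ∀ g, hd v (g * x) = hd v g}
        mul_mem' := fun {x y} hx hy g => by rw [← mul_assoc, hy, hx]
        one_mem' := fun g => by rw [mul_one]
        inv_mem' := fun {x} hx g => by rw [← hx, inv_mul_cancel_right] }
    have hK : par P (Γ.neighborSet u) ≤ K :=
      iSup₂_le fun w hw x hx g => h₅ v w (fun e => hn (e ▸ hw)) x hx g
    have e := hK (h₆ u b hb g h) (1 * hd u g)
    rw [h₅ v u huv _ (h₁ u g), h₂] at e
    simpa using e
  refine ⟨hd, h₁, h₂, h₃, fun u v => h₄ v u, fun u v => h₅ v u, h₆, fun u v g huv hu hv => ?_⟩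
  by_contra hn
  have key : ∀ x, ∀ g, (hd u g = 1 ∨ hd v g = 1) → (hd u (g * x) = 1 ∨ hd v (g * x) = 1) := by
    intro x
    refine Subgroup.iSup_induction P (C := fun x => ∀ g, (hd u g = 1 ∨ hd v g = 1) →
      (hd u (g * x) = 1 ∨ hd v (g * x) = 1)) (hP.gen ▸ Subgroup.mem_top x)
      (fun w x hx g hg => ?_) (fun g hg => by rwa [mul_one]) fun x y hx hy g hg => ?_
    · by_cases hwu : w = u
      · subst hwu
        rw [h₅ v w huv x hx]
        by_cases e : hd w (g * x) = hd w g
        · rwa [e]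
        · exact Or.inr (far w v huv hn x hx g e)
      · rw [h₅ u w hwu x hx]
        by_cases hwv : w = v
        · subst hwv
          by_cases e : hd w (g * x) = hd w g
          · rwa [e]
          · exact Or.inl (far w u hwu (fun h => hn h.symm) x hx g e)
        · rwa [h₅ v w hwv x hx]
    · rw [← mul_assoc]
      exact hy _ (hx g hg)
  have := key g 1 (Or.inl (h₂ u))
  rw [one_mul] at this
  exact this.elim hu hv

end Pool.Agent.MP_4f4d9f_gt

end

section

/-! Existence of normal form data and of graph products. -/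

namespace Pool.Agent.MP_4f4d9f_gt

variable {V W : Type} [Group W] {Γ : SimpleGraph V} {P : V → Subgroup W}

theorem exists_pi (hP : IsGraphProd Γ P) (v : V) : ∃ r : W →* W, (∀ g, r g ∈ P v) ∧
    (∀ a ∈ P v, r a = a) ∧ ∀ u, u ≠ v → ∀ a ∈ P u, r a = 1 := by
  classical
  obtain ⟨r, hr⟩ := hP.lift W (fun u => if u = v then (P u).subtype else 1) (by
    intro u u' h a b
    by_cases e : u = v
    · have e' : u' ≠ v := fun e' => h.ne (e.trans e'.symm)
      simp [e']
    · simp [e])
  have h1 : ∀ a ∈ P v, r a = a := fun a ha => by simpa using hr v ⟨a, ha⟩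
  have h2 : ∀ u, u ≠ v → ∀ a ∈ P u, r a = 1 := fun u hu a ha => by simpa [hu] using hr u ⟨a, ha⟩
  refine ⟨r, fun g => hP.induction_right (p := fun g => r g ∈ P v) (by simp) ?_ g, h1, h2⟩
  intro g u a ha ih
  rw [map_mul]
  refine mul_mem ih ?_
  by_cases e : u = v
  · subst e
    rwa [h1 a ha]
  · rw [h2 u e a ha]
    exact one_mem _

/-- Reduced factorisations with their weights. -/
inductive Red (P : V → Subgroup W) (hd : V → W → W) (c : V → W → ℕ) : ℕ → W → Prop
  | one : Red P hd c 0 1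
  | mul {n : ℕ} {g : W} (v : V) (a : W) : a ∈ P v → a ≠ 1 → hd v g = 1 → Red P hd c n g →
      Red P hd c (n + c v a) (a * g)

section Red

variable {hd : V → W → W} {c : V → W → ℕ}

theorem Red.strip (hP : IsGraphProd Γ P) (hh : HdSpec Γ P hd) {n : ℕ} {g : W}
    (h : Red P hd c n g) {v : V} (hv : hd v g ≠ 1) :
    ∃ m, n = m + c v (hd v g) ∧ Red P hd c m ((hd v g)⁻¹ * g) := by
  induction h with
  | one => exact absurd (hh.one v) hv
  | @mul n g u a ha ha1 hg hr ih =>
    have e : hd u (a * g) = a := by rw [hh.self u a ha, hg, mul_one]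
    by_cases huv : u = v
    · subst huv
      exact ⟨n, by rw [e], by rwa [e, inv_mul_cancel_left]⟩
    have hadj : Γ.Adj u v := hh.clique u v _ huv (by rwa [e]) hv
    rw [hh.adj u v hadj a ha] at hv ⊢
    obtain ⟨m, hm, hr'⟩ := ih hv
    refine ⟨m + c u a, by omega, ?_⟩
    rw [← mul_assoc, ← hP.comm u v hadj a ha _ (inv_mem (hh.mem v g)), mul_assoc]
    refine Red.mul u a ha ha1 ?_ hr'
    rw [hh.adj v u hadj.symm _ (inv_mem (hh.mem v g)), hg]

theorem Red.exists (hP : IsGraphProd Γ P) (hh : HdSpec Γ P hd) (c : V → W → ℕ) (g : W) :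
    ∃ n, Red P hd c n g := by
  refine hP.induction_left (p := fun g => ∃ n, Red P hd c n g) ⟨0, Red.one⟩ ?_ g
  rintro g v a ha ⟨n, hn⟩
  obtain ⟨m, hm⟩ : ∃ m, Red P hd c m ((hd v g)⁻¹ * g) := by
    by_cases h : hd v g = 1
    · exact ⟨n, by rwa [h, inv_one, one_mul]⟩
    · obtain ⟨m, -, hm⟩ := hn.strip hP hh h
      exact ⟨m, hm⟩
  have e : a * g = a * hd v g * ((hd v g)⁻¹ * g) := by group
  rw [e]
  by_cases h : a * hd v g = 1
  · exact ⟨m, by rwa [h, one_mul]⟩
  · refine ⟨_, Red.mul v _ (mul_mem ha (hh.mem v g)) h ?_ hm⟩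
    rw [hh.self v _ (inv_mem (hh.mem v g)), inv_mul_cancel]

theorem Red.unique (hP : IsGraphProd Γ P) (hh : HdSpec Γ P hd) {n m : ℕ} {g : W}
    (h : Red P hd c n g) (h' : Red P hd c m g) : n = m := by
  induction h generalizing m with
  | one =>
    generalize e : (1 : W) = x at h'
    cases h' with
    | one => rfl
    | @mul n g u a ha ha1 hg hr =>
      have := hh.self u a ha g
      rw [← e, hh.one, hg, mul_one] at this
      exact absurd this.symm ha1
  | @mul n g u a ha ha1 hg hr ih =>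
    have e : hd u (a * g) = a := by rw [hh.self u a ha, hg, mul_one]
    obtain ⟨m', hm, hr'⟩ := h'.strip hP hh (v := u) (by rwa [e])
    rw [e] at hm hr'
    rw [inv_mul_cancel_left] at hr'
    rw [hm, ih hr']

theorem exists_wt (hP : IsGraphProd Γ P) (hh : HdSpec Γ P hd) (c : V → W → ℕ) :
    ∃ w : W → ℕ, w 1 = 0 ∧
      ∀ v, ∀ a ∈ P v, a ≠ 1 → ∀ g, hd v g = 1 → w (a * g) = w g + c v a := by
  choose w hw using Red.exists hP hh c
  exact ⟨w, (hw 1).unique hP hh Red.one, fun v a ha ha1 g hg =>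
    (hw _).unique hP hh (Red.mul v a ha ha1 hg (hw g))⟩

theorem hd_ind (hP : IsGraphProd Γ P) (hh : HdSpec Γ P hd) (p : W → Prop) (h1 : p 1)
    (hs : ∀ v, ∀ a ∈ P v, a ≠ 1 → ∀ g, hd v g = 1 → p g → p (a * g)) (g : W) : p g := by
  obtain ⟨n, hn⟩ := Red.exists hP hh (fun _ _ => 0) g
  induction hn with
  | one => exact h1
  | mul v a ha ha1 hg _ ih => exact hs v a ha ha1 _ hg ih

end Red

theorem nonempty_NF (hP : IsGraphProd Γ P) : Nonempty (NF Γ P) := by
  obtain ⟨hd, hh⟩ := exists_hd hP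
  choose pi h1 h2 h3 using exists_pi hP
  obtain ⟨len, l1, l2⟩ := exists_wt hP hh fun _ _ => 1
  have strip : ∀ v g, len ((hd v g)⁻¹ * g) ≤ len g := fun v g => by
    by_cases h : hd v g = 1
    · rw [h, inv_one, one_mul]
    · have := l2 v _ (hh.mem v g) h ((hd v g)⁻¹ * g) (by
        rw [hh.self v _ (inv_mem (hh.mem v g)), inv_mul_cancel])
      rw [mul_inv_cancel_left] at this
      omega
  have left : ∀ v, ∀ a ∈ P v, ∀ g, len (a * g) ≤ len g + 1 := fun v a ha g => by
    have h2 := strip v g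
    by_cases h : a * hd v g = 1
    · rw [eq_inv_of_mul_eq_one_left h]
      omega
    · have := l2 v _ (mul_mem ha (hh.mem v g)) h ((hd v g)⁻¹ * g) (by
        rw [hh.self v _ (inv_mem (hh.mem v g)), inv_mul_cancel])
      rw [mul_assoc, mul_inv_cancel_left] at this
      omega
  have sub : ∀ g h, len (g * h) ≤ len g + len h := fun g h =>
    hd_ind hP hh (fun g => len (g * h) ≤ len g + len h) (by simp) (fun v a ha ha1 g hg ih => by
      have := left v a ha (g * h)
      rw [mul_assoc, l2 v a ha ha1 g hg]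
      omega) g
  have inv : ∀ g, len g⁻¹ ≤ len g := hd_ind hP hh (fun g => len g⁻¹ ≤ len g) (by simp)
    fun v a ha ha1 g hg ih => by
      have h1 := sub g⁻¹ a⁻¹
      have h2 := left v _ (inv_mem ha) 1
      rw [mul_one, l1] at h2
      rw [mul_inv_rev, l2 v a ha ha1 g hg]
      omega
  exact ⟨{
    gp := hP
    pi := pi
    pi_mem := h1
    pi_self := h2
    pi_ne := fun u v h => h3 v u h
    hd := hd
    spec := hh
    len := len
    len_one := l1
    len_inv := fun g => le_antisymm (inv g) (by simpa using inv g⁻¹)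
    len_mul := l2
    ind := hd_ind hP hh
    wt := exists_wt hP hh }⟩

/-- Every family of groups has a graph product. -/
theorem exists_graphProd (Γ : SimpleGraph V) (A : V → Type) [∀ v, Group (A v)] :
    ∃ (W : Type) (_ : Group W) (P : V → Subgroup W), IsGraphProd Γ P ∧
      ∀ v, Nonempty (A v ≃* P v) := by
  classical
  let Rl : Subgroup (Monoid.CoprodI A) := Subgroup.normalClosure
    {w | ∃ (u v : V) (a : A u) (b : A v), Γ.Adj u v ∧
      w = Monoid.CoprodI.of a * Monoid.CoprodI.of b * (Monoid.CoprodI.of b * Monoid.CoprodI.of a)⁻¹}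
  haveI : Rl.Normal := Subgroup.normalClosure_normal
  let o (v : V) : A v →* Monoid.CoprodI A ⧸ Rl := (QuotientGroup.mk' Rl).comp Monoid.CoprodI.of
  have lift : ∀ (T : Type) [Group T] (f : ∀ v, A v →* T),
      (∀ u v, Γ.Adj u v → ∀ a b, f u a * f v b = f v b * f u a) →
      ∃ F : Monoid.CoprodI A ⧸ Rl →* T, ∀ v a, F (o v a) = f v a := by
    intro T _ f hf
    have hle : Rl ≤ (Monoid.CoprodI.lift f).ker := by
      refine Subgroup.normalClosure_le_normal ?_
      rintro _ ⟨u, v, a, b, h, rfl⟩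
      simp [hf u v h a b]
    exact ⟨QuotientGroup.lift Rl (Monoid.CoprodI.lift f) hle, fun v a =>
      (QuotientGroup.lift_mk Rl hle _).trans (Monoid.CoprodI.lift_of _ _)⟩
  have inj : ∀ v, Function.Injective (o v) := by
    intro v
    obtain ⟨F, hF⟩ := lift (∀ u, A u) (fun u => MonoidHom.mulSingle A u) fun u u' h a b =>
      (Pi.mulSingle_commute h.ne a b).eq
    intro a b e
    have := congrArg F e
    rw [hF, hF] at this
    exact Pi.mulSingle_injective v this
  refine ⟨Monoid.CoprodI A ⧸ Rl, inferInstance, fun v => (o v).range, ⟨?_, ?_, ?_⟩,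
    fun v => ⟨MonoidHom.ofInjective (inj v)⟩⟩
  · rintro u v h _ ⟨a, rfl⟩ _ ⟨b, rfl⟩
    rw [← mul_inv_eq_one]
    change QuotientGroup.mk' Rl _ * QuotientGroup.mk' Rl _ *
      (QuotientGroup.mk' Rl _ * QuotientGroup.mk' Rl _)⁻¹ = 1
    rw [← map_mul, ← map_mul, ← map_inv, ← map_mul, QuotientGroup.mk'_apply,
      QuotientGroup.eq_one_iff]
    exact Subgroup.subset_normalClosure ⟨u, v, a, b, h, rfl⟩
  · rw [eq_top_iff]
    intro x hx
    clear hx
    obtain ⟨x, rfl⟩ := QuotientGroup.mk'_surjective Rl x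
    induction x using Monoid.CoprodI.induction_on with
    | one => simp
    | of v a => exact (le_iSup (fun v => (o v).range) v) ⟨a, rfl⟩
    | mul x y hx hy =>
      rw [map_mul]
      exact mul_mem hx hy
  · intro T _ f hf
    obtain ⟨F, hF⟩ := lift T (fun v => (f v).comp (o v).rangeRestrict) fun u v h a b =>
      hf u v h _ _
    refine ⟨F, ?_⟩
    rintro v ⟨_, a, rfl⟩
    exact hF v a

end Pool.Agent.MP_4f4d9f_gt

end
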