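import Pool.Agent.MP_4f4d9f_gt.Sg.Defs
import Pool.Agent.Mg.F4f4d9fr.G93bd78

set_option linter.all false

section

/-! Closure properties of the Følner condition and of local indicability. -/

namespace Pool.Agent.MP_4f4d9f_gt.Sg.GP

open Finset

section Fol

theorem folner_iff {G : Type} [Group G] [DecidableEq G] : Folner G G ↔
    ∀ (S : Finset G) (ε : ℝ), 0 < ε → ∃ F : Finset G, F.Nonempty ∧
      ∀ s ∈ S, ((F.filter fun q => s * q ∉ F).card : ℝ) ≤ ε * F.card := by
  have e : ∀ (F : Finset G) (s : G), ({q ∈ F | s • q ∉ F} : Set G).ncard =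
      (F.filter fun q => s * q ∉ F).card := fun F s => by
    rw [← Set.ncard_coe_finset]
    congr 1
    ext
    simp
  simp only [Folner, e]

theorem folner_of_finite (G : Type) [Group G] [Finite G] : Folner G G := by
  classical
  have := Fintype.ofFinite G
  refine folner_iff.2 fun S ε hε => ⟨univ, univ_nonempty, fun s _ => ?_⟩
  have : (univ.filter fun q => s * q ∉ (univ : Finset G)) = ∅ := by simp
  rw [this, card_empty, Nat.cast_zero]
  positivity

/-- The Følner condition is local. -/
theorem folner_of_local {G : Type} [Group G]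
    (h : ∀ S : Finset G, ∃ (H : Type) (_ : Group H) (j : H →* G), Function.Injective j ∧
      (∀ s ∈ S, s ∈ j.range) ∧ Folner H H) : Folner G G := by
  classical
  refine folner_iff.2 fun S ε hε => ?_
  obtain ⟨H, _, j, hj, hS, hH⟩ := h S
  obtain ⟨F, hF, hb⟩ := folner_iff.1 hH (S.preimage j hj.injOn) ε hε
  refine ⟨F.image j, hF.image _, fun s hs => ?_⟩
  obtain ⟨t, rfl⟩ := hS s hs
  rw [filter_image, card_image_of_injective _ hj, card_image_of_injective _ hj]
  refine le_trans (le_of_eq ?_) (hb t (mem_preimage.2 hs))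
  congr 2
  ext q
  rw [mem_filter, mem_filter, ← map_mul, hj.mem_finset_image]

theorem folner_int : Folner (Multiplicative ℤ) (Multiplicative ℤ) := by
  classical
  refine folner_iff.2 fun S ε hε => ?_
  obtain ⟨m, hm⟩ : ∃ m : ℕ, ∀ s ∈ S, s.toAdd.natAbs ≤ m :=
    ⟨S.sup fun s => s.toAdd.natAbs, fun s hs => le_sup (f := fun s => s.toAdd.natAbs) hs⟩
  obtain ⟨n, hn⟩ := exists_nat_gt (2 * m / ε)
  have hn0 : 0 < n := by
    have : (0 : ℝ) ≤ 2 * m / ε := by positivity
    exact_mod_cast this.trans_lt hn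
  have inj : Function.Injective (Multiplicative.ofAdd : ℤ → Multiplicative ℤ) :=
    Multiplicative.ofAdd.injective
  refine ⟨(Ico (0 : ℤ) n).image Multiplicative.ofAdd,
    Nonempty.image ⟨0, mem_Ico.2 ⟨le_rfl, by exact_mod_cast hn0⟩⟩ _, fun s hs => ?_⟩
  rw [filter_image, card_image_of_injective _ inj, card_image_of_injective _ inj]
  have h1 : ((Ico (0 : ℤ) n).filter fun a => s * Multiplicative.ofAdd a ∉
      (Ico (0 : ℤ) n).image Multiplicative.ofAdd) ⊆ Ico (0 : ℤ) m ∪ Ico ((n : ℤ) - m) n := by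
    intro a ha
    obtain ⟨h1, h2⟩ := mem_filter.1 ha
    rw [← ofAdd_toAdd s, ← ofAdd_add, inj.mem_finset_image] at h2
    have := hm s hs
    simp only [mem_union, mem_Ico] at h1 h2 ⊢
    omega
  have h2 := (card_le_card h1).trans (card_union_le _ _)
  simp only [Int.card_Ico, sub_zero, Int.toNat_natCast, sub_sub_cancel] at h2 ⊢
  rw [div_lt_iff₀ hε] at hn
  have h3 : (((Ico (0 : ℤ) n).filter fun a => s * Multiplicative.ofAdd a ∉
      (Ico (0 : ℤ) n).image Multiplicative.ofAdd).card : ℝ) ≤ m + m := by exact_mod_cast h2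
  linarith

theorem folner_zpowers {G : Type} [Group G] (s : G) :
    Folner (Subgroup.zpowers s) (Subgroup.zpowers s) := by
  rcases finite_or_infinite (Subgroup.zpowers s) with h | h
  · exact folner_of_finite _
  · obtain ⟨g, hg⟩ := IsCyclic.exists_generator (α := Subgroup.zpowers s)
    have e := intEquivOfZPowersEqTop g ((Subgroup.eq_top_iff' _).2 hg)
    exact folner_of_local fun S => ⟨_, _, e.toMonoidHom, e.injective,
      fun s _ => e.surjective s, folner_int⟩

/-- The Følner condition is closed under extensions. -/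
theorem folner_ext {G Q : Type} [Group G] [Group Q] (φ : G →* Q) (hφ : Function.Surjective φ)
    (hQ : Folner Q Q) (hK : Folner φ.ker φ.ker) : Folner G G := by
  classical
  obtain ⟨σ, hσ⟩ := hφ.hasRightInverse
  refine folner_iff.2 fun S ε hε => ?_
  obtain ⟨A, hA, hA'⟩ := folner_iff.1 hQ (S.image φ) (ε / 2) (by positivity)
  let t : G → Q → φ.ker := fun s q => ⟨(σ (φ s * q))⁻¹ * s * σ q, by
    simp [MonoidHom.mem_ker, hσ _]⟩
  obtain ⟨B, hB, hB'⟩ := folner_iff.1 hK ((S ×ˢ A).image fun p => t p.1 p.2) (ε / 2)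
    (by positivity)
  let e : Q × φ.ker → G := fun p => σ p.1 * p.2
  have he : Function.Injective e := by
    rintro ⟨q, b⟩ ⟨q', b'⟩ h
    have h1 : q = q' := by
      have := congrArg φ h
      simpa [e, hσ _, MonoidHom.mem_ker.1 b.2, MonoidHom.mem_ker.1 b'.2] using this
    subst h1
    exact Prod.ext rfl (Subtype.ext (mul_left_cancel h))
  have hm : ∀ s q b, s * e (q, b) = e (φ s * q, t s q * b) := fun s q b => by
    simp [e, t, mul_assoc]
  refine ⟨(A ×ˢ B).image e, (hA.product hB).image _, fun s hs => ?_⟩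
  rw [filter_image, card_image_of_injective _ he, card_image_of_injective _ he, card_filter,
    sum_product, card_product]
  have h1 : ∀ q ∈ A, ((∑ b ∈ B, if s * e (q, b) ∉ (A ×ˢ B).image e then 1 else 0 : ℕ) : ℝ) ≤
      (if φ s * q ∉ A then 1 else 0 : ℕ) * B.card + ε / 2 * B.card := fun q hq => by
    rw [← card_filter]
    by_cases h : φ s * q ∈ A
    · rw [if_neg (not_not.2 h), Nat.cast_zero, zero_mul, zero_add]
      refine le_trans (le_of_eq ?_) (hB' (t s q) (mem_image.2 ⟨(s, q), mem_product.2 ⟨hs, hq⟩, rfl⟩))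
      congr 2
      ext b
      rw [mem_filter, mem_filter, hm, he.mem_finset_image, mem_product]
      simp [h]
    · rw [if_pos h, Nat.cast_one, one_mul]
      have : ((B.filter fun b => s * e (q, b) ∉ (A ×ˢ B).image e).card : ℝ) ≤ B.card := by
        exact_mod_cast card_filter_le _ _
      have h2 : 0 ≤ ε / 2 * B.card := by positivity
      linarith
  rw [Nat.cast_sum]
  refine (sum_le_sum h1).trans ?_
  rw [sum_add_distrib, ← sum_mul, ← Nat.cast_sum, ← card_filter, sum_const, nsmul_eq_mul,
    Nat.cast_mul]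
  have h2 := mul_le_mul_of_nonneg_right (hA' _ (mem_image_of_mem φ hs)) (Nat.cast_nonneg B.card)
  nlinarith

theorem folner_of_comm {G : Type} [Group G] (hc : ∀ a b : G, a * b = b * a) : Folner G G := by
  classical
  have key : ∀ (n : ℕ) (G : Type) [Group G], (∀ a b : G, a * b = b * a) → ∀ S : Finset G,
      S.card ≤ n → Subgroup.closure (S : Set G) = ⊤ → Folner G G := by
    intro n
    induction n with
    | zero =>
      intro G _ _ S h1 h2
      rw [Nat.le_zero, card_eq_zero] at h1
      rw [h1, coe_empty, Subgroup.closure_empty] at h2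
      have : Subsingleton G := Subgroup.subsingleton_iff.1 (subsingleton_of_bot_eq_top h2)
      exact folner_of_finite G
    | succ n ih =>
      intro G _ hc S h1 h2
      rcases S.eq_empty_or_nonempty with h | ⟨s, hs⟩
      · exact ih G hc S (by simp [h]) h2
      have : (Subgroup.zpowers s).Normal := ⟨fun a ha g => by rwa [hc g, mul_inv_cancel_right]⟩
      refine folner_ext (QuotientGroup.mk' (Subgroup.zpowers s)) (QuotientGroup.mk'_surjective _)
        (ih _ ?_ ((S.erase s).image (QuotientGroup.mk' _)) ?_ ?_) ?_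
      · intro a b
        obtain ⟨a, rfl⟩ := QuotientGroup.mk'_surjective _ a
        obtain ⟨b, rfl⟩ := QuotientGroup.mk'_surjective _ b
        rw [← map_mul, hc, map_mul]
      · have := card_erase_of_mem hs
        exact card_image_le.trans (by omega)
      · have h3 := congrArg (Subgroup.map (QuotientGroup.mk' (Subgroup.zpowers s))) h2
        rw [MonoidHom.map_closure, Subgroup.map_top_of_surjective _
          (QuotientGroup.mk'_surjective _)] at h3
        rw [eq_top_iff, ← h3, Subgroup.closure_le]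
        rintro _ ⟨x, hx, rfl⟩
        by_cases e : x = s
        · rw [e, QuotientGroup.mk'_apply, (QuotientGroup.eq_one_iff s).2 (Subgroup.mem_zpowers s)]
          exact one_mem _
        · exact Subgroup.subset_closure (mem_coe.2 (mem_image_of_mem _ (mem_erase.2 ⟨e, hx⟩)))
      · rw [QuotientGroup.ker_mk']
        exact folner_zpowers s
  refine folner_of_local fun S => ⟨Subgroup.closure (S : Set G), inferInstance,
    Subgroup.subtype _, Subgroup.subtype_injective _, fun s hs => ?_, ?_⟩
  · rw [Subgroup.range_subtype]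
    exact Subgroup.subset_closure hs
  · refine key _ _ (fun a b => Subtype.ext (hc _ _))
      (S.preimage Subtype.val Subtype.val_injective.injOn) le_rfl ?_
    rw [coe_preimage]
    exact Subgroup.closure_closure_coe_preimage

end Fol

section Ind

theorem fg_map {G Q : Type} [Group G] [Group Q] (φ : G →* Q) {K : Subgroup G} (hK : K.FG) :
    (K.map φ).FG := by
  classical
  obtain ⟨S, hS⟩ := hK
  exact ⟨S.image φ, by rw [coe_image, ← MonoidHom.map_closure, hS]⟩

theorem onto_of_map {G Q : Type} [Group G] [Group Q] (hQ : LocInd Q) (φ : G →* Q)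
    {K : Subgroup G} (hK : K.FG) {g : G} (hg : g ∈ K) (h : φ g ≠ 1) :
    ∃ χ : K →* Multiplicative ℤ, Function.Surjective χ := by
  obtain ⟨χ, hχ⟩ := hQ (K.map φ) (fg_map φ hK)
    fun e => h (Subgroup.mem_bot.1 (e ▸ Subgroup.mem_map_of_mem φ hg))
  exact ⟨χ.comp (φ.subgroupMap K), hχ.comp (φ.subgroupMap_surjective K)⟩

/-- Residually locally indicable groups are locally indicable. -/
theorem locInd_of_res {G : Type} [Group G]
    (h : ∀ g : G, g ≠ 1 → ∃ (Q : Type) (_ : Group Q) (φ : G →* Q), φ g ≠ 1 ∧ LocInd Q) :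
    LocInd G := by
  intro K hK hne
  obtain ⟨g, hg⟩ := Subgroup.ne_bot_iff_exists_ne_one.1 hne
  obtain ⟨Q, _, φ, h1, h2⟩ := h g.1 fun e => hg (Subtype.ext e)
  exact onto_of_map h2 φ hK g.2 h1

theorem locInd_of_injective {G Q : Type} [Group G] [Group Q] (j : G →* Q)
    (hj : Function.Injective j) (hQ : LocInd Q) : LocInd G :=
  locInd_of_res fun _ hg => ⟨Q, _, j, fun e => hg (hj (e.trans j.map_one.symm)), hQ⟩

theorem locInd_ext {G Q : Type} [Group G] [Group Q] (φ : G →* Q) (hQ : LocInd Q)
    (hK : LocInd φ.ker) : LocInd G := by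
  intro K hfg hne
  by_cases h : K ≤ φ.ker
  · obtain ⟨g, hg⟩ := Subgroup.ne_bot_iff_exists_ne_one.1 hne
    have h1 : (⊤ : Subgroup K).FG := Group.fg_def.1 ((Group.fg_iff_subgroup_fg K).2 hfg)
    obtain ⟨χ, hχ⟩ := onto_of_map hK (Subgroup.inclusion h) h1 (Subgroup.mem_top g)
      fun e => hg (Subgroup.inclusion_injective h (e.trans (map_one _).symm))
    exact ⟨χ.comp (Subgroup.topEquiv (G := K)).symm.toMonoidHom,
      hχ.comp (Subgroup.topEquiv (G := K)).symm.surjective⟩
  · obtain ⟨g, hg, hg'⟩ := SetLike.not_le_iff_exists.1 h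
    exact onto_of_map hQ φ hfg hg hg'

theorem locInd_int : LocInd (Multiplicative ℤ) := by
  intro K _ hne
  have : Infinite K := by
    obtain ⟨g, hg⟩ := Subgroup.ne_bot_iff_exists_ne_one.1 hne
    refine Infinite.of_injective (fun n : ℤ => g ^ n) (injective_zpow_iff_not_isOfFinOrder.2 ?_)
    exact fun h => hg h.eq_one'
  obtain ⟨g, hg⟩ := IsCyclic.exists_generator (α := K)
  have e := intEquivOfZPowersEqTop g ((Subgroup.eq_top_iff' _).2 hg)
  exact ⟨e.symm.toMonoidHom, e.symm.surjective⟩

theorem locInd_pi (I : Type) : LocInd (Multiplicative (I → ℤ)) := by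
  refine locInd_of_res fun g hg => ?_
  obtain ⟨i, hi⟩ : ∃ i, g.toAdd i ≠ 0 := Function.ne_iff.1 (toAdd_eq_zero.not.2 hg)
  exact ⟨Multiplicative ℤ, _, AddMonoidHom.toMultiplicative (Pi.evalAddMonoidHom (fun _ => ℤ) i),
    hi, locInd_int⟩

theorem locInd_of_subsingleton (G : Type) [Group G] [Subsingleton G] : LocInd G :=
  fun _ _ hne => absurd (Subsingleton.elim _ _) hne

end Ind

end Pool.Agent.MP_4f4d9f_gt.Sg.GP

end

section

/-! A deformation over `ℤ[t]` of the regular representation of a graph product. At `t = 1` it is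
the regular representation, at `t = 0` it kills the Cartesian subgroup. The congruence subgroups
give a chain of normal subgroups with torsion-free abelian factors and trivial intersection. -/

namespace Pool.Agent.MP_4f4d9f_gt.Sg.GP

open Polynomial

section Alg

variable {R A : Type} [CommRing R] [Ring A] [Algebra R A]

/-- The deformed idempotent. -/
def dZ (τ : R) (S E : A) : A := E + τ • (S - E)

/-- The deformed operator. -/
def dT (τ : R) (S E L : A) : A :=
  (1 - dZ τ S E) * L * (1 - S + τ • dZ τ S E) + dZ τ S E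

variable {τ : R} {S E : A}

theorem dZ_rel (h1 : S * E = E) (h2 : E * S = S) :
    dZ τ S E * dZ τ S E = dZ τ S E ∧ S * dZ τ S E = dZ τ S E ∧ dZ τ S E * S = S := by
  have hS : S * S = S := by
    calc S * S = S * (E * S) := by rw [h2]
      _ = S := by rw [← mul_assoc, h1, h2]
  have hE : E * E = E := by
    calc E * E = E * (S * E) := by rw [h1]
      _ = E := by rw [← mul_assoc, h2, h1]
  have a : S * dZ τ S E = dZ τ S E := by
    simp only [dZ, mul_add, mul_smul_comm, mul_sub, h1, hS]
  have b : dZ τ S E * S = S := by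
    simp only [dZ, add_mul, smul_mul_assoc, sub_mul, h2, hS, sub_self, smul_zero, add_zero]
  refine ⟨?_, a, b⟩
  calc dZ τ S E * dZ τ S E = dZ τ S E * (S * dZ τ S E) := by rw [a]
    _ = dZ τ S E := by rw [← mul_assoc, b, a]

theorem dT_one (h1 : S * E = E) (h2 : E * S = S) : dT τ S E 1 = 1 := by
  obtain ⟨a, b, c⟩ := dZ_rel (τ := τ) h1 h2
  simp only [dT, mul_one, mul_add, mul_sub, sub_mul, one_mul, mul_smul_comm, a, c, sub_self,
    smul_zero, sub_zero, add_zero, sub_add_cancel]

theorem dT_mul (h1 : S * E = E) (h2 : E * S = S) {L L' : A} (h3 : S * L' = S) :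
    dT τ S E (L * L') = dT τ S E L * dT τ S E L' := by
  obtain ⟨a, b, c⟩ := dZ_rel (τ := τ) h1 h2
  have hS : S * S = S := by
    calc S * S = S * (E * S) := by rw [h2]
      _ = S := by rw [← mul_assoc, h1, h2]
  unfold dT
  generalize dZ τ S E = Z at a b c ⊢
  have e1 : (1 - S + τ • Z) * Z = τ • Z := by
    simp only [add_mul, sub_mul, one_mul, smul_mul_assoc, a, b, sub_self, zero_add]
  have e2 : (1 - S + τ • Z) * (1 - Z) = 1 - S := by
    rw [mul_sub, mul_one, e1]; abel
  have e3 : S * (1 - S + τ • Z) = τ • Z := by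
    simp only [mul_add, mul_sub, mul_one, mul_smul_comm, hS, b, sub_self, zero_add]
  have e4 : Z * (1 - Z) = 0 := by rw [mul_sub, mul_one, a, sub_self]
  have e5 : (1 - S) * L' * (1 - S + τ • Z) = L' * (1 - S + τ • Z) - τ • Z := by
    rw [sub_mul, one_mul, h3, sub_mul, e3]
  calc (1 - Z) * (L * L') * (1 - S + τ • Z) + Z
      = (1 - Z) * L * (L' * (1 - S + τ • Z) - τ • Z) + (1 - Z) * L * (τ • Z) + Z := by
        rw [mul_sub ((1 - Z) * L), sub_add_cancel, mul_assoc, mul_assoc, mul_assoc]
    _ = (1 - Z) * L * (((1 - S + τ • Z) * (1 - Z)) * L' * (1 - S + τ • Z)) +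
          (1 - Z) * L * ((1 - S + τ • Z) * Z) + (Z * (1 - Z)) * L' * (1 - S + τ • Z) + Z * Z := by
        rw [e2, e5, e1, e4, a, zero_mul, zero_mul, add_zero]
    _ = _ := by simp only [add_mul, mul_add, mul_assoc]; abel

theorem commute_dT {x L : A} (h1 : Commute x S) (h2 : Commute x E) (h3 : Commute x L) :
    Commute x (dT τ S E L) := by
  have hZ : Commute x (dZ τ S E) := h2.add_right ((h1.sub_right h2).smul_right τ)
  exact ((((Commute.one_right x).sub_right hZ).mul_right h3).mul_right
    (((Commute.one_right x).sub_right h1).add_right (hZ.smul_right τ))).add_right hZ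

theorem dT_at_one {L : A} (h3 : S * L = S) : dT (1 : R) S E L = L := by
  simp only [dT, dZ, one_smul, add_sub_cancel, sub_add_cancel, mul_one, sub_mul, one_mul, h3]

theorem dT_at_zero (h1 : S * E = E) (h2 : E * S = S) (L : A) :
    dT (0 : R) S E L = 1 + (1 - E) * (L * (1 - S) - 1) * (1 - E) := by
  have hE : E * E = E := by
    calc E * E = E * (S * E) := by rw [h1]
      _ = E := by rw [← mul_assoc, h2, h1]
  have e1 : (1 - S) * (1 - E) = 1 - S := by
    simp only [mul_sub, sub_mul, one_mul, mul_one, h1, sub_self, sub_zero]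
  have e2 : (1 - E) * (1 - E) = 1 - E := by
    simp only [mul_sub, sub_mul, one_mul, mul_one, hE, sub_self, sub_zero]
  simp only [dT, dZ, zero_smul, add_zero]
  rw [mul_sub (1 - E), sub_mul _ _ (1 - E), mul_one, e2, mul_assoc _ (L * (1 - S)),
    mul_assoc L, e1, mul_assoc]
  abel

/-- Congruence modulo a scalar. -/
def Cg (c : R) (x y : A) : Prop := ∃ z : A, x - y = c • z

theorem Cg.refl (c : R) (x : A) : Cg c x x := ⟨0, by simp⟩

theorem Cg.add {c : R} {x y x' y' : A} (h : Cg c x y) (h' : Cg c x' y') :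
    Cg c (x + x') (y + y') := by
  obtain ⟨z, hz⟩ := h
  obtain ⟨z', hz'⟩ := h'
  exact ⟨z + z', by rw [smul_add, ← hz, ← hz']; abel⟩

theorem Cg.sub {c : R} {x y x' y' : A} (h : Cg c x y) (h' : Cg c x' y') :
    Cg c (x - x') (y - y') := by
  obtain ⟨z, hz⟩ := h
  obtain ⟨z', hz'⟩ := h'
  exact ⟨z - z', by rw [smul_sub, ← hz, ← hz']; abel⟩

theorem Cg.mul {c : R} {x y x' y' : A} (h : Cg c x y) (h' : Cg c x' y') :
    Cg c (x * x') (y * y') := by
  obtain ⟨z, hz⟩ := h
  obtain ⟨z', hz'⟩ := h'
  refine ⟨z * x' + y * z', ?_⟩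
  rw [smul_add, ← smul_mul_assoc, ← mul_smul_comm, ← hz, ← hz', sub_mul, mul_sub]
  abel

theorem Cg.smul {τ σ : R} {x y : A} (h : Cg (τ - σ) x y) : Cg (τ - σ) (τ • x) (σ • y) := by
  obtain ⟨z, hz⟩ := h
  refine ⟨x + σ • z, ?_⟩
  rw [smul_add, smul_comm (τ - σ) σ z, ← hz, sub_smul, smul_sub]
  abel

theorem Cg.inv {c : R} {x y : A} (h : Cg c x 1) (e : y * x = 1) : Cg c y 1 := by
  obtain ⟨z, hz⟩ := h
  refine ⟨-(y * z), ?_⟩
  rw [smul_neg, ← mul_smul_comm, ← hz, mul_sub, e, mul_one, neg_sub]

theorem mul_sub_one {c : R} {x y z z' : A} (h : x - 1 = c • z) (h' : y - 1 = c • z') :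
    x * y - 1 = (x - 1) + (y - 1) + (c * c) • (z * z') := by
  rw [mul_smul, ← mul_smul_comm, ← smul_mul_assoc, ← h, ← h']
  simp only [mul_sub, sub_mul, mul_one, one_mul]
  abel

theorem cg_dT (τ σ : R) (S E L : A) : Cg (τ - σ) (dT τ S E L) (dT σ S E L) := by
  have hZ : Cg (τ - σ) (dZ τ S E) (dZ σ S E) := (Cg.refl _ _).add (Cg.refl _ _).smul
  exact ((((Cg.refl _ _).sub hZ).mul (Cg.refl _ _)).mul ((Cg.refl _ _).add hZ.smul)).add hZ

end Alg

variable {V W : Type} [Group W] {Γ : SimpleGraph V} {P : V → Subgroup W}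

/-- A homomorphism under which different vertex groups commute kills the Cartesian subgroup. -/
theorem kill_cart (N : NF Γ P) {T : Type} [Monoid T] (φ : W →* T)
    (h : ∀ u v, u ≠ v → ∀ a ∈ P u, ∀ b ∈ P v, φ a * φ b = φ b * φ a) {g : W}
    (hg : g ∈ cart P) : φ g = 1 := by
  classical
  have key : ∀ (F : Finset V) (g : W), g ∈ par P (F : Set V) → (∀ v ∈ F, N.pi v g = 1) →
      φ g = 1 := by
    intro F
    induction F using Finset.induction_on with
    | empty =>
      intro g hg _
      have : g = 1 := by simpa [par] using hg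
      rw [this, map_one]
    | insert v F hv ih =>
      intro g hg h1
      obtain ⟨r, hr⟩ := N.gp.lift W (fun u => if u = v then 1 else (P u).subtype) (by
        intro u u' huu a b
        by_cases e : u = v
        · simp [e]
        · by_cases e' : u' = v
          · simp [e']
          · simp only [e, e', if_false, Subgroup.coe_subtype]
            exact N.gp.comm u u' huu a a.2 b b.2)
      have r1 : ∀ a ∈ P v, r a = 1 := fun a ha => by simpa using hr v ⟨a, ha⟩
      have r2 : ∀ u, u ≠ v → ∀ a ∈ P u, r a = a := fun u hu a ha => by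
        simpa [hu] using hr u ⟨a, ha⟩
      have e1 : ∀ g, φ g = φ (r g) * φ (N.pi v g) := by
        refine N.gp.induction_right (by simp) fun g u a ha ih => ?_
        by_cases e : u = v
        · subst e
          rw [map_mul, ih, map_mul, r1 a ha, mul_one, map_mul, N.pi_self u a ha, map_mul, mul_assoc]
        · rw [map_mul, ih, map_mul, r2 u e a ha, map_mul, map_mul, N.pi_ne u v e a ha, mul_one,
            mul_assoc, mul_assoc, h u v e a ha _ (N.pi_mem v g)]
      have e2 : r g ∈ par P (F : Set V) := by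
        refine par_induction_right (p := fun g => r g ∈ par P (F : Set V)) (by simp) ?_ hg
        intro g _ u hu a ha ih
        rw [map_mul]
        by_cases e : u = v
        · subst e
          rwa [r1 a ha, mul_one]
        · rw [r2 u e a ha]
          have : u ∈ (F : Set V) := by simpa [e] using hu
          exact mul_mem ih (mem_par this ha)
      have e3 : ∀ u, u ≠ v → (N.pi u).comp r = N.pi u := fun u hu =>
        N.gp.hom_ext fun w a ha => by
          by_cases e : w = v
          · subst e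
            rw [MonoidHom.comp_apply, r1 a ha, map_one, N.pi_ne w u (Ne.symm hu) a ha]
          · rw [MonoidHom.comp_apply, r2 w e a ha]
      rw [e1, h1 v (Finset.mem_insert_self v F), map_one, mul_one]
      refine ih _ e2 fun u hu => ?_
      have := DFunLike.congr_fun (e3 u fun e => hv (e ▸ hu)) g
      rw [MonoidHom.comp_apply] at this
      rw [this, h1 u (Finset.mem_insert_of_mem hu)]
  have fin : ∀ g : W, ∃ F : Finset V, g ∈ par P (F : Set V) := by
    refine N.gp.induction_right ⟨∅, one_mem _⟩ ?_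
    rintro g v a ha ⟨F, hF⟩
    exact ⟨insert v F, mul_mem (par_mono (by simp) hF) (mem_par (by simp) ha)⟩
  obtain ⟨F, hF⟩ := fin g
  exact key F g hF fun v _ => N.mem_cart.1 hg v

section Ops

variable (N : NF Γ P)

/-- The endomorphism ring of the free `ℤ[t]`-module on `W`. -/
abbrev En (W : Type) : Type := Module.End ℤ[X] (W →₀ ℤ[X])

/-- Left translation. -/
noncomputable def opL (a : W) : En W := Finsupp.lmapDomain _ _ (a * ·)

/-- Removal of the initial `v`-syllable. -/
noncomputable def opS (v : V) : En W := Finsupp.lmapDomain _ _ fun g => (N.hd v g)⁻¹ * g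

open Classical in
/-- Projection to the elements without initial `v`-syllable. -/
noncomputable def opE (v : V) : En W :=
  Finsupp.linearCombination ℤ[X] fun g => if N.hd v g = 1 then Finsupp.single g 1 else 0

theorem opL_single (a g : W) : opL a (Finsupp.single g 1) = Finsupp.single (a * g) 1 := by
  simp [opL]

theorem opS_single (v : V) (g : W) :
    opS N v (Finsupp.single g 1) = Finsupp.single ((N.hd v g)⁻¹ * g) 1 := by
  simp [opS]

theorem opE_pos {v : V} {g : W} (h : N.hd v g = 1) :
    opE N v (Finsupp.single g 1) = Finsupp.single g 1 := by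
  simp [opE, h]

theorem opE_neg {v : V} {g : W} (h : N.hd v g ≠ 1) : opE N v (Finsupp.single g 1) = 0 := by
  simp [opE, h]

omit [Group W] in
theorem en_ext {x y : En W} (h : ∀ g, x (Finsupp.single g 1) = y (Finsupp.single g 1)) :
    x = y :=
  Finsupp.lhom_ext' fun g => LinearMap.ext_ring (h g)

theorem opL_one : opL (1 : W) = 1 := en_ext fun g => by simp [opL_single]

theorem opL_mul (a b : W) : opL (a * b) = opL a * opL b :=
  en_ext fun g => by simp [opL_single, mul_assoc]

theorem opS_opE (v : V) : opS N v * opE N v = opE N v := en_ext fun g => by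
  by_cases h : N.hd v g = 1
  · simp [opE_pos N h, opS_single, h]
  · simp [opE_neg N h]

theorem opE_opS (v : V) : opE N v * opS N v = opS N v := en_ext fun g => by
  simp [opS_single, opE_pos N (N.hd_strip v g)]

theorem opS_opL {v : V} {a : W} (ha : a ∈ P v) : opS N v * opL a = opS N v := en_ext fun g => by
  simp [opS_single, opL_single, N.spec.self v a ha, mul_assoc]

include N in
theorem comm_LL {u v : V} (h : Γ.Adj u v) {a b : W} (ha : a ∈ P u) (hb : b ∈ P v) :
    Commute (opL a) (opL b) := by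
  rw [Commute, SemiconjBy, ← opL_mul, ← opL_mul, N.gp.comm u v h a ha b hb]

theorem comm_LS {u v : V} (h : Γ.Adj u v) {a : W} (ha : a ∈ P u) :
    Commute (opL a) (opS N v) := en_ext fun g => by
  simp only [Module.End.mul_apply, opS_single, opL_single, N.spec.adj u v h a ha]
  rw [← mul_assoc, N.gp.comm u v h a ha _ (inv_mem (N.spec.mem v g)), mul_assoc]

theorem comm_LE {u v : V} (h : Γ.Adj u v) {a : W} (ha : a ∈ P u) :
    Commute (opL a) (opE N v) := en_ext fun g => by
  have e := N.spec.adj u v h a ha g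
  by_cases h1 : N.hd v g = 1
  · simp only [Module.End.mul_apply, opL_single, opE_pos N h1, opE_pos N (e.trans h1)]
  · simp only [Module.End.mul_apply, opL_single, opE_neg N h1, opE_neg N (e ▸ h1), map_zero]

theorem comm_SS {u v : V} (h : Γ.Adj u v) : Commute (opS N u) (opS N v) := en_ext fun g => by
  simp only [Module.End.mul_apply, opS_single,
    N.spec.adj u v h _ (inv_mem (N.spec.mem u g)),
    N.spec.adj v u h.symm _ (inv_mem (N.spec.mem v g))]
  rw [← mul_assoc, N.gp.comm u v h _ (inv_mem (N.spec.mem u g)) _ (inv_mem (N.spec.mem v g)),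
    mul_assoc]

theorem comm_SE {u v : V} (h : Γ.Adj u v) : Commute (opS N u) (opE N v) := en_ext fun g => by
  have e := N.spec.adj u v h _ (inv_mem (N.spec.mem u g)) g
  by_cases h1 : N.hd v g = 1
  · simp only [Module.End.mul_apply, opS_single, opE_pos N h1, opE_pos N (e.trans h1)]
  · simp only [Module.End.mul_apply, opS_single, opE_neg N h1, opE_neg N (e ▸ h1), map_zero]

theorem comm_EE (u v : V) : Commute (opE N u) (opE N v) := en_ext fun g => by
  by_cases h1 : N.hd v g = 1 <;> by_cases h2 : N.hd u g = 1 <;>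
    simp [opE_pos N, opE_neg N, h1, h2]

theorem compl_mul {u v : V} (h : u ≠ v) (h' : ¬ Γ.Adj u v) :
    (1 - opE N u) * (1 - opE N v) = 0 := en_ext fun g => by
  by_cases h1 : N.hd v g = 1
  · simp [opE_pos N h1]
  · have h2 : N.hd u g = 1 := by
      by_contra h2
      exact h' (N.spec.clique u v g h h2 h1)
    simp [opE_neg N h1, opE_pos N h2]

theorem comm_TT (τ : ℤ[X]) {u v : V} (h : Γ.Adj u v) {a b : W} (ha : a ∈ P u) (hb : b ∈ P v) :
    Commute (dT τ (opS N u) (opE N u) (opL a)) (dT τ (opS N v) (opE N v) (opL b)) := by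
  refine commute_dT ?_ ?_ ?_
  · exact (commute_dT (comm_SS N h.symm) (comm_SE N h.symm) (comm_LS N h ha).symm).symm
  · exact (commute_dT (comm_SE N h).symm (comm_EE N v u) (comm_LE N h ha).symm).symm
  · exact (commute_dT (comm_LS N h.symm hb) (comm_LE N h.symm hb) (comm_LL N h ha hb).symm).symm

theorem exists_rep (τ : ℤ[X]) : ∃ ρ : W →* En W,
    ∀ v, ∀ a ∈ P v, ρ a = dT τ (opS N v) (opE N v) (opL a) := by
  let f : ∀ v, P v →* En W := fun v =>
    { toFun := fun a => dT τ (opS N v) (opE N v) (opL a.1)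
      map_one' := by
        rw [OneMemClass.coe_one, opL_one]
        exact dT_one (opS_opE N v) (opE_opS N v)
      map_mul' := fun a b => by
        rw [Subgroup.coe_mul, opL_mul]
        exact dT_mul (opS_opE N v) (opE_opS N v) (opS_opL N b.2) }
  obtain ⟨F, hF⟩ := N.gp.lift (En W)ˣ (fun v => (f v).toHomUnits) fun u v h a b =>
    Units.ext (comm_TT N τ h a.2 b.2)
  refine ⟨(Units.coeHom _).comp F, fun v a ha => ?_⟩
  rw [MonoidHom.comp_apply]
  have := hF v ⟨a, ha⟩
  simp only at this
  rw [this]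
  rfl

include N in
/-- The deformed representation. -/
theorem exists_def : ∃ ρ : W →* En W, (∀ g, ρ g = 1 → g = 1) ∧
    ∀ g ∈ cart P, Cg (X : ℤ[X]) (ρ g) 1 := by
  obtain ⟨ρ, hρ⟩ := exists_rep N X
  obtain ⟨ρ0, hρ0⟩ := exists_rep N 0
  refine ⟨ρ, fun g hg => ?_, fun g hg => ?_⟩
  · have c : ∀ g, Cg (X - 1 : ℤ[X]) (ρ g) (opL g) := by
      refine N.gp.induction_right (by rw [map_one, opL_one]; exact Cg.refl _ _) ?_
      intro g v a ha ih
      rw [map_mul, opL_mul]
      refine ih.mul ?_
      have := cg_dT (X : ℤ[X]) 1 (opS N v) (opE N v) (opL a)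
      rwa [dT_at_one (opS_opL N ha), ← hρ v a ha] at this
    obtain ⟨z, hz⟩ := c g
    by_contra hne
    have e := congrArg (fun x : En W => (x (Finsupp.single 1 1) 1).eval 1) hz
    simp [hg, opL_single, Finsupp.single_eq_of_ne (Ne.symm hne)] at e
  · have c : ∀ g, Cg (X - 0 : ℤ[X]) (ρ g) (ρ0 g) := by
      refine N.gp.induction_right (by rw [map_one, map_one]; exact Cg.refl _ _) ?_
      intro g v a ha ih
      rw [map_mul, map_mul, hρ v a ha, hρ0 v a ha]
      exact ih.mul (cg_dT _ _ _ _ _)
    have e : ρ0 g = 1 := kill_cart N ρ0 (fun u v huv a ha b hb => by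
      rw [hρ0 u a ha, hρ0 v b hb]
      by_cases h : Γ.Adj u v
      · exact comm_TT N 0 h ha hb
      · rw [dT_at_zero (opS_opE N u) (opE_opS N u), dT_at_zero (opS_opE N v) (opE_opS N v)]
        have e1 := compl_mul N huv h
        have e2 := compl_mul N huv.symm fun h' => h h'.symm
        generalize 1 - opE N u = x at e1 e2 ⊢
        generalize 1 - opE N v = y at e1 e2 ⊢
        generalize opL a * (1 - opS N u) - 1 = p
        generalize opL b * (1 - opS N v) - 1 = q
        have f1 : x * p * x * (y * q * y) = 0 := by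
          rw [mul_assoc (x * p), ← mul_assoc x, ← mul_assoc x, e1]; simp
        have f2 : y * q * y * (x * p * x) = 0 := by
          rw [mul_assoc (y * q), ← mul_assoc y, ← mul_assoc y, e2]; simp
        simp only [add_mul, mul_add, one_mul, mul_one, f1, f2]
        abel) hg
    have := c g
    rwa [sub_zero, e] at this

end Ops

/-- The congruence subgroups of a graph product. -/
theorem exists_chain (hP : IsGraphProd Γ P) : ∃ (N : ℕ → Subgroup W)
    (ψ : ∀ k, N k →* Multiplicative (W × W → ℤ)), (∀ k, (N k).Normal) ∧ cart P ≤ N 0 ∧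
    (∀ k, N (k + 1) ≤ N k) ∧ (∀ g, (∀ k, g ∈ N k) → g = 1) ∧
    ∀ k (g : N k), ψ k g = 1 ↔ g.1 ∈ N (k + 1) := by
  obtain ⟨N⟩ := nonempty_NF hP
  obtain ⟨ρ, h1, h2⟩ := exists_def N
  have hinv : ∀ g : W, ρ g⁻¹ * ρ g = 1 := fun g => by rw [← map_mul, inv_mul_cancel, map_one]
  have hinv' : ∀ g : W, ρ g * ρ g⁻¹ = 1 := fun g => by rw [← map_mul, mul_inv_cancel, map_one]
  let K : ℕ → Subgroup W := fun k =>
    { carrier := {g | Cg ((X : ℤ[X]) ^ (k + 1)) (ρ g) 1}
      one_mem' := by
        change Cg _ (ρ 1) 1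
        rw [map_one]
        exact Cg.refl _ _
      mul_mem' := fun {a b} ha hb => by
        change Cg _ (ρ (a * b)) 1
        have := Cg.mul ha hb
        rwa [mul_one, ← map_mul] at this
      inv_mem' := fun {a} ha =>
        Cg.inv (c := (X : ℤ[X]) ^ (k + 1)) (x := ρ a) (y := ρ a⁻¹) ha (hinv a) }
  have mem : ∀ k g, g ∈ K k ↔ Cg ((X : ℤ[X]) ^ (k + 1)) (ρ g) 1 := fun _ _ => Iff.rfl
  let ψ : ∀ k, K k →* Multiplicative (W × W → ℤ) := fun k => MonoidHom.mk'
    (fun g => Multiplicative.ofAdd fun p =>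
      (((ρ g.1 - 1) (Finsupp.single p.1 1)) p.2).coeff (k + 1)) (by
      intro a b
      obtain ⟨z, hz⟩ := (mem k a.1).1 a.2
      obtain ⟨z', hz'⟩ := (mem k b.1).1 b.2
      rw [← ofAdd_add]
      congr 1
      funext p
      have e : ρ (a * b : K k).1 - 1 = (ρ a.1 - 1) + (ρ b.1 - 1) +
          ((X : ℤ[X]) ^ (k + 1 + (k + 1))) • (z * z') := by
        rw [pow_add _ (k + 1), Subgroup.coe_mul, map_mul]
        exact mul_sub_one (A := En W) (R := ℤ[X]) hz hz'
      rw [e]
      simp only [LinearMap.add_apply, LinearMap.smul_apply, Finsupp.add_apply, Finsupp.smul_apply,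
        coeff_add, Pi.add_apply, smul_eq_mul]
      rw [coeff_X_pow_mul', if_neg (by omega), add_zero])
  refine ⟨K, ψ, fun k => ⟨fun g hg a => ?_⟩, fun g hg => ?_, fun k g hg => ?_, fun g hg => ?_,
    fun k g => ?_⟩
  · have := ((Cg.refl _ (ρ a)).mul ((mem k g).1 hg)).mul (Cg.refl _ (ρ a⁻¹))
    rw [mul_one, hinv', ← map_mul, ← map_mul] at this
    exact this
  · rw [mem, zero_add, pow_one]
    exact h2 g hg
  · obtain ⟨z, hz⟩ := (mem _ g).1 hg
    exact ⟨(X : ℤ[X]) • z, by rw [hz, pow_succ, mul_smul]⟩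
  · refine h1 g (sub_eq_zero.1 (en_ext fun h => Finsupp.ext fun h' => Polynomial.ext fun k => ?_))
    obtain ⟨z, hz⟩ := (mem k g).1 (hg k)
    rw [hz]
    simp only [LinearMap.smul_apply, Finsupp.smul_apply, smul_eq_mul, LinearMap.zero_apply,
      Finsupp.zero_apply, coeff_zero]
    rw [coeff_X_pow_mul', if_neg (by omega)]
  · obtain ⟨z, hz⟩ := (mem k g.1).1 g.2
    have e : ψ k g = 1 ↔ ∀ h h', (z (Finsupp.single h 1) h').coeff 0 = 0 := by
      have : ∀ h h', (((ρ g.1 - 1) (Finsupp.single h 1)) h').coeff (k + 1) =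
          (z (Finsupp.single h 1) h').coeff 0 := fun h h' => by
        rw [hz]
        simp only [LinearMap.smul_apply, Finsupp.smul_apply, smul_eq_mul]
        rw [coeff_X_pow_mul', if_pos le_rfl, Nat.sub_self]
      constructor
      · intro e h h'
        rw [← this]
        exact congrFun (congrArg Multiplicative.toAdd e) (h, h')
      · intro e
        refine Multiplicative.toAdd.injective (funext fun p => ?_)
        exact (this p.1 p.2).trans (e p.1 p.2)
    rw [e, mem]
    constructor
    · intro e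
      refine ⟨Finsupp.linearCombination ℤ[X] fun h =>
        Finsupp.mapRange divX divX_zero (z (Finsupp.single h 1)), ?_⟩
      rw [hz, pow_succ _ (k + 1), mul_smul]
      congr 1
      refine en_ext fun h => Finsupp.ext fun h' => ?_
      simp only [LinearMap.smul_apply, Finsupp.linearCombination_single, one_smul,
        Finsupp.smul_apply, Finsupp.mapRange_apply, smul_eq_mul]
      have := X_mul_divX_add (z (Finsupp.single h 1) h')
      rw [e h h', map_zero, add_zero] at this
      exact this.symm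
    · rintro ⟨y, hy⟩ h h'
      have e1 := congrArg (fun x : En W => (x (Finsupp.single h 1) h').coeff (k + 1))
        (hz.symm.trans hy)
      simp only [LinearMap.smul_apply, Finsupp.smul_apply, smul_eq_mul] at e1
      rw [coeff_X_pow_mul', if_pos le_rfl, Nat.sub_self, coeff_X_pow_mul', if_neg (by omega)] at e1
      exact e1

end Pool.Agent.MP_4f4d9f_gt.Sg.GP

end

section

/-! Cartesian subgroups of graph products and right-angled Artin groups are residually
(locally indicable and amenable); right-angled Coxeter groups are virtually so. -/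

namespace Pool.Agent.MP_4f4d9f_gt.Sg

theorem ResLIA.of_injective {H G : Type} [Group H] [Group G] (hG : ResLIA G) (j : H →* G)
    (hj : Function.Injective j) : ResLIA H := fun g hg => by
  obtain ⟨Q, _, φ, h1, h2⟩ := hG (j g) fun e => hg (hj (e.trans j.map_one.symm))
  exact ⟨Q, _, φ.comp j, h1, h2⟩

theorem ResLIA.subgroup {G : Type} [Group G] (hG : ResLIA G) (H : Subgroup G) : ResLIA H :=
  hG.of_injective H.subtype H.subtype_injective

namespace GP

theorem quot_step {G I : Type} [Group G] {M N : Subgroup G} [M.Normal] [N.Normal] (h : M ≤ N)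
    (ψ : N →* Multiplicative (I → ℤ)) (hψ : ∀ g : N, ψ g = 1 ↔ g.1 ∈ M)
    (hN : LocInd (G ⧸ N) ∧ Folner (G ⧸ N) (G ⧸ N)) :
    LocInd (G ⧸ M) ∧ Folner (G ⧸ M) (G ⧸ M) := by
  let φ : G ⧸ M →* G ⧸ N := QuotientGroup.map M N (MonoidHom.id G) h
  have hφ : ∀ g : G, φ (g : G ⧸ M) = (g : G ⧸ N) := fun _ => rfl
  let π : N →* φ.ker := ((QuotientGroup.mk' M).comp N.subtype).codRestrict φ.ker fun g =>
    (QuotientGroup.eq_one_iff g.1).2 g.2
  have hπ : Function.Surjective π := by
    rintro ⟨x, hx⟩
    obtain ⟨g, rfl⟩ := QuotientGroup.mk_surjective x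
    exact ⟨⟨g, (QuotientGroup.eq_one_iff g).1 hx⟩, rfl⟩
  have hk : ∀ g : N, π g = 1 ↔ g.1 ∈ M := fun g =>
    Subtype.ext_iff.trans (QuotientGroup.eq_one_iff g.1)
  let χ : φ.ker →* Multiplicative (I → ℤ) :=
    π.liftOfSurjective hπ ⟨ψ, fun g hg => (hψ g).2 ((hk g).1 hg)⟩
  have hχ : Function.Injective χ := by
    refine (injective_iff_map_eq_one χ).2 fun x hx => ?_
    obtain ⟨g, rfl⟩ := hπ x
    rw [MonoidHom.liftOfRightInverse_comp_apply] at hx
    exact (hk g).2 ((hψ g).1 hx)
  refine ⟨locInd_ext φ hN.1 (locInd_of_injective χ hχ (locInd_pi I)),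
    folner_ext φ (fun x => ?_) hN.2 (folner_of_comm fun a b => hχ ?_)⟩
  · obtain ⟨g, rfl⟩ := QuotientGroup.mk_surjective x
    exact ⟨g, rfl⟩
  · rw [map_mul, map_mul, mul_comm]

variable {V W : Type} [Group W] {Γ : SimpleGraph V} {P : V → Subgroup W}

theorem resLIA_of_quot (hP : IsGraphProd Γ P) {H : Type} [Group H] (j : H →* W)
    (hj : Function.Injective j) (M : Subgroup H) [M.Normal] (hM : ∀ g ∈ M, j g ∈ cart P)
    (hQ : LocInd (H ⧸ M) ∧ Folner (H ⧸ M) (H ⧸ M)) : ResLIA H := by
  obtain ⟨N, ψ, h1, h2, h3, h4, h5⟩ := exists_chain hP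
  let K : ℕ → Subgroup H := fun k => (N k).comap j ⊓ M
  have hK : ∀ k, (K k).Normal := fun k => Subgroup.normal_inf_normal _ _
  have key : ∀ k, LocInd (H ⧸ K k) ∧ Folner (H ⧸ K k) (H ⧸ K k) := by
    intro k
    induction k with
    | zero =>
      exact quot_step (I := Empty) (N := M) inf_le_right 1
        (fun g => ⟨fun _ => ⟨h2 (hM g g.2), g.2⟩, fun _ => rfl⟩) hQ
    | succ k ih =>
      refine quot_step (N := K k) (inf_le_inf_right _ (Subgroup.comap_mono (h3 k)))
        ((ψ k).comp ((j.comp (K k).subtype).codRestrict (N k) fun g => g.2.1)) (fun g => ?_) ih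
      exact (h5 k _).trans ⟨fun h => ⟨h, g.2.2⟩, fun h => h.1⟩
  intro g hg
  obtain ⟨k, hk⟩ := not_forall.1 fun h => hg (hj ((h4 (j g) h).trans j.map_one.symm))
  exact ⟨H ⧸ K k, _, QuotientGroup.mk' _, fun e => hk ((QuotientGroup.eq_one_iff g).1 e).1, key k⟩

theorem resLIA_of_ker (hP : IsGraphProd Γ P) {H I : Type} [Group H] (j : H →* W)
    (hj : Function.Injective j) (θ : H →* Multiplicative (I → ℤ))
    (hθ : ∀ g, θ g = 1 → j g ∈ cart P) : ResLIA H := by
  have : Subsingleton (H ⧸ (⊤ : Subgroup H)) := QuotientGroup.subsingleton_quotient_top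
  exact resLIA_of_quot hP j hj θ.ker hθ (quot_step (N := ⊤) le_top (θ.comp (Subgroup.subtype _))
    (fun _ => Iff.rfl) ⟨locInd_of_subsingleton _, folner_of_finite _⟩)

theorem raag_comm {u v : V} (h : Γ.Adj u v) :
    Commute (PresentedGroup.of u : RAAG Γ) (PresentedGroup.of v) := by
  have := PresentedGroup.one_of_mem (rels := {w : FreeGroup V | ∃ u v, Γ.Adj u v ∧
    w = FreeGroup.of u * FreeGroup.of v * (FreeGroup.of u)⁻¹ * (FreeGroup.of v)⁻¹}) ⟨u, v, h, rfl⟩
  rw [map_mul, map_mul, map_mul, map_inv, map_inv, mul_inv_eq_one, mul_inv_eq_iff_eq_mul] at this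
  exact this

theorem raag_lift (Γ : SimpleGraph V) {T : Type} [Group T] (f : V → T)
    (h : ∀ u v, Γ.Adj u v → f u * f v = f v * f u) :
    ∃ F : RAAG Γ →* T, ∀ v, F (PresentedGroup.of v) = f v :=
  ⟨PresentedGroup.toGroup (f := f) (by
    rintro _ ⟨a, b, hab, rfl⟩
    simp only [map_mul, map_inv, FreeGroup.lift_apply_of]
    rw [mul_inv_eq_one, mul_inv_eq_iff_eq_mul, h a b hab]), fun _ => PresentedGroup.toGroup.of _⟩

/-- A criterion for a graph product of cyclic groups. -/
theorem isGraphProd_zpowers (s : V → W) (hc : ∀ u v, Γ.Adj u v → Commute (s u) (s v))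
    (hg : Subgroup.closure (Set.range s) = ⊤)
    (hl : ∀ (T : Type) [Group T] (f : V → T), (∀ v (n : ℤ), s v ^ n = 1 → f v ^ n = 1) →
      (∀ u v, Γ.Adj u v → f u * f v = f v * f u) → ∃ F : W →* T, ∀ v, F (s v) = f v) :
    IsGraphProd Γ fun v => Subgroup.zpowers (s v) where
  comm := by
    rintro u v h _ ⟨m, rfl⟩ _ ⟨n, rfl⟩
    exact (hc u v h).zpow_zpow m n
  gen := by
    rw [eq_top_iff, ← hg, Subgroup.closure_le]
    rintro _ ⟨v, rfl⟩
    exact Subgroup.mem_iSup_of_mem v (Subgroup.mem_zpowers _)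
  lift := by
    intro T _ f h
    obtain ⟨F, hF⟩ := hl T (fun v => f v ⟨s v, Subgroup.mem_zpowers _⟩) (fun v n hn => by
      rw [← map_zpow, ← (f v).map_one]
      exact congrArg _ (Subtype.ext hn)) fun u v huv => h u v huv _ _
    refine ⟨F, ?_⟩
    rintro v ⟨_, n, rfl⟩
    change F (s v ^ n) = f v (⟨s v, Subgroup.mem_zpowers _⟩ ^ n)
    rw [map_zpow, map_zpow, hF]

theorem isGraphProd_raag (Γ : SimpleGraph V) :
    IsGraphProd Γ fun v => Subgroup.zpowers (PresentedGroup.of v : RAAG Γ) :=
  isGraphProd_zpowers _ (fun _ _ => raag_comm) (PresentedGroup.closure_range_of _)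
    fun _ _ f _ h => raag_lift Γ f h

/-- The graph of commuting generators. -/
def coxGraph (M : CoxeterMatrix V) : SimpleGraph V where
  Adj i j := M i j = 2
  symm := ⟨fun i j h => (M.symmetric j i).trans h⟩
  loopless := ⟨fun i h => by simp at h⟩

theorem isGraphProd_racg {M : CoxeterMatrix V} (cs : CoxeterSystem M W)
    (hM : ∀ i j, M i j ≤ 2) : IsGraphProd (coxGraph M) fun v => Subgroup.zpowers (cs.simple v) := by
  refine isGraphProd_zpowers _ (fun u v h => ?_) cs.subgroup_closure_range_simple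
    fun T _ f h1 h2 => ?_
  · have := cs.simple_mul_simple_pow u v
    rw [show M u v = 2 from h, pow_two, mul_eq_one_iff_eq_inv] at this
    rw [Commute, SemiconjBy, this]
    simp
  · have h3 : ∀ v, f v * f v = 1 := fun v => by
      have := h1 v 2 (by rw [zpow_two, cs.simple_mul_simple_self])
      rwa [zpow_two] at this
    have h4 : M.IsLiftable f := fun i j => by
      by_cases e : i = j
      · rw [e, h3, one_pow]
      · have h5 := hM i j
        have h6 := M.off_diagonal i j e
        obtain h | h : M i j = 0 ∨ M i j = 2 := by omega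
        · rw [h, pow_zero]
        · rw [h, pow_two, mul_assoc, ← mul_assoc (f j), ← h2 i j h, mul_assoc, h3, mul_one, h3]
    exact ⟨cs.lift ⟨f, h4⟩, cs.lift_apply_simple h4⟩

end GP

open GP

variable {V W : Type} [Group W]

/-- The Cartesian subgroup of a graph product of arbitrary groups. -/
theorem resLIA_cart {Γ : SimpleGraph V} {P : V → Subgroup W} (hP : IsGraphProd Γ P) :
    ResLIA (cart P) :=
  resLIA_of_ker (I := Empty) hP (cart P).subtype (cart P).subtype_injective 1 fun g _ => g.2

theorem cart_finiteIndex {Γ : SimpleGraph V} {P : V → Subgroup W} (hP : IsGraphProd Γ P)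
    [Finite V] (hfin : ∀ v, Finite (P v)) : (cart P).FiniteIndex := by
  obtain ⟨N⟩ := nonempty_NF hP
  have e : cart P = (MonoidHom.pi fun v => (N.pi v).codRestrict (P v) (N.pi_mem v)).ker := by
    ext g
    rw [N.mem_cart, MonoidHom.mem_ker, funext_iff]
    exact forall_congr' fun v => ⟨fun h => Subtype.ext h, fun h => congrArg Subtype.val h⟩
  rw [e]
  infer_instance

/-- Right-angled Artin groups. -/
theorem resLIA_raag (Γ : SimpleGraph V) : ResLIA (RAAG Γ) := by
  classical
  obtain ⟨θ, hθ⟩ := raag_lift Γ (T := Multiplicative (V → ℤ))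
    (fun v => Multiplicative.ofAdd (Pi.single v 1)) fun _ _ _ => mul_comm _ _
  refine resLIA_of_ker (isGraphProd_raag Γ) (MonoidHom.id _) Function.injective_id θ fun g hg => ?_
  simp only [cart, Subgroup.mem_iInf, MonoidHom.mem_ker, MonoidHom.id_apply]
  intro v r h1 h2
  have e : r = ((zpowersHom _ (PresentedGroup.of v : RAAG Γ)).comp
      (AddMonoidHom.toMultiplicative (Pi.evalAddMonoidHom (fun _ => ℤ) v))).comp θ := by
    refine PresentedGroup.ext fun u => ?_
    by_cases h : u = v
    · subst h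
      simp [h1 _ (Subgroup.mem_zpowers _), hθ]
    · simp [h2 u h _ (Subgroup.mem_zpowers _), hθ, Pi.single_eq_of_ne' h]
  rw [e, MonoidHom.comp_apply, hg, map_one]

/-- Graph products of finitely many finite groups. -/
theorem virt_resLIA_graphProd {Γ : SimpleGraph V} {P : V → Subgroup W} (hP : IsGraphProd Γ P)
    [Finite V] (hfin : ∀ v, Finite (P v)) : ∃ K : Subgroup W, K.FiniteIndex ∧ ResLIA K :=
  ⟨cart P, cart_finiteIndex hP hfin, resLIA_cart hP⟩

/-- Right-angled Coxeter groups of finite rank. -/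
theorem virt_resLIA_racg [Finite V] {M : CoxeterMatrix V} (cs : CoxeterSystem M W)
    (hM : ∀ i j, M i j ≤ 2) : ∃ K : Subgroup W, K.FiniteIndex ∧ ResLIA K :=
  virt_resLIA_graphProd (isGraphProd_racg cs hM) fun v =>
    Set.finite_coe_iff.2
      (finite_zpowers.2 (isOfFinOrder_iff_pow_eq_one.2 ⟨2, two_pos, cs.simple_sq v⟩))

/-- Passing to groups with a finite index subgroup that embeds. -/
theorem virt_resLIA_of_injective {G : Type} [Group G] (H : Subgroup G) [H.FiniteIndex]
    (j : H →* W) (hj : Function.Injective j) (h : ∃ K : Subgroup W, K.FiniteIndex ∧ ResLIA K) :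
    ∃ K : Subgroup G, K.FiniteIndex ∧ ResLIA K := by
  obtain ⟨K, hK, hK'⟩ := h
  refine ⟨(K.comap j).map H.subtype, ⟨?_⟩, ?_⟩
  · rw [Subgroup.index_map_subtype, Subgroup.index_comap]
    exact mul_ne_zero (Subgroup.FiniteIndex.index_ne_zero (H := K.subgroupOf j.range))
      Subgroup.FiniteIndex.index_ne_zero
  · let e := Subgroup.equivMapOfInjective (K.comap j) H.subtype H.subtype_injective
    refine (hK'.of_injective (j.subgroupComap K) fun a b hab => ?_).of_injective
      e.symm.toMonoidHom e.symm.injective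
    exact Subtype.ext (hj (congrArg Subtype.val hab))

end Pool.Agent.MP_4f4d9f_gt.Sg

end
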