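import Pool.Agent.Mg.F4f4d9fr.G69af78

set_option linter.all false

section

/-! The fundamental chain: twisted sums and relations. -/

namespace Pool.Agent.MP_4f4d9f_gt.Hy.FundL

open Finsupp Filter Topology

section Alg

variable {G : Type} [Group G] (w : G →* ℤˣ) {B : Type} [MulAction G B]

theorem md_sub_mem (g : G) (u : B →₀ ℤ) : u.mapDomain (g • ·) - (w g : ℤ) • u ∈ Rel w B := by
  induction u using ind1 with
  | h0 => simp
  | hadd x y hx hy =>
    convert add_mem hx hy using 1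
    rw [mapDomain_add, smul_add]
    abel
  | hs r x hx =>
    convert Submodule.smul_mem _ r hx using 1
    rw [mapDomain_smul, smul_sub, smul_comm]
  | h1 b => exact Submodule.subset_span ⟨g, b, by simp⟩

open Classical in
/-- The projection to the chains supported in `P`. -/
noncomputable def prj (P : Set B) : (B →₀ ℤ) →ₗ[ℤ] (B →₀ ℤ) :=
  linearCombination ℤ fun b => if b ∈ P then single b 1 else 0

omit [MulAction G B] in
open Classical in
theorem prj_apply (P : Set B) (c : B →₀ ℤ) (b : B) : prj P c b = if b ∈ P then c b else 0 := by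
  induction c using ind1 with
  | h0 => simp
  | hadd x y hx hy => rw [map_add, Finsupp.add_apply, hx, hy]; split_ifs <;> simp
  | hs r x hx => rw [map_smul, Finsupp.smul_apply, hx]; split_ifs <;> simp
  | h1 a =>
    rw [prj, linearCombination_single, one_smul]
    by_cases h : a = b
    · subst h
      split_ifs <;> simp
    · split_ifs <;> simp [h]

theorem prj_md {P : Set B} (hP : ∀ (g : G) b, g • b ∈ P ↔ b ∈ P) (g : G) (c : B →₀ ℤ) :
    prj P (c.mapDomain (g • ·)) = (prj P c).mapDomain (g • ·) := by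
  induction c using ind1 with
  | h0 => simp
  | hadd x y hx hy => simp only [mapDomain_add, map_add, hx, hy]
  | hs r x hx => simp only [mapDomain_smul, map_smul, hx]
  | h1 a =>
    simp only [mapDomain_single, prj, linearCombination_single, one_smul]
    by_cases h : a ∈ P
    · rw [if_pos h, if_pos ((hP g a).2 h), mapDomain_single]
    · rw [if_neg h, if_neg (mt (hP g a).1 h), mapDomain_zero]

/-- The lattice lemma. -/
theorem rel_inf {P Q : Set B} (hP : ∀ (g : G) b, g • b ∈ P ↔ b ∈ P) {z : B →₀ ℤ}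
    (h1 : z ∈ Rel w B ⊔ supported ℤ ℤ P) (h2 : z ∈ Rel w B ⊔ supported ℤ ℤ Q) :
    z ∈ Rel w B ⊔ supported ℤ ℤ (P ∩ Q) := by
  obtain ⟨r, hr, a, ha, e1⟩ := Submodule.mem_sup.1 h1
  obtain ⟨r', hr', b, hb, e2⟩ := Submodule.mem_sup.1 h2
  have e3 : prj P a = a := by
    ext x
    rw [prj_apply]
    split_ifs with h
    · rfl
    · exact ((mem_supported' ℤ a).1 ha x h).symm
  have e4 : prj P b ∈ supported ℤ ℤ (P ∩ Q) := by
    refine (mem_supported' ℤ _).2 fun x hx => ?_
    rw [prj_apply]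
    split_ifs with h
    · exact (mem_supported' ℤ b).1 hb x fun h' => hx ⟨h, h'⟩
    · rfl
  have e5 : z = r + prj P r' - prj P r + prj P b := by
    have e6 := congrArg (prj P) (e1.trans e2.symm)
    rw [map_add, map_add, e3] at e6
    rw [← e1, add_sub_right_comm, add_assoc, ← e6]
    abel
  rw [e5]
  exact Submodule.add_mem_sup (sub_mem (add_mem hr (map_rel w _ (prj_md hP) hr'))
    (map_rel w _ (prj_md hP) hr)) e4

/-- Chains in a set that is disjoint from its translates see no relation. -/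
theorem mem_of_rel {V P : Set B} (hV : ∀ (g : G), ∀ b ∈ V, g • b ∈ V → g = 1)
    (hP : ∀ (g : G), ∀ b ∈ P, g • b ∈ P) {z : B →₀ ℤ} (h1 : z ∈ supported ℤ ℤ V)
    (h2 : z ∈ Rel w B ⊔ supported ℤ ℤ P) : z ∈ supported ℤ ℤ P := by
  classical
  refine (mem_supported' ℤ _).2 fun s hs => ?_
  by_cases hsV : s ∈ V
  swap
  · exact (mem_supported' ℤ _).1 h1 s hsV
  obtain ⟨r, hr, a, ha, e1⟩ := Submodule.mem_sup.1 h2
  have e2 : av w (fun b => if b = s then (1 : ℤ) else 0) a = 0 := by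
    rw [av_eq_sum w (F := ∅), Finset.sum_empty]
    intro b hb g hg
    have e : g • b = s := by
      by_contra e
      exact hg (if_neg e)
    exact absurd (e ▸ hP g b (ha hb)) hs
  have e3 : av w (fun b => if b = s then (1 : ℤ) else 0) z = z s := by
    rw [av_eq_sum w (F := {1}), Finset.sum_singleton]
    · simp only [map_one, inv_one, one_smul]
      rw [show z.mapDomain (fun x => x) = z from mapDomain_id, linearCombination_apply, Finsupp.sum]
      simp only [smul_eq_mul, mul_ite, mul_one, mul_zero, Finset.sum_ite_eq', mem_support_iff]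
      split_ifs with h
      · rfl
      · exact (not_not.1 h).symm
    · intro b hb g hg
      have e : g • b = s := by
        by_contra e
        exact hg (if_neg e)
      exact Finset.mem_singleton.2 (hV g b (h1 hb) (e ▸ hsV))
  rw [← e3, ← e1, map_add, av_rel w _ hr, e2, add_zero]

theorem avF_add (F : Finset G) (c c' : B →₀ ℤ) : avF w F (c + c') = avF w F c + avF w F c' := by
  simp only [avF, mapDomain_add, smul_add, Finset.sum_add_distrib]

theorem map_avF {B' : Type} [MulAction G B'] (D : (B →₀ ℤ) →ₗ[ℤ] (B' →₀ ℤ))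
    (hD : ∀ (g : G) c, D (c.mapDomain (g • ·)) = (D c).mapDomain (g • ·)) (F : Finset G)
    (c : B →₀ ℤ) : D (avF w F c) = avF w F (D c) := by
  simp only [avF, map_sum, Units.smul_def, map_smul, hD]

theorem avF_rel {P : Set B} (hP : ∀ b : B, {g : G | g • b ∈ P}.Finite) {r : B →₀ ℤ}
    (hr : r ∈ Rel w B) : ∀ᶠ F : Finset G in atTop, avF w F r ∈ supported ℤ ℤ Pᶜ := by
  classical
  have hF : (⋃ b ∈ r.support, {g : G | g • b ∈ P}).Finite :=
    (Finset.finite_toSet _).biUnion fun b _ => hP b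
  filter_upwards [eventually_ge_atTop hF.toFinset] with F h
  have e1 := av_rel w (fun b => if b ∈ P then single b (1 : ℤ) else 0) hr
  rw [av_eq_sum w (F := F) fun b hb g hg => h (hF.mem_toFinset.2
    (Set.mem_biUnion hb (by_contra fun e => hg (if_neg e))))] at e1
  have e2 : prj P (avF w F r) = 0 := by
    rw [← e1]
    simp only [avF, map_sum, Units.smul_def, map_smul, prj]
  refine (mem_supported' ℤ _).2 fun s hs => ?_
  have e3 := prj_apply P (avF w F r) s
  rw [e2, if_pos (not_not.1 hs)] at e3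
  exact e3.symm

end Alg

section Top

variable {G X : Type} [Group G] [TopologicalSpace X] [MulAction G X] [ContinuousConstSMul G X]
  (w : G →* ℤˣ) {k m : ℕ}

/-- The action of a group element. -/
def sm (g : G) : C(X, X) := ⟨(g • ·), continuous_const_smul g⟩

theorem md_eq (g : G) (c : Ch X k) : c.mapDomain (g • ·) = push ℤ (sm g) k c := rfl

variable (G) in
/-- Invariant sets. -/
def Inv (A : Set X) : Prop := ∀ (g : G) x, g • x ∈ A ↔ x ∈ A

variable (G X) in
/-- Proper actions. -/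
def Prp : Prop := ∀ K : Set X, IsCompact K → {g : G | ((g • ·) '' K ∩ K).Nonempty}.Finite

omit [TopologicalSpace X] [ContinuousConstSMul G X] in
theorem Inv.compl {A : Set X} (h : Inv G A) : Inv G Aᶜ := fun g x => not_congr (h g x)

theorem Inv.sing {A : Set X} (h : Inv G A) (g : G) (b : Sing X k) :
    g • b ∈ {σ : Sing X k | Set.range σ ⊆ A} ↔ b ∈ {σ : Sing X k | Set.range σ ⊆ A} := by
  simp only [Set.mem_ofPred_eq, Set.range_subset_iff]
  exact forall_congr' fun t => h g (b t)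

theorem bd_md (g : G) (c : Ch X (k + 1)) :
    bd ℤ X k (c.mapDomain (g • ·)) = (bd ℤ X k c).mapDomain (g • ·) := bd_push ℤ (sm g) k c

theorem sdp_md (n : ℕ) (g : G) (c : Ch X k) :
    (sdR ℤ X k ^ n) (c.mapDomain (g • ·)) = ((sdR ℤ X k ^ n) c).mapDomain (g • ·) := by
  induction n with
  | zero => rfl
  | succ n ih =>
    rw [pow_succ', Module.End.mul_apply, Module.End.mul_apply, ih, md_eq, md_eq, push_sdR]

theorem sdH_md (n : ℕ) (g : G) (c : Ch X k) :
    sdHPow ℤ X n k (c.mapDomain (g • ·)) = (sdHPow ℤ X n k c).mapDomain (g • ·) := by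
  rw [md_eq g (sdHPow ℤ X n k c)]
  simp only [sdHPow, LinearMap.sum_apply, LinearMap.comp_apply, map_sum, sdp_md, push_sdHR]
  rfl

theorem avF_supp {A : Set X} (hA : Inv G A) (F : Finset G) {c : Ch X k} (h : c ∈ supp ℤ A k) :
    avF w F c ∈ supp ℤ A k :=
  sum_mem fun g _ => Submodule.smul_mem _ _
    (push_mem_supp (sm g) (fun x hx => (hA g x).2 hx) h)

theorem avF_rel' (hp : Prp G X) {r : Ch X k} (hr : r ∈ Rel w (Sing X k)) (x : X) :
    ∀ᶠ F : Finset G in atTop, avF w F r ∈ supp ℤ {x}ᶜ k := by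
  have hf : ∀ b : Sing X k, {g : G | g • b ∈ {σ : Sing X k | x ∈ Set.range σ}}.Finite := by
    intro b
    refine (hp (insert x (Set.range b)) ((isCompact_range b.continuous).insert x)).subset ?_
    rintro g ⟨t, ht⟩
    exact ⟨x, ⟨b t, Or.inr ⟨t, rfl⟩, ht⟩, Or.inl rfl⟩
  filter_upwards [avF_rel w hf hr] with F h
  exact mem_supp.2 fun σ hσ t e => h hσ ⟨t, e⟩

theorem bd_avF (F : Finset G) (c : Ch X (k + 1)) :
    bd ℤ X k (avF w F c) = avF w F (bd ℤ X k c) := map_avF w (bd ℤ X k) bd_md F c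

theorem bd_rel {r : Ch X (k + 1)} (hr : r ∈ Rel w (Sing X (k + 1))) :
    bd ℤ X k r ∈ Rel w (Sing X k) := map_rel w (bd ℤ X k) bd_md hr

theorem avF_loc {V : Set X} (hV : ∀ (g : G), ∀ x ∈ V, g • x ∈ V → g = 1) {c : Ch X k}
    (hc : c ∈ supp ℤ V k) {F : Finset G} {g : G} (hg : g ∈ F) {y : X} (hy : y ∈ V) :
    avF w F c - ((w g)⁻¹ : ℤˣ) • c.mapDomain (g • ·) ∈ supp ℤ {g • y}ᶜ k := by
  classical
  rw [avF, ← Finset.add_sum_erase _ _ hg, add_sub_cancel_left]
  refine sum_mem fun h hh => Submodule.smul_mem _ _ (push_mem_supp (sm h) (fun x hx e => ?_) hc)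
  have e1 : h • x = g • y := e
  have e2 := hV (g⁻¹ * h) x hx (by rw [mul_smul, e1, inv_smul_smul]; exact hy)
  exact (Finset.mem_erase.1 hh).1 (inv_mul_eq_one.1 e2).symm

variable (od : X → Ch X (m + 1) → ℤ)

/-- Fundamental chains over an invariant set. -/
def Good (A : Set X) (μ : Ch X (m + 1)) : Prop :=
  bd ℤ X m μ ∈ Rel w (Sing X m) ⊔ supp ℤ Aᶜ m ∧
    ∀ x ∈ A, ∀ᶠ F : Finset G in atTop, od x (avF w F μ) = 1

variable (m) in
/-- Negligible chains. -/
noncomputable def Ng (A : Set X) : Submodule ℤ (Ch X (m + 1)) :=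
  Rel w (Sing X (m + 1)) ⊔ (LinearMap.range (bd ℤ X (m + 1)) ⊔ supp ℤ Aᶜ (m + 1))

variable {w od} {A B : Set X} {μ μ' : Ch X (m + 1)}

theorem rz_avF (hp : Prp G X) (hA : Inv G A) (h : bd ℤ X m μ ∈ Rel w (Sing X m) ⊔ supp ℤ Aᶜ m)
    {x : X} (hx : x ∈ A) : ∀ᶠ F : Finset G in atTop, RZ {x}ᶜ (m + 1) (avF w F μ) := by
  obtain ⟨r, hr, v, hv, e⟩ := Submodule.mem_sup.1 h
  filter_upwards [avF_rel' w hp hr x] with F hF
  rw [rz_succ, bd_avF, ← e, avF_add]
  exact add_mem hF (supp_mono (Set.compl_subset_compl.2 (Set.singleton_subset_iff.2 hx)) _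
    (avF_supp w hA.compl F hv))

theorem Good.congr (hp : Prp G X) (ho : LocOr m Set.univ od) (hA : Inv G A) (h : Good w od A μ)
    (e : μ' - μ ∈ Ng w m A) : Good w od A μ' := by
  obtain ⟨r, hr, u, hu, e1⟩ := Submodule.mem_sup.1 e
  obtain ⟨_, ⟨a, rfl⟩, v, hv, rfl⟩ := Submodule.mem_sup.1 hu
  obtain rfl : μ' = μ + (r + (bd ℤ X (m + 1) a + v)) := by rw [e1, add_sub_cancel]
  refine ⟨?_, fun x hx => ?_⟩
  · rw [map_add, map_add, map_add, bd_bd, zero_add]
    exact add_mem h.1 (Submodule.add_mem_sup (bd_rel w hr) (bd_mem_supp hv))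
  · filter_upwards [h.2 x hx, rz_avF hp hA h.1 hx, avF_rel' w hp hr x] with F h1 h2 h3
    rw [← h1]
    refine (ho.congr trivial h2 ?_).symm
    rw [avF_add, sub_add_cancel_left, avF_add, avF_add, ← bd_avF]
    refine ((rb_of_mem h3).add ((rb_bd (mem_supp_univ _)).add (rb_of_mem ?_))).neg
    exact supp_mono (Set.compl_subset_compl.2 (Set.singleton_subset_iff.2 hx)) _
      (avF_supp w hA.compl F hv)

theorem Good.union (hA : Inv G A) (h : Good w od A μ) (h' : Good w od B μ) :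
    Good w od (A ∪ B) μ := by
  refine ⟨?_, fun x hx => hx.elim (h.2 x) (h'.2 x)⟩
  have e := rel_inf w hA.compl.sing h.1 h'.1
  rw [supported_inter] at e
  rw [Set.compl_union, supp_inter]
  exact e

end Top

end Pool.Agent.MP_4f4d9f_gt.Hy.FundL

end

section

/-! The fundamental chain: the inductive step. -/

namespace Pool.Agent.MP_4f4d9f_gt.Hy.FundL

open Finsupp Filter Topology

section Pull

variable {Y X : Type} [TopologicalSpace Y] [TopologicalSpace X] {i : C(Y, X)} {k : ℕ}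

theorem pull_supp (hi : IsEmbedding i) {B : Set Y} {c : Ch Y k}
    (h : push ℤ i k c ∈ supp ℤ (i '' B) k) : c ∈ supp ℤ B k := by
  obtain ⟨b, hb, e⟩ := exists_push_eq i hi h
  rwa [← push_injective i hi.injective k e]

theorem pull_rb (hi : IsEmbedding i) {B : Set Y} {c : Ch Y k}
    (h : RB (Set.range i) (i '' B) k (push ℤ i k c)) : RB Set.univ B k c := by
  obtain ⟨a, h1, h2⟩ := h
  rw [← Set.image_univ] at h1
  obtain ⟨b, hb, rfl⟩ := exists_push_eq i hi h1
  rw [bd_push, ← map_sub] at h2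
  exact ⟨b, hb, pull_supp hi h2⟩

end Pull

variable {G X : Type} [Group G] [TopologicalSpace X] [MulAction G X] [ContinuousConstSMul G X]
  {w : G →* ℤˣ} {m : ℕ} {od : X → Ch X (m + 1) → ℤ}

/-- A class in a chart that vanishes at all points of a compact set vanishes. -/
theorem chart_rb [T2Space X] (hQ : QStmt) {i : C(Eu m, X)} (hi : IsOpenEmbedding i) {K : Set X}
    (hK : IsCompact K) (hKV : K ⊆ Set.range i) {d : Ch X (m + 1)}
    (hd : d ∈ supp ℤ (Set.range i) (m + 1)) (h1 : RZ Kᶜ (m + 1) d)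
    (h2 : ∀ y ∈ K, RB Set.univ {y}ᶜ (m + 1) d) :
    RB (Set.range i) (Set.range i ∩ Kᶜ) (m + 1) d := by
  have hd' := hd
  rw [← Set.image_univ] at hd'
  obtain ⟨c, -, rfl⟩ := exists_push_eq i hi.isEmbedding hd'
  have e : ∀ S : Set X, Set.range i ∩ Sᶜ = i '' (i ⁻¹' S)ᶜ := fun S => by
    rw [← Set.preimage_compl, Set.image_preimage_eq_range_inter]
  have h3 := hQ m (i ⁻¹' K) (hi.isInducing.isCompact_preimage' hK hKV) c ?_ fun x hx => ?_
  · rw [e]
    exact h3.push i (fun y _ => ⟨y, rfl⟩) (Set.mapsTo_image _ _)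
  · refine pull_supp hi.isEmbedding ?_
    rw [← e, ← bd_push, supp_inter]
    exact ⟨bd_mem_supp hd, h1⟩
  · refine pull_rb hi.isEmbedding ?_
    have e2 : ({x} : Set (Eu m)) = i ⁻¹' {i x} := by
      ext y
      exact hi.injective.eq_iff.symm
    rw [e2, ← e]
    refine RB.exc hi.isOpen_range isOpen_compl_singleton hd ((h2 _ hx).mono (fun y _ => ?_) le_rfl)
    by_cases h : y = i x
    · exact Or.inl ⟨x, h.symm⟩
    · exact Or.inr h

variable (G od) in
/-- Local data. -/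
structure Loc (i : C(Eu m, X)) (K B : Set X) (c : Ch X (m + 1)) : Prop where
  emb : IsOpenEmbedding i
  free : ∀ (g : G), ∀ x ∈ Set.range i, g • x ∈ Set.range i → g = 1
  cpt : IsCompact K
  sub : K ⊆ Set.range i
  cl : IsClosed B
  mem : ∀ x, x ∈ B ↔ ∃ g : G, ∃ y ∈ K, g • y = x
  csupp : c ∈ supp ℤ (Set.range i) (m + 1)
  rz : RZ Kᶜ (m + 1) c
  one : ∀ y ∈ K, od y c = 1

variable {i : C(Eu m, X)} {K A B : Set X} {c μ : Ch X (m + 1)}

omit [ContinuousConstSMul G X] in
theorem Loc.inv (h : Loc G od i K B c) : Inv G B := by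
  have e : ∀ (g : G) x, x ∈ B → g • x ∈ B := fun g x hx => by
    obtain ⟨g', y, hy, rfl⟩ := (h.mem x).1 hx
    exact (h.mem _).2 ⟨g * g', y, hy, mul_smul _ _ _⟩
  exact fun g x => ⟨fun hx => by simpa using e g⁻¹ _ hx, e g x⟩

omit [ContinuousConstSMul G X] in
theorem Loc.sub' (h : Loc G od i K B c) : K ⊆ B := fun y hy => (h.mem y).2 ⟨1, y, hy, one_smul _ _⟩

omit [ContinuousConstSMul G X] in
theorem Loc.mem' (h : Loc G od i K B c) {x : X} (hx : x ∈ Set.range i) (hB : x ∈ B) : x ∈ K := by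
  obtain ⟨g, y, hy, rfl⟩ := (h.mem x).1 hB
  rwa [h.free g y (h.sub hy) hx, one_smul]

omit [ContinuousConstSMul G X] in
theorem Loc.bd_mem (h : Loc G od i K B c) : bd ℤ X m c ∈ supp ℤ (Set.range i ∩ Bᶜ) m := by
  have e : bd ℤ X m c ∈ supp ℤ (Set.range i ∩ Kᶜ) m := by
    rw [supp_inter]
    exact ⟨bd_mem_supp h.csupp, h.rz⟩
  refine supp_mono ?_ _ e
  exact fun x hx => ⟨hx.1, fun hB => hx.2 (h.mem' hx.1 hB)⟩

theorem Loc.good (h : Loc G od i K B c) (hp : Prp G X) (ho : LocOr m Set.univ od)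
    (hw : OrCh m w od) : Good w od B c := by
  have h1 : bd ℤ X m c ∈ Rel w (Sing X m) ⊔ supp ℤ Bᶜ m :=
    Submodule.mem_sup_right (supp_mono Set.inter_subset_right _ h.bd_mem)
  refine ⟨h1, fun x hx => ?_⟩
  obtain ⟨g, y, hy, rfl⟩ := (h.mem x).1 hx
  filter_upwards [rz_avF hp h.inv h1 hx, eventually_ge_atTop {g}] with F h2 h3
  have h4 : RZ {y}ᶜ (m + 1) c :=
    h.rz.mono (Set.compl_subset_compl.2 (Set.singleton_subset_iff.2 hy))
  have h5 : RZ {g • y}ᶜ (m + 1) (c.mapDomain (g • ·)) :=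
    h4.push (sm g) fun z hz e => hz (smul_left_cancel g e)
  rw [ho.congr trivial h2 (rb_of_mem (avF_loc w h.free h.csupp (h3 (Finset.mem_singleton_self g))
    (h.sub hy))), Units.smul_def, ho.smul trivial h5, hw g y c h4, h.one y hy, mul_one,
    Units.inv_mul]

/-- Subdivision. -/
theorem Loc.split (h : Loc G od i K B c) (h1 : bd ℤ X m μ ∈ Rel w (Sing X m) ⊔ supp ℤ Aᶜ m) :
    ∃ μ₁ ∈ supp ℤ (Set.range i) (m + 1), ∃ μ₃ ∈ supp ℤ Bᶜ (m + 1), μ₁ + μ₃ - μ ∈ Ng w m A := by
  obtain ⟨n, hn⟩ := sdR_small (R := ℤ) (c := μ)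
    (U := fun o : Option G => o.elim Bᶜ fun g => (g • ·) ⁻¹' Set.range i)
    (by
      rintro (_ | g)
      · exact h.cl.isOpen_compl
      · exact h.emb.isOpen_range.preimage (continuous_const_smul g))
    (mem_supp.2 fun σ _ t => by
      by_cases hB : σ t ∈ B
      · obtain ⟨g, y, hy, e⟩ := (h.mem _).1 hB
        refine Set.mem_iUnion.2 ⟨some g⁻¹, ?_⟩
        change g⁻¹ • σ t ∈ Set.range i
        rw [← e, inv_smul_smul]
        exact h.sub hy
      · exact Set.mem_iUnion.2 ⟨none, hB⟩)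
  have h2 : (sdR ℤ X (m + 1) ^ n) μ ∈ Rel w (Sing X (m + 1)) ⊔
      (supp ℤ (Set.range i) (m + 1) ⊔ supp ℤ Bᶜ (m + 1)) := by
    refine SetLike.le_def.1 (iSup_le ?_) (hn n le_rfl)
    rintro (_ | g)
    · exact le_sup_of_le_right le_sup_right
    · intro u hu
      have e1 : u.mapDomain (g • ·) ∈ supp ℤ (Set.range i) (m + 1) :=
        push_mem_supp (sm g) (fun x hx => hx) hu
      have e2 := md_sub_mem w g⁻¹ (u.mapDomain (g • ·))
      have e3 : (u.mapDomain (g • ·)).mapDomain (g⁻¹ • ·) = u := by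
        rw [← mapDomain_comp]
        exact (mapDomain_congr fun x _ => inv_smul_smul g x).trans mapDomain_id
      rw [e3] at e2
      rw [← sub_add_cancel u ((w g⁻¹ : ℤ) • u.mapDomain (g • ·))]
      exact Submodule.add_mem_sup e2 (Submodule.mem_sup_left (Submodule.smul_mem _ _ e1))
  obtain ⟨r, hr, u, hu, e1⟩ := Submodule.mem_sup.1 h2
  obtain ⟨μ₁, h3, μ₃, h4, rfl⟩ := Submodule.mem_sup.1 hu
  obtain ⟨r', hr', v, hv, e2⟩ := Submodule.mem_sup.1 h1
  refine ⟨μ₁, h3, μ₃, h4, ?_⟩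
  have e3 := bd_sdHPow n m μ
  rw [← e1, ← e2, map_add] at e3
  have e4 : μ₁ + μ₃ - μ = -(r + sdHPow ℤ X n m r') +
      (bd ℤ X (m + 1) (-sdHPow ℤ X n (m + 1) μ) + -sdHPow ℤ X n m v) := by
    rw [map_neg, e3]
    abel
  rw [e4]
  exact Submodule.add_mem_sup
    (neg_mem (add_mem hr (map_rel w (sdHPow ℤ X n m) (sdH_md n) hr')))
    (Submodule.add_mem_sup ⟨_, rfl⟩ (neg_mem (sdHPow_mem_supp n hv)))

theorem Loc.step [T2Space X] (hQ : QStmt) (h : Loc G od i K B c) (hp : Prp G X)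
    (ho : LocOr m Set.univ od) (hw : OrCh m w od) (hA : Inv G A) (hA' : IsClosed A)
    (hμ : Good w od A μ) : ∃ μ', Good w od (A ∪ B) μ' := by
  obtain ⟨μ₁, h1, μ₃, h3, e1⟩ := h.split hμ.1
  have g1 := hμ.congr hp ho hA e1
  have b1 : bd ℤ X m μ₁ ∈ supp ℤ Aᶜ m ⊔ supp ℤ Bᶜ m := by
    unfold supp
    rw [← supported_union]
    refine mem_of_rel w (V := {σ : Sing X m | Set.range σ ⊆ Set.range i}) (fun g σ a1 a2 => ?_)
      (fun g σ a => ?_) (bd_mem_supp h1) ?_
    · exact h.free g (σ (Classical.arbitrary _)) (a1 ⟨_, rfl⟩) (a2 ⟨_, rfl⟩)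
    · exact a.imp (hA.compl.sing g σ).2 (h.inv.compl.sing g σ).2
    · rw [supported_union, ← sup_assoc, ← add_sub_cancel_right (bd ℤ X m μ₁) (bd ℤ X m μ₃),
        ← map_add]
      exact sub_mem (Submodule.mem_sup_left g1.1) (Submodule.mem_sup_right (bd_mem_supp h3))
  have b2 : bd ℤ X m (μ₁ - c) ∈ supp ℤ Aᶜ m ⊔ supp ℤ Bᶜ m := by
    rw [map_sub]
    exact sub_mem b1 (Submodule.mem_sup_right (supp_mono Set.inter_subset_right _ h.bd_mem))
  have s2 : supp ℤ Aᶜ m ⊔ supp ℤ Bᶜ m ≤ supp ℤ (K ∩ A)ᶜ m :=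
    sup_le (supp_mono (Set.compl_subset_compl.2 Set.inter_subset_right) _)
      (supp_mono (Set.compl_subset_compl.2 (Set.inter_subset_left.trans h.sub')) _)
  obtain ⟨a, -, hv⟩ := chart_rb hQ h.emb (h.cpt.inter_right hA')
    (Set.inter_subset_left.trans h.sub) (sub_mem h1 h.csupp) (s2 b2) fun y hy => by
      have hy' : (K ∩ A)ᶜ ⊆ {y}ᶜ := Set.compl_subset_compl.2 (Set.singleton_subset_iff.2 hy)
      have z1 : RZ {y}ᶜ (m + 1) μ₁ := supp_mono hy' _ (s2 b1)
      have z2 : RZ {y}ᶜ (m + 1) c :=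
        h.rz.mono (Set.compl_subset_compl.2 (Set.singleton_subset_iff.2 hy.1))
      refine ho.inj y trivial _ (z1.sub z2) ?_
      obtain ⟨F, ⟨f1, f2⟩, f3⟩ := (((g1.2 y hy.2).and (rz_avF hp hA g1.1 hy.2)).and
        (eventually_ge_atTop {1})).exists
      have f4 := avF_loc w h.free h1 (f3 (Finset.mem_singleton_self 1)) (h.sub hy.1)
      simp only [map_one, inv_one, one_smul] at f4
      rw [show μ₁.mapDomain (fun x => x) = μ₁ from mapDomain_id] at f4
      have f5 : avF w F (μ₁ + μ₃) - μ₁ ∈ supp ℤ {y}ᶜ (m + 1) := by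
        rw [avF_add, add_sub_right_comm]
        exact add_mem f4 (supp_mono (Set.compl_subset_compl.2
          (Set.singleton_subset_iff.2 (h.sub' hy.1))) _ (avF_supp w h.inv.compl F h3))
      rw [ho.sub trivial z1 z2, h.one y hy.1, ← ho.congr trivial f2 (rb_of_mem f5), f1, sub_self]
  obtain ⟨e, -, he⟩ := small_chainR hA'.isOpen_compl h.cl.isOpen_compl m
    (μ₁ - c - bd ℤ X (m + 1) a)
    (supp_mono (fun x hx => by
      by_cases hB : x ∈ B
      · exact Or.inl fun a => hx.2 ⟨h.mem' hx.1 hB, a⟩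
      · exact Or.inr hB) _ hv)
    (by rwa [map_sub, bd_bd, sub_zero])
  obtain ⟨v₁, hv₁, v₂, hv₂, e2⟩ := Submodule.mem_sup.1 he
  refine ⟨μ₁ + μ₃ - v₁, Good.union hA (g1.congr hp ho hA ?_)
    ((h.good hp ho hw).congr hp ho h.inv ?_)⟩
  · rw [sub_sub_cancel_left]
    exact Submodule.mem_sup_right (Submodule.mem_sup_right (neg_mem hv₁))
  · have e3 : μ₁ + μ₃ - v₁ - c = bd ℤ X (m + 1) (a + e) + (μ₃ + v₂) := by
      rw [map_add, eq_sub_of_add_eq e2]
      abel
    rw [e3]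
    exact Submodule.mem_sup_right (Submodule.add_mem_sup ⟨_, rfl⟩ (add_mem h3 hv₂))

end Pool.Agent.MP_4f4d9f_gt.Hy.FundL

end

section

/-! The fundamental chain. -/

namespace Pool.Agent.MP_4f4d9f_gt.Hy

open Finsupp Filter Topology

namespace FundL

variable {G X M : Type} [Group G] [TopologicalSpace X] [MulAction G X] [TopologicalSpace M]
  {p : X → M} {m : ℕ} {od : X → Ch X (m + 1) → ℤ}

theorem exists_chart (hp : IsQuotientCoveringMap p G) (hc : Charts X m) (x : X) :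
    ∃ i : C(Eu m, X), IsOpenEmbedding i ∧ i 0 = x ∧
      ∀ (g : G), ∀ y ∈ Set.range i, g • y ∈ Set.range i → g = 1 := by
  obtain ⟨i, hi, y, rfl⟩ := hc x
  obtain ⟨U, hU, hU'⟩ := hp.disjoint (i y)
  obtain ⟨r, hr, h⟩ := Metric.mem_nhds_iff.1 (i.continuous.continuousAt.preimage_mem_nhds hU)
  have he : IsOpenEmbedding (OpenPartialHomeomorph.univBall y r : Eu m → Eu m) :=
    OpenPartialHomeomorph.isOpenEmbedding _ (OpenPartialHomeomorph.univBall_source y r)
  have hb : ∀ v : Eu m, i (OpenPartialHomeomorph.univBall y r v) ∈ U := fun v => h (by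
    rw [← OpenPartialHomeomorph.univBall_target y hr]
    exact OpenPartialHomeomorph.map_source _ (by simp))
  refine ⟨i.comp ⟨_, he.continuous⟩, hi.comp he,
    congrArg i (OpenPartialHomeomorph.univBall_apply_zero y r), ?_⟩
  rintro g _ ⟨a, rfl⟩ ⟨b, e⟩
  exact hU' g ⟨_, ⟨_, hb a, e.symm⟩, hb b⟩

theorem exists_loc [T2Space M] (hp : IsQuotientCoveringMap p G) (hc : Charts X m)
    (ho : LocOr m Set.univ od) (x : X) :
    ∃ (i : C(Eu m, X)) (K : Set X) (c : Ch X (m + 1)), K ∈ 𝓝 x ∧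
      Loc G od i K (p ⁻¹' (p '' K)) c := by
  have := t2_of_cover hp
  obtain ⟨i, hi, rfl, hf⟩ := exists_chart hp hc x
  obtain ⟨c, h1, h2⟩ := ho.gen (i 0) trivial
  have hu : Set.range i ∪ {i 0}ᶜ = Set.univ := Set.eq_univ_of_forall fun y => by
    by_cases h : y = i 0
    · exact Or.inl ⟨0, h.symm⟩
    · exact Or.inr h
  obtain ⟨c', h3, h4, h5⟩ := RZ.small hi.isOpen_range isOpen_compl_singleton
    (hu ▸ mem_supp_univ c) h1
  rw [hu] at h5
  have h6 : RZ {i 0}ᶜ (m + 1) c' := h4.mono Set.inter_subset_right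
  have h7 : od (i 0) c' = 1 := (ho.congr trivial h1 h5).symm.trans h2
  obtain ⟨N, hN, h8⟩ := h6.nhds
  obtain ⟨K, hK, h9, h10⟩ := local_compact_nhds
    (i.continuous.continuousAt.preimage_mem_nhds (inter_mem hN (ho.lc _ trivial c' h6)))
  have h11 : IsCompact (i '' K) := h10.image i.continuous
  refine ⟨i, i '' K, c', hi.isOpenMap.image_mem_nhds hK, hi, hf, h11, Set.image_subset_range _ _,
    (h11.image hp.continuous).isClosed.preimage hp.continuous, fun z => ⟨?_, ?_⟩, h3,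
    h8.mono (Set.compl_subset_compl.2 ?_), ?_⟩
  · rintro ⟨y, hy, e⟩
    obtain ⟨g, hg⟩ := hp.apply_eq_iff_mem_orbit.1 e.symm
    exact ⟨g, y, hy, hg⟩
  · rintro ⟨g, y, hy, rfl⟩
    exact ⟨y, hy, (hp.map_smul g).symm⟩
  · rintro _ ⟨y, hy, rfl⟩
    exact (h9 hy).1
  · rintro _ ⟨y, hy, rfl⟩
    exact (h9 hy).2.trans h7

end FundL

open FundL in
theorem fund_stmt (h : QStmt) : FundStmt := by
  classical
  intro G X M _ _ _ _ _ _ _ p m od w hp hc ho hw
  have := t2_of_cover hp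
  have hpr : Prp G X := proper_of_cover hp
  choose i K c hK hL using exists_loc hp hc ho
  choose s hs using hp.surjective
  obtain ⟨t, -, ht⟩ := isCompact_univ.elim_nhds_subcover (fun y : M => p '' K (s y))
    fun y _ => by simpa only [hs] using hp.isOpenQuotientMap.isOpenMap.image_mem_nhds (hK (s y))
  have key : ∀ t : Finset M, ∃ μ, Good w od (⋃ y ∈ t, p ⁻¹' (p '' K (s y))) μ := by
    intro t
    induction t using Finset.induction_on with
    | empty => exact ⟨0, by simp, by simp⟩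
    | insert y t _ ih =>
      obtain ⟨μ, hμ⟩ := ih
      rw [Finset.set_biUnion_insert, Set.union_comm]
      refine (hL (s y)).step h hpr ho hw (fun g x => ?_)
        (isClosed_biUnion_finset fun z _ => (hL (s z)).cl) hμ
      simp only [Set.mem_iUnion, Set.mem_preimage, hp.map_smul]
  obtain ⟨μ, hμ⟩ := key t
  have hu : (⋃ y ∈ t, p ⁻¹' (p '' K (s y))) = Set.univ := Set.eq_univ_of_forall fun x => by
    simpa only [Set.mem_iUnion, Set.mem_preimage] using ht (Set.mem_univ (p x))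
  rw [hu] at hμ
  refine ⟨μ, ?_, fun x => (rz_avF hpr (fun _ _ => Iff.rfl) hμ.1 trivial).and (hμ.2 x trivial)⟩
  obtain ⟨r, hr, v, hv, e⟩ := Submodule.mem_sup.1 hμ.1
  rw [Set.compl_univ] at hv
  rwa [← e, eq_zero_of_mem_supp_empty hv, add_zero]

end Pool.Agent.MP_4f4d9f_gt.Hy

end
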