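import Pool.Agent.Mg.F4f4d9fr.Gf4fb5f
import Pool.Agent.Mg.F4f4d9fr.G4ef018
import Pool.Agent.MP_4f4d9f_gt.SingCone

set_option linter.all false

section

/-! Interface, part A: the Thom cochain of the diagonal and the Smith argument. -/

namespace Pool.Agent.MP_4f4d9f_gt.Sg

open Finsupp Tup

/-- A linear map over `𝔽₂` as a linear map over `ℤ`. -/
def zl {M M' : Type} [AddCommGroup M] [AddCommGroup M'] [Module F2 M] [Module F2 M']
    (f : M →ₗ[F2] M') : M →ₗ[ℤ] M' := f.toAddMonoidHom.toIntLinearMap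

@[simp] theorem zl_apply {M M' : Type} [AddCommGroup M] [AddCommGroup M'] [Module F2 M]
    [Module F2 M'] (f : M →ₗ[F2] M') (x : M) : zl f x = f x := rfl

/-- Additive maps on mod 2 chains with values in a group killed by two. -/
noncomputable def lift2 {B Q : Type} [AddCommGroup Q] (φ : B → Q) (h : ∀ b, φ b + φ b = 0) :
    (B →₀ F2) →ₗ[ℤ] Q :=
  (Finsupp.liftAddHom fun b => ZMod.lift 2 ⟨zmultiplesHom Q (φ b), by
    rw [zmultiplesHom_apply]
    exact (two_zsmul _).trans (h b)⟩).toIntLinearMap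

theorem lift2_single {B Q : Type} [AddCommGroup Q] (φ : B → Q) (h : ∀ b, φ b + φ b = 0) (b : B) :
    lift2 φ h (single b 1) = φ b := by
  rw [lift2, AddMonoidHom.coe_toIntLinearMap, liftAddHom_apply_single]
  exact (ZMod.lift_coe 2 _ 1).trans (one_zsmul _)

theorem induction2 {B : Type} {P : (B →₀ F2) → Prop} (h0 : P 0)
    (hadd : ∀ x y, P x → P y → P (x + y)) (h1 : ∀ b, P (single b 1)) (c : B →₀ F2) : P c := by
  induction c using Finsupp.induction_linear with
  | zero => exact h0
  | add x y hx hy => exact hadd x y hx hy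
  | single x r =>
    have : r = 0 ∨ r = 1 := by revert r; decide
    rcases this with rfl | rfl
    · rwa [single_zero]
    · exact h1 x

theorem tens2_add_self {G N B : Type} [Group G] [Ring N] (ι : G →* N) [MulAction G B]
    (z : Tens ι (perm2 G B)) : z + z = 0 := by
  induction z using Tens.induction with
  | h0 => simp
  | hadd x y hx hy => rw [add_add_add_comm, hx, hy, add_zero]
  | h1 a c => rw [← smul_add, ← map_add, add_self2, map_zero, smul_zero]

variable {G : Type} [Group G]

theorem perm2_apply {B : Type} [MulAction G B] (g : G) (c : B →₀ F2) :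
    perm2 G B g c = c.mapDomain (g • ·) := rfl

/-- An equivariant, properly supported Thom cochain of the diagonal. -/
structure Thom (n : ℕ) (θ : Cell G → F2) : Prop where
  inv : ∀ (g : G) (x y : Tup G), θ (g • x, g • y) = θ (x, y)
  fin : ∀ x y : Tup G, {g : G | θ (x, g • y) ≠ 0}.Finite
  coc : ∀ c, linearCombination F2 θ (cb (single c 1)) = θ c + θ c.swap
  top : ∀ c, n < cdeg c → θ c = 0
  one : θ (pt 1, pt 1) = 1

section

variable {D : Type} [DivisionRing D] (ι : G →* D)

/-- Chains of the bar complex with coefficients in `D`. -/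
abbrev TD : Type := Tens ι (perm2 G (Tup G))

/-- The boundary. -/
noncomputable def dT : TD ι →ₗ[D] TD ι := Tens.map ι (zl (bdT F2)) fun g c => bdT_smul g c

/-- The projection onto degree `m`. -/
noncomputable def pT (m : ℕ) : TD ι →ₗ[D] TD ι :=
  Tens.map ι (zl (prD F2 deg m)) fun g c => prD_smul (deg_smul g) m c

/-- Chains of the tensor square with coefficients in `D ⊗ D`, over the diagonal group. -/
abbrev TC : Type := Tens (dg ι) (perm2 G (Cell G))

/-- The boundary. -/
noncomputable def dC : TC ι →ₗ[DD D] TC ι := Tens.map (dg ι) (zl cb) fun g c => cb_smul g c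

/-- The projection onto degree `m`. -/
noncomputable def pC (m : ℕ) : TC ι →ₗ[DD D] TC ι :=
  Tens.map (dg ι) (zl (prD F2 cdeg m)) fun g c => prD_smul (cdeg_smul g) m c

/-- The swap. -/
noncomputable def tC : TC ι →+ TC ι :=
  liftAdd (dg ι) (AddMonoidHom.mk' (fun a => AddMonoidHom.mk'
    (fun c => sw a • Tens.of (dg ι) (perm2 G (Cell G)) (cs c)) fun c c' => by
      rw [map_add, map_add, smul_add]) fun a b => by
        refine AddMonoidHom.ext fun c => ?_
        simp only [AddMonoidHom.mk'_apply, AddMonoidHom.add_apply, map_add, add_smul])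
    fun a g c => by
      simp only [AddMonoidHom.mk'_apply, map_mul, mul_smul, perm2_apply, cs_smul]
      rw [← perm2_apply, Tens.of_rep]
      rfl

theorem tC_smul_of (a : DD D) (c : Cell G →₀ F2) :
    tC ι (a • Tens.of (dg ι) (perm2 G (Cell G)) c) =
      sw a • Tens.of (dg ι) (perm2 G (Cell G)) (cs c) :=
  liftAdd_smul_of _ _ _ a c

/-- The homology of the bar complex with coefficients in `D` vanishes in degree `m`. -/
def VanT (m : ℕ) : Prop := ∀ z : TD ι, pT ι m z = z → dT ι z = 0 → ∃ w, dT ι w = z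

end

/-- A strictly equivariant chain map from the tensor square of the bar complex to the singular
chains of `X × X`. -/
structure Psi {X : Type} [TopologicalSpace X] [MulAction G X] [ContinuousConstSMul G X] (x₀ : X)
    (ψ : (i : ℕ) → (Cell G →₀ F2) →ₗ[F2] (Sing (X × X) i →₀ F2)) : Prop where
  deg : ∀ i c, cdeg c ≠ i → ψ i (single c 1) = 0
  bd : ∀ i c, bd F2 (X × X) i (ψ (i + 1) c) = ψ i (cb c)
  swp : ∀ i c, swp F2 X i (ψ i c) = ψ i (cs c)
  eqv : ∀ i (g h : G) (x y : Tup G), ψ i (single (g • x, h • y) 1) =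
    push F2 ⟨Prod.map (g • ·) (h • ·),
      (continuous_const_smul g).prodMap (continuous_const_smul h)⟩ i (ψ i (single (x, y) 1))
  base : ψ 0 (single (pt 1, pt 1) 1) = single (ContinuousMap.const _ (x₀, x₀)) 1

/-- An Alexander-Whitney diagonal. -/
structure AW (aw : (Tup G →₀ F2) →ₗ[F2] (Cell G →₀ F2)) : Prop where
  bd : ∀ c, cb (aw c) = aw (bdT F2 c)
  eqv : ∀ (g : G) c, aw (c.mapDomain (g • ·)) = (aw c).mapDomain (g • ·)
  deg : ∀ x, ∀ e ∈ (aw (single x 1)).support, cdeg e = x.deg
  top : ∀ x, prD F2 (fun e : Cell G => e.1.deg) 0 (aw (single x 1)) = single (pt x.hd, x) 1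

/-! ### Statements -/

/-- Job `AW`. -/
def AWStmt : Prop :=
  ∀ (G : Type) [Group G], ∃ aw : (Tup G →₀ F2) →ₗ[F2] (Cell G →₀ F2), AW aw

/-- Job `Om`. -/
def OmStmt : Prop :=
  ∀ (G D : Type) [Group G] [DivisionRing D] (ι : G →* D) (n : ℕ) (θ : Cell G → F2),
    Thom n θ → (∀ g : G, g * g = 1 → g = 1) → ∃ Ω : TD ι →+ TD ι →+ TC ι,
      (∀ z z', dC ι (Ω z z') = Ω (dT ι z) z' + Ω z (dT ι z') + Ω z z' + tC ι (Ω z' z)) ∧
      (∀ m i z z', i + n < 2 * m → pC ι i (Ω (pT ι m z) (pT ι m z')) = 0) ∧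
      ∀ (m : ℕ) (f : TD ι →ₗ[D] D) (L : TC ι →ₗ[DD D] DD D), (∀ w, f (pT ι m w) = f w) →
        (∀ x y : Tup G, L (Tens.of _ _ (single (x, y) 1)) =
          tm (f (Tens.of _ _ (single x 1))) (f (Tens.of _ _ (single y 1)))) →
        ∀ z z', L (Ω (pT ι m z) (pT ι m z')) = tm (f z) (f z')

/-- Job `Psi`. -/
def PsiStmt : Prop :=
  ∀ (G X : Type) [Group G] [TopologicalSpace X] [MulAction G X] [ContinuousConstSMul G X]
    [ContractibleSpace X], ∃ (x₀ : X) (ψ : (i : ℕ) → (Cell G →₀ F2) →ₗ[F2] (Sing (X × X) i →₀ F2)),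
      Psi x₀ ψ

/-- Job `Theta`. -/
def ThetaStmt : Prop :=
  ∀ (G X : Type) [Group G] [TopologicalSpace X] [MulAction G X] [ContinuousConstSMul G X] (n : ℕ),
    (∀ K : Set X, IsCompact K → {g : G | ((g • ·) '' K ∩ K).Nonempty}.Finite) →
    PP n (Set.univ : Set X) →
    ∀ (x₀ : X) (ψ : (i : ℕ) → (Cell G →₀ F2) →ₗ[F2] (Sing (X × X) i →₀ F2)), Psi x₀ ψ →
      ∃ θ : Cell G → F2, Thom n θ

/-- Job `Cap`. -/
def CapStmt : Prop :=
  ∀ (G D : Type) [Group G] [DivisionRing D] [CharP D 2] (ι : G →* D) (n : ℕ) (θ : Cell G → F2),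
    Thom n θ → (∀ g : G, g * g = 1 → g = 1) → ∀ (m : ℕ) (z : TD ι) (f : TD ι →ₗ[D] D),
      pT ι m z = z → dT ι z = 0 → (∀ w, f (dT ι w) = 0) → (∀ w, f (pT ι m w) = f w) → f z = 1 →
      ∃ (v : TC ι) (Φ : TC ι →+ F2), dC ι v = v + tC ι v ∧ (∀ i, i + n < 2 * m → pC ι i v = 0) ∧
        (∀ y, Φ (dC ι y) = 0) ∧ (∀ y, Φ (tC ι y) = Φ y) ∧ (∀ y, Φ (pC ι (2 * m) y) = Φ y) ∧
        Φ v = 1

/-- Job `Smith`. -/
def SmithStmt : Prop :=
  ∀ (G D : Type) [Group G] [DivisionRing D] [CharP D 2] (ι : G →* D) (n : ℕ) (θ : Cell G → F2),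
    Thom n θ → WHF ι → Flat ι → ∀ m, n < 2 * m → VanT ι m

/-- Job `Bar`. -/
def BarStmt : Prop :=
  ∀ (G D : Type) [Group G] [DivisionRing D] [CharP D 2] (ι : G →* D) (k : ℕ), VanT ι (k + 1) →
    ∀ (C : ℕ → Type) [∀ k, AddCommGroup (C k)] (ρ : ∀ k, Representation ℤ G (C k))
      (d : ∀ k, C (k + 1) →ₗ[ℤ] C k) (ε : C 0 →ₗ[ℤ] ℤ) (R : IsRes ρ d ε),
      ExactAt ι ρ d R.eqv_d k

end Pool.Agent.MP_4f4d9f_gt.Sg

end

section

/-! The bar resolution computes the homology with coefficients in a division ring. -/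

namespace Pool.Agent.MP_4f4d9f_gt.Sg

namespace Bar

open Finsupp Tup

variable {G : Type}

/-- Tuples of degree `k`. -/
def BT (G : Type) (k : ℕ) : Type := {x : Tup G // x.deg = k}

instance [Group G] (k : ℕ) : MulAction G (BT G k) where
  smul g x := ⟨g • x.1, (deg_smul g x.1).trans x.2⟩
  one_smul x := Subtype.ext (one_smul G x.1)
  mul_smul g h x := Subtype.ext (mul_smul g h x.1)

/-- A tuple with its degree. -/
def mkB {k : ℕ} (x : Tup G) (h : x.deg = k) : BT G k := ⟨x, h⟩

theorem smul_val [Group G] {k : ℕ} (g : G) (x : BT G k) : (g • x).1 = g • x.1 := rfl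

/-- The inclusion of the chains of degree `k`. -/
noncomputable def inc (k : ℕ) : (BT G k →₀ ℤ) →ₗ[ℤ] (Tup G →₀ ℤ) := lmapDomain ℤ ℤ Subtype.val

/-- The restriction to degree `k`. -/
noncomputable def res (k : ℕ) : (Tup G →₀ ℤ) →ₗ[ℤ] (BT G k →₀ ℤ) :=
  linearCombination ℤ fun x => if h : x.deg = k then single (mkB x h) 1 else 0

theorem inc_single (k : ℕ) (x : BT G k) (n : ℤ) : inc k (single x n) = single x.1 n :=
  mapDomain_single

theorem res_single (k : ℕ) (x : Tup G) (n : ℤ) :
    res k (single x n) = if h : x.deg = k then single (mkB x h) n else 0 := by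
  rw [res, linearCombination_single]
  split_ifs <;> simp

theorem inc_res (k : ℕ) (c : Tup G →₀ ℤ) : inc k (res k c) = prD ℤ deg k c := by
  induction c using Finsupp.induction_linear with
  | zero => simp
  | add x y hx hy => simp only [map_add, hx, hy]
  | single x n =>
    rw [res_single, prD_single]
    split_ifs
    · exact inc_single _ _ _
    · exact map_zero _

theorem res_inc (k : ℕ) (c : BT G k →₀ ℤ) : res k (inc k c) = c := by
  induction c using Finsupp.induction_linear with
  | zero => simp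
  | add x y hx hy => simp only [map_add, hx, hy]
  | single x n =>
    rw [inc_single, res_single, dif_pos x.2]
    rfl

theorem inc_inj {k : ℕ} {c c' : BT G k →₀ ℤ} (h : inc k c = inc k c') : c = c' := by
  rw [← res_inc k c, h, res_inc]

theorem prD_inc (k : ℕ) (c : BT G k →₀ ℤ) : prD ℤ deg k (inc k c) = inc k c := by
  rw [← inc_res, res_inc]

/-- The boundary. -/
noncomputable def dB (k : ℕ) : (BT G (k + 1) →₀ ℤ) →ₗ[ℤ] (BT G k →₀ ℤ) :=
  res k ∘ₗ bdT ℤ ∘ₗ inc (k + 1)

theorem inc_dB (k : ℕ) (c : BT G (k + 1) →₀ ℤ) : inc k (dB k c) = bdT ℤ (inc (k + 1) c) := by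
  rw [dB, LinearMap.comp_apply, LinearMap.comp_apply, inc_res, prD_bdT, prD_inc]

/-- The augmentation. -/
noncomputable def eB : (BT G 0 →₀ ℤ) →ₗ[ℤ] ℤ := eps ℤ ∘ₗ inc 0

theorem eB_apply (c : BT G 0 →₀ ℤ) : eB c = eps ℤ (inc 0 c) := rfl

theorem eps_inc_succ (k : ℕ) (c : BT G (k + 1) →₀ ℤ) : eps ℤ (inc (k + 1) c) = 0 := by
  induction c using Finsupp.induction_linear with
  | zero => simp
  | add x y hx hy => simp only [map_add, hx, hy, add_zero]
  | single x n => rw [inc_single, eps_single, if_neg (by rw [x.2]; omega)]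

theorem bdT_inc_zero (c : BT G 0 →₀ ℤ) : bdT ℤ (inc 0 c) = 0 := by
  induction c using Finsupp.induction_linear with
  | zero => simp
  | add x y hx hy => simp only [map_add, hx, hy, add_zero]
  | single x n => rw [inc_single, eq_pt x.2, bdT_pt]

theorem dB_cn (k : ℕ) (a : G) (c : BT G k →₀ ℤ) (h1 : bdT ℤ (inc k c) = 0)
    (h2 : eps ℤ (inc k c) = 0) : dB k (res (k + 1) (cn ℤ a (inc k c))) = c := by
  apply inc_inj
  rw [inc_dB, inc_res, prD_cn, prD_inc, bdT_cn, h1, h2, map_zero, zero_smul, sub_zero, sub_zero]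

/-- Reduction mod 2. -/
noncomputable def red : (Tup G →₀ ℤ) →ₗ[ℤ] (Tup G →₀ F2) :=
  linearCombination ℤ fun x => single x 1

theorem red_single (x : Tup G) (n : ℤ) : red (single x n) = single x (n : F2) := by
  simp [red]

theorem red_cn (a : G) (c : Tup G →₀ ℤ) : red (cn ℤ a c) = cn F2 a (red c) := by
  induction c using Finsupp.induction_linear with
  | zero => simp
  | add x y hx hy => simp only [map_add, hx, hy]
  | single x n => simp only [cn_single, red_single]

theorem red_prD (k : ℕ) (c : Tup G →₀ ℤ) : red (prD ℤ deg k c) = prD F2 deg k (red c) := by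
  induction c using Finsupp.induction_linear with
  | zero => simp
  | add x y hx hy => simp only [map_add, hx, hy]
  | single x n =>
    simp only [prD_single, red_single]
    split_ifs
    · exact red_single _ _
    · exact map_zero _

theorem red_bdT (c : Tup G →₀ ℤ) : red (bdT ℤ c) = bdT F2 (red c) := by
  induction c using Finsupp.induction_linear with
  | zero => simp
  | add x y hx hy => simp only [map_add, hx, hy]
  | single x n =>
    induction x using Tup.induction with
    | h0 a => rw [red_single, bdT_pt, bdT_pt, map_zero]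
    | h1 a x ih =>
      rw [red_single, bdT_cons, bdT_cons, map_sub, map_sub, red_cn, ih, red_single, smul_single,
        smul_single, red_single, eps_single, eps_single]
      split_ifs <;> simp

variable [Group G]

theorem inc_rep (k : ℕ) (g : G) (c : BT G k →₀ ℤ) :
    inc k (permRep G (BT G k) g c) = (inc k c).mapDomain (g • ·) := by
  induction c using Finsupp.induction_linear with
  | zero => simp
  | add x y hx hy => simp only [map_add, hx, hy, mapDomain_add]
  | single x n => rw [permRep_single, inc_single, inc_single, mapDomain_single, smul_val]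

theorem res_smul (k : ℕ) (g : G) (c : Tup G →₀ ℤ) :
    res k (c.mapDomain (g • ·)) = permRep G (BT G k) g (res k c) := by
  apply inc_inj
  rw [inc_res, inc_rep, inc_res, prD_smul (deg_smul g)]

theorem red_smul (g : G) (c : Tup G →₀ ℤ) :
    red (c.mapDomain (g • ·)) = perm2 G (Tup G) g (red c) := by
  induction c using Finsupp.induction_linear with
  | zero => simp
  | add x y hx hy => simp only [map_add, hx, hy, mapDomain_add]
  | single x n => rw [mapDomain_single, red_single, red_single, perm2_single]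

/-- The bar resolution. -/
theorem isRes (G : Type) [Group G] :
    IsRes (fun k => permRep G (BT G k)) (fun k => dB (G := G) k) eB where
  eqv_d k g c := inc_inj (by rw [inc_dB, inc_rep, inc_rep, bdT_smul, inc_dB])
  eqv_ε g c := by rw [eB_apply, eB_apply, inc_rep, eps_smul]
  ε_d c := by rw [eB_apply, inc_dB, eps_bdT]
  d_d k c := inc_inj (by rw [inc_dB, inc_dB, bdT_bdT, map_zero])
  surj := ⟨single (mkB (pt 1) rfl) 1, by
    rw [eB_apply, inc_single, eps_single]
    exact if_pos rfl⟩
  exact_zero c hc := ⟨_, dB_cn 0 1 c (bdT_inc_zero c) hc⟩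
  exact_succ k c hc := ⟨_, dB_cn (k + 1) 1 c (by rw [← inc_dB, hc, map_zero]) (eps_inc_succ k c)⟩
  proj k := proj_free (MonoidHom.id G) Function.injective_id fun g x h =>
    Tup.free g x.1 (congrArg Subtype.val h)

variable {D : Type} [DivisionRing D] (ι : G →* D)

/-- The comparison map to the mod 2 chains. -/
noncomputable def aM (k : ℕ) : Tens ι (permRep G (BT G k)) →ₗ[D] TD ι :=
  Tens.map ι (red ∘ₗ inc k) fun g c => by
    rw [LinearMap.comp_apply, LinearMap.comp_apply, inc_rep, red_smul]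

theorem aM_of (k : ℕ) (c : BT G k →₀ ℤ) :
    aM ι k (Tens.of ι _ c) = Tens.of ι (perm2 G (Tup G)) (red (inc k c)) := rfl

theorem dT_of (c : Tup G →₀ F2) :
    dT ι (Tens.of ι _ c) = Tens.of ι (perm2 G (Tup G)) (bdT F2 c) := rfl

theorem pT_of (m : ℕ) (c : Tup G →₀ F2) :
    pT ι m (Tens.of ι _ c) = Tens.of ι (perm2 G (Tup G)) (prD F2 deg m c) := rfl

theorem dT_aM (k : ℕ) (z : Tens ι (permRep G (BT G (k + 1)))) :
    dT ι (aM ι (k + 1) z) = aM ι k (Tens.map ι (dB k) ((isRes G).eqv_d k) z) :=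
  LinearMap.congr_fun (f := dT ι ∘ₗ aM ι (k + 1))
    (g := aM ι k ∘ₗ Tens.map ι (dB k) ((isRes G).eqv_d k)) (Tens.hom_ext ι fun c => by
      rw [LinearMap.comp_apply, LinearMap.comp_apply, Tens.map_of, aM_of, aM_of, dT_of, inc_dB,
        red_bdT]) z

theorem pT_dT (m : ℕ) (w : TD ι) : pT ι m (dT ι w) = dT ι (pT ι (m + 1) w) :=
  LinearMap.congr_fun (f := pT ι m ∘ₗ dT ι) (g := dT ι ∘ₗ pT ι (m + 1))
    (Tens.hom_ext ι fun c => by
      rw [LinearMap.comp_apply, LinearMap.comp_apply, dT_of, pT_of, pT_of, dT_of, prD_bdT]) w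

variable [CharP D 2]

theorem add_self_mod {Q : Type} [AddCommGroup Q] [Module D Q] (z : Q) : z + z = 0 := by
  rw [← two_smul D, CharTwo.two_eq_zero, zero_smul]

/-- The comparison map from the mod 2 chains, before tensoring. -/
noncomputable def r0 (k : ℕ) : (Tup G →₀ F2) →ₗ[ℤ] Tens ι (permRep G (BT G k)) :=
  lift2 (fun x => Tens.of ι (permRep G (BT G k)) (res k (single x 1))) fun _ =>
    add_self_mod (D := D) _

theorem r0_single (k : ℕ) (x : Tup G) :
    r0 ι k (single x 1) = Tens.of ι (permRep G (BT G k)) (res k (single x 1)) :=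
  lift2_single _ _ x

theorem r0_red (k : ℕ) (c : Tup G →₀ ℤ) :
    r0 ι k (red c) = Tens.of ι (permRep G (BT G k)) (res k c) := by
  induction c using Finsupp.induction_linear with
  | zero => simp
  | add x y hx hy => simp only [map_add, hx, hy]
  | single x n =>
    rw [← smul_single_one, map_zsmul, map_zsmul, map_zsmul, map_zsmul, red_single, Int.cast_one,
      r0_single]

/-- The comparison map from the mod 2 chains. -/
noncomputable def rM (k : ℕ) : TD ι →ₗ[D] Tens ι (permRep G (BT G k)) :=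
  Tens.lift ι (r0 ι k) fun g c => by
    induction c using induction2 with
    | h0 => simp
    | hadd x y hx hy => simp only [map_add, hx, hy, smul_add]
    | h1 x =>
      rw [perm2_single, r0_single, r0_single, ← Tens.of_rep, ← res_smul, mapDomain_single]

theorem rM_of (k : ℕ) (c : Tup G →₀ F2) : rM ι k (Tens.of ι _ c) = r0 ι k c :=
  Tens.lift_of ι _ _ c

theorem rM_aM (k : ℕ) (z : Tens ι (permRep G (BT G k))) : rM ι k (aM ι k z) = z :=
  LinearMap.congr_fun (f := rM ι k ∘ₗ aM ι k) (g := LinearMap.id) (Tens.hom_ext ι fun c => by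
    rw [LinearMap.comp_apply, aM_of, rM_of, r0_red, res_inc, LinearMap.id_apply]) z

theorem aM_rM (k : ℕ) (w : TD ι) : aM ι k (rM ι k w) = pT ι k w :=
  LinearMap.congr_fun (f := aM ι k ∘ₗ rM ι k) (g := pT ι k) (Tens.hom_ext ι fun c => by
    rw [LinearMap.comp_apply, rM_of, pT_of]
    induction c using induction2 with
    | h0 => simp
    | hadd x y hx hy => simp only [map_add, hx, hy]
    | h1 x => rw [r0_single, aM_of, inc_res, red_prD, red_single, Int.cast_one]) w

theorem exact_bar (k : ℕ) (h : VanT ι (k + 1)) :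
    ExactAt ι (fun k => permRep G (BT G k)) (fun k => dB (G := G) k) (isRes G).eqv_d k := by
  intro z hz
  have hp : pT ι (k + 1) (aM ι (k + 1) z) = aM ι (k + 1) z := by rw [← aM_rM, rM_aM]
  obtain ⟨w, hw⟩ := h (aM ι (k + 1) z) hp (by
    rw [dT_aM]
    exact (congrArg (aM ι k) hz).trans (map_zero _))
  refine ⟨rM ι (k + 2) w, ?_⟩
  have e := dT_aM ι (k + 1) (rM ι (k + 2) w)
  rw [aM_rM, ← pT_dT, hw, hp] at e
  have e2 := congrArg (rM ι (k + 1)) e
  rw [rM_aM, rM_aM] at e2
  exact e2.symm

end Bar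

theorem bar_stmt : BarStmt := by
  intro G D _ _ _ ι k h C _ ρ d ε R z hz
  obtain ⟨s, hs, w, hw⟩ := IsRes.torsAt ι R (Bar.isRes G) (k := k) (fun y hy => by
    obtain ⟨w, hw⟩ := Bar.exact_bar ι k h y hy
    exact ⟨1, isRegular_one.left, w, by rw [one_smul]; exact hw⟩) z hz
  exact ⟨s⁻¹ • w, by rw [map_smul, hw, smul_smul, inv_mul_cancel₀ hs.ne_zero, one_smul]⟩

end Pool.Agent.MP_4f4d9f_gt.Sg

end

section

/-! The equivariant chain map to the singular chains of the square. -/

namespace Pool.Agent.MP_4f4d9f_gt.Sg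

open Finsupp Tup

namespace PsiH

variable {G X : Type} [Group G] [TopologicalSpace X] [MulAction G X] [ContinuousConstSMul G X]

/-- The action of a pair of group elements on singular chains. -/
noncomputable def P (g h : G) (i : ℕ) : (Sing (X × X) i →₀ F2) →ₗ[F2] (Sing (X × X) i →₀ F2) :=
  push F2 ⟨Prod.map (g • ·) (h • ·),
    (continuous_const_smul g).prodMap (continuous_const_smul h)⟩ i

theorem P_P (g h g' h' : G) (i : ℕ) (c : Sing (X × X) i →₀ F2) :
    P g h i (P g' h' i c) = P (g * g') (h * h') i c := by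
  rw [P, P, P, push_push]
  congr 2
  ext x
  exacts [(mul_smul _ _ _).symm, (mul_smul _ _ _).symm]

theorem P_one (i : ℕ) (c : Sing (X × X) i →₀ F2) : P (1 : G) 1 i c = c := by
  rw [P, ← push_id F2 i c, push_push]
  congr 2
  ext x
  exacts [one_smul _ _, one_smul _ _]

theorem swp_P (g h : G) (i : ℕ) (c : Sing (X × X) i →₀ F2) :
    swp F2 X i (P g h i c) = P h g i (swp F2 X i c) := by
  rw [P, P, swp, push_push, push_push]
  rfl

theorem bd_P (g h : G) (i : ℕ) (c : Sing (X × X) (i + 1) →₀ F2) :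
    bd F2 (X × X) i (P g h (i + 1) c) = P g h i (bd F2 (X × X) i c) := bd_push F2 _ i c

variable (x₀ : X) (K : (i : ℕ) → (Sing (X × X) i →₀ F2) →ₗ[F2] (Sing (X × X) (i + 1) →₀ F2))

/-- The chain map. -/
noncomputable def ps : (i : ℕ) → (Cell G →₀ F2) →ₗ[F2] (Sing (X × X) i →₀ F2)
  | 0 => linearCombination F2 fun c => if cdeg c = 0 then
      P c.1.hd c.2.hd 0 (single (ContinuousMap.const _ (x₀, x₀)) 1) else 0
  | i + 1 => linearCombination F2 fun c => if cdeg c = i + 1 then
      P c.1.hd c.2.hd (i + 1) (K i (P c.1.hd⁻¹ c.2.hd⁻¹ i (ps i (cb (single c 1))))) else 0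

theorem ps_zero (c : Cell G) : ps x₀ K 0 (single c 1) = if cdeg c = 0 then
    P c.1.hd c.2.hd 0 (single (ContinuousMap.const _ (x₀, x₀)) 1) else 0 := by
  rw [ps, linearCombination_single, one_smul]

theorem ps_succ (i : ℕ) (c : Cell G) : ps x₀ K (i + 1) (single c 1) = if cdeg c = i + 1 then
    P c.1.hd c.2.hd (i + 1) (K i (P c.1.hd⁻¹ c.2.hd⁻¹ i (ps x₀ K i (cb (single c 1))))) else 0 := by
  rw [ps, linearCombination_single, one_smul]

theorem ps_deg (i : ℕ) (c : Cell G) (h : cdeg c ≠ i) : ps x₀ K i (single c 1) = 0 := by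
  cases i with
  | zero => rw [ps_zero, if_neg h]
  | succ i => rw [ps_succ, if_neg h]

theorem ps_cb (i : ℕ) (c : Cell G) (h : cdeg c ≠ i + 1) : ps x₀ K i (cb (single c 1)) = 0 := by
  rw [← (cb (single c 1)).sum_single, Finsupp.sum, map_sum]
  refine Finset.sum_eq_zero fun e he => ?_
  have := cdeg_of_mem_cb he
  rw [← smul_single_one, map_smul, ps_deg x₀ K i e (by omega), smul_zero]

theorem ps_eqv (i : ℕ) (g h : G) (c : Cell G →₀ F2) :
    ps x₀ K i (c.mapDomain (Prod.map (g • ·) (h • ·))) = P g h i (ps x₀ K i c) := by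
  induction i generalizing c with
  | zero =>
    induction c using induction2 with
    | h0 => simp
    | hadd a b ha hb => simp only [mapDomain_add, map_add, ha, hb]
    | h1 c =>
      rw [mapDomain_single, ps_zero, ps_zero, apply_ite (P g h 0), map_zero, P_P]
      exact if_congr (by simp [cdeg]) rfl rfl
  | succ i ih =>
    induction c using induction2 with
    | h0 => simp
    | hadd a b ha hb => simp only [mapDomain_add, map_add, ha, hb]
    | h1 c =>
      rw [mapDomain_single, ps_succ, ps_succ, apply_ite (P g h (i + 1)), map_zero, P_P,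
        ← mapDomain_single, cb_smul2, ih, P_P]
      exact if_congr (by simp [cdeg]) (by simp) rfl

theorem ps_swp (hK : ∀ i c, swp F2 X (i + 1) (K i c) = K i (swp F2 X i c)) (i : ℕ)
    (c : Cell G →₀ F2) : swp F2 X i (ps x₀ K i c) = ps x₀ K i (cs c) := by
  induction i generalizing c with
  | zero =>
    induction c using induction2 with
    | h0 => simp
    | hadd a b ha hb => simp only [map_add, ha, hb]
    | h1 c =>
      rw [cs_single, ps_zero, ps_zero, apply_ite (swp F2 X 0), map_zero, swp_P, swp, push_single]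
      exact if_congr (by rw [cdeg, cdeg, add_comm]; rfl) rfl rfl
  | succ i ih =>
    induction c using induction2 with
    | h0 => simp
    | hadd a b ha hb => simp only [map_add, ha, hb]
    | h1 c =>
      rw [cs_single, ps_succ, ps_succ, apply_ite (swp F2 X (i + 1)), map_zero, swp_P, hK, swp_P, ih,
        ← cb_cs, cs_single]
      exact if_congr (by rw [cdeg, cdeg, add_comm]; rfl) rfl rfl

theorem aug_ps (u v : Tup G →₀ F2) :
    aug F2 (X × X) (ps x₀ K 0 (pr2 u v)) = eps F2 u * eps F2 v := by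
  induction u using induction2 with
  | h0 => simp
  | hadd a b ha hb => simp only [map_add, LinearMap.add_apply, ha, hb, add_mul]
  | h1 x =>
    induction v using induction2 with
    | h0 => simp
    | hadd a b ha hb => simp only [map_add, ha, hb, mul_add]
    | h1 y =>
      rw [pr2_single, mul_one, ps_zero, apply_ite (aug F2 (X × X)), map_zero, P, aug_push,
        aug_single, eps_single, eps_single]
      simp only [cdeg, Nat.add_eq_zero_iff, ite_and, mul_ite, mul_one, mul_zero]
      split_ifs <;> rfl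

theorem ps_bd (h0 : ∀ c, aug F2 (X × X) c = 0 → bd F2 (X × X) 0 (K 0 c) = c)
    (h1 : ∀ i c, bd F2 (X × X) i c = 0 → bd F2 (X × X) (i + 1) (K (i + 1) c) = c) (i : ℕ)
    (c : Cell G →₀ F2) : bd F2 (X × X) i (ps x₀ K (i + 1) c) = ps x₀ K i (cb c) := by
  induction i generalizing c with
  | zero =>
    induction c using induction2 with
    | h0 => simp
    | hadd a b ha hb => simp only [map_add, ha, hb]
    | h1 c =>
      rw [ps_succ]
      split_ifs with h
      · rw [bd_P, h0, P_P, mul_inv_cancel, mul_inv_cancel, P_one]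
        rw [P, aug_push, cb, linearCombination_single, one_smul, map_add, map_add, aug_ps, aug_ps,
          eps_bdT, eps_bdT, zero_mul, mul_zero, add_zero]
      · rw [map_zero, ps_cb x₀ K 0 c h]
  | succ i ih =>
    induction c using induction2 with
    | h0 => simp
    | hadd a b ha hb => simp only [map_add, ha, hb]
    | h1 c =>
      rw [ps_succ]
      split_ifs with h
      · rw [bd_P, h1, P_P, mul_inv_cancel, mul_inv_cancel, P_one]
        rw [bd_P, ih, cb_cb, map_zero, map_zero]
      · rw [map_zero, ps_cb x₀ K (i + 1) c h]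

end PsiH

theorem psi_stmt : PsiStmt := by
  intro G X _ _ _ _ _
  obtain ⟨x₀, ⟨H⟩⟩ := id_nullhomotopic X
  let H2 : (ContinuousMap.id (X × X)).Homotopy (ContinuousMap.const _ (x₀, x₀)) :=
    { toFun := fun p => (H (p.1, p.2.1), H (p.1, p.2.2))
      continuous_toFun := by fun_prop
      map_zero_left := fun p => by rw [H.apply_zero, H.apply_zero]; rfl
      map_one_left := fun p => by rw [H.apply_one, H.apply_one]; rfl }
  refine ⟨x₀, PsiH.ps x₀ (cone F2 H2), PsiH.ps_deg _ _, PsiH.ps_bd _ _ (fun c hc => ?_)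
    fun i c hc => ?_, PsiH.ps_swp _ _ fun i c => ?_, fun i g h x y => ?_, ?_⟩
  · rw [bd_cone_zero, hc, push_id, single_zero, sub_zero]
  · rw [bd_cone_succ, hc, push_id, map_zero, sub_zero]
  · induction c using induction2 with
    | h0 => simp
    | hadd a b ha hb => simp only [map_add, ha, hb]
    | h1 σ =>
      rw [swp, swp, cone_single, push_single, push_single, cone_single]
      refine congrArg (single · 1) (ContinuousMap.ext fun t => ?_)
      obtain ⟨⟨s, y⟩, rfl⟩ := cyl_surj i t
      rw [ContinuousMap.comp_apply, coneS_cyl, coneS_cyl]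
      rfl
  · have := PsiH.ps_eqv x₀ (cone F2 H2) i g h (single (x, y) 1)
    rwa [mapDomain_single] at this
  · rw [PsiH.ps_zero, if_pos (show cdeg (pt (1 : G), pt 1) = 0 from rfl)]
    exact PsiH.P_one 0 _

end Pool.Agent.MP_4f4d9f_gt.Sg

end
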