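import Pool.Agent.Mg.F4f4d9fr.Gb94000
import Pool.Agent.Mg.F4f4d9fr.G1afe66
import Pool.Agent.Mg.F4f4d9fr.Gba0513
import Pool.Agent.Mg.F4f4d9fr.G4ef018
import Mathlib.Topology.Homotopy.Lifting
import Mathlib.Topology.Covering.Basic

set_option linter.all false

section

/-! Interface, part E: integral Poincare duality for the deck group of a contractible manifold. -/

namespace Pool.Agent.MP_4f4d9f_gt.Hy

open Finsupp Sg Sg.Tup Filter Topology

/-- Integral singular chains. -/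
abbrev Ch (Y : Type) [TopologicalSpace Y] (k : ℕ) : Type := Sing Y k →₀ ℤ

/-- Euclidean space of dimension `m + 1`. -/
abbrev Eu (m : ℕ) : Type := EuclideanSpace ℝ (Fin (m + 1))

section Rel

variable {Y Y' : Type} [TopologicalSpace Y] [TopologicalSpace Y']

/-- Relative cycles. -/
def RZ (B : Set Y) : (k : ℕ) → Ch Y k → Prop
  | 0, _ => True
  | k + 1, c => bd ℤ Y k c ∈ supp ℤ B k

/-- Relative boundaries. -/
def RB (A B : Set Y) (k : ℕ) (c : Ch Y k) : Prop :=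
  ∃ a ∈ supp ℤ A (k + 1), c - bd ℤ Y k a ∈ supp ℤ B k

variable {A A' B B' : Set Y} {k : ℕ} {c c' : Ch Y k}

theorem rz_succ {c : Ch Y (k + 1)} : RZ B (k + 1) c ↔ bd ℤ Y k c ∈ supp ℤ B k := Iff.rfl

theorem RZ.add (h : RZ B k c) (h' : RZ B k c') : RZ B k (c + c') := by
  cases k with
  | zero => trivial
  | succ k => rw [rz_succ, map_add]; exact add_mem h h'

theorem RZ.smul (h : RZ B k c) (r : ℤ) : RZ B k (r • c) := by
  cases k with
  | zero => trivial
  | succ k => rw [rz_succ, map_smul]; exact Submodule.smul_mem _ r h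

theorem RZ.neg (h : RZ B k c) : RZ B k (-c) := by simpa using h.smul (-1)

theorem RZ.sub (h : RZ B k c) (h' : RZ B k c') : RZ B k (c - c') := by
  simpa [sub_eq_add_neg] using h.add h'.neg

theorem RZ.mono (h : RZ B k c) (e : B ⊆ B') : RZ B' k c := by
  cases k with
  | zero => trivial
  | succ k => exact supp_mono e k h

theorem rz_of_mem (h : c ∈ supp ℤ B k) : RZ B k c := by
  cases k with
  | zero => trivial
  | succ k => exact bd_mem_supp h

theorem rz_bd (a : Ch Y (k + 1)) : RZ B k (bd ℤ Y k a) := by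
  cases k with
  | zero => trivial
  | succ k => rw [rz_succ, bd_bd]; exact zero_mem _

theorem RZ.push (h : RZ B k c) (f : C(Y, Y')) {D : Set Y'} (hf : Set.MapsTo f B D) :
    RZ D k (push ℤ f k c) := by
  cases k with
  | zero => trivial
  | succ k => rw [rz_succ, bd_push]; exact push_mem_supp f hf h

theorem rb_of_mem (h : c ∈ supp ℤ B k) : RB A B k c := ⟨0, zero_mem _, by simpa using h⟩

theorem rb_zero : RB A B k 0 := rb_of_mem (zero_mem _)

theorem rb_bd {a : Ch Y (k + 1)} (h : a ∈ supp ℤ A (k + 1)) : RB A B k (bd ℤ Y k a) :=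
  ⟨a, h, by simp⟩

theorem RB.add (h : RB A B k c) (h' : RB A B k c') : RB A B k (c + c') := by
  obtain ⟨a, h1, h2⟩ := h
  obtain ⟨a', h3, h4⟩ := h'
  refine ⟨a + a', add_mem h1 h3, ?_⟩
  convert add_mem h2 h4 using 1
  rw [map_add]; abel

theorem RB.smul (h : RB A B k c) (r : ℤ) : RB A B k (r • c) := by
  obtain ⟨a, h1, h2⟩ := h
  refine ⟨r • a, Submodule.smul_mem _ r h1, ?_⟩
  rw [map_smul, ← smul_sub]
  exact Submodule.smul_mem _ r h2

theorem RB.neg (h : RB A B k c) : RB A B k (-c) := by simpa using h.smul (-1)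

theorem RB.sub (h : RB A B k c) (h' : RB A B k c') : RB A B k (c - c') := by
  simpa [sub_eq_add_neg] using h.add h'.neg

theorem RB.mono (h : RB A B k c) (e : A ⊆ A') (e' : B ⊆ B') : RB A' B' k c :=
  h.imp fun _ h => ⟨supp_mono e _ h.1, supp_mono e' _ h.2⟩

theorem RB.rz (h : RB A B k c) : RZ B k c := by
  obtain ⟨a, -, h2⟩ := h
  simpa using (rz_of_mem h2).add (rz_bd a)

theorem RB.push (h : RB A B k c) (f : C(Y, Y')) {D D' : Set Y'} (hf : Set.MapsTo f A D)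
    (hf' : Set.MapsTo f B D') : RB D D' k (push ℤ f k c) := by
  obtain ⟨a, h1, h2⟩ := h
  refine ⟨_, push_mem_supp f hf h1, ?_⟩
  rw [bd_push, ← map_sub]
  exact push_mem_supp f hf' h2

/-- Excision, surjectivity. -/
theorem RZ.small (hA : IsOpen A) (hB : IsOpen B) (hc : c ∈ supp ℤ (A ∪ B) k) (h : RZ B k c) :
    ∃ c' ∈ supp ℤ A k, RZ (A ∩ B) k c' ∧ RB (A ∪ B) B k (c - c') := by
  cases k with
  | zero =>
    rw [supp_union_zero] at hc
    obtain ⟨a, ha, b, hb, rfl⟩ := Submodule.mem_sup.1 hc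
    exact ⟨a, ha, trivial, rb_of_mem (by simpa using hb)⟩
  | succ k =>
    obtain ⟨e, he, h1⟩ := small_chainR hA hB k c hc (Submodule.mem_sup_right h)
    obtain ⟨a, ha, b, hb, h2⟩ := Submodule.mem_sup.1 h1
    refine ⟨a, ha, ?_, e, he, ?_⟩
    · rw [rz_succ, supp_inter]
      refine ⟨bd_mem_supp ha, ?_⟩
      have : a = c - bd ℤ Y (k + 1) e - b := by rw [← h2]; abel
      rw [this, map_sub, map_sub, bd_bd, sub_zero]
      exact sub_mem h (bd_mem_supp hb)
    · rw [sub_right_comm, ← h2, add_sub_cancel_left]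
      exact hb

/-- Excision, injectivity. -/
theorem RB.exc (hA : IsOpen A) (hB : IsOpen B) (hc : c ∈ supp ℤ A k) (h : RB (A ∪ B) B k c) :
    RB A (A ∩ B) k c := by
  obtain ⟨a, h1, h2⟩ := h
  obtain ⟨e, -, h3⟩ := small_chainR hA hB k a h1 (by
    have := sub_mem (Submodule.mem_sup_left (T := supp ℤ B k) hc) (Submodule.mem_sup_right h2)
    rwa [sub_sub_cancel] at this)
  obtain ⟨u, hu, v, hv, h4⟩ := Submodule.mem_sup.1 h3
  refine ⟨u, hu, ?_⟩
  rw [supp_inter]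
  refine ⟨sub_mem hc (bd_mem_supp hu), ?_⟩
  have : u = a - bd ℤ Y (k + 1) e - v := by rw [← h4]; abel
  rw [this, map_sub, map_sub, bd_bd, sub_zero, ← sub_add]
  exact add_mem h2 (bd_mem_supp hv)

theorem supp_nhds [T2Space Y] {x : Y} (h : c ∈ supp ℤ {x}ᶜ k) :
    ∃ N ∈ 𝓝 x, c ∈ supp ℤ Nᶜ k := by
  obtain ⟨K, hK, h1, h2⟩ := exists_compact_supp h
  exact ⟨Kᶜ, hK.isClosed.isOpen_compl.mem_nhds fun e => h1 e rfl, by rwa [compl_compl]⟩

theorem RZ.nhds [T2Space Y] {x : Y} (h : RZ {x}ᶜ k c) : ∃ N ∈ 𝓝 x, RZ Nᶜ k c := by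
  cases k with
  | zero => exact ⟨_, univ_mem, trivial⟩
  | succ k => exact supp_nhds h

theorem RZ.eventually [T2Space Y] {x : Y} (h : RZ {x}ᶜ k c) : ∀ᶠ y in 𝓝 x, RZ {y}ᶜ k c := by
  obtain ⟨N, h1, h2⟩ := h.nhds
  filter_upwards [h1] with y hy
  exact h2.mono (Set.compl_subset_compl.2 (Set.singleton_subset_iff.2 hy))

theorem RB.nhds [T2Space Y] {x : Y} (h : RB A {x}ᶜ k c) : ∃ N ∈ 𝓝 x, RB A Nᶜ k c := by
  obtain ⟨a, h1, h2⟩ := h
  obtain ⟨N, h3, h4⟩ := supp_nhds h2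
  exact ⟨N, h3, a, h1, h4⟩

end Rel

/-! ### The degree of a cycle in a sphere-like filtration -/

section Deg

variable {Y Y' : Type} [TopologicalSpace Y] [TopologicalSpace Y']

/-- The degree, by iterated Mayer-Vietoris boundaries. -/
def Dg (A A' : ℕ → Set Y) : (j : ℕ) → Ch Y j → ℤ → Prop
  | 0, z, r => ∃ u ∈ supp ℤ (A 0) 0, z - u ∈ supp ℤ (A' 0) 0 ∧ aug ℤ Y u = r
  | j + 1, z, r => ∃ u ∈ supp ℤ (A (j + 1)) (j + 1),
      RB (A (j + 1) ∪ A' (j + 1)) (A' (j + 1)) (j + 1) (z - u) ∧ Dg A A' j (bd ℤ Y j u) r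

variable {A A' : ℕ → Set Y}

theorem Dg.add {j : ℕ} {z z' : Ch Y j} {r r' : ℤ} (h : Dg A A' j z r) (h' : Dg A A' j z' r') :
    Dg A A' j (z + z') (r + r') := by
  induction j with
  | zero =>
    obtain ⟨u, h1, h2, rfl⟩ := h
    obtain ⟨u', h3, h4, rfl⟩ := h'
    exact ⟨u + u', add_mem h1 h3, by convert add_mem h2 h4 using 1; abel, map_add _ _ _⟩
  | succ j ih =>
    obtain ⟨u, h1, h2, h5⟩ := h
    obtain ⟨u', h3, h4, h6⟩ := h'
    exact ⟨u + u', add_mem h1 h3, by convert h2.add h4 using 1; abel,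
      by rw [map_add]; exact ih h5 h6⟩

theorem Dg.smul {j : ℕ} {z : Ch Y j} {r : ℤ} (h : Dg A A' j z r) (s : ℤ) :
    Dg A A' j (s • z) (s * r) := by
  induction j with
  | zero =>
    obtain ⟨u, h1, h2, rfl⟩ := h
    exact ⟨s • u, Submodule.smul_mem _ s h1, by rw [← smul_sub]; exact Submodule.smul_mem _ s h2,
      map_smul _ _ _⟩
  | succ j ih =>
    obtain ⟨u, h1, h2, h5⟩ := h
    exact ⟨s • u, Submodule.smul_mem _ s h1, by rw [← smul_sub]; exact h2.smul s,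
      by rw [map_smul]; exact ih h5⟩

theorem Dg.sub {j : ℕ} {z z' : Ch Y j} {r r' : ℤ} (h : Dg A A' j z r) (h' : Dg A A' j z' r') :
    Dg A A' j (z - z') (r - r') := by
  simpa [sub_eq_add_neg] using h.add (h'.smul (-1))

theorem Dg.push {j : ℕ} {z : Ch Y j} {r : ℤ} (h : Dg A A' j z r) (f : C(Y, Y'))
    {B B' : ℕ → Set Y'} (hf : ∀ i, Set.MapsTo f (A i) (B i))
    (hf' : ∀ i, Set.MapsTo f (A' i) (B' i)) : Dg B B' j (push ℤ f j z) r := by
  induction j with
  | zero =>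
    obtain ⟨u, h1, h2, rfl⟩ := h
    exact ⟨_, push_mem_supp f (hf 0) h1, by rw [← map_sub]; exact push_mem_supp f (hf' 0) h2,
      aug_push _ _ _⟩
  | succ j ih =>
    obtain ⟨u, h1, h2, h5⟩ := h
    exact ⟨_, push_mem_supp f (hf _) h1,
      by rw [← map_sub]; exact h2.push f ((hf _).union_union (hf' _)) (hf' _),
      by rw [bd_push]; exact ih h5⟩

/-- A filtration by unions of pairs of acyclic open sets, inside an acyclic set `W`. -/
structure Filt (m : ℕ) (W F : Set Y) (A A' : ℕ → Set Y) : Prop where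
  op : ∀ j ≤ m, IsOpen (A j)
  op' : ∀ j ≤ m, IsOpen (A' j)
  ac : ∀ j ≤ m, SAcyc ℤ (A j)
  ac' : ∀ j ≤ m, SAcyc ℤ (A' j)
  zero : A 0 ∩ A' 0 = ∅
  step : ∀ j < m, A (j + 1) ∩ A' (j + 1) = A j ∪ A' j
  top : A m ∪ A' m = F
  sub : F ⊆ W
  acW : SAcyc ℤ W

/-- The homology of the pair formed by `W` and `F`. -/
structure DgP (m : ℕ) (W F : Set Y) (A A' : ℕ → Set Y) : Prop where
  ex : ∀ c : Ch Y (m + 1), RZ F (m + 1) c → ∃ r, Dg A A' m (bd ℤ Y m c) r
  uniq : ∀ z r r', Dg A A' m z r → Dg A A' m z r' → r = r'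
  bd : ∀ a ∈ supp ℤ F (m + 1), Dg A A' m (bd ℤ Y m a) 0
  zero : ∀ c ∈ supp ℤ W (m + 1), RZ F (m + 1) c → Dg A A' m (Pool.Agent.MP_4f4d9f_gt.bd ℤ Y m c) 0 →
    RB W F (m + 1) c
  one : ∃ c ∈ supp ℤ W (m + 1), RZ F (m + 1) c ∧ Dg A A' m (Pool.Agent.MP_4f4d9f_gt.bd ℤ Y m c) 1
  van : ∀ j ≠ m + 1, ∀ c ∈ supp ℤ W j, RZ F j c → RB W F j c

/-- The hemispheres of a map to Euclidean space. -/
def hemi {m : ℕ} (W : Set Y) (f : Y → Eu m) (ε : ℝ) (j : ℕ) : Set Y :=
  {v | v ∈ W ∧ ((∃ i : Fin (m + 1), (i : ℕ) < j ∧ f v i ≠ 0) ∨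
    ∃ i : Fin (m + 1), (i : ℕ) = j ∧ 0 < ε * f v i)}

/-- The degree of a cycle with respect to a map to punctured Euclidean space. -/
def DG {m : ℕ} (W : Set Y) (f : Y → Eu m) (z : Ch Y m) (r : ℤ) : Prop :=
  Dg (hemi W f 1) (hemi W f (-1)) m z r

theorem DG.push {m : ℕ} {W : Set Y} {f : Y → Eu m} {z : Ch Y m} {r : ℤ} (h : DG W f z r)
    (g : C(Y, Y')) {W' : Set Y'} {f' : Y' → Eu m} (hW : Set.MapsTo g W W')
    (hf : ∀ v ∈ W, f' (g v) = f v) : DG W' f' (push ℤ g m z) r :=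
  Dg.push h g (fun _ v hv => ⟨hW hv.1, by rw [hf v hv.1]; exact hv.2⟩)
    fun _ v hv => ⟨hW hv.1, by rw [hf v hv.1]; exact hv.2⟩

end Deg

/-! ### Orientations -/

section Or

variable {X : Type} [TopologicalSpace X]

/-- A local degree on the set `U`. -/
structure LocOr (m : ℕ) (U : Set X) (od : X → Ch X (m + 1) → ℤ) : Prop where
  add : ∀ x ∈ U, ∀ c c', RZ {x}ᶜ (m + 1) c → RZ {x}ᶜ (m + 1) c' → od x (c + c') = od x c + od x c'
  zero : ∀ x ∈ U, ∀ c, RB Set.univ {x}ᶜ (m + 1) c → od x c = 0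
  inj : ∀ x ∈ U, ∀ c, RZ {x}ᶜ (m + 1) c → od x c = 0 → RB Set.univ {x}ᶜ (m + 1) c
  gen : ∀ x ∈ U, ∃ c, RZ {x}ᶜ (m + 1) c ∧ od x c = 1
  lc : ∀ x ∈ U, ∀ c, RZ {x}ᶜ (m + 1) c → ∀ᶠ y in 𝓝 x, od y c = od x c

variable {m : ℕ} {U U' : Set X} {od od' : X → Ch X (m + 1) → ℤ} {x : X} {c c' : Ch X (m + 1)}

theorem LocOr.smul (h : LocOr m U od) (hx : x ∈ U) (hc : RZ {x}ᶜ (m + 1) c) (r : ℤ) :
    od x (r • c) = r * od x c := by
  have h0 : od x 0 = 0 := h.zero x hx 0 rb_zero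
  induction r using Int.induction_on with
  | zero => simpa using h0
  | succ r ih => rw [add_smul, one_smul, h.add x hx _ _ (hc.smul _) hc, ih]; ring
  | pred r ih =>
    have := h.add x hx _ _ (hc.smul (-r - 1)) hc
    rw [sub_smul, one_smul, sub_add_cancel, ih] at this
    rw [sub_smul, one_smul]
    linarith

theorem LocOr.sub (h : LocOr m U od) (hx : x ∈ U) (hc : RZ {x}ᶜ (m + 1) c)
    (hc' : RZ {x}ᶜ (m + 1) c') : od x (c - c') = od x c - od x c' := by
  have := h.add x hx _ _ (hc.sub hc') hc'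
  rw [sub_add_cancel] at this
  linarith

theorem LocOr.congr (h : LocOr m U od) (hx : x ∈ U) (hc : RZ {x}ᶜ (m + 1) c)
    (e : RB Set.univ {x}ᶜ (m + 1) (c - c')) : od x c = od x c' := by
  have hc' : RZ {x}ᶜ (m + 1) c' := by simpa using hc.sub e.rz
  have := h.sub hx hc hc'
  rw [h.zero x hx _ e] at this
  linarith

theorem LocOr.ratio (h : LocOr m U od) (h' : LocOr m U' od') (hx : x ∈ U) (hx' : x ∈ U')
    (hc : RZ {x}ᶜ (m + 1) c) (h1 : od x c = 1) (hc' : RZ {x}ᶜ (m + 1) c') :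
    od' x c' = od' x c * od x c' := by
  have e := h.inj x hx _ (hc'.sub (hc.smul (od x c'))) (by
    rw [h.sub hx hc' (hc.smul _), h.smul hx hc, h1, mul_one, sub_self])
  rw [h'.congr hx' hc' e, h'.smul hx' hc, mul_comm]

/-- Two local degrees differ by a locally constant sign. -/
theorem LocOr.sign [T2Space X] (h : LocOr m U od) (h' : LocOr m U' od') (hU : IsOpen U)
    (hU' : IsOpen U') (hx : x ∈ U) (hx' : x ∈ U') :
    ∃ ε : ℤˣ, ∀ᶠ y in 𝓝 x, ∀ c, RZ {y}ᶜ (m + 1) c → od' y c = ε * od y c := by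
  obtain ⟨c, hc, h1⟩ := h.gen x hx
  obtain ⟨c', hc', h1'⟩ := h'.gen x hx'
  have e := h.ratio h' hx hx' hc h1 hc'
  rw [h1'] at e
  refine ⟨Units.mkOfMulEqOne _ _ e.symm, ?_⟩
  filter_upwards [hU.mem_nhds hx, hU'.mem_nhds hx', hc.eventually, h.lc x hx c hc,
    h'.lc x hx' c hc] with y a1 a2 a3 a4 a5 d hd
  rw [h.ratio h' a1 a2 a3 (a4.trans h1) hd, a5]
  rfl

/-- The slice over a point. -/
def sl (x : X) : C(X, X × X) := ⟨fun y => (x, y), continuous_const.prodMk continuous_id⟩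

/-- Combinations of slices with their degrees. -/
noncomputable def JJ (m : ℕ) (od : X → Ch X (m + 1) → ℤ) (U : Set X) :
    Submodule ℤ (Ch (X × X) (m + 1) × ℤ) :=
  Submodule.span ℤ {e | ∃ x ∈ U, ∃ c, RZ {x}ᶜ (m + 1) c ∧ e = (push ℤ (sl x) (m + 1) c, od x c)}

/-- The Thom isomorphism over `U`. -/
structure TP (m : ℕ) (od : X → Ch X (m + 1) → ℤ) (U : Set X) : Prop where
  low : ∀ j ≤ m, ∀ c ∈ supp ℤ (NB U) j, RZ (offDiag X) j c → RB (NB U) (offDiag X) j c
  top : ∀ c ∈ supp ℤ (NB U) (m + 1), RZ (offDiag X) (m + 1) c →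
    ∃ e ∈ JJ m od U, RB (NB U) (offDiag X) (m + 1) (c - e.1)
  odd : ∀ e ∈ JJ m od U, RB (NB U) (offDiag X) (m + 1) e.1 → e.2 = 0

variable (X) in
/-- Every point lies in an open subset homeomorphic to Euclidean space. -/
def Charts (m : ℕ) : Prop := ∀ x : X, ∃ i : C(Eu m, X), IsOpenEmbedding i ∧ x ∈ Set.range i

variable {G : Type} [Group G] [MulAction G X] [ContinuousConstSMul G X]

/-- The orientation character. -/
def OrCh (m : ℕ) (w : G →* ℤˣ) (od : X → Ch X (m + 1) → ℤ) : Prop :=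
  ∀ (g : G) (x : X) c, RZ {x}ᶜ (m + 1) c → od (g • x) (c.mapDomain (g • ·)) = w g * od x c

variable (X) in
/-- The action of a pair of group elements. -/
def mv (g h : G) : C(X × X, X × X) :=
  ⟨Prod.map (g • ·) (h • ·), (continuous_const_smul g).prodMap (continuous_const_smul h)⟩

/-- The Thom functional. -/
structure ThomT (m : ℕ) (w : G →* ℤˣ) (od : X → Ch X (m + 1) → ℤ)
    (T : Ch (X × X) (m + 1) → ℤ) : Prop where
  low : ∀ j ≤ m, ∀ c, RZ (offDiag X) j c → RB Set.univ (offDiag X) j c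
  add : ∀ c c', RZ (offDiag X) (m + 1) c → RZ (offDiag X) (m + 1) c' → T (c + c') = T c + T c'
  zero : ∀ c, RB Set.univ (offDiag X) (m + 1) c → T c = 0
  slice : ∀ x c, RZ {x}ᶜ (m + 1) c → T (push ℤ (sl x) (m + 1) c) = od x c
  eqv : ∀ (g : G) c, RZ (offDiag X) (m + 1) c → T (push ℤ (mv X g g) (m + 1) c) = w g * T c

/-- A finite part of the twisted sum of all translates. -/
noncomputable def avF (w : G →* ℤˣ) {B : Type} [MulAction G B] (F : Finset G) (c : B →₀ ℤ) :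
    B →₀ ℤ := ∑ g ∈ F, ((w g)⁻¹ : ℤˣ) • c.mapDomain (g • ·)

/-- A fundamental chain. -/
structure FundS (m : ℕ) (w : G →* ℤˣ) (od : X → Ch X (m + 1) → ℤ) (μ : Ch X (m + 1)) : Prop where
  cyc : bd ℤ X m μ ∈ Rel w (Sing X m)
  one : ∀ x : X, ∀ᶠ F : Finset G in atTop, RZ {x}ᶜ (m + 1) (avF w F μ) ∧ od x (avF w F μ) = 1

/-- Equivariant chain maps from the bar complex and its square to singular chains. -/
structure PsiZ (x₀ : X) (ψ' : (i : ℕ) → (Tup G →₀ ℤ) →ₗ[ℤ] Ch X i)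
    (ψ : (i : ℕ) → (Cell G →₀ ℤ) →ₗ[ℤ] Ch (X × X) i) : Prop where
  deg : ∀ i c, cdeg c ≠ i → ψ i (single c 1) = 0
  bd : ∀ i c, bd ℤ (X × X) i (ψ (i + 1) c) = ψ i (cbR ℤ c)
  eqv : ∀ i (g h : G) (x y : Tup G),
    ψ i (single (g • x, h • y) 1) = push ℤ (mv X g h) i (ψ i (single (x, y) 1))
  base : ∀ i y, ψ i (single (pt 1, y) 1) = push ℤ (sl x₀) i (ψ' i (single y 1))
  eqv' : ∀ i (g : G) c, ψ' i (c.mapDomain (g • ·)) = (ψ' i c).mapDomain (g • ·)
  onto : ∀ (w : G →* ℤˣ) (m : ℕ) (μ : Ch X (m + 1)),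
    Pool.Agent.MP_4f4d9f_gt.bd ℤ X m μ ∈ Rel w (Sing X m) →
    ∃ ν : Tup G →₀ ℤ, (∀ y ∈ ν.support, y.deg = m + 1) ∧ bdT ℤ ν ∈ Rel w (Tup G) ∧
      ∃ a, ψ' (m + 1) ν - μ - Pool.Agent.MP_4f4d9f_gt.bd ℤ X (m + 1) a ∈ Rel w (Sing X (m + 1))

end Or

/-! ### Group level notions -/

section Grp

variable {G : Type} [Group G]

/-- A fundamental cycle dual to the Thom cocycle. -/
structure FundT {R : Type} [CommRing R] (n : ℕ) (w : G →* Rˣ) (θ : Cell G → R)
    (ν : Tup G →₀ R) : Prop where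
  deg : ∀ y ∈ ν.support, y.deg = n
  cyc : bdT R ν ∈ Rel w (Tup G)
  one : av w (fun y => θ (pt 1, y)) ν = 1

variable {N : Type} [Ring N] (ι : G →* N) (w : G →* ℤˣ)

/-- Twisted equivariant cochains. -/
def EqvC (φ : Tup G → N) : Prop := ∀ (h : G) b, φ (h • b) = (w h : ℤ) • (φ b * ι h⁻¹)

/-- The twisted cohomology with coefficients in `N` vanishes in degree `j`. -/
def CohVan (j : ℕ) : Prop :=
  ∀ φ : Tup G → N, EqvC ι w φ →
    (∀ b : Tup G, b.deg = j + 1 → linearCombination ℤ φ (bdT ℤ (single b 1)) = 0) →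
    ∃ φ' : Tup G → N, EqvC ι w φ' ∧
      ∀ b : Tup G, b.deg = j → φ b = linearCombination ℤ φ' (bdT ℤ (single b 1))

end Grp

/-! ### Statements -/

/-- Job `Sph`. -/
def SphStmt : Prop :=
  ∀ (Y : Type) [TopologicalSpace Y] (m : ℕ) (W F : Set Y) (A A' : ℕ → Set Y),
    Filt m W F A A' → DgP m W F A A'

/-- Job `Hemi`. -/
def HemiStmt : Prop :=
  ∀ (V : Type) [NormedAddCommGroup V] [NormedSpace ℝ V] (m : ℕ) (W : Set V) (L : V →L[ℝ] Eu m)
    (a : Eu m), IsOpen W → Convex ℝ W → Function.Surjective L → (∃ v ∈ W, L v = a) →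
    DgP m W {v | v ∈ W ∧ L v ≠ a} (hemi W (fun v => L v - a) 1) (hemi W (fun v => L v - a) (-1))

/-- Job `Prism`. -/
def PrismStmt : Prop :=
  ∀ (Y Y' : Type) [TopologicalSpace Y] [TopologicalSpace Y'] (f₀ f₁ : C(Y, Y'))
    (H : f₀.Homotopy f₁) (A B : Set Y) (A' B' : Set Y'), (∀ t, ∀ y ∈ A, H (t, y) ∈ A') →
    (∀ t, ∀ y ∈ B, H (t, y) ∈ B') → ∀ (k : ℕ), ∀ c ∈ supp ℤ A k, RZ B k c →
      RB A' B' k (push ℤ f₁ k c - push ℤ f₀ k c)

/-- Job `Chart`. -/
def ChartStmt : Prop :=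
  ∀ (X : Type) [TopologicalSpace X] [T2Space X] (m : ℕ) (i : C(Eu m, X)), IsOpenEmbedding i →
    ∃ ld : X → Ch X (m + 1) → ℤ, LocOr m (Set.range i) ld ∧
      ∀ (y : Eu m) (c : Ch (Eu m) (m + 1)), RZ {y}ᶜ (m + 1) c →
        DG Set.univ (fun v => v - y) (bd ℤ _ m c) (ld (i y) (push ℤ i (m + 1) c))

/-- Job `Triv`. -/
def TrivStmt : Prop :=
  ∀ (X : Type) [TopologicalSpace X] [SimplyConnectedSpace X] [LocallyPathConnectedSpace X]
    (U : X → Set X) (t : X → X → X → ℤˣ), (∀ i, IsOpen (U i)) → (∀ i, i ∈ U i) →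
    (∀ i j k x, x ∈ U i → x ∈ U j → x ∈ U k → t j k x * t i j x = t i k x) →
    (∀ i j x, x ∈ U i → x ∈ U j → ∀ᶠ y in 𝓝 x, t i j y = t i j x) →
    ∃ s : X → X → ℤˣ, (∀ i, ∀ x ∈ U i, ∀ᶠ y in 𝓝 x, s i y = s i x) ∧
      ∀ i j x, x ∈ U i → x ∈ U j → s j x = t i j x * s i x

/-- Job `Orient`. -/
def OrientStmt : Prop :=
  ∀ (G X : Type) [Group G] [TopologicalSpace X] [T2Space X] [ContractibleSpace X] [MulAction G X]
    [ContinuousConstSMul G X] (m : ℕ), Charts X m →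
    ∃ (od : X → Ch X (m + 1) → ℤ) (w : G →* ℤˣ), LocOr m Set.univ od ∧ OrCh m w od

/-- Job `ThomLoc`. -/
def ThomLocStmt : Prop :=
  ∀ (X : Type) [TopologicalSpace X] [T2Space X] (m : ℕ) (od : X → Ch X (m + 1) → ℤ),
    LocOr m Set.univ od → ∀ i : C(Eu m, X), IsOpenEmbedding i → ∀ O : Set (Eu m), IsOpen O →
      Convex ℝ O → TP m od (i '' O)

/-- Job `ThomBoot`. -/
def ThomBootStmt : Prop :=
  ∀ (G X : Type) [Group G] [TopologicalSpace X] [T2Space X] [MulAction G X]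
    [ContinuousConstSMul G X] (m : ℕ) (od : X → Ch X (m + 1) → ℤ) (w : G →* ℤˣ), Charts X m →
    OrCh m w od → (∀ i : C(Eu m, X), IsOpenEmbedding i → ∀ O : Set (Eu m), IsOpen O →
      Convex ℝ O → TP m od (i '' O)) → ∃ T, ThomT m w od T

/-- Job `Qlem`. -/
def QStmt : Prop :=
  ∀ (m : ℕ) (K : Set (Eu m)), IsCompact K → ∀ c : Ch (Eu m) (m + 1), RZ Kᶜ (m + 1) c →
    (∀ x ∈ K, RB Set.univ {x}ᶜ (m + 1) c) → RB Set.univ Kᶜ (m + 1) c

/-- Job `Fund`. -/
def FundStmt : Prop :=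
  ∀ (G X M : Type) [Group G] [TopologicalSpace X] [MulAction G X] [ContinuousConstSMul G X]
    [TopologicalSpace M] [T2Space M] [CompactSpace M] (p : X → M) (m : ℕ)
    (od : X → Ch X (m + 1) → ℤ) (w : G →* ℤˣ), IsQuotientCoveringMap p G → Charts X m →
    LocOr m Set.univ od → OrCh m w od → ∃ μ, FundS m w od μ

/-- Job `PsiZ`. -/
def PsiZStmt : Prop :=
  ∀ (G X M : Type) [Group G] [TopologicalSpace X] [MulAction G X] [ContinuousConstSMul G X]
    [ContractibleSpace X] [TopologicalSpace M] (p : X → M), IsQuotientCoveringMap p G →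
    ∃ (x₀ : X) (ψ' : (i : ℕ) → (Tup G →₀ ℤ) →ₗ[ℤ] Ch X i)
      (ψ : (i : ℕ) → (Cell G →₀ ℤ) →ₗ[ℤ] Ch (X × X) i), PsiZ x₀ ψ' ψ

/-- Job `ThetaZ`. -/
def ThetaZStmt : Prop :=
  ∀ (G X : Type) [Group G] [TopologicalSpace X] [MulAction G X] [ContinuousConstSMul G X] (m : ℕ)
    (od : X → Ch X (m + 1) → ℤ) (w : G →* ℤˣ) (T : Ch (X × X) (m + 1) → ℤ) (μ : Ch X (m + 1))
    (x₀ : X) (ψ' : (i : ℕ) → (Tup G →₀ ℤ) →ₗ[ℤ] Ch X i)
    (ψ : (i : ℕ) → (Cell G →₀ ℤ) →ₗ[ℤ] Ch (X × X) i),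
    (∀ K : Set X, IsCompact K → {g : G | ((g • ·) '' K ∩ K).Nonempty}.Finite) →
    LocOr m Set.univ od → ThomT m w od T → FundS m w od μ → PsiZ x₀ ψ' ψ →
    ∃ (θ : Cell G → ℤ) (ν : Tup G →₀ ℤ), ThomR ℤ (m + 1) w θ ∧ FundT (m + 1) w θ ν

/-- Job `DualZ`. -/
def DualStmt : Prop :=
  ∀ (G R : Type) [Group G] [CommRing R] (n : ℕ) (w : G →* Rˣ) (θ : Cell G → R) (ν : Tup G →₀ R),
    ThomR R n w θ → FundT n w θ ν → ∃ ω H, Dual R n w θ ω H

/-- Job `Red`. -/
def RedStmt : Prop :=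
  ∀ (G : Type) [Group G] (n : ℕ) (w : G →* ℤˣ) (θ : Cell G → ℤ) (ν : Tup G →₀ ℤ),
    ThomR ℤ n w θ → FundT n w θ ν →
    ∃ (θ' : Cell G → F2) (ν' : Tup G →₀ F2), ThomR F2 n 1 θ' ∧ FundT n 1 θ' ν'

/-- Job `Van`. -/
def VanStmt : Prop :=
  ∀ (G N : Type) [Group G] [Ring N] (ι : G →* N) (n : ℕ) (w : G →* ℤˣ) (θ : Cell G → ℤ)
    (ω : Cell G →₀ ℤ) (H : Tup G → (Tup G →₀ ℤ)), Dual ℤ n w θ ω H → ∀ k,
    (∀ j, j + (k + 1) = n → CohVan ι w j) →
    TorsAt ι (fun k => permRep G (Bar.BT G k)) (fun k => Bar.dB k) (Bar.isRes G).eqv_d k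

/-- Job `CohV`. -/
def CohVStmt : Prop :=
  ∀ (G E : Type) [Group G] [NormedAddCommGroup E] [InnerProductSpace ℂ E]
    (b : HilbertBasis G ℂ E) (ι : G →* vnAlg b), (∀ g h, (ι g).1 (b h) = b (g * h)) →
    ∀ (S : Finset G) (C : ℝ), Gen S → SG S C → Liou S →
    ∀ w : G →* ℤˣ, CohVan ι w 0 ∧ CohVan ι w 1

/-- Job `TorsF`. -/
def TorsFStmt : Prop :=
  ∀ (G : Type) [Group G] (n : ℕ) (w : G →* ℤˣ) (θ : Cell G → ℤ) (ω : Cell G →₀ ℤ)
    (H : Tup G → (Tup G →₀ ℤ)), Dual ℤ n w θ ω H → ∀ g : G, IsOfFinOrder g → g = 1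

/-- Job `Gap`. -/
def GapStmt : Prop :=
  ∀ (G : Type) [Group G] (S : Finset G), Gen S → ¬ Folner G G → ∃ C : ℕ, SG S C

end Pool.Agent.MP_4f4d9f_gt.Hy

end

section

/-! The homology of a sphere-like filtration. -/

namespace Pool.Agent.MP_4f4d9f_gt.Hy

open Finsupp

namespace SphL

variable {Y : Type} [TopologicalSpace Y]

/-- Reduced cycles. -/
def Cyc : (k : ℕ) → Ch Y k → Prop
  | 0, c => aug ℤ Y c = 0
  | k + 1, c => bd ℤ Y k c = 0

/-- Boundaries in `S`. -/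
def Bnd (S : Set Y) (k : ℕ) (c : Ch Y k) : Prop := ∃ t ∈ supp ℤ S (k + 1), bd ℤ Y k t = c

section Basic

variable {S S' : Set Y} {k : ℕ}

theorem cyc_bd (k : ℕ) (a : Ch Y (k + 1)) : Cyc k (bd ℤ Y k a) := by
  cases k with
  | zero => exact aug_bd _ a
  | succ k => exact bd_bd _ k a

theorem Cyc.sub {c d : Ch Y k} (hc : Cyc k c) (hd : Cyc k d) : Cyc k (c - d) := by
  cases k with
  | zero => simp only [Cyc] at *; rw [map_sub, hc, hd, sub_zero]
  | succ k => simp only [Cyc] at *; rw [map_sub, hc, hd, sub_zero]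

theorem bnd_of (h : SAcyc ℤ S) {c : Ch Y k} (hc : c ∈ supp ℤ S k) (hz : Cyc k c) : Bnd S k c := by
  cases k with
  | zero => exact h.zero c hc hz
  | succ k => exact h.succ k c hc hz

theorem glue (hS : SAcyc ℤ S) (hS' : SAcyc ℤ S') {z u t : Ch Y k} (hz : Cyc k z)
    (hu : u ∈ supp ℤ S k) (h : RB (S ∪ S') S' k (z - u)) (ht : t ∈ supp ℤ (S ∩ S') k)
    (hc : Cyc k (u - t)) : Bnd (S ∪ S') k z := by
  obtain ⟨a, ha, hv⟩ := h
  rw [supp_inter] at ht
  obtain ⟨s, hs, e⟩ := bnd_of hS (sub_mem hu ht.1) hc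
  obtain ⟨s', hs', e'⟩ := bnd_of hS' (add_mem hv ht.2) (by
    convert (hz.sub (cyc_bd k a)).sub hc using 1; abel)
  refine ⟨s + s' + a, add_mem (add_mem (supp_mono Set.subset_union_left _ hs)
    (supp_mono Set.subset_union_right _ hs')) ha, ?_⟩
  rw [map_add, map_add, e, e']; abel

theorem split0 {z : Ch Y 0} (hz : z ∈ supp ℤ (S ∪ S') 0) :
    ∃ u ∈ supp ℤ S 0, z - u ∈ supp ℤ S' 0 := by
  rw [supp_union_zero] at hz
  obtain ⟨u, hu, v, hv, rfl⟩ := Submodule.mem_sup.1 hz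
  exact ⟨u, hu, by simpa using hv⟩

theorem split (hS : IsOpen S) (hS' : IsOpen S') {z : Ch Y (k + 1)}
    (hz : z ∈ supp ℤ (S ∪ S') (k + 1)) (hc : bd ℤ Y k z = 0) :
    ∃ u ∈ supp ℤ S (k + 1), bd ℤ Y k u ∈ supp ℤ (S ∩ S') k ∧ RB (S ∪ S') S' (k + 1) (z - u) :=
  RZ.small hS hS' hz (by rw [rz_succ, hc]; exact zero_mem _)

theorem split_bd (hS : IsOpen S) (hS' : IsOpen S') {a : Ch Y (k + 1)}
    (ha : a ∈ supp ℤ (S ∪ S') (k + 1)) (hd : bd ℤ Y k a ∈ supp ℤ S k ⊔ supp ℤ S' k) :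
    ∃ a₁ ∈ supp ℤ S (k + 1), ∃ a₂ ∈ supp ℤ S' (k + 1),
      bd ℤ Y k a = bd ℤ Y k a₁ + bd ℤ Y k a₂ := by
  obtain ⟨e, -, h⟩ := small_chainR hS hS' k a ha hd
  obtain ⟨a₁, h1, a₂, h2, h3⟩ := Submodule.mem_sup.1 h
  refine ⟨a₁, h1, a₂, h2, ?_⟩
  rw [← map_add, h3, map_sub, bd_bd, sub_zero]

theorem pt_chain (h : S.Nonempty) (r : ℤ) : ∃ t ∈ supp ℤ S 0, aug ℤ Y t = r := by
  obtain ⟨y, hy⟩ := h
  exact ⟨single (ContinuousMap.const _ y) r, single_mem_supp r fun _ => hy, aug_single _ _ _⟩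

theorem rb_of_cyc (hS : SAcyc ℤ S) (e : S' ⊆ S) {c t : Ch Y k} (hc : c ∈ supp ℤ S k)
    (ht : t ∈ supp ℤ S' k) (h : Cyc k (c - t)) : RB S S' k c := by
  obtain ⟨s, hs, h1⟩ := bnd_of hS (sub_mem hc (supp_mono e k ht)) h
  exact ⟨s, hs, by rwa [h1, sub_sub_cancel]⟩

theorem cyc_sub_of {c t : Ch Y (k + 1)} (h : bd ℤ Y k t = bd ℤ Y k c) : Cyc (k + 1) (c - t) := by
  show bd ℤ Y k (c - t) = 0
  rw [map_sub, h, sub_self]

end Basic

variable {m : ℕ} {W F : Set Y} {A A' : ℕ → Set Y}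

theorem dg_zero (j : ℕ) : Dg A A' j 0 0 := by
  induction j with
  | zero => exact ⟨0, zero_mem _, by simp, map_zero _⟩
  | succ j ih => exact ⟨0, zero_mem _, by rw [sub_zero]; exact rb_zero, by rwa [map_zero]⟩

theorem dg_bd (h : Filt m W F A A') {j : ℕ} (hj : j ≤ m) {a : Ch Y (j + 1)}
    (ha : a ∈ supp ℤ (A j ∪ A' j) (j + 1)) : Dg A A' j (bd ℤ Y j a) 0 := by
  cases j with
  | zero =>
    obtain ⟨a₁, h1, a₂, h2, e⟩ := split_bd (h.op 0 hj) (h.op' 0 hj) ha
      (by rw [← supp_union_zero]; exact bd_mem_supp ha)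
    exact ⟨_, bd_mem_supp h1, by rw [e, add_sub_cancel_left]; exact bd_mem_supp h2, aug_bd _ _⟩
  | succ j =>
    exact ⟨0, zero_mem _, by rw [sub_zero]; exact rb_bd ha, by rw [map_zero]; exact dg_zero j⟩

theorem dg_eq_zero (h : Filt m W F A A') {j : ℕ} (hj : j ≤ m) {r : ℤ} (hr : Dg A A' j 0 r) :
    r = 0 := by
  induction j generalizing r with
  | zero =>
    obtain ⟨u, h1, h2, rfl⟩ := hr
    have h3 : u ∈ supp ℤ (A 0 ∩ A' 0) 0 := by
      rw [supp_inter]
      exact ⟨h1, by simpa using neg_mem h2⟩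
    rw [h.zero] at h3
    rw [eq_zero_of_mem_supp_empty h3, map_zero]
  | succ j ih =>
    obtain ⟨u, h1, ⟨a, ha, h2⟩, h3⟩ := hr
    obtain ⟨a₁, b1, a₂, b2, e⟩ := split_bd (h.op _ hj) (h.op' _ hj) ha (by
      have := sub_mem (Submodule.mem_sup_left (T := supp ℤ (A' (j + 1)) (j + 1)) (neg_mem h1))
        (Submodule.mem_sup_right h2)
      rwa [zero_sub, sub_sub_cancel] at this)
    have ht : u + bd ℤ Y (j + 1) a₁ ∈ supp ℤ (A j ∪ A' j) (j + 1) := by
      rw [← h.step j hj, supp_inter]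
      refine ⟨add_mem h1 (bd_mem_supp b1), ?_⟩
      have := sub_mem (neg_mem h2) (bd_mem_supp b2)
      rwa [e, show -(0 - u - (bd ℤ Y (j + 1) a₁ + bd ℤ Y (j + 1) a₂)) - bd ℤ Y (j + 1) a₂ =
        u + bd ℤ Y (j + 1) a₁ by abel] at this
    have h4 := dg_bd h (by omega) ht
    rw [map_add, bd_bd, add_zero] at h4
    have h5 := h3.sub h4
    rw [sub_self, sub_zero] at h5
    exact ih (by omega) h5

theorem dg_ex (h : Filt m W F A A') {j : ℕ} (hj : j ≤ m) (c : Ch Y (j + 1))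
    (hz : bd ℤ Y j c ∈ supp ℤ (A j ∪ A' j) j) : ∃ r, Dg A A' j (bd ℤ Y j c) r := by
  induction j with
  | zero =>
    obtain ⟨u, hu, hv⟩ := split0 hz
    exact ⟨_, u, hu, hv, rfl⟩
  | succ j ih =>
    obtain ⟨u, hu, h1, h2⟩ := split (h.op _ hj) (h.op' _ hj) hz (bd_bd _ _ _)
    rw [h.step j hj] at h1
    obtain ⟨r, hr⟩ := ih (by omega) u h1
    exact ⟨r, u, hu, h2, hr⟩

theorem fill (h : Filt m W F A A') {j : ℕ} (hj : j ≤ m) {z : Ch Y j} (hz : Cyc j z)
    (h0 : Dg A A' j z 0) : Bnd (A j ∪ A' j) j z := by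
  induction j with
  | zero =>
    obtain ⟨u, h1, h2, h3⟩ := h0
    exact glue (h.ac 0 hj) (h.ac' 0 hj) hz h1 (rb_of_mem h2) (zero_mem _) (by rwa [sub_zero])
  | succ j ih =>
    obtain ⟨u, h1, h2, h3⟩ := h0
    obtain ⟨t, ht, e⟩ := ih (by omega) (cyc_bd j u) h3
    rw [← h.step j hj] at ht
    exact glue (h.ac _ hj) (h.ac' _ hj) hz h1 h2 ht (cyc_sub_of e)

theorem dg_one (h : Filt m W F A A') {j : ℕ} (hj : j ≤ m) :
    ∃ z ∈ supp ℤ (A j ∪ A' j) j, Cyc j z ∧ Dg A A' j z 1 := by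
  induction j with
  | zero =>
    obtain ⟨s, hs, e⟩ := pt_chain (h.ac 0 hj).nonempty 1
    obtain ⟨s', hs', e'⟩ := pt_chain (h.ac' 0 hj).nonempty 1
    refine ⟨s - s', sub_mem (supp_mono Set.subset_union_left _ hs)
      (supp_mono Set.subset_union_right _ hs'), ?_, s, hs, by simpa using neg_mem hs', e⟩
    show aug ℤ Y (s - s') = 0
    rw [map_sub, e, e', sub_self]
  | succ j ih =>
    obtain ⟨z, hz, h1, h2⟩ := ih (by omega)
    rw [← h.step j hj, supp_inter] at hz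
    obtain ⟨s, hs, e⟩ := bnd_of (h.ac _ hj) hz.1 h1
    obtain ⟨s', hs', e'⟩ := bnd_of (h.ac' _ hj) hz.2 h1
    exact ⟨s - s', sub_mem (supp_mono Set.subset_union_left _ hs)
      (supp_mono Set.subset_union_right _ hs'), cyc_sub_of (e'.trans e.symm), s, hs,
      rb_of_mem (by simpa using neg_mem hs'), by rwa [e]⟩

theorem van (h : Filt m W F A A') {j : ℕ} (hj : j ≤ m) {k : ℕ} (hk : k ≠ j) {z : Ch Y k}
    (hz : z ∈ supp ℤ (A j ∪ A' j) k) (hc : Cyc k z) : Bnd (A j ∪ A' j) k z := by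
  induction j generalizing k with
  | zero =>
    obtain ⟨k, rfl⟩ := Nat.exists_eq_succ_of_ne_zero hk
    obtain ⟨u, hu, h1, h2⟩ := split (h.op _ hj) (h.op' _ hj) hz hc
    rw [h.zero] at h1
    exact glue (h.ac 0 hj) (h.ac' 0 hj) hc hu h2 (zero_mem _)
      (cyc_sub_of (by rw [map_zero, eq_zero_of_mem_supp_empty h1]))
  | succ j ih =>
    cases k with
    | zero =>
      obtain ⟨u, hu, hv⟩ := split0 hz
      obtain ⟨t, ht, e⟩ := pt_chain (S := A j ∪ A' j)
        ((h.ac j (by omega)).nonempty.mono Set.subset_union_left) (aug ℤ Y u)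
      rw [← h.step j hj] at ht
      refine glue (h.ac _ hj) (h.ac' _ hj) hc hu (rb_of_mem hv) ht ?_
      show aug ℤ Y (u - t) = 0
      rw [map_sub, e, sub_self]
    | succ k =>
      obtain ⟨u, hu, h1, h2⟩ := split (h.op _ hj) (h.op' _ hj) hz hc
      rw [h.step j hj] at h1
      obtain ⟨t, ht, e⟩ := ih (by omega) (by omega) h1 (cyc_bd k u)
      rw [← h.step j hj] at ht
      exact glue (h.ac _ hj) (h.ac' _ hj) hc hu h2 ht (cyc_sub_of e)

end SphL

open SphL in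
theorem sph_stmt : SphStmt := by
  intro Y _ m W F A A' h
  obtain rfl := h.top
  refine ⟨fun c hc => dg_ex h le_rfl c hc, fun z r r' h1 h2 => ?_, fun a ha => dg_bd h le_rfl ha,
    fun c hc _ h0 => ?_, ?_, fun j hj c hc hz => ?_⟩
  · have h3 := h1.sub h2
    rw [sub_self] at h3
    exact sub_eq_zero.1 (dg_eq_zero h le_rfl h3)
  · obtain ⟨t, ht, e⟩ := fill h le_rfl (cyc_bd m c) h0
    exact rb_of_cyc h.acW h.sub hc ht (cyc_sub_of e)
  · obtain ⟨z, hz, h1, h2⟩ := dg_one h le_rfl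
    obtain ⟨c, hc, rfl⟩ := bnd_of h.acW (supp_mono h.sub m hz) h1
    exact ⟨c, hc, hz, h2⟩
  · cases j with
    | zero =>
      obtain ⟨t, ht, e⟩ := pt_chain (S := A m ∪ A' m)
        ((h.ac m le_rfl).nonempty.mono Set.subset_union_left) (aug ℤ Y c)
      refine rb_of_cyc h.acW h.sub hc ht ?_
      show aug ℤ Y (c - t) = 0
      rw [map_sub, e, sub_self]
    | succ j =>
      obtain ⟨t, ht, e⟩ := van h le_rfl (by omega) hz (cyc_bd j c)
      exact rb_of_cyc h.acW h.sub hc ht (cyc_sub_of e)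

end Pool.Agent.MP_4f4d9f_gt.Hy

end

section

/-! The hemispheres of an affine surjection form a sphere-like filtration. -/

namespace Pool.Agent.MP_4f4d9f_gt.Hy

open Filter Topology

namespace HemiL

section Gen

variable {Y : Type} {m : ℕ} (W : Set Y) (f : Y → Eu m)

theorem op [TopologicalSpace Y] (hW : IsOpen W) (hf : Continuous f) (ε : ℝ) (j : ℕ) :
    IsOpen (hemi W f ε j) := by
  have hc : ∀ i, Continuous fun v => f v i := fun i => by fun_prop
  have e : hemi W f ε j = W ∩ ((⋃ i : Fin (m + 1), ⋃ _ : (i : ℕ) < j, {v | f v i ≠ 0}) ∪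
      ⋃ i : Fin (m + 1), ⋃ _ : (i : ℕ) = j, {v | 0 < ε * f v i}) := by
    ext v
    simp [hemi, and_or_left]
  rw [e]
  exact hW.inter ((isOpen_iUnion fun i => isOpen_iUnion fun _ =>
    isOpen_ne_fun (hc i) continuous_const).union (isOpen_iUnion fun i => isOpen_iUnion fun _ =>
      isOpen_lt continuous_const (continuous_const.mul (hc i))))

theorem both {v : Y} {j : ℕ} (h : ∃ i : Fin (m + 1), (i : ℕ) = j ∧ 0 < 1 * f v i)
    (h' : ∃ i : Fin (m + 1), (i : ℕ) = j ∧ 0 < -1 * f v i) : False := by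
  obtain ⟨i, h1, h2⟩ := h
  obtain ⟨i', h3, h4⟩ := h'
  obtain rfl : i = i' := Fin.ext (h1.trans h3.symm)
  linarith

theorem zero : hemi W f 1 0 ∩ hemi W f (-1) 0 = ∅ := by
  refine Set.eq_empty_of_forall_notMem ?_
  rintro v ⟨⟨-, ⟨i, h, -⟩ | h⟩, -, ⟨i', h', -⟩ | h'⟩
  · exact Nat.not_lt_zero _ h
  · exact Nat.not_lt_zero _ h
  · exact Nat.not_lt_zero _ h'
  · exact both f h h'

theorem mem_union {v : Y} {j : ℕ} : v ∈ hemi W f 1 j ∪ hemi W f (-1) j ↔
    v ∈ W ∧ ∃ i : Fin (m + 1), (i : ℕ) < j + 1 ∧ f v i ≠ 0 := by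
  constructor
  · rintro (⟨hv, ⟨i, h1, h2⟩ | ⟨i, h1, h2⟩⟩ | ⟨hv, ⟨i, h1, h2⟩ | ⟨i, h1, h2⟩⟩)
    · exact ⟨hv, i, by omega, h2⟩
    · exact ⟨hv, i, by omega, right_ne_zero_of_mul h2.ne'⟩
    · exact ⟨hv, i, by omega, h2⟩
    · exact ⟨hv, i, by omega, right_ne_zero_of_mul h2.ne'⟩
  · rintro ⟨hv, i, h1, h2⟩
    rcases Nat.lt_succ_iff_lt_or_eq.1 h1 with h | h
    · exact Or.inl ⟨hv, Or.inl ⟨i, h, h2⟩⟩
    · rcases lt_or_gt_of_ne h2 with h3 | h3
      · exact Or.inr ⟨hv, Or.inr ⟨i, h, by linarith⟩⟩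
      · exact Or.inl ⟨hv, Or.inr ⟨i, h, by linarith⟩⟩

theorem step (j : ℕ) :
    hemi W f 1 (j + 1) ∩ hemi W f (-1) (j + 1) = hemi W f 1 j ∪ hemi W f (-1) j := by
  ext v
  rw [mem_union]
  constructor
  · rintro ⟨⟨hv, h | h⟩, -, h' | h'⟩
    · exact ⟨hv, h⟩
    · exact ⟨hv, h⟩
    · exact ⟨hv, h'⟩
    · exact (both f h h').elim
  · rintro ⟨hv, h⟩
    exact ⟨⟨hv, Or.inl h⟩, hv, Or.inl h⟩

theorem top : hemi W f 1 m ∪ hemi W f (-1) m = {v | v ∈ W ∧ f v ≠ 0} := by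
  ext v
  rw [mem_union]
  refine and_congr_right fun _ => ⟨?_, fun h => ?_⟩
  · rintro ⟨i, -, h⟩ e
    exact h (by rw [e]; rfl)
  · by_contra hn
    exact h (PiLp.ext fun i => by_contra fun e => hn ⟨i, i.2, e⟩)

end Gen

variable {V : Type} [NormedAddCommGroup V] [NormedSpace ℝ V] {m : ℕ} {W : Set V}
  {L : V →L[ℝ] Eu m} {a : Eu m}

theorem centre (hW : IsOpen W) (hL : Function.Surjective L) (h : ∃ v ∈ W, L v = a) (y : Eu m) :
    ∃ x ∈ W, ∃ t : ℝ, 0 < t ∧ L x - a = t • y := by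
  obtain ⟨v, hv, rfl⟩ := h
  obtain ⟨u, rfl⟩ := hL y
  have hc : Continuous fun t : ℝ => v + t • u := by fun_prop
  have h1 : ∀ᶠ t : ℝ in 𝓝 0, v + t • u ∈ W :=
    hc.continuousAt.eventually_mem (hW.mem_nhds (by simpa using hv))
  obtain ⟨t, h2, h3⟩ := ((h1.filter_mono nhdsWithin_le_nhds).and
    (self_mem_nhdsWithin (s := Set.Ioi (0 : ℝ)))).exists
  exact ⟨_, h2, t, h3, by simp⟩

theorem ac (hW : IsOpen W) (hC : Convex ℝ W) (hL : Function.Surjective L)
    (h : ∃ v ∈ W, L v = a) {ε : ℝ} (hε : ε ≠ 0) {j : ℕ} (hj : j ≤ m) :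
    SAcyc ℤ (hemi W (fun v => L v - a) ε j) := by
  let k : Fin (m + 1) := ⟨j, Nat.lt_succ_of_le hj⟩
  obtain ⟨x, hx, t, ht, e⟩ := centre hW hL h (EuclideanSpace.single k ε)
  have e1 : 0 < ε * (L x - a) k := by
    rw [e]
    simp only [PiLp.smul_apply, PiLp.single_apply, if_true, smul_eq_mul]
    have := mul_pos ht (mul_self_pos.2 hε)
    linarith
  have e2 : ∀ i : Fin (m + 1), (i : ℕ) < j → (L x - a) i = 0 := by
    intro i hi
    have : i ≠ k := fun e => hi.ne (congrArg Fin.val e)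
    rw [e]
    simp [this]
  have hm : x ∈ hemi W (fun v => L v - a) ε j := ⟨hx, Or.inr ⟨k, rfl, e1⟩⟩
  refine sacyc_of_starConvex ℤ (a := x) ?_ ⟨x, hm⟩
  intro y hy p q hp hq hpq
  rcases hq.eq_or_lt with rfl | hq'
  · rw [add_zero] at hpq
    rw [hpq, one_smul, zero_smul, add_zero]
    exact hm
  have e3 : ∀ i, (L (p • x + q • y) - a) i = p * (L x - a) i + q * (L y - a) i := by
    intro i
    have : L (p • x + q • y) - a = p • (L x - a) + q • (L y - a) := by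
      rw [map_add, map_smul, map_smul, smul_sub, smul_sub, sub_add_sub_comm, ← add_smul, hpq,
        one_smul]
    rw [this]
    rfl
  refine ⟨hC hx hy.1 hp hq hpq, ?_⟩
  rcases hy.2 with ⟨i, h1, h2⟩ | ⟨i, h1, h2⟩
  · refine Or.inl ⟨i, h1, ?_⟩
    simp only at h2 ⊢
    rw [e3, e2 i h1, mul_zero, zero_add]
    exact mul_ne_zero hq'.ne' h2
  · obtain rfl : i = k := Fin.ext h1
    refine Or.inr ⟨_, h1, ?_⟩
    simp only at h2 ⊢
    rw [e3]
    have h3 := mul_nonneg hp e1.le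
    have h4 := mul_pos hq' h2
    linarith

end HemiL

theorem hemi_stmt (h : SphStmt) : HemiStmt := by
  intro V _ _ m W L a hW hC hL hv
  have hf : Continuous fun v => L v - a := by fun_prop
  refine h V m W _ _ _ ⟨fun j _ => HemiL.op W _ hW hf 1 j, fun j _ => HemiL.op W _ hW hf (-1) j,
    fun j hj => HemiL.ac hW hC hL hv one_ne_zero hj,
    fun j hj => HemiL.ac hW hC hL hv (neg_ne_zero.2 one_ne_zero) hj, HemiL.zero W _,
    fun j _ => HemiL.step W _ j, ?_, fun v hv => hv.1,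
    sacyc_of_convex ℤ hC (hv.imp fun _ h => h.1)⟩
  rw [HemiL.top]
  simp only [sub_ne_zero]

end Pool.Agent.MP_4f4d9f_gt.Hy

end

section

/-! The local degree in a chart. -/

namespace Pool.Agent.MP_4f4d9f_gt.Hy

open Filter Topology

namespace ChartL

section Pull

variable {V X : Type} [TopologicalSpace V] [TopologicalSpace X] {i : C(V, X)} {K : Set V} {k : ℕ}

theorem pull (hi : IsOpenEmbedding i) {c : Ch V k}
    (h : push ℤ i k c ∈ supp ℤ (Set.range i ∩ (i '' K)ᶜ) k) : c ∈ supp ℤ Kᶜ k := by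
  rw [← Set.sdiff_eq, Set.range_sdiff_image hi.injective] at h
  obtain ⟨b, hb, e⟩ := exists_push_eq i hi.isEmbedding h
  rwa [← push_injective i hi.injective k e]

theorem cover (i : C(V, X)) (K : Set V) : Set.range i ∪ (i '' K)ᶜ = Set.univ :=
  Set.eq_univ_of_forall fun _ => or_iff_not_imp_right.2 fun h =>
    Set.image_subset_range _ _ (not_not.1 h)

variable [T2Space X]

theorem small (hi : IsOpenEmbedding i) (hK : IsCompact K) {c : Ch X (k + 1)}
    (h : RZ (i '' K)ᶜ (k + 1) c) :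
    ∃ b, RZ Kᶜ (k + 1) b ∧ RB Set.univ (i '' K)ᶜ (k + 1) (c - push ℤ i (k + 1) b) := by
  obtain ⟨c', h1, h2, h3⟩ := RZ.small hi.isOpen_range (hK.image i.continuous).isClosed.isOpen_compl
    (by rw [cover]; exact mem_supp_univ c) h
  obtain ⟨b, -, rfl⟩ := exists_push_eq i hi.isEmbedding (A := Set.univ) (Set.image_univ ▸ h1)
  rw [rz_succ, bd_push] at h2
  exact ⟨b, pull hi h2, cover i K ▸ h3⟩

theorem exc (hi : IsOpenEmbedding i) (hK : IsCompact K) {c : Ch V k}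
    (h : RB Set.univ (i '' K)ᶜ k (push ℤ i k c)) : RB Set.univ Kᶜ k c := by
  obtain ⟨a, h1, h2⟩ := RB.exc hi.isOpen_range (hK.image i.continuous).isClosed.isOpen_compl
    (push_mem_supp i (fun v _ => Set.mem_range_self v) (mem_supp_univ c)) (by rwa [cover])
  obtain ⟨b, hb, rfl⟩ := exists_push_eq i hi.isEmbedding (A := Set.univ) (Set.image_univ ▸ h1)
  rw [bd_push, ← map_sub] at h2
  exact ⟨b, hb, pull hi h2⟩

end Pull

variable {m : ℕ}

theorem dgp (h1 : HemiStmt) (y : Eu m) : DgP m Set.univ {y}ᶜ (hemi Set.univ (fun v => v - y) 1)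
    (hemi Set.univ (fun v => v - y) (-1)) := by
  have e : ({y}ᶜ : Set (Eu m)) = {v | v ∈ Set.univ ∧ ContinuousLinearMap.id ℝ (Eu m) v ≠ y} :=
    Set.ext fun v => by simp
  rw [e]
  exact h1 (Eu m) m Set.univ (ContinuousLinearMap.id ℝ _) y isOpen_univ convex_univ
    Function.surjective_id ⟨y, trivial, rfl⟩

theorem move (h1 : HemiStmt) (h2 : PrismStmt) {K : Set (Eu m)} (hK : Convex ℝ K) {y y' : Eu m}
    (hy : y ∈ K) (hy' : y' ∈ K) {c : Ch (Eu m) (m + 1)} (hc : RZ Kᶜ (m + 1) c) {r : ℤ}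
    (h : DG Set.univ (fun v => v - y) (bd ℤ _ m c) r) :
    DG Set.univ (fun v => v - y') (bd ℤ _ m c) r := by
  let τ : C(Eu m, Eu m) := ⟨fun v => v + (y' - y), by fun_prop⟩
  let H : (ContinuousMap.id (Eu m)).Homotopy τ :=
    { toFun := fun p => p.2 + (p.1 : ℝ) • (y' - y)
      continuous_toFun := by fun_prop
      map_zero_left := fun v => by simp
      map_one_left := fun v => by simp [τ] }
  obtain ⟨a, ha, e⟩ := h2 _ _ _ _ H Kᶜ ∅ {y'}ᶜ ∅ (fun t v hv e => hv (by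
    have e' : v + (t : ℝ) • (y' - y) = y' := e
    rw [eq_sub_of_add_eq e', sub_eq_add_neg, ← smul_neg, neg_sub]
    exact hK.add_smul_sub_mem hy' hy t.2)) (fun _ _ h => h) m _ hc (rz_bd c)
  have h3 : DG Set.univ (fun v => v - y') _ r := h.push τ (fun _ _ => trivial) fun v _ => by
    change v + (y' - y) - y' = v - y
    abel
  have h4 := Dg.sub h3 ((dgp h1 y').bd a ha)
  have h5 := eq_zero_of_mem_supp_empty e
  rw [push_id, sub_right_comm, sub_eq_zero] at h5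
  rwa [h5, sub_zero] at h4

variable {X : Type} [TopologicalSpace X] {i : C(Eu m, X)} {y : Eu m} {c c' : Ch X (m + 1)}
  {r r' : ℤ}

variable (i y c r) in
/-- The degree of `c` at `i y` is `r`. -/
def R : Prop := ∃ b, RZ {y}ᶜ (m + 1) b ∧ RB Set.univ {i y}ᶜ (m + 1) (c - push ℤ i (m + 1) b) ∧
  DG Set.univ (fun v => v - y) (bd ℤ _ m b) r

open Classical in
variable (i) in
/-- The local degree. -/
noncomputable def ld (x : X) (c : Ch X (m + 1)) : ℤ :=
  if h : ∃ r y, x = i y ∧ R i y c r then h.choose else 0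

theorem R.add (h : R i y c r) (h' : R i y c' r') : R i y (c + c') (r + r') := by
  obtain ⟨b, a1, a2, a3⟩ := h
  obtain ⟨b', b1, b2, b3⟩ := h'
  refine ⟨b + b', a1.add b1, ?_, ?_⟩
  · rw [map_add, add_sub_add_comm]
    exact a2.add b2
  · rw [map_add]
    exact Dg.add a3 b3

variable [T2Space X]

theorem R.uniq (h1 : HemiStmt) (hi : IsOpenEmbedding i) (h : R i y c r) (h' : R i y c r') :
    r = r' := by
  obtain ⟨b, -, a2, a3⟩ := h
  obtain ⟨b', -, b2, b3⟩ := h'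
  have e := b2.sub a2
  rw [sub_sub_sub_cancel_left, ← map_sub, ← Set.image_singleton] at e
  obtain ⟨a, -, ha⟩ := exc hi isCompact_singleton e
  have h3 := (dgp h1 y).bd _ ha
  rw [map_sub, bd_bd, sub_zero, map_sub] at h3
  exact sub_eq_zero.1 ((dgp h1 y).uniq _ _ _ (Dg.sub a3 b3) h3)

theorem R.eq (h1 : HemiStmt) (hi : IsOpenEmbedding i) (h : R i y c r) : ld i (i y) c = r := by
  have e : ∃ r y', i y = i y' ∧ R i y' c r := ⟨r, y, rfl, h⟩
  obtain ⟨y', e1, e2⟩ := e.choose_spec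
  rw [ld, dif_pos e]
  exact R.uniq h1 hi (hi.injective e1 ▸ e2) h

theorem ex (h1 : HemiStmt) (hi : IsOpenEmbedding i) (h : RZ {i y}ᶜ (m + 1) c) :
    R i y c (ld i (i y) c) := by
  rw [← Set.image_singleton] at h
  obtain ⟨b, a1, a2⟩ := small hi isCompact_singleton h
  obtain ⟨r, hr⟩ := (dgp h1 y).ex b a1
  have e : R i y c r := ⟨b, a1, Set.image_singleton ▸ a2, hr⟩
  rwa [e.eq h1 hi]

end ChartL

open ChartL in
theorem chart_stmt (h1 : HemiStmt) (h2 : PrismStmt) : ChartStmt := by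
  intro X _ _ m i hi
  have hm : ∀ y, Set.MapsTo i {y}ᶜ {i y}ᶜ := fun y v hv e => hv (hi.injective e)
  have hp : ∀ {y b r}, RZ {y}ᶜ (m + 1) b → DG Set.univ (fun v => v - y) (bd ℤ _ m b) r →
      ld i (i y) (push ℤ i (m + 1) b) = r := fun {y b r} a1 a2 =>
    R.eq h1 hi ⟨b, a1, by rw [sub_self]; exact rb_zero, a2⟩
  refine ⟨ld i, ⟨?_, ?_, ?_, ?_, ?_⟩, fun y b hb => ?_⟩
  · rintro _ ⟨y, rfl⟩ c c' hc hc'
    exact ((ex h1 hi hc).add (ex h1 hi hc')).eq h1 hi
  · rintro _ ⟨y, rfl⟩ c hc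
    exact R.eq h1 hi ⟨0, rz_of_mem (zero_mem _), by rwa [map_zero, sub_zero],
      (dgp h1 y).bd 0 (zero_mem _)⟩
  · rintro _ ⟨y, rfl⟩ c hc h0
    obtain ⟨b, a1, a2, a3⟩ := ex h1 hi hc
    rw [h0] at a3
    simpa using a2.add (((dgp h1 y).zero b (mem_supp_univ b) a1 a3).push i
      (Set.mapsTo_univ _ _) (hm y))
  · rintro _ ⟨y, rfl⟩
    obtain ⟨b, -, a1, a2⟩ := (dgp h1 y).one
    exact ⟨_, a1.push i (hm y), hp a1 a2⟩
  · rintro _ ⟨y, rfl⟩ c hc
    obtain ⟨N, n1, n2⟩ := hc.nhds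
    obtain ⟨ε, hε, hK⟩ := Metric.nhds_basis_closedBall.mem_iff.1 (i.continuous.continuousAt n1)
    obtain ⟨b, a1, a2⟩ := small hi (isCompact_closedBall y ε)
      (n2.mono (Set.compl_subset_compl.2 (Set.image_subset_iff.2 hK)))
    have hy := Metric.mem_closedBall_self (x := y) hε.le
    obtain ⟨r, hr⟩ := (dgp h1 y).ex b
      (a1.mono (Set.compl_subset_compl.2 (Set.singleton_subset_iff.2 hy)))
    have key : ∀ y' ∈ Metric.closedBall y ε, ld i (i y') c = r := fun y' hy' => R.eq h1 hi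
      ⟨b, a1.mono (Set.compl_subset_compl.2 (Set.singleton_subset_iff.2 hy')),
        a2.mono subset_rfl (Set.compl_subset_compl.2 (Set.singleton_subset_iff.2 ⟨y', hy', rfl⟩)),
        move h1 h2 (convex_closedBall y ε) hy hy' a1 hr⟩
    filter_upwards [hi.isOpenMap.image_mem_nhds (Metric.closedBall_mem_nhds y hε)]
    rintro _ ⟨y', hy', rfl⟩
    rw [key y' hy', key y hy]
  · obtain ⟨r, hr⟩ := (dgp h1 y).ex b hb
    rwa [hp hb hr]

end Pool.Agent.MP_4f4d9f_gt.Hy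

end

section

/-! A locally constant sign cocycle on a simply connected space is a coboundary. -/

namespace Pool.Agent.MP_4f4d9f_gt.Hy

open Filter Topology

namespace TrivL

variable {X : Type} [TopologicalSpace X]

/-- The double cover attached to a locally constant sign cocycle. -/
def core (U : X → Set X) (t : X → X → X → ℤˣ) (hU : ∀ i, IsOpen (U i)) (hi : ∀ i, i ∈ U i)
    (hc : ∀ i j k x, x ∈ U i → x ∈ U j → x ∈ U k → t j k x * t i j x = t i k x)
    (hl : ∀ i j x, x ∈ U i → x ∈ U j → ∀ᶠ y in 𝓝 x, t i j y = t i j x) :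
    FiberBundleCore X X ℤˣ where
  baseSet := U
  isOpen_baseSet := hU
  indexAt := id
  mem_baseSet_at := hi
  coordChange i j x v := t i j x * v
  coordChange_self i x hx v := by
    have h := hc i i i x hx hx hx
    have h1 : t i i x = 1 := by
      have h2 : t i i x * t i i x = t i i x * 1 := by rw [h, mul_one]
      exact mul_left_cancel h2
    rw [h1, one_mul]
  continuousOn_coordChange i j := by
    rintro ⟨x, v⟩ ⟨⟨hx, hx'⟩, -⟩
    refine ContinuousAt.continuousWithinAt ?_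
    have h1 : ContinuousAt (fun p : X × ℤˣ => t i j x * p.2) (x, v) :=
      (continuous_const.mul continuous_snd).continuousAt
    refine h1.congr ?_
    have h2 : ∀ᶠ p : X × ℤˣ in 𝓝 (x, v), t i j p.1 = t i j x :=
      (continuous_fst.tendsto (x, v)).eventually (hl i j x hx hx')
    filter_upwards [h2] with p hp
    rw [hp]
  coordChange_comp i j k x hx v := by
    rw [← mul_assoc, hc i j k x hx.1.1 hx.1.2 hx.2]

end TrivL

theorem triv_stmt : TrivStmt := by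
  intro X _ _ _ U t hU hi hc hl
  let Z := TrivL.core U t hU hi hc hl
  have cov : IsCoveringMap Z.proj :=
    IsCoveringMap.mk Z.proj (fun _ => ℤˣ) (fun x => Z.localTriv x) (fun x => hi x)
  obtain ⟨a₀⟩ : Nonempty X := inferInstance
  obtain ⟨F, ⟨-, hF⟩, -⟩ := cov.existsUnique_continuousMap_lifts (ContinuousMap.id X) a₀
    ⟨a₀, (1 : ℤˣ)⟩ rfl
  have hp : ∀ x, (F x).1 = x := fun x => congrFun hF x
  refine ⟨fun i x => (Z.localTriv i (F x)).2, fun i x hx => ?_, fun i j x hxi hxj => ?_⟩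
  · have hs : F x ∈ (Z.localTriv i).source := by
      rw [FiberBundleCore.mem_localTriv_source, hp]; exact hx
    have h1 : ContinuousAt (fun y => (Z.localTriv i (F y)).2) x :=
      continuous_snd.continuousAt.comp
        (((Z.localTriv i).continuousAt hs).comp F.continuous.continuousAt)
    have h2 : ({(Z.localTriv i (F x)).2} : Set ℤˣ) ∈ 𝓝 (Z.localTriv i (F x)).2 :=
      (isOpen_discrete _).mem_nhds rfl
    exact h1.preimage_mem_nhds h2
  · simp only [FiberBundleCore.localTriv_apply]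
    have e : ∀ k, Z.coordChange (Z.indexAt (F x).1) k (F x).1 (F x).2
        = t x k x * (show ℤˣ from (F x).2) := by
      intro k
      change t (F x).1 k (F x).1 * _ = _
      rw [hp]
    rw [e, e, ← mul_assoc, hc x i j x (hi x) hxi hxj]

end Pool.Agent.MP_4f4d9f_gt.Hy

end

section

/-! A global orientation of a contractible manifold and its orientation character. -/

namespace Pool.Agent.MP_4f4d9f_gt.Hy

open Finsupp Filter Topology

namespace OrientL

variable {X : Type} [TopologicalSpace X] {m : ℕ}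

theorem lpc (h : Charts X m) : LocallyPathConnectedSpace X := by
  refine ⟨fun x => ?_⟩
  obtain ⟨i, hi, y, rfl⟩ := h x
  refine ⟨fun s => ⟨fun hs => ?_, fun ⟨t, ht, h⟩ => mem_of_superset ht.1 h⟩⟩
  obtain ⟨t, ⟨h1, h2⟩, h3⟩ := (path_connected_basis y).mem_iff.1
    (i.continuous.continuousAt.preimage_mem_nhds hs)
  exact ⟨i '' t, ⟨hi.isOpenMap.image_mem_nhds h1, h2.image i.continuous⟩,
    Set.image_subset_iff.2 h3⟩

/-- `od'` is `e` times `od` at `y`. -/
def Sgn (m : ℕ) (od od' : X → Ch X (m + 1) → ℤ) (y : X) (e : ℤˣ) : Prop :=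
  ∀ c, RZ {y}ᶜ (m + 1) c → od' y c = e * od y c

theorem Sgn.uniq {U : Set X} {od od' : X → Ch X (m + 1) → ℤ} {y : X} {e e' : ℤˣ}
    (h : LocOr m U od) (hy : y ∈ U) (h1 : Sgn m od od' y e) (h2 : Sgn m od od' y e') :
    e = e' := by
  obtain ⟨c, hc, h3⟩ := h.gen y hy
  have := (h1 c hc).symm.trans (h2 c hc)
  rw [h3, mul_one, mul_one] at this
  exact Units.ext this

/-- The sign relating two local degrees. -/
noncomputable def sg (m : ℕ) (od od' : X → Ch X (m + 1) → ℤ) (y : X) : ℤˣ :=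
  open Classical in if h : ∃ e, Sgn m od od' y e then h.choose else 1

theorem sg_spec [T2Space X] {U U' : Set X} {od od' : X → Ch X (m + 1) → ℤ} {x : X}
    (h : LocOr m U od) (h' : LocOr m U' od') (hU : IsOpen U) (hU' : IsOpen U') (hx : x ∈ U)
    (hx' : x ∈ U') : Sgn m od od' x (sg m od od' x) := by
  obtain ⟨e, he⟩ := h.sign h' hU hU' hx hx'
  have h1 : ∃ e, Sgn m od od' x e := ⟨e, he.self_of_nhds⟩
  rw [sg, dif_pos h1]
  exact h1.choose_spec

theorem sg_lc [T2Space X] {U U' : Set X} {od od' : X → Ch X (m + 1) → ℤ} {x : X}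
    (h : LocOr m U od) (h' : LocOr m U' od') (hU : IsOpen U) (hU' : IsOpen U') (hx : x ∈ U)
    (hx' : x ∈ U') : ∀ᶠ y in 𝓝 x, sg m od od' y = sg m od od' x := by
  obtain ⟨e, he⟩ := h.sign h' hU hU' hx hx'
  have h1 : sg m od od' x = e := Sgn.uniq h hx (sg_spec h h' hU hU' hx hx') he.self_of_nhds
  filter_upwards [he, hU.mem_nhds hx, hU'.mem_nhds hx'] with y a1 a2 a3
  rw [h1]
  exact Sgn.uniq h a2 (sg_spec h h' hU hU' a2 a3) a1

theorem sq (e : ℤˣ) : (e : ℤ) * e = 1 := by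
  rw [← Units.val_mul, Int.units_mul_self, Units.val_one]

theorem exists_or [T2Space X] [ContractibleSpace X] (h1 : ChartStmt) (h2 : TrivStmt)
    (h : Charts X m) : ∃ od : X → Ch X (m + 1) → ℤ, LocOr m Set.univ od := by
  haveI := lpc h
  haveI := SimplyConnectedSpace.ofContractible X
  choose i hi hx using h
  choose ld hld _ using fun x => h1 X m (i x) (hi x)
  have hU : ∀ x, IsOpen (Set.range (i x)) := fun x => (hi x).isOpen_range
  obtain ⟨s, s1, s2⟩ := h2 X (fun x => Set.range (i x)) (fun a b x => sg m (ld a) (ld b) x) hU hx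
    (fun a b c x ha hb hc => by
      refine Sgn.uniq (hld a) ha (fun z hz => ?_) (sg_spec (hld a) (hld c) (hU a) (hU c) ha hc)
      rw [sg_spec (hld b) (hld c) (hU b) (hU c) hb hc z hz,
        sg_spec (hld a) (hld b) (hU a) (hU b) ha hb z hz, Units.val_mul, mul_assoc])
    fun a b x ha hb => sg_lc (hld a) (hld b) (hU a) (hU b) ha hb
  have key : ∀ a, ∀ x ∈ Set.range (i a), ∀ c, RZ {x}ᶜ (m + 1) c →
      s x x * ld x x c = s a x * ld a x c := by
    intro a x ha c hc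
    rw [s2 a x x ha (hx x), sg_spec (hld a) (hld x) (hU a) (hU x) ha (hx x) c hc, Units.val_mul]
    linear_combination (s a x * ld a x c : ℤ) * sq (sg m (ld a) (ld x) x)
  refine ⟨fun x c => s x x * ld x x c, fun x _ c c' hc hc' => ?_, fun x _ c hc => ?_,
    fun x _ c hc h0 => ?_, fun x _ => ?_, fun x _ c hc => ?_⟩
  · rw [(hld x).add x (hx x) c c' hc hc', mul_add]
  · rw [(hld x).zero x (hx x) c hc, mul_zero]
  · exact (hld x).inj x (hx x) c hc ((mul_eq_zero.1 h0).resolve_left (s x x).ne_zero)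
  · obtain ⟨c, hc, h3⟩ := (hld x).gen x (hx x)
    refine ⟨(s x x : ℤ) • c, hc.smul _, ?_⟩
    rw [(hld x).smul (hx x) hc, h3, mul_one, sq]
  · filter_upwards [(hU x).mem_nhds (hx x), hc.eventually, s1 x x (hx x),
      (hld x).lc x (hx x) c hc] with y a1 a2 a3 a4
    rw [key x y a1 c a2, a3, a4]

variable {G : Type} [Group G] [MulAction G X] [ContinuousConstSMul G X]

/-- The translation by a group element. -/
def tr (X : Type) [TopologicalSpace X] [MulAction G X] [ContinuousConstSMul G X] (g : G) :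
    C(X, X) := ⟨(g • ·), continuous_const_smul g⟩

theorem tr_tr (g h : G) (k : ℕ) (c : Ch X k) :
    push ℤ (tr X g) k (push ℤ (tr X h) k c) = push ℤ (tr X (g * h)) k c := by
  rw [push_push]
  congr 2
  ext x
  exact (mul_smul g h x).symm

theorem tr_one (k : ℕ) (c : Ch X k) : push ℤ (tr X (1 : G)) k c = c := by
  have : tr X (1 : G) = ContinuousMap.id X := by
    ext x
    exact one_smul G x
  rw [this, push_id]

theorem tr_maps (g : G) (x : X) : Set.MapsTo (tr X g) {x}ᶜ {g • x}ᶜ :=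
  fun _ hy e => hy (MulAction.injective g e)

theorem tr_maps' (g : G) (x : X) : Set.MapsTo (tr X g⁻¹) {g • x}ᶜ {x}ᶜ := by
  simpa using tr_maps g⁻¹ (g • x)

theorem loc_tr {od : X → Ch X (m + 1) → ℤ} (h : LocOr m Set.univ od) (g : G) :
    LocOr m Set.univ fun x c => od (g • x) (push ℤ (tr X g) (m + 1) c) := by
  refine ⟨fun x _ c c' hc hc' => ?_, fun x _ c hc => ?_, fun x _ c hc h0 => ?_, fun x _ => ?_,
    fun x _ c hc => ?_⟩
  · rw [map_add]
    exact h.add _ trivial _ _ (hc.push _ (tr_maps g x)) (hc'.push _ (tr_maps g x))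
  · exact h.zero _ trivial _ (hc.push _ (Set.mapsTo_univ _ _) (tr_maps g x))
  · have h3 := (h.inj _ trivial _ (hc.push _ (tr_maps g x)) h0).push (tr X g⁻¹)
      (Set.mapsTo_univ _ _) (tr_maps' g x)
    rwa [tr_tr, inv_mul_cancel, tr_one] at h3
  · obtain ⟨c, hc, h3⟩ := h.gen (g • x) trivial
    refine ⟨_, hc.push _ (tr_maps' g x), ?_⟩
    rw [tr_tr, mul_inv_cancel, tr_one, h3]
  · exact ((continuous_const_smul g).tendsto x).eventually
      (h.lc _ trivial _ (hc.push _ (tr_maps g x)))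

theorem exists_char [T2Space X] [PreconnectedSpace X] [Nonempty X]
    {od : X → Ch X (m + 1) → ℤ} (h : LocOr m Set.univ od) : ∃ w : G →* ℤˣ, OrCh m w od := by
  obtain ⟨x₀⟩ : Nonempty X := inferInstance
  let e : G → X → ℤˣ := fun g => sg m od fun x c => od (g • x) (push ℤ (tr X g) (m + 1) c)
  have he : ∀ g x, e g x = e g x₀ := fun g x =>
    ((IsLocallyConstant.iff_eventually_eq (e g)).2 fun y =>
      sg_lc h (loc_tr h g) isOpen_univ isOpen_univ trivial trivial).apply_eq_of_preconnectedSpace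
      x x₀
  have key : ∀ g x c, RZ {x}ᶜ (m + 1) c →
      od (g • x) (push ℤ (tr X g) (m + 1) c) = e g x₀ * od x c := fun g x c hc => by
    rw [← he g x]
    exact sg_spec h (loc_tr h g) isOpen_univ isOpen_univ trivial trivial c hc
  obtain ⟨c, hc, h1⟩ := h.gen x₀ trivial
  refine ⟨MonoidHom.mk' (fun g => e g x₀) fun g g' => Units.ext ?_, fun g x c hc => key g x c hc⟩
  have h2 := key (g * g') x₀ c hc
  rw [← tr_tr, mul_smul, key g _ _ (hc.push _ (tr_maps g' x₀)), key g' _ _ hc, h1, mul_one,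
    mul_one] at h2
  rw [Units.val_mul, h2]

end OrientL

theorem orient_stmt (h1 : ChartStmt) (h2 : TrivStmt) : OrientStmt := by
  intro G X _ _ _ _ _ _ m h
  obtain ⟨od, hod⟩ := OrientL.exists_or h1 h2 h
  obtain ⟨w, hw⟩ := OrientL.exists_char (G := G) hod
  exact ⟨od, w, hod, hw⟩

end Pool.Agent.MP_4f4d9f_gt.Hy

end

section

/-! The Thom isomorphism over a convex subset of a chart. -/

namespace Pool.Agent.MP_4f4d9f_gt.Hy

open Finsupp Sg Filter Topology

namespace ThomLocL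

section Exc

variable {Y Y' : Type} [TopologicalSpace Y] [TopologicalSpace Y'] {j : C(Y, Y')} {W F : Set Y}
  {N B : Set Y'} {k : ℕ}

theorem mem_of_push (hj : IsEmbedding j) {c : Ch Y k} (h : push ℤ j k c ∈ supp ℤ (j '' F) k) :
    c ∈ supp ℤ F k := by
  obtain ⟨b, hb, e⟩ := exists_push_eq j hj h
  rwa [← push_injective j hj.injective k e]

theorem rz_pull (hj : IsEmbedding j) {c : Ch Y k} (h : RZ (j '' F) k (push ℤ j k c)) :
    RZ F k c := by
  cases k with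
  | zero => trivial
  | succ k =>
    rw [rz_succ, bd_push] at h
    exact mem_of_push hj h

theorem rb_pull (hj : IsEmbedding j) {c : Ch Y k} (h : RB (j '' W) (j '' F) k (push ℤ j k c)) :
    RB W F k c := by
  obtain ⟨a, h1, h2⟩ := h
  obtain ⟨b, hb, rfl⟩ := exists_push_eq j hj h1
  rw [bd_push, ← map_sub] at h2
  exact ⟨b, hb, mem_of_push hj h2⟩

/-- An excisive map of pairs. -/
structure Exc (j : C(Y, Y')) (W F : Set Y) (N B : Set Y') : Prop where
  emb : IsEmbedding j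
  op : IsOpen (j '' W)
  opB : IsOpen B
  hN : N = j '' W ∪ B
  hF : j '' F = j '' W ∩ B

theorem Exc.pull (H : Exc j W F N B) {c : Ch Y' k} (hc : c ∈ supp ℤ N k) (h : RZ B k c) :
    ∃ c' ∈ supp ℤ W k, RZ F k c' ∧ RB N B k (c - push ℤ j k c') := by
  rw [H.hN] at hc ⊢
  obtain ⟨c₁, h1, h2, h3⟩ := RZ.small H.op H.opB hc h
  obtain ⟨b, hb, rfl⟩ := exists_push_eq j H.emb h1
  rw [← H.hF] at h2
  exact ⟨b, hb, rz_pull H.emb h2, h3⟩

theorem Exc.rb (H : Exc j W F N B) {c : Ch Y k} (hc : c ∈ supp ℤ W k)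
    (h : RB N B k (push ℤ j k c)) : RB W F k c := by
  rw [H.hN] at h
  have h1 := h.exc H.op H.opB (push_mem_supp j (Set.mapsTo_image j W) hc)
  rw [← H.hF] at h1
  exact rb_pull H.emb h1

theorem Exc.push (H : Exc j W F N B) {c : Ch Y k} (h : RB W F k c) : RB N B k (push ℤ j k c) :=
  h.push j (fun v hv => H.hN ▸ Or.inl ⟨v, hv, rfl⟩) fun v hv =>
    (H.hF ▸ (⟨v, hv, rfl⟩ : j v ∈ j '' F) : j v ∈ j '' W ∩ B).2

variable {m : ℕ} {A A' : ℕ → Set Y}

theorem Exc.low (H : Exc j W F N B) (D : DgP m W F A A') (hk : k ≠ m + 1) {c : Ch Y' k}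
    (hc : c ∈ supp ℤ N k) (h : RZ B k c) : RB N B k c := by
  obtain ⟨c', h1, h2, h3⟩ := H.pull hc h
  simpa using h3.add (H.push (D.van k hk c' h1 h2))

/-- The degree of a relative cycle in the target. -/
def Rr (j : C(Y, Y')) (W F : Set Y) (N B : Set Y') (A A' : ℕ → Set Y) (m : ℕ)
    (c : Ch Y' (m + 1)) (r : ℤ) : Prop :=
  ∃ c' ∈ supp ℤ W (m + 1), RZ F (m + 1) c' ∧ RB N B (m + 1) (c - push ℤ j (m + 1) c') ∧
    Dg A A' m (bd ℤ Y m c') r

variable {c c' : Ch Y' (m + 1)} {r r' : ℤ}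

theorem Rr.add (h : Rr j W F N B A A' m c r) (h' : Rr j W F N B A A' m c' r') :
    Rr j W F N B A A' m (c + c') (r + r') := by
  obtain ⟨a, h1, h2, h3, h4⟩ := h
  obtain ⟨b, h5, h6, h7, h8⟩ := h'
  refine ⟨a + b, add_mem h1 h5, h2.add h6, ?_, by rw [map_add]; exact h4.add h8⟩
  convert h3.add h7 using 1
  rw [map_add]
  abel

theorem Rr.smul (h : Rr j W F N B A A' m c r) (s : ℤ) : Rr j W F N B A A' m (s • c) (s * r) := by
  obtain ⟨a, h1, h2, h3, h4⟩ := h
  refine ⟨s • a, Submodule.smul_mem _ s h1, h2.smul s, ?_, by rw [map_smul]; exact h4.smul s⟩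
  rw [map_smul, ← smul_sub]
  exact h3.smul s

theorem rr_zero (D : DgP m W F A A') : Rr j W F N B A A' m 0 0 :=
  ⟨0, zero_mem _, rz_of_mem (zero_mem _), by simpa using rb_zero, D.bd 0 (zero_mem _)⟩

theorem Exc.ex (H : Exc j W F N B) (D : DgP m W F A A') (hc : c ∈ supp ℤ N (m + 1))
    (h : RZ B (m + 1) c) : ∃ r, Rr j W F N B A A' m c r := by
  obtain ⟨a, h1, h2, h3⟩ := H.pull hc h
  obtain ⟨r, hr⟩ := D.ex a h2
  exact ⟨r, a, h1, h2, h3, hr⟩

theorem Exc.eq_zero (H : Exc j W F N B) (D : DgP m W F A A') (h : Rr j W F N B A A' m c r)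
    (hc : RB N B (m + 1) c) : r = 0 := by
  obtain ⟨a, h1, -, h3, h4⟩ := h
  obtain ⟨b, -, h5⟩ := H.rb h1 (by simpa using hc.sub h3)
  have h6 := D.bd _ h5
  rw [map_sub, bd_bd, sub_zero] at h6
  exact D.uniq _ _ _ h4 h6

theorem Exc.of_zero (H : Exc j W F N B) (D : DgP m W F A A') (h : Rr j W F N B A A' m c 0) :
    RB N B (m + 1) c := by
  obtain ⟨a, h1, h2, h3, h4⟩ := h
  simpa using h3.add (H.push (D.zero a h1 h2 h4))

end Exc

variable {X : Type} [TopologicalSpace X] [T2Space X] {m : ℕ}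

theorem sign {od ld : X → Ch X (m + 1) → ℤ} {V U : Set X} (h : LocOr m Set.univ od)
    (h' : LocOr m V ld) (hV : IsOpen V) (hU : IsPreconnected U) (hUV : U ⊆ V) {x₀ : X}
    (hx₀ : x₀ ∈ U) : ∃ e : ℤˣ, ∀ x ∈ U, ∀ c, RZ {x}ᶜ (m + 1) c → ld x c = e * od x c := by
  let P : ℤˣ → X → Prop := fun e x => ∀ c, RZ {x}ᶜ (m + 1) c → ld x c = e * od x c
  have uq : ∀ e e' x, P e x → P e' x → e = e' := fun e e' x a b => by
    obtain ⟨c, hc, h1⟩ := h.gen x trivial
    have h2 := (a c hc).symm.trans (b c hc)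
    rw [h1, mul_one, mul_one] at h2
    exact Units.ext h2
  obtain ⟨e, he⟩ := h.sign h' isOpen_univ hV trivial (hUV hx₀)
  refine ⟨e, fun x hx => ?_⟩
  refine hU.induction₂' (fun x y => ∀ e, P e x → P e y) (fun x hx => ?_)
    (fun _ _ _ _ _ _ a b e p => b e (a e p)) hx₀ hx e he.self_of_nhds
  obtain ⟨e₀, h0⟩ := h.sign h' isOpen_univ hV trivial (hUV hx)
  refine (h0.filter_mono nhdsWithin_le_nhds).mono fun y hy => ⟨fun e p => ?_, fun e p => ?_⟩
  · rw [uq e e₀ x p h0.self_of_nhds]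
    exact hy
  · rw [uq e e₀ y p hy]
    exact h0.self_of_nhds

variable (m) in
/-- The difference map. -/
noncomputable def LL : (Eu m × Eu m) →L[ℝ] Eu m :=
  ContinuousLinearMap.snd ℝ (Eu m) (Eu m) - ContinuousLinearMap.fst ℝ (Eu m) (Eu m)

theorem LL_apply (v : Eu m × Eu m) : LL m v = v.2 - v.1 := rfl

variable {i : C(Eu m, X)} {O : Set (Eu m)}

theorem exc2 (hi : IsOpenEmbedding i) (hO : IsOpen O) :
    Exc (i.prodMap i) (O ×ˢ O) {v | v ∈ O ×ˢ O ∧ LL m v ≠ 0} (NB (i '' O)) (offDiag X) := by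
  have e : i.prodMap i '' O ×ˢ O = (i '' O) ×ˢ (i '' O) := Set.prodMap_image_prod _ _ _ _
  have hU := hi.isOpenMap O hO
  refine ⟨hi.isEmbedding.prodMap hi.isEmbedding, e ▸ hU.prod hU, isOpen_offDiag,
    e ▸ NB_eq _, Set.Subset.antisymm ?_ ?_⟩
  · rintro _ ⟨v, ⟨h1, h2⟩, rfl⟩
    exact ⟨⟨v, h1, rfl⟩, fun e => h2 (sub_eq_zero.2 (hi.injective e).symm)⟩
  · rintro _ ⟨⟨v, h1, rfl⟩, h2⟩
    exact ⟨v, ⟨h1, fun e => h2 (congrArg i (sub_eq_zero.1 e).symm)⟩, rfl⟩

theorem exc1 (hi : IsOpenEmbedding i) (hO : IsOpen O) {y : Eu m} (hy : y ∈ O) :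
    Exc i O {v | v ∈ O ∧ ContinuousLinearMap.id ℝ (Eu m) v ≠ y} Set.univ {i y}ᶜ := by
  refine ⟨hi.isEmbedding, hi.isOpenMap O hO, isOpen_compl_singleton, ?_,
    Set.Subset.antisymm ?_ ?_⟩
  · refine (Set.eq_univ_of_forall fun x => ?_).symm
    by_cases h : x = i y
    · exact Or.inl ⟨y, hy, h.symm⟩
    · exact Or.inr h
  · rintro _ ⟨v, ⟨h1, h2⟩, rfl⟩
    exact ⟨⟨v, h1, rfl⟩, fun e => h2 (hi.injective e)⟩
  · rintro _ ⟨⟨v, h1, rfl⟩, h2⟩
    exact ⟨v, ⟨h1, fun e => h2 (congrArg i e)⟩, rfl⟩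

theorem slice (h1 : HemiStmt) (hi : IsOpenEmbedding i) (hO : IsOpen O) (hc : Convex ℝ O)
    {ld : X → Ch X (m + 1) → ℤ} (hl : LocOr m (Set.range i) ld)
    (hk : ∀ (y : Eu m) (c : Ch (Eu m) (m + 1)), RZ {y}ᶜ (m + 1) c →
      DG Set.univ (fun v => v - y) (bd ℤ _ m c) (ld (i y) (push ℤ i (m + 1) c)))
    {y : Eu m} (hy : y ∈ O) {c : Ch X (m + 1)} (hz : RZ {i y}ᶜ (m + 1) c) :
    Rr (i.prodMap i) (O ×ˢ O) {v | v ∈ O ×ˢ O ∧ LL m v ≠ 0} (NB (i '' O)) (offDiag X)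
      (hemi (O ×ˢ O) (fun v => LL m v - 0) 1) (hemi (O ×ˢ O) (fun v => LL m v - 0) (-1)) m
      (push ℤ (sl (i y)) (m + 1) c) (ld (i y) c) := by
  have D1 := h1 (Eu m) m O (ContinuousLinearMap.id ℝ (Eu m)) y hO hc Function.surjective_id
    ⟨y, hy, rfl⟩
  have D0 := h1 (Eu m) m Set.univ (ContinuousLinearMap.id ℝ (Eu m)) y isOpen_univ convex_univ
    Function.surjective_id ⟨y, trivial, rfl⟩
  obtain ⟨r, a, a1, a2, a3, a4⟩ := (exc1 hi hO hy).ex D1 (mem_supp_univ c) hz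
  have a5 : DG O (fun v => v - y) (bd ℤ _ m a) r := a4
  have a6 : DG Set.univ (fun v => v - y) (bd ℤ _ m a) r := by
    have := a5.push (ContinuousMap.id _) (W' := Set.univ) (f' := fun v => v - y)
      (Set.mapsTo_univ _ _) fun _ _ => rfl
    rwa [push_id] at this
  have a7 : r = ld (i y) c := by
    rw [hl.congr ⟨y, rfl⟩ hz a3]
    exact D0.uniq _ _ _ a6 (hk y a (a2.mono fun v hv => hv.2))
  have m1 : Set.MapsTo (sl y) O (O ×ˢ O) := fun v hv => ⟨hy, hv⟩
  refine ⟨push ℤ (sl y) (m + 1) a, push_mem_supp _ m1 a1,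
    a2.push _ fun v hv => ⟨m1 hv.1, fun e => hv.2 (sub_eq_zero.1 e)⟩, ?_, ?_⟩
  · have e : push ℤ (i.prodMap i) (m + 1) (push ℤ (sl y) (m + 1) a)
        = push ℤ (sl (i y)) (m + 1) (push ℤ i (m + 1) a) := by
      rw [push_push, push_push]
      rfl
    rw [e, ← map_sub]
    exact a3.push _ (fun v _ _ => ⟨y, hy, rfl⟩) fun v hv e => hv (Eq.symm e)
  · rw [bd_push, ← a7]
    exact a5.push (sl y) (f' := fun v => LL m v - 0) m1 fun v _ => sub_zero _

end ThomLocL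

open ThomLocL in
theorem thomLoc_stmt (h1 : HemiStmt) (h2 : ChartStmt) : ThomLocStmt := by
  intro X _ _ m od hod i hi O hO hc
  rcases O.eq_empty_or_nonempty with rfl | ⟨y₀, hy₀⟩
  · have e : NB (i '' ∅) ⊆ offDiag X := fun v hv h => by simpa using hv h
    refine ⟨fun j _ c h _ => rb_of_mem (supp_mono e j h),
      fun c h _ => ⟨0, zero_mem _, rb_of_mem (by simpa using supp_mono e _ h)⟩, fun a ha _ => ?_⟩
    have : JJ m od (i '' ∅) = ⊥ := Submodule.span_eq_bot.2 fun _ ⟨x, hx, _⟩ => by simp at hx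
    rw [this, Submodule.mem_bot] at ha
    rw [ha]
    rfl
  obtain ⟨ld, hl, hk⟩ := h2 X m i hi
  obtain ⟨e, he⟩ := sign hod hl hi.isOpen_range
    (hc.isPreconnected.image i i.continuous.continuousOn) (Set.image_subset_range _ _)
    ⟨y₀, hy₀, rfl⟩
  have H := exc2 hi hO
  have D := h1 (Eu m × Eu m) m (O ×ˢ O) (LL m) 0 (hO.prod hO) (hc.prod hc)
    (fun v => ⟨(0, v), sub_zero v⟩) ⟨(y₀, y₀), ⟨hy₀, hy₀⟩, sub_self y₀⟩
  have key : ∀ a ∈ JJ m od (i '' O),
      Rr (i.prodMap i) (O ×ˢ O) {v | v ∈ O ×ˢ O ∧ LL m v ≠ 0} (NB (i '' O)) (offDiag X)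
        (hemi (O ×ˢ O) (fun v => LL m v - 0) 1) (hemi (O ×ˢ O) (fun v => LL m v - 0) (-1)) m
        a.1 (e * a.2) := by
    intro a ha
    induction ha using Submodule.span_induction with
    | mem a ha =>
      obtain ⟨_, ⟨y, hy, rfl⟩, c, hz, rfl⟩ := ha
      have := slice h1 hi hO hc hl hk hy hz
      rwa [he _ ⟨y, hy, rfl⟩ c hz] at this
    | zero => simpa using rr_zero D
    | add a b _ _ ia ib => simpa [mul_add] using ia.add ib
    | smul s a _ ia => simpa [mul_left_comm] using ia.smul s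
  refine ⟨fun j hj c h hz => H.low D (by omega) h hz, fun c h hz => ?_, fun a ha h => ?_⟩
  · obtain ⟨r, hr⟩ := H.ex D h hz
    obtain ⟨c₀, z₀, o₀⟩ := hod.gen (i y₀) trivial
    have m0 : (e * r : ℤ) • (push ℤ (sl (i y₀)) (m + 1) c₀, od (i y₀) c₀) ∈ JJ m od (i '' O) :=
      Submodule.smul_mem _ _ (Submodule.subset_span ⟨i y₀, ⟨y₀, hy₀, rfl⟩, c₀, z₀, rfl⟩)
    refine ⟨_, m0, H.of_zero D ?_⟩
    have := hr.add ((key _ m0).smul (-1))
    rw [neg_one_smul, ← sub_eq_add_neg] at this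
    convert this using 1
    rw [Prod.smul_snd, o₀, smul_eq_mul, mul_one, ← mul_assoc (e : ℤ), Int.units_coe_mul_self]
    ring
  · exact (Units.mul_right_eq_zero e).1 (H.eq_zero D (key a ha) h)

end Pool.Agent.MP_4f4d9f_gt.Hy

end

section

/-! Bootstrapping the Thom isomorphism over open sets. -/

namespace Pool.Agent.MP_4f4d9f_gt.Hy

open Finsupp Filter Topology

namespace ThomBootL

variable {X : Type} [TopologicalSpace X] {m : ℕ} {od : X → Ch X (m + 1) → ℤ} {U V : Set X}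

theorem jj_mono (h : U ⊆ V) : JJ m od U ≤ JJ m od V :=
  Submodule.span_mono fun _ ⟨x, hx, he⟩ => ⟨x, h hx, he⟩

theorem jj_mem {e : Ch (X × X) (m + 1) × ℤ} (h : e ∈ JJ m od U) :
    e.1 ∈ supp ℤ (NB U) (m + 1) ∧ RZ (offDiag X) (m + 1) e.1 := by
  induction h using Submodule.span_induction with
  | mem e he =>
    obtain ⟨x, hx, c, hc, rfl⟩ := he
    exact ⟨push_mem_supp (sl x) (B := NB U) (fun y _ _ => hx) (mem_supp_univ c),
      hc.push (sl x) fun y hy e => hy e.symm⟩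
  | zero => exact ⟨zero_mem _, rz_of_mem (zero_mem _)⟩
  | add a b _ _ ha hb => exact ⟨add_mem ha.1 hb.1, ha.2.add hb.2⟩
  | smul r a _ ha => exact ⟨Submodule.smul_mem _ r ha.1, ha.2.smul r⟩

theorem jj_union : JJ m od (U ∪ V) ≤ JJ m od U ⊔ JJ m od V := by
  refine Submodule.span_le.2 ?_
  rintro e ⟨x, hx | hx, he⟩
  · exact Submodule.mem_sup_left (Submodule.subset_span ⟨x, hx, he⟩)
  · exact Submodule.mem_sup_right (Submodule.subset_span ⟨x, hx, he⟩)

theorem jj_directed {ι : Type} [Nonempty ι] {f : ι → Set X} (hd : Directed (· ⊆ ·) f)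
    {e : Ch (X × X) (m + 1) × ℤ} (h : e ∈ JJ m od (⋃ t, f t)) : ∃ t, e ∈ JJ m od (f t) := by
  induction h using Submodule.span_induction with
  | mem e he =>
    obtain ⟨x, hx, he⟩ := he
    obtain ⟨t, ht⟩ := Set.mem_iUnion.1 hx
    exact ⟨t, Submodule.subset_span ⟨x, ht, he⟩⟩
  | zero => exact ⟨Classical.arbitrary _, zero_mem _⟩
  | add a b _ _ ha hb =>
    obtain ⟨s, hs⟩ := ha
    obtain ⟨t, ht⟩ := hb
    obtain ⟨u, h1, h2⟩ := hd s t
    exact ⟨u, add_mem (jj_mono h1 hs) (jj_mono h2 ht)⟩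
  | smul r a _ ha => exact ha.imp fun _ h => Submodule.smul_mem _ r h

theorem tp_empty : TP m od ∅ := by
  have h : NB (∅ : Set X) ⊆ offDiag X := fun _ hy e => hy e
  refine ⟨fun j _ c hc _ => rb_of_mem (supp_mono h j hc),
    fun c hc _ => ⟨0, zero_mem _, rb_of_mem (by simpa using supp_mono h _ hc)⟩, fun e he _ => ?_⟩
  have : JJ m od ∅ ≤ ⊥ := Submodule.span_le.2 fun _ ⟨_, hx, _⟩ => hx.elim
  rw [(Submodule.mem_bot _).1 (this he)]
  rfl

variable [T2Space X]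

theorem split (hU : IsOpen U) (hV : IsOpen V) (h₃ : TP m od (U ∩ V)) {j : ℕ} (hj : j ≤ m + 1)
    {c : Ch (X × X) j} (hc : c ∈ supp ℤ (NB (U ∪ V)) j) (hz : RZ (offDiag X) j c) :
    ∃ c1 ∈ supp ℤ (NB U) j, ∃ c2 ∈ supp ℤ (NB V) j, RZ (offDiag X) j c1 ∧ RZ (offDiag X) j c2 ∧
      RB (NB (U ∪ V)) (offDiag X) j (c - c1 - c2) := by
  rw [NB_union] at hc ⊢
  cases j with
  | zero =>
    rw [supp_union_zero] at hc
    obtain ⟨a, ha, b, hb, rfl⟩ := Submodule.mem_sup.1 hc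
    exact ⟨a, ha, b, hb, trivial, trivial, by simpa using rb_zero⟩
  | succ k =>
    obtain ⟨h, hh, h1⟩ := small_chainR (isOpen_NB hU) (isOpen_NB hV) k c hc
      (Submodule.mem_sup_left (supp_mono (offDiag_subset_NB U) k hz))
    obtain ⟨a, ha, b, hb, h2⟩ := Submodule.mem_sup.1 h1
    have e1 : bd ℤ (X × X) k a = bd ℤ (X × X) k c - bd ℤ (X × X) k b := by
      rw [eq_sub_iff_add_eq, ← map_add, h2, map_sub, bd_bd, sub_zero]
    obtain ⟨d, hd, h3⟩ := h₃.low k (by omega) (bd ℤ (X × X) k a) (by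
      rw [NB_inter, supp_inter]
      refine ⟨bd_mem_supp ha, ?_⟩
      rw [e1]
      exact sub_mem (supp_mono (offDiag_subset_NB V) k hz) (bd_mem_supp hb)) (rz_bd a)
    rw [NB_inter, supp_inter] at hd
    refine ⟨a - d, sub_mem ha hd.1, b + d, add_mem hb hd.2, ?_, ?_, ?_⟩
    · rw [rz_succ, map_sub]
      exact h3
    · rw [rz_succ, map_add]
      convert sub_mem hz h3 using 1
      rw [e1]
      abel
    · convert rb_bd hh using 1
      rw [← sub_sub_cancel c (bd ℤ (X × X) (k + 1) h), ← h2]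
      abel

theorem tp_union (hU : IsOpen U) (hV : IsOpen V) (h₁ : TP m od U) (h₂ : TP m od V)
    (h₃ : TP m od (U ∩ V)) : TP m od (U ∪ V) := by
  have m1 : NB U ⊆ NB (U ∪ V) := NB_mono Set.subset_union_left
  have m2 : NB V ⊆ NB (U ∪ V) := NB_mono Set.subset_union_right
  refine ⟨fun j hj c hc hz => ?_, fun c hc hz => ?_, fun e he hb => ?_⟩
  · obtain ⟨c1, a1, c2, a2, z1, z2, h⟩ := split hU hV h₃ (hj.trans (Nat.le_succ m)) hc hz
    convert (h.add ((h₂.low j hj c2 a2 z2).mono m2 subset_rfl)).add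
      ((h₁.low j hj c1 a1 z1).mono m1 subset_rfl) using 1
    abel
  · obtain ⟨c1, a1, c2, a2, z1, z2, h⟩ := split hU hV h₃ le_rfl hc hz
    obtain ⟨e1, b1, r1⟩ := h₁.top c1 a1 z1
    obtain ⟨e2, b2, r2⟩ := h₂.top c2 a2 z2
    refine ⟨e1 + e2, add_mem (jj_mono Set.subset_union_left b1) (jj_mono Set.subset_union_right b2),
      ?_⟩
    convert (h.add (r1.mono m1 subset_rfl)).add (r2.mono m2 subset_rfl) using 1
    rw [Prod.fst_add]
    abel
  · obtain ⟨e1, b1, e2, b2, rfl⟩ := Submodule.mem_sup.1 (jj_union he)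
    obtain ⟨a, ha, hb⟩ := hb
    rw [NB_union] at ha
    rw [Prod.fst_add] at hb
    obtain ⟨h, -, h1⟩ := small_chainR (isOpen_NB hU) (isOpen_NB hV) _ a ha (by
      have := sub_mem (add_mem (Submodule.mem_sup_left (jj_mem b1).1)
        (Submodule.mem_sup_right (jj_mem b2).1))
        (Submodule.mem_sup_left (supp_mono (offDiag_subset_NB U) _ hb))
      rwa [sub_sub_cancel] at this)
    obtain ⟨a1, ha1, a2, ha2, h2⟩ := Submodule.mem_sup.1 h1
    have e0 : bd ℤ (X × X) (m + 1) a = bd ℤ (X × X) (m + 1) a1 + bd ℤ (X × X) (m + 1) a2 := by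
      rw [← map_add, h2, map_sub, bd_bd, sub_zero]
    rw [e0] at hb
    obtain ⟨e3, b3, r3⟩ := h₃.top (e1.1 - bd ℤ (X × X) (m + 1) a1) (by
      rw [NB_inter, supp_inter]
      refine Submodule.mem_inf.2 ⟨sub_mem (jj_mem b1).1 (bd_mem_supp ha1), ?_⟩
      have := sub_mem (supp_mono (offDiag_subset_NB V) _ hb)
        (sub_mem (jj_mem b2).1 (bd_mem_supp ha2))
      convert this using 1
      abel) ((jj_mem b1).2.sub (rz_bd a1))
    have o1 := h₁.odd (e1 - e3) (sub_mem b1 (jj_mono Set.inter_subset_left b3)) (by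
      convert (r3.mono (NB_mono Set.inter_subset_left) subset_rfl).add (rb_bd ha1) using 1
      rw [Prod.fst_sub]
      abel)
    have o2 := h₂.odd (e2 + e3) (add_mem b2 (jj_mono Set.inter_subset_right b3)) (by
      convert ((rb_of_mem hb).add (rb_bd ha2)).sub
        (r3.mono (NB_mono Set.inter_subset_right) subset_rfl) using 1
      rw [Prod.fst_add]
      abel)
    rw [Prod.snd_sub] at o1
    rw [Prod.snd_add] at o2 ⊢
    linarith

theorem tp_directed {ι : Type} [Nonempty ι] {f : ι → Set X} (ho : ∀ t, IsOpen (f t))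
    (hd : Directed (· ⊆ ·) f) (h : ∀ t, TP m od (f t)) : TP m od (⋃ t, f t) := by
  have ho' : ∀ t, IsOpen (NB (f t)) := fun t => isOpen_NB (ho t)
  have hd' : Directed (· ⊆ ·) fun t => NB (f t) := fun s t =>
    let ⟨u, h1, h2⟩ := hd s t
    ⟨u, NB_mono h1, NB_mono h2⟩
  have hm : ∀ t, NB (f t) ⊆ NB (⋃ t, f t) := fun t => NB_mono (Set.subset_iUnion f t)
  refine ⟨fun j hj c hc hz => ?_, fun c hc hz => ?_, fun e he hb => ?_⟩
  · obtain ⟨t, ht⟩ := exists_supp_of_directed ho' hd' (NB_iUnion f ▸ hc)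
    exact ((h t).low j hj c ht hz).mono (hm t) subset_rfl
  · obtain ⟨t, ht⟩ := exists_supp_of_directed ho' hd' (NB_iUnion f ▸ hc)
    obtain ⟨e, he, hb⟩ := (h t).top c ht hz
    exact ⟨e, jj_mono (Set.subset_iUnion f t) he, hb.mono (hm t) subset_rfl⟩
  · obtain ⟨a, ha, hb⟩ := hb
    obtain ⟨t, ht⟩ := exists_supp_of_directed ho' hd' (NB_iUnion f ▸ ha)
    obtain ⟨s, hs⟩ := jj_directed hd he
    obtain ⟨u, htu, hsu⟩ := hd t s
    exact (h u).odd e (jj_mono hsu hs) ⟨a, supp_mono (NB_mono htu) _ ht, hb⟩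

section Basis

variable {ℬ : Set (Set X)} (ho : ∀ U ∈ ℬ, IsOpen U) (hi : ∀ U ∈ ℬ, ∀ V ∈ ℬ, U ∩ V ∈ ℬ)
  (hP : ∀ U ∈ ℬ, TP m od U)

include ho hi hP

theorem tp_biUnion {ι : Type} (s : Finset ι) :
    ∀ f : ι → Set X, (∀ i, f i ∈ ℬ) → TP m od (⋃ i ∈ s, f i) := by
  classical
  induction s using Finset.induction_on with
  | empty => intro f _; simpa using tp_empty
  | insert a s _ ih =>
    intro f hf
    rw [Finset.set_biUnion_insert]
    refine tp_union (ho _ (hf a)) (isOpen_biUnion fun i _ => ho _ (hf i)) (hP _ (hf a))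
      (ih f hf) ?_
    rw [Set.inter_iUnion₂]
    exact ih (fun i => f a ∩ f i) fun i => hi _ (hf a) _ (hf i)

theorem tp_of_basis {W : Set X} (hW : ∀ x ∈ W, ∃ U ∈ ℬ, x ∈ U ∧ U ⊆ W) : TP m od W := by
  classical
  have e : W = ⋃ s : Finset {U // U ∈ ℬ ∧ U ⊆ W}, ⋃ i ∈ s, i.1 := by
    refine Set.Subset.antisymm (fun x hx => ?_) ?_
    · obtain ⟨U, hU, hxU, hUW⟩ := hW x hx
      exact Set.mem_iUnion.2 ⟨{⟨U, hU, hUW⟩}, by simpa using hxU⟩
    · exact Set.iUnion_subset fun s => Set.iUnion₂_subset fun i _ => i.2.2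
  rw [e]
  refine tp_directed (fun s => isOpen_biUnion fun i _ => ho _ i.2.1) (fun s t => ⟨s ∪ t, ?_, ?_⟩)
    fun s => tp_biUnion ho hi hP s _ fun i => i.2.1
  · exact Set.biUnion_subset_biUnion_left (by simp)
  · exact Set.biUnion_subset_biUnion_left (by simp)

end Basis

theorem tp_univ (hX : Charts X m) (h : ∀ i : C(Eu m, X), IsOpenEmbedding i → ∀ O : Set (Eu m),
    IsOpen O → Convex ℝ O → TP m od (i '' O)) : TP m od Set.univ := by
  refine tp_of_basis (ℬ := {W | IsOpen W ∧ ∃ i : C(Eu m, X), IsOpenEmbedding i ∧ W ⊆ Set.range i})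
    (fun _ hU => hU.1) (fun U hU V hV => ⟨hU.1.inter hV.1, hU.2.imp fun i hi =>
      ⟨hi.1, Set.inter_subset_left.trans hi.2⟩⟩) ?_ fun x _ => ?_
  · rintro W ⟨hW, i, hi, hWi⟩
    refine tp_of_basis (ℬ := {U | ∃ O, IsOpen O ∧ Convex ℝ O ∧ U = i '' O}) ?_ ?_ ?_
      fun x hx => ?_
    · rintro _ ⟨O, h1, -, rfl⟩
      exact hi.isOpenMap O h1
    · rintro _ ⟨O, h1, h2, rfl⟩ _ ⟨O', h3, h4, rfl⟩
      exact ⟨O ∩ O', h1.inter h3, h2.inter h4, (Set.image_inter hi.injective).symm⟩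
    · rintro _ ⟨O, h1, h2, rfl⟩
      exact h i hi O h1 h2
    · obtain ⟨y, rfl⟩ := hWi hx
      obtain ⟨ε, hε, h1⟩ := Metric.isOpen_iff.1 (hW.preimage i.continuous) y hx
      exact ⟨_, ⟨_, Metric.isOpen_ball, convex_ball y ε, rfl⟩,
        ⟨y, Metric.mem_ball_self hε, rfl⟩, Set.image_subset_iff.2 h1⟩
  · obtain ⟨i, hi, hx⟩ := hX x
    exact ⟨_, ⟨hi.isOpen_range, i, hi, subset_rfl⟩, hx, Set.subset_univ _⟩

omit [T2Space X] in
theorem jj_mv {G : Type} [Group G] [MulAction G X] [ContinuousConstSMul G X] {w : G →* ℤˣ}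
    (hw : OrCh m w od) (g : G) {e : Ch (X × X) (m + 1) × ℤ} (h : e ∈ JJ m od Set.univ) :
    (push ℤ (mv X g g) (m + 1) e.1, (w g : ℤ) * e.2) ∈ JJ m od Set.univ := by
  induction h using Submodule.span_induction with
  | mem e he =>
    obtain ⟨x, -, c, hc, rfl⟩ := he
    let f : C(X, X) := ⟨(g • ·), continuous_const_smul g⟩
    have e1 : c.mapDomain (g • ·) = push ℤ f (m + 1) c := rfl
    refine Submodule.subset_span ⟨g • x, trivial, c.mapDomain (g • ·), ?_, ?_⟩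
    · rw [e1]
      exact hc.push f fun y hy e => hy (MulAction.injective g e)
    · rw [hw g x c hc, e1, push_push, push_push]
      rfl
  | zero =>
    rw [Prod.fst_zero, Prod.snd_zero, map_zero, mul_zero]
    exact zero_mem _
  | add a b _ _ ha hb =>
    convert add_mem ha hb using 1
    simp [mul_add]
  | smul r a _ ha =>
    convert Submodule.smul_mem _ r ha using 1
    simp [mul_left_comm]

end ThomBootL

open ThomBootL in
theorem thomBoot_stmt : ThomBootStmt := by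
  intro G X _ _ _ _ _ m od w hX hw h
  classical
  have hT := tp_univ hX h
  have e0 : NB (Set.univ : Set X) = Set.univ := Set.eq_univ_of_forall fun _ _ => trivial
  obtain ⟨low, top, odd⟩ := hT
  rw [e0] at low top odd
  let T : Ch (X × X) (m + 1) → ℤ := fun c =>
    if h : ∃ e ∈ JJ m od Set.univ, RB Set.univ (offDiag X) (m + 1) (c - e.1) then h.choose.2 else 0
  have spec : ∀ c, ∀ e ∈ JJ m od Set.univ, RB Set.univ (offDiag X) (m + 1) (c - e.1) →
      T c = e.2 := fun c e he hb => by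
    have h1 : ∃ e ∈ JJ m od Set.univ, RB Set.univ (offDiag X) (m + 1) (c - e.1) := ⟨e, he, hb⟩
    have h2 := odd (h1.choose - e) (sub_mem h1.choose_spec.1 he) (by
      convert hb.sub h1.choose_spec.2 using 1
      rw [Prod.fst_sub]
      abel)
    rw [Prod.snd_sub, sub_eq_zero] at h2
    exact (dif_pos h1).trans h2
  refine ⟨T, fun j hj c hc => low j hj c (mem_supp_univ c) hc, fun c c' hc hc' => ?_,
    fun c hc => spec c 0 (zero_mem _) (by simpa using hc), fun x c hc => ?_, fun g c hc => ?_⟩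
  · obtain ⟨e, he, hb⟩ := top c (mem_supp_univ c) hc
    obtain ⟨e', he', hb'⟩ := top c' (mem_supp_univ c') hc'
    rw [spec c e he hb, spec c' e' he' hb', spec (c + c') (e + e') (add_mem he he') (by
      convert hb.add hb' using 1
      rw [Prod.fst_add]
      abel), Prod.snd_add]
  · exact spec _ (push ℤ (sl x) (m + 1) c, od x c) (Submodule.subset_span ⟨x, trivial, c, hc, rfl⟩)
      (by simpa using rb_zero)
  · obtain ⟨e, he, hb⟩ := top c (mem_supp_univ c) hc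
    rw [spec c e he hb]
    refine spec _ _ (jj_mv hw g he) ?_
    rw [← map_sub]
    exact hb.push (mv X g g) (Set.mapsTo_univ _ _) fun y hy e => hy (MulAction.injective g e)

end Pool.Agent.MP_4f4d9f_gt.Hy

end

section

/-! A relative cycle that bounds locally at all points of a compact set bounds. -/

namespace Pool.Agent.MP_4f4d9f_gt.Hy

open Filter Topology

namespace QlemL

/-- The local to global property in all degrees above `m`. -/
def PP {Y : Type} [TopologicalSpace Y] (m : ℕ) (K : Set Y) : Prop :=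
  ∀ j, m ≤ j → ∀ c : Ch Y (j + 1), RZ Kᶜ (j + 1) c → (∀ x ∈ K, RB Set.univ {x}ᶜ (j + 1) c) →
    RB Set.univ Kᶜ (j + 1) c

theorem van (h1 : HemiStmt) (m j : ℕ) (hj : j ≠ m + 1) (x : Eu m) (c : Ch (Eu m) j)
    (h : RZ {x}ᶜ j c) : RB Set.univ {x}ᶜ j c := by
  have e : {v | v ∈ Set.univ ∧ ContinuousLinearMap.id ℝ (Eu m) v ≠ x} = {x}ᶜ := by
    ext v
    simp
  have := (h1 (Eu m) m Set.univ (ContinuousLinearMap.id ℝ _) x isOpen_univ convex_univ
    Function.surjective_id ⟨x, trivial, rfl⟩).van j hj c (mem_supp_univ c)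
  rw [e] at this
  exact this h

theorem pp_union {Y : Type} [TopologicalSpace Y] {m : ℕ}
    (hv : ∀ j ≠ m + 1, ∀ (x : Y) (c : Ch Y j), RZ {x}ᶜ j c → RB Set.univ {x}ᶜ j c)
    {K K' : Set Y} (hK : IsClosed K) (hK' : IsClosed K') (h : PP m K) (h' : PP m K')
    (hi : PP m (K ∩ K')) : PP m (K ∪ K') := by
  intro j hj c hc hx
  obtain ⟨a, -, ha⟩ := h j hj c (hc.mono (Set.compl_subset_compl.2 Set.subset_union_left))
    fun x e => hx x (Or.inl e)
  obtain ⟨a', -, ha'⟩ := h' j hj c (hc.mono (Set.compl_subset_compl.2 Set.subset_union_right))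
    fun x e => hx x (Or.inr e)
  have e1 : bd ℤ Y (j + 1) (a - a') = (c - bd ℤ Y (j + 1) a') - (c - bd ℤ Y (j + 1) a) := by
    rw [map_sub]; abel
  have z : RZ (K ∩ K')ᶜ (j + 1 + 1) (a - a') := by
    rw [rz_succ, e1]
    exact sub_mem (supp_mono (Set.compl_subset_compl.2 Set.inter_subset_right) _ ha')
      (supp_mono (Set.compl_subset_compl.2 Set.inter_subset_left) _ ha)
  obtain ⟨b, -, hb⟩ := hi (j + 1) (by omega) (a - a') z fun x e => hv _ (by omega) x _
    (z.mono (Set.compl_subset_compl.2 (Set.singleton_subset_iff.2 e)))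
  rw [Set.compl_inter] at hb
  obtain ⟨d, -, hd⟩ := small_chainR hK.isOpen_compl hK'.isOpen_compl (j + 1) _ hb (by
    rw [map_sub, bd_bd, sub_zero, e1]
    exact sub_mem (Submodule.mem_sup_right ha') (Submodule.mem_sup_left ha))
  obtain ⟨v, hv1, w, hw, e2⟩ := Submodule.mem_sup.1 hd
  have e3 := congrArg (bd ℤ Y (j + 1)) e2
  rw [map_add, map_sub, map_sub, bd_bd, bd_bd, sub_zero, sub_zero, map_sub] at e3
  refine ⟨a - v, mem_supp_univ _, ?_⟩
  rw [Set.compl_union, supp_inter, map_sub, Submodule.mem_inf]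
  constructor
  · convert add_mem ha (bd_mem_supp hv1) using 1
    abel
  · convert sub_mem ha' (bd_mem_supp hw) using 1
    rw [eq_sub_of_add_eq e3]
    abel

theorem pp_convex (h2 : PrismStmt) {V : Type} [NormedAddCommGroup V] [NormedSpace ℝ V] (m : ℕ)
    {K : Set V} (hK : IsCompact K) (hc : Convex ℝ K) : PP m K := by
  intro j _ c z hx
  rcases K.eq_empty_or_nonempty with rfl | ⟨x, hxK⟩
  · rw [Set.compl_empty]
    exact rb_of_mem (mem_supp_univ c)
  obtain ⟨N, hN, h3⟩ := (hx x hxK).nhds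
  obtain ⟨ε, hε, h4⟩ := Metric.mem_nhds_iff.1 hN
  obtain ⟨R, hR, h5⟩ := hK.isBounded.subset_ball_lt 0 x
  let f : C(V, V) := ⟨fun v => x + (1 + R / ε) • (v - x), by fun_prop⟩
  let H : (ContinuousMap.id V).Homotopy f :=
    { toFun := fun q => x + (1 + (q.1 : ℝ) * (R / ε)) • (q.2 - x)
      continuous_toFun := by fun_prop
      map_zero_left := fun v => by simp
      map_one_left := fun v => by simp [f] }
  have h6 := h2 V V _ f H Set.univ Kᶜ Set.univ Kᶜ (fun _ _ _ => trivial) (fun t v hv e => by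
    have p : 0 ≤ (t : ℝ) * (R / ε) := mul_nonneg t.2.1 (by positivity)
    have e' : x + (1 + (t : ℝ) * (R / ε)) • (v - x) ∈ K := e
    have := hc.add_smul_sub_mem hxK e' (t := (1 + (t : ℝ) * (R / ε))⁻¹)
      ⟨by positivity, inv_le_one_of_one_le₀ (by linarith)⟩
    rw [add_sub_cancel_left, inv_smul_smul₀ (by positivity), add_sub_cancel] at this
    exact hv this) (j + 1) c (mem_supp_univ c) z
  have h7 := h3.push f (Set.mapsTo_univ _ _) (D' := Kᶜ) fun v hv e => by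
    have e1 : dist (x + (1 + R / ε) • (v - x)) x < R := h5 e
    have e2 : ε ≤ ‖v - x‖ := by
      rw [← dist_eq_norm]
      exact not_lt.1 fun e3 => hv (h4 e3)
    rw [dist_eq_norm, add_sub_cancel_left, norm_smul, Real.norm_of_nonneg (by positivity)] at e1
    have e3 := mul_le_mul_of_nonneg_left e2 (show 0 ≤ 1 + R / ε by positivity)
    rw [add_mul, div_mul_cancel₀ _ hε.ne'] at e3
    linarith
  have h8 := h7.sub h6
  rwa [push_id, sub_sub_cancel] at h8

theorem pp_finite (h1 : HemiStmt) (h2 : PrismStmt) (m : ℕ) {ι : Type} (s : Finset ι)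
    (F : ι → Set (Eu m)) (hF : ∀ i, IsCompact (F i) ∧ Convex ℝ (F i)) : PP m (⋃ i ∈ s, F i) := by
  classical
  induction s using Finset.induction_on generalizing F with
  | empty => simpa using pp_convex h2 m isCompact_empty convex_empty
  | insert a s _ ih =>
    rw [Finset.set_biUnion_insert]
    refine pp_union (van h1 m) (hF a).1.isClosed
      (s.isCompact_biUnion fun i _ => (hF i).1).isClosed (pp_convex h2 m (hF a).1 (hF a).2)
      (ih F hF) ?_
    rw [Set.inter_iUnion₂]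
    exact ih _ fun i => ⟨(hF a).1.inter (hF i).1, (hF a).2.inter (hF i).2⟩

end QlemL

open QlemL in
theorem q_stmt (h1 : HemiStmt) (h2 : PrismStmt) : QStmt := by
  intro m K hK c _ hx
  have h3 : ∀ x : K, ∃ r : ℝ, 0 < r ∧ RB Set.univ (Metric.closedBall x.1 r)ᶜ (m + 1) c := by
    intro x
    obtain ⟨N, hN, h3⟩ := (hx x x.2).nhds
    obtain ⟨r, hr, h4⟩ := Metric.nhds_basis_closedBall.mem_iff.1 hN
    exact ⟨r, hr, h3.mono le_rfl (Set.compl_subset_compl.2 h4)⟩
  choose r hr h4 using h3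
  obtain ⟨s, hs⟩ := hK.elim_nhds_subcover' (fun x hx => Metric.closedBall x (r ⟨x, hx⟩))
    fun x hx => Metric.closedBall_mem_nhds x (hr ⟨x, hx⟩)
  refine (pp_finite h1 h2 m s (fun x => Metric.closedBall x.1 (r x))
    (fun x => ⟨isCompact_closedBall _ _, convex_closedBall _ _⟩) m le_rfl c ?_ ?_).mono le_rfl
    (Set.compl_subset_compl.2 hs)
  · refine mem_supp.2 fun σ hσ t e => ?_
    obtain ⟨x, -, e⟩ := Set.mem_iUnion₂.1 e
    exact mem_supp.1 (rz_succ.1 (h4 x).rz) σ hσ t e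
  · intro y e
    obtain ⟨x, -, e⟩ := Set.mem_iUnion₂.1 e
    exact (h4 x).mono le_rfl (Set.compl_subset_compl.2 (Set.singleton_subset_iff.2 e))

end Pool.Agent.MP_4f4d9f_gt.Hy

end

section

/-! Interface, part U: reduction to sigma-compact manifolds without boundary. -/

namespace Pool.Agent.MP_4f4d9f_gt.Nc

open Hy Topology

/-- The points with a Euclidean neighbourhood. -/
def EuPt (X : Type) [TopologicalSpace X] (m : ℕ) : Set X :=
  {y | ∃ i : C(Eu m, X), IsOpenEmbedding i ∧ y ∈ Set.range i}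

/-- Job `Sub`. -/
def SubStmt : Prop :=
  ∀ (H X : Type) [Group H] [Countable H] [TopologicalSpace X] [WeaklyLocallyCompactSpace X]
    [ContractibleSpace X] [MulAction H X] [ContinuousConstSMul H X],
    ∃ Y : Set X, IsOpen Y ∧ (∀ (g : H), ∀ y ∈ Y, g • y ∈ Y) ∧ IsSigmaCompact Y ∧
      ContractibleSpace Y

/-- Job `Push`. -/
def PushStmt : Prop :=
  ∀ (m : ℕ) (C : Set (Eu m)), Convex ℝ C → (interior C).Nonempty →
    ∀ (X : Type) [TopologicalSpace X] [T2Space X] [LocallyCompactSpace X] [SigmaCompactSpace X]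
      [ContractibleSpace X], (∀ x : X, ∃ e : OpenPartialHomeomorph X C, x ∈ e.source) →
      ContractibleSpace (EuPt X m)

end Pool.Agent.MP_4f4d9f_gt.Nc

end

section

/-! Job `Sub`: an open invariant sigma-compact contractible subset. -/

namespace Pool.Agent.MP_4f4d9f_gt.Nc

open Finsupp Sg Sg.Tup Hy Filter Topology

namespace SubL

variable {H X : Type} [Group H] [TopologicalSpace X] [MulAction H X]

/-- One step of the exhaustion. -/
theorem step [WeaklyLocallyCompactSpace X] [ContinuousConstSMul H X]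
    (F : C(unitInterval × X, X)) (h : ℕ → H) (j : ℕ) (K : Set X) (hK : IsCompact K) :
    ∃ L : Set X, IsCompact L ∧ K ⊆ interior L ∧ (∀ t, ∀ y ∈ K, F (t, y) ∈ L) ∧
      ∀ l ≤ j, ∀ y ∈ K, h l • y ∈ L := by
  have h1 : IsCompact (F '' (Set.univ ×ˢ K)) := (isCompact_univ.prod hK).image F.continuous
  have h2 : IsCompact (⋃ l ∈ Set.Iic j, (fun y => h l • y) '' K) :=
    (Set.finite_Iic j).isCompact_biUnion fun l _ => hK.image (continuous_const_smul (h l))
  obtain ⟨L, hL, hsub⟩ := exists_compact_superset ((hK.union h1).union h2)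
  refine ⟨L, hL, fun y hy => hsub (Or.inl (Or.inl hy)), fun t y hy => ?_, fun l hl y hy => ?_⟩
  · exact interior_subset (hsub (Or.inl (Or.inr ⟨(t, y), ⟨Set.mem_univ _, hy⟩, rfl⟩)))
  · exact interior_subset (hsub (Or.inr (Set.mem_biUnion (x := l) hl ⟨y, hy, rfl⟩)))

/-- The exhaustion. -/
theorem chain [WeaklyLocallyCompactSpace X] [ContinuousConstSMul H X]
    (F : C(unitInterval × X, X)) (h : ℕ → H) (x0 : X) :
    ∃ K : ℕ → Set X, x0 ∈ K 0 ∧ (∀ j, IsCompact (K j)) ∧ (∀ j, K j ⊆ interior (K (j + 1))) ∧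
      (∀ j t, ∀ y ∈ K j, F (t, y) ∈ K (j + 1)) ∧
      ∀ j, ∀ l ≤ j, ∀ y ∈ K j, h l • y ∈ K (j + 1) := by
  choose S hS1 hS2 hS3 hS4 using step F h
  let K : ℕ → {K : Set X // IsCompact K} := fun n =>
    Nat.rec ⟨{x0}, isCompact_singleton⟩ (fun j p => ⟨S j p.1 p.2, hS1 j p.1 p.2⟩) n
  refine ⟨fun j => (K j).1, rfl, fun j => (K j).2, fun j => hS2 j _ (K j).2,
    fun j => hS3 j _ (K j).2, fun j => hS4 j _ (K j).2⟩

end SubL

theorem sub_stmt : SubStmt := by
  intro H X _ _ _ _ _ _ _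
  obtain ⟨x0, ⟨F⟩⟩ := id_nullhomotopic X
  obtain ⟨h, hh⟩ := exists_surjective_nat H
  obtain ⟨K, h0, hc, hi, hF, hs⟩ := SubL.chain F.toContinuousMap h x0
  have hmono : Monotone K :=
    monotone_nat_of_le_succ fun j => (hi j).trans interior_subset
  have hx0 : x0 ∈ ⋃ j, K j := Set.mem_iUnion.2 ⟨0, h0⟩
  have hFY : ∀ t, ∀ y ∈ ⋃ j, K j, F (t, y) ∈ ⋃ j, K j := by
    intro t y hy
    obtain ⟨j, hj⟩ := Set.mem_iUnion.1 hy
    exact Set.mem_iUnion.2 ⟨j + 1, hF j t y hj⟩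
  refine ⟨⋃ j, K j, ?_, ?_, isSigmaCompact_iUnion_of_isCompact K hc, ?_⟩
  · rw [isOpen_iff_mem_nhds]
    intro y hy
    obtain ⟨j, hj⟩ := Set.mem_iUnion.1 hy
    exact Filter.mem_of_superset (mem_interior_iff_mem_nhds.1 (hi j hj))
      (Set.subset_iUnion K (j + 1))
  · intro g y hy
    obtain ⟨j, hj⟩ := Set.mem_iUnion.1 hy
    obtain ⟨l, rfl⟩ := hh g
    exact Set.mem_iUnion.2 ⟨max j l + 1,
      hs (max j l) l (le_max_right _ _) y (hmono (le_max_left _ _) hj)⟩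
  · rw [contractible_iff_id_nullhomotopic]
    refine ⟨⟨x0, hx0⟩, ⟨⟨⟨fun p => ⟨F (p.1, p.2.1), hFY p.1 p.2.1 p.2.2⟩, ?_⟩, ?_, ?_⟩⟩⟩
    · exact Continuous.subtype_mk
        (F.continuous.comp (continuous_fst.prodMk (continuous_subtype_val.comp continuous_snd))) _
    · intro y
      exact Subtype.ext (F.apply_zero y.1)
    · intro y
      exact Subtype.ext (F.apply_one y.1)

end Pool.Agent.MP_4f4d9f_gt.Nc

end

section

/-! Pushing a manifold with convex charts into the set of its Euclidean points. -/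

namespace Pool.Agent.MP_4f4d9f_gt.Nc

open Finsupp Sg Hy Filter Topology

namespace PushL

variable {m : ℕ} {C : Set (Eu m)} {X : Type} [TopologicalSpace X]

theorem mem_euPt (e : OpenPartialHomeomorph X C) {z : C} (hz : z.1 ∈ interior C)
    (ht : z ∈ e.target) : e.symm z ∈ EuPt X m := by
  obtain ⟨r₁, h₁, b₁⟩ := Metric.isOpen_iff.1 e.open_target z ht
  obtain ⟨r₂, h₂, b₂⟩ := Metric.isOpen_iff.1 isOpen_interior z.1 hz
  have hr : 0 < min r₁ r₂ := lt_min h₁ h₂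
  have he : IsOpenEmbedding (OpenPartialHomeomorph.univBall z.1 (min r₁ r₂) : Eu m → Eu m) :=
    OpenPartialHomeomorph.isOpenEmbedding _ (OpenPartialHomeomorph.univBall_source _ _)
  have hb : ∀ v : Eu m,
      OpenPartialHomeomorph.univBall z.1 (min r₁ r₂) v ∈ Metric.ball z.1 (min r₁ r₂) := fun v => by
    rw [← OpenPartialHomeomorph.univBall_target z.1 hr]
    exact OpenPartialHomeomorph.map_source _ (by simp)
  have hC : ∀ v : Eu m, OpenPartialHomeomorph.univBall z.1 (min r₁ r₂) v ∈ C := fun v =>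
    interior_subset (b₂ (Metric.ball_subset_ball (min_le_right _ _) (hb v)))
  let j : Eu m → C := fun v => ⟨_, hC v⟩
  have jt : ∀ v, j v ∈ e.target := fun v =>
    b₁ (Metric.ball_subset_ball (min_le_left _ _) (hb v) :)
  have jc : Continuous j := he.continuous.subtype_mk hC
  have jo : IsOpenMap j := he.isOpenMap.subtype_mk hC
  have c : Continuous fun v => e.symm (j v) := e.continuousOn_symm.comp_continuous jc jt
  refine ⟨⟨_, c⟩, .of_continuous_injective_isOpenMap c (fun v w h => ?_) fun W hW => ?_, 0, ?_⟩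
  · exact he.injective (congrArg Subtype.val (e.symm.injOn (jt v) (jt w) h))
  · have := e.isOpen_image_symm_of_subset_target (jo W hW) (by
      rintro _ ⟨v, -, rfl⟩
      exact jt v)
    rwa [Set.image_image] at this
  · exact congrArg e.symm (Subtype.ext (OpenPartialHomeomorph.univBall_apply_zero _ _))

/-- A push that is defined on an open set. -/
def Loc (E U : Set X) (g : unitInterval × X → X) : Prop :=
  ContinuousOn g (Prod.snd ⁻¹' U) ∧ (∀ y ∈ U, g (0, y) = y) ∧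
    ∀ t, t ≠ 0 → ∀ y ∈ U, g (t, y) ∈ E

theorem exists_loc (hC : Convex ℝ C) (hi : (interior C).Nonempty) (e : OpenPartialHomeomorph X C)
    {x : X} (hx : x ∈ e.source) : ∃ U g, IsOpen U ∧ x ∈ U ∧ Loc (EuPt X m) U g := by
  obtain ⟨r, hr, hb⟩ := Metric.isOpen_iff.1 e.open_target (e x) (e.map_source hx)
  have h1 : (e x).1 ∈ closure (interior C) := by
    rw [hC.closure_interior_eq_closure_of_nonempty_interior hi]
    exact subset_closure (e x).2
  obtain ⟨c, hc, hcr⟩ := Metric.mem_closure_iff.1 h1 r hr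
  have hm : ∀ p : unitInterval × C, (p.1 : ℝ) • c + (1 - (p.1 : ℝ)) • p.2.1 ∈ C := fun p =>
    hC (interior_subset hc) p.2.2 p.1.2.1 (sub_nonneg.2 p.1.2.2) (add_sub_cancel _ _)
  let q : unitInterval × C → C := fun p => ⟨_, hm p⟩
  have qc : Continuous q := Continuous.subtype_mk (by fun_prop) hm
  have qt : ∀ (t : unitInterval), ∀ z ∈ Metric.ball (e x) r, q (t, z) ∈ e.target := fun t z hz =>
    hb (convex_ball (e x).1 r (Metric.mem_ball'.2 hcr) hz t.2.1 (sub_nonneg.2 t.2.2)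
      (add_sub_cancel _ _) :)
  refine ⟨e.source ∩ e ⁻¹' Metric.ball (e x) r, fun p => e.symm (q (p.1, e p.2)),
    e.isOpen_inter_preimage Metric.isOpen_ball, ⟨hx, Metric.mem_ball_self hr⟩, ?_,
    fun y hy => ?_, fun t ht y hy => mem_euPt e ?_ (qt t _ hy.2)⟩
  · exact e.continuousOn_symm.comp (qc.comp_continuousOn (continuousOn_fst.prodMk
      (e.continuousOn.comp continuousOn_snd fun p hp => hp.1))) fun p hp => qt _ _ hp.2
  · have : q (0, e y) = e y := Subtype.ext (by simp [q])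
    simp only [this, e.left_inv hy.1]
  · exact hC.combo_interior_self_mem_interior hc (e y).2 (unitInterval.pos_iff_ne_zero.2 ht)
      (sub_nonneg.2 t.2.2) (add_sub_cancel _ _)

/-- A push that is cut off by a function. -/
def Cut (E : Set X) (φ : X → ℝ) (ρ : unitInterval × X → X) : Prop :=
  Continuous ρ ∧ (∀ y, ρ (0, y) = y) ∧ (∀ t, ∀ y ∈ E, ρ (t, y) ∈ E) ∧
    (∀ t, t ≠ 0 → ∀ y, φ y ≠ 0 → ρ (t, y) ∈ E) ∧ ∀ t y, φ y = 0 → ρ (t, y) = y

theorem exists_cut {E U : Set X} {g : unitInterval × X → X} (hU : IsOpen U) (hg : Loc E U g)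
    (φ : C(X, ℝ)) (h0 : ∀ y, 0 ≤ φ y) (h1 : ∀ y, φ y ≤ 1) (hs : tsupport φ ⊆ U) :
    ∃ ρ, Cut E φ ρ := by
  classical
  let ψ : X → unitInterval := fun y => ⟨φ y, h0 y, h1 y⟩
  have ψc : Continuous ψ := φ.continuous.subtype_mk _
  have ψ0 : ∀ y, ψ y = 0 ↔ φ y = 0 := fun y => Subtype.ext_iff
  let ρ : unitInterval × X → X := fun p => if p.2 ∈ U then g (p.1 * ψ p.2, p.2) else p.2
  have a : ∀ t y, t * ψ y = 0 → ρ (t, y) = y := fun t y h => by
    simp only [ρ, h]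
    split_ifs with hy
    · exact hg.2.1 y hy
    · rfl
  have b : ∀ t y, t * ψ y ≠ 0 → ρ (t, y) ∈ E := fun t y h => by
    have hy : y ∈ U := hs (subset_tsupport _ fun e => h (by rw [(ψ0 y).2 e, mul_zero]))
    simp only [ρ, if_pos hy]
    exact hg.2.2 _ h y hy
  have d : ∀ t y, φ y = 0 → ρ (t, y) = y := fun t y h => a t y (by rw [(ψ0 y).2 h, mul_zero])
  refine ⟨ρ, continuous_iff_continuousAt.2 fun p => ?_, fun y => a 0 y (zero_mul _),
    fun t y hy => ?_, fun t ht y hy => b t y fun h => ?_, d⟩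
  · by_cases hp : p.2 ∈ U
    · have n : Prod.snd ⁻¹' U ∈ 𝓝 p := (hU.preimage continuous_snd).mem_nhds hp
      have c : Continuous fun p : unitInterval × X => (p.1 * ψ p.2, p.2) :=
        Continuous.prodMk (Continuous.subtype_mk (by fun_prop) _) continuous_snd
      have c' : ContinuousOn (fun p : unitInterval × X => g (p.1 * ψ p.2, p.2))
          (Prod.snd ⁻¹' U) := hg.1.comp c.continuousOn fun _ h => h
      exact (c'.congr fun q hq => if_pos hq).continuousAt n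
    · have n : Prod.snd ⁻¹' (tsupport φ)ᶜ ∈ 𝓝 p :=
        ((isClosed_tsupport φ).isOpen_compl.preimage continuous_snd).mem_nhds fun h => hp (hs h)
      refine continuousAt_snd.congr (eventually_of_mem n fun q hq => ?_)
      exact (d q.1 q.2 (image_eq_zero_of_notMem_tsupport hq)).symm
  · by_cases h : t * ψ y = 0
    · rwa [a t y h]
    · exact b t y h
  · have h' : (t : ℝ) * φ y = 0 := congrArg Subtype.val h
    exact (mul_eq_zero.1 h').elim (fun e => ht (Subtype.ext e)) hy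

/-- The composition of the first pushes. -/
def comp (ρ : ℕ → unitInterval × X → X) : ℕ → unitInterval × X → X
  | 0, p => p.2
  | N + 1, p => comp ρ N (p.1, ρ N p)

theorem exists_push {E : Set X} {φ : ℕ → X → ℝ} {ρ : ℕ → unitInterval × X → X}
    (h : ∀ j, Cut E (φ j) (ρ j)) (hl : LocallyFinite fun j => Function.support (φ j))
    (hc : ∀ y, ∃ j, φ j y ≠ 0) : ∃ r : C(unitInterval × X, X), (∀ y, r (0, y) = y) ∧
      (∀ t, ∀ y ∈ E, r (t, y) ∈ E) ∧ ∀ y, r (1, y) ∈ E := by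
  have c : ∀ N, Continuous (comp ρ N) := fun N => by
    induction N with
    | zero => exact continuous_snd
    | succ N ih => exact ih.comp (continuous_fst.prodMk (h N).1)
  have a : ∀ N y, comp ρ N (0, y) = y := fun N => by
    induction N with
    | zero => exact fun _ => rfl
    | succ N ih => exact fun y => (ih _).trans ((h N).2.1 y)
  have b : ∀ N t, ∀ y ∈ E, comp ρ N (t, y) ∈ E := fun N => by
    induction N with
    | zero => exact fun _ _ hy => hy
    | succ N ih => exact fun t y hy => ih t _ ((h N).2.2.1 t y hy)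
  have d : ∀ N j y, j < N → φ j y ≠ 0 → comp ρ N (1, y) ∈ E := fun N => by
    induction N with
    | zero => exact fun _ _ hj => absurd hj (Nat.not_lt_zero _)
    | succ N ih =>
      intro j y hj hy
      by_cases e : φ N y = 0
      · have : j ≠ N := fun e' => hy (e' ▸ e)
        rw [comp, (h N).2.2.2.2 1 y e]
        exact ih j y (by omega) hy
      · exact b N 1 _ ((h N).2.2.2.1 1 one_ne_zero y e)
  have l : LocallyFinite fun N => {p | comp ρ (N + 1) p ≠ comp ρ N p} :=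
    (hl.preimage_continuous (continuous_snd (X := unitInterval))).subset fun N p hp e => hp (by
      rw [comp, (h N).2.2.2.2 p.1 p.2 e])
  obtain ⟨F, hF⟩ := l.exists_forall_eventually_atTop_eventuallyEq
  refine ⟨⟨F, continuous_iff_continuousAt.2 fun p => ?_⟩, fun y => ?_, fun t y hy => ?_,
    fun y => ?_⟩
  · obtain ⟨N, hN⟩ := (hF p).exists
    exact (c N).continuousAt.congr hN
  · obtain ⟨N, hN⟩ := (hF (0, y)).exists
    exact hN.eq_of_nhds.symm.trans (a N y)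
  · obtain ⟨N, hN⟩ := (hF (t, y)).exists
    exact Set.mem_of_eq_of_mem hN.eq_of_nhds.symm (b N t y hy)
  · obtain ⟨j, hj⟩ := hc y
    obtain ⟨N, hN, hN'⟩ := ((hF (1, y)).and (eventually_gt_atTop j)).exists
    exact Set.mem_of_eq_of_mem hN.eq_of_nhds.symm (d N j y hN' hj)

theorem contractible [ContractibleSpace X] {E : Set X} (r : C(unitInterval × X, X))
    (h0 : ∀ y, r (0, y) = y) (h1 : ∀ t, ∀ y ∈ E, r (t, y) ∈ E) (h2 : ∀ y, r (1, y) ∈ E) :
    ContractibleSpace E := by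
  let a : C(X, E) := ⟨fun y => ⟨r (1, y), h2 y⟩, Continuous.subtype_mk (by fun_prop) _⟩
  let b : C(E, X) := ⟨Subtype.val, continuous_subtype_val⟩
  obtain ⟨y, hy⟩ := ((id_nullhomotopic X).comp_left b).comp_right a
  refine (contractible_iff_id_nullhomotopic E).2 ⟨y, ContinuousMap.Homotopic.trans ⟨?_⟩ hy⟩
  exact
    { toFun := fun p => ⟨r (p.1, p.2.1), h1 _ _ p.2.2⟩
      continuous_toFun := Continuous.subtype_mk (by fun_prop) _
      map_zero_left := fun z => Subtype.ext (h0 z.1)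
      map_one_left := fun z => rfl }

end PushL

theorem push_stmt : PushStmt := by
  intro m C hC hi X _ _ _ _ _ he
  choose e he using he
  choose U g hU hx hg using fun x => PushL.exists_loc hC hi (e x) (he x)
  obtain ⟨s, hs, hsU⟩ := countable_cover_nhds_of_sigmaCompact fun x => (hU x).mem_nhds (hx x)
  have hne : s.Nonempty := by
    obtain ⟨x, hx, -⟩ := Set.mem_iUnion₂.1 (hsU ▸ Set.mem_univ (Classical.arbitrary X))
    exact ⟨x, hx⟩
  obtain ⟨a, rfl⟩ := hs.exists_eq_range hne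
  rw [Set.biUnion_range] at hsU
  obtain ⟨f, hf⟩ := BumpCovering.exists_isSubordinate isClosed_univ (fun j => U (a j))
    (fun j => hU _) hsU.ge
  choose ρ hρ using fun j => PushL.exists_cut (hU (a j)) (hg (a j)) (f j) (f.nonneg j)
    (f.le_one j) (hf j)
  obtain ⟨r, h0, h1, h2⟩ := PushL.exists_push hρ f.locallyFinite fun y =>
    ⟨f.ind y (Set.mem_univ y), by rw [f.ind_apply]; exact one_ne_zero⟩
  exact PushL.contractible r h0 h1 h2

end Pool.Agent.MP_4f4d9f_gt.Nc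

end

section

/-! Reduction of the Thom data modulo two. -/

namespace Pool.Agent.MP_4f4d9f_gt.Hy

open Finsupp Sg Sg.Tup

namespace RedL

variable {G : Type}

theorem unit_cast (u : ℤˣ) : ((u : ℤ) : F2) = 1 := by
  rcases Int.units_eq_one_or u with rfl | rfl
  · simp
  · decide

theorem lc_red (f : Tup G → ℤ) (u : Tup G →₀ ℤ) :
    linearCombination F2 (fun x => (f x : F2)) (Bar.red u) = (linearCombination ℤ f u : ℤ) := by
  induction u using Finsupp.induction_linear with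
  | zero => simp
  | add x y hx hy => simp only [map_add, hx, hy, Int.cast_add]
  | single x r => simp [Bar.red_single]

theorem red_apply (u : Tup G →₀ ℤ) (x : Tup G) : Bar.red u x = (u x : F2) := by
  classical
  induction u using Finsupp.induction_linear with
  | zero => simp
  | add a b ha hb => simp only [map_add, Finsupp.add_apply, ha, hb, Int.cast_add]
  | single y r =>
    rw [Bar.red_single, single_apply, single_apply]
    split_ifs <;> simp

theorem red_rel [Group G] (w : G →* ℤˣ) {c : Tup G →₀ ℤ} (hc : c ∈ Rel w (Tup G)) :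
    Bar.red c ∈ Rel (1 : G →* F2ˣ) (Tup G) := by
  induction hc using Submodule.span_induction with
  | mem _ h =>
    obtain ⟨g, b, rfl⟩ := h
    refine Submodule.subset_span ⟨g, b, ?_⟩
    rw [map_sub, Bar.red_single, Bar.red_single, unit_cast, Int.cast_one]
    rfl
  | zero => simp
  | add x y _ _ hx hy =>
    rw [map_add]
    exact add_mem hx hy
  | smul r x _ hx =>
    rw [map_smul]
    exact zsmul_mem hx r

end RedL

open RedL in
theorem red_stmt : RedStmt := by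
  intro G _ n w θ ν h hν
  have hne : ∀ a : ℤ, (a : F2) ≠ 0 → a ≠ 0 := fun a ha e => ha (by simp [e])
  refine ⟨fun c => (θ c : F2), Bar.red ν, ⟨fun g x y => ?_, fun x y => ?_, fun c hc => ?_, ?_⟩,
    fun y hy => ?_, ?_, ?_⟩
  · rw [h.inv, Int.cast_mul, unit_cast]
    rfl
  · exact (h.fin x y).subset fun g hg => hne _ hg
  · exact h.deg c (hne _ hc)
  · rintro ⟨x, y⟩
    have e : ∀ z : Tup G, bdT F2 (single z 1) = Bar.red (bdT ℤ (single z 1)) := fun z => by
      rw [Bar.red_bdT, Bar.red_single, Int.cast_one]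
    have := congrArg (Int.cast : ℤ → F2) (h.coc (x, y))
    rw [lc_cbR] at this
    rw [lc_cbR, e, e, lc_red fun a => θ (a, y), lc_red fun b => θ (x, b)]
    simpa using this
  · rw [mem_support_iff, red_apply] at hy
    exact hν.deg y (mem_support_iff.2 (hne _ hy))
  · rw [← Bar.red_bdT]
    exact red_rel w hν.cyc
  · have := congrArg (Int.cast : ℤ → F2) hν.one
    rw [av, ← lc_red, Int.cast_one] at this
    rw [← this, av]
    congr 2
    funext b
    refine Eq.trans ?_ ((Int.castAddHom F2).map_finsum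
      (f := fun g : G => ((w g)⁻¹ : ℤˣ) • θ (pt 1, g • b))
      ((h.fin (pt 1) b).subset fun g hg e => hg (by simp only [e, smul_zero]))).symm
    refine finsum_congr fun g => ?_
    simp [Units.smul_def, unit_cast]

end Pool.Agent.MP_4f4d9f_gt.Hy

end
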