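import Pool.Agent.Mg.F4f4d9fr.Gf4fb5f

set_option linter.all false

/-! The tensor square of the bar complex over a commutative ring, twisted averages and the
duality data. -/

namespace Pool.Agent.MP_4f4d9f_gt.Hy

open Finsupp Sg Sg.Tup

section Cell

variable (R : Type) [CommRing R] {G : Type}

/-- The sign operator. -/
noncomputable def sg : (Tup G →₀ R) →ₗ[R] (Tup G →₀ R) :=
  linearCombination R fun x => single x ((-1) ^ x.deg)

/-- The product of two chains. -/
noncomputable def prR : (Tup G →₀ R) →ₗ[R] (Tup G →₀ R) →ₗ[R] (Cell G →₀ R) :=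
  linearCombination R fun a => lmapDomain R R fun b => (a, b)

/-- The boundary of the tensor square. -/
noncomputable def cbR : (Cell G →₀ R) →ₗ[R] (Cell G →₀ R) :=
  linearCombination R fun c => prR R (bdT R (single c.1 1)) (single c.2 1) +
    prR R (sg R (single c.1 1)) (bdT R (single c.2 1))

variable {R}

theorem ind1 {B : Type} {P : (B →₀ R) → Prop} (h0 : P 0) (hadd : ∀ x y, P x → P y → P (x + y))
    (hs : ∀ (r : R) x, P x → P (r • x)) (h1 : ∀ b, P (single b 1)) (c : B →₀ R) : P c := by
  induction c using Finsupp.induction_linear with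
  | zero => exact h0
  | add x y hx hy => exact hadd x y hx hy
  | single x r => simpa using hs r _ (h1 x)

theorem sg_single (x : Tup G) (r : R) : sg R (single x r) = single x ((-1) ^ x.deg * r) := by
  simp [sg, mul_comm]

theorem sg_apply (c : Tup G →₀ R) (x : Tup G) : sg R c x = (-1) ^ x.deg * c x := by
  classical
  induction c using Finsupp.induction_linear with
  | zero => simp
  | add a b ha hb => simp only [map_add, Finsupp.add_apply, ha, hb, mul_add]
  | single y r =>
    rw [sg_single, single_apply, single_apply]
    split_ifs with h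
    · rw [h]
    · simp

theorem sg_bdT (c : Tup G →₀ R) : sg R (bdT R c) = -bdT R (sg R c) := by
  induction c using Finsupp.induction_linear with
  | zero => simp
  | add a b ha hb => simp only [map_add, ha, hb, neg_add]
  | single y r =>
    ext x
    rw [sg_apply, sg_single, ← smul_eq_mul ((-1) ^ y.deg), ← smul_single, map_smul]
    by_cases h : x ∈ (bdT R (single y r)).support
    · rw [← deg_of_mem_bdT h]
      simp [pow_succ]
    · simp [notMem_support_iff.1 h]

theorem sg_cn (a : G) (c : Tup G →₀ R) : sg R (cn R a c) = -cn R a (sg R c) := by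
  induction c using Finsupp.induction_linear with
  | zero => simp
  | add a b ha hb => simp only [map_add, ha, hb, neg_add]
  | single y r =>
    simp only [cn_single, sg_single, deg_cons, pow_succ, mul_neg_one, neg_mul, single_neg]

theorem eps_sg (c : Tup G →₀ R) : eps R (sg R c) = eps R c := by
  induction c using Finsupp.induction_linear with
  | zero => simp
  | add a b ha hb => simp only [map_add, ha, hb]
  | single y r =>
    rw [sg_single, eps_single, eps_single]
    split_ifs with h
    · simp [h]
    · rfl

theorem prR_single (a b : Tup G) (r s : R) :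
    prR R (single a r) (single b s) = single (a, b) (r * s) := by
  simp [prR]

theorem prR_apply (x y : Tup G →₀ R) (c : Cell G) : prR R x y c = x c.1 * y c.2 := by
  classical
  induction x using Finsupp.induction_linear with
  | zero => simp
  | add a b ha hb => simp only [map_add, LinearMap.add_apply, Finsupp.add_apply, ha, hb, add_mul]
  | single a r =>
    induction y using Finsupp.induction_linear with
    | zero => simp
    | add a b ha hb => simp only [map_add, Finsupp.add_apply, ha, hb, mul_add]
    | single b s =>
      simp only [prR_single, single_apply, Prod.ext_iff]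
      split_ifs <;> simp_all

theorem mem_support_prR {x y : Tup G →₀ R} {c : Cell G} (h : c ∈ (prR R x y).support) :
    c.1 ∈ x.support ∧ c.2 ∈ y.support := by
  rw [mem_support_iff, prR_apply] at h
  exact ⟨mem_support_iff.2 (left_ne_zero_of_mul h), mem_support_iff.2 (right_ne_zero_of_mul h)⟩

theorem cbR_single (c : Cell G) : cbR R (single c 1) =
    prR R (bdT R (single c.1 1)) (single c.2 1) +
      prR R (sg R (single c.1 1)) (bdT R (single c.2 1)) := by
  rw [cbR, linearCombination_single, one_smul]

theorem cbR_prR (x y : Tup G →₀ R) :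
    cbR R (prR R x y) = prR R (bdT R x) y + prR R (sg R x) (bdT R y) := by
  induction x using ind1 with
  | h0 => simp
  | hadd a b ha hb => simp only [map_add, LinearMap.add_apply, ha, hb]; abel
  | hs r a ha => simp only [map_smul, LinearMap.smul_apply, ha, smul_add]
  | h1 a =>
    induction y using ind1 with
    | h0 => simp
    | hadd a b ha hb => simp only [map_add, ha, hb]; abel
    | hs r a ha => simp only [map_smul, ha, smul_add]
    | h1 b => rw [prR_single, mul_one, cbR_single]

theorem cbR_cbR (c : Cell G →₀ R) : cbR R (cbR R c) = 0 := by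
  induction c using ind1 with
  | h0 => simp
  | hadd a b ha hb => simp only [map_add, ha, hb, add_zero]
  | hs r a ha => simp only [map_smul, ha, smul_zero]
  | h1 c => simp [cbR_single, cbR_prR, bdT_bdT, sg_bdT]

theorem cdeg_of_mem_cbR {c e : Cell G} (h : e ∈ (cbR R (single c 1)).support) :
    cdeg e + 1 = cdeg c := by
  classical
  rw [cbR_single] at h
  rcases Finset.mem_union.1 (support_add h) with h | h
  · obtain ⟨h1, h2⟩ := mem_support_prR h
    have := deg_of_mem_bdT h1
    rw [cdeg, cdeg, Finset.mem_singleton.1 (support_single_subset h2)]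
    omega
  · obtain ⟨h1, h2⟩ := mem_support_prR h
    have := deg_of_mem_bdT h2
    rw [sg_single] at h1
    rw [cdeg, cdeg, Finset.mem_singleton.1 (support_single_subset h1)]
    omega

theorem mapDomain_prR (f f' : Tup G → Tup G) (x y : Tup G →₀ R) :
    (prR R x y).mapDomain (Prod.map f f') = prR R (x.mapDomain f) (y.mapDomain f') := by
  induction x using Finsupp.induction_linear with
  | zero => simp
  | add a b ha hb => simp only [map_add, LinearMap.add_apply, mapDomain_add, ha, hb]
  | single a r =>
    induction y using Finsupp.induction_linear with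
    | zero => simp
    | add a b ha hb => simp only [map_add, mapDomain_add, ha, hb]
    | single b s => simp only [prR_single, mapDomain_single, Prod.map]

/-- Evaluation of a function of two variables on the boundary of a cell. -/
theorem lc_cbR {M : Type} [AddCommGroup M] [Module R M] (f : Cell G → M) (x y : Tup G) :
    linearCombination R f (cbR R (single (x, y) 1)) =
      linearCombination R (fun a => f (a, y)) (bdT R (single x 1)) +
        (-1 : R) ^ x.deg • linearCombination R (fun b => f (x, b)) (bdT R (single y 1)) := by
  have h1 : ∀ u : Tup G →₀ R, linearCombination R f (prR R u (single y 1)) =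
      linearCombination R (fun a => f (a, y)) u := fun u => by
    induction u using Finsupp.induction_linear with
    | zero => simp
    | add a b ha hb => simp only [map_add, LinearMap.add_apply, ha, hb]
    | single a r => simp [prR_single]
  have h2 : ∀ u : Tup G →₀ R, linearCombination R f (prR R (single x ((-1) ^ x.deg * 1)) u) =
      (-1 : R) ^ x.deg • linearCombination R (fun b => f (x, b)) u := fun u => by
    induction u using Finsupp.induction_linear with
    | zero => simp
    | add a b ha hb => simp only [map_add, ha, hb, smul_add]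
    | single a r => simp only [prR_single, linearCombination_single, mul_smul, one_smul]
  rw [cbR_single, map_add, h1, sg_single, h2]

variable [Group G]

theorem sg_smul (g : G) (c : Tup G →₀ R) :
    sg R (c.mapDomain (g • ·)) = (sg R c).mapDomain (g • ·) := by
  induction c using Finsupp.induction_linear with
  | zero => simp
  | add x y hx hy => simp [hx, hy, mapDomain_add]
  | single x r => simp only [sg_single, mapDomain_single, deg_smul]

theorem cbR_smul2 (g h : G) (c : Cell G →₀ R) :
    cbR R (c.mapDomain (Prod.map (g • ·) (h • ·))) =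
      (cbR R c).mapDomain (Prod.map (g • ·) (h • ·)) := by
  induction c using ind1 with
  | h0 => simp
  | hadd x y hx hy => simp [hx, hy, mapDomain_add]
  | hs r x hx => simp only [mapDomain_smul, map_smul, hx]
  | h1 c =>
    rw [mapDomain_single, cbR_single, cbR_single, mapDomain_add, mapDomain_prR, mapDomain_prR,
      ← bdT_smul, ← bdT_smul, ← sg_smul]
    simp only [mapDomain_single, Prod.map]

theorem cbR_smul (g : G) (c : Cell G →₀ R) :
    cbR R (c.mapDomain (g • ·)) = (cbR R c).mapDomain (g • ·) := cbR_smul2 g g c

end Cell

/-! ### Twisted averages -/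

section Av

variable {R : Type} [CommRing R] {G : Type} [Group G] (w : G →* Rˣ) {B B' M M' : Type}
  [MulAction G B] [MulAction G B'] [AddCommGroup M] [Module R M] [AddCommGroup M'] [Module R M']

variable (B) in
/-- The relations `g b = w(g) b`. -/
noncomputable def Rel : Submodule R (B →₀ R) :=
  Submodule.span R {c | ∃ (g : G) (b : B), c = single (g • b) 1 - single b (w g : R)}

/-- The twisted sum of `f` over all translates of a chain. -/
noncomputable def av (f : B → M) : (B →₀ R) →ₗ[R] M :=
  linearCombination R fun b => ∑ᶠ g : G, ((w g)⁻¹ : Rˣ) • f (g • b)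

theorem av_single (f : B → M) (b : B) :
    av w f (single b 1) = ∑ᶠ g : G, ((w g)⁻¹ : Rˣ) • f (g • b) := by
  rw [av, linearCombination_single, one_smul]

theorem av_smul (f : B → M) (h : G) (b : B) :
    av w f (single (h • b) 1) = (w h : R) • av w f (single b 1) := by
  rw [av_single, av_single, ← Units.smul_def]
  have := (DistribMulAction.toAddEquiv M (w h)).map_finsum
    fun g : G => ((w g)⁻¹ : Rˣ) • f (g • b)
  simp only [DistribMulAction.toAddEquiv_apply] at this
  rw [this, ← finsum_comp_equiv (Equiv.mulRight h)
    (f := fun g : G => w h • ((w g)⁻¹ : Rˣ) • f (g • b))]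
  refine finsum_congr fun g => ?_
  simp [smul_smul, mul_comm]

theorem av_rel (f : B → M) {c : B →₀ R} (hc : c ∈ Rel w B) : av w f c = 0 := by
  have : Rel w B ≤ LinearMap.ker (av w f) := by
    refine Submodule.span_le.2 ?_
    rintro _ ⟨g, b, rfl⟩
    change av w f _ = 0
    rw [map_sub, av_smul, ← smul_single_one b (w g : R), map_smul, sub_self]
  exact this hc

theorem av_congr {f f' : B → M} {c : B →₀ R} (h : ∀ b ∈ c.support, ∀ g : G, f (g • b) = f' (g • b)) :
    av w f c = av w f' c := by
  simp only [av, linearCombination_apply, Finsupp.sum]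
  exact Finset.sum_congr rfl fun b hb => by simp only [h b hb]

theorem map_av (L : M →ₗ[R] M') {f : B → M} {c : B →₀ R}
    (h : ∀ b ∈ c.support, {g : G | f (g • b) ≠ 0}.Finite) :
    L (av w f c) = av w (fun b => L (f b)) c := by
  simp only [av, linearCombination_apply, Finsupp.sum, map_sum, map_smul]
  refine Finset.sum_congr rfl fun b hb => ?_
  rw [map_finsum L ((h b hb).subset fun g hg e => hg (by simp only [e, smul_zero]))]
  simp only [Units.smul_def, map_smul]

theorem av_add {f f' : B → M} {c : B →₀ R}
    (h : ∀ b ∈ c.support, {g : G | f (g • b) ≠ 0}.Finite)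
    (h' : ∀ b ∈ c.support, {g : G | f' (g • b) ≠ 0}.Finite) :
    av w (fun b => f b + f' b) c = av w f c + av w f' c := by
  simp only [av, linearCombination_apply, Finsupp.sum, ← Finset.sum_add_distrib, ← smul_add]
  refine Finset.sum_congr rfl fun b hb => ?_
  rw [← finsum_add_distrib ((h b hb).subset fun g hg e => hg (by simp only [e, smul_zero]))
    ((h' b hb).subset fun g hg e => hg (by simp only [e, smul_zero]))]
  simp only [smul_add]

/-- The average as a finite sum. -/
theorem av_eq_sum {f : B → M} {c : B →₀ R} {F : Finset G}
    (h : ∀ b ∈ c.support, ∀ g : G, f (g • b) ≠ 0 → g ∈ F) :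
    av w f c = ∑ g ∈ F, ((w g)⁻¹ : Rˣ) • linearCombination R f (c.mapDomain (g • ·)) := by
  simp only [linearCombination_mapDomain]
  simp only [av, linearCombination_apply, Finsupp.sum, Finset.smul_sum]
  rw [Finset.sum_comm]
  refine Finset.sum_congr rfl fun b hb => ?_
  rw [finsum_eq_sum_of_support_subset (s := F) _ fun g hg =>
    h b hb g fun e => hg (by simp only [e, smul_zero]), Finset.smul_sum]
  exact Finset.sum_congr rfl fun g _ => smul_comm _ _ _

theorem av_comp (D : (B →₀ R) →ₗ[R] (B' →₀ R))
    (hD : ∀ (g : G) c, D (c.mapDomain (g • ·)) = (D c).mapDomain (g • ·)) {f : B' → M}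
    (h : ∀ b : B', {g : G | f (g • b) ≠ 0}.Finite) (c : B →₀ R) :
    av w f (D c) = av w (fun b => linearCombination R f (D (single b 1))) c := by
  induction c using ind1 with
  | h0 => simp
  | hadd x y hx hy => simp only [map_add, hx, hy]
  | hs r x hx => simp only [map_smul, hx]
  | h1 b =>
    have hF : (⋃ b' ∈ (D (single b 1)).support, {g : G | f (g • b') ≠ 0}).Finite :=
      (Finset.finite_toSet _).biUnion fun b' _ => h b'
    have e : ∀ b' ∈ (D (single b 1)).support, ∀ g : G, f (g • b') ≠ 0 → g ∈ hF.toFinset :=
      fun b' hb g hg => hF.mem_toFinset.2 (Set.mem_biUnion hb hg)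
    have e2 : ∀ g : G, D (single (g • b) 1) = (D (single b 1)).mapDomain (g • ·) := fun g => by
      rw [← hD, mapDomain_single]
    rw [av_eq_sum w e, av_single, finsum_eq_sum_of_support_subset (s := hF.toFinset)]
    · simp only [e2]
    · intro g hg
      by_contra hne
      refine hg ?_
      simp only [e2, linearCombination_mapDomain]
      rw [linearCombination_apply, Finsupp.sum, Finset.sum_eq_zero, smul_zero]
      intro b' hb
      have : f (g • b') = 0 := by
        by_contra e3
        exact hne (e b' hb g e3)
      simp [this]

theorem map_rel (D : (B →₀ R) →ₗ[R] (B' →₀ R))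
    (hD : ∀ (g : G) c, D (c.mapDomain (g • ·)) = (D c).mapDomain (g • ·)) {c : B →₀ R}
    (hc : c ∈ Rel w B) : D c ∈ Rel w B' := by
  have h1 : ∀ (g : G) (u : B' →₀ R), u.mapDomain (g • ·) - (w g : R) • u ∈ Rel w B' := by
    intro g u
    induction u using ind1 with
    | h0 => simp
    | hadd x y hx hy =>
      convert add_mem hx hy using 1
      rw [mapDomain_add, smul_add]
      abel
    | hs r x hx =>
      convert Submodule.smul_mem _ r hx using 1
      rw [mapDomain_smul, smul_sub, smul_comm]
    | h1 b => exact Submodule.subset_span ⟨g, b, by simp⟩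
  have : Rel w B ≤ (Rel w B').comap D := by
    refine Submodule.span_le.2 ?_
    rintro _ ⟨g, b, rfl⟩
    change D _ ∈ Rel w B'
    rw [map_sub, ← mapDomain_single (f := (g • ·)), hD, ← smul_single_one b (w g : R), map_smul]
    exact h1 g _
  exact this hc

end Av

/-! ### The duality data -/

section Dual

variable (R : Type) [CommRing R] {G : Type} [Group G]

/-- A properly supported Thom cocycle of the diagonal. -/
structure ThomR (n : ℕ) (w : G →* Rˣ) (θ : Cell G → R) : Prop where
  inv : ∀ (g : G) (x y : Tup G), θ (g • x, g • y) = (w g : R) * θ (x, y)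
  fin : ∀ x y : Tup G, {g : G | θ (x, g • y) ≠ 0}.Finite
  deg : ∀ c, θ c ≠ 0 → cdeg c = n
  coc : ∀ c, linearCombination R θ (cbR R (single c 1)) = 0

/-- Poincare duality at the level of the bar complex. -/
structure Dual (n : ℕ) (w : G →* Rˣ) (θ : Cell G → R) (ω : Cell G →₀ R)
    (H : Tup G → (Tup G →₀ R)) : Prop extends ThomR R n w θ where
  ωdeg : ∀ c ∈ ω.support, cdeg c = n
  ωcyc : cbR R ω ∈ Rel w (Cell G)
  Hdeg : ∀ x, ∀ y ∈ (H x).support, y.deg = x.deg + 1
  Heqv : ∀ (g : G) x, H (g • x) = (H x).mapDomain (g • ·)
  key : ∀ x, av w (fun c : Cell G => single c.1 ((-1) ^ c.1.deg * θ (x, c.2))) ω =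
    single x 1 + bdT R (H x) + linearCombination R H (bdT R (single x 1))

end Dual

end Pool.Agent.MP_4f4d9f_gt.Hy
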