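import Pool.Agent.MP_4f4d9f_gt.Base
import Pool.Agent.Mg.F4f4d9fr.G1afe66
import Pool.Agent.Mg.F4f4d9fr.Gb94000
import Pool.Agent.Mg.F4f4d9fr.G30dcc0

set_option linter.all false

section

namespace Pool.Agent.MP_4f4d9f_gt.Hy

/-- A bounded combing of linear length: discrete paths `σ y` from a base point `p` to `y`, with
bounded steps and length linear in `dist p y`, such that paths to nearby points fellow travel. -/
def Combing (Y : Type) [PseudoMetricSpace Y] : Prop :=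
  ∃ (p : Y) (K : ℝ) (σ : Y → ℕ → Y), (∀ y, σ y 0 = p) ∧
    (∀ y (i : ℕ), K * (dist p y + 1) ≤ i → σ y i = y) ∧
    (∀ y i, dist (σ y i) (σ y (i + 1)) ≤ K) ∧
    ∀ y y' i, dist (σ y i) (σ y' i) ≤ K * (dist y y' + 1)

/-- `G` acts by isometries, properly and coboundedly, on a space with a combing. -/
def Combable (G : Type) [Group G] : Prop :=
  ∃ (Y : Type) (_ : PseudoMetricSpace Y) (_ : MulAction G Y),
    (∀ (g : G) (y y' : Y), dist (g • y) (g • y') = dist y y') ∧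
    (∀ (y : Y) (r : ℝ), {g : G | dist y (g • y) ≤ r}.Finite) ∧
    (∃ (y : Y) (r : ℝ), ∀ y', ∃ g : G, dist y' (g • y) ≤ r) ∧ Combing Y

end Pool.Agent.MP_4f4d9f_gt.Hy

end

section

/-! Interface, part D: filling inequalities for chains and cochains on tuples. -/

namespace Pool.Agent.MP_4f4d9f_gt.Hy

open Finsupp Sg Sg.Tup

variable {G : Type}

/-- The vertices of a tuple. -/
def verts (x : Tup G) : List G := x.hd :: x.tl

theorem hd_mem (x : Tup G) : x.hd ∈ verts x := List.mem_cons_self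

theorem verts_cons (a : G) (x : Tup G) : verts (cons a x) = a :: verts x := rfl

theorem verts_pt (a : G) : verts (pt a) = [a] := rfl

/-- The vertices of a face are vertices. -/
theorem verts_of_mem_bdT {R : Type} [CommRing R] {x y : Tup G} {r : R}
    (h : y ∈ (bdT R (single x r)).support) : verts y ⊆ verts x := by
  classical
  induction x using Tup.induction generalizing y with
  | h0 a => simp [bdT_pt] at h
  | h1 a x ih =>
    rw [bdT_cons] at h
    rcases Finset.mem_union.1 (support_sub h) with h | h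
    · rcases Finset.mem_union.1 (support_sub h) with h | h
      · rw [Finset.mem_singleton.1 (support_single_subset h)]
        exact List.subset_cons_self _ _
      · obtain ⟨z, hz, rfl⟩ := Finset.mem_image.1 (mapDomain_support h)
        exact List.cons_subset_cons _ (ih hz)
    · rw [Finset.mem_singleton.1 (support_single_subset (support_smul h))]
      exact List.cons_subset_cons _ (List.nil_subset _)

/-- Chains mod 2. -/
abbrev T2 (G : Type) : Type := Tup G →₀ F2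

/-- The boundary of a tuple. -/
noncomputable def dd (x : Tup G) : T2 G := bdT F2 (single x 1)

/-- The edge with the given ends. -/
def edg (a b : G) : Tup G := cons a (pt b)

/-- The triangle with the given vertices. -/
def trg (a b c : G) : Tup G := cons a (edg b c)

theorem dd_edg (a b : G) : dd (edg a b) = single (pt b) 1 + single (pt a) 1 := by
  simp [dd, edg, bdT_cons, bdT_pt, eps_single, sub_eq_add2]

theorem dd_trg (a b c : G) :
    dd (trg a b c) = single (edg b c) 1 + single (edg a c) 1 + single (edg a b) 1 := by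
  rw [dd, trg, bdT_cons, ← dd, dd_edg]
  simp [edg, eps_single, cn_single, sub_eq_add2, add_assoc]

theorem eq_edg {x : Tup G} (h : x.deg = 1) : ∃ a b, x = edg a b := by
  obtain ⟨a, l⟩ := x
  obtain ⟨b, rfl⟩ := List.length_eq_one_iff.1 h
  exact ⟨a, b, rfl⟩

theorem eq_trg {x : Tup G} (h : x.deg = 2) : ∃ a b c, x = trg a b c := by
  obtain ⟨a, l⟩ := x
  obtain ⟨b, c, rfl⟩ := List.length_eq_two.1 h
  exact ⟨a, b, c, rfl⟩

variable [Group G]

theorem verts_smul (g : G) (x : Tup G) : verts (g • x) = (verts x).map (g * ·) := rfl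

/-- A geodesic length function with finite balls. -/
structure Len (ℓ : G → ℕ) : Prop where
  zero : ∀ g, ℓ g = 0 ↔ g = 1
  inv : ∀ g, ℓ g⁻¹ = ℓ g
  mul : ∀ g h, ℓ (g * h) ≤ ℓ g + ℓ h
  fin : ∀ r, {g | ℓ g ≤ r}.Finite
  geo : ∀ g m, ℓ g = m + 1 → ∃ s, ℓ s = 1 ∧ ℓ (g * s) = m

/-- A combing of the group. -/
structure Cmb (ℓ : G → ℕ) (K : ℕ) (σ : G → ℕ → G) : Prop where
  zero : ∀ g, σ g 0 = 1
  last : ∀ g i, K * (ℓ g + 1) ≤ i → σ g i = g
  step : ∀ g i, ℓ ((σ g i)⁻¹ * σ g (i + 1)) ≤ K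
  near : ∀ g h i, ℓ ((σ g i)⁻¹ * σ h i) ≤ K * (ℓ (g⁻¹ * h) + 1)

variable {ℓ : G → ℕ}

theorem Len.tri (h : Len ℓ) (a b c : G) : ℓ (a⁻¹ * c) ≤ ℓ (a⁻¹ * b) + ℓ (b⁻¹ * c) := by
  simpa [mul_assoc] using h.mul (a⁻¹ * b) (b⁻¹ * c)

theorem Len.symm (h : Len ℓ) (a b : G) : ℓ (a⁻¹ * b) = ℓ (b⁻¹ * a) := by
  rw [← h.inv]; simp

theorem Len.self (h : Len ℓ) (a : G) : ℓ (a⁻¹ * a) = 0 := (h.zero _).2 (inv_mul_cancel a)

/-- The ball as a finite set. -/
noncomputable def Len.ball (h : Len ℓ) (r : ℕ) : Finset G := (h.fin r).toFinset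

theorem Len.mem_ball (h : Len ℓ) {r : ℕ} {g : G} : g ∈ h.ball r ↔ ℓ g ≤ r :=
  (h.fin r).mem_toFinset

theorem Len.gen (h : Len ℓ) {s : ℕ} (hs : 1 ≤ s) : Gen (h.ball s) where
  one := h.mem_ball.2 (by rw [(h.zero 1).2 rfl]; omega)
  inv g hg := h.mem_ball.2 (by rw [h.inv]; exact h.mem_ball.1 hg)
  gen := by
    have : ∀ m g, ℓ g = m → g ∈ Subgroup.closure (h.ball s : Set G) := by
      intro m
      induction m with
      | zero => exact fun g hg => (h.zero g).1 hg ▸ one_mem _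
      | succ m ih =>
        intro g hg
        obtain ⟨t, h1, h2⟩ := h.geo g m hg
        exact (mul_mem_cancel_right (Subgroup.subset_closure
          (Finset.mem_coe.2 (h.mem_ball.2 (by omega))))).1 (ih _ h2)
    exact eq_top_iff.2 fun g _ => this _ g rfl

variable (ℓ) in
/-- Tuples of degree `j` and diameter at most `r`. -/
def Sc (j r : ℕ) (x : Tup G) : Prop :=
  x.deg = j ∧ ∀ a ∈ verts x, ∀ b ∈ verts x, ℓ (a⁻¹ * b) ≤ r

theorem Sc.mono {j r r' : ℕ} {x : Tup G} (h : Sc ℓ j r x) (e : r ≤ r') : Sc ℓ j r' x :=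
  ⟨h.1, fun a ha b hb => (h.2 a ha b hb).trans e⟩

theorem sc_smul {j r : ℕ} {x : Tup G} (g : G) : Sc ℓ j r (g • x) ↔ Sc ℓ j r x := by
  simp [Sc, verts_smul, mul_assoc]

theorem Sc.face {R : Type} [CommRing R] {j r : ℕ} {x y : Tup G} {a : R} (h : Sc ℓ (j + 1) r x)
    (hy : y ∈ (bdT R (single x a)).support) : Sc ℓ j r y ∧ ℓ (x.hd⁻¹ * y.hd) ≤ r :=
  ⟨⟨by have := deg_of_mem_bdT hy; have := h.1; omega,
    fun a ha b hb => h.2 a (verts_of_mem_bdT hy ha) b (verts_of_mem_bdT hy hb)⟩,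
    h.2 _ (hd_mem x) _ (verts_of_mem_bdT hy (hd_mem y))⟩

theorem sc_edg (h : Len ℓ) {r : ℕ} {a b : G} : Sc ℓ 1 r (edg a b) ↔ ℓ (a⁻¹ * b) ≤ r := by
  simp [Sc, edg, verts_cons, verts_pt, (h.zero 1).2 rfl, h.symm b a]

theorem sc_trg (h : Len ℓ) {r : ℕ} {a b c : G} :
    Sc ℓ 2 r (trg a b c) ↔ ℓ (a⁻¹ * b) ≤ r ∧ ℓ (a⁻¹ * c) ≤ r ∧ ℓ (b⁻¹ * c) ≤ r := by
  simp only [Sc, trg, edg, verts_cons, verts_pt, deg_cons, deg_pt, List.mem_cons,
    List.not_mem_nil, or_false, forall_eq_or_imp, forall_eq, h.self, h.symm b a, h.symm c a,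
    h.symm c b, zero_le, true_and, and_true]
  tauto

theorem exists_sc (x : Tup G) : ∃ r, Sc ℓ x.deg r x := by
  classical
  refine ⟨((verts x).toFinset ×ˢ (verts x).toFinset).sup fun e => ℓ (e.1⁻¹ * e.2), rfl,
    fun a ha b hb => ?_⟩
  exact Finset.le_sup (f := fun e : G × G => ℓ (e.1⁻¹ * e.2)) (b := (a, b))
    (Finset.mem_product.2 ⟨List.mem_toFinset.2 ha, List.mem_toFinset.2 hb⟩)

/-- A finite set of tuples has bounded diameter and lies in a ball. -/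
theorem exists_bound (Z : Finset (Tup G)) (y : G) :
    ∃ r, ∀ x ∈ Z, Sc ℓ x.deg r x ∧ ℓ (y⁻¹ * x.hd) ≤ r := by
  choose f hf using fun x : Tup G => exists_sc (ℓ := ℓ) x
  refine ⟨Z.sup fun x => max (f x) (ℓ (y⁻¹ * x.hd)), fun x hx => ?_⟩
  have := Finset.le_sup (f := fun x => max (f x) (ℓ (y⁻¹ * x.hd))) hx
  exact ⟨(hf x).mono (le_trans (le_max_left _ _) this), le_trans (le_max_right _ _) this⟩

theorem Len.finite_sc (h : Len ℓ) (j r ρ : ℕ) : {x : Tup G | Sc ℓ j r x ∧ ℓ x.hd ≤ ρ}.Finite := by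
  have : Finite (h.ball (ρ + r)) := inferInstance
  refine (((h.fin ρ).prod (List.finite_length_eq (h.ball (ρ + r)) j)).image
    fun e => (⟨e.1, e.2.map Subtype.val⟩ : Tup G)).subset ?_
  rintro ⟨a, l⟩ ⟨⟨h1, h2⟩, h3⟩
  have h4 : ∀ b ∈ l, b ∈ h.ball (ρ + r) := fun b hb => h.mem_ball.2 (by
    have h5 := h2 a List.mem_cons_self b (List.mem_cons_of_mem _ hb)
    have h6 := h.mul a (a⁻¹ * b)
    rw [mul_inv_cancel_left] at h6
    exact h6.trans (add_le_add h3 h5))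
  exact ⟨(a, l.attachWith _ h4), ⟨h3, by simpa [Tup.deg] using h1⟩, by simp⟩

/-- Uniformly many tuples of bounded diameter near a point. -/
theorem Len.count (h : Len ℓ) (j r ρ : ℕ) : ∃ C, ∀ a : G, ∃ Z : Finset (Tup G), Z.card ≤ C ∧
    ∀ x, x ∈ Z ↔ Sc ℓ j r x ∧ ℓ (a⁻¹ * x.hd) ≤ ρ := by
  classical
  refine ⟨(h.finite_sc j r ρ).toFinset.card, fun a =>
    ⟨(h.finite_sc j r ρ).toFinset.image (a • ·), Finset.card_image_le, fun x => ?_⟩⟩
  simp only [Finset.mem_image, Set.Finite.mem_toFinset, Set.mem_ofPred_eq]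
  constructor
  · rintro ⟨y, ⟨h1, h2⟩, rfl⟩
    exact ⟨(sc_smul a).2 h1, by simpa using h2⟩
  · rintro ⟨h1, h2⟩
    exact ⟨a⁻¹ • x, ⟨(sc_smul _).2 h1, h2⟩, smul_inv_smul _ _⟩

/-- An equivariant map on tuples. -/
def EqvT (f : Tup G → T2 G) : Prop := ∀ (g : G) x, f (g • x) = (f x).mapDomain (g • ·)

theorem eqvT_dd : EqvT (dd (G := G)) := fun g x => by
  rw [dd, dd, ← bdT_smul, mapDomain_single]

theorem EqvT.lc {f : Tup G → T2 G} (hf : EqvT f) (g : G) (c : T2 G) :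
    linearCombination F2 f (c.mapDomain (g • ·)) =
      (linearCombination F2 f c).mapDomain (g • ·) := by
  induction c using Finsupp.induction_linear with
  | zero => simp
  | add x y hx hy => simp only [mapDomain_add, map_add, hx, hy]
  | single x r => simp only [mapDomain_single, linearCombination_single, hf g x, mapDomain_smul]

theorem EqvT.comp {f f' : Tup G → T2 G} (hf : EqvT f) (hf' : EqvT f') :
    EqvT fun x => linearCombination F2 f (f' x) := fun g x => by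
  simp only [hf' g x, hf.lc]

/-- Equivariant maps have bounded size and propagation. -/
theorem EqvT.bound (h : Len ℓ) {f : Tup G → T2 G} (hf : EqvT f) (j r : ℕ) :
    ∃ C, ∀ x, Sc ℓ j r x → (f x).support.card ≤ C ∧
      ∀ y ∈ (f x).support, Sc ℓ y.deg C y ∧ ℓ (x.hd⁻¹ * y.hd) ≤ C := by
  classical
  let Z := ((h.finite_sc j r 0).toFinset.biUnion fun x => (f x).support)
  obtain ⟨r', hr'⟩ := exists_bound (ℓ := ℓ) Z 1
  refine ⟨max Z.card r', fun x hx => ?_⟩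
  have h1 : (f (x.hd⁻¹ • x)).support ⊆ Z := Finset.subset_biUnion_of_mem (fun x => (f x).support)
    ((h.finite_sc j r 0).mem_toFinset.2 ⟨(sc_smul _).2 hx, by simp [(h.zero 1).2 rfl]⟩)
  have h2 : f x = (f (x.hd⁻¹ • x)).mapDomain (x.hd • ·) := by rw [← hf, smul_inv_smul]
  rw [h2]
  refine ⟨(Finset.card_le_card mapDomain_support).trans (Finset.card_image_le.trans
    ((Finset.card_le_card h1).trans (le_max_left _ _))), fun y hy => ?_⟩
  obtain ⟨z, hz, rfl⟩ := Finset.mem_image.1 (mapDomain_support hy)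
  have := hr' z (h1 hz)
  refine ⟨(sc_smul _).2 (by rw [deg_smul]; exact this.1.mono (le_max_right _ _)), ?_⟩
  simpa using Or.inr (by simpa using this.2)

/-- The tuples whose image meets a given finite set. -/
theorem EqvT.pull (h : Len ℓ) {f : Tup G → T2 G} (hf : EqvT f) (j r : ℕ) :
    ∃ C, ∀ Z : Finset (Tup G), ∃ Z' : Finset (Tup G), Z'.card ≤ C * Z.card ∧
      (∀ x ∈ Z', Sc ℓ j r x ∧ ∃ y ∈ Z, ℓ (y.hd⁻¹ * x.hd) ≤ C) ∧
      ∀ x, Sc ℓ j r x → ∀ y ∈ Z, y ∈ (f x).support → x ∈ Z' := by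
  classical
  obtain ⟨C, hC⟩ := hf.bound h j r
  obtain ⟨C', hC'⟩ := h.count j r C
  choose W h1 h2 using hC'
  refine ⟨max C C', fun Z => ⟨Z.biUnion fun y => W y.hd, ?_, fun x hx => ?_, fun x hx y hy e => ?_⟩⟩
  · rw [mul_comm]
    exact Finset.card_biUnion_le_card_mul _ _ _ fun y _ => (h1 _).trans (le_max_right _ _)
  · obtain ⟨y, hy, e⟩ := Finset.mem_biUnion.1 hx
    exact ⟨((h2 _ _).1 e).1, y, hy, ((h2 _ _).1 e).2.trans (le_max_left _ _)⟩
  · exact Finset.mem_biUnion.2 ⟨y, hy, (h2 _ _).2 ⟨hx, h.symm _ _ ▸ ((hC x hx).2 y e).2⟩⟩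

omit [Group G] in
/-- A point in the support of an image comes from a point in the support. -/
theorem mem_support_lc {A B : Type} {f : A → (B →₀ F2)} {c : A →₀ F2} {y : B}
    (h : y ∈ (linearCombination F2 f c).support) : ∃ x ∈ c.support, y ∈ (f x).support := by
  classical
  rw [linearCombination_apply] at h
  obtain ⟨x, hx, e⟩ := Finset.mem_biUnion.1 (support_sum h)
  exact ⟨x, hx, support_smul e⟩

omit [Group G] in
theorem exists_of_lc_ne_zero {A : Type} {f : A → F2} {c : A →₀ F2}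
    (h : linearCombination F2 f c ≠ 0) : ∃ x ∈ c.support, f x ≠ 0 := by
  rw [linearCombination_apply] at h
  obtain ⟨x, hx, e⟩ := Finset.exists_ne_zero_of_sum_ne_zero h
  exact ⟨x, hx, right_ne_zero_of_smul e⟩

variable (ℓ)

/-- The cone inequality for cycles. -/
def Cone : Prop :=
  ∀ j r, ∃ R C, ∀ (z : T2 G) (y : G) (ρ : ℕ),
    (∀ x ∈ z.support, Sc ℓ (j + 1) r x ∧ ℓ (y⁻¹ * x.hd) ≤ ρ) → bdT F2 z = 0 →
    ∃ u : T2 G, bdT F2 u = z ∧ u.support.card ≤ C * (ρ + 1) * z.support.card ∧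
      ∀ x ∈ u.support, Sc ℓ (j + 2) R x ∧ ℓ (y⁻¹ * x.hd) ≤ C * (ρ + 1)

/-- The cone inequality for cocycles of degree `j + 1`. -/
def CoCone (j : ℕ) : Prop :=
  ∀ r, ∃ R C, ∀ (ζ : Tup G → F2) (Z : Finset (Tup G)) (y : G) (ρ : ℕ),
    (∀ x, Sc ℓ (j + 1) R x → ζ x ≠ 0 → x ∈ Z) → (∀ x ∈ Z, ℓ (y⁻¹ * x.hd) ≤ ρ) →
    (∀ x, Sc ℓ (j + 2) R x → linearCombination F2 ζ (dd x) = 0) →
    ∃ c : T2 G, c.support.card ≤ C * (ρ + 1) * Z.card ∧
      (∀ x ∈ c.support, Sc ℓ j r x ∧ ℓ (y⁻¹ * x.hd) ≤ C * (ρ + 1)) ∧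
      ∀ x, Sc ℓ (j + 1) r x → linearCombination F2 c (dd x) = ζ x

/-- Retraction onto small tuples in low degrees. -/
structure Rips (s R : ℕ) (φ₁ φ₂ φ₃ : Tup G → T2 G) : Prop where
  pos : 1 ≤ s
  e1 : EqvT φ₁
  e2 : EqvT φ₂
  e3 : EqvT φ₃
  s1 : ∀ x, ∀ y ∈ (φ₁ x).support, Sc ℓ 1 s y
  s2 : ∀ x, ∀ y ∈ (φ₂ x).support, Sc ℓ 2 s y
  s3 : ∀ x, ∀ y ∈ (φ₃ x).support, Sc ℓ 3 R y
  i1 : ∀ x, Sc ℓ 1 s x → φ₁ x = single x 1
  i2 : ∀ x, Sc ℓ 2 s x → φ₂ x = single x 1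
  b1 : ∀ x, x.deg = 1 → bdT F2 (φ₁ x) = dd x
  b2 : ∀ x, x.deg = 2 → bdT F2 (φ₂ x) = linearCombination F2 φ₁ (dd x)
  b3 : ∀ x, x.deg = 3 → bdT F2 (φ₃ x) = linearCombination F2 φ₂ (dd x)

/-- The cone inequality in degree two of the finite type complex. -/
def Cone2 (s R : ℕ) (φ₂ : Tup G → T2 G) : Prop :=
  ∃ D, ∀ (ζ : T2 G) (y : G) (ρ : ℕ), (∀ x ∈ ζ.support, Sc ℓ 2 s x ∧ ℓ (y⁻¹ * x.hd) ≤ ρ) →
    (∀ t, Sc ℓ 3 R t → linearCombination F2 ζ (linearCombination F2 φ₂ (dd t)) = 0) →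
    ∃ c : T2 G, c.support.card ≤ D * (ρ + 1) * ζ.support.card ∧ (∀ x ∈ c.support, Sc ℓ 1 s x) ∧
      ∀ x, Sc ℓ 2 s x → linearCombination F2 c (dd x) = ζ x

/-- The cone inequality in degree three of the finite type complex. -/
def Cone3 (s R : ℕ) (φ₂ : Tup G → T2 G) : Prop :=
  ∃ D, ∀ (ξ : T2 G) (y : G) (ρ : ℕ), (∀ x ∈ ξ.support, Sc ℓ 3 R x ∧ ℓ (y⁻¹ * x.hd) ≤ ρ) →
    (∀ τ : T2 G, (∀ a ∈ τ.support, Sc ℓ 3 R a ∧ ∀ b ∈ τ.support, ℓ (a.hd⁻¹ * b.hd) ≤ D) →
      linearCombination F2 φ₂ (bdT F2 τ) = 0 → linearCombination F2 ξ τ = 0) →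
    ∃ η : T2 G, η.support.card ≤ D * (ρ + 1) * ξ.support.card ∧
      (∀ x ∈ η.support, Sc ℓ 2 s x ∧ ℓ (y⁻¹ * x.hd) ≤ D * (ρ + 1)) ∧
      ∀ t, Sc ℓ 3 R t → linearCombination F2 η (linearCombination F2 φ₂ (dd t)) = ξ t

/-- The abstract setting of the slicing argument. -/
structure Slc {A B C : Type} (pB : B → G) (pC : C → G) (δ₁ : (A →₀ F2) →ₗ[F2] (B →₀ F2))
    (δ₂ : (B →₀ F2) →ₗ[F2] (C →₀ F2)) (Cyc : Set (C →₀ F2)) (D : ℕ) : Prop where
  loc : ∀ b, (δ₂ (single b 1)).support.card ≤ D ∧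
    ∀ t ∈ (δ₂ (single b 1)).support, ℓ ((pB b)⁻¹ * pC t) ≤ D
  cyc : ∀ ζ, δ₂ ζ ∈ Cyc
  split : ∀ ξ₁ ξ₂, ξ₁ + ξ₂ ∈ Cyc →
    (∀ a ∈ ξ₁.support, ∀ b ∈ ξ₂.support, D < ℓ ((pC a)⁻¹ * pC b)) → ξ₁ ∈ Cyc ∧ ξ₂ ∈ Cyc
  cone3 : ∀ ξ ∈ Cyc, ∀ (y : G) (ρ : ℕ), (∀ t ∈ ξ.support, ℓ (y⁻¹ * pC t) ≤ ρ) →
    ∃ η, δ₂ η = ξ ∧ η.support.card ≤ D * (ρ + 1) * ξ.support.card ∧
      ∀ b ∈ η.support, ℓ (y⁻¹ * pB b) ≤ D * (ρ + 1)
  cone2 : ∀ ζ, δ₂ ζ = 0 → ∀ (y : G) (ρ : ℕ), (∀ b ∈ ζ.support, ℓ (y⁻¹ * pB b) ≤ ρ) →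
    ∃ c, δ₁ c = ζ ∧ c.support.card ≤ D * (ρ + 1) * ζ.support.card

/-! ### Statements -/

/-- Job `Comb`. -/
def CombStmt : Prop :=
  ∀ (G : Type) [Group G], Combable G → ∃ (ℓ : G → ℕ) (K : ℕ) (σ : G → ℕ → G), Len ℓ ∧ Cmb ℓ K σ

/-- Job `ConeT`. -/
def ConeStmt : Prop :=
  ∀ (G : Type) [Group G] (ℓ : G → ℕ) (K : ℕ) (σ : G → ℕ → G), Len ℓ → Cmb ℓ K σ → Cone ℓ

/-- Job `CoCone`. -/
def CoConeStmt : Prop :=
  ∀ (G : Type) [Group G] (ℓ : G → ℕ) (n : ℕ) (θ : Cell G → F2) (ω : Cell G →₀ F2)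
    (H : Tup G → T2 G), Len ℓ → Cone ℓ → Dual F2 n 1 θ ω H → ∀ j, j + 1 < n → CoCone ℓ j

/-- Job `Rips`. -/
def RipsStmt : Prop :=
  ∀ (G : Type) [Group G] (ℓ : G → ℕ), Len ℓ → Cone ℓ → ∃ s R φ₁ φ₂ φ₃, Rips ℓ s R φ₁ φ₂ φ₃

/-- Job `C01`. -/
def C01Stmt : Prop :=
  ∀ (G : Type) [Group G] (ℓ : G → ℕ) (h : Len ℓ) (s R : ℕ) (φ₁ φ₂ φ₃ : Tup G → T2 G),
    Rips ℓ s R φ₁ φ₂ φ₃ → CoCone ℓ 0 →
    (∀ w : G × G → ZMod 2, (∀ t, Tri (h.ball s) t → d1 w t = 0) →
      ∃ F, ∀ e, Edge (h.ball s) e → w e = d0 F e) ∧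
    ∀ F : G → ZMod 2, (sp1 (h.ball s) (d0 F)).Finite →
      {x | F x ≠ 0}.Finite ∨ {x | F x ≠ 1}.Finite

/-- Job `Cone23`. -/
def Cone23Stmt : Prop :=
  ∀ (G : Type) [Group G] (ℓ : G → ℕ) (s R : ℕ) (φ₁ φ₂ φ₃ : Tup G → T2 G), Len ℓ →
    Rips ℓ s R φ₁ φ₂ φ₃ → (CoCone ℓ 1 → Cone2 ℓ s R φ₂) ∧ (CoCone ℓ 2 → Cone3 ℓ s R φ₂)

/-- Job `Slice`. -/
def SliceStmt : Prop :=
  ∀ (G : Type) [Group G] (ℓ : G → ℕ) (A B C : Type) (pB : B → G) (pC : C → G)
    (δ₁ : (A →₀ F2) →ₗ[F2] (B →₀ F2)) (δ₂ : (B →₀ F2) →ₗ[F2] (C →₀ F2)) (Cyc : Set (C →₀ F2))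
    (D : ℕ), Len ℓ → Slc ℓ pB pC δ₁ δ₂ Cyc D →
    ∃ K, ∀ ζ, δ₂ ζ = 0 → ∃ c, δ₁ c = ζ ∧ c.support.card ^ 2 ≤ K * ζ.support.card ^ 3

/-- Job `C2`. -/
def C2Stmt : Prop :=
  ∀ (G : Type) [Group G] (ℓ : G → ℕ) (h : Len ℓ) (s R : ℕ) (φ₁ φ₂ φ₃ : Tup G → T2 G),
    Rips ℓ s R φ₁ φ₂ φ₃ → Cone2 ℓ s R φ₂ → Cone3 ℓ s R φ₂ →
    ∃ C, ∀ w : G × G → ZMod 2, (sp2 (h.ball s) (d1 w)).Finite →
      ∃ c : G × G → ZMod 2, (sp1 (h.ball s) c).Finite ∧
        (∀ t, Tri (h.ball s) t → d1 c t = d1 w t) ∧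
        (sp1 (h.ball s) c).ncard ^ 2 ≤ C * (sp2 (h.ball s) (d1 w)).ncard ^ 3

/-- The cohomological hypotheses follow from a combing and duality. -/
theorem coh_of_dual (h1 : CombStmt) (h2 : ConeStmt) (h3 : CoConeStmt) (h4 : RipsStmt)
    (h5 : C01Stmt) (h6 : Cone23Stmt) (h7 : C2Stmt) (hG : Combable G) {n : ℕ} (hn : 4 ≤ n)
    {θ : Cell G → F2} {ω : Cell G →₀ F2} {H : Tup G → T2 G} (hD : Dual F2 n 1 θ ω H) :
    ∃ (S : Finset G) (C : ℕ), Gen S ∧ Coh S C := by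
  obtain ⟨ℓ, K, σ, hl, hc⟩ := h1 G hG
  have c1 := h2 G ℓ K σ hl hc
  have c2 := h3 G ℓ n θ ω H hl c1 hD
  obtain ⟨s, R, φ₁, φ₂, φ₃, hR⟩ := h4 G ℓ hl c1
  obtain ⟨a0, a1⟩ := h5 G ℓ hl s R φ₁ φ₂ φ₃ hR (c2 0 (by omega))
  obtain ⟨b2, b3⟩ := h6 G ℓ s R φ₁ φ₂ φ₃ hl hR
  obtain ⟨C, a2⟩ := h7 G ℓ hl s R φ₁ φ₂ φ₃ hR (b2 (c2 1 (by omega))) (b3 (c2 2 (by omega)))
  exact ⟨hl.ball s, C, hl.gen hR.pos, a0, a1, a2⟩

end Pool.Agent.MP_4f4d9f_gt.Hy

end

section

/-! The cohomological hypotheses in degrees zero and one. -/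

namespace Pool.Agent.MP_4f4d9f_gt.Hy

open Finsupp Sg Sg.Tup

namespace C01L

variable {G : Type}

theorem lc_bdT (f : Tup G → F2) (c : T2 G) :
    linearCombination F2 f (bdT F2 c) =
      linearCombination F2 (fun x => linearCombination F2 f (dd x)) c := by
  induction c using Finsupp.induction_linear with
  | zero => simp
  | add x y hx hy => simp only [map_add, hx, hy]
  | single x r =>
    rw [linearCombination_single, dd, ← smul_single_one x r, map_smul, map_smul]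

theorem lc_edg (f : Tup G → F2) (a b : G) :
    linearCombination F2 f (dd (edg a b)) = f (pt b) + f (pt a) := by
  simp [dd_edg]

/-- A function on pairs as a function on tuples. -/
def wt (w : G × G → F2) (x : Tup G) : F2 := w (x.hd, x.tl.headD x.hd)

theorem wt_edg (w : G × G → F2) (a b : G) : wt w (edg a b) = w (a, b) := rfl

theorem lc_trg (w : G × G → F2) (a b c : G) :
    linearCombination F2 (wt w) (dd (trg a b c)) = d1 w (a, b, c) := by
  simp [dd_trg, wt_edg, d1]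

variable [Group G] {ℓ : G → ℕ} {s R : ℕ} {φ₁ φ₂ φ₃ : Tup G → T2 G}

theorem c0 (h : Len ℓ) (hR : Rips ℓ s R φ₁ φ₂ φ₃) (w : G × G → ZMod 2)
    (hw : ∀ t, Tri (h.ball s) t → d1 w t = 0) : ∃ F, ∀ e, Edge (h.ball s) e → w e = d0 F e := by
  refine ⟨fun g => linearCombination F2 (wt w) (φ₁ (edg 1 g)), ?_⟩
  rintro ⟨a, b⟩ he
  have h1 : linearCombination F2 (wt w) (bdT F2 (φ₂ (trg 1 a b))) = 0 := by
    rw [lc_bdT]
    by_contra hne
    obtain ⟨x, hx, e⟩ := exists_of_lc_ne_zero hne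
    have h2 := hR.s2 _ x hx
    obtain ⟨u, v, t, rfl⟩ := eq_trg h2.1
    obtain ⟨h3, h4, h5⟩ := (sc_trg h).1 h2
    exact e ((lc_trg w u v t).trans
      (hw _ ⟨h.mem_ball.2 h3, h.mem_ball.2 h4, h.mem_ball.2 h5⟩))
  rw [hR.b2 _ rfl, dd_trg] at h1
  simp only [map_add, linearCombination_single, one_smul] at h1
  rw [hR.i1 _ ((sc_edg h).2 (h.mem_ball.1 he)), linearCombination_single, one_smul, wt_edg] at h1
  simp only [d0]
  revert h1
  generalize w (a, b) = x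
  generalize linearCombination F2 (wt w) (φ₁ (edg 1 a)) = y
  generalize linearCombination F2 (wt w) (φ₁ (edg 1 b)) = z
  revert x y z
  decide

theorem c1 (h : Len ℓ) (hR : Rips ℓ s R φ₁ φ₂ φ₃) (hC : CoCone ℓ 0) (F : G → ZMod 2)
    (hF : (sp1 (h.ball s) (d0 F)).Finite) : {x | F x ≠ 0}.Finite ∨ {x | F x ≠ 1}.Finite := by
  classical
  obtain ⟨R', C, hc⟩ := hC s
  obtain ⟨C', hp⟩ := hR.e1.pull h 1 R'
  obtain ⟨Z, -, -, hZ⟩ := hp (hF.toFinset.image fun e => edg e.1 e.2)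
  obtain ⟨ρ, hρ⟩ := exists_bound (ℓ := ℓ) Z 1
  obtain ⟨c, -, -, h1⟩ := hc (fun x => linearCombination F2 (fun y => F y.hd) (dd x)) Z 1 ρ
    (fun x hx hne => by
      rw [← hR.b1 x hx.1, lc_bdT] at hne
      obtain ⟨y, hy, e⟩ := exists_of_lc_ne_zero hne
      have h2 := hR.s1 _ y hy
      obtain ⟨a, b, rfl⟩ := eq_edg h2.1
      refine hZ x hx _ (Finset.mem_image.2 ⟨(a, b), hF.mem_toFinset.2
        ⟨h.mem_ball.2 ((sc_edg h).1 h2), ?_⟩, rfl⟩) hy
      rw [lc_edg, add_comm] at e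
      exact e)
    (fun x hx => (hρ x hx).2)
    (fun x _ => by rw [← lc_bdT, dd, bdT_bdT, map_zero])
  have h2 : ∀ x, F x + c (pt x) = F 1 + c (pt 1) := by
    intro x
    induction x using (h.gen hR.pos).ind with
    | h1 => rfl
    | h x t ht ih =>
      have h3 := h1 (edg x (x * t)) ((sc_edg h).2 (by simpa using h.mem_ball.1 ht))
      rw [lc_edg, lc_edg] at h3
      change c (pt (x * t)) + c (pt x) = F (x * t) + F x at h3
      rw [← ih]
      revert h3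
      generalize c (pt (x * t)) = a
      generalize c (pt x) = b
      generalize F (x * t) = u
      generalize F x = v
      revert a b u v
      decide
  have h3 : {x : G | c (pt x) ≠ 0}.Finite :=
    (c.support.finite_toSet.preimage (f := pt) fun a _ b _ e => congrArg hd e).subset
      fun x hx => mem_support_iff.2 hx
  have h4 : ∀ k : ZMod 2, k = 0 ∨ k = 1 := by decide
  rcases h4 (F 1 + c (pt 1)) with e | e
  · refine Or.inl (h3.subset fun x hx h5 => hx ?_)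
    have h6 := h2 x
    rwa [e, h5, add_zero] at h6
  · refine Or.inr (h3.subset fun x hx h5 => hx ?_)
    have h6 := h2 x
    rwa [e, h5, add_zero] at h6

end C01L

theorem c01_stmt : C01Stmt := fun _ _ _ h _ _ _ _ _ hR hC =>
  ⟨C01L.c0 h hR, C01L.c1 h hR hC⟩

end Pool.Agent.MP_4f4d9f_gt.Hy

end

section

/-! Interface, part C: the cohomological hypotheses follow from duality. -/

namespace Pool.Agent.MP_4f4d9f_gt.Ku

open Finsupp Sg Sg.Tup Hy

variable {G : Type} [Group G] (ℓ : G → ℕ)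

/-- Cycles of bounded scale bound chains of bounded scale. -/
def Fill : Prop :=
  ∀ j r, ∃ R, ∀ z : T2 G, (∀ x ∈ z.support, Sc ℓ (j + 1) r x) → bdT F2 z = 0 →
    ∃ u : T2 G, bdT F2 u = z ∧ ∀ x ∈ u.support, Sc ℓ (j + 2) R x

/-- Finite cocycles of degree `j + 1` are coboundaries of finite cochains. -/
def CoQ (j : ℕ) : Prop :=
  ∀ r, ∃ R, ∀ ζ : Tup G → F2, {x | Sc ℓ (j + 1) R x ∧ ζ x ≠ 0}.Finite →
    (∀ x, Sc ℓ (j + 2) R x → linearCombination F2 ζ (dd x) = 0) →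
    ∃ c : T2 G, (∀ x ∈ c.support, Sc ℓ j r x) ∧
      ∀ x, Sc ℓ (j + 1) r x → linearCombination F2 c (dd x) = ζ x

/-- Job `FG`. -/
def FGStmt : Prop :=
  ∀ (G : Type) [Group G] (n : ℕ) (θ : Cell G → F2) (ω : Cell G →₀ F2) (H : Tup G → T2 G),
    Dual F2 n 1 θ ω H → ∃ ℓ : G → ℕ, Len ℓ

/-- Job `Fill`. -/
def FillStmt : Prop :=
  ∀ (G : Type) [Group G] (ℓ : G → ℕ) (n : ℕ) (θ : Cell G → F2) (ω : Cell G →₀ F2)
    (H : Tup G → T2 G), Len ℓ → Dual F2 n 1 θ ω H → Fill ℓ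

/-- Job `CoQ`. -/
def CoQStmt : Prop :=
  ∀ (G : Type) [Group G] (ℓ : G → ℕ) (n : ℕ) (θ : Cell G → F2) (ω : Cell G →₀ F2)
    (H : Tup G → T2 G), Len ℓ → Dual F2 n 1 θ ω H → ∀ j, j + 1 < n → CoQ ℓ j

/-- Job `RipsQ`. -/
def RipsQStmt : Prop :=
  ∀ (G : Type) [Group G] (ℓ : G → ℕ), Len ℓ → Fill ℓ → ∃ s R φ₁ φ₂ φ₃, Rips ℓ s R φ₁ φ₂ φ₃

/-- Job `C1Q`. -/
def C1QStmt : Prop :=
  ∀ (G : Type) [Group G] (ℓ : G → ℕ) (h : Len ℓ) (s R : ℕ) (φ₁ φ₂ φ₃ : Tup G → T2 G),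
    Rips ℓ s R φ₁ φ₂ φ₃ → CoQ ℓ 0 → ∀ F : G → ZMod 2, (sp1 (h.ball s) (d0 F)).Finite →
      {x | F x ≠ 0}.Finite ∨ {x | F x ≠ 1}.Finite

/-- Job `C2Q`. -/
def C2QStmt : Prop :=
  ∀ (G : Type) [Group G] (ℓ : G → ℕ) (h : Len ℓ) (s R : ℕ) (φ₁ φ₂ φ₃ : Tup G → T2 G),
    Rips ℓ s R φ₁ φ₂ φ₃ → CoQ ℓ 1 → ∀ N : ℕ, ∃ M : ℕ, ∀ w : G × G → ZMod 2,
      (sp2 (h.ball s) (d1 w)).Finite → (sp2 (h.ball s) (d1 w)).ncard ≤ N →
      ∃ c : G × G → ZMod 2, (sp1 (h.ball s) c).Finite ∧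
        (∀ t, Tri (h.ball s) t → d1 c t = d1 w t) ∧ (sp1 (h.ball s) c).ncard ≤ M

/-- The cohomological hypotheses follow from duality. -/
theorem cohQ_of_dual (h1 : FGStmt) (h2 : FillStmt) (h3 : CoQStmt) (h4 : RipsQStmt) (h5 : C1QStmt)
    (h6 : C2QStmt) {n : ℕ} (hn : 3 ≤ n) {θ : Cell G → F2} {ω : Cell G →₀ F2} {H : Tup G → T2 G}
    (hD : Dual F2 n 1 θ ω H) : ∃ S : Finset G, Gen S ∧ CohQ S := by
  obtain ⟨ℓ, hl⟩ := h1 G n θ ω H hD
  have c2 := h3 G ℓ n θ ω H hl hD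
  obtain ⟨s, R, φ₁, φ₂, φ₃, hR⟩ := h4 G ℓ hl (h2 G ℓ n θ ω H hl hD)
  exact ⟨hl.ball s, hl.gen hR.pos, C01L.c0 hl hR, h5 G ℓ hl s R φ₁ φ₂ φ₃ hR (c2 0 (by omega)),
    h6 G ℓ hl s R φ₁ φ₂ φ₃ hR (c2 1 (by omega))⟩

end Pool.Agent.MP_4f4d9f_gt.Ku

end

section

/-! From a combing of a space to a combing of the group. -/

namespace Pool.Agent.MP_4f4d9f_gt.Hy

open scoped Pointwise

namespace CombL

variable {G : Type} [Group G]

/-- The word length of a finite symmetric generating set. -/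
theorem len_exists {S : Set G} (hf : S.Finite) (h1 : (1 : G) ∈ S) (hi : S⁻¹ = S)
    (hg : ∀ g, ∃ m : ℕ, g ∈ S ^ m) : ∃ ℓ : G → ℕ, Len ℓ ∧ ∀ g m, ℓ g ≤ m ↔ g ∈ S ^ m := by
  classical
  obtain ⟨ℓ, h⟩ : ∃ ℓ : G → ℕ, ∀ g m, ℓ g ≤ m ↔ g ∈ S ^ m :=
    ⟨fun g => Nat.find (hg g), fun g m =>
      ⟨fun e => Set.pow_subset_pow_right h1 e (Nat.find_spec (hg g)), Nat.find_min' (hg g)⟩⟩
  have h2 : ∀ g, ℓ g⁻¹ ≤ ℓ g := fun g => (h _ _).2 (by
    rw [← hi, inv_pow]
    exact Set.inv_mem_inv.2 ((h _ _).1 le_rfl))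
  have h3 : ∀ g, ℓ g⁻¹ = ℓ g := fun g => le_antisymm (h2 g) (by simpa using h2 g⁻¹)
  have h4 : ∀ a b, ℓ (a * b) ≤ ℓ a + ℓ b := fun a b => (h _ _).2 (by
    rw [pow_add]
    exact Set.mul_mem_mul ((h _ _).1 le_rfl) ((h _ _).1 le_rfl))
  refine ⟨ℓ, ⟨fun g => ?_, h3, h4, fun r => ?_, fun g m e => ?_⟩, h⟩
  · rw [← Nat.le_zero, h, pow_zero, Set.mem_one]
  · refine Set.Finite.subset (s := S ^ r) ?_ fun g e => (h g r).1 e
    induction r with
    | zero => exact Set.finite_one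
    | succ r ih => exact pow_succ S r ▸ ih.mul hf
  · have e1 := (h g _).1 e.le
    rw [pow_succ] at e1
    obtain ⟨a, ha, t, ht, rfl⟩ := e1
    have e2 := (h a m).2 ha
    have e3 := (h t 1).2 (by rwa [pow_one])
    have e4 := h4 a t
    refine ⟨t⁻¹, ?_, ?_⟩
    · rw [h3]
      dsimp only at e
      omega
    · dsimp only at e ⊢
      rw [mul_inv_cancel_right]
      omega

end CombL

open CombL in
theorem comb_stmt : CombStmt := by
  classical
  rintro G _ ⟨Y, _, _, hiso, hpr, ⟨y0, r, hr⟩, p, K, σ, s0, s1, s2, s3⟩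
  choose pr hpr' using hr
  have hK : 0 ≤ K := dist_nonneg.trans (s2 p 0)
  have hd : ∀ g h : G, dist y0 ((g⁻¹ * h) • y0) = dist (g • y0) (h • y0) := fun g h => by
    rw [← hiso g, ← mul_smul, mul_inv_cancel_left]
  obtain ⟨R, hR0, hR1, hR2⟩ : ∃ R : ℝ, 0 ≤ R ∧ r ≤ R ∧ dist p y0 ≤ R :=
    ⟨max r (dist p y0), dist_nonneg.trans (le_max_right _ _), le_max_left _ _, le_max_right _ _⟩
  obtain ⟨τ, t0, t1, t2⟩ : ∃ τ : G → ℕ → G, (∀ g, τ g 0 = 1) ∧
      (∀ g (i : ℕ), i ≠ 0 → K * (dist p (g • y0) + 1) ≤ i → τ g i = g) ∧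
      ∀ g i, dist (σ (g • y0) i) (τ g i • y0) ≤ R := by
    refine ⟨fun g i => if i = 0 then 1 else if K * (dist p (g • y0) + 1) ≤ i then g
      else pr (σ (g • y0) i), fun g => if_pos rfl, fun g i h h' => ?_, fun g i => ?_⟩
    · dsimp only
      rw [if_neg h, if_pos h']
    · dsimp only
      split_ifs with h h'
      · rw [h, s0, one_smul]
        exact hR2
      · rw [s1 _ _ h', dist_self]
        exact hR0
      · exact (hpr' _).trans hR1
  have t3 : ∀ g h i j, dist y0 (((τ g i)⁻¹ * τ h j) • y0) ≤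
      dist (σ (g • y0) i) (σ (h • y0) j) + 2 * R := fun g h i j => by
    have := dist_triangle4 (τ g i • y0) (σ (g • y0) i) (σ (h • y0) j) (τ h j • y0)
    rw [hd]
    linarith [t2 g i, t2 h j, dist_comm (τ g i • y0) (σ (g • y0) i)]
  obtain ⟨S, hS⟩ : ∃ S : Set G, ∀ g, g ∈ S ↔ dist y0 (g • y0) ≤ K + 2 * R := ⟨_, fun _ => Iff.rfl⟩
  have t4 : ∀ g i, (τ g i)⁻¹ * τ g (i + 1) ∈ S := fun g i =>
    (hS _).2 ((t3 g g i (i + 1)).trans (by linarith [s2 (g • y0) i]))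
  have t5 : ∀ g (i : ℕ), τ g i ∈ S ^ i := fun g i => by
    induction i with
    | zero => rw [t0, pow_zero, Set.mem_one]
    | succ i ih =>
      rw [pow_succ, ← mul_inv_cancel_left (τ g i) (τ g (i + 1))]
      exact Set.mul_mem_mul ih (t4 g i)
  have t6 : ∀ g, g ∈ S ^ (⌈K * (dist p (g • y0) + 1)⌉₊ + 1) := fun g => by
    have := t5 g (⌈K * (dist p (g • y0) + 1)⌉₊ + 1)
    rwa [t1 g _ (Nat.succ_ne_zero _) ((Nat.le_ceil _).trans (Nat.cast_le.2 (Nat.le_succ _)))]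
      at this
  have t7 : ∀ (m : ℕ) g, g ∈ S ^ m → dist y0 (g • y0) ≤ (K + 2 * R) * m := fun m => by
    induction m with
    | zero =>
      intro g h
      rw [pow_zero, Set.mem_one] at h
      simp [h]
    | succ m ih =>
      intro g h
      rw [pow_succ] at h
      obtain ⟨a, ha, t, ht, rfl⟩ := h
      have h1 := dist_triangle y0 (a • y0) ((a * t) • y0)
      rw [← hd, inv_mul_cancel_left] at h1
      have h2 := ih a ha
      have h3 := (hS t).1 ht
      push_cast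
      linarith
  obtain ⟨ℓ, hl, h⟩ := len_exists (S := S) ((hpr y0 _).subset fun g => (hS g).1)
    ((hS 1).2 (by rw [one_smul, dist_self]; positivity))
    (Set.ext fun g => by
      rw [Set.mem_inv, hS, hS, ← mul_one g⁻¹, hd, one_smul, dist_comm]) fun g => ⟨_, t6 g⟩
  have u1 : ∀ g, dist y0 (g • y0) ≤ (K + 2 * R) * ℓ g := fun g => t7 _ g ((h _ _).1 le_rfl)
  have u2 : ∀ g : G, K * (dist p (g • y0) + 1) ≤ K * (R + dist y0 (g • y0) + 1) := fun g =>
    mul_le_mul_of_nonneg_left (by linarith [dist_triangle p y0 (g • y0)]) hK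
  have u3 : ∀ g, (ℓ g : ℝ) ≤ K * (R + dist y0 (g • y0) + 1) + 2 := fun g => by
    have h1 : (ℓ g : ℝ) ≤ (⌈K * (dist p (g • y0) + 1)⌉₊ + 1 : ℕ) := Nat.cast_le.2 ((h _ _).2 (t6 g))
    have h2 := Nat.ceil_lt_add_one (show 0 ≤ K * (dist p (g • y0) + 1) by positivity)
    push_cast at h1
    linarith [u2 g]
  obtain ⟨M, hM⟩ := exists_nat_ge
    (K * (K + 2 * R) + K * (K * (K + 2 * R)) + K * (3 * R + K + 1) + 2)
  have p1 : 0 ≤ K * (K + 2 * R) := by positivity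
  have p2 : 0 ≤ K * (K * (K + 2 * R)) := by positivity
  have p3 : 0 ≤ K * (3 * R + K + 1) := by positivity
  have hM1 : 1 ≤ M := by
    have : (1 : ℝ) ≤ M := by linarith
    exact_mod_cast this
  refine ⟨ℓ, M, τ, hl, t0, fun g i e => t1 g i ?_ ?_, fun g i => ?_, fun g g' i => ?_⟩
  · exact ((Nat.mul_pos hM1 (Nat.succ_pos (ℓ g))).trans_le e).ne'
  · have e1 : (M : ℝ) * (ℓ g + 1) ≤ i := by exact_mod_cast e
    have e2 := mul_le_mul_of_nonneg_left (u1 g) hK
    have e3 := mul_le_mul_of_nonneg_right (show K * (K + 2 * R) ≤ M by linarith)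
      (Nat.cast_nonneg (ℓ g))
    nlinarith [u2 g, mul_nonneg hK hR0, mul_nonneg hK hK]
  · exact ((h _ 1).2 (by rw [pow_one]; exact t4 g i)).trans hM1
  · have e1 := u3 ((τ g i)⁻¹ * τ g' i)
    have e2 := t3 g g' i i
    have e3 := s3 (g • y0) (g' • y0) i
    rw [← hd] at e3
    have e4 := mul_le_mul_of_nonneg_left (u1 (g⁻¹ * g')) hK
    have e5 : dist y0 (((τ g i)⁻¹ * τ g' i) • y0) ≤
        K * ((K + 2 * R) * ℓ (g⁻¹ * g')) + K + 2 * R := by linarith
    have e6 := mul_le_mul_of_nonneg_left e5 hK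
    have e7 := mul_le_mul_of_nonneg_right (show K * (K * (K + 2 * R)) ≤ M by linarith)
      (Nat.cast_nonneg (ℓ (g⁻¹ * g')))
    have e8 : (ℓ ((τ g i)⁻¹ * τ g' i) : ℝ) ≤ M * (ℓ (g⁻¹ * g') + 1) := by linarith
    exact_mod_cast e8

end Pool.Agent.MP_4f4d9f_gt.Hy

end

section

/-! The cone inequality for cocycles, from the one for cycles and duality. -/

namespace Pool.Agent.MP_4f4d9f_gt.Hy

open Finsupp Sg Sg.Tup

namespace CoConeL

variable {G : Type}

theorem sgn (m : ℕ) : (-1 : F2) ^ m = 1 := by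
  rw [CharTwo.neg_eq, one_pow]

theorem lc_congr {A : Type} {f g : A → F2} {v : A →₀ F2} (h : ∀ x ∈ v.support, f x = g x) :
    linearCombination F2 f v = linearCombination F2 g v := by
  simp only [linearCombination_apply, Finsupp.sum]
  exact Finset.sum_congr rfl fun x hx => by rw [h x hx]

theorem lc_add {A : Type} (f g : A → F2) (v : A →₀ F2) :
    linearCombination F2 (fun x => f x + g x) v =
      linearCombination F2 f v + linearCombination F2 g v := by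
  simp only [linearCombination_apply, Finsupp.sum, smul_add, Finset.sum_add_distrib]

theorem lc_lc {A B : Type} (ζ : B → F2) (H : A → (B →₀ F2)) (v : A →₀ F2) :
    linearCombination F2 (fun x => linearCombination F2 ζ (H x)) v =
      linearCombination F2 ζ (linearCombination F2 H v) := by
  induction v using Finsupp.induction_linear with
  | zero => simp
  | add x y hx hy => simp only [map_add, hx, hy]
  | single x r => simp only [linearCombination_single, map_smul]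

theorem lc_dd (v : T2 G) : linearCombination F2 dd v = bdT F2 v := by
  induction v using ind1 with
  | h0 => simp
  | hadd x y hx hy => simp only [map_add, hx, hy]
  | hs r x hx => simp only [map_smul, hx]
  | h1 x => rw [linearCombination_single, one_smul, dd]

theorem lc_fst (ζ : Tup G → F2) (b : Tup G) (v : T2 G) :
    linearCombination F2 (fun a => single b (ζ a)) v = single b (linearCombination F2 ζ v) := by
  induction v using Finsupp.induction_linear with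
  | zero => simp
  | add x y hx hy => simp only [map_add, hx, hy, single_add]
  | single x r => simp only [linearCombination_single, smul_single]

theorem lc_snd (t : F2) (v : T2 G) :
    linearCombination F2 (fun b : Tup G => single b t) v = t • v := by
  induction v using Finsupp.induction_linear with
  | zero => simp
  | add x y hx hy => simp only [map_add, hx, hy, smul_add]
  | single x r => simp only [linearCombination_single, smul_single, smul_eq_mul, mul_comm]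

theorem lc_prR (θ : Cell G → F2) (v u : T2 G) :
    linearCombination F2 θ (prR F2 v u) =
      linearCombination F2 (fun a => linearCombination F2 (fun b => θ (a, b)) u) v := by
  induction v using Finsupp.induction_linear with
  | zero => simp
  | add x y hx hy => simp only [map_add, LinearMap.add_apply, hx, hy]
  | single a r =>
    rw [linearCombination_single]
    induction u using Finsupp.induction_linear with
    | zero => simp
    | add x y hx hy => simp only [map_add, hx, hy, smul_add]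
    | single b s => simp only [prR_single, linearCombination_single, mul_smul]

theorem adj (θ : Cell G → F2) (h : ∀ c, linearCombination F2 θ (cbR F2 (single c 1)) = 0)
    (x : Tup G) (u : T2 G) :
    linearCombination F2 (fun a => linearCombination F2 (fun b => θ (a, b)) u) (dd x) =
      linearCombination F2 (fun b => θ (x, b)) (bdT F2 u) := by
  have h1 : ∀ w, linearCombination F2 θ (cbR F2 w) = 0 := fun w => by
    induction w using ind1 with
    | h0 => simp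
    | hadd x y hx hy => simp only [map_add, hx, hy, add_zero]
    | hs r x hx => simp only [map_smul, hx, smul_zero]
    | h1 c => exact h c
  have h2 := h1 (prR F2 (single x 1) u)
  rw [cbR_prR, map_add, lc_prR, lc_prR, sg_single, sgn, one_mul, linearCombination_single,
    one_smul] at h2
  exact CharTwo.add_eq_zero.1 h2

variable [Group G] {ℓ : G → ℕ}

theorem fin_orb (Z : Finset (Tup G)) (a : Tup G) : {g : G | g • a ∈ Z}.Finite :=
  Z.finite_toSet.preimage (f := fun g : G => g • a) fun _ _ _ _ e =>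
    mul_right_cancel (congrArg Tup.hd e)

theorem av_zero {M : Type} [AddCommGroup M] [Module F2 M] (ω : Cell G →₀ F2) :
    av (1 : G →* F2ˣ) (fun _ => (0 : M)) ω = 0 := by
  simp [av, linearCombination_apply]

/-- The slant product of the cochain with a cell. -/
noncomputable def sl (ζ : Tup G → F2) (c : Cell G) : T2 G := single c.2 (ζ c.1)

/-- The cap product of the cochain with the fundamental chain. -/
noncomputable def cap (ζ : Tup G → F2) (ω : Cell G →₀ F2) : T2 G :=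
  av (1 : G →* F2ˣ) (sl ζ) ω

theorem fin_cap {ζ : Tup G → F2} {Z : Finset (Tup G)} (hζ : ∀ x, ζ x ≠ 0 → x ∈ Z) (c : Cell G) :
    {g : G | sl ζ (g • c) ≠ 0}.Finite :=
  (fin_orb Z c.1).subset fun g hg => hζ _ fun e => hg (by
    change single (g • c.2) (ζ (g • c.1)) = 0
    rw [e, single_zero])

theorem mem_cap {ζ : Tup G → F2} {Z : Finset (Tup G)} (hζ : ∀ x, ζ x ≠ 0 → x ∈ Z)
    {ω : Cell G →₀ F2} {y : Tup G} (hy : y ∈ (cap ζ ω).support) :
    ∃ c ∈ ω.support, ∃ g : G, ζ (g • c.1) ≠ 0 ∧ y = g • c.2 := by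
  by_contra hc
  refine mem_support_iff.1 hy ?_
  have h1 := map_av (1 : G →* F2ˣ) (lapply y : T2 G →ₗ[F2] F2) (f := sl ζ) (c := ω)
    fun c _ => fin_cap hζ c
  refine h1.trans ((av_congr _ fun c hc' g => ?_).trans (av_zero ω))
  change (single (g • c.2) (ζ (g • c.1)) : T2 G) y = 0
  by_contra e
  obtain ⟨e1, e2⟩ := single_apply_ne_zero.1 e
  exact hc ⟨c, hc', g, e2, e1⟩

theorem card_cap {ζ : Tup G → F2} {Z : Finset (Tup G)} (hζ : ∀ x, ζ x ≠ 0 → x ∈ Z)
    (ω : Cell G →₀ F2) : (cap ζ ω).support.card ≤ ω.support.card * Z.card := by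
  classical
  rw [← Finset.card_product]
  refine le_trans (Finset.card_le_card fun y hy => ?_) (Finset.card_image_le
    (f := fun e : Cell G × Tup G => (e.2.hd * e.1.1.hd⁻¹) • e.1.2))
  obtain ⟨c, hc, g, h1, rfl⟩ := mem_cap hζ hy
  exact Finset.mem_image.2 ⟨(c, g • c.1), Finset.mem_product.2 ⟨hc, hζ _ h1⟩, by simp⟩

theorem bd_cap {ζ : Tup G → F2} {Z : Finset (Tup G)} (hζ : ∀ x, ζ x ≠ 0 → x ∈ Z)
    {ω : Cell G →₀ F2} (hω : cbR F2 ω ∈ Rel (1 : G →* F2ˣ) (Cell G))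
    (h : ∀ c ∈ ω.support, ∀ g : G, linearCombination F2 ζ (dd (g • c.1)) = 0) :
    bdT F2 (cap ζ ω) = 0 := by
  have h1 := av_rel (1 : G →* F2ˣ) (sl ζ) hω
  rw [av_comp (1 : G →* F2ˣ) (cbR F2) (fun g c => cbR_smul g c) (f := sl ζ) (fin_cap hζ)] at h1
  rw [cap, map_av _ _ fun c _ => fin_cap hζ c, ← h1]
  refine av_congr _ fun c hc g => ?_
  change bdT F2 (single (g • c.2) (ζ (g • c.1))) =
    linearCombination F2 _ (cbR F2 (single (g • c.1, g • c.2) 1))
  rw [lc_cbR]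
  simp only [sl]
  rw [lc_fst, lc_snd, ← dd, h c hc g, single_zero, zero_add, sgn, one_smul,
    ← map_smul, smul_single_one]

theorem pair_cap {n : ℕ} {θ : Cell G → F2} {ω : Cell G →₀ F2} {H : Tup G → T2 G}
    (hD : Dual F2 n 1 θ ω H) {ζ : Tup G → F2} {Z : Finset (Tup G)}
    (hζ : ∀ x, ζ x ≠ 0 → x ∈ Z) (x : Tup G) :
    linearCombination F2 (fun b => θ (x, b)) (cap ζ ω) =
      ζ x + linearCombination F2 ζ (bdT F2 (H x)) +
        linearCombination F2 ζ (linearCombination F2 H (dd x)) := by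
  have h1 := congrArg (linearCombination F2 ζ) (hD.key x)
  rw [map_add, map_add, linearCombination_single, one_smul, map_av] at h1
  · rw [cap, map_av _ _ fun c _ => fin_cap hζ c, dd, ← h1]
    refine av_congr _ fun c _ g => ?_
    simp only [sl, linearCombination_single, sgn, one_mul, smul_eq_mul, mul_comm]
  · intro c _
    refine (hD.fin x c.2).subset fun g hg e => hg ?_
    change single (g • c.1) ((-1) ^ (g • c.1).deg * θ (x, g • c.2)) = 0
    rw [e, mul_zero, single_zero]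

theorem theta_bd (hl : Len ℓ) {n : ℕ} {θ : Cell G → F2} (hT : ThomR F2 n 1 θ) (i r k s : ℕ) :
    ∃ C, ∀ x y, Sc ℓ i r x → Sc ℓ k s y → θ (x, y) ≠ 0 → ℓ (y.hd⁻¹ * x.hd) ≤ C := by
  have hF : (⋃ a ∈ {x : Tup G | Sc ℓ i r x ∧ ℓ x.hd ≤ 0}, ⋃ b ∈ {x : Tup G | Sc ℓ k s x ∧ ℓ x.hd ≤ 0},
      {g : G | θ (a, g • b) ≠ 0}).Finite :=
    (hl.finite_sc i r 0).biUnion fun a _ => (hl.finite_sc k s 0).biUnion fun b _ => hT.fin a b
  obtain ⟨C, hC⟩ := (hF.image ℓ).bddAbove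
  refine ⟨C, fun x y hx hy h => ?_⟩
  rw [hl.symm]
  refine hC ⟨x.hd⁻¹ * y.hd, Set.mem_biUnion (x := x.hd⁻¹ • x)
    ⟨(sc_smul _).2 hx, by simp [(hl.zero 1).2 rfl]⟩ (Set.mem_biUnion (x := y.hd⁻¹ • y)
      ⟨(sc_smul _).2 hy, by simp [(hl.zero 1).2 rfl]⟩ ?_), rfl⟩
  change θ (x.hd⁻¹ • x, (x.hd⁻¹ * y.hd) • y.hd⁻¹ • y) ≠ 0
  rw [mul_smul, smul_inv_smul, hT.inv]
  simpa using h

theorem omega_bd (hl : Len ℓ) (ω : Cell G →₀ F2) : ∃ R, ∀ c ∈ ω.support,
    Sc ℓ c.1.deg R c.1 ∧ Sc ℓ c.2.deg R c.2 ∧ ℓ (c.1.hd⁻¹ * c.2.hd) ≤ R := by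
  classical
  obtain ⟨r, hr⟩ := exists_bound (ℓ := ℓ) (ω.support.image Prod.fst ∪ ω.support.image Prod.snd) 1
  refine ⟨r + r, fun c hc => ?_⟩
  have h1 := hr c.1 (Finset.mem_union_left _ (Finset.mem_image_of_mem _ hc))
  have h2 := hr c.2 (Finset.mem_union_right _ (Finset.mem_image_of_mem _ hc))
  refine ⟨h1.1.mono (by omega), h2.1.mono (by omega), (hl.tri _ 1 _).trans ?_⟩
  rw [hl.symm]
  exact add_le_add h1.2 h2.2

end CoConeL

open CoConeL in
theorem coCone_stmt : CoConeStmt := by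
  classical
  intro G _ ℓ n θ ω H hl hc hD j hj r
  obtain ⟨k, rfl⟩ : ∃ k, n = j + 1 + (k + 1) := ⟨n - (j + 2), by omega⟩
  have hH : EqvT H := hD.Heqv
  obtain ⟨R0, hR0⟩ := omega_bd hl ω
  obtain ⟨R1, C1, hC1⟩ := hc k R0
  obtain ⟨CH, hCH⟩ := hH.bound hl (j + 1) r
  obtain ⟨CP, hCP⟩ := hH.pull hl j r
  obtain ⟨Cθ, hθ⟩ := theta_bd hl hD.toThomR j r (k + 2) R1
  obtain ⟨Cc, hCc⟩ := hl.count j r Cθ
  choose W hW1 hW2 using hCc
  refine ⟨max R0 (max r CH), CP + 1 + Cθ + (Cc * ω.support.card + 1) * C1 * (R0 + 1),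
    fun ζ' Z y ρ h1 h2 h3 => ?_⟩
  obtain ⟨R, hR⟩ : ∃ R, R = max R0 (max r CH) := ⟨_, rfl⟩
  rw [← hR] at h1 h3
  have r0 : R0 ≤ R := hR ▸ le_max_left _ _
  have r1 : r ≤ R := hR ▸ (le_max_left _ _).trans (le_max_right _ _)
  have r2 : CH ≤ R := hR ▸ (le_max_right _ _).trans (le_max_right _ _)
  obtain ⟨ζ, hζ⟩ : ∃ ζ : Tup G → F2, ∀ x, ζ x = if Sc ℓ (j + 1) R x then ζ' x else 0 :=
    ⟨_, fun _ => rfl⟩
  have z1 : ∀ x, ζ x ≠ 0 → Sc ℓ (j + 1) R x := fun x hx => by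
    by_contra e
    exact hx (by rw [hζ, if_neg e])
  have z2 : ∀ x, ζ x ≠ 0 → x ∈ Z := fun x hx =>
    h1 x (z1 x hx) fun e => hx (by rw [hζ, if_pos (z1 x hx), e])
  have z3 : ∀ x, Sc ℓ x.deg R x → linearCombination F2 ζ (dd x) = 0 := fun x hx => by
    by_cases e : x.deg = j + 2
    · rw [e] at hx
      rw [← h3 x hx]
      exact lc_congr fun a ha => by rw [hζ, if_pos (hx.face ha).1]
    · by_contra e'
      obtain ⟨a, ha, e2⟩ := exists_of_lc_ne_zero e'
      have := deg_of_mem_bdT ha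
      have := (z1 a e2).1
      omega
  obtain ⟨u, u1, u2, u3⟩ := hC1 (cap ζ ω) y (ρ + R0) (fun b hb => by
      obtain ⟨c, hc, g, e, rfl⟩ := mem_cap z2 hb
      obtain ⟨-, a2, a3⟩ := hR0 c hc
      have d1 := hD.ωdeg c hc
      have d2 := (z1 _ e).1
      rw [deg_smul] at d2
      have d3 : c.2.deg = k + 1 := by
        rw [cdeg] at d1
        omega
      rw [d3] at a2
      refine ⟨(sc_smul g).2 a2, (hl.tri _ (g • c.1).hd _).trans (add_le_add (h2 _ (z2 _ e)) ?_)⟩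
      simpa [mul_assoc] using a3)
    (bd_cap z2 hD.ωcyc fun c hc g => z3 _ (by
      rw [deg_smul]
      exact (sc_smul g).2 ((hR0 c hc).1.mono r0)))
  obtain ⟨Z', p1, p2, p3⟩ := hCP Z
  obtain ⟨c0, hc0⟩ : ∃ c0 : Tup G → F2, c0 = fun x =>
      linearCombination F2 (fun b => θ (x, b)) u + linearCombination F2 ζ (H x) := ⟨_, rfl⟩
  have sup : ∀ x, (if Sc ℓ j r x then c0 x else 0) ≠ 0 →
      x ∈ Z' ∪ u.support.biUnion fun b => W b.hd := fun x hx => by
    have hx1 : Sc ℓ j r x := by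
      by_contra e
      exact hx (if_neg e)
    rw [if_pos hx1, hc0] at hx
    by_cases e : linearCombination F2 ζ (H x) = 0
    · obtain ⟨b, hb, e2⟩ := exists_of_lc_ne_zero (f := fun b => θ (x, b)) (c := u)
        fun e1 => hx (by simp only [e, e1, add_zero])
      exact Finset.mem_union_right _ (Finset.mem_biUnion.2
        ⟨b, hb, (hW2 _ _).2 ⟨hx1, hθ x b hx1 (u3 b hb).1 e2⟩⟩)
    · obtain ⟨b, hb, e2⟩ := exists_of_lc_ne_zero e
      exact Finset.mem_union_left _ (p3 x hx1 b (z2 b e2) hb)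
  have q0 : ρ + R0 + 1 ≤ (R0 + 1) * (ρ + 1) := by nlinarith [Nat.zero_le (R0 * ρ)]
  have q1 : C1 * (ρ + R0 + 1) ≤ C1 * (R0 + 1) * (ρ + 1) := by
    rw [mul_assoc]
    exact Nat.mul_le_mul_left _ q0
  refine ⟨onFinset _ _ sup, ?_, fun x hx => ?_, fun x hx => ?_⟩
  · have a1 : (u.support.biUnion fun b => W b.hd).card ≤ u.support.card * Cc :=
      Finset.card_biUnion_le_card_mul _ _ _ fun b _ => hW1 _
    have a2 : u.support.card ≤ C1 * (R0 + 1) * (ρ + 1) * (ω.support.card * Z.card) :=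
      u2.trans (Nat.mul_le_mul q1 (card_cap z2 ω))
    refine (Finset.card_le_card support_onFinset_subset).trans
      ((Finset.card_union_le _ _).trans ((add_le_add p1 (a1.trans
        (Nat.mul_le_mul_right _ a2))).trans ?_))
    have e : (CP + 1 + Cθ + (Cc * ω.support.card + 1) * C1 * (R0 + 1)) * (ρ + 1) * Z.card =
        CP * Z.card + C1 * (R0 + 1) * (ρ + 1) * (ω.support.card * Z.card) * Cc +
        (CP * ρ + (1 + Cθ + C1 * (R0 + 1)) * (ρ + 1)) * Z.card := by ring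
    rw [e]
    exact Nat.le_add_right _ _
  · rcases Finset.mem_union.1 (support_onFinset_subset hx) with e | e
    · obtain ⟨a1, b, hb, a2⟩ := p2 x e
      refine ⟨a1, (hl.tri _ b.hd _).trans ((add_le_add (h2 b hb) a2).trans ?_)⟩
      have e : (CP + 1 + Cθ + (Cc * ω.support.card + 1) * C1 * (R0 + 1)) * (ρ + 1) =
          ρ + CP + (CP * ρ + 1 + (Cθ + (Cc * ω.support.card + 1) * C1 * (R0 + 1)) * (ρ + 1)) := by
        ring
      rw [e]
      exact Nat.le_add_right _ _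
    · obtain ⟨b, hb, e⟩ := Finset.mem_biUnion.1 e
      obtain ⟨a1, a2⟩ := (hW2 _ _).1 e
      refine ⟨a1, (hl.tri _ b.hd _).trans ((add_le_add ((u3 b hb).2.trans q1) a2).trans ?_)⟩
      have e : (CP + 1 + Cθ + (Cc * ω.support.card + 1) * C1 * (R0 + 1)) * (ρ + 1) =
          C1 * (R0 + 1) * (ρ + 1) + Cθ +
            (Cθ * ρ + (CP + 1 + Cc * ω.support.card * C1 * (R0 + 1)) * (ρ + 1)) := by
        ring
      rw [e]
      exact Nat.le_add_right _ _
  · have a1 : linearCombination F2 (onFinset _ _ sup) (dd x) = linearCombination F2 c0 (dd x) :=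
      lc_congr fun a ha => by rw [onFinset_apply, if_pos (hx.face ha).1]
    have a2 : linearCombination F2 ζ (bdT F2 (H x)) = 0 := by
      rw [← lc_dd, ← lc_lc]
      by_contra e
      obtain ⟨a, ha, e2⟩ := exists_of_lc_ne_zero e
      exact e2 (z3 a (((hCH x hx).2 a ha).1.mono r2))
    rw [a1, hc0, lc_add, adj θ hD.coc, u1, pair_cap hD z2, a2, lc_lc, add_zero, add_assoc,
      CharTwo.add_self_eq_zero, add_zero, hζ, if_pos (hx.mono r1)]

end Pool.Agent.MP_4f4d9f_gt.Hy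

end

section

/-! Retraction of the bar complex onto small tuples in degrees at most three. -/

namespace Pool.Agent.MP_4f4d9f_gt.Hy

open Finsupp Sg Sg.Tup

namespace RipsL

variable {G : Type}

/-- Induction over chains mod 2 with a condition on the support. -/
theorem ind2 {S : Tup G → Prop} {P : T2 G → Prop} (h0 : P 0)
    (hadd : ∀ a b, P a → P b → P (a + b)) (h1 : ∀ x, S x → P (single x 1)) (c : T2 G)
    (hc : ∀ x ∈ c.support, S x) : P c := by
  classical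
  rw [← c.sum_single, Finsupp.sum]
  refine Finset.sum_induction _ P hadd h0 fun x hx => ?_
  have e : ∀ r : F2, r ≠ 0 → r = 1 := by decide
  rw [e _ (mem_support_iff.1 hx)]
  exact h1 x (hc x hx)

theorem lin_ext {M : Type} [AddCommGroup M] [Module F2 M] (A B : T2 G →ₗ[F2] M) (c : T2 G)
    (h : ∀ x ∈ c.support, A (single x 1) = B (single x 1)) : A c = B c :=
  ind2 (S := fun x => A (single x 1) = B (single x 1)) (P := fun c => A c = B c) (by simp)
    (fun a b ha hb => by simp only [map_add, ha, hb]) (fun _ h => h) c h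

variable [Group G] {ℓ : G → ℕ}

/-- Equivariant choice. -/
theorem eqv_choice (P : Tup G → T2 G → Prop)
    (hinv : ∀ (g : G) x c, P x c → P (g • x) (c.mapDomain (g • ·))) (hex : ∀ x, ∃ c, P x c) :
    ∃ f, EqvT f ∧ ∀ x, P x (f x) := by
  choose f0 hf0 using hex
  refine ⟨fun x => (f0 (x.hd⁻¹ • x)).mapDomain (x.hd • ·), fun g x => ?_, fun x => ?_⟩
  · have e : (g • x).hd⁻¹ • g • x = x.hd⁻¹ • x := by
      rw [smul_hd, mul_inv_rev, mul_smul, inv_smul_smul]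
    simp only [e, ← mapDomain_comp]
    congr 1
    funext y
    simp only [smul_hd, mul_smul, Function.comp]
  · have := hinv x.hd _ _ (hf0 (x.hd⁻¹ • x))
    rwa [smul_inv_smul] at this

variable (ℓ) in
/-- Chains supported on small tuples. -/
def Sup (j r : ℕ) (c : T2 G) : Prop := ∀ y ∈ c.support, Sc ℓ j r y

theorem Sup.zero (j r : ℕ) : Sup ℓ j r 0 := fun y hy => by simp at hy

theorem Sup.add {j r : ℕ} {a b : T2 G} (ha : Sup ℓ j r a) (hb : Sup ℓ j r b) :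
    Sup ℓ j r (a + b) := by
  classical
  exact fun y hy => (Finset.mem_union.1 (support_add hy)).elim (ha y) (hb y)

theorem Sup.single {j r : ℕ} {x : Tup G} (h : Sc ℓ j r x) : Sup ℓ j r (single x 1) :=
  fun _ hy => Finset.mem_singleton.1 (support_single_subset hy) ▸ h

theorem Sup.mono {j r r' : ℕ} {c : T2 G} (h : Sup ℓ j r c) (e : r ≤ r') : Sup ℓ j r' c :=
  fun y hy => (h y hy).mono e

theorem Sup.smul {j r : ℕ} {c : T2 G} (h : Sup ℓ j r c) (g : G) :
    Sup ℓ j r (c.mapDomain (g • ·)) := by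
  classical
  intro y hy
  obtain ⟨z, hz, rfl⟩ := Finset.mem_image.1 (mapDomain_support hy)
  exact (sc_smul g).2 (h z hz)

theorem Sup.lc {j r : ℕ} {f : Tup G → T2 G} (h : ∀ x, Sup ℓ j r (f x)) (c : T2 G) :
    Sup ℓ j r (linearCombination F2 f c) := fun y hy => by
  obtain ⟨x, -, e⟩ := mem_support_lc hy
  exact h x y e

theorem fill (hc : Cone ℓ) (j r : ℕ) : ∃ R, ∀ z, Sup ℓ (j + 1) r z → bdT F2 z = 0 →
    ∃ u, bdT F2 u = z ∧ Sup ℓ (j + 2) R u := by
  obtain ⟨R, C, h⟩ := hc j r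
  refine ⟨R, fun z hz h0 => ?_⟩
  obtain ⟨ρ, hρ⟩ := exists_bound (ℓ := ℓ) z.support 1
  obtain ⟨u, h1, -, h2⟩ := h z 1 ρ (fun x hx => ⟨hz x hx, (hρ x hx).2⟩) h0
  exact ⟨u, h1, fun y hy => (h2 y hy).1⟩

theorem path (h : Len ℓ) (m : ℕ) : ∀ a b : G, ℓ (a⁻¹ * b) = m → ∃ c e : T2 G, Sup ℓ 1 1 c ∧
    Sup ℓ 2 (max m 1) e ∧ bdT F2 e = c + single (edg a b) 1 := by
  induction m with
  | zero =>
    intro a b hab
    obtain rfl : a = b := inv_mul_eq_one.1 ((h.zero _).1 hab)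
    refine ⟨0, single (trg a a a) 1, Sup.zero _ _, Sup.single ((sc_trg h).2 ?_), ?_⟩
    · simp [(h.zero 1).2 rfl]
    · rw [← dd, dd_trg, add_self2]
  | succ m ih =>
    intro a b hab
    obtain ⟨t, h1, h2⟩ := h.geo _ m hab
    obtain ⟨c, e, hc, he, hb⟩ := ih a (b * t) (by rw [← mul_assoc]; exact h2)
    have h3 : ℓ ((b * t)⁻¹ * b) = 1 := by
      rw [mul_inv_rev, inv_mul_cancel_right, h.inv, h1]
    refine ⟨c + single (edg (b * t) b) 1, e + single (trg a (b * t) b) 1,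
      hc.add (Sup.single ((sc_edg h).2 h3.le)),
      (he.mono (by omega)).add (Sup.single ((sc_trg h).2 ⟨?_, ?_, ?_⟩)), ?_⟩
    · rw [← mul_assoc, h2]; omega
    · omega
    · omega
    · rw [map_add, hb, ← dd, dd_trg]
      have := add_self2 (single (edg a (b * t)) (1 : F2))
      rw [← add_zero (c + single (edg (b * t) b) 1 + single (edg a b) 1), ← this]
      abel

theorem path_chain (h : Len ℓ) {s : ℕ} (hs : 1 ≤ s) (z : T2 G) (hz : Sup ℓ 1 s z) :
    ∃ c e : T2 G, Sup ℓ 1 1 c ∧ Sup ℓ 2 s e ∧ bdT F2 e = c + z := by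
  refine ind2 (S := Sc ℓ 1 s)
    (P := fun z => ∃ c e : T2 G, Sup ℓ 1 1 c ∧ Sup ℓ 2 s e ∧ bdT F2 e = c + z)
    ⟨0, 0, Sup.zero _ _, Sup.zero _ _, by simp⟩ ?_ ?_ z hz
  · rintro a b ⟨c, e, h1, h2, h3⟩ ⟨c', e', h1', h2', h3'⟩
    exact ⟨c + c', e + e', h1.add h1', h2.add h2', by rw [map_add, h3, h3']; abel⟩
  · intro x hx
    obtain ⟨a, b, rfl⟩ := eq_edg hx.1
    obtain ⟨c, e, h1, h2, h3⟩ := path h _ a b rfl
    exact ⟨c, e, h1, h2.mono (max_le ((sc_edg h).1 hx) hs), h3⟩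

omit [Group G] in
theorem bd_eq {c z e : T2 G} (h : bdT F2 e = c + z) : bdT F2 c = bdT F2 z := by
  have := bdT_bdT e
  rw [h, map_add] at this
  rw [← sub_eq_zero, sub_eq_add2, this]

end RipsL

open RipsL

theorem rips_stmt : RipsStmt := by
  classical
  intro G _ ℓ h hc
  obtain ⟨R1, hR1⟩ := fill hc 0 1
  set s := max R1 1 with hsdef
  have hs : 1 ≤ s := le_max_right _ _
  have H1 : ∀ z, Sup ℓ 1 s z → bdT F2 z = 0 → ∃ u, bdT F2 u = z ∧ Sup ℓ 2 s u := by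
    intro z hz h0
    obtain ⟨c, e, h1, h2, h3⟩ := path_chain h hs z hz
    obtain ⟨u, h4, h5⟩ := hR1 c h1 (by rw [bd_eq h3, h0])
    refine ⟨u + e, ?_, (h5.mono (le_max_left _ _)).add h2⟩
    rw [map_add, h4, h3, ← add_assoc, add_self2, zero_add]
  obtain ⟨R, hR⟩ := fill hc 1 s
  obtain ⟨φ₁, e1, p1⟩ := eqv_choice
    (fun x c => Sup ℓ 1 s c ∧ (Sc ℓ 1 s x → c = single x 1) ∧ (x.deg = 1 → bdT F2 c = dd x))
    (fun g x c ⟨a1, a2, a3⟩ => ⟨a1.smul g,
      fun hx => by rw [a2 ((sc_smul g).1 hx), mapDomain_single],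
      fun hx => by rw [bdT_smul, a3 (by rwa [deg_smul] at hx), eqvT_dd]⟩)
    (fun x => by
      by_cases hx : Sc ℓ 1 s x
      · exact ⟨single x 1, Sup.single hx, fun _ => rfl, fun _ => rfl⟩
      by_cases hd : x.deg = 1
      · obtain ⟨a, b, rfl⟩ := eq_edg hd
        obtain ⟨c, e, h1, -, h3⟩ := path h _ a b rfl
        exact ⟨c, h1.mono hs, fun h => absurd h hx, fun _ => bd_eq h3⟩
      · exact ⟨0, Sup.zero _ _, fun h => absurd h hx, fun h => absurd h hd⟩)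
  obtain ⟨φ₂, e2, p2⟩ := eqv_choice
    (fun x c => Sup ℓ 2 s c ∧ (Sc ℓ 2 s x → c = single x 1) ∧
      (x.deg = 2 → bdT F2 c = linearCombination F2 φ₁ (dd x)))
    (fun g x c ⟨a1, a2, a3⟩ => ⟨a1.smul g,
      fun hx => by rw [a2 ((sc_smul g).1 hx), mapDomain_single],
      fun hx => by rw [bdT_smul, a3 (by rwa [deg_smul] at hx), eqvT_dd, e1.lc]⟩)
    (fun x => by
      by_cases hx : Sc ℓ 2 s x
      · refine ⟨single x 1, Sup.single hx, fun _ => rfl, fun _ => ?_⟩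
        refine (lin_ext (linearCombination F2 φ₁) LinearMap.id (dd x) fun y hy => ?_).symm
        rw [linearCombination_single, one_smul, (p1 y).2.1 (hx.face hy).1]
        rfl
      by_cases hd : x.deg = 2
      · obtain ⟨u, h1, h2⟩ := H1 (linearCombination F2 φ₁ (dd x)) (Sup.lc (fun y => (p1 y).1) _) (by
          refine (lin_ext (bdT F2 ∘ₗ linearCombination F2 φ₁) (bdT F2) (dd x)
            fun y hy => ?_).trans (bdT_bdT _)
          have := deg_of_mem_bdT hy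
          rw [LinearMap.comp_apply, linearCombination_single, one_smul, (p1 y).2.2 (by omega)]
          rfl)
        exact ⟨u, h2, fun h => absurd h hx, fun _ => h1⟩
      · exact ⟨0, Sup.zero _ _, fun h => absurd h hx, fun h => absurd h hd⟩)
  obtain ⟨φ₃, e3, p3⟩ := eqv_choice
    (fun x c => Sup ℓ 3 R c ∧ (x.deg = 3 → bdT F2 c = linearCombination F2 φ₂ (dd x)))
    (fun g x c ⟨a1, a3⟩ => ⟨a1.smul g,
      fun hx => by rw [bdT_smul, a3 (by rwa [deg_smul] at hx), eqvT_dd, e2.lc]⟩)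
    (fun x => by
      by_cases hd : x.deg = 3
      · obtain ⟨u, h1, h2⟩ := hR (linearCombination F2 φ₂ (dd x)) (Sup.lc (fun y => (p2 y).1) _) (by
          refine (lin_ext (bdT F2 ∘ₗ linearCombination F2 φ₂) (linearCombination F2 φ₁ ∘ₗ bdT F2)
            (dd x) fun y hy => ?_).trans ?_
          · have := deg_of_mem_bdT hy
            rw [LinearMap.comp_apply, linearCombination_single, one_smul, (p2 y).2.2 (by omega)]
            rfl
          · rw [LinearMap.comp_apply, dd, bdT_bdT, map_zero])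
        exact ⟨u, h2, fun _ => h1⟩
      · exact ⟨0, Sup.zero _ _, fun h => absurd h hd⟩)
  exact ⟨s, R, φ₁, φ₂, φ₃, hs, e1, e2, e3, fun x => (p1 x).1, fun x => (p2 x).1, fun x => (p3 x).1,
    fun x => (p1 x).2.1, fun x => (p2 x).2.1, fun x => (p1 x).2.2, fun x => (p2 x).2.2,
    fun x => (p3 x).2⟩

end Pool.Agent.MP_4f4d9f_gt.Hy

end

section

/-! The cohomological hypothesis in degree one. -/

namespace Pool.Agent.MP_4f4d9f_gt.Ku

open Finsupp Sg Sg.Tup Hy Hy.C01L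

theorem c1Q_stmt : C1QStmt := by
  classical
  intro G _ ℓ h s R φ₁ φ₂ φ₃ hR hC F hF
  obtain ⟨R', hc⟩ := hC s
  obtain ⟨C', hp⟩ := hR.e1.pull h 1 R'
  obtain ⟨Z, -, -, hZ⟩ := hp (hF.toFinset.image fun e => edg e.1 e.2)
  obtain ⟨c, -, h1⟩ := hc (fun x => linearCombination F2 (fun y => F y.hd) (dd x))
    (Z.finite_toSet.subset fun x ⟨hx, hne⟩ => by
      rw [← hR.b1 x hx.1, lc_bdT] at hne
      obtain ⟨y, hy, e⟩ := exists_of_lc_ne_zero hne
      have h2 := hR.s1 _ y hy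
      obtain ⟨a, b, rfl⟩ := eq_edg h2.1
      refine hZ x hx _ (Finset.mem_image.2 ⟨(a, b), hF.mem_toFinset.2
        ⟨h.mem_ball.2 ((sc_edg h).1 h2), ?_⟩, rfl⟩) hy
      rw [lc_edg, add_comm] at e
      exact e)
    (fun x _ => by rw [← lc_bdT, dd, bdT_bdT, map_zero])
  have h2 : ∀ x, F x + c (pt x) = F 1 + c (pt 1) := by
    intro x
    induction x using (h.gen hR.pos).ind with
    | h1 => rfl
    | h x t ht ih =>
      have h3 := h1 (edg x (x * t)) ((sc_edg h).2 (by simpa using h.mem_ball.1 ht))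
      rw [lc_edg, lc_edg] at h3
      change c (pt (x * t)) + c (pt x) = F (x * t) + F x at h3
      rw [← ih]
      revert h3
      generalize c (pt (x * t)) = a
      generalize c (pt x) = b
      generalize F (x * t) = u
      generalize F x = v
      revert a b u v
      decide
  have h3 : {x : G | c (pt x) ≠ 0}.Finite :=
    (c.support.finite_toSet.preimage (f := pt) fun a _ b _ e => congrArg hd e).subset
      fun x hx => mem_support_iff.2 hx
  have h4 : ∀ k : ZMod 2, k = 0 ∨ k = 1 := by decide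
  rcases h4 (F 1 + c (pt 1)) with e | e
  · refine Or.inl (h3.subset fun x hx h5 => hx ?_)
    have h6 := h2 x
    rwa [e, h5, add_zero] at h6
  · refine Or.inr (h3.subset fun x hx h5 => hx ?_)
    have h6 := h2 x
    rwa [e, h5, add_zero] at h6

end Pool.Agent.MP_4f4d9f_gt.Ku

end

section

/-! The isoperimetric inequality for coboundaries in degree two. -/

namespace Pool.Agent.MP_4f4d9f_gt.Hy

open Finsupp Sg Sg.Tup

namespace C2L

variable {G : Type}

theorem pair_comm {X : Type} (a b : X →₀ F2) :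
    linearCombination F2 (⇑a) b = linearCombination F2 (⇑b) a := by
  classical
  rw [linearCombination_apply, linearCombination_apply,
    sum_of_support_subset b (Finset.subset_union_right (s₁ := a.support)) _ (by simp),
    sum_of_support_subset a (Finset.subset_union_left (s₂ := b.support)) _ (by simp)]
  exact Finset.sum_congr rfl fun x _ => mul_comm _ _

theorem lc_congr {X M : Type} [AddCommGroup M] [Module F2 M] {f f' : X → M} {u : X →₀ F2}
    (h : ∀ x ∈ u.support, f x = f' x) : linearCombination F2 f u = linearCombination F2 f' u := by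
  rw [linearCombination_apply, linearCombination_apply]
  exact Finsupp.sum_congr fun x hx => by rw [h x hx]

theorem bdT_eq (u : T2 G) : bdT F2 u = linearCombination F2 dd u := by
  induction u using Finsupp.induction_linear with
  | zero => simp
  | add a b ha hb => simp only [map_add, ha, hb]
  | single x r => rw [linearCombination_single, dd, ← map_smul, smul_single_one]

variable {P : Tup G → Prop}

/-- Extension by zero. -/
noncomputable def inc (P : Tup G → Prop) : ({x // P x} →₀ F2) →ₗ[F2] T2 G :=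
  lmapDomain F2 F2 Subtype.val

theorem inc_apply (ζ : {x // P x} →₀ F2) (t : {x // P x}) : inc P ζ t.1 = ζ t :=
  mapDomain_apply Subtype.val_injective ζ t

theorem inc_mem {ζ : {x // P x} →₀ F2} {x : Tup G} (h : x ∈ (inc P ζ).support) :
    ∃ b ∈ ζ.support, b.1 = x := by
  classical
  exact Finset.mem_image.1 (mapDomain_support h)

theorem mem_inc {ζ : {x // P x} →₀ F2} {b : {x // P x}} (h : b ∈ ζ.support) :
    b.1 ∈ (inc P ζ).support := by
  rw [mem_support_iff, inc_apply]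
  exact mem_support_iff.1 h

theorem inc_card (ζ : {x // P x} →₀ F2) : (inc P ζ).support.card = ζ.support.card := by
  classical
  change (mapDomain Subtype.val ζ).support.card = _
  rw [mapDomain_support_of_injective Subtype.val_injective,
    Finset.card_image_of_injective _ Subtype.val_injective]

theorem exists_inc {u : T2 G} (h : ∀ x ∈ u.support, P x) : ∃ ζ, inc P ζ = u :=
  ⟨comapDomain Subtype.val u Subtype.val_injective.injOn,
    mapDomain_comapDomain _ Subtype.val_injective u fun x hx => ⟨⟨x, h x hx⟩, rfl⟩⟩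

variable [Group G] {ℓ : G → ℕ}

/-- The transpose of an equivariant map. -/
theorem exists_cob (h : Len ℓ) {f : Tup G → T2 G} (hf : EqvT f) (P : Tup G → Prop) (j r : ℕ) :
    ∃ (D : ℕ) (δ : ({x // P x} →₀ F2) →ₗ[F2] ({x // Sc ℓ j r x} →₀ F2)),
      (∀ ζ t, δ ζ t = linearCombination F2 (inc P ζ) (f t.1)) ∧
      ∀ b, (δ (single b 1)).support.card ≤ D ∧
        ∀ t ∈ (δ (single b 1)).support, ℓ (b.1.hd⁻¹ * t.1.hd) ≤ D := by
  classical
  obtain ⟨D, hD⟩ := hf.pull h j r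
  choose W h1 h2 h3 using hD
  let g : {x // P x} → ({x // Sc ℓ j r x} →₀ F2) := fun b =>
    onFinset ((W {b.1}).subtype _) (fun t => f t.1 b.1) fun t ht =>
      Finset.mem_subtype.2 (h3 _ _ t.2 _ (Finset.mem_singleton_self _) (mem_support_iff.2 ht))
  refine ⟨D, linearCombination F2 g, fun ζ t => ?_, fun b => ?_⟩
  · rw [pair_comm]
    induction ζ using Finsupp.induction_linear with
    | zero => simp
    | add a b ha hb => simp only [map_add, Finsupp.add_apply, ha, hb]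
    | single b r => simp [inc, g]
  · rw [linearCombination_single, one_smul]
    have hs : (g b).support ⊆ (W {b.1}).subtype _ := support_onFinset_subset
    refine ⟨(Finset.card_le_card hs).trans ?_, fun t ht => ?_⟩
    · rw [Finset.card_subtype]
      exact (Finset.card_filter_le _ _).trans (by simpa using h1 {b.1})
    · obtain ⟨-, y, hy, e⟩ := h2 _ _ (Finset.mem_subtype.1 (hs ht))
      rwa [Finset.mem_singleton.1 hy] at e

theorem fill (hS : SliceStmt) (h : Len ℓ) {s R : ℕ} {φ₁ φ₂ φ₃ : Tup G → T2 G}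
    (hR : Rips ℓ s R φ₁ φ₂ φ₃) (h2 : Cone2 ℓ s R φ₂) (h3 : Cone3 ℓ s R φ₂) :
    ∃ K, ∀ ζ : {x // Sc ℓ 2 s x} →₀ F2, (∀ t, Sc ℓ 3 R t →
        linearCombination F2 (inc _ ζ) (linearCombination F2 φ₂ (dd t)) = 0) →
      ∃ c : T2 G, (∀ t : {x // Sc ℓ 2 s x}, linearCombination F2 c (dd t.1) = ζ t) ∧
        c.support.card ^ 2 ≤ K * ζ.support.card ^ 3 := by
  obtain ⟨-, δ₁, e1, -⟩ := exists_cob h eqvT_dd (Sc ℓ 1 s) 2 s
  obtain ⟨D₁, δ₂, e2, l2⟩ := exists_cob h (hR.e2.comp eqvT_dd) (Sc ℓ 2 s) 3 R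
  obtain ⟨D₂, c2⟩ := h2
  obtain ⟨D₃, c3⟩ := h3
  have m1 : D₁ ≤ max D₁ (max D₂ D₃) := le_max_left _ _
  have m2 : D₂ ≤ max D₁ (max D₂ D₃) := (le_max_left _ _).trans (le_max_right _ _)
  have m3 : D₃ ≤ max D₁ (max D₂ D₃) := (le_max_right _ _).trans (le_max_right _ _)
  obtain ⟨K, hK⟩ := hS G ℓ _ _ _ (fun b => b.1.hd) (fun t => t.1.hd) δ₁ δ₂
    {ξ | ∀ τ : T2 G, (∀ a ∈ τ.support, Sc ℓ 3 R a ∧ ∀ b ∈ τ.support, ℓ (a.hd⁻¹ * b.hd) ≤ D₃) →
      linearCombination F2 φ₂ (bdT F2 τ) = 0 → linearCombination F2 (inc _ ξ) τ = 0}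
    (max D₁ (max D₂ D₃)) h
    { loc := fun b => ⟨(l2 b).1.trans m1, fun t ht => ((l2 b).2 t ht).trans m1⟩
      cyc := fun ζ τ hτ h0 => by
        have := congrArg (linearCombination F2 (inc _ ζ)) h0
        rw [map_zero, bdT_eq, apply_linearCombination, apply_linearCombination] at this
        rw [← this]
        exact lc_congr fun x hx => ((inc_apply _ ⟨x, (hτ x hx).1⟩).trans (e2 ζ _)).trans
          (apply_linearCombination _ _ _ _)
      split := fun ξ₁ ξ₂ hξ hd => by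
        have key : ∀ τ : T2 G, (∀ a ∈ τ.support, Sc ℓ 3 R a ∧
            ∀ b ∈ τ.support, ℓ (a.hd⁻¹ * b.hd) ≤ D₃) → linearCombination F2 φ₂ (bdT F2 τ) = 0 →
            linearCombination F2 (inc _ ξ₁) τ = 0 ∧ linearCombination F2 (inc _ ξ₂) τ = 0 := by
          intro τ hτ h0
          have k := hξ τ hτ h0
          rw [pair_comm, map_add, map_add, pair_comm τ, pair_comm τ] at k
          by_cases k1 : linearCombination F2 (inc _ ξ₁) τ = 0
          · exact ⟨k1, by rwa [k1, zero_add] at k⟩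
          by_cases k2 : linearCombination F2 (inc _ ξ₂) τ = 0
          · exact ⟨by rwa [k2, add_zero] at k, k2⟩
          obtain ⟨a, ha, a1⟩ := exists_of_lc_ne_zero k1
          obtain ⟨b, hb, b1⟩ := exists_of_lc_ne_zero k2
          obtain ⟨a', ha', rfl⟩ := inc_mem (mem_support_iff.2 a1)
          obtain ⟨b', hb', rfl⟩ := inc_mem (mem_support_iff.2 b1)
          exact absurd (((hτ _ ha).2 _ hb).trans m3) (not_le.2 (hd a' ha' b' hb'))
        exact ⟨fun τ hτ h0 => (key τ hτ h0).1, fun τ hτ h0 => (key τ hτ h0).2⟩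
      cone3 := fun ξ hξ y ρ hρ => by
        obtain ⟨η, k1, k2, k3⟩ := c3 (inc _ ξ) y ρ (fun x hx => by
          obtain ⟨b, hb, rfl⟩ := inc_mem hx
          exact ⟨b.2, hρ b hb⟩) hξ
        obtain ⟨η, rfl⟩ := exists_inc fun x hx => (k2 x hx).1
        rw [inc_card, inc_card] at k1
        refine ⟨η, Finsupp.ext fun t => ?_, k1.trans (by gcongr), fun b hb =>
          (k2 _ (mem_inc hb)).2.trans (by gcongr)⟩
        rw [e2, k3 _ t.2, inc_apply]
      cone2 := fun ζ hζ y ρ hρ => by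
        obtain ⟨c, k1, k2, k3⟩ := c2 (inc _ ζ) y ρ (fun x hx => by
          obtain ⟨b, hb, rfl⟩ := inc_mem hx
          exact ⟨b.2, hρ b hb⟩) fun t ht => by rw [← e2 ζ ⟨t, ht⟩, hζ, Finsupp.zero_apply]
        obtain ⟨c, rfl⟩ := exists_inc k2
        rw [inc_card, inc_card] at k1
        refine ⟨c, Finsupp.ext fun t => ?_, k1.trans (by gcongr)⟩
        rw [e1, k3 _ t.2, inc_apply] }
  refine ⟨K, fun ζ hζ => ?_⟩
  obtain ⟨c, k1, k2⟩ := hK ζ (Finsupp.ext fun t => by rw [e2, hζ _ t.2, Finsupp.zero_apply])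
  exact ⟨inc _ c, fun t => by rw [← e1, k1], by rwa [inc_card]⟩

/-- The first three vertices. -/
def tv (x : Tup G) : G × G × G := (x.hd, x.tl.headD 1, x.tl.tail.headD 1)

theorem tv_trg (a b c : G) : tv (trg a b c) = (a, b, c) := rfl

theorem tri_iff (h : Len ℓ) {s : ℕ} {a b c : G} :
    Tri (h.ball s) (a, b, c) ↔ Sc ℓ 2 s (trg a b c) := by
  simp only [Tri, h.mem_ball, sc_trg h]

omit [Group G] in
theorem lc_trg (f : Tup G → F2) (a b c : G) : linearCombination F2 f (dd (trg a b c)) =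
    d1 (fun e => f (edg e.1 e.2)) (a, b, c) := by
  simp [dd_trg, d1]

theorem bd_zero {s R : ℕ} {φ₁ φ₂ φ₃ : Tup G → T2 G} (hR : Rips ℓ s R φ₁ φ₂ φ₃) {t : Tup G}
    (ht : t.deg = 3) : bdT F2 (linearCombination F2 φ₂ (dd t)) = 0 := by
  have e : linearCombination F2 φ₁ (bdT F2 (dd t)) = 0 := by rw [dd, bdT_bdT, map_zero]
  rw [bdT_eq, apply_linearCombination] at e
  rw [apply_linearCombination, ← e]
  refine lc_congr fun x hx => hR.b2 x ?_
  have := deg_of_mem_bdT hx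
  omega

end C2L

open C2L

theorem c2_stmt (h : SliceStmt) : C2Stmt := by
  classical
  intro G _ ℓ hl s R φ₁ φ₂ φ₃ hR h2 h3
  obtain ⟨K, hK⟩ := fill h hl hR h2 h3
  refine ⟨K, fun w hw => ?_⟩
  have inj : Function.Injective fun b : {x // Sc ℓ 2 s x} => tv b.1 := by
    rintro ⟨x, hx⟩ ⟨y, hy⟩ e
    obtain ⟨a, b, c, rfl⟩ := eq_trg hx.1
    obtain ⟨a', b', c', rfl⟩ := eq_trg hy.1
    simp only [tv_trg, Prod.mk.injEq] at e
    obtain ⟨rfl, rfl, rfl⟩ := e
    rfl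
  have hm : ∀ b : {x // Sc ℓ 2 s x}, d1 w (tv b.1) ≠ 0 → tv b.1 ∈ hw.toFinset := by
    rintro ⟨x, hx⟩ e
    obtain ⟨a, b, c, rfl⟩ := eq_trg hx.1
    exact hw.mem_toFinset.2 ⟨(tri_iff hl).2 hx, e⟩
  let ζ : {x // Sc ℓ 2 s x} →₀ F2 := onFinset (hw.toFinset.preimage _ inj.injOn)
    (fun b => d1 w (tv b.1)) fun b hb => Finset.mem_preimage.2 (hm b hb)
  have hζ : ∀ b, ζ b = d1 w (tv b.1) := fun _ => rfl
  have hc : ζ.support.card ≤ (sp2 (hl.ball s) (d1 w)).ncard := by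
    rw [Set.ncard_eq_toFinset_card _ hw]
    exact Finset.card_le_card_of_injOn (fun b => tv b.1)
      (fun b hb => hm b (mem_support_iff.1 hb)) inj.injOn
  obtain ⟨c, k1, k2⟩ := hK ζ fun t ht => by
    have e := congrArg (linearCombination F2 fun x : Tup G => w (x.hd, x.tl.headD 1))
      (bd_zero hR ht.1)
    rw [map_zero, bdT_eq, apply_linearCombination] at e
    rw [← e]
    refine lc_congr fun x hx => ?_
    obtain ⟨y, -, hy⟩ := mem_support_lc hx
    have hx2 := hR.s2 y x hy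
    obtain ⟨a, b, c, rfl⟩ := eq_trg hx2.1
    rw [inc_apply ζ ⟨_, hx2⟩, hζ, Function.comp_apply, lc_trg]
    rfl
  have inj1 : Function.Injective fun e : G × G => edg e.1 e.2 := fun e e' k =>
    Prod.ext (congrArg Tup.hd k) (congrArg (fun x : Tup G => x.tl.headD 1) k)
  have hs : ∀ e ∈ sp1 (hl.ball s) fun e => c (edg e.1 e.2),
      edg e.1 e.2 ∈ (c.support : Set (Tup G)) := fun e he => mem_support_iff.2 he.2
  refine ⟨fun e => c (edg e.1 e.2), Set.Finite.of_injOn hs inj1.injOn (Finset.finite_toSet _),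
    ?_, ?_⟩
  · rintro ⟨a, b, d⟩ ht
    rw [← lc_trg, k1 ⟨_, (tri_iff hl).1 ht⟩, hζ]
    rfl
  · have := Set.ncard_le_ncard_of_injOn _ hs inj1.injOn (Finset.finite_toSet _)
    rw [Set.ncard_coe_finset] at this
    calc _ ≤ c.support.card ^ 2 := by gcongr
      _ ≤ K * ζ.support.card ^ 3 := k2
      _ ≤ _ := by gcongr

end Pool.Agent.MP_4f4d9f_gt.Hy

end

section

/-! Cone inequalities in degrees two and three of the finite type complex. -/

namespace Pool.Agent.MP_4f4d9f_gt.Hy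

open Finsupp Sg Sg.Tup

namespace Cone23L

theorem lc_comp {A B M : Type} [AddCommGroup M] [Module F2 M] (f : A → M) (φ : B → (A →₀ F2))
    (c : B →₀ F2) : linearCombination F2 (fun x => linearCombination F2 f (φ x)) c =
      linearCombination F2 f (linearCombination F2 φ c) :=
  (apply_linearCombination F2 (linearCombination F2 f) φ c).symm

theorem lc_congr {A M : Type} [AddCommGroup M] [Module F2 M] {f g : A → M} {c : A →₀ F2}
    (h : ∀ x ∈ c.support, f x = g x) : linearCombination F2 f c = linearCombination F2 g c := by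
  rw [linearCombination_apply, linearCombination_apply]
  exact Finsupp.sum_congr fun x hx => by rw [h x hx]

theorem lc_zero {A M : Type} [AddCommGroup M] [Module F2 M] {f : A → M} {c : A →₀ F2}
    (h : ∀ x ∈ c.support, f x = 0) : linearCombination F2 f c = 0 := by
  rw [lc_congr (g := fun _ => 0) h, linearCombination_apply]
  simp

theorem lc_single {A : Type} (c : A →₀ F2) :
    linearCombination F2 (fun x => single x (1 : F2)) c = c := by
  rw [linearCombination_apply]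
  simp only [smul_single, smul_eq_mul, mul_one]
  exact Finsupp.sum_single c

variable {G : Type}

theorem lc_dd (c : T2 G) : linearCombination F2 dd c = bdT F2 c := by
  conv_rhs => rw [← lc_single c, apply_linearCombination]
  rfl

variable [Group G] {ℓ : G → ℕ} {s R : ℕ} {φ₁ φ₂ φ₃ : Tup G → T2 G}

theorem sc2 (h : Rips ℓ s R φ₁ φ₂ φ₃) (c : T2 G) :
    ∀ y ∈ (linearCombination F2 φ₂ c).support, Sc ℓ 2 s y := fun _ hy =>
  (mem_support_lc hy).elim fun x hx => h.s2 x _ hx.2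

theorem sc3 (h : Rips ℓ s R φ₁ φ₂ φ₃) (c : T2 G) :
    ∀ y ∈ (linearCombination F2 φ₃ c).support, Sc ℓ 3 R y := fun _ hy =>
  (mem_support_lc hy).elim fun x hx => h.s3 x _ hx.2

theorem idem (h : Rips ℓ s R φ₁ φ₂ φ₃) (c : T2 G) :
    linearCombination F2 φ₂ (linearCombination F2 φ₂ c) = linearCombination F2 φ₂ c := by
  rw [lc_congr fun x hx => h.i2 x (sc2 h c x hx), lc_single]

theorem bd3 (h : Rips ℓ s R φ₁ φ₂ φ₃) {c : T2 G} (hc : ∀ x ∈ c.support, x.deg = 3) :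
    bdT F2 (linearCombination F2 φ₃ c) = linearCombination F2 φ₂ (bdT F2 c) := by
  rw [apply_linearCombination, ← lc_dd c, ← lc_comp]
  exact lc_congr fun x hx => h.b3 x (hc x hx)

theorem rad {ρ C : ℕ} : ρ + C + 1 ≤ (C + 1) * (ρ + 1) := by nlinarith [Nat.zero_le (C * ρ)]

theorem cone2 (hl : Len ℓ) (h : Rips ℓ s R φ₁ φ₂ φ₃) (h1 : CoCone ℓ 1) : Cone2 ℓ s R φ₂ := by
  obtain ⟨R2, C, hC⟩ := h1 s
  obtain ⟨C2, hp⟩ := h.e2.pull hl 2 R2
  refine ⟨C * (C2 + 1) * C2, fun ζ y ρ hζ hc => ?_⟩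
  obtain ⟨Z, z1, z2, z3⟩ := hp ζ.support
  obtain ⟨c, c1, c2, c3⟩ := hC (fun x => linearCombination F2 ζ (φ₂ x)) Z y (ρ + C2)
    (fun x hx e => by
      obtain ⟨a, ha, e'⟩ := exists_of_lc_ne_zero e
      exact z3 x hx a (mem_support_iff.2 e') ha)
    (fun x hx => by
      obtain ⟨a, ha, e⟩ := (z2 x hx).2
      exact (hl.tri y a.hd x.hd).trans (add_le_add (hζ a ha).2 e))
    (fun x hx => by
      rw [lc_comp, ← idem h, ← h.b3 x hx.1, ← lc_dd, ← lc_comp, ← lc_comp]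
      exact lc_zero fun t ht => (lc_comp _ _ _).trans (hc t (h.s3 x t ht)))
  refine ⟨c, c1.trans ?_, fun x hx => (c2 x hx).1, fun x hx => ?_⟩
  · calc C * (ρ + C2 + 1) * Z.card ≤ C * ((C2 + 1) * (ρ + 1)) * (C2 * ζ.support.card) :=
          Nat.mul_le_mul (Nat.mul_le_mul_left _ rad) z1
      _ = C * (C2 + 1) * C2 * (ρ + 1) * ζ.support.card := by ring
  · rw [c3 x hx, h.i2 x hx]
    simp

theorem cone3 (hl : Len ℓ) (h : Rips ℓ s R φ₁ φ₂ φ₃) (h1 : CoCone ℓ 2) : Cone3 ℓ s R φ₂ := by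
  classical
  obtain ⟨R2, C, hC⟩ := h1 R
  obtain ⟨C2, hp⟩ := h.e3.pull hl 3 R2
  obtain ⟨C3, h3⟩ := (h.e3.comp eqvT_dd).bound hl 4 R2
  obtain ⟨C4, h4⟩ := (h.e3.comp h.e3).bound hl 3 R
  refine ⟨C * (C2 + 1) * (C2 + 1) + 2 * C3 + 2 * C4, fun ξ y ρ hξ hc => ?_⟩
  obtain ⟨Z, z1, z2, z3⟩ := hp ξ.support
  have hd : ∀ (a : G) {K : ℕ} {τ : T2 G}, (∀ b ∈ τ.support, ℓ (a⁻¹ * b.hd) ≤ K) →
      ∀ b ∈ τ.support, ∀ b' ∈ τ.support, ℓ (b.hd⁻¹ * b'.hd) ≤ 2 * K := by
    intro a K τ e b hb b' hb'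
    have e1 := hl.tri b.hd a b'.hd
    have e2 := e b hb
    have e3 := e b' hb'
    rw [hl.symm] at e2
    omega
  obtain ⟨c, c1, c2, c3⟩ := hC (fun x => linearCombination F2 ξ (φ₃ x)) Z y (ρ + C2)
    (fun x hx e => by
      obtain ⟨a, ha, e'⟩ := exists_of_lc_ne_zero e
      exact z3 x hx a (mem_support_iff.2 e') ha)
    (fun x hx => by
      obtain ⟨a, ha, e⟩ := (z2 x hx).2
      exact (hl.tri y a.hd x.hd).trans (add_le_add (hξ a ha).2 e))
    (fun x hx => by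
      rw [lc_comp]
      refine hc _ (fun a ha => ⟨sc3 h _ a ha, fun b hb => ?_⟩) ?_
      · have := hd x.hd (fun b hb => ((h3 x hx).2 b hb).2) a ha b hb
        omega
      · rw [bd3 h (c := dd x) fun a ha => (Sc.face hx ha).1.1, dd, bdT_bdT, map_zero, map_zero])
  have hD : C * (C2 + 1) * (C2 + 1) ≤ C * (C2 + 1) * (C2 + 1) + 2 * C3 + 2 * C4 := by omega
  refine ⟨c.filter (Sc ℓ 2 s), ?_, fun x hx => ?_, fun t ht => ?_⟩
  · rw [support_filter]
    calc (c.support.filter (Sc ℓ 2 s)).card ≤ c.support.card := Finset.card_filter_le _ _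
      _ ≤ C * (ρ + C2 + 1) * Z.card := c1
      _ ≤ C * ((C2 + 1) * (ρ + 1)) * ((C2 + 1) * ξ.support.card) :=
          Nat.mul_le_mul (Nat.mul_le_mul_left _ rad)
            (z1.trans (Nat.mul_le_mul_right _ (Nat.le_succ _)))
      _ = C * (C2 + 1) * (C2 + 1) * (ρ + 1) * ξ.support.card := by ring
      _ ≤ _ := Nat.mul_le_mul_right _ (Nat.mul_le_mul_right _ hD)
  · rw [support_filter, Finset.mem_filter] at hx
    refine ⟨hx.2, (c2 x hx.1).2.trans ?_⟩
    calc C * (ρ + C2 + 1) ≤ C * ((C2 + 1) * (ρ + 1)) := Nat.mul_le_mul_left _ rad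
      _ = C * (C2 + 1) * 1 * (ρ + 1) := by ring
      _ ≤ C * (C2 + 1) * (C2 + 1) * (ρ + 1) :=
          Nat.mul_le_mul_right _ (Nat.mul_le_mul_left _ (Nat.le_add_left _ _))
      _ ≤ _ := Nat.mul_le_mul_right _ hD
  · have e1 : linearCombination F2 (c.filter (Sc ℓ 2 s)) (linearCombination F2 φ₂ (dd t))
        = linearCombination F2 ξ (linearCombination F2 φ₃ (φ₃ t)) := by
      rw [lc_congr (g := c) fun x hx => filter_apply_pos _ _ (sc2 h _ x hx), ← h.b3 t ht.1,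
        ← lc_dd, ← lc_comp, ← lc_comp]
      exact lc_congr fun x hx => c3 x (h.s3 t x hx)
    have e2 : ∀ a ∈ (linearCombination F2 φ₃ (φ₃ t) + single t 1).support,
        Sc ℓ 3 R a ∧ ℓ (t.hd⁻¹ * a.hd) ≤ C4 := by
      intro a ha
      rcases Finset.mem_union.1 (support_add ha) with ha | ha
      · exact ⟨sc3 h _ a ha, ((h4 t ht).2 a ha).2⟩
      · rw [Finset.mem_singleton.1 (support_single_subset ha), hl.self]
        exact ⟨ht, Nat.zero_le _⟩
    have e3 := hc (linearCombination F2 φ₃ (φ₃ t) + single t 1)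
      (fun a ha => ⟨(e2 a ha).1, fun b hb => by
        have := hd t.hd (fun b hb => (e2 b hb).2) a ha b hb
        omega⟩)
      (by rw [map_add, map_add, bd3 h fun a ha => (h.s3 t a ha).1, h.b3 t ht.1, idem h, idem h,
        ← dd, add_self2])
    rw [map_add, linearCombination_single, one_smul] at e3
    rw [e1]
    exact CharTwo.add_eq_zero.1 e3

end Cone23L

theorem cone23_stmt : Cone23Stmt := fun _ _ _ _ _ _ _ _ hl h =>
  ⟨Cone23L.cone2 hl h, Cone23L.cone3 hl h⟩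

end Pool.Agent.MP_4f4d9f_gt.Hy

end
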