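import Pool.Agent.Mg.F4f4d9fr.G30dcc0
import Pool.Agent.Mg.F4f4d9fr.G1d1abf

set_option linter.all false

section

/-! Nested components of the boundary of a set which separate two rays. -/

namespace Pool.Agent.MP_4f4d9f_gt.Ku

open Filter Topology Hy
open scoped Pointwise

namespace NstL

open NestedL

variable {G : Type} [Group G] {S : Finset G} {u : G → ℝ} {p q : Pt S u}
  {L P Q Φ Φ' : Set G} {w : G × G → ZMod 2} {r r' : ZMod 2}

theorem uniq (hc : CohQ S) (h : Par p q w r) (h' : Par p q w r') : r' = r := by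
  obtain ⟨F, h1, h2⟩ := h.add h'
  have h3 := hc.c1 F (h1.subset fun e he => ⟨he.1, fun k => he.2 (k.symm.trans (z_self _))⟩)
  have key : ∀ a : ZMod 2, {x | F x ≠ a}.Finite → r' = r := fun a ha => by
    obtain ⟨n, ⟨k1, k2⟩, k3⟩ := (((p.notMem ha).and (q.notMem ha)).and h2).exists
    rw [not_not.1 k1, not_not.1 k2, z_self] at k3
    exact z_eq _ _ k3.symm
  exact h3.elim (key 0) (key 1)

theorem cl_par (hS : Gen S) (hc : CohQ S) (hΦ : Φ.Finite) (h : Cl S (Bdy S L \ Φ) Q)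
    (hp : ∀ᶠ n in atTop, p.z n ∉ Bdy S L) (hq : ∀ᶠ n in atTop, q.z n ∉ Bdy S L) :
    ∃ r, Par p q (ww L Q) r := by
  have h1 := hΦ.mul S.finite_toSet
  have h2 := h1.mul S.finite_toSet
  obtain ⟨M, hM⟩ := hc.c2 (sp2 S (Hy.d1 (ww L Q))).ncard
  obtain ⟨c, c1, c2, -⟩ := hM (ww L Q) ((h1.prod (h1.prod h2)).subset fun t ht => by
    have := tri_mem (Φ := Φ) hS ht.1 fun k => ht.2 (h.d1 hS ht.1 k)
    exact ⟨this.1, this.2, mem_mul this.1 ht.1.2.1⟩) le_rfl
  obtain ⟨F, hF⟩ := hc.c0 (fun e => ww L Q e + c e) fun t ht => by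
    rw [← z_self (Hy.d1 c t)]
    nth_rewrite 1 [c2 t ht]
    unfold Hy.d1
    ring
  have h3 : {e | Edge S e ∧ ww L Q e ≠ d0 F e}.Finite := c1.subset fun e he =>
    ⟨he.1, fun k => he.2 (by rw [← hF e he.1, k, add_zero])⟩
  have key : ∀ m : Pt S u, (∀ᶠ n in atTop, m.z n ∉ Bdy S L) →
      ∃ a, ∀ᶠ n in atTop, F (m.z n) = a := fun m hm =>
    ev_const m (A := Qᶜ \ Prod.fst '' {e | Edge S e ∧ ww L Q e ≠ d0 F e})
      ((hm.and (m.notMem (h3.image Prod.fst))).mono fun n hn =>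
        ⟨fun k => hn.1 (h.1 k).1, hn.2⟩) off
  obtain ⟨a, ha⟩ := key p hp
  obtain ⟨b, hb⟩ := key q hq
  exact ⟨a + b, F, h3, (ha.and hb).mono fun n hn => by rw [hn.1, hn.2]⟩

theorem far (hS : Gen S) (hc : CohQ S) (h : Cl S (Bdy S L \ Φ) Q) {B : Set G}
    (hB : ∀ᶠ n in atTop, Conn S ((Bdy S L)ᶜ ∪ B) (p.z n) (q.z n))
    (h1 : ∀ x ∈ B ∪ Φ * (S : Set G), x ∉ Q) : Par p q (ww L Q) 0 := by
  obtain ⟨F, hF⟩ := hc.c0 (ww L Q) fun t ht => by
    by_cases k : t.1 ∉ Φ ∧ t.2.1 ∉ Φ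
    · exact h.d1 hS ht k
    · have := tri_mem hS ht k
      exact d1_zero ht fun _ _ => iff_of_false (h1 _ (Or.inr this.1)) (h1 _ (Or.inr this.2))
  refine ⟨F, Set.finite_empty.subset fun e he => he.2 (hF e he.1), hB.mono fun n hn => ?_⟩
  rw [const_of hn fun e he k => (hF e he).symm.trans (ww_not fun k' =>
    k.elim (fun k => k (h.1 k').1) fun k => h1 _ (Or.inl k) k'), z_self]

theorem nxt (hS : Gen S) (hc : CohQ S) (hp : ∀ᶠ n in atTop, p.z n ∉ Bdy S L)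
    (hq : ∀ᶠ n in atTop, q.z n ∉ Bdy S L) (hΦ : Φ'.Finite) (hs : Φ ⊆ Φ')
    (h : Cl S (Bdy S L \ Φ) Q) (h1 : Par p q (ww L Q) 1) :
    ∃ x ∈ Bdy S L \ Φ', {y | Conn S (Bdy S L \ Φ') x y} ⊆ Q ∧
      Par p q (ww L {y | Conn S (Bdy S L \ Φ') x y}) 1 := by
  have hsub : ∀ x ∈ Q, {y | Conn S (Bdy S L \ Φ') x y} ⊆ Q := fun x hx y hy =>
    Conn.ind (P := fun y => y ∈ Q) hy hx fun a b _ hb e ha =>
      h.2 a ha b ⟨hb.1, fun k => hb.2 (hs k)⟩ e
  by_contra hne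
  have h2 : ∀ x ∈ Q \ Φ', Par p q (ww L {y | Conn S (Bdy S L \ Φ') x y}) 0 := fun x hx => by
    obtain ⟨r, hr⟩ := cl_par hS hc hΦ (cl_comp (Bdy S L \ Φ') x) hp hq
    rcases z_dich r with rfl | rfl
    · exact hr
    · exact absurd ⟨x, ⟨(h.1 hx.1).1, hx.2⟩, hsub x hx.1, hr⟩ hne
  obtain ⟨B, hB, hB'⟩ := exists_path hS hp hq
  have hZ : ((B ∪ Φ' * (S : Set G)) ∩ (Q \ Φ')).Finite :=
    (hB.union (hΦ.mul S.finite_toSet)).inter_of_left _
  have h3 := par_biUnion hS hZ fun x hx => h2 x hx.2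
  set U := ⋃ x ∈ (B ∪ Φ' * (S : Set G)) ∩ (Q \ Φ'), {y | Conn S (Bdy S L \ Φ') x y} with hU
  have hUQ : U ⊆ Q \ Φ' := fun y hy => by
    obtain ⟨x, k1, k2⟩ := Set.mem_iUnion₂.1 hy
    exact ⟨hsub x k1.2.1 k2, (Conn.right k2).2⟩
  have h4 : Par p q (ww L ((Q \ Φ') \ U)) 0 := by
    refine far (Φ := Φ') hS hc ⟨fun y hy => ⟨(h.1 hy.1.1).1, hy.1.2⟩, fun a ha b hb e =>
      ⟨⟨h.2 a ha.1.1 b ⟨hb.1, fun k => hb.2 (hs k)⟩ e, hb.2⟩, fun k => ha.2 ?_⟩⟩ hB'
      fun x hx k => k.2 (Set.mem_iUnion₂.2 ⟨x, ⟨hx, k.1⟩, Conn.refl ⟨(h.1 k.1.1).1, k.1.2⟩⟩)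
    obtain ⟨x, k1, k2⟩ := Set.mem_iUnion₂.1 k
    exact Set.mem_iUnion₂.2 ⟨x, k1, Conn.tail k2 ⟨(h.1 ha.1.1).1, ha.1.2⟩ (hS.symm e)⟩
  have h5 := Par.union Set.disjoint_sdiff_right h3 h4
  rw [Set.union_sdiff_cancel hUQ] at h5
  have h6 := Par.union Set.disjoint_sdiff_inter h5 (par_finite (hΦ.inter_of_right Q))
  rw [Set.sdiff_union_inter] at h6
  exact zero_ne_one (uniq hc h1 h6)

theorem z_ne : ∀ a b c : ZMod 2, b + c = 0 → (b = a ↔ c = a) := by decide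

theorem z_one : ∀ a b c : ZMod 2, b + c = 1 → b = a → ¬c = a := by decide

theorem sep (hp : ∀ᶠ n in atTop, p.z n ∉ Q) (h : Par p q (ww L Q) 1) :
    ∃ F : Set G, (Bdy S F \ Q).Finite ∧ (∀ᶠ n in atTop, p.z n ∈ F) ∧
      ∀ᶠ n in atTop, q.z n ∉ F := by
  obtain ⟨F, h1, h2⟩ := h
  obtain ⟨a, ha⟩ := ev_const p (A := Qᶜ \ Prod.fst '' {e | Edge S e ∧ ww L Q e ≠ d0 F e})
    (hp.and (p.notMem (h1.image Prod.fst))) off
  refine ⟨{x | F x = a}, (h1.image Prod.fst).subset ?_, ha,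
    (h2.and ha).mono fun n hn => z_one a _ _ hn.1 hn.2⟩
  rintro x ⟨⟨s, hs, k⟩, hx⟩
  by_contra e
  have he : Edge S (x, x * s) := by simpa [Edge] using hs
  exact k (z_ne a _ _ (off (L := L) (x, x * s) he ⟨hx, e⟩))

end NstL

open NestedL NstL in
theorem nst_stmt : NstStmt := by
  intro G _ S hS hc L p₀ q₀ rp rq hp hq Φ hΦ hm
  let p : Pt S fun _ => 0 := ⟨p₀, rp.step, rp.esc, fun _ => 0, fun _ => tendsto_const_nhds⟩
  let q : Pt S fun _ => 0 := ⟨q₀, rq.step, rq.esc, fun _ => 0, fun _ => tendsto_const_nhds⟩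
  have hp' : ∀ᶠ n in atTop, p.z n ∉ Bdy S L := hp.mono fun _ h => h.2
  have hq' : ∀ᶠ n in atTop, q.z n ∉ Bdy S L := hq.mono fun _ h => h.2
  obtain ⟨Q, h1, h2⟩ := exists_seq (R := fun k Q => ∃ x ∈ Bdy S L \ Φ k,
      Q = {y | Conn S (Bdy S L \ Φ k) x y} ∧ Par p q (ww L Q) 1)
    (by
      obtain ⟨x, k1, -, k2⟩ := nxt (Φ := ∅) hS hc hp' hq' (hΦ 0) (Set.empty_subset _)
        ⟨fun _ k => ⟨k, id⟩, fun _ _ _ k _ => k.1⟩ (par_bdy hp hq)
      exact ⟨_, x, k1, rfl, k2⟩)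
    (by
      rintro k _ ⟨x, -, rfl, k2⟩
      obtain ⟨y, k3, k4, k5⟩ := nxt hS hc hp' hq' (hΦ (k + 1)) (hm (Nat.le_succ k))
        (cl_comp _ x) k2
      exact ⟨_, ⟨y, k3, rfl, k5⟩, k4⟩)
  refine ⟨Q, h1, fun k => ?_⟩
  obtain ⟨x, k1, k2, k3⟩ := h2 k
  have k4 : Q k ⊆ Bdy S L \ Φ k := k2 ▸ (cl_comp _ x).1
  exact ⟨k4, ⟨x, k2 ▸ Conn.refl k1⟩, k2 ▸ cnn_comp hS _ x,
    sep (hp'.mono fun n hn e => hn (k4 e).1) k3⟩

end Pool.Agent.MP_4f4d9f_gt.Ku

end

section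

/-! Exponential decay of the energy of a potential on the half spaces of another one. -/

namespace Pool.Agent.MP_4f4d9f_gt.Ku

open Filter Topology Hy

namespace DecL

variable {G : Type} [Group G] {S : Finset G} {f g ψ η : G → ℝ} {a b a' b' : G}

theorem summ (hη : Dir S η) (A : Set G) :
    Summable (Set.indicator A fun x => DD S η x ^ 2) := Summable.indicator hη.dd A

theorem band_le (hη : Dir S η) (t : ℝ) (T : Finset G) (hT : ∀ x ∈ T, t < ψ x ∧ ψ x ≤ t + 4) :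
    ∑ x ∈ T, DD S η x ^ 2 ≤ ee S η ψ t - ee S η ψ (t + 4) := by
  unfold ee
  rw [← (summ hη _).tsum_sub (summ hη _)]
  refine le_trans (le_of_eq (Finset.sum_congr rfl fun x hx => ?_))
    (Summable.sum_le_tsum T (fun x _ => ?_) ((summ hη _).sub (summ hη _)))
  · rw [Set.indicator_of_mem (show x ∈ {x | t < ψ x} from (hT x hx).1),
      Set.indicator_of_notMem (show x ∉ {x | t + 4 < ψ x} from not_lt.2 (hT x hx).2), sub_zero]
  · refine sub_nonneg.2 (Set.indicator_le_indicator_of_subset (fun y hy => ?_)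
      (fun _ => sq_nonneg _) x)
    have h : t + 4 < ψ y := hy
    change t < ψ y
    linarith

theorem dir_mul (hf : Dir S f) (hg : Dir S g) {B B' : ℝ} (h1 : ∀ x, |f x| ≤ B)
    (h2 : ∀ x, |g x| ≤ B') : Dir S fun x => f x * g x := fun s hs => by
  refine (((hg s hs).abs.const_mul B).add ((hf s hs).abs.const_mul B')).of_le fun x => ?_
  refine le_trans ?_ (le_abs_self _)
  have e : f (x * s) * g (x * s) - f x * g x =
      f (x * s) * (g (x * s) - g x) + g x * (f (x * s) - f x) := by ring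
  rw [e]
  refine (abs_add_le _ _).trans (add_le_add ?_ ?_)
  · rw [abs_mul]
    exact mul_le_mul_of_nonneg_right (h1 _) (abs_nonneg _)
  · rw [abs_mul]
    exact mul_le_mul_of_nonneg_right (h2 _) (abs_nonneg _)

/-- A termwise comparison of the energy with an error term. -/
theorem en_le {h k : G → ℝ} (hf : Dir S f) (hg : Dir S g) (hh : Dir S h) (hk : Dir S k) (c : ℝ)
    (e : ∀ x, ∀ s ∈ S, (h (x * s) - h x) ^ 2 ≤
      (f (x * s) - f x) * (g (x * s) - g x) + c * (k (x * s) - k x) ^ 2) :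
    En S h ≤ BB S f g + c * En S k := by
  rw [En, En, BB, Finset.mul_sum, ← Finset.sum_add_distrib]
  refine Finset.sum_le_sum fun s hs => ?_
  have h1 := bb_summable hf hg hs
  have h2 : Summable fun x => c * (k (x * s) - k x) ^ 2 := Summable.mul_left c (hk s hs)
  rw [← tsum_mul_left, ← h1.tsum_add h2]
  exact Summable.tsum_le_tsum (fun x => e x s hs) (hh s hs) (h1.add h2)

theorem ind_le (hη : Dir S η) (hf : Dir S f) (A : Set G)
    (e : ∀ x ∈ A, ∀ s ∈ S, η (x * s) - η x = f (x * s) - f x) :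
    ∑' x, Set.indicator A (fun x => DD S η x ^ 2) x ≤ S.card * En S f := by
  have h1 : Summable fun x => ∑ s ∈ S, (f (x * s) - f x) ^ 2 := summable_sum fun s hs => hf s hs
  rw [En, ← Summable.tsum_finsetSum fun s hs => hf s hs, ← tsum_mul_left]
  refine Summable.tsum_le_tsum (fun x => ?_) (summ hη A) (h1.mul_left _)
  by_cases hx : x ∈ A
  · rw [Set.indicator_of_mem hx, DD]
    refine sq_sum_le_card_mul_sum_sq.trans (le_of_eq ?_)
    congr 1
    exact Finset.sum_congr rfl fun s hs => by rw [sq_abs, e x hx s hs]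
  · rw [Set.indicator_of_notMem hx]
    positivity

theorem ends (hS : Gen S) {A : Set G} {x s : G} (hs : s ∈ S) (h : x ∈ A ∨ x * s ∈ A) :
    x ∈ A ∪ Bdy S A ∧ x * s ∈ A ∪ Bdy S A := by
  have e : x⁻¹ * (x * s) ∈ S := by rwa [inv_mul_cancel_left]
  by_cases h1 : x ∈ A <;> by_cases h2 : x * s ∈ A
  · exact ⟨Or.inl h1, Or.inl h2⟩
  · exact ⟨Or.inl h1, Or.inr (Cr.right hS (L := A) (fun k => h2 (k.1 h1)) e)⟩
  · exact ⟨Or.inr (Cr.left (L := A) (fun k => h1 (k.2 h2)) e), Or.inl h2⟩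
  · exact absurd h (not_or.2 ⟨h1, h2⟩)

theorem trunc_lip (p q u v : ℝ) : |max p (min q u) - max p (min q v)| ≤ |u - v| := by
  rw [max_comm p, max_comm p]
  refine (abs_max_sub_max_le_abs _ _ _).trans ?_
  refine (abs_min_sub_min_le_max _ _ _ _).trans ?_
  rw [sub_self, abs_zero]
  exact max_le (abs_nonneg _) le_rfl

/-- The inequality of Caccioppoli type. -/
theorem cacc (hS : Gen S) (hD : DF S) (hψ : Dip S ψ a b) (hη : Dip S η a' b') {t₀ r w : ℝ}
    (htr : t₀ ≤ r) (ha : ψ a' ≤ r) (hb : ψ b' ≤ r) (hw : 0 ≤ w)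
    (ho : ∀ x ∈ {x | t₀ < ψ x} ∪ Bdy S {x | t₀ < ψ x},
      ∀ y ∈ {x | t₀ < ψ x} ∪ Bdy S {x | t₀ < ψ x}, |η x - η y| ≤ w) :
    ee S η ψ (r + 2) ≤ S.card * w ^ 2 := by
  by_cases hA : ∃ a₀, t₀ < ψ a₀
  swap
  · have e : {x | r + 2 < ψ x} = ∅ := by
      refine Set.eq_empty_of_forall_notMem fun x hx => hA ⟨x, ?_⟩
      have h : r + 2 < ψ x := hx
      linarith
    rw [ee, e]
    simp only [Set.indicator_empty, tsum_zero]
    positivity
  obtain ⟨a₀, h₀⟩ := hA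
  obtain ⟨u, hu⟩ : ∃ u : G → ℝ, u = fun x => max (-w) (min w (η x - η a₀)) := ⟨_, rfl⟩
  obtain ⟨χ, hχ⟩ : ∃ χ : G → ℝ, χ = fun x => max r (min (r + 1) (ψ x)) - r := ⟨_, rfl⟩
  have du : Dir S u := by
    rw [hu]
    exact (hη.dir.sub (dir_const (η a₀))).lip (φ := fun z => max (-w) (min w z))
      (trunc_lip _ _)
  have dχ : Dir S χ := by
    rw [hχ]
    exact (hψ.dir.lip (φ := fun z => max r (min (r + 1) z)) (trunc_lip _ _)).sub (dir_const r)
  have bu : ∀ x, |u x| ≤ w := fun x => by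
    rw [hu, abs_le]
    exact ⟨le_max_left _ _, max_le (by linarith) (min_le_left _ _)⟩
  have bχ : ∀ x, |χ x| ≤ 1 := fun x => by
    rw [hχ, abs_le]
    have h1 : r ≤ max r (min (r + 1) (ψ x)) := le_max_left _ _
    have h2 : max r (min (r + 1) (ψ x)) ≤ r + 1 := max_le (by linarith) (min_le_left _ _)
    constructor <;> linarith
  have eu : ∀ x ∈ {x | t₀ < ψ x} ∪ Bdy S {x | t₀ < ψ x}, u x = η x - η a₀ := fun x hx => by
    have h := abs_le.1 (ho x hx a₀ (Or.inl h₀))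
    rw [hu]
    change max (-w) (min w (η x - η a₀)) = _
    rw [min_eq_right h.2, max_eq_right h.1]
  have χ0 : ∀ x, ψ x ≤ r → χ x = 0 := fun x hx => by
    rw [hχ]
    change max r (min (r + 1) (ψ x)) - r = 0
    rw [max_eq_left ((min_le_right _ _).trans hx), sub_self]
  have χ1 : ∀ x, r + 1 ≤ ψ x → χ x = 1 := fun x hx => by
    rw [hχ]
    change max r (min (r + 1) (ψ x)) - r = 1
    rw [min_eq_left hx, max_eq_right (by linarith)]
    ring
  have eχ : En S χ ≤ 1 := by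
    have h := hD.slab ψ a b hψ r (r + 1) (by linarith)
    have e : En S χ = En S fun x => max r (min (r + 1) (ψ x)) := by
      rw [hχ]
      simp only [En, sub_sub_sub_cancel_right]
    rw [e]
    linarith
  have d1 : Dir S fun x => χ x * u x := dir_mul dχ du bχ bu
  have b1 : ∀ x, |χ x * u x| ≤ w := fun x => by
    rw [abs_mul]
    exact (mul_le_of_le_one_left (abs_nonneg _) (bχ x)).trans (bu x)
  have d2 : Dir S fun x => χ x * (χ x * u x) := dir_mul dχ d1 bχ b1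
  have z : BB S η (fun x => χ x * (χ x * u x)) = 0 := by
    rw [hη.rep _ d2, χ0 a' ha, χ0 b' hb]
    ring
  have en1 := en_le hη.dir d2 d1 dχ (w ^ 2) fun x s hs => by
    by_cases h : x ∈ {x | t₀ < ψ x} ∨ x * s ∈ {x | t₀ < ψ x}
    · obtain ⟨e1, e2⟩ := ends hS hs h
      have e3 : η (x * s) - η x = u (x * s) - u x := by
        rw [eu _ e1, eu _ e2]
        ring
      have e4 : u x * u (x * s) ≤ w ^ 2 := by
        refine (le_abs_self _).trans ?_
        rw [abs_mul, sq]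
        exact mul_le_mul (bu _) (bu _) (abs_nonneg _) hw
      have e5 := mul_le_mul_of_nonneg_right e4 (sq_nonneg (χ (x * s) - χ x))
      rw [e3]
      nlinarith
    · rw [not_or] at h
      have e1 : ψ x ≤ r := (not_lt.1 h.1).trans htr
      have e2 : ψ (x * s) ≤ r := (not_lt.1 h.2).trans htr
      rw [χ0 _ e1, χ0 _ e2]
      simp
  have en2 : En S (fun x => χ x * u x) ≤ w ^ 2 := by
    have := mul_le_mul_of_nonneg_left eχ (sq_nonneg w)
    linarith
  refine (ind_le hη.dir d1 _ fun x hx s hs => ?_).trans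
    (mul_le_mul_of_nonneg_left en2 (Nat.cast_nonneg _))
  have h1 : r + 2 < ψ x := hx
  have h2 := abs_le.1 (hD.lip ψ a b hψ x s hs)
  have h3 : t₀ < ψ x := by linarith
  have h4 : t₀ < ψ (x * s) := by linarith [h2.1]
  rw [χ1 x (by linarith), χ1 (x * s) (by linarith [h2.1]), eu x (Or.inl h3),
    eu (x * s) (Or.inl h4)]
  ring

end DecL

open DecL in
theorem dec_stmt : DecStmt := by
  intro G _ S hS hD hO
  obtain ⟨c, hc⟩ : ∃ c : ℝ, c = 320 * (S.card : ℝ) ^ 2 := ⟨_, rfl⟩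
  have c0 : 0 ≤ c := by rw [hc]; positivity
  refine ⟨c / (1 + c), by positivity, by rw [div_lt_one (by linarith)]; linarith, ?_⟩
  intro ψ a b η a' b' hψ hη t ha hb
  obtain ⟨D, hDD⟩ : ∃ D : ℝ, D = ee S η ψ t - ee S η ψ (t + 4) := ⟨_, rfl⟩
  have D0 : 0 ≤ D := by
    have := band_le (ψ := ψ) hη.dir t ∅ (by simp)
    rw [hDD]
    simpa using this
  have N0 : (0 : ℝ) ≤ S.card := Nat.cast_nonneg _
  obtain ⟨t₀, -, h2, h3⟩ := hO ψ a b η a' b' hψ hη (t + 3 / 2) (t + 2) (√(D * (5 * S.card)))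
    (by linarith) (by linarith) (by linarith) fun T hT => by
      refine (le_abs_self _).trans (Real.abs_le_sqrt ?_)
      refine (Finset.sum_mul_sq_le_sq_mul_sq _ _ _).trans ?_
      have e1 := band_le (ψ := ψ) hη.dir t T fun x hx => ⟨by linarith [(hT x hx).1], by
        linarith [(hT x hx).2]⟩
      have e2 := hD.band ψ a b hψ (t + 3 / 2 - 1) (t + 2 + 1) (by linarith) T hT
      rw [← hDD] at e1
      refine mul_le_mul e1 (by nlinarith) (Finset.sum_nonneg fun _ _ => sq_nonneg _) D0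
  have e : 4 * √(D * (5 * S.card)) / (t + 2 - (t + 3 / 2)) = 8 * √(D * (5 * S.card)) := by
    have : t + 2 - (t + 3 / 2) = 1 / 2 := by ring
    rw [this]
    ring
  rw [e] at h3
  have k := cacc hS hD hψ hη (r := t + 2) h2.le (by linarith) (by linarith) (by positivity) h3
  have e2 : t + 2 + 2 = t + 4 := by ring
  rw [e2, mul_pow, Real.sq_sqrt (by positivity)] at k
  have k2 : ee S η ψ (t + 4) ≤ c * D := by
    rw [hc]
    linarith
  rw [div_mul_eq_mul_div, le_div_iff₀ (by linarith)]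
  rw [hDD] at k2
  linarith

end Pool.Agent.MP_4f4d9f_gt.Ku

end

section

/-! Continuity of functions whose gradient is controlled by finitely many potentials. -/

namespace Pool.Agent.MP_4f4d9f_gt.Ku

open Filter Topology Hy

namespace ContL

variable {G : Type} [Group G] {S : Finset G}

theorem abs_bb_le {η f : G → ℝ} (hη : Dir S η) (hf : Dir S f) {c : ℝ}
    (h : ∀ T : Finset G, ∑ a ∈ T, DD S η a * DD S f a ≤ c) : |BB S η f| ≤ c := by
  have hs : HasSum (fun a => ∑ s ∈ S, (η (a * s) - η a) * (f (a * s) - f a)) (BB S η f) :=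
    hasSum_sum fun s hs => (bb_summable hη hf hs).hasSum
  have ht : Tendsto (fun T : Finset G => ∑ a ∈ T, ∑ s ∈ S, (η (a * s) - η a) * (f (a * s) - f a))
      atTop (𝓝 (BB S η f)) := hs
  refine le_of_tendsto' ht.abs fun T => (Finset.abs_sum_le_sum_abs _ _).trans
    ((Finset.sum_le_sum fun a _ => (Finset.abs_sum_le_sum_abs _ _).trans ?_).trans (h T))
  rw [DD, Finset.sum_mul]
  refine Finset.sum_le_sum fun s hs => ?_
  rw [abs_mul]
  exact mul_le_mul_of_nonneg_left (le_dd f a hs) (abs_nonneg _)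

theorem dd_sub_le (f g : G → ℝ) (a : G) :
    DD S (fun x => f x - g x) a ≤ DD S f a + DD S g a := by
  rw [DD, DD, DD, ← Finset.sum_add_distrib]
  refine Finset.sum_le_sum fun s _ => le_trans (le_of_eq ?_) (abs_sub _ _)
  congr 1
  ring

end ContL

open ContL in
theorem cont_stmt : ContStmt := by
  classical
  intro G _ S φ hS hP hT f C U C0 hf ε hε
  have hd : Dir S f := fun s hs =>
    ((Sq.sum U fun u _ => (hP.dir u s hs).abs).const_mul C).of_le fun x =>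
      (hf x s hs).trans (le_abs_self _)
  have hdd : ∀ a, DD S f a ≤ C * ∑ u ∈ U, DD S (φ u) a := fun a => by
    simp only [DD]
    rw [Finset.sum_comm, Finset.mul_sum]
    exact Finset.sum_le_sum fun s hs => hf a s hs
  have k0 : 0 < C * U.card + 1 := by positivity
  choose Φ hΦ using fun u => hT u (ε / 8 / (C * U.card + 1)) (by positivity)
  obtain ⟨Ψ, hΨ⟩ : ∃ Ψ : Finset G, ∀ u ∈ U, Φ u ⊆ Ψ :=
    ⟨U.biUnion Φ, fun u hu => Finset.subset_biUnion_of_mem Φ hu⟩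
  have far : ∀ (x : G) (T : Finset G), Disjoint T Ψ →
      ∑ a ∈ T, DD S (φ x) a * DD S f a ≤ ε / 8 := fun x T h =>
    calc ∑ a ∈ T, DD S (φ x) a * DD S f a
        ≤ ∑ a ∈ T, DD S (φ x) a * (C * ∑ u ∈ U, DD S (φ u) a) :=
          Finset.sum_le_sum fun a _ => mul_le_mul_of_nonneg_left (hdd a) (dd_nonneg _ _ _)
      _ = C * ∑ u ∈ U, ∑ a ∈ T, DD S (φ x) a * DD S (φ u) a := by
          rw [Finset.sum_comm, Finset.mul_sum]
          exact Finset.sum_congr rfl fun a _ => by rw [← Finset.mul_sum, mul_left_comm]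
      _ ≤ C * (U.card * (ε / 8 / (C * U.card + 1))) := by
          refine mul_le_mul_of_nonneg_left ?_ C0
          rw [← nsmul_eq_mul]
          exact Finset.sum_le_card_nsmul _ _ _ fun u hu => hΦ u x T (h.mono_right (hΨ u hu))
      _ ≤ (C * U.card + 1) * (ε / 8 / (C * U.card + 1)) := by
          rw [← mul_assoc]
          gcongr
          linarith
      _ = ε / 8 := mul_div_cancel₀ _ k0.ne'
  obtain ⟨B, hB⟩ : ∃ B, B = 2 * (S.card : ℝ) * ∑ a ∈ Ψ, DD S f a := ⟨_, rfl⟩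
  have B0 : 0 ≤ B := hB ▸ mul_nonneg (by positivity) (Finset.sum_nonneg fun a _ => dd_nonneg _ _ _)
  refine ⟨Ψ ∪ Finset.image₂ (· * ·) Ψ S, ε / 2 / (B + 1), by positivity, fun x y hxy => ?_⟩
  have hη := (hP.dip x).sub (hP.dip y)
  have near : ∀ a ∈ Ψ, DD S (fun w => φ x w - φ y w) a ≤ 2 * S.card * (ε / 2 / (B + 1)) := by
    intro a ha
    rw [mul_comm 2, mul_assoc, ← nsmul_eq_mul]
    refine Finset.sum_le_card_nsmul _ _ _ fun s hs => (abs_sub _ _).trans ?_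
    have h1 := hxy a (Finset.mem_union_left _ ha)
    have h2 := hxy (a * s) (Finset.mem_union_right _ (Finset.mem_image₂_of_mem ha hs))
    rw [hP.symm _ x, hP.symm _ y] at h1 h2
    linarith
  rw [← hη.rep f hd]
  refine (abs_bb_le (c := ε / 2 + ε / 4) hη.dir hd fun T => ?_).trans_lt (by linarith)
  rw [← Finset.sum_inter_add_sum_sdiff T Ψ]
  refine add_le_add ?_ ?_
  · calc ∑ a ∈ T ∩ Ψ, DD S (fun w => φ x w - φ y w) a * DD S f a
        ≤ ∑ a ∈ Ψ, DD S (fun w => φ x w - φ y w) a * DD S f a :=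
          Finset.sum_le_sum_of_subset_of_nonneg Finset.inter_subset_right fun _ _ _ =>
            mul_nonneg (dd_nonneg _ _ _) (dd_nonneg _ _ _)
      _ ≤ ∑ a ∈ Ψ, 2 * S.card * (ε / 2 / (B + 1)) * DD S f a :=
          Finset.sum_le_sum fun a ha => mul_le_mul_of_nonneg_right (near a ha) (dd_nonneg _ _ _)
      _ = B * (ε / 2 / (B + 1)) := by rw [← Finset.mul_sum, mul_right_comm, ← hB]
      _ ≤ (B + 1) * (ε / 2 / (B + 1)) := by
          gcongr
          linarith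
      _ = ε / 2 := mul_div_cancel₀ _ (by positivity)
  · have h1 := far x (T \ Ψ) Finset.sdiff_disjoint
    have h2 := far y (T \ Ψ) Finset.sdiff_disjoint
    refine le_trans (Finset.sum_le_sum fun a _ => (mul_le_mul_of_nonneg_right
      (dd_sub_le (φ x) (φ y) a) (dd_nonneg _ _ _)).trans_eq (add_mul _ _ _)) ?_
    rw [Finset.sum_add_distrib]
    linarith

end Pool.Agent.MP_4f4d9f_gt.Ku

end

section

/-! Rays along which a Dirichlet function stays near the supremum of its harmonic part. -/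

namespace Pool.Agent.MP_4f4d9f_gt.Hy

open Filter Topology

namespace RayL

variable {G : Type}

/-- A countable family of square summable functions is dominated by one such function. -/
theorem dom {ι : Type} [Countable ι] {f : ι → G → ℝ} (hf : ∀ i, Sq (f i)) :
    ∃ a : G → ℝ, Sq a ∧ (∀ x, 0 ≤ a x) ∧ ∀ i, ∃ c : ℝ, ∀ x, |f i x| ≤ c * a x := by
  have := Encodable.ofCountable ι
  obtain ⟨e, he, _, hs, -⟩ := posSumOfEncodable one_pos ι
  have hT : ∀ i, 0 ≤ ∑' x, f i x ^ 2 := fun i => tsum_nonneg fun x => sq_nonneg _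
  obtain ⟨w, hw, hw'⟩ : ∃ w : ι → ℝ, (∀ i, 0 < w i) ∧ ∀ i, w i * ∑' x, f i x ^ 2 ≤ e i := by
    refine ⟨fun i => e i / (1 + ∑' x, f i x ^ 2), fun i => div_pos (he i) (by linarith [hT i]),
      fun i => ?_⟩
    rw [div_mul_eq_mul_div, div_le_iff₀ (by linarith [hT i])]
    exact mul_le_mul_of_nonneg_left (by linarith) (he i).le
  have h0 : ∀ i x, 0 ≤ w i * f i x ^ 2 := fun i x => mul_nonneg (hw i).le (sq_nonneg _)
  have h1 : Summable fun p : ι × G => w p.1 * f p.1 p.2 ^ 2 :=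
    (summable_prod_of_nonneg fun p => h0 p.1 p.2).2 ⟨fun i => Summable.mul_left (w i) (hf i),
      Summable.of_nonneg_of_le (fun i => tsum_nonneg (h0 i))
        (fun i => tsum_mul_left.trans_le (hw' i)) hs.summable⟩
  obtain ⟨h2, h3⟩ := (summable_prod_of_nonneg fun p : G × ι => h0 p.2 p.1).1 h1.prod_symm
  refine ⟨fun x => Real.sqrt (∑' i, w i * f i x ^ 2), h3.congr fun x => ?_,
    fun x => Real.sqrt_nonneg _, fun i => ⟨Real.sqrt (w i)⁻¹, fun x => ?_⟩⟩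
  · exact (Real.sq_sqrt (tsum_nonneg fun i => h0 i x)).symm
  · rw [← Real.sqrt_mul (inv_pos.2 (hw i)).le]
    refine Real.abs_le_sqrt ((le_inv_mul_iff₀ (hw i)).2 ?_)
    exact (h2 x).le_tsum i fun j _ => h0 j x

variable [Group G] [Infinite G] {S : Finset G}

theorem start (hS : Gen S) {v p q : G → ℝ} (hv : Harm S v) (hp : Sq p) (hq : Sq q) (x : G) {ε : ℝ}
    (hε : 0 < ε) : ∃ y, v x - ε < v y ∧ |p y| < ε ∧ |q y| < ε := by
  by_contra h
  have := hS.nonneg (f := fun y => v x - ε - v y)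
    (fun y => (((harm_const (v x - ε)).sub hv) y).le) (fun δ hδ => by
    rw [eventually_cofinite]
    refine ((hp.finite hε).union (hq.finite hε)).subset fun y hy => ?_
    by_contra e
    simp only [Set.mem_union, Set.mem_ofPred_eq, not_or, not_le] at hy e
    exact h ⟨y, by linarith, e⟩) x
  linarith

theorem walk (hS : Gen S) (h : Sol S) {a : G → ℝ} (ha : Sq a) (h0 : ∀ x, 0 ≤ a x) :
    ∃ V : G → ℝ, Sq V ∧ (∀ x, 0 ≤ V x) ∧ ∀ x, ∃ s ∈ S, V (x * s) ≤ V x - a x := by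
  obtain ⟨V, h1, h2⟩ := h _ (ha.const_mul S.card)
  refine ⟨V, h1, hS.nonneg (fun x => ?_) fun ε hε => ?_,
    fun x => Finset.exists_le_of_sum_le ⟨1, hS.one⟩ ?_⟩
  · linarith [h2 x, mul_nonneg (Nat.cast_nonneg S.card) (h0 x)]
  · rw [eventually_cofinite]
    refine (h1.finite hε).subset fun y hy => ?_
    simp only [Set.mem_ofPred_eq, not_le] at hy ⊢
    exact le_abs.2 (Or.inr (by linarith))
  · rw [Finset.sum_const, nsmul_eq_mul]
    linarith [h2 x]

end RayL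

theorem ray_stmt : RayStmt := by
  classical
  intro G _ _ S u hS hsol hu ψ hψ x ε hε
  have := hS.countable
  obtain ⟨a, a1, a2, a3⟩ := RayL.dom
    (f := fun g y => DD S (fun y => u (g * y)) y + if y = g then 1 else 0) fun g =>
      (hu.mul_left g).dd.add (sq_of_finite ((Set.finite_singleton g).subset fun y hy => by
        simpa using hy))
  obtain ⟨V, v1, v2, v3⟩ := RayL.walk hS hsol (hψ.dd.add a1)
    fun y => add_nonneg (dd_nonneg S ψ y) (a2 y)
  choose σ hσ hV using v3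
  obtain ⟨x0, b1, b2, b3⟩ := RayL.start hS (hsol.spec hψ).1 v1 (hsol.spec hψ).2 x
    (div_pos hε three_pos)
  obtain ⟨z, z0, hz⟩ : ∃ z : ℕ → G, z 0 = x0 ∧ ∀ n, z (n + 1) = z n * σ (z n) :=
    ⟨fun n => (fun y => y * σ y)^[n] x0, rfl, fun n => Function.iterate_succ_apply' _ _ _⟩
  have key : ∀ n, ∑ i ∈ Finset.range n, a (z i) ≤ V x0 - V (z n) ∧
      ψ x0 - (V x0 - V (z n)) ≤ ψ (z n) := by
    intro n
    induction n with
    | zero => simp [z0]
    | succ n ih =>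
      have h1 := hV (z n)
      have h2 := (abs_le.1 (le_dd ψ (z n) (hσ (z n)))).1
      rw [Finset.sum_range_succ, hz]
      exact ⟨by linarith [ih.1, dd_nonneg S ψ (z n)], by linarith [ih.2, a2 (z n)]⟩
  have hs : Summable fun n => a (z n) :=
    summable_of_sum_range_le (c := V x0) (fun n => a2 _) fun n => by linarith [(key n).1, v2 (z n)]
  have hc : ∀ g, ∃ r, Tendsto (fun n => u (g * z n)) atTop (𝓝 r) := fun g => by
    obtain ⟨c, hc⟩ := a3 g
    refine cauchySeq_tendsto_of_complete (cauchySeq_of_summable_dist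
      (Summable.of_nonneg_of_le (fun _ => dist_nonneg) (fun n => ?_) (hs.mul_left c)))
    rw [dist_comm, Real.dist_eq, Nat.succ_eq_add_one, hz]
    refine (le_dd (fun y => u (g * y)) (z n) (hσ (z n))).trans
      (le_trans ?_ ((le_abs_self _).trans (hc (z n))))
    exact le_add_of_nonneg_right (by positivity)
  choose val hval using hc
  refine ⟨⟨z, fun n => by rw [hz, inv_mul_cancel_left]; exact hσ _,
    le_cofinite_iff_eventually_ne.2 fun y => ?_, val, hval⟩, fun n => ?_⟩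
  · obtain ⟨c, hc⟩ := a3 y
    rw [eventually_map]
    filter_upwards [(hs.mul_left c).tendsto_atTop_zero.eventually (gt_mem_nhds one_pos)] with n hn e
    have h1 := (le_abs_self _).trans (hc (z n))
    rw [if_pos e] at h1
    linarith [dd_nonneg S (fun w => u (y * w)) (z n)]
  · have h1 : -(ε / 3) < ψ x0 - Hm S ψ x0 := (abs_lt.1 b3).1
    change _ ≤ ψ (z n)
    linarith [(key n).2, v2 (z n), (abs_lt.1 b2).2]

end Pool.Agent.MP_4f4d9f_gt.Hy

end

section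

/-! Solving the Laplace equation in the space of square summable functions. -/

namespace Pool.Agent.MP_4f4d9f_gt.Hy

namespace SolveL

variable {G : Type}

/-- The Hilbert space. -/
abbrev H (G : Type) : Type := lp (fun _ : G => ℝ) 2

theorem mem_iff {f : G → ℝ} : Memℓp f 2 ↔ Sq f := by
  rw [memℓp_gen_iff (by norm_num)]
  simp [Sq]

theorem norm_sq (f : H G) : ‖f‖ ^ 2 = ∑' x, f x ^ 2 := by
  simpa using lp.norm_rpow_eq_tsum (p := 2) (by norm_num) f

variable [Group G]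

/-- Right translation. -/
noncomputable def R (s : G) : H G →ₗᵢ[ℝ] H G where
  toFun f := ⟨fun x => f (x * s), mem_iff.2 ((mem_iff.1 (lp.memℓp f)).mul_right s)⟩
  map_add' _ _ := rfl
  map_smul' _ _ := rfl
  norm_map' f := by
    rw [← sq_eq_sq₀ (norm_nonneg _) (norm_nonneg _), norm_sq, norm_sq]
    exact (Equiv.mulRight s).tsum_eq fun x => f x ^ 2

/-- The Laplacian. -/
noncomputable def L (S : Finset G) : H G →L[ℝ] H G :=
  (S.card : ℝ) • ContinuousLinearMap.id ℝ (H G) - ∑ s ∈ S, (R s).toContinuousLinearMap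

theorem lap_apply (S : Finset G) (f : H G) : L S f = (S.card : ℝ) • f - ∑ s ∈ S, R s f := by
  simp [L]

theorem inner_L (S : Finset G) (f : H G) : En S f = 2 * inner ℝ (L S f) f := by
  have h : ∀ s : G, ∑' x, (f (x * s) - f x) ^ 2 = 2 * ‖f‖ ^ 2 - 2 * inner ℝ (R s f) f := by
    intro s
    have h1 := norm_sub_sq_real (R s f) f
    rw [norm_sq, LinearIsometry.norm_map] at h1
    exact h1.trans (by ring)
  rw [lap_apply, inner_sub_left, inner_smul_left, sum_inner, real_inner_self_eq_norm_sq, En]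
  simp only [h, Finset.sum_sub_distrib, Finset.sum_const, nsmul_eq_mul, ← Finset.mul_sum,
    conj_trivial]
  ring

end SolveL

open SolveL in
theorem solve_stmt : SolveStmt := by
  intro G _ S C _ hC a ha
  have hM : 0 < max C 1 := lt_max_of_lt_right one_pos
  have hu := ContinuousLinearMap.isUnit_of_forall_le_norm_inner_map (L S)
    (c := ⟨(2 * max C 1)⁻¹, by positivity⟩) (by
      rw [← NNReal.coe_pos]
      exact inv_pos.2 (by positivity)) fun f => by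
      have h0 : 0 ≤ En S f := Finset.sum_nonneg fun s _ => tsum_nonneg fun x => sq_nonneg _
      have h1 := (hC f (mem_iff.1 (lp.memℓp f))).trans
        (mul_le_mul_of_nonneg_right (le_max_left C 1) h0)
      rw [← norm_sq, inner_L] at h1
      refine le_trans ?_ (Real.le_norm_self _)
      change ‖f‖ ^ 2 * (2 * max C 1)⁻¹ ≤ _
      rw [← div_eq_mul_inv, div_le_iff₀ (by positivity)]
      linarith
  obtain ⟨V, hV⟩ := (ContinuousLinearMap.isUnit_iff_bijective.1 hu).2 ⟨a, mem_iff.2 ha⟩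
  refine ⟨V, mem_iff.1 (lp.memℓp V), fun x => ?_⟩
  have h := congrArg (fun f : H G => f x) hV
  simp only [lap_apply, lp.coeFn_sub, lp.coeFn_smul, lp.coeFn_sum, Pi.sub_apply, Pi.smul_apply,
    Finset.sum_apply, smul_eq_mul] at h
  exact h

end Pool.Agent.MP_4f4d9f_gt.Hy

end

section

/-! Two rays with different limits in the compactification by potentials. -/

namespace Pool.Agent.MP_4f4d9f_gt.Ku

open Filter Topology Hy

namespace TwoL

variable {G : Type} [Group G] {S : Finset G}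

/-- Harmonic functions of finite energy are orthogonal to square summable functions. -/
theorem orth (hS : Gen S) {u v : G → ℝ} (hu : Dir S u) (hh : Harm S u) (hv : Sq v) :
    BB S u v = 0 := by
  have s1 : ∀ s ∈ S, Summable fun x => (u (x * s) - u x) * v x := fun s hs =>
    (hu s hs).summable_mul hv
  have s2 : ∀ s ∈ S, Summable fun x => (u (x * s) - u x) * v (x * s) := fun s hs =>
    (hu s hs).summable_mul (hv.mul_right s)
  have z : ∑ s ∈ S, ∑' x, (u (x * s) - u x) * v x = 0 := by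
    rw [← Summable.tsum_finsetSum s1]
    have : ∀ x, ∑ s ∈ S, (u (x * s) - u x) * v x = 0 := fun x => by
      rw [← Finset.sum_mul, Finset.sum_sub_distrib, hh x, Finset.sum_const, nsmul_eq_mul, sub_self,
        zero_mul]
    simp only [this, tsum_zero]
  have e : ∀ s : G, ∑' x, (u (x * s) - u x) * v (x * s) =
      -∑' x, (u (x * s⁻¹) - u x) * v x := fun s => by
    rw [← tsum_neg, ← (Equiv.mulRight s).tsum_eq fun x => -((u (x * s⁻¹) - u x) * v x)]
    refine tsum_congr fun x => ?_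
    simp only [Equiv.coe_mulRight, mul_inv_cancel_right]
    ring
  have z' : ∑ s ∈ S, ∑' x, (u (x * s⁻¹) - u x) * v x = 0 := by
    rw [← z]
    exact Finset.sum_equiv (Equiv.inv G)
      (fun s => ⟨fun h => hS.inv s h, fun h => by simpa using hS.inv _ h⟩) fun s _ => rfl
  have k : BB S u v = ∑ s ∈ S, (-∑' x, (u (x * s⁻¹) - u x) * v x -
      ∑' x, (u (x * s) - u x) * v x) := by
    refine Finset.sum_congr rfl fun s hs => ?_
    rw [← e, ← (s2 s hs).tsum_sub (s1 s hs)]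
    exact tsum_congr fun x => by ring
  rw [k, Finset.sum_sub_distrib, Finset.sum_neg_distrib, z, z']
  simp

theorem nonconst (hS : Gen S) (hsol : Sol S) {φ : G → G → ℝ} (hP : Pot S φ) (hL : ¬ Liou S) :
    ∃ x y₁ y₂, Hm S (φ x) y₁ < Hm S (φ x) y₂ := by
  by_contra h
  simp only [not_exists, not_lt] at h
  refine hL fun u hu hh => ?_
  have key : ∀ x, u x = u 1 := fun x => by
    have h1 := (hP.dip x).rep u hu
    have h2 := orth hS hu hh (hsol.spec (hP.dir x)).2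
    have h3 : BB S u (φ x - Hm S (φ x)) = BB S u (φ x) := by
      refine Finset.sum_congr rfl fun s _ => tsum_congr fun y => ?_
      rw [Pi.sub_apply, Pi.sub_apply, le_antisymm (h x y (y * s)) (h x (y * s) y)]
      ring
    rw [bb_comm, ← h3, h2] at h1
    linarith
  exact fun x y => (key x).trans (key y).symm

theorem ray [Infinite G] (hS : Gen S) (hsol : Sol S) {φ : G → G → ℝ} (hφ : ∀ g, Dir S (φ g))
    {ψ h : G → ℝ} (hψ : Dir S ψ) (hh : Harm S h) (hq : Sq fun x => ψ x - h x) (x : G) {ε : ℝ}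
    (hε : 0 < ε) : ∃ z, IsRay S z ∧ (∀ g, CauchySeq fun n => φ g (z n)) ∧
      ∀ n, h x - ε ≤ ψ (z n) := by
  classical
  have := hS.countable
  obtain ⟨a, a1, a2, a3⟩ := RayL.dom
    (f := fun g y => DD S (φ g) y + if y = g then 1 else 0) fun g =>
      (hφ g).dd.add (sq_of_finite ((Set.finite_singleton g).subset fun y hy => by
        simpa using hy))
  obtain ⟨V, v1, v2, v3⟩ := RayL.walk hS hsol (hψ.dd.add a1)
    fun y => add_nonneg (dd_nonneg S ψ y) (a2 y)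
  choose σ hσ hV using v3
  obtain ⟨x0, b1, b2, b3⟩ := RayL.start hS hh v1 hq x (div_pos hε three_pos)
  obtain ⟨z, z0, hz⟩ : ∃ z : ℕ → G, z 0 = x0 ∧ ∀ n, z (n + 1) = z n * σ (z n) :=
    ⟨fun n => (fun y => y * σ y)^[n] x0, rfl, fun n => Function.iterate_succ_apply' _ _ _⟩
  have key : ∀ n, ∑ i ∈ Finset.range n, a (z i) ≤ V x0 - V (z n) ∧
      ψ x0 - (V x0 - V (z n)) ≤ ψ (z n) := by
    intro n
    induction n with
    | zero => simp [z0]
    | succ n ih =>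
      have h1 := hV (z n)
      have h2 := (abs_le.1 (le_dd ψ (z n) (hσ (z n)))).1
      rw [Finset.sum_range_succ, hz]
      exact ⟨by linarith [ih.1, dd_nonneg S ψ (z n)], by linarith [ih.2, a2 (z n)]⟩
  have hs : Summable fun n => a (z n) :=
    summable_of_sum_range_le (c := V x0) (fun n => a2 _) fun n => by linarith [(key n).1, v2 (z n)]
  refine ⟨z, ⟨fun n => by rw [hz, inv_mul_cancel_left]; exact hσ _,
    le_cofinite_iff_eventually_ne.2 fun y => ?_⟩, fun g => ?_, fun n => ?_⟩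
  · obtain ⟨c, hc⟩ := a3 y
    rw [eventually_map]
    filter_upwards [(hs.mul_left c).tendsto_atTop_zero.eventually (gt_mem_nhds one_pos)] with n hn e
    have h1 := (le_abs_self _).trans (hc (z n))
    rw [if_pos e] at h1
    linarith [dd_nonneg S (φ y) (z n)]
  · obtain ⟨c, hc⟩ := a3 g
    refine cauchySeq_of_summable_dist
      (Summable.of_nonneg_of_le (fun _ => dist_nonneg) (fun n => ?_) (hs.mul_left c))
    rw [dist_comm, Real.dist_eq, Nat.succ_eq_add_one, hz]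
    refine (le_dd (φ g) (z n) (hσ (z n))).trans
      (le_trans ?_ ((le_abs_self _).trans (hc (z n))))
    exact le_add_of_nonneg_right (by positivity)
  · have h1 : -(ε / 3) < ψ x0 - h x0 := (abs_lt.1 b3).1
    linarith [(key n).2, v2 (z n), (abs_lt.1 b2).2]

end TwoL

open TwoL in
theorem two_stmt : TwoStmt := by
  intro G _ X _ _ _ _ S b φ co C hS sg hP hK hL
  have := sg.infinite
  have hsol : Sol S := solve_stmt G S C hS sg
  obtain ⟨x, y₁, y₂, hy⟩ := nonconst hS hsol hP hL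
  obtain ⟨h1, h2⟩ := hsol.spec (hP.dir x)
  have hε : 0 < (Hm S (φ x) y₂ - Hm S (φ x) y₁) / 3 := by linarith
  obtain ⟨p, p1, p2, p3⟩ := ray hS hsol hP.dir (hP.dir x) h1 h2 y₂ hε
  obtain ⟨q, q1, q2, q3⟩ := ray hS hsol hP.dir (hP.dir x).neg (h := fun y => -1 * Hm S (φ x) y)
    (h1.const_mul (-1)) (by
      convert h2.neg using 2 with y
      rw [Pi.sub_apply]
      ring) y₁ hε
  obtain ⟨ξ, hξ⟩ := hK.cauchy p2
  obtain ⟨η, hη⟩ := hK.cauchy q2
  refine ⟨ξ, η, ⟨p, p1, fun _ => trivial, hξ⟩, ⟨q, q1, fun _ => trivial, hη⟩, fun e => ?_⟩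
  have e1 := ge_of_tendsto' (((hK.cont x).tendsto ξ).comp hξ)
    (b := Hm S (φ x) y₂ - (Hm S (φ x) y₂ - Hm S (φ x) y₁) / 3) fun n => by
      rw [Function.comp_apply, hK.orb]
      exact p3 n
  have e2 := le_of_tendsto' (((hK.cont x).tendsto η).comp hη)
    (b := Hm S (φ x) y₁ + (Hm S (φ x) y₂ - Hm S (φ x) y₁) / 3) fun n => by
      rw [Function.comp_apply, hK.orb]
      linarith [q3 n]
  rw [e] at e1
  linarith

end Pool.Agent.MP_4f4d9f_gt.Ku

end

section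

/-! Generic levels of a potential give weak cuts. -/

namespace Pool.Agent.MP_4f4d9f_gt.Ku

open Filter Topology Hy MeasureTheory

namespace WcL

variable {G : Type} [Group G] {X : Type} [MetricSpace X] [CompactSpace X] [MulAction G X]
  {S : Finset G} {b : X} {φ : G → G → ℝ} {co : G → X → ℝ}

theorem generic (hS : Gen S) (hφ : Pot S φ) {ψ : G → ℝ} (hψ : Dir S ψ) {α β : ℝ} (h : α < β)
    {Z : Set ℝ} (hZ : Z.Finite) : ∃ t, α < t ∧ t < β ∧ t ∉ Z ∧
      ∀ g : G, Summable (Set.indicator {a | |ψ a - t| ≤ DD S ψ a} (DD S (φ g))) := by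
  have := hS.countable
  have h1 : ∀ᵐ t : ℝ, ∀ g : G,
      Summable (Set.indicator {a | |ψ a - t| ≤ DD S ψ a} (DD S (φ g))) :=
    ae_all_iff.2 fun g => GenericL.ae_summable ψ (DD S ψ) (DD S (φ g))
      (dd_nonneg S ψ) (dd_nonneg S _) (hψ.dd.summable_mul (hφ.dir g).dd)
  have h2 : ∀ᵐ t : ℝ, t ∉ Z := hZ.countable.ae_notMem _
  have h3 : (volume : Measure ℝ) (Set.Ioo α β) ≠ 0 := by
    rw [Real.volume_Ioo, ne_eq, ENNReal.ofReal_eq_zero]
    linarith
  obtain ⟨t, ht, e⟩ := Measure.exists_mem_of_measure_ne_zero_of_ae h3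
    (ae_restrict_of_ae (h2.and h1))
  exact ⟨t, ht.1, ht.2, e.1, e.2⟩

theorem avoid {ψ : G → ℝ} (hψ : Dir S ψ) {p : ℕ → G} (hp : IsRay S p) {a t : ℝ}
    (e : Tendsto (fun n => ψ (p n)) atTop (𝓝 a)) (h : a ≠ t) :
    ∀ᶠ n in atTop, p n ∉ Bdy S {x | t < ψ x} := by
  have h1 : Tendsto (fun n => |ψ (p n) - t| - DD S ψ (p n)) atTop (𝓝 (|a - t| - 0)) :=
    (e.sub_const t).abs.sub (hψ.dd.tendsto.comp hp.esc)
  rw [sub_zero] at h1
  filter_upwards [h1.eventually (lt_mem_nhds (abs_pos.2 (sub_ne_zero.2 h)))] with n hn hb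
  have := CutPtL.bdy_sub ψ t hb
  simp only [Set.mem_ofPred_eq] at this
  linarith

theorem core (hS : Gen S) (hN : Nst S) (hφ : Pot S φ) (hK : Kur φ b co) {ψ : G → ℝ}
    (hψ : Dir S ψ) {c : X → ℝ} (hc : Continuous c) (hcψ : ∀ x : G, c (x • b) = ψ x) {ξ η : X}
    (hξ : Ac S b Set.univ ξ) (hη : Ac S b Set.univ η) (hlt : c η < c ξ) {T : Set X}
    (hT : T.Finite) :
    ∃ o, o ∉ T ∧ Ac S b Set.univ o ∧ ∀ ε : ℝ, 0 < ε → ∃ F : Set G,
      {x | x ∈ Bdy S F ∧ ε ≤ dist (x • b) o}.Finite ∧ (∃ᶠ x in nf G b ξ, x ∈ F) ∧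
        ∃ᶠ x in nf G b η, x ∉ F := by
  have := hS.countable
  obtain ⟨p, hp, -, hp'⟩ := hξ
  obtain ⟨q, hq, -, hq'⟩ := hη
  obtain ⟨t, t1, t2, t3, hsum⟩ := generic hS hφ hψ hlt (hT.image c)
  have lim : ∀ {z : ℕ → G} {o : X}, Tendsto (fun n => z n • b) atTop (𝓝 o) →
      Tendsto (fun n => ψ (z n)) atTop (𝓝 (c o)) := fun h =>
    ((hc.tendsto _).comp h).congr fun n => hcψ _
  obtain ⟨e, he⟩ := exists_surjective_nat G
  let Φ : ℕ → Set G := fun k => e '' Set.Iio k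
  have hΦ : ∀ F : Set G, F.Finite → ∀ᶠ k in atTop, F ⊆ Φ k := fun F hF =>
    (eventually_all_finite hF).2 fun x _ => by
      obtain ⟨i, rfl⟩ := he x
      exact (eventually_gt_atTop i).mono fun k hk => ⟨i, hk, rfl⟩
  obtain ⟨Q, hQ, hk⟩ := hN {x | t < ψ x} p q hp hq
    (((lim hp').eventually (lt_mem_nhds t2)).and (avoid hψ hp (lim hp') t2.ne'))
    ((((lim hq').eventually (gt_mem_nhds t1)).mono fun n hn => not_lt.2 hn.le).and
      (avoid hψ hq (lim hq') t1.ne))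
    Φ (fun k => (Set.finite_Iio k).image e)
    fun k k' hkk => Set.image_mono (Set.Iio_subset_Iio hkk)
  obtain ⟨z, z1, z2⟩ := CutPtL.ray hS Q hQ (fun k => (hk k).2.1) fun k => (hk k).2.2.1
  have hosc : ∀ (g : G) (ε : ℝ), 0 < ε → ∀ᶠ k in atTop, ∀ x ∈ Q k, ∀ y ∈ Q k,
      |φ g y - φ g x| < ε := by
    intro g ε hε
    obtain ⟨s, hs⟩ := (hsum g).vanishing (Iio_mem_nhds hε)
    filter_upwards [hΦ s s.finite_toSet] with k hk' x hx y hy
    obtain ⟨B0, b1, b2, b3⟩ := CutPtL.osc hS (φ g) ((hk k).2.2.1 x hx y hy)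
    have b4 := hs B0 (Finset.disjoint_left.2 fun a ha ha' => ((hk k).1 (b1 ha)).2 (hk' ha'))
    rw [Finset.sum_congr rfl fun a ha =>
      Set.indicator_of_mem (CutPtL.bdy_sub ψ t ((hk k).1 (b1 ha)).1) _] at b4
    exact (b3 y b2).trans_lt b4
  obtain ⟨o, ho⟩ := hK.cauchy (z := z) fun g => Metric.cauchySeq_iff.2 fun ε hε => by
    obtain ⟨k, hk'⟩ := (hosc g ε hε).exists
    obtain ⟨N, hN'⟩ := eventually_atTop.1 (z2 k)
    exact ⟨N, fun a ha b hb => hk' _ (hN' b hb) _ (hN' a ha)⟩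
  have hesc : Tendsto z atTop cofinite := fun F hF => by
    obtain ⟨k, hk'⟩ := (hΦ _ (mem_cofinite.1 hF)).exists
    refine mem_map.2 ((z2 k).mono fun n hn => ?_)
    by_contra hc
    exact ((hk k).1 hn).2 (hk' hc)
  have hm : c o = t := by
    refine tendsto_nhds_unique (lim ho) ?_
    rw [tendsto_iff_norm_sub_tendsto_zero]
    exact squeeze_zero' (Eventually.of_forall fun _ => norm_nonneg _)
      ((z2 0).mono fun n hn => CutPtL.bdy_sub ψ t ((hk 0).1 hn).1) (hψ.dd.tendsto.comp hesc)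
  refine ⟨o, fun k => t3 ⟨o, k, hm⟩, ⟨z, ⟨z1, hesc⟩, fun _ => trivial, ho⟩, fun ε hε => ?_⟩
  obtain ⟨U, d, hd, hU⟩ := hK.unif hε
  obtain ⟨k, k1⟩ := ((eventually_all_finset U).2 fun g _ => hosc g (d / 2) (half_pos hd)).exists
  obtain ⟨F, f1, f2, f3⟩ := (hk k).2.2.2
  refine ⟨F, f1.subset fun x hx => ⟨hx.1, fun hxQ => hx.2.not_gt (hU _ _ fun g hg => ?_)⟩,
    (hp.nf hp').frequently f2.frequently, (hq.nf hq').frequently f3.frequently⟩
  have h1 : Tendsto (fun n => φ g (z n)) atTop (𝓝 (co g o)) :=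
    (((hK.cont g).tendsto _).comp ho).congr fun n => hK.orb _ _
  rw [hK.orb]
  exact (le_of_tendsto (h1.const_sub (φ g x)).abs
    ((z2 k).mono fun n hn => (k1 g hg _ hn x hxQ).le)).trans_lt (half_lt_self hd)

end WcL

theorem wc_stmt : WcStmt := by
  intro G _ X _ _ _ _ S b φ co hS hN hφ hK ξ η hξ hη hne T hT
  obtain ⟨u, hu⟩ := not_forall.1 fun k => hne (hK.inj _ _ k)
  rcases lt_or_gt_of_ne hu with h | h
  · exact WcL.core hS hN hφ hK (hφ.dir u).neg (hK.cont u).neg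
      (fun x => congrArg Neg.neg (hK.orb u x)) hξ hη (neg_lt_neg h) hT
  · exact WcL.core hS hN hφ hK (hφ.dir u) (hK.cont u) (hK.orb u) hξ hη h hT

end Pool.Agent.MP_4f4d9f_gt.Ku

end

section

/-! The order argument for invariant nested families of subsets of a torsion free group. -/

namespace Pool.Agent.MP_4f4d9f_gt.Ku

open Hy

open scoped Pointwise

namespace Ord3L

open OrdL (inf_pow sub_pow pow_sub pow_mono exists_min)

variable {G : Type} [Group G] {𝓕 : Set (Set G)} {Es : Set G}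

/-- Two members above a nonempty set and below a member are comparable. -/
theorem cmp (hF : Fam3 𝓕 Es) {A B D y : Set G} (hA : A ∈ 𝓕) (hB : B ∈ 𝓕) (hD : D ∈ 𝓕)
    (hy : y.Nonempty) (h1 : y ⊆ A) (h2 : y ⊆ B) (h3 : A ⊆ D) (h4 : B ⊆ D) : A ⊆ B ∨ B ⊆ A :=
  hF.chain A hA B hB (hy.mono (Set.subset_inter h1 h2)) fun e =>
    hF.proper D hD (Set.eq_univ_of_univ_subset (e ▸ Set.union_subset h3 h4))

/-- Finitely many translates of an interval lie in a given interval. -/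
theorem fin (hF : Fam3 𝓕 Es) {F1 F2 E1 E2 : Set G} (h3 : E1 ∈ 𝓕) (h4 : E2 ∈ 𝓕)
    (h : ∀ w : G, {x | x ∈ F1 ∧ x * w ∉ F2}.Finite) :
    {g : G | E1 ⊆ g • F1 ∧ g • F2 ⊆ E2}.Finite := by
  obtain ⟨a, ha⟩ := hF.ne E1 h3
  obtain ⟨b, hb⟩ := (Set.ne_univ_iff_exists_notMem _).1 (hF.proper E2 h4)
  refine Set.Finite.of_finite_image (f := fun g => g⁻¹ * a)
    ((h (a⁻¹ * b)).subset ?_) ?_
  · rintro _ ⟨g, ⟨e1, e2⟩, rfl⟩
    refine ⟨Set.mem_smul_set_iff_inv_smul_mem.1 (e1 ha), fun e => hb (e2 ?_)⟩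
    rw [Set.mem_smul_set_iff_inv_smul_mem]
    simpa [mul_assoc] using e
  · intro g _ g' _ e
    simpa using e

theorem fin' (hF : Fam3 𝓕 Es) {z0 z1 : Set G} (h0 : z0 ∈ 𝓕) (h1 : z1 ∈ 𝓕) (hE : Es ∈ 𝓕)
    (h : z1 ⊂ Es) : {g : G | g • z0 ⊆ z1 ∧ Es ⊆ g • Es}.Finite := by
  refine Set.Finite.of_finite_image (f := fun g => g⁻¹) ((fin hF h0 hE (hF.afs z1 h1 h)).subset ?_)
    inv_injective.injOn
  rintro _ ⟨g, ⟨e1, e2⟩, rfl⟩
  exact ⟨Set.smul_set_subset_iff_subset_inv_smul_set.1 e1, Set.subset_smul_set_iff.1 e2⟩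

/-- No nesting. -/
theorem nn (hG : ∀ g : G, IsOfFinOrder g → g = 1) (hF : Fam3 𝓕 Es) {F1 : Set G} (h1 : F1 ∈ 𝓕)
    (h2 : Es ∈ 𝓕) (h : F1 ⊂ Es) {g : G} (e1 : F1 ⊆ g • F1) (e2 : g • Es ⊆ Es) : g = 1 := by
  by_contra hg
  exact inf_pow hG hg (T := {g : G | F1 ⊆ g • F1 ∧ g • Es ⊆ Es})
    (fun n => ⟨sub_pow e1 n, pow_sub e2 n⟩) (fin hF h1 h2 (hF.afs F1 h1 h))

theorem smul_lt {A B : Set G} (g : G) (h : A ⊂ B) : g • A ⊂ g • B :=
  ⟨Set.smul_set_mono h.1, fun e => h.2 (Set.smul_set_subset_smul_set_iff.1 e)⟩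

/-- Monotonicity. -/
theorem mono (hG : ∀ g : G, IsOfFinOrder g → g = 1) (hF : Fam3 𝓕 Es) {y z D : Set G} (hy : y ∈ 𝓕)
    (hz : z ∈ 𝓕) (hD : D ∈ 𝓕) (hyz : y ⊆ z) {a t : G} (h : a • y ⊆ t • y) (h1 : a • z ⊆ D)
    (h2 : t • z ⊆ D) : a • z ⊆ t • z := by
  rcases cmp hF (hF.smul a z hz) (hF.smul t z hz) hD (hF.ne _ (hF.smul a y hy))
    (Set.smul_set_mono hyz) (h.trans (Set.smul_set_mono hyz)) h1 h2 with e | e
  · exact e
  by_contra hn
  obtain ⟨g, rfl⟩ : ∃ g, t = a * g := ⟨a⁻¹ * t, (mul_inv_cancel_left a t).symm⟩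
  rw [mul_smul, Set.smul_set_subset_smul_set_iff] at h e hn
  have hlt : g • z ⊂ z := ⟨e, hn⟩
  refine inf_pow hG (g := g) (fun e1 => hn (by rw [e1, one_smul]))
    (T := {k : G | y ⊆ k • g • g • g • z ∧ k • z ⊆ z}) (fun n => ⟨?_, pow_sub e n⟩)
    (fin hF hy hz (hF.af3 _ (hF.smul g _ (hF.smul g _ (hF.smul g z hz))) _
      (hF.smul g _ (hF.smul g z hz)) _ (hF.smul g z hz) z hz (smul_lt g (smul_lt g hlt))
      (smul_lt g hlt) hlt))
  rw [smul_smul, smul_smul, smul_smul, ← pow_succ, ← pow_succ, ← pow_succ]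
  exact (sub_pow h _).trans (Set.smul_set_mono hyz)

/-- Positive elements. -/
def P (Es y : Set G) (a : G) : Prop := a ≠ 1 ∧ y ⊆ a • y ∧ Es ⊆ a • Es

theorem P.up (hG : ∀ g : G, IsOfFinOrder g → g = 1) (hF : Fam3 𝓕 Es) {y z : Set G}
    (hE : Es ∈ 𝓕) (hy : y ∈ 𝓕) (hz : z ∈ 𝓕) {a : G} (h : P Es y a) (h1 : y ⊆ z) (h2 : z ⊆ Es) :
    P Es z a := by
  refine ⟨h.1, ?_, h.2.2⟩
  have := mono hG hF hy hz (hF.smul a Es hE) h1 (a := 1) (t := a) (by simpa using h.2.1)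
    (by simpa using h2.trans h.2.2) (Set.smul_set_mono h2)
  simpa using this

theorem P.strict (hG : ∀ g : G, IsOfFinOrder g → g = 1) (hF : Fam3 𝓕 Es) {y : Set G}
    (hE : Es ∈ 𝓕) (hy : y ∈ 𝓕) {a : G} (h : P Es y a) (h1 : y ⊂ Es) : y ⊂ a • y :=
  ⟨h.2.1, fun e => h.1 (inv_eq_one.1 (nn hG hF hy hE h1
    (Set.smul_set_subset_iff_subset_inv_smul_set.1 e) (Set.subset_smul_set_iff.1 h.2.2)))⟩

theorem P.mono (hG : ∀ g : G, IsOfFinOrder g → g = 1) (hF : Fam3 𝓕 Es) {y z : Set G}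
    (hE : Es ∈ 𝓕) (hy : y ∈ 𝓕) (hz : z ∈ 𝓕) {a t : G} (h : P Es y a) (h0 : a • y ⊆ t • y)
    (h1 : y ⊆ z) (h2 : z ⊆ Es) (h3 : t • z ⊆ Es) : a • z ⊆ t • z :=
  Ord3L.mono hG hF hy hz (hF.smul a Es hE) h1 h0 (Set.smul_set_mono h2) (h3.trans h.2.2)

theorem P.pow_le (hG : ∀ g : G, IsOfFinOrder g → g = 1) (hF : Fam3 𝓕 Es) {y : Set G}
    (hE : Es ∈ 𝓕) (hy : y ∈ 𝓕) {a t : G} (h : P Es y a) (h0 : a • y ⊆ t • y) (ht : y ⊆ t • y)
    (n : ℕ) (hn : t ^ n • y ⊆ Es) : a ^ n • y ⊆ t ^ n • y := by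
  induction n with
  | zero => simp
  | succ n ih =>
    have e := (pow_mono ht n.le_succ).trans hn
    rw [pow_succ', mul_smul] at hn
    rw [pow_succ', pow_succ', mul_smul, mul_smul]
    exact (Set.smul_set_mono (ih e)).trans
      (h.mono hG hF hE hy (hF.smul _ y hy) h0 (sub_pow ht n) e hn)

/-- Five points of one type give a short positive element. -/
theorem sh (hG : ∀ g : G, IsOfFinOrder g → g = 1) (hF : Fam3 𝓕 Es) {E : Set G}
    (hEs : Es ∈ 𝓕) (hE : E ∈ 𝓕) (hlt : E ⊂ Es) (h : ¬ Few E Es) :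
    ∃ a, P Es E a ∧ a ^ 4 • E ⊂ Es := by
  classical
  simp only [Few, not_forall, not_le] at h
  obtain ⟨s, s', h⟩ := h
  obtain ⟨A, hA, hc⟩ := Set.exists_subset_encard_eq
    (show ((5 : ℕ) : ℕ∞) ≤ _ from Order.add_one_le_of_lt h)
  have hAf : A.Finite := Set.finite_of_encard_eq_coe hc
  have mem : ∀ (a x : G) (B : Set G), x ∈ a⁻¹ • B ↔ a * x ∈ B := fun a x B => by
    rw [Set.mem_inv_smul_set_iff, smul_eq_mul]
  have ch : ∀ a ∈ A, ∀ b ∈ A, ∀ B ∈ 𝓕, ∀ D ∈ 𝓕, E ⊆ B → B ⊆ Es → E ⊆ D → D ⊆ Es →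
      a⁻¹ • B ⊆ b⁻¹ • D ∨ b⁻¹ • D ⊆ a⁻¹ • B := by
    intro a ha b hb B hB D hD e1 e2 e3 e4
    refine hF.chain _ (hF.smul _ _ hB) _ (hF.smul _ _ hD) ⟨1, ?_, ?_⟩ fun e => ?_
    · rw [mem, mul_one]; exact e1 (hA ha).1
    · rw [mem, mul_one]; exact e3 (hA hb).1
    · have : s' ∈ a⁻¹ • B ∪ b⁻¹ • D := e ▸ Set.mem_univ _
      rw [Set.mem_union, mem, mem] at this
      exact this.elim (fun e => (hA ha).2.2.2 (e2 e)) fun e => (hA hb).2.2.2 (e4 e)
  have lt : ∀ a ∈ A, ∀ b ∈ A, (a * b⁻¹) • E ⊂ Es := by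
    intro a ha b hb
    have e0 : ¬ a⁻¹ • Es ⊆ b⁻¹ • E := fun e =>
      (hA hb).2.2.1 ((mem _ _ _).1 (e ((mem _ _ _).2 (hA ha).2.1)))
    have e1 := (ch a ha b hb Es hEs E hE hlt.1 subset_rfl subset_rfl hlt.1).resolve_left e0
    rw [mul_smul]
    exact ⟨Set.smul_set_subset_iff_subset_inv_smul_set.2 e1,
      fun e => e0 (Set.subset_smul_set_iff.1 e)⟩
  have sub : ∀ a b : G, ∀ B : Set G, a⁻¹ • B ⊆ b⁻¹ • B → B ⊆ (a * b⁻¹) • B := fun a b B e => by
    rw [mul_smul]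
    exact Set.subset_smul_set_iff.2 e
  have pos : ∀ a ∈ A, ∀ b ∈ A, a ≠ b → a⁻¹ • E ⊆ b⁻¹ • E → P Es E (a * b⁻¹) := by
    intro a ha b hb hab e
    have hne : a * b⁻¹ ≠ 1 := fun e => hab (mul_inv_eq_one.1 e)
    refine ⟨hne, sub _ _ _ e, sub _ _ _ ?_⟩
    refine (ch a ha b hb Es hEs Es hEs hlt.1 subset_rfl hlt.1 subset_rfl).resolve_right
      fun e' => hne (nn hG hF hE hEs hlt (sub _ _ _ e) ?_)
    rw [mul_smul]
    exact Set.smul_set_subset_iff_subset_inv_smul_set.2 e'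
  have tot : ∀ a ∈ A, ∀ b ∈ A, a⁻¹ • E ⊆ b⁻¹ • E ∨ b⁻¹ • E ⊆ a⁻¹ • E := fun a ha b hb =>
    ch a ha b hb E hE E hE subset_rfl hlt.1 subset_rfl hlt.1
  obtain ⟨p, hp, hmin⟩ := exists_min
    (T := {p : G × G | p ∈ A ×ˢ A ∧ p.1 ≠ p.2 ∧ p.1⁻¹ • E ⊆ p.2⁻¹ • E})
    ((hAf.prod hAf).subset fun _ e => e.1) (by
      obtain ⟨a, b, ha, hb, hab⟩ := Set.one_lt_encard_iff.1 (show 1 < A.encard by
        rw [hc]; norm_num)
      rcases tot a ha b hb with e | e
      · exact ⟨(a, b), ⟨ha, hb⟩, hab, e⟩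
      · exact ⟨(b, a), ⟨hb, ha⟩, hab.symm, e⟩)
    (fun p => (p.1 * p.2⁻¹) • E) fun p hp q hq =>
      cmp hF (hF.smul _ _ hE) (hF.smul _ _ hE) hEs (hF.ne _ hE) (sub _ _ _ hp.2.2)
        (sub _ _ _ hq.2.2) (lt _ hp.1.1 _ hp.1.2).1 (lt _ hq.1.1 _ hq.1.2).1
  have hη := pos _ hp.1.1 _ hp.1.2 hp.2.1 hp.2.2
  have key : ∀ n : ℕ, ∀ B : Finset G, (B : Set G) ⊆ A → B.card = n + 1 →
      ∃ a ∈ B, ∃ b ∈ B, a⁻¹ • E ⊆ b⁻¹ • E ∧ (p.1 * p.2⁻¹) ^ n • E ⊆ (a * b⁻¹) • E := by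
    intro n
    induction n with
    | zero =>
      intro B _ hB
      obtain ⟨a, ha⟩ := Finset.card_pos.1 (show 0 < B.card by omega)
      exact ⟨a, ha, a, ha, subset_rfl, by simp⟩
    | succ n ih =>
      intro B hBA hB
      obtain ⟨m, hm, hm'⟩ := exists_min B.finite_toSet
        (Finset.card_pos.1 (show 0 < B.card by omega)) (fun a => a⁻¹ • E)
        fun a ha b hb => tot a (hBA ha) b (hBA hb)
      obtain ⟨a, ha, b, hb, e1, e2⟩ := ih (B.erase m)
        ((Finset.coe_subset.2 (Finset.erase_subset m B)).trans hBA)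
        (by rw [Finset.card_erase_of_mem hm]; omega)
      have ha' := Finset.mem_of_mem_erase ha
      have hb' := Finset.mem_of_mem_erase hb
      refine ⟨m, hm, b, hb', hm' b hb', ?_⟩
      have e3 : (m * a⁻¹) • (a * b⁻¹) • E = (m * b⁻¹) • E := by
        rw [smul_smul]; congr 1; group
      have e4 := hη.mono hG hF hEs hE (hF.smul (a * b⁻¹) E hE)
        (hmin (m, a) ⟨⟨hBA hm, hBA ha'⟩, (Finset.ne_of_mem_erase ha).symm, hm' a ha'⟩)
        (sub _ _ _ e1) (lt a (hBA ha') b (hBA hb')).1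
        (by rw [e3]; exact (lt m (hBA hm) b (hBA hb')).1)
      rw [pow_succ', mul_smul, ← e3]
      exact (Set.smul_set_mono e2).trans e4
  obtain ⟨a, ha, b, hb, -, e⟩ := key 4 hAf.toFinset (by simp) (by
    have := hAf.encard_eq_coe_toFinset_card
    rw [hc] at this
    exact_mod_cast this.symm)
  exact ⟨_, hη, e.trans_ssubset (lt a (by simpa using ha) b (by simpa using hb))⟩

/-- The Euclidean algorithm. -/
theorem euclid (hG : ∀ g : G, IsOfFinOrder g → g = 1) (hF : Fam3 𝓕 Es) {z0 z1 : Set G}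
    (hE : Es ∈ 𝓕) (h0 : z0 ∈ 𝓕) (h1 : z1 ∈ 𝓕) (h01 : z0 ⊆ z1) (hlt : z1 ⊂ Es) (n : ℕ) :
    ∀ (a b : G), ∀ y ∈ 𝓕, P Es y a → P Es y b → (a * b) • y ⊆ z0 → (b * a) • y ⊆ z0 →
      a • z0 ⊆ z1 → b • z0 ⊆ z1 →
      {g : G | g • z0 ⊆ a • z0 ∧ Es ⊆ g • Es}.ncard +
        {g : G | g • z0 ⊆ b • z0 ∧ Es ⊆ g • Es}.ncard = n → a * b = b * a := by
  induction n using Nat.strong_induction_on with
  | _ n ih =>
  intro a b y hy ha hb e1 e2 e3 e4 hn
  have ay : a • y ⊆ z0 := (Set.smul_set_mono hb.2.1).trans (by rwa [smul_smul])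
  have by' : b • y ⊆ z0 := (Set.smul_set_mono ha.2.1).trans (by rwa [smul_smul])
  wlog hba : b • y ⊆ a • y generalizing a b
  · refine (this b a hb ha e2 e1 e4 e3 (by omega) by' ay ?_).symm
    exact (cmp hF (hF.smul a y hy) (hF.smul b y hy) h0 (hF.ne y hy) ha.2.1 hb.2.1 ay
      by').resolve_right hba
  by_cases hc : a * b⁻¹ = 1
  · rw [mul_inv_eq_one.1 hc]
  have h0E : z0 ⊂ Es := h01.trans_ssubset hlt
  have hby := hF.smul b y hy
  have c1 : (a * b⁻¹) • b • y = a • y := by rw [mul_smul, inv_smul_smul]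
  have c2 : Es ⊆ (a * b⁻¹) • Es := by
    have := mono hG hF hby hE (hF.smul a Es hE) (by'.trans h0E.1) (a := 1) (t := a * b⁻¹)
      (by rwa [one_smul, c1]) (by simpa using ha.2.2)
      (by rw [mul_smul]; exact Set.smul_set_mono (Set.subset_smul_set_iff.1 hb.2.2))
    simpa using this
  have c3 := (hb.up hG hF hE hy h0 (hb.2.1.trans by') h0E.1).strict hG hF hE h0 h0E
  have c4 : (a * b⁻¹) • z0 ⊆ a • z0 := by
    rw [mul_smul]
    exact Set.smul_set_mono (Set.subset_smul_set_iff.1 c3.1)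
  have c5 : ¬ a • z0 ⊆ (a * b⁻¹) • z0 := fun e => by
    rw [mul_smul, Set.smul_set_subset_smul_set_iff] at e
    exact c3.2 (Set.smul_set_subset_iff_subset_inv_smul_set.2 e)
  have c6 : {g : G | g • z0 ⊆ (a * b⁻¹) • z0 ∧ Es ⊆ g • Es}.ncard <
      {g : G | g • z0 ⊆ a • z0 ∧ Es ⊆ g • Es}.ncard :=
    Set.ncard_lt_ncard ⟨fun g hg => ⟨hg.1.trans c4, hg.2⟩,
      fun e => c5 (e (show a ∈ {g : G | g • z0 ⊆ a • z0 ∧ Es ⊆ g • Es} from
        ⟨subset_rfl, ha.2.2⟩)).1⟩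
      ((fin' hF h0 h1 hE hlt).subset fun g hg => ⟨hg.1.trans e3, hg.2⟩)
  have := ih _ (by omega) (a * b⁻¹) b (b • y) hby ⟨hc, by rwa [c1], c2⟩
    ⟨hb.1, Set.smul_set_mono hb.2.1, hb.2.2⟩
    (by rwa [inv_mul_cancel_right, smul_smul])
    (by rwa [mul_smul, c1, smul_smul]) (c4.trans e3) e4 rfl
  rw [inv_mul_cancel_right, ← mul_assoc] at this
  exact (eq_mul_inv_iff_mul_eq.1 this)

end Ord3L

open OrdL (inf_pow sub_pow pow_mono exists_min) in
open Ord3L in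
/-- The order proposition. -/
theorem ord3_stmt : Ord3Stmt := by
  intro G _ hG 𝓕 Es hF y0 hy0 hlt
  have hE := hF.mem
  by_contra hcon
  have SH : ∀ E ∈ 𝓕, y0 ⊆ E → E ⊂ Es → ∃ a, P Es E a ∧ a ^ 4 • E ⊂ Es := fun E h1 h2 h3 =>
    sh hG hF hE h1 h3 fun e => hcon ⟨E, h1, h2, h3, e⟩
  obtain ⟨a0, ha0, ha4⟩ := SH y0 hy0 subset_rfl hlt
  have ha1 : a0 • y0 ⊂ Es := by
    have := pow_mono ha0.2.1 (show 1 ≤ 4 by norm_num)
    rw [pow_one] at this
    exact this.trans_ssubset ha4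
  obtain ⟨η, ⟨hη, hηa⟩, hmin⟩ := exists_min (T := {g : G | P Es y0 g ∧ g • y0 ⊆ a0 • y0})
    ((fin' hF hy0 (hF.smul a0 y0 hy0) hE ha1).subset fun g hg => ⟨hg.2, hg.1.2.2⟩)
    ⟨a0, ha0, subset_rfl⟩ (fun g => g • y0) fun g hg g' hg' =>
      cmp hF (hF.smul _ _ hy0) (hF.smul _ _ hy0) (hF.smul a0 _ hy0) (hF.ne _ hy0) hg.1.2.1
        hg'.1.2.1 hg.2 hg'.2
  have hη4 : η ^ 4 • y0 ⊂ Es :=
    (hη.pow_le hG hF hE hy0 hηa ha0.2.1 4 ha4.1).trans_ssubset ha4
  obtain ⟨k, hk3, hk4⟩ : ∃ k : ℕ, η ^ (k + 3) • y0 ⊂ Es ∧ ¬ η ^ (k + 4) • y0 ⊂ Es := by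
    by_contra hno
    have all : ∀ k : ℕ, η ^ (k + 3) • y0 ⊂ Es := by
      intro k
      induction k with
      | zero => exact (pow_mono hη.2.1 (by norm_num)).trans_ssubset hη4
      | succ k ih =>
        by_contra e
        exact hno ⟨k, ih, e⟩
    have st := hη.strict hG hF hE hy0 hlt
    refine inf_pow hG hη.1 (T := {g : G | y0 ⊆ g • y0 ∧ g • η • η • η • y0 ⊆ Es}) (fun n => ?_)
      (fin hF hy0 hE (hF.af3 y0 hy0 _ (hF.smul η y0 hy0) _ (hF.smul η _ (hF.smul η y0 hy0)) _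
        (hF.smul η _ (hF.smul η _ (hF.smul η y0 hy0))) st (smul_lt η st)
        (smul_lt η (smul_lt η st))))
    refine ⟨sub_pow hη.2.1 n, ?_⟩
    rw [smul_smul, smul_smul, smul_smul, ← pow_succ, ← pow_succ, ← pow_succ]
    exact (all n).1
  have hy := hF.smul (η ^ k) y0 hy0
  have sp : ∀ j : ℕ, η ^ j • η ^ k • y0 = η ^ (k + j) • y0 := fun j => by
    rw [smul_smul, ← pow_add, add_comm]
  rw [← sp] at hk3 hk4
  have hy0y : y0 ⊆ η ^ k • y0 := sub_pow hη.2.1 k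
  generalize hyd : η ^ k • y0 = y at hy hk3 hk4 hy0y
  have hηy : y ⊆ η • y := by
    rw [← hyd, smul_smul, ← pow_succ']
    exact pow_mono hη.2.1 k.le_succ
  have hj : ∀ j ≤ 3, η ^ j • y ⊂ Es := fun j hj => (pow_mono hηy hj).trans_ssubset hk3
  have hyE : y ⊂ Es := by simpa using hj 0 (by norm_num)
  have h1E : η • y ⊂ Es := by simpa using hj 1 (by norm_num)
  have hη' : P Es y η := ⟨hη.1, hηy, hη.2.2⟩
  obtain ⟨a, ha, hb4⟩ := SH y hy hy0y hyE
  have haE : a • y ⊆ Es := by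
    have := pow_mono ha.2.1 (show 1 ≤ 4 by norm_num)
    rw [pow_one] at this
    exact this.trans hb4.1
  have n1 : ¬ η • y ⊆ a • y := fun e =>
    hk4 ((hη'.pow_le hG hF hE hy e ha.2.1 4 hb4.1).trans_ssubset hb4)
  have n2 : a • y ⊆ η • y := (cmp hF (hF.smul a y hy) (hF.smul η y hy) hE (hF.ne y hy) ha.2.1 hηy
    haE h1E.1).resolve_right n1
  have s2 : η ^ 2 • y = η • η • y := by rw [smul_smul, sq]
  have s3 : η ^ 3 • y = η • η ^ 2 • y := by rw [smul_smul, ← pow_succ']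
  have com : a * η = η * a := by
    refine euclid hG hF hE (hF.smul (η ^ 2) y hy) (hF.smul (η ^ 3) y hy)
      (pow_mono hηy (by norm_num)) hk3 _ a η y hy ha hη' ?_ ?_ ?_ s3.symm.subset rfl
    · rw [mul_smul, s2]
      exact ha.mono hG hF hE hy (hF.smul η y hy) n2 hηy h1E.1 (s2 ▸ (hj 2 (by norm_num)).1)
    · rw [mul_smul, s2]
      exact Set.smul_set_mono n2
    · rw [s3]
      exact ha.mono hG hF hE hy (hF.smul _ y hy) n2 (sub_pow hηy 2) (hj 2 (by norm_num)).1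
        (s3 ▸ hk3.1)
  have ck : ∀ b : G, b * η = η * b → b • y = η ^ k • b • y0 := fun b hb => by
    rw [← hyd, smul_smul, smul_smul, ((show Commute b η from hb).pow_right k).eq]
  have f1 : y0 ⊆ a • y0 := by
    have := ha.2.1
    rw [ck a com, ← hyd] at this
    exact Set.smul_set_subset_smul_set_iff.1 this
  rw [ck a com, ck η rfl, Set.smul_set_subset_smul_set_iff] at n1 n2
  exact n1 (hmin a ⟨⟨ha.1, f1, ha.2.2⟩, n2.trans hηa⟩)

end Pool.Agent.MP_4f4d9f_gt.Ku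

end

section

/-! The limit argument under the qualitative hypotheses. -/

namespace Pool.Agent.MP_4f4d9f_gt.Ku

open Hy Hy.LimL Filter Topology

namespace LimQL

variable {G : Type} [Group G] {S : Finset G}

theorem step {M : ℕ} (hS : Gen S) (hC : CohQ S) (hM : ∀ w : G × G → ZMod 2,
    (sp2 S (d1 w)).Finite → (sp2 S (d1 w)).ncard ≤ S.card * S.card * 24 →
      ∃ c : G × G → ZMod 2, (sp1 S c).Finite ∧ (∀ t, Tri S t → d1 c t = d1 w t) ∧
        (sp1 S c).ncard ≤ M) {E E' : Set G} (hE : E ⊆ E') (hF : Few E E')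
    (h : ∀ s ∈ S, {x | x ∈ E ∧ x * s ∉ E'}.Finite) :
    ∃ (Y : Set G) (V : Finset G), Y.Finite ∧ V.card ≤ 2 * M ∧
      ∀ x y, x⁻¹ * y ∈ S → ¬ (x ∈ V ∧ y ∈ V) → (Out E E' x y ↔ ¬ (x ∈ Y ↔ y ∈ Y)) := by
  classical
  obtain ⟨T, hT, hsub⟩ := tri_card hS hE hF
  have hn : (sp2 S (d1 (O E E'))).ncard ≤ S.card * S.card * 24 := by
    refine le_trans ?_ hT
    simpa using Set.ncard_le_ncard hsub T.finite_toSet
  obtain ⟨c, c1, c2, c3⟩ := hM (O E E') (T.finite_toSet.subset hsub) hn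
  have hB : c1.toFinset.card ≤ M := by
    rwa [← Set.ncard_eq_toFinset_card _ c1]
  obtain ⟨F, hF1⟩ := hC.c0 (fun e => O E E' e + c e) fun t ht => by
    have h1 := c2 t ht
    have h2 : d1 (fun e => O E E' e + c e) t = d1 (O E E') t + d1 c t := by
      simp only [d1]
      ring
    rw [h2, h1]
    exact CharTwo.add_self_eq_zero _
  have hfin : (sp1 S (d0 F)).Finite := by
    refine ((out_finite hS h).union c1).subset fun e he => ?_
    by_contra hne
    simp only [Set.mem_union, sp1, Set.mem_ofPred_eq, not_or, not_and, not_not] at hne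
    have := hF1 e he.1
    simp only [hne.1 he.1, hne.2 he.1, add_zero] at this
    exact he.2 this.symm
  have main : ∀ x y, x⁻¹ * y ∈ S →
      ¬ (x ∈ c1.toFinset.image Prod.fst ∪ c1.toFinset.image Prod.snd ∧
        y ∈ c1.toFinset.image Prod.fst ∪ c1.toFinset.image Prod.snd) →
      (Out E E' x y ↔ F x ≠ F y) := by
    intro x y e hV
    have hc : c (x, y) = 0 := by
      by_contra hc
      have hm : (x, y) ∈ c1.toFinset := c1.mem_toFinset.2 ⟨e, hc⟩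
      exact hV ⟨Finset.mem_union_left _ (Finset.mem_image_of_mem Prod.fst hm),
        Finset.mem_union_right _ (Finset.mem_image_of_mem Prod.snd hm)⟩
    have h1 := hF1 (x, y) e
    simp only [hc, add_zero, d0, O] at h1
    have z2 : ∀ a b : ZMod 2, (1 = a + b → a ≠ b) ∧ (0 = a + b → a = b) := by decide
    by_cases ho : Out E E' x y
    · rw [if_pos ho] at h1
      exact ⟨fun _ => (z2 _ _).1 h1, fun _ => ho⟩
    · rw [if_neg ho] at h1
      exact ⟨fun e => absurd e ho, fun e => absurd ((z2 _ _).2 h1) e⟩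
  have hcard : (c1.toFinset.image Prod.fst ∪ c1.toFinset.image Prod.snd).card
      ≤ 2 * M := by
    have a1 := Finset.card_union_le (c1.toFinset.image Prod.fst) (c1.toFinset.image Prod.snd)
    have a2 : (c1.toFinset.image Prod.fst).card ≤ _ := Finset.card_image_le
    have a3 : (c1.toFinset.image Prod.snd).card ≤ _ := Finset.card_image_le
    omega
  have z0 : ∀ a b : ZMod 2, (a ≠ b ↔ ¬ (a ≠ 0 ↔ b ≠ 0)) ∧ (a ≠ b ↔ ¬ (a ≠ 1 ↔ b ≠ 1)) := by decide
  rcases hC.c1 F hfin with h0 | h0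
  · exact ⟨_, _, h0, hcard, fun x y e hV => (main x y e hV).trans (z0 _ _).1⟩
  · exact ⟨_, _, h0, hcard, fun x y e hV => (main x y e hV).trans (z0 _ _).2⟩

theorem set (hS : Gen S) (h : CohQ S) {A : Set G}
    (e : ∀ s ∈ S, {x | x ∈ A ∧ x * s ∉ A}.Finite) : A.Finite ∨ Aᶜ.Finite := by
  classical
  have h1 : (⋃ s ∈ S, (fun x => (x, x * s)) '' {x | x ∈ A ∧ x * s ∉ A}).Finite :=
    S.finite_toSet.biUnion fun s hs => (e s hs).image _
  have h2 := h.c1 (fun x => if x ∈ A then 1 else 0) ((h1.union (h1.image Prod.swap)).subset ?_)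
  · refine h2.imp (fun h => h.subset fun x hx => ?_) fun h => h.subset fun x hx => ?_
    · simp [hx]
    · simp [Set.notMem_of_mem_compl hx]
  · rintro ⟨x, y⟩ ⟨e1, e2⟩
    by_cases hx : x ∈ A <;> by_cases hy : y ∈ A
    · exact absurd (by simp only [d0, if_pos hx, if_pos hy]; rfl) e2
    · exact Or.inl (Set.mem_biUnion e1 ⟨x, ⟨hx, by simpa using hy⟩, by simp⟩)
    · exact Or.inr ⟨(y, x), Set.mem_biUnion (hS.symm e1) ⟨y, ⟨hy, by simpa using hx⟩, by simp⟩,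
        rfl⟩
    · exact absurd (by simp [d0, hx, hy]) e2

end LimQL

theorem limQ_stmt : LimQStmt := by
  intro G _ S C hS hG hC E' E ψ₁ ψ₂ hE hlim hfin hfew d1 i1 z1 n1 d2 i2 z2 n2
  obtain ⟨M, hM⟩ := hC.c2 (S.card * S.card * 24)
  choose Y V y1 y2 y3 using fun k => LimQL.step hS hC hM (hE k) (hfew k) (hfin k)
  let U := hyperfilter ℕ
  have hU : ∀ x, ∀ᶠ k in (U : Filter ℕ), (x ∈ E k ↔ x ∈ E') := fun x => by
    by_cases hx : x ∈ E'
    · exact ((hlim x hx).filter_mono Nat.hyperfilter_le_atTop).mono fun k hk =>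
        ⟨fun _ => hx, fun _ => hk⟩
    · exact Eventually.of_forall fun k => ⟨fun h => hE k h, fun h => absurd h hx⟩
  let A : Set G := {x | ∀ᶠ k in (U : Filter ℕ), x ∈ Y k}
  have hA : ∀ x, ∀ᶠ k in (U : Filter ℕ), (x ∈ Y k ↔ x ∈ A) := fun x => by
    by_cases hx : x ∈ A
    · exact (show ∀ᶠ k in (U : Filter ℕ), x ∈ Y k from hx).mono fun k hk =>
        ⟨fun _ => hx, fun _ => hk⟩
    · exact (Ultrafilter.eventually_not.2 hx).mono fun k hk =>
        ⟨fun h => absurd h hk, fun h => absurd h hx⟩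
  let D : Set G := {x | ¬ (x ∈ A ↔ x ∈ E')}
  have hD : ∀ s ∈ S, {x | x ∈ D ∧ x * s ∉ D}.Finite := by
    intro s hs
    by_contra hinf
    obtain ⟨T, t1, t2⟩ := Set.Infinite.exists_subset_card_eq hinf
      (2 * M + 1)
    have ev : ∀ x ∈ T, ∀ᶠ k in (U : Filter ℕ), x ∈ V k := by
      intro x hx
      obtain ⟨a1, a2⟩ := t1 hx
      filter_upwards [hU x, hU (x * s), hA x, hA (x * s)] with k b1 b2 b3 b4
      by_contra hV
      have b5 := y3 k x (x * s) (by simpa using hs) fun e => hV e.1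
      simp only [D, Set.mem_ofPred_eq, not_not] at a1 a2
      rw [Out, b1, b2, b3, b4] at b5
      tauto
    obtain ⟨k, hk⟩ := ((eventually_all_finset T).2 ev).exists
    have c1 := Finset.card_le_card (show T ⊆ V k from hk)
    have c2 := y2 k
    omega
  rcases LimQL.set hS hC hD with h | h
  · refine n1 (sq_of_lim (l := (U : Filter ℕ)) (Z := A ∩ E') (Y := fun k => Y k ∩ E k)
      (fun x hx => ?_) (fun k T hT => energy hS hG d1 i1 ((y1 k).inter_of_left (E k)) (y2 k)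
        (fun x y e hx hy => ?_) T hT) ?_)
    · filter_upwards [hU x, hA x] with k b1 b2
      exact ⟨b2.2 hx.1, b1.2 hx.2⟩
    · by_cases hy' : y ∈ E k
      · right
        by_contra hV
        have b := (y3 k x y e hV).2 fun b => hy ⟨b.1 hx.1, hy'⟩
        exact b.elim (fun b => b.2 (hE k hy')) fun b => b.2 (hE k hx.2)
      · exact Or.inl (z1 k y hy')
    · refine h.eventually_cofinite_notMem.mono fun x hx => ?_
      have hx' : x ∈ A ↔ x ∈ E' := not_not.1 hx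
      by_cases hx2 : x ∈ E'
      · exact Or.inl ⟨hx'.2 hx2, hx2⟩
      · exact Or.inr (z1 0 x fun e => hx2 (hE 0 e))
  · refine n2 (sq_of_lim (l := (U : Filter ℕ)) (Z := A \ E') (Y := fun k => Y k \ E')
      (fun x hx => ?_) (fun k T hT => energy hS hG d2 i2 ((y1 k).sdiff (t := E')) (y2 k)
        (fun x y e hx hy => ?_) T hT) ?_)
    · filter_upwards [hA x] with k b2
      exact ⟨b2.2 hx.1, hx.2⟩
    · by_cases hy' : y ∈ E'
      · exact Or.inl (z2 y hy')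
      · right
        by_contra hV
        have b := (y3 k x y e hV).2 fun b => hy ⟨b.1 hx.1, hy'⟩
        exact b.elim (fun b => hx.2 (hE k b.1)) fun b => hy' (hE k b.1)
    · refine h.eventually_cofinite_notMem.mono fun x hx => ?_
      have hx' : ¬ (x ∈ A ↔ x ∈ E') := not_not.1 hx
      by_cases hx2 : x ∈ E'
      · exact Or.inr (z2 x hx2)
      · refine Or.inl ⟨?_, hx2⟩
        by_contra hx3
        exact hx' ⟨fun e => absurd e hx3, fun e => absurd e hx2⟩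

end Pool.Agent.MP_4f4d9f_gt.Ku

end

section

/-! The cells attached to a component of the set where the label changes. -/

namespace Pool.Agent.MP_4f4d9f_gt.Ku

open Filter Hy
open scoped Pointwise

namespace CelAL

variable {G : Type} [Group G] {X : Type} {S : Finset G} {lam : G → X} {V : Set G} {x y u v : G}

/-- A connected union of components of the set where the label changes. -/
structure Cp (S : Finset G) (lam : G → X) (V : Set G) : Prop where
  cs : Cs S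
  sub : V ⊆ {x | ∃ s ∈ S, lam (x * s) ≠ lam x}
  clo : ∀ u ∈ V, ∀ v, u⁻¹ * v ∈ S → (∃ s ∈ S, lam (v * s) ≠ lam v) → v ∈ V
  conn : Cnn S V

/-- The cells. -/
def cl (S : Finset G) (lam : G → X) (V : Set G) (x : G) : Set G :=
  {y | Relation.ReflTransGen (fun u v => u⁻¹ * v ∈ S ∧ (u ∈ V → lam v = lam u)) x y}

theorem Cp.cl2 (h : Cp S lam V) (hu : u ∈ V) (e : u⁻¹ * v ∈ S) (k : lam v ≠ lam u) : v ∈ V :=
  h.clo u hu v e ⟨_, h.cs.gen.symm e, by rw [mul_inv_cancel_left]; exact k.symm⟩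

theorem Cp.rsymm (h : Cp S lam V) (e : u⁻¹ * v ∈ S ∧ (u ∈ V → lam v = lam u)) :
    v⁻¹ * u ∈ S ∧ (v ∈ V → lam u = lam v) :=
  ⟨h.cs.gen.symm e.1, fun hv => by
    by_contra k
    exact k (e.2 (h.cl2 hv (h.cs.gen.symm e.1) k)).symm⟩

theorem self (x : G) : x ∈ cl S lam V x := Relation.ReflTransGen.refl

theorem Cp.symm (h : Cp S lam V) (e : y ∈ cl S lam V x) : x ∈ cl S lam V y := by
  induction e with
  | refl => exact self _
  | tail _ k ih => exact Relation.ReflTransGen.head (h.rsymm k) ih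

theorem Cp.eqv (h : Cp S lam V) (e : y ∈ cl S lam V x) : cl S lam V y = cl S lam V x :=
  Set.ext fun _ => ⟨fun k => Relation.ReflTransGen.trans e k,
    fun k => Relation.ReflTransGen.trans (h.symm e) k⟩

theorem Cp.edge (h : Cp S lam V) (e : u⁻¹ * v ∈ S) (k : Cr (cl S lam V x) u v) :
    u ∈ V ∧ lam v ≠ lam u := by
  by_contra c
  have r : u⁻¹ * v ∈ S ∧ (u ∈ V → lam v = lam u) := ⟨e, fun a => not_not.1 fun b => c ⟨a, b⟩⟩
  exact k ⟨fun a => Relation.ReflTransGen.tail a r,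
    fun a => Relation.ReflTransGen.tail a (h.rsymm r)⟩

theorem mem_mul {s : G} (hs : s ∈ S) (u : G) : u⁻¹ * (u * s) ∈ S := by rwa [inv_mul_cancel_left]

theorem Cp.out (h : Cp S lam V) : Bdy S (cl S lam V x) ⊆ V :=
  fun u ⟨_, hs, k⟩ => (h.edge (mem_mul hs u) k).1

theorem cut (h : Cs S) (L Q A : Set G) (hA : Bdy S L ⊆ A)
    (hQ : ∀ u ∈ Q, ∀ v ∈ A, u⁻¹ * v ∈ S → v ∈ Q) :
    ∃ F : Set G, ∀ u v, u⁻¹ * v ∈ S → (Cr F u v ↔ Cr L u v ∧ u ∈ Q) := by
  obtain ⟨F, hF⟩ := h.cut0 L Q fun u hu s hs hv k => k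
    ⟨fun a => hQ u a _ (hA hv) (mem_mul hs u),
      fun a => hQ _ a u (hA hu) (h.gen.symm (mem_mul hs u))⟩
  refine ⟨F, fun u v e => ?_⟩
  have := hF u _ e
  rwa [mul_inv_cancel_left] at this

theorem Cp.lconst (h : Cp S lam V) (hx : x ∈ V) (hy : y ∈ V) (e : y ∈ cl S lam V x) :
    lam y = lam x := by
  obtain ⟨F, hF⟩ := cut h.cs {z | lam z = lam x} V {z | ∃ s ∈ S, lam (z * s) ≠ lam z}
    (fun z ⟨s, hs, k⟩ => ⟨s, hs, fun a => k (by
      change lam z = lam x ↔ lam (z * s) = lam x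
      rw [a])⟩) fun u hu v hv e => h.clo u hu v e hv
  have h1 : x ∈ F ↔ y ∈ F := by
    clear hy
    induction e with
    | refl => rfl
    | @tail a b _ k ih =>
      refine ih.trans (not_not.1 fun c => ?_)
      obtain ⟨c1, c2⟩ := (hF a b k.1).1 c
      refine c1 ?_
      change lam a = lam x ↔ lam b = lam x
      rw [k.2 c2]
  exact ((h.conn x hx y hy).ind (P := fun y => (x ∈ F ↔ y ∈ F) ↔ lam y = lam x)
    (iff_of_true Iff.rfl rfl) fun a b ha _ k ih => by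
      have h2 : ¬ (a ∈ F ↔ b ∈ F) ↔ ¬ (lam a = lam x ↔ lam b = lam x) :=
        (hF a b k).trans (and_iff_left ha.right)
      tauto).1 h1

theorem Cp.bin (h : Cp S lam V) (hx : x ∈ V) : x ∈ Bdy S (cl S lam V x) := by
  obtain ⟨s, hs, k⟩ := h.sub hx
  exact ⟨s, hs, fun a => k (h.lconst hx (h.cl2 hx (mem_mul hs x) k) (a.1 (self x)))⟩

theorem Cp.cnn (h : Cp S lam V) : Cnn S (cl S lam V x) := by
  have key : ∀ y ∈ cl S lam V x, Conn S (cl S lam V x) x y := fun y e => by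
    induction e with
    | refl => exact Conn.refl (self x)
    | tail a k ih => exact ih.tail (Relation.ReflTransGen.tail a k) k.1
  exact fun y hy z hz => ((key y hy).symm h.cs.gen).trans (key z hz)

theorem Cp.bcon' (h : Cp S lam V) {D : Set G} (hD : D = cl S lam V x) {y₁ : G} (h1 : y₁ ∈ D)
    (h2 : y₁ ∈ Bdy S D) : ∀ y ∈ Bdy S D, Conn S (Bdy S D) y₁ y := by
  have hS := h.cs.gen
  have hout : Bdy S D ⊆ V := hD ▸ h.out
  have hbin : ∀ u ∈ D, u ∈ V → u ∈ Bdy S D := fun u hu hv => by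
    rw [hD] at hu ⊢
    rw [← h.eqv hu]
    exact h.bin hv
  obtain ⟨F, hF, h3⟩ : ∃ F : Set G, (∀ u v, u⁻¹ * v ∈ S →
      (Cr F u v ↔ Cr D u v ∧ Conn S (Bdy S D) y₁ u)) ∧ y₁ ∈ F := by
    obtain ⟨F, hF⟩ := cut h.cs D {z | Conn S (Bdy S D) y₁ z} _ subset_rfl
      fun u hu v hv e => Conn.tail hu hv e
    by_cases k : y₁ ∈ F
    · exact ⟨F, hF, k⟩
    · exact ⟨Fᶜ, fun u v e => cr_compl.trans (hF u v e), k⟩
  have h4 : D ⊆ F := fun u hu => (not_not.1 (conn_not_cr (L := F)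
    ((hD ▸ h.cnn : Cnn S D) y₁ h1 u hu) fun a ha s hs hb k =>
      ((hF a _ (mem_mul hs a)).1 k).1 (iff_of_true ha hb))).1 h3
  have h5 : ∀ u ∈ D, u ∈ V → Conn S (Bdy S D) y₁ u := fun u hu hv => by
    refine (((h.conn y₁ (hout h2) u hv).ind
      (P := fun u => (u ∈ D ∧ Conn S (Bdy S D) y₁ u) ∨ u ∉ F) (Or.inl ⟨h1, Conn.refl h2⟩)
      fun a b _ hb e ih => ?_).resolve_right (not_not.2 (h4 hu))).2
    by_cases k : b ∈ F
    · rcases ih with ⟨a1, a2⟩ | a1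
      · have b1 : b ∈ D := by
          by_contra b1
          exact (hF a b e).2 ⟨fun c => b1 (c.1 a1), a2⟩ (iff_of_true (h4 a1) k)
        exact Or.inl ⟨b1, a2.tail (hbin b b1 hb) e⟩
      · obtain ⟨c1, c2⟩ := (hF a b e).1 fun c => a1 (c.2 k)
        have b1 : b ∈ D := by
          by_contra b1
          exact c1 (iff_of_false (fun c => a1 (h4 c)) b1)
        exact Or.inl ⟨b1, c2.tail (hbin b b1 hb) e⟩
    · exact Or.inr k
  intro y hy
  by_cases k : y ∈ D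
  · exact h5 y k (hout hy)
  · obtain ⟨s, hs, c⟩ := id hy
    have b1 : y * s ∈ D := by
      by_contra b1
      exact c (iff_of_false k b1)
    exact (h5 _ b1 (hout (Cr.right hS c (mem_mul hs y)))).tail hy (hS.symm (mem_mul hs y))

theorem Cp.bcon (h : Cp S lam V) : Cnn S (Bdy S (cl S lam V x)) := by
  intro y hy z hz
  obtain ⟨y₁, h1, h2⟩ : ∃ y₁ ∈ cl S lam V x, y₁ ∈ Bdy S (cl S lam V x) := by
    by_cases k : y ∈ cl S lam V x
    · exact ⟨y, k, hy⟩
    · obtain ⟨s, hs, c⟩ := hy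
      exact ⟨y * s, not_not.1 fun b => c (iff_of_false k b), Cr.right h.cs.gen c (mem_mul hs y)⟩
  exact ((h.bcon' rfl h1 h2 y hy).symm h.cs.gen).trans (h.bcon' rfl h1 h2 z hz)

theorem Cp.bsub (h : Cp S lam V) (hx : x ∈ V) :
    Bdy S (cl S lam V x) ⊆ Bdy S {z | lam z = lam x} := by
  rintro y ⟨s, hs, c⟩
  obtain ⟨c1, c2⟩ := h.edge (mem_mul hs y) c
  refine ⟨s, hs, fun (a : lam y = lam x ↔ lam (y * s) = lam x) => c2 ?_⟩
  by_cases k : y ∈ cl S lam V x
  · have := h.lconst hx c1 k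
    rw [this, a.1 this]
  · have := h.lconst hx (h.cl2 c1 (mem_mul hs y) c2)
      (not_not.1 fun b => c (iff_of_false k b))
    rw [this, a.2 this]

end CelAL

open CelAL in
theorem celA_stmt : CelAStmt := by
  intro G _ X _ _ _ _ S b B lam H bd lab sp x₀
  have hS := bd.cs.gen
  have cp : Cp S lam (VV S lam x₀) :=
    ⟨bd.cs, fun x hx => Conn.right hx, fun u hu v e hv => Conn.tail hu hv e, cnn_comp hS _ _⟩
  have hA : ∀ h ∈ H, h • VA S lam ⊆ VA S lam := by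
    rintro h hh _ ⟨x, ⟨s, hs, k⟩, rfl⟩
    refine ⟨s, hs, fun e => k (MulAction.injective h ?_)⟩
    change h • lam (x * s) = h • lam x
    rw [← lab.eqv h hh, ← lab.eqv h hh, ← mul_assoc]
    exact e
  have p1 : ∀ h ∈ H, ∀ x ∈ VV S lam x₀, h * x ∈ VV S lam x₀ → ∀ y ∈ VV S lam x₀,
      h * y ∈ VV S lam x₀ := fun h hh x hx k y hy =>
    Conn.trans k (((Conn.trans (Conn.symm hS hx) hy).smul h).mono (hA h hh))
  have p2 : ∀ h ∈ H, ∀ x ∈ VV S lam x₀, h * x ∈ VV S lam x₀ →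
      h ∈ H ⊓ MulAction.stabilizer G (VV S lam x₀) := fun h hh x hx k =>
    ⟨hh, Set.Subset.antisymm (by
      rintro _ ⟨y, hy, rfl⟩
      exact p1 h hh x hx k y hy) fun y hy => Set.mem_smul_set_iff_inv_smul_mem.2
        (p1 _ (H.inv_mem hh) _ k (by rwa [inv_mul_cancel_left]) y hy)⟩
  have cell : cel S lam (VV S lam x₀) = cl S lam (VV S lam x₀) := rfl
  rw [cell]
  generalize VV S lam x₀ = V at cp p2
  have q1 : ∀ h ∈ H ⊓ MulAction.stabilizer G V, ∀ x, h * x ∈ V ↔ x ∈ V := fun h hh x => by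
    conv_lhs => rw [← MulAction.mem_stabilizer_iff.1 hh.2]
    exact Set.smul_mem_smul_set_iff
  have q2 : ∀ h ∈ H ⊓ MulAction.stabilizer G V, ∀ x, ∀ y ∈ cl S lam V x,
      h * y ∈ cl S lam V (h * x) := fun h hh x y e => by
    induction e with
    | refl => exact self _
    | tail _ k ih =>
      exact Relation.ReflTransGen.tail ih ⟨by simpa [mul_assoc] using k.1, fun a => by
        rw [lab.eqv h hh.1, lab.eqv h hh.1, k.2 ((q1 h hh _).1 a)]⟩
  refine ⟨H ⊓ MulAction.stabilizer G V, fun h hh x hx => (q1 h hh x).2 hx, ?_, cp.conn,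
    fun ξ hξ => ?_, self, fun x y e => cp.eqv e, fun h hh x => ?_, fun h hh => lab.eqv h hh.1,
    fun x => cp.out, fun x => cp.bin, fun x => cp.bcon, fun x hx y hy => cp.lconst hx hy,
    fun x hx ξ e => mem_of_superset (bd.cv.bdy (S := S) (sp (lam x) ξ e))
      (Set.compl_subset_compl.2 (cp.bsub hx))⟩
  · obtain ⟨T, h1, h2⟩ := lab.orb
    have h3 : ∀ t : G, ∃ k ∈ H, ∀ h ∈ H, h * t ∈ V → k * t ∈ V := fun t => by
      by_cases c : ∃ h ∈ H, h * t ∈ V
      · obtain ⟨k, c1, c2⟩ := c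
        exact ⟨k, c1, fun _ _ _ => c2⟩
      · exact ⟨1, H.one_mem, fun h c1 c2 => absurd ⟨h, c1, c2⟩ c⟩
    choose k k1 k2 using h3
    refine ⟨_, h1.image fun t => k t * t, fun x hx => ?_⟩
    obtain ⟨s, hs, e⟩ := cp.sub hx
    obtain ⟨h, a1, a2⟩ := h2 x s hs e
    refine ⟨h * (k (h⁻¹ * x))⁻¹, p2 _ (H.mul_mem a1 (H.inv_mem (k1 _))) _
      (k2 (h⁻¹ * x) h a1 (by rwa [mul_inv_cancel_left])) (by simpa [mul_assoc] using hx),
      h⁻¹ * x, a2, by simp [mul_assoc]⟩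
  · by_contra c
    obtain ⟨a, a1, a2⟩ := lab.out ξ (mem_KK_of_freq hξ) c
    have a3 := (sp a ξ a1.symm).resolve_right a2
    refine hξ ?_
    filter_upwards [a3, (eventually_all_finset S).2 fun s _ => bd.cv.nf_right s a3] with x e1 e2 hx
    obtain ⟨s, hs, e⟩ := cp.sub hx
    exact e ((e2 s hs).trans (Eq.symm e1))
  · refine Set.Subset.antisymm (fun y hy => Set.mem_smul_set_iff_inv_smul_mem.2 ?_) ?_
    · have := q2 _ (Subgroup.inv_mem _ hh) _ y hy
      rwa [inv_mul_cancel_left] at this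
    · rintro _ ⟨y, hy, rfl⟩
      exact q2 h hh x y hy

end Pool.Agent.MP_4f4d9f_gt.Ku

end

section

/-! Job `Last`: the rescaling lemma applied inside a block gives a cut of the block. -/

namespace Pool.Agent.MP_4f4d9f_gt.Ku

open Filter Topology Hy
open scoped Pointwise

namespace LastL

variable {G : Type} [Group G] {X : Type} [MetricSpace X] [MulAction G X] {S : Finset G}
  {b k ξ : X} {B π : Set X} {lam : G → X} {H : Subgroup G} {V P : Set G} {D : G → Set G} {x : G}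

/-- The places of `V` where `P` is crossed. -/
def Loc (S : Finset G) (V P : Set G) : Set G := {x | x ∈ V ∧ ∃ s ∈ S, x * s ∈ V ∧ Cr P x (x * s)}

/-- The side to which a cell is attached. -/
def val (S : Finset G) (P E : Set G) : Prop :=
  (∀ y ∈ Bdy S E, y ∈ P) ∨ ((Bdy S E).Infinite ∧ (Bdy S E \ P).Finite)

theorem small (ce : Cel S b B lam H V D) (hx : x ∈ V) (h : ∀ y ∈ Bdy S (D x), y ∉ Loc S V P) :
    val S P (D x) ↔ x ∈ P := by
  have key : ∀ y ∈ Bdy S (D x), (x ∈ P ↔ y ∈ P) := fun y hy => not_not.1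
    (conn_not_cr (L := P) (ce.bcon x x (ce.bin x hx) y hy) fun a ha s hs e c =>
      h a ha ⟨ce.out x ha, s, hs, ce.out x e, c⟩)
  refine ⟨fun e => ?_, fun e => Or.inl fun y hy => (key y hy).1 e⟩
  rcases e with e | e
  · exact e x (ce.bin x hx)
  · by_contra c
    exact e.1 (e.2.subset fun y hy => ⟨hy, fun c' => c ((key y hy).2 c')⟩)

variable [CompactSpace X]

theorem ray_lim {A : Set G} {z : ℕ → G} (h : ∀ η, η ≠ ξ → Aᶜ ∈ nf G b η) (hz : IsRay S z)
    (e : ∀ n, z n ∈ A) : Tendsto (fun n => z n • b) atTop (𝓝 ξ) :=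
  Metric.tendsto_nhds.2 fun ε hε =>
    (hz.notMem (only_iff.1 h ε hε)).mono fun n c => not_le.1 fun c' => c ⟨e n, c'⟩

theorem big (bd : Bd S b) (ce : Cel S b B lam H V D)
    (a1 : ∀ ξ, ξ ≠ k → (Loc S V P)ᶜ ∈ nf G b ξ)
    (a2 : ∀ z, IsRay S z → (∀ n, z n ∈ V) → ∀ ξ, ξ ≠ k →
      Tendsto (fun n => z n • b) atTop (𝓝 ξ) → ∀ᶠ n in atTop, (z n ∈ P ↔ ξ ∈ π))
    (hx : x ∈ V) (hk : lam x ≠ k) :
    {y | y ∈ Bdy S (D x) ∧ ¬ (val S P (D x) ↔ y ∈ P)}.Finite := by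
  by_cases hf : (Bdy S (D x)).Finite
  · exact hf.subset fun y hy => hy.1
  have h1 : (Loc S V P ∩ Bdy S (D x)).Finite := (finite_iff b).2 fun ξ => by
    by_cases e : ξ = k
    · exact mem_of_superset (ce.only x hx ξ (e ▸ hk.symm)) fun y c c' => c c'.2
    · exact mem_of_superset (a1 ξ e) fun y c c' => c c'.1
  have h2 : (Bdy S (D x) ∩ P).Finite ∨ (Bdy S (D x) \ P).Finite := by
    by_contra c
    obtain ⟨c1, c2⟩ := not_or.1 c
    obtain ⟨z, b1, b2⟩ := bd.kon _ _ (ce.bcon x) Set.inter_subset_left c1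
      (h1.subset fun y ⟨hy, s, hs, e1, e2⟩ => ⟨⟨ce.out x hy.1, s, hs, ce.out x e1,
        fun e => e2 ⟨e1, e.1 hy.2⟩⟩, hy.1⟩)
    obtain ⟨z', d1, d2⟩ := bd.kon _ _ (ce.bcon x) Set.sdiff_subset c2
      (h1.subset fun y ⟨hy, s, hs, e1, e2⟩ => ⟨⟨ce.out x hy.1, s, hs, ce.out x e1,
        fun e => e2 ⟨e1, fun e' => hy.2 (e.2 e')⟩⟩, hy.1⟩)
    obtain ⟨n, hn⟩ := (a2 z b1 (fun n => ce.out x (b2 n).1) _ hk
      (ray_lim (ce.only x hx) b1 fun n => (b2 n).1)).exists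
    obtain ⟨m, hm⟩ := (a2 z' d1 (fun n => ce.out x (d2 n).1) _ hk
      (ray_lim (ce.only x hx) d1 fun n => (d2 n).1)).exists
    exact (d2 m).2 (hm.2 (hn.1 (b2 n).2))
  rcases h2 with h2 | h2
  · have h3 : ¬ val S P (D x) := by
      rintro (e | e)
      · exact hf (h2.subset fun y hy => ⟨hy, e y hy⟩)
      · exact hf ((h2.union e.2).subset fun y hy => (em (y ∈ P)).imp (⟨hy, ·⟩) (⟨hy, ·⟩))
    exact h2.subset fun y hy => ⟨hy.1, by_contra fun c => hy.2 (iff_of_false h3 c)⟩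
  · exact h2.subset fun y hy => ⟨hy.1, fun c => hy.2 (iff_of_true (Or.inr ⟨hf, h2⟩) c)⟩

theorem good (bd : Bd S b) (ce : Cel S b B lam H V D) (nu : Null S b V D)
    (a1 : ∀ ξ, ξ ≠ k → (Loc S V P)ᶜ ∈ nf G b ξ)
    (a2 : ∀ z, IsRay S z → (∀ n, z n ∈ V) → ∀ ξ, ξ ≠ k →
      Tendsto (fun n => z n • b) atTop (𝓝 ξ) → ∀ᶠ n in atTop, (z n ∈ P ↔ ξ ∈ π))
    (hξ : ξ ≠ k) : ∀ᶠ x in nf G b ξ, x ∈ V → (val S P (D x) ↔ x ∈ P) := by
  have he : 0 < dist ξ k / 3 := div_pos (dist_pos.2 hξ) three_pos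
  obtain ⟨Z, hZ, h1⟩ := nu _ he
  have h2 := only_iff.1 a1 _ he
  have h3 : ∀ z : G, ∀ᶠ x in nf G b ξ, x ∈ V → z ∈ D x → (val S P (D x) ↔ x ∈ P) := fun z => by
    by_cases c : ∃ x ∈ V, z ∈ D x
    · obtain ⟨x₀, c1, c2⟩ := c
      have c3 : {y | y ∈ Bdy S (D x₀) ∧ ¬ (val S P (D x₀) ↔ y ∈ P)}ᶜ ∈ nf G b ξ := by
        by_cases e : ξ = lam x₀
        · exact compl_mem_nf (big bd ce a1 a2 c1 (e ▸ hξ))
        · exact mem_of_superset (ce.only x₀ c1 ξ e) fun y c c' => c c'.1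
      filter_upwards [c3] with x d1 d2 d3
      have e : D x₀ = D x := (ce.eqv _ _ c2).symm.trans (ce.eqv _ _ d3)
      rw [e] at d1
      exact by_contra fun c => d1 ⟨ce.bin x d2, c⟩
    · exact Eventually.of_forall fun x d1 d2 => absurd ⟨x, d1, d2⟩ c
  filter_upwards [nf_tendsto (Metric.ball_mem_nhds ξ he),
    (eventually_all_finite (hZ.union (h2.mul S.finite_toSet))).2 fun z _ => h3 z] with x d1 d2 hx
  by_contra c
  refine c (small ce hx fun y hy e => ?_)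
  have d3 := h1 x hx (Set.disjoint_left.2 fun z e1 e2 => c (d2 z (Or.inl e2) hx e1)) y hy
  have d4 : dist (x • b) ξ < dist ξ k / 3 := d1
  have d5 : dist ξ k / 3 ≤ dist (y • b) k := by
    have := dist_triangle_left ξ k (y • b)
    have := dist_triangle (y • b) (x • b) ξ
    linarith
  obtain ⟨s, hs, d6⟩ := hy
  by_cases d7 : y ∈ D x
  · exact c (d2 y (Or.inr ⟨y, ⟨e, d5⟩, 1, bd.cs.gen.one, mul_one y⟩) hx d7)
  · exact c (d2 (y * s) (Or.inr ⟨y, ⟨e, d5⟩, s, hs, rfl⟩) hx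
      (by_contra fun d8 => d6 (iff_of_false d7 d8)))

end LastL

open LastL in
theorem last_stmt : LastStmt := by
  intro G _ X _ _ _ _ S b B lam H V D bd hR ce _ nu ⟨a, h1, h2⟩
  obtain ⟨k, P, π, a1, a2, ξ, η, a3, a4, a5, a6, a7, a8⟩ := hR H V ce.inv ce.orb ce.conn a h1 h2
  have hg := fun ξ (e : ξ ≠ k) => good bd ce nu a1 a2 e
  have hP : Sp b k {x | val S P (D x)} := bd.sp_iff.2 fun ξ e => by
    filter_upwards [a1 ξ e, hg ξ e,
      (eventually_all_finset S).2 fun s _ => (bd.cv.nf_right s).eventually (hg ξ e)]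
      with x c1 c2 c3
    rintro ⟨s, hs, c⟩
    have c4 : Cr (D x) x (x * s) := fun e => c (by
      change val S P (D x) ↔ val S P (D (x * s))
      rw [ce.eqv _ _ (e.1 (ce.self x))])
    have c5 : x⁻¹ * (x * s) ∈ S := by rwa [inv_mul_cancel_left]
    have c6 := ce.out x (c4.left c5)
    have c7 := ce.out x (c4.right bd.cs.gen c5)
    exact c1 ⟨c6, s, hs, c7, fun e => c (((c2 c6).trans e).trans (c3 s hs c7).symm)⟩
  refine ⟨k, ξ, ce.lim ξ a5.freq, η, ce.lim η a6.freq, a5.mem, a6.mem, a3, a4, _, hP,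
    (hP ξ a3).resolve_right fun e => ?_, (hP η a4).resolve_left fun e => ?_⟩
  · obtain ⟨z, b1, b2, b3⟩ := a5
    obtain ⟨n, ⟨c1, c2⟩, c3⟩ := (((a2 z b1 b2 ξ a3 b3).and (b1.nf b3 e)).and
      ((b1.nf b3).eventually (hg ξ a3))).exists
    exact c2 ((c3 (b2 n)).2 (c1.2 a7))
  · obtain ⟨z, b1, b2, b3⟩ := a6
    obtain ⟨n, ⟨c1, c2⟩, c3⟩ := (((a2 z b1 b2 η a4 b3).and (b1.nf b3 e)).and
      ((b1.nf b3).eventually (hg η a4))).exists
    exact a8 (c1.1 ((c3 (b2 n)).1 c2))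

end Pool.Agent.MP_4f4d9f_gt.Ku

end
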