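import Pool.Agent.Mg.F4f4d9fr.G8e7da9
import Pool.Agent.Mg.F4f4d9fr.G30dcc0

set_option linter.all false

section

/-! Existence of the potentials in the model with cone vertices. -/

namespace Pool.Agent.MP_4f4d9f_gt.Rk

open Filter Topology Hy Ku

namespace PotL

variable {G Ω : Type}

theorem mem_iff {f : G → ℝ} : Memℓp f 2 ↔ Sq f := by
  rw [memℓp_gen_iff (by norm_num)]
  simp [Sq]

/-- Square summable functions on the edges. -/
abbrev H (N : Net G Ω) : Type := lp (fun _ : N.T => lp (fun _ : G => ℝ) 2) 2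

variable {N : Net G Ω}

theorem exists_e (τ : N.T) (x : G) : ∃ e : H N, ∀ w : H N, inner ℝ e w = w τ x := by
  classical
  refine ⟨lp.single 2 τ (lp.single 2 x 1), fun w => ?_⟩
  rw [lp.inner_single_left, lp.inner_single_left]
  simp

variable [Group G] [MulAction G Ω]

/-- `w` is the gradient of `f`. -/
def Gr (w : H N) (f : Ω → ℝ) : Prop :=
  ∀ (τ : N.T) (x : G), w τ x = f (x • (τ : Ω)) - f (x • N.o)

theorem Gr.dir {w : H N} {f : Ω → ℝ} (h : Gr w f) : Dir N f := fun τ hτ => by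
  have h1 := mem_iff.1 (lp.memℓp (w ⟨τ, hτ⟩))
  have h2 : (fun x : G => f (x • τ) - f (x • N.o)) = w ⟨τ, hτ⟩ :=
    funext fun x => (h ⟨τ, hτ⟩ x).symm
  rw [h2]
  exact h1

theorem exists_gr {f : Ω → ℝ} (h : Dir N f) : ∃ w : H N, Gr w f :=
  ⟨⟨fun τ => ⟨fun x => f (x • (τ : Ω)) - f (x • N.o), mem_iff.2 (h τ τ.2)⟩, Memℓp.all _⟩,
    fun _ _ => rfl⟩

theorem Gr.inner {w w' : H N} {f g : Ω → ℝ} (h : Gr w f) (h' : Gr w' g) :
    inner ℝ w w' = BB N f g := by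
  rw [lp.inner_eq_tsum, tsum_fintype, BB, ← Finset.sum_coe_sort N.T]
  refine Finset.sum_congr rfl fun s _ => ?_
  rw [lp.inner_eq_tsum]
  refine tsum_congr fun x => ?_
  rw [h s x, h' s x, real_inner_eq_re_inner ℝ, RCLike.inner_apply]
  simp [mul_comm]

theorem exists_v (hN : Mod N) (y : Ω) :
    ∃ v : H N, ∀ (w : H N) (f : Ω → ℝ), Gr w f → inner ℝ v w = f y - f N.o := by
  induction y using hN.ind with
  | h1 => exact ⟨0, fun w f _ => by rw [inner_zero_left, sub_self]⟩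
  | h2 x τ hτ ih =>
    obtain ⟨v, hv⟩ := ih
    obtain ⟨e, he⟩ := exists_e (⟨τ, hτ⟩ : N.T) x
    refine ⟨v + e, fun w f h => ?_⟩
    rw [inner_add_left, hv w f h, he, h]
    ring

end PotL

open PotL in
theorem pot_stmt : PotStmt := by
  intro G Ω _ _ N hN
  choose v hv using exists_v hN
  choose e he using exists_e (N := N)
  let K : Submodule ℝ (H N) := Submodule.span ℝ
    (Set.range fun p : N.T × G => e p.1 p.2 - (v (p.2 • (p.1 : Ω)) - v (p.2 • N.o)))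
  have hK : ∀ w : H N, w ∈ Kᗮ ↔ ∀ (τ : N.T) (x : G),
      w τ x = inner ℝ (v (x • (τ : Ω))) w - inner ℝ (v (x • N.o)) w := by
    intro w
    constructor
    · intro h s x
      have := h _ (Submodule.subset_span ⟨(s, x), rfl⟩)
      rw [inner_sub_left, inner_sub_left, he] at this
      exact sub_eq_zero.1 this
    · intro h u hu
      induction hu using Submodule.span_induction with
      | mem u hu =>
        obtain ⟨p, rfl⟩ := hu
        rw [inner_sub_left, inner_sub_left, he, h, sub_self]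
      | zero => exact inner_zero_left _
      | add a b _ _ ha hb => rw [inner_add_left, ha, hb, add_zero]
      | smul r a _ ha => rw [inner_smul_left, ha, mul_zero]
  have key : ∀ y, ∃ ψ : Ω → ℝ, Dip N ψ N.o y ∧ ψ N.o = 0 := by
    intro y
    obtain ⟨a, ha, b, hb, hab⟩ := Kᗮ.exists_add_mem_mem_orthogonal (v y)
    have h1 : Gr a fun x => inner ℝ (v x) a := (hK a).1 ha
    refine ⟨fun x => inner ℝ (v x) a, ⟨h1.dir, fun f hf => ?_⟩,
      (hv N.o a _ h1).trans (sub_self _)⟩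
    obtain ⟨w, hw⟩ := exists_gr hf
    have h2 : w ∈ Kᗮ := (hK w).2 fun s x => by
      rw [hv _ w f hw, hv _ w f hw, hw]
      ring
    rw [← h1.inner hw, ← hv y w f hw, hab, inner_add_left, real_inner_comm w b, hb w h2, add_zero]
  choose φ h1 h2 using key
  exact ⟨φ, h1, h2⟩

end Pool.Agent.MP_4f4d9f_gt.Rk

end

section

/-! Exponential decay of the energy of a potential on the half spaces of another one. -/

namespace Pool.Agent.MP_4f4d9f_gt.Rk

open Filter Topology Hy Ku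

namespace DecL

variable {G Ω : Type} [Group G] [MulAction G Ω] {N : Net G Ω} {f g ψ η : Ω → ℝ} {a b a' b' : Ω}

theorem summ (hη : Dir N η) (A : Set G) :
    Summable (Set.indicator A fun x => DD N η x ^ 2) := Summable.indicator hη.dd A

theorem band_le (hη : Dir N η) (t : ℝ) (T : Finset G)
    (hT : ∀ x ∈ T, t < ψ (x • N.o) ∧ ψ (x • N.o) ≤ t + 4) :
    ∑ x ∈ T, DD N η x ^ 2 ≤ ee N η ψ t - ee N η ψ (t + 4) := by
  unfold ee
  rw [← (summ hη _).tsum_sub (summ hη _)]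
  refine le_trans (le_of_eq (Finset.sum_congr rfl fun x hx => ?_))
    (Summable.sum_le_tsum T (fun x _ => ?_) ((summ hη _).sub (summ hη _)))
  · rw [Set.indicator_of_mem (show x ∈ {x : G | t < ψ (x • N.o)} from (hT x hx).1),
      Set.indicator_of_notMem (show x ∉ {x : G | t + 4 < ψ (x • N.o)} from not_lt.2 (hT x hx).2), sub_zero]
  · refine sub_nonneg.2 (Set.indicator_le_indicator_of_subset (fun y hy => ?_)
      (fun _ => sq_nonneg _) x)
    have h : t + 4 < ψ (y • N.o) := hy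
    change t < ψ (y • N.o)
    linarith

theorem dir_mul (hf : Dir N f) (hg : Dir N g) {B B' : ℝ} (h1 : ∀ x, |f x| ≤ B)
    (h2 : ∀ x, |g x| ≤ B') : Dir N fun x => f x * g x := fun s hs => by
  refine (((hg s hs).abs.const_mul B).add ((hf s hs).abs.const_mul B')).of_le fun x => ?_
  refine le_trans ?_ (le_abs_self _)
  have e : f (x • s) * g (x • s) - f (x • N.o) * g (x • N.o) =
      f (x • s) * (g (x • s) - g (x • N.o)) + g (x • N.o) * (f (x • s) - f (x • N.o)) := by ring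
  rw [e]
  refine (abs_add_le _ _).trans (add_le_add ?_ ?_)
  · rw [abs_mul]
    exact mul_le_mul_of_nonneg_right (h1 _) (abs_nonneg _)
  · rw [abs_mul]
    exact mul_le_mul_of_nonneg_right (h2 _) (abs_nonneg _)

/-- A termwise comparison of the energy with an error term. -/
theorem en_le {h k : Ω → ℝ} (hf : Dir N f) (hg : Dir N g) (hh : Dir N h) (hk : Dir N k) (c : ℝ)
    (e : ∀ x : G, ∀ s ∈ N.T, (h (x • s) - h (x • N.o)) ^ 2 ≤
      (f (x • s) - f (x • N.o)) * (g (x • s) - g (x • N.o)) + c * (k (x • s) - k (x • N.o)) ^ 2) :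
    En N h ≤ BB N f g + c * En N k := by
  rw [En, En, BB, Finset.mul_sum, ← Finset.sum_add_distrib]
  refine Finset.sum_le_sum fun s hs => ?_
  have h1 := bb_summable hf hg hs
  have h2 : Summable fun x : G => c * (k (x • s) - k (x • N.o)) ^ 2 :=
    Summable.mul_left c (hk s hs)
  rw [← tsum_mul_left, ← h1.tsum_add h2]
  exact Summable.tsum_le_tsum (fun x => e x s hs) (hh s hs) (h1.add h2)

theorem ind_le (hη : Dir N η) (hf : Dir N f) (A : Set G)
    (e : ∀ x ∈ A, ∀ s ∈ N.T, η (x • s) - η (x • N.o) = f (x • s) - f (x • N.o)) :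
    ∑' x, Set.indicator A (fun x => DD N η x ^ 2) x ≤ N.T.card * En N f := by
  have h1 : Summable fun x : G => ∑ s ∈ N.T, (f (x • s) - f (x • N.o)) ^ 2 :=
    summable_sum fun s hs => hf s hs
  rw [En, ← Summable.tsum_finsetSum fun s hs => hf s hs, ← tsum_mul_left]
  refine Summable.tsum_le_tsum (fun x => ?_) (summ hη A) (h1.mul_left _)
  by_cases hx : x ∈ A
  · rw [Set.indicator_of_mem hx, DD]
    refine sq_sum_le_card_mul_sum_sq.trans (le_of_eq ?_)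
    congr 1
    exact Finset.sum_congr rfl fun s hs => by rw [sq_abs, e x hx s hs]
  · rw [Set.indicator_of_notMem hx]
    positivity

theorem trunc_lip (p q u v : ℝ) : |max p (min q u) - max p (min q v)| ≤ |u - v| := by
  rw [max_comm p, max_comm p]
  refine (abs_max_sub_max_le_abs _ _ _).trans ?_
  refine (abs_min_sub_min_le_max _ _ _ _).trans ?_
  rw [sub_self, abs_zero]
  exact max_le (abs_nonneg _) le_rfl

/-- The inequality of Caccioppoli type. -/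
theorem cacc (hS : Mod N) (hD : DF N) (hψ : Dip N ψ a b) (hη : Dip N η a' b') {t₀ r w : ℝ}
    (htr : t₀ ≤ r) (ha : ψ a' ≤ r) (hb : ψ b' ≤ r) (hw : 0 ≤ w)
    (ho : ∀ x ∈ Cl N {x | t₀ < ψ x},
      ∀ y ∈ Cl N {x | t₀ < ψ x}, |η x - η y| ≤ w) :
    ee N η ψ (r + 2) ≤ N.T.card * w ^ 2 := by
  by_cases hA : ∃ a₀, t₀ < ψ a₀
  swap
  · have e : {x : G | r + 2 < ψ (x • N.o)} = ∅ := by
      refine Set.eq_empty_of_forall_notMem fun x hx => hA ⟨x • N.o, ?_⟩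
      have h : r + 2 < ψ (x • N.o) := hx
      linarith
    rw [ee, e]
    simp only [Set.indicator_empty, tsum_zero]
    positivity
  obtain ⟨a₀, h₀⟩ := hA
  obtain ⟨u, hu⟩ : ∃ u : Ω → ℝ, u = fun x => max (-w) (min w (η x - η a₀)) := ⟨_, rfl⟩
  obtain ⟨χ, hχ⟩ : ∃ χ : Ω → ℝ, χ = fun x => max r (min (r + 1) (ψ x)) - r := ⟨_, rfl⟩
  have du : Dir N u := by
    rw [hu]
    exact (hη.dir.sub (dir_const (η a₀))).lip (φ := fun z => max (-w) (min w z))
      (trunc_lip _ _)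
  have dχ : Dir N χ := by
    rw [hχ]
    exact (hψ.dir.lip (φ := fun z => max r (min (r + 1) z)) (trunc_lip _ _)).sub (dir_const r)
  have bu : ∀ x, |u x| ≤ w := fun x => by
    rw [hu, abs_le]
    exact ⟨le_max_left _ _, max_le (by linarith) (min_le_left _ _)⟩
  have bχ : ∀ x, |χ x| ≤ 1 := fun x => by
    rw [hχ, abs_le]
    have h1 : r ≤ max r (min (r + 1) (ψ x)) := le_max_left _ _
    have h2 : max r (min (r + 1) (ψ x)) ≤ r + 1 := max_le (by linarith) (min_le_left _ _)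
    constructor <;> linarith
  have eu : ∀ x ∈ Cl N {x | t₀ < ψ x}, u x = η x - η a₀ := fun x hx => by
    have h := abs_le.1 (ho x hx a₀ (Or.inl h₀))
    rw [hu]
    change max (-w) (min w (η x - η a₀)) = _
    rw [min_eq_right h.2, max_eq_right h.1]
  have χ0 : ∀ x, ψ x ≤ r → χ x = 0 := fun x hx => by
    rw [hχ]
    change max r (min (r + 1) (ψ x)) - r = 0
    rw [max_eq_left ((min_le_right _ _).trans hx), sub_self]
  have χ1 : ∀ x, r + 1 ≤ ψ x → χ x = 1 := fun x hx => by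
    rw [hχ]
    change max r (min (r + 1) (ψ x)) - r = 1
    rw [min_eq_left hx, max_eq_right (by linarith)]
    ring
  have eχ : En N χ ≤ 1 := by
    have h := hD.slab ψ a b hψ r (r + 1) (by linarith)
    have e : En N χ = En N fun x => max r (min (r + 1) (ψ x)) := by
      rw [hχ]
      simp only [En, sub_sub_sub_cancel_right]
    rw [e]
    linarith
  have d1 : Dir N fun x => χ x * u x := dir_mul dχ du bχ bu
  have b1 : ∀ x, |χ x * u x| ≤ w := fun x => by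
    rw [abs_mul]
    exact (mul_le_of_le_one_left (abs_nonneg _) (bχ x)).trans (bu x)
  have d2 : Dir N fun x => χ x * (χ x * u x) := dir_mul dχ d1 bχ b1
  have z : BB N η (fun x => χ x * (χ x * u x)) = 0 := by
    rw [hη.rep _ d2, χ0 a' ha, χ0 b' hb]
    ring
  have en1 := en_le hη.dir d2 d1 dχ (w ^ 2) fun x s hs => by
    by_cases h : x • N.o ∈ {x | t₀ < ψ x} ∨ x • s ∈ {x | t₀ < ψ x}
    · obtain ⟨e1, e2⟩ := mem_cl_left hS hs h
      have e3 : η (x • s) - η (x • N.o) = u (x • s) - u (x • N.o) := by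
        rw [eu _ e1, eu _ e2]
        ring
      have e4 : u (x • N.o) * u (x • s) ≤ w ^ 2 := by
        refine (le_abs_self _).trans ?_
        rw [abs_mul, sq]
        exact mul_le_mul (bu _) (bu _) (abs_nonneg _) hw
      have e5 := mul_le_mul_of_nonneg_right e4 (sq_nonneg (χ (x • s) - χ (x • N.o)))
      rw [e3]
      nlinarith
    · rw [not_or] at h
      have e1 : ψ (x • N.o) ≤ r := (not_lt.1 h.1).trans htr
      have e2 : ψ (x • s) ≤ r := (not_lt.1 h.2).trans htr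
      rw [χ0 _ e1, χ0 _ e2]
      simp
  have en2 : En N (fun x => χ x * u x) ≤ w ^ 2 := by
    have := mul_le_mul_of_nonneg_left eχ (sq_nonneg w)
    linarith
  refine (ind_le hη.dir d1 _ fun x hx s hs => ?_).trans
    (mul_le_mul_of_nonneg_left en2 (Nat.cast_nonneg _))
  have h1 : r + 2 < ψ (x • N.o) := hx
  have h2 := abs_le.1 (hD.lip ψ a b hψ x s hs)
  have h3 : t₀ < ψ (x • N.o) := by linarith
  have h4 : t₀ < ψ (x • s) := by linarith [h2.1]
  rw [χ1 (x • N.o) (by linarith), χ1 (x • s) (by linarith [h2.1]), eu (x • N.o) (Or.inl h3),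
    eu (x • s) (Or.inl h4)]
  ring

end DecL

open DecL in
theorem dec_stmt : DecStmt := by
  intro G Ω _ _ N hS hD hO
  obtain ⟨c, hc⟩ : ∃ c : ℝ, c = 720 * (N.T.card : ℝ) ^ 2 := ⟨_, rfl⟩
  have c0 : 0 ≤ c := by rw [hc]; positivity
  refine ⟨c / (1 + c), by positivity, by rw [div_lt_one (by linarith)]; linarith, ?_⟩
  intro ψ a b η a' b' hψ hη t ha hb
  obtain ⟨D, hDD⟩ : ∃ D : ℝ, D = ee N η ψ t - ee N η ψ (t + 4) := ⟨_, rfl⟩
  have D0 : 0 ≤ D := by
    have := band_le (ψ := ψ) hη.dir t ∅ (by simp)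
    rw [hDD]
    simpa using this
  have N0 : (0 : ℝ) ≤ N.T.card := Nat.cast_nonneg _
  obtain ⟨t₀, -, h2, h3⟩ := hO ψ a b η a' b' hψ hη (t + 3 / 2) (t + 2) (√(D * (5 * N.T.card)))
    (by linarith) (by linarith) (by linarith) fun T hT => by
      refine (le_abs_self _).trans (Real.abs_le_sqrt ?_)
      refine (Finset.sum_mul_sq_le_sq_mul_sq _ _ _).trans ?_
      have e1 := band_le (ψ := ψ) hη.dir t T fun x hx => ⟨by linarith [(hT x hx).1], by
        linarith [(hT x hx).2]⟩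
      have e2 := hD.band ψ a b hψ (t + 3 / 2 - 1) (t + 2 + 1) (by linarith) T hT
      rw [← hDD] at e1
      refine mul_le_mul e1 (by nlinarith) (Finset.sum_nonneg fun _ _ => sq_nonneg _) D0
  have e : 6 * √(D * (5 * N.T.card)) / (t + 2 - (t + 3 / 2)) = 12 * √(D * (5 * N.T.card)) := by
    have : t + 2 - (t + 3 / 2) = 1 / 2 := by ring
    rw [this]
    ring
  rw [e] at h3
  have k := cacc hS hD hψ hη (r := t + 2) h2.le (by linarith) (by linarith) (by positivity) h3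
  have e2 : t + 2 + 2 = t + 4 := by ring
  rw [e2, mul_pow, Real.sq_sqrt (by positivity)] at k
  have k2 : ee N η ψ (t + 4) ≤ c * D := by
    rw [hc]
    linarith
  rw [div_mul_eq_mul_div, le_div_iff₀ (by linarith)]
  rw [hDD] at k2
  linarith

end Pool.Agent.MP_4f4d9f_gt.Rk

end

section

/-! Tightness of the potentials. -/

namespace Pool.Agent.MP_4f4d9f_gt.Ku

open Filter Topology Hy

namespace TightL

variable {G : Type} [Group G] {S : Finset G} {η ψ : G → ℝ}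

omit [Group G] in
/-- A weighted form of the inequality of Cauchy and Schwarz. -/
theorem wt (T : Finset G) (a b : G → ℝ) {l A B : ℝ} (hl : 0 < l) (hA : ∑ y ∈ T, a y ^ 2 ≤ A)
    (hB : ∑ y ∈ T, b y ^ 2 ≤ l * B) : ∑ y ∈ T, a y * b y ≤ l * A + B := by
  have h1 : l * ∑ y ∈ T, a y * b y ≤ l ^ 2 * ∑ y ∈ T, a y ^ 2 + ∑ y ∈ T, b y ^ 2 := by
    rw [Finset.mul_sum, Finset.mul_sum, ← Finset.sum_add_distrib]
    exact Finset.sum_le_sum fun y _ => by
      nlinarith [sq_nonneg (l * a y - b y), sq_nonneg (l * a y), sq_nonneg (b y)]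
  refine le_of_mul_le_mul_left (h1.trans ?_) hl
  have := mul_le_mul_of_nonneg_left hA (sq_nonneg l)
  nlinarith

theorem sum_le_ee (hη : Dir S η) {t : ℝ} {T : Finset G} (hT : ∀ y ∈ T, t < ψ y) :
    ∑ y ∈ T, DD S η y ^ 2 ≤ ee S η ψ t := by
  refine le_trans (le_of_eq ?_) ((Summable.indicator hη.dd _).sum_le_tsum T fun y _ =>
    Set.indicator_nonneg (fun _ _ => sq_nonneg _) y)
  exact Finset.sum_congr rfl fun y hy =>
    (Set.indicator_of_mem (s := {x | t < ψ x}) (hT y hy) fun x => DD S η x ^ 2).symm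

theorem ee_le (hη : Dir S η) (t : ℝ) : ee S η ψ t ≤ ∑' y, DD S η y ^ 2 :=
  Summable.tsum_le_tsum (fun y => Set.indicator_le_self' (fun _ _ => sq_nonneg _) y)
    (Summable.indicator hη.dd _) hη.dd

/-- Summation of the layers. -/
theorem layers {R ρ K E : ℝ} (hρ : 0 < ρ) (h1 : ρ < 1) (hη : Dir S η)
    (hb : ∀ (j : ℕ) (T : Finset G), (∀ y ∈ T, R + 4 * j ≤ ψ y ∧ ψ y ≤ R + 4 * j + 4) →
      ∑ y ∈ T, DD S ψ y ^ 2 ≤ K)
    (he : ∀ j : ℕ, ee S η ψ (R + 4 * j) ≤ ρ ^ j * (ρ ^ j * E)) (J n : ℕ) :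
    ∀ T : Finset G, (∀ y ∈ T, R + 4 * J < ψ y ∧ ψ y ≤ R + 4 * (J + n : ℕ)) →
      (1 - ρ) * ∑ y ∈ T, DD S ψ y * DD S η y ≤ (K + E) * (ρ ^ J - ρ ^ (J + n)) := by
  induction n with
  | zero =>
    intro T hT
    rw [Finset.sum_eq_zero fun y hy => absurd (hT y hy).2 (not_le.2 (hT y hy).1)]
    simp
  | succ n ih =>
    intro T hT
    classical
    rw [← Finset.sum_filter_add_sum_filter_not T (fun y => ψ y ≤ R + 4 * (J + n : ℕ))]
    have h2 := ih (T.filter fun y => ψ y ≤ R + 4 * (J + n : ℕ)) fun y hy =>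
      ⟨(hT y (Finset.mem_filter.1 hy).1).1, (Finset.mem_filter.1 hy).2⟩
    have h3 := wt (T.filter fun y => ¬ ψ y ≤ R + 4 * (J + n : ℕ)) (DD S ψ) (DD S η)
      (pow_pos hρ (J + n)) (hb (J + n) _ fun y hy => ⟨(not_le.1 (Finset.mem_filter.1 hy).2).le, by
        have := (hT y (Finset.mem_filter.1 hy).1).2
        push_cast at this ⊢
        linarith⟩)
      ((sum_le_ee hη fun y hy => not_le.1 (Finset.mem_filter.1 hy).2).trans (he (J + n)))
    have h4 := mul_le_mul_of_nonneg_left h3 (sub_pos.2 h1).le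
    rw [← add_assoc, pow_succ]
    nlinarith

end TightL

open TightL in
theorem tight_stmt : TightStmt := by
  intro G _ S φ _ hD hdec hφ u ε hε
  classical
  obtain ⟨θ, hθ0, hθ1, hdec⟩ := hdec
  have hη := hφ.dir u
  set R := φ u u with hR
  set E := ∑' y, DD S (φ u) y ^ 2 with hE
  have hE0 : 0 ≤ E := tsum_nonneg fun _ => sq_nonneg _
  have hR0 : 0 ≤ R := (hφ.range hD u u).1
  obtain ⟨ρ, hρ0, hρ1, hρθ⟩ : ∃ ρ : ℝ, 0 < ρ ∧ ρ < 1 ∧ θ ≤ ρ * ρ :=
    ⟨(1 + θ) / 2, by linarith, by linarith, by nlinarith [sq_nonneg (1 - θ)]⟩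
  set K : ℝ := S.card * 6 with hK
  have hK0 : 0 ≤ K := by positivity
  have hlim : Tendsto (fun j : ℕ => (K + E) * ρ ^ j) atTop (𝓝 0) := by
    simpa using (tendsto_pow_atTop_nhds_zero_of_lt_one hρ0.le hρ1).const_mul (K + E)
  obtain ⟨J, hJ⟩ := (hlim.eventually (ge_mem_nhds
    (show 0 < (1 - ρ) * (ε / 2) from mul_pos (sub_pos.2 hρ1) (half_pos hε)))).exists
  set A : ℝ := S.card * (R + 4 * J - 0 + 2) with hA
  have hA0 : 0 ≤ A := by
    rw [hA, sub_zero]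
    positivity
  set l : ℝ := ε / 4 / (A + 1) with hl
  have hl0 : 0 < l := by positivity
  have hlA : l * A ≤ ε / 4 := by
    rw [hl, div_mul_eq_mul_div, div_le_iff₀ (by positivity)]
    nlinarith
  obtain ⟨Φ, hΦ⟩ := Summable.vanishing hη.dd
    (ge_mem_nhds (show 0 < l * (ε / 4) by positivity))
  refine ⟨Φ, fun x T hT => ?_⟩
  have hx1 : φ x 1 ≤ R := by rw [hφ.one]; exact hR0
  have hxu : φ x u ≤ R := by rw [hφ.symm]; exact (hφ.range hD u x).2
  have he : ∀ j : ℕ, ee S (φ u) (φ x) (R + 4 * j) ≤ ρ ^ j * (ρ ^ j * E) := by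
    intro j
    induction j with
    | zero => simpa using ee_le hη R
    | succ j ih =>
      have hj : (0 : ℝ) ≤ j := Nat.cast_nonneg j
      have h1 := hdec _ _ _ _ _ _ (hφ.dip x) (hφ.dip u) (R + 4 * j) (by linarith) (by linarith)
      have h2 := mul_le_mul hρθ ih (tsum_nonneg fun y =>
        Set.indicator_nonneg (fun _ _ => sq_nonneg _) y) (by positivity)
      rw [show R + 4 * ((j + 1 : ℕ) : ℝ) = R + 4 * j + 4 by push_cast; ring, pow_succ]
      linarith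
  obtain ⟨n, hn⟩ := exists_nat_ge (φ x x)
  rw [← Finset.sum_filter_add_sum_filter_not T (fun y => φ x y ≤ R + 4 * J)]
  have h0 := wt (T.filter fun y => φ x y ≤ R + 4 * J) (DD S (φ x)) (DD S (φ u)) hl0
    (hD.band _ _ _ (hφ.dip x) 0 (R + 4 * J) (by positivity) _ fun y hy =>
      ⟨(hφ.range hD x y).1, (Finset.mem_filter.1 hy).2⟩)
    (hΦ _ (hT.mono_left (Finset.filter_subset _ _)))
  have h1 := layers (K := K) hρ0 hρ1 hη (fun j T hT =>
    (hD.band _ _ _ (hφ.dip x) _ _ (by linarith) T hT).trans (le_of_eq (by rw [hK]; ring))) he J n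
    (T.filter fun y => ¬ φ x y ≤ R + 4 * J) fun y hy =>
      ⟨not_le.1 (Finset.mem_filter.1 hy).2, by
        have h2 := (hφ.range hD x y).2
        have h3 : (0 : ℝ) ≤ J := Nat.cast_nonneg J
        have h4 : (0 : ℝ) ≤ n := Nat.cast_nonneg n
        push_cast
        linarith⟩
  have h2 : 0 ≤ (K + E) * ρ ^ (J + n) := by positivity
  have h3 := le_of_mul_le_mul_left (h1.trans (show _ ≤ (1 - ρ) * (ε / 2) by linarith))
    (sub_pos.2 hρ1)
  linarith

end Pool.Agent.MP_4f4d9f_gt.Ku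

end

section

/-! Tightness of the potentials in the model with cone vertices. -/

namespace Pool.Agent.MP_4f4d9f_gt.Rk

open Filter Topology Hy Ku

namespace TightL

variable {G Ω : Type} [Group G] [MulAction G Ω] {N : Net G Ω} {η ψ : Ω → ℝ}

theorem sum_le_ee (hη : Dir N η) {t : ℝ} {T : Finset G} (hT : ∀ y ∈ T, t < ψ (y • N.o)) :
    ∑ y ∈ T, DD N η y ^ 2 ≤ ee N η ψ t := by
  refine le_trans (le_of_eq ?_) ((Summable.indicator hη.dd _).sum_le_tsum T fun y _ =>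
    Set.indicator_nonneg (fun _ _ => sq_nonneg _) y)
  exact Finset.sum_congr rfl fun y hy =>
    (Set.indicator_of_mem (s := {x : G | t < ψ (x • N.o)}) (hT y hy) fun x => DD N η x ^ 2).symm

theorem ee_le (hη : Dir N η) (t : ℝ) : ee N η ψ t ≤ ∑' y : G, DD N η y ^ 2 :=
  Summable.tsum_le_tsum (fun y => Set.indicator_le_self' (fun _ _ => sq_nonneg _) y)
    (Summable.indicator hη.dd _) hη.dd

/-- Summation of the layers. -/
theorem layers {R ρ K E : ℝ} (hρ : 0 < ρ) (h1 : ρ < 1) (hη : Dir N η)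
    (hb : ∀ (j : ℕ) (T : Finset G), (∀ y ∈ T, R + 4 * j ≤ ψ (y • N.o) ∧
      ψ (y • N.o) ≤ R + 4 * j + 4) →
      ∑ y ∈ T, DD N ψ y ^ 2 ≤ K)
    (he : ∀ j : ℕ, ee N η ψ (R + 4 * j) ≤ ρ ^ j * (ρ ^ j * E)) (J n : ℕ) :
    ∀ T : Finset G, (∀ y ∈ T, R + 4 * J < ψ (y • N.o) ∧ ψ (y • N.o) ≤ R + 4 * (J + n : ℕ)) →
      (1 - ρ) * ∑ y ∈ T, DD N ψ y * DD N η y ≤ (K + E) * (ρ ^ J - ρ ^ (J + n)) := by
  induction n with
  | zero =>
    intro T hT
    rw [Finset.sum_eq_zero fun y hy => absurd (hT y hy).2 (not_le.2 (hT y hy).1)]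
    simp
  | succ n ih =>
    intro T hT
    classical
    rw [← Finset.sum_filter_add_sum_filter_not T (fun y => ψ (y • N.o) ≤ R + 4 * (J + n : ℕ))]
    have h2 := ih (T.filter fun y => ψ (y • N.o) ≤ R + 4 * (J + n : ℕ)) fun y hy =>
      ⟨(hT y (Finset.mem_filter.1 hy).1).1, (Finset.mem_filter.1 hy).2⟩
    have h3 := Ku.TightL.wt (T.filter fun y => ¬ ψ (y • N.o) ≤ R + 4 * (J + n : ℕ)) (DD N ψ) (DD N η)
      (pow_pos hρ (J + n)) (hb (J + n) _ fun y hy => ⟨(not_le.1 (Finset.mem_filter.1 hy).2).le, by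
        have := (hT y (Finset.mem_filter.1 hy).1).2
        push_cast at this ⊢
        linarith⟩)
      ((sum_le_ee hη fun y hy => not_le.1 (Finset.mem_filter.1 hy).2).trans (he (J + n)))
    have h4 := mul_le_mul_of_nonneg_left h3 (sub_pos.2 h1).le
    rw [← add_assoc, pow_succ]
    nlinarith

end TightL

open TightL in
theorem tight_stmt : TightStmt := by
  intro G Ω _ _ N φ hD hdec hφ u ε hε
  classical
  obtain ⟨θ, hθ0, hθ1, hdec⟩ := hdec
  have hη := hφ.dir u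
  set R := φ u u with hR
  set E := ∑' y : G, DD N (φ u) y ^ 2 with hE
  have hE0 : 0 ≤ E := tsum_nonneg fun _ => sq_nonneg _
  have hR0 : 0 ≤ R := (hφ.range hD u u).1
  obtain ⟨ρ, hρ0, hρ1, hρθ⟩ : ∃ ρ : ℝ, 0 < ρ ∧ ρ < 1 ∧ θ ≤ ρ * ρ :=
    ⟨(1 + θ) / 2, by linarith, by linarith, by nlinarith [sq_nonneg (1 - θ)]⟩
  set K : ℝ := N.T.card * 6 with hK
  have hK0 : 0 ≤ K := by positivity
  have hlim : Tendsto (fun j : ℕ => (K + E) * ρ ^ j) atTop (𝓝 0) := by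
    simpa using (tendsto_pow_atTop_nhds_zero_of_lt_one hρ0.le hρ1).const_mul (K + E)
  obtain ⟨J, hJ⟩ := (hlim.eventually (ge_mem_nhds
    (show 0 < (1 - ρ) * (ε / 2) from mul_pos (sub_pos.2 hρ1) (half_pos hε)))).exists
  set A : ℝ := N.T.card * (R + 4 * J - 0 + 2) with hA
  have hA0 : 0 ≤ A := by
    rw [hA, sub_zero]
    positivity
  set l : ℝ := ε / 4 / (A + 1) with hl
  have hl0 : 0 < l := by positivity
  have hlA : l * A ≤ ε / 4 := by
    rw [hl, div_mul_eq_mul_div, div_le_iff₀ (by positivity)]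
    nlinarith
  obtain ⟨Φ, hΦ⟩ := Summable.vanishing hη.dd
    (ge_mem_nhds (show 0 < l * (ε / 4) by positivity))
  refine ⟨Φ, fun x T hT => ?_⟩
  have hx1 : φ x N.o ≤ R := by rw [hφ.one]; exact hR0
  have hxu : φ x u ≤ R := by rw [hφ.symm]; exact (hφ.range hD u x).2
  have he : ∀ j : ℕ, ee N (φ u) (φ x) (R + 4 * j) ≤ ρ ^ j * (ρ ^ j * E) := by
    intro j
    induction j with
    | zero => simpa using ee_le hη R
    | succ j ih =>
      have hj : (0 : ℝ) ≤ j := Nat.cast_nonneg j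
      have h1 := hdec _ _ _ _ _ _ (hφ.dip x) (hφ.dip u) (R + 4 * j) (by linarith) (by linarith)
      have h2 := mul_le_mul hρθ ih (tsum_nonneg fun y =>
        Set.indicator_nonneg (fun _ _ => sq_nonneg _) y) (by positivity)
      rw [show R + 4 * ((j + 1 : ℕ) : ℝ) = R + 4 * j + 4 by push_cast; ring, pow_succ]
      linarith
  obtain ⟨n, hn⟩ := exists_nat_ge (φ x x)
  rw [← Finset.sum_filter_add_sum_filter_not T (fun y => φ x (y • N.o) ≤ R + 4 * J)]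
  have h0 := Ku.TightL.wt (T.filter fun y => φ x (y • N.o) ≤ R + 4 * J) (DD N (φ x)) (DD N (φ u)) hl0
    (hD.band _ _ _ (hφ.dip x) 0 (R + 4 * J) (by positivity) _ fun y hy =>
      ⟨(hφ.range hD x (y • N.o)).1, (Finset.mem_filter.1 hy).2⟩)
    (hΦ _ (hT.mono_left (Finset.filter_subset _ _)))
  have h1 := layers (K := K) hρ0 hρ1 hη (fun j T hT =>
    (hD.band _ _ _ (hφ.dip x) _ _ (by linarith) T hT).trans (le_of_eq (by rw [hK]; ring))) he J n
    (T.filter fun y => ¬ φ x (y • N.o) ≤ R + 4 * J) fun y hy =>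
      ⟨not_le.1 (Finset.mem_filter.1 hy).2, by
        have h2 := (hφ.range hD x (y • N.o)).2
        have h3 : (0 : ℝ) ≤ J := Nat.cast_nonneg J
        have h4 : (0 : ℝ) ≤ n := Nat.cast_nonneg n
        push_cast
        linarith⟩
  have h2 : 0 ≤ (K + E) * ρ ^ (J + n) := by positivity
  have h3 := le_of_mul_le_mul_left (h1.trans (show _ ≤ (1 - ρ) * (ε / 2) by linarith))
    (sub_pos.2 hρ1)
  linarith

end Pool.Agent.MP_4f4d9f_gt.Rk

end

section

/-! The rescaling lemma. -/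

namespace Pool.Agent.MP_4f4d9f_gt.Ku

open Filter Topology Hy
open scoped Pointwise

namespace LemRL

variable {G : Type} [Group G] {X : Type} [MetricSpace X] [MulAction G X]
  [ContinuousConstSMul G X] {S : Finset G} {b ξ o : X}

/-- The map `β` follows its argument. -/
theorem follow (h : Cv G b) {V T : Set G} (hT : T.Finite) {β : G → G}
    (hβ : ∀ x ∈ V, (β x)⁻¹ * x ∈ T) {A : Set G} (hA : A ∈ nf G b ξ) :
    ∀ᶠ x in nf G b ξ, x ∈ V → β x ∈ A := by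
  filter_upwards [(eventually_all_finite hT).2 fun t _ => h.nf_right t⁻¹ hA] with x k hx
  have := k _ (hβ x hx)
  simpa using this

theorem follow_ray (h : Cv G b) {V T : Set G} (hT : T.Finite) {β : G → G}
    (hβ : ∀ x ∈ V, (β x)⁻¹ * x ∈ T) {z : ℕ → G} (hz : IsRay S z) (hV : ∀ n, z n ∈ V)
    (e : Tendsto (fun n => z n • b) atTop (𝓝 ξ)) :
    Tendsto (fun n => β (z n)) atTop (nf G b ξ) := fun A hA => by
  have := (hz.nf e).eventually (follow h hT hβ hA)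
  exact this.mono fun n k => k (hV n)

omit [ContinuousConstSMul G X] in
theorem visible (h : Lc S b) {F : Set G} {e : ℝ}
    (hF : {x | x ∈ Bdy S F ∧ e ≤ dist (x • b) o}.Finite) (he : e < dist ξ o) :
    F ∈ nf G b ξ ∨ Fᶜ ∈ nf G b ξ := by
  refine h ξ F (mem_nf.2 ⟨{z | e < dist z o}, ?_, hF.subset fun x hx => ⟨not_not.1 hx.2, ?_⟩⟩)
  · exact (isOpen_lt continuous_const (continuous_id.dist continuous_const)).mem_nhds he
  · exact le_of_lt hx.1

omit [ContinuousConstSMul G X] in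
theorem q_pos (h : Cv G b) {a : Fin 3 → X} (ha : Function.Injective a) {F : Set G}
    (hF : F ∈ nf G b ξ) : {x | Mj a {η | F ∈ nf G b η} x} ∈ nf G b ξ :=
  h.mj ha (nf_open hF)

theorem q_neg (h : Cv G b) {a : Fin 3 → X} (ha : Function.Injective a) (hK : ∀ i, a i ∈ KK G b)
    {F : Set G} (hF : Fᶜ ∈ nf G b ξ) : {x | ¬ Mj a {η | F ∈ nf G b η} x} ∈ nf G b ξ := by
  have := h.mj' ha hK (L := {η | F ∈ nf G b η}ᶜ) (nf_open hF) fun η k e => not_both k.2 e k.1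
  exact mem_of_superset this fun x hx => mj_compl.1 hx

/-- The locations are finite away from `o`. -/
theorem loc_finite [CompactSpace X] (h : Bd S b) {a : Fin 3 → X} (ha : Function.Injective a)
    (hK : ∀ i, a i ∈ KK G b) {F D₀ : Set G} (hD : D₀.Finite) {e ε : ℝ} (he : e < ε)
    (hF : {x | x ∈ Bdy S F ∧ e ≤ dist (x • b) o}.Finite) :
    {x | (∃ d ∈ D₀, ¬ (Mj a {η | F ∈ nf G b η} x ↔ Mj a {η | F ∈ nf G b η} (x * d))) ∧
      ε ≤ dist (x • b) o}.Finite := by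
  refine (finite_iff b).2 fun ξ => ?_
  by_cases k : dist ξ o < ε
  · have : {z | dist z o < ε} ∈ 𝓝 ξ :=
      (isOpen_lt (continuous_id.dist continuous_const) continuous_const).mem_nhds k
    filter_upwards [nf_tendsto this] with x hx k'
    exact k'.2.not_gt hx
  · rcases visible h.lc hF (he.trans_le (not_lt.1 k)) with k' | k'
    · have := q_pos h.cv ha k'
      filter_upwards [this, (eventually_all_finite hD).2 fun d _ => h.cv.nf_right d this]
        with x k1 k2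
      rintro ⟨⟨d, hd, k3⟩, -⟩
      exact k3 (iff_of_true k1 (k2 d hd))
    · have := q_neg h.cv ha hK k'
      filter_upwards [this, (eventually_all_finite hD).2 fun d _ => h.cv.nf_right d this]
        with x k1 k2
      rintro ⟨⟨d, hd, k3⟩, -⟩
      exact k3 (iff_of_false k1 (k2 d hd))

omit [MetricSpace X] [ContinuousConstSMul G X] in
theorem mj_ultra (U : Ultrafilter ℕ) (a : Fin 3 → X) (I : ℕ → Set X) (h : ℕ → G) (g : G) :
    Mj a {ξ | ∀ᶠ n in U, h n • ξ ∈ I n} g ↔ ∀ᶠ n in U, Mj a (I n) (h n * g) := by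
  unfold Mj
  rw [Ultrafilter.eventually_exists_iff]
  refine exists_congr fun i => ?_
  rw [eventually_all]
  refine forall_congr' fun j => ?_
  rw [eventually_imp_distrib_left]
  simp only [mul_smul, Set.mem_ofPred_eq]

theorem far (h : Cv G b) (ho : o ∈ KK G b) {a₀ a₁ : X} (h0 : o ≠ a₀) (h1 : o ≠ a₁)
    {p q : ℕ → G} (hp : Tendsto (fun n => p n • b) atTop (𝓝 a₀))
    (hq : Tendsto (fun n => q n • b) atTop (𝓝 a₁)) {B : Set G} (hB : B.Finite) :
    ∃ ρ : ℝ, 0 < ρ ∧ (∀ n, ρ ≤ dist (p n • b) o) ∧ (∀ n, ρ ≤ dist (q n • b) o) ∧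
      ∀ x ∈ B, ρ ≤ dist (x • b) o := by
  have hc : IsClosed ((insert a₀ (Set.range fun n => p n • b) ∪
      insert a₁ (Set.range fun n => q n • b)) ∪ (fun x : G => x • b) '' B) :=
    (hp.isCompact_insert_range.isClosed.union hq.isCompact_insert_range.isClosed).union
      (hB.image _).isClosed
  have hn : ∀ x : G, x • b ≠ o := fun x e => h.orb_notMem x (e ▸ ho)
  have hm : o ∈ ((insert a₀ (Set.range fun n => p n • b) ∪
      insert a₁ (Set.range fun n => q n • b)) ∪ (fun x : G => x • b) '' B)ᶜ := by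
    rintro (((e | ⟨n, e⟩) | (e | ⟨n, e⟩)) | ⟨x, -, e⟩)
    exacts [h0 e, hn _ e, h1 e, hn _ e, hn _ e]
  obtain ⟨ρ, k1, k2⟩ := Metric.mem_nhds_iff.1 (hc.isOpen_compl.mem_nhds hm)
  refine ⟨ρ, k1, fun n => not_lt.1 fun e => k2 e (Or.inl (Or.inl (Or.inr ⟨n, rfl⟩))),
    fun n => not_lt.1 fun e => k2 e (Or.inl (Or.inr (Or.inr ⟨n, rfl⟩))),
    fun x hx => not_lt.1 fun e => k2 e (Or.inr ⟨x, hx, rfl⟩)⟩

end LemRL

open LemRL

theorem lemR_stmt : LemRStmt := by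
  intro G _ X _ _ _ _ S b bd hZ H V hinv ⟨T, hT, hTV⟩ hconn a ha hAc
  have cv := bd.cv
  have hS := bd.cs.gen
  have hK : ∀ i, a i ∈ KK G b := fun i => (hAc i).mem
  choose! β hβH hβT using hTV
  set D₀ : Set G := (T * (S : Set G) * T⁻¹) ∩ H with hD₀
  have hD₀f : D₀.Finite := ((hT.mul S.finite_toSet).mul hT.inv).inter_of_left _
  have hstep : ∀ x ∈ V, ∀ s ∈ S, x * s ∈ V → (β x)⁻¹ * β (x * s) ∈ D₀ := fun x hx s hs hxs =>
    ⟨⟨_, ⟨_, hβT x hx, s, hs, rfl⟩, _, Set.inv_mem_inv.2 (hβT _ hxs), by simp [mul_assoc]⟩,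
      H.mul_mem (H.inv_mem (hβH x hx)) (hβH _ hxs)⟩
  have h01 : a 0 ≠ a 1 := fun e => absurd (ha e) (by decide)
  obtain ⟨o, ho1, ho2, hwc⟩ := bd.wc (a 0) (a 1) ((hAc 0).mono (Set.subset_univ _))
    ((hAc 1).mono (Set.subset_univ _)) h01 {a 0, a 1} (Set.toFinite _)
  have hoK : o ∈ KK G b := ho2.mem
  have ho0 : o ≠ a 0 := fun e => ho1 (Or.inl e)
  have ho1' : o ≠ a 1 := fun e => ho1 (Or.inr e)
  obtain ⟨p, p1, p2, p3⟩ := hAc 0
  obtain ⟨q, q1, q2, q3⟩ := hAc 1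
  obtain ⟨B, B1, B2, B3⟩ := (hconn _ (p2 0) _ (q2 0)).finite
  have p4 := follow_ray cv hT hβT p1 p2 p3
  have q4 := follow_ray cv hT hβT q1 q2 q3
  obtain ⟨ρ, hρ, r1, r2, r3⟩ := far cv hoK ho0 ho1' (tendsto_nf.1 p4).1 (tendsto_nf.1 q4).1
    (B2.image β)
  obtain ⟨D, hD, hI⟩ := hZ ρ hρ
  choose ε hε hzal using hI
  have d0 : 0 < dist (a 0) o := dist_pos.2 ho0.symm
  have d1 : 0 < dist (a 1) o := dist_pos.2 ho1'.symm
  have he : ∀ n, ∃ e : ℝ, 0 < e ∧ e < ε n ∧ e < dist (a 0) o ∧ e < dist (a 1) o := fun n => by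
    have m := lt_min (hε n) (lt_min d0 d1)
    have m' := half_lt_self m
    exact ⟨_, half_pos m, m'.trans_le (min_le_left _ _),
      m'.trans_le ((min_le_right _ _).trans (min_le_left _ _)),
      m'.trans_le ((min_le_right _ _).trans (min_le_right _ _))⟩
  choose e e0 e1 e2 e3 using he
  choose F F1 F2 F3 using fun n => hwc (e n) (e0 n)
  set In : ℕ → Set X := fun n => {η | F n ∈ nf G b η} with hIn
  set L : ℕ → Set G := fun n =>
    {g | g ∈ H ∧ ∃ d ∈ D₀, ¬ (Mj a (In n) g ↔ Mj a (In n) (g * d))} with hL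
  have hLf : ∀ n, {x | x ∈ L n ∧ ε n ≤ dist (x • b) o}.Finite := fun n =>
    (loc_finite bd ha hK hD₀f (e1 n) (F1 n)).subset fun x hx => ⟨hx.1.2, hx.2⟩
  have hloc : ∀ n, ∀ g ∈ H, ∀ x ∈ V, ∀ s ∈ S, x * s ∈ V →
      ¬ (Mj a (In n) (g * β x) ↔ Mj a (In n) (g * β (x * s))) → g * β x ∈ L n :=
    fun n g hg x hx s hs hxs k => ⟨H.mul_mem hg (hβH x hx), _, hstep x hx s hs hxs, by
      rwa [mul_assoc, mul_inv_cancel_left]⟩
  have hex : ∀ n, ∃ g₀ ∈ L n, ρ ≤ dist (g₀ • b) o := fun n => by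
    have v0 : F n ∈ nf G b (a 0) := (visible bd.lc (F1 n) (e2 n)).resolve_right fun k => F2 n k
    have v1 : (F n)ᶜ ∈ nf G b (a 1) := (visible bd.lc (F1 n) (e3 n)).resolve_left fun k =>
      F3 n (mem_of_superset k fun x hx => not_not.2 hx)
    obtain ⟨j, j1, j2⟩ := ((p4.eventually (q_pos cv ha v0)).and
      (q4.eventually (q_neg cv ha hK v1))).exists
    have W1 : Conn S (Set.range p ∪ Set.range q ∪ B) (p j) (q j) :=
      (((p1.conn (k := 0) (fun n _ => Or.inl (Or.inl ⟨n, rfl⟩)) j j.zero_le).symm hS).trans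
        (B3.mono Set.subset_union_right)).trans
        (q1.conn (k := 0) (fun n _ => Or.inl (Or.inr ⟨n, rfl⟩)) j j.zero_le)
    have W2 : Set.range p ∪ Set.range q ∪ B ⊆ V := by
      rintro x ((⟨n, rfl⟩ | ⟨n, rfl⟩) | k)
      exacts [p2 n, q2 n, B1 k]
    by_contra k
    refine conn_not_cr (L := {x | Mj a (In n) (β x)}) W1 (fun u hu s hs hus c => k ⟨β u, ?_, ?_⟩)
      fun c => j2 (c.1 j1)
    · have := hloc n 1 H.one_mem u (W2 hu) s hs (W2 hus) (by rw [one_mul, one_mul]; exact c)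
      rwa [one_mul] at this
    · rcases hu with (⟨n, rfl⟩ | ⟨n, rfl⟩) | k
      exacts [r1 n, r2 n, r3 _ ⟨u, k, rfl⟩]
  have hz : ∀ n, ∃ g ∈ L n,
      (∀ i ≤ n, ∀ x ∈ L n, 1 / ((i : ℝ) + 1) ≤ dist ((g⁻¹ * x) • b) (g⁻¹ • o) → g⁻¹ * x ∈ D i) ∧
      ∀ z, 1 / ((n : ℝ) + 1) ≤ dist z (g⁻¹ • o) → ε n ≤ dist (g • z) o := fun n => by
    obtain ⟨g₀, k1, k2⟩ := hex n
    exact hzal n o hoK (L n) (hLf n) g₀ k1 k2
  choose h h1 h2 h3 using hz
  obtain ⟨k, hk⟩ := ultra_lim (hyperfilter ℕ) fun n => (h n)⁻¹ • o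
  have hU : ∀ i : ℕ, ∀ᶠ n in (hyperfilter ℕ : Filter ℕ), i ≤ n := fun i =>
    Nat.hyperfilter_le_atTop (eventually_ge_atTop i)
  set π : Set X := {ξ | ∀ᶠ n in (hyperfilter ℕ : Filter ℕ), h n • ξ ∈ In n} with hπ
  have hmj : ∀ g, Mj a π g ↔ ∀ᶠ n in (hyperfilter ℕ : Filter ℕ), Mj a (In n) (h n * g) :=
    fun g => mj_ultra (hyperfilter ℕ) a In h g
  have hcr : ∀ g g', ¬ (Mj a π g ↔ Mj a π g') ↔ ∀ᶠ n in (hyperfilter ℕ : Filter ℕ),
      ¬ (Mj a (In n) (h n * g) ↔ Mj a (In n) (h n * g')) := fun g g' => by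
    rw [hmj, hmj, Ultrafilter.eventually_not]
    refine not_congr ⟨fun c => ?_, fun c => eventually_congr c⟩
    by_cases c' : ∀ᶠ n in (hyperfilter ℕ : Filter ℕ), Mj a (In n) (h n * g)
    · filter_upwards [c', c.1 c'] with n n1 n2 using iff_of_true n1 n2
    · filter_upwards [Ultrafilter.eventually_not.2 c',
        Ultrafilter.eventually_not.2 fun c'' => c' (c.2 c'')] with n n1 n2 using iff_of_false n1 n2
  refine ⟨k, {x | Mj a π (β x)}, π, fun ξ hξ => ?_, fun z z1 z2 ξ hξ z3 => ?_, ?_⟩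
  · have hY : ∀ ξ, ξ ≠ k →
        {g | ∀ᶠ n in (hyperfilter ℕ : Filter ℕ), h n * g ∈ L n}ᶜ ∈ nf G b ξ := by
      refine only_iff.2 fun δ hδ => ?_
      obtain ⟨i, hi⟩ := exists_nat_one_div_lt hδ
      refine (hD i).subset fun g hg => ?_
      obtain ⟨n, ⟨n1, n2⟩, n3⟩ := ((hg.1.and (hU i)).and
        ((tendsto_const_nhds.dist hk).eventually (lt_mem_nhds (hi.trans_le hg.2)))).exists
      have := h2 n i n2 _ n1
      rw [inv_mul_cancel_left] at this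
      exact this n3.le
    filter_upwards [follow cv hT hβT (hY ξ hξ)] with x hx
    rintro ⟨x1, s, hs, x2, x3⟩
    refine hx x1 ?_
    filter_upwards [(hcr _ _).1 x3] with n hn
    exact hloc n _ (h1 n).1 x x1 s hs x2 hn
  · have z4 := follow_ray cv hT hβT z1 z2 z3
    have hξK : ξ ∈ KK G b := Ac.mem ⟨z, z1, z2, z3⟩
    have hd : 0 < dist ξ k / 3 := by
      have := dist_pos.2 hξ
      positivity
    obtain ⟨i, hi⟩ := exists_nat_one_div_lt hd
    obtain ⟨j₀, hj⟩ := eventually_atTop.1 ((z4.eventually (compl_mem_nf (hD i))).and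
      (Metric.tendsto_nhds.1 (tendsto_nf.1 z4).1 _ hd))
    have key : ∀ᶠ n in (hyperfilter ℕ : Filter ℕ), ∀ j, j₀ ≤ j →
        (Mj a (In n) (h n * β (z j)) ↔ h n • ξ ∈ In n) := by
      filter_upwards [hU i, Metric.tendsto_nhds.1 hk _ hd] with n n1 n2
      have t1 := dist_triangle ξ ((h n)⁻¹ • o) k
      have c1 : ∀ j, j₀ ≤ j → h n * β (z j) ∉ L n := fun j hj' c => by
        have := h2 n i n1 _ c
        rw [inv_mul_cancel_left] at this
        refine (hj j hj').1 (this ?_)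
        have t2 := dist_triangle_left ξ ((h n)⁻¹ • o) (β (z j) • b)
        have t3 := (hj j hj').2
        linarith
      have c2 : ∀ j, j₀ ≤ j →
          (Mj a (In n) (h n * β (z j₀)) ↔ Mj a (In n) (h n * β (z j))) := fun j hj' => by
        induction j, hj' using Nat.le_induction with
        | base => exact Iff.rfl
        | succ j hj' ih =>
          refine ih.trans (not_not.1 fun c => c1 j hj' ?_)
          refine hloc n _ (h1 n).1 _ (z2 j) _ (z1.step j) ?_ ?_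
          · rw [mul_inv_cancel_left]
            exact z2 _
          · rw [mul_inv_cancel_left]
            exact c
      have c3 : e n < dist (h n • ξ) o := by
        refine (e1 n).trans_le (h3 n ξ ?_)
        have t4 : 1 / ((n : ℝ) + 1) ≤ 1 / ((i : ℝ) + 1) :=
          one_div_le_one_div_of_le (by positivity) (by exact_mod_cast Nat.succ_le_succ n1)
        linarith
      have z5 : Tendsto (fun j => h n * β (z j)) atTop (nf G b (h n • ξ)) :=
        (nf_left (h n)).comp z4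
      intro j hj'
      rcases visible bd.lc (F1 n) c3 with v | v
      · obtain ⟨j', j1, j2⟩ := ((z5.eventually (q_pos cv ha v)).and (eventually_ge_atTop j₀)).exists
        exact iff_of_true ((c2 j hj').1 ((c2 j' j2).2 j1)) v
      · obtain ⟨j', j1, j2⟩ :=
          ((z5.eventually (q_neg cv ha hK v)).and (eventually_ge_atTop j₀)).exists
        exact iff_of_false (fun c => j1 ((c2 j' j2).1 ((c2 j hj').2 c)))
          fun c => not_both ((smul_mem_KK _).2 hξK) c v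
    filter_upwards [eventually_ge_atTop j₀] with j hj'
    have k1 : (∀ᶠ n in (hyperfilter ℕ : Filter ℕ), Mj a (In n) (h n * β (z j))) ↔
        ∀ᶠ n in (hyperfilter ℕ : Filter ℕ), h n • ξ ∈ In n :=
      eventually_congr (key.mono fun n hn => hn j hj')
    exact (hmj (β (z j))).trans k1
  · obtain ⟨d, hd, c⟩ := (Ultrafilter.eventually_exists_mem_iff (f := hyperfilter ℕ)
      (P := fun d n => ¬ (Mj a (In n) (h n) ↔ Mj a (In n) (h n * d))) hD₀f).1
      (Eventually.of_forall fun n => (h1 n).2)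
    have c' : ¬ (Mj a π (1 : G) ↔ Mj a π d) := (hcr 1 d).2 (by simpa only [mul_one] using c)
    have fin : ∀ g ∈ H, ∀ g' ∈ H, Mj a π g → ¬ Mj a π g' →
        ∃ ξ η, ξ ≠ k ∧ η ≠ k ∧ Ac S b V ξ ∧ Ac S b V η ∧ ξ ∈ π ∧ η ∉ π := by
      intro g hg g' hg' m1 m2
      obtain ⟨j, j1, j2⟩ := m1.exists_ne ha k
      obtain ⟨j', j3, j4⟩ := (mj_compl.2 m2).exists_ne ha k
      exact ⟨g • a j, g' • a j', j2, j4, Ac.smul (hAc j) (hinv g hg),
        Ac.smul (hAc j') (hinv g' hg'), j1, j3⟩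
    by_cases m : Mj a π (1 : G)
    · exact fin 1 H.one_mem d hd.2 m fun m' => c' (iff_of_true m m')
    · exact fin d hd.2 1 H.one_mem (by_contra fun m' => c' (iff_of_false m m')) m

end Pool.Agent.MP_4f4d9f_gt.Ku

end

section

/-! The rescaling lemma, relative version. -/

namespace Pool.Agent.MP_4f4d9f_gt.Rk

open Filter Topology Hy Ku
open scoped Pointwise

namespace LemRL

open Ku.LemRL

variable {G : Type} [Group G] {X : Type} [MetricSpace X] [MulAction G X]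
  [ContinuousConstSMul G X] {b o : X}

/-- The locations are finite away from `o`. -/
theorem loc_fin [CompactSpace X] (h : Cv G b) {a : Fin 3 → X} (ha : Function.Injective a)
    (hK : ∀ i, a i ∈ KK G b) {F D₀ : Set G} (hD : D₀.Finite) {e ε : ℝ} (he : e < ε)
    (hF : ∀ ζ, e < dist ζ o → F ∈ nf G b ζ ∨ Fᶜ ∈ nf G b ζ) :
    {x | (∃ d ∈ D₀, ¬ (Mj a {η | F ∈ nf G b η} x ↔ Mj a {η | F ∈ nf G b η} (x * d))) ∧
      ε ≤ dist (x • b) o}.Finite := by
  refine (finite_iff b).2 fun ξ => ?_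
  by_cases k : dist ξ o < ε
  · have : {z | dist z o < ε} ∈ 𝓝 ξ :=
      (isOpen_lt (continuous_id.dist continuous_const) continuous_const).mem_nhds k
    filter_upwards [nf_tendsto this] with x hx k'
    exact k'.2.not_gt hx
  · rcases hF ξ (he.trans_le (not_lt.1 k)) with k' | k'
    · have := q_pos h ha k'
      filter_upwards [this, (eventually_all_finite hD).2 fun d _ => h.nf_right d this]
        with x k1 k2
      rintro ⟨⟨d, hd, k3⟩, -⟩
      exact k3 (iff_of_true k1 (k2 d hd))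
    · have := q_neg h ha hK k'
      filter_upwards [this, (eventually_all_finite hD).2 fun d _ => h.nf_right d this]
        with x k1 k2
      rintro ⟨⟨d, hd, k3⟩, -⟩
      exact k3 (iff_of_false k1 (k2 d hd))

end LemRL

open Ku.LemRL LemRL in
theorem lemR_stmt : LemRStmt := by
  intro G _ X _ _ _ _ S b bd hZ H V hinv ⟨T, hT, hTV⟩ hconn a ha hAc
  have cv := bd.cv
  have hS := bd.gen
  have hK : ∀ i, a i ∈ KK G b := fun i => (hAc i).mem
  choose! β hβH hβT using hTV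
  set D₀ : Set G := (T * (S : Set G) * T⁻¹) ∩ H with hD₀
  have hD₀f : D₀.Finite := ((hT.mul S.finite_toSet).mul hT.inv).inter_of_left _
  have hstep : ∀ x ∈ V, ∀ s ∈ S, x * s ∈ V → (β x)⁻¹ * β (x * s) ∈ D₀ := fun x hx s hs hxs =>
    ⟨⟨_, ⟨_, hβT x hx, s, hs, rfl⟩, _, Set.inv_mem_inv.2 (hβT _ hxs), by simp [mul_assoc]⟩,
      H.mul_mem (H.inv_mem (hβH x hx)) (hβH _ hxs)⟩
  have h01 : a 0 ≠ a 1 := fun e => absurd (ha e) (by decide)
  obtain ⟨o, ho1, ho2, hwc⟩ := bd.wc (a 0) (a 1) ((hAc 0).mono (Set.subset_univ _))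
    ((hAc 1).mono (Set.subset_univ _)) h01 {a 0, a 1} (Set.toFinite _)
  have hoK : o ∈ KK G b := ho2.mem
  have ho0 : o ≠ a 0 := fun e => ho1 (Or.inl e)
  have ho1' : o ≠ a 1 := fun e => ho1 (Or.inr e)
  obtain ⟨p, p1, p2, p3⟩ := hAc 0
  obtain ⟨q, q1, q2, q3⟩ := hAc 1
  obtain ⟨B, B1, B2, B3⟩ := (hconn _ (p2 0) _ (q2 0)).finite
  have p4 := follow_ray cv hT hβT p1 p2 p3
  have q4 := follow_ray cv hT hβT q1 q2 q3
  obtain ⟨ρ, hρ, r1, r2, r3⟩ := far cv hoK ho0 ho1' (tendsto_nf.1 p4).1 (tendsto_nf.1 q4).1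
    (B2.image β)
  obtain ⟨D, hD, hI⟩ := hZ ρ hρ
  choose ε hε hzal using hI
  have d0 : 0 < dist (a 0) o := dist_pos.2 ho0.symm
  have d1 : 0 < dist (a 1) o := dist_pos.2 ho1'.symm
  have he : ∀ n, ∃ e : ℝ, 0 < e ∧ e < ε n ∧ e < dist (a 0) o ∧ e < dist (a 1) o := fun n => by
    have m := lt_min (hε n) (lt_min d0 d1)
    have m' := half_lt_self m
    exact ⟨_, half_pos m, m'.trans_le (min_le_left _ _),
      m'.trans_le ((min_le_right _ _).trans (min_le_left _ _)),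
      m'.trans_le ((min_le_right _ _).trans (min_le_right _ _))⟩
  choose e e0 e1 e2 e3 using he
  choose F F1 F2 F3 using fun n => hwc (e n) (e0 n)
  set In : ℕ → Set X := fun n => {η | F n ∈ nf G b η} with hIn
  set L : ℕ → Set G := fun n =>
    {g | g ∈ H ∧ ∃ d ∈ D₀, ¬ (Mj a (In n) g ↔ Mj a (In n) (g * d))} with hL
  have hLf : ∀ n, {x | x ∈ L n ∧ ε n ≤ dist (x • b) o}.Finite := fun n =>
    (loc_fin cv ha hK hD₀f (e1 n) (F1 n)).subset fun x hx => ⟨hx.1.2, hx.2⟩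
  have hloc : ∀ n, ∀ g ∈ H, ∀ x ∈ V, ∀ s ∈ S, x * s ∈ V →
      ¬ (Mj a (In n) (g * β x) ↔ Mj a (In n) (g * β (x * s))) → g * β x ∈ L n :=
    fun n g hg x hx s hs hxs k => ⟨H.mul_mem hg (hβH x hx), _, hstep x hx s hs hxs, by
      rwa [mul_assoc, mul_inv_cancel_left]⟩
  have hex : ∀ n, ∃ g₀ ∈ L n, ρ ≤ dist (g₀ • b) o := fun n => by
    have v0 : F n ∈ nf G b (a 0) := (F1 n _ (e2 n)).resolve_right fun k => F2 n k
    have v1 : (F n)ᶜ ∈ nf G b (a 1) := (F1 n _ (e3 n)).resolve_left fun k =>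
      F3 n (mem_of_superset k fun x hx => not_not.2 hx)
    obtain ⟨j, j1, j2⟩ := ((p4.eventually (q_pos cv ha v0)).and
      (q4.eventually (q_neg cv ha hK v1))).exists
    have W1 : Conn S (Set.range p ∪ Set.range q ∪ B) (p j) (q j) :=
      (((p1.conn (k := 0) (fun n _ => Or.inl (Or.inl ⟨n, rfl⟩)) j j.zero_le).symm hS).trans
        (B3.mono Set.subset_union_right)).trans
        (q1.conn (k := 0) (fun n _ => Or.inl (Or.inr ⟨n, rfl⟩)) j j.zero_le)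
    have W2 : Set.range p ∪ Set.range q ∪ B ⊆ V := by
      rintro x ((⟨n, rfl⟩ | ⟨n, rfl⟩) | k)
      exacts [p2 n, q2 n, B1 k]
    by_contra k
    refine conn_not_cr (L := {x | Mj a (In n) (β x)}) W1 (fun u hu s hs hus c => k ⟨β u, ?_, ?_⟩)
      fun c => j2 (c.1 j1)
    · have := hloc n 1 H.one_mem u (W2 hu) s hs (W2 hus) (by rw [one_mul, one_mul]; exact c)
      rwa [one_mul] at this
    · rcases hu with (⟨n, rfl⟩ | ⟨n, rfl⟩) | k
      exacts [r1 n, r2 n, r3 _ ⟨u, k, rfl⟩]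
  have hz : ∀ n, ∃ g ∈ L n,
      (∀ i ≤ n, ∀ x ∈ L n, 1 / ((i : ℝ) + 1) ≤ dist ((g⁻¹ * x) • b) (g⁻¹ • o) → g⁻¹ * x ∈ D i) ∧
      ∀ z, 1 / ((n : ℝ) + 1) ≤ dist z (g⁻¹ • o) → ε n ≤ dist (g • z) o := fun n => by
    obtain ⟨g₀, k1, k2⟩ := hex n
    exact hzal n o hoK (L n) (hLf n) g₀ k1 k2
  choose h h1 h2 h3 using hz
  obtain ⟨k, hk⟩ := ultra_lim (hyperfilter ℕ) fun n => (h n)⁻¹ • o
  have hU : ∀ i : ℕ, ∀ᶠ n in (hyperfilter ℕ : Filter ℕ), i ≤ n := fun i =>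
    Nat.hyperfilter_le_atTop (eventually_ge_atTop i)
  set π : Set X := {ξ | ∀ᶠ n in (hyperfilter ℕ : Filter ℕ), h n • ξ ∈ In n} with hπ
  have hmj : ∀ g, Mj a π g ↔ ∀ᶠ n in (hyperfilter ℕ : Filter ℕ), Mj a (In n) (h n * g) :=
    fun g => mj_ultra (hyperfilter ℕ) a In h g
  have hcr : ∀ g g', ¬ (Mj a π g ↔ Mj a π g') ↔ ∀ᶠ n in (hyperfilter ℕ : Filter ℕ),
      ¬ (Mj a (In n) (h n * g) ↔ Mj a (In n) (h n * g')) := fun g g' => by
    rw [hmj, hmj, Ultrafilter.eventually_not]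
    refine not_congr ⟨fun c => ?_, fun c => eventually_congr c⟩
    by_cases c' : ∀ᶠ n in (hyperfilter ℕ : Filter ℕ), Mj a (In n) (h n * g)
    · filter_upwards [c', c.1 c'] with n n1 n2 using iff_of_true n1 n2
    · filter_upwards [Ultrafilter.eventually_not.2 c',
        Ultrafilter.eventually_not.2 fun c'' => c' (c.2 c'')] with n n1 n2 using iff_of_false n1 n2
  refine ⟨k, {x | Mj a π (β x)}, π, fun ξ hξ => ?_, fun z z1 z2 ξ hξ z3 => ?_, ?_⟩
  · have hY : ∀ ξ, ξ ≠ k →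
        {g | ∀ᶠ n in (hyperfilter ℕ : Filter ℕ), h n * g ∈ L n}ᶜ ∈ nf G b ξ := by
      refine only_iff.2 fun δ hδ => ?_
      obtain ⟨i, hi⟩ := exists_nat_one_div_lt hδ
      refine (hD i).subset fun g hg => ?_
      obtain ⟨n, ⟨n1, n2⟩, n3⟩ := ((hg.1.and (hU i)).and
        ((tendsto_const_nhds.dist hk).eventually (lt_mem_nhds (hi.trans_le hg.2)))).exists
      have := h2 n i n2 _ n1
      rw [inv_mul_cancel_left] at this
      exact this n3.le
    filter_upwards [follow cv hT hβT (hY ξ hξ)] with x hx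
    rintro ⟨x1, s, hs, x2, x3⟩
    refine hx x1 ?_
    filter_upwards [(hcr _ _).1 x3] with n hn
    exact hloc n _ (h1 n).1 x x1 s hs x2 hn
  · have z4 := follow_ray cv hT hβT z1 z2 z3
    have hξK : ξ ∈ KK G b := Ac.mem ⟨z, z1, z2, z3⟩
    have hd : 0 < dist ξ k / 3 := by
      have := dist_pos.2 hξ
      positivity
    obtain ⟨i, hi⟩ := exists_nat_one_div_lt hd
    obtain ⟨j₀, hj⟩ := eventually_atTop.1 ((z4.eventually (compl_mem_nf (hD i))).and
      (Metric.tendsto_nhds.1 (tendsto_nf.1 z4).1 _ hd))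
    have key : ∀ᶠ n in (hyperfilter ℕ : Filter ℕ), ∀ j, j₀ ≤ j →
        (Mj a (In n) (h n * β (z j)) ↔ h n • ξ ∈ In n) := by
      filter_upwards [hU i, Metric.tendsto_nhds.1 hk _ hd] with n n1 n2
      have t1 := dist_triangle ξ ((h n)⁻¹ • o) k
      have c1 : ∀ j, j₀ ≤ j → h n * β (z j) ∉ L n := fun j hj' c => by
        have := h2 n i n1 _ c
        rw [inv_mul_cancel_left] at this
        refine (hj j hj').1 (this ?_)
        have t2 := dist_triangle_left ξ ((h n)⁻¹ • o) (β (z j) • b)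
        have t3 := (hj j hj').2
        linarith
      have c2 : ∀ j, j₀ ≤ j →
          (Mj a (In n) (h n * β (z j₀)) ↔ Mj a (In n) (h n * β (z j))) := fun j hj' => by
        induction j, hj' using Nat.le_induction with
        | base => exact Iff.rfl
        | succ j hj' ih =>
          refine ih.trans (not_not.1 fun c => c1 j hj' ?_)
          refine hloc n _ (h1 n).1 _ (z2 j) _ (z1.step j) ?_ ?_
          · rw [mul_inv_cancel_left]
            exact z2 _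
          · rw [mul_inv_cancel_left]
            exact c
      have c3 : e n < dist (h n • ξ) o := by
        refine (e1 n).trans_le (h3 n ξ ?_)
        have t4 : 1 / ((n : ℝ) + 1) ≤ 1 / ((i : ℝ) + 1) :=
          one_div_le_one_div_of_le (by positivity) (by exact_mod_cast Nat.succ_le_succ n1)
        linarith
      have z5 : Tendsto (fun j => h n * β (z j)) atTop (nf G b (h n • ξ)) :=
        (nf_left (h n)).comp z4
      intro j hj'
      rcases F1 n _ c3 with v | v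
      · obtain ⟨j', j1, j2⟩ := ((z5.eventually (q_pos cv ha v)).and (eventually_ge_atTop j₀)).exists
        exact iff_of_true ((c2 j hj').1 ((c2 j' j2).2 j1)) v
      · obtain ⟨j', j1, j2⟩ :=
          ((z5.eventually (q_neg cv ha hK v)).and (eventually_ge_atTop j₀)).exists
        exact iff_of_false (fun c => j1 ((c2 j' j2).1 ((c2 j hj').2 c)))
          fun c => not_both ((smul_mem_KK _).2 hξK) c v
    filter_upwards [eventually_ge_atTop j₀] with j hj'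
    have k1 : (∀ᶠ n in (hyperfilter ℕ : Filter ℕ), Mj a (In n) (h n * β (z j))) ↔
        ∀ᶠ n in (hyperfilter ℕ : Filter ℕ), h n • ξ ∈ In n :=
      eventually_congr (key.mono fun n hn => hn j hj')
    exact (hmj (β (z j))).trans k1
  · obtain ⟨d, hd, c⟩ := (Ultrafilter.eventually_exists_mem_iff (f := hyperfilter ℕ)
      (P := fun d n => ¬ (Mj a (In n) (h n) ↔ Mj a (In n) (h n * d))) hD₀f).1
      (Eventually.of_forall fun n => (h1 n).2)
    have c' : ¬ (Mj a π (1 : G) ↔ Mj a π d) := (hcr 1 d).2 (by simpa only [mul_one] using c)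
    have fin : ∀ g ∈ H, ∀ g' ∈ H, Mj a π g → ¬ Mj a π g' →
        ∃ ξ η, ξ ≠ k ∧ η ≠ k ∧ Ac S b V ξ ∧ Ac S b V η ∧ ξ ∈ π ∧ η ∉ π := by
      intro g hg g' hg' m1 m2
      obtain ⟨j, j1, j2⟩ := m1.exists_ne ha k
      obtain ⟨j', j3, j4⟩ := (mj_compl.2 m2).exists_ne ha k
      exact ⟨g • a j, g' • a j', j2, j4, Ac.smul (hAc j) (hinv g hg),
        Ac.smul (hAc j') (hinv g' hg'), j1, j3⟩
    by_cases m : Mj a π (1 : G)
    · exact fin 1 H.one_mem d hd.2 m fun m' => c' (iff_of_true m m')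
    · exact fin d hd.2 1 H.one_mem (by_contra fun m' => c' (iff_of_false m m')) m

end Pool.Agent.MP_4f4d9f_gt.Rk

end

section

/-! The order argument for invariant nested families of sets under a torsion free group. -/

namespace Pool.Agent.MP_4f4d9f_gt.Rk

open Filter Topology Hy Ku

open scoped Pointwise

namespace Ord3L

open OrdL (inf_pow)

variable {G Ω : Type} [Group G] [MulAction G Ω] {𝓕 : Set (Set Ω)} {Es : Set Ω}

theorem sub_pow {g : G} {A : Set Ω} (h : A ⊆ g • A) (n : ℕ) : A ⊆ g ^ n • A := by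
  induction n with
  | zero => simp
  | succ n ih =>
    rw [pow_succ, mul_smul]
    exact ih.trans (Set.smul_set_mono h)

theorem pow_sub {g : G} {A : Set Ω} (h : g • A ⊆ A) (n : ℕ) : g ^ n • A ⊆ A := by
  induction n with
  | zero => simp
  | succ n ih =>
    rw [pow_succ, mul_smul]
    exact (Set.smul_set_mono h).trans ih

theorem pow_mono {g : G} {A : Set Ω} (h : A ⊆ g • A) {m n : ℕ} (e : m ≤ n) :
    g ^ m • A ⊆ g ^ n • A := by
  obtain ⟨k, rfl⟩ := Nat.exists_eq_add_of_le e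
  rw [pow_add, mul_smul]
  exact Set.smul_set_mono (sub_pow h k)

theorem exists_min {ι : Type} {T : Set ι} (hT : T.Finite) (hne : T.Nonempty) (f : ι → Set Ω)
    (h : ∀ i ∈ T, ∀ j ∈ T, f i ⊆ f j ∨ f j ⊆ f i) : ∃ i ∈ T, ∀ j ∈ T, f i ⊆ f j := by
  obtain ⟨i, hi⟩ := hT.exists_minimalFor f T hne
  exact ⟨i, hi.1, fun j hj => (h i hi.1 j hj).elim id fun e => hi.2 hj e⟩

/-- Two members above a nonempty set and below a member are comparable. -/
theorem cmp (hF : Fam3 G 𝓕 Es) {A B D y : Set Ω} (hA : A ∈ 𝓕) (hB : B ∈ 𝓕) (hD : D ∈ 𝓕)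
    (hy : y.Nonempty) (h1 : y ⊆ A) (h2 : y ⊆ B) (h3 : A ⊆ D) (h4 : B ⊆ D) : A ⊆ B ∨ B ⊆ A :=
  hF.chain A hA B hB (hy.mono (Set.subset_inter h1 h2)) fun e =>
    hF.proper D hD (Set.eq_univ_of_univ_subset (e ▸ Set.union_subset h3 h4))

/-- Finitely many translates of an interval lie in a given interval. -/
theorem fin (hF : Fam3 G 𝓕 Es) {F1 F2 E1 E2 : Set Ω} (h3 : E1 ∈ 𝓕) (h4 : E2 ∈ 𝓕)
    (h : AF G F1 F2) : {g : G | E1 ⊆ g • F1 ∧ g • F2 ⊆ E2}.Finite := by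
  obtain ⟨a, ha⟩ := hF.ne E1 h3
  obtain ⟨b, hb⟩ := (Set.ne_univ_iff_exists_notMem _).1 (hF.proper E2 h4)
  refine Set.Finite.of_finite_image (f := fun g => g⁻¹) ((h a b).subset ?_) inv_injective.injOn
  rintro _ ⟨g, ⟨e1, e2⟩, rfl⟩
  exact ⟨Set.mem_smul_set_iff_inv_smul_mem.1 (e1 ha),
    fun e => hb (e2 (Set.mem_smul_set_iff_inv_smul_mem.2 e))⟩

theorem fin' (hF : Fam3 G 𝓕 Es) {z0 z1 : Set Ω} (h0 : z0 ∈ 𝓕) (h1 : z1 ∈ 𝓕) (hE : Es ∈ 𝓕)
    (h : z1 ⊂ Es) : {g : G | g • z0 ⊆ z1 ∧ Es ⊆ g • Es}.Finite := by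
  refine Set.Finite.of_finite_image (f := fun g => g⁻¹) ((fin hF h0 hE (hF.afs z1 h1 h)).subset ?_)
    inv_injective.injOn
  rintro _ ⟨g, ⟨e1, e2⟩, rfl⟩
  exact ⟨Set.smul_set_subset_iff_subset_inv_smul_set.1 e1, Set.subset_smul_set_iff.1 e2⟩

/-- No nesting. -/
theorem nn (hG : ∀ g : G, IsOfFinOrder g → g = 1) (hF : Fam3 G 𝓕 Es) {F1 : Set Ω} (h1 : F1 ∈ 𝓕)
    (h2 : Es ∈ 𝓕) (h : F1 ⊂ Es) {g : G} (e1 : F1 ⊆ g • F1) (e2 : g • Es ⊆ Es) : g = 1 := by
  by_contra hg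
  exact inf_pow hG hg (T := {g : G | F1 ⊆ g • F1 ∧ g • Es ⊆ Es})
    (fun n => ⟨sub_pow e1 n, pow_sub e2 n⟩) (fin hF h1 h2 (hF.afs F1 h1 h))

theorem smul_lt {A B : Set Ω} (g : G) (h : A ⊂ B) : g • A ⊂ g • B :=
  ⟨Set.smul_set_mono h.1, fun e => h.2 (Set.smul_set_subset_smul_set_iff.1 e)⟩

/-- Monotonicity. -/
theorem mono (hG : ∀ g : G, IsOfFinOrder g → g = 1) (hF : Fam3 G 𝓕 Es) {y z D : Set Ω} (hy : y ∈ 𝓕)
    (hz : z ∈ 𝓕) (hD : D ∈ 𝓕) (hyz : y ⊆ z) {a t : G} (h : a • y ⊆ t • y) (h1 : a • z ⊆ D)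
    (h2 : t • z ⊆ D) : a • z ⊆ t • z := by
  rcases cmp hF (hF.smul a z hz) (hF.smul t z hz) hD (hF.ne _ (hF.smul a y hy))
    (Set.smul_set_mono hyz) (h.trans (Set.smul_set_mono hyz)) h1 h2 with e | e
  · exact e
  by_contra hn
  obtain ⟨g, rfl⟩ : ∃ g, t = a * g := ⟨a⁻¹ * t, (mul_inv_cancel_left a t).symm⟩
  rw [mul_smul, Set.smul_set_subset_smul_set_iff] at h e hn
  have hlt : g • z ⊂ z := ⟨e, hn⟩
  refine inf_pow hG (g := g) (fun e1 => hn (by rw [e1, one_smul]))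
    (T := {k : G | y ⊆ k • g • g • g • z ∧ k • z ⊆ z}) (fun n => ⟨?_, pow_sub e n⟩)
    (fin hF hy hz (hF.af3 _ (hF.smul g _ (hF.smul g _ (hF.smul g z hz))) _
      (hF.smul g _ (hF.smul g z hz)) _ (hF.smul g z hz) z hz (smul_lt g (smul_lt g hlt))
      (smul_lt g hlt) hlt))
  rw [smul_smul, smul_smul, smul_smul, ← pow_succ, ← pow_succ, ← pow_succ]
  exact (sub_pow h _).trans (Set.smul_set_mono hyz)

/-- Positive elements. -/
def P (Es y : Set Ω) (a : G) : Prop := a ≠ 1 ∧ y ⊆ a • y ∧ Es ⊆ a • Es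

theorem P.up (hG : ∀ g : G, IsOfFinOrder g → g = 1) (hF : Fam3 G 𝓕 Es) {y z : Set Ω}
    (hE : Es ∈ 𝓕) (hy : y ∈ 𝓕) (hz : z ∈ 𝓕) {a : G} (h : P Es y a) (h1 : y ⊆ z) (h2 : z ⊆ Es) :
    P Es z a := by
  refine ⟨h.1, ?_, h.2.2⟩
  have := mono hG hF hy hz (hF.smul a Es hE) h1 (a := 1) (t := a) (by simpa using h.2.1)
    (by simpa using h2.trans h.2.2) (Set.smul_set_mono h2)
  simpa using this

theorem P.strict (hG : ∀ g : G, IsOfFinOrder g → g = 1) (hF : Fam3 G 𝓕 Es) {y : Set Ω}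
    (hE : Es ∈ 𝓕) (hy : y ∈ 𝓕) {a : G} (h : P Es y a) (h1 : y ⊂ Es) : y ⊂ a • y :=
  ⟨h.2.1, fun e => h.1 (inv_eq_one.1 (nn hG hF hy hE h1
    (Set.smul_set_subset_iff_subset_inv_smul_set.1 e) (Set.subset_smul_set_iff.1 h.2.2)))⟩

theorem P.mono (hG : ∀ g : G, IsOfFinOrder g → g = 1) (hF : Fam3 G 𝓕 Es) {y z : Set Ω}
    (hE : Es ∈ 𝓕) (hy : y ∈ 𝓕) (hz : z ∈ 𝓕) {a t : G} (h : P Es y a) (h0 : a • y ⊆ t • y)
    (h1 : y ⊆ z) (h2 : z ⊆ Es) (h3 : t • z ⊆ Es) : a • z ⊆ t • z :=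
  Ord3L.mono hG hF hy hz (hF.smul a Es hE) h1 h0 (Set.smul_set_mono h2) (h3.trans h.2.2)

theorem P.pow_le (hG : ∀ g : G, IsOfFinOrder g → g = 1) (hF : Fam3 G 𝓕 Es) {y : Set Ω}
    (hE : Es ∈ 𝓕) (hy : y ∈ 𝓕) {a t : G} (h : P Es y a) (h0 : a • y ⊆ t • y) (ht : y ⊆ t • y)
    (n : ℕ) (hn : t ^ n • y ⊆ Es) : a ^ n • y ⊆ t ^ n • y := by
  induction n with
  | zero => simp
  | succ n ih =>
    have e := (pow_mono ht n.le_succ).trans hn
    rw [pow_succ', mul_smul] at hn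
    rw [pow_succ', pow_succ', mul_smul, mul_smul]
    exact (Set.smul_set_mono (ih e)).trans
      (h.mono hG hF hE hy (hF.smul _ y hy) h0 (sub_pow ht n) e hn)

/-- Five points of one type give a short positive element. -/
theorem sh (hG : ∀ g : G, IsOfFinOrder g → g = 1) (hF : Fam3 G 𝓕 Es) {E : Set Ω}
    (hEs : Es ∈ 𝓕) (hE : E ∈ 𝓕) (hlt : E ⊂ Es) (h : ¬ Few G E Es) :
    ∃ a : G, P Es E a ∧ a ^ 4 • E ⊂ Es := by
  classical
  simp only [Few, not_forall, not_le] at h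
  obtain ⟨α, β, γ, h⟩ := h
  obtain ⟨A, hA, hc⟩ := Set.exists_subset_encard_eq
    (show ((5 : ℕ) : ℕ∞) ≤ _ from Order.add_one_le_of_lt h)
  have hAf : A.Finite := Set.finite_of_encard_eq_coe hc
  have mem : ∀ (a : G) (x : Ω) (B : Set Ω), x ∈ a⁻¹ • B ↔ a • x ∈ B := fun a x B =>
    Set.mem_inv_smul_set_iff
  have ch : ∀ a ∈ A, ∀ b ∈ A, ∀ B ∈ 𝓕, ∀ D ∈ 𝓕, E ⊆ B → B ⊆ Es → E ⊆ D → D ⊆ Es →
      a⁻¹ • B ⊆ b⁻¹ • D ∨ b⁻¹ • D ⊆ a⁻¹ • B := by
    intro a ha b hb B hB D hD e1 e2 e3 e4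
    refine hF.chain _ (hF.smul _ _ hB) _ (hF.smul _ _ hD) ⟨α, ?_, ?_⟩ fun e => ?_
    · rw [mem]; exact e1 (hA ha).1
    · rw [mem]; exact e3 (hA hb).1
    · have : γ ∈ a⁻¹ • B ∪ b⁻¹ • D := e ▸ Set.mem_univ _
      rw [Set.mem_union, mem, mem] at this
      exact this.elim (fun e => (hA ha).2.2.2 (e2 e)) fun e => (hA hb).2.2.2 (e4 e)
  have lt : ∀ a ∈ A, ∀ b ∈ A, (a * b⁻¹) • E ⊂ Es := by
    intro a ha b hb
    have e0 : ¬ a⁻¹ • Es ⊆ b⁻¹ • E := fun e =>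
      (hA hb).2.2.1 ((mem _ _ _).1 (e ((mem _ _ _).2 (hA ha).2.1)))
    have e1 := (ch a ha b hb Es hEs E hE hlt.1 subset_rfl subset_rfl hlt.1).resolve_left e0
    rw [mul_smul]
    exact ⟨Set.smul_set_subset_iff_subset_inv_smul_set.2 e1,
      fun e => e0 (Set.subset_smul_set_iff.1 e)⟩
  have sub : ∀ a b : G, ∀ B : Set Ω, a⁻¹ • B ⊆ b⁻¹ • B → B ⊆ (a * b⁻¹) • B := fun a b B e => by
    rw [mul_smul]
    exact Set.subset_smul_set_iff.2 e
  have pos : ∀ a ∈ A, ∀ b ∈ A, a ≠ b → a⁻¹ • E ⊆ b⁻¹ • E → P Es E (a * b⁻¹) := by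
    intro a ha b hb hab e
    have hne : a * b⁻¹ ≠ 1 := fun e => hab (mul_inv_eq_one.1 e)
    refine ⟨hne, sub _ _ _ e, sub _ _ _ ?_⟩
    refine (ch a ha b hb Es hEs Es hEs hlt.1 subset_rfl hlt.1 subset_rfl).resolve_right
      fun e' => hne (nn hG hF hE hEs hlt (sub _ _ _ e) ?_)
    rw [mul_smul]
    exact Set.smul_set_subset_iff_subset_inv_smul_set.2 e'
  have tot : ∀ a ∈ A, ∀ b ∈ A, a⁻¹ • E ⊆ b⁻¹ • E ∨ b⁻¹ • E ⊆ a⁻¹ • E := fun a ha b hb =>
    ch a ha b hb E hE E hE subset_rfl hlt.1 subset_rfl hlt.1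
  obtain ⟨p, hp, hmin⟩ := exists_min
    (T := {p : G × G | p ∈ A ×ˢ A ∧ p.1 ≠ p.2 ∧ p.1⁻¹ • E ⊆ p.2⁻¹ • E})
    ((hAf.prod hAf).subset fun _ e => e.1) (by
      obtain ⟨a, b, ha, hb, hab⟩ := Set.one_lt_encard_iff.1 (show 1 < A.encard by
        rw [hc]; norm_num)
      rcases tot a ha b hb with e | e
      · exact ⟨(a, b), ⟨ha, hb⟩, hab, e⟩
      · exact ⟨(b, a), ⟨hb, ha⟩, hab.symm, e⟩)
    (fun p => (p.1 * p.2⁻¹) • E) fun p hp q hq =>
      cmp hF (hF.smul _ _ hE) (hF.smul _ _ hE) hEs (hF.ne _ hE) (sub _ _ _ hp.2.2)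
        (sub _ _ _ hq.2.2) (lt _ hp.1.1 _ hp.1.2).1 (lt _ hq.1.1 _ hq.1.2).1
  have hη := pos _ hp.1.1 _ hp.1.2 hp.2.1 hp.2.2
  have key : ∀ n : ℕ, ∀ B : Finset G, (B : Set G) ⊆ A → B.card = n + 1 →
      ∃ a ∈ B, ∃ b ∈ B, a⁻¹ • E ⊆ b⁻¹ • E ∧ (p.1 * p.2⁻¹) ^ n • E ⊆ (a * b⁻¹) • E := by
    intro n
    induction n with
    | zero =>
      intro B _ hB
      obtain ⟨a, ha⟩ := Finset.card_pos.1 (show 0 < B.card by omega)
      exact ⟨a, ha, a, ha, subset_rfl, by simp⟩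
    | succ n ih =>
      intro B hBA hB
      obtain ⟨m, hm, hm'⟩ := exists_min B.finite_toSet
        (Finset.card_pos.1 (show 0 < B.card by omega)) (fun a => a⁻¹ • E)
        fun a ha b hb => tot a (hBA ha) b (hBA hb)
      obtain ⟨a, ha, b, hb, e1, e2⟩ := ih (B.erase m)
        ((Finset.coe_subset.2 (Finset.erase_subset m B)).trans hBA)
        (by rw [Finset.card_erase_of_mem hm]; omega)
      have ha' := Finset.mem_of_mem_erase ha
      have hb' := Finset.mem_of_mem_erase hb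
      refine ⟨m, hm, b, hb', hm' b hb', ?_⟩
      have e3 : (m * a⁻¹) • (a * b⁻¹) • E = (m * b⁻¹) • E := by
        rw [smul_smul]; congr 1; group
      have e4 := hη.mono hG hF hEs hE (hF.smul (a * b⁻¹) E hE)
        (hmin (m, a) ⟨⟨hBA hm, hBA ha'⟩, (Finset.ne_of_mem_erase ha).symm, hm' a ha'⟩)
        (sub _ _ _ e1) (lt a (hBA ha') b (hBA hb')).1
        (by rw [e3]; exact (lt m (hBA hm) b (hBA hb')).1)
      rw [pow_succ', mul_smul, ← e3]
      exact (Set.smul_set_mono e2).trans e4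
  obtain ⟨a, ha, b, hb, -, e⟩ := key 4 hAf.toFinset (by simp) (by
    have := hAf.encard_eq_coe_toFinset_card
    rw [hc] at this
    exact_mod_cast this.symm)
  exact ⟨_, hη, e.trans_ssubset (lt a (by simpa using ha) b (by simpa using hb))⟩

/-- The Euclidean algorithm. -/
theorem euclid (hG : ∀ g : G, IsOfFinOrder g → g = 1) (hF : Fam3 G 𝓕 Es) {z0 z1 : Set Ω}
    (hE : Es ∈ 𝓕) (h0 : z0 ∈ 𝓕) (h1 : z1 ∈ 𝓕) (h01 : z0 ⊆ z1) (hlt : z1 ⊂ Es) (n : ℕ) :
    ∀ (a b : G), ∀ y ∈ 𝓕, P Es y a → P Es y b → (a * b) • y ⊆ z0 → (b * a) • y ⊆ z0 →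
      a • z0 ⊆ z1 → b • z0 ⊆ z1 →
      {g : G | g • z0 ⊆ a • z0 ∧ Es ⊆ g • Es}.ncard +
        {g : G | g • z0 ⊆ b • z0 ∧ Es ⊆ g • Es}.ncard = n → a * b = b * a := by
  induction n using Nat.strong_induction_on with
  | _ n ih =>
  intro a b y hy ha hb e1 e2 e3 e4 hn
  have ay : a • y ⊆ z0 := (Set.smul_set_mono hb.2.1).trans (by rwa [smul_smul])
  have by' : b • y ⊆ z0 := (Set.smul_set_mono ha.2.1).trans (by rwa [smul_smul])
  wlog hba : b • y ⊆ a • y generalizing a b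
  · refine (this b a hb ha e2 e1 e4 e3 (by omega) by' ay ?_).symm
    exact (cmp hF (hF.smul a y hy) (hF.smul b y hy) h0 (hF.ne y hy) ha.2.1 hb.2.1 ay
      by').resolve_right hba
  by_cases hc : a * b⁻¹ = 1
  · rw [mul_inv_eq_one.1 hc]
  have h0E : z0 ⊂ Es := h01.trans_ssubset hlt
  have hby := hF.smul b y hy
  have c1 : (a * b⁻¹) • b • y = a • y := by rw [mul_smul, inv_smul_smul]
  have c2 : Es ⊆ (a * b⁻¹) • Es := by
    have := mono hG hF hby hE (hF.smul a Es hE) (by'.trans h0E.1) (a := 1) (t := a * b⁻¹)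
      (by rwa [one_smul, c1]) (by simpa using ha.2.2)
      (by rw [mul_smul]; exact Set.smul_set_mono (Set.subset_smul_set_iff.1 hb.2.2))
    simpa using this
  have c3 := (hb.up hG hF hE hy h0 (hb.2.1.trans by') h0E.1).strict hG hF hE h0 h0E
  have c4 : (a * b⁻¹) • z0 ⊆ a • z0 := by
    rw [mul_smul]
    exact Set.smul_set_mono (Set.subset_smul_set_iff.1 c3.1)
  have c5 : ¬ a • z0 ⊆ (a * b⁻¹) • z0 := fun e => by
    rw [mul_smul, Set.smul_set_subset_smul_set_iff] at e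
    exact c3.2 (Set.smul_set_subset_iff_subset_inv_smul_set.2 e)
  have c6 : {g : G | g • z0 ⊆ (a * b⁻¹) • z0 ∧ Es ⊆ g • Es}.ncard <
      {g : G | g • z0 ⊆ a • z0 ∧ Es ⊆ g • Es}.ncard :=
    Set.ncard_lt_ncard ⟨fun g hg => ⟨hg.1.trans c4, hg.2⟩,
      fun e => c5 (e (show a ∈ {g : G | g • z0 ⊆ a • z0 ∧ Es ⊆ g • Es} from
        ⟨subset_rfl, ha.2.2⟩)).1⟩
      ((fin' hF h0 h1 hE hlt).subset fun g hg => ⟨hg.1.trans e3, hg.2⟩)
  have := ih _ (by omega) (a * b⁻¹) b (b • y) hby ⟨hc, by rwa [c1], c2⟩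
    ⟨hb.1, Set.smul_set_mono hb.2.1, hb.2.2⟩
    (by rwa [inv_mul_cancel_right, smul_smul])
    (by rwa [mul_smul, c1, smul_smul]) (c4.trans e3) e4 rfl
  rw [inv_mul_cancel_right, ← mul_assoc] at this
  exact (eq_mul_inv_iff_mul_eq.1 this)

end Ord3L

open OrdL (inf_pow) in
open Ord3L in
/-- The order proposition. -/
theorem ord3_stmt : Ord3Stmt := by
  intro G Ω _ _ hG 𝓕 Es hF y0 hy0 hlt
  have hE := hF.mem
  by_contra hcon
  have SH : ∀ E ∈ 𝓕, y0 ⊆ E → E ⊂ Es → ∃ a : G, P Es E a ∧ a ^ 4 • E ⊂ Es := fun E h1 h2 h3 =>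
    sh hG hF hE h1 h3 fun e => hcon ⟨E, h1, h2, h3, e⟩
  obtain ⟨a0, ha0, ha4⟩ := SH y0 hy0 subset_rfl hlt
  have ha1 : a0 • y0 ⊂ Es := by
    have := pow_mono ha0.2.1 (show 1 ≤ 4 by norm_num)
    rw [pow_one] at this
    exact this.trans_ssubset ha4
  obtain ⟨η, ⟨hη, hηa⟩, hmin⟩ := exists_min (T := {g : G | P Es y0 g ∧ g • y0 ⊆ a0 • y0})
    ((fin' hF hy0 (hF.smul a0 y0 hy0) hE ha1).subset fun g hg => ⟨hg.2, hg.1.2.2⟩)
    ⟨a0, ha0, subset_rfl⟩ (fun g => g • y0) fun g hg g' hg' =>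
      cmp hF (hF.smul _ _ hy0) (hF.smul _ _ hy0) (hF.smul a0 _ hy0) (hF.ne _ hy0) hg.1.2.1
        hg'.1.2.1 hg.2 hg'.2
  have hη4 : η ^ 4 • y0 ⊂ Es :=
    (hη.pow_le hG hF hE hy0 hηa ha0.2.1 4 ha4.1).trans_ssubset ha4
  obtain ⟨k, hk3, hk4⟩ : ∃ k : ℕ, η ^ (k + 3) • y0 ⊂ Es ∧ ¬ η ^ (k + 4) • y0 ⊂ Es := by
    by_contra hno
    have all : ∀ k : ℕ, η ^ (k + 3) • y0 ⊂ Es := by
      intro k
      induction k with
      | zero => exact (pow_mono hη.2.1 (by norm_num)).trans_ssubset hη4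
      | succ k ih =>
        by_contra e
        exact hno ⟨k, ih, e⟩
    have st := hη.strict hG hF hE hy0 hlt
    refine inf_pow hG hη.1 (T := {g : G | y0 ⊆ g • y0 ∧ g • η • η • η • y0 ⊆ Es}) (fun n => ?_)
      (fin hF hy0 hE (hF.af3 y0 hy0 _ (hF.smul η y0 hy0) _ (hF.smul η _ (hF.smul η y0 hy0)) _
        (hF.smul η _ (hF.smul η _ (hF.smul η y0 hy0))) st (smul_lt η st)
        (smul_lt η (smul_lt η st))))
    refine ⟨sub_pow hη.2.1 n, ?_⟩
    rw [smul_smul, smul_smul, smul_smul, ← pow_succ, ← pow_succ, ← pow_succ]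
    exact (all n).1
  have hy := hF.smul (η ^ k) y0 hy0
  have sp : ∀ j : ℕ, η ^ j • η ^ k • y0 = η ^ (k + j) • y0 := fun j => by
    rw [smul_smul, ← pow_add, add_comm]
  rw [← sp] at hk3 hk4
  have hy0y : y0 ⊆ η ^ k • y0 := sub_pow hη.2.1 k
  generalize hyd : η ^ k • y0 = y at hy hk3 hk4 hy0y
  have hηy : y ⊆ η • y := by
    rw [← hyd, smul_smul, ← pow_succ']
    exact pow_mono hη.2.1 k.le_succ
  have hj : ∀ j ≤ 3, η ^ j • y ⊂ Es := fun j hj => (pow_mono hηy hj).trans_ssubset hk3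
  have hyE : y ⊂ Es := by simpa using hj 0 (by norm_num)
  have h1E : η • y ⊂ Es := by simpa using hj 1 (by norm_num)
  have hη' : P Es y η := ⟨hη.1, hηy, hη.2.2⟩
  obtain ⟨a, ha, hb4⟩ := SH y hy hy0y hyE
  have haE : a • y ⊆ Es := by
    have := pow_mono ha.2.1 (show 1 ≤ 4 by norm_num)
    rw [pow_one] at this
    exact this.trans hb4.1
  have n1 : ¬ η • y ⊆ a • y := fun e =>
    hk4 ((hη'.pow_le hG hF hE hy e ha.2.1 4 hb4.1).trans_ssubset hb4)
  have n2 : a • y ⊆ η • y := (cmp hF (hF.smul a y hy) (hF.smul η y hy) hE (hF.ne y hy) ha.2.1 hηy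
    haE h1E.1).resolve_right n1
  have s2 : η ^ 2 • y = η • η • y := by rw [smul_smul, sq]
  have s3 : η ^ 3 • y = η • η ^ 2 • y := by rw [smul_smul, ← pow_succ']
  have com : a * η = η * a := by
    refine euclid hG hF hE (hF.smul (η ^ 2) y hy) (hF.smul (η ^ 3) y hy)
      (pow_mono hηy (by norm_num)) hk3 _ a η y hy ha hη' ?_ ?_ ?_ s3.symm.subset rfl
    · rw [mul_smul, s2]
      exact ha.mono hG hF hE hy (hF.smul η y hy) n2 hηy h1E.1 (s2 ▸ (hj 2 (by norm_num)).1)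
    · rw [mul_smul, s2]
      exact Set.smul_set_mono n2
    · rw [s3]
      exact ha.mono hG hF hE hy (hF.smul _ y hy) n2 (sub_pow hηy 2) (hj 2 (by norm_num)).1
        (s3 ▸ hk3.1)
  have ck : ∀ b : G, b * η = η * b → b • y = η ^ k • b • y0 := fun b hb => by
    rw [← hyd, smul_smul, smul_smul, ((show Commute b η from hb).pow_right k).eq]
  have f1 : y0 ⊆ a • y0 := by
    have := ha.2.1
    rw [ck a com, ← hyd] at this
    exact Set.smul_set_subset_smul_set_iff.1 this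
  rw [ck a com, ck η rfl, Set.smul_set_subset_smul_set_iff] at n1 n2
  exact n1 (hmin a ⟨⟨ha.1, f1, ha.2.2⟩, n2.trans hηa⟩)

end Pool.Agent.MP_4f4d9f_gt.Rk

end

section

/-! Intervals of cut points are finite. -/

namespace Pool.Agent.MP_4f4d9f_gt.Rk

open Filter Topology Hy Ku
open scoped Pointwise

namespace DiscL

open Ku.DiscL (LL self_mem side pick)

variable {G Ω : Type} [Group G] [MulAction G Ω] {N : Net G Ω} {S : Finset G}

theorem ord (hO : OrdLim N) {𝓕 : Set (Set Ω)} (h1 : ∀ (g : G), ∀ E ∈ 𝓕, g • E ∈ 𝓕)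
    (h2 : ∀ E ∈ 𝓕, ∀ E' ∈ 𝓕, (E ∩ E').Nonempty → E ∪ E' ≠ Set.univ → E ⊆ E' ∨ E' ⊆ E)
    (h3 : ∀ A ∈ 𝓕, ∀ B ∈ 𝓕, ∀ C ∈ 𝓕, A ⊂ B → B ⊂ C → AF G A C)
    {E : ℕ → Set Ω} (hE : ∀ k, E k ∈ 𝓕) (hm : StrictMono E ∨ StrictAnti E) {ψ₁ ψ₂ : Ω → ℝ}
    (a1 : Dir N ψ₁) (a2 : I01 ψ₁) (a3 : ∀ k, ∀ x ∉ E k, ψ₁ x = 0)
    (a4 : ¬ Sq fun x : G => ψ₁ (x • N.o)) (b1 : Dir N ψ₂) (b2 : I01 ψ₂)
    (b3 : ∀ k, ∀ x ∈ E k, ψ₂ x = 0) (b4 : ¬ Sq fun x : G => ψ₂ (x • N.o)) : False := by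
  rcases hm with hm | hm
  · exact hO E hm (fun g h j k => h2 _ (h1 g _ (hE j)) _ (h1 h _ (hE k)))
      (fun g h f i j k => h3 _ (h1 g _ (hE i)) _ (h1 h _ (hE j)) _ (h1 f _ (hE k)))
      ψ₁ ψ₂ a1 a2 (a3 0) a4 b1 b2 b3 b4
  · refine hO (fun k => (E k)ᶜ) (fun i j h => compl_lt_compl_iff_lt.2 (hm h))
      (fun g h j k e1 e2 => ?_) (fun g h f i j k e1 e2 α β => ?_) ψ₂ ψ₁ b1 b2
      (fun x hx => b3 0 x (not_not.1 hx)) b4 a1 a2 a3 a4
    · simp only [Set.smul_set_compl, Set.compl_subset_compl] at e1 e2 ⊢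
      rw [← Set.compl_union, Set.nonempty_compl] at e1
      rw [← Set.compl_inter, Ne, Set.compl_univ_iff, ← Ne, ← Set.nonempty_iff_ne_empty] at e2
      exact (h2 _ (h1 g _ (hE j)) _ (h1 h _ (hE k)) e2 e1).symm
    · simp only [Set.smul_set_compl] at e1 e2 ⊢
      exact (h3 _ (h1 f _ (hE k)) _ (h1 h _ (hE j)) _ (h1 g _ (hE i))
        (compl_lt_compl_iff_lt.1 e2) (compl_lt_compl_iff_lt.1 e1) β α).subset
          fun x hx => ⟨not_not.1 hx.2, hx.1⟩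

variable {X : Type} [MetricSpace X] [MulAction G X] {b c c' z z' m m' ξ : X} {L L' L'' : Set X}
  {F : Set G} {a : Fin 3 → X} {pos : Ω → X} {ω : Ω}

/-- The vertices with the majority of the markers in `L`. -/
def EE (N : Net G Ω) (pos : Ω → X) (a : Fin 3 → X) (L : Set X) : Set Ω :=
  {ω | ∃ i, ∀ j, j ≠ i → lf N pos (a j) ω ∈ L}

omit [MetricSpace X] in
theorem ee_iff : ω ∈ EE N pos a L ↔ Mj (fun j => lf N pos (a j) ω) L (1 : G) := by
  simp only [Mj, one_smul]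
  rfl

omit [MetricSpace X] in
theorem ee_mono (h : ω ∈ EE N pos a L) (e : ∀ j, lf N pos (a j) ω ∈ L → lf N pos (a j) ω ∈ L') :
    ω ∈ EE N pos a L' := h.imp fun _ k j hj => e j (k j hj)

theorem ee_inter (h : ω ∈ EE N pos a L) (h' : ω ∈ EE N pos a L') :
    ∃ j, lf N pos (a j) ω ∈ L ∧ lf N pos (a j) ω ∈ L' := by
  simpa only [one_smul] using (ee_iff.1 h).inter (ee_iff.1 h')

theorem ee_compl : ω ∈ EE N pos a Lᶜ ↔ ω ∉ EE N pos a L := by rw [ee_iff, ee_iff, mj_compl]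

omit [MetricSpace X] in
theorem ee_orb (h : Mod N) (x : G) : x • N.o ∈ EE N pos a L ↔ Mj a L x := by
  simp only [ee_iff, Mj, one_smul, lf_orb h]

theorem ll_sub (h : LL G b c (Cls G b c z) L') : EE N pos a (Cls G b c z) ⊆ EE N pos a L' := by
  obtain ⟨-, F, -, h1, h2⟩ := h
  exact fun x hx => ee_mono hx fun j k => h2 _ k.1 (h1 _ k)

theorem smul_EE (h : Bd N b pos) (g : G) : g • EE N pos a L = EE N pos a (g • L) := by
  ext x
  simp only [Set.mem_smul_set_iff_inv_smul_mem, ee_iff, Mj, one_smul, lf_smul h.cs.md h.ps]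

theorem ll_of (h : Bk S b) (h1 : Sepa G b c z c') (h2 : z' ∈ KK G b) (h3 : z' ≠ c')
    (h4 : c ∈ Cls G b c' z') : LL G b c (Cls G b c z) (Cls G b c' z') := by
  obtain ⟨a1, a2, a3, -, F, a5, a6, a7⟩ := h1
  exact ⟨h4, F, a5, fun ξ k => side a5 a1 a3 a6 k,
    fun ξ k1 k2 => cls_eq h4 h2 h3 ▸ h.k1 a5 a2 a7 k1 k2⟩

theorem five (h : Bk S b) (hc : c ∈ KK G b) (hc' : c' ∈ KK G b) (h1 : z ∈ KK G b) (h2 : z ≠ c)
    (h1' : z' ∈ KK G b) (h2' : z' ≠ c') :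
    Cls G b c z = Cls G b c' z' ∨ Disjoint (Cls G b c z) (Cls G b c' z') ∨
      KK G b ⊆ Cls G b c z ∪ Cls G b c' z' ∨ LL G b c (Cls G b c z) (Cls G b c' z') ∨
      LL G b c' (Cls G b c' z') (Cls G b c z) := by
  rcases eq_or_ne c c' with rfl | e
  · by_cases k : Disjoint (Cls G b c z) (Cls G b c z')
    · exact Or.inr (Or.inl k)
    · obtain ⟨ξ, k1, k2⟩ := Set.not_disjoint_iff.1 k
      exact Or.inl ((cls_eq k1 h1 h2).symm.trans (cls_eq k2 h1' h2'))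
  by_cases k : Sepa G b c z c' <;> by_cases k' : Sepa G b c' z' c
  · refine Or.inr (Or.inl (Set.disjoint_left.2 fun ξ k1 k2 => ?_))
    obtain ⟨-, F, -, a3, a4⟩ := ll_of h k hc e (self_mem hc e)
    have := (cls_eq (a4 ξ k1.1 (a3 ξ k1)) hc e).symm.trans (cls_eq k2 h1' h2')
    exact (this ▸ self_mem hc e : c ∈ Cls G b c' z').2.2 k'
  · exact Or.inr (Or.inr (Or.inr (Or.inl (ll_of h k h1' h2' ⟨hc, e, k'⟩))))
  · exact Or.inr (Or.inr (Or.inr (Or.inr (ll_of h k' h1 h2 ⟨hc', e.symm, k⟩))))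
  · refine Or.inr (Or.inr (Or.inl fun ξ hξ => or_iff_not_imp_left.2 fun k1 => ?_))
    rcases eq_or_ne ξ c with rfl | e1
    · exact ⟨hc, e, k'⟩
    · have k2 : Sepa G b c z ξ := not_not.1 fun k => k1 ⟨hξ, e1, k⟩
      rw [← cls_eq ⟨hc, e, k'⟩ h1' h2']
      exact ⟨hξ, fun e => k (e ▸ k2), h.asymm ((k2.cases hc' e.symm).resolve_left k)⟩

theorem ll_sep (h : Bk S b) (h1 : Sepa G b c m c') (h2 : m ≠ c') :
    LL G b c (Cls G b c m) (Cls G b c' m) :=
  ll_of h h1 h1.1 h2 ⟨h.sepa_mem h1, h1.2.2.2.1.symm, fun k => h.asymm h1.symm k.symm⟩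

/-- The family of half spaces. -/
def FF (N : Net G Ω) (pos : Ω → X) (a : Fin 3 → X) (b : X) : Set (Set Ω) :=
  {E | E.Nonempty ∧ E ≠ Set.univ ∧
    ∃ c ∈ KK G b, ∃ z ∈ KK G b, z ≠ c ∧ E = EE N pos a (Cls G b c z)}

variable [ContinuousConstSMul G X]

theorem ff_smul (hb : Bd N b pos) (g : G) (E : Set Ω) (h : E ∈ FF N pos a b) :
    g • E ∈ FF N pos a b := by
  obtain ⟨h1, h2, c, h3, z, h4, h5, rfl⟩ := h
  refine ⟨h1.smul_set, fun e => h2 ?_, g • c, (smul_mem_KK g).2 h3, g • z, (smul_mem_KK g).2 h4,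
    (MulAction.injective g).ne h5, by rw [smul_EE hb, cls_smul]⟩
  exact MulAction.injective g (e.trans Set.smul_set_univ.symm)

theorem key (h : Bd N b pos) (ha : Function.Injective a) (hL : L ∈ 𝓝 ξ) (ω : Ω) :
    {x : G | x • ω ∈ EE N pos a L} ∈ nf G b ξ := by
  rcases orb_or_cone N ω with ⟨w, rfl⟩ | k
  · filter_upwards [h.bk.cv.nf_right w (h.bk.cv.mj ha hL)] with x hx
    rw [← mul_smul, ee_orb h.cs.md]
    exact hx
  · filter_upwards [h.ps.tendsto ω hL] with x hx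
    refine ⟨0, fun j _ => ?_⟩
    rw [lf_cone (k.smul x), h.ps.eqv]
    exact hx

theorem bump (h : Bd N b pos) (ha : Function.Injective a) (h1 : ξ ∈ KK G b)
    (h2 : F ∈ nf G b ξ) : ∃ ψ, Dir N ψ ∧ I01 ψ ∧
      (∀ ω ∉ EE N pos a {ζ | F ∈ nf G b ζ}, ψ ω = 0) ∧ ¬ Sq fun x : G => ψ (x • N.o) := by
  obtain ⟨ε, h3, h4⟩ := Ku.LcL.shrink h.bk.cv h1 (h.bk.cv.mj ha (nf_open h2))
  obtain ⟨ψ, a1, a2, a3, a4⟩ := h.bump ξ h1 _ (inter_mem (Metric.ball_mem_nhds ξ h3) (nf_open h2))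
  refine ⟨ψ, a1, a2, fun ω e => a3 ω fun k => e ?_, a4⟩
  rcases orb_or_cone N ω with ⟨w, rfl⟩ | k'
  · rw [h.ps.orb] at k
    exact (ee_orb h.cs.md w).2 (h4 w k.1)
  · refine ⟨0, fun j _ => ?_⟩
    rw [lf_cone k']
    exact k.2

variable [CompactSpace X]

theorem mem_in (h : Bd N b pos) (ha : Function.Injective a) (hK : ∀ i, a i ∈ KK G b)
    (h1 : F ∈ nf G b ξ) (h2 : ∀ ξ ∈ KK G b, F ∈ nf G b ξ → ξ ∈ L) (ω : Ω) :
    {x : G | x • ω ∈ EE N pos a L} ∈ nf G b ξ :=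
  mem_of_superset (key h ha (nf_open h1) ω) fun _ hx =>
    ee_mono hx fun j k => h2 _ (lf_KK h.cs.md h.ps (hK j) _) k

theorem mem_out (h : Bd N b pos) (ha : Function.Injective a) (hK : ∀ i, a i ∈ KK G b)
    (h1 : Fᶜ ∈ nf G b ξ) (h2 : ∀ ξ ∈ L, F ∈ nf G b ξ) (ω : Ω) :
    {x : G | x • ω ∈ EE N pos a L}ᶜ ∈ nf G b ξ :=
  mem_of_superset (mem_in (L := Lᶜ) h ha hK h1 (fun ξ k1 k2 k3 => not_both k1 (h2 ξ k3) k2) ω)
    fun _ hx => ee_compl.1 hx

theorem af2 (h : Bd N b pos) (ha : Function.Injective a) (hK : ∀ i, a i ∈ KK G b)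
    (h1 : LL G b c L L') (h2 : LL G b c' L' L'') : AF G (EE N pos a L) (EE N pos a L'') := by
  obtain ⟨a1, F, a2, a3, a4⟩ := h1
  obtain ⟨-, F', -, b3, b4⟩ := h2
  refine fun α β => (finite_iff b).2 fun ξ => ?_
  by_cases k : ξ ∈ KK G b
  · by_cases e : F' ∈ nf G b ξ
    · exact mem_of_superset (mem_in h ha hK e b4 β) fun x hx k => k.2 hx
    · have e1 : ξ ∉ L' := fun k => e (b3 ξ k)
      have e2 := (a2 ξ fun k => e1 (k ▸ a1)).resolve_left fun k' => e1 (a4 ξ k k')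
      exact mem_of_superset (mem_out h ha hK e2 a3 α) fun x hx k => hx k.1
  · rw [not_neBot.1 k]
    exact mem_bot

theorem three (h : Bd N b pos) (hK : ∀ i, a i ∈ KK G b) (hc : c ∈ KK G b) (hc' : c' ∈ KK G b)
    (h1 : z ∈ KK G b) (h2 : z ≠ c) (h1' : z' ∈ KK G b) (h2' : z' ≠ c')
    (e1 : (EE N pos a (Cls G b c z) ∩ EE N pos a (Cls G b c' z')).Nonempty)
    (e2 : EE N pos a (Cls G b c z) ∪ EE N pos a (Cls G b c' z') ≠ Set.univ) :
    Cls G b c z = Cls G b c' z' ∨ LL G b c (Cls G b c z) (Cls G b c' z') ∨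
      LL G b c' (Cls G b c' z') (Cls G b c z) := by
  rcases five h.bk hc hc' h1 h2 h1' h2' with k | k | k | k
  · exact Or.inl k
  · obtain ⟨x, k1, k2⟩ := e1
    obtain ⟨j, k3, k4⟩ := ee_inter k1 k2
    exact (Set.disjoint_left.1 k k3 k4).elim
  · refine (e2 (Set.eq_univ_of_forall fun x => or_iff_not_imp_left.2 fun k1 => ?_)).elim
    exact ee_mono (ee_compl.2 k1) fun j k2 => (k (lf_KK h.cs.md h.ps (hK j) x)).resolve_left k2
  · exact Or.inr k

theorem ff_chain (h : Bd N b pos) (hK : ∀ i, a i ∈ KK G b) :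
    ∀ E ∈ FF N pos a b, ∀ E' ∈ FF N pos a b,
      (E ∩ E').Nonempty → E ∪ E' ≠ Set.univ → E ⊆ E' ∨ E' ⊆ E := by
  rintro _ ⟨-, -, c, a3, z, a4, a5, rfl⟩ _ ⟨-, -, c', b3, z', b4, b5, rfl⟩ e1 e2
  rcases three h hK a3 b3 a4 a5 b4 b5 e1 e2 with k | k | k
  · exact Or.inl (k ▸ Set.Subset.rfl)
  · exact Or.inl (ll_sub k)
  · exact Or.inr (ll_sub k)

theorem ll_of_lt (h : Bd N b pos) (hK : ∀ i, a i ∈ KK G b) (hc : c ∈ KK G b) (hc' : c' ∈ KK G b)
    (h1 : z ∈ KK G b) (h2 : z ≠ c) (h1' : z' ∈ KK G b) (h2' : z' ≠ c')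
    (e1 : (EE N pos a (Cls G b c z)).Nonempty) (e2 : EE N pos a (Cls G b c' z') ≠ Set.univ)
    (e : EE N pos a (Cls G b c z) ⊂ EE N pos a (Cls G b c' z')) :
    LL G b c (Cls G b c z) (Cls G b c' z') := by
  rcases three h hK hc hc' h1 h2 h1' h2' (by rwa [Set.inter_eq_left.2 e.1])
    (by rwa [Set.union_eq_right.2 e.1]) with k | k | k
  · exact (e.ne (by rw [k])).elim
  · exact k
  · exact (e.2 (ll_sub k)).elim

theorem ff_af (h : Bd N b pos) (ha : Function.Injective a) (hK : ∀ i, a i ∈ KK G b) :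
    ∀ A ∈ FF N pos a b, ∀ B ∈ FF N pos a b, ∀ C ∈ FF N pos a b, A ⊂ B → B ⊂ C → AF G A C := by
  rintro _ ⟨a1, -, c, a3, z, a4, a5, rfl⟩ _ ⟨b1, b2, c', b3, z', b4, b5, rfl⟩ _
    ⟨-, c2, c'', c3, z'', c4, c5, rfl⟩ e1 e2
  exact af2 h ha hK (ll_of_lt h hK a3 b3 a4 a5 b4 b5 a1 b2 e1)
    (ll_of_lt h hK b3 c3 b4 b5 c4 c5 b1 c2 e2)

theorem strict (h : Bd N b pos) (ha : Function.Injective a) (hK : ∀ i, a i ∈ KK G b)
    {c₀ c₁ c₂ c₃ : X} (h1 : Sepa G b c₀ m c₁) (h2 : Sepa G b c₁ m c₂) (h3 : Sepa G b c₂ m c₃)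
    (h4 : m ≠ c₃) : EE N pos a (Cls G b c₀ m) ⊂ EE N pos a (Cls G b c₃ m) := by
  refine ⟨ll_sub (ll_sep h.bk (h.bk.sepa_trans h3 (h.bk.sepa_trans h2 h1)) h4), fun e => ?_⟩
  obtain ⟨-, F', -, b3, b4⟩ := ll_sep h.bk h3 h4
  have k1 := mem_in h ha hK (b3 _ (ll_sep h.bk h2 h3.2.2.1).1) b4 N.o
  obtain ⟨a1, a2, a3, -, F, a5, a6, a7⟩ := h1
  exact not_both a2 (mem_of_superset k1 fun x hx => e hx)
    (mem_out h ha hK a7 (fun ξ k => side a5 a1 a3 a6 k) N.o)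

end DiscL

open DiscL in
theorem disc_stmt : DiscStmt := by
  intro G Ω _ _ X _ _ _ _ N b pos h hD hO m m' hm hm'
  by_contra hI
  obtain ⟨a, ha, hA⟩ := hD.three
  have hK : ∀ i, a i ∈ KK G b := fun i => (hA i).mem
  obtain ⟨J₁, s1, i1, F, f1, ⟨ξ, f2, f3⟩, f4⟩ := Ku.DiscL.pick hm hI fun c k => k.2.2.1.symm
  obtain ⟨J, s2, i2, F', g1, ⟨η, g2, g3⟩, g4⟩ :=
    Ku.DiscL.pick hm' i1 fun c k => (s1 k).2.2.2.1.symm
  have hJ : ∀ c ∈ J, Sepa G b c m m' := fun c k => s1 (s2 k)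
  have p1 : ∀ c ∈ J, ∀ x ∈ EE N pos a {ξ | F ∈ nf G b ξ}, x ∈ EE N pos a (Cls G b c m) :=
    fun c k x hx => ee_mono hx fun j e =>
      h.bk.k1 f1 (h.bk.sepa_mem (hJ c k)) (f4 c (s2 k)) (lf_KK h.cs.md h.ps (hK j) x) e
  have p2 : ∀ c ∈ J, ∀ x ∈ EE N pos a {ξ | F' ∈ nf G b ξ}, x ∉ EE N pos a (Cls G b c m) := by
    intro c k x hx hx'
    obtain ⟨j, e1, e2⟩ := ee_inter hx hx'
    obtain ⟨a1, a2, a3, a4, -⟩ := hJ c k
    have e3 := h.bk.k1 g1 (h.bk.sepa_mem (hJ c k)) (g4 c k) e2.1 e1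
    have e4 := (cls_eq e3 a2 a4).symm.trans (cls_eq e2 a1 a3)
    exact (e4 ▸ Ku.DiscL.self_mem a2 a4 : m' ∈ Cls G b c m).2.2 (hJ c k)
  have hF : ∀ c ∈ J, EE N pos a (Cls G b c m) ∈ FF N pos a b := by
    intro c k
    obtain ⟨x, hx⟩ := (infinite_of_mem f2 (key h ha (nf_open f3) N.o)).nonempty
    obtain ⟨y, hy⟩ := (infinite_of_mem g2 (key h ha (nf_open g3) N.o)).nonempty
    exact ⟨⟨_, p1 c k _ hx⟩, fun e => p2 c k _ hy (e ▸ Set.mem_univ _), c,
      h.bk.sepa_mem (hJ c k), m, (hJ c k).1, (hJ c k).2.2.1, rfl⟩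
  obtain ⟨ψ₁, a1, a2, a3, a4⟩ := bump h ha f2 f3
  obtain ⟨ψ₂, b1, b2, b3, b4⟩ := bump h ha g2 g3
  have : IsTrans X fun c c' => Sepa G b c m c' := ⟨fun _ _ _ e1 e2 => h.bk.sepa_trans e2 e1⟩
  let u := i2.natEmbedding J
  obtain ⟨g, hg⟩ := exists_increasing_or_nonincreasing_subseq (fun c c' => Sepa G b c m c')
    fun n => (u n).1
  refine ord hO (ff_smul h) (ff_chain h hK) (ff_af h ha hK)
    (E := fun k => EE N pos a (Cls G b (u (g (3 * k))).1 m)) (fun k => hF _ (u _).2) ?_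
    a1 a2 (fun k x hx => a3 x fun e => hx (p1 _ (u _).2 x e)) a4
    b1 b2 (fun k x hx => b3 x fun e => p2 _ (u _).2 x e hx) b4
  refine hg.imp (fun e => strictMono_nat_of_lt_succ fun k => ?_)
    fun e => strictAnti_nat_of_succ_lt fun k => ?_
  · exact strict h ha hK (e _ (3 * k + 1) (by omega)) (e _ (3 * k + 2) (by omega))
      (e _ _ (by omega)) (hJ _ (u _).2).2.2.1
  · have e' : ∀ i j, i < j → Sepa G b (u (g j)).1 m (u (g i)).1 := fun i j k =>
      (h.bk.total (hJ _ (u _).2) (hJ _ (u _).2)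
        fun e => k.ne (g.injective (u.injective (Subtype.ext e)))).resolve_left (e i j k)
    exact strict h ha hK (e' (3 * k + 2) _ (by omega)) (e' (3 * k + 1) _ (by omega))
      (e' _ _ (by omega)) (hJ _ (u _).2).2.2.1

end Pool.Agent.MP_4f4d9f_gt.Rk

end
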