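import Pool.Agent.Mg.F4f4d9fr.G69af78
import Pool.Agent.MP_4f4d9f_gt.SingCone

set_option linter.all false

section

/-! The prism operator on singular chains; homotopy invariance for relative cycles. -/

namespace Pool.Agent.MP_4f4d9f_gt.Hy

open Finsupp

namespace PrismL

variable {X Y : Type} [TopologicalSpace X] [TopologicalSpace Y]

/-- The product of a map with the unit interval. -/
def pm (f : C(X, Y)) : C(unitInterval × X, unitInterval × Y) :=
  (ContinuousMap.id unitInterval).prodMap f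

variable (X) in
/-- The inclusion at level `t`. -/
def inc (t : unitInterval) : C(X, unitInterval × X) :=
  ⟨fun x => (t, x), by fun_prop⟩

/-- A contraction of the prism over the standard simplex. -/
noncomputable def bar (k : ℕ) : (ContinuousMap.id (unitInterval × Sx k)).Homotopy
    (ContinuousMap.const _ (0, stdSimplex.barycenter)) where
  toFun p := (unitInterval.symm p.1 * p.2.1, bary k (p.1, p.2.2))
  continuous_toFun := by
    refine Continuous.prodMk (Continuous.subtype_mk ?_ _) ((bary k).continuous.comp (by fun_prop))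
    fun_prop
  map_zero_left x := by simp
  map_one_left x := by simp

variable (X) in
/-- The natural operator defined by a universal chain on the prism. -/
noncomputable def evP {k l : ℕ} (m : Ch (unitInterval × Sx k) l) :
    Ch X k →ₗ[ℤ] Ch (unitInterval × X) l :=
  linearCombination ℤ fun σ : Sing X k => push ℤ (pm σ) l m

theorem evP_single {k l : ℕ} (m : Ch (unitInterval × Sx k) l) (σ : Sing X k) (a : ℤ) :
    evP X m (single σ a) = a • push ℤ (pm σ) l m := linearCombination_single ..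

theorem push_evP (f : C(X, Y)) {k l : ℕ} (m : Ch (unitInterval × Sx k) l) (c : Ch X k) :
    push ℤ (pm f) l (evP X m c) = evP Y m (push ℤ f k c) := by
  induction c using Finsupp.induction_linear with
  | zero => simp
  | add a b ha hb => simp only [map_add, ha, hb]
  | single σ a =>
    rw [push_single, evP_single, evP_single, map_smul, push_push]
    rfl

theorem evP_mem_supp {k l : ℕ} (m : Ch (unitInterval × Sx k) l) {A : Set X} {c : Ch X k}
    (h : c ∈ supp ℤ A k) : evP X m c ∈ supp ℤ {p | p.2 ∈ A} l := by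
  refine supp_induction (P := fun c => evP X m c ∈ supp ℤ {p | p.2 ∈ A} l) (by simp)
    (fun a b ha hb => by simpa using add_mem ha hb) (fun σ a hσ => ?_) h
  rw [evP_single]
  exact Submodule.smul_mem _ _ (push_mem_supp (pm σ) (fun t _ => hσ t.2) (mem_supp_univ m))

variable (X) in
/-- Top minus bottom. -/
noncomputable def tb (k : ℕ) : Ch X k →ₗ[ℤ] Ch (unitInterval × X) k :=
  push ℤ (inc X 1) k - push ℤ (inc X 0) k

theorem push_tb (f : C(X, Y)) (k : ℕ) (c : Ch X k) :
    push ℤ (pm f) k (tb X k c) = tb Y k (push ℤ f k c) := by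
  simp only [tb, LinearMap.sub_apply, map_sub, push_push]
  rfl

theorem bd_tb (k : ℕ) (c : Ch X (k + 1)) :
    bd ℤ _ k (tb X (k + 1) c) = tb X k (bd ℤ X k c) := by
  simp only [tb, LinearMap.sub_apply, map_sub, bd_push]

theorem aug_tb (c : Ch X 0) : aug ℤ _ (tb X 0 c) = 0 := by
  simp only [tb, LinearMap.sub_apply, map_sub, aug_push, sub_self]

/-- The universal prism chains. -/
noncomputable def pU : (k : ℕ) → Ch (unitInterval × Sx k) (k + 1)
  | 0 => cone ℤ (bar 0) 0 (tb _ 0 (iota ℤ 0))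
  | k + 1 => cone ℤ (bar (k + 1)) (k + 1)
      (tb _ (k + 1) (iota ℤ (k + 1)) - evP _ (pU k) (bd ℤ _ k (iota ℤ (k + 1))))

theorem pU_succ (k : ℕ) : pU (k + 1) = cone ℤ (bar (k + 1)) (k + 1)
    (tb _ (k + 1) (iota ℤ (k + 1)) - evP _ (pU k) (bd ℤ _ k (iota ℤ (k + 1)))) := rfl

theorem smul_one' {k : ℕ} (σ : Sing X k) (a : ℤ) : a • single σ (1 : ℤ) = single σ a := by
  rw [smul_single, smul_eq_mul, mul_one]

theorem bd_zero (c : Ch X 0) : bd ℤ _ 0 (evP X (pU 0) c) = tb X 0 c := by
  induction c using Finsupp.induction_linear with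
  | zero => simp
  | add a b ha hb => simp only [map_add, ha, hb]
  | single σ a =>
    rw [evP_single, map_smul, bd_push, pU, bd_cone_zero, push_id, aug_tb, single_zero, sub_zero,
      push_tb, push_iota, ← map_smul, smul_one']

theorem bd_of {k : ℕ} (h : bd ℤ _ (k + 1) (pU (k + 1)) =
      tb _ (k + 1) (iota ℤ (k + 1)) - evP _ (pU k) (bd ℤ _ k (iota ℤ (k + 1))))
    (c : Ch X (k + 1)) :
    bd ℤ _ (k + 1) (evP X (pU (k + 1)) c) = tb X (k + 1) c - evP X (pU k) (bd ℤ X k c) := by
  induction c using Finsupp.induction_linear with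
  | zero => simp
  | add a b ha hb => simp only [map_add, ha, hb]; abel
  | single σ a =>
    rw [evP_single, map_smul, bd_push, h, map_sub, push_tb, push_evP, ← bd_push, push_iota,
      smul_sub, ← map_smul, ← map_smul, ← map_smul, smul_one']

theorem bd_pU (k : ℕ) : bd ℤ _ (k + 1) (pU (k + 1)) =
    tb _ (k + 1) (iota ℤ (k + 1)) - evP _ (pU k) (bd ℤ _ k (iota ℤ (k + 1))) := by
  induction k with
  | zero =>
    rw [pU_succ, bd_cone_succ, push_id, map_sub (bd ℤ _ _), bd_tb, bd_zero, sub_self, map_zero,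
      sub_zero]
  | succ k ih =>
    rw [pU_succ (k + 1), bd_cone_succ, push_id, map_sub (bd ℤ _ _), bd_tb, bd_of ih, bd_bd, map_zero, sub_zero,
      sub_self, map_zero, sub_zero]

theorem push_H {f₀ f₁ : C(X, Y)} (H : f₀.Homotopy f₁) (k : ℕ) (c : Ch X k) :
    push ℤ H.toContinuousMap k (tb X k c) = push ℤ f₁ k c - push ℤ f₀ k c := by
  have e1 : H.toContinuousMap.comp (inc X 1) = f₁ := ContinuousMap.ext fun x => H.apply_one x
  have e0 : H.toContinuousMap.comp (inc X 0) = f₀ := ContinuousMap.ext fun x => H.apply_zero x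
  simp only [tb, LinearMap.sub_apply, map_sub, push_push, e1, e0]

end PrismL

open PrismL in
/-- Homotopic maps of triples agree on relative cycles up to relative boundaries. -/
theorem prism_stmt : PrismStmt := by
  intro Y Y' _ _ f₀ f₁ H A B A' B' hA hB k c hc hz
  refine ⟨push ℤ H.toContinuousMap (k + 1) (evP Y (pU k) c),
    push_mem_supp _ (fun p hp => hA p.1 p.2 hp) (evP_mem_supp _ hc), ?_⟩
  rw [bd_push, ← push_H H, ← map_sub]
  cases k with
  | zero => rw [bd_zero, sub_self, map_zero]; exact zero_mem _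
  | succ k =>
    rw [bd_of (bd_pU k), sub_sub_cancel]
    exact push_mem_supp _ (fun p hp => hB p.1 p.2 hp) (evP_mem_supp _ hz)

end Pool.Agent.MP_4f4d9f_gt.Hy

end

section

/-! The integral Thom cocycle of the diagonal and the dual fundamental cycle. -/

namespace Pool.Agent.MP_4f4d9f_gt.Hy

open Finsupp Sg Sg.Tup Filter Topology

namespace ThetaZL

section Avg

variable {G : Type} [Group G] (w : G →* ℤˣ) {B B' M : Type} [MulAction G B] [MulAction G B']
  [AddCommGroup M]

theorem av_avF {f : B → M} (hf : ∀ b, {g : G | f (g • b) ≠ 0}.Finite) (c : B →₀ ℤ) :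
    ∀ᶠ F : Finset G in atTop, av w f c = linearCombination ℤ f (avF w F c) := by
  have hF : (⋃ b ∈ c.support, {g : G | f (g • b) ≠ 0}).Finite :=
    (Finset.finite_toSet _).biUnion fun b _ => hf b
  filter_upwards [eventually_ge_atTop hF.toFinset] with F h
  rw [av_eq_sum w (F := F) fun b hb g hg => h (hF.mem_toFinset.2 (Set.mem_biUnion hb hg)), avF,
    map_sum]
  simp only [Units.smul_def, map_smul]

theorem map_avF (D : (B →₀ ℤ) →ₗ[ℤ] (B' →₀ ℤ))
    (hD : ∀ (g : G) c, D (c.mapDomain (g • ·)) = (D c).mapDomain (g • ·)) (F : Finset G)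
    (c : B →₀ ℤ) : D (avF w F c) = avF w F (D c) := by
  simp only [avF, map_sum, Units.smul_def, map_smul, hD]

theorem avF_sub (F : Finset G) (c c' : B →₀ ℤ) : avF w F (c - c') = avF w F c - avF w F c' := by
  simp only [avF, mapDomain_sub, smul_sub, Finset.sum_sub_distrib]

omit [Group G] in
theorem lc_pr (f : Cell G → M) (x : Tup G) (z : Tup G →₀ ℤ) :
    linearCombination ℤ f (prR ℤ (single x 1) z) = linearCombination ℤ (fun y => f (x, y)) z := by
  induction z using Finsupp.induction_linear with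
  | zero => simp
  | add a b ha hb => simp only [map_add, ha, hb]
  | single a r => simp [prR_single]

end Avg

variable {G X : Type} [Group G] [TopologicalSpace X] [MulAction G X] [ContinuousConstSMul G X]

theorem act_act (g h : G) (j : ℕ) (u : Ch (X × X) j) :
    push ℤ (mv X g g) j (push ℤ (mv X h h) j u) = push ℤ (mv X (g * h) (g * h)) j u := by
  rw [push_push]
  congr 2
  ext p <;> simp [mv, mul_smul]

theorem act_off (g : G) {j : ℕ} {u : Ch (X × X) j} (hu : u ∈ supp ℤ (offDiag X) j) :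
    push ℤ (mv X g g) j u ∈ supp ℤ (offDiag X) j :=
  push_mem_supp (A := offDiag X) (B := offDiag X) _ (fun _ hp e => hp (smul_left_cancel g e)) hu

theorem bd_act (g : G) (k : ℕ) (c : Ch X (k + 1)) :
    bd ℤ X k (c.mapDomain (g • ·)) = (bd ℤ X k c).mapDomain (g • ·) :=
  bd_push ℤ ⟨(g • ·), continuous_const_smul g⟩ k c

theorem rel_off (hp : ∀ K : Set X, IsCompact K → {g : G | ((g • ·) '' K ∩ K).Nonempty}.Finite)
    (w : G →* ℤˣ) (x : X) {k : ℕ} {ρ : Ch X k} (hρ : ρ ∈ Rel w (Sing X k)) :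
    ∀ᶠ F : Finset G in atTop, avF w F ρ ∈ supp ℤ {x}ᶜ k := by
  classical
  let f : Sing X k → Ch X k := fun s => if x ∈ Set.range s then single s 1 else 0
  have h1 : ∀ c : Ch X k, c - linearCombination ℤ f c ∈ supp ℤ {x}ᶜ k := by
    intro c
    induction c using ind1 with
    | h0 => simp
    | hadd a b ha hb =>
      rw [map_add, add_sub_add_comm]
      exact add_mem ha hb
    | hs r a ha =>
      rw [map_smul, ← smul_sub]
      exact Submodule.smul_mem _ r ha
    | h1 s =>
      rw [linearCombination_single, one_smul]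
      by_cases h : x ∈ Set.range s
      · simp only [f, if_pos h, sub_self, zero_mem]
      · simp only [f, if_neg h, sub_zero]
        exact single_mem_supp _ fun t e => h ⟨t, e⟩
  have h2 : ∀ s, {g : G | f (g • s) ≠ 0}.Finite := fun s => by
    refine (hp _ ((isCompact_range s.continuous).insert x)).subset fun g hg => ?_
    by_cases h : x ∈ Set.range (g • s : Sing X k)
    · obtain ⟨t, ht⟩ := h
      exact ⟨x, ⟨s t, Or.inr ⟨t, rfl⟩, ht⟩, Or.inl rfl⟩
    · exact absurd (if_neg h) hg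
  filter_upwards [av_avF w h2 ρ] with F h
  have := h1 (avF w F ρ)
  rwa [← h, av_rel w f hρ, sub_zero] at this

variable {x₀ : X} {ψ' : (i : ℕ) → (Tup G →₀ ℤ) →ₗ[ℤ] Ch X i}
  {ψ : (i : ℕ) → (Cell G →₀ ℤ) →ₗ[ℤ] Ch (X × X) i} {j : ℕ} {h : Cell G → Ch (X × X) j}

/-- The corrected chain map. -/
noncomputable def UU (ψ : (i : ℕ) → (Cell G →₀ ℤ) →ₗ[ℤ] Ch (X × X) i) {j : ℕ}
    (h : Cell G → Ch (X × X) j) : (Cell G →₀ ℤ) →ₗ[ℤ] Ch (X × X) j :=
  ψ j - linearCombination ℤ h ∘ₗ cbR ℤ

omit [Group G] [MulAction G X] [ContinuousConstSMul G X] in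
theorem UU_apply (h : Cell G → Ch (X × X) j) (r : Cell G →₀ ℤ) :
    UU ψ h r = ψ j r - linearCombination ℤ h (cbR ℤ r) := rfl

omit [Group G] [MulAction G X] [ContinuousConstSMul G X] in
theorem UU_cb (h : Cell G → Ch (X × X) j) (r : Cell G →₀ ℤ) :
    UU ψ h (cbR ℤ r) = ψ j (cbR ℤ r) := by
  rw [UU_apply, cbR_cbR, map_zero, sub_zero]

/-- The inductive hypothesis. -/
structure Good (ψ : (i : ℕ) → (Cell G →₀ ℤ) →ₗ[ℤ] Ch (X × X) i) (j : ℕ)
    (h : Cell G → Ch (X × X) j) : Prop where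
  deg : ∀ c, cdeg c + 1 ≠ j → h c = 0
  cyc : ∀ r, RZ (offDiag X) j (UU ψ h r)
  eqv : ∀ (g : G) c, h (g • c) = push ℤ (mv X g g) j (h c)
  fin : ∀ x y : Tup G, {g : G | h (x, g • y) ≠ 0}.Finite

theorem UU_smul (hψ : PsiZ x₀ ψ' ψ) (hg : Good ψ j h) (g : G) (c : Cell G) :
    UU ψ h (single (g • c) 1) = push ℤ (mv X g g) j (UU ψ h (single c 1)) := by
  have h1 : ∀ r : Cell G →₀ ℤ, linearCombination ℤ h (r.mapDomain (g • ·)) =
      push ℤ (mv X g g) j (linearCombination ℤ h r) := by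
    intro r
    induction r using ind1 with
    | h0 => simp
    | hadd x y hx hy => simp only [mapDomain_add, map_add, hx, hy]
    | hs r x hx => simp only [mapDomain_smul, map_smul, hx]
    | h1 b => simp only [mapDomain_single, linearCombination_single, one_smul, hg.eqv]
  rw [UU_apply, UU_apply, map_sub, ← h1, ← cbR_smul, mapDomain_single]
  congr 1
  exact hψ.eqv j g g c.1 c.2

theorem fact1 (hψ : PsiZ x₀ ψ' ψ) (hg : Good ψ j h) {c : Cell G} (hc : cdeg c ≠ j) :
    UU ψ h (single c 1) = 0 := by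
  have h1 : linearCombination ℤ h (cbR ℤ (single c 1)) = 0 := by
    rw [linearCombination_apply, Finsupp.sum]
    refine Finset.sum_eq_zero fun e he => ?_
    rw [hg.deg e (by rwa [cdeg_of_mem_cbR he]), smul_zero]
  rw [UU_apply, h1, hψ.deg j c hc, sub_zero]

theorem fact2 (hp : ∀ K : Set X, IsCompact K → {g : G | ((g • ·) '' K ∩ K).Nonempty}.Finite)
    (hψ : PsiZ x₀ ψ' ψ) (hg : Good ψ j h) (x y : Tup G) :
    {g : G | UU ψ h (single (x, g • y) 1) ∉ supp ℤ (offDiag X) j}.Finite := by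
  have h1 : {g : G | ψ j (single (x, g • y) 1) ∉ supp ℤ (offDiag X) j}.Finite := by
    obtain ⟨K, hK, -, hc⟩ := exists_compact_supp (mem_supp_univ (ψ j (single (x, y) 1)))
    refine (hp (Prod.fst '' K ∪ Prod.snd '' K)
      ((hK.image continuous_fst).union (hK.image continuous_snd))).subset fun g hg => ?_
    by_contra hne
    refine hg ?_
    have e := hψ.eqv j 1 g x y
    rw [one_smul] at e
    rw [e]
    refine push_mem_supp (B := offDiag X) _ (fun p hp e => hne ⟨p.1, ⟨p.2, Or.inr ⟨p, hp, rfl⟩, ?_⟩,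
      Or.inl ⟨p, hp, rfl⟩⟩) hc
    have e' : (1 : G) • p.1 = g • p.2 := e
    rw [one_smul] at e'
    exact e'.symm
  have h2 : ∀ r : Cell G →₀ ℤ, {g : G | linearCombination ℤ h
      (r.mapDomain (Prod.map ((1 : G) • ·) (g • ·))) ≠ 0}.Finite := by
    intro r
    induction r using ind1 with
    | h0 => simp
    | hadd a b ha hb =>
      refine (ha.union hb).subset fun g hg => ?_
      by_contra hne
      simp only [Set.mem_union, Set.mem_ofPred_eq, not_or, not_not] at hne
      exact hg (by rw [mapDomain_add, map_add, hne.1, hne.2, add_zero])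
    | hs r a ha =>
      exact ha.subset fun g hg e => hg (by rw [mapDomain_smul, map_smul, e, smul_zero])
    | h1 b => simpa [Prod.map] using hg.fin b.1 b.2
  refine (h1.union (h2 (cbR ℤ (single (x, y) 1)))).subset fun g hg' => ?_
  by_contra hne
  simp only [Set.mem_union, Set.mem_ofPred_eq, not_or, not_not] at hne
  obtain ⟨e1, e2⟩ := hne
  refine hg' ?_
  rw [← cbR_smul2, mapDomain_single, Prod.map_apply, one_smul] at e2
  rwa [UU_apply, e2, sub_zero]

theorem step (hp : ∀ K : Set X, IsCompact K → {g : G | ((g • ·) '' K ∩ K).Nonempty}.Finite)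
    (hP : ∀ c, RZ (offDiag X) j c → RB Set.univ (offDiag X) j c) (hψ : PsiZ x₀ ψ' ψ)
    (hg : Good ψ j h) : ∃ h', Good ψ (j + 1) h' := by
  have hex : ∀ c : Cell G, ∃ b, UU ψ h (single c 1) - bd ℤ _ j b ∈ supp ℤ (offDiag X) j ∧
      (UU ψ h (single c 1) ∈ supp ℤ (offDiag X) j → b = 0) := by
    intro c
    by_cases hc : UU ψ h (single c 1) ∈ supp ℤ (offDiag X) j
    · exact ⟨0, by rwa [map_zero, sub_zero], fun _ => rfl⟩
    · obtain ⟨b, -, hb⟩ := hP _ (hg.cyc (single c 1))
      exact ⟨b, hb, fun h' => absurd h' hc⟩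
  choose b hb hb0 using hex
  let h' : Cell G → Ch (X × X) (j + 1) := fun c =>
    push ℤ (mv X c.1.hd c.1.hd) (j + 1) (b (c.1.hd⁻¹ • c))
  have h0 : ∀ c, UU ψ h (single c 1) ∈ supp ℤ (offDiag X) j → h' c = 0 := by
    intro c hc
    simp only [h']
    rw [hb0 _ (by rw [UU_smul hψ hg]; exact act_off _ hc), map_zero]
  have key : ∀ r, UU ψ h r - bd ℤ _ j (linearCombination ℤ h' r) ∈ supp ℤ (offDiag X) j := by
    intro r
    induction r using ind1 with
    | h0 => simp
    | hadd x y hx hy =>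
      rw [map_add, map_add, map_add, add_sub_add_comm]
      exact add_mem hx hy
    | hs r x hx =>
      rw [map_smul, map_smul, map_smul, ← smul_sub]
      exact Submodule.smul_mem _ r hx
    | h1 c =>
      have := act_off c.1.hd (hb (c.1.hd⁻¹ • c))
      rw [map_sub, ← UU_smul hψ hg, smul_inv_smul, ← bd_push] at this
      rwa [linearCombination_single, one_smul]
  refine ⟨h', fun c hc => h0 c ?_, fun r => ?_, fun g c => ?_, fun x y => ?_⟩
  · rw [fact1 hψ hg fun e => hc (congrArg (· + 1) e)]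
    exact zero_mem _
  · rw [rz_succ, UU_apply, map_sub, hψ.bd, ← UU_cb h]
    exact key _
  · simp only [h', act_act, Prod.smul_fst, smul_hd, smul_smul, mul_inv_rev,
      inv_mul_cancel_right]
  · exact (fact2 hp hψ hg x y).subset fun g hg' e => hg' (h0 _ e)

theorem T_smul {m : ℕ} {w : G →* ℤˣ} {od : X → Ch X (m + 1) → ℤ} {T : Ch (X × X) (m + 1) → ℤ}
    (hT : ThomT m w od T) {c : Ch (X × X) (m + 1)} (hc : RZ (offDiag X) (m + 1) c) (r : ℤ) :
    T (r • c) = r * T c := by
  have h0 : T 0 = 0 := hT.zero 0 rb_zero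
  induction r using Int.induction_on with
  | zero => simpa using h0
  | succ r ih => rw [add_smul, one_smul, hT.add _ _ (hc.smul _) hc, ih]; ring
  | pred r ih =>
    have := hT.add _ _ (hc.smul (-r - 1)) hc
    rw [sub_smul, one_smul, sub_add_cancel, ih] at this
    rw [sub_smul, one_smul]
    linarith

end ThetaZL

open ThetaZL in
theorem thetaZ_stmt : ThetaZStmt := by
  intro G X _ _ _ _ m od w T μ x₀ ψ' ψ hp hO hT hμ hψ
  have hex : ∀ j ≤ m + 1, ∃ h, Good ψ j h := by
    intro j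
    induction j with
    | zero =>
      exact fun _ => ⟨0, fun _ _ => rfl, fun _ => trivial, fun _ _ => (map_zero _).symm,
        fun _ _ => by simp⟩
    | succ j ih =>
      intro hj
      obtain ⟨h, hg⟩ := ih (by omega)
      exact step hp (hT.low j (by omega)) hψ hg
  obtain ⟨h, hg⟩ := hex (m + 1) le_rfl
  have h0 : T 0 = 0 := hT.zero 0 rb_zero
  have key : ∀ r, linearCombination ℤ (fun c => T (UU ψ h (single c 1))) r = T (UU ψ h r) := by
    intro r
    induction r using ind1 with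
    | h0 => rw [map_zero, map_zero, h0]
    | hadd x y hx hy => rw [map_add, map_add, hT.add _ _ (hg.cyc x) (hg.cyc y), hx, hy]
    | hs r x hx => rw [map_smul, map_smul, T_smul hT (hg.cyc x), hx, smul_eq_mul]
    | h1 c => rw [linearCombination_single, one_smul]
  have hfin : ∀ x y : Tup G, {g : G | T (UU ψ h (single (x, g • y) 1)) ≠ 0}.Finite := fun x y =>
    (fact2 hp hψ hg x y).subset fun g hg' e => hg' (hT.zero _ (rb_of_mem e))
  obtain ⟨ν, n1, n2, a, n3⟩ := hψ.onto w m μ hμ.cyc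
  refine ⟨fun c => T (UU ψ h (single c 1)), ν, ⟨fun g x y => ?_, hfin, fun c hc => ?_,
    fun c => ?_⟩, n1, n2, ?_⟩
  · rw [← hT.eqv g _ (hg.cyc _), ← UU_smul hψ hg]
    rfl
  · by_contra hne
    exact hc (by rw [fact1 hψ hg hne, h0])
  · rw [key, UU_cb, ← hψ.bd]
    exact hT.zero _ (rb_bd (mem_supp_univ _))
  · obtain ⟨F, f1, f2, f3, f4, f5⟩ := ((av_avF w (f := fun y => T (UU ψ h (single (pt 1, y) 1)))
      (hfin (pt 1)) ν).and ((av_avF w (f := fun y => h (pt 1, y)) (hg.fin (pt 1)) (bdT ℤ ν)).and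
      ((rel_off hp w x₀ n3).and (hμ.one x₀)))).exists
    have e1 : ∀ z, ψ (m + 1) (prR ℤ (single (pt 1) 1) z) =
        push ℤ (sl x₀) (m + 1) (ψ' (m + 1) z) := by
      intro z
      induction z using ind1 with
      | h0 => simp
      | hadd x y hx hy => simp only [map_add, hx, hy]
      | hs r x hx => simp only [map_smul, hx]
      | h1 y => rw [prR_single, mul_one, hψ.base]
    have e2 : linearCombination ℤ h (cbR ℤ (prR ℤ (single (pt 1) 1) (avF w F ν))) = 0 := by
      rw [cbR_prR, bdT_pt, map_zero, LinearMap.zero_apply, zero_add, sg_single, deg_pt, pow_zero,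
        mul_one, lc_pr, map_avF w (bdT ℤ) bdT_smul, ← f2, av_rel w _ n2]
    have e3 : RB Set.univ {x₀}ᶜ (m + 1) (avF w F (ψ' (m + 1) ν) - avF w F μ) := by
      refine ⟨avF w F a, mem_supp_univ _, ?_⟩
      rwa [map_avF w (bd ℤ X (m + 1)) fun g c => bd_act g _ c, ← avF_sub, ← avF_sub]
    have e4 : RZ {x₀}ᶜ (m + 1) (avF w F (ψ' (m + 1) ν)) := by simpa using e3.rz.add f4
    rw [f1, ← lc_pr fun c => T (UU ψ h (single c 1)), key, UU_apply, e2, sub_zero, e1,
      map_avF w (ψ' (m + 1)) (hψ.eqv' _), hT.slice _ _ e4, hO.congr trivial e4 e3, f5]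

end Pool.Agent.MP_4f4d9f_gt.Hy

end

section

/-! A group with integral Poincare duality data is torsion free (Tate cohomology argument). -/

namespace Pool.Agent.MP_4f4d9f_gt.Hy

open Finsupp Sg Sg.Tup

namespace TorsFL

variable {G : Type} [Group G]

/-- Endomorphisms of the bar complex. -/
abbrev En (G : Type) : Type := (Tup G →₀ ℤ) →ₗ[ℤ] (Tup G →₀ ℤ)

/-- Translation of chains. -/
noncomputable def tr (h : G) : En G := lmapDomain ℤ ℤ (h • ·)

theorem tr_apply (h : G) (c : Tup G →₀ ℤ) : tr h c = c.mapDomain (h • ·) := rfl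

theorem tr_single (h : G) (x : Tup G) (r : ℤ) : tr h (single x r) = single (h • x) r := by
  rw [tr_apply, mapDomain_single]

theorem tr_mul (h k : G) (c : Tup G →₀ ℤ) : tr (h * k) c = tr h (tr k c) := by
  induction c using Finsupp.induction_linear with
  | zero => simp
  | add a b ha hb => simp only [map_add, ha, hb]
  | single x r => simp only [tr_single, mul_smul]

theorem tr_one (c : Tup G →₀ ℤ) : tr (1 : G) c = c := by
  induction c using Finsupp.induction_linear with
  | zero => simp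
  | add a b ha hb => simp only [map_add, ha, hb]
  | single x r => simp only [tr_single, one_smul]

/-- Equivariant operators. -/
def Eqv (L : En G) : Prop := ∀ (h : G) c, L (tr h c) = tr h (L c)

/-- Operators commuting with all equivariant operators. -/
def Com (A : En G) : Prop := ∀ L : En G, Eqv L → ∀ c, L (A c) = A (L c)

theorem eqv_bd : Eqv (bdT ℤ : En G) := fun h c => bdT_smul h c

theorem eqv_pr (k : ℕ) : Eqv (prD ℤ deg k : En G) := fun h c => prD_smul (deg_smul h) k c

theorem eqv_lc {H : Tup G → (Tup G →₀ ℤ)}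
    (hH : ∀ (g : G) x, H (g • x) = (H x).mapDomain (g • ·)) : Eqv (linearCombination ℤ H) := by
  intro h c
  induction c using Finsupp.induction_linear with
  | zero => simp
  | add a b ha hb => simp only [map_add, ha, hb]
  | single x r =>
    rw [tr_single, linearCombination_single, linearCombination_single, map_smul, hH, tr_apply]

/-- Boundaries of degree `k`. -/
def Zk (k : ℕ) (z : Tup G →₀ ℤ) : Prop := ∃ b, prD ℤ deg (k + 1) b = b ∧ bdT ℤ b = z

/-- Exactness on boundaries of degree `k`. -/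
def Ex (k : ℕ) (A B : En G) : Prop := ∀ z, Zk k z → A z = 0 → ∃ z', Zk k z' ∧ B z' = z

/-- Exactness on all chains. -/
def Fr (A B : En G) : Prop := ∀ c, A c = 0 → ∃ c', B c' = c

theorem mkZ {k : ℕ} {u : Tup G →₀ ℤ} (h1 : prD ℤ deg k u = u) (h2 : bdT ℤ u = 0)
    (h3 : eps ℤ u = 0) : Zk k u :=
  ⟨cn ℤ 1 u, by rw [prD_cn, h1], by rw [bdT_cn, h2, h3]; simp⟩

omit [Group G] in
theorem eps_pr (k : ℕ) (c : Tup G →₀ ℤ) : eps ℤ (prD ℤ deg (k + 1) c) = 0 := by
  induction c using Finsupp.induction_linear with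
  | zero => simp
  | add a b ha hb => simp only [map_add, ha, hb, add_zero]
  | single x r =>
    rw [prD_single]
    split_ifs with h
    · rw [eps_single, if_neg (by omega)]
    · simp

omit [Group G] in
theorem pr_pr (k : ℕ) (c : Tup G →₀ ℤ) : prD ℤ deg k (prD ℤ deg k c) = prD ℤ deg k c := by
  rw [prD_prD, if_pos rfl]

theorem step {k : ℕ} {A B : En G} (hA : Com A) (hB : Com B) (hF : Fr A B)
    (h0 : ∀ c, B (A c) = 0) (h : Ex (k + 1) B A) : Ex k A B := by
  rintro _ ⟨c, hc, rfl⟩ hz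
  have e1 : prD ℤ deg (k + 1) (A c) = A c := by rw [hA _ (eqv_pr _), hc]
  obtain ⟨_, ⟨b, hb, rfl⟩, hz'⟩ := h (A c)
    (mkZ e1 (by rw [hA _ eqv_bd, hz]) (by rw [← e1, eps_pr])) (h0 c)
  obtain ⟨c2, hc2⟩ := hF (c - bdT ℤ b) (by rw [map_sub, hz', sub_self])
  refine ⟨_, ⟨prD ℤ deg (k + 1) c2, pr_pr _ _, rfl⟩, ?_⟩
  rw [← hB _ eqv_bd, ← hB _ (eqv_pr _), hc2, map_sub, hc, prD_bdT, hb, map_sub, bdT_bdT, sub_zero]

theorem top {k : ℕ} {A B L : En G} (hB : Com B) (hF : Fr A B) (hL : Eqv L)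
    (key : ∀ u, prD ℤ deg k u = u → u + bdT ℤ (L u) + L (bdT ℤ u) = 0) : Ex k A B := by
  rintro _ ⟨c, hc, rfl⟩ hz
  obtain ⟨c2, hc2⟩ := hF _ hz
  have e1 : prD ℤ deg k (bdT ℤ c) = bdT ℤ c := by rw [prD_bdT, hc]
  have e2 := key _ e1
  rw [bdT_bdT, map_zero, add_zero] at e2
  refine ⟨_, ⟨prD ℤ deg (k + 1) (-L c2), pr_pr _ _, rfl⟩, ?_⟩
  rw [← prD_bdT, ← hB _ (eqv_pr _), ← hB _ eqv_bd, map_neg, ← hB _ hL, hc2, map_neg,
    ← eq_neg_of_add_eq_zero_left e2, e1]

theorem key_top {n : ℕ} {w : G →* ℤˣ} {θ : Cell G → ℤ} {ω : Cell G →₀ ℤ}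
    {H : Tup G → (Tup G →₀ ℤ)} (hd : Dual ℤ n w θ ω H) {k : ℕ} (hk : n < k) (u : Tup G →₀ ℤ)
    (hu : prD ℤ deg k u = u) :
    u + bdT ℤ (linearCombination ℤ H u) + linearCombination ℤ H (bdT ℤ u) = 0 := by
  rw [← hu]
  clear hu
  induction u using ind1 with
  | h0 => simp
  | hadd a b ha hb =>
    simp only [map_add]
    rw [← add_zero (0 : Tup G →₀ ℤ)]
    nth_rewrite 1 [← ha]
    rw [← hb]
    abel
  | hs r a ha => simp only [map_smul, ← smul_add, ha, smul_zero]
  | h1 x =>
    rw [prD_single]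
    split_ifs with h
    · rw [linearCombination_single, one_smul, ← hd.key]
      have : (fun c : Cell G => (single c.1 ((-1) ^ c.1.deg * θ (x, c.2)) : Tup G →₀ ℤ)) =
          fun _ => 0 := by
        funext c
        have : θ (x, c.2) = 0 := by
          by_contra hne
          have := hd.deg _ hne
          simp only [cdeg] at this
          omega
        rw [this, mul_zero, single_zero]
      rw [this]
      simp [av, linearCombination_apply, Finsupp.sum]
    · simp

/-- The norm operator. -/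
noncomputable def nm (K : Subgroup G) [Fintype K] : En G := ∑ h : K, tr (h : G)

/-- The difference operator. -/
noncomputable def df (g : G) : En G := LinearMap.id - tr g

theorem nm_apply (K : Subgroup G) [Fintype K] (c : Tup G →₀ ℤ) :
    nm K c = ∑ h : K, tr (h : G) c := by
  rw [nm, LinearMap.sum_apply]

theorem df_apply (g : G) (c : Tup G →₀ ℤ) : df g c = c - tr g c := rfl

theorem com_nm (K : Subgroup G) [Fintype K] : Com (nm K) := fun L hL c => by
  simp only [nm_apply, map_sum, hL _ _]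

theorem com_df (g : G) : Com (df g) := fun L hL c => by
  simp only [df_apply, map_sub, hL _ _]

theorem nm_df (K : Subgroup G) [Fintype K] (g : K) (c : Tup G →₀ ℤ) :
    nm K (df (g : G) c) = 0 := by
  rw [df_apply, map_sub, sub_eq_zero, nm_apply, nm_apply]
  exact (Fintype.sum_equiv (Equiv.mulRight g) _ _ fun h => by
    rw [← tr_mul]; rfl).symm

theorem df_nm (K : Subgroup G) [Fintype K] (g : K) (c : Tup G →₀ ℤ) :
    df (g : G) (nm K c) = 0 := by
  rw [df_apply, sub_eq_zero, nm_apply, map_sum]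
  exact (Fintype.sum_equiv (Equiv.mulLeft g) _ _ fun h => by
    rw [← tr_mul]; rfl).symm

/-- Higman's criterion. -/
theorem higman (K : Subgroup G) [Fintype K] :
    ∃ e : En G, ∀ c, ∑ h : K, tr (h : G) (e (tr (h : G)⁻¹ c)) = c := by
  classical
  obtain ⟨T, hT, -⟩ := K.exists_isComplement_right 1
  refine ⟨linearCombination ℤ fun x => if x.hd ∈ T then single x 1 else 0, fun c => ?_⟩
  induction c using ind1 with
  | h0 => simp
  | hadd a b ha hb => simp only [map_add, Finset.sum_add_distrib, ha, hb]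
  | hs r a ha => simp only [map_smul, ← Finset.smul_sum, ha]
  | h1 x =>
    obtain ⟨s, hs, hu⟩ := Subgroup.isComplement_iff_existsUnique_inv_mul_mem.1 hT x.hd
    simp only [tr_single, linearCombination_single, one_smul, smul_hd]
    rw [Finset.sum_eq_single (⟨s.1, s.2⟩ : K)]
    · rw [if_pos hs, tr_single, smul_inv_smul]
    · intro h _ hne
      rw [if_neg, map_zero]
      exact fun hh => hne (Subtype.ext (congrArg Subtype.val (hu ⟨h.1, h.2⟩ hh)))
    · simp

theorem fr_df (K : Subgroup G) [Fintype K] (g : G) (hg : ∀ h ∈ K, ∃ m : ℕ, g ^ m = h) :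
    Fr (df g) (nm K) := by
  intro c hc
  obtain ⟨e, he⟩ := higman K
  have h1 : ∀ m : ℕ, tr (g ^ m) c = c := fun m => by
    induction m with
    | zero => rw [pow_zero, tr_one]
    | succ m ih => rw [pow_succ', tr_mul, ih]; exact (sub_eq_zero.1 hc).symm
  refine ⟨e c, ?_⟩
  rw [nm_apply]
  refine Eq.trans (Finset.sum_congr rfl fun h _ => ?_) (he c)
  obtain ⟨m, hm⟩ := hg _ (K.inv_mem h.2)
  rw [← hm, h1]

theorem fr_nm (K : Subgroup G) [Fintype K] (g : G) (hg : ∀ h ∈ K, ∃ m : ℕ, g ^ m = h) :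
    Fr (nm K) (df g) := by
  intro c hc
  obtain ⟨e, he⟩ := higman K
  have h1 : ∀ (m : ℕ) u, tr (g ^ m) u - u ∈ LinearMap.range (df g) := fun m u => by
    induction m with
    | zero => rw [pow_zero, tr_one, sub_self]; exact zero_mem _
    | succ m ih =>
      have : tr (g ^ (m + 1)) u - u = tr (g ^ m) u - u - df g (tr (g ^ m) u) := by
        rw [df_apply, pow_succ', tr_mul]; abel
      rw [this]
      exact sub_mem ih ⟨_, rfl⟩
  have h2 : ∑ h : K, e (tr (h : G)⁻¹ c) = 0 := by
    rw [← map_sum, ← map_zero e, ← hc, nm_apply]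
    exact congrArg e (Fintype.sum_equiv (Equiv.inv K) _ _ fun h => rfl)
  change c ∈ LinearMap.range (df g)
  rw [← he c, ← sub_zero (∑ h : K, _), ← h2, ← Finset.sum_sub_distrib]
  refine Submodule.sum_mem _ fun h _ => ?_
  obtain ⟨m, hm⟩ := hg _ h.2
  have := h1 m (e (tr (h : G)⁻¹ c))
  rwa [hm] at this

end TorsFL

open TorsFL in
theorem torsF_stmt : TorsFStmt := by
  intro G _ n w θ ω H hd g hg
  have : Finite (Subgroup.zpowers g) := finite_zpowers.2 hg
  have : Fintype (Subgroup.zpowers g) := Fintype.ofFinite _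
  have hK : ∀ h ∈ Subgroup.zpowers g, ∃ m : ℕ, g ^ m = h := fun h hh =>
    hg.mem_powers_iff_mem_zpowers.2 hh
  have f1 := fr_df _ g hK
  have f2 := fr_nm _ g hK
  have z1 := nm_df (Subgroup.zpowers g) ⟨g, Subgroup.mem_zpowers g⟩
  have z2 := df_nm (Subgroup.zpowers g) ⟨g, Subgroup.mem_zpowers g⟩
  have all : ∀ j k : ℕ, n < k + j →
      Ex k (df g) (nm (Subgroup.zpowers g)) ∧ Ex k (nm (Subgroup.zpowers g)) (df g) := by
    intro j
    induction j with
    | zero =>
      intro k hk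
      exact ⟨top (com_nm _) f1 (eqv_lc hd.Heqv) (key_top hd hk),
        top (com_df _) f2 (eqv_lc hd.Heqv) (key_top hd hk)⟩
    | succ j ih =>
      intro k hk
      obtain ⟨a, b⟩ := ih (k + 1) (by omega)
      exact ⟨step (com_df _) (com_nm _) f1 z1 b, step (com_nm _) (com_df _) f2 z2 a⟩
  obtain ⟨_, ⟨b, -, rfl⟩, hz⟩ := (all (n + 1) 0 (by omega)).2 (df g (single (pt 1) 1))
    (mkZ (by rw [com_df g _ (eqv_pr 0), prD_single, if_pos (deg_pt _)])
      (by rw [com_df g _ eqv_bd, bdT_pt, map_zero])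
      (by rw [df_apply, map_sub, tr_apply, eps_smul, sub_self])) (z1 _)
  obtain ⟨c, hc⟩ := f1 (single (pt 1) 1 - bdT ℤ b) (by rw [map_sub, hz, sub_self])
  have e := congrArg (eps ℤ) hc
  rw [map_sub, eps_bdT, eps_single, if_pos (deg_pt _), sub_zero, nm_apply, map_sum] at e
  simp only [tr_apply, eps_smul, Finset.sum_const, Finset.card_univ, nsmul_eq_mul] at e
  have e2 : Fintype.card (Subgroup.zpowers g) = 1 := by
    exact_mod_cast Int.eq_one_of_mul_eq_one_right (by positivity) e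
  have := Fintype.card_le_one_iff_subsingleton.1 e2.le
  exact congrArg Subtype.val
    (Subsingleton.elim (⟨g, Subgroup.mem_zpowers g⟩ : Subgroup.zpowers g) 1)

end Pool.Agent.MP_4f4d9f_gt.Hy

end

section

/-! Equivariant integral chain maps from the bar complex and its square to singular chains. -/

namespace Pool.Agent.MP_4f4d9f_gt.Hy

open Finsupp Sg Sg.Tup

namespace PsiZL

variable {G X : Type} [Group G] [TopologicalSpace X] [MulAction G X] [ContinuousConstSMul G X]

/-- The action of a pair of group elements on singular chains. -/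
noncomputable def P (g h : G) (i : ℕ) : Ch (X × X) i →ₗ[ℤ] Ch (X × X) i := push ℤ (mv X g h) i

theorem P_P (g h g' h' : G) (i : ℕ) (c : Ch (X × X) i) :
    P g h i (P g' h' i c) = P (g * g') (h * h') i c := by
  rw [P, P, P, push_push]
  congr 2
  ext x
  exacts [(mul_smul _ _ _).symm, (mul_smul _ _ _).symm]

theorem P_one (i : ℕ) (c : Ch (X × X) i) : P (1 : G) 1 i c = c := by
  rw [P, ← push_id ℤ i c, push_push]
  congr 2
  ext x
  exacts [one_smul _ _, one_smul _ _]

theorem bd_P (g h : G) (i : ℕ) (c : Ch (X × X) (i + 1)) :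
    bd ℤ (X × X) i (P g h (i + 1) c) = P g h i (bd ℤ (X × X) i c) := bd_push ℤ _ i c

theorem P_sl (g h : G) (x : X) (i : ℕ) (c : Ch X i) :
    P g h i (push ℤ (sl x) i c) = push ℤ (sl (g • x)) i (c.mapDomain (h • ·)) := by
  change _ = push ℤ (sl (g • x)) i (push ℤ ⟨(h • ·), continuous_const_smul h⟩ i c)
  rw [P, push_push, push_push]
  rfl

/-- The properties of the chain map on the bar complex. -/
structure Ps1 (ψ' : (i : ℕ) → (Tup G →₀ ℤ) →ₗ[ℤ] Ch X i) : Prop where
  deg : ∀ i (y : Tup G), y.deg ≠ i → ψ' i (single y 1) = 0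
  bd : ∀ i c, bd ℤ X i (ψ' (i + 1) c) = ψ' i (bdT ℤ c)
  aug : ∀ c, aug ℤ X (ψ' 0 c) = eps ℤ c
  eqv : ∀ i (g : G) c, ψ' i (c.mapDomain (g • ·)) = (ψ' i c).mapDomain (g • ·)

variable (x₀ : X) (K : (i : ℕ) → Ch (X × X) i →ₗ[ℤ] Ch (X × X) (i + 1))
  (ψ' : (i : ℕ) → (Tup G →₀ ℤ) →ₗ[ℤ] Ch X i)

/-- The chain map. -/
noncomputable def ps : (i : ℕ) → (Cell G →₀ ℤ) →ₗ[ℤ] Ch (X × X) i
  | 0 => linearCombination ℤ fun c => if c.1.deg = 0 then
      push ℤ (sl (c.1.hd • x₀)) 0 (ψ' 0 (single c.2 1)) else 0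
  | i + 1 => linearCombination ℤ fun c => if c.1.deg = 0 then
      push ℤ (sl (c.1.hd • x₀)) (i + 1) (ψ' (i + 1) (single c.2 1)) else if cdeg c = i + 1 then
      P c.1.hd c.2.hd (i + 1) (K i (P c.1.hd⁻¹ c.2.hd⁻¹ i (ps i (cbR ℤ (single c 1))))) else 0

theorem ps_base (i : ℕ) {c : Cell G} (h : c.1.deg = 0) : ps x₀ K ψ' i (single c 1) =
    push ℤ (sl (c.1.hd • x₀)) i (ψ' i (single c.2 1)) := by
  cases i <;> rw [ps, linearCombination_single, one_smul, if_pos h]

theorem ps_zero {c : Cell G} (h : c.1.deg ≠ 0) : ps x₀ K ψ' 0 (single c 1) = 0 := by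
  rw [ps, linearCombination_single, one_smul, if_neg h]

theorem ps_succ (i : ℕ) {c : Cell G} (h : c.1.deg ≠ 0) :
    ps x₀ K ψ' (i + 1) (single c 1) = if cdeg c = i + 1 then P c.1.hd c.2.hd (i + 1)
      (K i (P c.1.hd⁻¹ c.2.hd⁻¹ i (ps x₀ K ψ' i (cbR ℤ (single c 1))))) else 0 := by
  rw [ps, linearCombination_single, one_smul, if_neg h]

theorem ps_pt (i : ℕ) (a : G) (u : Tup G →₀ ℤ) :
    ps x₀ K ψ' i (prR ℤ (single (pt a) 1) u) = push ℤ (sl (a • x₀)) i (ψ' i u) := by
  induction u using ind1 with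
  | h0 => simp
  | hadd a b ha hb => simp only [map_add, ha, hb]
  | hs r a ha => simp only [map_smul, ha]
  | h1 y =>
    rw [prR_single, mul_one, ps_base x₀ K ψ' i (deg_pt a)]
    rfl

variable {ψ'} (H : Ps1 ψ')
include H

theorem ps_deg (i : ℕ) (c : Cell G) (h : cdeg c ≠ i) : ps x₀ K ψ' i (single c 1) = 0 := by
  by_cases h0 : c.1.deg = 0
  · rw [ps_base x₀ K ψ' i h0, H.deg i c.2 (by rwa [cdeg, h0, zero_add] at h), map_zero]
  cases i with
  | zero => exact ps_zero x₀ K ψ' h0
  | succ i => rw [ps_succ x₀ K ψ' i h0, if_neg h]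

theorem ps_cb (i : ℕ) (c : Cell G) (h : cdeg c ≠ i + 1) :
    ps x₀ K ψ' i (cbR ℤ (single c 1)) = 0 := by
  rw [← (cbR ℤ (single c 1)).sum_single, Finsupp.sum, map_sum]
  refine Finset.sum_eq_zero fun e he => ?_
  have := cdeg_of_mem_cbR he
  rw [← smul_single_one, map_smul, ps_deg x₀ K H i e (by omega), smul_zero]

theorem ps_eqv0 (i : ℕ) (g h : G) {c : Cell G} (h0 : c.1.deg = 0) :
    ps x₀ K ψ' i (single (Prod.map (g • ·) (h • ·) c) 1) =
      P g h i (ps x₀ K ψ' i (single c 1)) := by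
  rw [ps_base x₀ K ψ' i h0, ps_base x₀ K ψ' i ((deg_smul g c.1).trans h0), P_sl, ← H.eqv,
    mapDomain_single, ← mul_smul]
  rfl

theorem ps_eqv (i : ℕ) (g h : G) (c : Cell G →₀ ℤ) :
    ps x₀ K ψ' i (c.mapDomain (Prod.map (g • ·) (h • ·))) = P g h i (ps x₀ K ψ' i c) := by
  induction i generalizing c with
  | zero =>
    induction c using ind1 with
    | h0 => simp
    | hadd a b ha hb => simp only [mapDomain_add, map_add, ha, hb]
    | hs r a ha => simp only [mapDomain_smul, map_smul, ha]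
    | h1 c =>
      rw [mapDomain_single]
      by_cases h0 : c.1.deg = 0
      · exact ps_eqv0 x₀ K H 0 g h h0
      · rw [ps_zero x₀ K ψ' h0, ps_zero x₀ K ψ' (by simpa using h0), map_zero]
  | succ i ih =>
    induction c using ind1 with
    | h0 => simp
    | hadd a b ha hb => simp only [mapDomain_add, map_add, ha, hb]
    | hs r a ha => simp only [mapDomain_smul, map_smul, ha]
    | h1 c =>
      rw [mapDomain_single]
      by_cases h0 : c.1.deg = 0
      · exact ps_eqv0 x₀ K H _ g h h0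
      · rw [ps_succ x₀ K ψ' i h0, ps_succ x₀ K ψ' i (by simpa using h0), apply_ite (P g h (i + 1)),
          map_zero, P_P, ← mapDomain_single, cbR_smul2, ih, P_P]
        exact if_congr (by simp [cdeg]) (by simp) rfl

theorem aug_ps (u v : Tup G →₀ ℤ) :
    aug ℤ (X × X) (ps x₀ K ψ' 0 (prR ℤ u v)) = eps ℤ u * eps ℤ v := by
  induction u using ind1 with
  | h0 => simp
  | hadd a b ha hb => simp only [map_add, LinearMap.add_apply, ha, hb, add_mul]
  | hs r a ha => simp only [map_smul, LinearMap.smul_apply, ha, smul_eq_mul, mul_assoc]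
  | h1 x =>
    induction v using ind1 with
    | h0 => simp
    | hadd a b ha hb => simp only [map_add, ha, hb, mul_add]
    | hs r a ha => simp only [map_smul, ha, smul_eq_mul, mul_left_comm]
    | h1 y =>
      rw [prR_single, mul_one, eps_single x]
      split_ifs with h0
      · rw [ps_base x₀ K ψ' 0 (c := (x, y)) h0, aug_push, H.aug, one_mul]
      · rw [ps_zero x₀ K ψ' (c := (x, y)) h0, map_zero, zero_mul]

theorem ps_bd0 (i : ℕ) {c : Cell G} (h0 : c.1.deg = 0) :
    bd ℤ (X × X) i (ps x₀ K ψ' (i + 1) (single c 1)) = ps x₀ K ψ' i (cbR ℤ (single c 1)) := by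
  rw [ps_base x₀ K ψ' _ h0, bd_push, H.bd, cbR_single, sg_single, h0, eq_pt h0, bdT_pt, map_zero,
    LinearMap.zero_apply, zero_add, pow_zero, one_mul, ps_pt]
  rfl

theorem ps_bd (h0 : ∀ c, aug ℤ (X × X) c = 0 → bd ℤ (X × X) 0 (K 0 c) = c)
    (h1 : ∀ i c, bd ℤ (X × X) i c = 0 → bd ℤ (X × X) (i + 1) (K (i + 1) c) = c) (i : ℕ)
    (c : Cell G →₀ ℤ) : bd ℤ (X × X) i (ps x₀ K ψ' (i + 1) c) = ps x₀ K ψ' i (cbR ℤ c) := by
  induction i generalizing c with
  | zero =>
    induction c using ind1 with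
    | h0 => simp
    | hadd a b ha hb => simp only [map_add, ha, hb]
    | hs r a ha => simp only [map_smul, ha]
    | h1 c =>
      by_cases e : c.1.deg = 0
      · exact ps_bd0 x₀ K H 0 e
      rw [ps_succ x₀ K ψ' 0 e]
      split_ifs with h
      · rw [bd_P, h0, P_P, mul_inv_cancel, mul_inv_cancel, P_one]
        rw [P, aug_push, cbR_single, map_add, map_add, aug_ps x₀ K H, aug_ps x₀ K H,
          eps_bdT, eps_bdT, zero_mul, mul_zero, add_zero]
      · rw [map_zero, ps_cb x₀ K H 0 c h]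
  | succ i ih =>
    induction c using ind1 with
    | h0 => simp
    | hadd a b ha hb => simp only [map_add, ha, hb]
    | hs r a ha => simp only [map_smul, ha]
    | h1 c =>
      by_cases e : c.1.deg = 0
      · exact ps_bd0 x₀ K H _ e
      rw [ps_succ x₀ K ψ' _ e]
      split_ifs with h
      · rw [bd_P, h1, P_P, mul_inv_cancel, mul_inv_cancel, P_one]
        rw [bd_P, ih, cbR_cbR, map_zero, map_zero]
      · rw [map_zero, ps_cb x₀ K H (i + 1) c h]

end PsiZL

open PsiZL in
theorem psiZ_stmt : PsiZStmt := by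
  intro G X M _ _ _ _ _ _ p hp
  have R1 := Bar.isRes G
  have R2 := isRes_sing hp (MonoidHom.id G) Function.injective_id
  obtain ⟨u, u1, u2, u3⟩ := R1.exists_map R2
  obtain ⟨κ, k1, k2, k3⟩ := R2.exists_map R1
  obtain ⟨h, h1, h2⟩ := R2.exists_homotopy (fun k => u k ∘ₗ κ k - LinearMap.id)
    (fun k g c => by simp only [LinearMap.sub_apply, LinearMap.comp_apply, k1 k g c, u1 k g _,
      LinearMap.id_apply, map_sub])
    (fun c => by simp only [LinearMap.sub_apply, LinearMap.comp_apply, LinearMap.id_apply, map_sub,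
      u2, k2, sub_self])
    fun k c => by simp only [LinearMap.sub_apply, LinearMap.comp_apply, LinearMap.id_apply,
      map_sub, u3, k3]
  have H : Ps1 fun i => u i ∘ₗ Bar.res i := by
    refine ⟨fun i y hy => ?_, fun i c => ?_, fun c => ?_, fun i g c => ?_⟩
    · rw [LinearMap.comp_apply, Bar.res_single, dif_neg hy, map_zero]
    · rw [LinearMap.comp_apply, LinearMap.comp_apply, u3]
      congr 1
      apply Bar.inc_inj
      rw [Bar.inc_dB, Bar.inc_res, Bar.inc_res, prD_bdT]
    · rw [LinearMap.comp_apply, u2, Bar.eB_apply, Bar.inc_res]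
      induction c using Finsupp.induction_linear with
      | zero => simp
      | add a b ha hb => simp only [map_add, ha, hb]
      | single x r =>
        rw [prD_single]
        split_ifs with e
        · rfl
        · rw [map_zero, eps_single, if_neg e]
    · rw [LinearMap.comp_apply, LinearMap.comp_apply, Bar.res_smul]
      exact u1 i g _
  obtain ⟨⟨x₀, x₁⟩, ⟨H2⟩⟩ := id_nullhomotopic (X × X)
  refine ⟨x₀, _, ps x₀ (cone ℤ H2) _, ps_deg _ _ H, ps_bd _ _ H (fun c hc => ?_) fun i c hc => ?_,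
    fun i g g' x y => ?_, fun i y => ?_, H.eqv, fun w m μ hμ => ?_⟩
  · rw [bd_cone_zero, hc, push_id, single_zero, sub_zero]
  · rw [bd_cone_succ, hc, push_id, map_zero, sub_zero]
  · have := ps_eqv x₀ (cone ℤ H2) H i g g' (single (x, y) 1)
    rwa [mapDomain_single] at this
  · rw [ps_base _ _ _ i (deg_pt 1)]
    exact congrArg (fun x => push ℤ (sl x) i _) (one_smul G x₀)
  refine ⟨Bar.inc (m + 1) (κ (m + 1) μ), fun y hy => ?_, ?_, h (m + 1) μ, ?_⟩
  · by_contra e
    rw [mem_support_iff, ← Bar.prD_inc, prD_apply, if_neg e] at hy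
    exact hy rfl
  · rw [← Bar.inc_dB, k3]
    exact map_rel w (Bar.inc m ∘ₗ κ m)
      (fun g c => (congrArg (Bar.inc m) (k1 m g c)).trans (Bar.inc_rep m g _)) hμ
  · have e := h2 m μ
    simp only [LinearMap.sub_apply, LinearMap.comp_apply, LinearMap.id_apply] at e
    rw [LinearMap.comp_apply, Bar.res_inc, ← e, add_sub_cancel_left]
    exact map_rel w (h m) (h1 m) hμ

end Pool.Agent.MP_4f4d9f_gt.Hy

end

section

/-! A non-amenable group has a spectral gap. -/

namespace Pool.Agent.MP_4f4d9f_gt.Hy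

open Filter Topology

namespace GapL

section Co

variable {X I : Type} [DecidableEq X] {T : Finset I} {σ : I → X → X} {e : ℝ}

/-- The coarea inequality for finitely supported functions. -/
theorem coarea (H : ∀ F : Finset X, e * F.card ≤ ∑ t ∈ T, ((F.filter fun q => σ t q ∉ F).card : ℝ))
    (F : Finset X) : ∀ f : X → ℝ, (∀ q, 0 ≤ f q) → (∀ q, q ∉ F → f q = 0) →
      e * ∑ q ∈ F, f q ≤ ∑ t ∈ T, ∑ q ∈ F, max (f q - f (σ t q)) 0 := by
  induction F using Finset.strongInduction with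
  | H F ih =>
  intro f h0 hF
  rcases F.eq_empty_or_nonempty with rfl | hne
  · simp
  obtain ⟨p, hp, hm⟩ := F.exists_min_image f hne
  obtain ⟨g, hg⟩ : ∃ g : X → ℝ, ∀ q, g q = if q ∈ F then f q - f p else 0 := ⟨_, fun _ => rfl⟩
  have h1 := ih (F.erase p) (Finset.erase_ssubset hp) g
    (fun q => by
      rw [hg]
      split_ifs with h
      · exact sub_nonneg.2 (hm q h)
      · exact le_rfl)
    (fun q hq => by
      rw [hg]
      split_ifs with h
      · rw [show q = p by simpa [h] using hq, sub_self]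
      · rfl)
  have h2 : ∑ q ∈ F, f q = ∑ q ∈ F.erase p, g q + f p * F.card := by
    rw [Finset.sum_erase _ (by simp [hg]), mul_comm, ← nsmul_eq_mul, ← Finset.sum_const,
      ← Finset.sum_add_distrib]
    exact Finset.sum_congr rfl fun q hq => by simp [hg, hq]
  have h3 : ∀ t, ∑ q ∈ F.erase p, max (g q - g (σ t q)) 0 +
      f p * ((F.filter fun q => σ t q ∉ F).card : ℝ) ≤ ∑ q ∈ F, max (f q - f (σ t q)) 0 := by
    intro t
    rw [Finset.card_filter, Nat.cast_sum, Finset.mul_sum]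
    refine (add_le_add_left (Finset.sum_le_sum_of_subset_of_nonneg (Finset.erase_subset p F)
      fun _ _ _ => le_max_right _ _) _).trans ?_
    rw [← Finset.sum_add_distrib]
    refine Finset.sum_le_sum fun q hq => ?_
    rw [hg, hg, if_pos hq]
    by_cases h : σ t q ∈ F
    · simp [h]
    · simp [h, hF _ h, max_eq_left (h0 q), max_eq_left (sub_nonneg.2 (hm q hq))]
  refine le_trans ?_ (Finset.sum_le_sum fun t _ => h3 t)
  rw [Finset.sum_add_distrib, ← Finset.mul_sum, h2, mul_add, mul_left_comm]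
  exact add_le_add h1 (mul_le_mul_of_nonneg_left (H F) (h0 p))

/-- The coarea inequality for summable functions. -/
theorem coarea' (he : 0 < e)
    (H : ∀ F : Finset X, e * F.card ≤ ∑ t ∈ T, ((F.filter fun q => σ t q ∉ F).card : ℝ))
    {f : X → ℝ} (hf : Summable f) {u : I → X → ℝ} (hu : ∀ t, Summable (u t))
    (h : ∀ t q, |f q - f (σ t q)| ≤ u t q) : e * ∑' q, f q ≤ ∑ t ∈ T, ∑' q, u t q := by
  rw [← hf.tsum_mul_left]
  refine (hf.mul_left e).tsum_le_of_sum_le fun F => ?_
  rw [← Finset.mul_sum]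
  refine le_of_forall_pos_le_add fun ε hε => ?_
  obtain ⟨d, hd, hde⟩ : ∃ d : ℝ, 0 < d ∧ e * (d * (F.card + 1)) = ε :=
    ⟨ε / (e * (F.card + 1)), by positivity, by field_simp⟩
  have h1 : {q | ¬ f q < d}.Finite :=
    eventually_cofinite.1 (hf.tendsto_cofinite_zero.eventually (gt_mem_nhds hd))
  have h2 := coarea H (F ∪ h1.toFinset) (fun q => max (f q - d) 0) (fun _ => le_max_right _ _)
    fun q hq => max_eq_right (by
      simp only [Finset.mem_union, Set.Finite.mem_toFinset, Set.mem_ofPred_eq, not_or,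
        not_not] at hq
      linarith [hq.2])
  have h3 : ∑ q ∈ F, f q ≤ ∑ q ∈ F ∪ h1.toFinset, max (f q - d) 0 + d * (F.card + 1) := by
    refine le_trans ?_ (add_le_add_left (Finset.sum_le_sum_of_subset_of_nonneg
      Finset.subset_union_left fun _ _ _ => le_max_right _ _) _)
    have : ∑ q ∈ F, f q ≤ ∑ q ∈ F, (max (f q - d) 0 + d) :=
      Finset.sum_le_sum fun q _ => by linarith [le_max_left (f q - d) 0]
    rw [Finset.sum_add_distrib, Finset.sum_const, nsmul_eq_mul] at this
    linarith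
  have h4 : ∀ t q, max (max (f q - d) 0 - max (f (σ t q) - d) 0) 0 ≤ u t q := fun t q => by
    refine le_trans (max_le ((le_abs_self _).trans ?_) (abs_nonneg _)) (h t q)
    simpa using abs_max_sub_max_le_abs (f q - d) (f (σ t q) - d) 0
  refine (mul_le_mul_of_nonneg_left h3 he.le).trans ?_
  rw [mul_add, hde]
  refine add_le_add_left (h2.trans (Finset.sum_le_sum fun t _ => ?_)) _
  exact (Finset.sum_le_sum fun q _ => h4 t q).trans
    ((hu t).sum_le_tsum _ fun q _ => (abs_nonneg _).trans (h t q))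

end Co

variable {G : Type} [Group G] {S : Finset G}

theorem en_nonneg (S : Finset G) (φ : G → ℝ) : 0 ≤ En S φ :=
  Finset.sum_nonneg fun _ _ => tsum_nonneg fun _ => sq_nonneg _

theorem far (hS : Gen S) (w : G) : ∃ K : ℝ, 0 ≤ K ∧ ∀ φ : G → ℝ, Sq φ →
    ∑' x, (φ (x * w) - φ x) ^ 2 ≤ K * En S φ := by
  induction w using hS.ind with
  | h1 => exact ⟨0, le_rfl, fun φ _ => by simp⟩
  | h w s hs ih =>
    obtain ⟨K, hK, h⟩ := ih
    refine ⟨2 + 2 * K, by positivity, fun φ hφ => ?_⟩
    have a1 : Summable fun x => (φ (x * w * s) - φ (x * w)) ^ 2 := (hφ.dir s hs).mul_right w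
    have a2 : Summable fun x => (φ (x * w) - φ x) ^ 2 := (hφ.mul_right w).sub hφ
    have a3 : Summable fun x => (φ (x * (w * s)) - φ x) ^ 2 := (hφ.mul_right _).sub hφ
    have a4 : ∑' x, (φ (x * w * s) - φ (x * w)) ^ 2 ≤ En S φ :=
      ((Equiv.mulRight w).tsum_eq fun x => (φ (x * s) - φ x) ^ 2).trans_le
        (Finset.single_le_sum (f := fun s => ∑' x, (φ (x * s) - φ x) ^ 2)
          (fun _ _ => tsum_nonneg fun _ => sq_nonneg _) hs)
    have a5 := a3.tsum_le_tsum (fun x => by
      rw [← mul_assoc]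
      nlinarith [sq_nonneg (φ (x * w * s) - 2 * φ (x * w) + φ x)])
      ((a1.mul_left 2).add (a2.mul_left 2))
    rw [(a1.mul_left 2).tsum_add (a2.mul_left 2), tsum_mul_left, tsum_mul_left] at a5
    linarith [h φ hφ]

theorem amgm (a b : ℝ) {l : ℝ} (hl : 0 < l) :
    |a ^ 2 - b ^ 2| ≤ l⁻¹ * (b - a) ^ 2 + (l * a ^ 2 + l * b ^ 2) := by
  refine le_of_mul_le_mul_left ?_ hl
  rw [mul_add, mul_inv_cancel_left₀ hl.ne', ← abs_of_pos hl, ← abs_mul, abs_of_pos hl, abs_le]
  constructor
  · nlinarith [sq_nonneg (b - a - l * (a + b) / 2), sq_nonneg (l * (a - b)), sq_nonneg (l * a),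
      sq_nonneg (l * b)]
  · nlinarith [sq_nonneg (b - a + l * (a + b) / 2), sq_nonneg (l * (a - b)), sq_nonneg (l * a),
      sq_nonneg (l * b)]

end GapL

open GapL in
theorem gap_stmt : GapStmt := by
  classical
  intro G _ S hS hF
  unfold Folner at hF
  push Not at hF
  obtain ⟨T, e, he, hT⟩ := hF
  have H : ∀ F : Finset G, e * F.card ≤ ∑ t ∈ T, ((F.filter fun q => t * q ∉ F).card : ℝ) := by
    intro F
    rcases F.eq_empty_or_nonempty with rfl | hne
    · simp
    obtain ⟨t, ht, h⟩ := hT F hne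
    refine h.le.trans (le_trans (le_of_eq ?_) (Finset.single_le_sum
      (f := fun t => ((F.filter fun q => t * q ∉ F).card : ℝ)) (fun _ _ => Nat.cast_nonneg _) ht))
    rw [← Set.ncard_coe_finset, Finset.coe_filter]
    rfl
  choose K hK0 hK using GapL.far hS
  obtain ⟨l, hl, hle⟩ : ∃ l : ℝ, 0 < l ∧ l * (4 * T.card + 4) = e :=
    ⟨e / (4 * T.card + 4), by positivity, by field_simp⟩
  refine ⟨⌈2 / e * (l⁻¹ * ∑ t ∈ T, K t⁻¹)⌉₊, fun φ hφ => ?_⟩
  have a1 : ∀ t : G, Summable fun x => (φ (x * t⁻¹) - φ x) ^ 2 := fun t => (hφ.mul_right _).sub hφ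
  have a2 : ∀ t : G, Summable fun x => φ (x * t⁻¹) ^ 2 := fun t => hφ.mul_right _
  have a3 : ∀ t : G, Summable fun x =>
      l⁻¹ * (φ (x * t⁻¹) - φ x) ^ 2 + (l * φ x ^ 2 + l * φ (x * t⁻¹) ^ 2) := fun t =>
    ((a1 t).mul_left _).add ((Summable.mul_left l hφ).add ((a2 t).mul_left _))
  have h1 := coarea' he H ((Equiv.inv G).summable_iff.2 hφ)
    (fun t => (Equiv.inv G).summable_iff.2 (a3 t)) fun t q => by
      simpa using amgm (φ q⁻¹) (φ (q⁻¹ * t⁻¹)) hl
  have hN : 0 ≤ ∑' x, φ x ^ 2 := tsum_nonneg fun _ => sq_nonneg _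
  have h2 : ∀ t : G, ∑' x, (l⁻¹ * (φ (x * t⁻¹) - φ x) ^ 2 + (l * φ x ^ 2 + l * φ (x * t⁻¹) ^ 2)) ≤
      l⁻¹ * (K t⁻¹ * En S φ) + 2 * l * ∑' x, φ x ^ 2 := fun t => by
    rw [((a1 t).mul_left _).tsum_add ((Summable.mul_left l hφ).add ((a2 t).mul_left _)),
      (Summable.mul_left l hφ).tsum_add ((a2 t).mul_left _), tsum_mul_left, tsum_mul_left,
      tsum_mul_left, show ∑' x, φ (x * t⁻¹) ^ 2 = ∑' x, φ x ^ 2 from
        (Equiv.mulRight t⁻¹).tsum_eq fun x => φ x ^ 2]
    have := mul_le_mul_of_nonneg_left (hK t⁻¹ φ hφ) (inv_pos.2 hl).le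
    linarith
  have h3 : e * ∑' x, φ x ^ 2 ≤
      ∑ t ∈ T, (l⁻¹ * (K t⁻¹ * En S φ) + 2 * l * ∑' x, φ x ^ 2) := by
    refine le_trans (le_of_eq ?_) (h1.trans (Finset.sum_le_sum fun t _ =>
      ((Equiv.inv G).tsum_eq _).trans_le (h2 t)))
    exact congrArg _ ((Equiv.inv G).tsum_eq fun x => φ x ^ 2).symm
  rw [Finset.sum_add_distrib, Finset.sum_const, nsmul_eq_mul, ← Finset.mul_sum,
    ← Finset.sum_mul] at h3
  refine le_trans ?_ (mul_le_mul_of_nonneg_right (Nat.le_ceil _) (en_nonneg S φ))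
  rw [mul_assoc, div_mul_eq_mul_div, le_div_iff₀ he, mul_assoc]
  have h4 := mul_nonneg hl.le hN
  rw [← hle] at h3 ⊢
  nlinarith

end Pool.Agent.MP_4f4d9f_gt.Hy

end
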