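import Pool.Agent.Mg.F4f4d9fr.G30dcc0
import Pool.Agent.Mg.F4f4d9fr.G8e7da9

set_option linter.all false

section

/-! The fibres of the labelling are cuts. -/

namespace Pool.Agent.MP_4f4d9f_gt.Ku

open Filter Topology Hy
open scoped Pointwise

namespace T10L

variable {G : Type} [Group G] {X : Type} [MetricSpace X] [MulAction G X] {S : Finset G}
  {b c α ξ : X} {A A' F L : Set G} {g : G} {B : Set X} {lam : G → X} {H : Subgroup G}

/-- The points in exactly one of the two sets. -/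
def Xr (A A' : Set G) : Set G := {x | ¬ (x ∈ A ↔ x ∈ A')}

omit [Group G] in
theorem xr_side {l : Filter G} (h : A ∈ l ∨ Aᶜ ∈ l) (h' : A' ∈ l ∨ A'ᶜ ∈ l) :
    Xr A A' ∈ l ∨ (Xr A A')ᶜ ∈ l := by
  rcases h with h | h <;> rcases h' with h' | h'
  · exact Or.inr (mem_of_superset (inter_mem h h') fun x e k => k (iff_of_true e.1 e.2))
  · exact Or.inl (mem_of_superset (inter_mem h h') fun x e k => e.2 (k.1 e.1))
  · exact Or.inl (mem_of_superset (inter_mem h h') fun x e k => e.1 (k.2 e.2))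
  · exact Or.inr (mem_of_superset (inter_mem h h') fun x e k => k (iff_of_false e.1 e.2))

theorem xr_compl : Xr (g • Fᶜ) Fᶜ = Xr (g • F) F := by
  rw [Set.smul_set_compl]
  exact Set.ext fun _ => not_congr not_iff_not

theorem xr_xr (h : g • L = L) : Xr (g • Xr L F) (Xr L F) = Xr (g • F) F := by
  ext x
  have e : g⁻¹ • x ∈ L ↔ x ∈ L := by rw [← Set.mem_smul_set_iff_inv_smul_mem, h]
  simp only [Xr, Set.mem_ofPred_eq, Set.mem_smul_set_iff_inv_smul_mem, e]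
  tauto

/-- The boundary of a fibre lies near the stabiliser. -/
theorem bdy_sub (hS : Gen S) (lab : Lab S b B lam H) (c : X) : ∃ T : Set G, T.Finite ∧
    ∀ x ∈ Bdy S {x | lam x = c}, ∃ t ∈ T, x * t⁻¹ ∈ H ⊓ MulAction.stabilizer G c := by
  obtain ⟨T, hT, h⟩ := lab.orb
  have h0 : ∀ y : G, ∃ k ∈ H, (∃ k' ∈ H, k' • lam y = c) → k • lam y = c := fun y => by
    by_cases e : ∃ k' ∈ H, k' • lam y = c
    · obtain ⟨k, h1, h2⟩ := e
      exact ⟨k, h1, fun _ => h2⟩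
    · exact ⟨1, H.one_mem, fun e' => absurd e' e⟩
  choose k k1 k2 using h0
  refine ⟨Set.image2 (fun t s => k (t * s) * t) T S, hT.image2 _ S.finite_toSet, ?_⟩
  rintro x ⟨s, hs, e⟩
  simp only [Set.mem_ofPred_eq] at e
  obtain ⟨u, u1, u2⟩ := h x s hs fun e' => e (by rw [e'])
  obtain ⟨s', hs', e'⟩ : ∃ s' ∈ S, lam (x * s') = c := by
    by_cases e1 : lam x = c
    · exact ⟨1, hS.one, by rwa [mul_one]⟩
    · exact ⟨s, hs, by_contra fun e2 => e (iff_of_false e1 e2)⟩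
  have e2 : u • lam (u⁻¹ * x * s') = c := by
    rw [← lab.eqv u u1, ← mul_assoc, mul_inv_cancel_left, e']
  have e3 := k2 _ ⟨u, u1, e2⟩
  refine ⟨_, Set.mem_image2_of_mem u2 hs', ?_⟩
  have e4 : x * (k (u⁻¹ * x * s') * (u⁻¹ * x))⁻¹ = u * (k (u⁻¹ * x * s'))⁻¹ := by group
  rw [e4]
  refine ⟨H.mul_mem u1 (H.inv_mem (k1 _)), ?_⟩
  change (u * (k (u⁻¹ * x * s'))⁻¹) • c = c
  rw [mul_smul, inv_smul_eq_iff.2 e3.symm, e2]

/-- A point near which a label occurs often, outside a given pair. -/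
theorem exists_pt (dyn : Dyn S b) (lab : Lab S b B lam H) (x : G) (c α : X) :
    ∃ ξ, ξ ≠ c ∧ ξ ≠ α ∧ ∃ᶠ y in nf G b ξ, lam y = lam x := by
  obtain ⟨O, h1, ⟨ζ, h2⟩, h3⟩ := lab.opn x
  obtain ⟨ξ, e1, e2⟩ := ((dyn.perf ζ h2.2 O (h1.mem_nhds h2.1)).sdiff
    (Set.toFinite {c, α})).nonempty
  exact ⟨ξ, fun e => e2 (Or.inl e), fun e => e2 (Or.inr e), h3 ξ e1⟩

variable [ContinuousConstSMul G X]

theorem freq_of (cv : Cv G b) {Γ : Subgroup G} {T : Set G} (hT : T.Finite)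
    (h : ∀ x ∈ A, ∃ t ∈ T, x * t⁻¹ ∈ Γ) (e : Aᶜ ∉ nf G b ξ) : ∃ᶠ g in nf G b ξ, g ∈ Γ := by
  intro k
  refine e (mem_of_superset ((eventually_all_finite hT).2 fun t _ => cv.nf_right t⁻¹ k) ?_)
  intro x hx hA
  obtain ⟨t, h1, h2⟩ := h x hA
  exact hx t h1 h2

theorem inv_iff (h : (Xr (g • F) F).Finite) (η : X) : F ∈ nf G b (g • η) ↔ F ∈ nf G b η := by
  rw [← smul_mem_nf (ξ := η) g]
  constructor <;> intro k <;> filter_upwards [k, compl_mem_nf h] with x h1 h2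
  · exact (not_not.1 h2).2 h1
  · exact (not_not.1 h2).1 h1

theorem pow_iff (h : (Xr (g • F) F).Finite) (j : ℕ) (η : X) :
    F ∈ nf G b (g ^ j • η) ↔ F ∈ nf G b η := by
  induction j with
  | zero => rw [pow_zero, one_smul]
  | succ j ih => rw [pow_succ', mul_smul, inv_iff h, ih]

theorem spread1 (h : (Xr (g • F) F).Finite) (hc : F ∈ nf G b c)
    (ht : Tendsto (fun j : ℕ => g⁻¹ ^ j • ξ) atTop (𝓝 c)) : F ∈ nf G b ξ := by
  obtain ⟨j, hj⟩ := (ht.eventually (nf_open hc)).exists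
  have := (pow_iff h j _).2 hj
  rwa [inv_pow, smul_inv_smul] at this

theorem spread2 (h : (Xr (g • F) F).Finite) (hc : F ∈ nf G b α)
    (ht : Tendsto (fun j : ℕ => g ^ j • ξ) atTop (𝓝 α)) : F ∈ nf G b ξ := by
  obtain ⟨j, hj⟩ := (ht.eventually (nf_open hc)).exists
  exact (pow_iff h j _).1 hj

variable [CompactSpace X]

/-- A set whose boundary accumulates at two points only splits into two cuts. -/
theorem split (bd : Bd S b) (hα : α ≠ c)
    (h : ∀ ξ, ξ ≠ α → ξ ≠ c → (Bdy S L)ᶜ ∈ nf G b ξ) :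
    ∃ F, Sp b α F ∧ Sp b c (Xr L F) := by
  let Q : Set G := {x | dist (x • b) α < dist (x • b) c}
  have q1 : Q ∈ nf G b α := nf_tendsto ((isOpen_lt (f := fun y => dist y α)
    (g := fun y => dist y c) (by fun_prop) (by fun_prop)).mem_nhds (by simpa using hα))
  have q2 : Qᶜ ∈ nf G b c := mem_of_superset (nf_tendsto ((isOpen_lt (f := fun y => dist y c)
    (g := fun y => dist y α) (by fun_prop) (by fun_prop)).mem_nhds (by simpa using hα.symm)))
    fun x hx k => lt_asymm (a := dist (x • b) c) (b := dist (x • b) α) hx k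
  obtain ⟨F, hF⟩ := bd.cs.cut1 L Q ((finite_iff b).2 fun ξ => by
    by_cases e1 : ξ = α
    · exact mem_of_superset (bd.cv.bdy (S := S) (Or.inl (e1 ▸ q1)))
        fun x hx ⟨_, s, hs, _, k⟩ => hx ⟨s, hs, k⟩
    by_cases e2 : ξ = c
    · exact mem_of_superset (bd.cv.bdy (S := S) (Or.inr (e2 ▸ q2)))
        fun x hx ⟨_, s, hs, _, k⟩ => hx ⟨s, hs, k⟩
    · exact mem_of_superset (h ξ e1 e2) fun x hx k => hx k.1)
  refine ⟨F, bd.sp_iff.2 fun ξ e => ?_, bd.sp_iff.2 fun ξ e => ?_⟩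
  · have k : (Bdy S L ∩ Q)ᶜ ∈ nf G b ξ := by
      by_cases e2 : ξ = c
      · rw [e2]
        exact mem_of_superset q2 fun x hx k => hx k.2
      · exact mem_of_superset (h ξ e e2) fun x hx k => hx k.1
    filter_upwards [k, compl_mem_nf hF] with x h1 h2
    rintro ⟨s, hs, h3⟩
    have h4 := (not_not.1 fun k => h2 ⟨s, hs, k⟩).1 h3
    exact h1 ⟨⟨s, hs, h4.1⟩, h4.2⟩
  · have k : (Bdy S L ∩ Qᶜ)ᶜ ∈ nf G b ξ := by
      by_cases e2 : ξ = α
      · exact mem_of_superset (e2 ▸ q1) fun x hx k => k.2 hx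
      · exact mem_of_superset (h ξ e2 e) fun x hx k => hx k.1
    filter_upwards [k, compl_mem_nf hF] with x h1 h2
    rintro ⟨s, hs, h3⟩
    have h4 := not_not.1 fun k => h2 ⟨s, hs, k⟩
    have h5 : ¬ (Cr L x (x * s) ∧ x ∉ Q) := fun k => h1 ⟨⟨s, hs, k.1⟩, k.2⟩
    simp only [Xr, Cr, Set.mem_ofPred_eq] at h3 h4 h5
    tauto

/-- North-south dynamics puts all other points on one side. -/
theorem side (bd : Bd S b) (hα : α ≠ c) (hc : c ∈ KK G b) (h1 : Sp b α F) (h2 : Sp b c (Xr L F))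
    (g1 : g • L = L) (g2 : g • α = α) (g3 : g • c = c)
    (t1 : ∀ ξ, ξ ≠ α → Tendsto (fun j : ℕ => g⁻¹ ^ j • ξ) atTop (𝓝 c))
    (t2 : ∀ ξ, ξ ≠ c → Tendsto (fun j : ℕ => g ^ j • ξ) atTop (𝓝 α)) :
    (∀ ξ, ξ ≠ c → ξ ≠ α → L ∈ nf G b ξ) ∨ ∀ ξ, ξ ≠ c → ξ ≠ α → Lᶜ ∈ nf G b ξ := by
  have h1' : Sp b α (g • F) := g2 ▸ h1.smul g
  have h2' : Sp b c (g • Xr L F) := g3 ▸ h2.smul g
  have w0 : (Xr (g • F) F)ᶜ ∈ nf G b c := by
    rcases h1 c hα.symm with k | k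
    · have k' := (smul_mem_nf g).2 k
      rw [g3] at k'
      exact mem_of_superset (inter_mem k' k) fun x e k => k (iff_of_true e.1 e.2)
    · have k' := (smul_mem_nf g).2 k
      rw [g3, Set.smul_set_compl] at k'
      exact mem_of_superset (inter_mem k' k) fun x e k => k (iff_of_false e.1 e.2)
  have w1 : (Xr (g • F) F).Finite := by
    refine (bd.fin_or fun ξ => ?_).resolve_right (infinite_of_mem hc w0)
    by_cases e : ξ = α
    · rw [← xr_xr g1]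
      exact xr_side (h2' ξ (e ▸ hα)) (h2 ξ (e ▸ hα))
    · exact xr_side (h1' ξ e) (h1 ξ e)
  have w2 : (Xr (g • Xr L F) (Xr L F)).Finite := by rwa [xr_xr g1]
  have w1' : (Xr (g • Fᶜ) Fᶜ).Finite := by rwa [xr_compl]
  have w2' : (Xr (g • (Xr L F)ᶜ) (Xr L F)ᶜ).Finite := by rwa [xr_compl]
  rcases h1 c hα.symm with k | k <;> rcases h2 α hα with k' | k'
  · exact Or.inr fun ξ e e' => mem_of_superset
      (inter_mem (spread1 w1 k (t1 ξ e')) (spread2 w2 k' (t2 ξ e)))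
      fun x a u => a.2 (iff_of_true u a.1)
  · exact Or.inl fun ξ e e' => mem_of_superset
      (inter_mem (spread1 w1 k (t1 ξ e')) (spread2 w2' k' (t2 ξ e)))
      fun x a => (not_not.1 a.2).2 a.1
  · exact Or.inl fun ξ e e' => mem_of_superset
      (inter_mem (spread1 w1' k (t1 ξ e')) (spread2 w2 k' (t2 ξ e)))
      fun x a => by_contra fun u => a.2 (iff_of_false u a.1)
  · exact Or.inr fun ξ e e' => mem_of_superset
      (inter_mem (spread1 w1' k (t1 ξ e')) (spread2 w2' k' (t2 ξ e)))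
      fun x a u => a.1 ((not_not.1 a.2).1 u)

end T10L

open T10L in
theorem t10_stmt : T10Stmt := by
  intro G _ X _ _ _ _ S b B lam H bd dyn vc lab c
  refine bd.sp_iff.2 fun α hα => by_contra fun hb => ?_
  obtain ⟨T, hT, hsub⟩ := bdy_sub bd.cs.gen lab c
  have hf := freq_of bd.cv hT hsub hb
  obtain ⟨v1, g, hg, g2, t1, t2⟩ := vc (H ⊓ MulAction.stabilizer G c) c α
    (fun g hg => hg.2) hα hf
  have g3 : g • c = c := hg.2
  have g1 : g • {x | lam x = c} = {x | lam x = c} := by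
    ext x
    rw [Set.mem_smul_set_iff_inv_smul_mem, Set.mem_ofPred_eq, Set.mem_ofPred_eq, smul_eq_mul,
      lab.eqv _ (H.inv_mem hg.1), inv_smul_eq_iff, g3]
  obtain ⟨F, h1, h2⟩ := split (L := {x | lam x = c}) bd hα fun ξ e1 e2 => by_contra fun k =>
    (v1 ξ (freq_of bd.cv hT hsub k)).elim e1 e2
  obtain ⟨x, hx⟩ : ∃ x, lam x = c := by
    by_contra k
    refine hb (mem_of_superset univ_mem ?_)
    rintro x - ⟨s, -, e⟩
    exact e (iff_of_false (fun e => k ⟨_, e⟩) fun e => k ⟨_, e⟩)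
  obtain ⟨y, hy⟩ : ∃ y, lam y ≠ c := by
    obtain ⟨y, y', e⟩ := lab.non
    by_cases k : lam y = c
    · exact ⟨y', fun k' => e (k.trans k'.symm)⟩
    · exact ⟨y, k⟩
  obtain ⟨ξ, a1, a2, a3⟩ := exists_pt dyn lab x c α
  obtain ⟨η, b1, b2, b3⟩ := exists_pt dyn lab y c α
  have hc : c ∈ KK G b := isClosed_KK.mem_of_tendsto (t1 ξ a2)
    (Eventually.of_forall fun j => (smul_mem_KK _).2 (mem_KK_of_freq a3))
  rcases side bd hα hc h1 h2 g1 g2 g3 t1 t2 with k | k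
  · exact b3 (mem_of_superset (k η b1 b2) fun z hz e => hy (e.symm.trans hz))
  · exact a3 (mem_of_superset (k ξ a1 a2) fun z hz e => hz (e.trans hx))

end Pool.Agent.MP_4f4d9f_gt.Ku

end

section

/-! The fibres of the labelling are cuts. -/

namespace Pool.Agent.MP_4f4d9f_gt.Rk

open Filter Topology Hy Ku
open scoped Pointwise

namespace T10L

open Ku.T10L

variable {G Ω : Type} [Group G] [MulAction G Ω] {X : Type} [MetricSpace X] [MulAction G X]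
  {N : Net G Ω} {S : Finset G} {b c α ξ : X} {pos lam : Ω → X} {F L : Set G} {g : G}
  {B : Set X} {H : Subgroup G}

/-- The boundary of a fibre lies near the stabiliser. -/
theorem bdy_sub' (md : Mod N) (lab : Lab N b pos B lam H) (c : X) : ∃ T : Set G, T.Finite ∧
    ∀ x ∈ Bdy N {ω | lam ω = c}, ∃ t ∈ T, x * t⁻¹ ∈ H ⊓ MulAction.stabilizer G c := by
  obtain ⟨T, hT, h⟩ := lab.orb
  have h0 : ∀ y : Ω, ∃ k ∈ H, (∃ k' ∈ H, k' • lam y = c) → k • lam y = c := fun y => by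
    by_cases e : ∃ k' ∈ H, k' • lam y = c
    · obtain ⟨k, h1, h2⟩ := e
      exact ⟨k, h1, fun _ => h2⟩
    · exact ⟨1, H.one_mem, fun e' => absurd e' e⟩
  choose k k1 k2 using h0
  refine ⟨Set.image2 (fun t τ => k (t • τ) * t) T N.T, hT.image2 _ N.T.finite_toSet, ?_⟩
  intro x hx
  obtain ⟨s', hs', e'⟩ := md.bdy_in hx
  obtain ⟨s, hs, e⟩ := hx
  obtain ⟨u, u1, u2⟩ := h x s hs fun e' => e (by simp only [Set.mem_ofPred_eq, e'])
  have e2 : u • lam ((u⁻¹ * x) • s') = c := by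
    rw [← lab.eqv u u1, ← mul_smul, mul_inv_cancel_left]
    exact e'
  have e3 := k2 _ ⟨u, u1, e2⟩
  refine ⟨_, Set.mem_image2_of_mem u2 hs', ?_⟩
  have e4 : x * (k ((u⁻¹ * x) • s') * (u⁻¹ * x))⁻¹ = u * (k ((u⁻¹ * x) • s'))⁻¹ := by group
  rw [e4]
  refine ⟨H.mul_mem u1 (H.inv_mem (k1 _)), ?_⟩
  change (u * (k ((u⁻¹ * x) • s'))⁻¹) • c = c
  rw [mul_smul, inv_smul_eq_iff.2 e3.symm, e2]

/-- A point near which a label occurs often, outside a given pair. -/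
theorem exists_pt' (dyn : Dyn N.S b) (lab : Lab N b pos B lam H) (x : G) (c α : X) :
    ∃ ξ, ξ ≠ c ∧ ξ ≠ α ∧ ∃ᶠ y in nf G b ξ, lam (y • N.o) = lam (x • N.o) := by
  obtain ⟨O, h1, ⟨ζ, h2⟩, h3⟩ := lab.opn x
  obtain ⟨ξ, e1, e2⟩ := ((dyn.perf ζ h2.2 O (h1.mem_nhds h2.1)).sdiff
    (Set.toFinite {c, α})).nonempty
  exact ⟨ξ, fun e => e2 (Or.inl e), fun e => e2 (Or.inr e), h3 ξ e1⟩

/-- A label that occurs only at cones. -/
theorem cone_case (md : Mod N) (ps : Ps N b pos) (lab : Lab N b pos B lam H)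
    (h : ∀ x : G, lam (x • N.o) ≠ c) (e : ξ ≠ c) : (Bdy N {ω | lam ω = c})ᶜ ∈ nf G b ξ := by
  filter_upwards [(eventually_all_finset N.T).2 fun τ _ => (ps.tendsto τ).eventually_ne e] with x hx
  intro k
  obtain ⟨τ, hτ, e'⟩ := md.bdy_in k
  have e1 : lam (x • τ) = c := e'
  rcases lab.alt (x • τ) with ⟨y, hy⟩ | hy
  · exact h y (hy.trans e1)
  · exact hx τ hτ (by rw [← ps.eqv, ← hy, e1])

variable [ContinuousConstSMul G X] [CompactSpace X]

/-- A set whose boundary accumulates at two points only splits into two cuts. -/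
theorem split' {L : Set Ω} (bd : Bd N b pos) (hα : α ≠ c)
    (h : ∀ ξ, ξ ≠ α → ξ ≠ c → (Bdy N L)ᶜ ∈ nf G b ξ) :
    ∃ F, Sp b α F ∧ Sp b c (Xr (tr N L) F) := by
  let Q : Set G := {x | dist (x • b) α < dist (x • b) c}
  have q1 : Q ∈ nf G b α := nf_tendsto ((isOpen_lt (f := fun y => dist y α)
    (g := fun y => dist y c) (by fun_prop) (by fun_prop)).mem_nhds (by simpa using hα))
  have q2 : Qᶜ ∈ nf G b c := mem_of_superset (nf_tendsto ((isOpen_lt (f := fun y => dist y c)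
    (g := fun y => dist y α) (by fun_prop) (by fun_prop)).mem_nhds (by simpa using hα.symm)))
    fun x hx k => lt_asymm (a := dist (x • b) c) (b := dist (x • b) α) hx k
  obtain ⟨F, hF⟩ := bd.cs.cut1 L Q ((finite_iff b).2 fun ξ => by
    by_cases e1 : ξ = α
    · exact mem_of_superset (bd.bk.cv.bdy (S := N.S) (Or.inl (e1 ▸ q1)))
        fun x hx ⟨_, s, hs, _, k⟩ => hx ⟨s, hs, k⟩
    by_cases e2 : ξ = c
    · exact mem_of_superset (bd.bk.cv.bdy (S := N.S) (Or.inr (e2 ▸ q2)))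
        fun x hx ⟨_, s, hs, _, k⟩ => hx ⟨s, hs, k⟩
    · exact mem_of_superset (h ξ e1 e2) fun x hx k => hx k.1)
  refine ⟨tr N F, bd.sp fun ξ e => ?_, bd.sp (L := Xr L F) fun ξ e => ?_⟩
  · have k : (Bdy N L ∩ Q)ᶜ ∈ nf G b ξ := by
      by_cases e2 : ξ = c
      · rw [e2]
        exact mem_of_superset q2 fun x hx k => hx k.2
      · exact mem_of_superset (h ξ e e2) fun x hx k => hx k.1
    filter_upwards [k, compl_mem_nf hF] with x h1 h2
    rintro ⟨s, hs, h3⟩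
    have h4 := (not_not.1 fun k => h2 ⟨s, hs, k⟩).1 h3
    exact h1 ⟨⟨s, hs, h4.1⟩, h4.2⟩
  · have k : (Bdy N L ∩ Qᶜ)ᶜ ∈ nf G b ξ := by
      by_cases e2 : ξ = α
      · exact mem_of_superset (e2 ▸ q1) fun x hx k => k.2 hx
      · exact mem_of_superset (h ξ e2 e) fun x hx k => hx k.1
    filter_upwards [k, compl_mem_nf hF] with x h1 h2
    rintro ⟨s, hs, h3⟩
    have h4 := not_not.1 fun k => h2 ⟨s, hs, k⟩
    have h5 : ¬ (Cr L (x • N.o) (x • s) ∧ x ∉ Q) := fun k => h1 ⟨⟨s, hs, k.1⟩, k.2⟩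
    simp only [Xr, Cr, Set.mem_ofPred_eq] at h3 h4 h5
    tauto

omit [CompactSpace X] in
/-- North-south dynamics puts all other points on one side. -/
theorem side' (bk : Bk S b) (hα : α ≠ c) (hc : c ∈ KK G b) (h1 : Sp b α F)
    (h2 : Sp b c (Xr L F)) (g1 : g • L = L) (g2 : g • α = α) (g3 : g • c = c)
    (t1 : ∀ ξ, ξ ≠ α → Tendsto (fun j : ℕ => g⁻¹ ^ j • ξ) atTop (𝓝 c))
    (t2 : ∀ ξ, ξ ≠ c → Tendsto (fun j : ℕ => g ^ j • ξ) atTop (𝓝 α)) :
    (∀ ξ, ξ ≠ c → ξ ≠ α → L ∈ nf G b ξ) ∨ ∀ ξ, ξ ≠ c → ξ ≠ α → Lᶜ ∈ nf G b ξ := by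
  have h1' : Sp b α (g • F) := g2 ▸ h1.smul g
  have h2' : Sp b c (g • Xr L F) := g3 ▸ h2.smul g
  have w0 : (Xr (g • F) F)ᶜ ∈ nf G b c := by
    rcases h1 c hα.symm with k | k
    · have k' := (smul_mem_nf g).2 k
      rw [g3] at k'
      exact mem_of_superset (inter_mem k' k) fun x e k => k (iff_of_true e.1 e.2)
    · have k' := (smul_mem_nf g).2 k
      rw [g3, Set.smul_set_compl] at k'
      exact mem_of_superset (inter_mem k' k) fun x e k => k (iff_of_false e.1 e.2)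
  have w1 : (Xr (g • F) F).Finite := by
    refine (bk.fin_or _ fun ξ => ?_).resolve_right (infinite_of_mem hc w0)
    by_cases e : ξ = α
    · rw [← xr_xr g1]
      exact xr_side (h2' ξ (e ▸ hα)) (h2 ξ (e ▸ hα))
    · exact xr_side (h1' ξ e) (h1 ξ e)
  have w2 : (Xr (g • Xr L F) (Xr L F)).Finite := by rwa [xr_xr g1]
  have w1' : (Xr (g • Fᶜ) Fᶜ).Finite := by rwa [xr_compl]
  have w2' : (Xr (g • (Xr L F)ᶜ) (Xr L F)ᶜ).Finite := by rwa [xr_compl]
  rcases h1 c hα.symm with k | k <;> rcases h2 α hα with k' | k'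
  · exact Or.inr fun ξ e e' => mem_of_superset
      (inter_mem (spread1 w1 k (t1 ξ e')) (spread2 w2 k' (t2 ξ e)))
      fun x a u => a.2 (iff_of_true u a.1)
  · exact Or.inl fun ξ e e' => mem_of_superset
      (inter_mem (spread1 w1 k (t1 ξ e')) (spread2 w2' k' (t2 ξ e)))
      fun x a => (not_not.1 a.2).2 a.1
  · exact Or.inl fun ξ e e' => mem_of_superset
      (inter_mem (spread1 w1' k (t1 ξ e')) (spread2 w2 k' (t2 ξ e)))
      fun x a => by_contra fun u => a.2 (iff_of_false u a.1)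
  · exact Or.inr fun ξ e e' => mem_of_superset
      (inter_mem (spread1 w1' k (t1 ξ e')) (spread2 w2' k' (t2 ξ e)))
      fun x a u => a.1 ((not_not.1 a.2).1 u)

end T10L

open T10L Ku.T10L in
theorem t10_stmt : T10Stmt := by
  intro G Ω _ _ X _ _ _ _ N b pos B lam H bd dyn vc lab c α hα
  by_contra hb
  obtain ⟨T, hT, hsub⟩ := bdy_sub' bd.cs.md lab c
  have hf := freq_of bd.bk.cv hT hsub hb
  obtain ⟨v1, g, hg, g2, t1, t2⟩ := vc (H ⊓ MulAction.stabilizer G c) c α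
    (fun g hg => hg.2) hα hf
  have g3 : g • c = c := hg.2
  have g1 : g • tr N {ω | lam ω = c} = tr N {ω | lam ω = c} := by
    ext x
    rw [Set.mem_smul_set_iff_inv_smul_mem, mem_tr, mem_tr, Set.mem_ofPred_eq, Set.mem_ofPred_eq,
      smul_eq_mul, mul_smul, lab.eqv _ (H.inv_mem hg.1), inv_smul_eq_iff, g3]
  obtain ⟨F, h1, h2⟩ := split' (L := {ω | lam ω = c}) bd hα fun ξ e1 e2 => by_contra fun k =>
    (v1 ξ (freq_of bd.bk.cv hT hsub k)).elim e1 e2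
  obtain ⟨x, hx⟩ : ∃ x : G, lam (x • N.o) = c := by
    by_contra k
    exact hb (cone_case bd.cs.md bd.ps lab (not_exists.1 k) hα)
  obtain ⟨y, hy⟩ : ∃ y : G, lam (y • N.o) ≠ c := by
    obtain ⟨y, y', e⟩ := lab.non
    by_cases k : lam (y • N.o) = c
    · exact ⟨y', fun k' => e (k.trans k'.symm)⟩
    · exact ⟨y, k⟩
  obtain ⟨ξ, a1, a2, a3⟩ := exists_pt' dyn lab x c α
  obtain ⟨η, b1, b2, b3⟩ := exists_pt' dyn lab y c α
  have hc : c ∈ KK G b := isClosed_KK.mem_of_tendsto (t1 ξ a2)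
    (Eventually.of_forall fun j => (smul_mem_KK _).2 (mem_KK_of_freq a3))
  rcases side' bd.bk hα hc h1 h2 g1 g2 g3 t1 t2 with k | k
  · exact b3 (mem_of_superset (k η b1 b2) fun z hz e => hy (e.symm.trans hz))
  · exact a3 (mem_of_superset (k ξ a1 a2) fun z hz e => hz (e.trans hx))

end Pool.Agent.MP_4f4d9f_gt.Rk

end

section

/-! The cells attached to a component of the set where the label changes. -/

namespace Pool.Agent.MP_4f4d9f_gt.Rk

open Filter Topology Hy Ku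
open scoped Pointwise

namespace CelAL

variable {G Ω : Type} [Group G] [MulAction G Ω] {X : Type} {N : Net G Ω} {lam : Ω → X}
  {V : Set G} {x y : G} {ω ω' τ τ' : Ω}

/-- A connected union of components of the set where the label changes. -/
structure Cp (N : Net G Ω) (lam : Ω → X) (V : Set G) : Prop where
  cs : Cs N
  sub : V ⊆ VA N lam
  clo : ∀ u ∈ V, ∀ v ∈ VA N lam, u⁻¹ * v ∈ N.S → v ∈ V
  conn : Cnn N.S V

theorem self (ω : Ω) : ω ∈ cel N lam V ω := Relation.ReflTransGen.refl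

theorem symm (e : ω' ∈ cel N lam V ω) : ω ∈ cel N lam V ω' := by
  induction e with
  | refl => exact self _
  | tail _ k ih =>
    obtain ⟨x, τ, h1, h2, h3⟩ := k
    exact Relation.ReflTransGen.head ⟨x, τ, h1, h2.symm.imp And.symm And.symm, h3⟩ ih

theorem eqv (e : ω' ∈ cel N lam V ω) : cel N lam V ω' = cel N lam V ω :=
  Set.ext fun _ => ⟨fun k => Relation.ReflTransGen.trans e k,
    fun k => Relation.ReflTransGen.trans (symm e) k⟩

theorem edge (hτ : τ ∈ N.T) (k : Cr (cel N lam V ω) (x • N.o) (x • τ)) :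
    x ∈ V ∧ lam (x • τ) ≠ lam (x • N.o) := by
  by_contra c
  have r : x ∈ V → lam (x • τ) = lam (x • N.o) := fun a => not_not.1 fun b => c ⟨a, b⟩
  exact k ⟨fun a => Relation.ReflTransGen.tail a ⟨x, τ, hτ, Or.inl ⟨rfl, rfl⟩, r⟩,
    fun a => Relation.ReflTransGen.tail a ⟨x, τ, hτ, Or.inr ⟨rfl, rfl⟩, r⟩⟩

theorem out : Bdy N (cel N lam V ω) ⊆ V := fun _ ⟨_, hτ, k⟩ => (edge hτ k).1

/-- A set that is not crossed by the edges of a cell is constant on the cell. -/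
theorem const {F : Set Ω} (e : ω' ∈ cel N lam V ω)
    (h : ∀ x : G, ∀ τ ∈ N.T, x • N.o ∈ cel N lam V ω → x • τ ∈ cel N lam V ω →
      (x ∈ V → lam (x • τ) = lam (x • N.o)) → ¬ Cr F (x • N.o) (x • τ)) : ω ∈ F ↔ ω' ∈ F := by
  induction e with
  | refl => rfl
  | tail a k ih =>
    have b := Relation.ReflTransGen.tail a k
    obtain ⟨x, τ, h1, ⟨rfl, rfl⟩ | ⟨rfl, rfl⟩, h3⟩ := k
    · exact ih.trans (not_not.1 (h x τ h1 a b h3))
    · exact ih.trans (not_not.1 (h x τ h1 b a h3)).symm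

omit [MulAction G Ω] in
theorem mem_mul {s : G} (hs : s ∈ N.S) (u : G) : u⁻¹ * (u * s) ∈ N.S := by
  rwa [inv_mul_cancel_left]

theorem cut (h : Cs N) (L : Set Ω) (Q A : Set G) (hA : Bdy N L ⊆ A)
    (hQ : ∀ u ∈ Q, ∀ v ∈ A, u⁻¹ * v ∈ N.S → v ∈ Q) :
    ∃ F : Set Ω, ∀ x : G, ∀ τ ∈ N.T,
      Cr F (x • N.o) (x • τ) ↔ Cr L (x • N.o) (x • τ) ∧ x ∈ Q :=
  h.cut0 L Q fun u hu _ hs hv k => k
    ⟨fun a => hQ u a _ (hA hv) (mem_mul hs u),
      fun a => hQ _ a u (hA hu) (h.md.gen.symm (mem_mul hs u))⟩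

theorem Cp.lconst (h : Cp N lam V) (hx : x ∈ V) (hτ : τ ∈ N.T) (hy : y ∈ V) (hτ' : τ' ∈ N.T)
    (e : y • τ' ∈ cel N lam V (x • τ)) : lam (y • τ') = lam (x • τ) := by
  obtain ⟨F, hF⟩ := cut h.cs {z | lam z = lam (x • τ)} V (VA N lam)
    (fun z ⟨s, hs, k⟩ => ⟨s, hs, fun a => k (by
      change lam (z • N.o) = lam (x • τ) ↔ lam (z • s) = lam (x • τ)
      rw [a])⟩) h.clo
  have h1 : x • τ ∈ F ↔ y • τ' ∈ F := const e fun z s hs _ _ k c => by
    obtain ⟨c1, c2⟩ := (hF z s hs).1 c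
    refine c1 ?_
    change lam (z • N.o) = lam (x • τ) ↔ lam (z • s) = lam (x • τ)
    rw [k c2]
  have h2 : ∀ z ∈ V, ∀ s ∈ N.T, (z • N.o ∈ F ↔ lam (z • N.o) = lam (x • τ)) ↔
      (z • s ∈ F ↔ lam (z • s) = lam (x • τ)) := fun z hz s hs => by
    have h3 : ¬ (z • N.o ∈ F ↔ z • s ∈ F) ↔
        ¬ (lam (z • N.o) = lam (x • τ) ↔ lam (z • s) = lam (x • τ)) :=
      (hF z s hs).trans (and_iff_left hz)
    tauto
  have h3 : (x • N.o ∈ F ↔ lam (x • N.o) = lam (x • τ)) ↔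
      (y • N.o ∈ F ↔ lam (y • N.o) = lam (x • τ)) :=
    (h.conn x hx y hy).ind (P := fun y => (x • N.o ∈ F ↔ lam (x • N.o) = lam (x • τ)) ↔
      (y • N.o ∈ F ↔ lam (y • N.o) = lam (x • τ))) Iff.rfl fun a b ha _ k ih => by
        obtain ⟨s, hs, c⟩ := h.cs.md.edge k
        exact ih.trans (c ▸ h2 a ha.right s hs)
  have h4 := h2 x hx τ hτ
  have h5 := h2 y hy τ' hτ'
  simp only [iff_true] at h4
  tauto

theorem Cp.bin (h : Cp N lam V) (hx : x ∈ V) : x ∈ Bdy N (cel N lam V (x • N.o)) := by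
  obtain ⟨s, hs, k⟩ := h.sub hx
  exact ⟨s, hs, fun a => k (h.lconst hx h.cs.md.o_mem hx hs (a.1 (self _)))⟩

theorem Cp.bcon' (h : Cp N lam V) {D : Set Ω} (hD : D = cel N lam V ω) {y₁ : G}
    (h2 : y₁ ∈ Bdy N D) : ∀ y ∈ Bdy N D, Conn N.S (Bdy N D) y₁ y := by
  have md := h.cs.md
  have hout : Bdy N D ⊆ V := hD ▸ out
  have hbin : ∀ u ∈ V, u • N.o ∈ D → u ∈ Bdy N D := fun u hv hu => by
    rw [hD] at hu ⊢
    rw [← eqv hu]
    exact h.bin hv
  obtain ⟨F, hF, h3⟩ : ∃ F : Set Ω, (∀ u : G, ∀ s ∈ N.T,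
      Cr F (u • N.o) (u • s) ↔ Cr D (u • N.o) (u • s) ∧ Conn N.S (Bdy N D) y₁ u) ∧ ω ∈ F := by
    obtain ⟨F, hF⟩ := cut h.cs D {z | Conn N.S (Bdy N D) y₁ z} _ subset_rfl
      fun u hu v hv e => Conn.tail hu hv e
    by_cases k : ω ∈ F
    · exact ⟨F, hF, k⟩
    · exact ⟨Fᶜ, fun u s hs => cr_compl.trans (hF u s hs), k⟩
  have h4 : D ⊆ F := fun u hu => (const (hD ▸ hu) fun z s hs a b _ c =>
    ((hF z s hs).1 c).1 (iff_of_true (hD ▸ a) (hD ▸ b))).1 h3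
  have h6 : ∀ u ∈ Bdy N D, u • N.o ∉ D → (u • N.o ∉ F ↔ Conn N.S (Bdy N D) y₁ u) := by
    rintro u ⟨s, hs, c⟩ k
    have b1 : u • s ∈ F := h4 (by_contra fun b1 => c (iff_of_false k b1))
    exact ⟨fun a => ((hF u s hs).1 fun d => a (d.2 b1)).2,
      fun a d => (hF u s hs).2 ⟨c, a⟩ (iff_of_true d b1)⟩
  intro y hy
  have h5 : Conn N.S (Bdy N D) y₁ y ∨ y • N.o ∉ F := by
    refine (h.conn y₁ (hout h2) y (hout hy)).ind
      (P := fun u => Conn N.S (Bdy N D) y₁ u ∨ u • N.o ∉ F) (Or.inl (Conn.refl h2))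
      fun a b _ hb e ih => or_iff_not_imp_right.2 fun k => ?_
    rw [not_not] at k
    obtain ⟨s, hs, c⟩ := md.edge e
    have key : a • N.o ∉ F → Conn N.S (Bdy N D) y₁ b := fun a1 => by
      obtain ⟨c1, c2⟩ := (hF a s hs).1 fun d => a1 (d.2 (c ▸ k))
      exact c2.tail (md.bdy_right (c ▸ c1) e) e
    rcases ih with a2 | a1
    · by_cases b1 : b ∈ Bdy N D
      · exact a2.tail b1 e
      · refine key ((h6 a a2.right fun d => b1 (md.bdy_right (fun d' => ?_) e)).2 a2)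
        exact b1 (hbin b hb (d'.1 d))
    · exact key a1
  exact h5.elim id fun k => (h6 y hy fun d => k (h4 d)).1 k

theorem Cp.bcon (h : Cp N lam V) : Cnn N.S (Bdy N (cel N lam V ω)) :=
  fun _ hy z hz => h.bcon' rfl hy z hz

theorem Cp.bsub (h : Cp N lam V) (hx : x ∈ V) (hτ : τ ∈ N.T) :
    Bdy N (cel N lam V (x • τ)) ⊆ Bdy N {z | lam z = lam (x • τ)} := by
  rintro y ⟨s, hs, c⟩
  obtain ⟨c1, c2⟩ := edge hs c
  refine ⟨s, hs, fun (a : lam (y • N.o) = lam (x • τ) ↔ lam (y • s) = lam (x • τ)) => c2 ?_⟩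
  by_cases k : y • N.o ∈ cel N lam V (x • τ)
  · have := h.lconst hx hτ c1 h.cs.md.o_mem k
    rw [this, a.1 this]
  · have := h.lconst hx hτ c1 hs (not_not.1 fun b => c (iff_of_false k b))
    rw [this, a.2 this]

end CelAL

open CelAL in
theorem celA_stmt : CelAStmt := by
  intro G Ω _ _ X _ _ _ _ N b pos B lam H bd lab t10
  have hS := bd.cs.md.gen
  refine ⟨fun x₀ => ?_, fun ξ hξ => ?_⟩
  swap
  · by_contra c
    obtain ⟨a, a1, a2⟩ := lab.out ξ (mem_KK_of_freq hξ) c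
    have a4 := t10 a ξ a1.symm
    have a3 := (bd.lc ξ _ a4).resolve_right a2
    refine hξ ?_
    filter_upwards [a3, a4] with x e1 e2 hx
    obtain ⟨s, hs, e⟩ := hx
    exact e (Eq.trans ((side_of_notMem e2 hs).1 e1) (Eq.symm e1))
  have cp : Cp N lam (VV N lam x₀) :=
    ⟨bd.cs, fun x hx => Conn.right hx, fun u hu v hv e => Conn.tail hu hv e, cnn_comp hS _ _⟩
  have hA : ∀ h ∈ H, h • VA N lam ⊆ VA N lam := by
    rintro h hh _ ⟨x, ⟨s, hs, k⟩, rfl⟩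
    refine ⟨s, hs, fun e => k (MulAction.injective h ?_)⟩
    change h • lam (x • s) = h • lam (x • N.o)
    rw [← lab.eqv h hh, ← lab.eqv h hh, ← mul_smul, ← mul_smul]
    exact e
  have p1 : ∀ h ∈ H, ∀ x ∈ VV N lam x₀, h * x ∈ VV N lam x₀ → ∀ y ∈ VV N lam x₀,
      h * y ∈ VV N lam x₀ := fun h hh x hx k y hy =>
    Conn.trans k (((Conn.trans (Conn.symm hS hx) hy).smul h).mono (hA h hh))
  have p2 : ∀ h ∈ H, ∀ x ∈ VV N lam x₀, h * x ∈ VV N lam x₀ →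
      h ∈ H ⊓ MulAction.stabilizer G (VV N lam x₀) := fun h hh x hx k =>
    ⟨hh, Set.Subset.antisymm (by
      rintro _ ⟨y, hy, rfl⟩
      exact p1 h hh x hx k y hy) fun y hy => Set.mem_smul_set_iff_inv_smul_mem.2
        (p1 _ (H.inv_mem hh) _ k (by rwa [inv_mul_cancel_left]) y hy)⟩
  generalize VV N lam x₀ = V at cp p2
  have q1 : ∀ h ∈ H ⊓ MulAction.stabilizer G V, ∀ x, h * x ∈ V ↔ x ∈ V := fun h hh x => by
    conv_lhs => rw [← MulAction.mem_stabilizer_iff.1 hh.2]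
    exact Set.smul_mem_smul_set_iff
  have q2 : ∀ h ∈ H ⊓ MulAction.stabilizer G V, ∀ ω, ∀ ω' ∈ cel N lam V ω,
      h • ω' ∈ cel N lam V (h • ω) := fun h hh ω ω' e => by
    induction e with
    | refl => exact self _
    | tail _ k ih =>
      obtain ⟨x, τ, k1, k2, k3⟩ := k
      refine Relation.ReflTransGen.tail ih ⟨h * x, τ, k1, ?_, fun a => ?_⟩
      · simp only [mul_smul, smul_left_cancel_iff]
        exact k2
      · rw [mul_smul, mul_smul, lab.eqv h hh.1, lab.eqv h hh.1, k3 ((q1 h hh _).1 a)]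
  refine ⟨H ⊓ MulAction.stabilizer G V, fun h hh x hx => (q1 h hh x).2 hx, ?_, cp.conn,
    self, fun x y e => eqv e, fun h hh x => ?_, fun h hh => lab.eqv h hh.1,
    fun x => out, fun x => cp.bin, fun x => cp.bcon,
    fun x hx τ hτ y hy τ' hτ' => cp.lconst hx hτ hy hτ',
    fun x hx τ hτ ξ e => mem_of_superset (t10 (lam (x • τ)) ξ e)
      (Set.compl_subset_compl.2 (cp.bsub hx hτ))⟩
  · obtain ⟨T, h1, h2⟩ := lab.orb
    have h3 : ∀ t : G, ∃ k ∈ H, ∀ h ∈ H, h * t ∈ V → k * t ∈ V := fun t => by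
      by_cases c : ∃ h ∈ H, h * t ∈ V
      · obtain ⟨k, c1, c2⟩ := c
        exact ⟨k, c1, fun _ _ _ => c2⟩
      · exact ⟨1, H.one_mem, fun h c1 c2 => absurd ⟨h, c1, c2⟩ c⟩
    choose k k1 k2 using h3
    refine ⟨_, h1.image fun t => k t * t, fun x hx => ?_⟩
    obtain ⟨s, hs, e⟩ := cp.sub hx
    obtain ⟨h, a1, a2⟩ := h2 x s hs e
    refine ⟨h * (k (h⁻¹ * x))⁻¹, p2 _ (H.mul_mem a1 (H.inv_mem (k1 _))) _
      (k2 (h⁻¹ * x) h a1 (by rwa [mul_inv_cancel_left])) (by simpa [mul_assoc] using hx),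
      h⁻¹ * x, a2, by simp [mul_assoc]⟩
  · refine Set.Subset.antisymm (fun y hy => Set.mem_smul_set_iff_inv_smul_mem.2 ?_) ?_
    · have := q2 _ (Subgroup.inv_mem _ hh) _ y hy
      rwa [inv_smul_smul] at this
    · rintro _ ⟨y, hy, rfl⟩
      exact q2 h hh x y hy

end Pool.Agent.MP_4f4d9f_gt.Rk

end

section

/-! Two cells with infinite boundary and different labels. -/

namespace Pool.Agent.MP_4f4d9f_gt.Rk

open Filter Topology Hy Ku

namespace CelBL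

variable {G Ω : Type} [Group G] [MulAction G Ω] {X : Type} [MetricSpace X] [MulAction G X]
  {N : Net G Ω} {b : X} {pos : Ω → X} {B : Set X} {lam : Ω → X} {H : Subgroup G}

/-- A ray on which the label is eventually a given one, away from the changes of label. -/
theorem ray [ContinuousConstSMul G X] (bd : Bd N b pos) (dyn : Dyn N.S b)
    (lab : Lab N b pos B lam H) (t10 : T10 N b lam) (x : G) :
    ∃ p, IsRay N.S p ∧ ∀ᶠ n in atTop, lam (p n • N.o) = lam (x • N.o) ∧ p n ∉ VA N lam := by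
  obtain ⟨O, h1, ⟨ξ, h2⟩, h3⟩ := lab.opn x
  obtain ⟨β, h4, h5⟩ :=
    (dyn.perf ξ h2.2 O (h1.mem_nhds h2.1)).exists_notMem_finite
      (Set.finite_singleton (lam (x • N.o)))
  obtain ⟨a, -, ha⟩ := dyn.three
  have h6 : O ∩ {lam (x • N.o)}ᶜ ∈ 𝓝 β :=
    (h1.inter isClosed_singleton.isOpen_compl).mem_nhds ⟨h4.1, h5⟩
  obtain ⟨g, h7, h8⟩ := (dyn.dens (a 0) β h4.2 _ h6).exists
  have h9 : Ac N.S b Set.univ (g • a 0) := (ha 0).smul fun _ _ => trivial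
  have k0 := t10 (lam (x • N.o)) _ h8
  have k1 : tr N {ω | lam ω = lam (x • N.o)} ∈ nf G b (g • a 0) :=
    (bd.lc _ _ k0).resolve_right fun e => h3 _ ⟨h7, h9.mem⟩ e
  have k2 : ∀ᶠ y in nf G b (g • a 0), lam (y • N.o) = lam (x • N.o) ∧ y ∉ VA N lam := by
    filter_upwards [k1, k0] with y e1 e2
    refine ⟨e1, ?_⟩
    rintro ⟨τ, hτ, e3⟩
    exact e3 (((side_of_notMem e2 hτ).1 e1).trans (Eq.symm e1))
  obtain ⟨p, e1, -, e3⟩ := h9
  exact ⟨p, e1, (e1.nf e3).eventually k2⟩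

omit [MetricSpace X] [MulAction G X] in
/-- Cells do not cross the cut. -/
theorem side {c : X} {V : Set G} {F : Set Ω}
    (hF : ∀ u : G, ∀ τ ∈ N.T, Cr F (u • N.o) (u • τ) ↔
      Cr {ω | lam ω = c} (u • N.o) (u • τ) ∧ u ∈ V) {x y : Ω}
    (h : y ∈ cel N lam V x) : x ∈ F ↔ y ∈ F := by
  induction h with
  | refl => rfl
  | @tail u v _ h2 ih =>
    obtain ⟨z, τ, hτ, h3, h4⟩ := h2
    have e : z • N.o ∈ F ↔ z • τ ∈ F := not_not.1 fun k => by
      obtain ⟨k1, k2⟩ := (hF z τ hτ).1 k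
      exact k1 (by simp only [Set.mem_ofPred_eq, h4 k2])
    rcases h3 with ⟨rfl, rfl⟩ | ⟨rfl, rfl⟩
    · exact ih.trans e
    · exact ih.trans e.symm

omit [MetricSpace X] [MulAction G X] in
/-- The cell of a point far out on a ray is infinite. -/
theorem inf (md : Mod N) {p : ℕ → G} {x₀ : G} (hp : IsRay N.S p) {M : ℕ}
    (hM : ∀ n, M ≤ n → p n ∉ VA N lam) :
    (tr N (cel N lam (VV N lam x₀) (p M • N.o))).Infinite := by
  have key : ∀ n, M ≤ n → p n ∈ tr N (cel N lam (VV N lam x₀) (p M • N.o)) := fun n hn => by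
    induction n, hn using Nat.le_induction with
    | base => exact Relation.ReflTransGen.refl
    | succ n hn ih =>
      obtain ⟨τ, hτ, e⟩ := md.edge (hp.step n)
      exact Relation.ReflTransGen.tail ih ⟨p n, τ, hτ, Or.inl ⟨rfl, e.symm⟩,
        fun e => absurd (Conn.right e) (hM n hn)⟩
  intro e
  obtain ⟨n, e1, e2⟩ := ((hp.notMem e).and (eventually_ge_atTop M)).exists
  exact e1 (key n e2)

/-- A cell with infinite boundary is the cell of a neighbour of a point of `V`. -/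
theorem pick {V : Set G} {D : Ω → Set Ω} (cs : Cs N) (ce : Cel N b lam H V D) {u : Ω}
    (h1 : (tr N (D u)).Infinite) (h2 : (tr N (D u))ᶜ.Infinite) :
    ∃ x ∈ V, ∃ τ ∈ N.T, x • τ ∈ D u ∧ (Bdy N (D (x • τ))).Infinite := by
  have h3 : (Bdy N (D u)).Infinite := fun e => (cs.one _ e).elim h1 h2
  obtain ⟨v, hv⟩ := h3.nonempty
  obtain ⟨τ, hτ, e⟩ := cs.md.bdy_in hv
  exact ⟨v, ce.out u hv, τ, hτ, e, by rwa [ce.eqv u _ e]⟩

/-- Along paths in the component the two cuts agree. -/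
theorem agree (md : Mod N) {A : Set G} {L F : Set Ω} {x₀ : G}
    (hF : ∀ u : G, ∀ τ ∈ N.T, Cr F (u • N.o) (u • τ) ↔
      Cr L (u • N.o) (u • τ) ∧ Conn N.S A x₀ u) {z : G}
    (h : Conn N.S A x₀ z) {τ : Ω} (hτ : τ ∈ N.T) :
    (x₀ • N.o ∈ F ↔ z • τ ∈ F) ↔ (x₀ • N.o ∈ L ↔ z • τ ∈ L) := by
  have step : ∀ u, Conn N.S A x₀ u → ∀ σ ∈ N.T,
      ((x₀ • N.o ∈ F ↔ u • N.o ∈ F) ↔ (x₀ • N.o ∈ L ↔ u • N.o ∈ L)) →
      ((x₀ • N.o ∈ F ↔ u • σ ∈ F) ↔ (x₀ • N.o ∈ L ↔ u • σ ∈ L)) := fun u hu σ hσ ih => by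
    have k := hF u σ hσ
    simp only [Cr, hu, and_true, not_iff_not] at k
    clear hF
    tauto
  refine step z h τ hτ (h.ind
    (P := fun z => (x₀ • N.o ∈ F ↔ z • N.o ∈ F) ↔ (x₀ • N.o ∈ L ↔ z • N.o ∈ L)) (by simp)
    fun u v hu _ e ih => ?_)
  obtain ⟨σ, hσ, e'⟩ := md.edge e
  exact e' ▸ step u hu σ hσ ih

end CelBL

open CelBL in
theorem celB_stmt : CelBStmt := by
  intro G Ω _ _ X _ _ _ _ N b pos B lam H bd dyn lab t10 ca
  have md := bd.cs.md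
  obtain ⟨x₁, y₁, hne⟩ := lab.non
  obtain ⟨p, hp, h1⟩ := ray bd dyn lab t10 x₁
  obtain ⟨q, hq, h2⟩ := ray bd dyn lab t10 y₁
  obtain ⟨M, hM⟩ := eventually_atTop.1 (h1.and h2)
  have hL : Bdy N {ω | lam ω = lam (x₁ • N.o)} ⊆ VA N lam := by
    rintro x ⟨s, hs, e⟩
    exact ⟨s, hs, fun k => e (by simp only [Set.mem_ofPred_eq, k])⟩
  have hc : Cr {ω | lam ω = lam (x₁ • N.o)} (p M • N.o) (q M • N.o) := fun e =>
    hne ((e.1 (hM M le_rfl).1.1).symm.trans (hM M le_rfl).2.1)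
  obtain ⟨x₀, F, hF, hpq⟩ := bd.cs.par _ _ hL _ _ hc
  obtain ⟨H', ce⟩ := ca x₀
  have i1 := inf (x₀ := x₀) md hp fun n hn => (hM n hn).1.2
  have i2 := inf (x₀ := x₀) md hq fun n hn => (hM n hn).2.2
  have dj : ∀ y ∈ cel N lam (VV N lam x₀) (p M • N.o),
      y ∈ cel N lam (VV N lam x₀) (q M • N.o) → False :=
    fun y e1 e2 => hpq ((side (V := VV N lam x₀) hF e1).trans (side (V := VV N lam x₀) hF e2).symm)
  obtain ⟨x, a1, τ, hτ, a2, a3⟩ := pick bd.cs ce i1 (i2.mono fun y e k => dj _ k e)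
  obtain ⟨y, b1, σ, hσ, b2, b3⟩ := pick bd.cs ce i2 (i1.mono fun y e k => dj _ e k)
  refine ⟨x₀, x, a1, τ, hτ, y, b1, σ, hσ, fun e => ?_, a3, b3⟩
  have c1 := side (V := VV N lam x₀) hF a2
  have c2 := side (V := VV N lam x₀) hF b2
  have c3 := agree md hF a1 hτ
  have c4 := agree md hF b1 hσ
  have c5 : x • τ ∈ {ω | lam ω = lam (x₁ • N.o)} ↔ y • σ ∈ {ω | lam ω = lam (x₁ • N.o)} := by
    simp only [Set.mem_ofPred_eq, e]
  have c6 := c3.trans ((iff_congr Iff.rfl c5).trans c4.symm)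
  refine hpq (c1.trans (Iff.trans ?_ c2.symm))
  by_cases c7 : x₀ • N.o ∈ F
  · simpa only [c7, true_iff] using c6
  · simpa only [c7, false_iff, not_iff_not] using c6

end Pool.Agent.MP_4f4d9f_gt.Rk

end
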