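import Pool.Agent.Mg.F4f4d9fr.G30dcc0

set_option linter.all false

/-! Two cells with infinite boundary and different labels. -/

namespace Pool.Agent.MP_4f4d9f_gt.Ku

open Filter Topology Hy

namespace CelBL

variable {G : Type} [Group G] {X : Type} [MetricSpace X] [MulAction G X]
  {S : Finset G} {b : X} {B : Set X} {lam : G → X} {H : Subgroup G}

/-- A ray on which the label is eventually a given one, away from the changes of label. -/
theorem ray [ContinuousConstSMul G X] (bd : Bd S b) (dyn : Dyn S b) (lab : Lab S b B lam H)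
    (sp : ∀ c, Sp b c {x | lam x = c}) (x : G) :
    ∃ p, IsRay S p ∧ ∀ᶠ n in atTop, lam (p n) = lam x ∧ p n ∉ VA S lam := by
  obtain ⟨O, h1, ⟨ξ, h2⟩, h3⟩ := lab.opn x
  obtain ⟨β, h4, h5⟩ :=
    (dyn.perf ξ h2.2 O (h1.mem_nhds h2.1)).exists_notMem_finite (Set.finite_singleton (lam x))
  obtain ⟨a, -, ha⟩ := dyn.three
  have h6 : O ∩ {lam x}ᶜ ∈ 𝓝 β :=
    (h1.inter isClosed_singleton.isOpen_compl).mem_nhds ⟨h4.1, h5⟩
  obtain ⟨g, h7, h8⟩ := (dyn.dens (a 0) β h4.2 _ h6).exists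
  have h9 : Ac S b Set.univ (g • a 0) := (ha 0).smul fun _ _ => trivial
  have k1 : {y | lam y = lam x} ∈ nf G b (g • a 0) :=
    (sp (lam x) _ h8).resolve_right fun e => h3 _ ⟨h7, h9.mem⟩ e
  have k2 : ∀ᶠ y in nf G b (g • a 0), lam y = lam x ∧ y ∉ VA S lam := by
    filter_upwards [k1, (eventually_all_finset S).2 fun s _ => bd.cv.nf_right s k1] with y e1 e2
    refine ⟨e1, ?_⟩
    rintro ⟨s, hs, e3⟩
    exact e3 ((e2 s hs).trans (Eq.symm e1))
  obtain ⟨p, e1, -, e3⟩ := h9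
  exact ⟨p, e1, (e1.nf e3).eventually k2⟩

omit [MetricSpace X] [MulAction G X] in
/-- Cells do not cross the cut. -/
theorem side {c : X} {V F : Set G}
    (hF : ∀ u, ∀ s ∈ S, Cr F u (u * s) ↔ Cr {x | lam x = c} u (u * s) ∧ u ∈ V) {x y : G}
    (h : y ∈ cel S lam V x) : x ∈ F ↔ y ∈ F := by
  induction h with
  | refl => rfl
  | @tail u v _ h2 ih =>
    have e := hF u _ h2.1
    rw [mul_inv_cancel_left] at e
    refine ih.trans (not_not.1 fun k => ?_)
    obtain ⟨k1, k2⟩ := e.1 k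
    exact k1 (by simp only [Set.mem_ofPred_eq, h2.2 k2])

omit [MetricSpace X] [MulAction G X] in
/-- The cell of a point far out on a ray is infinite. -/
theorem inf {p : ℕ → G} {x₀ : G} (hp : IsRay S p) {N : ℕ} (hN : ∀ n, N ≤ n → p n ∉ VA S lam) :
    (cel S lam (VV S lam x₀) (p N)).Infinite := by
  have key : ∀ n, N ≤ n → p n ∈ cel S lam (VV S lam x₀) (p N) := fun n hn => by
    induction n, hn using Nat.le_induction with
    | base => exact Relation.ReflTransGen.refl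
    | succ n hn ih =>
      exact Relation.ReflTransGen.tail ih ⟨hp.step n, fun e => absurd (Conn.right e) (hN n hn)⟩
  intro e
  obtain ⟨n, e1, e2⟩ := ((hp.notMem e).and (eventually_ge_atTop N)).exists
  exact e1 (key n e2)

/-- A cell with infinite boundary is the cell of a point of `V`. -/
theorem pick {V : Set G} {D : G → Set G} (cs : Cs S) (ce : Cel S b B lam H V D) {u : G}
    (h1 : (D u).Infinite) (h2 : (D u)ᶜ.Infinite) :
    ∃ x ∈ V, x ∈ D u ∧ (Bdy S (D x)).Infinite := by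
  have h3 : (Bdy S (D u)).Infinite := fun e => (cs.one _ e).elim h1 h2
  obtain ⟨v, hv⟩ := h3.nonempty
  have key : ∀ x ∈ Bdy S (D u), x ∈ D u → ∃ x ∈ V, x ∈ D u ∧ (Bdy S (D x)).Infinite :=
    fun x e1 e2 => ⟨x, ce.out u e1, e2, by rwa [ce.eqv u x e2]⟩
  by_cases e : v ∈ D u
  · exact key v hv e
  · obtain ⟨s, hs, e1⟩ := hv
    refine key (v * s) (Cr.right cs.gen e1 (by simpa using hs)) ?_
    by_contra e2
    exact e1 (iff_of_false e e2)

/-- Along paths in the component the two cuts agree. -/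
theorem agree {A L F : Set G} {x₀ : G}
    (hF : ∀ u, ∀ s ∈ S, Cr F u (u * s) ↔ Cr L u (u * s) ∧ Conn S A x₀ u) {z : G}
    (h : Conn S A x₀ z) : (x₀ ∈ F ↔ z ∈ F) ↔ (x₀ ∈ L ↔ z ∈ L) :=
  h.ind (P := fun z => (x₀ ∈ F ↔ z ∈ F) ↔ (x₀ ∈ L ↔ z ∈ L)) (by simp) fun u v hu _ e ih => by
    have k := hF u _ e
    rw [mul_inv_cancel_left] at k
    simp only [Cr, hu, and_true] at k
    tauto

end CelBL

open CelBL in
theorem celB_stmt : CelBStmt := by
  intro G _ X _ _ _ _ S b B lam H bd dyn lab sp ca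
  obtain ⟨x₁, y₁, hne⟩ := lab.non
  obtain ⟨p, hp, h1⟩ := ray bd dyn lab sp x₁
  obtain ⟨q, hq, h2⟩ := ray bd dyn lab sp y₁
  obtain ⟨N, hN⟩ := eventually_atTop.1 (h1.and h2)
  have hL : Bdy S {x | lam x = lam x₁} ⊆ VA S lam := by
    rintro x ⟨s, hs, e⟩
    exact ⟨s, hs, fun k => e (by simp only [Set.mem_ofPred_eq, k])⟩
  have hc : Cr {x | lam x = lam x₁} (p N) (q N) := fun e =>
    hne ((e.1 (hN N le_rfl).1.1).symm.trans (hN N le_rfl).2.1)
  obtain ⟨x₀, F, hF, hpq⟩ := bd.cs.par _ _ hL _ _ hc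
  obtain ⟨H', ce⟩ := ca x₀
  have i1 := inf (x₀ := x₀) hp fun n hn => (hN n hn).1.2
  have i2 := inf (x₀ := x₀) hq fun n hn => (hN n hn).2.2
  have dj : ∀ y ∈ cel S lam (VV S lam x₀) (p N), y ∈ cel S lam (VV S lam x₀) (q N) → False :=
    fun y e1 e2 => hpq ((side (V := VV S lam x₀) hF e1).trans (side (V := VV S lam x₀) hF e2).symm)
  obtain ⟨x, a1, a2, a3⟩ := pick bd.cs ce i1 (i2.mono fun y e k => dj y k e)
  obtain ⟨y, b1, b2, b3⟩ := pick bd.cs ce i2 (i1.mono fun y e k => dj y e k)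
  refine ⟨x₀, x, a1, y, b1, fun e => ?_, a3, b3⟩
  have c1 := side (V := VV S lam x₀) hF a2
  have c2 := side (V := VV S lam x₀) hF b2
  have c3 := agree hF a1
  have c4 := agree hF b1
  have c5 : x ∈ {x | lam x = lam x₁} ↔ y ∈ {x | lam x = lam x₁} := by
    simp only [Set.mem_ofPred_eq, e]
  refine hpq ?_
  tauto

end Pool.Agent.MP_4f4d9f_gt.Ku
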