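import Pool.Agent.Mg.F4f4d9fr.G69af78

set_option linter.all false

section

/-! The signed Alexander-Whitney diagonal and equivariant homotopies on the bar complex. -/

namespace Pool.Agent.MP_4f4d9f_gt.Hy

open Finsupp Sg Sg.Tup

namespace DualZL

section AW

variable (R : Type) [CommRing R] {G : Type}

/-- The cone operator in the first factor. -/
noncomputable def cl (a : G) : (Cell G →₀ R) →ₗ[R] (Cell G →₀ R) :=
  lmapDomain R R (Prod.map (cons a) id)

/-- The augmentation in the first factor. -/
noncomputable def el1 : (Cell G →₀ R) →ₗ[R] (Tup G →₀ R) :=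
  linearCombination R fun c => if c.1.deg = 0 then single c.2 1 else 0

/-- The diagonal of a tuple. -/
noncomputable def aw1 : G → List G → (Cell G →₀ R)
  | a, [] => single (pt a, pt a) 1
  | a, b :: l => single (pt a, ⟨a, b :: l⟩) 1 + cl R a (aw1 b l)

/-- The diagonal. -/
noncomputable def aw : (Tup G →₀ R) →ₗ[R] (Cell G →₀ R) :=
  linearCombination R fun x => aw1 R x.hd x.tl

variable {R}

theorem ind2 {P : (Cell G →₀ R) → Prop} (h0 : P 0) (hadd : ∀ x y, P x → P y → P (x + y))
    (hs : ∀ (r : R) x, P x → P (r • x))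
    (h1 : ∀ x y : Tup G, P (prR R (single x 1) (single y 1))) (c : Cell G →₀ R) : P c :=
  ind1 h0 hadd hs (fun b => by simpa only [prR_single, mul_one] using h1 b.1 b.2) c

theorem cl_prR (a : G) (u w : Tup G →₀ R) : cl R a (prR R u w) = prR R (cn R a u) w := by
  rw [cl, lmapDomain_apply, mapDomain_prR, mapDomain_id]
  rfl

theorem el1_single (c : Cell G) :
    el1 R (single c 1) = if c.1.deg = 0 then single c.2 1 else 0 := by
  rw [el1, linearCombination_single, one_smul]

theorem el1_prR (u w : Tup G →₀ R) : el1 R (prR R u w) = eps R u • w := by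
  induction u using ind1 with
  | h0 => simp
  | hadd x y hx hy => simp only [map_add, LinearMap.add_apply, hx, hy, add_smul]
  | hs r x hx => simp only [map_smul, LinearMap.smul_apply, hx, smul_eq_mul, mul_smul]
  | h1 x =>
    induction w using ind1 with
    | h0 => simp
    | hadd x y hx hy => simp only [map_add, hx, hy, smul_add]
    | hs r x hx => rw [map_smul, map_smul, hx, smul_comm]
    | h1 y =>
      rw [prR_single, mul_one, el1_single, eps_single]
      split_ifs <;> simp

theorem aw_pt (a : G) : aw R (single (pt a) 1) = prR R (single (pt a) 1) (single (pt a) 1) := by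
  simp [aw, pt, aw1, prR_single]

theorem aw_cn (a : G) (c : Tup G →₀ R) :
    aw R (cn R a c) = prR R (single (pt a) 1) (cn R a c) + cl R a (aw R c) := by
  induction c using ind1 with
  | h0 => simp
  | hadd x y hx hy => simp only [map_add, hx, hy]; abel
  | hs r x hx => simp only [map_smul, hx, smul_add]
  | h1 x => simp [aw, cn_single, Tup.cons, aw1, prR_single]

theorem el1_cl (a : G) (c : Cell G →₀ R) : el1 R (cl R a c) = 0 := by
  induction c using ind2 with
  | h0 => simp
  | hadd x y hx hy => simp [hx, hy]
  | hs r x hx => simp [hx]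
  | h1 x y => rw [cl_prR, el1_prR, eps_cn, zero_smul]

theorem el1_aw (c : Tup G →₀ R) : el1 R (aw R c) = c := by
  induction c using ind1 with
  | h0 => simp
  | hadd x y hx hy => simp [hx, hy]
  | hs r x hx => simp [hx]
  | h1 x =>
    induction x using Tup.induction with
    | h0 a => simp [aw_pt, el1_prR, eps_single]
    | h1 a x _ => rw [← cn_single, aw_cn, map_add, el1_cl, el1_prR]; simp [eps_single]

theorem cb_cl (a : G) (c : Cell G →₀ R) :
    cbR R (cl R a c) = c - cl R a (cbR R c) - prR R (single (pt a) 1) (el1 R c) := by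
  induction c using ind2 with
  | h0 => simp
  | hadd x y hx hy => simp only [map_add, hx, hy]; abel
  | hs r x hx => simp only [map_smul, hx, smul_sub]
  | h1 x y =>
    simp only [cl_prR, cbR_prR, bdT_cn, sg_cn, map_add, map_sub, map_neg, LinearMap.sub_apply,
      LinearMap.neg_apply, el1_prR, map_smul, LinearMap.smul_apply]
    abel

theorem cb_aw (c : Tup G →₀ R) : cbR R (aw R c) = aw R (bdT R c) := by
  induction c using ind1 with
  | h0 => simp
  | hadd x y hx hy => simp [hx, hy]
  | hs r x hx => simp [hx]
  | h1 x =>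
    induction x using Tup.induction with
    | h0 a => simp [aw_pt, cbR_prR, bdT_pt]
    | h1 a x ih =>
      rw [← cn_single, aw_cn, map_add, cb_cl, ih, el1_aw, cbR_prR]
      generalize (single x 1 : Tup G →₀ R) = u
      simp only [bdT_cn, map_sub, map_smul, aw_cn, aw_pt, bdT_pt, map_zero,
        LinearMap.zero_apply, sg_single, deg_pt, pow_zero, mul_one]
      abel

theorem aw_deg1 (x : Tup G) : ∀ e ∈ (aw R (single x 1)).support, cdeg e = x.deg := by
  classical
  induction x using Tup.induction with
  | h0 a =>
    intro e he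
    rw [aw_pt, prR_single] at he
    rw [Finset.mem_singleton.1 (support_single_subset he)]
    rfl
  | h1 a x ih =>
    intro e he
    rw [← cn_single, aw_cn, cn_single, prR_single] at he
    rcases Finset.mem_union.1 (support_add he) with he | he
    · rw [Finset.mem_singleton.1 (support_single_subset he)]
      simp [cdeg]
    · obtain ⟨e', he', rfl⟩ := Finset.mem_image.1 (mapDomain_support he)
      have := ih e' he'
      simp only [cdeg, Prod.map, deg_cons, id] at this ⊢
      omega

/-- A linear map sends a chain into a submodule if it does so for the points of the support. -/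
theorem map_mem {B M : Type} [AddCommGroup M] [Module R M] (L : (B →₀ R) →ₗ[R] M)
    (S : Submodule R M) {u : B →₀ R} (h : ∀ b ∈ u.support, L (single b 1) ∈ S) : L u ∈ S := by
  rw [← u.sum_single, Finsupp.sum, map_sum]
  refine S.sum_mem fun b hb => ?_
  rw [← smul_single_one, map_smul]
  exact S.smul_mem _ (h b hb)

theorem map_eq {B M : Type} [AddCommGroup M] [Module R M] (L L' : (B →₀ R) →ₗ[R] M)
    {u : B →₀ R} (h : ∀ b ∈ u.support, L (single b 1) = L' (single b 1)) : L u = L' u :=
  sub_eq_zero.1 (map_mem (L - L') ⊥ fun b hb => sub_eq_zero.2 (h b hb))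

theorem aw_deg {n : ℕ} {ν : Tup G →₀ R} (h : ∀ y ∈ ν.support, y.deg = n) :
    ∀ c ∈ (aw R ν).support, cdeg c = n :=
  map_mem (aw R) (supported R R {c | cdeg c = n}) fun y hy e he => (aw_deg1 y e he).trans (h y hy)

theorem deg_ind {P : Tup G → Prop}
    (h : ∀ x, (∀ y ∈ (bdT R (single x 1)).support, P y) → P x) (x : Tup G) : P x := by
  induction hn : x.deg using Nat.strong_induction_on generalizing x with
  | _ n ih => exact h x fun y hy => ih y.deg (by have := deg_of_mem_bdT hy; omega) y rfl

/-- The homotopy, by recursion on the degree. -/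
noncomputable def Hn (γ : Tup G → (Tup G →₀ R)) : ℕ → Tup G → (Tup G →₀ R)
  | 0, x => cn R x.hd (γ x - single x 1)
  | n + 1, x => cn R x.hd (γ x - single x 1 - linearCombination R (Hn γ n) (bdT R (single x 1)))

/-- The homotopy. -/
noncomputable def HH (γ : Tup G → (Tup G →₀ R)) (x : Tup G) : Tup G →₀ R := Hn γ x.deg x

theorem HH_eq (γ : Tup G → (Tup G →₀ R)) (x : Tup G) : HH γ x =
    cn R x.hd (γ x - single x 1 - linearCombination R (HH γ) (bdT R (single x 1))) := by
  induction x using Tup.induction with
  | h0 a => rw [bdT_pt, map_zero, sub_zero]; rfl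
  | h1 a x _ =>
    rw [HH, deg_cons, Hn]
    congr 2
    refine map_eq _ _ fun y hy => ?_
    have h1 := deg_of_mem_bdT hy
    rw [deg_cons, add_left_inj] at h1
    rw [linearCombination_single, linearCombination_single, HH, h1]

theorem HH_deg {γ : Tup G → (Tup G →₀ R)} (h : ∀ x, ∀ y ∈ (γ x).support, y.deg = x.deg)
    (x : Tup G) : ∀ y ∈ (HH γ x).support, y.deg = x.deg + 1 := by
  classical
  induction x using deg_ind (R := R) with
  | h x ih =>
    intro y hy
    rw [HH_eq] at hy
    obtain ⟨z, hz, rfl⟩ := Finset.mem_image.1 (mapDomain_support hy)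
    have h1 : γ x - single x 1 - linearCombination R (HH γ) (bdT R (single x 1)) ∈
        supported R R {y : Tup G | y.deg = x.deg} := by
      refine sub_mem (sub_mem (h x) (single_mem_supported R 1 rfl)) (map_mem _ _ fun b hb => ?_)
      rw [linearCombination_single, one_smul]
      exact fun e he => (ih b hb e he).trans (deg_of_mem_bdT hb)
    rw [deg_cons, show z.deg = x.deg from h1 hz]

theorem HH_key {γ : Tup G → (Tup G →₀ R)}
    (h1 : ∀ x, bdT R (γ x) = linearCombination R γ (bdT R (single x 1)))
    (h2 : ∀ x, eps R (γ x) = eps R (single x 1)) (x : Tup G) :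
    γ x = single x 1 + bdT R (HH γ x) + linearCombination R (HH γ) (bdT R (single x 1)) := by
  induction x using deg_ind (R := R) with
  | h x ih =>
    have e1 := map_eq (linearCombination R γ) (LinearMap.id + bdT R ∘ₗ linearCombination R (HH γ)
      + linearCombination R (HH γ) ∘ₗ bdT R) (u := bdT R (single x 1)) fun b hb => by
        simpa using ih b hb
    simp only [LinearMap.add_apply, LinearMap.id_apply, LinearMap.comp_apply, bdT_bdT, map_zero,
      add_zero] at e1
    have e2 := map_eq (eps R ∘ₗ linearCombination R (HH γ)) 0 (u := bdT R (single x 1))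
      fun b _ => by
        rw [LinearMap.comp_apply, linearCombination_single, one_smul, HH_eq, eps_cn]
        rfl
    simp only [LinearMap.comp_apply, LinearMap.zero_apply] at e2
    rw [HH_eq γ x, bdT_cn]
    simp only [map_sub, h1, h2, e1, e2, map_add, sub_self, zero_smul]
    abel

variable [Group G]

theorem HH_eqv {γ : Tup G → (Tup G →₀ R)} (g : G)
    (h : ∀ x, γ (g • x) = (γ x).mapDomain (g • ·)) (x : Tup G) :
    HH γ (g • x) = (HH γ x).mapDomain (g • ·) := by
  induction x using deg_ind (R := R) with
  | h x ih =>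
    have e1 := map_eq (linearCombination R (HH γ) ∘ₗ lmapDomain R R (g • ·))
      (lmapDomain R R (g • ·) ∘ₗ linearCombination R (HH γ)) (u := bdT R (single x 1))
      fun b hb => by simpa using ih b hb
    simp only [LinearMap.comp_apply, lmapDomain_apply] at e1
    rw [HH_eq γ x, HH_eq γ (g • x), ← cn_smul, smul_hd, mapDomain_sub, mapDomain_sub, ← h, ← e1,
      ← bdT_smul, mapDomain_single]

theorem prR_smul (g : G) (u w : Tup G →₀ R) : (prR R u w).mapDomain (g • ·) =
    prR R (u.mapDomain (g • ·)) (w.mapDomain (g • ·)) := mapDomain_prR _ _ u w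

theorem el1_smul (g : G) (c : Cell G →₀ R) :
    el1 R (c.mapDomain (g • ·)) = (el1 R c).mapDomain (g • ·) := by
  induction c using ind2 with
  | h0 => simp
  | hadd x y hx hy => simp only [mapDomain_add, map_add, hx, hy]
  | hs r x hx => simp only [mapDomain_smul, map_smul, hx]
  | h1 x y => rw [prR_smul, el1_prR, el1_prR, eps_smul, mapDomain_smul]

theorem aw_smul (g : G) (c : Tup G →₀ R) :
    aw R (c.mapDomain (g • ·)) = (aw R c).mapDomain (g • ·) := by
  have hc : ∀ (a : G) (c : Cell G →₀ R),
      cl R (g * a) (c.mapDomain (g • ·)) = (cl R a c).mapDomain (g • ·) := by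
    intro a c
    induction c using ind2 with
    | h0 => simp
    | hadd x y hx hy => simp only [mapDomain_add, map_add, hx, hy]
    | hs r x hx => simp only [mapDomain_smul, map_smul, hx]
    | h1 x y => rw [prR_smul, cl_prR, cl_prR, prR_smul, cn_smul]
  induction c using ind1 with
  | h0 => simp
  | hadd x y hx hy => simp only [mapDomain_add, map_add, hx, hy]
  | hs r x hx => simp only [mapDomain_smul, map_smul, hx]
  | h1 x =>
    induction x using Tup.induction with
    | h0 a => simp only [mapDomain_single, smul_pt, aw_pt, prR_smul]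
    | h1 a x ih =>
      rw [← cn_single, ← cn_smul, aw_cn, aw_cn, mapDomain_add, prR_smul, ih, hc, cn_smul,
        mapDomain_single, smul_pt]

end AW

end DualZL

end Pool.Agent.MP_4f4d9f_gt.Hy

end

section

/-! Poincare duality at the level of the bar complex from a Thom cocycle and a fundamental
cycle. -/

namespace Pool.Agent.MP_4f4d9f_gt.Hy

open Finsupp Sg Sg.Tup

namespace DualZL

section Gam

variable {R : Type} [CommRing R] {G : Type} [Group G] (w : G →* Rˣ)

theorem av_shift {B M : Type} [MulAction G B] [AddCommGroup M] [Module R M] {f f' : B → M}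
    (h : G) (e : ∀ b, f (h • b) = (w h : R) • f' b) (c : B →₀ R) : av w f c = av w f' c := by
  have : (fun b : B => ∑ᶠ g : G, ((w g)⁻¹ : Rˣ) • f (g • b)) =
      fun b => ∑ᶠ g : G, ((w g)⁻¹ : Rˣ) • f' (g • b) := by
    funext b
    rw [← finsum_comp_equiv (Equiv.mulLeft h) (f := fun g : G => ((w g)⁻¹ : Rˣ) • f (g • b))]
    refine finsum_congr fun g => ?_
    simp only [Equiv.coe_mulLeft, mul_smul, e, map_mul, mul_inv_rev, ← Units.smul_def,
      inv_smul_smul]
  rw [av, this, av]

theorem av_lc {X B M : Type} [MulAction G B] [AddCommGroup M] [Module R M] {f : X → B → M}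
    (hf : ∀ x b, {g : G | f x (g • b) ≠ 0}.Finite) (c : B →₀ R) (u : X →₀ R) :
    (∀ b, {g : G | linearCombination R (fun x => f x (g • b)) u ≠ 0}.Finite) ∧
      av w (fun b => linearCombination R (fun x => f x b) u) c =
        linearCombination R (fun x => av w (f x) c) u := by
  induction u using ind1 with
  | h0 => simp [av, linearCombination_apply]
  | hadd x y hx hy =>
    refine ⟨fun b => ((hx.1 b).union (hy.1 b)).subset fun g hg => ?_, ?_⟩
    · by_contra hne
      simp only [Set.mem_union, Set.mem_ofPred_eq, not_or, not_not] at hne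
      exact hg (by rw [map_add, hne.1, hne.2, add_zero])
    · simp only [map_add]
      rw [av_add w (fun b _ => hx.1 b) fun b _ => hy.1 b, hx.2, hy.2]
  | hs r x hx =>
    refine ⟨fun b => (hx.1 b).subset fun g hg e => hg (by rw [map_smul, e, smul_zero]), ?_⟩
    have e := map_av w (LinearMap.lsmul R M r) (c := c)
      (f := fun b => linearCombination R (fun x => f x b) x) fun b _ => hx.1 b
    simp only [LinearMap.lsmul_apply] at e
    simp only [map_smul]
    rw [← hx.2, e]
  | h1 x => simpa using hf x

variable {w} {n : ℕ} {θ : Cell G → R} {ω : Cell G →₀ R}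

theorem fin1 (h : ThomR R n w θ) (x : Tup G) (s : Tup G → R) (c : Cell G) :
    {g : G | (single (g • c).1 (s (g • c).1 * θ (x, (g • c).2)) : Tup G →₀ R) ≠ 0}.Finite :=
  (h.fin x c.2).subset fun g hg e => hg (by
    change single _ (_ * θ (x, g • c.2)) = 0
    rw [e, mul_zero, single_zero])

theorem deg_eq (h : ThomR R n w θ) {x : Tup G} {c : Cell G} (hc : cdeg c = n)
    (e : θ (x, c.2) ≠ 0) : c.1.deg = x.deg := by
  have := h.deg _ e
  simp only [cdeg] at this hc
  omega

variable (w θ ω) in
/-- The duality map. -/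
noncomputable def gam (x : Tup G) : Tup G →₀ R :=
  av w (fun c : Cell G => single c.1 ((-1) ^ c.1.deg * θ (x, c.2))) ω

theorem gam_eqv (h : ThomR R n w θ) (g : G) (x : Tup G) :
    gam w θ ω (g • x) = (gam w θ ω x).mapDomain (g • ·) := by
  rw [← lmapDomain_apply R R, gam, gam,
    map_av w _ fun c _ => fin1 h x (fun a => (-1) ^ a.deg) c]
  refine av_shift w g (fun c => ?_) ω
  simp only [Prod.smul_fst, Prod.smul_snd, deg_smul, h.inv, lmapDomain_apply, mapDomain_single,
    smul_single, smul_eq_mul, mul_left_comm]

theorem gam_deg (h : ThomR R n w θ) (hω : ∀ c ∈ ω.support, cdeg c = n) (x : Tup G) :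
    ∀ y ∈ (gam w θ ω x).support, y.deg = x.deg := by
  have e : prD R deg x.deg (gam w θ ω x) = gam w θ ω x := by
    rw [gam, map_av w _ fun c _ => fin1 h x (fun a => (-1) ^ a.deg) c]
    refine av_congr w fun c hc g => ?_
    rw [prD_single]
    split_ifs with h1
    · rfl
    · by_cases h2 : θ (x, (g • c).2) = 0
      · rw [h2, mul_zero, single_zero]
      · exact absurd (deg_eq h ((cdeg_smul g c).trans (hω c hc)) h2) h1
  intro y hy
  by_contra hne
  rw [← e, mem_support_iff, prD_apply, if_neg hne] at hy
  exact hy rfl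

theorem lc_single {B : Type} (r : R) (u : B →₀ R) :
    linearCombination R (fun a => (single a r : B →₀ R)) u = r • u :=
  map_eq (linearCombination R _) (r • LinearMap.id : _ →ₗ[R] (B →₀ R)) fun b _ => by simp

theorem lc_single2 {B X : Type} (a : B) (r : R) (f : X → R) (u : X →₀ R) :
    linearCombination R (fun x => (single a (r * f x) : B →₀ R)) u =
      single a (r * linearCombination R f u) :=
  map_eq _ (lsingle a ∘ₗ (r • linearCombination R f)) fun b _ => by simp

theorem gam_bd (h : ThomR R n w θ) (hω : ∀ c ∈ ω.support, cdeg c = n)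
    (hc : cbR R ω ∈ Rel w (Cell G)) (x : Tup G) :
    bdT R (gam w θ ω x) = linearCombination R (gam w θ ω) (bdT R (single x 1)) := by
  have f1 := fun x c => fin1 h x (fun a => (-1) ^ a.deg) c
  obtain ⟨f2, e2⟩ := av_lc w
    (f := fun x (c : Cell G) => (single c.1 ((-1) ^ c.1.deg * θ (x, c.2)) : Tup G →₀ R)) f1 ω
    (-bdT R (single x 1))
  have e0 := av_rel w (fun c : Cell G => (single c.1 ((-1) ^ x.deg * θ (x, c.2)) : Tup G →₀ R)) hc
  rw [av_comp w _ cbR_smul (fin1 h x fun _ => (-1) ^ x.deg)] at e0
  have e1 := av_add w (f := fun c : Cell G => bdT R (single c.1 ((-1) ^ c.1.deg * θ (x, c.2))))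
    (f' := fun c : Cell G => linearCombination R
      (fun x => (single c.1 ((-1) ^ c.1.deg * θ (x, c.2)) : Tup G →₀ R)) (-bdT R (single x 1)))
    (c := ω) (fun c _ => (f1 x c).subset fun g hg e => hg (by rw [e, map_zero])) fun c _ => f2 c
  rw [e2, ← map_av w _ fun c _ => f1 x c, map_neg, ← sub_eq_add_neg] at e1
  refine sub_eq_zero.1 (e1.symm.trans ((av_congr w fun c hc g => ?_).trans e0))
  have hd := (cdeg_smul g c).trans (hω c hc)
  generalize g • c = c at hd
  obtain ⟨a, b⟩ := c
  have h3 := h.coc (x, b)
  rw [lc_cbR] at h3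
  rw [lc_cbR]
  dsimp only
  rw [lc_single, lc_single2, lc_single2, map_neg, ← smul_single_one, map_smul,
    eq_neg_of_add_eq_zero_left h3, neg_neg, smul_single, smul_eq_mul, smul_eq_mul]
  by_cases h4 : θ (x, b) = 0
  · simp only [h4, mul_zero]
  · simp only [show a.deg = x.deg from deg_eq h hd h4]

theorem gam_eps (h : ThomR R n w θ) {ν : Tup G →₀ R} (hν : FundT n w θ ν) (x : Tup G) :
    eps R (gam w θ (aw R ν) x) = eps R (single x 1) := by
  induction x using Tup.induction with
  | h0 a =>
    have e : pt a = a • pt (1 : G) := by simp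
    rw [eps_single, if_pos (deg_pt a), e, gam_eqv h, eps_smul, ← hν.one, gam,
      map_av w _ fun c _ => fin1 h _ (fun a => (-1) ^ a.deg) c]
    conv_rhs => rw [← el1_aw ν, av_comp w _ el1_smul (h.fin _)]
    refine av_congr w fun c _ g => ?_
    generalize g • c = c
    rw [eps_single, el1_single]
    split_ifs with h1 <;> simp [h1]
  | h1 a x _ =>
    rw [eps_single, if_neg (by simp)]
    refine map_eq (eps R) 0 fun y hy => ?_
    rw [eps_single, if_neg (by rw [gam_deg h (aw_deg hν.deg) _ y hy]; simp)]
    rfl

end Gam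

end DualZL

open DualZL in
theorem dual_stmt : DualStmt := by
  intro G R _ _ n w θ ν h hν
  have h1 := aw_deg hν.deg
  have h2 : cbR R (aw R ν) ∈ Rel w (Cell G) := by
    rw [cb_aw]
    exact map_rel w _ aw_smul hν.cyc
  exact ⟨aw R ν, HH (gam w θ (aw R ν)), h, h1, h2, HH_deg (gam_deg h h1),
    fun g => HH_eqv g (gam_eqv h g), HH_key (gam_bd h h1 h2) (gam_eps h hν)⟩

end Pool.Agent.MP_4f4d9f_gt.Hy

end
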