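import Pool.Agent.Mg.F4f4d9fr.G8e7da9
import Pool.Agent.Mg.F4f4d9fr.G30dcc0
import Pool.Agent.Mg.F4f4d9fr.G1d1abf
import Pool.Agent.Mg.F4f4d9fr.G99e50e
import Pool.Agent.Mg.F4f4d9fr.Gc5ae8a
import Pool.Agent.Mg.F4f4d9fr.G6a1263
import Pool.Agent.Mg.F4f4d9fr.G69af78
import Pool.Agent.Mg.F4f4d9fr.G6b01a6
import Pool.Agent.Mg.F4f4d9fr.G0e173c
import Pool.Agent.Mg.F4f4d9fr.Gbb0e29
import Pool.Agent.Mg.F4f4d9fr.G4b39d3
import Pool.Agent.Mg.F4f4d9fr.Gdf2c93
import Pool.Agent.Mg.F4f4d9fr.Ga3a75a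
import Pool.Agent.Mg.F4f4d9fr.G09f198
import Pool.Agent.Mg.F4f4d9fr.G82b1ef
import Pool.Agent.Mg.F4f4d9fr.Gd1ad69

set_option linter.all false

section

/-! Facts on potentials in the model with cone vertices. -/

namespace Pool.Agent.MP_4f4d9f_gt.Rk

open Filter Topology Hy Ku

namespace DFL

variable {G Ω : Type} [Group G] [MulAction G Ω] {N : Net G Ω} {ψ f : Ω → ℝ} {a b : Ω}

theorem key (h : Dip N ψ a b) (e : ∀ x : G, ∀ τ ∈ N.T,
    (f (x • τ) - f (x • N.o)) ^ 2 ≤ (ψ (x • τ) - ψ (x • N.o)) * (f (x • τ) - f (x • N.o))) :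
    Dir N f ∧ En N f ≤ f b - f a := by
  have hf : Dir N f := fun s hs => (h.dir s hs).of_le fun x => sq_le_sq.1 (by
    nlinarith [e x s hs, sq_nonneg (f (x • s) - f (x • N.o) - (ψ (x • s) - ψ (x • N.o)))])
  exact ⟨hf, h.rep f hf ▸ en_le_bb h.dir hf e⟩

theorem trunc (hN : Mod N) (h : Dip N ψ a b) {A : Set Ω} {M : ℝ} (hb : b ∈ A → ψ b ≤ M)
    (H : ∀ x : G, ∀ τ ∈ N.T, Cr A (x • N.o) (x • τ) → ψ (x • N.o) ≤ M ∨ ψ (x • τ) ≤ M) :
    ∀ ω ∈ A, ψ ω ≤ M := by
  intro x hx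
  obtain ⟨h1, h2⟩ := key (f := A.indicator fun x => max (ψ x - M) 0) h fun y s hs => by
    by_cases c1 : y • N.o ∈ A <;> by_cases c2 : y • s ∈ A
    · rw [Set.indicator_of_mem c1, Set.indicator_of_mem c2]
      exact Ku.DFL.pos_step _ _ _
    · rw [Set.indicator_of_mem c1, Set.indicator_of_notMem c2]
      have := Ku.DFL.cross_step (H y s hs fun k => c2 (k.1 c1))
      nlinarith
    · rw [Set.indicator_of_notMem c1, Set.indicator_of_mem c2]
      exact Ku.DFL.cross_step (H y s hs fun k => c1 (k.2 c2)).symm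
    · rw [Set.indicator_of_notMem c1, Set.indicator_of_notMem c2]
      simp
  have h3 : A.indicator (fun x => max (ψ x - M) 0) b = 0 := by
    by_cases c : b ∈ A
    · rw [Set.indicator_of_mem c, max_eq_right (by linarith [hb c])]
    · exact Set.indicator_of_notMem c _
  have h4 : 0 ≤ A.indicator (fun x => max (ψ x - M) 0) a :=
    Set.indicator_nonneg (fun y _ => le_max_right _ _) a
  have h5 := const_of_en hN h1 (by linarith) x b
  rw [h3, Set.indicator_of_mem hx] at h5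
  linarith [le_max_left (ψ x - M) 0]

theorem upper (hN : Mod N) (h : Dip N ψ a b) (ω : Ω) : ψ ω ≤ ψ b :=
  trunc hN h (A := Set.univ) (fun _ => le_rfl) (fun _ _ _ k => absurd Iff.rfl k) ω trivial

theorem slab (h : Dip N ψ a b) {r₁ r₂ : ℝ} (hr : r₁ ≤ r₂) :
    Dir N (fun x => max r₁ (min r₂ (ψ x))) ∧ En N (fun x => max r₁ (min r₂ (ψ x))) ≤ r₂ - r₁ := by
  obtain ⟨h1, h2⟩ := key (f := fun x => max r₁ (min r₂ (ψ x))) h fun x s _ =>
    Ku.DFL.clamp_step _ _
  refine ⟨h1, h2.trans ?_⟩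
  have e1 : max r₁ (min r₂ (ψ b)) ≤ r₂ := max_le hr (min_le_left _ _)
  have e2 : r₁ ≤ max r₁ (min r₂ (ψ a)) := le_max_left _ _
  linarith

theorem lip (h : Dip N ψ a b) (x : G) {τ : Ω} (hτ : τ ∈ N.T) :
    |ψ (x • τ) - ψ (x • N.o)| ≤ 1 := by
  obtain ⟨h1, h2⟩ := slab h (r₁ := min (ψ (x • N.o)) (ψ (x • τ)))
    (r₂ := max (ψ (x • N.o)) (ψ (x • τ))) min_le_max
  have h3 := (sq_le_en h1 x hτ).trans h2
  rw [Ku.DFL.clamp_eq (min_le_right _ _) (le_max_right _ _),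
    Ku.DFL.clamp_eq (min_le_left _ _) (le_max_left _ _), max_sub_min_eq_abs, ← sq_abs] at h3
  nlinarith [abs_nonneg (ψ (x • τ) - ψ (x • N.o))]

theorem band (h : Dip N ψ a b) {t₁ t₂ : ℝ} (ht : t₁ ≤ t₂) (Z : Finset G)
    (hZ : ∀ x ∈ Z, t₁ ≤ ψ (x • N.o) ∧ ψ (x • N.o) ≤ t₂) :
    ∑ x ∈ Z, DD N ψ x ^ 2 ≤ N.T.card * (t₂ - t₁ + 2) := by
  obtain ⟨h1, h2⟩ := slab h (r₁ := t₁ - 1) (r₂ := t₂ + 1) (by linarith)
  set g : Ω → ℝ := fun x => max (t₁ - 1) (min (t₂ + 1) (ψ x)) with hg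
  calc ∑ x ∈ Z, DD N ψ x ^ 2
      ≤ ∑ x ∈ Z, N.T.card * ∑ τ ∈ N.T, (g (x • τ) - g (x • N.o)) ^ 2 := by
        refine Finset.sum_le_sum fun x hx => sq_sum_le_card_mul_sum_sq.trans (le_of_eq ?_)
        congr 1
        refine Finset.sum_congr rfl fun s hs => ?_
        obtain ⟨k1, k2⟩ := abs_le.1 (lip h x hs)
        obtain ⟨k3, k4⟩ := hZ x hx
        simp only [hg]
        rw [sq_abs, Ku.DFL.clamp_eq (u := ψ (x • s)) (by linarith) (by linarith),
          Ku.DFL.clamp_eq (u := ψ (x • N.o)) (by linarith) (by linarith)]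
    _ = N.T.card * ∑ τ ∈ N.T, ∑ x ∈ Z, (g (x • τ) - g (x • N.o)) ^ 2 := by
        rw [← Finset.mul_sum, Finset.sum_comm]
    _ ≤ N.T.card * En N g := by
        refine mul_le_mul_of_nonneg_left (Finset.sum_le_sum fun s hs => ?_) (Nat.cast_nonneg _)
        exact Summable.sum_le_tsum Z (fun _ _ => sq_nonneg _) (h1 s hs)
    _ ≤ N.T.card * (t₂ - t₁ + 2) :=
        mul_le_mul_of_nonneg_left (h2.trans (le_of_eq (by ring))) (Nat.cast_nonneg _)

theorem conn (hN : Mod N) (h : Dip N ψ a b) (t : ℝ) (ω : Ω) (hω : t < ψ ω) :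
    Con N {y | t < ψ y} b ω := by
  by_contra hb
  refine absurd (trunc hN h (A := {y | Con N {y | t < ψ y} ω y}) (M := t)
    (fun c => absurd (Con.symm c) hb) (fun x τ hτ k => ?_) ω (Con.refl hω)) (not_le.2 hω)
  by_contra c
  rw [not_or, not_le, not_le] at c
  exact k ⟨fun e => Con.tail e c.2 (adj_smul hτ x), fun e => Con.tail e c.1 (adj_smul hτ x).symm⟩

end DFL

theorem df_stmt : DFStmt := by
  intro G Ω _ _ N hN
  exact ⟨fun η a b h A _ hb M hM => DFL.trunc hN h (fun c => absurd c hb)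
      fun x τ hτ k => Or.inl (hM x ⟨τ, hτ, k⟩),
    fun ψ a b h ω => ⟨neg_le_neg_iff.1 (DFL.upper hN h.neg ω), DFL.upper hN h ω⟩,
    fun ψ a b h t ω hω => DFL.conn hN h t ω hω,
    fun ψ a b h r₁ r₂ hr => (DFL.slab h hr).2, fun ψ a b h x τ hτ => DFL.lip h x hτ,
    fun ψ a b h t₁ t₂ ht Z hZ => DFL.band h ht Z hZ⟩

end Pool.Agent.MP_4f4d9f_gt.Rk

end

section

/-! The oscillation of a potential on a half space of another one, relative version. -/

namespace Pool.Agent.MP_4f4d9f_gt.Rk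

open Filter Topology Hy Ku

namespace OscL

theorem avg {ι κ : Type} [Countable ι] [Countable κ] (c r w : ι → ℝ) (e : κ → ℝ)
    (hr : ∀ a, 0 ≤ r a) (hw : ∀ a, 0 ≤ w a)
    {M t₁ t₂ : ℝ} (ht : t₁ < t₂) (hs : ∀ T : Finset ι, ∑ a ∈ T, w a * r a ≤ M) :
    ∃ t, t₁ < t ∧ t < t₂ ∧ (∀ a, e a ≠ t) ∧ ∀ T : Finset ι, (∀ a ∈ T, |c a - t| ≤ r a) →
      ∑ a ∈ T, w a ≤ 2 * M / (t₂ - t₁) := by
  obtain ⟨t, h1, h2, h3, h4⟩ := Ku.OscL.avg (ι := ι ⊕ κ) (Sum.elim c e) (Sum.elim r 0)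
    (Sum.elim w 0) (by rintro (a | a) <;> simp [hr]) (by rintro (a | a) <;> simp [hw]) ht
    (M := M) fun T => by
      rw [Finset.sum_sum_eq_sum_toLeft_add_sum_toRight]
      simpa using hs T.toLeft
  refine ⟨t, h1, h2, fun a => h3 (Sum.inr a), fun T hT => ?_⟩
  have := h4 (T.map Function.Embedding.inl) fun a ha => by
    obtain ⟨b, hb, rfl⟩ := Finset.mem_map.1 ha
    exact hT b hb
  rwa [Finset.sum_map] at this

variable {G Ω : Type} [Group G] [MulAction G Ω] {N : Net G Ω}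

theorem cn (hD : DF N) {ψ : Ω → ℝ} {a b : Ω} (h : Dip N ψ a b) (t : ℝ) :
    Cn N {x | t < ψ x} := fun x hx y hy =>
  (hD.conn ψ a b h t x hx).symm.trans (hD.conn ψ a b h t y hy)

end OscL

open OscL in
theorem osc_stmt : OscStmt := by
  classical
  intro G Ω _ _ N hC hD ψ a b η a' b' hψ hη t₁ t₂ M ht ha hb hM
  have := hC.md.gen.countable
  have := hC.md.countable
  obtain ⟨t, h1, h2, h3, h4⟩ := avg (fun x : G => ψ (x • N.o))
    (fun x => if t₁ - 1 ≤ ψ (x • N.o) ∧ ψ (x • N.o) ≤ t₂ + 1 then DD N ψ x else 0) (DD N η) ψ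
    (fun x => by
      split_ifs
      exacts [dd_nonneg N ψ x, le_rfl]) (dd_nonneg N η) ht (M := M) fun T => by
      simp only [mul_ite, mul_zero]
      rw [← Finset.sum_filter]
      exact hM _ fun x hx => (Finset.mem_filter.1 hx).2
  refine ⟨t, h1, h2, ?_⟩
  have c2 : Cn N {x | t < ψ x}ᶜ := by
    have e : {x | t < ψ x}ᶜ = {x | -t < -ψ x} := Set.ext fun x => by
      change ¬ t < ψ x ↔ -t < -ψ x
      exact ⟨fun h => neg_lt_neg (lt_of_le_of_ne (not_lt.1 h) (h3 x)),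
        fun h => not_lt.2 (neg_lt_neg_iff.1 h).le⟩
    rw [e]
    exact cn hD hψ.neg (-t)
  have hl : 6 * M / (t₂ - t₁) = 3 * (2 * M / (t₂ - t₁)) := by ring
  rw [hl]
  generalize 2 * M / (t₂ - t₁) = l at h4 ⊢
  have na : a' ∉ {x | t < ψ x} := (ha.trans h1.le).not_gt
  have nb : b' ∉ {x | t < ψ x} := (hb.trans h1.le).not_gt
  have h5 : ∀ B : Finset G, (B : Set G) ⊆ Bdy N {x | t < ψ x} → ∑ x ∈ B, DD N η x ≤ l :=
    fun B hB => h4 B fun z hz => by
      obtain ⟨τ, hτ, k⟩ := bdy_level ψ t (hB hz)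
      have b5 := abs_le.1 (k.trans (hD.lip ψ a b hψ z τ hτ))
      rw [if_pos ⟨by linarith [b5.1], by linarith [b5.2]⟩]
      exact k.trans (le_dd ψ z hτ)
  have l0 : 0 ≤ l := by simpa using h5 ∅ (by simp)
  have h6 : ∀ x ∈ Bdy N {x | t < ψ x}, ∀ τ ∈ N.T, |η (x • τ) - η (x • N.o)| ≤ l :=
    fun x hx τ hτ => (le_dd η x hτ).trans (by simpa using h5 {x} (by simpa using hx))
  have s0 : ∀ y ∈ Bdy N {x | t < ψ x}, ∀ x ∈ Bdy N {x | t < ψ x},
      η (x • N.o) ≤ η (y • N.o) + l := by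
    intro y hy x hx
    obtain ⟨B, b1, b2, b3⟩ := CutPtL.osc hC.md.gen (fun x => η (x • N.o))
      (hC.uc _ (cn hD hψ t) c2 y hy x hx)
    have b4 := (Finset.sum_le_sum fun z _ => dd_tr hC.md η z).trans (h5 B b1)
    linarith [(abs_le.1 (b3 x b2)).2]
  have s1 : ∀ y ∈ Bdy N {x | t < ψ x}, ∀ ω ∈ Cl N {x | t < ψ x}, η ω ≤ η (y • N.o) + 2 * l := by
    rintro y hy ω (hω | ⟨x, hx, τ, hτ, rfl⟩)
    · linarith [hD.maxp η a' b' hη _ na nb _ (s0 y hy) ω hω]
    · linarith [s0 y hy x hx, (abs_le.1 (h6 x hx τ hτ)).2]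
  have s2 : ∀ ω ∈ Cl N {x | t < ψ x}, ∀ ω' ∈ Cl N {x | t < ψ x}, η ω ≤ η ω' + 3 * l := by
    rintro ω hω ω' (hω' | ⟨y, hy, τ, hτ, rfl⟩)
    · have := hD.maxp _ b' a' hη.neg _ nb na (2 * l - η ω)
        (fun z hz => by linarith [s1 z hz ω hω]) ω' hω'
      linarith
    · linarith [s1 y hy ω hω, (abs_le.1 (h6 y hy τ hτ)).1]
  intro x hx y hy
  exact abs_le.2 ⟨by linarith [s2 y hy x hx], by linarith [s2 x hx y hy]⟩

end Pool.Agent.MP_4f4d9f_gt.Rk

end

section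

/-! The compactification of the model by potentials has the convergence property. -/

namespace Pool.Agent.MP_4f4d9f_gt.Rk

open Filter Topology Hy Ku

namespace CvL

variable {G Ω : Type} [Group G] [MulAction G Ω] {N : Net G Ω}

/-- A far translate of a potential is almost constant on a half space of another one. -/
theorem key (hN : Mod N) (hD : DF N) (hO : Osc N) {ψ χ : Ω → ℝ} {a p u : Ω}
    (h1 : Dip N ψ a p) (h2 : Dip N χ N.o u) {d : ℝ} (hd : 0 < d) :
    ∀ᶠ g : G in cofinite, ∀ x, ψ (g⁻¹ • N.o) + d ≤ ψ x → |χ (g • x) - χ (g • N.o)| < d := by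
  have e1 : ∀ᶠ g : G in cofinite, |ψ (g⁻¹ • u) - ψ (g⁻¹ • N.o)| < d / 3 :=
    inv_injective.tendsto_cofinite.eventually
      (p := fun g : G => |ψ (g • u) - ψ (g • N.o)| < d / 3)
      (eventually_cofinite.2 ((h1.dir.finite hN u (by positivity)).subset fun _ k => not_lt.1 k))
  have e2 : ∀ᶠ g : G in cofinite, |χ (g • p) - χ (g • N.o)| < d / 2 :=
    eventually_cofinite.2 ((h2.dir.finite hN p (half_pos hd)).subset fun _ k => not_lt.1 k)
  filter_upwards [e1, e2, Ku.CvL.small h2.dir.dd h1.dir.dd (ε := d ^ 2 / 36) (by positivity)]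
    with g k1 k2 k3 x hx
  obtain ⟨t, -, k4, k5⟩ := hO ψ a p _ _ _ h1 (h2.left g) (ψ (g⁻¹ • N.o) + d / 3)
    (ψ (g⁻¹ • N.o) + d / 3 + d / 3) (d ^ 2 / 36) (by linarith) (by linarith)
    (by linarith [(abs_lt.1 k1).2]) fun T _ => by simpa only [dd_left] using k3 T
  have k6 : t < ψ x := by linarith
  have k7 := k5 x (Or.inl k6) p (Or.inl (k6.trans_le (hD.range _ _ _ h1 x).2))
  have k8 : 6 * (d ^ 2 / 36) / (ψ (g⁻¹ • N.o) + d / 3 + d / 3 - (ψ (g⁻¹ • N.o) + d / 3)) =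
      d / 2 := by
    rw [add_sub_cancel_left]
    field_simp
    norm_num
  rw [k8] at k7
  linarith [abs_sub_le (χ (g • x)) (χ (g • p)) (χ (g • N.o))]

variable {φ : Ω → Ω → ℝ}

theorem key' (hN : Mod N) (hD : DF N) (hO : Osc N) (hP : Pot N φ) (u u' : Ω) {d : ℝ}
    (hd : 0 < d) : ∀ᶠ g : G in cofinite, ∀ x, d ≤ |φ u x - φ u (g⁻¹ • N.o)| →
      |φ u' (g • x) - φ u' (g • N.o)| < d := by
  filter_upwards [key hN hD hO (hP.dip u) (hP.dip u') hd,
    key hN hD hO (hP.dip u).neg (hP.dip u') hd] with g k1 k2 x hx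
  rcases le_abs.1 hx with e | e
  · exact k1 x (by linarith)
  · exact k2 x (by linarith)

/-- The total current leaving the base vertex. -/
theorem flux (hN : Mod N) (hP : Pot N φ) : ∃ (Y : Ω → Finset G) (c : Ω → G → ℝ), ∀ ω ≠ N.o,
    ∑ τ ∈ N.T, ∑ y ∈ Y τ, (φ (y • τ) ω - φ (y • N.o) ω) * c τ y = -1 := by
  classical
  obtain ⟨δ, hδ⟩ : ∃ δ : Ω → ℝ, ∀ ω, δ ω = if ω = N.o then 1 else 0 := ⟨_, fun _ => rfl⟩
  have h0 : ∀ τ : Ω, {y : G | y • τ = N.o}.Finite := fun τ =>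
    Set.Subsingleton.finite fun y hy z hz => inv_injective (hN.inj (by
      rw [inv_smul_eq_iff.2 (Eq.symm hy), inv_smul_eq_iff.2 (Eq.symm hz)]))
  have h1 : ∀ τ : Ω, {y : G | δ (y • τ) - δ (y • N.o) ≠ 0}.Finite := fun τ =>
    ((h0 τ).union (h0 N.o)).subset fun y hy => by
      by_contra k
      obtain ⟨k1 : ¬ y • τ = N.o, k2 : ¬ y • N.o = N.o⟩ := not_or.1 k
      exact hy (by rw [hδ, hδ, if_neg k1, if_neg k2, sub_self])
  refine ⟨fun τ => (h1 τ).toFinset, fun τ y => δ (y • τ) - δ (y • N.o), fun ω hω => ?_⟩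
  have h2 := (hP.dip ω).rep δ fun τ _ => sq_of_finite (h1 τ)
  rw [hδ, hδ, if_neg hω, if_pos rfl, zero_sub] at h2
  rw [← h2, BB]
  refine Finset.sum_congr rfl fun τ _ => ?_
  rw [tsum_eq_sum (s := (h1 τ).toFinset) fun y hy => by
    rw [not_not.1 fun k => hy ((h1 τ).mem_toFinset.2 k), mul_zero]]
  exact Finset.sum_congr rfl fun y _ => by rw [hP.symm (y • τ), hP.symm (y • N.o)]

end CvL

theorem cv_stmt : CvStmt := by
  intro G Ω _ _ X _ _ _ _ N b pos φ co hN hD hO hP hK hS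
  refine ⟨fun h => ?_, fun ε hε => ?_⟩
  · have : (nf G b b).NeBot := h
    have h1 : ∀ s, Tendsto (fun x : G => φ s (x • N.o)) (nf G b b) (𝓝 0) := fun s => by
      have e := ((hK.cont s).tendsto b).comp (nf_tendsto (G := G) (b := b) (ξ := b))
      have e2 : co s b = 0 := by rw [← hS.base, hK.orb, hP.one]
      rw [e2] at e
      exact e.congr fun x => by rw [← hK.orb, hS.orb]; rfl
    obtain ⟨Y, c, hY⟩ := CvL.flux hN hP
    have h2 := tendsto_finsetSum N.T fun τ _ => tendsto_finsetSum (Y τ) fun y _ =>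
      ((h1 (y • τ)).sub (h1 (y • N.o))).mul_const (c τ y)
    have h3 : Tendsto (fun x : G => ∑ τ ∈ N.T, ∑ y ∈ Y τ,
        (φ (y • τ) (x • N.o) - φ (y • N.o) (x • N.o)) * c τ y) (nf G b b) (𝓝 (-1)) := by
      refine tendsto_const_nhds.congr' ?_
      filter_upwards [compl_mem_nf (Set.finite_singleton (1 : G))] with x hx
      exact (hY _ fun e => hx (hN.free x e)).symm
    simpa using tendsto_nhds_unique h2 h3
  · obtain ⟨U, d, hd, hU⟩ := hK.unif (half_pos hε)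
    have h1 := (eventually_all_finset U).2 fun u _ => (eventually_all_finset U).2 fun u' _ =>
      CvL.key' hN hD hO hP u u' hd
    refine (eventually_cofinite.1 h1).subset ?_
    rintro g ⟨z, k1, k2⟩ k3
    have ho : IsOpen {z : X | ε / 2 < dist (g • z) (g • b) ∧ ε / 2 < dist z (g⁻¹ • b)} :=
      (isOpen_lt continuous_const ((continuous_const_smul g).dist continuous_const)).inter
        (isOpen_lt continuous_const (continuous_id.dist continuous_const))
    obtain ⟨x, e1, e2⟩ := hK.dense.exists_mem_open ho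
      ⟨z, (half_lt_self hε).trans_le k1, (half_lt_self hε).trans_le k2⟩
    obtain ⟨u, e3⟩ := not_forall.1 fun e => (hU _ _ e).not_gt e2
    obtain ⟨hu, e4⟩ := Classical.not_imp.1 e3
    rw [← hS.orb, hK.orb, hK.orb] at e4
    refine (hU _ _ fun u' hu' => ?_).not_gt e1
    rw [← hS.eqv, ← hS.orb, hK.orb, hK.orb]
    exact k3 u hu u' hu' x (not_lt.1 e4)

end Pool.Agent.MP_4f4d9f_gt.Rk

end

section

/-! There is no strictly increasing sequence with nested translates. -/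

namespace Pool.Agent.MP_4f4d9f_gt.Rk

open Filter Topology Hy Ku
open scoped Pointwise

namespace OrdLimL

variable {G Ω : Type} [Group G] [MulAction G Ω]

theorem af_mono {A A' C C' : Set Ω} (h : AF G A C) (h1 : A' ⊆ A) (h2 : C ⊆ C') : AF G A' C' :=
  fun α β => (h α β).subset fun _ hz => ⟨h1 hz.1, fun k => hz.2 (h2 k)⟩

variable (G) in
/-- The translates of the sets and of their union. -/
def Fm (E : ℕ → Set Ω) : Set (Set Ω) := {A | ∃ g : G, (∃ k, A = g • E k) ∨ A = g • ⋃ k, E k}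

variable {E : ℕ → Set Ω} {A : Set Ω}

theorem rep (hA : A ∈ Fm G E) : ∃ (g : G) (σ : ℕ → ℕ), Monotone σ ∧ A = ⋃ n, g • E (σ n) := by
  obtain ⟨g, ⟨k, rfl⟩ | rfl⟩ := hA
  · exact ⟨g, fun _ => k, monotone_const, (Set.iUnion_const _).symm⟩
  · exact ⟨g, id, monotone_id, Set.smul_set_iUnion _ _⟩

theorem smul_ssub (g : G) {B : Set Ω} (h : A ⊂ B) : g • A ⊂ g • B :=
  ⟨Set.smul_set_mono h.1, fun e => h.2 (Set.smul_set_subset_smul_set_iff.1 e)⟩

theorem fam3 (hE : StrictMono E)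
    (ch : ∀ (g h : G) j k, (g • E j ∩ h • E k).Nonempty → g • E j ∪ h • E k ≠ Set.univ →
      g • E j ⊆ h • E k ∨ h • E k ⊆ g • E j)
    (af : ∀ (g h f : G) i j k, g • E i ⊂ h • E j → h • E j ⊂ f • E k →
      AF G (g • E i) (f • E k))
    (h0 : (E 0).Nonempty) (h1 : (⋃ k, E k) ≠ Set.univ) : Fam3 G (Fm G E) (⋃ k, E k) := by
  have hne : ∀ A ∈ Fm G E, A.Nonempty := fun A hA => by
    obtain ⟨g, σ, -, rfl⟩ := rep hA
    exact ((h0.mono (hE.monotone (Nat.zero_le (σ 0)))).smul_set (a := g)).mono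
      (Set.subset_iUnion (fun n => g • E (σ n)) 0)
  have hu : ∀ g : G, g • (⋃ k, E k) ≠ Set.univ := fun g e => h1 (by
    rw [← inv_smul_smul g (⋃ k, E k), e, Set.smul_set_univ])
  have hch : ∀ A ∈ Fm G E, ∀ B ∈ Fm G E, (A ∩ B).Nonempty → A ∪ B ≠ Set.univ →
      A ⊆ B ∨ B ⊆ A := by
    intro A hA B hB
    obtain ⟨g, σ, a, rfl⟩ := rep hA
    obtain ⟨h, τ, b, rfl⟩ := rep hB
    exact Ku.OrdLimL.chain_union (fun _ _ e => Set.smul_set_mono (hE.monotone (a e)))
      (fun _ _ e => Set.smul_set_mono (hE.monotone (b e))) fun n => ch g h _ _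
  have hs : ∀ A ∈ Fm G E, ∀ h : G, A ⊂ h • (⋃ k, E k) → AF G A (h • ⋃ k, E k) := by
    intro A hA h e
    have hsub : ∀ k, h • E k ⊆ h • ⋃ k, E k := fun k => Set.smul_set_mono (Set.subset_iUnion _ _)
    obtain ⟨x, hx⟩ := hne A hA
    obtain ⟨y, hy1, hy2⟩ := Set.exists_of_ssubset e
    have hx1 := e.1 hx
    rw [Set.smul_set_iUnion] at hx1 hy1
    obtain ⟨i, hi⟩ := Set.mem_iUnion.1 hx1
    obtain ⟨j, hj⟩ := Set.mem_iUnion.1 hy1
    have key : A ⊆ h • E (i + j) :=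
      (hch A hA _ ⟨h, Or.inl ⟨i + j, rfl⟩⟩
        ⟨x, hx, Set.smul_set_mono (hE.monotone (by omega)) hi⟩
        fun k => hu h (Set.univ_subset_iff.1 (k ▸ Set.union_subset e.1 (hsub _)))).resolve_right
        fun k => hy2 (k (Set.smul_set_mono (hE.monotone (by omega)) hj))
    exact af_mono (af h h h (i + j) (i + j + 1) (i + j + 2) (smul_ssub h (hE (by omega)))
      (smul_ssub h (hE (by omega)))) key (hsub _)
  refine ⟨⟨1, Or.inr (one_smul _ _).symm⟩, ?_, hne, ?_, hch, ?_, fun A hA e => ?_⟩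
  · rintro g _ ⟨h, ⟨k, rfl⟩ | rfl⟩
    · exact ⟨g * h, Or.inl ⟨k, (mul_smul _ _ _).symm⟩⟩
    · exact ⟨g * h, Or.inr (mul_smul _ _ _).symm⟩
  · rintro _ ⟨g, ⟨k, rfl⟩ | rfl⟩
    · exact fun e => hu g (Set.univ_subset_iff.1
        (e ▸ Set.smul_set_mono (Set.subset_iUnion _ _)))
    · exact hu g
  · rintro A hA _ ⟨g, ⟨i, rfl⟩ | rfl⟩ C hC D hD e1 e2 e3
    · obtain ⟨h, ⟨j, rfl⟩ | rfl⟩ := hC
      · obtain ⟨f, ⟨k, rfl⟩ | rfl⟩ := hD
        · exact af_mono (af g h f i j k e2 e3) e1.1 subset_rfl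
        · exact hs A hA f ((e1.trans e2).trans e3)
      · exact af_mono (hs A hA h (e1.trans e2)) subset_rfl e3.1
    · exact af_mono (hs A hA g e1) subset_rfl (e2.1.trans e3.1)
  · simpa only [one_smul] using hs A hA 1 (by rwa [one_smul])

end OrdLimL

theorem ordLim_stmt (h1 : Ord3Stmt) (h2 : LimQStmt) : OrdLimStmt := by
  intro G Ω _ _ N hG md coh un ex E hE ch af ψ₁ ψ₂ a1 a2 a3 a4 b1 b2 b3 b4
  have h0 : (E 0).Nonempty := by
    by_contra e
    exact a4 (sq_zero.of_le fun x => by rw [a3 _ fun k => e ⟨_, k⟩])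
  have hz : ∀ x ∈ ⋃ k, E k, ψ₂ x = 0 := fun x hx => (Set.mem_iUnion.1 hx).elim fun k => b3 k x
  have hu : (⋃ k, E k) ≠ Set.univ := fun e =>
    b4 (sq_zero.of_le fun x => by rw [hz _ (e ▸ Set.mem_univ _)])
  have hF := OrdLimL.fam3 hE ch af h0 hu
  choose E' c1 c2 c3 c4 using fun k => h1 G Ω hG _ _ hF (E k)
    ⟨1, Or.inl ⟨k, (one_smul _ _).symm⟩⟩
    (lt_of_lt_of_le (hE (Nat.lt_succ_self k)) (Set.subset_iUnion E (k + 1)))
  refine h2 G Ω N md coh un ex _ E' ψ₁ ψ₂ (fun k => (c3 k).1) (fun x hx => ?_)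
    (fun k => hF.afs _ (c1 k) (c3 k)) c4 a1 a2
    (fun k x hx => a3 x fun e => hx (c2 k (hE.monotone (Nat.zero_le k) e))) a4 b1 b2 hz b4
  obtain ⟨j, hj⟩ := Set.mem_iUnion.1 hx
  exact (eventually_ge_atTop j).mono fun k hk => c2 k (hE.monotone hk hj)

end Pool.Agent.MP_4f4d9f_gt.Rk

end

section

/-! The labelling attached to a block. -/

namespace Pool.Agent.MP_4f4d9f_gt.Ku

open Filter Topology Hy
open scoped Pointwise

namespace LabL

variable {G : Type} [Group G] {X : Type} [MetricSpace X] [MulAction G X] {S : Finset G}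
  {b c c' ξ y u u' : X} {B : Set X}

variable (G) in
/-- The points that `c` separates from the block. -/
def Vc (b : X) (B : Set X) (c : X) : Set X := {ξ | ∃ u ∈ B, Sepa G b c u ξ}

variable (G) in
/-- The point `y` hangs at the point `c` of the block. -/
def R (b : X) (B : Set X) (y c : X) : Prop := c ∈ B ∧ (y = c ∨ y ∈ Vc G b B c)

theorem l2 (hB : Blk G b B) (h : ξ ∈ Vc G b B c) (h1 : u' ∈ B) (h2 : u' ≠ c) :
    Sepa G b c u' ξ := by
  obtain ⟨u, a1, a2⟩ := h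
  exact (a2.cases (hB.sub h1) h2).resolve_left (hB.nosep c u a1 u' h1)

theorem vc_notMem (hB : Blk G b B) (h : ξ ∈ Vc G b B c) : ξ ∉ B := fun e =>
  let ⟨u, a1, a2⟩ := h
  hB.nosep c u a1 ξ e a2

theorem not_self : c ∉ Vc G b B c := fun ⟨_, _, a2⟩ => a2.2.2.2.1 rfl

theorem vc_cut (h : ξ ∈ Vc G b B c) : CutP G b c :=
  let ⟨_, _, a2⟩ := h
  ⟨_, _, a2⟩

theorem vc_KK (h : ξ ∈ Vc G b B c) : ξ ∈ KK G b :=
  let ⟨_, _, a2⟩ := h
  a2.2.1

theorem exists_ne (hB : Blk G b B) (c : X) : ∃ u ∈ B, u ≠ c := by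
  obtain ⟨m, h1, m', h2, h3, -⟩ := hB.two
  by_cases e : m = c
  · exact ⟨m', h2, fun k => h3 (e.trans k.symm)⟩
  · exact ⟨m, h1, e⟩

theorem vc_nonempty (hB : Blk G b B) (h : CutP G b c) : (Vc G b B c).Nonempty := by
  obtain ⟨ξ, η, h⟩ := h
  obtain ⟨u, h1, h2⟩ := exists_ne hB c
  rcases h.cases (hB.sub h1) h2 with k | k
  · exact ⟨ξ, u, h1, k.symm⟩
  · exact ⟨η, u, h1, k⟩

theorem vc_open (h : ξ ∈ Vc G b B c) :
    ∃ O : Set X, IsOpen O ∧ ξ ∈ O ∧ O ∩ KK G b ⊆ Vc G b B c := by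
  obtain ⟨u, a0, a1, a2, a3, a4, F, a5, a6, a7⟩ := h
  exact ⟨{ζ | Fᶜ ∈ nf G b ζ} ∩ {c}ᶜ, (isOpen_nf _).inter isOpen_compl_singleton, ⟨a7, a4⟩,
    fun ζ k => ⟨u, a0, a1, k.2, a3, k.1.2, F, a5, a6, k.1.1⟩⟩

theorem blk_iff (hB : Blk G b B) (h1 : u ∈ B) (h2 : u' ∈ B) (h3 : u ≠ u') :
    ξ ∈ B ↔ ξ ∈ KK G b ∧ ∀ d, ¬ Sepa G b d u ξ ∧ ¬ Sepa G b d u' ξ := by
  refine ⟨fun h => ⟨hB.sub h, fun d => ⟨hB.nosep d u h1 ξ h, hB.nosep d u' h2 ξ h⟩⟩, fun h => ?_⟩
  by_contra e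
  obtain ⟨d, k⟩ := hB.cover ξ h.1 e
  by_cases e1 : u = d
  · exact (h.2 d).2 (l2 hB k h2 fun e2 => h3 (e1.trans e2.symm))
  · exact (h.2 d).1 (l2 hB k h1 e1)

variable [ContinuousConstSMul G X]

theorem mem_stab (hB : Blk G b B) (h1 : u ∈ B) (h2 : u' ∈ B) (h3 : u ≠ u') {g : G}
    (h4 : g • u ∈ B) (h5 : g • u' ∈ B) : g ∈ MulAction.stabilizer G B := by
  refine MulAction.mem_stabilizer_set.2 fun ξ => ?_
  rw [blk_iff hB h4 h5 ((MulAction.injective g).ne h3), blk_iff hB h1 h2 h3, smul_mem_KK,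
    (MulAction.surjective g).forall]
  simp only [sepa_smul]

theorem R.smul {g : G} (hg : g ∈ MulAction.stabilizer G B) (h : R G b B y c) :
    R G b B (g • y) (g • c) := by
  have k := MulAction.mem_stabilizer_set.1 hg
  exact ⟨(k c).2 h.1, h.2.imp (congrArg (g • ·))
    fun ⟨u, a1, a2⟩ => ⟨g • u, (k u).2 a1, a2.smul g⟩⟩

variable [CompactSpace X]

theorem cut_KK (h : Bd S b) (k : CutP G b c) : c ∈ KK G b :=
  let ⟨_, _, e⟩ := k
  h.sepa_mem e

theorem l3 (h : Bd S b) (hB : Blk G b B) (k : c ∈ Vc G b B c') : Vc G b B c ⊆ Vc G b B c' := by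
  intro ξ e
  have k1 := vc_notMem hB k
  obtain ⟨u, a1, a2⟩ := k
  exact ⟨u, a1, h.sepa_trans (l2 hB e a1 fun e' => k1 (e' ▸ a1)) a2⟩

theorem R.unique (h : Bd S b) (hB : Blk G b B) (k : R G b B y c) (k' : R G b B y c') :
    c = c' := by
  obtain ⟨a1, a2 | a2⟩ := k <;> obtain ⟨a3, a4 | a4⟩ := k'
  · exact a2.symm.trans a4
  · exact absurd (a2 ▸ a1) (vc_notMem hB a4)
  · exact absurd (a4 ▸ a3) (vc_notMem hB a2)
  · by_contra e
    exact h.asymm (l2 hB a2 a3 (Ne.symm e)) (l2 hB a4 a1 e)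

theorem exists_R (h : Bd S b) (hD : Disc G b) (hB : Blk G b B) (k : CutP G b y) :
    ∃ c, R G b B y c := by
  by_cases e : y ∈ B
  · exact ⟨y, e, Or.inl rfl⟩
  obtain ⟨m, h1, m', h2, h3, h4, h5⟩ := hB.two
  have fin : {c | y ∈ Vc G b B c}.Finite := by
    refine ((hD m y h4 k).union (hD m' y h5 k)).subset fun c hc => ?_
    by_cases e1 : m = c
    · exact Or.inr (l2 hB hc h2 fun e2 => h3 (e1.trans e2.symm))
    · exact Or.inl (l2 hB hc h1 e1)
  obtain ⟨c, hc⟩ := fin.exists_maximalFor (Vc G b B) _ (hB.cover y (cut_KK h k) e)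
  refine ⟨c, ?_, Or.inr hc.1⟩
  by_contra e1
  obtain ⟨c', k1⟩ := hB.cover c (cut_KK h (vc_cut hc.1)) e1
  have k2 := l3 h hB k1
  exact not_self (hc.2 (k2 hc.1) k2 k1)

theorem R.edge (h : Bd S b) (hB : Blk G b B) {y' : X} (k : R G b B y c) (k' : R G b B y' c')
    (h1 : y' ∈ KK G b) (h2 : c' ≠ c) : c = y ∨ Sepa G b c y' y := by
  refine k.2.imp Eq.symm fun e => ?_
  have e1 : y' ≠ c := fun e1 => h2 (k'.unique h hB ⟨k.1, Or.inl e1⟩)
  exact ((l2 hB e k'.1 h2).cases h1 e1).resolve_left fun e2 =>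
    h2 (k'.unique h hB ⟨k.1, Or.inr ⟨c', k'.1, e2⟩⟩)

end LabL

open LabL in
theorem lab_stmt : LabStmt := by
  intro G _ X _ _ _ _ S b B h hd hD hB
  obtain ⟨m, m1, m', m2, m3, m4, m5⟩ := hB.two
  choose lam hl using fun x : G => exists_R h hD hB (m4.smul x)
  have hK : ∀ x : G, x • m ∈ KK G b := fun x => cut_KK h (m4.smul x)
  have freq : ∀ c ∈ B, ∀ ξ ∈ Vc G b B c, ∃ᶠ y in nf G b ξ, lam y = c := fun c hc ξ e => by
    obtain ⟨O, a1, a2, a3⟩ := vc_open e
    exact (hd.dens m ξ (vc_KK e) O (a1.mem_nhds a2)).mono fun y k =>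
      (hl y).unique h hB ⟨hc, Or.inr (a3 ⟨k, hK y⟩)⟩
  have occ : ∀ c ∈ B, CutP G b c → ∃ y, lam y = c := fun c hc k =>
    let ⟨ξ, e⟩ := vc_nonempty hB k
    (freq c hc ξ e).exists
  refine ⟨lam, MulAction.stabilizer G B, fun g hg x => ?_, ?_, fun x => ?_, fun ξ e1 e2 => ?_, ?_⟩
  · exact (hl (g * x)).unique h hB (by rw [mul_smul]; exact (hl x).smul hg)
  · let P : Set X := ⋃ s ∈ S, ({m, s • m} ∪ {c | Sepa G b c (s • m) m})
    have hP : P.Finite := S.finite_toSet.biUnion fun s _ =>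
      (Set.toFinite _).union (hD _ _ (m4.smul s) m4)
    have ex : ∀ p : X × X, ∃ x₀ : G, (∃ x : G, x • p.1 ∈ B ∧ x • p.2 ∈ B) →
        x₀ • p.1 ∈ B ∧ x₀ • p.2 ∈ B := fun p => by
      by_cases e : ∃ x : G, x • p.1 ∈ B ∧ x • p.2 ∈ B
      · exact e.imp fun _ k _ => k
      · exact ⟨1, fun k => absurd k e⟩
    choose x₀ hx₀ using ex
    refine ⟨x₀ '' P ×ˢ P, (hP.prod hP).image _, fun x s hs e => ?_⟩
    have p1 : x⁻¹ • lam x ∈ P := by
      refine Set.mem_biUnion hs ?_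
      rcases (hl x).edge h hB (hl (x * s)) (hK _) e with k | k
      · exact Or.inl (Or.inl (by rw [k, inv_smul_smul]))
      · exact Or.inr (by simpa [mul_smul] using k.smul x⁻¹)
    have p2 : x⁻¹ • lam (x * s) ∈ P := by
      refine Set.mem_biUnion hs ?_
      rcases (hl (x * s)).edge h hB (hl x) (hK _) e.symm with k | k
      · exact Or.inl (Or.inr (by rw [k, mul_smul, inv_smul_smul]; rfl))
      · exact Or.inr (by simpa [mul_smul] using (k.smul x⁻¹).symm)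
    obtain ⟨q1, q2⟩ := hx₀ (x⁻¹ • lam x, x⁻¹ • lam (x * s))
      ⟨x, by simpa using (hl x).1, by simpa using (hl (x * s)).1⟩
    refine ⟨x * (x₀ (x⁻¹ • lam x, x⁻¹ • lam (x * s)))⁻¹, mem_stab hB q1 q2
      ((MulAction.injective _).ne ((MulAction.injective _).ne e.symm)) ?_ ?_,
      (x⁻¹ • lam x, x⁻¹ • lam (x * s)), ⟨p1, p2⟩, by simp⟩
    · simpa [mul_smul] using (hl x).1
    · simpa [mul_smul] using (hl (x * s)).1
  · have k : CutP G b (lam x) := (hl x).2.elim (fun e => e ▸ m4.smul x) vc_cut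
    obtain ⟨ξ, e⟩ := vc_nonempty hB k
    obtain ⟨O, a1, a2, a3⟩ := vc_open e
    exact ⟨O, a1, ⟨ξ, a2, vc_KK e⟩, fun ζ k' => freq _ (hl x).1 ζ (a3 k')⟩
  · obtain ⟨c₀, k⟩ := hB.cover ξ e1 e2
    obtain ⟨c, a1, a2⟩ := exists_R h hD hB (vc_cut k)
    exact ⟨c, fun e => e2 (e ▸ a1), freq c a1 ξ (a2.elim (fun e => e ▸ k) fun e => l3 h hB e k)⟩
  · obtain ⟨x, e⟩ := occ m m1 m4
    obtain ⟨y, e'⟩ := occ m' m2 m5
    exact ⟨x, y, by rwa [e, e']⟩

end Pool.Agent.MP_4f4d9f_gt.Ku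

end

section

/-! The labelling attached to a block, relative version. -/

namespace Pool.Agent.MP_4f4d9f_gt.Rk

open Filter Topology Hy Ku
open scoped Pointwise

namespace LabL

open Ku.LabL (Vc R l2 vc_notMem not_self vc_cut)

variable {G : Type} [Group G] {X : Type} [MetricSpace X] [MulAction G X] {S : Finset G}
  {b c c' ξ y u u' : X} {B : Set X}

theorem cut_KK (h : Bk S b) (k : CutP G b c) : c ∈ KK G b :=
  let ⟨_, _, e⟩ := k
  h.sepa_mem e

theorem l3 (h : Bk S b) (hB : Blk G b B) (k : c ∈ Vc G b B c') : Vc G b B c ⊆ Vc G b B c' := by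
  intro ξ e
  have k1 := vc_notMem hB k
  obtain ⟨u, a1, a2⟩ := k
  exact ⟨u, a1, h.sepa_trans (l2 hB e a1 fun e' => k1 (e' ▸ a1)) a2⟩

theorem unique (h : Bk S b) (hB : Blk G b B) (k : R G b B y c) (k' : R G b B y c') :
    c = c' := by
  obtain ⟨a1, a2 | a2⟩ := k <;> obtain ⟨a3, a4 | a4⟩ := k'
  · exact a2.symm.trans a4
  · exact absurd (a2 ▸ a1) (vc_notMem hB a4)
  · exact absurd (a4 ▸ a3) (vc_notMem hB a2)
  · by_contra e
    exact h.asymm (l2 hB a2 a3 (Ne.symm e)) (l2 hB a4 a1 e)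

theorem exists_R (h : Bk S b) (hB : Blk G b B) (k : y ∈ KK G b)
    (hD : ∀ m, CutP G b m → {c | Sepa G b c m y}.Finite) : ∃ c, R G b B y c := by
  by_cases e : y ∈ B
  · exact ⟨y, e, Or.inl rfl⟩
  obtain ⟨m, h1, m', h2, h3, h4, h5⟩ := hB.two
  have fin : {c | y ∈ Vc G b B c}.Finite := by
    refine ((hD m h4).union (hD m' h5)).subset fun c hc => ?_
    by_cases e1 : m = c
    · exact Or.inr (l2 hB hc h2 fun e2 => h3 (e1.trans e2.symm))
    · exact Or.inl (l2 hB hc h1 e1)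
  obtain ⟨c, hc⟩ := fin.exists_maximalFor (Vc G b B) _ (hB.cover y k e)
  refine ⟨c, ?_, Or.inr hc.1⟩
  by_contra e1
  obtain ⟨c', k1⟩ := hB.cover c (cut_KK h (vc_cut hc.1)) e1
  have k2 := l3 h hB k1
  exact not_self (hc.2 (k2 hc.1) k2 k1)

theorem edge (h : Bk S b) (hB : Blk G b B) {y' : X} (k : R G b B y c) (k' : R G b B y' c')
    (h1 : y' ∈ KK G b) (h2 : c' ≠ c) : c = y ∨ Sepa G b c y' y := by
  refine k.2.imp Eq.symm fun e => ?_
  have e1 : y' ≠ c := fun e1 => h2 (unique h hB k' ⟨k.1, Or.inl e1⟩)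
  exact ((l2 hB e k'.1 h2).cases h1 e1).resolve_left fun e2 =>
    h2 (unique h hB k' ⟨k.1, Or.inr ⟨c', k'.1, e2⟩⟩)

end LabL

open LabL in
open Ku.LabL (Vc R vc_cut vc_KK vc_open vc_nonempty mem_stab) in
theorem lab_stmt : LabStmt := by
  intro G Ω _ _ X _ _ _ _ N b pos B hb hd hD hD2 hB
  have h := hb.bk
  have md := hb.cs.md
  obtain ⟨m, m1, m', m2, m3, m4, m5⟩ := hB.two
  have hK : ∀ ω, lf N pos m ω ∈ KK G b := lf_KK md hb.ps (cut_KK h m4)
  have hF : ∀ ω k, CutP G b k → {c | Sepa G b c k (lf N pos m ω)}.Finite := fun ω k hk => by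
    rcases orb_or_cone N ω with ⟨x, rfl⟩ | e
    · rw [lf_orb md]
      exact hD _ _ hk (m4.smul x)
    · rw [lf_cone e]
      exact hD2 k ω hk e
  choose lam hl using fun ω : Ω => exists_R h hB (hK ω) (hF ω)
  have hl' : ∀ x : G, R G b B (x • m) (lam (x • N.o)) := fun x => lf_orb (pos := pos) md x ▸ hl _
  have hl2 : ∀ (x : G) (τ : Ω), R G b B (x • lf N pos m τ) (lam (x • τ)) := fun x τ =>
    lf_smul md hb.ps x τ ▸ hl _
  have freq : ∀ c ∈ B, ∀ ξ ∈ Vc G b B c, ∃ᶠ y in nf G b ξ, lam (y • N.o) = c := fun c hc ξ e => by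
    obtain ⟨O, a1, a2, a3⟩ := vc_open e
    exact (hd.dens m ξ (vc_KK e) O (a1.mem_nhds a2)).mono fun y k =>
      unique h hB (hl' y) ⟨hc, Or.inr (a3 ⟨k, cut_KK h (m4.smul y)⟩)⟩
  have occ : ∀ c ∈ B, CutP G b c → ∃ y : G, lam (y • N.o) = c := fun c hc k =>
    let ⟨ξ, e⟩ := vc_nonempty hB k
    (freq c hc ξ e).exists
  refine ⟨lam, MulAction.stabilizer G B, fun g hg ω => ?_, ?_, fun x => ?_, fun ξ e1 e2 => ?_, ?_,
    fun ω => ?_⟩
  · exact unique h hB (hl2 g ω) ((hl ω).smul hg)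
  · let P : Set X := ⋃ τ ∈ N.T, ({m, lf N pos m τ} ∪ {c | Sepa G b c m (lf N pos m τ)})
    have hP : P.Finite := N.T.finite_toSet.biUnion fun τ _ => (Set.toFinite _).union (hF τ m m4)
    have ex : ∀ p : X × X, ∃ x₀ : G, (∃ x : G, x • p.1 ∈ B ∧ x • p.2 ∈ B) →
        x₀ • p.1 ∈ B ∧ x₀ • p.2 ∈ B := fun p => by
      by_cases e : ∃ x : G, x • p.1 ∈ B ∧ x • p.2 ∈ B
      · exact e.imp fun _ k _ => k
      · exact ⟨1, fun k => absurd k e⟩
    choose x₀ hx₀ using ex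
    refine ⟨x₀ '' P ×ˢ P, (hP.prod hP).image _, fun x τ hτ e => ?_⟩
    have p1 : x⁻¹ • lam (x • N.o) ∈ P := by
      refine Set.mem_biUnion hτ ?_
      rcases edge h hB (hl' x) (hl2 x τ) ((smul_mem_KK x).2 (hK τ)) e with k | k
      · exact Or.inl (Or.inl (by rw [k, inv_smul_smul]))
      · exact Or.inr (by simpa using (k.smul x⁻¹).symm)
    have p2 : x⁻¹ • lam (x • τ) ∈ P := by
      refine Set.mem_biUnion hτ ?_
      rcases edge h hB (hl2 x τ) (hl' x) (cut_KK h (m4.smul x)) e.symm with k | k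
      · exact Or.inl (Or.inr (by rw [k, inv_smul_smul]; rfl))
      · exact Or.inr (by simpa using k.smul x⁻¹)
    obtain ⟨q1, q2⟩ := hx₀ (x⁻¹ • lam (x • N.o), x⁻¹ • lam (x • τ))
      ⟨x, by simpa using (hl' x).1, by simpa using (hl (x • τ)).1⟩
    refine ⟨x * (x₀ (x⁻¹ • lam (x • N.o), x⁻¹ • lam (x • τ)))⁻¹, mem_stab hB q1 q2
      ((MulAction.injective _).ne ((MulAction.injective _).ne e.symm)) ?_ ?_,
      (x⁻¹ • lam (x • N.o), x⁻¹ • lam (x • τ)), ⟨p1, p2⟩, by simp⟩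
    · simpa [mul_smul] using (hl' x).1
    · simpa [mul_smul] using (hl (x • τ)).1
  · have k : CutP G b (lam (x • N.o)) := (hl' x).2.elim (fun e => e ▸ m4.smul x) vc_cut
    obtain ⟨ξ, e⟩ := vc_nonempty hB k
    obtain ⟨O, a1, a2, a3⟩ := vc_open e
    exact ⟨O, a1, ⟨ξ, a2, vc_KK e⟩, fun ζ k' => freq _ (hl' x).1 ζ (a3 k')⟩
  · obtain ⟨c₀, k⟩ := hB.cover ξ e1 e2
    obtain ⟨c, a1, a2⟩ := exists_R h hB (cut_KK h (vc_cut k)) fun j hj => hD j c₀ hj (vc_cut k)
    exact ⟨c, fun e => e2 (e ▸ a1), freq c a1 ξ (a2.elim (fun e => e ▸ k) fun e => l3 h hB e k)⟩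
  · obtain ⟨x, e⟩ := occ m m1 m4
    obtain ⟨y, e'⟩ := occ m' m2 m5
    exact ⟨x, y, by rwa [e, e']⟩
  · rcases orb_or_cone N ω with ⟨x, rfl⟩ | e
    · exact Or.inl ⟨x, rfl⟩
    · rcases (hl ω).2 with k | k
      · exact Or.inr (k.symm.trans (lf_cone e))
      · exact Or.inl (occ _ (hl ω).1 (vc_cut k))

end Pool.Agent.MP_4f4d9f_gt.Rk

end

section

/-! The lemma of Koenig. -/

namespace Pool.Agent.MP_4f4d9f_gt.Ku

open Filter Topology Hy
open scoped Pointwise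

namespace KonL

variable {G : Type} [Group G] {S : Finset G}

/-- An infinite set with finitely many exits has an infinite connected part. -/
theorem comp (hS : Gen S) {A Z : Set G} (hA : Cnn S A) (hZ : Z ⊆ A) (hi : Z.Infinite)
    (hf : {x | x ∈ Z ∧ ∃ s ∈ S, x * s ∈ A ∧ x * s ∉ Z}.Finite) :
    ∃ Q, Q ⊆ Z ∧ Q.Infinite ∧ Cnn S Q := by
  by_cases e : A ⊆ Z
  · exact ⟨A, e, hi.mono hZ, hA⟩
  obtain ⟨y, hy, hy'⟩ := Set.not_subset.1 e
  by_contra hc
  refine hi ((hf.biUnion (t := fun w => {a | Conn S Z w a}) fun w _ => ?_).subset fun x hx => ?_)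
  · by_contra h
    exact hc ⟨_, fun a ha => Conn.right ha, h, cnn_comp hS Z w⟩
  · have key := (hA x (hZ hx) y hy).ind
      (P := fun b => Conn S Z x b ∨
        ∃ w ∈ {x | x ∈ Z ∧ ∃ s ∈ S, x * s ∈ A ∧ x * s ∉ Z}, Conn S Z x w)
      (Or.inl (Conn.refl hx)) fun a b _ hb k ih => by
        rcases ih with ih | ih
        · by_cases hbZ : b ∈ Z
          · exact Or.inl (ih.tail hbZ k)
          · exact Or.inr ⟨a, ⟨ih.right, _, k, by rwa [mul_inv_cancel_left],
              by rwa [mul_inv_cancel_left]⟩, ih⟩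
        · exact Or.inr ih
    rcases key with key | ⟨w, hw, key⟩
    · exact absurd key.right hy'
    · exact Set.mem_biUnion hw (key.symm hS)

/-- Removing a finite set from an infinite connected set. -/
theorem cut (hS : Gen S) {Q Φ : Set G} (hQ : Cnn S Q) (hi : Q.Infinite) (hΦ : Φ.Finite) :
    ∃ Q', Q' ⊆ Q \ Φ ∧ Q'.Infinite ∧ Cnn S Q' := by
  refine comp hS hQ Set.sdiff_subset (hi.sdiff hΦ) ((hΦ.mul S.finite_toSet).subset ?_)
  rintro x ⟨-, s, hs, h1, h2⟩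
  exact ⟨x * s, by_contra fun k => h2 ⟨h1, k⟩, s⁻¹, hS.inv s hs, by simp⟩

end KonL

open KonL in
theorem kon_stmt : KonStmt := by
  intro G _ S hS A Z hA hZ hi hf
  have := hS.countable
  obtain ⟨e, he⟩ := exists_surjective_nat G
  let Φ : ℕ → Set G := fun k => e '' Set.Iio k
  have hfin : ∀ k, (Φ k).Finite := fun k => (Set.finite_Iio k).image e
  have hΦ : ∀ F : Set G, F.Finite → ∀ᶠ k in atTop, F ⊆ Φ k := fun F hF =>
    (eventually_all_finite hF).2 fun x _ => by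
      obtain ⟨i, rfl⟩ := he x
      exact (eventually_gt_atTop i).mono fun k hk => ⟨i, hk, rfl⟩
  obtain ⟨Q, hQ, hk⟩ := NestedL.exists_seq
    (R := fun k Q => Q ⊆ Z \ Φ k ∧ Q.Infinite ∧ Cnn S Q)
    (by
      obtain ⟨Q, h1, h2, h3⟩ := comp hS hA hZ hi hf
      obtain ⟨Q', k1, k2, k3⟩ := cut hS h3 h2 (hfin 0)
      exact ⟨Q', k1.trans (Set.sdiff_subset_sdiff_left h1), k2, k3⟩)
    (by
      rintro k Q ⟨h1, h2, h3⟩
      obtain ⟨Q', k1, k2, k3⟩ := cut hS h3 h2 (hfin (k + 1))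
      exact ⟨Q', ⟨k1.trans (Set.sdiff_subset_sdiff_left (h1.trans Set.sdiff_subset)), k2, k3⟩,
        k1.trans Set.sdiff_subset⟩)
  obtain ⟨z, z1, z2⟩ := CutPtL.ray hS Q hQ (fun k => (hk k).2.1.nonempty) fun k => (hk k).2.2
  have hesc : Tendsto z atTop cofinite := fun F hF => by
    obtain ⟨k, hk'⟩ := (hΦ _ (mem_cofinite.1 hF)).exists
    refine mem_map.2 ((z2 k).mono fun n hn => ?_)
    by_contra hc
    exact ((hk k).1 hn).2 (hk' hc)
  obtain ⟨N, hN⟩ := eventually_atTop.1 (z2 0)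
  refine ⟨fun n => z (n + N), ⟨fun n => ?_, hesc.comp (tendsto_add_atTop_nat N)⟩,
    fun n => ((hk 0).1 (hN _ (Nat.le_add_left _ _))).1⟩
  rw [Nat.add_right_comm]
  exact z1 _

end Pool.Agent.MP_4f4d9f_gt.Ku

end

section

/-! Parabolic points are not conical. -/

namespace Pool.Agent.MP_4f4d9f_gt.Ku

open Filter Topology Hy

namespace PrbL

variable {G : Type} [Group G] {X : Type} [MetricSpace X] [MulAction G X] {b : X}

theorem neg_cof : Tendsto (fun j : ℤ => -j) cofinite cofinite :=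
  Function.Injective.tendsto_cofinite neg_injective

theorem inv_pow {g : G} {p : X} (h : Tendsto (fun j : ℤ => g ^ j • b) cofinite (𝓝 p)) :
    Tendsto (fun j : ℤ => g⁻¹ ^ j • b) cofinite (𝓝 p) :=
  (h.comp neg_cof).congr fun j => by simp only [Function.comp, zpow_neg, inv_zpow]

/-- North-south dynamics: the positive powers stay close to the attracting point. -/
theorem ns {g : G} {a r p : X} {e : ℝ}
    (h0 : ¬ ∃ z, e ≤ dist (g • z) (g • b) ∧ e ≤ dist z (g⁻¹ • b))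
    (h1 : dist (g • b) a < e) (h2 : dist (g⁻¹ • b) r < e) (h3 : 5 * e ≤ dist a r)
    (h4 : Tendsto (fun j : ℤ => g ^ j • b) cofinite (𝓝 p)) : dist p a ≤ 2 * e := by
  have he : 0 < e := dist_nonneg.trans_lt h1
  have key : ∀ j : ℕ, dist (g ^ (j + 1) • b) a < 2 * e := by
    intro j
    induction j with
    | zero => rw [zero_add, pow_one]; linarith
    | succ j ih =>
      have k1 : e ≤ dist (g ^ (j + 1) • b) (g⁻¹ • b) := by
        have t1 := dist_triangle a (g ^ (j + 1) • b) r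
        have t2 := dist_triangle (g ^ (j + 1) • b) (g⁻¹ • b) r
        rw [dist_comm a (g ^ (j + 1) • b)] at t1
        linarith
      have k2 : dist (g • g ^ (j + 1) • b) (g • b) < e := not_le.1 fun k => h0 ⟨_, k, k1⟩
      have t := dist_triangle (g • g ^ (j + 1) • b) (g • b) a
      rw [pow_succ' g (j + 1), mul_smul]
      linarith
  have h5 : Tendsto (fun j : ℕ => ((j + 1 : ℕ) : ℤ)) atTop cofinite := by
    rw [← Nat.cofinite_eq_atTop]
    exact Function.Injective.tendsto_cofinite fun i j k => by simpa using k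
  refine le_of_tendsto' ((h4.comp h5).dist tendsto_const_nhds) fun j => ?_
  simpa only [Function.comp, zpow_natCast] using (key j).le

variable [CompactSpace X] [ContinuousConstSMul G X]

theorem pw (h : Cv G b) {η : G} {c : X} (h1 : ¬ IsOfFinOrder η)
    (h2 : ∀ ξ, ξ ≠ c → (Subgroup.zpowers η : Set G)ᶜ ∈ nf G b ξ) (v w : G) :
    Tendsto (fun j : ℤ => v * (η ^ j * w)) cofinite (nf G b (v • c)) := by
  have k1 : Tendsto (fun j : ℤ => η ^ j) cofinite cofinite :=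
    Function.Injective.tendsto_cofinite (injective_zpow_iff_not_isOfFinOrder.2 h1)
  have k2 : Tendsto (fun j : ℤ => η ^ j) cofinite (nf G b c) := by
    refine tendsto_nf.2 ⟨Metric.tendsto_nhds.2 fun ε hε => ?_, k1⟩
    filter_upwards [k1 (only_iff.1 h2 ε hε).compl_mem_cofinite] with j hj
    exact not_le.1 fun k => hj ⟨⟨j, rfl⟩, k⟩
  exact (nf_left v).comp ((h.nf_right w).comp k2)

end PrbL

open PrbL in
theorem prb_stmt : PrbStmt := by
  intro G _ X _ _ _ _ b h η c h1 h2 ε hε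
  by_contra hinf
  -- powers of the conjugates
  have p1 : ∀ v : G, Tendsto (fun j : ℤ => (v * η * v⁻¹) ^ j) cofinite (nf G b (v • c)) :=
    fun v => (pw h h1 h2 v v⁻¹).congr fun j => by rw [conj_zpow, mul_assoc]
  have p2 : ∀ v : G, Tendsto (fun j : ℤ => (v * η * v⁻¹) ^ j • b) cofinite (𝓝 (v • c)) :=
    fun v => (tendsto_nf.1 (p1 v)).1
  have p3 : η • c = c := by
    have a1 := (tendsto_nf.1 (pw h h1 h2 η 1)).1
    have a2 := (tendsto_nf.1 (pw h h1 h2 1 η)).1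
    rw [one_smul] at a2
    refine tendsto_nhds_unique a1 (a2.congr fun j => ?_)
    rw [one_mul, mul_one, ← zpow_add_one, ← zpow_one_add, add_comm]
  have : (cofinite ⊓ 𝓟 {v : G | ε ≤ dist (v • b) (v • c)}).NeBot :=
    frequently_mem_iff_neBot.1 (frequently_cofinite_iff_infinite.2 hinf)
  obtain ⟨U, hU⟩ := (cofinite ⊓ 𝓟 {v : G | ε ≤ dist (v • b) (v • c)}).exists_ultrafilter_le
  obtain ⟨α, hα⟩ := ultra_lim U fun v : G => v • b
  obtain ⟨β, hβ⟩ := ultra_lim U fun v : G => v • c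
  have ne : α ≠ β := by
    refine dist_pos.1 (hε.trans_le (ge_of_tendsto (hα.dist hβ) ?_))
    exact le_principal_iff.1 (hU.trans inf_le_right)
  have q1 : Tendsto (fun v : G => v) U (nf G b α) :=
    tendsto_nf.2 ⟨hα, tendsto_id'.2 (hU.trans inf_le_left)⟩
  have q2 : Tendsto (fun v : G => (v * η * v⁻¹) • v • b) U (𝓝 α) :=
    (tendsto_nf.1 ((h.nf_right η).comp q1)).1.congr fun v => by
      simp only [Function.comp, mul_smul, inv_smul_smul]
  have q3 : Tendsto (fun v : G => (v * η * v⁻¹) • v • c) U (𝓝 β) :=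
    hβ.congr fun v => by simp only [mul_smul, inv_smul_smul, p3]
  rcases (U.map fun v : G => v * η * v⁻¹).le_cofinite_or_eq_pure with k | ⟨d, k⟩
  · have k1 : Tendsto (fun v : G => v * η * v⁻¹) U cofinite := k
    have k2 : Tendsto (fun v : G => (v * η * v⁻¹)⁻¹) U cofinite :=
      (Function.Injective.tendsto_cofinite inv_injective).comp k1
    obtain ⟨a, ha⟩ := ultra_lim U fun v : G => (v * η * v⁻¹) • b
    obtain ⟨r, hr⟩ := ultra_lim U fun v : G => (v * η * v⁻¹)⁻¹ • b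
    have b1 : α = r ∨ α = a :=
      or_iff_not_imp_left.2 fun e => tendsto_nhds_unique q2 (h.tendsto k1 ha hr hα e)
    have b2 : β = r ∨ β = a :=
      or_iff_not_imp_left.2 fun e => tendsto_nhds_unique q3 (h.tendsto k1 ha hr hβ e)
    have b3 : 0 < dist a r / 5 := by
      refine div_pos (dist_pos.2 fun e => ne ?_) (by norm_num)
      rw [← e, or_self] at b1 b2
      rw [b1, b2]
    have f := (h.conv _ b3).compl_mem_cofinite
    obtain ⟨v, ⟨c1, c2⟩, c3, c4⟩ := (((k1.eventually f).and (k2.eventually f)).and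
      ((Metric.tendsto_nhds.1 ha _ b3).and (Metric.tendsto_nhds.1 hr _ b3))).exists
    have d1 := ns c1 c3 c4 (by linarith) (p2 v)
    have d2 := ns c2 c4 (by rwa [inv_inv]) (by rw [dist_comm r a]; linarith) (inv_pow (p2 v))
    have t := dist_triangle_left a r (v • c)
    linarith
  · have k1 : ∀ᶠ v in (U : Filter G), v * η * v⁻¹ = d := by
      have : ({d} : Set G) ∈ U.map fun v : G => v * η * v⁻¹ := by
        rw [k]
        exact Ultrafilter.mem_pure.2 rfl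
      exact this
    obtain ⟨v, hv⟩ := k1.exists
    have k2 : d • α = α :=
      tendsto_nhds_unique (hα.const_smul d) (q2.congr' (k1.mono fun u hu => by simp only [hu]))
    have k3 : v • c = β := by
      refine tendsto_nhds_unique (tendsto_const_nhds.congr' (k1.mono fun u hu => ?_)) hβ
      refine tendsto_nhds_unique (p2 v) ?_
      rw [hv, ← hu]
      exact p2 u
    have k4 := p2 v
    have k5 := (tendsto_nf.1 (p1 v)).2
    rw [hv] at k4 k5
    rw [k3] at k4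
    have k6 := h.tendsto k5 k4 ((inv_pow k4).congr fun j => by rw [inv_zpow])
      (tendsto_const_nhds (x := α)) ne
    refine ne (tendsto_nhds_unique (tendsto_const_nhds.congr fun j => ?_) k6)
    exact ((MulAction.stabilizer G α).zpow_mem k2 j).symm

end Pool.Agent.MP_4f4d9f_gt.Ku

end

section

/-! The assembly of the relative Liouville theorem. -/

namespace Pool.Agent.MP_4f4d9f_gt.Rk

/-- The relative Liouville theorem. -/
theorem m_stmt : MStmt :=
  m_of cs_stmt Ku.kon_stmt nst_stmt pot_stmt df_stmt osc_stmt dec_stmt tight_stmt cont_stmt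
    unif_stmt kur_stmt cv_stmt lc_stmt wc_stmt Ku.zal_stmt Ku.vc_stmt Ku.prb_stmt dyn_stmt
    lemR_stmt (ordLim_stmt ord3_stmt limQ_stmt) disc_stmt disc2_stmt blk_stmt lab_stmt t10_stmt
    celA_stmt celB_stmt null_stmt cel0_stmt three_stmt last_stmt

end Pool.Agent.MP_4f4d9f_gt.Rk

end

section

/-! Existence of the potentials. -/

namespace Pool.Agent.MP_4f4d9f_gt.Ku

open Hy

namespace PotL

variable {G : Type}

theorem mem_iff {f : G → ℝ} : Memℓp f 2 ↔ Sq f := by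
  rw [memℓp_gen_iff (by norm_num)]
  simp [Sq]

/-- Square summable functions on the edges. -/
abbrev H (S : Finset G) : Type := lp (fun _ : S => lp (fun _ : G => ℝ) 2) 2

variable {S : Finset G}

theorem exists_e (s : S) (x : G) : ∃ e : H S, ∀ w : H S, inner ℝ e w = w s x := by
  classical
  refine ⟨lp.single 2 s (lp.single 2 x 1), fun w => ?_⟩
  rw [lp.inner_single_left, lp.inner_single_left]
  simp

variable [Group G]

/-- `w` is the gradient of `f`. -/
def Gr (w : H S) (f : G → ℝ) : Prop := ∀ (s : S) (x : G), w s x = f (x * s) - f x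

theorem Gr.dir {w : H S} {f : G → ℝ} (h : Gr w f) : Dir S f := fun s hs => by
  have h1 := mem_iff.1 (lp.memℓp (w ⟨s, hs⟩))
  have h2 : (fun x => f (x * s) - f x) = w ⟨s, hs⟩ := funext fun x => (h ⟨s, hs⟩ x).symm
  rw [h2]
  exact h1

theorem exists_gr {f : G → ℝ} (h : Dir S f) : ∃ w : H S, Gr w f :=
  ⟨⟨fun s => ⟨fun x => f (x * s) - f x, mem_iff.2 (h s s.2)⟩, Memℓp.all _⟩, fun _ _ => rfl⟩

theorem Gr.inner {w w' : H S} {f g : G → ℝ} (h : Gr w f) (h' : Gr w' g) :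
    inner ℝ w w' = BB S f g := by
  rw [lp.inner_eq_tsum, tsum_fintype, BB, ← Finset.sum_coe_sort S]
  refine Finset.sum_congr rfl fun s _ => ?_
  rw [lp.inner_eq_tsum]
  refine tsum_congr fun x => ?_
  rw [h s x, h' s x, real_inner_eq_re_inner ℝ, RCLike.inner_apply]
  simp [mul_comm]

theorem exists_v (hS : Gen S) (y : G) :
    ∃ v : H S, ∀ (w : H S) (f : G → ℝ), Gr w f → inner ℝ v w = f y - f 1 := by
  induction y using hS.ind with
  | h1 => exact ⟨0, fun w f _ => by rw [inner_zero_left, sub_self]⟩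
  | h x s hs ih =>
    obtain ⟨v, hv⟩ := ih
    obtain ⟨e, he⟩ := exists_e (⟨s, hs⟩ : S) x
    refine ⟨v + e, fun w f h => ?_⟩
    rw [inner_add_left, hv w f h, he, h]
    ring

end PotL

open PotL in
theorem pot_stmt : PotStmt := by
  intro G _ S hS
  choose v hv using exists_v hS
  choose e he using exists_e (S := S)
  let K : Submodule ℝ (H S) :=
    Submodule.span ℝ (Set.range fun p : S × G => e p.1 p.2 - (v (p.2 * p.1) - v p.2))
  have hK : ∀ w : H S, w ∈ Kᗮ ↔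
      ∀ (s : S) (x : G), w s x = inner ℝ (v (x * s)) w - inner ℝ (v x) w := by
    intro w
    constructor
    · intro h s x
      have := h _ (Submodule.subset_span ⟨(s, x), rfl⟩)
      rw [inner_sub_left, inner_sub_left, he] at this
      exact sub_eq_zero.1 this
    · intro h u hu
      induction hu using Submodule.span_induction with
      | mem u hu =>
        obtain ⟨p, rfl⟩ := hu
        rw [inner_sub_left, inner_sub_left, he, h, sub_self]
      | zero => exact inner_zero_left _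
      | add a b _ _ ha hb => rw [inner_add_left, ha, hb, add_zero]
      | smul r a _ ha => rw [inner_smul_left, ha, mul_zero]
  have key : ∀ y, ∃ ψ : G → ℝ, Dip S ψ 1 y ∧ ψ 1 = 0 := by
    intro y
    obtain ⟨a, ha, b, hb, hab⟩ := Kᗮ.exists_add_mem_mem_orthogonal (v y)
    have h1 : Gr a fun x => inner ℝ (v x) a := (hK a).1 ha
    refine ⟨fun x => inner ℝ (v x) a, ⟨h1.dir, fun f hf => ?_⟩, (hv 1 a _ h1).trans (sub_self _)⟩
    obtain ⟨w, hw⟩ := exists_gr hf
    have h2 : w ∈ Kᗮ := (hK w).2 fun s x => by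
      rw [hv _ w f hw, hv _ w f hw, hw]
      ring
    rw [← h1.inner hw, ← hv y w f hw, hab, inner_add_left, real_inner_comm w b, hb w h2, add_zero]
  choose φ h1 h2 using key
  exact ⟨φ, h1, h2⟩

end Pool.Agent.MP_4f4d9f_gt.Ku

end

section

/-! The compactification of a group by potentials. -/

namespace Pool.Agent.MP_4f4d9f_gt.Ku

open Filter Topology Hy

namespace KurL

variable {G : Type} [Group G] {S : Finset G} {φ : G → G → ℝ}

/-- The embedding of the group. -/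
def io (φ : G → G → ℝ) (x : G) : G → ℝ := fun u => φ u x

/-- The affine action. -/
def act (φ : G → G → ℝ) (g : G) (ξ : G → ℝ) : G → ℝ := fun u => ξ (g⁻¹ * u) - ξ g⁻¹ + φ u g

theorem act_cont (g : G) : Continuous (act φ g) :=
  continuous_pi fun u =>
    ((continuous_apply (g⁻¹ * u)).sub (continuous_apply g⁻¹)).add continuous_const

theorem act_io (hS : Gen S) (h : Pot S φ) (g x : G) : act φ g (io φ x) = io φ (g * x) :=
  funext fun u => (h.transl hS u g x).symm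

theorem maps (hS : Gen S) (h : Pot S φ) (g : G) :
    Set.MapsTo (act φ g) (closure (Set.range (io φ))) (closure (Set.range (io φ))) := by
  refine Set.MapsTo.closure ?_ (act_cont g)
  rintro _ ⟨x, rfl⟩
  exact ⟨_, (act_io hS h g x).symm⟩

theorem act_one (hS : Gen S) (h : Pot S φ) :
    Set.EqOn (act φ 1) id (closure (Set.range (io φ))) := by
  refine Set.EqOn.closure ?_ (act_cont 1) continuous_id
  rintro _ ⟨x, rfl⟩
  rw [act_io hS h, one_mul, id]

theorem act_mul (hS : Gen S) (h : Pot S φ) (g g' : G) :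
    Set.EqOn (act φ (g * g')) (act φ g ∘ act φ g') (closure (Set.range (io φ))) := by
  refine Set.EqOn.closure ?_ (act_cont _) ((act_cont g).comp (act_cont g'))
  rintro _ ⟨x, rfl⟩
  rw [Function.comp_apply, act_io hS h, act_io hS h, act_io hS h, mul_assoc]

theorem cpt (hD : DF S) (h : Pot S φ) : IsCompact (closure (Set.range (io φ))) := by
  have k := isCompact_univ_pi fun u : G => isCompact_Icc (a := (0 : ℝ)) (b := φ u u)
  refine k.of_isClosed_subset isClosed_closure (closure_minimal ?_ k.isClosed)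
  rintro _ ⟨x, rfl⟩ u -
  exact h.range hD u x

end KurL

open KurL in
theorem kur_stmt : KurStmt := by
  intro G _ S φ hS hD h
  have := hS.countable
  have hc : CompactSpace (closure (Set.range (io φ))) := isCompact_iff_compactSpace.1 (cpt hD h)
  let A : MulAction G (closure (Set.range (io φ))) :=
    { smul := fun g ξ => ⟨act φ g ξ.1, maps hS h g ξ.2⟩
      one_smul := fun ξ => Subtype.ext (act_one hS h ξ.2)
      mul_smul := fun g g' ξ => Subtype.ext (act_mul hS h g g' ξ.2) }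
  have e : ∀ x : G, (x • (⟨io φ 1, subset_closure ⟨1, rfl⟩⟩ : closure (Set.range (io φ)))).1 =
      io φ x := fun x => (act_io hS h x 1).trans (by rw [mul_one])
  let M : MetricSpace (closure (Set.range (io φ))) := TopologicalSpace.metrizableSpaceMetric _
  refine ⟨closure (Set.range (io φ)), M, hc, A,
    ⟨fun g => ((act_cont g).comp continuous_subtype_val).subtype_mk _⟩,
    ⟨io φ 1, subset_closure ⟨1, rfl⟩⟩, fun u z => z.1 u,
    fun u => (continuous_apply u).comp continuous_subtype_val,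
    fun z z' k => Subtype.ext (funext k), fun u x => congrFun (e x) u, fun z => ?_⟩
  refine closure_subtype.2 (closure_mono ?_ z.2)
  rintro _ ⟨x, rfl⟩
  exact ⟨_, ⟨x, rfl⟩, e x⟩

end Pool.Agent.MP_4f4d9f_gt.Ku

end

section

/-! Dynamics on the limit set. -/

namespace Pool.Agent.MP_4f4d9f_gt.Ku

open Filter Topology Hy

namespace DynL

variable {G : Type} [Group G] {X : Type} [MetricSpace X] [MulAction G X] {S : Finset G} {b : X}

theorem three (h : Bd S b) :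
    ∃ a : Fin 3 → X, Function.Injective a ∧ ∀ i, Ac S b Set.univ (a i) := by
  obtain ⟨ξ, η, h1, h2, h3⟩ := h.two
  obtain ⟨o, e1, e2, -⟩ := h.wc ξ η h1 h2 h3 {ξ, η} (Set.toFinite _)
  have e3 : o ≠ ξ := fun k => e1 (Or.inl k)
  have e4 : o ≠ η := fun k => e1 (Or.inr k)
  refine ⟨![ξ, η, o], fun i j k => ?_, fun i => ?_⟩
  · fin_cases i <;> fin_cases j <;>
      first
        | rfl
        | exact absurd k h3
        | exact absurd k h3.symm
        | exact absurd k e3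
        | exact absurd k e3.symm
        | exact absurd k e4
        | exact absurd k e4.symm
  · fin_cases i
    · exact h1
    · exact h2
    · exact e2

theorem freq_top {ξ : X} (h : ξ ∈ KK G b) : ∃ᶠ g in nf G b ξ, g ∈ (⊤ : Subgroup G) :=
  have : (nf G b ξ).NeBot := h
  Frequently.of_forall fun g => Subgroup.mem_top g

theorem nofix (h : Bd S b) (vc : VC G b) (c : X) : ∃ g : G, g • c ≠ c := by
  by_contra k
  have k1 : ∀ g ∈ (⊤ : Subgroup G), g • c = c := fun g _ => not_not.1 fun e => k ⟨g, e⟩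
  obtain ⟨a, h1, h2⟩ := three h
  obtain ⟨i, hi⟩ : ∃ i, a i ≠ c := by
    by_cases e : a 0 = c
    · exact ⟨1, fun e' => absurd (h1 (e.trans e'.symm)) (by decide)⟩
    · exact ⟨0, e⟩
  have k2 := (vc ⊤ c (a i) k1 hi (freq_top (h2 i).mem)).1
  obtain ⟨j, j', e1, e2, e3⟩ := (by decide : ∀ i : Fin 3, ∃ j j', j ≠ i ∧ j' ≠ i ∧ j ≠ j') i
  have k3 : ∀ j, j ≠ i → a j = c := fun j hj =>
    (k2 (a j) (freq_top (h2 j).mem)).resolve_left fun e => hj (h1 e)
  exact e3 (h1 ((k3 j e1).trans (k3 j' e2).symm))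

variable [CompactSpace X] [ContinuousConstSMul G X]

theorem perf (h : Bd S b) {ξ : X} (h1 : ξ ∈ KK G b) {O : Set X} (h2 : O ∈ 𝓝 ξ) :
    (O ∩ KK G b).Infinite := by
  intro hf
  have h3 : ((O ∩ KK G b) \ {ξ})ᶜ ∈ 𝓝 ξ :=
    (hf.subset Set.diff_subset).isClosed.isOpen_compl.mem_nhds fun e => e.2 rfl
  obtain ⟨r, hr, h4⟩ := Metric.mem_nhds_iff.1 (inter_mem h2 h3)
  have h5 : ∀ ζ ∈ KK G b, ζ ≠ ξ → {x : G | dist (x • b) ξ < r / 2}ᶜ ∈ nf G b ζ := by
    intro ζ e1 e2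
    have e3 : r ≤ dist ζ ξ := not_lt.1 fun e => (h4 e).2 ⟨⟨(h4 e).1, e1⟩, e2⟩
    filter_upwards [nf_tendsto (Metric.ball_mem_nhds ζ (half_pos hr))] with x hx k
    have k1 : dist (x • b) ζ < r / 2 := hx
    have k2 : dist (x • b) ξ < r / 2 := k
    have := dist_triangle_left ζ ξ (x • b)
    linarith
  have h6 : {x : G | dist (x • b) ξ < r / 2} ∈ nf G b ξ :=
    nf_tendsto (Metric.ball_mem_nhds ξ (half_pos hr))
  obtain ⟨η, e1, e2⟩ : ∃ η ∈ KK G b, η ≠ ξ := by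
    obtain ⟨u, v, a1, a2, a3⟩ := h.two
    by_cases e : u = ξ
    · exact ⟨v, a2.mem, fun k => a3 (e.trans k.symm)⟩
    · exact ⟨u, a1.mem, e⟩
  refine (h.fin_or fun ζ => ?_).elim (infinite_of_mem h1 h6) (infinite_of_mem e1 (h5 η e1 e2))
  by_cases k : ζ ∈ KK G b
  · by_cases k' : ζ = ξ
    · exact Or.inl (k' ▸ h6)
    · exact Or.inr (h5 ζ k k')
  · rw [not_neBot.1 k]
    exact Or.inl mem_bot

theorem dens (h : Bd S b) (vc : VC G b) (m : X) {α : X} (h1 : α ∈ KK G b) {O : Set X}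
    (h2 : O ∈ 𝓝 α) : ∃ᶠ x in nf G b α, x • m ∈ O := by
  have : (nf G b α).NeBot := h1
  obtain ⟨U, hU⟩ := (nf G b α).exists_ultrafilter_le
  obtain ⟨r, hr⟩ := ultra_lim U fun x : G => x⁻¹ • b
  obtain ⟨w, hw⟩ : ∃ w : G, w • m ≠ r := by
    by_cases e : m = r
    · exact e ▸ nofix h vc m
    · exact ⟨1, by rwa [one_smul]⟩
  have k1 : Tendsto (fun x : G => x • (w • m)) U (𝓝 α) :=
    h.cv.tendsto (g := fun x : G => x) (z := fun _ => w • m) (tendsto_id'.2 (hU.trans nf_le))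
      (nf_tendsto.mono_left hU) hr tendsto_const_nhds hw
  have k2 : Tendsto (fun x : G => x * w) U (nf G b α) := (h.cv.nf_right w).mono_left hU
  refine k2.frequently (Eventually.frequently ?_)
  filter_upwards [k1 h2] with x hx
  rw [mul_smul]
  exact hx

end DynL

theorem dyn_stmt : DynStmt := fun _ _ _ _ _ _ _ _ _ h vc =>
  ⟨fun _ h1 _ h2 => DynL.perf h h1 h2, DynL.three h, DynL.nofix h vc,
    fun m _ h1 _ h2 => DynL.dens h vc m h1 h2⟩

end Pool.Agent.MP_4f4d9f_gt.Ku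

end

section

/-! Job `Blk`: existence of a block. -/

namespace Pool.Agent.MP_4f4d9f_gt.Ku

open Filter Topology Hy

namespace BlkL

variable {G : Type} [Group G] {X : Type} [MetricSpace X] [CompactSpace X] [MulAction G X]
  [ContinuousConstSMul G X] {S : Finset G} {b : X}

/-- Two different cut points that no point separates. -/
theorem adj (bd : Bd S b) (disc : Disc G b) (n : ℕ) : ∀ m m', m ≠ m' → CutP G b m →
    CutP G b m' → {c | Sepa G b c m m'}.ncard = n →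
    ∃ m m', m ≠ m' ∧ CutP G b m ∧ CutP G b m' ∧ ∀ c, ¬ Sepa G b c m m' := by
  induction n using Nat.strong_induction_on with
  | _ n ih =>
    intro m m' h1 h2 h3 h4
    by_cases e : ∃ c, Sepa G b c m m'
    · obtain ⟨c, hc⟩ := e
      refine ih _ (h4 ▸ Set.ncard_lt_ncard ⟨fun c' k => bd.sepa_trans hc k, fun k => ?_⟩
        (disc m m' h2 h3)) m c hc.2.2.1 h2 ⟨_, _, hc⟩ rfl
      exact (k hc).2.2.2.1 rfl
    · exact ⟨m, m', h1, h2, h3, not_exists.1 e⟩

end BlkL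

theorem blk_stmt : BlkStmt := by
  rintro G _ X _ _ _ _ S b bd dyn disc ⟨c₀, h₀⟩
  obtain ⟨g, hg⟩ := dyn.nofix c₀
  obtain ⟨m, m', h1, h2, h3, h4⟩ := BlkL.adj bd disc _ _ _ hg (h₀.smul g) h₀ rfl
  have k1 : m ∈ KK G b := let ⟨_, _, k⟩ := h2; bd.sepa_mem k
  have k2 : m' ∈ KK G b := let ⟨_, _, k⟩ := h3; bd.sepa_mem k
  have b1 : m ∈ KK G b ∧ ∀ c, ¬ Sepa G b c m m ∧ ¬ Sepa G b c m' m :=
    ⟨k1, fun c => ⟨not_sepa_self, fun k => h4 c k.symm⟩⟩
  have b2 : m' ∈ KK G b ∧ ∀ c, ¬ Sepa G b c m m' ∧ ¬ Sepa G b c m' m' :=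
    ⟨k2, fun c => ⟨h4 c, not_sepa_self⟩⟩
  refine ⟨{ξ | ξ ∈ KK G b ∧ ∀ c, ¬ Sepa G b c m ξ ∧ ¬ Sepa G b c m' ξ}, fun _ k => k.1,
    fun c ξ e1 η e2 k => ?_, fun ξ e1 e2 => ?_, m, b1, m', b2, h1, h2, h3⟩
  · by_cases e : m = c
    · exact (k.cases k2 fun e' => h1 (e.trans e'.symm)).elim
        (fun a => (e1.2 c).2 a.symm) (e2.2 c).2
    · exact (k.cases k1 e).elim (fun a => (e1.2 c).1 a.symm) (e2.2 c).1
  · by_contra k
    exact e2 ⟨e1, fun c => ⟨fun a => k ⟨c, m, b1, a⟩, fun a => k ⟨c, m', b2, a⟩⟩⟩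

end Pool.Agent.MP_4f4d9f_gt.Ku

end

section

/-! All but finitely many cells are small. -/

namespace Pool.Agent.MP_4f4d9f_gt.Ku

open Filter Topology Hy
open scoped Pointwise

namespace NullL

variable {G : Type} [Group G] {X : Type} [MetricSpace X] [MulAction G X]
  [ContinuousConstSMul G X] {S : Finset G} {b : X} {B : Set X} {lam : G → X}
  {H : Subgroup G} {V : Set G} {D : G → Set G}

omit [ContinuousConstSMul G X] in
theorem near (hS : Gen S) (ce : Cel S b B lam H V D) {x y : G} (hy : y ∈ Bdy S (D x)) :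
    ∃ y' ∈ D x ∩ V, ∃ s ∈ S, y = y' * s := by
  by_cases e : y ∈ D x
  · exact ⟨y, ⟨e, ce.out x hy⟩, 1, hS.one, (mul_one y).symm⟩
  · obtain ⟨s, hs, k⟩ := mem_bdy.1 hy
    refine ⟨y * s, ⟨by_contra fun k' => k (iff_of_false e k'), ce.out x ?_⟩, s⁻¹, hS.inv s hs,
      by simp⟩
    exact Cr.right hS k (by simpa using hs)

omit [ContinuousConstSMul G X] in
theorem inter_smul (ce : Cel S b B lam H V D) {h : G} (hh : h ∈ H) (t : G) :
    D (h * t) ∩ V = h • (D t ∩ V) := by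
  rw [ce.smul h hh]
  ext x
  obtain ⟨x, rfl⟩ := (Group.mulLeft_bijective h).2 x
  change h • x ∈ _ ↔ h • x ∈ _
  rw [Set.mem_inter_iff, Set.smul_mem_smul_set_iff, Set.smul_mem_smul_set_iff, Set.mem_inter_iff]
  refine and_congr_right fun _ => ⟨fun k => ?_, ce.inv h hh x⟩
  simpa using ce.inv h⁻¹ (H.inv_mem hh) _ k

theorem para (bd : Bd S b) (prb : Prb G b) (ce : Cel S b B lam H V D) {t : G} (ht : t ∈ V)
    (hi : (D t ∩ V).Infinite) {e : ℝ} (he : 0 < e) :
    {v : G | e ≤ dist (v • b) (v • lam t)}.Finite := by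
  obtain ⟨T, hT, h1⟩ := ce.orb
  have h2 : ∀ x, ∃ h ∈ H, x ∈ V → h⁻¹ * x ∈ T := fun x => by
    by_cases k : x ∈ V
    · exact (h1 x k).imp fun h k' => ⟨k'.1, fun _ => k'.2⟩
    · exact ⟨1, H.one_mem, fun k' => absurd k' k⟩
  choose h h3 h4 using h2
  obtain ⟨x, hx, x', hx', h5, h6⟩ := hi.exists_ne_map_eq_of_mapsTo
    (f := fun x => (h x)⁻¹ * x) (fun x hx => h4 x hx.2) hT
  have h7 : h x' * (h x)⁻¹ * x = x' := by
    rw [mul_assoc, show (h x)⁻¹ * x = (h x')⁻¹ * x' from h6, mul_inv_cancel_left]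
  have h8 : h x' * (h x)⁻¹ ∈ MulAction.stabilizer G (D t) := by
    rw [MulAction.mem_stabilizer_iff]
    have := ce.smul _ (H.mul_mem (h3 x') (H.inv_mem (h3 x))) x
    rw [h7, ce.eqv t x hx.1, ce.eqv t x' hx'.1] at this
    exact this.symm
  refine prb (h x' * (h x)⁻¹) (lam t) (fun k => h5 ?_) (fun ξ k => ?_) e he
  · rw [← h7, bd.tf _ k, one_mul]
  · refine mem_of_superset (bd.cv.nf_right t (ce.only t ht ξ k)) fun g hg k' => hg ?_
    have k1 : g • D t = D t := (Subgroup.zpowers_le_of_mem h8) k'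
    rw [← k1, bdy_smul]
    exact Set.smul_mem_smul_set (ce.bin t ht)

theorem fin1 (bd : Bd S b) (prb : Prb G b) (ce : Cel S b B lam H V D) {e : ℝ} (he : 0 < e) :
    {x | x ∈ V ∧ (D x ∩ V).Infinite ∧ e ≤ dist (x • b) (lam x)}.Finite := by
  obtain ⟨T, hT, h1⟩ := ce.orb
  have h2 := half_pos he
  refine ((hT.subset (t := {t | t ∈ T ∧ t ∈ V ∧ (D t ∩ V).Infinite}) fun _ k => k.1).biUnion
    fun t ht => ((bd.cv.persp t h2).union (para bd prb ce ht.2.1 ht.2.2 h2)).image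
      fun g => g * t).subset ?_
  rintro x ⟨k1, k2, k3⟩
  obtain ⟨h, k4, k5⟩ := h1 x k1
  obtain ⟨t, rfl⟩ := (Group.mulLeft_bijective h).2 x
  simp only [inv_mul_cancel_left] at k5
  have k6 : t ∈ V := by simpa using ce.inv _ (H.inv_mem k4) _ k1
  simp only [inter_smul ce k4, ce.lsm h k4] at k2 k3
  refine Set.mem_biUnion (x := t) ⟨k5, k6, fun k => k2 k.smul_set⟩ ⟨h, ?_, rfl⟩
  by_contra k
  simp only [Set.mem_union, Set.mem_ofPred_eq, not_or, not_le] at k
  have := dist_triangle ((h * t) • b) (h • b) (h • lam t)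
  linarith [k.1, k.2]

theorem fin2 (bd : Bd S b) (ce : Cel S b B lam H V D) {e : ℝ} (he : 0 < e) :
    {x | x ∈ V ∧ (D x ∩ V).Finite ∧ ∃ y ∈ Bdy S (D x), e ≤ dist (y • b) (x • b)}.Finite := by
  obtain ⟨T, hT, h1⟩ := ce.orb
  have h2 := half_pos he
  have h3 : ∀ t, (D t ∩ V).Finite → (Bdy S (D t)).Finite := fun t ht =>
    (ht.mul S.finite_toSet).subset fun y hy => by
      obtain ⟨y', k1, s, k2, rfl⟩ := near bd.cs.gen ce hy
      exact Set.mul_mem_mul k1 k2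
  refine ((hT.subset (t := {t | t ∈ T ∧ (D t ∩ V).Finite}) fun _ k => k.1).biUnion
    fun t ht => ((bd.cv.persp t h2).union
      ((h3 t ht.2).biUnion fun w _ => bd.cv.persp w h2)).image fun g => g * t).subset ?_
  rintro x ⟨k1, k2, y, k3, k7⟩
  obtain ⟨h, k4, k5⟩ := h1 x k1
  obtain ⟨t, rfl⟩ := (Group.mulLeft_bijective h).2 x
  simp only [inv_mul_cancel_left] at k5
  simp only [inter_smul ce k4] at k2
  simp only [ce.smul h k4, bdy_smul] at k3
  obtain ⟨w, k8, rfl⟩ := k3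
  refine Set.mem_biUnion (x := t) ⟨k5, Set.finite_smul_set.1 k2⟩ ⟨h, ?_, rfl⟩
  by_contra k
  simp only [Set.mem_union, Set.mem_ofPred_eq, not_or, not_le, Set.mem_iUnion, not_exists] at k
  have := dist_triangle_right ((h * w) • b) ((h * t) • b) (h • b)
  have k9 : e ≤ dist ((h * w) • b) ((h * t) • b) := k7
  linarith [k.1, k.2 w k8]

end NullL

theorem null_stmt : NullStmt := by
  intro G _ X _ _ _ _ S b B lam H V D bd prb ce ε hε
  have he : 0 < ε / 4 := by positivity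
  refine ⟨_, ((NullL.fin1 bd prb ce he).union (NullL.fin2 bd ce he)).union
    (S.finite_toSet.biUnion fun s _ => bd.cv.persp s he), fun x hx hd y hy => ?_⟩
  have h1 := fun z (hz : z ∈ D x) => Set.disjoint_left.1 hd hz
  simp only [Set.mem_union, Set.mem_ofPred_eq, not_or, not_and, not_le, Set.mem_iUnion,
    not_exists] at h1
  by_cases k : (D x ∩ V).Finite
  · linarith [(h1 x (ce.self x)).1.2 hx k y hy]
  · obtain ⟨y', k1, s, k2, rfl⟩ := NullL.near bd.cs.gen ce hy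
    have k3 := (h1 x (ce.self x)).1.1 hx k
    have k4 := (h1 y' k1.1).1.1 k1.2 (by rw [ce.eqv x y' k1.1]; exact k)
    have k5 := (h1 y' k1.1).2 s k2
    rw [ce.lconst x hx y' k1.2 k1.1] at k4
    have k6 := dist_triangle ((y' * s) • b) (y' • b) (x • b)
    have k7 := dist_triangle_right (y' • b) (x • b) (lam x)
    linarith

end Pool.Agent.MP_4f4d9f_gt.Ku

end

section

/-! Three accessible points. -/

namespace Pool.Agent.MP_4f4d9f_gt.Ku

open Filter Topology Hy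
open scoped Pointwise

namespace ThreeL

variable {G : Type} [Group G] {X : Type} [MetricSpace X] [CompactSpace X] [MulAction G X]
  {S : Finset G} {b : X} {B : Set X} {lam : G → X} {H : Subgroup G} {V : Set G} {D : G → Set G}

theorem tend (ce : Cel S b B lam H V D) {x : G} (hx : x ∈ V) {ι : Type} {l : Filter ι}
    {g : ι → G} (h1 : Tendsto g l cofinite) (h2 : ∀ᶠ i in l, g i ∈ Bdy S (D x)) :
    Tendsto (fun i => g i • b) l (𝓝 (lam x)) := by
  refine Metric.tendsto_nhds.2 fun ε hε => ?_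
  filter_upwards [h1 (only_iff.1 (ce.only x hx) ε hε).compl_mem_cofinite, h2] with i k1 k2
  exact not_le.1 fun k => k1 ⟨k2, k⟩

theorem ac (bd : Bd S b) (ce : Cel S b B lam H V D) {x : G} (hx : x ∈ V)
    (h : (Bdy S (D x)).Infinite) : Ac S b V (lam x) := by
  obtain ⟨z, h1, h2⟩ := bd.kon _ _ (ce.bcon x) subset_rfl h
    (Set.finite_empty.subset fun _ ⟨_, _, _, k1, k2⟩ => k2 k1)
  exact ⟨z, h1, fun n => ce.out x (h2 n), tend ce hx h1.esc (Eventually.of_forall h2)⟩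

omit [CompactSpace X] in
theorem inf (bd : Bd S b) (ce : Cel S b B lam H V D) {x : G} (h : (Bdy S (D x)).Infinite) :
    (D x ∩ V).Infinite := by
  refine fun e => h ((e.mul S.finite_toSet).subset ?_)
  rintro a ⟨s, hs, k⟩
  by_cases ha : a ∈ D x
  · exact ⟨a, ⟨ha, ce.out x ⟨s, hs, k⟩⟩, 1, bd.cs.gen.one, mul_one a⟩
  · exact ⟨a * s, ⟨by_contra fun k' => k (iff_of_false ha k'),
      ce.out x (Cr.right bd.cs.gen k (by simpa using hs))⟩, s⁻¹, bd.cs.gen.inv s hs, by simp⟩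

omit [CompactSpace X] in
theorem stab (bd : Bd S b) (ce : Cel S b B lam H V D) {x : G} (h : (Bdy S (D x)).Infinite) :
    ∃ u ∈ D x ∩ V, {g | g ∈ H ∧ g * u ∈ D x}.Infinite := by
  obtain ⟨T, hT, h1⟩ := ce.orb
  obtain ⟨t, -, h2⟩ : ∃ t ∈ T, {u | u ∈ D x ∩ V ∧ u * t⁻¹ ∈ H}.Infinite := by
    by_contra e
    push Not at e
    refine inf bd ce h ((hT.biUnion e).subset fun u hu => ?_)
    obtain ⟨g, k1, k2⟩ := h1 u hu.2
    exact Set.mem_biUnion k2 ⟨hu, by simpa using k1⟩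
  obtain ⟨u, k1, k2⟩ := h2.nonempty
  refine ⟨u, k1, (h2.image (f := fun v => v * u⁻¹) (mul_left_injective _).injOn).mono ?_⟩
  rintro _ ⟨v, ⟨k3, k4⟩, rfl⟩
  exact ⟨by simpa using H.mul_mem k4 (H.inv_mem k2), by simpa using k3.1⟩

end ThreeL

open ThreeL in
theorem three_stmt : ThreeStmt := by
  intro G _ X _ _ _ _ S b B lam H V D bd ce ⟨x, hx, y, hy, hne, ix, iy⟩
  obtain ⟨u, ⟨u1, u2⟩, hS⟩ := stab bd ce ix
  have hl : (cofinite ⊓ 𝓟 {g | g ∈ H ∧ g * u ∈ D x}).NeBot :=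
    frequently_mem_iff_neBot.1 (frequently_cofinite_iff_infinite.2 hS)
  have hm : ∀ᶠ g in cofinite ⊓ 𝓟 {g | g ∈ H ∧ g * u ∈ D x}, g ∈ H ∧ g * u ∈ D x :=
    mem_inf_of_right (mem_principal_self _)
  have key : ∀ f : G → G, Function.Injective f →
      (∀ g ∈ H, g * u ∈ D x → f g ∈ H ∧ f g * u ∈ D x) →
      Tendsto (fun g => f g • b) (cofinite ⊓ 𝓟 {g | g ∈ H ∧ g * u ∈ D x}) (𝓝 (lam x)) := by
    intro f h1 h2
    have h3 : Tendsto (fun g => f g * u) (cofinite ⊓ 𝓟 {g | g ∈ H ∧ g * u ∈ D x}) cofinite :=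
      ((mul_left_injective u).comp h1).tendsto_cofinite.mono_left inf_le_left
    have h4 := (bd.cv.nf_right u⁻¹).comp (tendsto_nf.2 ⟨tend ce hx h3 (hm.mono fun g hg => by
      obtain ⟨k1, k2⟩ := h2 g hg.1 hg.2
      rw [← ce.eqv x _ k2]
      exact ce.bin _ (ce.inv _ k1 u u2)), h3⟩)
    simpa [Function.comp_def] using (tendsto_nf.1 h4).1
  have h5 := bd.cv.tendsto (tendsto_id'.2 inf_le_left) (key id Function.injective_id
    fun g k1 k2 => ⟨k1, k2⟩) (key (fun g => g⁻¹) inv_injective fun g k1 k2 => ⟨H.inv_mem k1, by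
      rw [← smul_eq_mul, ← Set.mem_smul_set_iff_inv_smul_mem, ← ce.eqv x u u1, ← ce.smul g k1,
        ce.eqv x _ k2]
      exact u1⟩) tendsto_const_nhds hne.symm
  obtain ⟨g, ⟨k1, k2⟩, k3⟩ := (hm.and (h5.eventually_ne hne)).exists
  have k4 : g • lam x = lam x := by
    rw [← ce.lconst x hx u u2 u1, ← ce.lsm g k1, ce.lconst x hx u u2 u1]
    exact ce.lconst x hx _ (ce.inv g k1 u u2) k2
  have k5 : g • lam y ≠ lam x := fun e => hne (MulAction.injective g (k4.trans e.symm))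
  have k6 : g • lam y ≠ lam y := k3
  refine ⟨![lam x, lam y, g • lam y], fun i j e => ?_, fun i => ?_⟩
  · fin_cases i <;> fin_cases j <;> first
      | rfl | exact absurd e hne | exact absurd e hne.symm | exact absurd e k5
      | exact absurd e k5.symm | exact absurd e k6 | exact absurd e k6.symm
  · fin_cases i
    · exact ac bd ce hx ix
    · exact ac bd ce hy iy
    · exact (ac bd ce hy iy).smul (ce.inv g k1)

end Pool.Agent.MP_4f4d9f_gt.Ku

end

section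

/-! Duality forces finite generation. -/

namespace Pool.Agent.MP_4f4d9f_gt.Ku

open Finsupp Sg Sg.Tup Hy

open scoped Pointwise

namespace FGL

variable {G : Type} [Group G]

theorem av_zero (ω : Cell G →₀ F2) :
    av (1 : G →* F2ˣ) (fun _ : Cell G => (0 : F2)) ω = 0 := by
  simp [av, linearCombination_apply, Finsupp.sum]

/-- A subgroup containing all differences of vertices of the data is everything. -/
theorem mem_of_dual {n : ℕ} {θ : Cell G → F2} {ω : Cell G →₀ F2} {H : Tup G → T2 G}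
    (hD : Dual F2 n 1 θ ω H) (K : Subgroup G)
    (h1 : ∀ c ∈ ω.support, ∀ a ∈ verts c.1, ∀ b ∈ verts c.1, a⁻¹ * b ∈ K)
    (h2 : ∀ x ∈ (H (pt 1)).support, ∀ a ∈ verts x, ∀ b ∈ verts x, a⁻¹ * b ∈ K) (g : G) :
    g ∈ K := by
  classical
  obtain ⟨F, hF⟩ : ∃ F : G → F2, ∀ a, F a = if a ∈ K then 1 else 0 := ⟨_, fun _ => rfl⟩
  obtain ⟨f, hf⟩ : ∃ f : Tup G → F2,
      f = fun x => linearCombination F2 (fun y : Tup G => F y.hd) (dd x) := ⟨_, rfl⟩
  have e1 : ∀ a b, f (edg a b) = F b + F a := fun a b => by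
    rw [hf]
    exact C01L.lc_edg _ a b
  have e2 : ∀ c : T2 G, linearCombination F2 f c =
      linearCombination F2 (fun y : Tup G => F y.hd) (bdT F2 c) := fun c => by
    rw [C01L.lc_bdT, hf]
  have e3 : ∀ (t : G) (x : Tup G), x.deg = 1 → (∀ a ∈ verts x, ∀ b ∈ verts x, a⁻¹ * b ∈ K) →
      f (t • x) = 0 := fun t x hx hK => by
    obtain ⟨a, b, rfl⟩ := eq_edg hx
    have h3 : a⁻¹ * b ∈ K := hK a (by simp [edg, verts_cons]) b (by simp [edg, verts_cons, verts_pt])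
    have h4 : t * b ∈ K ↔ t * a ∈ K := by
      have : t * b = t * a * (a⁻¹ * b) := by simp [mul_assoc]
      rw [this]
      exact mul_mem_cancel_right h3
    have h5 : t • edg a b = edg (t * a) (t * b) := rfl
    rw [h5, e1, hF, hF]
    simp only [h4]
    exact CharTwo.add_self_eq_zero _
  have e4 : ∀ t : G, linearCombination F2 f (H (pt t)) = 0 := fun t => by
    have h3 : H (pt t) = (H (pt 1)).mapDomain (t • ·) := by
      rw [← hD.Heqv, smul_pt, mul_one]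
    rw [h3, linearCombination_mapDomain]
    by_contra hne
    obtain ⟨x, hx, e⟩ := exists_of_lc_ne_zero hne
    exact e (e3 t x (by simpa using hD.Hdeg _ x hx) (h2 x hx))
  have k := congrArg (linearCombination F2 f) (hD.key (edg 1 g))
  rw [map_add, map_add, linearCombination_single, one_smul, map_av, e2 (bdT F2 _), bdT_bdT,
    map_zero, ← dd, dd_edg, map_add, linearCombination_single, linearCombination_single,
    one_smul, one_smul, map_add, e4, e4, e1] at k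
  · have k0 : av (1 : G →* F2ˣ) (fun c : Cell G => linearCombination F2 f
        (single c.1 ((-1) ^ c.1.deg * θ (edg 1 g, c.2)))) ω = 0 := by
      refine (av_congr _ fun c hc t => ?_).trans (av_zero ω)
      change linearCombination F2 f
        (single (t • c.1) ((-1) ^ (t • c.1).deg * θ (edg 1 g, t • c.2))) = 0
      rw [linearCombination_single]
      by_cases e : θ (edg 1 g, t • c.2) = 0
      · rw [e, mul_zero, zero_smul]
      · have d1 := hD.deg _ e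
        have d2 := hD.ωdeg c hc
        have d3 : (edg (1 : G) g).deg = 1 := rfl
        rw [cdeg] at d1 d2
        simp only [deg_smul, d3] at d1
        rw [e3 t c.1 (by omega) (h1 c hc), smul_zero]
    rw [k0, hF, hF, if_pos K.one_mem] at k
    by_contra hg
    rw [if_neg hg] at k
    revert k
    decide
  · intro c _
    refine (hD.fin (edg 1 g) c.2).subset fun t ht e => ht ?_
    change single (t • c.1) ((-1) ^ (t • c.1).deg * θ (edg 1 g, t • c.2)) = 0
    rw [e, mul_zero, single_zero]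

theorem exists_pow {S : Set G} (hi : S⁻¹ = S) {g : G} (hg : g ∈ Subgroup.closure S) :
    ∃ m : ℕ, g ∈ S ^ m := by
  induction hg using Subgroup.closure_induction with
  | mem x hx => exact ⟨1, by rwa [pow_one]⟩
  | one => exact ⟨0, by rw [pow_zero, Set.mem_one]⟩
  | mul x y _ _ hx hy =>
    obtain ⟨a, ha⟩ := hx
    obtain ⟨b, hb⟩ := hy
    exact ⟨a + b, by rw [pow_add]; exact Set.mul_mem_mul ha hb⟩
  | inv x _ hx =>
    obtain ⟨a, ha⟩ := hx
    exact ⟨a, by rw [← hi, inv_pow]; exact Set.inv_mem_inv.2 ha⟩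

end FGL

theorem fg_stmt : FGStmt := by
  classical
  intro G _ n θ ω H hD
  obtain ⟨T, hT⟩ : ∃ T : Finset (Tup G), ∀ x, x ∈ T ↔
      (∃ c ∈ ω.support, c.1 = x) ∨ x ∈ (H (pt 1)).support :=
    ⟨ω.support.image Prod.fst ∪ (H (pt 1)).support, fun x => by
      rw [Finset.mem_union, Finset.mem_image]⟩
  obtain ⟨S, hS⟩ : ∃ S : Set G, ∀ g, g ∈ S ↔
      g = 1 ∨ ∃ x ∈ T, ∃ a ∈ verts x, ∃ b ∈ verts x, g = a⁻¹ * b := ⟨_, fun _ => Iff.rfl⟩
  have hf : S.Finite := by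
    refine (((T.biUnion fun x => ((verts x).toFinset ×ˢ (verts x).toFinset).image
      fun e : G × G => e.1⁻¹ * e.2).finite_toSet).insert 1).subset fun g hg => ?_
    rcases (hS g).1 hg with e | ⟨x, hx, a, ha, b, hb, e⟩
    · exact Or.inl e
    · exact Or.inr (Finset.mem_coe.2 (Finset.mem_biUnion.2 ⟨x, hx, Finset.mem_image.2
        ⟨(a, b), Finset.mem_product.2 ⟨List.mem_toFinset.2 ha, List.mem_toFinset.2 hb⟩, e.symm⟩⟩))
  have hi0 : ∀ g, g ∈ S → g⁻¹ ∈ S := fun g hg => by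
    rcases (hS g).1 hg with e | ⟨x, hx, a, ha, b, hb, e⟩
    · exact (hS _).2 (Or.inl (by rw [e, inv_one]))
    · exact (hS _).2 (Or.inr ⟨x, hx, b, hb, a, ha, by rw [e, mul_inv_rev, inv_inv]⟩)
  have hi : S⁻¹ = S := Set.ext fun g =>
    ⟨fun hg => by simpa using hi0 _ (Set.mem_inv.1 hg), fun hg => Set.mem_inv.2 (hi0 g hg)⟩
  have hK : ∀ x ∈ T, ∀ a ∈ verts x, ∀ b ∈ verts x, a⁻¹ * b ∈ Subgroup.closure S :=
    fun x hx a ha b hb => Subgroup.subset_closure ((hS _).2 (Or.inr ⟨x, hx, a, ha, b, hb, rfl⟩))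
  obtain ⟨ℓ, hl, -⟩ := CombL.len_exists hf ((hS 1).2 (Or.inl rfl)) hi fun g =>
    FGL.exists_pow hi (FGL.mem_of_dual hD _
      (fun c hc => hK _ ((hT _).2 (Or.inl ⟨c, hc, rfl⟩))) (fun x hx => hK _ ((hT _).2 (Or.inr hx))) g)
  exact ⟨ℓ, hl⟩

end Pool.Agent.MP_4f4d9f_gt.Ku

end

section

/-! Cycles of bounded scale bound chains of bounded scale. -/

namespace Pool.Agent.MP_4f4d9f_gt.Ku

open Finsupp Sg Sg.Tup Hy

namespace FillL

variable {G : Type} [Group G] {n : ℕ} {θ : Cell G → F2} {ω : Cell G →₀ F2} {H : Tup G → T2 G}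

/-- The chain map homotopic to the identity. -/
noncomputable def gam (H : Tup G → T2 G) (x : Tup G) : T2 G :=
  single x 1 + bdT F2 (H x) + linearCombination F2 H (bdT F2 (single x 1))

theorem mem_gam (hD : Dual F2 n 1 θ ω H) {x y : Tup G} (hy : y ∈ (gam H x).support) :
    ∃ c ∈ ω.support, ∃ g : G, θ (x, g • c.2) ≠ 0 ∧ y = g • c.1 := by
  by_contra hc
  refine mem_support_iff.1 hy ?_
  rw [gam, ← hD.key]
  have h1 := map_av (1 : G →* F2ˣ) (lapply y : T2 G →ₗ[F2] F2) (c := ω)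
    (f := fun c : Cell G => single c.1 ((-1) ^ c.1.deg * θ (x, c.2))) fun c _ =>
      (hD.fin x c.2).subset fun g hg e => hg (by
        change single (g • c.1) ((-1) ^ (g • c.1).deg * θ (x, g • c.2)) = 0
        rw [e, mul_zero, single_zero])
  refine h1.trans ((av_congr _ fun c hc' g => ?_).trans (CoConeL.av_zero ω))
  change (single (g • c.1) ((-1) ^ (g • c.1).deg * θ (x, g • c.2)) : T2 G) y = 0
  by_contra e
  obtain ⟨e1, e2⟩ := single_apply_ne_zero.1 e
  exact hc ⟨c, hc', g, right_ne_zero_of_mul e2, e1⟩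

omit [Group G] in
theorem lc_gam (v : T2 G) : linearCombination F2 (gam H) v =
    v + bdT F2 (linearCombination F2 H v) + linearCombination F2 H (bdT F2 v) := by
  induction v using ind1 with
  | h0 => simp
  | hadd x y hx hy =>
    simp only [map_add, hx, hy]
    abel
  | hs r x hx => simp only [map_smul, hx, smul_add]
  | h1 x => simp only [linearCombination_single, one_smul, gam]

end FillL

open FillL in
theorem fill_stmt : FillStmt := by
  classical
  intro G _ ℓ n θ ω H hl hD j r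
  obtain ⟨R0, hR0⟩ := CoConeL.omega_bd hl ω
  obtain ⟨C, hC⟩ := EqvT.bound hl (f := H) hD.Heqv (j + 1) r
  refine ⟨max R0 C, fun z hz h0 => ?_⟩
  have he : eps F2 z = 0 := by
    by_contra e
    obtain ⟨x, hx, e'⟩ := exists_of_lc_ne_zero e
    exact e' (if_neg (by rw [(hz x hx).1]; omega))
  have hv : bdT F2 (cn F2 1 z) = z := by rw [bdT_cn, h0, he, map_zero, zero_smul, sub_zero, sub_zero]
  refine ⟨linearCombination F2 (gam H) (cn F2 1 z) - linearCombination F2 H z, ?_, fun y hy => ?_⟩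
  · rw [lc_gam, hv, add_sub_cancel_right, map_add, bdT_bdT, add_zero, hv]
  rcases Finset.mem_union.1 (support_sub hy) with h | h
  · obtain ⟨x, hx, h1⟩ := mem_support_lc h
    obtain ⟨c, hc, g, h2, rfl⟩ := mem_gam hD h1
    obtain ⟨w, hw, rfl⟩ := Finset.mem_image.1 (mapDomain_support hx)
    have d1 := hD.ωdeg c hc
    have d2 := hD.deg _ h2
    have d3 := (hz w hw).1
    simp only [cdeg, deg_smul, deg_cons] at d1 d2
    have d4 := (hR0 c hc).1
    rw [show c.1.deg = j + 2 by omega] at d4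
    exact (sc_smul g).2 (d4.mono (le_max_left _ _))
  · obtain ⟨x, hx, h1⟩ := mem_support_lc h
    have d1 := ((hC x (hz x hx)).2 y h1).1
    rw [hD.Hdeg x y h1, (hz x hx).1] at d1
    exact d1.mono (le_max_right _ _)

end Pool.Agent.MP_4f4d9f_gt.Ku

end

section

/-! Finite cocycles are coboundaries of finite cochains, by duality. -/

namespace Pool.Agent.MP_4f4d9f_gt.Ku

open Finsupp Sg Sg.Tup Hy

namespace CoQL

variable {G : Type}

theorem fill {k : ℕ} (a : G) {z : T2 G} (h1 : ∀ x ∈ z.support, x.deg = k + 1)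
    (h2 : bdT F2 z = 0) : ∃ u : T2 G, bdT F2 u = z ∧ ∀ x ∈ u.support, x.deg = k + 2 := by
  classical
  refine ⟨cn F2 a z, ?_, fun x hx => ?_⟩
  · have e : eps F2 z = 0 := by
      by_contra e
      obtain ⟨x, hx, e2⟩ := exists_of_lc_ne_zero e
      exact e2 (if_neg (by rw [h1 x hx]; omega))
    rw [bdT_cn, h2, map_zero, e, zero_smul, sub_zero, sub_zero]
  · obtain ⟨y, hy, rfl⟩ := Finset.mem_image.1 (mapDomain_support hx)
    rw [deg_cons, h1 y hy]

end CoQL

open CoConeL in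
theorem coQ_stmt : CoQStmt := by
  classical
  intro G _ ℓ n θ ω H hl hD j hj r
  obtain ⟨k, rfl⟩ : ∃ k, n = j + 1 + (k + 1) := ⟨n - (j + 2), by omega⟩
  have hH : EqvT H := hD.Heqv
  obtain ⟨R0, hR0⟩ := omega_bd hl ω
  obtain ⟨CH, hCH⟩ := hH.bound hl (j + 1) r
  obtain ⟨CP, hCP⟩ := hH.pull hl j r
  refine ⟨max R0 (max r CH), fun ζ' h1 h3 => ?_⟩
  obtain ⟨R, hR⟩ : ∃ R, R = max R0 (max r CH) := ⟨_, rfl⟩
  rw [← hR] at h1 h3
  have r0 : R0 ≤ R := hR ▸ le_max_left _ _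
  have r1 : r ≤ R := hR ▸ (le_max_left _ _).trans (le_max_right _ _)
  have r2 : CH ≤ R := hR ▸ (le_max_right _ _).trans (le_max_right _ _)
  obtain ⟨ζ, hζ⟩ : ∃ ζ : Tup G → F2, ∀ x, ζ x = if Sc ℓ (j + 1) R x then ζ' x else 0 :=
    ⟨_, fun _ => rfl⟩
  have z1 : ∀ x, ζ x ≠ 0 → Sc ℓ (j + 1) R x := fun x hx => by
    by_contra e
    exact hx (by rw [hζ, if_neg e])
  have z2 : ∀ x, ζ x ≠ 0 → x ∈ h1.toFinset := fun x hx =>
    h1.mem_toFinset.2 ⟨z1 x hx, fun e => hx (by rw [hζ, if_pos (z1 x hx), e])⟩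
  have z3 : ∀ x, Sc ℓ x.deg R x → linearCombination F2 ζ (dd x) = 0 := fun x hx => by
    by_cases e : x.deg = j + 2
    · rw [e] at hx
      rw [← h3 x hx]
      exact lc_congr fun a ha => by rw [hζ, if_pos (hx.face ha).1]
    · by_contra e'
      obtain ⟨a, ha, e2⟩ := exists_of_lc_ne_zero e'
      have := deg_of_mem_bdT ha
      have := (z1 a e2).1
      omega
  obtain ⟨u, u1, u2⟩ := CoQL.fill (k := k) (1 : G) (z := cap ζ ω) (fun b hb => by
      obtain ⟨c, hc, g, e, rfl⟩ := mem_cap z2 hb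
      have d1 := hD.ωdeg c hc
      have d2 := (z1 _ e).1
      rw [deg_smul] at d2 ⊢
      rw [cdeg] at d1
      omega)
    (bd_cap z2 hD.ωcyc fun c hc g => z3 _ (by
      rw [deg_smul]
      exact (sc_smul g).2 ((hR0 c hc).1.mono r0)))
  obtain ⟨R1, hR1⟩ := exists_bound (ℓ := ℓ) u.support 1
  obtain ⟨Cθ, hθ⟩ := theta_bd hl hD.toThomR j r (k + 2) R1
  obtain ⟨Cc, hCc⟩ := hl.count j r Cθ
  choose W _ hW2 using hCc
  obtain ⟨Z', -, -, p3⟩ := hCP h1.toFinset
  obtain ⟨c0, hc0⟩ : ∃ c0 : Tup G → F2, c0 = fun x =>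
      linearCombination F2 (fun b => θ (x, b)) u + linearCombination F2 ζ (H x) := ⟨_, rfl⟩
  have sup : ∀ x, (if Sc ℓ j r x then c0 x else 0) ≠ 0 →
      x ∈ Z' ∪ u.support.biUnion fun b => W b.hd := fun x hx => by
    have hx1 : Sc ℓ j r x := by
      by_contra e
      exact hx (if_neg e)
    rw [if_pos hx1, hc0] at hx
    by_cases e : linearCombination F2 ζ (H x) = 0
    · obtain ⟨b, hb, e2⟩ := exists_of_lc_ne_zero (f := fun b => θ (x, b)) (c := u)
        fun e1 => hx (by simp only [e, e1, add_zero])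
      exact Finset.mem_union_right _ (Finset.mem_biUnion.2
        ⟨b, hb, (hW2 _ _).2 ⟨hx1, hθ x b hx1 (u2 b hb ▸ (hR1 b hb).1) e2⟩⟩)
    · obtain ⟨b, hb, e2⟩ := exists_of_lc_ne_zero e
      exact Finset.mem_union_left _ (p3 x hx1 b (z2 b e2) hb)
  refine ⟨onFinset _ _ sup, fun x hx => ?_, fun x hx => ?_⟩
  · by_contra e
    exact mem_support_iff.1 hx (by rw [onFinset_apply, if_neg e])
  · have a1 : linearCombination F2 (onFinset _ _ sup) (dd x) = linearCombination F2 c0 (dd x) :=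
      lc_congr fun a ha => by rw [onFinset_apply, if_pos (hx.face ha).1]
    have a2 : linearCombination F2 ζ (bdT F2 (H x)) = 0 := by
      rw [← lc_dd, ← lc_lc]
      by_contra e
      obtain ⟨a, ha, e2⟩ := exists_of_lc_ne_zero e
      exact e2 (z3 a (((hCH x hx).2 a ha).1.mono r2))
    rw [a1, hc0, lc_add, adj θ hD.coc, u1, pair_cap hD z2, a2, lc_lc, add_zero, add_assoc,
      CharTwo.add_self_eq_zero, add_zero, hζ, if_pos (hx.mono r1)]

end Pool.Agent.MP_4f4d9f_gt.Ku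

end

section

/-! Retraction of the bar complex onto small tuples, from bounded fillings. -/

namespace Pool.Agent.MP_4f4d9f_gt.Ku

open Finsupp Sg Sg.Tup Hy Hy.RipsL

theorem ripsQ_stmt : RipsQStmt := by
  classical
  intro G _ ℓ h hc
  obtain ⟨R1, hR1⟩ := hc 0 1
  set s := max R1 1 with hsdef
  have hs : 1 ≤ s := le_max_right _ _
  have H1 : ∀ z, Sup ℓ 1 s z → bdT F2 z = 0 → ∃ u, bdT F2 u = z ∧ Sup ℓ 2 s u := by
    intro z hz h0
    obtain ⟨c, e, h1, h2, h3⟩ := path_chain h hs z hz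
    obtain ⟨u, h4, h5⟩ := hR1 c h1 (by rw [bd_eq h3, h0])
    refine ⟨u + e, ?_, (Sup.mono h5 (le_max_left _ _)).add h2⟩
    rw [map_add, h4, h3, ← add_assoc, add_self2, zero_add]
  obtain ⟨R, hR⟩ := hc 1 s
  obtain ⟨φ₁, e1, p1⟩ := eqv_choice
    (fun x c => Sup ℓ 1 s c ∧ (Sc ℓ 1 s x → c = single x 1) ∧ (x.deg = 1 → bdT F2 c = dd x))
    (fun g x c ⟨a1, a2, a3⟩ => ⟨a1.smul g,
      fun hx => by rw [a2 ((sc_smul g).1 hx), mapDomain_single],
      fun hx => by rw [bdT_smul, a3 (by rwa [deg_smul] at hx), eqvT_dd]⟩)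
    (fun x => by
      by_cases hx : Sc ℓ 1 s x
      · exact ⟨single x 1, Sup.single hx, fun _ => rfl, fun _ => rfl⟩
      by_cases hd : x.deg = 1
      · obtain ⟨a, b, rfl⟩ := eq_edg hd
        obtain ⟨c, e, h1, -, h3⟩ := path h _ a b rfl
        exact ⟨c, h1.mono hs, fun h => absurd h hx, fun _ => bd_eq h3⟩
      · exact ⟨0, Sup.zero _ _, fun h => absurd h hx, fun h => absurd h hd⟩)
  obtain ⟨φ₂, e2, p2⟩ := eqv_choice
    (fun x c => Sup ℓ 2 s c ∧ (Sc ℓ 2 s x → c = single x 1) ∧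
      (x.deg = 2 → bdT F2 c = linearCombination F2 φ₁ (dd x)))
    (fun g x c ⟨a1, a2, a3⟩ => ⟨a1.smul g,
      fun hx => by rw [a2 ((sc_smul g).1 hx), mapDomain_single],
      fun hx => by rw [bdT_smul, a3 (by rwa [deg_smul] at hx), eqvT_dd, e1.lc]⟩)
    (fun x => by
      by_cases hx : Sc ℓ 2 s x
      · refine ⟨single x 1, Sup.single hx, fun _ => rfl, fun _ => ?_⟩
        refine (lin_ext (linearCombination F2 φ₁) LinearMap.id (dd x) fun y hy => ?_).symm
        rw [linearCombination_single, one_smul, (p1 y).2.1 (hx.face hy).1]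
        rfl
      by_cases hd : x.deg = 2
      · obtain ⟨u, h1, h2⟩ := H1 (linearCombination F2 φ₁ (dd x)) (Sup.lc (fun y => (p1 y).1) _) (by
          refine (lin_ext (bdT F2 ∘ₗ linearCombination F2 φ₁) (bdT F2) (dd x)
            fun y hy => ?_).trans (bdT_bdT _)
          have := deg_of_mem_bdT hy
          rw [LinearMap.comp_apply, linearCombination_single, one_smul, (p1 y).2.2 (by omega)]
          rfl)
        exact ⟨u, h2, fun h => absurd h hx, fun _ => h1⟩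
      · exact ⟨0, Sup.zero _ _, fun h => absurd h hx, fun h => absurd h hd⟩)
  obtain ⟨φ₃, e3, p3⟩ := eqv_choice
    (fun x c => Sup ℓ 3 R c ∧ (x.deg = 3 → bdT F2 c = linearCombination F2 φ₂ (dd x)))
    (fun g x c ⟨a1, a3⟩ => ⟨a1.smul g,
      fun hx => by rw [bdT_smul, a3 (by rwa [deg_smul] at hx), eqvT_dd, e2.lc]⟩)
    (fun x => by
      by_cases hd : x.deg = 3
      · obtain ⟨u, h1, h2⟩ := hR (linearCombination F2 φ₂ (dd x)) (Sup.lc (fun y => (p2 y).1) _) (by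
          refine (lin_ext (bdT F2 ∘ₗ linearCombination F2 φ₂) (linearCombination F2 φ₁ ∘ₗ bdT F2)
            (dd x) fun y hy => ?_).trans ?_
          · have := deg_of_mem_bdT hy
            rw [LinearMap.comp_apply, linearCombination_single, one_smul, (p2 y).2.2 (by omega)]
            rfl
          · rw [LinearMap.comp_apply, dd, bdT_bdT, map_zero])
        exact ⟨u, h2, fun _ => h1⟩
      · exact ⟨0, Sup.zero _ _, fun h => absurd h hd⟩)
  exact ⟨s, R, φ₁, φ₂, φ₃, hs, e1, e2, e3, fun x => (p1 x).1, fun x => (p2 x).1, fun x => (p3 x).1,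
    fun x => (p1 x).2.1, fun x => (p2 x).2.1, fun x => (p1 x).2.2, fun x => (p2 x).2.2,
    fun x => (p3 x).2⟩

end Pool.Agent.MP_4f4d9f_gt.Ku

end

section

/-! Uniform fillings of finite cocycles in degree two. -/

namespace Pool.Agent.MP_4f4d9f_gt.Ku

open Finsupp Sg Sg.Tup Hy

namespace C2QL

theorem gap {X : Type} (Z : Finset X) (v : X → ℕ) (E : ℕ) :
    ∃ k ≤ Z.card, ∀ x ∈ Z, v x ≤ k * E ∨ (k + 1) * E < v x := by
  by_contra h
  have h' : ∀ k, ∃ x : Option X, k ≤ Z.card → ∃ y ∈ Z, x = some y ∧ k * E < v y ∧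
      v y ≤ (k + 1) * E := fun k => by
    by_cases hk : k ≤ Z.card
    · by_contra e
      refine h ⟨k, hk, fun x hx => by_contra fun e' => e ⟨some x, fun _ => ⟨x, hx, rfl, ?_⟩⟩⟩
      omega
    · exact ⟨none, fun e => absurd e hk⟩
  choose f hf using h'
  have key : ∀ k j, k ≤ Z.card → j ≤ Z.card → f k = f j → k ≤ j := fun k j hk hj e => by
    obtain ⟨x, -, a1, a2, -⟩ := hf k hk
    obtain ⟨y, -, b1, -, b2⟩ := hf j hj
    obtain rfl : x = y := Option.some.inj (a1.symm.trans (e.trans b1))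
    exact Nat.le_of_lt_succ (Nat.lt_of_mul_lt_mul_right (a2.trans_le b2))
  have := Finset.card_le_card_of_injOn (s := Finset.range (Z.card + 1))
    (t := Z.map Function.Embedding.some) f (fun k hk => by
      obtain ⟨x, hx, a1, -⟩ := hf k (Nat.le_of_lt_succ (Finset.mem_range.1 hk))
      exact Finset.mem_map.2 ⟨x, hx, a1.symm⟩) fun k hk j hj e =>
      le_antisymm
        (key k j (Nat.le_of_lt_succ (Finset.mem_range.1 hk))
          (Nat.le_of_lt_succ (Finset.mem_range.1 hj)) e)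
        (key j k (Nat.le_of_lt_succ (Finset.mem_range.1 hj))
          (Nat.le_of_lt_succ (Finset.mem_range.1 hk)) e.symm)
  rw [Finset.card_range, Finset.card_map] at this
  omega

theorem lc_add {X : Type} (a b u : X →₀ F2) : linearCombination F2 (⇑(a + b)) u =
    linearCombination F2 (⇑a) u + linearCombination F2 (⇑b) u := by
  rw [C2L.pair_comm, map_add, C2L.pair_comm u, C2L.pair_comm u]

variable {G : Type} [Group G] {ℓ : G → ℕ} {s R : ℕ} {φ₁ φ₂ φ₃ : Tup G → T2 G}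

theorem tr_apply (g : G) (z : T2 G) (x : Tup G) : z.mapDomain (g • ·) (g • x) = z x :=
  mapDomain_apply (MulAction.injective g) z x

theorem lc_tr (g : G) (z u : T2 G) :
    linearCombination F2 (⇑(z.mapDomain (g • ·) : T2 G)) (u.mapDomain (g • ·)) =
      linearCombination F2 (⇑z) u := by
  rw [linearCombination_mapDomain]
  exact C2L.lc_congr fun x _ => tr_apply g z x

variable (ℓ s R φ₂) in
/-- Finite cocycles. -/
def CY (z : T2 G) : Prop := (∀ x ∈ z.support, Sc ℓ 2 s x) ∧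
  ∀ t, Sc ℓ 3 R t → linearCombination F2 z (linearCombination F2 φ₂ (dd t)) = 0

variable (ℓ s) in
/-- Fillings. -/
def FL (z c : T2 G) : Prop := ∀ x, Sc ℓ 2 s x → linearCombination F2 c (dd x) = z x

theorem CY.tr (h : Rips ℓ s R φ₁ φ₂ φ₃) {z : T2 G} (hz : CY ℓ s R φ₂ z) (g : G) :
    CY ℓ s R φ₂ (z.mapDomain (g • ·)) := by
  classical
  refine ⟨fun x hx => ?_, fun t ht => ?_⟩
  · obtain ⟨y, hy, rfl⟩ := Finset.mem_image.1 (mapDomain_support hx)
    exact (sc_smul g).2 (hz.1 y hy)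
  · obtain ⟨t, rfl⟩ := MulAction.surjective g t
    have e := h.e2.comp eqvT_dd g t
    dsimp only at e ⊢
    rw [e, lc_tr]
    exact hz.2 t ((sc_smul g).1 ht)

theorem FL.tr {z c : T2 G} (hz : FL ℓ s z c) (g : G) :
    FL ℓ s (z.mapDomain (g • ·)) (c.mapDomain (g • ·)) := fun x hx => by
  obtain ⟨x, rfl⟩ := MulAction.surjective g x
  dsimp only
  rw [eqvT_dd g x, lc_tr, tr_apply]
  exact hz x ((sc_smul g).1 hx)

theorem fill1 (hl : Len ℓ) (h : Rips ℓ s R φ₁ φ₂ φ₃) (h1 : CoQ ℓ 1) {ζ : T2 G}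
    (hζ : CY ℓ s R φ₂ ζ) : ∃ c, FL ℓ s ζ c := by
  obtain ⟨R2, hC⟩ := h1 s
  obtain ⟨C2, hp⟩ := h.e2.pull hl 2 R2
  obtain ⟨Z, -, -, z3⟩ := hp ζ.support
  obtain ⟨c, -, c3⟩ := hC (fun x => linearCombination F2 ζ (φ₂ x))
    (Z.finite_toSet.subset fun x hx => by
      obtain ⟨a, ha, e'⟩ := exists_of_lc_ne_zero hx.2
      exact z3 x hx.1 a (mem_support_iff.2 e') ha)
    (fun x hx => by
      rw [Cone23L.lc_comp, ← Cone23L.idem h, ← h.b3 x hx.1, ← Cone23L.lc_dd, ← Cone23L.lc_comp,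
        ← Cone23L.lc_comp]
      exact Cone23L.lc_zero fun t ht => (Cone23L.lc_comp _ _ _).trans (hζ.2 t (h.s3 x t ht)))
  refine ⟨c, fun x hx => ?_⟩
  rw [c3 x hx, h.i2 x hx]
  simp

theorem ball (hl : Len ℓ) (h : Rips ℓ s R φ₁ φ₂ φ₃) (h1 : CoQ ℓ 1) (ρ : ℕ) :
    ∃ M, ∀ (y : G) (z : T2 G), CY ℓ s R φ₂ z → (∀ x ∈ z.support, ℓ (y⁻¹ * x.hd) ≤ ρ) →
      ∃ c, FL ℓ s z c ∧ c.support.card ≤ M := by
  classical
  have h2 : ∀ z : T2 G, ∃ c, CY ℓ s R φ₂ z → FL ℓ s z c := fun z => by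
    by_cases hz : CY ℓ s R φ₂ z
    · exact (fill1 hl h h1 hz).imp fun _ e _ => e
    · exact ⟨0, fun e => absurd e hz⟩
  choose f hf using h2
  refine ⟨((hl.finite_sc 2 s ρ).toFinset.finsupp fun _ => (Finset.univ : Finset F2)).sup
    fun z => (f z).support.card, fun y z hz hρ => ⟨(f (z.mapDomain (y⁻¹ • ·))).mapDomain (y • ·),
      ?_, (Finset.card_le_card mapDomain_support).trans (Finset.card_image_le.trans ?_)⟩⟩
  · have := (hf _ (hz.tr h y⁻¹)).tr y
    rwa [← mapDomain_comp, show ((y • ·) ∘ (y⁻¹ • ·) : Tup G → Tup G) = id from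
      funext fun x => smul_inv_smul y x, mapDomain_id] at this
  · refine Finset.le_sup (f := fun z => (f z).support.card)
      (Finset.mem_finsupp_iff.2 ⟨fun x hx => ?_, fun _ _ => Finset.mem_univ _⟩)
    obtain ⟨a, ha, rfl⟩ := Finset.mem_image.1 (mapDomain_support hx)
    exact (Set.Finite.mem_toFinset _).2 ⟨(sc_smul _).2 (hz.1 a ha), hρ a ha⟩

theorem split (hl : Len ℓ) (h : Rips ℓ s R φ₁ φ₂ φ₃) : ∃ E, ∀ (y : G) (z₁ z₂ : T2 G),
    CY ℓ s R φ₂ (z₁ + z₂) → (∀ x ∈ z₁.support, Sc ℓ 2 s x) → (∀ x ∈ z₂.support, Sc ℓ 2 s x) →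
    (∀ a ∈ z₁.support, ∀ b ∈ z₂.support, ℓ (y⁻¹ * a.hd) + E < ℓ (y⁻¹ * b.hd)) →
    CY ℓ s R φ₂ z₁ ∧ CY ℓ s R φ₂ z₂ := by
  obtain ⟨D, hD⟩ := (h.e2.comp eqvT_dd).bound hl 3 R
  refine ⟨2 * D, fun y z₁ z₂ hz s1 s2 hd => ?_⟩
  have key : ∀ t, Sc ℓ 3 R t → linearCombination F2 z₁ (linearCombination F2 φ₂ (dd t)) = 0 ∧
      linearCombination F2 z₂ (linearCombination F2 φ₂ (dd t)) = 0 := fun t ht => by
    have k := hz.2 t ht
    rw [lc_add] at k
    by_cases k1 : linearCombination F2 z₁ (linearCombination F2 φ₂ (dd t)) = 0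
    · exact ⟨k1, by rwa [k1, zero_add] at k⟩
    by_cases k2 : linearCombination F2 z₂ (linearCombination F2 φ₂ (dd t)) = 0
    · exact ⟨by rwa [k2, add_zero] at k, k2⟩
    obtain ⟨a, ha, a1⟩ := exists_of_lc_ne_zero k1
    obtain ⟨b, hb, b1⟩ := exists_of_lc_ne_zero k2
    have e1 := hd a (mem_support_iff.2 a1) b (mem_support_iff.2 b1)
    have e2 := ((hD t ht).2 a ha).2
    have e3 := ((hD t ht).2 b hb).2
    have e4 := hl.tri y a.hd b.hd
    have e5 := hl.tri a.hd t.hd b.hd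
    rw [hl.symm] at e2
    omega
  exact ⟨⟨s1, fun t ht => (key t ht).1⟩, s2, fun t ht => (key t ht).2⟩

theorem fillN (hl : Len ℓ) (h : Rips ℓ s R φ₁ φ₂ φ₃) (h1 : CoQ ℓ 1) (N : ℕ) :
    ∃ M, ∀ z : T2 G, CY ℓ s R φ₂ z → z.support.card ≤ N →
      ∃ c, FL ℓ s z c ∧ c.support.card ≤ M := by
  classical
  obtain ⟨E, hE⟩ := split hl h
  induction N with
  | zero =>
    refine ⟨0, fun z _ hz => ⟨0, fun x _ => ?_, by simp⟩⟩
    rw [card_support_eq_zero.1 (Nat.le_zero.1 hz), C2L.pair_comm, map_zero, Finsupp.zero_apply]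
  | succ N ih =>
    obtain ⟨M, hM⟩ := ih
    obtain ⟨M0, hM0⟩ := ball hl h h1 ((N + 1) * E)
    refine ⟨M0 + M, fun z hz hN => ?_⟩
    rcases z.support.eq_empty_or_nonempty with e | ⟨x₀, hx₀⟩
    · exact (hM z hz (by simp [e])).imp fun c hc => ⟨hc.1, hc.2.trans (Nat.le_add_left _ _)⟩
    obtain ⟨k, hk, hg⟩ := gap z.support (fun x => ℓ (x₀.hd⁻¹ * x.hd)) E
    have e := filter_add_filter_not z fun x => ℓ (x₀.hd⁻¹ * x.hd) ≤ k * E
    obtain ⟨y1, y2⟩ := hE x₀.hd _ _ (e.symm ▸ hz)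
      (fun x hx => hz.1 x (Finset.mem_filter.1 hx).1)
      (fun x hx => hz.1 x (Finset.mem_filter.1 hx).1) fun a ha b hb => by
        have a1 := (Finset.mem_filter.1 ha).2
        obtain ⟨b1, b2⟩ := Finset.mem_filter.1 hb
        have b3 := (hg b b1).resolve_left b2
        rw [Nat.succ_mul] at b3
        omega
    obtain ⟨c1, f1, n1⟩ := hM0 x₀.hd _ y1 fun x hx =>
      (Finset.mem_filter.1 hx).2.trans (Nat.mul_le_mul_right _ (hk.trans hN))
    obtain ⟨c2, f2, n2⟩ := hM _ y2 (Nat.le_of_lt_succ (lt_of_lt_of_le (Finset.card_lt_card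
      (Finset.filter_ssubset.2 ⟨x₀, hx₀, fun e => e (by rw [hl.self]; exact Nat.zero_le _)⟩)) hN))
    refine ⟨c1 + c2, fun x hx => ?_, (Finset.card_le_card support_add).trans
      ((Finset.card_union_le _ _).trans (add_le_add n1 n2))⟩
    rw [lc_add, f1 x hx, f2 x hx, ← Finsupp.add_apply, e]

end C2QL

open C2QL C2L

theorem c2Q_stmt : C2QStmt := by
  classical
  intro G _ ℓ hl s R φ₁ φ₂ φ₃ hR h1 N
  obtain ⟨M, hM⟩ := fillN hl hR h1 N
  refine ⟨M, fun w hw hN => ?_⟩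
  let ζ : T2 G := onFinset (hw.toFinset.image fun t => trg t.1 t.2.1 t.2.2)
    (fun x => if Sc ℓ 2 s x then d1 w (tv x) else 0) fun x hx => by
      have hx2 : Sc ℓ 2 s x := by_contra fun e => hx (if_neg e)
      rw [if_pos hx2] at hx
      obtain ⟨a, b, c, rfl⟩ := eq_trg hx2.1
      exact Finset.mem_image.2 ⟨(a, b, c), hw.mem_toFinset.2 ⟨(tri_iff hl).2 hx2, hx⟩, rfl⟩
  have hζ : ∀ x, Sc ℓ 2 s x → ζ x = d1 w (tv x) := fun x hx => if_pos hx
  have hc : ζ.support.card ≤ N := by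
    rw [Set.ncard_eq_toFinset_card _ hw] at hN
    exact (Finset.card_le_card support_onFinset_subset).trans (Finset.card_image_le.trans hN)
  obtain ⟨c, k1, k2⟩ := hM ζ ⟨fun x hx => by_contra fun e => mem_support_iff.1 hx (if_neg e),
    fun t ht => by
      have e := congrArg (linearCombination F2 fun x : Tup G => w (x.hd, x.tl.headD 1))
        (bd_zero hR ht.1)
      rw [map_zero, bdT_eq, apply_linearCombination] at e
      rw [← e]
      refine lc_congr fun x hx => ?_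
      have hx2 := Cone23L.sc2 hR _ x hx
      obtain ⟨a, b, c, rfl⟩ := eq_trg hx2.1
      rw [hζ _ hx2, Function.comp_apply, lc_trg]
      rfl⟩ hc
  have inj1 : Function.Injective fun e : G × G => edg e.1 e.2 := fun e e' k =>
    Prod.ext (congrArg Tup.hd k) (congrArg (fun x : Tup G => x.tl.headD 1) k)
  have hs : ∀ e ∈ sp1 (hl.ball s) fun e => c (edg e.1 e.2),
      edg e.1 e.2 ∈ (c.support : Set (Tup G)) := fun e he => mem_support_iff.2 he.2
  refine ⟨fun e => c (edg e.1 e.2), Set.Finite.of_injOn hs inj1.injOn (Finset.finite_toSet _),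
    ?_, ?_⟩
  · rintro ⟨a, b, d⟩ ht
    rw [← lc_trg, k1 _ ((tri_iff hl).1 ht), hζ _ ((tri_iff hl).1 ht)]
    rfl
  · have := Set.ncard_le_ncard_of_injOn _ hs inj1.injOn (Finset.finite_toSet _)
    rw [Set.ncard_coe_finset] at this
    exact this.trans k2

end Pool.Agent.MP_4f4d9f_gt.Ku

end

section

/-! Charts, and the amenable case. -/

namespace Pool.Agent.MP_4f4d9f_gt.Hy

open Topology

theorem charts_of {X : Type} [TopologicalSpace X] {m : ℕ}
    (h : ∀ x : X, ∃ e : OpenPartialHomeomorph X (Eu m), x ∈ e.source) : Charts X m := by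
  intro x
  obtain ⟨e, he⟩ := h x
  obtain ⟨r, hr, hb⟩ := Metric.isOpen_iff.1 e.open_target (e x) (e.map_source he)
  let f : OpenPartialHomeomorph (Eu m) X := (OpenPartialHomeomorph.univBall (e x) r).trans e.symm
  have hf : f.source = Set.univ := by
    refine Set.eq_univ_of_forall fun v => ⟨by simp, hb ?_⟩
    rw [← OpenPartialHomeomorph.univBall_target (E := Eu m) (e x) hr]
    exact OpenPartialHomeomorph.map_source _ (by simp)
  have ho := f.to_isOpenEmbedding hf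
  refine ⟨⟨f, ho.continuous⟩, ho, 0, ?_⟩
  simp [f, e.left_inv he]

theorem torsAt_of_subsingleton {H N : Type} [Group H] [Subsingleton H] [Ring N] (ι : H →* N)
    {C : ℕ → Type} [∀ k, AddCommGroup (C k)] {ρ : ∀ k, Representation ℤ H (C k)}
    {d : ∀ k, C (k + 1) →ₗ[ℤ] C k} {ε : C 0 →ₗ[ℤ] ℤ} (R : IsRes ρ d ε) (k : ℕ) :
    TorsAt ι ρ d R.eqv_d k := by
  obtain ⟨x, hx⟩ := R.surj
  let u : ∀ k, C k →ₗ[ℤ] C k := fun k => match k with
    | 0 => LinearMap.id - ε.smulRight x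
    | _ + 1 => LinearMap.id
  obtain ⟨t, ht, htd⟩ := R.exists_homotopy u
    (fun k g c => by simp [Subsingleton.elim g 1]) (fun c => by simp [u, hx])
    (fun k c => by cases k <;> simp [u, R.ε_d])
  intro z hz
  have e : Tens.map ι (d (k + 1)) (R.eqv_d _) ∘ₗ Tens.map ι (t (k + 1)) (ht _) +
      Tens.map ι (t k) (ht _) ∘ₗ Tens.map ι (d k) (R.eqv_d _) = LinearMap.id :=
    Tens.hom_ext ι fun c => by
      simp only [LinearMap.comp_apply, LinearMap.add_apply, Tens.map_of, ← map_add, htd,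
        LinearMap.id_apply, u]
  refine ⟨1, isRegular_one.left, Tens.map ι (t (k + 1)) (ht _) z, ?_⟩
  simpa [hz] using LinearMap.congr_fun e z

theorem folner_bot {G : Type} [Group G] (h : Folner G G) : Folner G (G ⧸ (⊥ : Subgroup G)) := by
  classical
  intro S ε hε
  obtain ⟨F, h1, h2⟩ := h S ε hε
  have hi : Function.Injective (QuotientGroup.mk : G → G ⧸ (⊥ : Subgroup G)) := fun a b e =>
    inv_mul_eq_one.1 (Subgroup.mem_bot.1 (QuotientGroup.eq.1 e))
  refine ⟨F.image QuotientGroup.mk, h1.image _, fun s hs => ?_⟩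
  rw [Finset.card_image_of_injective _ hi]
  refine le_trans (le_of_eq ?_) (h2 s hs)
  rw [← Set.ncard_image_of_injective _ hi]
  congr 2
  ext q
  constructor
  · rintro ⟨h3, h4⟩
    obtain ⟨a, ha, rfl⟩ := Finset.mem_image.1 h3
    exact ⟨a, ⟨ha, fun e => h4 (Finset.mem_image.2 ⟨_, e, rfl⟩)⟩, rfl⟩
  · rintro ⟨a, ⟨ha, h3⟩, rfl⟩
    refine ⟨Finset.mem_image_of_mem _ ha, fun e => ?_⟩
    obtain ⟨c, hc, e⟩ := Finset.mem_image.1 e
    exact h3 ((hi e : c = s • a) ▸ hc)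

theorem bettiSucc_of_folner {M : Type} [TopologicalSpace M] {X : Type} [TopologicalSpace X]
    [ContractibleSpace X] {G : Type} [Group G] [MulAction G X] [ContinuousConstSMul G X]
    {p : X → M} (hp : IsQuotientCoveringMap p G) (hG : Folner G G) {E : Type}
    [NormedAddCommGroup E] [InnerProductSpace ℂ E] {b : HilbertBasis G ℂ E} {ι : G →* vnAlg b}
    (hι : ∀ g h, (ι g).1 (b h) = b (g * h)) (k : ℕ) : bettiSucc b ι X k = 0 :=
  homDim_eq_zero_of_folner_tors hι (folner_bot hG) (B := Sing X k)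
    (fun g σ e => by
      have := hp.isCancelSMul
      have h' : g • σ (Classical.arbitrary _) = σ (Classical.arbitrary _) :=
        congrArg (fun τ : Sing X k => τ (Classical.arbitrary _)) e
      exact IsCancelSMul.right_cancel g 1 _ (h'.trans (one_smul _ _).symm))
    (bd ℤ X (k + 1)) (bd_smul G X (k + 1)) (bd ℤ X k) (bd_smul G X k)
    (torsAt_of_subsingleton _ (isRes_sing hp _ (⊥ : Subgroup G).subtype_injective) k)

end Pool.Agent.MP_4f4d9f_gt.Hy

end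

section

/-! The assembly, relative to the group theoretic statements. -/

namespace Pool.Agent.MP_4f4d9f_gt.Ku

open Sg Hy

theorem main_of
    (h1 : ∀ (G : Type) [Group G] (n : ℕ), 3 ≤ n → ∀ (θ : Cell G → F2) (ω : Cell G →₀ F2)
      (H : Tup G → T2 G), Dual F2 n 1 θ ω H → ∃ S : Finset G, Gen S ∧ CohQ S)
    (h2 : ∀ (G : Type) [Group G] (S : Finset G) (C : ℕ), (∀ g : G, IsOfFinOrder g → g = 1) →
      Gen S → SG S C → CohQ S → Liou S)
    {n : ℕ} (hn : 3 ≤ n) {M : Type} [TopologicalSpace M] [T2Space M] [CompactSpace M]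
    [ChartedSpace (EuclideanSpace ℝ (Fin n)) M]
    {X : Type} [TopologicalSpace X] [ContractibleSpace X]
    {G : Type} [Group G] [MulAction G X] [ContinuousConstSMul G X]
    {p : X → M} (hp : IsQuotientCoveringMap p G)
    {E : Type} [NormedAddCommGroup E] [InnerProductSpace ℂ E]
    (b : HilbertBasis G ℂ E) (ι : G →* vnAlg b) (hι : ∀ g h, (ι g).1 (b h) = b (g * h))
    {k : ℕ} (hk : n ≤ k + 2) : bettiSucc b ι X k = 0 := by
  by_cases hF : Folner G G
  · exact bettiSucc_of_folner hp hF hι k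
  obtain ⟨m, rfl⟩ : ∃ m, n = m + 1 := ⟨n - 1, by omega⟩
  have e1 := hemi_stmt sph_stmt
  have e2 := chart_stmt e1 prism_stmt
  have := t2_of_cover hp
  have hc : Charts X m := charts_of (chart_of_cover hp)
  obtain ⟨od, w, b1, b2⟩ := orient_stmt e2 triv_stmt G X m hc
  obtain ⟨T, hT⟩ := thomBoot_stmt G X m od w hc b2 (thomLoc_stmt e1 e2 X m od b1)
  obtain ⟨μ, hμ⟩ := fund_stmt (q_stmt e1 prism_stmt) G X M p m od w hp hc b1 b2
  obtain ⟨x₀, ψ', ψ, hψ⟩ := psiZ_stmt G X M p hp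
  obtain ⟨θ, ν, a1, a2⟩ := thetaZ_stmt G X m od w T μ x₀ ψ' ψ (proper_of_cover hp) b1 hT hμ hψ
  obtain ⟨ω, H, hD⟩ := dual_stmt G ℤ _ w θ ν a1 a2
  obtain ⟨θ', ν', a3, a4⟩ := red_stmt G _ w θ ν a1 a2
  obtain ⟨ω', H', hD'⟩ := dual_stmt G F2 _ 1 θ' ν' a3 a4
  obtain ⟨S, hS, coh⟩ := h1 G _ hn _ _ _ hD'
  obtain ⟨C', sg⟩ := gap_stmt G S hS hF
  obtain ⟨v0, v1⟩ := cohV_stmt G E b ι hι S C' hS sg
    (h2 G S C' (torsF_stmt G _ w θ ω H hD) hS sg coh) w
  refine singDim_eq_zero (by simp) ((isRes_sing hp (MonoidHom.id G) Function.injective_id).torsAt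
    ι (Bar.isRes G) (van_stmt G _ ι _ w θ ω H hD k fun j hj => ?_))
  obtain rfl | rfl : j = 0 ∨ j = 1 := by omega
  exacts [v0, v1]

end Pool.Agent.MP_4f4d9f_gt.Ku

end

section

/-! The assembly. -/

namespace Pool.Agent.MP_4f4d9f_gt.Ku

open Hy

/-- Harmonic Dirichlet functions are constant. -/
theorem liou (G : Type) [Group G] (S : Finset G) (C : ℕ) (hG : ∀ g : G, IsOfFinOrder g → g = 1)
    (hS : Gen S) (sg : SG S C) (coh : CohQ S) : Liou S :=
  liou_of cs_stmt kon_stmt nst_stmt pot_stmt df_stmt osc_stmt dec_stmt tight_stmt cont_stmt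
    kur_stmt cv_stmt lc_stmt two_stmt wc_stmt zal_stmt vc_stmt prb_stmt dyn_stmt lemR_stmt
    (ordLim_stmt ord3_stmt limQ_stmt) disc_stmt blk_stmt lab_stmt t10_stmt celA_stmt celB_stmt
    null_stmt three_stmt last_stmt hG hS sg coh

theorem main {n : ℕ} (hn : 3 ≤ n) {M : Type} [TopologicalSpace M] [T2Space M] [CompactSpace M]
    [ChartedSpace (EuclideanSpace ℝ (Fin n)) M]
    {X : Type} [TopologicalSpace X] [ContractibleSpace X]
    {G : Type} [Group G] [MulAction G X] [ContinuousConstSMul G X]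
    {p : X → M} (hp : IsQuotientCoveringMap p G)
    {E : Type} [NormedAddCommGroup E] [InnerProductSpace ℂ E]
    (b : HilbertBasis G ℂ E) (ι : G →* vnAlg b) (hι : ∀ g h, (ι g).1 (b h) = b (g * h))
    {k : ℕ} (hk : n ≤ k + 2) : bettiSucc b ι X k = 0 :=
  main_of (fun _ _ _ hn _ _ _ hD =>
    cohQ_of_dual fg_stmt fill_stmt coQ_stmt ripsQ_stmt c1Q_stmt c2Q_stmt hn hD) liou hn hp b ι hι hk

end Pool.Agent.MP_4f4d9f_gt.Ku

end
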