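import Pool.Agent.Mg.F4f4d9fr.Ga5bff8
import Pool.Agent.MP_4f4d9f_gt.SingCone
import Pool.Agent.Mg.F4f4d9fr.Gbb0e29
import Pool.Agent.Mg.F4f4d9fr.G4b39d3
import Pool.Agent.Mg.F4f4d9fr.Gdf2c93
import Pool.Agent.Mg.F4f4d9fr.G69af78

set_option linter.all false

section

/-! The Alexander-Whitney diagonal from singular simplices to tuples of vertices. -/

namespace Pool.Agent.MP_4f4d9f_gt.Nc

open Finsupp Sg Sg.Tup Hy Filter Topology

namespace AWL

variable {X J : Type} [TopologicalSpace X]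

/-- The cone operator in the first factor. -/
noncomputable def cl (a : J) : (Tup J × SS X →₀ ℤ) →ₗ[ℤ] (Tup J × SS X →₀ ℤ) :=
  lmapDomain ℤ ℤ (Prod.map (cons a) id)

/-- The augmentation in the first factor. -/
noncomputable def el1 : (Tup J × SS X →₀ ℤ) →ₗ[ℤ] (SS X →₀ ℤ) :=
  linearCombination ℤ fun c => if c.1.deg = 0 then single c.2 1 else 0

theorem ind2 {P : (Tup J × SS X →₀ ℤ) → Prop} (h0 : P 0) (hadd : ∀ x y, P x → P y → P (x + y))
    (hs : ∀ (r : ℤ) x, P x → P (r • x))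
    (h1 : ∀ (x : Tup J) (y : SS X), P (pr (single x 1) (single y 1))) (c : Tup J × SS X →₀ ℤ) :
    P c :=
  ind1 h0 hadd hs (fun b => by simpa only [pr_single, mul_one] using h1 b.1 b.2) c

theorem cl_pr (a : J) (u : Tup J →₀ ℤ) (w : SS X →₀ ℤ) : cl a (pr u w) = pr (cn ℤ a u) w := by
  rw [cl, lmapDomain_apply, mapDomain_pr, mapDomain_id]
  rfl

theorem el1_pr (x : Tup J) (y : SS X) :
    el1 (pr (single x 1) (single y 1)) = eps ℤ (single x 1) • single y 1 := by
  rw [pr_single, mul_one, el1, linearCombination_single, one_smul, eps_single]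
  split_ifs <;> simp

theorem el1_cl (a : J) (c : Tup J × SS X →₀ ℤ) : el1 (cl a c) = 0 := by
  induction c using ind2 with
  | h0 => simp
  | hadd x y hx hy => simp only [map_add, hx, hy, add_zero]
  | hs r x hx => simp only [map_smul, hx, smul_zero]
  | h1 x y => rw [cl_pr, cn_single, el1_pr, ← cn_single, eps_cn, zero_smul]

theorem cb_cl (a : J) (c : Tup J × SS X →₀ ℤ) :
    cbT (cl a c) = c - cl a (cbT c) - pr (single (pt a) 1) (el1 c) := by
  induction c using ind2 with
  | h0 => simp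
  | hadd x y hx hy => simp only [map_add, hx, hy]; abel
  | hs r x hx => simp only [map_smul, hx, smul_sub]
  | h1 x y =>
    rw [cl_pr, cn_single, cb_pr, cb_pr, bdT_cons, el1_pr, deg_cons, pow_succ]
    simp only [map_add, map_sub, map_smul, LinearMap.sub_apply, LinearMap.smul_apply, cl_pr,
      cn_single, mul_neg, mul_one, neg_smul]
    abel

theorem face_zero_succ {k : ℕ} (σ : Sing X (k + 2)) (j : Fin (k + 2)) :
    face 0 (face j.succ σ) = face j (face 0 σ) := by
  rw [face_face]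
  simp

theorem rg_face {k : ℕ} (σ : Sing X (k + 1)) (j : Fin (k + 2)) :
    rg ⟨k, face j σ⟩ ⊆ rg ⟨k + 1, σ⟩ := by
  rintro _ ⟨t, rfl⟩
  exact ⟨_, rfl⟩

theorem dS_zero (σ : Sing X 0) : dS (single (⟨0, σ⟩ : SS X) 1) = 0 := dS_single _

theorem dS_succ' {k : ℕ} (σ : Sing X (k + 1)) : dS (single (⟨k + 1, σ⟩ : SS X) 1) =
    single ⟨k, face 0 σ⟩ 1 -
      ∑ j : Fin (k + 1), (-1 : ℤ) ^ (j : ℕ) • single (⟨k, face j.succ σ⟩ : SS X) 1 := by
  rw [dS_succ, Fin.sum_univ_succ]
  simp only [Fin.val_zero, pow_zero, one_smul, Fin.val_succ, pow_succ, mul_neg, mul_one, neg_smul,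
    Finset.sum_neg_distrib, sub_eq_add_neg]

variable (i : X → J)

theorem aw_zero (σ : Sing X 0) : aw i (single ⟨0, σ⟩ 1) =
    pr (single (pt (i (v0 ⟨0, σ⟩))) 1) (single ⟨0, σ⟩ 1) := by
  rw [aw, linearCombination_single, one_smul, pr_single, mul_one]
  rfl

theorem aw_succ {k : ℕ} (σ : Sing X (k + 1)) : aw i (single ⟨k + 1, σ⟩ 1) =
    pr (single (pt (i (v0 ⟨k + 1, σ⟩))) 1) (single ⟨k + 1, σ⟩ 1) +
      cl (i (v0 ⟨k + 1, σ⟩)) (aw i (single ⟨k, face 0 σ⟩ 1)) := by
  rw [aw, linearCombination_single, linearCombination_single, one_smul, one_smul, pr_single,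
    mul_one]
  rfl

theorem ii_succ {k : ℕ} (σ : Sing X (k + 1)) :
    ii i ⟨k + 1, σ⟩ = cons (i (v0 ⟨k + 1, σ⟩)) (ii i ⟨k, face 0 σ⟩) := rfl

theorem el1_aw (c : SS X →₀ ℤ) : el1 (aw i c) = c := by
  induction c using ind1 with
  | h0 => simp
  | hadd x y hx hy => simp only [map_add, hx, hy]
  | hs r x hx => simp only [map_smul, hx]
  | h1 s =>
    obtain ⟨_ | k, σ⟩ := s
    · rw [aw_zero, el1_pr, eps_single, if_pos (deg_pt _), one_smul]
    · rw [aw_succ, map_add, el1_cl, el1_pr, eps_single, if_pos (deg_pt _), one_smul, add_zero]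

theorem aw_faces {k : ℕ} (σ : Sing X (k + 1)) :
    aw i (∑ j : Fin (k + 1), (-1 : ℤ) ^ (j : ℕ) • single (⟨k, face j.succ σ⟩ : SS X) 1) =
      pr (single (pt (i (v0 ⟨k + 1, σ⟩))) 1)
        (∑ j : Fin (k + 1), (-1 : ℤ) ^ (j : ℕ) • single (⟨k, face j.succ σ⟩ : SS X) 1) +
      cl (i (v0 ⟨k + 1, σ⟩)) (aw i (dS (single ⟨k, face 0 σ⟩ 1))) := by
  cases k with
  | zero =>
    simp only [dS_zero, map_zero, add_zero, map_sum, map_zsmul, aw_zero, v0_face_succ]
  | succ k =>
    simp only [dS_succ, map_sum, map_zsmul, ← Finset.sum_add_distrib, ← smul_add]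
    refine Finset.sum_congr rfl fun j _ => ?_
    rw [aw_succ, v0_face_succ, face_zero_succ]

theorem cb_aw1 (k : ℕ) (σ : Sing X k) :
    cbT (aw i (single ⟨k, σ⟩ 1)) = aw i (dS (single ⟨k, σ⟩ 1)) := by
  induction k with
  | zero => rw [aw_zero, cb_pr, bdT_pt, dS_zero]; simp
  | succ k ih =>
    rw [aw_succ, map_add, cb_cl, ih, el1_aw, cb_pr, bdT_pt, dS_succ', map_sub, map_sub, aw_faces]
    simp only [map_zero, LinearMap.zero_apply, deg_pt, pow_zero, one_smul]
    abel

theorem aw_mem (k : ℕ) (σ : Sing X k) : ∀ e ∈ (aw i (single ⟨k, σ⟩ 1)).support,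
    e.1.deg + e.2.1 = k ∧ rg e.2 ⊆ rg ⟨k, σ⟩ ∧ In (i '' rg ⟨k, σ⟩) e.1 := by
  classical
  induction k with
  | zero =>
    intro e he
    rw [aw_zero, pr_single] at he
    rw [Finset.mem_singleton.1 (support_single_subset he)]
    exact ⟨rfl, subset_rfl, in_pt.2 ⟨_, v0_mem _, rfl⟩⟩
  | succ k ih =>
    intro e he
    rw [aw_succ, pr_single] at he
    rcases Finset.mem_union.1 (support_add he) with he | he
    · rw [Finset.mem_singleton.1 (support_single_subset he)]
      exact ⟨zero_add _, subset_rfl, in_pt.2 ⟨_, v0_mem _, rfl⟩⟩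
    · obtain ⟨e', he', rfl⟩ := Finset.mem_image.1 (mapDomain_support he)
      obtain ⟨h1, h2, h3⟩ := ih _ e' he'
      refine ⟨?_, h2.trans (rg_face σ 0), in_cons.2 ⟨⟨_, v0_mem _, rfl⟩,
        h3.mono (Set.image_mono (rg_face σ 0))⟩⟩
      simp only [Prod.map, deg_cons, id]
      omega

theorem ii_deg (k : ℕ) (σ : Sing X k) : (ii i ⟨k, σ⟩).deg = k := by
  induction k with
  | zero => rfl
  | succ k ih => rw [ii_succ, deg_cons, ih]

theorem ii_in (k : ℕ) (σ : Sing X k) : In (i '' rg ⟨k, σ⟩) (ii i ⟨k, σ⟩) := by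
  induction k with
  | zero => exact in_pt.2 ⟨_, v0_mem _, rfl⟩
  | succ k ih =>
    exact in_cons.2 ⟨⟨_, v0_mem _, rfl⟩, (ih _).mono (Set.image_mono (rg_face σ 0))⟩

theorem ii_faces {k : ℕ} (σ : Sing X (k + 1)) :
    lmapDomain ℤ ℤ (ii i)
      (∑ j : Fin (k + 1), (-1 : ℤ) ^ (j : ℕ) • single (⟨k, face j.succ σ⟩ : SS X) 1) =
      cn ℤ (i (v0 ⟨k + 1, σ⟩)) (lmapDomain ℤ ℤ (ii i) (dS (single ⟨k, face 0 σ⟩ 1))) +
        eps ℤ (single (ii i ⟨k, face 0 σ⟩) 1) • single (pt (i (v0 ⟨k + 1, σ⟩))) 1 := by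
  rw [eps_single, ii_deg]
  cases k with
  | zero =>
    rw [dS_zero, map_zero, map_zero, if_pos rfl, one_smul, Fin.sum_univ_succ,
      ← v0_face_succ σ 0]
    simp only [Fin.val_zero, pow_zero, one_smul, lmapDomain_apply, mapDomain_single,
      Finset.univ_eq_empty, Finset.sum_empty, add_zero, zero_add]
    rfl
  | succ k =>
    rw [if_neg (Nat.succ_ne_zero k), zero_smul, add_zero]
    simp only [dS_succ, map_sum, map_zsmul, lmapDomain_apply, mapDomain_single, cn_single]
    refine Finset.sum_congr rfl fun j _ => ?_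
    rw [ii_succ, v0_face_succ, face_zero_succ]

theorem bd_ii (k : ℕ) (σ : Sing X k) :
    bdT ℤ (single (ii i ⟨k, σ⟩) 1) = lmapDomain ℤ ℤ (ii i) (dS (single ⟨k, σ⟩ 1)) := by
  induction k with
  | zero => rw [dS_zero, map_zero]; exact bdT_pt _ _
  | succ k ih =>
    rw [ii_succ, bdT_cons, ih, dS_succ', map_sub, ii_faces, sub_sub, lmapDomain_apply ℤ ℤ _
      (single _ _), mapDomain_single]

theorem lc_el1 (f : SS X → ℤ) (c : Tup J × SS X →₀ ℤ) :
    linearCombination ℤ (fun e : Tup J × SS X => if e.1.deg = 0 then f e.2 else 0) c =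
      linearCombination ℤ f (el1 c) := by
  induction c using ind2 with
  | h0 => simp
  | hadd x y hx hy => simp only [map_add, hx, hy]
  | hs r x hx => simp only [map_smul, hx]
  | h1 x y =>
    rw [el1_pr, pr_single, eps_single]
    split_ifs with h <;> simp [h]

section Eqv

variable {G : Type} [Group G] [MulAction G X] [ContinuousConstSMul G X]

theorem pr_smul (g : G) (u : Tup G →₀ ℤ) (w : SS X →₀ ℤ) : (pr u w).mapDomain (g • ·) =
    pr (u.mapDomain (g • ·)) (w.mapDomain (g • ·)) := mapDomain_pr _ _ u w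

theorem cl_smul (g a : G) (c : Tup G × SS X →₀ ℤ) :
    cl (g * a) (c.mapDomain (g • ·)) = (cl a c).mapDomain (g • ·) := by
  induction c using ind2 with
  | h0 => simp
  | hadd x y hx hy => simp only [mapDomain_add, map_add, hx, hy]
  | hs r x hx => simp only [mapDomain_smul, map_smul, hx]
  | h1 x y => rw [pr_smul, cl_pr, cl_pr, pr_smul, cn_smul]

theorem aw_smul1 {i : X → G} (h : ∀ (g : G) y, i (g • y) = g * i y) (g : G) (k : ℕ)
    (σ : Sing X k) :
    aw i (single ⟨k, g • σ⟩ 1) = (aw i (single ⟨k, σ⟩ 1)).mapDomain (g • ·) := by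
  have e : ∀ (k : ℕ) (σ : Sing X k), i (v0 ⟨k, g • σ⟩) = g * i (v0 ⟨k, σ⟩) := fun k σ =>
    (congrArg i (v0_smul g ⟨k, σ⟩)).trans (h g _)
  induction k with
  | zero =>
    rw [aw_zero, aw_zero, pr_smul, mapDomain_single, mapDomain_single, e, smul_pt]
    rfl
  | succ k ih =>
    rw [aw_succ, aw_succ, mapDomain_add, pr_smul, mapDomain_single, mapDomain_single, e, smul_pt,
      ← cl_smul, ← ih]
    rfl

end Eqv

end AWL

theorem aw_stmt : AWStmt := fun X J _ i =>
  { cb := fun c => by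
      induction c using ind1 with
      | h0 => simp
      | hadd x y hx hy => simp only [map_add, hx, hy]
      | hs r x hx => simp only [map_smul, hx]
      | h1 s => exact AWL.cb_aw1 i s.1 s.2
    mem := fun s => AWL.aw_mem i s.1 s.2
    el := fun f c => by rw [AWL.lc_el1, AWL.el1_aw]
    ibd := fun c => by
      induction c using ind1 with
      | h0 => simp
      | hadd x y hx hy => simp only [mapDomain_add, map_add, hx, hy]
      | hs r x hx => simp only [mapDomain_smul, map_smul, hx]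
      | h1 s => rw [mapDomain_single]; exact AWL.bd_ii i s.1 s.2
    ideg := fun s => AWL.ii_deg i s.1 s.2
    iin := fun s => AWL.ii_in i s.1 s.2 }

theorem awE_stmt : AWEStmt := fun G X _ _ _ _ i h g c => by
  induction c using ind1 with
  | h0 => simp
  | hadd x y hx hy => simp only [mapDomain_add, map_add, hx, hy]
  | hs r x hx => simp only [mapDomain_smul, map_smul, hx]
  | h1 s => rw [mapDomain_single]; exact AWL.aw_smul1 h g s.1 s.2

end Pool.Agent.MP_4f4d9f_gt.Nc

end

section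

/-! A natural Eilenberg-Zilber map, by acyclic models. -/

namespace Pool.Agent.MP_4f4d9f_gt.Nc

open Finsupp Sg Sg.Tup Hy Filter Topology

namespace EZL

variable {X Y X' Y' : Type} [TopologicalSpace X] [TopologicalSpace Y] [TopologicalSpace X']
  [TopologicalSpace Y']

/-- Chains on the models. -/
abbrev Fm (k : ℕ) : Type := (a b : ℕ) → Ch (Sx a × Sx b) k

/-- The natural map given by chains on the models. -/
noncomputable def ps {k : ℕ} (e : Fm k) : (SS X × SS Y →₀ ℤ) →ₗ[ℤ] Ch (X × Y) k :=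
  linearCombination ℤ fun c => push ℤ (c.1.2.prodMap c.2.2) k (e c.1.1 c.2.1)

theorem ps_single {k : ℕ} (e : Fm k) (c : SS X × SS Y) :
    ps e (single c 1) = push ℤ (c.1.2.prodMap c.2.2) k (e c.1.1 c.2.1) := by
  rw [ps, linearCombination_single, one_smul]

theorem push_ps {k : ℕ} (e : Fm k) (f : C(X, X')) (g : C(Y, Y')) (c : SS X × SS Y →₀ ℤ) :
    push ℤ (f.prodMap g) k (ps e c) = ps e (c.mapDomain (Prod.map (mp f) (mp g))) := by
  induction c using ind1 with
  | h0 => simp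
  | hadd a b ha hb => simp only [mapDomain_add, map_add, ha, hb]
  | hs r a ha => simp only [mapDomain_smul, map_smul, ha]
  | h1 c =>
    rw [mapDomain_single, ps_single, ps_single, push_push]
    rfl

/-- The identity simplex. -/
def idS (a : ℕ) : SS (Sx a) := ⟨a, ContinuousMap.id _⟩

theorem mp_idS (s : SS X) : mp s.2 (idS s.1) = s := rfl

/-- The slice over a point. -/
def sl' (x : X) : C(Y, X × Y) := ⟨fun y => (x, y), continuous_const.prodMk continuous_id⟩

theorem push_res (f : C(X, Y)) (k : ℕ) (s : SS X) :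
    push ℤ f k (res k (single s 1)) = res k (single (mp f s) 1) := by
  by_cases h : s.1 = k
  · obtain ⟨l, σ⟩ := s
    obtain rfl : l = k := h
    rw [res_single_self, push_single, mp, res_single_self]
  · rw [res_single_ne h, res_single_ne (s := mp f s) h, map_zero]

/-- The chains over a point. -/
noncomputable def bs (k : ℕ) : Fm k := fun _ b =>
  push ℤ (sl' (stdSimplex.vertex 0)) k (res k (single (idS b) 1))

variable (K : (a b k : ℕ) → Ch (Sx a × Sx b) k →ₗ[ℤ] Ch (Sx a × Sx b) (k + 1))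

/-- The chains on the models. -/
noncomputable def E : (k : ℕ) → Fm k
  | 0 => fun a b => if a = 0 then bs 0 a b else 0
  | k + 1 => fun a b => if a = 0 then bs (k + 1) a b else if a + b = k + 1 then
      K a b k (ps (E k) (cbS (single (idS a, idS b) 1))) else 0

theorem E_base (k b : ℕ) {a : ℕ} (h : a = 0) : E K k a b = bs k a b := by
  cases k <;> rw [E] <;> exact if_pos h

theorem ps_base (k : ℕ) {c : SS X × SS Y} (h : c.1.1 = 0) :
    ps (E K k) (single c 1) = push ℤ (sl' (v0 c.1)) k (res k (single c.2 1)) := by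
  rw [ps_single, E_base K k _ h, bs, push_push, ← mp_idS c.2, ← push_res, push_push]
  rfl

theorem ps_zero {c : SS X × SS Y} (h : c.1.1 ≠ 0) : ps (E K 0) (single c 1) = 0 := by
  rw [ps_single, E]
  simp only [if_neg h, map_zero]

theorem ps_succ (k : ℕ) {c : SS X × SS Y} (h : c.1.1 ≠ 0) :
    ps (E K (k + 1)) (single c 1) = if c.1.1 + c.2.1 = k + 1 then
      push ℤ (c.1.2.prodMap c.2.2) (k + 1)
        (K _ _ k (ps (E K k) (cbS (single (idS c.1.1, idS c.2.1) 1)))) else 0 := by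
  rw [ps_single, E]
  simp only [if_neg h]
  split_ifs
  · rfl
  · exact map_zero _

theorem ps_pt (k : ℕ) {x : SS X} (h : x.1 = 0) (u : SS Y →₀ ℤ) :
    ps (E K k) (pr (single x 1) u) = push ℤ (sl' (v0 x)) k (res k u) := by
  induction u using ind1 with
  | h0 => simp
  | hadd a b ha hb => simp only [map_add, ha, hb]
  | hs r a ha => simp only [map_smul, ha]
  | h1 y => rw [pr_single, mul_one, ps_base K k (c := (x, y)) h]

theorem ps_deg (k : ℕ) (c : SS X × SS Y) (h : c.1.1 + c.2.1 ≠ k) :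
    ps (E K k) (single c 1) = 0 := by
  by_cases h0 : c.1.1 = 0
  · rw [ps_base K k h0, res_single_ne (by rwa [h0, zero_add] at h), map_zero]
  cases k with
  | zero => exact ps_zero K h0
  | succ k => rw [ps_succ K k h0, if_neg h]

theorem ps_cb (k : ℕ) (c : SS X × SS Y) (h : c.1.1 + c.2.1 ≠ k + 1) :
    ps (E K k) (cbS (single c 1)) = 0 := by
  rw [← (cbS (single c 1)).sum_single, Finsupp.sum, map_sum]
  refine Finset.sum_eq_zero fun e he => ?_
  have : e.1.1 + e.2.1 + 1 = c.1.1 + c.2.1 := by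
    rcases mem_support_cb he with ⟨h1, h2⟩ | ⟨h1, h2⟩
    · have := (mem_support_dS h1).1
      rw [h2]
      omega
    · have := (mem_support_dS h2).1
      rw [h1]
      omega
  rw [← smul_single_one, map_smul, ps_deg K k e (by omega), smul_zero]

theorem aug_ps (u : SS X →₀ ℤ) (v : SS Y →₀ ℤ) :
    aug ℤ (X × Y) (ps (E K 0) (pr u v)) = aug ℤ X (res 0 u) * aug ℤ Y (res 0 v) := by
  induction u using ind1 with
  | h0 => simp
  | hadd a b ha hb => simp only [map_add, LinearMap.add_apply, ha, hb, add_mul]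
  | hs r a ha => simp only [map_smul, LinearMap.smul_apply, ha, smul_eq_mul, mul_assoc]
  | h1 x =>
    by_cases h0 : x.1 = 0
    · rw [ps_pt K 0 h0, aug_push]
      obtain ⟨l, σ⟩ := x
      obtain rfl : l = 0 := h0
      rw [res_single_self, aug_single, one_mul]
    · rw [res_single_ne h0, map_zero, zero_mul]
      induction v using ind1 with
      | h0 => simp
      | hadd a b ha hb => simp only [map_add, ha, hb, add_zero]
      | hs r a ha => simp only [map_smul, ha, smul_zero]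
      | h1 y => rw [pr_single, mul_one, ps_zero K (c := (x, y)) h0, map_zero]

theorem aug_cb (c : SS X × SS Y) : aug ℤ (X × Y) (ps (E K 0) (cbS (single c 1))) = 0 := by
  rw [cb_single, map_add, map_add, map_smul, map_smul, aug_ps, aug_ps, res_dS, res_dS, aug_bd,
    aug_bd, zero_mul, mul_zero, smul_zero, add_zero]

theorem ps_bd0 (k : ℕ) {c : SS X × SS Y} (h0 : c.1.1 = 0) :
    bd ℤ (X × Y) k (ps (E K (k + 1)) (single c 1)) = ps (E K k) (cbS (single c 1)) := by
  have e : dS (single c.1 1) = 0 := by rw [eq_ptS h0, dS_ptS]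
  rw [ps_base K _ h0, bd_push, ← res_dS, cb_single, e, map_zero, LinearMap.zero_apply, zero_add,
    h0, pow_zero, one_smul, ps_pt K k h0]

theorem push_cb (k : ℕ) (c : SS X × SS Y) :
    push ℤ (c.1.2.prodMap c.2.2) k (ps (E K k) (cbS (single (idS c.1.1, idS c.2.1) 1))) =
      ps (E K k) (cbS (single c 1)) := by
  rw [push_ps, ← cb_mapDomain (dg := Sigma.fst) (dg' := Sigma.fst) (mp c.1.2) (mp c.2.2)
    (fun _ => rfl) (dS_mp _) (dS_mp _), mapDomain_single]
  rfl

theorem ps_bd (h0 : ∀ a b c, aug ℤ _ c = 0 → bd ℤ _ 0 (K a b 0 c) = c)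
    (h1 : ∀ a b i c, bd ℤ _ i c = 0 → bd ℤ _ (i + 1) (K a b (i + 1) c) = c) (k : ℕ) :
    ∀ (X Y : Type) [TopologicalSpace X] [TopologicalSpace Y] (c : SS X × SS Y →₀ ℤ),
      bd ℤ (X × Y) k (ps (E K (k + 1)) c) = ps (E K k) (cbS c) := by
  induction k with
  | zero =>
    intro X Y _ _ c
    induction c using ind1 with
    | h0 => simp
    | hadd a b ha hb => simp only [map_add, ha, hb]
    | hs r a ha => simp only [map_smul, ha]
    | h1 c =>
      by_cases e : c.1.1 = 0
      · exact ps_bd0 K 0 e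
      rw [ps_succ K 0 e]
      split_ifs with h
      · rw [bd_push, h0 _ _ _ (aug_cb K _), push_cb]
      · rw [map_zero, ps_cb K 0 c h]
  | succ k ih =>
    intro X Y _ _ c
    induction c using ind1 with
    | h0 => simp
    | hadd a b ha hb => simp only [map_add, ha, hb]
    | hs r a ha => simp only [map_smul, ha]
    | h1 c =>
      by_cases e : c.1.1 = 0
      · exact ps_bd0 K _ e
      rw [ps_succ K _ e]
      split_ifs with h
      · rw [bd_push, h1 _ _ _ _ (by rw [ih, cbS_cbS, map_zero]), push_cb]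
      · rw [map_zero, ps_cb K (k + 1) c h]

theorem contr (a : ℕ) : ContractibleSpace (Sx a) :=
  (convex_stdSimplex ℝ (Fin (a + 1))).contractibleSpace ⟨_, (stdSimplex.vertex 0).2⟩

theorem exists_K :
    ∃ K : (a b k : ℕ) → Ch (Sx a × Sx b) k →ₗ[ℤ] Ch (Sx a × Sx b) (k + 1),
      (∀ a b c, aug ℤ _ c = 0 → bd ℤ _ 0 (K a b 0 c) = c) ∧
      ∀ a b i c, bd ℤ _ i c = 0 → bd ℤ _ (i + 1) (K a b (i + 1) c) = c := by
  have key : ∀ a b : ℕ, ∃ K : (k : ℕ) → Ch (Sx a × Sx b) k →ₗ[ℤ] Ch (Sx a × Sx b) (k + 1),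
      (∀ c, aug ℤ _ c = 0 → bd ℤ _ 0 (K 0 c) = c) ∧
      ∀ i c, bd ℤ _ i c = 0 → bd ℤ _ (i + 1) (K (i + 1) c) = c := fun a b => by
    have := contr a
    have := contr b
    obtain ⟨x₀, ⟨H⟩⟩ := id_nullhomotopic (Sx a × Sx b)
    refine ⟨cone ℤ H, fun c hc => ?_, fun i c hc => ?_⟩
    · rw [bd_cone_zero, hc, push_id, single_zero, sub_zero]
    · rw [bd_cone_succ, hc, push_id, map_zero, sub_zero]
  choose K h0 h1 using key
  exact ⟨K, h0, h1⟩

end EZL

open EZL in
theorem ez_stmt : EZStmt := by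
  intro G X _ _ _ _
  obtain ⟨K, h0, h1⟩ := exists_K
  refine ⟨fun k => ps (E K k), ps_deg K, fun k c => ps_bd K h0 h1 k X X c, fun k c => ?_,
    fun k g c => ?_, fun k y b => ps_base K k (c := (ptS y, b)) rfl⟩
  · rw [ps_single]
    refine push_mem_supp _ (fun t _ => ?_) (mem_supp_univ _)
    exact ⟨⟨t.1, rfl⟩, ⟨t.2, rfl⟩⟩
  · have := push_ps (E K k) (FundL.sm g) (FundL.sm g) (single c 1)
    rw [mapDomain_single] at this
    exact this.symm

end Pool.Agent.MP_4f4d9f_gt.Nc

end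

section

/-! The Thom cocycle of the diagonal on pairs of singular simplices. -/

namespace Pool.Agent.MP_4f4d9f_gt.Nc

open Finsupp Sg Sg.Tup Hy Filter Topology

namespace ThL

variable {G X : Type} [Group G] [TopologicalSpace X] [MulAction G X] [ContinuousConstSMul G X]
  {ψ : (k : ℕ) → (SS X × SS X →₀ ℤ) →ₗ[ℤ] Ch (X × X) k} {j : ℕ}
  {h : SS X × SS X → Ch (X × X) j}

/-- The corrected chain map. -/
noncomputable def UU (ψ : (k : ℕ) → (SS X × SS X →₀ ℤ) →ₗ[ℤ] Ch (X × X) k) {j : ℕ}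
    (h : SS X × SS X → Ch (X × X) j) : (SS X × SS X →₀ ℤ) →ₗ[ℤ] Ch (X × X) j :=
  ψ j - linearCombination ℤ h ∘ₗ cbS

theorem UU_apply (h : SS X × SS X → Ch (X × X) j) (r : SS X × SS X →₀ ℤ) :
    UU ψ h r = ψ j r - linearCombination ℤ h (cbS r) := rfl

theorem UU_cb (h : SS X × SS X → Ch (X × X) j) (r : SS X × SS X →₀ ℤ) :
    UU ψ h (cbS r) = ψ j (cbS r) := by
  rw [UU_apply, cbS_cbS, map_zero, sub_zero]

variable (G) in
/-- The inductive hypothesis. -/
structure Good (ψ : (k : ℕ) → (SS X × SS X →₀ ℤ) →ₗ[ℤ] Ch (X × X) k) (j : ℕ)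
    (h : SS X × SS X → Ch (X × X) j) : Prop where
  deg : ∀ c, c.1.1 + c.2.1 + 1 ≠ j → h c = 0
  cyc : ∀ r, RZ (offDiag X) j (UU ψ h r)
  eqv : ∀ (g : G) c, h (g • c) = push ℤ (mv X g g) j (h c)
  off : ∀ c, Disjoint (rg c.1) (rg c.2) → h c = 0

theorem mem_cbS {c e : SS X × SS X} (he : e ∈ (cbS (single c 1)).support) :
    e.1.1 + e.2.1 + 1 = c.1.1 + c.2.1 ∧ rg e.1 ⊆ rg c.1 ∧ rg e.2 ⊆ rg c.2 := by
  rcases mem_support_cb he with ⟨h1, h2⟩ | ⟨h1, h2⟩
  · obtain ⟨h3, h4⟩ := mem_support_dS h1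
    exact ⟨by rw [h2]; omega, h4, h2 ▸ le_rfl⟩
  · obtain ⟨h3, h4⟩ := mem_support_dS h2
    exact ⟨by rw [h1]; omega, h1 ▸ le_rfl, h4⟩

theorem lc_zero {B M : Type} [AddCommGroup M] {f : B → M} {r : B →₀ ℤ}
    (hr : ∀ e ∈ r.support, f e = 0) : linearCombination ℤ f r = 0 := by
  rw [linearCombination_apply, Finsupp.sum]
  exact Finset.sum_eq_zero fun e he => by rw [hr e he, smul_zero]

theorem UU_smul (hψ : EZP G ψ) (hg : Good G ψ j h) (g : G) (c : SS X × SS X) :
    UU ψ h (single (g • c) 1) = push ℤ (mv X g g) j (UU ψ h (single c 1)) := by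
  have h1 : ∀ r : SS X × SS X →₀ ℤ, linearCombination ℤ h (r.mapDomain (g • ·)) =
      push ℤ (mv X g g) j (linearCombination ℤ h r) := by
    intro r
    induction r using ind1 with
    | h0 => simp
    | hadd x y hx hy => simp only [mapDomain_add, map_add, hx, hy]
    | hs r x hx => simp only [mapDomain_smul, map_smul, hx]
    | h1 b => simp only [mapDomain_single, linearCombination_single, one_smul, hg.eqv]
  rw [UU_apply, UU_apply, map_sub, ← h1, ← cbS_smul, mapDomain_single, hψ.eqv]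

theorem fact1 (hψ : EZP G ψ) (hg : Good G ψ j h) {c : SS X × SS X} (hc : c.1.1 + c.2.1 ≠ j) :
    UU ψ h (single c 1) = 0 := by
  rw [UU_apply, lc_zero fun e he => hg.deg e (by rwa [(mem_cbS he).1]), hψ.deg j c hc, sub_zero]

theorem fact2 (hψ : EZP G ψ) (hg : Good G ψ j h) {c : SS X × SS X}
    (hc : Disjoint (rg c.1) (rg c.2)) : UU ψ h (single c 1) ∈ supp ℤ (offDiag X) j := by
  rw [UU_apply, lc_zero fun e he => hg.off e (hc.mono (mem_cbS he).2.1 (mem_cbS he).2.2), sub_zero]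
  refine supp_mono (B := offDiag X) (fun p hp (e : p.1 = p.2) => ?_) j (hψ.sup j c)
  exact Set.disjoint_left.1 hc hp.1 (e ▸ hp.2)

theorem step {i : X → G} (hi : ∀ (g : G) y, i (g • y) = g * i y)
    (hP : ∀ c, RZ (offDiag X) j c → RB Set.univ (offDiag X) j c) (hψ : EZP G ψ)
    (hg : Good G ψ j h) : ∃ h', Good G ψ (j + 1) h' := by
  have hex : ∀ c : SS X × SS X, ∃ b, UU ψ h (single c 1) - bd ℤ _ j b ∈ supp ℤ (offDiag X) j ∧
      (UU ψ h (single c 1) ∈ supp ℤ (offDiag X) j → b = 0) := by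
    intro c
    by_cases hc : UU ψ h (single c 1) ∈ supp ℤ (offDiag X) j
    · exact ⟨0, by rwa [map_zero, sub_zero], fun _ => rfl⟩
    · obtain ⟨b, -, hb⟩ := hP _ (hg.cyc (single c 1))
      exact ⟨b, hb, fun h' => absurd h' hc⟩
  choose b hb hb0 using hex
  let h' : SS X × SS X → Ch (X × X) (j + 1) := fun c =>
    push ℤ (mv X (i (v0 c.1)) (i (v0 c.1))) (j + 1) (b ((i (v0 c.1))⁻¹ • c))
  have h0 : ∀ c, UU ψ h (single c 1) ∈ supp ℤ (offDiag X) j → h' c = 0 := by
    intro c hc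
    simp only [h']
    rw [hb0 _ (by rw [UU_smul hψ hg]; exact ThetaZL.act_off _ hc), map_zero]
  have key : ∀ r, UU ψ h r - bd ℤ _ j (linearCombination ℤ h' r) ∈ supp ℤ (offDiag X) j := by
    intro r
    induction r using ind1 with
    | h0 => simp
    | hadd x y hx hy =>
      rw [map_add, map_add, map_add, add_sub_add_comm]
      exact add_mem hx hy
    | hs r x hx =>
      rw [map_smul, map_smul, map_smul, ← smul_sub]
      exact Submodule.smul_mem _ r hx
    | h1 c =>
      have := ThetaZL.act_off (i (v0 c.1)) (hb ((i (v0 c.1))⁻¹ • c))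
      rw [map_sub, ← UU_smul hψ hg, smul_inv_smul, ← bd_push] at this
      rwa [linearCombination_single, one_smul]
  refine ⟨h', fun c hc => h0 c ?_, fun r => ?_, fun g c => ?_, fun c hc => h0 c (fact2 hψ hg hc)⟩
  · rw [fact1 hψ hg fun e => hc (congrArg (· + 1) e)]
    exact zero_mem _
  · rw [rz_succ, UU_apply, map_sub, hψ.bd, ← UU_cb h]
    exact key _
  · simp only [h', ThetaZL.act_act, Prod.smul_fst, v0_smul, hi, smul_smul, mul_inv_rev,
      inv_mul_cancel_right]

end ThL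

open ThL in
theorem th_stmt : ThStmt := by
  intro G X _ _ _ _ m w od T i ψ hi hT hψ
  have hex : ∀ j ≤ m + 1, ∃ h, Good G ψ j h := by
    intro j
    induction j with
    | zero =>
      exact fun _ => ⟨0, fun _ _ => rfl, fun _ => trivial, fun _ _ => (map_zero _).symm,
        fun _ _ => rfl⟩
    | succ j ih =>
      intro hj
      obtain ⟨h, hg⟩ := ih (by omega)
      exact step hi (hT.low j (by omega)) hψ hg
  obtain ⟨h, hg⟩ := hex (m + 1) le_rfl
  have h0 : T 0 = 0 := hT.zero 0 rb_zero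
  have key : ∀ r, linearCombination ℤ (fun c => T (UU ψ h (single c 1))) r = T (UU ψ h r) := by
    intro r
    induction r using ind1 with
    | h0 => rw [map_zero, map_zero, h0]
    | hadd x y hx hy => rw [map_add, map_add, hT.add _ _ (hg.cyc x) (hg.cyc y), hx, hy]
    | hs r x hx => rw [map_smul, map_smul, ThetaZL.T_smul hT (hg.cyc x), hx, smul_eq_mul]
    | h1 c => rw [linearCombination_single, one_smul]
  refine ⟨fun c => T (UU ψ h (single c 1)), fun g x y => ?_, fun x y hc => ?_, fun c => ?_,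
    fun x y hc => hT.zero _ (rb_of_mem (fact2 hψ hg hc)), fun y c hc => ?_⟩
  · rw [← hT.eqv g _ (hg.cyc _), ← UU_smul hψ hg]
    rfl
  · by_contra hne
    exact hc (by rw [fact1 hψ hg (c := (x, y)) hne, h0])
  · rw [key, UU_cb, ← hψ.bd]
    exact hT.zero _ (rb_bd (mem_supp_univ _))
  · have e1 : ∀ z, ψ (m + 1) (pr (single (ptS y) 1) z) =
        push ℤ (sl y) (m + 1) (res (m + 1) z) := by
      intro z
      induction z using ind1 with
      | h0 => simp
      | hadd x y hx hy => simp only [map_add, hx, hy]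
      | hs r x hx => simp only [map_smul, hx]
      | h1 b => rw [pr_single, mul_one, hψ.base]
    have e2 : linearCombination ℤ h (cbS (pr (single (ptS y) 1) (inc (m + 1) c))) = 0 := by
      rw [cb_pr, dS_ptS, map_zero, LinearMap.zero_apply, zero_add, map_smul, lc_pr_right, dS_inc,
        lc_inc, lc_zero, smul_zero]
      intro s hs
      refine hg.off _ ?_
      rw [rg_ptS, Set.disjoint_singleton_left]
      rintro ⟨t, ht⟩
      exact mem_supp.1 (rz_succ.1 hc) s hs t ht
    rw [← lc_pr_right fun c => T (UU ψ h (single c 1)), key, UU_apply, e2, sub_zero, e1, res_inc,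
      hT.slice _ _ hc]

end Pool.Agent.MP_4f4d9f_gt.Nc

end

section

/-! Fundamental chains over an exhausting sequence of invariant sets. -/

namespace Pool.Agent.MP_4f4d9f_gt.Nc

open Finsupp Sg Sg.Tup Hy Filter Topology

namespace FundAL

open FundL

variable {G X : Type} [Group G] [TopologicalSpace X] [MulAction G X] [ContinuousConstSMul G X]
  {w : G →* ℤˣ} {m : ℕ} {od : X → Ch X (m + 1) → ℤ} {i : C(Eu m, X)} {K A B : Set X}
  {c μ : Ch X (m + 1)}

theorem step₀ [T2Space X] (hQ : QStmt) (h : Loc G od i K B c) (hp : Prp G X)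
    (ho : LocOr m Set.univ od) (hw : OrCh m w od) (hA : Inv G A) (hA' : IsClosed A)
    (hμ : Good w od A μ) : ∃ μ', Good w od (A ∪ B) μ' ∧ μ' - μ ∈ Ng w m A := by
  obtain ⟨μ₁, h1, μ₃, h3, e1⟩ := h.split hμ.1
  have g1 := hμ.congr hp ho hA e1
  have b1 : bd ℤ X m μ₁ ∈ supp ℤ Aᶜ m ⊔ supp ℤ Bᶜ m := by
    unfold supp
    rw [← supported_union]
    refine mem_of_rel w (V := {σ : Sing X m | Set.range σ ⊆ Set.range i}) (fun g σ a1 a2 => ?_)
      (fun g σ a => ?_) (bd_mem_supp h1) ?_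
    · exact h.free g (σ (Classical.arbitrary _)) (a1 ⟨_, rfl⟩) (a2 ⟨_, rfl⟩)
    · exact a.imp (hA.compl.sing g σ).2 (h.inv.compl.sing g σ).2
    · rw [supported_union, ← sup_assoc, ← add_sub_cancel_right (bd ℤ X m μ₁) (bd ℤ X m μ₃),
        ← map_add]
      exact sub_mem (Submodule.mem_sup_left g1.1) (Submodule.mem_sup_right (bd_mem_supp h3))
  have b2 : bd ℤ X m (μ₁ - c) ∈ supp ℤ Aᶜ m ⊔ supp ℤ Bᶜ m := by
    rw [map_sub]
    exact sub_mem b1 (Submodule.mem_sup_right (supp_mono Set.inter_subset_right _ h.bd_mem))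
  have s2 : supp ℤ Aᶜ m ⊔ supp ℤ Bᶜ m ≤ supp ℤ (K ∩ A)ᶜ m :=
    sup_le (supp_mono (Set.compl_subset_compl.2 Set.inter_subset_right) _)
      (supp_mono (Set.compl_subset_compl.2 (Set.inter_subset_left.trans h.sub')) _)
  obtain ⟨a, -, hv⟩ := chart_rb hQ h.emb (h.cpt.inter_right hA')
    (Set.inter_subset_left.trans h.sub) (sub_mem h1 h.csupp) (s2 b2) fun y hy => by
      have hy' : (K ∩ A)ᶜ ⊆ {y}ᶜ := Set.compl_subset_compl.2 (Set.singleton_subset_iff.2 hy)
      have z1 : RZ {y}ᶜ (m + 1) μ₁ := supp_mono hy' _ (s2 b1)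
      have z2 : RZ {y}ᶜ (m + 1) c :=
        h.rz.mono (Set.compl_subset_compl.2 (Set.singleton_subset_iff.2 hy.1))
      refine ho.inj y trivial _ (z1.sub z2) ?_
      obtain ⟨F, ⟨f1, f2⟩, f3⟩ := (((g1.2 y hy.2).and (rz_avF hp hA g1.1 hy.2)).and
        (eventually_ge_atTop {1})).exists
      have f4 := avF_loc w h.free h1 (f3 (Finset.mem_singleton_self 1)) (h.sub hy.1)
      simp only [map_one, inv_one, one_smul] at f4
      rw [show μ₁.mapDomain (fun x => x) = μ₁ from mapDomain_id] at f4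
      have f5 : avF w F (μ₁ + μ₃) - μ₁ ∈ supp ℤ {y}ᶜ (m + 1) := by
        rw [avF_add, add_sub_right_comm]
        exact add_mem f4 (supp_mono (Set.compl_subset_compl.2
          (Set.singleton_subset_iff.2 (h.sub' hy.1))) _ (avF_supp w h.inv.compl F h3))
      rw [ho.sub trivial z1 z2, h.one y hy.1, ← ho.congr trivial f2 (rb_of_mem f5), f1, sub_self]
  obtain ⟨e, -, he⟩ := small_chainR hA'.isOpen_compl h.cl.isOpen_compl m
    (μ₁ - c - bd ℤ X (m + 1) a)
    (supp_mono (fun x hx => by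
      by_cases hB : x ∈ B
      · exact Or.inl fun a => hx.2 ⟨h.mem' hx.1 hB, a⟩
      · exact Or.inr hB) _ hv)
    (by rwa [map_sub, bd_bd, sub_zero])
  obtain ⟨v₁, hv₁, v₂, hv₂, e2⟩ := Submodule.mem_sup.1 he
  have e4 : μ₁ + μ₃ - v₁ - μ ∈ Ng w m A := by
    rw [sub_right_comm]
    exact sub_mem e1 (Submodule.mem_sup_right (Submodule.mem_sup_right hv₁))
  refine ⟨μ₁ + μ₃ - v₁, Good.union hA (hμ.congr hp ho hA e4)
    ((h.good hp ho hw).congr hp ho h.inv ?_), e4⟩
  have e3 : μ₁ + μ₃ - v₁ - c = bd ℤ X (m + 1) (a + e) + (μ₃ + v₂) := by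
    rw [map_add, eq_sub_of_add_eq e2]
    abel
  rw [e3]
  exact Submodule.mem_sup_right (Submodule.add_mem_sup ⟨_, rfl⟩ (add_mem h3 hv₂))

theorem step [T2Space X] (hQ : QStmt) (h : Loc G od i K B c) (hp : Prp G X)
    (ho : LocOr m Set.univ od) (hw : OrCh m w od) (hA : Inv G A) (hA' : IsClosed A)
    (hμ : Good w od A μ) : ∃ μ', Good w od (A ∪ B) μ' ∧ μ' - μ ∈ supp ℤ Aᶜ (m + 1) := by
  obtain ⟨μ', h1, h2⟩ := step₀ hQ h hp ho hw hA hA' hμ
  obtain ⟨r, hr, u, hu, e1⟩ := Submodule.mem_sup.1 h2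
  obtain ⟨b, hb, v, hv, rfl⟩ := Submodule.mem_sup.1 hu
  refine ⟨μ + v, h1.congr hp ho (fun g x => or_congr (hA g x) (h.inv g x)) ?_,
    by rwa [add_sub_cancel_left]⟩
  have e2 : μ + v - μ' = -r + -b := by
    rw [← sub_add_cancel μ' μ, ← e1]
    abel
  rw [e2]
  exact Submodule.add_mem_sup (neg_mem hr) (Submodule.mem_sup_left (neg_mem hb))

end FundAL

open FundL in
theorem seq_stmt (h : QStmt) : SeqStmt := by
  intro G X M _ _ _ _ _ _ _ _ p m od w hp hc ho hw
  have := t2_of_cover hp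
  have hpr : Prp G X := proper_of_cover hp
  choose i K c hK hL using exists_loc hp hc ho
  choose s hs using hp.surjective
  have hN : ∀ y : M, interior (p '' K (s y)) ∈ 𝓝 y := fun y => interior_mem_nhds.2 (by
    simpa only [hs] using hp.isOpenQuotientMap.isOpenMap.image_mem_nhds (hK (s y)))
  obtain ⟨t, ht, hu⟩ := countable_cover_nhds_of_sigmaCompact hN
  obtain ⟨y, rfl⟩ := ht.exists_eq_range (by
    obtain ⟨y, hy, -⟩ := Set.mem_iUnion₂.1 (hu ▸ Set.mem_univ (p (Classical.arbitrary X)))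
    exact ⟨y, hy⟩)
  let A : ℕ → Set X := fun j => ⋃ l ∈ Finset.range j, p ⁻¹' (p '' K (s (y l)))
  have hA : ∀ j, Inv G (A j) := fun j g x => by
    simp only [A, Set.mem_iUnion, Set.mem_preimage, hp.map_smul]
  have h1 : ∀ j μ, Good w od (A j) μ →
      ∃ μ', Good w od (A (j + 1)) μ' ∧ μ' - μ ∈ supp ℤ (A j)ᶜ (m + 1) := fun j μ hμ => by
    have e : A (j + 1) = A j ∪ p ⁻¹' (p '' K (s (y j))) := by
      simp only [A, Finset.range_add_one, Finset.set_biUnion_insert, Set.union_comm]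
    rw [e]
    exact FundAL.step h (hL _) hpr ho hw (hA j)
      (isClosed_biUnion_finset fun z _ => (hL _).cl) hμ
  choose f h2 h3 using h1
  let ν : (j : ℕ) → {μ // Good w od (A j) μ} := fun j =>
    Nat.rec ⟨0, by simp [A], by simp [A]⟩ (fun j μ => ⟨f j μ.1 μ.2, h2 j μ.1 μ.2⟩) j
  refine ⟨A, fun j => (ν j).1, fun j j' e => Set.biUnion_subset_biUnion_left
    (Finset.range_mono e), hA, fun L hL' => ?_, fun j => (ν j).2, fun j => h3 j _ (ν j).2⟩
  obtain ⟨F, hF⟩ := (hL'.image hp.continuous).elim_finite_subcover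
    (fun l => interior (p '' K (s (y l)))) (fun _ => isOpen_interior) fun z _ => by
      simpa only [Set.biUnion_range] using hu.ge (Set.mem_univ z)
  obtain ⟨j, hj⟩ := F.exists_nat_subset_range
  refine ⟨j, fun x hx => ?_⟩
  obtain ⟨l, a1, a2⟩ := Set.mem_iUnion₂.1 (hF ⟨x, hx, rfl⟩)
  exact Set.mem_iUnion₂.2 ⟨l, hj a1, (interior_subset a2 : p x ∈ _)⟩

end Pool.Agent.MP_4f4d9f_gt.Nc

end

section

/-! The duality map is a local chain map. -/

namespace Pool.Agent.MP_4f4d9f_gt.Nc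

open Finsupp Sg Sg.Tup Hy Filter Topology

namespace GamL

variable {X J : Type} [TopologicalSpace X] {i : X → J}

theorem mem_aw (h : AWP i) {k : ℕ} {c : Ch X k} {e : Tup J × SS X}
    (he : e ∈ (aw i (inc k c)).support) :
    ∃ σ ∈ c.support, e.1.deg + e.2.1 = k ∧ rg e.2 ⊆ Set.range σ ∧ In (i '' Set.range σ) e.1 := by
  have := DualZL.map_mem (aw i ∘ₗ inc k) (supported ℤ ℤ {e : Tup J × SS X | ∃ σ ∈ c.support,
    e.1.deg + e.2.1 = k ∧ rg e.2 ⊆ Set.range σ ∧ In (i '' Set.range σ) e.1}) (u := c)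
    fun σ hσ e he => by
      rw [LinearMap.comp_apply, inc_single] at he
      exact ⟨σ, hσ, h.mem ⟨k, σ⟩ e he⟩
  exact this he

theorem lc_off (h : AWP i) {M : Type} [AddCommGroup M] {k : ℕ} {K : Set X} {v : Ch X k}
    (hv : v ∈ supp ℤ Kᶜ k) {f : Tup J × SS X → M} (hf : ∀ e, Disjoint K (rg e.2) → f e = 0) :
    linearCombination ℤ f (aw i (inc k v)) = 0 :=
  DualZL.map_eq (linearCombination ℤ f) 0 fun e he => by
    obtain ⟨σ, h1, -, h2, -⟩ := mem_aw h he
    rw [linearCombination_single, hf e, smul_zero, LinearMap.zero_apply]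
    refine Set.disjoint_right.2 fun y hy => ?_
    obtain ⟨t, rfl⟩ := h2 hy
    exact mem_supp.1 hv σ h1 t

theorem ctr_single (θ : SS X × SS X → ℤ) (x : SS X) (e : Tup J × SS X) :
    ctr θ x (single e 1) = single e.1 ((-1) ^ e.1.deg * θ (x, e.2)) := by
  rw [ctr, linearCombination_single, one_smul]

theorem ctr_mem {θ : SS X × SS X → ℤ} {x : SS X} {ω : Tup J × SS X →₀ ℤ} {P : Set (Tup J)}
    (h : ∀ e ∈ ω.support, θ (x, e.2) ≠ 0 → e.1 ∈ P) : ∀ y ∈ (ctr θ x ω).support, y ∈ P := by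
  have := DualZL.map_mem (ctr θ x) (supported ℤ ℤ P) (u := ω) fun e he => by
    rw [ctr_single]
    by_cases k : θ (x, e.2) = 0
    · rw [k, mul_zero, single_zero]
      exact zero_mem _
    · exact single_mem_supported ℤ _ (h e he k)
  exact fun y hy => this hy

variable {G : Type} [Group G] [MulAction G X] [ContinuousConstSMul G X] {m : ℕ} {w : G →* ℤˣ}
  {od : X → Ch X (m + 1) → ℤ} {θ : SS X × SS X → ℤ} {μ : Sing X (m + 1) → ℤ}

theorem trc (h1 : ThS m w od θ) (h2 : FundN m w od μ) (h3 : AWP i) (x : SS X) (c : Ch X (m + 1))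
    (hc : Trc μ (rg x) c) : gam θ μ i x = ctr θ x (aw i (inc (m + 1) c)) := by
  rw [gam, ← sub_eq_zero, ← map_sub, ← map_sub, ← map_sub]
  exact lc_off h3 ((h2.fin.trc (isCompact_rg x)).sub_mem hc) fun e he => by
    rw [h1.off _ _ he, mul_zero, single_zero]

theorem gdeg (h1 : ThS m w od θ) (h3 : AWP i) (x : SS X) :
    ∀ y ∈ (gam θ μ i x).support, y.deg = x.1 :=
  ctr_mem (P := {y | y.deg = x.1}) fun e he k => by
    obtain ⟨-, -, e1, -⟩ := mem_aw h3 he
    have := h1.deg _ _ k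
    change e.1.deg = x.1
    omega

theorem gtop (h1 : ThS m w od θ) (x : SS X) (hx : m + 1 < x.1) : gam θ μ i x = 0 := by
  rw [← support_eq_empty, Finset.eq_empty_iff_forall_notMem]
  exact ctr_mem (P := ∅) fun e _ k => by
    have := h1.deg _ _ k
    omega

theorem gloc (h2 : FundN m w od μ) (h3 : AWP i) (x : SS X) :
    ∀ y ∈ (gam θ μ i x).support, In (i '' near μ (rg x)) y :=
  ctr_mem (P := {y | In (i '' near μ (rg x)) y}) fun e he _ => by
    obtain ⟨σ, e1, -, -, e2⟩ := mem_aw h3 he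
    have := h2.fin.mem_trn (isCompact_rg x) e1
    exact e2.mono (Set.image_mono fun y hy => Or.inr ⟨σ, this.1, this.2, hy⟩)

theorem geps (h1 : ThS m w od θ) (h2 : FundN m w od μ) (h3 : AWP i) (x : SS X) :
    eps ℤ (gam θ μ i x) = if x.1 = 0 then 1 else 0 := by
  split_ifs with hx
  · have e : ∀ u : Tup J × SS X →₀ ℤ, eps ℤ (ctr θ x u) = linearCombination ℤ
        (fun e : Tup J × SS X => if e.1.deg = 0 then θ (x, e.2) else 0) u := fun u =>
      DualZL.map_eq (eps ℤ ∘ₗ ctr θ x) _ fun e _ => by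
        rw [LinearMap.comp_apply, ctr_single, eps_single, linearCombination_single, one_smul]
        split_ifs with k <;> simp [k]
    rw [gam, e, h3.el (fun b => θ (x, b))]
    have k := h2.fin.trc (isCompact_rg x)
    generalize trn μ (rg x) = c at k
    rw [eq_ptS hx] at k ⊢
    rw [rg_ptS] at k
    rw [h1.one _ c (h2.one _ c k).1, (h2.one _ c k).2]
  · refine DualZL.map_eq (eps ℤ) 0 fun y hy => ?_
    rw [eps_single, if_neg (by rw [gdeg h1 h3 x y hy]; exact hx)]
    rfl

theorem gbd (h1 : ThS m w od θ) (h2 : FundN m w od μ) (h3 : AWP i) (x : SS X) :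
    bdT ℤ (gam θ μ i x) = linearCombination ℤ (gam θ μ i) (dS (single x 1)) := by
  have hc := h2.fin.trc (isCompact_rg x)
  have e1 : linearCombination ℤ (gam θ μ i) (dS (single x 1)) =
      linearCombination ℤ (fun y => ctr θ y) (dS (single x 1))
        (aw i (inc (m + 1) (trn μ (rg x)))) :=
    DualZL.map_eq (linearCombination ℤ (gam θ μ i))
      (LinearMap.applyₗ (aw i (inc (m + 1) (trn μ (rg x)))) ∘ₗ
        linearCombination ℤ fun y => ctr θ y) fun y hy => by
      rw [LinearMap.comp_apply, linearCombination_single, linearCombination_single, one_smul,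
        one_smul, LinearMap.applyₗ_apply_apply]
      exact trc h1 h2 h3 y _ (hc.mono (mem_support_dS hy).2)
  have e0 : linearCombination ℤ
      (fun e : Tup J × SS X => (single e.1 ((-1) ^ x.1 * θ (x, e.2)) : Tup J →₀ ℤ))
      (cbT (aw i (inc (m + 1) (trn μ (rg x))))) = 0 := by
    rw [h3.cb, dS_inc]
    exact lc_off h3 (h2.bd_mem hc) fun e he => by rw [h1.off _ _ he, mul_zero, single_zero]
  rw [e1, gam, ← sub_eq_zero, ← e0]
  refine DualZL.map_eq (bdT ℤ ∘ₗ ctr θ x - linearCombination ℤ (fun y => ctr θ y) (dS (single x 1)))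
    (linearCombination ℤ _ ∘ₗ cbT) fun e he => ?_
  obtain ⟨-, -, hd, -⟩ := mem_aw h3 he
  obtain ⟨a, b⟩ := e
  have e2 : linearCombination ℤ (fun y => ctr θ y) (dS (single x 1)) (single (a, b) 1) =
      linearCombination ℤ (fun y => (single a ((-1) ^ a.deg * θ (y, b)) : Tup J →₀ ℤ))
        (dS (single x 1)) :=
    DualZL.map_eq (LinearMap.applyₗ (single (a, b) 1) ∘ₗ linearCombination ℤ fun y => ctr θ y)
      (linearCombination ℤ _) fun y _ => by
      rw [LinearMap.comp_apply, linearCombination_single, linearCombination_single, one_smul,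
        one_smul, LinearMap.applyₗ_apply_apply, ctr_single]
  have h4 := h1.coc (x, b)
  rw [lc_cb] at h4
  rw [LinearMap.sub_apply, LinearMap.comp_apply, LinearMap.comp_apply, e2, lc_cb, ctr_single]
  dsimp only at hd ⊢
  rw [DualZL.lc_single, DualZL.lc_single2, DualZL.lc_single2, ← smul_single_one a, map_smul,
    eq_neg_of_add_eq_zero_left h4, smul_single, smul_eq_mul, smul_eq_mul, mul_neg, single_neg,
    sub_neg_eq_add]
  by_cases h5 : θ (x, b) = 0
  · simp only [h5, mul_zero]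
  · have := h1.deg _ _ h5
    simp only [show a.deg = x.1 by omega]

end GamL

open GamL in
theorem gam_stmt : GamStmt := by
  intro G X J _ _ _ _ m w od θ μ i h1 h2 h3
  exact ⟨⟨gdeg h1 h3, gbd h1 h2 h3, geps h1 h2 h3⟩, trc h1 h2 h3, gtop h1, gloc h2 h3⟩

end Pool.Agent.MP_4f4d9f_gt.Nc

end

section

/-! Finite cocycles on the graph of the cover pull back to coboundaries with compact support. -/

namespace Pool.Agent.MP_4f4d9f_gt.Nc

open Finsupp Sg Sg.Tup Hy Filter Topology

namespace CoNL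

section Lc

variable {B B' M M' : Type} [AddCommGroup M] [AddCommGroup M']

theorem lc_one (f : B → M) (b : B) : linearCombination ℤ f (single b 1) = f b := by
  rw [linearCombination_single, one_smul]

theorem lc_congr {f g : B → M} {u : B →₀ ℤ} (h : ∀ b ∈ u.support, f b = g b) :
    linearCombination ℤ f u = linearCombination ℤ g u :=
  DualZL.map_eq _ _ fun b hb => by rw [lc_one, lc_one, h b hb]

theorem lc_zero {f : B → M} {u : B →₀ ℤ} (h : ∀ b ∈ u.support, f b = 0) :
    linearCombination ℤ f u = 0 :=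
  DualZL.map_eq _ 0 fun b hb => by rw [lc_one, h b hb, LinearMap.zero_apply]

theorem map_lc (L : M →+ M') (f : B → M) (u : B →₀ ℤ) :
    L (linearCombination ℤ f u) = linearCombination ℤ (fun b => L (f b)) u := by
  induction u using ind1 with
  | h0 => simp
  | hadd x y hx hy => simp only [map_add, hx, hy]
  | hs r x hx => simp only [map_smul, map_zsmul, hx]
  | h1 b => rw [lc_one, lc_one]

theorem lc_lin (f : B' → M) (D : (B →₀ ℤ) →ₗ[ℤ] (B' →₀ ℤ)) (u : B →₀ ℤ) :
    linearCombination ℤ f (D u) =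
      linearCombination ℤ (fun b => linearCombination ℤ f (D (single b 1))) u :=
  DualZL.map_eq (linearCombination ℤ f ∘ₗ D) _ fun b _ => by rw [lc_one, LinearMap.comp_apply]

theorem lc_add (f g : B → M) (u : B →₀ ℤ) :
    linearCombination ℤ (fun b => f b + g b) u =
      linearCombination ℤ f u + linearCombination ℤ g u :=
  DualZL.map_eq _ (linearCombination ℤ f + linearCombination ℤ g) fun b _ => by
    rw [LinearMap.add_apply, lc_one, lc_one, lc_one]

theorem sign_smul [Module (ZMod 2) M] (n : ℕ) (v : M) : (-1 : ℤ) ^ n • v = v := by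
  rw [← Int.cast_smul_eq_zsmul (ZMod 2), Int.cast_pow, Int.cast_neg, Int.cast_one,
    show (-1 : ZMod 2) = 1 from rfl, one_pow, one_smul]

end Lc

section Red

variable {X : Type} [TopologicalSpace X]

/-- Reduction mod 2 of the part of degree `k`. -/
noncomputable def rd (k : ℕ) : (SS X →₀ ℤ) →ₗ[ℤ] (Sing X k →₀ ZMod 2) :=
  linearCombination ℤ (fun σ => single σ 1) ∘ₗ res k

theorem rd_self (k : ℕ) (σ : Sing X k) : rd k (single ⟨k, σ⟩ 1) = single σ 1 := by
  rw [rd, LinearMap.comp_apply, res_single_self, lc_one]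

theorem rd_ne {k : ℕ} {s : SS X} (h : s.1 ≠ k) : rd k (single s 1) = 0 := by
  rw [rd, LinearMap.comp_apply, res_single_ne h, map_zero]

theorem bd_rd (k : ℕ) (c : SS X →₀ ℤ) : bd (ZMod 2) X k (rd (k + 1) c) = rd k (dS c) := by
  rw [rd, rd, LinearMap.comp_apply, LinearMap.comp_apply, res_dS]
  generalize res (k + 1) c = u
  induction u using ind1 with
  | h0 => simp
  | hadd x y hx hy => simp only [map_add, hx, hy]
  | hs r x hx => simp only [map_smul, map_zsmul, hx]
  | h1 σ => simp only [lc_one, bd_single, map_sum, map_zsmul]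

/-- The pairing with a cochain. -/
noncomputable def pa (f : SS X → ZMod 2) (k : ℕ) : (Sing X k →₀ ZMod 2) →ₗ[ZMod 2] ZMod 2 :=
  linearCombination (ZMod 2) fun σ => f ⟨k, σ⟩

theorem pa_single (f : SS X → ZMod 2) (k : ℕ) (σ : Sing X k) : pa f k (single σ 1) = f ⟨k, σ⟩ := by
  rw [pa, linearCombination_single, one_smul]

theorem pa_rd {f : SS X → ZMod 2} {k : ℕ} (h : ∀ s, f s ≠ 0 → s.1 = k) (c : SS X →₀ ℤ) :
    pa f k (rd k c) = linearCombination ℤ f c := by
  induction c using ind1 with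
  | h0 => simp
  | hadd x y hx hy => simp only [map_add, hx, hy]
  | hs r x hx => simp only [map_smul, map_zsmul, hx]
  | h1 s =>
    rw [lc_one]
    by_cases e : s.1 = k
    · obtain ⟨l, σ⟩ := s
      obtain rfl : l = k := e
      rw [rd_self, pa_single]
    · rw [rd_ne e, map_zero]
      exact (not_not.1 fun e' => e (h s e')).symm

/-- The cocycle condition moves the boundary to the other variable. -/
theorem pa_bd {θ : SS X × SS X → ℤ} (hc : ∀ c, linearCombination ℤ θ (cbS (single c 1)) = 0)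
    {s : SS X} {k : ℕ} (hd : ∀ y, θ (s, y) ≠ 0 → y.1 = k) (u : Sing X (k + 1) →₀ ZMod 2) :
    pa (fun y => (θ (s, y) : ZMod 2)) k (bd (ZMod 2) X k u) =
      linearCombination ℤ (fun a => pa (fun y => (θ (a, y) : ZMod 2)) (k + 1) u)
        (dS (single s 1)) := by
  induction u using ind1 with
  | h0 => simpa only [map_zero] using (lc_zero fun _ _ => rfl).symm
  | hadd x y hx hy => simp only [map_add, hx, hy, lc_add]
  | hs r x hx =>
    simp only [map_smul, hx]
    exact map_lc (DistribSMul.toAddMonoidHom (ZMod 2) r) _ _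
  | h1 σ =>
    have h1 := congrArg (Int.castAddHom (ZMod 2)) ((lc_cb θ s ⟨k + 1, σ⟩).symm.trans (hc _))
    rw [map_add, map_zsmul, sign_smul, map_lc, map_lc, map_zero] at h1
    rw [← rd_self, bd_rd, pa_rd fun y hy => hd y fun e => hy (by rw [e, Int.cast_zero])]
    simp only [rd_self, pa_single]
    exact (CharTwo.add_eq_zero.1 h1).symm

end Red

section Main

variable {X I : Type} [TopologicalSpace X] {i : X → I} {ζ : Tup I → ZMod 2} {K : Set X}

/-- Chains away from `K` do not contribute. -/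
theorem far_zero {M : Type} [AddCommGroup M] (hi : AWP i)
    (hK : ∀ a A, ζ a ≠ 0 → In (i '' A) a → (A ∩ K).Nonempty) {F : Tup I × SS X → M}
    (hF : ∀ e, ζ e.1 = 0 → F e = 0) {k : ℕ} {c : Ch X k} (hc : c ∈ supp ℤ Kᶜ k) :
    linearCombination ℤ F (aw i (inc k c)) = 0 := by
  rw [lc_lin]
  refine lc_zero fun s hs => lc_zero fun e he => hF e (not_not.1 fun h => ?_)
  obtain ⟨σ, h1, rfl⟩ := mem_support_inc hs
  obtain ⟨_, ⟨t, rfl⟩, h2⟩ := hK _ _ h (hi.mem _ e he).2.2
  exact mem_supp.1 hc σ h1 t h2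

theorem exists_K {V : I → Set X} {x : I → X} {nb : I → Finset I} (h : Cov V i x nb)
    (hf : {a | ζ a ≠ 0}.Finite) :
    ∃ K, IsCompact K ∧ ∀ a A, ζ a ≠ 0 → In (i '' A) a → (A ∩ K).Nonempty := by
  choose C h1 h2 using h.rc
  refine ⟨⋃ a ∈ {a | ζ a ≠ 0}, C a.hd, hf.isCompact_biUnion fun a _ => h1 _, ?_⟩
  rintro a A ha ⟨⟨y, hy, e⟩, -⟩
  exact ⟨y, hy, Set.mem_biUnion ha (h2 _ (e ▸ h.mem y))⟩

theorem bdT_zero {nb : I → Finset I} {j : ℕ} (h1 : ∀ x, ζ x ≠ 0 → x.deg = j + 1)
    (h2 : ∀ x, Clq nb x → x.deg = j + 2 → linearCombination ℤ ζ (bdT ℤ (single x 1)) = 0)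
    {x : Tup I} (hx : Clq nb x) : linearCombination ℤ ζ (bdT ℤ (single x 1)) = 0 := by
  by_cases e : x.deg = j + 2
  · exact h2 x hx e
  · refine lc_zero fun y hy => not_not.1 fun h => e ?_
    rw [← deg_of_mem_bdT hy, h1 y h]

theorem near_meet {k : ℕ} {μ : Sing X k → ℤ} {A : Set X} (h : (near μ A ∩ K).Nonempty) :
    (A ∩ near μ K).Nonempty := by
  obtain ⟨z, hz | ⟨t, h1, ⟨u, h2, h3⟩, h4⟩, h5⟩ := h
  · exact ⟨z, hz, subset_near h5⟩
  · exact ⟨u, h3, Or.inr ⟨t, h1, ⟨z, h4, h5⟩, h2⟩⟩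

end Main

end CoNL

open CoNL

theorem coN_stmt : CoNStmt := by
  intro G X I _ _ _ _ _ m w od θ μ V i x nb H hθ hμ hi hγ hH hV hs j hj ζ hf h1 h2
  obtain ⟨l, rfl⟩ : ∃ l, m = j + l + 1 := ⟨m - j - 1, by omega⟩
  obtain ⟨K, hK, hK'⟩ := exists_K hV hf
  have hc := hμ.fin.trc hK
  have hsm : ∀ σ ∈ (trn μ K).support, Sm V ⟨_, σ⟩ := fun σ h => hs σ (hμ.fin.mem_trn hK h).1
  generalize trn μ K = c at hc hsm
  have hq : ∀ e ∈ (aw i (inc _ c)).support, Clq nb e.1 := by
    refine DualZL.map_mem (aw i) (supported ℤ ℤ {e | Clq nb e.1}) fun s h e he => ?_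
    obtain ⟨σ, h3, rfl⟩ := mem_support_inc h
    exact hV.clq hs (hsm σ h3) ((hi.mem _ e he).2.2.mono (Set.image_mono subset_near))
  have hA : bd (ZMod 2) X l (linearCombination ℤ
      (fun e : Tup I × SS X => ζ e.1 • rd (l + 1) (single e.2 1)) (aw i (inc _ c))) = 0 := by
    have h3 := far_zero (F := fun e => ζ e.1 • rd l (single e.2 1)) hi hK'
      (fun e he => by rw [he, zero_smul]) (hμ.bd_mem hc)
    rw [← dS_inc, ← hi.cb, lc_lin] at h3
    refine (map_lc (bd (ZMod 2) X l).toAddMonoidHom _ _).trans ((lc_congr fun e he => ?_).trans h3)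
    rw [lc_cb, sign_smul, LinearMap.toAddMonoidHom_coe, map_smul, bd_rd]
    have h4 := map_lc (LinearMap.toSpanSingleton (ZMod 2) _ (rd l (single e.2 1))).toAddMonoidHom
      ζ (bdT ℤ (single e.1 1))
    rw [bdT_zero h1 h2 (hq e he), map_zero] at h4
    have h5 := map_lc (DistribSMul.toAddMonoidHom (Sing X l →₀ ZMod 2) (ζ e.1))
      (fun b => rd l (single b 1)) (dS (single e.2 1))
    have h6 : linearCombination ℤ (fun b => rd l (single b 1)) (dS (single e.2 1)) =
        rd l (dS (single e.2 1)) := DualZL.map_eq _ _ fun b _ => lc_one _ b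
    rw [h6] at h5
    exact h5.trans ((zero_add _).symm.trans (congrArg (· + _) h4))
  obtain ⟨u, hu⟩ := (acyclic_of_contractible (ZMod 2) X).succ l _ hA
  obtain ⟨K', hK1, -, hK2⟩ := exists_compact_supp (mem_supp_univ u)
  refine ⟨fun s => pa (fun y => (θ (s, y) : ZMod 2)) (l + 2) u + linearCombination ℤ ζ (H s),
    K' ∪ near μ K, hK1.union (hμ.fin.isCompact_near hK), fun s h => ?_, fun s h hd => ?_⟩
  · obtain ⟨h3, h4⟩ := Set.disjoint_union_right.1 h
    beta_reduce
    rw [lc_zero fun y hy => not_not.1 fun e =>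
      (near_meet (hK' y _ e (hH.loc s y hy))).ne_empty h4.inter_eq, add_zero]
    refine DualZL.map_eq _ 0 fun σ hσ => ?_
    rw [pa_single, hθ.off _ _ (h3.mono_right ?_), Int.cast_zero, LinearMap.zero_apply]
    rintro _ ⟨t, rfl⟩
    exact mem_supp.1 hK2 σ hσ t
  · have hd' : ∀ y, θ (s, y) ≠ 0 → y.1 = l + 1 := fun y hy => by
      have := hθ.deg s y hy
      omega
    have h3 := congrArg (linearCombination ℤ ζ) (hH.key s)
    rw [map_add, map_add, lc_one, lc_lin ζ (bdT ℤ),
      lc_zero fun y hy => bdT_zero h1 h2 (hV.clq hs h (hH.loc s y hy)), add_zero,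
      show linearCombination ℤ ζ (linearCombination ℤ H (dS (single s 1))) = _ from
        map_lc (linearCombination ℤ ζ).toAddMonoidHom _ _] at h3
    rw [lc_add, ← pa_bd hθ.coc hd', hu]
    refine (CharTwo.add_eq_iff_eq_add.1 h3.symm).trans (congrArg₂ (· + ·) ?_ rfl)
    have h4 := hμ.fin.trc (hK.union (isCompact_rg s))
    have h5 := (h4.mono Set.subset_union_left).sub_mem hc
    rw [hγ.trc s _ (h4.mono Set.subset_union_right)]
    have h6 : ∀ ω, linearCombination ℤ ζ (ctr θ s ω) =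
        linearCombination ℤ (fun e : Tup I × SS X => ζ e.1 * θ (s, e.2)) ω := fun ω => by
      rw [lc_lin]
      refine lc_congr fun e _ => ?_
      rw [ctr, lc_one, linearCombination_single, mul_smul, sign_smul, zsmul_eq_mul, mul_comm]
    have h7 := far_zero (F := fun e => ζ e.1 * θ (s, e.2)) hi hK'
      (fun e he => by rw [he, zero_mul]) h5
    rw [map_sub, map_sub, map_sub, sub_eq_zero] at h7
    rw [h6, h7]
    refine ((map_lc (pa (fun y => (θ (s, y) : ZMod 2)) (l + 1)).toAddMonoidHom _ _).trans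
      (lc_congr fun e _ => ?_)).symm
    rw [LinearMap.toAddMonoidHom_coe, map_smul,
      pa_rd fun y hy => hd' y fun e => hy (by rw [e, Int.cast_zero]), lc_one, smul_eq_mul]

end Pool.Agent.MP_4f4d9f_gt.Nc

end

section

/-! Duality turns vanishing of cohomology with cocompact supports into vanishing of homology. -/

namespace Pool.Agent.MP_4f4d9f_gt.Nc

open Finsupp Sg Sg.Tup Hy Filter Topology

namespace VanL

open Hy.VanL (map_lc lc_congr lc_add lc_smul lc_smul' lc_rel indT TZ oT oT_smul dT dT_of)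

variable {G X N : Type} [Group G] [TopologicalSpace X] [MulAction G X] [ContinuousConstSMul G X]
  [Ring N] (ι : G →* N) {m : ℕ} {w : G →* ℤˣ} {od : X → Ch X (m + 1) → ℤ} {θ : SS X × SS X → ℤ}

/-- The hypotheses on the Thom cocycle. -/
structure Th (m : ℕ) (w : G →* ℤˣ) (od : X → Ch X (m + 1) → ℤ) (θ : SS X × SS X → ℤ) : Prop
    extends ThS m w od θ where
  prp : FundL.Prp G X

variable (T : Th m w od θ)

include T in
theorem fin (x b : SS X) : {g : G | θ (x, g • b) ≠ 0}.Finite := by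
  refine (T.prp _ ((isCompact_rg x).union (isCompact_rg b))).subset fun g hg => ?_
  obtain ⟨y, h1, h2⟩ := Set.not_disjoint_iff.1 fun e => hg (T.off _ _ e)
  rw [rg_smul] at h2
  exact ⟨y, Set.image_mono Set.subset_union_right h2, Or.inl h1⟩

/-- The coefficients of the cochain. -/
noncomputable def kk (x b : SS X) : G →₀ ℤ :=
  ofSupportFinite (fun g => (((w g)⁻¹ : ℤˣ) : ℤ) * θ (x, g • b))
    ((fin T x b).subset fun _ hg => right_ne_zero_of_mul hg)

theorem kk_apply (x b : SS X) (g : G) :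
    kk T x b g = (((w g)⁻¹ : ℤˣ) : ℤ) * θ (x, g • b) := rfl

theorem kk_left (h : G) (x b : SS X) : kk T (h • x) b = (kk T x b).mapDomain (h * ·) := by
  ext g
  obtain ⟨g, rfl⟩ := (Equiv.mulLeft h).surjective g
  have := mapDomain_apply (f := (h * ·)) (mul_right_injective h) (kk T x b) g
  simp only [Equiv.coe_mulLeft] at this ⊢
  rw [this, kk_apply, kk_apply, mul_smul, T.inv, map_mul, mul_inv, Units.val_mul,
    mul_mul_mul_comm, Units.inv_mul, one_mul]

theorem kk_right (h : G) (x b : SS X) :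
    kk T x (h • b) = (w h : ℤ) • (kk T x b).mapDomain (· * h⁻¹) := by
  ext g
  obtain ⟨g, rfl⟩ := (Equiv.mulRight h⁻¹).surjective g
  have := mapDomain_apply (f := (· * h⁻¹)) (mul_left_injective h⁻¹) (kk T x b) g
  simp only [Equiv.coe_mulRight] at this ⊢
  rw [Finsupp.smul_apply, this, kk_apply, kk_apply, mul_smul, inv_smul_smul, map_mul, map_inv,
    mul_inv, inv_inv, Units.val_mul, smul_eq_mul]
  ring

theorem kk_bd (x b : SS X) : linearCombination ℤ (kk T x) (dS (single b 1)) =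
    -(-1 : ℤ) ^ x.1 • linearCombination ℤ (fun a => kk T a b) (dS (single x 1)) := by
  ext g
  have h1 := T.coc (x, g • b)
  rw [lc_cb, ← mapDomain_single (f := (g • ·)), dS_smul, linearCombination_mapDomain] at h1
  have h2 : ((-1 : ℤ) ^ x.1) * (-1) ^ x.1 = 1 := by rw [← mul_pow]; simp
  simp only [linearCombination_apply, Finsupp.sum, Finsupp.smul_apply, Finsupp.finsetSum_apply,
    kk_apply, smul_eq_mul, Function.comp_apply, mul_left_comm _ (((w g)⁻¹ : ℤˣ) : ℤ),
    ← Finset.mul_sum] at h1 ⊢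
  congr 1
  linear_combination ((-1 : ℤ) ^ x.1) * h1 - (∑ a ∈ (dS (single b 1)).support,
    (dS (single b 1)) a * θ (x, g • a)) * h2

/-- The cochain attached to a simplex. -/
noncomputable def ph (x b : SS X) : N := linearCombination ℤ ι (kk T x b)

theorem ph_left (h : G) (x : SS X) : ph ι T (h • x) = ι h • ph ι T x := by
  ext b
  rw [Pi.smul_apply, ph, ph, kk_left, linearCombination_mapDomain, ← lc_smul]
  simp only [Function.comp_def, map_mul, smul_eq_mul]

theorem ph_eqv (x : SS X) : EqS w ι (ph ι T x) := fun h b => by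
  rw [ph, ph, kk_right, map_smul, linearCombination_mapDomain, ← smul_eq_mul, ← lc_smul']
  simp only [Function.comp_def, map_mul, smul_eq_mul]

theorem ph_bd (x b : SS X) : linearCombination ℤ (ph ι T x) (dS (single b 1)) =
    -(-1 : ℤ) ^ x.1 • linearCombination ℤ (ph ι T) (dS (single x 1)) b := by
  have := congrArg (linearCombination ℤ ι) (kk_bd T x b)
  rw [map_smul, apply_linearCombination, apply_linearCombination] at this
  exact this.trans (congrArg _ (map_lc (LinearMap.proj (R := N) (φ := fun _ : SS X => N) b)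
    (ph ι T) _).symm)

theorem ph_zero {x b : SS X} (h : ∀ g : G, θ (x, g • b) = 0) : ph ι T x b = 0 := by
  have : kk T x b = 0 := by
    ext g
    rw [kk_apply, h, mul_zero, Finsupp.zero_apply]
  rw [ph, this, map_zero]

/-- The cochain attached to a chain. -/
noncomputable def Ph (k : ℕ) : Tens ι (permRep G (Sing X k)) →ₗ[N] (SS X → N) :=
  Tens.lift ι (linearCombination ℤ fun s => ph ι T ⟨k, s⟩) fun g c => by
    induction c using Finsupp.induction_linear with
    | zero => simp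
    | add x y hx hy => simp only [map_add, hx, hy, smul_add]
    | single x r =>
      rw [permRep_single, linearCombination_single, linearCombination_single, smul_comm]
      exact congrArg (r • ·) (ph_left ι T g ⟨k, x⟩)

variable {k : ℕ}

theorem Ph_of (c : Ch X k) :
    Ph ι T k (Tens.of ι _ c) = linearCombination ℤ (fun s => ph ι T ⟨k, s⟩) c :=
  Tens.lift_of _ _ _ _

theorem Ph_single (x : Sing X k) : Ph ι T k (Tens.of ι _ (single x 1)) = ph ι T ⟨k, x⟩ := by
  rw [Ph_of, linearCombination_single, one_smul]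

theorem Ph_eqv (z : Tens ι (permRep G (Sing X k))) : EqS w ι (Ph ι T k z) := by
  induction z using indT with
  | h0 => intro h b; simp
  | hadd x y hx hy =>
    intro h b
    simp only [map_add, Pi.add_apply, hx h b, hy h b, add_mul, smul_add]
  | hs a x hx =>
    intro h b
    simp only [map_smul, Pi.smul_apply, hx h b, smul_eq_mul, mul_smul_comm, mul_assoc]
  | h1 x => rw [Ph_single]; exact ph_eqv ι T _

theorem Ph_bd (z : Tens ι (permRep G (Sing X (k + 1)))) (b : SS X) :
    linearCombination ℤ (Ph ι T (k + 1) z) (dS (single b 1)) =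
      -(-1 : ℤ) ^ (k + 1) • Ph ι T k (Tens.map ι (bd ℤ X k) (bd_smul G X k) z) b := by
  induction z using indT with
  | h0 => simp
  | hadd x y hx hy =>
    simp only [map_add, Pi.add_apply, smul_add, ← hx, ← hy]
    exact lc_add _ _ _
  | hs a x hx =>
    rw [map_smul, map_smul, map_smul, Pi.smul_apply, smul_comm, ← hx]
    exact lc_smul a _ _
  | h1 x => rw [Ph_single, Tens.map_of, Ph_of, ph_bd, ← inc_single, dS_inc, lc_inc]

theorem Ph_deg (z : Tens ι (permRep G (Sing X k))) {b : SS X} (h : b.1 + k ≠ m + 1) :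
    Ph ι T k z b = 0 := by
  induction z using indT with
  | h0 => simp
  | hadd x y hx hy => simp only [map_add, Pi.add_apply, hx, hy, add_zero]
  | hs a x hx => simp only [map_smul, Pi.smul_apply, hx, smul_zero]
  | h1 x =>
    rw [Ph_single]
    exact ph_zero ι T fun g => by_contra fun e => h ((add_comm _ _).trans (T.deg _ _ e))

/-- The cap product with `ω`. -/
noncomputable def Gam (ω : Tup G × SS X →₀ ℤ) (ψ : SS X → N) : TZ ι :=
  linearCombination ℤ
    (fun c : Tup G × SS X => (-1 : ℤ) ^ c.1.deg • ψ c.2 • oT ι (single c.1 1)) ω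

omit [MulAction G X] [ContinuousConstSMul G X] in
theorem Gam_add (ω : Tup G × SS X →₀ ℤ) (ψ ψ' : SS X → N) :
    Gam ι ω (ψ + ψ') = Gam ι ω ψ + Gam ι ω ψ' := by
  simp only [Gam, Pi.add_apply, add_smul, smul_add]
  exact lc_add _ _ _

omit [MulAction G X] [ContinuousConstSMul G X] in
theorem Gam_smul (ω : Tup G × SS X →₀ ℤ) (a : N) (ψ : SS X → N) :
    Gam ι ω (a • ψ) = a • Gam ι ω ψ := by
  simp only [Gam, Pi.smul_apply, smul_assoc, ← smul_comm a]
  exact lc_smul _ _ _

omit [MulAction G X] [ContinuousConstSMul G X] in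
theorem Gam_zero (ω : Tup G × SS X →₀ ℤ) : Gam ι ω 0 = 0 := by
  simpa using Gam_smul ι ω 0 0

theorem Gam_ph (ω : Tup G × SS X →₀ ℤ) (x : SS X) : Gam ι ω (ph ι T x) =
    oT ι (av w (fun c : Tup G × SS X => single c.1 ((-1) ^ c.1.deg * θ (x, c.2))) ω) := by
  rw [av, apply_linearCombination, Gam]
  congr 2
  ext ⟨a, b⟩
  have h1 : ∑ᶠ g : G, ((w g)⁻¹ : ℤˣ) • single (g • a) ((-1) ^ (g • a).deg * θ (x, g • b)) =
      linearCombination ℤ (fun g : G => single (g • a) ((-1 : ℤ) ^ a.deg)) (kk T x b) := by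
    rw [linearCombination_apply, Finsupp.sum,
      finsum_eq_sum_of_support_subset (s := (kk T x b).support)]
    · refine Finset.sum_congr rfl fun g _ => ?_
      rw [Units.smul_def, smul_single, smul_single, kk_apply, deg_smul, smul_eq_mul, smul_eq_mul]
      congr 1
      ring
    · intro g hg
      rw [Finset.mem_coe, mem_support_iff, kk_apply]
      exact mul_ne_zero (Units.ne_zero _) fun e => hg (by simp [e])
  refine Eq.trans ?_ (congrArg (oT ι) h1).symm
  rw [apply_linearCombination, ph, smul_comm, ← map_zsmul, smul_single, smul_eq_mul, mul_one]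
  simp only [Function.comp_def, oT_smul]
  exact (lc_smul' _ _ _).symm

theorem Gam_bd {ω : Tup G × SS X →₀ ℤ} {n j l : ℕ} (h1 : ∀ c ∈ ω.support, c.1.deg + c.2.1 = n)
    (h : j + l = n) {ψ ψ' : SS X → N}
    (h2 : cbT ω ∈ Rel w (Tup G × SS X) ⊔ supported ℤ ℤ {c | ψ' c.2 = 0})
    (h3 : EqS w ι ψ') (h4 : ∀ b : SS X, b.1 = j → ψ b = linearCombination ℤ ψ' (dS (single b 1)))
    (h5 : ∀ b : SS X, b.1 + l ≠ n → ψ b = 0) : ∃ u, dT ι u = Gam ι ω ψ := by
  let f : Tup G × SS X → TZ ι := fun c => if c.1.deg = l then ψ' c.2 • oT ι (single c.1 1) else 0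
  have e1 : linearCombination ℤ f (cbT ω) = 0 := by
    obtain ⟨r, hr, v, hv, e⟩ := Submodule.mem_sup.1 h2
    rw [← e, map_add, lc_rel (fun g c => ?_) hr, zero_add]
    · refine DualZL.map_eq _ 0 fun c hc => ?_
      have : ψ' c.2 = 0 := hv hc
      simp [f, this]
    · simp only [f, Prod.smul_fst, Prod.smul_snd, deg_smul]
      split_ifs
      · rw [h3, oT_smul, smul_assoc, smul_smul, mul_assoc, ← map_mul, inv_mul_cancel, map_one,
          mul_one]
      · rw [smul_zero]
  have e2 : ∀ (b : SS X) (u : Tup G →₀ ℤ), linearCombination ℤ (fun a => f (a, b)) u =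
      ψ' b • oT ι (prD ℤ deg l u) := fun b u => by
    induction u using ind1 with
    | h0 => simp
    | hadd x y hx hy => simp only [map_add, hx, hy, smul_add]
    | hs r x hx => simp only [map_zsmul, hx, smul_comm r]
    | h1 a =>
      simp only [linearCombination_single, one_smul, f, prD_single]
      split_ifs
      · rfl
      · simp
  have e3 : ∀ c ∈ ω.support, linearCombination ℤ f (cbT (single c 1)) =
      dT ι (ψ' c.2 • oT ι (prD ℤ deg (l + 1) (single c.1 1))) +
        (-1 : ℤ) ^ c.1.deg • ψ c.2 • oT ι (single c.1 1) := by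
    rintro ⟨a, b⟩ hc
    have h6 : a.deg + b.1 = n := h1 _ hc
    rw [lc_cb, e2, map_smul, dT_of, prD_bdT]
    congr 2
    simp only [f]
    split_ifs with h7
    · rw [h4 b (by omega)]
      exact lc_smul' _ _ _
    · simp [h5 b (by omega), linearCombination_apply]
  have e4 : ∀ u, linearCombination ℤ f (cbT u) =
      linearCombination ℤ (fun c => linearCombination ℤ f (cbT (single c 1))) u := fun u => by
    induction u using ind1 with
    | h0 => simp
    | hadd x y hx hy => simp only [map_add, hx, hy]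
    | hs r x hx => simp only [map_smul, hx]
    | h1 a => rw [linearCombination_single, one_smul]
  refine ⟨-linearCombination ℤ
    (fun c : Tup G × SS X => ψ' c.2 • oT ι (prD ℤ deg (l + 1) (single c.1 1))) ω, ?_⟩
  rw [map_neg, neg_eq_iff_add_eq_zero, ← e1, e4]
  exact (congrArg (· + _) (map_lc _ _ _)).trans ((lc_add _ _ _).symm.trans (lc_congr e3).symm)

variable {μ : Sing X (m + 1) → ℤ} {i : X → G}

theorem Gam_Ph (h : EqT (gam θ μ i)) (P : GamP θ μ i)
    (hE : ∀ (g : G) (c : SS X →₀ ℤ), aw i (c.mapDomain (g • ·)) = (aw i c).mapDomain (g • ·))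
    (z : Tens ι (permRep G (Sing X k))) :
    ∃ K, IsCompact K ∧ (∀ b, Far G K b → Ph ι T k z b = 0) ∧
      ∀ ν, (∀ᶠ F : Finset G in atTop, Trc μ K (avF w F ν)) →
        Gam ι (aw i (inc (m + 1) ν)) (Ph ι T k z) = gT ι h k z := by
  induction z using indT with
  | h0 => exact ⟨∅, isCompact_empty, by simp, fun ν _ => by rw [map_zero, map_zero, Gam_zero]⟩
  | hadd x y hx hy =>
    obtain ⟨K, a1, a2, a3⟩ := hx
    obtain ⟨K', b1, b2, b3⟩ := hy
    refine ⟨K ∪ K', a1.union b1, fun b hb => ?_, fun ν hν => ?_⟩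
    · rw [map_add, Pi.add_apply, a2 b fun g => (hb g).mono_right Set.subset_union_left,
        b2 b fun g => (hb g).mono_right Set.subset_union_right, add_zero]
    · rw [map_add, map_add, Gam_add, a3 ν (hν.mono fun _ e => e.mono Set.subset_union_left),
        b3 ν (hν.mono fun _ e => e.mono Set.subset_union_right)]
  | hs a x hx =>
    obtain ⟨K, a1, a2, a3⟩ := hx
    exact ⟨K, a1, fun b hb => by rw [map_smul, Pi.smul_apply, a2 b hb, smul_zero],
      fun ν hν => by rw [map_smul, map_smul, Gam_smul, a3 ν hν]⟩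
  | h1 x =>
    rw [Ph_single]
    refine ⟨_, isCompact_rg ⟨k, x⟩, fun b hb => ph_zero ι T fun g => T.off _ _ (hb g).symm,
      fun ν hν => ?_⟩
    obtain ⟨F, e1, e2⟩ := (hν.and (ThetaZL.av_avF w (f := fun c : Tup G × SS X =>
      single c.1 ((-1) ^ c.1.deg * θ (⟨k, x⟩, c.2))) (fun c => (fin T ⟨k, x⟩ c.2).subset
        fun g hg e => hg (by simp [e])) (aw i (inc (m + 1) ν)))).exists
    rw [Gam_ph, e2, ← FundL.map_avF w (aw i) hE,
      ← FundL.map_avF w (inc (X := X) (m + 1)) fun g c => inc_smul _ g c,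
      gT, Tens.map_of, linearCombination_single, one_smul, P.trc _ _ e1]
    rfl

theorem cb_mem (A : AWP i)
    (hE : ∀ (g : G) (c : SS X →₀ ℤ), aw i (c.mapDomain (g • ·)) = (aw i c).mapDomain (g • ·))
    {K : Set X} {ν : Ch X (m + 1)} {ψ : SS X → N} (h1 : ∀ s, Far G K s → ψ s = 0)
    (h2 : bd ℤ X m ν ∈ Rel w (Sing X m) ⊔ supp ℤ {y | ∀ g : G, g • y ∉ K} m) :
    cbT (aw i (inc (m + 1) ν)) ∈ Rel w (Tup G × SS X) ⊔ supported ℤ ℤ {c | ψ c.2 = 0} := by
  obtain ⟨r, hr, v, hv, e⟩ := Submodule.mem_sup.1 h2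
  rw [A.cb, dS_inc, ← e, map_add, map_add]
  refine Submodule.add_mem_sup
    (map_rel w (aw i) hE (map_rel w (inc (X := X) m) (fun g c => inc_smul m g c) hr))
    (DualZL.map_mem (aw i ∘ₗ inc m) _ fun s hs c hc => h1 _ fun g => ?_)
  rw [LinearMap.comp_apply, inc_single] at hc
  rw [rg_smul, Set.disjoint_left]
  rintro _ ⟨y, hy, rfl⟩
  obtain ⟨t, rfl⟩ := (A.mem _ c hc).2.1 hy
  exact mem_supp.1 hv s hs t g

end VanL

open Nc.VanL in
theorem vanN_stmt : VanNStmt := by
  intro G X N _ _ _ _ _ ι m w od θ μ i h hp hT hF A hE P k hV z hz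
  have T : Th m w od θ := ⟨hT, hp⟩
  obtain ⟨K, a1, a2, a3⟩ := Gam_Ph ι T h P hE z
  by_cases e : k ≤ m
  · obtain ⟨ψ', K', b1, b2, b3, b4⟩ := hV (m - k) (by omega) _ K a1 (Ph_eqv ι T z) a2
      fun b _ => by rw [Ph_bd, hz]; simp
    obtain ⟨ν, c1, c2⟩ := hF.rep _ (a1.union b1)
    rw [← a3 ν (c2.mono fun _ e => e.mono Set.subset_union_left)]
    refine Gam_bd ι (n := m + 1) (l := k + 1) ?_ (by omega) (cb_mem A hE (fun s hs => b3 s
      fun g => (hs g).mono_right Set.subset_union_right) c1) b2 b4 fun b hb => Ph_deg ι T z hb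
    refine DualZL.map_mem (aw i ∘ₗ inc (m + 1))
      (supported ℤ ℤ {c | c.1.deg + c.2.1 = m + 1}) fun s _ c hc => ?_
    rw [LinearMap.comp_apply, inc_single] at hc
    exact (A.mem _ c hc).1
  · obtain ⟨ν, -, c2⟩ := hF.rep _ a1
    refine ⟨0, ?_⟩
    rw [map_zero, ← a3 ν c2, ← Gam_zero ι (aw i (inc (m + 1) ν))]
    congr 1
    ext b
    exact (Ph_deg ι T z (by omega)).symm

end Pool.Agent.MP_4f4d9f_gt.Nc

end

section

/-! Job `Tf`: a chain map to the bar complex that vanishes in high degrees excludes torsion. -/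

namespace Pool.Agent.MP_4f4d9f_gt.Nc

open Finsupp Sg Sg.Tup Hy Filter Topology

namespace TfL

open TorsFL

variable {G : Type} [Group G]

theorem tf_of {n : ℕ} {L : En G} (hL : TorsFL.Eqv L) (key : ∀ k, n < k → ∀ u,
    prD ℤ deg k u = u → u + bdT ℤ (L u) + L (bdT ℤ u) = 0) (g : G) (hg : IsOfFinOrder g) :
    g = 1 := by
  have : Finite (Subgroup.zpowers g) := finite_zpowers.2 hg
  have : Fintype (Subgroup.zpowers g) := Fintype.ofFinite _
  have hK : ∀ h ∈ Subgroup.zpowers g, ∃ m : ℕ, g ^ m = h := fun h hh =>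
    hg.mem_powers_iff_mem_zpowers.2 hh
  have f1 := fr_df _ g hK
  have f2 := fr_nm _ g hK
  have z1 := nm_df (Subgroup.zpowers g) ⟨g, Subgroup.mem_zpowers g⟩
  have z2 := df_nm (Subgroup.zpowers g) ⟨g, Subgroup.mem_zpowers g⟩
  have all : ∀ j k : ℕ, n < k + j →
      Ex k (df g) (nm (Subgroup.zpowers g)) ∧ Ex k (nm (Subgroup.zpowers g)) (df g) := by
    intro j
    induction j with
    | zero =>
      intro k hk
      exact ⟨TorsFL.top (com_nm _) f1 hL (key k hk), TorsFL.top (com_df _) f2 hL (key k hk)⟩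
    | succ j ih =>
      intro k hk
      obtain ⟨a, b⟩ := ih (k + 1) (by omega)
      exact ⟨step (com_df _) (com_nm _) f1 z1 b, step (com_nm _) (com_df _) f2 z2 a⟩
  obtain ⟨_, ⟨b, -, rfl⟩, hz⟩ := (all (n + 1) 0 (by omega)).2 (df g (single (pt 1) 1))
    (mkZ (by rw [com_df g _ (eqv_pr 0), prD_single, if_pos (deg_pt _)])
      (by rw [com_df g _ eqv_bd, bdT_pt, map_zero])
      (by rw [df_apply, map_sub, tr_apply, eps_smul, sub_self])) (z1 _)
  obtain ⟨c, hc⟩ := f1 (single (pt 1) 1 - bdT ℤ b) (by rw [map_sub, hz, sub_self])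
  have e := congrArg (eps ℤ) hc
  rw [map_sub, eps_bdT, eps_single, if_pos (deg_pt _), sub_zero, nm_apply, map_sum] at e
  simp only [tr_apply, eps_smul, Finset.sum_const, Finset.card_univ, nsmul_eq_mul] at e
  have e2 : Fintype.card (Subgroup.zpowers g) = 1 := by
    exact_mod_cast Int.eq_one_of_mul_eq_one_right (by positivity) e
  have := Fintype.card_le_one_iff_subsingleton.1 e2.le
  exact congrArg Subtype.val
    (Subsingleton.elim (⟨g, Subgroup.mem_zpowers g⟩ : Subgroup.zpowers g) 1)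

theorem tf_of_gam {n : ℕ} {γ : Tup G → (Tup G →₀ ℤ)}
    (h0 : ∀ (g : G) x, γ (g • x) = (γ x).mapDomain (g • ·))
    (h1 : ∀ x, bdT ℤ (γ x) = linearCombination ℤ γ (bdT ℤ (single x 1)))
    (h2 : ∀ x, eps ℤ (γ x) = eps ℤ (single x 1)) (h3 : ∀ x, n < x.deg → γ x = 0) (g : G)
    (hg : IsOfFinOrder g) : g = 1 := by
  refine tf_of (n := n) (eqv_lc fun g => DualZL.HH_eqv g (h0 g)) (fun k hk u hu => ?_) g hg
  refine DualZL.map_eq (LinearMap.id + bdT ℤ ∘ₗ linearCombination ℤ (DualZL.HH γ) +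
    linearCombination ℤ (DualZL.HH γ) ∘ₗ bdT ℤ) 0 (u := u) fun x hx => ?_
  have e : x.deg = k := by
    by_contra e
    rw [← hu, mem_support_iff, prD_apply, if_neg e] at hx
    exact hx rfl
  have := DualZL.HH_key h1 h2 x
  rw [h3 x (e ▸ hk)] at this
  simpa using this.symm

variable {X : Type} [TopologicalSpace X] [MulAction G X] [ContinuousConstSMul G X]

theorem exists_ps (R : IsRes (fun k => permRep G (Sing X k)) (bd ℤ X) (aug ℤ X)) :
    ∃ ψ : (i : ℕ) → (Tup G →₀ ℤ) →ₗ[ℤ] Ch X i, PsiZL.Ps1 ψ := by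
  obtain ⟨u, u1, u2, u3⟩ := (Bar.isRes G).exists_map R
  refine ⟨fun i => u i ∘ₗ Bar.res i, fun i y hy => ?_, fun i c => ?_, fun c => ?_,
    fun i g c => ?_⟩
  · rw [LinearMap.comp_apply, Bar.res_single, dif_neg hy, map_zero]
  · rw [LinearMap.comp_apply, LinearMap.comp_apply, u3]
    congr 1
    apply Bar.inc_inj
    rw [Bar.inc_dB, Bar.inc_res, Bar.inc_res, prD_bdT]
  · rw [LinearMap.comp_apply, u2, Bar.eB_apply, Bar.inc_res]
    induction c using Finsupp.induction_linear with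
    | zero => simp
    | add a b ha hb => simp only [map_add, ha, hb]
    | single x r =>
      rw [prD_single]
      split_ifs with e
      · rfl
      · rw [map_zero, eps_single, if_neg e]
  · rw [LinearMap.comp_apply, LinearMap.comp_apply, Bar.res_smul]
    exact u1 i g _

end TfL

open TfL in
theorem tf_stmt : TfStmt := by
  intro G X _ _ _ _ γ n he R hc ht
  obtain ⟨ψ, H⟩ := exists_ps R
  have a1 : ∀ c, bdT ℤ (linearCombination ℤ γ c) = linearCombination ℤ γ (dS c) := fun c =>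
    DualZL.map_eq (bdT ℤ ∘ₗ linearCombination ℤ γ) (linearCombination ℤ γ ∘ₗ dS) fun x _ => by
      simpa using hc.bd x
  have a2 : ∀ (g : G) c, linearCombination ℤ γ (c.mapDomain (g • ·)) =
      (linearCombination ℤ γ c).mapDomain (g • ·) := fun g c =>
    DualZL.map_eq (linearCombination ℤ γ ∘ₗ lmapDomain ℤ ℤ (g • ·))
      (lmapDomain ℤ ℤ (g • ·) ∘ₗ linearCombination ℤ γ) fun x _ => by simpa using he g x
  refine tf_of_gam (n := n)
    (γ := fun x => linearCombination ℤ γ (inc x.deg (ψ x.deg (single x 1))))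
    (fun g x => ?_) (fun x => ?_) (fun x => ?_) fun x hx => ?_
  · rw [deg_smul, ← a2, ← inc_smul, ← H.eqv, mapDomain_single]
  · rw [a1]
    induction x using Tup.induction with
    | h0 a => rw [deg_pt, dS_inc_zero, bdT_pt, map_zero, map_zero]
    | h1 a x _ =>
      rw [deg_cons, dS_inc, H.bd]
      refine DualZL.map_eq (linearCombination ℤ γ ∘ₗ inc x.deg ∘ₗ ψ x.deg) _ fun y hy => ?_
      have e := deg_of_mem_bdT hy
      rw [deg_cons, add_left_inj] at e
      rw [linearCombination_single, one_smul, e]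
      rfl
  · induction x using Tup.induction with
    | h0 a =>
      rw [← H.aug (single (pt a) 1), deg_pt]
      refine DualZL.map_eq (eps ℤ ∘ₗ linearCombination ℤ γ ∘ₗ inc 0) (aug ℤ X) fun σ _ => ?_
      simp only [LinearMap.comp_apply, inc_single, linearCombination_single, one_smul, hc.eps,
        aug_single, if_true]
    | h1 a x _ =>
      rw [eps_single, if_neg (by simp), deg_cons]
      refine DualZL.map_eq (eps ℤ ∘ₗ linearCombination ℤ γ ∘ₗ inc (x.deg + 1)) 0 fun σ _ => ?_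
      simp [inc_single, hc.eps]
  · refine DualZL.map_eq (linearCombination ℤ γ ∘ₗ inc x.deg) 0 fun σ _ => ?_
    simp [inc_single, ht ⟨x.deg, σ⟩ hx]

end Pool.Agent.MP_4f4d9f_gt.Nc

end

section

/-! Actions that are not cocompact, with coefficients in the von Neumann algebra of an
overgroup. -/

open scoped InnerProductSpace

namespace Pool.Agent.MP_4f4d9f_gt.Nc

open Sg Hy

theorem exists_eqv {G X : Type} [Group G] [MulAction G X]
    (h : ∀ (g : G) (y : X), g • y = y → g = 1) :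
    ∃ i : X → G, ∀ (g : G) y, i (g • y) = g * i y := by
  have h1 : ∀ y : X, ∃ g : G, g • (Quotient.mk (MulAction.orbitRel G X) y).out = y := fun y =>
    (MulAction.orbitRel G X).symm (Quotient.mk_out (s := MulAction.orbitRel G X) y)
  choose i hi using h1
  refine ⟨i, fun g y => ?_⟩
  have e := hi (g • y)
  rw [show Quotient.mk (MulAction.orbitRel G X) (g • y) = Quotient.mk _ y from
    Quotient.sound ⟨g, rfl⟩] at e
  have e2 := h ((g * i y)⁻¹ * i (g • y)) _ (by rw [mul_smul, e, inv_smul_eq_iff, mul_smul, hi])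
  exact (inv_mul_eq_one.1 e2).symm

variable {H G E : Type} [Group H] [Group G] [NormedAddCommGroup E] [InnerProductSpace ℂ E]
  {b : HilbertBasis G ℂ E} {ι : H →* vnAlg b} {j : H →* G}

open FA CohVL in
open ContinuousLinearMap (adjoint) in
theorem goalN_of (hj : Function.Injective j) (hι : ∀ g h, (ι g).1 (b h) = b (j g * h))
    (w : H →* ℤˣ) {I : Type} [MulAction H I] {nb : I → Finset I} (hG : Gr nb H)
    (hgoal : Goal nb H) : GoalN w ι nb := by
  intro E₀
  have : CompleteSpace E := b.repr.toIsometryEquiv.completeSpace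
  obtain ⟨I₀, hI⟩ := hgoal E₀
  refine ⟨I₀, fun F h1 h2 x z hx hz => sub_eq_zero.1 (eq_zero_of_inner fun y => ?_)⟩
  set Φ : I → ℂ := fun a => ⟪b 1, (F a).1 (b y)⟫_ℂ with hΦ
  have e0 : ∀ a c, Φ a - Φ c = ⟪b 1, (F a - F c).1 (b y)⟫_ℂ := fun a c => by
    simp only [hΦ]
    rw [← inner_sub_right]
    rfl
  have e1 : ∀ (g : H) a c, Φ (g • a) - Φ (g • c) =
      ⟪b 1, (F a - F c).1 (((w g : ℤ) : ℂ) • (ι g⁻¹).1 (b y))⟫_ℂ := fun g a c => by
    rw [e0, h1, ← mul_smul_comm, Int.cast_smul_eq_zsmul]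
    rfl
  have e2 : ∀ a c, Summable fun g : H => ‖Φ (g • a) - Φ (g • c)‖ ^ 2 := fun a c => by
    have := (hasSum_basis b (adjoint (F a - F c).1 (b 1))).summable.comp_injective
      (i := fun g : H => j g⁻¹ * y) fun g g' e => inv_injective (hj (mul_right_cancel e))
    refine this.congr fun g => ?_
    rw [e1, hι, map_smul, inner_smul_right, norm_mul, norm_w, one_mul,
      ← ContinuousLinearMap.adjoint_inner_left, norm_inner_symm]
    rfl
  have key : ∀ L : ℂ →ₗ[ℝ] ℝ, (∀ z, |L z| ≤ ‖z‖) → L (Φ x) = L (Φ z) := fun L hL => by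
    have k1 : ∀ x y, y ∈ nb x → x ∉ Orb H E₀ → y ∉ Orb H E₀ → L (Φ x) = L (Φ y) :=
      fun u v a1 a2 a3 => by simp only [hΦ, h2 u v a1 a2 a3]
    refine hI (fun a => L (Φ a)) (LinkBL.dir hG E₀ _ k1 fun a c => ?_) k1 x z hx hz
    refine Summable.of_nonneg_of_le (fun _ => sq_nonneg _) (fun g => ?_) (e2 a c)
    rw [← map_sub, sq_le_sq, abs_norm]
    exact hL _
  rw [← e0, sub_eq_zero]
  exact Complex.ext (key Complex.reLm Complex.abs_re_le_norm)
    (key Complex.imLm Complex.abs_im_le_norm)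

theorem tors_of (h0 : GoalStmt) (hj : Function.Injective j)
    (hι : ∀ g h, (ι g).1 (b h) = b (j g * h)) {m : ℕ} (hm : 2 ≤ m)
    {X : Type} [TopologicalSpace X] [T2Space X] [SigmaCompactSpace X] [ContractibleSpace X]
    [MulAction H X] [ContinuousConstSMul H X] (hc : Charts X m) (hpr : FundL.Prp H X)
    (hf : ∀ (g : H) (y : X), g • y = y → g = 1)
    (hK : ∀ K : Set X, IsCompact K → ∃ y : X, ∀ g : H, g • y ∉ K) {k : ℕ} (hk : m ≤ k + 1)
    {C : ℕ → Type} [∀ k, AddCommGroup (C k)] {ρ : ∀ k, Representation ℤ H (C k)}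
    {d : ∀ k, C (k + 1) →ₗ[ℤ] C k} {ε : C 0 →ₗ[ℤ] ℤ} (R' : IsRes ρ d ε) :
    TorsAt ι ρ d R'.eqv_d k := by
  have : WeaklyLocallyCompactSpace X := ⟨fun x => by
    obtain ⟨i, hi, y, rfl⟩ := hc x
    obtain ⟨K, h1, h2⟩ := exists_compact_mem_nhds y
    exact ⟨_, h1.image i.continuous, hi.isOpenMap.image_mem_nhds h2⟩⟩
  have : ProperlyDiscontinuousSMul H X := ⟨fun {K L} h1 h2 => (hpr _ (h1.union h2)).subset
    fun g hg => hg.mono (Set.inter_subset_inter (Set.image_mono Set.subset_union_left)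
      Set.subset_union_right)⟩
  have : IsCancelSMul H X := isCancelSMul_iff_eq_one_of_smul_eq.2 hf
  have hp := isQuotientCoveringMap_quotientMk_of_properlyDiscontinuousSMul (G := H) (E := X)
  have : SigmaCompactSpace (Quotient (MulAction.orbitRel H X)) := ⟨by
    rw [← hp.surjective.range_eq, ← Set.image_univ]
    exact isSigmaCompact_univ.image hp.continuous⟩
  have e1 := hemi_stmt sph_stmt
  have e2 := chart_stmt e1 prism_stmt
  have R : IsRes (fun k => permRep H (Sing X k)) (bd ℤ X) (aug ℤ X) :=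
    isRes_sing hp (MonoidHom.id H) Function.injective_id
  obtain ⟨od, w, b1, b2⟩ := orient_stmt e2 triv_stmt H X m hc
  obtain ⟨T, hT⟩ := thomBoot_stmt H X m od w hc b2 (thomLoc_stmt e1 e2 X m od b1)
  obtain ⟨l, hl⟩ := exists_eqv hf
  obtain ⟨ψ, hψ⟩ := ez_stmt H X
  obtain ⟨θ, hθ⟩ := th_stmt H X m w od T l ψ hl hT hψ
  obtain ⟨A, ν, a1, a2, a3, a4, a5⟩ :=
    seq_stmt (q_stmt e1 prism_stmt) H X _ _ m od w hp hc b1 b2
  obtain ⟨μ, hμ⟩ := lim_stmt H X m od w A ν hpr b1 a1 a2 a3 a4 a5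
  obtain ⟨I, _, U, x, c1, c2, c3, c4, c5, c6, c7⟩ := covA_stmt H X _ _ m hp hc
  obtain ⟨V, i, nb, hV, hE, hs⟩ := covB_stmt H X I _ μ U x hμ.fin
    (fun g s e => by rw [hμ.inv]; exact mul_ne_zero (Units.ne_zero _) e) c1 c2 c3 c4 c5 c6 c7
  have g1 := gam_stmt H X I m w od θ μ i hθ hμ (aw_stmt X I i)
  obtain ⟨Q, hQ⟩ := h_stmt X I _ μ i _ (aw_stmt X I i) g1.toChM g1.loc
  have co := coN_stmt H X I m w od θ μ V i x nb Q hθ hμ (aw_stmt X I i) g1 hQ hV hs
  have sm := sm_stmt X I (ZMod 2) V hV.op fun y => ⟨_, hV.mem y⟩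
  obtain ⟨d0, d2⟩ := c02_stmt X I V i x nb hV sm (aw_stmt X I i)
  obtain ⟨d3, d1⟩ := c1_stmt X I V i x nb hV sm
  have g2 := gam_stmt H X H m w od θ μ l hθ hμ (aw_stmt X H l)
  have g3 := gamE_stmt H X m w od θ μ l hθ hμ (awE_stmt H X l hl)
  have gr : Gr nb H := ⟨tf_stmt H X _ _ g3 R g2.toChM g2.top, hE.free, hV.refl,
    fun _ _ => hV.symm, fun g _ _ => hV.eqv hE g, d3, d0, d1 (co 0 (by omega)),
    d2 (co 1 (by omega))⟩
  obtain ⟨v0, v1⟩ := linkA_stmt H X I _ ι w V i x nb hV hE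
    (sm_stmt X Unit _ _ (fun _ => isOpen_univ) fun _ => ⟨(), trivial⟩) hK
  refine R'.torsAt ι R (trs_stmt H X _ ι _ g3 R g2.toChM k (vanN_stmt H X _ ι m w od θ μ l g3 hpr
    hθ hμ (aw_stmt X H l) (awE_stmt H X l hl) g2 k fun q hq => ?_))
  obtain rfl | rfl : q = 0 ∨ q = 1 := by omega
  exacts [v0, v1 (goalN_of hj hι w gr (h0 H I nb gr))]

end Pool.Agent.MP_4f4d9f_gt.Nc

end
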