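import Pool.Agent.Mg.F4f4d9fr.G0e173c
import Pool.Agent.MP_4f4d9f_gt.GPDefs

set_option linter.all false

/-! The analytic core of the transfer from a co-amenable subgroup. -/

open scoped InnerProductSpace

namespace Pool.Agent.MP_4f4d9f_gt

namespace FA

open ContinuousLinearMap (adjoint)

variable {G E : Type} [Group G] [NormedAddCommGroup E] [InnerProductSpace ℂ E] [CompleteSpace E]
  (b : HilbertBasis G ℂ E) (H : Subgroup G)

/-- The projection onto the vectors supported on `H`. -/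
noncomputable def PH : E →L[ℂ] E := (Submodule.span ℂ (b '' {g | g ∉ H}))ᗮ.starProjection

lemma PH_mem {g : G} (hg : g ∈ H) : PH b H (b g) = b g := by
  refine Submodule.starProjection_eq_self_iff.2 ?_
  rw [Submodule.mem_orthogonal]
  intro u hu
  induction hu using Submodule.span_induction with
  | mem x hx =>
    obtain ⟨k, hk, rfl⟩ := hx
    rw [inner_basis, if_neg]
    rintro rfl
    exact hk hg
  | zero => simp
  | add x y _ _ hx hy => rw [inner_add_left, hx, hy, add_zero]
  | smul c x _ hx => rw [inner_smul_left, hx, mul_zero]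

lemma PH_not {g : G} (hg : g ∉ H) : PH b H (b g) = 0 :=
  Submodule.starProjection_apply_eq_zero_iff _ |>.2
    (Submodule.le_orthogonal_orthogonal _ (Submodule.subset_span ⟨g, hg, rfl⟩))

lemma adjoint_PH : adjoint (PH b H) = PH b H := isSelfAdjoint_starProjection _

variable {b H} {ι : G →* vnAlg b} (hι : ∀ g h, (ι g).1 (b h) = b (g * h))

include hι

lemma adjoint_iota (g : G) : adjoint (ι g).1 = (ι g⁻¹).1 :=
  adjoint_perm b (Equiv.mulLeft g) (hι g) fun h => by rw [hι]; simp

lemma PH_comm {h : G} (hh : h ∈ H) : PH b H * (ι h).1 = (ι h).1 * PH b H := by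
  refine op_ext_basis b fun g => ?_
  rw [mul_apply_eq_comp, mul_apply_eq_comp, hι]
  by_cases hg : g ∈ H
  · rw [PH_mem b H hg, PH_mem b H (H.mul_mem hh hg), hι]
  · rw [PH_not b H hg, PH_not b H fun h2 => hg ((H.mul_mem_cancel_left hh).1 h2), map_zero]

lemma PH_off {h : G} (hh : h ∉ H) : PH b H * (ι h).1 * PH b H = 0 := by
  refine op_ext_basis b fun g => ?_
  rw [mul_apply_eq_comp, mul_apply_eq_comp]
  by_cases hg : g ∈ H
  · rw [PH_mem b H hg, hι, PH_not b H fun h2 => hh ((H.mul_mem_cancel_right hg).1 h2)]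
    rfl
  · rw [PH_not b H hg, map_zero, map_zero]
    rfl

open Classical in
lemma inner_coset {α β : E} (hα : PH b H α = α) (hβ : PH b H β = β) (q q' : G ⧸ H) :
    ⟪(ι q.out).1 α, (ι q'.out).1 β⟫_ℂ = if q = q' then ⟪α, β⟫_ℂ else 0 := by
  rw [← ContinuousLinearMap.adjoint_inner_right, adjoint_iota hι, ← mul_apply_eq_comp,
    ← Subring.coe_mul, ← map_mul]
  split_ifs with h
  · rw [h, inv_mul_cancel, map_one]
    rfl
  · have h2 : q.out⁻¹ * q'.out ∉ H := fun h2 => h (by
      rw [← QuotientGroup.out_eq' q, ← QuotientGroup.out_eq' q']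
      exact QuotientGroup.eq.2 h2)
    have h3 := congrArg (fun T : E →L[ℂ] E => T β) (PH_off hι h2)
    simp only [mul_apply_eq_comp, hβ] at h3
    rw [← hα, ← adjoint_PH, ContinuousLinearMap.adjoint_inner_left, h3]
    simp

omit hι

open Classical in
/-- The matrix of coset representatives. -/
noncomputable def Ph (ι : G →* vnAlg b) (I : Type) (F : Finset (G ⧸ H)) :
    Matrix (I × F) I (vnAlg b) :=
  Matrix.of fun p i => if p.1 = i then ι p.2.1.out⁻¹ else 0

variable {I J : Type} [Fintype I] [Fintype J]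

omit [CompleteSpace E] in
lemma mul_Ph {K : Type} (F : Finset (G ⧸ H)) (M : Matrix K (I × F) (vnAlg b)) (k : K) (i : I) :
    (M * Ph ι I F) k i = ∑ q : F, M k (i, q) * ι q.1.out⁻¹ := by
  classical
  simp [Matrix.mul_apply, Ph, Fintype.sum_prod_type_right]

omit [CompleteSpace E] in
lemma Ph_mul {K : Type} (F : Finset (G ⧸ H)) (M : Matrix I K (vnAlg b)) (p : I × F) (k : K) :
    (Ph ι I F * M) p k = ι p.2.1.out⁻¹ * M p.1 k := by
  classical
  simp [Matrix.mul_apply, Ph]

include hι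

lemma adj_Ph (F : Finset (G ⧸ H)) (η : HV E (I × F)) (i : I) :
    adjoint (op (Ph ι I F)) η i = ∑ q : F, (ι q.1.out).1 (η (i, q)) := by
  classical
  rw [adj_apply, Fintype.sum_prod_type_right]
  refine Finset.sum_congr rfl fun q _ => ?_
  rw [Finset.sum_eq_single i]
  · simp [Ph, adjoint_iota hι, -map_inv]
  · intro j _ hj
    simp [Ph, hj]
  · simp

lemma transfer (F : Finset (G ⧸ H)) {V : Submodule ℂ (HV E (I × F))} {V' : Submodule ℂ (HV E I)}
    (hV : ∀ ξ ∈ V, diag (I × F) (PH b H) ξ ∈ V) (hV' : Inv b V')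
    (h : ∀ η ∈ V.topologicalClosure, adjoint (op (Ph ι I F)) η ∈ V'.topologicalClosure) :
    gdim (fr b (I × F)) V ≤ F.card * gdim (fr b I) V' := by
  classical
  have key : ∀ p : I × F, ‖V.topologicalClosure.starProjection (fr b (I × F) p)‖ ≤
      ‖V'.topologicalClosure.starProjection (fr b I p.1)‖ := by
    rintro ⟨i, q⟩
    refine norm_proj_le (norm_nonneg _) ?_
    have h0 := starProjection_comm hV (by
      rw [ContinuousLinearMap.star_eq_adjoint, adjoint_diag, adjoint_PH]
      exact hV) (fr b (I × F) (i, q))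
    rw [fr, diag_sgl, PH_mem b H H.one_mem, ← fr] at h0
    have hm := h _ (V.topologicalClosure.starProjection_apply_mem (fr b (I × F) (i, q)))
    obtain ⟨η, hη⟩ : ∃ η, η = V.topologicalClosure.starProjection (fr b (I × F) (i, q)) :=
      ⟨_, rfl⟩
    rw [← hη] at h0 hm ⊢
    have h1 : ∀ p, PH b H (η p) = η p := fun p => by
      rw [← diag_apply, ← h0]
    have h2 : ⟪η, fr b (I × F) (i, q)⟫_ℂ =
        ⟪adjoint (op (Ph ι I F)) η, rep b I q.1.out⁻¹ (fr b I i)⟫_ℂ := by
      rw [rep_fr, inv_inv, fr, inner_sgl', inner_sgl', adj_Ph hι, sum_inner, ← mul_one q.1.out,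
        ← hι]
      simp only [inner_coset hι (h1 _) (PH_mem b H H.one_mem), ← Subtype.ext_iff]
      simp
    have h3 : ‖adjoint (op (Ph ι I F)) η‖ = ‖η‖ := by
      have : ⟪adjoint (op (Ph ι I F)) η, adjoint (op (Ph ι I F)) η⟫_ℂ = ⟪η, η⟫_ℂ := by
        rw [PiLp.inner_apply, PiLp.inner_apply, Fintype.sum_prod_type]
        refine Finset.sum_congr rfl fun j _ => ?_
        rw [adj_Ph hι, sum_inner]
        refine Finset.sum_congr rfl fun r _ => ?_
        simp only [inner_sum, inner_coset hι (h1 _) (h1 _), ← Subtype.ext_iff]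
        simp
      rw [inner_self_eq_norm_sq_to_K, inner_self_eq_norm_sq_to_K] at this
      exact (sq_eq_sq₀ (norm_nonneg _) (norm_nonneg _)).1 (by exact_mod_cast this)
    rw [h2, ← h3, ← norm_rep b q.1.out⁻¹ (V'.topologicalClosure.starProjection _), ← hV'.proj]
    exact inner_le_proj hm _
  calc gdim (fr b (I × F)) V
      ≤ ∑ p : I × F, ‖V'.topologicalClosure.starProjection (fr b I p.1)‖ ^ 2 :=
        Finset.sum_le_sum fun p _ => pow_le_pow_left₀ (norm_nonneg _) (key p) 2
    _ = F.card * gdim (fr b I) V' := by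
        simp [Fintype.sum_prod_type_right, gdim]

omit hι

lemma proj_le_of_inj {U : Submodule ℂ (HV E J)} {U' : Submodule ℂ (HV E I)} {f : I → J}
    (hf : Function.Injective f)
    (h : ∀ ζ ∈ U.topologicalClosure, ∃ ξ ∈ U'.topologicalClosure, ∀ i, ξ i = ζ (f i)) (i : I) :
    ‖U.topologicalClosure.starProjection (fr b J (f i))‖ ^ 2 ≤
      ‖U'.topologicalClosure.starProjection (fr b I i)‖ ^ 2 := by
  classical
  refine pow_le_pow_left₀ (norm_nonneg _) (norm_proj_le (norm_nonneg _) ?_) 2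
  obtain ⟨ξ, hξ, e⟩ := h _ (U.topologicalClosure.starProjection_apply_mem (fr b J (f i)))
  obtain ⟨ζ, hζ⟩ : ∃ ζ, ζ = U.topologicalClosure.starProjection (fr b J (f i)) := ⟨_, rfl⟩
  rw [← hζ] at e ⊢
  have h1 : ‖ξ‖ ≤ ‖ζ‖ := by
    refine (sq_le_sq₀ (norm_nonneg _) (norm_nonneg _)).1 ?_
    rw [PiLp.norm_sq_eq_of_L2, PiLp.norm_sq_eq_of_L2]
    simp only [e]
    rw [← Finset.sum_image (s := Finset.univ) (g := f) (f := fun j => ‖ζ j‖ ^ 2) hf.injOn]
    exact Finset.sum_le_univ_sum_of_nonneg fun _ => sq_nonneg _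
  have h2 : ⟪ζ, fr b J (f i)⟫_ℂ = ⟪ξ, fr b I i⟫_ℂ := by
    rw [fr, fr, inner_sgl', inner_sgl', e]
  rw [h2]
  exact (inner_le_proj hξ _).trans (mul_le_mul_of_nonneg_left h1 (norm_nonneg _))

lemma gdim_nonneg (e : I → HV E J) (U : Submodule ℂ (HV E J)) : 0 ≤ gdim e U :=
  Finset.sum_nonneg fun _ _ => sq_nonneg _

lemma adj_comm {M : Matrix I J (vnAlg b)} (h : ∀ i j, PH b H * (M i j).1 = (M i j).1 * PH b H)
    (ξ : HV E I) :
    adjoint (op M) (diag I (PH b H) ξ) = diag J (PH b H) (adjoint (op M) ξ) := by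
  have e : op M ∘L diag J (PH b H) = diag I (PH b H) ∘L op M := by
    ext1 η
    exact diag_opC h η
  have e2 := congrArg adjoint e
  rw [ContinuousLinearMap.adjoint_comp, ContinuousLinearMap.adjoint_comp, adjoint_diag,
    adjoint_diag, adjoint_PH] at e2
  exact (congrArg (fun T : HV E I →L[ℂ] HV E J => T ξ) e2).symm

/-- The algebraic step: the ranks of `A` and `Y` add up inside the kernel of the adjoint of `D`. -/
lemma rank_add {R L P : Type} [Fintype R] [Fintype L] [Fintype P] (A : Matrix R R (vnAlg b))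
    (X : Matrix R L (vnAlg b)) (hX : A * X = X) (Y : Matrix P L (vnAlg b))
    (D : Matrix L J (vnAlg b)) (hXD : X * D = 0) (hYD : Y * D = 0)
    (h : ∀ (K₁ : Matrix (R ⊕ P) R (vnAlg b)) (K₂ : Matrix (R ⊕ P) P (vnAlg b)),
      K₁ * X + K₂ * Y = 0 → K₁ * A = 0) :
    gdim (fr b R) (adjoint (op A)).range + gdim (fr b L) (adjoint (op Y)).range ≤
      gdim (fr b L) (adjoint (op D)).ker := by
  obtain ⟨K, hK, hK2⟩ := exists_ker (Matrix.fromRows X Y)
  rw [← Matrix.fromCols_toCols K, Matrix.fromCols_mul_fromRows] at hK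
  have h1 := h _ _ hK
  have h2 : K.toCols₂ * Y = 0 := by
    rwa [← hX, ← Matrix.mul_assoc, h1, Matrix.zero_mul, zero_add] at hK
  have h3 : gdim (fr b (R ⊕ P)) (adjoint (op (Matrix.fromRows X Y))).ker ≤
      gdim (fr b R) (adjoint (op A)).ker + gdim (fr b P) (adjoint (op Y)).ker := by
    rw [gdim, Fintype.sum_sum_type]
    refine add_le_add (Finset.sum_le_sum fun i _ => proj_le_of_inj Sum.inl_injective ?_ i)
      (Finset.sum_le_sum fun i _ => proj_le_of_inj Sum.inr_injective ?_ i)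
    · intro ζ hζ
      rw [ker_closure] at hζ ⊢
      refine ⟨adjoint (op K.toCols₁) ζ, ?_, fun i => ?_⟩
      · change adjoint (op A) _ = 0
        rw [← adj_mul, h1, adj_zero]
      · conv_rhs => rw [← hK2 ζ hζ]
        rw [adj_apply, adj_apply]
        rfl
    · intro ζ hζ
      rw [ker_closure] at hζ ⊢
      refine ⟨adjoint (op K.toCols₂) ζ, ?_, fun i => ?_⟩
      · change adjoint (op Y) _ = 0
        rw [← adj_mul, h2, adj_zero]
      · conv_rhs => rw [← hK2 ζ hζ]
        rw [adj_apply, adj_apply]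
        rfl
  have h4 : gdim (fr b L) (adjoint (op (Matrix.fromRows X Y))).range ≤
      gdim (fr b L) (adjoint (op D)).ker := by
    refine gdim_mono _ (le_trans ?_ (Submodule.le_topologicalClosure _))
    rintro _ ⟨ζ, rfl⟩
    change adjoint (op D) (adjoint (op (Matrix.fromRows X Y)) ζ) = 0
    rw [← adj_mul, Matrix.fromRows_mul, hXD, hYD, Matrix.fromRows_zero, adj_zero]
  have e1 := rn A
  have e2 := rn Y
  have e3 := rn (Matrix.fromRows X Y)
  rw [Fintype.card_sum, Nat.cast_add] at e3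
  linarith

end FA

open FA ContinuousLinearMap

open Classical in
theorem re_trace_nonpos {G E : Type} [Group G] [NormedAddCommGroup E] [InnerProductSpace ℂ E]
    {b : HilbertBasis G ℂ E} {ι : G →* vnAlg b} (hι : ∀ g h, (ι g).1 (b h) = b (g * h))
    {H : Subgroup G} (hH : Folner G (G ⧸ H))
    {R L T J : Type} [Fintype R] [Fintype L] [Fintype T] [Fintype J]
    (κ : T → J) (γ : T → G) (d : L → T → ℤ)
    (A : Matrix R R (vnAlg b)) (hA : A * A = A) (X : Matrix R L (vnAlg b)) (hX : A * X = X)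
    (hD : ∀ i j, ∑ l, ∑ t with κ t = j, d l t • (X i l * ι (γ t)) = 0)
    (hst : ∀ (F : Finset (G ⧸ H)) (y : L → F → vnAlg b),
      (∀ (j : J) (q' : G ⧸ H), ∑ l, ∑ q : F, ∑ t with κ t = j ∧ (γ t)⁻¹ • q.1 = q',
        d l t • (y l q * ι (q.1.out⁻¹ * γ t * q'.out)) = 0) →
      ∀ u : R → vnAlg b, (∀ l, ∑ i, u i * X i l + ∑ q : F, y l q * ι q.1.out⁻¹ = 0) →
        Matrix.vecMul u A = 0) :
    (∑ i, ⟪b 1, (A i i).1 (b 1)⟫_ℂ).re ≤ 0 := by
  have : CompleteSpace E := b.repr.toIsometryEquiv.completeSpace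
  have htr : (∑ i, ⟪b 1, (A i i).1 (b 1)⟫_ℂ).re = gdim (fr b R) (adjoint (op A)).range := by
    rw [← re_trace_idem (gframe b R) _ (eq_op A).adj fun ξ => by rw [← adj_mul, hA],
      Complex.re_sum, Complex.re_sum]
    refine Finset.sum_congr rfl fun i _ => ?_
    rw [adjoint_inner_right, fr, inner_sgl', op_sgl, ← inner_conj_symm, Complex.conj_re]
  rw [htr]
  refine le_of_forall_pos_le_add fun δ hδ => ?_
  obtain ⟨ε, hε, hεδ⟩ : ∃ ε : ℝ, 0 < ε ∧ Fintype.card T * ε * Fintype.card L ≤ δ := by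
    refine ⟨δ / (Fintype.card T * Fintype.card L + 1), by positivity, ?_⟩
    rw [mul_right_comm, ← mul_div_assoc, div_le_iff₀ (by positivity)]
    nlinarith
  obtain ⟨F, hF, hFε⟩ := hH (Finset.univ.image fun t => (γ t)⁻¹) ε hε
  obtain ⟨F', hF', hc⟩ : ∃ F' : Finset (G ⧸ H), (∀ t, ∀ q ∈ F, (γ t)⁻¹ • q ∈ F') ∧
      (F'.card : ℝ) ≤ F.card + Fintype.card T * (ε * F.card) := by
    refine ⟨F ∪ Finset.univ.biUnion fun t =>
      (F.filter fun q => (γ t)⁻¹ • q ∉ F).image fun q => (γ t)⁻¹ • q, fun t q hq => ?_, ?_⟩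
    · by_cases h : (γ t)⁻¹ • q ∈ F
      · exact Finset.mem_union_left _ h
      · exact Finset.mem_union_right _ (Finset.mem_biUnion.2 ⟨t, Finset.mem_univ _,
          Finset.mem_image.2 ⟨q, Finset.mem_filter.2 ⟨hq, h⟩, rfl⟩⟩)
    · refine (Nat.cast_le.2 ((Finset.card_union_le _ _).trans
        (Nat.add_le_add_left Finset.card_biUnion_le _))).trans ?_
      rw [Nat.cast_add, Nat.cast_sum, ← nsmul_eq_mul, ← Finset.card_univ, ← Finset.sum_const]
      refine add_le_add_right (Finset.sum_le_sum fun t _ => ?_) _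
      refine (Nat.cast_le.2 Finset.card_image_le).trans ?_
      have := hFε _ (Finset.mem_image.2 ⟨t, Finset.mem_univ _, rfl⟩)
      rwa [← Set.ncard_coe_finset, Finset.coe_filter]
  obtain ⟨D, hDe⟩ : ∃ D : Matrix L J (vnAlg b), ∀ l j,
      D l j = ∑ t with κ t = j, d l t • ι (γ t) := ⟨Matrix.of _, fun _ _ => rfl⟩
  obtain ⟨Dh, hDh⟩ : ∃ Dh : Matrix (L × F) (J × F') (vnAlg b), ∀ p p',
      Dh p p' = ∑ t with κ t = p'.1 ∧ (γ t)⁻¹ • p.2.1 = p'.2.1,
        d p.1 t • ι (p.2.1.out⁻¹ * γ t * p'.2.1.out) := ⟨Matrix.of _, fun _ _ => rfl⟩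
  have hXD : X * D = 0 := by
    ext1 i j
    rw [Matrix.zero_apply, ← hD i j, Matrix.mul_apply]
    simp only [hDe, Finset.mul_sum, mul_smul_comm]
  have hPD : Dh * Ph ι J F' = Ph ι L F * D := by
    ext1 p j
    rw [mul_Ph, Ph_mul, hDe, Finset.mul_sum]
    simp only [hDh, Finset.sum_mul, smul_mul_assoc, mul_smul_comm, ← map_mul,
      mul_inv_cancel_right]
    simp only [Finset.sum_filter]
    rw [Finset.sum_comm]
    refine Finset.sum_congr rfl fun t _ => ?_
    rw [Finset.sum_eq_single ⟨_, hF' t _ p.2.2⟩]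
    · simp
    · intro q _ hq
      rw [if_neg (fun h : _ ∧ _ => hq (Subtype.ext h.2.symm))]
    · simp
  have hcomm : ∀ p p', PH b H * (Dh p p').1 = (Dh p p').1 * PH b H := by
    intro p p'
    rw [hDh, AddSubmonoidClass.coe_finsetSum, Finset.mul_sum, Finset.sum_mul]
    refine Finset.sum_congr rfl fun t ht => ?_
    have h1 : p.2.1.out⁻¹ * γ t * p'.2.1.out ∈ H := by
      rw [mul_assoc, ← QuotientGroup.eq, QuotientGroup.out_eq', ← smul_eq_mul,
        ← MulAction.Quotient.smul_mk, QuotientGroup.out_eq', ← (Finset.mem_filter.1 ht).2.2,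
        smul_inv_smul]
    rw [AddSubgroupClass.coe_zsmul, mul_smul_comm, smul_mul_assoc, PH_comm hι h1]
  obtain ⟨U, hU, hU2⟩ := exists_ker Dh
  have hYD : U * Ph ι L F * D = 0 := by
    rw [Matrix.mul_assoc, ← hPD, ← Matrix.mul_assoc, hU, Matrix.zero_mul]
  have h1 := rank_add A X hX (U * Ph ι L F) D hXD hYD fun K₁ K₂ hK => by
    ext1 r i
    have h0 : K₂ * U * Dh = 0 := by rw [Matrix.mul_assoc, hU, Matrix.mul_zero]
    refine congrFun (hst F (fun l q => (K₂ * U) r (l, q)) (fun j q' => ?_) (K₁ r) fun l => ?_) i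
    · by_cases hq : q' ∈ F'
      · have := congrFun (congrFun h0 r) (j, ⟨q', hq⟩)
        rw [Matrix.mul_apply, Fintype.sum_prod_type] at this
        simpa only [hDh, Finset.mul_sum, mul_smul_comm, Matrix.zero_apply] using this
      · refine Finset.sum_eq_zero fun l _ => Finset.sum_eq_zero fun q _ =>
          Finset.sum_eq_zero fun t ht => absurd ?_ hq
        rw [← (Finset.mem_filter.1 ht).2.2]
        exact hF' t _ q.2
    · have := congrFun (congrFun hK r) l
      rwa [Matrix.add_apply, ← Matrix.mul_assoc, mul_Ph, Matrix.mul_apply] at this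
  have h2 : gdim (fr b (L × F)) (adjoint (op Dh)).ker ≤
      F.card * gdim (fr b L) (adjoint (op (U * Ph ι L F))).range := by
    refine transfer hι F (fun ξ hξ => ?_) (eq_op _).adj.inv_range fun η hη => ?_
    · change adjoint (op Dh) _ = 0
      rw [adj_comm hcomm, show adjoint (op Dh) ξ = 0 from hξ, map_zero]
    · rw [ker_closure] at hη
      exact Submodule.le_topologicalClosure _ ⟨η, by
        change adjoint (op (U * Ph ι L F)) η = _
        rw [adj_mul, hU2 η hη]⟩
  have h3 : gdim (fr b (J × F')) (adjoint (op Dh)).range ≤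
      F'.card * gdim (fr b J) (adjoint (op D)).range := by
    refine transfer hι F' ?_ (eq_op _).adj.inv_range fun η hη => ?_
    · rintro _ ⟨ξ, rfl⟩
      exact ⟨_, adj_comm hcomm ξ⟩
    · refine map_mem_closure (adjoint (op (Ph ι J F'))).continuous hη ?_
      rintro _ ⟨ξ, rfl⟩
      exact ⟨adjoint (op (Ph ι L F)) ξ, by
        change adjoint (op D) _ = adjoint (op (Ph ι J F')) (adjoint (op Dh) ξ)
        rw [← adj_mul, ← adj_mul, hPD]⟩
  have e1 := rn D
  have e2 := rn Dh
  rw [Fintype.card_prod, Fintype.card_coe, Nat.cast_mul] at e2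
  have p1 := gdim_nonneg (fr b L) (adjoint (op D)).ker
  have p2 := gdim_nonneg (fr b J) (adjoint (op D)).range
  have hF0 : (0 : ℝ) < F.card := Nat.cast_pos.2 hF.card_pos
  generalize gdim (fr b R) (adjoint (op A)).range = a at *
  generalize gdim (fr b L) (adjoint (op (U * Ph ι L F))).range = y at *
  generalize gdim (fr b L) (adjoint (op D)).ker = w at *
  generalize gdim (fr b J) (adjoint (op D)).range = r at *
  have h4 : (F'.card : ℝ) * r ≤ (F.card + Fintype.card T * (ε * F.card)) * r :=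
    mul_le_mul_of_nonneg_right hc p2
  have h5 : Fintype.card T * ε * r ≤ Fintype.card T * ε * Fintype.card L :=
    mul_le_mul_of_nonneg_left (by linarith) (by positivity)
  have h6 : (F.card : ℝ) * a ≤ F.card * (Fintype.card T * ε * r) := by
    have h7 := mul_le_mul_of_nonneg_left h1 hF0.le
    have h8 : (Fintype.card L : ℝ) * F.card = F.card * w + F.card * r := by rw [← e1]; ring
    nlinarith
  have := le_of_mul_le_mul_left h6 hF0
  linarith

end Pool.Agent.MP_4f4d9f_gt
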