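import Pool.Agent.Mg.F4f4d9fr.G1afe66

set_option linter.all false

section

/-! Graphs with regions: the states of the accessibility argument and the statement `RKStmt`. -/

namespace Pool.Agent.MP_4f4d9f_gt.Nc

open Hy

variable {I : Type} (nb : I → Finset I)

/-- Paths along edges that satisfy `p`. -/
def Pa (p : I → I → Prop) : I → I → Prop := Relation.ReflTransGen fun a b => b ∈ nb a ∧ p a b

/-- `S` separates `x` and `y`. -/
def Sp (S : Set I) (x y : I) : Prop := ¬ (x ∈ S ↔ y ∈ S)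

/-- The class of `x`. -/
def cls (r : I → I → Prop) (x : I) : Set I := {y | r x y}

/-- The edges inside classes that cross `S`. -/
def Dl (r : I → I → Prop) (S : Set I) : Set (I × I) := {e | e.2 ∈ nb e.1 ∧ r e.1 e.2 ∧ Sp S e.1 e.2}

/-- The class of `x` has at most one end. -/
def OneE (r : I → I → Prop) (x : I) : Prop :=
  ∀ S ⊆ cls r x, (Dl nb r S).Finite → S.Finite ∨ (cls r x \ S).Finite

variable (G : Type) [Group G] [MulAction G I]

/-- Inside finitely many orbits. -/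
def Coc (X : Set I) : Prop := ∃ T : Finset I, X ⊆ Orb G T

/-- A graph with an invariant partition into connected classes, cocompact walls. -/
structure St (r : I → I → Prop) (U : Finset I) : Prop where
  gr : Gr nb G
  eq : Equivalence r
  inv : ∀ (g : G) x y, r x y → r (g • x) (g • y)
  cl : ∀ x y, r x y → Pa nb r x y
  wall : ∀ x y, y ∈ nb x → ¬ r x y → x ∈ Orb G U
  une : ∀ x, ∃ u ∈ Orb G U, r x u
  ucn : ∀ x y, x ∈ Orb G U → y ∈ Orb G U → r x y →
    Pa nb (fun a b => r a b ∧ a ∈ Orb G U ∧ b ∈ Orb G U) x y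

/-- Every class is a point, or is not cocompact and has one end. -/
def One (r : I → I → Prop) : Prop :=
  ∀ x, (∀ y, r x y → y = x) ∨ (¬ Coc G (cls r x) ∧ OneE nb r x)

/-- The relative theorem: a saturated Dirichlet function has one value on all regions. -/
def RKStmt : Prop :=
  ∀ (G I : Type) [Group G] [MulAction G I] (nb : I → Finset I) (r : I → I → Prop) (U : Finset I),
    St nb G r U → One nb G r → ∀ f : I → ℝ, DirI nb f → (∀ x y, r x y → f x = f y) →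
      ∀ x y, ¬ Coc G (cls r x) → ¬ Coc G (cls r y) → f x = f y

variable {nb G}

theorem Pa.refl (p : I → I → Prop) (a : I) : Pa nb p a a := Relation.ReflTransGen.refl

theorem Pa.single {p : I → I → Prop} {a b : I} (h : b ∈ nb a) (hp : p a b) : Pa nb p a b :=
  Relation.ReflTransGen.single ⟨h, hp⟩

theorem Pa.trans {p : I → I → Prop} {a b c : I} (h : Pa nb p a b) (h' : Pa nb p b c) :
    Pa nb p a c := Relation.ReflTransGen.trans h h'

theorem Pa.tail {p : I → I → Prop} {a b c : I} (h : Pa nb p a b) (h' : c ∈ nb b) (hp : p b c) :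
    Pa nb p a c := Relation.ReflTransGen.tail h ⟨h', hp⟩

theorem Pa.ind {p : I → I → Prop} {a : I} {P : I → Prop} (h0 : P a)
    (hs : ∀ b c, Pa nb p a b → c ∈ nb b → p b c → P b → P c) {b : I} (h : Pa nb p a b) : P b := by
  induction h with
  | refl => exact h0
  | tail h1 h2 ih => exact hs _ _ h1 h2.1 h2.2 ih

theorem Pa.map {nb' : I → Finset I} {p q : I → I → Prop} (φ : I → I)
    (hφ : ∀ a b, b ∈ nb a → p a b → φ b ∈ nb' (φ a) ∧ q (φ a) (φ b)) {a b : I}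
    (h : Pa nb p a b) : Pa nb' q (φ a) (φ b) :=
  Pa.ind (P := fun b => Pa nb' q (φ a) (φ b)) (Pa.refl _ _)
    (fun b c _ h1 h2 ih => ih.tail (hφ b c h1 h2).1 (hφ b c h1 h2).2) h

theorem Pa.mono {nb' : I → Finset I} {p q : I → I → Prop}
    (hφ : ∀ a b, b ∈ nb a → p a b → b ∈ nb' a ∧ q a b) {a b : I} (h : Pa nb p a b) :
    Pa nb' q a b := h.map id hφ

theorem Pa.symm (hs : ∀ a b, b ∈ nb a → a ∈ nb b) {p : I → I → Prop} (hp : ∀ a b, p a b → p b a)
    {a b : I} (h : Pa nb p a b) : Pa nb p b a :=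
  Pa.ind (P := fun b => Pa nb p b a) (Pa.refl _ _)
    (fun b c _ h1 h2 ih => (Pa.single (hs b c h1) (hp b c h2)).trans ih) h

/-- A path between separated points has a crossing edge. -/
theorem Pa.cross {p : I → I → Prop} {a b : I} (h : Pa nb p a b) {S : Set I} (ha : a ∈ S)
    (hb : b ∉ S) : ∃ u v, Pa nb p a u ∧ v ∈ nb u ∧ p u v ∧ u ∈ S ∧ v ∉ S := by
  by_contra hc
  refine hb (Pa.ind (P := fun b => b ∈ S) ha (fun b c h0 h1 h2 ih => ?_) h)
  by_contra h3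
  exact hc ⟨b, c, h0, h1, h2, ih, h3⟩

/-- A path lies in a finite set all of whose points it reaches. -/
theorem Pa.finite {p : I → I → Prop} {a b : I} (h : Pa nb p a b) :
    ∃ K : Finset I, a ∈ K ∧ b ∈ K ∧ ∀ c ∈ K, Pa nb (fun u v => p u v ∧ u ∈ K ∧ v ∈ K) a c := by
  classical
  refine Pa.ind (P := fun b => ∃ K : Finset I, a ∈ K ∧ b ∈ K ∧
    ∀ c ∈ K, Pa nb (fun u v => p u v ∧ u ∈ K ∧ v ∈ K) a c) ?_ ?_ h
  · exact ⟨{a}, by simp, by simp, fun c hc => by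
      rw [Finset.mem_singleton.1 hc]; exact Pa.refl _ _⟩
  · rintro b c - h1 h2 ⟨K, ha, hb, hK⟩
    have hm : ∀ d ∈ K, Pa nb (fun u v => p u v ∧ u ∈ insert c K ∧ v ∈ insert c K) a d :=
      fun d hd => (hK d hd).mono fun u v h3 h4 =>
        ⟨h3, h4.1, Finset.mem_insert_of_mem h4.2.1, Finset.mem_insert_of_mem h4.2.2⟩
    refine ⟨insert c K, Finset.mem_insert_of_mem ha, Finset.mem_insert_self _ _, fun d hd => ?_⟩
    rcases Finset.mem_insert.1 hd with rfl | hd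
    · exact (hm b hb).tail h1 ⟨h2, Finset.mem_insert_of_mem hb, Finset.mem_insert_self _ _⟩
    · exact hm d hd

theorem Sp.symm {S : Set I} {x y : I} (h : Sp S x y) : Sp S y x := fun h' => h h'.symm

theorem Sp.trans {S : Set I} {x z : I} (h : Sp S x z) (y : I) : Sp S x y ∨ Sp S y z := by
  unfold Sp at *; tauto

theorem mem_orb {T : Finset I} {a : I} (h : a ∈ T) : a ∈ Orb G T := ⟨1, a, h, one_smul _ _⟩

theorem orb_smul {T : Finset I} {a : I} (g : G) (h : a ∈ Orb G T) : g • a ∈ Orb G T := by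
  obtain ⟨k, t, ht, rfl⟩ := h
  exact ⟨g * k, t, ht, mul_smul _ _ _⟩

theorem orb_smul_iff {T : Finset I} {a : I} (g : G) : g • a ∈ Orb G T ↔ a ∈ Orb G T :=
  ⟨fun h => by simpa using orb_smul g⁻¹ h, orb_smul g⟩

theorem orb_mono {T T' : Finset I} (h : ∀ t ∈ T, t ∈ Orb G T') : Orb G T ⊆ Orb G T' := by
  rintro _ ⟨k, t, ht, rfl⟩
  exact orb_smul k (h t ht)

theorem Coc.mono {X Y : Set I} (h : Coc G Y) (hX : X ⊆ Y) : Coc G X :=
  h.imp fun _ hT => hX.trans hT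

theorem Coc.of_finite {X : Set I} (h : X.Finite) : Coc G X :=
  ⟨h.toFinset, fun _ hx => mem_orb (h.mem_toFinset.2 hx)⟩

theorem Gr.eqv_iff (h : Gr nb G) (g : G) (a b : I) : g • b ∈ nb (g • a) ↔ b ∈ nb a :=
  ⟨fun h1 => by simpa using h.eqv g⁻¹ _ _ h1, h.eqv g a b⟩

theorem Gr.pa (h : Gr nb G) (a b : I) : Pa nb (fun _ _ => True) a b := by
  have h1 := h.conn a b
  induction h1 with
  | refl => exact Pa.refl _ _
  | tail _ h2 ih => exact ih.tail h2 trivial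

theorem Gr.inj (h : Gr nb G) (a : I) : Function.Injective fun g : G => g • a := fun g k e => by
  have h1 : (k⁻¹ * g) • a = a := by
    rw [mul_smul, show g • a = k • a from e, inv_smul_smul]
  exact (inv_mul_eq_one.1 (h.free _ _ h1)).symm

/-- The action is proper. -/
theorem Gr.fin_smul (h : Gr nb G) (a : I) {Z : Set I} (hZ : Z.Finite) :
    {g : G | g • a ∈ Z}.Finite := hZ.preimage (h.inj a).injOn

/-- An element that permutes a nonempty finite set of group elements is trivial. -/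
theorem Gr.eq_one (h : Gr nb G) {F : Set G} (hF : F.Finite) (hne : F.Nonempty) {k : G}
    (hk : ∀ g ∈ F, k * g ∈ F) : k = 1 := by
  obtain ⟨g, hg⟩ := hne
  refine h.tf k ?_
  by_contra hk'
  have h1 : ∀ n : ℕ, k ^ n * g ∈ F := fun n => by
    induction n with
    | zero => simpa using hg
    | succ n ih => rw [pow_succ', mul_assoc]; exact hk _ ih
  exact Set.infinite_of_injective_forall_mem (f := fun n : ℕ => k ^ n * g)
    (fun m n e => injective_pow_iff_not_isOfFinOrder.2 hk' (mul_right_cancel e)) h1 hF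

/-- One end, for sets. -/
theorem Gr.one (h : Gr nb G) {Z : Set I} (hZ : {e : I × I | e.2 ∈ nb e.1 ∧ Sp Z e.1 e.2}.Finite) :
    Z.Finite ∨ Zᶜ.Finite := by
  classical
  have h1 := h.c1 (fun x => if x ∈ Z then 1 else 0) (hZ.subset fun e he => ⟨he.1, fun h2 => he.2 (by
    simp only [d0]
    by_cases h3 : e.1 ∈ Z
    · rw [if_pos h3, if_pos (h2.1 h3)]; decide
    · rw [if_neg h3, if_neg fun h4 => h3 (h2.2 h4)]; decide)⟩)
  refine h1.imp (fun h2 => h2.subset fun x hx => ?_) fun h2 => h2.subset fun x hx => ?_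
  · simp only [Set.mem_setOf_eq, if_pos hx]; decide
  · simp only [Set.mem_setOf_eq, if_neg hx]; decide

variable {r : I → I → Prop} {U : Finset I}

theorem St.inv_iff (h : St nb G r U) (g : G) (x y : I) : r (g • x) (g • y) ↔ r x y :=
  ⟨fun h1 => by simpa using h.inv g⁻¹ _ _ h1, h.inv g x y⟩

theorem St.cls_eq (h : St nb G r U) {x y : I} (hxy : r x y) : cls r x = cls r y :=
  Set.ext fun _ => ⟨fun h1 => h.eq.trans (h.eq.symm hxy) h1, fun h1 => h.eq.trans hxy h1⟩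

theorem St.coc_smul (h : St nb G r U) (g : G) {x : I} (hx : Coc G (cls r x)) :
    Coc G (cls r (g • x)) :=
  hx.imp fun _ hT y hy => (orb_smul_iff g⁻¹).1 (hT (by
    have h1 := h.inv g⁻¹ _ _ hy
    rwa [inv_smul_smul] at h1))

/-- Only finitely many translates of a pair in one class are separated. -/
theorem St.sep_fin (h : St nb G r U) {S : Set I} (hS : (Dl nb r S).Finite) {a b : I}
    (hab : r a b) : {g : G | Sp S (g • a) (g • b)}.Finite := by
  refine Pa.ind (P := fun b => {g : G | Sp S (g • a) (g • b)}.Finite) ?_ ?_ (h.cl a b hab)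
  · exact Set.finite_empty.subset fun g hg => hg Iff.rfl
  · intro b c _ h1 h2 ih
    refine (ih.union (h.gr.fin_smul b (hS.image Prod.fst))).subset fun g hg => ?_
    refine (Sp.trans hg (g • b)).imp id fun h3 => ?_
    exact ⟨(g • b, g • c), ⟨h.gr.eqv g _ _ h1, h.inv g _ _ h2, h3⟩, rfl⟩

theorem St.dl_compl (h : St nb G r U) {x : I} {S : Set I} (hS : S ⊆ cls r x) :
    Dl nb r (cls r x \ S) = Dl nb r S := by
  ext e
  refine and_congr_right fun _ => and_congr_right fun h2 => ?_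
  have h3 : e.1 ∈ cls r x ↔ e.2 ∈ cls r x :=
    ⟨fun h4 => h.eq.trans h4 h2, fun h4 => h.eq.trans h4 (h.eq.symm h2)⟩
  have h4 := @hS e.1
  have h5 := @hS e.2
  unfold Sp
  simp only [Set.mem_diff]
  tauto

/-- An infinite and coinfinite set with finite inner boundary has infinitely many wall points. -/
theorem St.wall_inf (h : St nb G r U) {Z : Set I} (hZ : (Dl nb r Z).Finite) (h1 : Z.Infinite)
    (h2 : Zᶜ.Infinite) : (Z ∩ Orb G U).Infinite := by
  intro h3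
  have h4 : {e : I × I | e.1 ∈ Z ∩ Orb G U ∧ e.2 ∈ nb e.1}.Finite :=
    (h3.biUnion fun a _ => ((nb a).finite_toSet.image fun b => (a, b))).subset fun e he =>
      Set.mem_biUnion he.1 ⟨e.2, he.2, rfl⟩
  refine (h.gr.one ((hZ.union (h4.union (h4.image Prod.swap))).subset fun e he => ?_)).elim h1 h2
  by_cases h5 : r e.1 e.2
  · exact Or.inl ⟨he.1, h5, he.2⟩
  · by_cases h6 : e.1 ∈ Z
    · exact Or.inr (Or.inl ⟨⟨h6, h.wall _ _ he.1 h5⟩, he.1⟩)
    · have h7 : e.2 ∈ Z := by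
        by_contra h7
        exact he.2 ⟨fun h8 => (h6 h8).elim, fun h8 => (h7 h8).elim⟩
      have h8 := h.gr.symm _ _ he.1
      exact Or.inr (Or.inr ⟨e.swap, ⟨⟨h7, h.wall _ _ h8 fun h9 => h5 (h.eq.symm h9)⟩, h8⟩,
        Prod.swap_swap e⟩)

end Pool.Agent.MP_4f4d9f_gt.Nc

end

section

/-! Accessibility of the regions and the reduction of `GoalStmt` to `RKStmt`: statements. -/

namespace Pool.Agent.MP_4f4d9f_gt.Nc

open Hy Filter Topology

variable {I : Type} (nb : I → Finset I)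

/-- A cut of the class of `x` with two infinite sides. -/
def Cut (r : I → I → Prop) (x : I) (A : Set I) : Prop :=
  A ⊆ cls r x ∧ (Dl nb r A).Finite ∧ A.Infinite ∧ (cls r x \ A).Infinite

open Classical in
/-- The difference of the values of an indicator function. -/
noncomputable def sg (S : Set I) (y z : I) : ℝ := (if y ∈ S then 1 else 0) - if z ∈ S then 1 else 0

/-- The classes off `V` are the components of the complement. -/
def rV (V : Set I) (y z : I) : Prop := y = z ∨ Pa nb (fun a b => a ∉ V ∧ b ∉ V) y z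

/-- Points off `V` with a neighbour in `V`. -/
def Wl (V : Set I) (y : I) : Prop := y ∉ V ∧ ∃ a ∈ nb y, a ∈ V

variable {G : Type} [Group G] [MulAction G I]

/-- The other side. -/
def st (i : G × Bool) : G × Bool := (i.1, !i.2)

/-- Translation of indices. -/
def tl (g : G) (i : G × Bool) : G × Bool := (g * i.1, i.2)

/-- A nested orbit of cuts of the class of `x`, with both sides. -/
structure NF (r : I → I → Prop) (x : I) (D : G × Bool → Set I) : Prop where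
  sub : ∀ i, ∀ y ∈ D i, r (i.1 • x) y
  cpl : ∀ i y, r (i.1 • x) y → (y ∈ D (st i) ↔ y ∉ D i)
  inf : ∀ i, (D i).Infinite
  fin : ∀ i, (Dl nb r (D i)).Finite
  eqv : ∀ g i y, g • y ∈ D (tl g i) ↔ y ∈ D i
  nest : ∀ i j, r (i.1 • x) (j.1 • x) →
    D i ⊆ D j ∨ D i ⊆ D (st j) ∨ D (st i) ⊆ D j ∨ D (st i) ⊆ D (st j)

/-- The refined relation: its classes are the atoms. -/
def Rf (r : I → I → Prop) (D : G × Bool → Set I) (y z : I) : Prop :=
  r y z ∧ ∀ i, y ∈ D i ↔ z ∈ D i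

/-- `D i` is maximal among the sets in the class of `y` that miss `y`. -/
def Mx (r : I → I → Prop) (x : I) (D : G × Bool → Set I) (y : I) (i : G × Bool) : Prop :=
  r (i.1 • x) y ∧ y ∉ D i ∧ ∀ j, y ∉ D j → D i ⊆ D j → j = i

/-- `D i` is a maximal proper subset of `D (st j)`. -/
def Sb (D : G × Bool → Set I) (i j : G × Bool) : Prop :=
  D i ⊆ D (st j) ∧ i ≠ st j ∧ ∀ k, D i ⊆ D k → D k ⊆ D (st j) → k = i ∨ k = st j

/-- Order facts about a nested orbit. -/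
structure NG (r : I → I → Prop) (x : I) (D : G × Bool → Set I) : Prop where
  inj : ∀ i j, D i ⊆ D j → D j ⊆ D i → i = j
  sep : ∀ y z, r y z → {i | y ∈ D i ∧ z ∉ D i}.Finite
  far : ∀ (g : G) (Z : Set I), Z ⊆ cls r (g • x) → (Dl nb r Z).Finite → Z.Infinite →
    Zᶜ.Infinite → ∃ i, ∃ a ∈ Z, ∃ b ∈ Z, a ∈ D i ∧ b ∉ D i
  m1 : ∀ y z i, r y z → z ∈ D i → y ∉ D i → ∃ j, Mx r x D y j ∧ D i ⊆ D j
  m2 : ∀ y z i j, Mx r x D y i → Mx r x D y j → z ∈ D i → z ∈ D j → i = j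
  m3 : ∀ y z i, Mx r x D y i → Mx r x D z i → Rf r D y z
  m4 : ∀ y z i, Rf r D y z → Mx r x D y i → Mx r x D z i
  m5 : ∀ (g : G) y i, Mx r x D y i → Mx r x D (g • y) (tl g i)
  m6 : ∀ y i j, Mx r x D y j → Sb D i j → Mx r x D y i
  s1 : ∀ i j, D i ⊆ D (st j) → i ≠ st j → ∃ k, Sb D k j ∧ D i ⊆ D k
  s2 : ∀ i j k y, Sb D i j → D k ⊆ D (st j) → k ≠ st j → y ∈ D k → y ∈ D i → D k ⊆ D i

/-- A retraction of the classes of `r` onto the classes of `r'`. -/
structure Rt (nb' : I → Finset I) (r r' : I → I → Prop) (ρ : I → I → I) (W : Set I) : Prop where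
  r1 : ∀ x y, r x y → r' x (ρ x y)
  r2 : ∀ x y, r' x y → ρ x y = y
  r4 : ∀ x y z, r x y → r' y z → ¬ r' x y → ρ x y = ρ x z
  r5 : ∀ x y z, r x y → r y z → z ∈ nb y → ρ x z ∈ nb' (ρ x y)
  r6 : ∀ x a b, a ≠ b →
    {e : I × I | e.2 ∈ nb e.1 ∧ r x e.1 ∧ r e.1 e.2 ∧ ρ x e.1 = a ∧ ρ x e.2 = b}.Finite
  r7 : ∀ x y, r x y → ¬ r' x y → ρ x y ∈ W
  r8 : ∀ y z, z ∈ nb y → r y z → ¬ r' y z → y ∈ W

/-- Finite cuts of the classes of `r'` extend to the classes of `r`. -/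
def Ext (r : I → I → Prop) (nb' : I → Finset I) (r' : I → I → Prop) : Prop :=
  ∀ y, ∀ S ⊆ cls r' y, (Dl nb' r' S).Finite → ∃ S₁ ⊆ cls r y, (Dl nb r S₁).Finite ∧
    (∀ z, r' y z → (z ∈ S₁ ↔ z ∈ S)) ∧ ∀ z w, r' z w → ¬ r' y z → (z ∈ S₁ ↔ w ∈ S₁)

variable (G)

/-- The translates of the cuts `B j` are independent. -/
def Inj {J : Type} [Fintype J] (r : I → I → Prop) (B : J → Set I) : Prop :=
  ∀ c : J → G → ℝ, (∀ j, Tendsto (c j) cofinite (𝓝 0)) →
    (∀ y z, r y z → ∑ j, ∑ᶠ g, c j g * sg (B j) (g⁻¹ • y) (g⁻¹ • z) = 0) → ∀ j g, c j g = 0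

/-- A class that was split off has infinite stabiliser. -/
def Stb (r r' : I → I → Prop) : Prop :=
  ∀ y, (∀ z, r y z → r' y z) ∨ {h : G | r' (h • y) y}.Infinite

/-- The state `nb', r'` is obtained from `nb, r` by cutting along the orbits of the `B j`. -/
structure Rel {J : Type} [Fintype J] (r : I → I → Prop) (nb' : I → Finset I) (r' : I → I → Prop)
    (B : J → Set I) : Prop where
  ref : ∀ y z, r' y z → r y z
  dir : ∀ f, DirI nb f → DirI nb' f
  sub : ∀ j, ∃ x, B j ⊆ cls r x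
  fin : ∀ j, (Dl nb r (B j)).Finite
  sat : ∀ j y z, r' y z → (y ∈ B j ↔ z ∈ B j)
  inj : Inj G r B
  stb : Stb G r r'
  ext : Ext nb r nb' r'

/-- `nb'` is `nb` with finitely many orbits of new edges that make the translates of `K`
complete. -/
structure ClqA (nb' : I → Finset I) (K K' : Finset I) : Prop where
  gr : Gr nb' G
  le : ∀ y z, z ∈ nb y → z ∈ nb' y
  cq : ∀ (g : G), ∀ a ∈ K, ∀ b ∈ K, g • b ∈ nb' (g • a)
  new : ∀ y z, z ∈ nb' y → z ∈ nb y ∨ y ∈ Orb G K'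
  dir : ∀ f, DirI nb f → DirI nb' f

/-- Saturated Dirichlet functions have one value on all classes that are not cocompact. -/
def GoalS (r : I → I → Prop) : Prop :=
  ∀ f : I → ℝ, DirI nb f → (∀ x y, r x y → f x = f y) →
    ∀ x y, ¬ Coc G (cls r x) → ¬ Coc G (cls r y) → f x = f y

/-- Finitely many tight cuts of bounded size separate two points. -/
def TWStmt : Prop :=
  ∀ (I : Type) (nb : I → Finset I) (r : I → I → Prop), (∀ a b, b ∈ nb a → a ∈ nb b) →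
    Equivalence r → (∀ x y, r x y → Pa nb r x y) → ∀ (k : ℕ) (x y : I), r x y →
    {A : Set I | A ⊆ cls r x ∧ x ∈ A ∧ y ∉ A ∧ (Dl nb r A).Finite ∧ (Dl nb r A).ncard ≤ k ∧
      (∀ a ∈ A, Pa nb (fun u v => u ∈ A ∧ v ∈ A) x a) ∧
      ∀ a ∈ cls r x \ A, Pa nb (fun u v => u ∈ cls r x \ A ∧ v ∈ cls r x \ A) y a}.Finite

/-- Up to translation there are finitely many cuts of least size. -/
def MinAStmt : Prop :=
  TWStmt → ∀ (G I : Type) [Group G] [MulAction G I] (nb : I → Finset I) (r : I → I → Prop)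
    (U : Finset I), St nb G r U → ∀ k : ℕ, ∃ 𝒪 : Set (Set I), 𝒪.Finite ∧ ∀ x A, Cut nb r x A →
      (Dl nb r A).ncard ≤ k → (∀ A', Cut nb r x A' → k ≤ (Dl nb r A').ncard) →
      ∃ g : G, {y | g • y ∈ A} ∈ 𝒪

/-- A cut that is nested with its translates. -/
def MinStmt : Prop :=
  TWStmt → MinAStmt → ∀ (G I : Type) [Group G] [MulAction G I] (nb : I → Finset I)
    (r : I → I → Prop) (U : Finset I), St nb G r U → ∀ x₀ A₀, ¬ Coc G (cls r x₀) →
      Cut nb r x₀ A₀ → ∃ (x : I) (D : G × Bool → Set I), ¬ Coc G (cls r x) ∧ NF nb r x D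

def NfAStmt : Prop :=
  ∀ (G I : Type) [Group G] [MulAction G I] (nb : I → Finset I) (r : I → I → Prop) (U : Finset I)
    (x : I) (D : G × Bool → Set I), St nb G r U → NF nb r x D → NG nb r x D

def NfBStmt : Prop :=
  ∀ (G I : Type) [Group G] [MulAction G I] (nb : I → Finset I) (r : I → I → Prop) (U : Finset I)
    (x : I) (D : G × Bool → Set I), St nb G r U → NF nb r x D → NG nb r x D →
      ¬ Coc G (cls r x) → ∀ j, {i | Sb D i j}.Infinite

def NfCStmt : Prop :=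
  ∀ (G I : Type) [Group G] [MulAction G I] (nb : I → Finset I) (r : I → I → Prop) (U : Finset I)
    (x : I) (D : G × Bool → Set I), St nb G r U → NF nb r x D → NG nb r x D →
      (∀ j, {i | Sb D i j}.Infinite) →
      Stb G r (Rf r D) ∧ Inj G r fun _ : Unit => D (1, true)

def RhoStmt : Prop :=
  ∀ (G I : Type) [Group G] [MulAction G I] (nb : I → Finset I) (r : I → I → Prop) (U : Finset I)
    (x : I) (D : G × Bool → Set I), St nb G r U → NF nb r x D → NG nb r x D →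
      ∃ (K : Finset I) (ρ : I → I → I), ∀ nb' K', ClqA nb G nb' K K' →
        Rt nb nb' r (Rf r D) ρ (Orb G K)

def ClqStmt : Prop :=
  ∀ (G I : Type) [Group G] [MulAction G I] (nb : I → Finset I), Gr nb G → ∀ K : Finset I,
    ∃ nb' K', ClqA nb G nb' K K'

def StRStmt : Prop :=
  ∀ (G I : Type) [Group G] [MulAction G I] (nb nb' : I → Finset I) (r r' : I → I → Prop)
    (U K K' : Finset I) (ρ : I → I → I), St nb G r U → ClqA nb G nb' K K' → Equivalence r' →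
      (∀ (g : G) x y, r' x y → r' (g • x) (g • y)) → (∀ x y, r' x y → r x y) →
      Rt nb nb' r r' ρ (Orb G K) → (∃ U', St nb' G r' U') ∧ Ext nb r nb' r'

def CmpStmt : Prop :=
  ∀ (G I J J' : Type) [Group G] [MulAction G I] [Fintype J] [Fintype J']
    (nb nb' nb'' : I → Finset I) (r r' r'' : I → I → Prop) (U U' U'' : Finset I) (B : J → Set I)
    (B' : J' → Set I), St nb G r U → St nb' G r' U' → St nb'' G r'' U'' → Rel nb G r nb' r' B →
      Rel nb' G r' nb'' r'' B' → ∃ B'' : J ⊕ J' → Set I, Rel nb G r nb'' r'' B''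

/-- An injective matrix on `ℓ²` has at most as many columns as rows. -/
def VNStmt : Prop :=
  ∀ (G J E : Type) [Group G] [Fintype J] [Fintype E] (a : J → E → G → ℝ),
    (∀ j e, (Function.support (a j e)).Finite) →
    (∀ c : J → G → ℝ, (∀ j, Summable fun g => c j g ^ 2) →
      (∀ e g, ∑ j, ∑ᶠ h, c j h * a j e (h⁻¹ * g) = 0) → ∀ j g, c j g = 0) →
    Fintype.card J ≤ Fintype.card E

def BndStmt : Prop :=
  VNStmt → ∀ (G I : Type) [Group G] [MulAction G I] (nb : I → Finset I) (r : I → I → Prop)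
    (U : Finset I), St nb G r U → ∃ m : ℕ, ∀ (J : Type) [Fintype J] (nb' : I → Finset I)
      (r' : I → I → Prop) (U' : Finset I) (B : J → Set I), St nb' G r' U' → Rel nb G r nb' r' B →
        Fintype.card J ≤ m

/-- Cocompact classes are broken into points. -/
def BrkStmt : Prop :=
  RKStmt → ∀ (G I : Type) [Group G] [MulAction G I] (nb nb' : I → Finset I)
    (r r' : I → I → Prop) (U U' : Finset I), St nb G r U → St nb' G r' U' →
      (∀ y z, r' y z → r y z) → (∀ f, DirI nb f → DirI nb' f) →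
      (∀ x, ¬ Coc G (cls r' x) → OneE nb' r' x) → GoalS nb G r

/-- Accessibility. -/
def ACStmt : Prop :=
  ∀ (G I : Type) [Group G] [MulAction G I] (nb : I → Finset I) (r : I → I → Prop)
    (U : Finset I), St nb G r U → GoalS nb G r

/-- The inner wall of a complementary component of a connected set is connected. -/
def WallStmt : Prop :=
  ∀ (G I : Type) [Group G] [MulAction G I] (nb : I → Finset I), Gr nb G → ∀ V : Set I,
    (∀ a ∈ V, ∀ b ∈ V, Pa nb (fun u v => u ∈ V ∧ v ∈ V) a b) →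
    (∀ y z, Wl nb V y → Wl nb V z → rV nb V y z →
      Pa nb (fun u v => Wl nb V u ∧ Wl nb V v) y z) ∧
    (V.Nonempty → (∀ (g : G), ∀ a ∈ V, g • a ∈ V) → Coc G V → ∃ U, St nb G (rV nb V) U)

/-- A cocompact set with one orbit of components and no cocompact complementary component. -/
def PrepStmt : Prop :=
  ∀ (G I : Type) [Group G] [MulAction G I] (nb : I → Finset I), Gr nb G → ∀ (E₀ : Finset I)
    (x₀ : I), ∃ V : Set I, Orb G E₀ ⊆ V ∧ x₀ ∈ V ∧ (∀ (g : G), ∀ a ∈ V, g • a ∈ V) ∧ Coc G V ∧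
      (∀ y ∈ V, ∃ g : G, Pa nb (fun u v => u ∈ V ∧ v ∈ V) x₀ (g • y)) ∧
      ∀ y ∉ V, ¬ Coc G (cls (rV nb V) y)

def GLStmt : Prop := WallStmt → PrepStmt → ACStmt → GoalStmt

variable {nb G}

@[simp] theorem st_st (i : G × Bool) : st (st i) = i := by simp [st]

@[simp] theorem st_fst (i : G × Bool) : (st i).1 = i.1 := rfl

theorem st_ne (i : G × Bool) : st i ≠ i := fun h => by
  have h1 := congrArg Prod.snd h
  simp [st] at h1

theorem st_inj {i j : G × Bool} (h : st i = st j) : i = j := by rw [← st_st i, h, st_st]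

@[simp] theorem tl_fst (g : G) (i : G × Bool) : (tl g i).1 = g * i.1 := rfl

@[simp] theorem tl_snd (g : G) (i : G × Bool) : (tl g i).2 = i.2 := rfl

theorem tl_st (g : G) (i : G × Bool) : tl g (st i) = st (tl g i) := rfl

theorem tl_tl (g h : G) (i : G × Bool) : tl g (tl h i) = tl (g * h) i := by simp [tl, mul_assoc]

@[simp] theorem tl_one (i : G × Bool) : tl 1 i = i := by simp [tl]

theorem sg_eq_zero {S : Set I} {y z : I} : sg S y z = 0 ↔ (y ∈ S ↔ z ∈ S) := by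
  unfold sg
  by_cases h1 : y ∈ S <;> by_cases h2 : z ∈ S <;> simp [h1, h2]

theorem sg_add (S : Set I) (y z w : I) : sg S y z + sg S z w = sg S y w := by
  unfold sg; ring

theorem abs_sg_le (S : Set I) (y z : I) : |sg S y z| ≤ 1 := by
  unfold sg
  by_cases h1 : y ∈ S <;> by_cases h2 : z ∈ S <;> simp [h1, h2]

variable {r : I → I → Prop} {U : Finset I}

/-- The sums in `Inj` are finite. -/
theorem St.sg_fin (h : St nb G r U) {S : Set I} (hS : (Dl nb r S).Finite) {y z : I} (hyz : r y z)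
    (c : G → ℝ) : (Function.support fun g => c g * sg S (g⁻¹ • y) (g⁻¹ • z)).Finite :=
  ((h.sep_fin hS hyz).preimage inv_injective.injOn).subset fun _ hg h1 =>
    hg (by simp only [sg_eq_zero.2 h1, mul_zero])

theorem St.rf_eq (h : St nb G r U) (D : G × Bool → Set I) : Equivalence (Rf r D) where
  refl y := ⟨h.eq.refl y, fun _ => Iff.rfl⟩
  symm h1 := ⟨h.eq.symm h1.1, fun i => (h1.2 i).symm⟩
  trans h1 h2 := ⟨h.eq.trans h1.1 h2.1, fun i => (h1.2 i).trans (h2.2 i)⟩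

theorem NF.mem_iff {x : I} {D : G × Bool → Set I} (h : NF nb r x D) (g : G) (i : G × Bool)
    (y : I) : g • y ∈ D i ↔ y ∈ D (tl g⁻¹ i) := by
  rw [← h.eqv g (tl g⁻¹ i), tl_tl, mul_inv_cancel, tl_one]

theorem St.rf_inv (h : St nb G r U) {x : I} {D : G × Bool → Set I} (hD : NF nb r x D) (g : G)
    (y z : I) (h1 : Rf r D y z) : Rf r D (g • y) (g • z) :=
  ⟨h.inv g _ _ h1.1, fun i => by rw [hD.mem_iff, hD.mem_iff]; exact h1.2 _⟩

theorem St.rel_refl (h : St nb G r U) : Rel nb G r nb r fun _ : Empty => ∅ where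
  ref _ _ h1 := h1
  dir _ h1 := h1
  sub j := j.elim
  fin j := j.elim
  sat j := j.elim
  inj _ _ _ j := j.elim
  stb _ := Or.inl fun _ h1 => h1
  ext y S hS h1 := ⟨S, hS, h1, fun _ _ => Iff.rfl, fun _ _ h2 h3 =>
    ⟨fun h4 => (h3 (hS h4)).elim, fun h4 => (h3 (h.eq.trans (hS h4) (h.eq.symm h2))).elim⟩⟩

/-- One step. -/
theorem step (h1 : TWStmt) (h2 : MinAStmt) (h3 : MinStmt) (h4 : NfAStmt) (h5 : NfBStmt)
    (h6 : NfCStmt) (h7 : RhoStmt) (h8 : ClqStmt) (h9 : StRStmt) (h : St nb G r U) {x₀ : I}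
    (hx : ¬ Coc G (cls r x₀)) (hE : ¬ OneE nb r x₀) :
    ∃ nb' r' U', ∃ B : Unit → Set I, St nb' G r' U' ∧ Rel nb G r nb' r' B := by
  obtain ⟨A, hA, hf, hi⟩ : ∃ A ⊆ cls r x₀, (Dl nb r A).Finite ∧
      ¬ (A.Finite ∨ (cls r x₀ \ A).Finite) := by
    by_contra hc
    refine hE fun S hS hf => ?_
    by_contra hc'
    exact hc ⟨S, hS, hf, hc'⟩
  obtain ⟨x, D, hx', hD⟩ := h3 h1 h2 G I nb r U h x₀ A hx
    ⟨hA, hf, fun e => hi (Or.inl e), fun e => hi (Or.inr e)⟩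
  have hG := h4 G I nb r U x D h hD
  obtain ⟨hs, hj⟩ := h6 G I nb r U x D h hD hG (h5 G I nb r U x D h hD hG hx')
  obtain ⟨K, ρ, hρ⟩ := h7 G I nb r U x D h hD hG
  obtain ⟨nb', K', hq⟩ := h8 G I nb h.gr K
  obtain ⟨⟨U', hU'⟩, he⟩ := h9 G I nb nb' r (Rf r D) U K K' ρ h hq (h.rf_eq D) (h.rf_inv hD)
    (fun _ _ e => e.1) (hρ nb' K' hq)
  exact ⟨nb', Rf r D, U', fun _ => D (1, true), hU', fun _ _ e => e.1, hq.dir,
    fun _ => ⟨_, fun y hy => hD.sub _ y hy⟩, fun _ => hD.fin _, fun _ _ _ e => e.2 _, hj, hs, he⟩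

theorem ac_of (h1 : TWStmt) (h2 : MinAStmt) (h3 : MinStmt) (h4 : NfAStmt) (h5 : NfBStmt)
    (h6 : NfCStmt) (h7 : RhoStmt) (h8 : ClqStmt) (h9 : StRStmt) (h10 : CmpStmt) (h11 : VNStmt)
    (h12 : BndStmt) (h13 : BrkStmt) (hR : RKStmt) : ACStmt := by
  intro G I _ _ nb r U h
  by_contra hc
  obtain ⟨m, hm⟩ := h12 h11 G I nb r U h
  have key : ∀ k : ℕ, ∃ (J : Type) (_ : Fintype J), Fintype.card J = k ∧ ∃ nb' r' U',
      ∃ B : J → Set I, St nb' G r' U' ∧ Rel nb G r nb' r' B := fun k => by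
    induction k with
    | zero => exact ⟨Empty, inferInstance, by simp, nb, r, U, _, h, h.rel_refl⟩
    | succ k ih =>
      obtain ⟨J, _, hk, nb', r', U', B, hs, hr⟩ := ih
      obtain ⟨x, hx, hE⟩ : ∃ x, ¬ Coc G (cls r' x) ∧ ¬ OneE nb' r' x := by
        by_contra hc'
        refine hc (h13 hR G I nb nb' r r' U U' h hs hr.ref hr.dir fun x hx => ?_)
        by_contra hc''
        exact hc' ⟨x, hx, hc''⟩
      obtain ⟨nb'', r'', U'', B', hs', hr'⟩ := step h1 h2 h3 h4 h5 h6 h7 h8 h9 hs hx hE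
      obtain ⟨B'', hr''⟩ := h10 G I J Unit nb nb' nb'' r r' r'' U U' U'' B B' h hs hs' hr hr'
      exact ⟨J ⊕ Unit, inferInstance, by simp [hk], nb'', r'', U'', B'', hs', hr''⟩
  obtain ⟨J, _, hk, nb', r', U', B, hs, hr⟩ := key (m + 1)
  have := hm J nb' r' U' B hs hr
  omega

end Pool.Agent.MP_4f4d9f_gt.Nc

end

section

/-! Finitely many tight cuts of bounded size separate two points. -/

namespace Pool.Agent.MP_4f4d9f_gt.Nc

open Hy

theorem tw_stmt : TWStmt := by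
  classical
  intro I nb r hs he _ k x y _
  set 𝒜 := {A : Set I | A ⊆ cls r x ∧ x ∈ A ∧ y ∉ A ∧ (Dl nb r A).Finite ∧
    (Dl nb r A).ncard ≤ k ∧ (∀ a ∈ A, Pa nb (fun u v => u ∈ A ∧ v ∈ A) x a) ∧
    ∀ a ∈ cls r x \ A, Pa nb (fun u v => u ∈ cls r x \ A ∧ v ∈ cls r x \ A) y a} with h𝒜
  have key : ∀ (n : ℕ) (F : Finset (I × I)), k < F.card + n →
      {A | A ∈ 𝒜 ∧ ↑F ⊆ Dl nb r A}.Finite := by
    intro n
    induction n with
    | zero =>
      refine fun F hF => Set.finite_empty.subset fun A hA => ?_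
      have h1 := Set.ncard_le_ncard hA.2 hA.1.2.2.2.1
      have h2 := hA.1.2.2.2.2.1
      rw [Set.ncard_coe_finset] at h1
      omega
    | succ n ih =>
      intro F hF
      by_cases hp : Pa nb (fun u v => r u v ∧ (u, v) ∉ F) x y
      · obtain ⟨K, -, hy, hK⟩ := hp.finite
        refine (((K ×ˢ K) \ F).finite_toSet.biUnion fun e he' => ih (insert e F) ?_).subset
          fun A hA => ?_
        · rw [Finset.card_insert_of_notMem (Finset.mem_sdiff.1 he').2]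
          omega
        · obtain ⟨u, v, -, h1, h2, h3, h4⟩ := (hK y hy).cross hA.1.2.1 hA.1.2.2.1
          refine Set.mem_biUnion (x := (u, v))
            (Finset.mem_sdiff.2 ⟨Finset.mem_product.2 h2.2, h2.1.2⟩) ⟨hA.1, ?_⟩
          rw [Finset.coe_insert]
          exact Set.insert_subset ⟨h1, h2.1.1, fun e => h4 (e.1 h3)⟩ hA.2
      · refine (Set.finite_singleton {a | Pa nb (fun u v => r u v ∧ (u, v) ∉ F) x a}).subset
          fun A hA => ?_
        obtain ⟨⟨h1, -, -, -, -, h2, h3⟩, h4⟩ := hA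
        have h5 : ∀ S ⊆ cls r x, (∀ u ∈ S, ∀ v ∈ S, (u ∈ A ↔ v ∈ A)) → ∀ a b,
            Pa nb (fun u v => u ∈ S ∧ v ∈ S) a b → Pa nb (fun u v => r u v ∧ (u, v) ∉ F) a b :=
          fun S hS hc a b hab => hab.mono fun u v huv h => ⟨huv,
            he.trans (he.symm (hS h.1)) (hS h.2), fun e => (h4 e).2.2 (hc u h.1 v h.2)⟩
        refine Set.Subset.antisymm
          (fun a ha => h5 A h1 (fun u hu v hv => iff_of_true hu hv) _ _ (h2 a ha)) fun a ha => ?_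
        by_contra hn
        have h6 : r x a :=
          Pa.ind (P := fun b => r x b) (he.refl x) (fun b c _ _ h ih => he.trans ih h.1) ha
        exact hp (Pa.trans ha (h5 _ Set.sdiff_subset (fun u hu v hv => iff_of_false hu.2 hv.2) _ _
          ((h3 a ⟨h6, hn⟩).symm hs fun _ _ h => h.symm)))
  exact (key (k + 1) ∅ (by simp)).subset fun A hA => ⟨hA, by simp⟩

end Pool.Agent.MP_4f4d9f_gt.Nc

end

section

/-! Up to translation there are finitely many cuts of least size. -/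

namespace Pool.Agent.MP_4f4d9f_gt.Nc

open Hy

namespace AcMinAL

variable {I : Type} {nb : I → Finset I} {G : Type} [Group G] [MulAction G I]
  {r : I → I → Prop} {U : Finset I}

theorem pa_mem {A : Set I} {a b : I} (ha : a ∈ A) (h : Pa nb (fun u v => u ∈ A ∧ v ∈ A) a b) :
    b ∈ A :=
  Pa.ind (P := fun b => b ∈ A) ha (fun _ _ _ _ h2 _ => h2.2) h

/-- A cut of least size is connected. -/
theorem conn (h : St nb G r U) {k : ℕ} {x : I} {A : Set I} (hA : Cut nb r x A)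
    (hk : (Dl nb r A).ncard ≤ k) (hm : ∀ A', Cut nb r x A' → k ≤ (Dl nb r A').ncard) :
    ∀ a ∈ A, ∀ b ∈ A, Pa nb (fun u v => u ∈ A ∧ v ∈ A) a b := by
  have hsym : ∀ {a b : I}, Pa nb (fun u v => u ∈ A ∧ v ∈ A) a b →
      Pa nb (fun u v => u ∈ A ∧ v ∈ A) b a := fun h1 => h1.symm h.gr.symm fun _ _ h2 => h2.symm
  have h1 : ∀ a ∈ A, ∃ e ∈ Dl nb r A, e.1 ∈ A ∧ e.2 ∉ A ∧
      Pa nb (fun u v => u ∈ A ∧ v ∈ A) a e.1 := by
    intro a ha
    obtain ⟨z, hz, hz'⟩ := hA.2.2.2.nonempty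
    obtain ⟨u, v, -, h2, h3, h4, h5⟩ := (h.cl a z (h.eq.trans (h.eq.symm (hA.1 ha)) hz)).cross
      (S := {b | Pa nb (fun u v => u ∈ A ∧ v ∈ A) a b}) (Pa.refl _ _) fun h6 => hz' (pa_mem ha h6)
    have h6 : u ∈ A := pa_mem ha h4
    have h7 : v ∉ A := fun h7 => h5 (Pa.tail h4 h2 ⟨h6, h7⟩)
    exact ⟨(u, v), ⟨h2, h3, fun h8 => h7 (h8.1 h6)⟩, h6, h7, h4⟩
  obtain ⟨u, hu, hi⟩ : ∃ u ∈ A, {b | Pa nb (fun u v => u ∈ A ∧ v ∈ A) u b}.Infinite := by
    by_contra hc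
    refine hA.2.2.1 (((hA.2.1.subset (Set.sep_subset _ fun e => e.1 ∈ A)).biUnion
      (t := fun e => {b | Pa nb (fun u v => u ∈ A ∧ v ∈ A) e.1 b}) fun e he => ?_).subset
      fun a ha => ?_)
    · by_contra h2
      exact hc ⟨e.1, he.2, h2⟩
    · obtain ⟨e, h2, h3, -, h4⟩ := h1 a ha
      exact Set.mem_biUnion (⟨h2, h3⟩ : e ∈ {e ∈ Dl nb r A | e.1 ∈ A}) (hsym h4)
  set C : Set I := {b | Pa nb (fun u v => u ∈ A ∧ v ∈ A) u b} with hC
  have hCA : C ⊆ A := fun _ h2 => pa_mem hu h2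
  have hD : Dl nb r C ⊆ Dl nb r A := by
    rintro e ⟨h2, h3, h4⟩
    refine ⟨h2, h3, fun h5 => h4 ⟨fun h6 => ?_, fun h6 => ?_⟩⟩
    · exact Pa.tail h6 h2 ⟨hCA h6, h5.1 (hCA h6)⟩
    · exact Pa.tail h6 (h.gr.symm _ _ h2) ⟨hCA h6, h5.2 (hCA h6)⟩
  have hcut : Cut nb r x C :=
    ⟨hCA.trans hA.1, hA.2.1.subset hD, hi, hA.2.2.2.mono fun _ h2 => ⟨h2.1, fun h3 => h2.2 (hCA h3)⟩⟩
  have hE : Dl nb r C = Dl nb r A :=
    Set.eq_of_subset_of_ncard_le hD (hk.trans (hm C hcut)) hA.2.1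
  have h2 : ∀ a ∈ A, Pa nb (fun u v => u ∈ A ∧ v ∈ A) u a := by
    intro a ha
    obtain ⟨e, h3, -, h4, h5⟩ := h1 a ha
    rw [← hE] at h3
    have h6 : e.1 ∈ C := by
      by_contra h6
      exact h3.2.2 ⟨fun h7 => (h6 h7).elim, fun h7 => (h4 (hCA h7)).elim⟩
    exact Pa.trans h6 (hsym h5)
  exact fun a ha b hb => (hsym (h2 a ha)).trans (h2 b hb)

theorem pa_back (h : St nb G r U) (g : G) {A B : Set I} (hAB : ∀ y, y ∈ B ↔ g • y ∈ A) {a b : I}
    (hp : Pa nb (fun u v => u ∈ A ∧ v ∈ A) (g • a) (g • b)) :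
    Pa nb (fun u v => u ∈ B ∧ v ∈ B) a b := by
  have h1 := hp.map (nb' := nb) (q := fun u v => u ∈ B ∧ v ∈ B) (fun y => g⁻¹ • y)
    fun u v h2 h3 => ⟨h.gr.eqv _ _ _ h2, by simpa only [hAB, smul_inv_smul] using h3⟩
  simpa only [inv_smul_smul] using h1

end AcMinAL

open AcMinAL

theorem minA_stmt : MinAStmt := by
  intro hT G I _ _ nb r U h k
  refine ⟨⋃ t ∈ (U : Set I), ⋃ b ∈ {b | b ∈ nb t ∧ r t b},
    {A : Set I | A ⊆ cls r t ∧ t ∈ A ∧ b ∉ A ∧ (Dl nb r A).Finite ∧ (Dl nb r A).ncard ≤ k ∧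
      (∀ a ∈ A, Pa nb (fun u v => u ∈ A ∧ v ∈ A) t a) ∧
      ∀ a ∈ cls r t \ A, Pa nb (fun u v => u ∈ cls r t \ A ∧ v ∈ cls r t \ A) b a},
    U.finite_toSet.biUnion fun t _ =>
      ((nb t).finite_toSet.subset fun _ hb => hb.1).biUnion fun b hb =>
        hT I nb r h.gr.symm h.eq h.cl k t b hb.2, fun x A hA hk hm => ?_⟩
  have hD := h.dl_compl hA.1
  have hA' : Cut nb r x (cls r x \ A) :=
    ⟨fun _ h1 => h1.1, hD ▸ hA.2.1, hA.2.2.2, hA.2.2.1.mono fun _ h1 => ⟨hA.1 h1, fun h2 => h2.2 h1⟩⟩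
  have c1 := conn h hA hk hm
  have c2 := conn h hA' (hD ▸ hk) hm
  obtain ⟨a, ha, ha'⟩ := (h.wall_inf hA.2.1 hA.2.2.1 (hA.2.2.2.mono fun _ h1 => h1.2)).nonempty
  obtain ⟨b, hb, hb'⟩ :=
    (h.wall_inf hA'.2.1 hA'.2.2.1 (hA.2.2.1.mono fun _ h1 h2 => h2.2 h1)).nonempty
  obtain ⟨u, v, -, h1, ⟨h2, ⟨g, t, ht, rfl⟩, -⟩, h3, h4⟩ :=
    (h.ucn a b ha' hb' (h.eq.trans (h.eq.symm (hA.1 ha)) hb.1)).cross ha hb.2
  obtain ⟨w, rfl⟩ : ∃ w, g • w = v := ⟨g⁻¹ • v, smul_inv_smul _ _⟩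
  have h5 : r x (g • t) := hA.1 h3
  have h6 : ∀ y, y ∈ cls r t ↔ g • y ∈ cls r x := fun y => by
    rw [h.cls_eq h5]
    exact (h.inv_iff g t y).symm
  have h7 : ∀ y, y ∈ cls r t \ {y | g • y ∈ A} ↔ g • y ∈ cls r x \ A := fun y =>
    and_congr (h6 y) Iff.rfl
  have h8 : ∀ e ∈ Dl nb r {y | g • y ∈ A}, (g • e.1, g • e.2) ∈ Dl nb r A := fun e he =>
    ⟨h.gr.eqv g _ _ he.1, h.inv g _ _ he.2.1, he.2.2⟩
  have h9 : Function.Injective fun e : I × I => (g • e.1, g • e.2) := fun e e' he =>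
    Prod.ext (MulAction.injective g (congrArg Prod.fst he))
      (MulAction.injective g (congrArg Prod.snd he))
  refine ⟨g, Set.mem_biUnion ht (Set.mem_biUnion
    (⟨(h.gr.eqv_iff g _ _).1 h1, (h.inv_iff g _ _).1 h2⟩ : w ∈ {b | b ∈ nb t ∧ r t b})
    ⟨fun y hy => (h6 y).2 (hA.1 hy), h3, h4, (hA.2.1.preimage h9.injOn).subset h8,
      (Set.ncard_le_ncard_of_injOn _ h8 h9.injOn hA.2.1).trans hk, fun y hy => ?_,
      fun y hy => ?_⟩)⟩
  · exact pa_back h g (fun _ => Iff.rfl) (c1 _ h3 _ hy)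
  · exact pa_back h g h7 (c2 _ ⟨h.eq.trans h5 h2, h4⟩ _ ((h7 y).1 hy))

end Pool.Agent.MP_4f4d9f_gt.Nc

end

section

/-! Order facts about a nested orbit of cuts: `NfAStmt`. -/

namespace Pool.Agent.MP_4f4d9f_gt.Nc

open Hy

namespace AcNfAL

variable {G I : Type} [Group G] [MulAction G I] {nb : I → Finset I} {r : I → I → Prop}
  {U : Finset I} {x : I} {D : G × Bool → Set I}

theorem dis (hD : NF nb r x D) {i : G × Bool} {y : I} (hy : y ∈ D i) : y ∉ D (st i) :=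
  fun h1 => (hD.cpl i y (hD.sub i y hy)).1 h1 hy

theorem dis' (hD : NF nb r x D) {i : G × Bool} {y : I} (hy : y ∈ D (st i)) : y ∉ D i :=
  fun h1 => dis hD h1 hy

theorem common (h : St nb G r U) (hD : NF nb r x D) {i j : G × Bool} {y : I} (hi : y ∈ D i)
    (hj : y ∈ D j) : r (i.1 • x) (j.1 • x) :=
  h.eq.trans (hD.sub i y hi) (h.eq.symm (hD.sub j y hj))

theorem same (h : St nb G r U) (hD : NF nb r x D) {i j : G × Bool} (hij : D i ⊆ D j) :
    r (i.1 • x) (j.1 • x) := by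
  obtain ⟨a, ha⟩ := (hD.inf i).nonempty
  exact common h hD ha (hij ha)

theorem rev (h : St nb G r U) (hD : NF nb r x D) {i j : G × Bool} (hij : D i ⊆ D j) :
    D (st j) ⊆ D (st i) := fun y hy =>
  (hD.cpl i y (h.eq.trans (same h hD hij) (hD.sub (st j) y hy))).2 fun h1 => dis' hD hy (hij h1)

theorem rev' (h : St nb G r U) (hD : NF nb r x D) {i j : G × Bool} (hij : D (st i) ⊆ D (st j)) :
    D j ⊆ D i := by
  have h1 := rev h hD hij
  rwa [st_st, st_st] at h1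

theorem rev'' (h : St nb G r U) (hD : NF nb r x D) {i j : G × Bool} (hij : D i ⊆ D (st j)) :
    D j ⊆ D (st i) := by
  have h1 := rev h hD hij
  rwa [st_st] at h1

theorem both (hD : NF nb r x D) {i j : G × Bool} (h1 : D i ⊆ D j) (h2 : D i ⊆ D (st j)) :
    False := by
  obtain ⟨a, ha⟩ := (hD.inf i).nonempty
  exact dis hD (h1 ha) (h2 ha)

theorem inj (h : St nb G r U) (hD : NF nb r x D) (i j : G × Bool) (hij : D i ⊆ D j)
    (hji : D j ⊆ D i) : i = j := by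
  have e : D i = D j := Set.Subset.antisymm hij hji
  obtain ⟨a, ha⟩ := (hD.inf i).nonempty
  obtain ⟨b, hb⟩ := (hD.inf (st i)).nonempty
  have hab : r a b := h.eq.trans (h.eq.symm (hD.sub i a ha)) (hD.sub (st i) b hb)
  have hF := h.sep_fin (hD.fin i) hab
  have hne : {g : G | Sp (D i) (g • a) (g • b)}.Nonempty :=
    ⟨1, fun h1 => dis' hD hb (by simpa using h1.1 (by simpa using ha))⟩
  have hk : tl (j.1 * i.1⁻¹) i = j ∨ tl (j.1 * i.1⁻¹) i = st j := by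
    obtain ⟨i1, i2⟩ := i
    obtain ⟨j1, j2⟩ := j
    cases i2 <;> cases j2 <;> simp [tl, st]
  have h1 : j.1 * i.1⁻¹ = 1 := by
    refine h.gr.eq_one hF hne fun g hg => ?_
    simp only [Set.mem_setOf_eq, mul_smul (j.1 * i.1⁻¹) g] at hg ⊢
    have h2 := hD.eqv (j.1 * i.1⁻¹) i
    rcases hk with hk | hk
    · rw [hk, ← e] at h2
      intro h3
      exact hg (((h2 _).symm.trans h3).trans (h2 _))
    · rw [hk] at h2
      have h3 : r (g • a) (g • b) := h.inv g _ _ hab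
      have h4 : r (i.1 • x) (g • a) := by
        by_cases h5 : g • a ∈ D i
        · exact hD.sub i _ h5
        · have h6 : g • b ∈ D i := by
            by_contra h6
            exact hg ⟨fun h7 => (h5 h7).elim, fun h7 => (h6 h7).elim⟩
          exact h.eq.trans (hD.sub i _ h6) (h.eq.symm h3)
      have h5 : ∀ y, r (i.1 • x) y → (y ∈ D i ↔ (j.1 * i.1⁻¹) • y ∉ D i) := fun y hy => by
        have h6 := h.inv (j.1 * i.1⁻¹) _ _ hy
        rw [← mul_smul, inv_mul_cancel_right] at h6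
        rw [← h2 y, hD.cpl j _ h6, e]
      intro h6
      exact hg ((h5 _ h4).trans ((not_congr h6).trans (h5 _ (h.eq.trans h4 h3)).symm))
  rw [h1, tl_one] at hk
  refine hk.elim id fun hk => ?_
  exact (dis hD (hij ha) (hk ▸ ha)).elim

theorem sep (h : St nb G r U) (hD : NF nb r x D) (y z : I) (hyz : r y z) :
    {i | y ∈ D i ∧ z ∉ D i}.Finite := by
  have h1 : ∀ b : Bool, ((fun g : G => (g⁻¹, b)) ''
      {g : G | Sp (D (1, b)) (g • y) (g • z)}).Finite :=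
    fun b => (h.sep_fin (hD.fin (1, b)) hyz).image _
  refine (Set.finite_iUnion h1).subset ?_
  rintro ⟨g, b⟩ hi
  have h2 : tl g⁻¹ (g, b) = (1, b) := by simp [tl]
  refine Set.mem_iUnion.2 ⟨b, g⁻¹, fun h3 => ?_, by simp⟩
  rw [← h2, hD.eqv, hD.eqv] at h3
  exact hi.2 (h3.1 hi.1)

theorem far (h : St nb G r U) (hD : NF nb r x D) (g : G) (Z : Set I) (hZ : Z ⊆ cls r (g • x))
    (hf : (Dl nb r Z).Finite) (h1 : Z.Infinite) (h2 : Zᶜ.Infinite) :
    ∃ i, ∃ a ∈ Z, ∃ b ∈ Z, a ∈ D i ∧ b ∉ D i := by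
  obtain ⟨t, ht⟩ : ∃ t, {k : G | k • t ∈ Z}.Infinite := by
    by_contra hc
    refine h.wall_inf hf h1 h2 ((U.finite_toSet.biUnion fun t _ =>
      (Set.not_infinite.1 fun e => hc ⟨t, e⟩).image fun k : G => k • t).subset ?_)
    rintro _ ⟨h3, k, t, h4, rfl⟩
    exact Set.mem_biUnion h4 ⟨k, h3, rfl⟩
  obtain ⟨k₀, hk₀⟩ := ht.nonempty
  have h3 : {k : G | k • k₀ • t ∈ Z}.Infinite := fun e =>
    ht ((e.image fun k => k * k₀).subset fun k hk =>
      ⟨k * k₀⁻¹, by simpa [mul_smul] using hk, by simp⟩)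
  obtain ⟨a, ha⟩ := (hD.inf (g, true)).nonempty
  obtain ⟨b, hb⟩ := (hD.inf (st (g, true))).nonempty
  have h4 : r (k₀ • t) (g • x) := h.eq.symm (hZ hk₀)
  have h5 := h.sep_fin hf (h.eq.trans h4 (hD.sub _ a ha))
  have h6 := h.sep_fin hf (h.eq.trans h4 (hD.sub _ b hb))
  obtain ⟨k, hk, hk'⟩ := (h3.diff (h5.union h6)).nonempty
  refine ⟨tl k (g, true), k • a, ?_, k • b, ?_, (hD.eqv _ _ _).2 ha,
    fun h7 => dis' hD hb ((hD.eqv _ _ _).1 h7)⟩
  · by_contra h7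
    exact hk' (Or.inl fun h8 => h7 (h8.1 hk))
  · by_contra h7
    exact hk' (Or.inr fun h8 => h7 (h8.1 hk))

theorem m1 (h : St nb G r U) (hD : NF nb r x D) (y z : I) (i : G × Bool) (hyz : r y z)
    (hz : z ∈ D i) (hy : y ∉ D i) : ∃ j, Mx r x D y j ∧ D i ⊆ D j := by
  have h1 : {j | D i ⊆ D j ∧ y ∉ D j}.Finite :=
    (sep h hD z y (h.eq.symm hyz)).subset fun j hj => ⟨hj.1 hz, hj.2⟩
  obtain ⟨j, hj, hm⟩ := h1.exists_maximalFor D _ ⟨i, subset_rfl, hy⟩
  exact ⟨j, ⟨h.eq.trans (hD.sub j z (hj.1 hz)) (h.eq.symm hyz), hj.2, fun k h2 h3 =>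
    inj h hD k j (hm (j := k) ⟨hj.1.trans h3, h2⟩ h3) h3⟩, hj.1⟩

theorem m2 (h : St nb G r U) (hD : NF nb r x D) (y z : I) (i j : G × Bool) (hi : Mx r x D y i)
    (hj : Mx r x D y j) (h1 : z ∈ D i) (h2 : z ∈ D j) : i = j := by
  rcases hD.nest i j (common h hD h1 h2) with e | e | e | e
  · exact (hi.2.2 j hj.2.1 e).symm
  · exact (dis hD h2 (e h1)).elim
  · exact (hj.2.1 (e ((hD.cpl i y hi.1).2 hi.2.1))).elim
  · exact hj.2.2 i hi.2.1 (rev' h hD e)

theorem m3a (h : St nb G r U) (hD : NF nb r x D) {y z : I} {i : G × Bool} (hy : Mx r x D y i)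
    (hz : Mx r x D z i) (k : G × Bool) (h1 : y ∈ D k) : z ∈ D k := by
  by_contra h2
  have h3 : r (i.1 • x) (k.1 • x) := h.eq.trans hy.1 (h.eq.symm (hD.sub k y h1))
  rcases hD.nest i k h3 with e | e | e | e
  · exact hy.2.1 (hz.2.2 k h2 e ▸ h1)
  · exact hz.2.1 (hy.2.2 _ (dis hD h1) e ▸ (hD.cpl k z (h.eq.trans (h.eq.symm h3) hz.1)).2 h2)
  · exact h2 (e ((hD.cpl i z hz.1).2 hz.2.1))
  · exact dis hD h1 (e ((hD.cpl i y hy.1).2 hy.2.1))

theorem m3 (h : St nb G r U) (hD : NF nb r x D) (y z : I) (i : G × Bool) (hy : Mx r x D y i)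
    (hz : Mx r x D z i) : Rf r D y z :=
  ⟨h.eq.trans (h.eq.symm hy.1) hz.1, fun k => ⟨m3a h hD hy hz k, m3a h hD hz hy k⟩⟩

theorem m4 (h : St nb G r U) (y z : I) (i : G × Bool) (hyz : Rf r D y z) (hy : Mx r x D y i) :
    Mx r x D z i :=
  ⟨h.eq.trans hy.1 hyz.1, fun h1 => hy.2.1 ((hyz.2 i).2 h1),
    fun j h1 h2 => hy.2.2 j (fun h3 => h1 ((hyz.2 j).1 h3)) h2⟩

theorem m5 (h : St nb G r U) (hD : NF nb r x D) (g : G) (y : I) (i : G × Bool)
    (hy : Mx r x D y i) : Mx r x D (g • y) (tl g i) := by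
  refine ⟨?_, fun h1 => hy.2.1 ((hD.eqv g i y).1 h1), fun j h1 h2 => ?_⟩
  · rw [tl_fst, mul_smul]
    exact h.inv g _ _ hy.1
  · have h3 := hy.2.2 (tl g⁻¹ j) (fun h3 => h1 ((hD.mem_iff g j y).2 h3))
      fun w hw => (hD.mem_iff g j w).1 (h2 ((hD.eqv g i w).2 hw))
    rw [← h3, tl_tl, mul_inv_cancel, tl_one]

theorem m6 (h : St nb G r U) (hD : NF nb r x D) (y : I) (i j : G × Bool) (hj : Mx r x D y j)
    (hs : Sb D i j) : Mx r x D y i := by
  have h1 : r (i.1 • x) (j.1 • x) := same h hD (j := st j) hs.1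
  refine ⟨h.eq.trans h1 hj.1, fun h2 => ?_, fun k h2 h3 => ?_⟩
  · have h3 := hj.2.2 _ (dis hD h2) (rev'' h hD hs.1)
    exact hs.2.1 (by rw [← h3, st_st])
  · have h4 : r (k.1 • x) (j.1 • x) := h.eq.trans (h.eq.symm (same h hD h3)) h1
    rcases hD.nest k j h4 with e | e | e | e
    · exact (both hD (h3.trans e) hs.1).elim
    · refine (hs.2.2 k h3 e).elim id fun h5 => ?_
      exact (h2 (h5 ▸ (hD.cpl j y hj.1).2 hj.2.1)).elim
    · exact (hj.2.1 (e ((hD.cpl k y (h.eq.trans h4 hj.1)).2 h2))).elim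
    · have h5 := hj.2.2 k h2 (rev' h hD e)
      exact (both hD (h5 ▸ h3) hs.1).elim

theorem s1 (h : St nb G r U) (hD : NF nb r x D) (i j : G × Bool) (hij : D i ⊆ D (st j))
    (hne : i ≠ st j) : ∃ k, Sb D k j ∧ D i ⊆ D k := by
  obtain ⟨a, ha⟩ := (hD.inf i).nonempty
  obtain ⟨b, hb⟩ := (hD.inf j).nonempty
  have hab : r a b := h.eq.trans (h.eq.symm (hD.sub (st j) a (hij ha))) (hD.sub j b hb)
  have h1 : {k | D i ⊆ D k ∧ D k ⊆ D (st j) ∧ k ≠ st j}.Finite :=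
    (sep h hD a b hab).subset fun k hk => ⟨hk.1 ha, fun h2 => dis hD hb (hk.2.1 h2)⟩
  obtain ⟨k, hk, hm⟩ := h1.exists_maximalFor D _ ⟨i, subset_rfl, hij, hne⟩
  refine ⟨k, ⟨hk.2.1, hk.2.2, fun l h2 h3 => ?_⟩, hk.1⟩
  by_cases h4 : l = st j
  · exact Or.inr h4
  · exact Or.inl (inj h hD l k (hm (j := l) ⟨hk.1.trans h2, h3, h4⟩ h2) h2)

theorem s2 (h : St nb G r U) (hD : NF nb r x D) (i j k : G × Bool) (y : I) (hs : Sb D i j)
    (hk : D k ⊆ D (st j)) (hne : k ≠ st j) (h1 : y ∈ D k) (h2 : y ∈ D i) : D k ⊆ D i := by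
  rcases hD.nest k i (common h hD h1 h2) with e | e | e | e
  · exact e
  · exact (dis hD h2 (e h1)).elim
  · exact (both hD ((rev'' h hD hk).trans (e.trans hs.1)) (by rw [st_st])).elim
  · rcases hs.2.2 k (rev' h hD e) hk with h3 | h3
    · rw [h3]
    · exact (hne h3).elim

end AcNfAL

theorem nfA_stmt : NfAStmt := fun _ _ _ _ _ _ _ _ _ h hD =>
  { inj := AcNfAL.inj h hD
    sep := AcNfAL.sep h hD
    far := AcNfAL.far h hD
    m1 := AcNfAL.m1 h hD
    m2 := AcNfAL.m2 h hD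
    m3 := AcNfAL.m3 h hD
    m4 := AcNfAL.m4 h
    m5 := AcNfAL.m5 h hD
    m6 := AcNfAL.m6 h hD
    s1 := AcNfAL.s1 h hD
    s2 := AcNfAL.s2 h hD }

end Pool.Agent.MP_4f4d9f_gt.Nc

end

section

/-! A class that is not cocompact has a structure tree with infinite valence everywhere. -/

namespace Pool.Agent.MP_4f4d9f_gt.Nc

open Hy

namespace AcNfBL

variable {I : Type} {nb : I → Finset I} {G : Type} [Group G] [MulAction G I]
  {r : I → I → Prop} {U : Finset I} {x : I} {D : G × Bool → Set I}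

theorem dis (hD : NF nb r x D) {i : G × Bool} {y : I} (h1 : y ∈ D i) (h2 : y ∈ D (st i)) :
    False := (hD.cpl i y (hD.sub i y h1)).1 h2 h1

theorem rel (h : St nb G r U) (hD : NF nb r x D) {i j : G × Bool} (h1 : D i ⊆ D j) :
    r (i.1 • x) (j.1 • x) := by
  obtain ⟨y, hy⟩ := (hD.inf i).nonempty
  exact h.eq.trans (hD.sub i y hy) (h.eq.symm (hD.sub j y (h1 hy)))

theorem rev (h : St nb G r U) (hD : NF nb r x D) {i j : G × Bool} (h1 : D i ⊆ D j) :
    D (st j) ⊆ D (st i) := fun y hy =>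
  (hD.cpl i y (h.eq.trans (rel h hD h1) (hD.sub (st j) y hy))).2 fun h2 => dis hD (h1 h2) hy

theorem rev' (h : St nb G r U) (hD : NF nb r x D) {i j : G × Bool} (h1 : D i ⊆ D (st j)) :
    D j ⊆ D (st i) := by
  have h2 := rev h hD h1
  rwa [st_st] at h2

theorem nb2 (hD : NF nb r x D) {i j : G × Bool} (h1 : D i ⊆ D j) (h2 : D i ⊆ D (st j)) :
    False := by
  obtain ⟨y, hy⟩ := (hD.inf i).nonempty
  exact dis hD (h1 hy) (h2 hy)

theorem sb_symm (h : St nb G r U) (hD : NF nb r x D) {i j : G × Bool} (h1 : Sb D i j) :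
    Sb D j i := by
  refine ⟨rev' h hD h1.1, fun e => h1.2.1 (by rw [e, st_st]), fun k h2 h3 => ?_⟩
  rcases h1.2.2 (st k) (rev' h hD h3) (rev h hD h2) with e | e
  · exact Or.inr (by rw [← e, st_st])
  · exact Or.inl (st_inj e)

theorem sb_trans (h : St nb G r U) (hD : NF nb r x D) (hG : NG nb r x D) {i j k : G × Bool}
    (h1 : Sb D i j) (h2 : Sb D j k) (hik : i ≠ k) : Sb D i k := by
  have h3 := sb_symm h hD h2
  have h4 : D i ⊆ D (st k) := fun y hy => by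
    refine (hD.cpl k y (h.eq.trans (rel h hD h3.1) (hD.sub (st j) y (h1.1 hy)))).2 fun hk => ?_
    exact hik (hG.inj i k (hG.s2 k j i y h3 h1.1 h1.2.1 hy hk) (hG.s2 i j k y h1 h3.1 h3.2.1 hk hy))
  refine ⟨h4, fun e => ?_, fun l h5 h6 => ?_⟩
  · have h5 := h1.1
    rw [e] at h5
    exact nb2 hD (rev' h hD h3.1) (rev' h hD h5)
  · have h7 : r (l.1 • x) (j.1 • x) :=
      h.eq.trans (h.eq.symm (rel h hD h5)) (rel (j := st j) h hD h1.1)
    rcases hD.nest l j h7 with h8 | h8 | h8 | h8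
    · exact (nb2 hD (h5.trans h8) h1.1).elim
    · rcases h1.2.2 l h5 h8 with e | e
      · exact Or.inl e
      · rw [e] at h6
        exact (nb2 hD subset_rfl (h3.1.trans h6)).elim
    · have h9 := rev h hD h8
      rw [st_st] at h9
      exact (nb2 hD subset_rfl (h3.1.trans (h9.trans h6))).elim
    · have h9 := rev' h hD h8
      rw [st_st] at h9
      rcases h2.2.2 l h9 h6 with e | e
      · rw [e] at h5
        exact (nb2 hD h5 h1.1).elim
      · exact Or.inr e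

theorem tls (hD : NF nb r x D) (g : G) {i j : G × Bool} (h1 : D i ⊆ D j) :
    D (tl g i) ⊆ D (tl g j) := fun y hy => by
  rw [← smul_inv_smul g y, hD.eqv] at hy ⊢
  exact h1 hy

theorem tl_back (g : G) (i : G × Bool) : tl g (tl g⁻¹ i) = i := by
  rw [tl_tl, mul_inv_cancel, tl_one]

theorem tl_back' (g : G) (i : G × Bool) : tl g⁻¹ (tl g i) = i := by
  rw [tl_tl, inv_mul_cancel, tl_one]

theorem sb_tl (hD : NF nb r x D) (g : G) {i j : G × Bool} (h1 : Sb D i j) :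
    Sb D (tl g i) (tl g j) := by
  refine ⟨tls hD g h1.1, fun e => h1.2.1 ?_, fun k h2 h3 => ?_⟩
  · rw [← tl_back' g i, e, ← tl_st, tl_back']
  · have h4 := tls hD g⁻¹ h2
    have h5 := tls hD g⁻¹ h3
    rw [tl_back'] at h4
    rw [← tl_st, tl_back'] at h5
    rcases h1.2.2 _ h4 h5 with e | e
    · exact Or.inl (by rw [← e, tl_back])
    · exact Or.inr (by rw [← tl_st, ← e, tl_back])

/-- Two sides that point away from the same vertex of the tree. -/
def Ev (D : G × Bool → Set I) (i j : G × Bool) : Prop := i = j ∨ Sb D i j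

theorem ev_trans (h : St nb G r U) (hD : NF nb r x D) (hG : NG nb r x D) {i j k : G × Bool}
    (h1 : Ev D i j) (h2 : Ev D j k) : Ev D i k := by
  rcases h1 with rfl | h1
  · exact h2
  rcases h2 with rfl | h2
  · exact Or.inr h1
  by_cases e : i = k
  · exact Or.inl e
  · exact Or.inr (sb_trans h hD hG h1 h2 e)

theorem ev_tl (hD : NF nb r x D) (g : G) {i j : G × Bool} (h1 : Ev D i j) :
    Ev D (tl g i) (tl g j) := h1.imp (fun e => by rw [e]) (sb_tl hD g)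

theorem ev_eq (h : St nb G r U) (hD : NF nb r x D) (hG : NG nb r x D) {i j : G × Bool}
    (hf : {l | Ev D l j}.Finite) (h1 : Ev D i j) (h2 : i.2 = j.2) : i = j := by
  have h3 : tl (i.1 * j.1⁻¹) j = i := Prod.ext (by simp) h2.symm
  have h4 : i.1 * j.1⁻¹ = 1 := by
    refine h.gr.eq_one (F := {g | Ev D (g, j.2) j})
      (hf.preimage (f := fun g : G => (g, j.2)) fun a _ b _ e => congrArg Prod.fst e)
      ⟨j.1, Or.inl rfl⟩ fun g hg => ?_
    have h5 := ev_tl hD (i.1 * j.1⁻¹) hg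
    rw [h3] at h5
    exact ev_trans h hD hG h5 h1
  rw [← h3, h4, tl_one]

theorem ex_sb (h : St nb G r U) (hD : NF nb r x D) (hG : NG nb r x D) (j : G × Bool) :
    ∃ i, Sb D i j := by
  obtain ⟨l, a, ha, b, hb, h1, h2⟩ := hG.far j.1 (D (st j)) (fun y hy => hD.sub (st j) y hy)
    (hD.fin _) (hD.inf _) ((hD.inf j).mono fun y hy h1 => dis hD hy h1)
  have h3 : r (l.1 • x) (j.1 • x) :=
    h.eq.trans (hD.sub l a h1) (h.eq.symm (hD.sub (st j) a ha))
  have h4 : b ∈ D (st l) := (hD.cpl l b (h.eq.trans h3 (hD.sub (st j) b hb))).2 h2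
  rcases hD.nest l j h3 with h5 | h5 | h5 | h5
  · exact (dis hD (h5 h1) ha).elim
  · exact (hG.s1 l j h5 fun e => h2 (by rwa [e])).imp fun _ h6 => h6.1
  · exact (dis hD (h5 h4) hb).elim
  · exact (hG.s1 (st l) j h5 fun e => dis hD h1 (by rwa [e])).imp fun _ h6 => h6.1

theorem fin_tl (hD : NF nb r x D) {i j : G × Bool} (hf : {l | Ev D l j}.Finite)
    (h2 : i.2 = j.2) : {l | Ev D l i}.Finite := by
  have h3 : tl (j.1 * i.1⁻¹) i = j := Prod.ext (by simp) h2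
  refine (hf.image (tl (j.1 * i.1⁻¹)⁻¹)).subset fun l hl => ⟨_, ?_, tl_back' _ l⟩
  have h4 := ev_tl hD (j.1 * i.1⁻¹) hl
  rwa [h3] at h4

theorem fin_all (h : St nb G r U) (hD : NF nb r x D) (hG : NG nb r x D) {j : G × Bool}
    (hf : {l | Ev D l j}.Finite) (k : G × Bool) : {l | Ev D l k}.Finite := by
  obtain ⟨i, hi⟩ := ex_sb h hD hG j
  have h1 : i.2 ≠ j.2 := fun e => by
    have h2 := ev_eq h hD hG hf (Or.inr hi) e
    rw [h2] at hi
    exact nb2 hD subset_rfl hi.1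
  by_cases h2 : k.2 = j.2
  · exact fin_tl hD hf h2
  · refine fin_tl hD (hf.subset fun l hl => ev_trans h hD hG hl (Or.inr hi)) ?_
    revert h1 h2
    cases k.2 <;> cases i.2 <;> cases j.2 <;> simp

theorem mx_of (h : St nb G r U) (hD : NF nb r x D) (hG : NG nb r x D) {j : G × Bool} {y : I}
    (h1 : r (j.1 • x) y) (h2 : ∀ i, Ev D i j → y ∉ D i) : Mx r x D y j := by
  refine ⟨h1, h2 j (Or.inl rfl), fun k h3 h4 => ?_⟩
  by_contra e
  obtain ⟨i, h5, h6⟩ := hG.s1 (st k) j (rev h hD h4) fun e' => e (st_inj e')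
  exact h2 i (Or.inr h5)
    (h6 ((hD.cpl k y (h.eq.trans (h.eq.symm (rel h hD h4)) h1)).2 h3))

theorem of_mx (hG : NG nb r x D) {i j : G × Bool} {y : I} (h1 : Mx r x D y j) (h2 : Ev D i j) :
    y ∉ D i := by
  rcases h2 with rfl | h2
  · exact h1.2.1
  · exact (hG.m6 y i j h1 h2).2.1

theorem at_fin (h : St nb G r U) (hD : NF nb r x D) (hG : NG nb r x D) {j : G × Bool}
    (hf : {l | Ev D l j}.Finite) : {y | Mx r x D y j}.Finite := by
  by_contra hc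
  have key : ∀ a b, r a b → (∀ i, Ev D i j → (a ∈ D i ↔ b ∈ D i)) → Mx r x D a j →
      Mx r x D b j := fun a b h1 h2 h3 =>
    mx_of h hD hG (h.eq.trans h3.1 h1) fun i hi hb => of_mx hG h3 hi ((h2 i hi).2 hb)
  have h1 : (Dl nb r {y | Mx r x D y j}).Finite := by
    refine (hf.biUnion fun i _ => hD.fin i).subset fun e he => ?_
    by_contra h2
    have h3 : ∀ i, Ev D i j → (e.1 ∈ D i ↔ e.2 ∈ D i) := fun i hi => by
      by_contra h3
      exact h2 (Set.mem_biUnion hi ⟨he.1, he.2.1, h3⟩)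
    exact he.2.2 ⟨key _ _ he.2.1 h3, key _ _ (h.eq.symm he.2.1) fun i hi => (h3 i hi).symm⟩
  obtain ⟨l, a, ha, b, hb, h2, h3⟩ := hG.far j.1 {y | Mx r x D y j} (fun y hy => hy.1) h1 hc
    ((hD.inf j).mono fun y hy h4 => h4.2.1 hy)
  exact h3 (((hG.m3 a b j ha hb).2 l).1 h2)

end AcNfBL

open AcNfBL in
theorem nfB_stmt : NfBStmt := by
  intro G I _ _ nb r U x D h hD hG hx j hj
  have hf : {l | Ev D l j}.Finite :=
    ((Set.finite_singleton j).union hj).subset fun l hl => hl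
  have h1 : ∀ k, {y | Mx r x D y k}.Finite := fun k => at_fin h hD hG (fin_all h hD hG hf k)
  refine hx ⟨((h1 (1, true)).union (h1 (1, false))).toFinset, fun y hy => ?_⟩
  obtain ⟨i, hi, hy'⟩ : ∃ i : G × Bool, i.1 = 1 ∧ y ∉ D i := by
    by_cases h2 : y ∈ D (1, true)
    · exact ⟨st (1, true), rfl, fun h3 => dis hD h2 h3⟩
    · exact ⟨(1, true), rfl, h2⟩
  obtain ⟨z, hz⟩ := (hD.inf i).nonempty
  have h2 := hD.sub i z hz
  rw [hi, one_smul] at h2
  obtain ⟨k, hk, -⟩ := hG.m1 y z i (h.eq.trans (h.eq.symm hy) h2) hz hy'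
  have h3 := hG.m5 k.1⁻¹ y k hk
  have h4 : tl k.1⁻¹ k = (1, k.2) := Prod.ext (by simp) rfl
  rw [h4] at h3
  refine ⟨k.1, k.1⁻¹ • y, (Set.Finite.mem_toFinset _).2 ?_, smul_inv_smul _ _⟩
  revert h3
  cases k.2
  · exact Or.inr
  · exact Or.inl

end Pool.Agent.MP_4f4d9f_gt.Nc

end

section

/-! A nested orbit of cuts: infinite stabilisers and independence of the translates. -/

namespace Pool.Agent.MP_4f4d9f_gt.Nc

open Hy Filter Topology

namespace AcNfCL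

theorem ex_b {G : Type} {A : Set (G × Bool)} (h : A.Infinite) :
    ∃ b, {g | (g, b) ∈ A}.Infinite := by
  by_contra hc
  simp only [not_exists, Set.not_infinite] at hc
  refine h ((((hc true).image fun g => (g, true)).union
    ((hc false).image fun g => (g, false))).subset ?_)
  rintro ⟨g, _ | _⟩ hg
  · exact Or.inr ⟨g, hg, rfl⟩
  · exact Or.inl ⟨g, hg, rfl⟩

theorem ex_out {G : Type} {A : Set (G × Bool)} (h : A.Infinite) {B : Set G} (hB : B.Finite) :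
    ∃ i ∈ A, i.1 ∉ B := by
  obtain ⟨b, hb⟩ := ex_b h
  obtain ⟨g, h1, h2⟩ := (hb.sdiff hB).nonempty
  exact ⟨(g, b), h1, h2⟩

variable {G I : Type} [Group G] [MulAction G I] {nb : I → Finset I} {r : I → I → Prop}
  {U : Finset I} {x : I} {D : G × Bool → Set I}

theorem side (h : St nb G r U) (hD : NF nb r x D) {y z : I} (hyz : r y z) {i : G × Bool}
    (hi : ¬ (y ∈ D i ↔ z ∈ D i)) : ∃ k : G × Bool, k.1 = i.1 ∧ y ∈ D k ∧ z ∉ D k := by
  by_cases h1 : y ∈ D i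
  · exact ⟨i, rfl, h1, fun h2 => hi (iff_of_true h1 h2)⟩
  · have h2 : z ∈ D i := by_contra fun h2 => hi (iff_of_false h1 h2)
    have h3 := hD.sub i z h2
    exact ⟨st i, rfl, (hD.cpl i y (h.eq.trans h3 (h.eq.symm hyz))).2 h1,
      fun h4 => (hD.cpl i z h3).1 h4 h2⟩

theorem stb (h : St nb G r U) (hD : NF nb r x D) (hG : NG nb r x D)
    (hS : ∀ j, {i | Sb D i j}.Infinite) : Stb G r (Rf r D) := by
  intro y
  refine or_iff_not_imp_left.2 fun hc => ?_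
  simp only [not_forall] at hc
  obtain ⟨z, h1, h2⟩ := hc
  obtain ⟨i, hi⟩ : ∃ i, ¬ (z ∈ D i ↔ y ∈ D i) := by
    by_contra h3
    exact h2 ⟨h1, fun i => (not_not.1 fun h4 => h3 ⟨i, h4⟩ : z ∈ D i ↔ y ∈ D i).symm⟩
  obtain ⟨k, -, k1, k2⟩ := side h hD (h.eq.symm h1) hi
  obtain ⟨j, hj, -⟩ := hG.m1 y z k h1 k1 k2
  obtain ⟨b, hb⟩ := ex_b (hS j)
  obtain ⟨g₀, hg₀⟩ := hb.nonempty
  have hinj : Function.Injective fun g : G => g₀ * g⁻¹ := fun g g' e =>
    inv_injective (mul_left_cancel e)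
  refine (hb.image hinj.injOn).mono ?_
  rintro _ ⟨g, hg, rfl⟩
  have h3 := hG.m5 (g₀ * g⁻¹) y _ (hG.m6 y _ j hj hg)
  have h4 : tl (g₀ * g⁻¹) (g, b) = (g₀, b) := by simp [tl]
  rw [h4] at h3
  exact hG.m3 _ _ _ h3 (hG.m6 y _ j hj hg₀)

theorem inj (h : St nb G r U) (hD : NF nb r x D) (hG : NG nb r x D)
    (hS : ∀ j, {i | Sb D i j}.Infinite) : Inj G r fun _ : Unit => D (1, true) := by
  classical
  intro c hc H u g₀
  simp only [Finset.univ_unique, Finset.sum_singleton] at H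
  have hu : u = default := Subsingleton.elim _ _
  rw [hu]
  have hc' := hc default
  generalize c default = c at H hc'
  have hp : ∀ b, ∃ p, p ∈ D (1, b) := fun b => (hD.inf _).nonempty
  choose p hp using hp
  have hpi : ∀ i : G × Bool, i.1 • p i.2 ∈ D i := fun i => by
    have := (hD.eqv i.1 (1, i.2) (p i.2)).2 (hp i.2)
    simpa [tl] using this
  have hfin : (⋃ b, Prod.fst '' {k | p b ∈ D k ∧ p (!b) ∉ D k}).Finite :=
    Set.finite_iUnion fun b => (hG.sep _ _ (h.eq.trans (h.eq.symm (hD.sub (1, b) _ (hp b)))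
      (hD.sub (1, !b) _ (hp (!b))))).image _
  have inF : ∀ i k : G × Bool, i.1 • p i.2 ∈ D k → D k ⊆ D i →
      k.1 ∈ hfin.toFinset.image fun v => i.1 * v := by
    intro i k h1 h2
    refine Finset.mem_image.2 ⟨i.1⁻¹ * k.1, hfin.mem_toFinset.2 (Set.mem_iUnion.2
      ⟨i.2, tl i.1⁻¹ k, ⟨(hD.mem_iff _ _ _).1 h1, fun h3 => ?_⟩, rfl⟩), mul_inv_cancel_left _ _⟩
    have h4 := hpi (st i)
    exact (hD.cpl i _ (hD.sub (st i) _ h4)).1 h4 (h2 ((hD.mem_iff _ _ _).2 h3))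
  generalize hfin.toFinset = F at inF
  have hm : ∀ (g : G) (y : I), g⁻¹ • y ∈ D (1, true) ↔ y ∈ D (g, true) := fun g y => by
    rw [hD.mem_iff]
    simp [tl]
  have hlim : Tendsto (fun g => ∑ v ∈ F, |c (g * v)|) cofinite (𝓝 0) := by
    simpa using tendsto_finsetSum F fun v _ =>
      (hc'.comp (mul_left_injective v).tendsto_cofinite).abs
  refine abs_nonpos_iff.1 (le_of_forall_pos_le_add fun ε hε => ?_)
  have hbad := eventually_cofinite.1 (hlim.eventually_lt_const (half_pos hε))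
  obtain ⟨i, hi, hi1⟩ := ex_out (hS (st (g₀, true))) hbad
  obtain ⟨i', hi', hi2⟩ := ex_out (hS (g₀, true)) hbad
  have hi3 : ∑ v ∈ F, |c (i.1 * v)| < ε / 2 := not_not.1 hi1
  have hi4 : ∑ v ∈ F, |c (i'.1 * v)| < ε / 2 := not_not.1 hi2
  have y1 := hpi i
  have z1 := hpi i'
  have y2 : i.1 • p i.2 ∈ D (g₀, true) := by
    have := hi.1 y1
    rwa [st_st] at this
  have z2 : i'.1 • p i'.2 ∈ D (st (g₀, true)) := hi'.1 z1
  have y3 := hD.sub _ _ y2
  have z3 : r ((g₀, true).1 • x) (i'.1 • p i'.2) := hD.sub (st (g₀, true)) _ z2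
  have z4 := (hD.cpl _ _ z3).1 z2
  have hyz := h.eq.trans (h.eq.symm y3) z3
  have hsupp : ∀ g, g ≠ g₀ → sg (D (1, true)) (g⁻¹ • i.1 • p i.2) (g⁻¹ • i'.1 • p i'.2) ≠ 0 →
      g ∈ (F.image fun v => i.1 * v) ∪ F.image fun v => i'.1 * v := by
    intro g hg h1
    rw [Ne, sg_eq_zero, hm, hm] at h1
    obtain ⟨k, rfl, k1, k2⟩ : ∃ k : G × Bool, k.1 = g ∧ _ := side h hD hyz h1
    have k3 := hD.sub _ _ k1
    have k4 := (hD.cpl k _ (h.eq.trans k3 hyz)).2 k2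
    have k5 : k ≠ (g₀, true) := fun e => hg (congrArg Prod.fst e)
    rcases hD.nest k (g₀, true) (h.eq.trans k3 (h.eq.symm y3)) with e | e | e | e
    · exact Finset.mem_union_left _ (inF i k k1
        (hG.s2 i _ k _ hi (by rwa [st_st]) (by rwa [st_st]) k1 y1))
    · exact ((hD.cpl _ _ y3).1 (e k1) y2).elim
    · exact (z4 (e k4)).elim
    · exact Finset.mem_union_right _ (inF i' (st k) k4
        (hG.s2 i' _ (st k) _ hi' e (fun e' => k5 (st_inj e')) k4 z1))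
  have H1 := H _ _ hyz
  rw [finsum_eq_sum_of_support_subset _ (s := insert g₀ (((F.image fun v => i.1 * v) ∪
    F.image fun v => i'.1 * v).erase g₀)) (fun g hg => by
      by_cases e : g = g₀
      · simp [e]
      · exact Finset.mem_coe.2 (Finset.mem_insert_of_mem (Finset.mem_erase.2
          ⟨e, hsupp g e (right_ne_zero_of_mul hg)⟩))),
    Finset.sum_insert (Finset.notMem_erase _ _)] at H1
  have e1 : sg (D (1, true)) (g₀⁻¹ • i.1 • p i.2) (g₀⁻¹ • i'.1 • p i'.2) = 1 := by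
    rw [sg, if_pos ((hm _ _).2 y2), if_neg fun e => z4 ((hm _ _).1 e), sub_zero]
  rw [e1, mul_one] at H1
  have e2 := Finset.sum_union_inter (s₁ := F.image fun v => i.1 * v)
    (s₂ := F.image fun v => i'.1 * v) (f := fun g => |c g|)
  rw [Finset.sum_image fun _ _ _ _ e => mul_left_cancel e,
    Finset.sum_image fun _ _ _ _ e => mul_left_cancel e] at e2
  have e3 : 0 ≤ ∑ g ∈ (F.image fun v => i.1 * v) ∩ F.image fun v => i'.1 * v, |c g| :=
    Finset.sum_nonneg fun _ _ => abs_nonneg _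
  have e4 : |c g₀| ≤ ∑ g ∈ (F.image fun v => i.1 * v) ∪ F.image fun v => i'.1 * v, |c g| := by
    rw [eq_neg_of_add_eq_zero_left H1, abs_neg]
    refine (Finset.abs_sum_le_sum_abs _ _).trans ((Finset.sum_le_sum fun g _ => ?_).trans
      (Finset.sum_le_sum_of_subset_of_nonneg (Finset.erase_subset g₀ _) fun _ _ _ => abs_nonneg _))
    rw [abs_mul]
    exact mul_le_of_le_one_right (abs_nonneg _) (abs_sg_le _ _ _)
  linarith

end AcNfCL

theorem nfC_stmt : NfCStmt := fun _ _ _ _ _ _ _ _ _ h hD hG hS =>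
  ⟨AcNfCL.stb h hD hG hS, AcNfCL.inj h hD hG hS⟩

end Pool.Agent.MP_4f4d9f_gt.Nc

end

section

/-! The retraction onto the atoms. -/

namespace Pool.Agent.MP_4f4d9f_gt.Nc

open Hy

namespace AcRhoL

variable {G I : Type} [Group G] [MulAction G I] {nb : I → Finset I} {r : I → I → Prop}
  {U : Finset I} {x : I} {D : G × Bool → Set I}

theorem ex (h : St nb G r U) (hD : NF nb r x D) (hG : NG nb r x D) {y z : I} (h1 : r y z)
    (h2 : ¬ Rf r D y z) : ∃ i, Mx r x D y i ∧ z ∈ D i := by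
  obtain ⟨i, hi⟩ : ∃ i, ¬ (y ∈ D i ↔ z ∈ D i) := not_forall.1 fun k => h2 ⟨h1, k⟩
  by_cases hz : z ∈ D i
  · obtain ⟨j, a1, a2⟩ := hG.m1 y z i h1 hz fun k => hi (iff_of_true k hz)
    exact ⟨j, a1, a2 hz⟩
  · have hy : y ∈ D i := by
      by_contra k
      exact hi (iff_of_false k hz)
    have h3 := hD.sub i y hy
    have h4 := (hD.cpl i z (h.eq.trans h3 h1)).2 hz
    obtain ⟨j, a1, a2⟩ := hG.m1 y z (st i) h1 h4 fun k => (hD.cpl i y h3).1 k hy
    exact ⟨j, a1, a2 h4⟩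

theorem base (hG : NG nb r x D) :
    ∃ p : Bool → I, ∀ y i, Mx r x D y i → Mx r x D (i.1 • p i.2) i := by
  have : Nonempty I := ⟨x⟩
  refine ⟨fun b => Classical.epsilon fun y => Mx r x D y (1, b), fun y i hy => ?_⟩
  have h1 := hG.m5 i.1⁻¹ y i hy
  rw [tl, inv_mul_cancel] at h1
  have h2 := hG.m5 i.1 _ _ (Classical.epsilon_spec (p := fun y => Mx r x D y (1, i.2)) ⟨_, h1⟩)
  rwa [tl, mul_one] at h2

theorem rho (hG : NG nb r x D) (P : G × Bool → I) : ∃ ρ : I → I → I,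
    (∀ y z, Rf r D y z → ρ y z = z) ∧ ∀ y z i, Mx r x D y i → z ∈ D i → ρ y z = P i := by
  classical
  refine ⟨fun y z => if k : ∃ i, Mx r x D y i ∧ z ∈ D i then P k.choose else z,
    fun y z k => dif_neg fun ⟨i, a1, a2⟩ => a1.2.1 ((k.2 i).2 a2), fun y z i a1 a2 => ?_⟩
  have k : ∃ i, Mx r x D y i ∧ z ∈ D i := ⟨i, a1, a2⟩
  exact (dif_pos k).trans (congrArg P (hG.m2 y z _ _ k.choose_spec.1 a1 k.choose_spec.2 a2))

theorem core (h : St nb G r U) (hD : NF nb r x D) (p : Bool → I) : ∃ K : Set I, K.Finite ∧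
    (∀ b, p b ∈ K) ∧ ∀ i u v, (u, v) ∈ Dl nb r (D i) → i.1⁻¹ • u ∈ K ∧ i.1⁻¹ • v ∈ K := by
  refine ⟨⋃ b, insert (p b) (Prod.fst '' Dl nb r (D (1, b)) ∪ Prod.snd '' Dl nb r (D (1, b))),
    Set.finite_iUnion fun b => (((hD.fin _).image _).union ((hD.fin _).image _)).insert _,
    fun b => Set.mem_iUnion.2 ⟨b, Or.inl rfl⟩, fun i u v k => ?_⟩
  have h1 : ∀ y, i.1⁻¹ • y ∈ D (1, i.2) ↔ y ∈ D i := fun y => by
    rw [← hD.eqv i.1⁻¹ i y, tl, inv_mul_cancel]
  have h2 : (i.1⁻¹ • u, i.1⁻¹ • v) ∈ Dl nb r (D (1, i.2)) :=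
    ⟨h.gr.eqv _ _ _ k.1, h.inv _ _ _ k.2.1, fun e => k.2.2 (by rwa [h1, h1] at e)⟩
  exact ⟨Set.mem_iUnion.2 ⟨i.2, Or.inr (Or.inl ⟨_, h2, rfl⟩)⟩,
    Set.mem_iUnion.2 ⟨i.2, Or.inr (Or.inr ⟨_, h2, rfl⟩)⟩⟩

theorem thick (h : Gr nb G) {K : Set I} (hK : K.Finite) : ∃ K' : Finset I, (∀ a ∈ K, a ∈ K') ∧
    ∀ (g : G), ∀ a ∈ K, g • a ∈ K → ∀ b ∈ K, g • b ∈ K' := by
  have h1 : (Set.image2 (fun (g : G) b => g • b) (⋃ a ∈ K, {g : G | g • a ∈ K}) K).Finite :=
    (hK.biUnion fun a _ => h.fin_smul a hK).image2 _ hK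
  have h2 : ∀ (g : G), ∀ a ∈ K, g • a ∈ K → ∀ b ∈ K, g • b ∈ h1.toFinset := fun g a a1 a2 b a3 =>
    h1.mem_toFinset.2 ⟨g, Set.mem_biUnion a1 a2, b, a3, rfl⟩
  exact ⟨_, fun a ha => by simpa only [one_smul] using h2 1 a ha (by rwa [one_smul]) a ha, h2⟩

end AcRhoL

open AcRhoL in
theorem rho_stmt : RhoStmt := by
  intro G I _ _ nb r U x D h hD hG
  obtain ⟨p, hp⟩ := base hG
  obtain ⟨ρ, h1, h2⟩ := rho hG fun i => i.1 • p i.2
  obtain ⟨K₁, k1, k2, k3⟩ := core h hD p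
  obtain ⟨K, k4, k5⟩ := thick h.gr k1
  refine ⟨K, ρ, fun nb' K' hq => ⟨fun a y e => ?_, h1, fun a y z e1 e2 e3 => ?_,
    fun a y z e1 e2 e3 => ?_, fun w a b e => ?_, fun a y e1 e2 => ?_, fun y z e1 e2 e3 => ?_⟩⟩
  · by_cases k : Rf r D a y
    · rwa [h1 a y k]
    · obtain ⟨i, a1, a2⟩ := ex h hD hG e k
      rw [h2 a y i a1 a2]
      exact hG.m3 _ _ i a1 (hp a i a1)
  · obtain ⟨i, a1, a2⟩ := ex h hD hG e1 e3
    rw [h2 a y i a1 a2, h2 a z i a1 ((e2.2 i).1 a2)]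
  · by_cases ky : Rf r D a y <;> by_cases kz : Rf r D a z
    · rw [h1 a y ky, h1 a z kz]
      exact hq.le _ _ e3
    · obtain ⟨j, a1, a2⟩ := ex h hD hG (h.eq.trans e1 e2) kz
      have a3 := k3 j y z ⟨e3, e2, fun k => a1.2.1 ((ky.2 j).2 (k.2 a2))⟩
      have a4 := hq.cq j.1 _ (k4 _ a3.1) _ (k4 _ (k2 j.2))
      rwa [smul_inv_smul, ← h1 a y ky, ← h2 a z j a1 a2] at a4
    · obtain ⟨i, a1, a2⟩ := ex h hD hG e1 ky
      have a3 := k3 i y z ⟨e3, e2, fun k => a1.2.1 ((kz.2 i).2 (k.1 a2))⟩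
      have a4 := hq.cq i.1 _ (k4 _ (k2 i.2)) _ (k4 _ a3.2)
      rwa [smul_inv_smul, ← h1 a z kz, ← h2 a y i a1 a2] at a4
    · obtain ⟨i, a1, a2⟩ := ex h hD hG e1 ky
      obtain ⟨j, b1, b2⟩ := ex h hD hG (h.eq.trans e1 e2) kz
      rw [h2 a y i a1 a2, h2 a z j b1 b2]
      rcases eq_or_ne i j with rfl | k
      · exact hq.gr.refl _
      have a3 := k3 i y z ⟨e3, e2, fun e => k (hG.m2 a z i j a1 b1 (e.1 a2) b2)⟩
      have b3 := k3 j y z ⟨e3, e2, fun e => k (hG.m2 a y i j a1 b1 a2 (e.2 b2))⟩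
      have a4 := hq.cq i.1 _ (k4 _ (k2 i.2)) _ (k5 (i.1⁻¹ * j.1) _ b3.1
        (by rw [mul_smul, smul_inv_smul]; exact a3.1) _ (k2 j.2))
      rwa [mul_smul, smul_inv_smul] at a4
  · have a1 : (⋃ c : Bool, (fun g => (g, c)) '' {g : G | g • p c ∈ ({a} : Set I)}).Finite :=
      Set.finite_iUnion fun c => (h.gr.fin_smul _ (Set.finite_singleton a)).image _
    refine (((nb a).finite_toSet.image fun c => (a, c)).union
      (a1.biUnion fun i _ => hD.fin i)).subset ?_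
    rintro ⟨u, v⟩ ⟨b1, b2, b3, b4, b5⟩
    by_cases k : Rf r D w u
    · obtain rfl : u = a := (h1 w u k).symm.trans b4
      exact Or.inl ⟨v, b1, rfl⟩
    · obtain ⟨i, a2, a3⟩ := ex h hD hG b2 k
      have a4 := (h2 w u i a2 a3).symm.trans b4
      exact Or.inr (Set.mem_biUnion (Set.mem_iUnion.2 ⟨i.2, i.1, a4, rfl⟩) ⟨b1, b3, fun c =>
        e (a4.symm.trans ((h2 w v i a2 (c.1 a3)).symm.trans b5))⟩)
  · obtain ⟨i, a1, a2⟩ := ex h hD hG e1 e2
    exact ⟨i.1, _, k4 _ (k2 i.2), (h2 a y i a1 a2).symm⟩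
  · obtain ⟨i, a1, a2⟩ := ex h hD hG e2 e3
    exact ⟨i.1, _, k4 _ (k3 i y z ⟨e1, e2, fun k => a1.2.1 (k.2 a2)⟩).1, smul_inv_smul _ _⟩

end Pool.Agent.MP_4f4d9f_gt.Nc

end

section

/-! Adding finitely many orbits of edges that make the translates of a finite set complete. -/

namespace Pool.Agent.MP_4f4d9f_gt.Nc

open Hy

namespace AcClqL

variable {G I : Type} [Group G] [MulAction G I] {nb : I → Finset I}

theorem exK0 (h : Gr nb G) (a : I) (K : Finset I) :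
    ∃ K' : Finset I, K ⊆ K' ∧ ∀ c ∈ K', Pa nb (fun u v => u ∈ K' ∧ v ∈ K') a c := by
  classical
  induction K using Finset.induction_on with
  | empty => exact ⟨∅, Finset.Subset.rfl, by simp⟩
  | insert b K _ ih =>
    obtain ⟨K₁, h1, h2⟩ := ih
    obtain ⟨K₂, -, h3, h4⟩ := (h.pa a b).finite
    refine ⟨K₁ ∪ K₂, Finset.insert_subset (Finset.mem_union_right _ h3)
      (h1.trans Finset.subset_union_left), fun c hc => (Finset.mem_union.1 hc).elim
        (fun e => (h2 c e).mono fun u v e1 e2 =>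
          ⟨e1, Finset.mem_union_left _ e2.1, Finset.mem_union_left _ e2.2⟩)
        fun e => (h4 c e).mono fun u v e1 e2 =>
          ⟨e1, Finset.mem_union_right _ e2.2.1, Finset.mem_union_right _ e2.2.2⟩⟩

theorem exK (h : Gr nb G) (K : Finset I) : ∃ K' : Finset I, K ⊆ K' ∧
    ∀ a ∈ K', ∀ b ∈ K', Pa nb (fun u v => u ∈ K' ∧ v ∈ K') a b := by
  rcases K.eq_empty_or_nonempty with rfl | ⟨a, -⟩
  · exact ⟨∅, Finset.Subset.rfl, by simp⟩
  · obtain ⟨K', h1, h2⟩ := exK0 h a K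
    exact ⟨K', h1, fun b hb c hc => ((h2 b hb).symm h.symm fun _ _ e => e.symm).trans (h2 c hc)⟩

theorem pair (h : Gr nb G) {f : I → ℝ} (hf : DirI nb f) (a b : I) :
    Summable fun g : G => (f (g • a) - f (g • b)) ^ 2 := by
  refine Pa.ind (P := fun b => Summable fun g : G => (f (g • a) - f (g • b)) ^ 2)
    (by simp) (fun b c _ h1 _ ih => ?_) (h.pa a b)
  refine ((ih.add (hf.comp_injective (h.inj b))).mul_left 2).of_nonneg_of_le
    (fun _ => sq_nonneg _) fun g => ?_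
  have := Finset.single_le_sum (f := fun y => (f (g • b) - f y) ^ 2) (fun _ _ => sq_nonneg _)
    (h.eqv g _ _ h1)
  simp only [Function.comp]
  nlinarith [sq_nonneg (f (g • a) - 2 * f (g • b) + f (g • c))]

theorem exN (h : Gr nb G) (K : Finset I) : ∃ nb' : I → Finset I,
    (∀ y z, z ∈ nb' y ↔ z ∈ nb y ∨ ∃ g : G, ∃ a ∈ K, ∃ b ∈ K, y = g • a ∧ z = g • b) ∧
    ∀ f, DirI nb f → DirI nb' f := by
  classical
  obtain ⟨τ, h1, h2⟩ : ∃ τ : I × I → I → I, (∀ p (g : G), τ p (g • p.1) = g • p.2) ∧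
      ∀ p x, x ∉ Set.range (fun g : G => g • p.1) → τ p x = x :=
    ⟨fun p => Function.extend (fun g : G => g • p.1) (fun g => g • p.2) id,
      fun p g => (h.inj p.1).extend_apply _ _ g, fun p x hx => Function.extend_apply' _ _ _ hx⟩
  refine ⟨fun y => nb y ∪ (K ×ˢ K).image fun p => τ p y, fun y z => ?_, fun f hf => ?_⟩
  · rw [Finset.mem_union, Finset.mem_image]
    refine ⟨fun e => e.elim Or.inl ?_, Or.imp_right ?_⟩
    · rintro ⟨p, hp, rfl⟩
      by_cases e : y ∈ Set.range fun g : G => g • p.1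
      · obtain ⟨g, rfl⟩ := e
        exact Or.inr ⟨g, _, (Finset.mem_product.1 hp).1, _, (Finset.mem_product.1 hp).2, rfl,
          h1 p g⟩
      · rw [h2 p y e]
        exact Or.inl (h.refl y)
    · rintro ⟨g, a, ha, b, hb, rfl, rfl⟩
      exact ⟨(a, b), Finset.mem_product.2 ⟨ha, hb⟩, h1 (a, b) g⟩
  · have h3 : ∀ p ∈ K ×ˢ K, Summable fun x => (f x - f (τ p x)) ^ 2 := fun p _ =>
      ((h.inj p.1).summable_iff fun x hx => by rw [h2 p x hx, sub_self, sq, mul_zero]).1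
        ((pair h hf p.1 p.2).congr fun g => by simp only [Function.comp, h1])
    refine (Summable.add hf (summable_sum h3)).of_nonneg_of_le
      (fun _ => Finset.sum_nonneg fun _ _ => sq_nonneg _) fun x => ?_
    refine le_trans (le_add_of_nonneg_right (Finset.sum_nonneg fun _ _ => sq_nonneg _))
      (Finset.sum_union_inter.le.trans (add_le_add le_rfl ?_))
    exact Finset.sum_image_le_of_nonneg (f := fun y => (f x - f y) ^ 2) fun _ _ => sq_nonneg _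

theorem z2 : ∀ x y z A B C : ZMod 2, x + y + z = 0 → x = B + C → z = A + B → y = A + C := by
  decide

end AcClqL

open AcClqL in
theorem clq_stmt : ClqStmt := by
  intro G I _ _ nb h K
  obtain ⟨K', hK, hp⟩ := exK h K
  obtain ⟨nb', hm, hd⟩ := exN h K'
  have le : ∀ y z, z ∈ nb y → z ∈ nb' y := fun y z e => (hm y z).2 (Or.inl e)
  have cq : ∀ (g : G), ∀ a ∈ K', ∀ b ∈ K', g • b ∈ nb' (g • a) := fun g a ha b hb =>
    (hm _ _).2 (Or.inr ⟨g, a, ha, b, hb, rfl, rfl⟩)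
  have tr : ∀ t, Tr nb t → Tr nb' t := fun t e => ⟨le _ _ e.1, le _ _ e.2.1, le _ _ e.2.2⟩
  have tr' : ∀ (g : G), ∀ a ∈ K', ∀ b ∈ K', ∀ c ∈ K', Tr nb' (g • a, g • b, g • c) :=
    fun g a ha b hb c hc => ⟨cq g a ha b hb, cq g a ha c hc, cq g b hb c hc⟩
  refine ⟨nb', K', ⟨h.tf, h.free, fun a => le _ _ (h.refl a), fun y z e => ?_, fun k y z e => ?_,
    fun a b => Relation.ReflTransGen.mono le a b (h.conn a b), fun w hw => ?_,
    fun F hF => h.c1 F (hF.subset fun e he => ⟨le _ _ he.1, he.2⟩), fun w hw => ?_⟩, le,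
    fun g a ha b hb => cq g a (hK ha) b (hK hb), fun y z e => ((hm y z).1 e).imp_right ?_, hd⟩
  · rcases (hm y z).1 e with e | ⟨g, a, ha, b, hb, rfl, rfl⟩
    · exact le _ _ (h.symm _ _ e)
    · exact cq g b hb a ha
  · rcases (hm y z).1 e with e | ⟨g, a, ha, b, hb, rfl, rfl⟩
    · exact le _ _ (h.eqv k _ _ e)
    · rw [← mul_smul, ← mul_smul]
      exact cq _ a ha b hb
  · obtain ⟨F, hF⟩ := h.c0 w fun t e => hw t (tr t e)
    refine ⟨F, fun ⟨y, z⟩ e => ?_⟩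
    rcases (hm y z).1 e with e | ⟨g, a, ha, b, hb, rfl, rfl⟩
    · exact hF _ e
    · exact Pa.ind (P := fun b => w (g • a, g • b) = d0 F (g • a, g • b)) (hF _ (h.refl _))
        (fun b c _ h1 h2 ih => z2 _ _ _ _ _ _ (hw _ (tr' g a ha b h2.1 c h2.2))
          (hF (g • b, g • c) (h.eqv g _ _ h1)) ih) (hp a ha b hb)
  · obtain ⟨F, hF⟩ := h.c2 w (hw.subset fun t e => ⟨tr t e.1, e.2⟩)
    have key : ∀ a ∈ K', ∀ b ∈ K', {g : G | w (g • a, g • b) ≠ d0 F (g • a, g • b)}.Finite := by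
      intro a ha b hb
      refine Pa.ind (P := fun b => {g : G | w (g • a, g • b) ≠ d0 F (g • a, g • b)}.Finite)
        ((h.fin_smul a (hF.image Prod.fst)).subset fun g e => ⟨_, ⟨h.refl _, e⟩, rfl⟩)
        (fun b c _ h1 h2 ih => ?_) (hp a ha b hb)
      refine ((ih.union (h.fin_smul b (hF.image Prod.fst))).union
        (h.fin_smul a (hw.image Prod.fst))).subset fun g e => by_contra fun e' => e ?_
      refine z2 _ _ _ _ _ _ (by_contra fun e1 => e' (Or.inr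
        ⟨(g • a, g • b, g • c), ⟨tr' g a ha b h2.1 c h2.2, e1⟩, rfl⟩))
        (by_contra fun e1 => e' (Or.inl (Or.inr ⟨(g • b, g • c), ⟨h.eqv g _ _ h1, e1⟩, rfl⟩)))
        (by_contra fun e1 => e' (Or.inl (Or.inl e1)))
    refine ⟨F, (hF.union (K'.finite_toSet.biUnion fun a ha => K'.finite_toSet.biUnion
      fun b hb => (key a ha b hb).image fun g => (g • a, g • b))).subset fun ⟨y, z⟩ e => ?_⟩
    rcases (hm y z).1 e.1 with e1 | ⟨g, a, ha, b, hb, rfl, rfl⟩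
    · exact Or.inl ⟨e1, e.2⟩
    · exact Or.inr (Set.mem_biUnion ha (Set.mem_biUnion hb ⟨g, e.2, rfl⟩))
  · rintro ⟨g, a, ha, -, -, rfl, -⟩
    exact ⟨g, a, ha, rfl⟩

end Pool.Agent.MP_4f4d9f_gt.Nc

end

section

/-! Composition of two cutting steps. -/

namespace Pool.Agent.MP_4f4d9f_gt.Nc

open Hy Filter Topology

namespace AcCmpL

theorem sg_congr {I : Type} {S S' : Set I} {u v : I} (h1 : u ∈ S ↔ u ∈ S') (h2 : v ∈ S ↔ v ∈ S') :
    sg S u v = sg S' u v := by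
  unfold sg
  by_cases e1 : u ∈ S' <;> by_cases e2 : v ∈ S' <;> simp [h1, h2, e1, e2]

end AcCmpL

open AcCmpL

theorem cmp_stmt : CmpStmt := by
  intro G I J J' _ _ _ _ nb nb' nb'' r r' r'' U U' U'' B B' h h' h'' R R'
  choose x hx using R'.sub
  choose Bh b1 b2 b3 b4 using fun j => R.ext (x j) (B' j) (hx j) (R'.fin j)
  have key : ∀ j u v, r' u v → sg (Bh j) u v = sg (B' j) u v := fun j u v e => by
    by_cases k : r' (x j) u
    · exact sg_congr (b3 j u k) (b3 j v (h'.eq.trans k e))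
    · rw [sg_eq_zero.2 (b4 j u v e k), sg_eq_zero.2 ⟨fun a => (k (hx j a)).elim,
        fun a => (k (h'.eq.trans (hx j a) (h'.eq.symm e))).elim⟩]
  refine ⟨Sum.elim B Bh, fun y z e => R.ref y z (R'.ref y z e), fun f e => R'.dir f (R.dir f e),
    ?_, ?_, ?_, ?_, fun y => ?_, fun y S hS hf => ?_⟩
  · rintro (j | j)
    · exact R.sub j
    · exact ⟨x j, b1 j⟩
  · rintro (j | j)
    · exact R.fin j
    · exact b2 j
  · rintro (j | j) y z e
    · exact R.sat j y z (R'.ref y z e)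
    · exact sg_eq_zero.1 ((key j y z (R'.ref y z e)).trans (sg_eq_zero.2 (R'.sat j y z e)))
  · intro c hc H
    simp only [Fintype.sum_sum_type, Sum.elim_inl, Sum.elim_inr] at H
    have h2 : ∀ j g, c (.inr j) g = 0 := R'.inj (fun j => c (.inr j)) (fun j => hc _) fun y z e => by
      have h1 := H y z (R.ref y z e)
      simp only [fun j g => sg_eq_zero.2 (R.sat j _ _ (h'.inv g⁻¹ y z e)),
        fun j g => key j _ _ (h'.inv g⁻¹ y z e), mul_zero, finsum_zero, Finset.sum_const_zero,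
        zero_add] at h1
      exact h1
    have h3 : ∀ j g, c (.inl j) g = 0 := R.inj (fun j => c (.inl j)) (fun j => hc _) fun y z e => by
      have h1 := H y z e
      simp only [h2, zero_mul, finsum_zero, Finset.sum_const_zero, add_zero] at h1
      exact h1
    rintro (j | j)
    · exact h3 j
    · exact h2 j
  · rcases R'.stb y with k' | k'
    · refine (R.stb y).imp (fun k z e => k' z (k z e)) fun k => k.mono fun g e => ?_
      exact h''.eq.symm (k' _ (h'.eq.symm e))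
    · exact Or.inr k'
  · obtain ⟨S₁, a1, a2, a3, a4⟩ := R'.ext y S hS hf
    obtain ⟨S₂, c1, c2, c3, c4⟩ := R.ext y S₁ a1 a2
    refine ⟨S₂, c1, c2, fun z e => (c3 z (R'.ref y z e)).trans (a3 z e), fun z w e k => ?_⟩
    by_cases k' : r' y z
    · exact (c3 z k').trans ((a4 z w e k).trans (c3 w (h'.eq.trans k' (R'.ref z w e))).symm)
    · exact c4 z w (R'.ref z w e) k'

end Pool.Agent.MP_4f4d9f_gt.Nc

end

section

/-! The inner wall of a complementary component is connected. -/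

namespace Pool.Agent.MP_4f4d9f_gt.Nc

open Hy

namespace AcWallL

open Classical in
theorem tri (Va Vb Vc Qa Qb Qc : Prop) (h1 : Qa → ¬ Va) (h2 : Qb → ¬ Vb) (h3 : Qc → ¬ Vc)
    (k1 : Va → ¬ Vb → ¬ Vc → (Qb ↔ Qc)) (k2 : Vb → ¬ Va → ¬ Vc → (Qa ↔ Qc))
    (k3 : Vc → ¬ Va → ¬ Vb → (Qa ↔ Qb)) :
    (if Qb ∧ Vc ∨ Qc ∧ Vb then 1 else 0 : ZMod 2) + (if Qa ∧ Vc ∨ Qc ∧ Va then 1 else 0) +
      (if Qa ∧ Vb ∨ Qb ∧ Va then 1 else 0) = 0 := by
  have e : (1 : ZMod 2) + 1 = 0 := by decide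
  by_cases a1 : Va <;> by_cases a2 : Vb <;> by_cases a3 : Vc <;> by_cases b1 : Qa <;>
    by_cases b2 : Qb <;> by_cases b3 : Qc <;> simp_all

variable {G I : Type} [Group G] [MulAction G I] {nb : I → Finset I} {V : Set I}

theorem conn (h : Gr nb G) (hV : ∀ a ∈ V, ∀ b ∈ V, Pa nb (fun u v => u ∈ V ∧ v ∈ V) a b)
    (y z : I) (hy : Wl nb V y) (hz : Wl nb V z) (hr : rV nb V y z) :
    Pa nb (fun u v => Wl nb V u ∧ Wl nb V v) y z := by
  classical
  rcases hr with rfl | hr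
  · exact Pa.refl _ _
  obtain ⟨Q, hQ⟩ : ∃ Q : I → Prop, Q = Pa nb (fun u v => Wl nb V u ∧ Wl nb V v) y := ⟨_, rfl⟩
  have q1 : ∀ u, Q u → u ∉ V := fun u hu => by
    rw [hQ] at hu
    exact (Pa.ind (P := fun u => Wl nb V u) hy (fun _ _ _ _ k _ => k.2) hu).1
  have q2 : ∀ a u v, u ∈ nb a → v ∈ nb a → v ∈ nb u → a ∈ V → u ∉ V → v ∉ V → (Q u ↔ Q v) := by
    intro a u v k1 k2 k3 k4 k5 k6
    have w1 : Wl nb V u := ⟨k5, a, h.symm _ _ k1, k4⟩
    have w2 : Wl nb V v := ⟨k6, a, h.symm _ _ k2, k4⟩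
    rw [hQ]
    exact ⟨fun k => k.tail k3 ⟨w1, w2⟩, fun k => k.tail (h.symm _ _ k3) ⟨w2, w1⟩⟩
  obtain ⟨F, hF⟩ := h.c0 (fun e => if Q e.1 ∧ e.2 ∈ V ∨ Q e.2 ∧ e.1 ∈ V then 1 else 0) (by
    rintro ⟨a, b, c⟩ ⟨k1, k2, k3⟩
    exact tri _ _ _ _ _ _ (q1 a) (q1 b) (q1 c) (q2 a b c k1 k2 k3)
      (q2 b a c (h.symm _ _ k1) k3 k2) (q2 c a b (h.symm _ _ k2) (h.symm _ _ k3) k1))
  have f0 : ∀ u v, v ∈ nb u → (u ∈ V ↔ v ∈ V) → F v = F u := fun u v k1 k2 => by
    have := hF (u, v) k1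
    rw [if_neg (fun k => k.elim (fun k => q1 u k.1 (k2.2 k.2)) fun k => q1 v k.1 (k2.1 k.2))] at this
    exact (by decide : ∀ a b : ZMod 2, 0 = a + b → b = a) _ _ this
  obtain ⟨y0, a, ya, ha⟩ := hy
  obtain ⟨z0, b, zb, hb⟩ := hz
  have f1 : F z = F y := Pa.ind (P := fun u => F u = F y) rfl
    (fun u v _ k1 k2 ih => (f0 u v k1 (iff_of_false k2.1 k2.2)).trans ih) hr
  have f2 : F b = F a := Pa.ind (P := fun u => F u = F a) rfl
    (fun u v _ k1 k2 ih => (f0 u v k1 (iff_of_true k2.1 k2.2)).trans ih) (hV a ha b hb)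
  have e1 := hF (y, a) ya
  have e2 := hF (z, b) zb
  rw [if_pos (Or.inl ⟨hQ ▸ Pa.refl _ _, ha⟩)] at e1
  simp only [d0] at e1 e2
  rw [f1, f2, ← e1] at e2
  by_contra hc
  rw [if_neg (fun k => k.elim (fun k => hc (hQ ▸ k.1)) fun k => z0 k.2)] at e2
  exact zero_ne_one e2

theorem off {x y : I} (h : rV nb V x y) : x = y ∨ x ∉ V ∧ y ∉ V := by
  rcases h with h | h
  · exact Or.inl h
  · exact Pa.ind (P := fun y => x = y ∨ x ∉ V ∧ y ∉ V) (Or.inl rfl)
      (fun u v _ _ k ih => Or.inr ⟨ih.elim (fun e => e ▸ k.1) And.left, k.2⟩) h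

end AcWallL

open AcWallL in
theorem wall_stmt : WallStmt := by
  intro G I _ _ nb h V hV
  refine ⟨conn h hV, ?_⟩
  rintro ⟨v, hv⟩ hi ⟨T, hT⟩
  classical
  have hi' : ∀ (g : G) a, g • a ∈ V → a ∈ V := fun g a k => by simpa using hi g⁻¹ _ k
  have u2 : ∀ x, ∀ a ∈ nb x, a ∈ V → x ∈ Orb G ((T.filter (· ∈ V)).biUnion nb) := by
    intro x a k1 k2
    obtain ⟨g, t, ht, rfl⟩ := hT k2
    refine ⟨g, g⁻¹ • x, Finset.mem_biUnion.2 ⟨t, Finset.mem_filter.2 ⟨ht, hi' g t k2⟩, ?_⟩,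
      smul_inv_smul _ _⟩
    simpa using h.eqv g⁻¹ _ _ (h.symm _ _ k1)
  have u3 : ∀ x ∈ Orb G ((T.filter (· ∈ V)).biUnion nb), x ∉ V → Wl nb V x := by
    rintro _ ⟨g, s, hs, rfl⟩ k
    obtain ⟨t, k1, k2⟩ := Finset.mem_biUnion.1 hs
    exact ⟨k, g • t, h.eqv g _ _ (h.symm _ _ k2), hi g t (Finset.mem_filter.1 k1).2⟩
  have tr : ∀ {x y z}, rV nb V x y → rV nb V y z → rV nb V x z := by
    rintro x y z (rfl | k1) (rfl | k2)
    exacts [Or.inl rfl, Or.inr k2, Or.inr k1, Or.inr (k1.trans k2)]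
  have sg : ∀ {x y}, y ∈ nb x → x ∉ V → y ∉ V → rV nb V x y :=
    fun k1 k2 k3 => Or.inr (Pa.single k1 ⟨k2, k3⟩)
  refine ⟨(T.filter (· ∈ V)).biUnion nb, h, ⟨fun _ => Or.inl rfl,
    fun k => k.imp Eq.symm (Pa.symm h.symm fun _ _ => And.symm), tr⟩, fun g x y k => ?_,
    fun x y k => ?_, fun x y k1 k2 => ?_, fun x => ?_, fun x y k1 k2 k3 => ?_⟩
  · exact k.imp (congrArg _) (Pa.map (g • ·) fun a b k1 k2 =>
      ⟨h.eqv g _ _ k1, fun e => k2.1 (hi' g a e), fun e => k2.2 (hi' g b e)⟩)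
  · rcases k with rfl | k
    · exact Pa.refl _ _
    · refine k.mono fun a b k1 k2 => ?_
      exact ⟨k1, sg k1 k2.1 k2.2⟩
  · by_cases hx : x ∈ V
    · exact u2 x x (h.refl x) hx
    · exact u2 x y k1 (by_contra fun hy => k2 (sg k1 hx hy))
  · by_cases hx : x ∈ V
    · exact ⟨x, u2 x x (h.refl x) hx, Or.inl rfl⟩
    · obtain ⟨a, b, -, k1, -, k2, k3⟩ := (h.pa x v).cross (S := {u | u ∉ V ∧ rV nb V x u})
        ⟨hx, Or.inl rfl⟩ fun k => k.1 hv
      exact ⟨a, u2 a b k1 (by_contra fun hb => k3 ⟨hb, tr k2.2 (sg k1 k2.1 hb)⟩), k2.2⟩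
  · rcases off k3 with rfl | ⟨hx, hy⟩
    · exact Pa.refl _ _
    · refine (conn h hV x y (u3 x k1 hx) (u3 y k2 hy) k3).mono fun a b k4 k5 => ?_
      obtain ⟨⟨a0, a', a1, a2⟩, b0, b', b1, b2⟩ := k5
      exact ⟨k4, sg k4 a0 b0, u2 a a' a1 a2, u2 b b' b1 b2⟩

end Pool.Agent.MP_4f4d9f_gt.Nc

end

section

/-! A cocompact set with one orbit of components and no cocompact complementary component. -/

namespace Pool.Agent.MP_4f4d9f_gt.Nc

open Hy

namespace AcPrepL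

variable {G I : Type} [Group G] [MulAction G I] {nb : I → Finset I}

theorem rV_iff (V : Set I) (y z : I) : rV nb V y z ↔ Pa nb (fun a b => a ∉ V ∧ b ∉ V) y z :=
  ⟨fun h => h.elim (fun e => e ▸ Pa.refl _ _) id, Or.inr⟩

theorem hull (h : Gr nb G) (x₀ : I) (E : Finset I) : ∃ K : Finset I, E ⊆ K ∧ x₀ ∈ K ∧
    ∀ c ∈ K, Pa nb (fun u v => u ∈ K ∧ v ∈ K) x₀ c := by
  classical
  induction E using Finset.induction_on with
  | empty =>
    exact ⟨{x₀}, by simp, by simp, fun c hc => by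
      rw [Finset.mem_singleton.1 hc]; exact Pa.refl _ _⟩
  | insert a E _ ih =>
    obtain ⟨K, h1, h2, h3⟩ := ih
    obtain ⟨L, -, h5, h6⟩ := (h.pa x₀ a).finite
    refine ⟨K ∪ L, Finset.insert_subset (Finset.mem_union_right _ h5)
      (h1.trans Finset.subset_union_left), Finset.mem_union_left _ h2, fun c hc => ?_⟩
    rcases Finset.mem_union.1 hc with hc | hc
    · exact (h3 c hc).mono fun u v e1 e2 =>
        ⟨e1, Finset.mem_union_left _ e2.1, Finset.mem_union_left _ e2.2⟩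
    · exact (h6 c hc).mono fun u v e1 e2 =>
        ⟨e1, Finset.mem_union_right _ e2.2.1, Finset.mem_union_right _ e2.2.2⟩

variable (nb G) in
/-- Paths off the orbits of `K`. -/
def Off (K : Finset I) : I → I → Prop := Pa nb fun a b => a ∉ Orb G K ∧ b ∉ Orb G K

variable {K : Finset I}

theorem off_symm (h : Gr nb G) {y z : I} (h1 : Off G nb K y z) : Off G nb K z y :=
  Pa.symm h.symm (fun _ _ e => e.symm) h1

theorem off_smul (h : Gr nb G) (g : G) {y z : I} (h1 : Off G nb K y z) :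
    Off G nb K (g • y) (g • z) :=
  Pa.map (fun a => g • a) (fun a b e1 e2 => ⟨h.eqv g a b e1,
    fun e => e2.1 ((orb_smul_iff g).1 e), fun e => e2.2 ((orb_smul_iff g).1 e)⟩) h1

theorem coc_rel {y z : I} (h1 : Off G nb K y z) (h2 : Coc G (cls (Off G nb K) y)) :
    Coc G (cls (Off G nb K) z) := h2.mono fun _ e => Pa.trans h1 e

theorem coc_smul (h : Gr nb G) (g : G) {y : I} (h2 : Coc G (cls (Off G nb K) y)) :
    Coc G (cls (Off G nb K) (g • y)) :=
  h2.imp fun _ hT z hz => (orb_smul_iff g⁻¹).1 (hT (by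
    have h1 := off_smul h g⁻¹ hz
    rwa [inv_smul_smul] at h1))

theorem exit (h : Gr nb G) {x₀ y : I} (hx : x₀ ∈ K) (hy : y ∉ Orb G K) :
    ∃ u, Off G nb K y u ∧ ∃ g : G, ∃ t ∈ K, g • t ∈ nb u := by
  obtain ⟨u, v, -, h1, -, h2, h3⟩ := (h.pa y x₀).cross
    (S := {u | u ∉ Orb G K ∧ Off G nb K y u}) ⟨hy, Pa.refl _ _⟩ fun e => e.1 (mem_orb hx)
  have h4 : v ∈ Orb G K := by
    by_contra h4
    exact h3 ⟨h4, Pa.tail h2.2 h1 ⟨h2.1, h4⟩⟩
  obtain ⟨g, t, ht, rfl⟩ := h4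
  exact ⟨u, h2.2, g, t, ht, h1⟩

end AcPrepL

open AcPrepL

theorem prep_stmt : PrepStmt := by
  classical
  intro G I _ _ nb h E₀ x₀
  obtain ⟨K, h1, h2, h3⟩ := hull h x₀ E₀
  have hinv : ∀ (g : G), ∀ a ∈ {y | y ∈ Orb G K ∨ Coc G (cls (Off G nb K) y)},
      g • a ∈ {y | y ∈ Orb G K ∨ Coc G (cls (Off G nb K) y)} :=
    fun g a ha => ha.imp (orb_smul g) (coc_smul h g)
  refine ⟨{y | y ∈ Orb G K ∨ Coc G (cls (Off G nb K) y)},
    fun y hy => Or.inl (orb_mono (fun t ht => mem_orb (h1 ht)) hy), Or.inl (mem_orb h2), hinv,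
    ?_, ?_, ?_⟩
  · have h4 : ∀ b, ∃ T : Finset I, Coc G (cls (Off G nb K) b) → cls (Off G nb K) b ⊆ Orb G T := by
      intro b
      by_cases h5 : Coc G (cls (Off G nb K) b)
      · exact h5.imp fun _ e _ => e
      · exact ⟨∅, fun e => (h5 e).elim⟩
    choose T hT using h4
    refine ⟨K ∪ (K.biUnion nb).biUnion T, fun y hy => ?_⟩
    by_cases h5 : y ∈ Orb G K
    · exact orb_mono (fun t ht => mem_orb (Finset.mem_union_left _ ht)) h5
    obtain ⟨u, h6, g, t, ht, h7⟩ := exit h h2 h5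
    have h8 := h.eqv g⁻¹ _ _ (h.symm _ _ h7)
    rw [inv_smul_smul] at h8
    have h9 := hT _ (coc_smul h g⁻¹ (coc_rel h6 (hy.resolve_left h5)))
      (off_smul h g⁻¹ (off_symm h h6))
    exact (orb_smul_iff g⁻¹).1 (orb_mono (fun s hs => mem_orb (Finset.mem_union_right _
      (Finset.mem_biUnion.2 ⟨_, Finset.mem_biUnion.2 ⟨t, ht, h8⟩, hs⟩))) h9)
  · have h4 : ∀ t ∈ K, Pa nb (fun u v => u ∈ {y | y ∈ Orb G K ∨ Coc G (cls (Off G nb K) y)} ∧
        v ∈ {y | y ∈ Orb G K ∨ Coc G (cls (Off G nb K) y)}) x₀ t := fun t ht =>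
      (h3 t ht).mono fun u v e1 e2 => ⟨e1, Or.inl (mem_orb e2.1), Or.inl (mem_orb e2.2)⟩
    intro y hy
    by_cases h5 : y ∈ Orb G K
    · obtain ⟨g, t, ht, rfl⟩ := h5
      exact ⟨g⁻¹, by rw [inv_smul_smul]; exact h4 t ht⟩
    obtain ⟨u, h6, g, t, ht, h7⟩ := exit h h2 h5
    have hc := hy.resolve_left h5
    have h8 := Pa.ind (P := fun b => Pa nb (fun u v =>
        u ∈ {y | y ∈ Orb G K ∨ Coc G (cls (Off G nb K) y)} ∧
        v ∈ {y | y ∈ Orb G K ∨ Coc G (cls (Off G nb K) y)}) y b) (Pa.refl _ _)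
      (fun b c e0 e1 e2 ih => ih.tail e1
        ⟨Or.inr (coc_rel e0 hc), Or.inr (coc_rel (Pa.tail e0 e1 e2) hc)⟩) h6
    have h9 := Pa.map (nb' := nb) (q := fun u v =>
        u ∈ {y | y ∈ Orb G K ∨ Coc G (cls (Off G nb K) y)} ∧
        v ∈ {y | y ∈ Orb G K ∨ Coc G (cls (Off G nb K) y)}) (fun a => g⁻¹ • a)
      (fun a b e1 e2 => ⟨h.eqv _ a b e1, hinv _ a e2.1, hinv _ b e2.2⟩)
      (h8.tail h7 ⟨Or.inr (coc_rel h6 hc), Or.inl (orb_smul g (mem_orb ht))⟩)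
    simp only [inv_smul_smul] at h9
    exact ⟨g⁻¹, (h4 t ht).trans (h9.symm h.symm fun _ _ e => e.symm)⟩
  · intro y hy hc
    refine hy (Or.inr (hc.mono fun z hz => (rV_iff _ _ _).2 ?_))
    refine Pa.ind (P := fun b => Pa nb (fun u v =>
        u ∉ {y | y ∈ Orb G K ∨ Coc G (cls (Off G nb K) y)} ∧
        v ∉ {y | y ∈ Orb G K ∨ Coc G (cls (Off G nb K) y)}) y b) (Pa.refl _ _)
      (fun b c e0 e1 e2 ih => ih.tail e1 ⟨fun e => ?_, fun e => ?_⟩) hz
    · exact hy (Or.inr (coc_rel (off_symm h e0) (e.resolve_left e2.1)))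
    · exact hy (Or.inr (coc_rel (off_symm h (Pa.tail e0 e1 e2)) (e.resolve_left e2.2)))

end Pool.Agent.MP_4f4d9f_gt.Nc

end

section

/-! Gluing: the global statement follows from accessibility. -/

namespace Pool.Agent.MP_4f4d9f_gt.Nc

open Hy

namespace AcGLL

variable {G I : Type} [Group G] [MulAction G I] {nb : I → Finset I}

theorem gr_sub (h : Gr nb G) (H : Subgroup G) : Gr nb H where
  tf g hg := Subtype.ext (h.tf g (H.subtype.isOfFinOrder hg))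
  free g a e := Subtype.ext (h.free g a e)
  refl := h.refl
  symm := h.symm
  eqv g := h.eqv g
  conn := h.conn
  c0 := h.c0
  c1 := h.c1
  c2 := h.c2

theorem coc_sub {H : Subgroup G} {X : Set I} (h : Coc H X) : Coc G X :=
  h.imp fun _ hT _ hx => (hT hx).elim fun g hg => ⟨g, hg⟩

theorem dir_smul (h : Gr nb G) {f : I → ℝ} (hf : DirI nb f) (g : G) :
    DirI nb fun u => f (g • u) :=
  (hf.comp_injective (MulAction.injective g)).congr fun x =>
    (Finset.sum_equiv (MulAction.toPerm g) (fun y => (h.eqv_iff g x y).symm) fun _ _ => rfl).symm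

theorem rV_in {W : Set I} {u w : I} (h : rV nb W u w) (hu : u ∈ W) : w = u :=
  h.elim Eq.symm (Pa.ind (P := fun b => b = u) rfl fun _ _ _ _ h2 ih => (h2.1 (ih ▸ hu)).elim)

theorem pa_out {W : Set I} {u w : I} (h : Pa nb (fun a b => a ∉ W ∧ b ∉ W) u w) (hu : u ∉ W) :
    w ∉ W := Pa.ind (P := fun b => b ∉ W) hu (fun _ _ _ _ h2 _ => h2.2) h

theorem exists_wl (h : Gr nb G) {W : Set I} {x u : I} (hx : x ∈ W) (hu : u ∉ W) :
    ∃ w, Wl nb W w ∧ rV nb W u w := by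
  obtain ⟨a, b, -, h1, -, h2, h3⟩ := (h.pa u x).cross
    (S := {w | Pa nb (fun a b => a ∉ W ∧ b ∉ W) u w}) (Pa.refl _ _) fun e => pa_out e hu hx
  exact ⟨a, ⟨pa_out h2 hu, b, h1, by_contra fun e => h3 (Pa.tail h2 h1 ⟨pa_out h2 hu, e⟩)⟩,
    Or.inr h2⟩

/-- One value on the wall of a component. -/
theorem wall_const (h : Gr nb G) {W : Set I} {x : I} (hx : x ∈ W) (he : Equivalence (rV nb W))
    (hS : GoalS nb G (rV nb W))
    (hW : ∀ y z, Wl nb W y → Wl nb W z → rV nb W y z →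
      Pa nb (fun u v => Wl nb W u ∧ Wl nb W v) y z)
    (hn : ∀ y, Wl nb W y → ¬ Coc G (cls (rV nb W) y)) {f : I → ℝ} (hf : DirI nb f)
    (hc : ∀ a b, b ∈ nb a → Wl nb W a → Wl nb W b → f a = f b) {y z : I} (hy : Wl nb W y)
    (hz : Wl nb W z) : f y = f z := by
  classical
  have rel : ∀ y z, Wl nb W y → Wl nb W z → rV nb W y z → f y = f z := fun y z hy hz e =>
    Pa.ind (P := fun b => f y = f b) rfl (fun b c _ h1 h2 ih => ih.trans (hc b c h1 h2.1 h2.2))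
      (hW y z hy hz e)
  choose om h1 h2 using fun u (hu : u ∉ W) => exists_wl h hx hu
  obtain ⟨f', hf'⟩ : ∃ f' : I → ℝ, f' = fun u => if hu : u ∈ W then f u else f (om u hu) :=
    ⟨_, rfl⟩
  have e1 : ∀ u ∈ W, f' u = f u := fun u hu => by rw [hf']; exact dif_pos hu
  have e2 : ∀ u (hu : u ∉ W), f' u = f (om u hu) := fun u hu => by rw [hf']; exact dif_neg hu
  have e3 : ∀ u, Wl nb W u → f' u = f u := fun u hu =>
    (e2 u hu.1).trans (rel _ _ hu (h1 u hu.1) (h2 u hu.1)).symm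
  have sat : ∀ u w, rV nb W u w → f' u = f' w := fun u w e => by
    by_cases hu : u ∈ W
    · rw [rV_in e hu]
    · have hw : w ∉ W := fun hw => hu (rV_in (he.symm e) hw ▸ hw)
      rw [e2 u hu, e2 w hw]
      exact rel _ _ (h1 u hu) (h1 w hw) (he.trans (he.symm (h2 u hu)) (he.trans e (h2 w hw)))
  have hd : DirI nb f' := by
    refine Summable.of_nonneg_of_le (fun _ => Finset.sum_nonneg fun _ _ => sq_nonneg _)
      (fun a => Finset.sum_le_sum fun b hb => ?_) hf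
    by_cases ha' : a ∈ W <;> by_cases hb' : b ∈ W
    · rw [e1 a ha', e1 b hb']
    · rw [e1 a ha', e3 b ⟨hb', a, h.symm _ _ hb, ha'⟩]
    · rw [e3 a ⟨ha', b, hb, hb'⟩, e1 b hb']
    · rw [sat a b (Or.inr (Pa.single hb ⟨ha', hb'⟩)), sub_self, zero_pow two_ne_zero]
      exact sq_nonneg _
  rw [← e3 y hy, ← e3 z hz]
  exact hS f' hd sat y z (hn y hy) (hn z hz)

end AcGLL

open AcGLL

theorem gl_stmt : GLStmt := by
  classical
  intro hW hP hA G I _ _ nb h E₀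
  rcases isEmpty_or_nonempty I with hI | ⟨⟨x₀⟩⟩
  · exact ⟨∅, fun _ _ _ x => isEmptyElim x⟩
  obtain ⟨V, p1, p2, p3, ⟨T, p4⟩, p5, p6⟩ := hP G I nb h E₀ x₀
  have p3' : ∀ (g : G) a, a ∉ V → g • a ∉ V := fun g a ha e =>
    ha (by simpa using p3 g⁻¹ _ e)
  obtain ⟨W, hW0⟩ : ∃ W : Set I, ∀ y, y ∈ W ↔ Pa nb (fun u v => u ∈ V ∧ v ∈ V) x₀ y :=
    ⟨{y | Pa nb (fun u v => u ∈ V ∧ v ∈ V) x₀ y}, fun _ => Iff.rfl⟩
  have tr : ∀ (g : G) {a b : I}, Pa nb (fun u v => u ∈ V ∧ v ∈ V) a b →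
      Pa nb (fun u v => u ∈ V ∧ v ∈ V) (g • a) (g • b) := fun g _ _ e =>
    e.map (g • ·) fun a b h1 h2 => ⟨h.eqv g a b h1, p3 g a h2.1, p3 g b h2.2⟩
  have sy : ∀ {a b : I}, Pa nb (fun u v => u ∈ V ∧ v ∈ V) a b →
      Pa nb (fun u v => u ∈ V ∧ v ∈ V) b a := fun e => e.symm h.symm fun _ _ => And.symm
  have w0 : x₀ ∈ W := (hW0 _).2 (Pa.refl _ _)
  have w1 : ∀ y ∈ W, y ∈ V := fun y hy =>
    Pa.ind (P := fun b => b ∈ V) p2 (fun _ _ _ _ h2 _ => h2.2) ((hW0 y).1 hy)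
  have w2 : ∀ u ∈ W, ∀ v ∈ nb u, v ∈ V → v ∈ W := fun u hu v h1 h2 =>
    (hW0 v).2 (((hW0 u).1 hu).tail h1 ⟨w1 u hu, h2⟩)
  have w3 : ∀ y, Wl nb W y → y ∉ V := fun y ⟨h1, a, h2, h3⟩ e => h1 (w2 a h3 y (h.symm _ _ h2) e)
  have w4 : ∀ g : G, g • x₀ ∈ W → ∀ a ∈ W, g • a ∈ W := fun g hg a ha =>
    (hW0 _).2 (((hW0 _).1 hg).trans (tr g ((hW0 _).1 ha)))
  have w5 : ∀ (g : G), ∀ a ∈ W, g • a ∈ W → g • x₀ ∈ W := fun g a ha hg =>
    (hW0 _).2 (((hW0 _).1 hg).trans (sy (tr g ((hW0 _).1 ha))))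
  let H : Subgroup G :=
    { carrier := {g | g • x₀ ∈ W}
      one_mem' := by simpa using w0
      mul_mem' := fun {g k} hg hk => by
        have := w4 g hg _ hk
        rwa [← mul_smul] at this
      inv_mem' := fun {g} hg => w5 g⁻¹ _ hg (by simpa using w0) }
  have w6 : ∀ a ∈ W, Pa nb (fun u v => u ∈ W ∧ v ∈ W) x₀ a := fun a ha =>
    Pa.ind (P := fun b => Pa nb (fun u v => u ∈ W ∧ v ∈ W) x₀ b) (Pa.refl _ _)
      (fun b c h0 h1 h2 ih => ih.tail h1 ⟨(hW0 b).2 h0, (hW0 c).2 (h0.tail h1 h2)⟩) ((hW0 a).1 ha)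
  have w7 : Coc H W := by
    have : ∀ t : I, ∃ k : G, ∀ g : G, g • t ∈ W → k • t ∈ W := fun t => by
      by_cases e : ∃ g : G, g • t ∈ W
      · exact e.imp fun _ hk _ _ => hk
      · exact ⟨1, fun g hg => (e ⟨g, hg⟩).elim⟩
    choose k hk using this
    refine ⟨T.image fun t => k t • t, fun y hy => ?_⟩
    obtain ⟨g, t, ht, rfl⟩ := p4 (w1 y hy)
    have e : (g * (k t)⁻¹) • k t • t = g • t := by rw [mul_smul, inv_smul_smul]
    exact ⟨⟨g * (k t)⁻¹, w5 _ _ (hk t g hy) (e ▸ hy)⟩, _, Finset.mem_image_of_mem _ ht, e⟩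
  obtain ⟨a1, a2⟩ := hW H I nb (gr_sub h H) W fun a ha b hb =>
    ((w6 a ha).symm h.symm fun _ _ => And.symm).trans (w6 b hb)
  obtain ⟨U, hU⟩ := a2 ⟨x₀, w0⟩ (fun g => w4 g g.2) w7
  have hn : ∀ y, Wl nb W y → ¬ Coc H (cls (rV nb W) y) := fun y hy e =>
    p6 y (w3 y hy) ((coc_sub e).mono fun z hz => Or.imp id (fun e' => e'.mono fun a b h1 h2 =>
      ⟨h1, fun k => h2.1 (w1 a k), fun k => h2.2 (w1 b k)⟩) hz)
  refine ⟨T, fun f hf hc x y hx hy => ?_⟩
  have hc' : ∀ a b, b ∈ nb a → a ∉ V → b ∉ V → f a = f b := fun a b h1 h2 h3 =>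
    hc a b h1 (fun e => h2 (p1 e)) fun e => h3 (p1 e)
  have key : ∀ (g : G) y z, Wl nb W y → Wl nb W z → f (g • y) = f (g • z) := fun g y z hy hz =>
    wall_const (gr_sub h H) w0 hU.eq (hA H I nb _ U hU) a1 hn (dir_smul h hf g)
      (fun a b h1 h2 h3 => hc' _ _ (h.eqv g a b h1) (p3' g a (w3 a h2)) (p3' g b (w3 b h3))) hy hz
  have fin := Pa.ind (P := fun u => (u ∉ V ∧ f u = f x) ∨
      (u ∈ V ∧ ∀ g : G, g • u ∈ W → ∀ z, Wl nb W z → f (g⁻¹ • z) = f x))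
    (Or.inl ⟨fun e => hx (p4 e), rfl⟩) (fun b c _ h1 _ ih => by
      by_cases h2 : c ∈ V
      · refine Or.inr ⟨h2, fun g hg z hz => ?_⟩
        rcases ih with ⟨h3, h4⟩ | ⟨h3, h4⟩
        · rw [key g⁻¹ z (g • b) hz ⟨fun e => p3' g b h3 (w1 _ e), _, h.eqv g _ _ h1, hg⟩,
            inv_smul_smul, h4]
        · exact h4 g (w2 _ hg _ (h.eqv g _ _ (h.symm _ _ h1)) (p3 g b h3)) z hz
      · refine Or.inl ⟨h2, ?_⟩
        rcases ih with ⟨h3, h4⟩ | ⟨h3, h4⟩
        · exact (hc' b c h1 h3 h2).symm.trans h4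
        · obtain ⟨g, hg⟩ := p5 b h3
          have := h4 g ((hW0 _).2 hg) (g • c)
            ⟨fun e => p3' g c h2 (w1 _ e), _, h.eqv g _ _ (h.symm _ _ h1), (hW0 _).2 hg⟩
          rwa [inv_smul_smul] at this) (h.pa x y)
  exact (fin.resolve_right fun e => hy (p4 e.1)).2.symm

end Pool.Agent.MP_4f4d9f_gt.Nc

end

section

/-! From graphs with regions to the model with cone vertices: statements. -/

namespace Pool.Agent.MP_4f4d9f_gt.Nc

open Hy

variable {G I Ω : Type} [Group G] [MulAction G I] [MulAction G Ω] (nb : I → Finset I)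
  (r : I → I → Prop) (N : Rk.Net G Ω) (π : I → Ω) (β : I → G) (Φ : Finset I) (x₀ : I)

/-- The comparison of a state with a net. -/
structure MD : Prop where
  piv : ∀ (g : G) x, π (g • x) = g • π x
  bev : ∀ (g : G) x, β (g • x) = g * β x
  rel : ∀ a b, r a b → π a = π b
  base : x₀ ∈ Φ
  con : ∀ a ∈ Φ, Pa nb (fun u v => u ∈ Φ ∧ v ∈ Φ) x₀ a
  nbr : ∀ a b, b ∈ nb a → ¬ r a b → ∀ c ∈ nb a, (β a)⁻¹ • c ∈ Φ
  sS : ∀ s, s ∈ N.S ↔ ∃ a ∈ Φ, s • a ∈ Φ
  sT : ∀ τ, τ ∈ N.T ↔ (∃ a ∈ Φ, π a = τ) ∨ ∃ s ∈ N.S, s • N.o = τ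
  small : ∀ a, Coc G (cls r a) → π a = β a • N.o ∧ (β a)⁻¹ • a ∈ Φ
  big : ∀ a, ¬ Coc G (cls r a) → Rk.Cone N (π a) ∧ ∀ b, π b = π a → r a b
  surj : ∀ ω, Rk.Cone N ω → ∃ a, ¬ Coc G (cls r a) ∧ π a = ω

open Classical in
/-- The pull back of a `1`-cochain. -/
noncomputable def pull (w : G × Ω → ZMod 2) (e : I × I) : ZMod 2 :=
  if r e.1 e.2 then 0 else w (β e.1, π e.1) + w (β e.1, π e.2)

/-- No triangle of the net at `g` is in the support of the coboundary. -/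
def GdT (w : G × Ω → ZMod 2) (g : G) : Prop :=
  ∀ t, Rk.Tri N t → t.1 = g → Rk.d1 N w t = 0

/-- In addition the pull back is the coboundary of `F` on the translate of `Φ`. -/
def Gd (w : G × Ω → ZMod 2) (F : I → ZMod 2) (g : G) : Prop :=
  GdT N w g ∧ ∀ a b, b ∈ nb a → g⁻¹ • a ∈ Φ → g⁻¹ • b ∈ Φ → pull r π β w (a, b) = d0 F (a, b)

def McDStmt : Prop :=
  ∀ (G I : Type) [Group G] [MulAction G I] (nb : I → Finset I) (r : I → I → Prop) (U : Finset I),
    St nb G r U → One nb G r → ∀ x y, ¬ Coc G (cls r x) → ¬ Coc G (cls r y) → ¬ r x y →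
      ∃ (Ω : Type) (_ : MulAction G Ω) (N : Rk.Net G Ω) (π : I → Ω) (β : I → G) (Φ : Finset I)
        (x₀ : I), MD nb r N π β Φ x₀ ∧ Rk.Mod N

/-- Pull back and push forward of cochains. -/
def McPStmt : Prop :=
  ∀ (G I Ω : Type) [Group G] [MulAction G I] [MulAction G Ω] (nb : I → Finset I)
    (r : I → I → Prop) (U : Finset I) (N : Rk.Net G Ω) (π : I → Ω) (β : I → G) (Φ : Finset I)
    (x₀ : I), St nb G r U → MD nb r N π β Φ x₀ → Rk.Mod N → ∀ w : G × Ω → ZMod 2,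
      (∀ t, Tr nb t → d1 (pull r π β w) t ≠ 0 → ¬ GdT N w (β t.1) ∧ (β t.1)⁻¹ • t.1 ∈ Φ) ∧
      ∀ F : I → ZMod 2, (∀ a b, r a b → F a = F b) → ∃ F' : Ω → ZMod 2, ∀ g : G,
        (∀ s ∈ N.S, Gd nb r N π β Φ w F (g * s)) → ∀ ω, Rk.Edge N (g, ω) →
          w (g, ω) = Rk.d0 N F' (g, ω)

def McQStmt : Prop :=
  McPStmt → ∀ (G I Ω : Type) [Group G] [MulAction G I] [MulAction G Ω] (nb : I → Finset I)
    (r : I → I → Prop) (U : Finset I) (N : Rk.Net G Ω) (π : I → Ω) (β : I → G) (Φ : Finset I)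
    (x₀ : I), St nb G r U → One nb G r → MD nb r N π β Φ x₀ → Rk.Mod N → Rk.RelQ N

def McFStmt : Prop := McDStmt → McPStmt → McQStmt → Rk.MStmt → RKStmt

end Pool.Agent.MP_4f4d9f_gt.Nc

end

section

/-! The net of a state: cone vertices for the classes that are not cocompact. -/

namespace Pool.Agent.MP_4f4d9f_gt.Nc

open Hy

namespace McDL

open Pointwise

variable {G I : Type} [Group G] [MulAction G I] {nb : I → Finset I} {r : I → I → Prop}
  {U : Finset I}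

theorem exists_beta (h : Gr nb G) : ∃ β : I → G, ∀ (g : G) x, β (g • x) = g * β x := by
  have h1 : ∀ x : I, ∃ g : G, g • (Quotient.mk (MulAction.orbitRel G I) x).out = x := fun x =>
    (MulAction.orbitRel G I).symm (Quotient.mk_out (s := MulAction.orbitRel G I) x)
  choose β hβ using h1
  refine ⟨β, fun g x => h.inj (Quotient.mk (MulAction.orbitRel G I) x).out ?_⟩
  have h2 : Quotient.mk (MulAction.orbitRel G I) (g • x) = Quotient.mk (MulAction.orbitRel G I) x :=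
    Quotient.sound ⟨g, rfl⟩
  have h3 := hβ (g • x)
  rw [h2] at h3
  simp only [mul_smul, hβ, h3]

theorem exists_conn (h : Gr nb G) (x₀ : I) (K : Finset I) :
    ∃ Φ : Finset I, K ⊆ Φ ∧ x₀ ∈ Φ ∧ ∀ a ∈ Φ, Pa nb (fun u v => u ∈ Φ ∧ v ∈ Φ) x₀ a := by
  classical
  induction K using Finset.induction with
  | empty => exact ⟨{x₀}, by simp, by simp, fun a ha => by
      rw [Finset.mem_singleton.1 ha]; exact Pa.refl _ _⟩
  | insert c K _ ih =>
    obtain ⟨Φ, h1, h2, h3⟩ := ih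
    obtain ⟨L, -, h5, h6⟩ := (h.pa x₀ c).finite
    refine ⟨Φ ∪ L, Finset.insert_subset (Finset.mem_union_right _ h5)
      (h1.trans Finset.subset_union_left), Finset.mem_union_left _ h2, fun a ha => ?_⟩
    rcases Finset.mem_union.1 ha with ha | ha
    · exact (h3 a ha).mono fun u v e1 e2 =>
        ⟨e1, Finset.mem_union_left _ e2.1, Finset.mem_union_left _ e2.2⟩
    · exact (h6 a ha).mono fun u v e1 e2 =>
        ⟨e1, Finset.mem_union_right _ e2.2.1, Finset.mem_union_right _ e2.2.2⟩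

theorem exists_phi (h : Gr nb G) {β : I → G} (hβ : ∀ (g : G) x, β (g • x) = g * β x) (x₀ : I)
    (U : Finset I) : ∃ Φ : Finset I, x₀ ∈ Φ ∧ (∀ a ∈ Φ, Pa nb (fun u v => u ∈ Φ ∧ v ∈ Φ) x₀ a) ∧
      ∀ a ∈ Orb G U, ∀ c ∈ nb a, (β a)⁻¹ • c ∈ Φ := by
  classical
  obtain ⟨Φ, h1, h2, h3⟩ := exists_conn h x₀ (U.biUnion fun u => nb ((β u)⁻¹ • u))
  refine ⟨Φ, h2, h3, ?_⟩
  rintro _ ⟨g, u, hu, rfl⟩ c hc
  refine h1 (Finset.mem_biUnion.2 ⟨u, hu, ?_⟩)
  have h4 := h.eqv (β (g • u))⁻¹ _ _ hc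
  rwa [show (β (g • u))⁻¹ • g • u = (β u)⁻¹ • u by rw [hβ, mul_inv_rev, mul_smul, inv_smul_smul]]
    at h4

theorem orb_conn (h : St nb G r U) {u v : I} (hu : u ∈ Orb G U) (hv : v ∈ Orb G U) :
    Pa nb (fun a b => a ∈ Orb G U ∧ b ∈ Orb G U) u v := by
  have h0 : ∀ a ∈ Orb G U, ∀ b ∈ Orb G U, r a b →
      Pa nb (fun a b => a ∈ Orb G U ∧ b ∈ Orb G U) a b := fun a ha b hb hab =>
    (h.ucn a b ha hb hab).mono fun _ _ e1 e2 => ⟨e1, e2.2⟩
  refine Pa.ind (P := fun b => ∀ v ∈ Orb G U, r b v →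
    Pa nb (fun a b => a ∈ Orb G U ∧ b ∈ Orb G U) u v) (h0 u hu) ?_ (h.gr.pa u v) v hv (h.eq.refl v)
  intro b c _ h1 _ ih z hz h2
  by_cases h3 : r b c
  · exact ih z hz (h.eq.trans h3 h2)
  · have h4 := h.wall b c h1 h3
    have h5 := h.wall c b (h.gr.symm _ _ h1) fun e => h3 (h.eq.symm e)
    exact ((ih b h4 (h.eq.refl b)).tail h1 ⟨h4, h5⟩).trans (h0 c h5 z hz h2)

theorem gen (h : St nb G r U) {β : I → G} (hβ : ∀ (g : G) x, β (g • x) = g * β x) {Φ : Finset I}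
    {x₀ : I} (h0 : x₀ ∈ Φ) (hΦ : ∀ a ∈ Orb G U, ∀ c ∈ nb a, (β a)⁻¹ • c ∈ Φ) {S : Finset G}
    (hS : ∀ s, s ∈ S ↔ ∃ a ∈ Φ, s • a ∈ Φ) : Gen S := by
  refine ⟨(hS 1).2 ⟨x₀, h0, by rwa [one_smul]⟩, fun s hs => ?_, eq_top_iff.2 fun g _ => ?_⟩
  · obtain ⟨a, h1, h2⟩ := (hS s).1 hs
    exact (hS _).2 ⟨_, h2, by rwa [inv_smul_smul]⟩
  · obtain ⟨u, hu, -⟩ := h.une x₀
    have h1 : (β u)⁻¹ * β ((β u * g * (β u)⁻¹) • u) ∈ Subgroup.closure (S : Set G) := by
      refine Pa.ind (P := fun b => (β u)⁻¹ * β b ∈ Subgroup.closure (S : Set G)) ?_ ?_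
        (orb_conn h hu (orb_smul _ hu))
      · rw [inv_mul_cancel]
        exact one_mem _
      · intro b c _ h1 h2 ih
        have h3 : (β b)⁻¹ * β c ∈ S := (hS _).2 ⟨_, hΦ c h2.2 c (h.gr.refl c), by
          rw [mul_smul, smul_inv_smul]
          exact hΦ b h2.1 c h1⟩
        have h4 := mul_mem ih (Subgroup.subset_closure (Finset.mem_coe.2 h3))
        rwa [mul_assoc, mul_inv_cancel_left] at h4
    rwa [hβ, inv_mul_cancel_right, inv_mul_cancel_left] at h1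

theorem stab_inf (h : St nb G r U) {x y : I} (hx : ¬ Coc G (cls r x)) (hy : ¬ Coc G (cls r y))
    (hxy : ¬ r x y) {a : I} (ha : ¬ Coc G (cls r a)) : {g : G | r a (g • a)}.Infinite := by
  intro hH
  have h1 : ∀ z, ¬ Coc G (cls r z) → ¬ r a z → (cls r a)ᶜ.Infinite := fun z hz e hf =>
    hz (Coc.of_finite (hf.subset fun b hb hb' => e (h.eq.trans hb' (h.eq.symm hb))))
  have h2 : (cls r a)ᶜ.Infinite := by
    by_cases e : r a x
    · exact h1 y hy fun e' => hxy (h.eq.trans (h.eq.symm e) e')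
    · exact h1 x hx e
  have h3 : (Dl nb r (cls r a)).Finite := Set.finite_empty.subset fun e he =>
    he.2.2 ⟨fun e' => h.eq.trans e' he.2.1, fun e' => h.eq.trans e' (h.eq.symm he.2.1)⟩
  have h4 : ∀ u : I, {g : G | r a (g • u)}.Finite := fun u => by
    rcases Set.eq_empty_or_nonempty {g : G | r a (g • u)} with e | ⟨k, hk⟩
    · rw [e]
      exact Set.finite_empty
    · refine (hH.image (· * k)).subset fun g hg => ⟨g * k⁻¹, ?_, inv_mul_cancel_right g k⟩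
      have h5 := h.inv (g * k⁻¹) _ _ hk
      rw [mul_smul g k⁻¹ (k • u), inv_smul_smul] at h5
      exact h.eq.trans hg (h.eq.symm h5)
  refine h.wall_inf h3 (fun hf => ha (Coc.of_finite hf)) h2
    ((U.finite_toSet.biUnion fun u _ => (h4 u).image (· • u)).subset ?_)
  rintro _ ⟨h5, g, u, hu, rfl⟩
  exact Set.mem_biUnion hu ⟨g, h5, rfl⟩

theorem cls_smul (h : St nb G r U) (g : G) (a : I) : cls r (g • a) = g • cls r a := by
  ext y
  rw [Set.mem_smul_set_iff_inv_smul_mem]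
  have h1 := h.inv_iff g a (g⁻¹ • y)
  rwa [smul_inv_smul] at h1

theorem coc_iff (h : St nb G r U) (g : G) (a : I) : Coc G (cls r (g • a)) ↔ Coc G (cls r a) :=
  ⟨fun e => by simpa using h.coc_smul g⁻¹ e, h.coc_smul g⟩

/-- The classes that are not cocompact. -/
def Q (h : St nb G r U) : SubMulAction G (Set I) where
  carrier := {c | ∃ a, ¬ Coc G (cls r a) ∧ cls r a = c}
  smul_mem' g := by
    rintro _ ⟨a, ha, rfl⟩
    exact ⟨g • a, mt (coc_iff h g a).1 ha, cls_smul h g a⟩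

open Classical in
/-- The projection to the vertices of the net. -/
noncomputable def pj (h : St nb G r U) (β : I → G) (a : I) : G ⊕ Q h :=
  if e : Coc G (cls r a) then Sum.inl (β a) else Sum.inr ⟨cls r a, a, e, rfl⟩

theorem pj_pos (h : St nb G r U) (β : I → G) {a : I} (e : Coc G (cls r a)) :
    pj h β a = Sum.inl (β a) := dif_pos e

theorem pj_neg (h : St nb G r U) (β : I → G) {a : I} (e : ¬ Coc G (cls r a)) :
    pj h β a = Sum.inr ⟨cls r a, a, e, rfl⟩ := dif_neg e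

theorem pj_smul (h : St nb G r U) {β : I → G} (hβ : ∀ (g : G) x, β (g • x) = g * β x) (g : G)
    (a : I) : pj h β (g • a) = g • pj h β a := by
  by_cases e : Coc G (cls r a)
  · rw [pj_pos h β e, pj_pos h β (h.coc_smul g e), hβ]
    rfl
  · rw [pj_neg h β e, pj_neg h β (mt (coc_iff h g a).1 e), Sum.smul_inr]
    exact congrArg Sum.inr (Subtype.ext (cls_smul h g a))

theorem smul_o (h : St nb G r U) (g : G) : g • (Sum.inl 1 : G ⊕ Q h) = Sum.inl g := by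
  rw [Sum.smul_inl, smul_eq_mul, mul_one]

end McDL

open McDL Pointwise in
theorem mcD_stmt : McDStmt := by
  classical
  intro G I _ _ nb r U h h1 x y hx hy hxy
  obtain ⟨β, hβ⟩ := exists_beta h.gr
  obtain ⟨Φ, h0, hc, hΦ⟩ := exists_phi h.gr hβ x U
  have hf : {s : G | ∃ a ∈ Φ, s • a ∈ Φ}.Finite :=
    (Φ.finite_toSet.biUnion fun a _ => h.gr.fin_smul a Φ.finite_toSet).subset
      fun s ⟨a, e1, e2⟩ => Set.mem_biUnion e1 e2
  obtain ⟨S, hS⟩ : ∃ S : Finset G, ∀ s, s ∈ S ↔ ∃ a ∈ Φ, s • a ∈ Φ :=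
    ⟨hf.toFinset, fun s => hf.mem_toFinset⟩
  have hg := gen h hβ h0 hΦ hS
  have hs : ∀ a b, Coc G (cls r a) → r a b → b = a := fun a b e =>
    (h1 a).elim (fun e' => e' b) fun e' => absurd e e'.1
  have hrel : ∀ a b, r a b → pj h β a = pj h β b := fun a b e => by
    by_cases e' : Coc G (cls r a)
    · rw [hs a b e' e]
    · rw [pj_neg h β e', pj_neg h β (by rwa [← h.cls_eq e])]
      exact congrArg Sum.inr (Subtype.ext (h.cls_eq e))
  have hsm : ∀ a, Coc G (cls r a) → (β a)⁻¹ • a ∈ Φ := fun a e => by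
    obtain ⟨u, hu, e'⟩ := h.une a
    rw [hs a u e e'] at hu
    exact hΦ a hu a (h.gr.refl a)
  let N : Rk.Net G (G ⊕ Q h) :=
    ⟨S, Sum.inl 1, Φ.image (pj h β) ∪ S.image fun s => s • (Sum.inl 1 : G ⊕ Q h)⟩
  have hT : ∀ τ, τ ∈ N.T ↔ (∃ a ∈ Φ, pj h β a = τ) ∨ ∃ s ∈ N.S, s • N.o = τ := fun τ => by
    simp only [N, Finset.mem_union, Finset.mem_image]
  refine ⟨G ⊕ Q h, inferInstance, N, pj h β, β, Φ, x, ⟨pj_smul h hβ, hβ, hrel, h0, hc,
    fun a b e1 e2 => hΦ a (h.wall a b e1 e2), hS, hT,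
    fun a e => ⟨(pj_pos h β e).trans (smul_o h _).symm, hsm a e⟩, fun a e => ⟨fun g e' => ?_, ?_⟩,
    fun ω hω => ?_⟩, hg, fun g e => ?_, fun s e => (hT _).2 (Or.inr ⟨s, e, rfl⟩), fun ω => ?_,
    fun τ e => ?_⟩
  · rw [pj_neg h β e] at e'
    exact Sum.inl_ne_inr ((smul_o h g).symm.trans e')
  · intro b e'
    rw [pj_neg h β e] at e'
    by_cases e2 : Coc G (cls r b)
    · rw [pj_pos h β e2] at e'
      exact absurd e' Sum.inl_ne_inr
    · rw [pj_neg h β e2] at e'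
      have e3 : cls r b = cls r a := congrArg Subtype.val (Sum.inr_injective e')
      exact (e3 ▸ h.eq.refl b : b ∈ cls r a)
  · obtain g | ⟨_, a, e, rfl⟩ := ω
    · exact absurd (smul_o h g) (hω g)
    · exact ⟨a, e, pj_neg h β e⟩
  · exact Sum.inl_injective ((smul_o h g).symm.trans e)
  · obtain g | ⟨_, a, e, rfl⟩ := ω
    · exact ⟨g, _, (hT _).2 (Or.inr ⟨1, hg.one, rfl⟩), by rw [one_smul]; exact smul_o h g⟩
    · obtain ⟨u, hu, e'⟩ := h.une a
      refine ⟨β u, _, (hT _).2 (Or.inl ⟨_, hΦ u hu u (h.gr.refl u), rfl⟩), ?_⟩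
      rw [← pj_smul h hβ, smul_inv_smul, ← hrel a u e', pj_neg h β e]
  · rcases (hT τ).1 e with ⟨a, ha, rfl⟩ | e'
    · by_cases e' : Coc G (cls r a)
      · exact Or.inl ⟨β a, (hS _).2 ⟨_, hsm a e', by rwa [smul_inv_smul]⟩,
          (smul_o h _).trans (pj_pos h β e').symm⟩
      · exact Or.inr ((stab_inf h hx hy hxy e').mono fun g hg' =>
          (pj_smul h hβ g a).symm.trans (hrel _ _ hg').symm)
    · exact Or.inl e'

end Pool.Agent.MP_4f4d9f_gt.Nc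

end

section

/-! Pull back and push forward of cochains between a state and a net. -/

namespace Pool.Agent.MP_4f4d9f_gt.Nc

open Hy

namespace McPL

variable {G I Ω : Type} [Group G] [MulAction G I] [MulAction G Ω] {nb : I → Finset I}
  {r : I → I → Prop} {U : Finset I} {N : Rk.Net G Ω} {π : I → Ω} {β : I → G} {Φ : Finset I}
  {x₀ : I} {w : G × Ω → ZMod 2}

theorem memT (hM : MD nb r N π β Φ x₀) {g : G} {a : I} (h : g⁻¹ • a ∈ Φ) : g⁻¹ • π a ∈ N.T :=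
  (hM.sT _).2 (Or.inl ⟨g⁻¹ • a, h, hM.piv _ _⟩)

theorem memS (hM : MD nb r N π β Φ x₀) {g k : G} {a : I} (h : g⁻¹ • a ∈ Φ) (h' : k⁻¹ • a ∈ Φ) :
    g⁻¹ * k ∈ N.S :=
  (hM.sS _).2 ⟨k⁻¹ • a, h', by rwa [mul_smul, smul_inv_smul]⟩

theorem chg (hM : MD nb r N π β Φ x₀) {g k : G} {a : I} (hg : GdT N w g) (h : g⁻¹ • a ∈ Φ)
    (h' : k⁻¹ • a ∈ Φ) : w (k, π a) + w (g, π a) + w (g, k • N.o) = 0 :=
  hg (g, k, π a) ⟨memS hM h h', memT hM h, memT hM h'⟩ rfl

theorem z1 : ∀ a b c d e : ZMod 2, a + b + e = 0 → c + d + e = 0 → a + c = b + d := by decide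

theorem z2 : ∀ a b c : ZMod 2, b + c + (a + c) + (a + b) = 0 := by decide

theorem z3 : ∀ a b c d e : ZMod 2, a + b = e → a + c = b + d → c + d = e := by decide

theorem z4 : ∀ a b : ZMod 2, a + a + b = 0 → b = 0 := by decide

theorem z5 : ∀ a b c : ZMod 2, a + b = c → b = c + a := by decide

theorem z6 : ∀ a b c d x y : ZMod 2, b + c + d = 0 → a + c = x → a + b = y → d = x + y := by
  decide

theorem form (h : St nb G r U) (hM : MD nb r N π β Φ x₀) {g : G} (hg : GdT N w g) {a b : I}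
    (hab : b ∈ nb a) (ha : g⁻¹ • a ∈ Φ) (hb : g⁻¹ • b ∈ Φ) :
    pull r π β w (a, b) = w (g, π a) + w (g, π b) := by
  unfold pull
  split_ifs with hr
  · rw [hM.rel a b hr, CharTwo.add_self_eq_zero]
  · have h1 := hM.nbr a b hab hr
    exact z1 _ _ _ _ _ (chg hM hg ha (h1 a (h.gr.refl a))) (chg hM hg hb (h1 b hab))

theorem part1 (h : St nb G r U) (hM : MD nb r N π β Φ x₀) (t : I × I × I) (ht : Tr nb t)
    (hd : d1 (pull r π β w) t ≠ 0) : ¬ GdT N w (β t.1) ∧ (β t.1)⁻¹ • t.1 ∈ Φ := by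
  obtain ⟨a, b, c⟩ := t
  obtain ⟨hb, hc, hbc⟩ := ht
  simp only at hb hc hbc ⊢
  have h1 : ∀ x ∈ nb a, (β a)⁻¹ • x ∈ Φ := by
    by_cases h2 : r a b
    · by_cases h3 : r a c
      · have h4 : r b c := h.eq.trans (h.eq.symm h2) h3
        refine absurd ?_ hd
        simp only [d1, pull, if_pos h2, if_pos h3, if_pos h4, add_zero]
      · exact hM.nbr a c hc h3
    · exact hM.nbr a b hb h2
  have ha := h1 a (h.gr.refl a)
  refine ⟨fun hg => hd ?_, ha⟩
  simp only [d1]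
  rw [form h hM hg hbc (h1 b hb) (h1 c hc), form h hM hg hc ha (h1 c hc),
    form h hM hg hb ha (h1 b hb)]
  exact z2 _ _ _

/-- Along the connected set `g • Φ` the corrected value is constant. -/
theorem cst (h : St nb G r U) (hM : MD nb r N π β Φ x₀) {F : I → ZMod 2} {g : G}
    (hg : Gd nb r N π β Φ w F g) {a : I} (ha : g⁻¹ • a ∈ Φ) :
    F a + w (g, π a) = F (g • x₀) + w (g, π (g • x₀)) := by
  have h1 : F (g • g⁻¹ • a) + w (g, π (g • g⁻¹ • a)) = F (g • x₀) + w (g, π (g • x₀)) := by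
    refine Pa.ind (P := fun b => F (g • b) + w (g, π (g • b)) = F (g • x₀) + w (g, π (g • x₀)))
      rfl (fun b c _ h2 h3 ih => ?_) (hM.con _ ha)
    have h4 := h.gr.eqv g _ _ h2
    have h5 : g⁻¹ • g • b ∈ Φ := by rw [inv_smul_smul]; exact h3.1
    have h6 : g⁻¹ • g • c ∈ Φ := by rw [inv_smul_smul]; exact h3.2
    have h7 := hg.2 _ _ h4 h5 h6
    rw [form h hM hg.1 h4 h5 h6] at h7
    exact z3 _ _ _ _ _ ih h7.symm
  rwa [smul_inv_smul] at h1

theorem exF (hM : MD nb r N π β Φ x₀) (hN : Rk.Mod N) (w : G × Ω → ZMod 2) {F : I → ZMod 2}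
    (hF : ∀ a b, r a b → F a = F b) : ∃ F' : Ω → ZMod 2,
      (∀ g : G, F' (g • N.o) = F (g • x₀) + w (g, π (g • x₀))) ∧
      ∀ a, ¬ Coc G (cls r a) → F' (π a) = F a := by
  classical
  have h1 : ∀ ω : Ω, ∃ v : ZMod 2, (∀ g : G, g • N.o = ω → v = F (g • x₀) + w (g, π (g • x₀))) ∧
      ∀ a, ¬ Coc G (cls r a) → π a = ω → v = F a := by
    intro ω
    by_cases hω : Rk.Cone N ω
    · obtain ⟨b, -, hb⟩ := hM.surj ω hω
      refine ⟨F b, fun g hg => absurd hg (hω g), fun a ha e => ?_⟩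
      exact (hF a b ((hM.big a ha).2 b (hb.trans e.symm))).symm
    · have h2 : ∃ k : G, k • N.o = ω := by
        by_contra h2
        exact hω fun x hx => h2 ⟨x, hx⟩
      obtain ⟨k, hk⟩ := h2
      refine ⟨F (k • x₀) + w (k, π (k • x₀)), fun g hg => ?_, fun a ha e => ?_⟩
      · have h3 : k⁻¹ * g = 1 := hN.free _ (by rw [mul_smul, hg, ← hk, inv_smul_smul])
        rw [inv_mul_eq_one.1 h3]
      · exact absurd (e ▸ (hM.big a ha).1) hω
  choose F' h2 h3 using h1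
  exact ⟨F', fun g => h2 _ g rfl, fun a ha => h3 _ a ha rfl⟩

theorem part2 (h : St nb G r U) (hM : MD nb r N π β Φ x₀) (hN : Rk.Mod N) {F : I → ZMod 2}
    (hF : ∀ a b, r a b → F a = F b) : ∃ F' : Ω → ZMod 2, ∀ g : G,
      (∀ s ∈ N.S, Gd nb r N π β Φ w F (g * s)) → ∀ ω, Rk.Edge N (g, ω) →
        w (g, ω) = Rk.d0 N F' (g, ω) := by
  obtain ⟨F', h1, h2⟩ := exF hM hN w hF
  refine ⟨F', fun g hg ω hω => ?_⟩
  have hA : ∀ {k : G}, Gd nb r N π β Φ w F k → ∀ {a : I}, k⁻¹ • a ∈ Φ →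
      F a + w (k, π a) = F' (k • N.o) := fun hk _ ha => (cst h hM hk ha).trans (h1 _).symm
  have hg1 : Gd nb r N π β Φ w F g := by
    have h3 := hg 1 hN.gen.one
    rwa [mul_one] at h3
  simp only [Rk.d0]
  rcases (hM.sT _).1 hω with ⟨a', ha', e⟩ | ⟨s, hs, e⟩
  · have h3 : π (g • a') = ω := by
      rw [hM.piv, e]; exact smul_inv_smul g ω
    have h4 : g⁻¹ • g • a' ∈ Φ := by rw [inv_smul_smul]; exact ha'
    generalize g • a' = a at h3 h4
    subst h3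
    have h5 : F' (π a) = F a := by
      by_cases h6 : Coc G (cls r a)
      · obtain ⟨h7, h8⟩ := hM.small a h6
        have h9 : Gd nb r N π β Φ w F (β a) := by
          have h10 := hg _ (memS hM h4 h8)
          rwa [mul_inv_cancel_left] at h10
        have h10 := hA h9 h8
        have h11 := z4 _ _ (chg hM h9.1 h8 h8)
        rw [← h7] at h10 h11
        rw [← h10, h11, add_zero]
      · exact h2 a h6
    rw [h5]
    exact z5 _ _ _ (hA hg1 h4)
  · have h3 : (g * s) • N.o = ω := by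
      rw [mul_smul, e]; exact smul_inv_smul g ω
    subst h3
    obtain ⟨a', h4, h5⟩ := (hM.sS s).1 hs
    have h6 : g⁻¹ • (g * s) • a' ∈ Φ := by rw [mul_smul, inv_smul_smul]; exact h5
    have h7 : (g * s)⁻¹ • (g * s) • a' ∈ Φ := by rw [inv_smul_smul]; exact h4
    exact z6 _ _ _ _ _ _ (chg hM hg1.1 h6 h7) (hA hg1 h6) (hA (hg s hs) h7)

end McPL

theorem mcP_stmt : McPStmt := fun _ _ _ _ _ _ _ _ _ _ _ _ _ _ h hM hN _ =>
  ⟨McPL.part1 h hM, fun _ hF => McPL.part2 h hM hN hF⟩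

end Pool.Agent.MP_4f4d9f_gt.Nc

end

section

/-! The cohomological hypotheses pass from the graph to the net. -/

namespace Pool.Agent.MP_4f4d9f_gt.Nc

open Hy

namespace McQL

variable {G I Ω : Type} [Group G] [MulAction G I] [MulAction G Ω] {nb : I → Finset I}
  {r : I → I → Prop} {U : Finset I} {N : Rk.Net G Ω} {π : I → Ω} {β : I → G} {Φ : Finset I}
  {x₀ : I}

theorem const (h : St nb G r U) {F : I → ZMod 2} {x : I}
    (hF : ∀ a b, r x a → b ∈ nb a → r a b → F a = F b) {y : I} (hy : r x y) : F x = F y :=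
  (Pa.ind (P := fun b => r x b ∧ F x = F b) ⟨h.eq.refl x, rfl⟩ (fun b c _ h1 h2 ih =>
    ⟨h.eq.trans ih.1 h2, ih.2.trans (hF b c ih.1 h1 h2)⟩) (h.cl x y hy)).2

theorem edge (hM : MD nb r N π β Φ x₀) {g : G} {a : I} (ha : g⁻¹ • a ∈ Φ) : Rk.Edge N (g, π a) :=
  (hM.sT _).2 (Or.inl ⟨_, ha, hM.piv _ _⟩)

theorem fin_tr {B : Set G} (hB : B.Finite) (Φ : Finset I) : {a : I | ∃ g ∈ B, g⁻¹ • a ∈ Φ}.Finite :=
  (hB.image2 (fun g a => g • a) Φ.finite_toSet).subset fun _ ⟨g, h1, h2⟩ =>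
    ⟨g, h1, _, h2, smul_inv_smul _ _⟩

theorem c1 (h : St nb G r U) (hM : MD nb r N π β Φ x₀) (F : Ω → ZMod 2)
    (hF : (Rk.sp1 N (Rk.d0 N F)).Finite) :
    {x : G | F (x • N.o) ≠ 0}.Finite ∨ {x : G | F (x • N.o) ≠ 1}.Finite := by
  have h1 := fin_tr (hF.image Prod.fst) Φ
  have h2 := h.gr.c1 (fun a => F (π a)) ((h1.prod h1).subset ?_)
  · have key : ∀ v, {x | F (π x) ≠ v}.Finite → {x : G | F (x • N.o) ≠ v}.Finite := fun v k =>
      ((hF.image Prod.fst).union (h.gr.fin_smul x₀ k)).subset fun g hg => by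
        by_cases e : Rk.d0 N F (g, π (g • x₀)) = 0
        · exact Or.inr fun e' => hg ((CharTwo.add_eq_zero.1 e).trans e')
        · exact Or.inl ⟨_, ⟨edge hM (by rw [inv_smul_smul]; exact hM.base), e⟩, rfl⟩
    exact h2.imp (key 0) (key 1)
  · rintro ⟨a, b⟩ ⟨a1, a2⟩
    have a3 := hM.nbr a b a1 fun e => a2 (CharTwo.add_eq_zero.2 (congrArg F (hM.rel a b e)))
    have a4 : β a ∈ Prod.fst '' Rk.sp1 N (Rk.d0 N F) := by
      by_cases e : Rk.d0 N F (β a, π a) = 0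
      · exact ⟨(β a, π b), ⟨edge hM (a3 b a1), fun e' => a2 (CharTwo.add_eq_zero.2
          ((CharTwo.add_eq_zero.1 e).symm.trans (CharTwo.add_eq_zero.1 e')))⟩, rfl⟩
      · exact ⟨_, ⟨edge hM (a3 a (h.gr.refl a)), e⟩, rfl⟩
    exact ⟨⟨_, a4, a3 a (h.gr.refl a)⟩, _, a4, a3 b a1⟩

/-- A function with finitely many jumps inside classes is almost constant on classes. -/
theorem sat (h : St nb G r U) (ho : One nb G r) (F : I → ZMod 2)
    (hF : {e : I × I | e.2 ∈ nb e.1 ∧ r e.1 e.2 ∧ F e.1 ≠ F e.2}.Finite) :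
    ∃ F' : I → ZMod 2, (∀ a b, r a b → F' a = F' b) ∧ {a | F a ≠ F' a}.Finite := by
  let Q : Set I → ZMod 2 → Prop := fun C v =>
    {y | y ∈ C ∧ F y ≠ v}.Finite ∧ ∀ x ∈ C, (∀ y ∈ C, F x = F y) → F x = v
  have h1 : ∀ x, ∃ v, Q (cls r x) v := fun x => by
    by_cases k : ∀ y, r x y → F x = F y
    · exact ⟨F x, Set.finite_empty.subset fun y hy => hy.2 (k y hy.1).symm,
        fun y hy _ => (k y hy).symm⟩
    have k' : ∀ v, ∀ z ∈ cls r x, (∀ y ∈ cls r x, F z = F y) → F z = v := fun v z _ e =>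
      (k fun y hy => (e x (h.eq.refl x)).symm.trans (e y hy)).elim
    have h2 := ((ho x).resolve_left fun e => k fun y hy => by rw [e y hy]).2
      {y | y ∈ cls r x ∧ F y ≠ 0} (fun _ e => e.1) (hF.subset fun e he => ⟨he.1, he.2.1, fun e' =>
        he.2.2 (and_congr ⟨fun a => h.eq.trans a he.2.1,
          fun a => h.eq.trans a (h.eq.symm he.2.1)⟩ (by rw [e']))⟩)
    rcases h2 with h2 | h2
    · exact ⟨0, h2, k' 0⟩
    · refine ⟨1, h2.subset fun y hy => ⟨hy.1, fun e => hy.2 ?_⟩, k' 1⟩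
      have : ∀ v : ZMod 2, v ≠ 0 → v = 1 := by decide
      exact this _ e.2
  have h2 : ∀ x, Q (cls r x) (Classical.epsilon (Q (cls r x))) := fun x =>
    Classical.epsilon_spec (h1 x)
  refine ⟨fun x => Classical.epsilon (Q (cls r x)), fun a b e => by simp only [h.cls_eq e],
    (hF.biUnion fun e _ => (h2 e.1).1).subset fun a ha => ?_⟩
  by_contra k
  refine ha ((h2 a).2 a (h.eq.refl a) fun y hy => const h (fun u v a1 a2 a3 => ?_) hy)
  by_contra e
  exact k (Set.mem_biUnion (x := (u, v)) ⟨a2, a3, e⟩ ⟨h.eq.symm a1, by rwa [← h.cls_eq a1]⟩)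

omit [Group G] [MulAction G I] [MulAction G Ω] in
theorem pull_eq {w : G × Ω → ZMod 2} {F : I → ZMod 2} {a b : I} (e : r a b)
    (k : pull r π β w (a, b) = d0 F (a, b)) : F a = F b :=
  CharTwo.add_eq_zero.1 (k.symm.trans (if_pos e))

end McQL

open McQL in
theorem mcQ_stmt : McQStmt := by
  intro hP G I Ω _ _ _ nb r U N π β Φ x₀ h ho hM hN
  refine ⟨fun w hw => ?_, c1 h hM, fun w hw => ?_⟩
  · obtain ⟨p1, p2⟩ := hP G I Ω nb r U N π β Φ x₀ h hM hN w
    have h1 : ∀ g, GdT N w g := fun g t k _ => hw t k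
    obtain ⟨F, hF⟩ := h.gr.c0 (pull r π β w) fun t k => by
      by_contra e
      exact (p1 t k e).1 (h1 _)
    obtain ⟨F', hF'⟩ := p2 F fun a b e =>
      const h (fun u v _ a2 a3 => pull_eq a3 (hF (u, v) a2)) e
    exact ⟨F', fun e => hF' e.1 (fun s _ => ⟨h1 _, fun a b k _ _ => hF (a, b) k⟩) e.2⟩
  · obtain ⟨p1, p2⟩ := hP G I Ω nb r U N π β Φ x₀ h hM hN w
    have h1 : {g | ¬ GdT N w g}.Finite := (hw.image Prod.fst).subset fun g hg => by
      by_contra k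
      exact hg fun t a1 a2 => by
        by_contra e
        exact k ⟨t, ⟨a1, e⟩, a2⟩
    obtain ⟨F, hF⟩ := h.gr.c2 (pull r π β w) (((fin_tr h1 Φ).biUnion fun a _ =>
      (Set.finite_singleton a).prod ((nb a).finite_toSet.prod (nb a).finite_toSet)).subset
        fun t k => Set.mem_biUnion ⟨_, p1 t k.1 k.2⟩ ⟨rfl, k.1.1, k.1.2.1⟩)
    obtain ⟨F₂, h2, h3⟩ := sat h ho F (hF.subset fun e k =>
      ⟨k.1, fun e' => k.2.2 (pull_eq k.2.1 e')⟩)
    have h4 : {g | ¬ Gd nb r N π β Φ w F₂ g}.Finite := by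
      refine (h1.union (((hF.image Prod.fst).union h3).biUnion fun c _ =>
        (h.gr.fin_smul c Φ.finite_toSet).preimage inv_injective.injOn)).subset fun g hg => ?_
      by_contra k
      refine hg ⟨not_not.1 fun e => k (Or.inl e), fun a b a1 a2 a3 => ?_⟩
      have b1 : pull r π β w (a, b) = d0 F (a, b) := not_not.1 fun e =>
        k (Or.inr (Set.mem_biUnion (Or.inl ⟨(a, b), ⟨a1, e⟩, rfl⟩) a2))
      have b2 : F a = F₂ a := not_not.1 fun e => k (Or.inr (Set.mem_biUnion (Or.inr e) a2))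
      have b3 : F b = F₂ b := not_not.1 fun e => k (Or.inr (Set.mem_biUnion (Or.inr e) a3))
      rw [b1, d0, d0, b2, b3]
    obtain ⟨F', hF'⟩ := p2 F₂ h2
    refine ⟨fun e => w e + Rk.d0 N F' e, ((h4.image2 (fun g s => g * s⁻¹) N.S.finite_toSet).image2
      (fun g τ => (g, g • τ)) N.T.finite_toSet).subset fun e k => ?_, fun t _ => ?_⟩
    · refine ⟨e.1, ?_, _, k.1, Prod.ext rfl (smul_inv_smul _ _)⟩
      by_contra k'
      exact k.2 (CharTwo.add_eq_zero.2 (hF' e.1 (fun s hs => not_not.1 fun a =>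
        k' ⟨_, a, s, hs, mul_inv_cancel_right _ _⟩) e.2 k.1))
    · simp only [Rk.d1, Rk.d0]
      have : ∀ a b c u v z : ZMod 2,
          a + (u + z) + (b + (v + z)) + (c + (v + u)) = a + b + c := by decide
      exact this _ _ _ _ _ _

end Pool.Agent.MP_4f4d9f_gt.Nc

end

section

/-! The relative theorem for graphs with regions follows from the theorem for nets. -/

namespace Pool.Agent.MP_4f4d9f_gt.Nc

open Hy

namespace McFL

variable {G I Ω : Type} [Group G] [MulAction G I] [MulAction G Ω] {nb : I → Finset I}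

/-- Differences along two orbits are square summable. -/
theorem pair (h : Gr nb G) {f : I → ℝ} (hf : DirI nb f) (a b : I) :
    Sq fun g : G => f (g • b) - f (g • a) := by
  refine Pa.ind (P := fun b => Sq fun g : G => f (g • b) - f (g • a)) ?_ ?_ (h.pa a b)
  · simpa only [sub_self] using sq_zero (G := G)
  · intro b c _ h1 _ ih
    have h2 : Sq fun g : G => f (g • b) - f (g • c) := by
      refine Summable.of_nonneg_of_le (fun g => sq_nonneg _) (fun g => ?_)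
        (hf.comp_injective (h.inj b))
      exact Finset.single_le_sum (f := fun y => (f (g • b) - f y) ^ 2) (fun y _ => sq_nonneg _)
        (h.eqv g _ _ h1)
    simpa only [sub_sub_sub_cancel_left] using ih.sub h2

/-- The push forward of a saturated function. -/
theorem exists_push {r : I → I → Prop} {N : Rk.Net G Ω} {π : I → Ω} {β : I → G} {Φ : Finset I}
    {x₀ : I} (hD : MD nb r N π β Φ x₀) (hN : Rk.Mod N) {f : I → ℝ}
    (hr : ∀ x y, r x y → f x = f y) :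
    ∃ u : Ω → ℝ, (∀ g : G, u (g • N.o) = f (g • x₀)) ∧
      ∀ a, ¬ Coc G (cls r a) → u (π a) = f a := by
  classical
  refine ⟨fun ω => if h : ∃ g : G, g • N.o = ω then f (h.choose • x₀)
    else if h : ∃ a, π a = ω then f h.choose else 0, fun g => ?_, fun a ha => ?_⟩
  · have h : ∃ k : G, k • N.o = g • N.o := ⟨g, rfl⟩
    have h1 : (g⁻¹ * h.choose) • N.o = N.o := by
      rw [mul_smul, h.choose_spec, inv_smul_smul]
    simp only [dif_pos h]
    rw [← inv_mul_eq_one.1 (hN.free _ h1)]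
  · obtain ⟨h1, h2⟩ := hD.big a ha
    have h3 : ¬ ∃ g : G, g • N.o = π a := fun ⟨g, hg⟩ => h1 g hg
    have h4 : ∃ b, π b = π a := ⟨a, rfl⟩
    simp only [dif_neg h3, dif_pos h4]
    exact (hr _ _ (h2 _ h4.choose_spec)).symm

end McFL

theorem mcF_stmt : McFStmt := by
  intro hD hP hQ hM G I _ _ nb r U hS hO f hf hr x y hx hy
  by_cases hxy : r x y
  · exact hr x y hxy
  obtain ⟨Ω, _, N, π, β, Φ, x₀, h1, h2⟩ := hD G I nb r U hS hO x y hx hy hxy
  obtain ⟨u, u1, u2⟩ := McFL.exists_push h1 h2 hr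
  have u3 : ∀ s g : G, u (g • s • N.o) = f (g • s • x₀) := fun s g => by
    rw [← mul_smul, u1, mul_smul]
  have hd : Rk.Dir N u := by
    intro τ hτ
    obtain ⟨a, ha⟩ : ∃ a : I, ∀ g : G, u (g • τ) = f (g • a) := by
      rcases (h1.sT τ).1 hτ with ⟨a, -, rfl⟩ | ⟨s, -, rfl⟩
      · by_cases hc : Coc G (cls r a)
        · exact ⟨β a • x₀, fun g => by rw [(h1.small a hc).1, u3]⟩
        · refine ⟨a, fun g => ?_⟩
          rw [← h1.piv]
          refine u2 _ fun h3 => hc ?_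
          simpa only [inv_smul_smul] using hS.coc_smul g⁻¹ h3
      · exact ⟨s • x₀, u3 s⟩
    simpa only [ha, u1] using McFL.pair hS.gr hf x₀ a
  rw [← u2 x hx, ← u2 y hy]
  exact hM G Ω N hS.gr.tf h2 (hQ hP G I Ω nb r U N π β Φ x₀ hS hO h1 h2) u hd _ _
    (h1.big x hx).1 (h1.big y hy).1

end Pool.Agent.MP_4f4d9f_gt.Nc

end
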