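import Pool.Agent.Mg.F4f4d9fr.G7a3b7e
import Pool.Agent.MP_4f4d9f_gt.Db.Defs
import Pool.Agent.Mg.F4f4d9fr.Gf4fb5f
import Pool.Agent.MP_4f4d9f_gt.Cb.Ra

set_option linter.all false

section

/-! The analytic interface: traces, logarithmic determinants, walls and gluings. -/

open scoped InnerProductSpace

namespace Pool.Agent.MP_4f4d9f_gt.Cb

section Defs

variable {G H I X : Type} [Group G] [Fintype I] [NormedAddCommGroup H] [InnerProductSpace ℂ H]
  [CompleteSpace H]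

/-- The real part of the trace defined by a finite family of vectors. -/
noncomputable def tr (e : I → H) (T : H →L[ℂ] H) : ℝ := ∑ i, (⟪e i, T (e i)⟫_ℂ).re

/-- The logarithm of the determinant. -/
noncomputable def ld (e : I → H) (x : H →L[ℂ] H) : ℝ :=
  ∫ t in (0 : ℝ)..1, tr e ((x - 1) * Ring.inverse (1 + (t : ℂ) • (x - 1)))

/-- The operator commutes with the representation. -/
def Cm (π : G →* (H →L[ℂ] H)) (x : H →L[ℂ] H) : Prop := ∀ g, Commute (π g) x

/-- Projections `q x` onto the half walls and `P x` onto the sides. -/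
structure Walls (π : G →* (H →L[ℂ] H)) (q P : X → H →L[ℂ] H) (bar : X → X) : Prop where
  q_proj : ∀ x, IsStarProjection (q x)
  q_orth : ∀ x x', x ≠ x' → q x * q x' = 0
  P_proj : ∀ x, IsStarProjection (P x)
  P_q : ∀ x, P x * q x = q x
  P_bar : ∀ x, P x * q (bar x) = 0
  P_or : ∀ x x', P x * q x' = q x' ∨ P x * q x' = 0
  bar_bar : ∀ x, bar (bar x) = x
  bar_ne : ∀ x, bar x ≠ x
  eqv : ∀ g x, ∃ x', π g * q x = q x' * π g ∧ π g * P x = P x' * π g

/-- An involution that glues the half walls. -/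
structure Glue (π : G →* (H →L[ℂ] H)) (q P : X → H →L[ℂ] H) (bar : X → X) (τ : H →L[ℂ] H) :
    Prop where
  sa : star τ = τ
  inv : τ * τ = 1
  cm : Cm π τ
  tq : ∀ x, τ * q x = q (bar x) * τ
  int : ∀ ξ, (∀ x, q x ξ = 0) → τ ξ = ξ
  side : ∀ x, Commute τ (P x - q x)

/-- The projection onto a piece. -/
structure Piece (q P : X → H →L[ℂ] H) (bar : X → X) (E : H →L[ℂ] H) : Prop where
  proj : IsStarProjection E
  or : ∀ x, (E * q x = q x ∧ P (bar x) * E = 0) ∨ E * q x = 0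

/-- Admissible quadratic forms. -/
structure Adm (π : G →* (H →L[ℂ] H)) (P : X → H →L[ℂ] H) (Q : H →L[ℂ] H) : Prop where
  one_le : 1 ≤ Q
  cm : Cm π Q
  side : ∀ x, Commute (P x) Q

/-- The projection onto the walls. -/
noncomputable def Wp (q : X → H →L[ℂ] H) : H →L[ℂ] H := (⨅ x, (q x).ker)ᗮ.starProjection

/-- Invariant operators on the walls that are block diagonal and bounded below by one. -/
structure WD (π : G →* (H →L[ℂ] H)) (q : X → H →L[ℂ] H) (N : H →L[ℂ] H) : Prop where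
  le : Wp q ≤ N
  cm : Cm π N
  blk : ∀ x, Commute (q x) N
  out : Wp q * N = N

/-- The frame vectors lie in half walls or in the interior, and in pieces adapted to `Q`. -/
structure Fits (q P : X → H →L[ℂ] H) (bar : X → X) (e : I → H) (E : I → H →L[ℂ] H) : Prop where
  wall : ∀ i, (∀ x, q x (e i) = 0) ∨ ∃ x, q x (e i) = e i
  piece : ∀ i, Piece q P bar (E i)
  mem : ∀ i, E i (e i) = e i

/-- The projection onto the symmetric vectors. -/
noncomputable def pj (τ : H →L[ℂ] H) : H →L[ℂ] H := (1 / 2 : ℂ) • (1 + τ)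

/-- The operator that is `Q` on symmetric and `N` on antisymmetric vectors. -/
noncomputable def cmp (τ Q N : H →L[ℂ] H) : H →L[ℂ] H :=
  pj τ * Q * pj τ + (1 - pj τ) * N * (1 - pj τ)

/-- The Green operator of the glued form. -/
noncomputable def grn (τ Q : H →L[ℂ] H) : H →L[ℂ] H := Ring.inverse (cmp τ Q 1) * pj τ

end Defs

/-- Job `LdBas`: traces and logarithmic determinants. -/
def LdBasStmt : Prop :=
  ∀ (G H I : Type) [Group G] [Fintype I] [NormedAddCommGroup H] [InnerProductSpace ℂ H]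
    [CompleteSpace H] (π : G →* (H →L[ℂ] H)) (e : I → H), GFrame π e →
    (∀ S T, Cm π S → Cm π T → tr e (S * T) = tr e (T * S)) ∧
    (∀ A B, Cm π A → Cm π B → 0 ≤ A → 0 ≤ B → 0 ≤ tr e (A * B)) ∧
    (∀ x, Cm π x → IsStrictlyPositive x → ∃ L : (H →L[ℂ] H) →L[ℝ] ℝ, HasFDerivAt (ld e) L x ∧
      ∀ δ, Cm π δ → L δ = tr e (Ring.inverse x * δ)) ∧
    ∀ x y, Cm π x → Cm π y → IsStrictlyPositive x → IsStrictlyPositive y →
      ld e y ≤ ld e x + tr e (Ring.inverse x * (y - x))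

/-- Job `Sub`: Dirichlet-to-Neumann operators and the Green operator on walls and pieces. -/
def SubStmt : Prop :=
  ∀ (G H X : Type) [Group G] [NormedAddCommGroup H] [InnerProductSpace ℂ H] [CompleteSpace H]
    (π : G →* (H →L[ℂ] H)), (∀ g, star (π g) = π g⁻¹) →
    ∀ (q P : X → H →L[ℂ] H) (bar : X → X) (τ : H →L[ℂ] H), Walls π q P bar → Glue π q P bar τ →
    ∃ Λ : (H →L[ℂ] H) → H →L[ℂ] H, Λ 1 = Wp q ∧
      (∀ Q, Adm π P Q → WD π q (Λ Q) ∧
        (∀ x ξ, q x ξ = ξ → (Λ Q + τ * Λ Q * τ) (q x (grn τ Q ξ)) = ξ) ∧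
        ∀ E, Piece q P bar E → Commute E Q → ∀ ξ, E ξ = ξ →
          (Q + τ * Λ Q * τ) (E (grn τ Q ξ)) = ξ) ∧
      ∀ Q Q', Adm π P Q → Adm π P Q' → ‖Λ Q - Λ Q'‖ ≤ max ‖Q‖ ‖Q'‖ * ‖Q - Q'‖

/-- Job `Bethe`: the upper bound for a suitable operator on the walls. -/
def BetheStmt : Prop :=
  ∀ (G H I X : Type) [Group G] [Fintype I] [NormedAddCommGroup H] [InnerProductSpace ℂ H]
    [CompleteSpace H] (π : G →* (H →L[ℂ] H)) (e : I → H), GFrame π e →
    ∀ (q P : X → H →L[ℂ] H) (bar : X → X) (τ : H →L[ℂ] H), Walls π q P bar → Glue π q P bar τ →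
    ∀ E, Fits q P bar e E → ∀ Q, Adm π P Q → (∀ i, Commute (E i) Q) →
    ∃ N, WD π q N ∧ Commute τ N ∧ ld e (Q + N) ≤ ld e (cmp τ Q N) + ld e (1 + Wp q)

/-- Job `Mirror`: the lower bound for mirror gluings. -/
def MirrorStmt : Prop :=
  ∀ (G H I X : Type) [Group G] [Fintype I] [NormedAddCommGroup H] [InnerProductSpace ℂ H]
    [CompleteSpace H] (π : G →* (H →L[ℂ] H)) (e : I → H), GFrame π e →
    ∀ (q P : X → H →L[ℂ] H) (bar : X → X) (τ : H →L[ℂ] H), Walls π q P bar → Glue π q P bar τ →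
    (∀ x, ∃ g, τ * q x = π g * q x) →
    ∀ E, Fits q P bar e E → ∀ Q, Adm π P Q → (∀ i, Commute (E i) Q) →
    ∀ N, WD π q N → ld e (cmp τ Q N) + ld e (1 + Wp q) ≤ ld e (Q + N)

/-- Job `Ld`: mirror gluings minimise the determinant. -/
def LdStmt : Prop :=
  ∀ (G H I X : Type) [Group G] [Fintype I] [NormedAddCommGroup H] [InnerProductSpace ℂ H]
    [CompleteSpace H] (π : G →* (H →L[ℂ] H)) (e : I → H), GFrame π e →
    ∀ (q P : X → H →L[ℂ] H) (bar : X → X) (τ₀ τ₁ : H →L[ℂ] H), Walls π q P bar →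
    Glue π q P bar τ₀ → Glue π q P bar τ₁ → (∀ x, ∃ g, τ₁ * q x = π g * q x) →
    ∀ E, Fits q P bar e E → ∀ Q, Adm π P Q → (∀ i, Commute (E i) Q) →
    ld e (cmp τ₁ Q 1) ≤ ld e (cmp τ₀ Q 1)

/-- Job `Lim`: determinant inequalities for approximating models give a rank inequality. -/
def LimStmt : Prop :=
  ∀ (H₁ I₁ H₂ I₂ : Type) [Fintype I₁] [NormedAddCommGroup H₁] [InnerProductSpace ℂ H₁]
    [CompleteSpace H₁] [Fintype I₂] [NormedAddCommGroup H₂] [InnerProductSpace ℂ H₂]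
    [CompleteSpace H₂] (e₁ : I₁ → H₁) (K₁ : H₁ →L[ℂ] H₁) (e₂ : I₂ → H₂) (K₂ : H₂ →L[ℂ] H₂),
    0 ≤ K₁ → 0 ≤ K₂ → ∀ c M : ℝ,
    (∀ ε : ℝ, 0 < ε → ∀ m₀ : ℕ, ∃ (H I : Type) (_ : Fintype I) (_ : NormedAddCommGroup H)
      (_ : InnerProductSpace ℂ H) (_ : CompleteSpace H) (e : I → H) (Ko Kc R : H →L[ℂ] H),
      0 ≤ Ko ∧ 0 ≤ Kc ∧ ‖Ko‖ ≤ c ∧ ‖Kc‖ ≤ c ∧ IsStarProjection R ∧ R * Ko = Ko ∧ R * Kc = Kc ∧
      ∑ i, ‖R (e i)‖ ^ 2 ≤ M ∧
      (∀ t : ℝ, 0 < t → ld e (1 + (t : ℂ) • Kc) ≤ ld e (1 + (t : ℂ) • Ko)) ∧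
      ∀ m, 1 ≤ m → m ≤ m₀ → |tr e (Ko ^ m) - tr e₁ (K₁ ^ m)| ≤ ε ∧
        |tr e (Kc ^ m) - tr e₂ (K₂ ^ m)| ≤ ε) →
    gdim e₂ K₂.range ≤ gdim e₁ K₁.range

/-! ### Basic facts -/

section Basic

variable {G H I X : Type} [Group G] [Fintype I] [NormedAddCommGroup H] [InnerProductSpace ℂ H]
  [CompleteSpace H] {π : G →* (H →L[ℂ] H)} {q P : X → H →L[ℂ] H} {bar : X → X}

omit [CompleteSpace H] in
theorem tr_add (e : I → H) (S T : H →L[ℂ] H) : tr e (S + T) = tr e S + tr e T := by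
  simp [tr, Finset.sum_add_distrib]

omit [CompleteSpace H] in
theorem tr_sub (e : I → H) (S T : H →L[ℂ] H) : tr e (S - T) = tr e S - tr e T := by
  simp [tr, Finset.sum_sub_distrib]

omit [CompleteSpace H] in
theorem tr_zero (e : I → H) : tr e 0 = 0 := by simp [tr]

omit [CompleteSpace H] in
theorem tr_neg (e : I → H) (S : H →L[ℂ] H) : tr e (-S) = -tr e S := by simp [tr]

omit [CompleteSpace H] in
theorem tr_smul (e : I → H) (t : ℝ) (S : H →L[ℂ] H) : tr e ((t : ℂ) • S) = t * tr e S := by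
  simp [tr, Finset.mul_sum]

omit [CompleteSpace H] in
theorem ld_one (e : I → H) : ld e 1 = 0 := by simp [ld, tr_zero]

omit [CompleteSpace H] in
theorem Cm.inverse {x : H →L[ℂ] H} (h : Cm π x) : Cm π (Ring.inverse x) := fun g => by
  by_cases hx : IsUnit x
  · obtain ⟨u, rfl⟩ := hx
    rw [Ring.inverse_unit]
    exact (h g).units_inv_right
  · rw [Ring.inverse_non_unit _ hx]
    exact Commute.zero_right _

theorem Wp_proj (q : X → H →L[ℂ] H) : IsStarProjection (Wp q) := isStarProjection_starProjection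

theorem Wp_eq_zero {ξ : H} : Wp q ξ = 0 ↔ ∀ x, q x ξ = 0 := by
  have hc : IsClosed ((⨅ x, (q x).ker : Submodule ℂ H) : Set H) := by
    rw [Submodule.coe_iInf]
    exact isClosed_iInter fun x => (q x).isClosed_ker
  have := hc.completeSpace_coe
  rw [Wp, Submodule.starProjection_apply_eq_zero_iff, Submodule.orthogonal_orthogonal,
    Submodule.mem_iInf]
  rfl

theorem Wp_mul_q (h : ∀ x, IsStarProjection (q x)) (x : X) : Wp q * q x = q x := by
  ext ξ
  refine Submodule.starProjection_eq_self_iff.2 ((Submodule.mem_orthogonal _ _).2 fun u hu => ?_)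
  change ⟪u, q x ξ⟫_ℂ = 0
  rw [← ContinuousLinearMap.adjoint_inner_left, ← ContinuousLinearMap.star_eq_adjoint,
    (h x).isSelfAdjoint.star_eq, show q x u = 0 from (Submodule.mem_iInf _).1 hu x, inner_zero_left]

theorem q_mul_Wp (h : ∀ x, IsStarProjection (q x)) (x : X) : q x * Wp q = q x := by
  have := congrArg star (Wp_mul_q h x)
  rwa [star_mul, (h x).isSelfAdjoint.star_eq, (Wp_proj q).isSelfAdjoint.star_eq] at this

/-- Operators that agree on the half walls and on the interior are equal. -/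
theorem wall_ext (h : ∀ x, IsStarProjection (q x)) {S T : H →L[ℂ] H}
    (h1 : ∀ x, S * q x = T * q x) (h2 : S * (1 - Wp q) = T * (1 - Wp q)) : S = T := by
  have h3 : Wp q * star (S - T) = 0 := by
    ext ξ
    refine Wp_eq_zero.2 fun x => ?_
    have : star ((S - T) * q x) = 0 := by rw [sub_mul, h1, sub_self, star_zero]
    rw [star_mul, (h x).isSelfAdjoint.star_eq] at this
    exact congrArg (fun U : H →L[ℂ] H => U ξ) this
  have h4 : (S - T) * Wp q = 0 := by
    have := congrArg star h3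
    rwa [star_mul, star_star, (Wp_proj q).isSelfAdjoint.star_eq, star_zero] at this
  rw [← sub_eq_zero, ← mul_one (S - T), ← sub_add_cancel 1 (Wp q), mul_add, h4, add_zero, sub_mul,
    h2, sub_self]

end Basic

end Pool.Agent.MP_4f4d9f_gt.Cb

end

section

/-! Free chain modules, labels, the total complex of a graph of groups, matrices. -/

open scoped Matrix

namespace Pool.Agent.MP_4f4d9f_gt.Db

open Finsupp

/-! ### Free `G`-sets and their chains -/

/-- The free `G`-set on `I`. -/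
@[ext] structure Fr (G I : Type) : Type where
  /-- the group element -/
  g : G
  /-- the index -/
  i : I

instance {G I : Type} [Group G] : MulAction G (Fr G I) where
  smul h c := ⟨h * c.g, c.i⟩
  one_smul c := Fr.ext (one_mul c.g) rfl
  mul_smul h h' c := Fr.ext (mul_assoc h h' c.g) rfl

section Fr

variable {G I J K : Type} [Group G]

@[simp] theorem Fr.smul_g (h : G) (c : Fr G I) : (h • c).g = h * c.g := rfl

@[simp] theorem Fr.smul_i (h : G) (c : Fr G I) : (h • c).i = c.i := rfl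

@[simp] theorem Fr.smul_mk (h g : G) (i : I) : h • (⟨g, i⟩ : Fr G I) = ⟨h * g, i⟩ := rfl

theorem Fr.smul_one (c : Fr G I) : c.g • (⟨1, c.i⟩ : Fr G I) = c := Fr.ext (mul_one _) rfl

theorem Fr.free (h : G) (c : Fr G I) (e : h • c = c) : h = 1 :=
  mul_eq_right.1 (congrArg Fr.g e)

/-- Chains on the free `G`-set on `I`. -/
abbrev Ch (G I : Type) : Type := Fr G I →₀ ℤ

/-- The action on chains. -/
noncomputable abbrev rp (G I : Type) [Group G] : Representation ℤ G (Ch G I) :=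
  permRep G (Fr G I)

theorem permRep_apply {B : Type} [MulAction G B] (g : G) (c : B →₀ ℤ) :
    permRep G B g c = mapDomain (g • ·) c := rfl

theorem proj_rp : Proj (rp G I) := proj_free (MonoidHom.id G) Function.injective_id Fr.free

/-- Linear maps on chains agree if they agree on basis elements. -/
theorem ch_ext {B M : Type} [AddCommGroup M] {f g : (B →₀ ℤ) →ₗ[ℤ] M}
    (h : ∀ β, f (single β 1) = g (single β 1)) : f = g :=
  lhom_ext' fun β => LinearMap.ext_ring (h β)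

theorem ch_induction {B : Type} {P : (B →₀ ℤ) → Prop} (h0 : P 0)
    (hadd : ∀ x y, P x → P y → P (x + y)) (hneg : ∀ x, P x → P (-x)) (h1 : ∀ β, P (single β 1))
    (c : B →₀ ℤ) : P c := by
  induction c using Finsupp.induction_linear with
  | zero => exact h0
  | add x y hx hy => exact hadd x y hx hy
  | single β n =>
    induction n using Int.induction_on with
    | zero => rwa [single_zero]
    | succ n ih => rw [single_add]; exact hadd _ _ ih (h1 β)
    | pred n ih =>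
      rw [sub_eq_add_neg, single_add, single_neg β 1]
      exact hadd _ _ ih (hneg _ (h1 β))

theorem eqv_of_single {B M : Type} [MulAction G B] [AddCommGroup M] {ρ : Representation ℤ G M}
    {f : (B →₀ ℤ) →ₗ[ℤ] M} (h : ∀ (g : G) β, f (single (g • β) 1) = ρ g (f (single β 1))) :
    Eqv (permRep G B) ρ f := fun g c =>
  LinearMap.congr_fun (f := f ∘ₗ permRep G B g) (g := ρ g ∘ₗ f) (ch_ext fun β => by
    rw [LinearMap.comp_apply, permRep_single, h, LinearMap.comp_apply]) c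

theorem eqv_lmapDomain {B B' : Type} [MulAction G B] [MulAction G B'] {u : B → B'}
    (h : ∀ (g : G) β, u (g • β) = g • u β) :
    Eqv (permRep G B) (permRep G B') (lmapDomain ℤ ℤ u) :=
  eqv_of_single fun g β => by simp only [lmapDomain_apply, mapDomain_single, permRep_single, h]

/-- Equivariant maps on free chains agree if they agree on the generators. -/
theorem eqv_ext {M : Type} [AddCommGroup M] {ρ : Representation ℤ G M} {f f' : Ch G I →ₗ[ℤ] M}
    (hf : Eqv (rp G I) ρ f) (hf' : Eqv (rp G I) ρ f')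
    (h : ∀ i, f (single ⟨1, i⟩ 1) = f' (single ⟨1, i⟩ 1)) : f = f' :=
  ch_ext fun β => by rw [← β.smul_one, ← permRep_single, hf, hf', h]

/-- The equivariant map with prescribed values on the generators. -/
noncomputable def mkE {M : Type} [AddCommGroup M] (ρ : Representation ℤ G M) (v : I → M) :
    Ch G I →ₗ[ℤ] M := linearCombination ℤ fun β => ρ β.g (v β.i)

theorem mkE_single {M : Type} [AddCommGroup M] (ρ : Representation ℤ G M) (v : I → M)
    (β : Fr G I) : mkE ρ v (single β 1) = ρ β.g (v β.i) := by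
  rw [mkE, linearCombination_single, one_smul]

theorem mkE_eqv {M : Type} [AddCommGroup M] (ρ : Representation ℤ G M) (v : I → M) :
    Eqv (rp G I) ρ (mkE ρ v) :=
  eqv_of_single fun g β => by
    rw [mkE_single, mkE_single, Fr.smul_g, Fr.smul_i, map_mul, Module.End.mul_apply]

theorem _root_.Pool.Agent.MP_4f4d9f_gt.Eqv.add {A B : Type} [AddCommGroup A] [AddCommGroup B]
    {ρA : Representation ℤ G A} {ρB : Representation ℤ G B}
    {g f : A →ₗ[ℤ] B} (hg : Eqv ρA ρB g) (hf : Eqv ρA ρB f) : Eqv ρA ρB (g + f) := fun h c => by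
  rw [LinearMap.add_apply, hf, hg, LinearMap.add_apply, map_add]

end Fr

/-! ### Labels -/

section Lab

variable {G I Y : Type} [Group G] [MulAction G Y]

/-- The label of a cell. -/
def lb (lab : I → Y) (β : Fr G I) : Y := β.g • lab β.i

theorem lb_smul (lab : I → Y) (g : G) (β : Fr G I) : lb lab (g • β) = g • lb lab β :=
  mul_smul g β.g _

theorem lb_one (lab : I → Y) (i : I) : lb lab (⟨1, i⟩ : Fr G I) = lab i := one_smul G _

/-- All cells of the chain `c` carry the label `y`. -/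
def At {B Z : Type} (l : B → Z) (y : Z) (c : B →₀ ℤ) : Prop := ∀ β ∈ c.support, l β = y

/-- The map `f` sends cells with label `y` to chains with label `ω y`. -/
def Loc {B B' Z Z' : Type} (l : B → Z) (l' : B' → Z') (ω : Z → Z')
    (f : (B →₀ ℤ) →ₗ[ℤ] (B' →₀ ℤ)) : Prop := ∀ β, At l' (ω (l β)) (f (single β 1))

variable {B B' B'' Z Z' Z'' : Type} {l : B → Z} {l' : B' → Z'} {l'' : B'' → Z''}

theorem At.zero (y : Z) : At l y 0 := fun _ h => by simp at h

theorem At.add {y : Z} {c c' : B →₀ ℤ} (h : At l y c) (h' : At l y c') : At l y (c + c') := by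
  classical
  exact fun β hβ => (Finset.mem_union.1 (support_add hβ)).elim (h β) (h' β)

theorem At.neg {y : Z} {c : B →₀ ℤ} (h : At l y c) : At l y (-c) := fun β hβ =>
  h β (by rwa [support_neg] at hβ)

theorem At.sub {y : Z} {c c' : B →₀ ℤ} (h : At l y c) (h' : At l y c') : At l y (c - c') := by
  rw [sub_eq_add_neg]; exact h.add h'.neg

theorem At.smul {y : Z} {c : B →₀ ℤ} (h : At l y c) (n : ℤ) : At l y (n • c) := fun β hβ =>
  h β (support_smul hβ)

theorem At.single {y : Z} {β : B} (h : l β = y) (n : ℤ) : At l y (single β n) := fun β' hβ => by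
  rw [Finset.mem_singleton.1 (support_single_subset hβ), h]

theorem At.sum {y : Z} {α : Type} {s : Finset α} {c : α → B →₀ ℤ} (h : ∀ a ∈ s, At l y (c a)) :
    At l y (∑ a ∈ s, c a) :=
  Finset.sum_induction c (At l y) (fun _ _ => At.add) (At.zero y) h

theorem Loc.at {ω : Z → Z'} {f : (B →₀ ℤ) →ₗ[ℤ] (B' →₀ ℤ)} (hf : Loc l l' ω f) {y : Z}
    {c : B →₀ ℤ} (hc : At l y c) : At l' (ω y) (f c) := by
  rw [← sum_single c, Finsupp.sum, map_sum]
  refine At.sum fun β hβ => ?_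
  rw [← smul_single_one, map_zsmul, ← hc β hβ]
  exact (hf β).smul _

theorem Loc.comp {ω : Z → Z'} {ω' : Z' → Z''} {f : (B →₀ ℤ) →ₗ[ℤ] (B' →₀ ℤ)}
    {f' : (B' →₀ ℤ) →ₗ[ℤ] (B'' →₀ ℤ)} (hf' : Loc l' l'' ω' f') (hf : Loc l l' ω f) :
    Loc l l'' (ω' ∘ ω) (f' ∘ₗ f) := fun β => hf'.at (hf β)

theorem loc_lmapDomain {ω : Z → Z'} {u : B → B'} (h : ∀ β, l' (u β) = ω (l β)) :
    Loc l l' ω (lmapDomain ℤ ℤ u) := fun β => by
  rw [lmapDomain_apply, mapDomain_single]
  exact At.single (h β) 1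

theorem At.mapDomain {y : Z} {y' : Z'} {c : B →₀ ℤ} (hc : At l y c) {u : B → B'}
    (h : ∀ β, l β = y → l' (u β) = y') : At l' y' (mapDomain u c) := by
  classical
  intro β' hβ'
  obtain ⟨β, h1, rfl⟩ := Finset.mem_image.1 (mapDomain_support hβ')
  exact h β (hc β h1)

open Classical in
/-- The projection onto the cells that satisfy `p`. -/
noncomputable def flt (p : B → Prop) : (B →₀ ℤ) →ₗ[ℤ] (B →₀ ℤ) :=
  (filterAddHom p).toIntLinearMap

open Classical in
theorem flt_apply (p : B → Prop) (c : B →₀ ℤ) (β : B) : flt p c β = if p β then c β else 0 := rfl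

open Classical in
theorem flt_single (p : B → Prop) (β : B) (n : ℤ) :
    flt p (single β n) = if p β then single β n else 0 := by
  ext β'
  rw [flt_apply]
  by_cases h : β = β'
  · subst h; split_ifs <;> simp
  · split_ifs <;> simp [single_eq_of_ne' h]

theorem At.flt_pos {y : Z} {c : B →₀ ℤ} (hc : At l y c) {p : Z → Prop} (h : p y) :
    flt (fun β => p (l β)) c = c := by
  ext β
  rw [flt_apply]
  split_ifs with h1
  · rfl
  · by_contra h2
    exact h1 (by rwa [hc β (mem_support_iff.2 (Ne.symm h2))])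

theorem At.flt_neg {y : Z} {c : B →₀ ℤ} (hc : At l y c) {p : Z → Prop} (h : ¬ p y) :
    flt (fun β => p (l β)) c = 0 := by
  ext β
  rw [flt_apply]
  split_ifs with h1
  · by_contra h2
    exact h (by rwa [← hc β (mem_support_iff.2 h2)])
  · rfl

theorem at_flt (y : Z) (c : B →₀ ℤ) : At l y (flt (fun β => l β = y) c) := fun β hβ => by
  by_contra h
  exact mem_support_iff.1 hβ (by rw [flt_apply, if_neg h])

/-- Local maps commute with the projections defined by labels. -/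
theorem Loc.flt {ω : Z → Z'} {f : (B →₀ ℤ) →ₗ[ℤ] (B' →₀ ℤ)} (hf : Loc l l' ω f) (p : Z' → Prop)
    (c : B →₀ ℤ) : f (flt (fun β => p (ω (l β))) c) = flt (fun β => p (l' β)) (f c) :=
  LinearMap.congr_fun (f := f ∘ₗ Db.flt fun β => p (ω (l β)))
    (g := Db.flt (fun β => p (l' β)) ∘ₗ f) (ch_ext fun β => by
      rw [LinearMap.comp_apply, LinearMap.comp_apply, flt_single]
      split_ifs with h
      · rw [(hf β).flt_pos h]
      · rw [(hf β).flt_neg h, map_zero]) c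

/-- An equivariant map is local if it is local on the generators. -/
theorem loc_of_gen {I' Y' : Type} [MulAction G Y'] {lab : I → Y} {lab' : I' → Y'} {ω : Y → Y'}
    (hω : ∀ (g : G) y, ω (g • y) = g • ω y) {f : Ch G I →ₗ[ℤ] Ch G I'}
    (hf : Eqv (rp G I) (rp G I') f)
    (h : ∀ i, At (lb (G := G) lab') (ω (lab i)) (f (single ⟨1, i⟩ 1))) :
    Loc (lb (G := G) lab) (lb (G := G) lab') ω f := fun β => by
  conv_rhs => rw [← β.smul_one, ← permRep_single, hf, permRep_apply]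
  exact (h β.i).mapDomain fun β' e => by rw [lb_smul, e, ← hω]; rfl

end Lab

/-! ### Sums of index sets -/

section Sum

variable {G I J : Type} [Group G]

/-- The inclusion of the first summand. -/
noncomputable def chl : Ch G I →ₗ[ℤ] Ch G (I ⊕ J) := lmapDomain ℤ ℤ fun β => ⟨β.g, .inl β.i⟩

/-- The inclusion of the second summand. -/
noncomputable def chr : Ch G J →ₗ[ℤ] Ch G (I ⊕ J) := lmapDomain ℤ ℤ fun β => ⟨β.g, .inr β.i⟩

/-- The projection onto the first summand. -/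
noncomputable def prl : Ch G (I ⊕ J) →ₗ[ℤ] Ch G I :=
  linearCombination ℤ fun β => β.i.elim (fun i => single ⟨β.g, i⟩ 1) fun _ => 0

/-- The projection onto the second summand. -/
noncomputable def prr : Ch G (I ⊕ J) →ₗ[ℤ] Ch G J :=
  linearCombination ℤ fun β => β.i.elim (fun _ => 0) fun i => single ⟨β.g, i⟩ 1

omit [Group G] in
@[simp] theorem chl_single (β : Fr G I) (n : ℤ) :
    chl (J := J) (single β n) = single ⟨β.g, .inl β.i⟩ n := mapDomain_single

omit [Group G] in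
@[simp] theorem chr_single (β : Fr G J) (n : ℤ) :
    chr (I := I) (single β n) = single ⟨β.g, .inr β.i⟩ n := mapDomain_single

omit [Group G] in
@[simp] theorem prl_inl (g : G) (i : I) (n : ℤ) :
    prl (J := J) (single ⟨g, .inl i⟩ n) = single ⟨g, i⟩ n := by simp [prl]

omit [Group G] in
@[simp] theorem prl_inr (g : G) (i : J) (n : ℤ) : prl (I := I) (single ⟨g, .inr i⟩ n) = 0 := by
  simp [prl]

omit [Group G] in
@[simp] theorem prr_inl (g : G) (i : I) (n : ℤ) : prr (J := J) (single ⟨g, .inl i⟩ n) = 0 := by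
  simp [prr]

omit [Group G] in
@[simp] theorem prr_inr (g : G) (i : J) (n : ℤ) :
    prr (I := I) (single ⟨g, .inr i⟩ n) = single ⟨g, i⟩ n := by simp [prr]

omit [Group G] in
@[simp] theorem prl_chl (c : Ch G I) : prl (chl (J := J) c) = c :=
  LinearMap.congr_fun (f := prl ∘ₗ chl) (g := LinearMap.id) (ch_ext fun β => by simp) c

omit [Group G] in
@[simp] theorem prr_chl (c : Ch G I) : prr (chl (J := J) c) = 0 :=
  LinearMap.congr_fun (f := prr ∘ₗ chl) (g := 0) (ch_ext fun β => by simp) c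

omit [Group G] in
@[simp] theorem prl_chr (c : Ch G J) : prl (chr (I := I) c) = 0 :=
  LinearMap.congr_fun (f := prl ∘ₗ chr) (g := 0) (ch_ext fun β => by simp) c

omit [Group G] in
@[simp] theorem prr_chr (c : Ch G J) : prr (chr (I := I) c) = c :=
  LinearMap.congr_fun (f := prr ∘ₗ chr) (g := LinearMap.id) (ch_ext fun β => by simp) c

omit [Group G] in
theorem chl_add_chr (c : Ch G (I ⊕ J)) : chl (prl c) + chr (prr c) = c :=
  LinearMap.congr_fun (f := chl ∘ₗ prl + chr ∘ₗ prr) (g := LinearMap.id)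
    (ch_ext fun ⟨g, i⟩ => by cases i <;> simp) c

omit [Group G] in
theorem sum_ext {c c' : Ch G (I ⊕ J)} (h1 : prl c = prl c') (h2 : prr c = prr c') : c = c' := by
  rw [← chl_add_chr c, h1, h2, chl_add_chr]

theorem eqv_chl : Eqv (rp G I) (rp G (I ⊕ J)) chl := eqv_lmapDomain fun _ _ => rfl

theorem eqv_chr : Eqv (rp G J) (rp G (I ⊕ J)) chr := eqv_lmapDomain fun _ _ => rfl

theorem eqv_prl : Eqv (rp G (I ⊕ J)) (rp G I) prl :=
  eqv_of_single fun g ⟨h, i⟩ => by cases i <;> simp [permRep_single]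

theorem eqv_prr : Eqv (rp G (I ⊕ J)) (rp G J) prr :=
  eqv_of_single fun g ⟨h, i⟩ => by cases i <;> simp [permRep_single]

/-- The involution that is `-1` on the first summand and the permutation `t` on the second. -/
noncomputable def thI (I : Type) (t : Fr G J → Fr G J) : Ch G (I ⊕ J) →ₗ[ℤ] Ch G (I ⊕ J) :=
  chr ∘ₗ lmapDomain ℤ ℤ t ∘ₗ prr - chl ∘ₗ prl

omit [Group G] in
theorem thI_apply (t : Fr G J → Fr G J) (c : Ch G (I ⊕ J)) :
    thI I t c = chr (mapDomain t (prr c)) - chl (prl c) := rfl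

end Sum

/-! ### Induction along a homomorphism -/

section Up

variable {G H I J K : Type} [Group G] [Group H] (j : G →* H)

/-- The map of cells induced by `j`. -/
def up (β : Fr G I) : Fr H I := ⟨j β.g, β.i⟩

theorem up_smul (g : G) (β : Fr G I) : up j (g • β) = j g • up j β := Fr.ext (map_mul j _ _) rfl

theorem up_one (i : I) : up j (⟨1, i⟩ : Fr G I) = ⟨1, i⟩ := Fr.ext (map_one j) rfl

/-- The map `f'` extends the map `f`. -/
def Ovr (f : Ch G I →ₗ[ℤ] Ch G J) (f' : Ch H I →ₗ[ℤ] Ch H J) : Prop :=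
  ∀ c, f' (mapDomain (up j) c) = mapDomain (up j) (f c)

/-- The `H`-set `Y'` is induced from the `G`-set `Y`. -/
structure IndSet {Y Y' : Type} [MulAction G Y] [MulAction H Y'] (μ : Y → Y') : Prop where
  eqv : ∀ (g : G) y, μ (g • y) = j g • μ y
  surj : ∀ y', ∃ (h : H) (y : Y), y' = h • μ y
  inj : ∀ (h : H) y y₂, h • μ y = μ y₂ → ∃ g, h = j g ∧ g • y = y₂

end Up

/-! ### Matrices -/

section Mat

variable {G N I J K : Type} [Group G] [Ring N] (ι : G →* N)

open Classical in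
/-- The coordinates of a chain. -/
noncomputable def co : Ch G I →ₗ[ℤ] (I → N) :=
  linearCombination ℤ fun β => Pi.single β.i (ι β.g)

open Classical in
theorem co_single (β : Fr G I) : co ι (single β 1) = Pi.single β.i (ι β.g) := by
  rw [co, linearCombination_single, one_smul]

/-- The matrix of an equivariant map, acting on row vectors. -/
noncomputable def mat (f : Ch G I →ₗ[ℤ] Ch G J) : Matrix I J N :=
  Matrix.of fun i => co ι (f (single ⟨1, i⟩ 1))

theorem mat_apply (f : Ch G I →ₗ[ℤ] Ch G J) (i : I) : mat ι f i = co ι (f (single ⟨1, i⟩ 1)) := rfl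

theorem co_rp (g : G) (c : Ch G I) : co ι (rp G I g c) = ι g • co ι c := by
  classical
  induction c using ch_induction with
  | h0 => simp
  | hadd x y hx hy => simp only [map_add, hx, hy, smul_add]
  | hneg x hx => simp only [map_neg, hx, smul_neg]
  | h1 β =>
    rw [permRep_single, co_single, co_single, Fr.smul_g, Fr.smul_i, map_mul, ← smul_eq_mul]
    convert Pi.single_smul' _ _ _

theorem co_map [Fintype I] {f : Ch G I →ₗ[ℤ] Ch G J} (hf : Eqv (rp G I) (rp G J) f) (c : Ch G I) :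
    co ι (f c) = co ι c ᵥ* mat ι f := by
  classical
  induction c using ch_induction with
  | h0 => simp
  | hadd x y hx hy => simp only [map_add, hx, hy, Matrix.add_vecMul]
  | hneg x hx => simp only [map_neg, hx, Matrix.neg_vecMul]
  | h1 β =>
    conv_lhs => rw [← β.smul_one, ← permRep_single, hf, co_rp]
    rw [co_single]
    funext k
    simp only [Matrix.vecMul, dotProduct, Pi.single_apply, ite_mul, zero_mul, Finset.sum_ite_eq',
      Finset.mem_univ, if_true, Pi.smul_apply, smul_eq_mul, mat_apply]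

theorem mat_comp [Fintype J] (f : Ch G I →ₗ[ℤ] Ch G J) {f' : Ch G J →ₗ[ℤ] Ch G K}
    (hf' : Eqv (rp G J) (rp G K) f') : mat ι (f' ∘ₗ f) = mat ι f * mat ι f' := by
  ext i k
  rw [mat_apply, LinearMap.comp_apply, co_map ι hf']
  rfl

theorem mat_zero : mat ι (0 : Ch G I →ₗ[ℤ] Ch G J) = 0 := by
  ext i k
  simp [mat_apply]

theorem mat_id [DecidableEq I] : mat ι (LinearMap.id : Ch G I →ₗ[ℤ] Ch G I) = 1 := by
  ext i k
  simp [mat_apply, co_single, Pi.single_apply, Matrix.one_apply, eq_comm]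

theorem mat_add (f f' : Ch G I →ₗ[ℤ] Ch G J) : mat ι (f + f') = mat ι f + mat ι f' := by
  ext i k
  simp [mat_apply]

theorem mat_sub (f f' : Ch G I →ₗ[ℤ] Ch G J) : mat ι (f - f') = mat ι f - mat ι f' := by
  ext i k
  simp [mat_apply]

theorem co_up {H : Type} [Group H] (j : H →* G) (c : Ch H I) :
    co ι (mapDomain (up j) c) = co (ι.comp j) c :=
  LinearMap.congr_fun (f := co ι ∘ₗ lmapDomain ℤ ℤ (up j)) (g := co (ι.comp j))
    (ch_ext fun β => by
      rw [LinearMap.comp_apply, lmapDomain_apply, mapDomain_single, co_single, co_single]; rfl) c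

theorem Ovr.mat {H : Type} [Group H] {j : H →* G} {f : Ch H I →ₗ[ℤ] Ch H J}
    {f' : Ch G I →ₗ[ℤ] Ch G J} (h : Ovr j f f') : mat ι f' = mat (ι.comp j) f := by
  ext i k
  rw [mat_apply, mat_apply, ← co_up, ← h, mapDomain_single, up_one]

end Mat

end Pool.Agent.MP_4f4d9f_gt.Db

end

section

/-! Interface for the doubling inequality. -/

open scoped Matrix InnerProductSpace

namespace Pool.Agent.MP_4f4d9f_gt.Db

open Finsupp FA
open ContinuousLinearMap (adjoint)

/-! ### Resolutions up to the factor two -/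

section Res

variable {H : Type} [Group H]

/-- The lifting property up to the factor two. -/
def Proj2 {C : Type} [AddCommGroup C] (ρ : Representation ℤ H C) : Prop :=
  ∀ (D E : Type) [AddCommGroup D] [AddCommGroup E] (ρD : Representation ℤ H D)
    (ρE : Representation ℤ H E) (π : D →ₗ[ℤ] E) (φ : C →ₗ[ℤ] E),
    Eqv ρD ρE π → Eqv ρ ρE φ → (∀ c, ∃ x, π x = φ c) →
    ∃ ψ : C →ₗ[ℤ] D, Eqv ρ ρD ψ ∧ ∀ c, π (ψ c) = φ c + φ c

theorem proj2_of_proj {C : Type} [AddCommGroup C] {ρ : Representation ℤ H C} (h : Proj ρ) :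
    Proj2 ρ := by
  intro D E _ _ ρD ρE π φ hπ hφ hs
  obtain ⟨ψ, h1, h2⟩ := h D E ρD ρE π φ hπ hφ hs
  exact ⟨ψ + ψ, h1.add h1, fun c => by rw [LinearMap.add_apply, map_add, h2]⟩

variable {C : ℕ → Type} [∀ k, AddCommGroup (C k)]

/-- A resolution of the module `M` by modules that are projective up to the factor two. -/
structure IsResM (ρ : ∀ k, Representation ℤ H (C k)) (d : ∀ k, C (k + 1) →ₗ[ℤ] C k)
    {M : Type} [AddCommGroup M] (ρM : Representation ℤ H M) (ε : C 0 →ₗ[ℤ] M) : Prop where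
  eqv_d : ∀ k, Eqv (ρ (k + 1)) (ρ k) (d k)
  eqv_ε : Eqv (ρ 0) ρM ε
  ε_d : ∀ c, ε (d 0 c) = 0
  d_d : ∀ k c, d k (d (k + 1) c) = 0
  surj : ∀ t, ∃ c, ε c = t
  exact_zero : ∀ c, ε c = 0 → ∃ b, d 0 b = c
  exact_succ : ∀ k c, d k c = 0 → ∃ b, d (k + 1) b = c
  proj : ∀ k, Proj2 (ρ k)

theorem isResM_of_isRes {ρ : ∀ k, Representation ℤ H (C k)} {d : ∀ k, C (k + 1) →ₗ[ℤ] C k}
    {ε : C 0 →ₗ[ℤ] ℤ} (R : IsRes ρ d ε) :
    IsResM ρ d (permRep H Unit) (lsingle () ∘ₗ ε) where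
  eqv_d := R.eqv_d
  eqv_ε g c := by
    rw [LinearMap.comp_apply, LinearMap.comp_apply, R.eqv_ε, lsingle_apply, permRep_single]
  ε_d c := by rw [LinearMap.comp_apply, R.ε_d, map_zero]
  d_d := R.d_d
  surj t := by
    obtain ⟨c, hc⟩ := R.surj
    refine ⟨t () • c, ?_⟩
    ext
    simp [hc]
  exact_zero c hc := R.exact_zero c (single_eq_zero.1 hc)
  exact_succ := R.exact_succ
  proj k := proj2_of_proj (R.proj k)

/-- A complex with an involution whose `-1` eigenspaces form a subcomplex. -/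
structure Invol (ρ : ∀ k, Representation ℤ H (C k)) (d : ∀ k, C (k + 1) →ₗ[ℤ] C k)
    (θ : ∀ k, C k →ₗ[ℤ] C k) : Prop where
  eqv_d : ∀ k, Eqv (ρ (k + 1)) (ρ k) (d k)
  eqv_θ : ∀ k, Eqv (ρ k) (ρ k) (θ k)
  inv : ∀ k c, θ k (θ k c) = c
  anti : ∀ k c, θ (k + 1) c = -c → θ k (d k c) = -d k c

/-- The `-1` eigenspace. -/
def Anti {A : Type} [AddCommGroup A] (θ : A →ₗ[ℤ] A) : Submodule ℤ A :=
  LinearMap.ker (θ + LinearMap.id)

theorem mem_anti {A : Type} [AddCommGroup A] {θ : A →ₗ[ℤ] A} {c : A} : c ∈ Anti θ ↔ θ c = -c :=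
  add_eq_zero_iff_eq_neg

variable {ρ : ∀ k, Representation ℤ H (C k)} {d : ∀ k, C (k + 1) →ₗ[ℤ] C k}
  {θ : ∀ k, C k →ₗ[ℤ] C k}

/-- The action on the eigenspace. -/
noncomputable def antiRep (h : Invol ρ d θ) (k : ℕ) : Representation ℤ H (Anti (θ k)) where
  toFun g := (ρ k g).restrict fun c hc => mem_anti.2 (by
    rw [h.eqv_θ, mem_anti.1 hc, map_neg])
  map_one' := by ext; simp
  map_mul' g g' := by ext; simp

theorem antiRep_val (h : Invol ρ d θ) (k : ℕ) (g : H) (c : Anti (θ k)) :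
    (antiRep h k g c).1 = ρ k g c.1 := rfl

/-- The boundary on the eigenspace. -/
noncomputable def antiD (h : Invol ρ d θ) (k : ℕ) : Anti (θ (k + 1)) →ₗ[ℤ] Anti (θ k) :=
  (d k).restrict fun c hc => mem_anti.2 (h.anti k c (mem_anti.1 hc))

theorem antiD_val (h : Invol ρ d θ) (k : ℕ) (c : Anti (θ (k + 1))) :
    (antiD h k c).1 = d k c.1 := rfl

theorem anti_eqv (h : Invol ρ d θ) (k : ℕ) :
    Eqv (antiRep h (k + 1)) (antiRep h k) (antiD h k) := fun g c =>
  Subtype.ext (h.eqv_d k g c.1)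

end Res

/-! ### Labelled resolutions and graphs -/

section Graph

variable (H : Type) [Group H] {V D Y : Type} [MulAction H V] [MulAction H D] [MulAction H Y]
  {I J : ℕ → Type}

/-- Finitely many orbits. -/
def Cofin (Y : Type) [MulAction H Y] : Prop := ∃ S : Finset Y, ∀ y, ∃ g : H, g • y ∈ S

/-- A free resolution of the permutation module on `Y`, graded by `Y`. -/
structure LabRes (lab : ∀ j, I j → Y) (d : ∀ j, Ch H (I (j + 1)) →ₗ[ℤ] Ch H (I j)) : Prop where
  eqv : ∀ j, Eqv (rp H (I (j + 1))) (rp H (I j)) (d j)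
  loc : ∀ j, Loc (lb (G := H) (lab (j + 1))) (lb (G := H) (lab j)) id (d j)
  ε_d : ∀ c, mapDomain (lb (G := H) (lab 0)) (d 0 c) = 0
  d_d : ∀ j c, d j (d (j + 1) c) = 0
  surj : Function.Surjective (lb (G := H) (lab 0))
  exact_zero : ∀ c, mapDomain (lb (G := H) (lab 0)) c = 0 → ∃ b, d 0 b = c
  exact_succ : ∀ j c, d j c = 0 → ∃ b, d (j + 1) b = c

/-- Resolutions over the vertices and over the darts, with a chain map over the origin map. -/
structure Good (o : D → V) (lI : ∀ j, I j → V) (lJ : ∀ j, J j → D)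
    (dI : ∀ j, Ch H (I (j + 1)) →ₗ[ℤ] Ch H (I j)) (dJ : ∀ j, Ch H (J (j + 1)) →ₗ[ℤ] Ch H (J j))
    (φ : ∀ j, Ch H (J j) →ₗ[ℤ] Ch H (I j)) : Prop where
  resI : LabRes H lI dI
  resJ : LabRes H lJ dJ
  eqv : ∀ j, Eqv (rp H (J j)) (rp H (I j)) (φ j)
  loc : ∀ j, Loc (lb (G := H) (lJ j)) (lb (G := H) (lI j)) o (φ j)
  chain : ∀ j c, dI j (φ (j + 1) c) = φ j (dJ j c)
  aug : ∀ c, mapDomain (lb (G := H) (lI 0)) (φ 0 c) =
    mapDomain o (mapDomain (lb (G := H) (lJ 0)) c)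

/-- An involution of the cells over the reversal of darts. -/
structure Flip (bar : D → D) (lJ : ∀ j, J j → D)
    (dJ : ∀ j, Ch H (J (j + 1)) →ₗ[ℤ] Ch H (J j)) (t : ∀ j, Fr H (J j) → Fr H (J j)) : Prop where
  eqv : ∀ j (g : H) β, t j (g • β) = g • t j β
  inv : ∀ j β, t j (t j β) = β
  lab : ∀ j β, lb (lJ j) (t j β) = bar (lb (lJ j) β)
  comm : ∀ j c, dJ j (mapDomain (t (j + 1)) c) = mapDomain (t j) (dJ j c)

/-- A forest with darts `D`, vertices `V` and components `Y`. -/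
structure Forest (o : D → V) (bar : D → D) (c : V → Y) : Prop where
  c_eqv : ∀ (g : H) v, c (g • v) = g • c v
  inv : ∀ x, bar (bar x) = x
  ne : ∀ x, bar x ≠ x
  surj : Function.Surjective c
  c_o : ∀ x, c (o (bar x)) = c (o x)
  conn : ∀ a : V →₀ ℤ, mapDomain c a = 0 →
    ∃ z : D →₀ ℤ, mapDomain o z - mapDomain o (mapDomain bar z) = a
  acyc : ∀ z : D →₀ ℤ, mapDomain bar z = -z → mapDomain o z = 0 → z = 0

variable {H}

/-- Every edge separates. -/
def Cut {V D : Type} (o : D → V) (bar : D → D) : Prop :=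
  ∀ x, ∃ S : Set V, o x ∈ S ∧ o (bar x) ∉ S ∧
    ∀ x', x' ≠ x → x' ≠ bar x → (o x' ∈ S ↔ o (bar x') ∈ S)

variable (H) in
/-- The darts of a graph. -/
structure Darts (T : SimpleGraph V) (o : D → V) (bar : D → D) : Prop where
  o_eqv : ∀ (g : H) x, o (g • x) = g • o x
  bar_eqv : ∀ (g : H) x, bar (g • x) = g • bar x
  inv : ∀ x, bar (bar x) = x
  adj : ∀ x, T.Adj (o x) (o (bar x))
  ex : ∀ v w, T.Adj v w → ∃ x, o x = v ∧ o (bar x) = w
  ext : ∀ x x', o x = o x' → o (bar x) = o (bar x') → x = x'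

/-- The shifted index sets. -/
def Jm (J : ℕ → Type) : ℕ → Type
  | 0 => Empty
  | j + 1 => J j

/-- The index sets of the total complex. -/
abbrev Kx (I J : ℕ → Type) (j : ℕ) : Type := I j ⊕ Jm J j

/-- The shifted boundary. -/
noncomputable def dm (dJ : ∀ j, Ch H (J (j + 1)) →ₗ[ℤ] Ch H (J j)) :
    ∀ j, Ch H (Jm J (j + 1)) →ₗ[ℤ] Ch H (Jm J j)
  | 0 => 0
  | j + 1 => dJ j

/-- The shifted involution. -/
def tm (t : ∀ j, Fr H (J j) → Fr H (J j)) : ∀ j, Fr H (Jm J j) → Fr H (Jm J j)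
  | 0 => id
  | j + 1 => t j

/-- The shifted labels. -/
def lm (lJ : ∀ j, J j → D) : ∀ j, Jm J j → D
  | 0 => Empty.elim
  | j + 1 => lJ j

/-- The boundary of the total complex. -/
noncomputable def tot (dI : ∀ j, Ch H (I (j + 1)) →ₗ[ℤ] Ch H (I j))
    (dJ : ∀ j, Ch H (J (j + 1)) →ₗ[ℤ] Ch H (J j)) (φ : ∀ j, Ch H (J j) →ₗ[ℤ] Ch H (I j))
    (j : ℕ) : Ch H (Kx I J (j + 1)) →ₗ[ℤ] Ch H (Kx I J j) :=
  chl ∘ₗ dI j ∘ₗ prl + chl ∘ₗ φ j ∘ₗ prr - chr ∘ₗ dm dJ j ∘ₗ prr

omit [Group H] in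
theorem tot_apply (dI : ∀ j, Ch H (I (j + 1)) →ₗ[ℤ] Ch H (I j))
    (dJ : ∀ j, Ch H (J (j + 1)) →ₗ[ℤ] Ch H (J j)) (φ : ∀ j, Ch H (J j) →ₗ[ℤ] Ch H (I j))
    (j : ℕ) (c : Ch H (Kx I J (j + 1))) : tot dI dJ φ j c =
      chl (dI j (prl c)) + chl (φ j (prr c)) - chr (dm dJ j (prr c)) := rfl

/-- The involution of the total complex. -/
noncomputable def th (I : ℕ → Type) (t : ∀ j, Fr H (J j) → Fr H (J j)) (j : ℕ) :
    Ch H (Kx I J j) →ₗ[ℤ] Ch H (Kx I J j) := thI (I j) (tm t j)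

end Graph

/-! ### Matrices and dimensions -/

section Dim

/-- The homology of the antisymmetric row vectors is torsion. -/
def MT {N K₂ K₁ K₀ : Type} [Ring N] [Fintype K₂] [Fintype K₁] (M' : Matrix K₂ K₁ N)
    (M : Matrix K₁ K₀ N) (T₂ : Matrix K₂ K₂ N) (T₁ : Matrix K₁ K₁ N) : Prop :=
  ∀ z : K₁ → N, z ᵥ* M = 0 → z ᵥ* T₁ = -z →
    ∃ s : N, IsLeftRegular s ∧ ∃ w : K₂ → N, w ᵥ* T₂ = -w ∧ w ᵥ* M' = s • z

variable {G E K K' : Type} [Group G] [NormedAddCommGroup E] [InnerProductSpace ℂ E]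
  [CompleteSpace E] [Fintype K] [Fintype K'] {b : HilbertBasis G ℂ E}

/-- The dimension of the antisymmetric cycles. -/
noncomputable def zd (M : Matrix K K' (vnAlg b)) (T : Matrix K K (vnAlg b)) : ℝ :=
  gdim (fr b K) ((adjoint (op M)).ker ⊓ (adjoint (op T) + 1).ker)

/-- The dimension of the antisymmetric chains. -/
noncomputable def ad (T : Matrix K K (vnAlg b)) : ℝ := gdim (fr b K) (adjoint (op T) + 1).ker

end Dim

/-- The homology of `K` in degree `k + 1` with coefficients in the von Neumann algebra of any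
overgroup is torsion. -/
def Tor (K : Type) [Group K] (k : ℕ) : Prop :=
  ∀ (G E : Type) [Group G] [NormedAddCommGroup E] [InnerProductSpace ℂ E]
    (b : HilbertBasis G ℂ E) (ι : G →* vnAlg b), (∀ g h, (ι g).1 (b h) = b (g * h)) →
    ∀ j : K →* G, Function.Injective j →
    ∀ (C : ℕ → Type) [∀ k, AddCommGroup (C k)] (ρ : ∀ k, Representation ℤ K (C k))
      (d : ∀ k, C (k + 1) →ₗ[ℤ] C k) (ε : C 0 →ₗ[ℤ] ℤ) (R : IsRes ρ d ε),
      TorsAt (ι.comp j) ρ d R.eqv_d k

/-! ### Statements -/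

/-- Job `Atoms`. -/
def AtomsStmt : Prop :=
  ∀ (G H I X : Type) [Group G] [Fintype I] [NormedAddCommGroup H] [InnerProductSpace ℂ H]
    [CompleteSpace H] [MulAction G X] (π : G →* (H →L[ℂ] H)) (e : I → H), GFrame π e →
    ∀ (q : X → H →L[ℂ] H), (∀ x, star (q x) = q x) → (∀ x ξ, q x (q x ξ) = q x ξ) →
    (∀ x x' ξ, x ≠ x' → q x (q x' ξ) = 0) → (∀ g x ξ, π g (q x ξ) = q (g • x) (π g ξ)) →
    (∀ i, (∀ x, q x (e i) = 0) ∨ ∃ x, q x (e i) = e i) →
    ∀ (τ : Bool → H →L[ℂ] H) (bar : Bool → X → X), (∀ s, star (τ s) = τ s) →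
    (∀ s ξ, τ s (τ s ξ) = ξ) → (∀ s g ξ, τ s (π g ξ) = π g (τ s ξ)) →
    (∀ s x, bar s (bar s x) = x) → (∀ s x, bar s x ≠ x) →
    (∀ s x ξ, τ s (q x ξ) = q (bar s x) (τ s ξ)) →
    (∀ s ξ, (∀ x, q x ξ = 0) → τ s ξ = -ξ) →
    (∀ x, ∃ g : G, g • x = bar true x ∧ ∀ ξ, τ true (q x ξ) = π g (q x ξ)) →
    ∀ (L : Submodule ℂ H), IsClosed (L : Set H) → (∀ g, ∀ ξ ∈ L, π g ξ ∈ L) →
    (∀ x, ∃ P : H →L[ℂ] H, (∀ ξ ∈ L, P ξ ∈ L) ∧
      (∀ ξ, τ false (P ξ - q x ξ) = P (τ false ξ) - q x (τ false ξ)) ∧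
      (∀ ξ, q x (P ξ) = q x ξ) ∧
      ∀ x', (∀ ξ, q x' (P ξ) = q x' ξ) ∨ ∀ ξ, q x' (P ξ) = 0) →
    gdim e (L ⊓ (τ false + 1).ker) ≤ gdim e (L ⊓ (τ true + 1).ker) ∧
      gdim e (τ false + 1).ker = gdim e (τ true + 1).ker

/-- Job `Conc`. -/
def ConcStmt : Prop :=
  ∀ (G E : Type) [Group G] [NormedAddCommGroup E] [InnerProductSpace ℂ E] [CompleteSpace E]
    (b : HilbertBasis G ℂ E) (ι : G →* vnAlg b), (∀ g h, (ι g).1 (b h) = b (g * h)) →
    ∀ (V D I J K : Type) [MulAction G V] [MulAction G D] [Fintype I] [Fintype J] [Fintype K]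
      (o : D → V), (∀ (g : G) x, o (g • x) = g • o x) →
    ∀ (lI : I → V) (lJ : J → D) (lK : K → V) (f : Ch G (I ⊕ J) →ₗ[ℤ] Ch G K),
      Eqv (rp G (I ⊕ J)) (rp G K) f →
      Loc (lb (G := G) (Sum.elim lI (o ∘ lJ))) (lb (G := G) lK) id f →
    ∀ (bar : D → D) (t : Fr G J → Fr G J), (∀ x, bar (bar x) = x) → (∀ x, bar x ≠ x) →
      Cut o bar → (∀ (g : G) β, t (g • β) = g • t β) → (∀ β, t (t β) = β) →
      (∀ β, lb lJ (t β) = bar (lb lJ β)) →
    ∀ (σ : D → G), (∀ (g : G) x, σ (g • x) = g * σ x * g⁻¹) → (∀ x, σ x * σ x = 1) →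
      (∀ x, σ x • x ≠ x) →
    zd (mat ι f) (mat ι (thI I t)) ≤ zd (mat ι f) (mat ι (thI I fun β => σ (lb lJ β) • β)) ∧
      ad (mat ι (thI I t)) = ad (mat ι (thI I fun β => σ (lb lJ β) • β))

/-- Job `Mat`. -/
def MatStmt : Prop :=
  ∀ (G E : Type) [Group G] [NormedAddCommGroup E] [InnerProductSpace ℂ E] [CompleteSpace E]
    (b : HilbertBasis G ℂ E) (K₂ K₁ K₀ : Type) [Fintype K₂] [Fintype K₁] [Fintype K₀]
    (M' : Matrix K₂ K₁ (vnAlg b)) (M : Matrix K₁ K₀ (vnAlg b)) (T₂ : Matrix K₂ K₂ (vnAlg b))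
    (T₁ : Matrix K₁ K₁ (vnAlg b)), M' * M = 0 → (∀ w, w ᵥ* T₂ ᵥ* T₂ = w) →
    (∀ w, w ᵥ* T₂ = -w → w ᵥ* M' ᵥ* T₁ = -(w ᵥ* M')) →
    (MT M' M T₂ T₁ ↔ zd M T₁ + zd M' T₂ ≤ ad T₂)

/-- Job `Trans`, first part. -/
def TransStmt : Prop :=
  ∀ (G E : Type) [Group G] [NormedAddCommGroup E] [InnerProductSpace ℂ E] [CompleteSpace E]
    (b : HilbertBasis G ℂ E) (ι : G →* vnAlg b), (∀ g h, (ι g).1 (b h) = b (g * h)) →
    ∀ (G' E' : Type) [Group G'] [NormedAddCommGroup E'] [InnerProductSpace ℂ E']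
      [CompleteSpace E'] (b' : HilbertBasis G' ℂ E') (ι' : G' →* vnAlg b'),
      (∀ g h, (ι' g).1 (b' h) = b' (g * h)) → ∀ j : G →* G', Function.Injective j →
    ∀ (K K' : Type) [Fintype K] [Fintype K'] (f : Ch G K →ₗ[ℤ] Ch G K')
      (θ : Ch G K →ₗ[ℤ] Ch G K),
      zd (mat (ι'.comp j) f) (mat (ι'.comp j) θ) = zd (mat ι f) (mat ι θ) ∧
        ad (mat (ι'.comp j) θ) = ad (mat ι θ)

/-- Job `Trans`, second part. -/
def ModelStmt : Prop :=
  ∀ (G : Type) [Group G], ∃ (b : HilbertBasis G ℂ (L2 G)) (ι : G →* vnAlg b),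
    ∀ g h, (ι g).1 (b h) = b (g * h)

/-- Job `Dict`. -/
def DictStmt : Prop :=
  ∀ (H N : Type) [Group H] [Ring N] (ι : H →* N), IsLeftRegular (2 : N) →
    ∀ (K : ℕ → Type) (d : ∀ j, Ch H (K (j + 1)) →ₗ[ℤ] Ch H (K j))
      (θ : ∀ j, Ch H (K j) →ₗ[ℤ] Ch H (K j)) (h : Invol (fun j => rp H (K j)) d θ) (k : ℕ)
      [Fintype (K (k + 2))] [Fintype (K (k + 1))] [Fintype (K k)],
      (TorsAt ι (antiRep h) (antiD h) (anti_eqv h) k ↔
        MT (mat ι (d (k + 1))) (mat ι (d k)) (mat ι (θ (k + 2))) (mat ι (θ (k + 1)))) ∧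
      (∀ w, w ᵥ* mat ι (θ (k + 2)) ᵥ* mat ι (θ (k + 2)) = w) ∧
      ∀ w, w ᵥ* mat ι (θ (k + 2)) = -w →
        w ᵥ* mat ι (d (k + 1)) ᵥ* mat ι (θ (k + 1)) = -(w ᵥ* mat ι (d (k + 1)))

/-- Job `Res2`. -/
def Res2Stmt : Prop :=
  ∀ (H N M : Type) [Group H] [Ring N] [AddCommGroup M] (ι : H →* N), IsLeftRegular (2 : N) →
    ∀ (ρM : Representation ℤ H M) (C C' : ℕ → Type) [∀ k, AddCommGroup (C k)]
      [∀ k, AddCommGroup (C' k)] (ρ : ∀ k, Representation ℤ H (C k))
      (d : ∀ k, C (k + 1) →ₗ[ℤ] C k) (ε : C 0 →ₗ[ℤ] M) (ρ' : ∀ k, Representation ℤ H (C' k))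
      (d' : ∀ k, C' (k + 1) →ₗ[ℤ] C' k) (ε' : C' 0 →ₗ[ℤ] M) (R : IsResM ρ d ρM ε)
      (R' : IsResM ρ' d' ρM ε') (k : ℕ), TorsAt ι ρ' d' R'.eqv_d k → TorsAt ι ρ d R.eqv_d k

/-- Job `Cone`, first part. -/
def TotStmt : Prop :=
  ∀ (H V D : Type) [Group H] [MulAction H V] [MulAction H D] (I J : ℕ → Type) (o : D → V)
    (lI : ∀ j, I j → V) (lJ : ∀ j, J j → D) (dI : ∀ j, Ch H (I (j + 1)) →ₗ[ℤ] Ch H (I j))
    (dJ : ∀ j, Ch H (J (j + 1)) →ₗ[ℤ] Ch H (J j)) (φ : ∀ j, Ch H (J j) →ₗ[ℤ] Ch H (I j)),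
    (∀ (g : H) x, o (g • x) = g • o x) → Good H o lI lJ dI dJ φ →
    (∀ j c, tot dI dJ φ j (tot dI dJ φ (j + 1) c) = 0) ∧
    (∀ j, Loc (lb (G := H) (Sum.elim (lI (j + 1)) (o ∘ lJ j)))
      (lb (G := H) (Sum.elim (lI j) (o ∘ lm lJ j))) id (tot dI dJ φ j)) ∧
    ∀ (bar : D → D) (t : ∀ j, Fr H (J j) → Fr H (J j)), Flip H bar lJ dJ t →
      Invol (fun j => rp H (Kx I J j)) (tot dI dJ φ) (th I t)

/-- Job `Cone`, second part. -/
def ConeStmt : Prop :=
  ∀ (H V D Y : Type) [Group H] [MulAction H V] [MulAction H D] [MulAction H Y] (I J : ℕ → Type)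
    (o : D → V) (lI : ∀ j, I j → V) (lJ : ∀ j, J j → D)
    (dI : ∀ j, Ch H (I (j + 1)) →ₗ[ℤ] Ch H (I j)) (dJ : ∀ j, Ch H (J (j + 1)) →ₗ[ℤ] Ch H (J j))
    (φ : ∀ j, Ch H (J j) →ₗ[ℤ] Ch H (I j)) (bar : D → D) (t : ∀ j, Fr H (J j) → Fr H (J j))
    (c : V → Y), Good H o lI lJ dI dJ φ → Flip H bar lJ dJ t → Forest H o bar c →
    ∀ h : Invol (fun j => rp H (Kx I J j)) (tot dI dJ φ) (th I t),
      ∃ ε, IsResM (antiRep h) (antiD h) (permRep H Y) ε

/-- Job `Free`. -/
def FreeStmt : Prop :=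
  ∀ (K : Type) [Group K] (m : ℕ), FP K m →
    ∃ (I : ℕ → Type) (d : ∀ j, Ch K (I (j + 1)) →ₗ[ℤ] Ch K (I j)),
      LabRes K (Y := Unit) (fun _ _ => ()) d ∧ ∀ j ≤ m, Finite (I j)

/-- The `H`-set `B'` is the disjoint union of the sets induced from the `G a`-sets `B a`. -/
structure IndFam {H A : Type} [Group H] {G : A → Type} [∀ a, Group (G a)] (j : ∀ a, G a →* H)
    {B : A → Type} [∀ a, MulAction (G a) (B a)] {B' : Type} [MulAction H B']
    (μ : ∀ a, B a → B') : Prop where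
  eqv : ∀ a (g : G a) β, μ a (g • β) = j a g • μ a β
  surj : ∀ β', ∃ (h : H) (a : A) (β : B a), β' = h • μ a β
  idx : ∀ (h : H) a β a' β', h • μ a β = μ a' β' → a = a'
  inj : ∀ (h : H) a β β', h • μ a β = μ a β' → ∃ g, h = j a g ∧ g • β = β'

/-- Job `Ind`: exactness passes to induced complexes. -/
def IndStmt : Prop :=
  ∀ (H A : Type) [Group H] (G : A → Type) [∀ a, Group (G a)] (j : ∀ a, G a →* H)
    (B₀ B₁ B₂ : A → Type) [∀ a, MulAction (G a) (B₁ a)] [∀ a, MulAction (G a) (B₂ a)]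
    (B₀' B₁' B₂' : Type) [MulAction H B₀'] [MulAction H B₁'] [MulAction H B₂']
    (μ₀ : ∀ a, B₀ a → B₀') (μ₁ : ∀ a, B₁ a → B₁') (μ₂ : ∀ a, B₂ a → B₂'),
    (∀ a, Function.Injective (j a)) → IndFam j μ₁ → IndFam j μ₂ →
    ∀ (f : ∀ a, (B₀ a →₀ ℤ) →ₗ[ℤ] (B₁ a →₀ ℤ)) (g : ∀ a, (B₁ a →₀ ℤ) →ₗ[ℤ] (B₂ a →₀ ℤ))
      (f' : (B₀' →₀ ℤ) →ₗ[ℤ] (B₁' →₀ ℤ)) (g' : (B₁' →₀ ℤ) →ₗ[ℤ] (B₂' →₀ ℤ)),
      Eqv (permRep H B₀') (permRep H B₁') f' → Eqv (permRep H B₁') (permRep H B₂') g' →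
      (∀ a c, f' (mapDomain (μ₀ a) c) = mapDomain (μ₁ a) (f a c)) →
      (∀ a c, g' (mapDomain (μ₁ a) c) = mapDomain (μ₂ a) (g a c)) →
      (∀ a c, g a c = 0 → ∃ b, f a b = c) → ∀ c, g' c = 0 → ∃ b, f' b = c

/-- Job `Lab`, first part. -/
def LabVStmt : Prop :=
  ∀ (G Y : Type) [Group G] [MulAction G Y] (m : ℕ), Cofin G Y →
    (∀ y : Y, FP (MulAction.stabilizer G y) m) →
    ∃ (I : ℕ → Type) (lab : ∀ j, I j → Y) (d : ∀ j, Ch G (I (j + 1)) →ₗ[ℤ] Ch G (I j)),
      LabRes G lab d ∧ ∀ j ≤ m, Finite (I j)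

/-- Job `Lab`, second part. -/
def LabDStmt : Prop :=
  ∀ (G D : Type) [Group G] [MulAction G D] (m : ℕ), Cofin G D →
    (∀ x : D, FP (MulAction.stabilizer G x) m) →
    ∀ bar : D → D, (∀ (g : G) x, bar (g • x) = g • bar x) → (∀ x, bar (bar x) = x) →
    (∀ (g : G) x, g • x ≠ bar x) →
    ∃ (J : ℕ → Type) (lab : ∀ j, J j → D) (d : ∀ j, Ch G (J (j + 1)) →ₗ[ℤ] Ch G (J j))
      (t : ∀ j, Fr G (J j) → Fr G (J j)),
      LabRes G lab d ∧ Flip G bar lab d t ∧ ∀ j ≤ m, Finite (J j)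

/-- Job `Lift`. -/
def LiftStmt : Prop :=
  ∀ (G V D : Type) [Group G] [MulAction G V] [MulAction G D] (I J : ℕ → Type) (o : D → V)
    (lI : ∀ j, I j → V) (lJ : ∀ j, J j → D) (dI : ∀ j, Ch G (I (j + 1)) →ₗ[ℤ] Ch G (I j))
    (dJ : ∀ j, Ch G (J (j + 1)) →ₗ[ℤ] Ch G (J j)), (∀ (g : G) x, o (g • x) = g • o x) →
    LabRes G lI dI → LabRes G lJ dJ → ∃ φ, Good G o lI lJ dI dJ φ

/-- Job `Up`. -/
def UpStmt : Prop :=
  ∀ (G H V D V' D' : Type) [Group G] [Group H] [MulAction G V] [MulAction G D] [MulAction H V']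
    [MulAction H D'] (j : G →* H) (μV : V → V') (μD : D → D'), Function.Injective j →
    IndSet j μV → IndSet j μD → ∀ (o : D → V) (bar : D → D) (o' : D' → V') (bar' : D' → D'),
    (∀ (h : H) x, o' (h • x) = h • o' x) → (∀ (h : H) x, bar' (h • x) = h • bar' x) →
    (∀ x, o' (μD x) = μV (o x)) → (∀ x, bar' (μD x) = μD (bar x)) →
    ∀ (I J : ℕ → Type) (lI : ∀ k, I k → V) (lJ : ∀ k, J k → D)
      (dI : ∀ k, Ch G (I (k + 1)) →ₗ[ℤ] Ch G (I k)) (dJ : ∀ k, Ch G (J (k + 1)) →ₗ[ℤ] Ch G (J k))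
      (φ : ∀ k, Ch G (J k) →ₗ[ℤ] Ch G (I k)) (t : ∀ k, Fr G (J k) → Fr G (J k)),
      Good G o lI lJ dI dJ φ → Flip G bar lJ dJ t →
      ∃ (dI' : ∀ k, Ch H (I (k + 1)) →ₗ[ℤ] Ch H (I k))
        (dJ' : ∀ k, Ch H (J (k + 1)) →ₗ[ℤ] Ch H (J k)) (φ' : ∀ k, Ch H (J k) →ₗ[ℤ] Ch H (I k))
        (t' : ∀ k, Fr H (J k) → Fr H (J k)),
        Good H o' (fun k => μV ∘ lI k) (fun k => μD ∘ lJ k) dI' dJ' φ' ∧
        Flip H bar' (fun k => μD ∘ lJ k) dJ' t' ∧
        (∀ k, Ovr j (tot dI dJ φ k) (tot dI' dJ' φ' k)) ∧ ∀ k, Ovr j (th I t k) (th I t' k)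

/-- Job `TreeG`. -/
def TreeStmt : Prop :=
  ∀ (G V : Type) [Group G] [MulAction G V] (T : SimpleGraph V), T.IsTree →
    (∀ (g : G) v w, T.Adj v w → T.Adj (g • v) (g • w)) →
    ∃ (D : Type) (_ : MulAction G D) (o : D → V) (bar : D → D),
      Darts G T o bar ∧ Forest G o bar (fun _ => ()) ∧ Cut o bar

/-- Job `Gamma`. -/
def GammaStmt : Prop :=
  ∀ (G V D : Type) [Group G] [MulAction G V] [MulAction G D] (T : SimpleGraph V) (o : D → V)
    (bar : D → D), Darts G T o bar → Cut o bar →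
    ∃ (H V' D' Y : Type) (_ : Group H) (_ : MulAction H V') (_ : MulAction H D')
      (_ : MulAction H Y) (j : G →* H) (μV : V → V') (μD : D → D') (o' : D' → V')
      (bar' : D' → D') (σ : D' → H) (c : V' → Y),
      Function.Injective j ∧ IndSet j μV ∧ IndSet j μD ∧
      (∀ (h : H) x, o' (h • x) = h • o' x) ∧ (∀ (h : H) x, bar' (h • x) = h • bar' x) ∧
      (∀ x, o' (μD x) = μV (o x)) ∧ (∀ x, bar' (μD x) = μD (bar x)) ∧
      (∀ x, bar' (bar' x) = x) ∧ (∀ x, bar' x ≠ x) ∧ Cut o' bar' ∧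
      (∀ (h : H) x, σ (h • x) = h * σ x * h⁻¹) ∧ (∀ x, σ x * σ x = 1) ∧
      Forest H o' (fun x => σ x • x) c ∧
      ∀ y : Y, ∃ (v : V) (Φ : Refl G T v →* H), Function.Injective Φ ∧
        Φ.range = MulAction.stabilizer H y

/-- Job `Shap`. -/
def ShapStmt : Prop :=
  ∀ (H N Y : Type) [Group H] [Ring N] [MulAction H Y] (ι : H →* N), IsLeftRegular (2 : N) →
    ∀ (B : ℕ → Type) [∀ k, MulAction H (B k)] (d : ∀ k, (B (k + 1) →₀ ℤ) →ₗ[ℤ] (B k →₀ ℤ))
      (ε : (B 0 →₀ ℤ) →ₗ[ℤ] ℤ) (R : IsRes (fun k => permRep H (B k)) d ε),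
      (∀ k (g : H) (β : B k), g • β = β → g = 1) → ∀ k : ℕ,
      (∀ y : Y, ∃ (K : Type) (_ : Group K) (Φ : K →* H), Φ.range = MulAction.stabilizer H y ∧
        TorsAt (ι.comp Φ) (fun k => (permRep H (B k)).comp Φ) d
          (fun k g c => R.eqv_d k (Φ g) c) k) →
      ∀ (C : ℕ → Type) [∀ k, AddCommGroup (C k)] (ρ : ∀ k, Representation ℤ H (C k))
        (d' : ∀ k, C (k + 1) →ₗ[ℤ] C k) (ε' : C 0 →ₗ[ℤ] (Y →₀ ℤ))
        (R' : IsResM ρ d' (permRep H Y) ε'), TorsAt ι ρ d' R'.eqv_d k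

end Pool.Agent.MP_4f4d9f_gt.Db

end

section

/-! Resolutions of permutation modules and stabilisers. -/

namespace Pool.Agent.MP_4f4d9f_gt.Db

open Finsupp

namespace Shap

section Dec

variable {R M A : Type} [Ring R] [AddCommGroup M] [Module R M] (e : A → M →ₗ[R] M)

/-- The element is the finite sum of its components. -/
def Dec (z : M) : Prop := ∃ T : Finset A, ∀ T' : Finset A, T ⊆ T' → ∑ a ∈ T', e a z = z

variable {e}

theorem Dec.zero : Dec e 0 := ⟨∅, fun _ _ => by simp⟩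

theorem Dec.add {x y : M} (hx : Dec e x) (hy : Dec e y) : Dec e (x + y) := by
  classical
  obtain ⟨T, hT⟩ := hx
  obtain ⟨S, hS⟩ := hy
  refine ⟨T ∪ S, fun T' h => ?_⟩
  simp only [map_add, Finset.sum_add_distrib]
  rw [hT T' (Finset.subset_union_left.trans h), hS T' (Finset.subset_union_right.trans h)]

theorem Dec.smul {x : M} (hx : Dec e x) (r : R) : Dec e (r • x) := by
  obtain ⟨T, hT⟩ := hx
  refine ⟨T, fun T' h => ?_⟩
  simp only [map_smul, ← Finset.smul_sum]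
  rw [hT T' h]

theorem Dec.neg {x : M} (hx : Dec e x) : Dec e (-x) := by
  simpa using hx.smul (-1)

theorem Dec.single {x : M} (a : A) (h : e a x = x) (h' : ∀ a', a' ≠ a → e a' x = 0) : Dec e x :=
  ⟨{a}, fun T' hT => by
    rw [Finset.sum_eq_single_of_mem a (hT (Finset.mem_singleton_self a)) fun a' _ => h' a', h]⟩

end Dec

section Prod

variable {Y B B' B'' : Type}

/-- The slice over `y`. -/
noncomputable def inY (y : Y) : (B →₀ ℤ) →ₗ[ℤ] (Y × B →₀ ℤ) := lmapDomain ℤ ℤ fun b => (y, b)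

theorem inY_single (y : Y) (b : B) (n : ℤ) : inY y (single b n) = single (y, b) n :=
  mapDomain_single

theorem in_ext {M : Type} [AddCommGroup M] {f g : (Y × B →₀ ℤ) →ₗ[ℤ] M}
    (h : ∀ y c, f (inY y c) = g (inY y c)) : f = g :=
  ch_ext fun p => by rw [← inY_single p.1 p.2]; exact h _ _

/-- The map on the product that is `f y` on the slice over `y`. -/
noncomputable def glue {M : Type} [AddCommGroup M] (f : Y → (B →₀ ℤ) →ₗ[ℤ] M) :
    (Y × B →₀ ℤ) →ₗ[ℤ] M := linearCombination ℤ fun p => f p.1 (single p.2 1)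

theorem glue_in {M : Type} [AddCommGroup M] (f : Y → (B →₀ ℤ) →ₗ[ℤ] M) (y : Y) (c : B →₀ ℤ) :
    glue f (inY y c) = f y c :=
  LinearMap.congr_fun (f := glue f ∘ₗ inY y) (g := f y) (ch_ext fun b => by
    rw [LinearMap.comp_apply, inY_single, glue, linearCombination_single, one_smul]) c

open Classical in
/-- The component over `y`. -/
noncomputable def outY (y : Y) : (Y × B →₀ ℤ) →ₗ[ℤ] (B →₀ ℤ) :=
  glue fun y' => if y' = y then LinearMap.id else 0

theorem out_in (y : Y) (c : B →₀ ℤ) : outY y (inY y c) = c := by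
  rw [outY, glue_in, if_pos rfl, LinearMap.id_apply]

theorem out_in_ne {y y' : Y} (h : y' ≠ y) (c : B →₀ ℤ) : outY y (inY y' c) = 0 := by
  rw [outY, glue_in, if_neg h, LinearMap.zero_apply]

variable (Y) in
/-- The map acting on the second factor. -/
noncomputable def ext (f : (B →₀ ℤ) →ₗ[ℤ] (B' →₀ ℤ)) : (Y × B →₀ ℤ) →ₗ[ℤ] (Y × B' →₀ ℤ) :=
  glue fun y => inY y ∘ₗ f

theorem ext_in (f : (B →₀ ℤ) →ₗ[ℤ] (B' →₀ ℤ)) (y : Y) (c : B →₀ ℤ) :
    ext Y f (inY y c) = inY y (f c) := glue_in _ y c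

theorem out_ext (f : (B →₀ ℤ) →ₗ[ℤ] (B' →₀ ℤ)) (y : Y) (c : Y × B →₀ ℤ) :
    outY y (ext Y f c) = f (outY y c) :=
  LinearMap.congr_fun (f := outY y ∘ₗ ext Y f) (g := f ∘ₗ outY y) (in_ext fun y' c => by
    rw [LinearMap.comp_apply, LinearMap.comp_apply, ext_in]
    by_cases h : y' = y
    · rw [h, out_in, out_in]
    · rw [out_in_ne h, out_in_ne h, map_zero]) c

variable (Y) in
/-- The augmentation. -/
noncomputable def aug (ε : (B →₀ ℤ) →ₗ[ℤ] ℤ) : (Y × B →₀ ℤ) →ₗ[ℤ] (Y →₀ ℤ) :=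
  glue fun y => lsingle y ∘ₗ ε

theorem aug_in (ε : (B →₀ ℤ) →ₗ[ℤ] ℤ) (y : Y) (c : B →₀ ℤ) :
    aug Y ε (inY y c) = single y (ε c) := glue_in _ y c

theorem aug_apply (ε : (B →₀ ℤ) →ₗ[ℤ] ℤ) (y : Y) (c : Y × B →₀ ℤ) :
    aug Y ε c y = ε (outY y c) :=
  LinearMap.congr_fun (f := lapply y ∘ₗ aug Y ε) (g := ε ∘ₗ outY y) (in_ext fun y' c => by
    rw [LinearMap.comp_apply, LinearMap.comp_apply, aug_in, lapply_apply]
    by_cases h : y' = y
    · rw [h, out_in, single_eq_same]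
    · rw [out_in_ne h, single_eq_of_ne' h, map_zero]) c

theorem dec_in (c : Y × B →₀ ℤ) : Dec (fun y : Y => inY y ∘ₗ outY y) c := by
  induction c using ch_induction with
  | h0 => exact Dec.zero
  | hadd x y hx hy => exact hx.add hy
  | hneg x hx => exact hx.neg
  | h1 p =>
    rw [← inY_single p.1 p.2]
    exact Dec.single p.1 (by rw [LinearMap.comp_apply, out_in]) fun y h => by
      rw [LinearMap.comp_apply, out_in_ne h.symm, map_zero]

theorem exists_ext (f : (B →₀ ℤ) →ₗ[ℤ] (B' →₀ ℤ)) (c : Y × B' →₀ ℤ)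
    (h : ∀ y, ∃ b, f b = outY y c) : ∃ b, ext Y f b = c := by
  choose b hb using h
  obtain ⟨T, hT⟩ := dec_in c
  refine ⟨∑ y ∈ T, inY y (b y), ?_⟩
  rw [map_sum, ← hT T subset_rfl]
  exact Finset.sum_congr rfl fun y _ => by rw [ext_in, hb, LinearMap.comp_apply]

variable {H : Type} [Group H] [MulAction H Y] [MulAction H B] [MulAction H B']

theorem rep_in (g : H) (y : Y) (c : B →₀ ℤ) :
    permRep H (Y × B) g (inY y c) = inY (g • y) (permRep H B g c) :=
  LinearMap.congr_fun (f := permRep H (Y × B) g ∘ₗ inY y) (g := inY (g • y) ∘ₗ permRep H B g)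
    (ch_ext fun b => by
      rw [LinearMap.comp_apply, LinearMap.comp_apply, inY_single, permRep_single, permRep_single,
        inY_single, Prod.smul_mk]) c

theorem eqv_ext {f : (B →₀ ℤ) →ₗ[ℤ] (B' →₀ ℤ)} (hf : Eqv (permRep H B) (permRep H B') f) :
    Eqv (permRep H (Y × B)) (permRep H (Y × B')) (ext Y f) := fun g c =>
  LinearMap.congr_fun (f := ext Y f ∘ₗ permRep H (Y × B) g)
    (g := permRep H (Y × B') g ∘ₗ ext Y f) (in_ext fun y c => by
      rw [LinearMap.comp_apply, LinearMap.comp_apply, rep_in, ext_in, ext_in, rep_in, hf]) c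

end Prod

theorem isResM {H Y : Type} [Group H] [MulAction H Y] {B : ℕ → Type} [∀ k, MulAction H (B k)]
    {d : ∀ k, (B (k + 1) →₀ ℤ) →ₗ[ℤ] (B k →₀ ℤ)} {ε : (B 0 →₀ ℤ) →ₗ[ℤ] ℤ}
    (R : IsRes (fun k => permRep H (B k)) d ε) (hf : ∀ k (g : H) (β : B k), g • β = β → g = 1) :
    IsResM (fun k => permRep H (Y × B k)) (fun k => ext Y (d k)) (permRep H Y) (aug Y ε) where
  eqv_d k := eqv_ext (R.eqv_d k)
  eqv_ε g c := LinearMap.congr_fun (f := aug Y ε ∘ₗ permRep H (Y × B 0) g)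
    (g := permRep H Y g ∘ₗ aug Y ε) (in_ext fun y c => by
      rw [LinearMap.comp_apply, LinearMap.comp_apply, rep_in, aug_in, aug_in, permRep_single,
        R.eqv_ε]) c
  ε_d c := by
    ext y
    rw [aug_apply, out_ext, R.ε_d, Finsupp.zero_apply]
  d_d k c := LinearMap.congr_fun (f := ext Y (d k) ∘ₗ ext Y (d (k + 1))) (g := 0)
    (in_ext fun y c => by
      rw [LinearMap.comp_apply, ext_in, ext_in, R.d_d, map_zero, LinearMap.zero_apply]) c
  surj t := by
    obtain ⟨c, hc⟩ := R.surj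
    induction t using Finsupp.induction_linear with
    | zero => exact ⟨0, map_zero _⟩
    | add x y hx hy =>
      obtain ⟨a, rfl⟩ := hx
      obtain ⟨b, rfl⟩ := hy
      exact ⟨a + b, map_add _ _ _⟩
    | single y n => exact ⟨inY y (n • c), by rw [aug_in, map_zsmul, hc, smul_eq_mul, mul_one]⟩
  exact_zero c hc := exists_ext _ c fun y => R.exact_zero _ (by
    rw [← aug_apply, hc, Finsupp.zero_apply])
  exact_succ k c hc := exists_ext _ c fun y => R.exact_succ k _ (by rw [← out_ext, hc, map_zero])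
  proj k := proj2_of_proj (proj_free (MonoidHom.id H) Function.injective_id fun g p hp =>
    hf k g p.2 (congrArg Prod.snd hp))

section Stab

variable {H N Y K B B' : Type} [Group H] [Ring N] [Group K] [MulAction H Y] [MulAction H B]
  [MulAction H B'] (ι : H →* N) {Φ : K →* H} {y₀ : Y} (hΦ : Φ.range = MulAction.stabilizer H y₀)

include hΦ in
theorem fix (k : K) : Φ k • y₀ = y₀ := by
  have : Φ k ∈ Φ.range := ⟨k, rfl⟩
  rwa [hΦ] at this

variable (B) in
/-- The inclusion of the summand of an orbit. -/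
noncomputable def inT : Tens (ι.comp Φ) ((permRep H B).comp Φ) →ₗ[N] Tens ι (permRep H (Y × B)) :=
  Tens.lift _ (Tens.of ι _ ∘ₗ inY y₀) fun k c => by
    rw [LinearMap.comp_apply, LinearMap.comp_apply, MonoidHom.comp_apply, MonoidHom.comp_apply,
      ← Tens.of_rep, rep_in, fix hΦ]

theorem inT_of (c : B →₀ ℤ) : inT B ι hΦ (Tens.of _ _ c) = Tens.of ι _ (inY y₀ c) :=
  Tens.lift_of _ _ _ c

variable (Φ y₀) in
open Classical in
/-- The projection to the summand of an orbit, on chains. -/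
noncomputable def outC : (Y × B →₀ ℤ) →ₗ[ℤ] Tens (ι.comp Φ) ((permRep H B).comp Φ) :=
  glue fun y => if h : ∃ g : H, g • y₀ = y then
    ι h.choose • (Tens.of (ι.comp Φ) ((permRep H B).comp Φ) ∘ₗ permRep H B h.choose⁻¹) else 0

include hΦ in
theorem outC_in {g : H} {y : Y} (hg : g • y₀ = y) (c : B →₀ ℤ) :
    outC ι Φ y₀ (inY y c) = ι g • Tens.of _ _ (permRep H B g⁻¹ c) := by
  have h : ∃ g : H, g • y₀ = y := ⟨g, hg⟩
  rw [outC, glue_in, dif_pos h]
  have h1 : h.choose⁻¹ * g ∈ Φ.range := by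
    rw [hΦ, MulAction.mem_stabilizer_iff, mul_smul, hg, inv_smul_eq_iff, h.choose_spec]
  obtain ⟨k, hk⟩ := h1
  have h2 : g = h.choose * Φ k := by rw [hk, mul_inv_cancel_left]
  have h3 := Tens.of_rep (ι.comp Φ) ((permRep H B).comp Φ) k (permRep H B g⁻¹ c)
  rw [MonoidHom.comp_apply, MonoidHom.comp_apply, ← Module.End.mul_apply, ← map_mul, hk,
    mul_inv_cancel_right] at h3
  rw [LinearMap.smul_apply, LinearMap.comp_apply, h3, ← mul_smul, ← map_mul, mul_inv_cancel_left]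

theorem outC_in_ne {y : Y} (h : ¬ ∃ g : H, g • y₀ = y) (c : B →₀ ℤ) :
    outC ι Φ y₀ (inY y c) = 0 := by
  rw [outC, glue_in, dif_neg h, LinearMap.zero_apply]

include hΦ in
theorem outC_rep (g : H) (c : Y × B →₀ ℤ) :
    outC ι Φ y₀ (permRep H (Y × B) g c) = ι g • outC ι Φ y₀ c :=
  LinearMap.congr_fun (f := outC ι Φ y₀ ∘ₗ permRep H (Y × B) g) (g := ι g • outC ι Φ y₀)
    (in_ext fun y c => by
      rw [LinearMap.comp_apply, LinearMap.smul_apply, rep_in]
      by_cases h : ∃ g : H, g • y₀ = y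
      · obtain ⟨g', hg'⟩ := h
        rw [outC_in ι hΦ hg', outC_in ι hΦ (g := g * g') (by rw [mul_smul, hg']), map_mul,
          mul_smul, ← Module.End.mul_apply, ← map_mul, mul_inv_rev, inv_mul_cancel_right]
      · rw [outC_in_ne ι h, outC_in_ne ι, smul_zero]
        rintro ⟨g', hg'⟩
        exact h ⟨g⁻¹ * g', by rw [mul_smul, hg', inv_smul_smul]⟩) c

variable (B) in
/-- The projection to the summand of an orbit. -/
noncomputable def outT : Tens ι (permRep H (Y × B)) →ₗ[N] Tens (ι.comp Φ) ((permRep H B).comp Φ) :=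
  Tens.lift _ (outC ι Φ y₀) (outC_rep ι hΦ)

theorem outT_of (c : Y × B →₀ ℤ) : outT B ι hΦ (Tens.of _ _ c) = outC ι Φ y₀ c :=
  Tens.lift_of _ _ _ c

theorem map_inT {f : (B →₀ ℤ) →ₗ[ℤ] (B' →₀ ℤ)} (hf : Eqv (permRep H B) (permRep H B') f)
    (z : Tens (ι.comp Φ) ((permRep H B).comp Φ)) :
    Tens.map ι (ext Y f) (eqv_ext hf) (inT B ι hΦ z) =
      inT B' ι hΦ (Tens.map (ι.comp Φ) f (fun g c => hf (Φ g) c) z) :=
  LinearMap.congr_fun (f := Tens.map ι (ext Y f) (eqv_ext hf) ∘ₗ inT B ι hΦ)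
    (g := inT B' ι hΦ ∘ₗ Tens.map (ι.comp Φ) f (fun g c => hf (Φ g) c))
    (Tens.hom_ext _ fun c => by
      rw [LinearMap.comp_apply, LinearMap.comp_apply, inT_of, Tens.map_of ι _ (eqv_ext hf),
        Tens.map_of _ _ fun g c => hf (Φ g) c, inT_of, ext_in]) z

theorem map_outT {f : (B →₀ ℤ) →ₗ[ℤ] (B' →₀ ℤ)} (hf : Eqv (permRep H B) (permRep H B') f)
    (z : Tens ι (permRep H (Y × B))) :
    Tens.map (ι.comp Φ) f (fun g c => hf (Φ g) c) (outT B ι hΦ z) =
      outT B' ι hΦ (Tens.map ι (ext Y f) (eqv_ext hf) z) :=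
  LinearMap.congr_fun (f := Tens.map (ι.comp Φ) f (fun g c => hf (Φ g) c) ∘ₗ outT B ι hΦ)
    (g := outT B' ι hΦ ∘ₗ Tens.map ι (ext Y f) (eqv_ext hf))
    (Tens.hom_ext _ fun c => by
      rw [LinearMap.comp_apply, LinearMap.comp_apply, outT_of, Tens.map_of ι _ (eqv_ext hf),
        outT_of]
      refine LinearMap.congr_fun
        (f := (Tens.map (ι.comp Φ) f (fun g c => hf (Φ g) c)).restrictScalars ℤ ∘ₗ outC ι Φ y₀)
        (g := outC ι Φ y₀ ∘ₗ ext Y f) (in_ext fun y c => ?_) c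
      rw [LinearMap.comp_apply, LinearMap.comp_apply, LinearMap.restrictScalars_apply, ext_in]
      by_cases h : ∃ g : H, g • y₀ = y
      · obtain ⟨g, hg⟩ := h
        rw [outC_in ι hΦ hg, outC_in ι hΦ hg, map_smul,
          Tens.map_of _ _ fun g c => hf (Φ g) c, hf]
      · rw [outC_in_ne ι h, outC_in_ne ι h, map_zero]) z

theorem in_out {g : H} {y : Y} (hg : g • y₀ = y) (c : B →₀ ℤ) :
    inT B ι hΦ (outT B ι hΦ (Tens.of _ _ (inY y c))) = Tens.of _ _ (inY y c) := by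
  rw [outT_of, outC_in ι hΦ hg, map_smul, inT_of, ← Tens.of_rep, rep_in, hg,
    ← Module.End.mul_apply, ← map_mul, mul_inv_cancel, map_one, Module.End.one_apply]

theorem in_out_ne {y : Y} (h : ¬ ∃ g : H, g • y₀ = y) (c : B →₀ ℤ) :
    inT B ι hΦ (outT B ι hΦ (Tens.of _ _ (inY y c))) = 0 := by
  rw [outT_of, outC_in_ne ι h, map_zero]

theorem dec_tens {A : Type} (e : A → Tens ι (permRep H (Y × B)) →ₗ[N] Tens ι (permRep H (Y × B)))
    (h : ∀ y c, Dec e (Tens.of ι _ (inY y c))) (z : Tens ι (permRep H (Y × B))) : Dec e z := by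
  induction z using Tens.induction with
  | h0 => exact Dec.zero
  | hadd x y hx hy => exact hx.add hy
  | h1 n c =>
    refine Dec.smul ?_ n
    induction c using ch_induction with
    | h0 => rw [map_zero]; exact Dec.zero
    | hadd x y hx hy => rw [map_add]; exact hx.add hy
    | hneg x hx => rw [map_neg]; exact hx.neg
    | h1 p => rw [← inY_single p.1 p.2]; exact h _ _

variable (H Y) in
theorem exists_reps : ∃ (A : Type) (r : A → Y), ∀ y, ∃ a, (∃ g : H, g • r a = y) ∧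
    ∀ a', a' ≠ a → ¬ ∃ g : H, g • r a' = y := by
  refine ⟨MulAction.orbitRel.Quotient H Y, Quotient.out, fun y => ⟨Quotient.mk _ y,
    (MulAction.orbitRel H Y).symm (Quotient.mk_out (s := MulAction.orbitRel H Y) y), ?_⟩⟩
  rintro a ha hg
  exact ha (a.out_eq.symm.trans (Quotient.sound (s := MulAction.orbitRel H Y) hg).symm)

end Stab

/-- All multiples of `z` are boundaries up to a regular factor. -/
def Tz {N M M' : Type} [Ring N] [AddCommGroup M] [AddCommGroup M'] [Module N M] [Module N M']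
    (D : M' →ₗ[N] M) (z : M) : Prop :=
  ∀ n : N, ∃ s : N, IsLeftRegular s ∧ ∃ w, D w = s • n • z

theorem Tz.add {N M M' : Type} [Ring N] [AddCommGroup M] [AddCommGroup M'] [Module N M]
    [Module N M'] {D : M' →ₗ[N] M} (x y : M) (hx : Tz D x) (hy : Tz D y) : Tz D (x + y) := by
  intro n
  obtain ⟨s, hs, w, hw⟩ := hx n
  obtain ⟨s', hs', w', hw'⟩ := hy (s * n)
  exact ⟨s' * s, hs'.mul hs, s' • w + w', by
    rw [map_add, map_smul, hw, hw', mul_smul, mul_smul, smul_add, smul_add, smul_add]⟩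

end Shap

open Shap in
theorem shap_stmt (h : Res2Stmt) : ShapStmt := by
  intro H N Y _ _ _ ι h2 B _ d ε R hf k hy C _ ρ d' ε' R'
  refine h H N _ ι h2 _ _ _ _ _ _ _ _ _ R' (isResM (Y := Y) R hf) k fun z hz => ?_
  choose K _ Φ hΦ hT using hy
  obtain ⟨A, r, hr⟩ := exists_reps H Y
  obtain ⟨T, hT'⟩ := dec_tens ι (fun a : A =>
      inT (B (k + 1)) ι (hΦ (r a)) ∘ₗ outT (B (k + 1)) ι (hΦ (r a))) (fun y c => by
    obtain ⟨a, ⟨g, hg⟩, ha⟩ := hr y
    exact Dec.single a (in_out ι (hΦ (r a)) hg c) fun a' h' =>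
      in_out_ne ι (hΦ (r a')) (ha a' h') c) z
  have key : Tz (Tens.map ι (ext Y (d (k + 1))) (Shap.eqv_ext (R.eqv_d (k + 1)))) z := by
    rw [← hT' T subset_rfl]
    refine Finset.sum_induction _ _ Tz.add
      (fun n => ⟨1, isRegular_one.left, 0, by simp⟩) fun a _ n => ?_
    obtain ⟨s, hs, w, hw⟩ := hT (r a) (n • outT (B (k + 1)) ι (hΦ (r a)) z) (by
      rw [map_smul, map_outT ι (hΦ (r a)) (R.eqv_d k), hz, map_zero, smul_zero])
    exact ⟨s, hs, inT _ ι (hΦ (r a)) w, by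
      rw [map_inT ι (hΦ (r a)) (R.eqv_d (k + 1)), hw, map_smul, map_smul, LinearMap.comp_apply]⟩
  obtain ⟨s, hs, w, hw⟩ := key 1
  exact ⟨s, hs, w, by rwa [one_smul] at hw⟩

end Pool.Agent.MP_4f4d9f_gt.Db

end

section

/-! The combinatorial interface: wall structures, flips, averaging maps and moments. -/

namespace Pool.Agent.MP_4f4d9f_gt.Cb

open Finsupp Db

/-! ### Median wall structures -/

/-- `sep a b` is the finite set of hyperplanes that separate the vertices `a` and `b`. -/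
structure Wl (G : Type) [Group G] {V Hy : Type} [MulAction G V] [MulAction G Hy]
    (sep : V → V → Finset Hy) : Prop where
  tri : ∀ a b c h, h ∈ sep a c ↔ ¬ (h ∈ sep a b ↔ h ∈ sep b c)
  eqv : ∀ (g : G) a b h, g • h ∈ sep (g • a) (g • b) ↔ h ∈ sep a b
  inj : ∀ a b, sep a b = ∅ → a = b
  step : ∀ a b, a ≠ b → ∃ c, ∃ h ∈ sep a b, sep a c = {h}
  med : ∀ a b c, ∃ m, Disjoint (sep a m) (sep m b) ∧ Disjoint (sep b m) (sep m c) ∧
    Disjoint (sep a m) (sep m c)

/-- Two hyperplanes cross: they are dual to the sides of a square. -/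
def Cross {V Hy : Type} (sep : V → V → Finset Hy) (h h' : Hy) : Prop :=
  h ≠ h' ∧ ∃ v a b x, sep v a = {h} ∧ sep v b = {h'} ∧ sep a x = {h'} ∧ sep b x = {h}

theorem Cross.symm {V Hy : Type} {sep : V → V → Finset Hy} {h h' : Hy} (H : Cross sep h h') :
    Cross sep h' h := by
  obtain ⟨h0, v, a, b, x, h1, h2, h3, h4⟩ := H
  exact ⟨h0.symm, v, b, a, x, h2, h1, h4, h3⟩

namespace Wl

variable {G V Hy : Type} [Group G] [MulAction G V] [MulAction G Hy] {sep : V → V → Finset Hy}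
  (W : Wl G sep)

include W

theorem self (a : V) : sep a a = ∅ := by
  ext h
  have := W.tri a a a h
  simp only [Finset.notMem_empty]
  tauto

theorem symm (a b : V) : sep a b = sep b a := by
  ext h
  have := W.tri a b a h
  rw [W.self] at this
  simp only [Finset.notMem_empty] at this
  tauto

theorem ext {v a b : V} (h : sep v a = sep v b) : a = b :=
  W.inj a b (by
    ext k
    have := W.tri a v b k
    rw [W.symm a v, h] at this
    simp only [Finset.notMem_empty]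
    tauto)

theorem single_smul (g : G) {a b : V} {h : Hy} (e : sep a b = {h}) :
    sep (g • a) (g • b) = {g • h} := by
  ext k
  rw [← smul_inv_smul g k, W.eqv, e, Finset.mem_singleton, Finset.mem_singleton,
    smul_left_cancel_iff]

theorem cross_smul (g : G) (h h' : Hy) (H : Cross sep h h') : Cross sep (g • h) (g • h') := by
  obtain ⟨h0, v, a, b, x, h1, h2, h3, h4⟩ := H
  exact ⟨fun e => h0 (MulAction.injective g e), _, _, _, _, W.single_smul g h1, W.single_smul g h2,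
    W.single_smul g h3, W.single_smul g h4⟩

/-- Two edges at `v` that both point towards some vertex span a square. -/
theorem quad {v a b u : V} {h h' : Hy} (hne : h ≠ h') (ha : sep v a = {h}) (hb : sep v b = {h'})
    (h1 : h ∈ sep v u) (h2 : h' ∈ sep v u) : ∃ x, sep a x = {h'} ∧ sep b x = {h} := by
  obtain ⟨m, m1, m2, m3⟩ := W.med a b u
  rw [Finset.disjoint_left] at m1 m2 m3
  have key : ∀ k, k ∈ sep v m ↔ k = h ∨ k = h' := fun k => by
    have e1 := W.tri a v m k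
    have e2 := W.tri b v m k
    have e3 := W.tri m v b k
    have e4 := W.tri m v u k
    rw [W.symm a v, ha, Finset.mem_singleton] at e1
    rw [W.symm b v, hb, Finset.mem_singleton] at e2
    rw [hb, W.symm m v, Finset.mem_singleton] at e3
    rw [W.symm m v] at e4
    have f1 := @m1 k
    have f2 := @m2 k
    have f3 := @m3 k
    grind
  refine ⟨m, ?_, ?_⟩
  · ext k
    rw [W.tri a v m k, W.symm a v, ha, key, Finset.mem_singleton, Finset.mem_singleton]
    grind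
  · ext k
    rw [W.tri b v m k, W.symm b v, hb, key, Finset.mem_singleton, Finset.mem_singleton]
    grind

/-- Crossing hyperplanes that are both adjacent to `v` span a square at `v`. -/
theorem square {v a b : V} {h h' : Hy} (H : Cross sep h h') (ha : sep v a = {h})
    (hb : sep v b = {h'}) : ∃ x, sep a x = {h'} ∧ sep b x = {h} := by
  obtain ⟨hne, v₀, a₀, b₀, x₀, h1, h2, h3, h4⟩ := H
  have t := W.tri v v₀
  have e1 : ∀ k, k ∈ sep v₀ x₀ ↔ ¬ (k = h ↔ k = h') := fun k => by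
    rw [W.tri v₀ a₀ x₀, h1, h3, Finset.mem_singleton, Finset.mem_singleton]
  by_cases c1 : h ∈ sep v v₀ <;> by_cases c2 : h' ∈ sep v v₀
  · exact W.quad hne ha hb c1 c2
  · refine W.quad (u := b₀) hne ha hb ?_ ?_ <;> rw [t, h2, Finset.mem_singleton] <;> grind
  · refine W.quad (u := a₀) hne ha hb ?_ ?_ <;> rw [t, h1, Finset.mem_singleton] <;> grind
  · refine W.quad (u := x₀) hne ha hb ?_ ?_ <;> rw [t, e1] <;> grind

end Wl

/-! ### Flips and averages -/

section Flip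

variable {B B₂ Hy : Type}

/-- Commuting involutions `F h`, acting on the cell `β` only for `h ∈ σ β`. -/
structure FlipSys (σ : B → Finset Hy) (F : Hy → B → B) : Prop where
  inv : ∀ h β, F h (F h β) = β
  comm : ∀ h h' β, F h (F h' β) = F h' (F h β)
  sig : ∀ h β, σ (F h β) = σ β
  out : ∀ h β, h ∉ σ β → F h β = β

/-- The composite of the flips in a finite set. -/
noncomputable def FS (F : Hy → B → B) (τ : Finset Hy) (β : B) : B := τ.toList.foldr F β

theorem FS_empty (F : Hy → B → B) (β : B) : FS F ∅ β = β := by simp [FS]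

theorem FS_insert [DecidableEq Hy] {F : Hy → B → B}
    (hF : ∀ h h' β, F h (F h' β) = F h' (F h β)) {h : Hy} {τ : Finset Hy} (hτ : h ∉ τ) (β : B) :
    FS F (insert h τ) β = F h (FS F τ β) :=
  have : LeftCommutative F := ⟨hF⟩
  (Finset.toList_insert hτ).foldr_eq β

/-- `2 ^ d` times the average over the flips of a cell. -/
noncomputable def avg (d : ℕ) (σ : B → Finset Hy) (F : Hy → B → B) : (B →₀ ℤ) →ₗ[ℤ] (B →₀ ℤ) :=
  linearCombination ℤ fun β =>
    (2 ^ (d - (σ β).card) : ℤ) • ∑ τ ∈ (σ β).powerset, single (FS F τ β) 1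

theorem avg_single (d : ℕ) (σ : B → Finset Hy) (F : Hy → B → B) (β : B) :
    avg d σ F (single β 1) =
      (2 ^ (d - (σ β).card) : ℤ) • ∑ τ ∈ (σ β).powerset, single (FS F τ β) 1 := by
  rw [avg, linearCombination_single, one_smul]

open Classical in
/-- The flips of the unfolded cells; `s = true` is the mirror gluing. -/
noncomputable def Fw (c : Hy → Hy → Prop) (σ : B → Finset Hy) (F : Hy → B → B) (s : Bool) (h : Hy)
    (x : RA c × B) : RA c × B :=
  if h ∈ σ x.2 then (x.1 * gen c h, if s then x.2 else F h x.2) else x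

theorem Fw_pos {c : Hy → Hy → Prop} {σ : B → Finset Hy} {F : Hy → B → B} {s : Bool} {h : Hy}
    {x : RA c × B} (hx : h ∈ σ x.2) :
    Fw c σ F s h x = (x.1 * gen c h, if s then x.2 else F h x.2) := if_pos hx

theorem Fw_neg {c : Hy → Hy → Prop} {σ : B → Finset Hy} {F : Hy → B → B} {s : Bool} {h : Hy}
    {x : RA c × B} (hx : h ∉ σ x.2) : Fw c σ F s h x = x := if_neg hx

theorem flipSys_Fw {c : Hy → Hy → Prop} {σ : B → Finset Hy} {F : Hy → B → B} (S : FlipSys σ F)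
    (hc : ∀ β, ∀ h ∈ σ β, ∀ h' ∈ σ β, h ≠ h' → c h h') (s : Bool) :
    FlipSys (fun x : RA c × B => σ x.2) (Fw c σ F s) := by
  have sig : ∀ h x, σ (Fw c σ F s h x).2 = σ x.2 := fun h x => by
    by_cases hx : h ∈ σ x.2
    · rw [Fw_pos hx]
      cases s
      · exact S.sig h x.2
      · rfl
    · rw [Fw_neg hx]
  refine ⟨fun h x => ?_, fun h h' x => ?_, sig, fun h x hx => Fw_neg hx⟩
  · by_cases hx : h ∈ σ x.2
    · rw [Fw_pos (by rwa [sig]), Fw_pos hx]
      refine Prod.ext (by simp only [mul_assoc, gen_sq, mul_one]) ?_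
      cases s
      · exact S.inv h x.2
      · rfl
    · rw [Fw_neg hx, Fw_neg hx]
  · by_cases e : h = h'
    · rw [e]
    by_cases hx : h ∈ σ x.2 <;> by_cases hx' : h' ∈ σ x.2
    · rw [Fw_pos (h := h) (by rwa [sig]), Fw_pos (h := h') (x := Fw c σ F s h x) (by rwa [sig]),
        Fw_pos hx, Fw_pos hx']
      refine Prod.ext ?_ ?_
      · simp only [mul_assoc, (gen_comm (hc _ h hx h' hx' e)).eq]
      · cases s
        · exact S.comm h h' x.2
        · rfl
    · rw [Fw_neg hx', Fw_neg (h := h') (by rwa [sig])]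
    · rw [Fw_neg hx, Fw_neg (h := h) (by rwa [sig])]
    · rw [Fw_neg hx', Fw_neg hx, Fw_neg hx']

/-- The moments of an endomorphism at finitely many cells. -/
noncomputable def mom {Z I : Type} [Fintype I] (k : Module.End ℤ (Z →₀ ℤ)) (z : I → Z) (m : ℕ) :
    ℤ := ∑ i, (k ^ m) (single (z i) 1) (z i)

/-- The compression of `k` by the averaging map. -/
noncomputable def sand (d : ℕ) (σ : B → Finset Hy) (F : Hy → B → B) (k : Module.End ℤ (B →₀ ℤ)) :
    Module.End ℤ (B →₀ ℤ) := avg d σ F ∘ₗ k ∘ₗ avg d σ F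

/-- The compression on the unfolded cells. -/
noncomputable def sandW (c : Hy → Hy → Prop) (d : ℕ) (σ : B → Finset Hy) (F : Hy → B → B)
    (s : Bool) (k : Module.End ℤ (B →₀ ℤ)) : Module.End ℤ (RA c × B →₀ ℤ) :=
  sand d (fun x => σ x.2) (Fw c σ F s) (Shap.ext (RA c) k)

variable (G : Type) [Group G] {V : Type} [MulAction G V] [MulAction G Hy] [MulAction G B]
  [MulAction G B₂]

/-- The action is free and `r` lists one point of each orbit. -/
def FreeOn {Z I : Type} [MulAction G Z] (r : I → Z) : Prop :=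
  Function.Bijective fun x : G × I => x.1 • r x.2

/-- Cells with a root `o` in a cube with directions `σ`, and flips that move the root. -/
structure Cells (sep : V → V → Finset Hy) (o : B → V) (σ : B → Finset Hy) (F : Hy → B → B)
    (d : ℕ) : Prop where
  flip : FlipSys σ F
  o_eqv : ∀ (g : G) β, o (g • β) = g • o β
  σ_eqv : ∀ (g : G) h β, g • h ∈ σ (g • β) ↔ h ∈ σ β
  F_eqv : ∀ (g : G) h β, F (g • h) (g • β) = g • F h β
  geo : ∀ β, ∀ h ∈ σ β, sep (o β) (o (F h β)) = {h}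
  card : ∀ β, (σ β).card ≤ d

/-- An equivariant map that preserves roots, and its transpose. -/
structure Kern (o₂ : B₂ → V) (o : B → V) (f : (B₂ →₀ ℤ) →ₗ[ℤ] (B →₀ ℤ))
    (fT : (B →₀ ℤ) →ₗ[ℤ] (B₂ →₀ ℤ)) : Prop where
  o_eqv : ∀ (g : G) β, o₂ (g • β) = g • o₂ β
  eqv : Eqv (permRep G B₂) (permRep G B) f
  eqvT : Eqv (permRep G B) (permRep G B₂) fT
  tp : ∀ β γ, fT (single β 1) γ = f (single γ 1) β
  loc : Loc o₂ o id f

variable {G}

theorem Cells.cross {sep : V → V → Finset Hy} {o : B → V} {σ : B → Finset Hy} {F : Hy → B → B}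
    {d : ℕ} (C : Cells G sep o σ F d) (β : B) (h : Hy) (h1 : h ∈ σ β) (h' : Hy) (h2 : h' ∈ σ β)
    (e : h ≠ h') : Cross sep h h' :=
  ⟨e, o β, o (F h β), o (F h' β), o (F h' (F h β)), C.geo β h h1, C.geo β h' h2,
    C.geo _ h' (by rwa [C.flip.sig]), by
      rw [C.flip.comm]
      exact C.geo _ h (by rwa [C.flip.sig])⟩

theorem Kern.locT {o₂ : B₂ → V} {o : B → V} {f : (B₂ →₀ ℤ) →ₗ[ℤ] (B →₀ ℤ)}
    {fT : (B →₀ ℤ) →ₗ[ℤ] (B₂ →₀ ℤ)} (K : Kern G o₂ o f fT) : Loc o o₂ id fT := fun β γ hγ =>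
  (K.loc γ β (by rwa [mem_support_iff, ← K.tp, ← mem_support_iff])).symm

end Flip

/-! ### Statements -/

/-- Job `Med`: the hyperplanes of a median graph. -/
def MedStmt : Prop :=
  ∀ (G V : Type) [Group G] [MulAction G V] (T : SimpleGraph V), IsMedian T →
    (∀ (g : G) v w, T.Adj v w → T.Adj (g • v) (g • w)) →
    ∃ (Hy : Type) (_ : MulAction G Hy) (sep : V → V → Finset Hy),
      Wl G sep ∧ ∀ a b, (sep a b).card = T.dist a b

/-- Job `RaT`: walls in right-angled Coxeter groups. -/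
def RaStmt : Prop :=
  ∀ (S : Type) (c : S → S → Prop),
    (∀ J : Set S, (∀ s ∈ J, ∀ t ∈ J, c s t → s = t) → ∀ s ∈ J, ∀ s' ∈ J, ∀ w : RA c,
      w * gen c s * w⁻¹ = gen c s' → ∀ u, ∀ t ∈ J, Nn w (u * gen c t * u⁻¹) →
        u * gen c t * u⁻¹ = gen c s') ∧
    (∀ (w : RA c) s t, s ≠ t → Nn w (gen c s) → Nn w (gen c t) → c s t ∨ c t s) ∧
    ∀ (T : Set S), ∀ w ∈ Subgroup.closure (gen c '' T), w ≠ 1 → ∃ t ∈ T, Nn w (gen c t)

/-- Job `Open`: the unfolded model with the original gluing has the original moments. -/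
def OpenStmt : Prop :=
  ∀ (G V Hy B I : Type) [Group G] [MulAction G V] [MulAction G Hy] [MulAction G B] [Fintype I]
    (sep : V → V → Finset Hy), Wl G sep →
    ∀ (o : B → V) (σ : B → Finset Hy) (F : Hy → B → B) (d : ℕ), Cells G sep o σ F d →
    ∀ (k : Module.End ℤ (B →₀ ℤ)), Loc o o id k → ∀ (r : I → B) (m : ℕ),
      mom (sandW (Cross sep) d σ F false k) (fun i => (1, r i)) m = mom (sand d σ F k) r m

/-- The analytic core: the mirror gluing has the smaller rank. -/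
def CoreStmt : Prop :=
  ∀ (G V Hy B B₂ I I₂ : Type) [Group G] [MulAction G V] [MulAction G Hy] [MulAction G B]
    [MulAction G B₂] [Fintype I] [Fintype I₂] (sep : V → V → Finset Hy), Wl G sep →
    ∀ (o : B → V) (σ : B → Finset Hy) (F : Hy → B → B) (d : ℕ), Cells G sep o σ F d →
    ∀ (o₂ : B₂ → V) (f : (B₂ →₀ ℤ) →ₗ[ℤ] (B →₀ ℤ)) (fT : (B →₀ ℤ) →ₗ[ℤ] (B₂ →₀ ℤ)),
      Kern G o₂ o f fT → ∀ (r : I → B) (r₂ : I₂ → B₂), FreeOn G r → FreeOn G r₂ →
    ∀ (H₁ J₁ H₂ J₂ : Type) [Fintype J₁] [NormedAddCommGroup H₁] [InnerProductSpace ℂ H₁]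
      [CompleteSpace H₁] [Fintype J₂] [NormedAddCommGroup H₂] [InnerProductSpace ℂ H₂]
      [CompleteSpace H₂] (e₁ : J₁ → H₁) (K₁ : H₁ →L[ℂ] H₁) (e₂ : J₂ → H₂) (K₂ : H₂ →L[ℂ] H₂),
      0 ≤ K₁ → 0 ≤ K₂ →
      (∀ m, 1 ≤ m → tr e₁ (K₁ ^ m) = mom (sand d σ F (f ∘ₗ fT)) r m) →
      (∀ m, 1 ≤ m → tr e₂ (K₂ ^ m) =
        mom (sandW (Cross sep) d σ F true (f ∘ₗ fT)) (fun i => (1, r i)) m) →
      gdim e₂ K₂.range ≤ gdim e₁ K₁.range

end Pool.Agent.MP_4f4d9f_gt.Cb

end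

section

/-! Comparison of resolutions up to the factor two. -/

namespace Pool.Agent.MP_4f4d9f_gt.Db

namespace Res2

variable {H M : Type} [Group H] [AddCommGroup M] {ρM : Representation ℤ H M}
  {C D : ℕ → Type} [∀ k, AddCommGroup (C k)] [∀ k, AddCommGroup (D k)]
  {ρ : ∀ k, Representation ℤ H (C k)} {d : ∀ k, C (k + 1) →ₗ[ℤ] C k} {ε : C 0 →ₗ[ℤ] M}
  {ρ' : ∀ k, Representation ℤ H (D k)} {d' : ∀ k, D (k + 1) →ₗ[ℤ] D k} {ε' : D 0 →ₗ[ℤ] M}

theorem eqv_nsmul {A B : Type} [AddCommGroup A] [AddCommGroup B] {ρA : Representation ℤ H A}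
    {ρB : Representation ℤ H B} {f : A →ₗ[ℤ] B} (n : ℕ) (hf : Eqv ρA ρB f) :
    Eqv ρA ρB (n • f) := fun h c => by
  rw [LinearMap.smul_apply, hf, LinearMap.smul_apply, map_nsmul]

/-- Existence of a chain map up to the factor two. -/
theorem exists_map (R : IsResM ρ d ρM ε) (R' : IsResM ρ' d' ρM ε') :
    ∃ f : ∀ k, C k →ₗ[ℤ] D k, (∀ k, Eqv (ρ k) (ρ' k) (f k)) ∧ (∀ c, ε' (f 0 c) = 2 • ε c) ∧
      ∀ k c, d' k (f (k + 1) c) = 2 • f k (d k c) := by
  obtain ⟨f0, hf0, hf0'⟩ := R.proj 0 (D 0) M (ρ' 0) ρM ε' ε R'.eqv_ε R.eqv_ε fun c => R'.surj _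
  let T (k : ℕ) : Type := {f : C k →ₗ[ℤ] D k // Eqv (ρ k) (ρ' k) f ∧
    ∀ c, ∃ x, d' k x = f (d k c)}
  have step : ∀ k (f : T k), ∃ f' : T (k + 1), ∀ c, d' k (f'.1 c) = 2 • f.1 (d k c) := by
    intro k f
    obtain ⟨ψ, h1, h2⟩ := R.proj (k + 1) (D (k + 1)) (D k) (ρ' (k + 1)) (ρ' k) (d' k)
      (f.1 ∘ₗ d k) (R'.eqv_d k) (f.2.1.comp (R.eqv_d k)) f.2.2
    refine ⟨⟨ψ, h1, fun c => R'.exact_succ k _ ?_⟩, fun c => (h2 c).trans (two_nsmul _).symm⟩
    rw [h2, LinearMap.comp_apply, R.d_d, map_zero, add_zero]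
  choose next hnext using step
  let t0 : T 0 := ⟨f0, hf0, fun c => R'.exact_zero _ (by rw [hf0', R.ε_d, add_zero])⟩
  let t : ∀ k, T k := fun k => Nat.rec t0 next k
  exact ⟨fun k => (t k).1, fun k => (t k).2.1, fun c => (hf0' c).trans (two_nsmul _).symm,
    fun k => hnext k (t k)⟩

/-- Existence of a homotopy up to powers of two. -/
theorem exists_homotopy (R : IsResM ρ d ρM ε) (u : ∀ k, C k →ₗ[ℤ] C k)
    (hu : ∀ k, Eqv (ρ k) (ρ k) (u k)) (hu0 : ∀ c, ε (u 0 c) = 0)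
    (hud : ∀ k c, d k (u (k + 1) c) = 4 • u k (d k c)) :
    ∃ h : ∀ k, C k →ₗ[ℤ] C (k + 1), (∀ k, Eqv (ρ k) (ρ (k + 1)) (h k)) ∧
      ∀ k c, d (k + 1) (h (k + 1) c) + 8 • h k (d k c) = 2 ^ (k + 2) • u (k + 1) c := by
  obtain ⟨h0, hh0, hh0'⟩ := R.proj 0 (C 1) (C 0) (ρ 1) (ρ 0) (d 0) (u 0) (R.eqv_d 0) (hu 0)
    fun c => R.exact_zero _ (hu0 c)
  let T (k : ℕ) : Type := {h : C k →ₗ[ℤ] C (k + 1) // Eqv (ρ k) (ρ (k + 1)) h ∧
    ∀ c, d k (h (d k c)) = 2 ^ (k + 1) • u k (d k c)}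
  have step : ∀ k (h : T k), ∃ h' : T (k + 1),
      ∀ c, d (k + 1) (h'.1 c) + 8 • h.1 (d k c) = 2 ^ (k + 2) • u (k + 1) c := by
    intro k h
    obtain ⟨ψ, h1, h2⟩ := R.proj (k + 1) (C (k + 2)) (C (k + 1)) (ρ (k + 2)) (ρ (k + 1))
      (d (k + 1)) (2 ^ (k + 1) • u (k + 1) - 4 • h.1 ∘ₗ d k) (R.eqv_d _)
      ((eqv_nsmul _ (hu _)).sub (eqv_nsmul _ (h.2.1.comp (R.eqv_d k))))
      fun c => R.exact_succ k _ (by
        simp only [LinearMap.sub_apply, LinearMap.smul_apply, LinearMap.comp_apply, map_sub,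
          map_nsmul, hud, h.2.2]
        module)
    have h3 : ∀ c, d (k + 1) (ψ c) + 8 • h.1 (d k c) = 2 ^ (k + 2) • u (k + 1) c := fun c => by
      simp only [h2, LinearMap.sub_apply, LinearMap.smul_apply, LinearMap.comp_apply]
      module
    refine ⟨⟨ψ, h1, fun c => ?_⟩, h3⟩
    rw [← h3, R.d_d, map_zero, smul_zero, add_zero]
  choose next hnext using step
  let t0 : T 0 := ⟨h0, hh0, fun c => (hh0' _).trans (two_nsmul _).symm⟩
  let t : ∀ k, T k := fun k => Nat.rec t0 next k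
  exact ⟨fun k => (t k).1, fun k => (t k).2.1, fun k => hnext k (t k)⟩

end Res2

theorem res2_stmt : Res2Stmt := by
  intro H N M _ _ _ ι h2 ρM C C' _ _ ρ d ε ρ' d' ε' R R' k h
  obtain ⟨f, hf, hf0, hfd⟩ := Res2.exists_map R R'
  obtain ⟨g, hg, hg0, hgd⟩ := Res2.exists_map R' R
  obtain ⟨t, ht, htd⟩ := Res2.exists_homotopy R
    (fun k => 4 ^ (k + 1) • LinearMap.id - g k ∘ₗ f k)
    (fun k => (Res2.eqv_nsmul _ Eqv.id).sub ((hg k).comp (hf k)))
    (fun c => by
      simp only [LinearMap.sub_apply, LinearMap.smul_apply, LinearMap.comp_apply, map_sub,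
        map_nsmul, hg0, hf0, LinearMap.id_apply]
      module)
    (fun k c => by
      simp only [LinearMap.sub_apply, LinearMap.smul_apply, LinearMap.comp_apply, map_sub,
        map_nsmul, hgd, hfd, LinearMap.id_apply]
      module)
  intro z hz
  have e1 : Tens.map ι (d' k) (R'.eqv_d k) ∘ₗ Tens.map ι (f (k + 1)) (hf _) =
      2 • Tens.map ι (f k) (hf k) ∘ₗ Tens.map ι (d k) (R.eqv_d k) :=
    Tens.hom_ext ι fun c => by
      simp only [LinearMap.comp_apply, LinearMap.smul_apply, Tens.map_of, hfd, map_nsmul]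
  have e2 : Tens.map ι (d (k + 1)) (R.eqv_d _) ∘ₗ Tens.map ι (g (k + 2)) (hg _) =
      2 • Tens.map ι (g (k + 1)) (hg _) ∘ₗ Tens.map ι (d' (k + 1)) (R'.eqv_d _) :=
    Tens.hom_ext ι fun c => by
      simp only [LinearMap.comp_apply, LinearMap.smul_apply, Tens.map_of, hgd, map_nsmul]
  have e3 : Tens.map ι (d (k + 1)) (R.eqv_d _) ∘ₗ Tens.map ι (t (k + 1)) (ht _) +
      8 • Tens.map ι (t k) (ht _) ∘ₗ Tens.map ι (d k) (R.eqv_d _) =
      2 ^ (k + 2) • (4 ^ (k + 2) • LinearMap.id -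
        Tens.map ι (g (k + 1)) (hg _) ∘ₗ Tens.map ι (f (k + 1)) (hf _)) :=
    Tens.hom_ext ι fun c => by
      have := congrArg (Tens.of ι (ρ (k + 1))) (htd k c)
      simpa only [LinearMap.comp_apply, LinearMap.add_apply, LinearMap.sub_apply,
        LinearMap.smul_apply, Tens.map_of, map_add, map_sub, map_nsmul, LinearMap.id_apply]
        using this
  obtain ⟨s, hs, w, hw⟩ := h (Tens.map ι (f (k + 1)) (hf _) z) (by
    rw [← LinearMap.comp_apply, e1, LinearMap.smul_apply, LinearMap.comp_apply, hz, map_zero,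
      smul_zero])
  have e4 := LinearMap.congr_fun e3 z
  have e5 := LinearMap.congr_fun e2 w
  simp only [LinearMap.comp_apply, LinearMap.add_apply, LinearMap.sub_apply,
    LinearMap.smul_apply, hz, map_zero, smul_zero, add_zero, LinearMap.id_apply, hw,
    map_smul] at e4 e5
  refine ⟨((2 ^ (3 * k + 7) : ℕ) : N) * s, IsLeftRegular.mul (by simpa using h2.pow _) hs,
    2 ^ (k + 2) • Tens.map ι (g (k + 2)) (hg _) w + 2 • s • Tens.map ι (t (k + 1)) (ht _) z, ?_⟩
  rw [map_add, map_nsmul, map_nsmul, map_smul, e4, e5, mul_smul, Nat.cast_smul_eq_nsmul,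
    smul_comm s, smul_sub s, smul_comm s, show (4 : ℕ) = 2 ^ 2 from rfl, ← pow_mul]
  generalize s • z = x
  generalize s • Tens.map ι (g (k + 1)) (hg _) _ = y
  module

end Pool.Agent.MP_4f4d9f_gt.Db

end

section

/-! Unfolding with the original gluing. -/

namespace Pool.Agent.MP_4f4d9f_gt.Cb

open Finsupp Db

namespace Open

section Gam

variable {G V Hy : Type} [Group G] [MulAction G V] [MulAction G Hy] {sep : V → V → Finset Hy}

open Classical in
/-- The product of the generators along a chosen path towards `v₀`. -/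
noncomputable def walk (sep : V → V → Finset Hy) (v₀ : V) : ℕ → V → RA (Cross sep)
  | 0, _ => 1
  | n + 1, v => if h : ∃ p : V × Hy, sep v p.1 = {p.2} ∧ p.2 ∈ sep v₀ v then
      walk sep v₀ n h.choose.1 * gen _ h.choose.2 else 1

/-- The development of the vertices in the Coxeter group. -/
noncomputable def gam (sep : V → V → Finset Hy) (v₀ v : V) : RA (Cross sep) :=
  walk sep v₀ (sep v₀ v).card v

theorem mem_down (W : Wl G sep) {v₀ v a : V} {k : Hy} (ha : sep v a = {k}) (hk : k ∈ sep v₀ v)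
    (h : Hy) : h ∈ sep v₀ a ↔ h ≠ k ∧ h ∈ sep v₀ v := by
  rw [W.tri v₀ v a, ha, Finset.mem_singleton]
  by_cases e : h = k
  · subst e
    tauto
  · tauto

theorem card_down (W : Wl G sep) {v₀ v a : V} {k : Hy} (ha : sep v a = {k}) (hk : k ∈ sep v₀ v) :
    (sep v₀ v).card = (sep v₀ a).card + 1 := by
  classical
  have : sep v₀ a = (sep v₀ v).erase k := by
    ext h
    rw [mem_down W ha hk, Finset.mem_erase]
  rw [this, Finset.card_erase_add_one hk]

theorem gam_step (W : Wl G sep) {v₀ v a : V} {k : Hy} (ha : sep v a = {k}) (hk : k ∈ sep v₀ v) :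
    ∃ b h, sep v b = {h} ∧ h ∈ sep v₀ v ∧ gam sep v₀ v = gam sep v₀ b * gen _ h := by
  have H : ∃ p : V × Hy, sep v p.1 = {p.2} ∧ p.2 ∈ sep v₀ v := ⟨(a, k), ha, hk⟩
  refine ⟨H.choose.1, H.choose.2, H.choose_spec.1, H.choose_spec.2, ?_⟩
  rw [gam, card_down W H.choose_spec.1 H.choose_spec.2, walk, dif_pos H, gam]

theorem gam_down (W : Wl G sep) (v₀ : V) (n : ℕ) : ∀ (v a : V) (k : Hy), (sep v₀ v).card = n →
    sep v a = {k} → k ∈ sep v₀ v → gam sep v₀ v = gam sep v₀ a * gen _ k := by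
  induction n with
  | zero =>
    intro v a k hn ha hk
    rw [card_down W ha hk] at hn
    exact absurd hn (Nat.succ_ne_zero _)
  | succ n ih =>
    intro v a k hn ha hk
    obtain ⟨b, h, hb, hh, e⟩ := gam_step W ha hk
    by_cases hne : k = h
    · subst hne
      rw [e, W.ext (hb.trans ha.symm)]
    obtain ⟨x, h1, h2⟩ := W.quad hne ha hb (W.symm v₀ v ▸ hk) (W.symm v₀ v ▸ hh)
    have ca := card_down W ha hk
    have cb := card_down W hb hh
    have e1 := ih a x h (by omega) h1 ((mem_down W ha hk h).2 ⟨Ne.symm hne, hh⟩)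
    have e2 := ih b x k (by omega) h2 ((mem_down W hb hh k).2 ⟨hne, hk⟩)
    have hc : Cross sep k h := ⟨hne, v, a, b, x, ha, hb, h1, h2⟩
    rw [e, e1, e2, mul_assoc, mul_assoc, (gen_comm hc).eq]

theorem gam_edge (W : Wl G sep) (v₀ : V) {v w : V} {h : Hy} (e : sep v w = {h}) :
    gam sep v₀ w = gam sep v₀ v * gen _ h := by
  by_cases hh : h ∈ sep v₀ v
  · rw [gam_down W v₀ _ v w h rfl e hh, mul_assoc, gen_sq, mul_one]
  · refine gam_down W v₀ _ w v h rfl (W.symm v w ▸ e) ?_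
    rw [W.tri v₀ v w, e, Finset.mem_singleton]
    tauto

theorem gam_self (W : Wl G sep) (v₀ : V) : gam sep v₀ v₀ = 1 := by
  rw [gam, W.self, Finset.card_empty, walk]

end Gam

section Tr

variable {B Z Hy : Type}

theorem FS_map {F : Hy → B → B} {F' : Hy → Z → Z} {j : B → Z}
    (hj : ∀ h β, F' h (j β) = j (F h β)) (τ : Finset Hy) (β : B) :
    FS F' τ (j β) = j (FS F τ β) := by
  rw [FS, FS]
  induction τ.toList with
  | nil => rfl
  | cons h l ih => rw [List.foldr_cons, List.foldr_cons, ih, hj]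

theorem avg_map (d : ℕ) {σ : B → Finset Hy} {σ' : Z → Finset Hy} {F : Hy → B → B}
    {F' : Hy → Z → Z} {j : B → Z} (hσ : ∀ β, σ' (j β) = σ β)
    (hj : ∀ h β, F' h (j β) = j (F h β)) (c : B →₀ ℤ) :
    avg d σ' F' (lmapDomain ℤ ℤ j c) = lmapDomain ℤ ℤ j (avg d σ F c) :=
  LinearMap.congr_fun (f := avg d σ' F' ∘ₗ lmapDomain ℤ ℤ j) (g := lmapDomain ℤ ℤ j ∘ₗ avg d σ F)
    (ch_ext fun β => by
      rw [LinearMap.comp_apply, LinearMap.comp_apply, lmapDomain_apply, mapDomain_single,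
        avg_single, avg_single, hσ, map_smul, map_sum]
      simp only [FS_map hj, lmapDomain_apply, mapDomain_single]) c

theorem ext_map {V Y : Type} {o : B → V} {k : Module.End ℤ (B →₀ ℤ)} (hk : Loc o o id k)
    (g : V → Y) (c : B →₀ ℤ) :
    Shap.ext Y k (lmapDomain ℤ ℤ (fun β => (g (o β), β)) c) =
      lmapDomain ℤ ℤ (fun β => (g (o β), β)) (k c) :=
  LinearMap.congr_fun (f := Shap.ext Y k ∘ₗ lmapDomain ℤ ℤ (fun β => (g (o β), β)))
    (g := lmapDomain ℤ ℤ (fun β => (g (o β), β)) ∘ₗ k)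
    (ch_ext fun β => by
      rw [LinearMap.comp_apply, LinearMap.comp_apply, lmapDomain_apply, mapDomain_single,
        ← Shap.inY_single, Shap.ext_in, Shap.inY, lmapDomain_apply, lmapDomain_apply]
      exact mapDomain_congr fun γ hγ => by rw [hk β γ hγ, id]) c

theorem pow_map {k : Module.End ℤ (B →₀ ℤ)} {k' : Module.End ℤ (Z →₀ ℤ)}
    {J : (B →₀ ℤ) →ₗ[ℤ] (Z →₀ ℤ)} (h : ∀ c, k' (J c) = J (k c)) (m : ℕ) (c : B →₀ ℤ) :
    (k' ^ m) (J c) = J ((k ^ m) c) := by
  induction m with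
  | zero => rfl
  | succ m ih => rw [pow_succ', pow_succ', Module.End.mul_apply, Module.End.mul_apply, ih, h]

end Tr

end Open

open Open in
theorem open_stmt : OpenStmt := by
  intro G V Hy B I _ _ _ _ _ sep W o σ F d C k hk r m
  refine Finset.sum_congr rfl fun i _ => ?_
  let j : B → RA (Cross sep) × B := fun β => (gam sep (o (r i)) (o β), β)
  have hinj : Function.Injective j := fun β γ e => congrArg Prod.snd e
  have hj : ∀ h β, Fw (Cross sep) σ F false h (j β) = j (F h β) := fun h β => by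
    by_cases hh : h ∈ σ β
    · rw [Fw_pos (x := j β) hh]
      exact Prod.ext (gam_edge W _ (C.geo β h hh)).symm rfl
    · rw [Fw_neg (x := j β) hh, C.flip.out h β hh]
  have h1 : ((1, r i) : RA (Cross sep) × B) = j (r i) := Prod.ext (gam_self W _).symm rfl
  have key : ∀ c, sandW (Cross sep) d σ F false k (lmapDomain ℤ ℤ j c) =
      lmapDomain ℤ ℤ j (sand d σ F k c) := fun c => by
    simp only [sandW, sand, LinearMap.comp_apply]
    have ha := avg_map d (σ := σ) (σ' := fun x => σ x.2) (j := j) (fun _ => rfl) hj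
    rw [ha, ext_map hk (gam sep (o (r i))), ha]
  have h2 := pow_map key m (single (r i) 1)
  rw [lmapDomain_apply, mapDomain_single] at h2
  beta_reduce
  rw [h1, h2, lmapDomain_apply, mapDomain_apply hinj]

end Pool.Agent.MP_4f4d9f_gt.Cb

end

section

/-! Hyperplanes of median graphs. -/

namespace Pool.Agent.MP_4f4d9f_gt.Cb

namespace Med

open scoped Pointwise

variable {V : Type} {T : SimpleGraph V}

theorem tri (H : IsMedian T) (a b c : V) : T.dist a c ≤ T.dist a b + T.dist b c :=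
  H.1.dist_triangle

theorem zero (H : IsMedian T) {a b : V} (h : T.dist a b = 0) : a = b :=
  H.1.dist_eq_zero_iff.1 h

theorem one {a b : V} (h : T.Adj a b) : T.dist a b = 1 := SimpleGraph.dist_eq_one_iff_adj.2 h

theorem adj {a b : V} (h : T.dist a b = 1) : T.Adj a b := SimpleGraph.dist_eq_one_iff_adj.1 h

theorem cm (T : SimpleGraph V) (a b : V) : T.dist a b = T.dist b a := SimpleGraph.dist_comm

theorem step (H : IsMedian T) {a b : V} {k : ℕ} (h : T.dist a b = k + 1) :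
    ∃ c, T.Adj a c ∧ T.dist c b = k := by
  obtain ⟨p, hp⟩ := (H.1 a b).exists_walk_length_eq_dist
  cases p with
  | nil => simp at h
  | cons e q =>
    refine ⟨_, e, ?_⟩
    have h1 := SimpleGraph.dist_le q
    have h2 := tri H a _ b |>.trans_eq (congrArg (· + _) (one e))
    simp only [SimpleGraph.Walk.length_cons] at hp
    omega

theorem med (H : IsMedian T) (a b c : V) : ∃ m, T.dist a m + T.dist m b = T.dist a b ∧
    T.dist b m + T.dist m c = T.dist b c ∧ T.dist a m + T.dist m c = T.dist a c :=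
  (H.2 a b c).exists

theorem par (H : IsMedian T) {u v : V} (h : T.Adj u v) (x : V) :
    T.dist x u + 1 = T.dist x v ∨ T.dist x v + 1 = T.dist x u := by
  obtain ⟨m, h1, h2, h3⟩ := med H x u v
  have h4 := one h
  have h5 := one h.symm
  rcases (by omega : T.dist u m = 0 ∨ T.dist m v = 0) with e | e
  · obtain rfl := zero H e
    omega
  · obtain rfl := zero H e
    omega

theorem sq1 (H : IsMedian T) {x x' m y : V} (a1 : T.Adj x x') (a2 : T.Adj x' m) (a3 : T.Adj m y)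
    (a4 : T.Adj y x) (n1 : x ≠ m) (n2 : x' ≠ y) (z : V) (h : T.dist z x < T.dist z y) :
    T.dist z x' < T.dist z m := by
  by_contra hc
  have p1 := par H a1 z
  have p2 := par H a2 z
  have p3 := par H a3 z
  have p4 := par H a4 z
  have d1 := one a1
  have d2 := one a2
  have d3 := one a3
  have d4 := one a4
  have d1' := one a1.symm
  have d4' := one a4.symm
  have d3' := one a3.symm
  have e1 : T.dist x m = 2 := by
    have := par H a2 x
    have h0 : T.dist x m ≠ 0 := fun e => n1 (zero H e)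
    omega
  have e2 : T.dist x' y = 2 := by
    have := par H a3 x'
    have h0 : T.dist x' y ≠ 0 := fun e => n2 (zero H e)
    omega
  obtain ⟨n, h1, h2, h3⟩ := med H x m z
  have c1 := cm T m n
  have c2 := cm T m z
  have c3 := cm T x z
  have c4 := cm T n z
  have t1 := tri H z n y
  have t2 := tri H z n x'
  have t3 := tri H y x n
  have t4 := tri H x' x n
  have c5 := cm T n y
  have c6 := cm T n x'
  refine n1 ((H.2 x' y n).unique (y₁ := x) (y₂ := m) ⟨?_, ?_, ?_⟩ ⟨?_, ?_, ?_⟩) <;>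
    simp only [Itv, Set.mem_ofPred_eq] <;> omega

theorem edge1 (H : IsMedian T) {u v : V} (h : T.Adj u v) (k : ℕ) : ∀ x y, T.Adj x y →
    T.dist x u = k → T.dist x u < T.dist x v → T.dist y v < T.dist y u →
    ∀ z, T.dist z x < T.dist z y ↔ T.dist z u < T.dist z v := by
  induction k with
  | zero =>
    intro x y a e _ h2 z
    obtain rfl := zero H e
    have := one a.symm
    obtain rfl := zero H (by omega : T.dist y v = 0)
    rfl
  | succ k ih =>
    intro x y a e h1 h2 z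
    obtain ⟨x', a', e'⟩ := step H e
    have d1 := one a
    have d2 := one a.symm
    have d3 := one a'
    have d4 := one a'.symm
    have p1 := par H h x
    have p2 := par H h y
    have p3 := par H h x'
    have t1 := tri H x y v
    have t2 := tri H y x u
    have t3 := tri H x x' v
    have t4 := tri H x' x y
    have t5 := tri H y x' u
    have c1 := cm T y x'
    obtain ⟨m, m1, m2, m3⟩ := med H x' y v
    have c2 := cm T y m
    have t6 := tri H y m u
    have b1 : T.Adj x' m := adj (by omega)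
    have b2 : T.Adj m y := adj (by omega)
    have n1 : x ≠ m := fun e => by subst e; omega
    have n2 : x' ≠ y := fun e => by subst e; omega
    rw [← ih x' m b1 e' (by omega) (by omega) z]
    exact ⟨sq1 H a' b1 b2 a.symm n1 n2 z, sq1 H a'.symm a b2.symm b1.symm n2 n1 z⟩

/-- The pairs of vertices that are separated by the hyperplane of the edge `u v`. -/
def hyp (T : SimpleGraph V) (u v : V) : Set (V × V) :=
  {p | ¬ (T.dist p.1 u < T.dist p.1 v ↔ T.dist p.2 u < T.dist p.2 v)}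

theorem hyp_symm (H : IsMedian T) {u v : V} (h : T.Adj u v) : hyp T u v = hyp T v u := by
  ext p
  have p1 := par H h p.1
  have p2 := par H h p.2
  simp only [hyp, Set.mem_ofPred_eq]
  omega

theorem edge (H : IsMedian T) {u v x y : V} (h : T.Adj u v) (a : T.Adj x y)
    (hm : (x, y) ∈ hyp T u v) : hyp T u v = hyp T x y := by
  have p1 := par H h x
  have p2 := par H h y
  simp only [hyp, Set.mem_ofPred_eq] at hm
  by_cases c : T.dist x u < T.dist x v
  · have := edge1 H h _ x y a rfl c (by omega)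
    simp only [hyp, this]
  · have := edge1 H h.symm _ x y a rfl (by omega) (by omega)
    rw [hyp_symm H h]
    simp only [hyp, this]

/-- The hyperplanes that separate `a` and `b`. -/
def sepS (T : SimpleGraph V) (a b : V) : Set (Set (V × V)) :=
  {R | (∃ u v, T.Adj u v ∧ R = hyp T u v) ∧ (a, b) ∈ R}

theorem sepS_tri (a b c : V) (R : Set (V × V)) :
    R ∈ sepS T a c ↔ ¬ (R ∈ sepS T a b ↔ R ∈ sepS T b c) := by
  by_cases h : ∃ u v, T.Adj u v ∧ R = hyp T u v
  · simp only [sepS, Set.mem_ofPred_eq, h, true_and]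
    obtain ⟨u, v, _, rfl⟩ := h
    simp only [hyp, Set.mem_ofPred_eq]
    tauto
  · simp only [sepS, Set.mem_ofPred_eq, h, false_and, not_true]

theorem sepS_adj (H : IsMedian T) {a c : V} (h : T.Adj a c) : sepS T a c = {hyp T a c} := by
  ext R
  refine ⟨fun ⟨⟨u, v, e, hR⟩, hm⟩ => ?_, fun e => ?_⟩
  · subst hR
    exact edge H e h hm
  · obtain rfl := Set.mem_singleton_iff.1 e
    refine ⟨⟨a, c, h, rfl⟩, ?_⟩
    simp [hyp, one h, one h.symm]

theorem sepS_step (H : IsMedian T) {a c b : V} (h : T.Adj a c)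
    (e : T.dist c b < T.dist a b) :
    hyp T a c ∉ sepS T c b ∧ sepS T a b = insert (hyp T a c) (sepS T c b) := by
  have h1 : hyp T a c ∉ sepS T c b := fun hm => by
    have := hm.2
    have c1 := cm T b a
    have c2 := cm T b c
    simp only [hyp, Set.mem_ofPred_eq, SimpleGraph.dist_self] at this
    omega
  refine ⟨h1, ?_⟩
  ext R
  rw [sepS_tri a c b, sepS_adj H h, Set.mem_singleton_iff, Set.mem_insert_iff]
  by_cases hR : R = hyp T a c
  · subst hR
    tauto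
  · tauto

theorem sepS_card (H : IsMedian T) (k : ℕ) : ∀ a b, T.dist a b = k →
    (sepS T a b).Finite ∧ (sepS T a b).ncard = k := by
  induction k with
  | zero =>
    intro a b e
    obtain rfl := zero H e
    have : sepS T a a = ∅ := by
      ext R
      have := sepS_tri (T := T) a a a R
      simp only [Set.mem_empty_iff_false]
      tauto
    simp [this]
  | succ k ih =>
    intro a b e
    obtain ⟨c, h, e'⟩ := step H e
    obtain ⟨h1, h2⟩ := sepS_step H h (b := b) (by omega)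
    obtain ⟨f, hc⟩ := ih c b e'
    rw [h2]
    exact ⟨f.insert _, by rw [Set.ncard_insert_of_notMem h1 f, hc]⟩

variable {G : Type} [Group G] [MulAction G V]

theorem dist_smul (H : IsMedian T) (hG : ∀ (g : G) v w, T.Adj v w → T.Adj (g • v) (g • w))
    (g : G) (a b : V) : T.dist (g • a) (g • b) = T.dist a b := by
  have key : ∀ (g : G) (k : ℕ) a b, T.dist a b = k → T.dist (g • a) (g • b) ≤ k := by
    intro g k
    induction k with
    | zero =>
      intro a b e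
      obtain rfl := zero H e
      simp
    | succ k ih =>
      intro a b e
      obtain ⟨c, h, e'⟩ := step H e
      have h1 := tri H (g • a) (g • c) (g • b)
      have h2 := one (hG g _ _ h)
      have h3 := ih c b e'
      omega
  refine le_antisymm (key g _ a b rfl) ?_
  simpa using key g⁻¹ _ (g • a) (g • b) rfl

theorem hyp_smul (H : IsMedian T) (hG : ∀ (g : G) v w, T.Adj v w → T.Adj (g • v) (g • w))
    (g : G) (u v : V) : g • hyp T u v = hyp T (g • u) (g • v) := by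
  ext p
  rw [← smul_inv_smul g p, Set.smul_mem_smul_set_iff]
  simp only [hyp, Set.mem_ofPred_eq, Prod.smul_fst, Prod.smul_snd, dist_smul H hG]

theorem sepS_smul (H : IsMedian T) (hG : ∀ (g : G) v w, T.Adj v w → T.Adj (g • v) (g • w))
    (g : G) {a b : V} {R : Set (V × V)} (h : R ∈ sepS T a b) : g • R ∈ sepS T (g • a) (g • b) := by
  obtain ⟨⟨u, v, e, rfl⟩, hm⟩ := h
  exact ⟨⟨_, _, hG g _ _ e, hyp_smul H hG g u v⟩, Set.smul_mem_smul_set (a := g) hm⟩

end Med

open Med in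
open scoped Pointwise in
theorem med_stmt : MedStmt := by
  classical
  intro G V _ _ T H hG
  have hc : ∀ a b, (sepS_card H _ a b rfl).1.toFinset.card = T.dist a b := fun a b =>
    (Set.ncard_eq_toFinset_card _ _).symm.trans (sepS_card H _ a b rfl).2
  have hd : ∀ a b m, T.dist a m + T.dist m b = T.dist a b →
      Disjoint (sepS_card H _ a m rfl).1.toFinset (sepS_card H _ m b rfl).1.toFinset := by
    intro a b m e
    have h1 := Finset.card_union_add_card_inter (sepS_card H _ a m rfl).1.toFinset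
      (sepS_card H _ m b rfl).1.toFinset
    have h2 : (sepS_card H _ a b rfl).1.toFinset ⊆
        (sepS_card H _ a m rfl).1.toFinset ∪ (sepS_card H _ m b rfl).1.toFinset := by
      intro R
      simp only [Finset.mem_union, Set.Finite.mem_toFinset]
      rw [sepS_tri a m b]
      tauto
    have h3 := Finset.card_le_card h2
    rw [hc, hc] at h1
    rw [hc] at h3
    exact Finset.disjoint_iff_inter_eq_empty.2 (Finset.card_eq_zero.1 (by omega))
  refine ⟨Set (V × V), inferInstance, fun a b => (sepS_card H _ a b rfl).1.toFinset,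
    ⟨fun a b c R => ?_, fun g a b R => ?_, fun a b e => ?_, fun a b n => ?_, fun a b c => ?_⟩, hc⟩
  · simp only [Set.Finite.mem_toFinset]
    exact sepS_tri a b c R
  · simp only [Set.Finite.mem_toFinset]
    exact ⟨fun h => by simpa using sepS_smul H hG g⁻¹ h, sepS_smul H hG g⟩
  · refine zero H ?_
    rw [← hc, e, Finset.card_empty]
  · obtain ⟨k, e⟩ := Nat.exists_eq_succ_of_ne_zero fun e => n (zero H e)
    obtain ⟨c, h, e'⟩ := step H e
    refine ⟨c, hyp T a c, ?_, ?_⟩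
    · rw [Set.Finite.mem_toFinset, (sepS_step H h (b := b) (by omega)).2]
      exact Set.mem_insert _ _
    · ext R
      rw [Set.Finite.mem_toFinset, sepS_adj H h, Set.mem_singleton_iff, Finset.mem_singleton]
  · obtain ⟨m, h1, h2, h3⟩ := med H a b c
    exact ⟨m, hd _ _ _ h1, hd _ _ _ h2, hd _ _ _ h3⟩

end Pool.Agent.MP_4f4d9f_gt.Cb

end
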