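import Pool.Agent.Mg.F4f4d9fr.G241bda

set_option linter.all false

section

/-! The coloured model for an injective colouring of finitely many hyperplanes. -/

open scoped InnerProductSpace

namespace Pool.Agent.MP_4f4d9f_gt.Cb.Mom

open Finsupp Db
open ContinuousLinearMap (adjoint)

/-- An operator that extends a map of chains on the support of a chain. -/
theorem lc_map {Z Z' H H' : Type} [NormedAddCommGroup H] [NormedSpace ℂ H]
    [NormedAddCommGroup H'] [NormedSpace ℂ H'] (U : H →L[ℂ] H') {f : Z → H} {g : Z' → H'}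
    {A : (Z →₀ ℤ) →ₗ[ℤ] (Z' →₀ ℤ)} {x : Z →₀ ℤ}
    (h : ∀ z ∈ x.support, U (f z) = linearCombination ℤ g (A (single z 1))) :
    U (linearCombination ℤ f x) = linearCombination ℤ g (A x) := by
  conv_rhs => rw [← Finsupp.sum_single x]
  rw [linearCombination_apply, Finsupp.sum, Finsupp.sum, map_sum, map_sum, map_sum]
  refine Finset.sum_congr rfl fun z hz => ?_
  rw [map_zsmul, h z hz, ← map_zsmul, ← map_zsmul, smul_single_one]

theorem lc_id {Z H H' : Type} [NormedAddCommGroup H] [NormedSpace ℂ H]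
    [NormedAddCommGroup H'] [NormedSpace ℂ H'] (U : H →L[ℂ] H') {f : Z → H} {g : Z → H'}
    {x : Z →₀ ℤ} (h : ∀ z ∈ x.support, U (f z) = g z) :
    U (linearCombination ℤ f x) = linearCombination ℤ g x :=
  lc_map U (A := LinearMap.id) fun z hz => by
    rw [LinearMap.id_apply, linearCombination_single, one_smul, h z hz]

section Comb

variable {V Hy B : Type} {sep : V → V → Finset Hy} {σ : B → Finset Hy} {N : ℕ} {T : Finset Hy}
  {κ : T → Cl N}

/-- The list `ρ` agrees with the colouring `κ`. -/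
def Cp (κ : T → Cl N) (ρ : Cl N → Option Hy) : Prop :=
  ∀ c h, ρ c = some h → ∃ hh : h ∈ T, κ ⟨h, hh⟩ = c

theorem cp_unique {β : B} {ρ ρ' : Cl N → Option Hy} (h : Valid σ β ρ) (h' : Valid σ β ρ')
    (c1 : Cp κ ρ) (c2 : Cp κ ρ') : ρ = ρ' := by
  have key : ∀ {ρ ρ' : Cl N → Option Hy}, Valid σ β ρ → Valid σ β ρ' → Cp κ ρ → Cp κ ρ' →
      ∀ c k, ρ c = some k → ρ' c = some k := fun {ρ ρ'} h h' c1 c2 c k e => by
    obtain ⟨c', e'⟩ := (h'.mem k).1 ((h.mem k).2 ⟨c, e⟩)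
    obtain ⟨_, e1⟩ := c1 c k e
    obtain ⟨_, e2⟩ := c2 c' k e'
    rwa [← e1, e2]
  refine funext fun c => ?_
  rcases e : ρ c with _ | k
  · rcases e' : ρ' c with _ | k
    · rfl
    · rw [← e, key h' h c2 c1 c k e']
  · rw [key h h' c1 c2 c k e]

theorem cp_exists (hκ : Function.Injective κ) {β : B} (hT : σ β ⊆ T) :
    ∃ ρ : {ρ : Cl N → Option Hy // Valid σ β ρ}, Cp κ ρ.1 := by
  classical
  let ρ : Cl N → Option Hy := fun c =>
    if hc : ∃ h : T, h.1 ∈ σ β ∧ κ h = c then some hc.choose.1 else none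
  have key : ∀ c h, ρ c = some h ↔ h ∈ σ β ∧ ∃ hh : h ∈ T, κ ⟨h, hh⟩ = c := fun c h => by
    constructor
    · intro e
      by_cases hc : ∃ h : T, h.1 ∈ σ β ∧ κ h = c
      · simp only [ρ, dif_pos hc, Option.some.injEq] at e
        subst e
        exact ⟨hc.choose_spec.1, hc.choose.2, hc.choose_spec.2⟩
      · simp only [ρ, dif_neg hc, reduceCtorEq] at e
    · rintro ⟨h1, hh, h2⟩
      have hc : ∃ h : T, h.1 ∈ σ β ∧ κ h = c := ⟨⟨h, hh⟩, h1, h2⟩
      simp only [ρ, dif_pos hc, Option.some.injEq]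
      exact congrArg Subtype.val (hκ (hc.choose_spec.2.trans h2.symm))
  refine ⟨⟨ρ, fun h => ⟨fun h1 => ⟨_, (key _ h).2 ⟨h1, hT h1, rfl⟩⟩, fun ⟨c, e⟩ => ((key c h).1 e).1⟩,
    fun c c' h e e' => ?_⟩, fun c h e => ((key c h).1 e).2⟩
  obtain ⟨_, _, e1⟩ := (key c h).1 e
  obtain ⟨_, _, e2⟩ := (key c' h).1 e'
  exact e1.symm.trans e2

variable [NeZero N]

theorem eK_eR_zero {β : B} (hT : σ β ⊆ T) {ρ : Cl N → Option Hy} (h : Valid σ β ρ)
    (hc : ¬ Cp κ ρ) : eK T κ * eR ρ = 0 := by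
  by_contra h0
  refine hc fun c k e => ⟨hT ((h.mem k).2 ⟨c, e⟩), ?_⟩
  by_contra h1
  exact h0 (eK_eR_ne (h := ⟨k, hT ((h.mem k).2 ⟨c, e⟩)⟩) e h1)

theorem sum_cp {M : Type} [AddCommMonoid M] {β : B} (hT : σ β ⊆ T)
    (g : {ρ : Cl N → Option Hy // Valid σ β ρ} → Am Hy N → M) (hg : ∀ ρ, g ρ 0 = 0)
    (ρ₀ : {ρ : Cl N → Option Hy // Valid σ β ρ}) (h0 : Cp κ ρ₀.1) :
    ∑ ρ, g ρ (eK T κ * eR ρ.1) = g ρ₀ (eK T κ) := by
  rw [Finset.sum_eq_single ρ₀, eK_eR h0]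
  · intro ρ _ hρ
    rw [eK_eR_zero hT ρ.2 fun hc => hρ (Subtype.ext (cp_unique ρ.2 ρ₀.2 hc h0)), hg]
  · simp

omit [NeZero N]

variable (sep) in
open Classical in
/-- The homomorphism that colours the generators in `T`. -/
noncomputable def al (hκ : Function.Injective κ) : RA (Cross sep) →* RA (cU sep N) :=
  RA.lift (fun h => if hh : h ∈ T then gen _ ⟨h, κ ⟨h, hh⟩⟩ else 1)
    (fun h => by
      split_ifs
      · exact gen_sq _
      · exact mul_one _)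
    fun h h' e => by
      split_ifs
      · exact gen_comm ⟨e, fun e' => e.1 (congrArg Subtype.val (hκ e'))⟩
      · exact Commute.one_right _
      · exact Commute.one_left _
      · exact Commute.one_left _

theorem al_gen (hκ : Function.Injective κ) {h : Hy} (hh : h ∈ T) :
    al sep hκ (gen _ h) = gen _ ⟨h, κ ⟨h, hh⟩⟩ := by
  rw [al, RA.lift_gen, dif_pos hh]

theorem al_eq_one (hκ : Function.Injective κ) {w : RA (Cross sep)}
    (hw : w ∈ Subgroup.closure (gen (Cross sep) '' T)) (e : al sep hκ w = 1) : w = 1 := by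
  have key : RA.map (c := cU sep N) (c' := Cross sep) Lt.h (fun _ _ h => h.1) (al sep hκ w) = w :=
    par_induction (P := fun w => RA.map (c := cU sep N) (c' := Cross sep) Lt.h (fun _ _ h => h.1)
      (al sep hκ w) = w) (by rw [map_one, map_one])
      (fun w _ h hh ih => by rw [map_mul, map_mul, ih, al_gen hκ hh, RA.map_gen]) hw
  rw [← key, e, map_one]

end Comb

section PPs

variable {G V Hy B : Type} [Group G] [MulAction G V] [MulAction G Hy] [MulAction G B]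
  {sep : V → V → Finset Hy} {o : B → V} {σ : B → Finset Hy} {F : Hy → B → B} {d : ℕ}
  {C : Cells G sep o σ F d} {N : ℕ} [NeZero N] {H : Type} [NormedAddCommGroup H]
  [InnerProductSpace ℂ H] (b : HilbertBasis (ZZ sep N (Col C N)) ℂ H)

theorem PP_tau (s : Bool) (c : Cl N) (ξ : H) :
    PP b (fun _ => s) Finset.univ (tau b s c ξ) = PP b (fun _ => s) Finset.univ ξ := by
  classical
  have h : pj (tau b s c) * tau b s c = pj (tau b s c) := by
    rw [pj, smul_mul_assoc, add_mul, tau_sq, one_mul, add_comm]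
  rw [← mul_apply_eq_comp, PP, ← Finset.noncommProd_erase_mul _ (Finset.mem_univ c), mul_assoc, h]

theorem PP_fix {s : Bool} {ξ : H} (h : ∀ c, tau b s c ξ = ξ) :
    PP b (fun _ => s) Finset.univ ξ = ξ :=
  Finset.noncommProd_induction _ _ _ (fun U : H →L[ℂ] H => U ξ = ξ)
    (fun U U' h1 h2 => by rw [mul_apply_eq_comp, h2, h1]) rfl fun c _ => by
      rw [pj, _root_.smul_apply, _root_.add_apply, h c, one_apply_eq_self, ← two_smul ℂ, smul_smul]
      norm_num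

end PPs

section Main

variable {G V Hy B : Type} [Group G] [MulAction G V] [MulAction G Hy] [MulAction G B]
  {sep : V → V → Finset Hy} {W : Wl G sep} {o : B → V} {σ : B → Finset Hy} {F : Hy → B → B}
  {d : ℕ} {C : Cells G sep o σ F d} {N : ℕ} [NeZero N] {H H₀ H₂ : Type} [NormedAddCommGroup H]
  [InnerProductSpace ℂ H] [CompleteSpace H] [NormedAddCommGroup H₀] [InnerProductSpace ℂ H₀]
  [CompleteSpace H₀] [NormedAddCommGroup H₂] [InnerProductSpace ℂ H₂] [CompleteSpace H₂]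
  {b : HilbertBasis (ZZ sep N (Col C N)) ℂ H} {b₀ : HilbertBasis (ZZ sep N B) ℂ H₀}
  {k : Module.End ℤ (B →₀ ℤ)} {Φ : H →L[ℂ] H₀} {D : H₂ →L[ℂ] H₀}
  {T : Finset Hy} {κ : T → Cl N}

theorem adj_eK (O : OpsP W b b₀ k Φ D) (x : UA sep N) (y : Col C N) (hT : σ y.β ⊆ T)
    (hy : Cp κ y.ρ) : adjoint Φ (ev b₀ (eK T κ) (b₀ ⟨x, y.β⟩)) = ev b (eK T κ) (b ⟨x, y⟩) := by
  rw [O.adj_ev, O.adj, map_sum]
  simp only [← mul_apply_eq_comp, ← map_mul]
  exact sum_cp hT (fun ρ a => ev b a (b ⟨x, ⟨y.β, ρ.1, ρ.2⟩⟩)) (fun _ => by simp)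
    ⟨y.ρ, y.valid⟩ hy

theorem phi_eK (O : OpsP W b b₀ k Φ D) (x : UA sep N) (y : Col C N)
    (hy : Cp κ y.ρ) : Φ (ev b (eK T κ) (b ⟨x, y⟩)) = ev b₀ (eK T κ) (b₀ ⟨x, y.β⟩) := by
  rw [O.phi_ev, O.phi, ← mul_apply_eq_comp, ← map_mul, eK_eR hy]

variable (b₀) in
/-- The image of an unfolded cell in the uncoloured model. -/
noncomputable def v0 (hκ : Function.Injective κ) (x : RA (Cross sep) × B) : H₀ :=
  ev b₀ (eK T κ) (b₀ ⟨(al sep hκ x.1, 1), x.2⟩)

variable (b₀ Φ) in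
/-- The image of an unfolded cell in the coloured model. -/
noncomputable def v1 (hκ : Function.Injective κ) (x : RA (Cross sep) × B) : H :=
  adjoint Φ (v0 b₀ hκ x)

variable (O : OpsP W b b₀ k Φ D) (hκ : Function.Injective κ)

include O

theorem v1_eq {x : RA (Cross sep) × B} (hT : σ x.2 ⊆ T) {ρ : Cl N → Option Hy}
    (hρ : Valid σ x.2 ρ) (hc : Cp κ ρ) :
    v1 b₀ Φ hκ x = ev b (eK T κ) (b ⟨(al sep hκ x.1, 1), ⟨x.2, ρ, hρ⟩⟩) :=
  adj_eK O _ ⟨x.2, ρ, hρ⟩ hT hc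

theorem phi_v1 {x : RA (Cross sep) × B} (hT : σ x.2 ⊆ T) : Φ (v1 b₀ Φ hκ x) = v0 b₀ hκ x := by
  obtain ⟨ρ, hc⟩ := cp_exists hκ hT
  rw [v1_eq O hκ hT ρ.2 hc, phi_eK O _ _ hc, v0]

theorem dd_v0 (x : RA (Cross sep) × B) : D (adjoint D (v0 b₀ hκ x)) =
    linearCombination ℤ (v0 b₀ hκ) (Shap.ext _ k (single x 1)) := by
  rw [v0, O.dd_ev, O.dd, ← Shap.inY_single x.1 x.2, Shap.ext_in, embZ, Shap.inY, lmapDomain_apply,
    linearCombination_mapDomain, linearCombination_mapDomain]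
  exact lc_id _ fun _ _ => rfl

theorem tau_none (s : Bool) {x : RA (Cross sep) × B} (hT : σ x.2 ⊆ T) {c : Cl N}
    (hc : ∀ h (hh : h ∈ T), h ∈ σ x.2 → κ ⟨h, hh⟩ ≠ c) :
    tau b s c (v1 b₀ Φ hκ x) = v1 b₀ Φ hκ x := by
  obtain ⟨ρ, hρ⟩ := cp_exists hκ hT
  rw [v1_eq O hκ hT ρ.2 hρ, ← mul_apply_eq_comp, (tau_ev b s c _).eq, mul_apply_eq_comp, tau_apply,
    tz_none]
  change ρ.1 c = none
  rcases e : ρ.1 c with _ | h
  · rfl
  · obtain ⟨hh, e'⟩ := hρ c h e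
    exact (hc h hh ((ρ.2.mem h).2 ⟨c, e⟩) e').elim

theorem tau_some (s : Bool) {x : RA (Cross sep) × B} (hT : σ x.2 ⊆ T) {h : Hy} (hh : h ∈ σ x.2) :
    tau b s (κ ⟨h, hT hh⟩) (v1 b₀ Φ hκ x) = v1 b₀ Φ hκ (Fw (Cross sep) σ F s h x) := by
  obtain ⟨ρ, hρ⟩ := cp_exists hκ hT
  obtain ⟨c, e⟩ := (ρ.2.mem h).1 hh
  obtain ⟨_, rfl⟩ := hρ c h e
  have hs : σ (Fw (Cross sep) σ F s h x).2 = σ x.2 := (flipSys_Fw C.flip C.cross s).sig h x
  have hv : Valid σ (Fw (Cross sep) σ F s h x).2 ρ.1 := ⟨fun k => by rw [hs, ρ.2.mem], ρ.2.inj⟩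
  rw [v1_eq O hκ hT ρ.2 hρ, v1_eq O hκ (hs ▸ hT) hv hρ, ← mul_apply_eq_comp, (tau_ev b s _ _).eq,
    mul_apply_eq_comp, tau_apply, tz_some (h := h) e]
  refine congrArg _ (congrArg _ (ZZ.ext ?_ (Col.ext ?_ ?_)))
  · simp only [Fw_pos hh, map_mul, al_gen hκ (hT hh), Prod.mk_mul_mk, mul_one]
  · refine Eq.trans ?_ (congrArg Prod.snd (Fw_pos (c := Cross sep) (F := F) (s := s) hh)).symm
    cases s <;> rfl
  · cases s <;> rfl

theorem PP_v1 (s : Bool) {x : RA (Cross sep) × B} (hT : σ x.2 ⊆ T) :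
    ((2 ^ d : ℂ) • PP b (fun _ => s) Finset.univ) (v1 b₀ Φ hκ x) = linearCombination ℤ (v1 b₀ Φ hκ)
      (avg d (fun x => σ x.2) (Fw (Cross sep) σ F s) (single x 1)) := by
  classical
  have S := flipSys_Fw C.flip C.cross s
  have hs : ∀ τ : Finset Hy, σ (FS (Fw (Cross sep) σ F s) τ x).2 = σ x.2 := fun τ => by
    induction τ using Finset.induction_on with
    | empty => rw [FS_empty]
    | insert h τ hτ ih => rw [FS_insert S.comm hτ, ← ih]; exact S.sig _ _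
  have ht : ∀ h (hh : h ∈ σ x.2) (τ : Finset Hy), h ∉ τ → v1 b₀ Φ hκ (FS (Fw (Cross sep) σ F s)
      (insert h τ) x) = tau b s (κ ⟨h, hT hh⟩) (v1 b₀ Φ hκ (FS (Fw (Cross sep) σ F s) τ x)) :=
    fun h hh τ hτ => by
      rw [FS_insert S.comm hτ]
      exact (tau_some O hκ s ((hs τ).symm ▸ hT) ((hs τ).symm ▸ hh)).symm
  have h1 : ∀ τ : Finset Hy, τ ⊆ σ x.2 → PP b (fun _ => s) Finset.univ
      (v1 b₀ Φ hκ (FS (Fw (Cross sep) σ F s) τ x)) = PP b (fun _ => s) Finset.univ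
        (v1 b₀ Φ hκ x) := fun τ => by
    induction τ using Finset.induction_on with
    | empty => rw [FS_empty]; exact fun _ => rfl
    | insert h τ hτ ih =>
      intro h2
      rw [ht h (h2 (Finset.mem_insert_self _ _)) τ hτ, PP_tau,
        ih ((Finset.subset_insert _ _).trans h2)]
  have h2 := PP_fix b (s := s) (ξ := ∑ τ ∈ (σ x.2).powerset,
      v1 b₀ Φ hκ (FS (Fw (Cross sep) σ F s) τ x)) fun c => by
    by_cases hc : ∃ h, ∃ hh : h ∈ σ x.2, κ ⟨h, hT hh⟩ = c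
    · obtain ⟨h, hh, rfl⟩ := hc
      rw [← Finset.insert_erase hh, Finset.sum_powerset_insert (Finset.notMem_erase _ _),
        Finset.sum_congr rfl fun τ hτ => ht h hh τ fun e =>
          Finset.notMem_erase _ _ (Finset.mem_powerset.1 hτ e), ← map_sum, map_add,
        ← mul_apply_eq_comp (tau b s _), tau_sq, one_apply_eq_self, add_comm]
    · rw [map_sum]
      exact Finset.sum_congr rfl fun τ _ => tau_none O hκ s ((hs τ).symm ▸ hT) fun h _ hh e =>
        hc ⟨h, hs τ ▸ hh, e⟩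
  rw [map_sum, Finset.sum_congr rfl fun τ hτ => h1 τ (Finset.mem_powerset.1 hτ), Finset.sum_const,
    Finset.card_powerset] at h2
  rw [avg_single, map_zsmul, map_sum]
  simp only [linearCombination_single, one_smul]
  rw [← h2, _root_.smul_apply, ← Nat.cast_smul_eq_nsmul ℂ, ← Int.cast_smul_eq_zsmul ℂ, smul_smul]
  congr 1
  push_cast
  rw [← pow_add, Nat.sub_add_cancel (C.card _)]

theorem KK_lc (s : Bool) {x : RA (Cross sep) × B →₀ ℤ} (h1 : ∀ z ∈ x.support, σ z.2 ⊆ T)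
    (h2 : ∀ z ∈ (avg d (fun x => σ x.2) (Fw (Cross sep) σ F s) x).support, σ z.2 ⊆ T)
    (h3 : ∀ z ∈ (Shap.ext _ k (avg d (fun x => σ x.2) (Fw (Cross sep) σ F s) x)).support,
      σ z.2 ⊆ T) :
    KK b Φ D s (linearCombination ℤ (v1 b₀ Φ hκ) x) =
      linearCombination ℤ (v1 b₀ Φ hκ) (sandW (Cross sep) d σ F s k x) := by
  have e : ∀ ξ, KK b Φ D s ξ = ((2 ^ d : ℂ) • PP b (fun _ => s) Finset.univ)
      (adjoint Φ ((D ∘L adjoint D) (Φ (((2 ^ d : ℂ) • PP b (fun _ => s) Finset.univ) ξ)))) :=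
    fun ξ => by
      simp only [KK, _root_.smul_apply, map_smul, smul_smul, ← mul_pow, mul_apply_eq_comp,
        ContinuousLinearMap.comp_apply]
      norm_num
  rw [e, lc_map _ fun z hz => PP_v1 O hκ s (h1 z hz), lc_id Φ fun z hz => phi_v1 O hκ (h2 z hz),
    lc_map (D ∘L adjoint D) fun z _ => dd_v0 O hκ z,
    lc_id (adjoint Φ) (g := v1 b₀ Φ hκ) fun _ _ => rfl,
    lc_map _ fun z hz => PP_v1 O hκ s (h3 z hz)]
  rfl

theorem inner_lc (y : Col C N) (hy : Cp κ y.ρ) {x : RA (Cross sep) × B →₀ ℤ}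
    (h : ∀ z ∈ x.support, z.1 ∈ Subgroup.closure (gen (Cross sep) '' T)) :
    ⟪b ⟨1, y⟩, linearCombination ℤ (v1 b₀ Φ hκ) x⟫_ℂ = ((N : ℂ) ^ T.card)⁻¹ * x (1, y.β) := by
  classical
  have key : ∀ z ∈ x.support, ⟪b ⟨1, y⟩, v1 b₀ Φ hκ z⟫_ℂ =
      if z = (1, y.β) then ((N : ℂ) ^ T.card)⁻¹ else 0 := fun z hz => by
    rw [v1, ContinuousLinearMap.adjoint_inner_right, O.phi, v0,
      ← ContinuousLinearMap.adjoint_inner_right, ← ContinuousLinearMap.star_eq_adjoint,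
      (ev_eR_proj b₀ _).isSelfAdjoint.star_eq, ← mul_apply_eq_comp, ← map_mul, mul_comm, eK_eR hy,
      inner_ev]
    refine if_congr ⟨fun e => Prod.ext (al_eq_one hκ (h z hz) e.1.symm) e.2.symm, ?_⟩ ?_ rfl
    · rintro rfl
      exact ⟨(map_one _).symm, rfl⟩
    · rw [← coeff_eK T κ]
      exact congrArg _ (inv_mul_cancel _)
  rw [linearCombination_apply, Finsupp.sum, inner_sum, Finset.sum_congr rfl fun z hz => by
    rw [← Int.cast_smul_eq_zsmul ℂ, inner_smul_right, key z hz]]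
  simp only [mul_ite, mul_zero, Finset.sum_ite_eq', mem_support_iff]
  split_ifs with e
  · exact mul_comm _ _
  · rw [not_not.1 e, Int.cast_zero, mul_zero]

end Main

end Pool.Agent.MP_4f4d9f_gt.Cb.Mom

end

section

/-! The moments of the coloured model. -/

open scoped InnerProductSpace

namespace Pool.Agent.MP_4f4d9f_gt.Cb

open Finsupp Db Filter
open ContinuousLinearMap (adjoint)

namespace Mom

/-- The cells of the chain only involve hyperplanes in `T`. -/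
def Good {Hy B : Type} (c : Hy → Hy → Prop) (σ : B → Finset Hy) (x : RA c × B →₀ ℤ)
    (T : Finset Hy) : Prop :=
  ∀ z ∈ x.support, σ z.2 ⊆ T ∧ z.1 ∈ Subgroup.closure (gen c '' T)

theorem ev_good {Hy B : Type} (c : Hy → Hy → Prop) (σ : B → Finset Hy) (x : RA c × B →₀ ℤ) :
    ∀ᶠ T in atTop, Good c σ x T := by
  refine (eventually_all_finset _).2 fun z _ => (eventually_ge_atTop (σ z.2)).and ?_
  induction z.1 using RA.induction with
  | h1 => exact Eventually.of_forall fun _ => one_mem _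
  | h2 w s ih =>
    exact (ih.and (eventually_ge_atTop {s})).mono fun T h => mul_mem h.1
      (Subgroup.subset_closure ⟨s, h.2 (Finset.mem_singleton_self s), rfl⟩)

theorem card_inj {Hy : Type} [DecidableEq Hy] (T : Finset Hy) (N : ℕ) [NeZero N]
    [DecidablePred fun κ : T → Cl N => Function.Injective κ] :
    (Finset.univ.filter fun κ : T → Cl N => Function.Injective κ).card =
      N.descFactorial T.card := by
  classical
  rw [← Fintype.card_subtype, Fintype.card_congr (Equiv.subtypeInjectiveEquivEmbedding _ _),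
    Fintype.card_embedding_eq, card_Cl, Fintype.card_coe]

theorem lim (t : ℕ) (M : ℝ) {ε : ℝ} (hε : 0 < ε) :
    ∀ᶠ N : ℕ in atTop, (1 - (N.descFactorial t : ℝ) / (N : ℝ) ^ t) * M ≤ ε := by
  have h := (Asymptotics.isEquivalent_iff_tendsto_one ((eventually_gt_atTop 0).mono fun n hn =>
    pow_ne_zero t (Nat.cast_ne_zero.2 hn.ne'))).1 (isEquivalent_descFactorial t)
  have h2 := (h.const_sub 1).mul_const M
  rw [sub_self, zero_mul] at h2
  exact h2.eventually (eventually_le_nhds hε)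

section Main

variable {G V Hy B : Type} [Group G] [MulAction G V] [MulAction G Hy] [MulAction G B]
  {sep : V → V → Finset Hy} {W : Wl G sep} {o : B → V} {σ : B → Finset Hy} {F : Hy → B → B}
  {d : ℕ} {C : Cells G sep o σ F d} {N : ℕ} [NeZero N] {H H₀ H₂ : Type} [NormedAddCommGroup H]
  [InnerProductSpace ℂ H] [CompleteSpace H] [NormedAddCommGroup H₀] [InnerProductSpace ℂ H₀]
  [CompleteSpace H₀] [NormedAddCommGroup H₂] [InnerProductSpace ℂ H₂] [CompleteSpace H₂]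
  {b : HilbertBasis (ZZ sep N (Col C N)) ℂ H} {b₀ : HilbertBasis (ZZ sep N B) ℂ H₀}
  {k : Module.End ℤ (B →₀ ℤ)} {Φ : H →L[ℂ] H₀} {D : H₂ →L[ℂ] H₀}
  {T : Finset Hy} {κ : T → Cl N} (O : OpsP W b b₀ k Φ D)

include O

theorem KK_ev (s : Bool) (x : Am Hy N) : Commute (ev b x) (KK b Φ D s) := by
  have h1 : Commute (ev b x) (PP b (fun _ => s) Finset.univ) :=
    PP_comm b fun c _ => (tau_ev b s c x).symm
  refine ((h1.mul_right ?_).mul_right h1).smul_right _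
  refine ContinuousLinearMap.ext fun ξ => ?_
  simp only [mul_apply_eq_comp, ContinuousLinearMap.comp_apply, O.phi_ev, O.dd_ev, O.adj_ev]

theorem KK_eR (s : Bool) (z : ZZ sep N (Col C N)) :
    KK b Φ D s (ev b (eR z.y.ρ) (b z)) = KK b Φ D s (b z) := by
  have h1 : Φ ∘L (adjoint Φ ∘L Φ) = Φ := hb_ext b fun z => by
    rw [ContinuousLinearMap.comp_apply, ContinuousLinearMap.comp_apply, O.r_apply, O.phi_ev, O.phi,
      ← mul_apply_eq_comp, ← map_mul, eR_idem]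
  have h2 : Commute (adjoint Φ ∘L Φ) (PP b (fun _ => s) Finset.univ) :=
    PP_comm b fun c _ => O.r_tau s c
  have h3 : Φ (PP b (fun _ => s) Finset.univ (ev b (eR z.y.ρ) (b z))) =
      Φ (PP b (fun _ => s) Finset.univ (b z)) := by
    rw [← O.r_apply, ← ContinuousLinearMap.comp_apply (adjoint Φ), ← mul_apply_eq_comp, ← h2.eq,
      mul_apply_eq_comp, ← ContinuousLinearMap.comp_apply Φ, h1]
  simp only [KK, _root_.smul_apply, mul_apply_eq_comp, ContinuousLinearMap.comp_apply, h3]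

variable (b Φ D) in
omit O in
/-- The contribution of the colouring `κ` to the moment at the cell `β`. -/
noncomputable def aa (s : Bool) (m : ℕ) (β : B) (κ : T → Cl N) : ℂ :=
  ∑ ρ : {ρ : Cl N → Option Hy // Valid σ β ρ}, ⟪b ⟨1, ⟨β, ρ.1, ρ.2⟩⟩,
    (KK b Φ D s ^ m) (ev b (eK T κ * eR ρ.1) (b ⟨1, ⟨β, ρ.1, ρ.2⟩⟩))⟫_ℂ

theorem tr_eq [DecidableEq Hy] {I : Type} [Fintype I] (r : I → B) (s : Bool) {m : ℕ} (hm : 1 ≤ m)
    (T : Finset Hy) :
    tr (frC b r) (KK b Φ D s ^ m) = ∑ i, ∑ κ : T → Cl N, (aa b Φ D s m (r i) κ).re := by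
  obtain ⟨m, rfl⟩ := Nat.exists_eq_add_of_le' hm
  rw [tr, Fintype.sum_sigma]
  refine Finset.sum_congr rfl fun i _ => ?_
  simp only [aa, ← Complex.re_sum]
  rw [Finset.sum_comm]
  refine congrArg _ (Finset.sum_congr rfl fun ρ _ => ?_)
  rw [← inner_sum, ← map_sum, ← _root_.sum_apply, ← map_sum, ← Finset.sum_mul, sum_eK, one_mul,
    pow_succ, mul_apply_eq_comp, mul_apply_eq_comp]
  exact congrArg (fun η => ⟪_, (KK b Φ D s ^ m) η⟫_ℂ) (KK_eR O s ⟨1, ⟨r i, ρ.1, ρ.2⟩⟩).symm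

omit O in
theorem aa_eq (s : Bool) (m : ℕ) {β : B} (hT : σ β ⊆ T)
    (ρ : {ρ : Cl N → Option Hy // Valid σ β ρ}) (h : Cp κ ρ.1) : aa b Φ D s m β κ =
      ⟪b ⟨1, ⟨β, ρ.1, ρ.2⟩⟩, (KK b Φ D s ^ m) (ev b (eK T κ) (b ⟨1, ⟨β, ρ.1, ρ.2⟩⟩))⟫_ℂ :=
  sum_cp hT (fun ρ x => ⟪b ⟨1, ⟨β, ρ.1, ρ.2⟩⟩,
    (KK b Φ D s ^ m) (ev b x (b ⟨1, ⟨β, ρ.1, ρ.2⟩⟩))⟫_ℂ) (fun _ => by simp) ρ h

theorem aa_le (s : Bool) (m : ℕ) {β : B} (hT : σ β ⊆ T) {c : ℝ} (hc : ‖KK b Φ D s‖ ≤ c) :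
    ‖aa b Φ D s m β κ‖ ≤ ((N : ℝ) ^ T.card)⁻¹ * c ^ m := by
  have hc0 : 0 ≤ c := (norm_nonneg _).trans hc
  by_cases h : ∃ ρ : {ρ : Cl N → Option Hy // Valid σ β ρ}, Cp κ ρ.1
  · obtain ⟨ρ, h⟩ := h
    rw [aa_eq s m hT ρ h]
    generalize (⟨1, ⟨β, ρ.1, ρ.2⟩⟩ : ZZ sep N (Col C N)) = z
    have P := ev_eK_proj b κ
    have key : ∀ η, ⟪b z, ev b (eK T κ) η⟫_ℂ = ⟪ev b (eK T κ) (b z), η⟫_ℂ := fun η => by
      rw [← ContinuousLinearMap.adjoint_inner_left, ← ContinuousLinearMap.star_eq_adjoint,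
        P.isSelfAdjoint.star_eq]
    have idem : ev b (eK T κ) (ev b (eK T κ) (b z)) = ev b (eK T κ) (b z) := by
      rw [← mul_apply_eq_comp, P.isIdempotentElem.eq]
    have hn : ‖ev b (eK T κ) (b z)‖ * ‖ev b (eK T κ) (b z)‖ = ((N : ℝ) ^ T.card)⁻¹ := by
      rw [← inner_self_eq_norm_mul_norm (𝕜 := ℂ), ← key, idem, inner_ev, if_pos ⟨rfl, rfl⟩,
        inv_mul_cancel, coeff_eK, ← Complex.ofReal_natCast, ← Complex.ofReal_pow,
        ← Complex.ofReal_inv]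
      exact Complex.ofReal_re _
    have hK : ∀ η, ‖(KK b Φ D s ^ m) η‖ ≤ c ^ m * ‖η‖ := fun η => by
      induction m with
      | zero => simp
      | succ m ih =>
        rw [pow_succ', mul_apply_eq_comp, pow_succ', mul_assoc]
        exact (ContinuousLinearMap.le_opNorm _ _).trans
          (mul_le_mul hc ih (norm_nonneg _) hc0)
    rw [← idem, ← mul_apply_eq_comp, ← ((KK_ev O s _).pow_right m).eq, mul_apply_eq_comp, key, ← hn,
      mul_assoc, mul_comm _ (c ^ m)]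
    exact (norm_inner_le_norm _ _).trans (mul_le_mul_of_nonneg_left (hK _) (norm_nonneg _))
  · rw [aa, Finset.sum_eq_zero fun ρ _ => by
      rw [eK_eR_zero hT ρ.2 fun e => h ⟨ρ, e⟩, map_zero, _root_.zero_apply, map_zero,
        inner_zero_right], norm_zero]
    positivity

theorem aa_inj (hκ : Function.Injective κ) (s : Bool) (m : ℕ) (β : B)
    (h : ∀ j ≤ m, Good _ σ ((sandW (Cross sep) d σ F s k ^ j) (single (1, β) 1)) T ∧
      Good _ σ (avg d (fun x => σ x.2) (Fw (Cross sep) σ F s)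
        ((sandW (Cross sep) d σ F s k ^ j) (single (1, β) 1))) T ∧
      Good _ σ (Shap.ext _ k (avg d (fun x => σ x.2) (Fw (Cross sep) σ F s)
        ((sandW (Cross sep) d σ F s k ^ j) (single (1, β) 1)))) T) :
    aa b Φ D s m β κ =
      ((N : ℂ) ^ T.card)⁻¹ * (sandW (Cross sep) d σ F s k ^ m) (single (1, β) 1) (1, β) := by
  have hT : σ β ⊆ T := ((h 0 (Nat.zero_le _)).1 (1, β) (by simp)).1
  obtain ⟨ρ, hρ⟩ := cp_exists hκ hT
  have key : ∀ j ≤ m, (KK b Φ D s ^ j) (ev b (eK T κ) (b ⟨1, ⟨β, ρ.1, ρ.2⟩⟩)) =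
      linearCombination ℤ (v1 b₀ Φ hκ) ((sandW (Cross sep) d σ F s k ^ j) (single (1, β) 1)) :=
    fun j => by
      induction j with
      | zero =>
        intro _
        rw [pow_zero, pow_zero, one_apply_eq_self, Module.End.one_apply, linearCombination_single,
          one_smul, v1_eq O hκ (x := (1, β)) hT ρ.2 hρ, map_one]
        rfl
      | succ j ih =>
        intro hj
        obtain ⟨h1, h2, h3⟩ := h j (Nat.le_of_succ_le hj)
        rw [pow_succ', pow_succ', mul_apply_eq_comp, ih (Nat.le_of_succ_le hj),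
          Module.End.mul_apply]
        exact KK_lc O hκ s (fun z hz => (h1 z hz).1) (fun z hz => (h2 z hz).1)
          fun z hz => (h3 z hz).1
  rw [aa_eq s m hT ρ hρ, key m le_rfl]
  exact inner_lc O hκ ⟨β, ρ.1, ρ.2⟩ hρ fun z hz => ((h m le_rfl).1 z hz).2

end Main

end Mom

open Mom in
theorem mom_stmt : MomStmt := by
  classical
  intro G V Hy B I _ _ _ _ _ sep W o σ F d C k r s m hm c ε hε
  obtain ⟨T, hT⟩ := (eventually_all.2 fun i : I => (eventually_all_finite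
    (Set.finite_Iic m)).2 fun j _ =>
      (ev_good _ σ ((sandW (Cross sep) d σ F s k ^ j) (single (1, r i) 1))).and
      ((ev_good _ σ (avg d (fun x => σ x.2) (Fw (Cross sep) σ F s)
        ((sandW (Cross sep) d σ F s k ^ j) (single (1, r i) 1)))).and
      (ev_good _ σ (Shap.ext _ k (avg d (fun x => σ x.2) (Fw (Cross sep) σ F s)
        ((sandW (Cross sep) d σ F s k ^ j) (single (1, r i) 1))))))).exists
  obtain ⟨x, hx⟩ : ∃ x : I → ℤ, ∀ i,
    (sandW (Cross sep) d σ F s k ^ m) (single (1, r i) 1) (1, r i) = x i := ⟨_, fun _ => rfl⟩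
  obtain ⟨N₀, hN⟩ := eventually_atTop.1 (lim T.card (∑ i, (c ^ m + |(x i : ℝ)|)) hε)
  refine ⟨N₀, fun N _ hN₀ H H₀ H₂ _ _ _ _ _ _ _ _ _ b b₀ Φ D O hc => le_trans ?_ (hN N hN₀)⟩
  have hN0 : (0 : ℝ) < (N : ℝ) ^ T.card := pow_pos (Nat.cast_pos.2 (NeZero.pos N)) _
  have hcard : (Fintype.card (T → Cl N) : ℝ) = (N : ℝ) ^ T.card := by
    rw [Fintype.card_fun, card_Cl, Fintype.card_coe, Nat.cast_pow]
  rw [tr_eq O r s hm T, mom, Int.cast_sum, ← Finset.sum_sub_distrib, Finset.mul_sum]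
  refine (Finset.abs_sum_le_sum_abs _ _).trans (Finset.sum_le_sum fun i _ => ?_)
  have h0 : σ (r i) ⊆ T := ((hT i 0 (Nat.zero_le m)).1 (1, r i) (by simp)).1
  have h1 : (x i : ℝ) = ∑ _κ : T → Cl N, ((N : ℝ) ^ T.card)⁻¹ * x i := by
    rw [Finset.sum_const, Finset.card_univ, nsmul_eq_mul, hcard, mul_inv_cancel_left₀ hN0.ne']
  have h2 : ((Finset.univ.filter fun κ : T → Cl N => ¬ Function.Injective κ).card : ℝ) =
      (N : ℝ) ^ T.card - N.descFactorial T.card := by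
    rw [← card_inj, ← hcard, ← Finset.card_univ,
      ← Finset.card_filter_add_card_filter_not (s := Finset.univ)
        (fun κ : T → Cl N => Function.Injective κ), Nat.cast_add, add_sub_cancel_left]
  rw [hx]
  conv_lhs => rw [h1]
  rw [← Finset.sum_sub_distrib, ← Finset.sum_filter_add_sum_filter_not _
    (fun κ : T → Cl N => Function.Injective κ), Finset.sum_eq_zero, zero_add]
  · refine (Finset.abs_sum_le_sum_abs _ _).trans ((Finset.sum_le_card_nsmul _ _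
      (((N : ℝ) ^ T.card)⁻¹ * (c ^ m + |(x i : ℝ)|)) fun κ _ => ?_).trans (le_of_eq ?_))
    · refine (abs_sub _ _).trans ?_
      rw [mul_add, abs_mul, abs_of_pos (inv_pos.2 hN0)]
      exact add_le_add_left ((Complex.abs_re_le_norm _).trans (aa_le O s m h0 hc)) _
    · rw [nsmul_eq_mul, h2, ← mul_assoc, sub_mul, mul_inv_cancel₀ hN0.ne', div_eq_mul_inv]
  · intro κ hκ
    rw [aa_inj O (Finset.mem_filter.1 hκ).2 s m (r i) (hT i), hx, sub_eq_zero,
      ← Complex.ofReal_natCast, ← Complex.ofReal_pow, ← Complex.ofReal_inv,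
      ← Complex.ofReal_intCast, ← Complex.ofReal_mul, Complex.ofReal_re]

end Pool.Agent.MP_4f4d9f_gt.Cb

end
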