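import Pool.Agent.Mg.F4f4d9fr.Gf3fae5
import Pool.Agent.MP_4f4d9f_gt.Cb.HDefs

set_option linter.all false

/-! The Davis complex of a right-angled Coxeter group. -/

namespace Pool.Agent.MP_4f4d9f_gt.Cb

open Set Topology

variable {S : Type} {c : S → S → Prop}

/-- The side `p` of a wall has positive weight. -/
def Pos (t : ℝ) (p : Prop) : Prop := (p → 0 < t) ∧ (¬ p → t < 1)

/-- Points of the Davis complex: consistent weights of the walls. -/
@[ext] structure Dav (c : S → S → Prop) : Type where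
  /-- the weight of the side that does not contain `1` -/
  y : RA c → ℝ
  bd : ∀ r, 0 ≤ y r ∧ y r ≤ 1
  fin : (Function.support y).Finite
  con : ∀ r r' (p p' : Prop), (r = r' → (p ↔ p')) → Pos (y r) p → Pos (y r') p' →
    ∃ w, (Nn w r ↔ p) ∧ (Nn w r' ↔ p')

instance : TopologicalSpace (Dav c) := TopologicalSpace.induced Dav.y inferInstance

theorem Dav.emb : IsEmbedding (Dav.y (c := c)) := ⟨⟨rfl⟩, fun _ _ => Dav.ext⟩

theorem Dav.cont (r : RA c) : Continuous fun x : Dav c => x.y r :=
  (continuous_apply r).comp Dav.emb.continuous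

instance : T2Space (Dav c) := Dav.emb.t2Space

open Classical in
noncomputable instance : MulAction (RA c) (Dav c) where
  smul g x :=
    { y := fun r => if Nn g r then 1 - x.y (g⁻¹ * r * g) else x.y (g⁻¹ * r * g)
      bd := fun r => by
        have := x.bd (g⁻¹ * r * g)
        split_ifs <;> constructor <;> linarith
      fin := by
        refine ((nn_finite g).union (x.fin.image fun r => g * r * g⁻¹)).subset fun r hr => ?_
        by_cases h : Nn g r
        · exact Or.inl h
        · exact Or.inr ⟨g⁻¹ * r * g, by simpa [h] using hr, by group⟩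
      con := fun r r' p p' e h h' => by
        have key : ∀ {r p}, Pos (if Nn g r then 1 - x.y (g⁻¹ * r * g) else x.y (g⁻¹ * r * g)) p →
            Pos (x.y (g⁻¹ * r * g)) (¬ (Nn g r ↔ p)) := fun {r p} h => by
          unfold Pos at h ⊢
          split_ifs at h with h1 <;> grind
        obtain ⟨w, h1, h2⟩ := x.con _ _ _ _ (fun e' => by
          obtain rfl : r = r' := by simpa using e'
          rw [e rfl]) (key h) (key h')
        exact ⟨g * w, by rw [nn_mul]; tauto, by rw [nn_mul]; tauto⟩ }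
  one_smul x := Dav.ext (funext fun r => by
    change (if Nn 1 r then _ else x.y (1⁻¹ * r * 1)) = _
    rw [if_neg (nn_one r), inv_one, one_mul, mul_one])
  mul_smul g g' x := Dav.ext (funext fun r => by
    have e : (g * g')⁻¹ * r * (g * g') = g'⁻¹ * (g⁻¹ * r * g) * g' := by group
    change (if Nn (g * g') r then 1 - x.y ((g * g')⁻¹ * r * (g * g')) else
      x.y ((g * g')⁻¹ * r * (g * g'))) = if Nn g r then 1 - (if Nn g' (g⁻¹ * r * g) then
        1 - x.y (g'⁻¹ * (g⁻¹ * r * g) * g') else x.y (g'⁻¹ * (g⁻¹ * r * g) * g')) else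
        if Nn g' (g⁻¹ * r * g) then 1 - x.y (g'⁻¹ * (g⁻¹ * r * g) * g') else
          x.y (g'⁻¹ * (g⁻¹ * r * g) * g')
    rw [e, nn_mul]
    by_cases h1 : Nn g r <;> by_cases h2 : Nn g' (g⁻¹ * r * g) <;> simp [h1, h2])

open Classical in
theorem Dav.smul_y (g : RA c) (x : Dav c) (r : RA c) :
    (g • x).y r = if Nn g r then 1 - x.y (g⁻¹ * r * g) else x.y (g⁻¹ * r * g) := rfl

instance : ContinuousConstSMul (RA c) (Dav c) := ⟨fun g => Dav.emb.continuous_iff.2
  (continuous_pi fun r => by
    simp only [Function.comp, Dav.smul_y]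
    split_ifs
    · exact continuous_const.sub (Dav.cont _)
    · exact Dav.cont _)⟩

theorem Dav.exists_nn (x : Dav c) {r : RA c} (h : x.y r ≠ 0) : ∃ w, Nn w r := by
  have hp : Pos (x.y r) True := ⟨fun _ => (x.bd r).1.lt_of_ne' h, fun h => (h trivial).elim⟩
  obtain ⟨w, h1, -⟩ := x.con r r True True (fun _ => Iff.rfl) hp hp
  exact ⟨w, h1.2 trivial⟩

theorem Dav.eq_one (x : Dav c) {r r' : RA c} (h : x.y r ≠ 0) (hne : r ≠ r')
    (hb : ∀ w, Nn w r → Nn w r') : x.y r' = 1 := by
  by_contra h1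
  obtain ⟨w, h2, h3⟩ := x.con r r' True False (fun e => (hne e).elim)
    ⟨fun _ => (x.bd r).1.lt_of_ne' h, fun h => (h trivial).elim⟩
    ⟨False.elim, fun _ => (x.bd r').2.lt_of_ne h1⟩
  exact h3.1 (hb w (h2.2 trivial))

/-! ### Contractibility -/

/-- The height of a wall. -/
noncomputable def ht (r : RA c) : ℕ := {r' | ∀ w, Nn w r → Nn w r'}.ncard

theorem ht_lt {w r r' : RA c} (hw : Nn w r) (hne : r ≠ r') (hb : ∀ w, Nn w r → Nn w r') :
    ht r' < ht r :=
  ncard_lt_ncard ⟨fun _ h w h1 => h w (hb w h1), fun h => hne (side_ne hw fun w =>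
    ⟨hb w, h (fun _ h => h : r ∈ {r' | ∀ w, Nn w r → Nn w r'}) w⟩)⟩
    ((nn_finite w).subset fun _ h => h w hw)

/-- The contraction to the vertex `1`. -/
noncomputable def Dav.shrink (t : ℝ) (x : Dav c) : Dav c where
  y r := min (x.y r) (max 0 (2 ^ (ht r + 1) * (t - 1) + 2))
  bd r := ⟨le_min (x.bd r).1 (le_max_left _ _), (min_le_left _ _).trans (x.bd r).2⟩
  fin := x.fin.subset fun r hr h => hr (by simp only [h, min_eq_left (le_max_left _ _)])
  con r r' p p' e h h' := by
    have key : ∀ {r r' : RA c}, r ≠ r' → 0 < min (x.y r) (max 0 (2 ^ (ht r + 1) * (t - 1) + 2)) →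
        min (x.y r') (max 0 (2 ^ (ht r' + 1) * (t - 1) + 2)) < 1 → ∃ w, Nn w r ∧ ¬ Nn w r' :=
      fun {r r'} hne h h' => by
        by_contra! hb
        have h1 := (lt_min_iff.1 h).1.ne'
        obtain ⟨w, hw⟩ := x.exists_nn h1
        have h2 : (2 : ℝ) ^ (ht r' + 1 + 1) ≤ 2 ^ (ht r + 1) :=
          pow_le_pow_right₀ one_le_two (Nat.succ_le_succ (ht_lt hw hne hb))
        have h3 := (lt_max_iff.1 (lt_min_iff.1 h).2).resolve_left (lt_irrefl _)
        rw [x.eq_one h1 hne hb, min_lt_iff, max_lt_iff] at h'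
        have h4 := (h'.resolve_left (lt_irrefl _)).2
        have h5 : (0 : ℝ) < 2 ^ (ht r' + 1) := by positivity
        rw [pow_succ] at h2
        have h6 : t - 1 < 0 := by nlinarith
        nlinarith
    by_cases hp : p <;> by_cases hp' : p'
    · exact x.con r r' p p' e ⟨fun _ => (lt_min_iff.1 (h.1 hp)).1, fun h => (h hp).elim⟩
        ⟨fun _ => (lt_min_iff.1 (h'.1 hp')).1, fun h => (h hp').elim⟩
    · obtain ⟨w, h1, h2⟩ := key (fun e' => hp' ((e e').1 hp)) (h.1 hp) (h'.2 hp')
      exact ⟨w, by tauto, by tauto⟩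
    · obtain ⟨w, h1, h2⟩ := key (fun e' => hp ((e e'.symm).2 hp')) (h'.1 hp') (h.2 hp)
      exact ⟨w, by tauto, by tauto⟩
    · exact ⟨1, by simpa [hp] using nn_one r, by simpa [hp'] using nn_one r'⟩

/-- The vertex `1`. -/
def Dav.base : Dav c where
  y _ := 0
  bd _ := ⟨le_rfl, zero_le_one⟩
  fin := by simp
  con r r' p p' _ h h' := ⟨1, ⟨fun h1 => (nn_one _ h1).elim, fun h1 => (lt_irrefl _ (h.1 h1)).elim⟩,
    ⟨fun h1 => (nn_one _ h1).elim, fun h1 => (lt_irrefl _ (h'.1 h1)).elim⟩⟩

instance : ContractibleSpace (Dav c) := by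
  refine (contractible_iff_id_nullhomotopic _).2 ⟨Dav.base, ContinuousMap.Homotopic.symm
    ⟨⟨⟨fun z => Dav.shrink z.1 z.2, Dav.emb.continuous_iff.2 (continuous_pi fun r => ?_)⟩,
      fun x => Dav.ext (funext fun r => ?_), fun x => Dav.ext (funext fun r => ?_)⟩⟩⟩
  · exact ((Dav.cont r).comp continuous_snd).min (continuous_const.max (by fun_prop))
  · change min (x.y r) (max 0 (2 ^ (ht r + 1) * ((0 : ℝ) - 1) + 2)) = 0
    have : (2 : ℝ) ^ 1 ≤ 2 ^ (ht r + 1) := pow_le_pow_right₀ one_le_two (Nat.le_add_left _ _)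
    rw [max_eq_left (by linarith), min_eq_right (x.bd r).1]
  · change min (x.y r) (max 0 (2 ^ (ht r + 1) * ((1 : ℝ) - 1) + 2)) = x.y r
    exact min_eq_left (le_max_of_le_right (by linarith [(x.bd r).2]))

/-! ### Stars -/

/-- The open star of the vertex `1`. -/
def Star (c : S → S → Prop) : Set (Dav c) := {x | ∀ s, x.y (gen c s) < 1}

theorem Star.supp {x : Dav c} (hx : x ∈ Star c) {r : RA c} (h : x.y r ≠ 0) : r ∈ range (gen c) := by
  by_contra h1
  obtain ⟨w, hw⟩ := x.exists_nn h
  obtain ⟨u, t, e⟩ := nn_refl hw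
  obtain ⟨s, hs⟩ := exists_below t u r e h1
  exact (hx s).ne (x.eq_one h (fun e => h1 ⟨s, e.symm⟩) hs)

theorem exists_star (x : Dav c) : ∃ g : RA c, g • x ∈ Star c := by
  induction hn : (Function.support x.y).ncard using Nat.strong_induction_on generalizing x with
  | _ n ih =>
    by_cases h : x ∈ Star c
    · exact ⟨1, by rwa [one_smul]⟩
    obtain ⟨s, hs⟩ : ∃ s, x.y (gen c s) = 1 := by
      by_contra! h1
      exact h fun s => (x.bd _).2.lt_of_ne (h1 s)
    have h1 : Function.support (gen c s • x).y ⊆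
        (fun r => gen c s * r * gen c s) '' (Function.support x.y \ {gen c s}) := fun r hr => by
      have e : gen c s * (gen c s * r * gen c s) * gen c s = r := by
        rw [mul_assoc (gen c s) r, RaT.cancel, mul_assoc, gen_sq, mul_one]
      rw [Function.mem_support, Dav.smul_y, nn_gen, gen_inv] at hr
      have h2 : r ≠ gen c s := fun h2 => hr (by rw [if_pos h2, h2, gen_sq, one_mul, hs, sub_self])
      refine ⟨_, ⟨by rwa [if_neg h2] at hr, fun h3 => h2 ?_⟩, e⟩
      rw [← e, show gen c s * r * gen c s = gen c s from h3, gen_sq, one_mul]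
    obtain ⟨g, hg⟩ := ih _ (hn ▸ (ncard_le_ncard h1 ((x.fin.subset sdiff_subset).image _)).trans_lt
      ((ncard_image_le (x.fin.subset sdiff_subset)).trans_lt (ncard_sdiff_singleton_lt_of_mem
        (by rw [Function.mem_support, hs]; exact one_ne_zero) x.fin))) (gen c s • x) rfl
    exact ⟨g * gen c s, by rwa [mul_smul]⟩

theorem Star.comm {x : Dav c} {s t : S} (hne : s ≠ t) (hs : x.y (gen c s) ≠ 0)
    (ht : x.y (gen c t) ≠ 0) : c s t ∨ c t s := by
  obtain ⟨w, h1, h2⟩ := x.con (gen c s) (gen c t) True True (fun _ => Iff.rfl)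
    ⟨fun _ => (x.bd _).1.lt_of_ne' hs, fun h => (h trivial).elim⟩
    ⟨fun _ => (x.bd _).1.lt_of_ne' ht, fun h => (h trivial).elim⟩
  exact RaT.two w s t hne (h1.2 trivial) (h2.2 trivial)

theorem ext_gen (x : S → ℝ) (s : S) : Function.extend (gen c) x 0 (gen c s) = x s :=
  gen_injective.extend_apply _ _ _

variable [Finite S]

/-- The point of the closed star with given coordinates. -/
noncomputable def pt (x : Cone c) : Dav c where
  y := Function.extend (gen c) (fun s => min (x.1 s) 1) 0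
  bd r := by
    by_cases h : ∃ s, gen c s = r
    · obtain ⟨s, rfl⟩ := h
      rw [ext_gen]
      exact ⟨le_min (x.2.1 s) zero_le_one, min_le_right _ _⟩
    · simp [Function.extend_apply' _ _ _ h]
  fin := (finite_range (gen c)).subset fun r hr => by
    by_contra h
    exact hr (Function.extend_apply' _ _ _ h)
  con r r' p p' e h h' := by
    have key : ∀ {r}, 0 < Function.extend (gen c) (fun s => min (x.1 s) 1) 0 r →
        ∃ s, gen c s = r ∧ x.1 s ≠ 0 := fun {r} h => by
      by_cases h1 : ∃ s, gen c s = r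
      · obtain ⟨s, rfl⟩ := h1
        exact ⟨s, rfl, by rw [ext_gen] at h; exact (lt_min_iff.1 h).1.ne'⟩
      · simp [Function.extend_apply' _ _ _ h1] at h
    by_cases hp : p <;> by_cases hp' : p'
    · obtain ⟨s, rfl, hs⟩ := key (h.1 hp)
      obtain ⟨t, rfl, ht⟩ := key (h'.1 hp')
      by_cases e' : s = t
      · exact ⟨gen c s, by simp [nn_gen, hp], by simp [nn_gen, hp', e']⟩
      · have h1 := gen_comm (x.2.2 s t e' hs ht)
        refine ⟨gen c s * gen c t, ?_, ?_⟩ <;>
          rw [nn_mul_gen, nn_gen, h1.eq, mul_inv_cancel_right] <;>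
          simp [gen_injective.eq_iff, hp, hp', e', Ne.symm e']
    · obtain ⟨s, rfl, -⟩ := key (h.1 hp)
      exact ⟨gen c s, by simp [nn_gen, hp], by rw [nn_gen]; grind⟩
    · obtain ⟨s, rfl, -⟩ := key (h'.1 hp')
      exact ⟨gen c s, by rw [nn_gen]; grind, by simp [nn_gen, hp']⟩
    · exact ⟨1, by simpa [hp] using nn_one r, by simpa [hp'] using nn_one r'⟩

theorem pt_gen (x : Cone c) (s : S) : (pt x).y (gen c s) = min (x.1 s) 1 :=
  ext_gen (fun s => min (x.1 s) 1) s

omit [Finite S] in
theorem cone_cont (s : S) : Continuous fun x : Cone c => x.1 s :=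
  (continuous_apply s).comp continuous_subtype_val

theorem pt_cont : Continuous (pt (c := c)) := Dav.emb.continuous_iff.2 (continuous_pi fun r => by
  change Continuous fun x : Cone c => Function.extend (gen c) (fun s => min (x.1 s) 1) 0 r
  by_cases h : ∃ s, gen c s = r
  · obtain ⟨s, rfl⟩ := h
    simp only [ext_gen]
    exact (cone_cont s).min continuous_const
  · simp only [Function.extend_apply' _ _ _ h]
    exact continuous_const)

theorem isOpen_star : IsOpen (Star c) := by
  rw [Star, ofPred_forall]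
  exact isOpen_iInter_of_finite fun s => isOpen_lt (Dav.cont _) continuous_const

theorem finite_star : {g : RA c | ((g • ·) '' Star c ∩ Star c).Nonempty}.Finite := by
  refine Finite.of_finite_image (f := fun g => {r | Nn g r})
    ((finite_range (gen c)).finite_subsets.subset ?_) fun g _ g' _ e => nn_inj (Set.ext_iff.1 e)
  rintro _ ⟨g, ⟨_, ⟨x, hx, rfl⟩, hx'⟩, rfl⟩ r hr
  refine Star.supp hx' fun h => ?_
  rw [Dav.smul_y, if_pos (show Nn g r from hr), sub_eq_zero] at h
  obtain ⟨s, hs⟩ := Star.supp hx (h ▸ one_ne_zero)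
  exact (hx s).ne (hs ▸ h.symm)

theorem cover_star {K : Set (Dav c)} (hK : IsCompact K) :
    ∃ t : Finset (RA c), ∀ x ∈ K, ∃ g ∈ t, g • x ∈ Star c := by
  obtain ⟨t, ht⟩ := hK.elim_finite_subcover (fun g : RA c => (g • ·) ⁻¹' Star c)
    (fun g => isOpen_star.preimage (continuous_const_smul g)) fun x _ =>
      mem_iUnion.2 (exists_star x)
  exact ⟨t, fun x hx => by simpa using ht hx⟩

instance : ProperlyDiscontinuousSMul (RA c) (Dav c) := ⟨fun {K L} hK hL => by
  obtain ⟨t, ht⟩ := cover_star hK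
  obtain ⟨t', ht'⟩ := cover_star hL
  refine ((t'.finite_toSet.prod (finite_star.prod t.finite_toSet)).image
    fun z => z.1⁻¹ * z.2.1 * z.2.2).subset ?_
  rintro g ⟨_, ⟨x, hx, rfl⟩, hx'⟩
  obtain ⟨a, ha, h1⟩ := ht x hx
  obtain ⟨a', ha', h2⟩ := ht' _ hx'
  refine ⟨(a', a' * g * a⁻¹, a), ⟨ha', ⟨_, ⟨_, h1, rfl⟩, ?_⟩, ha⟩, by group⟩
  simpa only [mul_smul, inv_smul_smul] using h2⟩

variable (hc : ∀ s t, c s t → c t s)

/-- The coordinates in the star. -/
def crd (x : Dav c) : Cone c :=
  ⟨fun s => x.y (gen c s), fun _ => (x.bd _).1, fun s t h h1 h2 =>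
    (Star.comm h h1 h2).elim id (hc t s)⟩

theorem pt_crd {x : Dav c} (hx : x ∈ Star c) : pt (crd hc x) = x := Dav.ext (funext fun r => by
  by_cases h : ∃ s, gen c s = r
  · obtain ⟨s, rfl⟩ := h
    exact (pt_gen _ s).trans (min_eq_left (x.bd _).2)
  · have h1 : x.y r = 0 := by_contra fun h1 => h (Star.supp hx h1)
    rw [h1]
    exact Function.extend_apply' (fun s => min ((crd hc x).1 s) 1) (0 : RA c → ℝ) _ h)

/-- The chart on the open star. -/
noncomputable def starChart : OpenPartialHomeomorph (Dav c) (Cone c) where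
  toFun := crd hc
  invFun := pt
  source := Star c
  target := {z | ∀ s, z.1 s < 1}
  map_source' _ hx := hx
  map_target' z hz s := (pt_gen z s).trans_lt (min_lt_of_left_lt (hz s))
  left_inv' _ := pt_crd hc
  right_inv' z hz := Subtype.ext (funext fun s => (pt_gen z s).trans (min_eq_left (hz s).le))
  open_source := isOpen_star
  open_target := by
    rw [ofPred_forall]
    exact isOpen_iInter_of_finite fun s => isOpen_lt (cone_cont s) continuous_const
  continuousOn_toFun := ((continuous_pi fun _ => Dav.cont _).subtype_mk _).continuousOn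
  continuousOn_invFun := pt_cont.continuousOn

/-- The Davis complex is locally the cone on the nerve. -/
@[reducible] noncomputable def davChart : ChartedSpace (Cone c) (Dav c) where
  atlas := univ
  chartAt x := (Homeomorph.smul (exists_star x).choose).toOpenPartialHomeomorph.trans (starChart hc)
  mem_chart_source x := ⟨trivial, (exists_star x).choose_spec⟩
  chart_mem_atlas _ := trivial

omit [Finite S] in
theorem isClosed_cone : IsClosed (Cone c) := by
  have : Cone c = (⋂ s, {x | 0 ≤ x s}) ∩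
      ⋂ s, ⋂ t, ⋂ (_ : s ≠ t), ⋂ (_ : ¬ c s t), {x | x s * x t = 0} := by
    ext x
    simp only [Cone, mem_ofPred_eq, mem_inter_iff, mem_iInter, mul_eq_zero]
    grind
  rw [this]
  exact (isClosed_iInter fun s => isClosed_le (by fun_prop) (by fun_prop)).inter
    (isClosed_iInter fun s => isClosed_iInter fun t => isClosed_iInter fun _ =>
      isClosed_iInter fun _ => isClosed_eq (by fun_prop) (by fun_prop))

include hc in
theorem exists_compact : ∃ K : Set (Dav c), IsCompact K ∧ ∀ x, ∃ g : RA c, g • x ∈ K := by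
  have h1 : IsCompact {x : S → ℝ | x ∈ Cone c ∧ ∀ s, x s ≤ 1} :=
    (isCompact_univ_pi fun _ => isCompact_Icc (a := (0 : ℝ)) (b := 1)).of_isClosed_subset
      (isClosed_cone.inter (isClosed_Iic (a := (1 : S → ℝ)))) fun x hx s _ => ⟨hx.1.1 s, hx.2 s⟩
  refine ⟨_, (IsInducing.subtypeVal.isCompact_preimage' h1 fun x hx => ⟨⟨x, hx.1⟩, rfl⟩).image
    pt_cont, fun x => ?_⟩
  obtain ⟨g, hg⟩ := exists_star x
  exact ⟨g, crd hc (g • x), ⟨(crd hc _).2, fun s => (hg s).le⟩, pt_crd hc hg⟩

end Pool.Agent.MP_4f4d9f_gt.Cb
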