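import Pool.Agent.Mg.F4f4d9fr.Gf4fb5f

set_option linter.all false

/-! Moments of `c - A* A` are small: approximation along Følner sets. -/

open scoped Matrix
open Finset

namespace Pool.Agent.MP_4f4d9f_gt.Sg

namespace Mom

variable {G Q : Type} [Group G] [Group Q] {m : ℕ}

/-- The compression of a matrix over the group ring to finite subsets of the group. -/
def cp (Ψ Φ : Finset Q) (Z : Matrix (Fin m) (Fin m) (MonoidAlgebra ℤ Q)) :
    Matrix (Fin m × Ψ) (Fin m × Φ) ℤ :=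
  Matrix.of fun x y => (Z x.1 y.1).coeff (x.2.1 * y.2.1⁻¹)

theorem cp_apply (Ψ Φ : Finset Q) (Z : Matrix (Fin m) (Fin m) (MonoidAlgebra ℤ Q))
    (x : Fin m × Ψ) (y : Fin m × Φ) : cp Ψ Φ Z x y = (Z x.1 y.1).coeff (x.2.1 * y.2.1⁻¹) := rfl

theorem coeff_mul_eq (a b : MonoidAlgebra ℤ Q) (Θ : Finset Q) (q q' : Q)
    (h : ∀ g ∈ b.coeff.support, g * q ∈ Θ) :
    (a * b).coeff (q' * q⁻¹) = ∑ r ∈ Θ, a.coeff (q' * r⁻¹) * b.coeff (r * q⁻¹) := by
  have e : ∀ r, (b * MonoidAlgebra.single q 1).coeff r = b.coeff (r * q⁻¹) := fun r => by simp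
  have e1 : (a * b).coeff (q' * q⁻¹) = (a * (b * MonoidAlgebra.single q 1)).coeff q' := by
    rw [← mul_assoc]
    simp
  rw [e1, MonoidAlgebra.coeff_mul_apply_right, Finsupp.sum_of_support_subset _ (s := Θ)]
  · simp only [e]
  · intro r hr
    rw [Finsupp.mem_support_iff, e, ← Finsupp.mem_support_iff] at hr
    simpa using h _ hr
  · simp

theorem cp_mul (Ψ Θ Φ : Finset Q) (Z Z' : Matrix (Fin m) (Fin m) (MonoidAlgebra ℤ Q))
    (x : Fin m × Ψ) (y : Fin m × Φ) (h : ∀ l, ∀ g ∈ (Z' l y.1).coeff.support, g * y.2.1 ∈ Θ) :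
    cp Ψ Φ (Z * Z') x y = ∑ z : Fin m × Θ, cp Ψ Θ Z x z * cp Θ Φ Z' z y := by
  rw [cp_apply, Matrix.mul_apply, MonoidAlgebra.coeff_sum, Finsupp.finsetSum_apply,
    Fintype.sum_prod_type]
  refine sum_congr rfl fun l _ => ?_
  rw [coeff_mul_eq _ _ Θ _ _ (h l), ← sum_coe_sort]
  rfl

theorem cp_adj (Ψ Φ : Finset Q) (A : Matrix (Fin m) (Fin m) (MonoidAlgebra ℤ Q)) :
    cp Φ Ψ (adjM A) = (cp Ψ Φ A)ᵀ := by
  ext x y
  have := Finsupp.mapDomain_apply (inv_injective (G := Q)) (A y.1 x.1).coeff (y.2.1 * x.2.1⁻¹)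
  rw [mul_inv_rev, inv_inv] at this
  exact this

theorem cp_inj {Θ Φ : Finset Q} {A : Matrix (Fin m) (Fin m) (MonoidAlgebra ℤ Q)}
    (hΘ : ∀ l i, ∀ g ∈ (A l i).coeff.support, ∀ q ∈ Φ, g * q ∈ Θ)
    (hA : ∀ x, A *ᵥ x = 0 → x = 0) (v : Fin m × Φ → ℤ) (hv : cp Θ Φ A *ᵥ v = 0) : v = 0 := by
  classical
  have h0 := hA (fun i => ∑ q : Φ, MonoidAlgebra.single q.1 (v (i, q))) (by
    funext l
    refine MonoidAlgebra.coeff_injective (Finsupp.ext fun r => ?_)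
    have e : ((A *ᵥ fun i => ∑ q : Φ, MonoidAlgebra.single q.1 (v (i, q))) l).coeff r =
        ∑ y : Fin m × Φ, (A l y.1).coeff (r * y.2.1⁻¹) * v y := by
      simp only [Matrix.mulVec, dotProduct, mul_sum, MonoidAlgebra.coeff_sum,
        Finsupp.finsetSum_apply, MonoidAlgebra.coeff_mul_single_apply, Fintype.sum_prod_type]
    rw [e]
    by_cases hr : r ∈ Θ
    · exact congrFun hv (l, ⟨r, hr⟩)
    · refine sum_eq_zero fun y _ => ?_
      have : (A l y.1).coeff (r * y.2.1⁻¹) = 0 := by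
        by_contra h
        exact hr (by simpa using hΘ l y.1 _ (Finsupp.mem_support_iff.2 h) _ y.2.2)
      rw [this, zero_mul])
  funext y
  have h1 := congrArg (fun a : MonoidAlgebra ℤ Q => a.coeff y.2.1) (congrFun h0 y.1)
  simp only [MonoidAlgebra.coeff_sum, Finsupp.finsetSum_apply, MonoidAlgebra.coeff_single,
    Finsupp.single_apply, Subtype.coe_inj, sum_ite_eq', mem_univ, if_true] at h1
  exact h1

theorem posDef {I J : Type} [Fintype I] [Fintype J] (P : Matrix J I ℤ)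
    (h : ∀ v, P *ᵥ v = 0 → v = 0) : ((Pᵀ * P).map (Int.cast : ℤ → ℝ)).PosDef := by
  have h1 : Function.Injective P.mulVec := fun v w e => by
    rw [← sub_eq_zero]
    exact h _ (by rw [Matrix.mulVec_sub, e, sub_self])
  have h2 : Function.Injective (P.map (Int.cast : ℤ → ℝ)).mulVec := by
    rw [Matrix.mulVec_injective_iff] at h1 ⊢
    exact (linearIndependent_algebraMap_comp_iff (S := ℝ)).2 h1
  have h3 := Matrix.PosDef.conjTranspose_mul_self _ h2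
  have e : (Pᵀ * P).map (Int.cast : ℤ → ℝ) =
      (P.map (Int.cast : ℤ → ℝ))ᴴ * P.map (Int.cast : ℤ → ℝ) := by
    ext i j
    simp [Matrix.mul_apply]
  rwa [e]

theorem cp_posDef (Φ : Finset Q) {A : Matrix (Fin m) (Fin m) (MonoidAlgebra ℤ Q)}
    (hA : ∀ x, A *ᵥ x = 0 → x = 0) :
    ((cp Φ Φ (adjM A * A)).map (Int.cast : ℤ → ℝ)).PosDef := by
  classical
  obtain ⟨Θ, hΘ⟩ : ∃ Θ : Finset Q, ∀ l i, ∀ g ∈ (A l i).coeff.support, ∀ q ∈ Φ, g * q ∈ Θ :=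
    ⟨image₂ (· * ·) (univ.biUnion fun p : Fin m × Fin m => (A p.1 p.2).coeff.support) Φ,
      fun l i g hg q hq => mem_image₂_of_mem (mem_biUnion.2 ⟨(l, i), mem_univ _, hg⟩) hq⟩
  have e : cp Φ Φ (adjM A * A) = (cp Θ Φ A)ᵀ * cp Θ Φ A := by
    ext x y
    rw [cp_mul Φ Θ Φ _ _ x y fun l g hg => hΘ l _ g hg _ y.2.2, cp_adj, Matrix.mul_apply]
  rw [e]
  exact posDef _ (cp_inj hΘ hA)

/-- The `ℓ¹`-norm. -/
def l1 (a : MonoidAlgebra ℤ G) : ℤ := ∑ g ∈ a.coeff.support, |a.coeff g|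

omit [Group G] in
theorem l1_nonneg (a : MonoidAlgebra ℤ G) : 0 ≤ l1 a := sum_nonneg fun _ _ => abs_nonneg _

theorem l1_bound (φ : G →* Q) (a : MonoidAlgebra ℤ G) (Φ : Finset Q) (q' : Q) :
    ∑ q : Φ, |(MonoidAlgebra.mapDomainRingHom ℤ φ a).coeff (q' * q.1⁻¹)| ≤ l1 a := by
  classical
  have e : ∀ r, (MonoidAlgebra.mapDomainRingHom ℤ φ a).coeff r =
      ∑ g ∈ a.coeff.support, if φ g = r then a.coeff g else 0 := fun r => by
    change Finsupp.mapDomain φ a.coeff r = _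
    simp [Finsupp.mapDomain, Finsupp.sum, Finsupp.single_apply]
  simp only [e]
  refine (sum_le_sum fun q _ => abs_sum_le_sum_abs _ _).trans ?_
  rw [sum_comm]
  refine sum_le_sum fun g _ => ?_
  have e2 : ∀ q : Q, |if φ g = q' * q⁻¹ then a.coeff g else 0| =
      if (φ g)⁻¹ * q' = q then |a.coeff g| else 0 := fun q => by
    rw [apply_ite abs, abs_zero]
    refine if_congr ?_ rfl rfl
    rw [inv_mul_eq_iff_eq_mul, eq_mul_inv_iff_mul_eq, eq_comm]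
  simp only [e2]
  rw [sum_coe_sort Φ fun q => if (φ g)⁻¹ * q' = q then |a.coeff g| else 0, sum_ite_eq]
  split_ifs
  · exact le_rfl
  · exact abs_nonneg _

theorem l2sq_map (φ : G →* Q) (a : MonoidAlgebra ℤ G) (h : Set.InjOn φ a.coeff.support) :
    l2sq (MonoidAlgebra.mapDomainRingHom ℤ φ a) = l2sq a := by
  classical
  change (Finsupp.mapDomain φ a.coeff).sum _ = _
  rw [Finsupp.sum, Finsupp.mapDomain_support_of_injOn _ h, sum_image h]
  refine sum_congr rfl fun g hg => ?_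
  rw [Finsupp.mapDomain_apply' _ _ subset_rfl h hg]

theorem l2sq_le (a : MonoidAlgebra ℤ Q) (Φ : Finset Q) (q : Q)
    (h : ∀ g ∈ a.coeff.support, g * q ∈ Φ) :
    l2sq a ≤ ∑ r : Φ, ((a.coeff (r.1 * q⁻¹) : ℤ) : ℝ) ^ 2 := by
  classical
  rw [sum_coe_sort Φ fun r => ((a.coeff (r * q⁻¹) : ℤ) : ℝ) ^ 2]
  refine le_trans (le_of_eq ?_) (sum_le_sum_of_subset_of_nonneg
    (s := a.coeff.support.image (· * q)) (image_subset_iff.2 h) fun _ _ _ => sq_nonneg _)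
  rw [sum_image fun _ _ _ _ e => mul_right_cancel e]
  simp [l2sq, Finsupp.sum]

theorem adjM_map (φ : G →* Q) (A : Matrix (Fin m) (Fin m) (MonoidAlgebra ℤ G)) :
    adjM (A.map (MonoidAlgebra.mapDomainRingHom ℤ φ)) =
      (adjM A).map (MonoidAlgebra.mapDomainRingHom ℤ φ) := by
  refine Matrix.ext fun i j => MonoidAlgebra.coeff_injective ?_
  change Finsupp.mapDomain (·⁻¹) (Finsupp.mapDomain φ (A j i).coeff) =
    Finsupp.mapDomain φ (Finsupp.mapDomain (·⁻¹) (A j i).coeff)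
  rw [← Finsupp.mapDomain_comp, ← Finsupp.mapDomain_comp]
  congr 1
  funext g
  simp

theorem cp_one [DecidableEq Q] (Φ : Finset Q) :
    cp Φ Φ (1 : Matrix (Fin m) (Fin m) (MonoidAlgebra ℤ Q)) = 1 := by
  ext x y
  rw [cp_apply, Matrix.one_apply, Matrix.one_apply]
  by_cases h : x.1 = y.1
  · rw [if_pos h, MonoidAlgebra.one_def, MonoidAlgebra.coeff_single, Finsupp.single_apply]
    refine if_congr ?_ rfl rfl
    rw [eq_mul_inv_iff_mul_eq, one_mul, Prod.ext_iff, Subtype.coe_inj, eq_comm]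
    simp [h]
  · rw [if_neg h, if_neg fun e => h (congrArg Prod.fst e)]
    rfl

theorem cp_sub [DecidableEq Q] (Φ : Finset Q) (c : ℤ)
    (B : Matrix (Fin m) (Fin m) (MonoidAlgebra ℤ Q)) :
    cp Φ Φ (c • (1 : Matrix (Fin m) (Fin m) (MonoidAlgebra ℤ Q)) - B) =
      c • (1 : Matrix (Fin m × Φ) (Fin m × Φ) ℤ) - cp Φ Φ B := by
  rw [← cp_one]
  rfl

theorem cp_pow [DecidableEq Q] (Φ : Finset Q) (Y : Matrix (Fin m) (Fin m) (MonoidAlgebra ℤ Q))
    (y : Fin m × Φ) (n : ℕ)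
    (h : ∀ k ≤ n, ∀ l, ∀ g ∈ ((Y ^ k) l y.1).coeff.support, g * y.2.1 ∈ Φ) (x : Fin m × Φ) :
    (cp Φ Φ Y ^ n) x y = cp Φ Φ (Y ^ n) x y := by
  induction n generalizing x with
  | zero => rw [pow_zero, pow_zero, cp_one]
  | succ n ih =>
    rw [pow_succ', pow_succ', Matrix.mul_apply, cp_mul Φ Φ Φ _ _ x y (h n n.le_succ)]
    exact sum_congr rfl fun z _ => by rw [ih fun k hk => h k (hk.trans n.le_succ)]

theorem exists_good [DecidableEq Q] (hQ : Folner Q Q) (S : Finset Q) :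
    ∃ Φ : Finset Q, Φ.Nonempty ∧
      (Φ.card : ℝ) ≤ 2 * (univ.filter fun q : Φ => ∀ s ∈ S, s * q.1 ∈ Φ).card := by
  have hS : (0 : ℝ) < S.card + 1 := by positivity
  obtain ⟨Φ, hne, hΦ⟩ := hQ S (1 / (2 * (S.card + 1))) (by positivity)
  refine ⟨Φ, hne, ?_⟩
  have h1 : ∀ s ∈ S, ((Φ.filter fun q => s * q ∉ Φ).card : ℝ) ≤
      1 / (2 * (S.card + 1)) * Φ.card := fun s hs => by
    have := hΦ s hs
    rwa [← Set.ncard_coe_finset, coe_filter]
  have h2 : (Φ.filter fun q => ¬ ∀ s ∈ S, s * q ∈ Φ) ⊆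
      S.biUnion fun s => Φ.filter fun q => s * q ∉ Φ := fun q hq => by
    obtain ⟨a, b⟩ := mem_filter.1 hq
    push Not at b
    obtain ⟨s, hs, b⟩ := b
    exact mem_biUnion.2 ⟨s, hs, mem_filter.2 ⟨a, b⟩⟩
  have h3 : ((Φ.filter fun q => ¬ ∀ s ∈ S, s * q ∈ Φ).card : ℝ) ≤
      S.card * (1 / (2 * (S.card + 1)) * Φ.card) := by
    have a1 : ((Φ.filter fun q => ¬ ∀ s ∈ S, s * q ∈ Φ).card : ℝ) ≤
        ∑ s ∈ S, ((Φ.filter fun q => s * q ∉ Φ).card : ℝ) := by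
      exact_mod_cast (card_le_card h2).trans card_biUnion_le
    refine a1.trans ((sum_le_sum h1).trans ?_)
    rw [sum_const, nsmul_eq_mul]
  have h4 : (S.card : ℝ) * (1 / (2 * (S.card + 1)) * Φ.card) ≤ 1 / 2 * Φ.card := by
    rw [← mul_assoc]
    refine mul_le_mul_of_nonneg_right ?_ (Nat.cast_nonneg _)
    rw [mul_one_div, div_le_div_iff₀ (by positivity) (by positivity)]
    linarith
  have h5 : ((Φ.filter fun q => ∀ s ∈ S, s * q ∈ Φ).card : ℝ) +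
      (Φ.filter fun q => ¬ ∀ s ∈ S, s * q ∈ Φ).card = Φ.card := by
    exact_mod_cast card_filter_add_card_filter_not _
  have h6 : (univ.filter fun q : Φ => ∀ s ∈ S, s * q.1 ∈ Φ).card =
      (Φ.filter fun q => ∀ s ∈ S, s * q ∈ Φ).card := by
    rw [card_filter, card_filter, sum_coe_sort Φ fun q => if ∀ s ∈ S, s * q ∈ Φ then 1 else 0]
  rw [h6]
  linarith

theorem moment [DecidableEq Q] (hQ : Folner Q Q) (Y : Matrix (Fin m) (Fin m) (MonoidAlgebra ℤ Q))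
    (j : ℕ) {K : ℝ} (h : ∀ Φ : Finset Q, ∑ x, ∑ y, (((cp Φ Φ Y ^ j) y x : ℤ) : ℝ) ^ 2 ≤
      K * Fintype.card (Fin m × Φ)) : ∑ i, ∑ i', l2sq ((Y ^ j) i' i) ≤ 2 * m * K := by
  obtain ⟨Φ, hne, hΦ⟩ := exists_good hQ ((range (j + 1)).biUnion fun k =>
    univ.biUnion fun p : Fin m × Fin m => ((Y ^ k) p.1 p.2).coeff.support)
  set S := (range (j + 1)).biUnion fun k =>
    univ.biUnion fun p : Fin m × Fin m => ((Y ^ k) p.1 p.2).coeff.support with hS
  have hmem : ∀ k ≤ j, ∀ l i, ∀ g ∈ ((Y ^ k) l i).coeff.support, g ∈ S := fun k hk l i g hg =>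
    mem_biUnion.2 ⟨k, mem_range.2 (Nat.lt_succ_of_le hk), mem_biUnion.2 ⟨(l, i), mem_univ _, hg⟩⟩
  have hL : 0 ≤ ∑ i, ∑ i', l2sq ((Y ^ j) i' i) :=
    sum_nonneg fun _ _ => sum_nonneg fun _ _ => sum_nonneg fun _ _ => sq_nonneg _
  have h1 := h Φ
  rw [Fintype.sum_prod_type, sum_comm, Fintype.card_prod, Fintype.card_fin, Fintype.card_coe]
    at h1
  have h2 : ∀ q ∈ univ.filter fun q : Φ => ∀ s ∈ S, s * q.1 ∈ Φ, ∑ i, ∑ i', l2sq ((Y ^ j) i' i) ≤
      ∑ i, ∑ y, (((cp Φ Φ Y ^ j) y (i, q) : ℤ) : ℝ) ^ 2 := fun q hq => by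
    have hq' := (mem_filter.1 hq).2
    refine sum_le_sum fun i _ => ?_
    rw [Fintype.sum_prod_type]
    refine sum_le_sum fun i' _ => ?_
    refine (l2sq_le _ Φ q.1 fun g hg => hq' g (hmem j le_rfl i' i g hg)).trans (le_of_eq ?_)
    refine sum_congr rfl fun r _ => ?_
    rw [cp_pow Φ Y (i, q) j fun k hk l g hg => hq' g (hmem k hk l i g hg), cp_apply]
  have h3 := (sum_le_sum h2).trans ((sum_le_sum_of_subset_of_nonneg (subset_univ _)
    fun _ _ _ => sum_nonneg fun _ _ => sum_nonneg fun _ _ => sq_nonneg _).trans h1)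
  rw [sum_const, nsmul_eq_mul] at h3
  have h4 : (0 : ℝ) < Φ.card := by exact_mod_cast hne.card_pos
  have h5 := mul_le_mul_of_nonneg_right hΦ hL
  push_cast at h3
  refine le_of_mul_le_mul_left ?_ h4
  nlinarith

end Mom

open Mom in
theorem mom_stmt (h : DetStmt) : MomStmt := by
  classical
  intro G _ m A hA
  obtain ⟨c, hc⟩ : ∃ c : ℕ, (c : ℤ) = 1 + ∑ i', ∑ i, l1 ((adjM A * A) i' i) :=
    ⟨_, Int.toNat_of_nonneg (add_nonneg zero_le_one
      (sum_nonneg fun _ _ => sum_nonneg fun _ _ => l1_nonneg _))⟩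
  have hrow : ∀ i', ∑ i, l1 ((adjM A * A) i' i) + 1 ≤ c := fun i' => by
    have := single_le_sum (f := fun i' => ∑ i, l1 ((adjM A * A) i' i))
      (fun _ _ => sum_nonneg fun _ _ => l1_nonneg _) (mem_univ i')
    linarith
  have hc0 : 0 < c := by
    have : 0 ≤ ∑ i', ∑ i, l1 ((adjM A * A) i' i) :=
      sum_nonneg fun _ _ => sum_nonneg fun _ _ => l1_nonneg _
    omega
  refine ⟨c, hc0, fun δ hδ => ?_⟩
  obtain ⟨j, hj⟩ := h c hc0 (δ / (2 * m + 1)) (by positivity)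
  refine ⟨j, ?_⟩
  set Y := (c : ℤ) • (1 : Matrix (Fin m) (Fin m) (MonoidAlgebra ℤ G)) - adjM A * A with hY
  set S := univ.biUnion fun p : Fin m × Fin m => ((Y ^ j) p.1 p.2).coeff.support with hS
  obtain ⟨Q, _, φ, hQ, hφ, hinj⟩ := hA (image₂ (fun g g' => g⁻¹ * g') S S)
  set ψ := MonoidAlgebra.mapDomainRingHom ℤ φ with hψ
  have eB : adjM (A.map ψ) * A.map ψ = (adjM A * A).map ψ := by
    rw [adjM_map, Matrix.map_mul]
  have eY : ((c : ℤ) • (1 : Matrix (Fin m) (Fin m) (MonoidAlgebra ℤ Q)) -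
      adjM (A.map ψ) * A.map ψ) ^ j = (Y ^ j).map ψ := by
    rw [eB, ← RingHom.mapMatrix_apply, ← RingHom.mapMatrix_apply, map_pow, hY, map_sub, map_zsmul,
      map_one]
  have key := moment hQ ((c : ℤ) • (1 : Matrix (Fin m) (Fin m) (MonoidAlgebra ℤ Q)) -
      adjM (A.map ψ) * A.map ψ) j (K := δ / (2 * m + 1) * (c : ℝ) ^ (2 * j)) fun Φ => by
    rw [cp_sub]
    refine hj _ _ (cp_posDef Φ hinj) fun x => ?_
    rw [Fintype.sum_prod_type, eB]
    refine (sum_le_sum fun i _ => l1_bound φ ((adjM A * A) x.1 i) Φ x.2.1).trans ?_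
    linarith [hrow x.1]
  rw [eY] at key
  have e : ∀ i i', l2sq ((Y ^ j).map ψ i' i) = l2sq ((Y ^ j) i' i) := fun i i' => by
    refine l2sq_map φ _ fun g hg g' hg' e => ?_
    have m1 : g ∈ S := mem_biUnion.2 ⟨(i', i), mem_univ _, hg⟩
    have m2 : g' ∈ S := mem_biUnion.2 ⟨(i', i), mem_univ _, hg'⟩
    exact inv_mul_eq_one.1 (hφ _ (mem_image₂_of_mem m1 m2) (by rw [map_mul, map_inv, e]; simp))
  simp only [e] at key
  refine key.trans ?_
  rw [← mul_assoc]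
  refine mul_le_mul_of_nonneg_right ?_ (by positivity)
  rw [← mul_div_assoc, div_le_iff₀ (by positivity)]
  nlinarith

end Pool.Agent.MP_4f4d9f_gt.Sg
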