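import Pool.Agent.Mg.F4f4d9fr.Gf4fb5f

set_option linter.all false

section

/-! The Laurent expansion of the elements of the division closure. -/

namespace Pool.Agent.MP_4f4d9f_gt.Sg

namespace Expn

theorem up_ind {P : ℤ → Prop} {c b : ℤ} (hc : P c) (mono : ∀ i j, i ≤ j → P j → P i)
    (step : ∀ i, i < b → P i → P (i + 1)) : P b := by
  by_cases hb : b ≤ c
  · exact mono b c hb hc
  · have key : ∀ i, c ≤ i → i ≤ b → P i := by
      intro i hi
      induction i, hi using Int.leInduction with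
      | base => exact fun _ => hc
      | succ i _ ih => exact fun h => step i (by omega) (ih (by omega))
    exact key b (by omega) le_rfl

variable {G D : Type} [Group G] [DivisionRing D]

/-- Sums of monomials whose degrees satisfy `P`. -/
def SS (ι : G →* D) (H N : Subgroup G) (deg : G → ℤ) (P : ℤ → Prop) : AddSubgroup D :=
  AddSubgroup.closure {d | ∃ u ∈ dcl ι N, ∃ g ∈ H, P (deg g) ∧ d = u * ι g}

/-- Normalised denominators. -/
def UU (ι : G →* D) (H N : Subgroup G) (deg : G → ℤ) (s : D) : Prop :=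
  s - 1 ∈ SS ι H N deg (1 ≤ ·)

/-- Elements of order at least `a`. -/
def VV (ι : G →* D) (H N : Subgroup G) (deg : G → ℤ) (a : ℤ) (d : D) : Prop :=
  ∃ s, UU ι H N deg s ∧ s * d ∈ SS ι H N deg (a ≤ ·)

/-- `m` is the component of degree `a` of `d`. -/
def RR (ι : G →* D) (H N : Subgroup G) (deg : G → ℤ) (a : ℤ) (d m : D) : Prop :=
  m ∈ SS ι H N deg (· = a) ∧ ∃ y ∈ SS ι H N deg (· < a), VV ι H N deg (a + 1) (d - y - m)

variable {ι : G →* D} {H N : Subgroup G} {deg : G → ℤ} {t : G} {P Q R : ℤ → Prop}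

theorem S_gen {u : D} (hu : u ∈ dcl ι N) {g : G} (hg : g ∈ H) (hP : P (deg g)) :
    u * ι g ∈ SS ι H N deg P :=
  AddSubgroup.subset_closure ⟨u, hu, g, hg, hP, rfl⟩

theorem S_mono (hPQ : ∀ i, P i → Q i) {x : D} (hx : x ∈ SS ι H N deg P) :
    x ∈ SS ι H N deg Q := by
  refine AddSubgroup.closure_mono ?_ hx
  rintro _ ⟨u, hu, g, hg, hP, rfl⟩
  exact ⟨u, hu, g, hg, hPQ _ hP, rfl⟩

theorem S_poly {x : D} (hx : x ∈ SS ι H N deg P) : x ∈ poly ι H N := by
  refine AddSubgroup.closure_mono ?_ hx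
  rintro _ ⟨u, hu, g, hg, -, rfl⟩
  exact ⟨u, hu, g, hg, rfl⟩

theorem poly_S {x : D} (hx : x ∈ poly ι H N) : x ∈ SS ι H N deg fun _ => True := by
  refine AddSubgroup.closure_mono ?_ hx
  rintro _ ⟨u, hu, g, hg, rfl⟩
  exact ⟨u, hu, g, hg, trivial, rfl⟩

theorem S_mul (h : Grad ι H N deg t) (hR : ∀ i j, P i → Q j → R (i + j)) {x y : D}
    (hx : x ∈ SS ι H N deg P) (hy : y ∈ SS ι H N deg Q) : x * y ∈ SS ι H N deg R := by
  induction hx using AddSubgroup.closure_induction with
  | zero => rw [zero_mul]; exact zero_mem _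
  | add a b _ _ ha hb => rw [add_mul]; exact add_mem ha hb
  | neg a _ ha => rw [neg_mul]; exact neg_mem ha
  | mem a ha =>
    obtain ⟨u, hu, g, hg, hP, rfl⟩ := ha
    induction hy using AddSubgroup.closure_induction with
    | zero => rw [mul_zero]; exact zero_mem _
    | add a b _ _ ha hb => rw [mul_add]; exact add_mem ha hb
    | neg a _ ha => rw [mul_neg]; exact neg_mem ha
    | mem b hb =>
      obtain ⟨v, hv, k, hk, hQ, rfl⟩ := hb
      have e : u * ι g * (v * ι k) = u * (ι g * v * ι g⁻¹) * ι (g * k) := by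
        rw [map_mul, iota_inv]
        simp only [mul_assoc]
        rw [inv_mul_cancel_left₀ (iota_ne_zero ι g)]
      rw [e]
      exact S_gen (mul_mem hu (h.conj_dcl hg hv)) (mul_mem hg hk)
        (by rw [h.mul g hg k hk]; exact hR _ _ hP hQ)

theorem S_coef (h : Grad ι H N deg t) {u : D} (hu : u ∈ dcl ι N) :
    u ∈ SS ι H N deg (· = 0) := by
  have := S_gen (P := (· = 0)) (deg := deg) hu H.one_mem h.one
  rwa [map_one, mul_one] at this

theorem S_iota {g : G} (hg : g ∈ H) : ι g ∈ SS ι H N deg (· = deg g) := by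
  have := S_gen (P := (· = deg g)) (deg := deg) (one_mem (dcl ι N)) hg rfl
  rwa [one_mul] at this

theorem gen_eq (h : Grad ι H N deg t) {u : D} (hu : u ∈ dcl ι N) {g : G} (hg : g ∈ H) :
    ∃ v ∈ dcl ι N, u * ι g = v * ι (t ^ deg g) := by
  refine ⟨u * ι (g * (t ^ deg g)⁻¹), mul_mem hu (iota_mem
    (h.mul_inv_mem hg (zpow_mem h.tmem _) (h.zpow _).symm)), ?_⟩
  rw [mul_assoc, ← map_mul, inv_mul_cancel_right]

theorem S_rep (h : Grad ι H N deg t) {x : D} (hx : x ∈ SS ι H N deg P) :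
    ∃ c : ℤ →₀ D, (∀ i, c i ∈ dcl ι N) ∧ (∀ i, ¬ P i → c i = 0) ∧
      (c.sum fun i u => u * ι (t ^ i)) = x := by
  classical
  induction hx using AddSubgroup.closure_induction with
  | zero => exact ⟨0, fun _ => zero_mem _, fun _ _ => rfl, by simp⟩
  | add a b _ _ ha hb =>
    obtain ⟨c, h1, h2, rfl⟩ := ha
    obtain ⟨c', h1', h2', rfl⟩ := hb
    refine ⟨c + c', fun i => add_mem (h1 i) (h1' i), fun i hi => by simp [h2 i hi, h2' i hi], ?_⟩
    exact Finsupp.sum_add_index' (fun _ => zero_mul _) fun _ _ _ => add_mul _ _ _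
  | neg a _ ha =>
    obtain ⟨c, h1, h2, rfl⟩ := ha
    refine ⟨-c, fun i => neg_mem (h1 i), fun i hi => by simp [h2 i hi], ?_⟩
    rw [Finsupp.sum_neg_index fun _ => zero_mul _]
    simp [Finsupp.sum]
  | mem a ha =>
    obtain ⟨u, hu, g, hg, hP, rfl⟩ := ha
    obtain ⟨v, hv, e⟩ := gen_eq h hu hg
    refine ⟨Finsupp.single (deg g) v, fun i => ?_, fun i hi => ?_, ?_⟩
    · rw [Finsupp.single_apply]
      split_ifs
      exacts [hv, zero_mem _]
    · rw [Finsupp.single_apply, if_neg]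
      rintro rfl
      exact hi hP
    · rw [Finsupp.sum_single_index (zero_mul _), e]

theorem S_disj (h : Grad ι H N deg t) (hPQ : ∀ i, P i → ¬ Q i) {x : D}
    (hx : x ∈ SS ι H N deg P) (hx' : x ∈ SS ι H N deg Q) : x = 0 := by
  obtain ⟨c, h1, h2, e⟩ := S_rep h hx
  obtain ⟨c', h1', h2', e'⟩ := S_rep h hx'
  have h0 : c - c' = 0 := by
    refine h.ind _ (fun i => sub_mem (h1 i) (h1' i)) ?_
    rw [Finsupp.sum_sub_index fun _ _ _ => sub_mul _ _ _, e, e', sub_self]
  have hc : c = 0 := by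
    ext i
    by_cases hi : P i
    · rw [sub_eq_zero.1 h0]
      exact h2' i (hPQ i hi)
    · exact h2 i hi
  rw [← e, hc, Finsupp.sum_zero_index]

theorem S_split (hP : ∀ i, P i → Q i ∨ R i) {x : D} (hx : x ∈ SS ι H N deg P) :
    ∃ y ∈ SS ι H N deg Q, ∃ z ∈ SS ι H N deg R, x = y + z := by
  induction hx using AddSubgroup.closure_induction with
  | zero => exact ⟨0, zero_mem _, 0, zero_mem _, by simp⟩
  | add a b _ _ ha hb =>
    obtain ⟨y, hy, z, hz, rfl⟩ := ha
    obtain ⟨y', hy', z', hz', rfl⟩ := hb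
    exact ⟨y + y', add_mem hy hy', z + z', add_mem hz hz', by abel⟩
  | neg a _ ha =>
    obtain ⟨y, hy, z, hz, rfl⟩ := ha
    exact ⟨-y, neg_mem hy, -z, neg_mem hz, by abel⟩
  | mem a ha =>
    obtain ⟨u, hu, g, hg, h1, rfl⟩ := ha
    rcases hP _ h1 with h2 | h2
    · exact ⟨_, S_gen hu hg h2, 0, zero_mem _, by simp⟩
    · exact ⟨0, zero_mem _, _, S_gen hu hg h2, by simp⟩

theorem S_bdd {x : D} (hx : x ∈ SS ι H N deg P) :
    ∃ b c, x ∈ SS ι H N deg fun i => b ≤ i ∧ i < c := by
  induction hx using AddSubgroup.closure_induction with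
  | zero => exact ⟨0, 0, zero_mem _⟩
  | add a b _ _ ha hb =>
    obtain ⟨b1, c1, h1⟩ := ha
    obtain ⟨b2, c2, h2⟩ := hb
    exact ⟨min b1 b2, max c1 c2, add_mem (S_mono (fun i hi => by omega) h1)
      (S_mono (fun i hi => by omega) h2)⟩
  | neg a _ ha =>
    obtain ⟨b, c, h1⟩ := ha
    exact ⟨b, c, neg_mem h1⟩
  | mem a ha =>
    obtain ⟨u, hu, g, hg, -, rfl⟩ := ha
    exact ⟨deg g, deg g + 1, S_gen hu hg ⟨le_rfl, by omega⟩⟩

theorem S_inv (h : Grad ι H N deg t) {a : ℤ} {x : D} (hx : x ∈ SS ι H N deg (· = a)) :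
    x⁻¹ ∈ SS ι H N deg (· = -a) := by
  have key : ∃ v ∈ dcl ι N, x = v * ι (t ^ a) := by
    induction hx using AddSubgroup.closure_induction with
    | zero => exact ⟨0, zero_mem _, by simp⟩
    | add a b _ _ ha hb =>
      obtain ⟨v, hv, rfl⟩ := ha
      obtain ⟨v', hv', rfl⟩ := hb
      exact ⟨v + v', add_mem hv hv', (add_mul _ _ _).symm⟩
    | neg a _ ha =>
      obtain ⟨v, hv, rfl⟩ := ha
      exact ⟨-v, neg_mem hv, (neg_mul _ _).symm⟩
    | mem a ha =>
      obtain ⟨u, hu, g, hg, rfl, rfl⟩ := ha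
      exact gen_eq h hu hg
  obtain ⟨v, hv, rfl⟩ := key
  rw [mul_inv_rev, ← iota_inv]
  refine S_mul h (fun i j hi hj => ?_) (S_iota (inv_mem (zpow_mem h.tmem a)))
    (S_coef h (inv_mem hv))
  rw [h.inv (zpow_mem h.tmem a), h.zpow] at hi
  omega

theorem U_one : UU ι H N deg 1 := by
  unfold UU
  rw [sub_self]
  exact zero_mem _

theorem U_S (h : Grad ι H N deg t) {s : D} (hs : UU ι H N deg s) :
    s ∈ SS ι H N deg (0 ≤ ·) := by
  have := add_mem (S_mono (Q := (0 ≤ ·)) (fun i hi => by omega) hs)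
    (S_mono (fun i hi => by omega) (S_coef h (one_mem _)))
  rwa [sub_add_cancel] at this

theorem U_ne (h : Grad ι H N deg t) {s : D} (hs : UU ι H N deg s) : s ≠ 0 := by
  rintro rfl
  unfold UU at hs
  rw [zero_sub, neg_mem_iff] at hs
  exact one_ne_zero (S_disj h (fun i hi => by omega) hs (S_coef h (one_mem _)))

theorem U_mul (h : Grad ι H N deg t) {s s' : D} (hs : UU ι H N deg s) (hs' : UU ι H N deg s') :
    UU ι H N deg (s * s') := by
  have e : s * s' - 1 = s * (s' - 1) + (s - 1) := by noncomm_ring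
  unfold UU
  rw [e]
  exact add_mem (S_mul h (fun i j hi hj => by omega) (U_S h hs) hs') hs

theorem low_right (h : Grad ι H N deg t) {s y : D} (hs : UU ι H N deg s)
    (hy : y ∈ SS ι H N deg P) {b : ℤ} (hb : y * s ∈ SS ι H N deg (b ≤ ·)) :
    y ∈ SS ι H N deg (b ≤ ·) := by
  obtain ⟨c, c', hc⟩ := S_bdd hy
  refine up_ind (P := fun b => y ∈ SS ι H N deg (b ≤ ·)) (S_mono (fun i hi => hi.1) hc)
    (fun i j hij hj => S_mono (fun k hk => by omega) hj) fun i hi h1 => ?_
  have e : y = y * s - y * (s - 1) := by noncomm_ring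
  rw [e]
  exact sub_mem (S_mono (fun k hk => by omega) hb) (S_mul h (fun i j hi hj => by omega) h1 hs)

theorem low_left (h : Grad ι H N deg t) {s y : D} (hs : UU ι H N deg s)
    (hy : y ∈ SS ι H N deg P) {b : ℤ} (hb : s * y ∈ SS ι H N deg (b ≤ ·)) :
    y ∈ SS ι H N deg (b ≤ ·) := by
  obtain ⟨c, c', hc⟩ := S_bdd hy
  refine up_ind (P := fun b => y ∈ SS ι H N deg (b ≤ ·)) (S_mono (fun i hi => hi.1) hc)
    (fun i j hij hj => S_mono (fun k hk => by omega) hj) fun i hi h1 => ?_
  have e : y = s * y - (s - 1) * y := by noncomm_ring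
  rw [e]
  exact sub_mem (S_mono (fun k hk => by omega) hb) (S_mul h (fun i j hi hj => by omega) hs h1)

theorem normal (h : Grad ι H N deg t) {s : D} (hs : s ∈ SS ι H N deg P) (h0 : s ≠ 0) :
    ∃ w ∈ SS ι H N deg fun _ => True, UU ι H N deg (w * s) := by
  by_contra hne
  obtain ⟨b, c, hc⟩ := S_bdd hs
  have key : s ∈ SS ι H N deg (c ≤ ·) := by
    refine up_ind (P := fun b => s ∈ SS ι H N deg (b ≤ ·)) (S_mono (fun i hi => hi.1) hc)
      (fun i j hij hj => S_mono (fun k hk => by omega) hj) fun i _ h1 => ?_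
    obtain ⟨m, hm, r, hr, e⟩ := S_split (Q := (· = i)) (R := (i + 1 ≤ ·))
      (fun k hk => by omega) h1
    by_cases hm0 : m = 0
    · rwa [e, hm0, zero_add]
    · refine absurd ⟨m⁻¹, S_mono (fun _ _ => trivial) (S_inv h hm), ?_⟩ hne
      unfold UU
      rw [e, mul_add, inv_mul_cancel₀ hm0, add_sub_cancel_left]
      exact S_mul h (fun i j hi hj => by omega) (S_inv h hm) hr
  exact h0 (S_disj h (fun i hi => by omega) hc key)

theorem ore_S (h : Grad ι H N deg t) (O : OreD ι H N) {s y : D} (hs : UU ι H N deg s) {b : ℤ}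
    (hy : y ∈ SS ι H N deg (b ≤ ·)) :
    ∃ s', UU ι H N deg s' ∧ ∃ y' ∈ SS ι H N deg (b ≤ ·), s' * y = y' * s := by
  obtain ⟨s0, h1, x, h2, h3, e⟩ := O.ore y (S_poly hy) s (S_poly (U_S h hs)) (U_ne h hs)
  obtain ⟨w, hw, hU⟩ := normal h (poly_S (deg := deg) h1) h3
  have e' : w * s0 * y = w * x * s := by rw [mul_assoc, e, mul_assoc]
  refine ⟨w * s0, hU, w * x, low_right h hs
    (S_mul (R := fun _ => True) h (fun _ _ _ _ => trivial) hw (poly_S h2)) ?_, e'⟩
  rw [← e']
  exact S_mul h (fun i j hi hj => by omega) (U_S h hU) hy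

theorem ore_U (h : Grad ι H N deg t) (O : OreD ι H N) {s y : D} (hs : UU ι H N deg s)
    (hy : UU ι H N deg y) : ∃ s' y', UU ι H N deg s' ∧ UU ι H N deg y' ∧ s' * y = y' * s := by
  obtain ⟨s', h1, y', h2, e⟩ := ore_S h O hs (U_S h hy)
  refine ⟨s', y', h1, low_right (P := (0 ≤ ·)) h hs (sub_mem h2 (U_S h U_one)) ?_, e⟩
  have e' : (y' - 1) * s = (s' * y - 1) - (s - 1) := by rw [e]; noncomm_ring
  rw [e']
  exact sub_mem (U_mul h h1 hy) hs

theorem V_of_S {a : ℤ} {x : D} (hx : x ∈ SS ι H N deg P) (hP : ∀ i, P i → a ≤ i) :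
    VV ι H N deg a x :=
  ⟨1, U_one, by rw [one_mul]; exact S_mono hP hx⟩

theorem V_zero (a : ℤ) : VV ι H N deg a 0 := ⟨1, U_one, by rw [one_mul]; exact zero_mem _⟩

theorem V_mono {a b : ℤ} (hab : a ≤ b) {d : D} (hd : VV ι H N deg b d) : VV ι H N deg a d := by
  obtain ⟨s, hs, h1⟩ := hd
  exact ⟨s, hs, S_mono (fun i hi => by omega) h1⟩

theorem V_neg {a : ℤ} {d : D} (hd : VV ι H N deg a d) : VV ι H N deg a (-d) := by
  obtain ⟨s, hs, h1⟩ := hd
  exact ⟨s, hs, by rw [mul_neg]; exact neg_mem h1⟩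

theorem V_add (h : Grad ι H N deg t) (O : OreD ι H N) {a : ℤ} {d e : D}
    (hd : VV ι H N deg a d) (he : VV ι H N deg a e) : VV ι H N deg a (d + e) := by
  obtain ⟨s, hs, h1⟩ := hd
  obtain ⟨s', hs', h2⟩ := he
  obtain ⟨r, r', hr, hr', e'⟩ := ore_U h O hs' hs
  refine ⟨r * s, U_mul h hr hs, ?_⟩
  rw [mul_add, mul_assoc, e', mul_assoc]
  exact add_mem (S_mul h (fun i j hi hj => by omega) (U_S h hr) h1)
    (S_mul h (fun i j hi hj => by omega) (U_S h hr') h2)

theorem V_sub (h : Grad ι H N deg t) (O : OreD ι H N) {a : ℤ} {d e : D}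
    (hd : VV ι H N deg a d) (he : VV ι H N deg a e) : VV ι H N deg a (d - e) := by
  rw [sub_eq_add_neg]
  exact V_add h O hd (V_neg he)

theorem V_mul (h : Grad ι H N deg t) (O : OreD ι H N) {a b : ℤ} {d e : D}
    (hd : VV ι H N deg a d) (he : VV ι H N deg b e) : VV ι H N deg (a + b) (d * e) := by
  obtain ⟨s, hs, h1⟩ := hd
  obtain ⟨s', hs', h2⟩ := he
  obtain ⟨r, hr, x, hx, e'⟩ := ore_S h O hs' h1
  refine ⟨r * s, U_mul h hr hs, ?_⟩
  rw [← mul_assoc, mul_assoc r, e', mul_assoc]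
  exact S_mul h (fun i j hi hj => by omega) hx h2

theorem V_disj (h : Grad ι H N deg t) {a : ℤ} {y : D} (hy : y ∈ SS ι H N deg (· < a))
    (hV : VV ι H N deg a y) : y = 0 := by
  obtain ⟨s, hs, h1⟩ := hV
  exact S_disj h (fun i hi => by omega) hy (low_left h hs hy h1)

theorem V_ex (h : Grad ι H N deg t) (O : OreD ι H N) {d : D} (hd : d ∈ dcl ι H) :
    ∃ b, VV ι H N deg b d := by
  obtain ⟨s, h1, h2, h3⟩ := O.den {d} (by simpa using hd)
  obtain ⟨w, hw, hU⟩ := normal h (poly_S (deg := deg) h1) h2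
  obtain ⟨b, c, hb⟩ := S_bdd (S_mul (R := fun _ => True) h (fun _ _ _ _ => trivial) hw
    (poly_S (h3 d (Finset.mem_singleton_self d))))
  exact ⟨b, w * s, hU, by rw [mul_assoc]; exact S_mono (fun i hi => hi.1) hb⟩

theorem V_all (h : Grad ι H N deg t) (O : OreD ι H N) {d : D} (hd : ∀ a, VV ι H N deg a d) :
    d = 0 := by
  obtain ⟨s, hs, h1⟩ := hd 0
  obtain ⟨b, c, hb⟩ := S_bdd h1
  have h2 := V_mul h O (V_of_S (U_S h hs) fun _ hi => hi) (hd c)
  rw [zero_add] at h2
  exact (mul_eq_zero.1 (V_disj h (S_mono (fun i hi => hi.2) hb) h2)).resolve_left (U_ne h hs)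

theorem V_step (h : Grad ι H N deg t) {a : ℤ} {d : D} (hd : VV ι H N deg a d) :
    ∃ m ∈ SS ι H N deg (· = a), VV ι H N deg (a + 1) (d - m) := by
  obtain ⟨s, hs, h1⟩ := hd
  obtain ⟨m, hm, r, hr, e⟩ := S_split (Q := (· = a)) (R := (a + 1 ≤ ·))
    (fun k hk => by omega) h1
  refine ⟨m, hm, s, hs, ?_⟩
  have e' : s * (d - m) = r - (s - 1) * m := by rw [mul_sub, e]; noncomm_ring
  rw [e']
  exact sub_mem hr (S_mul h (fun i j hi hj => by omega) hs hm)

theorem R_ex (h : Grad ι H N deg t) (O : OreD ι H N) {d : D} (hd : d ∈ dcl ι H) (a : ℤ) :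
    ∃ m, RR ι H N deg a d m := by
  obtain ⟨b, hb⟩ := V_ex h O hd
  have key : ∃ y ∈ SS ι H N deg (· < a), VV ι H N deg a (d - y) := by
    refine up_ind (P := fun c => ∃ y ∈ SS ι H N deg (· < a), VV ι H N deg c (d - y))
      ⟨0, zero_mem _, by rwa [sub_zero]⟩ (fun i j hij ⟨y, h1, h2⟩ => ⟨y, h1, V_mono hij h2⟩)
      fun i hi ⟨y, h1, h2⟩ => ?_
    obtain ⟨m, hm, h3⟩ := V_step h h2
    exact ⟨y + m, add_mem h1 (S_mono (fun k hk => by omega) hm), by rwa [← sub_sub]⟩
  obtain ⟨y, h1, h2⟩ := key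
  obtain ⟨m, hm, h3⟩ := V_step h h2
  exact ⟨m, hm, y, h1, h3⟩

theorem R_uniq (h : Grad ι H N deg t) (O : OreD ι H N) {a : ℤ} {d m m' : D}
    (h1 : RR ι H N deg a d m) (h2 : RR ι H N deg a d m') : m = m' := by
  obtain ⟨hm, y, hy, hV⟩ := h1
  obtain ⟨hm', y', hy', hV'⟩ := h2
  have h3 := V_sub h O hV' hV
  have e : d - y' - m' - (d - y - m) = (y - y') + (m - m') := by abel
  rw [e] at h3
  have h4 := V_disj h (add_mem (S_mono (fun i hi => by omega) (sub_mem hy hy'))
    (S_mono (fun i hi => by omega) (sub_mem hm hm'))) h3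
  have h5 : m - m' ∈ SS ι H N deg (· < a) := by
    rw [eq_neg_of_add_eq_zero_right h4]
    exact neg_mem (sub_mem hy hy')
  exact sub_eq_zero.1 (S_disj h (fun i hi => by omega) (sub_mem hm hm') h5)

theorem exists_pr (F : Subfield D) : ∃ pr : D →+ D, (∀ d, pr d ∈ F) ∧ (∀ d ∈ F, pr d = d) ∧
    ∀ d, ∀ e ∈ F, pr (d * e) = pr d * e := by
  let F' : Subfield Dᵐᵒᵖ :=
    { carrier := {x | x.unop ∈ F}
      mul_mem' := fun ha hb => mul_mem (S := Subfield D) hb ha
      one_mem' := one_mem F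
      add_mem' := fun ha hb => add_mem (S := Subfield D) ha hb
      zero_mem' := zero_mem F
      neg_mem' := fun ha => neg_mem (S := Subfield D) ha
      inv_mem' := fun _ ha => inv_mem (S := Subfield D) ha }
  let W : Submodule F' D :=
    { carrier := F
      add_mem' := fun ha hb => add_mem (S := Subfield D) ha hb
      zero_mem' := zero_mem F
      smul_mem' := fun c _ ha => mul_mem (S := Subfield D) ha c.2 }
  obtain ⟨g, hg⟩ := LinearMap.exists_leftInverse_of_injective W.subtype W.ker_subtype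
  refine ⟨(W.subtype ∘ₗ g).toAddMonoidHom, fun d => (g d).2, fun d hd => ?_, fun d e he => ?_⟩
  · exact congrArg Subtype.val (LinearMap.congr_fun hg ⟨d, hd⟩)
  · exact (W.subtype ∘ₗ g).map_smul (⟨MulOpposite.op e, he⟩ : F') d

end Expn

open Expn in
theorem expn_stmt : ExpnStmt := by
  intro G D _ _ ι H N deg t h O
  obtain ⟨pr, hF, hid, hmul⟩ := exists_pr (dcl ι H)
  choose q hq using fun a d => R_ex h O (hF d) a
  have hadd : ∀ a d e, q a (d + e) = q a d + q a e := by
    intro a d e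
    obtain ⟨hm, y, hy, hV⟩ := hq a d
    obtain ⟨hm', y', hy', hV'⟩ := hq a e
    refine R_uniq h O (hq a (d + e)) ⟨add_mem hm hm', y + y', add_mem hy hy', ?_⟩
    have e' : pr (d + e) - (y + y') - (q a d + q a e) =
        (pr d - y - q a d) + (pr e - y' - q a e) := by rw [map_add]; abel
    rw [e']
    exact V_add h O hV hV'
  have hlow : ∀ d a b, VV ι H N deg b (pr d) → a < b → q a d = 0 := fun d a b hb hab =>
    R_uniq h O (hq a d) ⟨zero_mem _, 0, zero_mem _, by
      rw [sub_zero, sub_zero]; exact V_mono (by omega) hb⟩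
  have hV : ∀ d ∈ dcl ι H, ∀ a, (∀ i < a, q i d = 0) → VV ι H N deg a d := by
    intro d hd a ha
    obtain ⟨b, hb⟩ := V_ex h O hd
    refine up_ind (P := fun c => VV ι H N deg c d) hb (fun i j hij hj => V_mono hij hj)
      fun i hi h1 => ?_
    obtain ⟨-, y, hy, h2⟩ := hq i d
    rw [ha i hi, sub_zero, hid d hd] at h2
    have h3 := V_sub h O h1 (V_mono (by omega) h2)
    rw [sub_sub_cancel] at h3
    rwa [V_disj h hy h3, sub_zero] at h2
  refine ⟨fun a => AddMonoidHom.mk' (q a) (hadd a), ?_, ?_, ?_, ?_, ?_, ?_⟩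
  · intro g hg a d
    obtain ⟨hm, y, hy, h1⟩ := hq (a - deg g) d
    refine R_uniq h O (hq a (d * ι g)) ⟨S_mul h (fun i j hi hj => by omega) hm (S_iota hg),
      y * ι g, S_mul h (fun i j hi hj => by omega) hy (S_iota hg), ?_⟩
    have h2 := V_mul h O h1 (V_of_S (a := deg g) (S_iota hg) fun i hi => by omega)
    rw [hmul d _ (iota_mem hg)]
    rw [sub_mul, sub_mul] at h2
    exact V_mono (by omega) h2
  · intro d
    obtain ⟨b, hb⟩ := V_ex h O (hF d)
    exact ⟨b, fun a ha => hlow d a b hb ha⟩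
  · intro u hu a
    have hu' := hid u (dcl_mono h.le hu)
    have h0 := S_coef h hu
    refine R_uniq h O (hq a u) ?_
    rw [hu']
    split_ifs with ha
    · subst ha
      exact ⟨h0, 0, zero_mem _, by rw [sub_zero, sub_self]; exact V_zero _⟩
    · by_cases ha' : a < 0
      · exact ⟨zero_mem _, 0, zero_mem _, by
          rw [sub_zero, sub_zero]; exact V_of_S h0 fun i hi => by omega⟩
      · exact ⟨zero_mem _, u, S_mono (fun i hi => by omega) h0, by
          rw [sub_zero, sub_self]; exact V_zero _⟩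
  · intro u hu g hg d hd a
    obtain ⟨hm, y, hy, h1⟩ := hq (a - deg g) d
    have hw : u * ι g ∈ SS ι H N deg (· = deg g) := S_gen hu hg rfl
    refine R_uniq h O (hq a (u * ι g * d)) ⟨S_mul h (fun i j hi hj => by omega) hw hm,
      u * ι g * y, S_mul h (fun i j hi hj => by omega) hw hy, ?_⟩
    have h2 := V_mul h O (V_of_S (a := deg g) hw fun i hi => by omega) h1
    rw [hid _ (mul_mem (mul_mem (dcl_mono h.le hu) (iota_mem hg)) hd)]
    rw [hid d hd, mul_sub, mul_sub] at h2
    exact V_mono (by omega) h2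
  · intro d hd e he a b ha hb i hi
    refine hlow (d * e) i (a + b) ?_ hi
    rw [hid _ (mul_mem hd he)]
    exact V_mul h O (hV d hd a ha) (hV e he b hb)
  · intro d hd h0
    exact V_all h O fun a => hV d hd a fun i _ => h0 i

end Pool.Agent.MP_4f4d9f_gt.Sg

end

section

/-! Injectivity of operators with small moments, and regularity of injective matrices. -/

open scoped InnerProductSpace Matrix

namespace Pool.Agent.MP_4f4d9f_gt.Sg

namespace OpInj

open FA
open ContinuousLinearMap (adjoint)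

variable {G E : Type} [Group G] [NormedAddCommGroup E] [InnerProductSpace ℂ E]
  {b : HilbertBasis G ℂ E} {I J : Type} [Fintype I] [Fintype J]

lemma zero_of_fr {T : HV E J →L[ℂ] HV E I} (h : EqO b T) (h0 : ∀ j, T (fr b J j) = 0) : T = 0 := by
  have h1 : ∀ j v, T (sgl j v) = 0 := by
    intro j v
    have : T ∘L sgl j = 0 := ContinuousLinearMap.ext_on
      (Submodule.dense_iff_topologicalClosure_eq_top.2 b.dense_span) (by
        rintro _ ⟨g, rfl⟩
        have h2 := h g⁻¹ (fr b J j)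
        rw [rep_fr, inv_inv, h0, map_zero] at h2
        exact h2)
    exact congrArg (fun S : E →L[ℂ] HV E I => S v) this
  ext1 ξ
  rw [← sum_sgl ξ, map_sum]
  simp [h1]

omit [Fintype I] in
lemma op_inj {M M' : Matrix I J (vnAlg b)} (h : op M = op M') : M = M' := by
  ext i j v
  rw [← op_sgl, h, op_sgl]

/-- Operators of square matrices as a ring homomorphism. -/
noncomputable def opR (b : HilbertBasis G ℂ E) (I : Type) [Fintype I] [DecidableEq I] :
    Matrix I I (vnAlg b) →+* (HV E I →L[ℂ] HV E I) where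
  toFun := op
  map_zero' := op_zero
  map_mul' := op_mul
  map_one' := by
    ext ξ i
    rw [op_apply, Finset.sum_eq_single i]
    · simp
    · intro j _ hj
      simp [Matrix.one_apply_ne hj.symm]
    · simp
  map_add' M M' := by
    ext ξ i
    simp [op_apply, Finset.sum_add_distrib]

variable [CompleteSpace E]

lemma gdim_zero {U : Submodule ℂ (HV E I)} (hU : Inv b U) (h : gdim (fr b I) U = 0) {ξ : HV E I}
    (hξ : ξ ∈ U) : ξ = 0 := by
  have h1 := zero_of_fr hU.proj fun i => by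
    have := (Finset.sum_eq_zero_iff_of_nonneg fun i _ => sq_nonneg _).1 h i (Finset.mem_univ i)
    simpa using this
  rw [← Submodule.starProjection_eq_self_iff.2 (Submodule.le_topologicalClosure U hξ), h1]
  rfl

lemma adj_inj {T : HV E I →L[ℂ] HV E I} (h : EqO b T) (hi : Function.Injective T) :
    Function.Injective (adjoint T) := by
  have h1 := rank_nullity (gframe b I) (gframe b I) T h
  have h2 := gdim_orthogonal (fr b I) T.range
  rw [ContinuousLinearMap.orthogonal_range] at h2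
  have h3 : gdim (fr b I) T.ker = 0 := Finset.sum_eq_zero fun i _ => by
    have h4 := Submodule.starProjection_apply_mem T.ker.topologicalClosure (fr b I i)
    have h5 : T.ker.topologicalClosure ≤ T.ker := (ker_closure T).le
    rw [hi ((h5 h4).trans (map_zero T).symm)]
    simp
  exact (injective_iff_map_eq_zero _).2 fun ξ hξ =>
    gdim_zero h.adj.inv_ker (by linarith) hξ

omit [CompleteSpace E] in
lemma mem_cent {T : HV E I →L[ℂ] HV E I} :
    T ∈ (Set.range (rep b I)).centralizer ↔ EqO b T := by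
  constructor
  · intro h g ξ
    exact (congrArg (fun S : HV E I →L[ℂ] HV E I => S ξ) (h _ ⟨g, rfl⟩)).symm
  · rintro h _ ⟨g, rfl⟩
    ext1 ξ
    exact (h g ξ).symm

lemma star_range : ∀ r ∈ Set.range (rep b I), star r ∈ Set.range (rep b I) := by
  rintro _ ⟨g, rfl⟩
  exact ⟨g⁻¹, (star_rep b g).symm⟩

lemma finCom : VNAbs.FinCom (Set.range (rep b I)) := by
  intro u hu h
  have h1 : Function.Injective u := fun ξ η e => by
    have h2 : ∀ ζ, (star u : HV E I →L[ℂ] HV E I) (u ζ) = ζ := fun ζ =>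
      congrArg (fun S : HV E I →L[ℂ] HV E I => S ζ) h
    rw [← h2 ξ, e, h2]
  refine VNAbs.cancel_left (r := star u) (adj_inj (mem_cent.1 hu) h1) ?_
  rw [← mul_assoc, h, one_mul, mul_one]

lemma reg_of {s : HV E I →L[ℂ] HV E I} (h1 : Function.Injective s) {S : Matrix I I (vnAlg b)}
    (hS : op S = star s * s) (k : I) : IsLeftRegular (S k k) := by
  have key : ∀ w, (S k k).1 w = 0 → w = 0 := by
    intro w h4
    have h5 := VNAbs.norm_sq_eq s (sgl k w)
    rw [← hS, inner_sgl, op_sgl, h4, inner_zero_right] at h5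
    have h6 : s (sgl k w) = 0 := by simpa using h5
    have h7 := norm_sgl k w
    rw [h1 (h6.trans (map_zero s).symm)] at h7
    simpa using h7.symm
  intro a a' e
  have e' : (S k k).1 * a.1 = (S k k).1 * a'.1 := congrArg Subtype.val e
  exact Subtype.ext (VNAbs.cancel_left ((injective_iff_map_eq_zero _).2 key) e')

lemma ore_op {Z B : HV E I →L[ℂ] HV E I} (hZ : EqO b Z) (hB : EqO b B)
    (hi : Function.Injective B) : ∃ s t : HV E I →L[ℂ] HV E I, Function.Injective s ∧
      EqO b (star s * s) ∧ EqO b t ∧ (star s * s) ∘L Z = t ∘L B := by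
  obtain ⟨s, t, hs, ht, h1, h2⟩ := VNAbs.ore (R := Set.range (rep b I)) star_range finCom
    (mem_cent.2 hZ) (mem_cent.2 hB) hi
  have hs' := VNAbs.star_mem (R := Set.range (rep b I)) star_range hs
  refine ⟨s, star s * t, h1, mem_cent.1 (Set.mul_mem_centralizer hs' hs),
    mem_cent.1 (Set.mul_mem_centralizer hs' ht), ?_⟩
  rw [← ContinuousLinearMap.mul_def, ← ContinuousLinearMap.mul_def, mul_assoc, h2, mul_assoc]

lemma ore_mat (Z B : Matrix I I (vnAlg b)) (hB : Function.Injective (op B)) :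
    ∃ S Y : Matrix I I (vnAlg b), S * Z = Y * B ∧ ∀ k, IsLeftRegular (S k k) := by
  obtain ⟨s, t, h1, hs, ht, h2⟩ := ore_op (eq_op Z) (eq_op B) hB
  obtain ⟨S, hS⟩ := exists_op hs
  obtain ⟨Y, hY⟩ := exists_op ht
  exact ⟨S, Y, op_inj (by rw [op_mul, op_mul, hS, hY, h2]), reg_of h1 hS⟩

lemma row_eq {N : Type} [Ring N] [DecidableEq I] {S Y B : Matrix I I N} {z : I → N} {k : I}
    (h : S * (Matrix.of fun i j => if i = k then z j else 0) = Y * B) : S k k • z = Y k ᵥ* B := by
  funext j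
  simpa [Matrix.mul_apply, Matrix.vecMul, dotProduct] using congrFun (congrFun h k) j

lemma reg_surj (B : Matrix I I (vnAlg b)) (hB : Function.Injective (op B))
    (z : I → vnAlg b) : ∃ (s : vnAlg b) (y : I → vnAlg b), IsLeftRegular s ∧ s • z = y ᵥ* B := by
  classical
  rcases isEmpty_or_nonempty I with hI | ⟨⟨k⟩⟩
  · exact ⟨1, 0, isRegular_one.left, Subsingleton.elim _ _⟩
  obtain ⟨S, Y, h1, h2⟩ := ore_mat (Matrix.of fun i j => if i = k then z j else 0) B hB
  exact ⟨S k k, Y k, h2 k, row_eq h1⟩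

lemma reg_inj (B : Matrix I I (vnAlg b)) (hB : Function.Injective (op B)) (y : I → vnAlg b)
    (h : y ᵥ* B = 0) : y = 0 := by
  let Y : Matrix I I (vnAlg b) := Matrix.of fun _ j => y j
  have h1 : Y * B = 0 := Matrix.ext fun _ j => congrFun h j
  have h2 : DenseRange (op B) := VNAbs.denseRange_of_star_injective (adj_inj (eq_op B) hB)
  have h3 : op Y = 0 := VNAbs.cancel_right h2 (by
    rw [zero_mul]
    change op Y ∘L op B = 0
    rw [← op_mul, h1, op_zero])
  exact funext fun j => congrFun (congrFun (eq_zero_of_op h3) j) j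

variable {ι : G →* vnAlg b} (hι : ∀ g h, (ι g).1 (b h) = b (g * h)) {K : Type} [Group K]
  {j : K →* G}

include hι

lemma adj_ev (a : MonoidAlgebra ℤ K) : adjoint (ev (ι.comp j) a).1 =
    (ev (ι.comp j) (MonoidAlgebra.mapDomain (·⁻¹) a)).1 := by
  induction a using MonoidAlgebra.induction_linear with
  | zero => simp
  | add x y hx hy => simp only [MonoidAlgebra.mapDomain_add, map_add, Subring.coe_add, hx, hy]
  | single g n =>
    have h1 : adjoint (ι (j g)).1 = (ι (j g)⁻¹).1 :=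
      adjoint_perm b (Equiv.mulLeft (j g)) (hι _) fun h => by rw [hι]; simp
    rw [MonoidAlgebra.mapDomain_single, ev_single, ev_single, AddSubgroupClass.coe_zsmul,
      AddSubgroupClass.coe_zsmul, map_zsmul, MonoidHom.comp_apply, MonoidHom.comp_apply, h1,
      map_inv j]

omit [CompleteSpace E] in
lemma norm_ev (hj : Function.Injective j) (a : MonoidAlgebra ℤ K) :
    ‖(ev (ι.comp j) a).1 (b 1)‖ ^ 2 = l2sq a := by
  have h1 : (ev (ι.comp j) a).1 (b 1) =
      ∑ g ∈ a.coeff.support, ((a.coeff g : ℤ) : ℂ) • (b ∘ j) g := by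
    have : ev (ι.comp j) a = a.coeff.sum fun g n => n • (ι.comp j) g :=
      MonoidAlgebra.lift_apply (ι.comp j) a
    rw [this, Finsupp.sum, AddSubmonoidClass.coe_finsetSum, sum_apply]
    refine Finset.sum_congr rfl fun g _ => ?_
    rw [AddSubgroupClass.coe_zsmul, smul_apply, MonoidHom.comp_apply, hι, mul_one,
      Int.cast_smul_eq_zsmul, Function.comp_apply]
  have h2 := (b.orthonormal.comp j hj).inner_sum (fun g => ((a.coeff g : ℤ) : ℂ))
    (fun g => ((a.coeff g : ℤ) : ℂ)) a.coeff.support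
  rw [← h1, inner_self_eq_norm_sq_to_K] at h2
  apply Complex.ofReal_injective
  rw [l2sq, Finsupp.sum]
  push_cast
  refine h2.trans (Finset.sum_congr rfl fun g _ => ?_)
  rw [map_intCast, sq]

lemma adj_op {m : ℕ} (A : Matrix (Fin m) (Fin m) (MonoidAlgebra ℤ K)) :
    star (op (A.map (ev (ι.comp j)))) = op ((adjM A).map (ev (ι.comp j))) := by
  ext ξ i
  rw [ContinuousLinearMap.star_eq_adjoint, adj_apply, op_apply]
  exact Finset.sum_congr rfl fun k _ => by rw [Matrix.map_apply, adj_ev hι]; rfl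

omit hι in
lemma proj_le {H : Type} [NormedAddCommGroup H] [InnerProductSpace ℂ H] [CompleteSpace H]
    (T : H →L[ℂ] H) {c : ℕ} (hc : 0 < c) (n : ℕ) (e : H) :
    ‖T.ker.topologicalClosure.starProjection e‖ ^ 2 * (c : ℝ) ^ (2 * n) ≤
      ‖(((c : ℤ) • (1 : H →L[ℂ] H) - star T * T) ^ n) e‖ ^ 2 := by
  set Y : H →L[ℂ] H := (c : ℤ) • (1 : H →L[ℂ] H) - star T * T with hY
  have h1 : star Y = Y := by simp [hY]
  set ξ := T.ker.topologicalClosure.starProjection e with hξ
  have h2 : T ξ = 0 := (ker_closure T).le (Submodule.starProjection_apply_mem _ e)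
  have h3 : Y ξ = (c : ℂ) • ξ := by
    rw [hY, sub_apply, mul_apply_eq_comp, h2, map_zero, sub_zero, smul_apply, one_apply_eq_self,
      ← Int.cast_smul_eq_zsmul ℂ, Int.cast_natCast]
  have h4 : ∀ k : ℕ, (Y ^ k) ξ = ((c : ℂ) ^ k) • ξ := by
    intro k
    induction k with
    | zero => simp
    | succ k ih => rw [pow_succ, mul_apply_eq_comp, h3, map_smul, ih, smul_smul, pow_succ']
  have h5 : ⟪ξ, (Y ^ n) e⟫_ℂ = (c : ℂ) ^ n * ⟪ξ, e⟫_ℂ := by
    rw [← ContinuousLinearMap.adjoint_inner_left, ← ContinuousLinearMap.star_eq_adjoint, star_pow,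
      h1, h4, inner_smul_left, map_pow, map_natCast]
  have hp : (0 : ℝ) < (c : ℝ) ^ n := by positivity
  have h6 : ‖ξ‖ ≤ ‖(Y ^ n) e‖ / (c : ℝ) ^ n := by
    refine norm_proj_le (by positivity) ?_
    have h7 := norm_inner_le_norm (𝕜 := ℂ) ξ ((Y ^ n) e)
    rw [h5, norm_mul, norm_pow, Complex.norm_natCast] at h7
    rw [div_mul_eq_mul_div, le_div_iff₀ hp]
    linarith
  rw [le_div_iff₀ hp] at h6
  rw [pow_mul', ← mul_pow]
  exact pow_le_pow_left₀ (by positivity) h6 2

end OpInj

open OpInj FA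

theorem opInj_stmt : OpInjStmt := by
  intro G E _ _ _ b ι hι K _ j hj m A ⟨c, hc, hA⟩
  have : CompleteSpace E := b.repr.toIsometryEquiv.completeSpace
  set T := op (A.map (ev (ι.comp j))) with hT
  have h1 : ∀ δ : ℝ, 0 < δ → gdim (fr b (Fin m)) T.ker ≤ δ := by
    intro δ hδ
    obtain ⟨n, hn⟩ := hA δ hδ
    refine le_of_mul_le_mul_right (le_trans ?_ hn) (by positivity)
    rw [gdim, Finset.sum_mul]
    refine Finset.sum_le_sum fun i _ => (proj_le T hc n _).trans (le_of_eq ?_)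
    have h2 : op ((((c : ℤ) • (1 : Matrix (Fin m) (Fin m) (MonoidAlgebra ℤ K)) -
        adjM A * A) ^ n).map (ev (ι.comp j))) =
        ((c : ℤ) • (1 : HV E (Fin m) →L[ℂ] HV E (Fin m)) - star T * T) ^ n := by
      change ((opR b (Fin m)).comp (ev (ι.comp j)).mapMatrix) _ = _
      rw [map_pow, map_sub, map_zsmul, map_one, map_mul, hT, adj_op hι]
      rfl
    rw [← h2, PiLp.norm_sq_eq_of_L2]
    refine Finset.sum_congr rfl fun k _ => ?_
    rw [fr, op_sgl, Matrix.map_apply, norm_ev hι hj]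
  refine (injective_iff_map_eq_zero _).2 fun ξ hξ => gdim_zero (eq_op _).inv_ker ?_ hξ
  exact le_antisymm (le_of_forall_pos_le_add fun δ hδ => by simpa using h1 δ hδ)
    (Finset.sum_nonneg fun i _ => sq_nonneg _)

theorem reg_stmt : RegStmt := by
  intro G E _ _ _ b m B hB
  have : CompleteSpace E := b.repr.toIsometryEquiv.completeSpace
  exact ⟨reg_surj B hB, reg_inj B hB⟩

end Pool.Agent.MP_4f4d9f_gt.Sg

end

section

/-! Comparison of ranks over a division ring and over a ring with regular elements. -/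

open scoped Matrix

namespace Pool.Agent.MP_4f4d9f_gt.Sg

namespace Rank

section Lin

variable {R D N : Type} [Ring R] [DivisionRing D] [Ring N]

/-- An independent family of images extends to a basis of images. -/
theorem extend (α : R →+* D) {I L : Type} [Fintype I] (x : L → I → R)
    (hx : LinearIndependent D fun l => α ∘ x l) :
    ∃ (L' : Type) (_ : Fintype L') (x' : L' → I → R),
      LinearIndependent D (fun t => α ∘ Sum.elim x x' t) ∧
      ⊤ ≤ Submodule.span D (Set.range fun t => α ∘ Sum.elim x x' t) := by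
  classical
  let v : L ⊕ (I → R) → I → D := fun t => α ∘ Sum.elim x id t
  have h0 : LinearIndepOn D v (Set.range Sum.inl) := by
    have e : (fun t : Set.range (Sum.inl : L → L ⊕ (I → R)) => v t) =
        (fun l => α ∘ x l) ∘ (Equiv.ofInjective _ Sum.inl_injective).symm := by
      funext t
      obtain ⟨_, l, rfl⟩ := t
      simp [v]
    unfold LinearIndepOn
    rw [e]
    exact hx.comp _ (Equiv.injective _)
  obtain ⟨b, -, hb1, hb2, hb3⟩ := exists_linearIndepOn_extension h0 (Set.subset_univ _)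
  let L' : Type := {y : I → R // Sum.inr y ∈ b}
  let φ : L ⊕ L' → b := Sum.elim (fun l => ⟨Sum.inl l, hb1 ⟨l, rfl⟩⟩) fun y => ⟨Sum.inr y.1, y.2⟩
  have hφ : Function.Injective φ := by
    rintro (l | y) (l' | y') h
    · simpa [φ] using h
    · simp [φ] at h
    · simp [φ] at h
    · have : y.1 = y'.1 := by simpa [φ] using h
      rw [Subtype.ext this]
  have e : (fun t => α ∘ Sum.elim x (Subtype.val : L' → I → R) t) = (fun t : b => v t) ∘ φ := by
    funext t
    rcases t with l | y <;> rfl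
  have hli : LinearIndependent D fun t => α ∘ Sum.elim x (Subtype.val : L' → I → R) t := by
    rw [e]
    exact LinearIndependent.comp hb3 _ hφ
  have hfin : Finite (L ⊕ L') := hli.finite_of_isNoetherian
  have hfin' : Finite L' := Finite.of_injective (Sum.inr : L' → L ⊕ L') Sum.inr_injective
  refine ⟨L', Fintype.ofFinite L', Subtype.val, hli, ?_⟩
  have h1 : v '' b ⊆ Set.range fun t => α ∘ Sum.elim x (Subtype.val : L' → I → R) t := by
    rintro _ ⟨t, ht, rfl⟩
    rcases t with l | y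
    · exact ⟨Sum.inl l, rfl⟩
    · exact ⟨Sum.inr ⟨y, ht⟩, rfl⟩
  rw [← (Pi.basisFun D I).span_eq, Submodule.span_le]
  rintro _ ⟨i, rfl⟩
  refine Submodule.span_mono h1 (hb2 ⟨Sum.inr (Pi.single i 1), trivial, ?_⟩)
  funext j
  by_cases h : j = i
  · subst h
    simp [v]
  · simp [v, h]

/-- A square matrix whose rows form a basis is invertible. -/
theorem isUnit_of_basis {m : ℕ} (A : Matrix (Fin m) (Fin m) D)
    (b : Module.Basis (Fin m) D (Fin m → D)) (hb : ∀ t, b t = A t) : IsUnit A := by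
  let C : Matrix (Fin m) (Fin m) D := fun i t => b.repr (Pi.single i 1) t
  refine ⟨⟨A, C, ?_, ?_⟩, rfl⟩
  · ext t t'
    have e : b t = ∑ i, A t i • (Pi.single i 1 : Fin m → D) := by
      rw [hb]
      funext j
      simp [Finset.sum_apply, Pi.single_apply]
    have e2 := congrArg (fun y => b.repr y t') e
    simp only [Module.Basis.repr_self, map_sum, map_smul, Finsupp.coe_finsetSum,
      Finset.sum_apply, Finsupp.smul_apply, smul_eq_mul] at e2
    rw [Matrix.mul_apply, ← e2, Matrix.one_apply, Finsupp.single_apply]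
  · ext i j
    have e := congrFun (b.sum_repr (Pi.single i 1)) j
    simp only [Finset.sum_apply, Pi.smul_apply, smul_eq_mul, hb] at e
    rw [Matrix.mul_apply, e, Matrix.one_apply, Pi.single_apply]
    simp [eq_comm]

variable {α : R →+* D} {β : R →+* N}

/-- A basis of images stays a basis up to regular elements. -/
theorem reg_of_basis
    (H : ∀ (m : ℕ) (B : Matrix (Fin m) (Fin m) R), IsUnit (B.map α) → MReg (B.map β))
    {I T : Type} [Fintype I] [Fintype T] (y : T → I → R)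
    (h1 : LinearIndependent D fun t => α ∘ y t)
    (h2 : ⊤ ≤ Submodule.span D (Set.range fun t => α ∘ y t)) :
    (∀ z : I → N, ∃ (s : N) (c : T → N), IsLeftRegular s ∧ s • z = ∑ t, c t • (β ∘ y t)) ∧
      ∀ c : T → N, ∑ t, c t • (β ∘ y t) = 0 → c = 0 := by
  let b0 : Module.Basis T D (I → D) := Module.Basis.mk h1 h2
  have hc : Fintype.card T = Fintype.card I := by
    rw [← Module.finrank_eq_card_basis b0, Module.finrank_fintype_fun_eq_card]
  let eI : I ≃ Fin (Fintype.card I) := Fintype.equivFin I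
  let eT : T ≃ Fin (Fintype.card I) := Fintype.equivFinOfCardEq hc
  let B : Matrix (Fin (Fintype.card I)) (Fin (Fintype.card I)) R :=
    Matrix.of fun t i => y (eT.symm t) (eI.symm i)
  have hB : MReg (B.map β) := by
    refine H _ B (isUnit_of_basis _
      ((b0.reindex eT).map (LinearEquiv.funCongrLeft D D eI.symm)) fun t => ?_)
    funext i
    simp [b0, B]
  have key : ∀ (c : Fin (Fintype.card I) → N) (i : I),
      (∑ t, c (eT t) • (β ∘ y t)) i = (c ᵥ* B.map β) (eI i) := by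
    intro c i
    rw [Finset.sum_apply, Matrix.vecMul, dotProduct, ← eT.sum_comp]
    simp [B]
  refine ⟨fun z => ?_, fun c hc => ?_⟩
  · obtain ⟨s, c, hs, hsc⟩ := hB.surj (z ∘ eI.symm)
    refine ⟨s, c ∘ eT, hs, funext fun i => ?_⟩
    have := congrFun hsc (eI i)
    rw [← key] at this
    simpa using this
  · have : (c ∘ eT.symm) ᵥ* B.map β = 0 := by
      funext i
      obtain ⟨i, rfl⟩ := eI.surjective i
      rw [← key]
      simpa using congrFun hc i
    funext t
    simpa using congrFun (hB.inj _ this) (eT t)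

/-- Independence of images passes from `D` to `N`. -/
theorem inj_of_indep
    (H : ∀ (m : ℕ) (B : Matrix (Fin m) (Fin m) R), IsUnit (B.map α) → MReg (B.map β))
    {J L : Type} [Fintype J] [Fintype L] (g : L → J → R)
    (h : LinearIndependent D fun l => α ∘ g l) (c : L → N)
    (hc : ∑ l, c l • (β ∘ g l) = 0) : c = 0 := by
  obtain ⟨L', _, x', h1, h2⟩ := extend α g h
  have := (reg_of_basis H (Sum.elim g x') h1 h2).2 (Sum.elim c 0) (by simpa using hc)
  funext l
  exact congrFun this (Sum.inl l)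

theorem map_vecMul {S : Type} [Ring S] (γ : R →+* S) {I J : Type} [Fintype I]
    (F : Matrix I J R) (x : I → R) : (γ ∘ x) ᵥ* F.map γ = γ ∘ (x ᵥ* F) := by
  funext j
  simp [Matrix.vecMul, dotProduct]

theorem sum_vecMul {S : Type} [Ring S] (γ : R →+* S) {I J T : Type} [Fintype I] [Fintype T]
    (F : Matrix I J R) (y : T → I → R) (c : T → S) :
    (∑ t, c t • (γ ∘ y t)) ᵥ* F.map γ = ∑ t, c t • (γ ∘ (y t ᵥ* F)) := by
  rw [← Matrix.vecMulLinear_apply, map_sum]
  simp only [map_smul, Matrix.vecMulLinear_apply, map_vecMul]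

end Lin

end Rank

open Rank in
theorem rank_stmt : RankStmt := by
  intro R D N _ _ _ α β H I J _ _ F hD z hz
  let v : (I → R) → I → D := fun x => α ∘ x
  obtain ⟨b, hb0, -, hb2, hb3⟩ := exists_linearIndepOn_extension
    (linearIndepOn_empty D v) (Set.empty_subset {x | x ᵥ* F = 0})
  have hfin : Finite b := LinearIndependent.finite_of_isNoetherian hb3
  let _ : Fintype b := Fintype.ofFinite b
  obtain ⟨L', _, x', h1, h2⟩ := extend α (Subtype.val : b → I → R) hb3
  have hind : LinearIndependent D fun j => α ∘ (x' j ᵥ* F) := by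
    rw [Fintype.linearIndependent_iff]
    intro a ha
    rw [← sum_vecMul] at ha
    have h3 : ∑ t, a t • (α ∘ x' t) ∈ Submodule.span D (Set.range fun l : b => α ∘ l.1) := by
      refine Submodule.span_le.2 ?_ (hD _ ha)
      rintro _ ⟨x, hx, rfl⟩
      refine Submodule.span_mono ?_ (hb2 ⟨x, hx, rfl⟩)
      rintro _ ⟨l, hl, rfl⟩
      exact ⟨⟨l, hl⟩, rfl⟩
    obtain ⟨a', ha'⟩ := (Submodule.mem_span_range_iff_exists_fun D).1 h3
    have h4 := Fintype.linearIndependent_iff.1 h1 (Sum.elim (-a') a) (by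
      simp [Fintype.sum_sum_type, ha'])
    exact fun j => h4 (Sum.inr j)
  obtain ⟨s, c, hs, hsc⟩ := (reg_of_basis H _ h1 h2).1 z
  have h5 : (fun j => c (Sum.inr j)) = 0 := by
    refine inj_of_indep H (fun j => x' j ᵥ* F) hind _ ?_
    have e : (s • z) ᵥ* F.map β = _ := congrArg (· ᵥ* F.map β) hsc
    rw [sum_vecMul, Matrix.smul_vecMul, hz, smul_zero, Fintype.sum_sum_type] at e
    simp only [Sum.elim_inl, Sum.elim_inr] at e
    rw [e, eq_comm, add_eq_right]
    refine Finset.sum_eq_zero fun l _ => ?_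
    rw [hb0 l.2]
    funext j
    simp
  refine ⟨s, hs, ?_⟩
  rw [hsc, Fintype.sum_sum_type]
  refine add_mem (Submodule.sum_mem _ fun l _ => Submodule.smul_mem _ _
    (Submodule.subset_span ⟨l.1, hb0 l.2, rfl⟩)) (Submodule.sum_mem _ fun j _ => ?_)
  rw [show c (Sum.inr j) = 0 from congrFun h5 j, zero_smul]
  exact zero_mem _

end Pool.Agent.MP_4f4d9f_gt.Sg

end

section

/-! From exactness over a division ring to torsion homology. -/

open scoped Matrix

namespace Pool.Agent.MP_4f4d9f_gt.Sg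

namespace Rank

section Rep

variable {K : Type} [Group K] {C C' : Type} [AddCommGroup C] [AddCommGroup C']

/-- The representation on a module over the group ring. -/
noncomputable def modRep (K M : Type) [Group K] [AddCommGroup M]
    [Module (MonoidAlgebra ℤ K) M] : Representation ℤ K M where
  toFun g := (DistribSMul.toAddMonoidHom M (MonoidAlgebra.single g (1 : ℤ))).toIntLinearMap
  map_one' := LinearMap.ext fun x => one_smul (MonoidAlgebra ℤ K) x
  map_mul' g h := LinearMap.ext fun x => by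
    change (MonoidAlgebra.single (g * h) (1 : ℤ)) • x =
      (MonoidAlgebra.single g (1 : ℤ)) • (MonoidAlgebra.single h (1 : ℤ)) • x
    rw [← mul_smul, MonoidAlgebra.single_mul_single, mul_one]

theorem modRep_apply {M : Type} [AddCommGroup M] [Module (MonoidAlgebra ℤ K) M] (g : K) (x : M) :
    modRep K M g x = (MonoidAlgebra.single g (1 : ℤ)) • x := rfl

theorem eqv_act {ρ : Representation ℤ K C} {ρ' : Representation ℤ K C'} {f : C →ₗ[ℤ] C'}
    (hf : Eqv ρ ρ' f) (r : MonoidAlgebra ℤ K) (c : C) :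
    f (ρ.asAlgebraHom r c) = ρ'.asAlgebraHom r (f c) := by
  induction r using MonoidAlgebra.induction_linear with
  | zero => simp
  | add x y hx hy => simp [hx, hy]
  | single g a => simp [hf g]

theorem single_eq (g : K) (a : ℤ) :
    MonoidAlgebra.single g a = a • MonoidAlgebra.single g (1 : ℤ) := by simp

theorem co_act {ρ : Representation ℤ K C} {μ : C →ₗ[ℤ] MonoidAlgebra ℤ K}
    (hμ : ∀ g c, μ (ρ g c) = MonoidAlgebra.single g (1 : ℤ) * μ c) (r : MonoidAlgebra ℤ K)
    (c : C) : μ (ρ.asAlgebraHom r c) = r * μ c := by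
  induction r using MonoidAlgebra.induction_linear with
  | zero => simp
  | add x y hx hy => simp [hx, hy, add_mul]
  | single g a =>
    rw [Representation.asAlgebraHom_single, LinearMap.smul_apply, map_zsmul, hμ, single_eq g a,
      smul_mul_assoc]

theorem of_act {N : Type} [Ring N] (ι : K →* N) (ρ : Representation ℤ K C)
    (r : MonoidAlgebra ℤ K) (c : C) :
    Tens.of ι ρ (ρ.asAlgebraHom r c) = ev ι r • Tens.of ι ρ c := by
  induction r using MonoidAlgebra.induction_linear with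
  | zero => simp
  | add x y hx hy => simp only [map_add, LinearMap.add_apply, hx, hy, add_smul]
  | single g a =>
    rw [Representation.asAlgebraHom_single, LinearMap.smul_apply, map_zsmul, Tens.of_rep,
      ev_single, smul_assoc]

theorem map_of' {N : Type} [Ring N] (ι : K →* N) {ρ : Representation ℤ K C}
    {ρ' : Representation ℤ K C'} (f : C →ₗ[ℤ] C') (hf : Eqv ρ ρ' f) (c : C) :
    Tens.map ι f hf (Tens.of ι ρ c) = Tens.of ι ρ' (f c) := rfl

/-- Coordinates with respect to a generating family of a projective module. -/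
theorem coords {ρ : Representation ℤ K C} (hP : Proj ρ) {J : Type} (e : J → C)
    (he : AddSubgroup.closure {c | ∃ g : K, ∃ j, c = ρ g (e j)} = ⊤) :
    ∃ u : C →ₗ[ℤ] (J →₀ MonoidAlgebra ℤ K),
      (∀ g c j, u (ρ g c) j = MonoidAlgebra.single g (1 : ℤ) * u c j) ∧
      ∀ c, (u c).sum (fun j r => ρ.asAlgebraHom r (e j)) = c := by
  let π : (J →₀ MonoidAlgebra ℤ K) →ₗ[ℤ] C :=
    Finsupp.lsum ℤ fun j => (LinearMap.applyₗ (e j)) ∘ₗ ρ.asAlgebraHom.toLinearMap
  have hπ : ∀ j r, π (Finsupp.single j r) = ρ.asAlgebraHom r (e j) := fun j r => by simp [π]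
  have hπe : Eqv (modRep K (J →₀ MonoidAlgebra ℤ K)) ρ π := by
    intro g x
    induction x using Finsupp.induction_linear with
    | zero => simp
    | add x y hx hy => simp only [map_add, hx, hy]
    | single j r =>
      rw [modRep_apply, Finsupp.smul_single, hπ, hπ, smul_eq_mul, map_mul,
        Representation.asAlgebraHom_single_one, Module.End.mul_apply]
  have hs : ∀ c, ∃ x, π x = c := by
    intro c
    have : c ∈ AddSubgroup.closure {c | ∃ g : K, ∃ j, c = ρ g (e j)} := he ▸ trivial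
    have h2 : AddSubgroup.closure {c | ∃ g : K, ∃ j, c = ρ g (e j)} ≤
        π.toAddMonoidHom.range := by
      rw [AddSubgroup.closure_le]
      rintro _ ⟨g, j, rfl⟩
      exact ⟨Finsupp.single j (MonoidAlgebra.single g 1), by
        simpa using hπ j (MonoidAlgebra.single g 1)⟩
    exact h2 this
  obtain ⟨u, hu, hu'⟩ := hP _ _ _ ρ π LinearMap.id hπe Eqv.id hs
  refine ⟨u, fun g c j => ?_, fun c => ?_⟩
  · rw [hu, modRep_apply, Finsupp.smul_apply, smul_eq_mul]
  · exact hu' c

/-- Finite coordinates of a finitely generated projective module. -/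
theorem coords_fg {ρ : Representation ℤ K C} (hP : Proj ρ) (hf : RepFG ρ) :
    ∃ (S : Type) (_ : Fintype S) (e : S → C) (μ : S → C →ₗ[ℤ] MonoidAlgebra ℤ K),
      (∀ s g c, μ s (ρ g c) = MonoidAlgebra.single g (1 : ℤ) * μ s c) ∧
      ∀ c, ∑ s, ρ.asAlgebraHom (μ s c) (e s) = c := by
  obtain ⟨S, hS⟩ := hf
  obtain ⟨u, hu, hu'⟩ := coords hP (Subtype.val : S → C) (by
    rw [← hS]
    congr 1
    ext c
    simp)
  refine ⟨S, inferInstance, Subtype.val, fun s => Finsupp.lapply s ∘ₗ u,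
    fun s g c => hu g c s, fun c => ?_⟩
  conv_rhs => rw [← hu' c]
  rw [Finsupp.sum_fintype _ _ (by simp)]
  rfl

/-- Finite coordinates for finitely many elements of a projective module. -/
theorem coords_fin {ρ : Representation ℤ K C} (hP : Proj ρ) {S : Type} [Fintype S] (a : S → C) :
    ∃ (J : Type) (_ : Fintype J) (e : J → C) (μ : J → C →ₗ[ℤ] MonoidAlgebra ℤ K),
      (∀ j g c, μ j (ρ g c) = MonoidAlgebra.single g (1 : ℤ) * μ j c) ∧
      ∀ s, ∑ j, ρ.asAlgebraHom (μ j (a s)) (e j) = a s := by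
  classical
  obtain ⟨u, hu, hu'⟩ := coords hP (id : C → C) (by
    rw [eq_top_iff]
    exact fun c _ => AddSubgroup.subset_closure ⟨1, c, by simp⟩)
  let J : Finset C := Finset.univ.biUnion fun s => (u (a s)).support
  refine ⟨J, inferInstance, Subtype.val, fun j => Finsupp.lapply j.1 ∘ₗ u,
    fun j g c => hu g c j.1, fun s => ?_⟩
  conv_rhs => rw [← hu' (a s)]
  rw [Finsupp.sum_of_support_subset _ (s := J)
    (Finset.subset_biUnion_of_mem (fun s => (u (a s)).support) (Finset.mem_univ s)) _ (by simp),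
    ← Finset.sum_coe_sort J]
  rfl

/-- A coordinate on the tensor product. -/
noncomputable def tco {N : Type} [Ring N] (ι : K →* N) {ρ : Representation ℤ K C}
    (μ : C →ₗ[ℤ] MonoidAlgebra ℤ K)
    (hμ : ∀ g c, μ (ρ g c) = MonoidAlgebra.single g (1 : ℤ) * μ c) : Tens ι ρ →ₗ[N] N :=
  Tens.lift ι ((ev ι).toAddMonoidHom.toIntLinearMap ∘ₗ μ) fun g c => by
    change ev ι (μ (ρ g c)) = ι g * ev ι (μ c)
    rw [hμ, map_mul, ev_single, one_smul]

theorem tco_of {N : Type} [Ring N] (ι : K →* N) {ρ : Representation ℤ K C}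
    (μ : C →ₗ[ℤ] MonoidAlgebra ℤ K)
    (hμ : ∀ g c, μ (ρ g c) = MonoidAlgebra.single g (1 : ℤ) * μ c) (c : C) :
    tco ι μ hμ (Tens.of ι ρ c) = ev ι (μ c) := Tens.lift_of _ _ _ _

/-- The data of a presentation of `d : C → C'` by a matrix. -/
structure Pres (ρ : Representation ℤ K C) (ρ' : Representation ℤ K C') (d : C →ₗ[ℤ] C')
    (S J : Type) [Fintype S] [Fintype J] where
  e : S → C
  μ : S → C →ₗ[ℤ] MonoidAlgebra ℤ K
  e' : J → C'
  ν : J → C' →ₗ[ℤ] MonoidAlgebra ℤ K
  hμ : ∀ s g c, μ s (ρ g c) = MonoidAlgebra.single g (1 : ℤ) * μ s c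
  hν : ∀ j g c, ν j (ρ' g c) = MonoidAlgebra.single g (1 : ℤ) * ν j c
  sμ : ∀ c, ∑ s, ρ.asAlgebraHom (μ s c) (e s) = c
  sν : ∀ s, ∑ j, ρ'.asAlgebraHom (ν j (d (e s))) (e' j) = d (e s)

namespace Pres

variable {ρ : Representation ℤ K C} {ρ' : Representation ℤ K C'} {d : C →ₗ[ℤ] C'}
  {S J : Type} [Fintype S] [Fintype J] [DecidableEq S] (P : Pres ρ ρ' d S J)
  {N : Type} [Ring N] (ι : K →* N)

/-- The matrix. -/
noncomputable def F : Matrix S (J ⊕ S) (MonoidAlgebra ℤ K) :=
  Matrix.of fun s => Sum.elim (fun j => P.ν j (d (P.e s)))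
    fun t => (if s = t then 1 else 0) - P.μ t (P.e s)

/-- From the tensor product to coordinates. -/
noncomputable def U : Tens ι ρ →ₗ[N] (S → N) := LinearMap.pi fun s => tco ι (P.μ s) (P.hμ s)

/-- From coordinates to the tensor product. -/
noncomputable def V : (S → N) →ₗ[N] Tens ι ρ :=
  Fintype.linearCombination N fun s => Tens.of ι ρ (P.e s)

omit [DecidableEq S] in
theorem U_of (c : C) : P.U ι (Tens.of ι ρ c) = ev ι ∘ fun s => P.μ s c :=
  funext fun s => tco_of ι (P.μ s) (P.hμ s) c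

omit [DecidableEq S] in
theorem V_ev (x : S → MonoidAlgebra ℤ K) :
    P.V ι (ev ι ∘ x) = Tens.of ι ρ (∑ s, ρ.asAlgebraHom (x s) (P.e s)) := by
  rw [V, Fintype.linearCombination_apply, map_sum]
  simp only [of_act, Function.comp_apply]

omit [DecidableEq S] in
theorem V_U (z : Tens ι ρ) : P.V ι (P.U ι z) = z := by
  have : P.V ι ∘ₗ P.U ι = LinearMap.id := Tens.hom_ext ι fun c => by
    rw [LinearMap.comp_apply, U_of, V_ev, P.sμ, LinearMap.id_apply]
  exact LinearMap.congr_fun this z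

theorem vec_inl (hd : Eqv ρ ρ' d) (y : S → N) (j : J) :
    (y ᵥ* P.F.map (ev ι)) (Sum.inl j) = tco ι (P.ν j) (P.hν j) (Tens.map ι d hd (P.V ι y)) := by
  rw [V, Fintype.linearCombination_apply, map_sum, map_sum]
  simp only [map_smul, map_of', tco_of]
  rfl

theorem vec_inr (y : S → N) (t : S) :
    (y ᵥ* P.F.map (ev ι)) (Sum.inr t) = y t - P.U ι (P.V ι y) t := by
  rw [V, Fintype.linearCombination_apply, map_sum]
  simp only [map_smul, U_of]
  simp [Matrix.vecMul, dotProduct, F, mul_sub, apply_ite (ev ι), Finset.sum_apply]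

theorem map_V (hd : Eqv ρ ρ' d) (y : S → N) (hy : y ᵥ* P.F.map (ev ι) = 0) :
    Tens.map ι d hd (P.V ι y) = 0 := by
  have h1 : ∀ s, Tens.of ι ρ' (d (P.e s)) =
      ∑ j, ev ι (P.ν j (d (P.e s))) • Tens.of ι ρ' (P.e' j) := fun s => by
    conv_lhs => rw [← P.sν s]
    simp only [map_sum, of_act]
  rw [V, Fintype.linearCombination_apply, map_sum]
  simp only [map_smul, map_of']
  rw [Finset.sum_congr rfl fun s _ => by rw [h1 s, Finset.smul_sum], Finset.sum_comm]
  refine Finset.sum_eq_zero fun j _ => ?_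
  simp only [← mul_smul]
  rw [← Finset.sum_smul]
  have h2 : ∑ s, y s * ev ι (P.ν j (d (P.e s))) = 0 := congrFun hy (Sum.inl j)
  rw [h2, zero_smul]

theorem cyc_F (hd : Eqv ρ ρ' d) (c : C) (hc : d c = 0) : (fun s => P.μ s c) ᵥ* P.F = 0 := by
  funext j
  rcases j with j | t
  · have : ∑ s, P.μ s c * P.ν j (d (P.e s)) = 0 := by
      simp only [← co_act (P.hν j), ← eqv_act hd]
      rw [← map_sum, ← map_sum, P.sμ, hc, map_zero]
    exact this
  · have : ∑ s, P.μ s c * P.μ t (P.e s) = P.μ t c := by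
      simp only [← co_act (P.hμ t)]
      rw [← map_sum, P.sμ]
    simp [Matrix.vecMul, dotProduct, F, mul_sub, this]

theorem F_cyc (hd : Eqv ρ ρ' d) (x : S → MonoidAlgebra ℤ K) (hx : x ᵥ* P.F = 0) :
    d (∑ s, ρ.asAlgebraHom (x s) (P.e s)) = 0 := by
  rw [map_sum, Finset.sum_congr rfl fun s _ => by rw [eqv_act hd, ← P.sν s, map_sum],
    Finset.sum_comm]
  refine Finset.sum_eq_zero fun j _ => ?_
  simp only [← Module.End.mul_apply, ← map_mul]
  rw [← LinearMap.sum_apply, ← map_sum]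
  have h2 : ∑ s, x s * P.ν j (d (P.e s)) = 0 := congrFun hx (Sum.inl j)
  rw [h2, map_zero, LinearMap.zero_apply]

end Pres

end Rep

end Rank

open Rank in
theorem tors_stmt (h : RankStmt) : TorsStmt := by
  classical
  intro K D N _ _ _ ι ι' H C _ ρ d ε R k hfg hex z hz
  obtain ⟨S, _, e, μ, hμ, sμ⟩ := coords_fg (R.proj (k + 1)) hfg
  obtain ⟨J, _, e', ν, hν, sν⟩ := coords_fin (R.proj k) fun s => d k (e s)
  let P : Pres (ρ (k + 1)) (ρ k) (d k) S J := ⟨e, μ, e', ν, hμ, hν, sμ, sν⟩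
  obtain ⟨s, hs, hsz⟩ := h _ D N (ev ι) (ev ι') H S (J ⊕ S) P.F (fun y hy => by
    obtain ⟨w, hw⟩ := hex _ (P.map_V ι (R.eqv_d k) y hy)
    have h1 : y = P.U ι (Tens.map ι (d (k + 1)) (R.eqv_d _) w) := by
      funext t
      rw [hw, ← sub_eq_zero, ← P.vec_inr, hy]
      rfl
    rw [h1]
    clear h1 hw
    induction w using Tens.induction with
    | h0 => simp
    | hadd x y hx hy => rw [map_add, map_add]; exact add_mem hx hy
    | h1 a c =>
      rw [map_smul, map_smul, map_of', P.U_of]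
      exact Submodule.smul_mem _ _
        (Submodule.subset_span ⟨_, P.cyc_F (R.eqv_d k) _ (R.d_d k c), rfl⟩)) (P.U ι' z) (by
    funext j
    rcases j with j | t
    · rw [P.vec_inl ι' (R.eqv_d k), P.V_U, hz, map_zero]
      rfl
    · rw [P.vec_inr, P.V_U, sub_self]
      rfl)
  have h2 : Submodule.span N {w | ∃ x : S → MonoidAlgebra ℤ K, x ᵥ* P.F = 0 ∧ w = ev ι' ∘ x} ≤
      (LinearMap.range (Tens.map ι' (d (k + 1)) (R.eqv_d _))).comap (P.V ι') := by
    rw [Submodule.span_le]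
    rintro _ ⟨x, hx, rfl⟩
    obtain ⟨b, hb⟩ := R.exact_succ k _ (P.F_cyc (R.eqv_d k) x hx)
    exact ⟨Tens.of ι' _ b, by rw [map_of', hb, P.V_ev]⟩
  obtain ⟨w, hw⟩ := h2 hsz
  exact ⟨s, hs, w, by rw [hw, map_smul, P.V_U]⟩

end Pool.Agent.MP_4f4d9f_gt.Sg

end
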