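import Pool.Agent.Mg.F4f4d9fr.Gba0513
import Pool.Agent.Mg.F4f4d9fr.Gf4fb5f
import Pool.Agent.Mg.F4f4d9fr.Gcb0d37
import Pool.Agent.Mg.F4f4d9fr.G7c0ca5
import Pool.Agent.Mg.F4f4d9fr.G304644
import Pool.Agent.Mg.F4f4d9fr.G6b01a6
import Pool.Agent.MP_4f4d9f_gt.CompQ

set_option linter.all false

section

/-! The Alexander-Whitney diagonal of the bar complex. -/

namespace Pool.Agent.MP_4f4d9f_gt.Sg

open Finsupp Tup

namespace AWm

variable {G : Type}

/-- The cone operator in the first factor. -/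
noncomputable def cl (a : G) : (Cell G →₀ F2) →ₗ[F2] (Cell G →₀ F2) :=
  lmapDomain F2 F2 (Prod.map (cons a) id)

/-- The augmentation in the first factor. -/
noncomputable def el1 : (Cell G →₀ F2) →ₗ[F2] (Tup G →₀ F2) :=
  linearCombination F2 fun c => if c.1.deg = 0 then single c.2 1 else 0

/-- The diagonal of a tuple. -/
noncomputable def aw1 : G → List G → (Cell G →₀ F2)
  | a, [] => single (pt a, pt a) 1
  | a, b :: l => single (pt a, ⟨a, b :: l⟩) 1 + cl a (aw1 b l)

/-- The diagonal. -/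
noncomputable def aw : (Tup G →₀ F2) →ₗ[F2] (Cell G →₀ F2) :=
  linearCombination F2 fun x => aw1 x.hd x.tl

theorem cl_pr2 (a : G) (u w : Tup G →₀ F2) : cl a (pr2 u w) = pr2 (cn F2 a u) w := by
  rw [cl, lmapDomain_apply, mapDomain_pr2, mapDomain_id]
  rfl

theorem el1_pr2 (u w : Tup G →₀ F2) : el1 (pr2 u w) = eps F2 u • w := by
  induction u using induction2 with
  | h0 => simp
  | hadd x y hx hy => simp only [map_add, LinearMap.add_apply, hx, hy, add_smul]
  | h1 x =>
    induction w using induction2 with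
    | h0 => simp
    | hadd x y hx hy => simp only [map_add, hx, hy, smul_add]
    | h1 y =>
      rw [pr2_single, mul_one, el1, linearCombination_single, eps_single]
      split_ifs <;> simp

theorem aw_pt (a : G) : aw (single (pt a) 1) = pr2 (single (pt a) 1) (single (pt a) 1) := by
  simp [aw, pt, aw1, pr2_single]

theorem aw_cn (a : G) (c : Tup G →₀ F2) :
    aw (cn F2 a c) = pr2 (single (pt a) 1) (cn F2 a c) + cl a (aw c) := by
  induction c using induction2 with
  | h0 => simp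
  | hadd x y hx hy => simp only [map_add, hx, hy]; abel
  | h1 x => simp [aw, cn_single, Tup.cons, aw1, pr2_single]

theorem el1_cl (a : G) (c : Cell G →₀ F2) : el1 (cl a c) = 0 := by
  induction c using cell_induction with
  | h0 => simp
  | hadd x y hx hy => simp [hx, hy]
  | h1 x y => rw [cl_pr2, el1_pr2, eps_cn, zero_smul]

theorem el1_aw (c : Tup G →₀ F2) : el1 (aw c) = c := by
  induction c using induction2 with
  | h0 => simp
  | hadd x y hx hy => simp [hx, hy]
  | h1 x =>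
    induction x using Tup.induction with
    | h0 a => simp [aw_pt, el1_pr2, eps_single]
    | h1 a x _ => rw [← cn_single, aw_cn, map_add, el1_cl, el1_pr2]; simp [eps_single]

theorem cb_cl (a : G) (c : Cell G →₀ F2) :
    cb (cl a c) = c + cl a (cb c) + pr2 (single (pt a) 1) (el1 c) := by
  induction c using cell_induction with
  | h0 => simp
  | hadd x y hx hy => simp only [map_add, hx, hy]; abel
  | h1 x y =>
    simp only [cl_pr2, cb_pr2, bdT_cn, sub_eq_add2, map_add, LinearMap.add_apply, el1_pr2,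
      map_smul, LinearMap.smul_apply]
    abel

theorem cb_aw (c : Tup G →₀ F2) : cb (aw c) = aw (bdT F2 c) := by
  induction c using induction2 with
  | h0 => simp
  | hadd x y hx hy => simp [hx, hy]
  | h1 x =>
    induction x using Tup.induction with
    | h0 a => simp [aw_pt, cb_pr2, bdT_pt]
    | h1 a x ih =>
      rw [← cn_single, aw_cn, map_add, cb_cl, ih, el1_aw, cb_pr2]
      generalize (single x 1 : Tup G →₀ F2) = u
      simp only [bdT_cn, sub_eq_add2, map_add, map_smul, aw_cn, aw_pt, bdT_pt, map_zero,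
        LinearMap.zero_apply]
      ext z
      simp only [Finsupp.add_apply, Finsupp.smul_apply, smul_eq_mul, Finsupp.zero_apply]
      grind

theorem aw_deg (x : Tup G) : ∀ e ∈ (aw (single x 1)).support, cdeg e = x.deg := by
  classical
  induction x using Tup.induction with
  | h0 a =>
    intro e he
    rw [aw_pt, pr2_single] at he
    rw [Finset.mem_singleton.1 (support_single_subset he)]
    rfl
  | h1 a x ih =>
    intro e he
    rw [← cn_single, aw_cn, cn_single, pr2_single] at he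
    rcases Finset.mem_union.1 (support_add he) with he | he
    · rw [Finset.mem_singleton.1 (support_single_subset he)]
      simp [cdeg]
    · obtain ⟨e', he', rfl⟩ := Finset.mem_image.1 (mapDomain_support he)
      have := ih e' he'
      simp only [cdeg, Prod.map, deg_cons, id] at this ⊢
      omega

theorem aw_top (x : Tup G) :
    prD F2 (fun e : Cell G => e.1.deg) 0 (aw (single x 1)) = single (pt x.hd, x) 1 := by
  have h : ∀ (a : G) c, prD F2 (fun e : Cell G => e.1.deg) 0 (cl a c) = 0 := by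
    intro a c
    induction c using induction2 with
    | h0 => simp
    | hadd x y hx hy => simp [hx, hy]
    | h1 x => simp [cl, prD_single]
  induction x using Tup.induction with
  | h0 a => rw [aw_pt, pr2_single, prD_single, mul_one]; rfl
  | h1 a x _ =>
    rw [← cn_single, aw_cn, map_add, h, cn_single, pr2_single, prD_single]
    simp [Tup.cons]

theorem aw_smul [Group G] (g : G) (c : Tup G →₀ F2) :
    aw (c.mapDomain (g • ·)) = (aw c).mapDomain (g • ·) := by
  have hp : ∀ u w : Tup G →₀ F2, (pr2 u w).mapDomain (g • ·) =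
      pr2 (u.mapDomain (g • ·)) (w.mapDomain (g • ·)) := fun u w => mapDomain_pr2 _ _ u w
  have hc : ∀ (a : G) (c : Cell G →₀ F2),
      cl (g * a) (c.mapDomain (g • ·)) = (cl a c).mapDomain (g • ·) := by
    intro a c
    induction c using cell_induction with
    | h0 => simp
    | hadd x y hx hy => simp only [mapDomain_add, map_add, hx, hy]
    | h1 x y => rw [hp, cl_pr2, cl_pr2, hp, cn_smul]
  induction c using induction2 with
  | h0 => simp
  | hadd x y hx hy => simp only [mapDomain_add, map_add, hx, hy]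
  | h1 x =>
    induction x using Tup.induction with
    | h0 a => simp only [mapDomain_single, smul_pt, aw_pt, hp]
    | h1 a x ih =>
      rw [← cn_single, ← cn_smul, aw_cn, aw_cn, mapDomain_add, hp, ih, hc, cn_smul,
        mapDomain_single, smul_pt]

end AWm

theorem aw_stmt : AWStmt := fun _ _ =>
  ⟨AWm.aw, AWm.cb_aw, AWm.aw_smul, AWm.aw_deg, AWm.aw_top⟩

end Pool.Agent.MP_4f4d9f_gt.Sg

end

section

/-! The ring `D ⊗ D` preserves injections into free modules. -/

namespace Pool.Agent.MP_4f4d9f_gt.Sg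

namespace FlatInj

/-- Terms: two pure parts with their complexities, a unit and a coefficient. -/
structure Tm (G D C : Type) : Type 1 where
  α : W
  π : D
  β : W
  σ : D
  g : G
  c : C

variable {G D C C' : Type} [Group G] [DivisionRing D] [AddCommGroup C] [AddCommGroup C']

/-- The weight of a sum of terms. -/
noncomputable def ww (L : Multiset (Tm G D C)) : W := (L.map fun x => eW (x.α + x.β)).sum

section Defs

variable (ι : G →* D) (ρ : Representation ℤ G C)

/-- The value of a term. -/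
noncomputable def vl (K : Subgroup G) (x : Tm G D C) : TH ι K ρ :=
  el ι K ρ x.π (x.σ * ι x.g) x.c

/-- The value of a sum of terms. -/
noncomputable def zeta (K : Subgroup G) (L : Multiset (Tm G D C)) : TH ι K ρ :=
  (L.map (vl ι ρ K)).sum

/-- All letters lie in `S`. -/
def Gd (S : Set G) (x : Tm G D C) : Prop := Pure ι S x.α x.π ∧ Pure ι S x.β x.σ ∧ x.g ∈ S

/-- Left multiplication of the second factor by a unit. -/
def sh (u : G) (x : Tm G D C) : Tm G D C := ⟨x.α, x.π, x.β, ι u * x.σ * ι u⁻¹, u * x.g, x.c⟩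

/-- Sums of values of terms with the property `Q`. -/
def Rp (K : Subgroup G) (Q : Tm G D C → Prop) (z : TH ι K ρ) : Prop :=
  ∃ M : Multiset (Tm G D C), (∀ y ∈ M, Q y) ∧ zeta ι ρ K M = z

/-- The image of a sum of terms under `f`. -/
noncomputable def om (ρ' : Representation ℤ G C') (f : C →ₗ[ℤ] C') (L : Multiset (Tm G D C)) :
    Tens (dg ι) ρ' :=
  (L.map fun x => tm x.π (x.σ * ι x.g) • Tens.of (dg ι) ρ' (f x.c)).sum

end Defs

variable {ι : G →* D} {ρ : Representation ℤ G C} {ρ' : Representation ℤ G C'} {f : C →ₗ[ℤ] C'}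
  {H K N : Subgroup G} {S : Set G} {deg : G → ℤ} {t : G} {p q : ℤ → D →+ D}

theorem vl_sh (u : G) (x : Tm G D C) : vl ι ρ K (sh ι u x) = tm 1 (ι u) • vl ι ρ K x := by
  rw [vl, vl, smul_el, one_mul]
  simp only [sh, map_mul, mul_assoc]
  rw [← mul_assoc (ι u⁻¹), ← map_mul, inv_mul_cancel, map_one, one_mul]

theorem zeta_sh (u : G) (L : Multiset (Tm G D C)) :
    zeta ι ρ K (L.map (sh ι u)) = tm 1 (ι u) • zeta ι ρ K L := by
  simp only [zeta, Multiset.map_map, Function.comp_def, vl_sh, Multiset.smul_sum]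

theorem cancel {u : G} {z : TH ι K ρ} (h : tm 1 (ι u) • z = 0) : z = 0 := by
  rw [← one_smul (DD D) z, ← tm_one, ← one_mul (1 : D), one_mul (1 : D)]
  conv_lhs => rw [show tm (1 : D) 1 = tm 1 (ι u⁻¹) * tm 1 (ι u) by
    rw [tm_mul, ← map_mul, inv_mul_cancel, map_one, one_mul]]
  rw [mul_smul, h, smul_zero]

theorem Rp.zero {Q : Tm G D C → Prop} : Rp ι ρ K Q 0 := ⟨0, by simp, rfl⟩

theorem Rp.add {Q : Tm G D C → Prop} {z w : TH ι K ρ} (h : Rp ι ρ K Q z) (h' : Rp ι ρ K Q w) :
    Rp ι ρ K Q (z + w) := by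
  obtain ⟨L, hL, rfl⟩ := h
  obtain ⟨M, hM, rfl⟩ := h'
  exact ⟨L + M, fun x hx => (Multiset.mem_add.1 hx).elim (hL x) (hM x), by simp [zeta]⟩

theorem Rp.expand {Q : Tm G D C → Prop} (F : TH ι H ρ →+ TH ι K ρ) (L L' : Multiset (Mon G D))
    (e : D) (c : C) (h : ∀ m ∈ L, ∀ m' ∈ L',
      Rp ι ρ K Q (F (el ι H ρ (m.2.1 * ι m.2.2) (m'.2.1 * ι m'.2.2 * e) c))) :
    Rp ι ρ K Q (F (el ι H ρ (val ι L) (val ι L' * e) c)) := by
  refine Multiset.sum_induction (fun d => Rp ι ρ K Q (F (el ι H ρ d (val ι L' * e) c))) _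
    (fun a b ha hb => ?_) ?_ fun a ha => ?_
  · rw [el_add_left, map_add]
    exact ha.add hb
  · rw [el_zero_left, map_zero]
    exact Rp.zero
  obtain ⟨m, hm, rfl⟩ := Multiset.mem_map.1 ha
  refine Multiset.sum_induction (fun d => Rp ι ρ K Q (F (el ι H ρ _ (d * e) c))) _
    (fun a b ha hb => ?_) ?_ fun a ha => ?_
  · rw [add_mul, el_add_mid, map_add]
    exact ha.add hb
  · rw [zero_mul, el_zero_mid, map_zero]
    exact Rp.zero
  obtain ⟨m', hm', rfl⟩ := Multiset.mem_map.1 ha
  exact h m hm m' hm'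

theorem om_eq (hf : Eqv ρ ρ' f) (K : Subgroup G) (L : Multiset (Tm G D C)) :
    projH (dg ι) K ρ' (mapH ι K f hf (zeta ι ρ K L)) = om ι ρ' f L := by
  simp only [zeta, om, map_multiset_sum, Multiset.map_map, Function.comp_def, vl, mapH_el]
  simp only [el, map_smul, projH, Tens.lift_of]

theorem zeta_mono (h : H ≤ K) {L : Multiset (Tm G D C)} (hL : zeta ι ρ H L = 0) :
    zeta ι ρ K L = 0 := by
  have := congrArg (Tens.lift (ρ := ρ.comp H.subtype) ((dg ι).comp H.subtype)
    (Tens.of ((dg ι).comp K.subtype) (ρ.comp K.subtype))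
    fun g c => Tens.of_rep _ (ρ.comp K.subtype) ⟨g, h g.2⟩ c) hL
  simpa only [zeta, map_multiset_sum, Multiset.map_map, Function.comp_def, vl, el, map_smul,
    Tens.lift_of, map_zero] using this

theorem zeta_small {L : Multiset (Tm G D C)} (hS : S ⊆ H) (h : ∀ x ∈ L, Gd ι S x) :
    zeta ι ρ H L ∈ small ι H ρ :=
  multiset_sum_mem _ fun a ha => by
    obtain ⟨x, hx, rfl⟩ := Multiset.mem_map.1 ha
    exact AddSubgroup.subset_closure ⟨_, (h x hx).1.mem hS, _,
      mul_mem ((h x hx).2.1.mem hS) (iota_mem (hS (h x hx).2.2)), _, rfl⟩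

theorem map_small (hf : Eqv ρ ρ' f) {z : TH ι H ρ} (h : z ∈ small ι H ρ) :
    mapH ι H f hf z ∈ small ι H ρ' := by
  induction h using AddSubgroup.closure_induction with
  | mem x hx =>
    obtain ⟨d, hd, d', hd', c, rfl⟩ := hx
    exact AddSubgroup.subset_closure ⟨d, hd, d', hd', _, mapH_el f hf d d' c⟩
  | zero => rw [map_zero]; exact zero_mem _
  | add x y _ _ hx hy => rw [map_add]; exact add_mem hx hy
  | neg x _ hx => rw [map_neg]; exact neg_mem hx

theorem bot_inj {B : Type} {ρ' : Representation ℤ G (B →₀ ZMod 2)} {f : C →ₗ[ℤ] (B →₀ ZMod 2)}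
    (hf : Eqv ρ ρ' f) (hi : Function.Injective f) (hH : H = ⊥) {z : TH ι H ρ}
    (hz : mapH ι H f hf z = 0) : z = 0 := by
  let _ : Module (ZMod 2) C := AddCommGroup.zmodModule (n := 2) fun x => hi (by
    rw [map_nsmul, map_zero, ← Nat.cast_smul_eq_nsmul (ZMod 2), ZMod.natCast_self, zero_smul])
  obtain ⟨r, hr⟩ := (f.toAddMonoidHom.toZModLinearMap 2).exists_leftInverse_of_injective
    (LinearMap.ker_eq_bot.2 hi)
  have e : Tens.map (ρ := ρ'.comp H.subtype) (ρ' := ρ.comp H.subtype) ((dg ι).comp H.subtype)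
      r.toAddMonoidHom.toIntLinearMap (fun g c => by
        have : (g : G) = 1 := Subgroup.mem_bot.1 (hH ▸ g.2)
        simp [this]) ∘ₗ mapH ι H f hf = LinearMap.id :=
    Tens.hom_ext _ fun c => congrArg (Tens.of _ _) (LinearMap.congr_fun hr c)
  have e' := LinearMap.congr_fun e z
  rw [LinearMap.comp_apply, hz, map_zero] at e'
  exact e'.symm

omit [AddCommGroup C] in
theorem fin {L : Multiset (Tm G D C)} (h : ∀ x ∈ L, Gd ι S x) :
    ∃ T : Finset G, (T : Set G) ⊆ S ∧ ∀ x ∈ L, Gd ι T x := by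
  classical
  induction L using Multiset.induction_on with
  | empty => exact ⟨∅, by simp, by simp⟩
  | cons a L ih =>
    obtain ⟨T, h1, h2⟩ := ih fun x hx => h x (Multiset.mem_cons_of_mem hx)
    obtain ⟨h3, h4, h5⟩ := h a (Multiset.mem_cons_self a L)
    obtain ⟨T1, h6, h7⟩ := h3.fin
    obtain ⟨T2, h8, h9⟩ := h4.fin
    refine ⟨insert a.g (T ∪ T1 ∪ T2), by simp [Set.insert_subset_iff, h1, h5, h6, h8],
      fun x hx => ?_⟩
    rcases Multiset.mem_cons.1 hx with rfl | hx
    · exact ⟨h7.mono fun s hs => by simp [Finset.mem_coe.1 hs],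
        h9.mono fun s hs => by simp [Finset.mem_coe.1 hs], by simp⟩
    · have e : (T : Set G) ⊆ ↑(insert a.g (T ∪ T1 ∪ T2)) := fun s hs => by
        simp [Finset.mem_coe.1 hs]
      exact ⟨(h2 x hx).1.mono e, (h2 x hx).2.1.mono e, e (h2 x hx).2.2⟩

theorem apx [CharP D 2] (h3 : ExpandStmt) (hG : Grad ι (Subgroup.closure S) N deg t)
    (hp : Expn ι (Subgroup.closure S) N deg p) {α : W} {π : D} (h : Pure ι S α π) (A : ℤ) :
    ∃ L : Multiset (Mon G D), (∀ m ∈ L, m.1 ≤ α ∧ (¬ Pure ι (S ∩ N) α π → m.1 < α) ∧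
      Pure ι N m.1 m.2.1 ∧ m.2.2 ∈ Subgroup.closure S) ∧ ∀ i < A, p i π = p i (val ι L) := by
  rcases h3 G D ι _ N deg t p hG hp S Subgroup.subset_closure α π h with h' | h'
  · refine ⟨{(α, π, 1)}, fun m hm => ?_, fun i _ => by simp [val]⟩
    rw [Multiset.mem_singleton.1 hm]
    exact ⟨le_rfl, fun e => absurd h' e, h'.mono Set.inter_subset_right, one_mem _⟩
  · obtain ⟨L, h1, h2⟩ := h' A
    exact ⟨L, fun m hm => ⟨(h1 m hm).1.le, fun _ => (h1 m hm).1,
      (h1 m hm).2.1.mono fun s hs => hs.2, (h1 m hm).2.2⟩, h2⟩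

theorem mon {κ : ℤ → TH ι H ρ →+ TH ι N ρ} (hG : Grad ι H N deg t) (hκ : Kap ι H N deg p q ρ κ)
    (k : ℤ) {a b : W} {u u' : D} {g g' : G} (hu : Pure ι N a u) (hu' : Pure ι N b u')
    (hg : g ∈ H) (hg' : g' ∈ H) (c : C) :
    ∃ M : Multiset (Tm G D C), (∀ y ∈ M, Gd ι N y ∧ y.α = a ∧ y.β = b) ∧
      zeta ι ρ N M = tm 1 (ι (t ^ k)) • κ k (el ι H ρ (u * ι g) (u' * ι g') c) ∧
      ww M ≤ eW (a + b) ∧ (deg g - deg g' ≠ k → ww M = 0) := by
  rw [hκ.hom k u (hu.mem le_rfl) g hg u' (hu'.mem le_rfl) g' hg']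
  split_ifs with h
  · have ht := zpow_mem hG.tmem k
    refine ⟨{sh ι (t ^ k) ⟨a, u, b, u', g' * g⁻¹, ρ g c⟩}, fun y hy => ?_, ?_, by simp [ww, sh],
      fun e => absurd h e⟩
    · rw [Multiset.mem_singleton.1 hy]
      refine ⟨⟨hu, hu'.conj _ fun s hs => hG.conj ht hs, (hG.mem _).2
        ⟨mul_mem ht (mul_mem hg' (inv_mem hg)), ?_⟩⟩, rfl, rfl⟩
      change deg (t ^ k * (g' * g⁻¹)) = 0
      rw [hG.mul _ ht _ (mul_mem hg' (inv_mem hg)), hG.mul _ hg' _ (inv_mem hg), hG.inv hg, hG.zpow]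
      omega
    · rw [zeta, Multiset.map_singleton, Multiset.sum_singleton, vl_sh]
      rfl
  · exact ⟨0, by simp, (smul_zero _).symm, W.nonneg _, fun _ => rfl⟩

theorem term [CharP D 2] (h3 : ExpandStmt) {κ : ℤ → TH ι (Subgroup.closure S) ρ →+ TH ι N ρ}
    (hG : Grad ι (Subgroup.closure S) N deg t) (hp : Expn ι (Subgroup.closure S) N deg p)
    (hq : Expn ι (Subgroup.closure S) N (fun g => -deg g) q)
    (hκ : Kap ι (Subgroup.closure S) N deg p q ρ κ) (k : ℤ) {x : Tm G D C} (hx : Gd ι S x) :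
    ∃ M : Multiset (Tm G D C), (∀ y ∈ M, Gd ι N y) ∧
      zeta ι ρ N M = tm 1 (ι (t ^ k)) • κ k (vl ι ρ _ x) ∧ ww M ≤ eW (x.α + x.β) ∧
      (¬ (Pure ι (S ∩ N) x.α x.π ∧ Pure ι (S ∩ N) x.β x.σ) ∨ -deg x.g ≠ k →
        ww M < eW (x.α + x.β)) := by
  have hg := Subgroup.subset_closure hx.2.2
  by_cases h : Pure ι (S ∩ N) x.α x.π ∧ Pure ι (S ∩ N) x.β x.σ
  · obtain ⟨M, h1, h2, h4, h5⟩ := mon hG hκ k (h.1.mono Set.inter_subset_right)
      (h.2.mono Set.inter_subset_right) (one_mem _) hg x.c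
    rw [map_one, mul_one] at h2
    refine ⟨M, fun y hy => (h1 y hy).1, h2, h4, fun e => ?_⟩
    rw [h5 (by rw [hG.one, zero_sub]; exact e.resolve_left (not_not.2 h))]
    exact eW_pos _
  obtain ⟨A, hA⟩ := hκ.cont k x.π (x.σ * ι x.g) x.c
  obtain ⟨L, hL, hL'⟩ := apx h3 hG hp hx.1 A
  obtain ⟨M, hM, hM'⟩ := apx h3 hG.neg hq hx.2.1 (A + deg x.g)
  obtain ⟨R, h1, h2⟩ := Rp.expand (Q := fun y => Gd ι N y ∧ y.α + y.β < x.α + x.β)
    ((DistribSMul.toAddMonoidHom _ (tm 1 (ι (t ^ k)))).comp (κ k)) L M (ι x.g) x.c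
    fun m hm m' hm' => by
      obtain ⟨R, h1, h2, -⟩ := mon hG hκ k (hL m hm).2.2.1 (hM m' hm').2.2.1 (hL m hm).2.2.2
        (mul_mem (hM m' hm').2.2.2 hg) x.c
      rw [map_mul, ← mul_assoc] at h2
      refine ⟨R, fun y hy => ⟨(h1 y hy).1, ?_⟩, h2⟩
      rw [(h1 y hy).2.1, (h1 y hy).2.2]
      rcases not_and_or.1 h with e | e
      · exact add_lt_add_of_lt_of_le ((hL m hm).2.1 e) (hM m' hm').1
      · exact add_lt_add_of_le_of_lt (hL m hm).1 ((hM m' hm').2.1 e)
  have h4 : ww R < eW (x.α + x.β) := sum_lt_eW _ fun a ha => by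
    obtain ⟨y, hy, rfl⟩ := Multiset.mem_map.1 ha
    exact eW_strictMono (h1 y hy).2
  refine ⟨R, fun y hy => (h1 y hy).1, h2.trans ?_, h4.le, fun _ => h4⟩
  rw [vl, hA _ (val ι M * ι x.g) hL' fun a ha => by
    rw [hq.shift _ hg, hq.shift _ hg, hM' _ (by omega)]]
  rfl

theorem main [CharP D 2] (h1 : OreStmt) (h2 : ExpnStmt) (h3 : ExpandStmt) (h4 : CosetStmt)
    (h5 : ProjInjStmt) (h6 : KappaStmt) (hW : WHF ι) {B : Type} [MulAction G B]
    (hB : ∀ (g : G) (b : B), g • b = b → g = 1) {f : C →ₗ[ℤ] (B →₀ ZMod 2)}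
    (hf : Eqv ρ (perm2 G B) f) (hi : Function.Injective f) (γ : W) :
    ∀ L : Multiset (Tm G D C), ww L = γ → ∀ K : Subgroup G, (∀ x ∈ L, Gd ι K x) →
      om ι (perm2 G B) f L = 0 → zeta ι ρ K L = 0 := by
  classical
  induction γ using WellFoundedLT.induction with
  | ind γ ih =>
  have key : ∀ L : Multiset (Tm G D C), ww L = γ → (∃ x ∈ L, x.g = 1) →
      om ι (perm2 G B) f L = 0 → ∀ T : Finset G, (∀ x ∈ L, Gd ι T x) →
      zeta ι ρ (Subgroup.closure (T : Set G)) L = 0 := by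
    rintro L rfl ⟨x₀, hx₀, e₀⟩ ho T
    induction T using Finset.strongInduction with
    | H T ihT =>
    intro hT
    have e1 := zeta_small (ρ := ρ) Subgroup.subset_closure hT
    have e2 := h5 G D ι (h4 G D ι hW) B hB _ _ (map_small hf e1) ((om_eq hf _ L).trans ho)
    by_cases hb : Subgroup.closure (T : Set G) = ⊥
    · exact bot_inj hf hi hb e2
    obtain ⟨N, deg, t, hG⟩ := hW T hb
    by_cases hN : ∀ x ∈ L, Gd ι (↑T ∩ ↑N) x
    · obtain ⟨s, hs, hs'⟩ := hG.exists_not_mem
      refine zeta_mono (Subgroup.closure_mono (Finset.coe_subset.2 (Finset.filter_subset _ T)))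
        (ihT (T.filter (· ∈ N)) (Finset.filter_ssubset.2 ⟨s, hs, hs'⟩) fun x hx => ?_)
      rw [Finset.coe_filter]
      exact hN x hx
    obtain ⟨p, hp⟩ := h2 G D ι _ N deg t hG (h1 G D ι _ N deg t hG)
    obtain ⟨q, hq⟩ := h2 G D ι _ N _ _ hG.neg (h1 G D ι _ N deg t hG)
    obtain ⟨κ, κ', hκ, hκ'⟩ := h6 G D ι _ N deg t p q hG (h1 G D ι _ N deg t hG) hp hq C _ ρ _ f hf
    refine hκ.inj _ e1 fun k => cancel (u := t ^ k) ?_
    choose! M hM1 hM2 hM3 hM4 using fun x (hx : x ∈ L) => term h3 hG hp hq hκ k (hT x hx)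
    have e3 : zeta ι ρ N (L.bind M) = tm 1 (ι (t ^ k)) • κ k (zeta ι ρ _ L) := by
      rw [zeta, zeta, Multiset.map_bind, Multiset.sum_bind, map_multiset_sum, Multiset.smul_sum,
        Multiset.map_map, Multiset.map_map]
      exact congrArg _ (Multiset.map_congr rfl hM2)
    rw [← e3]
    refine ih _ ?_ _ rfl N (fun y hy => ?_) ?_
    · rw [ww, Multiset.map_bind, Multiset.sum_bind]
      refine Multiset.sum_lt_sum hM3 ?_
      by_cases hk : k = 0
      · push Not at hN
        obtain ⟨x, hx, hx'⟩ := hN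
        refine ⟨x, hx, hM4 x hx (or_iff_not_imp_left.2 fun e e' => hx' ?_)⟩
        rw [not_not] at e
        exact ⟨e.1, e.2, (hT x hx).2.2,
          (hG.mem _).2 ⟨Subgroup.subset_closure (hT x hx).2.2, by omega⟩⟩
      · exact ⟨x₀, hx₀, hM4 x₀ hx₀ (Or.inr (by rw [e₀, hG.one]; omega))⟩
    · obtain ⟨x, hx, hy⟩ := Multiset.mem_bind.1 hy
      exact hM1 x hx y hy
    · rw [← om_eq hf N, e3, map_smul, ← hκ', e2, map_zero, smul_zero, map_zero]
  intro L hL K hK ho
  rcases L.empty_or_exists_mem with rfl | ⟨x₀, hx₀⟩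
  · rfl
  have hu := K.inv_mem (hK x₀ hx₀).2.2
  obtain ⟨T, hT, hT'⟩ := fin (ι := ι) (S := K) (L := L.map (sh ι x₀.g⁻¹)) fun y hy => by
    obtain ⟨x, hx, rfl⟩ := Multiset.mem_map.1 hy
    exact ⟨(hK x hx).1, (hK x hx).2.1.conj _ fun s hs => mul_mem (mul_mem hu hs) (inv_mem hu),
      mul_mem hu (hK x hx).2.2⟩
  refine cancel (u := x₀.g⁻¹) ((zeta_sh _ L).symm.trans (zeta_mono
    ((Subgroup.closure_le K).2 hT) (key _ ?_ ⟨_, Multiset.mem_map_of_mem _ hx₀,
      inv_mul_cancel _⟩ ?_ T hT')))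
  · rw [← hL, ww, Multiset.map_map]
    rfl
  · rw [← om_eq hf K, zeta_sh, map_smul, map_smul, om_eq, ho, smul_zero]

end FlatInj

open FlatInj in
theorem flatInj_stmt (h1 : OreStmt) (h2 : ExpnStmt) (h3 : ExpandStmt) (h4 : CosetStmt)
    (h5 : ProjInjStmt) (h6 : KappaStmt) : FlatInjStmt := by
  intro G D _ _ _ ι hW ht C B _ _ ρ hB f hf hi
  have e1 : ∀ z : TH ι ⊤ ρ, Rp ι ρ ⊤ (Gd ι (⊤ : Subgroup G)) z := fun z => by
    induction z using TH_induction with
    | h0 => exact Rp.zero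
    | hadd x y hx hy => exact hx.add hy
    | h1 d d' c =>
      obtain ⟨L, hL, rfl⟩ := exists_val (ι := ι) (K := ⊤) (d := d) (ht ▸ trivial)
      obtain ⟨M, hM, rfl⟩ := exists_val (ι := ι) (K := ⊤) (d := d') (ht ▸ trivial)
      rw [← mul_one (val ι M)]
      refine Rp.expand (AddMonoidHom.id _) L M 1 c fun m hm m' hm' =>
        ⟨{⟨m.1, m.2.1, m'.1, m'.2.1, m'.2.2 * m.2.2⁻¹, ρ m.2.2 c⟩}, fun y hy => ?_, ?_⟩
      · rw [Multiset.mem_singleton.1 hy]
        exact ⟨(hL m hm).1, (hM m' hm').1, trivial⟩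
      · rw [zeta, Multiset.map_singleton, Multiset.sum_singleton, vl, el_rep (Subgroup.mem_top _),
          mul_one, mul_assoc, ← map_mul, inv_mul_cancel_right]
        rfl
  have e2 : ∀ z, ∃ w, projH (dg ι) ⊤ ρ w = z := fun z => by
    induction z using Tens.induction with
    | h0 => exact ⟨0, map_zero _⟩
    | hadd x y hx hy =>
      obtain ⟨x, rfl⟩ := hx
      obtain ⟨y, rfl⟩ := hy
      exact ⟨x + y, map_add _ _ _⟩
    | h1 a c => exact ⟨a • Tens.of _ _ c, by rw [map_smul, projH, Tens.lift_of]⟩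
  have e3 : Tens.map (dg ι) f hf ∘ₗ projH (dg ι) ⊤ ρ =
      projH (dg ι) ⊤ (perm2 G B) ∘ₗ mapH ι ⊤ f hf :=
    Tens.hom_ext _ fun c => by
      simp only [LinearMap.comp_apply, projH, mapH, Tens.lift_of, Tens.map_of]
  refine (injective_iff_map_eq_zero _).2 fun z hz => ?_
  obtain ⟨w, rfl⟩ := e2 z
  obtain ⟨L, hL, rfl⟩ := e1 w
  rw [main h1 h2 h3 h4 h5 h6 hW hB hf hi _ L rfl ⊤ hL
    ((om_eq hf ⊤ L).symm.trans ((LinearMap.congr_fun e3 _).symm.trans hz)), map_zero]

end Pool.Agent.MP_4f4d9f_gt.Sg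

end

section

/-! The coefficient maps. -/

namespace Pool.Agent.MP_4f4d9f_gt.Sg

namespace Kappa

variable {G D : Type} [Group G] [DivisionRing D] {ι : G →* D} {H N : Subgroup G} {deg : G → ℤ}
  {t : G} {p q : ℤ → D →+ D} {C : Type} [AddCommGroup C] {ρ : Representation ℤ G C}

theorem exists_lift (K : Subgroup G) {Q : Type} [AddCommGroup Q] (β : D → D → C → Q)
    (h1 : ∀ d e d' c, β (d + e) d' c = β d d' c + β e d' c)
    (h2 : ∀ d d' e' c, β d (d' + e') c = β d d' c + β d e' c)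
    (h3 : ∀ d d' c c', β d d' (c + c') = β d d' c + β d d' c')
    (hb : ∀ h ∈ K, ∀ d d' c, β (d * ι h) (d' * ι h) c = β d d' (ρ h c)) :
    ∃ φ : TH ι K ρ →+ Q, ∀ d d' c, φ (el ι K ρ d d' c) = β d d' c := by
  let B : D →+ D →+ C →+ Q := AddMonoidHom.mk' (fun d => AddMonoidHom.mk'
    (fun d' => AddMonoidHom.mk' (β d d') (h3 d d')) fun d' e' => AddMonoidHom.ext (h2 d d' e'))
    fun d e => AddMonoidHom.ext fun d' => AddMonoidHom.ext (h1 d e d')
  refine ⟨liftAdd _ (liftDD B) fun a g c => ?_, fun d d' c => ?_⟩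
  · induction a using DD_induction with
    | h0 => rw [zero_mul, map_zero, AddMonoidHom.zero_apply, AddMonoidHom.zero_apply]
    | hadd x y hx hy => simp only [add_mul, map_add, AddMonoidHom.add_apply, hx, hy]
    | h1 d d' =>
      rw [MonoidHom.comp_apply, dg_apply, tm_mul, liftDD_tm, liftDD_tm]
      exact hb g g.2 d d' c
  · rw [el, liftAdd_smul_of, liftDD_tm]
    rfl

variable (ι N ρ) in
/-- The basic terms. -/
noncomputable def T (g : G) (d d' : D) (c : C) : TH ι N ρ :=
  el ι N ρ (d * ι g⁻¹) (d' * ι g⁻¹) (ρ g c)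

theorem rep_rep (g h : G) (c : C) : ρ g (ρ h c) = ρ (g * h) c := by rw [map_mul]; rfl

theorem T_congr {g g' : G} (h : g * g'⁻¹ ∈ N) (d d' : D) (c : C) :
    T ι N ρ g d d' c = T ι N ρ g' d d' c := by
  rw [T, T, ← inv_mul_cancel_right g g', ← rep_rep, el_rep h, inv_mul_cancel_right, mul_assoc,
    mul_assoc, ← map_mul, inv_mul_cancel_left]

theorem T_shift (g h : G) (d d' : D) (c : C) :
    T ι N ρ g (d * ι h) (d' * ι h) c = T ι N ρ (g * h⁻¹) d d' (ρ h c) := by
  rw [T, T, rep_rep, inv_mul_cancel_right, mul_assoc, mul_assoc, ← map_mul, mul_inv_rev, inv_inv]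

theorem T_add_left (g : G) (d e d' : D) (c : C) :
    T ι N ρ g (d + e) d' c = T ι N ρ g d d' c + T ι N ρ g e d' c := by
  rw [T, add_mul, el_add_left, T, T]

theorem T_add_mid (g : G) (d d' e' : D) (c : C) :
    T ι N ρ g d (d' + e') c = T ι N ρ g d d' c + T ι N ρ g d e' c := by
  rw [T, add_mul, el_add_mid, T, T]

theorem T_add_right (g : G) (d d' : D) (c c' : C) :
    T ι N ρ g d d' (c + c') = T ι N ρ g d d' c + T ι N ρ g d d' c' := by
  rw [T, map_add, el_add_right, T, T]

theorem T_zero_left (g : G) (d' : D) (c : C) : T ι N ρ g 0 d' c = 0 := by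
  rw [T, zero_mul, el_zero_left]

theorem T_zero_mid (g : G) (d : D) (c : C) : T ι N ρ g d 0 c = 0 := by
  rw [T, zero_mul, el_zero_mid]

theorem smul_T (s s' : D) (g : G) (d d' : D) (c : C) :
    tm s s' • T ι N ρ g d d' c = T ι N ρ g (s * d) (s' * d') c := by
  rw [T, smul_el, T, mul_assoc, mul_assoc]

theorem fin (hp : Expn ι H N deg p) (hq : Expn ι H N (fun g => -deg g) q) (k : ℤ) (d d' : D)
    (c : C) : Function.HasFiniteSupport fun a => T ι N ρ (t ^ a) (p a d) (q (k - a) d') c := by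
  obtain ⟨a₀, h1⟩ := hp.low d
  obtain ⟨j₀, h2⟩ := hq.low d'
  refine (Set.finite_Icc a₀ (k - j₀)).subset fun a ha => ⟨not_lt.1 fun h => ha ?_,
    not_lt.1 fun h => ha ?_⟩
  · simp only [h1 a h, T_zero_left]
  · simp only [h2 (k - a) (by omega), T_zero_mid]

variable (ι H N t p q ρ) in
/-- The defining formula. -/
def Fm (κ : ℤ → TH ι H ρ →+ TH ι N ρ) : Prop :=
  ∀ k d d' c, κ k (el ι H ρ d d' c) = ∑ᶠ a, T ι N ρ (t ^ a) (p a d) (q (k - a) d') c

theorem exists_Fm (hg : Grad ι H N deg t) (hp : Expn ι H N deg p)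
    (hq : Expn ι H N (fun g => -deg g) q) (ρ : Representation ℤ G C) :
    ∃ κ, Fm ι H N t p q ρ κ := by
  refine (Classical.skolem (p := fun k (φ : TH ι H ρ →+ TH ι N ρ) => ∀ d d' c,
    φ (el ι H ρ d d' c) = ∑ᶠ a, T ι N ρ (t ^ a) (p a d) (q (k - a) d') c)).1 fun k =>
    exists_lift H _ (fun d e d' c => ?_) (fun d d' e' c => ?_) (fun d d' c c' => ?_)
      fun h hh d d' c => ?_
  · simp only [map_add, T_add_left]
    exact finsum_add_distrib (fin hp hq k d d' c) (fin hp hq k e d' c)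
  · simp only [map_add, T_add_mid]
    exact finsum_add_distrib (fin hp hq k d d' c) (fin hp hq k d e' c)
  · simp only [T_add_right]
    exact finsum_add_distrib (fin hp hq k d d' c) (fin hp hq k d d' c')
  · rw [← finsum_comp_equiv (Equiv.addRight (deg h))]
    refine finsum_congr fun a => ?_
    have ht := fun i : ℤ => zpow_mem hg.tmem i
    rw [Equiv.coe_addRight, hp.shift h hh, hq.shift h hh, T_shift, add_sub_cancel_right,
      show k - (a + deg h) - -deg h = k - a by ring]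
    refine T_congr (hg.mul_inv_mem (mul_mem (ht _) (inv_mem hh)) (ht _) ?_) _ _ _
    rw [hg.mul _ (ht _) _ (inv_mem hh), hg.zpow, hg.zpow, hg.inv hh, add_neg_cancel_right]

variable {κ : ℤ → TH ι H ρ →+ TH ι N ρ}

theorem cont (hp : Expn ι H N deg p) (hq : Expn ι H N (fun g => -deg g) q)
    (hκ : Fm ι H N t p q ρ κ) (k : ℤ) (d d' : D) (c : C) : ∃ A : ℤ, ∀ e e',
      (∀ a < A, p a d = p a e) → (∀ a < A, q a d' = q a e') →
      κ k (el ι H ρ d d' c) = κ k (el ι H ρ e e' c) := by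
  obtain ⟨a₀, h1⟩ := hp.low d
  obtain ⟨j₀, h2⟩ := hq.low d'
  refine ⟨max (max a₀ j₀) (max (k - a₀) (k - j₀)) + 1, fun e e' h3 h4 => ?_⟩
  rw [hκ, hκ]
  refine finsum_congr fun a => ?_
  by_cases h5 : a < a₀
  · rw [← h3 a (by omega), h1 a h5, T_zero_left, T_zero_left]
  by_cases h6 : k - a < j₀
  · rw [← h4 _ (by omega), h2 _ h6, T_zero_mid, T_zero_mid]
  rw [h3 a (by omega), h4 _ (by omega)]

theorem hom (hg : Grad ι H N deg t) (hp : Expn ι H N deg p) (hq : Expn ι H N (fun g => -deg g) q)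
    (hκ : Fm ι H N t p q ρ κ) (k : ℤ) : ∀ u ∈ dcl ι N, ∀ g ∈ H, ∀ u' ∈ dcl ι N, ∀ g' ∈ H, ∀ c,
    κ k (el ι H ρ (u * ι g) (u' * ι g') c) =
      if deg g - deg g' = k then el ι N ρ u (u' * ι (g' * g⁻¹)) (ρ g c) else 0 := by
  intro u hu g h1 u' hu' g' h2 c
  rw [hκ, finsum_eq_single _ (deg g) fun a ha => by
    rw [hp.shift g h1, hp.hom u hu, if_neg (sub_ne_zero.2 ha), zero_mul, T_zero_left],
    hp.shift g h1, hp.hom u hu, if_pos (sub_self _), hq.shift g' h2, hq.hom u' hu']
  by_cases h : deg g - deg g' = k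
  · rw [if_pos (by omega), if_pos h, T_congr (hg.mul_inv_mem (zpow_mem hg.tmem _) h1 (hg.zpow _)),
      T, mul_assoc, mul_assoc, ← map_mul, ← map_mul, mul_inv_cancel, map_one, mul_one]
  · rw [if_neg (by omega), if_neg h, zero_mul, T_zero_mid]

theorem poly_ind {Q : Type} [AddCommGroup Q] (B : D →+ D →+ Q) (U : AddSubgroup Q)
    (h : ∀ u ∈ dcl ι N, ∀ g ∈ H, ∀ u' ∈ dcl ι N, ∀ g' ∈ H, B (u * ι g) (u' * ι g') ∈ U) :
    ∀ x ∈ poly ι H N, ∀ x' ∈ poly ι H N, B x x' ∈ U := fun _ hx x' hx' => by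
  refine (AddSubgroup.closure_le (U.comap (B.flip x'))).2 ?_ hx
  rintro _ ⟨u, hu, g, hg, rfl⟩
  refine (AddSubgroup.closure_le (U.comap (B (u * ι g)))).2 ?_ hx'
  rintro _ ⟨u', hu', g', hg', rfl⟩
  exact h u hu g hg u' hu' g' hg'

theorem left (hg : Grad ι H N deg t) (hp : Expn ι H N deg p) (hq : Expn ι H N (fun g => -deg g) q)
    (hκ : Fm ι H N t p q ρ κ) {z : TH ι H ρ} (hz : z ∈ small ι H ρ) (h0 : ∀ k, κ k z = 0) (k : ℤ) :
    ∀ s ∈ poly ι H N, ∀ s' ∈ poly ι H N, κ k (tm s s' • z) = 0 := by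
  refine poly_ind (tmHom.compr₂ ((κ k).comp ((smulAddHom (DD D) (TH ι H ρ)).flip z))) ⊥
    fun u hu h hh u' hu' h' hh' => ?_
  obtain ⟨τ, hτ⟩ := exists_lift (ι := ι) (ρ := ρ) N (T ι N ρ h) (T_add_left h) (T_add_mid h)
    (T_add_right h) fun n hn d d' c => by
      rw [T_shift]
      exact T_congr (hg.conj hh (inv_mem hn)) _ _ _
  have key : κ k (tm (u * ι h) (u' * ι h') • z) =
      tm (u * ι h) (u' * ι h') • τ (κ (k - deg h + deg h') z) := by
    clear h0
    induction hz using AddSubgroup.closure_induction with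
    | mem x hx =>
      obtain ⟨d, hd, d', hd', c, rfl⟩ := hx
      have ht := fun i : ℤ => zpow_mem hg.tmem i
      rw [smul_el, hκ, hκ, ← finsum_comp_equiv (Equiv.addRight (deg h))]
      refine Eq.trans (finsum_congr fun a => ?_) (((DistribSMul.toAddMonoidHom _
        (tm (u * ι h) (u' * ι h'))).comp τ).map_finsum (fin hp hq _ d d' c)).symm
      rw [Equiv.coe_addRight, hp.left u hu h hh d hd, hq.left u' hu' h' hh' d' hd', ← smul_T,
        add_sub_cancel_right, show k - (a + deg h) - -deg h' = k - deg h + deg h' - a by ring]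
      refine congrArg _ ?_
      rw [T.eq_1 _ _ _ (t ^ a), hτ, T_shift, inv_inv, rep_rep, inv_mul_cancel, map_one,
        Module.End.one_apply]
      refine T_congr (hg.mul_inv_mem (ht _) (mul_mem hh (ht _)) ?_) _ _ _
      rw [hg.mul _ hh _ (ht _), hg.zpow, hg.zpow, add_comm]
    | zero => simp only [smul_zero, map_zero]
    | add x y _ _ hx hy => simp only [smul_add, map_add, hx, hy]
    | neg x _ hx => simp only [smul_neg, map_neg, hx]
  rw [h0, map_zero, smul_zero] at key
  exact key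

theorem inj (hg : Grad ι H N deg t) (ho : OreD ι H N) (hp : Expn ι H N deg p)
    (hq : Expn ι H N (fun g => -deg g) q) (hκ : Fm ι H N t p q ρ κ) :
    ∀ z ∈ small ι H ρ, (∀ k, κ k z = 0) → z = 0 := by
  classical
  intro z hz h0
  obtain ⟨π, hπ⟩ := exists_lift (ι := ι) (ρ := ρ) N (el ι H ρ) el_add_left el_add_mid
    el_add_right fun n hn d d' c => (el_rep (hg.le hn) d d' c).symm
  let U : AddSubgroup (TH ι H ρ) :=
    { carrier := {ξ | ∀ᶠ S : Finset ℤ in Filter.atTop, ∑ k ∈ S, π (κ k ξ) = ξ}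
      add_mem' := fun h1 h2 => (h1.and h2).mono fun S h => by
        simp only [map_add, Finset.sum_add_distrib, h.1, h.2]
      zero_mem' := Filter.Eventually.of_forall fun S => by simp
      neg_mem' := fun h1 => h1.mono fun S h => by simp only [map_neg, Finset.sum_neg_distrib, h] }
  have hU : ∀ c, ∀ x ∈ poly ι H N, ∀ x' ∈ poly ι H N, el ι H ρ x x' c ∈ U := fun c =>
    poly_ind (tmHom.compr₂ ((smulAddHom (DD D) (TH ι H ρ)).flip (Tens.of _ _ c))) U
      fun u hu g h1 u' hu' g' h2 => (Filter.eventually_ge_atTop {deg g - deg g'}).mono fun S hS => by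
        change ∑ k ∈ S, π (κ k (el ι H ρ (u * ι g) (u' * ι g') c)) = el ι H ρ _ _ c
        simp only [hom hg hp hq hκ _ u hu g h1 u' hu' g' h2, apply_ite π, map_zero]
        rw [Finset.sum_ite_eq, if_pos (hS (Finset.mem_singleton_self _)), hπ, el_rep h1, mul_assoc,
          ← map_mul, inv_mul_cancel_right]
  obtain ⟨S, h1, h2⟩ : ∃ S : Finset D, (∀ d ∈ S, d ∈ dcl ι H) ∧
      ∀ s, (∀ d ∈ S, s * d ∈ poly ι H N) → tm s s • z ∈ U := by
    clear h0
    induction hz using AddSubgroup.closure_induction with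
    | mem x hx =>
      obtain ⟨d, hd, d', hd', c, rfl⟩ := hx
      refine ⟨{d, d'}, by simp [hd, hd'], fun s hs => ?_⟩
      rw [smul_el]
      exact hU c _ (hs d (by simp)) _ (hs d' (by simp))
    | zero => exact ⟨∅, by simp, fun s _ => by rw [smul_zero]; exact zero_mem _⟩
    | add x y _ _ hx hy =>
      obtain ⟨S, h1, h2⟩ := hx
      obtain ⟨S', h3, h4⟩ := hy
      refine ⟨S ∪ S', fun d hd => (Finset.mem_union.1 hd).elim (h1 d) (h3 d), fun s hs => ?_⟩
      rw [smul_add]
      exact add_mem (h2 s fun d hd => hs d (Finset.mem_union_left _ hd))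
        (h4 s fun d hd => hs d (Finset.mem_union_right _ hd))
    | neg x _ hx =>
      obtain ⟨S, h1, h2⟩ := hx
      exact ⟨S, h1, fun s hs => by rw [smul_neg]; exact neg_mem (h2 s hs)⟩
  obtain ⟨s, h3, h4, h5⟩ := ho.den S h1
  obtain ⟨S', h6⟩ := (h2 s h5).exists
  simp only [left hg hp hq hκ hz h0 _ s h3 s h3, map_zero, Finset.sum_const_zero] at h6
  rw [← one_smul (DD D) z, ← tm_one, ← inv_mul_cancel₀ h4, ← tm_mul, mul_smul, ← h6, smul_zero]

end Kappa

open Kappa in
theorem kappa_stmt : KappaStmt := by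
  intro G D _ _ ι H N deg t p q hg ho hp hq C C' _ _ ρ ρ' f hf
  obtain ⟨κ, hκ⟩ := exists_Fm hg hp hq ρ
  obtain ⟨κ', hκ'⟩ := exists_Fm hg hp hq ρ'
  refine ⟨κ, κ', ⟨cont hp hq hκ, hom hg hp hq hκ, inj hg ho hp hq hκ⟩, fun k z => ?_⟩
  induction z using TH_induction with
  | h0 => simp only [map_zero]
  | hadd x y hx hy => simp only [map_add, hx, hy]
  | h1 d d' c =>
    rw [mapH_el, hκ, hκ']
    refine Eq.trans (finsum_congr fun a => ?_)
      ((mapH ι N f hf).toAddMonoidHom.map_finsum (fin hp hq k d d' c)).symm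
    rw [LinearMap.toAddMonoidHom_coe, T, T, mapH_el, hf]

end Pool.Agent.MP_4f4d9f_gt.Sg

end

section

/-! The left Ore condition for twisted Laurent polynomials. -/

namespace Pool.Agent.MP_4f4d9f_gt.Sg

namespace Ore

variable {G D : Type} [Group G] [DivisionRing D] {ι : G →* D} {H N : Subgroup G} {deg : G → ℤ}
  {t : G}

theorem gen_mem {u : D} (hu : u ∈ dcl ι N) {g : G} (hg : g ∈ H) : u * ι g ∈ poly ι H N :=
  AddSubgroup.subset_closure ⟨u, hu, g, hg, rfl⟩

theorem const_mem {u : D} (hu : u ∈ dcl ι N) : u ∈ poly ι H N := by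
  simpa using gen_mem hu H.one_mem

theorem iota_poly {g : G} (hg : g ∈ H) : ι g ∈ poly ι H N := by
  simpa using gen_mem (N := N) (ι := ι) (one_mem _) hg

theorem swap (g : G) (u d : D) : ι g * (u * d) = ι g * u * ι g⁻¹ * (ι g * d) := by
  rw [mul_assoc _ (ι g⁻¹), ← mul_assoc (ι g⁻¹), ← map_mul, inv_mul_cancel, map_one, one_mul,
    mul_assoc]

theorem mul_poly (h : Grad ι H N deg t) {a b : D} (ha : a ∈ poly ι H N) (hb : b ∈ poly ι H N) :
    a * b ∈ poly ι H N := by
  induction ha using AddSubgroup.closure_induction with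
  | mem x hx =>
    obtain ⟨u, hu, g, hg, rfl⟩ := hx
    induction hb using AddSubgroup.closure_induction with
    | mem y hy =>
      obtain ⟨u', hu', g', hg', rfl⟩ := hy
      rw [mul_assoc, swap, ← map_mul, ← mul_assoc]
      exact gen_mem (mul_mem hu (h.conj_dcl hg hu')) (mul_mem hg hg')
    | zero => rw [mul_zero]; exact zero_mem _
    | add y z _ _ hy hz => rw [mul_add]; exact add_mem hy hz
    | neg y _ hy => rw [mul_neg]; exact neg_mem hy
  | zero => rw [zero_mul]; exact zero_mem _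
  | add y z _ _ hy hz => rw [add_mul]; exact add_mem hy hz
  | neg y _ hy => rw [neg_mul]; exact neg_mem hy

/-- The span of the powers with exponent in an interval. -/
def P (ι : G →* D) (N : Subgroup G) (t : G) (a b : ℤ) : Submodule (dcl ι N) D :=
  Submodule.span (dcl ι N) ((fun i : ℤ => ι (t ^ i)) '' Set.Ico a b)

theorem P_mono {a b a' b' : ℤ} (h1 : a' ≤ a) (h2 : b ≤ b') : P ι N t a b ≤ P ι N t a' b' :=
  Submodule.span_mono (Set.image_mono (Set.Ico_subset_Ico h1 h2))

theorem exists_P (h : Grad ι H N deg t) {d : D} (hd : d ∈ poly ι H N) :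
    ∃ B : ℕ, d ∈ P ι N t (-B) B := by
  induction hd using AddSubgroup.closure_induction with
  | mem x hx =>
    obtain ⟨u, hu, g, hg, rfl⟩ := hx
    have h1 := iota_mem (ι := ι) (h.mul_inv_mem hg (zpow_mem h.tmem (deg g)) (h.zpow _).symm)
    refine ⟨(deg g).natAbs + 1, ?_⟩
    have e : u * ι g = (⟨_, mul_mem hu h1⟩ : dcl ι N) • ι (t ^ deg g) := by
      rw [Subfield.smul_def, smul_eq_mul, mul_assoc, ← map_mul, inv_mul_cancel_right]
    rw [e]
    exact Submodule.smul_mem _ _ (Submodule.subset_span ⟨deg g, ⟨by omega, by omega⟩, rfl⟩)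
  | zero => exact ⟨0, zero_mem _⟩
  | add y z _ _ hy hz =>
    obtain ⟨B, hB⟩ := hy
    obtain ⟨B', hB'⟩ := hz
    exact ⟨B + B', add_mem (P_mono (by omega) (by omega) hB) (P_mono (by omega) (by omega) hB')⟩
  | neg y _ hy => exact hy.imp fun _ hB => neg_mem hB

theorem shift (h : Grad ι H N deg t) (i : ℤ) {a b : ℤ} {d : D} (hd : d ∈ P ι N t a b) :
    ι (t ^ i) * d ∈ P ι N t (i + a) (i + b) := by
  induction hd using Submodule.span_induction with
  | mem x hx =>
    obtain ⟨j, ⟨h1, h2⟩, rfl⟩ := hx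
    exact Submodule.subset_span ⟨i + j, ⟨by omega, by omega⟩, by simp only [zpow_add, map_mul]⟩
  | zero => rw [mul_zero]; exact zero_mem _
  | add y z _ _ hy hz => rw [mul_add]; exact add_mem hy hz
  | smul u y _ hy =>
    rw [Subfield.smul_def, smul_eq_mul, swap]
    exact Submodule.smul_mem _ (⟨_, h.conj_dcl (zpow_mem h.tmem i) u.2⟩ : dcl ι N) hy

theorem indep (h : Grad ι H N deg t) : LinearIndependent (dcl ι N) fun i : ℤ => ι (t ^ i) := by
  rw [linearIndependent_iff]
  intro l hl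
  have := h.ind (l.mapRange Subtype.val rfl) (fun i => (l i).2) (by
    rw [Finsupp.sum_mapRange_index fun _ => zero_mul _]
    exact hl)
  exact Finsupp.ext fun i => Subtype.ext (DFunLike.congr_fun this i)

theorem card_le {I : Type} [Fintype I] {v : I → D} (hv : LinearIndependent (dcl ι N) v) {a b : ℤ}
    (h : ∀ i, v i ∈ P ι N t a b) : Fintype.card I ≤ (b - a).toNat := by
  classical
  have h1 := linearIndependent_le_span_aux' v hv
    (((Finset.Ico a b).image fun i : ℤ => ι (t ^ i) : Finset D) : Set D) (by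
      rintro _ ⟨i, rfl⟩
      rw [Finset.coe_image, Finset.coe_Ico]
      exact h i)
  refine h1.trans ?_
  rw [← Int.card_Ico]
  exact (Fintype.card_coe _).trans_le Finset.card_image_le

theorem ore (h : Grad ι H N deg t) {a b : D} (ha : a ∈ poly ι H N) (hb : b ∈ poly ι H N)
    (h0 : b ≠ 0) : ∃ s ∈ poly ι H N, ∃ x ∈ poly ι H N, s ≠ 0 ∧ s * a = x * b := by
  obtain ⟨B, hB⟩ := exists_P h ha
  obtain ⟨B', hB'⟩ := exists_P h hb
  obtain ⟨n, hn⟩ : ∃ n : ℕ, n = 2 * (B + B') + 1 := ⟨_, rfl⟩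
  have h1 : ¬ LinearIndependent (dcl ι N) (Sum.elim (fun i : Fin n => ι (t ^ (i : ℤ)) * a)
      fun i : Fin n => ι (t ^ (i : ℤ)) * b) := fun hv => by
    have := card_le (t := t) (a := -(B + B' : ℕ)) (b := n + (B + B' : ℕ)) hv (by
      rintro (i | i)
      · exact P_mono (by omega) (by omega) (shift h i hB)
      · exact P_mono (by omega) (by omega) (shift h i hB'))
    rw [Fintype.card_sum, Fintype.card_fin] at this
    omega
  obtain ⟨g, h2, h3⟩ := Fintype.not_linearIndependent_iff.1 h1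
  have hp : ∀ c : Fin n → dcl ι N, ∑ i, c i • ι (t ^ (i : ℤ)) ∈ poly ι H N := fun c =>
    sum_mem fun i _ => gen_mem (c i).2 (zpow_mem h.tmem _)
  have hz : ∀ c : Fin n → dcl ι N, ∑ i, c i • ι (t ^ (i : ℤ)) = 0 → ∀ i, c i = 0 :=
    Fintype.linearIndependent_iff.1 ((indep h).comp (fun i : Fin n => ((i : ℕ) : ℤ))
      fun i j e => Fin.ext (Nat.cast_injective e))
  have e : (∑ i, g (.inl i) • ι (t ^ (i : ℤ))) * a = -(∑ i, g (.inr i) • ι (t ^ (i : ℤ))) * b := by
    rw [neg_mul, eq_neg_iff_add_eq_zero, ← h2, Fintype.sum_sum_type, Finset.sum_mul,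
      Finset.sum_mul]
    simp only [smul_mul_assoc, Sum.elim_inl, Sum.elim_inr]
  refine ⟨_, hp _, _, neg_mem (hp _), fun e0 => ?_, e⟩
  rw [e0, zero_mul, eq_comm, mul_eq_zero, neg_eq_zero] at e
  obtain ⟨i | i, hi⟩ := h3
  · exact hi (hz _ e0 i)
  · exact hi (hz _ (e.resolve_right h0) i)

theorem den1 (h : Grad ι H N deg t) {d : D} (hd : d ∈ dcl ι H) :
    ∃ s ∈ poly ι H N, s ≠ 0 ∧ s * d ∈ poly ι H N := by
  have h1 : (1 : D) ∈ poly ι H N := const_mem (one_mem _)
  induction hd using Subfield.closure_induction with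
  | mem x hx =>
    obtain ⟨g, hg, rfl⟩ := hx
    exact ⟨1, h1, one_ne_zero, by rw [one_mul]; exact iota_poly hg⟩
  | one => exact ⟨1, h1, one_ne_zero, by rwa [one_mul]⟩
  | add x y _ _ hx hy =>
    obtain ⟨s, a1, a2, a3⟩ := hx
    obtain ⟨s', b1, b2, b3⟩ := hy
    obtain ⟨u, c1, z, c2, c3, c4⟩ := ore h a1 b1 b2
    refine ⟨u * s, mul_poly h c1 a1, mul_ne_zero c3 a2, ?_⟩
    rw [mul_add, mul_assoc, c4, mul_assoc]
    exact add_mem (mul_poly h c1 a3) (mul_poly h c2 b3)
  | neg x _ hx =>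
    obtain ⟨s, a1, a2, a3⟩ := hx
    exact ⟨s, a1, a2, by rw [mul_neg]; exact neg_mem a3⟩
  | inv x _ hx =>
    obtain ⟨s, a1, a2, a3⟩ := hx
    by_cases h0 : x = 0
    · exact ⟨1, h1, one_ne_zero, by rw [h0, inv_zero, mul_zero]; exact zero_mem _⟩
    · exact ⟨s * x, a3, mul_ne_zero a2 h0, by rwa [mul_inv_cancel_right₀ h0]⟩
  | mul x y _ _ hx hy =>
    obtain ⟨s, a1, a2, a3⟩ := hx
    obtain ⟨s', b1, b2, b3⟩ := hy
    obtain ⟨u, c1, z, c2, c3, c4⟩ := ore h a3 b1 b2
    refine ⟨u * s, mul_poly h c1 a1, mul_ne_zero c3 a2, ?_⟩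
    rw [← mul_assoc, mul_assoc u, c4, mul_assoc]
    exact mul_poly h c2 b3

end Ore

theorem ore_stmt : OreStmt := by
  intro G D _ _ ι H N deg t h
  refine ⟨fun a ha b hb => Ore.ore h ha hb, fun T => ?_⟩
  classical
  induction T using Finset.induction_on with
  | empty => exact fun _ => ⟨1, Ore.const_mem (one_mem _), one_ne_zero, by simp⟩
  | insert d T _ ih =>
    intro hT
    obtain ⟨s, a1, a2, a3⟩ := Ore.den1 h (hT d (Finset.mem_insert_self _ _))
    obtain ⟨s', b1, b2, b3⟩ := ih fun e he => hT e (Finset.mem_insert_of_mem he)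
    obtain ⟨u, c1, z, c2, c3, c4⟩ := Ore.ore h a1 b1 b2
    refine ⟨u * s, Ore.mul_poly h c1 a1, mul_ne_zero c3 a2, fun e he => ?_⟩
    rcases Finset.mem_insert.1 he with rfl | he
    · rw [mul_assoc]
      exact Ore.mul_poly h c1 a3
    · rw [c4, mul_assoc]
      exact Ore.mul_poly h c2 (b3 e he)

end Pool.Agent.MP_4f4d9f_gt.Sg

end

section

/-! The projection is injective on the elements with coefficients in the division closure. -/

namespace Pool.Agent.MP_4f4d9f_gt.Sg

namespace ProjInj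

variable {G D : Type} [Group G] [DivisionRing D] {ι : G →* D}

theorem exists_rep {B : Type} [MulAction G B] (hfree : ∀ (g : G) (x : B), g • x = x → g = 1) :
    ∃ (rep : B → B) (γ : B → G), (∀ t, γ t • rep t = t) ∧ (∀ (g : G) t, rep (g • t) = rep t) ∧
      ∀ (g : G) t, γ (g • t) = g * γ t := by
  let r := MulAction.orbitRel G B
  have hrep : ∀ t : B, ∃ g : G, g • (Quotient.mk r t).out = t := fun t =>
    r.symm (Quotient.mk_out (s := r) t)
  choose γ hγ using hrep
  have hmk : ∀ (g : G) (t : B), Quotient.mk r (g • t) = Quotient.mk r t := fun g t =>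
    Quotient.sound ⟨g, rfl⟩
  refine ⟨fun t => (Quotient.mk r t).out, γ, hγ, fun g t => by simp only [hmk], fun g t => ?_⟩
  have e := hγ (g • t)
  rw [hmk] at e
  have e2 : ((g * γ t)⁻¹ * γ (g • t)) • (Quotient.mk r t).out = (Quotient.mk r t).out := by
    rw [mul_smul, e, inv_smul_eq_iff, mul_smul, hγ]
  exact (inv_mul_eq_one.1 (hfree _ _ e2)).symm

/-- The right cosets. -/
abbrev Qt (H : Subgroup G) : Type := Quotient (QuotientGroup.rightRel H)

theorem exists_sigma (h : SHF ι) (H : Subgroup G) :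
    ∃ σ : D →+ (Qt H →₀ dcl ι H), ∀ (q : Qt H) (d : dcl ι H),
      σ (d * ι q.out) = Finsupp.single q d := by
  classical
  have h1 : LinearIndependent (dcl ι H) fun q : Qt H => ι q.out := by
    refine linearIndependent_iff'.2 fun s g hs q hq => ?_
    have h2 := h H (s.image Quotient.out) (fun τ => g (Quotient.mk _ τ)) (fun τ _ => (g _).2)
      (fun τ hτ τ' hτ' e => by
        obtain ⟨a, -, rfl⟩ := Finset.mem_image.1 hτ
        obtain ⟨b, -, rfl⟩ := Finset.mem_image.1 hτ'
        have : Quotient.mk (QuotientGroup.rightRel H) b.out = Quotient.mk _ a.out :=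
          Quotient.sound (QuotientGroup.rightRel_apply.2 e)
        rw [Quotient.out_eq, Quotient.out_eq] at this
        rw [this])
      (by
        rw [Finset.sum_image fun a _ b _ e => Quotient.out_injective e]
        simp only [Quotient.out_eq]
        exact hs) q.out (Finset.mem_image_of_mem _ hq)
    simp only [Quotient.out_eq] at h2
    exact Subtype.ext h2
  obtain ⟨σ, hσ⟩ := (Finsupp.linearCombination (dcl ι H) fun q : Qt H =>
    ι q.out).exists_leftInverse_of_injective (LinearMap.ker_eq_bot.2 h1)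
  refine ⟨σ.toAddMonoidHom, fun q d => ?_⟩
  have := LinearMap.congr_fun hσ (Finsupp.single q d)
  rw [LinearMap.comp_apply, Finsupp.linearCombination_single] at this
  exact this

variable (ι) (H : Subgroup G) {B : Type} [MulAction G B]

/-- One term of the inverse map. -/
noncomputable def term (g : G) (b : B) : D →+ D →+ ZMod 2 →+ TH ι H (perm2 G B) :=
  AddMonoidHom.mk' (fun x => AddMonoidHom.mk' (fun y => AddMonoidHom.mk'
    (fun a => el ι H (perm2 G B) x (y * ι g⁻¹) (Finsupp.single (g • b) a))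
    fun a a' => by rw [Finsupp.single_add, el_add_right])
    fun y y' => AddMonoidHom.ext fun a => by
      simp only [AddMonoidHom.mk'_apply, AddMonoidHom.add_apply, add_mul, el_add_mid])
    fun x x' => AddMonoidHom.ext fun y => AddMonoidHom.ext fun a => by
      simp only [AddMonoidHom.mk'_apply, AddMonoidHom.add_apply, el_add_left]

theorem term_apply (g : G) (b : B) (x y : D) (a : ZMod 2) :
    term ι H g b x y a = el ι H (perm2 G B) x (y * ι g⁻¹) (Finsupp.single (g • b) a) := rfl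

/-- The inverse map on one orbit. -/
noncomputable def lam (σ : D →+ (Qt H →₀ dcl ι H)) (r : B) :
    DD D →+ ZMod 2 →+ TH ι H (perm2 G B) :=
  liftDD ((Finsupp.liftAddHom fun q : Qt H =>
    (term ι H q.out r).comp (dcl ι H).subtype.toAddMonoidHom).comp σ)

theorem lam_tm {σ : D →+ (Qt H →₀ dcl ι H)}
    (hσ : ∀ (q : Qt H) (d : dcl ι H), σ (d * ι q.out) = Finsupp.single q d) (r : B) (g : G)
    {d : D} (hd : d ∈ dcl ι H) (d' : D) (a : ZMod 2) :
    lam ι H σ r (tm d d' * dg ι g) a = el ι H (perm2 G B) d d' (Finsupp.single (g • r) a) := by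
  obtain ⟨q, hq⟩ : ∃ q : Qt H, g * q.out⁻¹ ∈ H :=
    ⟨Quotient.mk _ g,
      QuotientGroup.rightRel_apply.1 (Quotient.mk_out (s := QuotientGroup.rightRel H) g)⟩
  have h1 : σ (d * ι g) = Finsupp.single q ⟨d * ι (g * q.out⁻¹), mul_mem hd (iota_mem hq)⟩ := by
    rw [← hσ]
    congr 1
    rw [mul_assoc, ← map_mul, inv_mul_cancel_right]
  rw [dg_apply, tm_mul, lam, liftDD_tm, AddMonoidHom.comp_apply, h1,
    Finsupp.liftAddHom_apply_single]
  change el ι H (perm2 G B) (d * ι (g * q.out⁻¹)) (d' * ι g * ι q.out⁻¹) _ = _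
  rw [mul_assoc d', ← map_mul, ← el_rep hq, perm2_single, smul_smul, inv_mul_cancel_right]

/-- The balanced map. -/
noncomputable def beta (σ : D →+ (Qt H →₀ dcl ι H)) (rep : B → B) (γ : B → G) :
    DD D →+ (B →₀ ZMod 2) →+ TH ι H (perm2 G B) :=
  (Finsupp.liftAddHom fun b =>
    ((lam ι H σ (rep b)).comp (AddMonoidHom.mulRight (dg ι (γ b)))).flip).flip

theorem beta_single (σ : D →+ (Qt H →₀ dcl ι H)) (rep : B → B) (γ : B → G) (l : DD D) (b : B)
    (a : ZMod 2) :
    beta ι H σ rep γ l (Finsupp.single b a) = lam ι H σ (rep b) (l * dg ι (γ b)) a := by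
  rw [beta, AddMonoidHom.flip_apply, Finsupp.liftAddHom_apply_single]
  rfl

end ProjInj

open ProjInj in
theorem projInj_stmt : ProjInjStmt := by
  intro G D _ _ ι h B _ hfree H z hz h0
  obtain ⟨σ, hσ⟩ := exists_sigma h H
  obtain ⟨rep, γ, h1, h2, h3⟩ := exists_rep hfree
  have hb : ∀ l g c, beta ι H σ rep γ (l * dg ι g) c = beta ι H σ rep γ l (perm2 G B g c) := by
    intro l g c
    induction c using Finsupp.induction_linear with
    | zero => simp only [map_zero]
    | add c c' hc hc' => simp only [map_add, hc, hc']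
    | single b a => rw [perm2_single, beta_single, beta_single, h2, h3, map_mul (dg ι),
        mul_assoc]
  have key : ∀ z ∈ small ι H (perm2 G B),
      liftAdd (dg ι) (beta ι H σ rep γ) hb (projH (dg ι) H (perm2 G B) z) = z := by
    intro z hz
    induction hz using AddSubgroup.closure_induction with
    | mem z hz =>
      obtain ⟨d, hd, d', -, c, rfl⟩ := hz
      rw [el, map_smul, projH, Tens.lift_of, liftAdd_smul_of]
      change _ = el ι H (perm2 G B) d d' c
      induction c using Finsupp.induction_linear with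
      | zero => rw [map_zero, el_zero_right]
      | add c c' hc hc' => rw [map_add, el_add_right, hc, hc']
      | single b a => rw [beta_single, lam_tm ι H hσ _ _ hd, h1]
    | zero => rw [map_zero, map_zero]
    | add x y _ _ hx hy => rw [map_add, map_add, hx, hy]
    | neg x _ hx => rw [map_neg, map_neg, hx]
  rw [← key z hz, h0, map_zero]

end Pool.Agent.MP_4f4d9f_gt.Sg

end

section

/-! Unique products, the Ore condition and finite products. -/

namespace Pool.Agent.MP_4f4d9f_gt.Sg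

open Finset

namespace Small1

theorem dom_aux {Q : Type} [Group Q] (hQ : LocInd Q) (n : ℕ) : ∀ A B : Finset Q, A.Nonempty →
    B.Nonempty → A.card + B.card ≤ n → ∃ a ∈ A, ∃ b ∈ B, UniqueMul A B a b := by
  classical
  induction n with
  | zero => intro A B hA _ h; have := hA.card_pos; omega
  | succ n ih =>
  rintro A B ⟨a0, ha0⟩ ⟨b0, hb0⟩ hn
  set S : Finset Q := A.image (a0⁻¹ * ·) ∪ B.image (· * b0⁻¹) with hS
  set H := Subgroup.closure (S : Set Q) with hH
  have mA : ∀ a ∈ A, a0⁻¹ * a ∈ H := fun a ha =>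
    Subgroup.subset_closure (mem_coe.2 (mem_union_left _ (mem_image_of_mem _ ha)))
  have mB : ∀ b ∈ B, b * b0⁻¹ ∈ H := fun b hb =>
    Subgroup.subset_closure (mem_coe.2 (mem_union_right _ (mem_image_of_mem _ hb)))
  by_cases h0 : H = ⊥
  · refine ⟨a0, ha0, b0, hb0, fun a b ha hb _ => ?_⟩
    have h1 := mA a ha
    have h2 := mB b hb
    rw [h0, Subgroup.mem_bot] at h1 h2
    exact ⟨(inv_mul_eq_one.1 h1).symm, mul_inv_eq_one.1 h2⟩
  obtain ⟨φ, hφ⟩ := hQ H ⟨S, rfl⟩ h0
  let f : Q → ℤ := fun x => if h : x ∈ H then Multiplicative.toAdd (φ ⟨x, h⟩) else 0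
  have fm : ∀ x ∈ H, ∀ y ∈ H, f (x * y) = f x + f y := fun x hx y hy => by
    simp only [f, dif_pos hx, dif_pos hy, dif_pos (H.mul_mem hx hy)]
    rw [← toAdd_mul, ← map_mul]; rfl
  have f1 : f 1 = 0 := by
    have := fm 1 H.one_mem 1 H.one_mem
    rw [one_mul] at this; omega
  have hne : ∃ x ∈ S, f x ≠ 0 := by
    by_contra hc
    push Not at hc
    have key : ∀ x ∈ H, f x = 0 := by
      intro x hx
      induction hx using Subgroup.closure_induction with
      | mem x hx => exact hc x hx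
      | one => exact f1
      | mul x y hx hy h1 h2 => rw [fm x hx y hy, h1, h2, add_zero]
      | inv x hx h1 =>
        have := fm x hx x⁻¹ (H.inv_mem hx)
        rw [mul_inv_cancel, f1, h1] at this; omega
    obtain ⟨x, hx⟩ := hφ (Multiplicative.ofAdd 1)
    have := key x x.2
    simp only [f, dif_pos x.2, Subtype.coe_eta, hx, toAdd_ofAdd] at this
    omega
  obtain ⟨a1, ha1, hma⟩ := exists_max_image A (fun a => f (a0⁻¹ * a)) ⟨a0, ha0⟩
  obtain ⟨b1, hb1, hmb⟩ := exists_max_image B (fun b => f (b * b0⁻¹)) ⟨b0, hb0⟩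
  set A' := A.filter fun a => f (a0⁻¹ * a) = f (a0⁻¹ * a1) with hA'
  set B' := B.filter fun b => f (b * b0⁻¹) = f (b1 * b0⁻¹) with hB'
  have cA : A'.card ≤ A.card := card_filter_le _ _
  have cB : B'.card ≤ B.card := card_filter_le _ _
  have hlt : A'.card < A.card ∨ B'.card < B.card := by
    obtain ⟨x, hx, hx0⟩ := hne
    rcases mem_union.1 hx with h | h
    · obtain ⟨a, ha, rfl⟩ := mem_image.1 h
      refine Or.inl (card_lt_card (filter_ssubset.2 ?_))
      by_cases e : f (a0⁻¹ * a) = f (a0⁻¹ * a1)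
      · exact ⟨a0, ha0, by rw [inv_mul_cancel, f1, ← e]; exact hx0.symm⟩
      · exact ⟨a, ha, e⟩
    · obtain ⟨b, hb, rfl⟩ := mem_image.1 h
      refine Or.inr (card_lt_card (filter_ssubset.2 ?_))
      by_cases e : f (b * b0⁻¹) = f (b1 * b0⁻¹)
      · exact ⟨b0, hb0, by rw [mul_inv_cancel, f1, ← e]; exact hx0.symm⟩
      · exact ⟨b, hb, e⟩
  obtain ⟨a, ha, b, hb, hu⟩ := ih A' B' ⟨a1, mem_filter.2 ⟨ha1, rfl⟩⟩ ⟨b1, mem_filter.2 ⟨hb1, rfl⟩⟩
    (by omega)
  obtain ⟨ha, ha'⟩ := mem_filter.1 ha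
  obtain ⟨hb, hb'⟩ := mem_filter.1 hb
  refine ⟨a, ha, b, hb, fun x y hx hy e => ?_⟩
  have e1 := fm _ (mA x hx) _ (mB y hy)
  have e2 := fm _ (mA a ha) _ (mB b hb)
  have e3 : a0⁻¹ * x * (y * b0⁻¹) = a0⁻¹ * a * (b * b0⁻¹) := by
    rw [mul_assoc, ← mul_assoc x, e, mul_assoc, mul_assoc]
  have l1 := hma x hx
  have l2 := hmb y hy
  rw [e3] at e1
  exact hu (mem_filter.2 ⟨hx, by omega⟩) (mem_filter.2 ⟨hy, by omega⟩) e

theorem small_prod {Q : Type} [Group Q] [DecidableEq Q] (hQ : Folner Q Q) (T : Finset Q) :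
    ∃ F U : Finset Q, U.card < 2 * F.card ∧ ∀ q ∈ F, ∀ t ∈ T, q⁻¹ * t ∈ U := by
  obtain ⟨F, hF, h⟩ := hQ (T.image (·⁻¹)) (1 / (T.card + 1)) (by positivity)
  refine ⟨F, F.image (·⁻¹) ∪ T.biUnion fun t =>
    (F.filter fun q => t⁻¹ * q ∉ F).image fun q => q⁻¹ * t, ?_, fun q hq t ht => ?_⟩
  · have h1 : ∀ t ∈ T, (((F.filter fun q => t⁻¹ * q ∉ F).image fun q => q⁻¹ * t).card : ℝ) ≤
        1 / (T.card + 1) * F.card := fun t ht => by
      refine le_trans ?_ (h _ (mem_image_of_mem _ ht))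
      have : ({q ∈ F | t⁻¹ • q ∉ F} : Set Q) = (F.filter fun q => t⁻¹ * q ∉ F : Finset Q) := by
        ext; simp
      rw [this, Set.ncard_coe_finset]
      exact_mod_cast card_image_le
    have h2 : ((T.biUnion fun t => (F.filter fun q => t⁻¹ * q ∉ F).image
        fun q => q⁻¹ * t).card : ℝ) ≤ T.card * (1 / (T.card + 1) * F.card) := by
      refine le_trans (Nat.cast_le.2 card_biUnion_le) ?_
      rw [Nat.cast_sum]
      exact (sum_le_card_nsmul _ _ _ h1).trans_eq (nsmul_eq_mul _ _)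
    have h3 : (0 : ℝ) < F.card := by exact_mod_cast hF.card_pos
    have h4 : (T.card : ℝ) * (1 / (T.card + 1) * F.card) < F.card := by
      rw [← mul_assoc, mul_one_div]
      exact mul_lt_of_lt_one_left h3 ((div_lt_one (by positivity)).2 (lt_add_one _))
    have h5 := Nat.cast_lt.1 (h2.trans_lt h4)
    have h6 : (F.image (·⁻¹)).card ≤ F.card := card_image_le
    exact (card_union_le _ _).trans_lt (by omega)
  · by_cases e : t⁻¹ * q ∈ F
    · exact mem_union_left _ (mem_image.2 ⟨_, e, by simp⟩)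
    · exact mem_union_right _ (mem_biUnion.2 ⟨t, ht, mem_image.2 ⟨q, mem_filter.2 ⟨hq, e⟩, rfl⟩⟩)

/-- The element of the group ring with given coefficients on the inverses of `F`. -/
noncomputable def emb {Q k : Type} [Group Q] [Ring k] (F : Finset Q) (u : F → k) :
    MonoidAlgebra k Q := ∑ q : F, MonoidAlgebra.single (q : Q)⁻¹ (u q)

theorem emb_mul {Q k : Type} [Group Q] [Ring k] (F : Finset Q) (u : F → k) (a : MonoidAlgebra k Q)
    (g : Q) : (emb F u * a).coeff g = ∑ q : F, u q * a.coeff (q * g) := by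
  simp [emb, sum_mul, MonoidAlgebra.coeff_single_mul_apply]

theorem emb_inj {Q k : Type} [Group Q] [Ring k] (F : Finset Q) :
    Function.Injective (emb (k := k) F) := by
  classical
  have key : ∀ (u : F → k) (q : F), (emb F u * 1).coeff (q : Q)⁻¹ = u q := fun u q => by
    rw [emb_mul, sum_eq_single q]
    · simp [MonoidAlgebra.one_def]
    · intro p _ hp
      have : (p : Q) * (q : Q)⁻¹ ≠ 1 := fun h => hp (Subtype.ext (mul_inv_eq_one.1 h))
      rw [MonoidAlgebra.one_def, MonoidAlgebra.coeff_single, Finsupp.single_eq_of_ne this, mul_zero]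
    · simp
  intro u v h
  funext q
  rw [← key u, ← key v, h]

end Small1

open Small1

theorem dom_stmt : DomStmt := fun _ _ hQ => ⟨fun hA hB => dom_aux hQ _ _ _ hA hB le_rfl⟩

theorem tamari_stmt : TamariStmt := by
  classical
  intro Q _ hQ _ a b hb
  obtain ⟨F, U, hU, hm⟩ := small_prod hQ (a.coeff.support ∪ b.coeff.support)
  have hz : ∀ (u : F → ZMod 2) (c : MonoidAlgebra (ZMod 2) Q),
      c.coeff.support ⊆ a.coeff.support ∪ b.coeff.support → ∀ g, g ∉ U →
      (emb F u * c).coeff g = 0 := by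
    intro u c hc g hg
    rw [emb_mul]
    refine sum_eq_zero fun q _ => ?_
    have : c.coeff (q * g) = 0 := by
      by_contra h
      exact hg (by simpa using hm q q.2 _ (hc (Finsupp.mem_support_iff.2 h)))
    rw [this, mul_zero]
  obtain ⟨p, p', hne, he⟩ := Fintype.exists_ne_map_eq_of_card_lt
    (fun (p : (F → ZMod 2) × (F → ZMod 2)) (g : U) => (emb F p.1 * a - emb F p.2 * b).coeff g) (by
      simp only [Fintype.card_prod, Fintype.card_fun, ZMod.card, Fintype.card_coe]
      rw [← pow_add, ← two_mul]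
      exact Nat.pow_lt_pow_right (by norm_num) hU)
  have h1 : emb F p.1 * a - emb F p.2 * b = emb F p'.1 * a - emb F p'.2 * b := by
    refine MonoidAlgebra.coeff_inj.1 (Finsupp.ext fun g => ?_)
    by_cases hg : g ∈ U
    · exact congrFun he ⟨g, hg⟩
    · simp only [MonoidAlgebra.coeff_sub, Finsupp.sub_apply, hz _ a subset_union_left g hg,
        hz _ b subset_union_right g hg]
  have h2 : (emb F p.1 - emb F p'.1) * a = (emb F p.2 - emb F p'.2) * b := by
    rw [sub_mul, sub_mul, sub_eq_sub_iff_sub_eq_sub, h1]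
  refine ⟨_, _, fun h0 => hne ?_, h2⟩
  rw [h0, zero_mul] at h2
  exact Prod.ext (emb_inj F (sub_eq_zero.1 h0))
    (emb_inj F (sub_eq_zero.1 ((mul_eq_zero.1 h2.symm).resolve_right hb)))

theorem pi_stmt : PiStmt := by
  classical
  intro I _ Q _
  constructor
  · intro h K hK hne
    obtain ⟨⟨x, hx⟩, hx1⟩ := (Subgroup.ne_bot_iff_exists_ne_one).1 hne
    have hx2 : x ≠ 1 := fun e => hx1 (Subtype.ext e)
    obtain ⟨i, hi⟩ := Function.ne_iff.1 hx2
    obtain ⟨S, hS⟩ := hK
    obtain ⟨φ, hφ⟩ := h i (K.map (Pi.evalMonoidHom Q i))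
      ⟨S.image (Pi.evalMonoidHom Q i), by rw [coe_image, ← MonoidHom.map_closure, hS]⟩
      (fun e => hi (Subgroup.mem_bot.1 (e ▸ Subgroup.mem_map_of_mem (Pi.evalMonoidHom Q i) hx)))
    exact ⟨φ.comp ((Pi.evalMonoidHom Q i).subgroupMap K),
      hφ.comp (MonoidHom.subgroupMap_surjective _ K)⟩
  · intro h S ε hε
    choose F hF hb using fun i => h i (S.image (· i)) (ε / (Fintype.card I + 1)) (by positivity)
    refine ⟨Fintype.piFinset F, Fintype.piFinset_nonempty.2 hF, fun s hs => ?_⟩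
    let B : ∀ i, Finset (Q i) := fun i => (F i).filter fun q => s i * q ∉ F i
    have h1 : ∀ i, ((Fintype.piFinset (Function.update F i (B i))).card : ℝ) ≤
        ε / (Fintype.card I + 1) * (Fintype.piFinset F).card := fun i => by
      have e1 : ({q ∈ F i | s i • q ∉ F i} : Set (Q i)) = (B i : Finset (Q i)) := by
        ext; simp [B]
      have e2 := hb i _ (mem_image_of_mem _ hs)
      rw [e1, Set.ncard_coe_finset] at e2
      rw [Fintype.card_piFinset, Fintype.card_piFinset, ← mul_prod_erase _ _ (mem_univ i),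
        ← mul_prod_erase _ _ (mem_univ i), Function.update_self,
        prod_congr rfl fun j hj => by rw [Function.update_of_ne (ne_of_mem_erase hj)],
        Nat.cast_mul, Nat.cast_mul, ← mul_assoc]
      exact mul_le_mul_of_nonneg_right e2 (Nat.cast_nonneg _)
    have h2 : ({q ∈ Fintype.piFinset F | s • q ∉ Fintype.piFinset F} : Set (∀ i, Q i)) ⊆
        (univ.biUnion fun i => Fintype.piFinset (Function.update F i (B i)) : Finset _) := by
      rintro q ⟨q1, q2⟩
      rw [Fintype.mem_piFinset] at q1 q2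
      obtain ⟨i, hi⟩ := not_forall.1 q2
      refine mem_coe.2 (mem_biUnion.2 ⟨i, mem_univ i, Fintype.mem_piFinset.2 fun j => ?_⟩)
      by_cases e : j = i
      · subst e; rw [Function.update_self]; exact mem_filter.2 ⟨q1 j, hi⟩
      · rw [Function.update_of_ne e]; exact q1 j
    have h3 := Set.ncard_le_ncard h2 (finite_toSet _)
    rw [Set.ncard_coe_finset] at h3
    refine (Nat.cast_le.2 (h3.trans card_biUnion_le)).trans ?_
    rw [Nat.cast_sum]
    refine (sum_le_card_nsmul _ _ _ fun i _ => h1 i).trans ?_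
    rw [nsmul_eq_mul, card_univ, ← mul_assoc]
    refine mul_le_mul_of_nonneg_right ?_ (Nat.cast_nonneg _)
    rw [mul_div_assoc', div_le_iff₀ (by positivity)]
    nlinarith

end Pool.Agent.MP_4f4d9f_gt.Sg

end

section

/-! The Thom cochain of the diagonal. -/

namespace Pool.Agent.MP_4f4d9f_gt.Sg

open Finsupp Tup

namespace Theta

section Basic

variable {X : Type} [TopologicalSpace X]

theorem self2 (u : BSeq X) : u + u = 0 := funext fun i => add_self2 (u i)

/-- The Borel differential as a linear map. -/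
noncomputable def BL : BSeq X →ₗ[F2] BSeq X where
  toFun := BD
  map_add' u v := funext (BD_add u v)
  map_smul' r u := funext fun i => by simp [BD]

theorem BL_apply (u : BSeq X) (i : ℕ) : BL u i = BD u i := rfl

variable (X) in
/-- Sequences that are off the diagonal below degree `j`. -/
noncomputable def Off (j : ℕ) : Submodule F2 (BSeq X) :=
  Submodule.pi {i | i < j} fun i => supp F2 (offDiag X) i

theorem mem_Off {j : ℕ} {u : BSeq X} : u ∈ Off X j ↔ ∀ i < j, u i ∈ supp F2 (offDiag X) i :=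
  Iff.rfl

theorem mem_NB {k : ℕ} (c : Sing (X × X) k →₀ F2) : c ∈ supp F2 (NB (Set.univ : Set X)) k :=
  mem_supp.2 fun _ _ _ _ => trivial

variable {n : ℕ}

theorem pp_low (hP : PP n (Set.univ : Set X)) {j : ℕ} (hj : j < n) {u : BSeq X}
    (hu : BL u ∈ Off X j) : ∃ b, u + BL b ∈ Off X (j + 1) := by
  obtain ⟨b, -, hb⟩ := hP.low j hj u ⟨fun _ _ => mem_NB _, hu⟩
  exact ⟨b, fun i hi => hb i (Nat.lt_succ_iff.1 hi)⟩

/-- The Thom class of `u` is `s`. -/
def TT (n : ℕ) (u : BSeq X) (s : F2) : Prop :=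
  ∃ a b, aug F2 X a = s ∧ u + theta a + BL b ∈ Off X (n + 1)

theorem theta_add' (a b : Sing X 0 →₀ F2) : theta (a + b) = theta a + theta b :=
  funext (theta_add a b)

theorem theta_zero' : theta (0 : Sing X 0 →₀ F2) = 0 := funext theta_zero

theorem TT_ex (hP : PP n (Set.univ : Set X)) {u : BSeq X} (hu : BL u ∈ Off X n) :
    ∃ s, TT n u s := by
  obtain ⟨a, -, b, -, hb⟩ := hP.top u ⟨fun _ _ => mem_NB _, hu⟩
  exact ⟨_, a, b, rfl, fun i hi => hb i (Nat.lt_succ_iff.1 hi)⟩

theorem TT_add {u v : BSeq X} {s t : F2} (h : TT n u s) (h' : TT n v t) :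
    TT n (u + v) (s + t) := by
  obtain ⟨a, b, rfl, h⟩ := h
  obtain ⟨a', b', rfl, h'⟩ := h'
  refine ⟨a + a', b + b', map_add _ _ _, ?_⟩
  convert add_mem h h' using 1
  rw [theta_add', map_add]
  abel

theorem TT_uniq (hP : PP n (Set.univ : Set X)) {u : BSeq X} {s t : F2} (h : TT n u s)
    (h' : TT n u t) : s = t := by
  obtain ⟨a, b, e, hb⟩ := TT_add h h'
  rw [self2, zero_add] at hb
  rw [hP.odd a (mem_supp_univ _)
    ⟨b, fun _ _ => mem_NB _, fun i hi => hb i (Nat.lt_succ_iff.2 hi)⟩] at e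
  exact CharTwo.add_eq_zero.1 e.symm

theorem TT_off {u : BSeq X} (hu : u ∈ Off X (n + 1)) : TT n u 0 :=
  ⟨0, 0, map_zero _, by rwa [theta_zero', map_zero, add_zero, add_zero]⟩

theorem TT_BL (w : BSeq X) : TT n (BL w) 0 :=
  ⟨0, w, map_zero _, by rw [theta_zero', add_zero, self2]; exact zero_mem _⟩

theorem TT_theta (a : Sing X 0 →₀ F2) : TT n (theta a) (aug F2 X a) :=
  ⟨a, 0, rfl, by rw [self2, map_zero, add_zero]; exact zero_mem _⟩

end Basic

variable {G X : Type} [Group G] [TopologicalSpace X] [MulAction G X] [ContinuousConstSMul G X]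

variable (X) in
/-- The action of a pair of group elements. -/
def mv2 (g h : G) : C(X × X, X × X) :=
  ⟨Prod.map (g • ·) (h • ·), (continuous_const_smul g).prodMap (continuous_const_smul h)⟩

/-- The diagonal action on sequences of chains. -/
noncomputable def act (g : G) : BSeq X →ₗ[F2] BSeq X :=
  LinearMap.pi fun i => push F2 (mv2 X g g) i ∘ₗ LinearMap.proj i

theorem act_apply (g : G) (u : BSeq X) (i : ℕ) : act g u i = push F2 (mv2 X g g) i (u i) := rfl

theorem act_act (g h : G) (u : BSeq X) : act g (act h u) = act (g * h) u := by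
  funext i
  rw [act_apply, act_apply, act_apply, push_push]
  congr 2
  ext p <;> simp [mv2, mul_smul]

theorem act_BL (g : G) (u : BSeq X) : act g (BL u) = BL (act g u) := by
  funext i
  simp only [act_apply, BL_apply, BD, map_add, bd_push, swp, push_push]
  rfl

theorem act_theta (g : G) (a : Sing X 0 →₀ F2) :
    act g (theta a) = theta (push F2 ⟨(g • ·), continuous_const_smul g⟩ 0 a) := by
  funext i
  cases i with
  | zero =>
    simp only [act_apply, theta, push_push]
    rfl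
  | succ i => simp [act_apply, theta]

theorem act_off (g : G) {j : ℕ} {u : BSeq X} (hu : u ∈ Off X j) : act g u ∈ Off X j :=
  fun i hi => push_mem_supp (A := offDiag X) (B := offDiag X) _
    (fun _ hp e => hp (smul_left_cancel g e)) (hu i hi)

theorem TT_act {n : ℕ} (g : G) {u : BSeq X} {s : F2} (h : TT n u s) : TT n (act g u) s := by
  obtain ⟨a, b, rfl, h⟩ := h
  refine ⟨push F2 ⟨(g • ·), continuous_const_smul g⟩ 0 a, act g b, aug_push _ _ _, ?_⟩
  rw [← act_theta, ← act_BL, ← map_add, ← map_add]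
  exact act_off g h

/-- The Borel differential on cells. -/
noncomputable def Dc : (Cell G →₀ F2) →ₗ[F2] (Cell G →₀ F2) := cb + LinearMap.id + cs

omit [Group G] in
theorem Dc_apply (r : Cell G →₀ F2) : Dc r = cb r + r + cs r := rfl

omit [Group G] in
theorem Dc_Dc (r : Cell G →₀ F2) : Dc (Dc r) = 0 := by
  simp only [Dc_apply, map_add, cb_cb, cb_cs, cs_cs]
  ext e
  simp only [Finsupp.add_apply, Finsupp.zero_apply]
  grind

theorem Dc_smul (g : G) (r : Cell G →₀ F2) :
    Dc (r.mapDomain (g • ·)) = (Dc r).mapDomain (g • ·) := by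
  simp only [Dc_apply, cb_smul, cs_smul, mapDomain_add]

variable {x₀ : X} {ψ : (i : ℕ) → (Cell G →₀ F2) →ₗ[F2] (Sing (X × X) i →₀ F2)}

theorem BL_Ps (hψ : Psi x₀ ψ) (r : Cell G →₀ F2) :
    BL (LinearMap.pi ψ r) = LinearMap.pi ψ (Dc r) := by
  funext i
  simp only [BL_apply, BD, LinearMap.pi_apply, hψ.bd, hψ.swp, Dc_apply, map_add]

/-- The corrected chain map. -/
noncomputable def UU (ψ : (i : ℕ) → (Cell G →₀ F2) →ₗ[F2] (Sing (X × X) i →₀ F2))
    (h : Cell G → BSeq X) : (Cell G →₀ F2) →ₗ[F2] BSeq X :=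
  LinearMap.pi ψ + linearCombination F2 h ∘ₗ Dc

omit [Group G] [MulAction G X] [ContinuousConstSMul G X] in
theorem UU_apply (h : Cell G → BSeq X) (r : Cell G →₀ F2) :
    UU ψ h r = LinearMap.pi ψ r + linearCombination F2 h (Dc r) := rfl

omit [Group G] [MulAction G X] [ContinuousConstSMul G X] in
theorem UU_Dc (h : Cell G → BSeq X) (r : Cell G →₀ F2) :
    UU ψ h (Dc r) = LinearMap.pi ψ (Dc r) := by
  rw [UU_apply, Dc_Dc, map_zero, add_zero]

/-- The inductive hypothesis. -/
structure Good (ψ : (i : ℕ) → (Cell G →₀ F2) →ₗ[F2] (Sing (X × X) i →₀ F2)) (j : ℕ)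
    (h : Cell G → BSeq X) : Prop where
  deg : ∀ c, j ≤ cdeg c → h c = 0
  cyc : ∀ r, BL (UU ψ h r) ∈ Off X j
  eqv : ∀ (g : G) c, h (g • c) = act g (h c)
  fin : ∀ x y : Tup G, {g : G | h (x, g • y) ≠ 0}.Finite

variable {j : ℕ} {h : Cell G → BSeq X}

theorem UU_smul (hψ : Psi x₀ ψ) (hg : Good ψ j h) (g : G) (c : Cell G) :
    UU ψ h (single (g • c) 1) = act g (UU ψ h (single c 1)) := by
  have h1 : ∀ r : Cell G →₀ F2, linearCombination F2 h (r.mapDomain (g • ·)) =
      act g (linearCombination F2 h r) := by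
    intro r
    induction r using induction2 with
    | h0 => simp
    | hadd x y hx hy => simp only [mapDomain_add, map_add, hx, hy]
    | h1 b => simp only [mapDomain_single, linearCombination_single, one_smul, hg.eqv]
  rw [UU_apply, UU_apply, map_add, ← h1, ← Dc_smul, mapDomain_single]
  congr 1
  funext i
  exact hψ.eqv i g g c.1 c.2

theorem fact1 (hψ : Psi x₀ ψ) (hg : Good ψ j h) {c : Cell G} (hc : j < cdeg c) :
    UU ψ h (single c 1) ∈ Off X (j + 1) := by
  have h1 : linearCombination F2 h (cb (single c 1)) = 0 := by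
    rw [linearCombination_apply, Finsupp.sum]
    refine Finset.sum_eq_zero fun e he => ?_
    have := cdeg_of_mem_cb he
    rw [hg.deg e (by omega), smul_zero]
  have h2 : h c.swap = 0 := hg.deg _ (by
    have : cdeg c.swap = cdeg c := add_comm _ _
    omega)
  rw [UU_apply, Dc_apply, map_add, map_add, h1, cs_single, linearCombination_single,
    linearCombination_single, hg.deg c hc.le, h2, smul_zero, add_zero, add_zero, add_zero]
  intro i hi
  have hi' : i < j + 1 := hi
  rw [LinearMap.pi_apply, hψ.deg i c (by omega)]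
  exact zero_mem _

theorem fact2 (hp : ∀ K : Set X, IsCompact K → {g : G | ((g • ·) '' K ∩ K).Nonempty}.Finite)
    (hψ : Psi x₀ ψ) (hg : Good ψ j h) (m : ℕ) (x y : Tup G) :
    {g : G | UU ψ h (single (x, g • y) 1) ∉ Off X m}.Finite := by
  have h1 : ∀ i, {g : G | ψ i (single (x, g • y) 1) ∉ supp F2 (offDiag X) i}.Finite := by
    intro i
    obtain ⟨K, hK, -, hc⟩ := exists_compact_supp (mem_supp_univ (ψ i (single (x, y) 1)))
    refine (hp (Prod.fst '' K ∪ Prod.snd '' K)
      ((hK.image continuous_fst).union (hK.image continuous_snd))).subset fun g hg => ?_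
    by_contra hne
    refine hg ?_
    have e := hψ.eqv i 1 g x y
    rw [one_smul] at e
    rw [e]
    refine push_mem_supp (B := offDiag X) _ (fun p hp e => hne ⟨p.1, ⟨p.2, Or.inr ⟨p, hp, rfl⟩, ?_⟩,
      Or.inl ⟨p, hp, rfl⟩⟩) hc
    have e' : (1 : G) • p.1 = g • p.2 := e
    rw [one_smul] at e'
    exact e'.symm
  have h2 : ∀ r : Cell G →₀ F2, {g : G | linearCombination F2 h
      (r.mapDomain (Prod.map ((1 : G) • ·) (g • ·))) ≠ 0}.Finite := by
    intro r
    induction r using induction2 with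
    | h0 => simp
    | hadd a b ha hb =>
      refine (ha.union hb).subset fun g hg => ?_
      by_contra hne
      simp only [Set.mem_union, Set.mem_ofPred_eq, not_or, not_not] at hne
      exact hg (by rw [mapDomain_add, map_add, hne.1, hne.2, add_zero])
    | h1 b => simpa [Prod.map] using hg.fin b.1 b.2
  have h3 : {g : G | h (g • y, x) ≠ 0}.Finite := by
    refine ((hg.fin y x).preimage (f := fun g : G => g⁻¹) inv_injective.injOn).subset
      fun g hg' e => hg' ?_
    have e' : (g • y, x) = g • (y, g⁻¹ • x) := by simp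
    rw [e', hg.eqv, e, map_zero]
  refine ((((Set.finite_lt_nat m).biUnion fun i _ => h1 i).union
    (h2 (cb (single (x, y) 1)))).union ((hg.fin x y).union h3)).subset fun g hg' => ?_
  by_contra hne
  simp only [Set.mem_union, Set.mem_iUnion, Set.mem_ofPred_eq, not_or, not_not, not_exists]
    at hne
  obtain ⟨⟨e1, e2⟩, e3, e4⟩ := hne
  refine hg' ?_
  rw [← cb_smul2, mapDomain_single, Prod.map_apply, one_smul] at e2
  rw [UU_apply, Dc_apply, map_add, map_add, e2, cs_single, linearCombination_single,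
    linearCombination_single, e3, Prod.swap_prod_mk, e4, smul_zero, add_zero, add_zero, add_zero]
  exact e1

theorem step {n : ℕ}
    (hp : ∀ K : Set X, IsCompact K → {g : G | ((g • ·) '' K ∩ K).Nonempty}.Finite)
    (hP : PP n (Set.univ : Set X)) (hψ : Psi x₀ ψ) (hj : j < n) (hg : Good ψ j h) :
    ∃ h', Good ψ (j + 1) h' := by
  have hex : ∀ c : Cell G, ∃ b, UU ψ h (single c 1) + BL b ∈ Off X (j + 1) ∧
      (UU ψ h (single c 1) ∈ Off X (j + 1) → b = 0) := by
    intro c
    by_cases hc : UU ψ h (single c 1) ∈ Off X (j + 1)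
    · exact ⟨0, by rwa [map_zero, add_zero], fun _ => rfl⟩
    · obtain ⟨b, hb⟩ := pp_low hP hj (hg.cyc (single c 1))
      exact ⟨b, hb, fun h' => absurd h' hc⟩
  choose b hb hb0 using hex
  let h' : Cell G → BSeq X := fun c => act c.1.hd (b (c.1.hd⁻¹ • c))
  have h0 : ∀ c, UU ψ h (single c 1) ∈ Off X (j + 1) → h' c = 0 := by
    intro c hc
    simp only [h']
    rw [hb0 _ (by rw [UU_smul hψ hg]; exact act_off _ hc), map_zero]
  have key : ∀ r, UU ψ h r + BL (linearCombination F2 h' r) ∈ Off X (j + 1) := by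
    intro r
    induction r using induction2 with
    | h0 => simp
    | hadd x y hx hy =>
      rw [map_add, map_add, map_add, add_add_add_comm]
      exact add_mem hx hy
    | h1 c =>
      have := act_off c.1.hd (hb (c.1.hd⁻¹ • c))
      rwa [map_add, ← UU_smul hψ hg, smul_inv_smul, act_BL,
        ← one_smul F2 (act c.1.hd (b (c.1.hd⁻¹ • c))), ← linearCombination_single F2 (v := h')]
        at this
  refine ⟨h', fun c hc => h0 c (fact1 hψ hg hc), fun r => ?_, fun g c => ?_, fun x y => ?_⟩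
  · rw [UU_apply, map_add, BL_Ps hψ, ← UU_Dc h]
    exact key _
  · simp only [h', act_act, Prod.smul_fst, smul_hd, smul_smul, mul_inv_rev,
      inv_mul_cancel_right]
  · exact (fact2 hp hψ hg (j + 1) x y).subset fun g hg' e => hg' (h0 _ e)

end Theta

open Theta in
theorem theta_stmt : ThetaStmt := by
  intro G X _ _ _ _ n hp hP x₀ ψ hψ
  have hex : ∀ j ≤ n, ∃ h, Good ψ j h := by
    intro j
    induction j with
    | zero =>
      exact fun _ => ⟨0, fun _ _ => rfl, fun _ i hi => absurd hi (Nat.not_lt_zero i),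
        fun _ _ => (map_zero _).symm, fun _ _ => by simp⟩
    | succ j ih =>
      intro hj
      obtain ⟨h, hg⟩ := ih (by omega)
      exact step hp hP hψ hj hg
  obtain ⟨h, hg⟩ := hex n le_rfl
  choose θ hθ using fun c : Cell G => TT_ex hP (hg.cyc (single c 1))
  have key : ∀ r, TT n (UU ψ h r) (linearCombination F2 θ r) := by
    intro r
    induction r using induction2 with
    | h0 => rw [map_zero, map_zero]; exact TT_off (zero_mem _)
    | hadd x y hx hy => rw [map_add, map_add]; exact TT_add hx hy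
    | h1 c => rw [linearCombination_single, one_smul]; exact hθ c
  refine ⟨θ, fun g x y => ?_, fun x y => ?_, fun c => ?_, fun c hc => ?_, ?_⟩
  · refine TT_uniq hP (hθ (g • (x, y))) ?_
    rw [UU_smul hψ hg]
    exact TT_act g (hθ _)
  · exact (fact2 hp hψ hg (n + 1) x y).subset fun g hg' e => hg' (TT_uniq hP (hθ _) (TT_off e))
  · have h1 := key (Dc (single c 1))
    rw [UU_Dc, ← BL_Ps hψ] at h1
    have h2 := TT_uniq hP h1 (TT_BL _)
    rw [Dc_apply, map_add, map_add, cs_single, linearCombination_single, linearCombination_single,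
      one_smul, one_smul, add_assoc] at h2
    exact CharTwo.add_eq_zero.1 h2
  · exact TT_uniq hP (hθ c) (TT_off (fact1 hψ hg hc))
  · have e1 : Dc (single ((pt 1, pt 1) : Cell G) 1) = 0 := by
      rw [Dc_apply, cs_single, Prod.swap_prod_mk, add_assoc, add_self2, add_zero, cb,
        linearCombination_single]
      simp [bdT_pt]
    have e2 : UU ψ h (single (pt 1, pt 1) 1) = theta (single (ContinuousMap.const _ x₀) 1) := by
      rw [UU_apply, e1, map_zero, add_zero]
      funext i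
      cases i with
      | zero =>
        rw [LinearMap.pi_apply, hψ.base, theta, push_single]
        rfl
      | succ i => exact hψ.deg _ _ (Nat.succ_ne_zero i).symm
    have h1 := hθ (pt 1, pt 1)
    rw [e2] at h1
    rw [TT_uniq hP h1 (TT_theta _), aug_single]

end Pool.Agent.MP_4f4d9f_gt.Sg

end

section

/-! The assembly. -/

namespace Pool.Agent.MP_4f4d9f_gt.Sg

/-- Weakly Hughes-free division rings generated by the group are flat. -/
theorem flat_of_whf {G D : Type} [Group G] [DivisionRing D] [CharP D 2] (ι : G →* D)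
    (h : WHF ι) (h' : dcl ι ⊤ = ⊤) : Flat ι :=
  flat_stmt G D ι (flatInj_stmt ore_stmt expn_stmt expand_stmt
    (coset_stmt ore_stmt expn_stmt expand_stmt) projInj_stmt kappa_stmt G D ι h h')

theorem pp_univ {n : ℕ} {C : Set (EuclideanSpace ℝ (Fin n))} (hC : Convex ℝ C)
    (hC' : (interior C).Nonempty) {X : Type} [TopologicalSpace X] [T2Space X]
    (hch : ∀ x : X, ∃ e : OpenPartialHomeomorph X C, x ∈ e.source) :
    PP n (Set.univ : Set X) := by
  refine pp_of_basis (ℬ := {U | IsOpen U ∧ ∃ e : OpenPartialHomeomorph X C, U ⊆ e.source})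
    (fun U hU => hU.1) (fun U hU V hV => ⟨hU.1.inter hV.1, hU.2.imp fun e he =>
      Set.inter_subset_left.trans he⟩)
    (fun U hU => hU.2.elim fun e he => pp_chart hC hC' e hU.1 he) fun x _ => ?_
  obtain ⟨e, he⟩ := hch x
  exact ⟨e.source, ⟨e.open_source, e, subset_rfl⟩, he, Set.subset_univ _⟩

/-- Torsion passes to directed unions of subgroups. -/
theorem torsAt_of_directed {H N : Type} [Group H] [Ring N] (ι : H →* N) {C : ℕ → Type}
    [∀ k, AddCommGroup (C k)] (ρ : ∀ k, Representation ℤ H (C k))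
    (d : ∀ k, C (k + 1) →ₗ[ℤ] C k) (hd : ∀ k, Eqv (ρ (k + 1)) (ρ k) (d k)) (k : ℕ)
    (h : ∀ T : Finset H, ∃ K : Subgroup H, (∀ t ∈ T, t ∈ K) ∧
      TorsAt (ι.comp K.subtype) (fun k => (ρ k).comp K.subtype) d (fun k g => hd k g) k) :
    TorsAt ι ρ d hd k := by
  intro z hz
  obtain ⟨x, rfl⟩ := Submodule.Quotient.mk_surjective _ z
  have h1 : (d k).baseChange N x ∈ tensRel ι (ρ k) := (Submodule.Quotient.mk_eq_zero _).1 hz
  obtain ⟨T, hT⟩ := CompQ.tensRel_fin ι (ρ k) h1
  obtain ⟨K, hK, hE⟩ := h T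
  obtain ⟨s, hs, w, hw⟩ :=
    hE (Submodule.Quotient.mk x) ((Submodule.Quotient.mk_eq_zero _).2 (hT K hK))
  obtain ⟨y, rfl⟩ := Submodule.Quotient.mk_surjective _ w
  exact ⟨s, hs, Submodule.Quotient.mk y, (Submodule.Quotient.eq _).2
    (CompQ.tensRel_le ι _ K ((Submodule.Quotient.eq _).1 hw))⟩

section Top

variable {n : ℕ} {C : Set (EuclideanSpace ℝ (Fin n))} {M : Type} [TopologicalSpace M] [T2Space M]
  [ChartedSpace C M] {X : Type} [TopologicalSpace X] [ContractibleSpace X]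
  {G : Type} [Group G] [MulAction G X] [ContinuousConstSMul G X] {p : X → M}

/-- The Thom cochain for a subgroup of the deck group. -/
theorem exists_thom (hC : Convex ℝ C) (hC' : (interior C).Nonempty)
    (hp : IsQuotientCoveringMap p G) {K : Type} [Group K] (j : K →* G)
    (hj : Function.Injective j) : ∃ θ : Cell K → F2, Thom n θ := by
  have := t2_of_cover hp
  letI : MulAction K X := MulAction.compHom X j
  have : ContinuousConstSMul K X := ⟨fun g => continuous_const_smul (j g)⟩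
  obtain ⟨x₀, ψ, hψ⟩ := psi_stmt K X
  exact theta_stmt K X n (fun L hL => Set.Finite.preimage (f := j) hj.injOn
    (proper_of_cover hp L hL)) (pp_univ hC hC' (chart_of_cover hp)) x₀ ψ hψ

/-- Homology with coefficients in a weakly Hughes-free division ring of characteristic two
vanishes above the middle dimension. -/
theorem exactAt_of_whf (hC : Convex ℝ C) (hC' : (interior C).Nonempty)
    (hp : IsQuotientCoveringMap p G) {K : Type} [Group K] (j : K →* G)
    (hj : Function.Injective j) {D : Type} [DivisionRing D] [CharP D 2] (ι : K →* D)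
    (h : WHF ι) (h' : dcl ι ⊤ = ⊤) {k : ℕ} (hk : n < 2 * (k + 1))
    {A : ℕ → Type} [∀ k, AddCommGroup (A k)] {ρ : ∀ k, Representation ℤ K (A k)}
    {d : ∀ k, A (k + 1) →ₗ[ℤ] A k} {ε : A 0 →ₗ[ℤ] ℤ} (R : IsRes ρ d ε) :
    ExactAt ι ρ d R.eqv_d k := by
  obtain ⟨θ, hθ⟩ := exists_thom hC hC' hp j hj
  exact bar_stmt K D ι k (smith_stmt (cap_stmt (om_stmt aw_stmt)) K D ι n θ hθ h
    (flat_of_whf ι h h') (k + 1) hk) A ρ d ε R

/-- The group level statement: the homology of `K` with coefficients in a group von Neumann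
algebra is torsion above the middle dimension. -/
theorem torsAt_of_resLIA (hC : Convex ℝ C) (hC' : (interior C).Nonempty)
    (hp : IsQuotientCoveringMap p G) {K : Type} [Group K] (j : K →* G)
    (hj : Function.Injective j) (hK : ResLIA K) {k : ℕ} (hF : FinRes K (k + 1))
    (hk : n < 2 * (k + 1)) {G' E : Type} [Group G'] [NormedAddCommGroup E]
    [InnerProductSpace ℂ E] (b : HilbertBasis G' ℂ E) (ι : G' →* vnAlg b)
    (hι : ∀ g h, (ι g).1 (b h) = b (g * h)) (j' : K →* G') (hj' : Function.Injective j')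
    {A : ℕ → Type} [∀ k, AddCommGroup (A k)] {ρ : ∀ k, Representation ℤ K (A k)}
    {d : ∀ k, A (k + 1) →ₗ[ℤ] A k} {ε : A 0 →ₗ[ℤ] ℤ} (R : IsRes ρ d ε) :
    TorsAt (ι.comp j') ρ d R.eqv_d k := by
  obtain ⟨D₀, _, ι₀, h1, h2, h3⟩ := ultra_stmt dom_stmt tamari_stmt pi_stmt loc_stmt K hK
  obtain ⟨D, _, ιD, hc, hw, ha, hd⟩ := gen_stmt K D₀ ι₀ h1 h2 h3
  obtain ⟨A', _, ρ', d', ε', R', hfg⟩ := res_stmt K (k + 1) hF
  refine R.torsAt _ R' (tors_stmt rank_stmt K D _ ιD (ι.comp j') (fun m B hB => ?_) A' ρ' d' ε' R'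
    k hfg (exactAt_of_whf hC hC' hp j hj ιD hw hd hk R'))
  exact reg_stmt G' E b m _
    (opInj_stmt G' E b ι hι K j' hj' m B (mom_stmt det_stmt K m B (ha m B hB)))

theorem bettiSucc_eq_zero_of_folner_tors {E : Type} [NormedAddCommGroup E]
    [InnerProductSpace ℂ E] {b : HilbertBasis G ℂ E} {ι : G →* vnAlg b}
    (hι : ∀ g h, (ι g).1 (b h) = b (g * h)) {H : Subgroup G} (hH : Folner G (G ⧸ H))
    (hp : IsQuotientCoveringMap p G) {k : ℕ}
    (h : TorsAt (ι.comp H.subtype) (fun k => (permRep G (Sing X k)).comp H.subtype) (bd ℤ X)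
      (fun k g c => bd_smul G X k (H.subtype g) c) k) : bettiSucc b ι X k = 0 :=
  homDim_eq_zero_of_folner_tors hι hH (B := Sing X k)
    (fun g σ e => by
      have := hp.isCancelSMul
      have h' : g • σ (Classical.arbitrary _) = σ (Classical.arbitrary _) :=
        congrArg (fun τ : Sing X k => τ (Classical.arbitrary _)) e
      exact IsCancelSMul.right_cancel g 1 _ (h'.trans (one_smul _ _).symm))
    (bd ℤ X (k + 1)) (bd_smul G X (k + 1)) (bd ℤ X k) (bd_smul G X k) h

theorem main_resLIA (hC : Convex ℝ C) (hC' : (interior C).Nonempty)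
    (hp : IsQuotientCoveringMap p G) (H : Subgroup G) (hH : Folner G (G ⧸ H)) (k : ℕ)
    (hK : ∀ T : Finset H, ∃ K : Subgroup H, (∀ t ∈ T, t ∈ K) ∧ ResLIA K ∧ FinRes K (k + 1))
    {E : Type} [NormedAddCommGroup E] [InnerProductSpace ℂ E]
    (b : HilbertBasis G ℂ E) (ι : G →* vnAlg b) (hι : ∀ g h, (ι g).1 (b h) = b (g * h))
    (hk : n < 2 * (k + 1)) : bettiSucc b ι X k = 0 := by
  refine bettiSucc_eq_zero_of_folner_tors hι hH hp (torsAt_of_directed _ _ _ _ k fun T => ?_)
  obtain ⟨K, hT, h1, h2⟩ := hK T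
  have hj : Function.Injective (H.subtype.comp K.subtype) :=
    H.subtype_injective.comp K.subtype_injective
  exact ⟨K, hT, torsAt_of_resLIA hC hC' hp _ hj h1 h2 hk b ι hι _ hj (isRes_sing hp _ hj)⟩

end Top

end Pool.Agent.MP_4f4d9f_gt.Sg

end
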