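import Pool.Agent.Mg.F4f4d9fr.G715938
import Pool.Agent.Mg.F4f4d9fr.Gf2687c
import Pool.Agent.Mg.F4f4d9fr.G55b66f
import Pool.Agent.Mg.F4f4d9fr.G787eb1

set_option linter.all false

section

/-! The assembly of the doubling inequality from the statements of the parts. -/

open scoped Matrix

namespace Pool.Agent.MP_4f4d9f_gt.Db

open Finsupp Sg

theorem two_reg {G E : Type} [Group G] [NormedAddCommGroup E] [InnerProductSpace ℂ E]
    (b : HilbertBasis G ℂ E) : IsLeftRegular (2 : vnAlg b) := by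
  have := vnAlg_intCast (b := b) 2 two_ne_zero
  rwa [Int.cast_two] at this

theorem bar_free {H : Type} [Group H] (k : ℕ) (g : H) (β : Bar.BT H k) (h : g • β = β) : g = 1 :=
  Tup.free g β.1 (congrArg Subtype.val h)

/-- The bar resolution restricted along an injective homomorphism. -/
theorem isRes_bar {H K : Type} [Group H] [Group K] (Φ : K →* H) (hΦ : Function.Injective Φ) :
    IsRes (fun k => (permRep H (Bar.BT H k)).comp Φ) (fun k => Bar.dB (G := H) k) Bar.eB :=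
  have R := Bar.isRes H
  ⟨fun k g c => R.eqv_d k (Φ g) c, fun g c => R.eqv_ε (Φ g) c, R.ε_d, R.d_d, R.surj,
    R.exact_zero, R.exact_succ, fun k => proj_free Φ hΦ (bar_free k)⟩

theorem flip_refl {H D : Type} [Group H] [MulAction H D] {J : ℕ → Type} {lJ : ∀ j, J j → D}
    {dJ : ∀ j, Ch H (J (j + 1)) →ₗ[ℤ] Ch H (J j)} (R : LabRes H lJ dJ) {σ : D → H}
    (h1 : ∀ (h : H) x, σ (h • x) = h * σ x * h⁻¹) (h2 : ∀ x, σ x * σ x = 1) :
    Flip H (fun x => σ x • x) lJ dJ fun j β => σ (lb (lJ j) β) • β where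
  eqv j g β := by rw [lb_smul, h1, smul_smul, smul_smul, inv_mul_cancel_right]
  inv j β := by rw [lb_smul, h1, mul_inv_cancel_right, smul_smul, h2, one_smul]
  lab j β := lb_smul _ _ _
  comm j c := by
    refine LinearMap.congr_fun (f := dJ j ∘ₗ lmapDomain ℤ ℤ _) (g := lmapDomain ℤ ℤ _ ∘ₗ dJ j)
      (ch_ext fun β => ?_) c
    simp only [LinearMap.comp_apply, lmapDomain_apply, mapDomain_single]
    rw [← permRep_single, R.eqv, permRep_apply]
    exact mapDomain_congr fun β' hβ' => by rw [R.loc j β β' hβ']; rfl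

theorem tor_tree (hA : ConcStmt) (hM : MatStmt) (hT : TransStmt) (hMo : ModelStmt)
    (hD : DictStmt) (hR : Res2Stmt) (hTo : TotStmt) (hC : ConeStmt) (hLV : LabVStmt)
    (hLD : LabDStmt) (hL : LiftStmt) (hU : UpStmt) (hTr : TreeStmt) (hG : GammaStmt)
    (hS : ShapStmt) {G V : Type} [Group G] [MulAction G V] (T : SimpleGraph V) (hT' : T.IsTree)
    (adj : ∀ (g : G) v w, T.Adj v w → T.Adj (g • v) (g • w))
    (inv : ∀ (g : G) v w, T.Adj v w → g • v = w → g • w ≠ v)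
    (S : Finset V) (finV : ∀ v : V, ∃ g : G, g • v ∈ S)
    (finE : ∀ v w, T.Adj v w → ∃ g : G, g • v ∈ S ∧ g • w ∈ S) {k : ℕ}
    (fpV : ∀ v : V, FP (MulAction.stabilizer G v) (k + 1 + 1))
    (fpE : ∀ v w, T.Adj v w →
      FP (MulAction.stabilizer G v ⊓ MulAction.stabilizer G w : Subgroup G) (k + 1))
    (h : ∀ v, Tor (Refl G T v) k) : Tor G k := by
  intro G' E' _ _ _ b' ι' hι' j' hj' C _ ρ d ε R
  have : CompleteSpace E' := b'.repr.toIsometryEquiv.completeSpace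
  obtain ⟨D, _, o, bar, hDa, hF, hCut⟩ := hTr G V T hT' adj
  have cD : Cofin G D := by
    have hf : {x : D | o x ∈ S ∧ o (bar x) ∈ S}.Finite :=
      Set.Finite.of_finite_image (f := fun x => (o x, o (bar x)))
        ((S.finite_toSet.prod S.finite_toSet).subset (by rintro _ ⟨x, hx, rfl⟩; exact hx))
        fun x _ x' _ e => hDa.ext x x' (congrArg Prod.fst e) (congrArg Prod.snd e)
    refine ⟨hf.toFinset, fun x => ?_⟩
    obtain ⟨g, hg⟩ := finE _ _ (hDa.adj x)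
    exact ⟨g, hf.mem_toFinset.2 (by rwa [Set.mem_ofPred_eq, hDa.bar_eqv, hDa.o_eqv, hDa.o_eqv])⟩
  have fD : ∀ x : D, FP (MulAction.stabilizer G x) (k + 1) := fun x => by
    have e : MulAction.stabilizer G x =
        MulAction.stabilizer G (o x) ⊓ MulAction.stabilizer G (o (bar x)) := by
      ext g
      simp only [MulAction.mem_stabilizer_iff, Subgroup.mem_inf, ← hDa.o_eqv, ← hDa.bar_eqv]
      exact ⟨fun e => by rw [e]; exact ⟨rfl, rfl⟩, fun e => hDa.ext _ _ e.1 e.2⟩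
    rw [e]
    exact fpE _ _ (hDa.adj x)
  have nD : ∀ (g : G) x, g • x ≠ bar x := fun g x e =>
    inv g _ _ (hDa.adj x) (by rw [← hDa.o_eqv, e])
      (by rw [← hDa.o_eqv, ← hDa.bar_eqv, e, hDa.inv])
  obtain ⟨I, lI, dI, rI, fI⟩ := hLV G V _ ⟨S, finV⟩ fpV
  obtain ⟨J, lJ, dJ, t, rJ, hFl, fJ⟩ := hLD G D _ cD fD bar hDa.bar_eqv hDa.inv nD
  obtain ⟨φ, hGo⟩ := hL G V D I J o lI lJ dI dJ hDa.o_eqv rI rJ
  obtain ⟨H, V', D', Y, _, _, _, _, j, μV, μD, o', bar', σ, c, hj, iV, iD, eo, eb, ho, hb, binv,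
    bne, cut', σ1, σ2, hF', hY⟩ := hG G V D T o bar hDa hCut
  obtain ⟨dI', dJ', φ', t', hGo', hFl', ov1, ov2⟩ := hU G H V D V' D' j μV μD hj iV iD o bar o'
    bar' eo eb ho hb I J lI lJ dI dJ φ t hGo hFl
  have fK : ∀ i ≤ k + 2, Finite (Kx I J i) := fun i hi => by
    have := fI i hi
    have : Finite (Jm J i) := by
      cases i with
      | zero => exact inferInstanceAs (Finite Empty)
      | succ i => exact fJ i (by omega)
    infer_instance
  have fI1 := @Fintype.ofFinite _ (fI (k + 1) (by omega))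
  have fI2 := @Fintype.ofFinite _ (fI (k + 2) (by omega))
  have fJ0 := @Fintype.ofFinite _ (fJ k (by omega))
  have fJ1 := @Fintype.ofFinite _ (fJ (k + 1) (by omega))
  let _ : Fintype (Kx I J k) := @Fintype.ofFinite _ (fK k (by omega))
  let _ : Fintype (Kx I J (k + 1)) := inferInstanceAs (Fintype (I (k + 1) ⊕ J k))
  let _ : Fintype (Kx I J (k + 2)) := inferInstanceAs (Fintype (I (k + 2) ⊕ J (k + 1)))
  obtain ⟨b, ι, hι⟩ := hMo H
  obtain ⟨b₀, ι₀, hι₀⟩ := hMo G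
  obtain ⟨dd, -, hI⟩ := hTo G V D I J o lI lJ dI dJ φ hDa.o_eqv hGo
  obtain ⟨dd', loc', hI'⟩ := hTo H V' D' I J o' _ _ dI' dJ' φ' eo hGo'
  have hFl₂ := flip_refl hGo'.resJ σ1 σ2
  have i₂ := hI' _ _ hFl₂
  have i₁ := hI _ _ hFl
  -- the reflection groups
  obtain ⟨ε₂, R₂⟩ := hC H V' D' Y I J o' _ _ dI' dJ' φ' _ _ c hGo' hFl₂ hF' i₂
  have t₂ := hS H _ Y ι (two_reg b) (Bar.BT H) (fun k => Bar.dB k) Bar.eB (Bar.isRes H) bar_free k
    (fun y => by
      obtain ⟨v, Φ, h1, h2⟩ := hY y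
      exact ⟨_, _, Φ, h2, h v H _ b ι hι Φ h1 _ _ _ _ (isRes_bar Φ h1)⟩) _ _ _ _ R₂
  obtain ⟨e1, e2, e3⟩ := hD H _ ι (two_reg b) (Kx I J) _ _ i₂ k
  have m₂ := (hM H _ b _ _ _ _ _ _ _ (by
    rw [← mat_comp ι _ (i₂.eqv_d k), ← mat_zero ι]
    exact congrArg (mat ι) (LinearMap.ext (dd' k))) e2 e3).1 (e1.1 t₂)
  -- the comparison
  have c₁ := hA H _ b ι hι V' D' (I (k + 1)) (J k) (Kx I J k) o' eo _ _ _ _ (i₂.eqv_d k) (loc' k)
    bar' (t' k) binv bne cut' (hFl'.eqv k) (hFl'.inv k) (hFl'.lab k) σ σ1 σ2 hF'.ne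
  have c₂ := hA H _ b ι hι V' D' (I (k + 2)) (J (k + 1)) (Kx I J (k + 1)) o' eo _ _ _ _
    (i₂.eqv_d (k + 1)) (loc' (k + 1)) bar' (t' (k + 1)) binv bne cut' (hFl'.eqv _) (hFl'.inv _)
    (hFl'.lab _) σ σ1 σ2 hF'.ne
  have m₁ : zd (mat ι (tot dI' dJ' φ' k)) (mat ι (th I t' (k + 1))) +
      zd (mat ι (tot dI' dJ' φ' (k + 1))) (mat ι (th I t' (k + 2))) ≤
      ad (mat ι (th I t' (k + 2))) :=
    (add_le_add c₁.1 c₂.1).trans (m₂.trans_eq c₂.2.symm)
  rw [(ov1 k).mat, (ov1 (k + 1)).mat, (ov2 (k + 1)).mat, (ov2 (k + 2)).mat,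
    (hT G _ b₀ ι₀ hι₀ H _ b ι hι j hj _ _ _ _).1, (hT G _ b₀ ι₀ hι₀ H _ b ι hι j hj _ _ _ _).1,
    (hT G _ b₀ ι₀ hι₀ H _ b ι hι j hj _ _ (tot dI dJ φ (k + 1)) _).2,
    ← (hT G _ b₀ ι₀ hι₀ G' _ b' ι' hι' j' hj' _ _ _ _).1,
    ← (hT G _ b₀ ι₀ hι₀ G' _ b' ι' hι' j' hj' _ _ _ _).1,
    ← (hT G _ b₀ ι₀ hι₀ G' _ b' ι' hι' j' hj' _ _ (tot dI dJ φ (k + 1)) _).2] at m₁
  -- back to `G`
  obtain ⟨f1, f2, f3⟩ := hD G _ (ι'.comp j') (two_reg b') (Kx I J) _ _ i₁ k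
  have t₁ := f1.2 ((hM G' _ b' _ _ _ _ _ _ _ (by
    rw [← mat_comp _ _ (i₁.eqv_d k), ← mat_zero (ι'.comp j')]
    exact congrArg (mat _) (LinearMap.ext (dd k))) f2 f3).2 m₁)
  obtain ⟨ε₁, R₁⟩ := hC G V D Unit I J o lI lJ dI dJ φ bar t _ hGo hFl hF i₁
  exact hR G _ _ (ι'.comp j') (two_reg b') _ _ _ _ _ _ _ _ _ (isResM_of_isRes R) R₁ k t₁

theorem tor_index {G H : Type} [Group G] [Group H] (j : H →* G) (hj : Function.Injective j)
    (hf : j.range.FiniteIndex) {k : ℕ} (h : Tor H k) : Tor G k := by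
  intro G' E _ _ _ b ι hι j' hj' C _ ρ d ε R
  refine IsRes.torsAt _ R (Bar.isRes G) (torsAt_of_finiteIndex (ι.comp j') j.range _
    (vnAlg_intCast (b := b)) ?_)
  have h1 := h G' E b ι hι (j'.comp j) (hj'.comp hj) _ _ _ _ (isRes_bar j hj)
  have key : ∀ i, tensRel (ι.comp (j'.comp j)) ((permRep G (Bar.BT G i)).comp j) =
      tensRel ((ι.comp j').comp j.range.subtype)
        ((permRep G (Bar.BT G i)).comp j.range.subtype) := fun i =>
    congrArg (Submodule.span _) (Set.ext fun x =>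
      ⟨fun ⟨a, g, c, e⟩ => ⟨a, ⟨j g, g, rfl⟩, c, e⟩, fun ⟨a, ⟨_, g, rfl⟩, c, e⟩ => ⟨a, g, c, e⟩⟩)
  intro z hz
  obtain ⟨x, rfl⟩ := Submodule.Quotient.mk_surjective _ z
  obtain ⟨s, hs, w, hw⟩ := h1 (Submodule.Quotient.mk x)
    ((Submodule.Quotient.mk_eq_zero _).2 (key k ▸ (Submodule.Quotient.mk_eq_zero _).1 hz))
  obtain ⟨y, rfl⟩ := Submodule.Quotient.mk_surjective _ w
  exact ⟨s, hs, Submodule.Quotient.mk y,
    (Submodule.Quotient.eq _).2 (key (k + 1) ▸ (Submodule.Quotient.eq _).1 hw)⟩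

theorem tor_union {G : Type} [Group G] (K : Finset G → Subgroup G) (hK : ∀ S, ∀ g ∈ S, g ∈ K S)
    {k : ℕ} (h : ∀ S, Tor (K S) k) : Tor G k := by
  intro G' E _ _ _ b ι hι j' hj' C _ ρ d ε R
  refine IsRes.torsAt _ R (Bar.isRes G) (torsAt_of_directed _ _ _ _ k fun S => ⟨K S, hK S, ?_⟩)
  exact h S G' E b ι hι (j'.comp (K S).subtype) (hj'.comp (K S).subtype_injective) _ _ _ _
    (isRes_bar _ (K S).subtype_injective)

end Pool.Agent.MP_4f4d9f_gt.Db

end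

section

/-! Dimensions do not depend on the overgroup. -/

open scoped InnerProductSpace

namespace Pool.Agent.MP_4f4d9f_gt.Db

namespace Trans

open FA
open ContinuousLinearMap (adjoint)

section Gen

variable {H H' : Type} [NormedAddCommGroup H] [InnerProductSpace ℂ H] [CompleteSpace H]
  [NormedAddCommGroup H'] [InnerProductSpace ℂ H'] [CompleteSpace H']

theorem gdim_eq {I : Type} [Fintype I] (W : H →L[ℂ] H') (hW : ∀ ξ, ‖W ξ‖ = ‖ξ‖)
    {S : Submodule ℂ H} {S' : Submodule ℂ H'} (h1 : ∀ ξ ∈ S, W ξ ∈ S')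
    (h2 : ∀ η ∈ S', adjoint W η ∈ S) {e : I → H} {e' : I → H'} (he : ∀ i, e' i = W (e i)) :
    gdim e' S' = gdim e S := by
  refine Finset.sum_congr rfl fun i _ => ?_
  have : S'.topologicalClosure.starProjection (W (e i)) =
      W (S.topologicalClosure.starProjection (e i)) := by
    refine Submodule.eq_starProjection_of_mem_orthogonal
      (map_mem_closure W.continuous (S.topologicalClosure.starProjection_apply_mem _) h1) ?_
    rw [Submodule.mem_orthogonal]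
    intro η hη
    rw [← map_sub, ← ContinuousLinearMap.adjoint_inner_left]
    exact Submodule.inner_right_of_mem_orthogonal (K := S.topologicalClosure)
      (map_mem_closure (adjoint W).continuous hη h2)
      (Submodule.sub_starProjection_mem_orthogonal _)
  rw [he, this, hW]

/-- The diagonal operator between sums of different spaces. -/
noncomputable def dg (I : Type) (U : H →L[ℂ] H') : HV H I →L[ℂ] HV H' I :=
  (PiLp.continuousLinearEquiv 2 ℂ (fun _ : I => H')).symm.toContinuousLinearMap ∘L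
    ContinuousLinearMap.pi fun i => U ∘L PiLp.proj 2 (fun _ : I => H) i

omit [CompleteSpace H] [CompleteSpace H'] in
theorem dg_apply {I : Type} (U : H →L[ℂ] H') (ξ : HV H I) (i : I) : dg I U ξ i = U (ξ i) := by
  simp [dg]

omit [CompleteSpace H] [CompleteSpace H'] in
theorem dg_norm {I : Type} [Fintype I] {U : H →L[ℂ] H'} (hU : ∀ ξ, ‖U ξ‖ = ‖ξ‖) (ξ : HV H I) :
    ‖dg I U ξ‖ = ‖ξ‖ := by
  rw [← sq_eq_sq₀ (norm_nonneg _) (norm_nonneg _), PiLp.norm_sq_eq_of_L2, PiLp.norm_sq_eq_of_L2]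
  simp only [dg_apply, hU]

omit [CompleteSpace H] [CompleteSpace H'] in
theorem dg_sgl {I : Type} (U : H →L[ℂ] H') (i : I) (v : H) : dg I U (sgl i v) = sgl i (U v) := by
  ext j
  rw [dg_apply, sgl_apply, sgl_apply]
  split_ifs <;> simp

omit [CompleteSpace H] [CompleteSpace H'] in
theorem dg_opC {I J : Type} [Fintype J] {U : H →L[ℂ] H'} {M : I → J → (H →L[ℂ] H)}
    {M' : I → J → (H' →L[ℂ] H')} (h : ∀ i j v, U (M i j v) = M' i j (U v)) (ξ : HV H J) :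
    dg I U (opC M ξ) = opC M' (dg J U ξ) := by
  ext i
  rw [dg_apply, opC_apply, opC_apply, map_sum]
  simp only [dg_apply, h]

/-- The operators and their adjoints are intertwined. -/
def Rel (U : H →L[ℂ] H') (a : H →L[ℂ] H) (a' : H' →L[ℂ] H') : Prop :=
  (∀ v, U (a v) = a' (U v)) ∧ ∀ v, U (adjoint a v) = adjoint a' (U v)

theorem dg_adj {I J : Type} [Fintype I] [Fintype J] {U : H →L[ℂ] H'} {M : I → J → (H →L[ℂ] H)}
    {M' : I → J → (H' →L[ℂ] H')} (h : ∀ i j, Rel U (M i j) (M' i j)) :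
    (∀ ξ, dg J U (adjoint (opC M) ξ) = adjoint (opC M') (dg I U ξ)) ∧
      ∀ η, adjoint (opC M) (adjoint (dg I U) η) = adjoint (dg J U) (adjoint (opC M') η) := by
  refine ⟨fun ξ => ?_, fun η => ext_inner_left ℂ fun ξ => ?_⟩
  · rw [adjoint_opC, adjoint_opC]
    exact dg_opC (fun j i => (h i j).2) ξ
  · simp only [ContinuousLinearMap.adjoint_inner_right]
    rw [dg_opC fun i j => (h i j).1]

end Gen

section Grp

variable {G E : Type} [Group G] [NormedAddCommGroup E] [InnerProductSpace ℂ E] [CompleteSpace E]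
  {b : HilbertBasis G ℂ E} {ι : G →* vnAlg b}
  {G' E' : Type} [Group G'] [NormedAddCommGroup E'] [InnerProductSpace ℂ E'] [CompleteSpace E']
  {b' : HilbertBasis G' ℂ E'} {ι' : G' →* vnAlg b'} {j : G →* G'}

omit [CompleteSpace E] in
theorem exists_U (b : HilbertBasis G ℂ E) (b' : HilbertBasis G' ℂ E')
    (hj : Function.Injective j) :
    ∃ U : E →L[ℂ] E', (∀ ξ, ‖U ξ‖ = ‖ξ‖) ∧ ∀ g, U (b g) = b' (j g) := by
  classical
  let V := (b'.orthonormal.comp j hj).orthogonalFamily.linearIsometry.comp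
    b.repr.toLinearIsometry
  refine ⟨V.toContinuousLinearMap, V.norm_map, fun g => ?_⟩
  change (b'.orthonormal.comp j hj).orthogonalFamily.linearIsometry (b.repr (b g)) = _
  rw [HilbertBasis.repr_self, OrthogonalFamily.linearIsometry_apply_single]
  simp

omit [CompleteSpace E] [CompleteSpace E'] in
theorem U_iota (hι : ∀ g h, (ι g).1 (b h) = b (g * h))
    (hι' : ∀ g h, (ι' g).1 (b' h) = b' (g * h)) {U : E →L[ℂ] E'} (hU : ∀ g, U (b g) = b' (j g))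
    (g : G) (v : E) : U ((ι g).1 v) = (ι' (j g)).1 (U v) := by
  have : U ∘L (ι g).1 = (ι' (j g)).1 ∘L U :=
    ContinuousLinearMap.ext_on (Submodule.dense_iff_topologicalClosure_eq_top.2 b.dense_span) (by
      rintro _ ⟨h, rfl⟩
      rw [ContinuousLinearMap.comp_apply, ContinuousLinearMap.comp_apply, hι, hU, hU, hι',
        map_mul])
  exact congrArg (fun T : E →L[ℂ] E' => T v) this

theorem rel_co (hι : ∀ g h, (ι g).1 (b h) = b (g * h))
    (hι' : ∀ g h, (ι' g).1 (b' h) = b' (g * h)) {U : E →L[ℂ] E'} (hU : ∀ g, U (b g) = b' (j g))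
    {K : Type} (c : Ch G K) (k : K) : Rel U (co ι c k).1 (co (ι'.comp j) c k).1 := by
  classical
  induction c using ch_induction with
  | h0 => constructor <;> simp
  | hadd x y hx hy => constructor <;> simp [hx.1, hx.2, hy.1, hy.2]
  | hneg x hx => constructor <;> simp [hx.1, hx.2]
  | h1 β =>
    rw [co_single, co_single, Pi.single_apply, Pi.single_apply]
    split_ifs
    · refine ⟨U_iota hι hι' hU _, fun v => ?_⟩
      rw [MonoidHom.comp_apply, adjoint_iota hι, adjoint_iota hι', ← map_inv j]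
      exact U_iota hι hι' hU _ v
    · constructor <;> simp

end Grp

end Trans

open Db.Trans FA in
theorem trans_stmt : TransStmt := by
  intro G E _ _ _ _ b ι hι G' E' _ _ _ _ b' ι' hι' j hj K K' _ _ f θ
  obtain ⟨U, hn, hU⟩ := exists_U b b' hj
  have hf := dg_adj (M := fun i k => (mat ι f i k).1) (M' := fun i k => (mat (ι'.comp j) f i k).1)
    fun i k => rel_co hι hι' hU _ k
  have hθ := dg_adj (M := fun i k => (mat ι θ i k).1) (M' := fun i k => (mat (ι'.comp j) θ i k).1)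
    fun i k => rel_co hι hι' hU _ k
  have he : ∀ i, fr b' K i = dg K U (fr b K i) := fun i => by
    rw [fr, fr, dg_sgl, hU, map_one j]
  have a1 : ∀ ξ ∈ (ContinuousLinearMap.adjoint (op (mat ι θ)) + 1).ker,
      dg K U ξ ∈ (ContinuousLinearMap.adjoint (op (mat (ι'.comp j) θ)) + 1).ker := by
    intro ξ hξ
    have h1 : ContinuousLinearMap.adjoint (op (mat ι θ)) ξ + ξ = 0 := hξ
    have h2 := congrArg (dg K U) h1
    rw [map_add, map_zero] at h2
    exact (congrArg (· + dg K U ξ) (hθ.1 ξ)).symm.trans h2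
  have a2 : ∀ η ∈ (ContinuousLinearMap.adjoint (op (mat (ι'.comp j) θ)) + 1).ker,
      ContinuousLinearMap.adjoint (dg K U) η ∈
        (ContinuousLinearMap.adjoint (op (mat ι θ)) + 1).ker := by
    intro η hη
    have h1 : ContinuousLinearMap.adjoint (op (mat (ι'.comp j) θ)) η + η = 0 := hη
    have h2 := congrArg (ContinuousLinearMap.adjoint (dg K U)) h1
    rw [map_add, map_zero] at h2
    exact (congrArg (· + ContinuousLinearMap.adjoint (dg K U) η) (hθ.2 η)).trans h2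
  refine ⟨?_, gdim_eq (dg K U) (dg_norm hn) a1 a2 he⟩
  unfold zd
  refine gdim_eq (dg K U) (dg_norm hn) (fun ξ hξ => ?_) (fun η hη => ?_) he
  · have h1 : ContinuousLinearMap.adjoint (op (mat ι f)) ξ = 0 := hξ.1
    refine ⟨?_, a1 ξ hξ.2⟩
    exact (hf.1 ξ).symm.trans ((congrArg (dg K' U) h1).trans (map_zero _))
  · have h1 : ContinuousLinearMap.adjoint (op (mat (ι'.comp j) f)) η = 0 := hη.1
    refine ⟨?_, a2 η hη.2⟩
    exact (hf.2 η).trans ((congrArg (ContinuousLinearMap.adjoint (dg K' U)) h1).trans (map_zero _))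

theorem model_stmt : ModelStmt := by
  intro G _
  let b : HilbertBasis G ℂ (L2 G) := HilbertBasis.ofRepr (LinearIsometryEquiv.refl ℂ _)
  refine ⟨b, (vnEquiv b).symm.toMonoidHom.comp (lam G), fun g h => ?_⟩
  change (conjB b).symm (perm (Equiv.mulLeft g⁻¹)) (b h) = _
  rw [conjB_symm_basis]
  simp

end Pool.Agent.MP_4f4d9f_gt.Db

end

section

/-! The assembly of the cubical doubling inequality from the statements of the parts. -/

open scoped Pointwise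

namespace Pool.Agent.MP_4f4d9f_gt.Cb

open Finsupp Db Sg

theorem Cells.succ {G V Hy B : Type} [Group G] [MulAction G V] [MulAction G Hy] [MulAction G B]
    {sep : V → V → Finset Hy} {o : B → V} {σ : B → Finset Hy} {F : Hy → B → B} {D : ℕ}
    (C : Cells G sep o σ F D) : Cells G sep o σ F (D + 1) :=
  ⟨C.flip, C.o_eqv, C.σ_eqv, C.F_eqv, C.geo, fun β => (C.card β).trans D.le_succ⟩

theorem Corner.mono {V Hy : Type} {sep : V → V → Finset Hy} {v : V} {τ τ' : Finset Hy}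
    (h : Corner sep v τ') (h' : τ ⊆ τ') : Corner sep v τ :=
  ⟨fun a ha => h.1 a (h' ha), fun a ha b hb => h.2 a (h' ha) b (h' hb)⟩

theorem Acy.congr {B : ℕ → Type} {d : ∀ j, (B (j + 1) →₀ ℤ) →ₗ[ℤ] (B j →₀ ℤ)}
    {p p' : ∀ j, B j → Prop} (h : Acy d p) (e : ∀ j β, p j β ↔ p' j β) : Acy d p' := by
  rwa [← show p = p' from funext fun j => funext fun β => propext (e j β)]

theorem pow_reg {G E : Type} [Group G] [NormedAddCommGroup E] [InnerProductSpace ℂ E]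
    (b : HilbertBasis G ℂ E) (e : ℕ) : IsLeftRegular ((2 ^ e : ℕ) : vnAlg b) := by
  rw [Nat.cast_pow, Nat.cast_two]
  exact (two_reg b).pow e

theorem tor_cube_of (hC : CoreStmt) (hM : MedStmt) (hRo : RootStmt) (hU : UnStmt) (hA : AvgStmt)
    (hN : ResNStmt) (hB : BrStmt) (hT : TpStmt) (hO : HtOStmt) (hH : HtMStmt) (hMi : MirStmt)
    (hE : ExtStmt) {G V : Type} [Group G] [MulAction G V] (T : SimpleGraph V) (hT' : IsMedian T)
    (adj : ∀ (g : G) v w, T.Adj v w → T.Adj (g • v) (g • w)) (SS : Finset (Set V))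
    (fin : ∀ S, IsCube T S → ∃ g : G, g • S ∈ SS) {k : ℕ}
    (fp : ∀ S, IsCube T S → FP (MulAction.stabilizer G S) (k + 2))
    (h : ∀ v, Tor (ReflC G T v) k) : Tor G k := by
  intro G' E' _ _ _ b' ι' hι' j' hj' C _ ρ d₀ ε R₀
  have : CompleteSpace E' := b'.repr.toIsometryEquiv.completeSpace
  have : Nonempty V := hT'.1.nonempty
  obtain ⟨Hy, _, sep, W, hd⟩ := hM G V T hT' adj
  obtain ⟨R, _, o, σ, F, d, D, hCe₀, hRt, hCx, hCo, hAc⟩ :=
    hRo G V Hy T sep W hd SS fin (k + 2) fp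
  have hCe := fun j => (hCe₀ j).succ
  obtain ⟨I₂, _, r₂, f₂⟩ := exists_freeOn (hCx.free (k + 2)) (hCo _ le_rfl)
  obtain ⟨I₁, _, r₁, f₁⟩ := exists_freeOn (hCx.free (k + 1)) (hCo _ (by omega))
  obtain ⟨I₀, _, r₀, f₀⟩ := exists_freeOn (hCx.free k) (hCo _ (by omega))
  obtain ⟨e₁, q₁, t₁⟩ := hT G _ _ (hCx.free (k + 1)) (hCo _ le_rfl) _ (hCx.eqv (k + 1))
  obtain ⟨e₀, q₀, t₀⟩ := hT G _ _ (hCx.free k) (hCo _ (by omega)) _ (hCx.eqv k)
  have hAv := fun j => hA Hy (R j) (σ j) (F j) (D + 1) (hCe j).flip (hCe j).card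
  -- the original gluing
  obtain ⟨ht, Dn, hHt, hCor⟩ := hO G V Hy sep W R o σ F _ hCe
  obtain ⟨CU, _, ρU, dU, εU, q, t, RU, sp, hq, hav⟩ := hU G V Hy Unit R o σ F d (D + 1) ht Dn
    (fun _ => ()) hRt hHt (fun v τ hτ => hAc v τ ((hCor v).mono hτ)) hCx
    (fun j => ⟨(hCe j).flip, (hCe j).σ_eqv, (hCe j).F_eqv, (hCe j).card⟩) fun _ _ => rfl
  obtain ⟨K₁, K₀, p₁, p₀, m₁, m₀, hiff⟩ := hB G' E' b' ι' hι' G j' hj' (2 ^ (D + 1))
    (by positivity) CU ρU dU RU.eqv_d RU.d_d R d hCx.eqv q t _ sp hq hav (fun j => (hAv j).2.2.1)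
    k I₂ I₁ I₀ r₂ r₁ r₀ f₂ f₁ f₀ e₁ e₀ q₁ q₀ t₁ t₀
  refine hN G _ _ (ι'.comp j') _ (pow_reg b' (D + 1)) _ _ _ _ _ _ _ _ _
    (isResN_of_isResM (isResM_of_isRes R₀) D) RU k (hiff.2 ?_)
  -- the mirror gluing
  obtain ⟨H, Y, _, π, _, _, cp, a1, a2, a3, a4, a5, a6, a7⟩ := hMi G V Hy T sep W hd
  let _ : ∀ j, MulAction H (R j) := fun j => MulAction.compHom _ π
  let _ : MulAction H Hy := MulAction.compHom _ π
  have up : ∀ {i j} {f : (R i →₀ ℤ) →ₗ[ℤ] (R j →₀ ℤ)}, Eqv (permRep G _) (permRep G _) f →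
      Eqv (permRep H _) (permRep H _) (Shap.ext (RA (Cross sep)) f) := fun hf =>
    Shap.eqv_ext fun x c => hf (π x) c
  have fr' : ∀ {j} {I : Type} {r : I → R j}, FreeOn G r →
      FreeOn H fun i => ((1 : RA (Cross sep)), r i) := fun {j I r} hr => by
    constructor
    · rintro ⟨x, i⟩ ⟨x', i'⟩ e
      have e0 : x • (1 : RA (Cross sep)) = x' • 1 := congrArg Prod.fst e
      obtain ⟨e1, e2⟩ := Prod.ext_iff.1
        (hr.1 (a₁ := (π x, i)) (a₂ := (π x', i')) (congrArg Prod.snd e))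
      exact Prod.ext (a2.1 (Prod.ext e0 e1)) e2
    · rintro ⟨w, β⟩
      obtain ⟨⟨g, i⟩, rfl⟩ := hr.2 β
      obtain ⟨x, hx⟩ := a2.2 (w, g)
      obtain ⟨e1, e2⟩ := Prod.ext_iff.1 hx
      exact ⟨(x, i), Prod.ext e1 (congrArg (· • r i) (e2 : π x = g))⟩
  obtain ⟨b, ι, hι⟩ := model_stmt H
  obtain ⟨ht', Dn', hHt', hCor'⟩ := hH G V Hy sep W R o σ F _ hCe Y cp a4 a5
  obtain ⟨hRt', hAc', hTp⟩ := hE V Hy (Cross sep) R o σ F d hRt fun j => (hCe j).cross
  have hAv' := fun j => hA Hy _ _ _ (D + 1) (hRt'.flip j) fun x => (hCe j).card x.2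
  obtain ⟨CM, _, ρM, dM, εM, q', t', RM, sp', hq', hav'⟩ := hU H _ Hy Y _ _ _ _ _ (D + 1) ht' Dn'
    cp hRt' hHt'
    (fun x τ hτ => (hAc' _ x.1 (hAc x.2 τ ((hCor' x).mono hτ))).congr fun j y => by
      rw [Prod.ext_iff, and_assoc])
    ⟨fun j => up (hCx.eqv j), hRt'.d_d, hRt'.ε_d, fun j x y e =>
      a3 x y.1 (congrArg Prod.fst e) (hCx.free j _ y.2 (congrArg Prod.snd e))⟩
    (fun j => ⟨hRt'.flip j, fun x a y => (hCe j).σ_eqv (π x) a y.2, fun x a y => by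
      by_cases ha : a ∈ σ j y.2
      · rw [Fw_pos ha, Fw_pos (((hCe j).σ_eqv (π x) a y.2).2 ha)]
        exact Prod.ext (a1 x y.1 a).symm rfl
      · rw [Fw_neg ha, Fw_neg fun e => ha (((hCe j).σ_eqv (π x) a y.2).1 e)],
      fun y => (hCe j).card y.2⟩)
    fun x y => by
      rw [← a6, ← (hCe 0).o_eqv]
      rfl
  obtain ⟨K₁', K₀', p₁', p₀', m₁', m₀', hiff'⟩ := hB H _ b ι hι H (MonoidHom.id H)
    Function.injective_id (2 ^ (D + 1)) (by positivity) CM ρM dM RM.eqv_d RM.d_d _ _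
    (fun j => up (hCx.eqv j)) q' t' _ sp' hq' hav' (fun j => (hAv' j).2.2.1) k I₂ I₁ I₀ _ _ _
    (fr' f₂) (fr' f₁) (fr' f₀) _ _ (up q₁) (up q₀) ((hTp _ _ _ _ _).1 t₁) ((hTp _ _ _ _ _).1 t₀)
  have RS := Shap.isResM (Y := Y) (Bar.isRes H) bar_free
  have s₁ := shap_stmt res2_stmt H _ Y ι (two_reg b) (Bar.BT H) (fun k => Bar.dB k) Bar.eB
    (Bar.isRes H) bar_free k (fun y => by
      obtain ⟨v, Φ, h1, h2⟩ := a7 y
      exact ⟨_, _, Φ, h2, h v H _ b ι hι Φ h1 _ _ _ _ (isRes_bar Φ h1)⟩) _ _ _ _ RS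
  have s₂ := hiff'.1 (hN H _ _ ι _ (pow_reg b (D + 1)) _ _ _ _ _ _ _ _ _ RM
    (isResN_of_isResM RS D) k s₁)
  -- the comparison
  have c₁ := hC G V Hy _ _ I₁ I₂ sep W _ _ _ _ (hCe (k + 1)) _ _ _
    ⟨(hCe (k + 2)).o_eqv, hCx.eqv _, q₁, t₁, hRt.loc _⟩ r₁ r₂ f₁ f₂ _ _ _ _ _ K₁ _ K₁' p₁ p₁'
    (fun m _ => m₁ m) fun m _ => by rw [m₁' m, ← (hTp _ _ _ _ _).2]; rfl
  have c₀ := hC G V Hy _ _ I₀ I₁ sep W _ _ _ _ (hCe k) _ _ _
    ⟨(hCe (k + 1)).o_eqv, hCx.eqv _, q₀, t₀, hRt.loc _⟩ r₀ r₁ f₀ f₁ _ _ _ _ _ K₀ _ K₀' p₀ p₀'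
    (fun m _ => m₀ m) fun m _ => by rw [m₀' m, ← (hTp _ _ _ _ _).2]; rfl
  refine le_trans (Int.cast_le.2 (Finset.sum_le_sum fun i _ => ?_))
    (s₂.trans (mul_le_mul_of_nonneg_left (add_le_add c₀ c₁) (Nat.cast_nonneg _)))
  rw [pow_one, pow_one, (hAv (k + 1)).2.2.2.2.1 G V sep _ W (hCe _)]
  exact (hAv' (k + 1)).2.2.2.1 (1, r₁ i)

end Pool.Agent.MP_4f4d9f_gt.Cb

end
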