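import Pool.Agent.Mg.F4f4d9fr.G715938

set_option linter.all false

section

/-! The Bethe formula: block diagonal operators and trace identities. -/

open scoped InnerProductSpace Topology
open Set Filter Asymptotics

namespace Pool.Agent.MP_4f4d9f_gt.Cb.Bethe

theorem comm_inv {A : Type} [MonoidWithZero A] {a x : A} (h : Commute a x) :
    Commute a (Ring.inverse x) := by
  by_cases hx : IsUnit x
  · obtain ⟨u, rfl⟩ := hx
    rw [Ring.inverse_unit]
    exact h.units_inv_right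
  · rw [Ring.inverse_non_unit _ hx]
    exact Commute.zero_right _

theorem inv_eq {A : Type} [MonoidWithZero A] {x y : A} (hx : IsUnit x) (h : x * y = 1) :
    Ring.inverse x = y := by
  rw [← Ring.inverse_mul_cancel_left x y hx, h, mul_one]

theorem ring_inv {A : Type} [Ring A] {p r Q N W Ci Ni : A} (hs : p + r = 1) (hp : p * p = p)
    (hr : r * r = r) (hpr : p * r = 0) (hrp : r * p = 0) (hCi : (p * Q * p + r * 1 * r) * Ci = 1)
    (hc : Commute r Ci) (hN : Commute r N) (hNi : (N + (1 - W)) * Ni = 1) (hW : r * W = r) :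
    (p * Q * p + r * N * r) * (Ci * p + r * Ni) = 1 := by
  have a1 : r * Ci * p = 0 := by rw [hc.eq, mul_assoc, hrp, mul_zero]
  have a2 : p * Q * p * Ci * p = p := by
    have := congrArg (· * p) hCi
    simp only [mul_one, hr, add_mul, a1, add_zero, one_mul] at this
    exact this
  have a3 : r * N * Ni = r := by
    have := congrArg (r * ·) hNi
    simp only [← mul_assoc, mul_add, mul_sub, mul_one, hW, sub_self, add_zero] at this
    exact this
  have a4 : r * N * r * r = r * N := by rw [mul_assoc, hr, mul_assoc, ← hN.eq, ← mul_assoc, hr]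
  calc (p * Q * p + r * N * r) * (Ci * p + r * Ni)
      = p * Q * p * Ci * p + p * Q * (p * r) * Ni + r * N * (r * Ci * p) + r * N * r * r * Ni := by
        noncomm_ring
    _ = 1 := by rw [a2, hpr, a1, a4, a3, mul_zero, zero_mul, mul_zero, add_zero, add_zero, hs]

theorem ring_mul {A : Type} [Ring A] {p r Q N Ci Ni : A} (hp : p * p = p)
    (hr : r * r = r) (hpr : p * r = 0) (hrp : r * p = 0) (hN : Commute r N) (hNi : Commute r Ni) :
    (Ci * p + r * Ni) * (p * Q * p + r * N * r) = Ci * p * Q * p + r * (Ni * N) := by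
  have a1 : r * Ni * p = 0 := by rw [hNi.eq, mul_assoc, hrp, mul_zero]
  have a2 : r * Ni * r = r * Ni := by rw [mul_assoc, ← hNi.eq, ← mul_assoc, hr]
  calc (Ci * p + r * Ni) * (p * Q * p + r * N * r)
      = Ci * (p * p) * Q * p + Ci * (p * r) * N * r + r * Ni * p * Q * p +
        r * Ni * r * (N * r) := by noncomm_ring
    _ = Ci * p * Q * p + r * (Ni * N) := by
      rw [hp, hpr, a1, a2, ← hN.eq, ← mul_assoc, a2]
      noncomm_ring

/-- Two Lipschitz paths along which the first order variations agree. -/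
theorem path_const {Y : Type} [NormedAddCommGroup Y] [NormedSpace ℝ Y] (F : Y → ℝ) (a b : ℝ → Y)
    (ha : ∀ t ∈ Icc (0 : ℝ) 1, (fun s => a s - a t) =O[𝓝[Icc 0 1] t] fun s => s - t)
    (hb : ∀ t ∈ Icc (0 : ℝ) 1, (fun s => b s - b t) =O[𝓝[Icc 0 1] t] fun s => s - t)
    (h : ∀ t ∈ Icc (0 : ℝ) 1, ∃ La Lb : Y →L[ℝ] ℝ, HasFDerivAt F La (a t) ∧
      HasFDerivAt F Lb (b t) ∧ ∀ s ∈ Icc (0 : ℝ) 1, La (a s - a t) = Lb (b s - b t)) :
    F (a 1) - F (b 1) = F (a 0) - F (b 0) := by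
  have key : ∀ (c : ℝ → Y) (t : ℝ) (L : Y →L[ℝ] ℝ),
      ((fun s => c s - c t) =O[𝓝[Icc 0 1] t] fun s => s - t) → HasFDerivAt F L (c t) →
      (fun s => F (c s) - F (c t) - L (c s - c t)) =o[𝓝[Icc 0 1] t] fun s => s - t := by
    intro c t L hc hL
    have t1 : Tendsto (fun s => s - t) (𝓝[Icc 0 1] t) (𝓝 0) := by
      have : Tendsto (fun s => s - t) (𝓝 t) (𝓝 (t - t)) :=
        (continuous_id.sub continuous_const).tendsto t
      rw [sub_self] at this
      exact this.mono_left nhdsWithin_le_nhds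
    have t2 : Tendsto c (𝓝[Icc 0 1] t) (𝓝 (c t)) := tendsto_sub_nhds_zero_iff.1 (hc.trans_tendsto t1)
    exact (hL.isLittleO.comp_tendsto t2).trans_isBigO hc
  have d : ∀ t ∈ Icc (0 : ℝ) 1, HasDerivWithinAt (fun s => F (a s) - F (b s)) 0 (Icc 0 1) t := by
    intro t ht
    obtain ⟨La, Lb, h1, h2, h3⟩ := h t ht
    rw [hasDerivWithinAt_iff_isLittleO]
    refine ((key a t La (ha t ht) h1).sub (key b t Lb (hb t ht) h2)).congr' ?_ EventuallyEq.rfl
    filter_upwards [self_mem_nhdsWithin] with s hs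
    rw [h3 s hs, smul_zero]
    ring
  have := (convex_Icc (0 : ℝ) 1).norm_image_sub_le_of_norm_hasDerivWithin_le (C := 0) d
    (fun _ _ => norm_zero.le) (left_mem_Icc.2 zero_le_one) (right_mem_Icc.2 zero_le_one)
  rw [zero_mul, norm_le_zero_iff, sub_eq_zero] at this
  exact this

theorem bigO_mul {A α : Type} [NormedRing A] {l : Filter α} {f : α → A} {g : α → ℝ}
    (h : f =O[l] g) (u v : A) : (fun x => u * f x * v) =O[l] g := by
  refine IsBigO.trans (IsBigO.of_bound (‖u‖ * ‖v‖) (Eventually.of_forall fun x => ?_)) h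
  calc ‖u * f x * v‖ ≤ ‖u‖ * ‖f x‖ * ‖v‖ :=
      (norm_mul_le _ _).trans (mul_le_mul_of_nonneg_right (norm_mul_le _ _) (norm_nonneg _))
    _ = ‖u‖ * ‖v‖ * ‖f x‖ := by ring

variable {G H I X : Type} [Group G] [Fintype I] [NormedAddCommGroup H] [InnerProductSpace ℂ H]
  [CompleteSpace H] {π : G →* (H →L[ℂ] H)} {q P : X → H →L[ℂ] H} {bar : X → X}
  {τ : H →L[ℂ] H} {e : I → H} {E : I → H →L[ℂ] H}

theorem inner_sa {T : H →L[ℂ] H} (h : IsStarProjection T) (ξ η : H) :
    ⟪T ξ, η⟫_ℂ = ⟪ξ, T η⟫_ℂ := h.isSelfAdjoint.isSymmetric ξ η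

/-- Block diagonal operators on the walls. -/
structure BD (q : X → H →L[ℂ] H) (D : H →L[ℂ] H) : Prop where
  blk : ∀ x, Commute (q x) D
  out : Wp q * D = D

theorem q_int (hq : ∀ x, IsStarProjection (q x)) (x : X) : q x * (1 - Wp q) = 0 := by
  rw [mul_sub, mul_one, q_mul_Wp hq, sub_self]

theorem W_mul_eq_zero {T : H →L[ℂ] H} (h : ∀ x, q x * T = 0) : Wp q * T = 0 := by
  ext ξ
  exact Wp_eq_zero.2 fun x => congrArg (fun U : H →L[ℂ] H => U ξ) (h x)

theorem BD.int (hq : ∀ x, IsStarProjection (q x)) {D : H →L[ℂ] H} (h : BD q D) :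
    D * (1 - Wp q) = 0 := by
  rw [← h.out, mul_assoc]
  exact W_mul_eq_zero fun x => by rw [← mul_assoc, (h.blk x).eq, mul_assoc, q_int hq, mul_zero]

theorem BD.out' (hq : ∀ x, IsStarProjection (q x)) {D : H →L[ℂ] H} (h : BD q D) :
    D * Wp q = D := by
  have := h.int hq
  rw [mul_sub, mul_one, sub_eq_zero] at this
  exact this.symm

theorem BD.commW (hq : ∀ x, IsStarProjection (q x)) {D : H →L[ℂ] H} (h : BD q D) :
    Commute (Wp q) D := h.out.trans (h.out' hq).symm

theorem BD.add {D D' : H →L[ℂ] H} (h : BD q D) (h' : BD q D') : BD q (D + D') :=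
  ⟨fun x => (h.blk x).add_right (h'.blk x), by rw [mul_add, h.out, h'.out]⟩

theorem BD.sub {D D' : H →L[ℂ] H} (h : BD q D) (h' : BD q D') : BD q (D - D') :=
  ⟨fun x => (h.blk x).sub_right (h'.blk x), by rw [mul_sub, h.out, h'.out]⟩

theorem BD.smul {D : H →L[ℂ] H} (h : BD q D) (c : ℂ) : BD q (c • D) :=
  ⟨fun x => (h.blk x).smul_right c, by rw [mul_smul_comm, h.out]⟩

theorem BD.mul {D T : H →L[ℂ] H} (h : BD q D) (h1 : ∀ x, Commute (q x) T)
    (h2 : Commute (Wp q) T) : BD q (T * D) :=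
  ⟨fun x => (h1 x).mul_right (h.blk x), by rw [← mul_assoc, h2.eq, mul_assoc, h.out]⟩

theorem bd_W (hq : ∀ x, IsStarProjection (q x)) : BD q (Wp q) :=
  ⟨fun x => (q_mul_Wp hq x).trans (Wp_mul_q hq x).symm, (Wp_proj q).isIdempotentElem.eq⟩

theorem BD.comm (hq : ∀ x, IsStarProjection (q x)) {D T : H →L[ℂ] H} (h : BD q D)
    (hT : IsStarProjection T) (ho : ∀ x, T * q x = q x ∨ T * q x = 0) : Commute T D := by
  refine wall_ext hq (fun x => ?_) ?_
  · rw [mul_assoc, ← (h.blk x).eq, ← mul_assoc, mul_assoc D]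
    rcases ho x with k | k
    · rw [k, (h.blk x).eq]
    · rw [k, zero_mul, mul_zero]
  · have : Wp q * (T * (1 - Wp q)) = 0 := W_mul_eq_zero fun x => by
      have s := hT.isSelfAdjoint.star_eq
      have s' := (hq x).isSelfAdjoint.star_eq
      rcases ho x with k | k
      · have := congrArg star k
        rw [star_mul, s, s'] at this
        rw [← mul_assoc, this, q_int hq]
      · have := congrArg star k
        rw [star_mul, s, s', star_zero] at this
        rw [← mul_assoc, this, zero_mul]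
    rw [mul_assoc, h.int hq, mul_zero, ← h.out' hq, mul_assoc, mul_assoc, this, mul_zero]

theorem BD.piece (hq : ∀ x, IsStarProjection (q x)) {D T : H →L[ℂ] H} (h : BD q D)
    (hT : Piece q P bar T) : Commute T D :=
  h.comm hq hT.proj fun x => (hT.or x).imp And.left id

theorem tau_int (hq : ∀ x, IsStarProjection (q x)) (g : Glue π q P bar τ) :
    τ * (1 - Wp q) = 1 - Wp q := by
  ext ξ
  exact g.int _ fun x => congrArg (fun U : H →L[ℂ] H => U ξ) (q_int hq x)

theorem int_tau (hq : ∀ x, IsStarProjection (q x)) (g : Glue π q P bar τ) :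
    (1 - Wp q) * τ = 1 - Wp q := by
  have := congrArg star (tau_int hq g)
  rwa [star_mul, star_sub, star_one, (Wp_proj q).isSelfAdjoint.star_eq, g.sa] at this

theorem W_tau (hq : ∀ x, IsStarProjection (q x)) (g : Glue π q P bar τ) : Commute (Wp q) τ := by
  have a := (tau_int hq g).trans (int_tau hq g).symm
  rw [mul_sub, sub_mul, mul_one, one_mul, sub_right_inj] at a
  exact a.symm

theorem tau_W_tau (hq : ∀ x, IsStarProjection (q x)) (g : Glue π q P bar τ) :
    τ * Wp q * τ = Wp q := by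
  rw [← (W_tau hq g).eq, mul_assoc, g.inv, mul_one]

theorem BD.conj (w : Walls π q P bar) (g : Glue π q P bar τ) {D : H →L[ℂ] H} (h : BD q D) :
    BD q (τ * D * τ) := by
  refine ⟨fun x => ?_, ?_⟩
  · have a : q x * τ = τ * q (bar x) := by rw [g.tq, w.bar_bar]
    show q x * (τ * D * τ) = τ * D * τ * q x
    rw [← mul_assoc, ← mul_assoc, a, mul_assoc τ, (h.blk _).eq, mul_assoc, mul_assoc, ← g.tq,
      mul_assoc, mul_assoc]
  · rw [← mul_assoc, ← mul_assoc, (W_tau w.q_proj g).eq, mul_assoc τ, h.out]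

theorem tr_congr {S T : H →L[ℂ] H} (h : ∀ i, ⟪e i, S (e i)⟫_ℂ = ⟪e i, T (e i)⟫_ℂ) :
    tr e S = tr e T :=
  Finset.sum_congr rfl fun i _ => congrArg Complex.re (h i)

theorem BD.zero (hq : ∀ x, IsStarProjection (q x)) {D : H →L[ℂ] H} (h : BD q D) {ξ : H}
    (hξ : ∀ x, q x ξ = 0) : D ξ = 0 := by
  rw [← h.out' hq, mul_apply_eq_comp, Wp_eq_zero.2 hξ, map_zero]

theorem fix_of_comm {T D : H →L[ℂ] H} (h : Commute T D) {ξ : H} (hξ : T ξ = ξ) :
    T (D ξ) = D ξ := by
  rw [← mul_apply_eq_comp, h.eq, mul_apply_eq_comp, hξ]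

theorem tr_tau (w : Walls π q P bar) (g : Glue π q P bar τ) (f : Fits q P bar e E)
    {D : H →L[ℂ] H} (h : BD q D) : tr e (τ * D) = 0 := by
  rw [← tr_zero e]
  refine tr_congr fun i => ?_
  rw [mul_apply_eq_comp]
  rcases f.wall i with k | ⟨x, k⟩
  · rw [h.zero w.q_proj k, map_zero]
    rfl
  · have a : q x * (τ * q x) = 0 := by
      rw [g.tq, ← mul_assoc, w.q_orth x _ (w.bar_ne x).symm, zero_mul]
    have b : q x (τ (q x (D (e i)))) = 0 := congrArg (fun U : H →L[ℂ] H => U (D (e i))) a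
    rw [fix_of_comm (h.blk x) k] at b
    conv_lhs => rw [← k, inner_sa (w.q_proj x), k, b]
    rfl

theorem tr_piece (f : Fits q P bar e E) {A R Y : H →L[ℂ] H} (hA : IsUnit A)
    (h : ∀ i ξ, E i ξ = ξ → A (E i (R ξ)) = ξ) (hY : ∀ i, Commute (E i) Y) :
    tr e (Ring.inverse A * Y) = tr e (R * Y) := by
  refine tr_congr fun i => ?_
  have a := h i _ (fix_of_comm (hY i) (f.mem i))
  have b : Ring.inverse A (A (E i (R (Y (e i))))) = E i (R (Y (e i))) :=
    congrArg (fun U : H →L[ℂ] H => U (E i (R (Y (e i))))) (Ring.inverse_mul_cancel A hA)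
  rw [a] at b
  rw [mul_apply_eq_comp, mul_apply_eq_comp, b,
    ← inner_sa (f.piece i).proj, f.mem]

theorem tr_wall (w : Walls π q P bar) (f : Fits q P bar e E) {S R D : H →L[ℂ] H}
    (hS : IsUnit ((1 / 2 : ℂ) • S + (1 - Wp q))) (h : ∀ x ξ, q x ξ = ξ → S (q x (R ξ)) = ξ)
    (hD : BD q D) :
    tr e (R * D) = 1 / 2 * tr e (Ring.inverse ((1 / 2 : ℂ) • S + (1 - Wp q)) * D) := by
  rw [← tr_smul]
  refine tr_congr fun i => ?_
  rw [mul_apply_eq_comp, smul_apply, mul_apply_eq_comp]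
  rcases f.wall i with k | ⟨x, k⟩
  · rw [hD.zero w.q_proj k, map_zero, map_zero, smul_zero]
  · have a := h x _ (fix_of_comm (hD.blk x) k)
    have a0 : (1 - Wp q) * q x = 0 := by rw [sub_mul, one_mul, Wp_mul_q w.q_proj, sub_self]
    have a1 : (1 - Wp q) (q x (R (D (e i)))) = 0 := congrArg (fun U : H →L[ℂ] H => U (R (D (e i)))) a0
    have b : Ring.inverse ((1 / 2 : ℂ) • S + (1 - Wp q))
        (((1 / 2 : ℂ) • S + (1 - Wp q)) (q x (R (D (e i))))) = q x (R (D (e i))) :=
      congrArg (fun U : H →L[ℂ] H => U (q x (R (D (e i))))) (Ring.inverse_mul_cancel _ hS)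
    rw [add_apply, a1, add_zero, smul_apply, a,
      map_smul] at b
    rw [show ((1 / 2 : ℝ) : ℂ) = 1 / 2 by norm_num, b, ← inner_sa (w.q_proj x), k]

end Pool.Agent.MP_4f4d9f_gt.Cb.Bethe

end

section

/-! The Bethe formula. -/

open scoped InnerProductSpace Topology
open Set Filter Asymptotics

namespace Pool.Agent.MP_4f4d9f_gt.Cb

namespace Bethe

variable {G H I X : Type} [Group G] [Fintype I] [NormedAddCommGroup H] [InnerProductSpace ℂ H]
  [CompleteSpace H] {π : G →* (H →L[ℂ] H)} {q P : X → H →L[ℂ] H} {bar : X → X}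
  {τ : H →L[ℂ] H} {e : I → H} {E : I → H →L[ℂ] H}

/-- The symmetrisation of an operator. -/
noncomputable def sym (τ L : H →L[ℂ] H) : H →L[ℂ] H := (1 / 2 : ℂ) • (L + τ * L * τ)

theorem half : (1 / 2 : ℂ) = ((1 / 2 : ℝ) : ℂ) := by norm_num

omit [CompleteSpace H] in
theorem sym_sub (τ L L' : H →L[ℂ] H) : sym τ L - sym τ L' = sym τ (L - L') := by
  simp only [sym, ← smul_sub]
  congr 1
  noncomm_ring

omit [CompleteSpace H] in
theorem cmp_sub (τ Q Q' N N' : H →L[ℂ] H) : cmp τ Q N - cmp τ Q' N' = cmp τ (Q - Q') (N - N') := by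
  simp only [cmp]
  noncomm_ring

omit [CompleteSpace H] in
theorem one_sub_pj (τ : H →L[ℂ] H) : 1 - pj τ = (1 / 2 : ℂ) • (1 - τ) := by
  simp only [pj]
  module

theorem pj_idem (g : Glue π q P bar τ) : pj τ * pj τ = pj τ := by
  simp only [pj, smul_mul_smul_comm, mul_add, add_mul, one_mul, mul_one, g.inv]
  module

theorem pj_star (g : Glue π q P bar τ) : star (pj τ) = pj τ := by
  rw [pj, half, Complex.coe_smul, star_smul, star_add, star_one, g.sa, star_trivial]

theorem pj_r (g : Glue π q P bar τ) : pj τ * (1 - pj τ) = 0 := by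
  rw [mul_sub, mul_one, pj_idem g, sub_self]

theorem r_pj (g : Glue π q P bar τ) : (1 - pj τ) * pj τ = 0 := by
  rw [sub_mul, one_mul, pj_idem g, sub_self]

theorem r_r (g : Glue π q P bar τ) : (1 - pj τ) * (1 - pj τ) = 1 - pj τ := by
  rw [mul_sub, mul_one, r_pj g, sub_zero]

theorem r_W (w : Walls π q P bar) (g : Glue π q P bar τ) : (1 - pj τ) * Wp q = 1 - pj τ := by
  have : (1 - pj τ) * (1 - Wp q) = 0 := by
    rw [one_sub_pj, smul_mul_assoc, sub_mul, one_mul, tau_int w.q_proj g, sub_self, smul_zero]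
  rw [mul_sub, mul_one, sub_eq_zero] at this
  exact this.symm

omit [CompleteSpace H] in
theorem comm_pj {a : H →L[ℂ] H} (h : Commute a τ) : Commute a (pj τ) :=
  ((Commute.one_right a).add_right h).smul_right _

omit [CompleteSpace H] in
theorem comm_r {a : H →L[ℂ] H} (h : Commute a τ) : Commute a (1 - pj τ) :=
  (Commute.one_right a).sub_right (comm_pj h)

omit [CompleteSpace H] in
theorem comm_conj {a L : H →L[ℂ] H} (h : Commute a τ) (h' : Commute a L) :
    Commute a (τ * L * τ) := (h.mul_right h').mul_right h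

omit [CompleteSpace H] in
theorem comm_sym {a L : H →L[ℂ] H} (h : Commute a τ) (h' : Commute a L) : Commute a (sym τ L) :=
  (h'.add_right (comm_conj h h')).smul_right _

omit [CompleteSpace H] in
theorem comm_cmp {a Q N : H →L[ℂ] H} (h : Commute a τ) (h1 : Commute a Q) (h2 : Commute a N) :
    Commute a (cmp τ Q N) :=
  (((comm_pj h).mul_right h1).mul_right (comm_pj h)).add_right
    (((comm_r h).mul_right h2).mul_right (comm_r h))

theorem tau_sym (g : Glue π q P bar τ) (L : H →L[ℂ] H) : Commute τ (sym τ L) := by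
  refine Commute.smul_right ?_ _
  show τ * (L + τ * L * τ) = (L + τ * L * τ) * τ
  rw [mul_add, add_mul, ← mul_assoc, ← mul_assoc, g.inv, one_mul, mul_assoc (τ * L), g.inv,
    mul_one, add_comm]

theorem bd_sym (w : Walls π q P bar) (g : Glue π q P bar τ) {L : H →L[ℂ] H} (h : BD q L) :
    BD q (sym τ L) := (h.add (h.conj w g)).smul _

theorem le_conj (w : Walls π q P bar) (g : Glue π q P bar τ) {L : H →L[ℂ] H} (h : Wp q ≤ L) :
    Wp q ≤ τ * L * τ := by
  have := star_left_conjugate_le_conjugate h τ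
  rwa [g.sa, tau_W_tau w.q_proj g] at this

theorem le_sym (w : Walls π q P bar) (g : Glue π q P bar τ) {L : H →L[ℂ] H} (h : Wp q ≤ L) :
    Wp q ≤ sym τ L := by
  have e : sym τ L - Wp q = (1 / 2 : ℂ) • ((L - Wp q) + (τ * L * τ - Wp q)) := by
    simp only [sym]
    module
  rw [← sub_nonneg, e, half, Complex.coe_smul]
  exact smul_nonneg (by norm_num) (add_nonneg (sub_nonneg.2 h) (sub_nonneg.2 (le_conj w g h)))

theorem cmp_one_W (w : Walls π q P bar) (g : Glue π q P bar τ) : cmp τ 1 (Wp q) = 1 := by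
  rw [cmp, mul_one, pj_idem g, r_W w g, r_r g, add_sub_cancel]

theorem one_le_cmp (w : Walls π q P bar) (g : Glue π q P bar τ) {Q N : H →L[ℂ] H} (hQ : 1 ≤ Q)
    (hN : Wp q ≤ N) : 1 ≤ cmp τ Q N := by
  rw [← cmp_one_W w g]
  have a := star_left_conjugate_le_conjugate hQ (pj τ)
  have b := star_left_conjugate_le_conjugate hN (1 - pj τ)
  rw [pj_star g] at a
  rw [star_sub, star_one, pj_star g] at b
  exact add_le_add a b

theorem spos {x : H →L[ℂ] H} (h : 1 ≤ x) : IsStrictlyPositive x :=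
  IsStrictlyPositive.of_le isStrictlyPositive_one h

theorem one_le_add {Q N : H →L[ℂ] H} (hQ : 1 ≤ Q) (hN : Wp q ≤ N) : 1 ≤ Q + N :=
  hQ.trans (le_add_of_nonneg_right ((Wp_proj q).nonneg.trans hN))

theorem W_le_one (q : X → H →L[ℂ] H) : Wp q ≤ 1 := sub_nonneg.1 (Wp_proj q).one_sub.nonneg

/-- What is known about one admissible form `Q` and its boundary operator `L`. -/
structure Dat (π : G →* (H →L[ℂ] H)) (q P : X → H →L[ℂ] H) (τ : H →L[ℂ] H) (E : I → H →L[ℂ] H)
    (Q L : H →L[ℂ] H) : Prop where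
  adm : Adm π P Q
  wd : WD π q L
  wall : ∀ x ξ, q x ξ = ξ → (L + τ * L * τ) (q x (grn τ Q ξ)) = ξ
  piece : ∀ i ξ, E i ξ = ξ → (Q + τ * L * τ) (E i (grn τ Q ξ)) = ξ

theorem traces (htr : ∀ S T, Cm π S → Cm π T → tr e (S * T) = tr e (T * S))
    (w : Walls π q P bar) (g : Glue π q P bar τ) (f : Fits q P bar e E) {Q L : H →L[ℂ] H}
    (d : Dat π q P τ E Q L) :
    tr e (Ring.inverse (Q + τ * L * τ) * (Q + sym τ L - (Q + τ * L * τ))) = 0 ∧
      ∀ Y D, Cm π Y → (∀ i, Commute (E i) Y) → Cm π D → BD q D →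
        tr e (Ring.inverse (Q + τ * L * τ) * (Y + τ * D * τ)) =
          tr e (Ring.inverse (cmp τ Q (sym τ L)) * cmp τ Y (sym τ D)) := by
  have bL : BD q L := ⟨d.wd.blk, d.wd.out⟩
  have bN := bd_sym w g bL
  have uA : IsUnit (Q + τ * L * τ) := (spos (one_le_add d.adm.one_le (le_conj w g d.wd.le))).isUnit
  have uN : IsUnit (sym τ L + (1 - Wp q)) := by
    refine (spos ?_).isUnit
    have := le_sym w g d.wd.le
    rw [← sub_nonneg] at this ⊢
    convert this using 1
    abel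
  have uC : IsUnit (cmp τ Q (sym τ L)) :=
    (spos (one_le_cmp w g d.adm.one_le (le_sym w g d.wd.le))).isUnit
  have uC1 : IsUnit (cmp τ Q 1) := (spos (one_le_cmp w g d.adm.one_le (W_le_one q))).isUnit
  set Ni := Ring.inverse (sym τ L + (1 - Wp q)) with hNi
  have cW : Cm π (Wp q) := by
    intro k
    refine wall_ext w.q_proj (fun x => ?_) ?_
    · obtain ⟨x', h, -⟩ := w.eqv k x
      rw [mul_assoc, Wp_mul_q w.q_proj, mul_assoc, h, ← mul_assoc, Wp_mul_q w.q_proj]
    · have a : Wp q * (π k * (1 - Wp q)) = 0 := W_mul_eq_zero fun x => by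
        obtain ⟨x', h, -⟩ := w.eqv k⁻¹ x
        have b : q x * π k = π k * q x' := by
          calc q x * π k = π k * (π k⁻¹ * q x) * π k := by
                rw [← mul_assoc, ← map_mul, mul_inv_cancel, map_one, one_mul]
            _ = π k * q x' := by
                rw [h, mul_assoc, mul_assoc, ← map_mul, inv_mul_cancel, map_one, mul_one]
        rw [← mul_assoc, b, mul_assoc, q_int w.q_proj, mul_zero]
      rw [mul_assoc, (bd_W w.q_proj).int w.q_proj, mul_zero, mul_assoc, a]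
  have cNi : ∀ a, Commute a τ → Commute a L → Commute a (Wp q) → Commute a Ni := fun a h1 h2 h3 =>
    comm_inv ((comm_sym h1 h2).add_right ((Commute.one_right a).sub_right h3))
  have Ni_cm : Cm π Ni := fun k => cNi _ (g.cm k) (d.wd.cm k) (cW k)
  have Ni_tau : Commute τ Ni :=
    comm_inv ((tau_sym g L).add_right ((Commute.one_right τ).sub_right (W_tau w.q_proj g).symm))
  have Ni_q : ∀ x, Commute (q x) Ni := fun x =>
    comm_inv ((bN.blk x).add_right ((Commute.one_right _).sub_right ((bd_W w.q_proj).blk x)))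
  have Ni_W : Commute (Wp q) Ni :=
    comm_inv ((bN.commW w.q_proj).add_right ((Commute.one_right _).sub_right (Commute.refl _)))
  have t1 : ∀ Y, (∀ i, Commute (E i) Y) →
      tr e (Ring.inverse (Q + τ * L * τ) * Y) = tr e (grn τ Q * Y) := fun Y hY =>
    tr_piece f uA d.piece hY
  have t2 : ∀ D, BD q D → tr e (Ring.inverse (Q + τ * L * τ) * D) = 1 / 2 * tr e (Ni * D) :=
    fun D hD => (t1 D fun i => hD.piece w.q_proj (f.piece i)).trans (tr_wall w f uN d.wall hD)
  have t3 : ∀ D, Cm π D → tr e (Ni * (τ * D * τ)) = tr e (Ni * D) := by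
    intro D hD
    have a : Ni * (τ * D * τ) = τ * (Ni * D * τ) := by
      simp only [← mul_assoc, Ni_tau.eq]
    rw [a, htr _ _ g.cm fun k => ((Ni_cm k).mul_right (hD k)).mul_right (g.cm k), mul_assoc,
      g.inv, mul_one]
  have t4 : ∀ D, Cm π D → tr e (Ni * sym τ D) = tr e (Ni * (τ * D * τ)) := by
    intro D hD
    rw [sym, mul_smul_comm, half, tr_smul, mul_add, tr_add, t3 D hD]
    ring
  refine ⟨?_, fun Y D hY hYE hD bD => ?_⟩
  · rw [add_sub_add_left_eq_sub, t2 _ (bN.sub (bL.conj w g)), mul_sub, tr_sub, t4 L d.wd.cm,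
      sub_self, mul_zero]
  · have rC : Commute (1 - pj τ) (cmp τ Q 1) := by
      show (1 - pj τ) * cmp τ Q 1 = cmp τ Q 1 * (1 - pj τ)
      rw [cmp, mul_one, r_r g, mul_add, add_mul, r_r g, ← mul_assoc, ← mul_assoc, r_pj g,
        mul_assoc _ (pj τ), pj_r g, zero_mul, zero_mul, mul_zero]
    have rCi := comm_inv rC
    have pCi : Commute (pj τ) (Ring.inverse (cmp τ Q 1)) := by
      have := (Commute.one_left (Ring.inverse (cmp τ Q 1))).sub_left rCi
      rwa [sub_sub_cancel] at this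
    have inv : Ring.inverse (cmp τ Q (sym τ L)) =
        Ring.inverse (cmp τ Q 1) * pj τ + (1 - pj τ) * Ni :=
      inv_eq uC (ring_inv (add_sub_cancel _ _) (pj_idem g) (r_r g) (pj_r g) (r_pj g)
        (Ring.mul_inverse_cancel _ uC1) rCi (comm_r (tau_sym g L).symm).symm
        (Ring.mul_inverse_cancel _ uN) (r_W w g))
    have cR : Cm π (grn τ Q * Y) := fun k =>
      ((comm_inv (comm_cmp (g.cm k) (d.adm.cm k) (Commute.one_right _))).mul_right
        (comm_pj (g.cm k))).mul_right (hY k)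
    have a1 : tr e (grn τ Q * Y * pj τ) = tr e (grn τ Q * Y) := by
      rw [htr _ _ cR fun k => comm_pj (g.cm k), grn, ← mul_assoc, ← mul_assoc, pCi.eq,
        mul_assoc _ (pj τ) (pj τ), pj_idem g]
    have a2 : tr e ((1 - pj τ) * (Ni * sym τ D)) = 1 / 2 * tr e (Ni * (τ * D * τ)) := by
      rw [one_sub_pj, smul_mul_assoc, half, tr_smul, sub_mul, one_mul, tr_sub,
        tr_tau w g f ((bd_sym w g bD).mul Ni_q Ni_W), sub_zero, t4 D hD]
    rw [inv, cmp.eq_1 τ Y, ring_mul (pj_idem g) (r_r g) (pj_r g) (r_pj g)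
      (comm_r (tau_sym g D).symm).symm (comm_r Ni_tau.symm).symm, tr_add, a2, mul_add, tr_add,
      t1 Y hYE, t2 _ (bD.conj w g)]
    exact congrArg (· + _) a1.symm

end Bethe

open Bethe in
theorem bethe_stmt (h1 : LdBasStmt) (h2 : SubStmt) : BetheStmt := by
  intro G H I X _ _ _ _ _ π e F q P bar τ w g E f Q hQ hE
  obtain ⟨htr, -, hder, hkl⟩ := h1 G H I π e F
  obtain ⟨Λ, Λ1, hΛ, hlip⟩ := h2 G H X π F.star_eq q P bar τ w g
  let Qs : ℝ → H →L[ℂ] H := fun s => Q + (s : ℂ) • (1 - Q)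
  have cQ : ∀ s a, Commute a Q → Commute a (Qs s) := fun s a h =>
    h.add_right (((Commute.one_right a).sub_right h).smul_right _)
  have adm : ∀ s ∈ Icc (0 : ℝ) 1, Adm π P (Qs s) := by
    intro s hs
    refine ⟨?_, fun k => cQ s _ (hQ.cm k), fun x => cQ s _ (hQ.side x)⟩
    have e : Qs s - 1 = ((1 - s : ℝ) : ℂ) • (Q - 1) := by
      simp only [Qs]
      push_cast
      module
    rw [← sub_nonneg, e, Complex.coe_smul]
    exact smul_nonneg (sub_nonneg.2 hs.2) (sub_nonneg.2 hQ.one_le)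
  have dat : ∀ s ∈ Icc (0 : ℝ) 1, Dat π q P τ E (Qs s) (Λ (Qs s)) := fun s hs =>
    ⟨adm s hs, (hΛ _ (adm s hs)).1, (hΛ _ (adm s hs)).2.1, fun i =>
      (hΛ _ (adm s hs)).2.2 _ (f.piece i) (cQ s _ (hE i))⟩
  have Q0 : Qs 0 = Q := by simp [Qs]
  have Q1 : Qs 1 = 1 := by simp [Qs]
  have nQ : ∀ s t, ‖Qs s - Qs t‖ = ‖1 - Q‖ * ‖s - t‖ := by
    intro s t
    have e : Qs s - Qs t = ((s - t : ℝ) : ℂ) • (1 - Q) := by
      simp only [Qs]
      push_cast
      module
    rw [e, norm_smul, Complex.norm_real, mul_comm]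
  have bQ : ∀ s ∈ Icc (0 : ℝ) 1, ‖Qs s‖ ≤ ‖Q‖ + ‖1 - Q‖ := by
    intro s hs
    refine (norm_add_le _ _).trans (add_le_add le_rfl ?_)
    rw [norm_smul, Complex.norm_real, Real.norm_of_nonneg hs.1]
    exact mul_le_of_le_one_left (norm_nonneg _) hs.2
  have oQ : ∀ t, (fun s => Qs s - Qs t) =O[𝓝[Icc 0 1] t] fun s => s - t := fun t =>
    IsBigO.of_bound ‖1 - Q‖ (Eventually.of_forall fun s => (nQ s t).le)
  have oL : ∀ t ∈ Icc (0 : ℝ) 1,
      (fun s => Λ (Qs s) - Λ (Qs t)) =O[𝓝[Icc 0 1] t] fun s => s - t := by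
    intro t ht
    refine IsBigO.trans (IsBigO.of_bound (‖Q‖ + ‖1 - Q‖) ?_) (oQ t)
    filter_upwards [self_mem_nhdsWithin] with s hs
    exact (hlip _ _ (adm s hs) (adm t ht)).trans
      (mul_le_mul_of_nonneg_right (max_le (bQ s hs) (bQ t ht)) (norm_nonneg _))
  have eA : ∀ s t, Qs s + τ * Λ (Qs s) * τ - (Qs t + τ * Λ (Qs t) * τ) =
      Qs s - Qs t + τ * (Λ (Qs s) - Λ (Qs t)) * τ := fun s t => by noncomm_ring
  have key := path_const (ld e) (fun s => Qs s + τ * Λ (Qs s) * τ)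
    (fun s => cmp τ (Qs s) (sym τ (Λ (Qs s)))) (fun t ht => by
      simp only [eA]
      exact (oQ t).add (bigO_mul (oL t ht) τ τ)) (fun t ht => by
      simp only [cmp_sub, sym_sub]
      exact (bigO_mul (oQ t) _ _).add
        (bigO_mul (((oL t ht).add (bigO_mul (oL t ht) τ τ)).const_smul_left (1 / 2 : ℂ)) _ _))
    (fun t ht => by
      have d := dat t ht
      obtain ⟨La, a1, a2⟩ := hder (Qs t + τ * Λ (Qs t) * τ)
        (fun k => (d.adm.cm k).add_right (comm_conj (g.cm k) (d.wd.cm k)))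
        (spos (one_le_add d.adm.one_le (le_conj w g d.wd.le)))
      obtain ⟨Lb, b1, b2⟩ := hder (cmp τ (Qs t) (sym τ (Λ (Qs t))))
        (fun k => comm_cmp (g.cm k) (d.adm.cm k) (comm_sym (g.cm k) (d.wd.cm k)))
        (spos (one_le_cmp w g d.adm.one_le (le_sym w g d.wd.le)))
      refine ⟨La, Lb, a1, b1, fun s hs => ?_⟩
      have d' := dat s hs
      have cY : Cm π (Qs s - Qs t) := fun k => (d'.adm.cm k).sub_right (d.adm.cm k)
      have cD : Cm π (Λ (Qs s) - Λ (Qs t)) := fun k => (d'.wd.cm k).sub_right (d.wd.cm k)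
      simp only [eA, cmp_sub, sym_sub]
      rw [a2 _ fun k => (cY k).add_right (comm_conj (g.cm k) (cD k)),
        b2 _ fun k => comm_cmp (g.cm k) (cY k) (comm_sym (g.cm k) (cD k))]
      exact (traces htr w g f d).2 _ _ cY (fun i => (cQ s _ (hE i)).sub_right (cQ t _ (hE i))) cD
        (BD.sub ⟨d'.wd.blk, d'.wd.out⟩ ⟨d.wd.blk, d.wd.out⟩))
  have d := dat 0 (left_mem_Icc.2 zero_le_one)
  have sW : sym τ (Wp q) = Wp q := by
    rw [sym, tau_W_tau w.q_proj g]
    module
  simp only [Q0, Q1, Λ1, tau_W_tau w.q_proj g, sW, cmp_one_W w g, ld_one] at key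
  rw [Q0] at d
  have bN := bd_sym w g (L := Λ Q) ⟨d.wd.blk, d.wd.out⟩
  have cN : Cm π (sym τ (Λ Q)) := fun k => comm_sym (g.cm k) (d.wd.cm k)
  refine ⟨sym τ (Λ Q), ⟨le_sym w g d.wd.le, cN, bN.blk, bN.out⟩, tau_sym g _, ?_⟩
  have k := hkl (Q + τ * Λ Q * τ) (Q + sym τ (Λ Q))
    (fun k => (hQ.cm k).add_right (comm_conj (g.cm k) (d.wd.cm k)))
    (fun k => (hQ.cm k).add_right (cN k))
    (spos (one_le_add hQ.one_le (le_conj w g d.wd.le)))
    (spos (one_le_add hQ.one_le (le_sym w g d.wd.le)))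
  rw [(traces htr w g f d).1] at k
  linarith

end Pool.Agent.MP_4f4d9f_gt.Cb

end
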