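import Pool.Agent.Mg.F4f4d9fr.G715938

set_option linter.all false

/-! From determinants to ranks. -/

open scoped InnerProductSpace Topology
open Set Filter MeasureTheory

namespace Pool.Agent.MP_4f4d9f_gt.Cb

namespace Lim

variable {H I : Type} [Fintype I] [NormedAddCommGroup H] [InnerProductSpace ℂ H]
  [CompleteSpace H]

/-- The trace as a continuous linear map. -/
noncomputable def trL (e : I → H) : (H →L[ℂ] H) →L[ℝ] ℝ :=
  ∑ i, Complex.reCLM ∘L ((innerSL ℂ (e i)).restrictScalars ℝ) ∘L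
    ((ContinuousLinearMap.apply ℂ H (e i)).restrictScalars ℝ)

omit [CompleteSpace H] in
theorem trL_apply (e : I → H) (T : H →L[ℂ] H) : trL e T = tr e T := by
  simp [trL, tr]

omit [CompleteSpace H] in
theorem tr_nonneg (e : I → H) {T : H →L[ℂ] H} (h : 0 ≤ T) : 0 ≤ tr e T :=
  Finset.sum_nonneg fun i _ =>
    ((ContinuousLinearMap.nonneg_iff_isPositive T).1 h).re_inner_nonneg_right (e i)

theorem tr_mono (e : I → H) {S T : H →L[ℂ] H} (h : S ≤ T) : tr e S ≤ tr e T := by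
  have := tr_nonneg e (sub_nonneg.2 h)
  rw [tr_sub] at this
  linarith

theorem spec {K : H →L[ℂ] H} (hK : 0 ≤ K) {c : ℝ} (hc : ‖K‖ ≤ c) :
    spectrum ℝ K ⊆ Icc 0 c := by
  intro x hx
  have h0 := spectrum_nonneg_of_nonneg hK hx
  refine ⟨h0, ?_⟩
  have h1 := spectrum.norm_le_norm_mul_of_mem hx
  have h2 : ‖(1 : H →L[ℂ] H)‖ ≤ 1 := ContinuousLinearMap.norm_id_le
  have h3 : ‖K‖ * ‖(1 : H →L[ℂ] H)‖ ≤ ‖K‖ * 1 := mul_le_mul_of_nonneg_left h2 (norm_nonneg _)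
  rw [Real.norm_eq_abs, abs_of_nonneg h0] at h1
  linarith

theorem tr_sand (e : I → H) {K R : H →L[ℂ] H} (hK : 0 ≤ K) (hR : IsStarProjection R)
    (hRK : R * K = K) {g : ℝ → ℝ} (hg : ContinuousOn g (spectrum ℝ K)) :
    tr e (cfc (fun x => x * g x) K) =
      ∑ i, (⟪R (e i), cfc (fun x => x * g x) K (R (e i))⟫_ℂ).re := by
  have hsa : IsSelfAdjoint K := hK.isSelfAdjoint
  have h1 : cfc (fun x => x * g x) K = K * cfc g K := by
    rw [cfc_mul (fun x => x) g K continuousOn_id hg, cfc_id' ℝ K]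
  have h2 : R * cfc (fun x => x * g x) K = cfc (fun x => x * g x) K := by
    rw [h1, ← mul_assoc, hRK]
  have h3 : cfc (fun x => x * g x) K * R = cfc (fun x => x * g x) K := by
    have := congrArg star h2
    rwa [star_mul, hR.isSelfAdjoint.star_eq,
      (cfc_predicate (fun x : ℝ => x * g x) K).star_eq] at this
  refine Finset.sum_congr rfl fun i _ => ?_
  have h4 : cfc (fun x => x * g x) K (e i) = R (cfc (fun x => x * g x) K (R (e i))) := by
    change _ = (R * (cfc (fun x => x * g x) K * R)) (e i)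
    rw [h3, h2]
  rw [h4, ← ContinuousLinearMap.adjoint_inner_left, ← ContinuousLinearMap.star_eq_adjoint,
    hR.isSelfAdjoint.star_eq]

theorem tr_bound (e : I → H) {K R : H →L[ℂ] H} (hK : 0 ≤ K) (hR : IsStarProjection R)
    (hRK : R * K = K) {g : ℝ → ℝ} (hg : ContinuousOn g (spectrum ℝ K)) {b : ℝ} (hb : 0 ≤ b)
    (h : ∀ x ∈ spectrum ℝ K, |x * g x| ≤ b) :
    |tr e (cfc (fun x => x * g x) K)| ≤ b * ∑ i, ‖R (e i)‖ ^ 2 := by
  rw [tr_sand e hK hR hRK hg, Finset.mul_sum]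
  refine (Finset.abs_sum_le_sum_abs _ _).trans (Finset.sum_le_sum fun i _ => ?_)
  have h1 : ‖cfc (fun x => x * g x) K‖ ≤ b := norm_cfc_le hb h
  have h2 : ‖cfc (fun x => x * g x) K (R (e i))‖ ≤ b * ‖R (e i)‖ :=
    ContinuousLinearMap.le_of_opNorm_le _ h1 _
  calc _ ≤ ‖⟪R (e i), cfc (fun x => x * g x) K (R (e i))⟫_ℂ‖ := Complex.abs_re_le_norm _
    _ ≤ ‖R (e i)‖ * ‖cfc (fun x => x * g x) K (R (e i))‖ := norm_inner_le_norm _ _
    _ ≤ ‖R (e i)‖ * (b * ‖R (e i)‖) := mul_le_mul_of_nonneg_left h2 (norm_nonneg _)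
    _ = _ := by ring

theorem int_log {a : ℝ} (ha : 0 ≤ a) :
    ∫ r in Ioc (0 : ℝ) 1, a * (1 + r * a)⁻¹ = Real.log (1 + a) := by
  rw [← intervalIntegral.integral_of_le zero_le_one]
  have hpos : ∀ r ∈ uIcc (0 : ℝ) 1, 0 < 1 + r * a := by
    intro r hr
    rw [uIcc_of_le zero_le_one] at hr
    have := mul_nonneg hr.1 ha
    linarith
  rw [intervalIntegral.integral_eq_sub_of_hasDerivAt (f := fun r => Real.log (1 + r * a))]
  · simp
  · intro r hr
    have h1 : HasDerivAt (fun r : ℝ => 1 + r * a) a r := by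
      simpa using ((hasDerivAt_id r).mul_const a).const_add 1
    have h2 := h1.log (hpos r hr).ne'
    rwa [div_eq_mul_inv] at h2
  · refine ContinuousOn.intervalIntegrable ?_
    exact continuousOn_const.mul (ContinuousOn.inv₀ (by fun_prop) fun r hr => (hpos r hr).ne')

theorem ld_eq (e : I → H) {K : H →L[ℂ] H} (hK : 0 ≤ K) {t : ℝ} (ht : 0 < t) :
    ld e (1 + (t : ℂ) • K) = tr e (cfc (fun x => Real.log (1 + t * x)) K) := by
  have hsa : IsSelfAdjoint K := hK.isSelfAdjoint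
  have hs := spec hK le_rfl
  have hpos : ∀ r ∈ Ioc (0 : ℝ) 1, ∀ x ∈ spectrum ℝ K, 1 ≤ 1 + r * (t * x) := by
    intro r hr x hx
    have := mul_nonneg hr.1.le (mul_nonneg ht.le (hs hx).1)
    linarith
  have hcont : ContinuousOn (Function.uncurry fun r x : ℝ => t * x * (1 + r * (t * x))⁻¹)
      (Ioc (0 : ℝ) 1 ×ˢ spectrum ℝ K) := by
    refine ContinuousOn.mul (by fun_prop) (ContinuousOn.inv₀ (by fun_prop) fun p hp => ?_)
    have := hpos p.1 hp.1 p.2 hp.2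
    linarith
  have hbd : ∀ᵐ r ∂(volume.restrict (Ioc (0 : ℝ) 1)), ∀ x ∈ spectrum ℝ K,
      ‖t * x * (1 + r * (t * x))⁻¹‖ ≤ (fun _ => t * ‖K‖) r := by
    filter_upwards [ae_restrict_mem measurableSet_Ioc] with r hr x hx
    have h1 := hpos r hr x hx
    have h2 : (1 + r * (t * x))⁻¹ ≤ 1 := inv_le_one_of_one_le₀ h1
    have h3 : 0 ≤ (1 + r * (t * x))⁻¹ := inv_nonneg.2 (by linarith)
    have h4 : 0 ≤ t * x := mul_nonneg ht.le (hs hx).1
    have h5 : t * x ≤ t * ‖K‖ := mul_le_mul_of_nonneg_left (hs hx).2 ht.le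
    rw [Real.norm_eq_abs, abs_of_nonneg (mul_nonneg h4 h3)]
    nlinarith
  have hfin : HasFiniteIntegral (fun _ : ℝ => t * ‖K‖) (volume.restrict (Ioc (0 : ℝ) 1)) :=
    (integrable_const _).hasFiniteIntegral
  have h1 := cfc_setIntegral measurableSet_Ioc _ _ K hcont hbd hfin
  have h2 := integrableOn_cfc measurableSet_Ioc _ _ K hcont hbd hfin
  have h3 : cfc (fun x => Real.log (1 + t * x)) K =
      cfc (fun x => ∫ r in Ioc (0 : ℝ) 1, t * x * (1 + r * (t * x))⁻¹) K :=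
    cfc_congr fun x hx => (int_log (mul_nonneg ht.le (hs hx).1)).symm
  rw [h3, h1, ← trL_apply, ← ContinuousLinearMap.integral_comp_comm _ h2, ld,
    intervalIntegral.integral_of_le zero_le_one]
  refine setIntegral_congr_fun measurableSet_Ioc fun r hr => ?_
  have hne : ∀ x ∈ spectrum ℝ K, 1 + r * (t * x) ≠ 0 := fun x hx => by
    have := hpos r hr x hx
    linarith
  have e1 : cfc (fun x => t * x) K = (t : ℂ) • K := by
    rw [cfc_const_mul_id t K, Complex.coe_smul]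
  have e2 : cfc (fun x => 1 + r * (t * x)) K = 1 + (r : ℂ) • (t : ℂ) • K := by
    rw [cfc_add K _ _, cfc_const_one ℝ K, cfc_const_mul r _ K, e1, Complex.coe_smul r]
  simp only [trL_apply, add_sub_cancel_left]
  rw [cfc_mul (fun x => t * x) (fun x => (1 + r * (t * x))⁻¹) K (by fun_prop)
    (ContinuousOn.inv₀ (by fun_prop) hne), cfc_inv _ K hne, e1, e2]

/-- The quotient `log (1 + t x) / x`. -/
noncomputable def lg (t : ℝ) : ℝ → ℝ := dslope (fun x => Real.log (1 + t * x)) 0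

theorem lg_mul (t x : ℝ) : x * lg t x = Real.log (1 + t * x) := by
  have := sub_smul_dslope (fun x => Real.log (1 + t * x)) 0 x
  simpa [lg] using this

theorem lg_cont {t : ℝ} (ht : 0 < t) (c : ℝ) : ContinuousOn (lg t) (Icc 0 c) := by
  have hn : {x : ℝ | 0 < 1 + t * x} ∈ 𝓝 (0 : ℝ) :=
    (isOpen_lt continuous_const (by fun_prop)).mem_nhds (by simp)
  refine ((continuousOn_dslope hn).2 ⟨?_, ?_⟩).mono fun x hx => ?_
  · exact ContinuousOn.log (by fun_prop) fun x hx => ne_of_gt hx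
  · exact DifferentiableAt.log (by fun_prop) (by simp)
  · have := mul_nonneg ht.le hx.1
    change 0 < 1 + t * x
    linarith

theorem ld_eq' (e : I → H) {K : H →L[ℂ] H} (hK : 0 ≤ K) {t : ℝ} (ht : 0 < t) :
    ld e (1 + (t : ℂ) • K) = tr e (cfc (fun x => x * lg t x) K) := by
  rw [ld_eq e hK ht]
  simp only [lg_mul]

theorem tr_poly (e : I → H) {K : H →L[ℂ] H} (hK : 0 ≤ K) (q : Polynomial ℝ) :
    tr e (cfc (fun x => x * q.eval x) K) =
      ∑ j ∈ Finset.range (q.natDegree + 1), q.coeff j * tr e (K ^ (j + 1)) := by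
  have hsa : IsSelfAdjoint K := hK.isSelfAdjoint
  have h1 : (fun x : ℝ => x * q.eval x) =
      ∑ j ∈ Finset.range (q.natDegree + 1), fun x : ℝ => q.coeff j * x ^ (j + 1) := by
    funext x
    rw [Polynomial.eval_eq_sum_range, Finset.sum_apply, Finset.mul_sum]
    exact Finset.sum_congr rfl fun j _ => by ring
  rw [h1, cfc_sum _ K _ (fun j _ => by fun_prop), ← trL_apply, map_sum]
  refine Finset.sum_congr rfl fun j _ => ?_
  rw [cfc_const_mul _ _ K, cfc_pow_id K, map_smul, trL_apply, smul_eq_mul]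

theorem near (e : I → H) {K R : H →L[ℂ] H} (hK : 0 ≤ K) (hR : IsStarProjection R)
    (hRK : R * K = K) {c t η : ℝ} (hc : ‖K‖ ≤ c) (ht : 0 < t) (hη : 0 ≤ η) (q : Polynomial ℝ)
    (hq : ∀ x ∈ Icc 0 c, |q.eval x - lg t x| < η) :
    |(∑ j ∈ Finset.range (q.natDegree + 1), q.coeff j * tr e (K ^ (j + 1))) -
      ld e (1 + (t : ℂ) • K)| ≤ c * η * ∑ i, ‖R (e i)‖ ^ 2 := by
  have hs := spec hK hc
  have hg : ContinuousOn (lg t) (spectrum ℝ K) := (lg_cont ht c).mono hs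
  have hp : ContinuousOn (fun x => q.eval x) (spectrum ℝ K) := q.continuous.continuousOn
  rw [← tr_poly e hK, ld_eq' e hK ht, ← tr_sub, ← cfc_sub (fun x => x * q.eval x)
    (fun x => x * lg t x) K (continuousOn_id.mul hp) (continuousOn_id.mul hg)]
  simp only [← mul_sub]
  refine tr_bound e hK hR hRK (g := fun x => q.eval x - lg t x) (hp.sub hg)
    (mul_nonneg ((norm_nonneg _).trans hc) hη) fun x hx => ?_
  rw [abs_mul, abs_of_nonneg (hs hx).1]
  exact mul_le_mul (hs hx).2 (hq x (hs hx)).le (abs_nonneg _) ((norm_nonneg _).trans hc)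

theorem sum_near {n : ℕ} (a u v : ℕ → ℝ) {ε : ℝ} (h : ∀ j, j < n → |u j - v j| ≤ ε) :
    |∑ j ∈ Finset.range n, a j * u j - ∑ j ∈ Finset.range n, a j * v j| ≤
      (∑ j ∈ Finset.range n, |a j|) * ε := by
  rw [← Finset.sum_sub_distrib, Finset.sum_mul]
  refine (Finset.abs_sum_le_sum_abs _ _).trans (Finset.sum_le_sum fun j hj => ?_)
  rw [← mul_sub, abs_mul]
  exact mul_le_mul_of_nonneg_left (h j (Finset.mem_range.1 hj)) (abs_nonneg _)

theorem proj_mul (K : H →L[ℂ] H) : K.range.topologicalClosure.starProjection * K = K := by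
  ext ξ
  exact Submodule.starProjection_eq_self_iff.2
    (Submodule.le_topologicalClosure _ (LinearMap.mem_range_self _ ξ))

theorem upper (e : I → H) {K : H →L[ℂ] H} (hK : 0 ≤ K) {t : ℝ} (ht : 0 < t) :
    ld e (1 + (t : ℂ) • K) ≤ Real.log (1 + t * ‖K‖) * gdim e K.range := by
  have hs := spec hK le_rfl
  have h0 : 0 ≤ t * ‖K‖ := mul_nonneg ht.le (norm_nonneg _)
  rw [ld_eq' e hK ht]
  refine (le_abs_self _).trans (tr_bound e hK isStarProjection_starProjection (proj_mul K)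
    ((lg_cont ht _).mono hs) (Real.log_nonneg (by linarith)) fun x hx => ?_)
  have h1 : 0 ≤ t * x := mul_nonneg ht.le (hs hx).1
  have h2 : t * x ≤ t * ‖K‖ := mul_le_mul_of_nonneg_left (hs hx).2 ht.le
  rw [lg_mul, abs_of_nonneg (Real.log_nonneg (by linarith))]
  exact Real.log_le_log (by linarith) (by linarith)

theorem scal {t δ x : ℝ} (ht : 0 < t) (hδ : 0 < δ) (hx : 0 ≤ x) :
    Real.log (t * δ) * (x * (δ + x)⁻¹) ≤ Real.log (1 + t * x) := by
  have hp : 0 < δ + x := by linarith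
  have ha : 0 ≤ δ * (δ + x)⁻¹ := by positivity
  have hb : 0 ≤ x * (δ + x)⁻¹ := by positivity
  have hab : δ * (δ + x)⁻¹ + x * (δ + x)⁻¹ = 1 := by field_simp
  have h1 := strictConcaveOn_log_Ioi.concaveOn.2 (show (1 : ℝ) ∈ Ioi 0 from mem_Ioi.2 one_pos)
    (show t * δ ∈ Ioi 0 from mul_pos ht hδ) ha hb hab
  simp only [smul_eq_mul, Real.log_one, mul_zero, zero_add, mul_one] at h1
  have h2 : δ * (δ + x)⁻¹ ≤ 1 := by linarith
  have h3 : x * (δ + x)⁻¹ * (t * δ) ≤ t * x := by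
    have : x * (δ + x)⁻¹ * (t * δ) = t * x * (δ * (δ + x)⁻¹) := by ring
    rw [this]
    exact mul_le_of_le_one_right (mul_nonneg ht.le hx) h2
  have h4 : 0 < δ * (δ + x)⁻¹ + x * (δ + x)⁻¹ * (t * δ) := by positivity
  have h5 := Real.log_le_log h4 (add_le_add h2 h3)
  linarith

theorem inv_cont {K : H →L[ℂ] H} (hK : 0 ≤ K) {δ : ℝ} (hδ : 0 < δ) :
    ContinuousOn (fun x : ℝ => (δ + x)⁻¹) (spectrum ℝ K) :=
  ContinuousOn.inv₀ (by fun_prop) fun x hx => by
    have := spectrum_nonneg_of_nonneg hK hx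
    linarith

theorem lower (e : I → H) {K : H →L[ℂ] H} (hK : 0 ≤ K) {t δ : ℝ} (ht : 0 < t) (hδ : 0 < δ) :
    Real.log (t * δ) * tr e (cfc (fun x => x * (δ + x)⁻¹) K) ≤ ld e (1 + (t : ℂ) • K) := by
  have hs := spec hK le_rfl
  have hc : ContinuousOn (fun x : ℝ => x * (δ + x)⁻¹) (spectrum ℝ K) :=
    continuousOn_id.mul (inv_cont hK hδ)
  rw [ld_eq' e hK ht, ← tr_smul, Complex.coe_smul, ← cfc_const_mul _ _ K hc]
  refine tr_mono e (cfc_mono (fun x hx => ?_) (continuousOn_const.mul hc)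
    (continuousOn_id.mul ((lg_cont ht _).mono hs)))
  rw [lg_mul]
  exact scal ht hδ (hs hx).1

theorem slope_le {a b c δ : ℝ} (hb : 0 ≤ b) (hc : 0 ≤ c) (hδ : 0 < δ)
    (h : ∀ t, 0 < t → Real.log (t * δ) * a ≤ Real.log (1 + t * c) * b) : a ≤ b := by
  by_contra hab
  have hab' : 0 < a - b := by linarith [not_le.1 hab]
  obtain ⟨s, hs0, hs⟩ : ∃ s : ℝ, 0 ≤ s ∧
      Real.log (1 + c) * b - Real.log δ * a < s * (a - b) := by
    refine ⟨max 0 ((Real.log (1 + c) * b - Real.log δ * a) / (a - b) + 1), le_max_left _ _, ?_⟩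
    rw [← div_lt_iff₀ hab']
    exact lt_of_lt_of_le (lt_add_one _) (le_max_right _ _)
  have h1 := h (Real.exp s) (Real.exp_pos s)
  rw [Real.log_mul (Real.exp_pos s).ne' hδ.ne', Real.log_exp] at h1
  have h2 : 1 ≤ Real.exp s := Real.one_le_exp hs0
  have h3 : Real.log (1 + Real.exp s * c) ≤ s + Real.log (1 + c) := by
    have h4 : 0 ≤ Real.exp s * c := by positivity
    calc _ ≤ Real.log (Real.exp s * (1 + c)) := Real.log_le_log (by linarith) (by linarith)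
      _ = _ := by rw [Real.log_mul (Real.exp_pos s).ne' (by linarith), Real.log_exp]
  have h5 := mul_le_mul_of_nonneg_right h3 hb
  linarith

theorem strong {K : H →L[ℂ] H} (hK : 0 ≤ K) {η : H} (hη : η ∈ K.range.topologicalClosure) :
    Tendsto (fun δ : ℝ => cfc (fun x : ℝ => x * (δ + x)⁻¹) K η) (𝓝[>] 0) (𝓝 η) := by
  have hsa : IsSelfAdjoint K := hK.isSelfAdjoint
  rw [Metric.tendsto_nhds]
  intro ε hε
  obtain ⟨_, ⟨ζ, rfl⟩, hζ⟩ := Metric.mem_closure_iff.1 hη (ε / 2) (half_pos hε)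
  have hlt : ∀ᶠ δ : ℝ in 𝓝[>] 0, δ * ‖ζ‖ < ε / 2 := by
    have : Tendsto (fun δ : ℝ => δ * ‖ζ‖) (𝓝 0) (𝓝 (0 * ‖ζ‖)) :=
      tendsto_id.mul_const _
    rw [zero_mul] at this
    exact (this.eventually_lt_const (half_pos hε)).filter_mono nhdsWithin_le_nhds
  filter_upwards [hlt, self_mem_nhdsWithin] with δ h1 h2
  have hδ : 0 < δ := h2
  have hc := inv_cont hK hδ
  have hc1 : ContinuousOn (fun x : ℝ => x * (δ + x)⁻¹) (spectrum ℝ K) := continuousOn_id.mul hc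
  have hc2 : ContinuousOn (fun x : ℝ => 1 - x * (δ + x)⁻¹) (spectrum ℝ K) :=
    continuousOn_const.sub hc1
  have hb : ∀ x ∈ spectrum ℝ K, 0 ≤ x ∧ 1 - x * (δ + x)⁻¹ = δ * (δ + x)⁻¹ ∧
      0 ≤ x * (δ + x)⁻¹ ∧ 0 ≤ δ * (δ + x)⁻¹ := by
    intro x hx
    have h0 := spectrum_nonneg_of_nonneg hK hx
    have hp : 0 < δ + x := by linarith
    refine ⟨h0, by field_simp; ring, by positivity, by positivity⟩
  have e1 : cfc (fun x : ℝ => 1 - x * (δ + x)⁻¹) K = 1 - cfc (fun x : ℝ => x * (δ + x)⁻¹) K := by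
    rw [cfc_sub (fun _ => 1) (fun x : ℝ => x * (δ + x)⁻¹) K continuousOn_const hc1,
      cfc_const_one ℝ K]
  have e2 : cfc (fun x : ℝ => (1 - x * (δ + x)⁻¹) * x) K =
      cfc (fun x : ℝ => 1 - x * (δ + x)⁻¹) K * K := by
    rw [cfc_mul (fun x : ℝ => 1 - x * (δ + x)⁻¹) (fun x => x) K hc2 continuousOn_id, cfc_id' ℝ K]
  have n1 : ‖cfc (fun x : ℝ => 1 - x * (δ + x)⁻¹) K‖ ≤ 1 := norm_cfc_le zero_le_one fun x hx => by
    obtain ⟨-, a1, a2, a3⟩ := hb x hx
    rw [Real.norm_eq_abs, abs_le]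
    constructor <;> linarith
  have n2 : ‖cfc (fun x : ℝ => (1 - x * (δ + x)⁻¹) * x) K‖ ≤ δ := norm_cfc_le hδ.le fun x hx => by
    obtain ⟨a0, a1, a2, a3⟩ := hb x hx
    rw [Real.norm_eq_abs, a1, abs_of_nonneg (mul_nonneg a3 a0)]
    have : δ * (δ + x)⁻¹ * x = δ * (x * (δ + x)⁻¹) := by ring
    rw [this]
    exact mul_le_of_le_one_right hδ.le (by linarith)
  have e3 : η - cfc (fun x : ℝ => x * (δ + x)⁻¹) K η =
      cfc (fun x : ℝ => 1 - x * (δ + x)⁻¹) K (η - K ζ) +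
        cfc (fun x : ℝ => (1 - x * (δ + x)⁻¹) * x) K ζ := by
    rw [e2, map_sub, mul_apply_eq_comp, sub_add_cancel, e1]
    rfl
  rw [dist_comm, dist_eq_norm, e3]
  have m1 := ContinuousLinearMap.le_of_opNorm_le _ n1 (η - K ζ)
  have m2 := ContinuousLinearMap.le_of_opNorm_le _ n2 ζ
  have m3 : ‖η - K ζ‖ < ε / 2 := by rw [← dist_eq_norm]; exact hζ
  have m4 := norm_add_le (cfc (fun x : ℝ => 1 - x * (δ + x)⁻¹) K (η - K ζ))
    (cfc (fun x : ℝ => (1 - x * (δ + x)⁻¹) * x) K ζ)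
  linarith

theorem gdim_le (e : I → H) {K : H →L[ℂ] H} (hK : 0 ≤ K) {b : ℝ}
    (h : ∀ δ : ℝ, 0 < δ → tr e (cfc (fun x => x * (δ + x)⁻¹) K) ≤ b) : gdim e K.range ≤ b := by
  have h1 : Tendsto (fun δ : ℝ => ∑ i, (⟪K.range.topologicalClosure.starProjection (e i),
      cfc (fun x : ℝ => x * (δ + x)⁻¹) K (K.range.topologicalClosure.starProjection (e i))⟫_ℂ).re)
      (𝓝[>] 0) (𝓝 (gdim e K.range)) := by
    refine tendsto_finsetSum _ fun i _ => ?_
    have h2 := (Complex.continuous_re.tendsto _).comp ((tendsto_const_nhds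
      (x := K.range.topologicalClosure.starProjection (e i))).inner (𝕜 := ℂ)
      (strong hK (Submodule.starProjection_apply_mem _ (e i))))
    rw [inner_self_eq_norm_sq_to_K] at h2
    have h3 : ∀ y : ℝ, ((RCLike.ofReal y : ℂ) ^ 2).re = y ^ 2 := fun y => by
      simp [sq]
    rw [h3] at h2
    exact h2
  refine le_of_tendsto h1 ?_
  filter_upwards [self_mem_nhdsWithin] with δ hδ
  rw [← tr_sand e hK isStarProjection_starProjection (proj_mul K) (inv_cont hK hδ)]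
  exact h δ hδ

end Lim

open Lim in
theorem lim_stmt : LimStmt := by
  intro H₁ I₁ H₂ I₂ _ _ _ _ _ _ _ _ e₁ K₁ e₂ K₂ hK₁ hK₂ c M happ
  have hA : ∀ t : ℝ, 0 < t → ld e₂ (1 + (t : ℂ) • K₂) ≤ ld e₁ (1 + (t : ℂ) • K₁) := by
    intro t ht
    obtain ⟨c', hc, hc1, hc2⟩ : ∃ c' : ℝ, c ≤ c' ∧ ‖K₁‖ ≤ c' ∧ ‖K₂‖ ≤ c' :=
      ⟨max c (max ‖K₁‖ ‖K₂‖), le_max_left _ _, (le_max_left _ _).trans (le_max_right _ _),
        (le_max_right _ _).trans (le_max_right _ _)⟩
    have hc0 : 0 ≤ c' := (norm_nonneg _).trans hc1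
    obtain ⟨N₁, hN₁⟩ : ∃ N, N = ∑ i, ‖(1 : H₁ →L[ℂ] H₁) (e₁ i)‖ ^ 2 := ⟨_, rfl⟩
    obtain ⟨N₂, hN₂⟩ : ∃ N, N = ∑ i, ‖(1 : H₂ →L[ℂ] H₂) (e₂ i)‖ ^ 2 := ⟨_, rfl⟩
    have key : ∀ η : ℝ, 0 < η → ld e₂ (1 + (t : ℂ) • K₂) ≤
        ld e₁ (1 + (t : ℂ) • K₁) + η * (c' * (N₁ + N₂ + 2 * M) + 2) := by
      intro η hη
      obtain ⟨q, hq⟩ := exists_polynomial_near_of_continuousOn 0 c' (lg t) (lg_cont ht c') η hη
      obtain ⟨A, hAe⟩ : ∃ A, A = ∑ j ∈ Finset.range (q.natDegree + 1), |q.coeff j| := ⟨_, rfl⟩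
      have hA0 : 0 ≤ A := hAe ▸ Finset.sum_nonneg fun j _ => abs_nonneg _
      obtain ⟨H, I, _, _, _, _, e, Ko, Kc, R, ho, hcc, hno, hnc, hR, hRo, hRc, hM, hld, hmom⟩ :=
        happ (η / (A + 1)) (by positivity) (q.natDegree + 1)
      have a1 := near e₁ hK₁ (IsStarProjection.one _) (one_mul _) hc1 ht hη.le q hq
      have a2 := near e₂ hK₂ (IsStarProjection.one _) (one_mul _) hc2 ht hη.le q hq
      have a3 := near e ho hR hRo (hno.trans hc) ht hη.le q hq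
      have a4 := near e hcc hR hRc (hnc.trans hc) ht hη.le q hq
      have a5 := sum_near q.coeff (fun j => tr e (Ko ^ (j + 1))) (fun j => tr e₁ (K₁ ^ (j + 1)))
        (n := q.natDegree + 1) fun j hj => (hmom (j + 1) (by omega) (by omega)).1
      have a6 := sum_near q.coeff (fun j => tr e (Kc ^ (j + 1))) (fun j => tr e₂ (K₂ ^ (j + 1)))
        (n := q.natDegree + 1) fun j hj => (hmom (j + 1) (by omega) (by omega)).2
      rw [← hAe] at a5 a6
      rw [← hN₁] at a1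
      rw [← hN₂] at a2
      have a7 : A * (η / (A + 1)) ≤ η := by
        rw [← mul_div_assoc, div_le_iff₀ (by positivity)]
        nlinarith
      have a8 : c' * η * ∑ i, ‖R (e i)‖ ^ 2 ≤ c' * η * M :=
        mul_le_mul_of_nonneg_left hM (by positivity)
      have a9 := hld t ht
      rw [abs_le] at a1 a2 a3 a4 a5 a6
      linarith [a1.1, a1.2, a2.1, a2.2, a3.1, a3.2, a4.1, a4.2, a5.1, a5.2, a6.1, a6.2]
    have hlim : Tendsto (fun η : ℝ => ld e₁ (1 + (t : ℂ) • K₁) + η * (c' * (N₁ + N₂ + 2 * M) + 2))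
        (𝓝[>] 0) (𝓝 (ld e₁ (1 + (t : ℂ) • K₁) + 0 * (c' * (N₁ + N₂ + 2 * M) + 2))) :=
      (tendsto_const_nhds.add (tendsto_id.mul_const _)).mono_left nhdsWithin_le_nhds
    rw [zero_mul, add_zero] at hlim
    exact ge_of_tendsto hlim (eventually_mem_nhdsWithin.mono key)
  refine gdim_le e₂ hK₂ fun δ hδ => slope_le (c := ‖K₁‖)
    (Finset.sum_nonneg fun i _ => by positivity) (norm_nonneg _) hδ fun t ht => ?_
  exact (lower e₂ hK₂ ht hδ).trans ((hA t ht).trans (upper e₁ hK₁ ht))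

end Pool.Agent.MP_4f4d9f_gt.Cb
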