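import Pool.Agent.Mg.F4f4d9fr.G715938
import Pool.Agent.Mg.F4f4d9fr.G787eb1
import Pool.Agent.Mg.F4f4d9fr.G27cbb1

set_option linter.all false

section

/-! Induction of the data to an overgroup. -/

namespace Pool.Agent.MP_4f4d9f_gt.Db

open Finsupp

namespace Up

variable {G H I J K : Type} [Group G] [Group H] (j : G →* H)

/-- The induced map. -/
noncomputable def ind (f : Ch G I →ₗ[ℤ] Ch G J) : Ch H I →ₗ[ℤ] Ch H J :=
  mkE (rp H J) fun i => mapDomain (up j) (f (single ⟨1, i⟩ 1))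

theorem ind_eqv (f : Ch G I →ₗ[ℤ] Ch G J) : Eqv (rp H I) (rp H J) (ind j f) := mkE_eqv _ _

theorem up_rp (g : G) (c : Ch G I) :
    mapDomain (up j) (rp G I g c) = rp H I (j g) (mapDomain (up j) c) := by
  rw [permRep_apply, permRep_apply, ← mapDomain_comp, ← mapDomain_comp]
  exact congrArg (mapDomain · c) (funext fun β => up_smul j g β)

theorem ovr_of_single {f : Ch G I →ₗ[ℤ] Ch G J} {f' : Ch H I →ₗ[ℤ] Ch H J}
    (h : ∀ β, f' (single (up j β) 1) = mapDomain (up j) (f (single β 1))) : Ovr j f f' :=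
  LinearMap.congr_fun (f := f' ∘ₗ lmapDomain ℤ ℤ (up j)) (g := lmapDomain ℤ ℤ (up j) ∘ₗ f)
    (ch_ext fun β => by
      simp only [LinearMap.comp_apply, lmapDomain_apply, mapDomain_single, h])

theorem ovr_ind {f : Ch G I →ₗ[ℤ] Ch G J} (hf : Eqv (rp G I) (rp G J) f) : Ovr j f (ind j f) :=
  ovr_of_single j fun β => by
    rw [ind, mkE_single]
    conv_rhs => rw [← β.smul_one, ← permRep_single, hf, up_rp]
    rfl

theorem ext_up {M : Type} [AddCommGroup M] {ρ : Representation ℤ H M} {F F' : Ch H I →ₗ[ℤ] M}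
    (hF : Eqv (rp H I) ρ F) (hF' : Eqv (rp H I) ρ F')
    (h : ∀ c : Ch G I, F (mapDomain (up j) c) = F' (mapDomain (up j) c)) (c : Ch H I) :
    F c = F' c :=
  LinearMap.congr_fun (eqv_ext hF hF' fun i => by
    have := h (single ⟨1, i⟩ 1)
    rwa [mapDomain_single, up_one] at this) c

theorem eqv_zero {A B : Type} [AddCommGroup A] [AddCommGroup B] {ρA : Representation ℤ H A}
    {ρB : Representation ℤ H B} : Eqv ρA ρB 0 := fun _ _ => (map_zero _).symm

theorem ovr_chl : Ovr j (chl : Ch G I →ₗ[ℤ] Ch G (I ⊕ J)) chl :=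
  ovr_of_single j fun β => by simp [up]

theorem ovr_chr : Ovr j (chr : Ch G J →ₗ[ℤ] Ch G (I ⊕ J)) chr :=
  ovr_of_single j fun β => by simp [up]

theorem ovr_prl : Ovr j (prl : Ch G (I ⊕ J) →ₗ[ℤ] Ch G I) prl :=
  ovr_of_single j fun ⟨g, i⟩ => by cases i <;> simp [up]

theorem ovr_prr : Ovr j (prr : Ch G (I ⊕ J) →ₗ[ℤ] Ch G J) prr :=
  ovr_of_single j fun ⟨g, i⟩ => by cases i <;> simp [up]

theorem fam_up : IndFam (A := Unit) (G := fun _ => G) (fun _ => j) (B := fun _ => Fr G I)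
    fun _ => up j where
  eqv _ := up_smul j
  surj β := ⟨β.g, (), ⟨1, β.i⟩, by rw [up_one, Fr.smul_one]⟩
  idx _ _ _ _ _ _ := rfl
  inj h _ β β' e := ⟨β'.g * β.g⁻¹, by
    rw [map_mul, map_inv, eq_mul_inv_iff_mul_eq]
    exact congrArg Fr.g e, Fr.ext (inv_mul_cancel_right _ _) (congrArg Fr.i e :)⟩

/-- The induced involution. -/
def upT (t : Fr G I → Fr G I) (β : Fr H I) : Fr H I := β.g • up j (t ⟨1, β.i⟩)

theorem upT_smul (t : Fr G I → Fr G I) (h : H) (β : Fr H I) :
    upT j t (h • β) = h • upT j t β := mul_smul h β.g _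

theorem upT_up {t : Fr G I → Fr G I} (ht : ∀ (g : G) β, t (g • β) = g • t β) (β : Fr G I) :
    upT j t (up j β) = up j (t β) := by
  conv_rhs => rw [← β.smul_one, ht, up_smul]
  rfl

theorem map_up {t : Fr G I → Fr G I} {t' : Fr H I → Fr H I} (h : ∀ β, t' (up j β) = up j (t β))
    (c : Ch G I) : mapDomain t' (mapDomain (up j) c) = mapDomain (up j) (mapDomain t c) := by
  rw [← mapDomain_comp, ← mapDomain_comp]
  exact congrArg (mapDomain · c) (funext h)

variable {j} {Y Y' Z Z' : Type} [MulAction G Y] [MulAction H Y'] [MulAction G Z] [MulAction H Z']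
  {μ : Y → Y'} {ν : Z → Z'}

theorem fam_set (hμ : IndSet j μ) :
    IndFam (A := Unit) (G := fun _ => G) (fun _ => j) (B := fun _ => Y) fun _ => μ where
  eqv _ := hμ.eqv
  surj y := (hμ.surj y).imp fun _ h => ⟨(), h⟩
  idx _ _ _ _ _ _ := rfl
  inj h _ := hμ.inj h

theorem lb_up (hμ : IndSet j μ) (l : I → Y) (β : Fr G I) :
    lb (μ ∘ l) (up j β) = μ (lb l β) := (hμ.eqv _ _).symm

theorem map_lb_up (hμ : IndSet j μ) (l : I → Y) (c : Ch G I) :
    mapDomain (lb (μ ∘ l)) (mapDomain (up j) c) = mapDomain μ (mapDomain (lb l) c) := by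
  rw [← mapDomain_comp, ← mapDomain_comp]
  exact congrArg (mapDomain · c) (funext (lb_up hμ l))

theorem eqv_lb (l : I → Y') :
    Eqv (rp H I) (permRep H Y') (lmapDomain ℤ ℤ (lb (G := H) l)) :=
  eqv_lmapDomain (lb_smul l)

theorem loc_ind (hν : IndSet j ν) {l : I → Y} {l' : J → Z} {ω : Y → Z} {ω' : Y' → Z'}
    (hω : ∀ (h : H) y, ω' (h • y) = h • ω' y) (hω' : ∀ y, ω' (μ y) = ν (ω y))
    {f : Ch G I →ₗ[ℤ] Ch G J} (hf : Eqv (rp G I) (rp G J) f)
    (h : Loc (lb (G := G) l) (lb (G := G) l') ω f) :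
    Loc (lb (G := H) (μ ∘ l)) (lb (G := H) (ν ∘ l')) ω' (ind j f) :=
  loc_of_gen hω (ind_eqv j f) fun i => by
    rw [← up_one j, ← mapDomain_single, ovr_ind j hf]
    exact (h ⟨1, i⟩).mapDomain fun β e => by
      rw [lb_up hν, e, lb_one, Function.comp_apply, hω']

theorem indRes (h : IndStmt) (hj : Function.Injective j) (hμ : IndSet j μ) {I : ℕ → Type}
    {l : ∀ k, I k → Y} {d : ∀ k, Ch G (I (k + 1)) →ₗ[ℤ] Ch G (I k)} (R : LabRes G l d) :
    LabRes H (fun k => μ ∘ l k) fun k => ind j (d k) where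
  eqv k := ind_eqv j (d k)
  loc k := loc_ind (μ := μ) (ω := id) (ω' := id) hμ (fun _ _ => rfl) (fun _ => rfl) (R.eqv k) (R.loc k)
  ε_d := ext_up j ((eqv_lb _).comp (ind_eqv j _)) eqv_zero fun c => by
    rw [LinearMap.comp_apply, ovr_ind j (R.eqv 0), lmapDomain_apply, map_lb_up hμ, R.ε_d,
      mapDomain_zero, LinearMap.zero_apply]
  d_d k := ext_up j ((ind_eqv j _).comp (ind_eqv j _)) eqv_zero fun c => by
    rw [LinearMap.comp_apply, ovr_ind j (R.eqv _), ovr_ind j (R.eqv _), R.d_d, mapDomain_zero,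
      LinearMap.zero_apply]
  surj y' := by
    obtain ⟨g, y, rfl⟩ := hμ.surj y'
    obtain ⟨β, rfl⟩ := R.surj y
    exact ⟨g • up j β, by rw [lb_smul, lb_up hμ]⟩
  exact_zero := h H Unit (fun _ => G) (fun _ => j) (fun _ => Fr G (I 1)) (fun _ => Fr G (I 0))
    (fun _ => Y) _ _ _ (fun _ => up j) (fun _ => up j) (fun _ => μ) (fun _ => hj) (fam_up j)
    (fam_set hμ) (fun _ => d 0) (fun _ => lmapDomain ℤ ℤ (lb (l 0))) _ _ (ind_eqv j _) (eqv_lb _)
    (fun _ => ovr_ind j (R.eqv 0)) (fun _ => map_lb_up hμ (l 0)) fun _ => R.exact_zero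
  exact_succ k := h H Unit (fun _ => G) (fun _ => j) (fun _ => Fr G (I (k + 2)))
    (fun _ => Fr G (I (k + 1))) (fun _ => Fr G (I k)) _ _ _ (fun _ => up j) (fun _ => up j)
    (fun _ => up j) (fun _ => hj) (fam_up j) (fam_up j) (fun _ => d (k + 1)) (fun _ => d k) _ _
    (ind_eqv j _) (ind_eqv j _) (fun _ => ovr_ind j (R.eqv _)) (fun _ => ovr_ind j (R.eqv _))
    fun _ => R.exact_succ k

end Up

open Up in
theorem up_stmt (h : IndStmt) : UpStmt := by
  intro G H V D V' D' _ _ _ _ _ _ j μV μD hj hV hD o bar o' bar' ho hb ho' hb' I J lI lJ dI dJ φ t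
    hG hF
  have ht : ∀ k β, upT j (t k) (up j β) = up j (t k β) := fun k => upT_up j (hF.eqv k)
  have ht1 : ∀ k (β : Fr H (J k)), β = β.g • up j ⟨1, β.i⟩ := fun k β => by
    rw [up_one, Fr.smul_one]
  refine ⟨fun k => ind j (dI k), fun k => ind j (dJ k), fun k => ind j (φ k),
    fun k => upT j (t k), ⟨indRes h hj hV hG.resI, indRes h hj hD hG.resJ,
      fun k => ind_eqv j _, fun k => loc_ind hV ho ho' (hG.eqv k) (hG.loc k), fun k => ?_, ?_⟩,
    ⟨fun k => upT_smul j _, fun k β => ?_, fun k β => ?_, fun k => ?_⟩, fun k c => ?_,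
    fun k c => ?_⟩
  · refine ext_up j ((ind_eqv j _).comp (ind_eqv j _)) ((ind_eqv j _).comp (ind_eqv j _))
      fun c => ?_
    rw [LinearMap.comp_apply, LinearMap.comp_apply, ovr_ind j (hG.eqv _),
      ovr_ind j (hG.resI.eqv _), ovr_ind j (hG.resJ.eqv _), ovr_ind j (hG.eqv _), hG.chain]
  · refine ext_up j ((eqv_lb _).comp (ind_eqv j _)) ((eqv_lmapDomain ho).comp (eqv_lb _))
      fun c => ?_
    simp only [LinearMap.comp_apply, lmapDomain_apply]
    rw [ovr_ind j (hG.eqv _), map_lb_up hV, map_lb_up hD, hG.aug, ← mapDomain_comp (g := μV),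
      ← mapDomain_comp (g := o')]
    exact congrArg (mapDomain · _) (funext fun x => (ho' x).symm)
  · rw [ht1 k β, upT_smul, upT_smul, ht, ht, hF.inv]
  · rw [ht1 k β, upT_smul, ht, lb_smul, lb_smul, lb_up hD, lb_up hD, hF.lab, hb, hb']
  · refine ext_up j ((ind_eqv j _).comp (eqv_lmapDomain (upT_smul j _)))
      ((eqv_lmapDomain (upT_smul j _)).comp (ind_eqv j _)) fun c => ?_
    simp only [LinearMap.comp_apply, lmapDomain_apply]
    rw [map_up j (ht _), ovr_ind j (hG.resJ.eqv _), ovr_ind j (hG.resJ.eqv _), map_up j (ht _),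
      hF.comm]
  · have hm : Ovr j (dm dJ k) (dm (fun k => ind j (dJ k)) k) := by
      cases k with
      | zero => exact fun _ => mapDomain_zero.symm
      | succ k => exact ovr_ind j (hG.resJ.eqv k)
    rw [tot_apply, tot_apply, ovr_prl, ovr_prr, hm, ovr_ind j (hG.resI.eqv _),
      ovr_chl, ovr_chr, mapDomain_sub, mapDomain_add, ← ovr_chl j (φ k _),
      ← ovr_ind j (hG.eqv k)]
    exact congrArg (fun x => _ + chl (ind j (φ k) x) - _) (ovr_prr j c)
  · have hm : ∀ β, tm (fun k => upT j (t k)) k (up j β) = up j (tm t k β) := by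
      cases k with
      | zero => exact fun _ => rfl
      | succ k => exact ht k
    rw [th, th, thI_apply, thI_apply, ovr_prl, ovr_prr, map_up j hm, ovr_chl, ovr_chr,
      mapDomain_sub]

end Pool.Agent.MP_4f4d9f_gt.Db

end

section

open scoped Matrix Pointwise

namespace Pool.Agent.MP_4f4d9f_gt.Cb

open Finsupp Db

namespace AlOp

open scoped InnerProductSpace
open FA Conc
open ContinuousLinearMap (adjoint)

section Alg

variable {G H I I' : Type} [Group G] [Group H] {j : H →* G}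

theorem up_inj (hj : Function.Injective j) : Function.Injective (up j : Fr H I → Fr G I) :=
  fun _ _ e => Fr.ext (hj (congrArg Fr.g e :)) (congrArg Fr.i e :)

theorem coef {f : Ch G I →ₗ[ℤ] Ch G I'} (hf : Eqv (rp G I) (rp G I') f) (g : G) (β : Fr G I)
    (γ : Fr G I') : f (single (g • β) 1) (g • γ) = f (single β 1) γ := by
  rw [← permRep_single, hf, permRep_apply]
  exact mapDomain_apply (MulAction.injective g) _ γ

theorem ind_up {f : Ch H I →ₗ[ℤ] Ch H I'} (hf : Eqv (rp H I) (rp H I') f) (β : Fr H I) :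
    Up.ind j f (single (up j β) 1) = mapDomain (up j) (f (single β 1)) := by
  rw [← Up.ovr_ind j hf, mapDomain_single]

theorem tp_ind (hj : Function.Injective j) {f : Ch H I' →ₗ[ℤ] Ch H I}
    {fT : Ch H I →ₗ[ℤ] Ch H I'} (hf : Eqv (rp H I') (rp H I) f)
    (hT : Eqv (rp H I) (rp H I') fT) (h : Tp f fT) : Tp (Up.ind j f) (Up.ind j fT) := by
  have key : ∀ (i : I) (γ : Fr G I'),
      Up.ind j fT (single ⟨1, i⟩ 1) γ = Up.ind j f (single γ 1) ⟨1, i⟩ := by
    intro i γ
    by_cases hγ : ∃ x, j x = γ.g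
    · obtain ⟨x, hx⟩ := hγ
      have e : γ = up j ⟨x, γ.i⟩ := Fr.ext hx.symm rfl
      rw [e, ← up_one j, ind_up hf, ind_up hT, mapDomain_apply (up_inj hj),
        mapDomain_apply (up_inj hj)]
      exact h _ _
    · rw [← coef (Up.ind_eqv j f) γ.g⁻¹,
        show γ.g⁻¹ • γ = up j ⟨1, γ.i⟩ from Fr.ext ((inv_mul_cancel _).trans (map_one j).symm) rfl,
        ind_up hf, mapDomain_of_notMem_range (f := up j), ← up_one j, ind_up hT,
        mapDomain_of_notMem_range]
      · rintro ⟨x, hx⟩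
        exact hγ ⟨x.g, congrArg Fr.g hx⟩
      · rintro ⟨x, hx⟩
        refine hγ ⟨x.g⁻¹, ?_⟩
        have : j x.g = γ.g⁻¹ * 1 := congrArg Fr.g hx
        rw [map_inv, this, mul_one, inv_inv]
  intro β γ
  rw [← β.smul_one, ← smul_inv_smul β.g γ, coef (Up.ind_eqv j f), coef (Up.ind_eqv j fT), key]

end Alg

variable {G E H I I' : Type} [Group G] [NormedAddCommGroup E] [InnerProductSpace ℂ E]
  [Group H] [Fintype I] [Fintype I'] {b : HilbertBasis G ℂ E}

theorem inner_emb (β : Fr G I) (c : Ch G I) : ⟪cell b β, emb b c⟫_ℂ = c β := by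
  classical
  induction c using ch_induction with
  | h0 => simp
  | hadd x y hx hy => rw [map_add, inner_add_right, hx, hy, Finsupp.add_apply, Int.cast_add]
  | hneg x hx => rw [map_neg, inner_neg_right, hx, Finsupp.neg_apply, Int.cast_neg]
  | h1 γ =>
    rw [emb_single, inner_cell_cell, single_apply]
    simp [eq_comm]

variable [CompleteSpace E] {ι : G →* vnAlg b} (hι : ∀ g h, (ι g).1 (b h) = b (g * h))

include hι

theorem adj_emb {f : Ch G I →ₗ[ℤ] Ch G I'} (hf : Eqv (rp G I) (rp G I') f) (c : Ch G I) :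
    adjoint (op (mat ι f)) (emb b c) = emb b (f c) := by
  induction c using ch_induction with
  | h0 => simp
  | hadd x y hx hy => simp only [map_add, hx, hy]
  | hneg x hx => simp only [map_neg, hx]
  | h1 γ => rw [emb_single, adj_cell hι hf]

theorem adj_up (j : H →* G) {f : Ch H I →ₗ[ℤ] Ch H I'} (hf : Eqv (rp H I) (rp H I') f)
    (c : Ch H I) : adjoint (op (mat (ι.comp j) f)) (emb b (mapDomain (up j) c)) =
      emb b (mapDomain (up j) (f c)) := by
  rw [← (Up.ovr_ind j hf).mat, adj_emb hι (Up.ind_eqv j f), Up.ovr_ind j hf]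

theorem adj_tp {f : Ch G I' →ₗ[ℤ] Ch G I} {fT : Ch G I →ₗ[ℤ] Ch G I'}
    (hf : Eqv (rp G I') (rp G I) f) (hT : Eqv (rp G I) (rp G I') fT) (h : Tp f fT) :
    adjoint (op (mat ι fT)) = adjoint (adjoint (op (mat ι f))) := by
  ext1 ξ
  refine op_ext b (fun β => ext_cell b fun γ => ?_) ξ
  rw [adj_cell hι hT, inner_emb, ContinuousLinearMap.adjoint_inner_right, adj_cell hι hf,
    ← inner_conj_symm, inner_emb, h, map_intCast]

end AlOp

theorem op_stmt : OpStmt := by
  intro G E _ _ _ _ b ι hι H _ j hj I I' _ _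
  refine ⟨fun k hk m => ?_, fun f fT hf hT h => ?_⟩
  · have key : ∀ c : Ch H I, (ContinuousLinearMap.adjoint (FA.op (mat (ι.comp j) k)) ^ m)
        (Conc.emb b (mapDomain (up j) c)) = Conc.emb b (mapDomain (up j) ((k ^ m) c)) := by
      induction m with
      | zero => exact fun _ => rfl
      | succ m ih =>
        intro c
        rw [pow_succ, pow_succ, mul_apply_eq_comp, AlOp.adj_up hι j hk, ih, Module.End.mul_apply]
    rw [tr, mom, Int.cast_sum]
    refine Finset.sum_congr rfl fun i _ => ?_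
    have := key (single ⟨1, i⟩ 1)
    rw [mapDomain_single, Conc.emb_single] at this
    rw [Conc.fr_eq, ← up_one j, this, AlOp.inner_emb, mapDomain_apply (AlOp.up_inj hj),
      Complex.intCast_re]
  · have e1 := AlOp.adj_tp hι (Up.ind_eqv j f) (Up.ind_eqv j fT) (AlOp.tp_ind hj hf hT h)
    rw [(Up.ovr_ind j hf).mat, (Up.ovr_ind j hT).mat] at e1
    rw [mat_comp _ fT hf, FA.op_mul, ContinuousLinearMap.adjoint_comp, e1]
    generalize ContinuousLinearMap.adjoint (FA.op (mat (ι.comp j) f)) = T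
    refine ⟨(ContinuousLinearMap.nonneg_iff_isPositive _).2
      (ContinuousLinearMap.isPositive_self_comp_adjoint T), ?_⟩
    have e2 : (T ∘L ContinuousLinearMap.adjoint T).range.topologicalClosure =
        T.range.topologicalClosure := by
      rw [← Submodule.orthogonal_orthogonal_eq_closure,
        ← Submodule.orthogonal_orthogonal_eq_closure, ContinuousLinearMap.orthogonal_range,
        ContinuousLinearMap.orthogonal_range, ContinuousLinearMap.adjoint_comp,
        ContinuousLinearMap.adjoint_adjoint, ContinuousLinearMap.ker_self_comp_adjoint]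
    exact le_antisymm (gdim_mono _ ((Submodule.le_topologicalClosure _).trans e2.le))
      (gdim_mono _ ((Submodule.le_topologicalClosure _).trans e2.ge))

end Pool.Agent.MP_4f4d9f_gt.Cb

end
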