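import Pool.Agent.Mg.F4f4d9fr.G715938
import Pool.Agent.Mg.F4f4d9fr.Gcb0d37
import Pool.Agent.Mg.F4f4d9fr.G787eb1

set_option linter.all false

section

/-! Torsion and dimensions. -/

open scoped Matrix InnerProductSpace

namespace Pool.Agent.MP_4f4d9f_gt.Db

namespace Mat

open FA Sg.OpInj
open ContinuousLinearMap (adjoint)

section Hilb

variable {H H' I : Type} [NormedAddCommGroup H] [InnerProductSpace ℂ H] [CompleteSpace H]
  [NormedAddCommGroup H'] [InnerProductSpace ℂ H'] [Fintype I]

lemma proj_proj {U V : Submodule ℂ H} (h : U ≤ V.topologicalClosure) (e : H) :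
    U.topologicalClosure.starProjection (V.topologicalClosure.starProjection e) =
      U.topologicalClosure.starProjection e :=
  congrArg (fun S : H →L[ℂ] H => S e) (Submodule.starProjection_comp_starProjection_of_le
    (Submodule.topologicalClosure_minimal _ h (Submodule.isClosed_topologicalClosure _)))

lemma norm_split (U : Submodule ℂ H) (e : H) :
    ‖e‖ ^ 2 = ‖U.topologicalClosure.starProjection e‖ ^ 2 +
      ‖e - U.topologicalClosure.starProjection e‖ ^ 2 := by
  rw [Submodule.norm_sq_eq_add_norm_sq_starProjection e U.topologicalClosure,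
    Submodule.starProjection_orthogonal_val]

lemma norm_split' {U V : Submodule ℂ H} (h : U ≤ V.topologicalClosure) (e : H) :
    ‖V.topologicalClosure.starProjection e‖ ^ 2 = ‖U.topologicalClosure.starProjection e‖ ^ 2 +
      ‖V.topologicalClosure.starProjection e - U.topologicalClosure.starProjection e‖ ^ 2 := by
  rw [norm_split U (V.topologicalClosure.starProjection e), proj_proj h]

lemma gdim_ker_proj (e : I → H) (T : H →L[ℂ] H') {A : Submodule ℂ H}
    (hA : A.topologicalClosure = A) :
    gdim e (T ∘L A.topologicalClosure.starProjection).ker + gdim e A =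
      ∑ i, ‖e i‖ ^ 2 + gdim e (T.ker ⊓ A) := by
  have hZA : T.ker ⊓ A ≤ A.topologicalClosure :=
    inf_le_right.trans (Submodule.le_topologicalClosure _)
  have hZA' : (T.ker ⊓ A).topologicalClosure ≤ A.topologicalClosure :=
    Submodule.topologicalClosure_mono inf_le_right
  have hZT : (T.ker ⊓ A).topologicalClosure ≤ T.ker :=
    Submodule.topologicalClosure_minimal _ inf_le_left T.isClosed_ker
  simp only [gdim, ← Finset.sum_add_distrib]
  refine Finset.sum_congr rfl fun i _ => ?_
  generalize e i = x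
  have hAA : A.topologicalClosure.starProjection (A.topologicalClosure.starProjection x) =
      A.topologicalClosure.starProjection x :=
    Submodule.starProjection_eq_self_iff.2 (Submodule.starProjection_apply_mem _ x)
  have hAZ : A.topologicalClosure.starProjection
      ((T.ker ⊓ A).topologicalClosure.starProjection x) =
      (T.ker ⊓ A).topologicalClosure.starProjection x :=
    Submodule.starProjection_eq_self_iff.2 (hZA' (Submodule.starProjection_apply_mem _ x))
  have h1 : (T ∘L A.topologicalClosure.starProjection).ker.topologicalClosure.starProjection x =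
      x - (A.topologicalClosure.starProjection x -
        (T.ker ⊓ A).topologicalClosure.starProjection x) := by
    refine Submodule.eq_starProjection_of_mem_orthogonal
      (Submodule.le_topologicalClosure _ ?_) ?_
    · change T (A.topologicalClosure.starProjection _) = 0
      rw [map_sub A.topologicalClosure.starProjection, map_sub A.topologicalClosure.starProjection,
        hAA, hAZ, sub_sub_cancel]
      exact hZT (Submodule.starProjection_apply_mem _ x)
    · rw [sub_sub_cancel, ker_closure, Submodule.mem_orthogonal]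
      intro k hk
      have h2 : A.topologicalClosure.starProjection k ∈ (T.ker ⊓ A).topologicalClosure :=
        Submodule.le_topologicalClosure _
          ⟨hk, hA.le (Submodule.starProjection_apply_mem _ k)⟩
      have h3 := Submodule.sub_starProjection_mem_orthogonal
        (K := (T.ker ⊓ A).topologicalClosure) (A.topologicalClosure.starProjection x)
      rw [proj_proj hZA] at h3
      have h4 := Submodule.inner_right_of_mem_orthogonal h2 h3
      rwa [Submodule.inner_starProjection_left_eq_right, map_sub, hAA, hAZ] at h4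
  have h2 := norm_split (T ∘L A.topologicalClosure.starProjection).ker x
  rw [h1, sub_sub_cancel] at h2
  have h3 := norm_split' hZA x
  rw [h1]
  linarith

end Hilb

variable {G E : Type} [Group G] [NormedAddCommGroup E] [InnerProductSpace ℂ E]
  {b : HilbertBasis G ℂ E} {I J K : Type} [Fintype I] [Fintype J] [Fintype K]

lemma op_add (M M' : Matrix I J (vnAlg b)) : op (M + M') = op M + op M' := by
  ext ξ i
  simp [op_apply, Finset.sum_add_distrib]

lemma op_neg (M : Matrix I J (vnAlg b)) : op (-M) = -op M := by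
  ext ξ i
  simp [op_apply]

variable [CompleteSpace E]

lemma adj_ext {M M' : Matrix I J (vnAlg b)}
    (h : ∀ ξ, adjoint (op M) ξ = adjoint (op M') ξ) : M = M' :=
  op_inj (ContinuousLinearMap.adjoint.injective (ContinuousLinearMap.ext h))

lemma adj_neg (M : Matrix I J (vnAlg b)) (ξ : HV E I) :
    adjoint (op (-M)) ξ = -adjoint (op M) ξ := by
  rw [op_neg, map_neg]
  rfl

lemma inj_of_reg {s : vnAlg b} (hs : IsLeftRegular s) : Function.Injective s.1 := by
  refine VNAbs.injective_of_regular (R := {S | ∃ g : G, ∀ h, S (b h) = b (h * g)}) ?_ s.2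
    fun e he h => ?_
  · rintro S ⟨g, hS⟩
    have e : S = rt b g⁻¹ := op_ext_basis b fun x => by rw [hS, rt_basis, inv_inv]
    refine ⟨g⁻¹, fun h => ?_⟩
    rw [e, ContinuousLinearMap.star_eq_adjoint, adjoint_rt, inv_inv, rt_basis]
  · have h1 : s * (⟨e, he⟩ : vnAlg b) = s * 0 := Subtype.ext (h.trans (mul_zero _).symm)
    exact congrArg Subtype.val (hs h1)

lemma dense_diag [DecidableEq I] {s : I → vnAlg b} (hs : ∀ i, IsLeftRegular (s i)) :
    DenseRange (adjoint (op (Matrix.diagonal s))) := by
  refine VNAbs.denseRange_of_star_injective ?_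
  rw [ContinuousLinearMap.star_eq_adjoint, ContinuousLinearMap.adjoint_adjoint]
  have h1 : ∀ (ξ : HV E I) i, op (Matrix.diagonal s) ξ i = (s i).1 (ξ i) := by
    intro ξ i
    rw [op_apply, Finset.sum_eq_single i, Matrix.diagonal_apply_eq]
    · intro j _ hj
      rw [Matrix.diagonal_apply_ne _ hj.symm]
      rfl
    · simp
  intro ξ η h
  ext i
  apply inj_of_reg (hs i)
  rw [← h1, ← h1, h]

/-- The matrix of the projection onto an invariant subspace. -/
lemma exists_proj {A : Submodule ℂ (HV E I)} (hA : Inv b A) : ∃ U : Matrix I I (vnAlg b),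
    op U = A.topologicalClosure.starProjection ∧
      adjoint (op U) = A.topologicalClosure.starProjection := by
  obtain ⟨U, hU⟩ := exists_op hA.proj
  refine ⟨U, hU, ?_⟩
  rw [hU]
  exact isSelfAdjoint_starProjection _

lemma le_closure {R Z : Submodule ℂ (HV E I)} (hR : Inv b R) (hZ : Inv b Z) (h : R ≤ Z)
    (hd : gdim (fr b I) Z ≤ gdim (fr b I) R) : Z ≤ R.topologicalClosure := by
  have h1 : R ≤ Z.topologicalClosure := h.trans (Submodule.le_topologicalClosure _)
  have h2 : gdim (fr b I) Z = gdim (fr b I) R + ∑ i,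
      ‖Z.topologicalClosure.starProjection (fr b I i) -
        R.topologicalClosure.starProjection (fr b I i)‖ ^ 2 := by
    simp only [gdim, ← Finset.sum_add_distrib]
    exact Finset.sum_congr rfl fun i _ => norm_split' h1 _
  have h3 : ∑ i, ‖Z.topologicalClosure.starProjection (fr b I i) -
      R.topologicalClosure.starProjection (fr b I i)‖ ^ 2 = 0 :=
    le_antisymm (by linarith) (Finset.sum_nonneg fun i _ => sq_nonneg _)
  have h4 : EqO b (Z.topologicalClosure.starProjection - R.topologicalClosure.starProjection) :=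
    fun g ξ => by
      rw [sub_apply, sub_apply, hZ.proj g, hR.proj g, map_sub]
  have h5 := zero_of_fr h4 fun i => by
    have := (Finset.sum_eq_zero_iff_of_nonneg fun i _ => sq_nonneg _).1 h3 i (Finset.mem_univ i)
    rw [sub_apply]
    exact norm_eq_zero.1 (pow_eq_zero_iff two_ne_zero |>.1 this)
  intro ξ hξ
  rw [← Submodule.starProjection_eq_self_iff.2 (Submodule.le_topologicalClosure Z hξ),
    sub_eq_zero.1 h5]
  exact Submodule.starProjection_apply_mem _ ξ

/-- A row vector as a matrix. -/
def rowM {N : Type} (z : I → N) : Matrix Unit I N := Matrix.of fun _ => z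

omit [CompleteSpace E] [Fintype J] in
lemma rowM_mul (z : I → vnAlg b) (M : Matrix I J (vnAlg b)) : rowM z * M = rowM (z ᵥ* M) := rfl

lemma tors_of_ker (Y : Matrix J I (vnAlg b)) (z : I → vnAlg b)
    (h : (op Y).ker ≤ (op (rowM z)).ker) :
    ∃ s : vnAlg b, IsLeftRegular s ∧ ∃ w : J → vnAlg b, w ᵥ* Y = s • z := by
  obtain ⟨Y', hY'⟩ := exists_op (eq_op Y).adj
  obtain ⟨V, hV, -⟩ := exists_proj (eq_op Y).inv_ker
  have hm : ∀ ξ, op V ξ ∈ (op Y).ker := fun ξ => by
    rw [hV]
    exact (ker_closure _).le (Submodule.starProjection_apply_mem _ ξ)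
  have hi : Function.Injective (op (Y' * Y + V)) := by
    refine (injective_iff_map_eq_zero _).2 fun ξ hξ => ?_
    rw [op_add, op_mul, hY', add_apply, ContinuousLinearMap.comp_apply] at hξ
    have h1 : ⟪op V ξ, op V ξ⟫_ℂ = 0 := by
      have h2 := congrArg (fun η => ⟪op V ξ, η⟫_ℂ) hξ
      simp only [inner_add_right, inner_zero_right] at h2
      rwa [ContinuousLinearMap.adjoint_inner_right, show op Y (op V ξ) = 0 from hm ξ,
        inner_zero_left, zero_add] at h2
    have h2 : op V ξ = 0 := inner_self_eq_zero.1 h1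
    rw [h2, add_zero] at hξ
    have h3 : op Y ξ = 0 := by
      rw [← inner_self_eq_zero (𝕜 := ℂ), ← ContinuousLinearMap.adjoint_inner_right, hξ,
        inner_zero_right]
    rw [← h2, hV]
    exact (Submodule.starProjection_eq_self_iff.2 (Submodule.le_topologicalClosure _ h3)).symm
  obtain ⟨s, x, hs, e⟩ := reg_surj _ hi z
  have h1 : Y * V = 0 := eq_zero_of_op (by
    rw [op_mul]
    exact ContinuousLinearMap.ext hm)
  have h2 : z ᵥ* V = 0 := by
    have h3 : rowM z * V = 0 := eq_zero_of_op (by
      rw [op_mul]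
      exact ContinuousLinearMap.ext fun ξ => h (hm ξ))
    exact congrFun h3 ()
  have h3 : V * V = V := op_inj (by
    rw [op_mul, hV]
    exact ContinuousLinearMap.ext fun ξ =>
      Submodule.starProjection_eq_self_iff.2 (Submodule.starProjection_apply_mem _ ξ))
  have h4 : x ᵥ* V = 0 := by
    have h5 := congrArg (· ᵥ* V) e
    simp only [Matrix.smul_vecMul, h2, smul_zero, Matrix.vecMul_vecMul, Matrix.add_mul,
      Matrix.mul_assoc, h1, Matrix.mul_zero, zero_add, h3] at h5
    exact h5.symm
  refine ⟨s, hs, x ᵥ* Y', ?_⟩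
  rw [e, Matrix.vecMul_add, h4, add_zero, Matrix.vecMul_vecMul]

lemma mem_akr {T : Matrix I I (vnAlg b)} {ξ : HV E I} :
    ξ ∈ (adjoint (op T) + 1).ker ↔ adjoint (op T) ξ = -ξ := add_eq_zero_iff_eq_neg

lemma inv_anti (T : Matrix I I (vnAlg b)) : Inv b (adjoint (op T) + 1).ker := fun g ξ hξ => by
  rw [mem_akr] at hξ ⊢
  rw [(eq_op T).adj, hξ, map_neg]

lemma range_le {Y : Matrix K I (vnAlg b)} {M : Matrix I J (vnAlg b)} {T : Matrix I I (vnAlg b)}
    (h1 : Y * M = 0) (h2 : Y * T = -Y) :
    (adjoint (op Y)).range ≤ (adjoint (op M)).ker ⊓ (adjoint (op T) + 1).ker := by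
  rintro _ ⟨ξ, rfl⟩
  refine ⟨?_, mem_akr.2 ?_⟩
  · change adjoint (op M) (adjoint (op Y) ξ) = 0
    rw [← adj_mul, h1, adj_zero]
  · change adjoint (op T) (adjoint (op Y) ξ) = -adjoint (op Y) ξ
    rw [← adj_mul, h2, adj_neg]

end Mat

open FA Mat
open ContinuousLinearMap (adjoint)

theorem mat_stmt : MatStmt := by
  intro G E _ _ _ _ b K₂ K₁ K₀ _ _ _ M' M T₂ T₁ hMM _ hT
  classical
  obtain ⟨U₂, -, hU₂⟩ := exists_proj (inv_anti T₂)
  have hUT : U₂ * T₂ = -U₂ := adj_ext fun ξ => by
    rw [adj_mul, adj_neg, hU₂]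
    exact mem_akr.1 ((ker_closure _).le (Submodule.starProjection_apply_mem _ ξ))
  have hY : adjoint (op (U₂ * M')) = adjoint (op M') ∘L
      (adjoint (op T₂) + 1).ker.topologicalClosure.starProjection := by
    rw [op_mul, ContinuousLinearMap.adjoint_comp, hU₂]
  have hdim : gdim (fr b K₁) (adjoint (op (U₂ * M'))).range + zd M' T₂ = ad T₂ := by
    have h1 := rn (U₂ * M')
    have h2 := gdim_ker_proj (fr b K₂) (adjoint (op M')) (ker_closure (adjoint (op T₂) + 1))
    rw [← hY, sum_fr] at h2
    unfold zd ad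
    linarith
  have hZ : Inv b ((adjoint (op M)).ker ⊓ (adjoint (op T₁) + 1).ker) := fun g ξ hξ =>
    ⟨(eq_op M).adj.inv_ker g ξ hξ.1, inv_anti T₁ g ξ hξ.2⟩
  rw [← hdim, add_le_add_iff_right]
  constructor
  · intro h
    obtain ⟨U, -, hU⟩ := exists_proj hZ
    have hm : ∀ ξ, adjoint (op U) ξ ∈ (adjoint (op M)).ker ⊓ (adjoint (op T₁) + 1).ker :=
      fun ξ => by
        rw [hU]
        exact Submodule.topologicalClosure_minimal _ le_rfl
          ((adjoint (op M)).isClosed_ker.inter (adjoint (op T₁) + 1).isClosed_ker)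
          (Submodule.starProjection_apply_mem _ ξ)
    have h1 : U * M = 0 := adj_ext fun ξ => by
      rw [adj_mul, adj_zero]
      exact (hm ξ).1
    have h2 : U * T₁ = -U := adj_ext fun ξ => by
      rw [adj_mul, adj_neg]
      exact mem_akr.1 (hm ξ).2
    choose s hs w hw hws using fun i => h (U i) (congrFun h1 i) (congrFun h2 i)
    have h3 : Matrix.of w * T₂ = -Matrix.of w := Matrix.ext fun i j => congrFun (hw i) j
    have h4 : Matrix.of w * M' = Matrix.diagonal s * U := Matrix.ext fun i j => by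
      rw [Matrix.diagonal_mul]
      exact congrFun (hws i) j
    have h5 : ∀ η, adjoint (op U) η ∈ (adjoint (op (U₂ * M'))).range.topologicalClosure := by
      intro η
      refine (dense_diag hs).induction_on η
        ((Submodule.isClosed_topologicalClosure _).preimage (adjoint (op U)).continuous)
        fun ξ => Submodule.le_topologicalClosure _ ⟨adjoint (op (Matrix.of w)) ξ, ?_⟩
      change adjoint (op (U₂ * M')) (adjoint (op (Matrix.of w)) ξ) = _
      rw [← adj_mul (Matrix.diagonal s), ← h4, adj_mul, adj_mul, hU₂,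
        Submodule.starProjection_eq_self_iff.2 (Submodule.le_topologicalClosure _
          (mem_akr.2 (by rw [← adj_mul, h3, adj_neg])))]
    refine gdim_mono _ fun ξ hξ => ?_
    have h6 := h5 ξ
    rwa [hU, Submodule.starProjection_eq_self_iff.2 (Submodule.le_topologicalClosure _ hξ)] at h6
  · intro h z hz1 hz2
    have h1 : U₂ * M' * M = 0 := by rw [Matrix.mul_assoc, hMM, Matrix.mul_zero]
    have h2 : U₂ * M' * T₁ = -(U₂ * M') := Matrix.ext fun i j =>
      congrFun (hT (U₂ i) (congrFun hUT i)) j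
    have h3 := le_closure (eq_op (U₂ * M')).adj.inv_range hZ (range_le h1 h2) h
    have h4 : (adjoint (op (rowM z))).range ≤
        (adjoint (op M)).ker ⊓ (adjoint (op T₁) + 1).ker :=
      range_le (by rw [rowM_mul, hz1]; rfl) (by rw [rowM_mul, hz2]; rfl)
    have h5 := Submodule.orthogonal_le (h4.trans h3)
    rw [Submodule.orthogonal_closure, ContinuousLinearMap.orthogonal_range,
      ContinuousLinearMap.orthogonal_range, ContinuousLinearMap.adjoint_adjoint,
      ContinuousLinearMap.adjoint_adjoint] at h5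
    obtain ⟨s, hs, w, hw⟩ := tors_of_ker (U₂ * M') z h5
    refine ⟨s, hs, w ᵥ* U₂, ?_, ?_⟩
    · rw [Matrix.vecMul_vecMul, hUT, Matrix.vecMul_neg]
    · rw [Matrix.vecMul_vecMul, hw]

end Pool.Agent.MP_4f4d9f_gt.Db

end

section

open scoped Matrix Pointwise

namespace Pool.Agent.MP_4f4d9f_gt.Cb

open Finsupp Db

namespace AlMat

open FA Db.Mat
open ContinuousLinearMap (adjoint)

variable {G E : Type} [Group G] [NormedAddCommGroup E] [InnerProductSpace ℂ E] [CompleteSpace E]
  {b : HilbertBasis G ℂ E} {I J : Type} [Fintype I] [Fintype J]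

lemma adj_add (X Y : Matrix I J (vnAlg b)) (ξ : HV E I) :
    adjoint (op (X + Y)) ξ = adjoint (op X) ξ + adjoint (op Y) ξ := by
  rw [op_add, map_add]
  rfl

lemma adj_nsmul (n : ℕ) (X : Matrix I J (vnAlg b)) (ξ : HV E I) :
    adjoint (op (n • X)) ξ = (n : ℂ) • adjoint (op X) ξ := by
  induction n with
  | zero => rw [zero_smul, adj_zero, Nat.cast_zero, zero_smul]
  | succ n ih => rw [succ_nsmul, adj_add, ih, Nat.cast_succ, add_smul, one_smul]

lemma adj_one [DecidableEq I] (ξ : HV E I) : adjoint (op (1 : Matrix I I (vnAlg b))) ξ = ξ := by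
  have h : op (1 : Matrix I I (vnAlg b)) = 1 := by
    ext η i
    rw [op_apply, Finset.sum_eq_single i, Matrix.one_apply_eq]
    · rfl
    · intro j _ hj
      rw [Matrix.one_apply_ne hj.symm]
      rfl
    · simp
  rw [h, ← ContinuousLinearMap.star_eq_adjoint, star_one]
  rfl

lemma vec_T {N : Type} [Ring N] [DecidableEq I] (n : ℕ) (A : Matrix I I N) (z : I → N) :
    z ᵥ* (A - (n + 1) • 1) = -z ↔ z ᵥ* A = n • z := by
  rw [Matrix.vecMul_sub, Matrix.vecMul_smul, Matrix.vecMul_one, succ_nsmul, sub_eq_iff_eq_add,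
    add_comm (n • z), neg_add_cancel_left]

lemma mem_U [DecidableEq I] (n : ℕ) (A : Matrix I I (vnAlg b)) (ξ : HV E I) :
    ξ ∈ (adjoint (op (A - (n + 1) • 1)) + 1).ker ↔ adjoint (op A) ξ = (n : ℂ) • ξ := by
  rw [mem_akr, sub_eq_add_neg, adj_add, adj_neg, adj_nsmul, adj_one, Nat.cast_succ, add_smul,
    one_smul, ← sub_eq_add_neg, sub_eq_iff_eq_add, add_comm ((n : ℂ) • ξ), neg_add_cancel_left]

end AlMat

open FA Db.Mat AlMat in
theorem matN_stmt : MatNStmt := by
  intro G E _ _ _ _ b K₂ K₁ K₀ _ _ _ n hn M' M A hMM hMA hAM hAA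
  classical
  have hn' : (n : ℂ) ≠ 0 := Nat.cast_ne_zero.2 hn
  have h0 := mat_stmt G E b K₂ K₁ K₀ M' M (-1) (A - (n + 1) • 1) hMM (fun w => by simp)
    fun w _ => (vec_T n A _).2 (by rw [Matrix.vecMul_vecMul, hMA, Matrix.vecMul_smul])
  have h1 : MT M' M (-1) (A - (n + 1) • 1) ↔ MN n M' M A := by
    simp only [MT, MN, vec_T, Matrix.vecMul_neg, Matrix.vecMul_one, true_and]
  have h2 : (ContinuousLinearMap.adjoint (op (-1 : Matrix K₂ K₂ (vnAlg b))) + 1).ker = ⊤ :=
    eq_top_iff.2 fun ξ _ => mem_akr.2 (by rw [adj_neg, adj_one])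
  have h3 : gdim (fr b K₂) ⊤ = Fintype.card K₂ := by
    rw [← sum_fr (b := b)]
    exact Finset.sum_congr rfl fun i _ => by
      rw [Submodule.starProjection_eq_self_iff.2
        (Submodule.le_topologicalClosure _ Submodule.mem_top)]
  have h4 := rn M'
  rw [← h1, h0, zd, zd, ad, h2, inf_top_eq, h3]
  have hU := mem_U n A
  have hI := inv_anti (A - (n + 1) • 1)
  have hc := ker_closure (ContinuousLinearMap.adjoint (op (A - (n + 1) • 1)) + 1)
  generalize (ContinuousLinearMap.adjoint (op (A - (n + 1) • 1)) + 1).ker = U at hU hI hc ⊢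
  have haU : ∀ ξ, ContinuousLinearMap.adjoint (op A) ξ ∈ U := fun ξ =>
    (hU _).2 (by rw [← adj_mul, hAA, adj_nsmul])
  have h5 : ((n : ℂ)⁻¹ • ContinuousLinearMap.adjoint (op A)).range = U := by
    refine le_antisymm ?_ fun ξ hξ => ⟨ξ, ?_⟩
    · rintro _ ⟨ξ, rfl⟩
      exact U.smul_mem _ (haU ξ)
    · change (n : ℂ)⁻¹ • ContinuousLinearMap.adjoint (op A) ξ = ξ
      rw [(hU ξ).1 hξ, inv_smul_smul₀ hn']
  have h6 := re_trace_idem (gframe b K₁) ((n : ℂ)⁻¹ • ContinuousLinearMap.adjoint (op A))
    (fun g ξ => by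
      rw [_root_.smul_apply, _root_.smul_apply, (eq_op A).adj, map_smul]) fun ξ => by
      rw [_root_.smul_apply, _root_.smul_apply, map_smul, (hU _).1 (haU ξ), inv_smul_smul₀ hn']
  have h7 : tr (fr b K₁) (ContinuousLinearMap.adjoint (op A)) = n * gdim (fr b K₁) U := by
    have h8 := tr_smul (fr b K₁) n ((n : ℂ)⁻¹ • ContinuousLinearMap.adjoint (op A))
    rw [Complex.ofReal_natCast, smul_inv_smul₀ hn'] at h8
    rw [h8, ← h5, ← h6, Complex.re_sum]
    rfl
  obtain ⟨X, -, hX⟩ := exists_proj hI
  have h9 : ContinuousLinearMap.adjoint (op (X * M)) =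
      ContinuousLinearMap.adjoint (op M) ∘L U.topologicalClosure.starProjection := by
    rw [op_mul, ContinuousLinearMap.adjoint_comp, hX]
  have h10 : (ContinuousLinearMap.adjoint (op (X * M))).range =
      (ContinuousLinearMap.adjoint (op M)).range := by
    rw [h9]
    refine le_antisymm ?_ ?_
    · rintro _ ⟨ξ, rfl⟩
      exact ⟨_, rfl⟩
    · rintro _ ⟨ξ, rfl⟩
      refine ⟨(n : ℂ)⁻¹ • ContinuousLinearMap.adjoint (op A) ξ, ?_⟩
      change ContinuousLinearMap.adjoint (op M) (U.topologicalClosure.starProjection _) =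
        ContinuousLinearMap.adjoint (op M) ξ
      rw [Submodule.starProjection_eq_self_iff.2
        (Submodule.le_topologicalClosure _ (U.smul_mem _ (haU ξ))), map_smul, ← adj_mul, hAM,
        adj_nsmul, inv_smul_smul₀ hn']
  have h11 := rn (X * M)
  have h12 := gdim_ker_proj (fr b K₁) (ContinuousLinearMap.adjoint (op M)) hc
  rw [← h9, sum_fr] at h12
  rw [h10] at h11
  rw [h7, mul_le_mul_iff_right₀ (Nat.cast_pos.2 (Nat.pos_of_ne_zero hn))]
  constructor <;> intro h <;> linarith

end Pool.Agent.MP_4f4d9f_gt.Cb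

end
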