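import Pool.Agent.Mg.F4f4d9fr.G715938

set_option linter.all false

/-! Mirror gluings. -/

open scoped InnerProductSpace

namespace Pool.Agent.MP_4f4d9f_gt.Cb

namespace Mirror

section Alg

variable {A : Type} [Ring A]

theorem comm_inv {a b : A} (h : Commute a b) : Commute a (Ring.inverse b) := by
  by_cases hx : IsUnit b
  · obtain ⟨u, rfl⟩ := hx
    rw [Ring.inverse_unit]
    exact h.units_inv_right
  · rw [Ring.inverse_non_unit _ hx]
    exact Commute.zero_right _

theorem eq_inv_mul {a b c : A} (ha : IsUnit a) (h : a * b = c) : b = Ring.inverse a * c := by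
  rw [← h, ← mul_assoc, Ring.inverse_mul_cancel _ ha, one_mul]

theorem double {W N D : A} (h1 : W * N = N) (h2 : N * W = N) (hD : W * D = D)
    (hS : IsUnit (N + (1 - W))) (hT : IsUnit (N + N + (1 - W))) :
    Ring.inverse (N + (1 - W)) * D =
      Ring.inverse (N + N + (1 - W)) * D + Ring.inverse (N + N + (1 - W)) * D := by
  rw [← mul_add]
  refine eq_inv_mul hT ?_
  have hc : Commute (1 - W) (N + (1 - W)) := by
    refine Commute.add_right ?_ (Commute.refl _)
    change (1 - W) * N = N * (1 - W)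
    rw [sub_mul, mul_sub, h1, h2, one_mul, mul_one]
  have h3 : (1 - W) * (Ring.inverse (N + (1 - W)) * D) = 0 := by
    rw [← mul_assoc, (comm_inv hc).eq, mul_assoc, sub_mul, hD, one_mul, sub_self, mul_zero]
  have h4 : (N + (1 - W)) * (Ring.inverse (N + (1 - W)) * D) = D := by
    rw [← mul_assoc, Ring.mul_inverse_cancel _ hS, one_mul]
  have h5 : N + N + (1 - W) = (N + (1 - W)) + (N + (1 - W)) - (1 - W) := by abel
  rw [h5, sub_mul, add_mul, h3, h4, sub_zero]

theorem blk_left {p Q N : A} (hp : p * p = p) :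
    p * (p * Q * p + (1 - p) * N * (1 - p)) = p * Q * p := by
  have h : p * (1 - p) = 0 := by rw [mul_sub, hp, mul_one, sub_self]
  rw [mul_add, ← mul_assoc, ← mul_assoc, hp, ← mul_assoc, ← mul_assoc, h, zero_mul, zero_mul,
    add_zero]

theorem blk_right {p Q N : A} (hp : p * p = p) :
    (p * Q * p + (1 - p) * N * (1 - p)) * p = p * Q * p := by
  have h : (1 - p) * p = 0 := by rw [sub_mul, hp, one_mul, sub_self]
  rw [add_mul, mul_assoc _ p p, hp, mul_assoc _ (1 - p) p, h, mul_zero, add_zero]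

theorem inv_blk {p C C' : A} (hC : IsUnit C) (hC' : IsUnit C') (h1 : C * p = C' * p)
    (h2 : Commute p C') : Ring.inverse C' * p = Ring.inverse C * p := by
  refine eq_inv_mul hC ?_
  rw [← (comm_inv h2).eq, ← mul_assoc, h1, ← h2.eq, mul_assoc, Ring.mul_inverse_cancel _ hC',
    mul_one]

theorem blk_diag {p W N : A} (hp : p * p = p) (hN : Commute p N) (hW : p * (1 - W) = 1 - W)
    (hW' : (1 - W) * p = 1 - W) :
    p * (N + (1 - W)) * p + (1 - p) * N * (1 - p) = N + (1 - W) := by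
  have h1 : p * N * p = N * p := by rw [hN.eq, mul_assoc, hp]
  have h2 : (1 - p) * N * (1 - p) = N - N * p := by
    rw [sub_mul, one_mul, mul_sub, mul_one, sub_mul, h1, sub_self, sub_zero, hN.eq]
  rw [mul_add, add_mul, h1, h2, hW, hW']
  abel

theorem alg1 {S G D a : A} (h1 : S * G = 1) (h2 : G * S = 1) :
    a * (S + D) * G * (S + D) = a * (S + D) + a * D + a * D * G * D := by
  have h3 : (S + D) * G = 1 + D * G := by rw [add_mul, h1]
  have h4 : D * G * (S + D) = D + D * G * D := by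
    rw [mul_add, mul_assoc D G S, h2, mul_one]
  rw [mul_assoc a, h3, mul_assoc a, add_mul, one_mul, h4]
  noncomm_ring

theorem alg2 {a b : A} (ha : IsUnit a) (hb : IsUnit b) :
    Ring.inverse a * (a - b) * Ring.inverse b = Ring.inverse b - Ring.inverse a := by
  rw [mul_sub, sub_mul, Ring.inverse_mul_cancel _ ha, one_mul, mul_assoc,
    Ring.mul_inverse_cancel _ hb, mul_one]

end Alg

variable {G H I X : Type} [Group G] [Fintype I] [NormedAddCommGroup H] [InnerProductSpace ℂ H]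
  [CompleteSpace H] {π : G →* (H →L[ℂ] H)} {q P : X → H →L[ℂ] H} {bar : X → X}
  {τ : H →L[ℂ] H}

theorem deriv_inv {γ : ℝ → H →L[ℂ] H} {γ' : H →L[ℂ] H} {u : ℝ} (h : HasDerivAt γ γ' u)
    (hu : IsUnit (γ u)) : HasDerivAt (fun s => Ring.inverse (γ s))
      (-(Ring.inverse (γ u) * γ' * Ring.inverse (γ u))) u := by
  have h1 := hasFDerivAt_ringInverse (𝕜 := ℝ) hu.unit
  rw [hu.unit_spec] at h1
  have h2 := h1.comp_hasDerivAt u h
  simpa [Function.comp_def, ← Ring.inverse_unit, hu.unit_spec] using h2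

omit [CompleteSpace H] in
theorem deriv_aff (a b : H →L[ℂ] H) (u : ℝ) : HasDerivAt (fun s : ℝ => a + s • b) b u := by
  simpa using ((hasDerivAt_id u).smul_const b).const_add a

theorem deriv_ld (h1 : LdBasStmt) {e : I → H} (F : GFrame π e) {γ : ℝ → H →L[ℂ] H}
    {γ' : H →L[ℂ] H} {u : ℝ} (h : HasDerivAt γ γ' u) (hc : Cm π (γ u))
    (hp : IsStrictlyPositive (γ u)) (hc' : Cm π γ') :
    HasDerivAt (fun s => ld e (γ s)) (tr e (Ring.inverse (γ u) * γ')) u := by
  obtain ⟨L, hL, hL'⟩ := (h1 G H I π e F).2.2.1 _ hc hp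
  rw [← hL' _ hc']
  exact hL.comp_hasDerivAt u h

theorem le_of_deriv {f : ℝ → ℝ}
    (h : ∀ u ∈ Set.Icc (0 : ℝ) 1, ∃ d, HasDerivAt f d u ∧ (0 < u → 0 ≤ d)) : f 0 ≤ f 1 := by
  have hm : MonotoneOn f (Set.Icc 0 1) := by
    refine monotoneOn_of_deriv_nonneg (convex_Icc 0 1) (fun u hu => ?_) (fun u hu => ?_)
      fun u hu => ?_
    · obtain ⟨d, hd, -⟩ := h u hu
      exact hd.continuousAt.continuousWithinAt
    · obtain ⟨d, hd, -⟩ := h u (interior_subset hu)
      exact hd.differentiableAt.differentiableWithinAt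
    · obtain ⟨d, hd, hd'⟩ := h u (interior_subset hu)
      rw [interior_Icc] at hu
      rw [hd.deriv]
      exact hd' hu.1
  exact hm (Set.left_mem_Icc.2 zero_le_one) (Set.right_mem_Icc.2 zero_le_one) zero_le_one

omit [CompleteSpace H] in
theorem tr_rsmul (e : I → H) (t : ℝ) (S : H →L[ℂ] H) : tr e (t • S) = t * tr e S := by
  rw [← tr_smul, Complex.coe_smul]

omit [CompleteSpace H] in
theorem cm_one : Cm π 1 := fun _ => Commute.one_right _

omit [CompleteSpace H] in
theorem cm_add {a b : H →L[ℂ] H} (ha : Cm π a) (hb : Cm π b) : Cm π (a + b) :=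
  fun g => (ha g).add_right (hb g)

omit [CompleteSpace H] in
theorem cm_sub {a b : H →L[ℂ] H} (ha : Cm π a) (hb : Cm π b) : Cm π (a - b) :=
  fun g => (ha g).sub_right (hb g)

omit [CompleteSpace H] in
theorem cm_mul {a b : H →L[ℂ] H} (ha : Cm π a) (hb : Cm π b) : Cm π (a * b) :=
  fun g => (ha g).mul_right (hb g)

theorem sa_inner {T : H →L[ℂ] H} (hT : IsSelfAdjoint T) (ξ η : H) :
    ⟪T ξ, η⟫_ℂ = ⟪ξ, T η⟫_ℂ := by
  rw [← ContinuousLinearMap.adjoint_inner_right, ← ContinuousLinearMap.star_eq_adjoint,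
    hT.star_eq]

theorem sa_flip {a b c : H →L[ℂ] H} (ha : IsSelfAdjoint a) (hb : IsSelfAdjoint b)
    (hc : IsSelfAdjoint c) (h : a * b = c) : b * a = c := by
  have := congrArg star h
  rwa [star_mul, ha.star_eq, hb.star_eq, hc.star_eq] at this

theorem wd_nonneg {N : H →L[ℂ] H} (h : Wp q ≤ N) : 0 ≤ N := (Wp_proj q).nonneg.trans h

theorem wd_right {N : H →L[ℂ] H} (h : Wp q ≤ N) (h' : Wp q * N = N) : N * Wp q = N :=
  sa_flip (Wp_proj q).isSelfAdjoint (wd_nonneg h).isSelfAdjoint (wd_nonneg h).isSelfAdjoint h'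

theorem wd_S {N : H →L[ℂ] H} (h : Wp q ≤ N) : IsStrictlyPositive (N + (1 - Wp q)) :=
  isStrictlyPositive_one.of_le (by
    calc (1 : H →L[ℂ] H) = Wp q + (1 - Wp q) := by abel
      _ ≤ N + (1 - Wp q) := add_le_add_left h _)

theorem wd_T_le {N : H →L[ℂ] H} (h : Wp q ≤ N) : 1 + N ≤ N + N + (1 - Wp q) := by
  calc 1 + N = N + Wp q + (1 - Wp q) := by abel
    _ ≤ N + N + (1 - Wp q) := add_le_add_left (add_le_add_right h _) _

theorem wd_K {N : H →L[ℂ] H} (h : Wp q ≤ N) : IsStrictlyPositive (1 + N) :=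
  isStrictlyPositive_one.add_nonneg (wd_nonneg h)

theorem wd_T {N : H →L[ℂ] H} (h : Wp q ≤ N) : IsStrictlyPositive (N + N + (1 - Wp q)) :=
  (wd_K h).of_le (wd_T_le h)

theorem wd_double {N D : H →L[ℂ] H} (h : Wp q ≤ N) (h' : Wp q * N = N) (hD : Wp q * D = D) :
    Ring.inverse (N + (1 - Wp q)) * D =
      Ring.inverse (N + N + (1 - Wp q)) * D + Ring.inverse (N + N + (1 - Wp q)) * D :=
  double h' (wd_right h h') hD (wd_S h).isUnit (wd_T h).isUnit

theorem q_int (hq : ∀ x, IsStarProjection (q x)) (x : X) : q x * (1 - Wp q) = 0 := by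
  rw [mul_sub, q_mul_Wp hq, mul_one, sub_self]

theorem comm_of_or (hq : ∀ x, IsStarProjection (q x)) {R N : H →L[ℂ] H} (hR : IsSelfAdjoint R)
    (hor : ∀ x, R * q x = q x ∨ R * q x = 0) (hN : WD π q N) : Commute R N := by
  have hr := wd_right hN.le hN.out
  refine wall_ext hq (fun x => ?_) ?_
  · rw [mul_assoc, ← (hN.blk x).eq, ← mul_assoc, mul_assoc N]
    rcases hor x with h | h
    · rw [h, (hN.blk x).eq]
    · rw [h, zero_mul, mul_zero]
  · have h1 : Wp q * (R * (1 - Wp q)) = 0 := by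
      ext ξ
      refine Wp_eq_zero.2 fun x => ?_
      have h2 : q x * (R * (1 - Wp q)) = 0 := by
        rw [← mul_assoc]
        rcases hor x with h | h
        · rw [sa_flip hR (hq x).isSelfAdjoint (hq x).isSelfAdjoint h, q_int hq]
        · rw [sa_flip hR (hq x).isSelfAdjoint (IsSelfAdjoint.zero _) h, zero_mul]
      exact congrArg (fun U : H →L[ℂ] H => U ξ) h2
    rw [mul_assoc, mul_sub N, hr, mul_one, sub_self, mul_zero, mul_assoc, ← hr, mul_assoc, h1,
      mul_zero]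

theorem tau_int (hq : ∀ x, IsStarProjection (q x)) (hτ : Glue π q P bar τ) :
    τ * (1 - Wp q) = 1 - Wp q := by
  ext ξ
  exact hτ.int _ fun x => congrArg (fun U : H →L[ℂ] H => U ξ) (q_int hq x)

theorem tau_comm (hq : ∀ x, IsStarProjection (q x)) (hτ : Glue π q P bar τ)
    (hm : ∀ x, ∃ g, τ * q x = π g * q x) {N : H →L[ℂ] H} (hN : WD π q N) : Commute τ N := by
  have hr := wd_right hN.le hN.out
  refine wall_ext hq (fun x => ?_) ?_
  · obtain ⟨g, hg⟩ := hm x
    rw [mul_assoc, ← (hN.blk x).eq, ← mul_assoc, hg, mul_assoc, (hN.blk x).eq, ← mul_assoc,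
      (hN.cm g).eq, mul_assoc, mul_assoc, hg]
  · rw [mul_assoc, mul_assoc, tau_int hq hτ, mul_sub, hr, mul_one, sub_self, mul_zero]

theorem pj_sa (hτ : Glue π q P bar τ) : IsSelfAdjoint (pj τ) := by
  rw [IsSelfAdjoint, pj, star_smul, star_add, star_one, hτ.sa]
  simp

theorem pj_idem (hτ : Glue π q P bar τ) : pj τ * pj τ = pj τ := by
  rw [pj, smul_mul_smul_comm, mul_add, add_mul, add_mul, hτ.inv, mul_one, one_mul, mul_one]
  module

omit [CompleteSpace H] in
theorem pj_comm {a : H →L[ℂ] H} (h : Commute a τ) : Commute a (pj τ) :=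
  ((Commute.one_right a).add_right h).smul_right _

theorem pj_int (hq : ∀ x, IsStarProjection (q x)) (hτ : Glue π q P bar τ) :
    pj τ * (1 - Wp q) = 1 - Wp q := by
  rw [pj, smul_mul_assoc, add_mul, tau_int hq hτ, one_mul]
  module

theorem cmp_pos (hq : ∀ x, IsStarProjection (q x)) (hτ : Glue π q P bar τ) {Q N : H →L[ℂ] H}
    (hQ : 1 ≤ Q) (hN : Wp q ≤ N) : IsStrictlyPositive (cmp τ Q N) := by
  have hp : IsStarProjection (pj τ) := ⟨pj_idem hτ, pj_sa hτ⟩
  have h1 := hp.isSelfAdjoint.conjugate_le_conjugate hQ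
  have h2 := hp.one_sub.isSelfAdjoint.conjugate_le_conjugate hN
  have h3 : (1 - pj τ) * Wp q = 1 - pj τ := by
    have h4 : (1 - pj τ) * (1 - Wp q) = 0 := by rw [sub_mul, pj_int hq hτ, one_mul, sub_self]
    rw [mul_sub, mul_one, sub_eq_zero] at h4
    exact h4.symm
  rw [mul_one, pj_idem hτ] at h1
  rw [h3, hp.one_sub.isIdempotentElem.eq] at h2
  refine isStrictlyPositive_one.of_le ?_
  calc (1 : H →L[ℂ] H) = pj τ + (1 - pj τ) := by abel
    _ ≤ cmp τ Q N := add_le_add h1 h2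

theorem cmp_cm (hτ : Glue π q P bar τ) {Q N : H →L[ℂ] H} (hQ : Cm π Q) (hN : Cm π N) :
    Cm π (cmp τ Q N) := by
  have hp : Cm π (pj τ) := fun g => pj_comm (hτ.cm g)
  exact cm_add (cm_mul (cm_mul hp hQ) hp)
    (cm_mul (cm_mul (cm_sub cm_one hp) hN) (cm_sub cm_one hp))

theorem cmp_comm (hτ : Glue π q P bar τ) (Q N : H →L[ℂ] H) : Commute (pj τ) (cmp τ Q N) :=
  (blk_left (pj_idem hτ)).trans (blk_right (pj_idem hτ)).symm

theorem grn_eq (hq : ∀ x, IsStarProjection (q x)) (hτ : Glue π q P bar τ) {Q N : H →L[ℂ] H}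
    (hQ : 1 ≤ Q) (hN : Wp q ≤ N) : grn τ Q = Ring.inverse (cmp τ Q N) * pj τ :=
  inv_blk (cmp_pos hq hτ hQ hN).isUnit (cmp_pos hq hτ hQ (Wp_proj q).le_one).isUnit
    ((blk_right (pj_idem hτ)).trans (blk_right (pj_idem hτ)).symm) (cmp_comm hτ Q 1)

theorem pj_grn (hτ : Glue π q P bar τ) (Q : H →L[ℂ] H) : pj τ * grn τ Q = grn τ Q := by
  rw [grn, ← mul_assoc, (comm_inv (cmp_comm hτ Q 1)).eq, mul_assoc, pj_idem hτ]

theorem tr_piece {e : I → H} {E : I → H →L[ℂ] H} (hE : Fits q P bar e E) {Z R S : H →L[ℂ] H}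
    (hZ : ∀ i, Commute (E i) Z) (h : ∀ i, E i (R (e i)) = S (e i)) :
    tr e (Z * R) = tr e (Z * S) := by
  refine Finset.sum_congr rfl fun i _ => congrArg _ ?_
  have h1 : E i (Z (R (e i))) = Z (E i (R (e i))) :=
    congrArg (fun U : H →L[ℂ] H => U (R (e i))) (hZ i).eq
  change ⟪e i, Z (R (e i))⟫_ℂ = ⟪e i, Z (S (e i))⟫_ℂ
  rw [← h, ← h1, ← sa_inner (hE.piece i).proj.isSelfAdjoint, hE.mem]

theorem tr_wall (hq : ∀ x, IsStarProjection (q x)) {e : I → H} {E : I → H →L[ℂ] H}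
    (hE : Fits q P bar e E) {Y R S T : H →L[ℂ] H} (hY : Wp q * Y = Y)
    (hb : ∀ x, Commute (q x) Y) (h : ∀ i, E i (R (e i)) = S (e i))
    (h' : ∀ x ξ, q x ξ = ξ → q x (R ξ) + q x (R ξ) = T ξ) :
    2 * tr e (Y * S) = tr e (Y * T) := by
  rw [two_mul, ← tr_add]
  refine Finset.sum_congr rfl fun i _ => congrArg _ ?_
  change ⟪e i, Y (S (e i)) + Y (S (e i))⟫_ℂ = ⟪e i, Y (T (e i))⟫_ℂ
  rcases hE.wall i with h0 | ⟨x, hx⟩
  · have h1 : ∀ η, ⟪e i, Y η⟫_ℂ = 0 := fun η => by
      have h2 : Wp q (Y η) = Y η := congrArg (fun U : H →L[ℂ] H => U η) hY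
      rw [← h2, ← sa_inner (Wp_proj q).isSelfAdjoint, Wp_eq_zero.2 h0, inner_zero_left]
    rw [← map_add, h1, h1]
  · rcases (hE.piece i).or x with ⟨h1, -⟩ | h1
    · have h2 := sa_flip (hE.piece i).proj.isSelfAdjoint (hq x).isSelfAdjoint
        (hq x).isSelfAdjoint h1
      have h3 : q x (E i (R (e i))) = q x (R (e i)) :=
        congrArg (fun U : H →L[ℂ] H => U (R (e i))) h2
      have h4 : ∀ η, q x (Y η) = Y (q x η) := fun η =>
        congrArg (fun U : H →L[ℂ] H => U η) (hb x).eq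
      rw [← h' x _ hx, ← h3, h, ← map_add (q x), ← h4, ← sa_inner (hq x).isSelfAdjoint, hx,
        map_add]
    · have h2 : E i (q x (e i)) = 0 := congrArg (fun U : H →L[ℂ] H => U (e i)) h1
      rw [hx, hE.mem] at h2
      rw [h2, inner_zero_left, inner_zero_left]

theorem sign (h1 : LdBasStmt) (h2 : SubStmt) {e : I → H} (F : GFrame π e) (hw : Walls π q P bar)
    (hτ : Glue π q P bar τ) (hm : ∀ x, ∃ g, τ * q x = π g * q x) {E : I → H →L[ℂ] H}
    (hE : Fits q P bar e E) {Q : H →L[ℂ] H} (hQ : Adm π P Q) (hEQ : ∀ i, Commute (E i) Q)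
    {N : H →L[ℂ] H} (hN : WD π q N) {Z : H →L[ℂ] H}
    (hZ : Z = (Q + N) * Ring.inverse (N + N + (1 - Wp q)) * (Q + N) - (Q + N)) :
    tr e (Ring.inverse (cmp τ Q N) * (pj τ * Z * pj τ)) ≤ tr e (Ring.inverse (Q + N) * Z) := by
  obtain ⟨t1, t2, -, -⟩ := h1 G H I π e F
  obtain ⟨Λ, hΛ1, hΛ, -⟩ := h2 G H X π F.star_eq q P bar τ hw hτ
  have hq := hw.q_proj
  have hW : WD π q (Wp q) :=
    hΛ1 ▸ (hΛ 1 ⟨le_rfl, cm_one, fun _ => Commute.one_right _⟩).1
  obtain ⟨hL, hL2, hL3⟩ := hΛ Q hQ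
  generalize Λ Q = L at hL hL2 hL3
  have hτL : τ * L * τ = L := by rw [(tau_comm hq hτ hm hL).eq, mul_assoc, hτ.inv, mul_one]
  rw [hτL] at hL2 hL3
  have hS : IsStrictlyPositive (Q + L) :=
    (isStrictlyPositive_one.of_le hQ.one_le).add_nonneg (wd_nonneg hL.le)
  have hB : IsStrictlyPositive (Q + N) :=
    (isStrictlyPositive_one.of_le hQ.one_le).add_nonneg (wd_nonneg hN.le)
  have hEc : ∀ i {M : H →L[ℂ] H}, WD π q M → Commute (E i) M := fun i _ hM =>
    comm_of_or hq (hE.piece i).proj.isSelfAdjoint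
      (fun x => ((hE.piece i).or x).imp (fun h => h.1) id) hM
  have hG : ∀ i, E i (grn τ Q (e i)) = Ring.inverse (Q + L) (e i) := fun i => by
    have h3 := hL3 (E i) (hE.piece i) (hEQ i) (e i) (hE.mem i)
    have h4 : (Ring.inverse (Q + L) * (Q + L)) (E i (grn τ Q (e i))) = E i (grn τ Q (e i)) := by
      rw [Ring.inverse_mul_cancel _ hS.isUnit]
      rfl
    rw [← h4]
    exact congrArg _ h3
  have hLi : ∀ x ξ, q x ξ = ξ →
      q x (grn τ Q ξ) + q x (grn τ Q ξ) = Ring.inverse (L + (1 - Wp q)) ξ := fun x ξ hξ => by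
    have h3 := hL2 x ξ hξ
    have h5 : Wp q (q x (grn τ Q ξ)) = q x (grn τ Q ξ) :=
      congrArg (fun U : H →L[ℂ] H => U (grn τ Q ξ)) (Wp_mul_q hq x)
    generalize q x (grn τ Q ξ) = η at h3 h5
    have h6 : (L + (1 - Wp q)) (η + η) = ξ := by
      rw [← h3]
      simp [h5]
    have h4 : (Ring.inverse (L + (1 - Wp q)) * (L + (1 - Wp q))) (η + η) = η + η := by
      rw [Ring.inverse_mul_cancel _ (wd_S hL.le).isUnit]
      rfl
    rw [← h4]
    exact congrArg _ h6
  have cp : Cm π (pj τ) := fun g => pj_comm (hτ.cm g)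
  have cB : Cm π (Q + N) := cm_add hQ.cm hN.cm
  have cA : Cm π (Ring.inverse (N + N + (1 - Wp q))) :=
    (cm_add (cm_add hN.cm hN.cm) (cm_sub cm_one hW.cm)).inverse
  have cNi : Cm π (Ring.inverse (N + (1 - Wp q))) := (cm_add hN.cm (cm_sub cm_one hW.cm)).inverse
  have cLi : Cm π (Ring.inverse (L + (1 - Wp q))) := (cm_add hL.cm (cm_sub cm_one hW.cm)).inverse
  have cG : Cm π (Ring.inverse (Q + L)) := (cm_add hQ.cm hL.cm).inverse
  have cD : Cm π (N - L) := cm_sub hN.cm hL.cm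
  have cZ : Cm π Z := hZ ▸ cm_sub (cm_mul (cm_mul cB cA) cB) cB
  have cR : Cm π (grn τ Q) := cm_mul (cmp_cm hτ hQ.cm cm_one).inverse cp
  have hEZ : ∀ i, Commute (E i) Z := fun i => by
    have h3 : Commute (E i) (Q + N) := (hEQ i).add_right (hEc i hN)
    have h4 := comm_inv (((hEc i hN).add_right (hEc i hN)).add_right
      ((Commute.one_right _).sub_right (hEc i hW)))
    exact hZ ▸ ((h3.mul_right h4).mul_right h3).sub_right h3
  have hWD : Wp q * (N - L) = N - L := by rw [mul_sub, hN.out, hL.out]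
  have hbD : ∀ x, Commute (q x) (N - L) := fun x => (hN.blk x).sub_right (hL.blk x)
  have hbA : ∀ x, Commute (q x) (Ring.inverse (N + N + (1 - Wp q))) := fun x =>
    comm_inv (((hN.blk x).add_right (hN.blk x)).add_right
      ((Commute.one_right _).sub_right (hW.blk x)))
  have hdb := wd_double hN.le hN.out hWD
  have hres := alg2 (wd_S hN.le).isUnit (wd_S hL.le).isUnit
  rw [show N + (1 - Wp q) - (L + (1 - Wp q)) = N - L by abel] at hres
  have hDsa : IsSelfAdjoint (N - L) :=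
    (wd_nonneg hN.le).isSelfAdjoint.sub (wd_nonneg hL.le).isSelfAdjoint
  have hpos := t2 _ _ (cm_mul (cm_mul cD cNi) cD) cLi
    (hDsa.conjugate_nonneg (wd_S hN.le).ringInverse.nonneg) (wd_S hL.le).ringInverse.nonneg
  have s1 : tr e (Ring.inverse (cmp τ Q N) * (pj τ * Z * pj τ)) =
      tr e (Z * Ring.inverse (Q + L)) := by
    rw [← mul_assoc, ← mul_assoc, ← grn_eq hq hτ hQ.one_le hN.le, t1 _ _ (cm_mul cR cZ) cp,
      ← mul_assoc, pj_grn hτ, t1 _ _ cR cZ]
    exact tr_piece hE hEZ hG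
  have w1 := tr_wall hq hE hWD hbD hG hLi
  have w2 := tr_wall hq hE (Y := (N - L) * Ring.inverse (N + N + (1 - Wp q)) * (N - L))
    (by rw [← mul_assoc, ← mul_assoc, hWD])
    (fun x => ((hbD x).mul_right (hbA x)).mul_right (hbD x)) hG hLi
  have hBS : Q + N = Q + L + (N - L) := by abel
  have g1 := Ring.mul_inverse_cancel _ hS.isUnit
  have g2 := Ring.inverse_mul_cancel _ hS.isUnit
  have g3 := Ring.inverse_mul_cancel _ hB.isUnit
  rw [s1, hZ]
  generalize Ring.inverse (N + N + (1 - Wp q)) = a at *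
  generalize Ring.inverse (N + (1 - Wp q)) = Ni at *
  generalize Ring.inverse (L + (1 - Wp q)) = Li at *
  generalize Ring.inverse (Q + L) = Gi at *
  generalize Ring.inverse (Q + N) = Bi at *
  generalize N - L = D at *
  have s2 : tr e (Bi * ((Q + N) * a * (Q + N) - (Q + N))) = tr e (a * (Q + N)) - tr e 1 := by
    rw [mul_sub, ← mul_assoc, ← mul_assoc, g3, one_mul, tr_sub]
  have s3 : tr e ((Q + N) * Gi) = tr e 1 + tr e (D * Gi) := by
    rw [hBS, add_mul, g1, tr_add]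
  have s4 : tr e ((Q + N) * a * (Q + N) * Gi) =
      tr e (a * (Q + N)) + tr e (a * D) + tr e (D * a * D * Gi) := by
    rw [mul_assoc, mul_assoc, t1 _ _ cB (cm_mul cA (cm_mul cB cG)), ← mul_assoc, hBS,
      alg1 g1 g2, tr_add, tr_add, t1 _ _ (cm_mul (cm_mul cA cD) cG) cD, ← mul_assoc,
      ← mul_assoc]
  have s5 : tr e (Ni * D) = 2 * tr e (a * D) := by rw [hdb, tr_add, two_mul]
  have s6 : tr e (D * Ni * D * Li) = 2 * tr e (D * a * D * Li) := by
    rw [mul_assoc D Ni, hdb, mul_add, add_mul, tr_add, two_mul, mul_assoc D a]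
  have s7 : tr e (D * Ni * D * Li) = tr e (D * Li) - tr e (Ni * D) := by
    rw [mul_assoc, mul_assoc, ← mul_assoc Ni, hres, mul_sub, tr_sub, t1 _ _ cD cNi]
  rw [sub_mul, tr_sub, s2, s3, s4]
  linarith

/-- The interpolated inverse. -/
noncomputable def Au (W Q N : H →L[ℂ] H) (u : ℝ) : H →L[ℂ] H :=
  Ring.inverse (N + N + (1 - W)) + u • (Ring.inverse (Q + N) - Ring.inverse (N + N + (1 - W)))

omit [CompleteSpace H] in
theorem Au_comm {R W Q N : H →L[ℂ] H} (hW : Commute R W) (hQ : Commute R Q) (hN : Commute R N)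
    (u : ℝ) : Commute R (Ring.inverse (Q + N) - Ring.inverse (N + N + (1 - W))) ∧
      Commute R (Ring.inverse (Au W Q N u)) := by
  have h1 := comm_inv ((hN.add_right hN).add_right ((Commute.one_right _).sub_right hW))
  have h2 := (comm_inv (hQ.add_right hN)).sub_right h1
  exact ⟨h2, comm_inv (h1.add_right (h2.smul_right u))⟩

theorem Au_pos {Q N : H →L[ℂ] H} (hQ : 1 ≤ Q) (hN : Wp q ≤ N) {u : ℝ}
    (hu : u ∈ Set.Icc (0 : ℝ) 1) :
    IsStrictlyPositive (Au (Wp q) Q N u) ∧ 1 ≤ Ring.inverse (Au (Wp q) Q N u) - N := by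
  have hB : IsStrictlyPositive (Q + N) :=
    (isStrictlyPositive_one.of_le hQ).add_nonneg (wd_nonneg hN)
  have h1 : Au (Wp q) Q N u =
      (1 - u) • Ring.inverse (N + N + (1 - Wp q)) + u • Ring.inverse (Q + N) := by
    rw [Au]
    module
  have h2 : IsStrictlyPositive (Au (Wp q) Q N u) := by
    rw [h1]
    rcases hu.1.eq_or_lt with h | h
    · rw [← h, sub_zero, one_smul, zero_smul, add_zero]
      exact (wd_T hN).ringInverse
    · exact IsStrictlyPositive.nonneg_add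
        (smul_nonneg (sub_nonneg.2 hu.2) (wd_T hN).ringInverse.nonneg) (hB.ringInverse.smul h)
  refine ⟨h2, le_sub_iff_add_le.2 ?_⟩
  have h3 := CStarAlgebra.ringInverse_le_ringInverse (wd_T_le hN) (wd_K hN)
  have h4 := CStarAlgebra.ringInverse_le_ringInverse (add_le_add_left hQ N) (wd_K hN)
  have h5 : Au (Wp q) Q N u ≤ Ring.inverse (1 + N) := by
    rw [h1]
    calc _ ≤ (1 - u) • Ring.inverse (1 + N) + u • Ring.inverse (1 + N) :=
          add_le_add (smul_le_smul_of_nonneg_left h3 (sub_nonneg.2 hu.2))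
            (smul_le_smul_of_nonneg_left h4 hu.1)
      _ = Ring.inverse (1 + N) := by module
  have h6 := CStarAlgebra.ringInverse_le_ringInverse h5 h2
  rwa [Ring.inverse_inverse (wd_K hN).isUnit] at h6

theorem base (h1 : LdBasStmt) {e : I → H} (F : GFrame π e) (cW : Cm π (Wp q)) {N : H →L[ℂ] H}
    (hN : WD π q N) :
    ld e (1 + Wp q) ≤ ld e (N + N + (1 - Wp q)) - ld e (N + (1 - Wp q)) := by
  have hWD : Wp q * (N - Wp q) = N - Wp q := by
    rw [mul_sub, hN.out, (Wp_proj q).isIdempotentElem.eq]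
  have cD : Cm π (N - Wp q) := cm_sub hN.cm cW
  have key := le_of_deriv (f := fun s => ld e (Wp q + s • (N - Wp q) + (Wp q + s • (N - Wp q)) +
    (1 - Wp q)) - ld e (Wp q + s • (N - Wp q) + (1 - Wp q))) fun u hu => by
      have hle : Wp q ≤ Wp q + u • (N - Wp q) :=
        le_add_of_nonneg_right (smul_nonneg hu.1 (sub_nonneg.2 hN.le))
      have hout : Wp q * (Wp q + u • (N - Wp q)) = Wp q + u • (N - Wp q) := by
        rw [mul_add, mul_smul_comm, hWD, (Wp_proj q).isIdempotentElem.eq]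
      have cM : Cm π (Wp q + u • (N - Wp q)) := cm_add cW fun g => (cD g).smul_right u
      have d0 := deriv_aff (Wp q) (N - Wp q) u
      have d1 := deriv_ld h1 F ((d0.fun_add d0).add_const (1 - Wp q))
        (cm_add (cm_add cM cM) (cm_sub cm_one cW)) (wd_T hle) (cm_add cD cD)
      have d2 := deriv_ld h1 F (d0.add_const (1 - Wp q)) (cm_add cM (cm_sub cm_one cW))
        (wd_S hle) cD
      refine ⟨_, d1.fun_sub d2, fun _ => ?_⟩
      rw [wd_double hle hout hWD, mul_add, sub_self]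
  simp only [zero_smul, add_zero, one_smul] at key
  rw [show Wp q + Wp q + (1 - Wp q) = 1 + Wp q by abel, show Wp q + (1 - Wp q) = 1 by abel,
    ld_one, sub_zero, show Wp q + (N - Wp q) = N by abel] at key
  exact key

end Mirror

open Mirror in
theorem mirror_stmt (h1 : LdBasStmt) (h2 : SubStmt) : MirrorStmt := by
  intro G H I X _ _ _ _ _ π e F q P bar τ hw hτ hm E hE Q hQ hEQ N hN
  have hq := hw.q_proj
  have hW : WD π q (Wp q) := by
    obtain ⟨Λ, hΛ1, hΛ, -⟩ := h2 G H X π F.star_eq q P bar τ hw hτ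
    exact hΛ1 ▸ (hΛ 1 ⟨le_rfl, cm_one, fun _ => Commute.one_right _⟩).1
  have hEc : ∀ i {M : H →L[ℂ] H}, WD π q M → Commute (E i) M := fun i _ hM =>
    comm_of_or hq (hE.piece i).proj.isSelfAdjoint
      (fun x => ((hE.piece i).or x).imp (fun h => h.1) id) hM
  have hPc : ∀ x {M : H →L[ℂ] H}, WD π q M → Commute (P x) M := fun x _ hM =>
    comm_of_or hq (hw.P_proj x).isSelfAdjoint (hw.P_or x) hM
  have cp : Cm π (pj τ) := fun g => pj_comm (hτ.cm g)
  have key := le_of_deriv (f := fun s => ld e (Ring.inverse (Au (Wp q) Q N s)) -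
    ld e (cmp τ (Ring.inverse (Au (Wp q) Q N s) - N) N)) fun u hu => by
      obtain ⟨p1, p2⟩ := Au_pos hQ.one_le hN.le hu
      have cB : Cm π (Ring.inverse (Au (Wp q) Q N u)) := fun g =>
        (Au_comm (hW.cm g) (hQ.cm g) (hN.cm g) u).2
      have cA : Cm π (Ring.inverse (Q + N) - Ring.inverse (N + N + (1 - Wp q))) := fun g =>
        (Au_comm (hW.cm g) (hQ.cm g) (hN.cm g) u).1
      have cQ' : Cm π (-(Ring.inverse (Au (Wp q) Q N u) *
          (Ring.inverse (Q + N) - Ring.inverse (N + N + (1 - Wp q))) *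
          Ring.inverse (Au (Wp q) Q N u))) := fun g => (cm_mul (cm_mul cB cA) cB g).neg_right
      have hQu : Adm π P (Ring.inverse (Au (Wp q) Q N u) - N) :=
        ⟨p2, cm_sub cB hN.cm, fun x =>
          (Au_comm (hPc x hW) (hQ.side x) (hPc x hN) u).2.sub_right (hPc x hN)⟩
      have d0 : HasDerivAt (fun s => Ring.inverse (Au (Wp q) Q N s)) _ u :=
        deriv_inv (γ := Au (Wp q) Q N) (deriv_aff _ _ u) p1.isUnit
      have d1 := deriv_ld h1 F d0 cB p1.ringInverse cQ'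
      have d2 : HasDerivAt (fun s => cmp τ (Ring.inverse (Au (Wp q) Q N s) - N) N) _ u :=
        (((d0.sub_const N).const_mul (pj τ)).mul_const (pj τ)).add_const _
      have d3 := deriv_ld h1 F d2 (cmp_cm hτ hQu.cm hN.cm) (cmp_pos hq hτ p2 hN.le)
        (cm_mul (cm_mul cp cQ') cp)
      refine ⟨_, d1.fun_sub d3, fun hu0 => ?_⟩
      have hs := sign h1 h2 F hw hτ hm hE hQu (fun i =>
        (Au_comm (hEc i hW) (hEQ i) (hEc i hN) u).2.sub_right (hEc i hN)) hN rfl
      rw [sub_add_cancel] at hs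
      have hZ : Ring.inverse (Au (Wp q) Q N u) * Ring.inverse (N + N + (1 - Wp q)) *
          Ring.inverse (Au (Wp q) Q N u) - Ring.inverse (Au (Wp q) Q N u) =
          u • -(Ring.inverse (Au (Wp q) Q N u) *
          (Ring.inverse (Q + N) - Ring.inverse (N + N + (1 - Wp q))) *
          Ring.inverse (Au (Wp q) Q N u)) := by
        have h3 : u • (Ring.inverse (Q + N) - Ring.inverse (N + N + (1 - Wp q))) =
            Au (Wp q) Q N u - Ring.inverse (N + N + (1 - Wp q)) := by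
          rw [Au, add_sub_cancel_left]
        rw [smul_neg, ← smul_mul_assoc, ← mul_smul_comm, h3, mul_sub, sub_mul,
          Ring.inverse_mul_cancel _ p1.isUnit, one_mul, neg_sub]
      rw [hZ, mul_smul_comm, smul_mul_assoc, mul_smul_comm, mul_smul_comm, tr_rsmul,
        tr_rsmul] at hs
      exact sub_nonneg.2 (le_of_mul_le_mul_left hs hu0)
  have hB : IsStrictlyPositive (Q + N) :=
    (isStrictlyPositive_one.of_le hQ.one_le).add_nonneg (wd_nonneg hN.le)
  have a0 : Ring.inverse (Au (Wp q) Q N 0) = N + N + (1 - Wp q) := by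
    rw [Au, zero_smul, add_zero, Ring.inverse_inverse (wd_T hN.le).isUnit]
  have a1 : Ring.inverse (Au (Wp q) Q N 1) = Q + N := by
    rw [Au, one_smul, add_sub_cancel, Ring.inverse_inverse hB.isUnit]
  have c0 : cmp τ (N + (1 - Wp q)) N = N + (1 - Wp q) :=
    blk_diag (pj_idem hτ) (pj_comm (tau_comm hq hτ hm hN).symm).symm (pj_int hq hτ)
      (sa_flip (pj_sa hτ) (Wp_proj q).one_sub.isSelfAdjoint (Wp_proj q).one_sub.isSelfAdjoint
        (pj_int hq hτ))
  simp only [a0, a1] at key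
  rw [show N + N + (1 - Wp q) - N = N + (1 - Wp q) by abel, c0, add_sub_cancel_right] at key
  have hb := base h1 F hW.cm hN
  linarith

end Pool.Agent.MP_4f4d9f_gt.Cb
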