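import Pool.Agent.Mg.F4f4d9fr.G715938
import Pool.Agent.Mg.F4f4d9fr.G787eb1

set_option linter.all false

section

/-! Walls in right-angled Coxeter groups. -/

namespace Pool.Agent.MP_4f4d9f_gt.Cb

namespace RaT

variable {S : Type} {c : S → S → Prop}

theorem cancel (s : S) (w : RA c) : gen c s * (gen c s * w) = w := by
  rw [← mul_assoc, gen_sq, one_mul]

/-- The exchange condition. -/
theorem exch (l : List S) (r : RA c) (h : Nn (l.map (gen c)).prod r) :
    ∃ l' : List S, l' ⊆ l ∧ l'.length < l.length ∧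
      r * (l.map (gen c)).prod = (l'.map (gen c)).prod := by
  induction l generalizing r with
  | nil => exact (nn_one r h).elim
  | cons a l ih =>
    rw [List.map_cons, List.prod_cons] at h ⊢
    by_cases e : r = gen c a
    · exact ⟨l, List.subset_cons_self _ _, Nat.lt_succ_self _, by rw [e, cancel]⟩
    · rw [nn_gen_mul] at h
      obtain ⟨l', h1, h2, h3⟩ := ih (gen c a * r * gen c a) (by tauto)
      refine ⟨a :: l', List.cons_subset_cons a h1, Nat.succ_lt_succ h2, ?_⟩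
      rw [List.map_cons, List.prod_cons, ← h3, mul_assoc, mul_assoc, cancel]

theorem exists_list {T : Set S} {w : RA c} (hw : w ∈ Subgroup.closure (gen c '' T)) :
    ∃ l : List S, (∀ a ∈ l, a ∈ T) ∧ (l.map (gen c)).prod = w := by
  refine par_induction (P := fun w => ∃ l : List S, (∀ a ∈ l, a ∈ T) ∧ (l.map (gen c)).prod = w)
    ⟨[], by simp, rfl⟩ ?_ hw
  rintro _ - s hs ⟨l, h, rfl⟩
  exact ⟨l ++ [s], List.forall_mem_append.2 ⟨h, by simpa using hs⟩, by simp⟩

theorem mem_top (w : RA c) : w ∈ Subgroup.closure (gen c '' Set.univ) := by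
  rw [Set.image_univ, closure_gen]
  trivial

theorem nn_self (s : S) (w : RA c) : Nn (gen c s * w) (gen c s) ↔ ¬ Nn w (gen c s) := by
  rw [nn_gen_mul, gen_sq, one_mul]
  tauto

theorem three (T : Set S) (w : RA c) (hw : w ∈ Subgroup.closure (gen c '' T)) (h1 : w ≠ 1) :
    ∃ t ∈ T, Nn w (gen c t) := by
  obtain ⟨l, hl, rfl⟩ := exists_list hw
  clear hw
  induction hn : l.length using Nat.strong_induction_on generalizing l with
  | _ n ih =>
    obtain _ | ⟨t, l⟩ := l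
    · exact (h1 rfl).elim
    rw [List.map_cons, List.prod_cons] at h1 ⊢
    by_cases h : Nn (l.map (gen c)).prod (gen c t)
    · obtain ⟨l', h2, h3, h4⟩ := exch l _ h
      rw [h4] at h1 ⊢
      exact ih _ (hn ▸ h3.trans (Nat.lt_succ_self _)) l'
        (fun a ha => hl a (List.mem_cons_of_mem _ (h2 ha))) h1 rfl
    · exact ⟨t, hl t List.mem_cons_self, (nn_self _ _).2 h⟩

/-- The centraliser of a generator in an infinite dihedral subgroup. -/
theorem cent {s t : S} (hne : s ≠ t) (h : ¬ (c s t ∨ c t s)) {v : RA c}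
    (hv : v ∈ Subgroup.closure (gen c '' {s, t})) (e : gen c s = v * gen c s * v⁻¹) :
    ¬ Nn v (gen c t) := by
  classical
  have key : ∃ n : ℤ, v = (gen c s * gen c t) ^ n ∨ v = (gen c s * gen c t) ^ n * gen c s := by
    refine par_induction (P := fun v => ∃ n : ℤ, v = (gen c s * gen c t) ^ n ∨
      v = (gen c s * gen c t) ^ n * gen c s) ⟨0, Or.inl (zpow_zero _).symm⟩ ?_ hv
    rintro _ - _ (rfl | rfl) ⟨n, rfl | rfl⟩
    · exact ⟨n, Or.inr rfl⟩
    · exact ⟨n, Or.inl (by rw [mul_assoc, gen_sq, mul_one])⟩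
    · exact ⟨n - 1, Or.inr (by
        rw [zpow_sub_one, mul_inv_rev, gen_inv, gen_inv, mul_assoc, mul_assoc, gen_sq, mul_one])⟩
    · exact ⟨n + 1, Or.inl (by rw [zpow_add_one, mul_assoc])⟩
  obtain ⟨n, hn⟩ := key
  have e' : gen c s = (gen c s * gen c t) ^ n * gen c s * ((gen c s * gen c t) ^ n)⁻¹ := by
    rcases hn with rfl | rfl
    · exact e
    · rwa [mul_inv_rev, ← mul_assoc, mul_inv_cancel_right] at e
  let φ : RA c →* DihedralGroup 0 := RA.lift
    (fun a => if a = s then .sr 0 else if a = t then .sr 1 else 1)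
    (fun a => by split_ifs <;> simp)
    (fun a b hab => by
      split_ifs with h1 h2 h3 h4 h5 h6 <;> subst_vars <;>
        first | exact Commute.refl _ | exact Commute.one_right _ | exact Commute.one_left _ | tauto)
  have h1 := congrArg φ e'
  simp [φ, hne.symm] at h1
  obtain rfl : n = 0 := by
    change (0 : ℤ) = -n + -n at h1
    omega
  rw [zpow_zero, one_mul] at hn
  rcases hn with rfl | rfl
  · exact nn_one _
  · rw [nn_gen]
    exact fun h => hne (gen_injective h).symm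

theorem two (w : RA c) (s t : S) (hne : s ≠ t) (hs : Nn w (gen c s)) (ht : Nn w (gen c t)) :
    c s t ∨ c t s := by
  by_contra h
  have dih : ∀ v ∈ Subgroup.closure (gen c '' {s, t}), ¬ (Nn v (gen c s) ∧ Nn v (gen c t)) := by
    intro v hv
    refine par_induction (P := fun v => ¬ (Nn v (gen c s) ∧ Nn v (gen c t)))
      (fun h => nn_one _ h.1) (fun v hv a _ ih => ?_) hv
    have h1 : gen c s = v * gen c a * v⁻¹ → ¬ Nn v (gen c t) ∧ s = a := fun e => by
      obtain rfl : s = a := conj_gen (c := c) (u := 1) (u' := v) (by simpa using e)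
      exact ⟨cent hne h hv e, rfl⟩
    have h2 : gen c t = v * gen c a * v⁻¹ → ¬ Nn v (gen c s) ∧ t = a := fun e => by
      obtain rfl : t = a := conj_gen (c := c) (u := 1) (u' := v) (by simpa using e)
      exact ⟨cent hne.symm (by tauto) (by rwa [Set.pair_comm]) e, rfl⟩
    rw [nn_mul_gen, nn_mul_gen]
    grind
  have key : ∀ (l : List S), ∀ v ∈ Subgroup.closure (gen c '' {s, t}),
      ¬ (Nn (v * (l.map (gen c)).prod) (gen c s) ∧ Nn (v * (l.map (gen c)).prod) (gen c t)) := by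
    intro l
    induction hn : l.length using Nat.strong_induction_on generalizing l with
    | _ n ih =>
      intro v hv
      by_cases h1 : ∃ r ∈ Subgroup.closure (gen c '' {s, t}), Nn (l.map (gen c)).prod r
      · obtain ⟨r, hr, h1⟩ := h1
        obtain ⟨l', -, h3, h4⟩ := exch l r h1
        have h5 := ih _ (hn ▸ h3) l' rfl (v * r⁻¹) (mul_mem hv (inv_mem hr))
        rwa [← h4, mul_assoc, inv_mul_cancel_left] at h5
      · have h2 : ∀ a ∈ ({s, t} : Set S), ¬ Nn (l.map (gen c)).prod (v⁻¹ * gen c a * v) :=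
          fun a ha h2 => h1 ⟨_, mul_mem (mul_mem (inv_mem hv)
            (Subgroup.subset_closure ⟨a, ha, rfl⟩)) hv, h2⟩
        have h3 := h2 s (by simp)
        have h4 := h2 t (by simp)
        have h5 := dih v hv
        rw [nn_mul, nn_mul]
        tauto
  obtain ⟨l, -, rfl⟩ := exists_list (mem_top w)
  exact key l 1 (one_mem _) (by rw [one_mul]; exact ⟨hs, ht⟩)

theorem one {J : Set S} (hJ : ∀ s ∈ J, ∀ t ∈ J, c s t → s = t) {s : S} (hs : s ∈ J) (w : RA c)
    (hw : Commute w (gen c s)) (u : RA c) {t : S} (ht : t ∈ J) (h : Nn w (u * gen c t * u⁻¹)) :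
    u * gen c t * u⁻¹ = gen c s := by
  obtain ⟨l, -, rfl⟩ := exists_list (mem_top w)
  induction hn : l.length using Nat.strong_induction_on generalizing l u with
  | _ n ih =>
    by_contra hr
    obtain ⟨a, h1, h2, h3⟩ : ∃ a, Nn (l.map (gen c)).prod (gen c a) ∧
        Commute (gen c a) (gen c s) ∧ u * gen c t * u⁻¹ ≠ gen c a := by
      by_cases h1 : Nn (l.map (gen c)).prod (gen c s)
      · exact ⟨s, h1, Commute.refl _, hr⟩
      obtain ⟨a, -, h2⟩ := three _ _ (mem_top (l.map (gen c)).prod) fun e => nn_one _ (e ▸ h)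
      have h3 : s ≠ a := fun e => h1 (e ▸ h2)
      have h4 := two (gen c s * (l.map (gen c)).prod) s a h3 ((nn_self _ _).2 h1) (by
        rw [← hw.eq, nn_mul_gen, hw.eq, mul_inv_cancel_right]
        exact fun h5 => h3 (gen_injective (h5.1 h2)).symm)
      refine ⟨a, h2, h4.elim (fun h5 => (gen_comm h5).symm) gen_comm, fun e => h3 ?_⟩
      obtain rfl : t = a := conj_gen (c := c) (u := u) (u' := 1) (by simpa using e)
      exact h4.elim (hJ s hs t ht) fun h5 => (hJ t ht s hs h5).symm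
    obtain ⟨l', -, h4, h5⟩ := exch l _ h1
    rw [← cancel a (l.map (gen c)).prod, nn_gen_mul, h5] at h
    have e : gen c a * u * gen c t * (gen c a * u)⁻¹ = gen c a * (u * gen c t * u⁻¹) * gen c a := by
      simp only [mul_inv_rev, gen_inv, mul_assoc]
    have h6 := ih _ (hn ▸ h4) (gen c a * u) l' (h5 ▸ h2.mul_left hw) (by rw [e]; tauto) rfl
    rw [e, ← cancel a (gen c s), h2.eq, mul_assoc, mul_right_inj, mul_left_inj] at h6
    exact hr h6

end RaT

theorem ra_stmt : RaStmt := by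
  refine fun S c => ⟨fun J hJ s hs s' _ w hw u t ht h => ?_, RaT.two, RaT.three⟩
  obtain rfl : s = s' := conj_gen (c := c) (u := w) (u' := 1) (by simpa using hw)
  exact RaT.one hJ hs w (mul_inv_eq_iff_eq_mul.1 hw) u ht h

end Pool.Agent.MP_4f4d9f_gt.Cb

end

section

open scoped Matrix Pointwise

namespace Pool.Agent.MP_4f4d9f_gt.Cb

open Finsupp Db

namespace AlHt

variable {S : Type} {c : S → S → Prop} {T : Set S}

theorem exists_min (y : RA c) : ∃ u ∈ Subgroup.closure (gen c '' T),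
    ∀ r ∈ Subgroup.closure (gen c '' T), ¬ Nn (u * y) r := by
  obtain ⟨l, -, rfl⟩ := RaT.exists_list (RaT.mem_top y)
  induction hn : l.length using Nat.strong_induction_on generalizing l with
  | _ n ih =>
    by_cases h : ∃ r ∈ Subgroup.closure (gen c '' T), Nn (l.map (gen c)).prod r
    · obtain ⟨r, hr, h⟩ := h
      obtain ⟨l', -, h1, h2⟩ := RaT.exch l r h
      obtain ⟨u, hu, h3⟩ := ih _ (hn ▸ h1) l' rfl
      exact ⟨u * r, mul_mem hu hr, by rwa [mul_assoc, h2]⟩
    · exact ⟨1, one_mem _, fun r hr h1 => h ⟨r, hr, by rwa [one_mul] at h1⟩⟩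

theorem eq_one {m u : RA c} (hm : ∀ r ∈ Subgroup.closure (gen c '' T), ¬ Nn m r)
    (hu : u ∈ Subgroup.closure (gen c '' T)) (h : ∀ t ∈ T, ¬ Nn (u * m) (gen c t)) : u = 1 := by
  by_contra h1
  obtain ⟨t, ht, h2⟩ := RaT.three T u hu h1
  exact h t ht ((nn_mul _ _ _).2 fun h3 => hm _ (mul_mem (mul_mem (inv_mem hu)
    (Subgroup.subset_closure ⟨t, ht, rfl⟩)) hu) (h3.1 h2))

theorem uniq {w w' : RA c} (h : w⁻¹ * w' ∈ Subgroup.closure (gen c '' T))
    (h1 : ∀ t ∈ T, ¬ Nn w⁻¹ (gen c t)) (h2 : ∀ t ∈ T, ¬ Nn w'⁻¹ (gen c t)) : w = w' := by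
  obtain ⟨u, hu, hm⟩ := exists_min (T := T) w'⁻¹
  obtain rfl : u = 1 := inv_eq_one.1 (eq_one hm (inv_mem hu) (by rwa [inv_mul_cancel_left]))
  exact inv_mul_eq_one.1 (eq_one hm h (by rwa [one_mul, mul_inv_cancel_right]))

end AlHt

theorem htO_stmt : HtOStmt := by
  classical
  intro G V Hy _ _ _ hV sep W R _ o σ F D C
  obtain ⟨v₀⟩ := hV
  have a1 : ∀ j β, ∀ h ∈ σ j β, Adj sep (o j β) h := fun j β h hh => ⟨_, (C j).geo β h hh⟩
  have a2 : ∀ j β h, ∀ h' ∈ σ j β, Adj sep (o j (F j h β)) h' := fun j β h h' hh =>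
    a1 j _ h' (by rwa [(C j).flip.sig])
  have key : ∀ j β, ∀ h ∈ σ j β, ∀ k,
      k ∈ sep v₀ (o j (F j h β)) ↔ ¬ (k ∈ sep v₀ (o j β) ↔ k = h) := fun j β h hh k => by
    rw [W.tri v₀ (o j β), (C j).geo β h hh, Finset.mem_singleton]
  have a3 : ∀ v, (sep v₀ v).filter (Adj sep v) = ∅ → v = v₀ := fun v hv => by_contra fun e => by
    obtain ⟨a, h, h1, h2⟩ := W.step v v₀ e
    exact Finset.filter_eq_empty_iff.1 hv (W.symm v v₀ ▸ h1) ⟨a, h2⟩
  refine ⟨fun v => (sep v₀ v).card, fun v => (sep v₀ v).filter (Adj sep v),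
    ⟨fun j β h hh h1 => Finset.card_lt_card ⟨fun k hk => ?_, fun h2 => ?_⟩, fun j β h hh => ?_,
      fun j β h hh h' hh' e => ?_, fun _ _ _ => rfl, fun v v' h h' _ => (a3 v h).trans (a3 v' h').symm,
      fun _ => ⟨v₀, rfl⟩⟩, fun v => ⟨fun h hh => (Finset.mem_filter.1 hh).2, fun h hh h' hh' e => ?_⟩⟩
  · have h3 := (Finset.mem_filter.1 h1).1
    have h4 := (key j β h hh k).1 hk
    by_contra h5
    exact h5 ((by tauto : k = h) ▸ h3)
  · have h3 := (Finset.mem_filter.1 h1).1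
    exact (key j β h hh h).1 (h2 h3) (iff_of_true h3 rfl)
  · simp only [Finset.mem_filter, key j β h hh, a1 j β h hh, a2 j β h h hh, and_true, iff_true]
  · simp only [Finset.mem_filter, key j β h hh, a1 j β h' hh', a2 j β h h' hh', and_true, e,
      iff_false, not_not]
  · obtain ⟨h1, a, ha⟩ := Finset.mem_filter.1 hh
    obtain ⟨h2, b, hb⟩ := Finset.mem_filter.1 hh'
    obtain ⟨x, h3, h4⟩ := W.quad e ha hb (W.symm v₀ v ▸ h1) (W.symm v₀ v ▸ h2)
    exact ⟨e, v, a, b, x, ha, hb, h3, h4⟩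

theorem htM_stmt : HtMStmt := by
  intro G V Hy _ _ _ sep W R _ o σ F D C Y cp hs hcp
  have a1 : ∀ j β, ∀ h ∈ σ j β, Adj sep (o j β) h := fun j β h hh => ⟨_, (C j).geo β h hh⟩
  obtain ⟨Dn, hD⟩ : ∃ Dn : RA (Cross sep) × V → Finset Hy, ∀ x h, h ∈ Dn x ↔
      Adj sep x.2 h ∧ Nn x.1 (x.1 * gen (Cross sep) h * x.1⁻¹) :=
    ⟨fun x => (((nn_finite x.1).preimage (f := fun h => x.1 * gen (Cross sep) h * x.1⁻¹)
      fun _ _ _ _ => conj_gen).subset (t := {h | Adj sep x.2 h ∧ Nn x.1 (x.1 * gen _ h * x.1⁻¹)})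
        fun _ h => h.2).toFinset, fun x h => Set.Finite.mem_toFinset _⟩
  refine ⟨fun x => {r | Nn x.1 r}.ncard, Dn, ⟨fun j β h hh h1 => ?_, fun j β h hh => ?_,
    fun j β h hh h' hh' e => ?_, fun j h β => ?_, fun x x' h h' e => ?_, hs⟩,
    fun x => ⟨fun h hh => ((hD x h).1 hh).1, fun h hh h' hh' e => ?_⟩⟩
  · have h3 : Nn β.1 (β.1 * gen _ h * β.1⁻¹) := ((hD _ h).1 h1).2
    rw [Fw_pos hh]
    refine Set.ncard_lt_ncard ⟨fun r hr => ?_, fun h2 => ?_⟩ (nn_finite _)
    · have h4 := (nn_mul_gen _ _ _).1 hr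
      by_contra h5
      exact h4 (iff_of_false h5 fun e => h5 (e ▸ h3))
    · exact (nn_mul_gen _ _ _).1 (h2 h3) (iff_of_true h3 rfl)
  · rw [Fw_pos hh, hD, hD]
    have e : β.1 * gen _ h * gen _ h * (β.1 * gen _ h)⁻¹ = β.1 * gen _ h * β.1⁻¹ := by group
    simp only [if_true, a1 j β.2 h hh, true_and, e, nn_mul_gen, iff_true]
  · rw [Fw_pos hh, hD, hD]
    have e1 : β.1 * gen _ h * gen _ h' * (β.1 * gen _ h)⁻¹ = β.1 * gen _ h' * β.1⁻¹ := by
      rw [mul_assoc β.1, ← (gen_comm ((C j).cross β.2 h' hh' h hh e)).eq]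
      group
    have e2 : ¬ β.1 * gen _ h' * β.1⁻¹ = β.1 * gen _ h * β.1⁻¹ := fun e2 => e (conj_gen e2)
    simp only [if_true, e1, nn_mul_gen, e2, iff_false, not_not]
  · by_cases hh : h ∈ σ j β.2
    · rw [Fw_pos hh]
      refine (hcp _ _).2 ⟨rfl, ?_⟩
      rw [mul_inv_rev, inv_mul_cancel_right]
      exact inv_mem (Subgroup.subset_closure ⟨h, a1 j β.2 h hh, rfl⟩)
    · rw [Fw_neg hh]
  · obtain ⟨e1, e2⟩ := (hcp x x').1 e
    refine Prod.ext (AlHt.uniq e2 (fun t ht h1 => ?_) fun t ht h1 => ?_) e1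
    · exact Finset.notMem_empty t (h ▸ (hD x t).2 ⟨ht, (nn_inv _ _).1 h1⟩)
    · exact Finset.notMem_empty t (h' ▸ (hD x' t).2 ⟨e1 ▸ ht, (nn_inv _ _).1 h1⟩)
  · exact (RaT.two x.1⁻¹ h h' e ((nn_inv _ _).2 ((hD x h).1 hh).2)
      ((nn_inv _ _).2 ((hD x h').1 hh').2)).elim id Cross.symm

end Pool.Agent.MP_4f4d9f_gt.Cb

end

section

/-! Nested walls in right-angled Coxeter groups. -/

namespace Pool.Agent.MP_4f4d9f_gt.Cb

open RaT

variable {S : Type} {c : S → S → Prop}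

theorem word_induction {P : RA c → Prop}
    (h : ∀ l : List S, (∀ l' : List S, l'.length < l.length → P (l'.map (gen c)).prod) →
      P (l.map (gen c)).prod) (w : RA c) : P w := by
  obtain ⟨l, -, rfl⟩ := exists_list (mem_top w)
  induction hn : l.length using Nat.strong_induction_on generalizing l with
  | _ n ih => exact h l fun l' hl => ih _ (hn ▸ hl) l' rfl

theorem eq_one_of_nn {w : RA c} (h : ∀ s, ¬ Nn w (gen c s)) : w = 1 := by
  by_contra h1
  obtain ⟨s, -, hs⟩ := three _ w (mem_top w) h1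
  exact h s hs

theorem nn_inj {w w' : RA c} (h : ∀ r, Nn w r ↔ Nn w' r) : w = w' := by
  rw [← inv_mul_eq_one]
  refine eq_one_of_nn fun s hs => ?_
  have := nn_mul w (w⁻¹ * w') (w * gen c s * w⁻¹)
  rw [mul_inv_cancel_left, ← h, show w⁻¹ * (w * gen c s * w⁻¹) * w = gen c s by group] at this
  tauto

/-- The walls that separate `1` from an element of the centraliser of `s` commute with `s`. -/
theorem comm_of_nn (s : S) (w : RA c) :
    Commute w (gen c s) → ∀ r, Nn w r → Commute r (gen c s) := by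
  refine word_induction (P := fun w => Commute w (gen c s) → ∀ r, Nn w r → Commute r (gen c s))
    (fun l ih hw r h => ?_) w
  obtain ⟨a, h1, h2⟩ : ∃ a, Nn (l.map (gen c)).prod (gen c a) ∧ Commute (gen c a) (gen c s) := by
    obtain ⟨a, -, h2⟩ := three _ _ (mem_top (l.map (gen c)).prod) fun e => nn_one _ (e ▸ h)
    by_cases h1 : Nn (l.map (gen c)).prod (gen c s)
    · exact ⟨s, h1, Commute.refl _⟩
    have h3 : s ≠ a := fun e => h1 (e ▸ h2)
    have h4 := two (gen c s * (l.map (gen c)).prod) s a h3 ((nn_self _ _).2 h1) (by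
      rw [← hw.eq, nn_mul_gen, hw.eq, mul_inv_cancel_right]
      exact fun h5 => h3 (gen_injective (h5.1 h2)).symm)
    exact ⟨a, h2, h4.elim (fun h5 => (gen_comm h5).symm) gen_comm⟩
  by_cases h3 : r = gen c a
  · rwa [h3]
  obtain ⟨l', -, h4, h5⟩ := exch l _ h1
  rw [← cancel a (l.map (gen c)).prod, nn_gen_mul, h5] at h
  have h6 := (h2.mul_left (ih l' h4 (h5 ▸ h2.mul_left hw) (gen c a * r * gen c a)
    (by tauto))).mul_left h2
  rwa [mul_assoc (gen c a) r, cancel, mul_assoc, gen_sq, mul_one] at h6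

/-- A wall that separates `1` from `g` is crossed by a geodesic. -/
theorem exists_edge (g : RA c) : ∀ ρ ρ', Nn g ρ → ¬ Nn g ρ' →
    ∃ b t, b * gen c t * b⁻¹ = ρ ∧ ¬ Nn b ρ' := by
  refine word_induction (P := fun g => ∀ ρ ρ', Nn g ρ → ¬ Nn g ρ' →
    ∃ b t, b * gen c t * b⁻¹ = ρ ∧ ¬ Nn b ρ') (fun l ih ρ ρ' h h' => ?_) g
  obtain _ | ⟨a, l⟩ := l
  · exact (nn_one _ h).elim
  rw [List.map_cons, List.prod_cons] at h h'
  by_cases h1 : Nn (l.map (gen c)).prod (gen c a)
  · obtain ⟨l', -, h2, h3⟩ := exch l _ h1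
    rw [h3] at h h'
    exact ih l' (h2.trans (Nat.lt_succ_self _)) ρ ρ' h h'
  by_cases h2 : ρ = gen c a
  · exact ⟨1, a, by rw [h2, one_mul, inv_one, mul_one], nn_one _⟩
  have h3 : ρ' ≠ gen c a := fun e => h' (e ▸ (nn_self _ _).2 h1)
  rw [nn_gen_mul] at h h'
  obtain ⟨b, t, h4, h5⟩ := ih l (Nat.lt_succ_self _) (gen c a * ρ * gen c a)
    (gen c a * ρ' * gen c a) (by tauto) (by tauto)
  refine ⟨gen c a * b, t, ?_, by rw [nn_gen_mul]; tauto⟩
  calc _ = gen c a * (b * gen c t * b⁻¹) * gen c a := by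
        simp only [mul_inv_rev, gen_inv, mul_assoc]
    _ = ρ := by rw [h4, mul_assoc (gen c a) ρ, cancel, mul_assoc, gen_sq, mul_one]

/-- A wall that is not adjacent to `1` is separated from `1` by an adjacent wall. -/
theorem exists_below (t : S) (u : RA c) : ∀ r, r = u * gen c t * u⁻¹ → r ∉ Set.range (gen c) →
    ∃ s, ∀ w, Nn w r → Nn w (gen c s) := by
  refine word_induction (P := fun u => ∀ r, r = u * gen c t * u⁻¹ → r ∉ Set.range (gen c) →
    ∃ s, ∀ w, Nn w r → Nn w (gen c s)) (fun l ih r hr h0 => ?_) u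
  by_cases h1 : Nn (l.map (gen c)).prod r
  · obtain ⟨l', -, h2, h3⟩ := exch l _ h1
    refine ih l' h2 r ?_ h0
    rw [← h3, hr]
    group
  obtain ⟨s, -, hs⟩ := three _ _ (mem_top (l.map (gen c)).prod) fun e =>
    h0 ⟨t, by rw [hr, e, one_mul, inv_one, mul_one]⟩
  by_cases h2 : Commute r (gen c s)
  · obtain ⟨l', -, h3, h4⟩ := exch l _ hs
    refine ih l' h3 r ?_ h0
    rw [← h4, mul_inv_rev, gen_inv, ← cancel s r, ← h2.eq, hr]
    simp only [mul_assoc]
  refine ⟨s, fun w hw => by_contra fun h3 => h2 ?_⟩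
  generalize (l.map (gen c)).prod = u at hr h1 hs
  have h4 : Nn (u * gen c t) r := by rw [nn_mul_gen]; tauto
  have h5 : Nn (u * gen c t) (gen c s) := by
    rw [nn_mul_gen, ← hr]
    exact fun e => h0 ⟨s, e.1 hs⟩
  generalize u * gen c t = v at h4 h5
  have h6 := nn_mul v (v⁻¹ * w)
  rw [mul_inv_cancel_left] at h6
  obtain ⟨b, t', h7, h8⟩ := exists_edge (v⁻¹ * w) (v⁻¹ * gen c s * v) (v⁻¹ * r * v)
    (by have := h6 (gen c s); tauto) (by have := h6 r; tauto)
  have h9 : v * b * gen c t' * (v * b)⁻¹ = 1 * gen c s * 1⁻¹ := by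
    rw [mul_inv_rev, mul_assoc v, mul_assoc v, ← mul_assoc _ b⁻¹, h7]
    group
  obtain rfl := conj_gen h9
  refine comm_of_nn t' (v * b) ?_ r (by rw [nn_mul]; tauto)
  rwa [one_mul, inv_one, mul_one, mul_inv_eq_iff_eq_mul] at h9

/-- Different walls have different sides. -/
theorem side_ne {w r r' : RA c} (hw : Nn w r) (h : ∀ w, Nn w r ↔ Nn w r') : r = r' := by
  obtain ⟨u, s, e⟩ := nn_refl hw
  have h1 := h (u * gen c s)
  rw [nn_mul_gen, nn_mul_gen, h u, ← e] at h1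
  tauto

end Pool.Agent.MP_4f4d9f_gt.Cb

end
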