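import Pool.Agent.Mg.F4f4d9fr.G787eb1
import Pool.Agent.Mg.F4f4d9fr.G241bda
import Pool.Agent.Mg.F4f4d9fr.G90369d
import Pool.Agent.Mg.F4f4d9fr.G12c76b
import Pool.Agent.Mg.F4f4d9fr.G07468e
import Pool.Agent.Mg.F4f4d9fr.Gb7942f
import Pool.Agent.Mg.F4f4d9fr.Gf095e3
import Pool.Agent.Mg.F4f4d9fr.G723d39
import Pool.Agent.Mg.F4f4d9fr.G715938
import Pool.Agent.Mg.F4f4d9fr.Gf3fae5
import Pool.Agent.Mg.F4f4d9fr.Gf4fb5f
import Pool.Agent.MP_4f4d9f_gt.SubdivGen
import Pool.Agent.Mg.F4f4d9fr.G4ef018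
import Pool.Agent.Mg.F4f4d9fr.G72a641
import Pool.Agent.Mg.F4f4d9fr.G3ab6fa
import Pool.Agent.Mg.F4f4d9fr.G72baaf
import Pool.Agent.Mg.F4f4d9fr.Gef0f74
import Pool.Agent.Mg.F4f4d9fr.Gdd7675

set_option linter.all false

section

open scoped Matrix Pointwise

namespace Pool.Agent.MP_4f4d9f_gt.Cb

open Finsupp Db

namespace AlRoot

theorem on_ext {B M : Type} [AddCommGroup M] {p : B → Prop} {c : B →₀ ℤ} (hc : On p c)
    {f f' : (B →₀ ℤ) →ₗ[ℤ] M} (h : ∀ β, p β → f (single β 1) = f' (single β 1)) : f c = f' c := by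
  rw [← sum_single c, Finsupp.sum, map_sum, map_sum]
  refine Finset.sum_congr rfl fun β hβ => ?_
  rw [← smul_single_one, map_zsmul, map_zsmul, h β (hc β hβ)]

/-- Cells with a root in their label. -/
@[ext] structure Rc {B V : Type} (L : B → Set V) : Type where
  /-- the cell -/
  b : B
  /-- the root -/
  v : V
  mem : v ∈ L b

section Lift

variable {B B' V : Type} {L : B → Set V} {L' : B' → Set V} {v : V}

open Classical in
/-- Put the root `v` on the cells whose label contains it. -/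
noncomputable def lft (L : B → Set V) (v : V) : (B →₀ ℤ) →ₗ[ℤ] (Rc L →₀ ℤ) :=
  linearCombination ℤ fun β => if h : v ∈ L β then single ⟨β, v, h⟩ 1 else 0

theorem lft_pos {β : B} (h : v ∈ L β) : lft L v (single β 1) = single ⟨β, v, h⟩ 1 := by
  rw [lft, linearCombination_single, one_smul, dif_pos h]

theorem lft_neg {β : B} (h : v ∉ L β) : lft L v (single β 1) = 0 := by
  rw [lft, linearCombination_single, one_smul, dif_neg h]

theorem on_lft {p : B → Prop} {c : B →₀ ℤ} (hc : On p c) :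
    On (fun x : Rc L => x.v = v ∧ p x.b) (lft L v c) :=
  hc.map fun β hβ => by
    by_cases h : v ∈ L β
    · rw [lft_pos h]
      exact On.single ⟨rfl, hβ⟩ 1
    · rw [lft_neg h]
      exact On.zero _

theorem pr_lft {c : B →₀ ℤ} (hc : On (fun β => v ∈ L β) c) : mapDomain Rc.b (lft L v c) = c :=
  on_ext hc (f := lmapDomain ℤ ℤ Rc.b ∘ₗ lft L v) (f' := LinearMap.id) fun β h => by
    rw [LinearMap.comp_apply, lft_pos h, lmapDomain_apply, mapDomain_single, LinearMap.id_apply]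

theorem lft_pr {z : Rc L →₀ ℤ} (hz : On (fun x => x.v = v) z) :
    lft L v (mapDomain Rc.b z) = z :=
  on_ext hz (f := lft L v ∘ₗ lmapDomain ℤ ℤ Rc.b) (f' := LinearMap.id) fun x h => by
    subst h
    rw [LinearMap.comp_apply, lmapDomain_apply, mapDomain_single, lft_pos x.mem,
      LinearMap.id_apply]

/-- The boundary of rooted cells. -/
noncomputable def dR (L' : B' → Set V) (L : B → Set V) (d : (B' →₀ ℤ) →ₗ[ℤ] (B →₀ ℤ)) :
    (Rc L' →₀ ℤ) →ₗ[ℤ] (Rc L →₀ ℤ) :=
  linearCombination ℤ fun x => lft L x.v (d (single x.b 1))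

variable {d : (B' →₀ ℤ) →ₗ[ℤ] (B →₀ ℤ)}

theorem dR_single (x : Rc L') : dR L' L d (single x 1) = lft L x.v (d (single x.b 1)) := by
  rw [dR, linearCombination_single, one_smul]

theorem dR_lft {c : B' →₀ ℤ} (hc : On (fun β => v ∈ L' β) c) :
    dR L' L d (lft L' v c) = lft L v (d c) :=
  on_ext hc (f := dR L' L d ∘ₗ lft L' v) (f' := lft L v ∘ₗ d) fun β h => by
    rw [LinearMap.comp_apply, lft_pos h, dR_single, LinearMap.comp_apply]

end Lift

theorem acy {V : Type} {B : ℕ → Type} {L : ∀ j, B j → Set V}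
    {d : ∀ j, (B (j + 1) →₀ ℤ) →ₗ[ℤ] (B j →₀ ℤ)}
    (hd : ∀ j β, On (fun γ => L (j + 1) β ⊆ L j γ) (d j (single β 1))) {v : V}
    {p q : ∀ j, B j → Prop} (hp : ∀ j β, p j β ↔ v ∈ L j β ∧ q j β) (h : Acy d p) :
    Acy (B := fun j => Rc (L j)) (fun j => dR (L (j + 1)) (L j) (d j))
      fun j x => x.v = v ∧ q j x.b := by
  have h1 : ∀ j (z : Rc (L j) →₀ ℤ), On (fun x => x.v = v ∧ q j x.b) z →
      On (p j) (mapDomain Rc.b z) := fun j z hz =>
    hz.mapDomain fun x hx => (hp j _).2 ⟨hx.1 ▸ x.mem, hx.2⟩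
  have h2 : ∀ j (z : Rc (L j) →₀ ℤ), On (fun x => x.v = v ∧ q j x.b) z →
      (∃ w, On (p (j + 1)) w ∧ d j w = mapDomain Rc.b z) →
      ∃ w, On (fun x => x.v = v ∧ q (j + 1) x.b) w ∧ dR (L (j + 1)) (L j) (d j) w = z := by
    rintro j z hz ⟨w, a, b⟩
    exact ⟨_, on_lft (a.mono fun β hβ => ((hp _ β).1 hβ).2), by
      rw [dR_lft (a.mono fun β hβ => ((hp _ β).1 hβ).1), b, lft_pr (hz.mono fun _ hx => hx.1)]⟩
  refine ⟨?_, fun z hz e => h2 0 z hz (h.zero _ (h1 0 z hz) (by rwa [sm_mapDomain])),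
    fun j z hz e => h2 _ z hz (h.succ j _ (h1 _ z hz) ?_)⟩
  · obtain ⟨β, hβ⟩ := h.ne
    exact ⟨⟨β, v, ((hp 0 β).1 hβ).1⟩, rfl, ((hp 0 β).1 hβ).2⟩
  · have h3 := (h1 _ z hz).mono fun β hβ => ((hp _ β).1 hβ).1
    rw [← lft_pr (hz.mono fun _ hx => hx.1), dR_lft h3] at e
    rw [← pr_lft (h3.map (p' := fun γ => v ∈ L j γ) fun β hβ => (hd j β).mono fun γ hγ => hγ hβ),
      e, mapDomain_zero]

section Act

variable {G B B' V Hy : Type} [Group G] [MulAction G B] [MulAction G B'] [MulAction G V]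
  [MulAction G Hy] {L : B → Set V} {L' : B' → Set V}

variable (G) in
/-- The labels are equivariant. -/
def Inv (L : B → Set V) : Prop := ∀ (g : G) β, L (g • β) = g • L β

instance [h : Fact (Inv G L)] : MulAction G (Rc L) where
  smul g x := ⟨g • x.b, g • x.v, by rw [h.out]; exact Set.smul_mem_smul_set x.mem⟩
  one_smul x := Rc.ext (one_smul G x.b) (one_smul G x.v)
  mul_smul g g' x := Rc.ext (mul_smul g g' x.b) (mul_smul g g' x.v)

variable [hL : Fact (Inv G L)] [hL' : Fact (Inv G L')]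

theorem lft_smul (g : G) (v : V) (c : B →₀ ℤ) :
    lft L (g • v) (permRep G B g c) = permRep G (Rc L) g (lft L v c) :=
  LinearMap.congr_fun (f := lft L (g • v) ∘ₗ permRep G B g) (g := permRep G (Rc L) g ∘ₗ lft L v)
    (ch_ext fun β => by
      rw [LinearMap.comp_apply, LinearMap.comp_apply, permRep_single]
      by_cases h : v ∈ L β
      · rw [lft_pos h, permRep_single]
        exact lft_pos _
      · rw [lft_neg h, map_zero, lft_neg (by rwa [hL.out, Set.smul_mem_smul_set_iff])]) c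

theorem dR_eqv {d : (B' →₀ ℤ) →ₗ[ℤ] (B →₀ ℤ)} (hd : Eqv (permRep G B') (permRep G B) d) :
    Eqv (permRep G (Rc L')) (permRep G (Rc L)) (dR L' L d) :=
  eqv_of_single fun g x => by
    rw [dR_single, dR_single, ← lft_smul, ← hd, permRep_single]
    rfl

theorem cofin (hf : ∀ β, (L β).Finite) (h : Cofin G B) : Cofin G (Rc L) := by
  obtain ⟨S, hS⟩ := h
  have h1 : (⋃ β ∈ (S : Set B), {x : Rc L | x.b = β}).Finite :=
    S.finite_toSet.biUnion fun β _ => Set.Finite.of_injOn (f := Rc.v) (t := L β)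
      (fun x hx => hx ▸ x.mem) (fun x hx y hy e => Rc.ext (hx.trans hy.symm) e) (hf β)
  refine ⟨h1.toFinset, fun x => ?_⟩
  obtain ⟨g, hg⟩ := hS x.b
  exact ⟨g, h1.mem_toFinset.2 (Set.mem_biUnion hg rfl)⟩

end Act

section Flip

variable {G B V Hy : Type} [Group G] [MulAction G V] [MulAction G Hy] {L : B → Set V}
  {sep : V → V → Finset Hy} {s : B → Finset Hy}

/-- The labels are closed under moves in the directions `s`. -/
def Mv (sep : V → V → Finset Hy) (L : B → Set V) (s : B → Finset Hy) : Prop :=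
  ∀ β, ∀ v ∈ L β, ∀ h ∈ s β, ∃ v' ∈ L β, sep v v' = {h}

open Classical in
/-- The flip of the root. -/
noncomputable def fl (hM : Mv sep L s) (h : Hy) (x : Rc L) : Rc L :=
  if e : h ∈ s x.b then ⟨x.b, _, (hM x.b x.v x.mem h e).choose_spec.1⟩ else x

variable (hM : Mv sep L s) {h : Hy} {x : Rc L}

theorem fl_neg (e : h ∉ s x.b) : fl hM h x = x := dif_neg e

theorem fl_b (h : Hy) (x : Rc L) : (fl hM h x).b = x.b := by
  unfold fl
  split_ifs <;> rfl

theorem fl_geo (e : h ∈ s x.b) : sep x.v (fl hM h x).v = {h} := by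
  rw [fl, dif_pos e]
  exact (hM x.b x.v x.mem h e).choose_spec.2

theorem flipSys (W : Wl G sep) : FlipSys (fun x : Rc L => s x.b) (fl hM) := by
  refine ⟨fun h x => ?_, fun h h' x => ?_, fun h x => by rw [fl_b], fun h x e => fl_neg hM e⟩
  · by_cases e : h ∈ s x.b
    · refine Rc.ext (by rw [fl_b, fl_b]) (W.ext (v := (fl hM h x).v) ?_)
      rw [fl_geo hM (by rwa [fl_b]), W.symm, fl_geo hM e]
    · rw [fl_neg hM e, fl_neg hM e]
  · by_cases e : h ∈ s x.b <;> by_cases e' : h' ∈ s x.b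
    · refine Rc.ext (by rw [fl_b, fl_b, fl_b, fl_b]) (W.ext (v := x.v) (Finset.ext fun k => ?_))
      rw [W.tri _ (fl hM h' x).v, W.tri x.v (fl hM h x).v (fl hM h' (fl hM h x)).v, fl_geo hM e,
        fl_geo hM e', fl_geo hM (by rwa [fl_b]), fl_geo hM (by rwa [fl_b]),
        iff_comm (a := k ∈ ({h} : Finset Hy))]
    · rw [fl_neg hM e', fl_neg hM (h := h') (by rwa [fl_b])]
    · rw [fl_neg hM e, fl_neg hM (h := h) (by rwa [fl_b])]
    · rw [fl_neg hM e', fl_neg hM e, fl_neg hM e']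

theorem cells [MulAction G B] [Fact (Inv G L)] (W : Wl G sep)
    (hs : ∀ (g : G) h β, g • h ∈ s (g • β) ↔ h ∈ s β) {D : ℕ} (hD : ∀ β, (s β).card ≤ D) :
    Cells G sep Rc.v (fun x : Rc L => s x.b) (fl hM) D := by
  refine ⟨flipSys hM W, fun _ _ => rfl, fun g h x => hs g h x.b, fun g h x => ?_,
    fun x h e => fl_geo hM e, fun x => hD x.b⟩
  by_cases e : h ∈ s x.b
  · refine Rc.ext ((fl_b hM _ _).trans (congrArg (g • ·) (fl_b hM h x).symm))
      (W.ext (v := (g • x).v) ?_)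
    rw [fl_geo hM ((hs g h x.b).2 e)]
    exact (W.single_smul g (fl_geo hM e)).symm
  · rw [fl_neg hM e, fl_neg hM fun e' => e ((hs g h x.b).1 e')]

theorem fl_lft (W : Wl G sep) {v v' : V} (e : sep v v' = {h}) {c : B →₀ ℤ}
    (hc : On (fun γ => v ∈ L γ ∧ v' ∈ L γ ∧ h ∈ s γ) c) :
    lft L v' c = mapDomain (fl hM h) (lft L v c) :=
  on_ext hc (f := lft L v') (f' := lmapDomain ℤ ℤ (fl hM h) ∘ₗ lft L v) fun γ hγ => by
    rw [LinearMap.comp_apply, lft_pos hγ.1, lft_pos hγ.2.1, lmapDomain_apply, mapDomain_single]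
    exact congrArg (single · 1) (Rc.ext (fl_b hM h ⟨γ, v, hγ.1⟩).symm
      (W.ext (e.trans (fl_geo hM (x := ⟨γ, v, hγ.1⟩) hγ.2.2).symm)))

end Flip

end AlRoot

open AlRoot

theorem root_stmt (hP : PosStmt) (hC : CubeStmt) : RootStmt := by
  classical
  intro G V Hy _ _ _ T sep W hT SS hSS m hm
  obtain ⟨dir, h1, h2⟩ := hC G V Hy T sep W hT
  let _ : MulAction G {S // IsCube T S} :=
    { smul := fun g S => ⟨g • S.1, (h1 S.1 S.2).2.2.2.2 g⟩
      one_smul := fun S => Subtype.ext (one_smul G S.1)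
      mul_smul := fun g g' S => Subtype.ext (mul_smul g g' S.1) }
  have hD : ∀ S : {S // IsCube T S}, S.1.ncard ≤ SS.sup Set.ncard := fun S => by
    obtain ⟨g, hg⟩ := hSS S.1 S.2
    rw [← Set.ncard_smul_set g]
    exact Finset.le_sup hg
  obtain ⟨B, _, lab, d, c1, c2, c3, c4, c5⟩ := hP G {S // IsCube T S} (fun S => S.1.ncard)
    (SS.sup Set.ncard) m (fun g c c' h => Set.smul_set_mono h)
    (fun g c => Set.ncard_smul_set g c.1) (fun c c' h => Set.ncard_lt_ncard h (h1 _ c'.2).1) hD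
    (fun c => (h1 _ c.2).1.finite_subsets.preimage Subtype.val_injective.injOn)
    ⟨SS.subtype _, fun c => (hSS c.1 c.2).imp fun g hg => Finset.mem_subtype.2 hg⟩ fun c => by
      rw [show MulAction.stabilizer G c = MulAction.stabilizer G c.1 from
        Subgroup.ext fun g => Subtype.ext_iff]
      exact hm c.1 c.2
  have hI : ∀ j, Fact (Inv G fun β => (lab j β).1) := fun j =>
    ⟨fun g β => congrArg Subtype.val (c3 j g β)⟩
  have hM : ∀ j, Mv sep (fun β => (lab j β).1) fun β => dir (lab j β).1 := fun j β =>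
    (h1 _ (lab j β).2).2.2.2.1
  have hdir : ∀ S S' : {S // IsCube T S}, S ≤ S' → dir S.1 ⊆ dir S'.1 := fun S S' h k hk => by
    obtain ⟨a, ha, b, hb, e⟩ := ((h1 _ S.2).2.2.1 k).1 hk
    exact ((h1 _ S'.2).2.2.1 k).2 ⟨a, h ha, b, h hb, e⟩
  have hdd : ∀ j c, dR (fun β => (lab (j + 1) β).1) (fun β => (lab j β).1) (d j)
      (dR (fun β => (lab (j + 2) β).1) (fun β => (lab (j + 1) β).1) (d (j + 1)) c) = 0 :=
    fun j c => LinearMap.congr_fun (f := dR _ _ (d j) ∘ₗ dR _ _ (d (j + 1))) (g := 0)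
      (ch_ext fun x => by
        rw [LinearMap.comp_apply, dR_single, dR_lft ((c4 _ x.b).mono fun γ hγ => hγ x.mem),
          c1.d_d, map_zero, LinearMap.zero_apply]) c
  have hε : ∀ c, sm _ (dR (fun β => (lab 1 β).1) (fun β => (lab 0 β).1) (d 0) c) = 0 :=
    fun c => LinearMap.congr_fun (f := sm _ ∘ₗ dR _ _ (d 0)) (g := 0)
      (ch_ext fun x => by
        rw [LinearMap.comp_apply, dR_single, ← sm_mapDomain Rc.b,
          pr_lft ((c4 _ x.b).mono fun γ hγ => hγ x.mem), c1.ε_d, LinearMap.zero_apply]) c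
  refine ⟨fun j => Rc fun β => (lab j β).1, fun j => inferInstance, fun j => Rc.v,
    fun j x => dir (lab j x.b).1, fun j => fl (hM j), fun j => dR _ _ (d j), SS.sup Set.ncard,
    fun j => cells (hM j) W (fun g h β => ?_) fun β => (h1 _ (lab j β).2).2.1.trans (hD _),
    ⟨fun j => flipSys (hM j) W, fun j x => ?_, fun j x => ?_, fun j x h e => ?_, hdd, hε⟩,
    ⟨fun j => dR_eqv (c1.eqv j), hdd, hε, fun j g x e => c1.free j g x.b (congrArg Rc.b e)⟩,
    fun j hj => cofin (fun β => (h1 _ (lab j β).2).1) (c2 j hj), fun v τ hτ => ?_⟩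
  · rw [(h1 _ (lab j (g • β)).2).2.2.1, (h1 _ (lab j β).2).2.2.1,
      show (lab j (g • β)).1 = g • (lab j β).1 from (hI j).out g β]
    simp only [← Set.image_smul, Set.exists_mem_image, W.eqv]
  · rw [dR_single]
    exact (on_lft (c4 j x.b)).mono fun y hy => hy.1
  · rw [dR_single]
    exact (on_lft (c4 j x.b)).mono fun y hy => hdir _ _ hy.2
  · rw [dR_single, dR_single, fl_b]
    refine fl_lft (hM j) W (fl_geo (hM _) e) ((c4 j x.b).mono fun γ hγ =>
      ⟨hγ x.mem, hγ ?_, hdir _ _ hγ e⟩)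
    rw [← fl_b (hM _) h x]
    exact (fl (hM _) h x).mem
  · obtain ⟨S₀, a, b⟩ := h2 v τ hτ
    exact acy (q := fun j β => τ ⊆ dir (lab j β).1) c4 (fun j β => b _ (lab j β).2) (c5 ⟨S₀, a⟩)

end Pool.Agent.MP_4f4d9f_gt.Cb

end

section

/-! The operators of the coloured model. -/

namespace Pool.Agent.MP_4f4d9f_gt.Cb

namespace Phi

open scoped InnerProductSpace
open Finsupp Db
open ContinuousLinearMap (adjoint)

variable {G V Hy B B₂ Y : Type} [Group G] [MulAction G V] [MulAction G Hy] [MulAction G B]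
  [MulAction G B₂] {sep : V → V → Finset Hy} {o : B → V} {σ : B → Finset Hy} {F : Hy → B → B}
  {d : ℕ} {C : Cells G sep o σ F d} {N : ℕ} {H H₀ H₂ : Type} [NormedAddCommGroup H]
  [InnerProductSpace ℂ H] [NormedAddCommGroup H₀] [InnerProductSpace ℂ H₀] [NormedAddCommGroup H₂]
  [InnerProductSpace ℂ H₂]

theorem mk_inj (x : UA sep N) : Function.Injective fun β : Y => (⟨x, β⟩ : ZZ sep N Y) :=
  fun _ _ e => congrArg ZZ.y e

open Classical in
theorem md_apply {R : Type} [AddCommMonoid R] (x : UA sep N) (c : Y →₀ R) (z : ZZ sep N Y) :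
    mapDomain (fun β => (⟨x, β⟩ : ZZ sep N Y)) c z = if z.x = x then c z.y else 0 := by
  split_ifs with h
  · subst h
    exact mapDomain_apply (mk_inj z.x) c z.y
  · exact mapDomain_of_notMem_range _ _ (by rintro ⟨β, rfl⟩; exact h rfl)

theorem pm_embZ {Z : Type} (b : HilbertBasis Z ℂ H) (π : Equiv.Perm Z) (c : Z →₀ ℤ) :
    pm b π (embZ b c) = embZ b (mapDomain π c) :=
  map_embZ b b (f := lmapDomain ℤ ℤ π) (fun z => by
    rw [pm_apply, lmapDomain_apply, mapDomain_single, embZ_single]) c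

theorem ext_int {Z : Type} (b : HilbertBasis Z ℂ H) {T : H →L[ℂ] H₀} {S : H →L[ℂ] H}
    {S' : H₀ →L[ℂ] H₀} (h : ∀ z, T (S (b z)) = S' (T (b z))) (ξ : H) : T (S ξ) = S' (T ξ) :=
  congrArg (fun U : H →L[ℂ] H₀ => U ξ) (hb_ext b (S := T ∘L S) (T := S' ∘L T) h)

theorem exists_fin (b : HilbertBasis (ZZ sep N Y) ℂ H) (x : Am Hy N) (z : ZZ sep N Y) :
    ∃ c : ZZ sep N Y →₀ ℂ, linearCombination ℂ b c = ev b x (b z) := by
  induction x using MonoidAlgebra.induction_linear with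
  | zero => exact ⟨0, by simp⟩
  | add x y hx hy =>
    obtain ⟨c, hc⟩ := hx
    obtain ⟨c', hc'⟩ := hy
    exact ⟨c + c', by rw [map_add, map_add, hc, hc', _root_.add_apply]⟩
  | single a t =>
    exact ⟨single _ t, by rw [linearCombination_single, ev_single, _root_.smul_apply, pm_apply]⟩

theorem rep_phi [NeZero N] (W : Wl G sep) (b₀ : HilbertBasis (ZZ sep N B) ℂ H₀) (l : Lam W N)
    (z : ZZ sep N (Col C N)) : rep b₀ (Lam W N) l (ev b₀ (eR z.y.ρ) (b₀ ⟨z.x, z.y.β⟩)) =
      ev b₀ (eR (l • z).y.ρ) (b₀ ⟨(l • z).x, (l • z).y.β⟩) := by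
  rw [rep_ev, actA_eR, rep_apply]
  rfl

theorem rep_dd (W : Wl G sep) (b₀ : HilbertBasis (ZZ sep N B) ℂ H₀)
    {f : (B₂ →₀ ℤ) →ₗ[ℤ] (B →₀ ℤ)} (hf : Eqv (permRep G B₂) (permRep G B) f) (l : Lam W N)
    (z : ZZ sep N B₂) :
    rep b₀ (Lam W N) l (embZ b₀ (mapDomain (fun β => ⟨z.x, β⟩) (f (single z.y 1)))) =
      embZ b₀ (mapDomain (fun β => ⟨(l • z).x, β⟩) (f (single (l • z).y 1))) := by
  have h : f (single (l • z).y 1) = mapDomain (l.right • ·) (f (single z.y 1)) :=
    (congrArg f (permRep_single l.right z.y 1).symm).trans (hf _ _)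
  rw [h, ← mapDomain_comp]
  exact (pm_embZ b₀ _ _).trans (congrArg _ mapDomain_comp.symm)

variable [CompleteSpace H] [CompleteSpace H₀] [CompleteSpace H₂]

theorem adj_int {T : H →L[ℂ] H₀} {S S₁ : H →L[ℂ] H} {S' S₁' : H₀ →L[ℂ] H₀}
    (h : ∀ ξ, T (S ξ) = S' (T ξ)) (h1 : star S = S₁) (h2 : star S' = S₁') (η : H₀) :
    adjoint T (S₁' η) = S₁ (adjoint T η) := by
  have e := congrArg adjoint (ContinuousLinearMap.ext h : T ∘L S = S' ∘L T)
  rw [ContinuousLinearMap.adjoint_comp, ContinuousLinearMap.adjoint_comp,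
    ← ContinuousLinearMap.star_eq_adjoint, ← ContinuousLinearMap.star_eq_adjoint, h1, h2] at e
  exact (congrArg (fun U : H₀ →L[ℂ] H => U η) e).symm

theorem adj_ev {Y' : Type} (b : HilbertBasis (ZZ sep N Y) ℂ H)
    (b' : HilbertBasis (ZZ sep N Y') ℂ H₀) {T : H →L[ℂ] H₀}
    (h : ∀ a ξ, T (pm b (sh a) ξ) = pm b' (sh a) (T ξ)) (x : Am Hy N) (ξ : H₀) :
    adjoint T (ev b' x ξ) = ev b x (adjoint T ξ) :=
  ev_int b' b (fun a => adj_int (h a⁻¹) (by rw [star_pm, map_inv, inv_inv])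
    (by rw [star_pm, map_inv, inv_inv])) x ξ

theorem opsP [NeZero N] (W : Wl G sep) {o₂ : B₂ → V} {f : (B₂ →₀ ℤ) →ₗ[ℤ] (B →₀ ℤ)}
    {fT : (B →₀ ℤ) →ₗ[ℤ] (B₂ →₀ ℤ)} (K : Kern G o₂ o f fT)
    {b : HilbertBasis (ZZ sep N (Col C N)) ℂ H} {b₀ : HilbertBasis (ZZ sep N B) ℂ H₀}
    {b₂ : HilbertBasis (ZZ sep N B₂) ℂ H₂} {Φ : H →L[ℂ] H₀} {D : H₂ →L[ℂ] H₀}
    (O : Ops b b₀ b₂ f Φ D) : OpsP W b b₀ (f ∘ₗ fT) Φ D := by
  classical
  have p1 : ∀ a ξ, Φ (pm b (sh a) ξ) = pm b₀ (sh a) (Φ ξ) := fun a => ext_int b fun z => by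
    rw [pm_apply, O.phi, O.phi, ev_int b₀ b₀ (T := pm b₀ (sh a)) fun a' ξ =>
      congrArg (fun U : H₀ →L[ℂ] H₀ => U ξ)
        (pm_comm b₀ ((Commute.all a a').map (sh (sep := sep) (Y := B)))).eq, pm_apply]
    rfl
  have d1 : ∀ a ξ, D (pm b₂ (sh a) ξ) = pm b₀ (sh a) (D ξ) := fun a => ext_int b₂ fun z => by
    rw [pm_apply, O.dd, O.dd, pm_embZ, ← mapDomain_comp]
    rfl
  have p2 : ∀ l ξ, Φ (rep b (Lam W N) l ξ) = rep b₀ (Lam W N) l (Φ ξ) := fun l =>
    ext_int b fun z => by rw [rep_apply, O.phi, O.phi, rep_phi]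
  have d2 : ∀ l ξ, D (rep b₂ (Lam W N) l ξ) = rep b₀ (Lam W N) l (D ξ) := fun l =>
    ext_int b₂ fun z => by rw [rep_apply, O.dd, O.dd, rep_dd W b₀ K.eqv]
  have pe := ev_int b b₀ p1
  have ae := adj_ev b b₀ p1
  have adj : ∀ z, adjoint Φ (b₀ z) = ∑ ρ : {ρ : Cl N → Option Hy // Valid σ z.y ρ},
      ev b (eR ρ.1) (b ⟨z.x, ⟨z.y, ρ.1, ρ.2⟩⟩) := fun z => vec_ext b fun z' => by
    obtain ⟨x', β', ρ', h'⟩ := z'
    rw [ContinuousLinearMap.adjoint_inner_right, O.phi, ← ContinuousLinearMap.adjoint_inner_right,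
      (ev_eR_proj b₀ _).isSelfAdjoint.adjoint_eq, inner_ev, inner_sum]
    simp only [inner_ev, Col.mk.injEq]
    by_cases e : β' = z.y
    · subst e
      rw [Finset.sum_eq_single ⟨ρ', h'⟩ (fun ρ _ hρ => if_neg fun h => hρ (Subtype.ext h.2.2.symm))
        (by simp)]
      simp
    · simp [e]
  have ra : ∀ z, adjoint Φ (Φ (b z)) = ev b (eR z.y.ρ) (b z) := fun z => by
    rw [O.phi, ae, adj, map_sum, Finset.sum_eq_single ⟨z.y.ρ, z.y.valid⟩ (fun ρ _ hρ => ?_)
      (by simp), ← mul_apply_eq_comp, ← map_mul, eR_idem]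
    rw [← mul_apply_eq_comp, ← map_mul, eR_orth z.y.valid ρ.2 fun e => hρ (Subtype.ext e.symm),
      map_zero, _root_.zero_apply]
  have pr : Φ ∘L (adjoint Φ ∘L Φ) = Φ := hb_ext b fun z => by
    change Φ (adjoint Φ (Φ (b z))) = _
    rw [ra, pe, O.phi, ← mul_apply_eq_comp, ← map_mul, eR_idem]
  have rs : adjoint (adjoint Φ ∘L Φ) = adjoint Φ ∘L Φ := by
    rw [ContinuousLinearMap.adjoint_comp, ContinuousLinearMap.adjoint_adjoint]
  have rp : IsStarProjection (adjoint Φ ∘L Φ) := ⟨congrArg (adjoint Φ ∘L ·) pr, rs⟩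
  have ad : ∀ z, adjoint D (b₀ z) =
      embZ b₂ (mapDomain (fun γ => ⟨z.x, γ⟩) (fT (single z.y 1))) := fun z =>
    vec_ext b₂ fun z' => by
      rw [ContinuousLinearMap.adjoint_inner_right, O.dd, ← inner_conj_symm, inner_embZ, inner_embZ,
        md_apply, md_apply, K.tp, map_intCast]
      simp only [eq_comm]
  have sand : ∀ {S : H →L[ℂ] H} {S₀ : H₀ →L[ℂ] H₀} {S₂ : H₂ →L[ℂ] H₂}, (∀ ξ, Φ (S ξ) = S₀ (Φ ξ)) →
      (∀ ξ, adjoint D (S₀ ξ) = S₂ (adjoint D ξ)) → (∀ ξ, D (S₂ ξ) = S₀ (D ξ)) →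
      (∀ ξ, adjoint Φ (S₀ ξ) = S (adjoint Φ ξ)) →
      Commute S (adjoint Φ ∘L D ∘L adjoint D ∘L Φ) := fun h1 h2 h3 h4 =>
    ContinuousLinearMap.ext fun ξ => by
      simp only [mul_apply_eq_comp, ContinuousLinearMap.comp_apply, h1, h2, h3, h4]
  refine ⟨O.phi, pe, adj, ae, ra, rp, fun s c => hb_ext b fun z => ?_, fun ξ => ?_, ?_,
    fun z => ?_, fun x ξ => ?_, fun l => ?_, fun p => ?_⟩
  · change adjoint Φ (Φ (tau b s c (b z))) = tau b s c (adjoint Φ (Φ (b z)))
    rw [tau_apply, ra, ra, tz_ρ, ← tau_apply]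
    exact (congrArg (fun U : H →L[ℂ] H => U (b z)) (tau_ev b s c _).eq).symm
  · have e := congrArg adjoint pr
    rw [ContinuousLinearMap.adjoint_comp, rs] at e
    exact congrArg (fun U : H₀ →L[ℂ] H => U ξ) e
  · have e := rp.norm_le
    rw [ContinuousLinearMap.norm_adjoint_comp_self] at e
    nlinarith [norm_nonneg Φ]
  · rw [ad, LinearMap.comp_apply]
    generalize fT (single z.y 1) = c
    induction c using ch_induction with
    | h0 => simp
    | hadd x y hx hy => simp only [mapDomain_add, map_add, hx, hy]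
    | hneg x hx => simp only [← lmapDomain_apply ℤ ℤ, map_neg] at hx ⊢; rw [hx]
    | h1 β => rw [mapDomain_single, embZ_single, O.dd]
  · rw [adj_ev b₂ b₀ d1, ev_int b₂ b₀ d1]
  · have h : ∀ {Z H : Type} [NormedAddCommGroup H] [InnerProductSpace ℂ H] [CompleteSpace H]
        [MulAction (Lam W N) Z] (b : HilbertBasis Z ℂ H),
        star (rep b (Lam W N) l⁻¹) = rep b (Lam W N) l := fun b => by rw [star_rep, inv_inv]
    exact sand (p2 l) (adj_int (d2 l⁻¹) (h _) (h _)) (d2 l) (adj_int (p2 l⁻¹) (h _) (h _))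
  · have h1 := fun ξ => congrArg (fun U : H →L[ℂ] H₀ => U ξ) (PS_comm b b₀ (fun z => z.x.1)
      (fun z => z.x.1) (T := Φ) (fun z z' h => by
        rw [O.phi, inner_ev, if_neg fun e => h e.1.symm]) p)
    have h2 := fun ξ => congrArg (fun U : H₂ →L[ℂ] H₀ => U ξ) (PS_comm b₂ b₀ (fun z => z.x.1)
      (fun z => z.x.1) (T := D) (fun z z' h => by
        rw [O.dd, inner_embZ, md_apply, if_neg fun e => h (congrArg Prod.fst e).symm,
          Int.cast_zero]) p)
    simp only [ContinuousLinearMap.comp_apply] at h1 h2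
    exact sand h1 (adj_int h2 (PS_proj _ _).isSelfAdjoint (PS_proj _ _).isSelfAdjoint) h2
      (adj_int h1 (PS_proj _ _).isSelfAdjoint (PS_proj _ _).isSelfAdjoint)

end Phi

open Finsupp in
theorem phi_stmt : PhiStmt := by
  intro G V Hy B B₂ I I₂ _ _ _ _ _ _ _ sep W o σ F d C o₂ f fT K r r₂ hr hr₂
  classical
  refine ⟨∑ i, (mapRange (Int.cast : ℤ → ℂ) Int.cast_zero (f (single (r₂ i) 1))).sum
    fun _ t => ‖t‖, fun N _ H H₀ H₂ _ _ _ _ _ _ _ _ _ b b₀ b₂ => ?_⟩
  choose c hc using Phi.exists_fin b₀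
  obtain ⟨Φ, -, hΦ⟩ := exists_ker b b₀ (freeOn_ZZ W (freeOn_col (C := C) (N := N) hr))
    (freeOn_ZZ W hr).inj fun j => c (eR j.2.1) ⟨1, r j.1⟩
  obtain ⟨D, hn, hD⟩ := exists_ker b₂ b₀ (freeOn_ZZ W hr₂) (freeOn_ZZ W hr).inj fun i =>
    mapDomain (fun β => ⟨1, β⟩) (mapRange (Int.cast : ℤ → ℂ) Int.cast_zero (f (single (r₂ i) 1)))
  refine ⟨Φ, D, hn.trans (le_of_eq (Finset.sum_congr rfl fun i _ =>
    sum_mapDomain_index_inj (h := fun _ t => ‖t‖) (Phi.mk_inj 1))), Phi.opsP W K (b₂ := b₂)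
      ⟨fun z => ?_, fun z => ?_⟩⟩
  · obtain ⟨⟨l, j⟩, rfl⟩ := (freeOn_ZZ W (freeOn_col (C := C) (N := N) hr)).2 z
    rw [hΦ, hc, ← Phi.rep_phi]
    rfl
  · obtain ⟨⟨l, i⟩, rfl⟩ := (freeOn_ZZ W hr₂).2 z
    rw [hD, ← Phi.rep_dd W b₀ K.eqv]
    refine congrArg _ (vec_ext b₀ fun z => ?_)
    rw [b₀.orthonormal.inner_right_finsupp, inner_embZ, Phi.md_apply, Phi.md_apply]
    split_ifs <;> simp

end Pool.Agent.MP_4f4d9f_gt.Cb

end

section

/-! The analytic core. -/

namespace Pool.Agent.MP_4f4d9f_gt.Cb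

theorem core_stmt : CoreStmt :=
  core_of phi_stmt (step_stmt (ld_stmt ldBas_stmt (bethe_stmt ldBas_stmt sub_stmt)
    (mirror_stmt ldBas_stmt sub_stmt)) ra_stmt) mom_stmt lim_stmt open_stmt

end Pool.Agent.MP_4f4d9f_gt.Cb

end

section

/-! A finitely dominated resolution can be replaced by a resolution of finite type. -/

namespace Pool.Agent.MP_4f4d9f_gt.Sg.GP

open CategoryTheory

section Ring

variable {R : Type} [Ring R]

theorem exists_cover (Z : ModuleCat.{0} R) : ∃ (F : ModuleCat.{0} R) (π : F →ₗ[R] Z),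
    Module.Projective R F ∧ Function.Surjective π ∧ (Module.Finite R Z → Module.Finite R F) := by
  by_cases h : Module.Finite R Z
  · obtain ⟨n, f, hf⟩ := Module.Finite.exists_fin' R Z
    exact ⟨ModuleCat.of R (Fin n → R), f, inferInstance, hf, fun _ => inferInstance⟩
  · exact ⟨ModuleCat.of R (Z →₀ R), Finsupp.linearCombination R id, inferInstance,
      Finsupp.linearCombination_id_surjective R Z, fun h' => absurd h' h⟩

/-- The syzygies for a choice of covers. -/
noncomputable def syz {F : ModuleCat.{0} R → ModuleCat.{0} R} (π : ∀ Z, F Z →ₗ[R] Z)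
    (Z₀ : ModuleCat.{0} R) : ℕ → ModuleCat.{0} R
  | 0 => Z₀
  | k + 1 => ModuleCat.of R (LinearMap.ker (π (syz π Z₀ k)))

/-- A resolution whose terms are finitely generated whenever that is possible. -/
theorem exists_res (Z₀ : ModuleCat.{0} R) [Module.Finite R Z₀] : ∃ P : ProjectiveResolution Z₀,
    Module.Finite R (P.complex.X 0) ∧ ∀ k, (LinearMap.range (P.complex.d (k + 1) k).hom).FG →
      Module.Finite R (P.complex.X (k + 1)) := by
  choose F π h1 h2 h3 using exists_cover (R := R)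
  let Z : ℕ → ModuleCat.{0} R := syz π Z₀
  let i : ∀ k : ℕ, Z (k + 1) →ₗ[R] F (Z k) := fun k => (LinearMap.ker (π (Z k))).subtype
  have hi : ∀ k, Function.Injective (i k) := fun k => Subtype.val_injective
  have e1 : ∀ k x, π (Z k) (i k x) = 0 := fun k x => x.2
  have e2 : ∀ k x, π (Z k) x = 0 → ∃ y, i k (π (Z (k + 1)) y) = x := fun k x hx => by
    obtain ⟨y, hy⟩ := h2 (Z (k + 1)) ⟨x, hx⟩
    exact ⟨y, congrArg Subtype.val hy⟩
  let d : ∀ k, F (Z (k + 1)) ⟶ F (Z k) := fun k => ModuleCat.ofHom (i k ∘ₗ π (Z (k + 1)))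
  have hd : ∀ k, d (k + 1) ≫ d k = 0 := fun k => by
    ext x
    change i k (π _ (i (k + 1) _)) = 0
    rw [e1, map_zero]
  let K := ChainComplex.of (fun k => F (Z k)) d hd
  have hK : ∀ k, K.d (k + 1) k = d k := fun k => ChainComplex.of_d (fun k => F (Z k)) d k
  have h0 : K.d 1 0 ≫ (ModuleCat.ofHom (π Z₀) : K.X 0 ⟶ Z₀) = 0 := by
    rw [hK 0]
    ext x
    exact e1 0 _
  refine ⟨{ complex := K
            projective := fun n => (IsProjective.iff_projective _).1 (h1 _)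
            π := (ChainComplex.toSingle₀Equiv _ _).symm ⟨_, h0⟩
            quasiIso := ⟨fun n => ?_⟩ }, h3 Z₀ inferInstance, fun k hk => h3 _ ?_⟩
  · cases n with
    | zero =>
      rw [ChainComplex.quasiIsoAt₀_iff, ShortComplex.quasiIso_iff_of_zeros']
      · refine (ShortComplex.exact_and_epi_g_iff_of_iso (S₂ := ShortComplex.mk _ _ h0) ?_).2
          ⟨(ShortComplex.moduleCat_exact_iff _).2 fun x hx => ?_,
            (ModuleCat.epi_iff_surjective _).2 (h2 _)⟩
        · refine ShortComplex.isoMk (Iso.refl _) (Iso.refl _) (Iso.refl _) ?_ ?_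
          · exact (Category.id_comp _).trans (Category.comp_id _).symm
          · simp only [Iso.refl_hom]
            refine (Category.id_comp _).trans (Eq.trans ?_ (Category.comp_id _).symm)
            simp
        · obtain ⟨y, hy⟩ := e2 0 x hx
          refine ⟨y, ?_⟩
          change (K.d 1 0).hom y = x
          rw [hK 0]
          exact hy
      all_goals rfl
    | succ n =>
      rw [quasiIsoAt_iff_exactAt' _ _ (ChainComplex.exactAt_succ_single_obj _ _),
        HomologicalComplex.exactAt_iff' _ (n + 1 + 1) (n + 1) n (by simp) (by simp),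
        ShortComplex.moduleCat_exact_iff]
      intro x hx
      change (K.d (n + 1) n).hom x = 0 at hx
      rw [hK] at hx
      obtain ⟨y, hy⟩ := e2 (n + 1) x (hi n (hx.trans (map_zero _).symm))
      refine ⟨y, ?_⟩
      change (K.d (n + 1 + 1) (n + 1)).hom y = x
      rw [hK]
      exact hy
  · change (LinearMap.range (K.d (k + 1) k).hom).FG at hk
    rw [hK] at hk
    change (LinearMap.range (i k ∘ₗ π (Z (k + 1)))).FG at hk
    rw [LinearMap.range_comp, LinearMap.range_eq_top.2 (h2 _)] at hk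
    exact ⟨Submodule.fg_of_fg_map_injective _ (hi k) hk⟩

end Ring

variable {K : Type} [Group K]

/-- The subgroup generated by the translates of a finite set. -/
def orb {C : Type} [AddCommGroup C] (ρ : Representation ℤ K C) (S : Finset C) : AddSubgroup C :=
  AddSubgroup.closure {c | ∃ g : K, ∃ s ∈ S, c = ρ g s}

variable (K) in
/-- Every resolution has a self-map over the identity with images in finitely generated modules. -/
def Dominated : Prop :=
  ∀ (F : ℕ → Type) [∀ k, AddCommGroup (F k)] (ρ : ∀ k, Representation ℤ K (F k))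
    (d : ∀ k, F (k + 1) →ₗ[ℤ] F k) (ε : F 0 →ₗ[ℤ] ℤ), IsRes ρ d ε →
    ∃ v : ∀ k, F k →ₗ[ℤ] F k, (∀ k, Eqv (ρ k) (ρ k) (v k)) ∧ (∀ c, ε (v 0 c) = ε c) ∧
      (∀ k c, d k (v (k + 1) c) = v k (d k c)) ∧ ∀ k, ∃ S : Finset (F k), ∀ c, v k c ∈ orb (ρ k) S

theorem exists_isRes (P : ProjectiveResolution
    (ModuleCat.of (MonoidAlgebra ℤ K) (Representation.trivial ℤ K ℤ).asModule)) :
    ∃ ε : P.complex.X 0 →ₗ[ℤ] ℤ, IsRes (fun k => Gen.modRep K (P.complex.X k))
      (fun k => (P.complex.d (k + 1) k).hom.toAddMonoidHom.toIntLinearMap) ε := by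
  let e : (P.complex.X 0) →ₗ[MonoidAlgebra ℤ K] (Representation.trivial ℤ K ℤ).asModule :=
    (P.π.f 0).hom
  let ε : (P.complex.X 0) →+ ℤ :=
    (Representation.trivial ℤ K ℤ).asModuleEquiv.toAddEquiv.toAddMonoidHom.comp e.toAddMonoidHom
  refine ⟨ε.toIntLinearMap, fun k => Gen.eqv_lin _, fun g c => ?_, fun c => ?_, fun k c => ?_, ?_,
    fun c hc => ?_, fun k c hc => ?_, fun k => Gen.proj_modRep _⟩
  · change (Representation.trivial ℤ K ℤ).asModuleEquiv
      (e ((MonoidAlgebra.single g 1 : MonoidAlgebra ℤ K) • c)) =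
        (Representation.trivial ℤ K ℤ).asModuleEquiv (e c)
    rw [map_smul, Representation.asModuleEquiv_map_smul, Representation.asAlgebraHom_single_one]
    rfl
  · exact LinearMap.congr_fun (congrArg ModuleCat.Hom.hom P.complex_d_comp_π_f_zero) c
  · exact LinearMap.congr_fun
      (congrArg ModuleCat.Hom.hom (P.complex.d_comp_d (k + 2) (k + 1) k)) c
  · exact (ModuleCat.epi_iff_surjective (P.π.f 0)).1 inferInstance (1 : ℤ)
  · exact (ShortComplex.moduleCat_exact_iff _).1 P.exact₀ c hc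
  · exact (ShortComplex.moduleCat_exact_iff _).1 (P.exact_succ k) c hc

theorem finite_trivial :
    Module.Finite (MonoidAlgebra ℤ K) (Representation.trivial ℤ K ℤ).asModule := by
  refine ⟨⟨{(Representation.trivial ℤ K ℤ).asModuleEquiv.symm 1}, eq_top_iff.2 fun x _ => ?_⟩⟩
  rw [Finset.coe_singleton, Submodule.mem_span_singleton]
  refine ⟨MonoidAlgebra.single 1 ((Representation.trivial ℤ K ℤ).asModuleEquiv x),
    (Representation.trivial ℤ K ℤ).asModuleEquiv.injective ?_⟩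
  rw [Representation.asModuleEquiv_map_smul]
  simp

theorem finRes_of_dominated (h : Dominated K) (m : ℕ) : FinRes K m := by
  have := finite_trivial (K := K)
  obtain ⟨P, h0, hs⟩ := exists_res
    (ModuleCat.of (MonoidAlgebra ℤ K) (Representation.trivial ℤ K ℤ).asModule)
  refine ⟨P, ?_⟩
  obtain ⟨ε, R⟩ := exists_isRes P
  obtain ⟨v, v1, v2, v3, v4⟩ := h _ _ _ _ R
  obtain ⟨t, t1, t2⟩ := R.exists_homotopy (fun k => LinearMap.id - v k)
    (fun k => Eqv.id.sub (v1 k)) (fun c => by simp [v2]) fun k c => by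
      simp only [LinearMap.sub_apply, LinearMap.id_apply, map_sub, v3]
  induction m with
  | zero => exact h0
  | succ k ih =>
    refine hs k ?_
    obtain ⟨S, hS⟩ := v4 (k + 1)
    set D := (P.complex.d (k + 1) k).hom with hD
    have e : LinearMap.range D = LinearMap.range (D ∘ₗ Gen.toLin (t k) (t1 k)) ⊔
        (Submodule.span (MonoidAlgebra ℤ K) (S : Set (P.complex.X (k + 1)))).map D := by
      refine le_antisymm ?_ (sup_le (LinearMap.range_comp_le_range _ _) LinearMap.map_le_range)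
      rintro _ ⟨y, rfl⟩
      have e1 := congrArg D (t2 k y)
      have e2 : D ((P.complex.d (k + 1 + 1) (k + 1)).hom (t (k + 1) y)) = 0 := R.d_d k _
      change D ((P.complex.d (k + 1 + 1) (k + 1)).hom (t (k + 1) y) + t k (D y)) =
        D (y - v (k + 1) y) at e1
      rw [map_add, e2, zero_add, map_sub, eq_sub_iff_add_eq] at e1
      rw [← e1]
      refine Submodule.add_mem_sup ⟨D y, rfl⟩ (Submodule.mem_map_of_mem ?_)
      refine (AddSubgroup.closure_le (Submodule.span (MonoidAlgebra ℤ K)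
        (S : Set (P.complex.X (k + 1)))).toAddSubgroup).2 ?_ (hS y)
      rintro _ ⟨g, s, hs, rfl⟩
      exact Submodule.smul_mem _ _ (Submodule.subset_span hs)
    rw [e]
    exact (Submodule.fg_range _).sup (Submodule.FG.map _ ⟨S, rfl⟩)

section Lift

variable {C D E : Type} [AddCommGroup C] [AddCommGroup D] [AddCommGroup E]

theorem lift_sub {ρ : Representation ℤ K C} (hρ : Proj ρ) {ρD : Representation ℤ K D}
    {ρE : Representation ℤ K E} (A : AddSubgroup D) (hA : ∀ g, ∀ x ∈ A, ρD g x ∈ A)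
    (π : D →ₗ[ℤ] E) (φ : C →ₗ[ℤ] E) (hπ : Eqv ρD ρE π) (hφ : Eqv ρ ρE φ)
    (hs : ∀ c, ∃ x ∈ A, π x = φ c) :
    ∃ ψ : C →ₗ[ℤ] D, Eqv ρ ρD ψ ∧ (∀ c, ψ c ∈ A) ∧ ∀ c, π (ψ c) = φ c := by
  let act : K → A →+ A := fun g =>
    AddMonoidHom.mk' (fun x => ⟨ρD g x, hA g x x.2⟩) fun x y => Subtype.ext (map_add (ρD g) _ _)
  let ρ' : @Representation ℤ K A _ _ _ (AddCommGroup.toIntModule A) :=
    { toFun := fun g => (act g).toIntLinearMap
      map_one' := LinearMap.ext fun x => Subtype.ext (by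
        change ρD 1 x = x
        rw [map_one]; rfl)
      map_mul' := fun g h => LinearMap.ext fun x => Subtype.ext (by
        change ρD (g * h) x = ρD g (ρD h x)
        rw [map_mul]; rfl) }
  have hi : Eqv ρ' ρD A.subtype.toIntLinearMap := fun _ _ => rfl
  obtain ⟨ψ, h1, h2⟩ := hρ A E ρ' ρE (π ∘ₗ A.subtype.toIntLinearMap) φ (hπ.comp hi) hφ fun c => by
    obtain ⟨x, hx, e⟩ := hs c
    exact ⟨⟨x, hx⟩, e⟩
  exact ⟨A.subtype.toIntLinearMap ∘ₗ ψ, hi.comp h1, fun c => (ψ c).2, h2⟩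

end Lift

section Map

variable {C D : ℕ → Type} [∀ k, AddCommGroup (C k)] [∀ k, AddCommGroup (D k)]

/-- An augmented complex of projective modules. -/
structure PCx (ρ : ∀ k, Representation ℤ K (C k)) (d : ∀ k, C (k + 1) →ₗ[ℤ] C k)
    (ε : C 0 →ₗ[ℤ] ℤ) : Prop where
  eqv_d : ∀ k, Eqv (ρ (k + 1)) (ρ k) (d k)
  eqv_ε : ∀ g c, ε (ρ 0 g c) = ε c
  ε_d : ∀ c, ε (d 0 c) = 0
  d_d : ∀ k c, d k (d (k + 1) c) = 0
  proj : ∀ k, Proj (ρ k)

/-- An acyclic invariant family of subgroups. -/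
structure ECx (ρ : ∀ k, Representation ℤ K (C k)) (d : ∀ k, C (k + 1) →ₗ[ℤ] C k)
    (ε : C 0 →ₗ[ℤ] ℤ) (A : ∀ k, AddSubgroup (C k)) : Prop where
  eqv_d : ∀ k, Eqv (ρ (k + 1)) (ρ k) (d k)
  eqv_ε : ∀ g c, ε (ρ 0 g c) = ε c
  inv : ∀ k g, ∀ x ∈ A k, ρ k g x ∈ A k
  surj : ∃ c ∈ A 0, ε c = 1
  exact_zero : ∀ c ∈ A 0, ε c = 0 → ∃ b ∈ A 1, d 0 b = c
  exact_succ : ∀ k, ∀ c ∈ A (k + 1), d k c = 0 → ∃ b ∈ A (k + 2), d (k + 1) b = c

variable {ρ : ∀ k, Representation ℤ K (C k)} {d : ∀ k, C (k + 1) →ₗ[ℤ] C k} {ε : C 0 →ₗ[ℤ] ℤ}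
  {ρ' : ∀ k, Representation ℤ K (D k)} {d' : ∀ k, D (k + 1) →ₗ[ℤ] D k} {ε' : D 0 →ₗ[ℤ] ℤ}

theorem pcx_of_isRes (R : IsRes ρ d ε) : PCx ρ d ε := ⟨R.eqv_d, R.eqv_ε, R.ε_d, R.d_d, R.proj⟩

theorem ecx_of_isRes (R : IsRes ρ d ε) : ECx ρ d ε fun _ => ⊤ where
  eqv_d := R.eqv_d
  eqv_ε := R.eqv_ε
  inv _ _ _ _ := trivial
  surj := R.surj.imp fun _ h => ⟨trivial, h⟩
  exact_zero c _ h := (R.exact_zero c h).imp fun _ h => ⟨trivial, h⟩
  exact_succ k c _ h := (R.exact_succ k c h).imp fun _ h => ⟨trivial, h⟩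

theorem PCx.exists_map (R : PCx ρ d ε) {A : ∀ k, AddSubgroup (D k)} (R' : ECx ρ' d' ε' A) :
    ∃ f : ∀ k, C k →ₗ[ℤ] D k, (∀ k, Eqv (ρ k) (ρ' k) (f k)) ∧ (∀ k c, f k c ∈ A k) ∧
      (∀ c, ε' (f 0 c) = ε c) ∧ ∀ k c, d' k (f (k + 1) c) = f k (d k c) := by
  obtain ⟨f0, hf0, hm0, hf0'⟩ := lift_sub (R.proj 0) (ρE := 1) (A 0) (R'.inv 0) ε' ε R'.eqv_ε
    R.eqv_ε fun c => by
      obtain ⟨x, hx, e⟩ := R'.surj
      exact ⟨ε c • x, zsmul_mem hx _, by simp [e]⟩
  let T (k : ℕ) : Type := {f : C k →ₗ[ℤ] D k // Eqv (ρ k) (ρ' k) f ∧ (∀ c, f c ∈ A k) ∧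
    ∀ c, ∃ x ∈ A (k + 1), d' k x = f (d k c)}
  have step : ∀ k (f : T k), ∃ f' : T (k + 1), ∀ c, d' k (f'.1 c) = f.1 (d k c) := by
    intro k f
    obtain ⟨ψ, h1, hm, h2⟩ := lift_sub (R.proj (k + 1)) (A (k + 1)) (R'.inv _) (d' k)
      (f.1 ∘ₗ d k) (R'.eqv_d k) (f.2.1.comp (R.eqv_d k)) f.2.2.2
    refine ⟨⟨ψ, h1, hm, fun c => R'.exact_succ k _ (hm _) ?_⟩, h2⟩
    rw [h2, LinearMap.comp_apply, R.d_d, map_zero]
  choose next hnext using step
  let t0 : T 0 := ⟨f0, hf0, hm0, fun c => R'.exact_zero _ (hm0 _) (by rw [hf0', R.ε_d])⟩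
  let t : ∀ k, T k := fun k => Nat.rec t0 next k
  exact ⟨fun k => (t k).1, fun k => (t k).2.1, fun k => (t k).2.2.1, hf0', fun k => hnext k (t k)⟩

/-- Domination through an acyclic family and a projective complex. -/
theorem dominated_of {A : ∀ k, AddSubgroup (C k)} (R : ECx ρ d ε A) (R' : PCx ρ' d' ε')
    (u : ∀ k, C k →ₗ[ℤ] D k) (u1 : ∀ k, Eqv (ρ k) (ρ' k) (u k)) (u2 : ∀ c, ε' (u 0 c) = ε c)
    (u3 : ∀ k c, d' k (u (k + 1) c) = u k (d k c))
    (u4 : ∀ k, ∃ S : Finset (D k), ∀ c ∈ A k, u k c ∈ orb (ρ' k) S) : Dominated K := by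
  classical
  intro F _ σ e η Q
  obtain ⟨a, a1, a2, a3, a4⟩ := (pcx_of_isRes Q).exists_map R
  obtain ⟨b, b1, -, b3, b4⟩ := R'.exists_map (ecx_of_isRes Q)
  refine ⟨fun k => b k ∘ₗ u k ∘ₗ a k, fun k => (b1 k).comp ((u1 k).comp (a1 k)), fun c => ?_,
    fun k c => ?_, fun k => ?_⟩
  · simp only [LinearMap.comp_apply, b3, u2, a3]
  · simp only [LinearMap.comp_apply, b4, u3, a4]
  · obtain ⟨S, hS⟩ := u4 k
    refine ⟨S.image (b k), fun c => ?_⟩
    refine (AddSubgroup.closure_le ((orb (σ k) (S.image (b k))).comap (b k).toAddMonoidHom)).2 ?_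
      (hS _ (a2 k c))
    rintro _ ⟨g, s, hs, rfl⟩
    exact AddSubgroup.subset_closure ⟨g, b k s, Finset.mem_image_of_mem _ hs, b1 k g s⟩

end Map

end Pool.Agent.MP_4f4d9f_gt.Sg.GP

end

section

/-! Finiteness of resolutions for free, proper and cocompact actions on acyclic spaces. -/

open Finsupp Topology

namespace Pool.Agent.MP_4f4d9f_gt.Sg

namespace GP

section Bar

variable (K : Type) [Group K]

/-- The boundary of the bar complex. -/
noncomputable def barD (k : ℕ) : ((Fin (k + 2) → K) →₀ ℤ) →ₗ[ℤ] ((Fin (k + 1) → K) →₀ ℤ) :=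
  altSum fun (i : Fin (k + 2)) (x : Fin (k + 2) → K) => x ∘ i.succAbove

/-- The augmentation of the bar complex. -/
noncomputable def barε : ((Fin (0 + 1) → K) →₀ ℤ) →ₗ[ℤ] ℤ := linearCombination ℤ fun _ => 1

variable {K}

omit [Group K] in
theorem barD_single (k : ℕ) (x : Fin (k + 2) → K) (a : ℤ) : barD K k (single x a) =
    ∑ i : Fin (k + 2), (-1 : ℤ) ^ (i : ℕ) • single (x ∘ i.succAbove) a := by
  simp only [barD, altSum, LinearMap.sum_apply, LinearMap.smul_apply, lmapDomain_apply,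
    mapDomain_single]

omit [Group K] in
theorem barε_single (x : Fin (0 + 1) → K) (a : ℤ) : barε K (single x a) = a := by simp [barε]

omit [Group K] in
theorem barD_barD (k : ℕ) (c : (Fin (k + 3) → K) →₀ ℤ) : barD K k (barD K (k + 1) c) = 0 := by
  induction c using Finsupp.induction_linear with
  | zero => simp
  | add a b ha hb => simp [ha, hb]
  | single σ a =>
    simp only [barD_single, map_sum, map_zsmul, Finset.smul_sum, smul_smul]
    rw [← Finset.sum_product']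
    refine Finset.sum_involution (fun p _ => (p.1.succAbove p.2, p.2.predAbove p.1))
      ?_ ?_ (fun _ _ => by simp) ?_
    · rintro ⟨i, j⟩ -
      have e : (σ ∘ (i.succAbove j).succAbove) ∘ (j.predAbove i).succAbove =
          (σ ∘ i.succAbove) ∘ j.succAbove :=
        funext fun m => congrArg σ (Fin.succAbove_succAbove_succAbove_predAbove i j m)
      dsimp only
      rw [e, ← add_smul]
      convert zero_smul ℤ _
      have := Fin.neg_one_pow_succAbove_add_predAbove (R := ℤ) i j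
      rw [← pow_add, ← pow_add, this]
      ring
    · rintro ⟨i, j⟩ - - h
      exact Fin.succAbove_ne i j (congrArg Prod.fst h)
    · rintro ⟨i, j⟩ -
      exact Prod.ext (Fin.succAbove_succAbove_predAbove i j) (Fin.predAbove_predAbove_succAbove i j)

variable (K) in
theorem pcx_bar : PCx (fun k => permRep K (Fin (k + 1) → K)) (barD K) (barε K) where
  eqv_d _ := altSum_smul fun _ _ _ => rfl
  eqv_ε g c := by
    induction c using Finsupp.induction_linear with
    | zero => simp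
    | add a b ha hb => simp only [map_add, ha, hb]
    | single σ a => rw [permRep_single, barε_single, barε_single]
  ε_d c := by
    induction c using Finsupp.induction_linear with
    | zero => simp
    | add a b ha hb => simp only [map_add, ha, hb, add_zero]
    | single σ a =>
      simp only [barD_single, map_sum, map_zsmul, barε_single]
      simp [Fin.sum_univ_two]
  d_d := barD_barD
  proj _ := proj_free (MonoidHom.id K) Function.injective_id fun _ _ h =>
    mul_eq_right.1 (congrFun h 0)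

end Bar

section Small

variable {K X : Type} [Group K] [TopologicalSpace X] [MulAction K X] [ContinuousConstSMul K X]

variable (K) in
/-- Chains of simplices that lie in a translate of `O`. -/
noncomputable def small (O : Set X) (k : ℕ) : Submodule ℤ (Sing X k →₀ ℤ) :=
  ⨆ h : K, supp ℤ ((h • ·) '' O) k

omit [ContinuousConstSMul K X] in
theorem small_le {O : Set X} {k : ℕ} {M : Type} [AddCommGroup M] (f : (Sing X k →₀ ℤ) →ₗ[ℤ] M)
    (N : Submodule ℤ M) (h : ∀ g : K, ∀ c ∈ supp ℤ ((g • ·) '' O) k, f c ∈ N)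
    {c : Sing X k →₀ ℤ} (hc : c ∈ small K O k) : f c ∈ N :=
  (iSup_le h : small K O k ≤ N.comap f) hc

theorem ecx_small (hX : Acyclic ℤ X) {O : Set X} (hO : IsOpen O)
    (hc : ∀ x : X, ∃ h : K, x ∈ (h • ·) '' O) :
    ECx (fun k => permRep K (Sing X k)) (bd ℤ X) (aug ℤ X)
      fun k => (small K O k).toAddSubgroup := by
  have hU : ∀ h : K, IsOpen ((h • ·) '' O) := fun h => (Homeomorph.smul h).isOpenMap _ hO
  have sm : ∀ (k : ℕ) (b : Sing X k →₀ ℤ), ∃ m, (sdR ℤ X k ^ m) b ∈ small K O k := fun k b => by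
    obtain ⟨m, hm⟩ := sdR_small hU (c := b)
      (mem_supp.2 fun σ _ t => Set.mem_iUnion.2 (hc (σ t)))
    exact ⟨m, hm m le_rfl⟩
  refine ⟨bd_smul K X, fun g c => aug_push ℤ ⟨(g • ·), continuous_const_smul _⟩ c,
    fun k g x hx => ?_, ?_, fun c _ h => ?_, fun k c h1 h => ?_⟩
  · refine small_le (permRep K (Sing X k) g) (small K O k) (fun h c hc => ?_) hx
    refine Submodule.mem_iSup_of_mem (g * h)
      (push_mem_supp ⟨(g • ·), continuous_const_smul _⟩ ?_ hc)
    rintro _ ⟨y, hy, rfl⟩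
    exact ⟨y, hy, mul_smul g h y⟩
  · obtain ⟨x⟩ := hX.nonempty
    obtain ⟨h, hh⟩ := hc x
    exact ⟨single (ContinuousMap.const _ x) 1,
      Submodule.mem_iSup_of_mem h (single_mem_supp _ fun _ => hh), aug_single ℤ _ _⟩
  · obtain ⟨b, rfl⟩ := hX.zero c h
    obtain ⟨m, hm⟩ := sm 1 b
    refine ⟨_, hm, ?_⟩
    rw [bd_sdR_pow]
    have : sdR ℤ X 0 = 1 := LinearMap.ext (sdR_zero ℤ)
    rw [this, one_pow, Module.End.one_apply]
  · obtain ⟨b, hb⟩ := hX.succ k c h
    obtain ⟨m, hm⟩ := sm (k + 2) b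
    refine ⟨_, add_mem hm (small_le (sdHPow ℤ X m (k + 1)) (small K O (k + 2))
      (fun g c hc => Submodule.mem_iSup_of_mem g (sdHPow_mem_supp m hc)) h1), ?_⟩
    rw [map_add, bd_sdR_pow, bd_sdHPow, hb, h, map_zero, sub_zero, add_sub_cancel]

omit [TopologicalSpace X] [ContinuousConstSMul K X] in
theorem exists_eta (hfree : ∀ (g : K) (x : X), g • x = x → g = 1) {O : Set X}
    (hc : ∀ x : X, ∃ h : K, x ∈ (h • ·) '' O) :
    ∃ η : X → K, (∀ (g : K) x, η (g • x) = g * η x) ∧ ∀ x, x ∈ (η x • ·) '' O := by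
  have h1 : ∀ q : MulAction.orbitRel.Quotient K X, ∃ y ∈ O, Quotient.mk _ y = q := fun q => by
    obtain ⟨x, rfl⟩ := Quotient.exists_rep q
    obtain ⟨h, y, hy, rfl⟩ := hc x
    exact ⟨y, hy, (Quotient.sound (s := MulAction.orbitRel K X) (b := y) ⟨h, rfl⟩).symm⟩
  choose y hy hy' using h1
  have h2 : ∀ x : X, ∃ h : K, h • y (Quotient.mk _ x) = x := fun x =>
    Quotient.exact (hy' (Quotient.mk _ x)).symm
  choose η hη using h2
  refine ⟨η, fun g x => ?_, fun x => ⟨_, hy _, hη x⟩⟩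
  have e : (Quotient.mk _ (g • x) : MulAction.orbitRel.Quotient K X) = Quotient.mk _ x :=
    Quotient.sound ⟨g, rfl⟩
  have e1 := hη (g • x)
  rw [e] at e1
  have e2 := hfree ((g * η x)⁻¹ * η (g • x)) (y (Quotient.mk _ x)) (by
    rw [mul_smul, e1, inv_smul_eq_iff, mul_smul, hη])
  exact (inv_mul_eq_one.1 e2).symm

theorem mem_orb {C : Type} [AddCommGroup C] (ρ : Representation ℤ K C) {S : Finset C} (g : K)
    {s c : C} (hs : s ∈ S) (e : c = ρ g s) : c ∈ AddSubgroup.toIntSubmodule (orb ρ S) :=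
  AddSubgroup.subset_closure (k := {c | ∃ g : K, ∃ s ∈ S, c = ρ g s}) ⟨g, s, hs, e⟩

theorem dominated_of_action (hX : Acyclic ℤ X) (hfree : ∀ (g : K) (x : X), g • x = x → g = 1)
    {O : Set X} (hO : IsOpen O) (hc : ∀ x : X, ∃ h : K, x ∈ (h • ·) '' O)
    (hT : {g : K | ((g • ·) '' O ∩ O).Nonempty}.Finite) : Dominated K := by
  classical
  obtain ⟨η, η1, η2⟩ := exists_eta hfree hc
  let w : ∀ k, Sing X k → Fin (k + 1) → K := fun k σ i => η (σ (stdSimplex.vertex i))
  refine dominated_of (ecx_small hX hO hc) (pcx_bar K) (fun k => lmapDomain ℤ ℤ (w k))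
    (fun k g c => ?_) (fun c => ?_) (fun k c => ?_) fun k => ?_
  · induction c using Finsupp.induction_linear with
    | zero => simp
    | add a b ha hb => simp only [map_add, ha, hb]
    | single σ a =>
      simp only [permRep_single, lmapDomain_apply, mapDomain_single]
      exact congrArg (single · a) (funext fun i => η1 g _)
  · induction c using Finsupp.induction_linear with
    | zero => simp
    | add a b ha hb => simp only [map_add, ha, hb]
    | single σ a => rw [lmapDomain_apply, mapDomain_single, barε_single, aug_single]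
  · induction c using Finsupp.induction_linear with
    | zero => simp
    | add a b ha hb => simp only [map_add, ha, hb]
    | single σ a =>
      simp only [bd_single, map_sum, map_zsmul, lmapDomain_apply, mapDomain_single, barD_single]
      refine Finset.sum_congr rfl fun i _ => congrArg (fun x => _ • single x a) (funext fun j => ?_)
      change η (σ _) = η (σ (stdSimplex.map i.succAbove (stdSimplex.vertex j)))
      rw [stdSimplex.map_vertex]
  · refine ⟨(Fintype.piFinset fun _ : Fin (k + 1) => hT.toFinset).image (single · 1),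
      fun c hc => small_le _ (AddSubgroup.toIntSubmodule (orb _ _)) (fun g c hc => ?_) hc⟩
    refine map_supported _ (fun σ hσ => ?_) hc
    refine mem_orb _ g (s := single (g⁻¹ • w k σ) 1)
      (Finset.mem_image_of_mem _ (Fintype.mem_piFinset.2 fun i => hT.mem_toFinset.2 ?_)) ?_
    · obtain ⟨y, hy, e⟩ := hσ ⟨stdSimplex.vertex i, rfl⟩
      obtain ⟨z, hz, e'⟩ := η2 (σ (stdSimplex.vertex i))
      refine ⟨y, ⟨z, hz, ?_⟩, hy⟩
      change (g⁻¹ * η _) • z = y
      rw [mul_smul, inv_smul_eq_iff]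
      exact e'.trans e.symm
    · rw [permRep_single, smul_inv_smul, lmapDomain_apply, mapDomain_single]

end Small

end GP

open GP

variable {M X G : Type} [TopologicalSpace M] [TopologicalSpace X] [Group G] [MulAction G X]
  {p : X → M}

theorem exists_cocompact [T2Space M] [CompactSpace M] (hp : IsQuotientCoveringMap p G) :
    ∃ L : Set X, IsCompact L ∧ ∀ x : X, ∃ g : G, x ∈ (g • ·) '' interior L := by
  choose e he he' using hp.isCoveringMap.isLocalHomeomorph
  let _ : ChartedSpace M X :=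
    { atlas := Set.univ, chartAt := e, mem_chart_source := he, chart_mem_atlas := fun _ => trivial }
  have := ChartedSpace.locallyCompactSpace M X
  choose L h1 h2 using fun x : X => exists_compact_mem_nhds x
  obtain ⟨t, ht⟩ := isCompact_univ.elim_finite_subcover (fun x : X => p '' interior (L x))
    (fun x => hp.isOpenQuotientMap.isOpenMap _ isOpen_interior) fun m _ => by
      obtain ⟨x, rfl⟩ := hp.surjective m
      exact Set.mem_iUnion.2 ⟨x, x, mem_interior_iff_mem_nhds.2 (h2 x), rfl⟩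
  refine ⟨⋃ x ∈ t, L x, t.isCompact_biUnion fun x _ => h1 x, fun x => ?_⟩
  obtain ⟨y, hy, z, hz, e⟩ := Set.mem_iUnion₂.1 (ht (Set.mem_univ (p x)))
  obtain ⟨g, hg⟩ := hp.apply_eq_iff_mem_orbit.1 e.symm
  exact ⟨g, z, interior_mono (Set.subset_biUnion_of_mem (u := L) hy) hz, hg⟩

/-- Finite index subgroups of the deck group of a contractible cover of a compact space have
resolutions of finite type. -/
theorem finRes_of_compact [T2Space M] [CompactSpace M] [ContractibleSpace X]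
    (hp : IsQuotientCoveringMap p G) (H : Subgroup G) [H.FiniteIndex] (m : ℕ) : FinRes H m := by
  have := hp.toContinuousConstSMul
  have : ContinuousConstSMul H X := ⟨fun g => continuous_const_smul (g : G)⟩
  have := hp.isCancelSMul
  obtain ⟨L, hL, hc⟩ := exists_cocompact hp
  let L' : Set X := ⋃ q : G ⧸ H, (q.out⁻¹ • ·) '' L
  have hL' : IsCompact L' := isCompact_iUnion fun q => hL.image (continuous_const_smul _)
  refine finRes_of_dominated (dominated_of_action (O := interior L')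
    (acyclic_of_contractible ℤ X) (fun g x h => ?_) isOpen_interior (fun x => ?_) ?_) m
  · exact Subtype.ext (IsCancelSMul.right_cancel (g : G) 1 x (h.trans (one_smul _ _).symm))
  · obtain ⟨g, y, hy, rfl⟩ := hc x
    obtain ⟨h, hh⟩ := QuotientGroup.mk_out_eq_mul H g⁻¹
    refine ⟨h, (QuotientGroup.mk g⁻¹ : G ⧸ H).out⁻¹ • y, ?_, ?_⟩
    · refine interior_mono (Set.subset_iUnion (fun q : G ⧸ H => (q.out⁻¹ • ·) '' L) (g⁻¹ : G)) ?_
      exact (Homeomorph.smul _).isOpenMap.image_interior_subset L ⟨y, hy, rfl⟩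
    · change (h : G) • _ = g • y
      rw [hh, ← mul_smul]
      simp
  · refine (Set.Finite.preimage (f := (Subtype.val : H → G)) Subtype.val_injective.injOn
      (proper_of_cover hp L' hL')).subset ?_
    rintro g ⟨_, ⟨y, hy, rfl⟩, hz⟩
    exact ⟨_, ⟨y, interior_subset hy, rfl⟩, interior_subset hz⟩

end Pool.Agent.MP_4f4d9f_gt.Sg

end

section

/-! Right-angled Coxeter groups whose Davis complex is a manifold have a hierarchy. -/

namespace Pool.Agent.MP_4f4d9f_gt.Cb

open Sg Db Set MulAction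
open scoped Pointwise

theorem ResLIA.eq_one {K : Type} [Group K] (h : ResLIA K) {g : K} (hg : IsOfFinOrder g) :
    g = 1 := by
  by_contra h1
  obtain ⟨Q, _, φ, h2, h3, -⟩ := h g h1
  obtain ⟨ψ, hψ⟩ := h3 (Subgroup.zpowers (φ g)) ⟨{φ g}, by simp [Subgroup.zpowers_eq_closure]⟩
    (by simpa using h2)
  have : Finite (Subgroup.zpowers (φ g)) := (finite_zpowers.2 (φ.isOfFinOrder hg)).to_subtype
  have := Finite.of_surjective ψ hψ
  exact not_finite (Multiplicative ℤ)

theorem virt_ra {S : Type} [Finite S] {c : S → S → Prop} (hc : ∀ s t, c s t → c t s) :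
    ∃ K : Subgroup (RA c), K.FiniteIndex ∧ ResLIA K := by
  let Γ : SimpleGraph S := ⟨fun s t => s ≠ t ∧ c s t, ⟨fun s t h => ⟨h.1.symm, hc s t h.2⟩⟩,
    ⟨fun s h => h.1 rfl⟩⟩
  refine virt_resLIA_graphProd (Γ := Γ) (GP.isGraphProd_zpowers (gen c) (fun u v h => gen_comm h.2)
    closure_gen fun T _ f h1 h2 => ⟨RA.lift f (fun s => ?_) fun s t h => ?_, RA.lift_gen _ _ _⟩)
    fun v => (finite_zpowers.2 (isOfFinOrder_iff_pow_eq_one.2 ⟨2, two_pos, ?_⟩)).to_subtype
  · rw [← zpow_two]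
    exact h1 s 2 (by rw [zpow_two, gen_sq])
  · by_cases e : s = t
    · rw [e]
    · exact h2 s t ⟨e, h⟩
  · rw [sq, gen_sq]

theorem tor_ra {n k : ℕ} (hk : n < 2 * (k + 1)) {S : Type} [Finite S] {c : S → S → Prop}
    (hc : ∀ s t, c s t → c t s) {C : Set (EuclideanSpace ℝ (Fin n))} (hC : Convex ℝ C)
    (hC' : (interior C).Nonempty) [ChartedSpace C (Cone c)] : Tor (RA c) k := by
  obtain ⟨K, hK, hK'⟩ := virt_ra hc
  let := davChart hc
  have := isClosed_cone (c := c).locallyCompactSpace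
  have := ChartedSpace.locallyCompactSpace (Cone c) (Dav c)
  let := ChartedSpace.comp C (Cone c) (Dav c)
  have : ContinuousConstSMul K (Dav c) := ⟨fun g => continuous_const_smul (g : RA c)⟩
  have : IsCancelSMul K (Dav c) := isCancelSMul_iff_eq_one_of_smul_eq.2 fun g x h => by
    have := (ProperlyDiscontinuousSMul.finite_stabilizer (Γ := K) x).to_subtype
    exact ResLIA.eq_one hK' ((stabilizer K x).subtype.isOfFinOrder
      (isOfFinOrder_of_finite (⟨g, h⟩ : stabilizer K x)))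
  have hp := isQuotientCoveringMap_quotientMk_of_properlyDiscontinuousSMul (G := K) (E := Dav c)
  have : CompactSpace (orbitRel.Quotient K (Dav c)) := ⟨by
    obtain ⟨L, hL, h⟩ := exists_compact hc
    refine (isCompact_iUnion fun q : RA c ⧸ K => (hL.image (continuous_const_smul q.out⁻¹)).image
      hp.continuous).of_isClosed_subset isClosed_univ fun z _ => ?_
    obtain ⟨x, rfl⟩ := hp.surjective z
    obtain ⟨g, hg⟩ := h x
    obtain ⟨k, hk⟩ := QuotientGroup.mk_out_eq_mul K g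
    refine mem_iUnion.2 ⟨(g : RA c ⧸ K), _, ⟨_, hg, rfl⟩, hp.apply_eq_iff_mem_orbit.2 ⟨k⁻¹, ?_⟩⟩
    simp only [hk, mul_inv_rev, mul_smul, inv_smul_smul]
    rfl⟩
  refine tor_index K.subtype K.subtype_injective (by rwa [Subgroup.range_subtype])
    (tor_index (⊤ : Subgroup K).subtype (Subgroup.subtype_injective _)
      (by rw [Subgroup.range_subtype]; infer_instance) ?_)
  intro G' E _ _ _ b ι hι j' hj' C _ ρ d ε R
  exact torsAt_of_resLIA hC hC' hp _ (Subgroup.subtype_injective ⊤) (hK'.subgroup ⊤)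
    (finRes_of_compact hp ⊤ _) hk b ι hι j' hj' R

theorem fp_finite (K : Type) [Group K] [Finite K] (m : ℕ) : FP K m := by
  have := GP.finite_trivial (K := K)
  obtain ⟨P, h0, hs⟩ := GP.exists_res
    (ModuleCat.of (MonoidAlgebra ℤ K) (Representation.trivial ℤ K ℤ).asModule)
  have : IsNoetherianRing (MonoidAlgebra ℤ K) := isNoetherian_of_tower ℤ inferInstance
  refine ⟨P, fun j hj => ?_⟩
  clear hj
  induction j with
  | zero => exact h0
  | succ j ih => exact hs j (IsNoetherian.noetherian _)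

section Refl

variable {G V : Type} [Group G] [MulAction G V] {T : SimpleGraph V}

/-- The action of the stabiliser of a vertex on its neighbours. -/
@[reducible] def nbAct (adj : ∀ (g : G) v w, T.Adj v w → T.Adj (g • v) (g • w)) (v : V) :
    MulAction (stabilizer G v) (T.neighborSet v) where
  smul a w := ⟨a.1 • w.1, by have := adj a.1 v w.1 w.2; rwa [a.2] at this⟩
  one_smul w := Subtype.ext (one_smul G w.1)
  mul_smul a a' w := Subtype.ext (mul_smul a.1 a'.1 w.1)

theorem refl_index (adj : ∀ (g : G) v w, T.Adj v w → T.Adj (g • v) (g • w)) (v : V)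
    [Finite (stabilizer G v)] : ∃ j : RA (Sq T v) →* ReflC G T v, Function.Injective j ∧
      j.range.FiniteIndex := by
  let := nbAct adj v
  have hs : ∀ (a : stabilizer G v) s t, Sq T v s t → Sq T v (a • s) (a • t) :=
    fun a s t ⟨x, h1, h2, h3⟩ => ⟨a.1 • x, fun e => h1 (MulAction.injective a.1 (e.trans a.2.symm)),
      adj _ _ _ h2, adj _ _ _ h3⟩
  have rel : ∀ {r}, r ∈ cubeRel G T v → PresentedGroup.mk (cubeRel G T v) r = 1 :=
    PresentedGroup.one_of_mem
  let j : RA (Sq T v) →* ReflC G T v := RA.lift (fun w => PresentedGroup.of (.inr w))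
    (fun w => rel (r := .of (.inr w) * .of (.inr w)) (.inr (.inl ⟨w, rfl⟩))) fun w w' h =>
      commutatorElement_eq_one_iff_commute.1 (rel (.inr (.inr (.inr ⟨w, w', h, rfl⟩))))
  have hj : ∀ w, j (gen _ w) = PresentedGroup.of (.inr w) := RA.lift_gen _ _ _
  let i : stabilizer G v →* ReflC G T v := MonoidHom.mk' (fun a => PresentedGroup.of (.inl a))
    fun a b => (mul_inv_eq_one.1 (rel (.inl ⟨a, b, rfl⟩))).symm
  have hi : ∀ a x, j (raAut hs a x) = i a * j x * (i a)⁻¹ := fun a => DFunLike.congr_fun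
    (RA.hom_ext (f := j.comp (raAut hs a).toMonoidHom)
      (g := (MulAut.conj (i a)).toMonoidHom.comp j) fun w => by
        change j (raAut hs a (gen _ w)) = i a * j (gen _ w) * (i a)⁻¹
        rw [raAut_gen, hj, hj]
        exact (mul_inv_eq_one.1 (rel (.inr (.inr (.inl ⟨a, w, a • w, rfl, rfl⟩))))).symm)
  let φ : ReflC G T v →* RA (Sq T v) ⋊[raAut hs] stabilizer G v := PresentedGroup.toGroup
    (f := Sum.elim SemidirectProduct.inr fun w => SemidirectProduct.inl (gen _ w)) (by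
      rintro r (⟨a, b, rfl⟩ | ⟨w, rfl⟩ | ⟨a, w, w', e, rfl⟩ | ⟨w, w', h, rfl⟩)
      · simp
      · simp only [map_mul, FreeGroup.lift_apply_of, Sum.elim_inr]
        rw [← map_mul, gen_sq, map_one]
      · obtain rfl : a • w = w' := Subtype.ext e
        simp only [map_mul, map_inv, FreeGroup.lift_apply_of, Sum.elim_inl, Sum.elim_inr]
        rw [← raAut_gen hs, SemidirectProduct.inl_aut, map_inv, mul_inv_cancel]
      · simp only [map_mul, map_inv, FreeGroup.lift_apply_of, Sum.elim_inr]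
        exact commutatorElement_eq_one_iff_commute.2 ((gen_comm (c := Sq T v) h).map _))
  have h1 : φ.comp j = SemidirectProduct.inl := RA.hom_ext fun w => by
    rw [MonoidHom.comp_apply, hj]
    exact PresentedGroup.toGroup.of _
  refine ⟨j, Function.Injective.of_comp (f := φ) ?_, ?_⟩
  · rw [← MonoidHom.coe_comp, h1]
    exact SemidirectProduct.inl_injective
  · have h2 : ∀ y : ReflC G T v, ∃ a x, y = i a * j x := fun y => by
      refine Subgroup.closure_induction_left (p := fun y _ => ∃ a x, y = i a * j x)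
        ⟨1, 1, by simp⟩ ?_ ?_ (show y ∈ Subgroup.closure (range PresentedGroup.of) by
          rw [PresentedGroup.closure_range_of]; trivial)
      · rintro _ ⟨a | w, rfl⟩ _ - ⟨b, x, rfl⟩
        · exact ⟨a * b, x, by rw [map_mul, mul_assoc]; rfl⟩
        · exact ⟨b, raAut hs b⁻¹ (gen _ w) * x, by rw [map_mul, hi, hj, map_inv]; group⟩
      · rintro _ ⟨a | w, rfl⟩ _ - ⟨b, x, rfl⟩
        · exact ⟨a⁻¹ * b, x, by rw [map_mul, map_inv, mul_assoc]; rfl⟩
        · exact ⟨b, raAut hs b⁻¹ (gen _ w)⁻¹ * x, by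
            rw [map_mul, hi, map_inv j, hj, map_inv]; group⟩
    have : Finite (ReflC G T v ⧸ j.range) := Finite.of_surjective (fun a => (i a : _ ⧸ j.range))
      fun q => by
        obtain ⟨y, rfl⟩ := QuotientGroup.mk_surjective q
        obtain ⟨a, x, rfl⟩ := h2 y
        exact ⟨a, (QuotientGroup.mk_mul_of_mem _ (show j x ∈ j.range from ⟨x, rfl⟩)).symm⟩
    exact Subgroup.finiteIndex_of_finite_quotient

theorem cube_finite {S : Set V} (h : IsCube T S) : S.Finite ∧ S.Nonempty := by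
  obtain ⟨a, b, -, e⟩ := h
  have : S.ncard ≠ 0 := by rw [e]; positivity
  exact ⟨finite_of_ncard_ne_zero this, nonempty_of_ncard_ne_zero this⟩

theorem finite_trans (st : ∀ v : V, Finite (stabilizer G v)) (v : V) {S : Set V} (hS : S.Finite) :
    {g : G | g • v ∈ S}.Finite := by
  refine (hS.biUnion (t := fun w => {g : G | g • v = w}) fun w _ => ?_).subset fun g hg =>
    mem_biUnion hg rfl
  rcases eq_empty_or_nonempty {g : G | g • v = w} with h | ⟨g, hg⟩
  · rw [h]
    exact finite_empty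
  · refine (finite_range fun a : stabilizer G v => g * a.1).subset fun g' hg' => ⟨⟨g⁻¹ * g', ?_⟩, by simp⟩
    rw [mem_stabilizer_iff, mul_smul, show g' • v = w from hg', ← show g • v = w from hg,
      inv_smul_smul]

theorem finite_stab (st : ∀ v : V, Finite (stabilizer G v)) {S : Set V} (h : IsCube T S) :
    Finite (stabilizer G S) := by
  obtain ⟨h1, v, hv⟩ := cube_finite h
  exact ((finite_trans st v h1).subset fun g (hg : g • S = S) => by
    rw [mem_ofPred_eq, ← hg]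
    exact smul_mem_smul_set hv).to_subtype

theorem finite_nb (hT : IsMedian T) {SS : Finset (Set V)}
    (fin : ∀ S, IsCube T S → ∃ g : G, g • S ∈ SS)
    (st : ∀ v : V, Finite (stabilizer G v)) (v : V) : Finite (T.neighborSet v) := by
  have hS : (⋃ S ∈ {S ∈ (SS : Set (Set V)) | S.Finite}, S).Finite :=
    (SS.finite_toSet.subset fun _ h => h.1).biUnion fun _ h => h.2
  refine (((finite_trans st v hS).prod hS).image fun z => z.1⁻¹ • z.2).subset fun w hw => ?_
  have h1 : Itv T v w = {v, w} := by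
    ext x
    rw [Itv, mem_ofPred_eq, SimpleGraph.dist_eq_one_iff_adj.2 hw, mem_insert_iff, mem_singleton_iff]
    have h2 := hT.1.dist_eq_zero_iff (u := v) (v := x)
    have h3 := hT.1.dist_eq_zero_iff (u := x) (v := w)
    constructor
    · intro h
      rw [eq_comm, ← h2, ← h3]
      omega
    · rintro (rfl | rfl) <;> simp [SimpleGraph.dist_eq_one_iff_adj.2 hw]
  obtain ⟨g, hg⟩ := fin {v, w} ⟨v, w, h1.symm, by
    rw [SimpleGraph.dist_eq_one_iff_adj.2 hw, ncard_pair (T.ne_of_adj hw), pow_one]⟩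
  have h4 : g • ({v, w} : Set V) ⊆ ⋃ S ∈ {S ∈ (SS : Set (Set V)) | S.Finite}, S :=
    subset_biUnion_of_mem (u := id) ⟨hg, (toFinite _).smul_set⟩
  exact ⟨(g, g • w), ⟨h4 (smul_mem_smul_set (by simp)), h4 (smul_mem_smul_set (by simp))⟩,
    inv_smul_smul g w⟩

end Refl

end Pool.Agent.MP_4f4d9f_gt.Cb

end

section

/-! Vanishing above the middle dimension for groups with a cubical hierarchy. -/

open scoped Pointwise

namespace Pool.Agent.MP_4f4d9f_gt.Cb

open Sg Db

/-- The doubling rule for actions on median graphs. -/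
def CubeRule : Prop :=
  ∀ (G V : Type) [Group G] [MulAction G V] (T : SimpleGraph V), IsMedian T →
    (∀ (g : G) v w, T.Adj v w → T.Adj (g • v) (g • w)) → ∀ SS : Finset (Set V),
    (∀ S, IsCube T S → ∃ g : G, g • S ∈ SS) → ∀ k : ℕ,
    (∀ S, IsCube T S → FP (MulAction.stabilizer G S) (k + 2)) →
    (∀ v, Tor (ReflC G T v) k) → Tor G k

theorem tor_of_hierC (hR : CubeRule) {n k : ℕ} (hk : n < 2 * (k + 1)) {G : Type} [Group G]
    (h : HierC n (k + 1) G) : Tor G k := by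
  induction h with
  | leaf hC hC' hp h₁ h₂ =>
    intro G' E _ _ _ b ι hι j' hj' C _ ρ d ε R
    exact torsAt_of_resLIA hC hC' hp (MonoidHom.id _) Function.injective_id h₁ h₂ hk b ι hι j' hj' R
  | index j hj hf _ ih => exact tor_index j hj hf ih
  | union K hK _ ih => exact tor_union K hK ih
  | cube T hT adj SS fin fp _ ih => exact hR _ _ T hT adj SS fin k fp ih
  | mfd T hT adj SS fin st hC hC' =>
    refine hR _ _ T hT adj SS fin k (fun S hS => ?_) fun v => ?_
    · have := finite_stab st hS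
      exact fp_finite _ _
    · have := finite_nb hT fin st v
      obtain ⟨j, h1, h2⟩ := refl_index adj v
      exact tor_index j h1 h2 (tor_ra hk (fun _ _ ⟨x, h1, h2, h3⟩ => ⟨x, h1, h3, h2⟩) hC hC')

theorem main_hierC (hR : CubeRule) {n : ℕ} {M : Type} [TopologicalSpace M] [T2Space M]
    {X : Type} [TopologicalSpace X] [ContractibleSpace X]
    {G : Type} [Group G] [MulAction G X] [ContinuousConstSMul G X]
    {p : X → M} (hp : IsQuotientCoveringMap p G)
    (H : Subgroup G) (hH : Folner G (G ⧸ H)) (k : ℕ) (hK : HierC n (k + 1) H)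
    {E : Type} [NormedAddCommGroup E] [InnerProductSpace ℂ E]
    (b : HilbertBasis G ℂ E) (ι : G →* vnAlg b) (hι : ∀ g h, (ι g).1 (b h) = b (g * h))
    (hk : n < 2 * (k + 1)) : bettiSucc b ι X k = 0 :=
  bettiSucc_eq_zero_of_folner_tors hι hH hp
    (tor_of_hierC hR hk hK G E b ι hι H.subtype H.subtype_injective _ _ _ _
      (isRes_sing hp _ H.subtype_injective))

end Pool.Agent.MP_4f4d9f_gt.Cb

end

section

/-! The cubical doubling rule. -/

namespace Pool.Agent.MP_4f4d9f_gt.Cb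

theorem cube_rule : CubeRule := fun _ _ _ _ T hT adj SS fin _ fp h =>
  tor_cube_of core_stmt med_stmt (root_stmt (pos_stmt cyl_stmt) cube_stmt)
    (un_stmt (ex_stmt rel_stmt) avg_stmt) avg_stmt resN_stmt (br_stmt dictN_stmt matN_stmt op_stmt)
    tp_stmt htO_stmt htM_stmt mir_stmt ext_stmt T hT adj SS fin fp h

end Pool.Agent.MP_4f4d9f_gt.Cb

end
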