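import Pool.Agent.Mg.F4f4d9fr.G55b66f
import Pool.Agent.MP_4f4d9f_gt.P3Iface
import Pool.Agent.MP_4f4d9f_gt.Transfer

set_option linter.all false

/-! Transfer from a co-amenable subgroup. -/

open scoped InnerProductSpace

namespace Pool.Agent.MP_4f4d9f_gt

namespace Amen

open Classical in
lemma regroup {I K M : Type} [Fintype I] [AddCommMonoid M] (p : I → K) (g : I → K → M)
    (h : ∀ k, ∑ i with p i = k, g i k = 0) : ∑ i, g i (p i) = 0 := by
  rw [← Finset.sum_fiberwise_of_maps_to (s := Finset.univ) (t := Finset.univ.image p) (g := p)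
    (fun i _ => Finset.mem_image_of_mem p (Finset.mem_univ i))]
  refine Finset.sum_eq_zero fun k _ => ?_
  rw [← h k]
  exact Finset.sum_congr rfl fun i hi => by rw [(Finset.mem_filter.1 hi).2]

variable {G N : Type} [Group G] [Ring N] (ι : G →* N)

lemma exists_family {C R : Type} [AddCommGroup C] [Fintype R] {ρ : Representation ℤ G C}
    (z : R → Tens ι ρ) : ∃ (S : Finset C) (X : Matrix R S N),
      ∀ i, z i = ∑ l : S, X i l • Tens.of ι ρ l.1 := by
  classical
  have h : ∀ x : Tens ι ρ, ∃ a : C →₀ N, (a.sum fun c s => s • Tens.of ι ρ c) = x := by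
    intro x
    rw [← Finsupp.mem_span_range_iff_exists_finsupp]
    induction x using Tens.induction with
    | h0 => exact zero_mem _
    | hadd x y hx hy => exact add_mem hx hy
    | h1 a c => exact Submodule.smul_mem _ _ (Submodule.subset_span ⟨c, rfl⟩)
  choose a ha using h
  refine ⟨Finset.univ.biUnion fun i => (a (z i)).support, fun i l => a (z i) l.1, fun i => ?_⟩
  rw [Finset.sum_coe_sort _ (fun c => a (z i) c • Tens.of ι ρ c)]
  conv_lhs => rw [← ha (z i)]
  exact Finsupp.sum_of_support_subset _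
    (Finset.subset_biUnion_of_mem (fun i => (a (z i)).support) (Finset.mem_univ i)) _
    (fun c _ => zero_smul _ _)

lemma exists_rep {B : Type} [MulAction G B] (hfree : ∀ (g : G) (x : B), g • x = x → g = 1) :
    ∃ (rep : B → B) (γ : B → G), (∀ t, γ t • rep t = t) ∧ (∀ (g : G) t, rep (g • t) = rep t) ∧
      ∀ (g : G) t, γ (g • t) = g * γ t := by
  let r := MulAction.orbitRel G B
  have hrep : ∀ t : B, ∃ g : G, g • (Quotient.mk r t).out = t := fun t =>
    r.symm (Quotient.mk_out (s := r) t)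
  choose γ hγ using hrep
  have hmk : ∀ (g : G) (t : B), Quotient.mk r (g • t) = Quotient.mk r t := fun g t =>
    Quotient.sound ⟨g, rfl⟩
  refine ⟨fun t => (Quotient.mk r t).out, γ, hγ, fun g t => by simp only [hmk], fun g t => ?_⟩
  have e := hγ (g • t)
  rw [hmk] at e
  have e2 : ((g * γ t)⁻¹ * γ (g • t)) • (Quotient.mk r t).out = (Quotient.mk r t).out := by
    rw [mul_smul, e, inv_smul_eq_iff, mul_smul, hγ]
  have e3 := hfree _ _ e2
  rw [inv_mul_eq_one] at e3
  exact e3.symm

open Classical in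
lemma exists_coord {B : Type} [MulAction G B] (rep : B → B) (γ : B → G)
    (h1 : ∀ (g : G) t, rep (g • t) = rep t) (h2 : ∀ (g : G) t, γ (g • t) = g * γ t) (j : B) :
    ∃ φ : Tens ι (permRep G B) →ₗ[N] N, ∀ t,
      φ (Tens.of ι _ (Finsupp.single t 1)) = if rep t = j then ι (γ t) else 0 := by
  refine ⟨Tens.lift ι (Finsupp.linearCombination ℤ fun t => if rep t = j then ι (γ t) else 0)
    fun g c => ?_, fun t => by rw [Tens.lift_of]; simp⟩
  induction c using Finsupp.induction_linear with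
  | zero => simp
  | add a b ha hb => simp only [map_add, ha, hb, smul_add]
  | single t a =>
    simp only [permRep_single, Finsupp.linearCombination_single, h1, h2, map_mul, smul_eq_mul]
    split_ifs
    · rw [mul_smul_comm]
    · simp

lemma eq_sum_single {B : Type} (T : Finset B) (x : B →₀ ℤ) (hx : x.support ⊆ T) :
    x = ∑ t : T, x t.1 • Finsupp.single t.1 (1 : ℤ) := by
  rw [Finset.sum_coe_sort _ (fun t => x t • Finsupp.single t (1 : ℤ))]
  conv_lhs => rw [← Finsupp.sum_single x]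
  rw [Finsupp.sum_of_support_subset _ hx _ (fun c _ => Finsupp.single_zero c)]
  exact Finset.sum_congr rfl fun t _ => by simp

lemma mem_out (H : Subgroup G) (g : G) (q : G ⧸ H) : q.out⁻¹ * g * (g⁻¹ • q).out ∈ H := by
  have e : (QuotientGroup.mk (g⁻¹ * q.out) : G ⧸ H) = QuotientGroup.mk (g⁻¹ • q).out := by
    rw [QuotientGroup.out_eq', ← smul_eq_mul, MulAction.Quotient.mk_smul_out]
  simpa [mul_assoc] using QuotientGroup.eq.1 e

open Classical in
theorem exists_data (H : Subgroup G)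
    {C₂ C₁ B : Type} [AddCommGroup C₂] [AddCommGroup C₁] [MulAction G B]
    (hfree : ∀ (g : G) (x : B), g • x = x → g = 1)
    {ρ₂ : Representation ℤ G C₂} {ρ₁ : Representation ℤ G C₁}
    (e : C₂ →ₗ[ℤ] C₁) (he : ∀ g c, e (ρ₂ g c) = ρ₁ g (e c))
    (f : C₁ →ₗ[ℤ] (B →₀ ℤ)) (hf : ∀ g c, f (ρ₁ g c) = permRep G B g (f c))
    (hex : ∀ z : Tens (ι.comp H.subtype) (ρ₁.comp H.subtype),
      tensMap (ρ' := (permRep G B).comp H.subtype) (ι.comp H.subtype) f (fun g => hf g) z = 0 →
      ∃ w : Tens (ι.comp H.subtype) (ρ₂.comp H.subtype),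
        tensMap (ι.comp H.subtype) e (fun g => he g) w = z)
    {R : Type} [Fintype R] (A : Matrix R R N) (hA : A * A = A) (z : R → Tens ι ρ₁)
    (hz : ∀ i, tensMap ι f hf (z i) = 0)
    (hv : ∀ x : R → N, (∃ w, tensMap ι e he w = ∑ i, x i • z i) → Matrix.vecMul x A = 0) :
    ∃ (S : Finset C₁) (T J : Finset B) (κ : T → J) (γ : T → G) (d : S → T → ℤ)
      (X : Matrix R S N), A * X = X ∧
      (∀ i j, ∑ l, ∑ t with κ t = j, d l t • (X i l * ι (γ t)) = 0) ∧
      ∀ (F : Finset (G ⧸ H)) (y : S → F → N),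
        (∀ (j : J) (q' : G ⧸ H), ∑ l, ∑ q : F, ∑ t with κ t = j ∧ (γ t)⁻¹ • q.1 = q',
          d l t • (y l q * ι (q.1.out⁻¹ * γ t * q'.out)) = 0) →
        ∀ u : R → N, (∀ l, ∑ i, u i * X i l + ∑ q : F, y l q * ι q.1.out⁻¹ = 0) →
          Matrix.vecMul u A = 0 := by
  obtain ⟨S, X0, hX0⟩ := exists_family ι z
  obtain ⟨rep, γ, hγ, h1, h2⟩ := exists_rep hfree
  let T : Finset B := Finset.univ.biUnion fun l : S => (f l.1).support
  have hT : ∀ l : S, f l.1 = ∑ t : T, f l.1 t.1 • Finsupp.single t.1 (1 : ℤ) := fun l =>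
    eq_sum_single T _
      (Finset.subset_biUnion_of_mem (fun l : S => (f l.1).support) (Finset.mem_univ l))
  have hAX : ∀ i, ∑ l : S, (A * X0) i l • Tens.of ι ρ₁ l.1 = ∑ k, A i k • z k := by
    intro i
    simp only [Matrix.mul_apply, Finset.sum_smul, hX0, Finset.smul_sum, mul_smul]
    exact Finset.sum_comm
  refine ⟨S, T, T.image rep, fun t => ⟨rep t.1, Finset.mem_image_of_mem rep t.2⟩,
    fun t => γ t.1, fun l t => f l.1 t.1, A * X0, by rw [← Matrix.mul_assoc, hA], ?_, ?_⟩
  · intro i j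
    obtain ⟨φ, hφ⟩ := exists_coord ι rep γ h1 h2 j.1
    have h0 : φ (tensMap ι f hf (∑ l : S, (A * X0) i l • Tens.of ι ρ₁ l.1)) = 0 := by
      rw [hAX]
      simp [hz]
    rw [← h0, map_sum, map_sum]
    refine Finset.sum_congr rfl fun l _ => ?_
    rw [map_smul, map_smul, Tens.map_of]
    conv_rhs => rw [hT l]
    rw [map_sum, map_sum, Finset.smul_sum, Finset.sum_filter]
    refine Finset.sum_congr rfl fun t _ => ?_
    rw [map_zsmul, map_zsmul, hφ]
    simp only [Subtype.ext_iff]
    split_ifs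
    · rw [smul_eq_mul, mul_smul_comm]
    · simp
  · intro F y hy u hu
    let zh : Tens (ι.comp H.subtype) (ρ₁.comp H.subtype) :=
      ∑ l : S, ∑ q : F, y l q • Tens.of _ _ (ρ₁ q.1.out⁻¹ l.1)
    have hzh : tensMap (ρ' := (permRep G B).comp H.subtype) (ι.comp H.subtype) f
        (fun g => hf g) zh = 0 := by
      let W : T.image rep × (G ⧸ H) → Tens (ι.comp H.subtype) ((permRep G B).comp H.subtype) :=
        fun k => Tens.of _ _ (Finsupp.single (k.2.out⁻¹ • k.1.1) 1)
      have := regroup (I := S × F × T)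
        (fun i => ((⟨rep i.2.2.1, Finset.mem_image_of_mem rep i.2.2.2⟩ : T.image rep),
          (γ i.2.2.1)⁻¹ • i.2.1.1))
        (fun i k => (f i.1.1 i.2.2.1 •
          (y i.1 i.2.1 * ι (i.2.1.1.out⁻¹ * γ i.2.2.1 * k.2.out))) • W k) (fun k => by
          rw [← Finset.sum_smul]
          have e1 := hy k.1 k.2
          simp only [Finset.sum_filter] at e1
          simp only [Finset.sum_filter, Fintype.sum_prod_type, Prod.ext_iff]
          rw [e1, zero_smul])
      rw [← this]
      simp only [zh, map_sum, map_smul, Fintype.sum_prod_type]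
      refine Finset.sum_congr rfl fun l _ => Finset.sum_congr rfl fun q _ => ?_
      rw [Tens.map_of, hf]
      conv_lhs => rw [hT l]
      rw [map_sum, map_sum, Finset.smul_sum]
      refine Finset.sum_congr rfl fun t _ => ?_
      have e2 := Tens.of_rep (ι.comp H.subtype) ((permRep G B).comp H.subtype)
        ⟨_, mem_out H (γ t.1) q.1⟩
        (Finsupp.single (((γ t.1)⁻¹ • q.1).out⁻¹ • rep t.1) 1)
      simp only [MonoidHom.comp_apply, Subgroup.subtype_apply, permRep_single, smul_smul,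
        mul_inv_cancel_right] at e2
      rw [mul_smul, hγ] at e2
      rw [map_zsmul, map_zsmul, permRep_single, e2, smul_assoc, mul_smul, smul_comm]
    obtain ⟨w, hw⟩ := hex zh hzh
    have e2 : tensMap ι e he ∘ₗ projH ι H ρ₂ =
        projH ι H ρ₁ ∘ₗ tensMap (ι.comp H.subtype) e (fun g => he g) :=
      Tens.hom_ext _ fun c => by
        simp only [LinearMap.comp_apply, projH, Tens.lift_of, Tens.map_of]
    have e3 : projH ι H ρ₁ zh = ∑ l : S, (∑ q : F, y l q * ι q.1.out⁻¹) • Tens.of ι ρ₁ l.1 := by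
      simp only [zh, map_sum, map_smul, projH, Tens.lift_of, Tens.of_rep, Finset.sum_smul,
        mul_smul]
    have e4 : ∑ k, Matrix.vecMul u A k • z k =
        ∑ l : S, (∑ i, u i * (A * X0) i l) • Tens.of ι ρ₁ l.1 := by
      simp only [Finset.sum_smul, mul_smul]
      rw [Finset.sum_comm]
      simp only [← Finset.smul_sum, hAX]
      simp only [Finset.smul_sum, Matrix.vecMul, dotProduct, Finset.sum_smul, mul_smul]
      exact Finset.sum_comm
    have e5 := hv (Matrix.vecMul u A) ⟨-projH ι H ρ₂ w, by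
      rw [map_neg, ← LinearMap.comp_apply, e2, LinearMap.comp_apply, hw, e3, e4,
        ← Finset.sum_neg_distrib]
      refine Finset.sum_congr rfl fun l _ => ?_
      rw [← neg_smul, eq_neg_of_add_eq_zero_left (hu l)]⟩
    rwa [Matrix.vecMul_vecMul, hA] at e5

end Amen

theorem homDim_eq_zero_of_folner {G E : Type} [Group G] [NormedAddCommGroup E]
    [InnerProductSpace ℂ E] {b : HilbertBasis G ℂ E} {ι : G →* vnAlg b}
    (hι : ∀ g h, (ι g).1 (b h) = b (g * h)) {H : Subgroup G} (hH : Folner G (G ⧸ H))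
    {C₂ C₁ B : Type} [AddCommGroup C₂] [AddCommGroup C₁] [MulAction G B]
    (hfree : ∀ (g : G) (x : B), g • x = x → g = 1)
    {ρ₂ : Representation ℤ G C₂} {ρ₁ : Representation ℤ G C₁}
    (e : C₂ →ₗ[ℤ] C₁) (he : ∀ g c, e (ρ₂ g c) = ρ₁ g (e c))
    (f : C₁ →ₗ[ℤ] (B →₀ ℤ)) (hf : ∀ g c, f (ρ₁ g c) = permRep G B g (f c))
    (hex : ∀ z : Tens (ι.comp H.subtype) (ρ₁.comp H.subtype),
      tensMap (ρ' := (permRep G B).comp H.subtype) (ι.comp H.subtype) f (fun g => hf g) z = 0 →
      ∃ w : Tens (ι.comp H.subtype) (ρ₂.comp H.subtype),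
        tensMap (ι.comp H.subtype) e (fun g => he g) w = z) :
    homDim (fun a : vnAlg b => ⟪b 1, a.1 (b 1)⟫_ℂ) (tensMap ι e he) (tensMap ι f hf) = 0 := by
  classical
  simp only [homDim, trDim, ENNReal.iSup_eq_zero, ENNReal.ofReal_eq_zero]
  intro r A hA v hv
  choose z hz using fun i => Submodule.Quotient.mk_surjective _ (v i)
  obtain ⟨S, T, J, κ, γ, d, X, hX, hD, hst⟩ := Amen.exists_data ι H hfree e he f hf hex A hA
    (fun i => (z i).1) (fun i => (z i).2) (fun x hx => by
      refine (hv x).1 ?_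
      obtain ⟨w, hw⟩ := hx
      have e1 : ∑ i, x i • v i = Submodule.Quotient.mk (∑ i, x i • z i) := by
        rw [← Submodule.mkQ_apply, map_sum]
        exact Finset.sum_congr rfl fun i _ => by rw [map_smul, Submodule.mkQ_apply, hz]
      rw [e1, Submodule.Quotient.mk_eq_zero]
      exact ⟨w, by simpa using hw⟩)
  exact re_trace_nonpos hι hH κ γ d A hA X hX (by convert hD) (by convert hst)

end Pool.Agent.MP_4f4d9f_gt
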