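import Mathlib
import Pool.Agent.MP_4f4d9f_gt.Sg.Defs
import Pool.Agent.MP_4f4d9f_gt.Transfer

set_option linter.all false

section

/-! A well ordered cancellative monoid of complexities with a map `eW` that behaves like
`a ↦ ω ^ (a + 1)` for natural sums. -/

namespace Pool.Agent.MP_4f4d9f_gt.Sg

/-- The monoid of complexities. -/
abbrev W : Type 1 := Colex (Ordinal.{0} →₀ ℕ)

theorem W.lt_single {a : W} {z : Ordinal.{0}} :
    a < toColex (Finsupp.single z 1) ↔ ∀ x, z ≤ x → ofColex a x = 0 := by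
  rw [Finsupp.Colex.lt_iff]
  constructor
  · rintro ⟨i, h1, h2⟩ x hx
    simp only [ofColex_toColex] at h1 h2
    have hi : i = z := by
      by_contra h
      rw [Finsupp.single_eq_of_ne h] at h2
      exact Nat.not_lt_zero _ h2
    subst hi
    rcases hx.eq_or_lt with rfl | hx
    · simpa using h2
    · rw [h1 x hx, Finsupp.single_eq_of_ne hx.ne']
  · intro h
    refine ⟨z, fun j hj => ?_, ?_⟩
    · rw [h j hj.le, ofColex_toColex, Finsupp.single_eq_of_ne hj.ne']
    · simp [h z le_rfl]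

theorem W.exists_lt_single (a : W) : ∃ z, a < toColex (Finsupp.single z 1) := by
  obtain ⟨z, hz⟩ := (ofColex a).support.finite_toSet.bddAbove
  refine ⟨z + 1, W.lt_single.2 fun x hx => ?_⟩
  by_contra h
  have := hz (Finsupp.mem_support_iff.2 h)
  exact absurd (hx.trans this) (by simp)

instance W.small (a : W) : Small.{0} (Set.Iio a) := by
  obtain ⟨z, hz⟩ := W.exists_lt_single a
  refine small_of_injective (β := Set.Iio z → ℕ) (f := fun b x => ofColex b.1 x.1) ?_
  intro b c h
  refine Subtype.ext (ofColex.injective (Finsupp.ext fun x => ?_))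
  rcases lt_or_ge x z with hx | hx
  · exact congrFun h ⟨x, hx⟩
  · rw [W.lt_single.1 (b.2.trans hz) x hx, W.lt_single.1 (c.2.trans hz) x hx]

/-- The rank of a complexity. -/
noncomputable def W.rk : W → Ordinal.{0} :=
  (wellFounded_lt (α := W)).fix fun a f => ⨆ b : Set.Iio a, f b.1 b.2 + 1

theorem W.rk_eq (a : W) : W.rk a = ⨆ b : Set.Iio a, W.rk b.1 + 1 := by
  rw [W.rk, WellFounded.fix_eq]

theorem W.rk_strictMono : StrictMono W.rk := fun a b h => by
  rw [W.rk_eq b]
  exact lt_of_lt_of_le (lt_add_one _)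
    (Ordinal.le_iSup (fun c : Set.Iio b => W.rk c.1 + 1) ⟨a, h⟩)

/-- The complexity of an inverse. -/
noncomputable def eW (a : W) : W := toColex (Finsupp.single (W.rk a + 1) 1)

theorem W.nonneg (a : W) : 0 ≤ a := zero_le

theorem eW_pos (a : W) : 0 < eW a := W.lt_single.2 fun _ _ => rfl

theorem eW_strictMono : StrictMono eW := fun _ _ h =>
  Finsupp.Colex.single_strictMono (by simpa using W.rk_strictMono h)

theorem add_lt_eW {a b c : W} (ha : a < eW c) (hb : b < eW c) : a + b < eW c :=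
  W.lt_single.2 fun x hx => by
    have : ofColex (a + b) x = ofColex a x + ofColex b x := rfl
    rw [this, W.lt_single.1 ha x hx, W.lt_single.1 hb x hx]

theorem lt_eW (a : W) : a < eW a := by
  refine W.lt_single.2 fun x hx => ?_
  by_contra h
  have h1 : toColex (Finsupp.single x 1) ≤ a := by
    by_contra h2
    exact h (W.lt_single.1 (not_le.1 h2) x le_rfl)
  have h2 : StrictMono fun y : Ordinal.{0} => W.rk (toColex (Finsupp.single y 1)) :=
    W.rk_strictMono.comp Finsupp.Colex.single_strictMono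
  have h3 := (h2.le_apply (x := x)).trans (W.rk_strictMono.monotone h1)
  exact absurd (hx.trans h3) (by simp)

theorem sum_lt_eW {c : W} (s : Multiset W) (h : ∀ a ∈ s, a < eW c) : s.sum < eW c := by
  induction s using Multiset.induction_on with
  | empty => exact eW_pos c
  | cons a s ih =>
    rw [Multiset.sum_cons]
    exact add_lt_eW (h a (Multiset.mem_cons_self a s))
      (ih fun b hb => h b (Multiset.mem_cons_of_mem hb))

end Pool.Agent.MP_4f4d9f_gt.Sg

end

section

/-! Interface, part B: Hughes-free division rings and flatness of `D ⊗ D`. -/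

open scoped TensorProduct

namespace Pool.Agent.MP_4f4d9f_gt.Sg

section Tens

variable {G N : Type} [Group G] [Ring N] (ι : G →* N) {C : Type} [AddCommGroup C]

/-- The additive universal property of `N ⊗_{ℤG} C`. -/
noncomputable def liftAdd {ρ : Representation ℤ G C} {Q : Type} [AddCommGroup Q]
    (β : N →+ C →+ Q) (h : ∀ a g c, β (a * ι g) c = β a (ρ g c)) : Tens ι ρ →+ Q :=
  QuotientAddGroup.lift (tensRel ι ρ).toAddSubgroup
    (TensorProduct.liftAddHom (R := ℤ) β fun m a c => by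
      rw [map_zsmul, map_zsmul, AddMonoidHom.zsmul_apply]) (by
      intro x hx
      have key : ∀ y ∈ tensRel ι ρ, ∀ r : N,
          TensorProduct.liftAddHom (R := ℤ) β (fun m a c => by
            rw [map_zsmul, map_zsmul, AddMonoidHom.zsmul_apply]) (r • y) = 0 := by
        intro y hy
        induction hy using Submodule.span_induction with
        | mem y hy =>
          obtain ⟨a, g, c, rfl⟩ := hy
          intro r
          simp [smul_sub, TensorProduct.smul_tmul', ← mul_assoc, h]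
        | zero => simp
        | add y z _ _ hy hz => intro r; rw [smul_add, map_add, hy, hz, add_zero]
        | smul s y _ hy => intro r; rw [← mul_smul, hy]
      simpa using key x hx 1)

theorem liftAdd_smul_of {ρ : Representation ℤ G C} {Q : Type} [AddCommGroup Q]
    (β : N →+ C →+ Q) (h : ∀ a g c, β (a * ι g) c = β a (ρ g c)) (a : N) (c : C) :
    liftAdd ι β h (a • Tens.of ι ρ c) = β a c := by
  rw [Tens.smul_of]
  exact TensorProduct.liftAddHom_tmul (R := ℤ) β (fun m a c => by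
    rw [map_zsmul, map_zsmul, AddMonoidHom.zsmul_apply]) a c

/-- The action of `G` on the `𝔽₂`-vector space with basis a `G`-set `B`. -/
noncomputable def perm2 (G B : Type) [Group G] [MulAction G B] :
    Representation ℤ G (B →₀ ZMod 2) where
  toFun g := Finsupp.lmapDomain (ZMod 2) ℤ (g • ·)
  map_one' := by ext; simp
  map_mul' g h := by ext; simp [mul_smul]

theorem perm2_single {B : Type} [MulAction G B] (g : G) (b : B) (a : ZMod 2) :
    perm2 G B g (Finsupp.single b a) = Finsupp.single (g • b) a := by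
  simp [perm2]

end Tens

section DD

/-- The ring `D ⊗ D` (a type synonym; use only the lemmas below). -/
def DD (D : Type) [Ring D] : Type := D ⊗[ℤ] D

variable {D : Type} [Ring D]

set_option warn.classDefReducibility false in
/-- The ring structure. -/
noncomputable def ddRing (D : Type) [Ring D] : Ring (DD D) :=
  Algebra.TensorProduct.instRing (R := ℤ) (A := D) (B := D)

noncomputable instance : Ring (DD D) := ddRing D

/-- Pure tensors. -/
noncomputable def tm (d d' : D) : DD D := d ⊗ₜ[ℤ] d'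

theorem tm_mul (a b c d : D) : tm a b * tm c d = tm (a * c) (b * d) :=
  Algebra.TensorProduct.tmul_mul_tmul (R := ℤ) a c b d

theorem tm_one : tm (1 : D) 1 = 1 := rfl

theorem tm_add_left (a b c : D) : tm (a + b) c = tm a c + tm b c := TensorProduct.add_tmul a b c

theorem tm_add_right (a b c : D) : tm a (b + c) = tm a b + tm a c := TensorProduct.tmul_add a b c

theorem tm_zero_left (a : D) : tm 0 a = 0 := TensorProduct.zero_tmul (R := ℤ) D a

theorem tm_zero_right (a : D) : tm a 0 = 0 := TensorProduct.tmul_zero (R := ℤ) D a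

theorem DD_induction {P : DD D → Prop} (h0 : P 0) (hadd : ∀ x y, P x → P y → P (x + y))
    (h1 : ∀ d d', P (tm d d')) (z : DD D) : P z :=
  TensorProduct.induction_on (R := ℤ) (M := D) (N := D) (motive := P) z h0 h1 hadd

/-- Pure tensors as a biadditive map. -/
noncomputable def tmHom : D →+ D →+ DD D :=
  AddMonoidHom.mk' (fun d => AddMonoidHom.mk' (tm d) (tm_add_right d)) fun a b =>
    AddMonoidHom.ext fun c => tm_add_left a b c

theorem tmHom_apply (d d' : D) : tmHom d d' = tm d d' := rfl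

/-- The universal property of `D ⊗ D`. -/
noncomputable def liftDD {Q : Type} [AddCommGroup Q] (β : D →+ D →+ Q) : DD D →+ Q :=
  TensorProduct.liftAddHom (R := ℤ) β fun m a c => by
    rw [map_zsmul, map_zsmul, AddMonoidHom.zsmul_apply]

theorem liftDD_tm {Q : Type} [AddCommGroup Q] (β : D →+ D →+ Q) (d d' : D) :
    liftDD β (tm d d') = β d d' :=
  TensorProduct.liftAddHom_tmul (R := ℤ) β (fun m a c => by
    rw [map_zsmul, map_zsmul, AddMonoidHom.zsmul_apply]) d d'

/-- The swap of the two factors. -/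
noncomputable def sw : DD D →+* DD D :=
  (Algebra.TensorProduct.comm ℤ D D).toRingEquiv.toRingHom

theorem sw_tm (d d' : D) : sw (tm d d') = tm d' d := rfl

end DD

variable {G D : Type} [Group G] [DivisionRing D] (ι : G →* D)

/-- The division closure of a subgroup. -/
def dcl (K : Subgroup G) : Subfield D := Subfield.closure (ι '' K)

/-- A degree function on `H` with kernel `N` and an element `t` of degree one whose powers are
left linearly independent over the division closure of `N`. -/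
structure Grad (H N : Subgroup G) (deg : G → ℤ) (t : G) : Prop where
  mul : ∀ a ∈ H, ∀ b ∈ H, deg (a * b) = deg a + deg b
  mem : ∀ g, g ∈ N ↔ g ∈ H ∧ deg g = 0
  tmem : t ∈ H
  tdeg : deg t = 1
  ind : ∀ c : ℤ →₀ D, (∀ i, c i ∈ dcl ι N) → (c.sum fun i u => u * ι (t ^ i)) = 0 → c = 0

/-- Weakly Hughes-free. -/
def WHF : Prop :=
  ∀ S : Finset G, Subgroup.closure (S : Set G) ≠ ⊥ →
    ∃ (N : Subgroup G) (deg : G → ℤ) (t : G), Grad ι (Subgroup.closure (S : Set G)) N deg t

/-- The twisted Laurent polynomials `D_N[t, t⁻¹]`. -/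
def poly (H N : Subgroup G) : AddSubgroup D :=
  AddSubgroup.closure {d | ∃ u ∈ dcl ι N, ∃ h ∈ H, d = u * ι h}

/-- Homogeneous components of the Laurent expansion in `D_N((t))`, extended to `D`. -/
structure Expn (H N : Subgroup G) (deg : G → ℤ) (p : ℤ → D →+ D) : Prop where
  shift : ∀ h ∈ H, ∀ a d, p a (d * ι h) = p (a - deg h) d * ι h
  low : ∀ d, ∃ a₀, ∀ a < a₀, p a d = 0
  hom : ∀ u ∈ dcl ι N, ∀ a, p a u = if a = 0 then u else 0
  left : ∀ u ∈ dcl ι N, ∀ h ∈ H, ∀ d ∈ dcl ι H, ∀ a,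
    p a (u * ι h * d) = u * ι h * p (a - deg h) d
  filt : ∀ d ∈ dcl ι H, ∀ e ∈ dcl ι H, ∀ a b, (∀ i < a, p i d = 0) → (∀ i < b, p i e = 0) →
    ∀ i < a + b, p i (d * e) = 0
  sep : ∀ d ∈ dcl ι H, (∀ i, p i d = 0) → d = 0

/-- The left Ore condition and common denominators. -/
structure OreD (H N : Subgroup G) : Prop where
  ore : ∀ a ∈ poly ι H N, ∀ b ∈ poly ι H N, b ≠ 0 →
    ∃ s ∈ poly ι H N, ∃ x ∈ poly ι H N, s ≠ 0 ∧ s * a = x * b
  den : ∀ T : Finset D, (∀ d ∈ T, d ∈ dcl ι H) →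
    ∃ s ∈ poly ι H N, s ≠ 0 ∧ ∀ d ∈ T, s * d ∈ poly ι H N

/-- Monomials: complexity, pure part, unit. -/
abbrev Mon (G D : Type) : Type 1 := W × D × G

/-- The weight of a sum of monomials. -/
noncomputable def wt (L : Multiset (Mon G D)) : W := (L.map fun x => eW x.1).sum

/-- The value of a sum of monomials. -/
def val (L : Multiset (Mon G D)) : D := (L.map fun x => x.2.1 * ι x.2.2).sum

/-- Products of inverses of normalised sums of monomials with letters in `S`. -/
inductive Pure (S : Set G) : W → D → Prop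
  | one : Pure S 0 1
  | mul (L : Multiset (Mon G D)) (hL : ∀ x ∈ L, Pure S x.1 x.2.1) (hS : ∀ x ∈ L, x.2.2 ∈ S)
      (h1 : ∃ x ∈ L, x.2.2 = 1) {γ : W} {π : D} (h : Pure S γ π) :
      Pure S (eW (wt L) + γ) ((val ι L)⁻¹ * π)

/-- Right cosets of `H` are left linearly independent over the division closure of `H`. -/
def SHF : Prop :=
  ∀ (H : Subgroup G) (T : Finset G) (d : G → D), (∀ τ ∈ T, d τ ∈ dcl ι H) →
    (∀ τ ∈ T, ∀ τ' ∈ T, τ * τ'⁻¹ ∈ H → τ = τ') → ∑ τ ∈ T, d τ * ι τ = 0 → ∀ τ ∈ T, d τ = 0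

/-- The diagonal map to `D ⊗ D`. -/
noncomputable def dg : G →* DD D where
  toFun g := tm (ι g) (ι g)
  map_one' := by rw [map_one, tm_one]
  map_mul' g h := by rw [map_mul, tm_mul]

theorem dg_apply (g : G) : dg ι g = tm (ι g) (ι g) := rfl

/-- The group D ⊗ D tensored with `C` over `H`. -/
abbrev TH (H : Subgroup G) {C : Type} [AddCommGroup C] (ρ : Representation ℤ G C) : Type :=
  Tens ((dg ι).comp H.subtype) (ρ.comp H.subtype)

/-- The generators of D ⊗ D tensored with `C` over `H`. -/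
noncomputable def el (H : Subgroup G) {C : Type} [AddCommGroup C] (ρ : Representation ℤ G C)
    (d d' : D) (c : C) : TH ι H ρ :=
  tm d d' • Tens.of ((dg ι).comp H.subtype) (ρ.comp H.subtype) c

/-- The map induced by an equivariant map. -/
noncomputable def mapH (H : Subgroup G) {C C' : Type} [AddCommGroup C] [AddCommGroup C']
    {ρ : Representation ℤ G C} {ρ' : Representation ℤ G C'} (f : C →ₗ[ℤ] C')
    (hf : Eqv ρ ρ' f) : TH ι H ρ →ₗ[DD D] TH ι H ρ' :=
  Tens.map (ρ := ρ.comp H.subtype) (ρ' := ρ'.comp H.subtype) ((dg ι).comp H.subtype) f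
    fun g c => hf g c

/-- The part of D ⊗ D tensored with `C` over `H` spanned by elements with coefficients in `D_H`. -/
noncomputable def small (H : Subgroup G) {C : Type} [AddCommGroup C] (ρ : Representation ℤ G C) :
    AddSubgroup (TH ι H ρ) :=
  AddSubgroup.closure {z | ∃ d ∈ dcl ι H, ∃ d' ∈ dcl ι H, ∃ c, z = el ι H ρ d d' c}

/-- The coefficient maps. -/
structure Kap (H N : Subgroup G) (deg : G → ℤ) (p q : ℤ → D →+ D) {C : Type} [AddCommGroup C]
    (ρ : Representation ℤ G C) (κ : ℤ → TH ι H ρ →+ TH ι N ρ) : Prop where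
  cont : ∀ k d d' c, ∃ A : ℤ, ∀ e e', (∀ a < A, p a d = p a e) → (∀ a < A, q a d' = q a e') →
    κ k (el ι H ρ d d' c) = κ k (el ι H ρ e e' c)
  hom : ∀ k, ∀ u ∈ dcl ι N, ∀ g ∈ H, ∀ u' ∈ dcl ι N, ∀ g' ∈ H, ∀ c,
    κ k (el ι H ρ (u * ι g) (u' * ι g') c) =
      if deg g - deg g' = k then el ι N ρ u (u' * ι (g' * g⁻¹)) (ρ g c) else 0
  inj : ∀ z ∈ small ι H ρ, (∀ k, κ k z = 0) → z = 0

/-- `D ⊗ D` preserves injections into free modules. -/
def FlatInj : Prop :=
  ∀ (C B : Type) [AddCommGroup C] [MulAction G B] (ρ : Representation ℤ G C),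
    (∀ (g : G) (b : B), g • b = b → g = 1) →
    ∀ (f : C →ₗ[ℤ] (B →₀ ZMod 2)) (hf : Eqv ρ (perm2 G B) f), Function.Injective f →
      Function.Injective (Tens.map (dg ι) f hf)

/-- `D ⊗ D` preserves kernels of maps into free modules. -/
def Flat : Prop :=
  ∀ (C B : Type) [AddCommGroup C] [MulAction G B] (ρ : Representation ℤ G C),
    (∀ (g : G) (b : B), g • b = b → g = 1) →
    ∀ (f : C →ₗ[ℤ] (B →₀ ZMod 2)) (hf : Eqv ρ (perm2 G B) f) (z : Tens (dg ι) ρ),
      Tens.map (dg ι) f hf z = 0 →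
      z ∈ Submodule.span (DD D) {w | ∃ c, f c = 0 ∧ w = Tens.of (dg ι) ρ c}

/-! ### Statements -/

/-- Job `Ore`. -/
def OreStmt : Prop :=
  ∀ (G D : Type) [Group G] [DivisionRing D] (ι : G →* D) (H N : Subgroup G) (deg : G → ℤ) (t : G),
    Grad ι H N deg t → OreD ι H N

/-- Job `Expn`. -/
def ExpnStmt : Prop :=
  ∀ (G D : Type) [Group G] [DivisionRing D] (ι : G →* D) (H N : Subgroup G) (deg : G → ℤ) (t : G),
    Grad ι H N deg t → OreD ι H N → ∃ p, Expn ι H N deg p

/-- Job `Expand`. -/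
def ExpandStmt : Prop :=
  ∀ (G D : Type) [Group G] [DivisionRing D] [CharP D 2] (ι : G →* D) (H N : Subgroup G)
    (deg : G → ℤ) (t : G) (p : ℤ → D →+ D), Grad ι H N deg t → Expn ι H N deg p →
    ∀ (S : Set G), S ⊆ H → ∀ (α : W) (π : D), Pure ι S α π →
      Pure ι (S ∩ N) α π ∨ ∀ A : ℤ, ∃ L : Multiset (Mon G D),
        (∀ x ∈ L, x.1 < α ∧ Pure ι (Subgroup.closure S ⊓ N : Subgroup G) x.1 x.2.1 ∧
          x.2.2 ∈ Subgroup.closure S) ∧ ∀ i < A, p i π = p i (val ι L)

/-- Job `Coset`. -/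
def CosetStmt : Prop :=
  ∀ (G D : Type) [Group G] [DivisionRing D] [CharP D 2] (ι : G →* D), WHF ι → SHF ι

/-- Job `ProjInj`. -/
def ProjInjStmt : Prop :=
  ∀ (G D : Type) [Group G] [DivisionRing D] (ι : G →* D), SHF ι →
    ∀ (B : Type) [MulAction G B], (∀ (g : G) (b : B), g • b = b → g = 1) →
    ∀ (H : Subgroup G), ∀ z ∈ small ι H (perm2 G B), projH (dg ι) H (perm2 G B) z = 0 → z = 0

/-- Job `Kappa`. -/
def KappaStmt : Prop :=
  ∀ (G D : Type) [Group G] [DivisionRing D] (ι : G →* D) (H N : Subgroup G) (deg : G → ℤ) (t : G)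
    (p q : ℤ → D →+ D), Grad ι H N deg t → OreD ι H N → Expn ι H N deg p →
    Expn ι H N (fun g => -deg g) q →
    ∀ (C C' : Type) [AddCommGroup C] [AddCommGroup C'] (ρ : Representation ℤ G C)
      (ρ' : Representation ℤ G C') (f : C →ₗ[ℤ] C') (hf : Eqv ρ ρ' f),
      ∃ (κ : ℤ → TH ι H ρ →+ TH ι N ρ) (κ' : ℤ → TH ι H ρ' →+ TH ι N ρ'),
        Kap ι H N deg p q ρ κ ∧ ∀ k z, κ' k (mapH ι H f hf z) = mapH ι N f hf (κ k z)

/-- Job `FlatInj`. -/
def FlatInjStmt : Prop :=
  ∀ (G D : Type) [Group G] [DivisionRing D] [CharP D 2] (ι : G →* D), WHF ι → dcl ι ⊤ = ⊤ →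
    FlatInj ι

/-- Job `Flat`. -/
def FlatStmt : Prop :=
  ∀ (G D : Type) [Group G] [DivisionRing D] (ι : G →* D), FlatInj ι → Flat ι

end Pool.Agent.MP_4f4d9f_gt.Sg

end

section

/-! Basic lemmas on gradings, monomials and pure products. -/

open scoped TensorProduct

namespace Pool.Agent.MP_4f4d9f_gt.Sg

set_option linter.unusedSectionVars false

variable {G D : Type} [Group G] [DivisionRing D] {ι : G →* D}

theorem iota_ne_zero (ι : G →* D) (g : G) : ι g ≠ 0 := fun h => by
  have : ι g * ι g⁻¹ = 1 := by rw [← map_mul, mul_inv_cancel, map_one]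
  rw [h, zero_mul] at this
  exact zero_ne_one this

theorem iota_inv (ι : G →* D) (g : G) : ι g⁻¹ = (ι g)⁻¹ :=
  eq_inv_of_mul_eq_one_left (by rw [← map_mul, inv_mul_cancel, map_one])

theorem iota_mem {K : Subgroup G} {g : G} (hg : g ∈ K) : ι g ∈ dcl ι K :=
  Subfield.subset_closure ⟨g, hg, rfl⟩

theorem dcl_mono {K K' : Subgroup G} (h : K ≤ K') : dcl ι K ≤ dcl ι K' :=
  Subfield.closure_mono (Set.image_mono h)

theorem conj_mem_dcl {K : Subgroup G} {g : G} (hg : ∀ k ∈ K, g * k * g⁻¹ ∈ K) {u : D}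
    (hu : u ∈ dcl ι K) : ι g * u * ι g⁻¹ ∈ dcl ι K := by
  have e : ι g⁻¹ * ι g = 1 := by rw [← map_mul, inv_mul_cancel, map_one]
  have e' : ι g * ι g⁻¹ = 1 := by rw [← map_mul, mul_inv_cancel, map_one]
  induction hu using Subfield.closure_induction with
  | mem x hx =>
    obtain ⟨k, hk, rfl⟩ := hx
    rw [← map_mul, ← map_mul]
    exact iota_mem (hg k hk)
  | one => rw [mul_one, e']; exact one_mem _
  | add x y _ _ hx hy => rw [mul_add, add_mul]; exact add_mem hx hy
  | neg x _ hx => rw [mul_neg, neg_mul]; exact neg_mem hx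
  | inv x _ hx =>
    have : ι g * x⁻¹ * ι g⁻¹ = (ι g * x * ι g⁻¹)⁻¹ := by
      rw [mul_inv_rev, mul_inv_rev, iota_inv, inv_inv, mul_assoc]
    rw [this]
    exact inv_mem hx
  | mul x y _ _ hx hy =>
    have : ι g * (x * y) * ι g⁻¹ = (ι g * x * ι g⁻¹) * (ι g * y * ι g⁻¹) := by
      simp only [mul_assoc]
      rw [← mul_assoc (ι g⁻¹) (ι g), e, one_mul]
    rw [this]
    exact mul_mem hx hy

namespace Grad

variable {H N : Subgroup G} {deg : G → ℤ} {t : G}

theorem le (h : Grad ι H N deg t) : N ≤ H := fun g hg => ((h.mem g).1 hg).1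

theorem one (h : Grad ι H N deg t) : deg 1 = 0 := ((h.mem 1).1 N.one_mem).2

theorem inv (h : Grad ι H N deg t) {g : G} (hg : g ∈ H) : deg g⁻¹ = -deg g := by
  have := h.mul g hg g⁻¹ (inv_mem hg)
  rw [mul_inv_cancel, h.one] at this
  omega

theorem zpow (h : Grad ι H N deg t) (i : ℤ) : deg (t ^ i) = i := by
  induction i using Int.induction_on with
  | zero => simpa using h.one
  | succ i ih => rw [zpow_add_one, h.mul _ (zpow_mem h.tmem _) _ h.tmem, ih, h.tdeg]
  | pred i ih =>
    rw [zpow_sub_one, h.mul _ (zpow_mem h.tmem _) _ (inv_mem h.tmem), ih, h.inv h.tmem, h.tdeg]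
    ring

theorem conj (h : Grad ι H N deg t) {g : G} (hg : g ∈ H) {k : G} (hk : k ∈ N) :
    g * k * g⁻¹ ∈ N := by
  have hk' := (h.mem k).1 hk
  refine (h.mem _).2 ⟨mul_mem (mul_mem hg hk'.1) (inv_mem hg), ?_⟩
  rw [h.mul _ (mul_mem hg hk'.1) _ (inv_mem hg), h.mul _ hg _ hk'.1, h.inv hg, hk'.2]
  ring

theorem conj_dcl (h : Grad ι H N deg t) {g : G} (hg : g ∈ H) {u : D} (hu : u ∈ dcl ι N) :
    ι g * u * ι g⁻¹ ∈ dcl ι N :=
  conj_mem_dcl (fun _ hk => h.conj hg hk) hu

theorem mul_inv_mem (h : Grad ι H N deg t) {g g' : G} (hg : g ∈ H) (hg' : g' ∈ H)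
    (e : deg g = deg g') : g * g'⁻¹ ∈ N :=
  (h.mem _).2 ⟨mul_mem hg (inv_mem hg'), by rw [h.mul _ hg _ (inv_mem hg'), h.inv hg', e]; ring⟩

theorem neg (h : Grad ι H N deg t) : Grad ι H N (fun g => -deg g) t⁻¹ where
  mul a ha b hb := by rw [h.mul a ha b hb]; ring
  mem g := by rw [h.mem, neg_eq_zero]
  tmem := inv_mem h.tmem
  tdeg := by rw [h.inv h.tmem, h.tdeg]; rfl
  ind c hc e := by
    have := h.ind (c.equivMapDomain (Equiv.neg ℤ)) (fun i => hc _) (by
      rw [Finsupp.sum_equivMapDomain]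
      simpa using e)
    exact (Finsupp.equivCongrLeft (Equiv.neg ℤ)).injective (by simpa using this)

/-- Some generator has nonzero degree. -/
theorem exists_not_mem {S : Set G} (h : Grad ι (Subgroup.closure S) N deg t) :
    ∃ s ∈ S, s ∉ N := by
  by_contra hc
  push Not at hc
  have := ((h.mem t).1 ((Subgroup.closure_le N).2 hc h.tmem)).2
  rw [h.tdeg] at this
  exact one_ne_zero this

end Grad

theorem wt_zero : wt (0 : Multiset (Mon G D)) = 0 := rfl

theorem wt_add (L L' : Multiset (Mon G D)) : wt (L + L') = wt L + wt L' := by simp [wt]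

theorem wt_cons (x : Mon G D) (L : Multiset (Mon G D)) : wt (x ::ₘ L) = eW x.1 + wt L := by
  simp [wt]

theorem wt_singleton (x : Mon G D) : wt ({x} : Multiset (Mon G D)) = eW x.1 := by simp [wt]

theorem wt_mono {L L' : Multiset (Mon G D)} (h : L ≤ L') : wt L ≤ wt L' := by
  obtain ⟨M, rfl⟩ := Multiset.le_iff_exists_add.1 h
  rw [wt_add]
  exact le_add_of_nonneg_right (W.nonneg _)

theorem lt_wt {L : Multiset (Mon G D)} {x : Mon G D} (hx : x ∈ L) : x.1 < wt L :=
  (lt_eW _).trans_le (by rw [← wt_singleton]; exact wt_mono (Multiset.singleton_le.2 hx))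

theorem wt_lt {L : Multiset (Mon G D)} {α : W} (h : ∀ x ∈ L, x.1 < α) : wt L < eW α :=
  sum_lt_eW _ fun a ha => by
    obtain ⟨x, hx, rfl⟩ := Multiset.mem_map.1 ha
    exact eW_strictMono (h x hx)

theorem wt_map {L : Multiset (Mon G D)} {f : Mon G D → Mon G D} (h : ∀ x ∈ L, (f x).1 = x.1) :
    wt (L.map f) = wt L := by
  rw [wt, wt, Multiset.map_map]
  exact congrArg _ (Multiset.map_congr rfl fun x hx => by rw [Function.comp_apply, h x hx])

theorem val_zero : val ι (0 : Multiset (Mon G D)) = 0 := rfl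

theorem val_add (L L' : Multiset (Mon G D)) : val ι (L + L') = val ι L + val ι L' := by simp [val]

theorem val_cons (x : Mon G D) (L : Multiset (Mon G D)) :
    val ι (x ::ₘ L) = x.2.1 * ι x.2.2 + val ι L := by simp [val]

theorem val_singleton (x : Mon G D) : val ι ({x} : Multiset (Mon G D)) = x.2.1 * ι x.2.2 := by
  simp [val]

/-- Right multiplication of the units. -/
def shiftM (g : G) (L : Multiset (Mon G D)) : Multiset (Mon G D) :=
  L.map fun x => (x.1, x.2.1, x.2.2 * g)

theorem val_shiftM (g : G) (L : Multiset (Mon G D)) : val ι (shiftM g L) = val ι L * ι g := by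
  simp [val, shiftM, ← Multiset.sum_map_mul_right, mul_assoc]

theorem wt_shiftM (g : G) (L : Multiset (Mon G D)) : wt (shiftM g L) = wt L :=
  wt_map fun _ _ => rfl

/-- The product of two monomials. -/
noncomputable def mulM (ι : G →* D) (x y : Mon G D) : Mon G D :=
  (x.1 + y.1, x.2.1 * (ι x.2.2 * y.2.1 * ι x.2.2⁻¹), x.2.2 * y.2.2)

theorem mulM_val (x y : Mon G D) :
    (mulM ι x y).2.1 * ι (mulM ι x y).2.2 = x.2.1 * ι x.2.2 * (y.2.1 * ι y.2.2) := by
  simp only [mulM, map_mul, mul_assoc]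
  rw [← mul_assoc (ι x.2.2⁻¹), ← map_mul, inv_mul_cancel, map_one, one_mul]

/-- The product of two sums of monomials. -/
noncomputable def prodM (ι : G →* D) (L L' : Multiset (Mon G D)) : Multiset (Mon G D) :=
  L.bind fun x => L'.map (mulM ι x)

theorem mem_prodM {L L' : Multiset (Mon G D)} {z : Mon G D} :
    z ∈ prodM ι L L' ↔ ∃ x ∈ L, ∃ y ∈ L', mulM ι x y = z := by
  simp [prodM]

theorem val_prodM (L L' : Multiset (Mon G D)) : val ι (prodM ι L L') = val ι L * val ι L' := by
  induction L using Multiset.induction_on with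
  | empty => simp [prodM, val]
  | cons x L ih =>
    rw [prodM, Multiset.cons_bind, val_add, val_cons, add_mul, ← ih]
    congr 1
    simp only [val, Multiset.map_map, Function.comp_def, mulM_val, Multiset.sum_map_mul_left]

namespace Pure

variable {S S' : Set G} {α β : W} {π π' : D}

theorem mono (h : Pure ι S α π) (hS : S ⊆ S') : Pure ι S' α π := by
  induction h with
  | one => exact .one
  | mul L _ h1 h2 _ ih1 ih2 => exact .mul L ih1 (fun x hx => hS (h1 x hx)) h2 ih2

theorem mul' (h : Pure ι S α π) (h' : Pure ι S β π') : Pure ι S (α + β) (π * π') := by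
  induction h with
  | one => rwa [zero_add, one_mul]
  | mul L h0 h1 h2 _ _ ih2 =>
    rw [add_assoc, mul_assoc]
    exact .mul L h0 h1 h2 ih2

theorem conj (h : Pure ι S α π) (g : G) (hS : ∀ s ∈ S, g * s * g⁻¹ ∈ S') :
    Pure ι S' α (ι g * π * ι g⁻¹) := by
  have e : ι g⁻¹ * ι g = 1 := by rw [← map_mul, inv_mul_cancel, map_one]
  induction h with
  | one =>
    rw [mul_one, ← map_mul, mul_inv_cancel, map_one]
    exact .one
  | @mul L _ h1 h2 γ π _ ih1 ih2 =>
    have := Pure.mul (ι := ι) (S := S')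
      (L.map fun x => (x.1, ι g * x.2.1 * ι g⁻¹, g * x.2.2 * g⁻¹))
      (fun x hx => by
        obtain ⟨y, hy, rfl⟩ := Multiset.mem_map.1 hx
        exact ih1 y hy)
      (fun x hx => by
        obtain ⟨y, hy, rfl⟩ := Multiset.mem_map.1 hx
        exact hS _ (h1 y hy))
      (by
        obtain ⟨y, hy, e⟩ := h2
        exact ⟨_, Multiset.mem_map_of_mem _ hy, by simp [e]⟩) ih2
    rw [wt_map (f := fun x => (x.1, ι g * x.2.1 * ι g⁻¹, g * x.2.2 * g⁻¹)) fun _ _ => rfl] at this
    convert this using 1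
    have e2 : val ι (L.map fun x => (x.1, ι g * x.2.1 * ι g⁻¹, g * x.2.2 * g⁻¹)) =
        ι g * val ι L * ι g⁻¹ := by
      simp only [val, Multiset.map_map, Function.comp_def, map_mul, ← Multiset.sum_map_mul_left,
        ← Multiset.sum_map_mul_right, mul_assoc]
      refine congrArg _ (Multiset.map_congr rfl fun x _ => ?_)
      rw [← mul_assoc (ι g⁻¹) (ι g), e, one_mul]
    rw [e2, mul_inv_rev, mul_inv_rev, iota_inv, inv_inv]
    simp only [mul_assoc]
    rw [inv_mul_cancel_left₀ (iota_ne_zero ι g)]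

theorem mem {K : Subgroup G} (h : Pure ι S α π) (hS : S ⊆ K) : π ∈ dcl ι K := by
  induction h with
  | one => exact one_mem _
  | mul L _ h1 _ _ ih1 ih2 =>
    refine mul_mem (inv_mem (multiset_sum_mem _ fun a ha => ?_)) ih2
    obtain ⟨x, hx, rfl⟩ := Multiset.mem_map.1 ha
    exact mul_mem (ih1 x hx) (iota_mem (hS (h1 x hx)))

theorem fin (h : Pure ι S α π) : ∃ T : Finset G, (T : Set G) ⊆ S ∧ Pure ι T α π := by
  classical
  induction h with
  | one => exact ⟨∅, by simp, .one⟩
  | mul L _ h1 h2 _ ih1 ih2 =>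
    choose! T hT hT' using ih1
    obtain ⟨T₀, hT₀, hT₀'⟩ := ih2
    refine ⟨T₀ ∪ L.toFinset.biUnion fun x => insert x.2.2 (T x), ?_, ?_⟩
    · intro s hs
      simp only [Finset.coe_union, Finset.coe_biUnion, Set.mem_union, Set.mem_iUnion,
        Finset.mem_coe, Multiset.mem_toFinset, Finset.mem_insert] at hs
      rcases hs with hs | ⟨x, hx, rfl | hs⟩
      · exact hT₀ hs
      · exact h1 x hx
      · exact hT x hx hs
    · refine .mul L (fun x hx => (hT' x hx).mono fun s hs => ?_) (fun x hx => ?_) h2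
        (hT₀'.mono (by simp))
      · simp only [Finset.coe_union, Finset.coe_biUnion, Set.mem_union, Set.mem_iUnion,
          Finset.mem_coe, Multiset.mem_toFinset, Finset.mem_insert]
        exact Or.inr ⟨x, hx, Or.inr hs⟩
      · simp only [Finset.coe_union, Finset.coe_biUnion, Set.mem_union, Set.mem_iUnion,
          Finset.mem_coe, Multiset.mem_toFinset, Finset.mem_insert]
        exact Or.inr ⟨x, hx, Or.inl rfl⟩

end Pure

theorem val_mem {K : Subgroup G} {L : Multiset (Mon G D)}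
    (h : ∀ x ∈ L, x.2.1 ∈ dcl ι K ∧ x.2.2 ∈ K) : val ι L ∈ dcl ι K :=
  multiset_sum_mem _ fun a ha => by
    obtain ⟨x, hx, rfl⟩ := Multiset.mem_map.1 ha
    exact mul_mem (h x hx).1 (iota_mem (h x hx).2)

/-- The inverse of a sum of monomials is a monomial. Here `K'` is normalised by `g`. -/
theorem inv_val {K' : Subgroup G} {L : Multiset (Mon G D)} {x₀ : Mon G D} (hx₀ : x₀ ∈ L)
    (h : ∀ x ∈ L, Pure ι K' x.1 x.2.1 ∧ x.2.2 * x₀.2.2⁻¹ ∈ K')
    (hn : ∀ k ∈ K', x₀.2.2⁻¹ * k * x₀.2.2⁻¹⁻¹ ∈ K') :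
    ∃ π, Pure ι K' (eW (wt L)) π ∧ (val ι L)⁻¹ = π * ι x₀.2.2⁻¹ := by
  have h1 := Pure.mul (ι := ι) (S := K') (shiftM x₀.2.2⁻¹ L)
    (fun x hx => by
      obtain ⟨y, hy, rfl⟩ := Multiset.mem_map.1 hx
      exact (h y hy).1)
    (fun x hx => by
      obtain ⟨y, hy, rfl⟩ := Multiset.mem_map.1 hx
      exact (h y hy).2)
    ⟨_, Multiset.mem_map_of_mem _ hx₀, mul_inv_cancel _⟩ .one
  rw [add_zero, mul_one, wt_shiftM, val_shiftM] at h1
  refine ⟨_, h1.conj x₀.2.2⁻¹ hn, ?_⟩
  have := iota_ne_zero ι x₀.2.2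
  simp only [inv_inv, iota_inv, mul_inv_rev, mul_assoc, mul_inv_cancel₀ this, mul_one,
    inv_mul_cancel_left₀ this]

/-- Every element of the division closure is a sum of monomials. -/
theorem exists_val [CharP D 2] {K : Subgroup G} {d : D} (hd : d ∈ dcl ι K) :
    ∃ L : Multiset (Mon G D), (∀ x ∈ L, Pure ι K x.1 x.2.1 ∧ x.2.2 ∈ K) ∧ val ι L = d := by
  induction hd using Subfield.closure_induction with
  | mem x hx =>
    obtain ⟨k, hk, rfl⟩ := hx
    refine ⟨{(0, 1, k)}, fun x hx => ?_, by simp [val]⟩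
    rw [Multiset.mem_singleton.1 hx]
    exact ⟨.one, hk⟩
  | one =>
    refine ⟨{(0, 1, 1)}, fun x hx => ?_, by simp [val]⟩
    rw [Multiset.mem_singleton.1 hx]
    exact ⟨.one, K.one_mem⟩
  | add x y _ _ hx hy =>
    obtain ⟨L, hL, rfl⟩ := hx
    obtain ⟨L', hL', rfl⟩ := hy
    exact ⟨L + L', fun x hx => (Multiset.mem_add.1 hx).elim (hL x) (hL' x), val_add _ _⟩
  | neg x _ hx => rwa [CharTwo.neg_eq]
  | inv x _ hx =>
    obtain ⟨L, hL, rfl⟩ := hx
    rcases L.empty_or_exists_mem with rfl | ⟨x₀, hx₀⟩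
    · exact ⟨0, by simp, by simp [val]⟩
    · have h0 := (hL x₀ hx₀).2
      obtain ⟨π, h1, h2⟩ := inv_val (K' := K) hx₀
        (fun x hx => ⟨(hL x hx).1, mul_mem (hL x hx).2 (inv_mem h0)⟩)
        fun k hk => mul_mem (mul_mem (inv_mem h0) hk) (inv_mem (inv_mem h0))
      refine ⟨{(eW (wt L), π, x₀.2.2⁻¹)}, fun x hx => ?_, by rw [val_singleton, h2]⟩
      rw [Multiset.mem_singleton.1 hx]
      exact ⟨h1, inv_mem h0⟩
  | mul x y _ _ hx hy =>
    obtain ⟨L, hL, rfl⟩ := hx
    obtain ⟨L', hL', rfl⟩ := hy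
    refine ⟨prodM ι L L', fun z hz => ?_, val_prodM _ _⟩
    obtain ⟨x, hx, y, hy, rfl⟩ := mem_prodM.1 hz
    exact ⟨(hL x hx).1.mul' ((hL' y hy).1.conj _ fun s hs =>
      mul_mem (mul_mem (hL x hx).2 hs) (inv_mem (hL x hx).2)), mul_mem (hL x hx).2 (hL' y hy).2⟩

section El

variable {C : Type} [AddCommGroup C] {ρ : Representation ℤ G C} {H : Subgroup G}

theorem el_add_left (d e d' : D) (c : C) :
    el ι H ρ (d + e) d' c = el ι H ρ d d' c + el ι H ρ e d' c := by
  rw [el, tm_add_left, add_smul]; rfl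

theorem el_add_mid (d d' e' : D) (c : C) :
    el ι H ρ d (d' + e') c = el ι H ρ d d' c + el ι H ρ d e' c := by
  rw [el, tm_add_right, add_smul]; rfl

theorem el_add_right (d d' : D) (c c' : C) :
    el ι H ρ d d' (c + c') = el ι H ρ d d' c + el ι H ρ d d' c' := by
  rw [el, map_add, smul_add]; rfl

theorem el_zero_left (d' : D) (c : C) : el ι H ρ 0 d' c = 0 := by
  rw [el, tm_zero_left, zero_smul]

theorem el_zero_mid (d : D) (c : C) : el ι H ρ d 0 c = 0 := by
  rw [el, tm_zero_right, zero_smul]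

theorem el_zero_right (d d' : D) : el ι H ρ d d' 0 = 0 := by
  rw [el, map_zero, smul_zero]

theorem smul_el (u u' d d' : D) (c : C) :
    tm u u' • el ι H ρ d d' c = el ι H ρ (u * d) (u' * d') c := by
  rw [el, ← mul_smul, tm_mul]; rfl

theorem el_rep {h : G} (hh : h ∈ H) (d d' : D) (c : C) :
    el ι H ρ d d' (ρ h c) = el ι H ρ (d * ι h) (d' * ι h) c := by
  have := Tens.of_rep ((dg ι).comp H.subtype) (ρ.comp H.subtype) ⟨h, hh⟩ c
  rw [el, el, ← tm_mul, mul_smul]
  exact congrArg _ this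

theorem mapH_el {C' : Type} [AddCommGroup C'] {ρ' : Representation ℤ G C'} (f : C →ₗ[ℤ] C')
    (hf : Eqv ρ ρ' f) (d d' : D) (c : C) :
    mapH ι H f hf (el ι H ρ d d' c) = el ι H ρ' d d' (f c) := by
  rw [el, map_smul]; rfl

theorem TH_induction {P : TH ι H ρ → Prop} (h0 : P 0) (hadd : ∀ x y, P x → P y → P (x + y))
    (h1 : ∀ d d' c, P (el ι H ρ d d' c)) (z : TH ι H ρ) : P z := by
  induction z using Tens.induction with
  | h0 => exact h0
  | hadd x y hx hy => exact hadd x y hx hy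
  | h1 a c =>
    induction a using DD_induction with
    | h0 => rwa [zero_smul]
    | h1 d d' => exact h1 d d' c
    | hadd a b ha hb => rw [add_smul]; exact hadd _ _ ha hb

end El

end Pool.Agent.MP_4f4d9f_gt.Sg

end
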