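import Pool.Agent.Mg.F4f4d9fr.G69af78

set_option linter.all false

/-! Poincare duality turns vanishing of cohomology into vanishing of homology. -/

namespace Pool.Agent.MP_4f4d9f_gt.Hy

open Finsupp Sg Sg.Tup

namespace VanL

variable {G N : Type} [Group G] [Ring N] (ι : G →* N) {n : ℕ} {w : G →* ℤˣ} {θ : Cell G → ℤ}

section Gen

variable {B M M' : Type} [AddCommGroup M] [Module N M] [AddCommGroup M'] [Module N M']

theorem map_lc (L : M →ₗ[N] M') (e : B → M) (c : B →₀ ℤ) :
    L (linearCombination ℤ e c) = linearCombination ℤ (fun b => L (e b)) c := by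
  induction c using Finsupp.induction_linear with
  | zero => simp
  | add x y hx hy => simp only [map_add, hx, hy]
  | single x r => simp only [linearCombination_single, map_zsmul]

theorem lc_congr {e e' : B → M} {c : B →₀ ℤ} (h : ∀ b ∈ c.support, e b = e' b) :
    linearCombination ℤ e c = linearCombination ℤ e' c := by
  simp only [linearCombination_apply, Finsupp.sum]
  exact Finset.sum_congr rfl fun b hb => by rw [h b hb]

theorem lc_add (e e' : B → M) (c : B →₀ ℤ) : linearCombination ℤ (fun b => e b + e' b) c =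
    linearCombination ℤ e c + linearCombination ℤ e' c := by
  simp only [linearCombination_apply, Finsupp.sum, smul_add, Finset.sum_add_distrib]

theorem lc_smul (a : N) (e : B → M) (c : B →₀ ℤ) :
    linearCombination ℤ (fun b => a • e b) c = a • linearCombination ℤ e c := by
  simp only [linearCombination_apply, Finsupp.sum, Finset.smul_sum, smul_comm a]

theorem lc_smul' (e : B → N) (z : M) (c : B →₀ ℤ) :
    linearCombination ℤ (fun b => e b • z) c = linearCombination ℤ e c • z := by
  simp only [linearCombination_apply, Finsupp.sum, Finset.sum_smul, smul_assoc]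

theorem lc_rel [MulAction G B] {e : B → M} (h : ∀ (g : G) b, e (g • b) = (w g : ℤ) • e b)
    {c : B →₀ ℤ} (hc : c ∈ Rel w B) : linearCombination ℤ e c = 0 := by
  have : Rel w B ≤ LinearMap.ker (linearCombination ℤ e) := by
    refine Submodule.span_le.2 ?_
    rintro _ ⟨g, b, rfl⟩
    change linearCombination ℤ e _ = 0
    rw [map_sub, linearCombination_single, linearCombination_single, h, one_smul, sub_self]
  exact this hc

theorem indT [MulAction G B] {P : Tens ι (permRep G B) → Prop} (h0 : P 0)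
    (hadd : ∀ x y, P x → P y → P (x + y)) (hs : ∀ (a : N) z, P z → P (a • z))
    (h1 : ∀ x, P (Tens.of ι _ (single x 1))) (z : Tens ι (permRep G B)) : P z := by
  induction z using Tens.induction with
  | h0 => exact h0
  | hadd x y hx hy => exact hadd x y hx hy
  | h1 a c =>
    refine hs a _ ?_
    induction c using ind1 with
    | h0 => rw [map_zero]; exact h0
    | hadd x y hx hy => rw [map_add]; exact hadd _ _ hx hy
    | hs r x hx => rw [map_zsmul, ← Int.cast_smul_eq_zsmul N]; exact hs _ _ hx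
    | h1 b => exact h1 b

end Gen

/-! ### The cochain attached to a tuple -/

variable (T : ThomR ℤ n w θ)

/-- The coefficients of the cochain. -/
noncomputable def kk (x b : Tup G) : G →₀ ℤ :=
  ofSupportFinite (fun g => (((w g)⁻¹ : ℤˣ) : ℤ) * θ (x, g • b))
    ((T.fin x b).subset fun _ hg => right_ne_zero_of_mul hg)

theorem kk_apply (x b : Tup G) (g : G) :
    kk T x b g = (((w g)⁻¹ : ℤˣ) : ℤ) * θ (x, g • b) := rfl

theorem kk_left (h : G) (x b : Tup G) : kk T (h • x) b = (kk T x b).mapDomain (h * ·) := by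
  ext g
  obtain ⟨g, rfl⟩ := (Equiv.mulLeft h).surjective g
  have := mapDomain_apply (f := (h * ·)) (mul_right_injective h) (kk T x b) g
  simp only [Equiv.coe_mulLeft] at this ⊢
  rw [this, kk_apply, kk_apply, mul_smul, T.inv, map_mul, mul_inv, Units.val_mul,
    mul_mul_mul_comm, Units.inv_mul, one_mul]

theorem kk_right (h : G) (x b : Tup G) :
    kk T x (h • b) = (w h : ℤ) • (kk T x b).mapDomain (· * h⁻¹) := by
  ext g
  obtain ⟨g, rfl⟩ := (Equiv.mulRight h⁻¹).surjective g
  have := mapDomain_apply (f := (· * h⁻¹)) (mul_left_injective h⁻¹) (kk T x b) g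
  simp only [Equiv.coe_mulRight] at this ⊢
  rw [Finsupp.smul_apply, this, kk_apply, kk_apply, mul_smul, inv_smul_smul, map_mul, map_inv,
    mul_inv, inv_inv, Units.val_mul, smul_eq_mul]
  ring

theorem kk_bd (x b : Tup G) : linearCombination ℤ (kk T x) (bdT ℤ (single b 1)) =
    -(-1 : ℤ) ^ x.deg • linearCombination ℤ (fun a => kk T a b) (bdT ℤ (single x 1)) := by
  ext g
  have h1 := T.coc (x, g • b)
  rw [lc_cbR, ← mapDomain_single (f := (g • ·)), bdT_smul, linearCombination_mapDomain] at h1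
  have h2 : ((-1 : ℤ) ^ x.deg) * (-1) ^ x.deg = 1 := by rw [← mul_pow]; simp
  simp only [linearCombination_apply, Finsupp.sum, Finsupp.smul_apply, Finsupp.finsetSum_apply,
    kk_apply, smul_eq_mul, Function.comp_apply, mul_left_comm _ (((w g)⁻¹ : ℤˣ) : ℤ),
    ← Finset.mul_sum] at h1 ⊢
  congr 1
  linear_combination ((-1 : ℤ) ^ x.deg) * h1 - (∑ a ∈ ((bdT ℤ) (single b 1)).support,
    ((bdT ℤ) (single b 1)) a * θ (x, g • a)) * h2

/-- The cochain attached to a tuple. -/
noncomputable def ph (x b : Tup G) : N := linearCombination ℤ ι (kk T x b)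

theorem ph_left (h : G) (x : Tup G) : ph ι T (h • x) = ι h • ph ι T x := by
  ext b
  rw [Pi.smul_apply, ph, ph, kk_left, linearCombination_mapDomain, ← lc_smul]
  simp only [Function.comp_def, map_mul, smul_eq_mul]

theorem ph_eqv (x : Tup G) : EqvC ι w (ph ι T x) := fun h b => by
  rw [ph, ph, kk_right, map_smul, linearCombination_mapDomain, ← smul_eq_mul, ← lc_smul']
  simp only [Function.comp_def, map_mul, smul_eq_mul]

theorem ph_bd (x b : Tup G) : linearCombination ℤ (ph ι T x) (bdT ℤ (single b 1)) =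
    -(-1 : ℤ) ^ x.deg • linearCombination ℤ (ph ι T) (bdT ℤ (single x 1)) b := by
  have := congrArg (linearCombination ℤ ι) (kk_bd T x b)
  rw [map_smul, apply_linearCombination, apply_linearCombination] at this
  exact this.trans (congrArg _ (map_lc (LinearMap.proj (R := N) (φ := fun _ : Tup G => N) b)
    (ph ι T) _).symm)

theorem ph_deg {x b : Tup G} (h : x.deg + b.deg ≠ n) : ph ι T x b = 0 := by
  have : kk T x b = 0 := by
    ext g
    rw [kk_apply, Finsupp.zero_apply, mul_eq_zero]
    refine Or.inr (by_contra fun e => h ?_)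
    simpa [cdeg] using T.deg _ e
  rw [ph, this, map_zero]

/-! ### The tensored bar complex -/

/-- The tensored bar complex. -/
abbrev TZ : Type := Tens ι (permRep G (Tup G))

/-- The canonical map. -/
noncomputable abbrev oT : (Tup G →₀ ℤ) →ₗ[ℤ] TZ ι := Tens.of ι (permRep G (Tup G))

theorem oT_smul (g : G) (x : Tup G) (r : ℤ) :
    oT ι (single (g • x) r) = ι g • oT ι (single x r) := by
  rw [← Tens.of_rep, permRep_single]

/-- The boundary. -/
noncomputable def dT : TZ ι →ₗ[N] TZ ι := Tens.map ι (bdT ℤ) fun g c => bdT_smul g c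

theorem dT_of (c : Tup G →₀ ℤ) : dT ι (oT ι c) = oT ι (bdT ℤ c) := rfl

/-- The inclusion of degree `m`. -/
noncomputable def aM (m : ℕ) : Tens ι (permRep G (Bar.BT G m)) →ₗ[N] TZ ι :=
  Tens.map ι (Bar.inc m) (Bar.inc_rep m)

theorem aM_of (m : ℕ) (x : Bar.BT G m) :
    aM ι m (Tens.of ι _ (single x 1)) = oT ι (single x.1 1) := by
  rw [aM, Tens.map_of, Bar.inc_single]

/-- The restriction to degree `m`. -/
noncomputable def rM (m : ℕ) : TZ ι →ₗ[N] Tens ι (permRep G (Bar.BT G m)) :=
  Tens.map ι (Bar.res m) (Bar.res_smul m)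

theorem rM_aM (m : ℕ) (z : Tens ι (permRep G (Bar.BT G m))) : rM ι m (aM ι m z) = z :=
  LinearMap.congr_fun (f := rM ι m ∘ₗ aM ι m) (g := LinearMap.id) (Tens.hom_ext ι fun c => by
    rw [LinearMap.comp_apply, aM, rM, Tens.map_of, Tens.map_of, Bar.res_inc]
    rfl) z

theorem dT_aM (k : ℕ) (z : Tens ι (permRep G (Bar.BT G (k + 1)))) :
    dT ι (aM ι (k + 1) z) = aM ι k (Tens.map ι (Bar.dB k) ((Bar.isRes G).eqv_d k) z) :=
  LinearMap.congr_fun (f := dT ι ∘ₗ aM ι (k + 1))
    (g := aM ι k ∘ₗ Tens.map ι (Bar.dB k) ((Bar.isRes G).eqv_d k)) (Tens.hom_ext ι fun c => by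
      rw [LinearMap.comp_apply, LinearMap.comp_apply, aM, aM, Tens.map_of, Tens.map_of,
        Tens.map_of, dT_of, Bar.inc_dB]) z

theorem rM_dT (k : ℕ) (z : TZ ι) :
    rM ι k (dT ι z) = Tens.map ι (Bar.dB k) ((Bar.isRes G).eqv_d k) (rM ι (k + 1) z) :=
  LinearMap.congr_fun (f := rM ι k ∘ₗ dT ι)
    (g := Tens.map ι (Bar.dB k) ((Bar.isRes G).eqv_d k) ∘ₗ rM ι (k + 1))
    (Tens.hom_ext ι fun c => by
      rw [LinearMap.comp_apply, LinearMap.comp_apply, dT_of, rM, rM, Tens.map_of, Tens.map_of,
        Tens.map_of]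
      congr 1
      apply Bar.inc_inj
      rw [Bar.inc_res, Bar.inc_dB, Bar.inc_res, prD_bdT]) z

/-- The cochain attached to a chain. -/
noncomputable def Ph : TZ ι →ₗ[N] (Tup G → N) :=
  Tens.lift ι (linearCombination ℤ (ph ι T)) fun g c => by
    induction c using Finsupp.induction_linear with
    | zero => simp
    | add x y hx hy => simp only [map_add, hx, hy, smul_add]
    | single x r =>
      rw [permRep_single, linearCombination_single, linearCombination_single, ph_left, smul_comm]

theorem Ph_of (c : Tup G →₀ ℤ) : Ph ι T (oT ι c) = linearCombination ℤ (ph ι T) c :=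
  Tens.lift_of _ _ _ _

theorem Ph_single (x : Tup G) : Ph ι T (oT ι (single x 1)) = ph ι T x := by
  rw [Ph_of, linearCombination_single, one_smul]

theorem Ph_eqv (z : TZ ι) : EqvC ι w (Ph ι T z) := by
  induction z using indT with
  | h0 => intro h b; simp
  | hadd x y hx hy =>
    intro h b
    simp only [map_add, Pi.add_apply, hx h b, hy h b, add_mul, smul_add]
  | hs a x hx =>
    intro h b
    simp only [map_smul, Pi.smul_apply, hx h b, smul_eq_mul, mul_smul_comm, mul_assoc]
  | h1 x => rw [Ph_single]; exact ph_eqv ι T x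

theorem Ph_bd {m : ℕ} (z : Tens ι (permRep G (Bar.BT G m))) (b : Tup G) :
    linearCombination ℤ (Ph ι T (aM ι m z)) (bdT ℤ (single b 1)) =
      -(-1 : ℤ) ^ m • Ph ι T (dT ι (aM ι m z)) b := by
  induction z using indT with
  | h0 => simp
  | hadd x y hx hy =>
    simp only [map_add, Pi.add_apply, smul_add, ← hx, ← hy]
    exact lc_add _ _ _
  | hs a x hx =>
    rw [map_smul, map_smul, map_smul, map_smul, Pi.smul_apply, smul_comm, ← hx]
    exact lc_smul a _ _
  | h1 x => rw [aM_of, Ph_single, dT_of, Ph_of, ph_bd, x.2]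

theorem Ph_deg {m : ℕ} (z : Tens ι (permRep G (Bar.BT G m))) {b : Tup G} (h : b.deg + m ≠ n) :
    Ph ι T (aM ι m z) b = 0 := by
  induction z using indT with
  | h0 => simp
  | hadd x y hx hy => simp only [map_add, Pi.add_apply, hx, hy, add_zero]
  | hs a x hx => simp only [map_smul, Pi.smul_apply, hx, smul_zero]
  | h1 x => rw [aM_of, Ph_single, ph_deg ι T (by rw [x.2]; omega)]

/-- The cap product with `ω`. -/
noncomputable def Gam (ω : Cell G →₀ ℤ) (ψ : Tup G → N) : TZ ι :=
  linearCombination ℤ (fun c : Cell G => (-1 : ℤ) ^ c.1.deg • ψ c.2 • oT ι (single c.1 1)) ω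

theorem Gam_add (ω : Cell G →₀ ℤ) (ψ ψ' : Tup G → N) :
    Gam ι ω (ψ + ψ') = Gam ι ω ψ + Gam ι ω ψ' := by
  simp only [Gam, Pi.add_apply, add_smul, smul_add]
  exact lc_add _ _ _

theorem Gam_smul (ω : Cell G →₀ ℤ) (a : N) (ψ : Tup G → N) :
    Gam ι ω (a • ψ) = a • Gam ι ω ψ := by
  simp only [Gam, Pi.smul_apply, smul_assoc, ← smul_comm a]
  exact lc_smul _ _ _

theorem Gam_zero (ω : Cell G →₀ ℤ) : Gam ι ω 0 = 0 := by
  simpa using Gam_smul ι ω 0 0

theorem Gam_ph (ω : Cell G →₀ ℤ) (x : Tup G) : Gam ι ω (ph ι T x) =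
    oT ι (av w (fun c : Cell G => single c.1 ((-1) ^ c.1.deg * θ (x, c.2))) ω) := by
  rw [av, apply_linearCombination, Gam]
  congr 2
  ext ⟨a, b⟩
  have h1 : ∑ᶠ g : G, ((w g)⁻¹ : ℤˣ) • single (g • a) ((-1) ^ (g • a).deg * θ (x, g • b)) =
      linearCombination ℤ (fun g : G => single (g • a) ((-1 : ℤ) ^ a.deg)) (kk T x b) := by
    rw [linearCombination_apply, Finsupp.sum,
      finsum_eq_sum_of_support_subset (s := (kk T x b).support)]
    · refine Finset.sum_congr rfl fun g _ => ?_
      rw [Units.smul_def, smul_single, smul_single, kk_apply, deg_smul, smul_eq_mul, smul_eq_mul]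
      congr 1
      ring
    · intro g hg
      rw [Finset.mem_coe, mem_support_iff, kk_apply]
      exact mul_ne_zero (Units.ne_zero _) fun e => hg (by simp [e])
  refine Eq.trans ?_ (congrArg (oT ι) h1).symm
  rw [apply_linearCombination, ph, smul_comm, ← map_zsmul, smul_single, smul_eq_mul, mul_one]
  simp only [Function.comp_def, oT_smul]
  exact (lc_smul' _ _ _).symm

theorem Gam_bd {ω : Cell G →₀ ℤ} (h1 : ∀ c ∈ ω.support, cdeg c = n)
    (h2 : cbR ℤ ω ∈ Rel w (Cell G)) {j m : ℕ} (h : j + m = n) {ψ ψ' : Tup G → N}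
    (h3 : EqvC ι w ψ') (h4 : ∀ b : Tup G, b.deg = j →
      ψ b = linearCombination ℤ ψ' (bdT ℤ (single b 1)))
    (h5 : ∀ b : Tup G, b.deg + m ≠ n → ψ b = 0) : ∃ u, dT ι u = Gam ι ω ψ := by
  let f : Cell G → TZ ι := fun c => if c.1.deg = m then ψ' c.2 • oT ι (single c.1 1) else 0
  have e1 : linearCombination ℤ f (cbR ℤ ω) = 0 := by
    refine lc_rel (fun g c => ?_) h2
    simp only [f, Prod.smul_fst, Prod.smul_snd, deg_smul]
    split_ifs
    · rw [h3, oT_smul, smul_assoc, smul_smul, mul_assoc, ← map_mul, inv_mul_cancel, map_one,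
        mul_one]
    · rw [smul_zero]
  have e2 : ∀ (b : Tup G) (u : Tup G →₀ ℤ), linearCombination ℤ (fun a => f (a, b)) u =
      ψ' b • oT ι (prD ℤ deg m u) := fun b u => by
    induction u using ind1 with
    | h0 => simp
    | hadd x y hx hy => simp only [map_add, hx, hy, smul_add]
    | hs r x hx => simp only [map_zsmul, hx, smul_comm r]
    | h1 a =>
      simp only [linearCombination_single, one_smul, f, prD_single]
      split_ifs
      · rfl
      · simp
  have e3 : ∀ c ∈ ω.support, linearCombination ℤ f (cbR ℤ (single c 1)) =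
      dT ι (ψ' c.2 • oT ι (prD ℤ deg (m + 1) (single c.1 1))) +
        (-1 : ℤ) ^ c.1.deg • ψ c.2 • oT ι (single c.1 1) := by
    rintro ⟨a, b⟩ hc
    have h6 : a.deg + b.deg = n := h1 _ hc
    rw [lc_cbR, e2, map_smul, dT_of, prD_bdT]
    congr 2
    simp only [f]
    split_ifs with h7
    · rw [h4 b (by omega)]
      exact lc_smul' _ _ _
    · simp [h5 b (by omega), linearCombination_apply]
  have e4 : ∀ u, linearCombination ℤ f (cbR ℤ u) =
      linearCombination ℤ (fun c => linearCombination ℤ f (cbR ℤ (single c 1))) u := fun u => by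
    induction u using ind1 with
    | h0 => simp
    | hadd x y hx hy => simp only [map_add, hx, hy]
    | hs r x hx => simp only [map_smul, hx]
    | h1 a => rw [linearCombination_single, one_smul]
  refine ⟨-linearCombination ℤ
    (fun c : Cell G => ψ' c.2 • oT ι (prD ℤ deg (m + 1) (single c.1 1))) ω, ?_⟩
  rw [map_neg, neg_eq_iff_add_eq_zero, ← e1, e4]
  exact (congrArg (· + _) (map_lc _ _ _)).trans ((lc_add _ _ _).symm.trans (lc_congr e3).symm)

variable {ω : Cell G →₀ ℤ} {H : Tup G → (Tup G →₀ ℤ)} (D : Dual ℤ n w θ ω H)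

/-- The homotopy. -/
noncomputable def HT : TZ ι →ₗ[N] TZ ι := Tens.map ι (linearCombination ℤ H) fun g c => by
  induction c using Finsupp.induction_linear with
  | zero => simp
  | add x y hx hy => simp only [map_add, hx, hy]
  | single x r =>
    rw [permRep_single, linearCombination_single, linearCombination_single, D.Heqv, map_smul]
    rfl

theorem HT_of (c : Tup G →₀ ℤ) : HT ι D (oT ι c) = oT ι (linearCombination ℤ H c) := rfl

theorem Gam_Ph (z : TZ ι) :
    Gam ι ω (Ph ι D.toThomR z) = z + dT ι (HT ι D z) + HT ι D (dT ι z) := by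
  induction z using indT with
  | h0 => simp [Gam_zero]
  | hadd x y hx hy => simp only [map_add, Gam_add, hx, hy]; abel
  | hs a x hx => simp only [map_smul, Gam_smul, hx, smul_add]
  | h1 x =>
    rw [Ph_single, Gam_ph, D.key, map_add, map_add, HT_of, dT_of, dT_of, HT_of,
      linearCombination_single, one_smul]

end VanL

open VanL in
theorem van_stmt : VanStmt := by
  intro G N _ _ ι n w θ ω H D k hV z hz
  have h1 : dT ι (aM ι (k + 1) z) = 0 := by rw [dT_aM, hz, map_zero]
  have h2 := Gam_Ph ι D (aM ι (k + 1) z)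
  rw [h1, map_zero, add_zero] at h2
  obtain ⟨u, hu⟩ : ∃ u, dT ι u = Gam ι ω (Ph ι D.toThomR (aM ι (k + 1) z)) := by
    by_cases h : k + 1 ≤ n
    · obtain ⟨ψ', h3, h4⟩ := hV (n - (k + 1)) (by omega) _ (Ph_eqv ι D.toThomR (aM ι (k + 1) z))
        fun b _ => by rw [Ph_bd, h1]; simp
      exact Gam_bd ι D.ωdeg D.ωcyc (m := k + 1) (by omega) h3 h4 fun b hb => Ph_deg ι _ z hb
    · refine ⟨0, ?_⟩
      rw [map_zero, ← Gam_zero ι ω]
      congr 1
      ext b
      exact (Ph_deg ι _ z (by omega)).symm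
  refine ⟨1, isRegular_one.left, rM ι (k + 1 + 1) (u - HT ι D (aM ι (k + 1) z)), ?_⟩
  rw [← rM_dT, map_sub, hu, h2, add_sub_cancel_right, rM_aM, one_smul]

end Pool.Agent.MP_4f4d9f_gt.Hy
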