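import Pool.Agent.Mg.F4f4d9fr.G4b39d3
import Pool.Agent.Mg.F4f4d9fr.Gdf2c93
import Pool.Agent.Mg.F4f4d9fr.Ga3a75a
import Pool.Agent.Mg.F4f4d9fr.G1afe66
import Pool.Agent.MP_4f4d9f_gt.Cone
import Pool.Agent.MP_4f4d9f_gt.SubdivGen
import Pool.Agent.Mg.F4f4d9fr.G69af78
import Pool.Agent.Mg.F4f4d9fr.G4ef018
import Pool.Agent.Mg.F4f4d9fr.G09f198

set_option linter.all false

section

/-! Interface, part T: duality for a contractible manifold with a free proper action that need not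
be cocompact. -/

namespace Pool.Agent.MP_4f4d9f_gt.Nc

open Finsupp Sg Sg.Tup Hy Filter Topology

/-! ### Products of chains -/

section Pr

variable {A B A' B' : Type}

/-- The product of two chains. -/
noncomputable def pr : (A →₀ ℤ) →ₗ[ℤ] (B →₀ ℤ) →ₗ[ℤ] (A × B →₀ ℤ) :=
  linearCombination ℤ fun a => lmapDomain ℤ ℤ fun b => (a, b)

/-- The boundary of a tensor product. -/
noncomputable def cb (dg : A → ℕ) (dA : (A →₀ ℤ) →ₗ[ℤ] (A →₀ ℤ)) (dB : (B →₀ ℤ) →ₗ[ℤ] (B →₀ ℤ)) :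
    (A × B →₀ ℤ) →ₗ[ℤ] (A × B →₀ ℤ) :=
  linearCombination ℤ fun c => pr (dA (single c.1 1)) (single c.2 1) +
    (-1 : ℤ) ^ dg c.1 • pr (single c.1 1) (dB (single c.2 1))

theorem pr_single (a : A) (b : B) (r s : ℤ) :
    pr (single a r) (single b s) = single (a, b) (r * s) := by
  simp [pr]

theorem pr_apply (x : A →₀ ℤ) (y : B →₀ ℤ) (c : A × B) : pr x y c = x c.1 * y c.2 := by
  classical
  induction x using Finsupp.induction_linear with
  | zero => simp
  | add a b ha hb => simp only [map_add, LinearMap.add_apply, Finsupp.add_apply, ha, hb, add_mul]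
  | single a r =>
    induction y using Finsupp.induction_linear with
    | zero => simp
    | add a b ha hb => simp only [map_add, Finsupp.add_apply, ha, hb, mul_add]
    | single b s =>
      simp only [pr_single, single_apply, Prod.ext_iff]
      split_ifs <;> simp_all

theorem mem_support_pr {x : A →₀ ℤ} {y : B →₀ ℤ} {c : A × B} (h : c ∈ (pr x y).support) :
    c.1 ∈ x.support ∧ c.2 ∈ y.support := by
  rw [mem_support_iff, pr_apply] at h
  exact ⟨mem_support_iff.2 (left_ne_zero_of_mul h), mem_support_iff.2 (right_ne_zero_of_mul h)⟩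

theorem mapDomain_pr (f : A → A') (f' : B → B') (x : A →₀ ℤ) (y : B →₀ ℤ) :
    (pr x y).mapDomain (Prod.map f f') = pr (x.mapDomain f) (y.mapDomain f') := by
  induction x using Finsupp.induction_linear with
  | zero => simp
  | add a b ha hb => simp only [map_add, LinearMap.add_apply, mapDomain_add, ha, hb]
  | single a r =>
    induction y using Finsupp.induction_linear with
    | zero => simp
    | add a b ha hb => simp only [map_add, mapDomain_add, ha, hb]
    | single b s => simp only [pr_single, mapDomain_single, Prod.map]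

theorem lc_pr_left {M : Type} [AddCommGroup M] (f : A × B → M) (u : A →₀ ℤ) (y : B) :
    linearCombination ℤ f (pr u (single y 1)) = linearCombination ℤ (fun a => f (a, y)) u := by
  induction u using Finsupp.induction_linear with
  | zero => simp
  | add a b ha hb => simp only [map_add, LinearMap.add_apply, ha, hb]
  | single a r => simp [pr_single]

theorem lc_pr_right {M : Type} [AddCommGroup M] (f : A × B → M) (x : A) (u : B →₀ ℤ) :
    linearCombination ℤ f (pr (single x 1) u) = linearCombination ℤ (fun b => f (x, b)) u := by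
  induction u using Finsupp.induction_linear with
  | zero => simp
  | add a b ha hb => simp only [map_add, ha, hb]
  | single a r => simp [pr_single]

variable {dg : A → ℕ} {dA : (A →₀ ℤ) →ₗ[ℤ] (A →₀ ℤ)} {dB : (B →₀ ℤ) →ₗ[ℤ] (B →₀ ℤ)}

theorem cb_single (c : A × B) : cb dg dA dB (single c 1) =
    pr (dA (single c.1 1)) (single c.2 1) +
      (-1 : ℤ) ^ dg c.1 • pr (single c.1 1) (dB (single c.2 1)) := by
  rw [cb, linearCombination_single, one_smul]

theorem cb_pr (a : A) (y : B →₀ ℤ) : cb dg dA dB (pr (single a 1) y) =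
    pr (dA (single a 1)) y + (-1 : ℤ) ^ dg a • pr (single a 1) (dB y) := by
  induction y using ind1 with
  | h0 => simp
  | hadd a b ha hb => simp only [map_add, ha, hb, smul_add]; abel
  | hs r b hb => simp only [map_smul, hb, smul_add, smul_comm r]
  | h1 b => rw [pr_single, mul_one, cb_single]

theorem cb_pr' {k : ℕ} {x : A →₀ ℤ} (hx : ∀ a ∈ x.support, dg a = k) (y : B →₀ ℤ) :
    cb dg dA dB (pr x y) = pr (dA x) y + (-1 : ℤ) ^ k • pr x (dB y) :=
  DualZL.map_eq (cb dg dA dB ∘ₗ pr.flip y) (pr.flip y ∘ₗ dA + (-1 : ℤ) ^ k • pr.flip (dB y))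
    fun a ha => by simpa [hx a ha] using cb_pr (dg := dg) (dA := dA) (dB := dB) a y

theorem cb_cb (h1 : ∀ c, dA (dA c) = 0) (h2 : ∀ c, dB (dB c) = 0)
    (h3 : ∀ a, ∀ e ∈ (dA (single a 1)).support, dg e + 1 = dg a) (c : A × B →₀ ℤ) :
    cb dg dA dB (cb dg dA dB c) = 0 := by
  induction c using ind1 with
  | h0 => simp
  | hadd a b ha hb => simp only [map_add, ha, hb, add_zero]
  | hs r a ha => simp only [map_smul, ha, smul_zero]
  | h1 c =>
    rw [cb_single, map_add, map_smul, cb_pr, h2, map_zero, smul_zero, add_zero]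
    cases hk : dg c.1 with
    | zero =>
      have : dA (single c.1 1) = 0 := by
        rw [← support_eq_empty, Finset.eq_empty_iff_forall_notMem]
        exact fun e he => by have := h3 _ e he; omega
      simp [this]
    | succ k =>
      rw [cb_pr' (k := k) fun e he => by have := h3 _ e he; omega, h1, pow_succ]
      simp

/-- Evaluation of a function of two variables on the boundary of a cell. -/
theorem lc_cb {M : Type} [AddCommGroup M] (f : A × B → M) (x : A) (y : B) :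
    linearCombination ℤ f (cb dg dA dB (single (x, y) 1)) =
      linearCombination ℤ (fun a => f (a, y)) (dA (single x 1)) +
        (-1 : ℤ) ^ dg x • linearCombination ℤ (fun b => f (x, b)) (dB (single y 1)) := by
  rw [cb_single, map_add, map_smul, lc_pr_left, lc_pr_right]

theorem mem_support_cb {c e : A × B} (h : e ∈ (cb dg dA dB (single c 1)).support) :
    (e.1 ∈ (dA (single c.1 1)).support ∧ e.2 = c.2) ∨
      (e.1 = c.1 ∧ e.2 ∈ (dB (single c.2 1)).support) := by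
  classical
  rw [cb_single] at h
  rcases Finset.mem_union.1 (support_add h) with h | h
  · exact Or.inl ((mem_support_pr h).imp_right fun h =>
      Finset.mem_singleton.1 (support_single_subset h))
  · exact Or.inr ((mem_support_pr (support_smul h)).imp_left fun h =>
      Finset.mem_singleton.1 (support_single_subset h))

theorem cb_mapDomain {dg' : A' → ℕ} {dA' : (A' →₀ ℤ) →ₗ[ℤ] (A' →₀ ℤ)}
    {dB' : (B' →₀ ℤ) →ₗ[ℤ] (B' →₀ ℤ)} (f : A → A') (f' : B → B') (h0 : ∀ a, dg' (f a) = dg a)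
    (h1 : ∀ c, dA' (c.mapDomain f) = (dA c).mapDomain f)
    (h2 : ∀ c, dB' (c.mapDomain f') = (dB c).mapDomain f') (c : A × B →₀ ℤ) :
    cb dg' dA' dB' (c.mapDomain (Prod.map f f')) = (cb dg dA dB c).mapDomain (Prod.map f f') := by
  induction c using ind1 with
  | h0 => simp
  | hadd x y hx hy => simp only [mapDomain_add, map_add, hx, hy]
  | hs r x hx => simp only [mapDomain_smul, map_smul, hx]
  | h1 c =>
    rw [mapDomain_single, cb_single, cb_single, mapDomain_add, mapDomain_smul, mapDomain_pr,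
      mapDomain_pr, ← h1, ← h2]
    simp only [mapDomain_single, Prod.map, h0]

end Pr

/-! ### All singular simplices -/

section SS

variable {X Y : Type} [TopologicalSpace X] [TopologicalSpace Y]

variable (X) in
/-- All singular simplices. -/
abbrev SS : Type := Σ k, Sing X k

/-- The range. -/
def rg (s : SS X) : Set X := Set.range s.2

/-- The first vertex. -/
noncomputable def v0 (s : SS X) : X := s.2 (stdSimplex.vertex 0)

/-- The end point of a path. -/
noncomputable def v1 (τ : Sing X 1) : X := τ (stdSimplex.vertex 1)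

/-- A point. -/
def ptS (y : X) : SS X := ⟨0, ContinuousMap.const _ y⟩

/-- Push-forward of a simplex. -/
def mp (f : C(X, Y)) (s : SS X) : SS Y := ⟨s.1, f.comp s.2⟩

/-- The inclusion of degree `k`. -/
noncomputable def inc (k : ℕ) : Ch X k →ₗ[ℤ] (SS X →₀ ℤ) := lmapDomain ℤ ℤ (Sigma.mk k)

/-- The restriction to degree `k`. -/
noncomputable def res (k : ℕ) : (SS X →₀ ℤ) →ₗ[ℤ] Ch X k :=
  lcomapDomain (Sigma.mk k) sigma_mk_injective

/-- The boundary of a simplex. -/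
noncomputable def dS1 : SS X → (SS X →₀ ℤ)
  | ⟨0, _⟩ => 0
  | ⟨k + 1, σ⟩ => inc k (bd ℤ X k (single σ 1))

/-- The boundary. -/
noncomputable def dS : (SS X →₀ ℤ) →ₗ[ℤ] (SS X →₀ ℤ) := linearCombination ℤ dS1

theorem isCompact_rg (s : SS X) : IsCompact (rg s) := isCompact_range s.2.continuous

theorem v0_mem (s : SS X) : v0 s ∈ rg s := ⟨_, rfl⟩

theorem v1_mem (τ : Sing X 1) : v1 τ ∈ rg ⟨1, τ⟩ := ⟨_, rfl⟩

theorem v0_ptS (y : X) : v0 (ptS y) = y := rfl

theorem rg_ptS (y : X) : rg (ptS y) = {y} := Set.range_const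

theorem eq_ptS {s : SS X} (h : s.1 = 0) : s = ptS (v0 s) := by
  obtain ⟨k, σ⟩ := s
  obtain rfl : k = 0 := h
  exact congrArg (Sigma.mk 0) (ContinuousMap.ext fun t => congrArg σ (Subsingleton.elim _ _))

theorem inc_single (k : ℕ) (σ : Sing X k) (r : ℤ) : inc k (single σ r) = single ⟨k, σ⟩ r :=
  mapDomain_single

theorem res_apply (k : ℕ) (c : SS X →₀ ℤ) (σ : Sing X k) : res k c σ = c ⟨k, σ⟩ := rfl

theorem inc_apply (k : ℕ) (c : Ch X k) (σ : Sing X k) : inc k c ⟨k, σ⟩ = c σ :=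
  mapDomain_apply sigma_mk_injective c σ

theorem res_inc (k : ℕ) (c : Ch X k) : res k (inc k c) = c := by
  ext σ
  rw [res_apply, inc_apply]

theorem mem_support_inc {k : ℕ} {c : Ch X k} {s : SS X} (h : s ∈ (inc k c).support) :
    ∃ σ ∈ c.support, s = ⟨k, σ⟩ := by
  classical
  obtain ⟨σ, h1, h2⟩ := Finset.mem_image.1 (mapDomain_support h)
  exact ⟨σ, h1, h2.symm⟩

theorem res_single_self (k : ℕ) (σ : Sing X k) (r : ℤ) : res k (single ⟨k, σ⟩ r) = single σ r := by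
  rw [← inc_single, res_inc]

theorem res_single_ne {k : ℕ} {s : SS X} (h : s.1 ≠ k) (r : ℤ) : res k (single s r) = 0 := by
  ext σ
  rw [res_apply, single_eq_of_ne]
  · rfl
  · rintro rfl
    exact h rfl

theorem res_inc_ne {k l : ℕ} (h : l ≠ k) (c : Ch X l) : res k (inc l c) = 0 := by
  induction c using Finsupp.induction_linear with
  | zero => simp
  | add x y hx hy => simp only [map_add, hx, hy, add_zero]
  | single σ r => rw [inc_single, res_single_ne h]

theorem inc_res {k : ℕ} {c : SS X →₀ ℤ} (h : ∀ s ∈ c.support, s.1 = k) : inc k (res k c) = c :=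
  DualZL.map_eq (inc k ∘ₗ res k) LinearMap.id fun s hs => by
    obtain ⟨l, σ⟩ := s
    obtain rfl : l = k := h _ hs
    rw [LinearMap.comp_apply, res_single_self, inc_single, LinearMap.id_apply]

theorem lc_inc {M : Type} [AddCommGroup M] (f : SS X → M) (k : ℕ) (c : Ch X k) :
    linearCombination ℤ f (inc k c) = linearCombination ℤ (fun σ => f ⟨k, σ⟩) c :=
  linearCombination_mapDomain ℤ _ c

theorem dS_single (s : SS X) : dS (single s 1) = dS1 s := by
  rw [dS, linearCombination_single, one_smul]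

theorem dS_inc (k : ℕ) (c : Ch X (k + 1)) : dS (inc (k + 1) c) = inc k (bd ℤ X k c) := by
  induction c using ind1 with
  | h0 => simp
  | hadd x y hx hy => simp only [map_add, hx, hy]
  | hs r x hx => simp only [map_smul, hx]
  | h1 σ => rw [inc_single, dS_single, dS1]

theorem dS_inc_zero (c : Ch X 0) : dS (inc 0 c) = 0 := by
  induction c using ind1 with
  | h0 => simp
  | hadd x y hx hy => simp only [map_add, hx, hy, add_zero]
  | hs r x hx => simp only [map_smul, hx, smul_zero]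
  | h1 σ => rw [inc_single, dS_single, dS1]

theorem dS_ptS (y : X) : dS (single (ptS y) 1) = 0 := dS_single _

theorem dS_succ {k : ℕ} (σ : Sing X (k + 1)) : dS (single (⟨k + 1, σ⟩ : SS X) 1) =
    ∑ i : Fin (k + 2), (-1 : ℤ) ^ (i : ℕ) • single (⟨k, face i σ⟩ : SS X) 1 := by
  rw [dS_single, dS1, bd_single]
  simp only [map_sum, map_zsmul, inc_single]

theorem dS_dS (c : SS X →₀ ℤ) : dS (dS c) = 0 := by
  induction c using ind1 with
  | h0 => simp
  | hadd x y hx hy => simp only [map_add, hx, hy, add_zero]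
  | hs r x hx => simp only [map_smul, hx, smul_zero]
  | h1 s =>
    obtain ⟨_ | _ | k, σ⟩ := s
    · rw [dS_single, dS1, map_zero]
    · rw [dS_single, dS1, dS_inc_zero]
    · rw [dS_single, dS1, dS_inc, bd_bd, map_zero]

theorem res_dS (k : ℕ) (c : SS X →₀ ℤ) : res k (dS c) = bd ℤ X k (res (k + 1) c) := by
  induction c using ind1 with
  | h0 => simp
  | hadd x y hx hy => simp only [map_add, hx, hy]
  | hs r x hx => simp only [map_smul, hx]
  | h1 s =>
    obtain ⟨_ | l, σ⟩ := s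
    · rw [dS_single, dS1, res_single_ne (by simp), map_zero, map_zero]
    · by_cases h : l = k
      · subst h
        rw [dS_single, dS1, res_inc, res_single_self]
      · rw [dS_single, dS1, res_inc_ne h, res_single_ne (by simpa using h), map_zero]

theorem mem_support_dS {s e : SS X} (h : e ∈ (dS (single s 1)).support) :
    e.1 + 1 = s.1 ∧ rg e ⊆ rg s := by
  obtain ⟨_ | k, σ⟩ := s
  · simp [dS_single, dS1] at h
  · rw [dS_single, dS1] at h
    obtain ⟨τ, h1, rfl⟩ := mem_support_inc h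
    refine ⟨rfl, ?_⟩
    rintro _ ⟨t, rfl⟩
    exact mem_supp.1 (bd_mem_supp (single_mem_supp (A := Set.range σ) 1 fun t => ⟨t, rfl⟩)) τ h1 t

theorem dS_mp (f : C(X, Y)) (c : SS X →₀ ℤ) :
    dS (c.mapDomain (mp f)) = (dS c).mapDomain (mp f) := by
  induction c using ind1 with
  | h0 => simp
  | hadd x y hx hy => simp only [mapDomain_add, map_add, hx, hy]
  | hs r x hx => simp only [mapDomain_smul, map_smul, hx]
  | h1 s =>
    obtain ⟨_ | k, σ⟩ := s
    · rw [mapDomain_single, dS_single, dS_single, dS1, mapDomain_zero]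
      rfl
    · rw [mapDomain_single, mp, dS_succ, dS_succ, ← lmapDomain_apply ℤ ℤ]
      simp only [map_sum, map_zsmul, lmapDomain_apply, mapDomain_single]
      rfl

theorem v0_face_succ {k : ℕ} (σ : Sing X (k + 1)) (i : Fin (k + 1)) :
    v0 ⟨k, face i.succ σ⟩ = v0 ⟨k + 1, σ⟩ := by
  simp [v0, face]

theorem v0_face_zero (τ : Sing X 1) : v0 ⟨0, face 0 τ⟩ = v1 τ := by
  simp [v0, v1, face]

theorem dS_one (τ : Sing X 1) :
    dS (single (⟨1, τ⟩ : SS X) 1) = single (ptS (v1 τ)) 1 - single (ptS (v0 ⟨1, τ⟩)) 1 := by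
  rw [dS_succ, Fin.sum_univ_two, eq_ptS (s := ⟨0, face 0 τ⟩) rfl, eq_ptS (s := ⟨0, face 1 τ⟩) rfl,
    v0_face_zero, ← v0_face_succ τ 0]
  simp [sub_eq_add_neg]

theorem exists_sing {A : Set X} {y z : X} (h : JoinedIn A y z) :
    ∃ τ : Sing X 1, rg ⟨1, τ⟩ ⊆ A ∧ v0 ⟨1, τ⟩ = y ∧ v1 τ = z := by
  obtain ⟨γ, hγ⟩ := h
  refine ⟨γ.toContinuousMap.comp ⟨_, stdSimplexHomeomorphUnitInterval.continuous⟩, ?_,
    γ.source, γ.target⟩
  rintro _ ⟨t, rfl⟩
  exact hγ _

/-- The boundary on pairs of singular simplices. -/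
noncomputable abbrev cbS : (SS X × SS Y →₀ ℤ) →ₗ[ℤ] (SS X × SS Y →₀ ℤ) := cb Sigma.fst dS dS

theorem cbS_cbS (c : SS X × SS Y →₀ ℤ) : cbS (cbS c) = 0 :=
  cb_cb dS_dS dS_dS (fun _ _ h => (mem_support_dS h).1) c

variable {G : Type} [Group G] [MulAction G X] [ContinuousConstSMul G X]

theorem smul_eq_mp (g : G) (s : SS X) : g • s = mp (FundL.sm g) s := rfl

theorem fst_smul (g : G) (s : SS X) : (g • s).1 = s.1 := rfl

theorem v0_smul (g : G) (s : SS X) : v0 (g • s) = g • v0 s := rfl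

theorem smul_ptS (g : G) (y : X) : g • ptS y = ptS (g • y) := rfl

theorem rg_smul (g : G) (s : SS X) : rg (g • s) = (g • ·) '' rg s :=
  Set.range_comp (g • ·) s.2

theorem dS_smul (g : G) (c : SS X →₀ ℤ) :
    dS (c.mapDomain (g • ·)) = (dS c).mapDomain (g • ·) := dS_mp (FundL.sm g) c

theorem inc_smul (k : ℕ) (g : G) (c : Ch X k) :
    inc k (c.mapDomain (g • ·)) = (inc k c).mapDomain (g • ·) := by
  simp only [inc, lmapDomain_apply, ← mapDomain_comp]
  rfl

theorem cbS_smul (g : G) (c : SS X × SS X →₀ ℤ) :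
    cbS (c.mapDomain (g • ·)) = (cbS c).mapDomain (g • ·) :=
  cb_mapDomain (g • ·) (g • ·) (fun _ => rfl) (dS_smul g) (dS_smul g) c

end SS

/-! ### Tuples of vertices and the Alexander-Whitney diagonal -/

section AW

variable {X J : Type} [TopologicalSpace X]

/-- All vertices lie in `R`. -/
def In (R : Set J) (x : Tup J) : Prop := x.hd ∈ R ∧ ∀ a ∈ x.tl, a ∈ R

theorem in_pt {R : Set J} {a : J} : In R (pt a) ↔ a ∈ R := by simp [In, pt]

theorem in_cons {R : Set J} {a : J} {x : Tup J} : In R (cons a x) ↔ a ∈ R ∧ In R x := by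
  simp [In, Tup.cons]

theorem In.mono {R R' : Set J} {x : Tup J} (h : In R x) (e : R ⊆ R') : In R' x :=
  ⟨e h.1, fun a ha => e (h.2 a ha)⟩

theorem cn_mem {R : Set J} {a : J} (ha : a ∈ R) {c : Tup J →₀ ℤ}
    (h : c ∈ supported ℤ ℤ {x | In R x}) : cn ℤ a c ∈ supported ℤ ℤ {x | In R x} :=
  DualZL.map_mem _ _ fun x hx => by
    rw [cn_single]
    exact single_mem_supported ℤ _ (in_cons.2 ⟨ha, h hx⟩)

theorem In.bdT {R : Set J} {x : Tup J} (h : In R x) :
    bdT ℤ (single x 1) ∈ supported ℤ ℤ {x | In R x} := by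
  induction x using Tup.induction with
  | h0 a => rw [bdT_pt]; exact zero_mem _
  | h1 a x ih =>
    rw [in_cons] at h
    rw [bdT_cons]
    exact sub_mem (sub_mem (single_mem_supported ℤ _ h.2) (cn_mem h.1 (ih h.2)))
      (Submodule.smul_mem _ _ (single_mem_supported ℤ _ (in_pt.2 h.1)))

/-- The boundary on pairs of a tuple and a singular simplex. -/
noncomputable abbrev cbT : (Tup J × SS X →₀ ℤ) →ₗ[ℤ] (Tup J × SS X →₀ ℤ) := cb deg (bdT ℤ) dS

variable (i : X → J)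

/-- The tuple of vertices. -/
noncomputable def ii1 : (k : ℕ) → Sing X k → Tup J
  | 0, σ => pt (i (v0 ⟨0, σ⟩))
  | k + 1, σ => cons (i (v0 ⟨k + 1, σ⟩)) (ii1 k (face 0 σ))

/-- The tuple of vertices. -/
noncomputable def ii (s : SS X) : Tup J := ii1 i s.1 s.2

/-- The diagonal of a simplex. -/
noncomputable def aw1 : (k : ℕ) → Sing X k → (Tup J × SS X →₀ ℤ)
  | 0, σ => single (pt (i (v0 ⟨0, σ⟩)), ⟨0, σ⟩) 1
  | k + 1, σ => single (pt (i (v0 ⟨k + 1, σ⟩)), ⟨k + 1, σ⟩) 1 +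
      (aw1 k (face 0 σ)).mapDomain (Prod.map (cons (i (v0 ⟨k + 1, σ⟩))) id)

/-- The diagonal. -/
noncomputable def aw : (SS X →₀ ℤ) →ₗ[ℤ] (Tup J × SS X →₀ ℤ) :=
  linearCombination ℤ fun s => aw1 i s.1 s.2

theorem ii_ptS (y : X) : ii i (ptS y) = pt (i y) := rfl

theorem ii_one (τ : Sing X 1) : ii i ⟨1, τ⟩ = cons (i (v0 ⟨1, τ⟩)) (pt (i (v1 τ))) := by
  rw [← v0_face_zero]
  rfl

/-- The properties of the diagonal. -/
structure AWP : Prop where
  cb : ∀ c, cbT (aw i c) = aw i (dS c)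
  mem : ∀ s, ∀ e ∈ (aw i (single s 1)).support,
    e.1.deg + e.2.1 = s.1 ∧ rg e.2 ⊆ rg s ∧ In (i '' rg s) e.1
  el : ∀ (f : SS X → ℤ) c,
    linearCombination ℤ (fun e : Tup J × SS X => if e.1.deg = 0 then f e.2 else 0) (aw i c) =
      linearCombination ℤ f c
  ibd : ∀ c : SS X →₀ ℤ, bdT ℤ (c.mapDomain (ii i)) = (dS c).mapDomain (ii i)
  ideg : ∀ s, (ii i s).deg = s.1
  iin : ∀ s, In (i '' rg s) (ii i s)

end AW

/-! ### Thom cocycle, fundamental cycle, duality map -/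

section Dual

variable {X J : Type} [TopologicalSpace X] {k : ℕ}

/-- `c` agrees with `μ` on the simplices that meet `K`. -/
def Trc (μ : Sing X k → ℤ) (K : Set X) (c : Ch X k) : Prop :=
  ∀ s : Sing X k, (Set.range s ∩ K).Nonempty → c s = μ s

/-- Locally finite chains. -/
def LF (μ : Sing X k → ℤ) : Prop :=
  ∀ K, IsCompact K → {s : Sing X k | μ s ≠ 0 ∧ (Set.range s ∩ K).Nonempty}.Finite

open Classical in
/-- The truncation of `μ` to the simplices that meet `K`. -/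
noncomputable def trn (μ : Sing X k → ℤ) (K : Set X) : Ch X k :=
  if h : {s : Sing X k | μ s ≠ 0 ∧ (Set.range s ∩ K).Nonempty}.Finite then
    ofSupportFinite (fun s => if (Set.range s ∩ K).Nonempty then μ s else 0)
      (h.subset fun s hs => by simpa [and_comm] using hs)
  else 0

/-- The star of a set. -/
def near (μ : Sing X k → ℤ) (A : Set X) : Set X :=
  A ∪ {y | ∃ s : Sing X k, μ s ≠ 0 ∧ (Set.range s ∩ A).Nonempty ∧ y ∈ Set.range s}

variable {μ : Sing X k → ℤ} {K K' : Set X} {c : Ch X k}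

theorem Trc.mono (h : Trc μ K c) (e : K' ⊆ K) : Trc μ K' c :=
  fun s hs => h s (hs.mono (Set.inter_subset_inter_right _ e))

open Classical in
theorem LF.trn_apply (h : LF μ) (hK : IsCompact K) (s : Sing X k) :
    trn μ K s = if (Set.range s ∩ K).Nonempty then μ s else 0 := by
  rw [trn, dif_pos (h K hK)]
  rfl

theorem LF.trc (h : LF μ) (hK : IsCompact K) : Trc μ K (trn μ K) := fun s hs => by
  rw [h.trn_apply hK, if_pos hs]

theorem LF.mem_trn (h : LF μ) (hK : IsCompact K) {s : Sing X k} (hs : s ∈ (trn μ K).support) :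
    μ s ≠ 0 ∧ (Set.range s ∩ K).Nonempty := by
  rw [mem_support_iff, h.trn_apply hK] at hs
  split_ifs at hs with e
  · exact ⟨hs, e⟩
  · exact absurd rfl hs

theorem Trc.sub_mem {c' : Ch X k} (h : Trc μ K c) (h' : Trc μ K c') : c - c' ∈ supp ℤ Kᶜ k :=
  mem_supp.2 fun s hs t e => mem_support_iff.1 hs (by
    rw [Finsupp.sub_apply, h s ⟨_, ⟨t, rfl⟩, e⟩, h' s ⟨_, ⟨t, rfl⟩, e⟩, sub_self])

theorem near_mono (e : K ⊆ K') : near μ K ⊆ near μ K' :=
  Set.union_subset_union e fun _ ⟨s, h1, h2, h3⟩ =>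
    ⟨s, h1, h2.mono (Set.inter_subset_inter_right _ e), h3⟩

theorem subset_near : K ⊆ near μ K := Set.subset_union_left

theorem LF.isCompact_near (h : LF μ) (hK : IsCompact K) : IsCompact (near μ K) := by
  have := (h K hK).isCompact_biUnion fun s _ => isCompact_range s.continuous
  refine hK.union (by convert this using 1; ext y; simp [and_assoc])

/-- Contraction with the Thom cocycle. -/
noncomputable def ctr (θ : SS X × SS X → ℤ) (x : SS X) :
    (Tup J × SS X →₀ ℤ) →ₗ[ℤ] (Tup J →₀ ℤ) :=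
  linearCombination ℤ fun e => single e.1 ((-1) ^ e.1.deg * θ (x, e.2))

/-- The duality map. -/
noncomputable def gam (θ : SS X × SS X → ℤ) (μ : Sing X k → ℤ) (i : X → J) (x : SS X) :
    Tup J →₀ ℤ := ctr θ x (aw i (inc k (trn μ (rg x))))

/-- A degree and augmentation preserving chain map to the tuples. -/
structure ChM (γ : SS X → (Tup J →₀ ℤ)) : Prop where
  deg : ∀ x, ∀ y ∈ (γ x).support, y.deg = x.1
  bd : ∀ x, bdT ℤ (γ x) = linearCombination ℤ γ (dS (single x 1))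
  eps : ∀ x, eps ℤ (γ x) = if x.1 = 0 then 1 else 0

/-- The properties of the duality map. -/
structure GamP (θ : SS X × SS X → ℤ) (μ : Sing X k → ℤ) (i : X → J) : Prop
    extends ChM (gam θ μ i) where
  trc : ∀ x c, Trc μ (rg x) c → gam θ μ i x = ctr θ x (aw i (inc k c))
  top : ∀ x, k < x.1 → gam θ μ i x = 0
  loc : ∀ x, ∀ y ∈ (gam θ μ i x).support, In (i '' near μ (rg x)) y

/-- A local homotopy. -/
structure HP (μ : Sing X k → ℤ) (i : X → J) (γ H : SS X → (Tup J →₀ ℤ)) : Prop where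
  deg : ∀ x, ∀ y ∈ (H x).support, y.deg = x.1 + 1
  key : ∀ x, γ x = single (ii i x) 1 + bdT ℤ (H x) + linearCombination ℤ H (dS (single x 1))
  loc : ∀ x, ∀ y ∈ (H x).support, In (i '' near μ (rg x)) y

variable (G : Type) [Group G] [MulAction G X] [ContinuousConstSMul G X]

/-- An Eilenberg-Zilber map. -/
structure EZP (ψ : (k : ℕ) → (SS X × SS X →₀ ℤ) →ₗ[ℤ] Ch (X × X) k) : Prop where
  deg : ∀ k c, c.1.1 + c.2.1 ≠ k → ψ k (single c 1) = 0
  bd : ∀ k c, bd ℤ (X × X) k (ψ (k + 1) c) = ψ k (cbS c)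
  sup : ∀ k c, ψ k (single c 1) ∈ supp ℤ (rg c.1 ×ˢ rg c.2) k
  eqv : ∀ k (g : G) c, ψ k (single (g • c) 1) = push ℤ (mv X g g) k (ψ k (single c 1))
  base : ∀ k y b, ψ k (single (ptS y, b) 1) = push ℤ (sl y) k (res k (single b 1))

variable {G} (m : ℕ) (w : G →* ℤˣ) (od : X → Ch X (m + 1) → ℤ)

/-- The Thom cocycle on pairs of singular simplices. -/
structure ThS (θ : SS X × SS X → ℤ) : Prop where
  inv : ∀ (g : G) x y, θ (g • x, g • y) = w g * θ (x, y)
  deg : ∀ x y, θ (x, y) ≠ 0 → x.1 + y.1 = m + 1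
  coc : ∀ c, linearCombination ℤ θ (cbS (single c 1)) = 0
  off : ∀ x y, Disjoint (rg x) (rg y) → θ (x, y) = 0
  one : ∀ (y : X) (c : Ch X (m + 1)), RZ {y}ᶜ (m + 1) c →
    linearCombination ℤ (fun b => θ (ptS y, b)) (inc (m + 1) c) = od y c

/-- A locally finite fundamental cycle. -/
structure FundN (μ : Sing X (m + 1) → ℤ) : Prop where
  fin : LF μ
  inv : ∀ (g : G) s, μ (g • s) = w g * μ s
  one : ∀ y c, Trc μ {y} c → RZ {y}ᶜ (m + 1) c ∧ od y c = 1
  rep : ∀ K, IsCompact K → ∃ ν : Ch X (m + 1),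
    bd ℤ X m ν ∈ Rel w (Sing X m) ⊔ supp ℤ {y | ∀ g : G, g • y ∉ K} m ∧
      ∀ᶠ F : Finset G in atTop, Trc μ K (avF w F ν)

variable {m w od} in
theorem FundN.bd_mem {μ : Sing X (m + 1) → ℤ} (h : FundN m w od μ) {K : Set X}
    {c : Ch X (m + 1)} (hc : Trc μ K c) : bd ℤ X m c ∈ supp ℤ Kᶜ m :=
  mem_supp.2 fun s hs t e =>
    mem_supp.1 (h.one _ c (hc.mono (Set.singleton_subset_iff.2 e))).1 s hs t rfl

variable {N : Type} [Ring N] (ι : G →* N)

/-- Twisted equivariant cochains. -/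
def EqS (φ : SS X → N) : Prop := ∀ (h : G) b, φ (h • b) = (w h : ℤ) • (φ b * ι h⁻¹)

variable (G) in
/-- No translate meets `K`. -/
def Far (K : Set X) (s : SS X) : Prop := ∀ g : G, Disjoint (rg (g • s)) K

variable (X) in
/-- The twisted cohomology with cocompact supports vanishes in degree `j`. -/
def CohN (j : ℕ) : Prop :=
  ∀ (φ : SS X → N) (K : Set X), IsCompact K → EqS w ι φ → (∀ s, Far G K s → φ s = 0) →
    (∀ s : SS X, s.1 = j + 1 → linearCombination ℤ φ (dS (single s 1)) = 0) →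
    ∃ (φ' : SS X → N) (K' : Set X), IsCompact K' ∧ EqS w ι φ' ∧ (∀ s, Far G K' s → φ' s = 0) ∧
      ∀ s : SS X, s.1 = j → φ s = linearCombination ℤ φ' (dS (single s 1))

/-- Equivariance. -/
def EqT (γ : SS X → (Tup G →₀ ℤ)) : Prop := ∀ (g : G) x, γ (g • x) = (γ x).mapDomain (g • ·)

/-- The map induced on the tensored complexes. -/
noncomputable def gT {γ : SS X → (Tup G →₀ ℤ)} (h : EqT γ) (k : ℕ) :
    Tens ι (permRep G (Sing X k)) →ₗ[N] VanL.TZ ι :=
  Tens.map ι (linearCombination ℤ fun σ => γ ⟨k, σ⟩) fun g c => by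
    induction c using Finsupp.induction_linear with
    | zero => simp
    | add x y hx hy => simp only [map_add, hx, hy]
    | single x r =>
      rw [permRep_single, linearCombination_single, linearCombination_single, map_smul]
      exact congrArg (r • ·) (h g ⟨k, x⟩)

/-- The images of the cycles of degree `k + 1` are boundaries. -/
def VanAt {γ : SS X → (Tup G →₀ ℤ)} (h : EqT γ) (k : ℕ) : Prop :=
  ∀ z : Tens ι (permRep G (Sing X (k + 1))), Tens.map ι (bd ℤ X k) (bd_smul G X k) z = 0 →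
    ∃ u, VanL.dT ι u = gT ι h (k + 1) z

end Dual

/-! ### Covers -/

section Cover

variable {X I : Type} [TopologicalSpace X] (V : I → Set X)

/-- Small simplices. -/
def Sm (s : SS X) : Prop := ∃ a, rg s ⊆ V a

/-- Two members of the cover meet. -/
def Mt (a b : I) : Prop := (V a ∩ V b).Nonempty

/-- Cliques. -/
def Clq (nb : I → Finset I) (x : Tup I) : Prop := ∃ R, In R x ∧ ∀ a ∈ R, ∀ b ∈ R, b ∈ nb a

/-- Small cocycles of degree zero and one are trivial. -/
structure SmP (M : Type) [AddCommGroup M] : Prop where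
  zero : ∀ c : X → M, (∀ τ : Sing X 1, Sm V ⟨1, τ⟩ → c (v1 τ) = c (v0 ⟨1, τ⟩)) → ∀ y z, c y = c z
  one : ∀ W : SS X → M, (∀ s, Sm V s → s.1 = 2 → linearCombination ℤ W (dS (single s 1)) = 0) →
    ∃ F : X → M, ∀ τ : Sing X 1, Sm V ⟨1, τ⟩ → W ⟨1, τ⟩ = F (v1 τ) - F (v0 ⟨1, τ⟩)

/-- Finite cocycles of degree `j + 1` pull back to coboundaries of cochains with compact support. -/
def CoN (i : X → I) (nb : I → Finset I) (j : ℕ) : Prop :=
  ∀ ζ : Tup I → ZMod 2, {x | ζ x ≠ 0}.Finite → (∀ x, ζ x ≠ 0 → x.deg = j + 1) →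
    (∀ x, Clq nb x → x.deg = j + 2 → linearCombination ℤ ζ (bdT ℤ (single x 1)) = 0) →
    ∃ (c : SS X → ZMod 2) (K : Set X), IsCompact K ∧ (∀ s, Disjoint (rg s) K → c s = 0) ∧
      ∀ s, Sm V s → s.1 = j + 1 → ζ (ii i s) = linearCombination ℤ c (dS (single s 1))

/-- A locally finite cover and its graph. -/
structure Cov (i : X → I) (x : I → X) (nb : I → Finset I) : Prop where
  op : ∀ a, IsOpen (V a)
  pc : ∀ a, ∀ y ∈ V a, ∀ z ∈ V a, JoinedIn (V a) y z
  mem : ∀ y, y ∈ V (i y)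
  base : ∀ a, x a ∈ V a
  lf : ∀ K, IsCompact K → {a | (V a ∩ K).Nonempty}.Finite
  rc : ∀ a, ∃ K, IsCompact K ∧ V a ⊆ K
  adj : ∀ a b, b ∈ nb a ↔ ∃ c₁ c₂ c₃, Mt V a c₁ ∧ Mt V c₁ c₂ ∧ Mt V c₂ c₃ ∧ Mt V c₃ b

/-- Equivariance of the cover. -/
structure CovE (G : Type) [Group G] [MulAction G X] [MulAction G I] (x : I → X) : Prop where
  free : ∀ (g : G) (a : I), g • a = a → g = 1
  set : ∀ (g : G) a y, g • y ∈ V (g • a) ↔ y ∈ V a
  base : ∀ (g : G) a, x (g • a) = g • x a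

variable {V} {i : X → I} {x : I → X} {nb : I → Finset I} {a b c : I}

omit [TopologicalSpace X] in
theorem Mt.symm (h : Mt V a b) : Mt V b a := by rwa [Mt, Set.inter_comm]

theorem Cov.mt_refl (h : Cov V i x nb) (a : I) : Mt V a a := ⟨_, h.base a, h.base a⟩

theorem Cov.mt_i (h : Cov V i x nb) {y : X} (hy : y ∈ V a) : Mt V a (i y) := ⟨y, hy, h.mem y⟩

theorem Cov.nb_of_mt (h : Cov V i x nb) (e : Mt V a b) : b ∈ nb a :=
  (h.adj a b).2 ⟨a, a, a, h.mt_refl a, h.mt_refl a, h.mt_refl a, e⟩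

theorem Cov.nb_of_mt2 (h : Cov V i x nb) (e : Mt V a b) (e' : Mt V b c) : c ∈ nb a :=
  (h.adj a c).2 ⟨a, a, b, h.mt_refl a, h.mt_refl a, e, e'⟩

theorem Cov.refl (h : Cov V i x nb) (a : I) : a ∈ nb a := h.nb_of_mt (h.mt_refl a)

theorem Cov.symm (h : Cov V i x nb) (e : b ∈ nb a) : a ∈ nb b := by
  obtain ⟨c₁, c₂, c₃, h1, h2, h3, h4⟩ := (h.adj a b).1 e
  exact (h.adj b a).2 ⟨c₃, c₂, c₁, h4.symm, h3.symm, h2.symm, h1.symm⟩

theorem Cov.eqv {G : Type} [Group G] [MulAction G X] [MulAction G I] (h : Cov V i x nb)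
    (h' : CovE V G x) (g : G) (e : b ∈ nb a) : g • b ∈ nb (g • a) := by
  have hm : ∀ a b, Mt V a b → Mt V (g • a) (g • b) := fun a b ⟨y, h1, h2⟩ =>
    ⟨g • y, (h'.set g a y).2 h1, (h'.set g b y).2 h2⟩
  obtain ⟨c₁, c₂, c₃, h1, h2, h3, h4⟩ := (h.adj a b).1 e
  exact (h.adj _ _).2 ⟨_, _, _, hm _ _ h1, hm _ _ h2, hm _ _ h3, hm _ _ h4⟩

/-- Tuples near a small simplex are cliques. -/
theorem Cov.clq {k : ℕ} {μ : Sing X k → ℤ} (h : Cov V i x nb) (hμ : ∀ s, μ s ≠ 0 → Sm V ⟨k, s⟩)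
    {s : SS X} (hs : Sm V s) {y : Tup I} (hy : In (i '' near μ (rg s)) y) : Clq nb y := by
  obtain ⟨a, ha⟩ := hs
  have key : ∀ c ∈ i '' near μ (rg s), ∃ b, Mt V a b ∧ Mt V b c := by
    rintro _ ⟨z, hz | ⟨t, h1, ⟨u, h2, h3⟩, h4⟩, rfl⟩
    · exact ⟨a, h.mt_refl a, h.mt_i (ha hz)⟩
    · obtain ⟨b, hb⟩ := hμ t h1
      exact ⟨b, ⟨u, ha h3, hb h2⟩, h.mt_i (hb h4)⟩
  refine ⟨_, hy, fun c hc c' hc' => ?_⟩
  obtain ⟨b, h1, h2⟩ := key c hc
  obtain ⟨b', h3, h4⟩ := key c' hc'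
  exact (h.adj c c').2 ⟨b, a, b', h2.symm, h1.symm, h3, h4⟩

end Cover

/-! ### Statements -/

/-- Job `AW`. -/
def AWStmt : Prop := ∀ (X J : Type) [TopologicalSpace X] (i : X → J), AWP i

/-- Job `AW`. -/
def AWEStmt : Prop :=
  ∀ (G X : Type) [Group G] [TopologicalSpace X] [MulAction G X] [ContinuousConstSMul G X]
    (i : X → G), (∀ (g : G) y, i (g • y) = g * i y) → ∀ (g : G) (c : SS X →₀ ℤ),
      aw i (c.mapDomain (g • ·)) = (aw i c).mapDomain (g • ·)

/-- Job `EZ`. -/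
def EZStmt : Prop :=
  ∀ (G X : Type) [Group G] [TopologicalSpace X] [MulAction G X] [ContinuousConstSMul G X],
    ∃ ψ, EZP (X := X) G ψ

/-- Job `Th`. -/
def ThStmt : Prop :=
  ∀ (G X : Type) [Group G] [TopologicalSpace X] [MulAction G X] [ContinuousConstSMul G X] (m : ℕ)
    (w : G →* ℤˣ) (od : X → Ch X (m + 1) → ℤ) (T : Ch (X × X) (m + 1) → ℤ) (i : X → G)
    (ψ : (k : ℕ) → (SS X × SS X →₀ ℤ) →ₗ[ℤ] Ch (X × X) k), (∀ (g : G) y, i (g • y) = g * i y) →
    ThomT m w od T → EZP G ψ → ∃ θ, ThS m w od θ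

/-- Job `FundA`. -/
def SeqStmt : Prop :=
  ∀ (G X M : Type) [Group G] [TopologicalSpace X] [MulAction G X] [ContinuousConstSMul G X]
    [Nonempty X] [TopologicalSpace M] [T2Space M] [SigmaCompactSpace M] (p : X → M) (m : ℕ)
    (od : X → Ch X (m + 1) → ℤ) (w : G →* ℤˣ), IsQuotientCoveringMap p G → Charts X m →
    LocOr m Set.univ od → OrCh m w od →
    ∃ (A : ℕ → Set X) (ν : ℕ → Ch X (m + 1)), Monotone A ∧ (∀ j, FundL.Inv G (A j)) ∧
      (∀ K, IsCompact K → ∃ j, K ⊆ A j) ∧ (∀ j, FundL.Good w od (A j) (ν j)) ∧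
      ∀ j, ν (j + 1) - ν j ∈ supp ℤ (A j)ᶜ (m + 1)

/-- Job `FundB`. -/
def LimStmt : Prop :=
  ∀ (G X : Type) [Group G] [TopologicalSpace X] [MulAction G X] [ContinuousConstSMul G X] (m : ℕ)
    (od : X → Ch X (m + 1) → ℤ) (w : G →* ℤˣ) (A : ℕ → Set X) (ν : ℕ → Ch X (m + 1)),
    FundL.Prp G X → LocOr m Set.univ od → Monotone A → (∀ j, FundL.Inv G (A j)) →
    (∀ K, IsCompact K → ∃ j, K ⊆ A j) → (∀ j, FundL.Good w od (A j) (ν j)) →
    (∀ j, ν (j + 1) - ν j ∈ supp ℤ (A j)ᶜ (m + 1)) → ∃ μ, FundN m w od μ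

/-- Job `Gam`. -/
def GamStmt : Prop :=
  ∀ (G X J : Type) [Group G] [TopologicalSpace X] [MulAction G X] [ContinuousConstSMul G X] (m : ℕ)
    (w : G →* ℤˣ) (od : X → Ch X (m + 1) → ℤ) (θ : SS X × SS X → ℤ) (μ : Sing X (m + 1) → ℤ)
    (i : X → J), ThS m w od θ → FundN m w od μ → AWP i → GamP θ μ i

/-- Job `GamE`. -/
def GamEStmt : Prop :=
  ∀ (G X : Type) [Group G] [TopologicalSpace X] [MulAction G X] [ContinuousConstSMul G X] (m : ℕ)
    (w : G →* ℤˣ) (od : X → Ch X (m + 1) → ℤ) (θ : SS X × SS X → ℤ) (μ : Sing X (m + 1) → ℤ)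
    (i : X → G), ThS m w od θ → FundN m w od μ →
    (∀ (g : G) (c : SS X →₀ ℤ), aw i (c.mapDomain (g • ·)) = (aw i c).mapDomain (g • ·)) →
    EqT (gam θ μ i)

/-- Job `GamE`. -/
def HStmt : Prop :=
  ∀ (X J : Type) [TopologicalSpace X] (k : ℕ) (μ : Sing X k → ℤ) (i : X → J)
    (γ : SS X → (Tup J →₀ ℤ)), AWP i → ChM γ →
    (∀ x, ∀ y ∈ (γ x).support, In (i '' near μ (rg x)) y) → ∃ H, HP μ i γ H

/-- Job `Sm`. -/
def SmStmt : Prop :=
  ∀ (X I M : Type) [TopologicalSpace X] [ContractibleSpace X] [AddCommGroup M] (V : I → Set X),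
    (∀ a, IsOpen (V a)) → (∀ y, ∃ a, y ∈ V a) → SmP V M

/-- Job `CovA`. -/
def CovAStmt : Prop :=
  ∀ (G X M : Type) [Group G] [TopologicalSpace X] [MulAction G X] [ContinuousConstSMul G X]
    [TopologicalSpace M] [T2Space M] [SigmaCompactSpace M] (p : X → M) (m : ℕ),
    IsQuotientCoveringMap p G → Charts X m →
    ∃ (I : Type) (_ : MulAction G I) (U : I → Set X) (x : I → X), CovE U G x ∧
      (∀ a, IsOpen (U a)) ∧ (∀ a, IsPathConnected (U a)) ∧ (∀ y, ∃ a, y ∈ U a) ∧ (∀ a, x a ∈ U a) ∧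
      (∀ K, IsCompact K → {a | (U a ∩ K).Nonempty}.Finite) ∧ ∀ a, ∃ K, IsCompact K ∧ U a ⊆ K

/-- Job `CovB`. -/
def CovBStmt : Prop :=
  ∀ (G X I : Type) [Group G] [TopologicalSpace X] [MulAction G X] [ContinuousConstSMul G X]
    [MulAction G I] (k : ℕ) (μ : Sing X k → ℤ) (U : I → Set X) (x : I → X), LF μ →
    (∀ (g : G) s, μ s ≠ 0 → μ (g • s) ≠ 0) → CovE U G x → (∀ a, IsOpen (U a)) →
    (∀ a, IsPathConnected (U a)) → (∀ y, ∃ a, y ∈ U a) → (∀ a, x a ∈ U a) →
    (∀ K, IsCompact K → {a | (U a ∩ K).Nonempty}.Finite) → (∀ a, ∃ K, IsCompact K ∧ U a ⊆ K) →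
    ∃ (V : I → Set X) (i : X → I) (nb : I → Finset I), Cov V i x nb ∧ CovE V G x ∧
      ∀ s, μ s ≠ 0 → Sm V ⟨k, s⟩

/-- Job `CoN`. -/
def CoNStmt : Prop :=
  ∀ (G X I : Type) [Group G] [TopologicalSpace X] [ContractibleSpace X] [MulAction G X]
    [ContinuousConstSMul G X] (m : ℕ) (w : G →* ℤˣ) (od : X → Ch X (m + 1) → ℤ)
    (θ : SS X × SS X → ℤ) (μ : Sing X (m + 1) → ℤ) (V : I → Set X) (i : X → I) (x : I → X)
    (nb : I → Finset I) (H : SS X → (Tup I →₀ ℤ)), ThS m w od θ → FundN m w od μ → AWP i →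
    GamP θ μ i → HP μ i (gam θ μ i) H → Cov V i x nb → (∀ s, μ s ≠ 0 → Sm V ⟨m + 1, s⟩) →
    ∀ j, j < m → CoN V i nb j

/-- Job `C02`. -/
def C02Stmt : Prop :=
  ∀ (X I : Type) [TopologicalSpace X] (V : I → Set X) (i : X → I) (x : I → X) (nb : I → Finset I),
    Cov V i x nb → SmP V (ZMod 2) → AWP i →
    (∀ w : I × I → ZMod 2, (∀ t, Tr nb t → d1 w t = 0) → ∃ F, ∀ e, Ed nb e → w e = d0 F e) ∧
    (CoN V i nb 1 → ∀ w : I × I → ZMod 2, {t | Tr nb t ∧ d1 w t ≠ 0}.Finite →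
      ∃ F, {e | Ed nb e ∧ w e ≠ d0 F e}.Finite)

/-- Job `C1`. -/
def C1Stmt : Prop :=
  ∀ (X I : Type) [TopologicalSpace X] (V : I → Set X) (i : X → I) (x : I → X) (nb : I → Finset I),
    Cov V i x nb → SmP V (ZMod 2) →
    (∀ a b, Relation.ReflTransGen (fun x y => y ∈ nb x) a b) ∧
    (CoN V i nb 0 → ∀ F : I → ZMod 2, {e | Ed nb e ∧ d0 F e ≠ 0}.Finite →
      {x | F x ≠ 0}.Finite ∨ {x | F x ≠ 1}.Finite)

/-- Job `Van`. -/
def VanNStmt : Prop :=
  ∀ (G X N : Type) [Group G] [TopologicalSpace X] [MulAction G X] [ContinuousConstSMul G X]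
    [Ring N] (ι : G →* N) (m : ℕ) (w : G →* ℤˣ) (od : X → Ch X (m + 1) → ℤ) (θ : SS X × SS X → ℤ)
    (μ : Sing X (m + 1) → ℤ) (i : X → G) (h : EqT (gam θ μ i)), FundL.Prp G X → ThS m w od θ →
    FundN m w od μ → AWP i →
    (∀ (g : G) (c : SS X →₀ ℤ), aw i (c.mapDomain (g • ·)) = (aw i c).mapDomain (g • ·)) →
    GamP θ μ i → ∀ k, (∀ j, j + (k + 1) = m + 1 → CohN X w ι j) → VanAt ι h k

/-- Job `Trs`. -/
def TrsStmt : Prop :=
  ∀ (G X N : Type) [Group G] [TopologicalSpace X] [MulAction G X] [ContinuousConstSMul G X]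
    [Ring N] (ι : G →* N) (γ : SS X → (Tup G →₀ ℤ)) (h : EqT γ)
    (R : IsRes (fun k => permRep G (Sing X k)) (bd ℤ X) (aug ℤ X)), ChM γ → ∀ k, VanAt ι h k →
    TorsAt ι (fun k => permRep G (Sing X k)) (bd ℤ X) R.eqv_d k

/-- Job `Tf`. -/
def TfStmt : Prop :=
  ∀ (G X : Type) [Group G] [TopologicalSpace X] [MulAction G X] [ContinuousConstSMul G X]
    (γ : SS X → (Tup G →₀ ℤ)) (n : ℕ), EqT γ →
    IsRes (fun k => permRep G (Sing X k)) (bd ℤ X) (aug ℤ X) → ChM γ →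
    (∀ x : SS X, n < x.1 → γ x = 0) → ∀ g : G, IsOfFinOrder g → g = 1

variable {G I N : Type} [Group G] [MulAction G I] [Ring N] in
/-- The goal for functions with values in `N` and equivariant differences. -/
def GoalN (w : G →* ℤˣ) (ι : G →* N) (nb : I → Finset I) : Prop :=
  ∀ E₀ : Finset I, ∃ I₀ : Finset I, ∀ F : I → N,
    (∀ (g : G) a b, F (g • a) - F (g • b) = (w g : ℤ) • ((F a - F b) * ι g⁻¹)) →
    (∀ x y, y ∈ nb x → x ∉ Orb G E₀ → y ∉ Orb G E₀ → F x = F y) →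
    ∀ x y, x ∉ Orb G I₀ → y ∉ Orb G I₀ → F x = F y

/-- Job `LinkB`. -/
def LinkBStmt : Prop :=
  ∀ (G I E : Type) [Group G] [MulAction G I] [NormedAddCommGroup E] [InnerProductSpace ℂ E]
    (b : HilbertBasis G ℂ E) (ι : G →* vnAlg b), (∀ g h, (ι g).1 (b h) = b (g * h)) →
    ∀ (w : G →* ℤˣ) (nb : I → Finset I), Gr nb G → Goal nb G → GoalN w ι nb

/-- Job `LinkA`. -/
def LinkAStmt : Prop :=
  ∀ (G X I N : Type) [Group G] [TopologicalSpace X] [MulAction G X] [ContinuousConstSMul G X]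
    [MulAction G I] [Ring N] (ι : G →* N) (w : G →* ℤˣ) (V : I → Set X) (i : X → I) (x : I → X)
    (nb : I → Finset I), Cov V i x nb → CovE V G x → SmP (fun _ : Unit => (Set.univ : Set X)) N →
    (∀ K : Set X, IsCompact K → ∃ y : X, ∀ g : G, g • y ∉ K) →
    CohN X w ι 0 ∧ (GoalN w ι nb → CohN X w ι 1)

end Pool.Agent.MP_4f4d9f_gt.Nc

end

section

/-! The locally finite fundamental cycle as a limit of fundamental chains over an exhaustion. -/

namespace Pool.Agent.MP_4f4d9f_gt.Nc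

open Finsupp Sg Sg.Tup Hy Filter Topology

namespace FundBL

section Alg

variable {G : Type} [Group G] (w : G →* ℤˣ) {B : Type} [MulAction G B]

/-- The coefficient of the twisted sum of all translates. -/
noncomputable def vl (c : B →₀ ℤ) (s : B) : ℤ := ∑ᶠ g : G, ((w g)⁻¹ : ℤˣ) • c (g⁻¹ • s)

theorem avF_apply (F : Finset G) (c : B →₀ ℤ) (s : B) :
    avF w F c s = ∑ g ∈ F, ((w g)⁻¹ : ℤˣ) • c (g⁻¹ • s) := by
  rw [avF, Finsupp.finsetSum_apply]
  refine Finset.sum_congr rfl fun g _ => ?_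
  rw [Finsupp.smul_apply]
  congr 1
  conv_lhs => rw [← smul_inv_smul g s]
  exact mapDomain_apply (MulAction.injective g) c _

theorem avF_eq {F : Finset G} {c : B →₀ ℤ} {s : B}
    (h : ∀ g : G, g⁻¹ • s ∈ c.support → g ∈ F) : avF w F c s = vl w c s := by
  rw [avF_apply, vl, finsum_eq_sum_of_support_subset]
  intro g hg
  exact h g (mem_support_iff.2 fun e => hg (by simp only [e, smul_zero]))

theorem vl_smul (c : B →₀ ℤ) (h : G) (s : B) : vl w c (h • s) = w h * vl w c s := by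
  have := (DistribMulAction.toAddEquiv ℤ (w h)).map_finsum
    fun g : G => ((w g)⁻¹ : ℤˣ) • c (g⁻¹ • s)
  simp only [DistribMulAction.toAddEquiv_apply] at this
  rw [vl, vl, ← smul_eq_mul, ← Units.smul_def, this, ← finsum_comp_equiv (Equiv.mulLeft h)
    (f := fun g : G => ((w g)⁻¹ : ℤˣ) • c (g⁻¹ • h • s))]
  refine finsum_congr fun g => ?_
  simp only [Equiv.coe_mulLeft, map_mul, mul_inv_rev, mul_smul, inv_smul_smul,
    Int.units_inv_eq_self]
  rw [smul_comm]

end Alg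

variable {G X : Type} [Group G] [TopologicalSpace X] [MulAction G X] [ContinuousConstSMul G X]
  (w : G →* ℤˣ) {k : ℕ}

theorem vl_congr {A : Set X} (hA : FundL.Inv G A) {c c' : Ch X k} (h : c - c' ∈ supp ℤ Aᶜ k)
    {s : Sing X k} (hs : (Set.range s ∩ A).Nonempty) : vl w c s = vl w c' s := by
  refine finsum_congr fun g => ?_
  congr 1
  by_contra e
  obtain ⟨_, ⟨t, rfl⟩, ht⟩ := hs
  have h1 : g⁻¹ • s ∈ (c - c').support :=
    mem_support_iff.2 (by rw [Finsupp.sub_apply]; exact sub_ne_zero.2 e)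
  exact mem_supp.1 h _ h1 t ((hA g⁻¹ (s t)).2 ht)

theorem exists_fin (hp : FundL.Prp G X) {K : Set X} (hK : IsCompact K) (c : Ch X k) :
    ∃ F₀ : Finset G, ∀ F, F₀ ≤ F → ∀ s : Sing X k, (Set.range s ∩ K).Nonempty →
      avF w F c s = vl w c s := by
  have h1 : IsCompact (K ∪ ⋃ b ∈ c.support, Set.range b) :=
    hK.union (c.support.isCompact_biUnion fun b _ => isCompact_range b.continuous)
  refine ⟨(hp _ h1).toFinset, fun F hF s hs => avF_eq w fun g hg => hF ?_⟩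
  obtain ⟨_, ⟨t, rfl⟩, ht⟩ := hs
  refine (hp _ h1).mem_toFinset.2 ⟨s t, ⟨g⁻¹ • s t, Or.inr ?_, smul_inv_smul g _⟩, Or.inl ht⟩
  exact Set.mem_biUnion hg ⟨t, rfl⟩

theorem sub_mem_supp {A : ℕ → Set X} {ν : ℕ → Ch X k} (hm : Monotone A)
    (h : ∀ j, ν (j + 1) - ν j ∈ supp ℤ (A j)ᶜ k) {j l : ℕ} (e : j ≤ l) :
    ν l - ν j ∈ supp ℤ (A j)ᶜ k := by
  induction l, e using Nat.le_induction with
  | base => rw [sub_self]; exact zero_mem _
  | succ l e ih =>
    rw [← sub_add_sub_cancel _ (ν l)]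
    exact add_mem (supp_mono (Set.compl_subset_compl.2 (hm e)) k (h l)) ih

theorem exists_lim {A : ℕ → Set X} {ν : ℕ → Ch X k} (hm : Monotone A)
    (hA : ∀ j, FundL.Inv G (A j)) (hK : ∀ K, IsCompact K → ∃ j, K ⊆ A j)
    (h : ∀ j, ν (j + 1) - ν j ∈ supp ℤ (A j)ᶜ k) :
    ∃ μ : Sing X k → ℤ, ∀ j (s : Sing X k),
      (Set.range s ∩ A j).Nonempty → μ s = vl w (ν j) s := by
  choose J hJ using fun s : Sing X k => hK _ (isCompact_range s.continuous)
  refine ⟨fun s => vl w (ν (J s)) s, fun j s hs => ?_⟩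
  have h0 : (Set.range s ∩ A (J s)).Nonempty :=
    ⟨_, ⟨stdSimplex.vertex 0, rfl⟩, hJ s ⟨_, rfl⟩⟩
  exact (vl_congr w (hA _) (sub_mem_supp hm h (le_max_left (J s) j)) h0).symm.trans
    (vl_congr w (hA _) (sub_mem_supp hm h (le_max_right (J s) j)) hs)

end FundBL

open FundBL in
theorem lim_stmt : LimStmt := by
  intro G X _ _ _ _ m od w A ν hp ho hm hA hK hg hs
  obtain ⟨μ, hμ⟩ := exists_lim w hm hA hK hs
  have key : ∀ K j, IsCompact K → K ⊆ A j →
      ∀ᶠ F : Finset G in atTop, Trc μ K (avF w F (ν j)) := fun K j h1 h2 => by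
    obtain ⟨F₀, hF⟩ := exists_fin w hp h1 (ν j)
    filter_upwards [eventually_ge_atTop F₀] with F e s ht
    rw [hF F e s ht, hμ j s (ht.mono (Set.inter_subset_inter_right _ h2))]
  refine ⟨μ, fun K h1 => ?_, fun g s => ?_, fun y c hc => ?_, fun K h1 => ?_⟩
  · obtain ⟨j, h2⟩ := hK K h1
    obtain ⟨F, hF⟩ := (key K j h1 h2).exists
    refine (avF w F (ν j)).support.finite_toSet.subset fun s ht => ?_
    exact Finset.mem_coe.2 (mem_support_iff.2 (by rw [hF s ht.2]; exact ht.1))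
  · obtain ⟨j, h2⟩ := hK _ (isCompact_range s.continuous)
    have h3 : s (stdSimplex.vertex 0) ∈ A j := h2 ⟨_, rfl⟩
    rw [hμ j s ⟨_, ⟨_, rfl⟩, h3⟩,
      hμ j (g • s) ⟨_, ⟨stdSimplex.vertex 0, rfl⟩, (hA j g _).2 h3⟩, vl_smul]
  · obtain ⟨j, h2⟩ := hK {y} isCompact_singleton
    have h3 : y ∈ A j := h2 rfl
    obtain ⟨F, f1, f2, f3⟩ := ((key _ j isCompact_singleton h2).and
      ((FundL.rz_avF hp (hA j) (hg j).1 h3).and ((hg j).2 y h3))).exists
    have h4 : RZ {y}ᶜ (m + 1) c := by simpa using (rz_of_mem (hc.sub_mem f1)).add f2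
    exact ⟨h4, (ho.congr trivial h4 (rb_of_mem (hc.sub_mem f1))).trans f3⟩
  · obtain ⟨j, h2⟩ := hK K h1
    refine ⟨ν j, ?_, key K j h1 h2⟩
    have h3 : (A j)ᶜ ⊆ {y | ∀ g : G, g • y ∉ K} := fun y hy g e => hy ((hA j g y).1 (h2 e))
    obtain ⟨r, hr, v, hv, e⟩ := Submodule.mem_sup.1 (hg j).1
    exact e ▸ Submodule.add_mem_sup hr (supp_mono h3 m hv)

end Pool.Agent.MP_4f4d9f_gt.Nc

end

section

/-! Equivariance of the duality map, and the local homotopy to the tuple of vertices. -/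

namespace Pool.Agent.MP_4f4d9f_gt.Nc

open Finsupp Sg Sg.Tup Hy Filter Topology

namespace GamEL

section Eqv

variable {G X : Type} [Group G] [TopologicalSpace X] [MulAction G X] [ContinuousConstSMul G X]
  {w : G →* ℤˣ}

theorem trn_smul {k : ℕ} {μ : Sing X k → ℤ} (h : LF μ) (hi : ∀ (g : G) s, μ (g • s) = w g * μ s)
    (g : G) (x : SS X) :
    trn μ (rg (g • x)) = (w g : ℤ) • (trn μ (rg x)).mapDomain (g • ·) := by
  ext s
  obtain ⟨s, rfl⟩ := MulAction.surjective g s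
  have e1 : Set.range (g • s) = (g • ·) '' Set.range s := rg_smul g (⟨k, s⟩ : SS X)
  have e2 : (Set.range (g • s) ∩ rg (g • x)).Nonempty ↔ (Set.range s ∩ rg x).Nonempty := by
    rw [e1, rg_smul, ← Set.image_inter (MulAction.injective g), Set.image_nonempty]
  rw [Finsupp.smul_apply, mapDomain_apply (MulAction.injective g), h.trn_apply (isCompact_rg _),
    h.trn_apply (isCompact_rg _), smul_eq_mul]
  by_cases e : (Set.range s ∩ rg x).Nonempty
  · rw [if_pos e, if_pos (e2.2 e), hi]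
  · rw [if_neg e, if_neg (mt e2.1 e), mul_zero]

theorem ctr_smul {θ : SS X × SS X → ℤ}
    (hi : ∀ (g : G) x y, θ (g • x, g • y) = w g * θ (x, y)) (g : G) (x : SS X)
    (u : Tup G × SS X →₀ ℤ) :
    ctr θ (g • x) (u.mapDomain (g • ·)) = (w g : ℤ) • (ctr θ x u).mapDomain (g • ·) := by
  induction u using Finsupp.induction_linear with
  | zero => simp
  | add a b ha hb => simp only [mapDomain_add, map_add, ha, hb, smul_add]
  | single e r =>
    simp only [ctr, mapDomain_single, linearCombination_single, Prod.smul_fst, Prod.smul_snd,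
      deg_smul, hi, smul_single, smul_eq_mul]
    congr 1
    ring

end Eqv

section Hom

variable {X J : Type} [TopologicalSpace X] (i : X → J) (γ : SS X → (Tup J →₀ ℤ))

theorem deg_ind {P : SS X → Prop}
    (h : ∀ x, (∀ y ∈ (dS (single x 1)).support, P y) → P x) (x : SS X) : P x := by
  induction hn : x.1 using Nat.strong_induction_on generalizing x with
  | _ n ih => exact h x fun y hy => ih y.1 (by have := (mem_support_dS hy).1; omega) y rfl

/-- The homotopy, by recursion on the degree. -/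
noncomputable def Hn : ℕ → SS X → (Tup J →₀ ℤ)
  | 0, x => cn ℤ (i (v0 x)) (γ x - single (ii i x) 1)
  | n + 1, x => cn ℤ (i (v0 x))
      (γ x - single (ii i x) 1 - linearCombination ℤ (Hn n) (dS (single x 1)))

/-- The homotopy. -/
noncomputable def HH (x : SS X) : Tup J →₀ ℤ := Hn i γ x.1 x

theorem HH_eq (x : SS X) : HH i γ x = cn ℤ (i (v0 x))
    (γ x - single (ii i x) 1 - linearCombination ℤ (HH i γ) (dS (single x 1))) := by
  obtain ⟨_ | k, σ⟩ := x
  · rw [dS_single, dS1, map_zero, sub_zero]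
    rfl
  · rw [HH, Hn]
    congr 2
    refine DualZL.map_eq _ _ fun y hy => ?_
    have h1 := (mem_support_dS hy).1
    rw [add_left_inj] at h1
    rw [linearCombination_single, linearCombination_single, HH, h1]

variable {i γ}

theorem HH_deg (hi : AWP i) (h : ChM γ) (x : SS X) :
    ∀ y ∈ (HH i γ x).support, y.deg = x.1 + 1 := by
  classical
  induction x using deg_ind with
  | h x ih =>
    intro y hy
    rw [HH_eq] at hy
    obtain ⟨z, hz, rfl⟩ := Finset.mem_image.1 (mapDomain_support hy)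
    have h1 : γ x - single (ii i x) 1 - linearCombination ℤ (HH i γ) (dS (single x 1)) ∈
        supported ℤ ℤ {y : Tup J | y.deg = x.1} := by
      refine sub_mem (sub_mem (h.deg x) (single_mem_supported ℤ 1 (hi.ideg x)))
        (DualZL.map_mem _ _ fun b hb => ?_)
      rw [linearCombination_single, one_smul]
      exact fun e he => (ih b hb e he).trans (mem_support_dS hb).1
    rw [deg_cons, show z.deg = x.1 from h1 hz]

theorem HH_key (hi : AWP i) (h : ChM γ) (x : SS X) :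
    γ x = single (ii i x) 1 + bdT ℤ (HH i γ x) +
      linearCombination ℤ (HH i γ) (dS (single x 1)) := by
  induction x using deg_ind with
  | h x ih =>
    have e1 := DualZL.map_eq (linearCombination ℤ γ) (lmapDomain ℤ ℤ (ii i) +
      bdT ℤ ∘ₗ linearCombination ℤ (HH i γ) + linearCombination ℤ (HH i γ) ∘ₗ dS)
      (u := dS (single x 1)) fun b hb => by simpa using ih b hb
    simp only [LinearMap.add_apply, lmapDomain_apply, LinearMap.comp_apply, dS_dS, map_zero,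
      add_zero] at e1
    have e2 := DualZL.map_eq (eps ℤ ∘ₗ linearCombination ℤ (HH i γ)) 0 (u := dS (single x 1))
      fun b _ => by
        rw [LinearMap.comp_apply, linearCombination_single, one_smul, HH_eq, eps_cn]
        rfl
    simp only [LinearMap.comp_apply, LinearMap.zero_apply] at e2
    have e3 := hi.ibd (single x 1)
    rw [mapDomain_single] at e3
    have e4 : eps ℤ (single (ii i x) 1) = eps ℤ (γ x) := by rw [eps_single, hi.ideg, h.eps]
    rw [HH_eq i γ x, bdT_cn]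
    simp only [map_sub, h.bd, e1, e2, e3, e4, map_add, sub_self, zero_smul]
    abel

theorem HH_loc {k : ℕ} {μ : Sing X k → ℤ} (hi : AWP i)
    (h : ∀ x, ∀ y ∈ (γ x).support, In (i '' near μ (rg x)) y) (x : SS X) :
    ∀ y ∈ (HH i γ x).support, In (i '' near μ (rg x)) y := by
  induction x using deg_ind with
  | h x ih =>
    change HH i γ x ∈ supported ℤ ℤ {y | In (i '' near μ (rg x)) y}
    rw [HH_eq]
    refine cn_mem (Set.mem_image_of_mem i (subset_near (v0_mem x))) (sub_mem (sub_mem (h x)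
      (single_mem_supported ℤ 1 ((hi.iin x).mono (Set.image_mono subset_near))))
      (DualZL.map_mem _ _ fun b hb => ?_))
    rw [linearCombination_single, one_smul]
    exact fun e he => (ih b hb e he).mono (Set.image_mono (near_mono (mem_support_dS hb).2))

end Hom

end GamEL

theorem gamE_stmt : GamEStmt := by
  intro G X _ _ _ _ m w od θ μ i hθ hμ ha g x
  rw [gam, gam, GamEL.trn_smul hμ.fin hμ.inv, map_smul, map_smul, map_smul, inc_smul, ha,
    GamEL.ctr_smul hθ.inv, smul_smul, Int.units_coe_mul_self, one_smul]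

theorem h_stmt : HStmt := fun _ _ _ _ _ i γ hi h hl =>
  ⟨GamEL.HH i γ, GamEL.HH_deg hi h, GamEL.HH_key hi h, GamEL.HH_loc hi hl⟩

end Pool.Agent.MP_4f4d9f_gt.Nc

end

section

/-! Small cocycles of degree zero and one on a contractible space. -/

namespace Pool.Agent.MP_4f4d9f_gt.Nc

open Finsupp Sg Sg.Tup Hy Filter Topology

namespace SmL

variable {X I M : Type} [TopologicalSpace X] [AddCommGroup M] {V : I → Set X}

theorem kill {k : ℕ} (L : Ch X k →ₗ[ℤ] M) (h : ∀ σ, Sm V ⟨k, σ⟩ → L (single σ 1) = 0)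
    {c : Ch X k} (hc : c ∈ ⨆ a, supp ℤ (V a) k) : L c = 0 := by
  have : (⨆ a, supp ℤ (V a) k) ≤ LinearMap.ker L := iSup_le fun a c hc =>
    supp_induction (P := fun c => c ∈ LinearMap.ker L) (zero_mem _) (fun _ _ => add_mem)
      (fun σ r hσ => by
        rw [← smul_single_one]
        exact Submodule.smul_mem _ _ (h σ ⟨a, by rintro _ ⟨t, rfl⟩; exact hσ t⟩)) hc
  exact this hc

theorem small (hV : ∀ a, IsOpen (V a)) (hc : ∀ y, ∃ a, y ∈ V a) {k : ℕ} (c : Ch X k) :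
    ∃ m : ℕ, (sdR ℤ X k ^ m) c ∈ ⨆ a, supp ℤ (V a) k := by
  obtain ⟨m, hm⟩ := sdR_small hV (c := c)
    (mem_supp.2 fun σ _ t => Set.mem_iUnion.2 (hc (σ t)))
  exact ⟨m, hm m le_rfl⟩

theorem sd_zero (m : ℕ) (c : Ch X 0) : (sdR ℤ X 0 ^ m) c = c := by
  induction m with
  | zero => rfl
  | succ m ih => rw [pow_succ, Module.End.mul_apply, sdR_zero, ih]

theorem fill1 [ContractibleSpace X] (hV : ∀ a, IsOpen (V a)) (hc : ∀ y, ∃ a, y ∈ V a) (y z : X) :
    ∃ c ∈ ⨆ a, supp ℤ (V a) 1, dS (inc 1 c) = single (ptS z) 1 - single (ptS y) 1 := by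
  obtain ⟨b, hb⟩ := (acyclic_of_contractible ℤ X).zero
    (single (ContinuousMap.const _ z) 1 - single (ContinuousMap.const _ y) 1)
    (by rw [map_sub, aug_single, aug_single, sub_self])
  obtain ⟨m, hm⟩ := small hV hc b
  refine ⟨_, hm, ?_⟩
  rw [dS_inc, bd_sdR_pow, sd_zero, hb, map_sub, inc_single, inc_single]
  rfl

theorem fill2 [ContractibleSpace X] (hV : ∀ a, IsOpen (V a)) (hc : ∀ y, ∃ a, y ∈ V a)
    {z : Ch X 1} (hz : z ∈ ⨆ a, supp ℤ (V a) 1) (h0 : bd ℤ X 0 z = 0) :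
    ∃ u ∈ ⨆ a, supp ℤ (V a) 2, bd ℤ X 1 u = z := by
  obtain ⟨b, hb⟩ := (acyclic_of_contractible ℤ X).succ 0 z h0
  obtain ⟨m, hm⟩ := small hV hc b
  have : (⨆ a, supp ℤ (V a) 1) ≤ (⨆ a, supp ℤ (V a) 2).comap (sdHPow ℤ X m 1) :=
    iSup_le fun a c hc => Submodule.mem_iSup_of_mem a (sdHPow_mem_supp m hc)
  refine ⟨_, add_mem hm (this hz), ?_⟩
  rw [map_add, bd_sdR_pow, hb, bd_sdHPow, h0, map_zero]
  abel

end SmL

open SmL in
theorem sm_stmt : SmStmt := by
  intro X I M _ _ _ V hV hc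
  refine ⟨fun c h y z => ?_, fun W hW => ?_⟩
  · obtain ⟨u, h1, h2⟩ := fill1 hV hc y z
    have h3 := kill (linearCombination ℤ (fun s : SS X => c (v0 s)) ∘ₗ dS ∘ₗ inc 1)
      (fun τ hτ => by
        simp only [LinearMap.comp_apply, inc_single, dS_one, map_sub, linearCombination_single,
          one_smul, v0_ptS, h τ hτ, sub_self]) h1
    simp only [LinearMap.comp_apply, h2, map_sub, linearCombination_single, one_smul,
      v0_ptS] at h3
    exact (sub_eq_zero.1 h3).symm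
  · obtain ⟨y0⟩ := (acyclic_of_contractible ℤ X).nonempty
    choose u h1 h2 using fill1 hV hc y0
    refine ⟨fun y => linearCombination ℤ W (inc 1 (u y)), fun τ hτ => ?_⟩
    obtain ⟨a, ha⟩ := hτ
    have h3 : single τ 1 ∈ ⨆ a, supp ℤ (V a) 1 :=
      Submodule.mem_iSup_of_mem a (single_mem_supp 1 fun t => ha ⟨t, rfl⟩)
    obtain ⟨b, h4, h5⟩ := fill2 hV hc (sub_mem (add_mem (h1 (v0 ⟨1, τ⟩)) h3) (h1 (v1 τ))) (by
      rw [← res_inc 0 (bd ℤ X 0 _), ← dS_inc, map_sub, map_add, map_sub, map_add, h2, h2,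
        inc_single, dS_one, ← map_zero (res 0)]
      congr 1
      abel)
    have h6 := kill (linearCombination ℤ W ∘ₗ dS ∘ₗ inc 2) (fun σ hσ => by
      rw [LinearMap.comp_apply, LinearMap.comp_apply, inc_single]
      exact hW _ hσ rfl) h4
    rw [LinearMap.comp_apply, LinearMap.comp_apply, dS_inc, h5, map_sub, map_add, map_sub, map_add,
      inc_single, linearCombination_single, one_smul, sub_eq_zero] at h6
    exact eq_sub_of_add_eq' h6

end Pool.Agent.MP_4f4d9f_gt.Nc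

end

section

/-! An invariant locally finite cover by small path connected open sets. -/

namespace Pool.Agent.MP_4f4d9f_gt.Nc

open Finsupp Sg Sg.Tup Hy Filter Topology

namespace CovAL

/-- The action on the first factor. -/
abbrev act (G α : Type) [Group G] : MulAction G (G × α) where
  smul g x := (g * x.1, x.2)
  one_smul x := Prod.ext (one_mul x.1) rfl
  mul_smul g h x := Prod.ext (mul_assoc g h x.1) rfl

end CovAL

open CovAL in
theorem covA_stmt : CovAStmt := by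
  intro G X M _ _ _ _ _ _ _ p m hp hc
  have := OrientL.lpc hc
  have hK : ∀ x : X, ∃ K, IsCompact K ∧ K ∈ 𝓝 x := fun x => by
    obtain ⟨i, hi, y, rfl⟩ := hc x
    obtain ⟨K, h1, h2⟩ := exists_compact_mem_nhds y
    exact ⟨i '' K, h1.image i.continuous, hi.isOpenMap.image_mem_nhds h2⟩
  have ho := hp.isOpenQuotientMap.isOpenMap
  choose s hs using hp.surjective
  have hn : ∀ y W, W ∈ 𝓝 (s y) → p '' W ∈ 𝓝 y := fun y W h => by
    simpa only [hs] using ho.image_mem_nhds h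
  have : WeaklyLocallyCompactSpace M := ⟨fun y => by
    obtain ⟨K, h1, h2⟩ := hK (s y)
    exact ⟨p '' K, h1.image hp.continuous, hn y K h2⟩⟩
  have hB : ∀ y, (𝓝 y).HasBasis (fun W : Set X => IsOpen W ∧ s y ∈ W ∧ IsPathConnected W ∧
      ∃ K, IsCompact K ∧ W ⊆ K) (fun W => p '' W) := fun y => by
    refine ⟨fun N => ⟨fun hN => ?_, fun ⟨W, hW, h⟩ =>
      mem_of_superset (hn y W (hW.1.mem_nhds hW.2.1)) h⟩⟩
    obtain ⟨K, h1, h2⟩ := hK (s y)
    have h3 : p ⁻¹' N ∈ 𝓝 (s y) := hp.continuous.continuousAt.preimage_mem_nhds (by rwa [hs])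
    obtain ⟨W, ⟨a1, a2, a3⟩, a4⟩ := (isOpen_isPathConnected_basis (s y)).mem_iff.1 (inter_mem h2 h3)
    exact ⟨W, ⟨a1, a2, a3, K, h1, fun z hz => (a4 hz).1⟩,
      Set.image_subset_iff.2 fun z hz => (a4 hz).2⟩
  obtain ⟨α, c, r, h1, h2, h3⟩ := refinement_of_locallyCompact_sigmaCompact_of_nhds_basis hB
  choose C hC hrC using fun a => (h1 a).2.2.2
  refine ⟨G × α, act G α, fun i => (i.1 • ·) '' r i.2, fun i => i.1 • s (c i.2),
    @CovE.mk _ _ _ G _ _ (act G α) _ (fun g a h => ?_) (fun g a y => ?_) (fun g a => ?_),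
    fun i => (Homeomorph.smul i.1).isOpenMap _ (h1 i.2).1,
    fun i => (h1 i.2).2.2.1.image (continuous_const_smul i.1), fun y => ?_,
    fun i => ⟨_, (h1 i.2).2.1, rfl⟩, fun K hK => ?_,
    fun i => ⟨_, (hC i.2).image (continuous_const_smul i.1), Set.image_mono (hrC i.2)⟩⟩
  · exact mul_eq_right.1 (congrArg Prod.fst h)
  · change g • y ∈ ((g * a.1) • ·) '' r a.2 ↔ y ∈ (a.1 • ·) '' r a.2
    simp only [Set.mem_image, mul_smul, smul_left_cancel_iff]
  · exact mul_smul g a.1 _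
  · obtain ⟨a, z, e1, e2⟩ := Set.mem_iUnion.1 (h2.ge (Set.mem_univ (p y)))
    obtain ⟨g, hg⟩ := hp.apply_eq_iff_mem_orbit.1 e2.symm
    exact ⟨(g, a), z, e1, hg⟩
  · refine ((h3.finite_nonempty_inter_compact (hK.image hp.continuous)).biUnion fun a _ =>
      (proper_of_cover hp _ (hK.union (hC a))).prod (Set.finite_singleton a)).subset ?_
    rintro ⟨g, a⟩ ⟨_, ⟨z, e1, rfl⟩, e2⟩
    exact Set.mem_biUnion (x := a)
      ⟨p z, ⟨z, e1, rfl⟩, _, e2, hp.apply_eq_iff_mem_orbit.2 ⟨g, rfl⟩⟩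
      ⟨⟨_, ⟨z, Or.inr (hrC a e1), rfl⟩, Or.inl e2⟩, rfl⟩

end Pool.Agent.MP_4f4d9f_gt.Nc

end

section

/-! Enlarging a cover so that the simplices of a locally finite chain become small. -/

namespace Pool.Agent.MP_4f4d9f_gt.Nc

open Finsupp Sg Sg.Tup Hy Filter Topology

namespace CovBL

variable {X I : Type} [TopologicalSpace X] {k : ℕ} (μ : Sing X k → ℤ) (U : I → Set X)

/-- The enlarged cover. -/
def W (a : I) : Set X :=
  U a ∪ {y | ∃ (b : I) (s : Sing X k), μ s ≠ 0 ∧ (Set.range s ∩ U a).Nonempty ∧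
    (Set.range s ∩ U b).Nonempty ∧ y ∈ U b}

variable {μ U}

theorem op (ho : ∀ a, IsOpen (U a)) (a : I) : IsOpen (W μ U a) := by
  refine (ho a).union (isOpen_iff_forall_mem_open.2 ?_)
  rintro y ⟨b, s, h1, h2, h3, h4⟩
  exact ⟨U b, fun z hz => ⟨b, s, h1, h2, h3, hz⟩, ho b, h4⟩

theorem range_sub (hc : ∀ y, ∃ a, y ∈ U a) {a : I} {s : Sing X k} (h1 : μ s ≠ 0)
    (h2 : (Set.range s ∩ U a).Nonempty) : Set.range s ⊆ W μ U a := by
  intro y hy
  obtain ⟨b, hb⟩ := hc y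
  exact Or.inr ⟨b, s, h1, h2, ⟨y, hy, hb⟩, hb⟩

theorem range_pc (s : Sing X k) : IsPathConnected (Set.range s) :=
  isPathConnected_range s.continuous

theorem pc (hp : ∀ a, IsPathConnected (U a)) (hc : ∀ y, ∃ a, y ∈ U a) {a : I} {x y : X}
    (hx : x ∈ U a) (hy : y ∈ W μ U a) : JoinedIn (W μ U a) x y := by
  rcases hy with hy | ⟨b, s, h1, h2, h3, h4⟩
  · exact ((hp a).joinedIn x hx y hy).mono Set.subset_union_left
  · obtain ⟨p, hp1, hp2⟩ := h2
    obtain ⟨q, hq1, hq2⟩ := h3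
    have j1 : JoinedIn (W μ U a) x p :=
      ((hp a).joinedIn x hx p hp2).mono Set.subset_union_left
    have j2 : JoinedIn (W μ U a) p q :=
      ((range_pc s).joinedIn p hp1 q hq1).mono (range_sub hc h1 ⟨p, hp1, hp2⟩)
    have j3 : JoinedIn (W μ U a) q y :=
      ((hp b).joinedIn q hq2 y h4).mono fun z hz =>
        Or.inr ⟨b, s, h1, ⟨p, hp1, hp2⟩, ⟨q, hq1, hq2⟩, hz⟩
    exact (j1.trans j2).trans j3

/-- Finitely many neighbours through a simplex. -/
theorem fin_nb (hμ : LF μ) (hl : ∀ K, IsCompact K → {a | (U a ∩ K).Nonempty}.Finite)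
    (hr : ∀ a, ∃ K, IsCompact K ∧ U a ⊆ K) (a : I) :
    {b | ∃ s : Sing X k, μ s ≠ 0 ∧ (Set.range s ∩ U a).Nonempty ∧
      (Set.range s ∩ U b).Nonempty}.Finite := by
  obtain ⟨K, hK, h⟩ := hr a
  refine ((hμ K hK).biUnion fun s _ => hl _ (isCompact_range s.continuous)).subset ?_
  rintro b ⟨s, h1, h2, h3⟩
  simp only [Set.mem_iUnion, Set.mem_ofPred_eq]
  exact ⟨s, ⟨h1, h2.mono (Set.inter_subset_inter_right _ h)⟩, by rwa [Set.inter_comm]⟩

theorem rc (hμ : LF μ) (hl : ∀ K, IsCompact K → {a | (U a ∩ K).Nonempty}.Finite)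
    (hr : ∀ a, ∃ K, IsCompact K ∧ U a ⊆ K) (a : I) : ∃ K, IsCompact K ∧ W μ U a ⊆ K := by
  have hf := fin_nb hμ hl hr a
  choose K hK h using hr
  refine ⟨_, (hK a).union (hf.isCompact_biUnion fun b _ => hK b), ?_⟩
  rintro y (hy | ⟨b, s, h1, h2, h3, h4⟩)
  · exact Or.inl (h a hy)
  · exact Or.inr (Set.mem_biUnion (show b ∈ _ from ⟨s, h1, h2, h3⟩) (h b h4))

theorem lf (hμ : LF μ) (hl : ∀ K, IsCompact K → {a | (U a ∩ K).Nonempty}.Finite)
    (hr : ∀ a, ∃ K, IsCompact K ∧ U a ⊆ K) (K : Set X) (hK : IsCompact K) :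
    {a | (W μ U a ∩ K).Nonempty}.Finite := by
  refine ((hl K hK).union ((hl K hK).biUnion fun b _ => fin_nb hμ hl hr b)).subset ?_
  rintro a ⟨y, hy | ⟨b, s, h1, h2, h3, h4⟩, hyK⟩
  · exact Or.inl ⟨y, hy, hyK⟩
  · exact Or.inr (Set.mem_biUnion (show b ∈ _ from ⟨y, h4, hyK⟩) ⟨s, h1, h3, h2⟩)

theorem smul_mem {G : Type} [Group G] [MulAction G X] [ContinuousConstSMul G X] [MulAction G I]
    {x : I → X} (hg : ∀ (g : G) s, μ s ≠ 0 → μ (g • s) ≠ 0) (hE : CovE U G x) (g : G) {a : I}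
    {y : X} (hy : y ∈ W μ U a) : g • y ∈ W μ U (g • a) := by
  have key : ∀ (s : Sing X k) c, (Set.range s ∩ U c).Nonempty →
      (Set.range (g • s : Sing X k) ∩ U (g • c)).Nonempty := by
    rintro s c ⟨_, ⟨t, rfl⟩, h⟩
    exact ⟨g • s t, ⟨t, rfl⟩, (hE.set g c _).2 h⟩
  rcases hy with hy | ⟨b, s, h1, h2, h3, h4⟩
  · exact Or.inl ((hE.set g a y).2 hy)
  · exact Or.inr ⟨g • b, g • s, hg g s h1, key s a h2, key s b h3, (hE.set g b y).2 h4⟩

theorem fin_step {r : I → I → Prop} (h : ∀ a, {b | r a b}.Finite) {S : Set I} (hS : S.Finite) :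
    {b | ∃ c ∈ S, r c b}.Finite := by
  refine (hS.biUnion fun c _ => h c).subset ?_
  rintro b ⟨c, h1, h2⟩
  exact Set.mem_biUnion h1 h2

theorem fin_four {r : I → I → Prop} (h : ∀ a, {b | r a b}.Finite) (a : I) :
    {b | ∃ c₁ c₂ c₃, r a c₁ ∧ r c₁ c₂ ∧ r c₂ c₃ ∧ r c₃ b}.Finite := by
  refine (fin_step h (fin_step h (fin_step h (h a)))).subset ?_
  rintro b ⟨c₁, c₂, c₃, h1, h2, h3, h4⟩
  exact ⟨c₃, ⟨c₂, ⟨c₁, h1, h2⟩, h3⟩, h4⟩

end CovBL

open CovBL in
theorem covB_stmt : CovBStmt := by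
  intro G X I _ _ _ _ _ k μ U x hμ hg hE ho hp hc hx hl hr
  have hm : ∀ a, {b | Mt (W μ U) a b}.Finite := fun a => by
    obtain ⟨K, hK, h⟩ := rc hμ hl hr a
    refine (lf hμ hl hr K hK).subset ?_
    rintro b ⟨y, h1, h2⟩
    exact ⟨y, h2, h h1⟩
  choose i hi using hc
  have hc : ∀ y, ∃ a, y ∈ U a := fun y => ⟨_, hi y⟩
  refine ⟨W μ U, i, fun a => (fin_four hm a).toFinset, ⟨op ho, fun a y hy z hz => ?_,
    fun y => Or.inl (hi y), fun a => Or.inl (hx a), lf hμ hl hr, rc hμ hl hr, fun a b => ?_⟩,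
    ⟨hE.free, fun g a y => ⟨fun h => ?_, smul_mem hg hE g⟩, hE.base⟩, fun s hs => ?_⟩
  · exact (pc hp hc (hx a) hy).symm.trans (pc hp hc (hx a) hz)
  · rw [Set.Finite.mem_toFinset]
    rfl
  · simpa only [inv_smul_smul] using smul_mem hg hE g⁻¹ h
  · exact ⟨i (v0 ⟨k, s⟩), range_sub hc hs ⟨_, v0_mem ⟨k, s⟩, hi _⟩⟩

end Pool.Agent.MP_4f4d9f_gt.Nc

end

section

/-! The first cohomology and the second compactly supported cohomology of the flag complex of the
graph of a cover. -/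

namespace Pool.Agent.MP_4f4d9f_gt.Nc

open Finsupp Sg Sg.Tup Hy Filter Topology

namespace C02L

variable {X I : Type} [TopologicalSpace X] {V : I → Set X} {i : X → I} {x : I → X}
  {nb : I → Finset I}

theorem two : (2 : ZMod 2) = 0 := rfl

theorem bd_edge (a k : I) :
    bdT ℤ (single (cons a (pt k)) 1) = single (pt k) 1 - single (pt a) 1 := by
  rw [bdT_cons, bdT_pt, map_zero, sub_zero, eps_single, deg_pt, if_pos rfl, one_smul]

theorem bd_tri (a g k : I) : bdT ℤ (single (cons a (cons g (pt k))) 1) =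
    single (cons g (pt k)) 1 - (single (cons a (pt k)) 1 - single (cons a (pt g)) 1) := by
  rw [bdT_cons, bd_edge, map_sub, cn_single, cn_single, eps_single, deg_cons,
    if_neg (Nat.succ_ne_zero _), zero_smul, sub_zero]

theorem bd_tet (a b g k : I) : bdT ℤ (single (cons a (cons b (cons g (pt k)))) 1) =
    single (cons b (cons g (pt k))) 1 - (single (cons a (cons g (pt k))) 1 -
      (single (cons a (cons b (pt k))) 1 - single (cons a (cons b (pt g))) 1)) := by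
  rw [bdT_cons, bd_tri, map_sub, map_sub, cn_single, cn_single, cn_single, eps_single, deg_cons,
    if_neg (Nat.succ_ne_zero _), zero_smul, sub_zero]

theorem eq_tri {y : Tup I} (h : y.deg = 2) : ∃ a b e, y = cons a (cons b (pt e)) := by
  obtain ⟨a, l⟩ := y
  obtain ⟨b, e, rfl⟩ := List.length_eq_two.1 h
  exact ⟨a, b, e, rfl⟩

theorem eq_tet {y : Tup I} (h : y.deg = 3) : ∃ a b e f, y = cons a (cons b (cons e (pt f))) := by
  obtain ⟨a, l⟩ := y
  obtain ⟨b, e, f, rfl⟩ := List.length_eq_three.1 h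
  exact ⟨a, b, e, f, rfl⟩

theorem lc_sub {B : Type} (f g : B → ZMod 2) (u : B →₀ ℤ) :
    linearCombination ℤ (fun s => f s - g s) u =
      linearCombination ℤ f u - linearCombination ℤ g u := by
  induction u using Finsupp.induction_linear with
  | zero => simp
  | add a b ha hb => rw [map_add, map_add, map_add, ha, hb, add_sub_add_comm]
  | single a r => simp only [linearCombination_single, smul_sub]

/-- A function on pairs as a cochain on tuples. -/
def w1 (w : I × I → ZMod 2) : Tup I → ZMod 2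
  | ⟨a, [b]⟩ => w (a, b)
  | _ => 0

theorem w1_edge (w : I × I → ZMod 2) (a b : I) : w1 w (cons a (pt b)) = w (a, b) := rfl

open Classical in
/-- The coboundary on flag triangles as a cochain on tuples. -/
noncomputable def z2 (nb : I → Finset I) (w : I × I → ZMod 2) : Tup I → ZMod 2
  | ⟨a, [b, e]⟩ => if Tr nb (a, b, e) then d1 w (a, b, e) else 0
  | _ => 0

theorem z2_tri (w : I × I → ZMod 2) {a b e : I} (h : Tr nb (a, b, e)) :
    z2 nb w (cons a (cons b (pt e))) = d1 w (a, b, e) := if_pos h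

theorem z2_ne (w : I × I → ZMod 2) {y : Tup I} (h : z2 nb w y ≠ 0) :
    ∃ t : I × I × I, (Tr nb t ∧ d1 w t ≠ 0) ∧ cons t.1 (cons t.2.1 (pt t.2.2)) = y := by
  obtain ⟨a, _ | ⟨b, _ | ⟨e, _ | ⟨f, l⟩⟩⟩⟩ := y
  · exact absurd rfl h
  · exact absurd rfl h
  · by_cases c : Tr nb (a, b, e)
    · exact ⟨(a, b, e), ⟨c, fun e' => h ((z2_tri w c).trans e')⟩, rfl⟩
    · exact absurd (if_neg c) h
  · exact absurd rfl h

theorem small_tri (h : Cov V i x nb) (hA : AWP i) (w : I × I → ZMod 2) {s : SS X} (hs : Sm V s)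
    (h2 : s.1 = 2) : ∃ a b e, ii i s = cons a (cons b (pt e)) ∧ Tr nb (a, b, e) ∧
      linearCombination ℤ (fun s => w1 w (ii i s)) (dS (single s 1)) = d1 w (a, b, e) := by
  obtain ⟨a, b, e, h3⟩ := eq_tri ((hA.ideg s).trans h2)
  obtain ⟨u, hu⟩ := hs
  have key : ∀ y ∈ i '' rg s, ∀ z ∈ i '' rg s, z ∈ nb y := by
    rintro _ ⟨y, hy, rfl⟩ _ ⟨z, hz, rfl⟩
    exact h.nb_of_mt2 (h.mt_i (hu hy)).symm (h.mt_i (hu hz))
  have h4 := hA.iin s
  rw [h3, in_cons, in_cons, in_pt] at h4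
  refine ⟨a, b, e, h3, ⟨key _ h4.1 _ h4.2.1, key _ h4.1 _ h4.2.2, key _ h4.2.1 _ h4.2.2⟩, ?_⟩
  have h5 := linearCombination_mapDomain ℤ (v' := w1 w) (ii i) (dS (single s 1))
  rw [← hA.ibd, mapDomain_single, h3, bd_tri] at h5
  simp only [map_sub, linearCombination_single, one_smul, w1_edge] at h5
  refine h5.symm.trans ?_
  show _ = w (b, e) + w (a, e) + w (a, b)
  linear_combination (-w (a, e)) * two

theorem main (h : Cov V i x nb) (hS : SmP V (ZMod 2)) (w : I × I → ZMod 2) (c : SS X → ZMod 2)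
    (K : Set X) (Bad : Set I) (hc : ∀ s, Disjoint (rg s) K → c s = 0)
    (hK : ∀ a, (V a ∩ K).Nonempty → a ∈ Bad) (hB : ∀ t, Tr nb t → t.1 ∉ Bad → d1 w t = 0)
    (hW : ∀ s, Sm V s → s.1 = 2 →
      linearCombination ℤ (fun s => w1 w (ii i s) - c s) (dS (single s 1)) = 0) :
    ∃ F, ∀ a b, b ∈ nb a → (∀ e ∈ nb a, e ∉ Bad) → w (a, b) = d0 F (a, b) := by
  obtain ⟨F1, hF⟩ := hS.one _ hW
  have hT : ∀ a b e, a ∉ Bad → b ∈ nb a → e ∈ nb a → e ∈ nb b →
      w (b, e) + w (a, e) + w (a, b) = 0 := fun a b e ha h1 h2 h3 => hB (a, b, e) ⟨h1, h2, h3⟩ ha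
  have k1 : ∀ a, a ∉ Bad → ∀ p ∈ V a, w (i (x a), i p) = F1 p - F1 (x a) := by
    intro a ha p hp
    obtain ⟨τ, h1, h2, h3⟩ := exists_sing (h.pc a _ (h.base a) p hp)
    have h4 := hF τ ⟨a, h1⟩
    rw [ii_one, w1_edge, h2, h3, hc _ (Set.disjoint_left.2 fun y hy hy' =>
      ha (hK a ⟨y, h1 hy, hy'⟩)), sub_zero] at h4
    exact h4
  obtain ⟨F, hF'⟩ : ∃ F : I → ZMod 2, ∀ a, F a = F1 (x a) + w (a, i (x a)) := ⟨_, fun _ => rfl⟩
  have k2 : ∀ a, a ∉ Bad → ∀ p ∈ V a, w (a, i p) = F1 p + F a := by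
    intro a ha p hp
    have h1 := hT a _ _ ha (h.nb_of_mt (h.mt_i (h.base a))) (h.nb_of_mt (h.mt_i hp))
      (h.nb_of_mt2 (h.mt_i (h.base a)).symm (h.mt_i hp))
    rw [k1 a ha p hp] at h1
    rw [hF']
    linear_combination h1 - (F1 p + w (a, i (x a))) * two
  have k3 : ∀ a b, a ∉ Bad → b ∉ Bad → Mt V a b → w (a, b) = F a + F b := by
    rintro a b ha hb ⟨p, h1, h2⟩
    have h3 := hT a b _ ha (h.nb_of_mt ⟨p, h1, h2⟩) (h.nb_of_mt (h.mt_i h1))
      (h.nb_of_mt (h.mt_i h2))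
    rw [k2 a ha p h1, k2 b hb p h2] at h3
    linear_combination h3 - (F1 p + F a + F b) * two
  refine ⟨F, fun a b hb hn => ?_⟩
  have k4 : ∀ u ∈ nb a, ∀ v ∈ nb a, Mt V u v → w (a, u) = F a + F u → w (a, v) = F a + F v := by
    intro u hu v hv huv e
    have h1 := hT a u v (hn a (h.refl a)) hu hv (h.nb_of_mt huv)
    rw [k3 u v (hn u hu) (hn v hv) huv, e] at h1
    linear_combination h1 - (F a + F u + F v) * two
  obtain ⟨c₁, c₂, c₃, h1, h2, h3, h4⟩ := (h.adj a b).1 hb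
  have m1 : c₁ ∈ nb a := h.nb_of_mt h1
  have m2 : c₂ ∈ nb a := h.nb_of_mt2 h1 h2
  have m3 : c₃ ∈ nb a := (h.adj a c₃).2 ⟨a, c₁, c₂, h.mt_refl a, h1, h2, h3⟩
  exact k4 _ m3 _ hb h4 (k4 _ m2 _ m3 h3 (k4 _ m1 _ m2 h2
    (k3 a c₁ (hn a (h.refl a)) (hn c₁ m1) h1)))

theorem z2_coc (w : I × I → ZMod 2) (y : Tup I) (hy : Clq nb y) (h3 : y.deg = 1 + 2) :
    linearCombination ℤ (z2 nb w) (bdT ℤ (single y 1)) = 0 := by
  obtain ⟨a, b, e, f, rfl⟩ := eq_tet h3
  obtain ⟨R, h1, h2⟩ := hy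
  rw [in_cons, in_cons, in_cons, in_pt] at h1
  obtain ⟨ha, hb, he, hf⟩ := h1
  have key : ∀ u ∈ R, ∀ v ∈ R, ∀ z ∈ R, z2 nb w (cons u (cons v (pt z))) =
      w (v, z) + w (u, z) + w (u, v) := fun u hu v hv z hz =>
    z2_tri w ⟨h2 u hu v hv, h2 u hu z hz, h2 v hv z hz⟩
  rw [bd_tet]
  simp only [map_sub, linearCombination_single, one_smul]
  rw [key b hb e he f hf, key a ha e he f hf, key a ha b hb f hf, key a ha b hb e he]
  linear_combination (w (b, f) - w (a, e)) * two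

end C02L

open C02L in
theorem c02_stmt : C02Stmt := by
  intro X I _ V i x nb h hS hA
  refine ⟨fun w hw => ?_, fun hN w hw => ?_⟩
  · obtain ⟨F, hF⟩ := main h hS w (fun _ => 0) ∅ ∅ (fun _ _ => rfl)
      (fun a ⟨_, hy⟩ => hy.2) (fun t ht _ => hw t ht) fun s hs h2 => by
        obtain ⟨a, b, e, -, h3, h4⟩ := small_tri h hA w hs h2
        simp only [sub_zero]
        rw [h4, hw _ h3]
    exact ⟨F, fun e he => hF e.1 e.2 he fun _ _ => id⟩
  · obtain ⟨c, K, hK, hc, hz⟩ := hN (z2 nb w)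
      ((hw.image fun t : I × I × I => Tup.cons t.1 (Tup.cons t.2.1 (pt t.2.2))).subset
        fun y hy => z2_ne w hy)
      (fun y hy => by
        obtain ⟨t, -, rfl⟩ := z2_ne w hy
        rfl) (z2_coc w)
    have hB : ({a | (V a ∩ K).Nonempty} ∪ Prod.fst '' {t | Tr nb t ∧ d1 w t ≠ 0}).Finite :=
      (h.lf K hK).union (hw.image _)
    obtain ⟨F, hF⟩ := main h hS w c K
      ({a | (V a ∩ K).Nonempty} ∪ Prod.fst '' {t | Tr nb t ∧ d1 w t ≠ 0}) hc
      (fun a ha => Or.inl ha)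
      (fun t ht hn => by_contra fun e => hn (Or.inr ⟨t, ⟨ht, e⟩, rfl⟩)) fun s hs h2 => by
        obtain ⟨a, b, e, h5, h3, h4⟩ := small_tri h hA w hs h2
        rw [lc_sub, h4, ← hz s hs h2, h5, z2_tri w h3, sub_self]
    refine ⟨F, (hB.biUnion fun e _ => (nb e).finite_toSet.biUnion fun a _ =>
      (nb a).finite_toSet.image fun b => (a, b)).subset ?_⟩
    rintro ⟨a, b⟩ ⟨h1, h2⟩
    by_contra hn
    refine h2 (hF a b h1 fun e he hb => hn ?_)
    exact Set.mem_biUnion hb (Set.mem_biUnion (Finset.mem_coe.2 (h.symm he)) ⟨b, h1, rfl⟩)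

end Pool.Agent.MP_4f4d9f_gt.Nc

end

section

/-! The graph of the cover is connected and has one end mod 2. -/

namespace Pool.Agent.MP_4f4d9f_gt.Nc

open Finsupp Sg Sg.Tup Hy Filter Topology

namespace C1L

variable {X I : Type}

theorem bd_edge (a k : I) :
    bdT ℤ (single (cons a (pt k)) 1) = single (pt k) 1 - single (pt a) 1 := by
  rw [bdT_cons, bdT_pt, map_zero, sub_zero, eps_single, deg_pt, if_pos rfl, one_smul]

theorem bd_tri (a g k : I) : bdT ℤ (single (cons a (cons g (pt k))) 1) =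
    single (cons g (pt k)) 1 - (single (cons a (pt k)) 1 - single (cons a (pt g)) 1) := by
  rw [bdT_cons, bd_edge, map_sub, cn_single, cn_single, eps_single, deg_cons,
    if_neg (Nat.succ_ne_zero _), zero_smul, sub_zero]

open Classical in
/-- The coboundary of `F` on the edges of the graph. -/
noncomputable def ze (nb : I → Finset I) (F : I → ZMod 2) (t : Tup I) : ZMod 2 :=
  if t.deg = 1 ∧ t.tl.headD t.hd ∈ nb t.hd then d0 F (t.hd, t.tl.headD t.hd) else 0

theorem ze_edge {nb : I → Finset I} (F : I → ZMod 2) {a b : I} (h : b ∈ nb a) :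
    ze nb F (cons a (pt b)) = F a + F b := if_pos ⟨rfl, h⟩

theorem ze_ne {nb : I → Finset I} {F : I → ZMod 2} {t : Tup I} (h : ze nb F t ≠ 0) :
    ∃ e : I × I, (Ed nb e ∧ d0 F e ≠ 0) ∧ cons e.1 (pt e.2) = t := by
  unfold ze at h
  split_ifs at h with k
  · obtain ⟨a, l⟩ := t
    obtain ⟨b, rfl⟩ := List.length_eq_one_iff.1 k.1
    exact ⟨(a, b), ⟨k.2, h⟩, rfl⟩
  · exact absurd rfl h

variable [TopologicalSpace X] {V : I → Set X} {i : X → I} {x : I → X} {nb : I → Finset I}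

theorem adj (h : Cov V i x nb) {τ : Sing X 1} (hτ : Sm V ⟨1, τ⟩) :
    i (v1 τ) ∈ nb (i (v0 ⟨1, τ⟩)) := by
  obtain ⟨e, he⟩ := hτ
  exact h.nb_of_mt2 (h.mt_i (he (v0_mem _))).symm (h.mt_i (he (v1_mem τ)))

theorem conn (h : Cov V i x nb) (hs : SmP V (ZMod 2)) (a b : I) :
    Relation.ReflTransGen (fun x y => y ∈ nb x) a b := by
  classical
  have h1 := hs.zero
    (fun y => if Relation.ReflTransGen (fun x y => y ∈ nb x) a (i y) then 1 else 0)
    (fun τ hτ => if_congr ⟨fun k => k.tail (h.symm (adj h hτ)), fun k => k.tail (adj h hτ)⟩ rfl rfl)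
    (x a) (x b)
  rw [if_pos (Relation.ReflTransGen.single (h.nb_of_mt (h.mt_i (h.base a))))] at h1
  split_ifs at h1 with k
  · exact k.tail (h.symm (h.nb_of_mt (h.mt_i (h.base b))))
  · exact absurd h1 one_ne_zero

theorem c1 (h : Cov V i x nb) (hs : SmP V (ZMod 2)) (hC : CoN V i nb 0) (F : I → ZMod 2)
    (hF : {e | Ed nb e ∧ d0 F e ≠ 0}.Finite) : {x | F x ≠ 0}.Finite ∨ {x | F x ≠ 1}.Finite := by
  obtain ⟨c, K, hK, h0, h1⟩ := hC (ze nb F)
    ((hF.image fun e : I × I => cons e.1 (pt e.2)).subset fun t ht => ze_ne ht)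
    (fun t ht => by
      obtain ⟨e, -, rfl⟩ := ze_ne ht
      rfl)
    (fun t ht hd => by
      obtain ⟨a, l⟩ := t
      obtain ⟨b, d, rfl⟩ := List.length_eq_two.1 hd
      obtain ⟨R, k1, k2⟩ := ht
      change In R (cons a (cons b (pt d))) at k1
      rw [in_cons, in_cons, in_pt] at k1
      change linearCombination ℤ _ (bdT ℤ (single (cons a (cons b (pt d))) 1)) = 0
      simp only [bd_tri, map_sub, linearCombination_single, one_smul]
      rw [ze_edge F (k2 _ k1.2.1 _ k1.2.2), ze_edge F (k2 _ k1.1 _ k1.2.2),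
        ze_edge F (k2 _ k1.1 _ k1.2.1)]
      generalize F a = u
      generalize F b = v
      generalize F d = w
      revert u v w
      decide)
  have h2 := hs.zero (fun y => F (i y) - c (ptS y)) fun τ hτ => by
    have k := h1 _ hτ rfl
    rw [ii_one, ze_edge F (adj h hτ), dS_one] at k
    simp only [map_sub, linearCombination_single, one_smul] at k
    revert k
    generalize F (i (v0 ⟨1, τ⟩)) = u
    generalize F (i (v1 τ)) = v
    generalize c (ptS (v0 ⟨1, τ⟩)) = w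
    generalize c (ptS (v1 τ)) = z
    revert u v w z
    decide
  rcases isEmpty_or_nonempty I with hI | ⟨⟨a₀⟩⟩
  · exact Or.inl (Set.toFinite _)
  have h3 : {a | F a ≠ F (i (x a₀)) - c (ptS (x a₀))}.Finite := by
    refine ((h.lf K hK).union (hF.image Prod.fst)).subset fun a ha => ?_
    by_contra k
    rw [Set.mem_union, not_or] at k
    have k1 : c (ptS (x a)) = 0 := h0 _ (by
      rw [rg_ptS, Set.disjoint_singleton_left]
      exact fun e => k.1 ⟨_, h.base a, e⟩)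
    have k2 : F a + F (i (x a)) = 0 := by
      by_contra e
      exact k.2 ⟨(a, i (x a)), ⟨h.nb_of_mt (h.mt_i (h.base a)), e⟩, rfl⟩
    refine ha ?_
    rw [← h2 (x a) (x a₀), k1, sub_zero]
    revert k2
    generalize F a = u
    generalize F (i (x a)) = v
    revert u v
    decide
  have h4 : ∀ k : ZMod 2, k = 0 ∨ k = 1 := by decide
  rcases h4 (F (i (x a₀)) - c (ptS (x a₀))) with e | e
  · exact Or.inl (e ▸ h3)
  · exact Or.inr (e ▸ h3)

end C1L

theorem c1_stmt : C1Stmt := fun _ _ _ _ _ _ _ h hs => ⟨C1L.conn h hs, C1L.c1 h hs⟩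

end Pool.Agent.MP_4f4d9f_gt.Nc

end

section

/-! Transfer of the vanishing from the tuples to the singular chains. -/

namespace Pool.Agent.MP_4f4d9f_gt.Nc

open Finsupp Sg Sg.Tup Hy Filter Topology

namespace TrsL

section Gen

variable {H : Type} [Group H] {C D : ℕ → Type} [∀ k, AddCommGroup (C k)] [∀ k, AddCommGroup (D k)]
  {ρ : ∀ k, Representation ℤ H (C k)} {d : ∀ k, C (k + 1) →ₗ[ℤ] C k} {ε : C 0 →ₗ[ℤ] ℤ}
  {ρ' : ∀ k, Representation ℤ H (D k)} {d' : ∀ k, D (k + 1) →ₗ[ℤ] D k} {ε' : D 0 →ₗ[ℤ] ℤ}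
  {N : Type} [Ring N] (ι : H →* N)

theorem tors_of (R : IsRes ρ d ε) (R' : IsRes ρ' d' ε') {k : ℕ} (f : ∀ k, C k →ₗ[ℤ] D k)
    (hf : ∀ k, Eqv (ρ k) (ρ' k) (f k)) (hf0 : ∀ c, ε' (f 0 c) = ε c)
    (hfd : ∀ k c, d' k (f (k + 1) c) = f k (d k c))
    (h : ∀ z, Tens.map ι (d k) (R.eqv_d k) z = 0 →
      ∃ w, Tens.map ι (d' (k + 1)) (R'.eqv_d _) w = Tens.map ι (f (k + 1)) (hf _) z) :
    TorsAt ι ρ d R.eqv_d k := by
  obtain ⟨g, hg, hg0, hgd⟩ := R'.exists_map R
  obtain ⟨t, ht, htd⟩ := R.exists_homotopy (fun k => LinearMap.id - g k ∘ₗ f k)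
    (fun k => Eqv.id.sub ((hg k).comp (hf k))) (fun c => by simp [hg0, hf0])
    (fun k c => by simp [hgd, hfd])
  intro z hz
  have e2 : Tens.map ι (d (k + 1)) (R.eqv_d _) ∘ₗ Tens.map ι (g (k + 2)) (hg _) =
      Tens.map ι (g (k + 1)) (hg _) ∘ₗ Tens.map ι (d' (k + 1)) (R'.eqv_d _) :=
    Tens.hom_ext ι fun c => by simp only [LinearMap.comp_apply, Tens.map_of, hgd]
  have e3 : Tens.map ι (d (k + 1)) (R.eqv_d _) ∘ₗ Tens.map ι (t (k + 1)) (ht _) +
      Tens.map ι (t k) (ht _) ∘ₗ Tens.map ι (d k) (R.eqv_d _) +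
      Tens.map ι (g (k + 1)) (hg _) ∘ₗ Tens.map ι (f (k + 1)) (hf _) = LinearMap.id :=
    Tens.hom_ext ι fun c => by
      simp only [LinearMap.comp_apply, LinearMap.add_apply, Tens.map_of, ← map_add, htd,
        LinearMap.id_apply]
      simp
  obtain ⟨w, hw⟩ := h z hz
  refine ⟨1, isRegular_one.left,
    Tens.map ι (g (k + 2)) (hg _) w + Tens.map ι (t (k + 1)) (ht _) z, ?_⟩
  have e4 := LinearMap.congr_fun e3 z
  simp only [LinearMap.comp_apply, LinearMap.add_apply, hz, map_zero, add_zero,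
    LinearMap.id_apply] at e4
  rw [map_add, ← LinearMap.comp_apply, e2, LinearMap.comp_apply, hw, one_smul]
  exact (add_comm _ _).trans e4

end Gen

variable {G X : Type} [Group G] [TopologicalSpace X] {γ : SS X → (Tup G →₀ ℤ)}

variable (γ) in
/-- The chain map to all tuples. -/
noncomputable def gg (k : ℕ) : Ch X k →ₗ[ℤ] (Tup G →₀ ℤ) := linearCombination ℤ fun σ => γ ⟨k, σ⟩

variable (γ) in
/-- The chain map to the bar resolution. -/
noncomputable def ff (k : ℕ) : Ch X k →ₗ[ℤ] (Bar.BT G k →₀ ℤ) := Bar.res k ∘ₗ gg γ k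

omit [Group G] in
theorem gg_single (k : ℕ) (σ : Sing X k) : gg γ k (single σ 1) = γ ⟨k, σ⟩ := by
  rw [gg, linearCombination_single, one_smul]

omit [Group G] in
theorem inc_ff (hc : ChM γ) (k : ℕ) (c : Ch X k) : Bar.inc k (ff γ k c) = gg γ k c := by
  induction c using ind1 with
  | h0 => simp
  | hadd x y hx hy => simp only [map_add, hx, hy]
  | hs r x hx => simp only [map_smul, hx]
  | h1 σ =>
    rw [ff, LinearMap.comp_apply, Bar.inc_res, gg_single]
    ext y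
    rw [prD_apply]
    split_ifs with e
    · rfl
    · exact (notMem_support_iff.1 fun k => e (hc.deg _ y k)).symm

omit [Group G] in
theorem ff_bd (hc : ChM γ) (k : ℕ) (c : Ch X (k + 1)) :
    Bar.dB k (ff γ (k + 1) c) = ff γ k (bd ℤ X k c) := by
  apply Bar.inc_inj
  rw [Bar.inc_dB, inc_ff hc, inc_ff hc]
  induction c using ind1 with
  | h0 => simp
  | hadd x y hx hy => simp only [map_add, hx, hy]
  | hs r x hx => simp only [map_smul, hx]
  | h1 σ => rw [gg_single, hc.bd, ← inc_single, dS_inc, lc_inc, gg]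

omit [Group G] in
theorem ff_eps (hc : ChM γ) (c : Ch X 0) : Bar.eB (ff γ 0 c) = aug ℤ X c := by
  rw [Bar.eB_apply, inc_ff hc]
  induction c using ind1 with
  | h0 => simp
  | hadd x y hx hy => simp only [map_add, hx, hy]
  | hs r x hx => simp only [map_smul, hx]
  | h1 σ => rw [gg_single, hc.eps, if_pos rfl, aug_single]

variable [MulAction G X] [ContinuousConstSMul G X]

theorem ff_eqv (h : EqT γ) (k : ℕ) :
    Eqv (permRep G (Sing X k)) (permRep G (Bar.BT G k)) (ff γ k) := fun g c => by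
  rw [ff, LinearMap.comp_apply, LinearMap.comp_apply, ← Bar.res_smul]
  congr 1
  induction c using ind1 with
  | h0 => simp
  | hadd x y hx hy => simp only [map_add, hx, hy, mapDomain_add]
  | hs r x hx => simp only [map_smul, hx, mapDomain_smul]
  | h1 σ =>
    rw [permRep_single, gg_single, gg_single]
    exact h g ⟨k, σ⟩

end TrsL

open TrsL in
theorem trs_stmt : TrsStmt := by
  intro G X N _ _ _ _ _ ι γ h R hc k hv
  refine tors_of ι R (Bar.isRes G) (ff γ) (ff_eqv h) (ff_eps hc) (ff_bd hc) fun z hz => ?_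
  obtain ⟨v, hv⟩ := hv z hz
  have e1 : Tens.map ι (ff γ (k + 1)) (ff_eqv h _) = VanL.rM ι (k + 1) ∘ₗ gT ι h (k + 1) :=
    Tens.hom_ext ι fun c => rfl
  refine ⟨VanL.rM ι (k + 2) v, (VanL.rM_dT ι (k + 1) v).symm.trans ?_⟩
  rw [hv]
  exact (LinearMap.congr_fun e1 z).symm

end Pool.Agent.MP_4f4d9f_gt.Nc

end

section

/-! Low degree twisted cohomology with cocompact supports. -/

namespace Pool.Agent.MP_4f4d9f_gt.Nc

open Finsupp Sg Sg.Tup Hy Filter Topology

namespace LinkAL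

variable {G X I N : Type} [Group G] [TopologicalSpace X] [MulAction G X] [ContinuousConstSMul G X]
  [MulAction G I] [Ring N] {ι : G →* N} {w : G →* ℤˣ} {V : I → Set X} {i : X → I} {x : I → X}
  {nb : I → Finset I}

theorem lc_one (φ : SS X → N) (τ : Sing X 1) :
    linearCombination ℤ φ (dS (single (⟨1, τ⟩ : SS X) 1)) =
      φ (ptS (v1 τ)) - φ (ptS (v0 ⟨1, τ⟩)) := by
  rw [dS_one, map_sub, linearCombination_single, linearCombination_single, one_smul, one_smul]

theorem sm_univ (s : SS X) : Sm (fun _ : Unit => (Set.univ : Set X)) s :=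
  ⟨(), Set.subset_univ _⟩

theorem far_pt {K : Set X} {y : X} (h : ∀ g : G, g • y ∉ K) : Far G K (ptS y) := fun g => by
  rw [smul_ptS, rg_ptS, Set.disjoint_singleton_left]
  exact h g

theorem far_v0 {K : Set X} {s : SS X} (h : Far G K s) (g : G) : g • v0 s ∉ K :=
  Set.disjoint_left.1 (h g) (v0_mem (g • s))

theorem zero (hS : SmP (fun _ : Unit => (Set.univ : Set X)) N)
    (hf : ∀ K : Set X, IsCompact K → ∃ y : X, ∀ g : G, g • y ∉ K) : CohN X w ι 0 := by
  intro φ K hK _ h2 h3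
  obtain ⟨y, hy⟩ := hf K hK
  have hc := hS.zero (fun y => φ (ptS y)) fun τ _ =>
    sub_eq_zero.1 ((lc_one φ τ).symm.trans (h3 ⟨1, τ⟩ rfl))
  refine ⟨fun _ => 0, ∅, isCompact_empty, fun h b => by simp, fun _ _ => rfl, fun s hs => ?_⟩
  rw [eq_ptS hs, dS_ptS, map_zero]
  exact (hc _ y).trans (h2 _ (far_pt hy))

theorem far_of (hE : CovE V G x) {K : Set X} {B : Finset I}
    (hB : ∀ a, (V a ∩ K).Nonempty → a ∈ B) {c : I} (hc : c ∉ Orb G B) {s : SS X}
    (hs : rg s ⊆ V c) : Far G K s := fun g => by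
  rw [rg_smul, Set.disjoint_left]
  rintro _ ⟨z, hz, rfl⟩ hk
  exact hc ⟨g⁻¹, g • c, hB _ ⟨_, (hE.set g c z).2 (hs hz), hk⟩, inv_smul_smul g c⟩

theorem diff_eqv (hS : SmP (fun _ : Unit => (Set.univ : Set X)) N) {φ : SS X → N}
    (h1 : EqS w ι φ) {F : X → N} (hF : ∀ τ : Sing X 1, φ ⟨1, τ⟩ = F (v1 τ) - F (v0 ⟨1, τ⟩))
    (g : G) (y z : X) : F (g • y) - F (g • z) = (w g : ℤ) • ((F y - F z) * ι g⁻¹) := by
  have := hS.zero (fun y => F (g • y) - (w g : ℤ) • (F y * ι g⁻¹)) (fun τ _ => by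
    have e1 : F (g • v1 τ) - F (g • v0 ⟨1, τ⟩) = φ (g • (⟨1, τ⟩ : SS X)) := (hF (g • τ)).symm
    rw [h1, hF, sub_mul, smul_sub] at e1
    exact sub_eq_sub_iff_sub_eq_sub.1 e1) y z
  rw [sub_mul, smul_sub]
  exact sub_eq_sub_iff_sub_eq_sub.1 this

theorem not_orb (hC : Cov V i x nb) (hE : CovE V G x) [DecidableEq I] {B : Finset I} {a c : I}
    (ha : a ∉ Orb G (B.biUnion nb)) (hc : c ∈ nb a) : c ∉ Orb G B := by
  rintro ⟨g, d, hd, rfl⟩
  have := hC.eqv hE g⁻¹ (hC.symm hc)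
  rw [inv_smul_smul] at this
  exact ha ⟨g, _, Finset.mem_biUnion.2 ⟨d, hd, this⟩, smul_inv_smul g a⟩

theorem one (hC : Cov V i x nb) (hE : CovE V G x)
    (hS : SmP (fun _ : Unit => (Set.univ : Set X)) N)
    (hf : ∀ K : Set X, IsCompact K → ∃ y : X, ∀ g : G, g • y ∉ K) (hG : GoalN w ι nb) :
    CohN X w ι 1 := by
  classical
  intro φ K hK h1 h2 h3
  obtain ⟨F, hF⟩ := hS.one φ fun s _ hs => h3 s hs
  replace hF := fun τ => hF τ (sm_univ _)
  have hd := diff_eqv hS h1 hF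
  obtain ⟨B, hB⟩ : ∃ B : Finset I, ∀ a, (V a ∩ K).Nonempty → a ∈ B :=
    ⟨(hC.lf K hK).toFinset, fun a ha => (Set.Finite.mem_toFinset _).2 ha⟩
  have hc : ∀ c, c ∉ Orb G B → ∀ y ∈ V c, ∀ z ∈ V c, F y = F z := fun c hc y hy z hz => by
    obtain ⟨τ, e1, rfl, rfl⟩ := exists_sing (hC.pc c y hy z hz)
    exact (sub_eq_zero.1 ((hF τ).symm.trans (h2 _ (far_of hE hB hc e1)))).symm
  have hm : ∀ c c', c ∉ Orb G B → c' ∉ Orb G B → Mt V c c' → F (x c) = F (x c') :=
    fun c c' e e' ⟨y, hy, hy'⟩ =>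
      (hc c e _ (hC.base c) y hy).trans (hc c' e' y hy' _ (hC.base c'))
  obtain ⟨I₀, hI⟩ := hG (B.biUnion nb)
  replace hI := hI (fun a => F (x a)) (fun g a b => by rw [hE.base, hE.base, hd])
    fun a b hb ha _ => by
      obtain ⟨c₁, c₂, c₃, m1, m2, m3, m4⟩ := (hC.adj a b).1 hb
      have n0 := not_orb hC hE ha (hC.refl a)
      have n1 := not_orb hC hE ha (hC.nb_of_mt m1)
      have n2 := not_orb hC hE ha (hC.nb_of_mt2 m1 m2)
      have n3 := not_orb hC hE ha ((hC.adj a c₃).2 ⟨a, c₁, c₂, hC.mt_refl a, m1, m2, m3⟩)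
      have n4 := not_orb hC hE ha hb
      exact (hm _ _ n0 n1 m1).trans ((hm _ _ n1 n2 m2).trans
        ((hm _ _ n2 n3 m3).trans (hm _ _ n3 n4 m4)))
  choose L hL hL' using hC.rc
  have hK' : IsCompact (⋃ a ∈ I₀ ∪ B, L a) := Finset.isCompact_biUnion _ fun a _ => hL a
  have hi : ∀ y : X, (∀ g : G, g • y ∉ ⋃ a ∈ I₀ ∪ B, L a) → ∀ D : Finset I, D ⊆ I₀ ∪ B →
      i y ∉ Orb G D := by
    rintro y hy D hD ⟨g, a, ha, e⟩
    refine hy g⁻¹ (Set.mem_biUnion (Finset.mem_coe.2 (hD ha)) (hL' a ((hE.set g a _).1 ?_)))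
    rw [smul_inv_smul, e]
    exact hC.mem y
  have key : ∀ y z : X, (∀ g : G, g • y ∉ ⋃ a ∈ I₀ ∪ B, L a) →
      (∀ g : G, g • z ∉ ⋃ a ∈ I₀ ∪ B, L a) → F y = F z := fun y z hy hz =>
    (hc _ (hi y hy B Finset.subset_union_right) _ (hC.mem y) _ (hC.base _)).trans
      ((hI _ _ (hi y hy I₀ Finset.subset_union_left) (hi z hz I₀ Finset.subset_union_left)).trans
        (hc _ (hi z hz B Finset.subset_union_right) _ (hC.base _) _ (hC.mem z)))
  obtain ⟨y, hy⟩ := hf _ hK'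
  refine ⟨fun s => F (v0 s) - F y, _, hK', fun h b => ?_,
    fun s hs => sub_eq_zero.2 (key _ _ (far_v0 hs) hy), ?_⟩
  · rw [← hd, ← key y (h • y) hy fun g => by rw [← mul_smul]; exact hy _]
    rfl
  · rintro ⟨k, τ⟩ hk
    obtain rfl : k = 1 := hk
    rw [lc_one, hF, v0_ptS, v0_ptS, sub_sub_sub_cancel_right]

end LinkAL

theorem linkA_stmt : LinkAStmt := fun _ _ _ _ _ _ _ _ _ _ _ _ _ _ _ _ hC hE hS hf =>
  ⟨LinkAL.zero hS hf, LinkAL.one hC hE hS hf⟩

end Pool.Agent.MP_4f4d9f_gt.Nc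

end

section

/-! From real Dirichlet functions to functions with values in the von Neumann algebra. -/

open scoped InnerProductSpace

namespace Pool.Agent.MP_4f4d9f_gt.Nc

open Finsupp Sg Sg.Tup Hy Filter Topology

namespace LinkBL

variable {G I : Type} [Group G] [MulAction G I] {nb : I → Finset I}

theorem summ (hf : ∀ (g : G) (a : I), g • a = a → g = 1) {φ : I → ℝ} (h0 : ∀ a, 0 ≤ φ a)
    (E : Finset I) (h1 : ∀ a ∉ Orb G E, φ a = 0) (h2 : ∀ e, Summable fun g : G => φ (g • e)) :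
    Summable φ := by
  have h3 : ∀ e, Summable ((Set.range fun g : G => g • e).indicator φ) := by
    intro e
    have hi : Function.Injective fun g : G => g • e := fun g g' h => by
      have h' : g • e = g' • e := h
      have := hf (g'⁻¹ * g) e (by rw [mul_smul, h', inv_smul_smul])
      exact (inv_mul_eq_one.1 this).symm
    refine (hi.summable_iff fun x hx => Set.indicator_of_notMem hx _).1 ((h2 e).congr fun g => ?_)
    exact (Set.indicator_of_mem (Set.mem_range_self (f := fun g : G => g • e) g) φ).symm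
  refine Summable.of_nonneg_of_le h0 (fun a => ?_) (summable_sum fun e (_ : e ∈ E) => h3 e)
  have h4 : ∀ e ∈ E, 0 ≤ (Set.range fun g : G => g • e).indicator φ a :=
    fun e _ => Set.indicator_nonneg (fun x _ => h0 x) a
  by_cases ha : a ∈ Orb G E
  · obtain ⟨g, e, he, rfl⟩ := ha
    refine le_trans (le_of_eq ?_) (Finset.single_le_sum h4 he)
    exact (Set.indicator_of_mem (Set.mem_range_self (f := fun g : G => g • e) g) φ).symm
  · rw [h1 a ha]
    exact Finset.sum_nonneg h4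

theorem sum_nb (h : Gr nb G) (g : G) (e : I) (Φ : I → ℝ) :
    ∑ c ∈ nb (g • e), Φ c = ∑ c ∈ nb e, Φ (g • c) := by
  refine Finset.sum_nbij' (fun c => g⁻¹ • c) (fun c => g • c) (fun c hc => ?_)
    (fun c hc => h.eqv g _ _ hc) (fun c _ => smul_inv_smul g c) (fun c _ => inv_smul_smul g c)
    fun c _ => by rw [smul_inv_smul]
  have := h.eqv g⁻¹ _ _ hc
  rwa [inv_smul_smul] at this

theorem dir (h : Gr nb G) (E : Finset I) (f : I → ℝ)
    (h1 : ∀ x y, y ∈ nb x → x ∉ Orb G E → y ∉ Orb G E → f x = f y)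
    (h2 : ∀ a c, Summable fun g : G => (f (g • a) - f (g • c)) ^ 2) : DirI nb f := by
  classical
  refine summ h.free (fun a => Finset.sum_nonneg fun _ _ => sq_nonneg _) (E ∪ E.biUnion nb)
    (fun a ha => Finset.sum_eq_zero fun c hc => ?_) fun e => ?_
  · rw [h1 a c hc, sub_self, zero_pow two_ne_zero]
    · rintro ⟨g, e, he, rfl⟩
      exact ha ⟨g, e, Finset.mem_union_left _ he, rfl⟩
    · rintro ⟨g, e, he, rfl⟩
      have k := h.eqv g⁻¹ _ _ (h.symm _ _ hc)
      rw [inv_smul_smul] at k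
      exact ha ⟨g, g⁻¹ • a, Finset.mem_union_right _ (Finset.mem_biUnion.2 ⟨e, he, k⟩),
        smul_inv_smul g a⟩
  · simp only [sum_nb h]
    exact summable_sum fun c _ => h2 e c

end LinkBL

open FA CohVL in
open ContinuousLinearMap (adjoint) in
theorem linkB_stmt : LinkBStmt := by
  intro G I E _ _ _ _ b ι hι w nb hG hgoal E₀
  have : CompleteSpace E := b.repr.toIsometryEquiv.completeSpace
  obtain ⟨I₀, hI⟩ := hgoal E₀
  refine ⟨I₀, fun F h1 h2 x z hx hz => sub_eq_zero.1 (eq_zero_of_inner fun y => ?_)⟩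
  set Φ : I → ℂ := fun a => ⟪b 1, (F a).1 (b y)⟫_ℂ with hΦ
  have e0 : ∀ a c, Φ a - Φ c = ⟪b 1, (F a - F c).1 (b y)⟫_ℂ := fun a c => by
    simp only [hΦ]
    rw [← inner_sub_right]
    rfl
  have e1 : ∀ (g : G) a c, Φ (g • a) - Φ (g • c) =
      ⟪b 1, (F a - F c).1 ((tw ι w g).1 (b y))⟫_ℂ := fun g a c => by
    rw [e0, h1, ← mul_smul_comm]
    rfl
  have e2 : ∀ a c, Summable fun g : G => ‖Φ (g • a) - Φ (g • c)‖ ^ 2 := fun a c => by
    have := (((Equiv.inv G).trans (Equiv.mulRight y)).summable_iff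
      (f := fun g => ‖⟪b g, adjoint (F a - F c).1 (b 1)⟫_ℂ‖ ^ 2)).2 (hasSum_basis b _).summable
    refine this.congr fun g => ?_
    rw [e1, tw_apply, hι, map_smul, inner_smul_right, norm_mul, norm_w, one_mul,
      ← ContinuousLinearMap.adjoint_inner_left, norm_inner_symm]
    rfl
  have key : ∀ L : ℂ →ₗ[ℝ] ℝ, (∀ z, |L z| ≤ ‖z‖) → L (Φ x) = L (Φ z) := fun L hL => by
    have k1 : ∀ x y, y ∈ nb x → x ∉ Orb G E₀ → y ∉ Orb G E₀ → L (Φ x) = L (Φ y) :=
      fun u v a1 a2 a3 => by simp only [hΦ, h2 u v a1 a2 a3]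
    refine hI (fun a => L (Φ a)) (LinkBL.dir hG E₀ _ k1 fun a c => ?_) k1 x z hx hz
    refine Summable.of_nonneg_of_le (fun _ => sq_nonneg _) (fun g => ?_) (e2 a c)
    rw [← map_sub, sq_le_sq, abs_norm]
    exact hL _
  rw [← e0, sub_eq_zero]
  exact Complex.ext (key Complex.reLm Complex.abs_re_le_norm)
    (key Complex.imLm Complex.abs_im_le_norm)

end Pool.Agent.MP_4f4d9f_gt.Nc

end
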