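import Pool.Agent.Mg.F4f4d9fr.G93bd78
import Pool.Agent.Mg.F4f4d9fr.G10a953
import Pool.Agent.MP_4f4d9f_gt.P3Iface
import Pool.Agent.MP_4f4d9f_gt.CompQ

set_option linter.all false

section

/-! Exactness of the complex of functions with vanishing panel sums. -/

namespace Pool.Agent.MP_4f4d9f_gt

variable {V W : Type} [Fintype V] [LinearOrder V] [Group W] {Γ : SimpleGraph V}
  {P : V → Subgroup W} [∀ v, Fintype (P v)]

namespace PExact

theorem basis_aux (N : NF Γ P) (t : V → W) (ht : ∀ v, t v ∈ P v) (g : W) (A : Finset V) :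
    Γ.IsClique A → (∀ v ∈ A, N.tl v g ≠ t v) →
    ∃ b : W →₀ ℚ, b g = 1 ∧ (∀ v ∈ A, ∀ x : W, ∑ a : P v, b (x * a) = 0) ∧
      ∀ x ∈ b.support, g⁻¹ * x ∈ par P (A : Set V) ∧ (x = g ∨ ((∃ v ∈ A, N.tl v x = t v) ∧
        ((∀ v, t v = 1) → N.len x < N.len g))) := by
  classical
  induction A using Finset.induction_on with
  | empty =>
    intro _ _
    refine ⟨Finsupp.single g 1, by simp, by simp, fun x hx => ?_⟩
    have : x = g := Finset.mem_singleton.1 (Finsupp.support_single_subset hx)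
    subst this
    exact ⟨by simp, Or.inl rfl⟩
  | insert v A hv ih =>
    intro hA hg
    obtain ⟨b, hb1, hb2, hb3⟩ := ih (hA.subset (by simp))
      (fun u hu => hg u (Finset.mem_insert_of_mem hu))
    have hadj : ∀ u ∈ A, Γ.Adj v u := fun u hu =>
      hA (by simp) (by simp [hu]) (fun e => hv (e ▸ hu))
    have hle : par P (A : Set V) ≤ par P (Γ.neighborSet v) := par_mono fun u hu => hadj u hu
    have htl : ∀ x ∈ b.support, N.tl v x = N.tl v g := fun x hx => by
      have := N.tl_mul_par g (hle (hb3 x hx).1)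
      rwa [mul_inv_cancel_left] at this
    obtain ⟨c, hc⟩ : ∃ c, c = (N.tl v g)⁻¹ * t v := ⟨_, rfl⟩
    have hcm : c ∈ P v := hc ▸ mul_mem (inv_mem (N.tl_mem v g)) (ht v)
    have hgv := hg v (Finset.mem_insert_self v A)
    have hc1 : c ≠ 1 := fun e => hgv (by rwa [hc, inv_mul_eq_one] at e)
    have happ : ∀ x, (b - b.mapDomain (Equiv.mulRight c)) x = b x - b (x * c⁻¹) := fun x => by
      rw [Finsupp.sub_apply, Finsupp.mapDomain_equiv_apply]
      rfl
    refine ⟨b - b.mapDomain (Equiv.mulRight c), ?_, ?_, ?_⟩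
    · rw [happ, hb1]
      have : b (g * c⁻¹) = 0 := by
        by_contra h
        have h1 := htl _ (Finsupp.mem_support_iff.2 h)
        rw [N.tl_self (inv_mem hcm), mul_eq_left, inv_eq_one] at h1
        exact hc1 h1
      rw [this, sub_zero]
    · intro u hu x
      simp only [happ, Finset.sum_sub_distrib]
      rcases Finset.mem_insert.1 hu with rfl | hu
      · rw [sub_eq_zero]
        refine (Fintype.sum_equiv (Equiv.mulRight (⟨c, hcm⟩ : P u)⁻¹) _ _ fun a => ?_).symm
        simp [mul_assoc]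
      · rw [hb2 u hu x, zero_sub, neg_eq_zero, ← hb2 u hu (x * c⁻¹)]
        refine Finset.sum_congr rfl fun a _ => ?_
        rw [mul_assoc, mul_assoc, N.gp.comm v u (hadj u hu) _ (inv_mem hcm) a a.2]
    · intro x hx
      have hmono : par P (A : Set V) ≤ par P ((insert v A : Finset V) : Set V) :=
        par_mono (by simp)
      by_cases h : x ∈ b.support
      · refine ⟨hmono (hb3 x h).1, (hb3 x h).2.imp id fun h' => ⟨?_, h'.2⟩⟩
        obtain ⟨u, hu, e⟩ := h'.1
        exact ⟨u, Finset.mem_insert_of_mem hu, e⟩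
      · have h0 : x * c⁻¹ ∈ b.support := by
          rw [Finsupp.mem_support_iff, happ, Finsupp.notMem_support_iff.1 h] at hx
          rw [Finsupp.mem_support_iff]
          intro e
          exact hx (by rw [e, sub_zero])
        have e1 := htl _ h0
        have ex : x = x * c⁻¹ * c := by rw [inv_mul_cancel_right]
        refine ⟨?_, Or.inr ⟨⟨v, Finset.mem_insert_self v A, ?_⟩, fun h1 => ?_⟩⟩
        · have := mul_mem (hmono (hb3 _ h0).1) (mem_par (T := ((insert v A : Finset V) : Set V))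
            (by simp) hcm)
          rwa [mul_assoc, inv_mul_cancel_right] at this
        · rw [ex, N.tl_self hcm, e1, hc, mul_inv_cancel_left]
        · have e2 : N.tl v (x * c⁻¹) ≠ 1 := by rw [e1, ← h1 v]; exact hgv
          have e3 := N.len_strip_right e2
          have e4 : x * c⁻¹ * (N.tl v (x * c⁻¹))⁻¹ = x := by
            rw [e1]
            conv_rhs => rw [ex]
            rw [hc, h1 v, mul_one]
          rw [e4] at e3
          rcases (hb3 _ h0).2 with e | e
          · rw [e] at e3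
            omega
          · have := e.2 h1
            omega

theorem map_mem_of_single {B M : Type} [AddCommGroup M] [Module ℚ M] (f : (B →₀ ℚ) →ₗ[ℚ] M)
    {s : Set B} {U : Submodule ℚ M} (h : ∀ c ∈ s, f (Finsupp.single c 1) ∈ U) {x : B →₀ ℚ}
    (hx : x ∈ Finsupp.supported ℚ ℚ s) : f x ∈ U := by
  rw [Finsupp.supported_eq_span_single] at hx
  refine (Submodule.span_le (p := U.comap f)).2 ?_ hx
  rintro _ ⟨c, hc, rfl⟩
  exact h c hc

omit [Fintype V] [Group W] in
theorem cbd_single (g : W) (A : Finset V) : cbd W V (Finsupp.single (g, A) 1) =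
    ∑ v ∈ A, (sgn A v : ℚ) • Finsupp.single (g, A.erase v) 1 := by
  rw [cbd, Finsupp.linearCombination_single, one_smul]

omit [Fintype V] [Group W] in
theorem cbd_supp (p : W → Prop) {x : W × Finset V →₀ ℚ}
    (hx : x ∈ Finsupp.supported ℚ ℚ {c : W × Finset V | p c.1}) :
    cbd W V x ∈ Finsupp.supported ℚ ℚ {c : W × Finset V | p c.1} := by
  refine map_mem_of_single _ ?_ hx
  rintro ⟨g, A⟩ h
  rw [cbd_single]
  exact Submodule.sum_mem _ fun v _ => Submodule.smul_mem _ _
    (Finsupp.single_mem_supported ℚ _ h)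

omit [Fintype V] [Group W] in
theorem cbd_filter (p : W → Prop) [DecidablePred p] {x : W × Finset V →₀ ℚ}
    (h : cbd W V x = 0) : cbd W V (x.filter fun c => p c.1) = 0 := by
  have h1 : cbd W V (x.filter fun c => p c.1) ∈
      Finsupp.supported ℚ ℚ {c : W × Finset V | p c.1} :=
    cbd_supp p fun c hc => by
      rw [Finset.mem_coe, Finsupp.support_filter, Finset.mem_filter] at hc
      exact hc.2
  have h2 : cbd W V (x.filter fun c => ¬ p c.1) ∈
      Finsupp.supported ℚ ℚ {c : W × Finset V | ¬ p c.1} :=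
    cbd_supp (fun g => ¬ p g) fun c hc => by
      rw [Finset.mem_coe, Finsupp.support_filter, Finset.mem_filter] at hc
      exact hc.2
  rw [← Finsupp.filter_pos_add_filter_neg x fun c => p c.1, map_add] at h
  ext c
  by_cases hc : p c.1
  · have e := (Finsupp.mem_supported' ℚ _).1 h2 c (by simpa using hc)
    have e' := DFunLike.congr_fun h c
    rwa [Finsupp.add_apply, e, add_zero] at e'
  · exact (Finsupp.mem_supported' ℚ _).1 h1 c hc

/-- The cone operator with apex depending on the chamber. -/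
noncomputable def cone (z : W → V) : (W × Finset V →₀ ℚ) →ₗ[ℚ] (W × Finset V →₀ ℚ) :=
  Finsupp.linearCombination ℚ fun c => if z c.1 ∈ c.2 then 0 else
    (sgn (insert (z c.1) c.2) (z c.1) : ℚ) • Finsupp.single (c.1, insert (z c.1) c.2) 1

omit [Fintype V] [Group W] in
theorem cone_single (z : W → V) (g : W) (A : Finset V) :
    cone z (Finsupp.single (g, A) 1) = if z g ∈ A then 0 else
      (sgn (insert (z g) A) (z g) : ℚ) • Finsupp.single (g, insert (z g) A) 1 := by
  rw [cone, Finsupp.linearCombination_single, one_smul]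

omit [Fintype V] in
theorem sgn_sq (A : Finset V) (v : V) : (sgn A v : ℚ) * sgn A v = 1 := by
  rw [sgn]
  push_cast
  rw [← mul_pow]
  simp

omit [Fintype V] in
theorem sgn_anti' {K : Finset V} {u v : V} (hu : u ∈ K) (hv : v ∈ K) (huv : u ≠ v) :
    (sgn K u : ℚ) * sgn (K.erase u) v + sgn K v * sgn (K.erase v) u = 0 := by
  rcases lt_or_gt_of_ne huv with h | h
  · exact_mod_cast sgn_anti hu h
  · rw [add_comm]
    exact_mod_cast sgn_anti hv h

omit [Fintype V] [Group W] in
theorem cbd_cone (z : W → V) (x : W × Finset V →₀ ℚ) :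
    cbd W V (cone z x) + cone z (cbd W V x) = x := by
  have key : ∀ (g : W) (A : Finset V), cbd W V (cone z (Finsupp.single (g, A) 1)) +
      cone z (cbd W V (Finsupp.single (g, A) 1)) = Finsupp.single (g, A) 1 := by
    intro g A
    rw [cone_single, cbd_single, map_sum]
    simp only [map_smul, cone_single]
    by_cases h : z g ∈ A
    · rw [if_pos h, map_zero, zero_add, Finset.sum_eq_single (z g)]
      · rw [if_neg (by simp), Finset.insert_erase h, smul_smul, sgn_sq, one_smul]
      · intro w _ hw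
        rw [if_pos (Finset.mem_erase.2 ⟨hw.symm, h⟩), smul_zero]
      · exact fun h' => absurd h h'
    · rw [if_neg h, map_smul, cbd_single, Finset.sum_insert h, smul_add, smul_smul, sgn_sq,
        one_smul, Finset.erase_insert h, add_assoc, add_eq_left, Finset.smul_sum,
        ← Finset.sum_add_distrib]
      refine Finset.sum_eq_zero fun w hw => ?_
      have hne : z g ≠ w := fun e => h (e ▸ hw)
      rw [if_neg (fun h' => h (Finset.mem_of_mem_erase h')), smul_smul, smul_smul,
        ← Finset.erase_insert_of_ne hne, ← add_smul]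
      have e := sgn_anti' (Finset.mem_insert_self (z g) A) (Finset.mem_insert_of_mem hw) hne
      rw [Finset.erase_insert h] at e
      have e1 := sgn_sq A w
      have e2 := sgn_sq (insert (z g) A) w
      have : (sgn (insert (z g) A) (z g) : ℚ) * sgn (insert (z g) A) w +
          sgn A w * sgn ((insert (z g) A).erase w) (z g) = 0 := by
        linear_combination ((sgn A w : ℚ) * sgn (insert (z g) A) w) * e -
          ((sgn (insert (z g) A) (z g) : ℚ) * sgn (insert (z g) A) w) * e1 -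
          ((sgn A w : ℚ) * sgn ((insert (z g) A).erase w) (z g)) * e2
      rw [this, zero_smul]
  induction x using Finsupp.induction_linear with
  | zero => simp
  | add a b ha hb =>
    simp only [map_add]
    rw [add_add_add_comm, ha, hb]
  | single c a =>
    rw [← mul_one a, ← smul_eq_mul, ← Finsupp.smul_single]
    simp only [map_smul]
    rw [← smul_add, key]

theorem tl_ne_one (N : NF Γ P) {j n : ℕ} {x : W × Finset V →₀ ℚ} (hx : x ∈ PC Γ P j)
    (hn : ∀ c ∈ x.support, N.len c.1 ≤ n) {c : W × Finset V} (hc : c ∈ x.support)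
    (hl : N.len c.1 = n) {v : V} (hv : v ∈ c.2) : N.tl v c.1 ≠ 1 := by
  intro h
  have h1 := hx.2 c.2 v hv c.1
  rw [Finset.sum_eq_single (1 : P v)] at h1
  · exact Finsupp.mem_support_iff.1 hc (by simpa using h1)
  · intro a _ ha
    by_contra h2
    have h3 := hn _ (Finsupp.mem_support_iff.2 h2)
    rw [N.len_mul_right a.2 (fun e => ha (Subtype.ext e)) h] at h3
    omega
  · simp

theorem exists_lift (N : NF Γ P) {j : ℕ} (c : W × Finset V) (h1 : ∀ v ∈ c.2, N.tl v c.1 ≠ 1)
    (h2 : c.2.card = j) : ∃ y ∈ PC Γ P j, y - Finsupp.single c 1 ∈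
      Finsupp.supported ℚ ℚ {d : W × Finset V | N.len d.1 < N.len c.1} := by
  classical
  obtain ⟨g, B⟩ := c
  have hB : Γ.IsClique B := fun u hu v hv huv => N.tl_clique huv (h1 u hu) (h1 v hv)
  obtain ⟨b, hb1, hb2, hb3⟩ := basis_aux N (fun _ => 1) (fun v => one_mem _) g B hB h1
  have hinj : Function.Injective fun x : W => (x, B) := fun x y e => congrArg Prod.fst e
  have happ : ∀ x A, b.mapDomain (fun x => (x, B)) (x, A) = if A = B then b x else 0 := by
    intro x A
    split_ifs with h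
    · rw [h]
      exact Finsupp.mapDomain_apply hinj b x
    · refine Finsupp.mapDomain_notin_range _ _ ?_
      rintro ⟨y, e⟩
      exact h (congrArg Prod.snd e).symm
  refine ⟨b.mapDomain fun x => (x, B), ⟨?_, fun A v hv x => ?_⟩, ?_⟩
  · refine (Finsupp.mem_supported' ℚ _).2 ?_
    rintro ⟨x, A⟩ h
    rw [happ, if_neg]
    rintro rfl
    exact h ⟨hB, h2⟩
  · simp only [happ]
    by_cases h : A = B
    · simp only [if_pos h]
      exact hb2 v (h ▸ hv) x
    · simp [h]
  · refine (Finsupp.mem_supported' ℚ _).2 ?_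
    rintro ⟨x, A⟩ h
    rw [Finsupp.sub_apply, happ, Finsupp.single_apply]
    by_cases hA : A = B
    · subst hA
      by_cases hx : x = g
      · subst hx
        simp [hb1]
      · rw [if_pos rfl, if_neg fun e => hx (congrArg Prod.fst e).symm, sub_zero]
        by_contra h0
        rcases (hb3 x (Finsupp.mem_support_iff.2 h0)).2 with e | e
        · exact hx e
        · exact h (e.2 fun _ => rfl)
    · rw [if_neg hA, if_neg fun e => hA (congrArg Prod.snd e).symm, sub_zero]

theorem step (N : NF Γ P) {j n : ℕ} {x : W × Finset V →₀ ℚ} (hx : x ∈ PC Γ P j)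
    (h : cbd W V x = 0) (hn : ∀ c ∈ x.support, N.len c.1 ≤ n + 1) :
    ∃ y ∈ PC Γ P (j + 1), ∀ c ∈ (x - cbd W V y).support, N.len c.1 ≤ n := by
  classical
  rcases isEmpty_or_nonempty V with hV | hV
  · refine ⟨0, zero_mem _, fun c _ => ?_⟩
    rw [N.eq_one_of_tl (g := c.1) fun v => hV.elim v, N.len_one]
    exact Nat.zero_le _
  have hz : ∀ g : W, N.len g = n + 1 → ∃ v, N.tl v g ≠ 1 := fun g hg => by
    by_contra h0
    push Not at h0
    rw [N.eq_one_of_tl h0, N.len_one] at hg
    omega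
  choose! z hz using hz
  have hl : ∀ c : W × Finset V,
      (N.len c.1 = n + 1 ∧ (∀ v ∈ c.2, N.tl v c.1 ≠ 1) ∧ c.2.card = j + 1) →
      ∃ y, y ∈ PC Γ P (j + 1) ∧ y - Finsupp.single c 1 ∈
        Finsupp.supported ℚ ℚ {d : W × Finset V | N.len d.1 < n + 1} := fun c hc => by
    rw [← hc.1]
    exact exists_lift N c hc.2.1 hc.2.2
  choose! L hL1 hL2 using hl
  obtain ⟨xt, hxt⟩ : ∃ xt, xt = x.filter fun c => N.len c.1 = n + 1 := ⟨_, rfl⟩
  have h1 : cbd W V xt = 0 := hxt ▸ cbd_filter (fun g => N.len g = n + 1) h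
  have h2 : xt ∈ Finsupp.supported ℚ ℚ {c : W × Finset V |
      N.len c.1 = n + 1 ∧ (∀ v ∈ c.2, N.tl v c.1 ≠ 1) ∧ c.2.card = j} := by
    intro c hc
    rw [hxt, Finset.mem_coe, Finsupp.support_filter, Finset.mem_filter] at hc
    exact ⟨hc.2, fun v hv => tl_ne_one N hx hn hc.1 hc.2 hv, (hx.1 hc.1).2⟩
  have h3 : cone z xt ∈ Finsupp.supported ℚ ℚ {c : W × Finset V |
      N.len c.1 = n + 1 ∧ (∀ v ∈ c.2, N.tl v c.1 ≠ 1) ∧ c.2.card = j + 1} := by
    refine map_mem_of_single _ ?_ h2
    rintro ⟨g, A⟩ ⟨e1, e2, e3⟩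
    rw [cone_single]
    split_ifs with hA
    · exact zero_mem _
    · refine Submodule.smul_mem _ _ (Finsupp.single_mem_supported ℚ _ ⟨e1, fun v hv => ?_, ?_⟩)
      · rcases Finset.mem_insert.1 hv with rfl | hv
        · exact hz g e1
        · exact e2 v hv
      · rw [Finset.card_insert_of_notMem hA]
        exact congrArg (· + 1) e3
  have h4 : cbd W V (cone z xt) = xt := by
    have := cbd_cone z xt
    rwa [h1, map_zero, add_zero] at this
  have h5 : (Finsupp.linearCombination ℚ L - LinearMap.id : _ →ₗ[ℚ] _) (cone z xt) ∈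
      Finsupp.supported ℚ ℚ {d : W × Finset V | N.len d.1 < n + 1} := by
    refine map_mem_of_single _ (fun c hc => ?_) h3
    rw [LinearMap.sub_apply, Finsupp.linearCombination_single, one_smul]
    exact hL2 c hc
  have h6 := cbd_supp (fun g => N.len g < n + 1) h5
  rw [LinearMap.sub_apply, map_sub, LinearMap.id_apply, h4] at h6
  refine ⟨Finsupp.linearCombination ℚ L (cone z xt), ?_, fun c hc => ?_⟩
  · refine map_mem_of_single _ (fun c hc => ?_) h3
    rw [Finsupp.linearCombination_single, one_smul]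
    exact hL1 c hc
  · by_contra h7
    have e1 := (Finsupp.mem_supported' ℚ _).1 h6 c (by simpa [Nat.lt_succ_iff] using h7)
    rw [Finsupp.sub_apply, sub_eq_zero] at e1
    refine Finsupp.mem_support_iff.1 hc ?_
    rw [Finsupp.sub_apply, e1, hxt, Finsupp.filter_apply]
    split_ifs with h8
    · exact sub_self _
    · rw [sub_zero]
      by_contra h9
      have := hn c (Finsupp.mem_support_iff.2 h9)
      omega

theorem reduce (N : NF Γ P) {j : ℕ} (n : ℕ) : ∀ {x : W × Finset V →₀ ℚ}, x ∈ PC Γ P j →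
    cbd W V x = 0 → (∀ c ∈ x.support, N.len c.1 ≤ n) →
    ∃ y ∈ PC Γ P (j + 1), ∀ c ∈ (x - cbd W V y).support, c = (1, ∅) := by
  induction n with
  | zero =>
    intro x hx _ hn
    refine ⟨0, zero_mem _, fun c hc => ?_⟩
    rw [map_zero, sub_zero] at hc
    have h0 : N.len c.1 = 0 := Nat.le_zero.1 (hn c hc)
    have h1 := N.len_eq_zero.1 h0
    refine Prod.ext h1 (Finset.eq_empty_of_forall_notMem fun v hv => ?_)
    exact tl_ne_one N hx hn hc h0 hv (by rw [h1, N.tl_one])
  | succ n ih =>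
    intro x hx h hn
    obtain ⟨y, hy, hy'⟩ := step N hx h hn
    obtain ⟨y', h1, h2⟩ := ih (sub_mem hx (cbd_mem hy)) (by rw [map_sub, h, cbd_cbd, sub_zero]) hy'
    exact ⟨y + y', add_mem hy h1, by rwa [map_add, ← sub_sub]⟩

theorem reduce' (N : NF Γ P) {j : ℕ} {x : W × Finset V →₀ ℚ} (hx : x ∈ PC Γ P j)
    (h : cbd W V x = 0) : ∃ y ∈ PC Γ P (j + 1), ∀ c ∈ (x - cbd W V y).support, c = (1, ∅) :=
  reduce N (x.support.sup fun c => N.len c.1) hx h fun _ hc =>
    Finset.le_sup (f := fun c : W × Finset V => N.len c.1) hc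

/-- The sum of all coefficients. -/
noncomputable def tot (B : Type) : (B →₀ ℚ) →ₗ[ℚ] ℚ := Finsupp.linearCombination ℚ fun _ => 1

theorem tot_eq {B : Type} (x : B →₀ ℚ) : tot B x = x.sum fun _ a => a := by
  simp [tot, Finsupp.linearCombination_apply]

theorem tot_single {B : Type} (c : B) (a : ℚ) : tot B (Finsupp.single c a) = a := by
  simp [tot]

theorem tot_mapDomain {B : Type} (f : B → B) (x : B →₀ ℚ) : tot B (x.mapDomain f) = tot B x :=
  Finsupp.linearCombination_mapDomain ℚ f x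

theorem tot_filter {j : ℕ} {x : W × Finset V →₀ ℚ} (hx : x ∈ PC Γ P j) {A : Finset V} {v : V}
    (hv : v ∈ A) : tot _ (x.filter fun c => c.2 = A) = 0 := by
  have h1 : ∑ a : P v, (x.filter fun c => c.2 = A).mapDomain
      (Equiv.prodCongr (Equiv.mulRight (a : W)).symm (Equiv.refl (Finset V))) = 0 := by
    ext ⟨g, B⟩
    rw [Finsupp.finset_sum_apply]
    simp only [Finsupp.mapDomain_equiv_apply, Finsupp.filter_apply]
    by_cases h : B = A
    · subst h
      simpa using hx.2 B v hv g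
    · simp [h]
  have h2 := congrArg (tot _) h1
  rw [map_sum, map_zero] at h2
  simp only [tot_mapDomain, Finset.sum_const, nsmul_eq_mul, mul_eq_zero, Finset.card_univ,
    Nat.cast_eq_zero, Fintype.card_ne_zero, false_or] at h2
  exact h2

theorem tot_cbd {x : W × Finset V →₀ ℚ} (hx : x ∈ PC Γ P 1) : tot _ (cbd W V x) = 0 := by
  have h1 : (tot _ ∘ₗ cbd W V - tot _ : _ →ₗ[ℚ] _) x ∈ (⊥ : Submodule ℚ ℚ) := by
    refine map_mem_of_single _ ?_ hx.1
    rintro ⟨g, A⟩ hA
    obtain ⟨v, rfl⟩ := Finset.card_eq_one.1 hA.2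
    simp [cbd_single, tot_single, sgn, Finset.filter_singleton]
  rw [Submodule.mem_bot, LinearMap.sub_apply, LinearMap.comp_apply, sub_eq_zero] at h1
  have h2 : x = ∑ A : Finset V, x.filter fun c => c.2 = A := by
    ext c
    rw [Finsupp.finset_sum_apply]
    simp [Finsupp.filter_apply]
  rw [h1, h2, map_sum]
  refine Finset.sum_eq_zero fun A _ => ?_
  rcases A.eq_empty_or_nonempty with rfl | ⟨v, hv⟩
  · have : (x.filter fun c => c.2 = ∅) = 0 := by
      ext c
      rw [Finsupp.filter_apply]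
      split_ifs with h
      · refine (Finsupp.mem_supported' ℚ _).1 hx.1 c fun h' => ?_
        have := h'.2
        rw [h] at this
        simp at this
      · rfl
    rw [this, map_zero]
  · exact tot_filter hx hv

end PExact

/-- The element `g ∏ v ∈ A, (1 - (tl v g)⁻¹ t v)`. -/
theorem exists_basis_elt (N : NF Γ P) (t : V → W) (ht : ∀ v, t v ∈ P v) {A : Finset V}
    (hA : Γ.IsClique A) (g : W) (hg : ∀ v ∈ A, N.tl v g ≠ t v) :
    ∃ b : W →₀ ℚ, b g = 1 ∧ (∀ v ∈ A, ∀ x : W, ∑ a : P v, b (x * a) = 0) ∧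
      ∀ x ∈ b.support, x = g ∨ ((∃ v ∈ A, N.tl v x = t v) ∧
        ((∀ v, t v = 1) → N.len x < N.len g)) := by
  obtain ⟨b, h1, h2, h3⟩ := PExact.basis_aux N t ht g A hA hg
  exact ⟨b, h1, h2, fun x hx => (h3 x hx).2⟩

theorem exact_PC_zero (N : NF Γ P) {x : W × Finset V →₀ ℚ} (hx : x ∈ PC Γ P 0)
    (h : x.sum (fun _ a => a) = 0) : ∃ y ∈ PC Γ P 1, cbd W V y = x := by
  have h0 : cbd W V x ∈ (⊥ : Submodule ℚ _) := by
    refine PExact.map_mem_of_single _ ?_ hx.1
    rintro ⟨g, A⟩ hA
    obtain rfl := Finset.card_eq_zero.1 hA.2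
    simp [PExact.cbd_single]
  obtain ⟨y, hy, hy'⟩ := PExact.reduce' N hx h0
  refine ⟨y, hy, ?_⟩
  have h1 : x - cbd W V y = Finsupp.single (1, ∅) ((x - cbd W V y) (1, ∅)) :=
    Finsupp.support_subset_singleton.1 fun c hc => Finset.mem_singleton.2 (hy' c hc)
  have h2 := congrArg (PExact.tot _) h1
  rw [map_sub, PExact.tot_cbd hy, PExact.tot_eq, h, sub_zero, PExact.tot_single] at h2
  rw [← h2, Finsupp.single_zero, sub_eq_zero] at h1
  exact h1.symm

theorem exact_PC_succ (N : NF Γ P) {j : ℕ} {x : W × Finset V →₀ ℚ} (hx : x ∈ PC Γ P (j + 1))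
    (h : cbd W V x = 0) : ∃ y ∈ PC Γ P (j + 2), cbd W V y = x := by
  obtain ⟨y, hy, hy'⟩ := PExact.reduce' N hx h
  refine ⟨y, hy, (sub_eq_zero.1 ?_).symm⟩
  ext c
  by_contra h1
  have hc := Finsupp.mem_support_iff.2 h1
  have h2 := ((sub_mem hx (cbd_mem hy)).1 hc).2
  rw [hy' c hc] at h2
  simp at h2

theorem sum_cbd {x : W × Finset V →₀ ℚ} (hx : x ∈ PC Γ P 1) :
    (cbd W V x).sum (fun _ a => a) = 0 := by
  rw [← PExact.tot_eq, PExact.tot_cbd hx]

end Pool.Agent.MP_4f4d9f_gt

end

section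

/-! Exactness of the dual complex in high degrees. -/

namespace Pool.Agent.MP_4f4d9f_gt

namespace PDual

open Finsupp

section Cohom

variable {V : Type} [LinearOrder V] (Γ : SimpleGraph V)

/-- The simplicial coboundary of a function on finite sets. -/
def del (φ : Finset V → ℚ) (B : Finset V) : ℚ := ∑ v ∈ B, (sgn B v : ℚ) * φ (B.erase v)

lemma sum_inc {S B : Finset V} {p : ℕ} (hB : B ∈ clq Γ S (p + 1)) (φ : Finset V → ℚ) :
    ∑ A : clq Γ S p, φ A * (inc A.1 B : ℚ) = del φ B := by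
  classical
  simp only [inc, twd_single, Module.End.one_apply, coe_finsetSum, Finset.sum_apply,
    Finsupp.smul_apply, Int.cast_sum, Finset.mul_sum, del]
  rw [Finset.sum_comm]
  refine Finset.sum_congr rfl fun v hv => ?_
  have hm : B.erase v ∈ clq Γ S p := by
    rw [mem_clq] at hB ⊢
    exact ⟨(Finset.erase_subset _ _).trans hB.1, nclique_erase Γ hB.2 hv⟩
  rw [Finset.sum_eq_single ⟨B.erase v, hm⟩]
  · simp [mul_comm]
  · intro A _ hA
    rw [single_eq_of_ne fun e => hA (Subtype.ext e)]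
    simp
  · simp

theorem cohom {S : Finset V} {k : ℕ} (hex : ExactTwo (Γ.comap (Subtype.val : S → V)) (k + 1))
    {φ : Finset V → ℚ} (hφ : ∀ B ∈ clq Γ S (k + 2), del φ B = 0) :
    ∃ ψ : Finset V → ℚ, ∀ A ∈ clq Γ S (k + 1), del ψ A = φ A := by
  classical
  let D (p : ℕ) : Matrix (clq Γ S p) (clq Γ S (p + 1)) ℤ := fun L K => inc L.1 K.1
  have hDD : D k * D (k + 1) = 0 := by
    ext L K
    have h1 : (twd (N := ℤ) (fun _ => 1) (single K.1 (1 : ℤ))).support ⊆ clq Γ S (k + 1) := by
      intro L' hL'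
      by_contra h
      exact mem_support_iff.1 hL' (inc_eq_zero Γ K.2 h)
    have := twd_one_apply (N := ℤ) h1 L
    rw [twd_one_twd_one] at this
    exact this.symm
  obtain ⟨m, hm, h, h', e⟩ := exists_contraction (D (k + 1)) (D k) hDD fun z hz => by
    obtain ⟨w, hw, hw'⟩ := exact_on Γ hex (ofFun z) (support_ofFun z)
      (twd_one_eq Γ (support_ofFun z) (by simp) fun L => by
        simpa [ofFun_apply, Matrix.mulVec, dotProduct, D] using congrFun hz L)
    refine ⟨fun K => w K, funext fun L => ?_⟩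
    have := twd_one_apply (N := ZMod 2) hw L
    rw [hw', ofFun_apply] at this
    simpa [Matrix.mulVec, dotProduct, D] using this.symm
  have hm' : (m : ℚ) ≠ 0 := Int.cast_ne_zero.2 hm
  let ψ : Finset V → ℚ := fun L =>
    if hL : L ∈ clq Γ S k then (∑ K : clq Γ S (k + 1), φ K * (h' K ⟨L, hL⟩ : ℚ)) / m else 0
  refine ⟨ψ, fun A hA => ?_⟩
  have e1 : ∑ K : clq Γ S (k + 1), φ K * ((D (k + 1) * h + h' * D k) K ⟨A, hA⟩ : ℚ) =
      m * φ A := by
    rw [e, Finset.sum_eq_single ⟨A, hA⟩]
    · simp [mul_comm]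
    · intro K _ hK
      simp [Matrix.one_apply_ne hK]
    · simp
  have e2 : ∑ K : clq Γ S (k + 1), φ K * ((D (k + 1) * h) K ⟨A, hA⟩ : ℚ) = 0 := by
    simp only [Matrix.mul_apply, Int.cast_sum, Int.cast_mul, Finset.mul_sum]
    rw [Finset.sum_comm]
    refine Finset.sum_eq_zero fun B _ => ?_
    simp only [← mul_assoc, ← Finset.sum_mul]
    rw [show ∑ K : clq Γ S (k + 1), φ K * (D (k + 1) K B : ℚ) = del φ B from sum_inc Γ B.2 φ,
      hφ B B.2, zero_mul]
  simp only [Matrix.add_apply, Int.cast_add, mul_add, Finset.sum_add_distrib, e2, zero_add] at e1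
  rw [← sum_inc Γ hA ψ, ← mul_right_inj' hm', ← e1]
  simp only [Matrix.mul_apply, Int.cast_sum, Int.cast_mul, Finset.mul_sum]
  rw [Finset.sum_comm]
  refine Finset.sum_congr rfl fun L _ => ?_
  simp only [ψ, dif_pos L.2, ← mul_assoc, ← Finset.sum_mul]
  rw [mul_div_cancel₀ _ hm']

end Cohom

lemma ip_eq {B : Type} (x y : B →₀ ℚ) : ip x y = linearCombination ℚ (fun b => y b) x := rfl

lemma ip_single_right {B : Type} (x : B →₀ ℚ) (c : B) : ip x (single c 1) = x c := by
  classical
  rw [ip, Finsupp.sum, Finset.sum_eq_single c]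
  · simp
  · intro b _ hb
    rw [single_eq_of_ne hb, mul_zero]
  · intro h
    rw [notMem_support_iff.1 h, zero_mul]

lemma mem_map_of_single {B : Type} {f : (B →₀ ℚ) →ₗ[ℚ] (B →₀ ℚ)} {s : Set B}
    {M : Submodule ℚ (B →₀ ℚ)} (h : ∀ c ∈ s, f (single c 1) ∈ M.map f) {x : B →₀ ℚ}
    (hx : x ∈ supported ℚ ℚ s) : f x ∈ M.map f := by
  have : supported ℚ ℚ s ≤ (M.map f).comap f := by
    rw [supported_eq_span_single, Submodule.span_le]
    rintro _ ⟨c, hc, rfl⟩
    exact h c hc
  exact this hx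

variable {V W : Type} [Fintype V] [LinearOrder V] [Group W] {Γ : SimpleGraph V}
  {P : V → Subgroup W} [∀ v, Fintype (P v)]
  {f : (W × Finset V →₀ ℚ) →ₗ[ℚ] (W × Finset V →₀ ℚ)}

omit [Group W] in
lemma cco_apply (x : W × Finset V →₀ ℚ) (g : W) (B : Finset V) :
    cco W V x (g, B) = del (fun A => x (g, A)) B := by
  classical
  induction x using Finsupp.induction_linear with
  | zero => simp [del]
  | add a b ha hb =>
    simp only [map_add, Finsupp.add_apply, ha, hb, del, mul_add, Finset.sum_add_distrib]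
  | single c a =>
    obtain ⟨g', A⟩ := c
    simp only [cco, linearCombination_single, Finsupp.smul_apply, coe_finsetSum,
      Finset.sum_apply, del, single_apply, Prod.mk.injEq, smul_eq_mul, Finset.mul_sum, mul_ite,
      mul_one, mul_zero]
    rw [← Finset.sum_filter, ← Finset.sum_filter]
    refine Finset.sum_congr ?_ fun v hv => ?_
    · ext v
      simp only [Finset.mem_filter, Finset.mem_compl]
      constructor
      · rintro ⟨h1, h2, rfl⟩
        exact ⟨Finset.mem_insert_self _ _, h2, (Finset.erase_insert h1).symm⟩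
      · rintro ⟨h1, h2, rfl⟩
        exact ⟨Finset.notMem_erase _ _, h2, Finset.insert_erase h1⟩
    · simp only [Finset.mem_filter] at hv
      obtain ⟨h1, -, rfl⟩ := hv
      rw [Finset.insert_erase h1, mul_comm]

omit [Fintype V] [LinearOrder V] in
lemma prj_panel (hf : IsPrj Γ P f) (y : W × Finset V →₀ ℚ) {A : Finset V} {v : V} (hv : v ∈ A)
    (g : W) : ∑ a : P v, f y (g * a, A) = 0 := by
  induction y using Finsupp.induction_linear with
  | zero => simp
  | add a b ha hb => simp [Finset.sum_add_distrib, ha, hb]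
  | single c a =>
    by_cases hc : Γ.IsClique c.2
    · exact (hf.mem c.2.card _ (single_mem_supported ℚ a ⟨hc, rfl⟩)).2 A v hv g
    · rw [← smul_single_one, map_smul, hf.zero c hc]
      simp

omit [Fintype V] [LinearOrder V] in
lemma prj_sum (hf : IsPrj Γ P f) {A : Finset V} {v : V} (hv : v ∈ A) (g : W) :
    f (∑ a : P v, single (g * a, A) 1) = 0 := by
  ext c
  rw [← ip_single_right, hf.adj, ip_eq, map_sum]
  simpa using prj_panel hf (single c 1) hv g

/-- Chains on `j`-cliques of weight below `n`. -/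
noncomputable def Lo (Γ : SimpleGraph V) (w : W → ℕ) (j n : ℕ) :
    Submodule ℚ (W × Finset V →₀ ℚ) :=
  supported ℚ ℚ {c | Γ.IsNClique j c.2 ∧ w c.1 < n}

section Wt

variable (N : NF Γ P) {t : V → W} (ht : ∀ v, t v ∈ P v) (ht1 : ∀ v, t v ≠ 1) {w : W → ℕ}
  [DecidableEq W]
  (hw : ∀ v, ∀ a ∈ P v, a ≠ 1 → ∀ g, N.tl v g = 1 → w (g * a) = w g + if a = t v then 1 else 0)
  (hf : IsPrj Γ P f)

include ht ht1 hw hf

omit [Fintype V] [LinearOrder V] in
lemma rewrite {j : ℕ} {g : W} {A : Finset V} (hA : Γ.IsNClique j A) {v : V} (hv : v ∈ A)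
    (hg : N.tl v g = t v) : f (single (g, A) 1) ∈ (Lo Γ w j (w g)).map f := by
  set g0 := g * (N.tl v g)⁻¹ with hg0
  have h0 : N.tl v g0 = 1 := N.tl_strip v g
  have e : g0 * t v = g := by rw [hg0, hg, inv_mul_cancel_right]
  have hwg : w g = w g0 + 1 := by
    rw [← e, hw v _ (ht v) (ht1 v) g0 h0, if_pos rfl]
  have hs := prj_sum hf hv g0
  rw [← Finset.add_sum_erase _ _ (Finset.mem_univ (⟨t v, ht v⟩ : P v)), map_add, e,
    add_eq_zero_iff_eq_neg, ← map_neg] at hs
  rw [hs]
  refine Submodule.mem_map_of_mem (neg_mem (sum_mem fun a ha => ?_))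
  refine single_mem_supported ℚ _ ⟨hA, ?_⟩
  have ha' : (a : W) ≠ t v := fun h => (Finset.mem_erase.1 ha).1 (Subtype.ext h)
  show w (g0 * a) < w g
  by_cases h1 : (a : W) = 1
  · rw [h1, mul_one]
    omega
  · rw [hw v _ a.2 h1 g0 h0, if_neg ha']
    omega

omit [Fintype V] [LinearOrder V] in
lemma reduce {j n : ℕ} {y : W × Finset V →₀ ℚ}
    (hy : ∀ c ∈ y.support, c.2.card = j ∧ w c.1 ≤ n)
    (h0 : ∀ c : W × Finset V, Γ.IsNClique j c.2 → w c.1 = n → (∀ v ∈ c.2, N.tl v c.1 ≠ t v) →
      y c = 0) : f y ∈ (Lo Γ w j n).map f := by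
  refine mem_map_of_single (s := y.support) (fun c hc => ?_) (fun c hc => hc)
  obtain ⟨h1, h2⟩ := hy c hc
  by_cases hcl : Γ.IsClique c.2
  · have hA : Γ.IsNClique j c.2 := ⟨hcl, h1⟩
    rcases h2.lt_or_eq with h2 | h2
    · exact Submodule.mem_map_of_mem (single_mem_supported ℚ _ ⟨hA, h2⟩)
    · by_cases hn : ∀ v ∈ c.2, N.tl v c.1 ≠ t v
      · exact absurd (h0 c hA h2 hn) (mem_support_iff.1 hc)
      · push Not at hn
        obtain ⟨v, hv, hg⟩ := hn
        rw [← h2]
        exact rewrite N ht ht1 hw hf hA hv hg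
  · rw [hf.zero c hcl]
    exact zero_mem _

omit [Fintype V] [LinearOrder V] in
lemma normal_form {j n : ℕ} {y : W × Finset V →₀ ℚ} (hy : y ∈ Lo Γ w j n) :
    f y ∈ (supported ℚ ℚ {c : W × Finset V | Γ.IsNClique j c.2 ∧ w c.1 < n ∧
      ∀ v ∈ c.2, N.tl v c.1 ≠ t v}).map f := by
  induction n generalizing y with
  | zero =>
    refine mem_map_of_single (fun c hc => ?_) hy
    exact absurd hc.2 (Nat.not_lt_zero _)
  | succ n ih =>
    refine mem_map_of_single (fun c hc => ?_) hy
    by_cases hn : ∀ v ∈ c.2, N.tl v c.1 ≠ t v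
    · exact Submodule.mem_map_of_mem (single_mem_supported ℚ _ ⟨hc.1, hc.2, hn⟩)
    · push Not at hn
      obtain ⟨v, hv, hg⟩ := hn
      obtain ⟨z, hz, e⟩ := rewrite N ht ht1 hw hf hc.1 hv hg
      rw [← e]
      have hz' : z ∈ Lo Γ w j n := fun d hd =>
        ⟨(hz hd).1, lt_of_lt_of_le (hz hd).2 (Nat.lt_succ_iff.1 hc.2)⟩
      obtain ⟨u, hu, e'⟩ := ih hz'
      exact ⟨u, fun d hd => ⟨(hu hd).1, (hu hd).2.1.trans n.lt_succ_self, (hu hd).2.2⟩, e'⟩

omit ht1 hw [DecidableEq W] in
lemma eq_zero_of_normal {j : ℕ} {y : W × Finset V →₀ ℚ}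
    (hy : ∀ c ∈ y.support, Γ.IsNClique j c.2 ∧ ∀ v ∈ c.2, N.tl v c.1 ≠ t v) (h : f y = 0) :
    y = 0 := by
  classical
  ext ⟨g, A⟩
  by_contra hc
  obtain ⟨hA, hn⟩ := hy (g, A) (mem_support_iff.2 hc)
  obtain ⟨b, hb1, hb2, hb3⟩ := exists_basis_elt N t ht hA.1 g hn
  have hinj : Function.Injective fun x : W => (x, A) := fun _ _ e => (Prod.mk.inj e).1
  have hβ : b.mapDomain (fun x => (x, A)) ∈ PC Γ P j := by
    refine ⟨fun c hc => ?_, fun A' v hv x => ?_⟩
    · obtain ⟨x, -, rfl⟩ := Finset.mem_image.1 (mapDomain_support hc)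
      exact hA
    · by_cases e : A' = A
      · subst e
        rw [← hb2 v hv x]
        exact Finset.sum_congr rfl fun a _ => mapDomain_apply hinj b _
      · refine Finset.sum_eq_zero fun a _ => mapDomain_of_notMem_range _ _ ?_
        rintro ⟨x', e'⟩
        exact e (Prod.mk.inj e').2.symm
  have e := hf.adj (b.mapDomain fun x => (x, A)) y
  rw [hf.fix j _ hβ, h, ip_eq, linearCombination_mapDomain, linearCombination_apply, Finsupp.sum,
    Finset.sum_eq_single g] at e
  · refine hc ?_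
    simpa [hb1, ip] using e
  · intro x hx hxg
    rcases hb3 x hx with h1 | ⟨⟨v, hv, h1⟩, -⟩
    · exact absurd h1 hxg
    · have : y (x, A) = 0 := by
        by_contra h2
        exact (hy (x, A) (mem_support_iff.2 h2)).2 v hv h1
      simp [this]
  · intro h1
    simp [notMem_support_iff.1 h1]

lemma top_zero {j n : ℕ} {y : W × Finset V →₀ ℚ}
    (hy : ∀ c ∈ y.support, c.2.card = j ∧ w c.1 ≤ n) (h : f y = 0) {c : W × Finset V}
    (h1 : Γ.IsNClique j c.2) (h2 : w c.1 = n) (h3 : ∀ v ∈ c.2, N.tl v c.1 ≠ t v) : y c = 0 := by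
  classical
  let p : W × Finset V → Prop := fun d =>
    Γ.IsNClique j d.2 ∧ w d.1 = n ∧ ∀ v ∈ d.2, N.tl v d.1 ≠ t v
  obtain ⟨z, hz, e⟩ := reduce N ht ht1 hw hf (j := j) (n := n) (y := y.filter fun d => ¬ p d)
    (fun d hd => hy d (by
      rw [support_filter] at hd
      exact (Finset.mem_filter.1 hd).1))
    (fun d d1 d2 d3 => filter_apply_neg _ _ (not_not.2 ⟨d1, d2, d3⟩))
  obtain ⟨z', hz', e'⟩ := normal_form N ht ht1 hw hf hz
  have h0 : y.filter p + z' = 0 := by
    refine eq_zero_of_normal N ht hf (j := j) (fun d hd => ?_) ?_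
    · rcases Finset.mem_union.1 (support_add hd) with hd | hd
      · rw [support_filter] at hd
        have := (Finset.mem_filter.1 hd).2
        exact ⟨this.1, this.2.2⟩
      · exact ⟨(hz' hd).1, (hz' hd).2.2⟩
    · rw [map_add, e', e, ← map_add, filter_add_filter_not, h]
  have hc : z' c = 0 := by
    by_contra hc
    have := (hz' (mem_support_iff.2 hc)).2.1
    omega
  have := DFunLike.congr_fun h0 c
  rwa [Finsupp.add_apply, hc, add_zero, filter_apply_pos p _ ⟨h1, h2, h3⟩] at this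

omit ht ht1 hw hf [Group W] [DecidableEq W] in
lemma cco_support {j n : ℕ} {x : W × Finset V →₀ ℚ}
    (hx : ∀ c ∈ x.support, c.2.card = j ∧ w c.1 ≤ n) :
    ∀ c ∈ (cco W V x).support, c.2.card = j + 1 ∧ w c.1 ≤ n := by
  rintro ⟨g, B⟩ hc
  rw [mem_support_iff, cco_apply] at hc
  obtain ⟨v, hv, h⟩ := Finset.exists_ne_zero_of_sum_ne_zero hc
  obtain ⟨h1, h2⟩ := hx (g, B.erase v) (mem_support_iff.2 (right_ne_zero_of_mul h))
  exact ⟨by rw [← h1]; exact (Finset.card_erase_add_one hv).symm, h2⟩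

theorem main {k : ℕ}
    (hex : ∀ S : Finset V, ExactTwo (Γ.comap (Subtype.val : S → V)) (k + 1)) (n : ℕ)
    {x : W × Finset V →₀ ℚ} (hx : x ∈ Lo Γ w (k + 1) n) (h : f (cco W V x) = 0) :
    ∃ y ∈ CC Γ W k, f (cco W V y) = f x := by
  classical
  induction n generalizing x with
  | zero =>
    have : x = 0 := by
      ext c
      by_contra hc
      exact Nat.not_lt_zero _ (hx (mem_support_iff.2 hc)).2
    exact ⟨0, zero_mem _, by simp [this]⟩
  | succ n ih =>
    have hx' : ∀ c ∈ x.support, c.2.card = k + 1 ∧ w c.1 ≤ n := fun c hc =>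
      ⟨(hx hc).1.2, Nat.lt_succ_iff.1 (hx hc).2⟩
    let S : W → Finset V := fun g => Finset.univ.filter fun v => N.tl v g ≠ t v
    have hS : ∀ g (A : Finset V), A ⊆ S g ↔ ∀ v ∈ A, N.tl v g ≠ t v := fun g A =>
      forall₂_congr fun v _ => by simp [S]
    have key : ∀ g, w g = n → ∃ ψ : Finset V → ℚ,
        ∀ A ∈ clq Γ (S g) (k + 1), del ψ A = x (g, A) := by
      intro g hg
      refine cohom Γ (hex _) (φ := fun A => x (g, A)) fun B hB => ?_
      rw [← cco_apply]
      rw [mem_clq] at hB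
      exact top_zero N ht ht1 hw hf (cco_support hx') h (c := (g, B)) hB.2 hg ((hS g B).1 hB.1)
    choose! ψ hψ using key
    let T : Finset W := (x.support.image Prod.fst).filter fun g => w g = n
    let Y : W × Finset V →₀ ℚ := onFinset (T ×ˢ clq Γ Finset.univ k)
      (fun c => if c ∈ T ×ˢ clq Γ Finset.univ k then ψ c.1 c.2 else 0)
      (fun c hc => by
        by_contra h'
        exact hc (if_neg h'))
    have hY : ∀ c ∈ Y.support, Γ.IsNClique k c.2 ∧ w c.1 ≤ n := by
      intro c hc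
      have := Finset.mem_product.1 (support_onFinset_subset hc)
      exact ⟨((mem_clq Γ).1 this.2).2, (Finset.mem_filter.1 this.1).2.le⟩
    have hY' := cco_support (w := w) (fun c hc => ⟨(hY c hc).1.2, (hY c hc).2⟩)
    obtain ⟨z, hz, e⟩ := reduce N ht ht1 hw hf (j := k + 1) (n := n) (y := x - cco W V Y)
      (fun c hc => by
        rcases Finset.mem_union.1 (support_sub hc) with hc | hc
        · exact hx' c hc
        · exact hY' c hc)
      (by
        rintro ⟨g, A⟩ d1 d2 d3
        rw [Finsupp.sub_apply, cco_apply, sub_eq_zero]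
        by_cases hg : g ∈ T
        · rw [← hψ g d2 A ((mem_clq Γ).2 ⟨(hS g A).2 d3, d1⟩)]
          refine Finset.sum_congr rfl fun v hv => ?_
          simp only [Y, onFinset_apply]
          rw [if_pos (Finset.mem_product.2 ⟨hg, (mem_clq Γ).2
            ⟨Finset.subset_univ _, nclique_erase Γ d1 hv⟩⟩)]
        · have h1 : x (g, A) = 0 := by
            by_contra h1
            exact hg (Finset.mem_filter.2
              ⟨Finset.mem_image_of_mem Prod.fst (mem_support_iff.2 h1), d2⟩)
          rw [h1]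
          refine (Finset.sum_eq_zero fun v _ => ?_).symm
          simp only [Y, onFinset_apply]
          rw [if_neg fun h' => hg (Finset.mem_product.1 h').1, mul_zero])
    obtain ⟨y, hy, e'⟩ := ih hz (by
      rw [← hf.cco_prj, e, map_sub, map_sub, map_sub, hf.cco_prj, h, hf.cco_cco, sub_zero])
    refine ⟨Y + y, add_mem (fun c hc => (hY c hc).1) hy, ?_⟩
    rw [map_add, map_add, e', e, map_sub, add_sub_cancel]

end Wt

end PDual

theorem exact_dual {V W : Type} [Fintype V] [LinearOrder V] [Group W] {Γ : SimpleGraph V}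
    {P : V → Subgroup W} [∀ v, Fintype (P v)] (N : NF Γ P) (hnt : ∀ v, ∃ t ∈ P v, t ≠ 1)
    {f : (W × Finset V →₀ ℚ) →ₗ[ℚ] (W × Finset V →₀ ℚ)} (hf : IsPrj Γ P f) {k : ℕ}
    (hex : ∀ S : Finset V, ExactTwo (Γ.comap (Subtype.val : S → V)) (k + 1))
    {x : W × Finset V →₀ ℚ} (hx : x ∈ CC Γ W (k + 1)) (h : f (cco W V x) = 0) :
    ∃ y ∈ CC Γ W k, f (cco W V y) = f x := by
  classical
  choose t ht ht1 using hnt
  obtain ⟨w, -, hw⟩ := N.wt_right fun v a => if a = t v then 1 else 0
  refine PDual.main N ht ht1 hw hf hex (x.support.sup (fun c => w c.1) + 1)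
    (fun c hc => ⟨hx hc, Nat.lt_succ_of_le ?_⟩) h
  exact Finset.le_sup (f := fun c : W × Finset V => w c.1) hc

end Pool.Agent.MP_4f4d9f_gt

end

section

/-! An exact equivariant cochain complex of finite type is contractible; transposition. -/

namespace Pool.Agent.MP_4f4d9f_gt

namespace Split

open Finsupp

variable {G B : Type} [Group G] [MulAction G B]

theorem ip_single_left (b : B) (a : ℚ) (y : B →₀ ℚ) : ip (single b a) y = a * y b := by
  unfold ip
  rw [Finsupp.sum_single_index]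
  simp

theorem ip_add_left (x x' y : B →₀ ℚ) : ip (x + x') y = ip x y + ip x' y := by
  unfold ip
  rw [Finsupp.sum_add_index']
  · intro b; simp
  · intro b a a'; ring

theorem ip_zero_left (y : B →₀ ℚ) : ip 0 y = 0 := by
  unfold ip
  simp

theorem ip_zero_right (x : B →₀ ℚ) : ip x 0 = 0 := by
  unfold ip
  simp

theorem ip_add_right (x y y' : B →₀ ℚ) : ip x (y + y') = ip x y + ip x y' := by
  unfold ip
  simp only [Finsupp.sum, Finsupp.add_apply, mul_add, Finset.sum_add_distrib]

theorem ip_single_right (x : B →₀ ℚ) (b : B) (a : ℚ) : ip x (single b a) = x b * a := by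
  classical
  induction x using Finsupp.induction_linear with
  | zero => simp [ip_zero_left]
  | add u v hu hv => rw [ip_add_left, hu, hv, Finsupp.add_apply, add_mul]
  | single c e =>
    rw [ip_single_left]
    by_cases h : c = b
    · subst h; simp
    · simp [h, Ne.symm h]

theorem ip_eq_zero {S T : Set B} (hST : Disjoint S T) {x y : B →₀ ℚ}
    (hx : x ∈ Finsupp.supported ℚ ℚ S) (hy : y ∈ Finsupp.supported ℚ ℚ T) : ip x y = 0 := by
  unfold ip
  refine Finset.sum_eq_zero fun b hb => ?_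
  have h1 : b ∈ S := (Finsupp.mem_supported ℚ x).1 hx hb
  have h2 : y b = 0 := (Finsupp.mem_supported' ℚ y).1 hy b fun h => Set.disjoint_left.1 hST h1 h
  simp [h2]

/-- A linear map sends chains supported on `S` into a submodule if it does so on the basis. -/
theorem map_mem {S : Set B} {E : Type} [AddCommGroup E] [Module ℚ E] (L : (B →₀ ℚ) →ₗ[ℚ] E)
    (M : Submodule ℚ E) (h : ∀ b ∈ S, L (single b 1) ∈ M) :
    ∀ x ∈ Finsupp.supported ℚ ℚ S, L x ∈ M := by
  intro x hx
  rw [Finsupp.supported_eq_span_single] at hx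
  have : Submodule.span ℚ ((fun b => single b (1 : ℚ)) '' S) ≤ M.comap L := by
    rw [Submodule.span_le]
    rintro _ ⟨b, hb, rfl⟩
    exact h b hb
  exact this hx

theorem map_eq {S : Set B} {E : Type} [AddCommGroup E] [Module ℚ E] (L L' : (B →₀ ℚ) →ₗ[ℚ] E)
    (h : ∀ b ∈ S, L (single b 1) = L' (single b 1)) :
    ∀ x ∈ Finsupp.supported ℚ ℚ S, L x = L' x := by
  intro x hx
  have := map_mem (L - L') ⊥ (fun b hb => by simp [h b hb]) x hx
  simpa [sub_eq_zero] using this

theorem single_mem {S : Set B} {b : B} (hb : b ∈ S) :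
    single b (1 : ℚ) ∈ Finsupp.supported ℚ ℚ S :=
  Finsupp.single_mem_supported ℚ 1 hb

theorem md_apply (g : G) (x : B →₀ ℚ) (b : B) : (x.mapDomain (g • ·)) (g • b) = x b :=
  Finsupp.mapDomain_apply (MulAction.injective g) x b

theorem md_mul (g h : G) (x : B →₀ ℚ) :
    x.mapDomain ((g * h) • ·) = (x.mapDomain (h • ·)).mapDomain (g • ·) := by
  rw [← Finsupp.mapDomain_comp]
  congr 1
  funext b
  simp [mul_smul]

theorem md_mem (deg : B → ℕ) (hdeg : ∀ (g : G) b, deg (g • b) = deg b) (g : G) (j : ℕ) :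
    ∀ x ∈ Finsupp.supported ℚ ℚ {b | deg b = j},
      x.mapDomain (g • ·) ∈ Finsupp.supported ℚ ℚ {b | deg b = j} := by
  refine map_mem (Finsupp.lmapDomain ℚ ℚ (g • ·)) _ fun b hb => ?_
  rw [Finsupp.lmapDomain_apply, Finsupp.mapDomain_single]
  exact single_mem (by simpa [hdeg] using hb)

theorem eqv_of_single (u : (B →₀ ℚ) →ₗ[ℚ] (B →₀ ℚ))
    (h : ∀ (g : G) b, u (single (g • b) 1) = (u (single b 1)).mapDomain (g • ·)) (g : G)
    (x : B →₀ ℚ) : u (x.mapDomain (g • ·)) = (u x).mapDomain (g • ·) := by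
  have := map_eq (S := Set.univ) (u ∘ₗ Finsupp.lmapDomain ℚ ℚ (g • ·))
    (Finsupp.lmapDomain ℚ ℚ (g • ·) ∘ₗ u) (fun b _ => by
      simp only [LinearMap.comp_apply, Finsupp.lmapDomain_apply, Finsupp.mapDomain_single, h])
    x (by simp)
  simpa only [LinearMap.comp_apply, Finsupp.lmapDomain_apply] using this

/-- Equivariant choice of values on a free basis. -/
theorem exists_eqv (hfree : ∀ (g : G) (b : B), g • b = b → g = 1) (R : B → (B →₀ ℚ) → Prop)
    (hR : ∀ (g : G) b y, R b y → R (g • b) (y.mapDomain (g • ·))) (hex : ∀ b, ∃ y, R b y) :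
    ∃ u : (B →₀ ℚ) →ₗ[ℚ] (B →₀ ℚ),
      (∀ (g : G) x, u (x.mapDomain (g • ·)) = (u x).mapDomain (g • ·)) ∧
      ∀ b, R b (u (single b 1)) := by
  let r : Setoid B := MulAction.orbitRel G B
  have hrep : ∀ b : B, ∃ g : G, g • (Quotient.mk r b).out = b := fun b =>
    r.symm (Quotient.mk_out (s := r) b)
  choose η hη using hrep
  choose y hy using hex
  have hmk : ∀ (g : G) (b : B), Quotient.mk r (g • b) = Quotient.mk r b := fun g b =>
    Quotient.sound ⟨g, rfl⟩
  have hη' : ∀ (g : G) (b : B), η (g • b) = g * η b := by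
    intro g b
    have e := hη (g • b)
    rw [hmk] at e
    have e2 : ((g * η b)⁻¹ * η (g • b)) • (Quotient.mk r b).out = (Quotient.mk r b).out := by
      rw [mul_smul, e, inv_smul_eq_iff, mul_smul, hη]
    have e3 := hfree _ _ e2
    rw [inv_mul_eq_one] at e3
    exact e3.symm
  refine ⟨Finsupp.linearCombination ℚ fun b => (y (Quotient.mk r b).out).mapDomain (η b • ·),
    eqv_of_single _ fun g b => ?_, fun b => ?_⟩
  · simp only [Finsupp.linearCombination_single, one_smul, hη', hmk, md_mul]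
  · simp only [Finsupp.linearCombination_single, one_smul]
    have := hR (η b) _ _ (hy (Quotient.mk r b).out)
    rwa [hη] at this

/-- The transpose of an equivariant map. -/
theorem exists_transpose (hfree : ∀ (g : G) (b : B), g • b = b → g = 1)
    (hcof : ∃ F : Finset B, ∀ b : B, ∃ g : G, g • b ∈ F) (t : (B →₀ ℚ) →ₗ[ℚ] (B →₀ ℚ))
    (ht : ∀ (g : G) x, t (x.mapDomain (g • ·)) = (t x).mapDomain (g • ·)) :
    ∃ s : (B →₀ ℚ) →ₗ[ℚ] (B →₀ ℚ),
      (∀ (g : G) x, s (x.mapDomain (g • ·)) = (s x).mapDomain (g • ·)) ∧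
      ∀ x y, ip (s x) y = ip x (t y) := by
  classical
  obtain ⟨F, hF⟩ := hcof
  have hs : ∀ (g : G) b, t (single (g • b) 1) = (t (single b 1)).mapDomain (g • ·) := by
    intro g b
    rw [← ht, Finsupp.mapDomain_single]
  have hfin : ∀ b : B, (Function.support fun b' => t (single b' 1) b).Finite := by
    intro b
    have hinj : Function.Injective fun g : G => g • b := by
      intro g h e
      have e' : (h⁻¹ * g) • b = b := by
        rw [mul_smul, inv_smul_eq_iff]; exact e
      have := hfree _ _ e'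
      rw [inv_mul_eq_one] at this
      exact this.symm
    have hS : ((fun g : G => g • b) ⁻¹'
        (F.biUnion fun c => (t (single c 1)).support : Finset B)).Finite :=
      (Finset.finite_toSet _).preimage hinj.injOn
    refine (hS.image2 (fun (g : G) (c : B) => g⁻¹ • c) F.finite_toSet).subset fun b' hb' => ?_
    obtain ⟨g, hg⟩ := hF b'
    refine ⟨g, ?_, g • b', hg, by simp⟩
    simp only [Set.mem_preimage, Finset.mem_coe, Finset.mem_biUnion]
    refine ⟨g • b', hg, ?_⟩
    rw [Finsupp.mem_support_iff, hs, md_apply]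
    exact hb'
  let s : (B →₀ ℚ) →ₗ[ℚ] (B →₀ ℚ) := Finsupp.linearCombination ℚ fun b =>
    Finsupp.ofSupportFinite (fun b' => t (single b' 1) b) (hfin b)
  have hsa : ∀ b b', s (single b 1) b' = t (single b' 1) b := by
    intro b b'
    simp only [s, Finsupp.linearCombination_single, one_smul, Finsupp.ofSupportFinite_coe]
  refine ⟨s, eqv_of_single s fun g b => ?_, fun x y => ?_⟩
  · ext b'
    obtain ⟨c, rfl⟩ := MulAction.surjective g b'
    rw [hsa, md_apply, hsa, hs, md_apply]
  · induction x using Finsupp.induction_linear with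
    | zero => simp [ip_zero_left]
    | add u v hu hv => rw [map_add, ip_add_left, ip_add_left, hu, hv]
    | single b a =>
      induction y using Finsupp.induction_linear with
      | zero => simp [ip_zero_right]
      | add u v hu hv => rw [map_add t, ip_add_right, ip_add_right, hu, hv]
      | single c e =>
        have e1 : single b a = a • single b (1 : ℚ) := by simp
        have e2 : single c e = e • single c (1 : ℚ) := by simp
        rw [ip_single_right, ip_single_left]
        conv_lhs => rw [e1]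
        conv_rhs => rw [e2]
        rw [map_smul, map_smul, Finsupp.smul_apply, Finsupp.smul_apply, hsa, smul_eq_mul,
          smul_eq_mul]
        ring

/-- The data carried through the downward induction. -/
structure Contr (G : Type) [Group G] [MulAction G B] (deg : B → ℕ)
    (f δ t : (B →₀ ℚ) →ₗ[ℚ] (B →₀ ℚ)) (m : ℕ) : Prop where
  eqv : ∀ (g : G) x, t (x.mapDomain (g • ·)) = (t x).mapDomain (g • ·)
  mem : ∀ j, ∀ x ∈ Finsupp.supported ℚ ℚ {b | deg b = j + 1},
    t x ∈ Finsupp.supported ℚ ℚ {b | deg b = j}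
  low : ∀ j, j ≤ m → ∀ x ∈ Finsupp.supported ℚ ℚ {b | deg b = j}, t x = 0
  fix : ∀ x, f (t x) = t x
  hom : ∀ j, m ≤ j → ∀ x ∈ Finsupp.supported ℚ ℚ {b | deg b = j + 1},
    δ (t x) + t (δ x) = f x

theorem contr_step (hfree : ∀ (g : G) (b : B), g • b = b → g = 1)
    (deg : B → ℕ) (hdeg : ∀ (g : G) b, deg (g • b) = deg b)
    (f δ : (B →₀ ℚ) →ₗ[ℚ] (B →₀ ℚ))
    (hf : ∀ (g : G) x, f (x.mapDomain (g • ·)) = (f x).mapDomain (g • ·))
    (hδ : ∀ (g : G) x, δ (x.mapDomain (g • ·)) = (δ x).mapDomain (g • ·))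
    (hδj : ∀ j, ∀ x ∈ Finsupp.supported ℚ ℚ {b | deg b = j},
      δ x ∈ Finsupp.supported ℚ ℚ {b | deg b = j + 1})
    (hfj : ∀ j, ∀ x ∈ Finsupp.supported ℚ ℚ {b | deg b = j},
      f x ∈ Finsupp.supported ℚ ℚ {b | deg b = j})
    (hff : ∀ x, f (f x) = f x) (hδf : ∀ x, δ (f x) = δ x) (hfδ : ∀ x, f (δ x) = δ x)
    (hδδ : ∀ x, δ (δ x) = 0) (m : ℕ)
    (hex : ∀ x ∈ Finsupp.supported ℚ ℚ {b | deg b = m + 1}, δ x = 0 →
      ∃ y ∈ Finsupp.supported ℚ ℚ {b | deg b = m}, δ y = f x)
    (t : (B →₀ ℚ) →ₗ[ℚ] (B →₀ ℚ)) (ht : Contr G deg f δ t (m + 1)) :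
    ∃ t', Contr G deg f δ t' m := by
  obtain ⟨u, hu, hR⟩ := exists_eqv (G := G) hfree (fun b y =>
    (deg b = m + 1 → y ∈ Finsupp.supported ℚ ℚ {b | deg b = m} ∧ f y = y ∧
      δ y + t (δ (single b 1)) = f (single b 1)) ∧ (deg b ≠ m + 1 → y = 0)) (by
      intro g b y h
      rw [hdeg]
      refine ⟨fun hb => ?_, fun hb => by rw [h.2 hb, Finsupp.mapDomain_zero]⟩
      obtain ⟨h1, h2, h3⟩ := h.1 hb
      refine ⟨md_mem deg hdeg g m y h1, by rw [hf, h2], ?_⟩
      rw [← Finsupp.mapDomain_single (f := (g • ·)), hδ, hδ, hf, ht.eqv, ← Finsupp.mapDomain_add,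
        h3]) (by
      intro b
      by_cases hb : deg b = m + 1
      · have hb1 : single b (1 : ℚ) ∈ Finsupp.supported ℚ ℚ {b | deg b = m + 1} := single_mem hb
        have hb2 := hδj _ _ hb1
        have e := ht.hom (m + 1) le_rfl _ hb2
        rw [hδδ, map_zero, add_zero, hfδ] at e
        obtain ⟨y, hy, hy2⟩ := hex (f (single b 1) - t (δ (single b 1)))
          (sub_mem (hfj _ _ hb1) (ht.mem _ _ hb2)) (by rw [map_sub, hδf, e, sub_self])
        refine ⟨f y, fun _ => ⟨hfj _ _ hy, hff y, ?_⟩, fun h => absurd hb h⟩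
        rw [hδf, hy2, map_sub, hff, ht.fix, sub_add_cancel]
      · exact ⟨0, fun h => absurd h hb, fun _ => rfl⟩)
  have hu0 : ∀ j, j ≠ m + 1 → ∀ x ∈ Finsupp.supported ℚ ℚ {b | deg b = j}, u x = 0 := by
    intro j hj x hx
    refine map_eq u 0 (fun b hb => ?_) x hx
    exact (hR b).2 fun h => hj (by rw [← h]; exact Eq.symm hb)
  refine ⟨t + u, fun g x => ?_, fun j x hx => ?_, fun j hj x hx => ?_, fun x => ?_,
    fun j hj x hx => ?_⟩
  · simp only [LinearMap.add_apply, ht.eqv, hu, Finsupp.mapDomain_add]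
  · rw [LinearMap.add_apply]
    refine add_mem (ht.mem j x hx) ?_
    by_cases hj : j = m
    · subst hj
      exact map_mem u _ (fun b hb => ((hR b).1 hb).1) x hx
    · rw [hu0 (j + 1) (by omega) x hx]
      exact zero_mem _
  · rw [LinearMap.add_apply, ht.low j (by omega) x hx, hu0 j (by omega) x hx, add_zero]
  · have := map_eq (S := Set.univ) (f ∘ₗ u) u (fun b _ => by
      rw [LinearMap.comp_apply]
      by_cases hb : deg b = m + 1
      · exact ((hR b).1 hb).2.1
      · rw [(hR b).2 hb, map_zero]) x (by simp)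
    rw [LinearMap.comp_apply] at this
    rw [LinearMap.add_apply, map_add, ht.fix, this]
  · rw [LinearMap.add_apply, LinearMap.add_apply, hu0 (j + 1 + 1) (by omega) _ (hδj _ _ hx),
      add_zero]
    by_cases hjm : j = m
    · subst hjm
      rw [ht.low _ le_rfl x hx, zero_add]
      have := map_eq (δ ∘ₗ u + t ∘ₗ δ) f (fun b hb => ((hR b).1 hb).2.2) x hx
      simpa only [LinearMap.add_apply, LinearMap.comp_apply] using this
    · rw [hu0 (j + 1) (by omega) x hx, add_zero]
      exact ht.hom j (by omega) x hx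

end Split

open Split in
theorem exists_contr {G B : Type} [Group G] [MulAction G B]
    (hfree : ∀ (g : G) (b : B), g • b = b → g = 1)
    (hcof : ∃ F : Finset B, ∀ b : B, ∃ g : G, g • b ∈ F)
    (deg : B → ℕ) (hdeg : ∀ (g : G) b, deg (g • b) = deg b) {n : ℕ} (hn : ∀ b, deg b ≤ n)
    (f δ d : (B →₀ ℚ) →ₗ[ℚ] (B →₀ ℚ))
    (hf : ∀ (g : G) x, f (x.mapDomain (g • ·)) = (f x).mapDomain (g • ·))
    (hδ : ∀ (g : G) x, δ (x.mapDomain (g • ·)) = (δ x).mapDomain (g • ·))
    (hδj : ∀ j, ∀ x ∈ Finsupp.supported ℚ ℚ {b | deg b = j},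
      δ x ∈ Finsupp.supported ℚ ℚ {b | deg b = j + 1})
    (hfj : ∀ j, ∀ x ∈ Finsupp.supported ℚ ℚ {b | deg b = j},
      f x ∈ Finsupp.supported ℚ ℚ {b | deg b = j})
    (hff : ∀ x, f (f x) = f x) (hδf : ∀ x, δ (f x) = δ x) (hfδ : ∀ x, f (δ x) = δ x)
    (hδδ : ∀ x, δ (δ x) = 0)
    (hfa : ∀ x y, ip (f x) y = ip x (f y)) (hda : ∀ x y, ip (d x) y = ip x (δ y))
    (k : ℕ) (hex : ∀ j, k ≤ j → ∀ x ∈ Finsupp.supported ℚ ℚ {b | deg b = j + 1}, δ x = 0 →
      ∃ y ∈ Finsupp.supported ℚ ℚ {b | deg b = j}, δ y = f x) :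
    ∃ s : (B →₀ ℚ) →ₗ[ℚ] (B →₀ ℚ),
      (∀ (g : G) x, s (x.mapDomain (g • ·)) = (s x).mapDomain (g • ·)) ∧
      (∀ j, ∀ x ∈ Finsupp.supported ℚ ℚ {b | deg b = j},
        s x ∈ Finsupp.supported ℚ ℚ {b | deg b = j + 1}) ∧
      ∀ j, k ≤ j → ∀ x ∈ Finsupp.supported ℚ ℚ {b | deg b = j + 1}, d (s x) + s (d x) = f x := by
  have key : ∀ i m, k ≤ m → n ≤ m + i → ∃ t, Contr G deg f δ t m := by
    intro i
    induction i with
    | zero =>
      intro m _ hm
      refine ⟨0, fun g x => by simp, fun j x _ => by simp, fun j _ x _ => rfl, fun x => by simp,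
        fun j hj x hx => ?_⟩
      have hx0 : x = 0 := by
        ext b
        refine (Finsupp.mem_supported' ℚ x).1 hx b fun hb => ?_
        have h1 : deg b = j + 1 := hb
        have := hn b
        omega
      simp [hx0]
    | succ i ih =>
      intro m hk hm
      obtain ⟨t, ht⟩ := ih (m + 1) (by omega) (by omega)
      exact contr_step hfree deg hdeg f δ hf hδ hδj hfj hff hδf hfδ hδδ m (hex m hk) t ht
  obtain ⟨t, ht⟩ := key n k le_rfl (by omega)
  obtain ⟨s, hs, hst⟩ := exists_transpose hfree hcof t ht.eqv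
  have hdis : ∀ i j : ℕ, i ≠ j → Disjoint {b | deg b = i} {b | deg b = j} := by
    intro i j hij
    rw [Set.disjoint_left]
    intro b h1 h2
    exact hij ((Eq.symm h1).trans h2)
  have hb1 : ∀ b : B, Finsupp.single b (1 : ℚ) ∈ Finsupp.supported ℚ ℚ {c | deg c = deg b} :=
    fun b => single_mem rfl
  refine ⟨s, hs, fun j x hx => ?_, fun j hj x hx => ?_⟩
  · rw [Finsupp.mem_supported']
    intro b hb
    have e := hst x (Finsupp.single b 1)
    rw [ip_single_right, mul_one] at e
    rw [e]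
    have h1 := hb1 b
    rcases h0 : deg b with _ | i
    · rw [h0] at h1
      rw [ht.low 0 (Nat.zero_le _) _ h1, ip_zero_right]
    · rw [h0] at h1
      exact ip_eq_zero (hdis j i fun h => hb (by rw [h]; exact h0)) hx (ht.mem i _ h1)
  · ext b
    have e1 := ip_single_right (d (s x) + s (d x)) b 1
    have e2 := ip_single_right (f x) b 1
    rw [mul_one] at e1 e2
    rw [← e1, ← e2, ip_add_left, hda, hst, hst, hda, hfa, ← ip_add_right, add_comm]
    have h1 := hb1 b
    by_cases hb : deg b = j + 1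
    · rw [hb] at h1
      rw [ht.hom j hj _ h1]
    · have hd := hdis (j + 1) (deg b) (Ne.symm hb)
      rw [ip_eq_zero hd hx (hfj _ _ h1)]
      refine ip_eq_zero hd hx (add_mem ?_ (ht.mem _ _ (hδj _ _ h1)))
      rcases h0 : deg b with _ | i
      · rw [h0] at h1
        rw [ht.low 0 (Nat.zero_le _) _ h1, map_zero]
        exact zero_mem _
      · rw [h0] at h1
        exact hδj _ _ (ht.mem i _ h1)

end Pool.Agent.MP_4f4d9f_gt

end

section

/-! Rational homological dimension of groups acting freely on a building of finite type. -/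

namespace Pool.Agent.MP_4f4d9f_gt

theorem ip_comm {B : Type} (x y : B →₀ ℚ) : ip x y = ip y x := by
  classical
  unfold ip
  rw [Finsupp.sum_of_support_subset x (Finset.subset_union_left (s₂ := y.support)) _ (by simp),
    Finsupp.sum_of_support_subset y (Finset.subset_union_right (s₁ := x.support)) _ (by simp)]
  exact Finset.sum_congr rfl fun b _ => mul_comm _ _

theorem filter_mapDomain' {B : Type} (p : B → Prop) [DecidablePred p] (θ : B → B)
    (h : ∀ b, p (θ b) ↔ p b) (x : B →₀ ℚ) :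
    (x.mapDomain θ).filter p = (x.filter p).mapDomain θ := by
  induction x using Finsupp.induction_linear with
  | zero => rw [Finsupp.mapDomain_zero, Finsupp.filter_zero, Finsupp.mapDomain_zero]
  | add a b ha hb => simp only [Finsupp.mapDomain_add, Finsupp.filter_add, ha, hb]
  | single b a =>
    rw [Finsupp.mapDomain_single]
    by_cases hb : p b
    · rw [Finsupp.filter_single_of_pos p hb, Finsupp.filter_single_of_pos p ((h b).2 hb),
        Finsupp.mapDomain_single]
    · rw [Finsupp.filter_single_of_neg p hb, Finsupp.filter_single_of_neg p (mt (h b).1 hb),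
        Finsupp.mapDomain_zero]

theorem exactAt_of_building {V W : Type} [Finite V] [LinearOrder V] [Group W] {Γ : SimpleGraph V}
    {P : V → Subgroup W} (N : NF Γ P) (hfin : ∀ v, Finite (P v)) (hnt : ∀ v, ∃ t ∈ P v, t ≠ 1)
    {K : Type} [Group K] [MulAction K W]
    (hadj : ∀ (h : K) (c c' : W) (v : V), c⁻¹ * c' ∈ P v → (h • c)⁻¹ * (h • c') ∈ P v)
    (hfree : ∀ (h : K) (c : W), h • c = c → h = 1)
    (hcof : ∃ F : Finset W, ∀ c : W, ∃ h : K, h • c ∈ F)
    {H : Type} [Group H] (j : H →* K) (hj : Function.Injective j)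
    {G X : Type} [Group G] [TopologicalSpace X] [ContractibleSpace X]
    [MulAction G X] [ContinuousConstSMul G X] (hX : ∀ (g : G) (x : X), g • x = x → g = 1)
    (i : H →* G) (hi : Function.Injective i) {k : ℕ}
    (hex : ∀ l, k ≤ l → ∀ S : Finset V, ExactTwo (Γ.comap (Subtype.val : S → V)) (l + 1))
    {R : Type} [Ring R] (ι : H →* R) (φ : ℚ →+* R) (hφ : ∀ q a, φ q * a = a * φ q) :
    ExactAt ι (fun k => (permRep G (Sing X k)).comp i) (bd ℤ X)
      (fun k g c => bd_smul G X k (i g) c) k := by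
  haveI := Fintype.ofFinite V
  haveI := fun v => Fintype.ofFinite (P v)
  letI : MulAction K (W × Finset V) :=
    { smul := fun g c => (g • c.1, c.2)
      one_smul := fun c => Prod.ext (one_smul K c.1) rfl
      mul_smul := fun g h c => Prod.ext (mul_smul g h c.1) rfl }
  have hsm : ∀ g : K, (fun c : W × Finset V => g • c) = Prod.map (MulAction.toPerm g) id :=
    fun g => rfl
  have hA : ∀ g : K, AdjPres P (MulAction.toPerm g) := fun g c c' v =>
    ⟨hadj g c c' v, fun h => by simpa using hadj g⁻¹ _ _ v h⟩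
  have hfreeB : ∀ (g : K) (c : W × Finset V), g • c = c → g = 1 := fun g c h =>
    hfree g c.1 (congrArg Prod.fst h)
  obtain ⟨f, hf⟩ := exists_prj (Γ := Γ) (P := P) N.gp.comm
  have hfe : ∀ (g : K) (x : W × Finset V →₀ ℚ),
      f (x.mapDomain (g • ·)) = (f x).mapDomain (g • ·) := fun g x => hf.eqv _ (hA g) x
  have hPD : ∀ l, ∀ x ∈ PC Γ P l,
      x ∈ Finsupp.supported ℚ ℚ {c : W × Finset V | c.2.card = l} := fun l x hx =>
    Finsupp.supported_mono (fun c hc => hc.2) hx.1
  obtain ⟨s, hs, hsj, hss⟩ := exists_contr (G := K) (B := W × Finset V) hfreeB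
    (by
      classical
      obtain ⟨F, hF⟩ := hcof
      refine ⟨F ×ˢ Finset.univ, fun c => ?_⟩
      obtain ⟨h, hh⟩ := hF c.1
      exact ⟨h, Finset.mem_product.2 ⟨hh, Finset.mem_univ _⟩⟩)
    (fun c => c.2.card) (fun _ _ => rfl) (n := Fintype.card V) (fun c => c.2.card_le_univ)
    f (f ∘ₗ cco W V) (cbd W V ∘ₗ f) hfe
    (fun g x => by
      rw [LinearMap.comp_apply, LinearMap.comp_apply, ← hfe]
      exact congrArg f (cco_mapDomain _ x))
    (fun l x hx => hPD _ _ (hf.mem_PC (cco_mem hx))) (fun l x hx => hPD _ _ (hf.mem_PC hx))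
    hf.idem hf.cco_prj (fun x => hf.idem _) hf.cco_cco hf.adj
    (fun x y => by
      rw [LinearMap.comp_apply, LinearMap.comp_apply, ip_cbd, hf.adj])
    k (fun l hl x hx h => by
      obtain ⟨y, hy, hy'⟩ := exact_dual N hnt hf (hex l hl) (hf.mem_PC hx).1
        ((hf.cco_prj x).trans h)
      exact ⟨y, Finsupp.supported_mono (fun c hc => hc.2) hy, hy'.trans (hf.idem x)⟩)
  let ρ (l : ℕ) : Representation ℤ H (PC Γ P l) :=
    { toFun := fun h => ((Finsupp.lmapDomain ℚ ℚ (j h • ·)).restrict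
        fun x hx => mapDomain_mem_PC (hA (j h)) hx).restrictScalars ℤ
      map_one' := by
        ext x : 2
        change x.1.mapDomain (j 1 • ·) = x.1
        simp only [map_one, one_smul]
        exact Finsupp.mapDomain_id
      map_mul' := fun g h => by
        ext x : 2
        simp [LinearMap.restrict_apply, mul_smul, ← Finsupp.mapDomain_comp, Function.comp_def] }
  have hρ : ∀ l h (x : PC Γ P l), (ρ l h x).1 = x.1.mapDomain (j h • ·) := fun _ _ _ => rfl
  let d (l : ℕ) : PC Γ P (l + 1) →ₗ[ℤ] PC Γ P l :=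
    ((cbd W V).restrict fun x hx => cbd_mem hx).restrictScalars ℤ
  have hd : ∀ l (x : PC Γ P (l + 1)), (d l x).1 = cbd W V x.1 := fun _ _ => rfl
  let ε : PC Γ P 0 →ₗ[ℤ] ℚ :=
    (Finsupp.linearCombination ℚ (fun _ => (1 : ℚ)) ∘ₗ (PC Γ P 0).subtype).restrictScalars ℤ
  have hε : ∀ x : PC Γ P 0, ε x = x.1.sum fun _ a => a := fun x => by
    simp [ε, Finsupp.linearCombination_apply]
  let σ (l : ℕ) : PC Γ P l →ₗ[ℤ] PC Γ P (l + 1) :=
    ((f ∘ₗ s).restrict fun x hx => hf.mem_PC (hsj l x (hPD l x hx))).restrictScalars ℤ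
  have hσ : ∀ l (x : PC Γ P l), (σ l x).1 = f (s x.1) := fun _ _ => rfl
  have hσe : ∀ l, Eqv (ρ l) (ρ (l + 1)) (σ l) := fun l g c => Subtype.ext (by
    rw [hσ, hρ, hρ, hσ, hs, hfe])
  have hR : IsResQ ρ d ε :=
    { eqv_d := fun l g c => Subtype.ext (by
        rw [hd, hρ, hρ, hd]
        exact cbd_mapDomain _ _)
      eqv_ε := fun g c => by
        rw [hε, hε, hρ, Finsupp.sum_mapDomain_index (by simp) (by simp)]
      ε_d := fun c => by
        rw [hε, hd]
        exact sum_cbd c.2
      d_d := fun l c => Subtype.ext (cbd_cbd _)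
      surj := fun t => ⟨⟨Finsupp.single (1, ∅) t,
          Finsupp.single_mem_supported _ _ (by simp [SimpleGraph.isNClique_empty]),
          fun A v hv g => Finset.sum_eq_zero fun a _ => Finsupp.single_eq_of_ne (by
            intro e
            rw [(Prod.mk.inj e).2] at hv
            simp at hv)⟩, by simp [hε]⟩
      exact_zero := fun c hc => by
        obtain ⟨y, hy, hy'⟩ := exact_PC_zero N c.2 (by rwa [← hε])
        exact ⟨⟨y, hy⟩, Subtype.ext hy'⟩
      exact_succ := fun l c hc => by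
        obtain ⟨y, hy, hy'⟩ := exact_PC_succ N c.2 (congrArg Subtype.val hc)
        exact ⟨⟨y, hy⟩, Subtype.ext hy'⟩
      proj := fun l => by
        classical
        let fl : (W × Finset V →₀ ℚ) →ₗ[ℤ] (W × Finset V →₀ ℚ) :=
          (Finsupp.filterAddHom fun c : W × Finset V => c.2.card = l).toIntLinearMap
        have hfl : ∀ x, fl x ∈ Finsupp.supported ℚ ℚ {c : W × Finset V | c.2.card = l} :=
          fun x c hc => (Finset.mem_filter.1 hc).2
        refine projQ_of_retract j hj hfreeB (ρ l) ((PC Γ P l).subtype.restrictScalars ℤ)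
          ((f.restrictScalars ℤ ∘ₗ fl).codRestrict ((PC Γ P l).restrictScalars ℤ)
            fun x => hf.mem_PC (hfl x)) (fun g c => rfl) (fun g x => Subtype.ext ?_)
          fun c => Subtype.ext ?_
        · rw [hρ]
          change f ((x.mapDomain (j g • ·)).filter _) = (f (x.filter _)).mapDomain (j g • ·)
          rw [filter_mapDomain' _ (j g • ·) (fun _ => Iff.rfl), hfe]
        · change f (c.1.filter _) = c.1
          rw [(Finsupp.filter_eq_self_iff (fun c : W × Finset V => c.2.card = l) _).2 fun b hb =>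
            hPD l _ c.2 (Finsupp.mem_support_iff.2 hb), hf.fix l _ c.2] }
  refine exactAt_sing hX i hi hR (σ (k + 1)) (σ k) (hσe _) (hσe _) (fun c => Subtype.ext ?_) ι φ hφ
  have e := congrArg f (hss k le_rfl c.1 (hPD _ _ c.2))
  rw [map_add, hf.idem, LinearMap.comp_apply, LinearMap.comp_apply, hf.fix _ _ c.2,
    hf.fix _ _ (cbd_mem (hf.mem_PC (hsj _ _ (hPD _ _ c.2))))] at e
  exact e

end Pool.Agent.MP_4f4d9f_gt

end
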