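import Pool.Agent.MP_4f4d9f_gt.P3Iface
import Pool.Agent.Mg.F4f4d9fr.G4ef018
import Pool.Agent.Mg.F4f4d9fr.G93bd78
import Pool.Agent.MP_4f4d9f_gt.SingBasic
import Pool.Agent.Mg.F4f4d9fr.Gbdcfaf
import Pool.Agent.Mg.F4f4d9fr.G88e466

set_option linter.all false

section

/-! The chain map from the cubical subdivision of the deleted join to the deleted join. -/

open Finset

namespace Pool.Agent.MP_4f4d9f_gt

variable {V : Type} [DecidableEq V] {r : V × Bool → ℕ} {α₁ x₁ α₂ x₂ : Finset (V × Bool)}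

theorem nu_swap : dswp (nu r α₁ x₁ α₂ x₂) = nu r α₂ x₂ α₁ x₁ := by
  simp only [nu, map_add, map_sum, CoreAux.dswp_single, Prod.swap_prod_mk, union_comm α₁ α₂,
    union_comm x₁ x₂]
  rw [add_comm]

theorem nu_empty : nu r ∅ x₁ ∅ x₂ = 0 := by
  simp [nu]

theorem nu_good {Γ : SimpleGraph V} (h1 : OSimp Γ (α₁ ∪ x₁)) (h2 : OSimp Γ (α₂ ∪ x₂))
    (hd : Disjoint (α₁ ∪ x₁) (α₂ ∪ x₂)) :
    nu r α₁ x₁ α₂ x₂ ∈ CoreAux.GoodChain Γ (x₁.card + x₂.card) := by
  unfold nu
  refine Submodule.add_mem _ (Submodule.sum_mem _ fun m hm => CoreAux.single_mem_goodChain ?_)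
    (Submodule.sum_mem _ fun m hm => CoreAux.single_mem_goodChain ?_)
  · obtain ⟨hm, -, hb⟩ := mem_filter.1 hm
    have hn : m ∉ x₁ := fun h => lt_irrefl _ (hb m (mem_union_left _ h))
    have hs : insert m x₁ ⊆ α₁ ∪ x₁ := insert_subset (mem_union_left _ hm) subset_union_right
    refine ⟨CoreAux.OSimp.subset h1 hs, CoreAux.OSimp.subset h2 subset_union_right,
      hd.mono hs subset_union_right, ?_⟩
    simp only [card_insert_of_notMem hn]
    omega
  · obtain ⟨hm, -, hb⟩ := mem_filter.1 hm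
    have hn : m ∉ x₂ := fun h => lt_irrefl _ (hb m (mem_union_right _ h))
    have hs : insert m x₂ ⊆ α₂ ∪ x₂ := insert_subset (mem_union_left _ hm) subset_union_right
    refine ⟨CoreAux.OSimp.subset h1 subset_union_right, CoreAux.OSimp.subset h2 hs,
      hd.mono subset_union_right hs, ?_⟩
    simp only [card_insert_of_notMem hn]
    omega

namespace IntervalAux

lemma nu_left (hr : Function.Injective r) {m : V × Bool} (hm : m ∈ α₁) (hm2 : m ∉ α₂)
    (hmin : ∀ a ∈ α₁ ∪ α₂, r m ≤ r a) :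
    nu r α₁ x₁ α₂ x₂ =
      if ∀ b ∈ x₁ ∪ x₂, r b < r m then Finsupp.single (insert m x₁, x₂) 1 else 0 := by
  have hu : ∀ m' ∈ α₁ ∪ α₂, (∀ a ∈ α₁ ∪ α₂, r m' ≤ r a) → m' = m := fun m' h h' =>
    hr (le_antisymm (h' m (mem_union_left _ hm)) (hmin m' h))
  unfold nu
  rw [sum_eq_zero (s := filter _ α₂), add_zero]
  · split_ifs with h
    · rw [sum_eq_single_of_mem m (mem_filter.2 ⟨hm, hmin, h⟩)]
      intro b hb hne
      obtain ⟨hb, hb', -⟩ := mem_filter.1 hb
      exact absurd (hu b (mem_union_left _ hb) hb') hne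
    · refine sum_eq_zero fun b hb => ?_
      obtain ⟨hb, hb', hb''⟩ := mem_filter.1 hb
      obtain rfl := hu b (mem_union_left _ hb) hb'
      exact absurd hb'' h
  · intro b hb
    obtain ⟨hb, hb', -⟩ := mem_filter.1 hb
    obtain rfl := hu b (mem_union_right _ hb) hb'
    exact absurd hb hm2

lemma nu_right (hr : Function.Injective r) {m : V × Bool} (hm : m ∈ α₂) (hm2 : m ∉ α₁)
    (hmin : ∀ a ∈ α₁ ∪ α₂, r m ≤ r a) :
    nu r α₁ x₁ α₂ x₂ =
      if ∀ b ∈ x₁ ∪ x₂, r b < r m then Finsupp.single (x₁, insert m x₂) 1 else 0 := by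
  rw [← nu_swap, nu_left hr hm hm2 (by rwa [union_comm]), union_comm x₂ x₁]
  split_ifs
  · rw [CoreAux.dswp_single]
    rfl
  · exact map_zero _

lemma sum_max {M : Type} [AddCommMonoid M] (hr : Function.Injective r) (hd : Disjoint x₁ x₂)
    (hx : (x₁ ∪ x₂).Nonempty) (s : M) :
    (∑ b ∈ x₁, if ∀ c ∈ x₁.erase b ∪ x₂, r c < r b then s else 0) +
      (∑ b ∈ x₂, if ∀ c ∈ x₁ ∪ x₂.erase b, r c < r b then s else 0) = s := by
  obtain ⟨m, hm, hmax⟩ := exists_max_image _ r hx
  have e1 : ∀ b ∈ x₁, x₁.erase b ∪ x₂ = (x₁ ∪ x₂).erase b := fun b hb => by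
    rw [erase_union_distrib, erase_eq_of_notMem (disjoint_left.1 hd hb)]
  have e2 : ∀ b ∈ x₂, x₁ ∪ x₂.erase b = (x₁ ∪ x₂).erase b := fun b hb => by
    rw [erase_union_distrib, erase_eq_of_notMem (disjoint_right.1 hd hb)]
  rw [sum_congr rfl fun b hb => by rw [e1 b hb], sum_congr (s₁ := x₂) rfl fun b hb => by
    rw [e2 b hb], ← sum_union hd, sum_eq_single_of_mem m hm, if_pos]
  · intro c hc
    obtain ⟨hc, hc'⟩ := mem_erase.1 hc
    exact lt_of_le_of_ne (hmax c hc') fun h => hc (hr h)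
  · intro b hb hne
    exact if_neg fun h => (hmax b hb).not_gt (h m (mem_erase.2 ⟨hne.symm, hm⟩))

lemma term_left (hr : Function.Injective r) {m b : V × Bool} (hm : m ∈ α₁) (hm2 : m ∉ α₂)
    (hmin : ∀ a ∈ α₁ ∪ α₂, r m ≤ r a) (hb : b ∈ x₁) (hb2 : b ∉ α₂) :
    nu r α₁ (x₁.erase b) α₂ x₂ + nu r (insert b α₁) (x₁.erase b) α₂ x₂ =
      if r b < r m then
        (if ∀ c ∈ x₁.erase b ∪ x₂, r c < r m then Finsupp.single (insert m (x₁.erase b), x₂) 1
          else 0) +
        (if ∀ c ∈ x₁.erase b ∪ x₂, r c < r b then Finsupp.single (x₁, x₂) 1 else 0)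
      else 0 := by
  by_cases h : r b < r m
  · rw [if_pos h, nu_left hr hm hm2 hmin, nu_left hr (mem_insert_self b α₁) hb2, insert_erase hb]
    intro a ha
    rw [insert_union, mem_insert] at ha
    rcases ha with rfl | ha
    · exact le_rfl
    · exact h.le.trans (hmin a ha)
  · rw [if_neg h, nu_left hr hm hm2 hmin, nu_left hr (mem_insert_of_mem hm) hm2, CoreAux.two]
    intro a ha
    rw [insert_union, mem_insert] at ha
    rcases ha with rfl | ha
    · exact not_lt.1 h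
    · exact hmin a ha

lemma term_right (hr : Function.Injective r) {m b : V × Bool} (hm : m ∈ α₁) (hm2 : m ∉ α₂)
    (hmin : ∀ a ∈ α₁ ∪ α₂, r m ≤ r a) (hb : b ∈ x₂) (hb1 : b ∉ α₁) :
    nu r α₁ x₁ α₂ (x₂.erase b) + nu r α₁ x₁ (insert b α₂) (x₂.erase b) =
      if r b < r m then
        (if ∀ c ∈ x₁ ∪ x₂.erase b, r c < r m then Finsupp.single (insert m x₁, x₂.erase b) 1
          else 0) +
        (if ∀ c ∈ x₁ ∪ x₂.erase b, r c < r b then Finsupp.single (x₁, x₂) 1 else 0)
      else 0 := by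
  by_cases h : r b < r m
  · rw [if_pos h, nu_left hr hm hm2 hmin, nu_right hr (mem_insert_self b α₂) hb1, insert_erase hb]
    intro a ha
    rw [union_insert, mem_insert] at ha
    rcases ha with rfl | ha
    · exact le_rfl
    · exact h.le.trans (hmin a ha)
  · have hm3 : m ∉ insert b α₂ := by
      rw [mem_insert, not_or]
      exact ⟨fun e => hb1 (e ▸ hm), hm2⟩
    rw [if_neg h, nu_left hr hm hm2 hmin, nu_left hr hm hm3, CoreAux.two]
    intro a ha
    rw [union_insert, mem_insert] at ha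
    rcases ha with rfl | ha
    · exact not_lt.1 h
    · exact hmin a ha

lemma nu_bd_left (hr : Function.Injective r) (h1 : Disjoint α₁ x₁)
    (hd : Disjoint (α₁ ∪ x₁) (α₂ ∪ x₂)) (hx : (x₁ ∪ x₂).Nonempty) {m : V × Bool} (hm : m ∈ α₁)
    (hmin : ∀ a ∈ α₁ ∪ α₂, r m ≤ r a) :
    dbd (nu r α₁ x₁ α₂ x₂) =
      ∑ b ∈ x₁, (nu r α₁ (x₁.erase b) α₂ x₂ + nu r (insert b α₁) (x₁.erase b) α₂ x₂) +
        ∑ b ∈ x₂, (nu r α₁ x₁ α₂ (x₂.erase b) + nu r α₁ x₁ (insert b α₂) (x₂.erase b)) := by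
  have hm2 : m ∉ α₂ := fun h => disjoint_left.1 hd (mem_union_left _ hm) (mem_union_left _ h)
  have hmx : m ∉ x₁ := disjoint_left.1 h1 hm
  have hxx : Disjoint x₁ x₂ := hd.mono subset_union_right subset_union_right
  rw [sum_congr rfl fun b hb => term_left hr hm hm2 hmin hb fun h =>
      disjoint_left.1 hd (mem_union_right _ hb) (mem_union_left _ h),
    sum_congr (s₁ := x₂) rfl fun b hb => term_right hr hm hm2 hmin hb fun h =>
      disjoint_left.1 hd (mem_union_left _ h) (mem_union_right _ hb),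
    nu_left hr hm hm2 hmin]
  by_cases h : ∀ b ∈ x₁ ∪ x₂, r b < r m
  · have e1 : ∀ b, ∀ c ∈ x₁.erase b ∪ x₂, r c < r m := fun b c hc =>
      h c (union_subset_union (erase_subset _ _) Subset.rfl hc)
    have e2 : ∀ b, ∀ c ∈ x₁ ∪ x₂.erase b, r c < r m := fun b c hc =>
      h c (union_subset_union Subset.rfl (erase_subset _ _) hc)
    rw [if_pos h, CoreAux.dbd_single,
      sum_congr (s₁ := x₁) rfl fun b hb => if_pos (h b (mem_union_left _ hb)),
      sum_congr (s₁ := x₂) (f := fun b => if r b < r m then _ else _) rfl fun b hb =>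
        if_pos (h b (mem_union_right _ hb)), sum_add_distrib, sum_add_distrib,
      add_add_add_comm, sum_max hr hxx hx]
    simp only [if_pos (e1 _), if_pos (e2 _), sum_insert hmx, erase_insert hmx]
    rw [sum_congr (s₁ := x₁) rfl fun b hb => by
      rw [erase_insert_of_ne (fun e : m = b => hmx (e ▸ hb))]]
    abel
  · rw [if_neg h, map_zero]
    push Not at h
    obtain ⟨b₀, hb₀, hbad⟩ := h
    rw [sum_eq_zero, sum_eq_zero, add_zero]
    · intro b hb
      by_cases h : r b < r m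
      · have hne : b₀ ≠ b := fun e => h.not_ge (e ▸ hbad)
        have hmem : b₀ ∈ x₁ ∪ x₂.erase b := by
          rcases mem_union.1 hb₀ with h' | h'
          · exact mem_union_left _ h'
          · exact mem_union_right _ (mem_erase.2 ⟨hne, h'⟩)
        rw [if_pos h, if_neg fun h' => (h' b₀ hmem).not_ge hbad,
          if_neg fun h' => ((h' b₀ hmem).trans h).not_ge hbad, add_zero]
      · rw [if_neg h]
    · intro b hb
      by_cases h : r b < r m
      · have hne : b₀ ≠ b := fun e => h.not_ge (e ▸ hbad)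
        have hmem : b₀ ∈ x₁.erase b ∪ x₂ := by
          rcases mem_union.1 hb₀ with h' | h'
          · exact mem_union_left _ (mem_erase.2 ⟨hne, h'⟩)
          · exact mem_union_right _ h'
        rw [if_pos h, if_neg fun h' => (h' b₀ hmem).not_ge hbad,
          if_neg fun h' => ((h' b₀ hmem).trans h).not_ge hbad, add_zero]
      · rw [if_neg h]

end IntervalAux

open IntervalAux

theorem nu_zero (hr : Function.Injective r) (hd : Disjoint α₁ α₂) (hne : (α₁ ∪ α₂).Nonempty) :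
    (nu r α₁ ∅ α₂ ∅).sum (fun _ a => a) = 1 := by
  obtain ⟨m, hm, hmin⟩ := exists_min_image _ r hne
  rcases mem_union.1 hm with h | h
  · rw [nu_left hr h (disjoint_left.1 hd h) hmin, if_pos (by simp), Finsupp.sum_single_index rfl]
  · rw [nu_right hr h (disjoint_right.1 hd h) hmin, if_pos (by simp), Finsupp.sum_single_index rfl]

theorem nu_bd (hr : Function.Injective r) (h1 : Disjoint α₁ x₁) (h2 : Disjoint α₂ x₂)
    (hd : Disjoint (α₁ ∪ x₁) (α₂ ∪ x₂)) (hne : (α₁ ∪ α₂).Nonempty) (hx : (x₁ ∪ x₂).Nonempty) :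
    dbd (nu r α₁ x₁ α₂ x₂) =
      ∑ b ∈ x₁, (nu r α₁ (x₁.erase b) α₂ x₂ + nu r (insert b α₁) (x₁.erase b) α₂ x₂) +
        ∑ b ∈ x₂, (nu r α₁ x₁ α₂ (x₂.erase b) + nu r α₁ x₁ (insert b α₂) (x₂.erase b)) := by
  obtain ⟨m, hm, hmin⟩ := exists_min_image _ r hne
  rcases mem_union.1 hm with h | h
  · exact nu_bd_left hr h1 hd hx h hmin
  · have := congrArg dswp (nu_bd_left hr h2 hd.symm (by rwa [union_comm]) h (by rwa [union_comm]))
    rw [CoreAux.dswp_dbd, nu_swap] at this
    rw [this]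
    simp only [map_add, map_sum, nu_swap]
    rw [add_comm]

theorem nu_top (hr : Function.Injective r) (hd : Disjoint x₁ x₂) (hx : (x₁ ∪ x₂).Nonempty) :
    ∑ b ∈ x₁, nu r {b} (x₁.erase b) ∅ x₂ + ∑ b ∈ x₂, nu r ∅ x₁ {b} (x₂.erase b) =
      Finsupp.single (x₁, x₂) 1 := by
  rw [sum_congr rfl fun b hb => nu_left hr (mem_singleton_self b) (notMem_empty b) (by simp),
    sum_congr (s₁ := x₂) rfl fun b hb =>
      nu_right hr (mem_singleton_self b) (notMem_empty b) (by simp),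
    sum_congr (s₁ := x₁) rfl fun b hb => by rw [insert_erase hb],
    sum_congr (s₁ := x₂) rfl fun b hb => by rw [insert_erase hb]]
  exact sum_max hr hd hx _

end Pool.Agent.MP_4f4d9f_gt

end

section

/-! The complex of pairs of signed cubes: structure, collapse and descent. -/

open Finset

namespace Pool.Agent.MP_4f4d9f_gt

variable {S W : Type} [Fintype S] [DecidableEq S] [Group W] {Λ : SimpleGraph S}
  {P : S → Subgroup W} {N : NF Λ P} {r : S → W}

namespace YAux

theorem mem_inn {w : W} {A : Finset S} {u : S} :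
    u ∈ inn N r w A ↔ N.hd u w ≠ 1 ∨ (u ∈ A ∧ N.hd u (w * r u) ≠ 1) := by
  simp only [inn, mem_filter, mem_univ, true_and]

omit [Fintype S] [DecidableEq S] in
theorem hd_mul_r (hr : IsRefl P r) {u v : S} (h : v ≠ u) (w : W) :
    N.hd u (w * r v) = N.hd u w := N.spec.right v u h _ (hr.mem v) w

omit [Fintype S] [DecidableEq S] in
theorem hd_mul_r_r (hr : IsRefl P r) {u v : S} (h : Λ.Adj v u) (w : W) :
    N.hd u (w * r v * r u) = N.hd u (w * r u) := by
  rw [mul_assoc, N.gp.comm v u h _ (hr.mem v) _ (hr.mem u), ← mul_assoc, hd_mul_r hr h.ne]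

end YAux

open YAux

theorem inn_clique (hr : IsRefl P r) (w : W) {A : Finset S} (hA : Λ.IsClique A) :
    Λ.IsClique (inn N r w A) := by
  intro u hu v hv huv
  rcases mem_inn.1 (mem_coe.1 hu) with h1 | ⟨h1, h1'⟩ <;>
    rcases mem_inn.1 (mem_coe.1 hv) with h2 | ⟨h2, h2'⟩
  · exact N.spec.clique u v w huv h1 h2
  · exact N.spec.clique u v (w * r v) huv (by rwa [hd_mul_r hr huv.symm]) h2'
  · exact N.spec.clique u v (w * r u) huv h1' (by rwa [hd_mul_r hr huv])
  · exact hA h1 h2 huv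

theorem inn_erase_subset (w : W) (A : Finset S) (v : S) :
    inn N r w (A.erase v) ⊆ inn N r w A := by
  intro u hu
  rcases mem_inn.1 hu with h | ⟨h, h'⟩
  · exact mem_inn.2 (Or.inl h)
  · exact mem_inn.2 (Or.inr ⟨mem_of_mem_erase h, h'⟩)

theorem inn_mul_erase_subset (hr : IsRefl P r) (w : W) {A : Finset S} (hA : Λ.IsClique A)
    {v : S} (hv : v ∈ A) : inn N r (w * r v) (A.erase v) ⊆ inn N r w A := by
  intro u hu
  rcases mem_inn.1 hu with h | ⟨h, h'⟩
  · by_cases e : v = u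
    · subst e
      exact mem_inn.2 (Or.inr ⟨hv, h⟩)
    · exact mem_inn.2 (Or.inl (by rwa [hd_mul_r hr e] at h))
  · have hu' := mem_of_mem_erase h
    rw [hd_mul_r_r hr (hA hv hu' (ne_of_mem_erase h).symm)] at h'
    exact mem_inn.2 (Or.inr ⟨hu', h'⟩)

theorem inn_one (hr : IsRefl P r) (A : Finset S) : inn N r 1 A = A := by
  ext u
  rw [mem_inn, N.spec.one, one_mul, N.hd_self (hr.mem u)]
  simp [hr.ne u]

theorem YAux.image_ycut {c : YCell S W} (hc : YVal N r c) {w : W} {A : Finset S}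
    (h : inn N r w A ⊆ inn N r c.w c.A) :
    (ycut N r w A c.σ).σ.image Prod.fst = inn N r w A := by
  ext u
  simp only [ycut, mem_image, mem_filter]
  constructor
  · rintro ⟨a, ⟨-, ha⟩, rfl⟩
    exact ha
  · intro hu
    have := h hu
    rw [← hc.image, mem_image] at this
    obtain ⟨a, ha, rfl⟩ := this
    exact ⟨a, ⟨ha, hu⟩, rfl⟩

theorem YVal.near {c : YCell S W} (hc : YVal N r c) (v : S) :
    YVal N r (ycut N r c.w (c.A.erase v) c.σ) where
  clique := hc.clique.subset (coe_subset.2 (erase_subset _ _))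
  even := fun u hu => hc.even u (mem_of_mem_erase hu)
  image := image_ycut hc (inn_erase_subset _ _ _)
  osimp := CoreAux.OSimp.subset hc.osimp (filter_subset _ _)

theorem YVal.far (hr : IsRefl P r) {c : YCell S W} (hc : YVal N r c) {v : S} (hv : v ∈ c.A) :
    YVal N r (ycut N r (c.w * r v) (c.A.erase v) c.σ) where
  clique := hc.clique.subset (coe_subset.2 (erase_subset _ _))
  even := fun u hu => by
    change N.pi u (c.w * r v) = 1
    rw [map_mul, hc.even u (mem_of_mem_erase hu),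
      N.pi_ne v u (ne_of_mem_erase hu).symm _ (hr.mem v), one_mul]
  image := image_ycut hc (inn_mul_erase_subset hr _ hc.clique hv)
  osimp := CoreAux.OSimp.subset hc.osimp (filter_subset _ _)

namespace YAux

variable {M : Type} [AddCommGroup M]

variable (N r) in
/-- The sum of a function over the faces of a signed cube. -/
noncomputable def bsum (g : YCell S W → M) (c : YCell S W) : M :=
  ∑ v ∈ c.A, (g (ycut N r c.w (c.A.erase v) c.σ) + g (ycut N r (c.w * r v) (c.A.erase v) c.σ))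

theorem bsum_add (g h : YCell S W → M) (c : YCell S W) :
    bsum N r (fun a => g a + h a) c = bsum N r g c + bsum N r h c := by
  simp only [bsum, ← sum_add_distrib]
  exact sum_congr rfl fun v _ => by abel

theorem bsum_comm (g : YCell S W → YCell S W → M) (c d : YCell S W) :
    bsum N r (fun a => bsum N r (fun b => g a b) d) c =
      bsum N r (fun b => bsum N r (fun a => g a b) c) d := by
  simp only [bsum, ← sum_add_distrib]
  rw [sum_comm]
  exact sum_congr rfl fun v _ => sum_congr rfl fun u _ => by abel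

theorem map_bsum [Module (ZMod 2) M] {M' : Type} [AddCommGroup M'] [Module (ZMod 2) M']
    (f : M →ₗ[ZMod 2] M') (g : YCell S W → M) (c : YCell S W) :
    f (bsum N r g c) = bsum N r (fun a => f (g a)) c := by
  simp only [bsum, map_sum, map_add]

theorem pbd_single (q : YCell S W × YCell S W) :
    pbd N r (Finsupp.single q 1) = bsum N r (fun c => Finsupp.single (c, q.2) 1) q.1 +
      bsum N r (fun c => Finsupp.single (q.1, c) 1) q.2 := by
  simp only [pbd, Finsupp.linearCombination_single, one_smul, ybd, bsum,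
    Finsupp.mapDomain_finsetSum, Finsupp.mapDomain_add, Finsupp.mapDomain_single]

theorem ycut_ycut {w w' : W} {A A' : Finset S} (h : inn N r w' A' ⊆ inn N r w A)
    (σ : Finset (S × Bool)) : ycut N r w' A' (ycut N r w A σ).σ = ycut N r w' A' σ := by
  simp only [ycut, filter_filter]
  congr 1
  exact filter_congr fun a _ => ⟨fun h' => h'.2, fun h' => ⟨h h', h'⟩⟩

omit [Fintype S] in
theorem sum_erase_symm' [Module (ZMod 2) M] (s : Finset S) (X : S → S → M)
    (hX : ∀ a ∈ s, ∀ b ∈ s, a ≠ b → X a b = X b a) : ∑ a ∈ s, ∑ b ∈ s.erase a, X a b = 0 := by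
  rw [← CoreAux.sum_erase_symm s (fun a b => if a ∈ s ∧ b ∈ s ∧ a ≠ b then X a b else 0)]
  · refine sum_congr rfl fun a ha => sum_congr rfl fun b hb => ?_
    rw [if_pos ⟨ha, mem_of_mem_erase hb, (ne_of_mem_erase hb).symm⟩]
  · intro a b
    by_cases h : a ∈ s ∧ b ∈ s ∧ a ≠ b
    · rw [if_pos h, if_pos ⟨h.2.1, h.1, h.2.2.symm⟩, hX a h.1 b h.2.1 h.2.2]
    · rw [if_neg h, if_neg fun h' => h ⟨h'.2.1, h'.1, h'.2.2.symm⟩]

theorem bsum_bsum [Module (ZMod 2) M] (hr : IsRefl P r) (g : YCell S W → M) {c : YCell S W}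
    (hc : Λ.IsClique c.A) : bsum N r (fun a => bsum N r g a) c = 0 := by
  rw [← sum_erase_symm' c.A (fun v u =>
    (g (ycut N r c.w ((c.A.erase v).erase u) c.σ) +
      g (ycut N r (c.w * r u) ((c.A.erase v).erase u) c.σ)) +
    (g (ycut N r (c.w * r v) ((c.A.erase v).erase u) c.σ) +
      g (ycut N r (c.w * r v * r u) ((c.A.erase v).erase u) c.σ)))]
  · refine sum_congr rfl fun v _ => ?_
    have hc' : Λ.IsClique (c.A.erase v) := hc.subset (coe_subset.2 (erase_subset _ _))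
    rw [sum_add_distrib]
    congr 1
    · refine sum_congr rfl fun u hu => ?_
      exact congrArg₂ (fun a b => g a + g b) (ycut_ycut (inn_erase_subset _ _ _) _)
        (ycut_ycut (inn_mul_erase_subset hr _ hc' hu) _)
    · refine sum_congr rfl fun u hu => ?_
      exact congrArg₂ (fun a b => g a + g b) (ycut_ycut (inn_erase_subset _ _ _) _)
        (ycut_ycut (inn_mul_erase_subset hr _ hc' hu) _)
  · intro a ha b hb hab
    rw [erase_right_comm (a := a), mul_assoc c.w (r a),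
      N.gp.comm a b (hc ha hb hab) _ (hr.mem a) _ (hr.mem b), ← mul_assoc]
    abel

/-- The labels over the directions of a cube. -/
def xs (c : YCell S W) : Finset (S × Bool) := c.σ.filter fun a => a.1 ∈ c.A

/-- The other labels. -/
def al (c : YCell S W) : Finset (S × Bool) := c.σ.filter fun a => a.1 ∉ c.A

variable (N r) in
open Classical in
/-- A function of the two parts of the label, extended by zero. -/
noncomputable def kk (G : Finset (S × Bool) → Finset (S × Bool) → M) (c : YCell S W) : M :=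
  if Cross N r c then G (al c) (xs c) else 0

theorem ykap_single (rk : S × Bool → ℕ) (q : YCell S W × YCell S W) :
    ykap N r rk (Finsupp.single q 1) =
      kk N r (fun a x => kk N r (fun a' x' => nu rk a x a' x') q.2) q.1 := by
  simp only [ykap, Finsupp.linearCombination_single, one_smul, kk, al, xs]
  by_cases h1 : Cross N r q.1 <;> by_cases h2 : Cross N r q.2 <;> simp [h1, h2]

theorem ykap_single' (rk : S × Bool → ℕ) (q : YCell S W × YCell S W) :
    ykap N r rk (Finsupp.single q 1) =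
      kk N r (fun a' x' => kk N r (fun a x => nu rk a x a' x') q.1) q.2 := by
  simp only [ykap, Finsupp.linearCombination_single, one_smul, kk, al, xs]
  by_cases h1 : Cross N r q.1 <;> by_cases h2 : Cross N r q.2 <;> simp [h1, h2]

omit [Fintype S] [Group W] in
theorem al_union_xs (c : YCell S W) : al c ∪ xs c = c.σ := by
  rw [al, xs, union_comm, filter_union_filter_not_eq]

omit [Fintype S] [Group W] in
theorem disjoint_al_xs (c : YCell S W) : Disjoint (al c) (xs c) :=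
  (disjoint_filter_filter_not _ _ _).symm

theorem fst_inj {c : YCell S W} (hc : YVal N r c) {a b : S × Bool} (ha : a ∈ c.σ) (hb : b ∈ c.σ)
    (h : a.1 = b.1) : a = b := by
  by_contra h'
  exact (hc.osimp a ha b hb h').ne h

theorem fst_mem_inn {c : YCell S W} (hc : YVal N r c) {a : S × Bool} (ha : a ∈ c.σ) :
    a.1 ∈ inn N r c.w c.A := by
  rw [← hc.image]
  exact mem_image_of_mem _ ha

theorem image_xs {c : YCell S W} (hc : YVal N r c) (hx : Cross N r c) :
    (xs c).image Prod.fst = c.A := by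
  ext u
  simp only [xs, mem_image, mem_filter]
  constructor
  · rintro ⟨a, ⟨-, ha⟩, rfl⟩
    exact ha
  · intro hu
    have : u ∈ inn N r c.w c.A := mem_inn.2 (Or.inr ⟨hu, (hx u hu).2⟩)
    rw [← hc.image, mem_image] at this
    obtain ⟨a, ha, rfl⟩ := this
    exact ⟨a, ⟨ha, hu⟩, rfl⟩

theorem injOn_xs {c : YCell S W} (hc : YVal N r c) : Set.InjOn Prod.fst (xs c : Set (S × Bool)) :=
  fun _ ha _ hb h => fst_inj hc (mem_filter.1 (mem_coe.1 ha)).1 (mem_filter.1 (mem_coe.1 hb)).1 h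

theorem card_xs {c : YCell S W} (hc : YVal N r c) (hx : Cross N r c) : (xs c).card = c.A.card := by
  rw [← image_xs hc hx, card_image_of_injOn (injOn_xs hc)]

theorem bsum_cross (hr : IsRefl P r) (G : Finset (S × Bool) → Finset (S × Bool) → M)
    {c : YCell S W} (hc : YVal N r c) (hx : Cross N r c) :
    bsum N r (kk N r G) c =
      ∑ b ∈ xs c, (G (al c) ((xs c).erase b) + G (insert b (al c)) ((xs c).erase b)) := by
  rw [bsum]
  conv_lhs => enter [1]; rw [← image_xs hc hx]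
  rw [sum_image (injOn_xs hc)]
  refine sum_congr rfl fun b hb => ?_
  obtain ⟨hbσ, hbA⟩ := mem_filter.1 hb
  have hadj : ∀ u ∈ c.A.erase b.1, Λ.Adj b.1 u := fun u hu =>
    hc.clique hbA (mem_of_mem_erase hu) (ne_of_mem_erase hu).symm
  have hne : ∀ a ∈ c.σ, a.1 ≠ b.1 ↔ a ≠ b := fun a ha =>
    ⟨fun h e => h (e ▸ rfl), fun h e => h (fst_inj hc ha hbσ e)⟩
  have n1 : ∀ a ∈ c.σ, a.1 ∈ inn N r c.w (c.A.erase b.1) ↔ a.1 ≠ b.1 := by
    intro a ha
    constructor
    · intro h e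
      rcases mem_inn.1 h with h | h
      · exact h (e ▸ (hx b.1 hbA).1)
      · exact ne_of_mem_erase h.1 e
    · intro h
      rcases mem_inn.1 (fst_mem_inn hc ha) with h' | h'
      · exact mem_inn.2 (Or.inl h')
      · exact mem_inn.2 (Or.inr ⟨mem_erase.2 ⟨h, h'.1⟩, h'.2⟩)
  have n2 : ∀ a ∈ c.σ, a.1 ∈ inn N r (c.w * r b.1) (c.A.erase b.1) := by
    intro a ha
    by_cases e : a.1 = b.1
    · exact mem_inn.2 (Or.inl (e ▸ (hx b.1 hbA).2))
    · rcases mem_inn.1 (fst_mem_inn hc ha) with h' | h'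
      · exact mem_inn.2 (Or.inl (by rwa [hd_mul_r hr (Ne.symm e)]))
      · have hm := mem_erase.2 ⟨e, h'.1⟩
        exact mem_inn.2 (Or.inr ⟨hm, by rw [hd_mul_r_r hr (hadj _ hm)]; exact h'.2⟩)
  have c1 : Cross N r (ycut N r c.w (c.A.erase b.1) c.σ) := fun u hu => hx u (mem_of_mem_erase hu)
  have c2 : Cross N r (ycut N r (c.w * r b.1) (c.A.erase b.1) c.σ) := fun u hu => by
    change N.hd u (c.w * r b.1) = 1 ∧ N.hd u (c.w * r b.1 * r u) ≠ 1
    rw [hd_mul_r hr (hadj u hu).ne, hd_mul_r_r hr (hadj u hu)]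
    exact hx u (mem_of_mem_erase hu)
  rw [kk, kk, if_pos c1, if_pos c2]
  congr 2
  · ext a
    simp only [al, ycut, mem_filter, mem_erase]
    constructor
    · rintro ⟨⟨h1, h2⟩, h3⟩
      exact ⟨h1, fun h => h3 ⟨(n1 a h1).1 h2, h⟩⟩
    · rintro ⟨h1, h2⟩
      exact ⟨⟨h1, (n1 a h1).2 fun e => h2 (e ▸ hbA)⟩, fun h => h2 h.2⟩
  · ext a
    simp only [xs, ycut, mem_filter, mem_erase]
    constructor
    · rintro ⟨⟨h1, -⟩, h3, h4⟩
      exact ⟨(hne a h1).1 h3, h1, h4⟩
    · rintro ⟨h1, h2, h3⟩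
      exact ⟨⟨h2, (n1 a h2).2 ((hne a h2).2 h1)⟩, (hne a h2).2 h1, h3⟩
  · ext a
    simp only [al, ycut, mem_filter, mem_erase, mem_insert]
    constructor
    · rintro ⟨⟨h1, -⟩, h3⟩
      by_cases e : a = b
      · exact Or.inl e
      · exact Or.inr ⟨h1, fun h => h3 ⟨(hne a h1).2 e, h⟩⟩
    · rintro (rfl | ⟨h1, h2⟩)
      · exact ⟨⟨hbσ, n2 a hbσ⟩, fun h => h.1 rfl⟩
      · exact ⟨⟨h1, n2 a h1⟩, fun h => h2 h.2⟩
  · ext a
    simp only [xs, ycut, mem_filter, mem_erase]
    constructor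
    · rintro ⟨⟨h1, -⟩, h3, h4⟩
      exact ⟨(hne a h1).1 h3, h1, h4⟩
    · rintro ⟨h1, h2, h3⟩
      exact ⟨⟨h2, n2 a h2⟩, (hne a h2).2 h1, h3⟩

omit [Fintype S] in
theorem not_cross_hd (hr : IsRefl P r) {w : W} {u : S} (h1 : N.pi u w = 1)
    (h2 : ¬ (N.hd u w = 1 ∧ N.hd u (w * r u) ≠ 1)) (t : S) : N.hd t (w * r u) = N.hd t w := by
  by_cases h : u = t
  · subst h
    by_contra h
    obtain ⟨h3, h4⟩ := N.hd_of_change (hr.mem u) h
    rw [h1] at h3 h4
    exact h2 ⟨h3, by rw [h4, one_mul]; exact hr.ne u⟩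
  · exact hd_mul_r hr h _

theorem bsum_not_cross [Module (ZMod 2) M] (hr : IsRefl P r)
    (G : Finset (S × Bool) → Finset (S × Bool) → M)
    {c : YCell S W} (hc : YVal N r c) (hx : ¬ Cross N r c) : bsum N r (kk N r G) c = 0 := by
  obtain ⟨u, hu⟩ := not_forall.1 hx
  obtain ⟨hu, hu'⟩ := Classical.not_imp.1 hu
  have hadj : ∀ v ∈ c.A.erase u, Λ.Adj u v := fun v hv =>
    hc.clique hu (mem_of_mem_erase hv) (ne_of_mem_erase hv).symm
  have e' := not_cross_hd hr (hc.even u hu) hu'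
  rw [bsum, ← add_sum_erase _ _ hu, sum_eq_zero, add_zero]
  · have hi : inn N r (c.w * r u) (c.A.erase u) = inn N r c.w (c.A.erase u) := by
      ext t
      rw [mem_inn, mem_inn, e']
      refine or_congr_right (and_congr_right fun ht => ?_)
      rw [hd_mul_r_r hr (hadj t ht)]
    have hcr : Cross N r (ycut N r (c.w * r u) (c.A.erase u) c.σ) ↔
        Cross N r (ycut N r c.w (c.A.erase u) c.σ) := by
      refine forall₂_congr fun t ht => ?_
      change N.hd t (c.w * r u) = 1 ∧ N.hd t (c.w * r u * r t) ≠ 1 ↔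
        N.hd t c.w = 1 ∧ N.hd t (c.w * r t) ≠ 1
      rw [e', hd_mul_r_r hr (hadj t ht)]
    have : kk N r G (ycut N r (c.w * r u) (c.A.erase u) c.σ) =
        kk N r G (ycut N r c.w (c.A.erase u) c.σ) := by
      unfold kk
      rw [propext hcr]
      simp only [al, xs, ycut, hi]
    rw [this, CoreAux.two]
  · intro v hv
    have huv : u ∈ c.A.erase v := mem_erase.2 ⟨(ne_of_mem_erase hv).symm, hu⟩
    rw [kk, kk, if_neg fun h => hu' (h u huv), if_neg, add_zero]
    intro h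
    have := h u huv
    change N.hd u (c.w * r v) = 1 ∧ N.hd u (c.w * r v * r u) ≠ 1 at this
    rw [hd_mul_r hr (ne_of_mem_erase hv), hd_mul_r_r hr (hadj v hv).symm] at this
    exact hu' this

theorem al_nonempty {c : YCell S W} (hc : YVal N r c) (hx : Cross N r c) (hw : c.w ≠ 1) :
    (al c).Nonempty := by
  obtain ⟨u, hu⟩ := not_forall.1 fun h => hw (N.eq_one_of_hd h)
  have : u ∈ inn N r c.w c.A := mem_inn.2 (Or.inl hu)
  rw [← hc.image, mem_image] at this
  obtain ⟨a, ha, rfl⟩ := this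
  exact ⟨a, mem_filter.2 ⟨ha, fun h => hu (hx _ h).1⟩⟩

theorem al_union_nonempty {q : YCell S W × YCell S W} (hq : PVal N r q) (h1 : Cross N r q.1)
    (h2 : Cross N r q.2) : (al q.1 ∪ al q.2).Nonempty := by
  rcases not_and_or.1 hq.ne with h | h
  · exact (al_nonempty hq.fst h1 h).mono subset_union_left
  · exact (al_nonempty hq.snd h2 h).mono subset_union_right

theorem xs_union_nonempty {q : YCell S W × YCell S W} (v1 : YVal N r q.1) (v2 : YVal N r q.2)
    (h1 : Cross N r q.1) (h2 : Cross N r q.2) (hd : 0 < q.1.A.card + q.2.A.card) :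
    (xs q.1 ∪ xs q.2).Nonempty := by
  rw [← card_xs v1 h1, ← card_xs v2 h2] at hd
  rcases Nat.eq_zero_or_pos (xs q.1).card with h | h
  · exact (card_pos.1 (by omega)).mono subset_union_right
  · exact (card_pos.1 h).mono subset_union_left

theorem ykap_pbd_single (rk : S × Bool → ℕ) (q : YCell S W × YCell S W) :
    ykap N r rk (pbd N r (Finsupp.single q 1)) =
      bsum N r (kk N r fun a x => kk N r (fun a' x' => nu rk a x a' x') q.2) q.1 +
      bsum N r (kk N r fun a' x' => kk N r (fun a x => nu rk a x a' x') q.1) q.2 := by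
  rw [pbd_single, map_add, map_bsum, map_bsum]
  congr 2
  · exact funext fun c => ykap_single rk (c, q.2)
  · exact funext fun c => ykap_single' rk (q.1, c)

/-- The sum of the coefficients. -/
noncomputable def tot (α : Type) : (α →₀ ZMod 2) →ₗ[ZMod 2] ZMod 2 :=
  Finsupp.linearCombination (ZMod 2) fun _ => 1

theorem tot_apply {α : Type} (x : α →₀ ZMod 2) : tot α x = x.sum fun _ a => a := by
  simp [tot, Finsupp.linearCombination_apply]

theorem tot_single {α : Type} (a : α) : tot α (Finsupp.single a 1) = 1 := by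
  simp [tot]

end YAux

theorem mem_support_pbd {q t : YCell S W × YCell S W}
    (ht : t ∈ (pbd N r (Finsupp.single q 1)).support) :
    (t.2 = q.2 ∧ ∃ v ∈ q.1.A, t.1 = ycut N r q.1.w (q.1.A.erase v) q.1.σ ∨
      t.1 = ycut N r (q.1.w * r v) (q.1.A.erase v) q.1.σ) ∨
    (t.1 = q.1 ∧ ∃ v ∈ q.2.A, t.2 = ycut N r q.2.w (q.2.A.erase v) q.2.σ ∨
      t.2 = ycut N r (q.2.w * r v) (q.2.A.erase v) q.2.σ) := by
  classical
  rw [pbd_single] at ht
  rcases mem_union.1 (Finsupp.support_add ht) with h | h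
  · obtain ⟨v, hv, h⟩ := Finsupp.mem_support_finsetSum _ h
    rcases mem_union.1 (Finsupp.support_add h) with h | h <;>
      obtain rfl := mem_singleton.1 (Finsupp.support_single_subset h)
    · exact Or.inl ⟨rfl, v, hv, Or.inl rfl⟩
    · exact Or.inl ⟨rfl, v, hv, Or.inr rfl⟩
  · obtain ⟨v, hv, h⟩ := Finsupp.mem_support_finsetSum _ h
    rcases mem_union.1 (Finsupp.support_add h) with h | h <;>
      obtain rfl := mem_singleton.1 (Finsupp.support_single_subset h)
    · exact Or.inr ⟨rfl, v, hv, Or.inl rfl⟩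
    · exact Or.inr ⟨rfl, v, hv, Or.inr rfl⟩

theorem PVal.swap {q : YCell S W × YCell S W} (hq : PVal N r q) : PVal N r q.swap :=
  ⟨hq.snd, hq.fst, hq.disj.symm, fun h => hq.ne h.symm⟩

theorem PVal.swap_ne {q : YCell S W × YCell S W} (hq : PVal N r q) : q.swap ≠ q := by
  intro h
  have e : q.2 = q.1 := congrArg Prod.fst h
  have h1 := hq.disj
  rw [e, disjoint_self_iff_empty] at h1
  have h2 := hq.fst.image
  rw [h1, image_empty] at h2
  have h3 : q.1.w = 1 := N.eq_one_of_hd fun v => by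
    by_contra h'
    have : v ∈ inn N r q.1.w q.1.A := mem_inn.2 (Or.inl h')
    rw [← h2] at this
    exact notMem_empty _ this
  exact hq.ne ⟨h3, e ▸ h3⟩

theorem YAux.far_ne (hr : IsRefl P r) {c : YCell S W} (hc : YVal N r c) {v : S} (hv : v ∈ c.A) :
    c.w * r v ≠ 1 := by
  intro h
  have := congrArg (N.pi v) h
  rw [map_mul, hc.even v hv, one_mul, N.pi_self v _ (hr.mem v), map_one] at this
  exact hr.ne v this

theorem PVal.face (hr : IsRefl P r) {q t : YCell S W × YCell S W} (hq : PVal N r q)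
    (ht : t ∈ (pbd N r (Finsupp.single q 1)).support) : PVal N r t := by
  obtain ⟨t1, t2⟩ := t
  rcases mem_support_pbd ht with ⟨rfl, v, hv, rfl | rfl⟩ | ⟨rfl, v, hv, rfl | rfl⟩
  · exact ⟨hq.fst.near v, hq.snd, hq.disj.mono_left (filter_subset _ _), hq.ne⟩
  · exact ⟨hq.fst.far hr hv, hq.snd, hq.disj.mono_left (filter_subset _ _),
      fun h => far_ne hr hq.fst hv h.1⟩
  · exact ⟨hq.fst, hq.snd.near v, hq.disj.mono_right (filter_subset _ _), hq.ne⟩
  · exact ⟨hq.fst, hq.snd.far hr hv, hq.disj.mono_right (filter_subset _ _),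
      fun h => far_ne hr hq.snd hv h.2⟩

theorem pbd_pbd (hr : IsRefl P r) {q : YCell S W × YCell S W} (h1 : Λ.IsClique q.1.A)
    (h2 : Λ.IsClique q.2.A) : pbd N r (pbd N r (Finsupp.single q 1)) = 0 := by
  rw [pbd_single, map_add, map_bsum, map_bsum]
  simp only [pbd_single]
  rw [bsum_add, bsum_add, bsum_bsum hr _ h1, bsum_bsum hr _ h2, zero_add, add_zero,
    bsum_comm (fun a b => Finsupp.single (a, b) (1 : ZMod 2)), CoreAux.two]

theorem pbd_aug (x : YCell S W × YCell S W →₀ ZMod 2) : (pbd N r x).sum (fun _ a => a) = 0 := by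
  rw [← tot_apply, CoreAux.map_eq_sum (pbd N r), map_sum]
  refine sum_eq_zero fun q _ => ?_
  rw [map_smul, pbd_single, map_add, map_bsum, map_bsum]
  simp only [tot_single, bsum, CoreAux.two, sum_const_zero, smul_zero]

theorem pbd_swap (x : YCell S W × YCell S W →₀ ZMod 2) :
    pbd N r (x.mapDomain Prod.swap) = (pbd N r x).mapDomain Prod.swap := by
  have : pbd N r ∘ₗ Finsupp.lmapDomain (ZMod 2) (ZMod 2) Prod.swap =
      Finsupp.lmapDomain (ZMod 2) (ZMod 2) Prod.swap ∘ₗ pbd N r := by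
    refine Finsupp.lhom_ext' fun c => LinearMap.ext_ring ?_
    simp only [LinearMap.comp_apply, Finsupp.lsingle_apply, pbd_single, map_add, map_bsum]
    simp only [pbd_single, Finsupp.lmapDomain_apply, Finsupp.mapDomain_single, Prod.swap_prod_mk,
      Prod.fst_swap, Prod.snd_swap]
    rw [add_comm]
  exact LinearMap.congr_fun this x

theorem ykap_swap (rk : S × Bool → ℕ) (x : YCell S W × YCell S W →₀ ZMod 2) :
    ykap N r rk (x.mapDomain Prod.swap) = dswp (ykap N r rk x) := by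
  have : ykap N r rk ∘ₗ Finsupp.lmapDomain (ZMod 2) (ZMod 2) Prod.swap = dswp ∘ₗ ykap N r rk := by
    refine Finsupp.lhom_ext' fun c => LinearMap.ext_ring ?_
    simp only [LinearMap.comp_apply, Finsupp.lsingle_apply, Finsupp.lmapDomain_apply,
      Finsupp.mapDomain_single]
    rw [ykap_single, ykap_single']
    simp only [kk, Prod.fst_swap, Prod.snd_swap]
    split_ifs
    · rw [nu_swap]
    · rw [map_zero]
    · rw [map_zero]
  exact LinearMap.congr_fun this x

theorem ykap_good (rk : S × Bool → ℕ) {q : YCell S W × YCell S W} (hq : PVal N r q) :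
    ykap N r rk (Finsupp.single q 1) ∈ CoreAux.GoodChain Λ (q.1.A.card + q.2.A.card) := by
  rw [ykap_single]
  simp only [kk]
  split_ifs with h1 h2
  · rw [← card_xs hq.fst h1, ← card_xs hq.snd h2]
    refine nu_good ?_ ?_ ?_ <;> simp only [al_union_xs]
    exacts [hq.fst.osimp, hq.snd.osimp, hq.disj]
  · exact zero_mem _
  · exact zero_mem _

theorem ykap_pbd (hr : IsRefl P r) {rk : S × Bool → ℕ} (hrk : Function.Injective rk)
    {q : YCell S W × YCell S W} (hq : PVal N r q) (hd : 0 < q.1.A.card + q.2.A.card) :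
    ykap N r rk (pbd N r (Finsupp.single q 1)) = dbd (ykap N r rk (Finsupp.single q 1)) := by
  rw [ykap_pbd_single, ykap_single]
  by_cases h1 : Cross N r q.1
  · by_cases h2 : Cross N r q.2
    · rw [bsum_cross hr _ hq.fst h1, bsum_cross hr _ hq.snd h2]
      simp only [kk, if_pos h1, if_pos h2]
      rw [nu_bd hrk (disjoint_al_xs _) (disjoint_al_xs _)
        (by simpa only [al_union_xs] using hq.disj) (al_union_nonempty hq h1 h2)
        (xs_union_nonempty hq.fst hq.snd h1 h2 hd)]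
    · rw [bsum_cross hr _ hq.fst h1, bsum_not_cross hr _ hq.snd h2]
      simp [kk, h2]
  · rw [bsum_not_cross hr _ hq.fst h1]
    simp [kk, h1, bsum]

theorem ykap_pbd_base (hr : IsRefl P r) {rk : S × Bool → ℕ} (hrk : Function.Injective rk)
    {q : YCell S W × YCell S W} (h1 : YVal N r q.1) (h2 : YVal N r q.2)
    (hd : Disjoint q.1.σ q.2.σ) (e1 : q.1.w = 1) (e2 : q.2.w = 1)
    (hc : 0 < q.1.A.card + q.2.A.card) :
    ykap N r rk (pbd N r (Finsupp.single q 1)) = Finsupp.single (q.1.σ, q.2.σ) 1 := by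
  have key : ∀ c : YCell S W, YVal N r c → c.w = 1 → Cross N r c ∧ al c = ∅ ∧ xs c = c.σ := by
    intro c hc e
    have hm : ∀ a ∈ c.σ, a.1 ∈ c.A := fun a ha => by
      have := fst_mem_inn hc ha
      rwa [e, inn_one hr] at this
    refine ⟨fun u _ => ?_, filter_eq_empty_iff.2 fun a ha h => h (hm a ha), filter_eq_self.2 hm⟩
    rw [e, N.spec.one, one_mul, N.hd_self (hr.mem u)]
    exact ⟨rfl, hr.ne u⟩
  obtain ⟨c1, a1, x1⟩ := key _ h1 e1
  obtain ⟨c2, a2, x2⟩ := key _ h2 e2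
  have hn := xs_union_nonempty h1 h2 c1 c2 hc
  rw [x1, x2] at hn
  rw [ykap_pbd_single, bsum_cross hr _ h1 c1, bsum_cross hr _ h2 c2]
  simp only [kk, if_pos c1, if_pos c2, a1, a2, x1, x2, nu_empty, zero_add, insert_empty_eq]
  exact nu_top hrk hd hn

namespace YAux

omit [Fintype S] [DecidableEq S] [Group W] in
theorem exists_half {x : YCell S W × YCell S W →₀ ZMod 2} (hx : ∀ q ∈ x.support, q.swap ≠ q)
    (hs : x.mapDomain Prod.swap = x) :
    ∃ y : YCell S W × YCell S W →₀ ZMod 2, y.support ⊆ x.support ∧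
      y + y.mapDomain Prod.swap = x := by
  classical
  obtain ⟨_, -⟩ := exists_wellOrder (YCell S W × YCell S W)
  have happ : ∀ (z : YCell S W × YCell S W →₀ ZMod 2) c, z.mapDomain Prod.swap c = z c.swap := by
    intro z c
    have := Finsupp.mapDomain_apply Prod.swap_injective z c.swap
    rwa [Prod.swap_swap] at this
  refine ⟨x.filter fun c => c < c.swap, filter_subset _ _, ?_⟩
  ext c
  have hc : x c.swap = x c := by rw [← happ, hs]
  rw [Finsupp.add_apply, happ, Finsupp.filter_apply, Finsupp.filter_apply, Prod.swap_swap, hc]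
  by_cases h0 : x c = 0
  · simp [h0]
  · rcases lt_or_gt_of_ne (hx c (Finsupp.mem_support_iff.2 h0)) with h | h
    · rw [if_neg h.not_gt, if_pos h, zero_add]
    · rw [if_pos h, if_neg h.not_gt, add_zero]

theorem ykap_good' (rk : S × Bool → ℕ) {m : ℕ} {y : YCell S W × YCell S W →₀ ZMod 2}
    (hy : ∀ q ∈ y.support, PVal N r q ∧ q.1.A.card + q.2.A.card = m) :
    ykap N r rk y ∈ CoreAux.GoodChain Λ m := by
  rw [CoreAux.map_eq_sum]
  refine Submodule.sum_mem _ fun q hq => Submodule.smul_mem _ _ ?_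
  rw [← (hy q hq).2]
  exact ykap_good rk (hy q hq).1

theorem mem_support_pbd' {y : YCell S W × YCell S W →₀ ZMod 2} {t : YCell S W × YCell S W}
    (ht : t ∈ (pbd N r y).support) :
    ∃ q ∈ y.support, t ∈ (pbd N r (Finsupp.single q 1)).support := by
  rw [CoreAux.map_eq_sum] at ht
  obtain ⟨q, hq, h⟩ := Finsupp.mem_support_finsetSum _ ht
  exact ⟨q, hq, Finsupp.support_smul h⟩

theorem face_deg (hr : IsRefl P r) {q t : YCell S W × YCell S W}
    (ht : t ∈ (pbd N r (Finsupp.single q 1)).support) :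
    t.1.A.card + t.2.A.card + 1 = q.1.A.card + q.2.A.card ∧
      N.len q.1.w + N.len q.2.w ≤ N.len t.1.w + N.len t.2.w + 1 := by
  obtain ⟨t1, t2⟩ := t
  rcases mem_support_pbd ht with ⟨rfl, v, hv, rfl | rfl⟩ | ⟨rfl, v, hv, rfl | rfl⟩ <;>
    have h1 := card_erase_add_one hv <;> simp only [ycut]
  · omega
  · have := N.len_le_right (hr.mem v) q.1.w
    omega
  · omega
  · have := N.len_le_right (hr.mem v) q.2.w
    omega

theorem descent (hr : IsRefl P r) {rk : S × Bool → ℕ} (hrk : Function.Injective rk) (R m : ℕ) :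
    ∀ x : YCell S W × YCell S W →₀ ZMod 2,
    (∀ q ∈ x.support, PVal N r q ∧ q.1.A.card + q.2.A.card = m ∧
      R + m ≤ N.len q.1.w + N.len q.2.w) → x.mapDomain Prod.swap = x → pbd N r x = 0 →
    CoreAux.AL rk (ykap N r rk x) = 1 →
    ∃ e : ℕ → (YCell S W × YCell S W →₀ ZMod 2),
      (∀ i ≤ m, ∀ q ∈ (e i).support, PVal N r q ∧ R ≤ N.len q.1.w + N.len q.2.w) ∧
      (∀ i < m, pbd N r (e (i + 1)) = e i + (e i).mapDomain Prod.swap) ∧
      (e 0).sum (fun _ a => a) = 1 ∧ e m + (e m).mapDomain Prod.swap = x := by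
  induction m with
  | zero =>
    intro x hx hs _ ha
    obtain ⟨y, hy, hy'⟩ := exists_half (fun q hq => (hx q hq).1.swap_ne) hs
    have hg := ykap_good' rk fun q hq => ⟨(hx q (hy hq)).1, (hx q (hy hq)).2.1⟩
    refine ⟨fun _ => y, fun i _ q hq => ⟨(hx q (hy hq)).1, (hx q (hy hq)).2.2⟩,
      fun i hi => absurd hi (Nat.not_lt_zero i), ?_, hy'⟩
    rw [← hy', map_add, ykap_swap, ← CoreAux.AL_dbd hrk hg, CoreAux.AL_zero rk hg, ← tot_apply,
      CoreAux.map_eq_sum (ykap N r rk), map_sum] at ha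
    rw [← ha, Finsupp.sum]
    refine sum_congr rfl fun q hq => ?_
    obtain ⟨h1, h2, -⟩ := hx q (hy hq)
    have a1 : q.1.A = ∅ := card_eq_zero.1 (by omega)
    have a2 : q.2.A = ∅ := card_eq_zero.1 (by omega)
    have c1 : Cross N r q.1 := fun u hu => absurd (a1 ▸ hu) (notMem_empty u)
    have c2 : Cross N r q.2 := fun u hu => absurd (a2 ▸ hu) (notMem_empty u)
    have x1 : xs q.1 = ∅ := card_eq_zero.1 (by rw [card_xs h1.fst c1, a1, card_empty])
    have x2 : xs q.2 = ∅ := card_eq_zero.1 (by rw [card_xs h1.snd c2, a2, card_empty])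
    rw [map_smul, ykap_single]
    simp only [kk, if_pos c1, if_pos c2, x1, x2]
    have hd : Disjoint (al q.1) (al q.2) := h1.disj.mono (filter_subset _ _) (filter_subset _ _)
    rw [tot_apply, nu_zero hrk hd (al_union_nonempty h1 c1 c2), smul_eq_mul, mul_one]
  | succ m ih =>
    intro x hx hs hb ha
    obtain ⟨y, hy, hy'⟩ := exists_half (fun q hq => (hx q hq).1.swap_ne) hs
    have hg := ykap_good' rk fun q hq => ⟨(hx q (hy hq)).1, (hx q (hy hq)).2.1⟩
    obtain ⟨d, h1, h2, h3, h4⟩ := ih (pbd N r y) (fun t ht => by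
      obtain ⟨q, hq, ht⟩ := mem_support_pbd' ht
      obtain ⟨e1, e2, e3⟩ := hx q (hy hq)
      obtain ⟨e4, e5⟩ := face_deg hr ht
      exact ⟨e1.face hr ht, by omega, by omega⟩) (by
      rw [← hy', map_add, pbd_swap] at hb
      exact (CoreAux.eq_of_add_eq_zero hb).symm) (by
      rw [CoreAux.map_eq_sum (pbd N r) y, map_sum]
      refine sum_eq_zero fun q hq => ?_
      rw [map_smul, pbd_pbd hr (hx q (hy hq)).1.fst.clique (hx q (hy hq)).1.snd.clique,
        smul_zero]) (by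
      have : ykap N r rk (pbd N r y) = dbd (ykap N r rk y) := by
        rw [CoreAux.map_eq_sum (pbd N r) y, CoreAux.map_eq_sum (ykap N r rk) y, map_sum, map_sum]
        refine sum_congr rfl fun q hq => ?_
        obtain ⟨e1, e2, -⟩ := hx q (hy hq)
        rw [map_smul, map_smul, ykap_pbd hr hrk e1 (by omega)]
      rw [this, CoreAux.AL_dbd hrk hg, ← ykap_swap, ← map_add, hy', ha])
    refine ⟨Function.update d (m + 1) y, fun i hi => ?_, fun i hi => ?_, ?_, ?_⟩
    · rcases hi.eq_or_lt with rfl | hi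
      · rw [Function.update_self]
        intro q hq
        obtain ⟨e1, -, e3⟩ := hx q (hy hq)
        exact ⟨e1, by omega⟩
      · rw [Function.update_of_ne hi.ne]
        exact h1 i (by omega)
    · rw [Function.update_of_ne hi.ne]
      rcases (Nat.lt_succ_iff.1 hi).eq_or_lt with rfl | hi
      · rw [Function.update_self, h4]
      · rw [Function.update_of_ne (by omega), h2 i hi]
    · rwa [Function.update_of_ne (by omega)]
    · rwa [Function.update_self]

end YAux

theorem ydescent (hr : IsRefl P r) {rk : S × Bool → ℕ} (hrk : Function.Injective rk) (m R : ℕ)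
    (x : YCell S W × YCell S W →₀ ZMod 2)
    (hx : ∀ q ∈ x.support, PVal N r q ∧ q.1.A.card + q.2.A.card = m ∧
      R + m ≤ N.len q.1.w + N.len q.2.w)
    (hs : x.mapDomain Prod.swap = x) (hb : pbd N r x = 0)
    (ha : CoreAux.AL rk (ykap N r rk x) = 1) :
    ∃ e : ℕ → (YCell S W × YCell S W →₀ ZMod 2),
      (∀ i ≤ m, ∀ q ∈ (e i).support, PVal N r q ∧ R ≤ N.len q.1.w + N.len q.2.w) ∧
      (∀ i < m, pbd N r (e (i + 1)) = e i + (e i).mapDomain Prod.swap) ∧
      (e 0).sum (fun _ a => a) = 1 := by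
  obtain ⟨e, h1, h2, h3, -⟩ := YAux.descent hr hrk R m x hx hs hb ha
  exact ⟨e, h1, h2, h3⟩

end Pool.Agent.MP_4f4d9f_gt

end

section

/-! Borsuk-Ulam chains far from the base vertex in the complex of pairs of signed cubes. -/

open Finset

namespace Pool.Agent.MP_4f4d9f_gt

namespace YBAux

open CoreAux

theorem lin_congr {α M : Type} [AddCommGroup M] [Module (ZMod 2) M]
    (f g : (α →₀ ZMod 2) →ₗ[ZMod 2] M) {x : α →₀ ZMod 2}
    (h : ∀ q ∈ x.support, f (Finsupp.single q 1) = g (Finsupp.single q 1)) : f x = g x := by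
  rw [map_eq_sum f, map_eq_sum g]
  exact sum_congr rfl fun q hq => by rw [h q hq]

section Restrict

variable {V : Type} [DecidableEq V] [Fintype V] {Γ : SimpleGraph V}

omit [Fintype V] in
theorem filter_graph {A U : Finset V} (h : U ⊆ A) (g : V → Bool) :
    ((A.image fun u => (u, g u)).filter fun a => a.1 ∈ U) = U.image fun u => (u, g u) := by
  rw [filter_image, filter_mem_eq_inter, inter_eq_right.2 h]

theorem G_left (F : Finset V → ZMod 2) {A B U : Finset V} (hA : Γ.IsClique A) (hB : Γ.IsClique B)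
    (h : U ⊆ A) : (G Γ F A B).mapDomain (fun d => (d.1.filter fun a => a.1 ∈ U, d.2)) =
      G Γ F U B := by
  rw [G, G, ← Finsupp.lmapDomain_apply (ZMod 2) (ZMod 2), map_sum]
  refine sum_congr rfl fun J _ => ?_
  have h1 : Finsupp.lmapDomain (ZMod 2) (ZMod 2)
      (fun d : DCell V => (d.1.filter fun a => a.1 ∈ U, d.2)) (E A B J) = E U B J := by
    simp only [E, map_sum, Finsupp.lmapDomain_apply, Finsupp.mapDomain_single, cell,
      filter_graph h]
  rw [map_smul, h1]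
  by_cases hJ : J ⊆ U ∪ B
  · rw [acoef_congr F J A U]
    refine fun v hv => ⟨fun hvA => (mem_union.1 (hJ hv.1)).resolve_right fun hvB => ?_, @h v⟩
    exact not_bad_inter hA hB (hJ.trans (union_subset_union_left h)) hv hvA hvB
  · rw [E_zero hJ, smul_zero, smul_zero]

theorem G_right (F : Finset V → ZMod 2) (A : Finset V) {B U : Finset V} (h : U ⊆ B) :
    (G Γ F A B).mapDomain (fun d => (d.1, d.2.filter fun a => a.1 ∈ U)) = G Γ F A U := by
  rw [G, G, ← Finsupp.lmapDomain_apply (ZMod 2) (ZMod 2), map_sum]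
  refine sum_congr rfl fun J _ => ?_
  simp only [E, map_sum, map_smul, Finsupp.lmapDomain_apply, Finsupp.mapDomain_single, cell,
    filter_graph h]

theorem G_supp (F : Finset V → ZMod 2) (A B : Finset V) :
    ∀ d ∈ (G Γ F A B).support, ∃ T, d = cell A B T :=
  show G Γ F A B ∈ Finsupp.supported (ZMod 2) (ZMod 2) {d | ∃ T, d = cell A B T} from
    Submodule.sum_mem _ fun _ _ => Submodule.smul_mem _ _ <|
      Submodule.sum_mem _ fun T _ => Finsupp.single_mem_supported _ _ ⟨T, rfl⟩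

omit [Fintype V] in
theorem cell_disj (A B T : Finset V) : Disjoint (cell A B T).1 (cell A B T).2 := by
  rw [disjoint_left]
  intro a ha hb
  obtain ⟨u, -, rfl⟩ := mem_image.1 ha
  obtain ⟨w, -, h⟩ := mem_image.1 hb
  obtain ⟨rfl, h2⟩ := Prod.mk.inj h
  simp at h2

theorem sbd_apply (z : Finset V →₀ ZMod 2) (B : Finset V) :
    sbd z B = ∑ v ∈ Bᶜ, z (insert v B) := by
  induction z using Finsupp.induction_linear with
  | zero => simp
  | add x y hx hy => simp only [map_add, Finsupp.add_apply, hx, hy, sum_add_distrib]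
  | single A c =>
    rw [← Finsupp.smul_single_one, map_smul, sbd_single]
    simp only [Finsupp.smul_apply, Finsupp.finsetSum_apply, ← smul_sum, Finsupp.single_apply]
    congr 1
    rw [← sum_filter, ← sum_filter]
    congr 1
    ext v
    simp only [mem_filter, mem_compl]
    constructor
    · rintro ⟨h, rfl⟩
      exact ⟨notMem_erase _ _, (insert_erase h).symm⟩
    · rintro ⟨h, rfl⟩
      exact ⟨mem_insert_self _ _, erase_insert h⟩

end Restrict

variable {S W : Type} [Fintype S] [DecidableEq S] [Group W] {Λ : SimpleGraph S}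
  {P : S → Subgroup W} (N : NF Λ P) (r : S → W) (F : Finset S → ZMod 2)

/-- The boundary of unsigned cubes. -/
noncomputable def cb : (W × Finset S →₀ ZMod 2) →ₗ[ZMod 2] (W × Finset S →₀ ZMod 2) :=
  Finsupp.linearCombination (ZMod 2) fun c => ∑ v ∈ c.2,
    (Finsupp.single (c.1, c.2.erase v) 1 + Finsupp.single (c.1 * r v, c.2.erase v) 1)

/-- The pair of signed cubes with given cubes and labels. -/
def emb (c c' : W × Finset S) (d : DCell S) : YCell S W × YCell S W :=
  (⟨c.1, c.2, d.1⟩, ⟨c'.1, c'.2, d.2⟩)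

/-- The chain over a pair of cubes. -/
noncomputable def Phi1 (c c' : W × Finset S) : YCell S W × YCell S W →₀ ZMod 2 :=
  (G Λ F (inn N r c.1 c.2) (inn N r c'.1 c'.2)).mapDomain (emb c c')

/-- The bilinear extension. -/
noncomputable def Phi : (W × Finset S →₀ ZMod 2) →ₗ[ZMod 2] (W × Finset S →₀ ZMod 2) →ₗ[ZMod 2]
    (YCell S W × YCell S W →₀ ZMod 2) :=
  Finsupp.linearCombination (ZMod 2) fun c => Finsupp.linearCombination (ZMod 2) (Phi1 N r F c)

theorem Phi_single (c c' : W × Finset S) :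
    Phi N r F (Finsupp.single c 1) (Finsupp.single c' 1) = Phi1 N r F c c' := by
  simp [Phi]

theorem Phi_eq (x y : W × Finset S →₀ ZMod 2) : Phi N r F x y =
    ∑ c ∈ x.support, ∑ c' ∈ y.support, (x c * y c') • Phi1 N r F c c' := by
  refine (map_eq_sum ((Phi N r F).flip y) x).trans (sum_congr rfl fun c _ => ?_)
  rw [LinearMap.flip_apply, map_eq_sum (Phi N r F (Finsupp.single c 1)) y, smul_sum]
  exact sum_congr rfl fun c' _ => by rw [Phi_single, mul_smul]

variable {N r}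

theorem pbd_Phi1 (hr : IsRefl P r) {c c' : W × Finset S} (hc : Λ.IsClique c.2)
    (hc' : Λ.IsClique c'.2) : pbd N r (Phi1 N r F c c') =
      Phi N r F (cb r (Finsupp.single c 1)) (Finsupp.single c' 1) +
        Phi N r F (Finsupp.single c 1) (cb r (Finsupp.single c' 1)) := by
  have key : ∀ y : DCell S →₀ ZMod 2, pbd N r (y.mapDomain (emb c c')) =
      ∑ v ∈ c.2, ((y.mapDomain fun d => (d.1.filter fun a => a.1 ∈ inn N r c.1 (c.2.erase v),
          d.2)).mapDomain (emb (c.1, c.2.erase v) c') +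
        (y.mapDomain fun d => (d.1.filter fun a => a.1 ∈ inn N r (c.1 * r v) (c.2.erase v),
          d.2)).mapDomain (emb (c.1 * r v, c.2.erase v) c')) +
      ∑ v ∈ c'.2, ((y.mapDomain fun d => (d.1,
          d.2.filter fun a => a.1 ∈ inn N r c'.1 (c'.2.erase v))).mapDomain
            (emb c (c'.1, c'.2.erase v)) +
        (y.mapDomain fun d => (d.1,
          d.2.filter fun a => a.1 ∈ inn N r (c'.1 * r v) (c'.2.erase v))).mapDomain
            (emb c (c'.1 * r v, c'.2.erase v))) := by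
    intro y
    induction y using Finsupp.induction_linear with
    | zero => simp
    | add x y hx hy =>
      simp only [Finsupp.mapDomain_add, map_add, hx, hy, sum_add_distrib]
      abel
    | single d t =>
      simp [pbd, ybd, ycut, emb, Finsupp.mapDomain_finsetSum, Finsupp.mapDomain_add, smul_sum]
  rw [Phi1, key]
  simp only [cb, Finsupp.linearCombination_single, one_smul, map_sum, map_add, LinearMap.sum_apply,
    LinearMap.add_apply, Phi_single]
  refine congrArg₂ (· + ·) (sum_congr rfl fun v hv => ?_) (sum_congr rfl fun v hv => ?_)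
  · rw [G_left F (inn_clique hr _ hc) (inn_clique hr _ hc') (inn_erase_subset _ _ v),
      G_left F (inn_clique hr _ hc) (inn_clique hr _ hc') (inn_mul_erase_subset hr _ hc hv)]
    rfl
  · rw [G_right F _ (inn_erase_subset _ _ v), G_right F _ (inn_mul_erase_subset hr _ hc' hv)]
    rfl

theorem pbd_Phi (hr : IsRefl P r) {x y : W × Finset S →₀ ZMod 2}
    (hx : ∀ c ∈ x.support, Λ.IsClique c.2) (hy : ∀ c ∈ y.support, Λ.IsClique c.2) :
    pbd N r (Phi N r F x y) = Phi N r F (cb r x) y + Phi N r F x (cb r y) :=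
  lin_congr (pbd N r ∘ₗ (Phi N r F).flip y)
    ((Phi N r F).flip y ∘ₗ cb r + (Phi N r F).flip (cb r y)) fun c hc =>
    lin_congr (pbd N r ∘ₗ Phi N r F (Finsupp.single c 1))
      (Phi N r F (cb r (Finsupp.single c 1)) + Phi N r F (Finsupp.single c 1) ∘ₗ cb r)
      fun c' hc' => by
        simp only [LinearMap.comp_apply, LinearMap.add_apply, Phi_single]
        exact pbd_Phi1 F hr (hx c hc) (hy c' hc')

theorem swap_Phi (hr : IsRefl P r)
    (hF : ∀ J : Finset S, Λ.IsClique J → ∑ I ∈ J.ssubsets, F I = 0)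
    {x y : W × Finset S →₀ ZMod 2}
    (hx : ∀ c ∈ x.support, Λ.IsClique c.2) (hy : ∀ c ∈ y.support, Λ.IsClique c.2) :
    (Phi N r F x y).mapDomain Prod.swap = Phi N r F y x := by
  rw [Phi_eq, Phi_eq, sum_comm (s := y.support), ← Finsupp.lmapDomain_apply (ZMod 2) (ZMod 2)]
  simp only [map_sum, map_smul]
  refine sum_congr rfl fun c hc => sum_congr rfl fun c' hc' => ?_
  rw [mul_comm, Phi1, Phi1, ← dswp_G F hF (inn_clique hr _ (hx c hc)) (inn_clique hr _ (hy c' hc')),
    dswp, Finsupp.lmapDomain_apply, Finsupp.lmapDomain_apply, ← Finsupp.mapDomain_comp,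
    ← Finsupp.mapDomain_comp]
  rfl

variable (N) in
/-- Valid cubes of dimension `j`. -/
def CV (j : ℕ) (c : W × Finset S) : Prop := Λ.IsNClique j c.2 ∧ ∀ u ∈ c.2, N.pi u c.1 = 1

theorem emb_val (hr : IsRefl P r) {i j : ℕ} {c c' : W × Finset S} (hc : CV N i c) (hc' : CV N j c')
    {d : DCell S} (hd : d ∈ (G Λ F (inn N r c.1 c.2) (inn N r c'.1 c'.2)).support) :
    YVal N r (emb c c' d).1 ∧ YVal N r (emb c c' d).2 ∧ Disjoint d.1 d.2 := by
  obtain ⟨T, rfl⟩ := G_supp F _ _ d hd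
  refine ⟨⟨hc.1.1, hc.2, ?_, osimp_image (inn_clique hr _ hc.1.1) _⟩,
    ⟨hc'.1.1, hc'.2, ?_, osimp_image (inn_clique hr _ hc'.1.1) _⟩, cell_disj _ _ _⟩ <;>
  simp [emb, cell, image_image, Function.comp_def]

theorem Phi_supp (hr : IsRefl P r) {i j : ℕ} {x y : W × Finset S →₀ ZMod 2} {p p' : W → Prop}
    (hx : ∀ c ∈ x.support, CV N i c ∧ p c.1) (hy : ∀ c ∈ y.support, CV N j c ∧ p' c.1) :
    Phi N r F x y ∈ Finsupp.supported (ZMod 2) (ZMod 2) {q | YVal N r q.1 ∧ YVal N r q.2 ∧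
      Disjoint q.1.σ q.2.σ ∧ q.1.A.card = i ∧ q.2.A.card = j ∧ p q.1.w ∧ p' q.2.w} := by
  classical
  rw [Phi_eq]
  refine Submodule.sum_mem _ fun c hc => Submodule.sum_mem _ fun c' hc' =>
    Submodule.smul_mem _ _ fun q hq => ?_
  obtain ⟨d, hd, rfl⟩ := mem_image.1 (Finsupp.mapDomain_support hq)
  obtain ⟨h1, h2, h3⟩ := emb_val F hr (hx c hc).1 (hy c' hc').1 hd
  exact ⟨h1, h2, h3, (hx c hc).1.1.2, (hy c' hc').1.1.2, (hx c hc).2, (hy c' hc').2⟩

omit [Fintype S] [DecidableEq S] in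
theorem refl_sq (hr : IsRefl P r) (v : S) : r v * r v = 1 :=
  (hr.all v _ (mul_mem (hr.mem v) (hr.mem v))).resolve_right fun h => hr.ne v (mul_eq_left.1 h)

theorem cb_apply (hr : IsRefl P r) (x : W × Finset S →₀ ZMod 2) (w : W) (B : Finset S) :
    cb r x (w, B) = ∑ v ∈ Bᶜ, (x (w, insert v B) + x (w * r v, insert v B)) := by
  classical
  induction x using Finsupp.induction_linear with
  | zero => simp
  | add x y hx hy =>
    simp only [map_add, Finsupp.add_apply, hx, hy, sum_add_distrib]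
    abel
  | single c t =>
    obtain ⟨g, A⟩ := c
    rw [← Finsupp.smul_single_one, map_smul, cb, Finsupp.linearCombination_single, one_smul]
    simp only [Finsupp.smul_apply, Finsupp.finsetSum_apply, ← smul_sum, Finsupp.single_apply,
      Finsupp.add_apply, ← smul_add, sum_add_distrib, ← sum_filter, Prod.mk.injEq]
    congr 3 <;> ext v <;> simp only [mem_filter, mem_compl]
    · constructor
      · rintro ⟨h, rfl, rfl⟩
        exact ⟨notMem_erase _ _, rfl, (insert_erase h).symm⟩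
      · rintro ⟨h, rfl, rfl⟩
        exact ⟨mem_insert_self _ _, rfl, erase_insert h⟩
    · constructor
      · rintro ⟨h, rfl, rfl⟩
        exact ⟨notMem_erase _ _, by rw [mul_assoc, refl_sq hr, mul_one], (insert_erase h).symm⟩
      · rintro ⟨h, rfl, rfl⟩
        exact ⟨mem_insert_self _ _, by rw [mul_assoc, refl_sq hr, mul_one], erase_insert h⟩

variable (N) in
/-- A cycle of the clique complex spreads out to a chain of cubes whose boundary is far away. -/
theorem exists_zeta (hr : IsRefl P r) {p : ℕ} {z : Finset S →₀ ZMod 2}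
    (hz : ∀ A ∈ z.support, Λ.IsNClique (p + 1) A) (hz0 : sbd z = 0) (R : ℕ) :
    ∃ ζ : W × Finset S →₀ ZMod 2, (∀ c ∈ ζ.support, CV N (p + 1) c) ∧ (∀ A, ζ (1, A) = z A) ∧
      ∀ c ∈ (cb r ζ).support, CV N p c ∧ R ≤ N.len c.1 := by
  classical
  have hfin := N.finite_ball (fun v => ((Set.finite_singleton (r v)).insert 1).subset
    fun a ha => hr.all v a ha) R
  obtain ⟨ζ, hζ⟩ : ∃ ζ : W × Finset S →₀ ZMod 2, ∀ w A, ζ (w, A) =
      if N.len w ≤ R ∧ ∀ u ∈ A, N.pi u w = 1 then z A else 0 :=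
    ⟨Finsupp.onFinset (hfin.toFinset ×ˢ univ)
      (fun c => if N.len c.1 ≤ R ∧ ∀ u ∈ c.2, N.pi u c.1 = 1 then z c.2 else 0) fun c hc =>
        mem_product.2 ⟨hfin.mem_toFinset.2 (ite_ne_right_iff.1 hc).1.1, mem_univ _⟩,
      fun _ _ => rfl⟩
  have h1 : ∀ w A, ζ (w, A) ≠ 0 → CV N (p + 1) (w, A) := fun w A h => by
    rw [hζ] at h
    exact ⟨hz A (Finsupp.mem_support_iff.2 (ite_ne_right_iff.1 h).2), (ite_ne_right_iff.1 h).1.2⟩
  have hpi : ∀ w v u, u ≠ v → N.pi u (w * r v) = N.pi u w := fun w v u h => by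
    rw [map_mul, N.pi_ne v u h.symm _ (hr.mem v), mul_one]
  refine ⟨ζ, fun c hc => h1 _ _ (Finsupp.mem_support_iff.1 hc), fun A => by
    simp [hζ, N.len_one], ?_⟩
  rintro ⟨w, B⟩ hc
  rw [Finsupp.mem_support_iff, cb_apply hr] at hc
  have h2 : CV N p (w, B) := by
    obtain ⟨v, hv, h⟩ := exists_ne_zero_of_sum_ne_zero hc
    have hv' := mem_compl.1 hv
    have h3 : ∀ g, CV N (p + 1) (g, insert v B) → CV N p (g, B) := fun g hg =>
      ⟨⟨hg.1.1.subset (coe_subset.2 (subset_insert _ _)), by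
        have := hg.1.2
        rw [card_insert_of_notMem hv'] at this
        exact Nat.succ_injective this⟩, fun u hu => hg.2 u (mem_insert_of_mem hu)⟩
    by_cases h4 : ζ (w, insert v B) = 0
    · rw [h4, zero_add] at h
      have h5 := h3 _ (h1 _ _ h)
      exact ⟨h5.1, fun u hu => (hpi w v u fun e => hv' (e ▸ hu)).symm.trans (h5.2 u hu)⟩
    · exact h3 _ (h1 _ _ h4)
  refine ⟨h2, not_lt.1 fun hlt => hc ?_⟩
  have h6 := sbd_apply z B
  rw [hz0, Finsupp.zero_apply] at h6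
  rw [h6]
  refine sum_congr rfl fun v hv => ?_
  have h7 := N.len_right_le (hr.mem v) w
  have h8 : ∀ u ∈ B, N.pi u (w * r v) = 1 := fun u hu =>
    (hpi w v u fun e => mem_compl.1 hv (e ▸ hu)).trans (h2.2 u hu)
  have h9 : N.pi v (w * r v) = N.pi v w * r v := by rw [map_mul, N.pi_self v _ (hr.mem v)]
  simp only [hζ, forall_mem_insert, h9]
  rcases hr.all v _ (N.pi_mem v w) with e | e
  · rw [if_pos ⟨hlt.le, e, h2.2⟩, if_neg fun h => hr.ne v (by simpa [e] using h.2.1), add_zero]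
  · rw [if_neg fun h => hr.ne v (e.symm.trans h.2.1),
      if_pos ⟨by simp only at hlt; omega, by rw [e, refl_sq hr], h8⟩, zero_add]

theorem AL_far (hr : IsRefl P r) {rk : S × Bool → ℕ} (hrk : Function.Injective rk) {m : ℕ}
    (hm : 0 < m) {x : YCell S W × YCell S W →₀ ZMod 2}
    (hx : ∀ q ∈ x.support, PVal N r q ∧ q.1.A.card + q.2.A.card = m)
    (hs : x.mapDomain Prod.swap = x) : AL rk (ykap N r rk (pbd N r x)) = 0 := by
  have h1 : ykap N r rk (pbd N r x) = dbd (ykap N r rk x) :=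
    lin_congr (ykap N r rk ∘ₗ pbd N r) (dbd ∘ₗ ykap N r rk) fun q hq =>
      ykap_pbd hr hrk (hx q hq).1 ((hx q hq).2 ▸ hm)
  have h2 : ykap N r rk x ∈ GoodChain Λ m := by
    rw [map_eq_sum]
    exact Submodule.sum_mem _ fun q hq => Submodule.smul_mem _ _
      ((hx q hq).2 ▸ ykap_good rk (hx q hq).1)
  rw [h1, AL_dbd hrk h2, ← ykap_swap, hs, two, map_zero]

theorem ykap_base (hr : IsRefl P r) {rk : S × Bool → ℕ} (hrk : Function.Injective rk) {p : ℕ}
    {A B : Finset S} (hA : Λ.IsNClique (p + 1) A) (hB : Λ.IsNClique (p + 1) B) :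
    ykap N r rk (pbd N r (Phi1 N r F (1, A) (1, B))) = G Λ F A B := by
  have h := lin_congr (ykap N r rk ∘ₗ pbd N r ∘ₗ
    Finsupp.lmapDomain (ZMod 2) (ZMod 2) (emb ((1 : W), A) (1, B))) LinearMap.id
    (x := G Λ F (inn N r 1 A) (inn N r 1 B)) fun d hd => by
      obtain ⟨h1, h2, h3⟩ := emb_val F hr (c := (1, A)) (c' := (1, B))
        ⟨hA, fun _ _ => map_one _⟩ ⟨hB, fun _ _ => map_one _⟩ hd
      simp only [LinearMap.comp_apply, Finsupp.lmapDomain_apply, Finsupp.mapDomain_single,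
        LinearMap.id_apply]
      exact ykap_pbd_base hr hrk h1 h2 h3 rfl rfl (by
        have := hA.2
        simp only [emb]
        omega)
  refine h.trans ?_
  rw [LinearMap.id_apply, inn_one hr, inn_one hr]

end YBAux

open CoreAux YBAux in
theorem ycomb {S W : Type} [Fintype S] [DecidableEq S] [Group W] {Λ : SimpleGraph S}
    {P : S → Subgroup W} (N : NF Λ P) {r : S → W} (hr : IsRefl P r) {p : ℕ} (hp : 1 ≤ p)
    (h : ¬ ExactTwo Λ p) (R : ℕ) :
    ∃ e : ℕ → (YCell S W × YCell S W →₀ ZMod 2),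
      (∀ i ≤ 2 * p - 1, ∀ q ∈ (e i).support, PVal N r q ∧ R ≤ N.len q.1.w + N.len q.2.w) ∧
      (∀ i < 2 * p - 1, pbd N r (e (i + 1)) = e i + (e i).mapDomain Prod.swap) ∧
      (e 0).sum (fun _ a => a) = 1 := by
  classical
  obtain ⟨z, φ, hz, hz0, h0, hc, h1⟩ := exists_phi h
  obtain ⟨F, hF, hF'⟩ := exists_F Λ p φ h0 hc
  let idx : S → ℕ := fun v => Fintype.equivFin S v
  have hidx : Function.Injective idx := fun v w e => (Fintype.equivFin S).injective (Fin.ext e)
  obtain ⟨p, rfl⟩ : ∃ n, p = n + 1 := ⟨p - 1, by omega⟩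
  obtain ⟨ζ, z1, z2, z3⟩ := exists_zeta N hr hz hz0 (R + (2 * p + 1))
  have zc : ∀ c ∈ ζ.support, Λ.IsClique c.2 := fun c hc => (z1 c hc).1.1
  have z1' : ∀ c ∈ ζ.support, CV N (p + 1) c ∧ True := fun c hc => ⟨z1 c hc, trivial⟩
  refine ydescent hr (rk_inj hidx) _ R (pbd N r (Phi N r F ζ ζ)) ?_ ?_ ?_ ?_
  · intro q hq
    rw [pbd_Phi F hr zc zc] at hq
    have hne : ∀ w : W, R + (2 * p + 1) ≤ N.len w → w ≠ 1 := by
      rintro w hw rfl
      rw [N.len_one] at hw
      omega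
    rcases mem_union.1 (Finsupp.support_add hq) with hq | hq
    · obtain ⟨a, b, c, d, e, f, -⟩ := Phi_supp F hr (p := fun w => R + (2 * p + 1) ≤ N.len w)
        (p' := fun _ => True) z3 z1' hq
      exact ⟨⟨a, b, c, fun h => hne _ f h.1⟩, by omega, by omega⟩
    · obtain ⟨a, b, c, d, e, -, f⟩ := Phi_supp F hr (p' := fun w => R + (2 * p + 1) ≤ N.len w)
        (p := fun _ => True) z1' z3 hq
      exact ⟨⟨a, b, c, fun h => hne _ f h.2⟩, by omega, by omega⟩
  · rw [← pbd_swap, swap_Phi F hr hF zc zc]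
  · refine lin_congr (pbd N r ∘ₗ pbd N r) 0 fun q hq => ?_
    obtain ⟨a, b, -⟩ := Phi_supp F hr (p := fun _ => True) (p' := fun _ => True) z1' z1' hq
    exact pbd_pbd hr a.clique b.clique
  · set ζ0 := ζ.filter fun c => c.1 = 1 with hζ0
    set ζ1 := ζ.filter fun c => ¬c.1 = 1 with hζ1
    have hsum : ζ = ζ0 + ζ1 := (Finsupp.filter_add_filter_not ζ _).symm
    have a0 : ∀ c ∈ ζ0.support, CV N (p + 1) c ∧ True := fun c hc => z1' c (mem_filter.1 hc).1
    have a1 : ∀ c ∈ ζ1.support, CV N (p + 1) c ∧ c.1 ≠ 1 := fun c hc =>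
      ⟨z1 c (mem_filter.1 hc).1, (mem_filter.1 hc).2⟩
    have c0 : ∀ c ∈ ζ0.support, Λ.IsClique c.2 := fun c hc => (a0 c hc).1.1.1
    have c1 : ∀ c ∈ ζ1.support, Λ.IsClique c.2 := fun c hc => (a1 c hc).1.1.1
    have hsplit : Phi N r F ζ ζ = Phi N r F ζ0 ζ0 +
        (Phi N r F ζ0 ζ1 + Phi N r F ζ1 ζ0 + Phi N r F ζ1 ζ1) := by
      conv_lhs => rw [hsum]
      simp only [map_add, LinearMap.add_apply]
      abel
    have hfar : AL (rk idx) (ykap N r (rk idx) (pbd N r
        (Phi N r F ζ0 ζ1 + Phi N r F ζ1 ζ0 + Phi N r F ζ1 ζ1))) = 0 := by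
      refine AL_far hr (rk_inj hidx) (m := p + 1 + (p + 1)) (by omega) (fun q hq => ?_) ?_
      · rcases mem_union.1 (Finsupp.support_add hq) with hq | hq
        · rcases mem_union.1 (Finsupp.support_add hq) with hq | hq
          · obtain ⟨a, b, c, d, e, -, f⟩ := Phi_supp F hr (p := fun _ => True)
              (p' := fun w => w ≠ 1) a0 a1 hq
            exact ⟨⟨a, b, c, fun h => f h.2⟩, by omega⟩
          · obtain ⟨a, b, c, d, e, f, -⟩ := Phi_supp F hr (p' := fun _ => True)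
              (p := fun w => w ≠ 1) a1 a0 hq
            exact ⟨⟨a, b, c, fun h => f h.1⟩, by omega⟩
        · obtain ⟨a, b, c, d, e, f, -⟩ := Phi_supp F hr (p' := fun w => w ≠ 1)
            (p := fun w => w ≠ 1) a1 a1 hq
          exact ⟨⟨a, b, c, fun h => f h.1⟩, by omega⟩
      · rw [Finsupp.mapDomain_add, Finsupp.mapDomain_add, swap_Phi F hr hF c0 c1,
          swap_Phi F hr hF c1 c0, swap_Phi F hr hF c1 c1, add_comm (Phi N r F ζ1 ζ0)]
    have hs : ζ0.support = z.support.image fun A => ((1 : W), A) := by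
      ext ⟨w, A⟩
      simp only [hζ0, Finsupp.support_filter, mem_filter, mem_image, Finsupp.mem_support_iff,
        Prod.mk.injEq]
      constructor
      · rintro ⟨h, rfl⟩
        exact ⟨A, z2 A ▸ h, rfl, rfl⟩
      · rintro ⟨B, h, rfl, rfl⟩
        exact ⟨(z2 B).symm ▸ h, rfl⟩
    have hv : ∀ A, ζ0 (1, A) = z A := fun A => by rw [hζ0, Finsupp.filter_apply, if_pos rfl, z2]
    have hinj : Set.InjOn (fun A : Finset S => ((1 : W), A)) z.support := fun _ _ _ _ e =>
      congrArg Prod.snd e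
    rw [hsplit, map_add, map_add, map_add, hfar, add_zero, Phi_eq, hs, sum_image hinj]
    simp only [sum_image hinj, map_sum, map_smul, hv]
    rw [← h1]
    refine sum_congr rfl fun A hA => ?_
    rw [sum_congr rfl fun B hB => by
      rw [ykap_base F hr (rk_inj hidx) (hz A hA) (hz B hB),
        AL_G hidx F (fun J hJ => by rw [hF' J hJ.le, h0 J hJ.ne]) (hz A hA) (hz B hB)],
      sum_eq_single_of_mem A hA fun B _ hne => by rw [if_neg hne.symm, smul_zero], if_pos rfl,
      hF' A (hz A hA).2.le]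
    have h2 : ∀ t : ZMod 2, t * t = t := by decide
    rw [h2]

end Pool.Agent.MP_4f4d9f_gt

end

section

/-! Maps of chamber sets induced by pointed maps of the vertex groups. -/

namespace Pool.Agent.MP_4f4d9f_gt

variable {S V W' W : Type} [Group W'] [Group W] {Λ : SimpleGraph S} {Γ : SimpleGraph V}
  {P' : S → Subgroup W'} {P : V → Subgroup W}

namespace TrAux

open Classical in
/-- The action of one syllable on the auxiliary space. -/
noncomputable def act (ν : S → W' → W) (u : S) (b : W') (z : (S → W') × W) : (S → W') × W :=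
  (Function.update z.1 u (z.1 u * b⁻¹), z.2 * ((ν u (z.1 u))⁻¹ * ν u (z.1 u * b⁻¹)))

theorem act_one (ν : S → W' → W) (u : S) (z : (S → W') × W) : act ν u 1 z = z := by
  simp [act]

theorem act_mul (ν : S → W' → W) (u : S) (a b : W') (z : (S → W') × W) :
    act ν u (a * b) z = act ν u a (act ν u b z) := by
  simp [act, mul_assoc]

theorem act_comm (ν : S → W' → W) {u v : S} (huv : u ≠ v)
    (hc : ∀ x x' y y', ((ν u x)⁻¹ * ν u x') * ((ν v y)⁻¹ * ν v y') =
      ((ν v y)⁻¹ * ν v y') * ((ν u x)⁻¹ * ν u x')) (a b : W') (z : (S → W') × W) :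
    act ν u a (act ν v b z) = act ν v b (act ν u a z) := by
  classical
  simp only [act, Function.update_of_ne huv, Function.update_of_ne huv.symm, Prod.mk.injEq]
  refine ⟨?_, ?_⟩
  · convert (Function.update_comm huv _ _ _).symm
  · rw [mul_assoc, mul_assoc z.2, hc]

/-- The action of a vertex group on the auxiliary space. -/
noncomputable def hom (ν : S → W' → W) (u : S) (H : Subgroup W') :
    H →* Equiv.Perm ((S → W') × W) :=
  MonoidHom.toHomPerm
    { toFun := fun b => act ν u b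
      map_one' := funext fun z => act_one ν u z
      map_mul' := fun a b => funext fun z => act_mul ν u a b z }

theorem hom_apply (ν : S → W' → W) (u : S) (H : Subgroup W') (b : H) (z : (S → W') × W) :
    hom ν u H b z = act ν u b z := rfl

theorem mem_par_of_change (N : NF Γ P) {v : V} {a g : W} (ha : a ∈ P v) (hg : N.tl v g = 1)
    (h : N.hd v (g * a) ≠ N.hd v g) : g ∈ par P (Γ.neighborSet v) := by
  have hc := N.spec.change v a ha g h
  have hm := N.spec.mem v g
  have e : g = (N.hd v g)⁻¹ * g * N.hd v g := by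
    rw [← N.gp.comm_par hm hc, mul_inv_cancel_left]
  have h1 : N.tl v ((N.hd v g)⁻¹ * g) = 1 := by
    have := N.tl_mul_par 1 hc
    rwa [one_mul, N.tl_one] at this
  have h2 : N.hd v g = 1 := by
    have := N.tl_self hm ((N.hd v g)⁻¹ * g)
    rwa [← e, hg, h1, one_mul, eq_comm] at this
  rwa [h2, inv_one, one_mul] at hc

end TrAux

open TrAux in
theorem exists_tr (N' : NF Λ P') (hP : IsGraphProd Γ P) (φ : Λ ↪g Γ) (μ : S → W' → W)
    (hμ : ∀ u, ∀ a ∈ P' u, μ u a ∈ P (φ u)) : ∃ F, IsTr N' μ F := by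
  classical
  let ν : S → W' → W := fun u x => if x ∈ P' u then μ u x else 1
  have hν : ∀ u x, ν u x ∈ P (φ u) := fun u x => by
    by_cases h : x ∈ P' u
    · simp only [ν, if_pos h]
      exact hμ u x h
    · simp only [ν, if_neg h]
      exact one_mem _
  have hν' : ∀ u, ∀ x ∈ P' u, ν u x = μ u x := fun u x h => if_pos h
  obtain ⟨Φ, hΦ⟩ := N'.gp.lift _ (fun u => hom ν u (P' u)) (fun u v huv a b => by
    refine Equiv.ext fun z => ?_
    simp only [Equiv.Perm.mul_apply, hom_apply]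
    refine act_comm ν huv.ne (fun x x' y y' => ?_) _ _ _
    exact hP.comm _ _ (φ.map_adj_iff.2 huv) _ (mul_mem (inv_mem (hν u x)) (hν u x')) _
      (mul_mem (inv_mem (hν v y)) (hν v y')))
  have step : ∀ u, ∀ a ∈ P' u, ∀ g : W',
      Φ (g * a)⁻¹ (1, 1) = act ν u a⁻¹ (Φ g⁻¹ (1, 1)) := by
    intro u a ha g
    rw [mul_inv_rev, map_mul, Equiv.Perm.mul_apply]
    have := hΦ u ⟨a⁻¹, inv_mem ha⟩
    simp only at this
    rw [this, hom_apply]
  have first : ∀ g : W', (Φ g⁻¹ (1, 1)).1 = fun u => N'.pi u g := by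
    refine N'.gp.induction_right (by ext u; simp) fun g v a ha ih => ?_
    rw [step v a ha g]
    ext u
    simp only [act, ih, inv_inv, map_mul]
    by_cases h : u = v
    · subst h
      rw [Function.update_self, N'.pi_self u a ha]
    · rw [Function.update_of_ne h, N'.pi_ne v u (Ne.symm h) a ha, mul_one]
  refine ⟨fun g => (Φ g⁻¹ (1, 1)).2, by simp, fun u a ha g => ?_⟩
  simp only [step u a ha g, act, first, inv_inv]
  rw [hν' u _ (N'.pi_mem u g), hν' u _ (mul_mem (N'.pi_mem u g) ha)]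

namespace IsTr

variable {N' : NF Λ P'} {μ μ' : S → W' → W} {F F' : W' → W}

theorem mul_cart (hF : IsTr N' μ F) {k : W'} (hk : k ∈ cart P') (g : W') :
    F (k * g) = F k * F g := by
  refine N'.gp.induction_right (p := fun g => F (k * g) = F k * F g) (by simp [hF.one])
    (fun g u a ha ih => ?_) g
  rw [← mul_assoc, hF.mul u a ha, hF.mul u a ha, ih, map_mul, N'.mem_cart.1 hk u, one_mul,
    mul_assoc]

theorem congr (hF : IsTr N' μ F) (hF' : IsTr N' μ' F') {T : Set S}
    (h : ∀ u ∈ T, ∀ a ∈ P' u, μ u a = μ' u a) {g : W'} (hg : g ∈ par P' T) : F g = F' g := by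
  refine par_induction_right (p := fun g => F g = F' g) (by rw [hF.one, hF'.one])
    (fun g _ u hu a ha ih => ?_) hg
  rw [hF.mul u a ha, hF'.mul u a ha, ih, h u hu _ (N'.pi_mem u g),
    h u hu _ (mul_mem (N'.pi_mem u g) ha)]

theorem step_mem {φ : S → V} (hμ : ∀ u, ∀ a ∈ P' u, μ u a ∈ P (φ u)) {u : S} {a : W'}
    (ha : a ∈ P' u) (g : W') : (μ u (N'.pi u g))⁻¹ * μ u (N'.pi u g * a) ∈ P (φ u) :=
  mul_mem (inv_mem (hμ u _ (N'.pi_mem u g))) (hμ u _ (mul_mem (N'.pi_mem u g) ha))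

theorem step_ne (hinj : ∀ u, Set.InjOn (μ u) (P' u)) {u : S} {a : W'} (ha : a ∈ P' u)
    (ha1 : a ≠ 1) (g : W') : (μ u (N'.pi u g))⁻¹ * μ u (N'.pi u g * a) ≠ 1 := by
  intro h
  rw [inv_mul_eq_one] at h
  have := hinj u (N'.pi_mem u g) (mul_mem (N'.pi_mem u g) ha) h
  exact ha1 (left_eq_mul.1 this)

theorem pi_apply (hF : IsTr N' μ F) (N : NF Γ P) (φ : Λ ↪g Γ)
    (hμ : ∀ u, ∀ a ∈ P' u, μ u a ∈ P (φ u)) (hμ1 : ∀ u, μ u 1 = 1) (u : S) (g : W') :
    N.pi (φ u) (F g) = μ u (N'.pi u g) := by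
  refine N'.gp.induction_right (p := fun g => N.pi (φ u) (F g) = μ u (N'.pi u g))
    (by simp [hF.one, hμ1]) (fun g w a ha ih => ?_) g
  have hb := step_mem (N' := N') hμ ha g
  rw [hF.mul w a ha, map_mul, map_mul (N'.pi u), ih]
  by_cases hw : w = u
  · subst hw
    rw [N.pi_self _ _ hb, N'.pi_self w a ha, mul_inv_cancel_left]
  · rw [N.pi_ne _ _ (fun e => hw (φ.injective e)) _ hb, N'.pi_ne w u hw a ha, mul_one, mul_one]

theorem pi_out (hF : IsTr N' μ F) (N : NF Γ P) (φ : Λ ↪g Γ)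
    (hμ : ∀ u, ∀ a ∈ P' u, μ u a ∈ P (φ u)) {v : V} (hv : ∀ u, φ u ≠ v) (g : W') :
    N.pi v (F g) = 1 := by
  refine N'.gp.induction_right (p := fun g => N.pi v (F g) = 1)
    (by simp [hF.one]) (fun g w a ha ih => ?_) g
  rw [hF.mul w a ha, map_mul, ih, N.pi_ne _ v (hv w) _ (step_mem hμ ha g), one_mul]

theorem mem_par_image (hF : IsTr N' μ F) {φ : S → V} (hμ : ∀ u, ∀ a ∈ P' u, μ u a ∈ P (φ u))
    {T : Set S} {g : W'} (hg : g ∈ par P' T) : F g ∈ par P (φ '' T) := by
  refine par_induction_right (p := fun g => F g ∈ par P (φ '' T)) (by rw [hF.one]; exact one_mem _)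
    (fun g _ u hu a ha ih => ?_) hg
  rw [hF.mul u a ha]
  exact mul_mem ih (mem_par (Set.mem_image_of_mem _ hu) (step_mem hμ ha g))

theorem hd_out (hF : IsTr N' μ F) (N : NF Γ P) (φ : Λ ↪g Γ)
    (hμ : ∀ u, ∀ a ∈ P' u, μ u a ∈ P (φ u)) {v : V} (hv : ∀ u, φ u ≠ v) (g : W') :
    N.hd v (F g) = 1 :=
  N.hd_par (T := φ '' Set.univ) (by rintro ⟨u, -, hu⟩; exact hv u hu)
    (hF.mem_par_image hμ (N'.gp.mem_par_univ g))

theorem tl_ne_one (hF : IsTr N' μ F) (N : NF Γ P) (φ : Λ ↪g Γ)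
    (hμ : ∀ u, ∀ a ∈ P' u, μ u a ∈ P (φ u)) (hinj : ∀ u, Set.InjOn (μ u) (P' u)) (g : W') :
    ∀ v, N.tl v (F g) ≠ 1 ↔ ∃ u, v = φ u ∧ N'.tl u g ≠ 1 := by
  refine N'.ind_right (fun g => ∀ v, N.tl v (F g) ≠ 1 ↔ ∃ u, v = φ u ∧ N'.tl u g ≠ 1)
    (fun v => by simp [hF.one, N.tl_one, N'.tl_one]) (fun u a ha ha1 g hg ih v => ?_) g
  have h0 : N.tl (φ u) (F g) = 1 := by
    by_contra h
    obtain ⟨u', e, hu'⟩ := (ih _).1 h
    rw [← φ.injective e] at hu'
    exact hu' hg
  rw [hF.mul u a ha, N.tl_mul_ne_one (step_mem hμ ha g) (step_ne hinj ha ha1 g) h0, ih]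
  simp only [N'.tl_mul_ne_one ha ha1 hg]
  constructor
  · rintro (rfl | ⟨h1, u', rfl, h2⟩)
    · exact ⟨u, rfl, Or.inl rfl⟩
    · exact ⟨u', rfl, Or.inr ⟨φ.map_adj_iff.1 h1, h2⟩⟩
  · rintro ⟨u', rfl, rfl | ⟨h1, h2⟩⟩
    · exact Or.inl rfl
    · exact Or.inr ⟨φ.map_adj_iff.2 h1, u', rfl, h2⟩

theorem tl_eq_one (hF : IsTr N' μ F) (N : NF Γ P) (φ : Λ ↪g Γ)
    (hμ : ∀ u, ∀ a ∈ P' u, μ u a ∈ P (φ u)) (hinj : ∀ u, Set.InjOn (μ u) (P' u)) {u : S} {g : W'}
    (hg : N'.tl u g = 1) : N.tl (φ u) (F g) = 1 := by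
  by_contra h
  obtain ⟨u', e, hu'⟩ := (hF.tl_ne_one N φ hμ hinj g _).1 h
  rw [← φ.injective e] at hu'
  exact hu' hg

theorem len_eq (hF : IsTr N' μ F) (N : NF Γ P) (φ : Λ ↪g Γ)
    (hμ : ∀ u, ∀ a ∈ P' u, μ u a ∈ P (φ u)) (hinj : ∀ u, Set.InjOn (μ u) (P' u)) (g : W') :
    N.len (F g) = N'.len g := by
  refine N'.ind_right (fun g => N.len (F g) = N'.len g)
    (by simp only [hF.one, N.len_one, N'.len_one]) (fun u a ha ha1 g hg ih => ?_) g
  rw [hF.mul u a ha, N.len_mul_right (step_mem hμ ha g) (step_ne hinj ha ha1 g)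
    (hF.tl_eq_one N φ hμ hinj hg), N'.len_mul_right ha ha1 hg, ih]

theorem mem_par_preimage (hF : IsTr N' μ F) (N : NF Γ P) (φ : Λ ↪g Γ)
    (hμ : ∀ u, ∀ a ∈ P' u, μ u a ∈ P (φ u)) (hinj : ∀ u, Set.InjOn (μ u) (P' u)) {T : Set V}
    (g : W') : F g ∈ par P T → g ∈ par P' (φ ⁻¹' T) := by
  refine N'.ind_right (fun g => F g ∈ par P T → g ∈ par P' (φ ⁻¹' T))
    (fun _ => Subgroup.one_mem _) (fun u a ha ha1 g hg ih h => ?_) g
  rw [hF.mul u a ha] at h
  obtain ⟨h1, h2⟩ := N.mem_par_of_mul (step_mem hμ ha g) (step_ne hinj ha ha1 g)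
    (hF.tl_eq_one N φ hμ hinj hg) h
  exact mul_mem (ih h2) (mem_par (T := φ ⁻¹' T) (v := u) (Set.mem_preimage.2 h1) ha)

theorem hd_apply (hF : IsTr N' μ F) (N : NF Γ P) (φ : Λ ↪g Γ)
    (hμ : ∀ u, ∀ a ∈ P' u, μ u a ∈ P (φ u)) (hμ1 : ∀ u, μ u 1 = 1)
    (hinj : ∀ u, Set.InjOn (μ u) (P' u)) (u : S) (g : W') :
    N.hd (φ u) (F g) = μ u (N'.hd u g) := by
  refine N'.ind_right (fun g => N.hd (φ u) (F g) = μ u (N'.hd u g))
    (by simp only [hF.one, N.spec.one, N'.spec.one, hμ1]) (fun w a ha ha1 g hg ih => ?_) g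
  have hb := step_mem (N' := N') hμ ha g
  rw [hF.mul w a ha]
  by_cases hw : w = u
  · subst hw
    by_cases hc : g ∈ par P' (Λ.neighborSet w)
    · have h1 : F g ∈ par P (Γ.neighborSet (φ w)) := by
        refine par_mono ?_ (hF.mem_par_image hμ hc)
        rintro _ ⟨x, hx, rfl⟩
        exact φ.map_adj_iff.2 hx
      rw [N.hd_par_mul h1, N.hd_self hb, N'.hd_par_mul hc, N'.hd_self ha,
        N'.pi_par (by simp) hc, hμ1, inv_one, one_mul, one_mul]
    · have h1 : N'.hd w (g * a) = N'.hd w g := by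
        by_contra h
        exact hc (TrAux.mem_par_of_change N' ha hg h)
      rw [h1, ← ih]
      by_contra h
      have h2 := TrAux.mem_par_of_change N hb (hF.tl_eq_one N φ hμ hinj hg) h
      refine hc (par_mono (fun x hx => ?_) (hF.mem_par_preimage N φ hμ hinj g h2))
      exact φ.map_adj_iff.1 hx
  · rw [N.spec.right _ _ (fun e => hw (φ.injective e)) _ hb, N'.spec.right w u hw a ha, ih]

end IsTr

end Pool.Agent.MP_4f4d9f_gt

end

section

/-! The coarse Borsuk-Ulam property of thick graph products. -/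

open Finset

namespace Pool.Agent.MP_4f4d9f_gt

theorem exists_racg {S : Type} (Λ : SimpleGraph S) :
    ∃ (W : Type) (_ : Group W) (P : S → Subgroup W) (r : S → W), IsGraphProd Λ P ∧ IsRefl P r := by
  obtain ⟨W, _, P, hP, he⟩ := exists_graphProd Λ fun _ => Multiplicative (ZMod 2)
  have e := fun v => (he v).some
  refine ⟨W, inferInstance, P, fun u => e u (Multiplicative.ofAdd 1), hP, fun u => Subtype.prop _,
    fun u h => ?_, fun u a ha => ?_⟩
  · have : e u (Multiplicative.ofAdd 1) = 1 := Subtype.ext h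
    rw [map_eq_one_iff _ (e u).injective] at this
    exact absurd this (by decide)
  · obtain ⟨x, hx⟩ := (e u).surjective ⟨a, ha⟩
    have h2 : ∀ x : Multiplicative (ZMod 2), x = 1 ∨ x = Multiplicative.ofAdd 1 := by decide
    rcases h2 x with rfl | rfl
    · rw [map_one] at hx
      exact Or.inl (congrArg Subtype.val hx).symm
    · exact Or.inr (congrArg Subtype.val hx).symm

section

variable {S W : Type} [Fintype S] [DecidableEq S] [Group W] {Λ : SimpleGraph S}
  {P : S → Subgroup W} {N : NF Λ P} {r : S → W}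

theorem mem_inn {w : W} {A : Finset S} {u : S} :
    u ∈ inn N r w A ↔ N.hd u w ≠ 1 ∨ (u ∈ A ∧ N.hd u (w * r u) ≠ 1) := by
  simp [inn]

theorem YVal.inn_far (hr : IsRefl P r) {c : YCell S W} (hc : YVal N r c) {v : S} (hv : v ∈ c.A) :
    inn N r c.w c.A ⊆ inn N r (c.w * r v) (c.A.erase v) := by
  intro u hu
  rw [mem_inn] at hu ⊢
  by_cases e : u = v
  · subst e
    left
    intro h
    rcases hu with hu | hu
    · have := (N.hd_of_change (hr.mem u) (by rw [h]; exact hu.symm)).1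
      exact hu (this.trans (hc.even u hv))
    · exact hu.2 h
  · rw [N.spec.right v u (Ne.symm e) _ (hr.mem v)]
    refine hu.imp_right fun hu => ⟨mem_erase.2 ⟨e, hu.1⟩, ?_⟩
    rw [mul_assoc, N.gp.comm v u (hc.clique hv hu.1 (Ne.symm e)) _ (hr.mem v) _ (hr.mem u),
      ← mul_assoc, N.spec.right v u (Ne.symm e) _ (hr.mem v)]
    exact hu.2

theorem YVal.sign_mem {c : YCell S W} (hc : YVal N r c) {u : S} (hu : N.hd u c.w ≠ 1) :
    (u, decide ((u, false) ∉ c.σ)) ∈ c.σ := by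
  have h : u ∈ c.σ.image Prod.fst := by
    rw [hc.image, mem_inn]
    exact Or.inl hu
  obtain ⟨⟨u', s⟩, h1, rfl⟩ := mem_image.1 h
  by_cases h2 : (u', false) ∈ c.σ
  · simpa [h2] using h2
  · cases s
    · exact absurd h1 h2
    · simpa [h2] using h1

end

theorem groupBU_of_not_exact {V W : Type} [Group W] {Γ : SimpleGraph V} {P : V → Subgroup W}
    (N : NF Γ P) (a : V → Bool → W) (ha : ∀ v s, a v s ∈ P v) (ha1 : ∀ v s, a v s ≠ 1)
    (ha' : ∀ v, a v true ≠ a v false) {S : Type} [Fintype S] [DecidableEq S] {Λ : SimpleGraph S}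
    (φ : Λ ↪g Γ) {p : ℕ} (hp : 1 ≤ p) (h : ¬ ExactTwo Λ p) :
    GroupBU {x | (∀ u, N.pi (φ u) x = 1 ∨ ∃ s, N.pi (φ u) x = a (φ u) s) ∧
      ∀ v, (∀ u, φ u ≠ v) → N.pi v x = 1} (2 * p - 1) := by
  classical
  obtain ⟨W₂, _, P₂, r, hP₂, hr⟩ := exists_racg Λ
  obtain ⟨N₂⟩ := nonempty_NF hP₂
  let μ (σ : Finset (S × Bool)) (u : S) (x : W₂) : W :=
    if x = 1 then 1 else a (φ u) (decide ((u, false) ∉ σ))
  have hμ : ∀ σ u, ∀ x ∈ P₂ u, μ σ u x ∈ P (φ u) := fun σ u x _ => by
    simp only [μ]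
    split_ifs
    · exact one_mem _
    · exact ha _ _
  have hμ1 : ∀ σ u, μ σ u 1 = 1 := fun σ u => if_pos rfl
  have hinj : ∀ σ u, Set.InjOn (μ σ u) (P₂ u) := fun σ u x hx y hy e => by
    rcases hr.all u x hx with rfl | rfl <;> rcases hr.all u y hy with rfl | rfl
    · rfl
    · simp only [μ, if_pos, if_neg (hr.ne u)] at e
      exact absurd e.symm (ha1 _ _)
    · simp only [μ, if_pos, if_neg (hr.ne u)] at e
      exact absurd e (ha1 _ _)
    · rfl
  choose F hF using fun σ => exists_tr N₂ N.gp φ (μ σ) (hμ σ)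
  let T : Set W := {1} ∪ Set.range fun t : S × Bool => a (φ t.1) t.2
  have hT : T.Finite := (Set.finite_singleton 1).union (Set.finite_range _)
  have hμT : ∀ σ u x, μ σ u x ∈ T := fun σ u x => by
    simp only [μ]
    split_ifs
    · exact Or.inl rfl
    · exact Or.inr ⟨(u, _), rfl⟩
  have h1D : (1 : W) ∈ Set.image2 (fun x y : W => x⁻¹ * y) T T :=
    ⟨1, Or.inl rfl, 1, Or.inl rfl, by simp⟩
  refine ⟨YCell S W₂ × YCell S W₂, {q | PVal N₂ r q}, pbd N₂ r, Prod.swap,
    fun q => F q.1.σ q.1.w, Set.image2 (fun x y => x⁻¹ * y) T T, hT.image2 _ hT, Prod.swap_swap,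
    fun q hq => PVal.swap hq, fun q hq => PVal.swap_ne hq, fun q _ => ⟨fun u => ?_, fun v hv => ?_⟩,
    fun q hq t ht => ⟨PVal.face hr hq ht, ?_⟩, fun q hq => pbd_pbd hr hq.fst.clique hq.snd.clique,
    fun q _ => pbd_aug _, fun q _ => by rw [← pbd_swap, Finsupp.mapDomain_single], ?_⟩
  · rw [(hF _).pi_apply N φ (hμ _) (hμ1 _)]
    simp only [μ]
    split_ifs
    · exact Or.inl rfl
    · exact Or.inr ⟨_, rfl⟩
  · exact (hF _).pi_out N φ (hμ _) hv _
  · have hc : YVal N₂ r q.1 := hq.fst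
    rcases mem_support_pbd ht with ⟨-, v, hv, e | e⟩ | ⟨e, -⟩
    · have key : ∀ u, (u ∈ inn N₂ r q.1.w q.1.A → u ∈ inn N₂ r q.1.w (q.1.A.erase v)) →
          ∀ x ∈ P₂ u, μ t.1.σ u x = μ q.1.σ u x := by
        intro u hu x _
        have : (u, false) ∈ t.1.σ ↔ (u, false) ∈ q.1.σ := by
          rw [e, ycut, mem_filter, and_iff_left_iff_imp]
          intro h1
          exact hu (hc.image ▸ mem_image_of_mem Prod.fst h1)
        simp only [μ, this]
      have hw : t.1.w = q.1.w := by rw [e, ycut]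
      have : F t.1.σ t.1.w = F q.1.σ q.1.w := by
        rw [hw]
        by_cases hx : N₂.hd v q.1.w = 1 ∧ N₂.hd v (q.1.w * r v) ≠ 1
        · have hm := N₂.spec.change v _ (hr.mem v) q.1.w (by rw [hx.1]; exact hx.2)
          rw [hx.1, inv_one, one_mul] at hm
          refine (hF _).congr (hF _) (fun u hu => key u fun h1 => ?_) hm
          rw [mem_inn] at h1 ⊢
          exact h1.imp_right fun h1 => ⟨mem_erase.2 ⟨(Λ.ne_of_adj hu).symm, h1.1⟩, h1.2⟩
        · refine (hF _).congr (hF _) (T := Set.univ) (fun u _ => key u fun h1 => ?_)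
            (hP₂.mem_par_univ _)
          rw [mem_inn] at h1 ⊢
          by_cases huv : u = v
          · subst huv
            left
            intro h2
            exact hx ⟨h2, (h1.resolve_left (not_not.2 h2)).2⟩
          · exact h1.imp_right fun h1 => ⟨mem_erase.2 ⟨huv, h1.1⟩, h1.2⟩
      simp only [this, inv_mul_cancel]
      exact h1D
    · have hσ : t.1.σ = q.1.σ := by
        rw [e, ycut]
        refine filter_true_of_mem fun x hx => hc.inn_far hr hv ?_
        exact hc.image ▸ mem_image_of_mem Prod.fst hx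
      have hw : t.1.w = q.1.w * r v := by rw [e, ycut]
      simp only [hσ, hw, (hF _).mul v _ (hr.mem v), inv_mul_cancel_left]
      exact ⟨_, hμT _ _ _, _, hμT _ _ _, rfl⟩
    · simp only [e, inv_mul_cancel]
      exact h1D
  · intro F₀ hF₀
    obtain ⟨R, hR⟩ := (hF₀.image N.len).bddAbove
    obtain ⟨e, h1, h2, h3⟩ := ycomb N₂ hr hp h (2 * R + 1)
    refine ⟨e, fun i hi q hq => ⟨(h1 i hi q hq).1, fun hmem => ?_⟩, h2, h3⟩
    obtain ⟨hv, hl⟩ := h1 i hi q hq
    have hle := hR ⟨_, hmem, rfl⟩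
    have hd : ∀ v, N.hd v (F q.1.σ q.1.w) = N.hd v (F q.2.σ q.2.w) →
        N.hd v (F q.1.σ q.1.w) = 1 := by
      intro v e
      by_cases hvφ : ∀ u, φ u ≠ v
      · exact (hF _).hd_out N φ (hμ _) hvφ _
      obtain ⟨u, hu⟩ := not_forall.1 hvφ
      obtain rfl := not_not.1 hu
      rw [(hF _).hd_apply N φ (hμ _) (hμ1 _) (hinj _)] at e ⊢
      rw [(hF _).hd_apply N φ (hμ _) (hμ1 _) (hinj _)] at e
      by_cases e1 : N₂.hd u q.1.w = 1
      · rw [e1, hμ1]
      by_cases e2 : N₂.hd u q.2.w = 1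
      · rw [e, e2, hμ1]
      exfalso
      simp only [μ, if_neg e1, if_neg e2] at e
      have m1 := hv.fst.sign_mem e1
      have m2 := hv.snd.sign_mem e2
      have : decide ((u, false) ∉ q.1.σ) = decide ((u, false) ∉ q.2.σ) := by
        generalize decide ((u, false) ∉ q.1.σ) = s at e
        generalize decide ((u, false) ∉ q.2.σ) = s' at e
        cases s <;> cases s'
        · rfl
        · exact absurd e.symm (ha' _)
        · exact absurd e (ha' _)
        · rfl
      exact disjoint_left.1 hv.disj m1 (this ▸ m2)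
    have l1 := N.len_le_of_hd hd
    have l2 := N.len_le_of_hd' hd
    rw [(hF _).len_eq N φ (hμ _) (hinj _)] at l1 l2
    dsimp only [Prod.fst_swap] at hle
    omega

end Pool.Agent.MP_4f4d9f_gt

end

section

/-! From the coarse Borsuk-Ulam property to singular chains off the diagonal. -/

namespace Pool.Agent.MP_4f4d9f_gt

namespace FarAbs

open Finsupp

section Abstract

variable {Z : Type} [TopologicalSpace Z]

/-- Push-forward along a homeomorphism. -/
noncomputable def ph (φ : Z ≃ₜ Z) (k : ℕ) : (Sing Z k →₀ ZMod 2) →ₗ[ZMod 2] (Sing Z k →₀ ZMod 2) :=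
  push (ZMod 2) ⟨φ, φ.continuous⟩ k

theorem ph_ph (φ ψ : Z ≃ₜ Z) (k : ℕ) (c : Sing Z k →₀ ZMod 2) :
    ph φ k (ph ψ k c) = ph (φ * ψ) k c := push_push _ _ _ _ _

theorem ph_one (k : ℕ) (c : Sing Z k →₀ ZMod 2) : ph 1 k c = c := push_id _ k c

theorem bd_ph (φ : Z ≃ₜ Z) (k : ℕ) (c : Sing Z (k + 1) →₀ ZMod 2) :
    bd (ZMod 2) Z k (ph φ (k + 1) c) = ph φ k (bd (ZMod 2) Z k c) := bd_push _ _ _ _

theorem aug_ph (φ : Z ≃ₜ Z) (c : Sing Z 0 →₀ ZMod 2) :
    aug (ZMod 2) Z (ph φ 0 c) = aug (ZMod 2) Z c := aug_push _ _ _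

open Classical in
/-- A chosen filling. -/
noncomputable def fill (k : ℕ) (c : Sing Z k →₀ ZMod 2) : Sing Z (k + 1) →₀ ZMod 2 :=
  if h : ∃ b, bd (ZMod 2) Z k b = c then h.choose else 0

theorem bd_fill {k : ℕ} {c : Sing Z k →₀ ZMod 2} (h : ∃ b, bd (ZMod 2) Z k b = c) :
    bd (ZMod 2) Z k (fill k c) = c := by
  unfold fill
  rw [dif_pos h]
  exact h.choose_spec

variable {Q : Type} (d : (Q →₀ ZMod 2) →ₗ[ZMod 2] (Q →₀ ZMod 2)) (γ : Q → Z ≃ₜ Z)
  (pt : Sing Z 0)

/-- The chain attached to a cell. -/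
noncomputable def chi : (i : ℕ) → Q → (Sing Z i →₀ ZMod 2)
  | 0, q => ph (γ q) 0 (single pt 1)
  | i + 1, q => ph (γ q) (i + 1)
      (fill i (ph (γ q)⁻¹ i (linearCombination (ZMod 2) (chi i) (d (single q 1)))))

/-- The linear extension. -/
noncomputable abbrev LL (i : ℕ) : (Q →₀ ZMod 2) →ₗ[ZMod 2] (Sing Z i →₀ ZMod 2) :=
  linearCombination (ZMod 2) (chi d γ pt i)

theorem lin_ext {M : Type} [AddCommGroup M] [Module (ZMod 2) M] {Val : Set Q}
    {f g : (Q →₀ ZMod 2) →ₗ[ZMod 2] M} (h : ∀ q ∈ Val, f (single q 1) = g (single q 1))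
    {x : Q →₀ ZMod 2} (hx : ∀ q ∈ x.support, q ∈ Val) : f x = g x := by
  rw [← x.sum_single, Finsupp.sum, map_sum, map_sum]
  refine Finset.sum_congr rfl fun q hq => ?_
  rw [← smul_single_one, map_smul, map_smul, h q (hx q hq)]

theorem aug_LL (x : Q →₀ ZMod 2) :
    aug (ZMod 2) Z (LL d γ pt 0 x) = x.sum (fun _ a => a) := by
  rw [linearCombination_apply, Finsupp.sum, Finsupp.sum, map_sum]
  refine Finset.sum_congr rfl fun q _ => ?_
  rw [map_smul, chi, aug_ph, aug_single, smul_eq_mul, mul_one]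

variable {d γ} {Val : Set Q}

theorem LL_tau {τ : Q → Q} {t : Z ≃ₜ Z} (hγ : ∀ q ∈ Val, γ (τ q) = t * γ q)
    (hd : ∀ q ∈ Val, ∀ r ∈ (d (single q 1)).support, r ∈ Val)
    (hτ : ∀ q ∈ Val, d (single (τ q) 1) = (d (single q 1)).mapDomain τ) (i : ℕ) :
    ∀ x : Q →₀ ZMod 2, (∀ q ∈ x.support, q ∈ Val) →
      LL d γ pt i (x.mapDomain τ) = ph t i (LL d γ pt i x) := by
  induction i with
  | zero =>
    intro x hx
    refine lin_ext (f := LL d γ pt 0 ∘ₗ lmapDomain _ _ τ) (g := ph t 0 ∘ₗ LL d γ pt 0)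
      (fun q hq => ?_) hx
    simp only [LinearMap.comp_apply, lmapDomain_apply, mapDomain_single, linearCombination_single,
      one_smul, chi, ph_ph, hγ q hq]
  | succ i ih =>
    intro x hx
    refine lin_ext (f := LL d γ pt (i + 1) ∘ₗ lmapDomain _ _ τ)
      (g := ph t (i + 1) ∘ₗ LL d γ pt (i + 1)) (fun q hq => ?_) hx
    simp only [LinearMap.comp_apply, lmapDomain_apply, mapDomain_single, linearCombination_single,
      one_smul, chi, ph_ph, hγ q hq, hτ q hq, ih _ (hd q hq), mul_inv_rev, inv_mul_cancel_right]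

theorem bd_LL (hac : Acyclic (ZMod 2) Z)
    (hd : ∀ q ∈ Val, ∀ r ∈ (d (single q 1)).support, r ∈ Val)
    (hdd : ∀ q ∈ Val, d (d (single q 1)) = 0)
    (haug : ∀ q ∈ Val, (d (single q 1)).sum (fun _ a => a) = 0) (i : ℕ) :
    ∀ x : Q →₀ ZMod 2, (∀ q ∈ x.support, q ∈ Val) →
      bd (ZMod 2) Z i (LL d γ pt (i + 1) x) = LL d γ pt i (d x) := by
  induction i with
  | zero =>
    intro x hx
    refine lin_ext (f := bd (ZMod 2) Z 0 ∘ₗ LL d γ pt 1) (g := LL d γ pt 0 ∘ₗ d)
      (fun q hq => ?_) hx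
    simp only [LinearMap.comp_apply, linearCombination_single, one_smul]
    rw [chi, bd_ph, bd_fill (hac.zero _ (by rw [aug_ph, aug_LL, haug q hq])), ph_ph,
      mul_inv_cancel, ph_one]
  | succ i ih =>
    intro x hx
    refine lin_ext (f := bd (ZMod 2) Z (i + 1) ∘ₗ LL d γ pt (i + 2))
      (g := LL d γ pt (i + 1) ∘ₗ d) (fun q hq => ?_) hx
    simp only [LinearMap.comp_apply, linearCombination_single, one_smul]
    rw [chi, bd_ph, bd_fill (hac.succ _ _ (by
      rw [bd_ph, ih _ (hd q hq), hdd q hq, map_zero, map_zero])), ph_ph, mul_inv_cancel, ph_one]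

theorem finite_chi {Δ : Set (Z ≃ₜ Z)} (hΔ : Δ.Finite)
    (hd : ∀ q ∈ Val, ∀ r ∈ (d (single q 1)).support, r ∈ Val ∧ (γ q)⁻¹ * γ r ∈ Δ) (i : ℕ) :
    ∃ S : Set (Sing Z i →₀ ZMod 2), S.Finite ∧ ∀ q ∈ Val, ∃ s ∈ S, chi d γ pt i q = ph (γ q) i s := by
  induction i with
  | zero => exact ⟨{single pt 1}, Set.finite_singleton _, fun q _ => ⟨_, rfl, rfl⟩⟩
  | succ i ih =>
    obtain ⟨S, hS, h⟩ := ih
    have hT := hΔ.image2 (fun φ s => ph φ i s) hS
    have : Module.Finite (ZMod 2) (Submodule.span (ZMod 2) (Set.image2 (fun φ s => ph φ i s) Δ S)) :=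
      Module.Finite.span_of_finite _ hT
    have hU : Finite (Submodule.span (ZMod 2) (Set.image2 (fun φ s => ph φ i s) Δ S)) :=
      Module.finite_of_finite (ZMod 2)
    refine ⟨fill i '' (Submodule.span (ZMod 2) (Set.image2 (fun φ s => ph φ i s) Δ S) : Set _),
      (Set.toFinite _).image _, fun q hq => ⟨_, ⟨_, ?_, rfl⟩, rfl⟩⟩
    rw [linearCombination_apply, Finsupp.sum, map_sum]
    refine sum_mem fun r hr => ?_
    obtain ⟨s, hs, e⟩ := h r (hd q hq r hr).1
    rw [map_smul, e, ph_ph]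
    exact Submodule.smul_mem _ _ (Submodule.subset_span ⟨_, (hd q hq r hr).2, s, hs, rfl⟩)

end Abstract

section Prod

variable {G X : Type} [Group G] [TopologicalSpace X] [MulAction G X] [ContinuousConstSMul G X]

variable (X) in
/-- The action of a pair of group elements on the square. -/
def hom (g g' : G) : X × X ≃ₜ X × X := (Homeomorph.smul g).prodCongr (Homeomorph.smul g')

theorem hom_apply (g g' : G) (z : X × X) : hom X g g' z = (g • z.1, g' • z.2) := rfl

theorem hom_inv_mul (a b c e : G) :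
    (hom X a b)⁻¹ * hom X c e = hom X (a⁻¹ * c) (b⁻¹ * e) := by
  rw [inv_mul_eq_iff_eq_mul]
  refine Homeomorph.ext fun z => ?_
  change (c • z.1, e • z.2) = (a • (a⁻¹ * c) • z.1, b • (b⁻¹ * e) • z.2)
  simp [mul_smul]

theorem exists_K {m : ℕ} (S : (i : ℕ) → Set (Sing (X × X) i →₀ ZMod 2))
    (hS : ∀ i, (S i).Finite) :
    ∃ K : Set X, IsCompact K ∧ ∀ i ≤ m, ∀ s ∈ S i, s ∈ supp (ZMod 2) (K ×ˢ K) i := by
  choose K hK _ hK' using fun (i : ℕ) (s : Sing (X × X) i →₀ ZMod 2) =>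
    exists_compact_supp (mem_supp_univ s)
  have h : IsCompact (⋃ i ∈ Set.Iic m, ⋃ s ∈ S i, K i s) :=
    (Set.finite_Iic m).isCompact_biUnion fun i _ => (hS i).isCompact_biUnion fun s _ => hK i s
  refine ⟨Prod.fst '' _ ∪ Prod.snd '' _, (h.image continuous_fst).union (h.image continuous_snd),
    fun i hi s hs => supp_mono (fun z hz => ?_) i (hK' i s)⟩
  have : z ∈ ⋃ i ∈ Set.Iic m, ⋃ s ∈ S i, K i s := Set.mem_biUnion hi (Set.mem_biUnion hs hz)
  exact ⟨Or.inl ⟨z, this, rfl⟩, Or.inr ⟨z, this, rfl⟩⟩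

end Prod

end FarAbs

open FarAbs in
theorem hasBU_of_groupBU {G X : Type} [Group G] [TopologicalSpace X] [MulAction G X]
    [ContinuousConstSMul G X]
    (hprop : ∀ K : Set X, IsCompact K → {g : G | ((g • ·) '' K ∩ K).Nonempty}.Finite)
    (hac : Acyclic (ZMod 2) (X × X)) {Ω : Set G} {m : ℕ} (h : GroupBU Ω m) : HasBU X m := by
  classical
  obtain ⟨Q, Val, d, τ, y, D, h⟩ := h
  obtain ⟨_, -⟩ := exists_wellFoundedLT Q
  obtain ⟨z₀⟩ := hac.nonempty
  let pt : Sing (X × X) 0 := ContinuousMap.const _ z₀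
  let t : X × X ≃ₜ X × X := Homeomorph.prodComm X X
  let s : Q → X × X ≃ₜ X × X := fun q => if q < τ q then 1 else t
  let γ : Q → X × X ≃ₜ X × X := fun q => hom X (y q) (y (τ q)) * s q
  have hs : ∀ q, s q ∈ ({1, t} : Set (X × X ≃ₜ X × X)) := fun q => by
    by_cases hq : q < τ q <;> simp [s, hq]
  have hγ : ∀ q ∈ Val, γ (τ q) = t * γ q := fun q hq => by
    rcases lt_or_gt_of_ne (h.τ_ne q hq) with h₁ | h₁
    · simp only [γ, s, h.τ_τ, if_pos h₁, if_neg h₁.not_gt]
      exact Homeomorph.ext fun z => rfl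
    · simp only [γ, s, h.τ_τ, if_pos h₁, if_neg h₁.not_gt]
      exact Homeomorph.ext fun z => rfl
  have hd : ∀ q ∈ Val, ∀ r ∈ (d (Finsupp.single q 1)).support, r ∈ Val :=
    fun q hq r hr => (h.d_mem q hq r hr).1
  have hτ : Function.Injective τ := Function.LeftInverse.injective h.τ_τ
  have h2 : ({1, t} : Set (X × X ≃ₜ X × X)).Finite := Set.toFinite _
  have hΔ := ((h2.prod h2).prod (h.fin.prod h.fin)).image
    fun p => p.1.1⁻¹ * hom X p.2.1 p.2.2 * p.1.2
  choose S hS hS' using finite_chi (d := d) (γ := γ) (Val := Val) pt hΔ fun q hq r hr => by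
    refine ⟨hd q hq r hr, ((s q, s r), ((y q)⁻¹ * y r, (y (τ q))⁻¹ * y (τ r))),
      ⟨⟨hs q, hs r⟩, (h.d_mem q hq r hr).2, (h.d_mem (τ q) (h.τ_mem q hq) (τ r) ?_).2⟩, ?_⟩
    · rw [h.d_τ q hq, Finsupp.mem_support_iff, Finsupp.mapDomain_apply hτ]
      exact Finsupp.mem_support_iff.1 hr
    · simp only [γ, ← hom_inv_mul, mul_inv_rev, mul_assoc]
  obtain ⟨K, hK, hKS⟩ := exists_K (m := m) S hS
  obtain ⟨e, h₁, h₂, h₃⟩ := h.far _ (hprop K hK)
  refine ⟨fun i => LL d γ pt i (e i), fun i hi => ?_, fun i hi => ?_, ?_⟩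
  · dsimp only
    rw [Finsupp.linearCombination_apply, Finsupp.sum]
    refine sum_mem fun q hq => Submodule.smul_mem _ _ ?_
    obtain ⟨hq₁, hq₂⟩ := h₁ i hi q hq
    obtain ⟨c, hc, e⟩ := hS' i q hq₁
    rw [e]
    refine push_mem_supp (B := offDiag X) _ (fun z hz => ?_) (hKS i hi c hc)
    refine fun hz' => hq₂ ?_
    have hz₁ : s q z ∈ K ×ˢ K := by
      rcases hs q with h | h
      · rw [h]; exact hz
      · rw [h]; exact ⟨hz.2, hz.1⟩
    have hz₂ : y q • (s q z).1 = y (τ q) • (s q z).2 := hz'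
    refine ⟨(s q z).1, ⟨(s q z).2, hz₁.2, ?_⟩, hz₁.1⟩
    simp only [mul_smul, ← hz₂, inv_smul_smul]
  · dsimp only
    rw [bd_LL pt hac hd h.d_d h.d_aug i _ fun q hq => (h₁ (i + 1) hi q hq).1, h₂ i hi, map_add,
      LL_tau pt hγ hd h.d_τ i _ fun q hq => (h₁ i hi.le q hq).1]
    rfl
  · exact (aug_LL d γ pt _).trans h₃

theorem GroupBU.transfer {H W : Type} [Group H] [Group W] [MulAction H W]
    (hfree : ∀ (h : H) (c : W), h • c = c → h = 1)
    (hD : ∀ D : Set W, D.Finite →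
      {x : W | ∃ (h : H) (c d : W), d ∈ D ∧ x = (h • c)⁻¹ * h • (c * d)}.Finite)
    {Ω F₀ : Set W} (hF₀ : F₀.Finite) (hΩ : ∀ x ∈ Ω, ∃ h : H, h • x ∈ F₀) {m : ℕ}
    (h : GroupBU Ω m) : GroupBU (Set.univ : Set H) m := by
  obtain ⟨Q, Val, d, τ, y, D, h⟩ := h
  obtain ⟨η, hη⟩ : ∃ η : W → H, ∀ x ∈ Ω, (η x)⁻¹ • x ∈ F₀ := by
    choose! η hη using hΩ
    exact ⟨fun x => (η x)⁻¹, by simpa using hη⟩
  have hinj : ∀ f : W, Function.Injective fun k : H => k • f := fun f k k' e => by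
    have : (k'⁻¹ * k) • f = f := by
      rw [mul_smul, show k • f = k' • f from e, inv_smul_smul]
    exact (inv_mul_eq_one.1 (hfree _ _ this)).symm
  have hT := hF₀.image2 (· * ·) (hD D h.fin)
  refine ⟨Q, Val, d, τ, fun q => η (y q), ⋃ f ∈ F₀, (fun k : H => k • f) ⁻¹' _,
    hF₀.biUnion fun f _ => hT.preimage (hinj f).injOn, h.τ_τ, h.τ_mem, h.τ_ne,
    fun _ _ => trivial, fun q hq r hr => ?_, h.d_d, h.d_aug, h.d_τ, fun F hF => ?_⟩
  · obtain ⟨h₁, h₂⟩ := h.d_mem q hq r hr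
    refine ⟨h₁, Set.mem_biUnion (hη _ (h.y_mem r h₁)) ⟨_, hη _ (h.y_mem q hq), _,
      ⟨(η (y q))⁻¹, y q, _, h₂, rfl⟩, ?_⟩⟩
    simp [mul_smul]
  · have hE := ((hF₀.prod hF₀).prod hF).image fun p : (W × W) × H => p.1.1⁻¹ * p.2 • p.1.2
    obtain ⟨e, h₁, h₂, h₃⟩ := h.far _ (hD _ hE)
    refine ⟨e, fun i hi q hq => ⟨(h₁ i hi q hq).1, fun hk => (h₁ i hi q hq).2 ?_⟩, h₂, h₃⟩
    have hq₁ := (h₁ i hi q hq).1
    refine ⟨η (y q), (η (y q))⁻¹ • y q, _, ⟨((_, _), _),
      ⟨⟨hη _ (h.y_mem q hq₁), hη _ (h.y_mem _ (h.τ_mem q hq₁))⟩, hk⟩, rfl⟩, ?_⟩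
    simp [mul_smul]

end Pool.Agent.MP_4f4d9f_gt

end

section

/-! Finite subsets of a Cartesian subgroup lie in Cartesian subgroups of finite type. -/

namespace Pool.Agent.MP_4f4d9f_gt

variable {V W : Type} [Group W] {Γ : SimpleGraph V} {P : V → Subgroup W}

/-- Chambers that are joined to the base chamber by a gallery with types in `S` and coordinates
in the sets `B v`. -/
inductive Reach (N : NF Γ P) (S : Set V) (B : V → Set W) : W → Prop
  | one : Reach N S B 1
  | mul {g : W} (v : V) (a : W) : v ∈ S → a ∈ P v → N.pi v (g * a) ∈ B v → Reach N S B g →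
      Reach N S B (g * a)

theorem Reach.mono {N : NF Γ P} {S S' : Set V} {B B' : V → Set W} (hS : S ⊆ S')
    (hB : ∀ v, B v ⊆ B' v) {g : W} (h : Reach N S B g) : Reach N S' B' g := by
  induction h with
  | one => exact Reach.one
  | mul v a hv ha hb _ ih => exact Reach.mul v a (hS hv) ha (hB v hb) ih

theorem exists_reach (N : NF Γ P) (g : W) : ∃ (S : Set V) (B : V → Set W), S.Finite ∧
    (∀ v, (B v).Finite ∧ B v ⊆ P v) ∧ Reach N S B g := by
  refine N.gp.induction_right (p := fun g => ∃ (S : Set V) (B : V → Set W), S.Finite ∧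
    (∀ v, (B v).Finite ∧ B v ⊆ P v) ∧ Reach N S B g)
    ⟨∅, fun _ => ∅, Set.finite_empty, fun _ => ⟨Set.finite_empty, Set.empty_subset _⟩,
      Reach.one⟩ ?_ g
  rintro g v a ha ⟨S, B, hS, hB, h⟩
  exact ⟨insert v S, fun u => insert (N.pi u (g * a)) (B u), hS.insert v,
    fun u => ⟨(hB u).1.insert _, Set.insert_subset (N.pi_mem u _) (hB u).2⟩,
    Reach.mul v a (Set.mem_insert _ _) ha (Set.mem_insert _ _)
      (h.mono (Set.subset_insert _ _) fun u => Set.subset_insert _ _)⟩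

theorem exists_group_equiv {α : Type} {B : Set α} (hB : B.Finite) {x : α} (hx : x ∈ B) :
    ∃ (A : Type) (_ : Group A) (e : A ≃ B), Finite A ∧ (e 1 : α) = x := by
  classical
  haveI := hB.to_subtype
  haveI : Nonempty B := ⟨⟨x, hx⟩⟩
  haveI : NeZero (Nat.card B) := ⟨Nat.card_pos.ne'⟩
  obtain ⟨e⟩ : Nonempty (Multiplicative (ZMod (Nat.card B)) ≃ B) :=
    Finite.card_eq.1 ((Nat.card_congr Multiplicative.toAdd).trans (Nat.card_zmod _))
  exact ⟨Multiplicative (ZMod (Nat.card B)), inferInstance, e.trans (Equiv.swap (e 1) ⟨x, hx⟩),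
    inferInstance, by rw [Equiv.trans_apply, Equiv.swap_apply_left]⟩

theorem exists_finite_model (N : NF Γ P) (hnt : ∀ v, ∃ t ∈ P v, t ≠ 1) (T : Finset W)
    (hT : ∀ t ∈ T, t ∈ cart P) :
    ∃ (S : Finset V) (W' : Type) (_ : Group W') (P' : S → Subgroup W'),
      IsGraphProd (Γ.comap (Subtype.val : S → V)) P' ∧ (∀ u, Finite (P' u)) ∧
      (∀ u, ∃ t ∈ P' u, t ≠ 1) ∧
      ∃ ψ : cart P' →* W, Function.Injective ψ ∧ ∀ t ∈ T, t ∈ ψ.range := by
  classical
  choose S₀ B₀ hS₀ hB₀ hR using exists_reach N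
  choose t₀ ht₀ ht₁ using hnt
  have hS : (⋃ t ∈ T, S₀ t).Finite := T.finite_toSet.biUnion fun t _ => hS₀ t
  let S : Finset V := hS.toFinset
  let B (v : V) : Set W := insert 1 (insert (t₀ v) (⋃ t ∈ T, B₀ t v))
  have hB : ∀ v, (B v).Finite := fun v =>
    ((T.finite_toSet.biUnion fun t _ => (hB₀ t v).1).insert _).insert _
  have hBP : ∀ v, B v ⊆ P v := fun v => Set.insert_subset (one_mem _)
    (Set.insert_subset (ht₀ v) (Set.iUnion₂_subset fun t _ => (hB₀ t v).2))
  choose A instA e hA he using fun u : S => exists_group_equiv (hB u) (Set.mem_insert 1 _)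
  obtain ⟨W', _, P', hP', he'⟩ := exists_graphProd (Γ.comap (Subtype.val : S → V)) A
  have e' := fun u => (he' u).some
  obtain ⟨N'⟩ := nonempty_NF hP'
  let φ : Γ.comap (Subtype.val : S → V) ↪g Γ := ⟨⟨Subtype.val, Subtype.val_injective⟩, Iff.rfl⟩
  let μ (u : S) (x : W') : W := if h : x ∈ P' u then e u ((e' u).symm ⟨x, h⟩) else 1
  have hμe : ∀ u (y : A u), μ u (e' u y) = e u y := fun u y => by simp [μ]
  have hμ : ∀ u, ∀ x ∈ P' u, μ u x ∈ P (φ u) := fun u x hx => by
    simp only [μ, dif_pos hx]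
    exact hBP u (Subtype.prop _)
  have hμ1 : ∀ u, μ u 1 = 1 := fun u => by
    have := hμe u 1
    rwa [map_one, he] at this
  have hinj : ∀ u, Set.InjOn (μ u) (P' u) := fun u x hx y hy h => by
    simp only [μ, dif_pos (show x ∈ P' u from hx), dif_pos (show y ∈ P' u from hy)] at h
    exact congrArg Subtype.val ((e' u).symm.injective ((e u).injective (Subtype.ext h)))
  obtain ⟨F, hF⟩ := exists_tr N' N.gp φ μ hμ
  have hlift : ∀ g, Reach N S B g → ∃ g', F g' = g := by
    intro g hg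
    induction hg with
    | one => exact ⟨1, hF.one⟩
    | @mul g v a hv ha hb _ ih =>
      obtain ⟨g', rfl⟩ := ih
      let u : S := ⟨v, hv⟩
      obtain ⟨y, hy⟩ := (e u).surjective ⟨_, hb⟩
      refine ⟨g' * ((N'.pi u g')⁻¹ * e' u y), ?_⟩
      rw [hF.mul u _ (mul_mem (inv_mem (N'.pi_mem u g')) (Subtype.prop _)), mul_inv_cancel_left,
        hμe, hy, ← hF.pi_apply N φ hμ hμ1]
      change _ * ((N.pi v (F g'))⁻¹ * N.pi v (F g' * a)) = _
      rw [map_mul, inv_mul_cancel_left, N.pi_self v a ha]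
  refine ⟨S, W', inferInstance, P', hP', fun u => Finite.of_equiv _ (e' u).toEquiv, fun u => ?_,
    MonoidHom.mk' (fun k => F k) fun k k' => hF.mul_cart k.2 _, ?_, fun t ht => ?_⟩
  · obtain ⟨y, hy⟩ := (e u).surjective ⟨t₀ u, Set.mem_insert_of_mem _ (Set.mem_insert _ _)⟩
    refine ⟨e' u y, Subtype.prop _, fun h => ht₁ u ?_⟩
    have := hμe u y
    rw [h, hμ1, hy] at this
    exact this.symm
  · refine (injective_iff_map_eq_one _).2 fun k hk => Subtype.ext (N'.len_eq_zero.1 ?_)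
    rw [← hF.len_eq N φ hμ hinj]
    exact N.len_eq_zero.2 hk
  · obtain ⟨g', hg'⟩ := hlift t ((hR t).mono
      (fun v hv => by simpa [S] using ⟨t, ht, hv⟩) fun v x hx =>
        Set.mem_insert_of_mem _ (Set.mem_insert_of_mem _ (Set.mem_biUnion ht hx)))
    refine ⟨⟨g', N'.mem_cart.2 fun u => hinj u (N'.pi_mem u g') (one_mem _) ?_⟩, hg'⟩
    rw [← hF.pi_apply N φ hμ hμ1, hg', hμ1]
    exact N.mem_cart.1 (hT t ht) _

end Pool.Agent.MP_4f4d9f_gt

end

section

/-! Assembly for graph products and right-angled buildings. -/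

open scoped InnerProductSpace

namespace Pool.Agent.MP_4f4d9f_gt

section Top

variable {n : ℕ} {C : Set (EuclideanSpace ℝ (Fin n))} {M X G : Type} [TopologicalSpace M]
  [TopologicalSpace X] [Group G] [MulAction G X] {p : X → M}

theorem le_of_groupBU (hC : Convex ℝ C) (hC' : (interior C).Nonempty) [T2Space M]
    [ChartedSpace C M] [ContractibleSpace X] (hp : IsQuotientCoveringMap p G) (H : Subgroup G)
    {m : ℕ} (h : GroupBU (Set.univ : Set H) m) : m < n := by
  by_contra hn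
  have := hp.toContinuousConstSMul
  have := t2_of_cover hp
  have : ContinuousConstSMul H X := ⟨fun g => continuous_const_smul (g : G)⟩
  have hac := acyclic_of_contractible (ZMod 2) (X × X)
  have hprop : ∀ K : Set X, IsCompact K → {g : H | ((g • ·) '' K ∩ K).Nonempty}.Finite :=
    fun K hK => Set.Finite.preimage (f := (Subtype.val : H → G)) Subtype.val_injective.injOn
      (proper_of_cover hp K hK)
  obtain ⟨c, h1, h2, h3⟩ := hasBU_of_groupBU hprop hac h
  exact not_hasBU hC hC' (chart_of_cover hp) hac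
    ⟨c, fun j hj => h1 j (by omega), fun j hj => h2 j (by omega), h3⟩

/-- The obstruction theorem for groups acting on the chambers of a thick building. -/
theorem exactTwo_of_action (hC : Convex ℝ C) (hC' : (interior C).Nonempty) [T2Space M]
    [ChartedSpace C M] [ContractibleSpace X] (hp : IsQuotientCoveringMap p G) (H : Subgroup G)
    {V W : Type} [Group W] {Γ : SimpleGraph V} {P : V → Subgroup W} (N : NF Γ P)
    (h3 : ∀ v, ∃ a ∈ P v, ∃ b ∈ P v, a ≠ 1 ∧ b ≠ 1 ∧ a ≠ b) [MulAction H W]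
    (hfree : ∀ (h : H) (c : W), h • c = c → h = 1)
    (hD : ∀ D : Set W, D.Finite →
      {x : W | ∃ (h : H) (c d : W), d ∈ D ∧ x = (h • c)⁻¹ * h • (c * d)}.Finite)
    (hcof : ∀ Ω : Set W, ((fun x v => N.pi v x) '' Ω).Finite →
      ∃ F₀ : Set W, F₀.Finite ∧ ∀ x ∈ Ω, ∃ h : H, h • x ∈ F₀)
    {S : Type} [Fintype S] [DecidableEq S] {Λ : SimpleGraph S} (φ : Λ ↪g Γ) {q : ℕ}
    (hq : n < 2 * q) : ExactTwo Λ q := by
  classical
  by_contra h
  choose a ha b hb ha1 hb1 hab using h3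
  let c (v : V) (s : Bool) : W := if s then a v else b v
  have hBU := groupBU_of_not_exact N c (fun v s => by cases s <;> simp [c, ha, hb])
    (fun v s => by cases s <;> simp [c, ha1, hb1]) (fun v => by simpa [c] using hab v) φ
    (by omega) h
  obtain ⟨F₀, hF₀, hF⟩ := hcof {x | (∀ u, N.pi (φ u) x = 1 ∨ ∃ s, N.pi (φ u) x = c (φ u) s) ∧
      ∀ v, (∀ u, φ u ≠ v) → N.pi v x = 1} (by
    refine (Set.finite_range fun (t : S → Option Bool) (v : V) =>
      if h : ∃ u, φ u = v then (t h.choose).elim 1 (c v) else 1).subset ?_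
    rintro _ ⟨x, ⟨h1, h2⟩, rfl⟩
    have h3 : ∀ u, ∃ o : Option Bool, N.pi (φ u) x = o.elim 1 (c (φ u)) := fun u => by
      rcases h1 u with e | ⟨s, e⟩
      · exact ⟨none, e⟩
      · exact ⟨some s, e⟩
    choose t ht using h3
    refine ⟨t, funext fun v => ?_⟩
    dsimp only
    split_ifs with hv
    · have := ht hv.choose
      rw [hv.choose_spec] at this
      exact this.symm
    · exact (h2 v (not_exists.1 hv)).symm)
  have := le_of_groupBU hC hC' hp H (hBU.transfer hfree hD hF₀ hF)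
  omega

theorem free_of_cover (hp : IsQuotientCoveringMap p G) (g : G) (x : X) (h : g • x = x) : g = 1 :=
  have := hp.isCancelSMul
  IsCancelSMul.right_cancel g 1 _ (h.trans (one_smul _ _).symm)

end Top

section L2

variable {G E : Type} [Group G] [NormedAddCommGroup E] [InnerProductSpace ℂ E]
  (b : HilbertBasis G ℂ E)

theorem exists_rat_vnAlg : ∃ φ : ℚ →+* vnAlg b, ∀ q a, φ q * a = a * φ q := by
  let ψ : ℚ →+* (E →L[ℂ] E) := (algebraMap ℂ (E →L[ℂ] E)).comp (algebraMap ℚ ℂ)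
  have hψ : ∀ q (T : E →L[ℂ] E), ψ q * T = T * ψ q := fun q T =>
    Algebra.commutes (algebraMap ℚ ℂ q) T
  exact ⟨ψ.codRestrict (vnAlg b) fun q T _ => (hψ q T).symm, fun q a => Subtype.ext (hψ q a)⟩

variable {b}

theorem bettiSucc_eq_zero_of_folner {ι : G →* vnAlg b} (hι : ∀ g h, (ι g).1 (b h) = b (g * h))
    {H : Subgroup G} (hH : Folner G (G ⧸ H)) {X : Type} [TopologicalSpace X] [MulAction G X]
    [ContinuousConstSMul G X] (hX : ∀ (g : G) (x : X), g • x = x → g = 1) {k : ℕ}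
    (h : ExactAt (ι.comp H.subtype) (fun k => (permRep G (Sing X k)).comp H.subtype) (bd ℤ X)
      (fun k g c => bd_smul G X k (H.subtype g) c) k) : bettiSucc b ι X k = 0 :=
  homDim_eq_zero_of_folner hι hH (B := Sing X k)
    (fun g σ e => hX g (σ (Classical.arbitrary _))
      (congrArg (fun τ : Sing X k => τ (Classical.arbitrary _)) e))
    (bd ℤ X (k + 1)) (bd_smul G X (k + 1)) (bd ℤ X k) (bd_smul G X k) h

end L2

theorem main_building {n : ℕ} {C : Set (EuclideanSpace ℝ (Fin n))} (hC : Convex ℝ C)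
    (hC' : (interior C).Nonempty)
    {M : Type} [TopologicalSpace M] [T2Space M] [ChartedSpace C M]
    {X : Type} [TopologicalSpace X] [ContractibleSpace X]
    {G : Type} [Group G] [MulAction G X] [ContinuousConstSMul G X]
    {p : X → M} (hp : IsQuotientCoveringMap p G)
    {V W : Type} [Finite V] [Group W] (Γ : SimpleGraph V) (P : V → Subgroup W)
    (hP : IsGraphProd Γ P) (hfin : ∀ v, Finite (P v))
    (h3 : ∀ v, ∃ a ∈ P v, ∃ b ∈ P v, a ≠ 1 ∧ b ≠ 1 ∧ a ≠ b)
    (H : Subgroup G) (hH : Folner G (G ⧸ H)) [MulAction H W]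
    (hadj : ∀ (h : H) (c c' : W) (v : V), c⁻¹ * c' ∈ P v → (h • c)⁻¹ * (h • c') ∈ P v)
    (hfree : ∀ (h : H) (c : W), h • c = c → h = 1)
    (hcof : ∃ F : Finset W, ∀ c : W, ∃ h : H, h • c ∈ F)
    {E : Type} [NormedAddCommGroup E] [InnerProductSpace ℂ E]
    (b : HilbertBasis G ℂ E) (ι : G →* vnAlg b) (hι : ∀ g h, (ι g).1 (b h) = b (g * h))
    (k : ℕ) (hk : n < 2 * (k + 1)) : bettiSucc b ι X k = 0 := by
  letI : LinearOrder V := @linearOrderOfSTO V WellOrderingRel _ (Classical.decRel _)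
  obtain ⟨N⟩ := nonempty_NF hP
  obtain ⟨φ, hφ⟩ := exists_rat_vnAlg b
  refine bettiSucc_eq_zero_of_folner hι hH (free_of_cover hp)
    (exactAt_of_building N hfin (fun v => ?_) hadj hfree hcof (MonoidHom.id H)
      Function.injective_id (free_of_cover hp) H.subtype H.subtype_injective
      (fun l hl S => ?_) _ φ hφ)
  · obtain ⟨a, ha, -, -, ha1, -⟩ := h3 v
    exact ⟨a, ha, ha1⟩
  · refine exactTwo_of_action hC hC' hp H N h3 hfree (fun D hD => ?_) (fun Ω _ => ?_)
      ⟨⟨Subtype.val, Subtype.val_injective⟩, Iff.rfl⟩ (by omega)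
    · obtain ⟨R, hR⟩ := (hD.image N.len).bddAbove
      refine (N.finite_ball hfin R).subset ?_
      rintro _ ⟨h, c, d, hd, rfl⟩
      exact (N.len_le_of_adj (θ := (h • ·)) (hadj h) c d).trans (hR ⟨d, hd, rfl⟩)
    · obtain ⟨F, hF⟩ := hcof
      exact ⟨F, F.finite_toSet, fun x _ => hF x⟩

theorem main_graphProd {n : ℕ} {C : Set (EuclideanSpace ℝ (Fin n))} (hC : Convex ℝ C)
    (hC' : (interior C).Nonempty)
    {M : Type} [TopologicalSpace M] [T2Space M] [ChartedSpace C M]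
    {X : Type} [TopologicalSpace X] [ContractibleSpace X]
    {G : Type} [Group G] [MulAction G X] [ContinuousConstSMul G X]
    {p : X → M} (hp : IsQuotientCoveringMap p G)
    {V W : Type} [Group W] (Γ : SimpleGraph V) (P : V → Subgroup W) (hP : IsGraphProd Γ P)
    (h3 : ∀ v, ∃ a ∈ P v, ∃ b ∈ P v, a ≠ 1 ∧ b ≠ 1 ∧ a ≠ b)
    (H : Subgroup G) (hH : Folner G (G ⧸ H))
    (j : H →* cart P) (hj : Function.Injective j) [j.range.FiniteIndex]
    {E : Type} [NormedAddCommGroup E] [InnerProductSpace ℂ E]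
    (b : HilbertBasis G ℂ E) (ι : G →* vnAlg b) (hι : ∀ g h, (ι g).1 (b h) = b (g * h))
    (k : ℕ) (hk : n < 2 * (k + 1)) : bettiSucc b ι X k = 0 := by
  classical
  letI : LinearOrder V := @linearOrderOfSTO V WellOrderingRel _ (Classical.decRel _)
  obtain ⟨N⟩ := nonempty_NF hP
  obtain ⟨φ, hφ⟩ := exists_rat_vnAlg b
  let j' : H →* W := (cart P).subtype.comp j
  have hj' : Function.Injective j' := (cart P).subtype_injective.comp hj
  have hex : ∀ {S : Type} [Fintype S] [DecidableEq S] {Λ : SimpleGraph S} (_ : Λ ↪g Γ) {l : ℕ},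
      k ≤ l → ExactTwo Λ (l + 1) := by
    intro S _ _ Λ e l hl
    letI : MulAction H W := MulAction.compHom W j'
    have hsm : ∀ (h : H) (c : W), h • c = j' h * c := fun _ _ => rfl
    refine exactTwo_of_action hC hC' hp H N h3 (fun h c e => ?_) (fun D hD => hD.subset ?_)
      (fun Ω hΩ => ?_) e (by omega)
    · rwa [hsm, mul_eq_right, map_eq_one_iff _ hj'] at e
    · rintro _ ⟨h, c, d, hd, rfl⟩
      simpa [hsm, mul_assoc] using hd
    · obtain ⟨Ω₀, hΩ₀, hfin, him⟩ := hΩ.exists_subset_finite_image_eq (s := Ω) subset_rfl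
      have hq : (Set.range fun q : cart P ⧸ j.range => (q.out⁻¹ : W)).Finite := Set.finite_range _
      refine ⟨Set.image2 (· * ·) _ Ω₀, hq.image2 _ hfin, fun x hx => ?_⟩
      obtain ⟨y, hy, e⟩ : (fun v => N.pi v x) ∈ (fun x v => N.pi v x) '' Ω₀ :=
        him ▸ Set.mem_image_of_mem _ hx
      have hk : y * x⁻¹ ∈ cart P := N.mem_cart.2 fun v => by
        rw [map_mul, map_inv, mul_inv_eq_one]
        exact congrFun e v
      obtain ⟨⟨_, h, rfl⟩, hh⟩ := QuotientGroup.mk_out_eq_mul j.range ⟨_, hk⟩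
      refine ⟨h⁻¹, _, ⟨QuotientGroup.mk ⟨_, hk⟩, rfl⟩, y, hy, ?_⟩
      dsimp only
      rw [hh, hsm, map_inv]
      change ((y * x⁻¹) * j' h)⁻¹ * y = _
      group
  refine bettiSucc_eq_zero_of_folner hι hH (free_of_cover hp)
    (exactAt_of_directed _ _ _ _ _ fun T => ?_)
  have hnt : ∀ v, ∃ t ∈ P v, t ≠ 1 := fun v => by
    obtain ⟨a, ha, -, -, ha1, -⟩ := h3 v
    exact ⟨a, ha, ha1⟩
  obtain ⟨S, W', _, P', hP', hfin, hnt', ψ, hψ, hT⟩ := exists_finite_model N hnt (T.image j')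
    (fun t ht => by
      obtain ⟨h, -, rfl⟩ := Finset.mem_image.1 ht
      exact (j h).2)
  obtain ⟨N'⟩ := nonempty_NF hP'
  let K : Subgroup H := ψ.range.comap j'
  let j₁ : K →* ψ.range := (j'.comp K.subtype).codRestrict _ fun x => x.2
  let j₂ : K →* W' := (cart P').subtype.comp ((MonoidHom.ofInjective hψ).symm.toMonoidHom.comp j₁)
  refine ⟨K, fun t ht => hT _ (Finset.mem_image_of_mem _ ht), ?_⟩
  refine exactAt_of_building N' hfin hnt' (K := W') (fun h c c' v hv => by simpa [mul_assoc] using hv)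
    (fun h c e => mul_eq_right.1 e) ⟨{1}, fun c => ⟨c⁻¹, by simp⟩⟩ j₂ ?_ (free_of_cover hp)
    (H.subtype.comp K.subtype) (H.subtype_injective.comp K.subtype_injective)
    (fun l hl S' => hex ⟨⟨fun u => u.1.1, Subtype.val_injective.comp Subtype.val_injective⟩,
      Iff.rfl⟩ hl) _ φ hφ
  exact (cart P').subtype_injective.comp ((MonoidHom.ofInjective hψ).symm.injective.comp
    fun x y (e : j₁ x = j₁ y) =>
      Subtype.ext (hj' (congrArg (Subtype.val : ψ.range → W) e)))

end Pool.Agent.MP_4f4d9f_gt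

end
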