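import Pool.Agent.MP_4f4d9f_gt.Defs
import Pool.Agent.Mg.F4f4d9fr.G7a3b7e

set_option linter.all false

/-! The Ore condition in the group von Neumann algebra. -/

open scoped InnerProductSpace ComplexConjugate

namespace Pool.Agent.MP_4f4d9f_gt

variable {G : Type}

theorem perm_apply (e : G ≃ G) (ξ : L2 G) (g : G) : perm e ξ g = ξ (e g) := rfl

theorem star_perm (e : G ≃ G) : star (perm e) = perm e.symm := by
  symm
  rw [ContinuousLinearMap.star_eq_adjoint, ContinuousLinearMap.eq_adjoint_iff]
  intro ξ η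
  rw [lp.inner_eq_tsum, lp.inner_eq_tsum, ← e.tsum_eq]
  simp [perm_apply]

open Classical in
/-- The standard basis vectors. -/
noncomputable def dlt (g : G) : L2 G := lp.single 2 g 1

theorem inner_dlt (g : G) (ξ : L2 G) : ⟪dlt g, ξ⟫_ℂ = ξ g := by
  classical
  rw [dlt, lp.inner_single_left]
  simp

theorem norm_dlt (g : G) : ‖dlt g‖ = 1 := by
  classical
  rw [dlt, lp.norm_single (by norm_num)]
  simp

variable [Group G]

/-- The right translations. -/
abbrev RT (G : Type) [Group G] : Set (L2 G →L[ℂ] L2 G) :=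
  Set.range fun g : G => perm (Equiv.mulRight g)

theorem star_RT : ∀ r ∈ RT G, star r ∈ RT G := by
  rintro _ ⟨g, rfl⟩
  exact ⟨g⁻¹, by rw [star_perm]; rfl⟩

theorem perm_dlt (g : G) : perm (Equiv.mulRight g⁻¹) (dlt 1) = dlt g := by
  classical
  ext h
  simp [perm_apply, dlt, lp.single_apply, Pi.single_apply, mul_inv_eq_one]

theorem apply_dlt {u : L2 G →L[ℂ] L2 G} (hu : u ∈ (RT G).centralizer) (g : G) :
    u (dlt g) = perm (Equiv.mulRight g⁻¹) (u (dlt 1)) := by
  rw [← perm_dlt g]
  exact (congrArg (fun T : L2 G →L[ℂ] L2 G => T (dlt 1)) (hu _ ⟨g⁻¹, rfl⟩)).symm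

theorem eq_zero_of_apply_dlt {u : L2 G →L[ℂ] L2 G} (hu : u ∈ (RT G).centralizer)
    (h : u (dlt 1) = 0) : u = 0 := by
  rw [← star_eq_zero]
  ext ξ g
  rw [← inner_dlt, ContinuousLinearMap.star_eq_adjoint, ContinuousLinearMap.adjoint_inner_right,
    apply_dlt hu, h, map_zero, inner_zero_left]
  rfl

theorem star_apply_dlt {u : L2 G →L[ℂ] L2 G} (hu : u ∈ (RT G).centralizer) (g : G) :
    (star u : L2 G →L[ℂ] L2 G) (dlt 1) g = conj (u (dlt 1) g⁻¹) := by
  rw [← inner_dlt, ContinuousLinearMap.star_eq_adjoint, ContinuousLinearMap.adjoint_inner_right,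
    ← inner_conj_symm, inner_dlt, apply_dlt hu, perm_apply]
  simp

theorem norm_star_apply_dlt {u : L2 G →L[ℂ] L2 G} (hu : u ∈ (RT G).centralizer) :
    ‖(star u : L2 G →L[ℂ] L2 G) (dlt 1)‖ = ‖u (dlt 1)‖ := by
  rw [lp.norm_eq_tsum_rpow (by norm_num), lp.norm_eq_tsum_rpow (by norm_num),
    ← (Equiv.inv G).tsum_eq]
  simp [star_apply_dlt hu]

theorem finCom_RT : VNAbs.FinCom (RT G) := by
  intro u hu h1
  have hiso : ∀ ξ, ‖u ξ‖ ^ 2 = ‖ξ‖ ^ 2 := by
    intro ξ
    have := VNAbs.norm_sq_eq u ξ
    have h2 := VNAbs.norm_sq_eq 1 ξ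
    rw [star_one, one_mul, ← h1, ← this, h1, one_apply_eq_self] at h2
    exact (Complex.ofReal_injective h2).symm
  have h2 : ‖(star u : L2 G →L[ℂ] L2 G) (dlt 1)‖ ^ 2 = 1 := by
    rw [norm_star_apply_dlt hu, hiso, norm_dlt, one_pow]
  have h3 : (1 - u * star u) (dlt 1) = 0 := by
    have h4 := VNAbs.norm_sq_eq (star u) (dlt 1)
    rw [star_star, h2] at h4
    have h5 := VNAbs.norm_sq_eq (1 - u * star u) (dlt 1)
    have h6 : star (1 - u * star u) * (1 - u * star u) = 1 - u * star u := by
      have : u * star u * (u * star u) = u * star u := by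
        rw [mul_assoc, ← mul_assoc (star u), h1, one_mul]
      simp only [star_sub, star_one, star_mul, star_star, mul_sub, sub_mul, one_mul, mul_one, this]
      abel
    rw [h6, sub_apply, inner_sub_right, ← h4, one_apply_eq_self, inner_self_eq_norm_sq_to_K,
      norm_dlt] at h5
    have h7 : ‖(1 - u * star u) (dlt (1 : G))‖ ^ 2 = 0 := by
      have : ((‖(1 - u * star u) (dlt (1 : G))‖ ^ 2 : ℝ) : ℂ) = 0 := by
        rw [sub_apply, one_apply_eq_self, h5]
        simp
      exact_mod_cast this
    simpa using h7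
  have := eq_zero_of_apply_dlt (VNAbs.one_sub_mem
    (Set.mul_mem_centralizer hu (VNAbs.star_mem star_RT hu))) h3
  exact (sub_eq_zero.1 this).symm

theorem isLeftRegular_of_injective {s : VN G} (h : Function.Injective s.1) : IsLeftRegular s :=
  fun _ _ e => Subtype.ext (VNAbs.cancel_left h (congrArg Subtype.val e))

theorem isRightRegular_of_denseRange {s : VN G} (h : DenseRange s.1) : IsRightRegular s :=
  fun _ _ e => Subtype.ext (VNAbs.cancel_right h (congrArg Subtype.val e))

theorem injective_of_isLeftRegular {a : VN G} (ha : IsLeftRegular a) : Function.Injective a.1 :=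
  VNAbs.injective_of_regular star_RT a.2 fun e he h =>
    congrArg Subtype.val (ha (a₁ := ⟨e, he⟩) (a₂ := 0) (Subtype.ext (by simpa using h)))

theorem injective_of_isRightRegular {a : VN G} (ha : IsRightRegular a) :
    Function.Injective a.1 := by
  have hs := VNAbs.star_mem star_RT a.2
  have h1 : Function.Injective (star a.1 : L2 G →L[ℂ] L2 G) :=
    VNAbs.injective_of_regular star_RT hs fun e he h => by
      have h2 : star e * a.1 = 0 := by simpa using congrArg star h
      have h3 := ha (a₁ := ⟨star e, VNAbs.star_mem star_RT he⟩) (a₂ := 0)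
        (Subtype.ext (by simpa using h2))
      simpa using congrArg Subtype.val h3
  simpa using VNAbs.injective_star star_RT finCom_RT hs h1

/-- In `N(G)` left regular and right regular elements are the same. -/
theorem isLeftRegular_iff_isRightRegular {a : VN G} : IsLeftRegular a ↔ IsRightRegular a :=
  ⟨fun h => isRightRegular_of_denseRange (VNAbs.denseRange_of_star_injective
      (VNAbs.injective_star star_RT finCom_RT a.2 (injective_of_isLeftRegular h))),
    fun h => isLeftRegular_of_injective (injective_of_isRightRegular h)⟩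

theorem injective_lam_sub_one {g : G} (hg : ¬ IsOfFinOrder g) :
    Function.Injective (lam G g - 1 : VN G).1 := by
  refine (injective_iff_map_eq_zero _).2 fun ξ hξ => ?_
  have h1 : ∀ h, ξ (g⁻¹ * h) = ξ h := fun h =>
    sub_eq_zero.1 (congrArg (fun η : L2 G => η h) hξ)
  ext h
  have h2 : ∀ n : ℕ, ξ (g⁻¹ ^ n * h) = ξ h := by
    intro n
    induction n with
    | zero => simp
    | succ n ih => rw [pow_succ', mul_assoc, h1, ih]
  have h3 : Function.Injective fun n : ℕ => g⁻¹ ^ n * h :=
    (mul_left_injective h).comp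
      (injective_pow_iff_not_isOfFinOrder.2 (by rwa [isOfFinOrder_inv_iff]))
  have h4 := ((memℓp_gen_iff (by norm_num)).1 (lp.memℓp ξ)).tendsto_cofinite_zero.comp
    h3.tendsto_cofinite
  have h5 : (fun g => ‖ξ g‖ ^ (2 : ENNReal).toReal) ∘ (fun n : ℕ => g⁻¹ ^ n * h) =
      fun _ => ‖ξ h‖ ^ (2 : ENNReal).toReal := by
    funext n
    simp only [Function.comp_apply, h2]
  rw [h5, tendsto_const_nhds_iff] at h4
  simpa using h4

theorem rightRegular_lam_sub_one {g : G} (hg : ¬ IsOfFinOrder g) :
    IsRightRegular (lam G g - 1) :=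
  isLeftRegular_iff_isRightRegular.1 (isLeftRegular_of_injective (injective_lam_sub_one hg))

/-- The Ore condition in `N(G)`. -/
theorem ore {a : VN G} (ha : IsRightRegular a) (y : VN G) :
    ∃ s b : VN G, IsLeftRegular s ∧ s * y = b * a := by
  obtain ⟨s, b, hs, hb, hi, e⟩ :=
    VNAbs.ore star_RT finCom_RT y.2 a.2 (injective_of_isRightRegular ha)
  exact ⟨⟨s, hs⟩, ⟨b, hb⟩, isLeftRegular_of_injective hi, Subtype.ext e⟩

/-- A module all of whose elements are killed by a left regular element has dimension `0`. -/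
theorem vnDim_eq_zero_of_torsion {M : Type} [AddCommGroup M] [Module (VN G) M]
    (h : ∀ x : M, ∃ s : VN G, IsLeftRegular s ∧ s • x = 0) : vnDim G M = 0 := by
  simp only [vnDim, ENNReal.iSup_eq_zero]
  intro r A _ f hf
  have h0 : ∀ i, A i i = 0 := by
    intro i
    let x : LinearMap.range A.vecMulLinear := ⟨_, LinearMap.mem_range_self _ (Pi.single i 1)⟩
    obtain ⟨s, hs, hx⟩ := h (f x)
    have h1 : s • x = 0 := hf (by rw [map_smul, hx, map_zero])
    have h2 := congrFun (congrArg Subtype.val h1) i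
    refine hs (a₂ := 0) ?_
    simpa [x] using h2
  simp [h0, trace]

end Pool.Agent.MP_4f4d9f_gt
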