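import Pool.Agent.Mg.F4f4d9fr.G4ad208
import Pool.Agent.Mg.F4f4d9fr.G69af78
import Pool.Agent.Mg.F4f4d9fr.G4a8d50
import Pool.Agent.Mg.F4f4d9fr.Gf2687c

set_option linter.all false

/-! Reduction to sigma-compact manifolds without boundary. -/

namespace Pool.Agent.MP_4f4d9f_gt.Nc

open Sg Hy Topology

section Sub

variable (H : Type) [Group H] (X : Type) [TopologicalSpace X] [MulAction H X]

/-- A contractible open invariant piece with the property `P`. -/
def Piece (P : (Y : Type) → [TopologicalSpace Y] → Prop) : Prop :=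
  ∃ (Y : Type) (_ : TopologicalSpace Y) (_ : MulAction H Y) (_ : ContinuousConstSMul H Y)
    (f : Y → X), IsOpenEmbedding f ∧ (∀ (g : H) y, f (g • y) = g • f y) ∧ ContractibleSpace Y ∧ P Y

variable {H X} {P : (Y : Type) → [TopologicalSpace Y] → Prop}

theorem piece_of [ContinuousConstSMul H X] {Y : Set X} (h1 : IsOpen Y)
    (h2 : ∀ (g : H), ∀ y ∈ Y, g • y ∈ Y) (h3 : ContractibleSpace Y) (h4 : P Y) : Piece H X P := by
  let S : SubMulAction H X := ⟨Y, fun g y hy => h2 g y hy⟩
  let _ : MulAction H Y := (inferInstance : MulAction H S)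
  exact ⟨Y, inferInstance, inferInstance,
    ⟨fun g => ((continuous_const_smul g).comp continuous_subtype_val).subtype_mk _⟩,
    Subtype.val, h1.isOpenEmbedding_subtypeVal, fun _ _ => rfl, h3, h4⟩

theorem Piece.trans {Y : Type} [TopologicalSpace Y] [MulAction H Y] {f : Y → X}
    (h1 : IsOpenEmbedding f) (h2 : ∀ (g : H) y, f (g • y) = g • f y) (h : Piece H Y P) :
    Piece H X P := by
  obtain ⟨Z, _, _, _, f', a1, a2, a3, a4⟩ := h
  exact ⟨Z, _, _, inferInstance, f ∘ f', h1.comp a1, fun g y => by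
    rw [Function.comp_apply, a2, h2, Function.comp_apply], a3, a4⟩

theorem chart_pull {Y C : Type} [TopologicalSpace Y] [TopologicalSpace C] {f : Y → X}
    (h1 : IsOpenEmbedding f) (h : ∀ x : X, ∃ e : OpenPartialHomeomorph X C, x ∈ e.source) (y : Y) :
    ∃ e : OpenPartialHomeomorph Y C, y ∈ e.source := by
  have : Nonempty Y := ⟨y⟩
  obtain ⟨e, he⟩ := h (f y)
  exact ⟨(h1.toOpenPartialHomeomorph f).trans e, by simpa using he⟩

theorem wlc_of_chart {C : Type} [TopologicalSpace C] [LocallyCompactSpace C]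
    (h : ∀ x : X, ∃ e : OpenPartialHomeomorph X C, x ∈ e.source) :
    WeaklyLocallyCompactSpace X := ⟨fun x => by
  obtain ⟨e, he⟩ := h x
  obtain ⟨K, h1, h2, h3⟩ := local_compact_nhds (e.open_target.mem_nhds (e.map_source he))
  refine ⟨e.symm '' K, h3.image_of_continuousOn (e.continuousOn_symm.mono h2), ?_⟩
  simpa [e.left_inv he] using e.symm.image_mem_nhds (e.map_source he) h1⟩

theorem chart_of_emb {m : ℕ} {x : X} (h : x ∈ EuPt X m) :
    ∃ e : OpenPartialHomeomorph X (Eu m), x ∈ e.source := by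
  obtain ⟨i, hi, hx⟩ := h
  exact ⟨(hi.toOpenPartialHomeomorph i).symm, by simpa using hx⟩

theorem isOpen_euPt (m : ℕ) : IsOpen (EuPt X m) :=
  isOpen_iff_mem_nhds.2 fun _ ⟨i, hi, hx⟩ =>
    Filter.mem_of_superset (hi.isOpen_range.mem_nhds hx) fun _ hy => ⟨i, hi, hy⟩

theorem euPt_map {Y : Type} [TopologicalSpace Y] {f : Y → X} (h : IsOpenEmbedding f) {m : ℕ} {y : Y}
    (hy : y ∈ EuPt Y m) : f y ∈ EuPt X m := by
  obtain ⟨i, hi, z, rfl⟩ := hy
  exact ⟨⟨f ∘ i, h.continuous.comp i.continuous⟩, h.comp hi, z, rfl⟩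

theorem charts_euPt (m : ℕ) : Charts (EuPt X m) m := charts_of fun y => by
  obtain ⟨e, he⟩ := chart_of_emb y.2
  have : Nonempty (EuPt X m) := ⟨y⟩
  exact ⟨((isOpen_euPt m).isOpenEmbedding_subtypeVal.toOpenPartialHomeomorph _).trans e,
    by simpa using he⟩

theorem exists_piece [Countable H] [ContinuousConstSMul H X]
    [T2Space X] [LocallyCompactSpace X] [ContractibleSpace X] {m : ℕ} {C : Set (Eu m)}
    (hC : Convex ℝ C) (hC' : (interior C).Nonempty)
    (h : ∀ x : X, ∃ e : OpenPartialHomeomorph X C, x ∈ e.source) :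
    Piece H X fun Y _ => SigmaCompactSpace Y ∧ Charts Y m := by
  obtain ⟨Y, a1, a2, a3, a4⟩ := sub_stmt H X
  obtain ⟨Y, _, _, _, f, b1, b2, b3, b4⟩ := piece_of (P := fun Y _ => SigmaCompactSpace Y) a1 a2 a4
    (isSigmaCompact_iff_sigmaCompactSpace.1 a3)
  have := b1.isEmbedding.t2Space
  have := b1.locallyCompactSpace
  obtain ⟨Z, _, _, _, f', c1, c2, c3, c4⟩ := piece_of (H := H) (P := fun Y _ => Charts Y m)
    (isOpen_euPt (X := Y) m) (fun g y hy => euPt_map (Homeomorph.smul g).isOpenEmbedding hy)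
    (push_stmt m C hC hC' Y (chart_pull b1 h)) (charts_euPt m)
  have := c1.locallyCompactSpace
  obtain ⟨W, d1, d2, d3, d4⟩ := sub_stmt H Z
  exact Piece.trans b1 b2 (Piece.trans c1 c2 (piece_of d1 d2 d4
    ⟨isSigmaCompact_iff_sigmaCompactSpace.1 d3, charts_of (chart_pull
      d1.isOpenEmbedding_subtypeVal fun z => chart_of_emb (c4 z))⟩))

end Sub

theorem main_top (h0 : GoalStmt) {n : ℕ} (hn : 3 ≤ n)
    {C : Set (EuclideanSpace ℝ (Fin n))} (hC : Convex ℝ C) (hC' : (interior C).Nonempty)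
    (hC'' : IsClosed C) {M : Type} [TopologicalSpace M] [T2Space M] [ChartedSpace C M]
    {X : Type} [TopologicalSpace X] [ContractibleSpace X]
    {G : Type} [Group G] [MulAction G X] [ContinuousConstSMul G X]
    {p : X → M} (hp : IsQuotientCoveringMap p G)
    {E : Type} [NormedAddCommGroup E] [InnerProductSpace ℂ E]
    (b : HilbertBasis G ℂ E) (ι : G →* vnAlg b) (hι : ∀ g h, (ι g).1 (b h) = b (g * h))
    {k : ℕ} (hk : n ≤ k + 2) : bettiSucc b ι X k = 0 := by
  obtain ⟨m, rfl⟩ : ∃ m, n = m + 1 := ⟨n - 1, by omega⟩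
  by_cases hM : CompactSpace M ∧ Charts X m
  · obtain ⟨_, hc⟩ := hM
    have : ∀ z : M, ∃ e : OpenPartialHomeomorph M (Eu m), z ∈ e.source := fun z => by
      obtain ⟨x, rfl⟩ := hp.surjective z
      obtain ⟨e, he, rfl⟩ := hp.isCoveringMap.isLocalHomeomorph x
      obtain ⟨e', he'⟩ := chart_of_emb (hc x)
      exact ⟨e.symm.trans e', by simp [he, he']⟩
    choose e he using this
    let _ : ChartedSpace (Eu m) M := ⟨Set.range e, e, he, fun z => ⟨z, rfl⟩⟩
    exact Ku.main hn hp b ι hι hk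
  have := t2_of_cover hp
  have := hC''.locallyCompactSpace
  have := wlc_of_chart (C := C) (chart_of_cover hp)
  have hf : ∀ (g : G) (y : X), g • y = y → g = 1 := fun g y e => by
    have := hp.isCancelSMul
    exact IsCancelSMul.right_cancel g 1 _ (e.trans (one_smul _ _).symm)
  refine singDim_eq_zero (by simp) (torsAt_of_directed _ _ _ _ k fun T => ?_)
  let K := (FreeGroup.lift (Subtype.val : T → G)).range
  have : Countable K := (MonoidHom.rangeRestrict_surjective _).countable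
  have : ContinuousConstSMul K X := ⟨fun g => continuous_const_smul (g : G)⟩
  obtain ⟨Y, _, _, _, f, a1, a2, a3, a4, a5⟩ :=
    exists_piece (H := K) hC hC' (chart_of_cover hp)
  have := a1.isEmbedding.t2Space
  refine ⟨K, fun t ht => ⟨.of ⟨t, ht⟩, by simp⟩, tors_of (ι := ι.comp K.subtype) h0
    K.subtype_injective (fun g => hι g) (by omega) a5 (fun L hL => ?_) (fun g y e => ?_)
    (fun L hL => ?_) (by omega) (isRes_sing hp K.subtype K.subtype_injective)⟩
  · refine ((proper_of_cover hp _ (hL.image a1.continuous)).preimage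
      Subtype.val_injective.injOn).subset ?_
    rintro g ⟨_, ⟨y, b1, rfl⟩, b2⟩
    exact ⟨f (g • y), ⟨_, ⟨y, b1, rfl⟩, (a2 g y).symm⟩, _, b2, rfl⟩
  · exact Subtype.ext (hf g (f y) ((a2 g y).symm.trans (congrArg f e)))
  · by_contra! hne
    have b1 : p '' (f '' L) = p '' Set.range f := by
      refine (Set.image_mono (Set.image_subset_range _ _)).antisymm ?_
      rintro _ ⟨_, ⟨y, rfl⟩, rfl⟩
      obtain ⟨g, hg⟩ := hne y
      exact ⟨_, ⟨_, hg, rfl⟩, by rw [a2]; exact hp.map_smul (g : G)⟩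
    have b2 : IsCompact (p '' (f '' L)) := (hL.image a1.continuous).image hp.continuous
    have : PreconnectedSpace M := hp.surjective.denseRange.preconnectedSpace hp.continuous
    have b3 : p '' Set.range f = Set.univ := IsClopen.eq_univ
      ⟨b1 ▸ b2.isClosed, hp.isOpenQuotientMap.isOpenMap _ a1.isOpen_range⟩
      ((Set.range_nonempty f).image p)
    refine hM ⟨⟨by rwa [← b3, ← b1]⟩, fun x => ?_⟩
    obtain ⟨_, ⟨y, rfl⟩, e⟩ := b3.symm ▸ Set.mem_univ (p x)
    obtain ⟨g, rfl⟩ := hp.apply_eq_iff_mem_orbit.1 e.symm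
    exact euPt_map (Homeomorph.smul g).isOpenEmbedding (euPt_map a1 (a5 y))

end Pool.Agent.MP_4f4d9f_gt.Nc
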